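import Pool.Agent.M3.Bin.Defs
import Pool.Agent.PWM.TrBinEnd

/-!
# GM/BinI : the finite theorem in the binary model for every finite set of vertices and EVERY box (section 6)

* `FaceI F` : the function `F i` misses the vertex `i`; `bavI F x l w` : mean over the window of the level `l`
  (exponent `l + 1`) of the product of all functions;
* `BinI ι` : THE STATEMENT: for every `k` and every `N < k`, in the group `ZMod (2 ^ k)`;
* `binTh_of_binI : BinI (Fin m) → BinTh m`, `final_of_binI : BinI (Fin m) → FinalM m`.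
-/

set_option autoImplicit false
set_option linter.unusedSectionVars false

namespace Pool.Agent.GM

open Finset Pool.Agent.PWZ Pool.Agent.M3 Pool.Agent.M3.Bin

noncomputable section

/-- the function `F i` misses the vertex `i` -/
def FaceI {k : ℕ} {ι : Type} (F : ι → (ι → V k) → V k → ℝ) : Prop :=
  ∀ i x y d, (∀ j, j ≠ i → x j = y j) → F i x d = F i y d

/-- mean over the window `J = y - [0, 2^(l+1))`, `y = sum x + (w mod 2^(l+1))` -/
def bavI {k : ℕ} {ι : Type} [Fintype ι] (F : ι → (ι → V k) → V k → ℝ) (x : ι → V k) (l w : ℕ) : ℝ :=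
  ((2 : ℝ) ^ (l + 1))⁻¹ * ∑ n ∈ range (2 ^ (l + 1)),
    ∏ i, F i x (∑ j, x j + ((w % 2 ^ (l + 1) : ℕ) : V k) - (n : V k))

/-- THE FINITE THEOREM in the binary model, vertices `ι`, every group `ZMod (2 ^ k)`, noise `w < 2 ^ N`, `N < k`,
levels `l < N` -/
def BinI (ι : Type) [Fintype ι] [DecidableEq ι] : Prop :=
  ∀ c : ℝ, 0 < c → ∀ η : ℝ, 0 < η → ∃ K : ℝ, 0 ≤ K ∧ ∀ k N : ℕ, N < k →
    ∀ F : ι → (ι → V k) → V k → ℝ, FaceI F → (∀ i x d, |F i x d| ≤ 1) →
    ∃ (mark : (ι → V k) → ℕ → ℕ → Prop) (exc : (ι → V k) → ℕ → Prop),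
      (∑ x : ι → V k, ∑ w ∈ range (2 ^ N), ∑ j ∈ range N, ind (mark x w j)) ≤
        K * (((2 : ℝ) ^ k) ^ Fintype.card ι * 2 ^ N) ∧
      (∑ x : ι → V k, ∑ w ∈ range (2 ^ N), ind (exc x w)) ≤ η * (((2 : ℝ) ^ k) ^ Fintype.card ι * 2 ^ N) ∧
      ∀ x, ∀ w < 2 ^ N, ¬ exc x w → ∀ l' l, l' ≤ l → l < N →
        (∀ j, l' ≤ j → j < l → ¬ mark x w j) → |bavI F x l w - bavI F x l' w| < c

theorem binTh_of_binI {m : ℕ} (h : BinI (Fin m)) : Pool.PWM.BinTh m := by
  intro c hc η hη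
  obtain ⟨K, hK0, hK⟩ := h c hc η hη
  refine ⟨K, hK0, fun L M0 => ?_⟩
  set k : ℕ := max (L + 2) M0 with hk
  have hNk : L + 1 < k := lt_of_lt_of_le (by omega) (le_max_left (L + 2) M0)
  refine ⟨2 ^ k, (le_max_right (L + 2) M0).trans (Nat.lt_two_pow_self).le, inferInstance, ?_⟩
  intro F hFace hF
  obtain ⟨mark, exc, h1, h2, h3⟩ := hK k (L + 1) hNk F hFace hF
  rw [Fintype.card_fin] at h1 h2
  refine ⟨mark, exc, ?_, ?_, ?_⟩
  · refine h1.trans (le_of_eq ?_)
    push_cast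
    ring
  · refine h2.trans (le_of_eq ?_)
    push_cast
    ring
  · intro x w hw hx l' l hl hlL hno
    exact h3 x w hw hx l' l hl (by omega) hno

theorem final_of_binI {m : ℕ} (h : BinI (Fin m)) : Pool.PWM.FinalM m :=
  Pool.PWM.finalM_of_bin m (binTh_of_binI h)

end

end Pool.Agent.GM
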