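import Pool.Agent.GMC.BriH

/-!
# GM/BridgeC2: pairs are cold, the form of the consumers (helper83)

`HotP s h R o q hh r t` : the hot event of the pair `a`, `b` at the time `t` (a micro node of the times `≤ t` at which the
kernel `TS` is `≥ 2 r`); increasing in `t`.

* `HotP_Pr` : from a bound in the model `S2` of C2 (hypotheses `InsH`: `GMC.insU_H`);
* `HotP_cold` : hypothesis (C) of G5.0 for `S = {a, b}`: given the vertices `a`, `b`, ALL the noise and the cells of a
  scale `r1 ≤ N - t - hh` of the others, the probability of `B t` and not hot is at most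
  `2 ^ (n * (N - t - hh - r1)) * ((n + 1) * δ)`;
* `HotP_fac` : measurability.
-/

set_option autoImplicit false
set_option linter.unusedSectionVars false

namespace Pool.Agent.GM

open Finset Pool.Agent.PWZ Pool.Agent.M3 Pool.Agent.M3.Bin
open Pool.Agent.M3.Mod (av)
open Pool.Agent.GMC (Enu oth oth_inj oth_range insU cf cf_macro Pu va vb)

variable {k N n : ℕ} {ι Θ P : Type} [Fintype ι] [DecidableEq ι] (s : V k)

section defs

variable [Fintype Θ] [Nonempty Θ] [Fintype P] [Nonempty P]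

/-- THE HOT EVENT of the pair -/
def HotP (h : ℕ) (R : ι → Fam k ι P) {a b : ι} (o : Enu n a b) (q hh : ℕ) (r : ℝ) (t : ℕ) (ω : Sq k N ι Θ P) : Prop :=
  ∃ t' ≤ (n + 1) * t, 2 * r ≤ TS s h R {a, b} (oth o) q (cf N hh n t') ω

theorem HotP_mono {h : ℕ} {R : ι → Fam k ι P} {a b : ι} {o : Enu n a b} {q hh : ℕ} {r : ℝ} {t t' : ℕ} (htt : t ≤ t')
    {ω : Sq k N ι Θ P} (hω : HotP s h R o q hh r t ω) : HotP s h R o q hh r t' ω := by
  obtain ⟨u, hu, h1⟩ := hω
  exact ⟨u, hu.trans (Nat.mul_le_mul_left _ htt), h1⟩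

/-- the nodes of the configurations are functions of the node of the last one -/
theorem nuc_fac (o : Fin n → ι) {hh t t' : ℕ} (htt : t' ≤ t) :
    Fac (nuc (Θ := Θ) (P := P) (k := k) (N := N) s o (cf N hh n t)) (nuc s o (cf N hh n t')) := by
  have h1 : (cf N hh n t).1 ≤ (cf N hh n t').1 := by
    unfold cf
    simp only
    have := Nat.div_le_div_right (c := n + 1) (show t' + n ≤ t + n by omega)
    omega
  have h2 : ∀ i, (cf N hh n t).2 i ≤ (cf N hh n t').2 i := by
    intro i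
    unfold cf
    simp only
    have := Nat.div_le_div_right (c := n + 1) (show t' + (n - 1 - i.val) ≤ t + (n - 1 - i.val) by omega)
    omega
  intro v w hvw
  unfold nuc at hvw ⊢
  simp only [Prod.mk.injEq] at hvw
  refine Prod.ext ?_ (funext fun i => ?_)
  · exact GMC.nd_le h1 hvw.1
  · exact flr_mono_eq (h2 i) (congrFun hvw.2 i)

/-- the hot event is a function of the two vertices and of the macro node (exact node, cells of scale `N - t - hh`) -/
theorem HotP_fac {h : ℕ} {R : ι → Fam k ι P} {a b : ι} {o : Enu n a b} {q hh : ℕ} {r : ℝ} {t : ℕ} :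
    Fac (fun ω : Sq k N ι Θ P => (vx a ω, vx b ω, Yn s (N - t) ω, fun j => flr (N - t - hh) (vx (oth o j) ω).2))
      (HotP s h R o q hh r t) := by
  intro v w hvw
  simp only [Prod.mk.injEq] at hvw
  obtain ⟨ha, hb, hY, hc⟩ := hvw
  have h1 : nuc s (oth o) (cf N hh n ((n + 1) * t)) v = nuc s (oth o) (cf N hh n ((n + 1) * t)) w := by
    rw [cf_macro]
    exact Prod.ext hY hc
  refine propext (exists_congr fun t' => and_congr_right fun ht' => ?_)
  have h2 := fac_TS s (h := h) (R := R) (U := ({a, b} : Finset ι)) (o := oth o) (q := q) (c := cf N hh n t') v w (by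
    refine Prod.ext (funext fun j => ?_) (nuc_fac s (oth o) ht' v w h1)
    have h3 := (oth_range o j.1).mpr j.2
    rw [Finset.mem_insert, Finset.mem_singleton] at h3
    rcases h3 with h3 | h3
    · change vx j.1 v = vx j.1 w
      rw [h3]
      exact ha
    · change vx j.1 v = vx j.1 w
      rw [h3]
      exact hb)
  rw [h2]

/-- the probability of the hot event, from the model of C2 -/
theorem HotP_Pr {a b : ι} (hab : a ≠ b) (o : Enu n a b) {h h' hh q L : ℕ} {r th : ℝ}
    {R : ι → Fam k ι P} (hR : ∀ i, FOn ({i}ᶜ : Set ι) (R i)) {x : ℝ}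
    (hx : (Pu k N n P).Pr (fun ω => ∃ t ≤ (n + 1) * N, 2 * r ≤ (insU N o s h h' hh q L r th R).K t
      ((insU N o s h h' hh q L r th R).nu t ω) (va ω) (vb ω)) ≤ x) :
    (Pm : FP (Sq k N ι Θ P)).Pr (fun ω => HotP s h R o q hh r N ω) ≤ x :=
  GMC.pair_of_S2 hab o s hR hx

/-- **(C) of G5.0 for a pair** -/
theorem HotP_cold {a b : ι} (o : Enu n a b) {h hh q : ℕ} (hN : N ≤ k) (hhh : h ≤ hh) {R : ι → Fam k ι P}
    (hR : ∀ l, FOn ({l}ᶜ : Set ι) (R l)) (hR1 : ∀ l, FLe 1 (R l)) {r σ δ : ℝ} (hσ : 0 < σ) (hδ0 : 0 ≤ δ)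
    (hδ : 2 * r ≤ (σ ^ (2 * q) * δ) ^ (2 ^ n)) {t r1 : ℕ} (hr1 : r1 ≤ N - t - hh) {B : Sq k N ι Θ P → Prop}
    (hB : ∀ ω, B ω → σ + 2 * ((2 : ℝ) ^ h)⁻¹ ≤
      |av (N - t) (Gm s h (N - t) ω).1 (fun d => ∏ i, R i (N - t) (Gm s h (N - t) ω) (vs ω) d)|)
    (ω : Sq k N ι Θ P) :
    Pm.ce (Zk {a, b} r1) (fun v => ind (B v ∧ ¬ HotP s h R o q hh r t v)) ω ≤
      2 ^ (n * (N - t - hh - r1)) * ((n + 1) * δ) := by
  refine node_transfer_Zk s (oth_inj o) (oth_range o) (e := N - t) (r0 := N - t - hh) ((Nat.sub_le _ _).trans hN)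
    (((Nat.sub_le _ _).trans (Nat.sub_le _ _)).trans hN) hr1 (h := h) (Q := n) ?_ hR hR1 (q := q) hσ hδ0 hB ?_ hδ ω
  · exact Nat.mul_le_mul_left _ (Nat.pow_le_pow_right (by norm_num) (by omega))
  · intro v hv
    by_contra h1
    refine hv ⟨(n + 1) * t, le_rfl, ?_⟩
    rw [cf_macro]
    exact (not_le.mp h1).le

end defs

end Pool.Agent.GM
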