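import Pool.Agent.GM.Harm

/-!
# GM/CL: the contract CL(K) = CLOSENESS AT ALL TIMES (rows N, H; helper84's statement of (CL_k)), statement only, helper97

Data as in `GM/Harm` (`HD`, `Thick`, `Hyp`).  A cumulative system of classes `U J`, used for the sets `J` of known points
with `|J| + 2 ≤ |K|` (`JJ K`, contains `∅`).

* `cls U Js t x y` : the hidden points of the cell of `x` with the same classes `U I`, `I ∈ Js`;
* `uJ` (all classes `I ⊆ J`), `lJ` (all classes `I ⊂ J`), `mJ` (class `J` of the time `t`, everything lower of the time `t + 1`),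
  `wL l` (all classes which do not see the missing point `l` of the label `l`), `vA` (all classes);
* `dJ` = relative density of the class `J` given everything lower, `pL` = density of the label `l` given the classes of `wL l`,
  `pA` = density of all classes and all labels in the cell;
* `hot` : `e^K' * (∏ dJ) * (∏ pL) ≤ pA` at the point (`iota ≥ K'`);  `ever` : at some time `≤ t` (labels of earlier times are
  functions `pr` of the labels of the time `t`);
* `ConclCL` : conclusion with the bound `B` of the bits of every `U J` and the probability `e` of `ever`;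
* `CLS K κ` : THE CONTRACT: `N` arbitrary, `N ≥ (2 Λ)^C`; `K' = C log N`, bits `N^C`, error `C Λ^C N^(-κ)`.
-/

set_option autoImplicit false
set_option linter.unusedSectionVars false

namespace Pool.Agent.GM.Harm

open Finset Pool.Agent.PWZ Pool.Agent.M3
open Pool.Agent.M3.S3 (avg)

noncomputable section

variable {K X β γ φ υ : Type} [Fintype K] [DecidableEq K] [Fintype X] [Fintype β] [Fintype φ] (D : HD K X β γ φ)

/-- the sets which have classes -/
def JJ (K : Type) [Fintype K] [DecidableEq K] : Finset (Finset K) := univ.filter fun J => J.card + 2 ≤ Fintype.card K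

variable (U : Finset K → ℕ → X → (K → β) → υ)

open Classical in
/-- the hidden points of the cell with the same classes `U I`, `I ∈ Js` -/
def cls (Js : Finset (Finset K)) (t : ℕ) (x : X) (y : K → β) : Finset X :=
  (D.cA t x).filter fun x' => ∀ I ∈ Js, U I t x' y = U I t x y

/-- all classes up to `J` -/
def uJ (J : Finset K) (t : ℕ) (x : X) (y : K → β) : Finset X := cls D U ((JJ K).filter fun I => I ⊆ J) t x y

/-- all classes strictly below `J` -/
def lJ (J : Finset K) (t : ℕ) (x : X) (y : K → β) : Finset X := cls D U ((JJ K).filter fun I => I ⊂ J) t x y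

open Classical in
/-- the classes up to `J` at the time `t`, cut by everything strictly below `J` at the time `t + 1` -/
def mJ (J : Finset K) (t : ℕ) (x : X) (y : K → β) : Finset X :=
  (lJ D U J (t + 1) x y).filter fun x' => ∀ I ∈ (JJ K).filter fun I => I ⊆ J, U I t x' y = U I t x y

/-- all classes which do not see the point `l` -/
def wL (l : K) (t : ℕ) (x : X) (y : K → β) : Finset X := cls D U ((JJ K).filter fun I => l ∉ I) t x y

/-- all classes -/
def vA (t : ℕ) (x : X) (y : K → β) : Finset X := cls D U (JJ K) t x y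

/-- relative density of the class `J` -/
def dJ (J : Finset K) (t : ℕ) (x : X) (y : K → β) : ℝ := ((uJ D U J t x y).card : ℝ) / (lJ D U J t x y).card

/-- density of the label `l` on the classes known to it -/
def pL (l : K) (t : ℕ) (x : X) (y : K → β) (F : φ) : ℝ := avg (wL D U l t x y) fun x' => D.kf t l x' y F

/-- density of all classes and labels in the cell -/
def pA (t : ℕ) (x : X) (y : K → β) (F : K → φ) : ℝ :=
  ((vA D U t x y).card : ℝ) / (D.cA t x).card * avg (vA D U t x y) fun x' => ∏ l, D.kf t l x' y (F l)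

/-- `iota ≥ K'` at the sample point -/
def hot (K' : ℝ) (t : ℕ) (w : Pt K X β φ) : Prop :=
  Real.exp K' * ((∏ J ∈ JJ K, dJ D U J t w.1 w.2.1) * ∏ l, pL D U l t w.1 w.2.1 (w.2.2 l)) ≤ pA D U t w.1 w.2.1 w.2.2

/-- `iota ≥ K'` at some time `≤ t` -/
def ever (pr : ℕ → K → φ → φ) (K' : ℝ) : ℕ → Pt K X β φ → Prop
  | 0, w => hot D U K' 0 w
  | t + 1, w => hot D U K' (t + 1) w ∨ ever pr K' t (w.1, w.2.1, fun l => pr t l (w.2.2 l))

/-- mean over all points -/
def EV (f : X → (K → β) → ℝ) : ℝ := avg univ fun x => avg univ fun y => f x y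

/-- bits of the class `J` -/
def bitsJ (T : ℕ) (J : Finset K) : ℝ :=
  EV (fun x y => Real.log (((lJ D U J 0 x y).card : ℝ) / (uJ D U J 0 x y).card)) +
    ∑ t ∈ range T, EV (fun x y => Real.log (((mJ D U J t x y).card : ℝ) / (uJ D U J (t + 1) x y).card))

variable {D U}

theorem mem_cA {t : ℕ} {x z : X} : z ∈ D.cA t x ↔ D.qa t z = D.qa t x := by
  unfold HD.cA
  simp only [mem_filter, mem_univ, true_and]

theorem mem_cB {t : ℕ} {x z : β} : z ∈ D.cB t x ↔ D.qb t z = D.qb t x := by
  unfold HD.cB
  simp only [mem_filter, mem_univ, true_and]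

theorem mem_cls {Js : Finset (Finset K)} {t : ℕ} {x z : X} {y : K → β} :
    z ∈ cls D U Js t x y ↔ D.qa t z = D.qa t x ∧ ∀ I ∈ Js, U I t z y = U I t x y := by
  unfold cls
  simp only [mem_filter, mem_cA]

theorem self_cls (Js : Finset (Finset K)) (t : ℕ) (x : X) (y : K → β) : x ∈ cls D U Js t x y :=
  mem_cls.2 ⟨rfl, fun _ _ => rfl⟩

theorem cls_eq {Js : Finset (Finset K)} {t : ℕ} {x z : X} {y : K → β} (h : z ∈ cls D U Js t x y) :
    cls D U Js t z y = cls D U Js t x y := by
  have h1 := mem_cls.1 h
  ext a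
  rw [mem_cls, mem_cls, h1.1]
  refine and_congr_right fun _ => forall_congr' fun I => forall_congr' fun hI => ?_
  rw [h1.2 I hI]

theorem mem_mJ {J : Finset K} {t : ℕ} {x z : X} {y : K → β} :
    z ∈ mJ D U J t x y ↔ z ∈ lJ D U J (t + 1) x y ∧ ∀ I ∈ (JJ K).filter fun I => I ⊆ J, U I t z y = U I t x y := by
  unfold mJ
  simp only [mem_filter]

variable (U) [Nonempty X] [Nonempty β] {al : ℝ} (h : D.Thick al)

/-- THE CONCLUSION -/
structure ConclCL (pr : ℕ → K → φ → φ) (T : ℕ) (K' B e : ℝ) : Prop where
  sys : Sys D U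
  bits : ∀ J ∈ JJ K, bitsJ D U T J ≤ B
  cold : (D.P h T).Pr (ever D U pr K' T) ≤ e

end

/-- **CL(K)**, exponent `κ` -/
def CLS (K : Type) [Fintype K] [DecidableEq K] (κ : ℝ) : Prop :=
  ∃ C : ℕ, ∀ (X β γ φ : Type) [Fintype X] [Fintype β] [Fintype φ] [Nonempty X] [Nonempty β]
    (D : HD K X β γ φ) (al : ℝ) (h : D.Thick al) (dg : ℕ → X → ℝ) (pr : ℕ → K → φ → φ) (T : ℕ) (Lam N : ℝ),
    D.Hyp dg pr al T Lam → (2 * Lam) ^ C ≤ N →
    ∃ (υ : Type) (U : Finset K → ℕ → X → (K → β) → υ),
      ConclCL U h pr T (C * Real.log N) (N ^ C) (C * Lam ^ C * N ^ (-κ))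

end Pool.Agent.GM.Harm
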