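import Pool.Agent.GM.CL
import Pool.Agent.GMC3.Cor3P

/-!
# GM/CLtwo: CL(K) for |K| = 2 (helper97)

* `mk2 k0 a b` = the function on `K = {k0, k1}` with the values `a`, `b`; `sum2`, `avg2`, `prod2`, `pairE`;
* `toDat D k0 k1` : the data `HD` as data of section 3 of m3 (`kf` = label of `k1`, sees `y k0`; `kg` = label of `k0`);
* `thick2`, `hyp2` : thickness and hypotheses;  `E2` : the laws agree;
* `cls_two : Fintype.card K = 2 → CLS K (1/40)`.
-/

set_option autoImplicit false
set_option linter.unusedSectionVars false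
set_option linter.unusedVariables false

namespace Pool.Agent.GM.Harm

open Finset Pool.Agent.PWZ Pool.Agent.M3
open Pool.Agent.M3.S3 (avg law ent Dat Hyp3 E3 Hf Hg RefCl Sp)

noncomputable section

section two

variable {K : Type} [Fintype K] [DecidableEq K] {k0 k1 : K}

/-- the function with the values `a` at `k0` and `b` elsewhere -/
def mk2 {α : Type} (k0 : K) (a b : α) : K → α := fun j => if j = k0 then a else b

theorem mk2_0 {α : Type} (a b : α) : mk2 k0 a b k0 = a := if_pos rfl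

theorem mk2_1 {α : Type} (h : k0 ≠ k1) (a b : α) : mk2 k0 a b k1 = b := if_neg fun h' => h h'.symm

theorem mk2_eta {α : Type} (hu : ∀ l, l = k0 ∨ l = k1) (h : k0 ≠ k1) (y : K → α) : mk2 k0 (y k0) (y k1) = y := by
  funext j
  rcases hu j with rfl | rfl
  · exact mk2_0 _ _
  · exact mk2_1 h _ _

/-- functions on two points -/
def pairE {α : Type} (hu : ∀ l, l = k0 ∨ l = k1) (h : k0 ≠ k1) : α × α ≃ (K → α) where
  toFun p := mk2 k0 p.1 p.2
  invFun y := (y k0, y k1)
  left_inv p := Prod.ext (mk2_0 _ _) (mk2_1 h _ _)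
  right_inv y := mk2_eta hu h y

theorem univ2 (hu : ∀ l, l = k0 ∨ l = k1) : (univ : Finset K) = {k0, k1} := by
  ext j
  simp only [mem_univ, mem_insert, mem_singleton, true_iff]
  exact hu j

theorem card2 (hu : ∀ l, l = k0 ∨ l = k1) (h : k0 ≠ k1) : Fintype.card K = 2 := by
  rw [← Finset.card_univ, univ2 hu, Finset.card_pair h]

theorem prod2 (hu : ∀ l, l = k0 ∨ l = k1) (h : k0 ≠ k1) (f : K → ℝ) : ∏ l, f l = f k0 * f k1 := by
  rw [univ2 hu, Finset.prod_pair h]

theorem sum2 {α : Type} [Fintype α] (hu : ∀ l, l = k0 ∨ l = k1) (h : k0 ≠ k1) (f : (K → α) → ℝ) :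
    ∑ y, f y = ∑ a, ∑ b, f (mk2 k0 a b) := by
  rw [← (pairE hu h).sum_comp, Fintype.sum_prod_type]
  rfl

theorem avg2 {β : Type} [Fintype β] (hu : ∀ l, l = k0 ∨ l = k1) (h : k0 ≠ k1) (f : (K → β) → ℝ) :
    avg univ f = avg univ fun a => avg univ fun b => f (mk2 k0 a b) := by
  unfold avg
  rw [sum2 hu h]
  have e1 : ((univ : Finset (K → β)).card : ℝ) = (univ : Finset β).card * (univ : Finset β).card := by
    rw [Finset.card_univ, Finset.card_univ, Fintype.card_fun, card2 hu h]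
    push_cast
    ring
  rw [e1, ← Finset.sum_div, div_div]

theorem JJ2 (hu : ∀ l, l = k0 ∨ l = k1) (h : k0 ≠ k1) : JJ K = {∅} := by
  ext J
  unfold JJ
  rw [mem_filter, card2 hu h, mem_singleton]
  constructor
  · rintro ⟨-, h1⟩
    exact Finset.card_eq_zero.1 (by omega)
  · rintro rfl
    exact ⟨mem_univ _, by simp⟩

end two

section dat

variable {K X β γ φ : Type} [Fintype K] [DecidableEq K] [Fintype X] [Fintype β] [Fintype φ] (D : HD K X β γ φ)
  {k0 k1 : K}

/-- the data of section 3 of m3 -/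
def toDat (hu : ∀ l, l = k0 ∨ l = k1) (h01 : k0 ≠ k1) : Dat X β β γ φ where
  qa := D.qa
  qb := D.qb
  qc := D.qb
  kf t x b c := D.kf t k1 x (mk2 k0 b c)
  kg t x b c := D.kf t k0 x (mk2 k0 b c)
  ra := D.ra
  rb := D.rb
  rc := D.rb
  kf_c t x b c c' h := by
    refine D.dep t k1 x _ _ (fun j hj => ?_) ?_
    · rcases hu j with rfl | rfl
      · rw [mk2_0, mk2_0]
      · exact absurd rfl hj
    · rw [mk2_1 h01, mk2_1 h01]; exact h
  kg_b t x b b' c h := by
    refine D.dep t k0 x _ _ (fun j hj => ?_) ?_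
    · rcases hu j with rfl | rfl
      · exact absurd rfl hj
      · rw [mk2_1 h01, mk2_1 h01]
    · rw [mk2_0, mk2_0]; exact h

variable {D} (hu : ∀ l, l = k0 ∨ l = k1) (h01 : k0 ≠ k1) {al : ℝ}

theorem tdat_cA (t : ℕ) (x : X) : (toDat D hu h01).cA t x = D.cA t x := by
  ext y
  rw [Dat.mem_cA]
  unfold HD.cA
  simp only [mem_filter, mem_univ, true_and]
  exact Iff.rfl

theorem tdat_cB (t : ℕ) (x : β) : (toDat D hu h01).cB t x = D.cB t x := by
  ext y
  rw [Dat.mem_cB]
  unfold HD.cB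
  simp only [mem_filter, mem_univ, true_and]
  exact Iff.rfl

theorem tdat_cC (t : ℕ) (x : β) : (toDat D hu h01).cC t x = D.cB t x := by
  ext y
  rw [Dat.mem_cC]
  unfold HD.cB
  simp only [mem_filter, mem_univ, true_and]
  exact Iff.rfl

theorem thick2 (h : D.Thick al) : (toDat D hu h01).Thick al where
  pos := h.pos
  f_nn t x b c F := h.nn _ _ _ _ _
  g_nn t x b c F := h.nn _ _ _ _ _
  f_one t x b c := h.one _ _ _ _
  g_one t x b c := h.one _ _ _ _
  f_thick t x x' b c F := h.thick _ _ _ _ _ _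
  g_thick t x x' b c F := h.thick _ _ _ _ _ _

variable [Nonempty X] [Nonempty β]

/-- the two laws -/
theorem E2 (h : D.Thick al) (t : ℕ) (f : Pt K X β φ → ℝ) :
    (D.P h t).E f = ((toDat D hu h01).kp (thick2 hu h01 h) t).P.E
      fun w => f (w.1, mk2 k0 w.2.1 w.2.2.1, mk2 k0 w.2.2.2.2 w.2.2.2.1) := by
  unfold FP.E
  rw [Fintype.sum_prod_type, Fintype.sum_prod_type]
  refine Finset.sum_congr rfl fun x _ => ?_
  rw [Fintype.sum_prod_type, sum2 hu h01, Fintype.sum_prod_type]
  refine Finset.sum_congr rfl fun b _ => ?_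
  rw [Fintype.sum_prod_type]
  refine Finset.sum_congr rfl fun c _ => ?_
  rw [sum2 hu h01, Finset.sum_comm, Fintype.sum_prod_type]
  refine Finset.sum_congr rfl fun F _ => Finset.sum_congr rfl fun G _ => ?_
  have e1 : (∏ l, D.kf t l x (mk2 k0 b c) (mk2 k0 G F l)) =
      D.kf t k1 x (mk2 k0 b c) F * D.kf t k0 x (mk2 k0 b c) G := by
    rw [prod2 hu h01, mk2_0, mk2_1 h01]; ring
  have e2 : (D.P h t).p (x, mk2 k0 b c, mk2 k0 G F) =
      ((toDat D hu h01).kp (thick2 hu h01 h) t).P.p (x, b, c, F, G) := by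
    show (∏ l, D.kf t l x (mk2 k0 b c) (mk2 k0 G F l)) / (Fintype.card X * (Fintype.card β : ℝ) ^ Fintype.card K) = _
    rw [e1, card2 hu h01, pow_two]
    rfl
  rw [e2]

/-! ### the hypotheses -/

omit [Nonempty X] [Nonempty β] in
/-- cells of the hidden point -/
theorem avg_cA (t : ℕ) (f : X → ℝ) : avg univ (fun x => avg (D.cA t x) f) = avg univ f := by
  unfold avg
  congr 1
  exact S3.sum_avg_cls (fun x => D.cA t x) (fun x => mem_cA.2 rfl) (fun x x' hx => by
    ext z
    rw [mem_cA, mem_cA, mem_cA.1 hx]) f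

omit [Nonempty X] [Nonempty β] in
/-- cells of one known point -/
theorem avg_cB (t : ℕ) (l : K) (f : (K → β) → ℝ) :
    avg univ (fun y : K → β => avg (D.cB t (y l)) fun b => f (Function.update y l b)) = avg univ f := by
  classical
  have hW : ∀ y : K → β, avg (D.cB t (y l)) (fun b => f (Function.update y l b)) =
      avg ((D.cB t (y l)).image fun b => Function.update y l b) f := by
    intro y
    have hinj : Set.InjOn (fun b => Function.update y l b) (D.cB t (y l) : Set β) := by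
      intro b _ b' _ h
      have := congrFun h l
      simpa using this
    unfold avg
    rw [Finset.sum_image hinj, Finset.card_image_of_injOn hinj]
  have hm : ∀ y z : K → β, z ∈ (D.cB t (y l)).image (fun b => Function.update y l b) ↔
      (∀ j, j ≠ l → z j = y j) ∧ D.qb t (z l) = D.qb t (y l) := by
    intro y z
    rw [Finset.mem_image]
    constructor
    · rintro ⟨b, hb, rfl⟩
      refine ⟨fun j hj => Function.update_of_ne hj _ _, ?_⟩
      rw [Function.update_self]
      exact mem_cB.1 hb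
    · rintro ⟨h1, h2⟩
      refine ⟨z l, mem_cB.2 h2, ?_⟩
      funext j
      rcases eq_or_ne j l with rfl | hj
      · rw [Function.update_self]
      · rw [Function.update_of_ne hj, h1 j hj]
  simp only [hW]
  have e := S3.sum_avg_cls (fun y : K → β => (D.cB t (y l)).image fun b => Function.update y l b)
    (fun y => (hm y y).2 ⟨fun _ _ => rfl, rfl⟩) (fun y y' hy => by
      obtain ⟨h1, h2⟩ := (hm y y').1 hy
      ext z
      rw [hm, hm]
      constructor
      · rintro ⟨h3, h4⟩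
        exact ⟨fun j hj => (h3 j hj).trans (h1 j hj), h4.trans h2⟩
      · rintro ⟨h3, h4⟩
        exact ⟨fun j hj => (h3 j hj).trans (h1 j hj).symm, h4.trans h2.symm⟩) f
  show (∑ y, avg _ f) / _ = (∑ y, f y) / _
  rw [e]

omit [Nonempty X] [Nonempty β] in
/-- the mean over the cells, in mean -/
theorem EV_mean (t : ℕ) (l : K) (f : X → (K → β) → ℝ) : EV (fun x y => D.mean t l x y f) = EV f := by
  unfold EV HD.mean
  have h1 : ∀ x, avg univ (fun y : K → β => avg (D.cA t x) fun x' => avg (D.cB t (y l)) fun b =>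
      f x' (Function.update y l b)) = avg (D.cA t x) fun x' => avg univ fun y => f x' y := by
    intro x
    rw [S3.St.avg_comm]
    congr 1
    funext x'
    exact avg_cB t l (f x')
  simp only [h1]
  exact avg_cA t fun x' => avg univ fun y => f x' y

omit [Nonempty X] [Nonempty β] in
theorem EV_mono {f g : X → (K → β) → ℝ} (h : ∀ x y, f x y ≤ g x y) : EV f ≤ EV g :=
  S3.avg_mono fun x _ => S3.avg_mono fun y _ => h x y

theorem EV_le {f : X → (K → β) → ℝ} {c : ℝ} (h : ∀ x y, f x y ≤ c) : EV f ≤ c := by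
  refine (EV_mono h).trans (le_of_eq ?_)
  have e : avg (univ : Finset (K → β)) (fun _ => c) = c := S3.avg_const Finset.univ_nonempty c
  have e' : avg (univ : Finset X) (fun _ => c) = c := S3.avg_const Finset.univ_nonempty c
  show avg univ (fun _ : X => avg univ fun _ : K → β => c) = c
  rw [e, e']

theorem EV_add (f g : X → (K → β) → ℝ) : EV (fun x y => f x y + g x y) = EV f + EV g := by
  unfold EV
  simp only [S3.avg_add]

theorem EV_sub (f g : X → (K → β) → ℝ) : EV (fun x y => f x y - g x y) = EV f - EV g := by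
  have h := EV_add (fun x y => f x y - g x y) g
  simp only [sub_add_cancel] at h
  linarith

theorem EV_sum {α : Type*} (s : Finset α) (f : α → X → (K → β) → ℝ) :
    EV (fun x y => ∑ i ∈ s, f i x y) = ∑ i ∈ s, EV (f i) := by
  classical
  induction s using Finset.induction_on with
  | empty =>
    simp only [Finset.sum_empty]
    have h := EV_sub (fun (x : X) (y : K → β) => (0 : ℝ)) (fun _ _ => 0)
    simp only [sub_self] at h
    exact h
  | insert a s ha ih =>
    simp only [Finset.sum_insert ha]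
    rw [EV_add, ih]

include hu h01 in
/-- means over the points as means of section 3 -/
theorem EV_E3 (f : X → (K → β) → ℝ) : EV f = E3 fun x b c => f x (mk2 k0 b c) := by
  unfold EV E3
  congr 1
  funext x
  exact avg2 hu h01 (f x)

/-- **the hypotheses of section 3** -/
theorem hyp2 {dg : ℕ → X → ℝ} {pr : ℕ → K → φ → φ} {T : ℕ} {Lam : ℝ} (H : D.Hyp dg pr al T Lam) :
    Hyp3 (toDat D hu h01) dg (fun t => pr t k1) (fun t => pr t k0) al T Lam := by
  -- entropies
  have hH : ∀ l : K, EV (D.H 0 0 l) + ∑ t ∈ range T, (EV (D.H (t + 1) (t + 1) l) - EV (D.H (t + 1) t l)) ≤ Lam := by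
    intro l
    have h1 : EV (fun x y => D.mean 0 l x y (fun x' y' => D.H 0 0 l x' y' +
        ∑ t ∈ Ico 0 T, (D.H (t + 1) (t + 1) l x' y' - D.H (t + 1) t l x' y'))) ≤ Lam :=
      EV_le fun x y => H.H2 0 (Nat.zero_le T) l x y
    rw [EV_mean, EV_add, EV_sum, ← Finset.range_eq_Ico] at h1
    simp only [EV_sub] at h1
    exact h1
  have ef : ∀ t s, Hf (toDat D hu h01) t (fun x _ _ => (toDat D hu h01).cA s x) = EV (D.H s t k1) := by
    intro t s
    rw [EV_E3 hu h01]
    unfold Hf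
    congr 1
  have eg : ∀ t s, Hg (toDat D hu h01) t (fun x _ _ => (toDat D hu h01).cA s x) = EV (D.H s t k0) := by
    intro t s
    rw [EV_E3 hu h01]
    unfold Hg
    congr 1
  exact {
    Lam1 := H.Lam1
    alL := H.alL
    dg_val := H.dg_val
    dg_cell := H.dg_cell
    dg_bal := fun t ht x => by rw [tdat_cA]; exact H.dg_bal t ht x
    halfB := fun t ht => by
      rcases H.half t ht with h | h
      · exact Or.inl fun b => by rw [tdat_cB, tdat_cB]; exact h b
      · exact Or.inr fun b => by rw [tdat_cB, tdat_cB]; exact h b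
    halfC := fun t ht => by
      rcases H.half t ht with h | h
      · exact Or.inl fun b => by rw [tdat_cC, tdat_cC]; exact h b
      · exact Or.inr fun b => by rw [tdat_cC, tdat_cC]; exact h b
    kf_pr := fun t ht x b c F => H.kf_pr t ht k1 x _ F
    kg_pr := fun t ht x b c F => H.kf_pr t ht k0 x _ F
    Hf2 := by
      rw [ef]
      simp only [ef]
      exact hH k1
    Hg2 := by
      rw [eg]
      simp only [eg]
      exact hH k0
    cf3 := fun x b c => by
      simp only [tdat_cA]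
      exact H.H3 k1 x _
    cg3 := fun x b c => by
      simp only [tdat_cA]
      exact H.H3 k0 x _ }

/-! ### classes -/

/-- the classes of section 3 as a system -/
def U2 (k0 k1 : K) (V : ℕ → X → β → β → Finset X) : Finset K → ℕ → X → (K → β) → Finset X :=
  fun _ t x y => V t x (y k0) (y k1)

omit [Nonempty X] [Nonempty β] in
theorem same2 {t : ℕ} {x x' : X} {y y' : K → β} (hx : D.qa t x = D.qa t x') (hy : ∀ j, D.qb t (y j) = D.qb t (y' j)) :
    (toDat D hu h01).Same t x (y k0) (y k1) x' (y' k0) (y' k1) := ⟨hx, hy k0, hy k1⟩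

omit [Nonempty X] [Nonempty β] in
theorem sys2 {V : ℕ → X → β → β → Finset X} (hV : RefCl (toDat D hu h01) V) : Sys D (U2 k0 k1 V) where
  dep I t x y y' _ hy := (hV.pub t x _ _ x _ _ (same2 hu h01 rfl hy) (hV.self t x _ _)).symm
  ref I t x y x' y' _ hx hy h := by
    have h1 : x' ∈ V (t + 1) x (y k0) (y k1) := by
      have h2 := hV.self (t + 1) x' (y' k0) (y' k1)
      have h3 : V (t + 1) x (y k0) (y k1) = V (t + 1) x' (y' k0) (y' k1) := h
      rw [h3]
      exact h2
    have h2 := hV.ref t x _ _ h1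
    exact (hV.pub t x _ _ x' _ _ (same2 hu h01 (D.ra t x x' hx) (fun j => D.rb t _ _ (hy j))) h2).symm

variable {V : ℕ → X → β → β → Finset X} (hV : RefCl (toDat D hu h01) V)

omit [Nonempty X] [Nonempty β] in
include hV in
theorem mem_V {t : ℕ} {x x' : X} {b c : β} : (D.qa t x' = D.qa t x ∧ V t x' b c = V t x b c) ↔ x' ∈ V t x b c := by
  constructor
  · rintro ⟨-, h⟩
    rw [← h]
    exact hV.self t x' b c
  · intro h
    have h1 : D.qa t x' = D.qa t x := by
      have := hV.cell t x b c h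
      rw [Dat.mem_cA] at this
      exact this
    exact ⟨h1, hV.pub t x b c x' b c ⟨h1.symm, rfl, rfl⟩ h⟩

omit [Nonempty X] [Nonempty β] in
theorem cls_empty (U : Finset K → ℕ → X → (K → β) → Finset X) (t : ℕ) (x : X) (y : K → β) :
    cls D U ∅ t x y = D.cA t x := by
  ext z
  rw [mem_cls, mem_cA]
  simp only [Finset.notMem_empty, false_imp_iff, implies_true, and_true]

omit [Nonempty X] [Nonempty β] in
include hV in
theorem cls_one (t : ℕ) (x : X) (y : K → β) : cls D (U2 k0 k1 V) {∅} t x y = V t x (y k0) (y k1) := by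
  ext z
  rw [mem_cls, ← mem_V hu h01 hV]
  simp only [mem_singleton, forall_eq]
  exact Iff.rfl

omit [Fintype X] [Fintype β] [Nonempty X] [Nonempty β] in
include hu h01 in
theorem filt_sub (J : Finset K) : (JJ K).filter (fun I => I ⊆ J) = {∅} := by
  rw [JJ2 hu h01]
  ext I
  simp only [mem_filter, mem_singleton]
  constructor
  · exact fun h => h.1
  · rintro rfl
    exact ⟨rfl, empty_subset _⟩

omit [Fintype X] [Fintype β] [Nonempty X] [Nonempty β] in
include hu h01 in
theorem filt_lt : (JJ K).filter (fun I => I ⊂ (∅ : Finset K)) = ∅ := by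
  ext I
  simp only [mem_filter, Finset.notMem_empty, iff_false]
  rintro ⟨-, h⟩
  exact Finset.not_ssubset_empty _ h

omit [Fintype X] [Fintype β] [Nonempty X] [Nonempty β] in
include hu h01 in
theorem filt_not (l : K) : (JJ K).filter (fun I => l ∉ I) = {∅} := by
  rw [JJ2 hu h01]
  ext I
  simp only [mem_filter, mem_singleton]
  constructor
  · exact fun h => h.1
  · rintro rfl
    exact ⟨rfl, Finset.notMem_empty l⟩

omit [Nonempty X] [Nonempty β] in
include hV in
theorem uJ2 (J : Finset K) (t : ℕ) (x : X) (y : K → β) : uJ D (U2 k0 k1 V) J t x y = V t x (y k0) (y k1) := by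
  unfold uJ
  rw [filt_sub hu h01, cls_one hu h01 hV]

omit [Nonempty X] [Nonempty β] in
include hu h01 in
theorem lJ2 (t : ℕ) (x : X) (y : K → β) : lJ D (U2 k0 k1 V) ∅ t x y = D.cA t x := by
  unfold lJ
  rw [filt_lt hu h01, cls_empty]

omit [Nonempty X] [Nonempty β] in
include hV in
theorem mJ2 (t : ℕ) (x : X) (y : K → β) :
    mJ D (U2 k0 k1 V) ∅ t x y = S3.hlf (toDat D hu h01) V t x (y k0) (y k1) := by
  ext z
  rw [mem_mJ, lJ2 hu h01, mem_cA, filt_sub hu h01, S3.mem_hlf, ← mem_V hu h01 hV]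
  simp only [mem_singleton, forall_eq]
  constructor
  · rintro ⟨h1, h2⟩
    exact ⟨⟨D.ra t _ _ h1, h2⟩, h1⟩
  · rintro ⟨⟨-, h2⟩, h1⟩
    exact ⟨h1, h2⟩

omit [Nonempty X] [Nonempty β] in
include hV in
theorem wL2 (l : K) (t : ℕ) (x : X) (y : K → β) : wL D (U2 k0 k1 V) l t x y = V t x (y k0) (y k1) := by
  unfold wL
  rw [filt_not hu h01, cls_one hu h01 hV]

omit [Nonempty X] [Nonempty β] in
include hV in
theorem vA2 (t : ℕ) (x : X) (y : K → β) : vA D (U2 k0 k1 V) t x y = V t x (y k0) (y k1) := by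
  unfold vA
  rw [JJ2 hu h01, cls_one hu h01 hV]

include hV in
/-- bits -/
theorem bits2 (T : ℕ) : bitsJ D (U2 k0 k1 V) T ∅ =
    E3 (fun x b c => Real.log ((((toDat D hu h01).cA 0 x).card : ℝ) / (V 0 x b c).card)) +
    ∑ t ∈ range T, E3 (fun x b c => Real.log (((S3.hlf (toDat D hu h01) V t x b c).card : ℝ) /
      (V (t + 1) x b c).card)) := by
  unfold bitsJ
  rw [EV_E3 hu h01]
  congr 1
  · congr 1
    funext x b c
    rw [lJ2 hu h01, uJ2 hu h01 hV, tdat_cA, mk2_0, mk2_1 h01]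
  · refine Finset.sum_congr rfl fun t _ => ?_
    rw [EV_E3 hu h01]
    congr 1
    funext x b c
    rw [mJ2 hu h01 hV, uJ2 hu h01 hV, mk2_0, mk2_1 h01]

variable (h : D.Thick al) (pr : ℕ → K → φ → φ)

/-- the point of the data `HD` -/
def back (k0 : K) (w : Sp X β β φ) : Pt K X β φ := (w.1, mk2 k0 w.2.1 w.2.2.1, mk2 k0 w.2.2.2.2 w.2.2.2.1)

include hV in
/-- hot points have `iota ≥ K'` -/
theorem hit_of_hot {K' : ℝ} (hK : 2 ≤ K') {t : ℕ} {w : Sp X β β φ}
    (hF : D.kf t k1 w.1 (mk2 k0 w.2.1 w.2.2.1) w.2.2.2.1 ≠ 0)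
    (hG : D.kf t k0 w.1 (mk2 k0 w.2.1 w.2.2.1) w.2.2.2.2 ≠ 0) (hh : hot D (U2 k0 k1 V) K' t (back k0 w)) :
    S3.C3.hit (thick2 hu h01 h) V 1 t w := by
  obtain ⟨x, b, c, F, G⟩ := w
  simp only at hF hG
  set y : K → β := mk2 k0 b c with hy
  have hy0 : y k0 = b := mk2_0 _ _
  have hy1 : y k1 = c := mk2_1 h01 _ _
  have hxV : x ∈ V t x b c := hV.self t x b c
  have hcV : (0 : ℝ) < (V t x b c).card := by exact_mod_cast Finset.card_pos.2 ⟨x, hxV⟩
  have hcA : (0 : ℝ) < (D.cA t x).card := by exact_mod_cast Finset.card_pos.2 ⟨x, mem_cA.2 rfl⟩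
  have hpos : ∀ l F, D.kf t l x y F ≠ 0 → 0 < avg (V t x b c) fun x' => D.kf t l x' y F := by
    intro l F hF
    have h1 : 0 < D.kf t l x y F := lt_of_le_of_ne (h.nn _ _ _ _ _) (Ne.symm hF)
    refine div_pos (lt_of_lt_of_le h1 ?_) hcV
    exact Finset.single_le_sum (f := fun x' => D.kf t l x' y F) (fun z _ => h.nn _ _ _ _ _) hxV
  have h1 := hpos k1 F hF
  have h2 := hpos k0 G hG
  unfold hot at hh
  have e1 : (back k0 ((x, b, c, F, G) : Sp X β β φ)).1 = x := rfl
  have e2 : (back k0 ((x, b, c, F, G) : Sp X β β φ)).2.1 = y := rfl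
  have e3 : (back k0 ((x, b, c, F, G) : Sp X β β φ)).2.2 = mk2 k0 G F := rfl
  rw [e1, e2, e3, prod2 hu h01, mk2_0, mk2_1 h01, JJ2 hu h01, Finset.prod_singleton] at hh
  unfold dJ pL pA at hh
  rw [uJ2 hu h01 hV, lJ2 hu h01, wL2 hu h01 hV, wL2 hu h01 hV, vA2 hu h01 hV, hy0, hy1] at hh
  have e4 : ∀ x', (∏ l, D.kf t l x' y (mk2 k0 G F l)) = D.kf t k1 x' y F * D.kf t k0 x' y G := by
    intro x'
    rw [prod2 hu h01, mk2_0, mk2_1 h01]; ring
  simp only [e4] at hh
  set aF := avg (V t x b c) fun x' => D.kf t k1 x' y F with haF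
  set aG := avg (V t x b c) fun x' => D.kf t k0 x' y G with haG
  set aFG := avg (V t x b c) fun x' => D.kf t k1 x' y F * D.kf t k0 x' y G with haFG
  set r : ℝ := ((V t x b c).card : ℝ) / (D.cA t x).card with hr
  have hr0 : 0 < r := div_pos hcV hcA
  have h3 : Real.exp K' * (aF * aG) ≤ aFG := by
    have h4 : r * (Real.exp K' * (aF * aG)) ≤ r * aFG := by
      calc r * (Real.exp K' * (aF * aG)) = Real.exp K' * (r * (aG * aF)) := by ring
        _ ≤ r * aFG := hh
    exact le_of_mul_le_mul_left h4 hr0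
  show 2 * 1 ≤ S3.io ((toDat D hu h01).kp (thick2 hu h01 h) t) (V t x b c) b c F G
  have e5 : S3.io ((toDat D hu h01).kp (thick2 hu h01 h) t) (V t x b c) b c F G = Real.log (aFG / (aF * aG)) := rfl
  rw [e5]
  have h4 : Real.exp K' ≤ aFG / (aF * aG) := (le_div_iff₀ (mul_pos h1 h2)).2 h3
  have h5 : K' ≤ Real.log (aFG / (aF * aG)) := (Real.le_log_iff_exp_le (lt_of_lt_of_le (Real.exp_pos _) h4)).2 h4
  linarith

include hV in
/-- ever hot points are in the event `past` -/
theorem past_of_ever {dg : ℕ → X → ℝ} {T : ℕ} {Lam : ℝ} (H : D.Hyp dg pr al T Lam) {K' : ℝ} (hK : 2 ≤ K') (t : ℕ)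
    (ht : t ≤ T) : ∀ (w : Sp X β β φ), D.kf t k1 w.1 (mk2 k0 w.2.1 w.2.2.1) w.2.2.2.1 ≠ 0 →
      D.kf t k0 w.1 (mk2 k0 w.2.1 w.2.2.1) w.2.2.2.2 ≠ 0 → ever D (U2 k0 k1 V) pr K' t (back k0 w) →
      S3.C3.past (thick2 hu h01 h) V (fun t => pr t k1) (fun t => pr t k0) 1 t w := by
  induction t with
  | zero => exact fun w hF hG hh => hit_of_hot hu h01 hV h hK hF hG hh
  | succ t ih =>
    intro w hF hG hh
    rcases hh with hh | hh
    · exact Or.inl (hit_of_hot hu h01 hV h hK hF hG hh)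
    · refine Or.inr ?_
      have hpos : ∀ l F, D.kf (t + 1) l w.1 (mk2 k0 w.2.1 w.2.2.1) F ≠ 0 →
          D.kf t l w.1 (mk2 k0 w.2.1 w.2.2.1) (pr t l F) ≠ 0 := by
        intro l F hF
        have h1 : 0 < D.kf (t + 1) l w.1 (mk2 k0 w.2.1 w.2.2.1) F := lt_of_le_of_ne (h.nn _ _ _ _ _) (Ne.symm hF)
        rw [H.kf_pr t (by omega) l]
        refine (lt_of_lt_of_le h1 ?_).ne'
        have h2 := Finset.single_le_sum (f := fun F' => ind (pr t l F' = pr t l F) *
          D.kf (t + 1) l w.1 (mk2 k0 w.2.1 w.2.2.1) F')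
          (fun F' _ => mul_nonneg (ind_nonneg _) (h.nn _ _ _ _ _)) (mem_univ F)
        have h3 : ind (pr t l F = pr t l F) * D.kf (t + 1) l w.1 (mk2 k0 w.2.1 w.2.2.1) F =
            D.kf (t + 1) l w.1 (mk2 k0 w.2.1 w.2.2.1) F := by rw [ind_of rfl, one_mul]
        exact h3 ▸ h2
      have hb : ((back k0 w).1, (back k0 w).2.1, fun l => pr t l ((back k0 w).2.2 l)) =
          back k0 (S3.C3.prj (pr t k1) (pr t k0) w) := by
        unfold back
        refine Prod.ext rfl (Prod.ext rfl ?_)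
        funext l
        rcases hu l with rfl | rfl
        · show pr t l (mk2 l w.2.2.2.2 w.2.2.2.1 l) = mk2 l _ _ l
          rw [mk2_0, mk2_0]
          rfl
        · show pr t l (mk2 k0 w.2.2.2.2 w.2.2.2.1 l) = mk2 k0 _ _ l
          rw [mk2_1 h01, mk2_1 h01]
          rfl
      rw [hb] at hh
      exact ih (by omega) _ (hpos k1 _ hF) (hpos k0 _ hG) hh

end dat

/-- **CL(K) for |K| = 2** -/
theorem cls_two (K : Type) [Fintype K] [DecidableEq K] (hK : Fintype.card K = 2) : CLS K (1 / 40) := by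
  classical
  obtain ⟨C, hC⟩ := S3.C3.cor3P
  obtain ⟨k0, k1, h01, huniv⟩ := Finset.card_eq_two.1 (by rw [Finset.card_univ]; exact hK : (univ : Finset K).card = 2)
  have hu : ∀ l, l = k0 ∨ l = k1 := fun l => by
    have := mem_univ l
    rw [huniv] at this
    simpa using this
  refine ⟨C + 3, ?_⟩
  intro X β γ φ _ _ _ _ _ D al h dg pr T Lam N H hN
  have hL1 := H.Lam1
  have hL0 : 0 < Lam := by linarith
  have h2L : (1 : ℝ) ≤ 2 * Lam := by linarith
  have hNC : (2 * Lam) ^ C ≤ N := (pow_le_pow_right₀ h2L (by omega)).trans hN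
  have hN8 : (8 : ℝ) ≤ N := by
    have h1 : (2 : ℝ) ^ 3 ≤ (2 * Lam) ^ (C + 3) :=
      (pow_le_pow_left₀ (by norm_num) (by linarith) 3).trans (pow_le_pow_right₀ h2L (by omega))
    have h2 : (2 : ℝ) ^ 3 = 8 := by norm_num
    linarith
  have hN1 : (1 : ℝ) ≤ N := by linarith
  obtain ⟨V, hV⟩ := hC X β β γ φ (toDat D hu h01) al (thick2 hu h01 h) dg (fun t => pr t k1) (fun t => pr t k0) T Lam N
    (hyp2 hu h01 H) hNC
  refine ⟨Finset X, U2 k0 k1 V, ⟨sys2 hu h01 hV.base.ref, ?_, ?_⟩⟩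
  · intro J hJ
    rw [JJ2 hu h01, mem_singleton] at hJ
    subst hJ
    rw [bits2 hu h01 hV.base.ref]
    refine hV.bits.trans ?_
    have h1 : (C : ℝ) ≤ N := by
      have h2 : (C : ℝ) ≤ 2 ^ C := by exact_mod_cast (Nat.lt_two_pow_self).le
      exact h2.trans ((pow_le_pow_left₀ (by norm_num) (by linarith) C).trans hNC)
    have h3 : Lam ^ C ≤ N := (pow_le_pow_left₀ hL0.le (by linarith) C).trans hNC
    calc (C : ℝ) * N * Lam ^ C ≤ N * N * N := by
          refine mul_le_mul (mul_le_mul_of_nonneg_right h1 (by linarith)) h3 (by positivity) (by positivity)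
      _ = N ^ 3 := by ring
      _ ≤ N ^ (C + 3) := pow_le_pow_right₀ hN1 (by omega)
  · have hK' : 2 ≤ ((C + 3 : ℕ) : ℝ) * Real.log N := by
      have h1 : (2 : ℝ) ≤ Real.log N := by
        have h2 : Real.log 8 ≤ Real.log N := Real.log_le_log (by norm_num) hN8
        have h3 : Real.log 8 = 3 * Real.log 2 := by
          rw [show (8 : ℝ) = 2 ^ 3 by norm_num, Real.log_pow]
          norm_num
        have h4 := Real.log_two_gt_d9
        linarith
      push_cast
      have h5 : (0 : ℝ) ≤ C := Nat.cast_nonneg C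
      nlinarith
    have h1 := hV.all 1 one_pos le_rfl
    rw [one_pow, div_one] at h1
    unfold FP.Pr
    rw [E2 hu h01 h]
    refine le_trans (FP.E_mono _ fun w hw => ind_mono fun hh => ?_) (h1.trans ?_)
    · have hp : D.kf T k1 w.1 (mk2 k0 w.2.1 w.2.2.1) w.2.2.2.1 * D.kf T k0 w.1 (mk2 k0 w.2.1 w.2.2.1) w.2.2.2.2 /
          (Fintype.card X * (Fintype.card β * Fintype.card β) : ℝ) ≠ 0 := hw
      have hp1 := left_ne_zero_of_mul (div_ne_zero_iff.1 hp).1
      have hp2 := right_ne_zero_of_mul (div_ne_zero_iff.1 hp).1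
      exact past_of_ever hu h01 hV.base.ref h pr H hK' T le_rfl w hp1 hp2 hh
    · have h2 : 0 < N ^ (-(1 / 40 : ℝ)) := Real.rpow_pos_of_pos (by linarith) _
      have h3 : (C : ℝ) * Lam ^ C ≤ ((C + 3 : ℕ) : ℝ) * Lam ^ (C + 3) := by
        refine mul_le_mul ?_ (pow_le_pow_right₀ hL1 (by omega)) (by positivity) (by positivity)
        push_cast
        linarith
      exact mul_le_mul_of_nonneg_right h3 h2.le

end

end Pool.Agent.GM.Harm
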