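import Mathlib

/-!
# GM/CMNum (helper50): the numbers of the cold sets (row A10c, `CMFineH`), as functions of `H`

`1/β ≤ H`, errors and accuracy of the names `exp (-H ^ c0)`, sizes `exp (H ^ D)`; `B = ⌈exp (H ^ max D c0)⌉`, `X = B ^ p`;
levels `β ^ 2` (cold sets), `β - eta` (output), output probability `exp (-H) / 2`, cold sets `exp (-H ^ c1)`.
* `NumCM` : all inequalities which the composition `NamBin`, `cm_view`, `coldMn` (`e0 = 1`, `cb = 2`) needs;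
* **`numCM_exist`**.
-/

set_option autoImplicit false

namespace Pool.Agent.GM.CMNum

/-- base of the sizes -/
noncomputable def Bn (c0 D : ℕ) (H : ℝ) : ℕ := ⌈Real.exp (H ^ max D c0)⌉₊

/-- the inequalities -/
structure NumCM (K Cc c2 c0 D p c1 : ℕ) (H β : ℝ) : Prop where
  H2 : 2 ≤ H
  /-- numbers of `cm_view` -/
  B2 : 2 ≤ Bn c0 D H
  e0 : 0 < Real.exp (-H ^ c0)
  eB : 1 / Real.exp (-H ^ c0) ≤ (Bn c0 D H : ℝ)
  e2 : Real.exp (-H ^ c0) < 1 / 2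
  sB : Real.exp (H ^ D) ≤ (Bn c0 D H : ℝ)
  /-- numbers of `coldMn`, `X = B ^ p` -/
  X2 : 2 ≤ Bn c0 D H ^ p
  cb : ∀ b : ℕ, 1 ≤ b → (9 : ℝ) * 2 ^ 2 ≤ ((Bn c0 D H ^ p : ℕ) : ℝ) ^ (b : ℤ)
  Xb : ∀ b : ℕ, 1 ≤ b → ((Bn c0 D H ^ p : ℕ) : ℝ) ≤ ((Bn c0 D H ^ p : ℕ) : ℝ) ^ (b : ℤ)
  gap : ∀ eta : ℝ, eta ≤ Real.exp (-H ^ c0) → β ^ 2 + eta < β - eta
  gapX : ∀ eta : ℝ, eta ≤ Real.exp (-H ^ c0) → ∀ b : ℕ, 1 ≤ b →
    1 / ((β - eta) - (β ^ 2 + eta)) ^ 2 ≤ ((Bn c0 D H ^ p : ℕ) : ℝ) ^ (b : ℤ)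
  sig : ∀ a6 : ℝ, a6 ≤ ((Bn c0 D H ^ p : ℕ) : ℝ) ^ (-((Cc + 2 : ℕ) : ℤ)) →
    Real.exp (-H ^ c1) + a6 ≤ ((Bn c0 D H ^ p : ℕ) : ℝ) ^ (-(Cc : ℤ))
  cold : Real.exp (-H ^ c1) ≤ ((Bn c0 D H ^ p : ℕ) : ℝ) ^ (-(c2 : ℤ))
  out0 : 0 < Real.exp (-H) / 2
  outX : 1 / (Real.exp (-H) / 2) ≤ ((Bn c0 D H ^ p : ℕ) : ℝ) ^ ((1 : ℕ) : ℤ)
  outa : ∀ a6 : ℝ, a6 ≤ ((Bn c0 D H ^ p : ℕ) : ℝ) ^ (-((Cc + 2 : ℕ) : ℤ)) → Real.exp (-H) / 2 + a6 ≤ Real.exp (-H)
  fin : ∀ eta : ℝ, eta ≤ Real.exp (-H ^ c0) → ∀ q : ℝ, q ≤ (K + 5) * Real.exp (-H ^ c0) →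
    ((Bn c0 D H ^ p : ℕ) : ℝ) ^ (-((1 : ℕ) : ℤ)) + (72 * 2 ^ 2 / (Real.exp (-H) / 2 * ((β - eta) - (β ^ 2 + eta)) ^ 2) +
      6 / (Real.exp (-H) / 2)) * q ≤ Real.exp (-H)

theorem real_lt_exp (x : ℝ) : x ≤ Real.exp x := by
  have := Real.add_one_le_exp x
  linarith

theorem pow_ge {H : ℝ} (hH : 2 ≤ H) {m n : ℕ} (h : m ≤ n) : 2 ^ (n - m) * H ^ m ≤ H ^ n := by
  have e : n = (n - m) + m := by omega
  calc 2 ^ (n - m) * H ^ m ≤ H ^ (n - m) * H ^ m :=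
        mul_le_mul_of_nonneg_right (pow_le_pow_left₀ (by norm_num) hH _) (by positivity)
    _ = H ^ n := by rw [← pow_add, ← e]

/-- the last inequality -/
theorem fin_real {K : ℕ} {H G q E y : ℝ} (hH : 2 ≤ H) (hE : K + 20 + 4 * H ≤ y) (hEd : E = Real.exp (-y)) (hG0 : 0 < G)
    (hG : 1 / G ≤ 16 * H ^ 2) (hq : q ≤ (K + 5) * E) :
    (72 * 2 ^ 2 / (Real.exp (-H) / 2 * G) + 6 / (Real.exp (-H) / 2)) * q ≤ Real.exp (-H) / 2 := by
  have hH0 : 0 < H := by linarith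
  have h1 : 72 * 2 ^ 2 / (Real.exp (-H) / 2 * G) + 6 / (Real.exp (-H) / 2) = Real.exp H * (576 * (1 / G) + 12) := by
    rw [Real.exp_neg]
    have := (Real.exp_pos H).ne'
    field_simp
    ring
  rw [h1]
  have h4 : H ^ 2 ≤ Real.exp (2 * H) := by
    calc H ^ 2 ≤ Real.exp H ^ 2 := pow_le_pow_left₀ hH0.le (real_lt_exp H) 2
      _ = Real.exp (2 * H) := by
          rw [← Real.exp_nat_mul]
          congr 1
  have h5 : 576 * (1 / G) + 12 ≤ 2 ^ 14 * H ^ 2 := by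
    have h6 : 4 ≤ H ^ 2 := by nlinarith
    have h7 : (2 : ℝ) ^ 14 * H ^ 2 = 9216 * H ^ 2 + 7168 * H ^ 2 := by ring
    rw [h7]
    linarith
  have h2 : Real.exp H * (576 * (1 / G) + 12) ≤ Real.exp H * (2 ^ 14 * Real.exp (2 * H)) :=
    mul_le_mul_of_nonneg_left (h5.trans (mul_le_mul_of_nonneg_left h4 (by norm_num))) (Real.exp_pos _).le
  have hE0 : 0 < E := by
    rw [hEd]
    exact Real.exp_pos _
  have hq0 : (0 : ℝ) ≤ (K + 5) * E := by positivity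
  have h7 : Real.exp H * (576 * (1 / G) + 12) * q ≤ Real.exp H * (2 ^ 14 * Real.exp (2 * H)) * ((K + 5) * E) := by
    refine le_trans (mul_le_mul_of_nonneg_left hq ?_) (mul_le_mul_of_nonneg_right h2 hq0)
    positivity
  refine h7.trans ?_
  have h9 : (2 : ℝ) ^ 15 * (K + 5) ≤ Real.exp (K + 20) := by
    have a1 : (2 : ℝ) ≤ Real.exp 1 := by
      have := Real.add_one_le_exp (1 : ℝ)
      linarith
    have a2 : (2 : ℝ) ^ 15 ≤ Real.exp 15 := by
      calc (2 : ℝ) ^ 15 ≤ Real.exp 1 ^ 15 := pow_le_pow_left₀ (by norm_num) a1 15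
        _ = Real.exp 15 := by
            rw [← Real.exp_nat_mul]
            norm_num
    have a3 := real_lt_exp ((K : ℝ) + 5)
    calc (2 : ℝ) ^ 15 * (K + 5) ≤ Real.exp 15 * Real.exp (K + 5) :=
          mul_le_mul a2 a3 (by positivity) (Real.exp_pos _).le
      _ = Real.exp (K + 20) := by
          rw [← Real.exp_add]
          congr 1
          ring
  calc Real.exp H * (2 ^ 14 * Real.exp (2 * H)) * ((K + 5) * E) =
        (2 ^ 15 * (K + 5)) * (Real.exp H * Real.exp (2 * H) * Real.exp (-y)) / 2 := by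
        rw [hEd]
        ring
    _ ≤ Real.exp (K + 20) * (Real.exp H * Real.exp (2 * H) * Real.exp (-y)) / 2 := by
        refine div_le_div_of_nonneg_right (mul_le_mul_of_nonneg_right h9 (by positivity)) (by norm_num)
    _ = Real.exp (K + 20 + (H + 2 * H + -y)) / 2 := by
        rw [Real.exp_add (K + 20), Real.exp_add (H + 2 * H), Real.exp_add H]
    _ ≤ Real.exp (-H) / 2 := by
        refine div_le_div_of_nonneg_right (Real.exp_le_exp.2 (by linarith)) (by norm_num)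

theorem numCM_exist (K Cc c2 c0 D p : ℕ) (hc0 : K + 14 ≤ c0) (hp : 1 ≤ p) :
    ∃ c1 : ℕ, ∀ H β : ℝ, 0 < β → β ≤ 1 / 2 → 1 / β ≤ H → NumCM K Cc c2 c0 D p c1 H β := by
  refine ⟨max D c0 + 2 * p * (Cc + c2 + 4), fun H β hβ0 hβ hβH => ?_⟩
  set c1 := max D c0 + 2 * p * (Cc + c2 + 4) with hc1
  obtain ⟨d, hd⟩ : ∃ d, d = max D c0 := ⟨_, rfl⟩
  have hd0 : c0 ≤ d := hd ▸ le_max_right _ _
  have hdD : D ≤ d := hd ▸ le_max_left _ _
  have hH : 2 ≤ H := by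
    have h1 : 2 ≤ 1 / β := by
      rw [le_div_iff₀ hβ0]
      linarith
    linarith
  have hH0 : 0 < H := by linarith
  have hH1 : 1 ≤ H := by linarith
  have hβ1 : 1 / H ≤ β := by
    rw [div_le_iff₀ hH0]
    rwa [div_le_iff₀ hβ0, mul_comm] at hβH
  set B := Bn c0 D H with hBd
  have hB1 : Real.exp (H ^ d) ≤ (B : ℝ) := by
    rw [hBd, hd]
    exact Nat.le_ceil _
  have hB2 : (B : ℝ) ≤ Real.exp (2 * H ^ d) := by
    have h1 : (B : ℝ) ≤ Real.exp (H ^ d) + 1 := by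
      rw [hBd, hd]
      exact (Nat.ceil_lt_add_one (Real.exp_pos _).le).le
    have h2 : 1 ≤ H ^ d := one_le_pow₀ hH1
    have h3 : (2 : ℝ) ≤ Real.exp (H ^ d) := by
      have := Real.add_one_le_exp (H ^ d)
      linarith
    have h4 : Real.exp (2 * H ^ d) = Real.exp (H ^ d) * Real.exp (H ^ d) := by
      rw [← Real.exp_add]
      congr 1
      ring
    rw [h4]
    have h5 := mul_le_mul_of_nonneg_left h3 (Real.exp_pos (H ^ d)).le
    linarith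
  have hd14 : K + 14 ≤ d := hc0.trans hd0
  -- powers
  have hH2 : 2 ^ 12 * H ^ 2 ≤ H ^ d := by
    refine le_trans ?_ (pow_ge hH (show 2 ≤ d by omega))
    exact mul_le_mul_of_nonneg_right (pow_le_pow_right₀ (by norm_num) (by omega)) (by positivity)
  have hHc0 : 2 ^ (K + 13) * H ≤ H ^ c0 := by
    have h1 := pow_ge hH (show 1 ≤ c0 by omega)
    rw [pow_one] at h1
    refine le_trans ?_ h1
    exact mul_le_mul_of_nonneg_right (pow_le_pow_right₀ (by norm_num) (by omega)) hH0.le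
  have hK2 : ((K : ℝ) + 13) + 1 ≤ 2 ^ (K + 13) := by
    have h1 : K + 13 < 2 ^ (K + 13) := Nat.lt_two_pow_self
    have h2 : ((K + 13 + 1 : ℕ) : ℝ) ≤ ((2 ^ (K + 13) : ℕ) : ℝ) := by exact_mod_cast h1
    push_cast at h2
    exact h2
  have hK2' : (2 : ℝ) ^ 13 ≤ 2 ^ (K + 13) := pow_le_pow_right₀ (by norm_num) (by omega)
  have hK0 : (0 : ℝ) ≤ K := Nat.cast_nonneg K
  have hHc : (K : ℝ) + 20 + 4 * H ≤ H ^ c0 := by
    have h1 : ((K : ℝ) + 14) * H ≤ H ^ c0 := by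
      refine le_trans ?_ hHc0
      exact mul_le_mul_of_nonneg_right (by linarith) hH0.le
    have h2 : 2 ^ 13 * H ≤ H ^ c0 := (mul_le_mul_of_nonneg_right hK2' hH0.le).trans hHc0
    nlinarith
  have hHc8 : 8 * H ≤ H ^ c0 := by
    have h2 : 2 ^ 13 * H ≤ H ^ c0 := (mul_le_mul_of_nonneg_right hK2' hH0.le).trans hHc0
    linarith
  have hdd : H ^ c0 ≤ H ^ d := pow_le_pow_right₀ hH1 hd0
  set X : ℝ := ((B ^ p : ℕ) : ℝ) with hX
  have hXB : (B : ℝ) ≤ X := by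
    rw [hX]
    push_cast
    have h1 : (1 : ℝ) ≤ B := (Real.one_le_exp (by positivity)).trans hB1
    calc (B : ℝ) = (B : ℝ) ^ 1 := (pow_one _).symm
      _ ≤ (B : ℝ) ^ p := pow_le_pow_right₀ h1 hp
  have hXe : Real.exp (H ^ d) ≤ X := hB1.trans hXB
  have hX0 : 0 < X := (Real.exp_pos _).trans_le hXe
  have hX36 : 36 ≤ X := by
    have h1 := real_lt_exp (H ^ d)
    nlinarith
  have hX1 : 1 ≤ X := by linarith
  have hXup : X ≤ Real.exp (2 * p * H ^ d) := by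
    rw [hX]
    push_cast
    calc (B : ℝ) ^ p ≤ Real.exp (2 * H ^ d) ^ p := pow_le_pow_left₀ (Nat.cast_nonneg _) hB2 p
      _ = Real.exp (2 * p * H ^ d) := by
          rw [← Real.exp_nat_mul]
          congr 1
          ring
  have hXm : ∀ m : ℕ, m ≤ Cc + c2 + 4 → Real.exp (-H ^ c1) ≤ X ^ (-(m : ℤ)) := by
    intro m hm
    rw [zpow_neg, zpow_natCast, ← one_div, le_div_iff₀ (by positivity)]
    have h1 : X ^ m ≤ Real.exp (2 * p * m * H ^ d) := by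
      calc X ^ m ≤ Real.exp (2 * p * H ^ d) ^ m := pow_le_pow_left₀ hX0.le hXup m
        _ = Real.exp (2 * p * m * H ^ d) := by
            rw [← Real.exp_nat_mul]
            congr 1
            ring
    have h2 : 2 * p * m * H ^ d ≤ H ^ c1 := by
      have h3 := pow_ge hH (show d ≤ c1 by rw [hc1, ← hd]; omega)
      refine le_trans ?_ h3
      refine mul_le_mul_of_nonneg_right ?_ (by positivity)
      have h4 : c1 - d = 2 * p * (Cc + c2 + 4) := by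
        rw [hc1, ← hd]
        omega
      rw [h4]
      have h5 : 2 * p * m ≤ 2 * p * (Cc + c2 + 4) := Nat.mul_le_mul_left _ hm
      have h6 : 2 * p * m ≤ 2 ^ (2 * p * (Cc + c2 + 4)) := h5.trans Nat.lt_two_pow_self.le
      exact_mod_cast h6
    calc Real.exp (-H ^ c1) * X ^ m ≤ Real.exp (-H ^ c1) * Real.exp (2 * p * m * H ^ d) :=
          mul_le_mul_of_nonneg_left h1 (Real.exp_pos _).le
      _ = Real.exp (-H ^ c1 + 2 * p * m * H ^ d) := (Real.exp_add _ _).symm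
      _ ≤ 1 := Real.exp_le_one_iff.2 (by linarith)
  have hzX : ∀ b : ℕ, 1 ≤ b → X ≤ X ^ (b : ℤ) := fun b hb => by
    rw [zpow_natCast]
    calc X = X ^ 1 := (pow_one X).symm
      _ ≤ X ^ b := pow_le_pow_right₀ hX1 hb
  have h2e : 2 * Real.exp H ≤ X := by
    have h1 : (2 : ℝ) ≤ Real.exp 1 := by
      have := Real.add_one_le_exp (1 : ℝ)
      linarith
    calc 2 * Real.exp H ≤ Real.exp 1 * Real.exp H := mul_le_mul_of_nonneg_right h1 (Real.exp_pos _).le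
      _ = Real.exp (1 + H) := (Real.exp_add _ _).symm
      _ ≤ Real.exp (H ^ d) := Real.exp_le_exp.2 (by nlinarith)
      _ ≤ X := hXe
  have hXi : X ^ (-((1 : ℕ) : ℤ)) ≤ Real.exp (-H) / 2 := by
    rw [zpow_neg, zpow_natCast, pow_one, ← one_div, div_le_iff₀ hX0, Real.exp_neg]
    rw [div_mul_eq_mul_div, le_div_iff₀ (by norm_num : (0 : ℝ) < 2), ← div_eq_inv_mul, le_div_iff₀ (Real.exp_pos _)]
    linarith
  have hXi2 : ∀ a6 : ℝ, a6 ≤ X ^ (-((Cc + 2 : ℕ) : ℤ)) → a6 ≤ Real.exp (-H) / 2 := by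
    intro a6 ha
    refine ha.trans (le_trans ?_ hXi)
    exact zpow_le_zpow_right₀ hX1 (by push_cast; omega)
  have hE8 : ∀ eta : ℝ, eta ≤ Real.exp (-H ^ c0) → eta ≤ β / 8 := by
    intro eta heta
    refine heta.trans ?_
    rw [Real.exp_neg, ← one_div, div_le_iff₀ (Real.exp_pos _)]
    have h1 : 8 * H ≤ Real.exp (H ^ c0) := hHc8.trans (real_lt_exp _)
    have h2 : 1 ≤ β * H := by
      rw [div_le_iff₀ hH0] at hβ1
      exact hβ1
    nlinarith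
  have hgap : ∀ eta : ℝ, eta ≤ Real.exp (-H ^ c0) → β / 4 ≤ (β - eta) - (β ^ 2 + eta) := by
    intro eta heta
    have h1 := hE8 eta heta
    nlinarith
  have hgap2 : ∀ eta : ℝ, eta ≤ Real.exp (-H ^ c0) → 1 / ((β - eta) - (β ^ 2 + eta)) ^ 2 ≤ 16 * H ^ 2 := by
    intro eta heta
    have h1 := hgap eta heta
    have h2 : 1 / H / 4 ≤ (β - eta) - (β ^ 2 + eta) := by linarith
    have h3 : 0 < 1 / H / 4 := by positivity
    have h4 : (1 / H / 4) ^ 2 ≤ ((β - eta) - (β ^ 2 + eta)) ^ 2 := pow_le_pow_left₀ h3.le h2 2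
    have h5 : 0 < (1 / H / 4) ^ 2 := by positivity
    calc 1 / ((β - eta) - (β ^ 2 + eta)) ^ 2 ≤ 1 / (1 / H / 4) ^ 2 := one_div_le_one_div_of_le h5 h4
      _ = 16 * H ^ 2 := by
          field_simp
          norm_num
  refine ⟨hH, ?_, Real.exp_pos _, ?_, ?_, ?_, ?_, ?_, ?_, ?_, ?_, ?_, ?_, by positivity, ?_, ?_, ?_⟩
  · have h1 : (2 : ℝ) ≤ B := by
      have h2 : H ^ d ≤ Real.exp (H ^ d) := real_lt_exp _
      nlinarith
    exact_mod_cast h1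
  · rw [Real.exp_neg, one_div, inv_inv]
    exact (Real.exp_le_exp.2 hdd).trans hB1
  · rw [Real.exp_neg, ← one_div, div_lt_div_iff₀ (Real.exp_pos _) (by norm_num)]
    have := real_lt_exp (H ^ c0)
    nlinarith
  · exact (Real.exp_le_exp.2 (pow_le_pow_right₀ hH1 hdD)).trans hB1
  · have h1 : (2 : ℝ) ≤ ((B ^ p : ℕ) : ℝ) := by
      rw [← hX]
      linarith
    exact_mod_cast h1
  · intro b hb
    refine le_trans ?_ (hzX b hb)
    norm_num
    exact hX36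
  · exact hzX
  · intro eta heta
    have := hgap eta heta
    linarith
  · intro eta heta b hb
    refine (hgap2 eta heta).trans (le_trans ?_ (hzX b hb))
    have h1 := real_lt_exp (H ^ d)
    nlinarith [pow_pos hH0 2]
  · intro a6 ha
    have h1 := hXm (Cc + 2) (by omega)
    have h2 : X ^ (-((Cc + 2 : ℕ) : ℤ)) * X ^ 2 = X ^ (-(Cc : ℤ)) := by
      rw [← zpow_natCast X 2, ← zpow_add₀ hX0.ne']
      congr 1
      push_cast
      ring
    have h3 : 0 < X ^ (-((Cc + 2 : ℕ) : ℤ)) := zpow_pos hX0 _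
    have h4 : (2 : ℝ) ≤ X ^ 2 := by nlinarith
    have h5 := mul_le_mul_of_nonneg_left h4 h3.le
    linarith
  · exact hXm c2 (by omega)
  · rw [zpow_natCast, pow_one, Real.exp_neg]
    have h1 : 1 / ((Real.exp H)⁻¹ / 2) = 2 * Real.exp H := by
      have := (Real.exp_pos H).ne'
      field_simp
    rw [h1]
    exact h2e
  · intro a6 ha
    have := hXi2 a6 ha
    linarith
  · intro eta heta q hq
    have hg0 : 0 < ((β - eta) - (β ^ 2 + eta)) ^ 2 := by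
      have := hgap eta heta
      exact pow_pos (by linarith) 2
    have h1 := fin_real (K := K) (G := ((β - eta) - (β ^ 2 + eta)) ^ 2) hH hHc rfl hg0 (hgap2 eta heta) hq
    linarith [hXi]

end Pool.Agent.GM.CMNum
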