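import Pool.Agent.GM.RawM
import Pool.Agent.GMM.Inf
import Pool.Agent.M3.NVN

/-!
# GM/PubCap (helper67): CAPPED LETTERS, the number of values of the cumulative published label at a node

Gap (3) of helper45: the theorem CM needs at every node `(x_S, Q_t)` at most `e^h` values of the published label.
`Rc` = largest number of published changes, `Cm` = largest number of closings at which a letter may be published.
* `card_letters_le` : functions with few letters at few known positions;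
* `GRT.rchc`, `GRT.ltc`, `GRT.LHc`, `GRT.pvc`, `GRT.xvc` : published changes, letters, labels, values, capped;
  `GRT.dxc` : errors, or more than `Rc` recorded changes of some label, or more than `Cm` closings for some label;
* **`GRT.pubL_LHc`** : `PubL`; `GRT.dxc_le` : mass of the errors; `GRT.LHc_entropy`, `GRT.LHc_entropy0` : created entropy;
* **`GRT.LHc_nv`**, `GRT.LHc_nv_exp` : at most `((Cm+1)(card F+1))^(Rc+1)` values given `ZJ (S l) t`;
* **`RawR.viewC`**, `viewC_q`, **`viewC_nv`** : the view with capped letters; `mvOfC`, `mvOfC_nv` : in the model;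
* `GVn` : a view with a bound `nvb` for the number of values (field `nvle`); **`RawR.viewCn`**, `viewCn_q`; `MVn`,
  **`mvOfCn`** : in the model.
-/

set_option autoImplicit false
set_option linter.unusedSectionVars false

namespace Pool.Agent.GM

open Finset Pool.Agent.PWZ Pool.Agent.M3

/-! ## counting -/

/-- functions with at most `m` letters, at positions of a fixed set `C` -/
theorem card_letters_le {T F : Type*} [Fintype F] (V : Finset (T → Option F)) (C : Finset T) (m c : ℕ)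
    (hC : C.Nonempty) (hc : C.card ≤ c)
    (hV : ∀ g ∈ V, ∃ A : Finset T, A ⊆ C ∧ A.card ≤ m ∧ ∀ s, g s ≠ none → s ∈ A) :
    V.card ≤ (c * (Fintype.card F + 1)) ^ m := by
  classical
  obtain ⟨c0, hc0⟩ := hC
  set Φ : (Fin m → {s // s ∈ C} × Option F) → (T → Option F) := fun h s =>
    if h' : ∃ i, ((h i).1 : T) = s then (h h'.choose).2 else none with hΦ
  have hsub : V ⊆ Finset.image Φ univ := by
    intro g hg
    obtain ⟨A, hA, hAm, hs⟩ := hV g hg
    have hlen : A.toList.length ≤ m := by rw [Finset.length_toList]; exact hAm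
    have hmem : ∀ (i : ℕ) (hi : i < A.toList.length), A.toList[i] ∈ C := fun i hi =>
      hA (Finset.mem_toList.1 (List.getElem_mem hi))
    set e : Fin m → {s // s ∈ C} := fun i =>
      if hi : i.val < A.toList.length then ⟨A.toList[i.val], hmem i.val hi⟩ else ⟨c0, hc0⟩ with he
    have hsurj : ∀ s ∈ A, ∃ i, ((e i : {s // s ∈ C}) : T) = s := by
      intro s hsA
      obtain ⟨i, hi, his⟩ := List.getElem_of_mem (Finset.mem_toList.2 hsA)
      refine ⟨⟨i, by omega⟩, ?_⟩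
      simp only [he]
      rw [dif_pos hi]
      exact his
    refine Finset.mem_image.2 ⟨fun i => (e i, g (e i)), Finset.mem_univ _, ?_⟩
    funext s
    simp only [hΦ]
    by_cases h' : ∃ i, ((e i : {s // s ∈ C}) : T) = s
    · rw [dif_pos h']
      have h1 : ((e h'.choose : {s // s ∈ C}) : T) = s := h'.choose_spec
      rw [h1]
    · rw [dif_neg h']
      by_contra hn
      exact h' (hsurj s (hs s fun h => hn h.symm))
  calc V.card ≤ (Finset.image Φ univ).card := Finset.card_le_card hsub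
    _ ≤ (univ : Finset (Fin m → {s // s ∈ C} × Option F)).card := Finset.card_image_le
    _ = (C.card * (Fintype.card F + 1)) ^ m := by
        rw [Finset.card_univ, Fintype.card_fun, Fintype.card_prod, Fintype.card_option, Fintype.card_fin,
          Fintype.card_coe]
    _ ≤ (c * (Fintype.card F + 1)) ^ m := Nat.pow_le_pow_left (Nat.mul_le_mul_right _ hc) m

open Classical in
/-- the first position and the positions after the first `m` occasions -/
noncomputable def posn (p : ℕ → Prop) (m t : ℕ) : Finset (Fin (t + 1)) :=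
  univ.filter fun s => s.val = 0 ∨ ∃ r, s.val = r + 1 ∧ p r ∧ Nz.cn p r < m

theorem mem_posn {p : ℕ → Prop} {m t : ℕ} {s : Fin (t + 1)} :
    s ∈ posn p m t ↔ s.val = 0 ∨ ∃ r, s.val = r + 1 ∧ p r ∧ Nz.cn p r < m := by
  classical
  unfold posn
  simp only [mem_filter, mem_univ, true_and]

theorem posn_nonempty (p : ℕ → Prop) (m t : ℕ) : (posn p m t).Nonempty :=
  ⟨⟨0, Nat.succ_pos t⟩, mem_posn.2 (Or.inl rfl)⟩

theorem card_posn (p : ℕ → Prop) (m t : ℕ) : (posn p m t).card ≤ m + 1 := by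
  classical
  have h1 : (posn p m t).card ≤
      (insert 0 (((range t).filter fun r => p r ∧ Nz.cn p r < m).image Nat.succ)).card := by
    refine Finset.card_le_card_of_injOn (fun s : Fin (t + 1) => s.val) ?_ fun a _ b _ h => Fin.ext h
    intro s hs
    rcases mem_posn.1 (Finset.mem_coe.1 hs) with h | ⟨r, h2, h3⟩
    · exact Finset.mem_coe.2 (Finset.mem_insert.2 (Or.inl h))
    · refine Finset.mem_coe.2 (Finset.mem_insert.2 (Or.inr (Finset.mem_image.2 ⟨r, ?_, h2.symm⟩)))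
      refine Finset.mem_filter.2 ⟨Finset.mem_range.2 ?_, h3⟩
      have := s.isLt
      omega
  have h2 : (((range t).filter fun r => p r ∧ Nz.cn p r < m).image Nat.succ).card ≤ m := by
    refine Finset.card_image_le.trans ?_
    refine le_trans (Finset.card_le_card ?_) (Nz.card_cn_lt p m t)
    intro r hr
    simp only [Finset.mem_filter] at hr ⊢
    exact hr
  exact h1.trans ((Finset.card_insert_le _ _).trans (Nat.succ_le_succ h2))

namespace GRT

variable {Om : Type} [Fintype Om] {κ : ℕ → Type} {α β ι L F E F' : Type} [Fintype ι] [DecidableEq ι]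

section letters

variable (S : GRT Om κ α β ι L F E F') (Rc Cm : ℕ)

/-- published changes -/
def rchc (l : L) (t : ℕ) (w : Om) : Prop :=
  S.rch l t w ∧ Nz.cn (fun s => S.rch l s w) t < Rc ∧ Nz.cn (fun s => S.toGRD.cS l s w) t < Cm

open Classical in
/-- the capped letter of `l` at the time `t` -/
noncomputable def ltc (l : L) : ℕ → Om → Option F
  | 0, w => some (S.f l 0 w)
  | t + 1, w => if S.rchc Rc Cm l t w then some (S.f l (t + 1) w) else none

/-- the capped letters up to the time `t` -/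
noncomputable def LHc (l : L) (t : ℕ) (w : Om) : Fin (t + 1) → Option F := fun s => S.ltc Rc Cm l s.val w

open Classical in
/-- published plain label: read at the last capped letter -/
noncomputable def pvc (l : L) : ℕ → Om → F'
  | 0, w => S.fp l 0 w
  | t + 1, w => if S.rchc Rc Cm l t w then S.fp l (t + 1) w else pvc l t w

/-- published value, capped -/
noncomputable def xvc (t : ℕ) (w : Om) : E × (L → F') := (S.e t w, fun l => S.pvc Rc Cm l t w)

/-- errors: too many recorded changes or too many closings -/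
def dxc (t : ℕ) (w : Om) : Prop :=
  S.D0 t w ∨ ∃ l, Rc < Nz.cn (fun s => S.rch l s w) t ∨ Cm < Nz.cn (fun s => S.toGRD.cS l s w) t

variable {S Rc Cm}

theorem ltc_some {l : L} {t : ℕ} {w : Om} (h : S.rchc Rc Cm l t w) :
    S.ltc Rc Cm l (t + 1) w = some (S.f l (t + 1) w) := if_pos h

theorem ltc_none {l : L} {t : ℕ} {w : Om} (h : ¬ S.rchc Rc Cm l t w) : S.ltc Rc Cm l (t + 1) w = none := if_neg h

theorem pvc_of {l : L} {t : ℕ} {w : Om} (h : S.rchc Rc Cm l t w) : S.pvc Rc Cm l (t + 1) w = S.fp l (t + 1) w :=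
  if_pos h

theorem pvc_not {l : L} {t : ℕ} {w : Om} (h : ¬ S.rchc Rc Cm l t w) : S.pvc Rc Cm l (t + 1) w = S.pvc Rc Cm l t w :=
  if_neg h

theorem rchc_iff_ltc {l : L} {t : ℕ} {w : Om} : S.rchc Rc Cm l t w ↔ S.ltc Rc Cm l (t + 1) w ≠ none := by
  by_cases h : S.rchc Rc Cm l t w
  · rw [ltc_some h]
    simp [h]
  · rw [ltc_none h]
    simp [h]

theorem AQ_leC (h : S.toGRD.Hyp) (J : Finset ι) {s t : ℕ} (hs : s ≤ t) :
    Fac (S.toGRD.AQ J t) (S.toGRD.AQ J s) := by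
  induction t, hs using Nat.le_induction with
  | base => exact Fac.refl _
  | succ t _ ih => exact Fac.trans (GRD.AQ_filt h J t) ih

theorem ZJ_leC (h : S.toGRD.Hyp) (J : Finset ι) {s t : ℕ} (hs : s ≤ t) :
    Fac (S.toGRD.ZJ J t) (S.toGRD.ZJ J s) := by
  induction t, hs using Nat.le_induction with
  | base => exact Fac.refl _
  | succ t _ ih => exact Fac.trans (GRD.ZJ_filt h J t) ih

theorem rchc_iff (h : S.toGRD.Hyp) {l : L} {t : ℕ} {v w : Om}
    (hv : S.toGRD.AQ (S.S l) (t + 1) v = S.toGRD.AQ (S.S l) (t + 1) w) :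
    S.rchc Rc Cm l t v ↔ S.rchc Rc Cm l t w := by
  have h1 : ∀ s < t, (S.rch l s v ↔ S.rch l s w) := fun s hs =>
    rch_iff h (AQ_leC h (S.S l) (by omega) v w hv)
  have h2 : ∀ s < t, (S.toGRD.cS l s v ↔ S.toGRD.cS l s w) := fun s hs =>
    GRD.cS_iff (GRD.AQ_fac_ZJ _ _ v w (AQ_leC h (S.S l) (by omega) v w hv))
  unfold rchc
  rw [rch_iff h hv, Nz.cn_congr h1, Nz.cn_congr h2]

theorem ltc_fac (h : S.toGRD.Hyp) (l : L) (t : ℕ) : Fac (S.toGRD.AQ (S.S l) t) (S.ltc Rc Cm l t) := by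
  cases t with
  | zero =>
    intro v w hv
    show some (S.f l 0 v) = some (S.f l 0 w)
    rw [h.ff l 0 v w hv]
  | succ t =>
    intro v w hv
    have h1 := rchc_iff (Rc := Rc) (Cm := Cm) h hv
    by_cases hc : S.rchc Rc Cm l t w
    · rw [ltc_some hc, ltc_some (h1.2 hc), h.ff l (t + 1) v w hv]
    · rw [ltc_none hc, ltc_none fun h' => hc (h1.1 h')]

theorem LHc_fac (h : S.toGRD.Hyp) (l : L) (t : ℕ) : Fac (S.toGRD.AQ (S.S l) t) (S.LHc Rc Cm l t) := by
  intro v w hv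
  funext s
  exact ltc_fac h l s.val v w (AQ_leC h (S.S l) (Nat.lt_succ_iff.1 s.isLt) v w hv)

theorem LHc_succ (l : L) (t : ℕ) : Fac (S.LHc Rc Cm l (t + 1)) (S.LHc Rc Cm l t) := by
  intro v w hv
  funext s
  exact congrFun hv ⟨s.val, by omega⟩

theorem dxc_inc (H : S.HypT) {t : ℕ} {w : Om} (hw : S.P.p w ≠ 0) (hd : S.dxc Rc Cm t w) : S.dxc Rc Cm (t + 1) w := by
  rcases hd with hd | ⟨l, hd | hd⟩
  · exact Or.inl (H.D0i t w hw hd)
  · exact Or.inr ⟨l, Or.inl (lt_of_lt_of_le hd (Nz.cn_mono _ (Nat.le_succ t)))⟩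
  · exact Or.inr ⟨l, Or.inr (lt_of_lt_of_le hd (Nz.cn_mono _ (Nat.le_succ t)))⟩

/-- off the errors nothing is cut -/
theorem rchc_of {l : L} {s t : ℕ} {w : Om} (hd : ¬ S.dxc Rc Cm t w) (hs : s < t) (h : S.rch l s w) :
    S.rchc Rc Cm l s w := by
  unfold dxc at hd
  push Not at hd
  obtain ⟨h1, h2⟩ := hd.2 l
  have a1 := Nz.cn_succ_of (p := fun s => S.rch l s w) (t := s) h
  have a2 := Nz.cn_mono (fun s => S.rch l s w) (show s + 1 ≤ t by omega)
  have a3 := Nz.cn_succ_of (p := fun s => S.toGRD.cS l s w) (t := s) h.1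
  have a4 := Nz.cn_mono (fun s => S.toGRD.cS l s w) (show s + 1 ≤ t by omega)
  exact ⟨h, by omega, by omega⟩

theorem pvc_eq (l : L) (t : ℕ) {w : Om} (hd : ¬ S.dxc Rc Cm t w) :
    S.pvc Rc Cm l t w = S.pv l t w := by
  have key : ∀ s, s ≤ t → S.pvc Rc Cm l s w = S.pv l s w := by
    intro s
    induction s with
    | zero => intro _; rfl
    | succ s ih =>
      intro hs
      by_cases hc : S.rch l s w
      · rw [pv_of hc, pvc_of (rchc_of hd (by omega) hc)]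
      · rw [pv_not hc, pvc_not fun h => hc h.1, ih (by omega)]
  exact key t le_rfl

theorem xvc_eq (H : S.HypT) {t : ℕ} {w : Om} (hw : S.P.p w ≠ 0) (hd : ¬ S.dxc Rc Cm t w) :
    S.xvc Rc Cm t w = S.vr t w := by
  have h1 : S.xvc Rc Cm t w = S.xv t w := Prod.ext rfl (funext fun l => pvc_eq l t hd)
  rw [h1]
  exact xv_eq H hw fun h => hd (Or.inl h)

/-- the published plain label is known from the letters and the node -/
theorem pvc_fac (H : S.HypT) {κ' : ℕ → Type} (A : ∀ t, Om → κ' t) (hA : Adm S.toGRD.Z (S.LHc Rc Cm) A) (l : L)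
    (t : ℕ) : Fac (A t) (S.pvc Rc Cm l t) := by
  induction t with
  | zero =>
    intro v w hv
    refine H.fpf l 0 v w (Prod.ext ?_ (hA.Z 0 v w hv))
    have h1 : S.ltc Rc Cm l 0 v = S.ltc Rc Cm l 0 w := congrFun (hA.pl l 0 v w hv) ⟨0, Nat.lt_succ_self 0⟩
    exact Option.some.inj h1
  | succ t ih =>
    intro v w hv
    have h1 : S.ltc Rc Cm l (t + 1) v = S.ltc Rc Cm l (t + 1) w :=
      congrFun (hA.pl l (t + 1) v w hv) ⟨t + 1, Nat.lt_succ_self (t + 1)⟩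
    by_cases hc : S.rchc Rc Cm l t w
    · have hc' : S.rchc Rc Cm l t v := by
        rw [rchc_iff_ltc, h1, ← rchc_iff_ltc]
        exact hc
      rw [pvc_of hc, pvc_of hc']
      refine H.fpf l (t + 1) v w (Prod.ext ?_ (hA.Z (t + 1) v w hv))
      rw [ltc_some hc, ltc_some hc'] at h1
      exact Option.some.inj h1
    · have hc' : ¬ S.rchc Rc Cm l t v := fun h' => hc (by
        rw [rchc_iff_ltc, ← h1, ← rchc_iff_ltc]
        exact h')
      rw [pvc_not hc, pvc_not hc']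
      exact ih v w (hA.filt t v w hv)

/-- **published labels, capped** -/
theorem pubL_LHc (H : S.HypT) {ζ : L → ℕ → Type} {AL : ∀ l t, Om → ζ l t}
    (hAL : ∀ l t, Fac (AL l t) (S.toGRD.AQ (S.S l) t)) :
    S.PubL AL (S.LHc Rc Cm) (S.xvc Rc Cm) (S.dxc Rc Cm) (S.rchc Rc Cm) where
  plA l t := (hAL l t).trans (LHc_fac H.hyp l t)
  plc := LHc_succ
  x1 _ _ := rfl
  xV A hA t := by
    intro v w hv
    refine Prod.ext (H.fe t v w (hA.Z t v w hv)) (funext fun l => ?_)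
    exact pvc_fac H A hA l t v w hv
  Dxi _ _ hw hd := dxc_inc H hw hd
  D0x _ _ h := Or.inl h
  xv _ _ hw hd := xvc_eq H hw hd
  xc t w hx := by
    by_contra hn
    push Not at hn
    apply hx
    refine Prod.ext hn.1 (funext fun l => ?_)
    exact pvc_not (hn.2 l)
  cA l t v w hv := rchc_iff H.hyp (hAL l (t + 1) v w hv)
  cV l t v w hv := by
    have h1 : S.ltc Rc Cm l (t + 1) v = S.ltc Rc Cm l (t + 1) w :=
      congrFun hv ⟨t + 1, Nat.lt_succ_self (t + 1)⟩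
    rw [rchc_iff_ltc, rchc_iff_ltc, h1]

/-! ### numbers -/

theorem rchc_count (l : L) (n : ℕ) :
    ∑ t ∈ range n, S.P.Pr (S.rchc Rc Cm l t) ≤ ∑ t ∈ range n, S.P.Pr (fun w => S.f l (t + 1) w ≠ S.f l t w) :=
  (Finset.sum_le_sum fun _ _ => S.P.Pr_mono fun _ _ h => h.1).trans (rch_count l n)

/-- **MASS OF THE ERRORS** -/
theorem dxc_le [Fintype L] (h : S.toGRD.Hyp) (hR : 0 < Rc) (hC : 0 < Cm) {N : ℕ} {nf q0 nt : ℝ}
    (hq : S.P.Pr (S.D0 N) ≤ q0) (hf : ∀ l, ∑ t ∈ range N, S.P.Pr (fun w => S.f l (t + 1) w ≠ S.f l t w) ≤ nf)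
    (hnt : S.toGRD.ntot N ≤ nt) :
    S.P.Pr (S.dxc Rc Cm N) ≤ q0 + Fintype.card L * (nf / Rc + 2 ^ Fintype.card ι * nt / S.al 0 / Cm) := by
  classical
  have hal := h.al0 0
  have hR' : (0 : ℝ) < Rc := Nat.cast_pos.mpr hR
  have hC' : (0 : ℝ) < Cm := Nat.cast_pos.mpr hC
  have h1 : ∀ l, S.P.Pr (fun w => Rc < Nz.cn (fun s => S.rch l s w) N ∨
      Cm < Nz.cn (fun s => S.toGRD.cS l s w) N) ≤ nf / Rc + 2 ^ Fintype.card ι * nt / S.al 0 / Cm := by
    intro l
    refine (S.P.Pr_or_le _ _).trans (add_le_add ?_ ?_)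
    · have h2 := S.P.cn_markov (fun s v => S.rch l s v) N Rc
      rw [le_div_iff₀ hR', mul_comm]
      exact h2.trans ((rch_count l N).trans (hf l))
    · have h2 := S.P.cn_markov (fun s v => S.toGRD.cS l s v) N Cm
      have h3 := GRD.cS_count h l N
      have h4 : S.al 0 * ∑ t ∈ range N, S.P.Pr (S.toGRD.cS l t) ≤ 2 ^ Fintype.card ι * nt :=
        h3.trans (mul_le_mul_of_nonneg_left hnt (by positivity))
      rw [le_div_iff₀ hC', mul_comm, le_div_iff₀ hal, mul_comm]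
      exact (mul_le_mul_of_nonneg_left h2 hal.le).trans h4
  have h2 : S.P.Pr (S.dxc Rc Cm N) ≤ S.P.Pr (S.D0 N) +
      S.P.Pr (fun w => ∃ l ∈ (univ : Finset L), (Rc < Nz.cn (fun s => S.rch l s w) N ∨
        Cm < Nz.cn (fun s => S.toGRD.cS l s w) N)) := by
    refine le_trans (S.P.Pr_mono fun w _ hw => ?_) (S.P.Pr_or_le _ _)
    rcases hw with hw | ⟨l, hw⟩
    · exact Or.inl hw
    · exact Or.inr ⟨l, Finset.mem_univ _, hw⟩
  have h3 := S.P.Pr_ex_le (univ : Finset L) (fun l w => Rc < Nz.cn (fun s => S.rch l s w) N ∨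
        Cm < Nz.cn (fun s => S.toGRD.cS l s w) N)
  have h4 := Finset.sum_le_sum fun l (_ : l ∈ (univ : Finset L)) => h1 l
  rw [Finset.sum_const, Finset.card_univ, nsmul_eq_mul] at h4
  linarith

/-- created entropy of the capped letters -/
theorem LHc_entropy [Fintype L] [Fintype F] (h : S.toGRD.Hyp) (l : L) (n : ℕ) {Hh nl : ℝ} (hH : 0 ≤ Hh)
    (hF : (Fintype.card F : ℝ) ≤ Real.exp Hh)
    (hf : ∑ t ∈ range n, S.P.Pr (fun w => S.f l (t + 1) w ≠ S.f l t w) ≤ nl) :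
    ∑ t ∈ range n, S.P.Hc (S.LHc Rc Cm l (t + 1)) (fun w => (S.LHc Rc Cm l t w, S.toGRD.ZJ (S.S l) (t + 1) w)) ≤
      nl * (1 + Real.log (4 / S.al 0) + Hh) + 2 ^ Fintype.card ι * S.toGRD.ntot n / 4 := by
  have hal := h.al0 0
  have hal1 := h.al1 0
  have hone : (1 : ℝ) / (S.al 0 / 4) = 4 / S.al 0 := one_div_div _ _
  have hlog : 0 ≤ Real.log (1 / (S.al 0 / 4)) := by
    apply Real.log_nonneg
    rw [one_div_div, le_div_iff₀ hal]
    linarith
  have h1 : ∀ t, S.P.Hc (S.LHc Rc Cm l (t + 1)) (fun w => (S.LHc Rc Cm l t w, S.toGRD.ZJ (S.S l) (t + 1) w)) ≤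
      S.P.Pr (S.rchc Rc Cm l t) * (1 + Real.log (1 / (S.al 0 / 4)) + Hh) +
        S.al 0 / 4 * S.P.Pr (fun w => S.toGRD.cS l t w) := by
    intro t
    refine S.P.Hc_record_le (S.LHc Rc Cm l t) (S.LHc Rc Cm l (t + 1)) (S.toGRD.ZJ (S.S l) (t + 1)) (S.f l (t + 1)) ?_
      (fun w hs => hs.1.1) ?_ (by positivity) hH hF
    · intro v w e
      exact GRD.cS_iff e
    · intro v w e1 e2 e3
      funext s
      rcases Nat.lt_succ_iff_lt_or_eq.1 s.isLt with hs | hs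
      · exact congrFun e1 ⟨s.val, hs⟩
      · have e : s = ⟨t + 1, Nat.lt_succ_self (t + 1)⟩ := Fin.ext hs
        rw [e]
        show S.ltc Rc Cm l (t + 1) v = S.ltc Rc Cm l (t + 1) w
        by_cases hv : S.rchc Rc Cm l t v
        · rw [ltc_some hv, ltc_some (e2.1 hv), e3 hv]
        · rw [ltc_none hv, ltc_none fun hh => hv (e2.2 hh)]
  refine le_trans (Finset.sum_le_sum (fun t _ => h1 t)) ?_
  rw [Finset.sum_add_distrib, ← Finset.sum_mul, ← Finset.mul_sum]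
  have h2 := (rchc_count (Rc := Rc) (Cm := Cm) l n).trans hf
  have h3 := GRD.cS_count h l n
  have h6 : (∑ t ∈ range n, S.P.Pr (S.rchc Rc Cm l t)) *
      (1 + Real.log (1 / (S.al 0 / 4)) + Hh) ≤ nl * (1 + Real.log (1 / (S.al 0 / 4)) + Hh) :=
    mul_le_mul_of_nonneg_right h2 (by linarith)
  rw [hone] at h6
  rw [hone]
  have h7 : S.al 0 / 4 * ∑ t ∈ range n, S.P.Pr (fun w => S.toGRD.cS l t w) =
      (S.al 0 * ∑ t ∈ range n, S.P.Pr (S.toGRD.cS l t)) / 4 := by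
    have : ∑ t ∈ range n, S.P.Pr (fun w => S.toGRD.cS l t w) = ∑ t ∈ range n, S.P.Pr (S.toGRD.cS l t) := rfl
    rw [this]
    ring
  rw [h7]
  linarith

/-- the first capped letter is the first letter -/
theorem LHc_zero (l : L) (w : Om) : S.LHc Rc Cm l 0 w = S.LH l 0 w := by
  funext s
  have hs : s = ⟨0, Nat.lt_succ_self 0⟩ := by
    refine Fin.ext ?_
    have := s.isLt
    show s.val = 0
    omega
  rw [hs]
  rfl

/-- entropy of the first letter -/
theorem LHc_entropy0 [Fintype F] (l : L) {Hh : ℝ} (hH : 0 ≤ Hh) (hF : (Fintype.card F : ℝ) ≤ Real.exp Hh) :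
    S.P.Hc (S.LHc Rc Cm l 0) (S.toGRD.ZJ (S.S l) 0) ≤ Hh := by
  have h1 : S.LHc Rc Cm l 0 = S.LH l 0 := funext fun w => LHc_zero l w
  rw [h1]
  exact LH_entropy0 l hH hF

/-- a letter is at a position of the first `Rc` recorded changes -/
theorem LHc_pos {l : L} {t : ℕ} {u : Om} {s : Fin (t + 1)} (h : S.LHc Rc Cm l t u s ≠ none) :
    s ∈ posn (fun r => S.rch l r u) Rc t ∧ s ∈ posn (fun r => S.toGRD.cS l r u) Cm t := by
  rcases Nat.eq_zero_or_pos s.val with hs | hs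
  · exact ⟨mem_posn.2 (Or.inl hs), mem_posn.2 (Or.inl hs)⟩
  · obtain ⟨r, hr⟩ := Nat.exists_eq_succ_of_ne_zero (Nat.pos_iff_ne_zero.1 hs)
    have h1 : S.ltc Rc Cm l (r + 1) u ≠ none := by
      have h2 : S.LHc Rc Cm l t u s = S.ltc Rc Cm l s.val u := rfl
      rw [h2, hr] at h
      exact h
    obtain ⟨h2, h3, h4⟩ := rchc_iff_ltc.2 h1
    exact ⟨mem_posn.2 (Or.inr ⟨r, hr, h2, h3⟩), mem_posn.2 (Or.inr ⟨r, hr, h2.1, h4⟩)⟩

/-- **NUMBER OF VALUES OF THE PUBLISHED LABEL AT A NODE** -/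
theorem LHc_nv [Fintype F] (h : S.toGRD.Hyp) (l : L) (t : ℕ) (w : Om) :
    GMM.nv S.P (S.LHc Rc Cm l t) (S.toGRD.ZJ (S.S l) t) w ≤ ((Cm + 1) * (Fintype.card F + 1)) ^ (Rc + 1) := by
  classical
  unfold GMM.nv
  refine card_letters_le _ (posn (fun r => S.toGRD.cS l r w) Cm t) (Rc + 1) (Cm + 1) (posn_nonempty _ _ _)
    (card_posn _ _ _) fun g hg => ?_
  obtain ⟨u, _, hu, rfl⟩ := GMM.mem_vs_iff.1 hg
  refine ⟨posn (fun r => S.toGRD.cS l r w) Cm t ∩ posn (fun r => S.rch l r u) Rc t, Finset.inter_subset_left,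
    (Finset.card_le_card Finset.inter_subset_right).trans (card_posn _ _ _), fun s hs => ?_⟩
  obtain ⟨h1, h2⟩ := LHc_pos hs
  refine Finset.mem_inter.2 ⟨?_, h1⟩
  rcases mem_posn.1 h2 with h3 | ⟨r, h3, h4, h5⟩
  · exact mem_posn.2 (Or.inl h3)
  · have hr : r + 1 ≤ t := by
      have := s.isLt
      omega
    have e : ∀ q, q ≤ r → (S.toGRD.cS l q u ↔ S.toGRD.cS l q w) := fun q hq =>
      GRD.cS_iff (ZJ_leC h (S.S l) (by omega) u w hu)
    refine mem_posn.2 (Or.inr ⟨r, h3, (e r le_rfl).1 h4, ?_⟩)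
    rw [← Nz.cn_congr fun q hq => e q hq.le]
    exact h5

/-- the same, as an exponential -/
theorem LHc_nv_exp [Fintype F] (h : S.toGRD.Hyp) (l : L) (t : ℕ) (w : Om) :
    (GMM.nv S.P (S.LHc Rc Cm l t) (S.toGRD.ZJ (S.S l) t) w : ℝ) ≤
      Real.exp (((Rc : ℝ) + 1) * (Real.log ((Cm : ℝ) + 1) + Real.log ((Fintype.card F : ℝ) + 1))) := by
  have h1 := LHc_nv (Rc := Rc) (Cm := Cm) h l t w
  have h2 : ((GMM.nv S.P (S.LHc Rc Cm l t) (S.toGRD.ZJ (S.S l) t) w : ℕ) : ℝ) ≤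
      (((Cm : ℝ) + 1) * ((Fintype.card F : ℝ) + 1)) ^ (Rc + 1) := by exact_mod_cast h1
  refine h2.trans (le_of_eq ?_)
  have h3 : (0 : ℝ) < (Cm : ℝ) + 1 := by positivity
  have h4 : (0 : ℝ) < (Fintype.card F : ℝ) + 1 := by positivity
  rw [← Real.log_mul h3.ne' h4.ne', show ((Rc : ℝ) + 1) = ((Rc + 1 : ℕ) : ℝ) by push_cast; ring, Real.exp_nat_mul,
    Real.exp_log (mul_pos h3 h4)]

end letters

end GRT

/-! ## the view -/

namespace GRT.RawR

variable {Om : Type} [Fintype Om] {κ : ℕ → Type} {α β ι L O E F' : Type} [Fintype ι] [DecidableEq ι] [Fintype O]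
  [Inhabited O] {S : GRT Om κ α β ι L (O → F') E F'} {ix : ℕ → Om → O} {D : ℕ → Om → ℝ}
  {dK : E × (L → F') → ℕ → Om → ℝ} {che zr : ℕ → Om → Prop} {N M : ℕ} {cT ne nf q0 q1 : ℝ}
  (R : S.RawR ix D dK che zr N M cT ne nf q0 q1) [Fintype L]

/-- mass of the errors with capped letters -/
noncomputable def qc (S : GRT Om κ α β ι L (O → F') E F') (Rc Cm : ℕ) (nf q0 q1 : ℝ) : ℝ :=
  q0 + q1 + Fintype.card L * (nf / Rc + 2 ^ Fintype.card ι * (Fintype.card L * nf) / S.al 0 / Cm)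

/-- the error of the view with capped letters -/
noncomputable def qvC (S : GRT Om κ α β ι L (O → F') E F') (Rc Cm M : ℕ) (ne nf q0 q1 r1 : ℝ) : ℝ :=
  qc S Rc Cm nf q0 q1 + Fintype.card L * S.toGRD.top * (ne + 2 ^ Fintype.card ι * (Fintype.card L * nf) +
    3 * (((M : ℝ) + 1) ^ (Fintype.card L + 1) * (S.Lam / r1)))

/-- logarithm of the number of values of a published label at a node -/
noncomputable def hnv (O : Type) [Fintype O] (Rc Cm M : ℕ) : ℝ :=
  ((Rc : ℝ) + 1) * (Real.log ((Cm : ℝ) + 1) + Real.log (((M : ℝ) + 1) ^ Fintype.card O + 1))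

include R

theorem dxcN {Rc Cm : ℕ} (hR : 0 < Rc) (hC : 0 < Cm) :
    S.P.Pr ((S.numd ix M).dxc Rc Cm N) ≤ qc S Rc Cm nf q0 q1 :=
  dxc_le (S := S.numd ix M) R.hypN.hyp hR hC R.D0N R.fJN R.ntotN

variable [DecidableEq L] [DecidableEq O] {ζ : L → ℕ → Type} {AL : ∀ l t, Om → ζ l t}

/-- **THE VIEW WITH CAPPED LETTERS** -/
noncomputable def viewC (Rc Cm : ℕ) (hR : 0 < Rc) (hC : 0 < Cm)
    (hAL : ∀ l t, Fac (AL l t) (S.toGRD.AQ (S.S l) t)) (hAf : ∀ l, Filt (AL l)) {r1 rmin : ℝ}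
    (hr1 : 0 < r1) (hr1' : r1 ≤ 1 / 2) (hr0 : 2 * S.eta + r1 ≤ rmin) :
    GV S.P N S.toGRD.Z D AL (fun l => S.toGRD.ZJ (S.S l)) S.T che zr :=
  gvOf (S := S.numd ix M) (AL := AL) (ZL := fun l => S.toGRD.ZJ (S.S l)) (N := N) (ne := ne)
    (nt := Fintype.card L * nf) (r1 := r1) (rmin := rmin) (q := qvC S Rc Cm M ne nf q0 q1 r1) (J := ne + nf)
    (hb := hv S M nf) R.hypN (pubL_LHc (S := S.numd ix M) (Rc := Rc) (Cm := Cm) R.hypN hAL) R.stepsN hr1 hr1' hr0
    R.eJ R.ntotN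
    (by
      have h1 := R.dxcN hR hC
      unfold qrun qvC
      rw [card_val]
      have e1 : (S.numd ix M).P = S.P := rfl
      have e2 : (S.numd ix M).Lam = S.Lam := rfl
      have e3 : (S.numd ix M).toGRD.top = S.toGRD.top := rfl
      rw [e1, e2, e3]
      linarith)
    (by linarith [R.nf0])
    (fun l t v w hv => ⟨R.hypN.hyp.ff l (t + 1) v w (hAL l (t + 1) v w hv),
      R.hypN.hyp.ff l t v w (hAL l t v w (hAf l t v w hv))⟩)
    (fun l => (R.fJN l).trans (by linarith [R.ne0]))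
    (fun l => (rchc_count (S := S.numd ix M) l N).trans ((R.fJN l).trans (by linarith [R.ne0])))
    (fun l => by
      refine (LHc_entropy0 (S := S.numd ix M) l (Hh := Fintype.card O * Real.log (M + 1)) logM card_exp).trans ?_
      have h1 := R.log_le_hl
      have h2 := R.nf0
      have h3 : 0 ≤ hl S M := logM.trans h1
      unfold hv
      have h4 : 0 ≤ nf * hl S M := mul_nonneg h2 h3
      have h5 : (0 : ℝ) ≤ 2 ^ Fintype.card ι * (Fintype.card L * nf) / 4 := by positivity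
      linarith)
    (fun l => by
      refine (LHc_entropy (S := S.numd ix M) R.hypN.hyp l N (Hh := Fintype.card O * Real.log (M + 1)) logM card_exp
        (R.fJN l)).trans ?_
      have h1 := R.log_le_hl
      have h3 : 0 ≤ hl S M := logM.trans h1
      have h4 := R.ntotN
      have h5 : (2 : ℝ) ^ Fintype.card ι * (S.numd ix M).toGRD.ntot N ≤
          2 ^ Fintype.card ι * (Fintype.card L * nf) := mul_le_mul_of_nonneg_left h4 (by positivity)
      have e1 : (S.numd ix M).al 0 = S.al 0 := rfl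
      unfold hv
      rw [e1]
      have e2 : 1 + Real.log (4 / S.al 0) + Fintype.card O * Real.log (M + 1) = hl S M := rfl
      rw [e2]
      linarith)

theorem viewC_q (Rc Cm : ℕ) (hR : 0 < Rc) (hC : 0 < Cm) (hAL : ∀ l t, Fac (AL l t) (S.toGRD.AQ (S.S l) t))
    (hAf : ∀ l, Filt (AL l)) {r1 rmin : ℝ} (hr1 : 0 < r1) (hr1' : r1 ≤ 1 / 2) (hr0 : 2 * S.eta + r1 ≤ rmin) :
    (R.viewC Rc Cm hR hC hAL hAf hr1 hr1' hr0).q = qvC S Rc Cm M ne nf q0 q1 r1 ∧
      (R.viewC Rc Cm hR hC hAL hAf hr1 hr1' hr0).J = ne + nf ∧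
      (R.viewC Rc Cm hR hC hAL hAf hr1 hr1' hr0).hb = hv S M nf ∧
      (R.viewC Rc Cm hR hC hAL hAf hr1 hr1' hr0).eta = S.eta ∧
      (R.viewC Rc Cm hR hC hAL hAf hr1 hr1' hr0).a6 = Fintype.card L * S.toGRD.top ∧
      (R.viewC Rc Cm hR hC hAL hAf hr1 hr1' hr0).rmin = rmin ∧
      (R.viewC Rc Cm hR hC hAL hAf hr1 hr1' hr0).cb = cT + 1 :=
  ⟨rfl, rfl, rfl, rfl, rfl, rfl, rfl⟩

/-- **NUMBER OF VALUES of the published labels of the view** -/
theorem viewC_nv (Rc Cm : ℕ) (hR : 0 < Rc) (hC : 0 < Cm) (hAL : ∀ l t, Fac (AL l t) (S.toGRD.AQ (S.S l) t))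
    (hAf : ∀ l, Filt (AL l)) {r1 rmin : ℝ} (hr1 : 0 < r1) (hr1' : r1 ≤ 1 / 2) (hr0 : 2 * S.eta + r1 ≤ rmin)
    (l : L) (t : ℕ) (w : Om) :
    (GMM.nv S.P ((R.viewC Rc Cm hR hC hAL hAf hr1 hr1' hr0).pl l t) (S.toGRD.ZJ (S.S l) t) w : ℝ) ≤
      Real.exp (hnv O Rc Cm M) := by
  have h1 := LHc_nv_exp (S := S.numd ix M) (Rc := Rc) (Cm := Cm) R.hypN.hyp l t w
  have h2 : (Fintype.card (O → Fin (M + 1)) : ℝ) = ((M : ℝ) + 1) ^ Fintype.card O := by
    rw [Fintype.card_fun, Fintype.card_fin]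
    push_cast
    rfl
  rw [h2] at h1
  exact h1

end GRT.RawR

/-! ## view with a bound for the number of values -/

/-- a view and a bound for the logarithm of the number of values of the published labels at the nodes -/
structure GVn {Om : Type} [Fintype Om] (P : FP Om) (N : ℕ) {κ : ℕ → Type} (Z : ∀ t, Om → κ t) (D : ℕ → Om → ℝ)
    {L : Type} {ζ ζ' : L → ℕ → Type} (AL : ∀ l t, Om → ζ l t) (ZL : ∀ l t, Om → ζ' l t) (T : ℕ → Om → ℝ)
    (che zr : ℕ → Om → Prop) extends GV P N Z D AL ZL T che zr where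
  nvb : ℝ
  nvle : ∀ l t w, (GMM.nv P (pl l t) (ZL l t) w : ℝ) ≤ Real.exp nvb

namespace GRT.RawR

variable {Om : Type} [Fintype Om] {κ : ℕ → Type} {α β ι L O E F' : Type} [Fintype ι] [DecidableEq ι] [Fintype O]
  [Inhabited O] {S : GRT Om κ α β ι L (O → F') E F'} {ix : ℕ → Om → O} {D : ℕ → Om → ℝ}
  {dK : E × (L → F') → ℕ → Om → ℝ} {che zr : ℕ → Om → Prop} {N M : ℕ} {cT ne nf q0 q1 : ℝ}
  (R : S.RawR ix D dK che zr N M cT ne nf q0 q1) [Fintype L] [DecidableEq L] [DecidableEq O] {ζ : L → ℕ → Type}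
  {AL : ∀ l t, Om → ζ l t}

include R

/-- **THE VIEW WITH CAPPED LETTERS**, with the number of values -/
noncomputable def viewCn (Rc Cm : ℕ) (hR : 0 < Rc) (hC : 0 < Cm)
    (hAL : ∀ l t, Fac (AL l t) (S.toGRD.AQ (S.S l) t)) (hAf : ∀ l, Filt (AL l)) {r1 rmin : ℝ}
    (hr1 : 0 < r1) (hr1' : r1 ≤ 1 / 2) (hr0 : 2 * S.eta + r1 ≤ rmin) :
    GVn S.P N S.toGRD.Z D AL (fun l => S.toGRD.ZJ (S.S l)) S.T che zr where
  toGV := R.viewC Rc Cm hR hC hAL hAf hr1 hr1' hr0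
  nvb := hnv O Rc Cm M
  nvle := R.viewC_nv Rc Cm hR hC hAL hAf hr1 hr1' hr0

theorem viewCn_q (Rc Cm : ℕ) (hR : 0 < Rc) (hC : 0 < Cm) (hAL : ∀ l t, Fac (AL l t) (S.toGRD.AQ (S.S l) t))
    (hAf : ∀ l, Filt (AL l)) {r1 rmin : ℝ} (hr1 : 0 < r1) (hr1' : r1 ≤ 1 / 2) (hr0 : 2 * S.eta + r1 ≤ rmin) :
    (R.viewCn Rc Cm hR hC hAL hAf hr1 hr1' hr0).q = qvC S Rc Cm M ne nf q0 q1 r1 ∧
      (R.viewCn Rc Cm hR hC hAL hAf hr1 hr1' hr0).J = ne + nf ∧
      (R.viewCn Rc Cm hR hC hAL hAf hr1 hr1' hr0).hb = hv S M nf ∧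
      (R.viewCn Rc Cm hR hC hAL hAf hr1 hr1' hr0).eta = S.eta ∧
      (R.viewCn Rc Cm hR hC hAL hAf hr1 hr1' hr0).a6 = Fintype.card L * S.toGRD.top ∧
      (R.viewCn Rc Cm hR hC hAL hAf hr1 hr1' hr0).rmin = rmin ∧
      (R.viewCn Rc Cm hR hC hAL hAf hr1 hr1' hr0).cb = cT + 1 ∧
      (R.viewCn Rc Cm hR hC hAL hAf hr1 hr1' hr0).nvb = hnv O Rc Cm M :=
  ⟨rfl, rfl, rfl, rfl, rfl, rfl, rfl, rfl⟩

end GRT.RawR

/-! ## the model -/

section model

open Pool.Agent.M3.Bin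
open Pool.Agent.M3.Mod (ex)

variable {k N : ℕ} {ι Θ P : Type} [Fintype ι] [DecidableEq ι] {L O E F' : Type} [Fintype Θ] [Nonempty Θ] [Fintype P]
  [Nonempty P] [Fintype L] [DecidableEq L] [Fintype O] [DecidableEq O] [Inhabited O] {i : ι} {h : ℕ}
  {Sf : L → Finset {j : ι // j ≠ i}} {f : L → ℕ → Sq k N ι Θ P → O → F'} {al : ℕ → ℝ} {e : ℕ → Sq k N ι Θ P → E}
  {fp : L → ℕ → Sq k N ι Θ P → F'} {K : E × (L → F') → ℕ → Sq k N ι Θ P → ℝ} {T : ℕ → Sq k N ι Θ P → ℝ}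
  {D0 : ℕ → Sq k N ι Θ P → Prop} {Lam eta : ℝ} {ix : ℕ → Sq k N ι Θ P → O}
  {dK : E × (L → F') → ℕ → Sq k N ι Θ P → ℝ} {che zr : ℕ → Sq k N ι Θ P → Prop} {M : ℕ} {cT ne nf q0 q1 : ℝ}

/-- **the view with capped letters from the raw process** -/
noncomputable def mvOfC
    (R : (mdlT i h Sf f al e fp K T D0 Lam eta).RawR ix (fun t => Dg (ex N (t + 1))) dK che zr N M cT ne nf q0 q1)
    (Rc Cm : ℕ) (hR : 0 < Rc) (hC : 0 < Cm) {r1 rmin : ℝ} (hr1 : 0 < r1) (hr1' : r1 ≤ 1 / 2)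
    (hr0 : 2 * eta + r1 ≤ rmin) : MV k N ι Θ P i h Sf T che zr :=
  R.viewC (AL := fun l t => AJ i h (Sf l) (ex N t)) Rc Cm hR hC (fun _ _ => Fac.refl _) (fun l => filt_AJ i h (Sf l))
    hr1 hr1' hr0

/-- **number of values in the model** -/
theorem mvOfC_nv
    (R : (mdlT i h Sf f al e fp K T D0 Lam eta).RawR ix (fun t => Dg (ex N (t + 1))) dK che zr N M cT ne nf q0 q1)
    (Rc Cm : ℕ) (hR : 0 < Rc) (hC : 0 < Cm) {r1 rmin : ℝ} (hr1 : 0 < r1) (hr1' : r1 ≤ 1 / 2)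
    (hr0 : 2 * eta + r1 ≤ rmin) (l : L) (t : ℕ) (w : Sq k N ι Θ P) :
    (GMM.nv Pm ((mvOfC R Rc Cm hR hC hr1 hr1' hr0).pl l t) (KJ i h (Sf l) (ex N t)) w : ℝ) ≤
      Real.exp (GRT.RawR.hnv O Rc Cm M) :=
  R.viewC_nv (AL := fun l t => AJ i h (Sf l) (ex N t)) Rc Cm hR hC (fun _ _ => Fac.refl _) (fun l => filt_AJ i h (Sf l))
    hr1 hr1' hr0 l t w

/-- the view in the model, with the number of values -/
abbrev MVn {L : Type} (k N : ℕ) (ι Θ P : Type) [Fintype ι] [DecidableEq ι] [Fintype Θ] [Nonempty Θ] [Fintype P]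
    [Nonempty P] (i : ι) (h : ℕ) (S : L → Finset {j : ι // j ≠ i}) (T : ℕ → Sq k N ι Θ P → ℝ)
    (che zr : ℕ → Sq k N ι Θ P → Prop) :=
  GVn (Pm (k := k) (N := N) (ι := ι) (Θ := Θ) (P := P)) N (fun t ω => (ot i ω, Qn i h (ex N t) ω))
    (fun t => Dg (ex N (t + 1))) (fun l t => AJ i h (S l) (ex N t)) (fun l t => KJ i h (S l) (ex N t)) T che zr

/-- **the view with capped letters from the raw process, with the number of values** -/
noncomputable def mvOfCn
    (R : (mdlT i h Sf f al e fp K T D0 Lam eta).RawR ix (fun t => Dg (ex N (t + 1))) dK che zr N M cT ne nf q0 q1)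
    (Rc Cm : ℕ) (hR : 0 < Rc) (hC : 0 < Cm) {r1 rmin : ℝ} (hr1 : 0 < r1) (hr1' : r1 ≤ 1 / 2)
    (hr0 : 2 * eta + r1 ≤ rmin) : MVn k N ι Θ P i h Sf T che zr :=
  R.viewCn (AL := fun l t => AJ i h (Sf l) (ex N t)) Rc Cm hR hC (fun _ _ => Fac.refl _)
    (fun l => filt_AJ i h (Sf l)) hr1 hr1' hr0

end model

end Pool.Agent.GM
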