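import Pool.Agent.GM.NVBinDef
import Pool.Agent.GM.PubCap

/-!
# GM/CMView (helper50): the natural view of the cold sets with numbers (row A10c)

From the output of the names (`NamAt`, errors `e`, accuracy `r`, sizes `s`) of a view `a` whose known face is frozen (one
change, from zero) to the view with capped letters `MVn` (GM/PubCap) with all sizes:
* `cn_once` : a face which changes only from zero changes at most once;
* `nums_view` : the inequalities, `B` natural with `s, 1/e, 1/r ≤ B`, all budgets `≤ B ^ p`, thresholds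
  `al s = exp (-(2 ^ (K-1-s) B ^ (p-m)))`, caps `Rc`, `Cm`;
* **`cm_view`** : for all `K`, `C` there is `p0` such that for all `p ≥ p0` there is a view `V` with `V.nvb, V.hb, V.J ≤ B ^ p`,
  `V.a6 ≤ (B ^ p) ^ (-C)`, `V.q ≤ (K + 5) e`, `V.eta ≤ r`, `V.rmin = 3 r`, `V.cb = 2`, labels `u ≠ a` with `S u = univ.erase u`.
-/

set_option autoImplicit false
set_option linter.unusedSectionVars false

namespace Pool.Agent.GM

open Finset Pool.Agent.PWZ Pool.Agent.M3 Pool.Agent.M3.TS Pool.Agent.M3.Bin Pool.Agent.GM.KVer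


noncomputable section

/-! ## one change -/

section once

variable {ι Om Ξ Pt V Γ κ : Type} [Fintype ι] [DecidableEq ι] [Fintype Om] [Fintype Ξ] [Fintype Pt]
  [Fintype V] {S : Sys ι Om Ξ Pt V Γ κ}

open Classical in
/-- a face which changes only from zero changes at most once -/
theorem cn_once {F : Mov Ξ ι Pt Γ (V → ℝ)} {w : Om}
    (h : ∀ t, S.at' F (t + 1) w = S.at' F t w ∨ S.at' F t w = 0) (t : ℕ) :
    Nz.cn (fun s => S.at' F (s + 1) w ≠ S.at' F s w) t ≤ 1 := by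
  have key : Nz.cn (fun s => S.at' F (s + 1) w ≠ S.at' F s w) t ≤ if S.at' F t w = 0 then 0 else 1 := by
    induction t with
    | zero =>
      rw [Nz.cn_zero]
      exact Nat.zero_le _
    | succ t ih =>
      by_cases h1 : S.at' F (t + 1) w ≠ S.at' F t w
      · rcases h t with h2 | h2
        · exact absurd h2 h1
        · rw [Nz.cn_succ_of h1]
          rw [if_pos h2] at ih
          rw [if_neg (by rw [← h2]; exact h1)]
          omega
      · rw [Nz.cn_succ_not h1]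
        rw [not_not.1 h1]
        exact ih
  refine key.trans ?_
  split_ifs <;> omega

end once

/-! ## numbers -/

section nums

/-- `2 ^ m B ≤ B ^ (m + 1)`, natural numbers -/
theorem two_pow_mul_le {B : ℝ} (hB : 2 ≤ B) (m : ℕ) : 2 ^ m * B ≤ B ^ (m + 1) := by
  rw [pow_succ]
  exact mul_le_mul_of_nonneg_right (pow_le_pow_left₀ (by norm_num) hB m) (by linarith)

/-- the constant lost -/
def mV (K : ℕ) : ℕ := 3 * K + 8

/-- the exponent is large enough -/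
theorem exists_p0 (K C : ℕ) : ∃ p0 : ℕ, ∀ p ≥ p0, mV K + 1 ≤ p ∧ K + p * C + 7 * K + 20 ≤ 2 ^ (p - mV K - 1) := by
  refine ⟨2 * mV K + 2 + 4 * (K + C * (mV K + 1) + 7 * K + 20) + 4 * C + 8, fun p hp => ?_⟩
  refine ⟨by omega, ?_⟩
  obtain ⟨q, hq⟩ : ∃ q, p = q + (mV K + 1) := ⟨p - (mV K + 1), by omega⟩
  have e1 : p - mV K - 1 = q := by omega
  rw [e1]
  set D := K + C * (mV K + 1) + 7 * K + 20 with hD
  have h1 : K + p * C + 7 * K + 20 = D + q * C := by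
    rw [hq, hD]
    ring
  rw [h1]
  have h2 : 4 * D + 4 * C + 8 ≤ q := by omega
  have h3 : q ^ 2 ≤ 4 * 2 ^ q := by
    have h4 : (q / 2 + 1) ≤ 2 ^ (q / 2) := Nat.lt_two_pow_self
    have h5 : q ≤ 2 * 2 ^ (q / 2) := by omega
    calc q ^ 2 ≤ (2 * 2 ^ (q / 2)) ^ 2 := Nat.pow_le_pow_left h5 2
      _ = 4 * 2 ^ (2 * (q / 2)) := by
        rw [mul_pow, ← pow_mul, mul_comm (q / 2) 2]
        norm_num
      _ ≤ 4 * 2 ^ q := Nat.mul_le_mul_left 4 (Nat.pow_le_pow_right (by norm_num) (by omega))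
  have h6 : 4 * (D + q * C) ≤ q ^ 2 := by
    calc 4 * (D + q * C) = 4 * D + q * (4 * C) := by ring
      _ ≤ q * 1 + q * (4 * C) := by omega
      _ ≤ q * (4 * C + 8) := by nlinarith
      _ ≤ q * q := Nat.mul_le_mul_left q (by omega)
      _ = q ^ 2 := by ring
  omega

variable {B Y : ℝ} {K C p : ℕ}

/-- what is known of `Y = B ^ (p - m)` -/
theorem Y_ge (hB : 2 ≤ B) (h1 : mV K + 1 ≤ p) (h2 : K + p * C + 7 * K + 20 ≤ 2 ^ (p - mV K - 1))
    (hY : Y = B ^ (p - mV K)) : ((K : ℝ) + p * C + 7 * K + 20) * B ≤ Y := by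
  have e1 : p - mV K = (p - mV K - 1) + 1 := by omega
  rw [hY, e1]
  refine le_trans ?_ (two_pow_mul_le hB _)
  refine mul_le_mul_of_nonneg_right ?_ (by linarith)
  exact_mod_cast h2

/-- mass of the points which are not up to date -/
theorem a6_le (hB : 2 ≤ B) (hY : ((K : ℝ) + p * C + 7 * K + 20) * B ≤ Y) :
    (K : ℝ) * Real.exp (-Y) ≤ (B ^ p) ^ (-(C : ℤ)) := by
  have hB0 : 0 < B := by linarith
  have h1 : (K : ℝ) ≤ Real.exp K := by
    have := Real.add_one_le_exp (K : ℝ)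
    linarith
  have h2 : B ≤ Real.exp B := by
    have := Real.add_one_le_exp B
    linarith
  have h3 : (B ^ p) ^ (-(C : ℤ)) = (B ^ (p * C))⁻¹ := by
    rw [zpow_neg, zpow_natCast, ← pow_mul]
  rw [h3, ← one_div, le_div_iff₀ (by positivity)]
  have h4 : B ^ (p * C) ≤ Real.exp ((p * C : ℕ) * B) := by
    rw [Real.exp_nat_mul]
    exact pow_le_pow_left₀ hB0.le h2 _
  calc (K : ℝ) * Real.exp (-Y) * B ^ (p * C) ≤ Real.exp K * Real.exp (-Y) * Real.exp ((p * C : ℕ) * B) :=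
        mul_le_mul (mul_le_mul_of_nonneg_right h1 (Real.exp_pos _).le) h4 (by positivity) (by positivity)
    _ = Real.exp (K + -Y + (p * C : ℕ) * B) := by rw [Real.exp_add, Real.exp_add]
    _ ≤ Real.exp 0 := by
        refine Real.exp_le_exp.2 ?_
        push_cast
        have hK : (0 : ℝ) ≤ K := Nat.cast_nonneg K
        nlinarith
    _ = 1 := Real.exp_zero

theorem nat_le_exp (K : ℕ) : (K : ℝ) ≤ Real.exp K := by
  have := Real.add_one_le_exp (K : ℝ)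
  linarith

theorem real_le_exp (x : ℝ) : x ≤ Real.exp x := by
  have := Real.add_one_le_exp x
  linarith

theorem two_pow_le_exp (K : ℕ) : (2 : ℝ) ^ K ≤ Real.exp K := by
  have h1 : (2 : ℝ) ≤ Real.exp 1 := by
    have := Real.add_one_le_exp (1 : ℝ)
    linarith
  calc (2 : ℝ) ^ K ≤ (Real.exp 1) ^ K := pow_le_pow_left₀ (by norm_num) h1 K
    _ = Real.exp K := by rw [← Real.exp_nat_mul, mul_one]

/-- number of values with the bits and the empty value -/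
theorem M1_le {s B : ℝ} {M : ℕ} (hM : (M : ℝ) ≤ Real.exp s) (hs0 : 0 ≤ s) (hs : s ≤ B) :
    ((2 * M + 2 : ℕ) : ℝ) + 1 ≤ Real.exp (B + 4) := by
  have h1 : (1 : ℝ) ≤ Real.exp s := Real.one_le_exp hs0
  have h2 : Real.exp s ≤ Real.exp B := Real.exp_le_exp.2 hs
  have h3 : (5 : ℝ) ≤ Real.exp 4 := by
    have := Real.add_one_le_exp (4 : ℝ)
    linarith
  push_cast
  calc 2 * (M : ℝ) + 2 + 1 ≤ 5 * Real.exp B := by linarith
    _ ≤ Real.exp 4 * Real.exp B := mul_le_mul_of_nonneg_right h3 (Real.exp_pos _).le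
    _ = Real.exp (B + 4) := by rw [← Real.exp_add, add_comm]

/-- the errors of the recording -/
theorem rec_le {e r nf Lam s : ℝ} {M : ℕ} (hB : 2 ≤ B) (hY : ((K : ℝ) + p * C + 7 * K + 20) * B ≤ Y) (he : 0 < e)
    (he1 : 1 / e ≤ B) (hr : 0 < r) (hr1 : 1 / r ≤ B) (hnf0 : 0 ≤ nf) (hnf : nf ≤ 5 * B) (hL0 : 0 ≤ Lam)
    (hL : Lam ≤ Real.exp B) (hM : (M : ℝ) ≤ Real.exp s) (hs0 : 0 ≤ s) (hs : s ≤ B) :
    (K : ℝ) * Real.exp (-Y) * (1 + 2 ^ K * (K * nf) + 3 * ((((2 * M + 2 : ℕ) : ℝ) + 1) ^ (K + 1) * (Lam / r))) ≤ e := by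
  have hB0 : 0 < B := by linarith
  have hK0 : (0 : ℝ) ≤ K := Nat.cast_nonneg K
  have hpC : (0 : ℝ) ≤ p * C := by positivity
  set G : ℝ := Real.exp ((B + 4) * (K + 1) + 2 * B + 2 * K + 3) with hG
  have a1 : 1 ≤ G := Real.one_le_exp (by positivity)
  have a2 : 2 ^ K * (K * nf) ≤ G := by
    calc 2 ^ K * (K * nf) ≤ Real.exp K * (Real.exp K * (5 * B)) := by
          refine mul_le_mul (two_pow_le_exp K) (mul_le_mul (nat_le_exp K) hnf hnf0 (Real.exp_pos _).le) (by positivity)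
            (Real.exp_pos _).le
      _ ≤ Real.exp K * (Real.exp K * (Real.exp 4 * Real.exp B)) := by
          have h5 : (5 : ℝ) ≤ Real.exp 4 := by
            have := Real.add_one_le_exp (4 : ℝ)
            linarith
          have h6 : 5 * B ≤ Real.exp 4 * Real.exp B := mul_le_mul h5 (real_le_exp B) hB0.le (Real.exp_pos _).le
          exact mul_le_mul_of_nonneg_left (mul_le_mul_of_nonneg_left h6 (Real.exp_pos _).le) (Real.exp_pos _).le
      _ = Real.exp (K + (K + (4 + B))) := by rw [Real.exp_add, Real.exp_add, Real.exp_add]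
      _ ≤ G := Real.exp_le_exp.2 (by nlinarith)
  have a3 : (((2 * M + 2 : ℕ) : ℝ) + 1) ^ (K + 1) * (Lam / r) ≤ G := by
    have h1 : (((2 * M + 2 : ℕ) : ℝ) + 1) ^ (K + 1) ≤ Real.exp ((B + 4) * (K + 1)) := by
      calc (((2 * M + 2 : ℕ) : ℝ) + 1) ^ (K + 1) ≤ Real.exp (B + 4) ^ (K + 1) :=
            pow_le_pow_left₀ (by positivity) (M1_le hM hs0 hs) _
        _ = Real.exp ((B + 4) * (K + 1)) := by
            rw [← Real.exp_nat_mul]
            congr 1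
            push_cast
            ring
    have h2 : Lam / r ≤ Real.exp B * Real.exp B := by
      rw [div_eq_mul_one_div]
      exact mul_le_mul hL (hr1.trans (real_le_exp B)) (by positivity) (Real.exp_pos _).le
    calc (((2 * M + 2 : ℕ) : ℝ) + 1) ^ (K + 1) * (Lam / r) ≤ Real.exp ((B + 4) * (K + 1)) * (Real.exp B * Real.exp B) :=
          mul_le_mul h1 h2 (by positivity) (Real.exp_pos _).le
      _ = Real.exp ((B + 4) * (K + 1) + (B + B)) := by rw [Real.exp_add, Real.exp_add]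
      _ ≤ G := Real.exp_le_exp.2 (by nlinarith)
  have a4 : 1 + 2 ^ K * (K * nf) + 3 * ((((2 * M + 2 : ℕ) : ℝ) + 1) ^ (K + 1) * (Lam / r)) ≤ Real.exp 4 * G := by
    have h5 : (5 : ℝ) ≤ Real.exp 4 := by
      have := Real.add_one_le_exp (4 : ℝ)
      linarith
    have h6 : 5 * G ≤ Real.exp 4 * G := mul_le_mul_of_nonneg_right h5 (by linarith)
    linarith
  have a5 : 1 ≤ e * Real.exp B := by
    rw [div_le_iff₀ he] at he1
    have h7 := mul_le_mul_of_nonneg_right (real_le_exp B) he.le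
    linarith
  calc (K : ℝ) * Real.exp (-Y) * (1 + 2 ^ K * (K * nf) + 3 * ((((2 * M + 2 : ℕ) : ℝ) + 1) ^ (K + 1) * (Lam / r)))
      ≤ Real.exp K * Real.exp (-Y) * (Real.exp 4 * G) :=
        mul_le_mul (mul_le_mul_of_nonneg_right (nat_le_exp K) (Real.exp_pos _).le) a4 (by positivity) (by positivity)
    _ = Real.exp (K + -Y + (4 + ((B + 4) * (K + 1) + 2 * B + 2 * K + 3))) := by
        rw [hG, ← Real.exp_add, ← Real.exp_add, ← Real.exp_add]
    _ ≤ Real.exp (-B) := by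
        refine Real.exp_le_exp.2 ?_
        nlinarith
    _ ≤ e := by
        rw [Real.exp_neg, ← one_div, div_le_iff₀ (Real.exp_pos _)]
        exact a5

/-- `2 ^ (K-1) Y` and smaller terms -/
theorem sumY_le (hB : 2 ≤ B) (hK : 1 ≤ K) (hY : ((K : ℝ) + p * C + 7 * K + 20) * B ≤ Y) {x : ℝ}
    (hx : x ≤ 4 * B + 3 * K + 16) : 2 ^ (K - 1) * Y + x ≤ B ^ K * Y := by
  have hK0 : (0 : ℝ) ≤ K := Nat.cast_nonneg K
  have hpC : (0 : ℝ) ≤ p * C := by positivity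
  have h1 : x ≤ Y := by nlinarith
  have hY0 : 0 ≤ Y := by nlinarith
  have e1 : K = (K - 1) + 1 := by omega
  have h2 : (2 : ℝ) ^ (K - 1) + 1 ≤ B ^ K := by
    have h3 : (1 : ℝ) ≤ 2 ^ (K - 1) := one_le_pow₀ (by norm_num)
    calc (2 : ℝ) ^ (K - 1) + 1 ≤ 2 ^ (K - 1) * 2 := by linarith
      _ = 2 ^ K := by rw [← pow_succ, ← e1]
      _ ≤ B ^ K := pow_le_pow_left₀ (by norm_num) hB K
  calc 2 ^ (K - 1) * Y + x ≤ (2 ^ (K - 1) + 1) * Y := by linarith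
    _ ≤ B ^ K * Y := mul_le_mul_of_nonneg_right h2 hY0

theorem K_le_pow (hB : 2 ≤ B) : (K : ℝ) ≤ B ^ K := by
  have h1 : K ≤ 2 ^ K := Nat.lt_two_pow_self.le
  calc (K : ℝ) ≤ ((2 ^ K : ℕ) : ℝ) := by exact_mod_cast h1
    _ = (2 : ℝ) ^ K := by push_cast; rfl
    _ ≤ B ^ K := pow_le_pow_left₀ (by norm_num) hB K

/-- bound of the alphabet of the published letters -/
theorem nvb_le (hB : 2 ≤ B) (hK : 1 ≤ K) (hp : mV K + 1 ≤ p) (hY : ((K : ℝ) + p * C + 7 * K + 20) * B ≤ Y)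
    (hY' : Y = B ^ (p - mV K)) {s : ℝ} {M Rc Cm : ℕ} (hM : (M : ℝ) ≤ Real.exp s) (hs0 : 0 ≤ s) (hs : s ≤ B)
    (hRc : (Rc : ℝ) = 5 * K * B ^ 2) (hCm : (Cm : ℝ) ≤ Real.exp (2 ^ (K - 1) * Y + (2 * B + 3 * K + 5)) + 1) :
    (K : ℝ) * (((Rc : ℝ) + 1) * (Real.log ((Cm : ℝ) + 1) + Real.log ((((2 * M + 2 : ℕ) : ℝ) + 1) ^ 2 + 1))) ≤ B ^ p := by
  have hB0 : 0 < B := by linarith
  have hK0 : (1 : ℝ) ≤ K := by exact_mod_cast hK
  have hpC : (0 : ℝ) ≤ p * C := by positivity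
  have hY0 : 0 ≤ Y := by nlinarith
  have h3 : (3 : ℝ) ≤ Real.exp 2 := by
    have := Real.add_one_le_exp (2 : ℝ)
    linarith
  have h2 : (2 : ℝ) ≤ Real.exp 1 := by
    have := Real.add_one_le_exp (1 : ℝ)
    linarith
  have a1 : Real.log ((Cm : ℝ) + 1) ≤ 2 ^ (K - 1) * Y + (2 * B + 3 * K + 5) + 2 := by
    rw [Real.log_le_iff_le_exp (by positivity), Real.exp_add _ 2]
    set y := 2 ^ (K - 1) * Y + (2 * B + 3 * K + 5) with hy
    have hy0 : 0 ≤ y := by positivity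
    have h4 := Real.one_le_exp hy0
    have h5 := mul_le_mul_of_nonneg_left h3 (Real.exp_pos y).le
    linarith
  have a2 : Real.log ((((2 * M + 2 : ℕ) : ℝ) + 1) ^ 2 + 1) ≤ 2 * B + 9 := by
    rw [Real.log_le_iff_le_exp (by positivity)]
    have h4 : (((2 * M + 2 : ℕ) : ℝ) + 1) ^ 2 ≤ Real.exp (2 * B + 8) := by
      calc (((2 * M + 2 : ℕ) : ℝ) + 1) ^ 2 ≤ Real.exp (B + 4) ^ 2 := pow_le_pow_left₀ (by positivity) (M1_le hM hs0 hs) 2
        _ = Real.exp (2 * B + 8) := by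
            rw [← Real.exp_nat_mul]
            congr 1
            push_cast
            ring
    have h5 : 1 ≤ Real.exp (2 * B + 8) := Real.one_le_exp (by linarith)
    have h6 : Real.exp (2 * B + 9) = Real.exp (2 * B + 8) * Real.exp 1 := by
      rw [← Real.exp_add]
      congr 1
      ring
    rw [h6]
    have h7 := mul_le_mul_of_nonneg_left h2 (Real.exp_pos (2 * B + 8)).le
    linarith
  have a3 : Real.log ((Cm : ℝ) + 1) + Real.log ((((2 * M + 2 : ℕ) : ℝ) + 1) ^ 2 + 1) ≤ B ^ K * Y := by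
    have := sumY_le (x := 2 * B + 3 * K + 5 + 2 + (2 * B + 9)) hB hK hY (by linarith)
    linarith
  have a4 : (Rc : ℝ) + 1 ≤ B ^ (K + 5) := by
    rw [hRc]
    have h5 : (6 : ℝ) ≤ B ^ 3 := by
      calc (6 : ℝ) ≤ 2 ^ 3 := by norm_num
        _ ≤ B ^ 3 := pow_le_pow_left₀ (by norm_num) hB 3
    have h6 : 5 * (K : ℝ) * B ^ 2 + 1 ≤ 6 * (K * B ^ 2) := by nlinarith [mul_pos (by linarith : (0:ℝ) < K) (pow_pos hB0 2)]
    calc 5 * (K : ℝ) * B ^ 2 + 1 ≤ 6 * (K * B ^ 2) := h6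
      _ ≤ B ^ 3 * (B ^ K * B ^ 2) := mul_le_mul h5 (mul_le_mul_of_nonneg_right (K_le_pow hB) (by positivity))
          (by positivity) (by positivity)
      _ = B ^ (K + 5) := by rw [← pow_add, ← pow_add]; congr 1; ring
  have a5 : 0 ≤ Real.log ((Cm : ℝ) + 1) + Real.log ((((2 * M + 2 : ℕ) : ℝ) + 1) ^ 2 + 1) := by
    refine add_nonneg (Real.log_nonneg ?_) (Real.log_nonneg ?_)
    · have : (0 : ℝ) ≤ Cm := Nat.cast_nonneg _
      linarith
    · have : (0 : ℝ) ≤ (((2 * M + 2 : ℕ) : ℝ) + 1) ^ 2 := by positivity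
      linarith
  calc (K : ℝ) * (((Rc : ℝ) + 1) * (Real.log ((Cm : ℝ) + 1) + Real.log ((((2 * M + 2 : ℕ) : ℝ) + 1) ^ 2 + 1)))
      ≤ B ^ K * (B ^ (K + 5) * (B ^ K * Y)) :=
        mul_le_mul (K_le_pow hB) (mul_le_mul a4 a3 a5 (by positivity)) (by positivity) (by positivity)
    _ = B ^ (3 * K + 5) * B ^ (p - mV K) := by
        rw [hY', ← pow_add, ← pow_add, ← pow_add, ← pow_add]
        congr 1
        ring
    _ ≤ B ^ p := by
        rw [← pow_add]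
        refine pow_le_pow_right₀ (by linarith) ?_
        unfold mV at hp ⊢
        omega

/-- bound of the created entropy -/
theorem hb_le (hB : 2 ≤ B) (hK : 1 ≤ K) (hp : mV K + 1 ≤ p) (hY : ((K : ℝ) + p * C + 7 * K + 20) * B ≤ Y)
    (hY' : Y = B ^ (p - mV K)) {s nf : ℝ} {M : ℕ} (hM : (M : ℝ) ≤ Real.exp s) (hs0 : 0 ≤ s) (hs : s ≤ B)
    (hnf0 : 0 ≤ nf) (hnf : nf ≤ 5 * B) :
    (K : ℝ) * (2 * ((1 + nf) * (1 + Real.log (4 / Real.exp (-(2 ^ (K - 1) * Y))) + 2 *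
      Real.log (((2 * M + 2 : ℕ) : ℝ) + 1)) + 2 ^ K * (K * nf) / 4)) ≤ B ^ p := by
  have hB0 : 0 < B := by linarith
  have hK0 : (1 : ℝ) ≤ K := by exact_mod_cast hK
  have hpC : (0 : ℝ) ≤ p * C := by positivity
  have hY0 : 0 ≤ Y := by nlinarith
  have a1 : Real.log (4 / Real.exp (-(2 ^ (K - 1) * Y))) ≤ 3 + 2 ^ (K - 1) * Y := by
    rw [Real.log_div (by norm_num) (Real.exp_pos _).ne', Real.log_exp, sub_neg_eq_add]
    have : Real.log 4 ≤ 4 - 1 := Real.log_le_sub_one_of_pos (by norm_num)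
    linarith
  have a1' : 0 ≤ Real.log (4 / Real.exp (-(2 ^ (K - 1) * Y))) := by
    rw [Real.log_div (by norm_num) (Real.exp_pos _).ne', Real.log_exp, sub_neg_eq_add]
    have : 0 ≤ Real.log 4 := Real.log_nonneg (by norm_num)
    have : (0 : ℝ) ≤ 2 ^ (K - 1) * Y := by positivity
    linarith
  have a2 : Real.log (((2 * M + 2 : ℕ) : ℝ) + 1) ≤ B + 4 := by
    rw [Real.log_le_iff_le_exp (by positivity)]
    exact M1_le hM hs0 hs
  have a2' : 0 ≤ Real.log (((2 * M + 2 : ℕ) : ℝ) + 1) := Real.log_nonneg (by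
    have : (0 : ℝ) ≤ ((2 * M + 2 : ℕ) : ℝ) := Nat.cast_nonneg _
    linarith)
  have a3 : 1 + Real.log (4 / Real.exp (-(2 ^ (K - 1) * Y))) + 2 * Real.log (((2 * M + 2 : ℕ) : ℝ) + 1) ≤ B ^ K * Y := by
    have := sumY_le (x := 1 + 3 + 2 * (B + 4)) hB hK hY (by linarith)
    linarith
  have a4 : 1 + nf ≤ 6 * B := by linarith
  have a5 : 2 ^ K * (K * nf) / 4 ≤ B ^ K * (B * Y) := by
    have h1 : (2 : ℝ) ^ K ≤ B ^ K := pow_le_pow_left₀ (by norm_num) hB K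
    have h2 : (K * nf) / 4 ≤ B * Y := by
      have h3 : (K : ℝ) * nf ≤ K * (5 * B) := mul_le_mul_of_nonneg_left hnf (by linarith)
      have h4 : 2 * K * B ≤ Y := by nlinarith
      have h5 : Y ≤ B * Y := by nlinarith
      nlinarith
    calc 2 ^ K * (K * nf) / 4 = 2 ^ K * ((K * nf) / 4) := by ring
      _ ≤ B ^ K * (B * Y) := mul_le_mul h1 h2 (by positivity) (by positivity)
  have a6 : (1 + nf) * (1 + Real.log (4 / Real.exp (-(2 ^ (K - 1) * Y))) + 2 * Real.log (((2 * M + 2 : ℕ) : ℝ) + 1)) ≤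
      6 * B * (B ^ K * Y) := mul_le_mul a4 a3 (by linarith) (by positivity)
  have a7 : 2 * ((1 + nf) * (1 + Real.log (4 / Real.exp (-(2 ^ (K - 1) * Y))) + 2 *
      Real.log (((2 * M + 2 : ℕ) : ℝ) + 1)) + 2 ^ K * (K * nf) / 4) ≤ B ^ 4 * (B * (B ^ K * Y)) := by
    have h5 : (14 : ℝ) ≤ B ^ 4 := by
      calc (14 : ℝ) ≤ 2 ^ 4 := by norm_num
        _ ≤ B ^ 4 := pow_le_pow_left₀ (by norm_num) hB 4
    have h6 := mul_le_mul_of_nonneg_right h5 (by positivity : 0 ≤ B * (B ^ K * Y))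
    nlinarith
  calc (K : ℝ) * (2 * ((1 + nf) * (1 + Real.log (4 / Real.exp (-(2 ^ (K - 1) * Y))) + 2 *
      Real.log (((2 * M + 2 : ℕ) : ℝ) + 1)) + 2 ^ K * (K * nf) / 4)) ≤ B ^ K * (B ^ 4 * (B * (B ^ K * Y))) :=
        mul_le_mul (K_le_pow hB) a7 (by positivity) (by positivity)
    _ = B ^ (2 * K + 5) * B ^ (p - mV K) := by
        rw [hY', ← pow_add]
        ring
    _ ≤ B ^ p := by
        rw [← pow_add]
        refine pow_le_pow_right₀ (by linarith) ?_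
        unfold mV at hp ⊢
        omega

/-- the caps -/
theorem cap_le {e nf : ℝ} {Rc Cm : ℕ} (hB : 2 ≤ B) (hK : 1 ≤ K) (he : 0 < e) (he1 : 1 / e ≤ B) (hnf0 : 0 ≤ nf)
    (hnf : nf ≤ 5 * B) (hRc : (Rc : ℝ) = 5 * K * B ^ 2)
    (hCm : Real.exp (2 ^ (K - 1) * Y + (2 * B + 3 * K + 5)) ≤ (Cm : ℝ)) :
    (K : ℝ) * (nf / Rc + 2 ^ K * (K * nf) / Real.exp (-(2 ^ (K - 1) * Y)) / Cm) ≤ 2 * e := by
  have hB0 : 0 < B := by linarith
  have hK0 : (1 : ℝ) ≤ K := by exact_mod_cast hK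
  have hBe : 1 / B ≤ e := by
    rw [div_le_iff₀ hB0, mul_comm]
    rwa [div_le_iff₀ he] at he1
  have a1 : (K : ℝ) * (nf / Rc) ≤ e := by
    refine le_trans ?_ hBe
    rw [hRc, mul_div_assoc', div_le_div_iff₀ (by positivity) hB0]
    nlinarith [mul_nonneg (by linarith : (0 : ℝ) ≤ K) hB0.le]
  have a2 : (K : ℝ) * (2 ^ K * (K * nf) / Real.exp (-(2 ^ (K - 1) * Y)) / Cm) ≤ e := by
    have hC0 : (0 : ℝ) < Cm := (Real.exp_pos _).trans_le hCm
    have h5 : (5 : ℝ) ≤ Real.exp 4 := by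
      have := Real.add_one_le_exp (4 : ℝ)
      linarith
    have h1 : (K : ℝ) * (2 ^ K * (K * nf)) * B ≤ Real.exp (2 * B + 3 * K + 5) := by
      have h7 : nf ≤ Real.exp 4 * Real.exp B := hnf.trans (mul_le_mul h5 (real_le_exp B) hB0.le (Real.exp_pos _).le)
      calc (K : ℝ) * (2 ^ K * (K * nf)) * B ≤ Real.exp K * (Real.exp K * (Real.exp K * (Real.exp 4 * Real.exp B))) *
            Real.exp B := by
            refine mul_le_mul ?_ (real_le_exp B) hB0.le (by positivity)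
            refine mul_le_mul (nat_le_exp K) ?_ (by positivity) (Real.exp_pos _).le
            refine mul_le_mul (two_pow_le_exp K) ?_ (by positivity) (Real.exp_pos _).le
            exact mul_le_mul (nat_le_exp K) h7 hnf0 (Real.exp_pos _).le
        _ = Real.exp (K + (K + (K + (4 + B))) + B) := by
            rw [Real.exp_add, Real.exp_add, Real.exp_add, Real.exp_add, Real.exp_add]
        _ ≤ _ := Real.exp_le_exp.2 (by linarith)
    have h2 : Real.exp (2 * B + 3 * K + 5) ≤ Real.exp (-(2 ^ (K - 1) * Y)) * Cm := by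
      calc Real.exp (2 * B + 3 * K + 5) = Real.exp (-(2 ^ (K - 1) * Y)) *
            Real.exp (2 ^ (K - 1) * Y + (2 * B + 3 * K + 5)) := by
            rw [← Real.exp_add]
            congr 1
            ring
        _ ≤ _ := mul_le_mul_of_nonneg_left hCm (Real.exp_pos _).le
    refine le_trans ?_ hBe
    rw [div_div, mul_div_assoc', div_le_div_iff₀ (mul_pos (Real.exp_pos _) hC0) hB0, one_mul]
    exact h1.trans h2
  rw [mul_add]
  linarith

end nums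

/-! ## the view -/

section view

variable {k N : ℕ} {ι Θ Ξ Q : Type} [Fintype ι] [DecidableEq ι] [Fintype Θ] [Nonempty Θ] [Fintype Ξ] [Nonempty Ξ]
  [Fintype Q] [Nonempty Q]

/-- what is needed of the faces of a natural view -/
structure FacesV {Om Pt V' Γ κ : Type} [Fintype Om] [Fintype Pt] [Fintype V'] (S : Sys ι Om Ξ Pt V' Γ κ) (a : ι)
    (F : ι → Mov Ξ ι Pt Γ (V' → ℝ)) : Prop where
  dep : ∀ t g ξ, Dep (univ.erase a) (F a t g ξ)
  coin : ∀ t g ξ ξ', F a t g ξ = F a t g ξ'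
  bd : ∀ i, ∀ t g ξ x d, |F i t g ξ x d| ≤ 1
  once : ∀ t ω, S.at' (F a) (t + 1) ω = S.at' (F a) t ω ∨ S.at' (F a) t ω = 0

/-- the process of the view, on the larger space -/
def TV (σ : V k) (hN : N ≤ k) (h : ℕ) (a : ι) (F : ι → Mov Ξ ι (Q × V k) (Θ × (V k × ℕ)) (V k → ℝ)) {Ξ2 : Type} (t : ℕ)
    (w : Sq k N ι Θ ((Ξ × Ξ2) × Q)) : ℝ := pT (binSys Θ Ξ Q σ a hN h) univ F t (p2 w)

/-- changes of the known face, on the larger space -/
def cheV (σ : V k) (hN : N ≤ k) (h : ℕ) (a : ι) (F : ι → Mov Ξ ι (Q × V k) (Θ × (V k × ℕ)) (V k → ℝ)) {Ξ2 : Type}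
    (t : ℕ) (w : Sq k N ι Θ ((Ξ × Ξ2) × Q)) : Prop := cheN (binSys Θ Ξ Q σ a hN h) F a t (p2 w)

/-- zeroes of the known face, on the larger space -/
def zrV (σ : V k) (hN : N ≤ k) (h : ℕ) (a : ι) (F : ι → Mov Ξ ι (Q × V k) (Θ × (V k × ℕ)) (V k → ℝ)) {Ξ2 : Type}
    (t : ℕ) (w : Sq k N ι Θ ((Ξ × Ξ2) × Q)) : Prop := zrN (binSys Θ Ξ Q σ a hN h) F a t (p2 w)

variable {σ : V k} {hN : N ≤ k} {h : ℕ} {a : ι} {F : ι → Mov Ξ ι (Q × V k) (Θ × (V k × ℕ)) (V k → ℝ)} {Ξ2 : Type}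

theorem che_zr (hF : FacesV (binSys Θ Ξ Q σ a hN h) a F) (t : ℕ) (w : Sq k N ι Θ ((Ξ × Ξ2) × Q))
    (hc : cheV σ hN h a F t w) : zrV σ hN h a F t w := (hF.once t (p2 w)).resolve_left hc

theorem TV_le (hF : FacesV (binSys Θ Ξ Q σ a hN h) a F) (t : ℕ) (w : Sq k N ι Θ ((Ξ × Ξ2) × Q)) :
    |TV σ hN h a F t w| ≤ 1 := by
  refine Nam.abs_iw_le _ _ fun d => ?_
  rw [Finset.abs_prod]
  exact Finset.prod_le_one (fun i _ => abs_nonneg _) fun i _ => hF.bd i _ _ _ _ d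

theorem zrV_fac [Fintype Ξ2] [Nonempty Ξ2] (hF : FacesV (binSys Θ Ξ Q σ a hN h) a F) (t : ℕ) :
    Fac (Kn (k := k) (N := N) (Θ := Θ) (P := (Ξ × Ξ2) × Q) a (M3.Mod.ex N t)) (zrV σ hN h a F t) := by
  obtain ⟨ξ0⟩ : Nonempty Ξ := inferInstance
  have h1 := Nam.Kn_fac (k := k) (N := N) (Θ := Θ) (Ξ := Ξ × Ξ2) (Q' := Q) (a := a) (σ := σ) (hN := hN) (h := h)
    (φ := fun t g x => F a t g ξ0 x) (fun t g => hF.dep t g ξ0) t t
  intro v w hv
  have h2 := h1 v w hv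
  have e : ∀ w : Sq k N ι Θ ((Ξ × Ξ2) × Q), zrV σ hN h a F t w =
      (F a t ((binSys Θ (Ξ × Ξ2) Q σ a hN h).gm t w) ξ0 ((binSys Θ (Ξ × Ξ2) Q σ a hN h).x w) = 0) := by
    intro w
    show (F a t _ ((binSys Θ Ξ Q σ a hN h).xi (p2 w)) _ = 0) = _
    rw [hF.coin t _ _ ξ0]
    rfl
  rw [e v, e w]
  simp only at h2
  rw [h2]

/-- thresholds -/
def alV (K : ℕ) (Y : ℝ) (s : ℕ) : ℝ := Real.exp (-(2 ^ (K - 1 - s) * Y))

theorem alV_pos (K : ℕ) (Y : ℝ) (s : ℕ) : 0 < alV K Y s := Real.exp_pos _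

theorem alV_le {K : ℕ} {Y : ℝ} (hY : 0 ≤ Y) (s : ℕ) : alV K Y s ≤ 1 :=
  Real.exp_le_one_iff.2 (neg_nonpos.2 (by positivity))

theorem alV_sq {K : ℕ} {Y : ℝ} {s : ℕ} (hs : s + 1 < K) : alV K Y s ≤ alV K Y (s + 1) ^ 2 := by
  refine le_of_eq ?_
  unfold alV
  rw [← Real.exp_nat_mul]
  congr 1
  have e : K - 1 - s = (K - 1 - (s + 1)) + 1 := by omega
  rw [e, pow_succ]
  push_cast
  ring

theorem alV_top (K : ℕ) (Y : ℝ) : alV K Y (K - 1) = Real.exp (-Y) := by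
  unfold alV
  rw [Nat.sub_self, pow_zero, one_mul]

theorem card_neV (a : ι) {K : ℕ} (h : Fintype.card ι = K + 1) : Fintype.card {j : ι // j ≠ a} = K := by
  rw [Fintype.card_subtype_compl, Fintype.card_subtype_eq, h, Nat.add_sub_cancel]

/-- the recorded process of a natural view -/
theorem cm_raw [Fintype Ξ2] [Nonempty Ξ2] (hF : FacesV (binSys Θ Ξ Q σ a hN h) a F) {K : ℕ}
    (hcard : Fintype.card ι = K + 1) {E Fl : Type} {h' : ℕ}
    {O : Nam.Fst ι (Ξ × Ξ2) (Q × V k) (V k) (Θ × (V k × ℕ)) a E Fl} {c A J q eta e : ℝ} {M : ℕ}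
    {dd : ℕ → Sq k N ι Θ ((Ξ × Ξ2) × Q) → Prop} (hh : h ≤ h') (hcd : Fintype.card ι ≤ 2 ^ (h' - h + 2) + 1)
    (hOk : O.Ok (binSys Θ (Ξ × Ξ2) Q σ a hN h) (Nam.QQ k N Θ (Ξ × Ξ2) Q a h') A J q M dd) (hc : 0 ≤ c)
    (heta : 0 ≤ eta) (heta2 : eta < 1 / 2) (hJ : 0 ≤ J)
    (hee : ∀ t < N, ∀ w, O.e (t + 1) ((binSys Θ (Ξ × Ξ2) Q σ a hN h).gm (t + 1) w)
        ((binSys Θ (Ξ × Ξ2) Q σ a hN h).x w) ≠
      O.e t ((binSys Θ (Ξ × Ξ2) Q σ a hN h).gm t w) ((binSys Θ (Ξ × Ξ2) Q σ a hN h).x w) → cheV σ hN h a F t w)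
    (hval : ∀ t ≤ N, ∀ w, ¬ dd t w → ¬ zrV σ hN h a F t w →
      |TV σ hN h a F t w - c * iw ((binSys Θ (Ξ × Ξ2) Q σ a hN h).J t w)
        (O.Ph (O.tv (binSys Θ (Ξ × Ξ2) Q σ a hN h) t w) t ((binSys Θ (Ξ × Ξ2) Q σ a hN h).gm t w)
          ((binSys Θ (Ξ × Ξ2) Q σ a hN h).x w)) (fun _ => 1)| ≤ eta)
    (hPr : Pm.Pr (dd N) ≤ e) {Y : ℝ} (hY : 0 ≤ Y) :
    (Nam.outG O σ hN h h' c A eta (TV σ hN h a F) (zrV σ hN h a F) dd (alV K Y)).RawR (Nam.oix σ a hN h h')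
      (fun t => Dg (M3.Mod.ex N (t + 1))) (Nam.dKo O σ hN h c) (cheV σ hN h a F) (zrV σ hN h a F) N (2 * M + 2) 1 1
      (4 * J + 1) e (Fintype.card ι * q) := by
  classical
  have hcn : ∀ t (w : Sq k N ι Θ ((Ξ × Ξ2) × Q)), Nz.cn (fun s => cheV σ hN h a F s w) t ≤ 1 := fun t w =>
    cn_once (S := binSys Θ Ξ Q σ a hN h) (w := p2 w) (fun t => hF.once t (p2 w)) t
  refine Nam.outG_raw hOk hh hcd hc heta heta2 (fun t => zrV_fac hF t) (fun t _ w _ hz => zrN_pT hz) hval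
    (fun s => alV_pos K Y s) (fun s => alV_le hY s) (fun s hs => alV_sq (by rwa [card_neV a hcard] at hs))
    (fun t w => TV_le hF t w) hee (fun t w hz => ?_) (Nat.le_add_right _ _) (fun t w => ?_) hPr ?_ hJ
  · by_contra hc'
    refine hz ?_
    have h1 : (binSys Θ Ξ Q σ a hN h).at' (F a) (t + 1) (p2 w) = (binSys Θ Ξ Q σ a hN h).at' (F a) t (p2 w) :=
      not_not.1 hc'
    show ((binSys Θ Ξ Q σ a hN h).at' (F a) (t + 1) (p2 w) = 0) ↔ ((binSys Θ Ξ Q σ a hN h).at' (F a) t (p2 w) = 0)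
    rw [h1]
  · exact (hcn t w).trans_lt (by omega)
  · have h1 : ∑ t ∈ range N, (PM k N ι Θ (Ξ × Ξ2) Q).Pr (cheV σ hN h a F t) =
        (PM k N ι Θ (Ξ × Ξ2) Q).E (fun w => ∑ t ∈ range N, ind (cheV σ hN h a F t w)) := by
      rw [FP.E_sum]
      rfl
    rw [h1]
    refine FP.E_le_const _ fun w _ => ?_
    have h2 : ∑ t ∈ range N, ind (cheV σ hN h a F t w) = (Nz.cn (fun s => cheV σ hN h a F s w) N : ℝ) := by
      unfold Nz.cn
      rw [Finset.card_filter]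
      push_cast
      refine Finset.sum_congr rfl fun t _ => ?_
      unfold ind
      split_ifs <;> simp
    rw [h2]
    exact_mod_cast hcn N w

/-- **THE NATURAL VIEW WITH NUMBERS** -/
theorem cm_view (K C : ℕ) (hK : 1 ≤ K) : ∃ p0 : ℕ, ∀ p ≥ p0, ∀ {k N : ℕ} {ι Θ Ξ Q : Type} [Fintype ι] [DecidableEq ι]
    [Fintype Θ] [Nonempty Θ] [Fintype Ξ] [Nonempty Ξ] [Fintype Q] [Nonempty Q] {σ : V k} {hN : N ≤ k} {h : ℕ} {a δ : ι}
    {F : ι → Mov Ξ ι (Q × V k) (Θ × (V k × ℕ)) (V k → ℝ)} (_ : FacesV (binSys Θ Ξ Q σ a hN h) a F)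
    (_ : Fintype.card ι = K + 1) {e r s : ℝ} {B : ℕ} (_ : 2 ≤ B) (_ : 0 < e) (_ : 1 / e ≤ B) (_ : 0 < r) (_ : r < 1 / 2)
    (_ : 1 / r ≤ B) (_ : 0 ≤ s) (_ : s ≤ B) (_ : NamAt σ hN h a δ F e r s),
    ∃ (Ξ2 : Type) (_ : Fintype Ξ2) (_ : Nonempty Ξ2) (h' : ℕ) (V : MVn k N ι Θ ((Ξ × Ξ2) × Q) a h'
      (fun u : {u : ι // u ≠ a} => univ.erase u) (TV σ hN h a F) (cheV σ hN h a F) (zrV σ hN h a F)),
      h ≤ h' ∧ h' ≤ h + Fintype.card ι ∧ 0 ≤ V.nvb ∧ (K : ℝ) * V.nvb ≤ (B : ℝ) ^ p ∧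
      (K : ℝ) * (2 * V.hb) ≤ (B : ℝ) ^ p ∧ (K : ℝ) * V.J ≤ (B : ℝ) ^ p ∧ V.a6 ≤ ((B : ℝ) ^ p) ^ (-(C : ℤ)) ∧
      V.q ≤ (K + 5) * e ∧ V.eta ≤ r ∧ V.rmin = 3 * r ∧ V.cb = 2 := by
  obtain ⟨p0, hp0⟩ := exists_p0 K C
  refine ⟨p0, fun p hp => ?_⟩
  obtain ⟨hp1, hp2⟩ := hp0 p hp
  intro k N ι Θ Ξ Q _ _ _ _ _ _ _ _ σ hN h a δ F hF hcard e r s B hB he he1 hr hr2 hr1 hs0 hs hNam
  classical
  have hB' : (2 : ℝ) ≤ B := by exact_mod_cast hB
  have hB0 : (0 : ℝ) < B := by linarith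
  have hK' : (1 : ℝ) ≤ K := by exact_mod_cast hK
  obtain ⟨Y, hYd⟩ : ∃ Y : ℝ, Y = (B : ℝ) ^ (p - mV K) := ⟨_, rfl⟩
  have hY := Y_ge (B := (B : ℝ)) (Y := Y) (K := K) (C := C) (p := p) hB' hp1 hp2 hYd
  have hpC : (0 : ℝ) ≤ p * C := by positivity
  have hY0 : 0 ≤ Y := by
    rw [hYd]
    positivity
  obtain ⟨Ξ2, i1, i2, E, Fl, h', O, c, A, J, q, eta, M, dd, hh, hh', hcd, hOk, hc, heta, hJ, -, hee, hval, hPr, hq, her,
    hJs, hM, hAs⟩ := hNam
  have R := cm_raw (Ξ2 := Ξ2) hF hcard hh hcd hOk hc heta (her.trans_lt hr2) hJ hee hval hPr hY0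
  have hnf0 : 0 ≤ 4 * J + 1 := by linarith
  have hnf : 4 * J + 1 ≤ 5 * (B : ℝ) := by linarith
  obtain ⟨Cm, hCm⟩ : ∃ Cm : ℕ, Cm = ⌈Real.exp (2 ^ (K - 1) * Y + (2 * B + 3 * K + 5))⌉₊ := ⟨_, rfl⟩
  have hCm1 : Real.exp (2 ^ (K - 1) * Y + (2 * B + 3 * K + 5)) ≤ (Cm : ℝ) := by
    rw [hCm]
    exact Nat.le_ceil _
  have hCm2 : (Cm : ℝ) ≤ Real.exp (2 ^ (K - 1) * Y + (2 * B + 3 * K + 5)) + 1 := by
    rw [hCm]
    exact (Nat.ceil_lt_add_one (Real.exp_pos _).le).le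
  have hCm0 : 0 < Cm := by
    have h1 : (0 : ℝ) < Cm := (Real.exp_pos _).trans_le hCm1
    exact_mod_cast h1
  obtain ⟨Rc, hRc⟩ : ∃ Rc : ℕ, Rc = 5 * K * B ^ 2 := ⟨_, rfl⟩
  have hRc0 : 0 < Rc := by
    rw [hRc]
    have : 0 < B := by omega
    positivity
  have hRc' : (Rc : ℝ) = 5 * K * (B : ℝ) ^ 2 := by
    rw [hRc]
    push_cast
    ring
  have hcL : Fintype.card {u : ι // u ≠ a} = K := card_neV a hcard
  have hnum := R.viewCn_q (AL := fun l t => AJ a h' (univ.erase l) (M3.Mod.ex N t)) Rc Cm hRc0 hCm0 (fun _ _ => Fac.refl _)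
    (fun l => filt_AJ a h' (univ.erase l)) (r1 := r) (rmin := 3 * r) hr hr2.le (by
      show 2 * eta + r ≤ 3 * r
      linarith)
  obtain ⟨n1, n2, n3, n4, n5, n6, n7, n8⟩ := hnum
  refine ⟨Ξ2, i1, i2, h', R.viewCn (AL := fun l t => AJ a h' (univ.erase l) (M3.Mod.ex N t)) Rc Cm hRc0 hCm0
    (fun _ _ => Fac.refl _) (fun l => filt_AJ a h' (univ.erase l)) (r1 := r) (rmin := 3 * r) hr hr2.le (by
      show 2 * eta + r ≤ 3 * r
      linarith), hh, hh', ?_, ?_, ?_, ?_, ?_, ?_, ?_, n6, ?_⟩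
  · refine le_of_le_of_eq ?_ n8.symm
    unfold GRT.RawR.hnv
    refine mul_nonneg (by positivity) (add_nonneg (Real.log_nonneg ?_) (Real.log_nonneg ?_))
    · have : (0 : ℝ) ≤ Cm := Nat.cast_nonneg _
      linarith
    · have : (0 : ℝ) ≤ (((2 * M + 2 : ℕ) : ℝ) + 1) ^ Fintype.card Bool := by positivity
      linarith
  · refine le_of_eq_of_le (congrArg (fun x => (K : ℝ) * x) n8) ?_
    exact nvb_le hB' hK hp1 hY hYd hM hs0 hs hRc' hCm2
  · refine le_of_eq_of_le (congrArg (fun x => (K : ℝ) * (2 * x)) n3) ?_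
    have h1 := hb_le hB' hK hp1 hY hYd hM hs0 hs hnf0 hnf
    unfold GRT.RawR.hv GRT.RawR.hl
    refine le_trans (le_of_eq ?_) h1
    have e1 : (Nam.outG O σ hN h h' c A eta (TV σ hN h a F) (zrV σ hN h a F) dd (alV K Y)).al 0 =
        Real.exp (-(2 ^ (K - 1) * Y)) := rfl
    rw [e1, hcL, Fintype.card_bool]
    push_cast
    ring
  · refine le_of_eq_of_le (congrArg (fun x => (K : ℝ) * x) n2) ?_
    calc (K : ℝ) * (1 + (4 * J + 1)) ≤ (B : ℝ) ^ K * ((B : ℝ) ^ 3 * B) := by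
          have h6 : (6 : ℝ) ≤ (B : ℝ) ^ 3 := by
            calc (6 : ℝ) ≤ 2 ^ 3 := by norm_num
              _ ≤ (B : ℝ) ^ 3 := pow_le_pow_left₀ (by norm_num) hB' 3
          refine mul_le_mul (K_le_pow hB') ?_ (by linarith) (by positivity)
          have h7 := mul_le_mul_of_nonneg_right h6 hB0.le
          linarith
      _ = (B : ℝ) ^ (K + 4) := by ring
      _ ≤ (B : ℝ) ^ p := pow_le_pow_right₀ (by linarith) (by unfold mV at hp1; omega)
  · refine le_of_eq_of_le n5 ?_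
    have h1 := a6_le (K := K) (C := C) (p := p) (B := (B : ℝ)) (Y := Y) hB' hY
    refine le_trans (le_of_eq ?_) h1
    have e1 : (Nam.outG O σ hN h h' c A eta (TV σ hN h a F) (zrV σ hN h a F) dd (alV K Y)).toGRD.top =
        alV K Y (Fintype.card {j : ι // j ≠ a} - 1) := rfl
    rw [e1, hcL, alV_top]
  · refine le_of_eq_of_le n1 ?_
    unfold GRT.RawR.qvC GRT.RawR.qc
    have e1 : (Nam.outG O σ hN h h' c A eta (TV σ hN h a F) (zrV σ hN h a F) dd (alV K Y)).toGRD.top =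
        alV K Y (Fintype.card {j : ι // j ≠ a} - 1) := rfl
    have e2 : (Nam.outG O σ hN h h' c A eta (TV σ hN h a F) (zrV σ hN h a F) dd (alV K Y)).al 0 =
        Real.exp (-(2 ^ (K - 1) * Y)) := rfl
    have e3 : (Nam.outG O σ hN h h' c A eta (TV σ hN h a F) (zrV σ hN h a F) dd (alV K Y)).Lam = c * A := rfl
    rw [e1, e2, e3, hcL, alV_top, hcard]
    have hcA : 0 ≤ c * A := mul_nonneg hc hOk.A0
    have h1 := rec_le (K := K) (C := C) (p := p) (Lam := c * A) hB' hY he he1 hr hr1 hnf0 hnf hcA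
      (hAs.trans (Real.exp_le_exp.2 hs)) hM hs0 hs
    have h2 := cap_le (K := K) (Y := Y) hB' hK he he1 hnf0 hnf hRc' hCm1
    have h3 : ((K + 1 : ℕ) : ℝ) * q ≤ (K + 1) * e := by
      push_cast
      exact mul_le_mul_of_nonneg_left hq (by linarith)
    linarith
  · exact le_of_eq_of_le n4 her
  · rw [n7]
    norm_num

end view

end

end Pool.Agent.GM
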