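import Pool.Agent.GM.ColdMov

/-!
# GM/CMcDef (helper42): the contract of the COLD SETS OF `j - 1` VERTICES WITH A COIN (row P5)

As `GM/CMDef`, but the coin of the hidden vertex `w` (`binSys Θ Ξ Q σ w hN h`) is seen by ONE face `δ ≠ w`; the known class
`Kn w` does not know it, so hotness is coin averaged, and `Sys.Rare` of the face `δ` is averaged over the coin.
* `GS.FacesCc S w δ F m M θ acc`, `FacesC.toC` (coin free faces), `FacesCc.refine`;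
* **`GS.CMcFine j κ c C`**, `GS.CMcPiece j κ C`, `GS.CMcAll j C`; `LayCc`, `LayersCc` : the layers.
-/

set_option autoImplicit false
set_option linter.unusedSectionVars false

namespace Pool.Agent.GM.GS

open Finset Pool.Agent.PWZ Pool.Agent.M3 Pool.Agent.M3.TS Pool.Agent.M3.Bin Pool.Agent.GM Pool.Agent.GM.Mv Pool.Agent.GM.KVer
open Pool.Agent.M3.Mod (ex)

noncomputable section

section abs

variable {ι Om Ξ Pt V Γ κ Γ' κ' : Type} [Fintype ι] [DecidableEq ι] [Fintype Om] [Fintype Ξ] [Fintype Pt]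
  [Fintype V] (S : Sys ι Om Ξ Pt V Γ κ)

/-- **the faces of the natural view of `w`**, the face `δ` sees the coin; `m` = numbers on the path, `M` = from every
state -/
structure FacesCc (w δ : ι) (F : ι → Mov Ξ ι Pt Γ (V → ℝ)) (m M θ acc : ℝ) : Prop where
  dep : ∀ i, ∀ t g ξ, Dep (univ.erase i) (F i t g ξ)
  coin : ∀ i, i ≠ δ → ∀ t g ξ ξ', F i t g ξ = F i t g ξ'
  bd : ∀ i, ∀ t g ξ x d, |F i t g ξ x d| ≤ 1
  zero : ∀ i, ∀ g ξ x, F i 0 g ξ x = 0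
  /-- the known face is static after its introduction -/
  once : ∀ t ω, S.at' (F w) (t + 1) ω = S.at' (F w) t ω ∨ S.at' (F w) t ω = 0
  fut : ∀ i, i ≠ w → S.Future (univ.erase i) (F i) M
  tail : ∀ i, i ≠ w → S.MvTail (F i) m
  mean : ∀ i, i ≠ w → S.P.E (S.nmv (F i) S.n) ≤ m
  rare : ∀ i, i ≠ w → S.Rare univ i (F i) θ acc

variable {S} {S' : Sys ι Om Ξ Pt V Γ' κ'}

/-- coin free faces -/
theorem FacesC.toC {w : ι} {F : ι → Mov Ξ ι Pt Γ (V → ℝ)} {m M θ acc : ℝ} (h : FacesC S w F m M θ acc) (δ : ι) :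
    FacesCc S w δ F m M θ acc where
  dep := h.dep
  coin i _ := h.coin i
  bd := h.bd
  zero := h.zero
  once := h.once
  fut := h.fut
  tail := h.tail
  mean := h.mean
  rare := h.rare

theorem FacesCc.mono {w δ : ι} {F : ι → Mov Ξ ι Pt Γ (V → ℝ)} {m M θ acc m' M' θ' acc' : ℝ}
    (h : FacesCc S w δ F m M θ acc) (h1 : m ≤ m') (h2 : M ≤ M') (h3 : θ ≤ θ') (h4 : acc ≤ acc') :
    FacesCc S w δ F m' M' θ' acc' where
  dep := h.dep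
  coin := h.coin
  bd := h.bd
  zero := h.zero
  once := h.once
  fut i hi := Sys.Future.mono S (h.fut i hi) h2
  tail i hi := (h.tail i hi).mono h1
  mean i hi := (h.mean i hi).trans h1
  rare i hi := Sys.Rare.mono S (h.rare i hi) h3 h4

/-- the faces of the natural view after a refinement -/
theorem FacesCc.refine {w δ : ι} {F : ι → Mov Ξ ι Pt Γ (V → ℝ)} {m M θ acc m1 M1 θ' acc' : ℝ} (A : FineS S S')
    (hM : 0 ≤ M) (h1 : m ≤ m1) (h2 : A.Rt * M ≤ M1) (hθ : 0 ≤ θ) (h3 : A.Rt ^ Fintype.card ι * θ ≤ θ')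
    (h4 : acc + (S.near + S'.near) ≤ acc') (h : FacesCc S w δ F m M θ acc) :
    FacesCc S' w δ (fun i => A.lift (F i)) m1 M1 θ' acc' where
  dep i t g ξ := h.dep i t _ ξ
  coin i hi t g ξ ξ' := h.coin i hi t _ ξ ξ'
  bd i t g ξ x d := h.bd i t _ ξ x d
  zero i g ξ x := h.zero i _ ξ x
  once t ω := by
    rw [A.at'_lift, A.at'_lift]
    exact h.once t ω
  fut i hi := Sys.Future.mono S' (A.future_lift (erase_ne i) hM (h.fut i hi)) h2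
  tail i hi := (A.tail_lift (h.tail i hi)).mono h1
  mean i hi := by
    rw [A.hP, A.hn]
    have h6 : S.P.E (S'.nmv (A.lift (F i)) S.n) = S.P.E (S.nmv (F i) S.n) :=
      S.P.E_congr fun ω _ => A.nmv_lift (F i) S.n ω
    rw [h6]
    exact (h.mean i hi).trans h1
  rare i hi := by
    refine Sys.Rare.mono S' (A.rare_lift hθ zero_le_one (fun t g ξ x d => h.bd i t g ξ x d) (h.rare i hi)) ?_ ?_
    · rw [Finset.card_univ]
      exact h3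
    · rw [one_mul]
      exact h4

end abs

end

/-- **THE CONTRACT CM WITH A COIN, AFTER THE REFINEMENT** -/
def CMcFine (j : ℕ) (κ : ℝ) (c C : ℕ) : Prop :=
  ∀ (ι Θ Ξ Q : Type) [Fintype ι] [DecidableEq ι] [Fintype Θ] [Nonempty Θ] [Fintype Ξ] [Nonempty Ξ] [Fintype Q]
    [Nonempty Q] (k N : ℕ) (σ : V k) (w δ q : ι) (hN : N ≤ k) (h : ℕ), Fintype.card ι = j → δ ≠ w → q ≠ w →
    ∀ β H Λ : ℝ, 0 < β → β ≤ 1 / 2 → 1 / β ≤ H → (binSys Θ Ξ Q σ w hN h).K ≤ Real.exp (H ^ (c + 2)) →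
      (binSys Θ Ξ Q σ w hN h).near ≤ Real.exp (-H ^ c) → H ^ C ≤ Λ → Λ ≤ Real.exp H →
      ∀ F : ι → Mov Ξ ι (Q × V k) (Θ × (V k × ℕ)) (V k → ℝ),
        FacesCc (binSys Θ Ξ Q σ w hN h) w δ F (4 * H) (Real.exp (H ^ (c + 2))) (Real.exp (-Λ)) (β ^ C) →
        Nonempty (StrT (binSys Θ Ξ Q σ w hN h) univ δ q (F q) (4 * H) (Real.exp (H ^ (c + 2)))
          (H * Real.exp ((1 + κ) * Λ))) →
        ColdAt σ w hN h w F β (Real.exp (-H)) (Real.exp (-H))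

/-- the contract before the refinement -/
def CMcPiece (j : ℕ) (κ : ℝ) (C : ℕ) : Prop :=
  ∀ (ι Θ Ξ Q : Type) [Fintype ι] [DecidableEq ι] [Fintype Θ] [Nonempty Θ] [Fintype Ξ] [Nonempty Ξ] [Fintype Q]
    [Nonempty Q] (k N : ℕ) (σ : V k) (w δ q : ι) (hN : N ≤ k) (h : ℕ), Fintype.card ι = j → δ ≠ w → q ≠ w →
    ∀ β H Λ : ℝ, 0 < β → β ≤ 1 / 2 → 1 / β ≤ H → (binSys Θ Ξ Q σ w hN h).K ≤ Real.exp H →
      (binSys Θ Ξ Q σ w hN h).near ≤ β ^ C → H ^ C ≤ Λ → Λ ≤ Real.exp H →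
      ∀ F : ι → Mov Ξ ι (Q × V k) (Θ × (V k × ℕ)) (V k → ℝ),
        FacesCc (binSys Θ Ξ Q σ w hN h) w δ F (1 + 2 * H) H (Real.exp (-Λ)) (β ^ C) →
        Nonempty (StrF (binSys Θ Ξ Q σ w hN h) univ δ q (F q) H (H * Real.exp ((1 + κ) * Λ))) →
        ColdAt σ w hN h w F β (Real.exp (-H)) (Real.exp (-H))

/-- no structured face -/
def CMcAll (j C : ℕ) : Prop :=
  ∀ (ι Θ Ξ Q : Type) [Fintype ι] [DecidableEq ι] [Fintype Θ] [Nonempty Θ] [Fintype Ξ] [Nonempty Ξ] [Fintype Q]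
    [Nonempty Q] (k N : ℕ) (σ : V k) (w δ : ι) (hN : N ≤ k) (h : ℕ), Fintype.card ι = j → δ ≠ w →
    ∀ β H : ℝ, 0 < β → β ≤ 1 / 2 → 1 / β ≤ H → (binSys Θ Ξ Q σ w hN h).K ≤ Real.exp H →
      (binSys Θ Ξ Q σ w hN h).near ≤ β ^ C →
      ∀ F : ι → Mov Ξ ι (Q × V k) (Θ × (V k × ℕ)) (V k → ℝ),
        FacesCc (binSys Θ Ξ Q σ w hN h) w δ F (1 + 2 * H) H (Real.exp (-H ^ C)) (β ^ C) →
        ColdAt σ w hN h w F β (Real.exp (-H)) (Real.exp (-H))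

noncomputable section

/-- the layers of the faces `F` of the natural view of `w` with a coin -/
structure LayCc {k N : ℕ} {ι Θ Ξ Q : Type} [Fintype ι] [DecidableEq ι] (σ : V k) [Fintype Θ] [Nonempty Θ] [Fintype Ξ]
    [Nonempty Ξ] [Fintype Q] [Nonempty Q] (hN : N ≤ k) (h : ℕ) (w δ : ι)
    (F : ι → Mov Ξ ι (Q × V k) (Θ × (V k × ℕ)) (V k → ℝ)) (κ : ℝ) (C : ℕ) (c0 β H : ℝ) where
  hn : ℕ → ℕ
  bn : ℕ → ℝ
  Hn : ℕ → ℝ
  Ln : ℕ → ℝ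
  Pc : ℕ → ι → ι → Mov Ξ ι (Q × V k) (Θ × (V k × ℕ)) (V k → ℝ)
  Z : ℕ → ℕ → Sq k N ι Θ (Ξ × Q) → ℝ
  b0 : ∀ n, 0 < bn n
  b2 : ∀ n, bn n ≤ 1 / 2
  bH : ∀ n, 1 / bn n ≤ Hn n
  KH : ∀ n, (binSys Θ Ξ Q σ w hN (hn n)).K ≤ Real.exp (Hn n)
  nH : ∀ n, (binSys Θ Ξ Q σ w hN (hn n)).near ≤ bn n ^ C
  HL : ∀ n, Hn n ^ C ≤ Ln n
  LH : ∀ n, Ln n ≤ Real.exp (Hn n)
  fac : ∀ n q, q ≠ w → FacesCc (binSys Θ Ξ Q σ w hN (hn n)) w δ (Pc n q) (1 + 2 * Hn n) (Hn n) (Real.exp (-Ln n)) (bn n ^ C)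
  str : ∀ n q, q ≠ w → Nonempty (StrF (binSys Θ Ξ Q σ w hN (hn n)) univ δ q (Pc n q q) (Hn n)
    (Hn n * Real.exp ((1 + κ) * Ln n)))
  /-- the identity of the telescoping -/
  id : ∀ L, ∀ t ≤ N, ∀ ω, pT (binSys Θ Ξ Q σ w hN h) univ F t ω =
    (∑ n ∈ range L, ∑ q ∈ univ.erase w, c0 * pT (binSys Θ Ξ Q σ w hN (hn n)) univ (Pc n q) t ω) + Z L t ω
  /-- numbers -/
  c00 : 0 ≤ c0
  sb : ∀ L, ∑ n ∈ range L, (Fintype.card ι : ℝ) * c0 * bn n ≤ β / 2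
  sH : ∀ L, ∑ n ∈ range L, (Fintype.card ι : ℝ) * Real.exp (-Hn n) ≤ Real.exp (-H) / 4
  /-- the last term -/
  last : ∀ ε : ℝ, 0 < ε → ∃ L, (PM k N ι Θ Ξ Q).Pr (fun ω => ∃ t ≤ N, β / 4 ≤ |Z L t ω|) ≤ ε

end

/-- existence of the layers with a coin -/
def LayersCc (j : ℕ) (κ : ℝ) (C C1 : ℕ) : Prop :=
  ∀ (ι Θ Ξ Q : Type) [Fintype ι] [DecidableEq ι] [Fintype Θ] [Nonempty Θ] [Fintype Ξ] [Nonempty Ξ] [Fintype Q]
    [Nonempty Q] (k N : ℕ) (σ : V k) (w δ : ι) (hN : N ≤ k) (h : ℕ), Fintype.card ι = j → δ ≠ w →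
    ∀ β H : ℝ, 0 < β → β ≤ 1 / 2 → 1 / β ≤ H → (binSys Θ Ξ Q σ w hN h).K ≤ Real.exp H →
      (binSys Θ Ξ Q σ w hN h).near ≤ β ^ C1 →
      ∀ F : ι → Mov Ξ ι (Q × V k) (Θ × (V k × ℕ)) (V k → ℝ),
        FacesCc (binSys Θ Ξ Q σ w hN h) w δ F (1 + 2 * H) H (Real.exp (-H ^ C1)) (β ^ C1) →
        ∃ c0, Nonempty (LayCc σ hN h w δ F κ C c0 β H)

end Pool.Agent.GM.GS
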