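import Pool.Agent.GM.RawM
import Pool.Agent.GMM.SqMdl
import Pool.Agent.GMM.MainQ
import Pool.Agent.GMM.Names
import Pool.Agent.GMM.SatPt
import Pool.Agent.GM.PubCap

/-!
# GM/ColdM: theorem CM in the model `Sq` (row A10 of the assembly; helper45)

Natural view of the hidden vertex `i`, all other vertices known.  From a view `V : MV` without noise (published labels with a
bounded number of values, process `T`, known face frozen) and from the coldness of all proper sets of known vertices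
(the hidden vertex not known): the set of all known vertices is cold.
* `vx_AJ`, `knq_KJ`, `KJ_knq`, `knq_Z`, `Z_knq` : the classes; `adm_nm` : the view with the names of the labels is admissible;
* `coldM_num` : the theorem with the numbers `Nums`;
* **`coldM`**, `coldMn` : THEOREM CM IN THE MODEL: constants `C`, `c2` depend on the number of known vertices and on the
  polynomials only.
-/

set_option autoImplicit false
set_option linter.unusedSectionVars false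

namespace Pool.Agent.GMM

open Finset Pool.Agent.M3
open Pool.Agent.PWZ hiding ip th Dg
open Pool.Agent.M3.Bin (V)
open Pool.Agent.M3.Mod (ex)
open Pool.Agent.GM (Sq Pm th nz ot Zn Qn sc Dg Pm_ne Kn Kn_eq Qn_eq AJ KJ AJ_eq KJ_eq MV MVn GV GVn Z_fac_Kn Kn_fac_Z)

noncomputable section

variable {k N : ℕ} {ι Θ P : Type} [Fintype ι] [DecidableEq ι] [Fintype Θ] [Nonempty Θ] [Fintype P] [Nonempty P]

/-! ## classes -/

theorem vx_AJ (i : ι) (h : ℕ) (J : Finset {j : ι // j ≠ i}) (t : ℕ) :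
    Fac (fun u : Sq k N ι Θ P => (GM.vx i u, xr (xq i) J u, Qqn i h t u)) (AJ i h J (ex N t)) := by
  intro u v e
  simp only [Prod.mk.injEq] at e
  exact AJ_eq.2 ⟨e.1, (xq_eq i J).1 e.2.1, e.2.2⟩

theorem knq_KJ (i : ι) (h : ℕ) (J : Finset {j : ι // j ≠ i}) (t : ℕ) :
    Fac (fun u : Sq k N ι Θ P => (xr (xq i) J u, Qqn i h t u)) (KJ i h J (ex N t)) := by
  intro u v e
  simp only [Prod.mk.injEq] at e
  exact KJ_eq.2 ⟨(xq_eq i J).1 e.1, e.2⟩

theorem KJ_knq (i : ι) (h : ℕ) (J : Finset {j : ι // j ≠ i}) (t : ℕ) :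
    Fac (KJ i h J (ex N t)) (fun u : Sq k N ι Θ P => (xr (xq i) J u, Qqn i h t u)) := by
  intro u v e
  have e' := KJ_eq.1 e
  simp only [Prod.mk.injEq]
  exact ⟨(xq_eq i J).2 e'.1, e'.2⟩

theorem knq_Z (i : ι) (h t : ℕ) :
    Fac (fun u : Sq k N ι Θ P => (xr (xq i) univ u, Qqn i h t u)) (fun u => (ot i u, Qn i h (ex N t) u)) := by
  intro u v e
  simp only [Prod.mk.injEq] at e ⊢
  exact ⟨funext fun j => (xq_eq i univ).1 e.1 j (Finset.mem_univ _), e.2⟩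

theorem Z_knq (i : ι) (h : ℕ) (J : Finset {j : ι // j ≠ i}) (t : ℕ) :
    Fac (fun u : Sq k N ι Θ P => (ot i u, Qn i h (ex N t) u)) (fun u => (xr (xq i) J u, Qqn i h t u)) := by
  intro u v e
  simp only [Prod.mk.injEq] at e ⊢
  exact ⟨(xq_eq i J).2 fun j _ => congrFun e.1 j, e.2⟩

/-- number of values on a smaller class -/
theorem nv_class {Om : Type*} [Fintype Om] {Q : FP Om} {κ ν ν' : Type*} (X : Om → κ) {V : Om → ν} {V' : Om → ν'} {w : Om}
    (h : ∀ u, V u = V w → V' u = V' w) : nv Q X V w ≤ nv Q X V' w := by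
  classical
  unfold nv vs
  refine Finset.card_le_card (Finset.image_subset_image (fun u hu => ?_))
  rw [Finset.mem_filter] at hu ⊢
  exact ⟨hu.1, hu.2.1, h u hu.2.2⟩

variable {L : Type} [Fintype L] [DecidableEq L] {i : ι} {h : ℕ} {S : L → Finset {j : ι // j ≠ i}}
  {T : ℕ → Sq k N ι Θ P → ℝ} {che zr : ℕ → Sq k N ι Θ P → Prop}

/-- recorded changes at the index `I`, at the time `t` -/
def ccV (Vw : MV k N ι Θ P i h S T che zr) (I : Finset {j : ι // j ≠ i}) (t : ℕ) (u : Sq k N ι Θ P) : ℝ :=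
  ∑ l ∈ univ.filter (fun l => S l = I), ind (Vw.c l (t - 1) u)

/-- the view with the names only is admissible -/
theorem adm_nm (Vw : MV k N ι Θ P i h S T che zr) (hS : ∀ l, S l ≠ univ) :
    GM.Adm (fun t (ω : Sq k N ι Θ P) => (ot i ω, Qn i h (ex N t) ω)) Vw.pl
      (fun t u => (sel (fun I => I ≠ univ) (nm S Vw.pl t) u, xr (xq i) univ u, Qqn i h t u)) where
  filt := by
    intro t u v e
    simp only [Prod.mk.injEq] at e ⊢
    exact ⟨sel_eq.2 fun I hI => nm_mono Vw.plc t I u v (sel_eq.1 e.1 I hI), e.2.1, filt_Qq i h t u v e.2.2⟩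
  Z := fun t u v e => by
    simp only [Prod.mk.injEq] at e
    exact knq_Z i h t u v (Prod.ext e.2.1 e.2.2)
  pl := fun l t u v e => by
    simp only [Prod.mk.injEq] at e
    exact sel_nm (hS l) u v e.1

variable {K c c2 X C b e0 : ℕ} {n : Nums K c X}

/-- theorem CM in the model with the numbers -/
theorem coldM_num (Vw : MV k N ι Θ P i h S T che zr) (hN : N ≤ k) (hS : ∀ l, S l ≠ univ)
    (hcz : ∀ t w, che t w → zr t w) (hn : n.OK C) (hK : Fintype.card {j : ι // j ≠ i} = K) (hK1 : 1 ≤ K) (hX : 2 ≤ X)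
    (hc2 : c = 2 * c2) (hcc2 : 6 * b + 6 * K + 3 * e0 + 14 ≤ c2) {hv : ℝ} (hv0 : 0 ≤ hv)
    (hnv : ∀ l t w, (nv Pm (Vw.pl l t) (KJ i h (S l) (ex N t)) w : ℝ) ≤ Real.exp hv)
    (hX1 : Fintype.card L * hv ≤ X) (hX2 : Fintype.card L * (2 * Vw.hb) ≤ X)
    (hX3 : Fintype.card L * Vw.J ≤ (X : ℝ) ^ (b : ℤ)) (hX4 : 9 * Vw.cb ^ 2 ≤ (X : ℝ) ^ (b : ℤ))
    (hX5 : Fintype.card ι ≤ b) {r1 s2 σ1 : ℝ} (hr1 : 0 ≤ r1) (hs2 : r1 + Vw.eta < s2)
    (hX6 : 1 / (s2 - (r1 + Vw.eta)) ^ 2 ≤ (X : ℝ) ^ (b : ℤ)) (hσ0 : 0 ≤ σ1)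
    (hσ : σ1 + Vw.a6 ≤ (X : ℝ) ^ (-((C : ℤ) + c)))
    (hcold : ∀ J : Finset {j : ι // j ≠ i}, J ≠ univ → (Pm : FP (Sq k N ι Θ P)).Pr (fun u => ∃ t ≤ N,
      σ1 < Pm.ce (KJ i h J (ex N t)) (fun v => ind (r1 ≤ |T t v|)) u) ≤ (X : ℝ) ^ (-(c2 : ℤ)))
    {r' : ℝ} (hr' : 0 < r') (hr'e : 1 / r' ≤ (X : ℝ) ^ (e0 : ℤ))
    (hck : cMin K ≤ c) :
    (Pm : FP (Sq k N ι Θ P)).Pr (fun u => ∃ t ≤ N, r' + Vw.a6 ≤
      Pm.ce (Kn i (ex N t)) (fun v => ind (s2 + Vw.eta ≤ |T t v|)) u) ≤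
      (X : ℝ) ^ (-(e0 : ℤ)) + (72 * Vw.cb ^ 2 / (r' * (s2 - (r1 + Vw.eta)) ^ 2) + 6 / r') * Vw.q := by
  classical
  have hX2r : (2 : ℝ) ≤ (X : ℝ) := by exact_mod_cast hX
  have hX0 : (0 : ℝ) < (X : ℝ) := by linarith
  obtain ⟨w0, hw0⟩ := (Pm : FP (Sq k N ι Θ P)).exists_p_ne
  have ha6 : 0 ≤ Vw.a6 :=
    (Pm.ce_nonneg (fun v _ => ind_nonneg _) w0).trans (Vw.utdc 0 (Y := fun _ => ()) (Fac.const _ _) w0 hw0)
  -- the labels of the rule
  have hAfac : ∀ l t, Fac (fun u : Sq k N ι Θ P => (GM.vx i u, xr (xq i) (S l) u, Qqn i h t u)) (Vw.pl l t) :=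
    fun l t => (vx_AJ i h (S l) t).trans (Vw.plA l t)
  have hnv' : ∀ l t u, Pm.p u ≠ 0 → (nv Pm (Vw.pl l t) (fun z : Sq k N ι Θ P => (xr (xq i) (S l) z, Qqn i h t z)) u : ℝ) ≤
      Real.exp hv := by
    intro l t u hu
    refine le_trans ?_ (hnv l t u)
    exact_mod_cast nv_class (Vw.pl l t) (fun z hz => knq_KJ i h (S l) t z u hz)
  have hent0 : ∀ l, Pm.Hc (Vw.pl l 0) (fun u : Sq k N ι Θ P => (xr (xq i) (S l) u, Qqn i h 0 u)) ≤ Vw.hb := by
    intro l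
    refine le_trans (le_of_eq ?_) (Vw.ent0 l)
    exact Pm.Hc_congr (Fac.fst _ _) (knq_KJ i h (S l) 0) (Fac.fst _ _) (KJ_knq i h (S l) 0)
  have hent : ∀ l, ∑ t ∈ range N, Pm.Hc (Vw.pl l (t + 1)) (fun u : Sq k N ι Θ P =>
      (Vw.pl l t u, (xr (xq i) (S l) u, Qqn i h (t + 1) u))) ≤ Vw.hb := by
    intro l
    refine le_trans (le_of_eq (Finset.sum_congr rfl fun t _ => ?_)) (Vw.ent l)
    refine Pm.Hc_congr (Fac.fst _ _) ?_ (Fac.fst _ _) ?_
    · intro u v e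
      simp only [Prod.mk.injEq] at e ⊢
      exact ⟨e.1, knq_KJ i h (S l) (t + 1) u v (Prod.ext e.2.1 e.2.2)⟩
    · intro u v e
      simp only [Prod.mk.injEq] at e ⊢
      have e2 := KJ_knq i h (S l) (t + 1) u v e.2
      simp only [Prod.mk.injEq] at e2
      exact ⟨e.1, e2⟩
  have hM := sq_mdl (Θ := Θ) (P := P) hN i h
  obtain ⟨L', fat, hR0⟩ := exists_rule (Pm : FP (Sq k N ι Θ P)) (GM.vx i) (xq i) (Qqn i h) Dq (nm S Vw.pl)
    (fun s => max 1 (n.AA s)) n.w n.aa (X : ℝ) N hM.filt hM.dQ hn.w_pos (fun r s hrs _ => hn.w_mono r s hrs)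
    (fun s => lt_of_lt_of_le one_pos (le_max_left _ _))
    (fun r s hrs hs => by
      rw [hK] at hs
      rw [max_eq_right (hn.AA_pos s hs)]
      have := hn.aa_AA r s hrs hs
      linarith)
    hX0.le
    (fun r hr => by
      rw [hK] at hr
      exact hn.aa_ge r hr)
    (fun t I => nm_fac hAfac t I)
    (fun t I => nm_mono' Vw.plc t I)
    (fun t I _ u hu => (nm_nv hv0 hnv' t I hu).trans (Real.exp_le_exp.2 hX1))
    (fun I _ => by
      rcases isEmpty_or_nonempty L with hL | ⟨⟨l0⟩⟩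
      · refine (nm_bud (P := (Pm : FP (Sq k N ι Θ P))) (x := xq i) (Q := Qqn i h) (S := S) (pl := Vw.pl) (T := N) le_rfl
          (fun l => hL.elim l) (fun l => hL.elim l) I).trans ?_
        rw [Fintype.card_eq_zero]
        push_cast
        rw [zero_mul]
        exact hX0.le
      · exact (nm_bud ((Pm.Hc_nonneg _ _).trans (hent0 l0)) hent0 hent I).trans hX2)
  have hR : RuleOut (Pm : FP (Sq k N ι Θ P)) (GM.vx i) (xq i) (Qqn i h) Dq (nm S Vw.pl) n.AA n.w n.aa X N L' fat :=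
    { fac := hR0.fac
      name := hR0.name
      mono := hR0.mono
      fat_fac := hR0.fat_fac
      fat_mono := hR0.fat_mono
      fat_top := hR0.fat_top
      nvle := hR0.nvle
      fatle := hR0.fatle
      b2 := hR0.b2
      b3 := hR0.b3
      sat0 := fun t J s w0 v hJs hs hw0 hv I hJI hI => by
        have e1 : max 1 (n.AA s) = n.AA s := max_eq_right (hn.AA_pos s (by rw [← hK]; exact hs))
        have h1 := hR0.sat0 t J s w0 v hJs hs hw0 (by rw [e1]; exact hv) I hJI hI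
        rw [e1] at h1
        exact h1 }
  -- the process
  set s : ℝ := r1 + Vw.eta with hs
  have hs0 : 0 ≤ s := by have := Vw.eta0; linarith
  have hA0 := adm_nm Vw hS
  have hVw := Vw.view _ hA0 s hs0 Vw.D1
  set g' : ℕ → Sq k N ι Θ P → ℝ := fun t => if t < N then Vw.g t else fun _ => 0 with hg'
  set e' : ℕ → Sq k N ι Θ P → Prop := fun t u => Vw.ev t u ∨ N < t with he'
  have hp : Proc (Pm : FP (Sq k N ι Θ P)) (xq i) (Qqn i h) Dq (nm S Vw.pl) Vw.X g' e' Vw.D1 s (9 * Vw.cb ^ 2) N :=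
    { X_fac := hVw.X_fac
      g_fac := fun t => by
        simp only [hg']
        split_ifs
        · exact hVw.g_fac t
        · exact Fac.const _ _
      digit := fun t w _ => Dq_val t w
      fair := fun t ht w _ => sq_fair i h ht w
      step := fun t w hw hn' => by
        simp only [he', not_or, not_lt] at hn'
        have ht : t < N := by omega
        simp only [hg']
        rw [if_pos ht]
        unfold Dq
        rw [if_pos ht]
        exact hVw.step t w hw hn'.1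
      bd := hVw.bd
      bd' := fun t w hw => by
        simp only [hg']
        split_ifs with ht
        · unfold Dq
          rw [if_pos ht]
          exact hVw.bd' t w hw
        · rw [mul_zero, add_zero]
          exact hVw.bd t w hw
      dead := Vw.D1inc }
  -- admissible: the view with the labels of the rule
  have hAd : GM.Adm (fun t (ω : Sq k N ι Θ P) => (ot i ω, Qn i h (ex N t) ω)) Vw.pl (vmap (xq i) (Qqn i h) L') :=
    { filt := vmap_filt hR hM.filt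
      Z := fun t => (vmap_name hR t).trans (hA0.Z t)
      pl := fun l t => (vmap_name hR t).trans (hA0.pl l t) }
  -- the classes of the known vertices
  have hcl : ∀ (J : Finset {j : ι // j ≠ i}) (t : ℕ) (f : Sq k N ι Θ P → ℝ) (u : Sq k N ι Θ P),
      Pm.ce (knq (xq i) (Qqn i h) J t) f u = Pm.ce (KJ i h J (ex N t)) f u := fun J t f u =>
    Pm.ce_congr_map (knq_KJ i h J t) (KJ_knq i h J t) f u
  have hc0 : (0 : ℝ) < (1 / 2) ^ Fintype.card ι := by positivity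
  set Ap : ℕ → ℕ → ℝ := fun s j => max 0 (n.Exp s j) with hApd
  have hApe : ∀ G J : Finset {j : ι // j ≠ i}, G ≠ univ → J ≠ univ → Ap G.card J.card = n.Exp G.card J.card :=
    fun G J hG hJ => by
      have h1 : G.card < K := by
        rw [← hK]
        exact card_lt_of_prp hG
      have h2 : J.card < K := by
        rw [← hK]
        exact card_lt_of_prp hJ
      exact max_eq_right (hn.Exp_nonneg h1 h2)
  have hsat : ∀ J : Finset {j : ι // j ≠ i}, J ≠ univ → ∀ t ≤ N, ∀ u, (Pm : FP (Sq k N ι Θ P)).p u ≠ 0 →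
      SatAt (Pm : FP (Sq k N ι Θ P)) (GM.vx i) (xq i) (Qqn i h) L' fat n Ap J t u := by
    intro J hJ t _ u hu h1 h2
    have h3 := hR.satAt hn hX hck hK hM hJ t hu (fun G hG hGu => by
      rw [← hApe G J hGu hJ]
      exact h1 G hG hGu) h2
    refine ⟨fun J' G hJJ hJ' hJG hG R hR' => h3.1 J' G hJJ hJ' hJG hG R ?_, h3.2⟩
    rw [← hApe G J' hG hJ']
    exact hR'
  have key := cm_numsq (Om := Sq k N ι Θ P) (P := Pm) (C := C) (c2 := c2) (b := b) (e0 := e0) hn hK hK1 hX hc2 hcc2 hM hc0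
    (fun t I u hu => sq_hat hN i h t I u hu) hR hp (Ap := Ap) (fun s j => le_max_left _ _) hsat
    (S := fun t u => ¬ Vw.utd t u ∨ r1 ≤ |T t u|) (S' := fun t u => Vw.utd t u ∧ s2 + Vw.eta ≤ |T t u|)
    (σ := σ1 + Vw.a6)
    (fun J hJ => by
      refine le_trans (Pm.Pr_mono fun u hu => ?_) (hcold J hJ)
      rintro ⟨t, ht, hlt⟩
      refine ⟨t, ht, ?_⟩
      have h1 : Pm.ce (knq (xq i) (Qqn i h) J t) (fun v => ind (¬ Vw.utd t v ∨ r1 ≤ |T t v|)) u ≤
          Pm.ce (knq (xq i) (Qqn i h) J t) (fun v => ind (¬ Vw.utd t v)) u +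
          Pm.ce (knq (xq i) (Qqn i h) J t) (fun v => ind (r1 ≤ |T t v|)) u := by
        rw [← Pm.ce_add]
        refine Pm.ce_mono (fun v _ => ?_) u
        by_cases h1 : ¬ Vw.utd t v
        · rw [ind_of h1, ind_of (Or.inl h1)]
          have := ind_nonneg (r1 ≤ |T t v|)
          linarith
        · by_cases h2 : r1 ≤ |T t v|
          · rw [ind_of h2, ind_of (Or.inr h2)]
            have := ind_nonneg (¬ Vw.utd t v)
            linarith
          · rw [ind_not (fun h3 => h3.elim h1 h2)]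
            exact add_nonneg (ind_nonneg _) (ind_nonneg _)
      have h2 : Pm.ce (knq (xq i) (Qqn i h) J t) (fun v => ind (¬ Vw.utd t v)) u ≤ Vw.a6 :=
        Vw.utdc t (Z_knq i h J t) u hu
      rw [hcl J t (fun v => ind (r1 ≤ |T t v|)) u] at h1
      linarith)
    (fun t u hu hx hd => by
      rcases Vw.XS1 s hs0 t u hu hx hd with h1 | h1
      · exact Or.inl h1
      · refine Or.inr (le_trans ?_ h1)
        rw [hs]
        linarith)
    (ccV Vw)
    (fun I t _ => by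
      unfold ccV
      simp only [Nat.add_sub_cancel]
      intro u v e
      refine Finset.sum_congr rfl fun l hl => ?_
      have hl' : S l = I := (Finset.mem_filter.1 hl).2
      have h1 := Vw.cA l t u v (vx_AJ i h (S l) (t + 1) u v (by rw [hl']; exact e))
      by_cases h2 : Vw.c l t u
      · rw [ind_of h2, ind_of (h1.1 h2)]
      · rw [ind_not h2, ind_not (fun h3 => h2 (h1.2 h3))])
    (fun I t u _ => Finset.sum_nonneg fun l _ => ind_nonneg _)
    (fun t ht u hu hx ha => by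
      by_cases hev : e' (t + 1) u
      · have hev' : Vw.ev (t + 1) u := by
          rcases hev with h1 | h1
          · exact h1
          · omega
        rw [ind_of hev]
        rcases Vw.ev1 _ hAd t u hu ha hev' with h1 | ⟨l, hl⟩
        · exfalso
          rw [Vw.zer t u (hcz t u h1), abs_zero] at hx
          linarith
        · have hSl : S l ∈ (univ : Finset {j : ι // j ≠ i}).ssubsets :=
            Finset.mem_ssubsets.2 (Finset.ssubset_iff_subset_ne.2 ⟨Finset.subset_univ _, hS l⟩)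
          refine le_trans ?_ (Finset.single_le_sum (f := fun I => ccV Vw I (t + 1) u)
            (fun I _ => Finset.sum_nonneg fun l _ => ind_nonneg _) hSl)
          refine le_trans (le_of_eq ?_) (Finset.single_le_sum (f := fun l => ind (Vw.c l (t + 1 - 1) u))
            (fun l _ => ind_nonneg _) (Finset.mem_filter.2 ⟨Finset.mem_univ l, rfl⟩))
          show (1 : ℝ) = ind (Vw.c l (t + 1 - 1) u)
          rw [Nat.add_sub_cancel, ind_of hl]
      · rw [ind_not hev]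
        exact Finset.sum_nonneg fun I _ => Finset.sum_nonneg fun l _ => ind_nonneg _)
    (fun I _ => by
      refine le_trans ?_ hX3
      have h1 : ∑ t ∈ range N, Pm.E (ccV Vw I (t + 1)) =
          ∑ l ∈ univ.filter (fun l => S l = I), ∑ t ∈ range N, Pm.Pr (Vw.c l t) := by
        rw [Finset.sum_comm]
        refine Finset.sum_congr rfl fun t _ => ?_
        exact FP.E_sum Pm (univ.filter (fun l => S l = I)) fun l u => ind (Vw.c l (t + 1 - 1) u)
      rw [h1]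
      have hJ0 : 0 ≤ Vw.J := (Finset.sum_nonneg fun _ _ => Pm.Pr_nonneg _).trans Vw.eJ
      refine (Finset.sum_le_card_nsmul _ _ Vw.J fun l _ => Vw.cJ l).trans ?_
      rw [nsmul_eq_mul]
      refine mul_le_mul_of_nonneg_right ?_ hJ0
      exact_mod_cast Finset.card_le_univ _)
    (s2 := s2) hs2
    (fun t u hu hS' hd => Vw.SX1 s2 t u hu hS'.2 hd hS'.1)
    (by
      rw [one_div, ← inv_pow, one_div, inv_inv]
      exact (zp_two_pow hX2r _).trans (zp_mono hX2r (by exact_mod_cast hX5)))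
    hX4 hX6 (add_nonneg hσ0 ha6) hσ
    hr' hr'e
  have hkey2 : (8 * (9 * Vw.cb ^ 2) / (r' * (s2 - s) ^ 2) + 6 / r') * Pm.Pr (Vw.D1 N) ≤
      (72 * Vw.cb ^ 2 / (r' * (s2 - (r1 + Vw.eta)) ^ 2) + 6 / r') * Vw.q := by
    have e1 : 8 * (9 * Vw.cb ^ 2) / (r' * (s2 - s) ^ 2) = 72 * Vw.cb ^ 2 / (r' * (s2 - (r1 + Vw.eta)) ^ 2) := by
      rw [hs]
      ring
    rw [e1]
    exact mul_le_mul_of_nonneg_left Vw.D1q (by positivity)
  refine le_trans (Pm.Pr_mono fun u hu => ?_) (key.trans (add_le_add le_rfl hkey2))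
  rintro ⟨t, ht, h1⟩
  refine ⟨t, ht, ?_⟩
  have h2 : Pm.ce (Kn i (ex N t)) (fun v => ind (s2 + Vw.eta ≤ |T t v|)) u =
      Pm.ce (knq (xq i) (Qqn i h) univ t) (fun v => ind (s2 + Vw.eta ≤ |T t v|)) u := by
    refine Pm.ce_congr_map ?_ ?_ _ u
    · exact (Kn_fac_Z i h (ex N t)).trans (Z_knq i h univ t)
    · exact (knq_Z i h t).trans (Z_fac_Kn i h (ex N t))
  rw [h2] at h1
  have h3 : Pm.ce (knq (xq i) (Qqn i h) univ t) (fun v => ind (s2 + Vw.eta ≤ |T t v|)) u ≤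
      Pm.ce (knq (xq i) (Qqn i h) univ t) (fun v => ind (Vw.utd t v ∧ s2 + Vw.eta ≤ |T t v|)) u +
      Pm.ce (knq (xq i) (Qqn i h) univ t) (fun v => ind (¬ Vw.utd t v)) u := by
    rw [← Pm.ce_add]
    refine Pm.ce_mono (fun v _ => ?_) u
    by_cases h4 : s2 + Vw.eta ≤ |T t v|
    · by_cases h5 : Vw.utd t v
      · rw [ind_of h4, ind_of (⟨h5, h4⟩ : Vw.utd t v ∧ s2 + Vw.eta ≤ |T t v|)]
        have := ind_nonneg (¬ Vw.utd t v)
        linarith
      · rw [ind_of h4, ind_of h5]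
        have := ind_nonneg (Vw.utd t v ∧ s2 + Vw.eta ≤ |T t v|)
        linarith
    · rw [ind_not h4]
      exact add_nonneg (ind_nonneg _) (ind_nonneg _)
  have h4 : Pm.ce (knq (xq i) (Qqn i h) univ t) (fun v => ind (¬ Vw.utd t v)) u ≤ Vw.a6 :=
    Vw.utdc t (Z_knq i h univ t) u hu
  linarith

/-- **THEOREM CM IN THE MODEL**.  `V` = a view without noise (labels `l : L`, `S l ≠ univ`) of the process `T`, known face
frozen, with at most `exp hv` values of the published labels at every node.  If for every `J ≠ univ` the set `J` is cold for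
`T` (hidden vertex not known) up to a probability `X ^ (-c2)`, with accuracy `X ^ (-C)`, then the set of all known vertices is
cold up to a probability `X ^ (-e0)` and the errors `V.q` of the view, multiplied by a number which does not depend on `X`. -/
theorem coldM (K b e0 : ℕ) (hK1 : 1 ≤ K) : ∃ C c2 : ℕ, ∀ (X : ℕ), 2 ≤ X → ∀ {k N : ℕ} {ι Θ P : Type} [Fintype ι]
    [DecidableEq ι] [Fintype Θ] [Nonempty Θ] [Fintype P] [Nonempty P] {L : Type} [Fintype L] [DecidableEq L] {i : ι} {h : ℕ}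
    {S : L → Finset {j : ι // j ≠ i}} {T : ℕ → Sq k N ι Θ P → ℝ} {che zr : ℕ → Sq k N ι Θ P → Prop}
    (Vw : MV k N ι Θ P i h S T che zr), N ≤ k → (∀ l, S l ≠ univ) → (∀ t w, che t w → zr t w) →
    Fintype.card {j : ι // j ≠ i} = K → ∀ {hv : ℝ}, 0 ≤ hv →
    (∀ l t w, (nv Pm (Vw.pl l t) (KJ i h (S l) (ex N t)) w : ℝ) ≤ Real.exp hv) →
    Fintype.card L * hv ≤ X → Fintype.card L * (2 * Vw.hb) ≤ X → Fintype.card L * Vw.J ≤ (X : ℝ) ^ (b : ℤ) →
    9 * Vw.cb ^ 2 ≤ (X : ℝ) ^ (b : ℤ) → Fintype.card ι ≤ b → ∀ {r1 s2 σ1 : ℝ}, 0 ≤ r1 → r1 + Vw.eta < s2 →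
    1 / (s2 - (r1 + Vw.eta)) ^ 2 ≤ (X : ℝ) ^ (b : ℤ) → 0 ≤ σ1 → σ1 + Vw.a6 ≤ (X : ℝ) ^ (-(C : ℤ)) →
    (∀ J : Finset {j : ι // j ≠ i}, J ≠ univ → (Pm : FP (Sq k N ι Θ P)).Pr (fun u => ∃ t ≤ N,
      σ1 < Pm.ce (KJ i h J (ex N t)) (fun v => ind (r1 ≤ |T t v|)) u) ≤ (X : ℝ) ^ (-(c2 : ℤ))) →
    ∀ {r' : ℝ}, 0 < r' → 1 / r' ≤ (X : ℝ) ^ (e0 : ℤ) →
    (Pm : FP (Sq k N ι Θ P)).Pr (fun u => ∃ t ≤ N, r' + Vw.a6 ≤
      Pm.ce (Kn i (ex N t)) (fun v => ind (s2 + Vw.eta ≤ |T t v|)) u) ≤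
      (X : ℝ) ^ (-(e0 : ℤ)) + (72 * Vw.cb ^ 2 / (r' * (s2 - (r1 + Vw.eta)) ^ 2) + 6 / r') * Vw.q := by
  set c2 : ℕ := 6 * b + 6 * K + 3 * e0 + 14 + cMin K with hc2
  obtain ⟨C, hC⟩ := nums_exist K (2 * c2) hK1
  refine ⟨C + 2 * c2, c2, ?_⟩
  intro X hX k N ι Θ P _ _ _ _ _ _ L _ _ i h S T che zr Vw hN hS hcz hK hv hv0 hnv hX1 hX2 hX3 hX4 hX5 r1 s2 σ1 hr1 hs2 hX6
    hσ0 hσ hcold r' hr' hr'e
  obtain ⟨n, hn⟩ := hC X hX
  refine coldM_num (c2 := c2) Vw hN hS hcz hn hK hK1 hX rfl (by omega) hv0 hnv hX1 hX2 hX3 hX4 hX5 hr1 hs2 hX6 hσ0 ?_ hcold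
    hr' hr'e (by omega)
  refine hσ.trans (le_of_eq ?_)
  push_cast
  rfl

/-- theorem CM in the model, for a view with a bound for the number of values -/
theorem coldMn (K b e0 : ℕ) (hK1 : 1 ≤ K) : ∃ C c2 : ℕ, ∀ (X : ℕ), 2 ≤ X → ∀ {k N : ℕ} {ι Θ P : Type} [Fintype ι]
    [DecidableEq ι] [Fintype Θ] [Nonempty Θ] [Fintype P] [Nonempty P] {L : Type} [Fintype L] [DecidableEq L] {i : ι} {h : ℕ}
    {S : L → Finset {j : ι // j ≠ i}} {T : ℕ → Sq k N ι Θ P → ℝ} {che zr : ℕ → Sq k N ι Θ P → Prop}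
    (Vw : MVn k N ι Θ P i h S T che zr), N ≤ k → (∀ l, S l ≠ univ) → (∀ t w, che t w → zr t w) →
    Fintype.card {j : ι // j ≠ i} = K → 0 ≤ Vw.nvb → Fintype.card L * Vw.nvb ≤ X → Fintype.card L * (2 * Vw.hb) ≤ X →
    Fintype.card L * Vw.J ≤ (X : ℝ) ^ (b : ℤ) → 9 * Vw.cb ^ 2 ≤ (X : ℝ) ^ (b : ℤ) → Fintype.card ι ≤ b →
    ∀ {r1 s2 σ1 : ℝ}, 0 ≤ r1 → r1 + Vw.eta < s2 →
    1 / (s2 - (r1 + Vw.eta)) ^ 2 ≤ (X : ℝ) ^ (b : ℤ) → 0 ≤ σ1 → σ1 + Vw.a6 ≤ (X : ℝ) ^ (-(C : ℤ)) →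
    (∀ J : Finset {j : ι // j ≠ i}, J ≠ univ → (Pm : FP (Sq k N ι Θ P)).Pr (fun u => ∃ t ≤ N,
      σ1 < Pm.ce (KJ i h J (ex N t)) (fun v => ind (r1 ≤ |T t v|)) u) ≤ (X : ℝ) ^ (-(c2 : ℤ))) →
    ∀ {r' : ℝ}, 0 < r' → 1 / r' ≤ (X : ℝ) ^ (e0 : ℤ) →
    (Pm : FP (Sq k N ι Θ P)).Pr (fun u => ∃ t ≤ N, r' + Vw.a6 ≤
      Pm.ce (Kn i (ex N t)) (fun v => ind (s2 + Vw.eta ≤ |T t v|)) u) ≤
      (X : ℝ) ^ (-(e0 : ℤ)) + (72 * Vw.cb ^ 2 / (r' * (s2 - (r1 + Vw.eta)) ^ 2) + 6 / r') * Vw.q := by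
  obtain ⟨C, c2, h⟩ := coldM K b e0 hK1
  refine ⟨C, c2, ?_⟩
  intro X hX k N ι Θ P _ _ _ _ _ _ L _ _ i h' S T che zr Vw hN hS hcz hK hv0 hX1 hX2 hX3 hX4 hX5 r1 s2 σ1 hr1 hs2 hX6 hσ0 hσ
    hcold r' hr' hr'e
  exact h X hX Vw.toGV hN hS hcz hK hv0 Vw.nvle hX1 hX2 hX3 hX4 hX5 hr1 hs2 hX6 hσ0 hσ hcold hr' hr'e

end

end Pool.Agent.GMM
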