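import Pool.Agent.GM.RdHyp
import Pool.Agent.M3.RdPull

/-!
# GM/Pic: private coins and reindexing of the vertices in the model `Sq` (port of the end of M3/RdPull), helper51

* `pic : Sq k N ι Θ (Ξ × Ci) → Sq k N ι Θ Ξ` forgets the private coins, `coin` = the coins of all vertices; `coinEquiv`,
  `pulC_pic`, `pul_pic`; `vx_pic`, `Zn_pic`, `Yn_pic`, `Gm_pic`, `Qn_pic`, `Dg_pic`; `ce_Kn_pic`, `ce_KJ_pic`;
* `re σ : Sq k N ι Θ P ≃ M3.Mod.Sp k N 3 Θ P` for `σ : Fin 3 ≃ ι`; `pul_re`; `vx_re`, `Zn_re`, `Qn_re`.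
-/

set_option autoImplicit false
set_option linter.unusedSectionVars false

namespace Pool.Agent.GM

open Finset Pool.Agent.PWZ Pool.Agent.M3 Pool.Agent.M3.Bin
open Pool.Agent.M3.Mod (ex nd)

variable {k N : ℕ} {ι Θ Ξ Ci P : Type}

/-- forget the private coins -/
def pic (ω : Sq k N ι Θ (Ξ × Ci)) : Sq k N ι Θ Ξ := (ω.1, (fun i => ((ω.2.1 i).1.1, (ω.2.1 i).2)), ω.2.2)

/-- the private coins -/
def coin (ω : Sq k N ι Θ (Ξ × Ci)) : ι → Ci := fun i => (ω.2.1 i).1.2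

/-- both -/
def coinEquiv : Sq k N ι Θ (Ξ × Ci) ≃ Sq k N ι Θ Ξ × (ι → Ci) where
  toFun ω := (pic ω, coin ω)
  invFun q := (q.1.1, (fun i => (((q.1.2.1 i).1, q.2 i), (q.1.2.1 i).2)), q.1.2.2)
  left_inv _ := rfl
  right_inv _ := rfl

theorem vx_pic (i : ι) (ω : Sq k N ι Θ (Ξ × Ci)) : vx i (pic ω) = ((vx i ω).1.1, (vx i ω).2) := rfl
theorem th_pic (ω : Sq k N ι Θ (Ξ × Ci)) : th (pic ω) = th ω := rfl
theorem nz_pic (ω : Sq k N ι Θ (Ξ × Ci)) : nz (pic ω) = nz ω := rfl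
theorem Zn_pic (i : ι) (e : ℕ) (ω : Sq k N ι Θ (Ξ × Ci)) : Zn i e (pic ω) = Zn i e ω := rfl
theorem Dg_pic (e : ℕ) (ω : Sq k N ι Θ (Ξ × Ci)) : Dg e (pic ω) = Dg e ω := rfl
theorem sc_pic (h e : ℕ) (i : ι) (ω : Sq k N ι Θ (Ξ × Ci)) : sc h e i (pic ω) = sc h e i ω := rfl
theorem Qn_pic (i : ι) (h e : ℕ) (ω : Sq k N ι Θ (Ξ × Ci)) : Qn i h e (pic ω) = Qn i h e ω := rfl

section

variable [Fintype ι] [DecidableEq ι]

theorem ctr_pic (s : V k) (ω : Sq k N ι Θ (Ξ × Ci)) : ctr s (pic ω) = ctr s ω := rfl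
theorem Yn_pic (s : V k) (e : ℕ) (ω : Sq k N ι Θ (Ξ × Ci)) : Yn s e (pic ω) = Yn s e ω := rfl
theorem Gm_pic (s : V k) (h e : ℕ) (ω : Sq k N ι Θ (Ξ × Ci)) : Gm s h e (pic ω) = Gm s h e ω := rfl

/-- `Kn` with coins = `Kn` without coins and the coins of the others -/
theorem Kn_to_pic (i : ι) (e : ℕ) : Fac (Kn (k := k) (N := N) (Θ := Θ) (P := Ξ × Ci) i e)
    (fun ω => (Kn i e (pic ω), (fun j : {j : ι // j ≠ i} => coin ω j.1))) := by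
  intro v w hv
  unfold Kn at hv
  simp only [Prod.mk.injEq] at hv
  obtain ⟨h1, h2, h3⟩ := hv
  have h4 : ∀ j : {j : ι // j ≠ i}, vx j.1 v = vx j.1 w := fun j => congrFun h3 j
  refine Prod.ext (Prod.ext h1 (Prod.ext h2 (funext fun j => ?_))) (funext fun j => ?_)
  · show vx j.1 (pic v) = vx j.1 (pic w)
    rw [vx_pic, vx_pic, h4 j]
  · show (vx j.1 v).1.2 = (vx j.1 w).1.2
    rw [h4 j]

theorem vx_of_pic {j : ι} {v w : Sq k N ι Θ (Ξ × Ci)} (h1 : vx j (pic v) = vx j (pic w)) (h2 : coin v j = coin w j) :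
    vx j v = vx j w := by
  rw [vx_pic, vx_pic, Prod.mk.injEq] at h1
  exact Prod.ext (Prod.ext h1.1 h2) h1.2

theorem Kn_of_pic (i : ι) (e : ℕ) : Fac
    (fun ω : Sq k N ι Θ (Ξ × Ci) => (Kn i e (pic ω), (fun j : {j : ι // j ≠ i} => coin ω j.1))) (Kn i e) := by
  intro v w hv
  simp only [Prod.mk.injEq] at hv
  obtain ⟨h0, h5⟩ := hv
  unfold Kn at h0
  simp only [Prod.mk.injEq] at h0
  obtain ⟨h1, h2, h3⟩ := h0
  refine Prod.ext h1 (Prod.ext h2 (funext fun j => ?_))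
  exact vx_of_pic (congrFun h3 j) (congrFun h5 j)

theorem KJ_to_pic (i : ι) (h : ℕ) (J : Finset {j : ι // j ≠ i}) (e : ℕ) :
    Fac (KJ (k := k) (N := N) (Θ := Θ) (P := Ξ × Ci) i h J e)
      (fun ω => (KJ i h J e (pic ω), (fun j : {a // a ∈ J} => coin ω j.1.1))) := by
  intro v w hv
  rw [KJ_eq] at hv
  refine Prod.ext ?_ (funext fun j => ?_)
  · show KJ i h J e (pic v) = KJ i h J e (pic w)
    rw [KJ_eq]
    refine ⟨fun a ha => ?_, hv.2⟩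
    rw [vx_pic, vx_pic, hv.1 a ha]
  · show (vx j.1.1 v).1.2 = (vx j.1.1 w).1.2
    rw [hv.1 j.1 j.2]

theorem KJ_of_pic (i : ι) (h : ℕ) (J : Finset {j : ι // j ≠ i}) (e : ℕ) :
    Fac (fun ω : Sq k N ι Θ (Ξ × Ci) => (KJ i h J e (pic ω), (fun j : {a // a ∈ J} => coin ω j.1.1)))
      (KJ i h J e) := by
  intro v w hv
  simp only [Prod.mk.injEq] at hv
  obtain ⟨h0, h5⟩ := hv
  rw [KJ_eq] at h0
  rw [KJ_eq]
  exact ⟨fun a ha => vx_of_pic (h0.1 a ha) (congrFun h5 ⟨a, ha⟩), h0.2⟩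

section law

variable [Fintype Θ] [Nonempty Θ] [Fintype Ξ] [Nonempty Ξ] [Fintype Ci] [Nonempty Ci]

theorem pulC_pic : PulC (Pm (k := k) (N := N) (ι := ι) (Θ := Θ) (P := Ξ × Ci)) (Pm (P := Ξ)) pic
    (FP.unif (ι → Ci)) coin :=
  pulC_unif (coinEquiv (k := k) (N := N) (ι := ι) (Θ := Θ) (Ξ := Ξ) (Ci := Ci))

theorem pul_pic : Pul (Pm (k := k) (N := N) (ι := ι) (Θ := Θ) (P := Ξ × Ci)) (Pm (P := Ξ)) pic := pulC_pic.pul

/-- the coins of the known vertices do not matter -/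
theorem ce_Kn_pic (i : ι) (e : ℕ) (q : Sq k N ι Θ Ξ → ℝ) (ω : Sq k N ι Θ (Ξ × Ci)) :
    Pm.ce (Kn i e) (fun v => q (pic v)) ω = Pm.ce (Kn i e) q (pic ω) := by
  rw [Pm.ce_congr_map (Kn_to_pic i e) (Kn_of_pic i e)]
  exact pulC_pic.ce (Kn i e) (fun a => fun j : {j : ι // j ≠ i} => a j.1) q (Pm_ne ω)

theorem ce_KJ_pic (i : ι) (h : ℕ) (J : Finset {j : ι // j ≠ i}) (e : ℕ) (q : Sq k N ι Θ Ξ → ℝ)
    (ω : Sq k N ι Θ (Ξ × Ci)) :
    Pm.ce (KJ i h J e) (fun v => q (pic v)) ω = Pm.ce (KJ i h J e) q (pic ω) := by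
  rw [Pm.ce_congr_map (KJ_to_pic i h J e) (KJ_of_pic i h J e)]
  exact pulC_pic.ce (KJ i h J e) (fun a => fun j : {a // a ∈ J} => a j.1.1) q (Pm_ne ω)

end law

end

/-! ## reindexing: three vertices -/

/-- the sample point with the vertices numbered by `σ : Fin 3 ≃ ι` -/
def re (σ : Fin 3 ≃ ι) : Sq k N ι Θ P ≃ M3.Mod.Sp k N 3 Θ P where
  toFun ω := (ω.1, (fun a => ω.2.1 (σ a)), ω.2.2)
  invFun q := (q.1, (fun a => q.2.1 (σ.symm a)), q.2.2)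
  left_inv ω := Prod.ext rfl (Prod.ext (funext fun a => by simp) rfl)
  right_inv q := Prod.ext rfl (Prod.ext (funext fun a => by simp) rfl)

theorem vx_re (σ : Fin 3 ≃ ι) (a : Fin 3) (ω : Sq k N ι Θ P) : M3.Mod.vx a (re σ ω) = vx (σ a) ω := rfl
theorem th_re (σ : Fin 3 ≃ ι) (ω : Sq k N ι Θ P) : M3.Mod.th (re σ ω) = th ω := rfl
theorem nz_re (σ : Fin 3 ≃ ι) (ω : Sq k N ι Θ P) : M3.Mod.nz (re σ ω) = nz ω := rfl
theorem Zn_re (σ : Fin 3 ≃ ι) (a : Fin 3) (e : ℕ) (ω : Sq k N ι Θ P) : M3.Mod.Zn a e (re σ ω) = Zn (σ a) e ω := rfl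
theorem Dg_re (σ : Fin 3 ≃ ι) (e : ℕ) (ω : Sq k N ι Θ P) : M3.Mod.Dg e (re σ ω) = Dg e ω := rfl
theorem pic_re (σ : Fin 3 ≃ ι) (ω : Sq k N ι Θ (Ξ × Ci)) : M3.Mod.pic (re σ ω) = re σ (pic ω) := rfl

theorem vx_re_symm (σ : Fin 3 ≃ ι) (a : Fin 3) (q : M3.Mod.Sp k N 3 Θ P) :
    vx (σ a) ((re σ).symm q) = M3.Mod.vx a q := by
  have := vx_re σ a ((re σ).symm q)
  rw [Equiv.apply_symm_apply] at this
  exact this.symm

/-- the public nodes correspond -/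
theorem Qn_re [Fintype ι] [DecidableEq ι] (σ : Fin 3 ≃ ι) (a : Fin 3) (h e : ℕ) (v w : Sq k N ι Θ P) :
    M3.Mod.Qn a h e (re σ v) = M3.Mod.Qn a h e (re σ w) ↔ Qn (σ a) h e v = Qn (σ a) h e w := by
  rw [Qn_eq]
  unfold M3.Mod.Qn
  rw [Prod.ext_iff, Prod.ext_iff]
  refine and_congr_right fun _ => and_congr_right fun _ => ?_
  constructor
  · intro hq b hb
    have h1 := congrFun hq ⟨σ.symm b, fun h2 => hb (by rw [← h2, Equiv.apply_symm_apply])⟩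
    have h2 : sc h e (σ (σ.symm b)) v = sc h e (σ (σ.symm b)) w := h1
    rwa [Equiv.apply_symm_apply] at h2
  · intro hq
    funext b
    exact hq (σ b.1) fun h1 => b.2 (σ.injective h1)

section law

variable [Fintype ι] [DecidableEq ι] [Fintype Θ] [Nonempty Θ] [Fintype P] [Nonempty P]

theorem pul_re (σ : Fin 3 ≃ ι) : Pul (Pm (k := k) (N := N) (ι := ι) (Θ := Θ) (P := P)) M3.Mod.Pm (re σ) where
  E := fun h => by
    show (FP.unif (Sq k N ι Θ P)).E (fun w => h (re σ w)) = (FP.unif (M3.Mod.Sp k N 3 Θ P)).E h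
    rw [FP.unif_E, FP.unif_E, Equiv.sum_comp (re σ) h, Fintype.card_congr (re (k := k) (N := N) (Θ := Θ) (P := P) σ)]

end law

end Pool.Agent.GM
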