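import Pool.Agent.GM.RelocC
import Pool.Agent.GM.CMcDef
import Pool.Agent.GM.Pic
import Pool.Agent.GM.CMView
import Pool.Agent.GM.CMNum
import Pool.Agent.GM.ColdM

/-!
# GM/CMBin (helper45): the cold sets of `j - 1` vertices from the names and theorem CM (row A10c)

* `CMB.pulC_p2`, `CMB.ce_Kn_p2`, `CMB.ce_KJ_p2` : the coins of the names do not matter;
* `CMB.nmv_once`, `CMB.facesN_of_C` : the faces of the natural view of `w` are the faces of the names of the view `w`;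
* `HotIn j κ c c1 C` : the cold inputs, all sets `J ≠ univ` of known vertices;
* **`coldAt_core`** : one natural view, `NamAt` and the cold inputs give `GS.ColdAt` (coins allowed);
* **`cmFineH_of`** : `NamBin j κ c0 c D → HotIn j κ c c1 C → CMFineH j κ c C`.
-/

set_option autoImplicit false
set_option linter.unusedSectionVars false

namespace Pool.Agent.GM

open Finset Pool.Agent.PWZ Pool.Agent.M3 Pool.Agent.M3.TS Pool.Agent.M3.Bin Pool.Agent.GM.Mv Pool.Agent.GM.KVer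
open Pool.Agent.M3.Mod (ex)

noncomputable section

namespace CMB

/-! ## the coins of the names -/

section p2

variable {k N : ℕ} {ι Θ Ξ Ξ2 Q : Type}

/-- the coins of the names -/
def co2 (ω : Sq k N ι Θ ((Ξ × Ξ2) × Q)) : ι → Ξ2 := fun i => (ω.2.1 i).1.1.2

/-- both -/
def co2Equiv : Sq k N ι Θ ((Ξ × Ξ2) × Q) ≃ Sq k N ι Θ (Ξ × Q) × (ι → Ξ2) where
  toFun ω := (p2 ω, co2 ω)
  invFun q := (q.1.1, (fun i => ((((q.1.2.1 i).1.1, q.2 i), (q.1.2.1 i).1.2), (q.1.2.1 i).2)), q.1.2.2)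
  left_inv _ := rfl
  right_inv _ := rfl

theorem vx_p2 (i : ι) (ω : Sq k N ι Θ ((Ξ × Ξ2) × Q)) : vx i (p2 ω) = (((vx i ω).1.1.1, (vx i ω).1.2), (vx i ω).2) := rfl
theorem Qn_p2 (i : ι) (h e : ℕ) (ω : Sq k N ι Θ ((Ξ × Ξ2) × Q)) : Qn i h e (p2 ω) = Qn i h e ω := rfl

theorem vx_of_p2 {j : ι} {v w : Sq k N ι Θ ((Ξ × Ξ2) × Q)} (h1 : vx j (p2 v) = vx j (p2 w)) (h2 : co2 v j = co2 w j) :
    vx j v = vx j w := by
  rw [vx_p2, vx_p2, Prod.mk.injEq, Prod.mk.injEq] at h1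
  exact Prod.ext (Prod.ext (Prod.ext h1.1.1 h2) h1.1.2) h1.2

variable [Fintype ι] [DecidableEq ι]

theorem Kn_to_p2 (i : ι) (e : ℕ) : Fac (Kn (k := k) (N := N) (Θ := Θ) (P := (Ξ × Ξ2) × Q) i e)
    (fun ω => (Kn i e (p2 ω), (fun j : {j : ι // j ≠ i} => co2 ω j.1))) := by
  intro v w hv
  unfold Kn at hv
  simp only [Prod.mk.injEq] at hv
  obtain ⟨h1, h2, h3⟩ := hv
  have h4 : ∀ j : {j : ι // j ≠ i}, vx j.1 v = vx j.1 w := fun j => congrFun h3 j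
  refine Prod.ext (Prod.ext h1 (Prod.ext h2 (funext fun j => ?_))) (funext fun j => ?_)
  · show vx j.1 (p2 v) = vx j.1 (p2 w)
    rw [vx_p2, vx_p2, h4 j]
  · show (vx j.1 v).1.1.2 = (vx j.1 w).1.1.2
    rw [h4 j]

theorem Kn_of_p2 (i : ι) (e : ℕ) : Fac
    (fun ω : Sq k N ι Θ ((Ξ × Ξ2) × Q) => (Kn i e (p2 ω), (fun j : {j : ι // j ≠ i} => co2 ω j.1))) (Kn i e) := by
  intro v w hv
  simp only [Prod.mk.injEq] at hv
  obtain ⟨h0, h5⟩ := hv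
  unfold Kn at h0
  simp only [Prod.mk.injEq] at h0
  obtain ⟨h1, h2, h3⟩ := h0
  refine Prod.ext h1 (Prod.ext h2 (funext fun j => ?_))
  exact vx_of_p2 (congrFun h3 j) (congrFun h5 j)

theorem KJ_to_p2 (i : ι) (h : ℕ) (J : Finset {j : ι // j ≠ i}) (e : ℕ) :
    Fac (KJ (k := k) (N := N) (Θ := Θ) (P := (Ξ × Ξ2) × Q) i h J e)
      (fun ω => (KJ i h J e (p2 ω), (fun j : {a // a ∈ J} => co2 ω j.1.1))) := by
  intro v w hv
  rw [KJ_eq] at hv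
  refine Prod.ext ?_ (funext fun j => ?_)
  · show KJ i h J e (p2 v) = KJ i h J e (p2 w)
    rw [KJ_eq]
    refine ⟨fun a ha => ?_, hv.2⟩
    rw [vx_p2, vx_p2, hv.1 a ha]
  · show (vx j.1.1 v).1.1.2 = (vx j.1.1 w).1.1.2
    rw [hv.1 j.1 j.2]

theorem KJ_of_p2 (i : ι) (h : ℕ) (J : Finset {j : ι // j ≠ i}) (e : ℕ) :
    Fac (fun ω : Sq k N ι Θ ((Ξ × Ξ2) × Q) => (KJ i h J e (p2 ω), (fun j : {a // a ∈ J} => co2 ω j.1.1)))
      (KJ i h J e) := by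
  intro v w hv
  simp only [Prod.mk.injEq] at hv
  obtain ⟨h0, h5⟩ := hv
  rw [KJ_eq] at h0
  rw [KJ_eq]
  exact ⟨fun a ha => vx_of_p2 (h0.1 a ha) (congrFun h5 ⟨a, ha⟩), h0.2⟩

variable [Fintype Θ] [Nonempty Θ] [Fintype Ξ] [Nonempty Ξ] [Fintype Ξ2] [Nonempty Ξ2] [Fintype Q] [Nonempty Q]

theorem pulC_p2 : PulC (Pm (k := k) (N := N) (ι := ι) (Θ := Θ) (P := (Ξ × Ξ2) × Q)) (Pm (P := Ξ × Q)) p2
    (FP.unif (ι → Ξ2)) co2 :=
  pulC_unif (co2Equiv (k := k) (N := N) (ι := ι) (Θ := Θ) (Ξ := Ξ) (Ξ2 := Ξ2) (Q := Q))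

theorem pul_p2 : Pul (Pm (k := k) (N := N) (ι := ι) (Θ := Θ) (P := (Ξ × Ξ2) × Q)) (Pm (P := Ξ × Q)) p2 := pulC_p2.pul

theorem ce_Kn_p2 (i : ι) (e : ℕ) (q : Sq k N ι Θ (Ξ × Q) → ℝ) (ω : Sq k N ι Θ ((Ξ × Ξ2) × Q)) :
    Pm.ce (Kn i e) (fun v => q (p2 v)) ω = Pm.ce (Kn i e) q (p2 ω) := by
  rw [Pm.ce_congr_map (Kn_to_p2 i e) (Kn_of_p2 i e)]
  exact pulC_p2.ce (Kn i e) (fun a => fun j : {j : ι // j ≠ i} => a j.1) q (Pm_ne ω)

theorem ce_KJ_p2 (i : ι) (h : ℕ) (J : Finset {j : ι // j ≠ i}) (e : ℕ) (q : Sq k N ι Θ (Ξ × Q) → ℝ)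
    (ω : Sq k N ι Θ ((Ξ × Ξ2) × Q)) :
    Pm.ce (KJ i h J e) (fun v => q (p2 v)) ω = Pm.ce (KJ i h J e) q (p2 ω) := by
  rw [Pm.ce_congr_map (KJ_to_p2 i h J e) (KJ_of_p2 i h J e)]
  exact pulC_p2.ce (KJ i h J e) (fun a => fun j : {a // a ∈ J} => a j.1.1) q (Pm_ne ω)

end p2

/-! ## the faces -/

section faces

variable {ι Om Ξ Pt V Γ κ : Type} [Fintype ι] [DecidableEq ι] [Fintype Om] [Fintype Ξ] [Fintype Pt]
  [Fintype V] {S : Sys ι Om Ξ Pt V Γ κ}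

/-- a face with one introduction moves at most once -/
theorem nmv_once {f : Mov Ξ ι Pt Γ (V → ℝ)}
    (h : ∀ t ω, S.at' f (t + 1) ω = S.at' f t ω ∨ S.at' f t ω = 0) (n : ℕ) (ω : Om) : S.nmv f n ω ≤ 1 := by
  have key : ∀ n, (S.at' f n ω = 0 → S.nmv f n ω = 0) ∧ S.nmv f n ω ≤ 1 := by
    intro n
    induction n with
    | zero =>
      have : S.nmv f 0 ω = 0 := by
        unfold Sys.nmv
        rw [Finset.range_zero, Finset.sum_empty]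
      rw [this]
      exact ⟨fun _ => rfl, zero_le_one⟩
    | succ n ih =>
      have h2 : S.nmv f (n + 1) ω = S.nmv f n ω + ind (S.at' f (n + 1) ω ≠ S.at' f n ω) := by
        unfold Sys.nmv
        rw [Finset.sum_range_succ]
      by_cases hz : S.at' f n ω = 0
      · have h3 := ih.1 hz
        rw [h2, h3, zero_add]
        refine ⟨fun h4 => ?_, ind_le_one _⟩
        rw [ind_not]
        rw [h4, hz]
        exact not_not.2 rfl
      · have h3 : S.at' f (n + 1) ω = S.at' f n ω := (h n ω).resolve_right hz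
        rw [h2, ind_not (not_not.2 h3), add_zero]
        exact ⟨fun h4 => absurd (h3.symm.trans h4) hz, ih.2⟩
  exact (key n).2

/-- the natural view: the faces of the names -/
theorem facesN_of_C {w δ : ι} {F : ι → Mov Ξ ι Pt Γ (V → ℝ)} {m M θ acc : ℝ} (H : GS.FacesCc S w δ F m M θ acc)
    (_ : w ≠ δ) (hm : 1 < m) (hM : 1 ≤ M) : FacesN S δ w F m M := by
  classical
  have h1 := nmv_once (S := S) H.once
  refine ⟨H.dep, fun i hi => H.coin i hi, H.bd, H.zero, fun i => ?_, fun i => ?_, fun i => ?_, fun n ω => (h1 n ω).trans hM⟩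
  · by_cases hi : i = w
    · subst hi
      intro t φ _ hφ0
      have h2 : ∑ u ∈ Finset.Ico t S.n, S.P.E (fun ω => φ ω * ind (S.at' (F i) (u + 1) ω ≠ S.at' (F i) u ω)) ≤
          S.P.E φ := by
        rw [← FP.E_sum S.P (Finset.Ico t S.n) fun u ω => φ ω * ind (S.at' (F i) (u + 1) ω ≠ S.at' (F i) u ω)]
        refine S.P.E_mono fun ω _ => ?_
        rw [← Finset.mul_sum]
        refine mul_le_of_le_one_right (hφ0 ω) (le_trans ?_ (h1 S.n ω))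
        unfold Sys.nmv
        refine Finset.sum_le_sum_of_subset_of_nonneg (fun u hu => ?_) fun _ _ _ => ind_nonneg _
        rw [Finset.mem_range]
        exact (Finset.mem_Ico.1 hu).2
      refine h2.trans (le_mul_of_one_le_left (S.P.E_nonneg fun ω _ => hφ0 ω) hM)
    · exact H.fut i hi
  · by_cases hi : i = w
    · subst hi
      intro k
      rcases Nat.eq_zero_or_pos k with hk | hk
      · subst hk
        rw [pow_zero]
        exact S.P.Pr_le_one _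
      · refine le_trans (S.P.E_mono (g := fun _ => (0 : ℝ)) fun ω _ => ?_) ?_
        · refine le_of_eq (ind_not fun h4 => ?_)
          have h5 : (1 : ℝ) ≤ (k : ℝ) := by exact_mod_cast hk
          have h6 : m ≤ (k : ℝ) * m := le_mul_of_one_le_left (by linarith) h5
          have h7 := h1 S.n ω
          linarith
        · rw [S.P.E_const]
          positivity
    · exact H.tail i hi
  · by_cases hi : i = w
    · subst hi
      refine le_trans (S.P.E_mono fun ω _ => h1 S.n ω) ?_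
      rw [S.P.E_const]
      exact hm.le
    · exact H.mean i hi

/-- the structured face does not depend on the vertex of the coins -/
def strT_coin {Vj : Finset ι} {δ q : ι} {F : Mov Ξ ι Pt Γ (V → ℝ)} {m M T : ℝ} (H : GS.StrT S Vj δ q F m M T) :
    GS.StrT S Vj q q F m M T where
  e0 := H.e0
  e1 := H.e1
  pe0 := H.pe0
  pe1 := H.pe1
  b0 := H.b0
  b1 := H.b1
  coin0 h := absurd rfl h
  coin1 h := absurd rfl h
  eq := H.eq

end faces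

end CMB

/-- **THE COLD INPUTS of the natural view of `w`**: all sets `J ≠ univ` of known vertices, the hidden vertex is not known -/
def HotIn (j : ℕ) (κ : ℝ) (c c1 C : ℕ) : Prop :=
  ∀ (ι Θ Ξ Q : Type) [Fintype ι] [DecidableEq ι] [Fintype Θ] [Nonempty Θ] [Fintype Ξ] [Nonempty Ξ] [Fintype Q]
    [Nonempty Q] (k N : ℕ) (σ : V k) (w q : ι) (hN : N ≤ k) (h : ℕ), Fintype.card ι = j → q ≠ w →
    ∀ β H Λ : ℝ, 0 < β → β ≤ 1 / 2 → 1 / β ≤ H → (binSys Θ Ξ Q σ w hN h).K ≤ Real.exp (H ^ (c + 2)) →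
      (binSys Θ Ξ Q σ w hN h).near ≤ Real.exp (-H ^ c) → H ^ C ≤ Λ → Λ ≤ Real.exp H →
      ∀ F : ι → Mov Ξ ι (Q × V k) (Θ × (V k × ℕ)) (V k → ℝ),
        GS.FacesC (binSys Θ Ξ Q σ w hN h) w F (4 * H) (Real.exp (H ^ (c + 2))) (Real.exp (-Λ)) (β ^ C) →
        Nonempty (GS.StrT (binSys Θ Ξ Q σ w hN h) univ w q (F q) (4 * H) (Real.exp (H ^ (c + 2)))
          (H * Real.exp ((1 + κ) * Λ))) →
        ∀ h' : ℕ, h ≤ h' → h' ≤ h + Fintype.card ι → ∀ J : Finset {v : ι // v ≠ w}, J ≠ univ →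
          (PM k N ι Θ Ξ Q).Pr (fun u => ∃ t ≤ N, Real.exp (-H ^ c1) < (PM k N ι Θ Ξ Q).ce (KJ w h' J (Mod.ex N t))
            (fun v => ind (β ^ 2 ≤ |pT (binSys Θ Ξ Q σ w hN h) univ F t v|)) u) ≤ Real.exp (-H ^ c1)

/-- **ONE NATURAL VIEW**: the names and the cold inputs give the cold set; the coin of the hidden vertex may be seen by `δ` -/
theorem coldAt_core (j : ℕ) (hj : 2 ≤ j) : ∃ c00 : ℕ, ∀ c0 ≥ c00, ∀ D : ℕ, ∃ c1 : ℕ, ∀ {ι Θ Ξ Q : Type} [Fintype ι]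
    [DecidableEq ι] [Fintype Θ] [Nonempty Θ] [Fintype Ξ] [Nonempty Ξ] [Fintype Q] [Nonempty Q] {k N : ℕ} {σ : V k} {w δ : ι}
    {hN : N ≤ k} {h : ℕ} {F : ι → Mov Ξ ι (Q × V k) (Θ × (V k × ℕ)) (V k → ℝ)}, Fintype.card ι = j →
    FacesV (binSys Θ Ξ Q σ w hN h) w F → ∀ {β H : ℝ}, 0 < β → β ≤ 1 / 2 → 1 / β ≤ H →
    NamAt σ hN h w δ F (Real.exp (-H ^ c0)) (Real.exp (-H ^ c0)) (Real.exp (H ^ D)) →
    (∀ h' : ℕ, h ≤ h' → h' ≤ h + Fintype.card ι → ∀ J : Finset {v : ι // v ≠ w}, J ≠ univ →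
      (PM k N ι Θ Ξ Q).Pr (fun u => ∃ t ≤ N, Real.exp (-H ^ c1) < (PM k N ι Θ Ξ Q).ce (KJ w h' J (Mod.ex N t))
        (fun v => ind (β ^ 2 ≤ |pT (binSys Θ Ξ Q σ w hN h) univ F t v|)) u) ≤ Real.exp (-H ^ c1)) →
    GS.ColdAt σ w hN h w F β (Real.exp (-H)) (Real.exp (-H)) := by
  obtain ⟨K, hKd⟩ : ∃ K, j = K + 1 := ⟨j - 1, by omega⟩
  have hK : 1 ≤ K := by omega
  refine ⟨K + 14, fun c0 hc0 D => ?_⟩
  obtain ⟨C0, c2, hcold⟩ := GMM.coldMn K j 1 hK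
  obtain ⟨p0, hview⟩ := cm_view K (C0 + 2) hK
  obtain ⟨c1, hc1⟩ := CMNum.numCM_exist K C0 c2 c0 D (p0 + 1) hc0 (by omega)
  refine ⟨c1, ?_⟩
  intro ι Θ Ξ Q _ _ _ _ _ _ _ _ k N σ w δ hN h F hcard hFV β H hβ hβ2 hH hN1 hHot'
  have n := hc1 H β hβ hβ2 hH
  have hcardK : Fintype.card ι = K + 1 := by rw [hcard, hKd]
  have hcK : Fintype.card {v : ι // v ≠ w} = K := by
    rw [Fintype.card_subtype_compl, Fintype.card_subtype_eq, hcardK]
    omega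
  obtain ⟨Ξ2, i1, i2, h', Vw, hh1, hh2, hnv0, hnv, hhb, hJ, ha6, hq, heta', -, hcb⟩ := hview (p0 + 1) (Nat.le_succ p0)
    hFV hcardK n.B2 n.e0 n.eB n.e0 n.e2 n.eB (Real.exp_pos _).le n.sB hN1
  have hcast : (CMNum.Bn c0 D H : ℝ) ^ (p0 + 1) = ((CMNum.Bn c0 D H ^ (p0 + 1) : ℕ) : ℝ) := (Nat.cast_pow _ _).symm
  rw [hcast] at hnv hhb hJ ha6
  have key := hcold (CMNum.Bn c0 D H ^ (p0 + 1)) n.X2 Vw hN (fun l hl => by
      have h9 := Finset.mem_univ l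
      rw [← hl] at h9
      exact absurd rfl (Finset.mem_erase.1 h9).1)
    (fun t u h8 => che_zr hFV t u h8) hcK hnv0 (by rw [hcK]; exact hnv) (by rw [hcK]; exact hhb)
    (by rw [hcK]; exact hJ.trans (n.Xb j (by omega))) (by rw [hcb]; exact n.cb j (by omega)) hcard.le
    (r1 := β ^ 2) (s2 := β - Vw.eta) (σ1 := Real.exp (-H ^ c1)) (by positivity) (n.gap _ heta')
    (n.gapX _ heta' j (by omega)) (Real.exp_pos _).le (n.sig _ ha6)
    (fun J hJ' => by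
      refine le_trans ?_ ((hHot' h' hh1 hh2 J hJ').trans n.cold)
      rw [← (CMB.pul_p2 (Ξ2 := Ξ2)).Pr (fun u => ∃ t ≤ N, Real.exp (-H ^ c1) < (PM k N ι Θ Ξ Q).ce (KJ w h' J (Mod.ex N t))
            (fun v => ind (β ^ 2 ≤ |pT (binSys Θ Ξ Q σ w hN h) univ F t v|)) u)]
      refine Pm.Pr_mono fun u _ => ?_
      rintro ⟨t, ht, h8⟩
      exact ⟨t, ht, h8.trans_le
        (CMB.ce_KJ_p2 w h' J (Mod.ex N t) (fun v => ind (β ^ 2 ≤ |pT (binSys Θ Ξ Q σ w hN h) univ F t v|)) u).le⟩)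
    n.out0 n.outX
  rw [hcb] at key
  -- the end
  refine le_trans ?_ (key.trans (n.fin _ heta' _ hq))
  rw [← (CMB.pul_p2 (Ξ2 := Ξ2)).Pr (fun ω => ∃ t ≤ N, Real.exp (-H) ≤ (PM k N ι Θ Ξ Q).ce (Kn w (Mod.ex N t))
    (fun v => ind (β ≤ |pT (binSys Θ Ξ Q σ w hN h) univ F t v|)) ω)]
  refine Pm.Pr_mono fun u _ => ?_
  rintro ⟨t, ht, h8⟩
  refine ⟨t, ht, (n.outa _ ha6).trans (h8.trans (le_of_eq ?_))⟩
  rw [sub_add_cancel]
  exact (CMB.ce_Kn_p2 w (Mod.ex N t) (fun v => ind (β ≤ |pT (binSys Θ Ξ Q σ w hN h) univ F t v|)) u).symm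

/-- **THE COLD SETS OF `j - 1` VERTICES** from the names and theorem CM -/
theorem cmFineH_of (j : ℕ) (hj : 2 ≤ j) : ∃ c00 : ℕ, ∀ c0 ≥ c00, ∀ D : ℕ, ∃ c1 : ℕ, ∀ (κ : ℝ) (c C : ℕ),
    NamBin j κ c0 c D → HotIn j κ c c1 C → Reloc.CMFineH j κ c C := by
  obtain ⟨c00, hc00⟩ := coldAt_core j hj
  refine ⟨c00, fun c0 hc0 D => ?_⟩
  obtain ⟨c1, hc1⟩ := hc00 c0 hc0 D
  refine ⟨c1, ?_⟩
  intro κ c C hNam hHot ι Θ Ξ Q _ _ _ _ _ _ _ _ k N σ w q hN h hcard hqw β H Λ hβ hβ2 hH h4 h5 h6 h7 F hF hS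
  have hHot' := hHot ι Θ Ξ Q k N σ w q hN h hcard hqw β H Λ hβ hβ2 hH h4 h5 h6 h7 F hF hS
  have hH2 : 2 ≤ H := by
    refine le_trans ?_ hH
    rw [le_div_iff₀ hβ]
    linarith
  refine hc1 (δ := q) hcard ⟨hF.dep w, hF.coin w, hF.bd, hF.once⟩ hβ hβ2 hH ?_ hHot'
  obtain ⟨hS⟩ := hS
  refine hNam ι Θ Ξ Q k N σ w q q hN h hcard hqw.symm hqw.symm H Λ hH2 h4 h5 ?_ h7 F ?_ ⟨CMB.strT_coin hS⟩
  · exact le_trans (by positivity) h6
  · exact CMB.facesN_of_C (hF.toC q) hqw.symm (by linarith) (Real.one_le_exp (by positivity))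

end

end Pool.Agent.GM
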