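import Pool.Agent.GM.MovFine
import Pool.Agent.M3.S1Tail

/-!
# GM/MovTail (helper21): the number of moves on the path

* `Sys.nmv f t ω` : number of moves of the moving object `f` before the time `t`;
* `Sys.MvTail f m` : `P(k m ≤ nmv f n) ≤ 2 ^ (-k)` for all `k`;
* `Future.tail` : `S.Future I f m0`, `f` a function of `x_I` ==> `MvTail f (1 + 2 m0)`; `Future.mean` : `E nmv ≤ m0`;
* `FineS.nmv_lift`, `FineS.tail_lift` : both are the same for the lift to a finer rounding (no loss);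

-/

set_option autoImplicit false
set_option linter.unusedSectionVars false

namespace Pool.Agent.GM

open Finset Pool.Agent.PWZ Pool.Agent.M3 Pool.Agent.M3.TS

noncomputable section

variable {ι Om Ξ Pt V Γ κ Γ' κ' : Type} [Fintype ι] [DecidableEq ι] [Fintype Om] [Fintype Ξ] [Fintype Pt]
  [Fintype V]

namespace Sys

variable (S : Sys ι Om Ξ Pt V Γ κ) {β : Type}

/-- number of moves before the time `t` -/
def nmv (f : Mov Ξ ι Pt Γ β) (t : ℕ) (ω : Om) : ℝ := ∑ u ∈ range t, ind (S.at' f (u + 1) ω ≠ S.at' f u ω)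

/-- exponential tail of the number of moves -/
def MvTail (f : Mov Ξ ι Pt Γ β) (m : ℝ) : Prop := ∀ k : ℕ, S.P.Pr (fun ω => (k : ℝ) * m ≤ S.nmv f S.n ω) ≤ (1 / 2) ^ k

variable {S}

theorem nmv_nonneg (f : Mov Ξ ι Pt Γ β) (t : ℕ) (ω : Om) : 0 ≤ S.nmv f t ω :=
  Finset.sum_nonneg fun _ _ => ind_nonneg _

theorem MvTail.mono {f : Mov Ξ ι Pt Γ β} {m m' : ℝ} (h : S.MvTail f m) (hm : m ≤ m') : S.MvTail f m' := by
  intro k
  refine (S.P.Pr_mono fun ω _ => ?_).trans (h k)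
  intro h1
  exact (mul_le_mul_of_nonneg_left hm (Nat.cast_nonneg k)).trans h1

/-- an object which moves only together with `f` -/
theorem MvTail.of_iff {β' : Type} {f : Mov Ξ ι Pt Γ β} {f' : Mov Ξ ι Pt Γ β'} {m : ℝ} (h : S.MvTail f m)
    (h1 : ∀ t w, S.at' f' (t + 1) w ≠ S.at' f' t w → S.at' f (t + 1) w ≠ S.at' f t w) : S.MvTail f' m := by
  intro k
  refine (S.P.Pr_mono fun ω _ => ?_).trans (h k)
  intro h2
  exact h2.trans (Finset.sum_le_sum fun u _ => ind_mono (h1 u ω))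

theorem stI_filt (I : Finset ι) : Filt (S.stI I) := by
  intro n v ω h
  unfold stI at h ⊢
  simp only [Prod.mk.injEq] at h ⊢
  exact ⟨h.1, h.2.1, S.gm_step n h.2.2⟩

/-- the value of a function of `x_I` -/
theorem at_fac {I : Finset ι} {f : Mov Ξ ι Pt Γ β} (hd : ∀ t g ξ, Dep I (f t g ξ)) {u t : ℕ} (hut : u ≤ t) :
    Fac (S.stI I t) (S.at' f u) := by
  intro v ω h
  unfold stI at h
  simp only [Prod.mk.injEq] at h
  unfold at'
  rw [h.1, S.gm_le hut h.2.2]
  exact hd _ _ _ _ _ (res_eq.1 h.2.1)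

theorem nmv_fac {I : Finset ι} {f : Mov Ξ ι Pt Γ β} (hd : ∀ t g ξ, Dep I (f t g ξ)) (t : ℕ) :
    Fac (S.stI I t) (S.nmv f t) := by
  intro v ω h
  unfold nmv
  refine Finset.sum_congr rfl fun u hu => ?_
  have hu' := Finset.mem_range.1 hu
  rw [at_fac hd (by omega : u + 1 ≤ t) v ω h, at_fac hd (by omega : u ≤ t) v ω h]

theorem nmv_add (f : Mov Ξ ι Pt Γ β) {t n : ℕ} (h : t ≤ n) (ω : Om) :
    S.nmv f n ω - S.nmv f t ω = ∑ u ∈ Finset.Ico t n, ind (S.at' f (u + 1) ω ≠ S.at' f u ω) := by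
  unfold nmv
  rw [Finset.sum_Ico_eq_sub _ h]

/-- **tail of the number of moves** -/
theorem Future.tail {I : Finset ι} {f : Mov Ξ ι Pt Γ β} (hd : ∀ t g ξ, Dep I (f t g ξ)) {m0 : ℝ} (hm0 : 0 < m0)
    (h : S.Future I f m0) : S.MvTail f (1 + 2 * m0) := by
  intro k
  refine S.P.tail_of_future (stI_filt I) (Z := S.nmv f) (fun t => nmv_fac hd t) (fun n ω => ?_) (fun ω => ?_)
    (fun n ω => ?_) hm0 S.n (fun n hn φ hφ hφ0 => ?_) k
  · unfold nmv
    rw [Finset.sum_range_succ]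
    linarith [ind_nonneg (S.at' f (n + 1) ω ≠ S.at' f n ω)]
  · unfold nmv
    rw [Finset.sum_range_zero]
    exact zero_le_one
  · unfold nmv
    rw [Finset.sum_range_succ]
    linarith [ind_le_one (S.at' f (n + 1) ω ≠ S.at' f n ω)]
  · refine le_trans (le_of_eq ?_) (h n φ hφ hφ0)
    rw [← S.P.E_sum]
    refine S.P.E_congr fun ω _ => ?_
    rw [nmv_add f hn, Finset.mul_sum]

/-- mean number of moves -/
theorem Future.mean {I : Finset ι} {f : Mov Ξ ι Pt Γ β} {m0 : ℝ} (h : S.Future I f m0) :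
    S.P.E (S.nmv f S.n) ≤ m0 := by
  have h1 := h 0 (fun _ => (1 : ℝ)) (Fac.const _ _) (fun _ => zero_le_one)
  rw [S.P.E_const, mul_one, ← S.P.E_sum] at h1
  refine le_trans (le_of_eq (S.P.E_congr fun ω _ => ?_)) h1
  unfold nmv
  rw [Finset.range_eq_Ico]
  exact Finset.sum_congr rfl fun u _ => (one_mul _).symm

end Sys

namespace FineS

variable {S : Sys ι Om Ξ Pt V Γ κ} {S' : Sys ι Om Ξ Pt V Γ' κ'} (A : FineS S S') {β : Type}

include A

/-- the number of moves is the same in the finer geometry -/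
theorem nmv_lift (f : Mov Ξ ι Pt Γ β) (t : ℕ) (ω : Om) : S'.nmv (A.lift f) t ω = S.nmv f t ω := by
  unfold Sys.nmv
  refine Finset.sum_congr rfl fun u _ => ?_
  rw [A.at'_lift, A.at'_lift]

theorem tail_lift {f : Mov Ξ ι Pt Γ β} {m : ℝ} (h : S.MvTail f m) : S'.MvTail (A.lift f) m := by
  intro k
  rw [A.hP, A.hn]
  refine le_trans (le_of_eq (S.P.Pr_congr fun ω _ => ?_)) (h k)
  rw [A.nmv_lift]

end FineS

end

end Pool.Agent.GM
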