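import Pool.Agent.GM.Sys

/-!
# GM/SMI : the strong moving form (SMI_j), abstract statement (rows NM.8, GS.1), helper11

`S : Sys ι Om Ξ Pt V Γ κ`, `Vj` = the `j` unknown vertices (the others have exact values), `δ ∈ Vj` = the vertex whose
face carries the coins.  MOVING FACES `Ψ w : time → node → coins → vertices → V → ℝ`, `w ∈ Vj`, a function of all
vertices but `w`; only `Ψ δ` depends on the coins.

* `Future` : mean number of future moves at most `m0` from every state;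
* `Rare` : PRODUCT TESTS at exact values outside `Vj`, at every node, in all cells of the vertices of `Vj`, tests
  coin-free, coins averaged: at most the share `θ` of the individuals is seen with `acc`;
* `SMIat S Vj δ X m0 θ acc r out` : (SMI_j) for the geometry `S`: the process `<∏ Ψ w>_t` reaches `r` with probability
  at most `out`.

Only the true point enters the conclusion, so ONE coin `S.xi` (independent of everything) is the same as an independent
coin for every exact point.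
-/

set_option autoImplicit false
set_option linter.unusedSectionVars false

namespace Pool.Agent.GM

open Finset Pool.Agent.PWZ Pool.Agent.M3 Pool.Agent.M3.TS

noncomputable section

variable {ι Om Ξ Pt V Γ κ : Type} [Fintype ι] [DecidableEq ι] [Fintype Om] [Fintype Ξ] [Fintype Pt]
  [Fintype V] (S : Sys ι Om Ξ Pt V Γ κ)

/-- a moving object: time, node, coins, vertices -/
abbrev Mov (Ξ ι Pt Γ β : Type) : Type := ℕ → Γ → Ξ → (ι → Pt) → β

namespace Sys

/-- the value of a moving object at a sample point -/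
def at' {β : Type} (f : Mov Ξ ι Pt Γ β) (t : ℕ) (w : Om) : β := f t (S.gm t w) (S.xi w) (S.x w)

/-- the state of the vertices of `I` at the time `t` on the free path -/
def stI (I : Finset ι) (t : ℕ) (w : Om) : Ξ × ({i // i ∈ I} → Pt) × Γ := (S.xi w, res I (S.x w), S.gm t w)

/-- mean number of future moves at most `m0` from every state of `x_I` -/
def Future {β : Type} (I : Finset ι) (f : Mov Ξ ι Pt Γ β) (m0 : ℝ) : Prop :=
  ∀ t, ∀ φ : Om → ℝ, Fac (S.stI I t) φ → (∀ w, 0 ≤ φ w) →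
    ∑ u ∈ Finset.Ico t S.n, S.P.E (fun w => φ w * ind (S.at' f (u + 1) w ≠ S.at' f u w)) ≤ m0 * S.P.E φ

/-- individuals: exact values of `y` outside `Vj`, cells of `y` inside -/
def Box (Vj : Finset ι) (t : ℕ) (y z : ι → Pt) : Prop :=
  (∀ i, i ∉ Vj → z i = y i) ∧ ∀ i ∈ Vj, S.cl t (z i) = S.cl t (y i)

/-- PRODUCT TESTS of the moving face `w` at exact values outside `Vj` -/
def Rare (Vj : Finset ι) (w : ι) (Ψ : Mov Ξ ι Pt Γ (V → ℝ)) (θ acc : ℝ) : Prop :=
  ∀ t ≤ S.n, ∀ w0 : Om, ∀ y : ι → Pt, ∀ u : ι → (ι → Pt) → V → ℝ,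
    (∀ i ∈ Vj.erase w, Dep ((univ.erase w).erase i) (u i)) → (∀ i x d, |u i x d| ≤ 1) →
    ∑ ξ : Ξ, ∑ z : ι → Pt, ind (S.Box Vj t y z ∧
        acc ≤ |iw (S.ρ t (S.gm t w0)) (Ψ t (S.gm t w0) ξ z) (fun d => ∏ i ∈ Vj.erase w, u i z d)|) ≤
      θ * ∑ _ξ : Ξ, ∑ z : ι → Pt, ind (S.Box Vj t y z)

/-- (SMI_j) for the geometry `S` -/
def SMIat (Vj : Finset ι) (δ : ι) (X m0 θ acc r out : ℝ) : Prop :=
  ∀ Ψ : ι → Mov Ξ ι Pt Γ (V → ℝ),
    (∀ w ∈ Vj, ∀ t g ξ, Dep (univ.erase w) (Ψ w t g ξ)) →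
    (∀ w ∈ Vj, w ≠ δ → ∀ t g ξ ξ', Ψ w t g ξ = Ψ w t g ξ') →
    (∀ w ∈ Vj, ∀ t g ξ x d, |Ψ w t g ξ x d| ≤ X) →
    (∀ w ∈ Vj, ∀ g ξ x, Ψ w 0 g ξ x = 0) →
    (∀ w ∈ Vj, S.Future (univ.erase w) (Ψ w) m0) →
    (∀ w ∈ Vj, S.Rare Vj w (Ψ w) θ acc) →
    S.P.Pr (fun w => ∃ t ≤ S.n, r ≤ |iw (S.J t w) (fun d => ∏ i ∈ Vj, S.at' (Ψ i) t w d) (fun _ => 1)|) ≤ out

end Sys

end

end Pool.Agent.GM
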