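import Pool.Agent.GMN.State
import Pool.Agent.GMN.TjVer
import Pool.Agent.GM.MovTail
import Pool.Agent.GM.SMI
import Pool.Agent.M3.Hot
import Pool.Agent.M3.S1Tail

/-!
# GM/KVer (helper42): the known face replaced by its versions (row ASM A3)

`S : Sys ι Om Ξ Pt V Γ κ`, hidden vertex `a`, moving faces `F`, the face `F a = lft f` of the vertices but `a` coin free.
`kv f v = Vr S f 1 v` (helper14) = the `v`-th version of `f`, zero before its introduction, static afterwards;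
`kvF F a f v` = the faces `F` with the face `a` replaced by the `v`-th version.

* `kv_NF`, `kv_future`, `kv_one` : a version is a numbered function, moves at most once;
* `KVF f : NumF S ℕ (univ.erase a)` : ALL versions as one family of numbered functions; `kvh` : the `v`-th one for
  `GMN/State.NSt.h`;
* `mvc_exp_tail` : `Future` gives the exponential tail of the number of versions;
* `at_kvF` : at every time the faces are those of the current version; `prod_kvF`, `kvF_*` : hypotheses of the new faces;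
* `ver_union` : the union over the versions; `ver_union_exp` : all versions small ==> the process is small;
  `ver_union_tail` : the same from the tail `MvTail` of the number of moves on the path only;
* `hot_union`, `hot_union_tail` : the same for hotness `exists t, rho <= ce (Y t) (ind (r <= |T t|))` of the process in any
  classes `Y t` which know `x_(V-a)` and the node (natural view of `a`).
-/

set_option autoImplicit false
set_option linter.unusedSectionVars false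

namespace Pool.Agent.GM.KVer

open Finset Pool.Agent.PWZ Pool.Agent.M3 Pool.Agent.M3.TS Pool.Agent.GM Pool.Agent.GMN

noncomputable section

variable {ι Om Ξ Pt V Γ κ : Type} [Fintype ι] [DecidableEq ι] [Fintype Om] [Fintype Ξ] [Fintype Pt]
  [Fintype V] (S : Sys ι Om Ξ Pt V Γ κ)

/-- a moving face with fixed coins -/
def cfr (ξ0 : Ξ) (F : Mov Ξ ι Pt Γ (V → ℝ)) : Fn ι Pt V Γ := fun t g x => F t g ξ0 x

theorem lft_cfr (ξ0 : Ξ) {F : Mov Ξ ι Pt Γ (V → ℝ)} (h : ∀ t g ξ ξ', F t g ξ = F t g ξ') :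
    (lft (cfr ξ0 F) : FnX ι Ξ Pt V Γ) = F := by
  funext t g ξ x
  exact congrFun (h t g ξ0 ξ) x

/-- the `v`-th version -/
def kv (f : Fn ι Pt V Γ) (v : ℕ) : Fn ι Pt V Γ := Vr S f 1 v

variable {S} {a : ι} {f : Fn ι Pt V Γ}

/-- the number of moves at the sample point -/
theorem at_mvc (t : ℕ) (w : Om) : mvc S f (t + 1) (S.gm (t + 1) w) (S.x w) = mvc S f t (S.gm t w) (S.x w) ∨
    (mvc S f (t + 1) (S.gm (t + 1) w) (S.x w) = mvc S f t (S.gm t w) (S.x w) + 1 ∧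
      f (t + 1) (S.gm (t + 1) w) (S.x w) ≠ f t (S.gm t w) (S.x w)) := by
  classical
  have h : mvc S f (t + 1) (S.gm (t + 1) w) (S.x w) = mvc S f t (S.gm t w) (S.x w) +
      if f (t + 1) (S.gm (t + 1) w) (S.x w) ≠ f t (S.gm t w) (S.x w) then 1 else 0 := by
    show mvc S f t (S.par t (S.gm (t + 1) w)) (S.x w) + (if f (t + 1) (S.gm (t + 1) w) (S.x w) ≠
      f t (S.par t (S.gm (t + 1) w)) (S.x w) then 1 else 0) = _
    rw [S.par_gm]
  by_cases h1 : f (t + 1) (S.gm (t + 1) w) (S.x w) ≠ f t (S.gm t w) (S.x w)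
  · rw [if_pos h1] at h
    exact Or.inr ⟨h, h1⟩
  · rw [if_neg h1, add_zero] at h
    exact Or.inl h

theorem kv_NF (hd : ∀ t g, Dep (univ.erase a) (f t g)) (hb : ∀ t g x d, |f t g x d| ≤ 1) (v : ℕ) :
    NF S a (kv S f v) := NF_Vr S f 1 one_pos hd hb v

variable (S) in
/-- all versions as numbered functions -/
def KVF (hd : ∀ t g, Dep (univ.erase a) (f t g)) (hb : ∀ t g x d, |f t g x d| ≤ 1) :
    NumF S ℕ (univ.erase a) where
  inn v t g x := v ≤ mvc S f t g x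
  f v := kv S f v
  inn_dep v t g := fun x y h => by
    show (v ≤ mvc S f t g x) = (v ≤ mvc S f t g y)
    rw [mvc_dep S f hd t g x y h]
  f_dep v := (kv_NF hd hb v).dep
  le1 v := (kv_NF hd hb v).bd
  zero v t g x h := Vr_zero_of_lt S f 1 (not_le.1 h)
  keep v t g x h := le_trans h (mvc_succ S f t g x)
  stat v t g x h := by
    funext d
    show (if v ≤ mvc S f t (S.par t g) x then Vr S f 1 v t (S.par t g) x d
      else if v ≤ mvc S f (t + 1) g x then f (t + 1) g x d / 1 else 0) = _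
    rw [if_pos h]
    rfl

variable (S) in
theorem KVF_at (hd : ∀ t g, Dep (univ.erase a) (f t g)) (hb : ∀ t g x d, |f t g x d| ≤ 1) (v t : ℕ) (w : Om) :
    (KVF S hd hb).at' v t w = S.at' (lft (kv S f v) : Mov Ξ ι Pt Γ (V → ℝ)) t w := rfl

variable (S) in
/-- the known function of the initial state of the names for the version `v` (for `NSt.h`) -/
def kvh (hd : ∀ t g, Dep (univ.erase a) (f t g)) (hb : ∀ t g x d, |f t g x d| ≤ 1) (v : ℕ) :
    NumF S (ℕ × (ι → ℕ)) (univ.erase a) := (KVF S hd hb).map fun _ => v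

variable (S) in
theorem kvh_at (hd : ∀ t g, Dep (univ.erase a) (f t g)) (hb : ∀ t g x d, |f t g x d| ≤ 1) (v : ℕ)
    (ν : ℕ × (ι → ℕ)) (t : ℕ) (w : Om) :
    (kvh S hd hb v).at' ν t w = S.at' (lft (kv S f v) : Mov Ξ ι Pt Γ (V → ℝ)) t w := rfl

/-- the version zero is zero -/
theorem kv_zero (t : ℕ) (g : Γ) (x : ι → Pt) : kv S f 0 t g x = 0 := by
  induction t generalizing g with
  | zero => rfl
  | succ t ih =>
    funext d
    show (if 0 ≤ mvc S f t (S.par t g) x then Vr S f 1 0 t (S.par t g) x d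
      else if 0 ≤ mvc S f (t + 1) g x then f (t + 1) g x d / 1 else 0) = 0
    rw [if_pos (Nat.zero_le _)]
    exact congrFun (ih (S.par t g)) d

/-- the number of moves of a version on a path -/
theorem kv_one (v s T : ℕ) (w : Om) :
    ∑ u ∈ Ico s T, ind (S.at' (lft (kv S f v) : Mov Ξ ι Pt Γ (V → ℝ)) (u + 1) w ≠ S.at' (lft (kv S f v)) u w) ≤ 1 := by
  -- the only possible move is the introduction
  have hmono : ∀ i j : ℕ, i ≤ j → mvc S f i (S.gm i w) (S.x w) ≤ mvc S f j (S.gm j w) (S.x w) := fun i j h =>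
    mvc_mono S f h w
  have hstep : ∀ u, S.at' (lft (kv S f v) : Mov Ξ ι Pt Γ (V → ℝ)) (u + 1) w ≠ S.at' (lft (kv S f v)) u w →
      mvc S f u (S.gm u w) (S.x w) < v ∧ v ≤ mvc S f (u + 1) (S.gm (u + 1) w) (S.x w) := by
    intro u hu
    constructor
    · by_contra hcon
      refine hu ?_
      funext d
      show (if v ≤ mvc S f u (S.par u (S.gm (u + 1) w)) (S.x w) then
        Vr S f 1 v u (S.par u (S.gm (u + 1) w)) (S.x w) d
        else if v ≤ mvc S f (u + 1) (S.gm (u + 1) w) (S.x w) then f (u + 1) (S.gm (u + 1) w) (S.x w) d / 1 else 0) =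
        Vr S f 1 v u (S.gm u w) (S.x w) d
      rw [S.par_gm, if_pos (not_lt.1 hcon)]
    · by_contra hcon
      refine hu ?_
      have h1 : kv S f v (u + 1) (S.gm (u + 1) w) (S.x w) = 0 := Vr_zero_of_lt S f 1 (not_le.1 hcon)
      have h2 : kv S f v u (S.gm u w) (S.x w) = 0 :=
        Vr_zero_of_lt S f 1 (lt_of_le_of_lt (hmono u (u + 1) (Nat.le_succ u)) (not_le.1 hcon))
      show kv S f v (u + 1) (S.gm (u + 1) w) (S.x w) = kv S f v u (S.gm u w) (S.x w)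
      rw [h1, h2]
  by_cases hex : ∃ u ∈ Ico s T, S.at' (lft (kv S f v) : Mov Ξ ι Pt Γ (V → ℝ)) (u + 1) w ≠ S.at' (lft (kv S f v)) u w
  · obtain ⟨u0, hu0, h0⟩ := hex
    rw [Finset.sum_eq_single u0]
    · exact ind_le_one _
    · intro u _ hne
      refine ind_not fun hu => hne ?_
      have h1 := hstep u hu
      have h2 := hstep u0 h0
      by_contra hcon
      rcases Nat.lt_or_gt_of_ne hcon with hlt | hlt
      · exact absurd (h1.2.trans (hmono (u + 1) u0 hlt)) (not_le.2 h2.1)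
      · exact absurd (h2.2.trans (hmono (u0 + 1) u hlt)) (not_le.2 h1.1)
    · exact fun h => absurd hu0 h
  · push Not at hex
    rw [Finset.sum_eq_zero fun u hu => ind_not (not_not.2 (hex u hu))]
    exact zero_le_one

/-- a version moves at most once -/
theorem kv_future (I : Finset ι) (v : ℕ) : S.Future I (lft (kv S f v) : Mov Ξ ι Pt Γ (V → ℝ)) 1 := by
  intro t φ _ h0
  rw [← S.P.E_sum, one_mul]
  refine S.P.E_mono fun w _ => ?_
  rw [← Finset.mul_sum]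
  exact mul_le_of_le_one_right (h0 w) (kv_one v t S.n w)

/-! ### the number of versions -/

theorem stI_filt (I : Finset ι) : Filt (S.stI I) := by
  intro t v w h
  have h1 := congrArg Prod.fst h
  have h2 := congrArg (fun p => p.2.1) h
  have h3 := congrArg (fun p => p.2.2) h
  exact Prod.ext h1 (Prod.ext h2 (S.gm_step t h3))

/-- **exponential tail of the number of versions** -/
theorem mvc_exp_tail (hd : ∀ t g, Dep (univ.erase a) (f t g)) {m : ℝ} (hm : 0 < m)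
    (hF : S.Future (univ.erase a) (lft f : Mov Ξ ι Pt Γ (V → ℝ)) m) (k : ℕ) :
    S.P.Pr (fun w => (k : ℝ) * (1 + 2 * m) ≤ (mvc S f S.n (S.gm S.n w) (S.x w) : ℝ)) ≤ (1 / 2) ^ k := by
  refine S.P.tail_of_future (stI_filt (S := S) (univ.erase a)) (Z := fun t w => (mvc S f t (S.gm t w) (S.x w) : ℝ))
    (fun t v w h => ?_) (fun t w => ?_) (fun w => ?_) (fun t w => ?_) hm S.n (fun t ht φ hφ hφ0 => ?_) k
  · have h2 := congrArg (fun p => p.2.1) h
    have h3 : S.gm t v = S.gm t w := congrArg (fun p => p.2.2) h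
    show (mvc S f t (S.gm t v) (S.x v) : ℝ) = mvc S f t (S.gm t w) (S.x w)
    rw [h3, mvc_dep S f hd t (S.gm t w) (S.x v) (S.x w) (res_eq.1 h2)]
  · exact_mod_cast mvc_mono S f (Nat.le_succ t) w
  · show ((mvc S f 0 (S.gm 0 w) (S.x w) : ℕ) : ℝ) ≤ 1
    have : mvc S f 0 (S.gm 0 w) (S.x w) = 0 := rfl
    rw [this]
    simp
  · show ((mvc S f (t + 1) (S.gm (t + 1) w) (S.x w) : ℕ) : ℝ) - (mvc S f t (S.gm t w) (S.x w) : ℕ) ≤ 1
    rcases at_mvc (S := S) (f := f) t w with h | ⟨h, _⟩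
    · rw [h, sub_self]
      exact zero_le_one
    · rw [h]
      push_cast
      linarith
  · refine le_trans (le_of_eq ?_) (hF t φ hφ hφ0)
    rw [← S.P.E_sum]
    refine S.P.E_congr fun w _ => ?_
    rw [← Finset.mul_sum]
    congr 1
    show ((mvc S f S.n (S.gm S.n w) (S.x w) : ℕ) : ℝ) - (mvc S f t (S.gm t w) (S.x w) : ℕ) = _
    rw [mvc_eq, mvc_eq, Finset.range_eq_Ico, Finset.range_eq_Ico, ← Finset.sum_Ico_consecutive _ (Nat.zero_le t) ht,
      add_sub_cancel_left]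
    rfl

theorem mvc_exp_tail' (hd : ∀ t g, Dep (univ.erase a) (f t g)) {m : ℝ} (hm : 0 < m)
    (hF : S.Future (univ.erase a) (lft f : Mov Ξ ι Pt Γ (V → ℝ)) m) {E : ℝ} (hE : 0 ≤ E) {M : ℕ}
    (hM : (2 * E + 1) * (1 + 2 * m) ≤ M + 1) :
    S.P.Pr (fun w => M < mvc S f S.n (S.gm S.n w) (S.x w)) ≤ Real.exp (-E) := by
  set k : ℕ := ⌈2 * E⌉₊ with hk
  have h1 : 2 * E ≤ k := Nat.le_ceil _
  have h2 : (k : ℝ) ≤ 2 * E + 1 := (Nat.ceil_lt_add_one (by linarith)).le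
  have h3 := mvc_exp_tail hd hm hF k
  have h4 : ((1 : ℝ) / 2) ^ k ≤ Real.exp (-E) := by
    have h5 : (1 / 2 : ℝ) ≤ Real.exp (-(1 / 2 : ℝ)) := by
      have := Real.add_one_le_exp (-(1 / 2 : ℝ))
      linarith
    calc ((1 : ℝ) / 2) ^ k ≤ Real.exp (-(1 / 2 : ℝ)) ^ k := pow_le_pow_left₀ (by norm_num) h5 k
      _ = Real.exp (k * (-(1 / 2 : ℝ))) := by rw [← Real.exp_nat_mul]
      _ ≤ Real.exp (-E) := Real.exp_le_exp.2 (by linarith)
  refine (le_trans (S.P.Pr_mono fun w _ hw => ?_) h3).trans h4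
  have h6 : ((M : ℝ) + 1) ≤ (mvc S f S.n (S.gm S.n w) (S.x w) : ℝ) := by exact_mod_cast hw
  refine le_trans ?_ h6
  refine le_trans (mul_le_mul_of_nonneg_right h2 (by linarith)) hM

/-! ### the union over the versions -/

variable (S) in
/-- the faces with the face `a` replaced by the `v`-th version -/
def kvF (F : ι → Mov Ξ ι Pt Γ (V → ℝ)) (a : ι) (f : Fn ι Pt V Γ) (v : ℕ) : ι → Mov Ξ ι Pt Γ (V → ℝ) :=
  Function.update F a (lft (kv S f v))

theorem kvF_self (F : ι → Mov Ξ ι Pt Γ (V → ℝ)) (v : ℕ) : kvF S F a f v a = lft (kv S f v) :=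
  Function.update_self _ _ _

theorem kvF_ne (F : ι → Mov Ξ ι Pt Γ (V → ℝ)) (v : ℕ) {w : ι} (h : w ≠ a) : kvF S F a f v w = F w :=
  Function.update_of_ne h _ _

/-- a property of all faces -/
theorem kvF_all {F : ι → Mov Ξ ι Pt Γ (V → ℝ)} {v : ℕ} {C : ι → Mov Ξ ι Pt Γ (V → ℝ) → Prop}
    (h1 : C a (lft (kv S f v))) {w : ι} (h2 : w ≠ a → C w (F w)) : C w (kvF S F a f v w) := by
  by_cases h : w = a
  · subst h
    rw [kvF_self]
    exact h1
  · rw [kvF_ne F v h]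
    exact h2 h

theorem kvF_dep {F : ι → Mov Ξ ι Pt Γ (V → ℝ)} (hd : ∀ t g, Dep (univ.erase a) (f t g))
    (hb : ∀ t g x d, |f t g x d| ≤ 1) (v : ℕ) {w : ι} (hF : ∀ t g ξ, Dep (univ.erase w) (F w t g ξ)) :
    ∀ t g ξ, Dep (univ.erase w) (kvF S F a f v w t g ξ) :=
  kvF_all (C := fun w Ψ => ∀ t g ξ, Dep (univ.erase w) (Ψ t g ξ)) (fun t g _ => (kv_NF hd hb v).dep t g) fun _ => hF

theorem kvF_free {F : ι → Mov Ξ ι Pt Γ (V → ℝ)} (v : ℕ) {w : ι} (hF : ∀ t g ξ ξ', F w t g ξ = F w t g ξ') :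
    ∀ t g ξ ξ', kvF S F a f v w t g ξ = kvF S F a f v w t g ξ' :=
  kvF_all (C := fun _ Ψ => ∀ t g ξ ξ', Ψ t g ξ = Ψ t g ξ') (fun _ _ _ _ => rfl) fun _ => hF

theorem kvF_abs {F : ι → Mov Ξ ι Pt Γ (V → ℝ)} (hd : ∀ t g, Dep (univ.erase a) (f t g))
    (hb : ∀ t g x d, |f t g x d| ≤ 1) (v : ℕ) {w : ι} {X : ℝ} (hX : 1 ≤ X) (hF : ∀ t g ξ x d, |F w t g ξ x d| ≤ X) :
    ∀ t g ξ x d, |kvF S F a f v w t g ξ x d| ≤ X :=
  kvF_all (C := fun _ Ψ => ∀ t g ξ x d, |Ψ t g ξ x d| ≤ X) (fun t g _ x d => ((kv_NF hd hb v).bd t g x d).trans hX)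
    fun _ => hF

theorem kvF_zero {F : ι → Mov Ξ ι Pt Γ (V → ℝ)} (v : ℕ) {w : ι} (hF : ∀ g ξ x, F w 0 g ξ x = 0) :
    ∀ g ξ x, kvF S F a f v w 0 g ξ x = 0 :=
  kvF_all (C := fun _ Ψ => ∀ g ξ x, Ψ 0 g ξ x = 0) (fun _ _ _ => rfl) fun _ => hF

theorem kvF_future {F : ι → Mov Ξ ι Pt Γ (V → ℝ)} (v : ℕ) {w : ι} {m0 : ℝ} (hm : 1 ≤ m0)
    (hF : S.Future (univ.erase w) (F w) m0) : S.Future (univ.erase w) (kvF S F a f v w) m0 := by
  refine kvF_all (C := fun w Ψ => S.Future (univ.erase w) Ψ m0) ?_ fun _ => hF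
  intro t φ hφ h0
  refine (kv_future (S := S) (f := f) (univ.erase a) v t φ hφ h0).trans ?_
  exact mul_le_mul_of_nonneg_right hm (S.P.E_nonneg fun w _ => h0 w)

/-- **at every time the faces are those of the current version** -/
theorem at_kvF {F : ι → Mov Ξ ι Pt Γ (V → ℝ)} (hf : F a = lft f) (h0 : ∀ g x d, f 0 g x d = 0) (t : ℕ) (w : Om)
    (i : ι) : S.at' (kvF S F a f (mvc S f t (S.gm t w) (S.x w)) i) t w = S.at' (F i) t w := by
  by_cases h : i = a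
  · subst h
    rw [kvF_self, hf]
    funext d
    have h1 := Vr_mvc S f 1 one_pos h0 t (S.gm t w) (S.x w) d
    rw [one_mul] at h1
    exact h1.symm
  · rw [kvF_ne _ _ h]

/-- the product process of the faces of `Vj` -/
def pT (S : Sys ι Om Ξ Pt V Γ κ) (Vj : Finset ι) (F : ι → Mov Ξ ι Pt Γ (V → ℝ)) (t : ℕ) (w : Om) : ℝ :=
  iw (S.J t w) (fun d => ∏ i ∈ Vj, S.at' (F i) t w d) (fun _ => 1)

theorem pT_kvF {F : ι → Mov Ξ ι Pt Γ (V → ℝ)} (hf : F a = lft f) (h0 : ∀ g x d, f 0 g x d = 0) (Vj : Finset ι)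
    (t : ℕ) (w : Om) : pT S Vj (kvF S F a f (mvc S f t (S.gm t w) (S.x w))) t w = pT S Vj F t w := by
  unfold pT
  congr 1
  funext d
  exact Finset.prod_congr rfl fun i _ => by rw [at_kvF hf h0]

/-- the version zero -/
theorem pT_zero {F : ι → Mov Ξ ι Pt Γ (V → ℝ)} {Vj : Finset ι} (ha : a ∈ Vj) (t : ℕ) (w : Om) :
    pT S Vj (kvF S F a f 0) t w = 0 := by
  unfold pT iw
  refine Finset.sum_eq_zero fun d _ => ?_
  have h1 : ∏ i ∈ Vj, S.at' (kvF S F a f 0 i) t w d = 0 := by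
    refine Finset.prod_eq_zero ha ?_
    rw [kvF_self]
    show kv S f 0 t (S.gm t w) (S.x w) d = 0
    rw [kv_zero]
    rfl
  show S.J t w d * (∏ i ∈ Vj, S.at' (kvF S F a f 0 i) t w d) * 1 = 0
  rw [h1, mul_zero, zero_mul]

/-- **THE UNION OVER THE VERSIONS** (with any further event `B`) -/
theorem ver_union {F : ι → Mov Ξ ι Pt Γ (V → ℝ)} (hf : F a = lft f) (h0 : ∀ g x d, f 0 g x d = 0) {Vj : Finset ι}
    (ha : a ∈ Vj) {β : ℝ} (hβ : 0 < β) (B : ℕ → Om → Prop) (M : ℕ) :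
    S.P.Pr (fun w => ∃ t ≤ S.n, B t w ∧ β ≤ |pT S Vj F t w|) ≤
      ∑ v ∈ Icc 1 M, S.P.Pr (fun w => ∃ t ≤ S.n, B t w ∧ β ≤ |pT S Vj (kvF S F a f v) t w|) +
      S.P.Pr (fun w => M < mvc S f S.n (S.gm S.n w) (S.x w)) := by
  have h1 : S.P.Pr (fun w => ∃ t ≤ S.n, B t w ∧ β ≤ |pT S Vj F t w|) ≤
      S.P.Pr (fun w => (∃ v ∈ Icc 1 M, ∃ t ≤ S.n, B t w ∧ β ≤ |pT S Vj (kvF S F a f v) t w|) ∨
        M < mvc S f S.n (S.gm S.n w) (S.x w)) := by
    refine S.P.Pr_mono fun w _ => ?_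
    rintro ⟨t, ht, hB, hT⟩
    by_cases hM : M < mvc S f S.n (S.gm S.n w) (S.x w)
    · exact Or.inr hM
    · left
      rw [← pT_kvF hf h0 Vj t w] at hT
      refine ⟨mvc S f t (S.gm t w) (S.x w), Finset.mem_Icc.2 ⟨?_, ?_⟩, t, ht, hB, hT⟩
      · by_contra hcon
        have h2 : mvc S f t (S.gm t w) (S.x w) = 0 := by omega
        rw [h2, pT_zero ha, abs_zero] at hT
        linarith
      · exact (mvc_mono S f ht w).trans (not_lt.1 hM)
  refine h1.trans ((S.P.Pr_or_le _ _).trans (add_le_add (S.P.Pr_ex_le _ _) le_rfl))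

/-- **all versions small ==> the process is small** -/
theorem ver_union_exp {F : ι → Mov Ξ ι Pt Γ (V → ℝ)} (hfree : ∀ t g ξ ξ', F a t g ξ = F a t g ξ')
    (hdep : ∀ t g ξ, Dep (univ.erase a) (F a t g ξ)) (h0 : ∀ g ξ x, F a 0 g ξ x = 0) {Vj : Finset ι} (ha : a ∈ Vj)
    {m : ℝ} (hm : 0 < m) (hF : S.Future (univ.erase a) (F a) m) {β : ℝ} (hβ : 0 < β) {E q : ℝ} (hE : 0 ≤ E)
    (hq : ∀ (ξ0 : Ξ) (v : ℕ), 1 ≤ v →
      S.P.Pr (fun w => ∃ t ≤ S.n, β ≤ |pT S Vj (kvF S F a (cfr ξ0 (F a)) v) t w|) ≤ q) :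
    S.P.Pr (fun w => ∃ t ≤ S.n, β ≤ |pT S Vj F t w|) ≤ (2 * E + 1) * (1 + 2 * m) * q + Real.exp (-E) := by
  obtain ⟨w0⟩ := S.nonempty_Om
  set ξ0 := S.xi w0 with hξ
  set f : Fn ι Pt V Γ := cfr ξ0 (F a) with hfdef
  have hf : F a = lft f := (lft_cfr ξ0 hfree).symm
  have hq0 : 0 ≤ q := (S.P.Pr_nonneg _).trans (hq ξ0 1 le_rfl)
  have hm1 : 0 ≤ (2 * E + 1) * (1 + 2 * m) := by positivity
  set M : ℕ := ⌊(2 * E + 1) * (1 + 2 * m)⌋₊ with hM
  have hM1 : (2 * E + 1) * (1 + 2 * m) ≤ M + 1 := (Nat.lt_floor_add_one _).le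
  have hM2 : (M : ℝ) ≤ (2 * E + 1) * (1 + 2 * m) := Nat.floor_le hm1
  have h1 := ver_union (S := S) hf (fun g x d => congrFun (h0 g ξ0 x) d) ha hβ (fun _ _ => True) M
  simp only [true_and] at h1
  refine h1.trans (add_le_add ?_ ?_)
  · refine (Finset.sum_le_sum fun v hv => hq ξ0 v (Finset.mem_Icc.1 hv).1).trans ?_
    rw [Finset.sum_const, Nat.card_Icc, Nat.add_sub_cancel, nsmul_eq_mul]
    exact mul_le_mul_of_nonneg_right hM2 hq0
  · have hF' : S.Future (univ.erase a) (lft f : Mov Ξ ι Pt Γ (V → ℝ)) m := hf ▸ hF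
    exact mvc_exp_tail' (fun t g => hdep t g ξ0) hm hF' hE hM1

/-- the number of moves -/
theorem mvc_nmv (t : ℕ) (w : Om) : (mvc S f t (S.gm t w) (S.x w) : ℝ) =
    S.nmv (lft f : Mov Ξ ι Pt Γ (V → ℝ)) t w := by
  rw [mvc_eq]
  rfl

theorem mvc_of_tail {m : ℝ} (hT : S.MvTail (lft f : Mov Ξ ι Pt Γ (V → ℝ)) m) (k : ℕ) {M : ℕ}
    (hM : (k : ℝ) * m ≤ M + 1) :
    S.P.Pr (fun w => M < mvc S f S.n (S.gm S.n w) (S.x w)) ≤ (1 / 2) ^ k := by
  refine (S.P.Pr_mono fun w _ hw => ?_).trans (hT k)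
  rw [← mvc_nmv]
  have h6 : ((M : ℝ) + 1) ≤ (mvc S f S.n (S.gm S.n w) (S.x w) : ℝ) := by exact_mod_cast hw
  exact hM.trans h6

/-- **all versions small ==> the process is small**, from the tail of the number of moves on the path -/
theorem ver_union_tail {F : ι → Mov Ξ ι Pt Γ (V → ℝ)} (hfree : ∀ t g ξ ξ', F a t g ξ = F a t g ξ')
    (h0 : ∀ g ξ x, F a 0 g ξ x = 0) {Vj : Finset ι} (ha : a ∈ Vj)
    {m : ℝ} (hm : 0 ≤ m) (hF : S.MvTail (F a) m) {β : ℝ} (hβ : 0 < β) (k : ℕ) {q : ℝ}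
    (hq : ∀ (ξ0 : Ξ) (v : ℕ), 1 ≤ v →
      S.P.Pr (fun w => ∃ t ≤ S.n, β ≤ |pT S Vj (kvF S F a (cfr ξ0 (F a)) v) t w|) ≤ q) :
    S.P.Pr (fun w => ∃ t ≤ S.n, β ≤ |pT S Vj F t w|) ≤ k * m * q + (1 / 2) ^ k := by
  obtain ⟨w0⟩ := S.nonempty_Om
  set ξ0 := S.xi w0 with hξ
  set f : Fn ι Pt V Γ := cfr ξ0 (F a) with hfdef
  have hf : F a = lft f := (lft_cfr ξ0 hfree).symm
  have hq0 : 0 ≤ q := (S.P.Pr_nonneg _).trans (hq ξ0 1 le_rfl)
  have hm1 : 0 ≤ (k : ℝ) * m := mul_nonneg (Nat.cast_nonneg _) hm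
  set M : ℕ := ⌊(k : ℝ) * m⌋₊ with hM
  have hM1 : (k : ℝ) * m ≤ M + 1 := (Nat.lt_floor_add_one _).le
  have hM2 : (M : ℝ) ≤ k * m := Nat.floor_le hm1
  have h1 := ver_union (S := S) hf (fun g x d => congrFun (h0 g ξ0 x) d) ha hβ (fun _ _ => True) M
  simp only [true_and] at h1
  refine h1.trans (add_le_add ?_ ?_)
  · refine (Finset.sum_le_sum fun v hv => hq ξ0 v (Finset.mem_Icc.1 hv).1).trans ?_
    rw [Finset.sum_const, Nat.card_Icc, Nat.add_sub_cancel, nsmul_eq_mul]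
    exact mul_le_mul_of_nonneg_right hM2 hq0
  · have hF' : S.MvTail (lft f : Mov Ξ ι Pt Γ (V → ℝ)) m := hf ▸ hF
    exact mvc_of_tail hF' k hM1

/-! ### hotness -/

/-- hotness of the process implies hotness of a version of the known face, or many changes; `Y t` = any class which knows
`x_(V-a)` and the node -/
theorem hot_union {F : ι → Mov Ξ ι Pt Γ (V → ℝ)} (hf : F a = lft f) (h0 : ∀ g x d, f 0 g x d = 0)
    (hd : ∀ t g, Dep (univ.erase a) (f t g)) {Vj : Finset ι}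
    (ha : a ∈ Vj) {κ' : ℕ → Type} {Y : ∀ t, Om → κ' t}
    (hY : ∀ t, Fac (Y t) (fun w => (res (univ.erase a) (S.x w), S.gm t w))) {r ρ : ℝ} (hr : 0 < r) (hρ : 0 < ρ)
    (M : ℕ) :
    S.P.Pr (fun w => ∃ t ≤ S.n, ρ ≤ S.P.ce (Y t) (fun v => ind (r ≤ |pT S Vj F t v|)) w) ≤
      ∑ v ∈ Icc 1 M, S.P.Pr (fun w => ∃ t ≤ S.n,
        ρ ≤ S.P.ce (Y t) (fun v' => ind (r ≤ |pT S Vj (kvF S F a f v) t v'|)) w) +
      S.P.Pr (fun w => M < mvc S f S.n (S.gm S.n w) (S.x w)) := by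
  have h1 : S.P.Pr (fun w => ∃ t ≤ S.n, ρ ≤ S.P.ce (Y t) (fun v => ind (r ≤ |pT S Vj F t v|)) w) ≤
      S.P.Pr (fun w => (∃ v ∈ Icc 1 M, ∃ t ≤ S.n,
        ρ ≤ S.P.ce (Y t) (fun v' => ind (r ≤ |pT S Vj (kvF S F a f v) t v'|)) w) ∨
        M < mvc S f S.n (S.gm S.n w) (S.x w)) := by
    refine S.P.Pr_mono fun w _ => ?_
    rintro ⟨t, ht, hT⟩
    by_cases hM : M < mvc S f S.n (S.gm S.n w) (S.x w)
    · exact Or.inr hM
    · left
      -- the number of the version is a function of the class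
      set v0 := mvc S f t (S.gm t w) (S.x w) with hv0
      have h2 : S.P.ce (Y t) (fun v => ind (r ≤ |pT S Vj F t v|)) w =
          S.P.ce (Y t) (fun v => ind (r ≤ |pT S Vj (kvF S F a f v0) t v|)) w := by
        unfold FP.ce
        congr 1
        refine S.P.E_congr fun v _ => ?_
        by_cases hv : Y t v = Y t w
        · have h3 := hY t v w hv
          simp only [Prod.mk.injEq] at h3
          have h4 : mvc S f t (S.gm t v) (S.x v) = v0 := by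
            rw [hv0, h3.2, mvc_dep S f hd t (S.gm t w) (S.x v) (S.x w) (res_eq.1 h3.1)]
          show ind (Y t v = Y t w) * ind (r ≤ |pT S Vj F t v|) =
            ind (Y t v = Y t w) * ind (r ≤ |pT S Vj (kvF S F a f v0) t v|)
          rw [← h4, pT_kvF hf h0 Vj t v]
        · rw [ind_not hv, zero_mul, zero_mul]
      rw [h2] at hT
      refine ⟨v0, Finset.mem_Icc.2 ⟨?_, (mvc_mono S f ht w).trans (not_lt.1 hM)⟩, t, ht, hT⟩
      by_contra hcon
      have h5 : v0 = 0 := by omega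
      have h6 : S.P.ce (Y t) (fun v => ind (r ≤ |pT S Vj (kvF S F a f v0) t v|)) w ≤ 0 := by
        rw [h5]
        unfold FP.ce
        rw [S.P.E_congr (g := fun _ => 0) (fun v _ => ?_), S.P.E_const, zero_div]
        show ind (Y t v = Y t w) * ind (r ≤ |pT S Vj (kvF S F a f 0) t v|) = 0
        rw [pT_zero ha, abs_zero, ind_not (not_le.2 hr), mul_zero]
      linarith
  refine h1.trans ((S.P.Pr_or_le _ _).trans (add_le_add (S.P.Pr_ex_le _ _) le_rfl))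

/-- all versions cold ==> the process is cold -/
theorem hot_union_tail {F : ι → Mov Ξ ι Pt Γ (V → ℝ)} (hfree : ∀ t g ξ ξ', F a t g ξ = F a t g ξ')
    (hdep : ∀ t g ξ, Dep (univ.erase a) (F a t g ξ)) (h0 : ∀ g ξ x, F a 0 g ξ x = 0) {Vj : Finset ι} (ha : a ∈ Vj)
    {κ' : ℕ → Type} {Y : ∀ t, Om → κ' t}
    (hY : ∀ t, Fac (Y t) (fun w => (res (univ.erase a) (S.x w), S.gm t w)))
    {m : ℝ} (hm : 0 ≤ m) (hF : S.MvTail (F a) m) {r ρ : ℝ} (hr : 0 < r) (hρ : 0 < ρ) (k : ℕ) {q : ℝ}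
    (hq : ∀ (ξ0 : Ξ) (v : ℕ), 1 ≤ v → S.P.Pr (fun w => ∃ t ≤ S.n,
      ρ ≤ S.P.ce (Y t) (fun v' => ind (r ≤ |pT S Vj (kvF S F a (cfr ξ0 (F a)) v) t v'|)) w) ≤ q) :
    S.P.Pr (fun w => ∃ t ≤ S.n, ρ ≤ S.P.ce (Y t) (fun v => ind (r ≤ |pT S Vj F t v|)) w) ≤
      k * m * q + (1 / 2) ^ k := by
  obtain ⟨w0⟩ := S.nonempty_Om
  set ξ0 := S.xi w0 with hξ
  set f : Fn ι Pt V Γ := cfr ξ0 (F a) with hfdef
  have hf : F a = lft f := (lft_cfr ξ0 hfree).symm
  have hq0 : 0 ≤ q := (S.P.Pr_nonneg _).trans (hq ξ0 1 le_rfl)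
  have hm1 : 0 ≤ (k : ℝ) * m := mul_nonneg (Nat.cast_nonneg _) hm
  set M : ℕ := ⌊(k : ℝ) * m⌋₊ with hM
  have hM1 : (k : ℝ) * m ≤ M + 1 := (Nat.lt_floor_add_one _).le
  have hM2 : (M : ℝ) ≤ k * m := Nat.floor_le hm1
  have h1 := hot_union (S := S) hf (fun g x d => congrFun (h0 g ξ0 x) d) (fun t g => hdep t g ξ0) ha hY hr hρ M
  refine h1.trans (add_le_add ?_ ?_)
  · refine (Finset.sum_le_sum fun v hv => hq ξ0 v (Finset.mem_Icc.1 hv).1).trans ?_
    rw [Finset.sum_const, Nat.card_Icc, Nat.add_sub_cancel, nsmul_eq_mul]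
    exact mul_le_mul_of_nonneg_right hM2 hq0
  · have hF' : S.MvTail (lft f : Mov Ξ ι Pt Γ (V → ℝ)) m := hf ▸ hF
    exact mvc_of_tail hF' k hM1

end

end Pool.Agent.GM.KVer
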