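import Pool.Agent.GM.FineDef
import Pool.Agent.GM.KVer
import Pool.Agent.GM.Prop1M

/-!
# GM/CMDef (helper42): the contract of the COLD SETS OF `j - 1` VERTICES (rows ASM A10b, A10c)

Natural view of the vertex `w`: everything but `w` is known, `Kn w (ex N t)` = public randomness, exact path of the view,
all other vertices with their private randomness.  Everything is COIN FREE.
* `GS.FacesC` : the faces: the known face `F w` is arbitrary (misses `w`, bounded by one, zero at time zero, at most one move,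
  only from zero); the other faces as in `GS.FacesT` / `GS.Faces` (`m` on the path, `M` from every state);
* `GS.ColdAt` : the statement `P(exists t <= N, rho <= P(r <= |T_t| | Kn w)) <= out`;
* **`GS.CMFine j κ c C`** : contract after the refinement (row A10c), one structured face `q ≠ w`;
* `GS.CMPiece j κ C` : the same before the refinement (`near ≤ β ^ C`);
* `GS.CMAll j C` : no structured face at all.
-/

set_option autoImplicit false
set_option linter.unusedSectionVars false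

namespace Pool.Agent.GM.GS

open Finset Pool.Agent.PWZ Pool.Agent.M3 Pool.Agent.M3.TS Pool.Agent.M3.Bin Pool.Agent.GM Pool.Agent.GM.Mv Pool.Agent.GM.KVer
open Pool.Agent.M3.Mod (ex)

noncomputable section

variable {ι Om Ξ Pt V Γ κ : Type} [Fintype ι] [DecidableEq ι] [Fintype Om] [Fintype Ξ] [Fintype Pt]
  [Fintype V] (S : Sys ι Om Ξ Pt V Γ κ)

/-- **the faces of the natural view of `w`**, coin free; `m` = numbers on the path, `M` = from every state -/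
structure FacesC (w : ι) (F : ι → Mov Ξ ι Pt Γ (V → ℝ)) (m M θ acc : ℝ) : Prop where
  dep : ∀ i, ∀ t g ξ, Dep (univ.erase i) (F i t g ξ)
  coin : ∀ i, ∀ t g ξ ξ', F i t g ξ = F i t g ξ'
  bd : ∀ i, ∀ t g ξ x d, |F i t g ξ x d| ≤ 1
  zero : ∀ i, ∀ g ξ x, F i 0 g ξ x = 0
  /-- the known face is static after its introduction -/
  once : ∀ t ω, S.at' (F w) (t + 1) ω = S.at' (F w) t ω ∨ S.at' (F w) t ω = 0
  fut : ∀ i, i ≠ w → S.Future (univ.erase i) (F i) M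
  tail : ∀ i, i ≠ w → S.MvTail (F i) m
  mean : ∀ i, i ≠ w → S.P.E (S.nmv (F i) S.n) ≤ m
  rare : ∀ i, i ≠ w → S.Rare univ i (F i) θ acc

end

section bin

variable {k N : ℕ} {ι Θ Ξ Q : Type} [Fintype ι] [DecidableEq ι] (σ : V k) [Fintype Θ] [Nonempty Θ] [Fintype Ξ]
  [Nonempty Ξ] [Fintype Q] [Nonempty Q]

/-- HOTNESS of the natural view of `w`: with probability at most `out` there is a time `t` with
`ρ ≤ P(r ≤ |T_t| | Kn w)` -/
def ColdAt (i : ι) (hN : N ≤ k) (h : ℕ) (w : ι)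
    (F : ι → Mov Ξ ι (Q × V k) (Θ × (V k × ℕ)) (V k → ℝ)) (r ρ out : ℝ) : Prop :=
  (PM k N ι Θ Ξ Q).Pr (fun ω => ∃ t ≤ N, ρ ≤ (PM k N ι Θ Ξ Q).ce (Kn w (ex N t))
    (fun v => ind (r ≤ |pT (binSys Θ Ξ Q σ i hN h) univ F t v|)) ω) ≤ out

end bin

/-- **THE CONTRACT CM AFTER THE REFINEMENT** (row A10c) -/
def CMFine (j : ℕ) (κ : ℝ) (c C : ℕ) : Prop :=
  ∀ (ι Θ Ξ Q : Type) [Fintype ι] [DecidableEq ι] [Fintype Θ] [Nonempty Θ] [Fintype Ξ] [Nonempty Ξ] [Fintype Q]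
    [Nonempty Q] (k N : ℕ) (σ : V k) (i w q : ι) (hN : N ≤ k) (h : ℕ), Fintype.card ι = j → q ≠ w →
    ∀ β H Λ : ℝ, 0 < β → β ≤ 1 / 2 → 1 / β ≤ H → (binSys Θ Ξ Q σ i hN h).K ≤ Real.exp (H ^ (c + 2)) →
      (binSys Θ Ξ Q σ i hN h).near ≤ Real.exp (-H ^ c) → H ^ C ≤ Λ → Λ ≤ Real.exp H →
      ∀ F : ι → Mov Ξ ι (Q × V k) (Θ × (V k × ℕ)) (V k → ℝ),
        FacesC (binSys Θ Ξ Q σ i hN h) w F (4 * H) (Real.exp (H ^ (c + 2))) (Real.exp (-Λ)) (β ^ C) →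
        Nonempty (StrT (binSys Θ Ξ Q σ i hN h) univ w q (F q) (4 * H) (Real.exp (H ^ (c + 2)))
          (H * Real.exp ((1 + κ) * Λ))) →
        ColdAt σ i hN h w F β (Real.exp (-H)) (Real.exp (-H))

/-- the contract before the refinement -/
def CMPiece (j : ℕ) (κ : ℝ) (C : ℕ) : Prop :=
  ∀ (ι Θ Ξ Q : Type) [Fintype ι] [DecidableEq ι] [Fintype Θ] [Nonempty Θ] [Fintype Ξ] [Nonempty Ξ] [Fintype Q]
    [Nonempty Q] (k N : ℕ) (σ : V k) (i w q : ι) (hN : N ≤ k) (h : ℕ), Fintype.card ι = j → q ≠ w →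
    ∀ β H Λ : ℝ, 0 < β → β ≤ 1 / 2 → 1 / β ≤ H → (binSys Θ Ξ Q σ i hN h).K ≤ Real.exp H →
      (binSys Θ Ξ Q σ i hN h).near ≤ β ^ C → H ^ C ≤ Λ → Λ ≤ Real.exp H →
      ∀ F : ι → Mov Ξ ι (Q × V k) (Θ × (V k × ℕ)) (V k → ℝ),
        FacesC (binSys Θ Ξ Q σ i hN h) w F (1 + 2 * H) H (Real.exp (-Λ)) (β ^ C) →
        Nonempty (StrF (binSys Θ Ξ Q σ i hN h) univ w q (F q) H (H * Real.exp ((1 + κ) * Λ))) →
        ColdAt σ i hN h w F β (Real.exp (-H)) (Real.exp (-H))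

/-- no structured face -/
def CMAll (j C : ℕ) : Prop :=
  ∀ (ι Θ Ξ Q : Type) [Fintype ι] [DecidableEq ι] [Fintype Θ] [Nonempty Θ] [Fintype Ξ] [Nonempty Ξ] [Fintype Q]
    [Nonempty Q] (k N : ℕ) (σ : V k) (i w : ι) (hN : N ≤ k) (h : ℕ), Fintype.card ι = j →
    ∀ β H : ℝ, 0 < β → β ≤ 1 / 2 → 1 / β ≤ H → (binSys Θ Ξ Q σ i hN h).K ≤ Real.exp H →
      (binSys Θ Ξ Q σ i hN h).near ≤ β ^ C →
      ∀ F : ι → Mov Ξ ι (Q × V k) (Θ × (V k × ℕ)) (V k → ℝ),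
        FacesC (binSys Θ Ξ Q σ i hN h) w F (1 + 2 * H) H (Real.exp (-H ^ C)) (β ^ C) →
        ColdAt σ i hN h w F β (Real.exp (-H)) (Real.exp (-H))

end Pool.Agent.GM.GS
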