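import Pool.Agent.GM.Expert
import Pool.Agent.M3.OneView
import Pool.Agent.M3.Rec

/-!
# GM/LastStep: last step of one layer from cold sets and HARM, every m (row G5, helper54), abstract form

One view: `A t` filtration (all labels), `X, g, D` published process, step, digit, alive = majority stopping of the dead
points `Dd`.  Labels with index `i ∈ S` (finite); `m0 t` = bias of the digit given the class, `u i t` = bias given the
label `i` and everything below, `u' i t` = bias given everything strictly below `i`.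
HARM: `G t` event of the view, `|u' i t| ≤ 1/2` on `G t`, and a point which is not dead and has all `|u' i t| ≤ 1/2` is
in `G t`; `∑_t E 1_(G t) (log (1 + D b) - log (1 + D ex)) ≤ eH`, `b` = bias given all labels, `ex` = product of experts.
COLD: the class `Z i t` (a, x_i, all the noise, cells) of the bias terms of index `i : Option α` (`none` = class).

* `FP.one_view_alive`: the one view theorem, events are charged only at semi points of alive classes;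
* `last_step_sq`: the same as `last_step` with HARM in squares (`GM/Harm`: `Concl.syn`);
* `last_step`: the inequality (L_m) for the published process; `he` is asked only where `s < |X t|` and the class is alive at
  `t + 1` (with `J = ∅`: no events at the semi points);
* `last_step_T`: for `T`;
* `bias_sum`, `low_sum`: the sums of the biases from created entropies (record bound).
-/

set_option autoImplicit false
set_option linter.unusedSectionVars false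

namespace Pool.Agent.M3.FP

open Finset Pool.Agent.PWZ

variable {Om : Type*} [Fintype Om] (P : FP Om) {ι : ℕ → Type*} {A : ∀ t, Om → ι t}
  {X g D : ℕ → Om → ℝ} {e Dd : ℕ → Om → Prop} {s N : ℝ}

/-- THE ONE VIEW THEOREM (`FP.one_view_cold`) with the events only at the semi points of alive classes -/
theorem one_view_alive (H : P.ViewHyp A X g D e (P.Al A Dd (1 / 2)) s N)
    (hDd : ∀ t w, P.p w ≠ 0 → Dd t w → Dd (t + 1) w) {S : ℕ → Om → Prop}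
    (hXS : ∀ t w, P.p w ≠ 0 → s < |X t w| → ¬ Dd t w → S t w) (n : ℕ) {θ : ℝ} (hθn : P.Pr (S n) ≤ θ)
    {α : Type*} (I : Finset α) {ζ : α → ℕ → Type*} (Z : ∀ i t, Om → ζ i t) {ρ : α → ℝ}
    {β : Type*} (J : Finset β) {ζ' : β → ℕ → Type*} (Z' : ∀ j t, Om → ζ' j t) {σ : β → ℝ}
    {b : α → ℕ → Om → ℝ} {c : β → ℕ → Om → ℝ} {b0 : ℕ → Om → ℝ}
    (hbA : ∀ i ∈ I, ∀ t < n, Fac (A t) (b i t)) (hbZ : ∀ i ∈ I, ∀ t < n, Fac (Z i t) (b i t))
    (hbn : ∀ i ∈ I, ∀ t < n, ∀ w, P.p w ≠ 0 → 0 ≤ b i t w)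
    (hcA : ∀ j ∈ J, ∀ t < n, Fac (A (t + 1)) (c j t)) (hcZ : ∀ j ∈ J, ∀ t < n, Fac (Z' j t) (c j t))
    (hcn : ∀ j ∈ J, ∀ t < n, ∀ w, P.p w ≠ 0 → 0 ≤ c j t w)
    (hb0 : ∀ t < n, Fac (A t) (b0 t)) (hb0n : ∀ t < n, ∀ w, P.p w ≠ 0 → 0 ≤ b0 t w)
    (hβ : ∀ t < n, ∀ w, P.p w ≠ 0 → s < |X t w| → P.ce (A t) (D t) w ^ 2 ≤ b0 t w + ∑ i ∈ I, b i t w)
    (he : ∀ t < n, ∀ w, P.p w ≠ 0 → s < |X t w| → P.Al A Dd (1 / 2) (t + 1) w →
      ind (e (t + 1) w) ≤ ∑ j ∈ J, c j t w)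
    (hρ : ∀ i ∈ I, ∀ t < n, ∀ w, P.p w ≠ 0 → b i t w ≠ 0 →
      P.ce (Z i t) (fun v => ind (S t v ∧ ¬ Dd t v)) w ≤ ρ i)
    (hσ : ∀ j ∈ J, ∀ t < n, ∀ w, P.p w ≠ 0 → c j t w ≠ 0 →
      P.ce (Z' j t) (fun v => ind (S t v ∧ ¬ Dd t v)) w ≤ σ j) {s2 : ℝ} (hs : s ≤ s2) :
    (s2 - s) ^ 2 * P.Pr (fun w => ∃ t ≤ n, P.Al A Dd (1 / 2) t w ∧ s2 ≤ |X t w|) ≤
      2 * N * (θ + ∑ t ∈ range n, P.E (fun w => ind (¬ Dd t w) * b0 t w) +
        ∑ i ∈ I, ρ i * ∑ t ∈ range n, P.E (b i t) + ∑ j ∈ J, σ j * ∑ t ∈ range n, P.E (c j t) +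
        P.Pr (Dd n)) := by
  have hN0 : 0 ≤ N := by
    obtain ⟨w, hw⟩ := P.exists_p_ne
    exact (Phi_nonneg _ _).trans (H.bd 0 w hw)
  have h0 := P.energy H hs n
  have hend : P.E (fun w => ind (P.Al A Dd (1 / 2) n w) * Phi s (X n w)) ≤ 2 * N * θ := P.semi_E H hXS hθn
  have hkill : P.Pr (fun w => ¬ P.Al A Dd (1 / 2) n w) ≤ 2 * P.Pr (Dd n) := by
    have := P.al_death H.filt hDd n (1 / 2)
    linarith
  have hlev : ∀ t ∈ range n,
      P.E (fun w => ind (P.Al A Dd (1 / 2) t w ∧ s < |X t w|) * P.ce (A t) (D t) w ^ 2) +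
        P.Pr (fun w => s < |X t w| ∧ e (t + 1) w ∧ P.Al A Dd (1 / 2) (t + 1) w) ≤
      2 * P.E (fun w => ind (¬ Dd t w) * b0 t w) + ∑ i ∈ I, 2 * ρ i * P.E (b i t) +
        ∑ j ∈ J, 2 * σ j * P.E (c j t) := by
    intro t htr
    have ht : t < n := Finset.mem_range.mp htr
    have h1 : P.E (fun w => ind (P.Al A Dd (1 / 2) t w ∧ s < |X t w|) * P.ce (A t) (D t) w ^ 2) ≤
        P.E (fun w => ind (P.Al A Dd (1 / 2) t w) * b0 t w +
          ∑ i ∈ I, ind (P.Al A Dd (1 / 2) t w ∧ s < |X t w|) * b i t w) := by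
      refine P.E_mono (fun w hw => ?_)
      rw [← Finset.mul_sum]
      have h4 := hb0n t ht w hw
      by_cases ha : P.Al A Dd (1 / 2) t w
      · by_cases hx : s < |X t w|
        · rw [ind_of ⟨ha, hx⟩, ind_of ha, one_mul, one_mul, one_mul]
          exact hβ t ht w hw hx
        · rw [ind_not (fun h : P.Al A Dd (1 / 2) t w ∧ s < |X t w| => hx h.2), ind_of ha, zero_mul, zero_mul,
            one_mul, add_zero]
          exact h4
      · rw [ind_not (fun h : P.Al A Dd (1 / 2) t w ∧ s < |X t w| => ha h.1), ind_not ha]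
        simp
    have h2 : P.Pr (fun w => s < |X t w| ∧ e (t + 1) w ∧ P.Al A Dd (1 / 2) (t + 1) w) ≤
        P.E (fun w => ∑ j ∈ J, ind (s < |X t w| ∧ P.Al A Dd (1 / 2) (t + 1) w) * c j t w) := by
      unfold Pr
      refine P.E_mono (fun w hw => ?_)
      rw [← Finset.mul_sum]
      by_cases hq : s < |X t w| ∧ P.Al A Dd (1 / 2) (t + 1) w
      · rw [ind_of hq, one_mul]
        exact (ind_mono (fun h => h.2.1)).trans (he t ht w hw hq.1 hq.2)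
      · rw [ind_not hq, ind_not (fun h : s < |X t w| ∧ e (t + 1) w ∧ P.Al A Dd (1 / 2) (t + 1) w =>
          hq ⟨h.1, h.2.2⟩), zero_mul]
    rw [P.E_add, P.E_sum] at h1
    rw [P.E_sum] at h2
    have h3 := P.alive_E (Dd := Dd) H.filt (hb0 t ht) (hb0n t ht)
    have h4 : ∑ i ∈ I, P.E (fun w => ind (P.Al A Dd (1 / 2) t w ∧ s < |X t w|) * b i t w) ≤
        ∑ i ∈ I, 2 * ρ i * P.E (b i t) :=
      Finset.sum_le_sum (fun i hi => P.loss_bias H.filt H.X_fac hXS (hbA i hi t ht) (hbn i hi t ht)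
        (hbZ i hi t ht) (hρ i hi t ht))
    have h5 : ∑ j ∈ J, P.E (fun w => ind (s < |X t w| ∧ P.Al A Dd (1 / 2) (t + 1) w) * c j t w) ≤
        ∑ j ∈ J, 2 * σ j * P.E (c j t) :=
      Finset.sum_le_sum (fun j hj => P.loss_event H.filt H.X_fac hDd hXS (hcA j hj t ht) (hcn j hj t ht)
        (hcZ j hj t ht) (hσ j hj t ht))
    linarith
  have hsum := Finset.sum_le_sum hlev
  have h7 := mul_le_mul_of_nonneg_left hsum hN0
  have h8 := mul_le_mul_of_nonneg_left hkill hN0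
  have h9 : N * ∑ t ∈ range n, (2 * P.E (fun w => ind (¬ Dd t w) * b0 t w) +
        ∑ i ∈ I, 2 * ρ i * P.E (b i t) + ∑ j ∈ J, 2 * σ j * P.E (c j t)) =
      2 * N * (∑ t ∈ range n, P.E (fun w => ind (¬ Dd t w) * b0 t w) +
        ∑ i ∈ I, ρ i * ∑ t ∈ range n, P.E (b i t) + ∑ j ∈ J, σ j * ∑ t ∈ range n, P.E (c j t)) := by
    have e1 : ∑ t ∈ range n, ∑ i ∈ I, 2 * ρ i * P.E (b i t) =
        2 * ∑ i ∈ I, ρ i * ∑ t ∈ range n, P.E (b i t) := by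
      rw [Finset.sum_comm, Finset.mul_sum]
      refine Finset.sum_congr rfl (fun i _ => ?_)
      rw [← Finset.mul_sum]; ring
    have e2 : ∑ t ∈ range n, ∑ j ∈ J, 2 * σ j * P.E (c j t) =
        2 * ∑ j ∈ J, σ j * ∑ t ∈ range n, P.E (c j t) := by
      rw [Finset.sum_comm, Finset.mul_sum]
      refine Finset.sum_congr rfl (fun j _ => ?_)
      rw [← Finset.mul_sum]; ring
    rw [Finset.sum_add_distrib, Finset.sum_add_distrib, e1, e2, ← Finset.mul_sum]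
    ring
  rw [h9] at h7
  linarith

end Pool.Agent.M3.FP

namespace Pool.Agent.GM

open Finset Pool.Agent.PWZ Pool.Agent.M3

variable {Om : Type*} [Fintype Om] (P : FP Om) {ι : ℕ → Type*} {A : ∀ t, Om → ι t}
  {X g D : ℕ → Om → ℝ} {e Dd : ℕ → Om → Prop} {s N : ℝ}

/-- the product of experts at the time `t` -/
noncomputable def exf {α : Type*} (S : Finset α) (m0 : ℕ → Om → ℝ) (u u' : α → ℕ → Om → ℝ) (t : ℕ) (w : Om) : ℝ :=
  ex (m0 t w) S (fun i => u i t w) (fun i => u' i t w)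

/-- **(L_m)**, published process, HARM in squares -/
theorem last_step_sq (H : P.ViewHyp A X g D e (P.Al A Dd (1 / 2)) s N)
    (hDd : ∀ t w, P.p w ≠ 0 → Dd t w → Dd (t + 1) w) {Sm : ℕ → Om → Prop}
    (hXS : ∀ t w, P.p w ≠ 0 → s < |X t w| → ¬ Dd t w → Sm t w) (n : ℕ) {θ : ℝ} (hθn : P.Pr (Sm n) ≤ θ)
    {α : Type*} (S : Finset α) {m0 : ℕ → Om → ℝ} {u u' : α → ℕ → Om → ℝ} {G : ℕ → Om → Prop}
    (fm : ∀ t < n, Fac (A t) (m0 t)) (fu : ∀ i ∈ S, ∀ t < n, Fac (A t) (u i t))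
    (fu' : ∀ i ∈ S, ∀ t < n, Fac (A t) (u' i t))
    (hm : ∀ t < n, ∀ w, P.p w ≠ 0 → |m0 t w| ≤ 1) (hu : ∀ t < n, ∀ w, P.p w ≠ 0 → ∀ i ∈ S, |u i t w| ≤ 1)
    (hDm : ∀ t < n, ∀ w, P.p w ≠ 0 → 0 < 1 + D t w * m0 t w)
    (hDu : ∀ t < n, ∀ w, P.p w ≠ 0 → ∀ i ∈ S, 0 < 1 + D t w * u i t w)
    (hG : ∀ t < n, ∀ v w, A t v = A t w → (G t v ↔ G t w)) (hGu : ∀ t < n, ∀ w, G t w → ∀ i ∈ S, |u' i t w| ≤ 1 / 2)
    (hGD : ∀ t < n, ∀ w, P.p w ≠ 0 → ¬ Dd t w → (∀ i ∈ S, |u' i t w| ≤ 1 / 2) → G t w) {e2 : ℝ}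
    (harm : ∑ t ∈ range n, P.E (fun w => ind (G t w) * (P.ce (A t) (D t) w - exf S m0 u u' t w) ^ 2) ≤ e2)
    {ζ : Option α → ℕ → Type*} (Z : ∀ i t, Om → ζ i t) {ρ : Option α → ℝ}
    (zm : ∀ t < n, Fac (Z none t) (m0 t)) (zu : ∀ i ∈ S, ∀ t < n, Fac (Z (some i) t) (u i t))
    (zu' : ∀ i ∈ S, ∀ t < n, Fac (Z (some i) t) (u' i t))
    (hρ : ∀ i, i = none ∨ (∃ j ∈ S, i = some j) → ∀ t < n, ∀ w, P.p w ≠ 0 →
      P.ce (Z i t) (fun v => ind (Sm t v ∧ ¬ Dd t v)) w ≤ ρ i)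
    (hρ0 : ∀ i, 0 ≤ ρ i) {b0 : ℝ} {b b' : α → ℝ}
    (hb0 : ∑ t ∈ range n, P.E (fun w => m0 t w ^ 2) ≤ b0)
    (hb : ∀ i ∈ S, ∑ t ∈ range n, P.E (fun w => (u i t w - u' i t w) ^ 2) ≤ b i)
    (hb' : ∀ i ∈ S, ∑ t ∈ range n, P.E (fun w => u' i t w ^ 2) ≤ b' i)
    {β : Type*} (J : Finset β) {ζ' : β → ℕ → Type*} (Z' : ∀ j t, Om → ζ' j t) {σ : β → ℝ} {c : β → ℕ → Om → ℝ}
    (hcA : ∀ j ∈ J, ∀ t < n, Fac (A (t + 1)) (c j t)) (hcZ : ∀ j ∈ J, ∀ t < n, Fac (Z' j t) (c j t))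
    (hcn : ∀ j ∈ J, ∀ t < n, ∀ w, P.p w ≠ 0 → 0 ≤ c j t w)
    (he : ∀ t < n, ∀ w, P.p w ≠ 0 → s < |X t w| → P.Al A Dd (1 / 2) (t + 1) w →
      ind (e (t + 1) w) ≤ ∑ j ∈ J, c j t w)
    (hσ : ∀ j ∈ J, ∀ t < n, ∀ w, P.p w ≠ 0 → c j t w ≠ 0 →
      P.ce (Z' j t) (fun v => ind (Sm t v ∧ ¬ Dd t v)) w ≤ σ j) {s2 : ℝ} (hs : s ≤ s2) :
    (s2 - s) ^ 2 * P.Pr (fun w => ∃ t ≤ n, P.Al A Dd (1 / 2) t w ∧ s2 ≤ |X t w|) ≤
      2 * N * (θ + 2 * e2 + (16 * (S.card + 1) * (ρ none * b0) +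
        ∑ i ∈ S, ρ (some i) * (4 * b' i + 16 * (S.card + 1) * b i)) +
        ∑ j ∈ J, σ j * ∑ t ∈ range n, P.E (c j t) + P.Pr (Dd n)) := by
  classical
  set K : ℝ := 16 * (S.card + 1) with hK
  have hK0 : 0 ≤ K := by positivity
  have hN0 : 0 ≤ N := by
    obtain ⟨w, hw⟩ := P.exists_p_ne
    exact (Phi_nonneg _ _).trans (H.bd 0 w hw)
  set bb : Option α → ℕ → Om → ℝ := fun i t w =>
    match i with
    | none => K * m0 t w ^ 2
    | some i => ind (¬ |u' i t w| ≤ 1 / 2) + K * (u i t w - u' i t w) ^ 2 with hbb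
  set bz : ℕ → Om → ℝ := fun t w => 2 * (ind (G t w) * (P.ce (A t) (D t) w - exf S m0 u u' t w) ^ 2) +
    ind (¬ G t w ∧ ∀ i ∈ S, |u' i t w| ≤ 1 / 2) with hbz
  set I : Finset (Option α) := Finset.insertNone S with hI
  have memI : ∀ i ∈ I, i = none ∨ (∃ j ∈ S, i = some j) := by
    intro i hi
    cases i with
    | none => exact Or.inl rfl
    | some j => exact Or.inr ⟨j, by simpa [hI] using hi, rfl⟩
  have hq : ∀ t < n, Fac (A t) (exf S m0 u u' t) := fun t ht v w h =>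
    ex_congr (fm t ht v w h) (fun i hi => fu i hi t ht v w h) (fun i hi => fu' i hi t ht v w h)
  have hbn : ∀ i ∈ I, ∀ t < n, ∀ w, P.p w ≠ 0 → 0 ≤ bb i t w := by
    intro i _ t _ w _
    cases i with
    | none => exact mul_nonneg hK0 (sq_nonneg _)
    | some i => exact add_nonneg (ind_nonneg _) (mul_nonneg hK0 (sq_nonneg _))
  have hbA : ∀ i ∈ I, ∀ t < n, Fac (A t) (bb i t) := by
    intro i hi t ht v w h
    cases i with
    | none => simp only [hbb, fm t ht v w h]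
    | some j =>
      have hj : j ∈ S := by simpa [hI] using hi
      simp only [hbb, fu j hj t ht v w h, fu' j hj t ht v w h]
  have hbZ : ∀ i ∈ I, ∀ t < n, Fac (Z i t) (bb i t) := by
    intro i hi t ht v w h
    cases i with
    | none => simp only [hbb, zm t ht v w h]
    | some j =>
      have hj : j ∈ S := by simpa [hI] using hi
      simp only [hbb, zu j hj t ht v w h, zu' j hj t ht v w h]
  have hmain := P.one_view_alive (Dd := Dd) H hDd hXS n hθn I Z (ρ := ρ) J Z' (σ := σ) (b := bb) (c := c) (b0 := bz)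
    hbA hbZ
    hbn hcA hcZ hcn
    (fun t ht v w h => by
      have e1 := hq t ht v w h
      have e2 := P.ce_fac (A t) (D t) v w h
      have e3 : (∀ i ∈ S, |u' i t v| ≤ 1 / 2) ↔ (∀ i ∈ S, |u' i t w| ≤ 1 / 2) :=
        forall₂_congr (fun i hi => by rw [fu' i hi t ht v w h])
      simp only [hbz, e1, e2, hG t ht v w h, e3])
    (fun t _ w _ => add_nonneg (mul_nonneg zero_le_two (mul_nonneg (ind_nonneg _) (sq_nonneg _))) (ind_nonneg _))
    (fun t ht w hw _ => by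
      have h1 := sq_le_expert P (A := A t) (D := D t) (S := S) (m0 := m0 t) (u := fun i => u i t)
        (u' := fun i => u' i t) (G := G t) (H.digit t) (hm t ht) (hu t ht) (hDm t ht) (hDu t ht) (hGu t ht) hw
      rw [hI, Finset.sum_insertNone]
      exact h1)
    he (fun i hi t ht w hw _ => hρ i (memI i hi) t ht w hw) hσ hs
  refine hmain.trans (mul_le_mul_of_nonneg_left ?_ (mul_nonneg zero_le_two hN0))
  -- the synergy
  have hz : ∑ t ∈ range n, P.E (fun w => ind (¬ Dd t w) * bz t w) ≤ 2 * e2 := by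
    have h1 : ∀ t ∈ range n, P.E (fun w => ind (¬ Dd t w) * bz t w) ≤
        2 * P.E (fun w => ind (G t w) * (P.ce (A t) (D t) w - exf S m0 u u' t w) ^ 2) := by
      intro t htr
      have ht : t < n := Finset.mem_range.mp htr
      rw [← FP.E_smul]
      refine P.E_mono (fun w hw => ?_)
      have h4 : 0 ≤ 2 * (ind (G t w) * (P.ce (A t) (D t) w - exf S m0 u u' t w) ^ 2) :=
        mul_nonneg zero_le_two (mul_nonneg (ind_nonneg _) (sq_nonneg _))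
      by_cases hd : Dd t w
      · rw [ind_not (not_not.mpr hd), zero_mul]; exact h4
      · rw [ind_of hd, one_mul]
        simp only [hbz]
        rw [ind_not (fun h : ¬ G t w ∧ ∀ i ∈ S, |u' i t w| ≤ 1 / 2 => h.1 (hGD t ht w hw hd h.2)), add_zero]
    have h6 := Finset.sum_le_sum h1
    rw [← Finset.mul_sum] at h6
    linarith
  -- the biases
  have hsb : ∑ i ∈ I, ρ i * ∑ t ∈ range n, P.E (bb i t) ≤
      K * (ρ none * b0) + ∑ i ∈ S, ρ (some i) * (4 * b' i + K * b i) := by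
    rw [hI, Finset.sum_insertNone]
    have h1 : ρ none * ∑ t ∈ range n, P.E (bb none t) ≤ K * (ρ none * b0) := by
      have e1 : ∑ t ∈ range n, P.E (bb none t) = K * ∑ t ∈ range n, P.E (fun w => m0 t w ^ 2) := by
        rw [Finset.mul_sum]
        exact Finset.sum_congr rfl (fun t _ => FP.E_smul _ _ _)
      rw [e1]
      have := mul_le_mul_of_nonneg_left (mul_le_mul_of_nonneg_left hb0 hK0) (hρ0 none)
      linarith
    have h2 : ∀ i ∈ S, ρ (some i) * ∑ t ∈ range n, P.E (bb (some i) t) ≤ ρ (some i) * (4 * b' i + K * b i) := by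
      intro i hi
      refine mul_le_mul_of_nonneg_left ?_ (hρ0 _)
      have e1 : ∀ t ∈ range n, P.E (bb (some i) t) ≤ 4 * P.E (fun w => u' i t w ^ 2) +
          K * P.E (fun w => (u i t w - u' i t w) ^ 2) := by
        intro t _
        have e2 : P.E (bb (some i) t) = P.E (fun w => ind (¬ |u' i t w| ≤ 1 / 2)) +
            K * P.E (fun w => (u i t w - u' i t w) ^ 2) := by
          rw [← FP.E_smul, ← FP.E_add]
        rw [e2]
        have := E_ind_half_le P (f := u' i t)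
        linarith
      have e3 := Finset.sum_le_sum e1
      rw [Finset.sum_add_distrib, ← Finset.mul_sum, ← Finset.mul_sum] at e3
      have e4 := mul_le_mul_of_nonneg_left (hb i hi) hK0
      have e5 := hb' i hi
      linarith
    exact add_le_add h1 (Finset.sum_le_sum h2)
  linarith

/-- **(L_m)**, published process -/
theorem last_step (H : P.ViewHyp A X g D e (P.Al A Dd (1 / 2)) s N)
    (hDd : ∀ t w, P.p w ≠ 0 → Dd t w → Dd (t + 1) w) {Sm : ℕ → Om → Prop}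
    (hXS : ∀ t w, P.p w ≠ 0 → s < |X t w| → ¬ Dd t w → Sm t w) (n : ℕ) {θ : ℝ} (hθn : P.Pr (Sm n) ≤ θ)
    {α : Type*} (S : Finset α) {m0 : ℕ → Om → ℝ} {u u' : α → ℕ → Om → ℝ} {G : ℕ → Om → Prop}
    (fm : ∀ t < n, Fac (A t) (m0 t)) (fu : ∀ i ∈ S, ∀ t < n, Fac (A t) (u i t))
    (fu' : ∀ i ∈ S, ∀ t < n, Fac (A t) (u' i t))
    (hm : ∀ t < n, ∀ w, P.p w ≠ 0 → |m0 t w| ≤ 1) (hu : ∀ t < n, ∀ w, P.p w ≠ 0 → ∀ i ∈ S, |u i t w| ≤ 1)
    (hDm : ∀ t < n, ∀ w, P.p w ≠ 0 → 0 < 1 + D t w * m0 t w)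
    (hDu : ∀ t < n, ∀ w, P.p w ≠ 0 → ∀ i ∈ S, 0 < 1 + D t w * u i t w)
    (hG : ∀ t < n, ∀ v w, A t v = A t w → (G t v ↔ G t w)) (hGu : ∀ t < n, ∀ w, G t w → ∀ i ∈ S, |u' i t w| ≤ 1 / 2)
    (hGD : ∀ t < n, ∀ w, P.p w ≠ 0 → ¬ Dd t w → (∀ i ∈ S, |u' i t w| ≤ 1 / 2) → G t w) {eH : ℝ}
    (harm : ∑ t ∈ range n, P.E (fun w => ind (G t w) * (Real.log (1 + D t w * P.ce (A t) (D t) w) -
      Real.log (1 + D t w * exf S m0 u u' t w))) ≤ eH)
    {ζ : Option α → ℕ → Type*} (Z : ∀ i t, Om → ζ i t) {ρ : Option α → ℝ}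
    (zm : ∀ t < n, Fac (Z none t) (m0 t)) (zu : ∀ i ∈ S, ∀ t < n, Fac (Z (some i) t) (u i t))
    (zu' : ∀ i ∈ S, ∀ t < n, Fac (Z (some i) t) (u' i t))
    (hρ : ∀ i, i = none ∨ (∃ j ∈ S, i = some j) → ∀ t < n, ∀ w, P.p w ≠ 0 →
      P.ce (Z i t) (fun v => ind (Sm t v ∧ ¬ Dd t v)) w ≤ ρ i)
    (hρ0 : ∀ i, 0 ≤ ρ i) {b0 : ℝ} {b b' : α → ℝ}
    (hb0 : ∑ t ∈ range n, P.E (fun w => m0 t w ^ 2) ≤ b0)
    (hb : ∀ i ∈ S, ∑ t ∈ range n, P.E (fun w => (u i t w - u' i t w) ^ 2) ≤ b i)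
    (hb' : ∀ i ∈ S, ∑ t ∈ range n, P.E (fun w => u' i t w ^ 2) ≤ b' i)
    {β : Type*} (J : Finset β) {ζ' : β → ℕ → Type*} (Z' : ∀ j t, Om → ζ' j t) {σ : β → ℝ} {c : β → ℕ → Om → ℝ}
    (hcA : ∀ j ∈ J, ∀ t < n, Fac (A (t + 1)) (c j t)) (hcZ : ∀ j ∈ J, ∀ t < n, Fac (Z' j t) (c j t))
    (hcn : ∀ j ∈ J, ∀ t < n, ∀ w, P.p w ≠ 0 → 0 ≤ c j t w)
    (he : ∀ t < n, ∀ w, P.p w ≠ 0 → s < |X t w| → P.Al A Dd (1 / 2) (t + 1) w →
      ind (e (t + 1) w) ≤ ∑ j ∈ J, c j t w)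
    (hσ : ∀ j ∈ J, ∀ t < n, ∀ w, P.p w ≠ 0 → c j t w ≠ 0 →
      P.ce (Z' j t) (fun v => ind (Sm t v ∧ ¬ Dd t v)) w ≤ σ j) {s2 : ℝ} (hs : s ≤ s2) :
    (s2 - s) ^ 2 * P.Pr (fun w => ∃ t ≤ n, P.Al A Dd (1 / 2) t w ∧ s2 ≤ |X t w|) ≤
      2 * N * (θ + 4 * eH + (16 * (S.card + 1) * (ρ none * b0) +
        ∑ i ∈ S, ρ (some i) * (4 * b' i + 16 * (S.card + 1) * b i)) +
        ∑ j ∈ J, σ j * ∑ t ∈ range n, P.E (c j t) + P.Pr (Dd n)) := by
  have h := last_step_sq P H hDd hXS n hθn S fm fu fu' hm hu hDm hDu hG hGu hGD (e2 := 2 * eH) (by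
      have h1 : ∀ t ∈ range n, P.E (fun w => ind (G t w) * (P.ce (A t) (D t) w - exf S m0 u u' t w) ^ 2) ≤
          2 * P.E (fun w => ind (G t w) * (Real.log (1 + D t w * P.ce (A t) (D t) w) -
            Real.log (1 + D t w * exf S m0 u u' t w))) := by
        intro t htr
        have ht : t < n := Finset.mem_range.mp htr
        exact expert_kl P (A := A t) (D := D t) (S := S) (m0 := m0 t) (u := fun i => u i t)
          (u' := fun i => u' i t) (G := G t) (H.digit t) (fm t ht) (fun i hi => fu i hi t ht)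
          (fun i hi => fu' i hi t ht) (hG t ht) (hGu t ht) (hm t ht) (hu t ht) (hDm t ht) (hDu t ht)
      have h6 := Finset.sum_le_sum h1
      rw [← Finset.mul_sum] at h6
      linarith) Z zm zu zu' hρ hρ0 hb0 hb hb' J Z' hcA hcZ hcn he hσ hs
  refine h.trans (le_of_eq ?_)
  ring

/-- **(L_m)** for `T`: `S' t` (say `|T t| ≥ 5 r'`) and not dead implies `s2 ≤ |X t|` -/
theorem last_step_T (H : P.ViewHyp A X g D e (P.Al A Dd (1 / 2)) s N)
    (hDd : ∀ t w, P.p w ≠ 0 → Dd t w → Dd (t + 1) w) {S' : ℕ → Om → Prop} {s2 : ℝ}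
    (hSX : ∀ t w, P.p w ≠ 0 → S' t w → ¬ Dd t w → s2 ≤ |X t w|) (n : ℕ) (hs : s < s2) {L : ℝ}
    (hL : (s2 - s) ^ 2 * P.Pr (fun w => ∃ t ≤ n, P.Al A Dd (1 / 2) t w ∧ s2 ≤ |X t w|) ≤ L) :
    P.Pr (fun w => ∃ t ≤ n, S' t w) ≤ L / (s2 - s) ^ 2 + 3 * P.Pr (Dd n) := by
  have h1 := P.one_view_T H hDd hSX n
  have h2 : 0 < (s2 - s) ^ 2 := by have := sub_pos.mpr hs; positivity
  have h3 : P.Pr (fun w => ∃ t ≤ n, P.Al A Dd (1 / 2) t w ∧ s2 ≤ |X t w|) ≤ L / (s2 - s) ^ 2 := by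
    rw [le_div_iff₀ h2, mul_comm]; exact hL
  linarith

/-- sum of the squares of the biases of a label `Lb` over the labels below (`W t` = labels strictly below, known
coordinates, path) -/
theorem bias_sum {κ ν : ℕ → Type*} (W : ∀ t, Om → κ t) (Lb : ∀ t, Om → ν t) (hW : Filt W)
    (hD : ∀ t, Fac (W (t + 1)) (D t)) (hd : ∀ t w, P.p w ≠ 0 → D t w = 1 ∨ D t w = -1) (n : ℕ) :
    ∑ t ∈ range n, P.E (fun w => (P.ce (fun v => (Lb t v, W t v)) (D t) w - P.ce (W t) (D t) w) ^ 2) ≤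
      2 * (P.Hc (Lb 0) (W 0) + ∑ t ∈ range n, P.Hc (Lb (t + 1)) (fun w => (Lb t w, W (t + 1) w))) :=
  P.rec_bias W Lb D hW hD hd n

/-- sum of the squares of the biases given everything strictly below: the digit is fair given `Q t` -/
theorem low_sum {κ ν : ℕ → Type*} (Q : ∀ t, Om → κ t) (W : ∀ t, Om → ν t) (hQ : Filt Q)
    (hD : ∀ t, Fac (Q (t + 1)) (D t)) (hd : ∀ t w, P.p w ≠ 0 → D t w = 1 ∨ D t w = -1)
    (fair : ∀ t w, P.p w ≠ 0 → P.ce (Q t) (D t) w = 0) (n : ℕ) :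
    ∑ t ∈ range n, P.E (fun w => P.ce (fun v => (W t v, Q t v)) (D t) w ^ 2) ≤
      2 * (P.Hc (W 0) (Q 0) + ∑ t ∈ range n, P.Hc (W (t + 1)) (fun w => (W t w, Q (t + 1) w))) := by
  refine le_trans (le_of_eq ?_) (P.rec_bias Q W D hQ hD hd n)
  refine Finset.sum_congr rfl (fun t _ => P.E_congr (fun w hw => ?_))
  rw [fair t w hw, sub_zero]

end Pool.Agent.GM
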