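import Pool.Agent.M3.S3.Thm3
import Pool.Agent.GM.LastStep

/-!
# GM/Harm: the contract HARM(K) (rows H4, ED.2, G5.0 (H)), statement only, helper11

`K` = the known vertices (`k = |K| ≥ 2`), `X` = hidden points, `β` = known points, uniform law on `X × (K → β)`, nested
partitions `qa t` of `X` and `qb t` of `β` (the same for all known vertices).  Labels as KERNELS (noise integrated), one label
for each `l : K`: `kf t l x y F` = probability of `F` given the hidden point `x` and the known points `y`; it depends on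
`y l` only through the cell `qb t (y l)`.  It is `M3.S3.Dat` for `|K| = 2`.

* `HD` data, `HD.Thick al`, `HD.Hyp` hypotheses ((H1) thickness, (H2) entropies created FROM EVERY STATE, (H3) number of
  changes for every `x`, `y`), `HD.P t` = law of `(x, y, labels)` at the time `t`;
* `Sys U` = cumulative systems of classes `U I`, `I ≠ univ`, `U I t` = function of `(x, y_I, node)`;
* expert of `J`: `eJ U t J` = everything known at `J`: `y_J`, node, classes `U I`, `I ⊆ J`, label `l` if `J` contains all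
  vertices but `l`;  `eL` = the same strictly below `J`;  `eA` = everything;
* `mm`, `uu`, `ul`, `ua` = the conditional means of the digit;
* `Concl` : CONCLUSION: squares of the biases, experts on the event `G` (all lower biases at most `1/2`), exceptional
  increasing event `dd`;
* `HarmS K κ` STRONG form (price `N` arbitrary, `N ≥ (2 Λ)^C`; error `C Λ^C N^(-κ)`, bits `N^C`); `HarmW K` WEAK form (error
  `1/Λ`, bits `exp ((log 2Λ)^C)`).
-/

set_option autoImplicit false
set_option linter.unusedSectionVars false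

namespace Pool.Agent.GM.Harm

open Finset Pool.Agent.PWZ Pool.Agent.M3
open Pool.Agent.M3.S3 (avg law ent)

noncomputable section

/-- the data -/
structure HD (K X β γ φ : Type*) where
  qa : ℕ → X → γ
  qb : ℕ → β → γ
  kf : ℕ → K → X → (K → β) → φ → ℝ
  ra : ∀ t x x', qa (t + 1) x = qa (t + 1) x' → qa t x = qa t x'
  rb : ∀ t b b', qb (t + 1) b = qb (t + 1) b' → qb t b = qb t b'
  dep : ∀ t l x y y', (∀ j, j ≠ l → y j = y' j) → qb t (y l) = qb t (y' l) → kf t l x y = kf t l x y'

/-- sample points: hidden point, known points, labels -/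
abbrev Pt (K X β φ : Type*) := X × (K → β) × (K → φ)

namespace HD

variable {K X β γ φ : Type} [Fintype K] [DecidableEq K] [Fintype X] [Fintype β] [Fintype φ] (D : HD K X β γ φ)

open Classical in
/-- cell of a hidden point -/
def cA (t : ℕ) (x : X) : Finset X := univ.filter fun x' => D.qa t x' = D.qa t x

open Classical in
/-- cell of a known point -/
def cB (t : ℕ) (b : β) : Finset β := univ.filter fun b' => D.qb t b' = D.qb t b

/-- the labels are laws; thick with the constant `al` -/
structure Thick (al : ℝ) : Prop where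
  pos : 0 < al
  nn : ∀ t l x y F, 0 ≤ D.kf t l x y F
  one : ∀ t l x y, ∑ F, D.kf t l x y F = 1
  thick : ∀ t l x x' y F, D.qa t x = D.qa t x' → D.kf t l x y F ≠ 0 → al ≤ D.kf t l x' y F

/-- mean over the hidden point in its cell and the missing known point in its cell -/
def mean (t : ℕ) (l : K) (x : X) (y : K → β) (f : X → (K → β) → ℝ) : ℝ :=
  avg (D.cA t x) fun x' => avg (D.cB t (y l)) fun b => f x' (Function.update y l b)

/-- entropy of the label `l` of the time `t` on the cell of the time `s` -/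
def H (s t : ℕ) (l : K) (x : X) (y : K → β) : ℝ := ent fun F => law (D.cA s x) (fun x' => D.kf t l x' y) F

/-- the hypotheses besides the thickness `D.Thick al`; `T` = number of times -/
structure Hyp (dg : ℕ → X → ℝ) (pr : ℕ → K → φ → φ) (al : ℝ) (T : ℕ) (Lam : ℝ) : Prop where
  Lam1 : 1 ≤ Lam
  /-- (H1) -/
  alL : Real.exp (-Lam) ≤ al
  dg_val : ∀ t x, dg t x = 1 ∨ dg t x = -1
  dg_cell : ∀ t < T, ∀ x x', D.qa (t + 1) x = D.qa (t + 1) x' ↔ D.qa t x = D.qa t x' ∧ dg t x = dg t x'
  dg_bal : ∀ t < T, ∀ x, ∑ x' ∈ D.cA t x, dg t x' = 0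
  half : ∀ t < T, (∀ b, D.cB (t + 1) b = D.cB t b) ∨ ∀ b, 2 * (D.cB (t + 1) b).card = (D.cB t b).card
  /-- cumulative labels -/
  kf_pr : ∀ t < T, ∀ l x y F, D.kf t l x y F = ∑ F', ind (pr t l F' = F) * D.kf (t + 1) l x y F'
  /-- (H2), from every state of the point of the label -/
  H2 : ∀ s ≤ T, ∀ l x y, D.mean s l x y (fun x' y' => D.H s s l x' y' +
    ∑ t ∈ Ico s T, (D.H (t + 1) (t + 1) l x' y' - D.H (t + 1) t l x' y')) ≤ Lam
  /-- (H3) -/
  H3 : ∀ l x y, ∑ t ∈ range T, ind (∃ x' ∈ D.cA (t + 1) x, D.kf (t + 1) l x' y ≠ D.kf t l x' y) ≤ Real.exp Lam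

variable {D} [Nonempty X] [Nonempty β]

/-- the law of the time `t` -/
def P {al : ℝ} (h : D.Thick al) (t : ℕ) : FP (Pt K X β φ) where
  p w := (∏ l, D.kf t l w.1 w.2.1 (w.2.2 l)) / (Fintype.card X * (Fintype.card β : ℝ) ^ Fintype.card K)
  nn w := by
    have := fun l => h.nn t l w.1 w.2.1 (w.2.2 l)
    exact div_nonneg (Finset.prod_nonneg fun l _ => this l) (by positivity)
  tot := by
    classical
    have h1 : ∀ (x : X) (y : K → β), ∑ F : K → φ, ∏ l, D.kf t l x y (F l) = 1 := by
      intro x y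
      have h2 := Finset.prod_univ_sum (fun _ : K => (univ : Finset φ)) (fun l F => D.kf t l x y F)
      rw [Fintype.piFinset_univ] at h2
      rw [← h2]
      exact Finset.prod_eq_one fun l _ => h.one t l x y
    rw [← Finset.sum_div, Fintype.sum_prod_type]
    have h3 : ∀ x : X, ∑ w : (K → β) × (K → φ), ∏ l, D.kf t l x w.1 (w.2 l) = (Fintype.card β : ℝ) ^ Fintype.card K := by
      intro x
      rw [Fintype.sum_prod_type]
      simp only [h1]
      rw [Finset.sum_const, Finset.card_univ, nsmul_eq_mul, mul_one, Fintype.card_fun]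
      push_cast
      rfl
    rw [Finset.sum_congr rfl fun x _ => h3 x, Finset.sum_const, Finset.card_univ, nsmul_eq_mul]
    have h4 : (Fintype.card X : ℝ) ≠ 0 := by exact_mod_cast Fintype.card_ne_zero
    have h5 : (Fintype.card β : ℝ) ≠ 0 := by exact_mod_cast Fintype.card_ne_zero
    exact div_self (mul_ne_zero h4 (pow_ne_zero _ h5))

end HD

variable {K X β γ φ υ : Type} [Fintype K] [DecidableEq K] [Fintype X] [Fintype β] [Fintype φ] [Nonempty X] [Nonempty β]
  (D : HD K X β γ φ)

/-- the node of a sample point -/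
def nd (t : ℕ) (w : Pt K X β φ) : γ × (K → γ) := (D.qa t w.1, fun j => D.qb t (w.2.1 j))

/-- cumulative systems of classes -/
structure Sys (U : Finset K → ℕ → X → (K → β) → υ) : Prop where
  dep : ∀ I t x y y', (∀ j ∈ I, y j = y' j) → (∀ j, D.qb t (y j) = D.qb t (y' j)) → U I t x y = U I t x y'
  ref : ∀ I t x y x' y', (∀ j ∈ I, y j = y' j) → D.qa (t + 1) x = D.qa (t + 1) x' →
    (∀ j, D.qb (t + 1) (y j) = D.qb (t + 1) (y' j)) → U I (t + 1) x y = U I (t + 1) x' y' → U I t x y = U I t x' y'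

variable (U : Finset K → ℕ → X → (K → β) → υ)

/-- the known points of `J` -/
def yJ (J : Finset K) (w : Pt K X β φ) : {j // j ∈ J} → β := fun j => w.2.1 j.1

open Classical in
/-- everything known at `J` -/
def eJ (t : ℕ) (J : Finset K) (w : Pt K X β φ) :
    ({j // j ∈ J} → β) × (γ × (K → γ)) × (Finset K → Option υ) × (K → Option φ) :=
  (yJ J w, nd D t w, (fun I => if I ⊆ J then some (U I t w.1 w.2.1) else none),
    fun l => if univ.erase l ⊆ J then some (w.2.2 l) else none)

open Classical in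
/-- everything known strictly below `J` (and the points of `J`) -/
def eL (t : ℕ) (J : Finset K) (w : Pt K X β φ) :
    ({j // j ∈ J} → β) × (γ × (K → γ)) × (Finset K → Option υ) :=
  (yJ J w, nd D t w, fun I => if I ⊂ J then some (U I t w.1 w.2.1) else none)

open Classical in
/-- everything known in the view -/
def eA (t : ℕ) (w : Pt K X β φ) : (K → β) × (γ × (K → γ)) × (Finset K → Option υ) × (K → φ) :=
  (w.2.1, nd D t w, (fun I => if I ≠ univ then some (U I t w.1 w.2.1) else none), w.2.2)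

variable {D} {al : ℝ} (h : D.Thick al) (dg : ℕ → X → ℝ)

/-- mean of the digit given the class -/
def mm (t : ℕ) (w : Pt K X β φ) : ℝ := (D.P h t).ce (eJ D U t ∅) (fun v => dg t v.1) w

/-- mean of the digit given the expert `J` -/
def uu (J : Finset K) (t : ℕ) (w : Pt K X β φ) : ℝ := (D.P h t).ce (eJ D U t J) (fun v => dg t v.1) w

/-- mean of the digit given everything strictly below `J` -/
def ul (J : Finset K) (t : ℕ) (w : Pt K X β φ) : ℝ := (D.P h t).ce (eL D U t J) (fun v => dg t v.1) w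

/-- mean of the digit given everything -/
def ua (t : ℕ) (w : Pt K X β φ) : ℝ := (D.P h t).ce (eA D U t) (fun v => dg t v.1) w

/-- the experts -/
def SS (K : Type) [Fintype K] [DecidableEq K] : Finset (Finset K) := univ.filter fun J => J.Nonempty ∧ J ≠ univ

/-- THE CONCLUSION: `B` bounds the squares of the biases, `e` the error of the experts and the exceptional event -/
structure Concl (pr : ℕ → K → φ → φ) (T : ℕ) (B e : ℝ) (G dd : ℕ → Pt K X β φ → Prop) : Prop where
  sys : Sys D U
  m2 : ∑ t ∈ range T, (D.P h t).E (fun w => mm U h dg t w ^ 2) ≤ B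
  u2 : ∀ J ∈ SS K, ∑ t ∈ range T, (D.P h t).E (fun w => (uu U h dg J t w - ul U h dg J t w) ^ 2) ≤ B
  l2 : ∀ J ∈ SS K, ∑ t ∈ range T, (D.P h t).E (fun w => ul U h dg J t w ^ 2) ≤ B
  Gm : ∀ t < T, ∀ v w, eA D U t v = eA D U t w → (G t v ↔ G t w)
  Gl : ∀ t < T, ∀ w, G t w → ∀ J ∈ SS K, |ul U h dg J t w| ≤ 1 / 2
  Gd : ∀ t < T, ∀ w, (D.P h t).p w ≠ 0 → ¬ dd t w → (∀ J ∈ SS K, |ul U h dg J t w| ≤ 1 / 2) → G t w
  /-- the exceptional event: cumulative, a function of the positions and of the labels -/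
  inc : ∀ t < T, ∀ x y (F : K → φ), dd t (x, y, fun l => pr t l (F l)) → dd (t + 1) (x, y, F)
  dq : (D.P h T).Pr (dd T) ≤ e
  syn : ∑ t ∈ range T, (D.P h t).E (fun w => ind (G t w) *
    (ua U h dg t w - exf (SS K) (mm U h dg) (uu U h dg) (ul U h dg) t w) ^ 2) ≤ e

end

/-- **HARM(K), STRONG FORM**, exponent `κ` -/
def HarmS (K : Type) [Fintype K] [DecidableEq K] (κ : ℝ) : Prop :=
  ∃ C : ℕ, ∀ (X β γ φ : Type) [Fintype X] [Fintype β] [Fintype φ] [Nonempty X] [Nonempty β]
    (D : HD K X β γ φ) (al : ℝ) (h : D.Thick al) (dg : ℕ → X → ℝ) (pr : ℕ → K → φ → φ) (T : ℕ) (Lam N : ℝ),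
    D.Hyp dg pr al T Lam → (2 * Lam) ^ C ≤ N →
    ∃ (υ : Type) (U : Finset K → ℕ → X → (K → β) → υ) (G dd : ℕ → Pt K X β φ → Prop),
      Concl U h dg pr T (N ^ C) (C * Lam ^ C * N ^ (-κ)) G dd

/-- **HARM(K), WEAK FORM** -/
def HarmW (K : Type) [Fintype K] [DecidableEq K] : Prop :=
  ∃ C : ℕ, ∀ (X β γ φ : Type) [Fintype X] [Fintype β] [Fintype φ] [Nonempty X] [Nonempty β]
    (D : HD K X β γ φ) (al : ℝ) (h : D.Thick al) (dg : ℕ → X → ℝ) (pr : ℕ → K → φ → φ) (T : ℕ) (Lam : ℝ),
    D.Hyp dg pr al T Lam → 2 ≤ Lam →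
    ∃ (υ : Type) (U : Finset K → ℕ → X → (K → β) → υ) (G dd : ℕ → Pt K X β φ → Prop),
      Concl U h dg pr T (Real.exp (Real.log (2 * Lam) ^ C)) Lam⁻¹ G dd

end Pool.Agent.GM.Harm
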