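import Pool.Agent.GM.Pic
import Pool.Agent.GM.Harm
import Pool.Agent.M3.S3.MdlDef

/-!
# GM/HMdlDef (helper55): the contract HARM(K) in the model `Sq`, every finite set of vertices: definitions

View `i`, known vertices `{j // j ≠ i}`, raw model `Sq k N ι Θ Ξ`.
* TOP `τ = (θ, v i + noise)`; hidden point `xM i ω = (ξ i, noise) : XM N Ξ`; known points `ot i ω`; `ptM i τ x y` = the sample
  point, `topEquiv`; `Qn_iff` : same public node iff same top and same cells (`qaM`, `qbM` of `M3/S3/MdlDef`);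
* the label `l : {j // j ≠ i}` = everything which does not see the vertex `l`; `LabK i h l D` hypotheses on a raw labelled
  pair `D : L1 (Sq k N ι Θ Ξ) L`; `CoK` = private coins of a vertex (one noise for every vertex), `nuK i l` the noise,
  `letK` the published label up to the time `t`;
* `eJM`, `eLM`, `eAM` = everything known at `J`, strictly below `J`, everywhere; `mmM`, `uuM`, `ulM`, `uaM` = the means of
  the digit; **`HOut`** : THE OUTPUT OF HARM(K) IN THE MODEL.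
-/

set_option autoImplicit false
set_option linter.unusedSectionVars false

namespace Pool.Agent.GM

open Finset Pool.Agent.PWZ Pool.Agent.M3 Pool.Agent.M3.Bin
open Pool.Agent.M3.Mod (XM YM TM qaM qbM dgM)

noncomputable section

variable {k N : ℕ} {ι Θ Ξ : Type} [Fintype ι] [DecidableEq ι]

/-! ## the product form of the sample space -/

/-- the top of a sample point -/
def tpM (i : ι) (ω : Sq k N ι Θ Ξ) : TM k Θ := (th ω, (vx i ω).2 + ((nz ω : ℕ) : V k))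

/-- the hidden point of a sample point -/
def xM (i : ι) (ω : Sq k N ι Θ Ξ) : XM N Ξ := ((vx i ω).1, ω.2.2)

/-- the sample point of a top, a hidden point and the known points -/
def ptM (i : ι) (τ : TM k Θ) (x : XM N Ξ) (y : {j : ι // j ≠ i} → YM k Ξ) : Sq k N ι Θ Ξ :=
  (τ.1, fun a => if h : a = i then (x.1, τ.2 - ((x.2.val : ℕ) : V k)) else y ⟨a, h⟩, x.2)

theorem th_ptM (i : ι) (τ : TM k Θ) (x : XM N Ξ) (y : {j : ι // j ≠ i} → YM k Ξ) : th (ptM i τ x y) = τ.1 := rfl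

theorem nz_ptM (i : ι) (τ : TM k Θ) (x : XM N Ξ) (y : {j : ι // j ≠ i} → YM k Ξ) : nz (ptM i τ x y) = x.2.val := rfl

theorem vi_ptM (i : ι) (τ : TM k Θ) (x : XM N Ξ) (y : {j : ι // j ≠ i} → YM k Ξ) :
    vx i (ptM i τ x y) = (x.1, τ.2 - ((x.2.val : ℕ) : V k)) := by
  unfold vx ptM
  simp

theorem vj_ptM (i : ι) (τ : TM k Θ) (x : XM N Ξ) (y : {j : ι // j ≠ i} → YM k Ξ) (j : {j : ι // j ≠ i}) :
    vx j.1 (ptM i τ x y) = y j := by
  unfold vx ptM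
  simp [j.2]

theorem ot_ptM (i : ι) (τ : TM k Θ) (x : XM N Ξ) (y : {j : ι // j ≠ i} → YM k Ξ) : ot i (ptM i τ x y) = y :=
  funext fun j => vj_ptM i τ x y j

theorem tp_ptM (i : ι) (τ : TM k Θ) (x : XM N Ξ) (y : {j : ι // j ≠ i} → YM k Ξ) : tpM i (ptM i τ x y) = τ := by
  unfold tpM
  rw [vi_ptM, nz_ptM, th_ptM]
  refine Prod.ext rfl ?_
  show τ.2 - ((x.2.val : ℕ) : V k) + ((x.2.val : ℕ) : V k) = τ.2
  abel

theorem x_ptM (i : ι) (τ : TM k Θ) (x : XM N Ξ) (y : {j : ι // j ≠ i} → YM k Ξ) : xM i (ptM i τ x y) = x := by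
  unfold xM
  rw [vi_ptM]
  rfl

theorem ptM_eq (i : ι) (ω : Sq k N ι Θ Ξ) : ptM i (tpM i ω) (xM i ω) (ot i ω) = ω := by
  refine Prod.ext rfl (Prod.ext ?_ rfl)
  funext a
  show (if h : a = i then ((xM i ω).1, (tpM i ω).2 - (((xM i ω).2.val : ℕ) : V k)) else ot i ω ⟨a, h⟩) = ω.2.1 a
  by_cases h : a = i
  · subst h
    rw [dif_pos rfl]
    refine Prod.ext rfl ?_
    show (vx a ω).2 + ((nz ω : ℕ) : V k) - (((xM a ω).2.val : ℕ) : V k) = (ω.2.1 a).2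
    have : (((xM a ω).2.val : ℕ) : V k) = ((nz ω : ℕ) : V k) := rfl
    rw [this]
    unfold vx
    abel
  · rw [dif_neg h]
    rfl

/-- THE PRODUCT FORM of the sample space -/
def topEquiv (i : ι) : Sq k N ι Θ Ξ ≃ TM k Θ × (XM N Ξ × ({j : ι // j ≠ i} → YM k Ξ)) where
  toFun ω := (tpM i ω, xM i ω, ot i ω)
  invFun q := ptM i q.1 q.2.1 q.2.2
  left_inv ω := ptM_eq i ω
  right_inv q := by
    obtain ⟨τ, x, y⟩ := q
    exact Prod.ext (tp_ptM i τ x y) (Prod.ext (x_ptM i τ x y) (ot_ptM i τ x y))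

/-- the path of the view in terms of the top -/
theorem Zn_top {i : ι} {e : ℕ} (ω : Sq k N ι Θ Ξ) :
    Zn i e ω = ((tpM i ω).2 - ((nz ω / 2 ^ e * 2 ^ e : ℕ) : V k), nz ω / 2 ^ e) := by
  unfold Zn tpM
  unfold Pool.Agent.M3.Mod.nd
  refine Prod.ext ?_ rfl
  show (vx i ω).2 + ((nz ω % 2 ^ e : ℕ) : V k) = (vx i ω).2 + ((nz ω : ℕ) : V k) - ((nz ω / 2 ^ e * 2 ^ e : ℕ) : V k)
  have h1 : ((nz ω : ℕ) : V k) = ((nz ω / 2 ^ e * 2 ^ e + nz ω % 2 ^ e : ℕ) : V k) := by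
    rw [Nat.div_add_mod']
  rw [h1]
  push_cast
  abel

/-- same public node iff same top and same cells -/
theorem Qn_iff (i : ι) (h t : ℕ) (v w : Sq k N ι Θ Ξ) :
    Qn i h (M3.Mod.ex N t) v = Qn i h (M3.Mod.ex N t) w ↔ tpM i v = tpM i w ∧ qaM k N t (xM i v) = qaM k N t (xM i w) ∧
      ∀ j, qbM N h t (ot i v j) = qbM N h t (ot i w j) := by
  rw [Qn_eq]
  unfold qaM qbM
  constructor
  · rintro ⟨h1, h2, h3⟩
    rw [Zn_top (e := M3.Mod.ex N t) v, Zn_top (e := M3.Mod.ex N t) w] at h2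
    simp only [Prod.mk.injEq] at h2
    refine ⟨Prod.ext h1 ?_, ?_, fun j => ?_⟩
    · have h4 := h2.1
      rw [h2.2] at h4
      exact sub_left_injective h4
    · exact Prod.ext h2.2 rfl
    · exact Prod.ext rfl (h3 j.1 j.2)
  · rintro ⟨h1, h2, h3⟩
    have h2' : nz v / 2 ^ M3.Mod.ex N t = nz w / 2 ^ M3.Mod.ex N t := (Prod.mk.inj h2).1
    refine ⟨(Prod.mk.inj h1).1, ?_, fun a ha => ?_⟩
    · rw [Zn_top (e := M3.Mod.ex N t) v, Zn_top (e := M3.Mod.ex N t) w, h1, h2']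
    · exact (Prod.mk.inj (h3 ⟨a, ha⟩)).2

theorem Dg_top (i : ι) (t : ℕ) (ω : Sq k N ι Θ Ξ) : Dg (M3.Mod.ex N (t + 1)) ω = dgM N t (xM i ω) := rfl

/-- the hidden point from the vertex and the top (`N ≤ k`) -/
theorem xM_of (hN : N ≤ k) {i : ι} {v w : Sq k N ι Θ Ξ} (h1 : vx i v = vx i w) (h2 : tpM i v = tpM i w) :
    xM i v = xM i w := by
  have h3 : (vx i v).2 + ((nz v : ℕ) : V k) = (vx i w).2 + ((nz w : ℕ) : V k) := (Prod.mk.inj h2).2
  rw [h1] at h3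
  have h4 : ((nz v : ℕ) : V k) = ((nz w : ℕ) : V k) := add_left_cancel h3
  have h5 : nz v < 2 ^ k := lt_of_lt_of_le v.2.2.2 (Nat.pow_le_pow_right (by norm_num) hN)
  have h6 : nz w < 2 ^ k := lt_of_lt_of_le w.2.2.2 (Nat.pow_le_pow_right (by norm_num) hN)
  have h7 : nz v = nz w := by
    have h8 := congrArg ZMod.val h4
    rwa [ZMod.val_natCast_of_lt h5, ZMod.val_natCast_of_lt h6] at h8
  refine Prod.ext ?_ (Fin.ext h7)
  show (vx i v).1 = (vx i w).1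
  rw [h1]

/-! ## the labels -/

/-- the published labels -/
abbrev LM (N : ℕ) (L : Type) := Fin (N + 1) → Option (Bool → L)

/-- the private coins of a vertex: one noise for every vertex -/
abbrev CoK (N : ℕ) (ι : Type) (Rz : ℕ) (φ : Type) : Type := ι → Fin (N + 1) → Nz.Ns Rz φ

variable {L : Type} {Rz : ℕ}

/-- hypotheses on a raw labelled pair of the view `i` which does not see the known vertex `l` -/
structure LabK (i : ι) (h : ℕ) (l : {j : ι // j ≠ i}) (D : L1 (Sq k N ι Θ Ξ) L) : Prop where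
  cl : ∀ t v w, KJ i h (univ.erase l) (M3.Mod.ex N (t + 1)) v = KJ i h (univ.erase l) (M3.Mod.ex N (t + 1)) w →
    (D.cl t v ↔ D.cl t w)
  x : ∀ t, Fac (AJ i h (univ.erase l) (M3.Mod.ex N t)) (D.x t)
  bb : ∀ t v w, AJ i h (univ.erase l) (M3.Mod.ex N (t + 1)) v = AJ i h (univ.erase l) (M3.Mod.ex N (t + 1)) w →
    (D.bb t v ↔ D.bb t w)

/-- the noise of the label `l` -/
def nuK (i : ι) (l : {j : ι // j ≠ i}) (w : Sq k N ι Θ (Ξ × CoK N ι Rz (Bool → L))) :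
    Fin (N + 1) → Nz.Ns Rz (Bool → L) := (vx i w).1.2 l.1

/-- the label `l` published up to the time `t` -/
def letK (Rz J n0 : ℕ) (i : ι) (l : {j : ι // j ≠ i}) (D : L1 (Sq k N ι Θ Ξ) L) (t : ℕ)
    (w : Sq k N ι Θ (Ξ × CoK N ι Rz (Bool → L))) : LM N L :=
  (D.pull pic).LF Rz J n0 (nuK i l) t w

/-- the published label in terms of the raw pair -/
theorem letK_eq (J n0 : ℕ) (i : ι) (l : {j : ι // j ≠ i}) (D : L1 (Sq k N ι Θ Ξ) L) (t : ℕ)
    (w : Sq k N ι Θ (Ξ × CoK N ι Rz (Bool → L))) :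
    letK Rz J n0 i l D t w =
      Nz.lab Rz J n0 (fun s => D.oc s (pic w)) (fun s => D.tc s (pic w)) t (nuK i l w) := by
  unfold letK L1.LF
  have h1 : (fun s => (D.pull pic).oc s w) = fun s => D.oc s (pic w) :=
    funext fun s => propext (D.oc_pull pic s w)
  have h2 : (fun s => (D.pull pic).tc s w) = fun s => D.tc s (pic w) := funext fun s => D.tc_pull pic s w
  rw [h1, h2]

/-! ## the output -/

section means

variable {Ci Λ υ : Type}

open Classical in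
/-- everything known at `J` -/
def eJM (i : ι) (h : ℕ) (LF : {j : ι // j ≠ i} → ℕ → Sq k N ι Θ (Ξ × Ci) → Λ)
    (Uc : Finset {j : ι // j ≠ i} → ℕ → Sq k N ι Θ (Ξ × Ci) → υ) (t : ℕ) (J : Finset {j : ι // j ≠ i})
    (w : Sq k N ι Θ (Ξ × Ci)) :
    ({j // j ∈ J} → YM k Ξ) × (Θ × (V k × ℕ) × ({j : ι // j ≠ i} → V k)) × (Finset {j : ι // j ≠ i} → Option υ) ×
      ({j : ι // j ≠ i} → Option Λ) :=
  (res J (ot i (pic w)), Qn i h (M3.Mod.ex N t) w, (fun I => if I ⊆ J then some (Uc I t w) else none),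
    fun l => if univ.erase l ⊆ J then some (LF l t w) else none)

open Classical in
/-- everything known strictly below `J` (and the points of `J`) -/
def eLM (i : ι) (h : ℕ) (Uc : Finset {j : ι // j ≠ i} → ℕ → Sq k N ι Θ (Ξ × Ci) → υ) (t : ℕ)
    (J : Finset {j : ι // j ≠ i}) (w : Sq k N ι Θ (Ξ × Ci)) :
    ({j // j ∈ J} → YM k Ξ) × (Θ × (V k × ℕ) × ({j : ι // j ≠ i} → V k)) × (Finset {j : ι // j ≠ i} → Option υ) :=
  (res J (ot i (pic w)), Qn i h (M3.Mod.ex N t) w, fun I => if I ⊂ J then some (Uc I t w) else none)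

open Classical in
/-- everything known in the view -/
def eAM (i : ι) (h : ℕ) (LF : {j : ι // j ≠ i} → ℕ → Sq k N ι Θ (Ξ × Ci) → Λ)
    (Uc : Finset {j : ι // j ≠ i} → ℕ → Sq k N ι Θ (Ξ × Ci) → υ) (t : ℕ) (w : Sq k N ι Θ (Ξ × Ci)) :
    ({j : ι // j ≠ i} → YM k Ξ) × (Θ × (V k × ℕ) × ({j : ι // j ≠ i} → V k)) ×
      (Finset {j : ι // j ≠ i} → Option υ) × ({j : ι // j ≠ i} → Λ) :=
  (ot i (pic w), Qn i h (M3.Mod.ex N t) w, (fun I => if I ≠ univ then some (Uc I t w) else none), fun l => LF l t w)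

variable [Fintype Θ] [Nonempty Θ] [Fintype Ξ] [Nonempty Ξ] [Fintype Ci] [Nonempty Ci]

/-- mean of the digit given the class -/
def mmM (i : ι) (h : ℕ) (LF : {j : ι // j ≠ i} → ℕ → Sq k N ι Θ (Ξ × Ci) → Λ)
    (Uc : Finset {j : ι // j ≠ i} → ℕ → Sq k N ι Θ (Ξ × Ci) → υ) (t : ℕ) (w : Sq k N ι Θ (Ξ × Ci)) : ℝ :=
  Pm.ce (eJM i h LF Uc t ∅) (Dg (M3.Mod.ex N (t + 1))) w

/-- mean of the digit given the expert `J` -/
def uuM (i : ι) (h : ℕ) (LF : {j : ι // j ≠ i} → ℕ → Sq k N ι Θ (Ξ × Ci) → Λ)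
    (Uc : Finset {j : ι // j ≠ i} → ℕ → Sq k N ι Θ (Ξ × Ci) → υ) (J : Finset {j : ι // j ≠ i}) (t : ℕ)
    (w : Sq k N ι Θ (Ξ × Ci)) : ℝ :=
  Pm.ce (eJM i h LF Uc t J) (Dg (M3.Mod.ex N (t + 1))) w

/-- mean of the digit given everything strictly below `J` -/
def ulM (i : ι) (h : ℕ) (Uc : Finset {j : ι // j ≠ i} → ℕ → Sq k N ι Θ (Ξ × Ci) → υ) (J : Finset {j : ι // j ≠ i})
    (t : ℕ) (w : Sq k N ι Θ (Ξ × Ci)) : ℝ :=
  Pm.ce (eLM i h Uc t J) (Dg (M3.Mod.ex N (t + 1))) w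

/-- mean of the digit given everything -/
def uaM (i : ι) (h : ℕ) (LF : {j : ι // j ≠ i} → ℕ → Sq k N ι Θ (Ξ × Ci) → Λ)
    (Uc : Finset {j : ι // j ≠ i} → ℕ → Sq k N ι Θ (Ξ × Ci) → υ) (t : ℕ) (w : Sq k N ι Θ (Ξ × Ci)) : ℝ :=
  Pm.ce (eAM i h LF Uc t) (Dg (M3.Mod.ex N (t + 1))) w

/-- **THE OUTPUT OF HARM(K) IN THE MODEL**: classes `Uc I` = functions of (vertex `i` without coins, `x_I` without coins,
public node), refining; `B` bounds the squares of the biases, `e` the error of the experts and the exceptional event `dd` -/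
structure HOut (i : ι) (h : ℕ) (LF : {j : ι // j ≠ i} → ℕ → Sq k N ι Θ (Ξ × Ci) → Λ)
    (Uc : Finset {j : ι // j ≠ i} → ℕ → Sq k N ι Θ (Ξ × Ci) → υ) (B e : ℝ)
    (G dd : ℕ → Sq k N ι Θ (Ξ × Ci) → Prop) : Prop where
  Uf : ∀ I t, Fac (fun w => (vx i (pic w), res I (ot i (pic w)), Qn i h (M3.Mod.ex N t) w)) (Uc I t)
  Us : ∀ I t, Fac (fun w => (res I (ot i (pic w)), Qn i h (M3.Mod.ex N (t + 1)) w, Uc I (t + 1) w)) (Uc I t)
  m2 : ∑ t ∈ range N, Pm.E (fun w => mmM i h LF Uc t w ^ 2) ≤ B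
  u2 : ∀ J ∈ Harm.SS {j : ι // j ≠ i}, ∑ t ∈ range N, Pm.E (fun w => (uuM i h LF Uc J t w - ulM i h Uc J t w) ^ 2) ≤ B
  l2 : ∀ J ∈ Harm.SS {j : ι // j ≠ i}, ∑ t ∈ range N, Pm.E (fun w => ulM i h Uc J t w ^ 2) ≤ B
  Gm : ∀ t < N, ∀ v w, eAM i h LF Uc t v = eAM i h LF Uc t w → (G t v ↔ G t w)
  Gl : ∀ t < N, ∀ w, G t w → ∀ J ∈ Harm.SS {j : ι // j ≠ i}, |ulM i h Uc J t w| ≤ 1 / 2
  Gd : ∀ t < N, ∀ w, ¬ dd t w → (∀ J ∈ Harm.SS {j : ι // j ≠ i}, |ulM i h Uc J t w| ≤ 1 / 2) → G t w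
  inc : ∀ t w, dd t w → dd (t + 1) w
  dq : Pm.Pr (dd N) ≤ e
  syn : ∑ t ∈ range N, Pm.E (fun w => ind (G t w) * (uaM i h LF Uc t w -
    exf (Harm.SS {j : ι // j ≠ i}) (mmM i h LF Uc) (uuM i h LF Uc) (ulM i h Uc) t w) ^ 2) ≤ e

end means

end

end Pool.Agent.GM
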