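import Pool.Agent.GM.RawM
import Pool.Agent.GM.HMdlDef
import Pool.Agent.M3.NVB

/-!
# GM/NVof: THE NAMED VIEW from a view without biases (`MV`) and the output of HARM (`HOut`), helper54

Model `Sq k N ι Θ (Ξ × Ci)`, hidden vertex `i`, known vertices `{j // j ≠ i}`, facet labels `LF l` (`l` = the vertex which is
not seen).
* `jo i U` : the known vertices of `U`; `sum_UU` : sums over `UU i`;
* `fac_eJM`, `fac_eLM` : measurability of the means of `HOut`;
* `AV` : the filtration of the view; `ce_AV` : the mean of the digit is `uaM` (the coins of the known vertices do not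
  matter);
* `bV`, `b0V`, `bias_AV` : THE BIAS INEQUALITY;
* `cW`, `chW` : changes at the index `U` for any classes;
* **`nvofG`** : the named view `NV`, any classes `ZU`; **`nvof`** : classes `Zk`.
-/

set_option autoImplicit false
set_option linter.unusedSectionVars false

namespace Pool.Agent.GM

open Finset Pool.Agent.PWZ Pool.Agent.M3 Pool.Agent.M3.Bin

noncomputable section

variable {k N : ℕ} {ι Θ Ξ Ci : Type} [Fintype ι] [DecidableEq ι]

/-! ## the sets of vertices -/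

/-- the known vertices of `U` -/
def jo (i : ι) (U : Finset ι) : Finset {j : ι // j ≠ i} := univ.filter fun j => j.1 ∈ U

theorem mem_jo {i : ι} {U : Finset ι} {j : {j : ι // j ≠ i}} : j ∈ jo i U ↔ j.1 ∈ U := by
  unfold jo
  simp

theorem jo_UL (i : ι) (J : Finset {j : ι // j ≠ i}) : jo i (UL i J) = J := by
  ext j
  rw [mem_jo]
  exact ⟨of_mem_UL, mem_UL⟩

theorem UL_jo {i : ι} {U : Finset ι} (hi : i ∈ U) : UL i (jo i U) = U := by
  ext a
  by_cases h : a = i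
  · rw [h]
    exact ⟨fun _ => hi, fun _ => self_mem_UL i _⟩
  · constructor
    · intro h1
      exact mem_jo.1 (of_mem_UL (a := (⟨a, h⟩ : {j : ι // j ≠ i})) h1)
    · intro h1
      exact mem_UL (a := (⟨a, h⟩ : {j : ι // j ≠ i})) (mem_jo.2 h1)

theorem jo_ne_univ {i : ι} {U : Finset ι} (hU : U ∈ UU i) : jo i U ≠ univ := by
  rw [mem_UU] at hU
  intro h
  refine hU.2 (Finset.eq_univ_iff_forall.2 fun a => ?_)
  by_cases ha : a = i
  · rw [ha]; exact hU.1
  · have h1 : (⟨a, ha⟩ : {j : ι // j ≠ i}) ∈ jo i U := by rw [h]; exact Finset.mem_univ _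
    exact mem_jo.1 h1

/-- sums over `UU i` -/
theorem sum_UU (i : ι) (f : Finset {j : ι // j ≠ i} → ℝ) :
    ∑ U ∈ UU i, f (jo i U) = ∑ J ∈ univ.filter (fun J : Finset {j : ι // j ≠ i} => J ≠ univ), f J := by
  refine Finset.sum_bij' (fun U _ => jo i U) (fun J _ => UL i J) ?_ ?_ ?_ ?_ ?_
  · intro U hU
    exact Finset.mem_filter.2 ⟨Finset.mem_univ _, jo_ne_univ hU⟩
  · intro J hJ
    exact UL_mem_UU (Finset.mem_filter.1 hJ).2
  · intro U hU
    exact UL_jo (mem_UU.1 hU).1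
  · intro J _
    exact jo_UL i J
  · intro U _
    rfl

theorem empty_ne_univ {i : ι} (hne : ∃ j : ι, j ≠ i) : (∅ : Finset {j : ι // j ≠ i}) ≠ univ := by
  obtain ⟨j, hj⟩ := hne
  intro h
  have : (⟨j, hj⟩ : {j : ι // j ≠ i}) ∈ (∅ : Finset {j : ι // j ≠ i}) := by rw [h]; exact Finset.mem_univ _
  exact absurd this (Finset.notMem_empty _)

/-- the empty set and the experts -/
theorem filter_ne_univ {i : ι} (hne : ∃ j : ι, j ≠ i) :
    univ.filter (fun J : Finset {j : ι // j ≠ i} => J ≠ univ) = insert ∅ (Harm.SS {j : ι // j ≠ i}) := by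
  ext J
  unfold Harm.SS
  rw [Finset.mem_insert, Finset.mem_filter, Finset.mem_filter]
  constructor
  · rintro ⟨_, h⟩
    by_cases h0 : J = ∅
    · exact Or.inl h0
    · exact Or.inr ⟨Finset.mem_univ _, Finset.nonempty_iff_ne_empty.2 h0, h⟩
  · rintro (h | ⟨_, _, h⟩)
    · rw [h]
      exact ⟨Finset.mem_univ _, empty_ne_univ hne⟩
    · exact ⟨Finset.mem_univ _, h⟩

theorem sum_UU' {i : ι} (hne : ∃ j : ι, j ≠ i) (f : Finset {j : ι // j ≠ i} → ℝ) :
    ∑ U ∈ UU i, f (jo i U) = f ∅ + ∑ J ∈ Harm.SS {j : ι // j ≠ i}, f J := by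
  rw [sum_UU, filter_ne_univ hne, Finset.sum_insert]
  unfold Harm.SS
  simp

/-! ## measurability -/

section maps

variable {i : ι} {h : ℕ} {Λ υ : Type} {LF : {j : ι // j ≠ i} → ℕ → Sq k N ι Θ (Ξ × Ci) → Λ}
  {Uc : Finset {j : ι // j ≠ i} → ℕ → Sq k N ι Θ (Ξ × Ci) → υ}

/-- `AJ` knows the points without coins and the public node -/
theorem AJ_pic3 {I : Finset {j : ι // j ≠ i}} {e : ℕ} {v w : Sq k N ι Θ (Ξ × Ci)} (hv : AJ i h I e v = AJ i h I e w) :
    (vx i (pic v), res I (ot i (pic v)), Qn i h e v) = (vx i (pic w), res I (ot i (pic w)), Qn i h e w) := by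
  rw [AJ_eq] at hv
  have h1 : vx i (pic v) = vx i (pic w) := by rw [vx_pic, vx_pic, hv.1]
  have h2 : res I (ot i (pic v)) = res I (ot i (pic w)) := res_eq.2 fun a ha => by
    show vx a.1 (pic v) = vx a.1 (pic w)
    rw [vx_pic, vx_pic, hv.2.1 a ha]
  exact Prod.ext h1 (Prod.ext h2 hv.2.2)

theorem pic3_Uc {γ0 : Type} {hv : Sq k N ι Θ (Ξ × Ci) → γ0}
    (hUf : ∀ I t, Fac (fun w => (hv w, res I (ot i (pic w)), Qn i h (M3.Mod.ex N t) w)) (Uc I t))
    {I J : Finset {j : ι // j ≠ i}} (hI : I ⊆ J) {t : ℕ} {v w : Sq k N ι Θ (Ξ × Ci)}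
    (he : (hv v, res J (ot i (pic v)), Qn i h (M3.Mod.ex N t) v) =
      (hv w, res J (ot i (pic w)), Qn i h (M3.Mod.ex N t) w)) : Uc I t v = Uc I t w := by
  simp only [Prod.mk.injEq] at he
  refine hUf I t v w ?_
  simp only [Prod.mk.injEq]
  exact ⟨he.1, res_eq.2 fun a ha => res_eq.1 he.2.1 a (hI ha), he.2.2⟩

/-- a map which knows what the classes know of the vertex `i` (`hv`), `x_J` without coins, the public node and the labels
inside `J` knows the class of the expert `J` -/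
theorem fac_eJM {γ0 : Type} {hv : Sq k N ι Θ (Ξ × Ci) → γ0}
    (hUf : ∀ I t, Fac (fun w => (hv w, res I (ot i (pic w)), Qn i h (M3.Mod.ex N t) w)) (Uc I t))
    {γ : Type} {Y : Sq k N ι Θ (Ξ × Ci) → γ} {I J : Finset {j : ι // j ≠ i}} (hIJ : I ⊆ J) {t : ℕ}
    (h1 : Fac Y (fun w => (hv w, res J (ot i (pic w)), Qn i h (M3.Mod.ex N t) w)))
    (h2 : ∀ l, univ.erase l ⊆ J → Fac Y (LF l t)) : Fac Y (eJM i h LF Uc t I) := by
  classical
  intro v w hvw
  have h0 := h1 v w hvw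
  have h0' := h0
  simp only [Prod.mk.injEq] at h0'
  unfold eJM
  refine Prod.ext (res_eq.2 fun a ha => res_eq.1 h0'.2.1 a (hIJ ha))
    (Prod.ext h0'.2.2 (Prod.ext (funext fun K => ?_) (funext fun l => ?_)))
  · show (if K ⊆ I then some (Uc K t v) else none) = (if K ⊆ I then some (Uc K t w) else none)
    by_cases hI : K ⊆ I
    · rw [if_pos hI, if_pos hI, pic3_Uc hUf (hI.trans hIJ) h0]
    · rw [if_neg hI, if_neg hI]
  · show (if univ.erase l ⊆ I then some (LF l t v) else none) = (if univ.erase l ⊆ I then some (LF l t w) else none)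
    by_cases hl : univ.erase l ⊆ I
    · rw [if_pos hl, if_pos hl, h2 l (hl.trans hIJ) v w hvw]
    · rw [if_neg hl, if_neg hl]

theorem fac_eLM {γ0 : Type} {hv : Sq k N ι Θ (Ξ × Ci) → γ0}
    (hUf : ∀ I t, Fac (fun w => (hv w, res I (ot i (pic w)), Qn i h (M3.Mod.ex N t) w)) (Uc I t))
    {γ : Type} {Y : Sq k N ι Θ (Ξ × Ci) → γ} {J : Finset {j : ι // j ≠ i}} {t : ℕ}
    (h1 : Fac Y (fun w => (hv w, res J (ot i (pic w)), Qn i h (M3.Mod.ex N t) w))) :
    Fac Y (eLM i h Uc t J) := by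
  classical
  intro v w hvw
  have h0 := h1 v w hvw
  have h0' := h0
  simp only [Prod.mk.injEq] at h0'
  unfold eLM
  refine Prod.ext h0'.2.1 (Prod.ext h0'.2.2 (funext fun K => ?_))
  show (if K ⊂ J then some (Uc K t v) else none) = (if K ⊂ J then some (Uc K t w) else none)
  by_cases hI : K ⊂ J
  · rw [if_pos hI, if_pos hI, pic3_Uc hUf hI.1 h0]
  · rw [if_neg hI, if_neg hI]

/-- the filtration of the view -/
def AV (i : ι) (LF : {j : ι // j ≠ i} → ℕ → Sq k N ι Θ (Ξ × Ci) → Λ)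
    (Uc : Finset {j : ι // j ≠ i} → ℕ → Sq k N ι Θ (Ξ × Ci) → υ) (t : ℕ) (w : Sq k N ι Θ (Ξ × Ci)) :
    (Θ × (V k × ℕ) × ({j : ι // j ≠ i} → (Ξ × Ci) × V k)) × ({I : Finset {j : ι // j ≠ i} // I ≠ univ} → υ) ×
      ({j : ι // j ≠ i} → Λ) :=
  (Kn i (M3.Mod.ex N t) w, (fun I => Uc I.1 t w), fun l => LF l t w)

theorem AV_eq {t : ℕ} {v w : Sq k N ι Θ (Ξ × Ci)} : AV i LF Uc t v = AV i LF Uc t w ↔
    Kn i (M3.Mod.ex N t) v = Kn i (M3.Mod.ex N t) w ∧ (∀ I, I ≠ univ → Uc I t v = Uc I t w) ∧ ∀ l, LF l t v = LF l t w := by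
  unfold AV
  constructor
  · intro hv
    simp only [Prod.mk.injEq] at hv
    exact ⟨hv.1, fun I hI => congrFun hv.2.1 ⟨I, hI⟩, fun l => congrFun hv.2.2 l⟩
  · rintro ⟨h1, h2, h3⟩
    exact Prod.ext h1 (Prod.ext (funext fun I => h2 I.1 I.2) (funext fun l => h3 l))

theorem Kn_known {t : ℕ} {v w : Sq k N ι Θ (Ξ × Ci)} (hv : Kn i (M3.Mod.ex N t) v = Kn i (M3.Mod.ex N t) w) (h : ℕ) :
    ot i (pic v) = ot i (pic w) ∧ Qn i h (M3.Mod.ex N t) v = Qn i h (M3.Mod.ex N t) w := by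
  have h1 := Kn_fac_Z i h (M3.Mod.ex N t) v w hv
  simp only [Prod.mk.injEq] at h1
  refine ⟨funext fun a => ?_, h1.2⟩
  have h2 : vx a.1 v = vx a.1 w := congrFun h1.1 a
  show vx a.1 (pic v) = vx a.1 (pic w)
  rw [vx_pic, vx_pic, h2]

theorem AV_eAM (t : ℕ) : Fac (AV i LF Uc t) (eAM i h LF Uc t) := by
  classical
  intro v w hv
  rw [AV_eq] at hv
  obtain ⟨h1, h2, h3⟩ := hv
  obtain ⟨k1, k2⟩ := Kn_known h1 h
  unfold eAM
  refine Prod.ext k1 (Prod.ext k2 (Prod.ext (funext fun I => ?_) (funext fun l => h3 l)))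
  show (if I ≠ univ then some (Uc I t v) else none) = (if I ≠ univ then some (Uc I t w) else none)
  by_cases hI : I ≠ univ
  · rw [if_pos hI, if_pos hI, h2 I hI]
  · rw [if_neg hI, if_neg hI]

theorem AV_eJM {J : Finset {j : ι // j ≠ i}} (hJ : J ≠ univ) (t : ℕ) : Fac (AV i LF Uc t) (eJM i h LF Uc t J) := by
  classical
  intro v w hv
  rw [AV_eq] at hv
  obtain ⟨h1, h2, h3⟩ := hv
  obtain ⟨k1, k2⟩ := Kn_known h1 h
  unfold eJM
  refine Prod.ext (by rw [k1]) (Prod.ext k2 (Prod.ext (funext fun I => ?_) (funext fun l => ?_)))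
  · show (if I ⊆ J then some (Uc I t v) else none) = (if I ⊆ J then some (Uc I t w) else none)
    by_cases hI : I ⊆ J
    · have hI' : I ≠ univ := fun h' => hJ (Finset.univ_subset_iff.1 (h' ▸ hI))
      rw [if_pos hI, if_pos hI, h2 I hI']
    · rw [if_neg hI, if_neg hI]
  · show (if univ.erase l ⊆ J then some (LF l t v) else none) = (if univ.erase l ⊆ J then some (LF l t w) else none)
    rw [h3 l]

theorem AV_eLM (J : Finset {j : ι // j ≠ i}) (t : ℕ) : Fac (AV i LF Uc t) (eLM i h Uc t J) := by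
  classical
  intro v w hv
  rw [AV_eq] at hv
  obtain ⟨h1, h2, h3⟩ := hv
  obtain ⟨k1, k2⟩ := Kn_known h1 h
  unfold eLM
  refine Prod.ext (by rw [k1]) (Prod.ext k2 (funext fun I => ?_))
  show (if I ⊂ J then some (Uc I t v) else none) = (if I ⊂ J then some (Uc I t w) else none)
  by_cases hI : I ⊂ J
  · have hI' : I ≠ univ := fun h' => by
      rw [h'] at hI
      exact hI.2 (Finset.subset_univ J)
    rw [if_pos hI, if_pos hI, h2 I hI']
  · rw [if_neg hI, if_neg hI]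

/-- the coins of the other vertices -/
def cEq (i : ι) : Sq k N ι Θ (Ξ × Ci) ≃ (Sq k N ι Θ Ξ × Ci) × ({a : ι // a ≠ i} → Ci) :=
  coinEquiv.trans (((Equiv.refl _).prodCongr (Equiv.funSplitAt i Ci)).trans (Equiv.prodAssoc _ _ _).symm)

variable [Fintype Θ] [Nonempty Θ] [Fintype Ξ] [Nonempty Ξ] [Fintype Ci] [Nonempty Ci]

theorem pulC_oth (i : ι) :
    PulC (Pm (k := k) (N := N) (ι := ι) (Θ := Θ) (P := Ξ × Ci)) (FP.unif (Sq k N ι Θ Ξ × Ci))
      (fun w => (pic w, coin w i)) (FP.unif ({a : ι // a ≠ i} → Ci)) (fun w => fun a => coin w a.1) :=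
  pulC_unif (cEq (k := k) (N := N) (Θ := Θ) (Ξ := Ξ) i)

/-- the mean of the digit in the view: the coins of the known vertices do not matter -/
theorem ce_AV (hUf : ∀ I t, Fac (fun w => (vx i (pic w), res I (ot i (pic w)), Qn i h (M3.Mod.ex N t) w)) (Uc I t))
    (hLp : ∀ l t, Fac (fun w => (pic w, coin w i)) (LF l t)) (t : ℕ) (w : Sq k N ι Θ (Ξ × Ci)) :
    Pm.ce (AV i LF Uc t) (Dg (M3.Mod.ex N (t + 1))) w = uaM i h LF Uc t w := by
  classical
  have hX : Fac (fun w : Sq k N ι Θ (Ξ × Ci) => (pic w, coin w i)) (eAM i h LF Uc t) := by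
    intro v u hv
    have e1 := fun l => hLp l t v u hv
    simp only [Prod.mk.injEq] at hv
    have e3 : Qn i h (M3.Mod.ex N t) v = Qn i h (M3.Mod.ex N t) u := by rw [← Qn_pic, ← Qn_pic, hv.1]
    have e4 : ∀ I, Uc I t v = Uc I t u := fun I => hUf I t v u (by
      simp only [Prod.mk.injEq]; exact ⟨by rw [hv.1], by rw [hv.1], e3⟩)
    unfold eAM
    refine Prod.ext (by rw [hv.1]) (Prod.ext e3 (Prod.ext (funext fun I => ?_) (funext fun l => e1 l)))
    show (if I ≠ univ then some (Uc I t v) else none) = (if I ≠ univ then some (Uc I t u) else none)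
    rw [e4 I]
  have hd : Fac (fun w : Sq k N ι Θ (Ξ × Ci) => (pic w, coin w i)) (Dg (M3.Mod.ex N (t + 1))) := by
    intro v u hv
    simp only [Prod.mk.injEq] at hv
    rw [← Dg_pic, ← Dg_pic, hv.1]
  have h1 := (pulC_oth (k := k) (N := N) (Θ := Θ) (Ξ := Ξ) (Ci := Ci) i).ce_drop hX hd (fun c => c) (w := w) (Pm_ne w)
  refine Eq.trans ?_ h1
  refine Pm.ce_congr_map ?_ ?_ _ w
  · intro v u hv
    have h2 := AV_eAM (h := h) t v u hv
    rw [AV_eq] at hv
    have hK := hv.1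
    rw [Kn_eq] at hK
    refine Prod.ext h2 (funext fun a => ?_)
    have h5 : vx a.1 v = vx a.1 u := congrFun hK.2.2 a
    show (vx a.1 v).1.2 = (vx a.1 u).1.2
    rw [h5]
  · intro v u hv
    have h2 : eAM i h LF Uc t v = eAM i h LF Uc t u := congrArg Prod.fst hv
    have h7 : (fun a : {a : ι // a ≠ i} => coin v a.1) = fun a => coin u a.1 := congrArg Prod.snd hv
    unfold eAM at h2
    simp only [Prod.mk.injEq] at h2
    obtain ⟨k1, k2, k3, k4⟩ := h2
    rw [AV_eq]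
    refine ⟨?_, fun I hI => ?_, fun l => congrFun k4 l⟩
    · rw [Kn_eq]
      rw [Qn_eq] at k2
      refine ⟨k2.1, k2.2.1, funext fun a => ?_⟩
      have c1 : coin v a.1 = coin u a.1 := congrFun h7 a
      have c2 : vx a.1 (pic v) = vx a.1 (pic u) := congrFun k1 a
      exact vx_of_pic c2 c1
    · have h8 := congrFun k3 I
      simp only [hI, ne_eq, not_false_eq_true, if_true] at h8
      exact Option.some.inj h8

/-! ## the biases -/

/-- constant of the biases -/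
def cK (i : ι) : ℝ := 16 * (((Harm.SS {j : ι // j ≠ i}).card : ℝ) + 1)

theorem cK_nn (i : ι) : 0 ≤ cK i := by
  unfold cK
  positivity

open Classical in
/-- square of the bias of the class (`J = ∅`) or of the expert `J` -/
def bJ (i : ι) (h : ℕ) (LF : {j : ι // j ≠ i} → ℕ → Sq k N ι Θ (Ξ × Ci) → Λ)
    (Uc : Finset {j : ι // j ≠ i} → ℕ → Sq k N ι Θ (Ξ × Ci) → υ) (J : Finset {j : ι // j ≠ i}) (t : ℕ)
    (w : Sq k N ι Θ (Ξ × Ci)) : ℝ :=
  if J = ∅ then cK i * mmM i h LF Uc t w ^ 2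
  else ind (¬ |ulM i h Uc J t w| ≤ 1 / 2) + cK i * (uuM i h LF Uc J t w - ulM i h Uc J t w) ^ 2

/-- error of the experts and exceptional points -/
def b0V (i : ι) (h : ℕ) (LF : {j : ι // j ≠ i} → ℕ → Sq k N ι Θ (Ξ × Ci) → Λ)
    (Uc : Finset {j : ι // j ≠ i} → ℕ → Sq k N ι Θ (Ξ × Ci) → υ) (G : ℕ → Sq k N ι Θ (Ξ × Ci) → Prop) (t : ℕ)
    (w : Sq k N ι Θ (Ξ × Ci)) : ℝ :=
  2 * (ind (G t w) * (uaM i h LF Uc t w -
    exf (Harm.SS {j : ι // j ≠ i}) (mmM i h LF Uc) (uuM i h LF Uc) (ulM i h Uc) t w) ^ 2) +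
    ind (¬ G t w ∧ ∀ J ∈ Harm.SS {j : ι // j ≠ i}, |ulM i h Uc J t w| ≤ 1 / 2)

theorem bJ_nn (J : Finset {j : ι // j ≠ i}) (t : ℕ) (w : Sq k N ι Θ (Ξ × Ci)) : 0 ≤ bJ i h LF Uc J t w := by
  classical
  unfold bJ
  have h1 := cK_nn i
  split_ifs
  · exact mul_nonneg h1 (sq_nonneg _)
  · exact add_nonneg (ind_nonneg _) (mul_nonneg h1 (sq_nonneg _))

theorem b0V_nn (G : ℕ → Sq k N ι Θ (Ξ × Ci) → Prop) (t : ℕ) (w : Sq k N ι Θ (Ξ × Ci)) :
    0 ≤ b0V i h LF Uc G t w := by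
  unfold b0V
  exact add_nonneg (mul_nonneg (by norm_num) (mul_nonneg (ind_nonneg _) (sq_nonneg _))) (ind_nonneg _)

/-- the biases from any map which knows the means -/
theorem bJ_fac {γ : Type} {Y : Sq k N ι Θ (Ξ × Ci) → γ} {J : Finset {j : ι // j ≠ i}} {t : ℕ}
    (h0 : Fac Y (eJM i h LF Uc t ∅)) (h1 : Fac Y (eJM i h LF Uc t J)) (h2 : Fac Y (eLM i h Uc t J)) :
    Fac Y (bJ i h LF Uc J t) := by
  classical
  intro v w hv
  have e0 : mmM i h LF Uc t v = mmM i h LF Uc t w := Pm.ce_fac _ _ v w (h0 v w hv)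
  have e1 : uuM i h LF Uc J t v = uuM i h LF Uc J t w := Pm.ce_fac _ _ v w (h1 v w hv)
  have e2 : ulM i h Uc J t v = ulM i h Uc J t w := Pm.ce_fac _ _ v w (h2 v w hv)
  unfold bJ
  rw [e0, e1, e2]

theorem exf_congr {α Om : Type*} {S : Finset α} {m0 : ℕ → Om → ℝ} {u u' : α → ℕ → Om → ℝ} {t : ℕ} {v w : Om}
    (h0 : m0 t v = m0 t w) (h1 : ∀ a ∈ S, u a t v = u a t w) (h2 : ∀ a ∈ S, u' a t v = u' a t w) :
    exf S m0 u u' t v = exf S m0 u u' t w := by
  unfold exf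
  exact ex_congr h0 h1 h2

theorem b0V_fac {G dd : ℕ → Sq k N ι Θ (Ξ × Ci) → Prop} {B e : ℝ} (HB : HOut i h LF Uc B e G dd)
    (hne : ∃ j : ι, j ≠ i) {t : ℕ} (ht : t < N) : Fac (AV i LF Uc t) (b0V i h LF Uc G t) := by
  classical
  intro v w hv
  have e0 : mmM i h LF Uc t v = mmM i h LF Uc t w := Pm.ce_fac _ _ v w (AV_eJM (empty_ne_univ hne) t v w hv)
  have e1 : ∀ J ∈ Harm.SS {j : ι // j ≠ i}, uuM i h LF Uc J t v = uuM i h LF Uc J t w := fun J hJ =>
    Pm.ce_fac _ _ v w (AV_eJM (Finset.mem_filter.1 hJ).2.2 t v w hv)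
  have e2 : ∀ J, ulM i h Uc J t v = ulM i h Uc J t w := fun J =>
    Pm.ce_fac _ _ v w (AV_eLM J t v w hv)
  have ea := AV_eAM (h := h) t v w hv
  have e3 : uaM i h LF Uc t v = uaM i h LF Uc t w := Pm.ce_fac _ _ v w ea
  have e4 := HB.Gm t ht v w ea
  have e5 : exf (Harm.SS {j : ι // j ≠ i}) (mmM i h LF Uc) (uuM i h LF Uc) (ulM i h Uc) t v =
      exf (Harm.SS {j : ι // j ≠ i}) (mmM i h LF Uc) (uuM i h LF Uc) (ulM i h Uc) t w :=
    exf_congr e0 e1 fun J _ => e2 J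
  unfold b0V
  rw [e3, e5]
  simp only [e4, e2]

/-- **THE BIAS INEQUALITY** -/
theorem bias_AV {G dd : ℕ → Sq k N ι Θ (Ξ × Ci) → Prop} {B e : ℝ} (HB : HOut i h LF Uc B e G dd)
    (hLp : ∀ l t, Fac (fun w => (pic w, coin w i)) (LF l t)) (hne : ∃ j : ι, j ≠ i) {t : ℕ} (ht : t < N)
    (w : Sq k N ι Θ (Ξ × Ci)) :
    Pm.ce (AV i LF Uc t) (Dg (M3.Mod.ex N (t + 1))) w ^ 2 ≤
      b0V i h LF Uc G t w + ∑ U ∈ UU i, bJ i h LF Uc (jo i U) t w := by
  classical
  have hD : ∀ v : Sq k N ι Θ (Ξ × Ci), Pm.p v ≠ 0 → Dg (M3.Mod.ex N (t + 1)) v = 1 ∨ Dg (M3.Mod.ex N (t + 1)) v = -1 :=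
    fun v _ => Dg_val _ v
  have hD1 : ∀ v : Sq k N ι Θ (Ξ × Ci), Pm.p v ≠ 0 → |Dg (M3.Mod.ex N (t + 1)) v| ≤ 1 := fun v hv => by
    rcases hD v hv with h | h <;> rw [h] <;> norm_num
  have key := sq_le_expert Pm (A := AV i LF Uc t) (D := Dg (M3.Mod.ex N (t + 1))) (S := Harm.SS {j : ι // j ≠ i})
    (m0 := mmM i h LF Uc t) (u := fun J => uuM i h LF Uc J t) (u' := fun J => ulM i h Uc J t) (G := fun w => G t w ∧ t < N)
    hD (fun v _ => Pm.abs_ce_le_one hD1 _ v) (fun v _ J _ => Pm.abs_ce_le_one hD1 _ v)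
    (fun v hv => Pm.digit_pos hD _ hv) (fun v hv J _ => Pm.digit_pos hD _ hv)
    (fun v hv J hJ => HB.Gl t hv.2 v hv.1 J hJ) (Pm_ne w)
  have es : ∑ U ∈ UU i, bJ i h LF Uc (jo i U) t w =
      bJ i h LF Uc ∅ t w + ∑ J ∈ Harm.SS {j : ι // j ≠ i}, bJ i h LF Uc J t w := sum_UU' hne fun J => bJ i h LF Uc J t w
  rw [es]
  have e0 : bJ i h LF Uc ∅ t w = cK i * mmM i h LF Uc t w ^ 2 := by
    unfold bJ
    rw [if_pos rfl]
  have e1 : ∀ J ∈ Harm.SS {j : ι // j ≠ i}, bJ i h LF Uc J t w =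
      ind (¬ |ulM i h Uc J t w| ≤ 1 / 2) + cK i * (uuM i h LF Uc J t w - ulM i h Uc J t w) ^ 2 := by
    intro J hJ
    have hJ' : J ≠ ∅ := Finset.nonempty_iff_ne_empty.1 (Finset.mem_filter.1 hJ).2.1
    unfold bJ
    rw [if_neg hJ']
  rw [e0, Finset.sum_congr rfl e1]
  rw [ce_AV HB.Uf hLp] at key ⊢
  unfold b0V
  have hG : ∀ v, (G t v ∧ t < N) ↔ G t v := fun v => ⟨fun h => h.1, fun h => ⟨h, ht⟩⟩
  simp only [hG] at key
  exact key

/-- budgets of the biases -/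
theorem bJ_sum {G dd : ℕ → Sq k N ι Θ (Ξ × Ci) → Prop} {B e : ℝ} (HB : HOut i h LF Uc B e G dd)
    {J : Finset {j : ι // j ≠ i}} (hJ : J ≠ univ) :
    ∑ t ∈ range N, Pm.E (bJ i h LF Uc J t) ≤ (4 + cK i) * B := by
  classical
  have hK := cK_nn i
  have hB : 0 ≤ B := (Finset.sum_nonneg fun t _ => Pm.E_nonneg fun w _ => sq_nonneg _).trans HB.m2
  by_cases h0 : J = ∅
  · have h1 : ∀ t, Pm.E (bJ i h LF Uc J t) = cK i * Pm.E (fun w => mmM i h LF Uc t w ^ 2) := by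
      intro t
      rw [← FP.E_smul]
      refine Pm.E_congr fun w _ => ?_
      unfold bJ
      rw [if_pos h0]
    simp only [h1]
    rw [← Finset.mul_sum]
    have h2 := mul_le_mul_of_nonneg_left HB.m2 hK
    nlinarith
  · have hS : J ∈ Harm.SS {j : ι // j ≠ i} := by
      unfold Harm.SS
      exact Finset.mem_filter.2 ⟨Finset.mem_univ _, Finset.nonempty_iff_ne_empty.2 h0, hJ⟩
    have h1 : ∀ t, Pm.E (bJ i h LF Uc J t) ≤ 4 * Pm.E (fun w => ulM i h Uc J t w ^ 2) +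
        cK i * Pm.E (fun w => (uuM i h LF Uc J t w - ulM i h Uc J t w) ^ 2) := by
      intro t
      have h2 : Pm.E (bJ i h LF Uc J t) = Pm.E (fun w => ind (¬ |ulM i h Uc J t w| ≤ 1 / 2)) +
          cK i * Pm.E (fun w => (uuM i h LF Uc J t w - ulM i h Uc J t w) ^ 2) := by
        rw [← FP.E_smul, ← FP.E_add]
        refine Pm.E_congr fun w _ => ?_
        unfold bJ
        rw [if_neg h0]
      rw [h2]
      have h3 := E_ind_half_le Pm (f := fun w => ulM i h Uc J t w)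
      linarith
    refine (Finset.sum_le_sum fun t _ => h1 t).trans ?_
    rw [Finset.sum_add_distrib, ← Finset.mul_sum, ← Finset.mul_sum]
    have h4 := mul_le_mul_of_nonneg_left (HB.u2 J hS) hK
    have h5 := HB.l2 J hS
    nlinarith

/-- the experts -/
theorem b0V_sum {G dd D : ℕ → Sq k N ι Θ (Ξ × Ci) → Prop} {B e : ℝ} (HB : HOut i h LF Uc B e G dd)
    (hD : ∀ t w, dd t w → D t w) :
    ∑ t ∈ range N, Pm.E (fun w => ind (¬ D t w) * b0V i h LF Uc G t w) ≤ 2 * e := by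
  have h1 : ∀ t ∈ range N, Pm.E (fun w => ind (¬ D t w) * b0V i h LF Uc G t w) ≤
      2 * Pm.E (fun w => ind (G t w) * (uaM i h LF Uc t w -
        exf (Harm.SS {j : ι // j ≠ i}) (mmM i h LF Uc) (uuM i h LF Uc) (ulM i h Uc) t w) ^ 2) := by
    intro t ht
    rw [← FP.E_smul]
    refine Pm.E_mono fun w _ => ?_
    have hn : 0 ≤ ind (G t w) * (uaM i h LF Uc t w -
        exf (Harm.SS {j : ι // j ≠ i}) (mmM i h LF Uc) (uuM i h LF Uc) (ulM i h Uc) t w) ^ 2 :=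
      mul_nonneg (ind_nonneg _) (sq_nonneg _)
    by_cases hd : D t w
    · rw [ind_not (not_not.2 hd), zero_mul]
      linarith
    · rw [ind_of hd, one_mul]
      unfold b0V
      rw [ind_not (fun hh : ¬ G t w ∧ ∀ J ∈ Harm.SS {j : ι // j ≠ i}, |ulM i h Uc J t w| ≤ 1 / 2 =>
        hh.1 (HB.Gd t (Finset.mem_range.1 ht) w (fun h' => hd (hD t w h')) hh.2)), add_zero]
  refine (Finset.sum_le_sum h1).trans ?_
  rw [← Finset.mul_sum]
  exact mul_le_mul_of_nonneg_left HB.syn (by norm_num)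

/-- more dead points, fewer alive points -/
theorem Al_anti {Om : Type} [Fintype Om] (P : FP Om) {κ : ℕ → Type} {X : ∀ t, Om → κ t} {D D' : ℕ → Om → Prop}
    (h : ∀ t w, P.p w ≠ 0 → D t w → D' t w) {c : ℝ} {t : ℕ} {w : Om} (ha : P.Al X D' c t w) : P.Al X D c t w :=
  fun s hs => lt_of_le_of_lt (P.ce_mono (fun v hv => ind_mono (h s v hv)) w) (ha s hs)

theorem filt_AV (hUs : ∀ I t, Fac (fun w => (res I (ot i (pic w)), Qn i h (M3.Mod.ex N (t + 1)) w, Uc I (t + 1) w)) (Uc I t))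
    (hLs : ∀ l t, Fac (LF l (t + 1)) (LF l t)) : Filt (AV i LF Uc) := by
  intro t v w hv
  rw [AV_eq] at hv ⊢
  obtain ⟨h1, h2, h3⟩ := hv
  obtain ⟨k1, k2⟩ := Kn_known h1 h
  refine ⟨filt_Kn i t v w h1, fun I hI => hUs I t v w ?_, fun l => hLs l t v w (h3 l)⟩
  simp only [Prod.mk.injEq]
  exact ⟨by rw [k1], k2, h2 I hI⟩

/-! ## changes, any classes -/

section chg

variable {Om : Type} [Fintype Om] {P : FP Om} {κ : ℕ → Type} {Z : ∀ t, Om → κ t} {D : ℕ → Om → ℝ} {L : Type}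
  [Fintype L] {ζ ζ' : L → ℕ → Type} {AL : ∀ l t, Om → ζ l t} {ZL : ∀ l t, Om → ζ' l t} {T : ℕ → Om → ℝ}
  {che zr : ℕ → Om → Prop} {i : ι}

open Classical in
/-- recorded changes at the index `U` -/
def cW (V : GV P N Z D AL ZL T che zr) (S : L → Finset {j : ι // j ≠ i}) (U : Finset ι) (t : ℕ) (w : Om) : ℝ :=
  ∑ l ∈ univ.filter (fun l => UL i (S l) = U), ind (V.c l t w)

/-- true changes at the index `U` -/
def chW (V : GV P N Z D AL ZL T che zr) (S : L → Finset {j : ι // j ≠ i}) (U : Finset ι) (t : ℕ) (w : Om) : Prop :=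
  ∃ l, UL i (S l) = U ∧ V.ch l t w

variable (V : GV P N Z D AL ZL T che zr) {S : L → Finset {j : ι // j ≠ i}}

theorem cW_nn (U : Finset ι) (t : ℕ) (w : Om) : 0 ≤ cW V S U t w := Finset.sum_nonneg fun _ _ => ind_nonneg _

theorem cW_fac {γ : Type} {Y : Om → γ} {U : Finset ι} {t : ℕ} (hY : ∀ l, UL i (S l) = U → Fac Y (AL l (t + 1))) :
    Fac Y (cW V S U t) := by
  intro v w hv
  unfold cW
  refine Finset.sum_congr rfl fun l hl => ?_
  have h2 := V.cA l t v w (hY l (Finset.mem_filter.1 hl).2 v w hv)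
  by_cases h3 : V.c l t w
  · rw [ind_of h3, ind_of (h2.2 h3)]
  · rw [ind_not h3, ind_not fun h4 => h3 (h2.1 h4)]

theorem chW_fac {γ : Type} {Y : Om → γ} {U : Finset ι} {t : ℕ} (hY : ∀ l, UL i (S l) = U → Fac Y (AL l (t + 1))) :
    Fac Y (fun w => ind (chW V S U t w)) := by
  have h1 : ∀ {v w : Om}, Y v = Y w → chW V S U t v → chW V S U t w := by
    rintro v w hv ⟨l, hl, hc⟩
    exact ⟨l, hl, (V.chA l t v w (hY l hl v w hv)).1 hc⟩
  intro v w hv
  show ind (chW V S U t v) = ind (chW V S U t w)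
  by_cases h3 : chW V S U t w
  · rw [ind_of h3, ind_of (h1 hv.symm h3)]
  · rw [ind_not h3, ind_not fun h4 => h3 (h1 hv h4)]

theorem GV_J_nn : 0 ≤ V.J := (Finset.sum_nonneg fun _ _ => P.Pr_nonneg _).trans V.eJ

theorem cW_J (U : Finset ι) : ∑ t ∈ range N, P.E (cW V S U t) ≤ Fintype.card L * V.J := by
  classical
  have h1 : ∑ t ∈ range N, P.E (cW V S U t) =
      ∑ l ∈ univ.filter (fun l => UL i (S l) = U), ∑ t ∈ range N, P.E (fun w => ind (V.c l t w)) :=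
    sum_E_swap P N _ fun l t w => ind (V.c l t w)
  rw [h1]
  calc ∑ l ∈ univ.filter (fun l => UL i (S l) = U), ∑ t ∈ range N, P.E (fun w => ind (V.c l t w))
      ≤ ∑ l ∈ univ.filter (fun l => UL i (S l) = U), V.J := Finset.sum_le_sum fun l _ => V.cJ l
    _ = ((univ.filter (fun l => UL i (S l) = U)).card : ℝ) * V.J := by rw [Finset.sum_const, nsmul_eq_mul]
    _ ≤ Fintype.card L * V.J := by
      refine mul_le_mul_of_nonneg_right ?_ (GV_J_nn V)
      exact_mod_cast Finset.card_le_univ _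

theorem chW_J (U : Finset ι) : ∑ t ∈ range N, P.Pr (chW V S U t) ≤ Fintype.card L * V.J := by
  classical
  have h1 : ∀ t, P.Pr (chW V S U t) ≤ ∑ l, P.Pr (V.ch l t) := by
    intro t
    refine le_trans (P.Pr_mono fun w _ hw => ?_) (P.Pr_ex_le univ (fun l => V.ch l t))
    obtain ⟨l, _, hl⟩ := hw
    exact ⟨l, Finset.mem_univ l, hl⟩
  calc ∑ t ∈ range N, P.Pr (chW V S U t) ≤ ∑ t ∈ range N, ∑ l, P.Pr (V.ch l t) :=
        Finset.sum_le_sum fun t _ => h1 t
    _ = ∑ l, ∑ t ∈ range N, P.Pr (V.ch l t) := Finset.sum_comm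
    _ ≤ ∑ _l : L, V.J := Finset.sum_le_sum fun l _ => V.chJ l
    _ = Fintype.card L * V.J := by rw [Finset.sum_const, Finset.card_univ, nsmul_eq_mul]

theorem sum_cW (hS : ∀ l, S l ≠ univ) (t : ℕ) (w : Om) : ∑ U ∈ UU i, cW V S U t w = ∑ l, ind (V.c l t w) := by
  classical
  unfold cW
  rw [← Finset.sum_fiberwise_of_maps_to (s := univ) (t := UU i) (g := fun l => UL i (S l))
    (fun l _ => UL_mem_UU (hS l)) (fun l => ind (V.c l t w))]

theorem ev1W (hS : ∀ l, S l ≠ univ) {κ' : ℕ → Type} {A : ∀ t, Om → κ' t} (hA : Adm Z V.pl A) (t : ℕ) (w : Om)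
    (hw : P.p w ≠ 0) (ha : P.Al A V.D1 (1 / 2) (t + 1) w) :
    ind (V.ev (t + 1) w) ≤ ind (che t w) + ∑ U ∈ UU i, cW V S U t w := by
  classical
  rw [sum_cW V hS]
  have h0 : 0 ≤ ∑ l, ind (V.c l t w) := Finset.sum_nonneg fun _ _ => ind_nonneg _
  by_cases he : V.ev (t + 1) w
  · rw [ind_of he]
    rcases V.ev1 A hA t w hw ha he with h1 | ⟨l, hl⟩
    · rw [ind_of h1]
      linarith
    · have h2 : ind (V.c l t w) ≤ ∑ l, ind (V.c l t w) :=
        Finset.single_le_sum (f := fun l => ind (V.c l t w)) (fun _ _ => ind_nonneg _) (Finset.mem_univ l)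
      rw [ind_of hl] at h2
      linarith [ind_nonneg (che t w)]
  · rw [ind_not he]
    linarith [ind_nonneg (che t w)]

theorem ex_chW (hS : ∀ l, S l ≠ univ) (t : ℕ) (w : Om) : (∃ U ∈ UU i, chW V S U t w) ↔ ∃ l, V.ch l t w := by
  constructor
  · rintro ⟨_, _, l, _, hl⟩
    exact ⟨l, hl⟩
  · rintro ⟨l, hl⟩
    exact ⟨UL i (S l), UL_mem_UU (hS l), l, rfl, hl⟩

end chg

/-- **THE NAMED VIEW, any classes `ZU`** (the face `delta` with coins: `ZU U t` contains the coin of `delta` only for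
`U = V - delta`); `hv` = what the classes of HARM see of the vertex `i` (everything but the coin of `delta`).  `V` = view without biases with labels `l : {j // j ≠ i}` (`l` is not seen), `LF l` = published labels
with everything they record (they contain the published labels of `V`), `HOut` = output of HARM for them. -/
def nvofG {ζ ζ' : {j : ι // j ≠ i} → ℕ → Type} {AL : ∀ l t, Sq k N ι Θ (Ξ × Ci) → ζ l t}
    {ZL : ∀ l t, Sq k N ι Θ (Ξ × Ci) → ζ' l t} {T : ℕ → Sq k N ι Θ (Ξ × Ci) → ℝ}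
    {che zr : ℕ → Sq k N ι Θ (Ξ × Ci) → Prop}
    (V : GV (Pm (k := k) (N := N) (ι := ι) (Θ := Θ) (P := Ξ × Ci)) N (fun t ω => (ot i ω, Qn i h (M3.Mod.ex N t) ω))
      (fun t => Dg (M3.Mod.ex N (t + 1))) AL ZL T che zr)
    {G dd : ℕ → Sq k N ι Θ (Ξ × Ci) → Prop} {B e : ℝ} (HB : HOut i h LF Uc B e G dd)
    (hLA : ∀ l t, Fac (AL l t) (LF l t))
    (hLp : ∀ l t, Fac (fun w => (pic w, coin w i)) (LF l t))
    (hLs : ∀ l t, Fac (LF l (t + 1)) (LF l t))
    (hLV : ∀ l t, Fac (LF l t) (V.pl l t)) (hne : ∃ j : ι, j ≠ i)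
    {γ0 : Type} (hv : Sq k N ι Θ (Ξ × Ci) → γ0)
    (hUh : ∀ I t, Fac (fun w => (hv w, res I (ot i (pic w)), Qn i h (M3.Mod.ex N t) w)) (Uc I t))
    {ζU : Finset ι → ℕ → Type} (ZU : ∀ U t, Sq k N ι Θ (Ξ × Ci) → ζU U t)
    (hZ : ∀ U ∈ UU i, ∀ t < N, Fac (ZU U t) (fun w => (hv w, res (jo i U) (ot i (pic w)),
      Qn i h (M3.Mod.ex N t) w)))
    (hZA : ∀ l t, t < N → Fac (ZU (UL i (univ.erase l)) t) (AL l (t + 1))) :
    NV (Pm (k := k) (N := N) (ι := ι) (Θ := Θ) (P := Ξ × Ci)) N (UU i) ZU (fun t => Kn i (M3.Mod.ex N t)) T che zr :=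
  have hS : ∀ l : {j : ι // j ≠ i}, (univ.erase l : Finset {j : ι // j ≠ i}) ≠ univ := fun l h' => by
    have := Finset.mem_univ l
    rw [← h'] at this
    exact absurd rfl (Finset.ne_of_mem_erase this)
  have hadm : Adm (fun t (ω : Sq k N ι Θ (Ξ × Ci)) => (ot i ω, Qn i h (M3.Mod.ex N t) ω)) V.pl (AV i LF Uc) :=
    adm_Kn (filt_AV HB.Us hLs) (fun t v w hv => (AV_eq.1 hv).1) fun l t v w hv => hLV l t v w ((AV_eq.1 hv).2.2 l)
  { α := _
    A := AV i LF Uc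
    X := V.X
    g := V.g
    D := fun t => Dg (M3.Mod.ex N (t + 1))
    ev := V.ev
    utd := V.utd
    D0 := fun t w => V.D0 t w ∨ dd t w
    D1 := fun t w => V.D1 t w ∨ dd t w
    b0 := b0V i h LF Uc G
    b := fun U => bJ i h LF Uc (jo i U)
    c := cW V (fun l => univ.erase l)
    ch := chW V (fun l => univ.erase l)
    NB := 9 * V.cb ^ 2
    eta := V.eta
    q := V.q + e
    e3 := 2 * e
    hb := fun _ => (4 + cK i) * B
    J := Fintype.card {j : ι // j ≠ i} * V.J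
    a6 := V.a6
    rmin := V.rmin
    eta0 := V.eta0
    NB0 := by positivity
    view := fun x hx Dd => V.view (AV i LF Uc) hadm x hx Dd
    KA := fun t v w hv => (AV_eq.1 hv).1
    D0inc := fun t w hw hd => hd.imp (V.D0inc t w hw) (HB.inc t w)
    D1inc := fun t w hw hd => hd.imp (V.D1inc t w hw) (HB.inc t w)
    D01 := fun t w _ hd => hd.imp (V.D01 t w) id
    D0q := (Pm.Pr_or_le _ _).trans (add_le_add V.D0q HB.dq)
    D1q := (Pm.Pr_or_le _ _).trans (add_le_add V.D1q HB.dq)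
    XS1 := fun x hx t _ w hw h1 h2 => V.XS1 x hx t w hw h1 fun h' => h2 (Or.inl h')
    SX1 := fun x t _ w hw h1 h2 h3 => V.SX1 x t w hw h1 (fun h' => h2 (Or.inl h')) h3
    ev1 := fun t _ w hw ha => ev1W V hS hadm t w hw (Al_anti Pm (fun _ _ _ hd => Or.inl hd) ha)
    zer := fun t _ w _ hz => V.zer t w hz
    utdK := fun t _ γ Y hY w hw => V.utdc t ((Z_fac_Kn i h (M3.Mod.ex N t)).trans hY) w hw
    bias := fun t ht w _ => bias_AV HB hLp hne ht w
    b0n := b0V_nn G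
    bn := fun U t w => bJ_nn _ t w
    cn := fun U t w => cW_nn V U t w
    b0A := fun t ht => b0V_fac HB hne ht
    bA := fun U hU t _ => bJ_fac (AV_eJM (empty_ne_univ hne) t) (AV_eJM (jo_ne_univ hU) t) (AV_eLM _ t)
    bZ := fun U hU t ht => by
      have h1 := hZ U hU t ht
      have h2 : ∀ l, univ.erase l ⊆ jo i U → Fac (ZU U t) (LF l t) := fun l hl => by
        have h3 : jo i U = univ.erase l := by
          refine (Finset.eq_of_subset_of_card_le hl ?_).symm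
          have h4 : (jo i U).card < (univ : Finset {j : ι // j ≠ i}).card :=
            Finset.card_lt_card (Finset.ssubset_univ_iff.2 (jo_ne_univ hU))
          rw [Finset.card_erase_of_mem (Finset.mem_univ l)]
          omega
        have h5 : UL i (univ.erase l) = U := by rw [← h3]; exact UL_jo (mem_UU.1 hU).1
        have h6 := hZA l t ht
        rw [h5] at h6
        exact (h6.trans (hLA l (t + 1))).trans (hLs l t)
      exact bJ_fac (fac_eJM hUh (Finset.empty_subset _) h1 h2) (fac_eJM hUh (Finset.Subset.refl _) h1 h2)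
        (fac_eLM hUh h1)
    cZ := fun U _ t ht => cW_fac V fun l hl => by
      have := hZA l t ht
      rwa [hl] at this
    b0e := b0V_sum HB fun _ _ hd => Or.inr hd
    bh := fun U hU => bJ_sum HB (jo_ne_univ hU)
    cJ := fun U _ => cW_J V U
    chZ := fun U _ t ht => chW_fac V fun l hl => by
      have := hZA l t ht
      rwa [hl] at this
    chJ := fun U _ => chW_J V U
    eJ := by
      have h1 : (1 : ℝ) ≤ Fintype.card {j : ι // j ≠ i} := by
        obtain ⟨j, hj⟩ := hne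
        have : 0 < Fintype.card {j : ι // j ≠ i} := Fintype.card_pos_iff.2 ⟨⟨j, hj⟩⟩
        exact_mod_cast this
      have h2 := GV_J_nn V
      have h3 := V.eJ
      nlinarith
    thm := fun r hr' D0' hinc hD => by
      obtain ⟨D2, k1, k2, k3, k4, k5, k6⟩ := V.thm r hr' D0' hinc (fun t w hd => hD t w (Pm_ne w) (Or.inl hd))
      refine ⟨D2, k1, fun t w _ => k2 t w, ?_, fun t _ => k4 t, fun x t _ => k5 x t,
        fun t _ => k6 (AV i LF Uc) hadm t⟩
      have he0 : 0 ≤ e := (Pm.Pr_nonneg _).trans HB.dq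
      refine k3.trans ?_
      have e1 : ∀ t, Pm.Pr (fun w => (che t w ∨ ∃ l, V.ch l t w) ∧ (r ≤ |T t w| ∨ r ≤ |T (t + 1) w|) ∧ ¬ D0' (t + 1) w) =
          Pm.Pr (fun w => (che t w ∨ ∃ U ∈ UU i, chW V (fun l => univ.erase l) U t w) ∧
            (r ≤ |T t w| ∨ r ≤ |T (t + 1) w|) ∧ ¬ D0' (t + 1) w) := fun t =>
        Pm.Pr_congr fun w _ => by rw [ex_chW V hS]
      simp only [e1]
      linarith }

/-- **THE NAMED VIEW**, classes `Zk U` (all coins of the vertices of `U`) -/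
def nvof {T : ℕ → Sq k N ι Θ (Ξ × Ci) → ℝ} {che zr : ℕ → Sq k N ι Θ (Ξ × Ci) → Prop}
    (V : MV k N ι Θ (Ξ × Ci) i h (fun l : {j : ι // j ≠ i} => univ.erase l) T che zr)
    {G dd : ℕ → Sq k N ι Θ (Ξ × Ci) → Prop} {B e : ℝ} (HB : HOut i h LF Uc B e G dd)
    (hLA : ∀ l t, Fac (AJ i h (univ.erase l) (M3.Mod.ex N t)) (LF l t))
    (hLp : ∀ l t, Fac (fun w => (pic w, coin w i)) (LF l t))
    (hLs : ∀ l t, Fac (LF l (t + 1)) (LF l t))
    (hLV : ∀ l t, Fac (LF l t) (V.pl l t)) (hne : ∃ j : ι, j ≠ i) :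
    NV (Pm (k := k) (N := N) (ι := ι) (Θ := Θ) (P := Ξ × Ci)) N (UU i)
      (fun U t => Zk U (M3.Mod.ex N (t + 1) - (h + 3))) (fun t => Kn i (M3.Mod.ex N t)) T che zr :=
  nvofG V HB hLA hLp hLs hLV hne (fun w => vx i (pic w)) HB.Uf (fun U t => Zk U (M3.Mod.ex N (t + 1) - (h + 3)))
    (fun U hU t _ v w hv => by
      have hi : i ∈ U := (mem_UU.1 hU).1
      have hr : M3.Mod.ex N (t + 1) - (h + 3) ≤ M3.Mod.ex N t - (h + 3) := by
        unfold M3.Mod.ex
        omega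
      have h1 := Zk_AJ (k := k) (N := N) (Θ := Θ) (P := Ξ × Ci) (h := h) hi (J := jo i U) (fun a ha => mem_jo.1 ha) hr v w hv
      exact AJ_pic3 h1)
    (fun l t _ => Zk_AJ_UL (univ.erase l) le_rfl)

end maps

end

end Pool.Agent.GM
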