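import Pool.Agent.GM.GV

/-!
# GM/Raw (helper95): from the process with labels of any type to the view

* `GRT.old` : the value consists of the known label now and of plain labels which the point has had;
* `GRT.RawR S ix D dK che zr N M ..` : HYPOTHESES ON THE PROCESS `S` with labels of ANY type (extended labels
  `f l t w : O → F'`, `ix t w : O` the true option), steps of `K v` required for the old values, off the errors;
* `RawR.hypN`, `RawR.stepsN`, `RawR.D0N` : the numbered process `S.numd ix M` satisfies `HypT` and `Steps`, mass of its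
  errors;
* **`RawR.view`** : the view without noise (published labels = letters of the numbered process), all sizes explicit:
  `q = qv`, `J = ne + nf`, `hb = hv`, `a6 = card L * top`, `cb = cT + 1`.
-/

set_option autoImplicit false
set_option linter.unusedSectionVars false

namespace Pool.Agent.GM

open Finset Pool.Agent.PWZ Pool.Agent.M3

namespace GRT

variable {Om : Type} [Fintype Om] {κ : ℕ → Type} {α β ι L O E F' : Type} [Fintype ι] [DecidableEq ι] [Fintype O]
  [Inhabited O]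

/-- the list of the values of some label is too long -/
def ovfL (S : GRT Om κ α β ι L (O → F') E F') (M : ℕ) (t : ℕ) (w : Om) : Prop :=
  ∃ l, ovf (Nm.tw (O := O) (S.toGRD.ZJ (S.S l))) (Nm.cp (S.f l)) M t (w, default)

/-- the value consists of the known label now and of plain labels which the point has had -/
def old (S : GRT Om κ α β ι L (O → F') E F') (v : E × (L → F')) (t : ℕ) (w : Om) : Prop :=
  v.1 = S.e t w ∧ ∀ l, ∃ s ≤ t, v.2 l = S.fp l s w

/-- HYPOTHESES ON THE PROCESS, labels of any type -/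
structure RawR (S : GRT Om κ α β ι L (O → F') E F') (ix : ℕ → Om → O) (D : ℕ → Om → ℝ)
    (dK : E × (L → F') → ℕ → Om → ℝ) (che zr : ℕ → Om → Prop) (N M : ℕ) (cT ne nf q0 q1 : ℝ) : Prop where
  hyp : S.HypR ix
  digit : ∀ t w, S.P.p w ≠ 0 → D t w = 1 ∨ D t w = -1
  DZ : ∀ t, Fac (S.toGRD.Z (t + 1)) (D t)
  dKf : ∀ v t, Fac (S.toGRD.Z t) (dK v t)
  step : ∀ t w, S.P.p w ≠ 0 → ¬ S.D0 t w → ∀ v, S.old v t w → S.K v (t + 1) w = S.K v t w + D t w * dK v t w
  T : ∀ t w, S.P.p w ≠ 0 → |S.T t w| ≤ cT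
  cT0 : 0 ≤ cT
  eta : S.eta < 1 / 2
  /-- the known label changes only if the known face changes -/
  chE : ∀ t w, S.e (t + 1) w ≠ S.e t w → che t w
  zer : ∀ t w, zr t w → ∀ v : E × (L → F'), v.1 = S.e t w → S.K v t w = 0
  eM : ∀ t w, Nz.cn (fun s => S.e (s + 1) w ≠ S.e s w) t < M
  D0q : S.P.Pr (S.D0 N) ≤ q0
  ovq : S.P.Pr (S.ovfL M N) ≤ q1
  eJ : ∑ t ∈ range N, S.P.Pr (che t) ≤ ne
  fJ : ∀ l, ∑ t ∈ range N, S.P.Pr (fun w => S.f l (t + 1) w ≠ S.f l t w) ≤ nf
  nf0 : 0 ≤ nf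

namespace RawR

variable {S : GRT Om κ α β ι L (O → F') E F'} {ix : ℕ → Om → O} {D : ℕ → Om → ℝ}
  {dK : E × (L → F') → ℕ → Om → ℝ} {che zr : ℕ → Om → Prop} {N M : ℕ} {cT ne nf q0 q1 : ℝ}
  (R : S.RawR ix D dK che zr N M cT ne nf q0 q1)

include R

theorem hypN : (S.numd ix M).HypT := numd_hyp R.hyp M

theorem novf_e (t : ℕ) (w : Om) : ¬ ovf S.toGRD.Z S.e M t w := by
  have h1 := Nm.rlst_len_chg (Y := S.toGRD.Z) (x := S.e) R.hyp.fe t w
  have h2 := R.eM t w
  unfold ovf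
  omega

omit R in
/-- the recorded numbers, decoded, are an old value of the point, off the overflow -/
theorem old_dcd (hQ : Filt S.Q) (hx : ∀ l t w, S.fp l t w = S.f l t w (ix t w)) {t : ℕ} {w : Om}
    (h : ¬ S.ovfA M t w) : S.old (S.dcd ((S.numd ix M).vr t w) t w) t w := by
  have h1 : ∀ s, s ≤ t → ¬ S.ovfA M s w := fun s hs h' => h (ovfA_le M hs w h')
  refine ⟨dec_num fun h' => h (Or.inl h'), fun l => ?_⟩
  show ∃ s ≤ t, dec (Nm.tw (O := O) (S.toGRD.ZJ (S.S l))) (Nm.cp (S.f l)) ((S.numd ix M).rp l t w) t (w, default) =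
    S.fp l s w
  clear h
  induction t with
  | zero =>
    have h2 : ¬ ovf (Nm.tw (O := O) (S.toGRD.ZJ (S.S l))) (Nm.cp (S.f l)) M 0 (w, default) :=
      fun h' => h1 0 le_rfl (Or.inr ⟨l, h'⟩)
    refine ⟨0, le_rfl, ?_⟩
    rw [hx]
    exact (Nm.dec_cp (ZJ_filt' hQ (S.S l)) h2 (ix 0 w)).2
  | succ t ih =>
    by_cases hc : (S.numd ix M).toGRD.cS l t w
    · rw [rp_succ_of hc]
      have h2 : ¬ ovf (Nm.tw (O := O) (S.toGRD.ZJ (S.S l))) (Nm.cp (S.f l)) M (t + 1) (w, default) :=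
        fun h' => h1 (t + 1) le_rfl (Or.inr ⟨l, h'⟩)
      refine ⟨t + 1, le_rfl, ?_⟩
      rw [hx]
      exact (Nm.dec_cp (ZJ_filt' hQ (S.S l)) h2 (ix (t + 1) w)).2
    · rw [rp_succ_of_not hc]
      obtain ⟨s, hs, h2⟩ := ih fun s hs => h1 s (hs.trans (Nat.le_succ t))
      refine ⟨s, hs.trans (Nat.le_succ t), ?_⟩
      rw [← h2]
      exact dec_stay ((mnA_vr hQ M t w).2 l)

theorem stepsN : (S.numd ix M).Steps D (S.Kn M dK) che zr cT where
  digit := R.digit
  DZ := R.DZ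
  dKf := Kn_fac R.hyp.hyp.filt R.dKf
  step t w hw hd := by
    have hd' : ¬ (S.D0 t w ∨ S.ovfA M t w) := hd
    push Not at hd'
    have hm := mnA_vr (S := S) (ix := ix) R.hyp.hyp.filt M t w
    show S.Kn M S.K _ (t + 1) w = S.Kn M S.K _ t w + D t w * S.Kn M dK _ t w
    unfold Kn
    rw [if_pos hm, if_pos (mnA_inc hm), if_pos hm, dcd_stay hm]
    exact R.step t w hw hd'.1 _ (old_dcd R.hyp.hyp.filt R.hyp.fpx hd'.2)
  T := R.T
  cT0 := R.cT0
  eta := R.eta
  che t w h := R.chE t w (numd_e h)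
  zer t w hz v hv := Kn_zer (R.novf_e t w) (fun v' hv' => R.zer t w hz v' hv') v hv

theorem D0N : S.P.Pr ((S.numd ix M).D0 N) ≤ q0 + q1 := by
  refine le_trans (S.P.Pr_mono fun w hw hd => ?_) ((S.P.Pr_or_le (S.D0 N) (S.ovfL M N)).trans (add_le_add R.D0q R.ovq))
  have hd' : S.D0 N w ∨ S.ovfA M N w := hd
  rcases hd' with hd' | hd' | hd'
  · exact Or.inl hd'
  · exact absurd hd' (R.novf_e N w)
  · exact Or.inr hd'

theorem fJN (l : L) : ∑ t ∈ range N, S.P.Pr (fun w => (S.numd ix M).f l (t + 1) w ≠ (S.numd ix M).f l t w) ≤ nf :=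
  (Finset.sum_le_sum fun t _ => numd_Pr_f R.hyp.hyp.filt M t l).trans (R.fJ l)

theorem ne0 : 0 ≤ ne := (Finset.sum_nonneg fun _ _ => S.P.Pr_nonneg _).trans R.eJ

/-- entropy of one letter, and one more -/
noncomputable def hl (S : GRT Om κ α β ι L (O → F') E F') (M : ℕ) : ℝ :=
  1 + Real.log (4 / S.al 0) + Fintype.card O * Real.log (M + 1)

omit R in
theorem logM : 0 ≤ (Fintype.card O : ℝ) * Real.log ((M : ℝ) + 1) :=
  mul_nonneg (Nat.cast_nonneg _) (Real.log_nonneg (by linarith [Nat.cast_nonneg (α := ℝ) M]))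

theorem log_le_hl : (Fintype.card O : ℝ) * Real.log ((M : ℝ) + 1) ≤ hl S M := by
  have hal := R.hyp.hyp.al0 0
  have hal1 := R.hyp.hyp.al1 0
  have h1 : 0 ≤ Real.log (4 / S.al 0) := by
    apply Real.log_nonneg
    rw [le_div_iff₀ hal]
    linarith
  unfold hl
  linarith

variable [Fintype L]

theorem ntotN : (S.numd ix M).toGRD.ntot N ≤ Fintype.card L * nf := by
  unfold GRD.ntot
  refine (Finset.sum_le_sum fun l _ => R.fJN l).trans (le_of_eq ?_)
  rw [Finset.sum_const, Finset.card_univ, nsmul_eq_mul]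

omit R in
/-- the error of the view -/
noncomputable def qv (S : GRT Om κ α β ι L (O → F') E F') (M : ℕ) (ne nf q0 q1 r1 : ℝ) : ℝ :=
  q0 + q1 + Fintype.card L * S.toGRD.top * (ne + 2 ^ Fintype.card ι * (Fintype.card L * nf) +
    3 * (((M : ℝ) + 1) ^ (Fintype.card L + 1) * (S.Lam / r1)))

omit R in
/-- the created entropy of the letters -/
noncomputable def hv (S : GRT Om κ α β ι L (O → F') E F') (M : ℕ) (nf : ℝ) : ℝ :=
  (1 + nf) * hl S M + 2 ^ Fintype.card ι * (Fintype.card L * nf) / 4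

variable [DecidableEq L] [DecidableEq O] {ζ : L → ℕ → Type} {AL : ∀ l t, Om → ζ l t}

omit R in
theorem card_val : (Fintype.card (Fin (M + 1) × (L → Fin (M + 1))) : ℝ) = ((M : ℝ) + 1) ^ (Fintype.card L + 1) := by
  rw [Fintype.card_prod, Fintype.card_fun, Fintype.card_fin, pow_succ]
  push_cast
  ring

omit R in
theorem card_exp : (Fintype.card (O → Fin (M + 1)) : ℝ) ≤ Real.exp (Fintype.card O * Real.log (M + 1)) := by
  rw [Fintype.card_fun, Fintype.card_fin, mul_comm, Real.exp_mul, Real.exp_log (by positivity)]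
  push_cast
  rw [Real.rpow_natCast]

/-- **THE VIEW**, without noise -/
noncomputable def view (hAL : ∀ l t, Fac (AL l t) (S.toGRD.AQ (S.S l) t)) (hAf : ∀ l, Filt (AL l)) {r1 rmin : ℝ}
    (hr1 : 0 < r1) (hr1' : r1 ≤ 1 / 2) (hr0 : 2 * S.eta + r1 ≤ rmin) :
    GV S.P N S.toGRD.Z D AL (fun l => S.toGRD.ZJ (S.S l)) S.T che zr :=
  gvOf (S := S.numd ix M) (AL := AL) (ZL := fun l => S.toGRD.ZJ (S.S l)) (N := N) (ne := ne)
    (nt := Fintype.card L * nf) (r1 := r1) (rmin := rmin) (q := qv S M ne nf q0 q1 r1) (J := ne + nf)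
    (hb := hv S M nf) R.hypN (pubL_LH (S := S.numd ix M) R.hypN hAL) R.stepsN hr1 hr1' hr0 R.eJ R.ntotN
    (by
      have h1 := R.D0N
      unfold qrun qv
      rw [card_val]
      have e1 : (S.numd ix M).P = S.P := rfl
      have e2 : (S.numd ix M).Lam = S.Lam := rfl
      have e3 : (S.numd ix M).toGRD.top = S.toGRD.top := rfl
      rw [e1, e2, e3]
      linarith)
    (by linarith [R.nf0])
    (fun l t v w hv => ⟨R.hypN.hyp.ff l (t + 1) v w (hAL l (t + 1) v w hv),
      R.hypN.hyp.ff l t v w (hAL l t v w (hAf l t v w hv))⟩)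
    (fun l => (R.fJN l).trans (by linarith [R.ne0]))
    (fun l => (rch_count (S := S.numd ix M) l N).trans ((R.fJN l).trans (by linarith [R.ne0])))
    (fun l => by
      refine (LH_entropy0 (S := S.numd ix M) l (Hh := Fintype.card O * Real.log (M + 1)) logM card_exp).trans ?_
      have h1 := R.log_le_hl
      have h2 := R.nf0
      have h3 : 0 ≤ hl S M := logM.trans h1
      unfold hv
      have h4 : 0 ≤ nf * hl S M := mul_nonneg h2 h3
      have h5 : (0 : ℝ) ≤ 2 ^ Fintype.card ι * (Fintype.card L * nf) / 4 := by positivity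
      linarith)
    (fun l => by
      refine (LH_entropy (S := S.numd ix M) R.hypN.hyp l N (Hh := Fintype.card O * Real.log (M + 1)) logM card_exp
        (R.fJN l)).trans ?_
      have h1 := R.log_le_hl
      have h3 : 0 ≤ hl S M := logM.trans h1
      have h4 := R.ntotN
      have h5 : (2 : ℝ) ^ Fintype.card ι * (S.numd ix M).toGRD.ntot N ≤
          2 ^ Fintype.card ι * (Fintype.card L * nf) := mul_le_mul_of_nonneg_left h4 (by positivity)
      have e1 : (S.numd ix M).al 0 = S.al 0 := rfl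
      unfold hv
      rw [e1]
      have e2 : 1 + Real.log (4 / S.al 0) + Fintype.card O * Real.log (M + 1) = hl S M := rfl
      rw [e2]
      linarith)

theorem view_q (hAL : ∀ l t, Fac (AL l t) (S.toGRD.AQ (S.S l) t)) (hAf : ∀ l, Filt (AL l)) {r1 rmin : ℝ}
    (hr1 : 0 < r1) (hr1' : r1 ≤ 1 / 2) (hr0 : 2 * S.eta + r1 ≤ rmin) :
    (R.view hAL hAf hr1 hr1' hr0).q = qv S M ne nf q0 q1 r1 ∧ (R.view hAL hAf hr1 hr1' hr0).J = ne + nf ∧
      (R.view hAL hAf hr1 hr1' hr0).hb = hv S M nf ∧ (R.view hAL hAf hr1 hr1' hr0).eta = S.eta ∧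
      (R.view hAL hAf hr1 hr1' hr0).a6 = Fintype.card L * S.toGRD.top ∧
      (R.view hAL hAf hr1 hr1' hr0).rmin = rmin ∧ (R.view hAL hAf hr1 hr1' hr0).cb = cT + 1 :=
  ⟨rfl, rfl, rfl, rfl, rfl, rfl, rfl⟩

end RawR

end GRT

end Pool.Agent.GM
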