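import Pool.Agent.GM.RdT
import Pool.Agent.GM.Sq2
import Pool.Agent.GM.Prop1M
import Pool.Agent.M3.RdHyp

/-!
# GM/RdHyp: the hypotheses `GRD.Hyp` of row G2B in the model `Sq`, every finite set `ι` of vertices, helper7

View of the hidden vertex `i`; the known vertices are `{j // j ≠ i}`, `ot i` their exact values, `Q t = Qn i h (ex N t)`.
* `Kn i e` (GM/Prop1M) = public randomness, exact path of the view and all known vertices; `ce_Dg_Kn` (the digit is fair given every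
  class coarser than `Kn i (e+1)`), `m_Kn_succ`, `ce_Kn_dbl` (doubling);
* `ce_known` : the value of a known vertex can be forgotten (only its cell matters) for functions which do not see it;
* `KJ i h J e` = (`x_J`, `Qn`), `AJ i h I e` = (hidden vertex, `x_I`, `Qn`); **`ce_inter`** : a function of `AJ I` has the
  same mean given `KJ J` and `KJ (J ∩ I)`;
* `mdl i h S f al` : the data `GRD`; **`mdl_hyp`** : `GRD.Hyp`; `mdl_utd` : not up to date given every class coarser than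
  `Kn i (ex N t)`.
-/

set_option autoImplicit false
set_option linter.unusedSectionVars false

namespace Pool.Agent.GM

open Finset Pool.Agent.PWZ Pool.Agent.M3 Pool.Agent.M3.Bin
open Pool.Agent.M3.Mod (ex nd dg_val ex_succ ex_top nd_of_dg)

variable {k N : ℕ} {ι Θ P : Type} [Fintype ι] [DecidableEq ι]

theorem Kn_eq {i : ι} {e : ℕ} {v w : Sq k N ι Θ P} :
    Kn i e v = Kn i e w ↔ th v = th w ∧ Zn i e v = Zn i e w ∧ ot i v = ot i w := by
  unfold Kn
  rw [Prod.ext_iff, Prod.ext_iff]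

theorem Kn_succ_fac (i : ι) (e : ℕ) :
    Fac (Kn (k := k) (N := N) (Θ := Θ) (P := P) i e) (Kn i (e + 1)) := by
  intro v w hv
  rw [Kn_eq] at hv ⊢
  exact ⟨hv.1, fac_Zn_succ i e v w hv.2.1, hv.2.2⟩

theorem Kn_of_Dg (i : ι) (e : ℕ) :
    Fac (fun ω : Sq k N ι Θ P => (Kn i (e + 1) ω, Dg e ω)) (Kn i e) := by
  intro v w hv
  simp only [Prod.mk.injEq] at hv
  obtain ⟨h1, h2⟩ := hv
  rw [Kn_eq] at h1 ⊢
  exact ⟨h1.1, nd_of_dg h1.2.1 h2, h1.2.2⟩

theorem Dg_of_Kn (i : ι) (e : ℕ) :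
    Fac (Kn (k := k) (N := N) (Θ := Θ) (P := P) i e) (Dg e) := by
  intro v w hv
  rw [Kn_eq] at hv
  exact fac_Dg_Zn i e v w hv.2.1

section law

variable [Fintype Θ] [Nonempty Θ] [Fintype P] [Nonempty P]

/-- the digit is fair given every class coarser than `Kn i (e+1)` -/
theorem ce_Dg_Kn (i : ι) {e : ℕ} (he : e < N) {κ : Type*} {X : Sq k N ι Θ P → κ} (hX : Fac (Kn i (e + 1)) X)
    (ω : Sq k N ι Θ P) : Pm.ce X (Dg e) ω = 0 := by
  refine ce_Dg_view i he ?_ ω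
  intro v w h
  refine hX v w ?_
  simp only [Prod.mk.injEq] at h
  rw [Kn_eq]
  exact ⟨h.1, h.2.2.1, h.2.2.2⟩

/-- the mass of a class is halved by the digit -/
theorem m_Kn_succ (i : ι) {e : ℕ} (he : e < N) (ω : Sq k N ι Θ P) :
    Pm.m (Kn i (e + 1)) ω = 2 * Pm.m (Kn i e) ω := by
  have h0 := ce_Dg_Kn (k := k) (N := N) (Θ := Θ) (P := P) i he (Fac.refl (Kn i (e + 1))) ω
  have hm := (Pm (k := k) (N := N) (ι := ι) (Θ := Θ) (P := P)).m_pos (Kn i (e + 1)) (Pm_ne ω)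
  have h1 : Pm.E (fun v : Sq k N ι Θ P => ind (Kn i (e + 1) v = Kn i (e + 1) ω) * Dg e v) = 0 := by
    unfold FP.ce at h0
    rcases div_eq_zero_iff.1 h0 with h | h
    · exact h
    · exact absurd h hm.ne'
  have h2 : Pm.m (Kn i e) ω = Pm.E (fun v : Sq k N ι Θ P => (1 / 2) * ind (Kn i (e + 1) v = Kn i (e + 1) ω) +
      (Dg e ω / 2) * (ind (Kn i (e + 1) v = Kn i (e + 1) ω) * Dg e v)) := by
    unfold FP.m
    refine Pm.E_congr fun v _ => ?_
    by_cases hK : Kn i (e + 1) v = Kn i (e + 1) ω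
    · rw [ind_of hK]
      by_cases hd : Dg e v = Dg e ω
      · rw [ind_of (Kn_of_Dg i e v ω (Prod.ext hK hd)), hd]
        rcases Dg_val e ω with h | h <;> rw [h] <;> norm_num
      · rw [ind_not (fun h => hd (Dg_of_Kn i e v ω h))]
        rcases Dg_val e v with h | h <;> rcases Dg_val e ω with h' | h' <;> rw [h, h'] at hd ⊢ <;>
          first | exact absurd rfl hd | norm_num
    · rw [ind_not hK, ind_not (fun h => hK (Kn_succ_fac i e v ω h))]; ring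
  rw [h2, FP.E_add, FP.E_smul, FP.E_smul, h1]
  unfold FP.m
  ring

/-- doubling -/
theorem ce_Kn_dbl (i : ι) (t : ℕ) {f : Sq k N ι Θ P → ℝ} (h0 : ∀ w, 0 ≤ f w) (ω : Sq k N ι Θ P) :
    Pm.ce (Kn i (ex N (t + 1))) f ω ≤ 2 * Pm.ce (Kn i (ex N t)) f ω := by
  rcases lt_or_ge t N with ht | ht
  · rw [ex_succ ht]
    refine Pm.ce_fine_le (Kn_succ_fac i _) h0 (Pm_ne ω) ?_
    rw [m_Kn_succ i (by unfold ex; omega)]
  · rw [ex_top ht, ex_top (by omega : N ≤ t + 1)]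
    have := (Pm (k := k) (N := N) (ι := ι) (Θ := Θ) (P := P)).ce_nonneg (X := Kn i 0) (fun w _ => h0 w) ω
    linarith

/-- THE VALUE OF A KNOWN VERTEX CAN BE FORGOTTEN: `X` = (`ζ`, the vertex `a`), `Y` = (`ζ`, its cell), `ζ` and `f` do not see
the vertex `a` but for its cell -/
theorem ce_known (a : ι) (s : ℕ) {κ' κ₁ κ₂ : Type*} {ζ : Sq k N ι Θ P → κ'} {X : Sq k N ι Θ P → κ₁}
    {Y : Sq k N ι Θ P → κ₂} (hζ : Fac (fun ω => (th ω, ot a ω, nz ω)) ζ)
    (hX : Fac X (fun ω => (ζ ω, vx a ω))) (hX' : Fac (fun ω => (ζ ω, vx a ω)) X)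
    (hY : Fac Y (fun ω => (ζ ω, flr s (vx a ω).2))) (hY' : Fac (fun ω => (ζ ω, flr s (vx a ω).2)) Y)
    {f : Sq k N ι Θ P → ℝ} (hf : Fac (fun ω => ((th ω, ot a ω, nz ω), flr s (vx a ω).2)) f) (ω : Sq k N ι Θ P) :
    Pm.ce X f ω = Pm.ce Y f ω := by
  rw [Pm.ce_congr_map hX hX' f ω, Pm.ce_congr_map hY hY' f ω]
  refine FP.ce_indep_eq _ (indep_vx a).symm hζ (Fac.refl _) ?_ hf (Pm_ne ω)
  intro v w hv
  have hv' : vx a v = vx a w := hv
  show flr s (vx a v).2 = flr s (vx a w).2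
  rw [hv']

end law

/-! ## the classes of a view -/

/-- the known vertices of `J` and the public node -/
def KJ (i : ι) (h : ℕ) (J : Finset {j : ι // j ≠ i}) (e : ℕ) (ω : Sq k N ι Θ P) :
    ({a // a ∈ J} → P × V k) × (Θ × (V k × ℕ) × ({j : ι // j ≠ i} → V k)) := (res J (ot i ω), Qn i h e ω)

/-- the hidden vertex, the known vertices of `I` and the public node -/
def AJ (i : ι) (h : ℕ) (I : Finset {j : ι // j ≠ i}) (e : ℕ) (ω : Sq k N ι Θ P) :
    (P × V k) × ({a // a ∈ I} → P × V k) × (Θ × (V k × ℕ) × ({j : ι // j ≠ i} → V k)) :=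
  (vx i ω, res I (ot i ω), Qn i h e ω)

theorem Qn_eq {i : ι} {h e : ℕ} {v w : Sq k N ι Θ P} : Qn i h e v = Qn i h e w ↔
    th v = th w ∧ Zn i e v = Zn i e w ∧ ∀ a, a ≠ i → sc h e a v = sc h e a w := by
  unfold Qn
  rw [Prod.ext_iff, Prod.ext_iff]
  refine and_congr_right fun _ => and_congr_right fun _ => ?_
  constructor
  · intro h a ha
    exact congrFun h ⟨a, ha⟩
  · intro h
    funext a
    exact h a.1 a.2

theorem KJ_eq {i : ι} {h : ℕ} {J : Finset {j : ι // j ≠ i}} {e : ℕ} {v w : Sq k N ι Θ P} :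
    KJ i h J e v = KJ i h J e w ↔ (∀ a ∈ J, vx a.1 v = vx a.1 w) ∧ Qn i h e v = Qn i h e w := by
  unfold KJ
  rw [Prod.ext_iff, res_eq]
  rfl

theorem AJ_eq {i : ι} {h : ℕ} {I : Finset {j : ι // j ≠ i}} {e : ℕ} {v w : Sq k N ι Θ P} :
    AJ i h I e v = AJ i h I e w ↔ vx i v = vx i w ∧ (∀ a ∈ I, vx a.1 v = vx a.1 w) ∧ Qn i h e v = Qn i h e w := by
  unfold AJ
  constructor
  · intro hv
    refine ⟨congrArg Prod.fst hv, fun a ha => ?_, congrArg (fun x => x.2.2) hv⟩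
    have h1 : res I (ot i v) = res I (ot i w) := congrArg (fun x => x.2.1) hv
    exact res_eq.1 h1 a ha
  · rintro ⟨h1, h2, h3⟩
    exact Prod.ext h1 (Prod.ext (res_eq.2 h2) h3)

/-- the full class knows every `KJ` -/
theorem Kn_fac_KJ (i : ι) (h : ℕ) (J : Finset {j : ι // j ≠ i}) (e : ℕ) :
    Fac (Kn (k := k) (N := N) (Θ := Θ) (P := P) i e) (KJ i h J e) := by
  intro v w hv
  rw [Kn_eq] at hv
  rw [KJ_eq, Qn_eq]
  refine ⟨fun a _ => congrFun hv.2.2 a, hv.1, hv.2.1, fun a ha => ?_⟩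
  have h1 : vx a v = vx a w := congrFun hv.2.2 ⟨a, ha⟩
  unfold sc
  rw [h1]

theorem Z_fac_Kn (i : ι) (h e : ℕ) :
    Fac (fun ω : Sq k N ι Θ P => (ot i ω, Qn i h e ω)) (Kn i e) := by
  intro v w hv
  simp only [Prod.mk.injEq] at hv
  rw [Qn_eq] at hv
  rw [Kn_eq]
  exact ⟨hv.2.1, hv.2.2.1, hv.1⟩

theorem Kn_fac_Z (i : ι) (h e : ℕ) :
    Fac (Kn i e) (fun ω : Sq k N ι Θ P => (ot i ω, Qn i h e ω)) := by
  intro v w hv
  have h1 := Kn_fac_KJ i h ∅ e v w hv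
  rw [KJ_eq] at h1
  rw [Kn_eq] at hv
  exact Prod.ext hv.2.2 h1.2

/-- a function of `(A, x_I, Q)` sees of a known vertex `a ∉ I` only the cell -/
theorem fac_forget {i : ι} (h : ℕ) {I : Finset {j : ι // j ≠ i}} {a : {j : ι // j ≠ i}} (ha : a ∉ I) (e : ℕ) :
    Fac (fun ω : Sq k N ι Θ P => ((th ω, ot a.1 ω, nz ω), flr (e - (h + 3)) (vx a.1 ω).2)) (AJ i h I e) := by
  intro v w hv
  simp only [Prod.mk.injEq] at hv
  obtain ⟨⟨h1, h2, h3⟩, h4⟩ := hv
  have hi : vx i v = vx i w := congrFun h2 ⟨i, a.2.symm⟩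
  have hb : ∀ b, b ≠ a.1 → vx b v = vx b w := fun b hb => congrFun h2 ⟨b, hb⟩
  rw [AJ_eq, Qn_eq]
  refine ⟨hi, fun b hbI => hb b.1 fun hba => ha ?_, h1, ?_, fun b _ => ?_⟩
  · rw [← Subtype.ext (a1 := b) (a2 := a) hba]
    exact hbI
  · unfold Zn
    rw [hi, h3]
  · unfold sc
    by_cases hba : b = a.1
    · rw [hba]
      exact h4
    · rw [hb b hba]

section lawJ

variable [Fintype Θ] [Nonempty Θ] [Fintype P] [Nonempty P]

/-- one known vertex which the function does not see can be forgotten -/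
theorem ce_drop (i : ι) (h : ℕ) {J I : Finset {j : ι // j ≠ i}} {a : {j : ι // j ≠ i}} (haJ : a ∈ J) (haI : a ∉ I)
    (e : ℕ) {f : Sq k N ι Θ P → ℝ} (hf : Fac (AJ i h I e) f) (ω : Sq k N ι Θ P) :
    Pm.ce (KJ i h J e) f ω = Pm.ce (KJ i h (J.erase a) e) f ω := by
  refine ce_known a.1 (e - (h + 3))
    (ζ := fun ω => (res (J.erase a) (ot i ω), th ω, Zn i e ω, fun b : {b : ι // b ≠ i ∧ b ≠ a.1} => sc h e b.1 ω))
    ?_ ?_ ?_ ?_ ?_ ((fac_forget h haI e).trans hf) ω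
  · intro v w hv
    simp only [Prod.mk.injEq] at hv
    obtain ⟨h1, h2, h3⟩ := hv
    have hb : ∀ b, b ≠ a.1 → vx b v = vx b w := fun b hb => congrFun h2 ⟨b, hb⟩
    have hJ : res (J.erase a) (ot i v) = res (J.erase a) (ot i w) := res_eq.2 fun b hbJ => by
      show vx b.1 v = vx b.1 w
      exact hb b.1 fun hba => (Finset.mem_erase.1 hbJ).1 (Subtype.ext hba)
    refine Prod.ext hJ (Prod.ext h1 (Prod.ext ?_ (funext fun b => ?_)))
    · show Zn i e v = Zn i e w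
      unfold Zn
      rw [hb i a.2.symm, h3]
    · show sc h e b.1 v = sc h e b.1 w
      unfold sc
      rw [hb b.1 b.2.2]
  · intro v w hv
    rw [KJ_eq, Qn_eq] at hv
    refine Prod.ext (Prod.ext (res_eq.2 fun b hbJ => hv.1 b (Finset.mem_erase.1 hbJ).2)
      (Prod.ext hv.2.1 (Prod.ext hv.2.2.1 (funext fun b => hv.2.2.2 b.1 b.2.1)))) (hv.1 a haJ)
  · intro v w hv
    simp only [Prod.mk.injEq] at hv
    obtain ⟨⟨h1, h2, h3, h4⟩, h5⟩ := hv
    rw [res_eq] at h1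
    rw [KJ_eq, Qn_eq]
    refine ⟨fun b hbJ => ?_, h2, h3, fun b hb => ?_⟩
    · by_cases hba : b = a
      · rw [hba]
        exact h5
      · exact h1 b (Finset.mem_erase.2 ⟨hba, hbJ⟩)
    · by_cases hba : b = a.1
      · rw [hba]
        unfold sc
        rw [h5]
      · exact congrFun h4 ⟨b, hb, hba⟩
  · intro v w hv
    rw [KJ_eq, Qn_eq] at hv
    exact Prod.ext (Prod.ext (res_eq.2 fun b hbJ => hv.1 b hbJ)
      (Prod.ext hv.2.1 (Prod.ext hv.2.2.1 (funext fun b => hv.2.2.2 b.1 b.2.1)))) (hv.2.2.2 a.1 a.2)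
  · intro v w hv
    simp only [Prod.mk.injEq] at hv
    obtain ⟨⟨h1, h2, h3, h4⟩, h5⟩ := hv
    rw [res_eq] at h1
    rw [KJ_eq, Qn_eq]
    refine ⟨h1, h2, h3, fun b hb => ?_⟩
    by_cases hba : b = a.1
    · rw [hba]
      exact h5
    · exact congrFun h4 ⟨b, hb, hba⟩

/-- **CONDITIONAL INDEPENDENCE**: a function of the hidden vertex, `x_I` and the node has the same mean given `x_J` and
given `x_(J ∩ I)` -/
theorem ce_inter (i : ι) (h : ℕ) (I : Finset {j : ι // j ≠ i}) (e : ℕ) {f : Sq k N ι Θ P → ℝ}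
    (hf : Fac (AJ i h I e) f) (J : Finset {j : ι // j ≠ i}) (ω : Sq k N ι Θ P) :
    Pm.ce (KJ i h J e) f ω = Pm.ce (KJ i h (J ∩ I) e) f ω := by
  induction J using Finset.strongInduction with
  | H J ih =>
    by_cases hJ : J ⊆ I
    · rw [Finset.inter_eq_left.2 hJ]
    · obtain ⟨a, haJ, haI⟩ := Finset.not_subset.1 hJ
      rw [ce_drop i h haJ haI e hf ω, ih (J.erase a) (Finset.erase_ssubset haJ), Finset.erase_inter]
      rw [Finset.erase_eq_of_notMem fun h1 => haI (Finset.mem_inter.1 h1).2]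

/-! ## the data of row G2B -/

/-- **the data `GRD` in the model**: hidden vertex `i`, known vertices `{j // j ≠ i}`, labels `f l` with supports `S l` -/
noncomputable def mdl {L F : Type*} (i : ι) (h : ℕ) (S : L → Finset {j : ι // j ≠ i})
    (f : L → ℕ → Sq k N ι Θ P → F) (al : ℕ → ℝ) :
    GRD (Sq k N ι Θ P) (fun _ => Θ × (V k × ℕ) × ({j : ι // j ≠ i} → V k)) (P × V k) (P × V k) {j : ι // j ≠ i} L F where
  P := Pm
  Q := fun t => Qn i h (ex N t)
  A := vx i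
  X := ot i
  S := S
  f := f
  al := al

theorem mdl_dbl (i : ι) (h t : ℕ) {q : Sq k N ι Θ P → ℝ} (hq : ∀ w, 0 ≤ q w) (w : Sq k N ι Θ P) :
    Pm.ce (fun ω => (ot i ω, Qn i h (ex N (t + 1)) ω)) q w ≤ 2 * Pm.ce (fun ω => (ot i ω, Qn i h (ex N t) ω)) q w := by
  have h1 : ∀ e, Pm.ce (fun ω => (ot i ω, Qn i h e ω)) q w = Pm.ce (Kn i e) q w := fun e =>
    Pm.ce_congr_map (Z_fac_Kn i h e) (Kn_fac_Z i h e) q w
  rw [h1, h1]
  exact ce_Kn_dbl i t hq w

/-- **the hypotheses of row G2B** -/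
theorem mdl_hyp {L F : Type*} {i : ι} {h : ℕ} {S : L → Finset {j : ι // j ≠ i}} {f : L → ℕ → Sq k N ι Θ P → F}
    {al : ℕ → ℝ} (hS : ∀ l, S l ≠ univ) (hf : ∀ l t, Fac (AJ i h (S l) (ex N t)) (f l t))
    (al0 : ∀ s, 0 < al s) (al1 : ∀ s, al s ≤ 1)
    (ab : ∀ s, s + 1 < Fintype.card {j : ι // j ≠ i} → al s ≤ al (s + 1) ^ 2) : (mdl i h S f al).Hyp where
  filt := filt_Qn i h
  S1 := hS
  ff := hf
  ind J I t _ hq w _ := ce_inter i h I (ex N t) hq J w
  dbl t _ hq w _ := mdl_dbl i h t hq w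
  al0 := al0
  al1 := al1
  ab := ab

/-- not up to date: every class coarser than `Kn` -/
theorem mdl_utd {L F : Type*} [Fintype L] {i : ι} {h : ℕ} {S : L → Finset {j : ι // j ≠ i}}
    {f : L → ℕ → Sq k N ι Θ P → F} {al : ℕ → ℝ} (H : (mdl i h S f al).Hyp)
    (t : ℕ) {ν : Type*} {Y : Sq k N ι Θ P → ν} (hY : Fac (Kn i (ex N t)) Y) (w : Sq k N ι Θ P) :
    Pm.ce Y (fun v => ind (¬ (mdl i h S f al).utd t v)) w ≤ Fintype.card L * (mdl i h S f al).top :=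
  GRD.utd_coarse H t ((Z_fac_Kn i h (ex N t)).trans hY) (Pm_ne w)

end lawJ

end Pool.Agent.GM
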