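import Pool.Agent.GM.NamExt
import Pool.Agent.GM.RdHyp
import Pool.Agent.GM.Raw

/-!
# GM/NamOut: from the output of the names to the hypotheses of row G2B (`GRT.RawR`), helper52

* `Fst ι Ξ Pt V Γ a E F` : OUTPUT OF THE NAMES, any type of labels: known label `e` (list of the known face), labels `f u` of
  the owners `u ≠ a` (functions of the coins and of the vertices but `u`), function `Ph v` of the window and predicate
  `on v` (all functions of the value `v` are introduced), for every value `v : Vl a E F`;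
* `Fst.Ok S Q A J q M dead` : the properties: what sees what, `on` is kept and then `Ph` is static, bound `A`, off `dead` every
  OLD value of the point is on, mean number of changes `J`, at most `M` values of a label in the class off probability `q`;
* `outG O c Tp zr dd al eta` : THE `GRT` INSTANCE in the model (`binSys Θ Ξ Q' σ a hN h`, public cells `h' ≥ h`), process
  `Tp`, factor `c`; the known label contains the bit `zr` (the known face is zero);
* `outG_hyp` : `HypR`; **`outG_raw`** : `RawR` for the digit `Dg`, free step `dKo`.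
-/

set_option autoImplicit false
set_option linter.unusedSectionVars false

namespace Pool.Agent.GM.Nam

open Finset Pool.Agent.PWZ Pool.Agent.M3 Pool.Agent.M3.TS Pool.Agent.GM

noncomputable section

/-! ### the output of the names -/

/-- values: known label, labels of the owners -/
abbrev Vl {ι : Type} (a : ι) (E F : Type) : Type := E × ({u : ι // u ≠ a} → F)

/-- THE OUTPUT OF THE NAMES -/
structure Fst (ι Ξ Pt V Γ : Type) (a : ι) (E F : Type) where
  e : ℕ → Γ → (ι → Pt) → E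
  f : ι → ℕ → Γ → Ξ → (ι → Pt) → F
  Ph : Vl a E F → ℕ → Γ → (ι → Pt) → V → ℝ
  on : Vl a E F → ℕ → Γ → (ι → Pt) → Prop

section fst

variable {ι Om Ξ Pt V Γ κ : Type} [Fintype ι] [DecidableEq ι] [Fintype Om] [Fintype Ξ] [Fintype Pt]
  [Fintype V] {υ : ℕ → Type} {a : ι} {E F : Type}

/-- the true value at a sample point -/
def Fst.tv (O : Fst ι Ξ Pt V Γ a E F) (S : Sys ι Om Ξ Pt V Γ κ) (t : ℕ) (w : Om) : Vl a E F :=
  (O.e t (S.gm t w) (S.x w), fun u => O.f u t (S.gm t w) (S.xi w) (S.x w))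

/-- the value consists of the known label now and of labels which the point has had -/
def Fst.old (O : Fst ι Ξ Pt V Γ a E F) (S : Sys ι Om Ξ Pt V Γ κ) (v : Vl a E F) (t : ℕ) (w : Om) : Prop :=
  v.1 = O.e t (S.gm t w) (S.x w) ∧ ∀ u : {u : ι // u ≠ a}, ∃ s ≤ t, v.2 u = O.f u s (S.gm s w) (S.xi w) (S.x w)

theorem Fst.old_tv (O : Fst ι Ξ Pt V Γ a E F) (S : Sys ι Om Ξ Pt V Γ κ) (t : ℕ) (w : Om) : O.old S (O.tv S t w) t w :=
  ⟨rfl, fun _ => ⟨t, le_rfl, rfl⟩⟩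

/-- THE PROPERTIES OF THE OUTPUT -/
structure Fst.Ok (O : Fst ι Ξ Pt V Γ a E F) (S : Sys ι Om Ξ Pt V Γ κ) (Q : ∀ t, Om → υ t) (A J q : ℝ) (M : ℕ)
    (dead : ℕ → Om → Prop) : Prop where
  e_dep : ∀ t g, Dep (univ.erase a) (O.e t g)
  f_lab : ∀ u, u ≠ a → LabN S (univ.erase u) (O.f u)
  Ph_dep : ∀ v t g, Dep (univ.erase a) (O.Ph v t g)
  on_dep : ∀ v t g, Dep (univ.erase a) (O.on v t g)
  keep : ∀ v t g x, O.on v t (S.par t g) x → O.on v (t + 1) g x
  stat : ∀ v t g x, O.on v t (S.par t g) x → O.Ph v (t + 1) g x = O.Ph v t (S.par t g) x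
  bd : ∀ v t g x d, |O.Ph v t g x d| ≤ A
  A0 : 0 ≤ A
  q0 : 0 ≤ q
  inc : ∀ t w, dead t w → dead (t + 1) w
  /-- off dead every old value of the point is on -/
  olds : ∀ t ≤ S.n, ∀ w, ¬ dead t w → ∀ v, O.old S v t w → O.on v t (S.gm t w) (S.x w)
  chf : ∀ u, u ≠ a → ∑ t ∈ range S.n, S.P.Pr (fun w => O.f u (t + 1) (S.gm (t + 1) w) (S.xi w) (S.x w) ≠
    O.f u t (S.gm t w) (S.xi w) (S.x w)) ≤ J
  /-- few values of a label in the class -/
  vf : ∀ u, u ≠ a → S.P.Pr (fun w0 => ¬ ∃ s : Finset F, s.card ≤ M ∧ ∀ t ≤ S.n, ∀ o ∈ S.OPT Q t w0, ∀ w,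
    Q t w = Q t w0 → (∀ j, j ≠ a → j ≠ u → S.x w j = S.x w0 j) → O.f u t o (S.xi w) (S.x w) ∈ s) ≤ q

end fst

/-! ### the model -/

open Pool.Agent.M3.Bin
open Pool.Agent.M3.Mod (ex nd av dl av_const av_mono av_eq_ip)

theorem iw_av {k : ℕ} (e : ℕ) (y : V k) (f : V k → ℝ) : iw (Wd e y) f (fun _ => 1) = av e y f := by
  rw [iw_Wd, av_eq_ip]

theorem ex_min (N t : ℕ) : ex N (min t N) = ex N t := by
  unfold ex
  omega

variable {k N : ℕ} {ι Θ Ξ Q' : Type} [Fintype ι] [DecidableEq ι] [Fintype Θ] [Nonempty Θ] [Fintype Ξ] [Nonempty Ξ]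
  [Fintype Q'] [Nonempty Q'] {a : ι} {E F : Type} {σ : V k} {hN : N ≤ k} {h h' : ℕ}

/-- a node -/
def dg0 (k : ℕ) (Θ : Type) [Nonempty Θ] : Θ × (V k × ℕ) := (Classical.arbitrary Θ, (0, 0))

/-- the public node -/
abbrev QQ (k N : ℕ) (Θ Ξ Q' : Type) (a : ι) (h' : ℕ) (t : ℕ) (w : Sq k N ι Θ (Ξ × Q')) :
    Θ × (V k × ℕ) × ({j : ι // j ≠ a} → V k) := Qn a h' (ex N t) w

/-- the label at the time `min t N` -/
def cap (N : ℕ) {Γ Ξ Pt Lb : Type} (x : ℕ → Γ → Ξ → (ι → Pt) → Lb) (t : ℕ) : Γ → Ξ → (ι → Pt) → Lb := x (min t N)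

/-- the value without the bits -/
def vv {B : Type} (v : (E × B) × ({u : ι // u ≠ a} → F × Bool)) : Vl a E F := (v.1.1, fun u => (v.2 u).1)

section inst

variable (O : Fst ι Ξ (Q' × V k) (V k) (Θ × (V k × ℕ)) a E F)

/-- all functions of the value are introduced -/
def onm (σ : V k) (hN : N ≤ k) (h : ℕ) (v : Vl a E F) (t : ℕ) (w : Sq k N ι Θ (Ξ × Q')) : Prop :=
  O.on v (min t N) ((binSys Θ Ξ Q' σ a hN h).gm t w) ((binSys Θ Ξ Q' σ a hN h).x w)

/-- the function of the value -/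
def Phm (σ : V k) (hN : N ≤ k) (h : ℕ) (v : Vl a E F) (t : ℕ) (w : Sq k N ι Θ (Ξ × Q')) : V k → ℝ :=
  O.Ph v (min t N) ((binSys Θ Ξ Q' σ a hN h).gm t w) ((binSys Θ Ξ Q' σ a hN h).x w)

open Classical in
/-- **the data of row G2B** -/
def outG (σ : V k) (hN : N ≤ k) (h h' : ℕ) (c A eta : ℝ) (Tp : ℕ → Sq k N ι Θ (Ξ × Q') → ℝ)
    (zr dd : ℕ → Sq k N ι Θ (Ξ × Q') → Prop) (al : ℕ → ℝ) :
    GRT (Sq k N ι Θ (Ξ × Q')) (fun _ => Θ × (V k × ℕ) × ({j : ι // j ≠ a} → V k)) ((Ξ × Q') × V k) ((Ξ × Q') × V k)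
      {j : ι // j ≠ a} {u : ι // u ≠ a} (Bool → F × Bool) (E × Prop) (F × Bool) where
  toGRD := mdl a h' (fun u => univ.erase u)
    (fun u => xl (binSys Θ Ξ Q' σ a hN h) (QQ k N Θ Ξ Q' a h') (dg0 k Θ) (cap N (O.f u))) al
  e := fun t w => (O.e (min t N) ((binSys Θ Ξ Q' σ a hN h).gm t w) ((binSys Θ Ξ Q' σ a hN h).x w), zr t w)
  fp := fun u => pl (binSys Θ Ξ Q' σ a hN h) (QQ k N Θ Ξ Q' a h') (dg0 k Θ) (cap N (O.f u))
  K := fun v t w => if v.1.2 ∨ ¬ onm O σ hN h (vv v) t w then 0 else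
    c * iw ((binSys Θ Ξ Q' σ a hN h).J t w) (Phm O σ hN h (vv v) t w) (fun _ => 1)
  T := Tp
  D0 := fun t w => N < t ∨ dd t w
  Lam := c * A
  eta := eta

/-- the number of the true option -/
def oix (σ : V k) (a : ι) (hN : N ≤ k) (h h' : ℕ) : ℕ → Sq k N ι Θ (Ξ × Q') → Bool :=
  xo (binSys Θ Ξ Q' σ a hN h) (QQ k N Θ Ξ Q' a h') (dg0 k Θ)

open Classical in
/-- the free step -/
def dKo (σ : V k) (hN : N ≤ k) (h : ℕ) (c : ℝ) (v : (E × Prop) × ({u : ι // u ≠ a} → F × Bool)) (t : ℕ)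
    (w : Sq k N ι Θ (Ξ × Q')) : ℝ :=
  if t < N ∧ ¬ v.1.2 ∧ onm O σ hN h (vv v) t w then
    c * dl (ex N (t + 1)) (Yn σ (ex N t) w).1 (Phm O σ hN h (vv v) t w) else 0

end inst

/-! ### what the node knows -/

theorem Kn_Yn' (a : ι) (e : ℕ) : Fac (Kn (k := k) (N := N) (Θ := Θ) (P := Ξ × Q') a e) (Yn σ e) := by
  intro v w hv
  rw [Kn_eq] at hv
  exact fac_Yn σ a e v w (Prod.ext hv.2.1 hv.2.2)

theorem Kn_gm (t : ℕ) : Fac (Kn (k := k) (N := N) (Θ := Θ) (P := Ξ × Q') a (ex N t))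
    ((binSys Θ Ξ Q' σ a hN h).gm t) := by
  intro v w hv
  have h1 := Kn_Yn' (σ := σ) a (ex N t) v w hv
  rw [Kn_eq] at hv
  show (th v, Gm σ h (ex N t) v) = (th w, Gm σ h (ex N t) w)
  rw [hv.1, fac_Yn_Gm σ h (ex N t) v w h1]

theorem x_eq {v w : Sq k N ι Θ (Ξ × Q')} {j : ι} (hv : vx j v = vx j w) :
    (binSys Θ Ξ Q' σ a hN h).x v j = (binSys Θ Ξ Q' σ a hN h).x w j := by
  show ((vx j v).1.2, (vx j v).2) = ((vx j w).1.2, (vx j w).2)
  rw [hv]

theorem Kn_x {e : ℕ} {v w : Sq k N ι Θ (Ξ × Q')} (hv : Kn a e v = Kn a e w) :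
    ∀ j ∈ univ.erase a, (binSys Θ Ξ Q' σ a hN h).x v j = (binSys Θ Ξ Q' σ a hN h).x w j := by
  intro j hj
  rw [Kn_eq] at hv
  exact x_eq (congrFun hv.2.2 ⟨j, (Finset.mem_erase.1 hj).1⟩)

section fac

variable (O : Fst ι Ξ (Q' × V k) (V k) (Θ × (V k × ℕ)) a E F)

/-- a function of the known vertices and of the node -/
theorem Kn_fac {β : Type*} {φ : ℕ → Θ × (V k × ℕ) → (ι → Q' × V k) → β} (hφ : ∀ t g, Dep (univ.erase a) (φ t g)) (s t : ℕ) :
    Fac (Kn (k := k) (N := N) (Θ := Θ) (P := Ξ × Q') a (ex N t))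
      (fun w => φ s ((binSys Θ Ξ Q' σ a hN h).gm t w) ((binSys Θ Ξ Q' σ a hN h).x w)) := by
  intro v w hv
  have h1 := Kn_gm (σ := σ) (hN := hN) (h := h) t v w hv
  simp only
  rw [h1]
  exact hφ s _ _ _ (Kn_x hv)

end fac

/-- times after the end -/
theorem gm_top {t : ℕ} (ht : N ≤ t) (w : Sq k N ι Θ (Ξ × Q')) :
    (binSys Θ Ξ Q' σ a hN h).gm (t + 1) w = (binSys Θ Ξ Q' σ a hN h).gm t w := by
  have h5 : ex N (t + 1) = ex N t := by unfold ex; omega
  show (th w, Gm σ h (ex N (t + 1)) w) = (th w, Gm σ h (ex N t) w)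
  rw [h5]

theorem par_top {t : ℕ} (ht : N ≤ t) (g : Θ × (V k × ℕ)) : (binSys Θ Ξ Q' σ a hN h).par t g = g := by
  show (if t < N then _ else g) = g
  rw [if_neg (not_lt.2 ht)]

/-- the capped label is a label -/
theorem lab_cap {Lb : Type} {I : Finset ι} {x : ℕ → Θ × (V k × ℕ) → Ξ → (ι → Q' × V k) → Lb}
    (hx : LabN (binSys Θ Ξ Q' σ a hN h) I x) : LabN (binSys Θ Ξ Q' σ a hN h) I (cap N x) where
  val t g ξ y z hyz hc := by
    refine hx.val (min t N) g ξ y z hyz fun j => ?_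
    show flr (ex N (min t N) - (h + 3)) (y j).2 = flr (ex N (min t N) - (h + 3)) (z j).2
    rw [ex_min]
    exact hc j
  chg t g ξ := by
    rcases Nat.lt_or_ge t N with ht | ht
    · intro y z hyz
      show (x (min (t + 1) N) g ξ y ≠ x (min t N) ((binSys Θ Ξ Q' σ a hN h).par t g) ξ y) =
        (x (min (t + 1) N) g ξ z ≠ x (min t N) ((binSys Θ Ξ Q' σ a hN h).par t g) ξ z)
      rw [min_eq_left (show t + 1 ≤ N by omega), min_eq_left ht.le]
      exact hx.chg t g ξ y z hyz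
    · intro y z _
      show (x (min (t + 1) N) g ξ y ≠ x (min t N) ((binSys Θ Ξ Q' σ a hN h).par t g) ξ y) =
        (x (min (t + 1) N) g ξ z ≠ x (min t N) ((binSys Θ Ξ Q' σ a hN h).par t g) ξ z)
      rw [par_top ht, min_eq_right (show N ≤ t + 1 by omega), min_eq_right ht]
      apply propext
      exact ⟨fun h1 => absurd rfl h1, fun h1 => absurd rfl h1⟩

/-- **the exact windows are a martingale**, given any class coarser than `Kn` -/
theorem ce_iw (a : ι) (t : ℕ) (Φ : V k → ℝ) {κ : Type*} {X : Sq k N ι Θ (Ξ × Q') → κ}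
    (hX : Fac (Kn a (ex N t)) X) (hX2 : Fac X (fun w => (Yn σ (ex N t) w).1)) (w : Sq k N ι Θ (Ξ × Q')) :
    Pm.ce X (fun z => iw (Wd (ex N (t + 1)) (Yn σ (ex N (t + 1)) z).1) Φ (fun _ => 1)) w =
      iw (Wd (ex N t) (Yn σ (ex N t) w).1) Φ (fun _ => 1) := by
  simp only [iw_av]
  rcases Nat.lt_or_ge t N with ht | ht
  · have he : ex N t = ex N (t + 1) + 1 := by unfold ex; omega
    have hlt : ex N (t + 1) < N := by unfold ex; omega
    rw [he] at hX hX2 ⊢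
    have h1 := ce_mn' (k := k) (N := N) (Θ := Θ) (P := Ξ × Q') σ a hlt (f := fun _ => Φ) (Fac.const _ _)
      (X := X) ?_ ?_ w
    · unfold mn at h1
      exact h1
    · intro v w hv
      simp only [Prod.mk.injEq] at hv
      refine hX v w ?_
      rw [Kn_eq]
      exact ⟨hv.1, fac_Zn σ a _ v w (Prod.ext hv.2.2.1 hv.2.2.2), hv.2.2.2⟩
    · intro v w hv
      have h2 := hX2 v w hv
      unfold mn
      simp only at h2
      rw [h2]
  · have he : ex N (t + 1) = ex N t := by unfold ex; omega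
    rw [he]
    refine FP.ce_of_fac _ ?_ (Pm_ne w)
    intro v w hv
    have h2 := hX2 v w hv
    simp only at h2 ⊢
    rw [h2]

theorem abs_iw_le (e : ℕ) (y : V k) {f : V k → ℝ} {B : ℝ} (hB : ∀ d, |f d| ≤ B) :
    |iw (Wd e y) f (fun _ => 1)| ≤ B := by
  rw [iw_av, abs_le]
  constructor
  · have h1 := av_mono e y (f := fun _ => -B) (g := f) fun d => (abs_le.1 (hB d)).1
    rw [av_const] at h1
    exact h1
  · have h1 := av_mono e y (f := f) (g := fun _ => B) fun d => (abs_le.1 (hB d)).2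
    rw [av_const] at h1
    exact h1


/-! ### the hypotheses of row G2B -/

section hyp

variable {O : Fst ι Ξ (Q' × V k) (V k) (Θ × (V k × ℕ)) a E F} {A J q : ℝ} {M : ℕ}
  {dd : ℕ → Sq k N ι Θ (Ξ × Q') → Prop}
  (H : O.Ok (binSys Θ Ξ Q' σ a hN h) (QQ k N Θ Ξ Q' a h') A J q M dd) {c eta : ℝ}
  {Tp : ℕ → Sq k N ι Θ (Ξ × Q') → ℝ} {zr : ℕ → Sq k N ι Θ (Ξ × Q') → Prop} {al : ℕ → ℝ}

theorem outG_Z (t : ℕ) : Fac ((outG O σ hN h h' c A eta Tp zr dd al).toGRD.Z t) (Kn a (ex N t)) :=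
  Z_fac_Kn a h' (ex N t)

theorem outG_Z' (t : ℕ) : Fac (Kn a (ex N t)) ((outG O σ hN h h' c A eta Tp zr dd al).toGRD.Z t) :=
  Kn_fac_Z a h' (ex N t)

include H

theorem onm_fac (v : Vl a E F) (t : ℕ) : Fac (Kn a (ex N t)) (onm O σ hN h v t) :=
  Kn_fac (H.on_dep v) (min t N) t

theorem Phm_fac (v : Vl a E F) (t : ℕ) : Fac (Kn a (ex N t)) (Phm O σ hN h v t) :=
  Kn_fac (H.Ph_dep v) (min t N) t

/-- introduced values stay introduced -/
theorem onm_succ {v : Vl a E F} {t : ℕ} {w : Sq k N ι Θ (Ξ × Q')} (hv : onm O σ hN h v t w) :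
    onm O σ hN h v (t + 1) w := by
  rcases Nat.lt_or_ge t N with ht | ht
  · unfold onm at hv ⊢
    rw [min_eq_left (show t + 1 ≤ N by omega)]
    rw [min_eq_left ht.le, ← (binSys Θ Ξ Q' σ a hN h).par_gm t w] at hv
    exact H.keep v t _ _ hv
  · unfold onm at hv ⊢
    rw [min_eq_right (show N ≤ t + 1 by omega), gm_top ht]
    rw [min_eq_right ht] at hv
    exact hv

/-- and then the function is static -/
theorem Phm_succ {v : Vl a E F} {t : ℕ} {w : Sq k N ι Θ (Ξ × Q')} (hv : onm O σ hN h v t w) :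
    Phm O σ hN h v (t + 1) w = Phm O σ hN h v t w := by
  rcases Nat.lt_or_ge t N with ht | ht
  · unfold onm at hv
    unfold Phm
    rw [min_eq_left (show t + 1 ≤ N by omega), min_eq_left ht.le]
    rw [min_eq_left ht.le, ← (binSys Θ Ξ Q' σ a hN h).par_gm t w] at hv
    have h1 := H.stat v t _ _ hv
    rw [h1, (binSys Θ Ξ Q' σ a hN h).par_gm t w]
  · unfold Phm
    rw [min_eq_right (show N ≤ t + 1 by omega), gm_top ht, min_eq_right ht]

/-- **the hypotheses of section 2B** -/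
theorem outG_hyp (hh : h ≤ h') (hcd : Fintype.card ι ≤ 2 ^ (h' - h + 2) + 1) (hc : 0 ≤ c) (heta : 0 ≤ eta)
    (hzf : ∀ t, Fac (Kn a (ex N t)) (zr t))
    (hzT : ∀ t ≤ N, ∀ w, ¬ dd t w → zr t w → Tp t w = 0)
    (hTX : ∀ t ≤ N, ∀ w, ¬ dd t w → ¬ zr t w → |Tp t w - c * iw ((binSys Θ Ξ Q' σ a hN h).J t w)
      (O.Ph (O.tv (binSys Θ Ξ Q' σ a hN h) t w) t ((binSys Θ Ξ Q' σ a hN h).gm t w) ((binSys Θ Ξ Q' σ a hN h).x w))
      (fun _ => 1)| ≤ eta)
    (al0 : ∀ s, 0 < al s) (al1 : ∀ s, al s ≤ 1)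
    (ab : ∀ s, s + 1 < Fintype.card {j : ι // j ≠ a} → al s ≤ al (s + 1) ^ 2) :
    (outG O σ hN h h' c A eta Tp zr dd al).HypR (oix σ a hN h h') := by
  classical
  have hP := pubM (k := k) (N := N) (Θ := Θ) (Ξ := Ξ) (Q := Q') (σ := σ) a hN hh hcd
  have hZ : ∀ t, Fac ((outG O σ hN h h' c A eta Tp zr dd al).toGRD.Z t) (Kn a (ex N t)) := outG_Z
  refine ⟨?_, ?_, ?_, ?_, ?_, ?_, ?_, ?_, ?_, ?_, mul_nonneg hc H.A0, heta⟩
  · refine mdl_hyp (fun u hu => ?_) (fun u t => ?_) al0 al1 ab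
    · have h1 : u ∈ univ.erase u := by
        rw [hu]
        exact Finset.mem_univ _
      exact absurd h1 (Finset.notMem_erase u _)
    · intro v w hv
      rw [AJ_eq] at hv
      refine xl_fac hP (I := univ.erase u.1) (Finset.mem_erase.2 ⟨u.2.symm, Finset.mem_univ _⟩)
        (lab_cap (H.f_lab u.1 u.2)) t ?_ (fun i hi => ?_) hv.2.2
      · show (vx a v).1.1 = (vx a w).1.1
        rw [hv.1]
      · by_cases hia : i = a
        · rw [hia]
          exact x_eq hv.1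
        · refine x_eq (hv.2.1 ⟨i, hia⟩ (Finset.mem_erase.2 ⟨fun h1 => ?_, Finset.mem_univ _⟩))
          exact (Finset.mem_erase.1 hi).1 (congrArg Subtype.val h1)
  · -- fe
    intro t v w hv
    have h1 := hZ t v w hv
    exact Prod.ext (Kn_fac (σ := σ) (hN := hN) (h := h) H.e_dep (min t N) t v w h1) (hzf t v w h1)
  · -- ixf
    intro t
    exact xo_fac hP (fun v w hv => (Prod.mk.inj hv).2) ((hZ t).trans (Kn_gm t))
  · -- fpx
    exact fun u t w => pl_eq hP t w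
  · -- cf
    exact fun u t w _ _ hf => pl_stay hP hf
  · -- Kf
    intro v t w w' hw
    have h1 := hZ t w w' hw
    have h2 := onm_fac H (vv v) t w w' h1
    have h3 := Phm_fac H (vv v) t w w' h1
    have h4 : Yn σ (ex N t) w = Yn σ (ex N t) w' := Kn_Yn' a (ex N t) w w' h1
    show (if v.1.2 ∨ ¬ onm O σ hN h (vv v) t w then 0 else
      c * iw (Wd (ex N t) (Yn σ (ex N t) w).1) (Phm O σ hN h (vv v) t w) (fun _ => 1)) =
      (if v.1.2 ∨ ¬ onm O σ hN h (vv v) t w' then 0 else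
      c * iw (Wd (ex N t) (Yn σ (ex N t) w').1) (Phm O σ hN h (vv v) t w') (fun _ => 1))
    rw [h2, h3, h4]
  · -- Ks
    intro v t w hw _
    show |(if v.1.2 ∨ ¬ onm O σ hN h (vv v) t w then 0 else
      c * iw (Wd (ex N t) (Yn σ (ex N t) w).1) (Phm O σ hN h (vv v) t w) (fun _ => 1))| ≤ _
    by_cases hn : v.1.2 ∨ ¬ onm O σ hN h (vv v) t w
    · rw [if_pos hn, abs_zero]
      exact FP.ce_nonneg _ (fun _ _ => abs_nonneg _) w
    · rw [if_neg hn]
      push Not at hn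
      have h1 := ce_iw (Θ := Θ) (Ξ := Ξ) (Q' := Q') (N := N) (σ := σ) a t (Phm O σ hN h (vv v) t w)
        (X := (outG O σ hN h h' c A eta Tp zr dd al).toGRD.Z t) (outG_Z' t)
        (fun v' w' hv' => by
          simp only
          rw [Kn_Yn' (σ := σ) a (ex N t) v' w' (hZ t v' w' hv')]) w
      rw [← h1, ← FP.ce_smul]
      refine (FP.abs_ce_le _ _ _ _).trans ?_
      refine FP.ce_mono_on _ fun z _ hz => ?_
      have h2 := hZ t z w hz
      have h3 : onm O σ hN h (vv v) t z := by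
        rw [onm_fac H (vv v) t z w h2]
        exact hn.2
      have h4 : Phm O σ hN h (vv v) (t + 1) z = Phm O σ hN h (vv v) t w := by
        rw [Phm_succ H h3]
        exact Phm_fac H (vv v) t z w h2
      show |c * iw (Wd (ex N (t + 1)) (Yn σ (ex N (t + 1)) z).1) (Phm O σ hN h (vv v) t w) (fun _ => 1)| ≤
        |(if v.1.2 ∨ ¬ onm O σ hN h (vv v) (t + 1) z then 0 else
      c * iw (Wd (ex N (t + 1)) (Yn σ (ex N (t + 1)) z).1) (Phm O σ hN h (vv v) (t + 1) z) (fun _ => 1))|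
      have h5 : ¬ (v.1.2 ∨ ¬ onm O σ hN h (vv v) (t + 1) z) := by
        push Not
        exact ⟨hn.1, onm_succ H h3⟩
      rw [if_neg h5, h4]
  · -- Kb
    intro v t w _ _
    show |(if v.1.2 ∨ ¬ onm O σ hN h (vv v) t w then 0 else
      c * iw (Wd (ex N t) (Yn σ (ex N t) w).1) (Phm O σ hN h (vv v) t w) (fun _ => 1))| ≤ c * A
    by_cases hn : v.1.2 ∨ ¬ onm O σ hN h (vv v) t w
    · rw [if_pos hn, abs_zero]
      exact mul_nonneg hc H.A0
    · rw [if_neg hn, abs_mul, abs_of_nonneg hc]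
      exact mul_le_mul_of_nonneg_left (abs_iw_le _ _ fun d => H.bd _ _ _ _ _) hc
  · -- D0i
    rintro t w _ (h0 | h1)
    · exact Or.inl (h0.trans (Nat.lt_succ_self t))
    · exact Or.inr (H.inc t w h1)
  · -- TX
    intro t w _ hd
    have hd' : ¬ (N < t ∨ dd t w) := hd
    push Not at hd'
    obtain ⟨ht, hdd⟩ := hd'
    show |Tp t w - (if zr t w ∨ ¬ onm O σ hN h (vv ((outG O σ hN h h' c A eta Tp zr dd al).vt t w)) t w then 0 else
      c * iw (Wd (ex N t) (Yn σ (ex N t) w).1)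
        (Phm O σ hN h (vv ((outG O σ hN h h' c A eta Tp zr dd al).vt t w)) t w) (fun _ => 1))| ≤ eta
    have e1 : vv ((outG O σ hN h h' c A eta Tp zr dd al).vt t w) = O.tv (binSys Θ Ξ Q' σ a hN h) t w := by
      refine Prod.ext ?_ (funext fun u => ?_)
      · show O.e (min t N) _ _ = O.e t _ _
        rw [min_eq_left ht]
      · show O.f u.1 (min t N) _ _ _ = O.f u.1 t _ _ _
        rw [min_eq_left ht]
    rw [e1]
    by_cases hz : zr t w
    · rw [if_pos (Or.inl hz), hzT t ht w hdd hz, sub_zero, abs_zero]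
      exact heta
    · have h3 : onm O σ hN h (O.tv (binSys Θ Ξ Q' σ a hN h) t w) t w := by
        unfold onm
        rw [min_eq_left ht]
        exact H.olds t ht w hdd _ (O.old_tv _ t w)
      have h4 : ¬ (zr t w ∨ ¬ onm O σ hN h (O.tv (binSys Θ Ξ Q' σ a hN h) t w) t w) := by
        push Not
        exact ⟨hz, h3⟩
      rw [if_neg h4]
      unfold Phm
      rw [min_eq_left ht]
      exact hTX t ht w hdd hz

/-- the free step sees the node -/
theorem dKo_fac (v : (E × Prop) × ({u : ι // u ≠ a} → F × Bool)) (t : ℕ) :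
    Fac (Kn a (ex N t)) (dKo O σ hN h c v t) := by
  classical
  intro w w' h1
  have h2 := onm_fac H (vv v) t w w' h1
  have h3 := Phm_fac H (vv v) t w w' h1
  have h4 : Yn σ (ex N t) w = Yn σ (ex N t) w' := Kn_Yn' a (ex N t) w w' h1
  unfold dKo
  rw [h2, h3, h4]

/-- the exact step of a value which is on -/
theorem step_on {v : (E × Prop) × ({u : ι // u ≠ a} → F × Bool)} {t : ℕ} {w : Sq k N ι Θ (Ξ × Q')}
    (hon : onm O σ hN h (vv v) t w) :
    (outG O σ hN h h' c A eta Tp zr dd al).K v (t + 1) w = (outG O σ hN h h' c A eta Tp zr dd al).K v t w +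
      Dg (ex N (t + 1)) w * dKo O σ hN h c v t w := by
  classical
  show (if v.1.2 ∨ ¬ onm O σ hN h (vv v) (t + 1) w then 0 else
      c * iw (Wd (ex N (t + 1)) (Yn σ (ex N (t + 1)) w).1) (Phm O σ hN h (vv v) (t + 1) w) (fun _ => 1)) =
    (if v.1.2 ∨ ¬ onm O σ hN h (vv v) t w then 0 else
      c * iw (Wd (ex N t) (Yn σ (ex N t) w).1) (Phm O σ hN h (vv v) t w) (fun _ => 1)) +
      Dg (ex N (t + 1)) w * dKo O σ hN h c v t w
  unfold dKo
  by_cases hz : v.1.2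
  · rw [if_pos (Or.inl hz), if_pos (Or.inl hz), if_neg (fun h1 => h1.2.1 hz), mul_zero, add_zero]
  · have h5 : ¬ (v.1.2 ∨ ¬ onm O σ hN h (vv v) (t + 1) w) := by
      push Not
      exact ⟨hz, onm_succ H hon⟩
    have h6 : ¬ (v.1.2 ∨ ¬ onm O σ hN h (vv v) t w) := by
      push Not
      exact ⟨hz, hon⟩
    rw [if_neg h5, if_neg h6, Phm_succ H hon, iw_av, iw_av]
    rcases Nat.lt_or_ge t N with ht | ht
    · rw [if_pos ⟨ht, hz, hon⟩]
      have he : ex N t = ex N (t + 1) + 1 := by unfold ex; omega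
      have h1 := mn_step (k := k) (N := N) (Θ := Θ) (P := Ξ × Q') σ (ex N (t + 1))
        (fun _ => Phm O σ hN h (vv v) t w) w
      unfold mn at h1
      rw [← he] at h1
      rw [h1]
      ring
    · rw [if_neg (fun h1 => absurd h1.1 (not_lt.2 ht))]
      have he : ex N (t + 1) = ex N t := by unfold ex; omega
      rw [he]
      ring

/-- number of changes of the extended labels -/
theorem outG_chf (hh : h ≤ h') (hcd : Fintype.card ι ≤ 2 ^ (h' - h + 2) + 1) (u : {u : ι // u ≠ a}) :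
    ∑ t ∈ range N, (outG O σ hN h h' c A eta Tp zr dd al).P.Pr (fun w =>
      (outG O σ hN h h' c A eta Tp zr dd al).f u (t + 1) w ≠ (outG O σ hN h h' c A eta Tp zr dd al).f u t w) ≤
      4 * J + 1 := by
  have hP := pubM (k := k) (N := N) (Θ := Θ) (Ξ := Ξ) (Q := Q') (σ := σ) a hN hh hcd
  have hI : (univ.erase u.1 : Finset ι) ≠ univ := fun h1 => by
    have h2 : u.1 ∈ univ.erase u.1 := by
      rw [h1]
      exact Finset.mem_univ _
    exact absurd h2 (Finset.notMem_erase _ _)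
  have h1 := xl_count (dg := dg0 k Θ) hP hI (lab_cap (H.f_lab u.1 u.2)) N
  have h2 : ∑ t ∈ range N, (binSys Θ Ξ Q' σ a hN h).P.Pr (fun w =>
      cap N (O.f u.1) (t + 1) ((binSys Θ Ξ Q' σ a hN h).gm (t + 1) w) ((binSys Θ Ξ Q' σ a hN h).xi w)
        ((binSys Θ Ξ Q' σ a hN h).x w) ≠
      cap N (O.f u.1) t ((binSys Θ Ξ Q' σ a hN h).gm t w) ((binSys Θ Ξ Q' σ a hN h).xi w)
        ((binSys Θ Ξ Q' σ a hN h).x w)) ≤ J := by
    refine le_trans (le_of_eq ?_) (H.chf u.1 u.2)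
    refine Finset.sum_congr rfl fun t ht => ?_
    have h3 : t < N := Finset.mem_range.1 ht
    unfold cap
    rw [min_eq_left (show t + 1 ≤ N by omega), min_eq_left (show t ≤ N by omega)]
  have h5 := mul_le_mul_of_nonneg_left h2 (show (0 : ℝ) ≤ 4 by norm_num)
  exact h1.trans (add_le_add h5 le_rfl)

omit H in
/-- the lists of the values are short -/
theorem outG_ovf (H : O.Ok (binSys Θ Ξ Q' σ a hN h) (QQ k N Θ Ξ Q' a h') A J q M dd)
    (hh : h ≤ h') (hcd : Fintype.card ι ≤ 2 ^ (h' - h + 2) + 1) {M' : ℕ} (hM : 2 * M ≤ M') :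
    (outG O σ hN h h' c A eta Tp zr dd al).P.Pr ((outG O σ hN h h' c A eta Tp zr dd al).ovfL M' N) ≤
      Fintype.card ι * q := by
  classical
  have hP := pubM (k := k) (N := N) (Θ := Θ) (Ξ := Ξ) (Q := Q') (σ := σ) a hN hh hcd
  set E1 : ι → Sq k N ι Θ (Ξ × Q') → Prop := fun u w0 => u ≠ a ∧ ¬ ∃ s : Finset F, s.card ≤ M ∧
    ∀ t ≤ (binSys Θ Ξ Q' σ a hN h).n, ∀ o ∈ (binSys Θ Ξ Q' σ a hN h).OPT (QQ k N Θ Ξ Q' a h') t w0, ∀ w,
    QQ k N Θ Ξ Q' a h' t w = QQ k N Θ Ξ Q' a h' t w0 →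
    (∀ j, j ≠ a → j ≠ u → (binSys Θ Ξ Q' σ a hN h).x w j = (binSys Θ Ξ Q' σ a hN h).x w0 j) →
    O.f u t o ((binSys Θ Ξ Q' σ a hN h).xi w) ((binSys Θ Ξ Q' σ a hN h).x w) ∈ s with hE1
  have h1 : ∀ w, (outG O σ hN h h' c A eta Tp zr dd al).ovfL M' N w → ∃ u : ι, E1 u w := by
    rintro w0 ⟨u, hov⟩
    refine ⟨u.1, u.2, ?_⟩
    rintro ⟨s, hs, h4⟩
    have h5 := xl_len (dg := dg0 k Θ) (x := cap N (O.f u.1)) hP
      (Y := (outG O σ hN h h' c A eta Tp zr dd al).toGRD.ZJ (univ.erase u)) (n := N) (w0 := w0) (f := s)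
      (fun t v w hv => (Prod.mk.inj hv).2)
      (fun t ht o ho w hw => by
        have hw2 := Prod.mk.inj hw
        have h6 := h4 t ht o ho w hw2.2 (fun j hja hju => by
          refine x_eq ?_
          exact (res_eq.1 hw2.1) ⟨j, hja⟩ (Finset.mem_erase.2 ⟨fun h1 => hju (congrArg Subtype.val h1),
            Finset.mem_univ _⟩))
        show O.f u.1 (min t N) o _ _ ∈ s
        rw [min_eq_left ht]
        exact h6) default
    exact absurd (lt_of_lt_of_le hov h5) (not_lt.2 ((Nat.mul_le_mul_left 2 hs).trans hM))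
  have h2 : ∀ u : ι, (binSys Θ Ξ Q' σ a hN h).P.Pr (E1 u) ≤ if u ≠ a then q else 0 := by
    intro u
    by_cases hu : u ≠ a
    · rw [if_pos hu]
      exact le_trans (FP.Pr_mono _ fun w _ hw => hw.2) (H.vf u hu)
    · rw [if_neg hu]
      refine le_of_eq ?_
      unfold FP.Pr
      rw [FP.E_congr _ (g := fun _ => (0 : ℝ)) fun w _ => ind_not fun hw => hu hw.1, FP.E_const]
  refine le_trans (FP.Pr_mono (binSys Θ Ξ Q' σ a hN h).P (t := fun w => ∃ u ∈ univ, E1 u w) fun w _ hw => ?_) ?_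
  · obtain ⟨u, hu⟩ := h1 w hw
    exact ⟨u, Finset.mem_univ _, hu⟩
  refine le_trans (FP.Pr_ex_le _ _ _) ?_
  refine le_trans (Finset.sum_le_sum (g := fun _ => q) fun u _ => ?_) ?_
  · refine (h2 u).trans ?_
    by_cases hu : u ≠ a
    · rw [if_pos hu]
    · rw [if_neg hu]
      exact H.q0
  · rw [Finset.sum_const, Finset.card_univ, nsmul_eq_mul]

/-- an old value of the instance is an old value of the output of the names -/
theorem old_of {v : (E × Prop) × ({u : ι // u ≠ a} → F × Bool)} {t : ℕ} {w : Sq k N ι Θ (Ξ × Q')}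
    (ht : t ≤ N) (hd : ¬ dd t w) (hv : (outG O σ hN h h' c A eta Tp zr dd al).old v t w) :
    onm O σ hN h (vv v) t w := by
  obtain ⟨h1, h2⟩ := hv
  have h3 : O.old (binSys Θ Ξ Q' σ a hN h) (vv v) t w := by
    refine ⟨?_, fun u => ?_⟩
    · show v.1.1 = _
      rw [h1]
      show O.e (min t N) _ _ = O.e t _ _
      rw [min_eq_left ht]
    · obtain ⟨s, hs, h4⟩ := h2 u
      refine ⟨s, hs, ?_⟩
      show (v.2 u).1 = _
      rw [h4]
      show O.f u.1 (min s N) _ _ _ = O.f u.1 s _ _ _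
      rw [min_eq_left (hs.trans ht)]
  unfold onm
  rw [min_eq_left ht]
  exact H.olds t ht w hd _ h3

/-- **`RawR` FROM THE OUTPUT OF THE NAMES** -/
theorem outG_raw (hh : h ≤ h') (hcd : Fintype.card ι ≤ 2 ^ (h' - h + 2) + 1) (hc : 0 ≤ c) (heta : 0 ≤ eta)
    (heta2 : eta < 1 / 2) (hzf : ∀ t, Fac (Kn a (ex N t)) (zr t))
    (hzT : ∀ t ≤ N, ∀ w, ¬ dd t w → zr t w → Tp t w = 0)
    (hTX : ∀ t ≤ N, ∀ w, ¬ dd t w → ¬ zr t w → |Tp t w - c * iw ((binSys Θ Ξ Q' σ a hN h).J t w)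
      (O.Ph (O.tv (binSys Θ Ξ Q' σ a hN h) t w) t ((binSys Θ Ξ Q' σ a hN h).gm t w) ((binSys Θ Ξ Q' σ a hN h).x w))
      (fun _ => 1)| ≤ eta)
    (al0 : ∀ s, 0 < al s) (al1 : ∀ s, al s ≤ 1)
    (ab : ∀ s, s + 1 < Fintype.card {j : ι // j ≠ a} → al s ≤ al (s + 1) ^ 2)
    {che : ℕ → Sq k N ι Θ (Ξ × Q') → Prop} {cT ne q0 : ℝ} {M' : ℕ} (hT : ∀ t w, |Tp t w| ≤ cT)
    (hee : ∀ t < N, ∀ w, O.e (t + 1) ((binSys Θ Ξ Q' σ a hN h).gm (t + 1) w) ((binSys Θ Ξ Q' σ a hN h).x w) ≠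
      O.e t ((binSys Θ Ξ Q' σ a hN h).gm t w) ((binSys Θ Ξ Q' σ a hN h).x w) → che t w)
    (hze : ∀ t w, ¬ (zr (t + 1) w ↔ zr t w) → che t w)
    (hM : 2 * M ≤ M') (hcn : ∀ t w, Nz.cn (fun s => che s w) t < M')
    (hq0 : (PM k N ι Θ Ξ Q').Pr (dd N) ≤ q0) (hne : ∑ t ∈ range N, (PM k N ι Θ Ξ Q').Pr (che t) ≤ ne) (hJ : 0 ≤ J) :
    (outG O σ hN h h' c A eta Tp zr dd al).RawR (oix σ a hN h h') (fun t => Dg (ex N (t + 1))) (dKo O σ hN h c) che zr
      N M' cT ne (4 * J + 1) q0 (Fintype.card ι * q) := by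
  have hche : ∀ t w, (outG O σ hN h h' c A eta Tp zr dd al).e (t + 1) w ≠ (outG O σ hN h h' c A eta Tp zr dd al).e t w →
      che t w := by
    intro t w h1
    by_cases h2 : zr (t + 1) w ↔ zr t w
    · rcases Nat.lt_or_ge t N with ht | ht
      · refine hee t ht w fun h3 => h1 (Prod.ext ?_ (propext h2))
        show O.e (min (t + 1) N) _ _ = O.e (min t N) _ _
        rw [min_eq_left (show t + 1 ≤ N by omega), min_eq_left ht.le]
        exact h3
      · exfalso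
        refine h1 (Prod.ext ?_ (propext h2))
        show O.e (min (t + 1) N) _ _ = O.e (min t N) _ _
        rw [min_eq_right (show N ≤ t + 1 by omega), min_eq_right ht, gm_top ht]
    · exact hze t w h2
  have hcT : 0 ≤ cT := by
    obtain ⟨w0⟩ : Nonempty (Sq k N ι Θ (Ξ × Q')) := inferInstance
    exact (abs_nonneg _).trans (hT 0 w0)
  refine ⟨outG_hyp H hh hcd hc heta hzf hzT hTX al0 al1 ab, fun t w _ => Dg_val _ _, fun t => ?_, fun v t => ?_, ?_,
    fun t w _ => hT t w, hcT, heta2, hche, ?_, ?_, ?_, outG_ovf H hh hcd hM, hne, outG_chf H hh hcd, by linarith⟩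
  · exact (outG_Z (t + 1)).trans (Dg_of_Kn a (ex N (t + 1)))
  · exact (outG_Z t).trans (dKo_fac H v t)
  · -- step
    intro t w _ hd v hv
    have hd' : ¬ (N < t ∨ dd t w) := hd
    push Not at hd'
    exact step_on H (old_of H hd'.1 hd'.2 hv)
  · -- zer
    intro t w hz v hv
    classical
    have h1 : v.1.2 := by
      rw [hv]
      exact hz
    show (if v.1.2 ∨ ¬ onm O σ hN h (vv v) t w then 0 else _) = (0 : ℝ)
    rw [if_pos (Or.inl h1)]
  · -- eM
    intro t w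
    exact lt_of_le_of_lt (Nz.cn_le_of_imp fun s _ h1 => hche s w h1) (hcn t w)
  · -- D0q
    refine le_trans (FP.Pr_mono _ fun w _ hw => ?_) hq0
    have hw' : N < N ∨ dd N w := hw
    exact hw'.resolve_left (lt_irrefl _)

end hyp

end

end Pool.Agent.GM.Nam
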