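import Pool.Agent.GM.FineDef
import Pool.Agent.GM.KVer
import Pool.Agent.GM.NamOut
import Pool.Agent.GM.NVof

/-!
# GM/NVBinDef (helper54): the generic contracts of one view of one piece (row A11a), coin of `δ` included

View `a` (hidden vertex), `a ≠ δ`, `a ≠ q`; base space `Sq k N ι Θ (Ξ × Q)` with `S = binSys Θ Ξ Q σ a hN h` : the coin of the
face `δ` is the component `Ξ` of the vertex `a` (for the other vertices this component is not used).
* `FacesN S δ a F m M` : the faces: the KNOWN FACE `F a` coin free, moving, at most `M` changes at EVERY point;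
  `cutF` : the known face is zero after `p` changes; **`facesN_cut`** : from `GS.FacesT`; `pT_cut`, `abs_pT_cut_le`,
  **`cut_pr`** : the product processes `KVer.pT S univ F`;
* `cheN`, `zrN` : changes and zeroes of the known face;
* space of the view `Sq k N ι Θ (((Ξ × R) × Q) × C)`; `fgz a` overwrites the coin of the vertex `a`, `zc a` = the coin;
  `Zz a δ U s` = `Zk U s` without the coin, with it for `U = univ.erase δ`; `ALz` the same for the labels; `hvz` ;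
* `Zz_hZ`, `Zz_hZA` : the hypotheses of `nvofG`;
* **`NVAt`, `NVBin`** : NAMED VIEW WITH NUMBERS; **`NamAt`, `NamBin`** : OUTPUT OF THE NAMES WITH NUMBERS.
Rows: `NamBin` (A11e), `NamBin + HarmW → NVBin` (A11b), `NVBin` + cold sets → `FineBin` (A11c, A11d).
-/

set_option autoImplicit false
set_option linter.unusedSectionVars false

namespace Pool.Agent.GM

open Finset Pool.Agent.PWZ Pool.Agent.M3 Pool.Agent.M3.TS Pool.Agent.M3.Bin Pool.Agent.GM.KVer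


noncomputable section

/-! ## the faces -/

section faces

variable {ι Om Ξ Pt V Γ κ : Type} [Fintype ι] [DecidableEq ι] [Fintype Om] [Fintype Ξ] [Fintype Pt]
  [Fintype V] (S : Sys ι Om Ξ Pt V Γ κ)

/-- the faces of the view `a`: `m` = numbers on the path, `M` = from every state -/
structure FacesN (δ a : ι) (F : ι → Mov Ξ ι Pt Γ (V → ℝ)) (m M : ℝ) : Prop where
  dep : ∀ w t g ξ, Dep (univ.erase w) (F w t g ξ)
  coin : ∀ w, w ≠ δ → ∀ t g ξ ξ', F w t g ξ = F w t g ξ'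
  bd : ∀ w t g ξ x d, |F w t g ξ x d| ≤ 1
  zero : ∀ w g ξ x, F w 0 g ξ x = 0
  fut : ∀ w, S.Future (univ.erase w) (F w) M
  tail : ∀ w, S.MvTail (F w) m
  mean : ∀ w, S.P.E (S.nmv (F w) S.n) ≤ m
  /-- number of changes of the known face, surely (the known face is cut after many changes) -/
  kn : ∀ n w, S.nmv (F a) n w ≤ M

variable {S}

/-- the face is zero after `p` changes -/
def cutM (S : Sys ι Om Ξ Pt V Γ κ) (f : GMN.Fn ι Pt V Γ) (p : ℕ) (F : Mov Ξ ι Pt Γ (V → ℝ)) :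
    Mov Ξ ι Pt Γ (V → ℝ) := fun t g ξ x =>
  if GMN.mvc S f t g x ≤ p then F t g ξ x else 0

/-- the faces with the known face cut -/
def cutF (S : Sys ι Om Ξ Pt V Γ κ) (a : ι) (ξ0 : Ξ) (p : ℕ) (F : ι → Mov Ξ ι Pt Γ (V → ℝ)) :
    ι → Mov Ξ ι Pt Γ (V → ℝ) := Function.update F a (cutM S (cfr ξ0 (F a)) p (F a))

theorem cutF_self {a : ι} {ξ0 : Ξ} {p : ℕ} {F : ι → Mov Ξ ι Pt Γ (V → ℝ)} :
    cutF S a ξ0 p F a = cutM S (cfr ξ0 (F a)) p (F a) := Function.update_self _ _ _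

theorem cutF_ne {a w : ι} {ξ0 : Ξ} {p : ℕ} {F : ι → Mov Ξ ι Pt Γ (V → ℝ)} (h : w ≠ a) :
    cutF S a ξ0 p F w = F w := Function.update_of_ne h _ _

section cut

variable {F : Mov Ξ ι Pt Γ (V → ℝ)} {ξ0 : Ξ} (hfree : ∀ t g ξ ξ', F t g ξ = F t g ξ')
include hfree

theorem mvc_at_step (u : ℕ) (w : Om) :
    GMN.mvc S (cfr ξ0 F) (u + 1) (S.gm (u + 1) w) (S.x w) = GMN.mvc S (cfr ξ0 F) u (S.gm u w) (S.x w) ∧
      S.at' F (u + 1) w = S.at' F u w ∨
    GMN.mvc S (cfr ξ0 F) (u + 1) (S.gm (u + 1) w) (S.x w) = GMN.mvc S (cfr ξ0 F) u (S.gm u w) (S.x w) + 1 ∧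
      S.at' F (u + 1) w ≠ S.at' F u w := by
  classical
  have h : GMN.mvc S (cfr ξ0 F) (u + 1) (S.gm (u + 1) w) (S.x w) = GMN.mvc S (cfr ξ0 F) u (S.gm u w) (S.x w) +
      if cfr ξ0 F (u + 1) (S.gm (u + 1) w) (S.x w) ≠ cfr ξ0 F u (S.gm u w) (S.x w) then 1 else 0 := by
    show GMN.mvc S (cfr ξ0 F) u (S.par u (S.gm (u + 1) w)) (S.x w) +
      (if cfr ξ0 F (u + 1) (S.gm (u + 1) w) (S.x w) ≠
      cfr ξ0 F u (S.par u (S.gm (u + 1) w)) (S.x w) then 1 else 0) = _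
    rw [S.par_gm]
  have e : ∀ t, S.at' F t w = cfr ξ0 F t (S.gm t w) (S.x w) := fun t =>
    congrFun (hfree t (S.gm t w) (S.xi w) ξ0) (S.x w)
  rw [e, e]
  by_cases h1 : cfr ξ0 F (u + 1) (S.gm (u + 1) w) (S.x w) ≠ cfr ξ0 F u (S.gm u w) (S.x w)
  · rw [if_pos h1] at h
    exact Or.inr ⟨h, h1⟩
  · rw [if_neg h1, add_zero] at h
    exact Or.inl ⟨h, not_not.1 h1⟩

/-- number of moves -/
theorem mvc_nmv (n : ℕ) (w : Om) :
    (GMN.mvc S (cfr ξ0 F) n (S.gm n w) (S.x w) : ℝ) = S.nmv F n w := by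
  induction n with
  | zero =>
    unfold Sys.nmv
    rw [Finset.range_zero, Finset.sum_empty]
    show ((0 : ℕ) : ℝ) = 0
    exact Nat.cast_zero
  | succ n ih =>
    have h2 : S.nmv F (n + 1) w = S.nmv F n w + ind (S.at' F (n + 1) w ≠ S.at' F n w) := by
      unfold Sys.nmv
      rw [Finset.sum_range_succ]
    rw [h2]
    rcases mvc_at_step (S := S) (ξ0 := ξ0) hfree n w with ⟨h, h1⟩ | ⟨h, h1⟩
    · rw [h, ih, ind_not (not_not.2 h1), add_zero]
    · rw [h, ind_of h1, ← ih]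
      push_cast
      ring

/-- the cut face moves only with the face, and only before `p` changes -/
theorem cut_move {p u : ℕ} {w : Om} (h : S.at' (cutM S (cfr ξ0 F) p F) (u + 1) w ≠ S.at' (cutM S (cfr ξ0 F) p F) u w) :
    S.at' F (u + 1) w ≠ S.at' F u w ∧ GMN.mvc S (cfr ξ0 F) u (S.gm u w) (S.x w) ≤ p ∧
      GMN.mvc S (cfr ξ0 F) (u + 1) (S.gm (u + 1) w) (S.x w) = GMN.mvc S (cfr ξ0 F) u (S.gm u w) (S.x w) + 1 := by
  have e : ∀ t, S.at' (cutM S (cfr ξ0 F) p F) t w =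
      if GMN.mvc S (cfr ξ0 F) t (S.gm t w) (S.x w) ≤ p then S.at' F t w else 0 := fun t => rfl
  rw [e, e] at h
  rcases mvc_at_step (S := S) (ξ0 := ξ0) hfree u w with ⟨h1, h2⟩ | ⟨h1, h2⟩
  · rw [h1, h2] at h
    exact absurd rfl h
  · refine ⟨h2, ?_, h1⟩
    by_contra h3
    rw [if_neg h3, if_neg (by rw [h1]; omega)] at h
    exact h rfl

theorem cut_nmv (p n : ℕ) (w : Om) : S.nmv (cutM S (cfr ξ0 F) p F) n w ≤ p + 1 := by
  have key : ∀ n, S.nmv (cutM S (cfr ξ0 F) p F) n w ≤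
      ((min (GMN.mvc S (cfr ξ0 F) n (S.gm n w) (S.x w)) (p + 1) : ℕ) : ℝ) := by
    intro n
    induction n with
    | zero =>
      unfold Sys.nmv
      rw [Finset.range_zero, Finset.sum_empty]
      exact Nat.cast_nonneg _
    | succ n ih =>
      have h2 : S.nmv (cutM S (cfr ξ0 F) p F) (n + 1) w = S.nmv (cutM S (cfr ξ0 F) p F) n w +
          ind (S.at' (cutM S (cfr ξ0 F) p F) (n + 1) w ≠ S.at' (cutM S (cfr ξ0 F) p F) n w) := by
        unfold Sys.nmv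
        rw [Finset.sum_range_succ]
      rw [h2]
      by_cases h : S.at' (cutM S (cfr ξ0 F) p F) (n + 1) w ≠ S.at' (cutM S (cfr ξ0 F) p F) n w
      · obtain ⟨_, h3, h4⟩ := cut_move (S := S) hfree h
        rw [ind_of h, h4]
        have h5 : min (GMN.mvc S (cfr ξ0 F) n (S.gm n w) (S.x w) + 1) (p + 1) =
            min (GMN.mvc S (cfr ξ0 F) n (S.gm n w) (S.x w)) (p + 1) + 1 := by omega
        rw [h5]
        push_cast
        push_cast at ih
        linarith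
      · rw [ind_not h, add_zero]
        refine ih.trans ?_
        have h6 : GMN.mvc S (cfr ξ0 F) n (S.gm n w) (S.x w) ≤
            GMN.mvc S (cfr ξ0 F) (n + 1) (S.gm (n + 1) w) (S.x w) := GMN.mvc_mono S (cfr ξ0 F) (Nat.le_succ n) w
        exact_mod_cast min_le_min h6 le_rfl
  refine (key n).trans ?_
  have : min (GMN.mvc S (cfr ξ0 F) n (S.gm n w) (S.x w)) (p + 1) ≤ p + 1 := min_le_right _ _
  exact_mod_cast this

end cut

/-- **the faces with the known face cut** -/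
theorem facesN_cut {δ a : ι} {F : ι → Mov Ξ ι Pt Γ (V → ℝ)} {m M θ acc : ℝ} (H : GS.FacesT S univ δ F m M θ acc)
    (ha : a ≠ δ) (ξ0 : Ξ) {p : ℕ} (hp : (p : ℝ) + 1 ≤ M) : FacesN S δ a (cutF S a ξ0 p F) m M := by
  classical
  have hu : ∀ w : ι, w ∈ (univ : Finset ι) := fun w => Finset.mem_univ w
  have hfree := H.coin a (hu a) ha
  have hd : ∀ t g, Dep (univ.erase a) (cfr ξ0 (F a) t g) := fun t g => H.dep a (hu a) t g ξ0
  have hn : ∀ n w, S.nmv (cutF S a ξ0 p F a) n w ≤ S.nmv (F a) n w := fun n w => by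
    rw [cutF_self]
    unfold Sys.nmv
    exact Finset.sum_le_sum fun u _ => ind_mono fun h => (cut_move (S := S) hfree h).1
  refine ⟨fun w t g ξ => ?_, fun w hw t g ξ ξ' => ?_, fun w t g ξ x d => ?_, fun w g ξ x => ?_, fun w => ?_, fun w => ?_,
    fun w => ?_, fun n w => ?_⟩
  · by_cases h : w = a
    · subst h
      rw [cutF_self]
      intro x y hxy
      show (if GMN.mvc S (cfr ξ0 (F w)) t g x ≤ p then F w t g ξ x else 0) =
        (if GMN.mvc S (cfr ξ0 (F w)) t g y ≤ p then F w t g ξ y else 0)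
      rw [GMN.mvc_dep S (cfr ξ0 (F w)) hd t g x y hxy, H.dep w (hu w) t g ξ x y hxy]
    · rw [cutF_ne h]
      exact H.dep w (hu w) t g ξ
  · by_cases h : w = a
    · subst h
      rw [cutF_self]
      funext x
      show (if GMN.mvc S (cfr ξ0 (F w)) t g x ≤ p then F w t g ξ x else 0) =
        (if GMN.mvc S (cfr ξ0 (F w)) t g x ≤ p then F w t g ξ' x else 0)
      rw [hfree t g ξ ξ']
    · rw [cutF_ne h]
      exact H.coin w (hu w) hw t g ξ ξ'
  · by_cases h : w = a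
    · subst h
      rw [cutF_self]
      show |(if GMN.mvc S (cfr ξ0 (F w)) t g x ≤ p then F w t g ξ x else 0) d| ≤ 1
      split_ifs
      · exact H.bd w (hu w) t g ξ x d
      · show |(0 : ℝ)| ≤ 1
        rw [abs_zero]
        exact zero_le_one
    · rw [cutF_ne h]
      exact H.bd w (hu w) t g ξ x d
  · by_cases h : w = a
    · subst h
      rw [cutF_self]
      show (if GMN.mvc S (cfr ξ0 (F w)) 0 g x ≤ p then F w 0 g ξ x else 0) = 0
      rw [H.zero w (hu w) g ξ x]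
      split_ifs <;> rfl
    · rw [cutF_ne h]
      exact H.zero w (hu w) g ξ x
  · by_cases h : w = a
    · subst h
      intro t φ hφ h0
      refine le_trans (Finset.sum_le_sum fun u _ => S.P.E_mono fun ω _ => ?_) (H.fut w (hu w) t φ hφ h0)
      refine mul_le_mul_of_nonneg_left (ind_mono fun h => ?_) (h0 ω)
      rw [cutF_self] at h
      exact (cut_move (S := S) hfree h).1
    · rw [cutF_ne h]
      exact H.fut w (hu w)
  · by_cases h : w = a
    · subst h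
      intro k
      refine (S.P.Pr_mono fun ω _ h1 => ?_).trans (H.tail w (hu w) k)
      exact le_trans h1 (hn S.n ω)
    · rw [cutF_ne h]
      exact H.tail w (hu w)
  · by_cases h : w = a
    · subst h
      exact (S.P.E_mono fun ω _ => hn S.n ω).trans (H.mean w (hu w))
    · rw [cutF_ne h]
      exact H.mean w (hu w)
  · rw [cutF_self]
    exact (cut_nmv (S := S) hfree p n w).trans hp

/-- the process of the cut faces is the process or zero -/
theorem pT_cut {a : ι} {ξ0 : Ξ} {p : ℕ} {F : ι → Mov Ξ ι Pt Γ (V → ℝ)} (t : ℕ) (w : Om) :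
    pT S univ (cutF S a ξ0 p F) t w =
      if GMN.mvc S (cfr ξ0 (F a)) t (S.gm t w) (S.x w) ≤ p then pT S univ F t w else 0 := by
  classical
  by_cases h : GMN.mvc S (cfr ξ0 (F a)) t (S.gm t w) (S.x w) ≤ p
  · rw [if_pos h]
    have h1 : ∀ i, S.at' (cutF S a ξ0 p F i) t w = S.at' (F i) t w := fun i => by
      by_cases hi : i = a
      · subst hi
        rw [cutF_self]
        show (if GMN.mvc S (cfr ξ0 (F i)) t (S.gm t w) (S.x w) ≤ p then _ else _) = _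
        rw [if_pos h]
        rfl
      · rw [cutF_ne hi]
    unfold pT
    simp only [h1]
  · rw [if_neg h]
    unfold pT iw
    refine Finset.sum_eq_zero fun d _ => ?_
    have h1 : ∏ i, S.at' (cutF S a ξ0 p F i) t w d = 0 := by
      refine Finset.prod_eq_zero (Finset.mem_univ a) ?_
      rw [cutF_self]
      show (if GMN.mvc S (cfr ξ0 (F a)) t (S.gm t w) (S.x w) ≤ p then F a t (S.gm t w) (S.xi w) (S.x w) else 0) d = 0
      rw [if_neg h]
      rfl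
    show S.J t w d * (∏ i, S.at' (cutF S a ξ0 p F i) t w d) * 1 = 0
    rw [h1, mul_zero, zero_mul]

theorem abs_pT_cut_le {a : ι} {ξ0 : Ξ} {p : ℕ} {F : ι → Mov Ξ ι Pt Γ (V → ℝ)} (t : ℕ) (w : Om) :
    |pT S univ (cutF S a ξ0 p F) t w| ≤ |pT S univ F t w| := by
  rw [pT_cut]
  split_ifs
  · exact le_rfl
  · rw [abs_zero]
    exact abs_nonneg _

/-- **the process and the process of the cut faces** -/
theorem cut_pr {δ a : ι} {F : ι → Mov Ξ ι Pt Γ (V → ℝ)} {m M θ acc : ℝ} (H : GS.FacesT S univ δ F m M θ acc)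
    (ha : a ≠ δ) (ξ0 : Ξ) {p k : ℕ} (hp : (k : ℝ) * m ≤ p + 1) (β : ℝ) :
    S.P.Pr (fun w => ∃ t ≤ S.n, β ≤ |pT S univ F t w|) ≤
      S.P.Pr (fun w => ∃ t ≤ S.n, β ≤ |pT S univ (cutF S a ξ0 p F) t w|) + (1 / 2) ^ k := by
  have hfree := H.coin a (Finset.mem_univ a) ha
  refine le_trans ?_ (add_le_add le_rfl (H.tail a (Finset.mem_univ a) k))
  refine (S.P.Pr_mono (t := fun w => (∃ t ≤ S.n, β ≤ |pT S univ (cutF S a ξ0 p F) t w|) ∨
    (k : ℝ) * m ≤ S.nmv (F a) S.n w) fun w _ hw => ?_).trans (S.P.Pr_or_le _ _)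
  obtain ⟨t, ht, hw⟩ := hw
  by_cases h : GMN.mvc S (cfr ξ0 (F a)) t (S.gm t w) (S.x w) ≤ p
  · left
    refine ⟨t, ht, ?_⟩
    rw [pT_cut, if_pos h]
    exact hw
  · right
    rw [← mvc_nmv (S := S) (ξ0 := ξ0) hfree S.n w]
    have h1 : p + 1 ≤ GMN.mvc S (cfr ξ0 (F a)) S.n (S.gm S.n w) (S.x w) :=
      le_trans (not_le.1 h) (GMN.mvc_mono S (cfr ξ0 (F a)) ht w)
    have h2 : ((p : ℝ) + 1) ≤ (GMN.mvc S (cfr ξ0 (F a)) S.n (S.gm S.n w) (S.x w) : ℝ) := by exact_mod_cast h1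
    exact hp.trans h2

/-- the known face changes between `t` and `t+1` -/
def cheN (S : Sys ι Om Ξ Pt V Γ κ) (F : ι → Mov Ξ ι Pt Γ (V → ℝ)) (a : ι) (t : ℕ) (w : Om) : Prop :=
  S.at' (F a) (t + 1) w ≠ S.at' (F a) t w

/-- the known face is zero -/
def zrN (S : Sys ι Om Ξ Pt V Γ κ) (F : ι → Mov Ξ ι Pt Γ (V → ℝ)) (a : ι) (t : ℕ) (w : Om) : Prop :=
  S.at' (F a) t w = 0

theorem zrN_pT {F : ι → Mov Ξ ι Pt Γ (V → ℝ)} {a : ι} {t : ℕ} {w : Om} (h : zrN S F a t w) : pT S univ F t w = 0 := by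
  unfold pT iw
  refine Finset.sum_eq_zero fun d _ => ?_
  have h1 : ∏ i, S.at' (F i) t w d = 0 := by
    refine Finset.prod_eq_zero (Finset.mem_univ a) ?_
    have h2 : S.at' (F a) t w = 0 := h
    rw [h2]
    rfl
  show S.J t w d * (∏ i, S.at' (F i) t w d) * 1 = 0
  rw [h1, mul_zero, zero_mul]

end faces

/-! ## the coin of `δ` -/

section coin

variable {k N : ℕ} {ι Θ Ξ R Q C : Type} [Fintype ι] [DecidableEq ι] [Nonempty Ξ]

/-- the coin of the vertex `a` is overwritten -/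
def fgz (a : ι) (w : Sq k N ι Θ (((Ξ × R) × Q) × C)) : Sq k N ι Θ (((Ξ × R) × Q) × C) :=
  (w.1, Function.update w.2.1 a
    ((((Classical.arbitrary Ξ, (w.2.1 a).1.1.1.2), (w.2.1 a).1.1.2), (w.2.1 a).1.2), (w.2.1 a).2), w.2.2)

/-- the coin of the vertex `a` -/
def zc (a : ι) (w : Sq k N ι Θ (((Ξ × R) × Q) × C)) : Ξ := (w.2.1 a).1.1.1.1

/-- the coin apart (for `HarmZ`) -/
def eZ (Ξ R Q : Type) : (Ξ × R) × Q ≃ (R × Q) × Ξ where
  toFun r := ((r.1.2, r.2), r.1.1)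
  invFun r := ((r.2, r.1.1), r.1.2)
  left_inv _ := rfl
  right_inv _ := rfl

/-- what the classes of HARM see of the hidden vertex -/
def hvz (a : ι) (w : Sq k N ι Θ (((Ξ × R) × Q) × C)) : (R × Q) × V k :=
  (((vx a w).1.1.1.2, (vx a w).1.1.2), (vx a w).2)

open Classical in
/-- THE CLASSES OF THE LOSSES -/
def Zz (a δ : ι) (U : Finset ι) (s : ℕ) (w : Sq k N ι Θ (((Ξ × R) × Q) × C)) :
    (Θ × ({j // j ∈ U} → (((Ξ × R) × Q) × C) × V k) × ℕ × ({j // j ∉ U} → V k)) × Option Ξ :=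
  (Zk U s (fgz a w), if U = univ.erase δ then some (zc a w) else none)

open Classical in
/-- what the label `l` sees -/
def ALz (a δ : ι) (h : ℕ) (l : {j : ι // j ≠ a}) (e : ℕ) (w : Sq k N ι Θ (((Ξ × R) × Q) × C)) :
    (((((Ξ × R) × Q) × C) × V k) × ({j // j ∈ univ.erase l} → (((Ξ × R) × Q) × C) × V k) ×
      (Θ × (V k × ℕ) × ({j : ι // j ≠ a} → V k))) × Option Ξ :=
  (AJ a h (univ.erase l) e (fgz a w), if l.1 = δ then some (zc a w) else none)

theorem vx_fgz_ne {a j : ι} (h : j ≠ a) (w : Sq k N ι Θ (((Ξ × R) × Q) × C)) : vx j (fgz a w) = vx j w := by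
  unfold vx fgz
  show Function.update w.2.1 a _ j = w.2.1 j
  rw [Function.update_of_ne h]

theorem vx_fgz_pos (a j : ι) (w : Sq k N ι Θ (((Ξ × R) × Q) × C)) : (vx j (fgz a w)).2 = (vx j w).2 := by
  by_cases h : j = a
  · subst h
    unfold vx fgz
    show (Function.update w.2.1 j _ j).2 = (w.2.1 j).2
    rw [Function.update_self]
  · rw [vx_fgz_ne h]

theorem ot_fgz (a : ι) (w : Sq k N ι Θ (((Ξ × R) × Q) × C)) : ot a (fgz a w) = ot a w :=
  funext fun j => vx_fgz_ne j.2 w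

theorem Qn_fgz (a : ι) (h e : ℕ) (w : Sq k N ι Θ (((Ξ × R) × Q) × C)) : Qn a h e (fgz a w) = Qn a h e w := by
  rw [Qn_eq]
  refine ⟨rfl, ?_, fun j hj => ?_⟩
  · unfold Zn
    rw [vx_fgz_pos]
    rfl
  · unfold sc
    rw [vx_fgz_pos]

/-- the vertex `a` with the coin back -/
theorem vx_of_fgz {a : ι} {v w : Sq k N ι Θ (((Ξ × R) × Q) × C)} (h1 : vx a (fgz a v) = vx a (fgz a w)) (h2 : zc a v = zc a w) :
    vx a v = vx a w := by
  unfold vx fgz at h1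
  simp only [Function.update_self, Prod.mk.injEq, true_and] at h1
  unfold zc at h2
  obtain ⟨⟨⟨h3, h6⟩, h4⟩, h5⟩ := h1
  exact Prod.ext (Prod.ext (Prod.ext (Prod.ext h2 h3) h6) h4) h5

theorem Zz_hZ {a : ι} (δ : ι) {U : Finset ι} (ha : a ∈ U) {h e s : ℕ} (hs : s ≤ e - (h + 3)) :
    Fac (Zz (k := k) (N := N) (Θ := Θ) (Ξ := Ξ) (R := R) (Q := Q) (C := C) a δ U s)
      (fun w => (hvz a w, res (jo a U) (ot a (pic w)), Qn a h e w)) := by
  intro v w hv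
  have h0 : Zk U s (fgz a v) = Zk U s (fgz a w) := congrArg Prod.fst hv
  have h1 := Zk_AJ (h := h) (e := e) ha (J := jo a U) (fun b hb => mem_jo.1 hb) hs _ _ h0
  have h2 := AJ_pic3 h1
  simp only [Prod.mk.injEq] at h2
  obtain ⟨_, h4, h5⟩ := h2
  have h3 : hvz a v = hvz a w := by
    have h6 : vx a (fgz a v) = vx a (fgz a w) := by
      rw [AJ_eq] at h1
      exact h1.1
    unfold vx fgz at h6
    simp only [Function.update_self, Prod.mk.injEq, true_and] at h6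
    unfold hvz vx
    obtain ⟨⟨⟨h7, h8⟩, _⟩, h9⟩ := h6
    rw [h7, h8, h9]
  refine Prod.ext h3 (Prod.ext ?_ ?_)
  · show res (jo a U) (ot a (pic v)) = res (jo a U) (ot a (pic w))
    refine res_eq.2 fun b hb => ?_
    have h6 : vx b.1 (pic (fgz a v)) = vx b.1 (pic (fgz a w)) := res_eq.1 h4 b hb
    show vx b.1 (pic v) = vx b.1 (pic w)
    rw [vx_pic, vx_pic] at h6 ⊢
    rw [vx_fgz_ne b.2, vx_fgz_ne b.2] at h6
    exact h6
  · show Qn a h e v = Qn a h e w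
    rw [Qn_fgz, Qn_fgz] at h5
    exact h5

theorem Zz_hZA {a δ : ι} (l : {j : ι // j ≠ a}) {h e s : ℕ} (hs : s ≤ e - (h + 3)) :
    Fac (Zz (k := k) (N := N) (Θ := Θ) (Ξ := Ξ) (R := R) (Q := Q) (C := C) a δ (UL a (univ.erase l)) s) (ALz a δ h l e) := by
  classical
  intro v w hv
  have h0 : Zk (UL a (univ.erase l)) s (fgz a v) = Zk (UL a (univ.erase l)) s (fgz a w) := congrArg Prod.fst hv
  have h1 := Zk_AJ_UL (h := h) (e := e) (univ.erase l) hs _ _ h0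
  refine Prod.ext h1 ?_
  show (if l.1 = δ then some (zc a v) else none) = (if l.1 = δ then some (zc a w) else none)
  by_cases hl : l.1 = δ
  · have hU : UL a (univ.erase l) = univ.erase δ := by
      ext j
      rw [Finset.mem_erase]
      by_cases hj : j = a
      · rw [hj]
        refine ⟨fun _ => ⟨fun h' => l.2 (hl.trans h'.symm), Finset.mem_univ _⟩, fun _ => self_mem_UL a _⟩
      · constructor
        · intro h'
          have h2 := of_mem_UL (a := (⟨j, hj⟩ : {j : ι // j ≠ a})) h'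
          refine ⟨fun h'' => (Finset.mem_erase.1 h2).1 (Subtype.ext (h''.trans hl.symm)), Finset.mem_univ _⟩
        · rintro ⟨h', _⟩
          refine mem_UL (a := (⟨j, hj⟩ : {j : ι // j ≠ a})) (Finset.mem_erase.2 ⟨fun h'' => h' ?_, Finset.mem_univ _⟩)
          rw [← hl, ← h'']
    have h2 : (if UL a (univ.erase l) = univ.erase δ then some (zc a v) else none) =
        (if UL a (univ.erase l) = univ.erase δ then some (zc a w) else none) := congrArg Prod.snd hv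
    rw [if_pos hU, if_pos hU] at h2
    rw [if_pos hl, if_pos hl, h2]
  · rw [if_neg hl, if_neg hl]

/-- the label `δ` and the label `l` together with the coin know everything of `AJ` -/
theorem ALz_AJ {a δ : ι} (l : {j : ι // j ≠ a}) (h e : ℕ) {v w : Sq k N ι Θ (((Ξ × R) × Q) × C)}
    (h0 : ALz a δ h l e v = ALz a δ h l e w) (hz : zc a v = zc a w) : AJ a h (univ.erase l) e v = AJ a h (univ.erase l) e w := by
  have h1 : AJ a h (univ.erase l) e (fgz a v) = AJ a h (univ.erase l) e (fgz a w) := congrArg Prod.fst h0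
  rw [AJ_eq] at h1 ⊢
  refine ⟨vx_of_fgz h1.1 hz, fun b hb => ?_, ?_⟩
  · have := h1.2.1 b hb
    rwa [vx_fgz_ne b.2, vx_fgz_ne b.2] at this
  · have := h1.2.2
    rwa [Qn_fgz, Qn_fgz] at this

theorem ALz_filt (a δ : ι) (h : ℕ) (l : {j : ι // j ≠ a}) :
    Filt (fun t (w : Sq k N ι Θ (((Ξ × R) × Q) × C)) => ALz a δ h l (M3.Mod.ex N t) w) := by
  classical
  intro t v w hv
  have h1 : AJ a h (univ.erase l) (M3.Mod.ex N (t + 1)) (fgz a v) = AJ a h (univ.erase l) (M3.Mod.ex N (t + 1)) (fgz a w) :=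
    congrArg Prod.fst hv
  have h2 : (if l.1 = δ then some (zc a v) else none) = (if l.1 = δ then some (zc a w) else none) :=
    congrArg Prod.snd hv
  exact Prod.ext (filt_AJ a h (univ.erase l) t _ _ h1) h2

end coin

/-! ## the contracts -/

section contracts

variable {k N : ℕ} {ι Θ Ξ Q : Type} [Fintype ι] [DecidableEq ι] [Fintype Θ] [Nonempty Θ] [Fintype Ξ] [Nonempty Ξ]
  [Fintype Q] [Nonempty Q]

/-- forget the coins of the names -/
def p2 {Ξ2 : Type} (w : Sq k N ι Θ ((Ξ × Ξ2) × Q)) : Sq k N ι Θ (Ξ × Q) :=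
  (w.1, (fun j => (((w.2.1 j).1.1.1, (w.2.1 j).1.2), (w.2.1 j).2)), w.2.2)

/-- **NAMED VIEW WITH NUMBERS**: errors `e`, accuracy and least threshold `r`, budgets `s` -/
def NVAt (σ : V k) (hN : N ≤ k) (h : ℕ) (a δ : ι) (F : ι → Mov Ξ ι (Q × V k) (Θ × (V k × ℕ)) (V k → ℝ))
    (e r s : ℝ) : Prop :=
  ∃ (R C : Type) (_ : Fintype R) (_ : Nonempty R) (_ : Fintype C) (_ : Nonempty C) (h' : ℕ),
    h ≤ h' ∧ h' ≤ h + Fintype.card ι ∧
    ∃ W : NV (Pm (k := k) (N := N) (ι := ι) (Θ := Θ) (P := ((Ξ × R) × Q) × C)) N (UU a)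
      (fun U t => Zz a δ U (M3.Mod.ex N (t + 1) - (h' + 3))) (fun t => Kn a (M3.Mod.ex N t))
      (fun t w => pT (binSys Θ Ξ Q σ a hN h) univ F t (p2 (pic w)))
      (fun t w => cheN (binSys Θ Ξ Q σ a hN h) F a t (p2 (pic w)))
      (fun t w => zrN (binSys Θ Ξ Q σ a hN h) F a t (p2 (pic w))),
      W.q ≤ e ∧ W.e3 ≤ e ∧ W.eta ≤ r ∧ W.rmin ≤ r ∧ W.NB ≤ 36 ∧ W.J ≤ s ∧ ∀ U ∈ UU a, W.hb U ≤ s

/-- **OUTPUT OF THE NAMES WITH NUMBERS**: errors `e`, accuracy `r`, sizes: numbers of changes `s`, numbers of values and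
bound of the functions `exp s` -/
def NamAt (σ : V k) (hN : N ≤ k) (h : ℕ) (a δ : ι) (F : ι → Mov Ξ ι (Q × V k) (Θ × (V k × ℕ)) (V k → ℝ))
    (e r s : ℝ) : Prop :=
  ∃ (Ξ2 : Type) (_ : Fintype Ξ2) (_ : Nonempty Ξ2) (E Fl : Type) (h' : ℕ)
    (O : Nam.Fst ι (Ξ × Ξ2) (Q × V k) (V k) (Θ × (V k × ℕ)) a E Fl) (c A J q eta : ℝ) (M : ℕ)
    (dd : ℕ → Sq k N ι Θ ((Ξ × Ξ2) × Q) → Prop),
    h ≤ h' ∧ h' ≤ h + Fintype.card ι ∧ Fintype.card ι ≤ 2 ^ (h' - h + 2) + 1 ∧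
    O.Ok (binSys Θ (Ξ × Ξ2) Q σ a hN h) (Nam.QQ k N Θ (Ξ × Ξ2) Q a h') A J q M dd ∧
    0 ≤ c ∧ 0 ≤ eta ∧ 0 ≤ J ∧
    -- only the label `δ` sees the coin
    (∀ u, u ≠ a → u ≠ δ → ∀ t g z z' ξ x, O.f u t g (z, ξ) x = O.f u t g (z', ξ) x) ∧
    -- the known label changes only with the known face
    (∀ t < N, ∀ w, O.e (t + 1) ((binSys Θ (Ξ × Ξ2) Q σ a hN h).gm (t + 1) w) ((binSys Θ (Ξ × Ξ2) Q σ a hN h).x w) ≠
      O.e t ((binSys Θ (Ξ × Ξ2) Q σ a hN h).gm t w) ((binSys Θ (Ξ × Ξ2) Q σ a hN h).x w) →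
      cheN (binSys Θ Ξ Q σ a hN h) F a t (p2 w)) ∧
    -- value of the process
    (∀ t ≤ N, ∀ w, ¬ dd t w → ¬ zrN (binSys Θ Ξ Q σ a hN h) F a t (p2 w) →
      |pT (binSys Θ Ξ Q σ a hN h) univ F t (p2 w) - c * iw ((binSys Θ (Ξ × Ξ2) Q σ a hN h).J t w)
        (O.Ph (O.tv (binSys Θ (Ξ × Ξ2) Q σ a hN h) t w) t ((binSys Θ (Ξ × Ξ2) Q σ a hN h).gm t w)
          ((binSys Θ (Ξ × Ξ2) Q σ a hN h).x w)) (fun _ => 1)| ≤ eta) ∧
    Pm.Pr (dd N) ≤ e ∧ q ≤ e ∧ eta ≤ r ∧ J ≤ s ∧ (M : ℝ) ≤ Real.exp s ∧ c * A ≤ Real.exp s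

/-- the generic shape of the contracts of one view: `κ` = exponent of the public births, `c` = fineness -/
def ViewBin (j : ℕ) (κ : ℝ) (c : ℕ)
    (St : ∀ {k N : ℕ} {ι Θ Ξ Q : Type} [Fintype ι] [DecidableEq ι] [Fintype Θ] [Nonempty Θ] [Fintype Ξ] [Nonempty Ξ]
      [Fintype Q] [Nonempty Q] (_ : V k) (_ : N ≤ k) (_ : ℕ) (_ _ : ι)
      (_ : ι → Mov Ξ ι (Q × V k) (Θ × (V k × ℕ)) (V k → ℝ)) (_ : ℝ), Prop) : Prop :=
  ∀ (ι Θ Ξ Q : Type) [Fintype ι] [DecidableEq ι] [Fintype Θ] [Nonempty Θ] [Fintype Ξ] [Nonempty Ξ] [Fintype Q]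
    [Nonempty Q] (k N : ℕ) (σ : V k) (a δ q : ι) (hN : N ≤ k) (h : ℕ), Fintype.card ι = j → a ≠ δ → a ≠ q →
    ∀ H Λ : ℝ, 2 ≤ H → (binSys Θ Ξ Q σ a hN h).K ≤ Real.exp (H ^ (c + 2)) →
      (binSys Θ Ξ Q σ a hN h).near ≤ Real.exp (-H ^ c) → 0 ≤ Λ → Λ ≤ Real.exp H →
    ∀ F : ι → Mov Ξ ι (Q × V k) (Θ × (V k × ℕ)) (V k → ℝ),
      FacesN (binSys Θ Ξ Q σ a hN h) δ a F (4 * H) (Real.exp (H ^ (c + 2))) →
      Nonempty (GS.StrT (binSys Θ Ξ Q σ a hN h) univ δ q (F q) (4 * H) (Real.exp (H ^ (c + 2)))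
        (H * Real.exp ((1 + κ) * Λ))) →
      St σ hN h a δ F H

end contracts

/-- **NAMED VIEW OF EVERY PIECE WITH `j` VERTICES**: errors `exp (-H ^ c0)`, budgets `exp (H ^ D)` -/
def NVBin (j : ℕ) (κ : ℝ) (c0 c D : ℕ) : Prop :=
  ViewBin j κ c fun σ hN h a δ F H =>
    NVAt σ hN h a δ F (Real.exp (-H ^ c0)) (Real.exp (-H ^ c0)) (Real.exp (H ^ D))

/-- **NAMES OF EVERY PIECE WITH `j` VERTICES**: errors `exp (-H ^ c0)`, sizes `exp (H ^ D)` -/
def NamBin (j : ℕ) (κ : ℝ) (c0 c D : ℕ) : Prop :=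
  ViewBin j κ c fun σ hN h a δ F H =>
    NamAt σ hN h a δ F (Real.exp (-H ^ c0)) (Real.exp (-H ^ c0)) (Real.exp (H ^ D))

end

end Pool.Agent.GM
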