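import Pool.Agent.GM.Geo0

/-!
# GM/Geo (helper96): the binary model, any number of vertices, as an instance of `Sys`

`binSys i` : vertices `Fin m`, coins `xm i` (of the hidden vertex `i`), node `gv σ h (ex N t)`, cells of scale
`ex N t - (h+3)`, `ρ` = averaged windows `Bin.rho`, `J` = exact window `Bin.Wd`, `near = 8 / 2^h`, `K = (m+4) 2^(h+3)`.
-/

set_option autoImplicit false
set_option linter.unusedSectionVars false

namespace Pool.Agent.GM

open Finset Pool.Agent.PWZ Pool.Agent.M3 Pool.Agent.M3.Bin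
open Pool.Agent.M3.Mod (ex ex_zero ex_succ ex_top exk ex_anti Wz WS sum_Wz WS_nonneg Wz_nonneg Pr_sum Pr_none Pr_true cQ
  rho_nodes rho_one count_img num_aux sumQ)

noncomputable section

/-! ### numbers -/

theorem numA (m h e : ℕ) : 2 ^ (e - h) + 2 ^ e + (m + 2) * 2 ^ (e - (h + 3)) ≤
    (m + 4) * 2 ^ (h + 3) * 2 ^ (e - (h + 3)) := by
  have h0 : 1 ≤ 2 ^ h := Nat.one_le_two_pow
  have h5 : 2 ^ (h + 3) = 8 * 2 ^ h := by ring
  rcases num_aux h e with ⟨h1, h2⟩ | ⟨h1, h2, h3⟩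
  · rw [h2]
    have h4 : 2 ^ e = 2 ^ (e - (h + 3)) * (8 * 2 ^ h) := by
      conv_lhs => rw [h1]
      ring
    rw [h4, h5, pow_add]
    generalize 2 ^ (e - (h + 3)) = s
    nlinarith [Nat.mul_le_mul (Nat.le_refl (s * m)) h0, Nat.mul_le_mul (Nat.le_refl s) h0]
  · rw [h1, h5]
    have h4 : 2 ^ (e - h) ≤ 2 ^ 2 := Nat.pow_le_pow_right (by norm_num) h2
    have h6 : 2 ^ e ≤ 2 ^ (h + 2) := Nat.pow_le_pow_right (by norm_num) h3
    have h7 : 2 ^ (h + 2) = 4 * 2 ^ h := by ring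
    rw [pow_zero]
    nlinarith [Nat.mul_le_mul (Nat.le_refl m) h0]

theorem numB (m h e : ℕ) : ((2 ^ (e - h) + 2 ^ e + (m + 1) * 2 ^ (e - (h + 3))) + (2 ^ (e - (h + 3)) - 1)) /
    2 ^ (e - (h + 3)) + 1 ≤ (m + 4) * 2 ^ (h + 3) := by
  rw [Nat.succ_le_iff, Nat.div_lt_iff_lt_mul (Nat.two_pow_pos _)]
  have h1 := numA m h e
  have h2 := Nat.two_pow_pos (e - (h + 3))
  have h3 : (m + 2) * 2 ^ (e - (h + 3)) = (m + 1) * 2 ^ (e - (h + 3)) + 2 ^ (e - (h + 3)) := by ring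
  omega

theorem numC (m h e : ℕ) : 2 ^ (e - h) + 2 ^ e + (m + 1) * 2 ^ (e - (h + 3)) ≤ (m + 4) * 2 ^ (h + 3) * 2 ^ e := by
  have h1 : 2 ^ (e - h) ≤ 2 ^ e := Nat.pow_le_pow_right (by norm_num) (Nat.sub_le _ _)
  have h2 : 2 ^ (e - (h + 3)) ≤ 2 ^ e := Nat.pow_le_pow_right (by norm_num) (Nat.sub_le _ _)
  have h3 : 1 ≤ 2 ^ (h + 3) := Nat.one_le_two_pow
  calc 2 ^ (e - h) + 2 ^ e + (m + 1) * 2 ^ (e - (h + 3)) ≤ 2 ^ e + 2 ^ e + (m + 1) * 2 ^ e := by
        have := Nat.mul_le_mul (Nat.le_refl (m + 1)) h2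
        omega
    _ = (m + 3) * 1 * 2 ^ e := by ring
    _ ≤ (m + 4) * 2 ^ (h + 3) * 2 ^ e := Nat.mul_le_mul_right _ (Nat.mul_le_mul (by omega) h3)

variable {k N : ℕ} {ι Θ Ξ Q : Type} [Fintype ι] [DecidableEq ι] (σ : V k) [Fintype Θ] [Nonempty Θ] [Fintype Ξ]
  [Nonempty Ξ] [Fintype Q] [Nonempty Q]

/-! ### the martingale -/

/-- law of the centre and the noise -/
theorem E_cnm (i : ι) {P : Type} [Fintype P] [Nonempty P] (F : V k → ℕ → ℝ) :
    (Pm (k := k) (N := N) (ι := ι) (Θ := Θ) (P := P)).E (fun ω => F (ctr σ ω) (nz ω)) =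
      ((2 : ℝ) ^ k * 2 ^ N)⁻¹ * ∑ z : V k, ∑ w ∈ range (2 ^ N), F z w := by
  classical
  unfold Pm
  rw [FP.unif_E, ← Equiv.sum_comp (faceEquiv σ (k := k) (N := N) (ι := ι) (Θ := Θ) (P := P) i).symm]
  have h1 : ∀ q : (Θ × P × ({j : ι // j ≠ i} → P × V k)) × (V k × Fin (2 ^ N)),
      F (ctr σ ((faceEquiv σ (k := k) (N := N) (ι := ι) (Θ := Θ) (P := P) i).symm q))
        (nz ((faceEquiv σ (k := k) (N := N) (ι := ι) (Θ := Θ) (P := P) i).symm q)) = F q.2.1 q.2.2 := by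
    intro q
    have h2 := (faceEquiv σ (k := k) (N := N) (ι := ι) (Θ := Θ) (P := P) i).apply_symm_apply q
    have h3 := congrArg (fun q => q.2.1) h2
    have h4 := congrArg (fun q => q.2.2.val) h2
    simp only [faceEquiv, Equiv.coe_fn_mk] at h3 h4
    unfold ctr nz vx
    exact congrArg₂ F h3 h4
  have hc : Fintype.card (Sq k N ι Θ P) =
      Fintype.card (Θ × P × ({j : ι // j ≠ i} → P × V k)) * (2 ^ k * 2 ^ N) := by
    rw [Fintype.card_congr (faceEquiv σ (k := k) (N := N) (ι := ι) (Θ := Θ) (P := P) i),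
      Fintype.card_prod _ (V k × Fin (2 ^ N)), Fintype.card_prod (V k), card_V, Fintype.card_fin]
  rw [Finset.sum_congr rfl fun q _ => h1 q, Fintype.sum_prod_type, hc]
  simp only [Finset.sum_const, nsmul_eq_mul, Finset.card_univ]
  have h2 : (Fintype.card (Θ × P × ({j : ι // j ≠ i} → P × V k)) : ℝ) ≠ 0 :=
    Nat.cast_ne_zero.mpr Fintype.card_ne_zero
  generalize Fintype.card (Θ × P × ({j : ι // j ≠ i} → P × V k)) = M at h2 ⊢
  rw [Fintype.sum_prod_type]
  have h3 : ∀ z : V k, ∑ w : Fin (2 ^ N), F z w = ∑ w ∈ range (2 ^ N), F z w :=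
    fun z => (Finset.sum_range (fun w => F z w)).symm
  rw [Finset.sum_congr rfl fun z _ => h3 z]
  push_cast
  field_simp

theorem Pr_thm {P : Type} [Fintype P] [Nonempty P] (θ : Θ) :
    (Pm (k := k) (N := N) (ι := ι) (Θ := Θ) (P := P)).Pr (fun ω => th ω = θ) = 1 / (Fintype.card Θ : ℝ) := by
  classical
  unfold FP.Pr Pm
  rw [FP.unif_E, Fintype.sum_prod_type, Fintype.card_prod]
  have h1 : ∀ θ' : Θ, ∑ y : (ι → P × V k) × Fin (2 ^ N),
      ind (th (k := k) (N := N) (ι := ι) (Θ := Θ) (P := P) (θ', y) = θ) =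
      (Fintype.card ((ι → P × V k) × Fin (2 ^ N)) : ℝ) * ind (θ' = θ) := by
    intro θ'
    have : ∀ y : (ι → P × V k) × Fin (2 ^ N),
        ind (th (k := k) (N := N) (ι := ι) (Θ := Θ) (P := P) (θ', y) = θ) = ind (θ' = θ) := fun _ => rfl
    simp only [this, Finset.sum_const, nsmul_eq_mul, Finset.card_univ]
  rw [Finset.sum_congr rfl fun θ' _ => h1 θ', ← Finset.mul_sum, sum_ind_one, mul_one]
  have h2 : (Fintype.card ((ι → P × V k) × Fin (2 ^ N)) : ℝ) ≠ 0 := Nat.cast_ne_zero.mpr Fintype.card_ne_zero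
  have h3 : (Fintype.card Θ : ℝ) ≠ 0 := Nat.cast_ne_zero.mpr Fintype.card_ne_zero
  push_cast at h2 ⊢
  field_simp

theorem E_thFm (i : ι) {P : Type} [Fintype P] [Nonempty P] (θ : Θ) (F : V k → ℕ → ℝ) :
    (Pm (k := k) (N := N) (ι := ι) (Θ := Θ) (P := P)).E (fun ω => ind (th ω = θ) * F (ctr σ ω) (nz ω)) =
      1 / (Fintype.card Θ : ℝ) * (((2 : ℝ) ^ k * 2 ^ N)⁻¹ * ∑ z : V k, ∑ w ∈ range (2 ^ N), F z w) := by
  rw [← E_cnm σ (k := k) (N := N) (Θ := Θ) (P := P) i F, ← Pr_thm (k := k) (N := N) (ι := ι) (P := P) θ]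
  exact indep_th (fun ω => ind (th ω = θ)) (fun ω => F (ctr σ ω) (nz ω)) (Fac.ind fun v w hvw => by rw [hvw])
    (fun v w hvw => by
      have hvw' : v.2 = w.2 := hvw
      have h1 : ctr σ v = ctr σ w := by unfold ctr vx; rw [hvw']
      have h2 : nz v = nz w := by unfold nz; rw [hvw']
      show F (ctr σ v) (nz v) = F (ctr σ w) (nz w)
      rw [h1, h2])

/-- the rounded windows are a martingale along the nodes -/
theorem mart_gv (i : ι) (hN : N ≤ k) (h t : ℕ) (g : Θ × (V k × ℕ)) (v : V k) :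
    (PM k N ι Θ Ξ Q).E (fun ω => ind (gv σ h (ex N t) ω = g) * rho h (ex N (t + 1)) (gv σ h (ex N (t + 1)) ω).2.1 v) =
      (PM k N ι Θ Ξ Q).Pr (fun ω => gv σ h (ex N t) ω = g) * rho h (ex N t) g.2.1 v := by
  have hI : ∀ (e : ℕ) (ω : Sq k N ι Θ (Ξ × Q)), ind (gv σ h e ω = g) =
      ind (th ω = g.1) * ind (G h e (ctr σ ω) (nz ω) = g.2) := by
    intro e ω
    rw [← ind_and]
    congr 1
    apply propext
    rw [Prod.ext_iff]
    rfl
  rcases Nat.lt_or_ge t N with ht | ht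
  · set e := ex N (t + 1) with he
    have he1 : ex N t = e + 1 := ex_succ ht
    have heN : e < N := by rw [he]; unfold ex; omega
    rw [he1]
    have h1 : (PM k N ι Θ Ξ Q).E (fun ω => ind (gv σ h (e + 1) ω = g) * rho h e (gv σ h e ω).2.1 v) =
        (PM k N ι Θ Ξ Q).E (fun ω => ind (th ω = g.1) * (fun z w => ind (G h (e + 1) z w = g.2) *
          rho h e (G h e z w).1 v) (ctr σ ω) (nz ω)) := by
      refine FP.E_congr _ fun ω _ => ?_
      rw [hI, mul_assoc]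
      rfl
    have h2 : (PM k N ι Θ Ξ Q).Pr (fun ω => gv σ h (e + 1) ω = g) =
        (PM k N ι Θ Ξ Q).E (fun ω => ind (th ω = g.1) * (fun z w => ind (G h (e + 1) z w = g.2)) (ctr σ ω) (nz ω)) :=
      FP.E_congr _ fun ω _ => hI _ _
    have h3 := h1.trans (E_thFm σ (k := k) (N := N) i (P := Ξ × Q) g.1 (fun z w => ind (G h (e + 1) z w = g.2) *
          rho h e (G h e z w).1 v))
    have h4 := h2.trans (E_thFm σ (k := k) (N := N) i (P := Ξ × Q) g.1 (fun z w => ind (G h (e + 1) z w = g.2)))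
    rw [h3, h4, rho_nodes heN hN]
    ring
  · have he0 : ex N t = 0 := ex_top ht
    have he1 : ex N (t + 1) = 0 := ex_top (by omega)
    rw [he0, he1]
    unfold FP.Pr
    rw [← FP.E_mul_const]
    refine FP.E_congr _ fun ω _ => ?_
    by_cases h1 : gv σ h 0 ω = g
    · simp only [h1]
    · rw [ind_not h1, zero_mul, zero_mul]

/-! ### the node and the positions -/

theorem gv_flr {h e : ℕ} {ω : Sq k N ι Θ (Ξ × Q)} {g : Θ × (V k × ℕ)} (hg : gv σ h e ω = g) :
    flr (e - h) (∑ j, (vm ω j).2 + σ + ((nz ω % 2 ^ e : ℕ) : V k)) = g.2.1 := by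
  rw [← hg]
  rfl

/-- the positions of one vertex -/
theorem pos_count (h e : ℕ) (l : ι) (α : ι → V k) (g1 : V k) (Cm : V k → Prop)
    (hC : ∀ c, Cm c → ∃ (x : ι → V k) (r : ι → ℕ) (n : ℕ), n < 2 ^ e ∧
      (∀ i, i ≠ l → x i = α i + (r i : V k)) ∧ (∀ i, i ≠ l → r i < 2 ^ (e - (h + 3))) ∧
      flr (e - (h + 3)) (x l) = flr (e - (h + 3)) c ∧ flr (e - h) (∑ i, x i + σ + (n : V k)) = g1) :
    ∑ a : Q × V k, ind (Cm a.2) ≤
      Fintype.card Q * ((2 ^ (e - h) + 2 ^ e + (Fintype.card ι + 1) * 2 ^ (e - (h + 3)) : ℕ) : ℝ) := by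
  rw [sumQ (fun v => ind (Cm v))]
  refine mul_le_mul_of_nonneg_left ?_ (Nat.cast_nonneg _)
  refine count_img (g1 - σ - ∑ i ∈ univ.erase l, α i + ((2 ^ (e - h) - 1 + (2 ^ (e - (h + 3)) - 1) : ℕ) : V k)) _ _ ?_
  intro c hc
  obtain ⟨x, r, n, h1, h2, h3, h4, h5⟩ := hC c hc
  exact bd_memm σ l x α r h1 h2 h3 h4 h5

/-- **number of compatible cells, surely** -/
theorem nu_m {h e : ℕ} (he : e ≤ k) (l : ι) (ω : Sq k N ι Θ (Ξ × Q)) :
    ∃ S : Finset (V k), (S.card : ℝ) ≤ ((Fintype.card ι + 4) * 2 ^ (h + 3) : ℕ) ∧ ∀ ω' : Sq k N ι Θ (Ξ × Q),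
      (∀ j, j ≠ l → flr (e - (h + 3)) (vm ω' j).2 = flr (e - (h + 3)) (vm ω j).2) → gv σ h e ω' = gv σ h e ω →
      flr (e - (h + 3)) (vm ω' l).2 ∈ S := by
  classical
  have hs : e - (h + 3) ≤ k := by omega
  set s := e - (h + 3) with hsd
  set base : V k := (gv σ h e ω).2.1 - σ - ∑ i ∈ univ.erase l, flr s (vm ω i).2 + ((2 ^ (e - h) - 1 + (2 ^ s - 1) : ℕ) : V k)
    with hbase
  set M := 2 ^ (e - h) + 2 ^ e + (Fintype.card ι + 1) * 2 ^ s with hM
  refine ⟨(range ((M + (2 ^ s - 1)) / 2 ^ s + 1)).image (fun j : ℕ => flr s base - ((j * 2 ^ s : ℕ) : V k)), ?_, ?_⟩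
  · have h1 := (Finset.card_image_le (s := range ((M + (2 ^ s - 1)) / 2 ^ s + 1))
      (f := fun j : ℕ => flr s base - ((j * 2 ^ s : ℕ) : V k))).trans
      ((Finset.card_range _).le.trans (numB (Fintype.card ι) h e))
    exact_mod_cast h1
  · intro ω' h1 h2
    choose r hr1 hr2 using fun i : ι => flr_add_rem s (vm ω' i).2
    obtain ⟨M', hM', h4⟩ := bd_memm σ (s := s) (j := e - h) (e := e) l (fun i => (vm ω' i).2) (fun i => flr s (vm ω i).2) r
      (c0 := (vm ω' l).2) (Nat.mod_lt (nz ω') (Nat.two_pow_pos e)) (fun i hi => by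
        rw [← h1 i hi]
        exact hr2 i) (fun i _ => hr1 i) rfl (gv_flr σ h2)
    obtain ⟨j, hj, h5⟩ := cover s hs base M' M hM'.le
    rw [Finset.mem_image]
    exact ⟨j, hj, by rw [h4, h5]⟩

/-! ### number of compatible cells, in probability -/

theorem cPt_ne : (Fintype.card (Q × V k) : ℝ) ≠ 0 := cQ (Q := Q × V k)

theorem cPt_pos : (0 : ℝ) < Fintype.card (Q × V k) := by exact_mod_cast Fintype.card_pos

/-- the sum of `W` over the points of an event which does not depend on the vertex `i` -/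
theorem sum_C_W (h e : ℕ) (g : V k × ℕ) (i : ι) (C : (ι → Q × V k) → Prop)
    (hC : ∀ z a, C (Function.update z i a) ↔ C z) :
    (Fintype.card (Q × V k) : ℝ) * ∑ z, ind (C z) * Wz N h e g (∑ j, (z j).2 + σ) = WS Q N h e g * ∑ z, ind (C z) := by
  rw [resample i, Finset.mul_sum]
  refine Finset.sum_congr rfl fun z _ => ?_
  have h1 : ∀ a : Q × V k, ind (C (Function.update z i a)) * Wz N h e g (∑ j, (Function.update z i a j).2 + σ) =
      ind (C z) * Wz N h e g (∑ j, (Function.update z i a j).2 + σ) := by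
    intro a
    rw [show C (Function.update z i a) = C z from propext (hC z a)]
  rw [Finset.sum_congr rfl fun a _ => h1 a, ← Finset.mul_sum, sum_Wzm σ]
  ring

theorem cnt_m {h e : ℕ} (he : e ≤ k) (i0 : ι) (g : Θ × (V k × ℕ)) (A : Finset ι) (y : ι → Q × V k)
    (j : ι) (β : V k) (hj : j ∉ A) (hl : ∃ l, l ≠ j ∧ l ∉ A) :
    (PM k N ι Θ Ξ Q).Pr (fun w => (∀ i ∈ A, vm w i = y i) ∧ gv σ h e w = g ∧
      ∃ w' : Sq k N ι Θ (Ξ × Q), (∀ i ∈ A, flr (e - (h + 3)) (vm w' i).2 = flr (e - (h + 3)) (y i).2) ∧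
        flr (e - (h + 3)) (vm w' j).2 = β ∧
        (∀ i, i ∉ A → i ≠ j → flr (e - (h + 3)) (vm w' i).2 = flr (e - (h + 3)) (vm w i).2) ∧ gv σ h e w' = g) ≤
    (((Fintype.card ι + 4) * 2 ^ (h + 3) : ℕ) : ℝ) * (PM k N ι Θ Ξ Q).Pr (fun w => (∀ i ∈ A, vm w i = y i) ∧ gv σ h e w = g ∧
      flr (e - (h + 3)) (vm w j).2 = β) := by
  classical
  obtain ⟨l, hlj, hlA⟩ := hl
  have hs : e - (h + 3) ≤ k := by omega
  set s := e - (h + 3) with hsd
  set Cm : (ι → Q × V k) → Prop := fun z => ∃ w' : Sq k N ι Θ (Ξ × Q),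
    (∀ i ∈ A, flr s (vm w' i).2 = flr s (y i).2) ∧ flr s (vm w' j).2 = β ∧
      (∀ i, i ∉ A → i ≠ j → flr s (vm w' i).2 = flr s (z i).2) ∧ gv σ h e w' = g with hCm
  have e1 : (PM k N ι Θ Ξ Q).Pr (fun w => (∀ i ∈ A, vm w i = y i) ∧ gv σ h e w = g ∧ Cm (vm w)) =
      Fintype.card Ξ * (kapm k ι Θ Ξ Q * ∑ z : ι → Q × V k, ind ((∀ i ∈ A, z i = y i) ∧ Cm z) * Wz N h e g.2 (∑ j, (z j).2 + σ)) := by
    rw [← PS' σ (Θ := Θ) (Ξ := Ξ) i0 h e g (fun z => (∀ i ∈ A, z i = y i) ∧ Cm z)]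
    exact FP.Pr_congr _ fun w _ => by tauto
  have e2 : (PM k N ι Θ Ξ Q).Pr (fun w => (∀ i ∈ A, vm w i = y i) ∧ gv σ h e w = g ∧ flr s (vm w j).2 = β) =
      Fintype.card Ξ * (kapm k ι Θ Ξ Q * ∑ z : ι → Q × V k, ind ((∀ i ∈ A, z i = y i) ∧ flr s (z j).2 = β) *
        Wz N h e g.2 (∑ j, (z j).2 + σ)) := by
    rw [← PS' σ (Θ := Θ) (Ξ := Ξ) i0 h e g (fun z => (∀ i ∈ A, z i = y i) ∧ flr s (z j).2 = β)]
    exact FP.Pr_congr _ fun w _ => by tauto
  rw [show (PM k N ι Θ Ξ Q).Pr (fun w => (∀ i ∈ A, vm w i = y i) ∧ gv σ h e w = g ∧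
      ∃ w' : Sq k N ι Θ (Ξ × Q), (∀ i ∈ A, flr s (vm w' i).2 = flr s (y i).2) ∧ flr s (vm w' j).2 = β ∧
        (∀ i, i ∉ A → i ≠ j → flr s (vm w' i).2 = flr s (vm w i).2) ∧ gv σ h e w' = g) = _ from e1, e2]
  have hupd : ∀ (i : ι) (hi : i ∉ A) (z : ι → Q × V k) (a : Q × V k),
      (∀ i' ∈ A, Function.update z i a i' = y i') ↔ ∀ i' ∈ A, z i' = y i' := by
    intro i hi z a
    refine forall_congr' fun i' => forall_congr' fun hi' => ?_
    rw [Function.update_of_ne (by rintro rfl; exact hi hi')]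
  -- two resamplings on the left
  have f1 := sum_C_W σ (N := N) h e g.2 j (fun z => (∀ i ∈ A, z i = y i) ∧ Cm z) (fun z a => by
    rw [hupd j hj]
    refine and_congr_right fun _ => ?_
    rw [hCm]
    refine exists_congr fun w' => and_congr_right fun _ => and_congr_right fun _ => and_congr_left fun _ => ?_
    refine forall_congr' fun i => forall_congr' fun _ => forall_congr' fun hi => ?_
    rw [Function.update_of_ne hi])
  set T := ∑ z : ι → Q × V k, ind (∀ i ∈ A, z i = y i) with hT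
  have hT0 : 0 ≤ T := Finset.sum_nonneg fun _ _ => ind_nonneg _
  have f2 : (Fintype.card (Q × V k) : ℝ) * ∑ z : ι → Q × V k, ind ((∀ i ∈ A, z i = y i) ∧ Cm z) ≤
      T * (Fintype.card Q * ((2 ^ (e - h) + 2 ^ e + (Fintype.card ι + 1) * 2 ^ s : ℕ) : ℝ)) := by
    rw [resample l, hT, Finset.sum_mul]
    refine Finset.sum_le_sum fun z _ => ?_
    have h1 : ∀ a : Q × V k, ind ((∀ i ∈ A, Function.update z l a i = y i) ∧ Cm (Function.update z l a)) =
        ind (∀ i ∈ A, z i = y i) * ind (Cm (Function.update z l a)) := by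
      intro a
      rw [ind_and, show (∀ i ∈ A, Function.update z l a i = y i) = ∀ i ∈ A, z i = y i from propext (hupd l hlA z a)]
    rw [Finset.sum_congr rfl fun a _ => h1 a, ← Finset.mul_sum]
    refine mul_le_mul_of_nonneg_left ?_ (ind_nonneg _)
    set Cl : V k → Prop := fun c : V k => ∃ w' : Sq k N ι Θ (Ξ × Q),
        (∀ i ∈ A, flr s (vm w' i).2 = flr s (y i).2) ∧ flr s (vm w' j).2 = β ∧
        (∀ i, i ∉ A → i ≠ j → i ≠ l → flr s (vm w' i).2 = flr s (z i).2) ∧ flr s (vm w' l).2 = flr s c ∧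
        gv σ h e w' = g with hCl
    have h2 : ∀ a : Q × V k, ind (Cm (Function.update z l a)) = ind (Cl a.2) := by
      intro a
      congr 1
      apply propext
      refine exists_congr fun w' => and_congr_right fun _ => and_congr_right fun _ => ?_
      constructor
      · rintro ⟨h3, h4⟩
        refine ⟨fun i hi hij hil => ?_, ?_, h4⟩
        · have := h3 i hi hij
          rwa [Function.update_of_ne hil] at this
        · have := h3 l hlA hlj
          rwa [Function.update_self] at this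
      · rintro ⟨h3, h4, h5⟩
        refine ⟨fun i hi hij => ?_, h5⟩
        by_cases hil : i = l
        · subst hil
          rw [Function.update_self]
          exact h4
        · rw [Function.update_of_ne hil]
          exact h3 i hi hij hil
    rw [Finset.sum_congr rfl fun a _ => h2 a]
    refine pos_count σ (Q := Q) h e l (fun i => if i ∈ A then flr s (y i).2 else if i = j then β else flr s (z i).2)
      g.2.1 Cl ?_
    rintro c ⟨w', h3, h4, h5, h6, h7⟩
    choose r hr1 hr2 using fun i : ι => flr_add_rem s (vm w' i).2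
    refine ⟨fun i => (vm w' i).2, r, nz w' % 2 ^ e, Nat.mod_lt _ (Nat.two_pow_pos e), fun i hi => ?_,
      fun i _ => hr1 i, h6, gv_flr σ h7⟩
    have h8 : flr s (vm w' i).2 = if i ∈ A then flr s (y i).2 else if i = j then β else flr s (z i).2 := by
      split_ifs with h9 h10
      · exact h3 i h9
      · rw [h10]
        exact h4
      · exact h5 i h9 h10 hi
    rw [← h8]
    exact hr2 i
  -- two resamplings on the right
  have f3 := sum_C_W σ (N := N) h e g.2 l (fun z => (∀ i ∈ A, z i = y i) ∧ flr s (z j).2 = β) (fun z a => by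
    rw [hupd l hlA, Function.update_of_ne hlj.symm])
  have f4 : (Fintype.card (Q × V k) : ℝ) * ∑ z : ι → Q × V k, ind ((∀ i ∈ A, z i = y i) ∧ flr s (z j).2 = β) =
      T * ∑ a : Q × V k, ind (flr s a.2 = β) := by
    rw [resample j, hT, Finset.sum_mul]
    refine Finset.sum_congr rfl fun z _ => ?_
    rw [Finset.mul_sum]
    refine Finset.sum_congr rfl fun a _ => ?_
    rw [ind_and, show (∀ i ∈ A, Function.update z j a i = y i) = ∀ i ∈ A, z i = y i from propext (hupd j hj z a),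
      Function.update_self]
  have hk := kapm_pos (k := k) (ι := ι) (Θ := Θ) (Ξ := Ξ) (Q := Q)
  have hc := cPt_pos (k := k) (Q := Q)
  have hW := WS_nonneg (Q := Q) (k := k) (N := N) h e g.2
  by_cases hβ : flr s β = β
  · rw [sumQ (fun v => ind (flr s v = β)), card_cell' hs β hβ] at f4
    have hM : ((2 ^ (e - h) + 2 ^ e + (Fintype.card ι + 1) * 2 ^ s : ℕ) : ℝ) ≤ (((Fintype.card ι + 4) * 2 ^ (h + 3) : ℕ) : ℝ) * 2 ^ s := by
      have h2 : 2 ^ (e - h) + 2 ^ e + (Fintype.card ι + 1) * 2 ^ s ≤ (Fintype.card ι + 4) * 2 ^ (h + 3) * 2 ^ s :=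
        le_trans (Nat.add_le_add_left (Nat.mul_le_mul_right _ (by omega)) _) (numA (Fintype.card ι) h e)
      exact_mod_cast h2
    have key : (Fintype.card (Q × V k) : ℝ) ^ 2 *
        ∑ z : ι → Q × V k, ind ((∀ i ∈ A, z i = y i) ∧ Cm z) * Wz N h e g.2 (∑ j, (z j).2 + σ) ≤
        (Fintype.card (Q × V k) : ℝ) ^ 2 * ((((Fintype.card ι + 4) * 2 ^ (h + 3) : ℕ) : ℝ) *
          ∑ z : ι → Q × V k, ind ((∀ i ∈ A, z i = y i) ∧ flr s (z j).2 = β) * Wz N h e g.2 (∑ j, (z j).2 + σ)) := by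
      calc (Fintype.card (Q × V k) : ℝ) ^ 2 *
            ∑ z : ι → Q × V k, ind ((∀ i ∈ A, z i = y i) ∧ Cm z) * Wz N h e g.2 (∑ j, (z j).2 + σ)
          = (Fintype.card (Q × V k) : ℝ) * ((Fintype.card (Q × V k) : ℝ) *
            ∑ z : ι → Q × V k, ind ((∀ i ∈ A, z i = y i) ∧ Cm z) * Wz N h e g.2 (∑ j, (z j).2 + σ)) := by ring
        _ = WS Q N h e g.2 * ((Fintype.card (Q × V k) : ℝ) *
            ∑ z : ι → Q × V k, ind ((∀ i ∈ A, z i = y i) ∧ Cm z)) := by rw [f1]; ring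
        _ ≤ WS Q N h e g.2 * (T * (Fintype.card Q * ((2 ^ (e - h) + 2 ^ e + (Fintype.card ι + 1) * 2 ^ s : ℕ) : ℝ))) :=
            mul_le_mul_of_nonneg_left f2 hW
        _ ≤ WS Q N h e g.2 * (T * (Fintype.card Q * ((((Fintype.card ι + 4) * 2 ^ (h + 3) : ℕ) : ℝ) * 2 ^ s))) := by
            refine mul_le_mul_of_nonneg_left ?_ hW
            refine mul_le_mul_of_nonneg_left ?_ hT0
            exact mul_le_mul_of_nonneg_left hM (Nat.cast_nonneg _)
        _ = (((Fintype.card ι + 4) * 2 ^ (h + 3) : ℕ) : ℝ) * (WS Q N h e g.2 * (T * (Fintype.card Q * 2 ^ s))) := by ring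
        _ = (((Fintype.card ι + 4) * 2 ^ (h + 3) : ℕ) : ℝ) * (WS Q N h e g.2 * ((Fintype.card (Q × V k) : ℝ) *
            ∑ z : ι → Q × V k, ind ((∀ i ∈ A, z i = y i) ∧ flr s (z j).2 = β))) := by rw [f4]
        _ = (((Fintype.card ι + 4) * 2 ^ (h + 3) : ℕ) : ℝ) * ((Fintype.card (Q × V k) : ℝ) * (WS Q N h e g.2 *
            ∑ z : ι → Q × V k, ind ((∀ i ∈ A, z i = y i) ∧ flr s (z j).2 = β))) := by ring
        _ = _ := by rw [← f3]; ring
    have key2 := le_of_mul_le_mul_left key (by positivity)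
    calc (Fintype.card Ξ : ℝ) * (kapm k ι Θ Ξ Q *
          ∑ z : ι → Q × V k, ind ((∀ i ∈ A, z i = y i) ∧ Cm z) * Wz N h e g.2 (∑ j, (z j).2 + σ))
        ≤ (Fintype.card Ξ : ℝ) * (kapm k ι Θ Ξ Q * ((((Fintype.card ι + 4) * 2 ^ (h + 3) : ℕ) : ℝ) *
          ∑ z : ι → Q × V k, ind ((∀ i ∈ A, z i = y i) ∧ flr s (z j).2 = β) * Wz N h e g.2 (∑ j, (z j).2 + σ))) :=
          mul_le_mul_of_nonneg_left (mul_le_mul_of_nonneg_left key2 hk.le) (Nat.cast_nonneg _)
      _ = _ := by ring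
  · have h1 : ∀ z : ι → Q × V k, ind ((∀ i ∈ A, z i = y i) ∧ Cm z) * Wz N h e g.2 (∑ j, (z j).2 + σ) = 0 := by
      intro z
      rw [ind_not, zero_mul]
      rintro ⟨-, w', -, h2, -⟩
      exact hβ (by rw [← h2, flr_flr le_rfl])
    rw [Finset.sum_congr rfl fun z _ => h1 z, Finset.sum_const_zero, mul_zero, mul_zero]
    refine mul_nonneg (Nat.cast_nonneg _) (mul_nonneg (Nat.cast_nonneg _) (mul_nonneg hk.le ?_))
    exact Finset.sum_nonneg fun _ _ => mul_nonneg (ind_nonneg _) (Wz_nonneg _ _ _ _)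

/-! ### edges -/

theorem Wz_le {h e : ℕ} (he : e ≤ N) (hN : N ≤ k) (g : V k × ℕ) (z : V k) :
    (2 : ℝ) ^ e * (Fintype.card Q * Wz N h e g z) ≤ WS Q N h e g := by
  have hek : e ≤ k := he.trans hN
  have h1 : ∀ z : V k, Wz N h e g z = ((2 : ℝ) ^ N)⁻¹ * ((∑ hi ∈ range (2 ^ (N - e)), ind (hi = g.2)) * rr h e z g.1) := by
    intro z
    unfold Wz
    rw [← sum_noise h e he z g, Finset.sum_range (fun w => ind (G h e z w = g))]
  set c2 : ℝ := ∑ hi ∈ range (2 ^ (N - e)), ind (hi = g.2) with hc2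
  have hc20 : 0 ≤ c2 := Finset.sum_nonneg fun _ _ => ind_nonneg _
  have h2 : WS Q N h e g = Fintype.card Q * (((2 : ℝ) ^ N)⁻¹ * (c2 * (2 ^ e * ∑ v : V k, ind (flr (e - h) v = g.1)))) := by
    unfold WS
    rw [sumQ (fun z => Wz N h e g z), Finset.sum_congr rfl fun z _ => h1 z, ← Finset.mul_sum, ← Finset.mul_sum]
    congr 3
    unfold rr
    rw [Finset.sum_comm]
    have h3 : ∀ n : ℕ, ∑ z : V k, ind (flr (e - h) (z + (n : V k)) = g.1) = ∑ v : V k, ind (flr (e - h) v = g.1) :=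
      fun n => Equiv.sum_comp (Equiv.addRight (n : V k)) (fun v => ind (flr (e - h) v = g.1))
    rw [Finset.sum_congr rfl fun n _ => h3 n, Finset.sum_const, card_range, nsmul_eq_mul]
    push_cast
    rfl
  rw [h1 z, h2]
  have h3 := mul_le_mul_of_nonneg_left (rr_le h e hek z g.1) hc20
  have h4 : (0 : ℝ) ≤ 2 ^ e * (Fintype.card Q * ((2 : ℝ) ^ N)⁻¹) := by positivity
  have h5 := mul_le_mul_of_nonneg_left h3 h4
  calc (2 : ℝ) ^ e * (Fintype.card Q * (((2 : ℝ) ^ N)⁻¹ * (c2 * rr h e z g.1)))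
      = 2 ^ e * (Fintype.card Q * ((2 : ℝ) ^ N)⁻¹) * (c2 * rr h e z g.1) := by ring
    _ ≤ 2 ^ e * (Fintype.card Q * ((2 : ℝ) ^ N)⁻¹) * (c2 * ∑ v : V k, ind (flr (e - h) v = g.1)) := h5
    _ = _ := by ring

/-- averaging over the classes of a relation -/
theorem sum_classes {α : Type*} [Fintype α] (R : α → α → Prop) (hs : ∀ a b, R a b → R b a) (D C : α → Prop)
    (hD : ∀ a b, R a b → (D a ↔ D b)) (hc : ∀ a b, R a b → ∀ c, R a c ↔ R b c) (hr : ∀ a, D a → R a a) {δ : ℝ}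
    (h : ∀ a, D a → ∑ b, ind (R a b ∧ C b) ≤ δ * ∑ b, ind (R a b)) :
    ∑ a, ind (D a ∧ C a) ≤ δ * ∑ a, ind (D a) := by
  classical
  set c : α → ℝ := fun a => ∑ b, ind (R a b) with hcd
  have hc0 : ∀ a, D a → 0 < c a := by
    intro a ha
    refine lt_of_lt_of_le one_pos ?_
    rw [← ind_of (hr a ha)]
    exact Finset.single_le_sum (f := fun b => ind (R a b)) (fun _ _ => ind_nonneg _) (mem_univ a)
  have hcc : ∀ a b, R a b → c a = c b := by
    intro a b hab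
    rw [hcd]
    simp only
    exact Finset.sum_congr rfl fun d _ => by rw [show R a d = R b d from propext (hc a b hab d)]
  have h1 : ∀ a, ind (D a ∧ C a) = ∑ b, ind (D b) * (c b)⁻¹ * ind (R b a ∧ C a) := by
    intro a
    by_cases ha : D a ∧ C a
    · rw [ind_of ha]
      have h2 : ∀ b, ind (D b) * (c b)⁻¹ * ind (R b a ∧ C a) = (c a)⁻¹ * ind (R a b) := by
        intro b
        by_cases hab : R a b
        · rw [ind_of hab, ind_of ((hD a b hab).1 ha.1), ind_of ⟨hs a b hab, ha.2⟩, hcc a b hab]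
          ring
        · rw [ind_not hab, ind_not (fun h' : R b a ∧ C a => hab (hs b a h'.1)), mul_zero, mul_zero]
      rw [Finset.sum_congr rfl fun b _ => h2 b, ← Finset.mul_sum]
      exact (inv_mul_cancel₀ (hc0 a ha.1).ne').symm
    · rw [ind_not ha]
      refine (Finset.sum_eq_zero fun b _ => ?_).symm
      by_cases hb : D b
      · rw [ind_not (fun h' : R b a ∧ C a => ha ⟨(hD b a h'.1).1 hb, h'.2⟩), mul_zero]
      · rw [ind_not hb, zero_mul, zero_mul]
  rw [Finset.sum_congr rfl fun a _ => h1 a, Finset.sum_comm, Finset.mul_sum]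
  refine Finset.sum_le_sum fun b _ => ?_
  rw [← Finset.mul_sum]
  by_cases hb : D b
  · rw [ind_of hb, one_mul]
    have h2 := h b hb
    have h3 := mul_le_mul_of_nonneg_left h2 (inv_nonneg.2 (hc0 b hb).le)
    refine h3.trans (le_of_eq ?_)
    show (c b)⁻¹ * (δ * c b) = δ * 1
    have h4 := (hc0 b hb).ne'
    field_simp
  · rw [ind_not hb, zero_mul, zero_mul, mul_zero]

theorem edge_m {h e : ℕ} (he : e ≤ N) (hN : N ≤ k) (i0 : ι) (g : Θ × (V k × ℕ)) (B : Finset ι) (ξ : Ξ)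
    (y : ι → Q × V k) (E : (ι → Q × V k) → Prop) (δ : ℝ) (hδ : 0 ≤ δ)
    (hE : ∀ w' : Sq k N ι Θ (Ξ × Q), (∀ i, i ∉ B → vm w' i = y i) → gv σ h e w' = g →
      ∑ z : ι → Q × V k, ind ((∀ i, i ∉ B → z i = y i) ∧
        (∀ i ∈ B, flr (e - (h + 3)) (z i).2 = flr (e - (h + 3)) (vm w' i).2) ∧ E z) ≤
        δ * ∑ z : ι → Q × V k, ind ((∀ i, i ∉ B → z i = y i) ∧
          ∀ i ∈ B, flr (e - (h + 3)) (z i).2 = flr (e - (h + 3)) (vm w' i).2)) :
    (PM k N ι Θ Ξ Q).Pr (fun w => xm i0 w = ξ ∧ (∀ i, i ∉ B → vm w i = y i) ∧ gv σ h e w = g ∧ E (vm w)) ≤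
      (((Fintype.card ι + 4) * 2 ^ (h + 3) : ℕ) : ℝ) * δ * (PM k N ι Θ Ξ Q).Pr (fun w => xm i0 w = ξ ∧
        (∀ i, i ∉ B → vm w i = y i) ∧ gv σ h e w = g) := by
  classical
  set s := e - (h + 3) with hsd
  have hk := kapm_pos (k := k) (ι := ι) (Θ := Θ) (Ξ := Ξ) (Q := Q)
  have hK1 : (1 : ℝ) ≤ (((Fintype.card ι + 4) * 2 ^ (h + 3) : ℕ) : ℝ) := by
    have : 1 ≤ (Fintype.card ι + 4) * 2 ^ (h + 3) := Nat.mul_pos (by omega) (Nat.two_pow_pos _)
    exact_mod_cast this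
  by_cases hB : B = ∅
  · by_cases hex : ∃ w' : Sq k N ι Θ (Ξ × Q), (∀ i, i ∉ B → vm w' i = y i) ∧ gv σ h e w' = g
    · obtain ⟨w', h1, h2⟩ := hex
      have h3 := hE w' h1 h2
      have h4 : ∀ z : ι → Q × V k, (∀ i, i ∉ B → z i = y i) ↔ z = y := by
        intro z
        rw [hB, funext_iff]
        simp
      have h5 : ∑ z : ι → Q × V k, ind ((∀ i, i ∉ B → z i = y i) ∧
          ∀ i ∈ B, flr s (z i).2 = flr s (vm w' i).2) = 1 := by
        rw [← sum_ind_one y]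
        refine Finset.sum_congr rfl fun z _ => ?_
        congr 1
        apply propext
        rw [h4 z, hB]
        simp
      have h6 : ∑ z : ι → Q × V k, ind ((∀ i, i ∉ B → z i = y i) ∧
          (∀ i ∈ B, flr s (z i).2 = flr s (vm w' i).2) ∧ E z) = ind (E y) := by
        rw [Finset.sum_eq_single y]
        · congr 1
          apply propext
          rw [h4 y, hB]
          simp
        · intro z _ hz
          exact ind_not fun h' => hz ((h4 z).1 h'.1)
        · intro h'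
          exact absurd (mem_univ _) h'
      rw [h5, h6, mul_one] at h3
      have h7 : (PM k N ι Θ Ξ Q).Pr (fun w => xm i0 w = ξ ∧ (∀ i, i ∉ B → vm w i = y i) ∧ gv σ h e w = g ∧ E (vm w)) ≤
          δ * (PM k N ι Θ Ξ Q).Pr (fun w => xm i0 w = ξ ∧ (∀ i, i ∉ B → vm w i = y i) ∧ gv σ h e w = g) := by
        unfold FP.Pr
        rw [← FP.E_smul]
        refine FP.E_mono _ fun w _ => ?_
        by_cases h8 : xm i0 w = ξ ∧ (∀ i, i ∉ B → vm w i = y i) ∧ gv σ h e w = g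
        · rw [ind_of h8, mul_one]
          have h9 : vm w = y := (h4 _).1 h8.2.1
          refine le_trans (ind_mono fun h' => ?_) h3
          rw [← h9]
          exact h'.2.2.2
        · rw [ind_not h8, mul_zero, ind_not]
          rintro ⟨h9, h10, h11, _⟩
          exact h8 ⟨h9, h10, h11⟩
      refine h7.trans ?_
      refine mul_le_mul_of_nonneg_right ?_ (FP.Pr_nonneg _ _)
      exact le_mul_of_one_le_left hδ hK1
    · rw [Pr_none _ (by
        rintro ω ⟨_, h1, h2, _⟩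
        exact hex ⟨ω, h1, h2⟩)]
      exact mul_nonneg (mul_nonneg (by positivity) hδ) (FP.Pr_nonneg _ _)
  obtain ⟨l, hl⟩ := Finset.nonempty_iff_ne_empty.2 hB
  have e1 : (PM k N ι Θ Ξ Q).Pr (fun w => xm i0 w = ξ ∧ (∀ i, i ∉ B → vm w i = y i) ∧ gv σ h e w = g ∧ E (vm w)) =
      kapm k ι Θ Ξ Q * ∑ z : ι → Q × V k, ind ((∀ i, i ∉ B → z i = y i) ∧ E z) * Wz N h e g.2 (∑ j, (z j).2 + σ) := by
    rw [← PS σ (Θ := Θ) (Ξ := Ξ) i0 h e g ξ (fun z => (∀ i, i ∉ B → z i = y i) ∧ E z)]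
    exact FP.Pr_congr _ fun w _ => by tauto
  have e2 := PS σ (Θ := Θ) (Ξ := Ξ) (N := N) i0 h e g ξ (fun z => ∀ i, i ∉ B → z i = y i)
  rw [e1, e2]
  -- the compatible points
  set D : (ι → Q × V k) → Prop := fun z => (∀ i, i ∉ B → z i = y i) ∧ ∃ w' : Sq k N ι Θ (Ξ × Q),
    (∀ i, i ∉ B → vm w' i = y i) ∧ gv σ h e w' = g ∧ ∀ i ∈ B, flr s (z i).2 = flr s (vm w' i).2 with hD
  set R : (ι → Q × V k) → (ι → Q × V k) → Prop := fun z z' => (∀ i, i ∉ B → z i = y i) ∧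
    (∀ i, i ∉ B → z' i = y i) ∧ ∀ i ∈ B, flr s (z' i).2 = flr s (z i).2 with hR
  have h1 : ∑ z, ind (D z ∧ E z) ≤ δ * ∑ z, ind (D z) := by
    refine sum_classes R ?_ D E ?_ ?_ ?_ ?_
    · rintro a b ⟨h1, h2, h3⟩
      exact ⟨h2, h1, fun i hi => (h3 i hi).symm⟩
    · rintro a b ⟨h1, h2, h3⟩
      constructor
      · rintro ⟨_, w', h4, h5, h6⟩
        exact ⟨h2, w', h4, h5, fun i hi => (h3 i hi).trans (h6 i hi)⟩
      · rintro ⟨_, w', h4, h5, h6⟩
        exact ⟨h1, w', h4, h5, fun i hi => (h3 i hi).symm.trans (h6 i hi)⟩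
    · rintro a b ⟨h1, h2, h3⟩ c
      constructor
      · rintro ⟨_, h4, h5⟩
        exact ⟨h2, h4, fun i hi => (h5 i hi).trans (h3 i hi).symm⟩
      · rintro ⟨_, h4, h5⟩
        exact ⟨h1, h4, fun i hi => (h5 i hi).trans (h3 i hi)⟩
    · rintro a ⟨h1, _⟩
      exact ⟨h1, h1, fun _ _ => rfl⟩
    · rintro a ⟨h1, w', h4, h5, h6⟩
      have h7 := hE w' h4 h5
      have h8 : ∀ b : ι → Q × V k, R a b ↔ ((∀ i, i ∉ B → b i = y i) ∧ ∀ i ∈ B, flr s (b i).2 = flr s (vm w' i).2) := by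
        intro b
        constructor
        · rintro ⟨_, h9, h10⟩
          exact ⟨h9, fun i hi => (h10 i hi).trans (h6 i hi)⟩
        · rintro ⟨h9, h10⟩
          exact ⟨h1, h9, fun i hi => (h10 i hi).trans (h6 i hi).symm⟩
      have h9 : ∀ b, ind (R a b ∧ E b) = ind ((∀ i, i ∉ B → b i = y i) ∧
          (∀ i ∈ B, flr s (b i).2 = flr s (vm w' i).2) ∧ E b) := by
        intro b
        rw [h8 b, and_assoc]
      have h10 : ∀ b, ind (R a b) = ind ((∀ i, i ∉ B → b i = y i) ∧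
          ∀ i ∈ B, flr s (b i).2 = flr s (vm w' i).2) := by
        intro b
        rw [h8 b]
      rw [Finset.sum_congr rfl fun b _ => h9 b, Finset.sum_congr rfl fun b _ => h10 b]
      exact h7
  -- points with positive weight are compatible
  have h2 : ∀ z : ι → Q × V k, ind ((∀ i, i ∉ B → z i = y i) ∧ E z) * Wz N h e g.2 (∑ j, (z j).2 + σ) ≤
      ind (D z ∧ E z) * (WS Q N h e g.2 / (2 ^ e * Fintype.card Q)) := by
    intro z
    have hW0 := WS_nonneg (Q := Q) (k := k) (N := N) h e g.2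
    have hq : (0 : ℝ) < Fintype.card Q := by exact_mod_cast Fintype.card_pos
    by_cases hz : (∀ i, i ∉ B → z i = y i) ∧ E z
    swap
    · rw [ind_not hz, zero_mul]
      exact mul_nonneg (ind_nonneg _) (by positivity)
    rw [ind_of hz, one_mul]
    by_cases hw : Wz N h e g.2 (∑ j, (z j).2 + σ) = 0
    · rw [hw]
      exact mul_nonneg (ind_nonneg _) (by positivity)
    have h3 : D z := by
      have h4 := pmfm σ (Θ := Θ) (N := N) i0 h e g ξ z
      have h5 : 0 < kapm k ι Θ Ξ Q * Wz N h e g.2 (∑ j, (z j).2 + σ) :=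
        mul_pos hk (lt_of_le_of_ne (Wz_nonneg _ _ _ _) (Ne.symm hw))
      by_contra hcon
      rw [Pr_none _ (by
        rintro ω ⟨_, h6, h7⟩
        refine hcon ⟨hz.1, ω, fun i hi => ?_, h7, fun i _ => by rw [h6]⟩
        rw [h6]
        exact hz.1 i hi)] at h4
      rw [← h4] at h5
      exact lt_irrefl _ h5
    rw [ind_of ⟨h3, hz.2⟩, one_mul, le_div_iff₀ (by positivity)]
    have h4 := Wz_le (Q := Q) he hN (h := h) g.2 (∑ j, (z j).2 + σ)
    linarith
  -- the number of compatible points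
  set T := ∑ z : ι → Q × V k, ind (∀ i, i ∉ B → z i = y i) with hT
  have hT0 : 0 ≤ T := Finset.sum_nonneg fun _ _ => ind_nonneg _
  have hupd : ∀ (z : ι → Q × V k) (a : Q × V k),
      (∀ i, i ∉ B → Function.update z l a i = y i) ↔ ∀ i, i ∉ B → z i = y i := by
    intro z a
    refine forall_congr' fun i' => forall_congr' fun hi' => ?_
    rw [Function.update_of_ne (fun h' : i' = l => hi' (by rw [h']; exact hl))]
  have h3 : (Fintype.card (Q × V k) : ℝ) * ∑ z, ind (D z) ≤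
      T * (Fintype.card Q * ((2 ^ (e - h) + 2 ^ e + (Fintype.card ι + 1) * 2 ^ s : ℕ) : ℝ)) := by
    rw [resample l, hT, Finset.sum_mul]
    refine Finset.sum_le_sum fun z _ => ?_
    set Cl : V k → Prop := fun c : V k => ∃ w' : Sq k N ι Θ (Ξ × Q), (∀ i, i ∉ B → vm w' i = y i) ∧ gv σ h e w' = g ∧
      (∀ i ∈ B, i ≠ l → flr s (z i).2 = flr s (vm w' i).2) ∧ flr s c = flr s (vm w' l).2 with hCl
    have h4 : ∀ a : Q × V k, ind (D (Function.update z l a)) = ind (∀ i, i ∉ B → z i = y i) * ind (Cl a.2) := by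
      intro a
      rw [← ind_and]
      congr 1
      apply propext
      rw [hD, hCl]
      simp only
      rw [hupd z a]
      refine and_congr_right fun _ => exists_congr fun w' => and_congr_right fun _ => and_congr_right fun _ => ?_
      constructor
      · intro h5
        refine ⟨fun i hi hil => ?_, ?_⟩
        · have := h5 i hi
          rwa [Function.update_of_ne hil] at this
        · have := h5 l hl
          rwa [Function.update_self] at this
      · rintro ⟨h5, h6⟩ i hi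
        by_cases hil : i = l
        · subst hil
          rw [Function.update_self]
          exact h6
        · rw [Function.update_of_ne hil]
          exact h5 i hi hil
    rw [Finset.sum_congr rfl fun a _ => h4 a, ← Finset.mul_sum]
    refine mul_le_mul_of_nonneg_left ?_ (ind_nonneg _)
    refine pos_count σ (Q := Q) h e l (fun i => if i ∈ B then flr s (z i).2 else (y i).2) g.2.1 Cl ?_
    rintro c ⟨w', h5, h6, h7, h8⟩
    choose r hr1 hr2 using fun i : ι => flr_add_rem s (vm w' i).2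
    refine ⟨fun i => (vm w' i).2, fun i => if i ∈ B then r i else 0, nz w' % 2 ^ e, Nat.mod_lt _ (Nat.two_pow_pos e),
      fun i hi => ?_, fun i _ => ?_, h8.symm, gv_flr σ h6⟩
    · by_cases hiB : i ∈ B
      · simp only [if_pos hiB]
        rw [h7 i hiB hi]
        exact hr2 i
      · simp only [if_neg hiB]
        rw [h5 i hiB, Nat.cast_zero, add_zero]
    · by_cases hiB : i ∈ B
      · simp only [if_pos hiB]
        exact hr1 i
      · simp only [if_neg hiB]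
        exact Nat.two_pow_pos _
  have h4 := sum_C_W σ (N := N) h e g.2 l (fun z => ∀ i, i ∉ B → z i = y i) hupd
  have hc := cPt_pos (k := k) (Q := Q)
  have hq : (0 : ℝ) < Fintype.card Q := by exact_mod_cast Fintype.card_pos
  have hW := WS_nonneg (Q := Q) (k := k) (N := N) h e g.2
  have hM : ((2 ^ (e - h) + 2 ^ e + (Fintype.card ι + 1) * 2 ^ s : ℕ) : ℝ) ≤ (((Fintype.card ι + 4) * 2 ^ (h + 3) : ℕ) : ℝ) * 2 ^ e := by
    exact_mod_cast numC (Fintype.card ι) h e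
  have key : (Fintype.card (Q × V k) : ℝ) *
      ∑ z : ι → Q × V k, ind ((∀ i, i ∉ B → z i = y i) ∧ E z) * Wz N h e g.2 (∑ j, (z j).2 + σ) ≤
      (Fintype.card (Q × V k) : ℝ) * ((((Fintype.card ι + 4) * 2 ^ (h + 3) : ℕ) : ℝ) * δ *
        ∑ z : ι → Q × V k, ind (∀ i, i ∉ B → z i = y i) * Wz N h e g.2 (∑ j, (z j).2 + σ)) := by
    calc (Fintype.card (Q × V k) : ℝ) *
          ∑ z : ι → Q × V k, ind ((∀ i, i ∉ B → z i = y i) ∧ E z) * Wz N h e g.2 (∑ j, (z j).2 + σ)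
        ≤ (Fintype.card (Q × V k) : ℝ) * ∑ z, ind (D z ∧ E z) * (WS Q N h e g.2 / (2 ^ e * Fintype.card Q)) :=
          mul_le_mul_of_nonneg_left (Finset.sum_le_sum fun z _ => h2 z) hc.le
      _ = (WS Q N h e g.2 / (2 ^ e * Fintype.card Q)) * ((Fintype.card (Q × V k) : ℝ) * ∑ z, ind (D z ∧ E z)) := by
          rw [← Finset.sum_mul]
          ring
      _ ≤ (WS Q N h e g.2 / (2 ^ e * Fintype.card Q)) * ((Fintype.card (Q × V k) : ℝ) * (δ * ∑ z, ind (D z))) :=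
          mul_le_mul_of_nonneg_left (mul_le_mul_of_nonneg_left h1 hc.le) (by positivity)
      _ = (WS Q N h e g.2 / (2 ^ e * Fintype.card Q)) * δ * ((Fintype.card (Q × V k) : ℝ) * ∑ z, ind (D z)) := by ring
      _ ≤ (WS Q N h e g.2 / (2 ^ e * Fintype.card Q)) * δ *
          (T * (Fintype.card Q * ((2 ^ (e - h) + 2 ^ e + (Fintype.card ι + 1) * 2 ^ s : ℕ) : ℝ))) :=
          mul_le_mul_of_nonneg_left h3 (by positivity)
      _ ≤ (WS Q N h e g.2 / (2 ^ e * Fintype.card Q)) * δ *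
          (T * (Fintype.card Q * ((((Fintype.card ι + 4) * 2 ^ (h + 3) : ℕ) : ℝ) * 2 ^ e))) := by
          refine mul_le_mul_of_nonneg_left ?_ (by positivity)
          refine mul_le_mul_of_nonneg_left ?_ hT0
          exact mul_le_mul_of_nonneg_left hM hq.le
      _ = (((Fintype.card ι + 4) * 2 ^ (h + 3) : ℕ) : ℝ) * δ * (WS Q N h e g.2 * T) := by
          have h5 : (2 : ℝ) ^ e ≠ 0 := by positivity
          field_simp
      _ = (((Fintype.card ι + 4) * 2 ^ (h + 3) : ℕ) : ℝ) * δ * ((Fintype.card (Q × V k) : ℝ) *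
          ∑ z : ι → Q × V k, ind (∀ i, i ∉ B → z i = y i) * Wz N h e g.2 (∑ j, (z j).2 + σ)) := by rw [h4]
      _ = _ := by ring
  have key2 := le_of_mul_le_mul_left key hc
  calc kapm k ι Θ Ξ Q * ∑ z : ι → Q × V k, ind ((∀ i, i ∉ B → z i = y i) ∧ E z) * Wz N h e g.2 (∑ j, (z j).2 + σ)
      ≤ kapm k ι Θ Ξ Q * ((((Fintype.card ι + 4) * 2 ^ (h + 3) : ℕ) : ℝ) * δ *
        ∑ z : ι → Q × V k, ind (∀ i, i ∉ B → z i = y i) * Wz N h e g.2 (∑ j, (z j).2 + σ)) :=
        mul_le_mul_of_nonneg_left key2 hk.le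
    _ = _ := by ring

/-! ### the instance -/

theorem count_but_one {ι Pt : Type*} [Fintype ι] [DecidableEq ι] [Fintype Pt] (i : ι) (y : ι → Pt) :
    ∑ z : ι → Pt, ind (∀ j, j ≠ i → z j = y j) = Fintype.card Pt := by
  have h1 := resample i (fun z : ι → Pt => ind (z = y))
  rw [sum_ind_one, mul_one] at h1
  rw [h1]
  refine Finset.sum_congr rfl fun z _ => ?_
  have h2 : ∀ a : Pt, ind (Function.update z i a = y) = ind (∀ j, j ≠ i → z j = y j) * ind (a = y i) := by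
    intro a
    rw [← ind_and]
    congr 1
    apply propext
    rw [Function.update_eq_iff, and_comm]
  rw [Finset.sum_congr rfl fun a _ => h2 a, ← Finset.mul_sum, sum_ind_one, mul_one]

/-- **the geometry of `m` vertices in the binary model**, coins of the vertex `i` -/
def binSys (Θ Ξ Q : Type) [Fintype Θ] [Nonempty Θ] [Fintype Ξ] [Nonempty Ξ] [Fintype Q] [Nonempty Q]
    (σ : V k) (i : ι) (hN : N ≤ k) (h : ℕ) :
    Sys ι (Sq k N ι Θ (Ξ × Q)) Ξ (Q × V k) (V k) (Θ × (V k × ℕ)) (V k) where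
  P := PM k N ι Θ Ξ Q
  xi := xm i
  x := vm
  n := N
  gm t := gv σ h (ex N t)
  par t g := if t < N then (g.1, Bin.par h (ex N (t + 1)) g.2) else g
  cl t a := flr (ex N t - (h + 3)) a.2
  ρ t g := rho h (ex N t) g.2.1
  J t ω := Wd (ex N t) (Yn σ (ex N t) ω).1
  near := 8 * ((2 : ℝ) ^ h)⁻¹
  K := (((Fintype.card ι + 4) * 2 ^ (h + 3) : ℕ) : ℝ)
  K1 := by
    have : 1 ≤ (Fintype.card ι + 4) * 2 ^ (h + 3) := Nat.mul_pos (by omega) (Nat.two_pow_pos _)
    exact_mod_cast this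
  ppos := Pm_ne
  par_gm := by
    intro t ω
    by_cases ht : t < N
    · rw [if_pos ht]
      have h1 := par_G h (ex N (t + 1)) (ctr σ ω) (nz ω)
      rw [← ex_succ ht] at h1
      exact Prod.ext rfl h1
    · rw [if_neg ht, ex_top (by omega), ex_top (by omega)]
  wt t g := Wt_rho h (ex N t) (exk hN t) _
  Jwt t ω := Wt_Wd _ _
  near0 := by positivity
  Jnear := by
    intro t ω f f' hf hf'
    exact iw_near h (ex N t) (exk hN t) _ f f' (fun d => (hf d).trans one_le_two) (fun d => (hf' d).trans one_le_two)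
  law := by
    intro t g i0 ξ y
    have h1 := PS σ (Θ := Θ) (Ξ := Ξ) (N := N) i h (ex N t) g ξ (fun z => ∀ j, j ≠ i0 → z j = y j)
    have h2 := sum_C_W σ (N := N) h (ex N t) g.2 i0 (fun z => ∀ j, j ≠ i0 → z j = y j) (fun z a =>
      forall_congr' fun j => forall_congr' fun hj => by rw [Function.update_of_ne hj])
    have h3 := PS' σ (Θ := Θ) (Ξ := Ξ) (Q := Q) (N := N) i h (ex N t) g (fun _ => True)
    have h4 := sum_C_W σ (Q := Q) (N := N) h (ex N t) g.2 i0 (fun _ => True) (fun _ _ => Iff.rfl)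
    have h5 : (PM k N ι Θ Ξ Q).Pr (fun ω => True ∧ gv σ h (ex N t) ω = g) =
        (PM k N ι Θ Ξ Q).Pr (fun ω => gv σ h (ex N t) ω = g) := FP.Pr_congr _ fun ω _ => by simp
    have h6 : ∑ z : ι → Q × V k, ind True = (Fintype.card (Q × V k) : ℝ) ^ Fintype.card ι := by
      rw [Finset.sum_congr rfl fun z _ => ind_of trivial, Finset.sum_const, Finset.card_univ, nsmul_eq_mul, mul_one,
        Fintype.card_fun]
      push_cast
      rfl
    rw [h5] at h3
    rw [count_but_one] at h2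
    rw [h6] at h4
    have hc := cPt_pos (k := k) (Q := Q)
    have h7 : ∑ z : ι → Q × V k, ind (∀ j, j ≠ i0 → z j = y j) * Wz N h (ex N t) g.2 (∑ j, (z j).2 + σ) =
        WS Q N h (ex N t) g.2 := by
      have h8 := h2
      rw [mul_comm (WS Q N h (ex N t) g.2)] at h8
      exact mul_left_cancel₀ hc.ne' h8
    obtain ⟨m', hm'⟩ : ∃ m', Fintype.card ι = m' + 1 :=
      ⟨Fintype.card ι - 1, by have := Fintype.card_pos_iff.2 ⟨i0⟩; omega⟩
    rw [hm'] at h4
    have h8 : ∑ z : ι → Q × V k, ind True * Wz N h (ex N t) g.2 (∑ j, (z j).2 + σ) =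
        WS Q N h (ex N t) g.2 * (Fintype.card (Q × V k) : ℝ) ^ m' := by
      refine mul_left_cancel₀ hc.ne' (h4.trans ?_)
      rw [pow_succ]
      ring
    rw [h1, h3, h7, h8, hm', Nat.add_sub_cancel]
    have h9 : (Fintype.card Ξ : ℝ) ≠ 0 := cQ (Q := Ξ)
    have h10 := hc.ne'
    field_simp
  lxi := by
    intro t g ξ y
    have h1 := PS σ (Θ := Θ) (Ξ := Ξ) (N := N) i h (ex N t) g ξ (fun z => z = y)
    have h3 := PS' σ (Θ := Θ) (Ξ := Ξ) (N := N) i h (ex N t) g (fun z => z = y)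
    rw [h1, h3]
    have h9 := cQ (Q := Ξ)
    field_simp
  mart := fun t g v => mart_gv σ i hN h t g v
  nest := by
    intro t a a' haa
    exact flr_mono_eq (Nat.sub_le_sub_right (ex_anti N t) _) haa
  one := by
    intro t ω
    exact rho_one (exk hN t) (G_aligned h (ex N t) (ctr σ ω) (nz ω))
  nu := fun t l ω => nu_m σ (Θ := Θ) (Ξ := Ξ) (Q := Q) (exk hN t) l ω
  cnt := fun t g A y j β hj hl => cnt_m σ (exk hN t) i g A y j β hj hl
  edge := fun t g B ξ y E δ hδ hE => edge_m σ (Nat.sub_le N t) hN i g B ξ y E δ hδ hE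

section simps

variable (i : ι) (hN : N ≤ k) (h : ℕ)

theorem binSys_P : (binSys Θ Ξ Q σ i hN h).P = PM k N ι Θ Ξ Q := rfl

theorem binSys_x : (binSys Θ Ξ Q σ i hN h).x = vm := rfl

theorem binSys_xi : (binSys Θ Ξ Q σ i hN h).xi = xm i := rfl

theorem binSys_n : (binSys Θ Ξ Q σ i hN h).n = N := rfl

theorem binSys_gm (t : ℕ) : (binSys Θ Ξ Q σ i hN h).gm t = gv σ h (ex N t) := rfl

end simps

end

end Pool.Agent.GM
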