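import Pool.Agent.GM.PieceX2
import Pool.Agent.GM.NVBinDef
import Pool.Agent.GM.CMDef
import Pool.Agent.GMC.PairPT

/-!
# GM/PieceX3: one piece from a named view with numbers and cold sets (row ASM A11c), helper7

* `eS φ a` : a sample space with private randomness `P1 ≃ (Ξ × Q) × R1` is base × rest; `bp` = base point (coin of `a`);
  `pz a` : the same for `P1 = Ξ × Q`; `pz_at` : nodes, vertices, coin, values of moving faces are functions of `pz`;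
* `pT_T0X` : the product process of the moving faces is `T0X` of the families `famS`;
* `bp_Zz`, `bp_Kn` : the classes of the view in terms of the classes of the base;
* **`piece_coin`** : `NVAt` for the faces `F'` (fine rounding, known face cut), cold sets of the faces `F` (coarse rounding),
  natural coldness of the view `a` ==> the bound of the process of the faces `F`.
-/

set_option autoImplicit false
set_option linter.unusedSectionVars false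

namespace Pool.Agent.GM

open Finset Pool.Agent.PWZ Pool.Agent.M3 Pool.Agent.M3.TS Pool.Agent.M3.Bin Pool.Agent.GM.KVer
open Pool.Agent.GMC (famS pq fv_famS)

noncomputable section

/-! ## base × rest -/

section split

variable {k N : ℕ} {ι Θ Q Ξ P1 R1 : Type} [Fintype ι] [DecidableEq ι]

/-- the base point -/
def bp (φ : P1 ≃ (Ξ × Q) × R1) (a : ι) (w : Sq k N ι Θ P1) : Sq k N ι Θ Q × Ξ :=
  ((w.1, fun j => ((φ (w.2.1 j).1).1.2, (w.2.1 j).2), w.2.2), (φ (w.2.1 a).1).1.1)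

/-- the rest -/
def rp (φ : P1 ≃ (Ξ × Q) × R1) (a : ι) (w : Sq k N ι Θ P1) : ({j : ι // j ≠ a} → Ξ) × (ι → R1) :=
  (fun j => (φ (w.2.1 j.1).1).1.1, fun j => (φ (w.2.1 j).1).2)

/-- **the sample space is base × rest** -/
def eS (φ : P1 ≃ (Ξ × Q) × R1) (a : ι) :
    Sq k N ι Θ P1 ≃ (Sq k N ι Θ Q × Ξ) × (({j : ι // j ≠ a} → Ξ) × (ι → R1)) where
  toFun w := (bp φ a w, rp φ a w)
  invFun q := (q.1.1.1, fun j => (φ.symm (((if h : j = a then q.1.2 else q.2.1 ⟨j, h⟩), (q.1.1.2.1 j).1), q.2.2 j),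
    (q.1.1.2.1 j).2), q.1.1.2.2)
  left_inv w := by
    refine Prod.ext rfl (Prod.ext ?_ rfl)
    funext j
    show (φ.symm (((if h : j = a then (φ (w.2.1 a).1).1.1 else (φ (w.2.1 j).1).1.1), (φ (w.2.1 j).1).1.2),
      (φ (w.2.1 j).1).2), (w.2.1 j).2) = w.2.1 j
    have h1 : (if h : j = a then (φ (w.2.1 a).1).1.1 else (φ (w.2.1 j).1).1.1) = (φ (w.2.1 j).1).1.1 := by
      by_cases h : j = a
      · rw [dif_pos h, h]
      · rw [dif_neg h]
    rw [h1]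
    show (φ.symm (φ (w.2.1 j).1), (w.2.1 j).2) = w.2.1 j
    rw [Equiv.symm_apply_apply]
  right_inv q := by
    refine Prod.ext (Prod.ext (Prod.ext rfl (Prod.ext ?_ rfl)) ?_) (Prod.ext ?_ ?_)
    · funext j
      show ((φ (φ.symm (((if h : j = a then q.1.2 else q.2.1 ⟨j, h⟩), (q.1.1.2.1 j).1), q.2.2 j))).1.2,
        (q.1.1.2.1 j).2) = q.1.1.2.1 j
      rw [Equiv.apply_symm_apply]
    · show (φ (φ.symm (((if h : a = a then q.1.2 else q.2.1 ⟨a, h⟩), (q.1.1.2.1 a).1), q.2.2 a))).1.1 = q.1.2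
      rw [Equiv.apply_symm_apply]
      show (if h : a = a then q.1.2 else q.2.1 ⟨a, h⟩) = q.1.2
      rw [dif_pos rfl]
    · funext j
      show (φ (φ.symm (((if h : j.1 = a then q.1.2 else q.2.1 ⟨j.1, h⟩), (q.1.1.2.1 j.1).1), q.2.2 j.1))).1.1 = q.2.1 j
      rw [Equiv.apply_symm_apply]
      show (if h : j.1 = a then q.1.2 else q.2.1 ⟨j.1, h⟩) = q.2.1 j
      rw [dif_neg j.2]
    · funext j
      show (φ (φ.symm (((if h : j = a then q.1.2 else q.2.1 ⟨j, h⟩), (q.1.1.2.1 j).1), q.2.2 j))).2 = q.2.2 j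
      rw [Equiv.apply_symm_apply]

theorem eS_fst (φ : P1 ≃ (Ξ × Q) × R1) (a : ι) (w : Sq k N ι Θ P1) : (eS φ a w).1 = bp φ a w := rfl

theorem eS_snd (φ : P1 ≃ (Ξ × Q) × R1) (a : ι) (w : Sq k N ι Θ P1) : (eS φ a w).2 = rp φ a w := rfl

/-- what the vertex `j ≠ a` is, from base point and rest -/
theorem vx_of_bp {φ : P1 ≃ (Ξ × Q) × R1} {a : ι} {v w : Sq k N ι Θ P1} {j : ι} (hj : j ≠ a)
    (h1 : vx j (bp φ a v).1 = vx j (bp φ a w).1) (h2 : rp φ a v = rp φ a w) : vx j v = vx j w := by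
  have h3 : ((φ (v.2.1 j).1).1.2, (v.2.1 j).2) = ((φ (w.2.1 j).1).1.2, (w.2.1 j).2) := h1
  rw [Prod.mk.injEq] at h3
  have h4 : (φ (v.2.1 j).1).1.1 = (φ (w.2.1 j).1).1.1 := congrFun (congrArg Prod.fst h2) ⟨j, hj⟩
  have h5 : (φ (v.2.1 j).1).2 = (φ (w.2.1 j).1).2 := congrFun (congrArg Prod.snd h2) j
  refine Prod.ext (φ.injective (Prod.ext (Prod.ext h4 h3.1) h5)) h3.2

theorem bp_Kn (φ : P1 ≃ (Ξ × Q) × R1) (a : ι) (e : ℕ) :
    Fac (Kn (k := k) (N := N) (Θ := Θ) (P := P1) a e) (fun v => KX a e (bp φ a v)) := by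
  intro v w hv
  rw [Kn_eq] at hv
  show Kn a e (bp φ a v).1 = Kn a e (bp φ a w).1
  rw [Kn_eq]
  refine ⟨hv.1, hv.2.1, ?_⟩
  funext j
  have h1 : v.2.1 j.1 = w.2.1 j.1 := congrFun hv.2.2 j
  show ((φ (v.2.1 j.1).1).1.2, (v.2.1 j.1).2) = ((φ (w.2.1 j.1).1).1.2, (w.2.1 j.1).2)
  rw [h1]

theorem bp_Kn' (φ : P1 ≃ (Ξ × Q) × R1) (a : ι) (e : ℕ) :
    Fac (fun v : Sq k N ι Θ P1 => (KX a e (bp φ a v), rp φ a v)) (Kn a e) := by
  intro v w hv
  rw [Prod.mk.injEq] at hv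
  have h1 : Kn a e (bp φ a v).1 = Kn a e (bp φ a w).1 := hv.1
  rw [Kn_eq] at h1
  rw [Kn_eq]
  refine ⟨h1.1, h1.2.1, ?_⟩
  funext j
  exact vx_of_bp j.2 (congrFun h1.2.2 j) hv.2

end split

/-! ## the classes of the losses -/

section zz

variable {k N : ℕ} {ι Θ Ξ R Q C : Type} [Fintype ι] [DecidableEq ι] [Nonempty Ξ]

/-- the private randomness of the view -/
def eN (Ξ R Q C : Type) : ((Ξ × R) × Q) × C ≃ (Ξ × Q) × (R × C) where
  toFun p := ((p.1.1.1, p.1.2), (p.1.1.2, p.2))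
  invFun p := (((p.1.1, p.2.1), p.1.2), p.2.2)
  left_inv _ := rfl
  right_inv _ := rfl

theorem fgz_apply_ne {a j : ι} (h : j ≠ a) (w : Sq k N ι Θ (((Ξ × R) × Q) × C)) : (fgz a w).2.1 j = w.2.1 j :=
  vx_fgz_ne h w

theorem fgz_apply_self (a : ι) (w : Sq k N ι Θ (((Ξ × R) × Q) × C)) : (fgz a w).2.1 a =
    ((((Classical.arbitrary Ξ, (w.2.1 a).1.1.1.2), (w.2.1 a).1.1.2), (w.2.1 a).1.2), (w.2.1 a).2) := by
  unfold fgz
  show Function.update w.2.1 a _ a = _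
  rw [Function.update_self]

/-- the base point without its coin does not see the coin -/
theorem vx_bp_fgz (a j : ι) (w : Sq k N ι Θ (((Ξ × R) × Q) × C)) :
    vx j (bp (eN Ξ R Q C) a w).1 = (((fgz a w).2.1 j).1.1.2, ((fgz a w).2.1 j).2) := by
  by_cases hj : j = a
  · subst hj
    rw [fgz_apply_self]
    rfl
  · rw [fgz_apply_ne hj]
    rfl

open Classical in
theorem Zz_iff {a δ : ι} {U : Finset ι} {s : ℕ} {v w : Sq k N ι Θ (((Ξ × R) × Q) × C)} :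
    Zz a δ U s v = Zz a δ U s w ↔ (th v = th w ∧ (∀ j ∈ U, (fgz a v).2.1 j = (fgz a w).2.1 j) ∧ nz v = nz w ∧
      ∀ j ∉ U, flr s (vx j v).2 = flr s (vx j w).2) ∧ (U = univ.erase δ → zc a v = zc a w) := by
  have hfl : ∀ (u : Sq k N ι Θ (((Ξ × R) × Q) × C)) (j : ι), (vx j (fgz a u)).2 = (vx j u).2 := fun u j => vx_fgz_pos a j u
  constructor
  · intro h
    have h1 : Zk U s (fgz a v) = Zk U s (fgz a w) := congrArg Prod.fst h
    have h2 : (if U = univ.erase δ then some (zc a v) else none) = (if U = univ.erase δ then some (zc a w) else none) :=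
      congrArg Prod.snd h
    refine ⟨⟨congrArg (fun x => x.1) h1, fun j hj => ?_, ?_, fun j hj => ?_⟩, fun hU => ?_⟩
    · have h3 : ku U (fgz a v) = ku U (fgz a w) := congrArg (fun x => x.2.1) h1
      exact congrFun h3 ⟨j, hj⟩
    · exact congrArg (fun x => x.2.2.1) h1
    · have h3 : cl U s (fgz a v) = cl U s (fgz a w) := congrArg (fun x => x.2.2.2) h1
      have h4 : flr s (vx j (fgz a v)).2 = flr s (vx j (fgz a w)).2 := congrFun h3 ⟨j, hj⟩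
      rwa [hfl, hfl] at h4
    · rw [if_pos hU, if_pos hU] at h2
      exact Option.some.inj h2
  · rintro ⟨⟨h1, h2, h3, h4⟩, h5⟩
    refine Prod.ext (Prod.ext h1 (Prod.ext ?_ (Prod.ext h3 ?_))) ?_
    · funext j
      exact h2 j.1 j.2
    · funext j
      show flr s (vx j.1 (fgz a v)).2 = flr s (vx j.1 (fgz a w)).2
      rw [hfl, hfl]
      exact h4 j.1 j.2
    · show (if U = univ.erase δ then some (zc a v) else none) = (if U = univ.erase δ then some (zc a w) else none)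
      by_cases hU : U = univ.erase δ
      · rw [if_pos hU, if_pos hU, h5 hU]
      · rw [if_neg hU, if_neg hU]

open Classical in
theorem YX_iff {δ : ι} {U : Finset ι} {s : ℕ} {b c : Sq k N ι Θ Q × Ξ} :
    YX δ U s b = YX δ U s c ↔ (th b.1 = th c.1 ∧ (∀ j ∈ U, vx j b.1 = vx j c.1) ∧ nz b.1 = nz c.1 ∧
      ∀ j ∉ U, flr s (vx j b.1).2 = flr s (vx j c.1).2) ∧ (U = univ.erase δ → b.2 = c.2) := by
  constructor
  · intro h
    have h1 : Zk U s b.1 = Zk U s c.1 := congrArg Prod.fst h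
    have h2 : (if U = univ.erase δ then some b.2 else none) = (if U = univ.erase δ then some c.2 else none) :=
      congrArg Prod.snd h
    refine ⟨⟨congrArg (fun x => x.1) h1, fun j hj => ?_, ?_, fun j hj => ?_⟩, fun hU => ?_⟩
    · have h3 : ku U b.1 = ku U c.1 := congrArg (fun x => x.2.1) h1
      exact congrFun h3 ⟨j, hj⟩
    · exact congrArg (fun x => x.2.2.1) h1
    · have h3 : cl U s b.1 = cl U s c.1 := congrArg (fun x => x.2.2.2) h1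
      exact congrFun h3 ⟨j, hj⟩
    · rw [if_pos hU, if_pos hU] at h2
      exact Option.some.inj h2
  · rintro ⟨⟨h1, h2, h3, h4⟩, h5⟩
    refine Prod.ext (Prod.ext h1 (Prod.ext ?_ (Prod.ext h3 ?_))) ?_
    · funext j
      exact h2 j.1 j.2
    · funext j
      exact h4 j.1 j.2
    · show (if U = univ.erase δ then some b.2 else none) = (if U = univ.erase δ then some c.2 else none)
      by_cases hU : U = univ.erase δ
      · rw [if_pos hU, if_pos hU, h5 hU]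
      · rw [if_neg hU, if_neg hU]

theorem bp_Zz (a δ : ι) (U : Finset ι) (s : ℕ) :
    Fac (Zz (k := k) (N := N) (Θ := Θ) (Ξ := Ξ) (R := R) (Q := Q) (C := C) a δ U s)
      (fun v => YX δ U s (bp (eN Ξ R Q C) a v)) := by
  intro v w hv
  rw [Zz_iff] at hv
  obtain ⟨⟨h1, h2, h3, h4⟩, h5⟩ := hv
  show YX δ U s (bp (eN Ξ R Q C) a v) = YX δ U s (bp (eN Ξ R Q C) a w)
  rw [YX_iff]
  refine ⟨⟨h1, fun j hj => ?_, h3, h4⟩, h5⟩
  rw [vx_bp_fgz, vx_bp_fgz, h2 j hj]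

theorem bp_Zz' (a δ : ι) (U : Finset ι) (s : ℕ) :
    Fac (fun v => (YX δ U s (bp (eN Ξ R Q C) a v), rp (eN Ξ R Q C) a v))
      (Zz (k := k) (N := N) (Θ := Θ) (Ξ := Ξ) (R := R) (Q := Q) (C := C) a δ U s) := by
  intro v w hv
  rw [Prod.mk.injEq, YX_iff] at hv
  obtain ⟨⟨⟨h1, h2, h3, h4⟩, h5⟩, h6⟩ := hv
  rw [Zz_iff]
  refine ⟨⟨h1, fun j hj => ?_, h3, h4⟩, h5⟩
  by_cases hja : j = a
  · subst hja
    have h7 := h2 j hj
    have h8 : ((v.2.1 j).1.1.2, (v.2.1 j).2) = ((w.2.1 j).1.1.2, (w.2.1 j).2) := h7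
    rw [Prod.mk.injEq] at h8
    have h9 : ((v.2.1 j).1.1.1.2, (v.2.1 j).1.2) = ((w.2.1 j).1.1.1.2, (w.2.1 j).1.2) :=
      congrFun (congrArg Prod.snd h6) j
    rw [Prod.mk.injEq] at h9
    rw [fgz_apply_self, fgz_apply_self, h8.1, h8.2, h9.1, h9.2]
  · rw [fgz_apply_ne hja, fgz_apply_ne hja]
    exact vx_of_bp hja (h2 j hj) h6

end zz

/-! ## the model with coins -/

section bin

variable {k N : ℕ} {ι Θ Ξ Q : Type} [Fintype ι] [DecidableEq ι] {σ : V k} [Fintype Θ] [Nonempty Θ] [Fintype Ξ]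
  [Nonempty Ξ] [Fintype Q] [Nonempty Q]

/-- base point of the model with coins -/
def pz (a : ι) (w : Sq k N ι Θ (Ξ × Q)) : Sq k N ι Θ Q × Ξ := (pq w, xm a w)

/-- a point above a base point -/
def embX (b : Sq k N ι Θ Q × Ξ) : Sq k N ι Θ (Ξ × Q) :=
  (b.1.1, fun j => ((b.2, (b.1.2.1 j).1), (b.1.2.1 j).2), b.1.2.2)

theorem pz_embX (a : ι) (b : Sq k N ι Θ Q × Ξ) : pz a (embX b) = b := rfl

/-- no further randomness -/
def eP (Ξ Q : Type) : Ξ × Q ≃ (Ξ × Q) × Unit where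
  toFun p := (p, ())
  invFun p := p.1
  left_inv _ := rfl
  right_inv _ := rfl

theorem bp_eP (a : ι) (w : Sq k N ι Θ (Ξ × Q)) : bp (eP Ξ Q) a w = pz a w := rfl

theorem bp_eN (R C : Type) (a : ι) (w : Sq k N ι Θ (((Ξ × R) × Q) × C)) :
    bp (eN Ξ R Q C) a w = pz a (p2 (pic w)) := rfl

/-- the law of the base point -/
theorem Pr_pz (a : ι) (B : Sq k N ι Θ Q × Ξ → Prop) :
    (PM k N ι Θ Ξ Q).Pr (fun w => B (pz a w)) = (FP.unif (Sq k N ι Θ Q × Ξ)).Pr B :=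
  unif_Pr_fst (eS (eP Ξ Q) a) B

/-- the natural class -/
theorem ce_pz_Kn (a : ι) (e : ℕ) (f : Sq k N ι Θ Q × Ξ → ℝ) (w : Sq k N ι Θ (Ξ × Q)) :
    (PM k N ι Θ Ξ Q).ce (Kn a e) (fun v => f (pz a v)) w = (FP.unif (Sq k N ι Θ Q × Ξ)).ce (KX a e) f (pz a w) :=
  ce_forget (eS (eP Ξ Q) a) (bp_Kn (eP Ξ Q) a e) (bp_Kn' (eP Ξ Q) a e) f w

/-- nodes, vertices, coin are functions of the base point -/
theorem pz_at (a : ι) {hN : N ≤ k} {h : ℕ} {v w : Sq k N ι Θ (Ξ × Q)} (hv : pz a v = pz a w) :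
    (∀ t, (binSys Θ Ξ Q σ a hN h).gm t v = (binSys Θ Ξ Q σ a hN h).gm t w) ∧
    (binSys Θ Ξ Q σ a hN h).x v = (binSys Θ Ξ Q σ a hN h).x w ∧
    (binSys Θ Ξ Q σ a hN h).xi v = (binSys Θ Ξ Q σ a hN h).xi w ∧
    ∀ (β : Type) (f : Mov Ξ ι (Q × V k) (Θ × (V k × ℕ)) β) (t : ℕ),
      (binSys Θ Ξ Q σ a hN h).at' f t v = (binSys Θ Ξ Q σ a hN h).at' f t w := by
  have h1 : pq v = pq w := congrArg Prod.fst hv
  have h2 : xm a v = xm a w := congrArg Prod.snd hv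
  have h3 : ∀ t, (binSys Θ Ξ Q σ a hN h).gm t v = (binSys Θ Ξ Q σ a hN h).gm t w := by
    intro t
    show (th (pq v), Gm σ h (Mod.ex N t) (pq v)) = (th (pq w), Gm σ h (Mod.ex N t) (pq w))
    rw [h1]
  have h4 : (binSys Θ Ξ Q σ a hN h).x v = (binSys Θ Ξ Q σ a hN h).x w := by
    show vs (pq v) = vs (pq w)
    rw [h1]
  refine ⟨h3, h4, h2, fun β f t => ?_⟩
  show f t ((binSys Θ Ξ Q σ a hN h).gm t v) ((binSys Θ Ξ Q σ a hN h).xi v) ((binSys Θ Ξ Q σ a hN h).x v) = _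
  rw [h3 t, h4]
  show f t _ (xm a v) _ = _
  rw [h2]
  rfl

/-- **the product process of the moving faces** -/
theorem pT_T0X (a : ι) (hN : N ≤ k) (h : ℕ) (F : ι → Mov Ξ ι (Q × V k) (Θ × (V k × ℕ)) (V k → ℝ)) {t : ℕ} (ht : t ≤ N)
    (w : Sq k N ι Θ (Ξ × Q)) : pT (binSys Θ Ξ Q σ a hN h) univ F t w =
      T0X σ h (fun θ ξ i => famS N h (F i) θ ξ) t (pz a w) := by
  unfold pT T0X TT
  show iw (Wd (Mod.ex N t) (Yn σ (Mod.ex N t) w).1) _ (fun _ => 1) = _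
  rw [Nam.iw_av]
  show Mod.av (Mod.ex N t) (Yn σ (Mod.ex N t) w).1 _ = Mod.av (Mod.ex N t) (Yn σ (Mod.ex N t) w).1 _
  congr 1
  funext d
  refine Finset.prod_congr rfl fun i _ => ?_
  have h1 := fv_famS σ a hN h (F i) (e := Mod.ex N t) (by unfold Mod.ex; omega) w
  have h2 : N - Mod.ex N t = t := by unfold Mod.ex; omega
  rw [h2] at h1
  rw [← h1]
  rfl

/-- the value of the known face is known -/
theorem at_known {a : ι} {hN : N ≤ k} {h : ℕ} {f : Mov Ξ ι (Q × V k) (Θ × (V k × ℕ)) (V k → ℝ)}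
    (hd : ∀ t g ξ, Dep (univ.erase a) (f t g ξ)) (hc : ∀ t g ξ ξ', f t g ξ = f t g ξ') {t : ℕ}
    {v w : Sq k N ι Θ (Ξ × Q)} (hv : Kn a (Mod.ex N t) (pq v) = Kn a (Mod.ex N t) (pq w)) :
    (binSys Θ Ξ Q σ a hN h).at' f t v = (binSys Θ Ξ Q σ a hN h).at' f t w := by
  rw [Kn_eq] at hv
  have h1 : Yn σ (Mod.ex N t) (pq v) = Yn σ (Mod.ex N t) (pq w) :=
    fac_Yn σ a (Mod.ex N t) (pq v) (pq w) (Prod.ext hv.2.1 hv.2.2)
  have h2 : Gm σ h (Mod.ex N t) (pq v) = Gm σ h (Mod.ex N t) (pq w) := fac_Yn_Gm σ h (Mod.ex N t) _ _ h1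
  have h3 : (binSys Θ Ξ Q σ a hN h).gm t v = (binSys Θ Ξ Q σ a hN h).gm t w := by
    show (th (pq v), Gm σ h (Mod.ex N t) (pq v)) = (th (pq w), Gm σ h (Mod.ex N t) (pq w))
    rw [hv.1, h2]
  show f t ((binSys Θ Ξ Q σ a hN h).gm t v) ((binSys Θ Ξ Q σ a hN h).xi v) ((binSys Θ Ξ Q σ a hN h).x v) =
    f t ((binSys Θ Ξ Q σ a hN h).gm t w) ((binSys Θ Ξ Q σ a hN h).xi w) ((binSys Θ Ξ Q σ a hN h).x w)
  rw [h3, hc t _ ((binSys Θ Ξ Q σ a hN h).xi v) ((binSys Θ Ξ Q σ a hN h).xi w)]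
  refine hd t _ _ _ _ fun j hj => ?_
  exact congrFun hv.2.2 ⟨j, (Finset.mem_erase.1 hj).1⟩

/-- **ONE PIECE from a named view with numbers, cold sets, natural coldness of the view** -/
theorem piece_coin {hN : N ≤ k} {h h1 : ℕ} (hh : h ≤ h1) {a δ : ι} (haδ : a ≠ δ)
    {F F' : ι → Mov Ξ ι (Q × V k) (Θ × (V k × ℕ)) (V k → ℝ)} {m M : ℝ}
    (HF' : FacesN (binSys Θ Ξ Q σ a hN h1) δ a F' m M) {e0 r0 s0 : ℝ} (hNV : NVAt σ hN h1 a δ F' e0 r0 s0)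
    (hF0 : ∀ g ξ x, F a 0 g ξ x = 0)
    {ct : ℕ → Sq k N ι Θ (Ξ × Q) → Prop} (hct : ∀ t v w, pz a v = pz a w → ct t v → ct t w)
    (cti : ∀ t w, ct t w → ct (t + 1) w) {pc : ℝ} (ctm : (PM k N ι Θ Ξ Q).Pr (ct N) ≤ pc)
    (hT : ∀ t ≤ N, ∀ w, ¬ ct t w → pT (binSys Θ Ξ Q σ a hN h1) univ F' t w = pT (binSys Θ Ξ Q σ a hN h) univ F t w)
    {D : ℕ} (hD : h1 + Fintype.card ι + 4 ≤ D) {r ρ sg ec ph : ℝ} (hr : 0 < r) (hr0 : r0 ≤ r) (hρ : 0 ≤ ρ)
    (hsg : 0 ≤ sg)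
    (C : ∀ U ∈ UU a, U ≠ univ.erase δ → ∃ H, ColdX σ N h (fun θ ξ i => famS N h (F i) θ ξ)
      (fun _ => (Fintype.card Ξ : ℝ)⁻¹) U D r sg ec H)
    (Cδ : ∀ ξ, ∃ H, ColdX σ N h (fun θ (_ : Unit) i => famS N h (F i) θ ξ) (fun _ => 1) (univ.erase δ) D r sg ec H)
    (CK : GS.ColdAt σ a hN h a F r ρ ph) {q2 : ℝ}
    (hq2 : q2 = (e0 + (∑ _U ∈ UU a, ec + (ph + pc))) + e0 + 2 * s0 * (2 * ρ + ∑ _U ∈ UU a, sg)) :
    (PM k N ι Θ Ξ Q).Pr (fun w => ∃ t ≤ N, 4 * r + r0 ≤ |pT (binSys Θ Ξ Q σ a hN h) univ F t w|) ≤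
      pc + (2 * 36 / (4 * r ^ 2) * ((pc + (sg + ec)) + e0 + ∑ _U ∈ UU a, sg * s0 + q2) + 3 * q2) := by
  classical
  obtain ⟨R, Cc, _, _, _, _, h', hh1, hh2, W, hWq, hWe3, hWeta, hWrm, hWNB, hWJ, hWhb⟩ := hNV
  set R0 : Θ → Ξ → ι → Fam k ι Q := fun θ ξ i => famS N h (F i) θ ξ with hR0
  have hU0 : (univ.erase δ : Finset ι) ∈ UU a := mem_UU.2 ⟨Finset.mem_erase.2 ⟨haδ, Finset.mem_univ _⟩, fun hcon => by
    have h2 : δ ∈ (univ.erase δ : Finset ι) := by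
      rw [hcon]
      exact Finset.mem_univ _
    exact (Finset.mem_erase.1 h2).1 rfl⟩
  -- cold sets
  have hhh : h ≤ h' := hh.trans hh1
  have hDD : h' + 4 ≤ D := by omega
  have hC : ∀ U ∈ UU a, ∃ H, ColdB (FP.unif (Sq k N ι Θ Q × Ξ)) N (T0X σ h R0)
      (fun t => YX δ U (Mod.ex N (t + 1) - (h' + 3))) r sg ec H := by
    intro U hU
    by_cases hUδ : U = univ.erase δ
    · subst hUδ
      choose H hH using Cδ
      exact ⟨_, ColdX.toB_fix (R := R0) (H := fun t w ξ => H ξ t w ()) (fun ξ => hH ξ) hhh hDD⟩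
    · obtain ⟨H, hH⟩ := C U hU hUδ
      exact ⟨_, hH.toB hUδ hhh hDD⟩
  choose! H hH using hC
  -- the known class
  have hK := coldB_Kn (N := N) (ρ := ρ) (ph := ph) a (T0 := T0X σ h R0) (r := r) hρ (by
    rw [← Pr_pz a]
    refine le_trans (FP.Pr_mono _ fun w _ => ?_) CK
    rintro ⟨t, ht, h1, h2⟩
    refine ⟨t, ht, h2.le.trans (le_of_eq ?_)⟩
    rw [← ce_pz_Kn]
    refine FP.ce_congr _ (fun v _ => ?_) w
    show ind (r ≤ |T0X σ h R0 t (pz a v)|) = ind (r ≤ |pT (binSys Θ Ξ Q σ a hN h) univ F t v|)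
    rw [pT_T0X a hN h F ht v])
  -- the cut
  have hce : ∀ t w, ct t w → ct t (embX (pz a w)) := fun t w hw => hct t w _ (pz_embX a (pz a w)).symm hw
  have hce' : ∀ t w, ct t (embX (pz a w)) → ct t w := fun t w hw => hct t _ w (pz_embX a (pz a w)) hw
  have hctm : (FP.unif (Sq k N ι Θ Q × Ξ)).Pr (fun b => ct N (embX b)) ≤ pc := by
    rw [← Pr_pz a]
    exact le_trans (FP.Pr_mono _ fun w _ hw => hce' N w hw) ctm
  have hmain := piece_abs (P := Pm (k := k) (N := N) (ι := ι) (Θ := Θ) (P := ((Ξ × R) × Q) × Cc))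
    (Q := FP.unif (Sq k N ι Θ Q × Ξ)) (pr := bp (eN Ξ R Q Cc) a) (fun B => unif_Pr_fst (eS (eN Ξ R Q Cc) a) B)
    W ?_ (T0 := T0X σ h R0) (ct := fun t b => ct t (embX b)) (fun t b => cti t (embX b)) hctm ?_ ?_
    (Y := fun U t => YX δ U (Mod.ex N (t + 1) - (h' + 3)))
    (fun U _ t _ => dom_forget (eS (eN Ξ R Q Cc) a) (bp_Zz a δ U _) (bp_Zz' a δ U _))
    (YK := fun t => KX a (Mod.ex N (t + 1)))
    (fun t _ => dom_forget (eS (eN Ξ R Q Cc) a) (bp_Kn _ a _) (bp_Kn' _ a _))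
    (r := r) (σK := 2 * ρ) (eK := ph) hr (hWrm.trans hr0) (hWeta.trans hr0) (σ := fun _ => sg) (e := fun _ => ec)
    (H := H) (HK := HotN a (T0X σ h R0) r ρ) (fun _ _ => hsg) (by positivity) hH hK hU0 rfl
  · -- final bound
    have he0 : 0 ≤ e0 := (FP.Pr_nonneg _ _).trans (W.D0q.trans hWq)
    have hJ0 : 0 ≤ W.J := (Finset.sum_nonneg fun t _ => FP.Pr_nonneg _ _).trans W.eJ
    have hs0 : 0 ≤ s0 := hJ0.trans hWJ
    have hpc : 0 ≤ pc := (FP.Pr_nonneg _ _).trans ctm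
    have hec : 0 ≤ ec := (FP.Pr_nonneg _ _).trans (hH _ hU0).mass
    have hph : 0 ≤ ph := (FP.Pr_nonneg _ _).trans hK.mass
    have hsec : (0 : ℝ) ≤ ∑ _U ∈ UU a, ec := Finset.sum_nonneg fun _ _ => hec
    have hssg : (0 : ℝ) ≤ ∑ _U ∈ UU a, sg := Finset.sum_nonneg fun _ _ => hsg
    have hsss : (0 : ℝ) ≤ ∑ _U ∈ UU a, sg * s0 := Finset.sum_nonneg fun _ _ => mul_nonneg hsg hs0
    have hq2' : (W.q + (∑ _U ∈ UU a, ec + (ph + pc))) + W.q + 2 * W.J * (2 * ρ + ∑ _U ∈ UU a, sg) ≤ q2 := by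
      rw [hq2]
      have h2 : 2 * W.J * (2 * ρ + ∑ _U ∈ UU a, sg) ≤ 2 * s0 * (2 * ρ + ∑ _U ∈ UU a, sg) :=
        mul_le_mul_of_nonneg_right (by linarith) (by positivity)
      linarith
    have hq20 : 0 ≤ q2 := by
      rw [hq2]
      positivity
    have h3 : ∑ U ∈ UU a, sg * W.hb U ≤ ∑ _U ∈ UU a, sg * s0 :=
      Finset.sum_le_sum fun U hU => mul_le_mul_of_nonneg_left (hWhb U hU) hsg
    have hNB := W.NB0
    have h4 : 2 * W.NB / (4 * r ^ 2) ≤ 2 * 36 / (4 * r ^ 2) :=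
      div_le_div_of_nonneg_right (by linarith) (by positivity)
    have h5 : 0 ≤ 2 * W.NB / (4 * r ^ 2) := by positivity
    have h6 : (0 : ℝ) ≤ (pc + (sg + ec)) + e0 + ∑ _U ∈ UU a, sg * s0 + q2 := by positivity
    have h7 : (PM k N ι Θ Ξ Q).Pr (fun w => ∃ t ≤ N, 4 * r + r0 ≤ |pT (binSys Θ Ξ Q σ a hN h) univ F t w|) ≤
        (FP.unif (Sq k N ι Θ Q × Ξ)).Pr (fun b => ∃ t, 1 ≤ t ∧ t ≤ N ∧ 4 * r + W.eta ≤ |T0X σ h R0 t b|) := by
      rw [← Pr_pz a]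
      refine FP.Pr_mono _ fun w _ => ?_
      rintro ⟨t, ht, h8⟩
      have h9 : 1 ≤ t := by
        by_contra hcon
        have h0t : t = 0 := by omega
        rw [h0t, zrN_pT (a := a) (F := F) (hF0 _ _ _), abs_zero] at h8
        have := W.eta0
        linarith
      refine ⟨t, h9, ht, ?_⟩
      rw [← pT_T0X a hN h F ht w]
      linarith
    refine h7.trans (hmain.trans ?_)
    refine add_le_add le_rfl (add_le_add ?_ (mul_le_mul_of_nonneg_left hq2' (by norm_num)))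
    refine (mul_le_mul_of_nonneg_left ?_ h5).trans (mul_le_mul_of_nonneg_right h4 h6)
    linarith
  · -- the known face
    intro t _
    refine Fac.ind fun v w hv => ?_
    have h2 : Kn a (Mod.ex N (t + 1)) (pq (p2 (pic v))) = Kn a (Mod.ex N (t + 1)) (pq (p2 (pic w))) :=
      bp_Kn (eN Ξ R Q Cc) a _ v w hv
    have h3 : Kn a (Mod.ex N t) (pq (p2 (pic v))) = Kn a (Mod.ex N t) (pq (p2 (pic w))) := filt_Kn a t _ _ h2
    have hd : ∀ t g ξ, Dep (univ.erase a) (F' a t g ξ) := HF'.dep a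
    have hc : ∀ t g ξ ξ', F' a t g ξ = F' a t g ξ' := HF'.coin a haδ
    unfold cheN
    rw [at_known (σ := σ) (hN := hN) (h := h1) hd hc h2, at_known (σ := σ) (hN := hN) (h := h1) hd hc h3]
  · -- time zero
    intro w
    exact zrN_pT (a := a) (F := F') (HF'.zero a _ _ _)
  · -- the process
    intro t _ ht w hw
    have h2 : ¬ ct t (p2 (pic w)) := fun hcon => hw (hce t _ hcon)
    exact (hT t ht _ h2).trans (pT_T0X a hN h F ht (p2 (pic w)))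

end bin

end

end Pool.Agent.GM
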