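import Pool.Agent.GM.PairCold

/-!
# GM/TransferN: coldness in the natural classes from the node form (helper18)

`S` = known vertices, `x ∉ S` = hidden vertex of the view, class `Yk x (insert x S) e r` (or `Nk x S hh e`): vertices of
`S`, EXACT path of `x`, cells of scale `r` of the others; the noise is not known (it follows the hidden vertex).

* `node_core` : at a point which is not hot the set of the tuples of free vertices (in their cells) at which the mean of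
  the product over the exact window is `≥ s` has proportion `≤ δ`;
* `node_transfer_nat` : the same for the natural class: conditional probability of `B` and not `Hot` is
  `≤ 2 * card ι * (2^(r0-r))^(n-1) * δ`;
* `nat_cold_of_node` : all times at once: probability that some natural class is hot;
* `nat_cold_pair` : the pair `S = {a, b}` (theorem C2), every hidden `x`, every rounding `hh ≥ h'` of the view;
* `nat_cold_single` : `S` empty or one vertex: rarity, at every point.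
-/

set_option autoImplicit false
set_option linter.unusedSectionVars false

namespace Pool.Agent.GM

open Finset Pool.Agent.PWZ Pool.Agent.M3 Pool.Agent.M3.Bin
open Pool.Agent.M3.Mod (ex nd av SC CL av_round ce_unif_image abs_av_le win_cover)
open Pool.Agent.GMC (Cfg Nd wU uW wU_nonneg uW_nonneg wU_sum uW_sum av_uW)

noncomputable section

variable {k N n : ℕ} {ι Θ P : Type} [Fintype ι] [DecidableEq ι] (c0 : V k) [Fintype Θ] [Nonempty Θ] [Fintype P] [Nonempty P]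

/-- the bad tuples at a point which is not hot -/
theorem node_core {U : Finset ι} {o : Fin n → ι} (ho : Function.Injective o) (hU : ∀ j, j ∈ U ↔ j ∉ Set.range o)
    {c : Cfg n} (he : c.1 ≤ k) (hc : ∀ i, c.2 i ≤ k) {h : ℕ}
    {R : ι → Fam k ι P} (hR : ∀ l, FOn ({l}ᶜ : Set ι) (R l)) (hR1 : ∀ l, FLe 1 (R l)) {q : ℕ}
    {s ρ δ : ℝ} (hs : 0 < s) (hδ0 : 0 ≤ δ) (ω0 : Sq k N ι Θ P) (hTS : TS c0 h R U o q c ω0 ≤ ρ)
    (hδ : ρ ≤ (s ^ (2 * q) * δ) ^ (2 ^ n)) :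
    (GM99.pm (wU c (nuc c0 o c ω0)) fun om => if s ≤ |av c.1 (Yn c0 c.1 ω0).1
      (fun d => ∏ i, R i c.1 (Gm c0 h c.1 ω0) (exo o (vs ω0) om) d)| then (1 : ℝ) else 0) ≤ δ := by
  classical
  set H : Fin n → (Fin n → P × V k) → V k → ℝ := fun i om z => R (o i) c.1 (Gm c0 h c.1 ω0) (exo o (vs ω0) om) z with hHd
  have hm := GM99.gcs_markov (wU c (nuc c0 o c ω0)) (wU_nonneg c _) (wU_sum hc _) (uW c (nuc c0 o c ω0))
    (uW_nonneg c _) (uW_sum he _) q (fun om z => ∏ i ∈ U, R i c.1 (Gm c0 h c.1 ω0) (exo o (vs ω0) om) z) H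
    (fun i x z => hR1 _ _ _ _ _)
    (fun i x y hxy z => by
      simp only [hHd]
      refine congrFun (hR (o i) c.1 (Gm c0 h c.1 ω0) fun j hj => ?_) z
      by_cases hjo : j ∈ Set.range o
      · obtain ⟨i', rfl⟩ := hjo
        rw [exo_o ho, exo_o ho]
        refine hxy i' fun h2 => ?_
        rw [h2] at hj
        exact hj rfl
      · rw [exo_not _ _ hjo, exo_not _ _ hjo]) s hs.le
  have h2 := (hm.trans hTS).trans hδ
  have h3 : 0 ≤ GM99.pm (wU c (nuc c0 o c ω0)) fun x => if s ≤ |∑ z, uW c (nuc c0 o c ω0) z *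
      ((∏ i ∈ U, R i c.1 (Gm c0 h c.1 ω0) (exo o (vs ω0) x) z) * ∏ i, H i x z)| then (1 : ℝ) else 0 := by
    unfold GM99.pm
    refine Finset.sum_nonneg fun x _ => mul_nonneg (Finset.prod_nonneg fun i _ => wU_nonneg c _ _ _) ?_
    beta_reduce
    split_ifs <;> norm_num
  have hs2 : 0 < s ^ (2 * q) := pow_pos hs _
  have h4 : s ^ (2 * q) * (GM99.pm (wU c (nuc c0 o c ω0)) fun x => if s ≤ |∑ z, uW c (nuc c0 o c ω0) z *
      ((∏ i ∈ U, R i c.1 (Gm c0 h c.1 ω0) (exo o (vs ω0) x) z) * ∏ i, H i x z)| then (1 : ℝ) else 0) ≤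
      s ^ (2 * q) * δ :=
    le_of_pow_le_pow_left₀ (pow_ne_zero _ two_ne_zero) (mul_nonneg hs2.le hδ0) h2
  have h5 := le_of_mul_le_mul_left h4 hs2
  refine le_trans (le_of_eq ?_) h5
  congr 1
  funext om
  have hfull : ∀ z, (∏ i ∈ U, R i c.1 (Gm c0 h c.1 ω0) (exo o (vs ω0) om) z) * ∏ i, H i om z =
      ∏ i, R i c.1 (Gm c0 h c.1 ω0) (exo o (vs ω0) om) z := by
    intro z
    have h9 : ∏ i, H i om z = ∏ j ∈ Uᶜ, R j c.1 (Gm c0 h c.1 ω0) (exo o (vs ω0) om) z := by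
      have h10 : Uᶜ = univ.image o := by
        ext j
        rw [Finset.mem_compl, hU, Finset.mem_image, not_not]
        exact ⟨fun ⟨i, hi⟩ => ⟨i, mem_univ i, hi⟩, fun ⟨i, _, hi⟩ => ⟨i, hi⟩⟩
      rw [h10, Finset.prod_image fun a _ b _ hab => ho hab]
    rw [h9, Finset.prod_mul_prod_compl]
  simp only [hfull]
  have h11 : ∑ z, uW c (nuc c0 o c ω0) z * ∏ i, R i c.1 (Gm c0 h c.1 ω0) (exo o (vs ω0) om) z =
      av c.1 (Yn c0 c.1 ω0).1 (fun d => ∏ i, R i c.1 (Gm c0 h c.1 ω0) (exo o (vs ω0) om) d) :=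
    av_uW he (nuc c0 o c ω0) _
  rw [h11]

/-- the same as a count -/
theorem node_count {U : Finset ι} {o : Fin n → ι} (ho : Function.Injective o) (hU : ∀ j, j ∈ U ↔ j ∉ Set.range o)
    {c : Cfg n} (he : c.1 ≤ k) (hc : ∀ i, c.2 i ≤ k) {h : ℕ}
    {R : ι → Fam k ι P} (hR : ∀ l, FOn ({l}ᶜ : Set ι) (R l)) (hR1 : ∀ l, FLe 1 (R l)) {q : ℕ}
    {s ρ δ : ℝ} (hs : 0 < s) (hδ0 : 0 ≤ δ) (ω0 : Sq k N ι Θ P) (hTS : TS c0 h R U o q c ω0 ≤ ρ)
    (hδ : ρ ≤ (s ^ (2 * q) * δ) ^ (2 ^ n)) (G : Finset (Fin n → P × V k))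
    (hG1 : ∀ om ∈ G, ∀ i, flr (c.2 i) (om i).2 = flr (c.2 i) (vx (o i) ω0).2)
    (hG2 : ∀ om ∈ G, s ≤ |av c.1 (Yn c0 c.1 ω0).1
      (fun d => ∏ i, R i c.1 (Gm c0 h c.1 ω0) (exo o (vs ω0) om) d)|) :
    (G.card : ℝ) ≤ δ * ∏ i, ((Fintype.card P : ℝ) * 2 ^ c.2 i) := by
  classical
  have h1 := node_core c0 ho hU he hc hR hR1 hs hδ0 ω0 hTS hδ
  have hP : (0 : ℝ) < (Fintype.card P : ℝ) := Nat.cast_pos.mpr Fintype.card_pos
  have hpos : (0 : ℝ) < ∏ i, ((Fintype.card P : ℝ) * 2 ^ c.2 i) := Finset.prod_pos fun i _ => by positivity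
  rw [← div_le_iff₀ hpos]
  refine le_trans ?_ h1
  unfold GM99.pm
  have h2 : ∀ om ∈ G, (∏ i, wU (P := P) c (nuc c0 o c ω0) i (om i)) *
      (if s ≤ |av c.1 (Yn c0 c.1 ω0).1 (fun d => ∏ i, R i c.1 (Gm c0 h c.1 ω0) (exo o (vs ω0) om) d)|
        then (1 : ℝ) else 0) = (∏ i, ((Fintype.card P : ℝ) * 2 ^ c.2 i))⁻¹ := by
    intro om hom
    rw [if_pos (hG2 om hom), mul_one, ← Finset.prod_inv_distrib]
    refine Finset.prod_congr rfl fun i _ => ?_
    unfold wU nuc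
    simp only
    rw [if_pos]
    rw [flr_flr le_rfl]
    exact hG1 om hom i
  have h3 : (G.card : ℝ) / ∏ i, ((Fintype.card P : ℝ) * 2 ^ c.2 i) = ∑ om ∈ G, (∏ i, wU (P := P) c (nuc c0 o c ω0) i (om i)) *
      (if s ≤ |av c.1 (Yn c0 c.1 ω0).1 (fun d => ∏ i, R i c.1 (Gm c0 h c.1 ω0) (exo o (vs ω0) om) d)|
        then (1 : ℝ) else 0) := by
    rw [Finset.sum_congr rfl h2, Finset.sum_const, nsmul_eq_mul, div_eq_mul_inv]
  rw [h3]
  refine Finset.sum_le_sum_of_subset_of_nonneg (Finset.subset_univ _) fun om _ _ => ?_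
  refine mul_nonneg (Finset.prod_nonneg fun i _ => wU_nonneg c _ _ _) ?_
  split_ifs <;> norm_num

/-- the others in their cells: one cell of the hidden vertex, one rounded node -/
theorem nat_block {S : Finset ι} {x : ι} (hxS : x ∉ S) {o : Fin n → ι} (ho : Function.Injective o)
    (hS : ∀ j, j ∈ S ↔ j ∉ Set.range o) {e r0 r : ℕ} (he : e ≤ N) (hN : N ≤ k) (hr0 : r0 ≤ e) (hr : r ≤ r0) {h : ℕ}
    {R : ι → Fam k ι P} (hR : ∀ l, FOn ({l}ᶜ : Set ι) (R l)) (hR1 : ∀ l, FLe 1 (R l)) {q : ℕ}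
    {B Hot : Sq k N ι Θ P → Prop} {s ρ δ : ℝ} (hs : 0 < s) (hδ0 : 0 ≤ δ)
    (hB : ∀ ω, B ω → s + 2 * ((2 : ℝ) ^ h)⁻¹ ≤ |av e (Gm c0 h e ω).1 (fun d => ∏ i, R i e (Gm c0 h e ω) (vs ω) d)|)
    (hHot : ∀ ω, ¬ Hot ω → TS c0 h R S o q (e, fun _ => r0) ω ≤ ρ) (hδ : ρ ≤ (s ^ (2 * q) * δ) ^ (2 ^ n))
    (ω : Sq k N ι Θ P) (τ : V k) (g : V k × ℕ) :
    ∑ y ∈ Fintype.piFinset (Function.update (AZ (insert x S) r ω) x (CL r0 τ)),
      ind ((B (rep x e he ω y) ∧ ¬ Hot (rep x e he ω y)) ∧ Gm c0 h e (rep x e he ω y) = g) ≤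
      δ * ((Fintype.card P : ℝ) * 2 ^ r0) ^ n := by
  classical
  set Bad : Finset (ι → P × V k) := (Fintype.piFinset (Function.update (AZ (insert x S) r ω) x (CL r0 τ))).filter
    (fun y => (B (rep x e he ω y) ∧ ¬ Hot (rep x e he ω y)) ∧ Gm c0 h e (rep x e he ω y) = g) with hBad
  have h1 : ∑ y ∈ Fintype.piFinset (Function.update (AZ (insert x S) r ω) x (CL r0 τ)),
      ind ((B (rep x e he ω y) ∧ ¬ Hot (rep x e he ω y)) ∧ Gm c0 h e (rep x e he ω y) = g) = (Bad.card : ℝ) := by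
    rw [hBad, Finset.card_filter]
    push_cast
    refine Finset.sum_congr rfl fun y _ => ?_
    by_cases hy : (B (rep x e he ω y) ∧ ¬ Hot (rep x e he ω y)) ∧ Gm c0 h e (rep x e he ω y) = g
    · rw [ind_of hy, if_pos hy]
    · rw [ind_not hy, if_neg hy]
  rw [h1]
  rcases Bad.eq_empty_or_nonempty with hemp | ⟨y0, hy0⟩
  · rw [hemp, Finset.card_empty]
    push_cast
    positivity
  have hmem : ∀ y ∈ Bad, flr r0 (y x).2 = flr r0 τ ∧ (∀ l, l ≠ x → l ∈ S → y l = vx l ω) ∧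
      (∀ l, l ≠ x → l ∉ S → flr r (y l).2 = flr r (vx l ω).2) ∧
      (B (rep x e he ω y) ∧ ¬ Hot (rep x e he ω y)) ∧ Gm c0 h e (rep x e he ω y) = g := by
    intro y hy
    rw [hBad, Finset.mem_filter, mem_pi_update, mem_CL] at hy
    refine ⟨hy.1.1, fun l hl hlS => ?_, fun l hl hlS => ?_, hy.2⟩
    · have h2 := hy.1.2 l hl
      unfold AZ at h2
      rw [if_pos (Finset.mem_insert_of_mem hlS), Finset.mem_singleton] at h2
      exact h2
    · have h2 := hy.1.2 l hl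
      unfold AZ at h2
      rw [if_neg (by rw [Finset.mem_insert]; exact fun h3 => h3.elim hl hlS), mem_CL] at h2
      exact h2
  set ω0 := rep x e he ω y0 with hω0
  have hvs0 : vs ω0 = y0 := rfl
  obtain ⟨ha0, hb0, hc0, ⟨hB0, hH0⟩, hg0⟩ := hmem y0 hy0
  -- the vertices from the tuple
  have hex : ∀ y ∈ Bad, exo o (vs ω0) (fun i => y (o i)) = y := by
    intro y hy
    funext j
    by_cases hj : j ∈ Set.range o
    · obtain ⟨i, rfl⟩ := hj
      rw [exo_o ho]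
    · rw [exo_not _ _ hj, hvs0]
      have hjS : j ∈ S := (hS j).2 hj
      have hjx : j ≠ x := fun h2 => hxS (h2 ▸ hjS)
      rw [hb0 j hjx hjS, (hmem y hy).2.1 j hjx hjS]
  have hcard : (Bad.image (fun y (i : Fin n) => y (o i))).card = Bad.card := by
    refine Finset.card_image_of_injOn fun y hy y' hy' hyy => ?_
    rw [← hex y hy, ← hex y' hy']
    exact congrArg (exo o (vs ω0)) hyy
  rw [← hcard]
  have key := node_count c0 (c := (e, fun _ => r0)) ho hS (he.trans hN) (fun _ => hr0.trans (he.trans hN)) hR hR1 hs hδ0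
    ω0 (hHot ω0 hH0) hδ (Bad.image (fun y (i : Fin n) => y (o i))) ?_ ?_
  · refine key.trans (le_of_eq ?_)
    show δ * ∏ _i : Fin n, ((Fintype.card P : ℝ) * 2 ^ r0) = _
    rw [Finset.prod_const, Finset.card_univ, Fintype.card_fin]
  · intro om hom i
    obtain ⟨y, hy, rfl⟩ := Finset.mem_image.mp hom
    obtain ⟨ha, hb, hc, -, -⟩ := hmem y hy
    show flr r0 (y (o i)).2 = flr r0 (y0 (o i)).2
    by_cases hox : o i = x
    · rw [hox, ha, ha0]
    · have hoS : o i ∉ S := fun h2 => (hS _).1 h2 ⟨i, rfl⟩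
      exact flr_mono_eq hr ((hc _ hox hoS).trans (hc0 _ hox hoS).symm)
  · intro om hom
    obtain ⟨y, hy, rfl⟩ := Finset.mem_image.mp hom
    obtain ⟨-, -, -, ⟨hBy, -⟩, hgy⟩ := hmem y hy
    have h7 := hB _ hBy
    have h8 : Gm c0 h e (rep x e he ω y) = Gm c0 h e ω0 := hgy.trans hg0.symm
    rw [h8, vs_rep] at h7
    rw [hex y hy]
    have h12 : ∀ d, |∏ i, R i e (Gm c0 h e ω0) y d| ≤ 1 := fun d => by
      rw [Finset.abs_prod]
      exact Finset.prod_le_one (fun _ _ => abs_nonneg _) fun i _ => hR1 _ _ _ _ _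
    have h13 := av_round h e (Yn c0 e ω0).1 h12
    have h14 : flr (e - h) (Yn c0 e ω0).1 = (Gm c0 h e ω0).1 := rfl
    rw [h14] at h13
    have h15 := abs_sub_abs_le_abs_sub
      (av e (Gm c0 h e ω0).1 (fun d => ∏ i, R i e (Gm c0 h e ω0) y d))
      (av e (Yn c0 e ω0).1 (fun d => ∏ i, R i e (Gm c0 h e ω0) y d))
    rw [abs_sub_comm] at h13
    show s ≤ |av e (Yn c0 e ω0).1 (fun d => ∏ i, R i e (Gm c0 h e ω0) y d)|
    linarith

/-- **node form of the transfer of coldness, natural class** -/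
theorem node_transfer_nat {S : Finset ι} {x : ι} (hxS : x ∉ S) {o : Fin n → ι} (ho : Function.Injective o)
    (hS : ∀ j, j ∈ S ↔ j ∉ Set.range o) {e r0 r h : ℕ} (he : e ≤ N) (hN : N ≤ k) (hr0 : r0 ≤ e) (hr : r ≤ r0)
    (hrh : r ≤ e - (h + 3))
    {R : ι → Fam k ι P} (hR : ∀ l, FOn ({l}ᶜ : Set ι) (R l)) (hR1 : ∀ l, FLe 1 (R l)) {q : ℕ}
    {B Hot : Sq k N ι Θ P → Prop} {s ρ δ : ℝ} (hs : 0 < s) (hδ0 : 0 ≤ δ)
    (hB : ∀ ω, B ω → s + 2 * ((2 : ℝ) ^ h)⁻¹ ≤ |av e (Gm c0 h e ω).1 (fun d => ∏ i, R i e (Gm c0 h e ω) (vs ω) d)|)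
    (hHot : ∀ ω, ¬ Hot ω → TS c0 h R S o q (e, fun _ => r0) ω ≤ ρ) (hδ : ρ ≤ (s ^ (2 * q) * δ) ^ (2 ^ n))
    (ω : Sq k N ι Θ P) :
    Pm.ce (Yk x (insert x S) e r) (fun v => ind (B v ∧ ¬ Hot v)) ω ≤
      Fintype.card ι * (2 * (2 ^ (r0 - r)) ^ (n - 1) * δ) := by
  classical
  have hek : e ≤ k := he.trans hN
  have hP : (0 : ℝ) < (Fintype.card P : ℝ) := Nat.cast_pos.mpr Fintype.card_pos
  rw [ce_Yk (Finset.mem_insert_self x S) he hN]
  set z := (Zn x e ω).1 with hz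
  set A := AZ (P := P) (insert x S) r ω with hA
  have hAY : AY x (insert x S) e r ω = Function.update A x (WN e z) := rfl
  rw [hAY]
  set F : (ι → P × V k) → ℝ := fun y => ind (B (rep x e he ω y) ∧ ¬ Hot (rep x e he ω y)) with hF
  set T := 2 ^ (e - r0) + (if r0 = 0 then 0 else 1) with hT
  set M := Fintype.card ι with hM
  -- options of the rounded node
  have hopt : ∀ y ∈ Fintype.piFinset (Function.update A x (WN e z)),
      F y ≤ ∑ a ∈ range M, ind ((B (rep x e he ω y) ∧ ¬ Hot (rep x e he ω y)) ∧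
        Gm c0 h e (rep x e he ω y) = gop c0 x h e a ω) := by
    intro y hy
    rw [mem_pi_update, mem_WN] at hy
    obtain ⟨a, ha, h2⟩ := opts c0 x h hek (ω := ω) (v := rep x e he ω y) (Zn_rep x he ω y hy.1) (fun l hl => by
      have h3 := hy.2 l hl
      rw [hA] at h3
      unfold AZ at h3
      show flr (e - (h + 3)) (y l).2 = flr (e - (h + 3)) (vx l ω).2
      by_cases hlS : l ∈ insert x S
      · rw [if_pos hlS, Finset.mem_singleton] at h3
        rw [h3]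
      · rw [if_neg hlS, mem_CL] at h3
        exact flr_mono_eq hrh h3)
    refine le_trans ?_ (Finset.single_le_sum (f := fun a => ind ((B (rep x e he ω y) ∧ ¬ Hot (rep x e he ω y)) ∧
        Gm c0 h e (rep x e he ω y) = gop c0 x h e a ω)) (fun a _ => ind_nonneg _) ha)
    exact ind_mono fun h4 => ⟨h4, h2⟩
  -- cells of the hidden vertex
  have hcell : ∀ a, ∑ y ∈ Fintype.piFinset (Function.update A x (WN e z)),
      ind ((B (rep x e he ω y) ∧ ¬ Hot (rep x e he ω y)) ∧ Gm c0 h e (rep x e he ω y) = gop c0 x h e a ω) ≤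
      T * (δ * ((Fintype.card P : ℝ) * 2 ^ r0) ^ n) := by
    intro a
    refine (sum_pi_cover A x (WN e z) (range T) (fun t => CL r0 (z - ((t * 2 ^ r0 : ℕ) : V k))) (fun y hy => ?_)
      (fun y => ind_nonneg _)).trans ?_
    · rw [mem_WN] at hy
      obtain ⟨t, ht, h3⟩ := win_cover hr0 hek z _ hy
      refine ⟨t, ht, ?_⟩
      rw [mem_CL, ← h3]
      congr 1
      simp
    · refine (Finset.sum_le_sum fun t _ => nat_block c0 hxS ho hS he hN hr0 hr hR hR1 hs hδ0 hB hHot hδ ω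
        (z - ((t * 2 ^ r0 : ℕ) : V k)) (gop c0 x h e a ω)).trans (le_of_eq ?_)
      rw [Finset.sum_const, card_range, nsmul_eq_mul]
  have htot : ∑ y ∈ Fintype.piFinset (Function.update A x (WN e z)), F y ≤
      M * (T * (δ * ((Fintype.card P : ℝ) * 2 ^ r0) ^ n)) := by
    refine (Finset.sum_le_sum hopt).trans ?_
    rw [Finset.sum_comm]
    refine (Finset.sum_le_sum fun a _ => hcell a).trans (le_of_eq ?_)
    rw [Finset.sum_const, card_range, nsmul_eq_mul]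
  -- the number of points of the class
  obtain ⟨i0, hi0⟩ : x ∈ Set.range o := by
    by_contra h2
    exact hxS ((hS x).2 h2)
  have hn : 1 ≤ n := Nat.one_le_iff_ne_zero.2 fun h2 => by
    subst h2
    exact i0.elim0
  have hcardA : ∏ l ∈ univ.erase x, ((A l).card : ℝ) = ((Fintype.card P : ℝ) * 2 ^ r) ^ (n - 1) := by
    have h2 : ∀ l ∈ univ.erase x, ((A l).card : ℝ) = if l ∈ S then 1 else (Fintype.card P : ℝ) * 2 ^ r := by
      intro l hl
      have hlx := Finset.ne_of_mem_erase hl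
      rw [hA]
      unfold AZ
      by_cases hlS : l ∈ S
      · rw [if_pos (Finset.mem_insert_of_mem hlS), if_pos hlS, Finset.card_singleton, Nat.cast_one]
      · rw [if_neg (by rw [Finset.mem_insert]; exact fun h3 => h3.elim hlx hlS), if_neg hlS]
        have h4 := GMC.card_CL (P := P) (hr.trans (hr0.trans hek)) (vx l ω).2
        rw [h4]
        push_cast
        rfl
    rw [Finset.prod_congr rfl h2, Finset.prod_ite, Finset.prod_const_one, one_mul, Finset.prod_const]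
    congr 1
    have h3 : (univ.erase x).filter (fun l => l ∉ S) = (univ.erase i0).image o := by
      ext l
      rw [Finset.mem_filter, Finset.mem_erase, Finset.mem_image]
      constructor
      · rintro ⟨⟨hlx, -⟩, hlS⟩
        have h4 : l ∈ Set.range o := by
          by_contra h5
          exact hlS ((hS l).2 h5)
        obtain ⟨i, rfl⟩ := h4
        refine ⟨i, Finset.mem_erase.2 ⟨fun h6 => hlx ?_, Finset.mem_univ i⟩, rfl⟩
        rw [h6, hi0]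
      · rintro ⟨i, hi, rfl⟩
        refine ⟨⟨fun h6 => (Finset.ne_of_mem_erase hi) (ho (h6.trans hi0.symm)), Finset.mem_univ _⟩,
          fun h6 => (hS _).1 h6 ⟨i, rfl⟩⟩
    rw [h3, Finset.card_image_of_injective _ ho, Finset.card_erase_of_mem (Finset.mem_univ i0), Finset.card_univ,
      Fintype.card_fin]
  have hcard : ((Fintype.piFinset (Function.update A x (WN e z))).card : ℝ) =
      (Fintype.card P : ℝ) * 2 ^ e * ((Fintype.card P : ℝ) * 2 ^ r) ^ (n - 1) := by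
    rw [card_pi_update, card_WN hek, hcardA]
  have hpos : (0 : ℝ) < (Fintype.card P : ℝ) * 2 ^ e * ((Fintype.card P : ℝ) * 2 ^ r) ^ (n - 1) := by positivity
  rw [hcard, inv_mul_le_iff₀ hpos]
  refine htot.trans ?_
  have hT2 : (T : ℝ) * 2 ^ r0 ≤ 2 * 2 ^ e := by
    have h3 : (2 : ℝ) ^ (e - r0) * 2 ^ r0 = 2 ^ e := by rw [← pow_add, Nat.sub_add_cancel hr0]
    rw [hT]
    push_cast
    have h4 : (2 : ℝ) ^ r0 ≤ 2 ^ e := pow_le_pow_right₀ (by norm_num) hr0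
    split_ifs
    · rw [add_zero, h3]
      linarith [pow_pos (show (0 : ℝ) < 2 by norm_num) e]
    · rw [add_mul, h3, one_mul]
      linarith
  obtain ⟨n', rfl⟩ : ∃ n', n = n' + 1 := ⟨n - 1, by omega⟩
  rw [Nat.add_sub_cancel]
  have h6 : (2 : ℝ) ^ r0 = 2 ^ (r0 - r) * 2 ^ r := by rw [← pow_add, Nat.sub_add_cancel hr]
  have h7 : ((Fintype.card P : ℝ) * 2 ^ r0) ^ n' = ((2 : ℝ) ^ (r0 - r)) ^ n' * ((Fintype.card P : ℝ) * 2 ^ r) ^ n' := by
    rw [← mul_pow, h6]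
    congr 1
    ring
  calc (M : ℝ) * (T * (δ * ((Fintype.card P : ℝ) * 2 ^ r0) ^ (n' + 1))) =
        (T * 2 ^ r0) * (M * (δ * (((Fintype.card P : ℝ) * 2 ^ r0) ^ n' * (Fintype.card P : ℝ)))) := by
        rw [pow_succ]
        ring
    _ ≤ (2 * 2 ^ e) * (M * (δ * (((Fintype.card P : ℝ) * 2 ^ r0) ^ n' * (Fintype.card P : ℝ)))) :=
        mul_le_mul_of_nonneg_right hT2 (by positivity)
    _ = _ := by
        rw [h7]
        ring

/-- ALL TIMES: the probability that a natural class is hot at some time; `D` bounds the difference of the scales of the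
node and of the view -/
theorem nat_cold_of_node {S : Finset ι} {x : ι} (hxS : x ∉ S) {o : Fin n → ι} (ho : Function.Injective o)
    (hS : ∀ j, j ∈ S ↔ j ∉ Set.range o) (hN : N ≤ k) {h hh D : ℕ} (hle : h ≤ hh)
    {R : ι → Fam k ι P} (hR : ∀ l, FOn ({l}ᶜ : Set ι) (R l)) (hR1 : ∀ l, FLe 1 (R l)) {q : ℕ} {r0 : ℕ → ℕ}
    (hr0 : ∀ t, r0 t ≤ ex N t) (hr1 : ∀ t, ex N t - (hh + 3) ≤ r0 t) (hD : ∀ t, r0 t - (ex N t - (hh + 3)) ≤ D)
    {H : ℕ → Sq k N ι Θ P → Prop} {e : ℝ}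
    (hinc : ∀ t ω, H t ω → H (t + 1) ω) (hm : (Pm : FP (Sq k N ι Θ P)).Pr (H N) ≤ e) {r s' ρ δ σ : ℝ}
    (hs' : 0 < s') (hδ0 : 0 ≤ δ) (hσ : 0 < σ) (hr : s' + 4 * ((2 : ℝ) ^ h)⁻¹ ≤ r)
    (hH : ∀ t, 1 ≤ t → t ≤ N → ∀ ω : Sq k N ι Θ P, ¬ H t ω → TS c0 h R S o q (ex N t, fun _ => r0 t) ω ≤ ρ)
    (hδ : ρ ≤ (s' ^ (2 * q) * δ) ^ (2 ^ n)) :
    (Pm : FP (Sq k N ι Θ P)).Pr (fun ω => ∃ t ≤ N, 1 ≤ t ∧
      Fintype.card ι * (2 * (2 ^ D) ^ (n - 1) * δ) + σ <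
        Pm.ce (Nk x S hh (ex N t)) (fun v => ind (r ≤ |TT c0 h R (ex N t) v|)) ω) ≤ e / σ := by
  rw [le_div_iff₀ hσ, mul_comm]
  refine le_trans ?_ ((FP.doob_inc (Pm : FP (Sq k N ι Θ P)) (X := fun t ω => Nk x S hh (ex N t) ω) (D := H)
    (filt_Nk x S hh) (fun t w _ h => hinc t w h) N σ).trans hm)
  refine mul_le_mul_of_nonneg_left (FP.Pr_mono _ fun ω _ => ?_) hσ.le
  rintro ⟨t, ht, h1, h2⟩
  refine ⟨t, ht, ?_⟩
  by_contra hcon
  rw [not_le] at hcon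
  have h3 := node_transfer_nat c0 hxS ho hS (e := ex N t) (r0 := r0 t) (r := ex N t - (hh + 3)) (h := h)
    (Nat.sub_le _ _) hN (hr0 t) (hr1 t) (by omega) hR hR1 (q := q) (B := fun v => r ≤ |TT c0 h R (ex N t) v|)
    (Hot := H t) hs' hδ0 (fun v hv => round_TT c0 hR1 (hr.trans hv)) (fun v hv => hH t h1 ht v hv) hδ ω
  have h4 : Pm.ce (Nk x S hh (ex N t)) (fun v => ind (r ≤ |TT c0 h R (ex N t) v|)) ω ≤
      Pm.ce (Nk x S hh (ex N t)) (fun v => ind (r ≤ |TT c0 h R (ex N t) v| ∧ ¬ H t v)) ω +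
      Pm.ce (Nk x S hh (ex N t)) (fun v => ind (H t v)) ω := by
    rw [← FP.ce_add]
    refine FP.ce_mono _ (fun v _ => ?_) ω
    by_cases hv : r ≤ |TT c0 h R (ex N t) v|
    · by_cases hHv : H t v
      · rw [ind_of hv, ind_of hHv]
        linarith [ind_nonneg (r ≤ |TT c0 h R (ex N t) v| ∧ ¬ H t v)]
      · rw [ind_of hv, ind_of (show r ≤ |TT c0 h R (ex N t) v| ∧ ¬ H t v from ⟨hv, hHv⟩)]
        linarith [ind_nonneg (H t v)]
    · rw [ind_not hv]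
      exact add_nonneg (ind_nonneg _) (ind_nonneg _)
  have h5 : ((2 : ℝ) ^ (r0 t - (ex N t - (hh + 3)))) ^ (n - 1) ≤ (2 ^ D) ^ (n - 1) :=
    pow_le_pow_left₀ (by positivity) (pow_le_pow_right₀ (by norm_num) (hD t)) _
  have h6 : (Fintype.card ι : ℝ) * (2 * (2 ^ (r0 t - (ex N t - (hh + 3)))) ^ (n - 1) * δ) ≤
      Fintype.card ι * (2 * (2 ^ D) ^ (n - 1) * δ) := by
    refine mul_le_mul_of_nonneg_left ?_ (Nat.cast_nonneg _)
    exact mul_le_mul_of_nonneg_right (mul_le_mul_of_nonneg_left h5 (by norm_num)) hδ0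
  have h7 : Pm.ce (Nk x S hh (ex N t)) (fun v => ind (r ≤ |TT c0 h R (ex N t) v| ∧ ¬ H t v)) ω ≤
      Fintype.card ι * (2 * (2 ^ D) ^ (n - 1) * δ) := h3.trans h6
  have h8 : Pm.ce (Nk x S hh (ex N t)) (fun v => ind (H t v)) ω < σ := hcon
  linarith

end

/-! ## the pair, theorem C2 -/

open Pool.Agent.GMC (Enu oth oth_inj oth_range insU insU_H c2_main Qb cf cf_macro)

noncomputable section

/-- **THE PAIR `a`, `b` IN THE NATURAL VIEW OF EVERY OTHER VERTEX `x`**, rounding `hh ≥ h'` of the view -/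
theorem nat_cold_pair (n : ℕ) : ∃ C : ℝ, 0 < C ∧ ∃ c : ℕ, ∀ {k N : ℕ} {ι : Type} [Fintype ι] [DecidableEq ι]
    {a b x : ι} (_ : a ≠ b) (_ : x ≠ a) (_ : x ≠ b) (_o : Enu n a b) (s : V k) {h h' hh q : ℕ} {p : ℝ}
    {R : ι → Fam k ι Unit}
    (_ : N ≤ k) (_ : 4 * n ≤ 2 ^ (h' + 3)) (_ : h ≤ h') (_ : h' ≤ hh)
    (_ : ∀ i, FOn ({i}ᶜ : Set ι) (R i)) (_ : ∀ i, FLe 1 (R i)) {θ r1 B : ℝ} (_ : 0 < θ) (_ : 1 ≤ B) (_ : 0 ≤ r1)
    (_ : PT a h N (R a) θ r1 B) (_ : PT b h N (R b) θ r1 B) (_ : θ * 2 ^ ((h' - h) * (n + 1)) < 1)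
    (_ : nch s h N (R a) ≤ p) (_ : nch s h N (R b) ≤ p)
    {r s' δ σ : ℝ} (_ : 0 < s') (_ : s' ≤ 1) (_ : 0 < δ) (_ : δ ≤ 1) (_ : 0 < σ) (_ : s' + 4 * ((2 : ℝ) ^ h)⁻¹ ≤ r)
    (_ : r1 + 2 * ((2 : ℝ) ^ h)⁻¹ ≤ (s' / 2) ^ (2 ^ n)) (_ : 8 ≤ 4 ^ q * δ),
    (Pm : FP (Sq k N ι Unit Unit)).Pr (fun ω => ∃ t ≤ N, 1 ≤ t ∧
      Fintype.card ι * (2 * (2 ^ (hh - h')) ^ (n - 1) * δ) + σ <
        Pm.ce (Nk x {a, b} hh (ex N t)) (fun v => ind (r ≤ |TT s h R (ex N t) v|)) ω) ≤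
      C * Qb ((s' ^ (2 * q) * δ) ^ (2 ^ n) / 2) p q (2 ^ (h' + 3)) ^ c * (θ * 2 ^ ((h' - h) * (n + 1)) *
        (1 + Real.log (1 / (θ * 2 ^ ((h' - h) * (n + 1)))))) / σ := by
  obtain ⟨C, hC, c, h0⟩ := pair_cold n
  refine ⟨C, hC, c, ?_⟩
  intro k N ι _ _ a b x hab hxa hxb o s h h' hh q p R hN hn hh' hhh hR hR1 θ r1 B hθ hB hr1 hPa hPb hth hpa hpb
    r s' δ σ hs0 hs1 hδ0 hδ1 hσ hr he hq
  have heps : 0 ≤ r1 + 2 * ((2 : ℝ) ^ h)⁻¹ := by positivity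
  have hnum := kernel_num n hs0 hδ0 heps he hq
  have hq1 : 1 ≤ q := by
    by_contra hcon
    have : q = 0 := by omega
    rw [this, pow_zero, one_mul] at hq
    linarith
  have hle : (s' ^ (2 * q) * δ) ^ (2 ^ n) / 2 ≤ 1 := by
    have h1 : s' ^ (2 * q) * δ ≤ 1 := mul_le_one₀ (pow_le_one₀ hs0.le hs1) hδ0.le hδ1
    have h2 : (s' ^ (2 * q) * δ) ^ (2 ^ n) ≤ 1 := pow_le_one₀ (by positivity) h1
    linarith
  have hPr := h0 hab o s hN hn hh' hq1 hR hR1 hθ hB hr1 hPa hPb hth hnum hle hpa hpb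
  have hxS : x ∉ ({a, b} : Finset ι) := by
    rw [Finset.mem_insert, Finset.mem_singleton]
    exact fun h => h.elim hxa hxb
  refine nat_cold_of_node s hxS (o := oth o) (oth_inj o) (oth_range o) hN (hh'.trans hhh) hR hR1 (q := q)
    (r0 := fun t => N - t - (h' + 3)) (D := hh - h') (fun t => ?_) (fun t => ?_) (fun t => ?_)
    (H := fun t ω => HotP s h R o q (h' + 3) ((s' ^ (2 * q) * δ) ^ (2 ^ n) / 2) t ω)
    (fun t ω hω => HotP_mono s (Nat.le_succ t) hω) hPr (s' := s')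
    (ρ := 2 * ((s' ^ (2 * q) * δ) ^ (2 ^ n) / 2)) hs0 hδ0.le hσ hr ?_ (le_of_eq (by ring))
  · unfold ex; omega
  · unfold ex; omega
  · unfold ex; omega
  · intro t h1 ht ω hω
    by_contra hcon
    refine hω ⟨(n + 1) * t, le_rfl, ?_⟩
    rw [cf_macro]
    exact (not_le.mp hcon).le

/-- AT MOST ONE VERTEX `j` KNOWN, natural view of `x ≠ j`, rounding `hh ≥ h0` of the view: rarity, at every point -/
theorem nat_cold_single {k N : ℕ} {ι : Type} [Fintype ι] [DecidableEq ι] (s : V k) {x j : ι} (hj : j ≠ x)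
    {S : Finset ι} (hS : S ⊆ {j}) {h0 hh e : ℕ} (he : e ≤ N) (hN : N ≤ k) (hle : h0 ≤ hh)
    {R : ι → Fam k ι Unit} {θ r1 r B : ℝ} (hθ : 0 ≤ θ) (hr1 : 0 ≤ r1) (hPT : PT j h0 N (R j) θ r1 B)
    (hR : ∀ l, FOn ({l}ᶜ : Set ι) (R l)) (hB : ∀ j, FLe B (R j))
    (hr : 2 * (r1 + 2 * B ^ Fintype.card ι * ((2 : ℝ) ^ h0)⁻¹) ≤ r) (w : Sq k N ι Unit Unit) :
    Pm.ce (Nk x S hh e) (fun v => ind (r ≤ |TT s h0 R e v|)) w ≤
      Fintype.card ι * (9 / 8 * (θ * (2 ^ (hh - h0)) ^ Fintype.card ι)) := by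
  have hm : 0 < Fintype.card ι := Fintype.card_pos_iff.mpr ⟨x⟩
  have hB0 : 0 ≤ B := (abs_nonneg _).trans (hB x 0 (0, 0) (fun _ => ((), 0)) 0)
  have g0 := PT_fine hle hN hθ hB0 (hB j) hPT
  have hBB : B * B ^ (Fintype.card ι - 1) = B ^ Fintype.card ι := by
    rw [← pow_succ', Nat.sub_add_cancel hm]
  rw [hBB] at g0
  have hpow2 : ((2 : ℝ) ^ hh)⁻¹ ≤ ((2 : ℝ) ^ h0)⁻¹ :=
    inv_anti₀ (by positivity) (pow_le_pow_right₀ (by norm_num) hle)
  have hU : insert x S ⊆ {x, j} := by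
    intro l hl
    rw [Finset.mem_insert] at hl ⊢
    rcases hl with h | h
    · exact Or.inl h
    · exact Or.inr (hS h)
  have g1 := TT_Yk s (i := x) (j := j) hj (Finset.mem_insert_self x S) hU (h := hh) he hN (R := fun j => fine h0 (R j))
    (θ := θ * (2 ^ (hh - h0)) ^ Fintype.card ι) (r := r1 + 2 * B ^ Fintype.card ι * ((2 : ℝ) ^ h0)⁻¹) (H := B)
    (by positivity) (fun l => fun e g => hR l e _) (fun l => fun e g x d => hB l e _ _ _) g0
    (by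
      have h7 : 2 * B ^ Fintype.card ι * ((2 : ℝ) ^ hh)⁻¹ ≤ 2 * B ^ Fintype.card ι * ((2 : ℝ) ^ h0)⁻¹ :=
        mul_le_mul_of_nonneg_left hpow2 (by positivity)
      linarith) w
  refine le_trans (FP.ce_mono _ (fun v _ => ind_mono fun g3 => ?_) w) g1
  have g4 : TT s hh (fun j => fine h0 (R j)) e v = TT s h0 R e v := TT_fine s hle _ _ _
  rw [g4]
  exact hr.trans g3

end

end Pool.Agent.GM
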