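import Pool.Agent.GM.CMColdNum
import Pool.Agent.GM.CMDef
import Pool.Agent.GM.PieceX3
import Pool.Agent.GMM.SqCold

/-!
# GM/CMCold: the cold sets of the proper subsets with at most two vertices, moving faces, natural view (row A10c, helper18)

Inputs `cold` of theorem CM (`GMM.coldM`): faces `GS.FacesC` (the known face `F w` arbitrary, the others rare), coin free.
* `E_Th`, `ce_Th`, `Pr_Th` : fixed public randomness; `prQ`, `ce_prQ`, `Pr_prQ` : forget a part of the private randomness;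
* `pairP` : the hot event of the pair, families with private randomness; `natPairP`, `natSingleP` : natural class;
* `cold_fam` : families; **`cmCold_gen`**, **`cmCold`** : the faces `FacesC`.
-/

set_option autoImplicit false
set_option linter.unusedSectionVars false

namespace Pool.Agent.GM

open Finset Pool.Agent.PWZ Pool.Agent.M3 Pool.Agent.M3.TS Pool.Agent.M3.Bin Pool.Agent.GM.KVer
open Pool.Agent.GMC (Enu oth oth_inj oth_range insU c2_main Qb cf cf_macro Pu PTc PTm chg FmA FmB famS pq fv_famS brI brH)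
open Pool.Agent.M3.Mod (nd av)

noncomputable section

/-! ## fixed public randomness -/

section th

variable {k N : ℕ} {ι Θ P : Type} [Fintype ι] [DecidableEq ι] [Fintype Θ] [Nonempty Θ] [Fintype P] [Nonempty P]

theorem E_Th (f : Sq k N ι Θ P → ℝ) : (Pm : FP (Sq k N ι Θ P)).E f =
    ∑ θ, (Fintype.card Θ : ℝ)⁻¹ * (Pm : FP (Sq k N ι Unit P)).E (fun v => f (θ, v.2)) := by
  unfold Pm
  have h1 : ∀ θ : Θ, (FP.unif (Sq k N ι Unit P)).E (fun v => f (θ, v.2)) =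
      (∑ y : (ι → P × V k) × Fin (2 ^ N), f (θ, y)) / Fintype.card ((ι → P × V k) × Fin (2 ^ N)) := by
    intro θ
    rw [FP.unif_E]
    have h2 : ∑ v : Sq k N ι Unit P, f (θ, v.2) = ∑ y : (ι → P × V k) × Fin (2 ^ N), f (θ, y) := by
      show ∑ v : Unit × ((ι → P × V k) × Fin (2 ^ N)), f (θ, v.2) = _
      rw [Fintype.sum_prod_type, Finset.univ_unique, Finset.sum_singleton]
    have h3 : Fintype.card (Sq k N ι Unit P) = Fintype.card ((ι → P × V k) × Fin (2 ^ N)) := by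
      show Fintype.card (Unit × ((ι → P × V k) × Fin (2 ^ N))) = _
      rw [Fintype.card_prod, Fintype.card_unit, one_mul]
    rw [h2, h3]
  rw [Finset.sum_congr rfl fun θ _ => by rw [h1 θ], FP.unif_E]
  show (∑ v : Θ × ((ι → P × V k) × Fin (2 ^ N)), f v) / (Fintype.card (Θ × ((ι → P × V k) × Fin (2 ^ N))) : ℝ) = _
  rw [Fintype.sum_prod_type, Fintype.card_prod, Finset.sum_div]
  refine Finset.sum_congr rfl fun θ _ => ?_
  have h4 : (Fintype.card Θ : ℝ) ≠ 0 := Nat.cast_ne_zero.mpr Fintype.card_ne_zero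
  have h5 : (Fintype.card ((ι → P × V k) × Fin (2 ^ N)) : ℝ) ≠ 0 := by
    have : Nonempty (Fin (2 ^ N)) := ⟨⟨0, by positivity⟩⟩
    exact Nat.cast_ne_zero.mpr Fintype.card_ne_zero
  rw [Nat.cast_mul]
  field_simp

/-- a bound for every value of the public randomness -/
theorem Pr_Th_le {A : Sq k N ι Θ P → Prop} {x : ℝ}
    (h : ∀ θ, (Pm : FP (Sq k N ι Unit P)).Pr (fun v => A (θ, v.2)) ≤ x) : (Pm : FP (Sq k N ι Θ P)).Pr A ≤ x := by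
  have h4 : (Fintype.card Θ : ℝ) ≠ 0 := Nat.cast_ne_zero.mpr Fintype.card_ne_zero
  have h1 : (Pm : FP (Sq k N ι Θ P)).Pr A =
      ∑ θ, (Fintype.card Θ : ℝ)⁻¹ * (Pm : FP (Sq k N ι Unit P)).Pr (fun v => A (θ, v.2)) := E_Th fun v => ind (A v)
  rw [h1]
  refine (Finset.sum_le_sum fun θ _ => mul_le_mul_of_nonneg_left (h θ) (by positivity)).trans (le_of_eq ?_)
  rw [Finset.sum_const, Finset.card_univ, nsmul_eq_mul, ← mul_assoc, mul_inv_cancel₀ h4, one_mul]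

/-- the class knows the public randomness -/
theorem ce_Th {κ κ' : Type*} {X : Sq k N ι Θ P → κ} {Y : Sq k N ι Unit P → κ'}
    (hX : ∀ v w : Sq k N ι Θ P, X v = X w ↔ (v.1 = w.1 ∧ Y ((), v.2) = Y ((), w.2))) (f : Sq k N ι Θ P → ℝ)
    (ω : Sq k N ι Θ P) : Pm.ce X f ω = Pm.ce Y (fun v => f (ω.1, v.2)) ((), ω.2) := by
  classical
  have hc : (Fintype.card Θ : ℝ) ≠ 0 := Nat.cast_ne_zero.mpr Fintype.card_ne_zero
  have key : ∀ g : Sq k N ι Θ P → ℝ, (Pm : FP (Sq k N ι Θ P)).E (fun v => ind (X v = X ω) * g v) =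
      (Fintype.card Θ : ℝ)⁻¹ * (Pm : FP (Sq k N ι Unit P)).E (fun v => ind (Y v = Y ((), ω.2)) * g (ω.1, v.2)) := by
    intro g
    rw [E_Th, Finset.sum_eq_single ω.1]
    · congr 1
      refine FP.E_congr _ fun v _ => ?_
      congr 1
      refine congrArg ind (propext ?_)
      rw [hX]
      exact ⟨fun h => h.2, fun h => ⟨rfl, h⟩⟩
    · intro θ _ hθ
      rw [FP.E_congr (g := fun _ => 0), FP.E_const, mul_zero]
      intro v _
      have h1 : ¬ (X (θ, v.2) = X ω) := fun h => hθ ((hX _ _).1 h).1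
      rw [ind_not h1, zero_mul]
    · exact fun h => absurd (Finset.mem_univ _) h
  unfold FP.ce FP.m
  rw [key]
  have h4 := key fun _ => 1
  simp only [mul_one] at h4
  rw [h4, mul_div_mul_left _ _ (inv_ne_zero hc)]

/-- the natural class, fixed public randomness -/
theorem ce_KJ_Th (i : ι) (hh : ℕ) (J : Finset {j : ι // j ≠ i}) (e : ℕ) (f : Sq k N ι Θ P → ℝ) (ω : Sq k N ι Θ P) :
    Pm.ce (KJ i hh J e) f ω = Pm.ce (KJ i hh J e) (fun v : Sq k N ι Unit P => f (ω.1, v.2)) ((), ω.2) := by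
  refine ce_Th (fun v w => ?_) f ω
  rw [KJ_eq, KJ_eq, Qn_eq, Qn_eq]
  constructor
  · rintro ⟨h1, h2, h3, h4⟩
    exact ⟨h2, h1, rfl, h3, h4⟩
  · rintro ⟨h2, h1, -, h3, h4⟩
    exact ⟨h1, h2, h3, h4⟩

end th

/-! ## forget a part of the private randomness -/

section forget

variable {k N : ℕ} {ι Θ P1 Q R1 : Type} [Fintype ι] [DecidableEq ι]

/-- forget a part of the private randomness -/
def prQ (ψ : P1 ≃ Q × R1) (w : Sq k N ι Θ P1) : Sq k N ι Θ Q :=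
  (w.1, fun j => ((ψ (w.2.1 j).1).1, (w.2.1 j).2), w.2.2)

/-- the sample space is a product -/
def eQ (ψ : P1 ≃ Q × R1) : Sq k N ι Θ P1 ≃ Sq k N ι Θ Q × (ι → R1) where
  toFun w := (prQ ψ w, fun j => (ψ (w.2.1 j).1).2)
  invFun q := (q.1.1, fun j => (ψ.symm ((q.1.2.1 j).1, q.2 j), (q.1.2.1 j).2), q.1.2.2)
  left_inv w := by
    refine Prod.ext rfl (Prod.ext (funext fun j => ?_) rfl)
    show (ψ.symm ((ψ (w.2.1 j).1).1, (ψ (w.2.1 j).1).2), (w.2.1 j).2) = w.2.1 j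
    rw [Prod.mk.eta, Equiv.symm_apply_apply]
  right_inv q := by
    refine Prod.ext (Prod.ext rfl (Prod.ext (funext fun j => ?_) rfl)) (funext fun j => ?_)
    · show ((ψ (ψ.symm ((q.1.2.1 j).1, q.2 j))).1, (q.1.2.1 j).2) = q.1.2.1 j
      rw [Equiv.apply_symm_apply]
    · show (ψ (ψ.symm ((q.1.2.1 j).1, q.2 j))).2 = q.2 j
      rw [Equiv.apply_symm_apply]

theorem Qn_prQ {ψ : P1 ≃ Q × R1} {i : ι} {h e : ℕ} {v w : Sq k N ι Θ P1} :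
    Qn i h e (prQ ψ v) = Qn i h e (prQ ψ w) ↔ Qn i h e v = Qn i h e w := by
  rw [Qn_eq, Qn_eq]
  exact Iff.rfl

theorem vx_prQ {ψ : P1 ≃ Q × R1} {v w : Sq k N ι Θ P1} {j : ι} (h1 : vx j (prQ ψ v) = vx j (prQ ψ w))
    (h2 : (ψ (v.2.1 j).1).2 = (ψ (w.2.1 j).1).2) : vx j v = vx j w := by
  unfold vx prQ at h1
  simp only [Prod.mk.injEq] at h1
  refine Prod.ext (ψ.injective (Prod.ext h1.1 h2)) h1.2

variable [Fintype Θ] [Nonempty Θ] [Fintype P1] [Nonempty P1] [Fintype Q] [Nonempty Q] [Fintype R1] [Nonempty R1]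

theorem Pr_prQ (ψ : P1 ≃ Q × R1) (B : Sq k N ι Θ Q → Prop) :
    (Pm : FP (Sq k N ι Θ P1)).Pr (fun w => B (prQ ψ w)) = (Pm : FP (Sq k N ι Θ Q)).Pr B :=
  unif_Pr_fst (eQ ψ) B

theorem ce_prQ (ψ : P1 ≃ Q × R1) (i : ι) (hh : ℕ) (J : Finset {j : ι // j ≠ i}) (e : ℕ) (f : Sq k N ι Θ Q → ℝ)
    (w : Sq k N ι Θ P1) : Pm.ce (KJ i hh J e) (fun v => f (prQ ψ v)) w = Pm.ce (KJ i hh J e) f (prQ ψ w) := by
  refine ce_forget (eQ ψ) (X := KJ i hh J e) (Y := KJ i hh J e) ?_ ?_ f w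
  · intro v w h
    rw [KJ_eq] at h
    show KJ i hh J e (prQ ψ v) = KJ i hh J e (prQ ψ w)
    rw [KJ_eq]
    refine ⟨fun a ha => ?_, Qn_prQ.2 h.2⟩
    have h1 : v.2.1 a.1 = w.2.1 a.1 := h.1 a ha
    show ((ψ (v.2.1 a.1).1).1, (v.2.1 a.1).2) = ((ψ (w.2.1 a.1).1).1, (w.2.1 a.1).2)
    rw [h1]
  · intro v w h
    have h1 : KJ i hh J e (prQ ψ v) = KJ i hh J e (prQ ψ w) := congrArg Prod.fst h
    have h2 : (fun j => (ψ (v.2.1 j).1).2) = fun j => (ψ (w.2.1 j).1).2 := congrArg Prod.snd h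
    rw [KJ_eq] at h1 ⊢
    exact ⟨fun a ha => vx_prQ (h1.1 a ha) (congrFun h2 a.1), Qn_prQ.1 h1.2⟩

end forget

/-! ## the pair and one vertex, families with private randomness -/

section fam

/-- product tests of one coin-free family -/
theorem PTm_toPT {k N : ℕ} {ι P : Type} [Fintype ι] [DecidableEq ι] [Fintype P] {a : ι} {h : ℕ} {R : Fam k ι P} {θ r : ℝ}
    (hPT : PTm (fun _ : Unit => (1 : ℝ)) a h N (fun _ => R) θ r) : PT a h N R θ r 1 := by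
  intro e he g hg c v hv hv1
  have h1 := hPT e he g c v hv hv1
  have h2 : coar h e g = g := Prod.ext hg rfl
  rw [Finset.univ_unique, Finset.sum_singleton, one_mul, h2] at h1
  exact h1

/-- **the hot event of the pair**, one family for each face, private randomness -/
theorem pairP (n : ℕ) : ∃ C : ℝ, 0 < C ∧ ∃ c : ℕ, ∀ {k N : ℕ} {ι P : Type} [Fintype ι] [DecidableEq ι] [Fintype P]
    [Nonempty P] {a b : ι} (_ : a ≠ b) (o : Enu n a b) (s : V k) {h q : ℕ} {r p : ℝ} {R : ι → Fam k ι P}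
    (_ : N ≤ k) (_ : 4 * n ≤ 2 ^ (h + 3)) (_ : 1 ≤ q)
    (_ : ∀ i, FOn ({i}ᶜ : Set ι) (R i)) (_ : ∀ i, FLe 1 (R i)) {tt eps0 : ℝ} (_ : 0 < tt) (_ : tt < 1) (_ : 0 ≤ eps0)
    (_ : PTc (fun _ : Unit => (1 : ℝ)) h N (fun _ => FmA o s h (R b)) tt eps0)
    (_ : PTc (fun _ : Unit => (1 : ℝ)) h N (fun _ => FmB o s h (R a)) tt eps0)
    (_ : 4 * eps0 ^ (2 * q) ≤ r) (_ : 0 < r) (_ : r ≤ 1)
    (_ : chg N Unit P s h (fun _ : Unit => (1 : ℝ)) (fun _ => R a) ≤ p)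
    (_ : chg N Unit P s h (fun _ : Unit => (1 : ℝ)) (fun _ => R b) ≤ p) (_ : 0 ≤ p),
    (Pm : FP (Sq k N ι Unit P)).Pr (fun ω => HotP s h R o q (h + 3) r N ω) ≤
      C * Qb r p q (2 ^ (h + 3)) ^ c * (tt * (1 + Real.log (1 / tt))) := by
  classical
  obtain ⟨C, hC, c, h0⟩ := c2_main n
  refine ⟨C, hC, c, ?_⟩
  intro k N ι P _ _ _ _ a b hab o s h q r p R hN hn hq hR hR1 tt eps0 htt htt1 heps hPA hPB hr hr0 hr1 hva hvb hp
  have H : GMC.InsH (insU (P := P) N o s h h (h + 3) q 0 r tt R) p eps0 :=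
    brH (P := P) (RA := fun _ : Unit => R b) (RB := fun _ : Unit => R a) hab o Unit hN s h h (h + 3) q 0
      (fun _ => zero_le_one) (by simp) (fun _ => hR b) (fun _ => hR a) (fun _ => hR1 b) (fun _ => hR1 a)
      (Or.inl fun _ _ => rfl) hPA hPB hvb hva hn le_rfl hq heps hr hr0 hr1 htt htt1 hp
  exact HotP_Pr (Θ := Unit) s hab o (h' := h) (L := 0) (th := tt) hR (h0 _ _ _ H)

/-- **the pair in the natural view of every other vertex** -/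
theorem natPairP (n : ℕ) : ∃ C : ℝ, 0 < C ∧ ∃ c : ℕ, ∀ {k N : ℕ} {ι P : Type} [Fintype ι] [DecidableEq ι] [Fintype P]
    [Nonempty P] {a b x : ι} (_ : a ≠ b) (_ : x ≠ a) (_ : x ≠ b) (_o : Enu n a b) (s : V k) {h hh q : ℕ} {p : ℝ}
    {R : ι → Fam k ι P} (_ : N ≤ k) (_ : 4 * n ≤ 2 ^ (h + 3)) (_ : h ≤ hh)
    (_ : ∀ i, FOn ({i}ᶜ : Set ι) (R i)) (_ : ∀ i, FLe 1 (R i)) {tt eps0 : ℝ} (_ : 0 < tt) (_ : tt < 1) (_ : 0 ≤ eps0)
    (_ : PTm (fun _ : Unit => (1 : ℝ)) a h N (fun _ => R a) tt eps0)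
    (_ : PTm (fun _ : Unit => (1 : ℝ)) b h N (fun _ => R b) tt eps0)
    (_ : chg N Unit P s h (fun _ : Unit => (1 : ℝ)) (fun _ => R a) ≤ p)
    (_ : chg N Unit P s h (fun _ : Unit => (1 : ℝ)) (fun _ => R b) ≤ p) (_ : 0 ≤ p)
    {r s' δ σ : ℝ} (_ : 0 < s') (_ : s' ≤ 1) (_ : 0 < δ) (_ : δ ≤ 1) (_ : 0 < σ) (_ : s' + 4 * ((2 : ℝ) ^ h)⁻¹ ≤ r)
    (_ : eps0 ≤ (s' / 2) ^ (2 ^ n)) (_ : 8 ≤ 4 ^ q * δ),
    (Pm : FP (Sq k N ι Unit P)).Pr (fun ω => ∃ t ≤ N, 1 ≤ t ∧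
      Fintype.card ι * (2 * (2 ^ (hh - h)) ^ (n - 1) * δ) + σ <
        Pm.ce (Nk x {a, b} hh (Mod.ex N t)) (fun v => ind (r ≤ |TT s h R (Mod.ex N t) v|)) ω) ≤
      C * Qb ((s' ^ (2 * q) * δ) ^ (2 ^ n) / 2) p q (2 ^ (h + 3)) ^ c * (tt * (1 + Real.log (1 / tt))) / σ := by
  obtain ⟨C, hC, c, h0⟩ := pairP n
  refine ⟨C, hC, c, ?_⟩
  intro k N ι P _ _ _ _ a b x hab hxa hxb o s h hh q p R hN hn hhh hR hR1 tt eps0 htt htt1 heps hPa hPb hva hvb hp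
    r s' δ σ hs0 hs1 hδ0 hδ1 hσ hr he hq
  have hnum := kernel_num n hs0 hδ0 heps he hq
  have hq1 : 1 ≤ q := by
    by_contra hcon
    have : q = 0 := by omega
    rw [this, pow_zero, one_mul] at hq
    linarith
  have hle : (s' ^ (2 * q) * δ) ^ (2 ^ n) / 2 ≤ 1 := by
    have h1 : s' ^ (2 * q) * δ ≤ 1 := mul_le_one₀ (pow_le_one₀ hs0.le hs1) hδ0.le hδ1
    have h2 : (s' ^ (2 * q) * δ) ^ (2 ^ n) ≤ 1 := pow_le_one₀ (by positivity) h1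
    linarith
  have hPA : PTc (fun _ : Unit => (1 : ℝ)) h N (fun _ => FmA o s h (R b)) tt eps0 := by
    have h1 := hPb.toPTcA (n := n) le_rfl hN hab o s (fun _ => zero_le_one) (fun _ => hR b) htt.le
    rwa [Nat.sub_self, Nat.zero_mul, pow_zero, mul_one] at h1
  have hPB : PTc (fun _ : Unit => (1 : ℝ)) h N (fun _ => FmB o s h (R a)) tt eps0 := by
    have h1 := hPa.toPTcB (n := n) le_rfl hN hab o s (fun _ => zero_le_one) (fun _ => hR a) htt.le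
    rwa [Nat.sub_self, Nat.zero_mul, pow_zero, mul_one] at h1
  have hPr := h0 hab o s hN hn hq1 hR hR1 htt htt1 heps hPA hPB hnum (by positivity) hle hva hvb hp
  have hxS : x ∉ ({a, b} : Finset ι) := by
    rw [Finset.mem_insert, Finset.mem_singleton]
    exact fun h => h.elim hxa hxb
  refine nat_cold_of_node s hxS (o := oth o) (oth_inj o) (oth_range o) hN hhh hR hR1 (q := q)
    (r0 := fun t => N - t - (h + 3)) (D := hh - h) (fun t => ?_) (fun t => ?_) (fun t => ?_)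
    (H := fun t ω => HotP s h R o q (h + 3) ((s' ^ (2 * q) * δ) ^ (2 ^ n) / 2) t ω)
    (fun t ω hω => HotP_mono s (Nat.le_succ t) hω) hPr (s' := s')
    (ρ := 2 * ((s' ^ (2 * q) * δ) ^ (2 ^ n) / 2)) hs0 hδ0.le hσ hr ?_ (le_of_eq (by ring))
  · unfold Mod.ex; omega
  · unfold Mod.ex; omega
  · unfold Mod.ex; omega
  · intro t h1 ht ω hω
    by_contra hcon
    refine hω ⟨(n + 1) * t, le_rfl, ?_⟩
    rw [cf_macro]
    exact (not_le.mp hcon).le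

/-- at most one vertex known -/
theorem natSingleP {k N : ℕ} {ι P : Type} [Fintype ι] [DecidableEq ι] [Fintype P] [Nonempty P] (s : V k) {x j : ι}
    (hj : j ≠ x) {S : Finset ι} (hS : S ⊆ {j}) {h0 hh e : ℕ} (he : e ≤ N) (hN : N ≤ k) (hle : h0 ≤ hh)
    {R : ι → Fam k ι P} {θ r1 r B : ℝ} (hθ : 0 ≤ θ) (hr1 : 0 ≤ r1) (hPT : PT j h0 N (R j) θ r1 B)
    (hR : ∀ l, FOn ({l}ᶜ : Set ι) (R l)) (hB : ∀ j, FLe B (R j))
    (hr : 2 * (r1 + 2 * B ^ Fintype.card ι * ((2 : ℝ) ^ h0)⁻¹) ≤ r) (w : Sq k N ι Unit P) :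
    Pm.ce (Nk x S hh e) (fun v => ind (r ≤ |TT s h0 R e v|)) w ≤
      Fintype.card ι * (9 / 8 * (θ * (2 ^ (hh - h0)) ^ Fintype.card ι)) := by
  have hm : 0 < Fintype.card ι := Fintype.card_pos_iff.mpr ⟨x⟩
  have hB0 : 0 ≤ B := (abs_nonneg _).trans (hB x 0 (0, 0) (fun _ => (Classical.arbitrary P, 0)) 0)
  have g0 := PT_fine hle hN hθ hB0 (hB j) hPT
  have hBB : B * B ^ (Fintype.card ι - 1) = B ^ Fintype.card ι := by
    rw [← pow_succ', Nat.sub_add_cancel hm]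
  rw [hBB] at g0
  have hpow2 : ((2 : ℝ) ^ hh)⁻¹ ≤ ((2 : ℝ) ^ h0)⁻¹ :=
    inv_anti₀ (by positivity) (pow_le_pow_right₀ (by norm_num) hle)
  have hU : insert x S ⊆ {x, j} := by
    intro l hl
    rw [Finset.mem_insert] at hl ⊢
    rcases hl with h | h
    · exact Or.inl h
    · exact Or.inr (hS h)
  have g1 := TT_Yk s (i := x) (j := j) hj (Finset.mem_insert_self x S) hU (h := hh) he hN (R := fun j => fine h0 (R j))
    (θ := θ * (2 ^ (hh - h0)) ^ Fintype.card ι) (r := r1 + 2 * B ^ Fintype.card ι * ((2 : ℝ) ^ h0)⁻¹) (H := B)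
    (by positivity) (fun l => fun e g => hR l e _) (fun l => fun e g x d => hB l e _ _ _) g0
    (by
      have h7 : 2 * B ^ Fintype.card ι * ((2 : ℝ) ^ hh)⁻¹ ≤ 2 * B ^ Fintype.card ι * ((2 : ℝ) ^ h0)⁻¹ :=
        mul_le_mul_of_nonneg_left hpow2 (by positivity)
      linarith) w
  refine le_trans (FP.ce_mono _ (fun v _ => ind_mono fun g3 => ?_) w) g1
  have g4 : TT s hh (fun j => fine h0 (R j)) e v = TT s h0 R e v := TT_fine s hle _ _ _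
  rw [g4]
  exact hr.trans g3

/-! ## the families of all public randomness -/

/-- the single vertex: numbers -/
theorem CMC.num1 (n c1 : ℕ) {H Λ : ℝ} (hH2 : 2 ≤ H) (hΛ : H ^ (c1 + ((n + 2) + 1 + (n + 2) * (n + 2))) ≤ Λ) {D : ℕ}
    (hD : D ≤ n + 2) :
    ((n + 2 : ℕ) : ℝ) * (9 / 8 * (Real.exp (-Λ) * (2 ^ D) ^ (n + 2))) ≤ Real.exp (-H ^ c1) := by
  set M0 := (n + 2) + 1 + (n + 2) * (n + 2) with hM0
  have hH1 : 1 ≤ H := by linarith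
  have h1 : ((n + 2 : ℕ) : ℝ) * (9 / 8 * ((2 : ℝ) ^ D) ^ (n + 2)) ≤ Real.exp (M0 : ℕ) := by
    refine le_trans ?_ (CB.two_pow_le_exp M0)
    have h2 : ((n + 2 : ℕ) : ℝ) ≤ 2 ^ (n + 2) := CB.le_two_pow (n + 2)
    have h3 : ((2 : ℝ) ^ D) ^ (n + 2) ≤ 2 ^ ((n + 2) * (n + 2)) := by
      rw [← pow_mul]
      exact pow_le_pow_right₀ (by norm_num) (Nat.mul_le_mul_right _ hD)
    calc ((n + 2 : ℕ) : ℝ) * (9 / 8 * ((2 : ℝ) ^ D) ^ (n + 2)) ≤ 2 ^ (n + 2) * (2 * 2 ^ ((n + 2) * (n + 2))) :=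
          mul_le_mul h2 (mul_le_mul (by norm_num) h3 (by positivity) (by norm_num)) (by positivity) (by positivity)
      _ = 2 ^ M0 := by
          rw [hM0, pow_add, pow_add]
          ring
  have h3 : (M0 : ℝ) + H ^ c1 ≤ Λ := by
    have h4 : ((M0 : ℝ) + 1) ≤ H ^ M0 := by
      have h5 : ((M0 + 1 : ℕ) : ℝ) ≤ 2 ^ M0 := by
        exact_mod_cast Nat.lt_two_pow_self (n := M0)
      have h6 : (2 : ℝ) ^ M0 ≤ H ^ M0 := pow_le_pow_left₀ (by norm_num) hH2 _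
      push_cast at h5
      linarith
    have h8 : H ^ (c1 + M0) = H ^ c1 * H ^ M0 := pow_add _ _ _
    have h9 : (1 : ℝ) ≤ H ^ c1 := one_le_pow₀ hH1
    have h10 : (0 : ℝ) ≤ M0 := Nat.cast_nonneg _
    rw [h8] at hΛ
    nlinarith [mul_le_mul_of_nonneg_left h4 (show (0 : ℝ) ≤ H ^ c1 by linarith)]
  calc ((n + 2 : ℕ) : ℝ) * (9 / 8 * (Real.exp (-Λ) * (2 ^ D) ^ (n + 2))) =
        ((n + 2 : ℕ) : ℝ) * (9 / 8 * ((2 : ℝ) ^ D) ^ (n + 2)) * Real.exp (-Λ) := by ring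
    _ ≤ Real.exp (M0 : ℕ) * Real.exp (-Λ) := mul_le_mul_of_nonneg_right h1 (Real.exp_pos _).le
    _ = Real.exp (M0 + -Λ) := by rw [Real.exp_add]
    _ ≤ _ := Real.exp_le_exp.mpr (by linarith)

theorem CMC.half {H : ℝ} (hH2 : 2 ≤ H) (c1 : ℕ) : Real.exp (-H ^ (c1 + 2)) ≤ Real.exp (-H ^ c1) * (Real.exp (-H ^ c1) / 2) := by
  have h1 : (1 : ℝ) ≤ H ^ c1 := one_le_pow₀ (by linarith)
  have h2 : 4 * H ^ c1 ≤ H ^ (c1 + 2) := by
    rw [pow_add]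
    have h3 : (4 : ℝ) ≤ H ^ 2 := by nlinarith
    nlinarith
  have h3 : (2 : ℝ) ≤ Real.exp (2 * H ^ c1) := by
    have := Real.add_one_le_exp (2 * H ^ c1)
    linarith
  have h4 : Real.exp (-H ^ c1) * Real.exp (-H ^ c1) = Real.exp (-(4 * H ^ c1)) * Real.exp (2 * H ^ c1) := by
    rw [← Real.exp_add, ← Real.exp_add]
    congr 1
    ring
  have h5 : Real.exp (-H ^ (c1 + 2)) ≤ Real.exp (-(4 * H ^ c1)) := Real.exp_le_exp.mpr (by linarith)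
  have h6 := Real.exp_pos (-(4 * H ^ c1))
  have h7 : Real.exp (-H ^ c1) * (Real.exp (-H ^ c1) / 2) = Real.exp (-(4 * H ^ c1)) * Real.exp (2 * H ^ c1) / 2 := by
    rw [← h4]
    ring
  rw [h7]
  nlinarith

/-- THE COLD SETS, fixed public randomness -/
theorem cold_fam0 (n c' g c1 : ℕ) : ∃ C1 : ℕ, (c' + 2) * 2 ^ n + 2 + n ≤ C1 ∧ ∀ {k N : ℕ} {ι Q : Type} [Fintype ι]
    [DecidableEq ι] [Fintype Q] [Nonempty Q] (_ : Fintype.card ι = n + 2) (s : V k) (_ : N ≤ k) (h : ℕ) (x : ι)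
    (β H Λ : ℝ) (_ : 0 < β) (_ : β ≤ 1 / 2) (_ : 1 / β ≤ H) (_ : 8 * ((2 : ℝ) ^ h)⁻¹ ≤ β ^ ((c' + 2) * 2 ^ n + 2 + n))
    (_ : (2 : ℝ) ^ (h + 3) ≤ Real.exp (H ^ g)) (_ : H ^ C1 ≤ Λ) {R : ι → Fam k ι Q}
    (_ : ∀ i, FOn ({i}ᶜ : Set ι) (R i)) (_ : ∀ i, FLe 1 (R i))
    (_ : ∀ i, i ≠ x → PTm (fun _ : Unit => (1 : ℝ)) i h N (fun _ => R i) (Real.exp (-Λ)) (β ^ C1 + 8 * ((2 : ℝ) ^ h)⁻¹))
    (_ : ∀ i, i ≠ x → chg N Unit Q s h (fun _ : Unit => (1 : ℝ)) (fun _ => R i) ≤ Real.exp (H ^ g))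
    (h' : ℕ) (_ : h ≤ h') (_ : h' ≤ h + Fintype.card ι) (J : Finset {v : ι // v ≠ x}) (_ : J.card ≤ 2),
    (Pm : FP (Sq k N ι Unit Q)).Pr (fun u => ∃ t ≤ N, 1 ≤ t ∧ Real.exp (-H ^ c1) <
      Pm.ce (KJ x h' J (Mod.ex N t)) (fun v => ind (β ^ c' ≤ |TT s h R (Mod.ex N t) v|)) u) ≤ Real.exp (-H ^ c1) := by
  obtain ⟨C, hC, c, hpair⟩ := natPairP n
  obtain ⟨C1, hC1, hnum⟩ := CMC.num n c' C c g (c1 + 2)
  set M2 := (n + 2) + 1 + (n + 2) * (n + 2) with hM2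
  refine ⟨C1 + (c1 + M2), by omega, ?_⟩
  intro k N ι Q _ _ _ _ hι s hN h x β H Λ hβ hβ2 hH hn hK hΛ R hR hR1 hPT hch h' hh' hh'' J hJ
  have hβ1 : β ≤ 1 := by linarith
  have hH2 : 2 ≤ H := by
    have h1 : (2 : ℝ) ≤ 1 / β := by
      rw [le_div_iff₀ hβ]
      linarith
    exact h1.trans hH
  have hH1 : 1 ≤ H := by linarith
  have hD : h' - h ≤ n + 2 := by omega
  have hΛ1 : H ^ C1 ≤ Λ := le_trans (pow_le_pow_right₀ hH1 (by omega)) hΛ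
  have hΛ2 : H ^ (c1 + M2) ≤ Λ := le_trans (pow_le_pow_right₀ hH1 (by omega)) hΛ
  have hinv0 : (0 : ℝ) < ((2 : ℝ) ^ h)⁻¹ := by positivity
  have hacc : β ^ (C1 + (c1 + M2)) ≤ β ^ C1 := pow_le_pow_of_le_one hβ.le hβ1 (by omega)
  have hcc : c' + 4 ≤ (c' + 2) * 2 ^ n + 2 + n := by
    have : c' + 2 ≤ (c' + 2) * 2 ^ n := Nat.le_mul_of_pos_right _ (by positivity)
    omega
  rcases Nat.lt_or_ge J.card 2 with hJ1 | hJ2
  · -- at most one vertex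
    have hne : Nonempty {v : ι // v ≠ x} := by
      by_contra hcon
      rw [not_nonempty_iff] at hcon
      have h1 : ∀ v : ι, v = x := fun v => by
        by_contra h2
        exact hcon.elim ⟨v, h2⟩
      have h2 : Fintype.card ι ≤ 1 := Fintype.card_le_one_iff.mpr fun a b => (h1 a).trans (h1 b).symm
      omega
    obtain ⟨j, hj⟩ := Finset.card_le_one_iff_subset_singleton.mp (show J.card ≤ 1 by omega)
    have hS : GMM.im J ⊆ {j.1} := by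
      intro l hl
      obtain ⟨h1, h2⟩ := GMM.mem_im.1 hl
      have h3 := Finset.mem_singleton.1 (hj h2)
      rw [Finset.mem_singleton]
      exact congrArg Subtype.val h3
    have hfalse : ∀ u : Sq k N ι Unit Q, ¬ ∃ t ≤ N, 1 ≤ t ∧ Real.exp (-H ^ c1) <
        Pm.ce (KJ x h' J (Mod.ex N t)) (fun v => ind (β ^ c' ≤ |TT s h R (Mod.ex N t) v|)) u := by
      rintro u ⟨t, -, -, hlt⟩
      rw [GMM.ce_KJ_Nk] at hlt
      have h1 := natSingleP (θ := Real.exp (-Λ)) (r1 := β ^ (C1 + (c1 + M2)) + 8 * ((2 : ℝ) ^ h)⁻¹) (r := β ^ c') (B := 1)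
        s j.2 hS (e := Mod.ex N t) (Nat.sub_le _ _) hN hh' (Real.exp_pos _).le
        (by positivity) (PTm_toPT (hPT j.1 j.2)) hR hR1 ?_ u
      · rw [hι] at h1
        have h2 := CMC.num1 n c1 hH2 hΛ2 hD
        linarith
      · rw [one_pow]
        have h2 : 8 * ((2 : ℝ) ^ h)⁻¹ ≤ β ^ (c' + 4) := hn.trans (pow_le_pow_of_le_one hβ.le hβ1 hcc)
        have h3 : β ^ (C1 + (c1 + M2)) ≤ β ^ (c' + 4) := pow_le_pow_of_le_one hβ.le hβ1 (by omega)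
        have h4 : β ^ (c' + 4) ≤ β ^ c' / 16 := by
          rw [pow_add]
          have h5 : β ^ 4 ≤ (1 / 2) ^ 4 := pow_le_pow_left₀ hβ.le hβ2 4
          have h6 : 0 < β ^ c' := by positivity
          norm_num at h5
          nlinarith
        have h6 : 0 < β ^ c' := by positivity
        linarith
    have h0 : (Pm : FP (Sq k N ι Unit Q)).Pr (fun u => ∃ t ≤ N, 1 ≤ t ∧ Real.exp (-H ^ c1) <
      Pm.ce (KJ x h' J (Mod.ex N t)) (fun v => ind (β ^ c' ≤ |TT s h R (Mod.ex N t) v|)) u) = 0 := by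
      unfold FP.Pr
      rw [FP.E_congr (g := fun _ => 0), FP.E_const]
      intro u _
      exact ind_not (hfalse u)
    rw [h0]
    exact (Real.exp_pos _).le
  · -- the pair
    obtain ⟨a, b, hab, rfl⟩ := Finset.card_eq_two.mp (show J.card = 2 by omega)
    obtain ⟨s', δ, q, n1, n2, n3, n4, n5, n6, n7, n8, n9, n10⟩ := hnum β H Λ hβ hβ2 hH h hn hK hΛ1
      (Real.exp (H ^ g)) (Real.exp_pos _).le le_rfl (h' - h) hD
    have hab' : a.1 ≠ b.1 := fun h => hab (Subtype.ext h)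
    obtain ⟨o⟩ := exists_enu hι hab'
    have hΛ0 : 0 < Λ := by
      have : (1 : ℝ) ≤ H ^ C1 := one_le_pow₀ (by linarith)
      linarith
    have htt1 : Real.exp (-Λ) < 1 := by
      rw [← Real.exp_zero]
      exact Real.exp_lt_exp.mpr (by linarith)
    have hσ : 0 < Real.exp (-H ^ c1) / 2 := by positivity
    have hhalf := CMC.half hH2 c1
    have he1 : Real.exp (-H ^ c1) ≤ 1 := by
      rw [← Real.exp_zero]
      refine Real.exp_le_exp.mpr ?_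
      have : (0 : ℝ) ≤ H ^ c1 := by positivity
      linarith
    have h1 := hpair (x := x) hab' a.2.symm b.2.symm o s (h := h) (hh := h') (q := q) (p := Real.exp (H ^ g)) (R := R) hN n8
      hh' hR hR1 (tt := Real.exp (-Λ)) (eps0 := β ^ (C1 + (c1 + M2)) + 8 * ((2 : ℝ) ^ h)⁻¹) (Real.exp_pos _) htt1
      (by positivity) (hPT a.1 a.2) (hPT b.1 b.2) (hch a.1 a.2) (hch b.1 b.2) (Real.exp_pos _).le n1 n2 n3 n4 hσ n5
      (by linarith) n7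
    refine le_trans (FP.Pr_mono _ fun u _ => ?_) (h1.trans ?_)
    · rintro ⟨t, ht, ht1, hlt⟩
      refine ⟨t, ht, ht1, ?_⟩
      rw [GMM.ce_KJ_Nk, GMM.im_pair] at hlt
      refine lt_of_le_of_lt ?_ hlt
      have h2 : (Fintype.card ι : ℝ) * (2 * (2 ^ (h' - h)) ^ (n - 1) * δ) ≤ Real.exp (-H ^ (c1 + 2)) := by
        rw [hι]
        push_cast
        exact n9
      have h3 : Real.exp (-H ^ c1) * (Real.exp (-H ^ c1) / 2) ≤ 1 * (Real.exp (-H ^ c1) / 2) :=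
        mul_le_mul_of_nonneg_right he1 hσ.le
      linarith
    · rw [div_le_iff₀ hσ]
      exact n10.trans hhalf

/-- **THE COLD SETS OF THE FAMILIES**, any public and private randomness -/
theorem cold_fam (n c' g c1 : ℕ) : ∃ C1 : ℕ, (c' + 2) * 2 ^ n + 2 + n ≤ C1 ∧ ∀ {k N : ℕ} {ι Θ P1 Q R1 : Type} [Fintype ι]
    [DecidableEq ι] [Fintype Θ] [Nonempty Θ] [Fintype P1] [Nonempty P1] [Fintype Q] [Nonempty Q] [Fintype R1] [Nonempty R1]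
    (_ : Fintype.card ι = n + 2) (ψ : P1 ≃ Q × R1) (s : V k) (_ : N ≤ k) (h : ℕ) (x : ι)
    (β H Λ : ℝ) (_ : 0 < β) (_ : β ≤ 1 / 2) (_ : 1 / β ≤ H) (_ : 8 * ((2 : ℝ) ^ h)⁻¹ ≤ β ^ ((c' + 2) * 2 ^ n + 2 + n))
    (_ : (2 : ℝ) ^ (h + 3) ≤ Real.exp (H ^ g)) (_ : H ^ C1 ≤ Λ) {R : Θ → ι → Fam k ι Q}
    (_ : ∀ θ i, FOn ({i}ᶜ : Set ι) (R θ i)) (_ : ∀ θ i, FLe 1 (R θ i))
    (_ : ∀ θ i, i ≠ x → PTm (fun _ : Unit => (1 : ℝ)) i h N (fun _ => R θ i) (Real.exp (-Λ))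
      (β ^ C1 + 8 * ((2 : ℝ) ^ h)⁻¹))
    (_ : ∀ θ i, i ≠ x → chg N Unit Q s h (fun _ : Unit => (1 : ℝ)) (fun _ => R θ i) ≤ Real.exp (H ^ g))
    (h' : ℕ) (_ : h ≤ h') (_ : h' ≤ h + Fintype.card ι) (J : Finset {v : ι // v ≠ x}) (_ : J.card ≤ 2)
    {T : ℕ → Sq k N ι Θ P1 → ℝ} (_ : ∀ v, |T 0 v| < β ^ c')
    (_ : ∀ t, 1 ≤ t → t ≤ N → ∀ v, T t v = TT s h (R (th v)) (Mod.ex N t) (prQ ψ v)),
    (Pm : FP (Sq k N ι Θ P1)).Pr (fun u => ∃ t ≤ N, Real.exp (-H ^ c1) <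
      Pm.ce (KJ x h' J (Mod.ex N t)) (fun v => ind (β ^ c' ≤ |T t v|)) u) ≤ Real.exp (-H ^ c1) := by
  obtain ⟨C1, hC1, h0⟩ := cold_fam0 n c' g c1
  refine ⟨C1, hC1, ?_⟩
  intro k N ι Θ P1 Q R1 _ _ _ _ _ _ _ _ _ _ hι ψ s hN h x β H Λ hβ hβ2 hH hn hK hΛ R hR hR1 hPT hch h' hh' hh'' J hJ T
    hT0 hT
  set B : Sq k N ι Θ Q → Prop := fun u => ∃ t ≤ N, 1 ≤ t ∧ Real.exp (-H ^ c1) <
      Pm.ce (KJ x h' J (Mod.ex N t)) (fun v => ind (β ^ c' ≤ |TT s h (R (th v)) (Mod.ex N t) v|)) u with hB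
  have h1 : (Pm : FP (Sq k N ι Θ P1)).Pr (fun u => ∃ t ≤ N, Real.exp (-H ^ c1) <
      Pm.ce (KJ x h' J (Mod.ex N t)) (fun v => ind (β ^ c' ≤ |T t v|)) u) ≤
      (Pm : FP (Sq k N ι Θ P1)).Pr (fun u => B (prQ ψ u)) := by
    refine FP.Pr_mono _ fun u _ => ?_
    rintro ⟨t, ht, hlt⟩
    rcases Nat.eq_zero_or_pos t with h2 | h2
    · exfalso
      subst h2
      have h3 : Pm.ce (KJ x h' J (Mod.ex N 0)) (fun v => ind (β ^ c' ≤ |T 0 v|)) u ≤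
          Pm.ce (KJ x h' J (Mod.ex N 0)) (fun _ => 0) u := by
        refine FP.ce_mono _ (fun v _ => ?_) u
        rw [ind_not (not_le.2 (hT0 v))]
      have h4 : Pm.ce (KJ x h' J (Mod.ex N 0)) (fun _ : Sq k N ι Θ P1 => (0 : ℝ)) u = 0 := by
        unfold FP.ce
        rw [FP.E_congr (g := fun _ => 0), FP.E_const, zero_div]
        intro v _
        rw [mul_zero]
      have h5 := Real.exp_pos (-H ^ c1)
      linarith
    · refine ⟨t, ht, h2, ?_⟩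
      have h3 := ce_prQ ψ x h' J (Mod.ex N t) (fun v => ind (β ^ c' ≤ |TT s h (R (th v)) (Mod.ex N t) v|)) u
      rw [← h3]
      refine lt_of_lt_of_le hlt (le_of_eq ?_)
      congr 1
      funext v
      rw [hT t h2 ht v]
      rfl
  refine h1.trans ?_
  rw [Pr_prQ]
  refine Pr_Th_le fun θ => ?_
  refine le_trans (FP.Pr_mono _ fun v _ => ?_) (h0 hι s hN h x β H Λ hβ hβ2 hH hn hK hΛ (R := R θ) (hR θ) (hR1 θ) (hPT θ)
    (hch θ) h' hh' hh'' J hJ)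
  rintro ⟨t, ht, ht1, hlt⟩
  refine ⟨t, ht, ht1, ?_⟩
  rw [ce_KJ_Th] at hlt
  exact hlt

end fam

/-! ## the faces -/

section faces

variable {k N : ℕ} {ι Θ Ξ Q : Type} [Fintype ι] [DecidableEq ι] [Fintype Θ] [Nonempty Θ] [Fintype Ξ] [Nonempty Ξ]
  [Fintype Q] [Nonempty Q] {σ : V k} {i0 : ι} {hN : N ≤ k} {h : ℕ}
  {F : ι → Mov Ξ ι (Q × V k) (Θ × (V k × ℕ)) (V k → ℝ)}

theorem PTm_le {P : Type} [Fintype P] {wx : Ξ → ℝ} (wx0 : ∀ ξ, 0 ≤ wx ξ) {a : ι} {R : Ξ → Fam k ι P} {θ r r' : ℝ}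
    (hr : r ≤ r') (hPT : PTm wx a h N R θ r) : PTm wx a h N R θ r' := by
  intro e he g c v hv hv1
  refine le_trans (Finset.sum_le_sum fun ξ _ => mul_le_mul_of_nonneg_left ?_ (wx0 ξ)) (hPT e he g c v hv hv1)
  rw [Nat.cast_le]
  refine Finset.card_le_card fun x hx => ?_
  rw [Finset.mem_filter] at hx ⊢
  exact ⟨hx.1, hr.trans hx.2⟩

/-- **the product process of coin-free faces** -/
theorem pT_TT (hfree : ∀ i, ∀ t g ξ ξ', F i t g ξ = F i t g ξ') (ξ0 : Ξ) {t : ℕ} (ht : t ≤ N)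
    (u : Sq k N ι Θ (Ξ × Q)) : pT (binSys Θ Ξ Q σ i0 hN h) univ F t u =
      TT σ h (fun i => famS N h (F i) (th u) ξ0) (Mod.ex N t) (pq u) := by
  rw [pT_T0X i0 hN h F ht u]
  unfold T0X
  have h1 : (fun i => famS N h (F i) (th (pz i0 u).1) (pz i0 u).2) = fun i => famS N h (F i) (th u) ξ0 :=
    funext fun i => GMC.famS_coin h (hfree i) _ _ _
  simp only [h1]
  rfl

/-- all faces are zero at time zero -/
theorem pT_at_zero (hι : 0 < Fintype.card ι) (h0 : ∀ i, ∀ g ξ x, F i 0 g ξ x = 0) (u : Sq k N ι Θ (Ξ × Q)) :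
    pT (binSys Θ Ξ Q σ i0 hN h) univ F 0 u = 0 := by
  obtain ⟨i⟩ := Fintype.card_pos_iff.mp hι
  unfold pT iw
  refine Finset.sum_eq_zero fun d _ => ?_
  have h1 : ∏ i, (binSys Θ Ξ Q σ i0 hN h).at' (F i) 0 u d = 0 := by
    refine Finset.prod_eq_zero (Finset.mem_univ i) ?_
    show F i 0 ((binSys Θ Ξ Q σ i0 hN h).gm 0 u) ((binSys Θ Ξ Q σ i0 hN h).xi u) ((binSys Θ Ξ Q σ i0 hN h).x u) d = 0
    rw [h0 i]
    rfl
  beta_reduce
  rw [h1, mul_zero, zero_mul]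

end faces

/-- `near` smaller than every power of `β` -/
theorem near_of_exp {β H near : ℝ} {c0 c : ℕ} (hβ : 0 < β) (hβ2 : β ≤ 1 / 2) (hH : 1 / β ≤ H) (hc : c0 ≤ c)
    (hn : near ≤ Real.exp (-H ^ c)) : near ≤ β ^ c0 := by
  have hH2 : 2 ≤ H := by
    have h1 : (2 : ℝ) ≤ 1 / β := by
      rw [le_div_iff₀ hβ]
      linarith
    exact h1.trans hH
  have hH0 : 0 < H := by linarith
  have h1 : 0 < H ^ c := by positivity
  have h2 : Real.exp (-H ^ c) ≤ 1 / H ^ c := by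
    rw [Real.exp_neg, ← one_div]
    refine one_div_le_one_div_of_le h1 ?_
    have := Real.add_one_le_exp (H ^ c)
    linarith
  have h3 : 1 / H ^ c ≤ 1 / H ^ c0 := one_div_le_one_div_of_le (by positivity) (pow_le_pow_right₀ (by linarith) hc)
  have h4 : 1 / H ^ c0 ≤ β ^ c0 := by
    rw [← one_div_pow]
    refine pow_le_pow_left₀ (by positivity) ?_ _
    rw [div_le_iff₀ hH0]
    rw [div_le_iff₀ hβ] at hH
    linarith
  exact hn.trans (h2.trans (h3.trans h4))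

/-- **THE COLD SETS OF THE PROPER SUBSETS WITH AT MOST TWO VERTICES**, moving faces, any private randomness -/
theorem cmCold_gen (j c' : ℕ) : ∃ c0 : ℕ, ∀ g c1 : ℕ, ∃ C1 : ℕ, ∀ (ι Θ Ξ Q P1 R1 : Type) [Fintype ι] [DecidableEq ι]
    [Fintype Θ] [Nonempty Θ] [Fintype Ξ] [Nonempty Ξ] [Fintype Q] [Nonempty Q] [Fintype P1] [Nonempty P1] [Fintype R1]
    [Nonempty R1] (ψ : P1 ≃ Q × R1) (k N : ℕ) (σ : V k) (i w q : ι) (hN : N ≤ k) (h : ℕ), Fintype.card ι = j → q ≠ w →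
    ∀ β H Λ : ℝ, 0 < β → β ≤ 1 / 2 → 1 / β ≤ H → (binSys Θ Ξ Q σ i hN h).K ≤ Real.exp (H ^ g) →
      (binSys Θ Ξ Q σ i hN h).near ≤ β ^ c0 → H ^ C1 ≤ Λ → ∀ C : ℕ, C1 ≤ C → ∀ (m : ℝ)
      (F : ι → Mov Ξ ι (Q × V k) (Θ × (V k × ℕ)) (V k → ℝ)),
      GS.FacesC (binSys Θ Ξ Q σ i hN h) w F m (Real.exp (H ^ g)) (Real.exp (-Λ)) (β ^ C) → ∀ h' : ℕ, h ≤ h' →
      h' ≤ h + Fintype.card ι → ∀ J : Finset {v // v ≠ w}, J.card ≤ 2 → ∀ T : ℕ → Sq k N ι Θ P1 → ℝ,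
      (∀ t ≤ N, ∀ v, ∃ u : Sq k N ι Θ (Ξ × Q), pq u = prQ ψ v ∧ T t v = pT (binSys Θ Ξ Q σ i hN h) univ F t u) →
      (Pm : FP (Sq k N ι Θ P1)).Pr (fun u => ∃ t ≤ N, Real.exp (-H ^ c1) <
        Pm.ce (KJ w h' J (Mod.ex N t)) (fun v => ind (β ^ c' ≤ |T t v|)) u) ≤ Real.exp (-H ^ c1) := by
  refine ⟨(c' + 2) * 2 ^ (j - 2) + 2 + (j - 2), fun g c1 => ?_⟩
  obtain ⟨C1, hC1, h0⟩ := cold_fam (j - 2) c' g c1
  refine ⟨C1, ?_⟩
  intro ι Θ Ξ Q P1 R1 _ _ _ _ _ _ _ _ _ _ _ _ ψ k N σ i w q hN h hι hqw β H Λ hβ hβ2 hH hK hn hΛ C hC m F HF h' hh' hh''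
    J hJ T hT
  have hβ1 : β ≤ 1 := by linarith
  have hcard : Fintype.card ι = j - 2 + 2 := by
    have h1 : ({q, w} : Finset ι).card ≤ Fintype.card ι := Finset.card_le_univ _
    rw [Finset.card_pair hqw] at h1
    omega
  have hK' : (2 : ℝ) ^ (h + 3) ≤ Real.exp (H ^ g) := by
    refine le_trans ?_ hK
    show (2 : ℝ) ^ (h + 3) ≤ (((Fintype.card ι + 4) * 2 ^ (h + 3) : ℕ) : ℝ)
    push_cast
    have h1 : (0 : ℝ) < 2 ^ (h + 3) := by positivity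
    have h2 : (0 : ℝ) ≤ Fintype.card ι := Nat.cast_nonneg _
    nlinarith
  have hacc : 0 ≤ β ^ C := by positivity
  have hacc' : β ^ C ≤ β ^ C1 := pow_le_pow_of_le_one hβ.le hβ1 hC
  obtain ⟨ξ0⟩ := (inferInstance : Nonempty Ξ)
  have hdep : ∀ (v : ι) (t : ℕ) (g : Θ × (V k × ℕ)) (ξ : Ξ), DependsOn (F v t g ξ) ({v}ᶜ : Set ι) := by
    intro v t g ξ x y hxy
    exact HF.dep v t g ξ x y fun l hl => hxy l fun hl' => (Finset.ne_of_mem_erase hl) hl'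
  refine h0 (R := fun θ l => famS N h (F l) θ ξ0) hcard ψ σ hN h w β H Λ hβ hβ2 hH hn hK' hΛ
    (fun θ l => GMC.famS_on h (hdep l) θ ξ0) (fun θ l => GMC.famS_le zero_le_one h (HF.bd l) θ ξ0) (fun θ l hl => ?_)
    (fun θ l hl => ?_) h' hh' hh'' J hJ (fun v => ?_) (fun t _ ht v => ?_)
  · have h1 := GMC.rare_PTm σ i hN h (HF.bd l) (Real.exp_pos _).le hacc (HF.rare l hl) θ
    have h2 := PTm_le (fun _ => by positivity) (show β ^ C + 8 * ((2 : ℝ) ^ h)⁻¹ ≤ β ^ C1 + 8 * ((2 : ℝ) ^ h)⁻¹ by linarith) h1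
    exact PTm_fix (card_sum Ξ) ξ0 (fun ξ => GMC.famS_coin h (HF.coin l) θ ξ ξ0) h2
  · have h1 := GMC.chg_famS σ i hN h (HF.fut l hl) Unit θ
    exact chg_fix Unit (card_sum Ξ) ξ0 (fun ξ => GMC.famS_coin h (HF.coin l) θ ξ ξ0) h1
  · obtain ⟨u, -, hu⟩ := hT 0 (Nat.zero_le _) v
    rw [hu, pT_at_zero (by omega) HF.zero, abs_zero]
    positivity
  · obtain ⟨u, hu1, hu⟩ := hT t ht v
    rw [hu, pT_TT HF.coin ξ0 ht u, hu1]
    have h1 : th u = th v := by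
      have h2 : th (pq u) = th (prQ ψ v) := by rw [hu1]
      exact h2
    rw [h1]

/-- forget everything but `Q` -/
def psiN (Ξ Ξ2 Q R : Type) : ((Ξ × Ξ2) × Q) × R ≃ Q × ((Ξ × Ξ2) × R) where
  toFun p := (p.1.2, (p.1.1, p.2))
  invFun p := ((p.2.1, p.1), p.2.2)
  left_inv _ := rfl
  right_inv _ := rfl

/-- **THE INPUTS `cold` OF THEOREM CM**, space of the named view -/
theorem cmCold (j c' : ℕ) : ∃ c0 : ℕ, ∀ g c1 : ℕ, ∃ C1 : ℕ, ∀ (ι Θ Ξ Q Ξ2 R : Type) [Fintype ι] [DecidableEq ι]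
    [Fintype Θ] [Nonempty Θ] [Fintype Ξ] [Nonempty Ξ] [Fintype Q] [Nonempty Q] [Fintype Ξ2] [Nonempty Ξ2] [Fintype R]
    [Nonempty R] (k N : ℕ) (σ : V k) (i w q : ι) (hN : N ≤ k) (h : ℕ), Fintype.card ι = j → q ≠ w →
    ∀ β H Λ : ℝ, 0 < β → β ≤ 1 / 2 → 1 / β ≤ H → (binSys Θ Ξ Q σ i hN h).K ≤ Real.exp (H ^ g) →
      (binSys Θ Ξ Q σ i hN h).near ≤ β ^ c0 → H ^ C1 ≤ Λ → ∀ C : ℕ, C1 ≤ C → ∀ (m : ℝ)
      (F : ι → Mov Ξ ι (Q × V k) (Θ × (V k × ℕ)) (V k → ℝ)),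
      GS.FacesC (binSys Θ Ξ Q σ i hN h) w F m (Real.exp (H ^ g)) (Real.exp (-Λ)) (β ^ C) → ∀ h' : ℕ, h ≤ h' →
      h' ≤ h + Fintype.card ι → ∀ J : Finset {v // v ≠ w}, J.card ≤ 2 →
      (Pm : FP (Sq k N ι Θ (((Ξ × Ξ2) × Q) × R))).Pr (fun u => ∃ t ≤ N, Real.exp (-H ^ c1) <
        Pm.ce (KJ w h' J (Mod.ex N t)) (fun v => ind (β ^ c' ≤ |pT (binSys Θ Ξ Q σ i hN h) univ F t (p2 (pic v))|)) u) ≤
        Real.exp (-H ^ c1) := by
  obtain ⟨c0, h0⟩ := cmCold_gen j c'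
  refine ⟨c0, fun g c1 => ?_⟩
  obtain ⟨C1, h1⟩ := h0 g c1
  refine ⟨C1, ?_⟩
  intro ι Θ Ξ Q Ξ2 R _ _ _ _ _ _ _ _ _ _ _ _ k N σ i w q hN h hι hqw β H Λ hβ hβ2 hH hK hn hΛ C hC m F HF h' hh' hh''
    J hJ
  exact h1 ι Θ Ξ Q (((Ξ × Ξ2) × Q) × R) ((Ξ × Ξ2) × R) (psiN Ξ Ξ2 Q R) k N σ i w q hN h hι hqw β H Λ hβ hβ2 hH hK hn hΛ C
    hC m F HF h' hh' hh'' J hJ (fun t v => pT (binSys Θ Ξ Q σ i hN h) univ F t (p2 (pic v)))
    (fun t _ v => ⟨p2 (pic v), rfl, rfl⟩)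

end

end Pool.Agent.GM
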