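import Pool.Agent.GM.ColdBin

/-!
# GM/CMColdNum: the numbers of `GM/CMCold` (row A10c, helper18)

* `CMC.num` : the pair (as `CB.num`, the number of changes and the rounding up to `exp (H ^ g)`).
-/

set_option autoImplicit false
set_option linter.unusedSectionVars false

namespace Pool.Agent.GM

open Finset Pool.Agent.M3
open Pool.Agent.GMC (Qb)

noncomputable section

/-! ## numbers -/

namespace CMC

/-- THE NUMBERS OF THE PAIR -/
theorem num (n c' : ℕ) (C : ℝ) (c g c1 : ℕ) : ∃ C1 : ℕ, (c' + 2) * 2 ^ n + 2 + n ≤ C1 ∧ ∀ β H Λ : ℝ, 0 < β → β ≤ 1 / 2 →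
    1 / β ≤ H → ∀ h : ℕ, 8 * ((2 : ℝ) ^ h)⁻¹ ≤ β ^ ((c' + 2) * 2 ^ n + 2 + n) → (2 : ℝ) ^ (h + 3) ≤ Real.exp (H ^ g) →
    H ^ C1 ≤ Λ → ∀ p : ℝ, 0 ≤ p → p ≤ Real.exp (H ^ g) → ∀ D : ℕ, D ≤ n + 2 →
    ∃ (s' δ : ℝ) (q : ℕ), 0 < s' ∧ s' ≤ 1 ∧ 0 < δ ∧ δ ≤ 1 ∧
      s' + 4 * ((2 : ℝ) ^ h)⁻¹ ≤ β ^ c' ∧ β ^ C1 + 8 * ((2 : ℝ) ^ h)⁻¹ ≤ (s' / 2) ^ (2 ^ n) ∧ 8 ≤ 4 ^ q * δ ∧
      4 * n ≤ 2 ^ (h + 3) ∧ ((n : ℝ) + 2) * (2 * (2 ^ D) ^ (n - 1) * δ) ≤ Real.exp (-H ^ c1) ∧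
      C * Qb ((s' ^ (2 * q) * δ) ^ (2 ^ n) / 2) p q (2 ^ (h + 3)) ^ c *
        (Real.exp (-Λ) * (1 + Real.log (1 / Real.exp (-Λ)))) ≤ Real.exp (-H ^ c1) := by
  obtain ⟨M1, hM1⟩ := pow_unbounded_of_one_lt (2 * (|C| + c * (11 * 2 ^ n + 9) + 2)) (one_lt_two : (1 : ℝ) < 2)
  set c0 := (c' + 2) * 2 ^ n + 2 + n with hc0
  set M0 := (n + 2) + 1 + (n + 2) * (n - 1) with hM0
  set a := c1 + M0 with ha
  set b := a + c' + 1 + g + c1 with hb
  refine ⟨c0 + M1 + b, by omega, ?_⟩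
  intro β H Λ hβ hβ2 hH h hn hK hΛ p hp0 hp D hD
  set C1 := c0 + M1 + b with hC1
  have hβ1 : β ≤ 1 := by linarith
  have hH2 : 2 ≤ H := by
    have h1 : (2 : ℝ) ≤ 1 / β := by
      rw [le_div_iff₀ hβ]
      linarith
    exact h1.trans hH
  have hH1 : 1 ≤ H := by linarith
  have hHp : ∀ m : ℕ, (1 : ℝ) ≤ H ^ m := fun m => one_le_pow₀ hH1
  set X := H ^ a with hX
  have hX1 : 1 ≤ X := hHp a
  set Y := H ^ b with hY
  have hXY : X * H ^ (c' + 1) ≤ Y := by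
    rw [hX, hY, ← pow_add]
    exact pow_le_pow_right₀ hH1 (by omega)
  have hY1 : 1 ≤ Y := hHp _
  have hXleY : X ≤ Y := pow_le_pow_right₀ hH1 (by omega)
  have hgleY : H ^ g ≤ Y := pow_le_pow_right₀ hH1 (by omega)
  have hc1Y : H ^ c1 ≤ Y := pow_le_pow_right₀ hH1 (by omega)
  set q := ⌈X⌉₊ + 3 with hq
  have hqX : (q : ℝ) ≤ X + 4 := by
    have h1 := (Nat.ceil_lt_add_one (show (0 : ℝ) ≤ X by linarith)).le
    rw [hq]
    push_cast
    linarith
  have hq5 : (q : ℝ) ≤ 5 * X := by linarith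
  have hpow : (2 : ℝ) ^ (c0 + 3) ≤ 2 ^ h := CB.near_pow hβ hβ2 hn
  have hbc1 : 0 < β ^ c' := by positivity
  have hbc1' : β ^ c' ≤ 1 := pow_le_one₀ hβ.le hβ1
  have hnear2 : 8 * ((2 : ℝ) ^ h)⁻¹ ≤ β ^ (c' + 1) := by
    refine hn.trans (pow_le_pow_of_le_one hβ.le hβ1 ?_)
    have : c' + 2 ≤ (c' + 2) * 2 ^ n := Nat.le_mul_of_pos_right _ (by positivity)
    omega
  have hinv0 : (0 : ℝ) < ((2 : ℝ) ^ h)⁻¹ := by positivity
  refine ⟨β ^ c' / 2, Real.exp (-X), q, by positivity, by linarith, Real.exp_pos _, ?_, ?_, ?_, ?_,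
    CB.four_le hpow (by omega), ?_, ?_⟩
  · rw [← Real.exp_zero]
    exact Real.exp_le_exp.mpr (by linarith)
  · have h1 : β ^ (c' + 1) ≤ β ^ c' / 2 := by
      rw [pow_succ]
      nlinarith
    linarith
  · -- the accuracy
    have h1 : β ^ C1 + 8 * ((2 : ℝ) ^ h)⁻¹ ≤ β ^ (c0 - 1) := by
      have h2 : β ^ c0 = β ^ (c0 - 1) * β := by
        rw [← pow_succ]
        congr 1
        omega
      have h3 : (0 : ℝ) < β ^ (c0 - 1) := by positivity
      have h4 : β ^ C1 ≤ β ^ c0 := pow_le_pow_of_le_one hβ.le hβ1 (by omega)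
      nlinarith
    refine h1.trans ?_
    have h4 : β ^ (c0 - 1) ≤ β ^ ((c' + 2) * 2 ^ n) := pow_le_pow_of_le_one hβ.le hβ1 (by omega)
    refine h4.trans ?_
    rw [pow_mul]
    refine pow_le_pow_left₀ (by positivity) ?_ _
    rw [pow_add]
    have h5 : β ^ 2 ≤ 1 / 4 := by nlinarith
    nlinarith
  · -- the kernel
    have h1 : (4 : ℝ) ^ q = 4 ^ ⌈X⌉₊ * 64 := by
      rw [hq, pow_add]
      norm_num
    have h2 : Real.exp X ≤ 4 ^ ⌈X⌉₊ := by
      have h3 : Real.exp 1 ≤ 4 := by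
        have := Real.exp_one_lt_d9
        linarith
      calc Real.exp X ≤ Real.exp (⌈X⌉₊ : ℕ) := Real.exp_le_exp.mpr (Nat.le_ceil X)
        _ = Real.exp 1 ^ ⌈X⌉₊ := by rw [← Real.exp_nat_mul, mul_one]
        _ ≤ 4 ^ ⌈X⌉₊ := pow_le_pow_left₀ (Real.exp_pos _).le h3 _
    have h4 : Real.exp X * Real.exp (-X) = 1 := by
      rw [← Real.exp_add]
      simp
    have h5 := Real.exp_pos (-X)
    rw [h1]
    nlinarith [mul_le_mul_of_nonneg_right h2 h5.le]
  · -- the cold level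
    have h1 : ((n : ℝ) + 2) * (2 * ((2 : ℝ) ^ D) ^ (n - 1)) ≤ Real.exp (M0 : ℕ) := by
      refine le_trans ?_ (CB.two_pow_le_exp M0)
      have h2 : ((n : ℝ) + 2) ≤ 2 ^ (n + 2) := by
        have := CB.le_two_pow (n + 2)
        push_cast at this
        exact this
      have h3 : ((2 : ℝ) ^ D) ^ (n - 1) ≤ 2 ^ ((n + 2) * (n - 1)) := by
        rw [← pow_mul]
        exact pow_le_pow_right₀ (by norm_num) (Nat.mul_le_mul_right _ hD)
      calc ((n : ℝ) + 2) * (2 * ((2 : ℝ) ^ D) ^ (n - 1)) ≤ 2 ^ (n + 2) * (2 * 2 ^ ((n + 2) * (n - 1))) :=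
            mul_le_mul h2 (mul_le_mul_of_nonneg_left h3 (by norm_num)) (by positivity) (by positivity)
        _ = 2 ^ M0 := by
            rw [hM0, pow_add, pow_add]
            ring
    have h3 : (M0 : ℝ) + H ^ c1 ≤ X := by
      have h4 : ((M0 : ℝ) + 1) ≤ H ^ M0 := by
        have h5 : ((M0 + 1 : ℕ) : ℝ) ≤ 2 ^ M0 := by
          exact_mod_cast Nat.lt_two_pow_self (n := M0)
        have h6 : (2 : ℝ) ^ M0 ≤ H ^ M0 := pow_le_pow_left₀ (by norm_num) hH2 _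
        push_cast at h5
        linarith
      have h8 : X = H ^ c1 * H ^ M0 := by rw [hX, ha, pow_add]
      have h9 := hHp c1
      have h10 : (0 : ℝ) ≤ M0 := Nat.cast_nonneg _
      rw [h8]
      nlinarith [mul_le_mul_of_nonneg_left h4 (show (0 : ℝ) ≤ H ^ c1 by linarith)]
    calc ((n : ℝ) + 2) * (2 * (2 ^ D) ^ (n - 1) * Real.exp (-X)) =
          ((n : ℝ) + 2) * (2 * (2 ^ D) ^ (n - 1)) * Real.exp (-X) := by ring
      _ ≤ Real.exp (M0 : ℕ) * Real.exp (-X) := mul_le_mul_of_nonneg_right h1 (Real.exp_pos _).le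
      _ = Real.exp (M0 + -X) := by rw [Real.exp_add]
      _ ≤ _ := Real.exp_le_exp.mpr (by linarith)
  · -- the mass
    have hs0 : (0 : ℝ) < β ^ c' / 2 := by positivity
    have hz0 : 0 < (β ^ c' / 2) ^ (2 * q) * Real.exp (-X) := by positivity
    have h1 : 1 / (β ^ c' / 2) ≤ Real.exp (H ^ (c' + 1)) := by
      have h2 := CB.inv_pow_le hβ hH c'
      have h3 : 1 / (β ^ c' / 2) = 2 * (1 / β ^ c') := by field_simp
      rw [h3]
      refine le_trans ?_ (CB.le_exp_self _)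
      rw [pow_succ]
      have h4 := hHp c'
      nlinarith
    have h2 : 1 / ((β ^ c' / 2) ^ (2 * q) * Real.exp (-X)) ≤ Real.exp (11 * Y) := by
      have h3 : 1 / ((β ^ c' / 2) ^ (2 * q) * Real.exp (-X)) = (1 / (β ^ c' / 2)) ^ (2 * q) * Real.exp X := by
        rw [Real.exp_neg, one_div_pow]
        field_simp
      rw [h3]
      calc (1 / (β ^ c' / 2)) ^ (2 * q) * Real.exp X ≤ Real.exp (H ^ (c' + 1)) ^ (2 * q) * Real.exp X :=
            mul_le_mul_of_nonneg_right (pow_le_pow_left₀ (by positivity) h1 _) (Real.exp_pos _).le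
        _ = Real.exp ((2 * q : ℕ) * H ^ (c' + 1) + X) := by rw [← Real.exp_nat_mul, Real.exp_add]
        _ ≤ Real.exp (11 * Y) := by
            refine Real.exp_le_exp.mpr ?_
            push_cast
            have h4 := hHp (c' + 1)
            nlinarith [mul_le_mul_of_nonneg_right hq5 (show (0 : ℝ) ≤ H ^ (c' + 1) by linarith)]
    have h3 : Qb (((β ^ c' / 2) ^ (2 * q) * Real.exp (-X)) ^ (2 ^ n) / 2) p q (2 ^ (h + 3)) ≤
        Real.exp ((11 * 2 ^ n + 9) * Y) := by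
      have h4 : Qb (((β ^ c' / 2) ^ (2 * q) * Real.exp (-X)) ^ (2 ^ n) / 2) p q (2 ^ (h + 3)) =
          (1 + p) * (1 + q) * 2 ^ (h + 3) * (2 * (1 / ((β ^ c' / 2) ^ (2 * q) * Real.exp (-X))) ^ (2 ^ n)) := by
        unfold Qb
        rw [one_div_pow]
        field_simp
      rw [h4]
      have h5 : 1 + p ≤ Real.exp (2 * Y) := by
        have h6 : p ≤ Real.exp Y := hp.trans (Real.exp_le_exp.mpr hgleY)
        have h7 : (1 : ℝ) ≤ Real.exp Y := Real.one_le_exp (by linarith)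
        have h8 : (2 : ℝ) ≤ Real.exp Y := by
          have := Real.add_one_le_exp Y
          linarith
        have h9 : Real.exp (2 * Y) = Real.exp Y * Real.exp Y := by
          rw [← Real.exp_add]
          congr 1
          ring
        rw [h9]
        nlinarith
      have h6 : 1 + (q : ℝ) ≤ Real.exp (5 * Y) := by
        have := Real.add_one_le_exp (q : ℝ)
        have h7 := Real.exp_le_exp.mpr (show (q : ℝ) ≤ 5 * Y by linarith)
        linarith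
      have h7 : (2 : ℝ) ^ (h + 3) ≤ Real.exp Y := hK.trans (Real.exp_le_exp.mpr hgleY)
      have h8 : 2 * (1 / ((β ^ c' / 2) ^ (2 * q) * Real.exp (-X))) ^ (2 ^ n) ≤ Real.exp (Y + (2 ^ n : ℕ) * (11 * Y)) := by
        rw [Real.exp_add, Real.exp_nat_mul]
        refine mul_le_mul ?_ (pow_le_pow_left₀ (by positivity) h2 _) (by positivity) (Real.exp_pos _).le
        have := Real.add_one_le_exp Y
        linarith
      calc (1 + p) * (1 + q) * 2 ^ (h + 3) * (2 * (1 / ((β ^ c' / 2) ^ (2 * q) * Real.exp (-X))) ^ (2 ^ n))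
          ≤ Real.exp (2 * Y) * Real.exp (5 * Y) * Real.exp Y * Real.exp (Y + (2 ^ n : ℕ) * (11 * Y)) := by gcongr
        _ = Real.exp ((11 * 2 ^ n + 9) * Y) := by
            rw [← Real.exp_add, ← Real.exp_add, ← Real.exp_add]
            congr 1
            push_cast
            ring
    have hΛ0 : 0 ≤ Λ := by
      have := hHp C1
      linarith
    have hQ0 : 0 ≤ Qb (((β ^ c' / 2) ^ (2 * q) * Real.exp (-X)) ^ (2 ^ n) / 2) p q (2 ^ (h + 3)) := by
      unfold Qb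
      positivity
    have h4 : Qb (((β ^ c' / 2) ^ (2 * q) * Real.exp (-X)) ^ (2 ^ n) / 2) p q (2 ^ (h + 3)) ^ c ≤
        Real.exp (c * (11 * 2 ^ n + 9) * Y) := by
      refine (pow_le_pow_left₀ hQ0 h3 c).trans (le_of_eq ?_)
      rw [← Real.exp_nat_mul]
      congr 1
      ring
    have h5 : |C| ≤ Real.exp (|C| * Y) := by
      refine (CB.le_exp_self _).trans (Real.exp_le_exp.mpr ?_)
      have := abs_nonneg C
      nlinarith
    have h6 : (0 : ℝ) ≤ Real.exp (-Λ) * (1 + Real.log (1 / Real.exp (-Λ))) := by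
      have h7 : Real.log (1 / Real.exp (-Λ)) = Λ := by
        rw [one_div, ← Real.exp_neg, neg_neg, Real.log_exp]
      rw [h7]
      positivity
    have h7 : (|C| + c * (11 * 2 ^ n + 9) + 1) * Y + H ^ c1 ≤ Λ / 2 := by
      have h8 : 2 ^ M1 * Y ≤ Λ := by
        refine le_trans ?_ hΛ
        calc 2 ^ M1 * Y ≤ H ^ M1 * Y := mul_le_mul_of_nonneg_right (pow_le_pow_left₀ (by norm_num) hH2 _) (by linarith)
          _ = H ^ (M1 + b) := by rw [hY, ← pow_add]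
          _ ≤ H ^ C1 := pow_le_pow_right₀ hH1 (by omega)
      have h9 : 2 * (|C| + c * (11 * 2 ^ n + 9) + 2) * Y ≤ 2 ^ M1 * Y := mul_le_mul_of_nonneg_right hM1.le (by linarith)
      nlinarith
    calc C * Qb (((β ^ c' / 2) ^ (2 * q) * Real.exp (-X)) ^ (2 ^ n) / 2) p q (2 ^ (h + 3)) ^ c *
          (Real.exp (-Λ) * (1 + Real.log (1 / Real.exp (-Λ))))
        ≤ |C| * Qb (((β ^ c' / 2) ^ (2 * q) * Real.exp (-X)) ^ (2 ^ n) / 2) p q (2 ^ (h + 3)) ^ c *
          (Real.exp (-Λ) * (1 + Real.log (1 / Real.exp (-Λ)))) :=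
          mul_le_mul_of_nonneg_right (mul_le_mul_of_nonneg_right (le_abs_self C) (by positivity)) h6
      _ ≤ Real.exp (|C| * Y) * Real.exp (c * (11 * 2 ^ n + 9) * Y) * (2 * Real.exp (-(Λ / 2))) := by
          refine mul_le_mul (mul_le_mul h5 h4 (by positivity) (Real.exp_pos _).le) (CB.xlog Λ) h6 (by positivity)
      _ ≤ Real.exp (|C| * Y) * Real.exp (c * (11 * 2 ^ n + 9) * Y) * (Real.exp Y * Real.exp (-(Λ / 2))) := by
          have h8 : (2 : ℝ) ≤ Real.exp Y := by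
            have := Real.add_one_le_exp Y
            linarith
          gcongr
      _ = Real.exp (|C| * Y + c * (11 * 2 ^ n + 9) * Y + (Y + -(Λ / 2))) := by
          rw [← Real.exp_add, ← Real.exp_add, ← Real.exp_add]
      _ ≤ _ := Real.exp_le_exp.mpr (by linarith)

end CMC

end

end Pool.Agent.GM
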