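import Pool.Agent.GM.CMDef

/-!
# GM/CMLayDef (helper42): the layers of the faces of a natural view (row ASM A10b), data

`GS.LayC σ i hN h w F κ C c0 β H` : the process of the faces `F` (kept face `w`) is the sum over the layers `n < L` and the
structured faces `q ≠ w` of `c0` times the processes of the pieces `Pc n q` (rounding `hn n`), plus a last term `Z L`;
the pieces satisfy the hypotheses of `CMPiece j κ C` with the numbers `bn n` (threshold), `Hn n`, `Ln n`.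
`GS.LayersC j κ C C1` : existence for all faces with `FacesC .. (1 + 2 H) H (exp (-H ^ C1)) (β ^ C1)` (row MovLay, helper21).
-/

set_option autoImplicit false
set_option linter.unusedSectionVars false

namespace Pool.Agent.GM.GS

open Finset Pool.Agent.PWZ Pool.Agent.M3 Pool.Agent.M3.TS Pool.Agent.M3.Bin Pool.Agent.GM Pool.Agent.GM.Mv Pool.Agent.GM.KVer
open Pool.Agent.M3.Mod (ex)

noncomputable section

/-- the layers of the faces `F` of the natural view of `w` -/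
structure LayC {k N : ℕ} {ι Θ Ξ Q : Type} [Fintype ι] [DecidableEq ι] (σ : V k) [Fintype Θ] [Nonempty Θ] [Fintype Ξ]
    [Nonempty Ξ] [Fintype Q] [Nonempty Q] (i : ι) (hN : N ≤ k) (h : ℕ) (w : ι)
    (F : ι → Mov Ξ ι (Q × V k) (Θ × (V k × ℕ)) (V k → ℝ)) (κ : ℝ) (C : ℕ) (c0 β H : ℝ) where
  hn : ℕ → ℕ
  bn : ℕ → ℝ
  Hn : ℕ → ℝ
  Ln : ℕ → ℝ
  Pc : ℕ → ι → ι → Mov Ξ ι (Q × V k) (Θ × (V k × ℕ)) (V k → ℝ)
  Z : ℕ → ℕ → Sq k N ι Θ (Ξ × Q) → ℝ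
  b0 : ∀ n, 0 < bn n
  b2 : ∀ n, bn n ≤ 1 / 2
  bH : ∀ n, 1 / bn n ≤ Hn n
  KH : ∀ n, (binSys Θ Ξ Q σ i hN (hn n)).K ≤ Real.exp (Hn n)
  nH : ∀ n, (binSys Θ Ξ Q σ i hN (hn n)).near ≤ bn n ^ C
  HL : ∀ n, Hn n ^ C ≤ Ln n
  LH : ∀ n, Ln n ≤ Real.exp (Hn n)
  fac : ∀ n q, q ≠ w → FacesC (binSys Θ Ξ Q σ i hN (hn n)) w (Pc n q) (1 + 2 * Hn n) (Hn n) (Real.exp (-Ln n)) (bn n ^ C)
  str : ∀ n q, q ≠ w → Nonempty (StrF (binSys Θ Ξ Q σ i hN (hn n)) univ w q (Pc n q q) (Hn n)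
    (Hn n * Real.exp ((1 + κ) * Ln n)))
  /-- the identity of the telescoping -/
  id : ∀ L, ∀ t ≤ N, ∀ ω, pT (binSys Θ Ξ Q σ i hN h) univ F t ω =
    (∑ n ∈ range L, ∑ q ∈ univ.erase w, c0 * pT (binSys Θ Ξ Q σ i hN (hn n)) univ (Pc n q) t ω) + Z L t ω
  /-- numbers -/
  c00 : 0 ≤ c0
  sb : ∀ L, ∑ n ∈ range L, (Fintype.card ι : ℝ) * c0 * bn n ≤ β / 2
  sH : ∀ L, ∑ n ∈ range L, (Fintype.card ι : ℝ) * Real.exp (-Hn n) ≤ Real.exp (-H) / 4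
  /-- the last term -/
  last : ∀ ε : ℝ, 0 < ε → ∃ L, (PM k N ι Θ Ξ Q).Pr (fun ω => ∃ t ≤ N, β / 4 ≤ |Z L t ω|) ≤ ε

end

/-- existence of the layers (row MovLay) -/
def LayersC (j : ℕ) (κ : ℝ) (C C1 : ℕ) : Prop :=
  ∀ (ι Θ Ξ Q : Type) [Fintype ι] [DecidableEq ι] [Fintype Θ] [Nonempty Θ] [Fintype Ξ] [Nonempty Ξ] [Fintype Q]
    [Nonempty Q] (k N : ℕ) (σ : V k) (i w : ι) (hN : N ≤ k) (h : ℕ), Fintype.card ι = j →
    ∀ β H : ℝ, 0 < β → β ≤ 1 / 2 → 1 / β ≤ H → (binSys Θ Ξ Q σ i hN h).K ≤ Real.exp H →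
      (binSys Θ Ξ Q σ i hN h).near ≤ β ^ C1 →
      ∀ F : ι → Mov Ξ ι (Q × V k) (Θ × (V k × ℕ)) (V k → ℝ),
        FacesC (binSys Θ Ξ Q σ i hN h) w F (1 + 2 * H) H (Real.exp (-H ^ C1)) (β ^ C1) →
        ∃ c0, Nonempty (LayC σ i hN h w F κ C c0 β H)

end Pool.Agent.GM.GS
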