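import Pool.Agent.GM.MovSys
import Pool.Agent.M3.S1Births

/-!
# GM/MovBirths (helper21): the births of the nodes of a moving face in a geometry `Sys`

`mBf S Vj w X ep th Ψ t g ξ x` = the set of the births at the node of the point (coin free: a function of the node, the
exact values outside `Vj` and the cells inside).
* `card_mBf` (`≤ mPub`), `mBf_dep`, `mBf_congr`, `mBf_time`, `mLst_nodup`, `mLst_time`, `mem_mLst_top`, `mem_mLst` (every
  element of a list is born at a node of the path), `mLst_new`;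
* `mBf_thick` : a birth of a box is in the lists of at least the share `thrs ep th` of the individuals of the box;
* `mStr_births` : Walsh form by the subsets of the set of births.
-/

set_option autoImplicit false
set_option linter.unusedSectionVars false

namespace Pool.Agent.GM

open Finset Pool.Agent.PWZ Pool.Agent.M3 Pool.Agent.M3.TS
open Pool.Agent.M3.Bin (nst thrs nst_lt)

noncomputable section

namespace Mv

section node

variable {P V T : Type*} [Fintype V] [Nonempty T] {ep thr : ℝ} {val : T → P → V → ℝ} {F : P → V → ℝ} {Q : FP V}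
  {C : Finset P}

theorem nbs_time (t : ℕ) (L : P → List (Birth T)) (K : ℕ) {b : Birth T}
    (hb : b ∈ nbs ep thr val F Q C t L K) : b.t = t := by
  classical
  unfold nbs at hb
  obtain ⟨j, _, rfl⟩ := Finset.mem_image.1 hb
  rfl

theorem node_grow (t : ℕ) (L : P → List (Birth T)) (p : P) {j K : ℕ} (h : j ≤ K) :
    node ep thr val F Q C t L j p <:+ node ep thr val F Q C t L K p := by
  induction K, h using Nat.le_induction with
  | base => exact List.suffix_refl _
  | succ K _ ih =>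
    refine ih.trans ?_
    show _ <:+ step ep thr val F Q C t K (node ep thr val F Q C t L K) p
    unfold step
    split_ifs
    · exact List.suffix_cons _ _
    · exact List.suffix_refl _

/-- a birth of the node is in the lists of many points -/
theorem nbs_thick (t : ℕ) (L : P → List (Birth T)) (K : ℕ) {b : Birth T} (hb : b ∈ nbs ep thr val F Q C t L K) :
    thr * C.card ≤ ∑ q ∈ C, ind (b ∈ node ep thr val F Q C t L K q) := by
  classical
  unfold nbs at hb
  obtain ⟨j, hj, rfl⟩ := Finset.mem_image.1 hb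
  rw [Finset.mem_filter, Finset.mem_range] at hj
  refine (born_spec hj.2).trans ?_
  have h1 : ((mem ep val F Q C (node ep thr val F Q C t L j) (born ep thr val F Q C (node ep thr val F Q C t L j))).card : ℝ) =
      ∑ q ∈ mem ep val F Q C (node ep thr val F Q C t L j) (born ep thr val F Q C (node ep thr val F Q C t L j)), 1 := by
    rw [Finset.sum_const, nsmul_eq_mul, mul_one]
  rw [h1]
  have h2 : mem ep val F Q C (node ep thr val F Q C t L j) (born ep thr val F Q C (node ep thr val F Q C t L j)) ⊆ C :=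
    fun q hq => (mem_mem.1 hq).1
  refine le_trans (Finset.sum_le_sum fun q hq => ?_) (Finset.sum_le_sum_of_subset_of_nonneg h2 fun q _ _ => ind_nonneg _)
  rw [ind_of]
  refine (node_grow t L q (Nat.succ_le_of_lt hj.1)).subset ?_
  show _ ∈ step ep thr val F Q C t j (node ep thr val F Q C t L j) q
  rw [step_mem hj.2 hq]
  exact List.mem_cons_self

end node

section run

variable {ι P V : Type*} {Gam : ℕ → Type*} [Fintype V]

/-- the births at the node of `p`, moving function -/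
def pbsM (D : Nodes P V Gam) (S : Tests ι P V) (ep thr : ℝ) (N : ℕ) (F : ∀ n, Gam n → P → V → ℝ) (n : ℕ)
    (γ : Gam n) (p : P) : Finset (Birth (ι → Bool)) :=
  nbs ep thr S.val (F n γ) (D.J n γ) (D.cell n p) n (preM D S ep thr N F n γ) N

variable (D : Nodes P V Gam) (S : Tests ι P V) {ep thr : ℝ} {N : ℕ} {F : ∀ n, Gam n → P → V → ℝ}

theorem card_pbsM (n : ℕ) (γ : Gam n) (p : P) :
    (pbsM D S ep thr N F n γ p).card ≤ pubsM D S ep thr N F n γ p := card_nbs _ _ _

theorem mem_lstM (n : ℕ) (γ : Gam n) (p : P) {b : Birth (ι → Bool)} (hb : b ∈ lstM D S ep thr N F n γ p) :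
    b ∈ preM D S ep thr N F n γ p ∨ b ∈ pbsM D S ep thr N F n γ p := by
  rw [lstM_eq] at hb
  exact mem_node _ _ _ _ _ hb

theorem lstM_nodup (n : ℕ) : ∀ (γ : Gam n) (p : P), (lstM D S ep thr N F n γ p).Nodup ∧
    ∀ b ∈ lstM D S ep thr N F n γ p, b.t ≤ n := by
  induction n with
  | zero =>
    intro γ p
    rw [lstM_eq]
    have h1 := node_nodup (ep := ep) (thr := thr) (val := S.val) (F := F 0 γ) (Q := D.J 0 γ) (C := D.cell 0 p) 0
      (preM D S ep thr N F 0 γ) p (List.nodup_nil) (fun b hb => absurd hb (List.not_mem_nil)) N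
    exact ⟨h1.1, fun b hb => (h1.2 b hb).1⟩
  | succ n ih =>
    intro γ p
    rw [lstM_eq]
    obtain ⟨h2, h3⟩ := ih (D.prev n γ) p
    have h1 := node_nodup (ep := ep) (thr := thr) (val := S.val) (F := F (n + 1) γ) (Q := D.J (n + 1) γ)
      (C := D.cell (n + 1) p) (n + 1) (preM D S ep thr N F (n + 1) γ) p h2
      (fun b hb => Nat.lt_succ_of_le (h3 b hb)) N
    exact ⟨h1.1, fun b hb => (h1.2 b hb).1⟩

theorem pbsM_thick (n : ℕ) (γ : Gam n) (p : P) {b : Birth (ι → Bool)} (hb : b ∈ pbsM D S ep thr N F n γ p) :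
    thr * (D.cell n p).card ≤ ∑ q ∈ D.cell n p, ind (b ∈ lstM D S ep thr N F n γ q) := by
  refine (nbs_thick n (preM D S ep thr N F n γ) N hb).trans (le_of_eq ?_)
  refine Finset.sum_congr rfl fun q hq => ?_
  rw [lstM_eq_cell D S n γ hq]

theorem pbsM_cell (n : ℕ) (γ : Gam n) {p q : P} (hq : q ∈ D.cell n p) :
    pbsM D S ep thr N F n γ q = pbsM D S ep thr N F n γ p := by
  unfold pbsM
  rw [D.coh n p q hq]

end run

variable {ι Om Ξ Pt V Γ κ : Type} [Fintype ι] [DecidableEq ι] [Fintype Om] [Fintype Ξ] [Fintype Pt]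
  [Fintype V] (S : Sys ι Om Ξ Pt V Γ κ)

/-- boxes and cells of the face -/
theorem box_face {Vj : Finset ι} {w : ι} (hwV : w ∈ Vj) (t : ℕ) (y : ι → Pt) (ξ1 : Ξ) (R : FPt ι Ξ Pt w → Prop) :
    ∑ ξ : Ξ, ∑ z : ι → Pt, ind (S.Box Vj t y z ∧ R (ξ, rsw w z)) =
      (∑ a, ind (S.cl t a = S.cl t (y w))) * ∑ q ∈ (faceN S Vj w).cell t (ξ1, rsw w y), ind (R q) := by
  classical
  have h1 : ∑ q ∈ (faceN S Vj w).cell t (ξ1, rsw w y), ind (R q) =
      ∑ ξ0 : Ξ, ∑ q : {j : ι // j ≠ w} → Pt, ind (sameC S Vj w t (ξ0, rsw w y) (ξ0, q) ∧ R (ξ0, q)) := by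
    have h2 : ∑ q ∈ (faceN S Vj w).cell t (ξ1, rsw w y), ind (R q) =
        ∑ q : FPt ι Ξ Pt w, ind (sameC S Vj w t (ξ1, rsw w y) q ∧ R q) := by
      show ∑ q ∈ univ.filter _, ind (R q) = _
      rw [Finset.sum_filter]
      refine Finset.sum_congr rfl fun q _ => ?_
      by_cases hq : sameC S Vj w t (ξ1, rsw w y) q
      · rw [if_pos hq, ind_and, ind_of hq, one_mul]
      · rw [if_neg hq, ind_and, ind_not hq, zero_mul]
    rw [h2, Fintype.sum_prod_type]
    rfl
  rw [h1, Finset.mul_sum]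
  refine Finset.sum_congr rfl fun ξ _ => ?_
  have h3 : ∀ z : ι → Pt, ind (S.Box Vj t y z ∧ R (ξ, rsw w z)) =
      (fun a q => ind (S.cl t a = S.cl t (y w)) * ind (sameC S Vj w t (ξ, rsw w y) (ξ, q) ∧ R (ξ, q)))
        (z w) (rsw w z) := by
    intro z
    show _ = ind (S.cl t (z w) = S.cl t (y w)) * ind (sameC S Vj w t (ξ, rsw w y) (ξ, rsw w z) ∧ R (ξ, rsw w z))
    rw [← ind_and]
    congr 1
    apply propext
    unfold Sys.Box sameC
    constructor
    · rintro ⟨⟨h2, h3⟩, h4⟩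
      exact ⟨h3 w hwV, ⟨fun j hj => h2 j.1 hj, fun j hj => h3 j.1 hj⟩, h4⟩
    · rintro ⟨h2, ⟨h3, h4⟩, h5⟩
      refine ⟨⟨fun i hi => ?_, fun i hi => ?_⟩, h5⟩
      · have hiw : i ≠ w := fun h => hi (h ▸ hwV)
        exact h3 ⟨i, hiw⟩ hi
      · by_cases hiw : i = w
        · rw [hiw]; exact h2
        · exact h4 ⟨i, hiw⟩ hi
  rw [Finset.sum_congr rfl fun z _ => h3 z]
  refine (sum_split w (fun a q => ind (S.cl t a = S.cl t (y w)) *
    ind (sameC S Vj w t (ξ, rsw w y) (ξ, q) ∧ R (ξ, q)))).trans ?_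
  rw [Finset.sum_mul]
  refine Finset.sum_congr rfl fun a _ => ?_
  rw [Finset.mul_sum]

/-! ### the births of the nodes -/

section births

variable (Vj : Finset ι) (w : ι) [Nonempty (TK Vj w)] (X ep th : ℝ) (Ψ : Mov Ξ ι Pt Γ (V → ℝ))

/-- the births at the node of a point -/
def mBf : Mov Ξ ι Pt Γ (Finset (Birth (TJs Pt V Vj w → Bool))) := fun t g ξ x =>
  pbsM (faceN S Vj w) (faceT Ξ Pt V Vj w) ep (thrs ep th) (nst ep (thrs ep th)) (mF S w X Ψ) t g (ξ, rsw w x)

variable {w X ep th Ψ}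

theorem card_mBf (t : ℕ) (g : Γ) (ξ : Ξ) (x : ι → Pt) :
    (mBf S Vj w X ep th Ψ t g ξ x).card ≤ mPub S Vj w X ep th Ψ t g ξ x := card_pbsM _ _ _ _ _

theorem mBf_dep (t : ℕ) (g : Γ) (ξ : Ξ) : Dep (univ.erase w) (mBf S Vj w X ep th Ψ t g ξ) :=
  rsw_dep w (fun y => pbsM (faceN S Vj w) (faceT Ξ Pt V Vj w) ep (thrs ep th) (nst ep (thrs ep th)) (mF S w X Ψ) t g
    (ξ, y))

/-- the births of the node only depend on the exact values outside `Vj` and on the cells inside; not on the coins -/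
theorem mBf_congr {t : ℕ} {g : Γ} {ξ ξ' : Ξ} {x y : ι → Pt} (h1 : ∀ i, i ∉ Vj → i ≠ w → y i = x i)
    (h2 : ∀ i ∈ Vj, i ≠ w → S.cl t (y i) = S.cl t (x i)) :
    mBf S Vj w X ep th Ψ t g ξ' y = mBf S Vj w X ep th Ψ t g ξ x := by
  unfold mBf
  exact pbsM_cell (faceN S Vj w) (faceT Ξ Pt V Vj w) t g
    ((mem_faceCl S).2 ⟨fun j hj => h1 j.1 hj j.2, fun j hj => h2 j.1 hj j.2⟩)

theorem mLst_nodup (t : ℕ) (g : Γ) (ξ : Ξ) (x : ι → Pt) : (mLst S Vj w X ep th Ψ t g ξ x).Nodup :=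
  (lstM_nodup (faceN S Vj w) (faceT Ξ Pt V Vj w) t g (ξ, rsw w x)).1

theorem mLst_time {t : ℕ} {g : Γ} {ξ : Ξ} {x : ι → Pt} {s : Birth (TJs Pt V Vj w → Bool)}
    (hs : s ∈ mLst S Vj w X ep th Ψ t g ξ x) : s.t ≤ t :=
  (lstM_nodup (faceN S Vj w) (faceT Ξ Pt V Vj w) t g (ξ, rsw w x)).2 s hs

theorem mBf_time {t : ℕ} {g : Γ} {ξ : Ξ} {x : ι → Pt} {s : Birth (TJs Pt V Vj w → Bool)}
    (hs : s ∈ mBf S Vj w X ep th Ψ t g ξ x) : s.t = t := nbs_time _ _ _ hs

theorem mem_mLst_top {g : Γ} {ξ : Ξ} {x : ι → Pt} {s : Birth (TJs Pt V Vj w → Bool)}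
    (hs : s ∈ mLst S Vj w X ep th Ψ 0 g ξ x) : s ∈ mBf S Vj w X ep th Ψ 0 g ξ x := by
  rcases mem_lstM (faceN S Vj w) (faceT Ξ Pt V Vj w) 0 g (ξ, rsw w x) hs with h1 | h1
  · exact absurd h1 List.not_mem_nil
  · exact h1

/-- an element of a list was there at the parent or is born at the node -/
theorem mem_mLst {t : ℕ} {g : Γ} {ξ : Ξ} {x : ι → Pt} {s : Birth (TJs Pt V Vj w → Bool)}
    (hs : s ∈ mLst S Vj w X ep th Ψ (t + 1) g ξ x) :
    s ∈ mLst S Vj w X ep th Ψ t (S.par t g) ξ x ∨ s ∈ mBf S Vj w X ep th Ψ (t + 1) g ξ x :=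
  mem_lstM (faceN S Vj w) (faceT Ξ Pt V Vj w) (t + 1) g (ξ, rsw w x) hs

/-- a change of the list brings a birth of that time -/
theorem mLst_new {t : ℕ} {g : Γ} {ξ : Ξ} {x : ι → Pt}
    (hne : mLst S Vj w X ep th Ψ (t + 1) g ξ x ≠ mLst S Vj w X ep th Ψ t (S.par t g) ξ x) :
    ∃ s ∈ mLst S Vj w X ep th Ψ (t + 1) g ξ x, s.t = t + 1 := by
  obtain ⟨m, hm⟩ := mLst_suffix S Vj (w := w) (X := X) (ep := ep) (th := th) (Ψ := Ψ) t g ξ x
  cases m with
  | nil =>
    exfalso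
    rw [List.nil_append] at hm
    exact hne hm.symm
  | cons s m =>
    have h1 : s ∈ mLst S Vj w X ep th Ψ (t + 1) g ξ x := by
      rw [← hm]
      exact List.mem_append_left _ List.mem_cons_self
    refine ⟨s, h1, ?_⟩
    rcases mem_mLst S Vj h1 with h2 | h2
    · exfalso
      have h3 := mLst_nodup S Vj (w := w) (X := X) (ep := ep) (th := th) (Ψ := Ψ) (t + 1) g ξ x
      rw [← hm, List.cons_append, List.nodup_cons] at h3
      exact h3.1 (List.mem_append_right _ h2)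
    · exact mBf_time S Vj h2

/-- **births are thick** : a birth of a box is in the lists of at least the share `thrs ep th` of its individuals -/
theorem mBf_thick (hwV : w ∈ Vj) {t : ℕ} {g : Γ} {ξ0 : Ξ} {y : ι → Pt} {s : Birth (TJs Pt V Vj w → Bool)}
    (hs : s ∈ mBf S Vj w X ep th Ψ t g ξ0 y) :
    thrs ep th * ∑ _ξ : Ξ, ∑ z : ι → Pt, ind (S.Box Vj t y z) ≤
      ∑ ξ : Ξ, ∑ z : ι → Pt, ind (S.Box Vj t y z ∧ s ∈ mLst S Vj w X ep th Ψ t g ξ z) := by
  have h1 := pbsM_thick (faceN S Vj w) (faceT Ξ Pt V Vj w) t g (ξ0, rsw w y) hs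
  have h2 := box_face S hwV t y ξ0 (fun q => s ∈ lstM (faceN S Vj w) (faceT Ξ Pt V Vj w) ep (thrs ep th)
    (nst ep (thrs ep th)) (mF S w X Ψ) t g q)
  have h3 := box_face S hwV t y ξ0 (fun _ => True)
  have h4 : ∑ _ξ : Ξ, ∑ z : ι → Pt, ind (S.Box Vj t y z) =
      ∑ ξ : Ξ, ∑ z : ι → Pt, ind (S.Box Vj t y z ∧ (fun _ : FPt ι Ξ Pt w => True) (ξ, rsw w z)) := by
    refine Finset.sum_congr rfl fun ξ _ => Finset.sum_congr rfl fun z _ => ?_
    congr 1
    exact propext ⟨fun h => ⟨h, trivial⟩, fun h => h.1⟩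
  have h5 : ∑ q ∈ (faceN S Vj w).cell t (ξ0, rsw w y), ind ((fun _ : FPt ι Ξ Pt w => True) q) =
      ((faceN S Vj w).cell t (ξ0, rsw w y)).card := by
    rw [Finset.sum_congr rfl fun q _ => ind_of trivial, Finset.sum_const, nsmul_eq_mul, mul_one]
  rw [h4, h3, h5]
  refine le_trans ?_ h2.symm.le
  rw [mul_left_comm]
  exact mul_le_mul_of_nonneg_left h1 (Finset.sum_nonneg fun _ _ => ind_nonneg _)

open Classical in
/-- the Walsh form by the subsets of the set of births -/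
theorem mStr_births (t : ℕ) (g : Γ) (ξ : Ξ) (x : ι → Pt) (d : V) :
    mStr S Vj w X ep th Ψ t g ξ x d = X * ∑ I ∈ (mLst S Vj w X ep th Ψ t g ξ x).toFinset.powerset,
      psiC ep (mLst S Vj w X ep th Ψ t g ξ x).length
        (univ.filter fun j => (mLst S Vj w X ep th Ψ t g ξ x).get j ∈ I) *
        ∏ i ∈ Vj.erase w, ∏ s ∈ I, msgn Vj w i s x d := by
  rw [mStr_psi]
  unfold mvals
  rw [psi_toFinset ep _ (mLst_nodup S Vj t g ξ x) (fun s => ∏ i ∈ Vj.erase w, msgn Vj w i s x d) (fun s => by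
    rw [← faceT_val s ξ x d]
    exact (faceT Ξ Pt V Vj w).val_or _ _ _)]
  congr 1
  refine Finset.sum_congr rfl fun I _ => ?_
  rw [Finset.prod_comm]

end births

end Mv

end

end Pool.Agent.GM
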