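import Pool.Agent.GM.SMI

/-!
# GM/GSscale (helper17): normalisation `X = 1` and trivial cases of (SMI_j)

* `Sys.SMIat_scale` : (SMI_j) with `X = 1`, accuracy `acc / X`, threshold `r / X ^ j` gives (SMI_j) with `X`;
* `Sys.SMIat_one_le`, `Sys.SMIat_big` : trivial outputs, trivial thresholds;
* `Sys.SMIat.mono`.
-/

set_option autoImplicit false
set_option linter.unusedSectionVars false

namespace Pool.Agent.GM

open Finset Pool.Agent.PWZ Pool.Agent.M3 Pool.Agent.M3.TS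

noncomputable section

namespace Sys

variable {ι Om Ξ Pt V Γ κ : Type} [Fintype ι] [DecidableEq ι] [Fintype Om] [Fintype Ξ] [Fintype Pt]
  [Fintype V] (S : Sys ι Om Ξ Pt V Γ κ)

/-- the mean number of moves only depends on the events `moves` -/
theorem Future.of_iff {β β' : Type} {I : Finset ι} {f : Mov Ξ ι Pt Γ β} {f' : Mov Ξ ι Pt Γ β'} {m0 : ℝ}
    (H : S.Future I f m0) (h : ∀ t w, S.at' f' (t + 1) w ≠ S.at' f' t w → S.at' f (t + 1) w ≠ S.at' f t w) :
    S.Future I f' m0 := by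
  intro t φ hφ h0
  refine le_trans (Finset.sum_le_sum fun u _ => S.P.E_mono fun w _ => ?_) (H t φ hφ h0)
  exact mul_le_mul_of_nonneg_left (ind_mono (h u w)) (h0 w)

theorem Future.mono {β : Type} {I : Finset ι} {f : Mov Ξ ι Pt Γ β} {m0 m1 : ℝ} (H : S.Future I f m0) (h : m0 ≤ m1) :
    S.Future I f m1 := by
  intro t φ hφ h0
  exact (H t φ hφ h0).trans (mul_le_mul_of_nonneg_right h (S.P.E_nonneg fun w _ => h0 w))

theorem Rare.mono {Vj : Finset ι} {w : ι} {Ψ : Mov Ξ ι Pt Γ (V → ℝ)} {θ θ' acc acc' : ℝ} (H : S.Rare Vj w Ψ θ acc)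
    (h : θ ≤ θ') (h' : acc ≤ acc') : S.Rare Vj w Ψ θ' acc' := by
  intro t ht w0 y u hu hu1
  refine le_trans (Finset.sum_le_sum fun ξ _ => Finset.sum_le_sum fun z _ => ?_)
    ((H t ht w0 y u hu hu1).trans (mul_le_mul_of_nonneg_right h ?_))
  · exact ind_mono fun hz => ⟨hz.1, h'.trans hz.2⟩
  · exact Finset.sum_nonneg fun ξ _ => Finset.sum_nonneg fun z _ => ind_nonneg _

variable {S}

/-- **normalisation** -/
theorem SMIat_scale {Vj : Finset ι} {δ : ι} {X m0 θ acc r out : ℝ} (hX : 0 < X)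
    (H : S.SMIat Vj δ 1 m0 θ (acc / X) (r / X ^ Vj.card) out) : S.SMIat Vj δ X m0 θ acc r out := by
  intro Ψ h1 h2 h3 h4 h5 h6
  have h := H (fun i t g ξ x d => Ψ i t g ξ x d / X) (fun w hw t g ξ x y hxy => by
      funext d
      show Ψ w t g ξ x d / X = Ψ w t g ξ y d / X
      rw [h1 w hw t g ξ x y hxy])
    (fun w hw hd t g ξ ξ' => by
      funext x d
      rw [h2 w hw hd t g ξ ξ'])
    (fun w hw t g ξ x d => by
      rw [abs_div, abs_of_pos hX, div_le_one hX]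
      exact h3 w hw t g ξ x d)
    (fun w hw g ξ x => by
      funext d
      show Ψ w 0 g ξ x d / X = 0
      rw [h4 w hw g ξ x]
      simp)
    (fun w hw => by
      refine Future.of_iff S (h5 w hw) fun t v hne heq => hne ?_
      funext d
      show Ψ w (t + 1) (S.gm (t + 1) v) (S.xi v) (S.x v) d / X = Ψ w t (S.gm t v) (S.xi v) (S.x v) d / X
      have h7 : Ψ w (t + 1) (S.gm (t + 1) v) (S.xi v) (S.x v) = Ψ w t (S.gm t v) (S.xi v) (S.x v) := heq
      rw [h7])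
    (fun w hw t ht w0 y u hu hu1 => by
      refine le_trans (le_of_eq ?_) (h6 w hw t ht w0 y u hu hu1)
      refine Finset.sum_congr rfl fun ξ _ => Finset.sum_congr rfl fun z _ => ?_
      congr 1
      apply propext
      refine and_congr_right fun _ => ?_
      have h7 : iw (S.ρ t (S.gm t w0)) (fun d => Ψ w t (S.gm t w0) ξ z d / X) (fun d => ∏ i ∈ Vj.erase w, u i z d) =
          iw (S.ρ t (S.gm t w0)) (Ψ w t (S.gm t w0) ξ z) (fun d => ∏ i ∈ Vj.erase w, u i z d) / X := by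
        unfold iw
        rw [Finset.sum_div]
        refine Finset.sum_congr rfl fun d _ => ?_
        ring
      rw [h7, abs_div, abs_of_pos hX, div_le_div_iff_of_pos_right hX])
  refine le_trans (S.P.Pr_mono fun v _ => ?_) h
  rintro ⟨t, ht, h7⟩
  refine ⟨t, ht, ?_⟩
  have h8 : iw (S.J t v) (fun d => ∏ i ∈ Vj, S.at' (fun t g ξ x d => Ψ i t g ξ x d / X) t v d) (fun _ => 1) =
      iw (S.J t v) (fun d => ∏ i ∈ Vj, S.at' (Ψ i) t v d) (fun _ => 1) / X ^ Vj.card := by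
    unfold iw
    rw [Finset.sum_div]
    refine Finset.sum_congr rfl fun d _ => ?_
    have h9 : ∏ i ∈ Vj, S.at' (fun t g ξ x d => Ψ i t g ξ x d / X) t v d =
        (∏ i ∈ Vj, S.at' (Ψ i) t v d) / X ^ Vj.card := by
      rw [← Finset.prod_const, ← Finset.prod_div_distrib]
      rfl
    show S.J t v d * (∏ i ∈ Vj, S.at' (fun t g ξ x d => Ψ i t g ξ x d / X) t v d) * 1 =
      S.J t v d * (∏ i ∈ Vj, S.at' (Ψ i) t v d) * 1 / X ^ Vj.card
    rw [h9]
    ring
  rw [h8, abs_div, abs_of_pos (pow_pos hX _)]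
  exact div_le_div_of_nonneg_right h7 (pow_pos hX _).le

/-- trivial output -/
theorem SMIat_one_le {Vj : Finset ι} {δ : ι} {X m0 θ acc r out : ℝ} (h : 1 ≤ out) :
    S.SMIat Vj δ X m0 θ acc r out := fun _ _ _ _ _ _ _ => (S.P.Pr_le_one _).trans h

/-- trivial threshold -/
theorem SMIat_big {Vj : Finset ι} {δ : ι} {X m0 θ acc r out : ℝ} (hX : 0 ≤ X) (hr : X ^ Vj.card < r) (h : 0 ≤ out) :
    S.SMIat Vj δ X m0 θ acc r out := by
  intro Ψ _ _ h3 _ _ _
  have h1 : ∀ v, ¬ ∃ t ≤ S.n, r ≤ |iw (S.J t v) (fun d => ∏ i ∈ Vj, S.at' (Ψ i) t v d) (fun _ => 1)| := by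
    rintro v ⟨t, _, h4⟩
    have h5 : |iw (S.J t v) (fun d => ∏ i ∈ Vj, S.at' (Ψ i) t v d) (fun _ => 1)| ≤ X ^ Vj.card := by
      unfold iw
      refine (Finset.abs_sum_le_sum_abs _ _).trans ?_
      have h6 : ∀ d ∈ (univ : Finset V), |S.J t v d * (∏ i ∈ Vj, S.at' (Ψ i) t v d) * 1| ≤
          S.J t v d * X ^ Vj.card := by
        intro d _
        rw [mul_one, abs_mul, abs_of_nonneg ((S.Jwt t v).nn d), Finset.abs_prod, ← Finset.prod_const]
        refine mul_le_mul_of_nonneg_left ?_ ((S.Jwt t v).nn d)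
        exact Finset.prod_le_prod (fun i _ => abs_nonneg _) fun i hi => h3 i hi t _ _ _ d
      refine (Finset.sum_le_sum h6).trans ?_
      rw [← Finset.sum_mul]
      have h7 := mul_le_mul_of_nonneg_right (S.Jwt t v).le1 (pow_nonneg hX Vj.card)
      rwa [one_mul] at h7
    linarith
  refine le_trans (le_of_eq ?_) h
  unfold FP.Pr
  rw [← S.P.E_const 0]
  exact S.P.E_congr fun v _ => ind_not (h1 v)

/-- monotonicity -/
theorem SMIat.mono {Vj : Finset ι} {δ : ι} {X X' m0 m0' θ θ' acc acc' r r' out out' : ℝ}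
    (H : S.SMIat Vj δ X m0 θ acc r out) (h1 : X' ≤ X) (h2 : m0' ≤ m0) (h3 : θ' ≤ θ) (h4 : acc' ≤ acc) (h5 : r ≤ r')
    (h6 : out ≤ out') : S.SMIat Vj δ X' m0' θ' acc' r' out' := by
  intro Ψ g1 g2 g3 g4 g5 g6
  have h := H Ψ g1 g2 (fun w hw t g ξ x d => (g3 w hw t g ξ x d).trans h1) g4
    (fun w hw => (Future.mono S (g5 w hw) h2)) (fun w hw => Rare.mono S (g6 w hw) h3 h4)
  refine (le_trans (S.P.Pr_mono fun v _ => ?_) h).trans h6
  rintro ⟨t, ht, h7⟩
  exact ⟨t, ht, h5.trans h7⟩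

end Sys

end

end Pool.Agent.GM
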