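import Pool.Agent.GM.MovSys
import Pool.Agent.GM.GSscale
import Pool.Agent.GM.Geo

/-!
# GM/MovFine (helper21): two geometries of different roundings on one sample space; lift of moving objects

`FineS S S'` : `S'` is finer than `S` (same law, coins, vertices, times, exact windows); `cg t (S'.gm t ω) = S.gm t ω`,
cells of `S'` inside cells of `S`, one cell / one node of `S` is at most `Rt` times one of `S'`.
`lift f` : the moving object `f` of `S` as a moving object of `S'`, same values on the paths (`at_lift`).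
* `rare_lift` : `S.Rare Vj w f θ acc`, `|f| ≤ B` ==> `S'.Rare Vj w (lift f) (Rt ^ |Vj| θ) (acc + B (near + near'))`;
* `future_lift` : `S.Future I f m` ==> `S'.Future I (lift f) (Rt m)`, `I ≠ univ` (ATTENTION: the states of `S'` know more,
  the factor `Rt` is the price; no loss in `m` is possible without it);
* `lift_par` (parents);
* `Rare.sub`, `Rare.smul`, `Future.or`, `Future.sub`;
* `binFine h h'` (`h ≤ h'`) : the instance of the binary model, `Rt = 2 ^ (h' - h)`; `lift_lift`.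
-/

set_option autoImplicit false
set_option linter.unusedSectionVars false

namespace Pool.Agent.GM

open Finset Pool.Agent.PWZ Pool.Agent.M3 Pool.Agent.M3.TS

noncomputable section

section abs

variable {ι Om Ξ Pt V Γ κ Γ' κ' : Type} [Fintype ι] [DecidableEq ι] [Fintype Om] [Fintype Ξ] [Fintype Pt]
  [Fintype V]

/-- `S'` is a finer geometry than `S` on the same sample space -/
structure FineS (S : Sys ι Om Ξ Pt V Γ κ) (S' : Sys ι Om Ξ Pt V Γ' κ') where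
  cg : ℕ → Γ' → Γ
  Rt : ℝ
  hP : S'.P = S.P
  hxi : S'.xi = S.xi
  hx : S'.x = S.x
  hn : S'.n = S.n
  hJ : S'.J = S.J
  cg_gm : ∀ t ω, cg t (S'.gm t ω) = S.gm t ω
  par_cg : ∀ t g, cg t (S'.par t g) = S.par t (cg (t + 1) g)
  cl_sub : ∀ t a a', S'.cl t a = S'.cl t a' → S.cl t a = S.cl t a'
  Rt1 : 1 ≤ Rt
  cell : ∀ t a, ∑ b, ind (S.cl t b = S.cl t a) ≤ Rt * ∑ b, ind (S'.cl t b = S'.cl t a)
  node : ∀ t ω, S.P.Pr (fun v => S.gm t v = S.gm t ω) ≤ Rt * S.P.Pr (fun v => S'.gm t v = S'.gm t ω)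

/-- the lift of a moving object -/
def liftM {β : Type} (cg : ℕ → Γ' → Γ) (f : Mov Ξ ι Pt Γ β) : Mov Ξ ι Pt Γ' β := fun t g ξ x => f t (cg t g) ξ x

namespace Sys

variable (S : Sys ι Om Ξ Pt V Γ κ)

/-! ### sums and differences -/

/-- the number of individuals of a box -/
theorem box_count (Vj : Finset ι) (t : ℕ) (y : ι → Pt) :
    ∑ z : ι → Pt, ind (S.Box Vj t y z) = ∏ i ∈ Vj, ∑ b, ind (S.cl t b = S.cl t (y i)) := by
  have h1 : ∀ z : ι → Pt, ind (S.Box Vj t y z) =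
      ∏ i, (if i ∈ Vj then ind (S.cl t (z i) = S.cl t (y i)) else ind (z i = y i)) := by
    intro z
    have h2 : S.Box Vj t y z = ∀ i, (if i ∈ Vj then S.cl t (z i) = S.cl t (y i) else z i = y i) := by
      apply propext
      constructor
      · rintro ⟨h3, h4⟩ i
        by_cases hi : i ∈ Vj
        · rw [if_pos hi]; exact h4 i hi
        · rw [if_neg hi]; exact h3 i hi
      · intro h3
        refine ⟨fun i hi => ?_, fun i hi => ?_⟩
        · have := h3 i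
          rwa [if_neg hi] at this
        · have := h3 i
          rwa [if_pos hi] at this
    rw [h2, ind_all]
    refine Finset.prod_congr rfl fun i _ => ?_
    by_cases hi : i ∈ Vj
    · rw [if_pos hi, if_pos hi]
    · rw [if_neg hi, if_neg hi]
  rw [Finset.sum_congr rfl fun z _ => h1 z,
    sum_prod (fun i a => if i ∈ Vj then ind (S.cl t a = S.cl t (y i)) else ind (a = y i))]
  have h3 : ∀ i, (∑ a, if i ∈ Vj then ind (S.cl t a = S.cl t (y i)) else ind (a = y i)) =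
      if i ∈ Vj then ∑ a, ind (S.cl t a = S.cl t (y i)) else 1 := by
    intro i
    by_cases hi : i ∈ Vj
    · simp only [if_pos hi]
    · simp only [if_neg hi]
      exact sum_ind_one _
  rw [Finset.prod_congr rfl fun i _ => h3 i, Finset.prod_ite_mem, Finset.univ_inter]

variable {S}

theorem Rare.sub {Vj : Finset ι} {w : ι} {F G : Mov Ξ ι Pt Γ (V → ℝ)} {θ θ' acc acc' : ℝ} (hF : S.Rare Vj w F θ acc)
    (hG : S.Rare Vj w G θ' acc') : S.Rare Vj w (fun t g ξ x d => F t g ξ x d - G t g ξ x d) (θ + θ') (acc + acc') := by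
  intro t ht w0 y u hu hu1
  rw [add_mul]
  refine le_trans ?_ (add_le_add (hF t ht w0 y u hu hu1) (hG t ht w0 y u hu hu1))
  rw [← Finset.sum_add_distrib]
  refine Finset.sum_le_sum fun ξ _ => ?_
  rw [← Finset.sum_add_distrib]
  refine Finset.sum_le_sum fun z _ => ?_
  have h1 : iw (S.ρ t (S.gm t w0)) (fun d => F t (S.gm t w0) ξ z d - G t (S.gm t w0) ξ z d)
      (fun d => ∏ i ∈ Vj.erase w, u i z d) =
      iw (S.ρ t (S.gm t w0)) (F t (S.gm t w0) ξ z) (fun d => ∏ i ∈ Vj.erase w, u i z d) -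
      iw (S.ρ t (S.gm t w0)) (G t (S.gm t w0) ξ z) (fun d => ∏ i ∈ Vj.erase w, u i z d) := by
    unfold iw
    rw [← Finset.sum_sub_distrib]
    exact Finset.sum_congr rfl fun d _ => by ring
  by_cases hz : S.Box Vj t y z ∧ acc + acc' ≤ |iw (S.ρ t (S.gm t w0))
      (fun d => F t (S.gm t w0) ξ z d - G t (S.gm t w0) ξ z d) (fun d => ∏ i ∈ Vj.erase w, u i z d)|
  · rw [ind_of hz]
    obtain ⟨h2, h3⟩ := hz
    rw [h1] at h3
    have h4 := abs_sub (iw (S.ρ t (S.gm t w0)) (F t (S.gm t w0) ξ z) (fun d => ∏ i ∈ Vj.erase w, u i z d))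
      (iw (S.ρ t (S.gm t w0)) (G t (S.gm t w0) ξ z) (fun d => ∏ i ∈ Vj.erase w, u i z d))
    rcases le_or_gt acc |iw (S.ρ t (S.gm t w0)) (F t (S.gm t w0) ξ z) (fun d => ∏ i ∈ Vj.erase w, u i z d)| with h5 | h5
    · rw [ind_of ⟨h2, h5⟩]
      linarith [ind_nonneg (S.Box Vj t y z ∧
        acc' ≤ |iw (S.ρ t (S.gm t w0)) (G t (S.gm t w0) ξ z) (fun d => ∏ i ∈ Vj.erase w, u i z d)|)]
    · have h6 : acc' ≤ |iw (S.ρ t (S.gm t w0)) (G t (S.gm t w0) ξ z) (fun d => ∏ i ∈ Vj.erase w, u i z d)| := by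
        linarith
      rw [ind_of (p := S.Box Vj t y z ∧
        acc' ≤ |iw (S.ρ t (S.gm t w0)) (G t (S.gm t w0) ξ z) (fun d => ∏ i ∈ Vj.erase w, u i z d)|) ⟨h2, h6⟩]
      linarith [ind_nonneg (S.Box Vj t y z ∧
        acc ≤ |iw (S.ρ t (S.gm t w0)) (F t (S.gm t w0) ξ z) (fun d => ∏ i ∈ Vj.erase w, u i z d)|)]
  · rw [ind_not hz]
    exact add_nonneg (ind_nonneg _) (ind_nonneg _)

theorem Rare.smul {Vj : Finset ι} {w : ι} {F : Mov Ξ ι Pt Γ (V → ℝ)} {θ acc c : ℝ} (hc : 0 < c)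
    (hF : S.Rare Vj w F θ acc) : S.Rare Vj w (fun t g ξ x d => c * F t g ξ x d) θ (c * acc) := by
  intro t ht w0 y u hu hu1
  refine le_trans (le_of_eq ?_) (hF t ht w0 y u hu hu1)
  refine Finset.sum_congr rfl fun ξ _ => Finset.sum_congr rfl fun z _ => ?_
  congr 1
  apply propext
  refine and_congr_right fun _ => ?_
  have h7 : iw (S.ρ t (S.gm t w0)) (fun d => c * F t (S.gm t w0) ξ z d) (fun d => ∏ i ∈ Vj.erase w, u i z d) =
      c * iw (S.ρ t (S.gm t w0)) (F t (S.gm t w0) ξ z) (fun d => ∏ i ∈ Vj.erase w, u i z d) := by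
    unfold iw
    rw [Finset.mul_sum]
    refine Finset.sum_congr rfl fun d _ => ?_
    ring
  rw [h7, abs_mul, abs_of_pos hc]
  exact mul_le_mul_iff_right₀ hc

/-- an object which moves only together with `f` or `g` -/
theorem Future.or {β β' β'' : Type} {I : Finset ι} {f : Mov Ξ ι Pt Γ β} {g : Mov Ξ ι Pt Γ β'} {h : Mov Ξ ι Pt Γ β''}
    {m m' : ℝ} (hf : S.Future I f m) (hg : S.Future I g m')
    (hh : ∀ t w, S.at' f (t + 1) w = S.at' f t w → S.at' g (t + 1) w = S.at' g t w → S.at' h (t + 1) w = S.at' h t w) :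
    S.Future I h (m + m') := by
  intro t φ hφ hφ0
  rw [add_mul]
  refine le_trans ?_ (add_le_add (hf t φ hφ hφ0) (hg t φ hφ hφ0))
  rw [← Finset.sum_add_distrib]
  refine Finset.sum_le_sum fun u _ => ?_
  rw [← S.P.E_add]
  refine S.P.E_mono fun ω _ => ?_
  rw [← mul_add]
  refine mul_le_mul_of_nonneg_left ?_ (hφ0 ω)
  by_cases h3 : S.at' f (u + 1) ω = S.at' f u ω
  · by_cases h4 : S.at' g (u + 1) ω = S.at' g u ω
    · rw [ind_not (fun h' => h' (hh u ω h3 h4))]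
      exact add_nonneg (ind_nonneg _) (ind_nonneg _)
    · rw [ind_of h4]
      have := ind_nonneg (S.at' f (u + 1) ω ≠ S.at' f u ω)
      linarith [ind_le_one (S.at' h (u + 1) ω ≠ S.at' h u ω)]
  · rw [ind_of h3]
    have := ind_nonneg (S.at' g (u + 1) ω ≠ S.at' g u ω)
    linarith [ind_le_one (S.at' h (u + 1) ω ≠ S.at' h u ω)]

theorem Future.sub {I : Finset ι} {F G : Mov Ξ ι Pt Γ (V → ℝ)} {m m' : ℝ} (hf : S.Future I F m)
    (hg : S.Future I G m') : S.Future I (fun t g ξ x d => F t g ξ x d - G t g ξ x d) (m + m') := by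
  refine Future.or hf hg fun t w h1 h2 => ?_
  funext d
  have h3 := congrFun h1 d
  have h4 := congrFun h2 d
  unfold at' at h3 h4 ⊢
  show F (t + 1) (S.gm (t + 1) w) (S.xi w) (S.x w) d - G (t + 1) (S.gm (t + 1) w) (S.xi w) (S.x w) d =
    F t (S.gm t w) (S.xi w) (S.x w) d - G t (S.gm t w) (S.xi w) (S.x w) d
  rw [h3, h4]

end Sys

namespace FineS

variable {S : Sys ι Om Ξ Pt V Γ κ} {S' : Sys ι Om Ξ Pt V Γ' κ'} (A : FineS S S')

/-- the lift -/
abbrev lift {β : Type} (A : FineS S S') (f : Mov Ξ ι Pt Γ β) : Mov Ξ ι Pt Γ' β := liftM A.cg f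

include A

theorem at_lift {β : Type} (f : Mov Ξ ι Pt Γ β) (t : ℕ) (ω : Om) : S'.at' (liftM A.cg f) t ω = S.at' f t ω := by
  unfold Sys.at' liftM
  rw [A.cg_gm, A.hxi, A.hx]

theorem at'_lift {β : Type} (f : Mov Ξ ι Pt Γ β) (t : ℕ) (ω : Om) : S'.at' (A.lift f) t ω = S.at' f t ω := A.at_lift f t ω

/-- the parent of a lift is the lift of the parent -/
theorem lift_par {β : Type} (f : Mov Ξ ι Pt Γ β) (t : ℕ) (g : Γ') (ξ : Ξ) (x : ι → Pt) :
    A.lift f t (S'.par t g) ξ x = f t (S.par t (A.cg (t + 1) g)) ξ x := by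
  show f t (A.cg t (S'.par t g)) ξ x = _
  rw [A.par_cg]

theorem dep_lift {β : Type} {I : Finset ι} {f : Mov Ξ ι Pt Γ β} (h : ∀ t g ξ, Dep I (f t g ξ)) (t : ℕ) (g : Γ')
    (ξ : Ξ) : Dep I (liftM A.cg f t g ξ) := h t _ ξ

/-- the boxes -/
theorem box_le (Vj : Finset ι) (t : ℕ) (y : ι → Pt) :
    ∑ z : ι → Pt, ind (S.Box Vj t y z) ≤ A.Rt ^ Vj.card * ∑ z : ι → Pt, ind (S'.Box Vj t y z) := by
  rw [S.box_count, S'.box_count, ← Finset.prod_const, ← Finset.prod_mul_distrib]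
  exact Finset.prod_le_prod (fun i _ => Finset.sum_nonneg fun _ _ => ind_nonneg _) fun i _ => A.cell t (y i)

theorem box_sub {Vj : Finset ι} {t : ℕ} {y z : ι → Pt} (h : S'.Box Vj t y z) : S.Box Vj t y z :=
  ⟨h.1, fun i hi => A.cl_sub t _ _ (h.2 i hi)⟩

/-- the windows -/
theorem near_lift (t : ℕ) (ω : Om) {f h : V → ℝ} {B : ℝ} (hB : 0 ≤ B) (hf : ∀ d, |f d| ≤ B) (hh : ∀ d, |h d| ≤ 1) :
    |iw (S'.ρ t (S'.gm t ω)) f h - iw (S.ρ t (S.gm t ω)) f h| ≤ B * (S.near + S'.near) := by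
  rcases hB.eq_or_lt with h0 | h0
  · have h1 : f = fun _ => 0 := by
      funext d
      have := hf d
      rw [← h0] at this
      exact abs_nonpos_iff.1 this
    rw [h1]
    unfold iw
    simp only [mul_zero, zero_mul, Finset.sum_const_zero, sub_zero, abs_zero]
    rw [← h0, zero_mul]
  · have hf1 : ∀ d, |(fun d => f d / B) d| ≤ 1 := by
      intro d
      show |f d / B| ≤ 1
      rw [abs_div, abs_of_pos h0, div_le_one h0]
      exact hf d
    have h1 := S.Jnear t ω (fun d => f d / B) h hf1 hh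
    have h2 := S'.Jnear t ω (fun d => f d / B) h hf1 hh
    rw [A.hJ] at h2
    have h3 : ∀ W : V → ℝ, iw W f h = B * iw W (fun d => f d / B) h := by
      intro W
      unfold iw
      rw [Finset.mul_sum]
      refine Finset.sum_congr rfl fun d _ => ?_
      have := h0.ne'
      field_simp
    rw [h3, h3 (S.ρ t (S.gm t ω)), ← mul_sub, abs_mul, abs_of_pos h0]
    refine mul_le_mul_of_nonneg_left ?_ h0.le
    obtain ⟨h4, h5⟩ := abs_le.1 h1
    obtain ⟨h6, h7⟩ := abs_le.1 h2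
    rw [abs_le]
    constructor <;> linarith

/-- **rarity in the finer geometry** -/
theorem rare_lift {Vj : Finset ι} {w : ι} {f : Mov Ξ ι Pt Γ (V → ℝ)} {θ acc B : ℝ} (hθ : 0 ≤ θ) (hB : 0 ≤ B)
    (hf : ∀ t g ξ x d, |f t g ξ x d| ≤ B) (h : S.Rare Vj w f θ acc) :
    S'.Rare Vj w (liftM A.cg f) (A.Rt ^ Vj.card * θ) (acc + B * (S.near + S'.near)) := by
  intro t ht ω y u hu hu1
  have h1 := h t (by rw [← A.hn]; exact ht) ω y u hu hu1
  have h2 : ∑ ξ : Ξ, ∑ z : ι → Pt, ind (S'.Box Vj t y z ∧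
        acc + B * (S.near + S'.near) ≤ |iw (S'.ρ t (S'.gm t ω)) (liftM A.cg f t (S'.gm t ω) ξ z)
          (fun d => ∏ i ∈ Vj.erase w, u i z d)|) ≤
      ∑ ξ : Ξ, ∑ z : ι → Pt, ind (S.Box Vj t y z ∧
        acc ≤ |iw (S.ρ t (S.gm t ω)) (f t (S.gm t ω) ξ z) (fun d => ∏ i ∈ Vj.erase w, u i z d)|) := by
    refine Finset.sum_le_sum fun ξ _ => Finset.sum_le_sum fun z _ => ind_mono ?_
    rintro ⟨h3, h4⟩
    refine ⟨A.box_sub h3, ?_⟩
    unfold liftM at h4
    rw [A.cg_gm] at h4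
    have h5 := A.near_lift t ω (f := f t (S.gm t ω) ξ z) (h := fun d => ∏ i ∈ Vj.erase w, u i z d) hB
      (fun d => hf _ _ _ _ _) (fun d => by
        rw [Finset.abs_prod]
        exact Finset.prod_le_one (fun i _ => abs_nonneg _) fun i _ => hu1 i z d)
    have h6 := abs_sub_abs_le_abs_sub (iw (S'.ρ t (S'.gm t ω)) (f t (S.gm t ω) ξ z) (fun d => ∏ i ∈ Vj.erase w, u i z d))
      (iw (S.ρ t (S.gm t ω)) (f t (S.gm t ω) ξ z) (fun d => ∏ i ∈ Vj.erase w, u i z d))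
    linarith
  refine (h2.trans h1).trans ?_
  rw [mul_comm (A.Rt ^ Vj.card) θ, mul_assoc]
  refine mul_le_mul_of_nonneg_left ?_ hθ
  rw [Finset.mul_sum]
  exact Finset.sum_le_sum fun ξ _ => A.box_le Vj t y

/-- one state of `S` against one state of `S'` -/
theorem state_le {I : Finset ι} (hI : I ≠ univ) (t : ℕ) (ω : Om) :
    S.P.m (S.stI I t) ω ≤ A.Rt * S.P.m (S'.stI I t) ω := by
  have h1 : S.P.m (S.stI I t) ω = S.P.Pr (fun v => S.xi v = S.xi ω ∧ (∀ j ∈ I, S.x v j = S.x ω j) ∧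
      S.gm t v = S.gm t ω) := by
    refine S.P.Pr_congr fun v _ => ?_
    unfold Sys.stI
    rw [Prod.mk.injEq, Prod.mk.injEq, res_eq]
  have h2 : S.P.m (S'.stI I t) ω = S'.P.Pr (fun v => S'.xi v = S.xi ω ∧ (∀ j ∈ I, S'.x v j = S.x ω j) ∧
      S'.gm t v = S'.gm t ω) := by
    rw [A.hP, A.hxi, A.hx]
    refine S.P.Pr_congr fun v _ => ?_
    unfold Sys.stI
    rw [A.hxi, A.hx, Prod.mk.injEq, Prod.mk.injEq, res_eq]
  rw [h1, h2, S.law_set hI, S'.law_set hI, ← mul_div_assoc, A.hP]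
  exact div_le_div_of_nonneg_right (A.node t ω) (by positivity)

/-- **future moves in the finer geometry** -/
theorem future_lift {β : Type} {I : Finset ι} (hI : I ≠ univ) {f : Mov Ξ ι Pt Γ β} {m : ℝ} (hm : 0 ≤ m)
    (h : S.Future I f m) : S'.Future I (liftM A.cg f) (A.Rt * m) := by
  intro t φ hφ hφ0
  rw [A.hn, A.hP]
  have h1 : ∀ u, S.P.E (fun ω => φ ω * ind (S'.at' (liftM A.cg f) (u + 1) ω ≠ S'.at' (liftM A.cg f) u ω)) =
      S.P.E (fun ω => φ ω * S.P.ce (S'.stI I t) (fun v => ind (S.at' f (u + 1) v ≠ S.at' f u v)) ω) := by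
    intro u
    rw [S.P.E_mul_ce hφ]
    refine S.P.E_congr fun ω _ => ?_
    rw [A.at_lift, A.at_lift]
  rw [Finset.sum_congr rfl fun u _ => h1 u, ← S.P.E_sum, ← S.P.E_smul]
  refine S.P.E_mono fun ω hω => ?_
  rw [← Finset.mul_sum, mul_comm (A.Rt * m)]
  refine mul_le_mul_of_nonneg_left ?_ (hφ0 ω)
  have hpos : 0 < S.P.m (S'.stI I t) ω := S.P.m_pos _ hω
  have h2 := h t (fun v => ind (S.stI I t v = S.stI I t ω)) (Fac.ind fun v v' e => by rw [e]) (fun _ => ind_nonneg _)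
  have h3 : ∑ u ∈ Finset.Ico t S.n, S.P.ce (S'.stI I t) (fun v => ind (S.at' f (u + 1) v ≠ S.at' f u v)) ω =
      (∑ u ∈ Finset.Ico t S.n, S.P.E (fun v => ind (S'.stI I t v = S'.stI I t ω) *
        ind (S.at' f (u + 1) v ≠ S.at' f u v))) / S.P.m (S'.stI I t) ω := by
    rw [Finset.sum_div]
    rfl
  rw [h3, div_le_iff₀ hpos]
  refine le_trans (Finset.sum_le_sum fun u _ => S.P.E_mono fun v _ => ?_) (h2.trans ?_)
  · refine mul_le_mul_of_nonneg_right (ind_mono fun e => ?_) (ind_nonneg _)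
    unfold Sys.stI at e ⊢
    rw [A.hxi, A.hx, Prod.mk.injEq, Prod.mk.injEq] at e
    rw [Prod.mk.injEq, Prod.mk.injEq]
    exact ⟨e.1, e.2.1, by rw [← A.cg_gm, ← A.cg_gm, e.2.2]⟩
  · have h4 := A.state_le hI t ω
    have h5 : S.P.E (fun v => ind (S.stI I t v = S.stI I t ω)) = S.P.m (S.stI I t) ω := rfl
    rw [h5]
    nlinarith

end FineS

end abs

/-! ### the binary model -/

section bin

open Pool.Agent.M3.Bin
open Pool.Agent.M3.Mod (ex ex_zero ex_succ ex_top exk ex_anti Wz WS sum_Wz WS_nonneg Wz_nonneg cQ)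

variable {k N : ℕ} {ι Θ Ξ Q : Type} [Fintype ι] [DecidableEq ι] (σ : V k) [Fintype Θ] [Nonempty Θ] [Fintype Ξ]
  [Nonempty Ξ] [Fintype Q] [Nonempty Q]

omit [Nonempty Q] in
theorem WS_eq (h e : ℕ) (g : V k × ℕ) : WS Q N h e g = Fintype.card Q * (((2 : ℝ) ^ N)⁻¹ *
    ((∑ w ∈ range (2 ^ N), ind (w / 2 ^ e = g.2)) * ∑ y : V k, ind (flr (e - h) y = g.1))) := by
  unfold WS Wz
  rw [Fintype.sum_prod_type]
  show ∑ _q : Q, ∑ z : V k, ((2 : ℝ) ^ N)⁻¹ * ∑ w ∈ range (2 ^ N), ind (G h e z w = g) = _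
  rw [Finset.sum_const, Finset.card_univ, nsmul_eq_mul]
  congr 1
  rw [← Finset.mul_sum, Finset.sum_comm]
  congr 1
  rw [Finset.sum_mul]
  refine Finset.sum_congr rfl fun w _ => ?_
  have h1 : ∀ z : V k, ind (G h e z w = g) =
      ind (w / 2 ^ e = g.2) * ind (flr (e - h) (z + ((w % 2 ^ e : ℕ) : V k)) = g.1) := by
    intro z
    rw [← ind_and]
    congr 1
    apply propext
    unfold G gam Bin.pos
    rw [Prod.ext_iff, and_comm]
  rw [Finset.sum_congr rfl fun z _ => h1 z, ← Finset.mul_sum]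
  congr 1
  exact Equiv.sum_comp (Equiv.addRight ((w % 2 ^ e : ℕ) : V k)) (fun z => ind (flr (e - h) z = g.1))

/-- the law of the node -/
theorem Pr_gvM (i : ι) (h e : ℕ) (g : Θ × (V k × ℕ)) : (PM k N ι Θ Ξ Q).Pr (fun ω => gv σ h e ω = g) =
    Fintype.card Ξ * (kapm k ι Θ Ξ Q * (WS Q N h e g.2 * (Fintype.card (Q × V k) : ℝ) ^ Fintype.card ι /
      Fintype.card (Q × V k))) := by
  have h3 := PS' σ (Θ := Θ) (Ξ := Ξ) (Q := Q) (N := N) i h e g (fun _ => True)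
  have h4 := sum_C_W σ (Q := Q) (N := N) h e g.2 i (fun _ => True) (fun _ _ => Iff.rfl)
  have h5 : (PM k N ι Θ Ξ Q).Pr (fun ω => True ∧ gv σ h e ω = g) =
      (PM k N ι Θ Ξ Q).Pr (fun ω => gv σ h e ω = g) := FP.Pr_congr _ fun ω _ => by simp
  have h6 : ∑ z : ι → Q × V k, ind True = (Fintype.card (Q × V k) : ℝ) ^ Fintype.card ι := by
    rw [Finset.sum_congr rfl fun z _ => ind_of trivial, Finset.sum_const, Finset.card_univ, nsmul_eq_mul, mul_one,
      Fintype.card_fun]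
    push_cast
    rfl
  rw [h5] at h3
  rw [h6] at h4
  rw [h3]
  congr 2
  rw [eq_div_iff (cPt_pos (k := k) (Q := Q)).ne', mul_comm]
  exact h4

/-- the nodes of two roundings -/
theorem node_bin (i : ι) {h h' : ℕ} (hh : h ≤ h') {e : ℕ} (he : e ≤ k) (ω : Sq k N ι Θ (Ξ × Q)) :
    (PM k N ι Θ Ξ Q).Pr (fun v => gv σ h e v = gv σ h e ω) ≤
      2 ^ (h' - h) * (PM k N ι Θ Ξ Q).Pr (fun v => gv σ h' e v = gv σ h' e ω) := by
  rw [Pr_gvM σ i, Pr_gvM σ i, WS_eq, WS_eq]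
  have h1 : ∑ y : V k, ind (flr (e - h) y = (gv σ h e ω).2.1) = 2 ^ (e - h) :=
    card_cell' (by omega) _ (G_aligned h e _ _)
  have h2 : ∑ y : V k, ind (flr (e - h') y = (gv σ h' e ω).2.1) = 2 ^ (e - h') :=
    card_cell' (by omega) _ (G_aligned h' e _ _)
  have h3 : (gv σ h' e ω).2.2 = (gv σ h e ω).2.2 := rfl
  rw [h1, h2, h3]
  have h4 : (2 : ℝ) ^ (e - h) ≤ 2 ^ (h' - h) * 2 ^ (e - h') := by
    rw [← pow_add]
    exact pow_le_pow_right₀ (by norm_num) (by omega)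
  have h5 := kapm_pos (k := k) (ι := ι) (Θ := Θ) (Ξ := Ξ) (Q := Q)
  have h6 : (0 : ℝ) ≤ ∑ w ∈ range (2 ^ N), ind (w / 2 ^ e = (gv σ h e ω).2.2) :=
    Finset.sum_nonneg fun _ _ => ind_nonneg _
  set s := ∑ w ∈ range (2 ^ N), ind (w / 2 ^ e = (gv σ h e ω).2.2) with hs
  set c : ℝ := Fintype.card Ξ * (kapm k ι Θ Ξ Q * (Fintype.card Q * (((2 : ℝ) ^ N)⁻¹ * s) *
    (Fintype.card (Q × V k) : ℝ) ^ Fintype.card ι / Fintype.card (Q × V k))) with hc
  have h7 : 0 ≤ c := by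
    rw [hc]
    positivity
  calc _ = c * 2 ^ (e - h) := by rw [hc]; ring
    _ ≤ c * (2 ^ (h' - h) * 2 ^ (e - h')) := mul_le_mul_of_nonneg_left h4 h7
    _ = _ := by rw [hc]; ring

/-- the cells of two roundings -/
theorem cell_bin {h h' : ℕ} (hh : h ≤ h') {e : ℕ} (he : e ≤ k) (a : Q × V k) :
    ∑ b : Q × V k, ind (flr (e - (h + 3)) b.2 = flr (e - (h + 3)) a.2) ≤
      2 ^ (h' - h) * ∑ b : Q × V k, ind (flr (e - (h' + 3)) b.2 = flr (e - (h' + 3)) a.2) := by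
  have h1 : ∀ j : ℕ, j ≤ k → ∑ b : Q × V k, ind (flr j b.2 = flr j a.2) = Fintype.card Q * 2 ^ j := by
    intro j hj
    rw [Fintype.sum_prod_type]
    show ∑ _q : Q, ∑ b : V k, ind (flr j b = flr j a.2) = _
    rw [Finset.sum_const, Finset.card_univ, nsmul_eq_mul, card_cell' hj _ (flr_flr le_rfl _)]
  rw [h1 _ (by omega), h1 _ (by omega)]
  have h4 : (2 : ℝ) ^ (e - (h + 3)) ≤ 2 ^ (h' - h) * 2 ^ (e - (h' + 3)) := by
    rw [← pow_add]
    exact pow_le_pow_right₀ (by norm_num) (by omega)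
  calc (Fintype.card Q : ℝ) * 2 ^ (e - (h + 3)) ≤ Fintype.card Q * (2 ^ (h' - h) * 2 ^ (e - (h' + 3))) :=
        mul_le_mul_of_nonneg_left h4 (Nat.cast_nonneg _)
    _ = _ := by ring

/-- coarsening of the nodes -/
def cgB (N h : ℕ) (t : ℕ) (g : Θ × (V k × ℕ)) : Θ × (V k × ℕ) := (g.1, (flr (ex N t - h) g.2.1, g.2.2))

/-- **the binary model with two roundings `h ≤ h'`** -/
def binFine (i : ι) (hN : N ≤ k) {h h' : ℕ} (hh : h ≤ h') :
    FineS (binSys Θ Ξ Q σ i hN h) (binSys Θ Ξ Q σ i hN h') where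
  cg := cgB N h
  Rt := 2 ^ (h' - h)
  hP := rfl
  hxi := rfl
  hx := rfl
  hn := rfl
  hJ := rfl
  cg_gm t ω := by
    show (th ω, (flr (ex N t - h) (flr (ex N t - h') _), _)) = (th ω, (flr (ex N t - h) _, _))
    rw [flr_flr (by omega)]
    rfl
  par_cg t g := by
    show cgB N h t (if t < N then (g.1, Bin.par h' (ex N (t + 1)) g.2) else g) =
      (if t < N then ((cgB N h (t + 1) g).1, Bin.par h (ex N (t + 1)) (cgB N h (t + 1) g).2) else cgB N h (t + 1) g)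
    by_cases ht : t < N
    · rw [if_pos ht, if_pos ht]
      unfold cgB Bin.par
      simp only
      rw [ex_succ ht, flr_flr (by omega), ← flr_add_mul (Nat.sub_le (ex N (t + 1)) h), flr_flr (by omega)]
    · rw [if_neg ht, if_neg ht]
      unfold cgB
      rw [ex_top (by omega), ex_top (by omega)]
  cl_sub t a a' haa := flr_mono_eq (by omega) haa
  Rt1 := one_le_pow₀ (by norm_num)
  cell t a := cell_bin hh (exk hN t) a
  node t ω := node_bin σ i hh (exk hN t) ω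

/-- lifts compose -/
theorem lift_lift {β : Type} {h h' h'' : ℕ} (hh : h ≤ h') (f : Mov Ξ ι (Q × V k) (Θ × (V k × ℕ)) β) :
    liftM (cgB N h' (Θ := Θ) (k := k)) (liftM (cgB N h) f) = liftM (cgB N h) f := by
  funext t g ξ x
  unfold liftM cgB
  simp only
  rw [flr_flr (by omega)]

end bin

end

end Pool.Agent.GM
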