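import Pool.Agent.GM.MovSys
import Pool.Agent.GM.Geo

/-!
# GM/PieceDef (helper17): the contract of a PIECE (one layer) of (SMI_j), row GS.2

`S : Sys`, `Vj` = the unknown vertices, `δ` = the vertex whose face carries the coins, `q` = the structured face.
* `GS.BL S Vj q m T` : a cumulative list of births of the face `q` (`L`), the public births of the nodes (`B`);
* `GS.StrF S Vj δ q F m T` : STRUCTURED FACE `F = (psi e1 (list 1) - psi e0 (list 0)) / 4`; a birth of the face `q` is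
  a product over `i ∈ Vj.erase q` of sign functions `Mv.msgn Vj q i s` which miss `q` and `i`, coin free
  (`Mv.mvals` = the values of the tests of a list);
* `GS.Faces S Vj δ F m θ acc` : the faces of a piece: `|F w| ≤ 1`, `F w` misses `w`, coin free for `w ≠ δ`, `0` at the
  time `0`, at most `m` future moves in mean from every state, `Rare` for EVERY face;
* `GS.PieceAt`, **`GS.PieceBin j κ C`** : the contract, for all binary models with `j` vertices;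
  `GS.PieceBin0` : the same without coins (`Ξ = Unit`, enough for the top level).
`GM/GSpar` : `(∃ κ > 0, ∃ C, PieceBin j κ C) → ∃ C', SMIbin j C'`.
-/

set_option autoImplicit false
set_option linter.unusedSectionVars false

namespace Pool.Agent.GM.GS

open Finset Pool.Agent.PWZ Pool.Agent.M3 Pool.Agent.M3.TS Pool.Agent.M3.Bin Pool.Agent.GM Pool.Agent.GM.Mv

noncomputable section

variable {ι Om Ξ Pt V Γ κ : Type} [Fintype ι] [DecidableEq ι] [Fintype Om] [Fintype Ξ] [Fintype Pt]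
  [Fintype V] (S : Sys ι Om Ξ Pt V Γ κ) (Vj : Finset ι)

/-- a cumulative list of births of the face `q`; `B` = the public births of the node -/
structure BL (q : ι) (m T : ℝ) where
  L : Mov Ξ ι Pt Γ (List (Birth (TJs Pt V Vj q → Bool)))
  B : Mov Ξ ι Pt Γ (Finset (Birth (TJs Pt V Vj q → Bool)))
  dep : ∀ t g ξ, Dep (univ.erase q) (L t g ξ)
  /-- the public births are a function of the node, of the exact values off `Vj` and of the cells in `Vj` -/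
  cell : ∀ t g ξ ξ' (x y : ι → Pt), (∀ i, i ∉ Vj → i ≠ q → y i = x i) →
    (∀ i ∈ Vj, i ≠ q → S.cl t (y i) = S.cl t (x i)) → B t g ξ' y = B t g ξ x
  zero : ∀ g ξ x, L 0 g ξ x = []
  /-- the list grows at its head -/
  suf : ∀ t g ξ x, L t (S.par t g) ξ x <:+ L (t + 1) g ξ x
  nodup : ∀ t g ξ x, (L t g ξ x).Nodup
  time : ∀ t g ξ x, ∀ s ∈ L t g ξ x, s.t ≤ t
  btime : ∀ t g ξ x, ∀ s ∈ B t g ξ x, s.t = t
  new : ∀ t g ξ x, ∀ s ∈ L (t + 1) g ξ x, s ∈ L t (S.par t g) ξ x ∨ s ∈ B (t + 1) g ξ x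
  fut : S.Future (univ.erase q) L m
  tail : ∀ k : ℕ, S.P.Pr (fun ω => (k : ℝ) * m ≤ (S.at' L S.n ω).length) ≤ (1 / 2) ^ k
  pub : S.P.E (fun ω => ∑ t ∈ range (S.n + 1), ((S.at' B t ω).card : ℝ)) ≤ T

/-- **the faces of a piece** -/
structure Faces (δ : ι) (F : ι → Mov Ξ ι Pt Γ (V → ℝ)) (m θ acc : ℝ) : Prop where
  dep : ∀ w ∈ Vj, ∀ t g ξ, Dep (univ.erase w) (F w t g ξ)
  coin : ∀ w ∈ Vj, w ≠ δ → ∀ t g ξ ξ', F w t g ξ = F w t g ξ'
  bd : ∀ w ∈ Vj, ∀ t g ξ x d, |F w t g ξ x d| ≤ 1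
  zero : ∀ w ∈ Vj, ∀ g ξ x, F w 0 g ξ x = 0
  fut : ∀ w ∈ Vj, S.Future (univ.erase w) (F w) m
  rare : ∀ w ∈ Vj, S.Rare Vj w (F w) θ acc

/-- **the structured face `q` of a piece** -/
structure StrF (δ q : ι) (F : Mov Ξ ι Pt Γ (V → ℝ)) (m T : ℝ) where
  e0 : ℝ
  e1 : ℝ
  pe0 : 1 / m ≤ e0
  pe1 : 1 / m ≤ e1
  b0 : BL S Vj q m T
  b1 : BL S Vj q m T
  coin0 : q ≠ δ → ∀ t g ξ ξ', b0.L t g ξ = b0.L t g ξ'
  coin1 : q ≠ δ → ∀ t g ξ ξ', b1.L t g ξ = b1.L t g ξ'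
  eq : ∀ t g ξ x d, F t g ξ x d =
    (psi e1 (mvals Vj q (b1.L t g ξ x) x d) - psi e0 (mvals Vj q (b0.L t g ξ x) x d)) / 4

/-- the statement of one piece -/
def PieceAt (δ q : ι) (m T θ acc r out : ℝ) : Prop :=
  ∀ F : ι → Mov Ξ ι Pt Γ (V → ℝ), Faces S Vj δ F m θ acc → Nonempty (StrF S Vj δ q (F q) m T) →
    S.P.Pr (fun ω => ∃ t ≤ S.n, r ≤ |iw (S.J t ω) (fun d => ∏ i ∈ Vj, S.at' (F i) t ω d) (fun _ => 1)|) ≤ out

/-- **THE CONTRACT**: all pieces of all binary models with `j` vertices; rarity `exp (-Λ)` at `β ^ C`, mean number of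
public births `≤ H exp ((1 + κ) Λ)`; sizes `K, Λ ≤ exp H` -/
def PieceBin (j : ℕ) (κ : ℝ) (C : ℕ) : Prop :=
  ∀ (ι Θ Ξ Q : Type) [Fintype ι] [DecidableEq ι] [Fintype Θ] [Nonempty Θ] [Fintype Ξ] [Nonempty Ξ] [Fintype Q]
    [Nonempty Q] (k N : ℕ) (σ : Bin.V k) (i δ q : ι) (hN : N ≤ k) (h : ℕ), Fintype.card ι = j →
    ∀ β H Λ : ℝ, 0 < β → β ≤ 1 / 2 → 1 / β ≤ H → (binSys Θ Ξ Q σ i hN h).K ≤ Real.exp H →
      (binSys Θ Ξ Q σ i hN h).near ≤ β ^ C → H ^ C ≤ Λ → Λ ≤ Real.exp H →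
      PieceAt (binSys Θ Ξ Q σ i hN h) univ δ q H (H * Real.exp ((1 + κ) * Λ)) (Real.exp (-Λ)) (β ^ C) β
        (Real.exp (-H))

/-- the contract without coins (`Ξ = Unit`) -/
def PieceBin0 (j : ℕ) (κ : ℝ) (C : ℕ) : Prop :=
  ∀ (ι Θ Q : Type) [Fintype ι] [DecidableEq ι] [Fintype Θ] [Nonempty Θ] [Fintype Q]
    [Nonempty Q] (k N : ℕ) (σ : Bin.V k) (i δ q : ι) (hN : N ≤ k) (h : ℕ), Fintype.card ι = j →
    ∀ β H Λ : ℝ, 0 < β → β ≤ 1 / 2 → 1 / β ≤ H → (binSys Θ Unit Q σ i hN h).K ≤ Real.exp H →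
      (binSys Θ Unit Q σ i hN h).near ≤ β ^ C → H ^ C ≤ Λ → Λ ≤ Real.exp H →
      PieceAt (binSys Θ Unit Q σ i hN h) univ δ q H (H * Real.exp ((1 + κ) * Λ)) (Real.exp (-Λ)) (β ^ C) β
        (Real.exp (-H))

theorem PieceBin.zero {j : ℕ} {κ : ℝ} {C : ℕ} (h : PieceBin j κ C) : PieceBin0 j κ C :=
  fun ι Θ Q _ _ _ _ _ _ => h ι Θ Unit Q

end

end Pool.Agent.GM.GS
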