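import Pool.Agent.GM.GScoin
import Pool.Agent.GM.MovBirths
import Pool.Agent.GM.MovFine
import Pool.Agent.GM.PieceDef

/-!
# GM/GSstr (helper17): lists of births for the contract `PieceBin`

`BL.mono`, `BL.nil` (no births), `BL.of` (the lists of `MovSys`), `BL.lift` (finer geometry).
-/

set_option autoImplicit false
set_option linter.unusedSectionVars false

namespace Pool.Agent.GM.GS

open Finset Pool.Agent.PWZ Pool.Agent.M3 Pool.Agent.M3.TS Pool.Agent.GM.Mv
open Pool.Agent.M3.Bin (nst thrs nst_lt)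

noncomputable section

variable {ι Om Ξ Pt V Γ κ : Type} [Fintype ι] [DecidableEq ι] [Fintype Om] [Fintype Ξ] [Fintype Pt]
  [Fintype V] {S : Sys ι Om Ξ Pt V Γ κ} {Vj : Finset ι} {q : ι}

/-- larger bounds -/
def BL.mono {m m' T T' : ℝ} (b : BL S Vj q m T) (hm : m ≤ m') (hT : T ≤ T') : BL S Vj q m' T' where
  L := b.L
  B := b.B
  dep := b.dep
  cell := b.cell
  zero := b.zero
  suf := b.suf
  nodup := b.nodup
  time := b.time
  btime := b.btime
  new := b.new
  fut := by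
    intro t φ hφ h0
    exact (b.fut t φ hφ h0).trans (mul_le_mul_of_nonneg_right hm (S.P.E_nonneg fun w _ => h0 w))
  tail := by
    intro k
    refine le_trans (S.P.Pr_mono fun ω _ h => ?_) (b.tail k)
    exact (mul_le_mul_of_nonneg_left hm (Nat.cast_nonneg k)).trans h
  pub := b.pub.trans hT

/-- no births -/
def BL.nil {m T : ℝ} (hm : 0 < m) (hT : 0 ≤ T) : BL S Vj q m T where
  L _ _ _ _ := []
  B _ _ _ _ := ∅
  dep _ _ _ := fun _ _ _ => rfl
  cell _ _ _ _ _ _ _ _ := rfl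
  zero _ _ _ := rfl
  suf _ _ _ _ := List.suffix_refl _
  nodup _ _ _ _ := List.nodup_nil
  time _ _ _ _ s hs := absurd hs List.not_mem_nil
  btime _ _ _ _ s hs := absurd hs (Finset.notMem_empty s)
  new _ _ _ _ s hs := Or.inl hs
  fut := by
    intro t φ _ h0
    refine le_trans (le_of_eq ?_) (mul_nonneg hm.le (S.P.E_nonneg fun w _ => h0 w))
    refine Finset.sum_eq_zero fun u _ => ?_
    rw [← S.P.E_const 0]
    refine S.P.E_congr fun ω _ => ?_
    rw [ind_not (fun h => h rfl), mul_zero]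
  tail := by
    intro k
    rcases Nat.eq_zero_or_pos k with h | h
    · rw [h, pow_zero]
      exact S.P.Pr_le_one _
    · refine le_trans (le_of_eq ?_) (by positivity)
      unfold FP.Pr
      rw [← S.P.E_const 0]
      refine S.P.E_congr fun ω _ => ind_not fun h1 => ?_
      have h2 : (0 : ℝ) < k := by exact_mod_cast h
      have h3 : (k : ℝ) * m ≤ 0 := by simpa [Sys.at'] using h1
      have := mul_pos h2 hm
      linarith
  pub := by
    refine le_trans (le_of_eq ?_) hT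
    rw [← S.P.E_const 0]
    refine S.P.E_congr fun ω _ => ?_
    simp [Sys.at']

/-- the lists of `MovSys` -/
def BL.of [Nonempty (TK Vj q)] {X ep th m0 : ℝ} {Ψ : Mov Ξ ι Pt Γ (V → ℝ)} (hX : 0 < X) (hep : 0 < ep)
    (hth : 0 < th) (hΨ : ∀ t g ξ, Dep (univ.erase q) (Ψ t g ξ)) (hΨX : ∀ t g ξ x d, |Ψ t g ξ x d| ≤ X)
    (h0 : ∀ g ξ x, Ψ 0 g ξ x = 0) (hm0 : 0 ≤ m0) (hm : S.Future (univ.erase q) Ψ m0) :
    BL S Vj q (64 * (1 + m0) / (3 * ep ^ 2)) (32 * (1 + 4 * m0) / (ep ^ 3 * th)) where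
  L := mLst S Vj q X ep th Ψ
  B := mBf S Vj q X ep th Ψ
  dep := mLst_dep S Vj q
  cell _ _ _ _ _ _ h1 h2 := mBf_congr S Vj h1 h2
  zero := mLst_zero S Vj hep hth h0
  suf := mLst_suffix S Vj
  nodup := mLst_nodup S Vj
  time _ _ _ _ _ hs := mLst_time S Vj hs
  btime _ _ _ _ _ hs := mBf_time S Vj hs
  new _ _ _ _ _ hs := mem_mLst S Vj hs
  fut := by
    intro t φ hφ h0
    refine (mLst_future S Vj hX hep hΨ hΨX hm0 hm t φ hφ h0).trans
      (mul_le_mul_of_nonneg_right ?_ (S.P.E_nonneg fun w _ => h0 w))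
    rw [div_le_div_iff₀ (by positivity) (by positivity)]
    have : 0 ≤ (1 + m0) * ep ^ 2 := by positivity
    nlinarith
  tail := mLst_tail S Vj hX hep hΨ hΨX hm0 hm
  pub := by
    refine (S.P.E_mono fun ω _ => Finset.sum_le_sum fun t _ => ?_).trans (mPub_mean S Vj hX hep hth hΨ hΨX hm)
    exact_mod_cast card_mBf S Vj t (S.gm t ω) (S.xi ω) (S.x ω)

variable {Γ' κ' : Type} {S' : Sys ι Om Ξ Pt V Γ' κ'}

/-- the lists in a finer geometry -/
def BL.lift {m T : ℝ} (A : FineS S S') (hm : 0 ≤ m) (b : BL S Vj q m T) : BL S' Vj q (A.Rt * m) T where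
  L := A.lift b.L
  B := A.lift b.B
  dep t g ξ := b.dep t _ ξ
  cell t g ξ ξ' x y h1 h2 := b.cell t _ ξ ξ' x y h1 fun i hi hiq => A.cl_sub t _ _ (h2 i hi hiq)
  zero _ _ _ := b.zero _ _ _
  suf t g ξ x := by
    show b.L t (A.cg t (S'.par t g)) ξ x <:+ _
    rw [A.par_cg]
    exact b.suf t _ ξ x
  nodup t _ ξ x := b.nodup t _ ξ x
  time t _ ξ x s hs := b.time t _ ξ x s hs
  btime t _ ξ x s hs := b.btime t _ ξ x s hs
  new t g ξ x s hs := by
    have h1 := b.new t (A.cg (t + 1) g) ξ x s hs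
    rw [← A.par_cg] at h1
    exact h1
  fut := A.future_lift (fun h => by
    have h1 := mem_univ q
    rw [← h] at h1
    exact Finset.notMem_erase q univ h1) hm b.fut
  tail := by
    intro k
    rw [A.hP, A.hn]
    refine le_trans (S.P.Pr_mono fun ω _ h => ?_) (b.tail k)
    rw [A.at'_lift] at h
    refine le_trans ?_ h
    refine mul_le_mul_of_nonneg_left ?_ (Nat.cast_nonneg k)
    exact le_mul_of_one_le_left hm A.Rt1
  pub := by
    rw [A.hP, A.hn]
    refine le_trans (le_of_eq ?_) b.pub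
    refine S.P.E_congr fun ω _ => Finset.sum_congr rfl fun t _ => ?_
    rw [A.at'_lift]

end

end Pool.Agent.GM.GS
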