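import Pool.Agent.GM.FineDef
import Pool.Agent.GM.GSstr

/-!
# GM/Ref (helper21): the refinement of the rounding (row A2 of the assembly plan)

`FineAt.of` : the statement of one piece in a finer geometry gives the one in the given geometry;
`ref_model` : one model; **`ref`** : `ColdL c Cd → ColdC j C1 Cd → FineBin j κ c C Cd → ∃ C', PieceBin j (κ / 2) C'`.
-/

set_option autoImplicit false
set_option linter.unusedSectionVars false

namespace Pool.Agent.GM.GS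

open Finset Pool.Agent.PWZ Pool.Agent.M3 Pool.Agent.M3.TS Pool.Agent.M3.Bin Pool.Agent.GM Pool.Agent.GM.Mv

noncomputable section

section abs

variable {ι Om Ξ Pt V Γ κ Γ' κ' : Type} [Fintype ι] [DecidableEq ι] [Fintype Om] [Fintype Ξ] [Fintype Pt]
  [Fintype V] {S : Sys ι Om Ξ Pt V Γ κ} {S' : Sys ι Om Ξ Pt V Γ' κ'} {Vj : Finset ι}

/-- the lists after a refinement -/
def BL.refine {q : ι} {m T m1 M : ℝ} (A : FineS S S') (hm : 0 ≤ m) (h1 : m ≤ m1) (h2 : A.Rt * m ≤ M)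
    (b : BL S Vj q m T) : BLT S' Vj q m1 M T where
  L := A.lift b.L
  B := A.lift b.B
  dep := (b.lift A hm).dep
  cell := (b.lift A hm).cell
  zero := (b.lift A hm).zero
  suf := (b.lift A hm).suf
  nodup := (b.lift A hm).nodup
  time := (b.lift A hm).time
  btime := (b.lift A hm).btime
  new := (b.lift A hm).new
  fut := Sys.Future.mono S' (b.lift A hm).fut h2
  tail := by
    intro k
    rw [A.hP, A.hn]
    refine le_trans (S.P.Pr_mono fun ω _ h => ?_) (b.tail k)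
    rw [A.at'_lift] at h
    exact (mul_le_mul_of_nonneg_left h1 (Nat.cast_nonneg k)).trans h
  pub := (b.lift A hm).pub

/-- the faces after a refinement -/
theorem Faces.refine {δ : ι} {F : ι → Mov Ξ ι Pt Γ (V → ℝ)} {m θ acc m1 M θ' acc' : ℝ} (A : FineS S S')
    (hm : 0 < m) (h1 : 1 + 2 * m ≤ m1) (h2 : A.Rt * m ≤ M) (hθ : 0 ≤ θ) (h3 : A.Rt ^ Vj.card * θ ≤ θ')
    (h4 : acc + (S.near + S'.near) ≤ acc') (h : Faces S Vj δ F m θ acc) :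
    FacesT S' Vj δ (fun w => A.lift (F w)) m1 M θ' acc' where
  dep w hw t g ξ := h.dep w hw t _ ξ
  coin w hw hd t g ξ ξ' := h.coin w hw hd t _ ξ ξ'
  bd w hw t g ξ x d := h.bd w hw t _ ξ x d
  zero w hw g ξ x := h.zero w hw _ ξ x
  fut w hw := Sys.Future.mono S' (A.future_lift (erase_ne w) hm.le (h.fut w hw)) h2
  tail w hw := (A.tail_lift ((h.fut w hw).tail (h.dep w hw) hm)).mono h1
  mean w hw := by
    rw [A.hP, A.hn]
    have h5 := (h.fut w hw).mean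
    have h6 : S.P.E (S'.nmv (A.lift (F w)) S.n) = S.P.E (S.nmv (F w) S.n) :=
      S.P.E_congr fun ω _ => A.nmv_lift (F w) S.n ω
    rw [h6]
    linarith
  rare w hw := by
    refine Sys.Rare.mono S' (A.rare_lift hθ zero_le_one (fun t g ξ x d => h.bd w hw t g ξ x d) (h.rare w hw)) h3 ?_
    rw [one_mul]
    exact h4

/-- **one piece in a finer geometry** -/
theorem FineAt.of {δ q : ι} {m T θ acc r out m1 M T' θ' acc' : ℝ} {Cd : (ι → Mov Ξ ι Pt Γ' (V → ℝ)) → Prop}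
    (A : FineS S S') (hm : 0 < m)
    (h1 : 1 + 2 * m ≤ m1) (h2 : A.Rt * m ≤ M) (hθ : 0 ≤ θ) (h3 : A.Rt ^ Vj.card * θ ≤ θ')
    (h4 : acc + (S.near + S'.near) ≤ acc') (hT : T ≤ T') (H : FineAt S' Vj δ q m1 M T' θ' acc' r out Cd)
    (hC : ∀ F : ι → Mov Ξ ι Pt Γ (V → ℝ), Faces S Vj δ F m θ acc → Cd (fun w => A.lift (F w))) :
    PieceAt S Vj δ q m T θ acc r out := by
  intro F hF hS
  obtain ⟨s⟩ := hS
  have hm1 : m ≤ m1 := by linarith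
  have h5 := H (fun w => A.lift (F w)) (hF.refine A hm h1 h2 hθ h3 h4) ⟨{
    e0 := s.e0
    e1 := s.e1
    pe0 := (one_div_le_one_div_of_le hm hm1).trans s.pe0
    pe1 := (one_div_le_one_div_of_le hm hm1).trans s.pe1
    b0 := (s.b0.mono le_rfl hT).refine A hm.le hm1 h2
    b1 := (s.b1.mono le_rfl hT).refine A hm.le hm1 h2
    coin0 := fun hq t g ξ ξ' => s.coin0 hq t _ ξ ξ'
    coin1 := fun hq t g ξ ξ' => s.coin1 hq t _ ξ ξ'
    eq := fun t g ξ x d => s.eq t _ ξ x d }⟩ (hC F hF)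
  rw [A.hP, A.hn, A.hJ] at h5
  refine le_trans (le_of_eq (S.P.Pr_congr fun ω _ => ?_)) h5
  simp only [A.at'_lift]

end abs

/-! ### the binary model -/

/-- numbers of the refinement -/
theorem ref_num {j : ℕ} {κ : ℝ} (hκ : 0 < κ) (c C : ℕ) : ∃ C' : ℕ, ∀ β H Λ : ℝ, 0 < β → β ≤ 1 / 2 → 1 / β ≤ H →
    H ^ C' ≤ Λ → ∃ D : ℕ, (2 : ℝ) ^ D ≤ Real.exp (3 * H ^ c) ∧ ((2 : ℝ) ^ D)⁻¹ ≤ Real.exp (-H ^ c) ∧
      H ^ C ≤ Λ - 3 * j * H ^ c ∧ (1 + κ / 2) * Λ ≤ (1 + κ) * (Λ - 3 * j * H ^ c) ∧ 3 * β ^ C' ≤ β ^ C := by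
  obtain ⟨a, ha⟩ := pow_unbounded_of_one_lt (3 + 3 * j + 6 * j * (1 + κ) / κ) (by norm_num : (1 : ℝ) < 2)
  refine ⟨C + c + (a + 2), fun β H Λ hβ hβ2 hβH hΛ => ?_⟩
  have hH2 : 2 ≤ H := by
    have : 2 ≤ 1 / β := by
      rw [le_div_iff₀ hβ]
      linarith
    linarith
  have hc1 : 1 ≤ H ^ c := one_le_pow₀ (by linarith)
  have hC1 : 1 ≤ H ^ C := one_le_pow₀ (by linarith)
  have hl2 : Real.log 2 ≤ 1 := by
    have := Real.log_two_lt_d9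
    linarith
  have hl2' : 1 / 2 ≤ Real.log 2 := by
    have := Real.log_two_gt_d9
    linarith
  have hexp : ∀ D : ℕ, (2 : ℝ) ^ D = Real.exp (D * Real.log 2) := by
    intro D
    rw [mul_comm, Real.exp_mul, Real.exp_log (by norm_num), Real.rpow_natCast]
  have hp : H ^ C * H ^ c * 2 ^ a ≤ H ^ (C + c + (a + 2)) := by
    rw [pow_add, pow_add]
    refine mul_le_mul_of_nonneg_left ?_ (by positivity)
    exact (pow_le_pow_left₀ (by norm_num) hH2 a).trans (pow_le_pow_right₀ (by linarith) (by omega))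
  have hk : 0 ≤ 6 * j * (1 + κ) / κ := by positivity
  have hj : (0 : ℝ) ≤ j := Nat.cast_nonneg j
  have hbig : H ^ C * H ^ c * (3 + 3 * j + 6 * j * (1 + κ) / κ) ≤ Λ := by
    refine le_trans (mul_le_mul_of_nonneg_left ha.le (by positivity)) (hp.trans hΛ)
  have hcc : H ^ c ≤ H ^ C * H ^ c := le_mul_of_one_le_left (by positivity) hC1
  have hCC : H ^ C ≤ H ^ C * H ^ c := le_mul_of_one_le_right (by positivity) hc1
  set P := H ^ C * H ^ c with hP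
  have hP0 : 0 ≤ P := by positivity
  refine ⟨⌈2 * H ^ c⌉₊, ?_, ?_, ?_, ?_, ?_⟩
  · rw [hexp]
    refine Real.exp_le_exp.2 ?_
    have h1 : (⌈2 * H ^ c⌉₊ : ℝ) ≤ 2 * H ^ c + 1 := (Nat.ceil_lt_add_one (by positivity)).le
    calc (⌈2 * H ^ c⌉₊ : ℝ) * Real.log 2 ≤ (2 * H ^ c + 1) * 1 :=
          mul_le_mul h1 hl2 (by linarith) (by positivity)
      _ ≤ 3 * H ^ c := by linarith
  · rw [hexp, ← Real.exp_neg]
    refine Real.exp_le_exp.2 (neg_le_neg ?_)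
    have h1 : 2 * H ^ c ≤ (⌈2 * H ^ c⌉₊ : ℝ) := Nat.le_ceil _
    nlinarith
  · nlinarith [mul_nonneg hP0 hk, mul_nonneg hj hP0]
  · have e1 : P * (6 * j * (1 + κ) / κ) * κ = 6 * j * (1 + κ) * P := by
      field_simp
    have h1 : 6 * j * (1 + κ) * P ≤ κ * Λ := by
      rw [← e1, mul_comm κ Λ]
      refine mul_le_mul_of_nonneg_right ?_ hκ.le
      nlinarith [mul_nonneg hj hP0]
    have h2 : 6 * j * (1 + κ) * H ^ c ≤ 6 * j * (1 + κ) * P := mul_le_mul_of_nonneg_left hcc (by positivity)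
    nlinarith
  · have h1 : β ^ (C + c + (a + 2)) ≤ β ^ (C + 2) :=
      pow_le_pow_of_le_one hβ.le (by linarith) (by omega)
    have h2 : β ^ (C + 2) = β ^ C * β ^ 2 := pow_add _ _ _
    have h3 : β ^ 2 ≤ 1 / 4 := by nlinarith
    have h4 : 0 ≤ β ^ C := by positivity
    nlinarith

theorem Faces.monoR {ι Om Ξ Pt V Γ κ : Type} [Fintype ι] [DecidableEq ι] [Fintype Om] [Fintype Ξ] [Fintype Pt]
    [Fintype V] {S : Sys ι Om Ξ Pt V Γ κ} {Vj : Finset ι} {δ : ι} {F : ι → Mov Ξ ι Pt Γ (V → ℝ)}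
    {m m' θ θ' acc acc' : ℝ} (h : Faces S Vj δ F m θ acc) (hm : m ≤ m') (hθ : θ ≤ θ') (ha : acc ≤ acc') :
    Faces S Vj δ F m' θ' acc' where
  dep := h.dep
  coin := h.coin
  bd := h.bd
  zero := h.zero
  fut w hw := Sys.Future.mono S (h.fut w hw) hm
  rare w hw := Sys.Rare.mono S (h.rare w hw) hθ ha

/-- the numbers of the refinement, as a property of the exponent `C'` -/
def RefNum (j : ℕ) (κ : ℝ) (c C C' : ℕ) : Prop := ∀ β H Λ : ℝ, 0 < β → β ≤ 1 / 2 → 1 / β ≤ H →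
    H ^ C' ≤ Λ → ∃ D : ℕ, (2 : ℝ) ^ D ≤ Real.exp (3 * H ^ c) ∧ ((2 : ℝ) ^ D)⁻¹ ≤ Real.exp (-H ^ c) ∧
      H ^ C ≤ Λ - 3 * j * H ^ c ∧ (1 + κ / 2) * Λ ≤ (1 + κ) * (Λ - 3 * j * H ^ c) ∧ 3 * β ^ C' ≤ β ^ C

/-- **the refinement in one model** -/
theorem ref_model {j : ℕ} {κ : ℝ} {c C C0 C1 : ℕ} (hc : 1 ≤ c) (hC0 : RefNum j κ c C C0) {Cd : ColdF}
    (hL : ColdL c Cd) {ι Θ Ξ Q : Type} [Fintype ι] [DecidableEq ι] [Fintype Θ] [Nonempty Θ] [Fintype Ξ] [Nonempty Ξ]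
    [Fintype Q] [Nonempty Q] {k N : ℕ} (σ : Bin.V k) (i δ q : ι) (hN : N ≤ k) (h : ℕ) (hj : Fintype.card ι = j)
    {β H Λ : ℝ} (hβ : 0 < β) (hβ2 : β ≤ 1 / 2) (hβH : 1 / β ≤ H) (hK : (binSys Θ Ξ Q σ i hN h).K ≤ Real.exp H)
    (hnear : (binSys Θ Ξ Q σ i hN h).near ≤ β ^ max C0 C1) (hΛ : H ^ max C0 C1 ≤ Λ) (hΛe : Λ ≤ Real.exp H)
    (hC1 : (binSys Θ Ξ Q σ i hN h).near ≤ β ^ C1 → H ^ C1 ≤ Λ →
      ∀ F : ι → Mov Ξ ι (Q × Bin.V k) (Θ × (Bin.V k × ℕ)) (Bin.V k → ℝ),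
        Faces (binSys Θ Ξ Q σ i hN h) univ δ F H (Real.exp (-Λ)) (β ^ C1) → Cd ι Θ Ξ Q k N σ i δ q hN h β H F)
    (hF : ∀ (D : ℕ) (Λ' : ℝ), (binSys Θ Ξ Q σ i hN (h + D)).K ≤ Real.exp (H ^ (c + 2)) →
      (binSys Θ Ξ Q σ i hN (h + D)).near ≤ Real.exp (-H ^ c) → H ^ C ≤ Λ' → Λ' ≤ Real.exp H →
      FineAt (binSys Θ Ξ Q σ i hN (h + D)) univ δ q (4 * H) (Real.exp (H ^ (c + 2))) (H * Real.exp ((1 + κ) * Λ'))
        (Real.exp (-Λ')) (β ^ C) β (Real.exp (-H)) (Cd ι Θ Ξ Q k N σ i δ q hN (h + D) β H)) :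
    PieceAt (binSys Θ Ξ Q σ i hN h) univ δ q H (H * Real.exp ((1 + κ / 2) * Λ)) (Real.exp (-Λ)) (β ^ max C0 C1) β
      (Real.exp (-H)) := by
  have hH2 : 2 ≤ H := by
    have : 2 ≤ 1 / β := by
      rw [le_div_iff₀ hβ]
      linarith
    linarith
  have hb0 : β ^ max C0 C1 ≤ β ^ C0 := pow_le_pow_of_le_one hβ.le (by linarith) (le_max_left _ _)
  have hb1 : β ^ max C0 C1 ≤ β ^ C1 := pow_le_pow_of_le_one hβ.le (by linarith) (le_max_right _ _)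
  have hH0 : H ^ C0 ≤ H ^ max C0 C1 := pow_le_pow_right₀ (by linarith) (le_max_left _ _)
  have hH1 : H ^ C1 ≤ H ^ max C0 C1 := pow_le_pow_right₀ (by linarith) (le_max_right _ _)
  obtain ⟨D, hD1, hD2, hΛ1, hΛ2, hβC⟩ := hC0 β H Λ hβ hβ2 hβH (hH0.trans hΛ)
  have hnear1 : β ^ max C0 C1 ≤ 1 := pow_le_one₀ hβ.le (by linarith)
  have hnn : (binSys Θ Ξ Q σ i hN (h + D)).near = (binSys Θ Ξ Q σ i hN h).near * ((2 : ℝ) ^ D)⁻¹ := by
    show 8 * ((2 : ℝ) ^ (h + D))⁻¹ = 8 * ((2 : ℝ) ^ h)⁻¹ * ((2 : ℝ) ^ D)⁻¹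
    rw [pow_add, mul_inv, mul_assoc]
  have hKK : (binSys Θ Ξ Q σ i hN (h + D)).K = (binSys Θ Ξ Q σ i hN h).K * 2 ^ D := by
    show (((Fintype.card ι + 4) * 2 ^ (h + D + 3) : ℕ) : ℝ) = (((Fintype.card ι + 4) * 2 ^ (h + 3) : ℕ) : ℝ) * 2 ^ D
    push_cast
    rw [show h + D + 3 = h + 3 + D by omega, pow_add]
    ring
  have hn0 : 0 ≤ (binSys Θ Ξ Q σ i hN h).near := (binSys Θ Ξ Q σ i hN h).near0
  have hn1 : (binSys Θ Ξ Q σ i hN (h + D)).near ≤ Real.exp (-H ^ c) := by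
    rw [hnn]
    calc (binSys Θ Ξ Q σ i hN h).near * ((2 : ℝ) ^ D)⁻¹ ≤ 1 * Real.exp (-H ^ c) :=
          mul_le_mul (hnear.trans hnear1) hD2 (by positivity) zero_le_one
      _ = _ := one_mul _
  have hn2 : (binSys Θ Ξ Q σ i hN (h + D)).near ≤ β ^ max C0 C1 := by
    rw [hnn]
    refine le_trans ?_ hnear
    refine mul_le_of_le_one_right hn0 ?_
    exact inv_le_one_of_one_le₀ (one_le_pow₀ (by norm_num))
  have hc1 : H ≤ H ^ c := by
    calc H = H ^ 1 := (pow_one H).symm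
      _ ≤ H ^ c := pow_le_pow_right₀ (by linarith) hc
  have hexp : Real.exp H * Real.exp (3 * H ^ c) ≤ Real.exp (H ^ (c + 2)) := by
    rw [← Real.exp_add]
    refine Real.exp_le_exp.2 ?_
    have h1 : H ^ (c + 2) = H ^ c * H ^ 2 := pow_add _ _ _
    have h2 : 4 ≤ H ^ 2 := by nlinarith
    have h3 : 0 ≤ H ^ c := by positivity
    nlinarith
  have hK' : (binSys Θ Ξ Q σ i hN (h + D)).K ≤ Real.exp (H ^ (c + 2)) := by
    rw [hKK]
    exact (mul_le_mul hK hD1 (by positivity) (Real.exp_pos _).le).trans hexp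
  have hRt : (binFine (Θ := Θ) (Ξ := Ξ) (Q := Q) σ i hN (Nat.le_add_right h D)).Rt = 2 ^ D := by
    show (2 : ℝ) ^ (h + D - h) = 2 ^ D
    rw [Nat.add_sub_cancel_left]
  have hfin := hF D (Λ - 3 * j * H ^ c) hK' hn1 hΛ1 (by
    have : 0 ≤ 3 * (j : ℝ) * H ^ c := by positivity
    linarith)
  refine FineAt.of (binFine σ i hN (Nat.le_add_right h D)) (by linarith) (by linarith) ?_ (Real.exp_pos _).le ?_ ?_ ?_
    hfin ?_
  · rw [hRt, mul_comm]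
    refine le_trans (mul_le_mul ?_ hD1 (by positivity) (Real.exp_pos _).le) hexp
    linarith [Real.add_one_le_exp H]
  · rw [hRt, Finset.card_univ, hj]
    calc ((2 : ℝ) ^ D) ^ j * Real.exp (-Λ) ≤ Real.exp (3 * H ^ c) ^ j * Real.exp (-Λ) :=
          mul_le_mul_of_nonneg_right (pow_le_pow_left₀ (by positivity) hD1 j) (Real.exp_pos _).le
      _ = Real.exp (-(Λ - 3 * j * H ^ c)) := by
          rw [← Real.exp_nat_mul, ← Real.exp_add]
          congr 1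
          ring
  · linarith
  · refine mul_le_mul_of_nonneg_left (Real.exp_le_exp.2 hΛ2) (by linarith)
  · intro F hFF
    refine hL ι Θ Ξ Q k N σ i δ q hN h D β H hD1 F ?_
    exact hC1 (hnear.trans hb1) (hH1.trans hΛ) F (hFF.monoR le_rfl le_rfl hb1)

/-- **THE REFINEMENT** -/
theorem ref {j : ℕ} {κ : ℝ} (hκ : 0 < κ) {c C C1 : ℕ} (hc : 1 ≤ c) {Cd : ColdF} (hL : ColdL c Cd) (hC1 : ColdC j C1 Cd)
    (hF : FineBin j κ c C Cd) : ∃ C' : ℕ, PieceBin j (κ / 2) C' := by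
  obtain ⟨C0, hC0⟩ := ref_num (j := j) hκ c C
  refine ⟨max C0 C1, ?_⟩
  intro ι Θ Ξ Q _ _ _ _ _ _ _ _ k N σ i δ q hN h hj β H Λ hβ hβ2 hβH hK hnear hΛ hΛe
  refine ref_model hc hC0 hL σ i δ q hN h hj hβ hβ2 hβH hK hnear hΛ hΛe ?_ ?_
  · intro h1 h2 F hFF
    exact hC1 ι Θ Ξ Q k N σ i δ q hN h hj β H Λ hβ hβ2 hβH hK h1 h2 hΛe F hFF
  · intro D Λ' h1 h2 h3 h4
    exact hF ι Θ Ξ Q k N σ i δ q hN (h + D) hj β H Λ' hβ hβ2 hβH h1 h2 h3 h4

/-- the property which is always true -/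
def coldTrue : ColdF := fun _ _ _ _ _ _ _ _ _ _ _ _ _ _ _ _ _ _ _ _ _ _ _ => True

/-- without any property of the faces -/
theorem ref_true {j : ℕ} {κ : ℝ} (hκ : 0 < κ) {c C : ℕ} (hc : 1 ≤ c) (hF : FineBin j κ c C coldTrue) :
    ∃ C' : ℕ, PieceBin j (κ / 2) C' := by
  refine ref (C1 := 0) hκ hc ?_ ?_ hF
  · unfold ColdL
    intros
    exact True.intro
  · unfold ColdC
    intros
    exact True.intro

end

end Pool.Agent.GM.GS
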