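import Pool.Agent.GM.CMDef
import Pool.Agent.GM.Ref

/-!
# GM/CMRef (helper42): the refinement of the rounding for the cold sets (row ASM A10b)

**`cm_ref`** : `CMFine j κ c C → ∃ C', CMPiece j (κ / 2) C'`.
-/

set_option autoImplicit false
set_option linter.unusedSectionVars false

namespace Pool.Agent.GM.GS

open Finset Pool.Agent.PWZ Pool.Agent.M3 Pool.Agent.M3.TS Pool.Agent.M3.Bin Pool.Agent.GM Pool.Agent.GM.Mv Pool.Agent.GM.KVer
open Pool.Agent.M3.Mod (ex)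

noncomputable section

section abs

variable {ι Om Ξ Pt V Γ κ Γ' κ' : Type} [Fintype ι] [DecidableEq ι] [Fintype Om] [Fintype Ξ] [Fintype Pt]
  [Fintype V] {S : Sys ι Om Ξ Pt V Γ κ} {S' : Sys ι Om Ξ Pt V Γ' κ'}

/-- the process is the same in a finer geometry -/
theorem pT_lift (A : FineS S S') (Vj : Finset ι) (F : ι → Mov Ξ ι Pt Γ (V → ℝ)) (t : ℕ) (ω : Om) :
    pT S' Vj (fun i => A.lift (F i)) t ω = pT S Vj F t ω := by
  unfold pT
  rw [A.hJ]
  simp only [A.at'_lift]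

/-- the faces of the natural view after a refinement -/
theorem FacesC.refine {w : ι} {F : ι → Mov Ξ ι Pt Γ (V → ℝ)} {m M θ acc m1 M1 θ' acc' : ℝ} (A : FineS S S')
    (hM : 0 ≤ M) (h1 : m ≤ m1) (h2 : A.Rt * M ≤ M1) (hθ : 0 ≤ θ) (h3 : A.Rt ^ Fintype.card ι * θ ≤ θ')
    (h4 : acc + (S.near + S'.near) ≤ acc') (h : FacesC S w F m M θ acc) :
    FacesC S' w (fun i => A.lift (F i)) m1 M1 θ' acc' where
  dep i t g ξ := h.dep i t _ ξ
  coin i t g ξ ξ' := h.coin i t _ ξ ξ'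
  bd i t g ξ x d := h.bd i t _ ξ x d
  zero i g ξ x := h.zero i _ ξ x
  once t ω := by
    rw [A.at'_lift, A.at'_lift]
    exact h.once t ω
  fut i hi := Sys.Future.mono S' (A.future_lift (erase_ne i) hM (h.fut i hi)) h2
  tail i hi := (A.tail_lift (h.tail i hi)).mono h1
  mean i hi := by
    rw [A.hP, A.hn]
    have h6 : S.P.E (S'.nmv (A.lift (F i)) S.n) = S.P.E (S.nmv (F i) S.n) :=
      S.P.E_congr fun ω _ => A.nmv_lift (F i) S.n ω
    rw [h6]
    exact (h.mean i hi).trans h1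
  rare i hi := by
    refine Sys.Rare.mono S' (A.rare_lift hθ zero_le_one (fun t g ξ x d => h.bd i t g ξ x d) (h.rare i hi)) ?_ ?_
    · rw [Finset.card_univ]
      exact h3
    · rw [one_mul]
      exact h4

end abs

/-- **THE REFINEMENT** for the cold sets -/
theorem cm_ref {j : ℕ} {κ : ℝ} (hκ : 0 < κ) {c C : ℕ} (hc : 1 ≤ c) (hF : CMFine j κ c C) :
    ∃ C' : ℕ, CMPiece j (κ / 2) C' := by
  obtain ⟨C', hC'⟩ := ref_num (j := j) hκ c C
  refine ⟨C', ?_⟩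
  intro ι Θ Ξ Q _ _ _ _ _ _ _ _ k N σ i w q hN h hj hqw β H Λ hβ hβ2 hβH hK hnear hΛ hΛe F hFC hS
  obtain ⟨D, hD1, hD2, hΛ1, hΛ2, hβC⟩ := hC' β H Λ hβ hβ2 hβH hΛ
  obtain ⟨s⟩ := hS
  have hH2 : 2 ≤ H := by
    have : 2 ≤ 1 / β := by
      rw [le_div_iff₀ hβ]
      linarith
    linarith
  have hnear1 : β ^ C' ≤ 1 := pow_le_one₀ hβ.le (by linarith)
  have hnn : (binSys Θ Ξ Q σ i hN (h + D)).near = (binSys Θ Ξ Q σ i hN h).near * ((2 : ℝ) ^ D)⁻¹ := by
    show 8 * ((2 : ℝ) ^ (h + D))⁻¹ = 8 * ((2 : ℝ) ^ h)⁻¹ * ((2 : ℝ) ^ D)⁻¹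
    rw [pow_add, mul_inv, mul_assoc]
  have hKK : (binSys Θ Ξ Q σ i hN (h + D)).K = (binSys Θ Ξ Q σ i hN h).K * 2 ^ D := by
    show (((Fintype.card ι + 4) * 2 ^ (h + D + 3) : ℕ) : ℝ) = (((Fintype.card ι + 4) * 2 ^ (h + 3) : ℕ) : ℝ) * 2 ^ D
    push_cast
    rw [show h + D + 3 = h + 3 + D by omega, pow_add]
    ring
  have hn0 : 0 ≤ (binSys Θ Ξ Q σ i hN h).near := (binSys Θ Ξ Q σ i hN h).near0
  have hn1 : (binSys Θ Ξ Q σ i hN (h + D)).near ≤ Real.exp (-H ^ c) := by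
    rw [hnn]
    calc (binSys Θ Ξ Q σ i hN h).near * ((2 : ℝ) ^ D)⁻¹ ≤ 1 * Real.exp (-H ^ c) :=
          mul_le_mul (hnear.trans hnear1) hD2 (by positivity) zero_le_one
      _ = _ := one_mul _
  have hn2 : (binSys Θ Ξ Q σ i hN (h + D)).near ≤ β ^ C' := by
    rw [hnn]
    refine le_trans ?_ hnear
    refine mul_le_of_le_one_right hn0 ?_
    exact inv_le_one_of_one_le₀ (one_le_pow₀ (by norm_num))
  have hc1 : H ≤ H ^ c := by
    calc H = H ^ 1 := (pow_one H).symm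
      _ ≤ H ^ c := pow_le_pow_right₀ (by linarith) hc
  have hexp : Real.exp H * Real.exp (3 * H ^ c) ≤ Real.exp (H ^ (c + 2)) := by
    rw [← Real.exp_add]
    refine Real.exp_le_exp.2 ?_
    have h1 : H ^ (c + 2) = H ^ c * H ^ 2 := pow_add _ _ _
    have h2 : 4 ≤ H ^ 2 := by nlinarith
    have h3 : 0 ≤ H ^ c := by positivity
    nlinarith
  have hK' : (binSys Θ Ξ Q σ i hN (h + D)).K ≤ Real.exp (H ^ (c + 2)) := by
    rw [hKK]
    exact (mul_le_mul hK hD1 (by positivity) (Real.exp_pos _).le).trans hexp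
  have hRt : (binFine (Θ := Θ) (Ξ := Ξ) (Q := Q) σ i hN (Nat.le_add_right h D)).Rt = 2 ^ D := by
    show (2 : ℝ) ^ (h + D - h) = 2 ^ D
    rw [Nat.add_sub_cancel_left]
  have hRtH : (binFine (Θ := Θ) (Ξ := Ξ) (Q := Q) σ i hN (Nat.le_add_right h D)).Rt * H ≤ Real.exp (H ^ (c + 2)) := by
    rw [hRt, mul_comm]
    refine le_trans (mul_le_mul ?_ hD1 (by positivity) (Real.exp_pos _).le) hexp
    linarith [Real.add_one_le_exp H]
  have hΛ3 : Λ - 3 * j * H ^ c ≤ Real.exp H := by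
    have : 0 ≤ 3 * (j : ℝ) * H ^ c := by positivity
    linarith
  have h5 := hF ι Θ Ξ Q k N σ i w q hN (h + D) hj hqw β H (Λ - 3 * j * H ^ c) hβ hβ2 hβH hK' hn1 hΛ1 hΛ3
    (fun l => (binFine σ i hN (Nat.le_add_right h D)).lift (F l))
    (hFC.refine (binFine σ i hN (Nat.le_add_right h D)) (by linarith) (by linarith) hRtH (Real.exp_pos _).le ?_ ?_)
    ⟨{ e0 := s.e0
       e1 := s.e1
       pe0 := (one_div_le_one_div_of_le (by linarith) (by linarith)).trans s.pe0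
       pe1 := (one_div_le_one_div_of_le (by linarith) (by linarith)).trans s.pe1
       b0 := (s.b0.mono le_rfl ?_).refine (binFine σ i hN (Nat.le_add_right h D)) (by linarith) (by linarith) hRtH
       b1 := (s.b1.mono le_rfl ?_).refine (binFine σ i hN (Nat.le_add_right h D)) (by linarith) (by linarith) hRtH
       coin0 := fun hq t g ξ ξ' => s.coin0 hq t _ ξ ξ'
       coin1 := fun hq t g ξ ξ' => s.coin1 hq t _ ξ ξ'
       eq := fun t g ξ x d => s.eq t _ ξ x d }⟩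
  · unfold ColdAt at h5 ⊢
    simp only [pT_lift (binFine σ i hN (Nat.le_add_right h D)) univ F] at h5
    exact h5
  · rw [hRt, hj]
    calc ((2 : ℝ) ^ D) ^ j * Real.exp (-Λ) ≤ Real.exp (3 * H ^ c) ^ j * Real.exp (-Λ) :=
          mul_le_mul_of_nonneg_right (pow_le_pow_left₀ (by positivity) hD1 j) (Real.exp_pos _).le
      _ = Real.exp (-(Λ - 3 * j * H ^ c)) := by
          rw [← Real.exp_nat_mul, ← Real.exp_add]
          congr 1
          ring
  · linarith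
  · exact mul_le_mul_of_nonneg_left (Real.exp_le_exp.2 hΛ2) (by linarith)
  · exact mul_le_mul_of_nonneg_left (Real.exp_le_exp.2 hΛ2) (by linarith)

end

end Pool.Agent.GM.GS
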