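import Pool.Agent.GM.CMcDef

/-!
# GM/HotInCDef (helper45): the cold inputs of the natural view of `w` with a coin, all `J ≠ univ` (row P5)
-/

set_option autoImplicit false
set_option linter.unusedSectionVars false

namespace Pool.Agent.GM

open Finset Pool.Agent.PWZ Pool.Agent.M3 Pool.Agent.M3.TS Pool.Agent.M3.Bin Pool.Agent.GM.Mv Pool.Agent.GM.KVer

/-- **THE COLD INPUTS of the natural view of `w` with a coin**: the coin of the hidden vertex `w` is seen by the face `δ`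
only, the classes `KJ w` do not know it -/
def HotInC (j : ℕ) (κ : ℝ) (c c1 C : ℕ) : Prop :=
  ∀ (ι Θ Ξ Q : Type) [Fintype ι] [DecidableEq ι] [Fintype Θ] [Nonempty Θ] [Fintype Ξ] [Nonempty Ξ] [Fintype Q]
    [Nonempty Q] (k N : ℕ) (σ : V k) (w δ q : ι) (hN : N ≤ k) (h : ℕ), Fintype.card ι = j → δ ≠ w → q ≠ w →
    ∀ β H Λ : ℝ, 0 < β → β ≤ 1 / 2 → 1 / β ≤ H → (binSys Θ Ξ Q σ w hN h).K ≤ Real.exp (H ^ (c + 2)) →
      (binSys Θ Ξ Q σ w hN h).near ≤ Real.exp (-H ^ c) → H ^ C ≤ Λ → Λ ≤ Real.exp H →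
      ∀ F : ι → Mov Ξ ι (Q × V k) (Θ × (V k × ℕ)) (V k → ℝ),
        GS.FacesCc (binSys Θ Ξ Q σ w hN h) w δ F (4 * H) (Real.exp (H ^ (c + 2))) (Real.exp (-Λ)) (β ^ C) →
        Nonempty (GS.StrT (binSys Θ Ξ Q σ w hN h) univ δ q (F q) (4 * H) (Real.exp (H ^ (c + 2)))
          (H * Real.exp ((1 + κ) * Λ))) →
        ∀ h' : ℕ, h ≤ h' → h' ≤ h + Fintype.card ι → ∀ J : Finset {v : ι // v ≠ w}, J ≠ univ →
          (PM k N ι Θ Ξ Q).Pr (fun u => ∃ t ≤ N, Real.exp (-H ^ c1) < (PM k N ι Θ Ξ Q).ce (KJ w h' J (Mod.ex N t))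
            (fun v => ind (β ^ 2 ≤ |pT (binSys Θ Ξ Q σ w hN h) univ F t v|)) u) ≤ Real.exp (-H ^ c1)

end Pool.Agent.GM
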