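import Pool.Agent.GM.CMBin
import Pool.Agent.GM.HotInCDef

/-!
# GM/CMcBin (helper45): cold sets of `j - 1` vertices with the coin of the hidden vertex (row P5 (b))

**`cmcFine_of`** : `NamBin j κ c0 c D → HotInC j κ c c1 C → GS.CMcFine j κ c C`.
-/

set_option autoImplicit false
set_option linter.unusedSectionVars false

namespace Pool.Agent.GM

open Finset Pool.Agent.PWZ Pool.Agent.M3 Pool.Agent.M3.TS Pool.Agent.M3.Bin Pool.Agent.GM.Mv Pool.Agent.GM.KVer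

/-- **THE COLD SETS OF `j - 1` VERTICES WITH A COIN** from the names and theorem CM -/
theorem cmcFine_of (j : ℕ) (hj : 2 ≤ j) : ∃ c00 : ℕ, ∀ c0 ≥ c00, ∀ D : ℕ, ∃ c1 : ℕ, ∀ (κ : ℝ) (c C : ℕ),
    NamBin j κ c0 c D → HotInC j κ c c1 C → GS.CMcFine j κ c C := by
  obtain ⟨c00, hc00⟩ := coldAt_core j hj
  refine ⟨c00, fun c0 hc0 D => ?_⟩
  obtain ⟨c1, hc1⟩ := hc00 c0 hc0 D
  refine ⟨c1, ?_⟩
  intro κ c C hNam hHot ι Θ Ξ Q _ _ _ _ _ _ _ _ k N σ w δ q hN h hcard hδw hqw β H Λ hβ hβ2 hH h4 h5 h6 h7 F hF hS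
  have hHot' := hHot ι Θ Ξ Q k N σ w δ q hN h hcard hδw hqw β H Λ hβ hβ2 hH h4 h5 h6 h7 F hF hS
  have hH2 : 2 ≤ H := by
    refine le_trans ?_ hH
    rw [le_div_iff₀ hβ]
    linarith
  refine hc1 (δ := δ) hcard ⟨hF.dep w, hF.coin w hδw.symm, hF.bd, hF.once⟩ hβ hβ2 hH ?_ hHot'
  refine hNam ι Θ Ξ Q k N σ w δ q hN h hcard hδw.symm hqw.symm H Λ hH2 h4 h5 ?_ h7 F ?_ hS
  · exact le_trans (by positivity) h6
  · exact CMB.facesN_of_C hF hδw.symm (by linarith) (Real.one_le_exp (by positivity))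

end Pool.Agent.GM
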