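import Pool.Agent.GM.CMcDef

/-!
# GM/CMcMov (helper42): COLD SETS OF `j - 1` VERTICES WITH A COIN, moving faces (row P5, first step)

* **`cmc_ref`** : `CMcFine j κ c C → ∃ C', CMcPiece j (κ / 2) C'`;
* `cmcAll_of_piece : LayersCc j κ C C1 → CMcPiece j κ C → CMcAll j C1`;
* `FacesVc` : the faces with a MOVING known face; `FacesVc.ver`, `FacesVc.mono`, `FacesVc.of`;
* **`coldc_moving`**, **`coldc_faces`** : coldness `exp (-H ^ e)` of the natural view of `w ≠ δ`, coin of the vertex `w`.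
-/

set_option autoImplicit false
set_option linter.unusedSectionVars false

namespace Pool.Agent.GM.GS

open Finset Pool.Agent.PWZ Pool.Agent.M3 Pool.Agent.M3.TS Pool.Agent.M3.Bin Pool.Agent.GM Pool.Agent.GM.Mv Pool.Agent.GM.KVer
open Pool.Agent.M3.Mod (ex)

noncomputable section

/-- **THE REFINEMENT** for the cold sets with a coin -/
theorem cmc_ref {j : ℕ} {κ : ℝ} (hκ : 0 < κ) {c C : ℕ} (hc : 1 ≤ c) (hF : CMcFine j κ c C) :
    ∃ C' : ℕ, CMcPiece j (κ / 2) C' := by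
  obtain ⟨C', hC'⟩ := ref_num (j := j) hκ c C
  refine ⟨C', ?_⟩
  intro ι Θ Ξ Q _ _ _ _ _ _ _ _ k N σ w δ q hN h hj hδw hqw β H Λ hβ hβ2 hβH hK hnear hΛ hΛe F hFC hS
  obtain ⟨D, hD1, hD2, hΛ1, hΛ2, hβC⟩ := hC' β H Λ hβ hβ2 hβH hΛ
  obtain ⟨s⟩ := hS
  have hH2 : 2 ≤ H := by
    have : 2 ≤ 1 / β := by
      rw [le_div_iff₀ hβ]
      linarith
    linarith
  have hnear1 : β ^ C' ≤ 1 := pow_le_one₀ hβ.le (by linarith)
  have hnn : (binSys Θ Ξ Q σ w hN (h + D)).near = (binSys Θ Ξ Q σ w hN h).near * ((2 : ℝ) ^ D)⁻¹ := by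
    show 8 * ((2 : ℝ) ^ (h + D))⁻¹ = 8 * ((2 : ℝ) ^ h)⁻¹ * ((2 : ℝ) ^ D)⁻¹
    rw [pow_add, mul_inv, mul_assoc]
  have hKK : (binSys Θ Ξ Q σ w hN (h + D)).K = (binSys Θ Ξ Q σ w hN h).K * 2 ^ D := by
    show (((Fintype.card ι + 4) * 2 ^ (h + D + 3) : ℕ) : ℝ) = (((Fintype.card ι + 4) * 2 ^ (h + 3) : ℕ) : ℝ) * 2 ^ D
    push_cast
    rw [show h + D + 3 = h + 3 + D by omega, pow_add]
    ring
  have hn0 : 0 ≤ (binSys Θ Ξ Q σ w hN h).near := (binSys Θ Ξ Q σ w hN h).near0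
  have hn1 : (binSys Θ Ξ Q σ w hN (h + D)).near ≤ Real.exp (-H ^ c) := by
    rw [hnn]
    calc (binSys Θ Ξ Q σ w hN h).near * ((2 : ℝ) ^ D)⁻¹ ≤ 1 * Real.exp (-H ^ c) :=
          mul_le_mul (hnear.trans hnear1) hD2 (by positivity) zero_le_one
      _ = _ := one_mul _
  have hn2 : (binSys Θ Ξ Q σ w hN (h + D)).near ≤ β ^ C' := by
    rw [hnn]
    refine le_trans ?_ hnear
    refine mul_le_of_le_one_right hn0 ?_
    exact inv_le_one_of_one_le₀ (one_le_pow₀ (by norm_num))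
  have hc1 : H ≤ H ^ c := by
    calc H = H ^ 1 := (pow_one H).symm
      _ ≤ H ^ c := pow_le_pow_right₀ (by linarith) hc
  have hexp : Real.exp H * Real.exp (3 * H ^ c) ≤ Real.exp (H ^ (c + 2)) := by
    rw [← Real.exp_add]
    refine Real.exp_le_exp.2 ?_
    have h1 : H ^ (c + 2) = H ^ c * H ^ 2 := pow_add _ _ _
    have h2 : 4 ≤ H ^ 2 := by nlinarith
    have h3 : 0 ≤ H ^ c := by positivity
    nlinarith
  have hK' : (binSys Θ Ξ Q σ w hN (h + D)).K ≤ Real.exp (H ^ (c + 2)) := by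
    rw [hKK]
    exact (mul_le_mul hK hD1 (by positivity) (Real.exp_pos _).le).trans hexp
  have hRt : (binFine (Θ := Θ) (Ξ := Ξ) (Q := Q) σ w hN (Nat.le_add_right h D)).Rt = 2 ^ D := by
    show (2 : ℝ) ^ (h + D - h) = 2 ^ D
    rw [Nat.add_sub_cancel_left]
  have hRtH : (binFine (Θ := Θ) (Ξ := Ξ) (Q := Q) σ w hN (Nat.le_add_right h D)).Rt * H ≤ Real.exp (H ^ (c + 2)) := by
    rw [hRt, mul_comm]
    refine le_trans (mul_le_mul ?_ hD1 (by positivity) (Real.exp_pos _).le) hexp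
    linarith [Real.add_one_le_exp H]
  have hΛ3 : Λ - 3 * j * H ^ c ≤ Real.exp H := by
    have : 0 ≤ 3 * (j : ℝ) * H ^ c := by positivity
    linarith
  have h5 := hF ι Θ Ξ Q k N σ w δ q hN (h + D) hj hδw hqw β H (Λ - 3 * j * H ^ c) hβ hβ2 hβH hK' hn1 hΛ1 hΛ3
    (fun l => (binFine σ w hN (Nat.le_add_right h D)).lift (F l))
    (hFC.refine (binFine σ w hN (Nat.le_add_right h D)) (by linarith) (by linarith) hRtH (Real.exp_pos _).le ?_ ?_)
    ⟨{ e0 := s.e0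
       e1 := s.e1
       pe0 := (one_div_le_one_div_of_le (by linarith) (by linarith)).trans s.pe0
       pe1 := (one_div_le_one_div_of_le (by linarith) (by linarith)).trans s.pe1
       b0 := (s.b0.mono le_rfl ?_).refine (binFine σ w hN (Nat.le_add_right h D)) (by linarith) (by linarith) hRtH
       b1 := (s.b1.mono le_rfl ?_).refine (binFine σ w hN (Nat.le_add_right h D)) (by linarith) (by linarith) hRtH
       coin0 := fun hq t g ξ ξ' => s.coin0 hq t _ ξ ξ'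
       coin1 := fun hq t g ξ ξ' => s.coin1 hq t _ ξ ξ'
       eq := fun t g ξ x d => s.eq t _ ξ x d }⟩
  · unfold ColdAt at h5 ⊢
    simp only [pT_lift (binFine σ w hN (Nat.le_add_right h D)) univ F] at h5
    exact h5
  · rw [hRt, hj]
    calc ((2 : ℝ) ^ D) ^ j * Real.exp (-Λ) ≤ Real.exp (3 * H ^ c) ^ j * Real.exp (-Λ) :=
          mul_le_mul_of_nonneg_right (pow_le_pow_left₀ (by positivity) hD1 j) (Real.exp_pos _).le
      _ = Real.exp (-(Λ - 3 * j * H ^ c)) := by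
          rw [← Real.exp_nat_mul, ← Real.exp_add]
          congr 1
          ring
  · linarith
  · exact mul_le_mul_of_nonneg_left (Real.exp_le_exp.2 hΛ2) (by linarith)
  · exact mul_le_mul_of_nonneg_left (Real.exp_le_exp.2 hΛ2) (by linarith)

section bin

variable {k N : ℕ} {ι Θ Ξ Q : Type} [Fintype ι] [DecidableEq ι] {σ : V k} [Fintype Θ] [Nonempty Θ] [Fintype Ξ]
  [Nonempty Ξ] [Fintype Q] [Nonempty Q]

/-- **from the pieces of the layers to the process** -/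
theorem coldc_of_lay {hN : N ≤ k} {h : ℕ} {w δ : ι}
    {F : ι → Mov Ξ ι (Q × V k) (Θ × (V k × ℕ)) (V k → ℝ)} {κ : ℝ} {C : ℕ} {c0 β H : ℝ} (hβ : 0 < β)
    (A : LayCc σ hN h w δ F κ C c0 β H)
    (hP : ∀ n q, q ≠ w → ColdAt σ w hN (A.hn n) w (A.Pc n q) (A.bn n) (Real.exp (-A.Hn n)) (Real.exp (-A.Hn n))) :
    ColdAt σ w hN h w F β (Real.exp (-H)) (Real.exp (-H)) := by
  set E := Real.exp (-H) with hE
  have hE0 : 0 < E := Real.exp_pos _
  have hN1 : (0 : ℝ) < (N : ℝ) + 1 := by positivity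
  obtain ⟨L, hL⟩ := A.last (E * E / (4 * (N + 1))) (by positivity)
  set I : Finset ι := univ.erase w with hI
  have hcard : (I.card : ℝ) ≤ Fintype.card ι := by
    exact_mod_cast Finset.card_le_univ I
  set J : Finset (Option (ℕ × ι)) := Finset.insertNone (range L ×ˢ I) with hJ
  set S' : Option (ℕ × ι) → ℕ → Sq k N ι Θ (Ξ × Q) → Prop := fun j t v => match j with
    | none => β / 4 ≤ |A.Z L t v|
    | some (n, q) => A.bn n ≤ |pT (binSys Θ Ξ Q σ w hN (A.hn n)) univ (A.Pc n q) t v| with hS'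
  set rr : Option (ℕ × ι) → ℝ := fun j => match j with
    | none => E / 2
    | some (n, _) => Real.exp (-A.Hn n) with hrr
  have hsum : ∑ j ∈ J, rr j ≤ E := by
    rw [hJ, Finset.sum_insertNone, Finset.sum_product]
    have h1 : ∑ n ∈ range L, ∑ q ∈ I, rr (some (n, q)) ≤ E / 4 := by
      refine le_trans (Finset.sum_le_sum fun n _ => ?_) (A.sH L)
      show ∑ _q ∈ I, Real.exp (-A.Hn n) ≤ _
      rw [Finset.sum_const, nsmul_eq_mul]
      exact mul_le_mul_of_nonneg_right hcard (Real.exp_pos _).le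
    have h2 : rr none = E / 2 := rfl
    linarith
  have hot := (PM k N ι Θ Ξ Q).hot_sum (Y := fun t => Kn w (ex N t)) J
    (S := fun t v => t ≤ N ∧ β ≤ |pT (binSys Θ Ξ Q σ w hN h) univ F t v|) (S' := S')
    (fun t v _ hS => ?_) rr N (ρ := E) hsum ⟨none, Finset.none_mem_insertNone⟩
  · have h1 : (PM k N ι Θ Ξ Q).Pr (fun ω => ∃ t ≤ N, E ≤ (PM k N ι Θ Ξ Q).ce (Kn w (ex N t))
        (fun v => ind (β ≤ |pT (binSys Θ Ξ Q σ w hN h) univ F t v|)) ω) ≤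
        ∑ j ∈ J, (PM k N ι Θ Ξ Q).Pr (fun ω => ∃ t ≤ N, rr j ≤ (PM k N ι Θ Ξ Q).ce (Kn w (ex N t))
          (fun v => ind (S' j t v)) ω) := by
      refine le_trans (FP.Pr_mono _ fun ω _ => ?_) hot
      rintro ⟨t, ht, hh⟩
      refine ⟨t, ht, hh.trans (le_of_eq ?_)⟩
      congr 1
      funext v
      congr 1
      exact propext ⟨fun h => ⟨ht, h⟩, fun h => h.2⟩
    refine h1.trans ?_
    rw [hJ, Finset.sum_insertNone, Finset.sum_product]
    have h2 : (PM k N ι Θ Ξ Q).Pr (fun ω => ∃ t ≤ N, rr none ≤ (PM k N ι Θ Ξ Q).ce (Kn w (ex N t))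
          (fun v => ind (S' none t v)) ω) ≤ E / 2 := by
      have h3 := hot_last (PM k N ι Θ Ξ Q) (fun t => Kn w (ex N t)) (fun t v => β / 4 ≤ |A.Z L t v|) N
        (ρ := E / 2) (by positivity) hL
      refine h3.trans (le_of_eq ?_)
      field_simp
      ring
    have h4 : ∑ n ∈ range L, ∑ q ∈ I, (PM k N ι Θ Ξ Q).Pr (fun ω => ∃ t ≤ N, rr (some (n, q)) ≤
        (PM k N ι Θ Ξ Q).ce (Kn w (ex N t)) (fun v => ind (S' (some (n, q)) t v)) ω) ≤ E / 4 := by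
      refine le_trans (Finset.sum_le_sum fun n _ => ?_) (A.sH L)
      refine le_trans (Finset.sum_le_sum fun q hq => hP n q (Finset.ne_of_mem_erase hq)) ?_
      rw [Finset.sum_const, nsmul_eq_mul]
      exact mul_le_mul_of_nonneg_right hcard (Real.exp_pos _).le
    linarith
  · obtain ⟨ht, hh⟩ := hS
    by_contra hcon
    push Not at hcon
    have h1 : |A.Z L t v| < β / 4 := not_le.1 (hcon none Finset.none_mem_insertNone)
    have h2 : ∀ n ∈ range L, ∀ q ∈ I, |pT (binSys Θ Ξ Q σ w hN (A.hn n)) univ (A.Pc n q) t v| ≤ A.bn n := by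
      intro n hn q hq
      refine (not_le.1 (hcon (some (n, q)) ?_)).le
      rw [hJ, Finset.some_mem_insertNone, Finset.mem_product]
      exact ⟨hn, hq⟩
    rw [A.id L t ht v] at hh
    have h3 : |∑ n ∈ range L, ∑ q ∈ I, c0 * pT (binSys Θ Ξ Q σ w hN (A.hn n)) univ (A.Pc n q) t v| ≤ β / 2 := by
      refine le_trans (Finset.abs_sum_le_sum_abs _ _) (le_trans (Finset.sum_le_sum fun n hn => ?_) (A.sb L))
      refine le_trans (Finset.abs_sum_le_sum_abs _ _) ?_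
      have h4 : ∀ q ∈ I, |c0 * pT (binSys Θ Ξ Q σ w hN (A.hn n)) univ (A.Pc n q) t v| ≤ c0 * A.bn n := by
        intro q hq
        rw [abs_mul, abs_of_nonneg A.c00]
        exact mul_le_mul_of_nonneg_left (h2 n hn q hq) A.c00
      refine (Finset.sum_le_sum h4).trans ?_
      rw [Finset.sum_const, nsmul_eq_mul, mul_assoc]
      exact mul_le_mul_of_nonneg_right hcard (mul_nonneg A.c00 (A.b0 n).le)
    have h5 := abs_add_le (∑ n ∈ range L, ∑ q ∈ I, c0 * pT (binSys Θ Ξ Q σ w hN (A.hn n)) univ (A.Pc n q) t v)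
      (A.Z L t v)
    linarith

end bin

/-- **no structured face** -/
theorem cmcAll_of_piece {j : ℕ} {κ : ℝ} {C C1 : ℕ} (hL : LayersCc j κ C C1) (hP : CMcPiece j κ C) : CMcAll j C1 := by
  intro ι Θ Ξ Q _ _ _ _ _ _ _ _ k N σ w δ hN h hj hδ β H hβ hβ2 hβH hK hnear F hF
  obtain ⟨c0, ⟨A⟩⟩ := hL ι Θ Ξ Q k N σ w δ hN h hj hδ β H hβ hβ2 hβH hK hnear F hF
  refine coldc_of_lay hβ A fun n q hq => ?_
  exact hP ι Θ Ξ Q k N σ w δ q hN (A.hn n) hj hδ hq (A.bn n) (A.Hn n) (A.Ln n) (A.b0 n) (A.b2 n) (A.bH n) (A.KH n)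
    (A.nH n) (A.HL n) (A.LH n) (A.Pc n q) (A.fac n q hq) (A.str n q hq)

/-! ### moving known face -/

section abs

variable {ι Om Ξ Pt V Γ κ : Type} [Fintype ι] [DecidableEq ι] [Fintype Om] [Fintype Ξ] [Fintype Pt]
  [Fintype V] (S : Sys ι Om Ξ Pt V Γ κ)

/-- the faces of the natural view of `w`, the known face moves, the face `δ ≠ w` sees the coin -/
structure FacesVc (w δ : ι) (F : ι → Mov Ξ ι Pt Γ (V → ℝ)) (m M θ acc : ℝ) : Prop where
  dep : ∀ i, ∀ t g ξ, Dep (univ.erase i) (F i t g ξ)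
  coin : ∀ i, i ≠ δ → ∀ t g ξ ξ', F i t g ξ = F i t g ξ'
  bd : ∀ i, ∀ t g ξ x d, |F i t g ξ x d| ≤ 1
  zero : ∀ i, ∀ g ξ x, F i 0 g ξ x = 0
  mvt : S.MvTail (F w) m
  fut : ∀ i, i ≠ w → S.Future (univ.erase i) (F i) M
  tail : ∀ i, i ≠ w → S.MvTail (F i) m
  mean : ∀ i, i ≠ w → S.P.E (S.nmv (F i) S.n) ≤ m
  rare : ∀ i, i ≠ w → S.Rare univ i (F i) θ acc

variable {S}

/-- the versions of the known face -/
theorem FacesVc.ver {w δ : ι} {F : ι → Mov Ξ ι Pt Γ (V → ℝ)} {m M θ acc : ℝ} (h : FacesVc S w δ F m M θ acc) (ξ0 : Ξ)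
    (v : ℕ) : FacesCc S w δ (kvF S F w (cfr ξ0 (F w)) v) m M θ acc where
  dep i := kvF_dep (fun t g => h.dep w t g ξ0) (fun t g x d => h.bd w t g ξ0 x d) v (h.dep i)
  coin i hi := kvF_free v (h.coin i hi)
  bd i := kvF_abs (fun t g => h.dep w t g ξ0) (fun t g x d => h.bd w t g ξ0 x d) v le_rfl (h.bd i)
  zero i := kvF_zero v (h.zero i)
  once t ω := by
    rw [kvF_self]
    exact (kv_NF (S := S) (f := cfr ξ0 (F w)) (fun t g => h.dep w t g ξ0) (fun t g x d => h.bd w t g ξ0 x d) v).intro t ω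
  fut i hi := by rw [kvF_ne F v hi]; exact h.fut i hi
  tail i hi := by rw [kvF_ne F v hi]; exact h.tail i hi
  mean i hi := by rw [kvF_ne F v hi]; exact h.mean i hi
  rare i hi := by rw [kvF_ne F v hi]; exact h.rare i hi

theorem FacesVc.mono {w δ : ι} {F : ι → Mov Ξ ι Pt Γ (V → ℝ)} {m M θ acc m' M' θ' acc' : ℝ} (h : FacesVc S w δ F m M θ acc)
    (h1 : m ≤ m') (h2 : M ≤ M') (h3 : θ ≤ θ') (h4 : acc ≤ acc') : FacesVc S w δ F m' M' θ' acc' where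
  dep := h.dep
  coin := h.coin
  bd := h.bd
  zero := h.zero
  mvt := h.mvt.mono h1
  fut i hi := Sys.Future.mono S (h.fut i hi) h2
  tail i hi := (h.tail i hi).mono h1
  mean i hi := (h.mean i hi).trans h1
  rare i hi := Sys.Rare.mono S (h.rare i hi) h3 h4

/-- the faces of a piece, the face `δ` sees the coin, in the natural view of `w ≠ δ` -/
theorem FacesVc.of {δ : ι} {F : ι → Mov Ξ ι Pt Γ (V → ℝ)} {m θ acc : ℝ} (hm : 0 < m)
    (h : Faces S univ δ F m θ acc) (w : ι) : FacesVc S w δ F (1 + 2 * m) m θ acc where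
  dep i := h.dep i (mem_univ i)
  coin i hi := h.coin i (mem_univ i) hi
  bd i := h.bd i (mem_univ i)
  zero i := h.zero i (mem_univ i)
  mvt := (h.fut w (mem_univ w)).tail (h.dep w (mem_univ w)) hm
  fut i _ := h.fut i (mem_univ i)
  tail i _ := (h.fut i (mem_univ i)).tail (h.dep i (mem_univ i)) hm
  mean i _ := by
    have h5 := (h.fut i (mem_univ i)).mean
    linarith
  rare i _ := h.rare i (mem_univ i)

end abs

section bin

variable {k N : ℕ} {ι Θ Ξ Q : Type} [Fintype ι] [DecidableEq ι] {σ : V k} [Fintype Θ] [Nonempty Θ] [Fintype Ξ]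
  [Nonempty Ξ] [Fintype Q] [Nonempty Q]

/-- the versions of the known face are cold ==> the process is cold -/
theorem coldc_versions {hN : N ≤ k} {h : ℕ} {w δ : ι} (hδ : δ ≠ w)
    {F : ι → Mov Ξ ι (Q × V k) (Θ × (V k × ℕ)) (V k → ℝ)} {m M θ acc : ℝ}
    (hF : FacesVc (binSys Θ Ξ Q σ w hN h) w δ F m M θ acc) (hm : 0 ≤ m) {r ρ q : ℝ} (hr : 0 < r) (hρ : 0 < ρ) (n : ℕ)
    (hq : ∀ (ξ0 : Ξ) (v : ℕ), ColdAt σ w hN h w (kvF (binSys Θ Ξ Q σ w hN h) F w (cfr ξ0 (F w)) v) r ρ q) :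
    ColdAt σ w hN h w F r ρ (n * m * q + (1 / 2) ^ n) := by
  exact hot_union_tail (S := binSys Θ Ξ Q σ w hN h) (F := F) (a := w) (hF.coin w hδ.symm) (hF.dep w) (hF.zero w)
    (mem_univ w) (Y := fun t => Kn w (ex N t)) (fun t => Kn_node w w hN h t) hm hF.mvt hr hρ n
    (fun ξ0 v _ => hq ξ0 v)

end bin

/-- **COLDNESS OF THE NATURAL VIEWS, MOVING FACES, WITH A COIN** -/
theorem coldc_moving {j C : ℕ} (hA : CMcAll j C) (e : ℕ) : ∃ C2 : ℕ,
    ∀ (ι Θ Ξ Q : Type) [Fintype ι] [DecidableEq ι] [Fintype Θ] [Nonempty Θ] [Fintype Ξ] [Nonempty Ξ] [Fintype Q]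
    [Nonempty Q] (k N : ℕ) (σ : V k) (w δ : ι) (hN : N ≤ k) (h : ℕ), Fintype.card ι = j → δ ≠ w →
    ∀ β H : ℝ, 0 < β → β ≤ 1 / 2 → 1 / β ≤ H → (binSys Θ Ξ Q σ w hN h).K ≤ Real.exp H →
      (binSys Θ Ξ Q σ w hN h).near ≤ β ^ C2 →
      ∀ F : ι → Mov Ξ ι (Q × V k) (Θ × (V k × ℕ)) (V k → ℝ),
        FacesVc (binSys Θ Ξ Q σ w hN h) w δ F (1 + 2 * H) H (Real.exp (-H ^ C2)) (β ^ C2) →
        ColdAt σ w hN h w F β (Real.exp (-H ^ e)) (Real.exp (-H ^ e)) := by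
  refine ⟨(e + 8) * C + C, ?_⟩
  intro ι Θ Ξ Q _ _ _ _ _ _ _ _ k N σ w δ hN h hj hδ β H hβ hβ2 hβH hK hnear F hF
  have hH2 : 2 ≤ H := by
    have : 2 ≤ 1 / β := by
      rw [le_div_iff₀ hβ]
      linarith
    linarith
  obtain ⟨n, hn⟩ := cold_num e hH2
  set H1 := H ^ (e + 8) with hH1
  have hHH : H ≤ H1 := by
    calc H = H ^ 1 := (pow_one H).symm
      _ ≤ H ^ (e + 8) := pow_le_pow_right₀ (by linarith) (by omega)
  have hpow : H1 ^ C ≤ H ^ ((e + 8) * C + C) := by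
    rw [hH1, ← pow_mul]
    exact pow_le_pow_right₀ (by linarith) (by omega)
  have hβC : β ^ ((e + 8) * C + C) ≤ β ^ C := pow_le_pow_of_le_one hβ.le (by linarith) (by omega)
  have hE : Real.exp (-H1) ≤ Real.exp (-H ^ e) := by
    refine Real.exp_le_exp.2 (neg_le_neg ?_)
    exact pow_le_pow_right₀ (by linarith) (by omega)
  have hver : ∀ (ξ0 : Ξ) (v : ℕ), ColdAt σ w hN h w (kvF (binSys Θ Ξ Q σ w hN h) F w (cfr ξ0 (F w)) v) β
      (Real.exp (-H ^ e)) (Real.exp (-H1)) := by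
    intro ξ0 v
    refine (hA ι Θ Ξ Q k N σ w δ hN h hj hδ β H1 hβ hβ2 (hβH.trans hHH) (hK.trans (Real.exp_le_exp.2 hHH))
      (hnear.trans hβC) _ ((hF.mono ?_ hHH ?_ hβC).ver ξ0 v)).mono le_rfl hE le_rfl
    · linarith
    · exact Real.exp_le_exp.2 (neg_le_neg hpow)
  refine (coldc_versions hδ hF (by linarith) hβ (Real.exp_pos _) n hver).mono le_rfl le_rfl ?_
  exact hn

/-- **COLDNESS OF THE NATURAL VIEWS OF THE FACES OF A PIECE**, the face `δ ≠ w` sees the coin of the vertex `w` -/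
theorem coldc_faces {j C : ℕ} (hA : CMcAll j C) (e : ℕ) : ∃ C2 : ℕ,
    ∀ (ι Θ Ξ Q : Type) [Fintype ι] [DecidableEq ι] [Fintype Θ] [Nonempty Θ] [Fintype Ξ] [Nonempty Ξ] [Fintype Q]
    [Nonempty Q] (k N : ℕ) (σ : V k) (w δ : ι) (hN : N ≤ k) (h : ℕ), Fintype.card ι = j → δ ≠ w →
    ∀ β H Λ : ℝ, 0 < β → β ≤ 1 / 2 → 1 / β ≤ H → (binSys Θ Ξ Q σ w hN h).K ≤ Real.exp H →
      (binSys Θ Ξ Q σ w hN h).near ≤ β ^ C2 → H ^ C2 ≤ Λ →
      ∀ F : ι → Mov Ξ ι (Q × V k) (Θ × (V k × ℕ)) (V k → ℝ),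
        Faces (binSys Θ Ξ Q σ w hN h) univ δ F H (Real.exp (-Λ)) (β ^ C2) →
        ColdAt σ w hN h w F β (Real.exp (-H ^ e)) (Real.exp (-H ^ e)) := by
  obtain ⟨C2, hC2⟩ := coldc_moving hA e
  refine ⟨C2, ?_⟩
  intro ι Θ Ξ Q _ _ _ _ _ _ _ _ k N σ w δ hN h hj hδ β H Λ hβ hβ2 hβH hK hnear hΛ F hF
  have hH2 : 2 ≤ H := by
    have : 2 ≤ 1 / β := by
      rw [le_div_iff₀ hβ]
      linarith
    linarith
  refine hC2 ι Θ Ξ Q k N σ w δ hN h hj hδ β H hβ hβ2 hβH hK hnear F ?_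
  exact (FacesVc.of (by linarith) hF w).mono le_rfl le_rfl (Real.exp_le_exp.2 (neg_le_neg hΛ)) le_rfl

end

end Pool.Agent.GM.GS
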