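import Pool.Agent.M3.View

/-!
# GM/Chain : the chain reference (last step, row L of table gm), part 1: inequalities for one step

Notation: `v` the new value (digit, split, version), `p0` its law given the label of the face without `x_0`,
`p j` its law given the label of the facet `j`, `q j` its law given the lower label `par_j` shared with the earlier
facets.  The weight of the chain reference is multiplied by `p0 v * ∏ j, p j v / q j v` (relative to the law `p0`).

* `tri p q = (p - q)^2 / (p + q)` : triangular discrimination; `tri_le_kl`;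
* `split_ge` : `1 - 12 * 2^k * ∑ j, ∑ v, (tri (p0 v) (q j v) + tri (p j v) (q j v)) ≤ ∑ v, p0 v * ∏ j, p j v / q j v`;
* `split_phi_ge` : the same with a factor `Phi s (x v)` where `x v = x` (nothing changes) or `v` is a digit.
-/

set_option autoImplicit false
set_option linter.unusedSectionVars false

namespace Pool.Agent.GM

open Finset Pool.Agent.M3

noncomputable section

/-! ### triangular discrimination -/

/-- triangular discrimination -/
def tri (p q : ℝ) : ℝ := (p - q) ^ 2 / (p + q)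

theorem tri_nonneg {p q : ℝ} (hp : 0 ≤ p) (hq : 0 ≤ q) : 0 ≤ tri p q := by
  unfold tri
  positivity

theorem tri_comm (p q : ℝ) : tri p q = tri q p := by
  unfold tri
  rw [add_comm q p]
  congr 1
  ring

theorem tri_zero (p : ℝ) : tri p 0 = p := by
  unfold tri
  rcases eq_or_ne p 0 with h | h
  · rw [h]; simp
  · rw [sub_zero, add_zero, pow_two, mul_div_assoc, div_self h, mul_one]

/-- the capped ratio minus one -/
def xc (p q : ℝ) : ℝ := min (p / q) 2 - 1

theorem xc_le (p q : ℝ) : xc p q ≤ 1 := by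
  unfold xc
  linarith [min_le_right (p / q) 2]

theorem le_xc {p q : ℝ} (hp : 0 ≤ p) (hq : 0 ≤ q) : -1 ≤ xc p q := by
  unfold xc
  have h : 0 ≤ min (p / q) 2 := le_min (div_nonneg hp hq) (by norm_num)
  linarith

theorem one_add_xc_le (p q : ℝ) : 1 + xc p q ≤ p / q := by
  unfold xc
  linarith [min_le_left (p / q) 2]

theorem sub_le_mul_xc {p q : ℝ} (hp : 0 ≤ p) (hq : 0 ≤ q) (h0 : q = 0 → p = 0) :
    (p - q) - 2 * tri p q ≤ q * xc p q := by
  rcases hq.eq_or_lt with h | h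
  · have hp0 := h0 h.symm
    rw [← h, hp0]
    unfold tri
    simp
  · have hpq : 0 < p + q := by linarith
    unfold xc
    rcases le_total (p / q) 2 with h1 | h1
    · rw [min_eq_left h1]
      have h2 : q * (p / q - 1) = p - q := by field_simp
      rw [h2]
      linarith [tri_nonneg hp hq]
    · rw [min_eq_right h1]
      have h2 : 2 * q ≤ p := by rwa [le_div_iff₀ h] at h1
      have h3 : (p - 2 * q) ≤ 2 * tri p q := by
        unfold tri
        rw [← mul_div_assoc, le_div_iff₀ hpq]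
        nlinarith [sq_nonneg (p - 3 / 2 * q), sq_nonneg q]
      linarith

theorem add_mul_xc_sq_le {p0 p q : ℝ} (h0 : 0 ≤ p0) (hp : 0 ≤ p) (hq : 0 ≤ q) :
    (p0 + q) * xc p q ^ 2 ≤ 4 * tri p0 q + 12 * tri p q := by
  have t0 := tri_nonneg h0 hq
  have t1 := tri_nonneg hp hq
  have hx1 := xc_le p q
  have hx2 := le_xc hp hq
  have hx : xc p q ^ 2 ≤ 1 := by nlinarith
  rcases hq.eq_or_lt with h | h
  · have h1 : (p0 + q) * xc p q ^ 2 ≤ (p0 + q) * 1 := mul_le_mul_of_nonneg_left hx (by linarith)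
    have h2 : tri p0 q = p0 := by rw [← h, tri_zero]
    linarith
  · have hpq : 0 < p + q := by linarith
    have hpq0 : 0 < p0 + q := by linarith
    rcases le_total (3 * q) p0 with h1 | h1
    · have h2 : (p0 + q) ≤ 4 * tri p0 q := by
        unfold tri
        rw [← mul_div_assoc, le_div_iff₀ hpq0]
        nlinarith
      have h3 : (p0 + q) * xc p q ^ 2 ≤ (p0 + q) * 1 := mul_le_mul_of_nonneg_left hx hpq0.le
      linarith
    · have h2 : q * xc p q ^ 2 ≤ 3 * tri p q := by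
        unfold xc
        rcases le_total (p / q) 2 with h3 | h3
        · rw [min_eq_left h3]
          have h4 : p ≤ 2 * q := by rwa [div_le_iff₀ h] at h3
          have h5 : q * (p / q - 1) ^ 2 = (p - q) ^ 2 / q := by field_simp
          rw [h5]
          unfold tri
          rw [div_le_iff₀ h, mul_comm 3, mul_assoc, div_mul_eq_mul_div, le_div_iff₀ hpq]
          have h6 : 0 ≤ (p - q) ^ 2 := sq_nonneg _
          nlinarith
        · rw [min_eq_right h3]
          have h4 : 2 * q ≤ p := by rwa [le_div_iff₀ h] at h3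
          unfold tri
          rw [← mul_div_assoc, le_div_iff₀ hpq]
          nlinarith
      have h3 : (p0 + q) * xc p q ^ 2 ≤ 4 * q * xc p q ^ 2 :=
        mul_le_mul_of_nonneg_right (by linarith) (sq_nonneg _)
      nlinarith

theorem sub_le_mul_xc0 {p0 p q : ℝ} (h0 : 0 ≤ p0) (hp : 0 ≤ p) (hq : 0 ≤ q) (hpq : q = 0 → p = 0) :
    (p - q) - 5 * tri p q - 2 * tri p0 q ≤ p0 * xc p q := by
  have h1 := sub_le_mul_xc hp hq hpq
  have h2 := add_mul_xc_sq_le h0 hp hq
  have h3 : -(tri p0 q + (p0 + q) * xc p q ^ 2 / 4) ≤ (p0 - q) * xc p q := by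
    rcases eq_or_lt_of_le (add_nonneg h0 hq) with h | h
    · have e1 : p0 = 0 := by linarith
      have e2 : q = 0 := by linarith
      rw [e1, e2, tri_zero]
      simp
    · unfold tri
      have h4 : 0 ≤ ((p0 - q) + (p0 + q) * xc p q / 2) ^ 2 / (p0 + q) := by positivity
      have h5 : ((p0 - q) + (p0 + q) * xc p q / 2) ^ 2 / (p0 + q) =
          (p0 - q) ^ 2 / (p0 + q) + (p0 - q) * xc p q + (p0 + q) * xc p q ^ 2 / 4 := by
        field_simp
        ring
      rw [h5] at h4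
      linarith
  have h4 : p0 * xc p q = q * xc p q + (p0 - q) * xc p q := by ring
  rw [h4]
  linarith

/-! ### products -/

theorem prod_one_add_ge {β : Type*} [DecidableEq β] (s : Finset β) (x : β → ℝ) (h1 : ∀ j ∈ s, -1 ≤ x j)
    (h2 : ∀ j ∈ s, x j ≤ 1) :
    1 + ∑ j ∈ s, x j - (2 ^ s.card - 1) * ∑ j ∈ s, x j ^ 2 ≤ ∏ j ∈ s, (1 + x j) := by
  induction s using Finset.induction_on with
  | empty => simp
  | insert a s ha ih =>
    have ih' := ih (fun j hj => h1 j (mem_insert_of_mem hj)) (fun j hj => h2 j (mem_insert_of_mem hj))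
    rw [Finset.sum_insert ha, Finset.sum_insert ha, Finset.prod_insert ha, Finset.card_insert_of_notMem ha]
    have ha1 := h1 a (mem_insert_self a s)
    have ha2 := h2 a (mem_insert_self a s)
    set S := ∑ j ∈ s, x j
    set Q := ∑ j ∈ s, x j ^ 2
    set n := s.card
    have hQ : 0 ≤ Q := Finset.sum_nonneg fun j _ => sq_nonneg _
    have h3 : (1 + x a) * (1 + S - (2 ^ n - 1) * Q) ≤ (1 + x a) * ∏ j ∈ s, (1 + x j) :=
      mul_le_mul_of_nonneg_left ih' (by linarith)
    refine le_trans ?_ h3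
    have h4 : -((n : ℝ) * x a ^ 2 + Q) / 2 ≤ x a * S := by
      have h5 : x a * S = ∑ j ∈ s, x a * x j := by rw [Finset.mul_sum]
      have h6 : -((n : ℝ) * x a ^ 2 + Q) / 2 = ∑ j ∈ s, (-(x a ^ 2 + x j ^ 2) / 2) := by
        rw [← Finset.sum_div, Finset.sum_neg_distrib, Finset.sum_add_distrib, Finset.sum_const, nsmul_eq_mul]
      rw [h5, h6]
      refine Finset.sum_le_sum fun j _ => ?_
      nlinarith [sq_nonneg (x a + x j)]
    have hn : (n : ℝ) + 1 ≤ 2 ^ n := by
      have := Nat.lt_two_pow_self (n := n)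
      exact_mod_cast this
    have h7 : (1 : ℝ) ≤ 2 ^ n := one_le_pow₀ (by norm_num)
    have h8 : (1 + x a) * ((2 ^ n - 1) * Q) ≤ 2 * ((2 ^ n - 1) * Q) :=
      mul_le_mul_of_nonneg_right (by linarith) (mul_nonneg (by linarith) hQ)
    have h9 : 0 ≤ x a ^ 2 := sq_nonneg _
    have e1 : (1 + x a) * (1 + S - (2 ^ n - 1) * Q) =
        1 + x a + S + x a * S - (1 + x a) * ((2 ^ n - 1) * Q) := by ring
    rw [e1, pow_succ]
    have h10 : (n : ℝ) * x a ^ 2 ≤ 2 ^ n * x a ^ 2 := mul_le_mul_of_nonneg_right (by linarith) h9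
    have h11 : x a ^ 2 ≤ 2 ^ n * x a ^ 2 := by nlinarith
    nlinarith

/-- ONE STEP, pointwise form -/
theorem point_ge {β : Type*} [DecidableEq β] (s : Finset β) {p0 : ℝ} (h0 : 0 ≤ p0) {p q : β → ℝ}
    (hp : ∀ j ∈ s, 0 ≤ p j) (hq : ∀ j ∈ s, 0 ≤ q j) (hpq : ∀ j ∈ s, q j = 0 → p j = 0) :
    p0 + ∑ j ∈ s, (p j - q j) - 12 * 2 ^ s.card * ∑ j ∈ s, (tri p0 (q j) + tri (p j) (q j)) ≤
      p0 * ∏ j ∈ s, p j / q j := by
  have h1 := prod_one_add_ge s (fun j => xc (p j) (q j)) (fun j hj => le_xc (hp j hj) (hq j hj))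
    (fun j hj => xc_le _ _)
  have h2 : ∏ j ∈ s, (1 + xc (p j) (q j)) ≤ ∏ j ∈ s, p j / q j := by
    refine Finset.prod_le_prod (fun j hj => ?_) fun j hj => one_add_xc_le _ _
    linarith [le_xc (hp j hj) (hq j hj)]
  have h3 := mul_le_mul_of_nonneg_left (h1.trans h2) h0
  refine le_trans ?_ h3
  have h7 : (1 : ℝ) ≤ 2 ^ s.card := one_le_pow₀ (by norm_num)
  have e1 : p0 * (1 + ∑ j ∈ s, xc (p j) (q j) - (2 ^ s.card - 1) * ∑ j ∈ s, xc (p j) (q j) ^ 2) =
      p0 + ∑ j ∈ s, (p0 * xc (p j) (q j) - (2 ^ s.card - 1) * (p0 * xc (p j) (q j) ^ 2)) := by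
    rw [Finset.sum_sub_distrib, ← Finset.mul_sum, ← Finset.mul_sum, ← Finset.mul_sum]
    ring
  have e2 : p0 + ∑ j ∈ s, (p j - q j) - 12 * 2 ^ s.card * ∑ j ∈ s, (tri p0 (q j) + tri (p j) (q j)) =
      p0 + ∑ j ∈ s, ((p j - q j) - 12 * 2 ^ s.card * (tri p0 (q j) + tri (p j) (q j))) := by
    rw [Finset.mul_sum, Finset.sum_sub_distrib (f := fun j => p j - q j)]
    linarith
  rw [e1, e2]
  have h8 : ∀ j ∈ s, (p j - q j) - 12 * 2 ^ s.card * (tri p0 (q j) + tri (p j) (q j)) ≤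
      p0 * xc (p j) (q j) - (2 ^ s.card - 1) * (p0 * xc (p j) (q j) ^ 2) := by
    intro j hj
    have a1 := sub_le_mul_xc0 h0 (hp j hj) (hq j hj) (hpq j hj)
    have a2 := add_mul_xc_sq_le h0 (hp j hj) (hq j hj)
    have a3 : p0 * xc (p j) (q j) ^ 2 ≤ (p0 + q j) * xc (p j) (q j) ^ 2 :=
      mul_le_mul_of_nonneg_right (by linarith [hq j hj]) (sq_nonneg _)
    have a4 : (2 ^ s.card - 1) * (p0 * xc (p j) (q j) ^ 2) ≤
        (2 ^ s.card - 1) * (4 * tri p0 (q j) + 12 * tri (p j) (q j)) :=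
      mul_le_mul_of_nonneg_left (a3.trans a2) (by linarith)
    have t0 := tri_nonneg h0 (hq j hj)
    have t1 := tri_nonneg (hp j hj) (hq j hj)
    have a5 : 0 ≤ (2 : ℝ) ^ s.card * tri p0 (q j) := by positivity
    have a6 : 0 ≤ (2 : ℝ) ^ s.card * tri (p j) (q j) := by positivity
    nlinarith
  exact add_le_add_right (Finset.sum_le_sum h8) _

/-- ONE STEP: total weight.  `p0`, `p j`, `q j` probability vectors, `p j ≪ q j`. -/
theorem split_ge {α β : Type*} [Fintype α] [DecidableEq β] (s : Finset β) {p0 : α → ℝ} (h0 : ∀ v, 0 ≤ p0 v)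
    (h0s : ∑ v, p0 v = 1) {p q : β → α → ℝ} (hp : ∀ j ∈ s, ∀ v, 0 ≤ p j v) (hq : ∀ j ∈ s, ∀ v, 0 ≤ q j v)
    (hps : ∀ j ∈ s, ∑ v, p j v = 1) (hqs : ∀ j ∈ s, ∑ v, q j v = 1)
    (hpq : ∀ j ∈ s, ∀ v, q j v = 0 → p j v = 0) :
    1 - 12 * 2 ^ s.card * ∑ j ∈ s, ∑ v, (tri (p0 v) (q j v) + tri (p j v) (q j v)) ≤
      ∑ v, p0 v * ∏ j ∈ s, p j v / q j v := by
  have h1 : ∑ v, (p0 v + ∑ j ∈ s, (p j v - q j v) -
      12 * 2 ^ s.card * ∑ j ∈ s, (tri (p0 v) (q j v) + tri (p j v) (q j v))) ≤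
      ∑ v, p0 v * ∏ j ∈ s, p j v / q j v :=
    Finset.sum_le_sum fun v _ => point_ge s (h0 v) (fun j hj => hp j hj v) (fun j hj => hq j hj v)
      fun j hj => hpq j hj v
  refine le_trans (le_of_eq ?_) h1
  rw [Finset.sum_sub_distrib, Finset.sum_add_distrib, h0s, Finset.sum_comm (s := univ) (t := s),
    ← Finset.mul_sum, Finset.sum_comm (s := univ) (t := s)]
  have h2 : ∑ j ∈ s, ∑ v, (p j v - q j v) = 0 := by
    refine Finset.sum_eq_zero fun j hj => ?_
    rw [Finset.sum_sub_distrib, hps j hj, hqs j hj]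
    ring
  rw [h2]
  ring

end

end Pool.Agent.GM
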