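import Pool.Agent.GM.PairColdX
import Pool.Agent.GM.PieceDef
import Pool.Agent.GMC.PairPT

/-!
# GM/ColdBin: the cold sets of one and two vertices of a piece, coarse binary model, with numbers (row A10, helper48)
-/

set_option autoImplicit false
set_option linter.unusedSectionVars false

namespace Pool.Agent.GM

open Finset Pool.Agent.PWZ Pool.Agent.M3 Pool.Agent.M3.Bin
open Pool.Agent.GMC (Enu Qb PTc chg FmA FmB famS pq)
open Pool.Agent.M3.Mod (ex nd av)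

noncomputable section

/-! ## numbers -/

namespace CB

theorem xlog (y : ℝ) : Real.exp (-y) * (1 + Real.log (1 / Real.exp (-y))) ≤ 2 * Real.exp (-(y / 2)) := by
  have h1 : Real.log (1 / Real.exp (-y)) = y := by
    rw [one_div, ← Real.exp_neg, neg_neg, Real.log_exp]
  rw [h1]
  have h2 : y / 2 + 1 ≤ Real.exp (y / 2) := Real.add_one_le_exp _
  have h3 : Real.exp (-y) = Real.exp (-(y / 2)) * Real.exp (-(y / 2)) := by
    rw [← Real.exp_add]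
    congr 1
    ring
  have h4 : Real.exp (-(y / 2)) * Real.exp (y / 2) = 1 := by
    rw [← Real.exp_add]
    simp
  have h5 := Real.exp_pos (-(y / 2))
  rw [h3]
  have h6 : Real.exp (-(y / 2)) * (1 + y) ≤ 2 := by
    have : 1 + y ≤ 2 * Real.exp (y / 2) := by linarith
    calc Real.exp (-(y / 2)) * (1 + y) ≤ Real.exp (-(y / 2)) * (2 * Real.exp (y / 2)) :=
          mul_le_mul_of_nonneg_left this h5.le
      _ = 2 * (Real.exp (-(y / 2)) * Real.exp (y / 2)) := by ring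
      _ = 2 := by rw [h4, mul_one]
  calc Real.exp (-(y / 2)) * Real.exp (-(y / 2)) * (1 + y) = Real.exp (-(y / 2)) * (Real.exp (-(y / 2)) * (1 + y)) := by
        ring
    _ ≤ Real.exp (-(y / 2)) * 2 := mul_le_mul_of_nonneg_left h6 h5.le
    _ = _ := by ring

theorem le_two_pow (n : ℕ) : (n : ℝ) ≤ 2 ^ n := by
  exact_mod_cast (Nat.lt_two_pow_self (n := n)).le

theorem two_pow_le_exp (n : ℕ) : (2 : ℝ) ^ n ≤ Real.exp n := by
  have h1 : (2 : ℝ) ≤ Real.exp 1 := by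
    have := Real.add_one_le_exp (1 : ℝ)
    linarith
  calc (2 : ℝ) ^ n ≤ Real.exp 1 ^ n := pow_le_pow_left₀ (by norm_num) h1 n
    _ = Real.exp n := by rw [← Real.exp_nat_mul, mul_one]

theorem le_exp_self (x : ℝ) : x ≤ Real.exp x := by
  have := Real.add_one_le_exp x
  linarith

theorem inv_pow_le {β H : ℝ} (hβ : 0 < β) (hH : 1 / β ≤ H) (c : ℕ) : 1 / β ^ c ≤ H ^ c := by
  rw [← one_div_pow]
  exact pow_le_pow_left₀ (by positivity) hH c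

/-- the rounding from `near` -/
theorem near_pow {β : ℝ} (hβ : 0 < β) (hβ2 : β ≤ 1 / 2) {h C : ℕ} (hn : 8 * ((2 : ℝ) ^ h)⁻¹ ≤ β ^ C) :
    (2 : ℝ) ^ (C + 3) ≤ 2 ^ h := by
  have h1 : β ^ C ≤ (1 / 2) ^ C := pow_le_pow_left₀ hβ.le hβ2 C
  have h2 : 8 * ((2 : ℝ) ^ h)⁻¹ ≤ (1 / 2) ^ C := hn.trans h1
  have h3 : (0 : ℝ) < 2 ^ h := by positivity
  have h4 : (0 : ℝ) < 2 ^ C := by positivity
  rw [one_div, inv_pow] at h2
  have h5 : 8 * ((2 : ℝ) ^ h)⁻¹ * (2 ^ h * 2 ^ C) ≤ (2 ^ C)⁻¹ * (2 ^ h * 2 ^ C) :=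
    mul_le_mul_of_nonneg_right h2 (by positivity)
  have h6 : 8 * ((2 : ℝ) ^ h)⁻¹ * (2 ^ h * 2 ^ C) = 8 * 2 ^ C := by field_simp
  have h7 : ((2 : ℝ) ^ C)⁻¹ * (2 ^ h * 2 ^ C) = 2 ^ h := by field_simp
  rw [h6, h7] at h5
  rw [pow_add]
  linarith

theorem four_le {n h C : ℕ} (h1 : (2 : ℝ) ^ (C + 3) ≤ 2 ^ h) (hC : n ≤ C) : 4 * n ≤ 2 ^ (h + 3) := by
  have h2 : (4 * n : ℝ) ≤ 2 ^ (h + 3) := by
    have h3 : (n : ℝ) ≤ 2 ^ C := (le_two_pow n).trans (pow_le_pow_right₀ (by norm_num) hC)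
    have h4 : (0 : ℝ) < 2 ^ h := by positivity
    rw [pow_add] at h1 ⊢
    nlinarith
  exact_mod_cast h2

/-- THE NUMBERS OF THE PAIR -/
theorem num (n : ℕ) (C : ℝ) (c c1 : ℕ) : ∃ C1 : ℕ, c1 ≤ C1 ∧ ∀ β H Λ : ℝ, 0 < β → β ≤ 1 / 2 → 1 / β ≤ H →
    ∀ h : ℕ, 8 * ((2 : ℝ) ^ h)⁻¹ ≤ β ^ C1 → (2 : ℝ) ^ (h + 3) ≤ Real.exp H → H ^ C1 ≤ Λ →
    ∀ D : ℕ, (D : ℝ) ≤ H ^ c1 → ∃ (s' δ : ℝ) (q : ℕ), 0 < s' ∧ s' ≤ 1 ∧ 0 < δ ∧ δ ≤ 1 ∧
      s' + 4 * ((2 : ℝ) ^ h)⁻¹ ≤ β ^ c1 ∧ β ^ C1 + 8 * ((2 : ℝ) ^ h)⁻¹ ≤ (s' / 2) ^ (2 ^ n) ∧ 8 ≤ 4 ^ q * δ ∧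
      4 * n ≤ 2 ^ (h + 3) ∧ 2 ^ (n * D) * ((n + 1) * δ) ≤ Real.exp (-H ^ c1) ∧
      C * Qb ((s' ^ (2 * q) * δ) ^ (2 ^ n) / 2) H q (2 ^ (h + 3)) ^ c *
        (Real.exp (-Λ) * (1 + Real.log (1 / Real.exp (-Λ)))) ≤ Real.exp (-H ^ c1) := by
  obtain ⟨M1, hM1⟩ := pow_unbounded_of_one_lt (2 * (|C| + c * (11 * 2 ^ n + 8) + 2)) (one_lt_two : (1 : ℝ) < 2)
  set M0 := 2 * n + 2 with hM0
  set a := c1 + M0 with ha
  refine ⟨c1 + (c1 + 2) * 2 ^ n + 1 + n + M1 + (a + c1 + 1), by omega, ?_⟩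
  intro β H Λ hβ hβ2 hH h hn hK hΛ D hD
  set C1 := c1 + (c1 + 2) * 2 ^ n + 1 + n + M1 + (a + c1 + 1) with hC1
  have hβ1 : β ≤ 1 := by linarith
  have hH2 : 2 ≤ H := by
    have h1 : (2 : ℝ) ≤ 1 / β := by
      rw [le_div_iff₀ hβ]
      linarith
    exact h1.trans hH
  have hH1 : 1 ≤ H := by linarith
  have hHp : ∀ m : ℕ, (1 : ℝ) ≤ H ^ m := fun m => one_le_pow₀ hH1
  set X := H ^ a with hX
  have hX1 : 1 ≤ X := hHp a
  set Y := H ^ (a + c1 + 1) with hY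
  have hXY : X * H ^ (c1 + 1) = Y := by
    rw [hX, hY, ← pow_add]
    rfl
  have hY1 : 1 ≤ Y := hHp _
  have hXleY : X ≤ Y := pow_le_pow_right₀ hH1 (by omega)
  have hHleY : H ≤ Y := by
    have := pow_le_pow_right₀ hH1 (show 1 ≤ a + c1 + 1 by omega)
    rwa [pow_one] at this
  have hc1Y : H ^ c1 ≤ Y := pow_le_pow_right₀ hH1 (by omega)
  set q := ⌈X⌉₊ + 3 with hq
  have hqX : (q : ℝ) ≤ X + 4 := by
    have h1 := (Nat.ceil_lt_add_one (show (0 : ℝ) ≤ X by linarith)).le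
    rw [hq]
    push_cast
    linarith
  have hq5 : (q : ℝ) ≤ 5 * X := by linarith
  have hpow : (2 : ℝ) ^ (C1 + 3) ≤ 2 ^ h := near_pow hβ hβ2 hn
  have hbC : β ^ C1 ≤ β ^ c1 := pow_le_pow_of_le_one hβ.le hβ1 (by omega)
  have hbc1 : 0 < β ^ c1 := by positivity
  have hbc1' : β ^ c1 ≤ 1 := pow_le_one₀ hβ.le hβ1
  refine ⟨β ^ c1 / 2, Real.exp (-X), q, by positivity, by linarith, Real.exp_pos _, ?_, by linarith, ?_, ?_,
    four_le hpow (by omega), ?_, ?_⟩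
  · rw [← Real.exp_zero]
    exact Real.exp_le_exp.mpr (by linarith)
  · -- the accuracy
    have h1 : β ^ C1 + 8 * ((2 : ℝ) ^ h)⁻¹ ≤ β ^ (C1 - 1) := by
      have h2 : β ^ C1 = β ^ (C1 - 1) * β := by
        rw [← pow_succ]
        congr 1
      have h3 : (0 : ℝ) < β ^ (C1 - 1) := by positivity
      nlinarith
    refine h1.trans ?_
    have h4 : β ^ (C1 - 1) ≤ β ^ ((c1 + 2) * 2 ^ n) := pow_le_pow_of_le_one hβ.le hβ1 (by omega)
    refine h4.trans ?_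
    rw [pow_mul]
    refine pow_le_pow_left₀ (by positivity) ?_ _
    rw [pow_add]
    have h5 : β ^ 2 ≤ 1 / 4 := by nlinarith
    nlinarith
  · -- the kernel
    have h1 : (4 : ℝ) ^ q = 4 ^ ⌈X⌉₊ * 64 := by
      rw [hq, pow_add]
      norm_num
    have h2 : Real.exp X ≤ 4 ^ ⌈X⌉₊ := by
      have h3 : Real.exp 1 ≤ 4 := by
        have := Real.exp_one_lt_d9
        linarith
      calc Real.exp X ≤ Real.exp (⌈X⌉₊ : ℕ) := Real.exp_le_exp.mpr (Nat.le_ceil X)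
        _ = Real.exp 1 ^ ⌈X⌉₊ := by rw [← Real.exp_nat_mul, mul_one]
        _ ≤ 4 ^ ⌈X⌉₊ := pow_le_pow_left₀ (Real.exp_pos _).le h3 _
    have h4 : Real.exp X * Real.exp (-X) = 1 := by
      rw [← Real.exp_add]
      simp
    have h5 := Real.exp_pos (-X)
    rw [h1]
    nlinarith [mul_le_mul_of_nonneg_right h2 h5.le]
  · -- the cold level
    have h1 : (2 : ℝ) ^ (n * D) ≤ Real.exp (n * H ^ c1) := by
      refine (two_pow_le_exp _).trans (Real.exp_le_exp.mpr ?_)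
      push_cast
      exact mul_le_mul_of_nonneg_left hD (Nat.cast_nonneg n)
    have h2 : ((n : ℝ) + 1) ≤ Real.exp n := Real.add_one_le_exp _
    have h3 : (n : ℝ) * H ^ c1 + n + H ^ c1 ≤ X := by
      have h4 : (2 * n + 1 : ℝ) ≤ H ^ M0 := by
        have h5 : ((2 * n + 1 : ℕ) : ℝ) ≤ 2 ^ (2 * n + 1) := le_two_pow _
        have h6 : (2 : ℝ) ^ (2 * n + 1) ≤ H ^ (2 * n + 1) := pow_le_pow_left₀ (by norm_num) hH2 _
        have h7 : H ^ (2 * n + 1) ≤ H ^ M0 := pow_le_pow_right₀ hH1 (by omega)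
        push_cast at h5
        linarith
      have h8 : X = H ^ c1 * H ^ M0 := by rw [hX, ha, pow_add]
      have h9 := hHp c1
      have h10 : (0 : ℝ) ≤ n := Nat.cast_nonneg n
      rw [h8]
      nlinarith [mul_le_mul_of_nonneg_left h4 (show (0 : ℝ) ≤ H ^ c1 by linarith)]
    calc (2 : ℝ) ^ (n * D) * ((n + 1) * Real.exp (-X)) ≤ Real.exp (n * H ^ c1) * (Real.exp n * Real.exp (-X)) :=
          mul_le_mul h1 (mul_le_mul_of_nonneg_right h2 (Real.exp_pos _).le) (by positivity) (Real.exp_pos _).le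
      _ = Real.exp (n * H ^ c1 + (n + -X)) := by rw [Real.exp_add, Real.exp_add]
      _ ≤ _ := Real.exp_le_exp.mpr (by linarith)
  · -- the mass
    have hs0 : (0 : ℝ) < β ^ c1 / 2 := by positivity
    have hz0 : 0 < (β ^ c1 / 2) ^ (2 * q) * Real.exp (-X) := by positivity
    have h1 : 1 / (β ^ c1 / 2) ≤ Real.exp (H ^ (c1 + 1)) := by
      have h2 := inv_pow_le hβ hH c1
      have h3 : 1 / (β ^ c1 / 2) = 2 * (1 / β ^ c1) := by field_simp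
      rw [h3]
      refine le_trans ?_ (le_exp_self _)
      rw [pow_succ]
      have h4 := hHp c1
      nlinarith
    have h2 : 1 / ((β ^ c1 / 2) ^ (2 * q) * Real.exp (-X)) ≤ Real.exp (11 * Y) := by
      have h3 : 1 / ((β ^ c1 / 2) ^ (2 * q) * Real.exp (-X)) = (1 / (β ^ c1 / 2)) ^ (2 * q) * Real.exp X := by
        rw [Real.exp_neg, one_div_pow]
        field_simp
      rw [h3]
      calc (1 / (β ^ c1 / 2)) ^ (2 * q) * Real.exp X ≤ Real.exp (H ^ (c1 + 1)) ^ (2 * q) * Real.exp X :=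
            mul_le_mul_of_nonneg_right (pow_le_pow_left₀ (by positivity) h1 _) (Real.exp_pos _).le
        _ = Real.exp ((2 * q : ℕ) * H ^ (c1 + 1) + X) := by rw [← Real.exp_nat_mul, Real.exp_add]
        _ ≤ Real.exp (11 * Y) := by
            refine Real.exp_le_exp.mpr ?_
            push_cast
            have h4 := hHp (c1 + 1)
            nlinarith [mul_le_mul_of_nonneg_right hq5 (show (0 : ℝ) ≤ H ^ (c1 + 1) by linarith)]
    have h3 : Qb (((β ^ c1 / 2) ^ (2 * q) * Real.exp (-X)) ^ (2 ^ n) / 2) H q (2 ^ (h + 3)) ≤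
        Real.exp ((11 * 2 ^ n + 8) * Y) := by
      have h4 : Qb (((β ^ c1 / 2) ^ (2 * q) * Real.exp (-X)) ^ (2 ^ n) / 2) H q (2 ^ (h + 3)) =
          (1 + H) * (1 + q) * 2 ^ (h + 3) * (2 * (1 / ((β ^ c1 / 2) ^ (2 * q) * Real.exp (-X))) ^ (2 ^ n)) := by
        unfold Qb
        rw [one_div_pow]
        field_simp
      rw [h4]
      have h5 : 1 + H ≤ Real.exp Y := by
        have := Real.add_one_le_exp H
        have h6 := Real.exp_le_exp.mpr hHleY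
        linarith
      have h6 : 1 + (q : ℝ) ≤ Real.exp (5 * Y) := by
        have := Real.add_one_le_exp (q : ℝ)
        have h7 := Real.exp_le_exp.mpr (show (q : ℝ) ≤ 5 * Y by linarith)
        linarith
      have h7 : (2 : ℝ) ^ (h + 3) ≤ Real.exp Y := hK.trans (Real.exp_le_exp.mpr hHleY)
      have h8 : 2 * (1 / ((β ^ c1 / 2) ^ (2 * q) * Real.exp (-X))) ^ (2 ^ n) ≤ Real.exp (Y + (2 ^ n : ℕ) * (11 * Y)) := by
        rw [Real.exp_add, Real.exp_nat_mul]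
        refine mul_le_mul ?_ (pow_le_pow_left₀ (by positivity) h2 _) (by positivity) (Real.exp_pos _).le
        have := Real.add_one_le_exp Y
        linarith
      calc (1 + H) * (1 + q) * 2 ^ (h + 3) * (2 * (1 / ((β ^ c1 / 2) ^ (2 * q) * Real.exp (-X))) ^ (2 ^ n))
          ≤ Real.exp Y * Real.exp (5 * Y) * Real.exp Y * Real.exp (Y + (2 ^ n : ℕ) * (11 * Y)) := by gcongr
        _ = Real.exp ((11 * 2 ^ n + 8) * Y) := by
            rw [← Real.exp_add, ← Real.exp_add, ← Real.exp_add]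
            congr 1
            push_cast
            ring
    have hΛ0 : 0 ≤ Λ := by
      have := hHp C1
      linarith
    have hQ0 : 0 ≤ Qb (((β ^ c1 / 2) ^ (2 * q) * Real.exp (-X)) ^ (2 ^ n) / 2) H q (2 ^ (h + 3)) := by
      unfold Qb
      positivity
    have h4 : Qb (((β ^ c1 / 2) ^ (2 * q) * Real.exp (-X)) ^ (2 ^ n) / 2) H q (2 ^ (h + 3)) ^ c ≤
        Real.exp (c * (11 * 2 ^ n + 8) * Y) := by
      refine (pow_le_pow_left₀ hQ0 h3 c).trans (le_of_eq ?_)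
      rw [← Real.exp_nat_mul]
      congr 1
      ring
    have h5 : |C| ≤ Real.exp (|C| * Y) := by
      refine (le_exp_self _).trans (Real.exp_le_exp.mpr ?_)
      have := abs_nonneg C
      nlinarith
    have h6 : (0 : ℝ) ≤ Real.exp (-Λ) * (1 + Real.log (1 / Real.exp (-Λ))) := by
      have h7 : Real.log (1 / Real.exp (-Λ)) = Λ := by
        rw [one_div, ← Real.exp_neg, neg_neg, Real.log_exp]
      rw [h7]
      positivity
    have h7 : (|C| + c * (11 * 2 ^ n + 8) + 1) * Y + H ^ c1 ≤ Λ / 2 := by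
      have h8 : 2 ^ M1 * Y ≤ Λ := by
        refine le_trans ?_ hΛ
        calc 2 ^ M1 * Y ≤ H ^ M1 * Y := mul_le_mul_of_nonneg_right (pow_le_pow_left₀ (by norm_num) hH2 _) (by linarith)
          _ = H ^ (M1 + (a + c1 + 1)) := by rw [hY, ← pow_add]
          _ ≤ H ^ C1 := pow_le_pow_right₀ hH1 (by omega)
      have h9 : 2 * (|C| + c * (11 * 2 ^ n + 8) + 2) * Y ≤ 2 ^ M1 * Y := mul_le_mul_of_nonneg_right hM1.le (by linarith)
      nlinarith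
    calc C * Qb (((β ^ c1 / 2) ^ (2 * q) * Real.exp (-X)) ^ (2 ^ n) / 2) H q (2 ^ (h + 3)) ^ c *
          (Real.exp (-Λ) * (1 + Real.log (1 / Real.exp (-Λ))))
        ≤ |C| * Qb (((β ^ c1 / 2) ^ (2 * q) * Real.exp (-X)) ^ (2 ^ n) / 2) H q (2 ^ (h + 3)) ^ c *
          (Real.exp (-Λ) * (1 + Real.log (1 / Real.exp (-Λ)))) :=
          mul_le_mul_of_nonneg_right (mul_le_mul_of_nonneg_right (le_abs_self C) (by positivity)) h6
      _ ≤ Real.exp (|C| * Y) * Real.exp (c * (11 * 2 ^ n + 8) * Y) * (2 * Real.exp (-(Λ / 2))) := by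
          refine mul_le_mul (mul_le_mul h5 h4 (by positivity) (Real.exp_pos _).le) (xlog Λ) h6 (by positivity)
      _ ≤ Real.exp (|C| * Y) * Real.exp (c * (11 * 2 ^ n + 8) * Y) * (Real.exp Y * Real.exp (-(Λ / 2))) := by
          have h8 : (2 : ℝ) ≤ Real.exp Y := by
            have := Real.add_one_le_exp Y
            linarith
          gcongr
      _ = Real.exp (|C| * Y + c * (11 * 2 ^ n + 8) * Y + (Y + -(Λ / 2))) := by
          rw [← Real.exp_add, ← Real.exp_add, ← Real.exp_add]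
      _ ≤ _ := Real.exp_le_exp.mpr (by linarith)

end CB

/-! ## pairs -/

/-- an enumeration of the vertices different from `a` and `b` -/
theorem exists_enu {n : ℕ} {ι : Type} [Fintype ι] [DecidableEq ι] (hι : Fintype.card ι = n + 2) {a b : ι} (hab : a ≠ b) :
    Nonempty (Enu n a b) := by
  refine ⟨(Fintype.equivFinOfCardEq ?_).symm⟩
  have h1 : Fintype.card {i : ι // i ≠ a ∧ i ≠ b} = ((univ.erase a).erase b).card := by
    rw [Fintype.card_subtype]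
    congr 1
    ext i
    simp only [mem_filter, mem_univ, true_and, mem_erase, and_true]
    exact and_comm
  rw [h1, Finset.card_erase_of_mem (Finset.mem_erase.mpr ⟨hab.symm, Finset.mem_univ _⟩),
    Finset.card_erase_of_mem (Finset.mem_univ _), Finset.card_univ]
  omega

/-- THE PAIR, families of any kind, with numbers -/
theorem cold_pair_num (n c1 : ℕ) : ∃ C1 : ℕ, c1 ≤ C1 ∧ ∀ {k N : ℕ} {ι Θ P Ξ : Type} [Fintype ι] [DecidableEq ι]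
    [Fintype Θ] [Nonempty Θ] [Fintype P] [Nonempty P] [Fintype Ξ] (_ : Fintype.card ι = n + 2) {a b : ι} (_ : a ≠ b)
    (s : V k) (_ : N ≤ k) (h : ℕ) (β H Λ : ℝ) (_ : 0 < β) (_ : β ≤ 1 / 2) (_ : 1 / β ≤ H)
    (_ : 8 * ((2 : ℝ) ^ h)⁻¹ ≤ β ^ C1) (_ : (2 : ℝ) ^ (h + 3) ≤ Real.exp H) (_ : H ^ C1 ≤ Λ)
    {R : Θ → Ξ → ι → Fam k ι P} {wx : Ξ → ℝ} (_ : ∀ ξ, 0 ≤ wx ξ) (_ : ∑ ξ, wx ξ = 1)
    (_ : ∀ θ ξ i, FOn ({i}ᶜ : Set ι) (R θ ξ i)) (_ : ∀ θ ξ i, FLe 1 (R θ ξ i))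
    (_ : ∀ θ ξ ξ' i, i ≠ a → i ≠ b → R θ ξ i = R θ ξ' i)
    (_ : ∀ θ, (∀ ξ ξ', R θ ξ a = R θ ξ' a) ∨ ∀ ξ ξ', R θ ξ b = R θ ξ' b)
    (_ : ∀ θ, GMC.PTm wx a h N (fun ξ => R θ ξ a) (Real.exp (-Λ)) (β ^ C1 + 8 * ((2 : ℝ) ^ h)⁻¹))
    (_ : ∀ θ, GMC.PTm wx b h N (fun ξ => R θ ξ b) (Real.exp (-Λ)) (β ^ C1 + 8 * ((2 : ℝ) ^ h)⁻¹))
    (_ : ∀ θ, chg N Θ P s h wx (fun ξ => R θ ξ a) ≤ H) (_ : ∀ θ, chg N Θ P s h wx (fun ξ => R θ ξ b) ≤ H)
    (D : ℕ) (_ : (D : ℝ) ≤ H ^ c1),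
    ∃ Hot : ℕ → Sq k N ι Θ P → Prop, ColdX s N h R wx {a, b} D (β ^ c1) (Real.exp (-H ^ c1)) (Real.exp (-H ^ c1))
      (fun t w _ => Hot t w) := by
  obtain ⟨C, hC, c, h0⟩ := coldX_pair n
  obtain ⟨C1, hc1, hnum⟩ := CB.num n C c c1
  refine ⟨C1, hc1, ?_⟩
  intro k N ι Θ P Ξ _ _ _ _ _ _ _ hι a b hab s hN h β H Λ hβ hβ2 hH hn hK hΛ R wx wx0 wx1 hR hR1 hoth hc hPa hPb
    hva hvb D hD
  obtain ⟨s', δ, q, n1, n2, n3, n4, n5, n6, n7, n8, n9, n10⟩ := hnum β H Λ hβ hβ2 hH h hn hK hΛ D hD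
  obtain ⟨o⟩ := exists_enu hι hab
  have hH2 : 2 ≤ H := by
    have h1 : (2 : ℝ) ≤ 1 / β := by
      rw [le_div_iff₀ hβ]
      linarith
    exact h1.trans hH
  have hΛ0 : 0 < Λ := by
    have : (1 : ℝ) ≤ H ^ C1 := one_le_pow₀ (by linarith)
    linarith
  have htt1 : Real.exp (-Λ) < 1 := by
    rw [← Real.exp_zero]
    exact Real.exp_lt_exp.mpr (by linarith)
  have heps : 0 ≤ β ^ C1 + 8 * ((2 : ℝ) ^ h)⁻¹ := by positivity
  have hPA : ∀ θ, PTc wx h N (fun ξ => FmA o s h (R θ ξ b)) (Real.exp (-Λ)) (β ^ C1 + 8 * ((2 : ℝ) ^ h)⁻¹) := by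
    intro θ
    have h1 := (hPb θ).toPTcA (n := n) le_rfl hN hab o s wx0 (fun ξ => hR θ ξ b) (Real.exp_pos _).le
    rwa [Nat.sub_self, Nat.zero_mul, pow_zero, mul_one] at h1
  have hPB : ∀ θ, PTc wx h N (fun ξ => FmB o s h (R θ ξ a)) (Real.exp (-Λ)) (β ^ C1 + 8 * ((2 : ℝ) ^ h)⁻¹) := by
    intro θ
    have h1 := (hPa θ).toPTcB (n := n) le_rfl hN hab o s wx0 (fun ξ => hR θ ξ a) (Real.exp_pos _).le
    rwa [Nat.sub_self, Nat.zero_mul, pow_zero, mul_one] at h1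
  have h1 := h0 hab o s (h := h) (h' := h) (D := D) (q := q) (p := H) (R := R) (wx := wx) wx0 wx1 hN n8 le_rfl hR hR1 hoth hc
    (Real.exp_pos _) htt1 heps hPA hPB hva hvb n1 n2 n3 n4 n5 n6 n7
  exact ⟨_, h1.mono wx0 le_rfl le_rfl n9 n10⟩

/-! ## the faces of a piece -/

section fix

variable {k N : ℕ} {ι P Ξ : Type} [Fintype ι] [DecidableEq ι] [Fintype P] [Fintype Ξ] {wx : Ξ → ℝ}

/-- a coin-free face -/
theorem PTm_fix {a : ι} {h : ℕ} {R : Ξ → Fam k ι P} {θ r : ℝ} (wx1 : ∑ ξ, wx ξ = 1) (ξ0 : Ξ) (hc : ∀ ξ, R ξ = R ξ0)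
    (hPT : GMC.PTm wx a h N R θ r) : GMC.PTm (fun _ : Unit => (1 : ℝ)) a h N (fun _ => R ξ0) θ r := by
  intro e he g c v hv hv1
  have h1 := hPT e he g c v hv hv1
  simp only [hc] at h1
  rw [← Finset.sum_mul, wx1] at h1
  rw [Finset.univ_unique, Finset.sum_singleton]
  exact h1

theorem chg_fix {s : V k} {h : ℕ} {R : Ξ → Fam k ι P} {m : ℝ} [Nonempty P] (Θ : Type) [Fintype Θ] [Nonempty Θ]
    (wx1 : ∑ ξ, wx ξ = 1) (ξ0 : Ξ) (hc : ∀ ξ, R ξ = R ξ0) (hv : chg N Θ P s h wx R ≤ m) :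
    chg N Θ P s h (fun _ : Unit => (1 : ℝ)) (fun _ => R ξ0) ≤ m := by
  refine le_trans (le_of_eq ?_) hv
  unfold chg
  refine Finset.sum_congr rfl fun e _ => ?_
  simp only [hc]
  rw [← Finset.sum_mul, ← Finset.sum_mul, wx1, Finset.univ_unique, Finset.sum_singleton]

end fix

/-- the faces as families -/
abbrev famF {k : ℕ} {ι Θ Ξ Q : Type} (N h : ℕ) (F : ι → Mov Ξ ι (Q × V k) (Θ × (V k × ℕ)) (V k → ℝ)) :
    Θ → Ξ → ι → Fam k ι Q := fun θ ξ j => famS N h (F j) θ ξ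

section faces

variable {k N : ℕ} {ι Θ Ξ Q : Type} [Fintype ι] [DecidableEq ι] [Fintype Θ] [Nonempty Θ] [Fintype Ξ] [Nonempty Ξ]
  [Fintype Q] [Nonempty Q] {σ : V k} {i δ : ι} {hN : N ≤ k} {h : ℕ}
  {F : ι → Mov Ξ ι (Q × V k) (Θ × (V k × ℕ)) (V k → ℝ)} {m θ acc : ℝ}

theorem faces_dep (HF : GS.Faces (binSys Θ Ξ Q σ i hN h) univ δ F m θ acc) (w : ι) (t : ℕ) (g : Θ × (V k × ℕ)) (ξ : Ξ) :
    DependsOn (F w t g ξ) ({w}ᶜ : Set ι) := by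
  intro x y hxy
  exact HF.dep w (mem_univ w) t g ξ x y fun j hj => hxy j fun hj' => (Finset.ne_of_mem_erase hj) hj'

theorem faces_on (HF : GS.Faces (binSys Θ Ξ Q σ i hN h) univ δ F m θ acc) (θ0 : Θ) (ξ : Ξ) (w : ι) :
    FOn ({w}ᶜ : Set ι) (famF N h F θ0 ξ w) := GMC.famS_on h (faces_dep HF w) θ0 ξ

theorem faces_le (HF : GS.Faces (binSys Θ Ξ Q σ i hN h) univ δ F m θ acc) (θ0 : Θ) (ξ : Ξ) (w : ι) :
    FLe 1 (famF N h F θ0 ξ w) := GMC.famS_le zero_le_one h (HF.bd w (mem_univ w)) θ0 ξ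

theorem faces_coin (HF : GS.Faces (binSys Θ Ξ Q σ i hN h) univ δ F m θ acc) (θ0 : Θ) {w : ι} (hw : w ≠ δ) (ξ ξ' : Ξ) :
    famF N h F θ0 ξ w = famF N h F θ0 ξ' w := GMC.famS_coin h (HF.coin w (mem_univ w) hw) θ0 ξ ξ'

theorem card_sum (Ξ : Type) [Fintype Ξ] [Nonempty Ξ] : ∑ _ξ : Ξ, (Fintype.card Ξ : ℝ)⁻¹ = 1 := by
  rw [Finset.sum_const, Finset.card_univ, nsmul_eq_mul]
  exact mul_inv_cancel₀ (Nat.cast_ne_zero.mpr Fintype.card_ne_zero)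

end faces

/-- **THE PAIRS OF A PIECE ARE COLD, COIN AVERAGED** (every pair `{a, b}` which contains `δ`) -/
theorem coldBin_pair (j c1 : ℕ) : ∃ C1 : ℕ, c1 ≤ C1 ∧ ∀ (ι Θ Ξ Q : Type) [Fintype ι] [DecidableEq ι] [Fintype Θ]
    [Nonempty Θ] [Fintype Ξ] [Nonempty Ξ] [Fintype Q] [Nonempty Q] (k N : ℕ) (σ : V k) (i δ a b : ι) (hN : N ≤ k)
    (h : ℕ), Fintype.card ι = j → a ≠ b → ∀ β H Λ : ℝ, 0 < β → β ≤ 1 / 2 → 1 / β ≤ H →
      (binSys Θ Ξ Q σ i hN h).K ≤ Real.exp H → (binSys Θ Ξ Q σ i hN h).near ≤ β ^ C1 → H ^ C1 ≤ Λ →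
      ∀ F : ι → Mov Ξ ι (Q × V k) (Θ × (V k × ℕ)) (V k → ℝ),
      GS.Faces (binSys Θ Ξ Q σ i hN h) univ δ F H (Real.exp (-Λ)) (β ^ C1) → ∀ D : ℕ, (D : ℝ) ≤ H ^ c1 →
      ((δ = a ∨ δ = b) → ∃ Hot : ℕ → Sq k N ι Θ Q → Prop, ColdX σ N h (famF N h F) (fun _ : Ξ => (Fintype.card Ξ : ℝ)⁻¹)
        {a, b} D (β ^ c1) (Real.exp (-H ^ c1)) (Real.exp (-H ^ c1)) (fun t w _ => Hot t w)) ∧
      ((δ ≠ a ∧ δ ≠ b) → ∀ ξ : Ξ, ∃ Hot : ℕ → Sq k N ι Θ Q → Prop,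
        ColdX σ N h (fun θ (_ : Unit) => famF N h F θ ξ) (fun _ => 1)
        {a, b} D (β ^ c1) (Real.exp (-H ^ c1)) (Real.exp (-H ^ c1)) (fun t w _ => Hot t w)) := by
  obtain ⟨C1, hc1, h0⟩ := cold_pair_num (j - 2) c1
  refine ⟨C1, hc1, ?_⟩
  intro ι Θ Ξ Q _ _ _ _ _ _ _ _ k N σ i δ a b hN h hι hab β H Λ hβ hβ2 hH hK hn hΛ F HF D hD
  have hcard : Fintype.card ι = j - 2 + 2 := by
    have h1 : ({a, b} : Finset ι).card ≤ Fintype.card ι := Finset.card_le_univ _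
    rw [Finset.card_pair hab] at h1
    omega
  have hK' : (2 : ℝ) ^ (h + 3) ≤ Real.exp H := by
    refine le_trans ?_ hK
    show (2 : ℝ) ^ (h + 3) ≤ (((Fintype.card ι + 4) * 2 ^ (h + 3) : ℕ) : ℝ)
    push_cast
    have h1 : (0 : ℝ) < 2 ^ (h + 3) := by positivity
    have h2 : (0 : ℝ) ≤ Fintype.card ι := Nat.cast_nonneg _
    nlinarith
  have hacc : 0 ≤ β ^ C1 := by positivity
  have hPT : ∀ (w : ι) (θ0 : Θ), GMC.PTm (fun _ : Ξ => (Fintype.card Ξ : ℝ)⁻¹) w h N (fun ξ => famF N h F θ0 ξ w)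
      (Real.exp (-Λ)) (β ^ C1 + 8 * ((2 : ℝ) ^ h)⁻¹) := fun w θ0 =>
    GMC.rare_PTm σ i hN h (HF.bd w (mem_univ w)) (Real.exp_pos _).le hacc (HF.rare w (mem_univ w)) θ0
  have hch : ∀ (w : ι) (θ0 : Θ), chg N Θ Q σ h (fun _ : Ξ => (Fintype.card Ξ : ℝ)⁻¹) (fun ξ => famF N h F θ0 ξ w) ≤ H :=
    fun w θ0 => GMC.chg_famS σ i hN h (HF.fut w (mem_univ w)) Θ θ0
  constructor
  · intro hδ
    refine h0 hcard hab σ hN h β H Λ hβ hβ2 hH hn hK' hΛ (fun _ => by positivity) (card_sum Ξ)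
      (fun θ ξ w => faces_on HF θ ξ w) (fun θ ξ w => faces_le HF θ ξ w) (fun θ ξ ξ' w hw hw' => ?_) (fun θ => ?_)
      (hPT a) (hPT b) (hch a) (hch b) D hD
    · refine faces_coin HF θ ?_ ξ ξ'
      rcases hδ with hδ | hδ
      · rw [hδ]
        exact hw
      · rw [hδ]
        exact hw'
    · rcases hδ with hδ | hδ
      · refine Or.inr fun ξ ξ' => faces_coin HF θ ?_ ξ ξ'
        rw [hδ]
        exact hab.symm
      · refine Or.inl fun ξ ξ' => faces_coin HF θ ?_ ξ ξ'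
        rw [hδ]
        exact hab
  · rintro ⟨hδa, hδb⟩ ξ
    refine h0 hcard hab σ hN h β H Λ hβ hβ2 hH hn hK' hΛ (fun _ => zero_le_one) (by simp)
      (fun θ _ w => faces_on HF θ ξ w) (fun θ _ w => faces_le HF θ ξ w) (fun θ _ _ w hw hw' => rfl)
      (fun θ => Or.inl fun _ _ => rfl)
      (fun θ => PTm_fix (card_sum Ξ) ξ (fun ξ' => faces_coin HF θ hδa.symm ξ' ξ) (hPT a θ))
      (fun θ => PTm_fix (card_sum Ξ) ξ (fun ξ' => faces_coin HF θ hδb.symm ξ' ξ) (hPT b θ))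
      (fun θ => chg_fix Θ (card_sum Ξ) ξ (fun ξ' => faces_coin HF θ hδa.symm ξ' ξ) (hch a θ))
      (fun θ => chg_fix Θ (card_sum Ξ) ξ (fun ξ' => faces_coin HF θ hδb.symm ξ' ξ) (hch b θ)) D hD

end

end Pool.Agent.GM
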