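import Pool.Agent.GM.Prop1M

/-!
# GM/Lift : models with and without private randomness, finer rounding, every finite set of vertices (helper34)

* `prU` : forget the public and the private randomness; `E_prU`, `Pr_prU`, `ce_prU` (natural class `Kn i e`);
* `TT_lift`, `TT_fine`, `PT_lift`, `PT_fineD` : lifted families, finer rounding;
* `TTr` : mean over the rounded window (a function of the vertices and of the rounded node), `TTr_close`, `TTr_fac`.
-/

set_option autoImplicit false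
set_option linter.unusedSectionVars false

namespace Pool.Agent.GM

open Finset Pool.Agent.PWZ Pool.Agent.M3 Pool.Agent.M3.Bin
open Pool.Agent.M3.Mod (ex nd av SC CL card_SC av_round abs_av_le)

noncomputable section

variable {k N : ℕ} {ι Θ P : Type}

/-- forget the public and the private randomness -/
def prU (ω : Sq k N ι Θ P) : Sq k N ι Unit Unit := ((), (fun i => ((), (vx i ω).2)), ω.2.2)

theorem vs_prU (ω : Sq k N ι Θ P) : vs (prU ω) = prV (vs ω) := rfl

theorem nz_prU (ω : Sq k N ι Θ P) : nz (prU ω) = nz ω := rfl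

theorem Zn_prU (i : ι) (e : ℕ) (ω : Sq k N ι Θ P) : Zn i e (prU ω) = Zn i e ω := rfl

theorem Dg_prU (e : ℕ) (ω : Sq k N ι Θ P) : Dg e (prU ω) = Dg e ω := rfl

theorem sc_prU (h e : ℕ) (i : ι) (ω : Sq k N ι Θ P) : sc h e i (prU ω) = sc h e i ω := rfl

/-- the randomness and the rest -/
def splitU : Sq k N ι Θ P ≃ (Θ × (ι → P)) × Sq k N ι Unit Unit where
  toFun ω := ((ω.1, fun i => (vx i ω).1), prU ω)
  invFun q := (q.1.1, (fun i => (q.1.2 i, (vx i q.2).2)), q.2.2.2)
  left_inv _ := rfl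
  right_inv _ := rfl

section

variable [Fintype ι] [DecidableEq ι] (s : V k)

theorem ctr_prU (ω : Sq k N ι Θ P) : ctr s (prU ω) = ctr s ω := rfl

theorem Yn_prU (e : ℕ) (ω : Sq k N ι Θ P) : Yn s e (prU ω) = Yn s e ω := rfl

theorem Gm_prU (h e : ℕ) (ω : Sq k N ι Θ P) : Gm s h e (prU ω) = Gm s h e ω := rfl

section law

variable [Fintype Θ] [Nonempty Θ] [Fintype P] [Nonempty P]

theorem E_prU (f : Sq k N ι Unit Unit → ℝ) :
    (Pm : FP (Sq k N ι Θ P)).E (fun ω => f (prU ω)) = (Pm : FP (Sq k N ι Unit Unit)).E f := by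
  unfold Pm
  rw [FP.unif_E, FP.unif_E]
  have h1 : ∑ ω : Sq k N ι Θ P, f (prU ω) = ∑ q : (Θ × (ι → P)) × Sq k N ι Unit Unit, f q.2 :=
    Fintype.sum_equiv splitU _ _ (fun ω => rfl)
  have h2 : (Fintype.card (Sq k N ι Θ P) : ℝ) =
      (Fintype.card (Θ × (ι → P)) : ℝ) * Fintype.card (Sq k N ι Unit Unit) := by
    rw [Fintype.card_congr (splitU (k := k) (N := N) (ι := ι) (Θ := Θ) (P := P)), Fintype.card_prod]
    push_cast
    rfl
  have h3 : (Fintype.card (Θ × (ι → P)) : ℝ) ≠ 0 := Nat.cast_ne_zero.mpr Fintype.card_ne_zero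
  rw [h1, h2, Fintype.sum_prod_type]
  simp only [Finset.sum_const, Finset.card_univ, nsmul_eq_mul]
  rw [mul_div_mul_left _ _ h3]

theorem Pr_prU (q : Sq k N ι Unit Unit → Prop) :
    (Pm : FP (Sq k N ι Θ P)).Pr (fun ω => q (prU ω)) = (Pm : FP (Sq k N ι Unit Unit)).Pr q :=
  E_prU (fun ω => ind (q ω))

theorem prU_updh (i : ι) {e : ℕ} (he : e ≤ N) (p : P) (n : ℕ) (ω : Sq k N ι Θ P) :
    prU (updh i e he p n ω) = updh i e he () n (prU ω) := by
  refine Prod.ext rfl (Prod.ext ?_ rfl)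
  funext j
  by_cases hj : j = i
  · subst hj
    simp [prU, updh, vx, Zn, nz]
  · simp [prU, updh, vx, hj]

/-- the conditional expectation given the known vertices, of a function of (vertices, noise) -/
theorem ce_prU (i : ι) {e : ℕ} (he : e ≤ N) (f : Sq k N ι Unit Unit → ℝ) (ω : Sq k N ι Θ P) :
    Pm.ce (Kn i e) (fun ω => f (prU ω)) ω = Pm.ce (Kn i e) f (prU ω) := by
  have h1 := ce_hidden i he (fun ω => f (prU ω)) ω
  have h2 := ce_hidden i he f (prU ω)
  have e1 : Pm.ce (Kn i e) (fun ω => f (prU ω)) ω = Pm.ce (fun ω => (th ω, Zn i e ω, ot i ω)) (fun ω => f (prU ω)) ω := rfl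
  have e2 : Pm.ce (Kn i e) f (prU ω) = Pm.ce (fun ω => (th ω, Zn i e ω, ot i ω)) f (prU ω) := rfl
  rw [e1, e2, h1, h2]
  have hP : (Fintype.card P : ℝ) ≠ 0 := Nat.cast_ne_zero.mpr Fintype.card_ne_zero
  simp only [prU_updh, Finset.sum_const, Finset.card_univ, nsmul_eq_mul, Fintype.card_unit, Nat.cast_one, one_mul]
  have h3 : ∑ p : Unit, ∑ n ∈ range (2 ^ e), f (updh i e he p n (prU ω)) =
      ∑ n ∈ range (2 ^ e), f (updh i e he () n (prU ω)) := by
    rw [Fintype.sum_unique]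
  rw [h3]
  field_simp

end law

/-! ### lifted families -/

theorem fv_lift (h : ℕ) (R : Fam k ι Unit) (e : ℕ) (ω : Sq k N ι Θ P) :
    fv s h (liftF R) e ω = fv s h R e (prU ω) := rfl

theorem TT_lift (h : ℕ) (R : ι → Fam k ι Unit) (e : ℕ) (ω : Sq k N ι Θ P) :
    TT s h (fun j => liftF (R j)) e ω = TT s h R e (prU ω) := rfl

theorem lift_on {I : Set ι} {R : Fam k ι Unit} (hR : FOn I R) : FOn I (liftF (P := P) R) := by
  intro e g x y hxy
  exact hR e g fun i hi => by
    change ((), (x i).2) = ((), (y i).2)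
    rw [hxy i hi]

theorem lift_le {R : Fam k ι Unit} {H : ℝ} (hR : FLe H R) : FLe H (liftF (P := P) R) := fun _ _ _ _ => hR _ _ _ _

/-! ### finer rounding -/

theorem fv_fine {h h' : ℕ} (hh : h ≤ h') (R : Fam k ι P) (e : ℕ) (ω : Sq k N ι Θ P) :
    fv s h' (fine h R) e ω = fv s h R e ω := by
  unfold fv fine Gm
  funext d
  rw [coar_G hh]

theorem TT_fine {h h' : ℕ} (hh : h ≤ h') (R : ι → Fam k ι P) (e : ℕ) (ω : Sq k N ι Θ P) :
    TT s h' (fun j => fine h (R j)) e ω = TT s h R e ω := by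
  unfold TT
  congr 1
  funext d
  refine Finset.prod_congr rfl fun i _ => ?_
  rw [fv_fine s hh]

/-! ### mean over the rounded window -/

/-- mean over the rounded window -/
def TTr (h : ℕ) (R : ι → Fam k ι P) (e : ℕ) (ω : Sq k N ι Θ P) : ℝ :=
  av e (Gm s h e ω).1 (fun d => ∏ i, fv s h (R i) e ω d)

theorem TTr_close (h : ℕ) {R : ι → Fam k ι P} {B : ℝ} (hB : ∀ j, FLe B (R j)) (e : ℕ)
    (ω : Sq k N ι Θ P) : |TT s h R e ω - TTr s h R e ω| ≤ 2 * B ^ Fintype.card ι * ((2 : ℝ) ^ h)⁻¹ := by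
  refine av_round h e (Yn s e ω).1 (f := fun d => ∏ i, fv s h (R i) e ω d) (B := B ^ Fintype.card ι) (fun d => ?_)
  rw [Finset.abs_prod]
  have h1 : ∏ i : ι, |fv s h (R i) e ω d| ≤ ∏ _i : ι, B :=
    Finset.prod_le_prod (fun i _ => abs_nonneg _) (fun i _ => hB i _ _ _ _)
  rw [Finset.prod_const, Finset.card_univ] at h1
  exact h1

theorem TTr_fac (h : ℕ) (R : ι → Fam k ι P) (e : ℕ) :
    Fac (fun ω : Sq k N ι Θ P => (fun j => vx j ω, Gm s h e ω)) (TTr s h R e) := by
  intro v w hv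
  simp only [Prod.mk.injEq] at hv
  have h1 : vs v = vs w := hv.1
  unfold TTr fv
  rw [hv.2, h1]

theorem TTr_lift (h : ℕ) (R : ι → Fam k ι Unit) (e : ℕ) (ω : Sq k N ι Θ P) :
    TTr s h (fun j => liftF (R j)) e ω = TTr s h R e (prU ω) := rfl

/-! ### product tests -/

section PT

variable [Fintype P] [Nonempty P]

theorem card_SCm {h e : ℕ} (he : e ≤ k) (c : ι → V k) :
    ((SCm (P := P) h e c).card : ℝ) = ((Fintype.card P : ℝ) * 2 ^ (e - (h + 3))) ^ Fintype.card ι := by
  unfold SCm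
  rw [Fintype.card_piFinset]
  push_cast
  rw [Finset.prod_congr rfl fun l _ => card_SC (P := P) he (c l), Finset.prod_const, Finset.card_univ]

/-- the private randomness and the values -/
def arrU : (ι → P × V k) ≃ (ι → P) × (ι → Unit × V k) where
  toFun x := (fun l => (x l).1, fun l => ((), (x l).2))
  invFun q := fun l => (q.1 l, (q.2 l).2)
  left_inv _ := rfl
  right_inv _ := rfl

/-- PRODUCT TESTS of a lifted family -/
theorem PT_lift {i : ι} {h : ℕ} {R : Fam k ι Unit} {θ r H : ℝ} (hN : N ≤ k) (hPT : PT i h N R θ r H) :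
    PT i h N (liftF (P := P) R) θ r H := by
  classical
  intro e he g hg c v hv hvH
  set bad : (ι → P) → (ι → Unit × V k) → Prop := fun p x =>
    r ≤ |av e g.1 (fun d => R e g x d * ∏ w ∈ univ.erase i, v w (fun l => (p l, (x l).2)) d)| with hbad
  have h1 : ∀ p : ι → P, ∑ x ∈ SCm (P := Unit) h e c, ind (bad p x) ≤ θ * (SCm (P := Unit) h e c).card := by
    intro p
    have h2 := hPT e he g hg c (fun w x d => v w (fun l => (p l, (x l).2)) d)
      (fun w hw x y hxy => by
        funext d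
        exact congrFun (hv w hw fun l hl => by
          change (p l, (x l).2) = (p l, (y l).2)
          rw [hxy l hl]) d)
      (fun w x d => hvH w _ d)
    rw [Finset.card_filter] at h2
    push_cast at h2
    refine le_trans (le_of_eq ?_) h2
    refine Finset.sum_congr rfl fun x _ => ?_
    by_cases hq : bad p x
    · rw [ind_of hq, if_pos hq]
    · rw [ind_not hq, if_neg hq]
  have h3 : (((SCm (P := P) h e c).filter fun x =>
      r ≤ |av e g.1 (fun d => liftF R e g x d * ∏ w ∈ univ.erase i, v w x d)|).card : ℝ) =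
      ∑ p : ι → P, ∑ x ∈ SCm (P := Unit) h e c, ind (bad p x) := by
    rw [← Finset.sum_product', Finset.card_filter]
    push_cast
    refine Finset.sum_bij' (fun x _ => arrU x) (fun q _ => arrU.symm q) ?_ ?_ (fun x _ => arrU.symm_apply_apply x)
      (fun q _ => arrU.apply_symm_apply q) ?_
    · intro x hx
      rw [mem_SCm] at hx
      rw [Finset.mem_product, mem_SCm]
      exact ⟨mem_univ _, hx⟩
    · intro q hq
      rw [Finset.mem_product, mem_SCm] at hq
      rw [mem_SCm]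
      exact hq.2
    · intro x _
      have h4 : bad (arrU x).1 (arrU x).2 ↔
          r ≤ |av e g.1 (fun d => liftF R e g x d * ∏ w ∈ univ.erase i, v w x d)| := Iff.rfl
      by_cases hq : r ≤ |av e g.1 (fun d => liftF R e g x d * ∏ w ∈ univ.erase i, v w x d)|
      · rw [if_pos hq, ind_of (h4.2 hq)]
      · rw [if_neg hq, ind_not fun h => hq (h4.1 h)]
  rw [h3]
  refine (Finset.sum_le_sum fun p _ => h1 p).trans (le_of_eq ?_)
  rw [Finset.sum_const, Finset.card_univ, nsmul_eq_mul, card_SCm (he.trans hN), card_SCm (he.trans hN),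
    Fintype.card_fun, Fintype.card_unit, mul_pow, mul_pow]
  push_cast
  ring

theorem SCm_mono {h h' e : ℕ} (hh : h ≤ h') (c : ι → V k) : SCm (P := P) h' e c ⊆ SCm (P := P) h e c := by
  intro x hx
  rw [mem_SCm] at hx ⊢
  exact fun l => flr_mono_eq (by omega) (hx l)

/-- PRODUCT TESTS at a finer rounding -/
theorem PT_fineD {i : ι} {h D : ℕ} (hN : N ≤ k) {R : Fam k ι P} {θ r H B : ℝ} (hθ : 0 ≤ θ)
    (hB0 : 0 ≤ B) (hB : FLe B R) (hPT : PT i h N R θ r H) :
    PT i (h + D) N (fine h R) (θ * (2 ^ D) ^ Fintype.card ι)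
      (r + 2 * (B * H ^ (Fintype.card ι - 1)) * ((2 : ℝ) ^ h)⁻¹) H := by
  classical
  intro e he g hg c v hv hvH
  have hek : e ≤ k := he.trans hN
  have h1 := hPT e he (coar h e g) (flr_flr le_rfl _) c v hv hvH
  have hsub : ((SCm (P := P) (h + D) e c).filter fun x =>
      r + 2 * (B * H ^ (Fintype.card ι - 1)) * ((2 : ℝ) ^ h)⁻¹ ≤
        |av e g.1 (fun d => fine h R e g x d * ∏ w ∈ univ.erase i, v w x d)|) ⊆
      ((SCm (P := P) h e c).filter fun x =>
      r ≤ |av e (coar h e g).1 (fun d => R e (coar h e g) x d * ∏ w ∈ univ.erase i, v w x d)|) := by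
    intro x hx
    rw [Finset.mem_filter] at hx ⊢
    refine ⟨SCm_mono (Nat.le_add_right h D) c hx.1, ?_⟩
    have h2 := av_round (k := k) h e g.1
      (f := fun d => R e (coar h e g) x d * ∏ w ∈ univ.erase i, v w x d) (B := B * H ^ (Fintype.card ι - 1))
      (fun d => by
        rw [abs_mul, Finset.abs_prod]
        have h5 : ∏ w ∈ univ.erase i, |v w x d| ≤ ∏ _w ∈ univ.erase i, H :=
          Finset.prod_le_prod (fun w _ => abs_nonneg _) fun w _ => hvH w x d
        rw [Finset.prod_const, Finset.card_erase_of_mem (mem_univ i), Finset.card_univ] at h5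
        exact mul_le_mul (hB _ _ _ _) h5 (Finset.prod_nonneg fun w _ => abs_nonneg _) hB0)
    have h3 := abs_sub_abs_le_abs_sub
      (av e g.1 (fun d => R e (coar h e g) x d * ∏ w ∈ univ.erase i, v w x d))
      (av e (flr (e - h) g.1) (fun d => R e (coar h e g) x d * ∏ w ∈ univ.erase i, v w x d))
    have h4 : r + 2 * (B * H ^ (Fintype.card ι - 1)) * ((2 : ℝ) ^ h)⁻¹ ≤
        |av e g.1 (fun d => R e (coar h e g) x d * ∏ w ∈ univ.erase i, v w x d)| := hx.2
    have h5 : (coar h e g).1 = flr (e - h) g.1 := rfl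
    rw [h5]
    linarith
  refine (Nat.cast_le.mpr (Finset.card_le_card hsub)).trans (h1.trans ?_)
  rw [card_SCm hek, card_SCm hek, mul_assoc, ← mul_pow]
  refine mul_le_mul_of_nonneg_left ?_ hθ
  refine pow_le_pow_left₀ (by positivity) ?_ _
  have h6 : (2 : ℝ) ^ (e - (h + 3)) ≤ 2 ^ D * 2 ^ (e - (h + D + 3)) := by
    rw [← pow_add]
    exact pow_le_pow_right₀ (by norm_num) (by omega)
  have hP : (0 : ℝ) ≤ (Fintype.card P : ℝ) := Nat.cast_nonneg _
  calc (Fintype.card P : ℝ) * 2 ^ (e - (h + 3)) ≤ (Fintype.card P : ℝ) * (2 ^ D * 2 ^ (e - (h + D + 3))) :=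
        mul_le_mul_of_nonneg_left h6 hP
    _ = _ := by ring

theorem PT_fine {i : ι} {h h' : ℕ} (hh : h ≤ h') (hN : N ≤ k) {R : Fam k ι P} {θ r H B : ℝ} (hθ : 0 ≤ θ)
    (hB0 : 0 ≤ B) (hB : FLe B R) (hPT : PT i h N R θ r H) :
    PT i h' N (fine h R) (θ * (2 ^ (h' - h)) ^ Fintype.card ι)
      (r + 2 * (B * H ^ (Fintype.card ι - 1)) * ((2 : ℝ) ^ h)⁻¹) H := by
  obtain ⟨D, rfl⟩ := Nat.exists_eq_add_of_le hh
  rw [Nat.add_sub_cancel_left]
  exact PT_fineD hN hθ hB0 hB hPT

end PT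

end

end

end Pool.Agent.GM
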