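import Pool.Agent.GM.ColdBin
import Pool.Agent.GM.Lift

/-!
# GM/ColdBin1: ONE VERTEX IS COLD, with coins, public and private randomness (row A10, helper48)

* `coldX_one` : `ColdX` of `{a}` from `PTm` of the face `a` (coin averaged), no hot event; the other faces are arbitrary,
  bounded by one, without the coin;
* `coldBin_one` : the one vertex sets of a piece in the coarse binary model, with numbers (both forms of the coin).
-/

set_option autoImplicit false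
set_option linter.unusedSectionVars false

namespace Pool.Agent.GM

open Finset Pool.Agent.PWZ Pool.Agent.M3 Pool.Agent.M3.Bin
open Pool.Agent.M3.Mod (ex nd av av_round abs_av_le SC card_SC ce_mono_fib)

noncomputable section

variable {k N : ℕ} {ι Θ P Ξ : Type} [Fintype ι] [DecidableEq ι] (s : V k)
  [Fintype Θ] [Nonempty Θ] [Fintype P] [Nonempty P] [Fintype Ξ]

/-- finer cells -/
theorem RareC.finer {h h' e : ℕ} (hh : h ≤ h') (he : e ≤ k) {F : (ι → P × V k) → ℝ} (hF0 : ∀ x, 0 ≤ F x) {θ : ℝ}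
    (hθ : 0 ≤ θ) (hF : RareC h e F θ) : RareC h' e F (θ * (2 ^ (h' - h)) ^ Fintype.card ι) := by
  intro c
  have h1 : SCm (P := P) h' e c ⊆ SCm (P := P) h e c := by
    intro x hx
    rw [mem_SCm] at hx ⊢
    exact fun l => flr_mono_eq (by omega) (hx l)
  refine (Finset.sum_le_sum_of_subset_of_nonneg h1 fun x _ _ => hF0 x).trans ((hF c).trans ?_)
  rw [card_SCm he, card_SCm he, mul_assoc, ← mul_pow]
  refine mul_le_mul_of_nonneg_left (pow_le_pow_left₀ (by positivity) ?_ _) hθ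
  have h2 : (2 : ℝ) ^ (e - (h + 3)) ≤ 2 ^ (h' - h) * 2 ^ (e - (h' + 3)) := by
    rw [← pow_add]
    exact pow_le_pow_right₀ (by norm_num) (by omega)
  calc (Fintype.card P : ℝ) * 2 ^ (e - (h + 3)) ≤ (Fintype.card P : ℝ) * (2 ^ (h' - h) * 2 ^ (e - (h' + 3))) :=
        mul_le_mul_of_nonneg_left h2 (Nat.cast_nonneg _)
    _ = _ := by ring

/-- rarity at one exponent, fixed public randomness -/
theorem coldX_one_aux (a : ι) {h hh e : ℕ} (hle : h ≤ hh) (he : e ≤ N) (hN : N ≤ k) {wx : Ξ → ℝ} (wx0 : ∀ ξ, 0 ≤ wx ξ)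
    (wx1 : ∑ ξ, wx ξ = 1) {R : Ξ → ι → Fam k ι P} (hR : ∀ ξ i, FOn ({i}ᶜ : Set ι) (R ξ i)) (hR1 : ∀ ξ i, FLe 1 (R ξ i))
    (hoth : ∀ ξ ξ' i, i ≠ a → R ξ i = R ξ' i) {θ r1 r : ℝ} (hθ : 0 ≤ θ)
    (hPT : GMC.PTm wx a h N (fun ξ => R ξ a) θ r1) (hr : r1 + 2 * ((2 : ℝ) ^ h)⁻¹ ≤ r) (ω : Sq k N ι Θ P) :
    Pm.ce (Zk {a} (e - (hh + 3))) (fun v => ∑ ξ, wx ξ * ind (r ≤ |TT s h (R ξ) e v|)) ω ≤
      Fintype.card ι * (θ * (2 ^ (hh - h)) ^ Fintype.card ι) := by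
  classical
  have hne : Nonempty Ξ := by
    by_contra hcon
    rw [not_nonempty_iff] at hcon
    rw [Finset.univ_eq_empty, Finset.sum_empty] at wx1
    exact zero_ne_one wx1
  have ξ0 : Ξ := Classical.arbitrary Ξ
  have hek : e ≤ k := he.trans hN
  -- the tests: vertex `a` fixed
  set V0 : V k × ℕ → ι → (ι → P × V k) → V k → ℝ := fun g w x d =>
    R ξ0 w e g (Function.update x a (vx a ω)) d with hV0
  have hV1 : ∀ g w, w ≠ a → DependsOn (V0 g w) ({a, w}ᶜ : Set ι) := by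
    intro g w hw x y hxy
    funext d
    show R ξ0 w e g (Function.update x a (vx a ω)) d = R ξ0 w e g (Function.update y a (vx a ω)) d
    refine congrFun (hR ξ0 w e g fun l hl => ?_) d
    by_cases hla : l = a
    · rw [hla, Function.update_self, Function.update_self]
    · rw [Function.update_of_ne hla, Function.update_of_ne hla]
      exact hxy l fun h => by
        rcases h with h | h
        · exact hla h
        · exact hl h
  set Fg : V k × ℕ → (ι → P × V k) → ℝ := fun g x => ∑ ξ, wx ξ *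
    ind (r1 ≤ |av e g.1 (fun d => R ξ a e g x d * ∏ w ∈ univ.erase a, V0 g w x d)|) with hFg
  have hFg0 : ∀ g x, 0 ≤ Fg g x := fun g x => Finset.sum_nonneg fun ξ _ => mul_nonneg (wx0 ξ) (ind_nonneg _)
  have hrare : ∀ g : V k × ℕ, flr (e - h) g.1 = g.1 → RareC h e (Fg g) θ := by
    intro g hg c
    have h1 := hPT e he g c (V0 g) (hV1 g) (fun w x d => hR1 _ _ _ _ _ _)
    have hco : coar h e g = g := Prod.ext hg rfl
    rw [hco] at h1
    refine le_trans (le_of_eq ?_) h1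
    show ∑ x ∈ SCm (P := P) h e c, ∑ ξ, wx ξ *
      ind (r1 ≤ |av e g.1 (fun d => R ξ a e g x d * ∏ w ∈ univ.erase a, V0 g w x d)|) = _
    rw [Finset.sum_comm]
    refine Finset.sum_congr rfl fun ξ _ => ?_
    rw [← Finset.mul_sum]
    congr 1
    rw [Finset.card_filter]
    push_cast
    refine Finset.sum_congr rfl fun x _ => ?_
    by_cases hq : r1 ≤ |av e g.1 (fun d => R ξ a e g x d * ∏ w ∈ univ.erase a, V0 g w x d)|
    · rw [ind_of hq, if_pos hq]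
    · rw [ind_not hq, if_neg hq]
  have hdep : ∀ g, DependsOn (Fg g) ({a}ᶜ : Set ι) := by
    intro g x y hxy
    have h2 : ∀ w ∈ univ.erase a, V0 g w x = V0 g w y := fun w hw =>
      hV1 g w (Finset.ne_of_mem_erase hw) fun l hl => hxy l fun hli => hl (by
        rw [Set.mem_singleton_iff] at hli
        rw [hli]
        exact Set.mem_insert _ _)
    refine Finset.sum_congr rfl fun ξ _ => ?_
    have h1 : R ξ a e g x = R ξ a e g y := hR ξ a e g hxy
    have h3 : (fun d => R ξ a e g x d * ∏ w ∈ univ.erase a, V0 g w x d) =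
        fun d => R ξ a e g y d * ∏ w ∈ univ.erase a, V0 g w y d := by
      funext d
      rw [h1]
      congr 1
      exact Finset.prod_congr rfl fun w hw => by rw [h2 w hw]
    rw [h3]
  -- the options of the rounded node
  have hopt := ce_opts (Θ := Θ) (P := P) (N := N) s a (h := h) (e := e) hek
    (X := Zk {a} (e - (hh + 3))) (G := fun g v => ∑ ξ, wx ξ * ind (r1 ≤ |av e g.1 (fun d => R ξ a e g (vs v) d *
      ∏ w ∈ univ.erase a, R ξ0 w e g (vs v) d)|)) (by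
      intro v w hvw
      unfold Zk ku cl at hvw
      simp only [Prod.mk.injEq] at hvw
      obtain ⟨h1, h2, h3, h4⟩ := hvw
      have h5 : vx a v = vx a w := congrFun h2 ⟨a, Finset.mem_singleton_self a⟩
      unfold Qn
      refine Prod.ext h1 (Prod.ext ?_ ?_)
      · unfold Zn
        rw [h5, h3]
      · funext l
        have h6 : flr (e - (hh + 3)) (vx l.1 v).2 = flr (e - (hh + 3)) (vx l.1 w).2 :=
          congrFun h4 ⟨l.1, by simpa using l.2⟩
        show flr (e - (h + 3)) (vx l.1 v).2 = flr (e - (h + 3)) (vx l.1 w).2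
        exact flr_mono_eq (by omega) h6)
    (fun g v => Finset.sum_nonneg fun ξ _ => mul_nonneg (wx0 ξ) (ind_nonneg _))
    (θ := θ * (2 ^ (hh - h)) ^ Fintype.card ι) (by positivity) ω (by
      intro g hg
      refine le_trans (ce_mono_fib _ ω fun v hv => le_of_eq ?_)
        (core_Z a ((hrare g hg).finer hle hek (hFg0 g) hθ) (hdep g) ω)
      refine Finset.sum_congr rfl fun ξ _ => ?_
      have hva : vx a v = vx a ω := by
        have h1 := hv
        unfold Zk ku cl at h1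
        simp only [Prod.mk.injEq] at h1
        exact congrFun h1.2.1 ⟨a, Finset.mem_singleton_self a⟩
      have h3 : (fun d => R ξ a e g (vs v) d * ∏ w ∈ univ.erase a, R ξ0 w e g (vs v) d) =
          fun d => R ξ a e g (vs v) d * ∏ w ∈ univ.erase a, V0 g w (vs v) d := by
        funext d
        congr 1
        refine Finset.prod_congr rfl fun w _ => ?_
        show _ = R ξ0 w e g (Function.update (vs v) a (vx a ω)) d
        rw [← hva]
        congr 1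
        exact (Function.update_eq_self a (vs v)).symm
      rw [h3])
  refine le_trans (FP.ce_mono _ (fun v _ => Finset.sum_le_sum fun ξ _ =>
    mul_le_mul_of_nonneg_left (ind_mono fun hq => ?_) (wx0 ξ)) ω) hopt
  -- rounding
  rw [TT_eq s h (R ξ) e a v] at hq
  have h1 : (fun d => R ξ a e (Gm s h e v) (vs v) d * ∏ w ∈ univ.erase a, R ξ w e (Gm s h e v) (vs v) d) =
      fun d => R ξ a e (Gm s h e v) (vs v) d * ∏ w ∈ univ.erase a, R ξ0 w e (Gm s h e v) (vs v) d := by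
    funext d
    congr 1
    exact Finset.prod_congr rfl fun w hw => by rw [hoth ξ ξ0 w (Finset.ne_of_mem_erase hw)]
  rw [h1] at hq
  have h2 : ∀ d, |R ξ a e (Gm s h e v) (vs v) d * ∏ w ∈ univ.erase a, R ξ0 w e (Gm s h e v) (vs v) d| ≤ 1 := by
    intro d
    rw [abs_mul, Finset.abs_prod]
    exact mul_le_one₀ (hR1 _ _ _ _ _ _) (Finset.prod_nonneg fun _ _ => abs_nonneg _)
      (Finset.prod_le_one (fun _ _ => abs_nonneg _) fun w _ => hR1 _ _ _ _ _ _)
  have h3 := av_round h e (Yn s e v).1 (B := 1) h2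
  have h4 := abs_sub_abs_le_abs_sub
    (av e (Yn s e v).1 (fun d => R ξ a e (Gm s h e v) (vs v) d * ∏ w ∈ univ.erase a, R ξ0 w e (Gm s h e v) (vs v) d))
    (av e (flr (e - h) (Yn s e v).1)
      (fun d => R ξ a e (Gm s h e v) (vs v) d * ∏ w ∈ univ.erase a, R ξ0 w e (Gm s h e v) (vs v) d))
  have h5 : flr (e - h) (Yn s e v).1 = (Gm s h e v).1 := rfl
  rw [h5] at h3 h4
  linarith

/-- **ONE VERTEX IS COLD, WITH COINS** -/
theorem coldX_one (a : ι) {h D : ℕ} (hD : h + 3 ≤ D) (hN : N ≤ k) {wx : Ξ → ℝ} (wx0 : ∀ ξ, 0 ≤ wx ξ)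
    (wx1 : ∑ ξ, wx ξ = 1) {R : Θ → Ξ → ι → Fam k ι P} (hR : ∀ θ ξ i, FOn ({i}ᶜ : Set ι) (R θ ξ i))
    (hR1 : ∀ θ ξ i, FLe 1 (R θ ξ i)) (hoth : ∀ θ ξ ξ' i, i ≠ a → R θ ξ i = R θ ξ' i) {tt r1 r : ℝ} (htt : 0 ≤ tt)
    (hPT : ∀ θ, GMC.PTm wx a h N (fun ξ => R θ ξ a) tt r1) (hr : r1 + 2 * ((2 : ℝ) ^ h)⁻¹ ≤ r) :
    ColdX s N h R wx {a} D r (Fintype.card ι * (tt * (2 ^ (D - 3 - h)) ^ Fintype.card ι)) 0 (fun _ _ _ => False) where
  inc _ _ _ h := h
  mass := by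
    refine le_of_eq ?_
    rw [FP.E_congr _ (g := fun _ => 0) (fun w _ => ?_), FP.E_const]
    exact Finset.sum_eq_zero fun ξ _ => by rw [ind_not fun h => h, mul_zero]
  cold t h1 ht r' h2 h3 w := by
    obtain ⟨hh, hle, heq, hhD⟩ : ∃ hh, h ≤ hh ∧ ex N t - (hh + 3) = r' ∧ hh ≤ D - 3 := by
      rcases Nat.eq_zero_or_pos r' with h0r | h0r
      · exact ⟨max h (ex N t - 3), le_max_left _ _, by omega, by omega⟩
      · exact ⟨ex N t - r' - 3, by omega, by omega, by omega⟩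
    rw [← heq]
    have h4 := coldX_one_aux (Θ := Θ) s a (h := h) (hh := hh) (e := ex N t) hle (Nat.sub_le _ _) hN wx0 wx1
      (hR (GM.th w)) (hR1 (GM.th w)) (hoth (GM.th w)) htt (hPT (GM.th w)) hr w
    refine le_trans (ce_mono_fib _ w fun v hv => ?_) (h4.trans ?_)
    · have hth : GM.th v = GM.th w := by
        have h5 := hv
        unfold Zk at h5
        simp only [Prod.mk.injEq] at h5
        exact h5.1
      refine Finset.sum_le_sum fun ξ _ => mul_le_mul_of_nonneg_left (ind_mono fun h => ?_) (wx0 ξ)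
      rw [← hth]
      exact h.1
    · refine mul_le_mul_of_nonneg_left (mul_le_mul_of_nonneg_left ?_ htt) (Nat.cast_nonneg _)
      exact pow_le_pow_left₀ (by positivity) (pow_le_pow_right₀ (by norm_num) (by omega)) _

/-! ## the faces of a piece -/

/-- the numbers of one vertex -/
theorem CB.num1 (j c1 : ℕ) : ∃ C1 : ℕ, c1 ≤ C1 ∧ ∀ β H Λ : ℝ, 0 < β → β ≤ 1 / 2 → 1 / β ≤ H →
    ∀ h : ℕ, 8 * ((2 : ℝ) ^ h)⁻¹ ≤ β ^ C1 → (2 : ℝ) ^ (h + 3) ≤ Real.exp H → H ^ C1 ≤ Λ →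
    ∀ D : ℕ, (D : ℝ) ≤ H ^ c1 → ∃ D' : ℕ, D ≤ D' ∧ h + 3 ≤ D' ∧
      β ^ C1 + 8 * ((2 : ℝ) ^ h)⁻¹ + 2 * ((2 : ℝ) ^ h)⁻¹ ≤ β ^ c1 ∧
      j * (Real.exp (-Λ) * (2 ^ (D' - 3 - h)) ^ j) ≤ Real.exp (-H ^ c1) := by
  refine ⟨c1 + 2 + (2 * j + 1), by omega, ?_⟩
  intro β H Λ hβ hβ2 hH h hn hK hΛ D hD
  set C1 := c1 + 2 + (2 * j + 1) with hC1
  have hβ1 : β ≤ 1 := by linarith
  have hH2 : 2 ≤ H := by
    have h1 : (2 : ℝ) ≤ 1 / β := by
      rw [le_div_iff₀ hβ]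
      linarith
    exact h1.trans hH
  have hH1 : 1 ≤ H := by linarith
  have hh : ((h + 3 : ℕ) : ℝ) ≤ H ^ (c1 + 2) := by
    have h1 : ((h + 3 : ℕ) : ℝ) * Real.log 2 ≤ H := by
      have h2 := Real.log_le_log (by positivity) hK
      rwa [Real.log_exp, Real.log_pow] at h2
    have h3 := Real.log_two_gt_d9
    have h4 : (0 : ℝ) ≤ ((h + 3 : ℕ) : ℝ) := Nat.cast_nonneg _
    have h5 : ((h + 3 : ℕ) : ℝ) ≤ 2 * H := by nlinarith
    have h6 : H ^ 2 ≤ H ^ (c1 + 2) := pow_le_pow_right₀ hH1 (by omega)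
    nlinarith
  have hDD : (D : ℝ) ≤ H ^ (c1 + 2) := hD.trans (pow_le_pow_right₀ hH1 (by omega))
  refine ⟨max D (h + 3), le_max_left _ _, le_max_right _ _, ?_, ?_⟩
  · have h1 : β ^ C1 ≤ β ^ (c1 + 2) := pow_le_pow_of_le_one hβ.le hβ1 (by omega)
    have h2 : β ^ (c1 + 2) ≤ β ^ c1 / 4 := by
      rw [pow_add]
      have h3 : β ^ 2 ≤ 1 / 4 := by nlinarith
      have h4 : 0 < β ^ c1 := by positivity
      nlinarith
    have h5 : 0 < β ^ c1 := by positivity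
    linarith
  · have hmax : ((max D (h + 3) : ℕ) : ℝ) ≤ H ^ (c1 + 2) := by
      rcases max_choice D (h + 3) with h1 | h1
      · rw [h1]
        exact hDD
      · rw [h1]
        exact hh
    have h1 : ((2 : ℝ) ^ (max D (h + 3) - 3 - h)) ^ j ≤ Real.exp (j * H ^ (c1 + 2)) := by
      rw [← pow_mul]
      refine (CB.two_pow_le_exp _).trans (Real.exp_le_exp.mpr ?_)
      push_cast
      rw [mul_comm]
      refine mul_le_mul_of_nonneg_left (le_trans ?_ hmax) (Nat.cast_nonneg _)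
      exact_mod_cast (by omega : max D (h + 3) - 3 - h ≤ max D (h + 3))
    have h2 : (j : ℝ) ≤ Real.exp j := CB.le_exp_self _
    have h3 : (j : ℝ) + j * H ^ (c1 + 2) + H ^ c1 ≤ Λ := by
      refine le_trans ?_ hΛ
      have h4 : ((2 * j + 1 : ℕ) : ℝ) ≤ H ^ (2 * j + 1) :=
        (CB.le_two_pow _).trans (pow_le_pow_left₀ (by norm_num) hH2 _)
      push_cast at h4
      have h5 : (1 : ℝ) ≤ H ^ (c1 + 2) := one_le_pow₀ hH1
      have h6 : H ^ c1 ≤ H ^ (c1 + 2) := pow_le_pow_right₀ hH1 (by omega)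
      have h7 : H ^ C1 = H ^ (c1 + 2) * H ^ (2 * j + 1) := by rw [hC1, pow_add]
      rw [h7]
      have h8 : (0 : ℝ) ≤ j := Nat.cast_nonneg _
      have h9 : H ^ (c1 + 2) * (2 * j + 1) ≤ H ^ (c1 + 2) * H ^ (2 * j + 1) :=
        mul_le_mul_of_nonneg_left h4 (by linarith)
      have h10 : (j : ℝ) ≤ j * H ^ (c1 + 2) := le_mul_of_one_le_right h8 h5
      linarith
    calc (j : ℝ) * (Real.exp (-Λ) * (2 ^ (max D (h + 3) - 3 - h)) ^ j)
        ≤ Real.exp j * (Real.exp (-Λ) * Real.exp (j * H ^ (c1 + 2))) :=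
          mul_le_mul h2 (mul_le_mul_of_nonneg_left h1 (Real.exp_pos _).le) (by positivity) (Real.exp_pos _).le
      _ = Real.exp (j + (-Λ + j * H ^ (c1 + 2))) := by rw [Real.exp_add, Real.exp_add]
      _ ≤ _ := Real.exp_le_exp.mpr (by linarith)

/-- **ONE VERTEX OF A PIECE IS COLD**: `a = δ` coin averaged, `a ≠ δ` for every coin -/
theorem coldBin_one (j c1 : ℕ) : ∃ C1 : ℕ, c1 ≤ C1 ∧ ∀ (ι Θ Ξ Q : Type) [Fintype ι] [DecidableEq ι] [Fintype Θ]
    [Nonempty Θ] [Fintype Ξ] [Nonempty Ξ] [Fintype Q] [Nonempty Q] (k N : ℕ) (σ : V k) (i δ a : ι) (hN : N ≤ k)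
    (h : ℕ), Fintype.card ι = j → ∀ β H Λ : ℝ, 0 < β → β ≤ 1 / 2 → 1 / β ≤ H →
      (binSys Θ Ξ Q σ i hN h).K ≤ Real.exp H → (binSys Θ Ξ Q σ i hN h).near ≤ β ^ C1 → H ^ C1 ≤ Λ →
      ∀ F : ι → Mov Ξ ι (Q × V k) (Θ × (V k × ℕ)) (V k → ℝ),
      GS.Faces (binSys Θ Ξ Q σ i hN h) univ δ F H (Real.exp (-Λ)) (β ^ C1) → ∀ D : ℕ, (D : ℝ) ≤ H ^ c1 →
      (δ = a → ColdX σ N h (famF N h F) (fun _ : Ξ => (Fintype.card Ξ : ℝ)⁻¹)
        {a} D (β ^ c1) (Real.exp (-H ^ c1)) (Real.exp (-H ^ c1)) (fun _ _ _ => False)) ∧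
      (δ ≠ a → ∀ ξ : Ξ, ColdX σ N h (fun θ (_ : Unit) => famF N h F θ ξ) (fun _ => 1)
        {a} D (β ^ c1) (Real.exp (-H ^ c1)) (Real.exp (-H ^ c1)) (fun _ _ _ => False)) := by
  obtain ⟨C1, hc1, hnum⟩ := CB.num1 j c1
  refine ⟨C1, hc1, ?_⟩
  intro ι Θ Ξ Q _ _ _ _ _ _ _ _ k N σ i δ a hN h hι β H Λ hβ hβ2 hH hK hn hΛ F HF D hD
  have hK' : (2 : ℝ) ^ (h + 3) ≤ Real.exp H := by
    refine le_trans ?_ hK
    show (2 : ℝ) ^ (h + 3) ≤ (((Fintype.card ι + 4) * 2 ^ (h + 3) : ℕ) : ℝ)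
    push_cast
    have h1 : (0 : ℝ) < 2 ^ (h + 3) := by positivity
    have h2 : (0 : ℝ) ≤ Fintype.card ι := Nat.cast_nonneg _
    nlinarith
  obtain ⟨D', hDD, hhD, n1, n2⟩ := hnum β H Λ hβ hβ2 hH h hn hK' hΛ D hD
  have hacc : 0 ≤ β ^ C1 := by positivity
  have hPT : ∀ θ0 : Θ, GMC.PTm (fun _ : Ξ => (Fintype.card Ξ : ℝ)⁻¹) a h N (fun ξ => famF N h F θ0 ξ a)
      (Real.exp (-Λ)) (β ^ C1 + 8 * ((2 : ℝ) ^ h)⁻¹) := fun θ0 =>
    GMC.rare_PTm σ i hN h (HF.bd a (mem_univ a)) (Real.exp_pos _).le hacc (HF.rare a (mem_univ a)) θ0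
  rw [← hι] at n2
  constructor
  · intro hδ
    refine (coldX_one σ a hhD hN (fun _ => by positivity) (card_sum Ξ) (fun θ ξ w => faces_on HF θ ξ w)
      (fun θ ξ w => faces_le HF θ ξ w) (fun θ ξ ξ' w hw => faces_coin HF θ (by rw [hδ]; exact hw) ξ ξ')
      (Real.exp_pos _).le hPT n1).mono (fun _ => by positivity) hDD le_rfl n2 (Real.exp_pos _).le
  · intro hδ ξ
    refine (coldX_one σ a hhD hN (fun _ => zero_le_one) (by simp) (fun θ _ w => faces_on HF θ ξ w)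
      (fun θ _ w => faces_le HF θ ξ w) (fun θ _ _ w hw => rfl) (Real.exp_pos _).le
      (fun θ => PTm_fix (card_sum Ξ) ξ (fun ξ' => faces_coin HF θ (fun h => hδ h.symm) ξ' ξ) (hPT θ)) n1).mono
      (fun _ => zero_le_one) hDD le_rfl n2 (Real.exp_pos _).le

end

end Pool.Agent.GM
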