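import Pool.Agent.M3.OneView

/-!
# GM/NV : the named view, abstract form (interface N + G2B + HARM -> last step), helper11

Port of `M3/NV` to an abstract sample space, any finite index set `I` of losses (in the model: the sets `U` of vertices with
`i ∈ U`, `U ≠ univ`; `UU i`).  `NV P N I Z K T che zr` : NAMED VIEW of the process `T`:
* `K t` = everything known in the view (all known vertices with their coins, path of the hidden vertex);
* `Z U t` = the class of the losses of `U` at the time `t` (time `t` class of the step `t → t+1`): hidden vertex exactly,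
  known vertices of `U` exactly, all the noise, cells of the others at the time `t+1`; it contains the coin of a face only if
  `U` contains all vertices of this face;
* `che t` = the known face changes between `t` and `t+1`; `zr t` = the known face is zero at the time `t`.
The experts of HARM enter through `bias` and `b0` (`GM/Expert.sq_le_expert`): `b0` = square of the error of the experts
plus the indicator of the exceptional event, which is contained in `D0`.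
-/

set_option autoImplicit false
set_option linter.unusedSectionVars false

namespace Pool.Agent.GM

open Finset Pool.Agent.PWZ Pool.Agent.M3

noncomputable section

/-- the known vertices of the losses of the view `i` (with `i`) -/
def UU {ι : Type} [Fintype ι] [DecidableEq ι] (i : ι) : Finset (Finset ι) := univ.filter fun U => i ∈ U ∧ U ≠ univ

theorem mem_UU {ι : Type} [Fintype ι] [DecidableEq ι] {i : ι} {U : Finset ι} : U ∈ UU i ↔ i ∈ U ∧ U ≠ univ := by
  unfold UU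
  simp

/-- NAMED VIEW of the process `T` -/
structure NV {Om : Type} [Fintype Om] (P : FP Om) (N : ℕ) {β : Type} (I : Finset β) {ζ : β → ℕ → Type}
    (Z : ∀ U t, Om → ζ U t) {κ : ℕ → Type} (K : ∀ t, Om → κ t) (T : ℕ → Om → ℝ) (che zr : ℕ → Om → Prop) where
  /-- the filtration of the view -/
  α : ℕ → Type
  A : ∀ t, Om → α t
  /-- published process, free step, digit, failure of the step -/
  X : ℕ → Om → ℝ
  g : ℕ → Om → ℝ
  D : ℕ → Om → ℝ
  ev : ℕ → Om → Prop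
  /-- no label is young -/
  utd : ℕ → Om → Prop
  /-- errors of the labels (and exceptional event of HARM), dead points of the form D' -/
  D0 : ℕ → Om → Prop
  D1 : ℕ → Om → Prop
  /-- squares of the biases: experts `b0`; `b U` = label and class of `U` -/
  b0 : ℕ → Om → ℝ
  b : β → ℕ → Om → ℝ
  /-- recorded changes at the time `t+1` -/
  c : β → ℕ → Om → ℝ
  /-- true changes at the time `t+1` -/
  ch : β → ℕ → Om → Prop
  /-- bound of the process, accuracy, probability of errors, error of the experts, budgets, mass of the points which are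
  not up to date, least threshold -/
  NB : ℝ
  eta : ℝ
  q : ℝ
  e3 : ℝ
  hb : β → ℝ
  J : ℝ
  a6 : ℝ
  rmin : ℝ
  eta0 : 0 ≤ eta
  NB0 : 0 ≤ NB
  view : ∀ x : ℝ, 0 ≤ x → ∀ Dd : ℕ → Om → Prop, P.ViewHyp A X g D ev (P.Al A Dd (1 / 2)) x NB
  KA : ∀ t, Fac (A t) (K t)
  D0inc : ∀ t w, P.p w ≠ 0 → D0 t w → D0 (t + 1) w
  D1inc : ∀ t w, P.p w ≠ 0 → D1 t w → D1 (t + 1) w
  D01 : ∀ t w, P.p w ≠ 0 → D0 t w → D1 t w
  D0q : P.Pr (D0 N) ≤ q
  D1q : P.Pr (D1 N) ≤ q
  /-- the form D': from `X` to `T` and back, events -/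
  XS1 : ∀ x : ℝ, 0 ≤ x → ∀ t ≤ N, ∀ w, P.p w ≠ 0 → x < |X t w| → ¬ D1 t w → ¬ utd t w ∨ x - eta ≤ |T t w|
  SX1 : ∀ x : ℝ, ∀ t ≤ N, ∀ w, P.p w ≠ 0 → x + eta ≤ |T t w| → ¬ D1 t w → utd t w → x ≤ |X t w|
  ev1 : ∀ t < N, ∀ w, P.p w ≠ 0 → P.Al A D1 (1 / 2) (t + 1) w →
    ind (ev (t + 1) w) ≤ ind (che t w) + ∑ U ∈ I, c U t w
  /-- the published process is zero as long as the known face is zero -/
  zer : ∀ t ≤ N, ∀ w, P.p w ≠ 0 → zr t w → X t w = 0
  /-- the points which are not up to date are rare in every class coarser than the view -/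
  utdK : ∀ t ≤ N, ∀ {γ : Type} (Y : Om → γ), Fac (K t) Y → ∀ w, P.p w ≠ 0 →
    P.ce Y (fun v => ind (¬ utd t v)) w ≤ a6
  /-- BIAS -/
  bias : ∀ t < N, ∀ w, P.p w ≠ 0 → P.ce (A t) (D t) w ^ 2 ≤ b0 t w + ∑ U ∈ I, b U t w
  b0n : ∀ t w, 0 ≤ b0 t w
  bn : ∀ U t w, 0 ≤ b U t w
  cn : ∀ U t w, 0 ≤ c U t w
  b0A : ∀ t < N, Fac (A t) (b0 t)
  bA : ∀ U ∈ I, ∀ t < N, Fac (A t) (b U t)
  bZ : ∀ U ∈ I, ∀ t < N, Fac (Z U t) (b U t)
  cZ : ∀ U ∈ I, ∀ t < N, Fac (Z U t) (c U t)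
  b0e : ∑ t ∈ range N, P.E (fun w => ind (¬ D0 t w) * b0 t w) ≤ e3
  bh : ∀ U ∈ I, ∑ t ∈ range N, P.E (b U t) ≤ hb U
  cJ : ∀ U ∈ I, ∑ t ∈ range N, P.E (c U t) ≤ J
  /-- true changes -/
  chZ : ∀ U ∈ I, ∀ t < N, Fac (Z U t) (fun w => ind (ch U t w))
  chJ : ∀ U ∈ I, ∑ t ∈ range N, P.Pr (ch U t) ≤ J
  eJ : ∑ t ∈ range N, P.Pr (che t) ≤ J
  /-- THE THEOREM: dead points for every threshold `r` and every increasing family which contains the errors -/
  thm : ∀ r : ℝ, rmin ≤ r → ∀ D0' : ℕ → Om → Prop, (∀ t w, P.p w ≠ 0 → D0' t w → D0' (t + 1) w) →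
    (∀ t w, P.p w ≠ 0 → D0 t w → D0' t w) → ∃ D2 : ℕ → Om → Prop,
      (∀ t w, P.p w ≠ 0 → D2 t w → D2 (t + 1) w) ∧
      (∀ t w, P.p w ≠ 0 → D0' t w → D2 t w) ∧
      P.Pr (D2 N) ≤ P.Pr (D0' N) + q + ∑ t ∈ range N, P.Pr (fun w =>
        (che t w ∨ ∃ U ∈ I, ch U t w) ∧ (r ≤ |T t w| ∨ r ≤ |T (t + 1) w|) ∧ ¬ D0' (t + 1) w) ∧
      (∀ t ≤ N, ∀ w, P.p w ≠ 0 → 2 * r < |X t w| → ¬ D2 t w → 2 * r - eta ≤ |T t w|) ∧
      (∀ x : ℝ, ∀ t ≤ N, ∀ w, P.p w ≠ 0 → 2 * r ≤ x + eta → x + eta ≤ |T t w| → ¬ D2 t w → x ≤ |X t w|) ∧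
      (∀ t < N, ∀ w, P.p w ≠ 0 → 2 * r < |X t w| → P.Al A D2 (1 / 2) (t + 1) w → ¬ ev (t + 1) w)

end

end Pool.Agent.GM
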