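import Pool.Agent.GM.ColdBin1
import Pool.Agent.GM.GSscale
import Pool.Agent.GM.NV

/-!
# GM/ColdBin2: ALL SETS OF AT MOST TWO VERTICES OF A PIECE ARE COLD (row A10, helper48)

* `ColdsX σ N h F δ U D r e` : the set `U` is cold, coin averaged, and, if `δ ∉ U`, for every value of the coin;
* `coldBin_le2` : all nonempty `U` with at most two vertices, coarse binary model, with numbers;
* `cold3` : the hypotheses `C` and `Cδ` of `piece_coin` for `3` vertices.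
-/

set_option autoImplicit false
set_option linter.unusedSectionVars false

namespace Pool.Agent.GM

open Finset Pool.Agent.PWZ Pool.Agent.M3 Pool.Agent.M3.Bin
open Pool.Agent.GMC (famS)
open Pool.Agent.M3.Mod (ex nd av)

noncomputable section

/-- THE SET `U` IS COLD FOR THE FACES `F`, coin averaged, and, if `δ ∉ U`, for every value of the coin -/
def ColdsX {k : ℕ} {ι Θ Ξ Q : Type} [Fintype ι] [DecidableEq ι] [Fintype Θ] [Nonempty Θ] [Fintype Ξ] [Nonempty Ξ]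
    [Fintype Q] [Nonempty Q] (σ : V k) (N h : ℕ) (F : ι → Mov Ξ ι (Q × V k) (Θ × (V k × ℕ)) (V k → ℝ)) (δ : ι)
    (U : Finset ι) (D : ℕ) (r e : ℝ) : Prop :=
  (∃ H : ℕ → Sq k N ι Θ Q → Ξ → Prop, ColdX σ N h (fun θ ξ i => famS N h (F i) θ ξ)
    (fun _ => (Fintype.card Ξ : ℝ)⁻¹) U D r e e H) ∧
  (δ ∉ U → ∀ ξ : Ξ, ∃ H : ℕ → Sq k N ι Θ Q → Unit → Prop,
    ColdX σ N h (fun θ (_ : Unit) i => famS N h (F i) θ ξ) (fun _ => 1) U D r e e H)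

theorem GS.Faces.mono_acc {ι Om Ξ Pt V Γ κ : Type} [Fintype ι] [DecidableEq ι] [Fintype Om] [Fintype Ξ] [Fintype Pt]
    [Fintype V] {S : Sys ι Om Ξ Pt V Γ κ} {Vj : Finset ι} {δ : ι} {F : ι → Mov Ξ ι Pt Γ (V → ℝ)} {m θ acc acc' : ℝ}
    (H : GS.Faces S Vj δ F m θ acc) (h : acc ≤ acc') : GS.Faces S Vj δ F m θ acc' where
  dep := H.dep
  coin := H.coin
  bd := H.bd
  zero := H.zero
  fut := H.fut
  rare w hw := Sys.Rare.mono S (H.rare w hw) le_rfl h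

theorem GS.Faces.mono {ι Om Ξ Pt V Γ κ : Type} [Fintype ι] [DecidableEq ι] [Fintype Om] [Fintype Ξ] [Fintype Pt]
    [Fintype V] {S : Sys ι Om Ξ Pt V Γ κ} {Vj : Finset ι} {δ : ι} {F : ι → Mov Ξ ι Pt Γ (V → ℝ)} {m θ acc acc' : ℝ}
    (H : GS.Faces S Vj δ F m θ acc) (h : acc ≤ acc') : GS.Faces S Vj δ F m θ acc' := H.mono_acc h

/-- **THE SETS OF AT MOST TWO VERTICES OF A PIECE ARE COLD** -/
theorem coldBin_le2 (j c1 : ℕ) : ∃ C1 : ℕ, c1 ≤ C1 ∧ ∀ (ι Θ Ξ Q : Type) [Fintype ι] [DecidableEq ι] [Fintype Θ]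
    [Nonempty Θ] [Fintype Ξ] [Nonempty Ξ] [Fintype Q] [Nonempty Q] (k N : ℕ) (σ : V k) (i δ : ι) (hN : N ≤ k)
    (h : ℕ), Fintype.card ι = j → ∀ β H Λ : ℝ, 0 < β → β ≤ 1 / 2 → 1 / β ≤ H →
      (binSys Θ Ξ Q σ i hN h).K ≤ Real.exp H → (binSys Θ Ξ Q σ i hN h).near ≤ β ^ C1 → H ^ C1 ≤ Λ →
      ∀ F : ι → Mov Ξ ι (Q × V k) (Θ × (V k × ℕ)) (V k → ℝ),
      GS.Faces (binSys Θ Ξ Q σ i hN h) univ δ F H (Real.exp (-Λ)) (β ^ C1) → ∀ D : ℕ, (D : ℝ) ≤ H ^ c1 →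
      ∀ U : Finset ι, U.Nonempty → U.card ≤ 2 → ColdsX σ N h F δ U D (β ^ c1) (Real.exp (-H ^ c1)) := by
  obtain ⟨C1, hc1, h1⟩ := coldBin_one j c1
  obtain ⟨C2, hc2, h2⟩ := coldBin_pair j c1
  refine ⟨C1 + C2, by omega, ?_⟩
  intro ι Θ Ξ Q _ _ _ _ _ _ _ _ k N σ i δ hN h hι β H Λ hβ hβ2 hH hK hn hΛ F HF D hD U hU hU2
  have hβ1 : β ≤ 1 := by linarith
  have hH1 : 1 ≤ H := by
    have h1 : (1 : ℝ) ≤ 1 / β := by
      rw [le_div_iff₀ hβ]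
      linarith
    exact h1.trans hH
  have b1 : β ^ (C1 + C2) ≤ β ^ C1 := pow_le_pow_of_le_one hβ.le hβ1 (by omega)
  have b2 : β ^ (C1 + C2) ≤ β ^ C2 := pow_le_pow_of_le_one hβ.le hβ1 (by omega)
  have e1 : H ^ C1 ≤ Λ := (pow_le_pow_right₀ hH1 (by omega)).trans hΛ
  have e2 : H ^ C2 ≤ Λ := (pow_le_pow_right₀ hH1 (by omega)).trans hΛ
  have w0 : ∀ ξ : Ξ, 0 ≤ (fun _ : Ξ => (Fintype.card Ξ : ℝ)⁻¹) ξ := fun ξ => by positivity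
  have hone := fun a => h1 ι Θ Ξ Q k N σ i δ a hN h hι β H Λ hβ hβ2 hH hK (hn.trans b1) e1 F (HF.mono_acc b1) D hD
  have hpair := fun a b (hab : a ≠ b) => h2 ι Θ Ξ Q k N σ i δ a b hN h hι hab β H Λ hβ hβ2 hH hK (hn.trans b2) e2 F
    (HF.mono_acc b2) D hD
  have hcard : U.card = 1 ∨ U.card = 2 := by
    have := Finset.card_pos.mpr hU
    omega
  rcases hcard with hc | hc
  · obtain ⟨a, rfl⟩ := Finset.card_eq_one.mp hc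
    obtain ⟨g1, g2⟩ := hone a
    by_cases hδ : δ = a
    · exact ⟨⟨_, g1 hδ⟩, fun hn => absurd (Finset.mem_singleton.mpr hδ) hn⟩
    · exact ⟨⟨_, ColdX.of_fix w0 (card_sum Ξ) (H := fun _ _ _ => False) fun ξ => g2 hδ ξ⟩, fun _ ξ => ⟨_, g2 hδ ξ⟩⟩
  · obtain ⟨a, b, hab, rfl⟩ := Finset.card_eq_two.mp hc
    obtain ⟨g1, g2⟩ := hpair a b hab
    by_cases hδ : δ = a ∨ δ = b
    · obtain ⟨Hot, g3⟩ := g1 hδ
      refine ⟨⟨_, g3⟩, fun hn => absurd ?_ hn⟩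
      rw [Finset.mem_insert, Finset.mem_singleton]
      exact hδ
    · have hδ' : δ ≠ a ∧ δ ≠ b := ⟨fun h => hδ (Or.inl h), fun h => hδ (Or.inr h)⟩
      choose Hot g3 using g2 hδ'
      exact ⟨⟨fun t w ξ => Hot ξ t w, ColdX.of_fix w0 (card_sum Ξ) fun ξ => g3 ξ⟩, fun _ ξ => ⟨_, g3 ξ⟩⟩

/-- **THE COLD SETS OF A PIECE WITH THREE VERTICES** : hypotheses `C`, `Cδ` of `piece_coin` -/
theorem cold3 (c1 : ℕ) : ∃ C1 : ℕ, c1 ≤ C1 ∧ ∀ (ι Θ Ξ Q : Type) [Fintype ι] [DecidableEq ι] [Fintype Θ]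
    [Nonempty Θ] [Fintype Ξ] [Nonempty Ξ] [Fintype Q] [Nonempty Q] (k N : ℕ) (σ : V k) (i δ : ι) (hN : N ≤ k)
    (h : ℕ), Fintype.card ι = 3 → ∀ β H Λ : ℝ, 0 < β → β ≤ 1 / 2 → 1 / β ≤ H →
      (binSys Θ Ξ Q σ i hN h).K ≤ Real.exp H → (binSys Θ Ξ Q σ i hN h).near ≤ β ^ C1 → H ^ C1 ≤ Λ →
      ∀ F : ι → Mov Ξ ι (Q × V k) (Θ × (V k × ℕ)) (V k → ℝ),
      GS.Faces (binSys Θ Ξ Q σ i hN h) univ δ F H (Real.exp (-Λ)) (β ^ C1) → ∀ D : ℕ, (D : ℝ) ≤ H ^ c1 → ∀ a : ι,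
      (∀ U ∈ UU a, U ≠ univ.erase δ → ∃ Hot : ℕ → Sq k N ι Θ Q → Ξ → Prop,
        ColdX σ N h (fun θ ξ i => famS N h (F i) θ ξ) (fun _ => (Fintype.card Ξ : ℝ)⁻¹) U D (β ^ c1)
          (Real.exp (-H ^ c1)) (Real.exp (-H ^ c1)) Hot) ∧
      (∀ ξ : Ξ, ∃ Hot : ℕ → Sq k N ι Θ Q → Unit → Prop, ColdX σ N h (fun θ (_ : Unit) i => famS N h (F i) θ ξ)
        (fun _ => 1) (univ.erase δ) D (β ^ c1) (Real.exp (-H ^ c1)) (Real.exp (-H ^ c1)) Hot) := by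
  obtain ⟨C1, hc1, h1⟩ := coldBin_le2 3 c1
  refine ⟨C1, hc1, ?_⟩
  intro ι Θ Ξ Q _ _ _ _ _ _ _ _ k N σ i δ hN h hι β H Λ hβ hβ2 hH hK hn hΛ F HF D hD a
  have h2 := h1 ι Θ Ξ Q k N σ i δ hN h hι β H Λ hβ hβ2 hH hK hn hΛ F HF D hD
  have hle : ∀ U : Finset ι, U ≠ univ → U.card ≤ 2 := by
    intro U hU
    have h3 := (Finset.card_lt_iff_ne_univ U).mpr hU
    omega
  refine ⟨fun U hU _ => ?_, fun ξ => ?_⟩
  · rw [mem_UU] at hU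
    exact (h2 U ⟨a, hU.1⟩ (hle U hU.2)).1
  · have hne : (univ.erase δ : Finset ι).card = 2 := by
      rw [Finset.card_erase_of_mem (mem_univ δ), Finset.card_univ, hι]
    exact (h2 (univ.erase δ) (Finset.card_pos.mp (by omega)) hne.le).2 (Finset.notMem_erase δ univ) ξ

end

end Pool.Agent.GM
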