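import Pool.Agent.GM.CMLayDef
import Pool.Agent.GM.CMRef
import Pool.Agent.GM.RdHyp
import Pool.Agent.M3.Hot

/-!
# GM/ColdMov (helper42): COLD SETS OF `j - 1` VERTICES, moving faces (row ASM A10b)

* `cold_of_lay` : the layers (`LayC`) and coldness of every piece give coldness of the process;
* `cmAll_of_piece : LayersC j κ C C1 → CMPiece j κ C → CMAll j C1`;
* `FacesV` : the faces with a MOVING known face; `FacesV.ver` : its versions satisfy `FacesC`; `FacesV.of` : from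
  `GS.Faces`, coin free;
* **`cold_moving`** : `CMAll j C → ∀ e, ∃ C2, ..` : coldness `exp (-H ^ e)` of all processes with `FacesV`, rarity
  `exp (-Λ)`, `H ^ C2 ≤ Λ`; `cold_faces` : for the faces of `PieceBin` (all views `w`).
-/

set_option autoImplicit false
set_option linter.unusedSectionVars false

namespace Pool.Agent.GM.GS

open Finset Pool.Agent.PWZ Pool.Agent.M3 Pool.Agent.M3.TS Pool.Agent.M3.Bin Pool.Agent.GM Pool.Agent.GM.Mv Pool.Agent.GM.KVer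
open Pool.Agent.M3.Mod (ex)

noncomputable section

/-- hotness of the last term -/
theorem hot_last {Om : Type*} [Fintype Om] (P : FP Om) {κ : ℕ → Type*} (Y : ∀ t, Om → κ t) (S : ℕ → Om → Prop) (N : ℕ)
    {ρ ε : ℝ} (hρ : 0 < ρ) (h : P.Pr (fun w => ∃ t ≤ N, S t w) ≤ ε) :
    P.Pr (fun w => ∃ t ≤ N, ρ ≤ P.ce (Y t) (fun v => ind (S t v)) w) ≤ (N + 1) * ε / ρ := by
  have h2 : P.Pr (fun w => ∃ t ≤ N, ρ ≤ P.ce (Y t) (fun v => ind (S t v)) w) ≤
      ∑ t ∈ range (N + 1), P.Pr (fun w => ρ ≤ P.ce (Y t) (fun v => ind (S t v)) w) := by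
    refine le_trans (P.Pr_mono (fun ω _ => ?_)) (P.Pr_ex_le _ _)
    rintro ⟨t, ht, hh⟩
    exact ⟨t, Finset.mem_range.mpr (by omega), hh⟩
  refine h2.trans ?_
  have h3 : ∀ t ∈ range (N + 1), P.Pr (fun w => ρ ≤ P.ce (Y t) (fun v => ind (S t v)) w) ≤ ε / ρ := by
    intro t ht
    rw [le_div_iff₀ hρ]
    have h4 := P.markov (f := P.ce (Y t) (fun v => ind (S t v)))
      (fun w _ => P.ce_nonneg (fun v _ => ind_nonneg _) w) ρ
    rw [P.E_ce] at h4
    have h5 : P.E (fun v => ind (S t v)) ≤ ε := by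
      refine le_trans ?_ h
      exact P.Pr_mono fun w _ hw => ⟨t, by have := Finset.mem_range.1 ht; omega, hw⟩
    linarith
  refine (Finset.sum_le_sum h3).trans ?_
  rw [Finset.sum_const, Finset.card_range, nsmul_eq_mul]
  push_cast
  apply le_of_eq
  ring

section bin

variable {k N : ℕ} {ι Θ Ξ Q : Type} [Fintype ι] [DecidableEq ι] {σ : V k} [Fintype Θ] [Nonempty Θ] [Fintype Ξ]
  [Nonempty Ξ] [Fintype Q] [Nonempty Q]

/-- **from the pieces of the layers to the process** -/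
theorem cold_of_lay {i : ι} {hN : N ≤ k} {h : ℕ} {w : ι}
    {F : ι → Mov Ξ ι (Q × V k) (Θ × (V k × ℕ)) (V k → ℝ)} {κ : ℝ} {C : ℕ} {c0 β H : ℝ} (hβ : 0 < β)
    (A : LayC σ i hN h w F κ C c0 β H)
    (hP : ∀ n q, q ≠ w → ColdAt σ i hN (A.hn n) w (A.Pc n q) (A.bn n) (Real.exp (-A.Hn n)) (Real.exp (-A.Hn n))) :
    ColdAt σ i hN h w F β (Real.exp (-H)) (Real.exp (-H)) := by
  set E := Real.exp (-H) with hE
  have hE0 : 0 < E := Real.exp_pos _
  have hN1 : (0 : ℝ) < (N : ℝ) + 1 := by positivity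
  obtain ⟨L, hL⟩ := A.last (E * E / (4 * (N + 1))) (by positivity)
  set I : Finset ι := univ.erase w with hI
  have hcard : (I.card : ℝ) ≤ Fintype.card ι := by
    exact_mod_cast Finset.card_le_univ I
  set J : Finset (Option (ℕ × ι)) := Finset.insertNone (range L ×ˢ I) with hJ
  set S' : Option (ℕ × ι) → ℕ → Sq k N ι Θ (Ξ × Q) → Prop := fun j t v => match j with
    | none => β / 4 ≤ |A.Z L t v|
    | some (n, q) => A.bn n ≤ |pT (binSys Θ Ξ Q σ i hN (A.hn n)) univ (A.Pc n q) t v| with hS'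
  set rr : Option (ℕ × ι) → ℝ := fun j => match j with
    | none => E / 2
    | some (n, _) => Real.exp (-A.Hn n) with hrr
  have hsum : ∑ j ∈ J, rr j ≤ E := by
    rw [hJ, Finset.sum_insertNone, Finset.sum_product]
    have h1 : ∑ n ∈ range L, ∑ q ∈ I, rr (some (n, q)) ≤ E / 4 := by
      refine le_trans (Finset.sum_le_sum fun n _ => ?_) (A.sH L)
      show ∑ _q ∈ I, Real.exp (-A.Hn n) ≤ _
      rw [Finset.sum_const, nsmul_eq_mul]
      exact mul_le_mul_of_nonneg_right hcard (Real.exp_pos _).le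
    have h2 : rr none = E / 2 := rfl
    linarith
  have hot := (PM k N ι Θ Ξ Q).hot_sum (Y := fun t => Kn w (ex N t)) J
    (S := fun t v => t ≤ N ∧ β ≤ |pT (binSys Θ Ξ Q σ i hN h) univ F t v|) (S' := S')
    (fun t v _ hS => ?_) rr N (ρ := E) hsum ⟨none, Finset.none_mem_insertNone⟩
  · have h1 : (PM k N ι Θ Ξ Q).Pr (fun ω => ∃ t ≤ N, E ≤ (PM k N ι Θ Ξ Q).ce (Kn w (ex N t))
        (fun v => ind (β ≤ |pT (binSys Θ Ξ Q σ i hN h) univ F t v|)) ω) ≤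
        ∑ j ∈ J, (PM k N ι Θ Ξ Q).Pr (fun ω => ∃ t ≤ N, rr j ≤ (PM k N ι Θ Ξ Q).ce (Kn w (ex N t))
          (fun v => ind (S' j t v)) ω) := by
      refine le_trans (FP.Pr_mono _ fun ω _ => ?_) hot
      rintro ⟨t, ht, hh⟩
      refine ⟨t, ht, hh.trans (le_of_eq ?_)⟩
      congr 1
      funext v
      congr 1
      exact propext ⟨fun h => ⟨ht, h⟩, fun h => h.2⟩
    refine h1.trans ?_
    rw [hJ, Finset.sum_insertNone, Finset.sum_product]
    have h2 : (PM k N ι Θ Ξ Q).Pr (fun ω => ∃ t ≤ N, rr none ≤ (PM k N ι Θ Ξ Q).ce (Kn w (ex N t))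
          (fun v => ind (S' none t v)) ω) ≤ E / 2 := by
      have h3 := hot_last (PM k N ι Θ Ξ Q) (fun t => Kn w (ex N t)) (fun t v => β / 4 ≤ |A.Z L t v|) N
        (ρ := E / 2) (by positivity) hL
      refine h3.trans (le_of_eq ?_)
      field_simp
      ring
    have h4 : ∑ n ∈ range L, ∑ q ∈ I, (PM k N ι Θ Ξ Q).Pr (fun ω => ∃ t ≤ N, rr (some (n, q)) ≤
        (PM k N ι Θ Ξ Q).ce (Kn w (ex N t)) (fun v => ind (S' (some (n, q)) t v)) ω) ≤ E / 4 := by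
      refine le_trans (Finset.sum_le_sum fun n _ => ?_) (A.sH L)
      refine le_trans (Finset.sum_le_sum fun q hq => hP n q (Finset.ne_of_mem_erase hq)) ?_
      rw [Finset.sum_const, nsmul_eq_mul]
      exact mul_le_mul_of_nonneg_right hcard (Real.exp_pos _).le
    linarith
  · obtain ⟨ht, hh⟩ := hS
    by_contra hcon
    push Not at hcon
    have h1 : |A.Z L t v| < β / 4 := not_le.1 (hcon none Finset.none_mem_insertNone)
    have h2 : ∀ n ∈ range L, ∀ q ∈ I, |pT (binSys Θ Ξ Q σ i hN (A.hn n)) univ (A.Pc n q) t v| ≤ A.bn n := by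
      intro n hn q hq
      refine (not_le.1 (hcon (some (n, q)) ?_)).le
      rw [hJ, Finset.some_mem_insertNone, Finset.mem_product]
      exact ⟨hn, hq⟩
    rw [A.id L t ht v] at hh
    have h3 : |∑ n ∈ range L, ∑ q ∈ I, c0 * pT (binSys Θ Ξ Q σ i hN (A.hn n)) univ (A.Pc n q) t v| ≤ β / 2 := by
      refine le_trans (Finset.abs_sum_le_sum_abs _ _) (le_trans (Finset.sum_le_sum fun n hn => ?_) (A.sb L))
      refine le_trans (Finset.abs_sum_le_sum_abs _ _) ?_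
      have h4 : ∀ q ∈ I, |c0 * pT (binSys Θ Ξ Q σ i hN (A.hn n)) univ (A.Pc n q) t v| ≤ c0 * A.bn n := by
        intro q hq
        rw [abs_mul, abs_of_nonneg A.c00]
        exact mul_le_mul_of_nonneg_left (h2 n hn q hq) A.c00
      refine (Finset.sum_le_sum h4).trans ?_
      rw [Finset.sum_const, nsmul_eq_mul, mul_assoc]
      exact mul_le_mul_of_nonneg_right hcard (mul_nonneg A.c00 (A.b0 n).le)
    have h5 := abs_add_le (∑ n ∈ range L, ∑ q ∈ I, c0 * pT (binSys Θ Ξ Q σ i hN (A.hn n)) univ (A.Pc n q) t v)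
      (A.Z L t v)
    linarith

end bin

/-- **no structured face** -/
theorem cmAll_of_piece {j : ℕ} {κ : ℝ} {C C1 : ℕ} (hL : LayersC j κ C C1) (hP : CMPiece j κ C) : CMAll j C1 := by
  intro ι Θ Ξ Q _ _ _ _ _ _ _ _ k N σ i w hN h hj β H hβ hβ2 hβH hK hnear F hF
  obtain ⟨c0, ⟨A⟩⟩ := hL ι Θ Ξ Q k N σ i w hN h hj β H hβ hβ2 hβH hK hnear F hF
  refine cold_of_lay hβ A fun n q hq => ?_
  exact hP ι Θ Ξ Q k N σ i w q hN (A.hn n) hj hq (A.bn n) (A.Hn n) (A.Ln n) (A.b0 n) (A.b2 n) (A.bH n) (A.KH n)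
    (A.nH n) (A.HL n) (A.LH n) (A.Pc n q) (A.fac n q hq) (A.str n q hq)

/-! ### moving known face -/

section abs

variable {ι Om Ξ Pt V Γ κ : Type} [Fintype ι] [DecidableEq ι] [Fintype Om] [Fintype Ξ] [Fintype Pt]
  [Fintype V] (S : Sys ι Om Ξ Pt V Γ κ)

/-- the faces of the natural view of `w`, the known face moves -/
structure FacesV (w : ι) (F : ι → Mov Ξ ι Pt Γ (V → ℝ)) (m M θ acc : ℝ) : Prop where
  dep : ∀ i, ∀ t g ξ, Dep (univ.erase i) (F i t g ξ)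
  coin : ∀ i, ∀ t g ξ ξ', F i t g ξ = F i t g ξ'
  bd : ∀ i, ∀ t g ξ x d, |F i t g ξ x d| ≤ 1
  zero : ∀ i, ∀ g ξ x, F i 0 g ξ x = 0
  mvt : S.MvTail (F w) m
  fut : ∀ i, i ≠ w → S.Future (univ.erase i) (F i) M
  tail : ∀ i, i ≠ w → S.MvTail (F i) m
  mean : ∀ i, i ≠ w → S.P.E (S.nmv (F i) S.n) ≤ m
  rare : ∀ i, i ≠ w → S.Rare univ i (F i) θ acc

variable {S}

/-- the versions of the known face -/
theorem FacesV.ver {w : ι} {F : ι → Mov Ξ ι Pt Γ (V → ℝ)} {m M θ acc : ℝ} (h : FacesV S w F m M θ acc) (ξ0 : Ξ)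
    (v : ℕ) : FacesC S w (kvF S F w (cfr ξ0 (F w)) v) m M θ acc where
  dep i := kvF_dep (fun t g => h.dep w t g ξ0) (fun t g x d => h.bd w t g ξ0 x d) v (h.dep i)
  coin i := kvF_free v (h.coin i)
  bd i := kvF_abs (fun t g => h.dep w t g ξ0) (fun t g x d => h.bd w t g ξ0 x d) v le_rfl (h.bd i)
  zero i := kvF_zero v (h.zero i)
  once t ω := by
    rw [kvF_self]
    exact (kv_NF (S := S) (f := cfr ξ0 (F w)) (fun t g => h.dep w t g ξ0) (fun t g x d => h.bd w t g ξ0 x d) v).intro t ω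
  fut i hi := by rw [kvF_ne F v hi]; exact h.fut i hi
  tail i hi := by rw [kvF_ne F v hi]; exact h.tail i hi
  mean i hi := by rw [kvF_ne F v hi]; exact h.mean i hi
  rare i hi := by rw [kvF_ne F v hi]; exact h.rare i hi

theorem FacesV.mono {w : ι} {F : ι → Mov Ξ ι Pt Γ (V → ℝ)} {m M θ acc m' M' θ' acc' : ℝ} (h : FacesV S w F m M θ acc)
    (h1 : m ≤ m') (h2 : M ≤ M') (h3 : θ ≤ θ') (h4 : acc ≤ acc') : FacesV S w F m' M' θ' acc' where
  dep := h.dep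
  coin := h.coin
  bd := h.bd
  zero := h.zero
  mvt := h.mvt.mono h1
  fut i hi := Sys.Future.mono S (h.fut i hi) h2
  tail i hi := (h.tail i hi).mono h1
  mean i hi := (h.mean i hi).trans h1
  rare i hi := Sys.Rare.mono S (h.rare i hi) h3 h4

/-- the faces of a piece, coin free, in every natural view -/
theorem FacesV.of {δ : ι} {F : ι → Mov Ξ ι Pt Γ (V → ℝ)} {m θ acc : ℝ} (hm : 0 < m)
    (h : Faces S univ δ F m θ acc) (hδ : ∀ t g ξ ξ', F δ t g ξ = F δ t g ξ') (w : ι) :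
    FacesV S w F (1 + 2 * m) m θ acc where
  dep i := h.dep i (mem_univ i)
  coin i := by
    by_cases hi : i = δ
    · rw [hi]; exact hδ
    · exact h.coin i (mem_univ i) hi
  bd i := h.bd i (mem_univ i)
  zero i := h.zero i (mem_univ i)
  mvt := (h.fut w (mem_univ w)).tail (h.dep w (mem_univ w)) hm
  fut i _ := h.fut i (mem_univ i)
  tail i _ := (h.fut i (mem_univ i)).tail (h.dep i (mem_univ i)) hm
  mean i _ := by
    have h5 := (h.fut i (mem_univ i)).mean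
    linarith
  rare i _ := h.rare i (mem_univ i)

end abs

section bin

variable {k N : ℕ} {ι Θ Ξ Q : Type} [Fintype ι] [DecidableEq ι] {σ : V k} [Fintype Θ] [Nonempty Θ] [Fintype Ξ]
  [Nonempty Ξ] [Fintype Q] [Nonempty Q]

/-- the known class knows the node and the known vertices -/
theorem Kn_node (i w : ι) (hN : N ≤ k) (h t : ℕ) :
    Fac (Kn (k := k) (N := N) (Θ := Θ) (P := Ξ × Q) w (ex N t))
      (fun ω => (res (univ.erase w) ((binSys Θ Ξ Q σ i hN h).x ω), (binSys Θ Ξ Q σ i hN h).gm t ω)) := by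
  intro v ω hv
  rw [Kn_eq] at hv
  have h1 : Yn σ (ex N t) v = Yn σ (ex N t) ω := fac_Yn σ w (ex N t) v ω (Prod.ext hv.2.1 hv.2.2)
  have h3 : res (univ.erase w) ((binSys Θ Ξ Q σ i hN h).x v) = res (univ.erase w) ((binSys Θ Ξ Q σ i hN h).x ω) := by
    refine res_eq.2 fun j hj => ?_
    have h2 : vx j v = vx j ω := congrFun hv.2.2 ⟨j, (Finset.mem_erase.1 hj).1⟩
    show ((vx j v).1.2, (vx j v).2) = ((vx j ω).1.2, (vx j ω).2)
    rw [h2]
  refine Prod.ext h3 ?_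
  show (th v, Gm σ h (ex N t) v) = (th ω, Gm σ h (ex N t) ω)
  rw [hv.1, fac_Yn_Gm σ h (ex N t) v ω h1]

theorem ColdAt.mono {i : ι} {hN : N ≤ k} {h : ℕ} {w : ι}
    {F : ι → Mov Ξ ι (Q × V k) (Θ × (V k × ℕ)) (V k → ℝ)} {r ρ out r' ρ' out' : ℝ}
    (H : ColdAt σ i hN h w F r ρ out) (h1 : r ≤ r') (h2 : ρ ≤ ρ') (h3 : out ≤ out') :
    ColdAt σ i hN h w F r' ρ' out' := by
  refine (FP.Pr_mono _ fun ω _ => ?_).trans (H.trans h3)
  rintro ⟨t, ht, hh⟩
  refine ⟨t, ht, h2.trans (hh.trans ?_)⟩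
  exact FP.ce_mono _ (fun v _ => ind_mono fun h4 => h1.trans h4) ω

/-- coldness does not depend on the rounding -/
theorem ColdAt.lift {i : ι} {hN : N ≤ k} {h h' : ℕ} (hh : h ≤ h') {w : ι}
    {F : ι → Mov Ξ ι (Q × V k) (Θ × (V k × ℕ)) (V k → ℝ)} {r ρ out : ℝ}
    (H : ColdAt σ i hN h w F r ρ out) :
    ColdAt σ i hN h' w (fun l => (binFine (Θ := Θ) (Ξ := Ξ) (Q := Q) σ i hN hh).lift (F l)) r ρ out := by
  unfold ColdAt at H ⊢
  simp only [pT_lift (binFine (Θ := Θ) (Ξ := Ξ) (Q := Q) σ i hN hh) univ F]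
  exact H

/-- the versions of the known face are cold ==> the process is cold -/
theorem cold_versions {i : ι} {hN : N ≤ k} {h : ℕ} {w : ι}
    {F : ι → Mov Ξ ι (Q × V k) (Θ × (V k × ℕ)) (V k → ℝ)} {m M θ acc : ℝ}
    (hF : FacesV (binSys Θ Ξ Q σ i hN h) w F m M θ acc) (hm : 0 ≤ m) {r ρ q : ℝ} (hr : 0 < r) (hρ : 0 < ρ) (n : ℕ)
    (hq : ∀ (ξ0 : Ξ) (v : ℕ), ColdAt σ i hN h w (kvF (binSys Θ Ξ Q σ i hN h) F w (cfr ξ0 (F w)) v) r ρ q) :
    ColdAt σ i hN h w F r ρ (n * m * q + (1 / 2) ^ n) := by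
  exact hot_union_tail (S := binSys Θ Ξ Q σ i hN h) (F := F) (a := w) (hF.coin w) (hF.dep w) (hF.zero w)
    (mem_univ w) (Y := fun t => Kn w (ex N t)) (fun t => Kn_node i w hN h t) hm hF.mvt hr hρ n
    (fun ξ0 v _ => hq ξ0 v)

end bin

/-- numbers -/
theorem cold_num (e : ℕ) {H : ℝ} (hH : 2 ≤ H) : ∃ n : ℕ, (n : ℝ) * (1 + 2 * H) * Real.exp (-H ^ (e + 8)) +
    (1 / 2) ^ n ≤ Real.exp (-H ^ e) := by
  set x := H ^ e with hx
  have hx1 : 1 ≤ x := one_le_pow₀ (by linarith)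
  refine ⟨⌈2 * x + 2⌉₊, ?_⟩
  set n : ℕ := ⌈2 * x + 2⌉₊ with hn
  have h1 : 2 * x + 2 ≤ n := Nat.le_ceil _
  have h2 : (n : ℝ) ≤ 2 * x + 3 := by
    have := (Nat.ceil_lt_add_one (by linarith : 0 ≤ 2 * x + 2)).le
    linarith
  have h3 : ((1 : ℝ) / 2) ^ n ≤ Real.exp (-x) / 2 := by
    have h5 : (1 / 2 : ℝ) ≤ Real.exp (-(1 / 2 : ℝ)) := by
      have := Real.add_one_le_exp (-(1 / 2 : ℝ))
      linarith
    have h6 : Real.exp (-1) ≤ 1 / 2 := by
      rw [Real.exp_neg, one_div]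
      refine inv_anti₀ (by norm_num) ?_
      have := Real.add_one_le_exp (1 : ℝ)
      linarith
    calc ((1 : ℝ) / 2) ^ n ≤ Real.exp (-(1 / 2 : ℝ)) ^ n := pow_le_pow_left₀ (by norm_num) h5 n
      _ = Real.exp (n * (-(1 / 2 : ℝ))) := by rw [← Real.exp_nat_mul]
      _ ≤ Real.exp (-x + -1) := Real.exp_le_exp.2 (by linarith)
      _ = Real.exp (-x) * Real.exp (-1) := Real.exp_add _ _
      _ ≤ Real.exp (-x) * (1 / 2) := mul_le_mul_of_nonneg_left h6 (Real.exp_pos _).le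
      _ = Real.exp (-x) / 2 := by ring
  have h4 : (n : ℝ) * (1 + 2 * H) * Real.exp (-H ^ (e + 8)) ≤ Real.exp (-x) / 2 := by
    have h5 : H ^ (e + 8) = x * H ^ 8 := pow_add _ _ _
    have h6 : (128 : ℝ) * H ≤ H ^ 8 := by
      have : (2 : ℝ) ^ 7 ≤ H ^ 7 := pow_le_pow_left₀ (by norm_num) hH 7
      calc (128 : ℝ) * H = 2 ^ 7 * H := by norm_num
        _ ≤ H ^ 7 * H := mul_le_mul_of_nonneg_right this (by linarith)
        _ = H ^ 8 := (pow_succ H 7).symm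
    have h7 : 2 * ((n : ℝ) * (1 + 2 * H)) ≤ Real.exp (30 * x * H) := by
      have h8 : 2 * ((n : ℝ) * (1 + 2 * H)) ≤ 30 * x * H := by
        have h9 : (n : ℝ) ≤ 5 * x := by linarith
        have h10 : 1 + 2 * H ≤ 3 * H := by linarith
        have h11 : (n : ℝ) * (1 + 2 * H) ≤ 5 * x * (3 * H) :=
          mul_le_mul h9 h10 (by linarith) (by linarith)
        linarith
      have h9 := Real.add_one_le_exp (30 * x * H)
      linarith
    have h8 : Real.exp (30 * x * H) * Real.exp (-H ^ (e + 8)) ≤ Real.exp (-x) := by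
      rw [← Real.exp_add]
      refine Real.exp_le_exp.2 ?_
      rw [h5]
      have h9 : x * (128 * H) ≤ x * H ^ 8 := mul_le_mul_of_nonneg_left h6 (by linarith)
      have h10 : x ≤ x * H := le_mul_of_one_le_right (by linarith) (by linarith)
      have h11 : 0 ≤ x * H := by positivity
      linarith
    have h9 := mul_le_mul_of_nonneg_right h7 (Real.exp_pos (-H ^ (e + 8))).le
    linarith
  linarith

/-- **COLDNESS OF THE NATURAL VIEWS, MOVING FACES** -/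
theorem cold_moving {j C : ℕ} (hA : CMAll j C) (e : ℕ) : ∃ C2 : ℕ,
    ∀ (ι Θ Ξ Q : Type) [Fintype ι] [DecidableEq ι] [Fintype Θ] [Nonempty Θ] [Fintype Ξ] [Nonempty Ξ] [Fintype Q]
    [Nonempty Q] (k N : ℕ) (σ : V k) (i w : ι) (hN : N ≤ k) (h : ℕ), Fintype.card ι = j →
    ∀ β H : ℝ, 0 < β → β ≤ 1 / 2 → 1 / β ≤ H → (binSys Θ Ξ Q σ i hN h).K ≤ Real.exp H →
      (binSys Θ Ξ Q σ i hN h).near ≤ β ^ C2 →
      ∀ F : ι → Mov Ξ ι (Q × V k) (Θ × (V k × ℕ)) (V k → ℝ),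
        FacesV (binSys Θ Ξ Q σ i hN h) w F (1 + 2 * H) H (Real.exp (-H ^ C2)) (β ^ C2) →
        ColdAt σ i hN h w F β (Real.exp (-H ^ e)) (Real.exp (-H ^ e)) := by
  refine ⟨(e + 8) * C + C, ?_⟩
  intro ι Θ Ξ Q _ _ _ _ _ _ _ _ k N σ i w hN h hj β H hβ hβ2 hβH hK hnear F hF
  have hH2 : 2 ≤ H := by
    have : 2 ≤ 1 / β := by
      rw [le_div_iff₀ hβ]
      linarith
    linarith
  obtain ⟨n, hn⟩ := cold_num e hH2
  set H1 := H ^ (e + 8) with hH1
  have hHH : H ≤ H1 := by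
    calc H = H ^ 1 := (pow_one H).symm
      _ ≤ H ^ (e + 8) := pow_le_pow_right₀ (by linarith) (by omega)
  have hpow : H1 ^ C ≤ H ^ ((e + 8) * C + C) := by
    rw [hH1, ← pow_mul]
    exact pow_le_pow_right₀ (by linarith) (by omega)
  have hβC : β ^ ((e + 8) * C + C) ≤ β ^ C := pow_le_pow_of_le_one hβ.le (by linarith) (by omega)
  have hE : Real.exp (-H1) ≤ Real.exp (-H ^ e) := by
    refine Real.exp_le_exp.2 (neg_le_neg ?_)
    exact pow_le_pow_right₀ (by linarith) (by omega)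
  have hver : ∀ (ξ0 : Ξ) (v : ℕ), ColdAt σ i hN h w (kvF (binSys Θ Ξ Q σ i hN h) F w (cfr ξ0 (F w)) v) β
      (Real.exp (-H ^ e)) (Real.exp (-H1)) := by
    intro ξ0 v
    refine (hA ι Θ Ξ Q k N σ i w hN h hj β H1 hβ hβ2 (hβH.trans hHH) (hK.trans (Real.exp_le_exp.2 hHH))
      (hnear.trans hβC) _ ((hF.mono ?_ hHH ?_ hβC).ver ξ0 v)).mono le_rfl hE le_rfl
    · linarith
    · exact Real.exp_le_exp.2 (neg_le_neg hpow)
  refine (cold_versions hF (by linarith) hβ (Real.exp_pos _) n hver).mono le_rfl le_rfl ?_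
  exact hn

/-- **COLDNESS OF THE NATURAL VIEWS OF THE FACES OF A PIECE**, coin free -/
theorem cold_faces {j C : ℕ} (hA : CMAll j C) (e : ℕ) : ∃ C2 : ℕ,
    ∀ (ι Θ Ξ Q : Type) [Fintype ι] [DecidableEq ι] [Fintype Θ] [Nonempty Θ] [Fintype Ξ] [Nonempty Ξ] [Fintype Q]
    [Nonempty Q] (k N : ℕ) (σ : V k) (i δ w : ι) (hN : N ≤ k) (h : ℕ), Fintype.card ι = j →
    ∀ β H Λ : ℝ, 0 < β → β ≤ 1 / 2 → 1 / β ≤ H → (binSys Θ Ξ Q σ i hN h).K ≤ Real.exp H →
      (binSys Θ Ξ Q σ i hN h).near ≤ β ^ C2 → H ^ C2 ≤ Λ →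
      ∀ F : ι → Mov Ξ ι (Q × V k) (Θ × (V k × ℕ)) (V k → ℝ),
        Faces (binSys Θ Ξ Q σ i hN h) univ δ F H (Real.exp (-Λ)) (β ^ C2) →
        (∀ t g ξ ξ', F δ t g ξ = F δ t g ξ') →
        ColdAt σ i hN h w F β (Real.exp (-H ^ e)) (Real.exp (-H ^ e)) := by
  obtain ⟨C2, hC2⟩ := cold_moving hA e
  refine ⟨C2, ?_⟩
  intro ι Θ Ξ Q _ _ _ _ _ _ _ _ k N σ i δ w hN h hj β H Λ hβ hβ2 hβH hK hnear hΛ F hF hδ
  have hH2 : 2 ≤ H := by
    have : 2 ≤ 1 / β := by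
      rw [le_div_iff₀ hβ]
      linarith
    linarith
  refine hC2 ι Θ Ξ Q k N σ i w hN h hj β H hβ hβ2 hβH hK hnear F ?_
  exact (FacesV.of (by linarith) hF hδ w).mono le_rfl le_rfl (Real.exp_le_exp.2 (neg_le_neg hΛ)) le_rfl

end

end Pool.Agent.GM.GS
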