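import Pool.Agent.GM.PairColdX
import Pool.Agent.GM.RdHyp
import Pool.Agent.GMC.PairPT

/-!
# GM/ColdXs: the format `ColdX` (coins averaged) for one vertex, for all vertices but one, and for moving faces (row A10,
helper83)

* `cold_optionF`, `cold_transferF` : transfer of coldness (GM/Transfer) for functions `F ≥ 0` in place of events;
* `HotXe` : the natural view `x` has been hot (coin averaged); `HotXe.mono`, `HotXe.fac`, `HotXe_cold`, `HotXe_known`,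
  `HotXe_known_next`; **`coldX_erase`** : coldness of `univ \ {x}` from the mass of `HotXe`;
* `TTX_hidden`, **`coldX_single`** : rarity, one vertex `i`, from the product tests `PTm` of the face `i`;
* `RSf N h F` : the moving faces `F` of `binSys` as families with public randomness and coin; **`coldS_single`** and
  **`coldS_pair`** : coldness of one vertex and of a pair directly from `Rare` and `Future` of the faces.
-/

set_option autoImplicit false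
set_option linter.unusedSectionVars false

namespace Pool.Agent.GM

open Finset Pool.Agent.PWZ Pool.Agent.M3 Pool.Agent.M3.Bin
open Pool.Agent.M3.Mod (ex nd av dl pnd SC cel CL card_CL flr_add_lt' av_round)

noncomputable section

variable {k N : ℕ} {ι Θ P Ξ : Type} [Fintype ι] [DecidableEq ι] (c0 : V k) [Fintype Θ] [Nonempty Θ] [Fintype P]
  [Nonempty P] [Fintype Ξ]

/-- the points of a cell with one rounded node, outside the hot set: at most a natural class; functions `F ≥ 0` -/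
theorem cold_optionF (i : ι) {h e s : ℕ} (he : e ≤ N) (hN : N ≤ k) (hs : s ≤ e - (h + 3)) {ρ : ℝ} (hρ : 0 ≤ ρ)
    {F : Sq k N ι Θ P → ℝ} {Hot : Sq k N ι Θ P → Prop} (hF0 : ∀ ω, 0 ≤ F ω)
    (hB : Fac (fun ω => (th ω, fun j => vx j ω, Gm c0 h e ω)) F)
    (hHot : ∀ ω, ¬ Hot ω → Pm.ce (fun ω => (th ω, Zn i e ω, ot i ω)) F ω ≤ ρ)
    (ω : Sq k N ι Θ P) (g : V k × ℕ) :
    ∑ x ∈ CL (P := P) s (vx i ω).2, F (upd i x ω) * ind (¬ Hot (upd i x ω) ∧ Gm c0 h e (upd i x ω) = g) ≤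
      ρ * ((Fintype.card P : ℝ) * 2 ^ e) := by
  classical
  have hP : (0 : ℝ) < (Fintype.card P : ℝ) := Nat.cast_pos.mpr Fintype.card_pos
  set G : Finset (P × V k) := (CL (P := P) s (vx i ω).2).filter
    (fun x => ¬ Hot (upd i x ω) ∧ Gm c0 h e (upd i x ω) = g) with hG
  have hsum : ∑ x ∈ CL (P := P) s (vx i ω).2, F (upd i x ω) * ind (¬ Hot (upd i x ω) ∧ Gm c0 h e (upd i x ω) = g) =
      ∑ x ∈ G, F (upd i x ω) := by
    rw [hG, Finset.sum_filter]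
    refine Finset.sum_congr rfl fun x _ => ?_
    by_cases hx : ¬ Hot (upd i x ω) ∧ Gm c0 h e (upd i x ω) = g
    · rw [ind_of hx, if_pos hx, mul_one]
    · rw [ind_not hx, if_neg hx, mul_zero]
  rw [hsum]
  rcases G.eq_empty_or_nonempty with hemp | hne
  · rw [hemp, Finset.sum_empty]
    positivity
  have hek : e ≤ k := he.trans hN
  have hsk : s ≤ k := (hs.trans (Nat.sub_le _ _)).trans hek
  set u : V k := flr s (vx i ω).2 with hu
  set W : ℕ := nz ω % 2 ^ e with hW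
  have hWlt : W < 2 ^ e := Nat.mod_lt _ (by positivity)
  -- offsets
  have hoff : ∀ x ∈ G, (x.2 - u).val < 2 ^ s ∧ x.2 = u + (((x.2 - u).val : ℕ) : V k) := by
    intro x hx
    rw [hG, Finset.mem_filter] at hx
    have hx1 := hx.1
    unfold CL at hx1
    rw [Finset.mem_filter] at hx1
    obtain ⟨o, ho, hv⟩ := flr_add_rem s x.2
    rw [hx1.2, ← hu] at hv
    have h1 : x.2 - u = (o : V k) := by rw [hv]; ring
    have h2 : (x.2 - u).val = o := by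
      rw [h1]
      exact ZMod.val_natCast_of_lt (ho.trans_le (Nat.pow_le_pow_right (by norm_num) hsk))
    rw [h2]
    exact ⟨ho, hv⟩
  -- the reference point
  have hx0 : ∃ x0 ∈ G, ∀ x ∈ G, (x.2 - u).val ≤ W + (x0.2 - u).val ∧ W + (x0.2 - u).val - (x.2 - u).val < 2 ^ e := by
    rcases Nat.lt_or_ge W (2 ^ s) with hWs | hWs
    · obtain ⟨x0, hx0, hmax⟩ := Finset.exists_max_image G (fun x => (x.2 - u).val) hne
      refine ⟨x0, hx0, fun x hx => ?_⟩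
      have h1 := hmax x hx
      have h2 := (hoff x0 hx0).1
      refine ⟨by omega, ?_⟩
      rcases Nat.eq_zero_or_pos s with h0 | h0
      · subst h0
        simp only [pow_zero, Nat.lt_one_iff] at hWs h2
        have : 0 < 2 ^ e := by positivity
        omega
      · have h3 : 2 ^ (s + 1) ≤ 2 ^ e := Nat.pow_le_pow_right (by norm_num) (by omega)
        rw [pow_succ] at h3
        omega
    · obtain ⟨x0, hx0, hmin⟩ := Finset.exists_min_image G (fun x => (x.2 - u).val) hne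
      refine ⟨x0, hx0, fun x hx => ?_⟩
      have h1 := hmin x hx
      have h2 := (hoff x hx).1
      constructor <;> omega
  obtain ⟨x0, hx0G, hx0⟩ := hx0
  set ω0 := upd i x0 ω with hω0
  have hx0G' := hx0G
  rw [hG, Finset.mem_filter] at hx0G'
  obtain ⟨-, hH0, hg0⟩ := hx0G'
  have hnz0 : nz ω0 = nz ω := rfl
  have hZ0 : (Zn i e ω0).1 = x0.2 + ((W : ℕ) : V k) := by
    change Bin.pos e (vx i ω0).2 (nz ω0) = _
    unfold Bin.pos
    rw [hω0, vx_upd]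
    rfl
  -- the injection
  set n : P × V k → ℕ := fun x => W + (x0.2 - u).val - (x.2 - u).val with hn
  have hnx : ∀ x ∈ G, (Zn i e ω0).1 - ((n x : ℕ) : V k) = x.2 := by
    intro x hx
    have h1 := (hoff x0 hx0G).2
    have h2 := (hoff x hx).2
    rw [hZ0, hn]
    simp only
    rw [Nat.cast_sub (hx0 x hx).1, Nat.cast_add]
    linear_combination h1 - h2
  have hB1 : ∀ x ∈ G, F (updh i e he x.1 (n x) ω0) = F (upd i x ω) := by
    intro x hx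
    have hlt := (hx0 x hx).2
    have hx' := hx
    rw [hG, Finset.mem_filter] at hx'
    obtain ⟨-, -, hgx⟩ := hx'
    refine hB _ _ (Prod.ext rfl (Prod.ext ?_ ?_))
    · funext j
      by_cases hj : j = i
      · subst hj
        change vx j (updh j e he x.1 (n x) ω0) = vx j (upd j x ω)
        rw [vx_updh, vx_upd, hnx x hx]
      · change vx j (updh i e he x.1 (n x) ω0) = vx j (upd i x ω)
        rw [vx_updh_of_ne hj, hω0, vx_upd_of_ne hj, vx_upd_of_ne hj]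
    · change Gm c0 h e (updh i e he x.1 (n x) ω0) = Gm c0 h e (upd i x ω)
      rw [Gm_updh c0 i h he x.1 hlt, hg0, hgx]
  have hce := hHot ω0 hH0
  rw [ce_hidden i he] at hce
  have hcard : (0 : ℝ) < (Fintype.card P : ℝ) * 2 ^ e := by positivity
  rw [inv_mul_le_iff₀ hcard] at hce
  rw [mul_comm ρ]
  refine le_trans ?_ hce
  have h1 : ∑ x ∈ G, F (upd i x ω) ≤ ∑ q ∈ (univ : Finset P) ×ˢ range (2 ^ e), F (updh i e he q.1 q.2 ω0) := by
    have h2 : ∑ x ∈ G, F (upd i x ω) = ∑ q ∈ G.image (fun x => (x.1, n x)), F (updh i e he q.1 q.2 ω0) := by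
      rw [Finset.sum_image]
      · exact Finset.sum_congr rfl fun x hx => (hB1 x hx).symm
      · intro x hx y hy hxy
        simp only [Prod.mk.injEq] at hxy
        refine Prod.ext hxy.1 ?_
        rw [← hnx x hx, ← hnx y hy, hxy.2]
    rw [h2]
    have h3 : G.image (fun x => (x.1, n x)) ⊆ (univ : Finset P) ×ˢ range (2 ^ e) := by
      intro q hq
      obtain ⟨x, hx, rfl⟩ := Finset.mem_image.mp hq
      rw [Finset.mem_product, Finset.mem_range]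
      exact ⟨Finset.mem_univ _, (hx0 x hx).2⟩
    exact Finset.sum_le_sum_of_subset_of_nonneg h3 fun q _ _ => hF0 _
  rw [Finset.sum_product] at h1
  exact h1

/-- TRANSFER OF COLDNESS, functions `F ≥ 0` -/
theorem cold_transferF (i : ι) {h e s : ℕ} (he : e ≤ N) (hN : N ≤ k) (hs : s ≤ e - (h + 3)) {ρ : ℝ} (hρ : 0 ≤ ρ)
    {F : Sq k N ι Θ P → ℝ} {Hot : Sq k N ι Θ P → Prop} (hF0 : ∀ ω, 0 ≤ F ω)
    (hB : Fac (fun ω => (th ω, fun j => vx j ω, Gm c0 h e ω)) F)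
    (hHot : ∀ ω, ¬ Hot ω → Pm.ce (fun ω => (th ω, Zn i e ω, ot i ω)) F ω ≤ ρ)
    (ω : Sq k N ι Θ P) :
    Pm.ce (fun ω => (th ω, ot i ω, nz ω, flr s (vx i ω).2)) (fun v => F v * ind (¬ Hot v)) ω ≤
      2 * 2 ^ (e - s) * ρ := by
  have hek : e ≤ k := he.trans hN
  have hse : s ≤ e := hs.trans (Nat.sub_le _ _)
  have hsk : s ≤ k := hse.trans hek
  have hP : (0 : ℝ) < (Fintype.card P : ℝ) := Nat.cast_pos.mpr Fintype.card_pos
  rw [ce_cell i s, card_CL hsk, inv_mul_le_iff₀ (by positivity)]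
  set u : V k := flr s (vx i ω).2 with hu
  set y0 : V k := u + ((nz ω % 2 ^ e : ℕ) : V k) + co c0 i ω with hy0
  set g1 : V k × ℕ := (flr (e - h) y0, nz ω / 2 ^ e) with hg1
  set g2 : V k × ℕ := (flr (e - h) y0 + ((2 ^ (e - h) : ℕ) : V k), nz ω / 2 ^ e) with hg2
  have hopt : ∀ x ∈ CL (P := P) s (vx i ω).2, Gm c0 h e (upd i x ω) = g1 ∨ Gm c0 h e (upd i x ω) = g2 := by
    intro x hx
    unfold CL at hx
    rw [Finset.mem_filter] at hx
    obtain ⟨o, ho, hv⟩ := flr_add_rem s x.2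
    rw [hx.2, ← hu] at hv
    have h1 : (Yn c0 e (upd i x ω)).1 = y0 + (o : V k) := by
      rw [Yn_eq c0 i, co_fac c0 i _ _ (ot_upd i x ω)]
      change Bin.pos e (vx i (upd i x ω)).2 (nz ω) + co c0 i ω = _
      unfold Bin.pos
      rw [vx_upd, hy0]
      conv_lhs => rw [hv]
      ring
    have h2 : Gm c0 h e (upd i x ω) = (flr (e - h) (y0 + (o : V k)), nz ω / 2 ^ e) := by
      rw [← h1]
      rfl
    have h3 : o < 2 ^ (e - h) := ho.trans_le (Nat.pow_le_pow_right (by norm_num) (by omega))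
    rcases flr_add_lt' (s := e - h) (by omega) y0 h3 with h4 | h4
    · left; rw [h2, h4]
    · right; rw [h2, h4]
  have h1 := cold_optionF c0 i he hN hs hρ hF0 hB hHot ω g1
  have h2 := cold_optionF c0 i he hN hs hρ hF0 hB hHot ω g2
  have h3 : ∑ x ∈ CL (P := P) s (vx i ω).2, F (upd i x ω) * ind (¬ Hot (upd i x ω)) ≤
      ∑ x ∈ CL (P := P) s (vx i ω).2, F (upd i x ω) * ind (¬ Hot (upd i x ω) ∧ Gm c0 h e (upd i x ω) = g1) +
      ∑ x ∈ CL (P := P) s (vx i ω).2, F (upd i x ω) * ind (¬ Hot (upd i x ω) ∧ Gm c0 h e (upd i x ω) = g2) := by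
    rw [← Finset.sum_add_distrib]
    refine Finset.sum_le_sum fun x hx => ?_
    rw [← mul_add]
    refine mul_le_mul_of_nonneg_left ?_ (hF0 _)
    by_cases hq : ¬ Hot (upd i x ω)
    · rw [ind_of hq]
      rcases hopt x hx with h4 | h4
      · rw [ind_of (⟨hq, h4⟩ : ¬ Hot (upd i x ω) ∧ Gm c0 h e (upd i x ω) = g1)]
        linarith [ind_nonneg (¬ Hot (upd i x ω) ∧ Gm c0 h e (upd i x ω) = g2)]
      · rw [ind_of (⟨hq, h4⟩ : ¬ Hot (upd i x ω) ∧ Gm c0 h e (upd i x ω) = g2)]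
        linarith [ind_nonneg (¬ Hot (upd i x ω) ∧ Gm c0 h e (upd i x ω) = g1)]
    · rw [ind_not hq]
      exact add_nonneg (ind_nonneg _) (ind_nonneg _)
  refine (h3.trans (add_le_add h1 h2)).trans (le_of_eq ?_)
  have h5 : (2 : ℝ) ^ e = 2 ^ (e - s) * 2 ^ s := by rw [← pow_add, Nat.sub_add_cancel hse]
  rw [h5]
  ring

/-! ## the natural view -/

/-- the natural view `x` has been hot, coins averaged -/
def HotXe (h : ℕ) (R : Θ → Ξ → ι → Fam k ι P) (wx : Ξ → ℝ) (r0 ρ : ℝ) (x : ι) (t : ℕ) (ω : Sq k N ι Θ P) : Prop :=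
  ∃ u ≤ N, u ≤ t ∧ 1 ≤ u ∧
    ρ < Pm.ce (Kn x (ex N u)) (fun v => ∑ ξ, wx ξ * ind (r0 ≤ |TT c0 h (R (th v) ξ) (ex N u) v|)) ω

theorem HotXe.mono {h : ℕ} {R : Θ → Ξ → ι → Fam k ι P} {wx : Ξ → ℝ} {r0 ρ : ℝ} {x : ι} {t t' : ℕ} (htt : t ≤ t')
    {ω : Sq k N ι Θ P} (hh : HotXe c0 h R wx r0 ρ x t ω) : HotXe c0 h R wx r0 ρ x t' ω := by
  obtain ⟨u, h1, h2, h3, h4⟩ := hh
  exact ⟨u, h1, h2.trans htt, h3, h4⟩

theorem HotXe.fac (h : ℕ) (R : Θ → Ξ → ι → Fam k ι P) (wx : Ξ → ℝ) (r0 ρ : ℝ) (x : ι) (t : ℕ) {v w : Sq k N ι Θ P}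
    (hv : Kn x (ex N t) v = Kn x (ex N t) w) : HotXe c0 h R wx r0 ρ x t v ↔ HotXe c0 h R wx r0 ρ x t w := by
  unfold HotXe
  refine exists_congr fun u => and_congr_right fun _ => and_congr_right fun hu => and_congr_right fun _ => ?_
  have h1 : Kn x (ex N u) v = Kn x (ex N u) w := (filt_Kn x).le hu v w hv
  rw [FP.ce_fac _ (Kn x (ex N u)) _ v w h1]

/-- transfer to the class of the losses of the set `univ \ {x}` -/
theorem HotXe_cold (x : ι) {h0 t r' : ℕ} (h1 : 1 ≤ t) (ht : t ≤ N) (hN : N ≤ k) (hs : r' ≤ ex N t - (h0 + 3))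
    {R : Θ → Ξ → ι → Fam k ι P} {wx : Ξ → ℝ} (wx0 : ∀ ξ, 0 ≤ wx ξ) {B r0 r ρ : ℝ} (hB : ∀ θ ξ j, FLe B (R θ ξ j))
    (hr : r0 + 2 * (2 * B ^ Fintype.card ι * ((2 : ℝ) ^ h0)⁻¹) ≤ r) (hρ : 0 ≤ ρ) (w : Sq k N ι Θ P) :
    Pm.ce (Zk (univ.erase x) r') (fun v => ∑ ξ, wx ξ * ind (r ≤ |TT c0 h0 (R (th v) ξ) (ex N t) v| ∧
      ¬ HotXe c0 h0 R wx r0 ρ x t v)) w ≤ 2 * 2 ^ (ex N t - r') * ρ := by
  set δ : ℝ := 2 * B ^ Fintype.card ι * ((2 : ℝ) ^ h0)⁻¹ with hδ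
  have he : ex N t ≤ N := Nat.sub_le _ _
  have g1 := cold_transferF (Θ := Θ) (P := P) c0 x he hN hs hρ
    (F := fun v : Sq k N ι Θ P => ∑ ξ, wx ξ * ind (r - δ ≤ |TTr c0 h0 (R (th v) ξ) (ex N t) v|))
    (Hot := fun v => HotXe c0 h0 R wx r0 ρ x t v)
    (fun v => Finset.sum_nonneg fun ξ _ => mul_nonneg (wx0 ξ) (ind_nonneg _)) ?_ ?_ w
  · rw [FP.ce_congr_map _ (Zk_erase_fac' x r') (Zk_erase_fac x r')]
    refine le_trans (FP.ce_mono _ (fun v _ => ?_) w) g1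
    rw [Finset.sum_mul]
    refine Finset.sum_le_sum fun ξ _ => ?_
    rw [mul_assoc]
    refine mul_le_mul_of_nonneg_left ?_ (wx0 ξ)
    by_cases g : r ≤ |TT c0 h0 (R (th v) ξ) (ex N t) v| ∧ ¬ HotXe c0 h0 R wx r0 ρ x t v
    · obtain ⟨g2, g3⟩ := g
      have g4 := TTr_close c0 h0 (hB (th v) ξ) (ex N t) v
      have g5 := abs_sub_abs_le_abs_sub (TT c0 h0 (R (th v) ξ) (ex N t) v) (TTr c0 h0 (R (th v) ξ) (ex N t) v)
      rw [ind_of (⟨g2, g3⟩ : r ≤ |TT c0 h0 (R (th v) ξ) (ex N t) v| ∧ ¬ HotXe c0 h0 R wx r0 ρ x t v), ind_of g3,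
        ind_of (by linarith : r - δ ≤ |TTr c0 h0 (R (th v) ξ) (ex N t) v|), one_mul]
    · rw [ind_not g]
      exact mul_nonneg (ind_nonneg _) (ind_nonneg _)
  · intro v u hv
    simp only [Prod.mk.injEq] at hv
    obtain ⟨g1, g2, g3⟩ := hv
    refine Finset.sum_congr rfl fun ξ _ => ?_
    have g4 := TTr_fac c0 h0 (R (th u) ξ) (ex N t) v u (Prod.ext g2 g3)
    rw [g1]
    simp only [g4]
  · intro ω hω
    have g2 : Pm.ce (fun ω : Sq k N ι Θ P => (th ω, Zn x (ex N t) ω, ot x ω))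
        (fun v => ∑ ξ, wx ξ * ind (r - δ ≤ |TTr c0 h0 (R (th v) ξ) (ex N t) v|)) ω ≤
        Pm.ce (Kn x (ex N t)) (fun v => ∑ ξ, wx ξ * ind (r0 ≤ |TT c0 h0 (R (th v) ξ) (ex N t) v|)) ω := by
      refine FP.ce_mono _ (fun v _ => ?_) ω
      refine Finset.sum_le_sum fun ξ _ => mul_le_mul_of_nonneg_left (ind_mono fun g3 => ?_) (wx0 ξ)
      have g4 := TTr_close c0 h0 (hB (th v) ξ) (ex N t) v
      have g5 := abs_sub_abs_le_abs_sub (TTr c0 h0 (R (th v) ξ) (ex N t) v) (TT c0 h0 (R (th v) ξ) (ex N t) v)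
      rw [abs_sub_comm] at g5
      linarith
    refine g2.trans ?_
    by_contra hcon
    exact hω ⟨t, ht, le_rfl, h1, not_le.mp hcon⟩

/-- the natural class itself -/
theorem HotXe_known (x : ι) {h0 t : ℕ} (h1 : 1 ≤ t) (ht : t ≤ N)
    {R : Θ → Ξ → ι → Fam k ι P} {wx : Ξ → ℝ} (wx0 : ∀ ξ, 0 ≤ wx ξ) {r0 r ρ : ℝ} (hr : r0 ≤ r) (hρ : 0 ≤ ρ)
    (w : Sq k N ι Θ P) :
    Pm.ce (Kn x (ex N t)) (fun v => ∑ ξ, wx ξ * ind (r ≤ |TT c0 h0 (R (th v) ξ) (ex N t) v| ∧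
      ¬ HotXe c0 h0 R wx r0 ρ x t v)) w ≤ ρ := by
  have hfac : Fac (Kn x (ex N t)) (fun v => ind (¬ HotXe c0 h0 R wx r0 ρ x t v)) :=
    Fac.ind (fun v w h => not_congr (HotXe.fac c0 h0 R wx r0 ρ x t h))
  have g1 : Pm.ce (Kn x (ex N t)) (fun v => ∑ ξ, wx ξ * ind (r ≤ |TT c0 h0 (R (th v) ξ) (ex N t) v| ∧
      ¬ HotXe c0 h0 R wx r0 ρ x t v)) w ≤ Pm.ce (Kn x (ex N t)) (fun v => ind (¬ HotXe c0 h0 R wx r0 ρ x t v) *
        ∑ ξ, wx ξ * ind (r0 ≤ |TT c0 h0 (R (th v) ξ) (ex N t) v|)) w := by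
    refine FP.ce_mono _ (fun v _ => ?_) w
    rw [Finset.mul_sum]
    refine Finset.sum_le_sum fun ξ _ => ?_
    rw [mul_left_comm]
    refine mul_le_mul_of_nonneg_left ?_ (wx0 ξ)
    by_cases g : r ≤ |TT c0 h0 (R (th v) ξ) (ex N t) v| ∧ ¬ HotXe c0 h0 R wx r0 ρ x t v
    · rw [ind_of g, ind_of g.2, ind_of (hr.trans g.1), one_mul]
    · rw [ind_not g]
      exact mul_nonneg (ind_nonneg _) (ind_nonneg _)
  refine g1.trans ?_
  rw [FP.ce_mul _ hfac]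
  by_cases h : HotXe c0 h0 R wx r0 ρ x t w
  · rw [ind_not (not_not.mpr h), zero_mul]; exact hρ
  · rw [ind_of h, one_mul]
    by_contra hcon
    exact h ⟨t, ht, le_rfl, h1, not_le.mp hcon⟩

/-- the natural class of the next time -/
theorem HotXe_known_next (x : ι) {h0 t : ℕ} (h1 : 1 ≤ t) (ht : t ≤ N)
    {R : Θ → Ξ → ι → Fam k ι P} {wx : Ξ → ℝ} (wx0 : ∀ ξ, 0 ≤ wx ξ) {r0 r ρ : ℝ} (hr : r0 ≤ r) (hρ : 0 ≤ ρ)
    (w : Sq k N ι Θ P) :
    Pm.ce (Kn x (ex N (t + 1))) (fun v => ∑ ξ, wx ξ * ind (r ≤ |TT c0 h0 (R (th v) ξ) (ex N t) v| ∧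
      ¬ HotXe c0 h0 R wx r0 ρ x t v)) w ≤ 2 * ρ :=
  (ce_Kn_dbl x t (fun _ => Finset.sum_nonneg fun ξ _ => mul_nonneg (wx0 ξ) (ind_nonneg _)) w).trans
    (mul_le_mul_of_nonneg_left (HotXe_known c0 x h1 ht wx0 hr hρ w) zero_le_two)

/-- **ALL VERTICES BUT `x`**, from the natural view `x` -/
theorem coldX_erase (x : ι) {h0 D : ℕ} (hN : N ≤ k) {R : Θ → Ξ → ι → Fam k ι P} {wx : Ξ → ℝ} (wx0 : ∀ ξ, 0 ≤ wx ξ)
    (wx1 : ∑ ξ, wx ξ = 1) {B r0 r ρ e : ℝ} (hB : ∀ θ ξ j, FLe B (R θ ξ j))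
    (hr : r0 + 2 * (2 * B ^ Fintype.card ι * ((2 : ℝ) ^ h0)⁻¹) ≤ r) (hρ : 0 ≤ ρ)
    (hm : (Pm : FP (Sq k N ι Θ P)).Pr (fun ω => HotXe c0 h0 R wx r0 ρ x N ω) ≤ e) :
    ColdX c0 N h0 R wx (univ.erase x) D r (2 * 2 ^ D * ρ) e (fun t w _ => HotXe c0 h0 R wx r0 ρ x t w) where
  inc t ω _ h := HotXe.mono c0 (Nat.le_succ t) h
  mass := by
    refine le_trans (le_of_eq (FP.E_congr _ fun w _ => ?_)) hm
    rw [← Finset.sum_mul, wx1, one_mul]
  cold t h1 ht r' h2 h3 w := by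
    refine (HotXe_cold c0 x h1 ht hN h2 wx0 hB hr hρ w).trans ?_
    refine mul_le_mul_of_nonneg_right (mul_le_mul_of_nonneg_left ?_ zero_le_two) hρ
    exact pow_le_pow_right₀ (by norm_num) h3

/-! ## one vertex -/

theorem coar_al {h e : ℕ} {g : V k × ℕ} (hg : flr (e - h) g.1 = g.1) : coar h e g = g := by
  unfold coar
  rw [hg]

/-- RARITY at one vertex, coins averaged: only the face `i` sees the coin -/
theorem TTX_hidden (i : ι) {h e : ℕ} (he : e ≤ N) (hN : N ≤ k) {R : Θ → Ξ → ι → Fam k ι P} {wx : Ξ → ℝ}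
    (wx0 : ∀ ξ, 0 ≤ wx ξ) {θ r r1 : ℝ} (hθ : 0 ≤ θ) (hR : ∀ θ ξ l, FOn ({l}ᶜ : Set ι) (R θ ξ l))
    (hR1 : ∀ θ ξ l, FLe 1 (R θ ξ l)) (hoth : ∀ θ ξ ξ' j, j ≠ i → R θ ξ j = R θ ξ' j)
    (hPT : ∀ θ', GMC.PTm wx i h N (fun ξ => R θ' ξ i) θ r) (hr : r + 2 * ((2 : ℝ) ^ h)⁻¹ ≤ r1) (ω : Sq k N ι Θ P) :
    Pm.ce (Zk {i} (e - (h + 3))) (fun v => ∑ ξ, wx ξ * ind (r1 ≤ |TT c0 h (R (th v) ξ) e v|)) ω ≤
      Fintype.card ι * θ := by
  classical
  rcases isEmpty_or_nonempty Ξ with hΞ | ⟨⟨ξ0⟩⟩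
  · simp only [Finset.univ_eq_empty, Finset.sum_empty]
    rw [FP.ce_const _ _ _ (Pm_ne ω)]
    positivity
  set V0 : V k × ℕ → ι → (ι → P × V k) → V k → ℝ := fun g w x =>
    R (th ω) ξ0 w e g (Function.update x i (vx i ω)) with hV0
  set G : V k × ℕ → Sq k N ι Θ P → ℝ := fun g v => ∑ ξ, wx ξ * ind (r ≤ |av e g.1 (fun d =>
    R (th ω) ξ i e g (vs v) d * ∏ w ∈ univ.erase i, V0 g w (vs v) d)|) with hG
  have h1 := ce_opts (Θ := Θ) (P := P) (N := N) c0 i (h := h) (e := e) (he.trans hN)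
    (X := Zk {i} (e - (h + 3))) (G := G) (by
      intro a b hab
      unfold Zk ku cl at hab
      simp only [Prod.mk.injEq] at hab
      obtain ⟨h1, h2, h3, h4⟩ := hab
      have h5 : vx i a = vx i b := congrFun h2 ⟨i, Finset.mem_singleton_self i⟩
      unfold Qn
      refine Prod.ext h1 (Prod.ext ?_ ?_)
      · unfold Zn; rw [h5, h3]
      · funext l
        exact congrFun h4 ⟨l.1, by simpa using l.2⟩)
    (fun g v => Finset.sum_nonneg fun ξ _ => mul_nonneg (wx0 ξ) (ind_nonneg _)) hθ ω (by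
      intro g hg
      have hdep : ∀ w, w ≠ i → DependsOn (V0 g w) ({i, w}ᶜ : Set ι) := by
        intro w _ x y hxy
        refine hR (th ω) ξ0 w e g fun j hj => ?_
        by_cases hji : j = i
        · subst hji
          rw [Function.update_self, Function.update_self]
        · rw [Function.update_of_ne hji, Function.update_of_ne hji]
          refine hxy j fun hmem => ?_
          rcases hmem with h6 | h6
          · exact hji h6
          · exact hj h6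
      have hV1 : ∀ w x d, |V0 g w x d| ≤ 1 := fun w x d => hR1 _ _ _ _ _ _ _
      refine core_Z (F := fun x => ∑ ξ, wx ξ * ind (r ≤ |av e g.1 (fun d =>
        R (th ω) ξ i e g x d * ∏ w ∈ univ.erase i, V0 g w x d)|)) i ?_ ?_ ω
      · intro c
        have h2 := hPT (th ω) e he g c (V0 g) hdep hV1
        rw [coar_al hg] at h2
        refine le_trans (le_of_eq ?_) h2
        rw [Finset.sum_comm]
        refine Finset.sum_congr rfl fun ξ _ => ?_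
        rw [← Finset.mul_sum, Finset.card_filter]
        push_cast
        congr 1
      · intro x y hxy
        refine Finset.sum_congr rfl fun ξ _ => ?_
        have h3 := PT_dep (R := R (th ω) ξ i) (hR (th ω) ξ i) e g r hdep hxy
        simp only at h3
        rw [h3])
  refine le_trans (Pool.Agent.M3.Mod.ce_mono_fib _ ω fun v hv => ?_) h1
  unfold Zk ku cl at hv
  simp only [Prod.mk.injEq] at hv
  obtain ⟨h2, h3, -, -⟩ := hv
  have h5 : vx i v = vx i ω := congrFun h3 ⟨i, Finset.mem_singleton_self i⟩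
  refine Finset.sum_le_sum fun ξ _ => mul_le_mul_of_nonneg_left (ind_mono fun hq => ?_) (wx0 ξ)
  have h6 : Function.update (vs v) i (vx i ω) = vs v := by
    rw [← h5]
    exact Function.update_eq_self i (vs v)
  have h7 : (fun d => R (th ω) ξ i e (Gm c0 h e v) (vs v) d * ∏ w ∈ univ.erase i, V0 (Gm c0 h e v) w (vs v) d) =
      fun d => ∏ w, fv c0 h (R (th v) ξ w) e v d := by
    funext d
    rw [← Finset.mul_prod_erase univ (fun w => fv c0 h (R (th v) ξ w) e v d) (mem_univ i)]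
    have h8 : R (th ω) ξ i e (Gm c0 h e v) (vs v) d = fv c0 h (R (th v) ξ i) e v d := by
      rw [← h2]
      rfl
    rw [h8]
    congr 1
    refine Finset.prod_congr rfl fun w hw => ?_
    simp only [hV0]
    rw [h6, hoth (th ω) ξ0 ξ w (Finset.ne_of_mem_erase hw), ← h2]
    rfl
  rw [h7]
  have h9 := av_round h e (Yn c0 e v).1 (f := fun d => ∏ w, fv c0 h (R (th v) ξ w) e v d) (B := 1) (fun d => by
    rw [Finset.abs_prod]
    exact Finset.prod_le_one (fun _ _ => abs_nonneg _) fun w _ => hR1 _ _ _ _ _ _ _)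
  have h10 := abs_sub_abs_le_abs_sub (av e (Yn c0 e v).1 (fun d => ∏ w, fv c0 h (R (th v) ξ w) e v d))
    (av e (flr (e - h) (Yn c0 e v).1) (fun d => ∏ w, fv c0 h (R (th v) ξ w) e v d))
  have h11 : (Gm c0 h e v).1 = flr (e - h) (Yn c0 e v).1 := rfl
  rw [h11]
  unfold TT at hq
  linarith

/-- finer cells of the unknown vertices -/
theorem ce_Zk_fine (U : Finset ι) {r r' : ℕ} (hr : r' ≤ r) (hrk : r ≤ k) {f : Sq k N ι Θ P → ℝ} (hf : ∀ ω, 0 ≤ f ω)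
    (ω : Sq k N ι Θ P) : Pm.ce (Zk U r') f ω ≤ 2 ^ (Fintype.card ι * (r - r')) * Pm.ce (Zk U r) f ω := by
  classical
  set o : Fin (Fintype.card {j : ι // j ∉ U}) → ι := fun l => ((Fintype.equivFin {j : ι // j ∉ U}).symm l).1 with ho
  have hinj : Function.Injective o := fun a b hab => (Fintype.equivFin {j : ι // j ∉ U}).symm.injective (Subtype.ext hab)
  have hran : ∀ j, j ∈ U ↔ j ∉ Set.range o := by
    intro j
    constructor
    · rintro hj ⟨l, rfl⟩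
      exact ((Fintype.equivFin {j : ι // j ∉ U}).symm l).2 hj
    · intro hj
      by_contra hcon
      exact hj ⟨Fintype.equivFin {j : ι // j ∉ U} ⟨j, hcon⟩, by simp [ho]⟩
  rw [ce_Zk_Zc hran 0, ce_Zk_Zc hran 0]
  have h1 := Zc_fine hinj (c := (0, fun _ => r)) (c' := (0, fun _ => r')) (fun _ => hrk) (fun _ => hr) hf ω
  simp only [Finset.sum_const, Finset.card_univ, Fintype.card_fin, smul_eq_mul] at h1
  refine h1.trans (mul_le_mul_of_nonneg_right ?_ (FP.ce_nonneg _ (fun v _ => hf v) ω))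
  exact pow_le_pow_right₀ (by norm_num) (Nat.mul_le_mul_right _ (Fintype.card_subtype_le _))

/-- **ONE VERTEX `i` IS COLD**: rarity of the face `i`, coins averaged; only the face `i` sees the coin -/
theorem coldX_single (i : ι) {h0 D : ℕ} (hN : N ≤ k) {R : Θ → Ξ → ι → Fam k ι P} {wx : Ξ → ℝ}
    (wx0 : ∀ ξ, 0 ≤ wx ξ) {θ r r1 : ℝ} (hθ : 0 ≤ θ) (hR : ∀ θ ξ l, FOn ({l}ᶜ : Set ι) (R θ ξ l))
    (hR1 : ∀ θ ξ l, FLe 1 (R θ ξ l)) (hoth : ∀ θ ξ ξ' j, j ≠ i → R θ ξ j = R θ ξ' j)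
    (hPT : ∀ θ', GMC.PTm wx i h0 N (fun ξ => R θ' ξ i) θ r) (hr : r + 2 * ((2 : ℝ) ^ h0)⁻¹ ≤ r1) :
    ColdX c0 N h0 R wx {i} D r1 (2 ^ (Fintype.card ι * D) * (Fintype.card ι * θ)) 0 (fun _ _ _ => False) where
  inc _ _ _ h := h
  mass := by
    refine le_of_eq ?_
    have h1 : ∀ w : Sq k N ι Θ P, ∑ ξ, wx ξ * ind False = 0 := fun w => by
      simp [ind_not (fun h : False => h)]
    rw [FP.E_congr _ fun w _ => h1 w]
    exact FP.E_const _ 0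
  cold t h1 ht r' h2 h3 w := by
    have h4 : Pm.ce (Zk {i} r') (fun v => ∑ ξ, wx ξ * ind (r1 ≤ |TT c0 h0 (R (th v) ξ) (ex N t) v| ∧ ¬ False)) w ≤
        Pm.ce (Zk {i} r') (fun v => ∑ ξ, wx ξ * ind (r1 ≤ |TT c0 h0 (R (th v) ξ) (ex N t) v|)) w :=
      FP.ce_mono _ (fun v _ => Finset.sum_le_sum fun ξ _ => mul_le_mul_of_nonneg_left (ind_mono fun h => h.1) (wx0 ξ)) w
    have hek : ex N t - (h0 + 3) ≤ k := (Nat.sub_le _ _).trans ((Nat.sub_le _ _).trans hN)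
    refine h4.trans ((ce_Zk_fine {i} h2 hek (fun v => Finset.sum_nonneg fun ξ _ => mul_nonneg (wx0 ξ)
      (ind_nonneg _)) w).trans ?_)
    refine mul_le_mul ?_ (TTX_hidden c0 i (Nat.sub_le _ _) hN wx0 hθ hR hR1 hoth hPT hr w)
      (FP.ce_nonneg _ (fun v _ => Finset.sum_nonneg fun ξ _ => mul_nonneg (wx0 ξ) (ind_nonneg _)) w) (by positivity)
    exact pow_le_pow_right₀ (by norm_num) (Nat.mul_le_mul_left _ (by omega))

/-! ## moving faces of `binSys` -/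

section mov

variable {Q : Type} [Nonempty Ξ] [Fintype Q] [Nonempty Q]

/-- the weights of the coin -/
def wxU : Ξ → ℝ := fun _ => (Fintype.card Ξ : ℝ)⁻¹

omit [Nonempty Ξ] in
theorem wxU0 (ξ : Ξ) : 0 ≤ wxU ξ := by
  unfold wxU
  positivity

theorem wxU1 : ∑ ξ : Ξ, wxU ξ = 1 := by
  unfold wxU
  rw [Finset.sum_const, Finset.card_univ, nsmul_eq_mul]
  exact mul_inv_cancel₀ (Nat.cast_ne_zero.mpr Fintype.card_ne_zero)

/-- the moving faces as families with public randomness and coin -/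
def RSf (N h : ℕ) (F : ι → Mov Ξ ι (Q × V k) (Θ × (V k × ℕ)) (V k → ℝ)) (θ : Θ) (ξ : Ξ) (j : ι) : Fam k ι Q :=
  GMC.famS N h (F j) θ ξ

/-- ONE VERTEX, from `Rare` of its face -/
theorem coldS_single (δ i : ι) (hN : N ≤ k) {h D : ℕ} {F : ι → Mov Ξ ι (Q × V k) (Θ × (V k × ℕ)) (V k → ℝ)}
    {θ acc r1 : ℝ} (hθ : 0 ≤ θ) (hacc : 0 ≤ acc) (hd : ∀ j t g ξ, DependsOn (F j t g ξ) ({j}ᶜ : Set ι))
    (h1 : ∀ j t g ξ x d, |F j t g ξ x d| ≤ 1) (hc : ∀ j, j ≠ i → ∀ t g ξ ξ', F j t g ξ = F j t g ξ')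
    (hR : (binSys Θ Ξ Q c0 δ hN h).Rare univ i (F i) θ acc) (hr : acc + 10 * ((2 : ℝ) ^ h)⁻¹ ≤ r1) :
    ColdX c0 N h (RSf N h F) (wxU : Ξ → ℝ) {i} D r1 (2 ^ (Fintype.card ι * D) * (Fintype.card ι * θ)) 0
      (fun _ _ _ => False) :=
  coldX_single c0 i hN wxU0 hθ (fun θ ξ l => GMC.famS_on h (hd l) θ ξ) (fun θ ξ l => GMC.famS_le zero_le_one h (h1 l) θ ξ)
    (fun θ ξ ξ' j hj => GMC.famS_coin h (hc j hj) θ ξ ξ')
    (fun θ' => GMC.rare_PTm c0 δ hN h (h1 i) hθ hacc hR θ') (by linarith)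

/-- THE PAIR `a`, `b`, from `Rare` and `Future` of the two faces; only the face `a` sees the coin -/
theorem coldS_pair (n : ℕ) : ∃ C : ℝ, 0 < C ∧ ∃ c : ℕ, ∀ {k N : ℕ} {ι Θ Q Ξ : Type} [Fintype ι] [DecidableEq ι]
    [Fintype Θ] [Nonempty Θ] [Fintype Q] [Nonempty Q] [Fintype Ξ] [Nonempty Ξ]
    {a b : ι} (hab : a ≠ b) (o : GMC.Enu n a b) (σ : V k) (δ : ι) {h h' D q : ℕ} {m0 : ℝ} (hN : N ≤ k)
    (_ : 4 * n ≤ 2 ^ (h' + 3)) (_ : h ≤ h')
    {F : ι → Mov Ξ ι (Q × V k) (Θ × (V k × ℕ)) (V k → ℝ)}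
    (_ : ∀ j t g ξ, DependsOn (F j t g ξ) ({j}ᶜ : Set ι)) (_ : ∀ j t g ξ x d, |F j t g ξ x d| ≤ 1)
    (_ : ∀ j, j ≠ a → ∀ t g ξ ξ', F j t g ξ = F j t g ξ')
    {θ acc : ℝ} (_ : 0 < θ) (_ : θ * 2 ^ ((h' - h) * (n + 1)) < 1) (_ : 0 ≤ acc)
    (_ : (binSys Θ Ξ Q σ δ hN h).Rare univ a (F a) θ acc) (_ : (binSys Θ Ξ Q σ δ hN h).Rare univ b (F b) θ acc)
    {Ia Ib : Finset ι} (_ : (binSys Θ Ξ Q σ δ hN h).Future Ia (F a) m0)
    (_ : (binSys Θ Ξ Q σ δ hN h).Future Ib (F b) m0)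
    {r s' δ' : ℝ} (_ : 0 < s') (_ : s' ≤ 1) (_ : 0 < δ') (_ : δ' ≤ 1) (_ : s' + 4 * ((2 : ℝ) ^ h)⁻¹ ≤ r)
    (_ : acc + 8 * ((2 : ℝ) ^ h)⁻¹ ≤ (s' / 2) ^ (2 ^ n)) (_ : 8 ≤ 4 ^ q * δ'),
    ColdX σ N h (RSf N h F) (wxU : Ξ → ℝ) {a, b} D r (2 ^ (n * D) * ((n + 1) * δ'))
      (C * GMC.Qb ((s' ^ (2 * q) * δ') ^ (2 ^ n) / 2) m0 q (2 ^ (h' + 3)) ^ c *
        (θ * 2 ^ ((h' - h) * (n + 1)) * (1 + Real.log (1 / (θ * 2 ^ ((h' - h) * (n + 1)))))))
      (fun t w _ => HotX σ hab o h h' q ((s' ^ (2 * q) * δ') ^ (2 ^ n) / 2) (θ * 2 ^ ((h' - h) * (n + 1)))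
        (wxU : Ξ → ℝ) (RSf N h F) t w) := by
  obtain ⟨C, hC, c, h0⟩ := coldX_pair n
  refine ⟨C, hC, c, ?_⟩
  intro k N ι Θ Q Ξ _ _ _ _ _ _ _ _ a b hab o σ δ h h' D q m0 hN hn hh' F hd h1 hc θ acc hθ hθ1 hacc hRa hRb Ia Ib hFa hFb
    r s' δ' hs0 hs1 hδ0 hδ1 hr he hq
  have hA : ∀ θ ξ, FOn ({b}ᶜ : Set ι) (GMC.famS N h (F b) θ ξ) := fun θ ξ => GMC.famS_on h (hd b) θ ξ
  have hB : ∀ θ ξ, FOn ({a}ᶜ : Set ι) (GMC.famS N h (F a) θ ξ) := fun θ ξ => GMC.famS_on h (hd a) θ ξ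
  refine h0 hab o σ (h := h) (h' := h') (D := D) (q := q) (p := m0) (R := RSf N h F) (wx := (wxU : Ξ → ℝ)) wxU0 wxU1 hN hn hh'
    (fun θ ξ l => GMC.famS_on h (hd l) θ ξ) (fun θ ξ l => GMC.famS_le zero_le_one h (h1 l) θ ξ)
    (fun θ ξ ξ' j hj _ => GMC.famS_coin h (hc j hj) θ ξ ξ')
    (fun θ => Or.inr fun ξ ξ' => GMC.famS_coin h (hc b hab.symm) θ ξ ξ')
    (tt := θ * 2 ^ ((h' - h) * (n + 1))) (eps0 := acc + 8 * ((2 : ℝ) ^ h)⁻¹) (by positivity) hθ1 (by positivity)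
    (fun θ0 => (GMC.rare_PTm σ δ hN h (h1 b) hθ.le hacc hRb θ0).toPTcA hh' hN hab o σ wxU0 (hA θ0) hθ.le)
    (fun θ0 => (GMC.rare_PTm σ δ hN h (h1 a) hθ.le hacc hRa θ0).toPTcB hh' hN hab o σ wxU0 (hB θ0) hθ.le)
    (fun θ0 => GMC.chg_famS σ δ hN h hFa Θ θ0) (fun θ0 => GMC.chg_famS σ δ hN h hFb Θ θ0) hs0 hs1 hδ0 hδ1 hr he hq

end mov


end

end Pool.Agent.GM
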