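import Pool.Agent.GM.ColdBin2
import Pool.Agent.GM.ColdXs
import Pool.Agent.GM.ColdMov
import Pool.Agent.GM.PieceX3

/-!
# GM/ColdBinE: THE SETS OF `j - 1` VERTICES OF A PIECE ARE COLD, coin free (row P2, helper48)

* `hotXe_of_coldAt`, `coldX_of_coldAt` : natural coldness `GS.ColdAt` of a coin free process ==> `ColdX` of `univ.erase x`;
* `ColdSets j free S` : all nonempty sets `U` with `S U.card` are cold (`ColdsX`, with numbers) for all pieces with `j`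
  vertices (`free` : only coin free pieces); `coldSets_le2`, `coldSets_erase` (from `GS.CMAll j C`), `ColdSets.or`,
  `ColdSets.mono`; `NatCold j free` : all natural views are cold; `natCold_of_cmAll`;
* `ColdHyp`, **`coldHyp_of`** : the cold hypotheses `C`, `Cδ`, `CK` of `piece_coin`, every `j`, from `ColdSets j free (· < j)`
  and `NatCold j free`; **`cold4_free`** : `j = 4` from `GS.CMAll 4 C`; `coldj_free` : every `j`, the sets `3 ≤ |U| ≤ j - 2`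
  are a hypothesis.
-/

set_option autoImplicit false
set_option linter.unusedSectionVars false

namespace Pool.Agent.GM

open Finset Pool.Agent.PWZ Pool.Agent.M3 Pool.Agent.M3.Bin
open Pool.Agent.GMC (famS pq)
open Pool.Agent.M3.Mod (nd av)
open Pool.Agent.GM.KVer (pT)

noncomputable section

section one

variable {k N : ℕ} {ι Θ Ξ Q : Type} [Fintype ι] [DecidableEq ι] {σ : V k} [Fintype Θ] [Nonempty Θ] [Fintype Ξ]
  [Nonempty Ξ] [Fintype Q] [Nonempty Q]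

/-- the process of a coin free piece, without the coins -/
theorem pT_free (i : ι) (hN : N ≤ k) (h : ℕ) {F : ι → Mov Ξ ι (Q × V k) (Θ × (V k × ℕ)) (V k → ℝ)}
    (hc : ∀ w t g ξ ξ', F w t g ξ = F w t g ξ') (ξ0 : Ξ) {t : ℕ} (ht : t ≤ N) (w : Sq k N ι Θ (Ξ × Q)) :
    pT (binSys Θ Ξ Q σ i hN h) univ F t w =
      TT σ h (fun l => famS N h (F l) (th (pq w)) ξ0) (Mod.ex N t) (pq w) := by
  rw [pT_T0X i hN h F ht w]
  show TT σ h (fun l => famS N h (F l) (th (pq w)) (xm i w)) (Mod.ex N t) (pq w) = _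
  congr 1
  funext l
  exact GMC.famS_coin h (hc l) _ _ _

/-- the natural class of a function which does not see the coins -/
theorem ce_Kn_pq (x : ι) (e : ℕ) (f : Sq k N ι Θ Q → ℝ) (w : Sq k N ι Θ (Ξ × Q)) :
    (PM k N ι Θ Ξ Q).ce (Kn x e) (fun v => f (pq v)) w = (Pm : FP (Sq k N ι Θ Q)).ce (Kn x e) f (pq w) := by
  have hcard : (Fintype.card Ξ : ℝ) ≠ 0 := Nat.cast_ne_zero.mpr Fintype.card_ne_zero
  have h1 := ce_pz_Kn (Ξ := Ξ) x e (fun b : Sq k N ι Θ Q × Ξ => f b.1) w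
  have h2 := ce_fst (Xd := Ξ) (Kn (k := k) (N := N) (Θ := Θ) (P := Q) x e) (fun b => f b.1) (pz x w)
  refine h1.trans (h2.trans ?_)
  have h3 : (fun v : Sq k N ι Θ Q => ∑ ξ : Ξ, (Fintype.card Ξ : ℝ)⁻¹ * f ((v, ξ) : Sq k N ι Θ Q × Ξ).1) = f := by
    funext v
    show ∑ ξ : Ξ, (Fintype.card Ξ : ℝ)⁻¹ * f v = f v
    rw [Finset.sum_const, Finset.card_univ, nsmul_eq_mul, ← mul_assoc, mul_inv_cancel₀ hcard, one_mul]
  rw [h3]
  rfl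

/-- the law of the point without the coins -/
theorem Pr_pq_one (B : Sq k N ι Θ Q → Prop) (x : ι) :
    (PM k N ι Θ Ξ Q).Pr (fun w => B (pq w)) = (Pm : FP (Sq k N ι Θ Q)).Pr B := by
  have hcard : (Fintype.card Ξ : ℝ) ≠ 0 := Nat.cast_ne_zero.mpr Fintype.card_ne_zero
  have h1 := GMC.Pr_pq (k := k) (N := N) (Θ := Θ) (Ξ := Ξ) (Q := Q) x (fun _ => B)
  rw [h1, Finset.sum_const, Finset.card_univ, nsmul_eq_mul, ← mul_assoc, mul_inv_cancel₀ hcard, one_mul]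

theorem hotXe_of_coldAt {i x : ι} {hN : N ≤ k} {h : ℕ} {F : ι → Mov Ξ ι (Q × V k) (Θ × (V k × ℕ)) (V k → ℝ)}
    (hc : ∀ w t g ξ ξ', F w t g ξ = F w t g ξ') {X : Type} [Fintype X] {R : Θ → X → ι → Fam k ι Q} (e : X → Ξ)
    (hR : ∀ θ ξ l, R θ ξ l = famS N h (F l) θ (e ξ)) {wx : X → ℝ} (wx1 : ∑ ξ, wx ξ = 1)
    {r ρ out : ℝ} (H : GS.ColdAt σ i hN h x F r ρ out) :
    (Pm : FP (Sq k N ι Θ Q)).Pr (fun ω => HotXe σ h R wx r ρ x N ω) ≤ out := by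
  have ξ0 : Ξ := Classical.arbitrary Ξ
  rw [← Pr_pq_one (Ξ := Ξ) _ x]
  refine le_trans (FP.Pr_mono _ fun w _ => ?_) H
  rintro ⟨u, hu, -, -, h4⟩
  refine ⟨u, hu, ?_⟩
  have h5 : (fun v : Sq k N ι Θ (Ξ × Q) => ind (r ≤ |pT (binSys Θ Ξ Q σ i hN h) univ F u v|)) =
      fun v => (fun v' : Sq k N ι Θ Q => ind (r ≤ |TT σ h (fun l => famS N h (F l) (th v') ξ0) (Mod.ex N u) v'|)) (pq v) := by
    funext v
    rw [pT_free i hN h hc ξ0 hu v]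
  have h7 := ce_Kn_pq (Ξ := Ξ) x (Mod.ex N u)
    (fun v' : Sq k N ι Θ Q => ind (r ≤ |TT σ h (fun l => famS N h (F l) (th v') ξ0) (Mod.ex N u) v'|)) w
  rw [h5]
  refine le_trans ?_ (le_of_eq h7.symm)
  refine h4.le.trans (le_of_eq ?_)
  congr 1
  funext v
  have h6 : ∀ ξ : X, R (th v) ξ = fun l => famS N h (F l) (th v) ξ0 := by
    intro ξ
    funext l
    rw [hR]
    exact GMC.famS_coin h (hc l) _ _ _
  simp only [h6]
  rw [← Finset.sum_mul, wx1, one_mul]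

/-- **NATURAL COLDNESS OF THE VIEW `x` ==> THE SET OF THE OTHER VERTICES IS COLD**, coin free -/
theorem coldX_of_coldAt {i x : ι} {hN : N ≤ k} {h : ℕ} {F : ι → Mov Ξ ι (Q × V k) (Θ × (V k × ℕ)) (V k → ℝ)}
    (hc : ∀ w t g ξ ξ', F w t g ξ = F w t g ξ') (h1 : ∀ w t g ξ z d, |F w t g ξ z d| ≤ 1) {X : Type} [Fintype X]
    {R : Θ → X → ι → Fam k ι Q} (e : X → Ξ) (hR : ∀ θ ξ l, R θ ξ l = famS N h (F l) θ (e ξ)) {wx : X → ℝ}
    (wx0 : ∀ ξ, 0 ≤ wx ξ) (wx1 : ∑ ξ, wx ξ = 1) {r r1 ρ out : ℝ} (hρ : 0 ≤ ρ) (H : GS.ColdAt σ i hN h x F r ρ out)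
    (hr : r + 4 * ((2 : ℝ) ^ h)⁻¹ ≤ r1) (D : ℕ) :
    ColdX σ N h R wx (univ.erase x) D r1 (2 * 2 ^ D * ρ) out (fun t w _ => HotXe σ h R wx r ρ x t w) := by
  refine coldX_erase σ x hN wx0 wx1 (B := 1) (fun θ ξ l => ?_) ?_ hρ (hotXe_of_coldAt hc e hR wx1 H)
  · rw [hR]
    exact GMC.famS_le zero_le_one h (h1 l) θ (e ξ)
  · rw [one_pow, mul_one]
    linarith

end one

/-! ## cold sets by sizes -/

/-- all nonempty sets `U` with `S U.card` are cold, for all pieces with `j` vertices -/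
def ColdSets (j : ℕ) (free : Prop) (S : ℕ → Prop) : Prop :=
  ∀ c1 : ℕ, ∃ C1 : ℕ, c1 ≤ C1 ∧ ∀ (ι Θ Ξ Q : Type) [Fintype ι] [DecidableEq ι] [Fintype Θ]
    [Nonempty Θ] [Fintype Ξ] [Nonempty Ξ] [Fintype Q] [Nonempty Q] (k N : ℕ) (σ : V k) (i δ : ι) (hN : N ≤ k)
    (h : ℕ), Fintype.card ι = j → ∀ β H Λ : ℝ, 0 < β → β ≤ 1 / 2 → 1 / β ≤ H →
      (binSys Θ Ξ Q σ i hN h).K ≤ Real.exp H → (binSys Θ Ξ Q σ i hN h).near ≤ β ^ C1 → H ^ C1 ≤ Λ → Λ ≤ Real.exp H →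
      ∀ F : ι → Mov Ξ ι (Q × V k) (Θ × (V k × ℕ)) (V k → ℝ),
      GS.Faces (binSys Θ Ξ Q σ i hN h) univ δ F H (Real.exp (-Λ)) (β ^ C1) →
      (free → ∀ t g ξ ξ', F δ t g ξ = F δ t g ξ') → ∀ D : ℕ, (D : ℝ) ≤ H ^ c1 →
      ∀ U : Finset ι, U.Nonempty → S U.card → ColdsX σ N h F δ U D (β ^ c1) (Real.exp (-H ^ c1))

/-- all natural views are cold, for all pieces with `j` vertices; only used with `free = True` (with coins it is false for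
`w ≠ i`, remark of helper68: see `NatColdI`) -/
def NatCold (j : ℕ) (free : Prop) : Prop :=
  ∀ c1 : ℕ, ∃ C1 : ℕ, c1 ≤ C1 ∧ ∀ (ι Θ Ξ Q : Type) [Fintype ι] [DecidableEq ι] [Fintype Θ]
    [Nonempty Θ] [Fintype Ξ] [Nonempty Ξ] [Fintype Q] [Nonempty Q] (k N : ℕ) (σ : V k) (i δ : ι) (hN : N ≤ k)
    (h : ℕ), Fintype.card ι = j → ∀ β H Λ : ℝ, 0 < β → β ≤ 1 / 2 → 1 / β ≤ H →
      (binSys Θ Ξ Q σ i hN h).K ≤ Real.exp H → (binSys Θ Ξ Q σ i hN h).near ≤ β ^ C1 → H ^ C1 ≤ Λ → Λ ≤ Real.exp H →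
      ∀ F : ι → Mov Ξ ι (Q × V k) (Θ × (V k × ℕ)) (V k → ℝ),
      GS.Faces (binSys Θ Ξ Q σ i hN h) univ δ F H (Real.exp (-Λ)) (β ^ C1) →
      (free → ∀ t g ξ ξ', F δ t g ξ = F δ t g ξ') →
      ∀ w : ι, GS.ColdAt σ i hN h w F (β ^ c1) (Real.exp (-H ^ c1)) (Real.exp (-H ^ c1))

/-- the natural view of the vertex `i` of the coins is cold, for all pieces with `j` vertices -/
def NatColdI (j : ℕ) (free : Prop) : Prop :=
  ∀ c1 : ℕ, ∃ C1 : ℕ, c1 ≤ C1 ∧ ∀ (ι Θ Ξ Q : Type) [Fintype ι] [DecidableEq ι] [Fintype Θ]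
    [Nonempty Θ] [Fintype Ξ] [Nonempty Ξ] [Fintype Q] [Nonempty Q] (k N : ℕ) (σ : V k) (i δ : ι) (hN : N ≤ k)
    (h : ℕ), i ≠ δ → Fintype.card ι = j → ∀ β H Λ : ℝ, 0 < β → β ≤ 1 / 2 → 1 / β ≤ H →
      (binSys Θ Ξ Q σ i hN h).K ≤ Real.exp H → (binSys Θ Ξ Q σ i hN h).near ≤ β ^ C1 → H ^ C1 ≤ Λ → Λ ≤ Real.exp H →
      ∀ F : ι → Mov Ξ ι (Q × V k) (Θ × (V k × ℕ)) (V k → ℝ),
      GS.Faces (binSys Θ Ξ Q σ i hN h) univ δ F H (Real.exp (-Λ)) (β ^ C1) →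
      (free → ∀ t g ξ ξ', F δ t g ξ = F δ t g ξ') →
      GS.ColdAt σ i hN h i F (β ^ c1) (Real.exp (-H ^ c1)) (Real.exp (-H ^ c1))

theorem NatCold.toI {j : ℕ} {free : Prop} (A : NatCold j free) : NatColdI j free := by
  intro c1
  obtain ⟨C1, h1, h2⟩ := A c1
  refine ⟨C1, h1, ?_⟩
  intro ι Θ Ξ Q _ _ _ _ _ _ _ _ k N σ i δ hN h' _ hι β H Λ hβ hβ2 hH hK hn hΛ hΛ2 F HF hf
  exact h2 ι Θ Ξ Q k N σ i δ hN h' hι β H Λ hβ hβ2 hH hK hn hΛ hΛ2 F HF hf i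

theorem one_le_of_inv {β H : ℝ} (hβ : 0 < β) (hβ2 : β ≤ 1 / 2) (hH : 1 / β ≤ H) : 2 ≤ H := by
  have h1 : (2 : ℝ) ≤ 1 / β := by
    rw [le_div_iff₀ hβ]
    linarith
  exact h1.trans hH

theorem ColdSets.mono {j : ℕ} {free : Prop} {S S' : ℕ → Prop} (A : ColdSets j free S) (h : ∀ n, S' n → S n) :
    ColdSets j free S' := by
  intro c1
  obtain ⟨C1, h1, h2⟩ := A c1
  refine ⟨C1, h1, ?_⟩
  intro ι Θ Ξ Q _ _ _ _ _ _ _ _ k N σ i δ hN h' hι β H Λ hβ hβ2 hH hK hn hΛ hΛ2 F HF hf D hD U hU hS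
  exact h2 ι Θ Ξ Q k N σ i δ hN h' hι β H Λ hβ hβ2 hH hK hn hΛ hΛ2 F HF hf D hD U hU (h _ hS)

theorem ColdSets.free {j : ℕ} {S : ℕ → Prop} (A : ColdSets j False S) (free : Prop) : ColdSets j free S := by
  intro c1
  obtain ⟨C1, h1, h2⟩ := A c1
  refine ⟨C1, h1, ?_⟩
  intro ι Θ Ξ Q _ _ _ _ _ _ _ _ k N σ i δ hN h' hι β H Λ hβ hβ2 hH hK hn hΛ hΛ2 F HF hf
  exact h2 ι Θ Ξ Q k N σ i δ hN h' hι β H Λ hβ hβ2 hH hK hn hΛ hΛ2 F HF (fun h => h.elim)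

theorem NatCold.free {j : ℕ} (A : NatCold j False) (free : Prop) : NatCold j free := by
  intro c1
  obtain ⟨C1, h1, h2⟩ := A c1
  refine ⟨C1, h1, ?_⟩
  intro ι Θ Ξ Q _ _ _ _ _ _ _ _ k N σ i δ hN h' hι β H Λ hβ hβ2 hH hK hn hΛ hΛ2 F HF hf
  exact h2 ι Θ Ξ Q k N σ i δ hN h' hι β H Λ hβ hβ2 hH hK hn hΛ hΛ2 F HF (fun h => h.elim)

theorem ColdSets.or {j : ℕ} {free : Prop} {S S' : ℕ → Prop} (A : ColdSets j free S) (B : ColdSets j free S') :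
    ColdSets j free (fun n => S n ∨ S' n) := by
  intro c1
  obtain ⟨C1, h1, h2⟩ := A c1
  obtain ⟨C2, h3, h4⟩ := B c1
  refine ⟨C1 + C2, by omega, ?_⟩
  intro ι Θ Ξ Q _ _ _ _ _ _ _ _ k N σ i δ hN h' hι β H Λ hβ hβ2 hH hK hn hΛ hΛ2 F HF hf D hD U hU hS
  have hH1 : 1 ≤ H := by
    have := one_le_of_inv hβ hβ2 hH
    linarith
  have b1 : β ^ (C1 + C2) ≤ β ^ C1 := pow_le_pow_of_le_one hβ.le (by linarith) (by omega)
  have b2 : β ^ (C1 + C2) ≤ β ^ C2 := pow_le_pow_of_le_one hβ.le (by linarith) (by omega)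
  have e1 : H ^ C1 ≤ Λ := (pow_le_pow_right₀ hH1 (by omega)).trans hΛ
  have e2 : H ^ C2 ≤ Λ := (pow_le_pow_right₀ hH1 (by omega)).trans hΛ
  rcases hS with hS | hS
  · exact h2 ι Θ Ξ Q k N σ i δ hN h' hι β H Λ hβ hβ2 hH hK (hn.trans b1) e1 hΛ2 F (HF.mono_acc b1) hf D hD U hU hS
  · exact h4 ι Θ Ξ Q k N σ i δ hN h' hι β H Λ hβ hβ2 hH hK (hn.trans b2) e2 hΛ2 F (HF.mono_acc b2) hf D hD U hU hS

/-- sets of at most two vertices (theorem C2), coins included -/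
theorem coldSets_le2 (j : ℕ) : ColdSets j False (fun n => n ≤ 2) := by
  intro c1
  obtain ⟨C1, h1, h2⟩ := coldBin_le2 j c1
  refine ⟨C1, h1, ?_⟩
  intro ι Θ Ξ Q _ _ _ _ _ _ _ _ k N σ i δ hN h' hι β H Λ hβ hβ2 hH hK hn hΛ hΛ2 F HF hf
  exact h2 ι Θ Ξ Q k N σ i δ hN h' hι β H Λ hβ hβ2 hH hK hn hΛ F HF

theorem GS.Faces.mono_m {ι Om Ξ Pt V Γ κ : Type} [Fintype ι] [DecidableEq ι] [Fintype Om] [Fintype Ξ] [Fintype Pt]
    [Fintype V] {S : Sys ι Om Ξ Pt V Γ κ} {Vj : Finset ι} {δ : ι} {F : ι → Mov Ξ ι Pt Γ (V → ℝ)} {m m' θ acc acc' : ℝ}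
    (H : GS.Faces S Vj δ F m θ acc) (hm : m ≤ m') (h : acc ≤ acc') : GS.Faces S Vj δ F m' θ acc' where
  dep := H.dep
  coin := H.coin
  bd := H.bd
  zero := H.zero
  fut w hw := Sys.Future.mono S (H.fut w hw) hm
  rare w hw := Sys.Rare.mono S (H.rare w hw) le_rfl h

theorem free_all {ι Om Ξ Pt V Γ κ : Type} [Fintype ι] [DecidableEq ι] [Fintype Om] [Fintype Ξ] [Fintype Pt]
    [Fintype V] {S : Sys ι Om Ξ Pt V Γ κ} {δ : ι} {F : ι → Mov Ξ ι Pt Γ (V → ℝ)} {m θ acc : ℝ}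
    (H : GS.Faces S univ δ F m θ acc) (hδ : ∀ t g ξ ξ', F δ t g ξ = F δ t g ξ') : ∀ w t g ξ ξ', F w t g ξ = F w t g ξ' := by
  intro w
  by_cases hw : w = δ
  · rw [hw]
    exact hδ
  · exact H.coin w (mem_univ w) hw

/-- **ALL NATURAL VIEWS OF A COIN FREE PIECE ARE COLD** -/
theorem natCold_of_cmAll {j C : ℕ} (hA : GS.CMAll j C) : NatCold j True := by
  intro c1
  obtain ⟨C2, h2⟩ := GS.cold_faces hA (c1 + 1)
  refine ⟨(c1 + 1) * C2 + c1, by omega, ?_⟩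
  intro ι Θ Ξ Q _ _ _ _ _ _ _ _ k N σ i δ hN h hι β H Λ hβ hβ2 hH hK hn hΛ hΛ2 F HF hf w
  have hH2 := one_le_of_inv hβ hβ2 hH
  have hβ1 : β ≤ 1 := by linarith
  set β' : ℝ := β ^ (c1 + 1) with hβ'
  set H' : ℝ := H ^ (c1 + 1) with hH'
  have hb0 : 0 < β' := by positivity
  have hb2 : β' ≤ 1 / 2 := by
    refine le_trans ?_ hβ2
    calc β ^ (c1 + 1) ≤ β ^ 1 := pow_le_pow_of_le_one hβ.le hβ1 (by omega)
      _ = β := pow_one β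
  have hbH : 1 / β' ≤ H' := by
    rw [hβ', hH', one_div, ← inv_pow, ← one_div]
    exact pow_le_pow_left₀ (by positivity) hH _
  have hHH : H ≤ H' := by
    calc H = H ^ 1 := (pow_one H).symm
      _ ≤ H ^ (c1 + 1) := pow_le_pow_right₀ (by linarith) (by omega)
  have hpb : β ^ ((c1 + 1) * C2 + c1) ≤ β' ^ C2 := by
    rw [hβ', ← pow_mul]
    exact pow_le_pow_of_le_one hβ.le hβ1 (by omega)
  have hpH : H' ^ C2 ≤ Λ := by
    refine le_trans ?_ hΛ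
    rw [hH', ← pow_mul]
    exact pow_le_pow_right₀ (by linarith) (by omega)
  have h3 := h2 ι Θ Ξ Q k N σ i δ w hN h hι β' H' Λ hb0 hb2 hbH (hK.trans (Real.exp_le_exp.2 hHH)) (hn.trans hpb) hpH
    F (HF.mono_m hHH hpb) (hf trivial)
  have he : Real.exp (-H' ^ (c1 + 1)) ≤ Real.exp (-H ^ c1) := by
    refine Real.exp_le_exp.2 (neg_le_neg ?_)
    rw [hH', ← pow_mul]
    exact pow_le_pow_right₀ (by linarith) (by nlinarith)
  refine h3.mono ?_ he he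
  exact pow_le_pow_of_le_one hβ.le hβ1 (by omega)

/-- numbers of `coldSets_erase` -/
theorem erase_num {c1 D : ℕ} {H : ℝ} (hH : 2 ≤ H) (hD : (D : ℝ) ≤ H ^ c1) :
    2 * 2 ^ D * Real.exp (-H ^ (c1 + 3)) ≤ Real.exp (-H ^ c1) := by
  set x := H ^ c1 with hx
  have hx1 : 1 ≤ x := one_le_pow₀ (by linarith)
  have h1 : (2 : ℝ) * 2 ^ D ≤ Real.exp (D + 1) := by
    have h2 : (2 : ℝ) ≤ Real.exp 1 := by
      have := Real.add_one_le_exp (1 : ℝ)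
      linarith
    calc (2 : ℝ) * 2 ^ D = 2 ^ (D + 1) := (pow_succ' 2 D).symm
      _ ≤ Real.exp 1 ^ (D + 1) := pow_le_pow_left₀ (by norm_num) h2 _
      _ = Real.exp (D + 1) := by
        rw [← Real.exp_nat_mul]
        congr 1
        push_cast
        ring
  have h3 : H ^ (c1 + 3) = x * H ^ 3 := pow_add _ _ _
  have h4 : (8 : ℝ) ≤ H ^ 3 := by
    calc (8 : ℝ) = 2 ^ 3 := by norm_num
      _ ≤ H ^ 3 := pow_le_pow_left₀ (by norm_num) hH 3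
  calc 2 * 2 ^ D * Real.exp (-H ^ (c1 + 3)) ≤ Real.exp (D + 1) * Real.exp (-H ^ (c1 + 3)) :=
        mul_le_mul_of_nonneg_right h1 (Real.exp_pos _).le
    _ = Real.exp (D + 1 + -H ^ (c1 + 3)) := (Real.exp_add _ _).symm
    _ ≤ Real.exp (-x) := by
        refine Real.exp_le_exp.2 ?_
        rw [h3]
        have h5 : x * 8 ≤ x * H ^ 3 := mul_le_mul_of_nonneg_left h4 (by linarith)
        linarith

/-- **THE SETS OF `j - 1` VERTICES OF A COIN FREE PIECE ARE COLD** -/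
theorem coldSets_erase {j : ℕ} (hA : NatCold j True) : ColdSets j True (fun n => n + 1 = j) := by
  intro c1
  obtain ⟨C1, h1, h2⟩ := hA (c1 + 3)
  refine ⟨C1, by omega, ?_⟩
  intro ι Θ Ξ Q _ _ _ _ _ _ _ _ k N σ i δ hN h hι β H Λ hβ hβ2 hH hK hn hΛ hΛ2 F HF hf D hD U hU hS
  have hH2 := one_le_of_inv hβ hβ2 hH
  have hβ1 : β ≤ 1 := by linarith
  have hc := free_all HF (hf trivial)
  obtain ⟨x, hx⟩ : ∃ x, U = univ.erase x := by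
    have h3 : (Uᶜ : Finset ι).card = 1 := by
      rw [Finset.card_compl, hι]
      omega
    obtain ⟨x, hx⟩ := Finset.card_eq_one.mp h3
    refine ⟨x, ?_⟩
    rw [← compl_compl U, hx, Finset.compl_singleton]
  subst hx
  have h3 := h2 ι Θ Ξ Q k N σ i δ hN h hι β H Λ hβ hβ2 hH hK hn hΛ hΛ2 F HF hf x
  have hnear : 8 * ((2 : ℝ) ^ h)⁻¹ ≤ β ^ C1 := hn
  have hr : β ^ (c1 + 3) + 4 * ((2 : ℝ) ^ h)⁻¹ ≤ β ^ c1 := by
    have h4 : β ^ C1 ≤ β ^ (c1 + 3) := pow_le_pow_of_le_one hβ.le hβ1 h1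
    have h5 : β ^ (c1 + 3) ≤ β ^ c1 * (1 / 8) := by
      rw [pow_add]
      refine mul_le_mul_of_nonneg_left ?_ (by positivity)
      calc β ^ 3 ≤ (1 / 2) ^ 3 := pow_le_pow_left₀ hβ.le hβ2 3
        _ = 1 / 8 := by norm_num
    have h6 : (0 : ℝ) < β ^ c1 := by positivity
    linarith
  have hw : ∀ {X : Type} [Fintype X] {R : Θ → X → ι → Fam k ι Q} (e : X → Ξ),
      (∀ θ ξ l, R θ ξ l = famS N h (F l) θ (e ξ)) → ∀ {wx : X → ℝ}, (∀ ξ, 0 ≤ wx ξ) → ∑ ξ, wx ξ = 1 →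
      ∃ Hot : ℕ → Sq k N ι Θ Q → X → Prop, ColdX σ N h R wx (univ.erase x) D (β ^ c1) (Real.exp (-H ^ c1))
        (Real.exp (-H ^ c1)) Hot := by
    intro X _ R e hR wx wx0 wx1
    refine ⟨_, (coldX_of_coldAt hc (fun w => HF.bd w (mem_univ w)) e hR wx0 wx1 (Real.exp_pos _).le h3 hr D).mono wx0
      le_rfl le_rfl (erase_num hH2 hD) ?_⟩
    exact Real.exp_le_exp.2 (neg_le_neg (pow_le_pow_right₀ (by linarith) (by omega)))
  refine ⟨hw (fun ξ => ξ) (fun _ _ _ => rfl) (fun _ => by positivity) (card_sum Ξ), fun _ ξ => ?_⟩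
  exact hw (fun _ : Unit => ξ) (fun _ _ _ => rfl) (fun _ => zero_le_one) (by simp)

/-! ## the cold hypotheses of `piece_coin` -/

/-- the cold hypotheses `C`, `Cδ`, `CK` of `piece_coin` for all pieces with `j` vertices -/
def ColdHyp (j : ℕ) (free : Prop) : Prop :=
  ∀ c1 : ℕ, ∃ C1 : ℕ, c1 ≤ C1 ∧ ∀ (ι Θ Ξ Q : Type) [Fintype ι] [DecidableEq ι] [Fintype Θ]
    [Nonempty Θ] [Fintype Ξ] [Nonempty Ξ] [Fintype Q] [Nonempty Q] (k N : ℕ) (σ : V k) (i δ : ι) (hN : N ≤ k)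
    (h : ℕ), Fintype.card ι = j → ∀ β H Λ : ℝ, 0 < β → β ≤ 1 / 2 → 1 / β ≤ H →
      (binSys Θ Ξ Q σ i hN h).K ≤ Real.exp H → (binSys Θ Ξ Q σ i hN h).near ≤ β ^ C1 → H ^ C1 ≤ Λ → Λ ≤ Real.exp H →
      ∀ F : ι → Mov Ξ ι (Q × V k) (Θ × (V k × ℕ)) (V k → ℝ),
      GS.Faces (binSys Θ Ξ Q σ i hN h) univ δ F H (Real.exp (-Λ)) (β ^ C1) →
      (free → ∀ t g ξ ξ', F δ t g ξ = F δ t g ξ') → ∀ D : ℕ, (D : ℝ) ≤ H ^ c1 → ∀ a : ι,
      (∀ U ∈ UU a, U ≠ univ.erase δ → ∃ Hot : ℕ → Sq k N ι Θ Q → Ξ → Prop,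
        ColdX σ N h (fun θ ξ i => famS N h (F i) θ ξ) (fun _ => (Fintype.card Ξ : ℝ)⁻¹) U D (β ^ c1)
          (Real.exp (-H ^ c1)) (Real.exp (-H ^ c1)) Hot) ∧
      (∀ ξ : Ξ, ∃ Hot : ℕ → Sq k N ι Θ Q → Unit → Prop, ColdX σ N h (fun θ (_ : Unit) i => famS N h (F i) θ ξ)
        (fun _ => 1) (univ.erase δ) D (β ^ c1) (Real.exp (-H ^ c1)) (Real.exp (-H ^ c1)) Hot) ∧
      GS.ColdAt σ i hN h a F (β ^ c1) (Real.exp (-H ^ c1)) (Real.exp (-H ^ c1))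

/-- **the cold hypotheses of `piece_coin`, every `j ≥ 2`** -/
theorem coldHyp_of {j : ℕ} (hj : 2 ≤ j) {free : Prop} (hS : ColdSets j free (fun n => n < j)) (hN : NatCold j free) :
    ColdHyp j free := by
  intro c1
  obtain ⟨C1, h1, h2⟩ := hS c1
  obtain ⟨C2, h3, h4⟩ := hN c1
  refine ⟨C1 + C2, by omega, ?_⟩
  intro ι Θ Ξ Q _ _ _ _ _ _ _ _ k N σ i δ hN h hι β H Λ hβ hβ2 hH hK hn hΛ hΛ2 F HF hf D hD a
  have hH1 : 1 ≤ H := by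
    have := one_le_of_inv hβ hβ2 hH
    linarith
  have b1 : β ^ (C1 + C2) ≤ β ^ C1 := pow_le_pow_of_le_one hβ.le (by linarith) (by omega)
  have b2 : β ^ (C1 + C2) ≤ β ^ C2 := pow_le_pow_of_le_one hβ.le (by linarith) (by omega)
  have e1 : H ^ C1 ≤ Λ := (pow_le_pow_right₀ hH1 (by omega)).trans hΛ
  have e2 : H ^ C2 ≤ Λ := (pow_le_pow_right₀ hH1 (by omega)).trans hΛ
  have g1 := h2 ι Θ Ξ Q k N σ i δ hN h hι β H Λ hβ hβ2 hH hK (hn.trans b1) e1 hΛ2 F (HF.mono_acc b1) hf D hD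
  refine ⟨fun U hU _ => ?_, fun ξ => ?_, ?_⟩
  · rw [mem_UU] at hU
    refine (g1 U ⟨a, hU.1⟩ ?_).1
    rw [← hι]
    exact (Finset.card_lt_iff_ne_univ U).mpr hU.2
  · have hcd : (univ.erase δ : Finset ι).card + 1 = j := by
      rw [Finset.card_erase_of_mem (mem_univ δ), Finset.card_univ, hι]
      omega
    refine (g1 (univ.erase δ) (Finset.card_pos.mp (by omega)) ?_).2 (Finset.notMem_erase δ univ) ξ
    omega
  · exact h4 ι Θ Ξ Q k N σ i δ hN h hι β H Λ hβ hβ2 hH hK (hn.trans b2) e2 hΛ2 F (HF.mono_acc b2) hf a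

/-- the cold hypotheses of `piece_coin`, the view of the vertex `i` of the coins, `i ≠ δ` -/
def ColdHypI (j : ℕ) (free : Prop) : Prop :=
  ∀ c1 : ℕ, ∃ C1 : ℕ, c1 ≤ C1 ∧ ∀ (ι Θ Ξ Q : Type) [Fintype ι] [DecidableEq ι] [Fintype Θ]
    [Nonempty Θ] [Fintype Ξ] [Nonempty Ξ] [Fintype Q] [Nonempty Q] (k N : ℕ) (σ : V k) (i δ : ι) (hN : N ≤ k)
    (h : ℕ), i ≠ δ → Fintype.card ι = j → ∀ β H Λ : ℝ, 0 < β → β ≤ 1 / 2 → 1 / β ≤ H →
      (binSys Θ Ξ Q σ i hN h).K ≤ Real.exp H → (binSys Θ Ξ Q σ i hN h).near ≤ β ^ C1 → H ^ C1 ≤ Λ → Λ ≤ Real.exp H →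
      ∀ F : ι → Mov Ξ ι (Q × V k) (Θ × (V k × ℕ)) (V k → ℝ),
      GS.Faces (binSys Θ Ξ Q σ i hN h) univ δ F H (Real.exp (-Λ)) (β ^ C1) →
      (free → ∀ t g ξ ξ', F δ t g ξ = F δ t g ξ') → ∀ D : ℕ, (D : ℝ) ≤ H ^ c1 →
      (∀ U ∈ UU i, U ≠ univ.erase δ → ∃ Hot : ℕ → Sq k N ι Θ Q → Ξ → Prop,
        ColdX σ N h (fun θ ξ i => famS N h (F i) θ ξ) (fun _ => (Fintype.card Ξ : ℝ)⁻¹) U D (β ^ c1)
          (Real.exp (-H ^ c1)) (Real.exp (-H ^ c1)) Hot) ∧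
      (∀ ξ : Ξ, ∃ Hot : ℕ → Sq k N ι Θ Q → Unit → Prop, ColdX σ N h (fun θ (_ : Unit) i => famS N h (F i) θ ξ)
        (fun _ => 1) (univ.erase δ) D (β ^ c1) (Real.exp (-H ^ c1)) (Real.exp (-H ^ c1)) Hot) ∧
      GS.ColdAt σ i hN h i F (β ^ c1) (Real.exp (-H ^ c1)) (Real.exp (-H ^ c1))

/-- the cold hypotheses of `piece_coin`, every `j ≥ 2`, coins at the hidden vertex -/
theorem coldHypI_of {j : ℕ} (hj : 2 ≤ j) {free : Prop} (hS : ColdSets j free (fun n => n < j)) (hN : NatColdI j free) :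
    ColdHypI j free := by
  intro c1
  obtain ⟨C1, h1, h2⟩ := hS c1
  obtain ⟨C2, h3, h4⟩ := hN c1
  refine ⟨C1 + C2, by omega, ?_⟩
  intro ι Θ Ξ Q _ _ _ _ _ _ _ _ k N σ i δ hN h hiδ hι β H Λ hβ hβ2 hH hK hn hΛ hΛ2 F HF hf D hD
  have hH1 : 1 ≤ H := by
    have := one_le_of_inv hβ hβ2 hH
    linarith
  have b1 : β ^ (C1 + C2) ≤ β ^ C1 := pow_le_pow_of_le_one hβ.le (by linarith) (by omega)
  have b2 : β ^ (C1 + C2) ≤ β ^ C2 := pow_le_pow_of_le_one hβ.le (by linarith) (by omega)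
  have e1 : H ^ C1 ≤ Λ := (pow_le_pow_right₀ hH1 (by omega)).trans hΛ
  have e2 : H ^ C2 ≤ Λ := (pow_le_pow_right₀ hH1 (by omega)).trans hΛ
  have g1 := h2 ι Θ Ξ Q k N σ i δ hN h hι β H Λ hβ hβ2 hH hK (hn.trans b1) e1 hΛ2 F (HF.mono_acc b1) hf D hD
  refine ⟨fun U hU _ => ?_, fun ξ => ?_, ?_⟩
  · rw [mem_UU] at hU
    refine (g1 U ⟨i, hU.1⟩ ?_).1
    rw [← hι]
    exact (Finset.card_lt_iff_ne_univ U).mpr hU.2
  · have hcd : (univ.erase δ : Finset ι).card + 1 = j := by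
      rw [Finset.card_erase_of_mem (mem_univ δ), Finset.card_univ, hι]
      omega
    refine (g1 (univ.erase δ) (Finset.card_pos.mp (by omega)) ?_).2 (Finset.notMem_erase δ univ) ξ
    omega
  · exact h4 ι Θ Ξ Q k N σ i δ hN h hiδ hι β H Λ hβ hβ2 hH hK (hn.trans b2) e2 hΛ2 F (HF.mono_acc b2) hf

/-- all proper nonempty sets, coin free, from the sets `3 ≤ |U| ≤ j - 2` -/
theorem coldSets_free {j : ℕ} (hA : NatCold j True) (hM : ColdSets j True (fun n => 3 ≤ n ∧ n + 2 ≤ j)) :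
    ColdSets j True (fun n => n < j) := by
  refine ((((coldSets_le2 j).free True).or (coldSets_erase hA)).or hM).mono ?_
  intro n hn
  by_cases h2 : n ≤ 2
  · exact Or.inl (Or.inl h2)
  · by_cases h3 : n + 1 = j
    · exact Or.inl (Or.inr h3)
    · exact Or.inr ⟨by omega, by omega⟩

/-- **every `j ≥ 2`, coin free** : the sets `3 ≤ |U| ≤ j - 2` are a hypothesis -/
theorem coldj_free {j C : ℕ} (hj : 2 ≤ j) (hA : GS.CMAll j C) (hM : ColdSets j True (fun n => 3 ≤ n ∧ n + 2 ≤ j)) :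
    ColdHyp j True := by
  have hnat := natCold_of_cmAll hA
  refine coldHyp_of hj ?_ hnat
  refine ((((coldSets_le2 j).free True).or (coldSets_erase hnat)).or hM).mono ?_
  intro n hn
  by_cases h2 : n ≤ 2
  · exact Or.inl (Or.inl h2)
  · by_cases h3 : n + 1 = j
    · exact Or.inl (Or.inr h3)
    · exact Or.inr ⟨by omega, by omega⟩

/-- **FOUR VERTICES, COIN FREE** : literally the hypotheses `C`, `Cδ`, `CK` of `piece_coin` -/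
theorem cold4_free {C : ℕ} (hA : GS.CMAll 4 C) : ColdHyp 4 True := by
  refine coldj_free (by norm_num) hA ?_
  intro c1
  refine ⟨c1, le_rfl, ?_⟩
  intro ι Θ Ξ Q _ _ _ _ _ _ _ _ k N σ i δ hN h hι β H Λ hβ hβ2 hH hK hn hΛ hΛ2 F HF hf D hD U hU hS
  omega

end

end Pool.Agent.GM
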