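import Mathlib

/-!
# GM/PieceNum (helper68): THE SIZES of one piece (row ASM A11d)

All sizes are functions of `H` only: errors of the view `exp (-H ^ c0)`, budgets `exp (H ^ D)`, coldness `exp (-H ^ c1)`
with `D + c0 + j + 2 ≤ c1`, `1 / β ≤ H`, threshold `r = β / 5`.
* `pieceNum_out` : the bound of `piece_abs` is `≤ exp (-H)`;
* `pieceNum_thr` : `exp (-H ^ c0) ≤ β / 5`;
* `pieceNum_cut` : number of changes after which the known face is cut.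
-/

set_option autoImplicit false

namespace Pool.Agent.GM

open Finset

noncomputable section

/-- `exp H ≥ 5 H / 2 ≥ 5` -/
theorem num_exp {H : ℝ} (hH : 2 ≤ H) : 5 / 2 * H ≤ Real.exp H := by
  have h1 := Real.quadratic_le_exp_of_nonneg (show 0 ≤ H by linarith)
  nlinarith

theorem num_pow {H : ℝ} (hH : 2 ≤ H) {c0 : ℕ} (hc0 : 4 ≤ c0) : 8 * H ≤ H ^ c0 := by
  have h1 : H ^ 4 ≤ H ^ c0 := pow_le_pow_right₀ (by linarith) hc0
  have h2 : (2 : ℝ) ^ 3 ≤ H ^ 3 := pow_le_pow_left₀ (by norm_num) hH 3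
  have h3 : H ^ 4 = H ^ 3 * H := by ring
  nlinarith

/-- the coldness absorbs the budgets and the number of the classes -/
theorem num_abs {H : ℝ} (hH : 2 ≤ H) {D c0 j c1 : ℕ} (h1 : D + c0 + j + 2 ≤ c1) :
    (2 : ℝ) ^ (j + 1) * (Real.exp (H ^ D) * Real.exp (-H ^ c1)) ≤ Real.exp (-H ^ c0) := by
  have hH1 : (1 : ℝ) ≤ H := by linarith
  have h2 : (2 : ℝ) ≤ Real.exp 1 := by
    have := Real.add_one_le_exp (1 : ℝ)
    linarith
  have h3 : (2 : ℝ) ^ (j + 1) ≤ Real.exp ((j + 1 : ℕ) : ℝ) := by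
    have h4 : Real.exp ((j + 1 : ℕ) : ℝ) = Real.exp 1 ^ (j + 1) := by
      rw [← Real.exp_nat_mul]
      congr 1
      ring
    rw [h4]
    exact pow_le_pow_left₀ (by norm_num) h2 _
  have h5 : ((j + 1 : ℕ) : ℝ) ≤ H ^ (j + 1) := by
    have h6 : ((j + 1 : ℕ) : ℝ) ≤ (2 : ℝ) ^ (j + 1) := by
      exact_mod_cast (Nat.lt_two_pow_self (n := j + 1)).le
    exact h6.trans (pow_le_pow_left₀ (by norm_num) hH _)
  have h7 : H ^ D + H ^ c0 + H ^ (j + 1) ≤ H ^ c1 := by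
    have a1 : H ^ D ≤ H ^ (D + c0 + j) := pow_le_pow_right₀ hH1 (by omega)
    have a2 : H ^ c0 ≤ H ^ (D + c0 + j) := pow_le_pow_right₀ hH1 (by omega)
    have a3 : H ^ (j + 1) ≤ H * H ^ (D + c0 + j) := by
      rw [← pow_succ']
      exact pow_le_pow_right₀ hH1 (by omega)
    have a4 : H ^ (D + c0 + j + 2) ≤ H ^ c1 := pow_le_pow_right₀ hH1 h1
    have a5 : H ^ (D + c0 + j + 2) = H ^ 2 * H ^ (D + c0 + j) := by ring
    have a6 : 0 < H ^ (D + c0 + j) := by positivity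
    have a7 : (2 + H) * H ^ (D + c0 + j) ≤ H ^ 2 * H ^ (D + c0 + j) :=
      mul_le_mul_of_nonneg_right (by nlinarith) a6.le
    linarith
  calc (2 : ℝ) ^ (j + 1) * (Real.exp (H ^ D) * Real.exp (-H ^ c1))
      ≤ Real.exp (H ^ (j + 1)) * (Real.exp (H ^ D) * Real.exp (-H ^ c1)) := by
        refine mul_le_mul_of_nonneg_right (h3.trans (Real.exp_le_exp.2 h5)) (by positivity)
    _ = Real.exp (H ^ (j + 1) + (H ^ D + -H ^ c1)) := by rw [Real.exp_add, Real.exp_add]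
    _ ≤ Real.exp (-H ^ c0) := Real.exp_le_exp.2 (by linarith)

/-- the accuracy is below the threshold -/
theorem pieceNum_thr {β H : ℝ} {c0 : ℕ} (hH : 2 ≤ H) (hβ : 0 < β) (hβH : 1 / β ≤ H) (hc0 : 4 ≤ c0) :
    Real.exp (-H ^ c0) ≤ β / 5 := by
  have h1 : 1 ≤ H * β := by rwa [div_le_iff₀ hβ] at hβH
  have h2 : Real.exp (-H ^ c0) ≤ Real.exp (-(2 * H)) :=
    Real.exp_le_exp.2 (by have := num_pow hH hc0; linarith)
  refine h2.trans ?_
  rw [Real.exp_neg]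
  have h3 : Real.exp (2 * H) = Real.exp H * Real.exp H := by rw [← Real.exp_add]; congr 1; ring
  have h4 := num_exp hH
  have h5 : 5 * H ≤ Real.exp (2 * H) := by
    rw [h3]
    nlinarith [Real.exp_pos H]
  have h6 : 0 < Real.exp (2 * H) := Real.exp_pos _
  rw [inv_eq_one_div, div_le_iff₀ h6]
  nlinarith [mul_le_mul_of_nonneg_left h5 hβ.le]

theorem pieceNum_four {β H eta : ℝ} {c0 : ℕ} (hH : 2 ≤ H) (hβ : 0 < β) (hβH : 1 / β ≤ H) (hc0 : 4 ≤ c0)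
    (he : eta ≤ Real.exp (-H ^ c0)) : 4 * (β / 5) + eta ≤ β := by
  have := pieceNum_thr hH hβ hβH hc0
  linarith

/-- `6328 H ^ 2 ε ≤ exp (-H)` -/
theorem num_fin {H : ℝ} {c0 : ℕ} (hH : 2 ≤ H) (hc0 : 4 ≤ c0) :
    (28 + 450 * H ^ 2 * 14) * Real.exp (-H ^ c0) ≤ Real.exp (-H) := by
  have h1 : Real.exp (-H ^ c0) ≤ Real.exp (-H) * (Real.exp (7 * H))⁻¹ := by
    rw [← Real.exp_neg, ← Real.exp_add]
    exact Real.exp_le_exp.2 (by have := num_pow hH hc0; linarith)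
  have h2 : Real.exp (7 * H) = Real.exp H ^ 7 := by
    rw [← Real.exp_nat_mul]
    norm_num
  have h3 : 28 + 450 * H ^ 2 * 14 ≤ Real.exp (7 * H) := by
    rw [h2]
    have h4 := num_exp hH
    have h5 : (5 : ℝ) ≤ Real.exp H := by linarith
    have h6 : (5 : ℝ) ^ 5 ≤ Real.exp H ^ 5 := pow_le_pow_left₀ (by norm_num) h5 5
    have h7 : (5 / 2 * H) ^ 2 ≤ Real.exp H ^ 2 := pow_le_pow_left₀ (by linarith) h4 2
    have h8 : Real.exp H ^ 7 = Real.exp H ^ 5 * Real.exp H ^ 2 := by ring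
    have h9 : (5 : ℝ) ^ 5 * (5 / 2 * H) ^ 2 ≤ Real.exp H ^ 5 * Real.exp H ^ 2 :=
      mul_le_mul h6 h7 (by positivity) (by positivity)
    rw [h8]
    refine le_trans ?_ h9
    nlinarith
  have h4 : 0 < Real.exp (7 * H) := Real.exp_pos _
  calc (28 + 450 * H ^ 2 * 14) * Real.exp (-H ^ c0)
      ≤ Real.exp (7 * H) * (Real.exp (-H) * (Real.exp (7 * H))⁻¹) :=
        mul_le_mul h3 h1 (Real.exp_pos _).le h4.le
    _ = Real.exp (-H) := by
        field_simp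

/-- **THE BOUND OF ONE PIECE** (right side of `piece_abs`) -/
theorem pieceNum_out {B : Type} {I : Finset B} {j D c0 c1 : ℕ} {β H NB q e3 pc J σK eK q2 : ℝ} {σ e hb : B → ℝ}
    {U0 : B} (hH : 2 ≤ H) (hβ : 0 < β) (hβH : 1 / β ≤ H) (hc0 : 4 ≤ c0) (hc1 : D + c0 + j + 2 ≤ c1)
    (hI : (I.card : ℝ) ≤ 2 ^ j) (hU0 : U0 ∈ I) (NB0 : 0 ≤ NB) (NB1 : NB ≤ 36) (hq : q ≤ Real.exp (-H ^ c0))
    (he3 : e3 ≤ Real.exp (-H ^ c0)) (hpc : pc ≤ Real.exp (-H ^ c0)) (hJ : J ≤ Real.exp (H ^ D))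
    (hhb : ∀ U ∈ I, hb U ≤ Real.exp (H ^ D)) (hσ0 : ∀ U ∈ I, 0 ≤ σ U) (hσ : ∀ U ∈ I, σ U ≤ Real.exp (-H ^ c1))
    (he : ∀ U ∈ I, e U ≤ Real.exp (-H ^ c1)) (hσK0 : 0 ≤ σK) (hσK : σK ≤ Real.exp (-H ^ c1))
    (heK : eK ≤ Real.exp (-H ^ c1)) (hq2 : q2 = (q + (∑ U ∈ I, e U + (eK + pc))) + q + 2 * J * (σK + ∑ U ∈ I, σ U)) :
    pc + (2 * NB / (4 * (β / 5) ^ 2) * ((pc + (σ U0 + e U0)) + e3 + ∑ U ∈ I, σ U * hb U + q2) + 3 * q2) ≤
      Real.exp (-H) := by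
  set ε := Real.exp (-H ^ c0) with hε
  set δ := Real.exp (-H ^ c1) with hδ
  set s := Real.exp (H ^ D) with hs
  have hε0 : 0 < ε := Real.exp_pos _
  have hδ0 : 0 < δ := Real.exp_pos _
  have hs0 : 0 < s := Real.exp_pos _
  have hs1 : 1 ≤ s := Real.one_le_exp (by positivity)
  have hab : (2 : ℝ) ^ (j + 1) * (s * δ) ≤ ε := num_abs hH hc1
  have h2j : (1 : ℝ) ≤ 2 ^ j := one_le_pow₀ (by norm_num)
  have h2j' : (2 : ℝ) ^ (j + 1) = 2 * 2 ^ j := by ring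
  have hsδ : δ ≤ s * δ := by nlinarith
  have hsd0 : 0 < s * δ := by positivity
  -- single pieces
  have b1 : 2 ^ j * (s * δ) ≤ ε / 2 := by rw [h2j'] at hab; linarith
  have b2 : s * δ ≤ ε / 2 := le_trans (by nlinarith) b1
  have b3 : δ ≤ ε / 2 := hsδ.trans b2
  have b4 : 2 ^ j * δ ≤ ε / 2 := le_trans (mul_le_mul_of_nonneg_left hsδ (by positivity)) b1
  have c1' : ∑ U ∈ I, e U ≤ 2 ^ j * δ := by
    refine (Finset.sum_le_sum he).trans ?_
    rw [Finset.sum_const, nsmul_eq_mul]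
    exact mul_le_mul_of_nonneg_right hI hδ0.le
  have c2 : ∑ U ∈ I, σ U ≤ 2 ^ j * δ := by
    refine (Finset.sum_le_sum hσ).trans ?_
    rw [Finset.sum_const, nsmul_eq_mul]
    exact mul_le_mul_of_nonneg_right hI hδ0.le
  have c20 : 0 ≤ ∑ U ∈ I, σ U := Finset.sum_nonneg hσ0
  have c3 : ∑ U ∈ I, σ U * hb U ≤ 2 ^ j * (s * δ) := by
    have h1 : ∀ U ∈ I, σ U * hb U ≤ s * δ := fun U hU => by
      have h2 : σ U * hb U ≤ σ U * s := mul_le_mul_of_nonneg_left (hhb U hU) (hσ0 U hU)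
      have h3 : σ U * s ≤ δ * s := mul_le_mul_of_nonneg_right (hσ U hU) hs0.le
      linarith
    refine (Finset.sum_le_sum h1).trans ?_
    rw [Finset.sum_const, nsmul_eq_mul]
    exact mul_le_mul_of_nonneg_right hI hsd0.le
  have c4 : 2 * J * (σK + ∑ U ∈ I, σ U) ≤ 2 * ε := by
    have h1 : 2 * J * (σK + ∑ U ∈ I, σ U) ≤ 2 * s * (σK + ∑ U ∈ I, σ U) :=
      mul_le_mul_of_nonneg_right (by linarith) (by linarith)
    have h2 : 2 * s * (σK + ∑ U ∈ I, σ U) ≤ 2 * s * (δ + 2 ^ j * δ) :=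
      mul_le_mul_of_nonneg_left (by linarith) (by positivity)
    have h3 : 2 * s * (δ + 2 ^ j * δ) = 2 * (s * δ) + 2 * (2 ^ j * (s * δ)) := by ring
    linarith
  have c5 : q2 ≤ 6 * ε := by
    rw [hq2]
    linarith
  have c6 : (pc + (σ U0 + e U0)) + e3 + ∑ U ∈ I, σ U * hb U + q2 ≤ 14 * ε := by
    have h1 := hσ U0 hU0
    have h2 := he U0 hU0
    linarith
  have c7 : 2 * NB / (4 * (β / 5) ^ 2) ≤ 450 * H ^ 2 := by
    have h1 : 1 ≤ H * β := by rwa [div_le_iff₀ hβ] at hβH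
    rw [div_le_iff₀ (by positivity)]
    have h2 : 1 ≤ (H * β) ^ 2 := one_le_pow₀ h1
    have h3 : 450 * H ^ 2 * (4 * (β / 5) ^ 2) = 72 * (H * β) ^ 2 := by ring
    rw [h3]
    linarith
  have c70 : 0 ≤ 2 * NB / (4 * (β / 5) ^ 2) := by positivity
  have c8 : 2 * NB / (4 * (β / 5) ^ 2) * ((pc + (σ U0 + e U0)) + e3 + ∑ U ∈ I, σ U * hb U + q2) ≤
      450 * H ^ 2 * (14 * ε) :=
    (mul_le_mul_of_nonneg_left c6 c70).trans (mul_le_mul_of_nonneg_right c7 (by positivity))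
  refine le_trans ?_ (num_fin hH hc0)
  have h9 : (28 + 450 * H ^ 2 * 14) * Real.exp (-H ^ c0) = 28 * ε + 450 * H ^ 2 * (14 * ε) := by
    rw [← hε]
    ring
  rw [h9]
  linarith

/-- **THE CUT**: after `p` changes the known face is zero -/
theorem pieceNum_cut {H : ℝ} (hH : 2 ≤ H) {c0 c : ℕ} (hc : c0 ≤ c + 2) (hc4 : 3 ≤ c + 2) :
    ∃ k p : ℕ, (k : ℝ) * (4 * H) ≤ (p : ℝ) + 1 ∧ ((1 : ℝ) / 2) ^ k ≤ Real.exp (-H ^ c0) ∧
      (p : ℝ) + 1 ≤ Real.exp (H ^ (c + 2)) := by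
  have hH1 : (1 : ℝ) ≤ H := by linarith
  set y := H ^ (c + 2) with hy
  have hy8 : 8 ≤ y := by
    have h1 : (2 : ℝ) ^ 3 ≤ H ^ 3 := pow_le_pow_left₀ (by norm_num) hH 3
    have h2 : H ^ 3 ≤ H ^ (c + 2) := pow_le_pow_right₀ hH1 hc4
    linarith
  have hHy : H ≤ y / 4 := by
    have h1 : H ^ 3 ≤ y := pow_le_pow_right₀ hH1 hc4
    nlinarith [sq_nonneg (H - 2)]
  have hc0y : H ^ c0 ≤ y := pow_le_pow_right₀ hH1 hc
  set k := ⌈2 * H ^ c0⌉₊ with hk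
  have hk1 : 2 * H ^ c0 ≤ k := Nat.le_ceil _
  have hk2 : (k : ℝ) < 2 * H ^ c0 + 1 := Nat.ceil_lt_add_one (by positivity)
  set p := ⌈(k : ℝ) * (4 * H)⌉₊ with hp
  have hp1 : (k : ℝ) * (4 * H) ≤ p := Nat.le_ceil _
  have hp2 : (p : ℝ) < (k : ℝ) * (4 * H) + 1 := Nat.ceil_lt_add_one (by positivity)
  refine ⟨k, p, by linarith, ?_, ?_⟩
  · have h1 : ((1 : ℝ) / 2) ≤ Real.exp (-(1 / 2)) := by
      have := Real.add_one_le_exp (-(1 / 2) : ℝ)
      linarith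
    calc ((1 : ℝ) / 2) ^ k ≤ Real.exp (-(1 / 2)) ^ k := pow_le_pow_left₀ (by norm_num) h1 k
      _ = Real.exp ((k : ℝ) * -(1 / 2)) := by rw [← Real.exp_nat_mul]
      _ ≤ Real.exp (-H ^ c0) := Real.exp_le_exp.2 (by linarith)
  · have h1 : (p : ℝ) + 1 ≤ (2 * y + 1) * y + 2 := by
      have h2 : (k : ℝ) * (4 * H) ≤ (2 * y + 1) * y := by
        refine mul_le_mul (by linarith) (by linarith) (by positivity) (by positivity)
      linarith
    have h3 : (2 * y + 1) * y + 2 ≤ Real.exp y := by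
      have h4 : y ^ 4 / 24 + y ^ 3 / 6 ≤ Real.exp y := by
        have h5 := Real.sum_le_exp_of_nonneg (show 0 ≤ y by linarith) 5
        simp only [Finset.sum_range_succ, Finset.sum_range_zero, Nat.factorial] at h5
        norm_num at h5
        nlinarith [sq_nonneg y]
      refine le_trans ?_ h4
      have h5 : 64 ≤ y ^ 2 := by nlinarith
      have h6 : 64 * y ^ 2 ≤ y ^ 4 := by
        have h7 : y ^ 4 = y ^ 2 * y ^ 2 := by ring
        rw [h7]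
        exact mul_le_mul_of_nonneg_right h5 (by positivity)
      have h8 : 64 * y ≤ y ^ 3 := by
        have h9 : y ^ 3 = y ^ 2 * y := by ring
        rw [h9]
        exact mul_le_mul_of_nonneg_right h5 (by linarith)
      nlinarith
    linarith

end

end Pool.Agent.GM
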