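import Pool.Agent.GM.SMIfix
import Pool.Agent.GMN.Ext

/-!
# GM/SMIcoin (helper85): more coins

`S : Sys`, `addCoins S Ξ2` = more coins (helper13).  `e : CExt S S'`, `e.pc` bijective = the SAME coins.

* `at_mv`, `future_mv`, `rare_mv` : moving objects of `S` as moving objects of `S'`;
* `SMIat_of_ext` : `S'.SMIat` gives `S.SMIat`;
* `binAdd` : the binary model with coins `Ξ × Ξ2` is the binary model with coins `Ξ` and the additional coins `Ξ2`;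
  `SMIat_binAdd`;
* `assocAdd`, `SMIat_assoc`, `SMIat_unit` : twice more coins, trivial coins.
-/

set_option autoImplicit false
set_option linter.unusedSectionVars false

namespace Pool.Agent.GMN

open Finset Pool.Agent.PWZ Pool.Agent.M3 Pool.Agent.M3.TS Pool.Agent.M3.Bin Pool.Agent.GM
open Pool.Agent.M3.Mod (ex)

noncomputable section

/-! ### the same coins -/

namespace CExt

variable {ι Om Ξ Pt V Γ κ Om' Ξ' : Type} [Fintype ι] [DecidableEq ι] [Fintype Om] [Fintype Ξ] [Fintype Pt]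
  [Fintype V] [Fintype Om'] [Fintype Ξ'] {S : Sys ι Om Ξ Pt V Γ κ} {S' : Sys ι Om' Ξ' Pt V Γ κ} (e : CExt S S')

/-- a moving object of `S` as a moving object of `S'` -/
def mv {β : Type} (f : Mov Ξ ι Pt Γ β) : Mov Ξ' ι Pt Γ β := fun t g ξ x => f t g (e.pc ξ) x

theorem at_mv {β : Type} (f : Mov Ξ ι Pt Γ β) (t : ℕ) (w : Om') : S'.at' (e.mv f) t w = S.at' f t (e.pi w) := by
  show f t (S'.gm t w) (e.pc (S'.xi w)) (S'.x w) = f t (S.gm t (e.pi w)) (S.xi (e.pi w)) (S.x (e.pi w))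
  rw [e.gm, e.x, e.xi]

theorem stI_pi (hb : Function.Injective e.pc) (I : Finset ι) (t : ℕ) {w w' : Om'}
    (h : S.stI I t (e.pi w) = S.stI I t (e.pi w')) : S'.stI I t w = S'.stI I t w' := by
  have h1 : S.xi (e.pi w) = S.xi (e.pi w') := congrArg (fun p => p.1) h
  have h2 : res I (S.x (e.pi w)) = res I (S.x (e.pi w')) := congrArg (fun p => p.2.1) h
  have h3 : S.gm t (e.pi w) = S.gm t (e.pi w') := congrArg (fun p => p.2.2) h
  rw [e.xi, e.xi] at h1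
  rw [← e.x, ← e.x] at h2
  rw [← e.gm, ← e.gm] at h3
  exact Prod.ext (hb h1) (Prod.ext h2 h3)

/-- a function of a state of `S'` is a function of the state of `S` -/
theorem exists_fac (hb : Function.Injective e.pc) (I : Finset ι) (t : ℕ) {φ' : Om' → ℝ} (hφ : Fac (S'.stI I t) φ')
    (h0 : ∀ w, 0 ≤ φ' w) : ∃ φ : Om → ℝ, Fac (S.stI I t) φ ∧ (∀ v, 0 ≤ φ v) ∧ ∀ w, φ' w = φ (e.pi w) := by
  classical
  refine ⟨fun v => if h : ∃ w', S.stI I t (e.pi w') = S.stI I t v then φ' h.choose else 0, ?_, ?_, ?_⟩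
  · intro v v' hv
    simp only
    by_cases h : ∃ w', S.stI I t (e.pi w') = S.stI I t v
    · have h' : ∃ w', S.stI I t (e.pi w') = S.stI I t v' := by rw [← hv]; exact h
      rw [dif_pos h, dif_pos h']
      refine hφ _ _ (e.stI_pi hb I t ?_)
      rw [h.choose_spec, h'.choose_spec, hv]
    · have h' : ¬ ∃ w', S.stI I t (e.pi w') = S.stI I t v' := by rw [← hv]; exact h
      rw [dif_neg h, dif_neg h']
  · intro v
    simp only
    split_ifs with h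
    · exact h0 _
    · exact le_rfl
  · intro w
    have h : ∃ w', S.stI I t (e.pi w') = S.stI I t (e.pi w) := ⟨w, rfl⟩
    simp only
    rw [dif_pos h]
    exact hφ _ _ (e.stI_pi hb I t h.choose_spec.symm)

theorem future_mv (hb : Function.Injective e.pc) {β : Type} {I : Finset ι} {f : Mov Ξ ι Pt Γ β} {m0 : ℝ}
    (H : S.Future I f m0) : S'.Future I (e.mv f) m0 := by
  intro t φ' hφ' h0
  obtain ⟨φ, hφ, h1, h2⟩ := e.exists_fac hb I t hφ' h0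
  have h3 := H t φ hφ h1
  have h4 : S'.P.E φ' = S.P.E φ := by
    rw [← e.E φ]
    exact S'.P.E_congr fun w _ => h2 w
  rw [h4, e.n]
  refine le_trans (le_of_eq (Finset.sum_congr rfl fun u _ => ?_)) h3
  rw [← e.E (fun w => φ w * ind (S.at' f (u + 1) w ≠ S.at' f u w))]
  refine S'.P.E_congr fun w _ => ?_
  rw [h2, e.at_mv, e.at_mv]

theorem rare_mv (hb : Function.Bijective e.pc) {Vj : Finset ι} {w : ι} {Ψ : Mov Ξ ι Pt Γ (V → ℝ)} {θ acc : ℝ}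
    (H : S.Rare Vj w Ψ θ acc) : S'.Rare Vj w (e.mv Ψ) θ acc := by
  intro t ht w0 y u hu hu1
  have h1 := H t (by rw [← e.n]; exact ht) (e.pi w0) y u hu hu1
  have hbox : ∀ z, S'.Box Vj t y z = S.Box Vj t y z := by
    intro z
    unfold Sys.Box
    rw [e.cl]
  have h2 : ∀ F : Ξ → ℝ, ∑ ξ : Ξ', F (e.pc ξ) = ∑ ξ : Ξ, F ξ := fun F =>
    (Equiv.ofBijective e.pc hb).sum_comp F
  have h3 := h2 (fun ξ => ∑ z : ι → Pt, ind (S.Box Vj t y z ∧
    acc ≤ |iw (S.ρ t (S.gm t (e.pi w0))) (Ψ t (S.gm t (e.pi w0)) ξ z) (fun d => ∏ i ∈ Vj.erase w, u i z d)|))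
  have h4 := h2 (fun _ => ∑ z : ι → Pt, ind (S.Box Vj t y z))
  rw [← h3, ← h4] at h1
  refine le_trans (le_of_eq ?_) (h1.trans (le_of_eq ?_))
  · refine Finset.sum_congr rfl fun ξ _ => Finset.sum_congr rfl fun z _ => ?_
    rw [hbox, e.ρ, e.gm]
    rfl
  · congr 1
    refine Finset.sum_congr rfl fun ξ _ => Finset.sum_congr rfl fun z _ => ?_
    rw [hbox]

/-- **the same coins**: (SMI_j) of `S'` gives (SMI_j) of `S` -/
theorem SMIat_of_ext (hb : Function.Bijective e.pc) {Vj : Finset ι} {δ : ι} {X m0 θ acc r out : ℝ}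
    (H : S'.SMIat Vj δ X m0 θ acc r out) : S.SMIat Vj δ X m0 θ acc r out := by
  intro Ψ h1 h2 h3 h4 h5 h6
  have h := H (fun i => e.mv (Ψ i)) (fun w hw t g ξ => h1 w hw t g (e.pc ξ))
    (fun w hw hd t g ξ ξ' => h2 w hw hd t g (e.pc ξ) (e.pc ξ')) (fun w hw t g ξ x d => h3 w hw t g (e.pc ξ) x d)
    (fun w hw g ξ x => h4 w hw g (e.pc ξ) x) (fun w hw => e.future_mv hb.1 (h5 w hw))
    (fun w hw => e.rare_mv hb (h6 w hw))
  rw [← e.Pr]
  refine le_trans (le_of_eq ?_) h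
  refine S'.P.Pr_congr fun w _ => ?_
  rw [e.n]
  refine exists_congr fun t => and_congr_right fun _ => ?_
  rw [e.J]
  have h7 : (fun d => ∏ i ∈ Vj, S'.at' (e.mv (Ψ i)) t w d) = fun d => ∏ i ∈ Vj, S.at' (Ψ i) t (e.pi w) d := by
    funext d
    exact Finset.prod_congr rfl fun i _ => by rw [e.at_mv]
  rw [h7]

end CExt

/-! ### the binary model -/

section bin

variable {k N : ℕ} {ι Θ Ξ Q : Type} [Fintype ι] [DecidableEq ι] (σ : V k) [Fintype Θ] [Nonempty Θ] [Fintype Ξ]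
  [Nonempty Ξ] [Fintype Q] [Nonempty Q] (Ξ2 : Type) [Fintype Ξ2] [Nonempty Ξ2]

/-- without the coins `Ξ2` -/
def dropc (ω : Sq k N ι Θ ((Ξ × Ξ2) × Q)) : Sq k N ι Θ (Ξ × Q) :=
  (ω.1, fun j => (((ω.2.1 j).1.1.1, (ω.2.1 j).1.2), (ω.2.1 j).2), ω.2.2)

/-- the sample points with coins `Ξ × Ξ2` -/
def addE (i : ι) : Sq k N ι Θ ((Ξ × Ξ2) × Q) ≃ (Sq k N ι Θ (Ξ × Q) × Ξ2) × ({l : ι // l ≠ i} → Ξ2) where
  toFun ω := ((dropc Ξ2 ω, (xm i ω).2), fun l => (xm l.1 ω).2)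
  invFun p := (p.1.1.1, fun j => ((((p.1.1.2.1 j).1.1, if h : j = i then p.1.2 else p.2 ⟨j, h⟩),
    (p.1.1.2.1 j).1.2), (p.1.1.2.1 j).2), p.1.1.2.2)
  left_inv ω := by
    refine Prod.ext rfl (Prod.ext ?_ rfl)
    funext j
    refine Prod.ext (Prod.ext (Prod.ext rfl ?_) rfl) rfl
    show (if h : j = i then (xm i ω).2 else (xm j ω).2) = (xm j ω).2
    split_ifs with h
    · rw [h]
    · rfl
  right_inv p := by
    refine Prod.ext (Prod.ext rfl ?_) ?_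
    · exact dif_pos rfl
    · funext l
      exact dif_neg l.2

theorem E_addE (i : ι) (f : Sq k N ι Θ (Ξ × Q) × Ξ2 → ℝ) :
    (PM k N ι Θ (Ξ × Ξ2) Q).E (fun ω => f (dropc Ξ2 ω, (xm i ω).2)) = (coinFP (PM k N ι Θ Ξ Q) Ξ2).E f := by
  rw [coinFP_E]
  unfold PM Pm
  rw [FP.unif_E, FP.unif_E]
  have h1 : ∑ ω : Sq k N ι Θ ((Ξ × Ξ2) × Q), f (dropc Ξ2 ω, (xm i ω).2) =
      ∑ p : (Sq k N ι Θ (Ξ × Q) × Ξ2) × ({l : ι // l ≠ i} → Ξ2), f p.1 :=
    Equiv.sum_comp (addE Ξ2 i) (fun p => f p.1)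
  rw [h1, Fintype.sum_prod_type, Fintype.card_congr (addE (k := k) (N := N) (Θ := Θ) (Ξ := Ξ) (Q := Q) Ξ2 i),
    Fintype.card_prod (Sq k N ι Θ (Ξ × Q) × Ξ2) ({l : ι // l ≠ i} → Ξ2), Fintype.card_prod (Sq k N ι Θ (Ξ × Q)) Ξ2]
  have h2 : ∀ x : Sq k N ι Θ (Ξ × Q) × Ξ2, ∑ _y : {l : ι // l ≠ i} → Ξ2, f x =
      (Fintype.card ({l : ι // l ≠ i} → Ξ2) : ℝ) * f x := by
    intro x
    rw [Finset.sum_const, Finset.card_univ, nsmul_eq_mul]
  simp only [h2]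
  rw [← Finset.mul_sum, ← Finset.sum_div, Fintype.sum_prod_type]
  have h3 : (Fintype.card ({l : ι // l ≠ i} → Ξ2) : ℝ) ≠ 0 := Nat.cast_ne_zero.mpr Fintype.card_ne_zero
  have h4 : (Fintype.card (Sq k N ι Θ (Ξ × Q)) : ℝ) ≠ 0 := Nat.cast_ne_zero.mpr Fintype.card_ne_zero
  have h5 : (Fintype.card Ξ2 : ℝ) ≠ 0 := Nat.cast_ne_zero.mpr Fintype.card_ne_zero
  push_cast
  field_simp

/-- **the binary model with more coins** -/
def binAdd (i : ι) (hN : N ≤ k) (h : ℕ) :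
    CExt (addCoins (binSys Θ Ξ Q σ i hN h) Ξ2) (binSys Θ (Ξ × Ξ2) Q σ i hN h) where
  pi ω := (dropc Ξ2 ω, (xm i ω).2)
  pc ξ := ξ
  E f := E_addE Ξ2 i f
  x _ := rfl
  xi _ := rfl
  n := rfl
  gm _ _ := rfl
  par := rfl
  cl := rfl
  ρ := rfl
  J _ _ := rfl
  near := rfl
  K := rfl

theorem SMIat_binAdd (i : ι) (hN : N ≤ k) (h : ℕ) {Vj : Finset ι} {δ : ι} {X m0 θ acc r out : ℝ}
    (H : (binSys Θ (Ξ × Ξ2) Q σ i hN h).SMIat Vj δ X m0 θ acc r out) :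
    (addCoins (binSys Θ Ξ Q σ i hN h) Ξ2).SMIat Vj δ X m0 θ acc r out :=
  (binAdd σ Ξ2 i hN h).SMIat_of_ext Function.bijective_id H

end bin

/-! ### twice more coins -/

section assoc

variable {ι Om Ξ Pt V Γ κ : Type} [Fintype ι] [DecidableEq ι] [Fintype Om] [Fintype Ξ] [Fintype Pt]
  [Fintype V] (S : Sys ι Om Ξ Pt V Γ κ) (Ξ2 Ξ3 : Type) [Fintype Ξ2] [Nonempty Ξ2] [Fintype Ξ3] [Nonempty Ξ3]

/-- twice more coins = a pair of coins -/
def assocAdd : CExt (addCoins (addCoins S Ξ2) Ξ3) (addCoins S (Ξ2 × Ξ3)) where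
  pi w := ((w.1, w.2.1), w.2.2)
  pc ξ := ((ξ.1, ξ.2.1), ξ.2.2)
  E f := by
    have h1 := coinFP_E (coinFP S.P Ξ2) Ξ3 f
    have h2 := coinFP_E S.P Ξ2 (fun w => (∑ z, f (w, z)) / Fintype.card Ξ3)
    have h3 := coinFP_E S.P (Ξ2 × Ξ3) (fun w => f ((w.1, w.2.1), w.2.2))
    show (coinFP S.P (Ξ2 × Ξ3)).E (fun w => f ((w.1, w.2.1), w.2.2)) = (coinFP (coinFP S.P Ξ2) Ξ3).E f
    rw [h1, h2, h3]
    refine S.P.E_congr fun w _ => ?_
    rw [Fintype.sum_prod_type, Fintype.card_prod, ← Finset.sum_div]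
    push_cast
    have h4 := (cX2 Ξ2).ne'
    have h5 := (cX2 Ξ3).ne'
    rw [div_div]
    congr 1
    ring
  x _ := rfl
  xi _ := rfl
  n := rfl
  gm _ _ := rfl
  par := rfl
  cl := rfl
  ρ := rfl
  J _ _ := rfl
  near := rfl
  K := rfl

theorem assocAdd_pc : Function.Bijective (assocAdd S Ξ2 Ξ3).pc := by
  constructor
  · intro a b h
    have h1 : ((a.1, a.2.1), a.2.2) = ((b.1, b.2.1), b.2.2) := h
    obtain ⟨h2, h3⟩ := Prod.ext_iff.1 h1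
    obtain ⟨h4, h5⟩ := Prod.ext_iff.1 h2
    exact Prod.ext h4 (Prod.ext h5 h3)
  · rintro ⟨⟨a, b⟩, c⟩
    exact ⟨(a, b, c), rfl⟩

theorem SMIat_assoc {Vj : Finset ι} {δ : ι} {X m0 θ acc r out : ℝ}
    (H : (addCoins S (Ξ2 × Ξ3)).SMIat Vj δ X m0 θ acc r out) :
    (addCoins (addCoins S Ξ2) Ξ3).SMIat Vj δ X m0 θ acc r out :=
  (assocAdd S Ξ2 Ξ3).SMIat_of_ext (assocAdd_pc S Ξ2 Ξ3) H

/-- trivial coins -/
theorem add_unit_pc : Function.Bijective (CExt.add S Unit).pc := by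
  constructor
  · intro a b h
    exact Prod.ext h rfl
  · intro a
    exact ⟨(a, ()), rfl⟩

theorem SMIat_unit {Vj : Finset ι} {δ : ι} {X m0 θ acc r out : ℝ}
    (H : (addCoins S Unit).SMIat Vj δ X m0 θ acc r out) : S.SMIat Vj δ X m0 θ acc r out :=
  (CExt.add S Unit).SMIat_of_ext (add_unit_pc S) H

end assoc

end

end Pool.Agent.GMN
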