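import Pool.Agent.GM.PieceDef
import Pool.Agent.GM.SMIcoin

/-!
# GM/Reloc (helper66): relocation of the coins, row A11d

`S' : CExt S` with the same coins (`e.pc` bijective):
* `mvBL`, `mvFaces`, `mvStrF` : births, faces, structured faces of `S` as objects of `S'`;
* **`pieceAt_of_ext`** : `PieceAt S'` gives `PieceAt S`.
The binary model:
* `swp i a` : exchange of the coins of two vertices, `binSwap` : `CExt` of `binSys .. i ..` and `binSys .. a ..`;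
* `pieceAt_swap`, `SMIat_swap` : the vertex which carries the coins is irrelevant;
* `PieceBinH j κ C` : the contract for hidden vertices only (`a ≠ q`, `a ≠ δ`), **`pieceBin_of_hid`** : `3 ≤ j`,
  `PieceBinH j κ C → PieceBin j κ C`; `PieceBinH0`, `pieceBin0_of_hid` : without coins.
-/

set_option autoImplicit false
set_option linter.unusedSectionVars false

namespace Pool.Agent.GM.Reloc

open Finset Pool.Agent.PWZ Pool.Agent.M3 Pool.Agent.M3.TS Pool.Agent.M3.Bin Pool.Agent.GM Pool.Agent.GM.Mv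
open Pool.Agent.GM.GS Pool.Agent.GMN
open Pool.Agent.M3.Mod (ex)

noncomputable section

/-! ### the same coins -/

section ext

variable {ι Om Ξ Pt V Γ κ Om' Ξ' : Type} [Fintype ι] [DecidableEq ι] [Fintype Om] [Fintype Ξ] [Fintype Pt]
  [Fintype V] [Fintype Om'] [Fintype Ξ'] {S : Sys ι Om Ξ Pt V Γ κ} {S' : Sys ι Om' Ξ' Pt V Γ κ} (e : CExt S S')
  (hb : Function.Bijective e.pc) {Vj : Finset ι}

/-- lists of births of `S` as lists of births of `S'` -/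
def mvBL {q : ι} {m T : ℝ} (b : BL S Vj q m T) : BL S' Vj q m T where
  L := e.mv b.L
  B := e.mv b.B
  dep t g ξ := b.dep t g (e.pc ξ)
  cell t g ξ ξ' x y h1 h2 := b.cell t g (e.pc ξ) (e.pc ξ') x y h1 (fun i hi hq => by rw [← e.cl]; exact h2 i hi hq)
  zero g ξ x := b.zero g (e.pc ξ) x
  suf t g ξ x := by
    show b.L t (S'.par t g) (e.pc ξ) x <:+ b.L (t + 1) g (e.pc ξ) x
    rw [e.par]
    exact b.suf t g (e.pc ξ) x
  nodup t g ξ x := b.nodup t g (e.pc ξ) x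
  time t g ξ x s hs := b.time t g (e.pc ξ) x s hs
  btime t g ξ x s hs := b.btime t g (e.pc ξ) x s hs
  new t g ξ x s hs := by
    show s ∈ b.L t (S'.par t g) (e.pc ξ) x ∨ s ∈ b.B (t + 1) g (e.pc ξ) x
    rw [e.par]
    exact b.new t g (e.pc ξ) x s hs
  fut := e.future_mv hb.1 b.fut
  tail k := by
    refine le_trans (le_of_eq ?_) (b.tail k)
    rw [← e.Pr]
    refine S'.P.Pr_congr fun w _ => ?_
    rw [e.at_mv, e.n]
  pub := by
    refine le_trans (le_of_eq ?_) b.pub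
    rw [← e.E]
    refine S'.P.E_congr fun w _ => ?_
    rw [e.n]
    exact Finset.sum_congr rfl fun t _ => by rw [e.at_mv]

include hb in
theorem mvFaces {δ : ι} {F : ι → Mov Ξ ι Pt Γ (V → ℝ)} {m θ acc : ℝ} (H : Faces S Vj δ F m θ acc) :
    Faces S' Vj δ (fun i => e.mv (F i)) m θ acc where
  dep w hw t g ξ := H.dep w hw t g (e.pc ξ)
  coin w hw hd t g ξ ξ' := H.coin w hw hd t g (e.pc ξ) (e.pc ξ')
  bd w hw t g ξ x d := H.bd w hw t g (e.pc ξ) x d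
  zero w hw g ξ x := H.zero w hw g (e.pc ξ) x
  fut w hw := e.future_mv hb.1 (H.fut w hw)
  rare w hw := e.rare_mv hb (H.rare w hw)

/-- structured faces -/
def mvStrF {δ q : ι} {F : Mov Ξ ι Pt Γ (V → ℝ)} {m T : ℝ} (H : StrF S Vj δ q F m T) :
    StrF S' Vj δ q (e.mv F) m T where
  e0 := H.e0
  e1 := H.e1
  pe0 := H.pe0
  pe1 := H.pe1
  b0 := mvBL e hb H.b0
  b1 := mvBL e hb H.b1
  coin0 hq t g ξ ξ' := H.coin0 hq t g (e.pc ξ) (e.pc ξ')
  coin1 hq t g ξ ξ' := H.coin1 hq t g (e.pc ξ) (e.pc ξ')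
  eq t g ξ x d := H.eq t g (e.pc ξ) x d

/-- the process of the lifted faces -/
theorem pr_mv (F : ι → Mov Ξ ι Pt Γ (V → ℝ)) (r : ℝ) :
    S'.P.Pr (fun w => ∃ t ≤ S'.n,
      r ≤ |iw (S'.J t w) (fun d => ∏ i ∈ Vj, S'.at' (e.mv (F i)) t w d) (fun _ => 1)|) =
    S.P.Pr (fun w => ∃ t ≤ S.n, r ≤ |iw (S.J t w) (fun d => ∏ i ∈ Vj, S.at' (F i) t w d) (fun _ => 1)|) := by
  rw [← e.Pr]
  refine S'.P.Pr_congr fun w _ => ?_
  rw [e.n]
  refine exists_congr fun t => and_congr_right fun _ => ?_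
  rw [e.J]
  have h7 : (fun d => ∏ i ∈ Vj, S'.at' (e.mv (F i)) t w d) = fun d => ∏ i ∈ Vj, S.at' (F i) t (e.pi w) d := by
    funext d
    exact Finset.prod_congr rfl fun i _ => by rw [e.at_mv]
  rw [h7]

include hb in
/-- **the same coins**: the pieces of `S'` give the pieces of `S` -/
theorem pieceAt_of_ext {δ q : ι} {m T θ acc r out : ℝ} (H : PieceAt S' Vj δ q m T θ acc r out) :
    PieceAt S Vj δ q m T θ acc r out := by
  rintro F hF ⟨hS⟩
  rw [← pr_mv e]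
  exact H (fun i => e.mv (F i)) (mvFaces e hb hF) ⟨mvStrF e hb hS⟩

end ext

/-! ### exchange of the coins of two vertices -/

section swap

variable {k N : ℕ} {ι Θ Ξ Q : Type} [DecidableEq ι] (i a : ι)

/-- exchange of the coins of the vertices `i` and `a` -/
def swf (ω : Sq k N ι Θ (Ξ × Q)) : Sq k N ι Θ (Ξ × Q) :=
  (ω.1, fun j => (((ω.2.1 (Equiv.swap i a j)).1.1, (ω.2.1 j).1.2), (ω.2.1 j).2), ω.2.2)

theorem swf_swf (ω : Sq k N ι Θ (Ξ × Q)) : swf i a (swf i a ω) = ω := by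
  refine Prod.ext rfl (Prod.ext ?_ rfl)
  funext j
  refine Prod.ext (Prod.ext ?_ rfl) rfl
  show (ω.2.1 (Equiv.swap i a (Equiv.swap i a j))).1.1 = (ω.2.1 j).1.1
  rw [Equiv.swap_apply_self]

/-- as a permutation of the sample points -/
def swp : Sq k N ι Θ (Ξ × Q) ≃ Sq k N ι Θ (Ξ × Q) where
  toFun := swf i a
  invFun := swf i a
  left_inv := swf_swf i a
  right_inv := swf_swf i a

theorem xm_swf (ω : Sq k N ι Θ (Ξ × Q)) : xm i (swf i a ω) = xm a ω := by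
  show (ω.2.1 (Equiv.swap i a i)).1.1 = (ω.2.1 a).1.1
  rw [Equiv.swap_apply_left]

variable [Fintype ι] (σ : V k) [Fintype Θ] [Nonempty Θ] [Fintype Ξ] [Nonempty Ξ] [Fintype Q] [Nonempty Q]

/-- **the coins at another vertex** -/
def binSwap (hN : N ≤ k) (h : ℕ) : CExt (binSys Θ Ξ Q σ i hN h) (binSys Θ Ξ Q σ a hN h) where
  pi := swf i a
  pc ξ := ξ
  E f := by
    show (PM k N ι Θ Ξ Q).E (fun w => f (swf i a w)) = (PM k N ι Θ Ξ Q).E f
    unfold PM Pm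
    rw [FP.unif_E, FP.unif_E]
    congr 1
    exact (swp i a).sum_comp f
  x _ := rfl
  xi ω := xm_swf i a ω
  n := rfl
  gm _ _ := rfl
  par := rfl
  cl := rfl
  ρ := rfl
  J _ _ := rfl
  near := rfl
  K := rfl

theorem pieceAt_swap (hN : N ≤ k) (h : ℕ) {Vj : Finset ι} {δ q : ι} {m T θ acc r out : ℝ}
    (H : PieceAt (binSys Θ Ξ Q σ a hN h) Vj δ q m T θ acc r out) :
    PieceAt (binSys Θ Ξ Q σ i hN h) Vj δ q m T θ acc r out :=
  pieceAt_of_ext (binSwap i a σ hN h) Function.bijective_id H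

theorem SMIat_swap (hN : N ≤ k) (h : ℕ) {Vj : Finset ι} {δ : ι} {X m0 θ acc r out : ℝ}
    (H : (binSys Θ Ξ Q σ a hN h).SMIat Vj δ X m0 θ acc r out) :
    (binSys Θ Ξ Q σ i hN h).SMIat Vj δ X m0 θ acc r out :=
  (binSwap i a σ hN h).SMIat_of_ext Function.bijective_id H

end swap

/-! ### the contract for hidden vertices -/

/-- the contract `GS.PieceBin` with the coins at a HIDDEN vertex `a`: `a ≠ q`, `a ≠ δ` -/
def PieceBinH (j : ℕ) (κ : ℝ) (C : ℕ) : Prop :=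
  ∀ (ι Θ Ξ Q : Type) [Fintype ι] [DecidableEq ι] [Fintype Θ] [Nonempty Θ] [Fintype Ξ] [Nonempty Ξ] [Fintype Q]
    [Nonempty Q] (k N : ℕ) (σ : V k) (a δ q : ι) (hN : N ≤ k) (h : ℕ), a ≠ q → a ≠ δ → Fintype.card ι = j →
    ∀ β H Λ : ℝ, 0 < β → β ≤ 1 / 2 → 1 / β ≤ H → (binSys Θ Ξ Q σ a hN h).K ≤ Real.exp H →
      (binSys Θ Ξ Q σ a hN h).near ≤ β ^ C → H ^ C ≤ Λ → Λ ≤ Real.exp H →
      PieceAt (binSys Θ Ξ Q σ a hN h) univ δ q H (H * Real.exp ((1 + κ) * Λ)) (Real.exp (-Λ)) (β ^ C) β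
        (Real.exp (-H))

/-- the same without coins -/
def PieceBinH0 (j : ℕ) (κ : ℝ) (C : ℕ) : Prop :=
  ∀ (ι Θ Q : Type) [Fintype ι] [DecidableEq ι] [Fintype Θ] [Nonempty Θ] [Fintype Q]
    [Nonempty Q] (k N : ℕ) (σ : V k) (a δ q : ι) (hN : N ≤ k) (h : ℕ), a ≠ q → a ≠ δ → Fintype.card ι = j →
    ∀ β H Λ : ℝ, 0 < β → β ≤ 1 / 2 → 1 / β ≤ H → (binSys Θ Unit Q σ a hN h).K ≤ Real.exp H →
      (binSys Θ Unit Q σ a hN h).near ≤ β ^ C → H ^ C ≤ Λ → Λ ≤ Real.exp H →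
      PieceAt (binSys Θ Unit Q σ a hN h) univ δ q H (H * Real.exp ((1 + κ) * Λ)) (Real.exp (-Λ)) (β ^ C) β
        (Real.exp (-H))

/-- there is a hidden vertex -/
theorem exists_hid {ι : Type} [Fintype ι] [DecidableEq ι] (h3 : 3 ≤ Fintype.card ι) (q δ : ι) :
    ∃ a, a ≠ q ∧ a ≠ δ := by
  by_contra hcon
  push Not at hcon
  have h1 : (univ : Finset ι) ⊆ {q, δ} := by
    intro a _
    rw [mem_insert, mem_singleton]
    by_cases h : a = q
    · exact Or.inl h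
    · exact Or.inr (hcon a h)
  have h2 := (Finset.card_le_card h1).trans Finset.card_le_two
  rw [Finset.card_univ] at h2
  omega

/-- **the coins may be put at a hidden vertex** -/
theorem pieceBin_of_hid {j : ℕ} (h3 : 3 ≤ j) {κ : ℝ} {C : ℕ} (H : PieceBinH j κ C) : PieceBin j κ C := by
  intro ι Θ Ξ Q _ _ _ _ _ _ _ _ k N σ i δ q hN h hj β Hh Λ h1 h2 h4 h5 h6 h7 h8
  obtain ⟨a, ha, ha'⟩ := exists_hid (by rw [hj]; exact h3) q δ
  exact pieceAt_swap i a σ hN h (H ι Θ Ξ Q k N σ a δ q hN h ha ha' hj β Hh Λ h1 h2 h4 h5 h6 h7 h8)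

/-- the same without coins -/
theorem pieceBin0_of_hid {j : ℕ} (h3 : 3 ≤ j) {κ : ℝ} {C : ℕ} (H : PieceBinH0 j κ C) : PieceBin0 j κ C := by
  intro ι Θ Q _ _ _ _ _ _ k N σ i δ q hN h hj β Hh Λ h1 h2 h4 h5 h6 h7 h8
  obtain ⟨a, ha, ha'⟩ := exists_hid (by rw [hj]; exact h3) q δ
  exact pieceAt_swap i a σ hN h (H ι Θ Q k N σ a δ q hN h ha ha' hj β Hh Λ h1 h2 h4 h5 h6 h7 h8)

end

end Pool.Agent.GM.Reloc
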