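import Pool.Agent.GM.Ref
import Pool.Agent.GM.Reloc
import Pool.Agent.GM.PieceX3
import Pool.Agent.GM.PieceNum
import Pool.Agent.GM.ColdBinE

/-!
# GM/PieceAsm (helper66): ONE PIECE from the named views, the cold sets and the natural coldness, row A11d

* `fine_num` : numbers of the fine rounding;
* **`piece_model`** : one piece of one coarse model: named view of the fine rounding (`NVBin`), known face cut;
* `NatA j free`, `ColdA j free` : as `NatCold`, `ColdHyp` of helper48, for the view of the vertex `a` WHICH CARRIES THE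
  COINS (`a ≠ δ`; with coins the other views are not cold); `coldA_of`, `coldA_of_hyp`;
* **`pieceBin_of`** : `NVBin j κ 4 c D`, `2 ≤ c`, `ColdA j False` give `PieceBin j κ C`, every `j ≥ 3`;
  **`pieceBin0_of`** : without coins from `ColdA j True`.
-/

set_option autoImplicit false
set_option linter.unusedSectionVars false

namespace Pool.Agent.GM.Asm

open Finset Pool.Agent.PWZ Pool.Agent.M3 Pool.Agent.M3.TS Pool.Agent.M3.Bin Pool.Agent.GM Pool.Agent.GM.Mv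
open Pool.Agent.GM.KVer Pool.Agent.GM.GS Pool.Agent.GM.Reloc
open Pool.Agent.GMC (famS)
open Pool.Agent.M3.Mod (ex)

noncomputable section

/-! ### the fine rounding -/

/-- numbers of the fine rounding: `Dn` more digits, the depth of the cold sets -/
theorem fine_num (j c : ℕ) (hc : 1 ≤ c) : ∃ cd : ℕ, ∀ H : ℝ, 2 ≤ H → ∀ h : ℕ,
    (((j + 4) * 2 ^ (h + 3) : ℕ) : ℝ) ≤ Real.exp H → ∃ Dn : ℕ, (2 : ℝ) ^ Dn ≤ Real.exp (3 * H ^ c) ∧
      ((2 : ℝ) ^ Dn)⁻¹ ≤ Real.exp (-H ^ c) ∧ ((h + Dn + j + 4 : ℕ) : ℝ) ≤ H ^ cd := by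
  obtain ⟨a, ha⟩ := pow_unbounded_of_one_lt ((j : ℝ) + 20) (by norm_num : (1 : ℝ) < 2)
  refine ⟨c + a, fun H hH h hK => ⟨⌈2 * H ^ c⌉₊, ?_, ?_, ?_⟩⟩
  all_goals
    have hc1 : 1 ≤ H ^ c := one_le_pow₀ (by linarith)
    have hl2 : Real.log 2 ≤ 1 := by
      have := Real.log_two_lt_d9
      linarith
    have hl2' : 1 / 2 ≤ Real.log 2 := by
      have := Real.log_two_gt_d9
      linarith
    have hexp : ∀ D : ℕ, (2 : ℝ) ^ D = Real.exp (D * Real.log 2) := by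
      intro D
      rw [mul_comm, Real.exp_mul, Real.exp_log (by norm_num), Real.rpow_natCast]
    have hce : (⌈2 * H ^ c⌉₊ : ℝ) ≤ 2 * H ^ c + 1 := (Nat.ceil_lt_add_one (by positivity)).le
  · rw [hexp]
    refine Real.exp_le_exp.2 ?_
    calc (⌈2 * H ^ c⌉₊ : ℝ) * Real.log 2 ≤ (2 * H ^ c + 1) * 1 :=
          mul_le_mul hce hl2 (by linarith) (by positivity)
      _ ≤ 3 * H ^ c := by linarith
  · rw [hexp, ← Real.exp_neg]
    refine Real.exp_le_exp.2 (neg_le_neg ?_)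
    have h1 : 2 * H ^ c ≤ (⌈2 * H ^ c⌉₊ : ℝ) := Nat.le_ceil _
    nlinarith
  · -- the rounding is at most `2 H`
    have h1 : (2 : ℝ) ^ h ≤ Real.exp H := by
      refine le_trans ?_ hK
      push_cast
      rw [pow_add]
      have h2 : (0 : ℝ) ≤ 2 ^ h := by positivity
      have h3 : (0 : ℝ) ≤ (j : ℝ) * 2 ^ h := by positivity
      nlinarith
    rw [hexp] at h1
    have h2 : (h : ℝ) * Real.log 2 ≤ H := Real.exp_le_exp.1 h1
    have h3 : (h : ℝ) ≤ 2 * H := by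
      have : (0 : ℝ) ≤ h := Nat.cast_nonneg h
      nlinarith
    have hHc : H ≤ H ^ c := by
      calc H = H ^ 1 := (pow_one H).symm
        _ ≤ H ^ c := pow_le_pow_right₀ (by linarith) hc
    push_cast
    have h4 : H ^ c * ((j : ℝ) + 20) ≤ H ^ (c + a) := by
      rw [pow_add]
      refine mul_le_mul_of_nonneg_left (ha.le.trans ?_) (by positivity)
      exact pow_le_pow_left₀ (by norm_num) hH a
    have h5 : (j : ℝ) ≤ j * H ^ c := le_mul_of_one_le_right (Nat.cast_nonneg j) hc1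
    linarith

section model

variable {k N : ℕ} {ι Θ Ξ Q : Type} [Fintype ι] [DecidableEq ι] [Fintype Θ] [Nonempty Θ] [Fintype Ξ] [Nonempty Ξ]
  [Fintype Q] [Nonempty Q]

theorem coldAt_mono {σ : V k} {i : ι} {hN : N ≤ k} {h : ℕ} {w : ι}
    {F : ι → Mov Ξ ι (Q × V k) (Θ × (V k × ℕ)) (V k → ℝ)} {r r' ρ out : ℝ} (H : ColdAt σ i hN h w F r ρ out)
    (hr : r ≤ r') : ColdAt σ i hN h w F r' ρ out := by
  refine le_trans (FP.Pr_mono _ fun ω _ => ?_) H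
  rintro ⟨t, ht, h1⟩
  exact ⟨t, ht, h1.trans (FP.ce_mono _ (fun v _ => ind_mono fun h2 => hr.trans h2) ω)⟩

/-- **ONE PIECE OF ONE COARSE MODEL** -/
theorem piece_model {j : ℕ} {κ : ℝ} {c D c1 cd : ℕ} (hc : 2 ≤ c) (hV : NVBin j κ 4 c D) (hcD : D + 4 + j + 3 ≤ c1)
    (hcd : cd ≤ c1)
    (hfine : ∀ H : ℝ, 2 ≤ H → ∀ h : ℕ, (((j + 4) * 2 ^ (h + 3) : ℕ) : ℝ) ≤ Real.exp H →
      ∃ Dn : ℕ, (2 : ℝ) ^ Dn ≤ Real.exp (3 * H ^ c) ∧ ((2 : ℝ) ^ Dn)⁻¹ ≤ Real.exp (-H ^ c) ∧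
        ((h + Dn + j + 4 : ℕ) : ℝ) ≤ H ^ cd)
    (σ : V k) {a δ q : ι} (hN : N ≤ k) (h : ℕ) (haq : a ≠ q) (haδ : a ≠ δ) (hj : Fintype.card ι = j)
    {β H Λ : ℝ} (hβ : 0 < β) (hβ2 : β ≤ 1 / 2) (hβH : 1 / β ≤ H) (hK : (binSys Θ Ξ Q σ a hN h).K ≤ Real.exp H)
    (hnear : (binSys Θ Ξ Q σ a hN h).near ≤ 1) (hΛ0 : 0 ≤ Λ) (hΛ : Λ ≤ Real.exp H)
    {F : ι → Mov Ξ ι (Q × V k) (Θ × (V k × ℕ)) (V k → ℝ)} {θ acc : ℝ} (hθ : 0 ≤ θ)
    (hF : GS.Faces (binSys Θ Ξ Q σ a hN h) univ δ F H θ acc)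
    (hS : Nonempty (StrF (binSys Θ Ξ Q σ a hN h) univ δ q (F q) H (H * Real.exp ((1 + κ) * Λ))))
    (hC : ∀ D0 : ℕ, (D0 : ℝ) ≤ H ^ c1 →
      (∀ U ∈ UU a, U ≠ univ.erase δ → ∃ Hot : ℕ → Sq k N ι Θ Q → Ξ → Prop,
        ColdX σ N h (fun θ ξ i => famS N h (F i) θ ξ) (fun _ => (Fintype.card Ξ : ℝ)⁻¹) U D0 (β ^ c1)
          (Real.exp (-H ^ c1)) (Real.exp (-H ^ c1)) Hot) ∧
      (∀ ξ : Ξ, ∃ Hot : ℕ → Sq k N ι Θ Q → Unit → Prop, ColdX σ N h (fun θ (_ : Unit) i => famS N h (F i) θ ξ)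
        (fun _ => 1) (univ.erase δ) D0 (β ^ c1) (Real.exp (-H ^ c1)) (Real.exp (-H ^ c1)) Hot) ∧
      GS.ColdAt σ a hN h a F (β ^ c1) (Real.exp (-H ^ c1)) (Real.exp (-H ^ c1))) :
    (PM k N ι Θ Ξ Q).Pr (fun w => ∃ t ≤ N, β ≤ |pT (binSys Θ Ξ Q σ a hN h) univ F t w|) ≤ Real.exp (-H) := by
  classical
  have hH2 : 2 ≤ H := by
    have : 2 ≤ 1 / β := by
      rw [le_div_iff₀ hβ]
      linarith
    linarith
  have hH1 : (1 : ℝ) ≤ H := by linarith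
  obtain ⟨Dn, hD1, hD2, hD3⟩ := hfine H hH2 h (by rw [← hj]; exact hK)
  -- the fine model
  set A := binFine (Θ := Θ) (Ξ := Ξ) (Q := Q) σ a hN (Nat.le_add_right h Dn) with hA
  have hRt : A.Rt = 2 ^ Dn := by
    show (2 : ℝ) ^ (h + Dn - h) = 2 ^ Dn
    rw [Nat.add_sub_cancel_left]
  have hnn : (binSys Θ Ξ Q σ a hN (h + Dn)).near = (binSys Θ Ξ Q σ a hN h).near * ((2 : ℝ) ^ Dn)⁻¹ := by
    show 8 * ((2 : ℝ) ^ (h + Dn))⁻¹ = 8 * ((2 : ℝ) ^ h)⁻¹ * ((2 : ℝ) ^ Dn)⁻¹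
    rw [pow_add, mul_inv, mul_assoc]
  have hKK : (binSys Θ Ξ Q σ a hN (h + Dn)).K = (binSys Θ Ξ Q σ a hN h).K * 2 ^ Dn := by
    show (((Fintype.card ι + 4) * 2 ^ (h + Dn + 3) : ℕ) : ℝ) =
      (((Fintype.card ι + 4) * 2 ^ (h + 3) : ℕ) : ℝ) * 2 ^ Dn
    push_cast
    rw [show h + Dn + 3 = h + 3 + Dn by omega, pow_add]
    ring
  have hn0 : 0 ≤ (binSys Θ Ξ Q σ a hN h).near := (binSys Θ Ξ Q σ a hN h).near0
  have hn1 : (binSys Θ Ξ Q σ a hN (h + Dn)).near ≤ Real.exp (-H ^ c) := by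
    rw [hnn]
    calc (binSys Θ Ξ Q σ a hN h).near * ((2 : ℝ) ^ Dn)⁻¹ ≤ 1 * Real.exp (-H ^ c) :=
          mul_le_mul hnear hD2 (by positivity) zero_le_one
      _ = _ := one_mul _
  have hc1' : H ≤ H ^ c := by
    calc H = H ^ 1 := (pow_one H).symm
      _ ≤ H ^ c := pow_le_pow_right₀ hH1 (by omega)
  have hexp : Real.exp H * Real.exp (3 * H ^ c) ≤ Real.exp (H ^ (c + 2)) := by
    rw [← Real.exp_add]
    refine Real.exp_le_exp.2 ?_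
    have h1 : H ^ (c + 2) = H ^ c * H ^ 2 := pow_add _ _ _
    have h2 : 4 ≤ H ^ 2 := by nlinarith
    have h3 : 0 ≤ H ^ c := by positivity
    nlinarith
  have hK' : (binSys Θ Ξ Q σ a hN (h + Dn)).K ≤ Real.exp (H ^ (c + 2)) := by
    rw [hKK]
    exact (mul_le_mul hK hD1 (by positivity) (Real.exp_pos _).le).trans hexp
  have hRM : A.Rt * H ≤ Real.exp (H ^ (c + 2)) := by
    rw [hRt, mul_comm]
    refine le_trans (mul_le_mul ?_ hD1 (by positivity) (Real.exp_pos _).le) hexp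
    linarith [Real.add_one_le_exp H]
  -- the cut
  obtain ⟨kk, p, hkp, hk1, hp1⟩ := pieceNum_cut hH2 (c0 := 4) (c := c) (by omega) (by omega)
  have hFT : FacesT (binSys Θ Ξ Q σ a hN (h + Dn)) univ δ (fun w => A.lift (F w)) (4 * H) (Real.exp (H ^ (c + 2)))
      (A.Rt ^ (univ : Finset ι).card * θ)
      (acc + ((binSys Θ Ξ Q σ a hN h).near + (binSys Θ Ξ Q σ a hN (h + Dn)).near)) :=
    hF.refine A (by linarith) (by linarith) hRM hθ le_rfl le_rfl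
  obtain ⟨ξ0⟩ := (inferInstance : Nonempty Ξ)
  have hFN := facesN_cut hFT haδ ξ0 hp1
  obtain ⟨s⟩ := hS
  have hm1 : H ≤ 4 * H := by linarith
  have hStr : Nonempty (StrT (binSys Θ Ξ Q σ a hN (h + Dn)) univ δ q
      (cutF (binSys Θ Ξ Q σ a hN (h + Dn)) a ξ0 p (fun w => A.lift (F w)) q) (4 * H) (Real.exp (H ^ (c + 2)))
      (H * Real.exp ((1 + κ) * Λ))) := by
    rw [cutF_ne (Ne.symm haq)]
    exact ⟨{
      e0 := s.e0
      e1 := s.e1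
      pe0 := (one_div_le_one_div_of_le (by linarith) hm1).trans s.pe0
      pe1 := (one_div_le_one_div_of_le (by linarith) hm1).trans s.pe1
      b0 := s.b0.refine A (by linarith) hm1 hRM
      b1 := s.b1.refine A (by linarith) hm1 hRM
      coin0 := fun hq t g ξ ξ' => s.coin0 hq t _ ξ ξ'
      coin1 := fun hq t g ξ ξ' => s.coin1 hq t _ ξ ξ'
      eq := fun t g ξ x d => s.eq t _ ξ x d }⟩
  have hNV := hV ι Θ Ξ Q k N σ a δ q hN (h + Dn) hj haδ haq H Λ hH2 hK' hn1 hΛ0 hΛ _ hFN hStr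
  -- the cut event
  set ct : ℕ → Sq k N ι Θ (Ξ × Q) → Prop := fun t w =>
    p < GMN.mvc (binSys Θ Ξ Q σ a hN (h + Dn)) (cfr ξ0 (A.lift (F a))) t
      ((binSys Θ Ξ Q σ a hN (h + Dn)).gm t w) ((binSys Θ Ξ Q σ a hN (h + Dn)).x w) with hct
  have hct1 : ∀ t v w, pz a v = pz a w → ct t v → ct t w := by
    intro t v w hvw h1
    have h2 := pz_at (σ := σ) a (hN := hN) (h := h + Dn) hvw
    rw [hct] at h1 ⊢
    simp only at h1 ⊢
    rw [← h2.1 t, ← h2.2.1]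
    exact h1
  have hcti : ∀ t w, ct t w → ct (t + 1) w := fun t w h1 =>
    lt_of_lt_of_le h1 (GMN.mvc_mono _ _ (Nat.le_succ t) w)
  have hfree : ∀ t g ξ ξ', A.lift (F a) t g ξ = A.lift (F a) t g ξ' := fun t g ξ ξ' =>
    hFT.coin a (mem_univ a) haδ t g ξ ξ'
  have hctm : (PM k N ι Θ Ξ Q).Pr (ct N) ≤ Real.exp (-H ^ 4) := by
    refine le_trans (le_trans (FP.Pr_mono _ fun w _ h1 => ?_) (hFT.tail a (mem_univ a) kk)) hk1
    have h2 := mvc_nmv (S := binSys Θ Ξ Q σ a hN (h + Dn)) (ξ0 := ξ0) hfree N w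
    have h3 : p + 1 ≤ GMN.mvc (binSys Θ Ξ Q σ a hN (h + Dn)) (cfr ξ0 (A.lift (F a))) N
      ((binSys Θ Ξ Q σ a hN (h + Dn)).gm N w) ((binSys Θ Ξ Q σ a hN (h + Dn)).x w) := h1
    have h4 : ((p : ℝ) + 1) ≤ (binSys Θ Ξ Q σ a hN (h + Dn)).nmv (A.lift (F a)) N w := by
      rw [← h2]
      exact_mod_cast h3
    exact hkp.trans h4
  have hT : ∀ t ≤ N, ∀ w, ¬ ct t w → pT (binSys Θ Ξ Q σ a hN (h + Dn)) univ
      (cutF (binSys Θ Ξ Q σ a hN (h + Dn)) a ξ0 p (fun w => A.lift (F w))) t w =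
      pT (binSys Θ Ξ Q σ a hN h) univ F t w := by
    intro t _ w h1
    rw [pT_cut, if_pos (not_lt.1 h1)]
    unfold pT
    simp only [A.at'_lift]
    rfl
  -- numbers
  have hc14 : 4 ≤ c1 := by omega
  have hthr : β ^ c1 ≤ β / 5 := by
    have h1 : β ^ c1 ≤ β ^ 4 := pow_le_pow_of_le_one hβ.le (by linarith) hc14
    have h2 : β ^ 3 ≤ (1 / 2) ^ 3 := pow_le_pow_left₀ hβ.le hβ2 3
    have h3 : β ^ 4 = β * β ^ 3 := by ring
    nlinarith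
  have hdep : ((h + Dn + j + 4 : ℕ) : ℝ) ≤ H ^ c1 := hD3.trans (pow_le_pow_right₀ hH1 hcd)
  have hcold := hC (h + Dn + j + 4) hdep
  have w0 : ∀ _ξ : Ξ, (0 : ℝ) ≤ (Fintype.card Ξ : ℝ)⁻¹ := fun _ => by positivity
  have hU0 : (univ.erase δ : Finset ι) ∈ UU a := mem_UU.2 ⟨Finset.mem_erase.2 ⟨haδ, Finset.mem_univ _⟩, fun hcon => by
    have h2 : δ ∈ (univ.erase δ : Finset ι) := by
      rw [hcon]
      exact Finset.mem_univ _
    exact (Finset.mem_erase.1 h2).1 rfl⟩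
  have hcardU : ((UU a).card : ℝ) ≤ 2 ^ j := by
    have h1 : (UU a).card ≤ 2 ^ Fintype.card ι := by
      rw [← Fintype.card_finset]
      exact Finset.card_le_univ _
    rw [← hj]
    exact_mod_cast h1
  -- one piece
  have hmain := piece_coin (σ := σ) (hN := hN) (Nat.le_add_right h Dn) haδ hFN hNV
    (fun g ξ x => hF.zero a (mem_univ a) g ξ x) hct1 hcti hctm hT (D := h + Dn + j + 4) (by rw [hj])
    (r := β / 5) (ρ := Real.exp (-H ^ c1)) (sg := Real.exp (-H ^ c1)) (ec := Real.exp (-H ^ c1))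
    (ph := Real.exp (-H ^ c1)) (by positivity) (pieceNum_thr hH2 hβ hβH le_rfl) (Real.exp_pos _).le
    (Real.exp_pos _).le
    (fun U hU hUδ => by
      obtain ⟨Hot, h1⟩ := hcold.1 U hU hUδ
      exact ⟨Hot, h1.mono w0 le_rfl hthr le_rfl le_rfl⟩)
    (fun ξ => by
      obtain ⟨Hot, h1⟩ := hcold.2.1 ξ
      exact ⟨Hot, h1.mono (fun _ => zero_le_one) le_rfl hthr le_rfl le_rfl⟩)
    (coldAt_mono hcold.2.2 hthr) rfl
  have hnum := pieceNum_out (I := UU a) (j := j) (D := D) (c0 := 4) (c1 := c1 - 1) (β := β) (H := H) (NB := 36)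
    (q := Real.exp (-H ^ 4)) (e3 := Real.exp (-H ^ 4)) (pc := Real.exp (-H ^ 4)) (J := Real.exp (H ^ D))
    (σK := 2 * Real.exp (-H ^ c1)) (eK := Real.exp (-H ^ c1)) (σ := fun _ => Real.exp (-H ^ c1))
    (e := fun _ => Real.exp (-H ^ c1)) (hb := fun _ => Real.exp (H ^ D)) (U0 := univ.erase δ) hH2 hβ hβH le_rfl
    (by omega) hcardU hU0 (by norm_num) le_rfl le_rfl le_rfl le_rfl le_rfl (fun _ _ => le_rfl)
    (fun _ _ => (Real.exp_pos _).le) (fun _ _ => ?_) (fun _ _ => ?_) (by positivity) ?_ ?_ rfl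
  rotate_left
  · exact Real.exp_le_exp.2 (neg_le_neg (pow_le_pow_right₀ hH1 (by omega)))
  · exact Real.exp_le_exp.2 (neg_le_neg (pow_le_pow_right₀ hH1 (by omega)))
  · have h1 : H ^ c1 = H * H ^ (c1 - 1) := by
      rw [← pow_succ']
      congr 1
      omega
    have h2 : (1 : ℝ) ≤ H ^ (c1 - 1) := one_le_pow₀ hH1
    have h3 : Real.exp (-H ^ c1) ≤ Real.exp (-1) * Real.exp (-H ^ (c1 - 1)) := by
      rw [← Real.exp_add]
      refine Real.exp_le_exp.2 ?_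
      rw [h1]
      nlinarith
    have h4 : Real.exp (-1) ≤ 1 / 2 := by
      have h5 := Real.exp_one_gt_d9
      rw [Real.exp_neg, inv_le_comm₀ (Real.exp_pos _) (by norm_num)]
      norm_num
      linarith
    have h6 : 0 < Real.exp (-H ^ (c1 - 1)) := Real.exp_pos _
    nlinarith
  · exact Real.exp_le_exp.2 (neg_le_neg (pow_le_pow_right₀ hH1 (by omega)))
  refine le_trans (FP.Pr_mono _ fun w _ => ?_) (hmain.trans hnum)
  rintro ⟨t, ht, h1⟩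
  exact ⟨t, ht, le_trans (pieceNum_four hH2 hβ hβH le_rfl le_rfl) h1⟩

end model

/-! ### the cold hypotheses of the view with the coins -/

/-- natural coldness of the view of the vertex `a` which carries the coins -/
def NatA (j : ℕ) (free : Prop) : Prop :=
  ∀ c1 : ℕ, ∃ C1 : ℕ, ∀ (ι Θ Ξ Q : Type) [Fintype ι] [DecidableEq ι] [Fintype Θ]
    [Nonempty Θ] [Fintype Ξ] [Nonempty Ξ] [Fintype Q] [Nonempty Q] (k N : ℕ) (σ : V k) (a δ : ι) (hN : N ≤ k)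
    (h : ℕ), a ≠ δ → Fintype.card ι = j → ∀ β H Λ : ℝ, 0 < β → β ≤ 1 / 2 → 1 / β ≤ H →
      (binSys Θ Ξ Q σ a hN h).K ≤ Real.exp H → (binSys Θ Ξ Q σ a hN h).near ≤ β ^ C1 → H ^ C1 ≤ Λ → Λ ≤ Real.exp H →
      ∀ F : ι → Mov Ξ ι (Q × V k) (Θ × (V k × ℕ)) (V k → ℝ),
      GS.Faces (binSys Θ Ξ Q σ a hN h) univ δ F H (Real.exp (-Λ)) (β ^ C1) →
      (free → ∀ t g ξ ξ', F δ t g ξ = F δ t g ξ') →
      GS.ColdAt σ a hN h a F (β ^ c1) (Real.exp (-H ^ c1)) (Real.exp (-H ^ c1))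

/-- the cold hypotheses of `piece_coin` for the view of the vertex `a` which carries the coins -/
def ColdA (j : ℕ) (free : Prop) : Prop :=
  ∀ c1 : ℕ, ∃ C1 : ℕ, ∀ (ι Θ Ξ Q : Type) [Fintype ι] [DecidableEq ι] [Fintype Θ]
    [Nonempty Θ] [Fintype Ξ] [Nonempty Ξ] [Fintype Q] [Nonempty Q] (k N : ℕ) (σ : V k) (a δ : ι) (hN : N ≤ k)
    (h : ℕ), a ≠ δ → Fintype.card ι = j → ∀ β H Λ : ℝ, 0 < β → β ≤ 1 / 2 → 1 / β ≤ H →
      (binSys Θ Ξ Q σ a hN h).K ≤ Real.exp H → (binSys Θ Ξ Q σ a hN h).near ≤ β ^ C1 → H ^ C1 ≤ Λ → Λ ≤ Real.exp H →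
      ∀ F : ι → Mov Ξ ι (Q × V k) (Θ × (V k × ℕ)) (V k → ℝ),
      GS.Faces (binSys Θ Ξ Q σ a hN h) univ δ F H (Real.exp (-Λ)) (β ^ C1) →
      (free → ∀ t g ξ ξ', F δ t g ξ = F δ t g ξ') → ∀ D : ℕ, (D : ℝ) ≤ H ^ c1 →
      (∀ U ∈ UU a, U ≠ univ.erase δ → ∃ Hot : ℕ → Sq k N ι Θ Q → Ξ → Prop,
        ColdX σ N h (fun θ ξ i => famS N h (F i) θ ξ) (fun _ => (Fintype.card Ξ : ℝ)⁻¹) U D (β ^ c1)
          (Real.exp (-H ^ c1)) (Real.exp (-H ^ c1)) Hot) ∧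
      (∀ ξ : Ξ, ∃ Hot : ℕ → Sq k N ι Θ Q → Unit → Prop, ColdX σ N h (fun θ (_ : Unit) i => famS N h (F i) θ ξ)
        (fun _ => 1) (univ.erase δ) D (β ^ c1) (Real.exp (-H ^ c1)) (Real.exp (-H ^ c1)) Hot) ∧
      GS.ColdAt σ a hN h a F (β ^ c1) (Real.exp (-H ^ c1)) (Real.exp (-H ^ c1))

/-- from the cold sets and the natural coldness of the view with the coins -/
theorem coldA_of {j : ℕ} (hj : 2 ≤ j) {free : Prop} (hS : ColdSets j free (fun n => n < j)) (hN : NatA j free) :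
    ColdA j free := by
  intro c1
  obtain ⟨C1, _, h2⟩ := hS c1
  obtain ⟨C2, h4⟩ := hN c1
  refine ⟨C1 + C2, ?_⟩
  intro ι Θ Ξ Q _ _ _ _ _ _ _ _ k N σ a δ hN h haδ hι β H Λ hβ hβ2 hH hK hn hΛ hΛ2 F HF hf D hD
  have hH1 : 1 ≤ H := by
    have := one_le_of_inv hβ hβ2 hH
    linarith
  have b1 : β ^ (C1 + C2) ≤ β ^ C1 := pow_le_pow_of_le_one hβ.le (by linarith) (by omega)
  have b2 : β ^ (C1 + C2) ≤ β ^ C2 := pow_le_pow_of_le_one hβ.le (by linarith) (by omega)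
  have e1 : H ^ C1 ≤ Λ := (pow_le_pow_right₀ hH1 (by omega)).trans hΛ
  have e2 : H ^ C2 ≤ Λ := (pow_le_pow_right₀ hH1 (by omega)).trans hΛ
  have g1 := h2 ι Θ Ξ Q k N σ a δ hN h hι β H Λ hβ hβ2 hH hK (hn.trans b1) e1 hΛ2 F (HF.mono_acc b1) hf D hD
  refine ⟨fun U hU _ => ?_, fun ξ => ?_, ?_⟩
  · rw [mem_UU] at hU
    refine (g1 U ⟨a, hU.1⟩ ?_).1
    rw [← hι]
    exact (Finset.card_lt_iff_ne_univ U).mpr hU.2
  · have hcd : (univ.erase δ : Finset ι).card + 1 = j := by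
      rw [Finset.card_erase_of_mem (mem_univ δ), Finset.card_univ, hι]
      omega
    refine (g1 (univ.erase δ) (Finset.card_pos.mp (by omega)) ?_).2 (Finset.notMem_erase δ univ) ξ
    omega
  · exact h4 ι Θ Ξ Q k N σ a δ hN h haδ hι β H Λ hβ hβ2 hH hK (hn.trans b2) e2 hΛ2 F (HF.mono_acc b2) hf

/-- from all views -/
theorem coldA_of_hyp {j : ℕ} {free : Prop} (hC : ColdHyp j free) : ColdA j free := by
  intro c1
  obtain ⟨C1, _, h2⟩ := hC c1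
  refine ⟨C1, ?_⟩
  intro ι Θ Ξ Q _ _ _ _ _ _ _ _ k N σ a δ hN h _ hι β H Λ hβ hβ2 hH hK hn hΛ hΛ2 F HF hf D hD
  exact h2 ι Θ Ξ Q k N σ a δ hN h hι β H Λ hβ hβ2 hH hK hn hΛ hΛ2 F HF hf D hD a

/-! ### the contract -/

/-- **NAMED VIEWS, COLD SETS, NATURAL COLDNESS GIVE THE PIECES** (coins at the hidden vertex) -/
theorem pieceBinH_of {j : ℕ} {κ : ℝ} {c D : ℕ} (hc : 2 ≤ c) (hV : NVBin j κ 4 c D) (hC : ColdA j False) :
    ∃ C : ℕ, PieceBinH j κ C := by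
  obtain ⟨cd, hcd⟩ := fine_num j c (by omega)
  set c1 := max cd (D + 4 + j + 3) with hc1
  obtain ⟨C1, hC1⟩ := hC c1
  refine ⟨C1, ?_⟩
  intro ι Θ Ξ Q _ _ _ _ _ _ _ _ k N σ a δ q hN h haq haδ hj β H Λ hβ hβ2 hβH hK hnear hΛ hΛe F hF hS
  have hH2 := one_le_of_inv hβ hβ2 hβH
  exact piece_model (c1 := c1) (cd := cd) hc hV (le_max_right _ _) (le_max_left _ _) hcd σ hN h haq haδ hj hβ hβ2 hβH hK
    (hnear.trans (pow_le_one₀ hβ.le (by linarith))) (le_trans (by positivity) hΛ) hΛe (Real.exp_pos _).le hF hS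
    fun D0 hD0 => hC1 ι Θ Ξ Q k N σ a δ hN h haδ hj β H Λ hβ hβ2 hβH hK hnear hΛ hΛe F hF (fun hf => hf.elim) D0 hD0

/-- the same without coins -/
theorem pieceBinH0_of {j : ℕ} {κ : ℝ} {c D : ℕ} (hc : 2 ≤ c) (hV : NVBin j κ 4 c D) (hC : ColdA j True) :
    ∃ C : ℕ, PieceBinH0 j κ C := by
  obtain ⟨cd, hcd⟩ := fine_num j c (by omega)
  set c1 := max cd (D + 4 + j + 3) with hc1
  obtain ⟨C1, hC1⟩ := hC c1
  refine ⟨C1, ?_⟩
  intro ι Θ Q _ _ _ _ _ _ k N σ a δ q hN h haq haδ hj β H Λ hβ hβ2 hβH hK hnear hΛ hΛe F hF hS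
  have hH2 := one_le_of_inv hβ hβ2 hβH
  exact piece_model (c1 := c1) (cd := cd) hc hV (le_max_right _ _) (le_max_left _ _) hcd σ hN h haq haδ hj hβ hβ2 hβH hK
    (hnear.trans (pow_le_one₀ hβ.le (by linarith))) (le_trans (by positivity) hΛ) hΛe (Real.exp_pos _).le hF hS
    fun D0 hD0 => hC1 ι Θ Unit Q k N σ a δ hN h haδ hj β H Λ hβ hβ2 hβH hK hnear hΛ hΛe F hF
      (fun _ t g ξ ξ' => by rw [Subsingleton.elim ξ ξ']) D0 hD0

/-- **THE PIECES** -/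
theorem pieceBin_of {j : ℕ} (h3 : 3 ≤ j) {κ : ℝ} {c D : ℕ} (hc : 2 ≤ c) (hV : NVBin j κ 4 c D)
    (hC : ColdA j False) : ∃ C : ℕ, PieceBin j κ C := by
  obtain ⟨C, hC'⟩ := pieceBinH_of hc hV hC
  exact ⟨C, pieceBin_of_hid h3 hC'⟩

/-- **THE PIECES WITHOUT COINS** -/
theorem pieceBin0_of {j : ℕ} (h3 : 3 ≤ j) {κ : ℝ} {c D : ℕ} (hc : 2 ≤ c) (hV : NVBin j κ 4 c D)
    (hC : ColdA j True) : ∃ C : ℕ, PieceBin0 j κ C := by
  obtain ⟨C, hC'⟩ := pieceBinH0_of hc hV hC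
  exact ⟨C, pieceBin0_of_hid h3 hC'⟩

end

end Pool.Agent.GM.Asm
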