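import Pool.Agent.GM.ColdBinE
import Pool.Agent.GM.PieceAsm

/-!
# GM/ColdBinF (helper48): the cold inputs of GM/PieceAsm (helper66)

`Asm.natA_of`, `Asm.natA_of_cmAll : GS.CMAll j C → NatA j True`; `coldSets_three : ColdSets 3 False (· < 3)`;
`coldA_of_cmAll` (every `j`, the sets `3 ≤ |U| ≤ j - 2` given), **`coldA_four : GS.CMAll 4 C → ColdA 4 True`**;
`pieceBin0_four` : `PieceBin0 4` from `NVBin 4` and `GS.CMAll 4`; `pieceBin_three` : `PieceBin 3` from `NVBin 3` and `NatA 3 False`.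
-/

set_option autoImplicit false
set_option linter.unusedSectionVars false

namespace Pool.Agent.GM.Asm

open Finset Pool.Agent.PWZ Pool.Agent.M3 Pool.Agent.M3.TS Pool.Agent.M3.Bin Pool.Agent.GM

theorem natA_of {j : ℕ} {free : Prop} (A : NatColdI j free) : NatA j free := by
  intro c1
  obtain ⟨C, _, h2⟩ := A c1
  exact ⟨C, fun ι Θ Ξ Q _ _ _ _ _ _ _ _ => h2 ι Θ Ξ Q⟩

/-- **the natural coldness, coin free, every `j`** -/
theorem natA_of_cmAll {j C : ℕ} (hA : GS.CMAll j C) : NatA j True := natA_of (natCold_of_cmAll hA).toI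

/-- the cold sets of pieces with three vertices, with coins -/
theorem coldSets_three : GM.ColdSets 3 False (fun n => n < 3) := (coldSets_le2 3).mono fun _ h => by omega

/-- the cold hypotheses, coin free, every `j` -/
theorem coldA_of_cmAll {j C : ℕ} (hj : 2 ≤ j) (hA : GS.CMAll j C)
    (hM : GM.ColdSets j True (fun n => 3 ≤ n ∧ n + 2 ≤ j)) : ColdA j True :=
  coldA_of hj (coldSets_free (natCold_of_cmAll hA) hM) (natA_of_cmAll hA)

theorem mid_four : GM.ColdSets 4 True (fun n => 3 ≤ n ∧ n + 2 ≤ 4) := by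
  intro c1
  refine ⟨c1, le_rfl, ?_⟩
  intro ι Θ Ξ Q _ _ _ _ _ _ _ _ k N σ i δ hN h hι β H Λ hβ hβ2 hH hK hn hΛ hΛ2 F HF hf D hD U hU hS
  omega

/-- **the cold hypotheses of pieces with four vertices, coin free** -/
theorem coldA_four {C : ℕ} (hA : GS.CMAll 4 C) : ColdA 4 True := coldA_of_cmAll (by norm_num) hA mid_four

/-- **PIECES WITH FOUR VERTICES, COIN FREE** -/
theorem pieceBin0_four {κ : ℝ} {c D C : ℕ} (hc : 2 ≤ c) (hV : NVBin 4 κ 4 c D) (hA : GS.CMAll 4 C) :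
    ∃ C' : ℕ, GS.PieceBin0 4 κ C' :=
  pieceBin0_of (by norm_num) hc hV (coldA_four hA)

/-- **PIECES WITH THREE VERTICES** -/
theorem pieceBin_three {κ : ℝ} {c D : ℕ} (hc : 2 ≤ c) (hV : NVBin 3 κ 4 c D) (hN : NatA 3 False) :
    ∃ C' : ℕ, GS.PieceBin 3 κ C' :=
  pieceBin_of (by norm_num) hc hV (coldA_of (by norm_num) coldSets_three hN)

end Pool.Agent.GM.Asm
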