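import Pool.Agent.GM.Sq2
import Pool.Agent.M3.Cold

/-!
# GM/Transfer: transfer of coldness between the views, one free vertex (port of M3/Cold to Sq, helper83)

Natural view: hidden vertex `i`, everything else and the exact path `Zn i e` known (class of `(th, Zn i e, ot i)`).
`B` an event which depends on the vertices, the public randomness and the rounded node only, `Hot` any event such that
outside it the conditional probability of `B` in the natural class is `≤ ρ`.  THEN in every other view (all the noise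
known, the vertex `i` in a small cell of scale `s ≤ e - (h+3)`, so also the cells of the next node) the conditional
probability of `B` and not `Hot` is `≤ 2 * 2^(e-s) * ρ`.
-/

set_option autoImplicit false
set_option linter.unusedSectionVars false

namespace Pool.Agent.GM

open Finset Pool.Agent.PWZ Pool.Agent.M3 Pool.Agent.M3.Bin
open Pool.Agent.M3.Mod (ex nd av dl pnd SC cel CL card_CL flr_add_lt')

variable {k N : ℕ} {ι Θ P : Type} [Fintype ι] [DecidableEq ι] (c0 : V k) [Fintype Θ] [Nonempty Θ] [Fintype P] [Nonempty P]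

theorem vx_upd (i : ι) (x : P × V k) (ω : Sq k N ι Θ P) : vx i (upd i x ω) = x := by
  unfold vx upd; simp

theorem vx_upd_of_ne {i j : ι} (h : j ≠ i) (x : P × V k) (ω : Sq k N ι Θ P) : vx j (upd i x ω) = vx j ω := by
  unfold vx upd; simp [h]

theorem ot_upd (i : ι) (x : P × V k) (ω : Sq k N ι Θ P) : ot i (upd i x ω) = ot i ω :=
  funext fun j => vx_upd_of_ne j.2 x ω

theorem vx_updh (i : ι) {e : ℕ} (he : e ≤ N) (p : P) (n : ℕ) (ω : Sq k N ι Θ P) :
    vx i (updh i e he p n ω) = (p, (Zn i e ω).1 - (n : V k)) := by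
  unfold vx updh; simp

theorem vx_updh_of_ne {i j : ι} (h : j ≠ i) {e : ℕ} (he : e ≤ N) (p : P) (n : ℕ) (ω : Sq k N ι Θ P) :
    vx j (updh i e he p n ω) = vx j ω := by
  unfold vx updh; simp [h]

theorem ot_updh (i : ι) {e : ℕ} (he : e ≤ N) (p : P) (n : ℕ) (ω : Sq k N ι Θ P) :
    ot i (updh i e he p n ω) = ot i ω :=
  funext fun j => vx_updh_of_ne j.2 he p n ω

theorem Zn_updh (i : ι) {e : ℕ} (he : e ≤ N) (p : P) {n : ℕ} (hn : n < 2 ^ e) (ω : Sq k N ι Θ P) :
    Zn i e (updh i e he p n ω) = Zn i e ω := by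
  have hnz : nz (updh i e he p n ω) = nz ω / 2 ^ e * 2 ^ e + n % 2 ^ e := rfl
  refine Prod.ext ?_ ?_
  · change Bin.pos e (vx i (updh i e he p n ω)).2 (nz (updh i e he p n ω)) = (Zn i e ω).1
    unfold Bin.pos
    rw [vx_updh, hnz, Nat.mul_comm, Nat.mul_add_mod, Nat.mod_mod, Nat.mod_eq_of_lt hn]
    simp
  · change nz (updh i e he p n ω) / 2 ^ e = nz ω / 2 ^ e
    rw [hnz, Nat.mul_comm, Nat.mul_add_div (by positivity), Nat.div_eq_of_lt (Nat.mod_lt _ (by positivity)),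
      Nat.add_zero]

theorem Yn_updh (i : ι) {e : ℕ} (he : e ≤ N) (p : P) {n : ℕ} (hn : n < 2 ^ e) (ω : Sq k N ι Θ P) :
    Yn c0 e (updh i e he p n ω) = Yn c0 e ω := by
  rw [Yn_eq c0 i, Yn_eq c0 i, Zn_updh i he p hn, co_fac c0 i _ _ (ot_updh i he p n ω)]

theorem Gm_updh (i : ι) (h : ℕ) {e : ℕ} (he : e ≤ N) (p : P) {n : ℕ} (hn : n < 2 ^ e) (ω : Sq k N ι Θ P) :
    Gm c0 h e (updh i e he p n ω) = Gm c0 h e ω := fac_Yn_Gm c0 h e _ _ (Yn_updh c0 i he p hn ω)

/-- the points of a cell with one rounded node, in the event, outside the hot set: at most a natural class -/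
theorem cold_option (i : ι) {h e s : ℕ} (he : e ≤ N) (hN : N ≤ k) (hs : s ≤ e - (h + 3)) {ρ : ℝ} (hρ : 0 ≤ ρ)
    {B Hot : Sq k N ι Θ P → Prop} (hB : Fac (fun ω => (th ω, fun j => vx j ω, Gm c0 h e ω)) B)
    (hHot : ∀ ω, ¬ Hot ω → Pm.ce (fun ω => (th ω, Zn i e ω, ot i ω)) (fun v => ind (B v)) ω ≤ ρ)
    (ω : Sq k N ι Θ P) (g : V k × ℕ) :
    ∑ x ∈ CL (P := P) s (vx i ω).2, ind ((B (upd i x ω) ∧ ¬ Hot (upd i x ω)) ∧ Gm c0 h e (upd i x ω) = g) ≤
      ρ * ((Fintype.card P : ℝ) * 2 ^ e) := by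
  classical
  have hP : (0 : ℝ) < (Fintype.card P : ℝ) := Nat.cast_pos.mpr Fintype.card_pos
  set G : Finset (P × V k) := (CL (P := P) s (vx i ω).2).filter
    (fun x => (B (upd i x ω) ∧ ¬ Hot (upd i x ω)) ∧ Gm c0 h e (upd i x ω) = g) with hG
  have hsum : ∑ x ∈ CL (P := P) s (vx i ω).2, ind ((B (upd i x ω) ∧ ¬ Hot (upd i x ω)) ∧ Gm c0 h e (upd i x ω) = g) =
      (G.card : ℝ) := by
    rw [hG, Finset.card_filter]
    push_cast
    refine Finset.sum_congr rfl fun x _ => ?_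
    by_cases hx : (B (upd i x ω) ∧ ¬ Hot (upd i x ω)) ∧ Gm c0 h e (upd i x ω) = g
    · rw [ind_of hx, if_pos hx]
    · rw [ind_not hx, if_neg hx]
  rw [hsum]
  rcases G.eq_empty_or_nonempty with hemp | hne
  · rw [hemp, Finset.card_empty]
    push_cast
    positivity
  have hek : e ≤ k := he.trans hN
  have hsk : s ≤ k := (hs.trans (Nat.sub_le _ _)).trans hek
  set u : V k := flr s (vx i ω).2 with hu
  set W : ℕ := nz ω % 2 ^ e with hW
  have hWlt : W < 2 ^ e := Nat.mod_lt _ (by positivity)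
  -- offsets
  have hoff : ∀ x ∈ G, (x.2 - u).val < 2 ^ s ∧ x.2 = u + (((x.2 - u).val : ℕ) : V k) := by
    intro x hx
    rw [hG, Finset.mem_filter] at hx
    have hx1 := hx.1
    unfold CL at hx1
    rw [Finset.mem_filter] at hx1
    obtain ⟨o, ho, hv⟩ := flr_add_rem s x.2
    rw [hx1.2, ← hu] at hv
    have h1 : x.2 - u = (o : V k) := by rw [hv]; ring
    have h2 : (x.2 - u).val = o := by
      rw [h1]
      exact ZMod.val_natCast_of_lt (ho.trans_le (Nat.pow_le_pow_right (by norm_num) hsk))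
    rw [h2]
    exact ⟨ho, hv⟩
  -- the reference point
  have hx0 : ∃ x0 ∈ G, ∀ x ∈ G, (x.2 - u).val ≤ W + (x0.2 - u).val ∧ W + (x0.2 - u).val - (x.2 - u).val < 2 ^ e := by
    rcases Nat.lt_or_ge W (2 ^ s) with hWs | hWs
    · obtain ⟨x0, hx0, hmax⟩ := Finset.exists_max_image G (fun x => (x.2 - u).val) hne
      refine ⟨x0, hx0, fun x hx => ?_⟩
      have h1 := hmax x hx
      have h2 := (hoff x0 hx0).1
      refine ⟨by omega, ?_⟩
      rcases Nat.eq_zero_or_pos s with h0 | h0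
      · subst h0
        simp only [pow_zero, Nat.lt_one_iff] at hWs h2
        have : 0 < 2 ^ e := by positivity
        omega
      · have h3 : 2 ^ (s + 1) ≤ 2 ^ e := Nat.pow_le_pow_right (by norm_num) (by omega)
        rw [pow_succ] at h3
        omega
    · obtain ⟨x0, hx0, hmin⟩ := Finset.exists_min_image G (fun x => (x.2 - u).val) hne
      refine ⟨x0, hx0, fun x hx => ?_⟩
      have h1 := hmin x hx
      have h2 := (hoff x hx).1
      constructor <;> omega
  obtain ⟨x0, hx0G, hx0⟩ := hx0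
  set ω0 := upd i x0 ω with hω0
  have hx0G' := hx0G
  rw [hG, Finset.mem_filter] at hx0G'
  obtain ⟨-, ⟨hB0, hH0⟩, hg0⟩ := hx0G'
  have hnz0 : nz ω0 = nz ω := rfl
  have hZ0 : (Zn i e ω0).1 = x0.2 + ((W : ℕ) : V k) := by
    change Bin.pos e (vx i ω0).2 (nz ω0) = _
    unfold Bin.pos
    rw [hω0, vx_upd]
    rfl
  -- the injection
  set n : P × V k → ℕ := fun x => W + (x0.2 - u).val - (x.2 - u).val with hn
  have hnx : ∀ x ∈ G, (Zn i e ω0).1 - ((n x : ℕ) : V k) = x.2 := by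
    intro x hx
    have h1 := (hoff x0 hx0G).2
    have h2 := (hoff x hx).2
    rw [hZ0, hn]
    simp only
    rw [Nat.cast_sub (hx0 x hx).1, Nat.cast_add]
    linear_combination h1 - h2
  have hB1 : ∀ x ∈ G, B (updh i e he x.1 (n x) ω0) := by
    intro x hx
    have hlt := (hx0 x hx).2
    have hx' := hx
    rw [hG, Finset.mem_filter] at hx'
    obtain ⟨-, ⟨hBx, -⟩, hgx⟩ := hx'
    have h1 : B (updh i e he x.1 (n x) ω0) = B (upd i x ω) := by
      refine hB _ _ (Prod.ext rfl (Prod.ext ?_ ?_))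
      · funext j
        by_cases hj : j = i
        · subst hj
          change vx j (updh j e he x.1 (n x) ω0) = vx j (upd j x ω)
          rw [vx_updh, vx_upd, hnx x hx]
        · change vx j (updh i e he x.1 (n x) ω0) = vx j (upd i x ω)
          rw [vx_updh_of_ne hj, hω0, vx_upd_of_ne hj, vx_upd_of_ne hj]
      · change Gm c0 h e (updh i e he x.1 (n x) ω0) = Gm c0 h e (upd i x ω)
        rw [Gm_updh c0 i h he x.1 hlt, hg0, hgx]
    rw [h1]
    exact hBx
  have hce := hHot ω0 hH0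
  rw [ce_hidden i he] at hce
  have hcard : (0 : ℝ) < (Fintype.card P : ℝ) * 2 ^ e := by positivity
  rw [inv_mul_le_iff₀ hcard] at hce
  rw [mul_comm ρ]
  refine le_trans ?_ hce
  have h1 : (G.card : ℝ) ≤ ∑ q ∈ (univ : Finset P) ×ˢ range (2 ^ e), ind (B (updh i e he q.1 q.2 ω0)) := by
    have h2 : (G.card : ℝ) = ∑ q ∈ G.image (fun x => (x.1, n x)), (1 : ℝ) := by
      rw [Finset.sum_const, nsmul_eq_mul, mul_one, Finset.card_image_of_injOn]
      intro x hx y hy hxy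
      simp only [Prod.mk.injEq] at hxy
      refine Prod.ext hxy.1 ?_
      rw [← hnx x hx, ← hnx y hy, hxy.2]
    rw [h2]
    have h3 : G.image (fun x => (x.1, n x)) ⊆ (univ : Finset P) ×ˢ range (2 ^ e) := by
      intro q hq
      obtain ⟨x, hx, rfl⟩ := Finset.mem_image.mp hq
      rw [Finset.mem_product, Finset.mem_range]
      exact ⟨Finset.mem_univ _, (hx0 x hx).2⟩
    calc ∑ q ∈ G.image (fun x => (x.1, n x)), (1 : ℝ) ≤
        ∑ q ∈ G.image (fun x => (x.1, n x)), ind (B (updh i e he q.1 q.2 ω0)) := by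
          refine Finset.sum_le_sum fun q hq => ?_
          obtain ⟨x, hx, rfl⟩ := Finset.mem_image.mp hq
          rw [ind_of (hB1 x hx)]
      _ ≤ _ := Finset.sum_le_sum_of_subset_of_nonneg h3 fun q _ _ => ind_nonneg _
  rw [Finset.sum_product] at h1
  exact h1

/-- TRANSFER OF COLDNESS -/
theorem cold_transfer (i : ι) {h e s : ℕ} (he : e ≤ N) (hN : N ≤ k) (hs : s ≤ e - (h + 3)) {ρ : ℝ} (hρ : 0 ≤ ρ)
    {B Hot : Sq k N ι Θ P → Prop} (hB : Fac (fun ω => (th ω, fun j => vx j ω, Gm c0 h e ω)) B)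
    (hHot : ∀ ω, ¬ Hot ω → Pm.ce (fun ω => (th ω, Zn i e ω, ot i ω)) (fun v => ind (B v)) ω ≤ ρ)
    (ω : Sq k N ι Θ P) :
    Pm.ce (fun ω => (th ω, ot i ω, nz ω, flr s (vx i ω).2)) (fun v => ind (B v ∧ ¬ Hot v)) ω ≤
      2 * 2 ^ (e - s) * ρ := by
  have hek : e ≤ k := he.trans hN
  have hse : s ≤ e := hs.trans (Nat.sub_le _ _)
  have hsk : s ≤ k := hse.trans hek
  have hP : (0 : ℝ) < (Fintype.card P : ℝ) := Nat.cast_pos.mpr Fintype.card_pos
  rw [ce_cell i s, card_CL hsk, inv_mul_le_iff₀ (by positivity)]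
  set u : V k := flr s (vx i ω).2 with hu
  set y0 : V k := u + ((nz ω % 2 ^ e : ℕ) : V k) + co c0 i ω with hy0
  set g1 : V k × ℕ := (flr (e - h) y0, nz ω / 2 ^ e) with hg1
  set g2 : V k × ℕ := (flr (e - h) y0 + ((2 ^ (e - h) : ℕ) : V k), nz ω / 2 ^ e) with hg2
  have hopt : ∀ x ∈ CL (P := P) s (vx i ω).2, Gm c0 h e (upd i x ω) = g1 ∨ Gm c0 h e (upd i x ω) = g2 := by
    intro x hx
    unfold CL at hx
    rw [Finset.mem_filter] at hx
    obtain ⟨o, ho, hv⟩ := flr_add_rem s x.2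
    rw [hx.2, ← hu] at hv
    have h1 : (Yn c0 e (upd i x ω)).1 = y0 + (o : V k) := by
      rw [Yn_eq c0 i, co_fac c0 i _ _ (ot_upd i x ω)]
      change Bin.pos e (vx i (upd i x ω)).2 (nz ω) + co c0 i ω = _
      unfold Bin.pos
      rw [vx_upd, hy0]
      conv_lhs => rw [hv]
      ring
    have h2 : Gm c0 h e (upd i x ω) = (flr (e - h) (y0 + (o : V k)), nz ω / 2 ^ e) := by
      rw [← h1]
      rfl
    have h3 : o < 2 ^ (e - h) := ho.trans_le (Nat.pow_le_pow_right (by norm_num) (by omega))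
    rcases flr_add_lt' (s := e - h) (by omega) y0 h3 with h4 | h4
    · left; rw [h2, h4]
    · right; rw [h2, h4]
  have h1 := cold_option c0 i he hN hs hρ hB hHot ω g1
  have h2 := cold_option c0 i he hN hs hρ hB hHot ω g2
  have h3 : ∑ x ∈ CL (P := P) s (vx i ω).2, ind (B (upd i x ω) ∧ ¬ Hot (upd i x ω)) ≤
      ∑ x ∈ CL (P := P) s (vx i ω).2, ind ((B (upd i x ω) ∧ ¬ Hot (upd i x ω)) ∧ Gm c0 h e (upd i x ω) = g1) +
      ∑ x ∈ CL (P := P) s (vx i ω).2, ind ((B (upd i x ω) ∧ ¬ Hot (upd i x ω)) ∧ Gm c0 h e (upd i x ω) = g2) := by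
    rw [← Finset.sum_add_distrib]
    refine Finset.sum_le_sum fun x hx => ?_
    by_cases hq : B (upd i x ω) ∧ ¬ Hot (upd i x ω)
    · rw [ind_of hq]
      rcases hopt x hx with h4 | h4
      · rw [ind_of (⟨hq, h4⟩ : (B (upd i x ω) ∧ ¬ Hot (upd i x ω)) ∧ Gm c0 h e (upd i x ω) = g1)]
        linarith [ind_nonneg ((B (upd i x ω) ∧ ¬ Hot (upd i x ω)) ∧ Gm c0 h e (upd i x ω) = g2)]
      · rw [ind_of (⟨hq, h4⟩ : (B (upd i x ω) ∧ ¬ Hot (upd i x ω)) ∧ Gm c0 h e (upd i x ω) = g2)]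
        linarith [ind_nonneg ((B (upd i x ω) ∧ ¬ Hot (upd i x ω)) ∧ Gm c0 h e (upd i x ω) = g1)]
    · rw [ind_not hq]
      exact add_nonneg (ind_nonneg _) (ind_nonneg _)
  refine (h3.trans (add_le_add h1 h2)).trans (le_of_eq ?_)
  have h5 : (2 : ℝ) ^ e = 2 ^ (e - s) * 2 ^ s := by rw [← pow_add, Nat.sub_add_cancel hse]
  rw [h5]
  ring

end Pool.Agent.GM
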