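import Pool.Agent.GM.Lift
import Pool.Agent.GM.Transfer
import Pool.Agent.M3.OneView

/-!
# GM/Hot : hot sets and coldness at the semi points, every finite set of vertices (helper34)

`R` = families on the space without randomness, bounded by `B`, rounding `h0`; everything is pulled back by `prU`.
NATURAL VIEW of a vertex `x`: class `Kn x e` (all vertices but `x`, exact path of `x`), or, for a set `S` which does not
contain `x`, the class `Nk x S hh e` (vertices of `S`, exact path of `x`, small cells of the others).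
* `Hot s h0 R r0 ρ x t` : the set `univ \ {x}` has been hot at a time `1 ≤ u ≤ t`; increasing (`Hot.mono`), a function of
  `Kn x (ex N t)` (`Hot.fac`), mass `Pr_Hot`;
* `HotS s h0 R r0 ρ x S hh t` : the same for `S`; `HotS.mono`, `HotS.fac`;
* `cold_pair` : everything but the vertex `x`, which is known up to a cell, and all the noise known; `cold_pair_next` :
  cells of the next time; `cold_known` : the natural class itself; `cold_nat` : the natural class of `S`;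
* `rar_single` : one vertex known, rarity; `rar_single_next`.
-/

set_option autoImplicit false
set_option linter.unusedSectionVars false

namespace Pool.Agent.GM

open Finset Pool.Agent.PWZ Pool.Agent.M3 Pool.Agent.M3.Bin
open Pool.Agent.M3.Mod (ex nd av SC CL card_SC av_round abs_av_le)

noncomputable section

variable {k N : ℕ} {ι Θ P : Type} [Fintype ι] [DecidableEq ι] (s : V k)

/-! ## hot sets -/

/-- the natural class of the view `x` at which the vertices of `S` are known exactly -/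
def Nk (x : ι) (S : Finset ι) (hh e : ℕ) (ω : Sq k N ι Θ P) :
    Θ × (V k × ℕ) × ({j : ι // j ∈ (insert x S).erase x} → P × V k) × ({j : ι // ¬ j ∈ insert x S} → V k) :=
  Yk x (insert x S) e (e - (hh + 3)) ω

theorem filt_Nk (x : ι) (S : Finset ι) (hh : ℕ) : Filt (fun t (ω : Sq k N ι Θ P) => Nk x S hh (ex N t) ω) := by
  intro t v w hv
  unfold Nk Yk at hv ⊢
  simp only [Prod.mk.injEq] at hv ⊢
  refine ⟨hv.1, filt_Zn x t v w hv.2.1, hv.2.2.1, ?_⟩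
  exact fac_cl (by unfold ex; omega) v w hv.2.2.2

/-- the set `univ \ {x}` has been hot -/
def Hot (h : ℕ) (R : ι → Fam k ι Unit) (r0 ρ : ℝ) (x : ι) (t : ℕ) (ω : Sq k N ι Unit Unit) : Prop :=
  ∃ u ≤ N, u ≤ t ∧ 1 ≤ u ∧ ρ < Pm.ce (Kn x (ex N u)) (fun v => ind (r0 ≤ |TT s h R (ex N u) v|)) ω

theorem Hot.mono {h : ℕ} {R : ι → Fam k ι Unit} {r0 ρ : ℝ} {x : ι} {t t' : ℕ} (htt : t ≤ t')
    {ω : Sq k N ι Unit Unit} (hh : Hot s h R r0 ρ x t ω) : Hot s h R r0 ρ x t' ω := by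
  obtain ⟨u, h1, h2, h3, h4⟩ := hh
  exact ⟨u, h1, h2.trans htt, h3, h4⟩

theorem Hot.fac (h : ℕ) (R : ι → Fam k ι Unit) (r0 ρ : ℝ) (x : ι) (t : ℕ) {v w : Sq k N ι Unit Unit}
    (hv : Kn x (ex N t) v = Kn x (ex N t) w) : Hot s h R r0 ρ x t v ↔ Hot s h R r0 ρ x t w := by
  unfold Hot
  refine exists_congr fun u => and_congr_right fun _ => and_congr_right fun hu => and_congr_right fun _ => ?_
  have h1 : Kn x (ex N u) v = Kn x (ex N u) w := (filt_Kn x).le hu v w hv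
  rw [FP.ce_fac _ (Kn x (ex N u)) _ v w h1]

/-- the mass of the hot points, all times -/
theorem Pr_Hot {h : ℕ} {R : ι → Fam k ι Unit} {r0 ρ eS : ℝ} {x : ι}
    (H : (Pm : FP (Sq k N ι Unit Unit)).Pr (fun ω => ∃ t ≤ N, 1 ≤ t ∧
      ρ < Pm.ce (Kn x (ex N t)) (fun v => ind (r0 ≤ |TT s h R (ex N t) v|)) ω) ≤ eS) (t : ℕ) :
    (Pm : FP (Sq k N ι Unit Unit)).Pr (Hot s h R r0 ρ x t) ≤ eS := by
  refine le_trans (FP.Pr_mono _ fun ω _ => ?_) H
  rintro ⟨u, h1, _, h3, h4⟩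
  exact ⟨u, h1, h3, h4⟩

/-- the set `S` has been hot in the natural view `x` -/
def HotS (h : ℕ) (R : ι → Fam k ι Unit) (r0 ρ : ℝ) (x : ι) (S : Finset ι) (hh t : ℕ) (ω : Sq k N ι Unit Unit) : Prop :=
  ∃ u ≤ N, u ≤ t ∧ 1 ≤ u ∧ ρ < Pm.ce (Nk x S hh (ex N u)) (fun v => ind (r0 ≤ |TT s h R (ex N u) v|)) ω

theorem HotS.mono {h : ℕ} {R : ι → Fam k ι Unit} {r0 ρ : ℝ} {x : ι} {S : Finset ι} {hh t t' : ℕ} (htt : t ≤ t')
    {ω : Sq k N ι Unit Unit} (H : HotS s h R r0 ρ x S hh t ω) : HotS s h R r0 ρ x S hh t' ω := by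
  obtain ⟨u, h1, h2, h3, h4⟩ := H
  exact ⟨u, h1, h2.trans htt, h3, h4⟩

theorem HotS.fac (h : ℕ) (R : ι → Fam k ι Unit) (r0 ρ : ℝ) (x : ι) (S : Finset ι) (hh t : ℕ)
    {v w : Sq k N ι Unit Unit} (hv : Nk x S hh (ex N t) v = Nk x S hh (ex N t) w) :
    HotS s h R r0 ρ x S hh t v ↔ HotS s h R r0 ρ x S hh t w := by
  unfold HotS
  refine exists_congr fun u => and_congr_right fun _ => and_congr_right fun hu => and_congr_right fun _ => ?_
  have h1 : Nk x S hh (ex N u) v = Nk x S hh (ex N u) w := (filt_Nk x S hh).le hu v w hv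
  rw [FP.ce_fac _ (Nk x S hh (ex N u)) _ v w h1]

theorem Pr_HotS {h : ℕ} {R : ι → Fam k ι Unit} {r0 ρ eS : ℝ} {x : ι} {S : Finset ι} {hh : ℕ}
    (H : (Pm : FP (Sq k N ι Unit Unit)).Pr (fun ω => ∃ t ≤ N, 1 ≤ t ∧
      ρ < Pm.ce (Nk x S hh (ex N t)) (fun v => ind (r0 ≤ |TT s h R (ex N t) v|)) ω) ≤ eS) (t : ℕ) :
    (Pm : FP (Sq k N ι Unit Unit)).Pr (HotS s h R r0 ρ x S hh t) ≤ eS := by
  refine le_trans (FP.Pr_mono _ fun ω _ => ?_) H
  rintro ⟨u, h1, _, h3, h4⟩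
  exact ⟨u, h1, h3, h4⟩

/-! ## coldness outside the hot sets -/

variable [Fintype Θ] [Nonempty Θ] [Fintype P] [Nonempty P]

theorem Zk_erase_fac (x : ι) (r : ℕ) :
    Fac (fun ω : Sq k N ι Θ P => (th ω, ot x ω, nz ω, flr r (vx x ω).2)) (Zk (univ.erase x) r) := by
  intro v w hv
  simp only [Prod.mk.injEq] at hv
  obtain ⟨h1, h2, h3, h4⟩ := hv
  unfold Zk
  refine Prod.ext h1 (Prod.ext ?_ (Prod.ext h3 ?_))
  · funext j
    exact congrFun h2 ⟨j.1, (Finset.mem_erase.mp j.2).1⟩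
  · funext j
    have hj : j.1 = x := by
      by_contra hne
      exact j.2 (Finset.mem_erase.mpr ⟨hne, Finset.mem_univ _⟩)
    show flr r (vx j.1 v).2 = flr r (vx j.1 w).2
    rw [hj, h4]

theorem Zk_erase_fac' (x : ι) (r : ℕ) :
    Fac (Zk (Θ := Θ) (P := P) (k := k) (N := N) (univ.erase x) r)
      (fun ω : Sq k N ι Θ P => (th ω, ot x ω, nz ω, flr r (vx x ω).2)) := by
  intro v w hv
  unfold Zk at hv
  simp only [Prod.mk.injEq] at hv
  obtain ⟨h1, h2, h3, h4⟩ := hv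
  refine Prod.ext h1 (Prod.ext ?_ (Prod.ext h3 ?_))
  · funext j
    exact congrFun h2 ⟨j.1, Finset.mem_erase.mpr ⟨j.2, Finset.mem_univ _⟩⟩
  · exact congrFun h4 ⟨x, fun h => (Finset.mem_erase.mp h).1 rfl⟩

/-- transfer of coldness to the class of the losses of the set `univ \ {x}` -/
theorem cold_pair (x : ι) {h0 t r' : ℕ} (h1 : 1 ≤ t) (ht : t ≤ N) (hN : N ≤ k) (hs : r' ≤ ex N t - (h0 + 3))
    {R : ι → Fam k ι Unit} {B r0 r ρ : ℝ} (hB : ∀ j, FLe B (R j))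
    (hr : r0 + 2 * (2 * B ^ Fintype.card ι * ((2 : ℝ) ^ h0)⁻¹) ≤ r) (hρ : 0 ≤ ρ) (w : Sq k N ι Θ P) :
    Pm.ce (Zk (univ.erase x) r')
      (fun v => ind (r ≤ |TT s h0 R (ex N t) (prU v)| ∧ ¬ Hot s h0 R r0 ρ x t (prU v))) w ≤
      2 * 2 ^ (ex N t - r') * ρ := by
  set δ : ℝ := 2 * B ^ Fintype.card ι * ((2 : ℝ) ^ h0)⁻¹ with hδ
  have he : ex N t ≤ N := Nat.sub_le _ _
  have g1 := cold_transfer (Θ := Θ) (P := P) s x he hN hs hρ
    (B := fun v : Sq k N ι Θ P => r - δ ≤ |TTr s h0 R (ex N t) (prU v)|)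
    (Hot := fun v => Hot s h0 R r0 ρ x t (prU v)) ?_ ?_ w
  · rw [FP.ce_congr_map _ (Zk_erase_fac' x r') (Zk_erase_fac x r')]
    refine le_trans (FP.ce_mono _ (fun v _ => ind_mono ?_) w) g1
    rintro ⟨g2, g3⟩
    refine ⟨?_, g3⟩
    have g4 := TTr_close s h0 hB (ex N t) (prU v)
    have g5 := abs_sub_abs_le_abs_sub (TT s h0 R (ex N t) (prU v)) (TTr s h0 R (ex N t) (prU v))
    linarith
  · intro v u hv
    have g2 := TTr_fac s h0 (fun j => liftF (P := P) (R j)) (ex N t) v u (by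
      simp only [Prod.mk.injEq] at hv ⊢
      exact hv.2)
    rw [TTr_lift, TTr_lift] at g2
    simp only [g2]
  · intro ω hω
    have g2 : Pm.ce (fun ω : Sq k N ι Θ P => (th ω, Zn x (ex N t) ω, ot x ω))
        (fun v => ind (r - δ ≤ |TTr s h0 R (ex N t) (prU v)|)) ω ≤
        Pm.ce (Kn x (ex N t)) (fun v => ind (r0 ≤ |TT s h0 R (ex N t) (prU v)|)) ω := by
      refine FP.ce_mono _ (fun v _ => ind_mono fun g3 => ?_) ω
      have g4 := TTr_close s h0 hB (ex N t) (prU v)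
      have g5 := abs_sub_abs_le_abs_sub (TTr s h0 R (ex N t) (prU v)) (TT s h0 R (ex N t) (prU v))
      rw [abs_sub_comm] at g5
      linarith
    refine g2.trans ?_
    rw [ce_prU x he (fun v => ind (r0 ≤ |TT s h0 R (ex N t) v|)) ω]
    by_contra hcon
    exact hω ⟨t, ht, le_rfl, h1, not_le.mp hcon⟩

/-- the same with the cells of the next time, rounding `hh ≥ h0` of the view -/
theorem cold_pair_next (x : ι) {h0 hh t : ℕ} (hle : h0 ≤ hh) (h1 : 1 ≤ t) (ht : t ≤ N) (hN : N ≤ k)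
    {R : ι → Fam k ι Unit} {B r0 r ρ : ℝ} (hB : ∀ j, FLe B (R j))
    (hr : r0 + 2 * (2 * B ^ Fintype.card ι * ((2 : ℝ) ^ h0)⁻¹) ≤ r) (hρ : 0 ≤ ρ) (w : Sq k N ι Θ P) :
    Pm.ce (Zk (univ.erase x) (ex N (t + 1) - (hh + 3)))
      (fun v => ind (r ≤ |TT s h0 R (ex N t) (prU v)| ∧ ¬ Hot s h0 R r0 ρ x t (prU v))) w ≤
      2 ^ (hh + 5) * ρ := by
  have h2 := cold_pair (Θ := Θ) (P := P) s x (h0 := h0) (r' := ex N (t + 1) - (hh + 3)) h1 ht hN
    (by unfold ex; omega) hB hr hρ w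
  refine h2.trans (mul_le_mul_of_nonneg_right ?_ hρ)
  have h3 : ex N t - (ex N (t + 1) - (hh + 3)) ≤ hh + 4 := by unfold ex; omega
  calc (2 : ℝ) * 2 ^ (ex N t - (ex N (t + 1) - (hh + 3))) ≤ 2 * 2 ^ (hh + 4) :=
        mul_le_mul_of_nonneg_left (pow_le_pow_right₀ (by norm_num) h3) (by norm_num)
    _ = 2 ^ (hh + 5) := by ring

/-- the natural class itself -/
theorem cold_known (x : ι) {h0 t : ℕ} (h1 : 1 ≤ t) (ht : t ≤ N)
    {R : ι → Fam k ι Unit} {r0 r ρ : ℝ} (hr : r0 ≤ r) (hρ : 0 ≤ ρ) (w : Sq k N ι Θ P) :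
    Pm.ce (Kn x (ex N t))
      (fun v => ind (r ≤ |TT s h0 R (ex N t) (prU v)| ∧ ¬ Hot s h0 R r0 ρ x t (prU v))) w ≤ ρ := by
  have he : ex N t ≤ N := Nat.sub_le _ _
  rw [ce_prU x he (fun v => ind (r ≤ |TT s h0 R (ex N t) v| ∧ ¬ Hot s h0 R r0 ρ x t v)) w]
  refine FP.cold_of_hot _ (K := Kn x (ex N t)) (S := fun v => r ≤ |TT s h0 R (ex N t) v|)
    (Hh := Hot s h0 R r0 ρ x t) (Dead := Hot s h0 R r0 ρ x t) hρ (fun v u hv => Hot.fac s h0 R r0 ρ x t hv) ?_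
    (fun _ _ h => h) (Pm_ne _)
  intro v _ hv
  refine (FP.ce_mono _ (fun u _ => ind_mono fun g => hr.trans g) v).trans ?_
  by_contra hcon
  exact hv ⟨t, ht, le_rfl, h1, not_le.mp hcon⟩

/-- the natural class of `S` -/
theorem cold_nat (x : ι) (S : Finset ι) {hh h0 t : ℕ} (h1 : 1 ≤ t) (ht : t ≤ N)
    {R : ι → Fam k ι Unit} {r0 r ρ : ℝ} (hr : r0 ≤ r) (hρ : 0 ≤ ρ) (w : Sq k N ι Unit Unit) :
    Pm.ce (Nk x S hh (ex N t))
      (fun v => ind (r ≤ |TT s h0 R (ex N t) v| ∧ ¬ HotS s h0 R r0 ρ x S hh t v)) w ≤ ρ := by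
  refine FP.cold_of_hot _ (K := Nk x S hh (ex N t)) (S := fun v => r ≤ |TT s h0 R (ex N t) v|)
    (Hh := HotS s h0 R r0 ρ x S hh t) (Dead := HotS s h0 R r0 ρ x S hh t) hρ
    (fun v u hv => HotS.fac s h0 R r0 ρ x S hh t hv) ?_ (fun _ _ h => h) (Pm_ne _)
  intro v _ hv
  refine (FP.ce_mono _ (fun u _ => ind_mono fun g => hr.trans g) v).trans ?_
  by_contra hcon
  exact hv ⟨t, ht, le_rfl, h1, not_le.mp hcon⟩

/-- rarity given one vertex and all the noise, rounding `hh ≥ h0` of the view -/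
theorem rar_single (i : ι) {h0 hh e : ℕ} (he : e ≤ N) (hN : N ≤ k) (hle : h0 ≤ hh)
    {R : ι → Fam k ι Unit} {θ r1 r B : ℝ} (hθ : 0 ≤ θ) (hr1 : 0 ≤ r1) (hPT : PT i h0 N (R i) θ r1 B)
    (hR : ∀ l, FOn ({l}ᶜ : Set ι) (R l)) (hB : ∀ j, FLe B (R j))
    (hr : 2 * (r1 + 2 * B ^ Fintype.card ι * ((2 : ℝ) ^ h0)⁻¹) ≤ r) (w : Sq k N ι Θ P) :
    Pm.ce (Zk {i} (e - (hh + 3))) (fun v => ind (r ≤ |TT s h0 R e (prU v)|)) w ≤
      Fintype.card ι * (θ * (2 ^ (hh - h0)) ^ Fintype.card ι) := by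
  have hm : 0 < Fintype.card ι := Fintype.card_pos_iff.mpr ⟨i⟩
  have hB0 : 0 ≤ B := (abs_nonneg _).trans (hB i 0 (0, 0) (fun _ => ((), 0)) 0)
  have g0 := PT_lift (P := P) hN (PT_fine hle hN hθ hB0 (hB i) hPT)
  have hBB : B * B ^ (Fintype.card ι - 1) = B ^ Fintype.card ι := by
    rw [← pow_succ', Nat.sub_add_cancel hm]
  rw [hBB] at g0
  have hpow2 : ((2 : ℝ) ^ hh)⁻¹ ≤ ((2 : ℝ) ^ h0)⁻¹ :=
    inv_anti₀ (by positivity) (pow_le_pow_right₀ (by norm_num) hle)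
  have g1 := TT_hidden (Θ := Θ) (P := P) s i he hN (R := fun j => liftF (P := P) (fine h0 (R j)))
    (θ := θ * (2 ^ (hh - h0)) ^ Fintype.card ι) (r := r1 + 2 * B ^ Fintype.card ι * ((2 : ℝ) ^ h0)⁻¹) (H := B)
    (h := hh) (by positivity) (fun l => lift_on fun e g => hR l e _) (fun l => lift_le fun e g x d => hB l e _ _ _) g0
    (by
      have h7 : 2 * B ^ Fintype.card ι * ((2 : ℝ) ^ hh)⁻¹ ≤ 2 * B ^ Fintype.card ι * ((2 : ℝ) ^ h0)⁻¹ :=
        mul_le_mul_of_nonneg_left hpow2 (by positivity)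
      linarith) w
  refine le_trans (FP.ce_mono _ (fun v _ => ind_mono fun g3 => ?_) w) g1
  have g4 : TT s hh (fun j => liftF (P := P) (fine h0 (R j))) e v = TT s h0 R e (prU v) := by
    rw [TT_lift, TT_fine s hle]
  rw [g4]
  exact hr.trans g3

/-- more information (finer cells) costs the ratio of the cells: rarity at the cells of the next time -/
theorem rar_single_next (i : ι) {h0 hh t : ℕ} (hN : N ≤ k) (hle : h0 ≤ hh)
    {R : ι → Fam k ι Unit} {θ r1 r B : ℝ} (hθ : 0 ≤ θ) (hr1 : 0 ≤ r1) (hPT : PT i h0 N (R i) θ r1 B)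
    (hR : ∀ l, FOn ({l}ᶜ : Set ι) (R l)) (hB : ∀ j, FLe B (R j))
    (hr : 2 * (r1 + 2 * B ^ Fintype.card ι * ((2 : ℝ) ^ h0)⁻¹) ≤ r) (w : Sq k N ι Θ P) :
    Pm.ce (Zk {i} (ex N (t + 1) - (hh + 3))) (fun v => ind (r ≤ |TT s h0 R (ex N t) (prU v)|)) w ≤
      Fintype.card ι * (θ * (2 ^ (hh + 1 - h0)) ^ Fintype.card ι) := by
  rcases Nat.lt_or_ge t N with ht | ht
  · have h1 := rar_single (Θ := Θ) (P := P) s i (h0 := h0) (hh := hh + 1) (e := ex N t) (Nat.sub_le _ _) hN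
      (hle.trans (Nat.le_succ _)) hθ hr1 hPT hR hB hr w
    have h2 : ex N t - (hh + 1 + 3) = ex N (t + 1) - (hh + 3) := by unfold ex; omega
    rw [h2] at h1
    exact h1
  · have h1 := rar_single (Θ := Θ) (P := P) s i (h0 := h0) (hh := hh + 1) (e := ex N t) (Nat.sub_le _ _) hN
      (hle.trans (Nat.le_succ _)) hθ hr1 hPT hR hB hr w
    have h2 : ex N t - (hh + 1 + 3) = ex N (t + 1) - (hh + 3) := by unfold ex; omega
    rw [h2] at h1
    exact h1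

end

end Pool.Agent.GM
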