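import Pool.Agent.GM.Model
import Pool.Agent.M3.Model3

/-!
# GM/Rar : averages over several vertices, options, rarity in every view, every finite set `ι` of vertices (helper34)

* `ce_Zk`, `ce_Yk` : explicit averages given `Zk U s` (vertices of `U`, all the noise, cells of scale `s` of the others)
  and given `Yk i U e s` (exact path of the view `i`, vertices of `U \ {i}`, cells of the others), any `U`;
* `opts` : given the public node `Qn i h e` the rounded node `Gm s h e` has at most `card ι` values; `ce_opts`;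
* `core_Z`, `core_Y` : functions which are rare in all products of small cells;
* `rar_hidden`, `rar_known` : product tests with moving factors (the factor `w` may depend on everything but `x_w`);
* `TT_hidden`, `TT_known`, `TT_Yk`, `TT_Pr` : the process `TT` of the families, one of which is product tested.
-/

set_option autoImplicit false
set_option linter.unusedSectionVars false

namespace Pool.Agent.GM

open Finset Pool.Agent.PWZ Pool.Agent.M3 Pool.Agent.M3.Bin
open Pool.Agent.M3.Mod (nd av SC CL card_SC win_cover sum_cover_le ce_mono_fib av_round ce_unif_image abs_av_le)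

/-! ## sums over products of sets -/

section prods

variable {ι α : Type*} [Fintype ι] [DecidableEq ι]

theorem mem_pi_update (A : ι → Finset α) (i : ι) (B : Finset α) (x : ι → α) :
    x ∈ Fintype.piFinset (Function.update A i B) ↔ x i ∈ B ∧ ∀ l, l ≠ i → x l ∈ A l := by
  rw [Fintype.mem_piFinset]
  constructor
  · intro h
    refine ⟨?_, fun l hl => ?_⟩
    · have := h i
      rwa [Function.update_self] at this
    · have := h l
      rwa [Function.update_of_ne hl] at this
  · rintro ⟨h1, h2⟩ l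
    by_cases hl : l = i
    · subst hl; rw [Function.update_self]; exact h1
    · rw [Function.update_of_ne hl]; exact h2 l hl

theorem card_pi_update (A : ι → Finset α) (i : ι) (B : Finset α) :
    ((Fintype.piFinset (Function.update A i B)).card : ℝ) = (B.card : ℝ) * ∏ l ∈ univ.erase i, ((A l).card : ℝ) := by
  rw [Fintype.card_piFinset, ← Finset.mul_prod_erase univ _ (mem_univ i), Function.update_self]
  push_cast
  congr 1
  refine Finset.prod_congr rfl fun l hl => ?_
  rw [Function.update_of_ne (Finset.ne_of_mem_erase hl)]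

/-- a function which misses the vertex `i` -/
theorem sum_pi_miss (A : ι → Finset α) (i : ι) (B : Finset α) (a : α)
    {F : (ι → α) → ℝ} (hF : DependsOn F ({i}ᶜ : Set ι)) :
    ∑ x ∈ Fintype.piFinset (Function.update A i B), F x =
      (B.card : ℝ) * ∑ x ∈ Fintype.piFinset (Function.update A i {a}), F x := by
  classical
  have h1 : ∑ x ∈ Fintype.piFinset (Function.update A i B), F x =
      ∑ b ∈ B, ∑ x ∈ (Fintype.piFinset (Function.update A i B)).filter (fun x => x i = b), F x :=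
    (Finset.sum_fiberwise_of_maps_to (fun x hx => ((mem_pi_update A i B x).1 hx).1) _).symm
  rw [h1, ← nsmul_eq_mul, ← Finset.sum_const]
  refine Finset.sum_congr rfl fun b hb => ?_
  refine Finset.sum_bij' (fun x _ => Function.update x i a) (fun x _ => Function.update x i b) ?_ ?_ ?_ ?_ ?_
  · intro x hx
    rw [Finset.mem_filter, mem_pi_update] at hx
    rw [mem_pi_update]
    refine ⟨by rw [Function.update_self]; exact Finset.mem_singleton_self a, fun l hl => ?_⟩
    rw [Function.update_of_ne hl]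
    exact hx.1.2 l hl
  · intro x hx
    rw [mem_pi_update] at hx
    rw [Finset.mem_filter, mem_pi_update]
    refine ⟨⟨by rw [Function.update_self]; exact hb, fun l hl => ?_⟩, Function.update_self ..⟩
    rw [Function.update_of_ne hl]
    exact hx.2 l hl
  · intro x hx
    rw [Finset.mem_filter] at hx
    funext l
    by_cases hl : l = i
    · subst hl; rw [Function.update_self]; exact hx.2.symm
    · rw [Function.update_of_ne hl, Function.update_of_ne hl]
  · intro x hx
    rw [mem_pi_update, Finset.mem_singleton] at hx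
    funext l
    by_cases hl : l = i
    · subst hl; rw [Function.update_self]; exact hx.1.symm
    · rw [Function.update_of_ne hl, Function.update_of_ne hl]
  · intro x _
    refine hF fun l hl => ?_
    rw [Function.update_of_ne (by simpa using hl)]

/-- covering one factor of a product -/
theorem sum_pi_cover {τ : Type*} (A : ι → Finset α) (i : ι) (B : Finset α) (T : Finset τ)
    (C : τ → Finset α) (hB : ∀ x ∈ B, ∃ t ∈ T, x ∈ C t) {F : (ι → α) → ℝ} (hF : ∀ x, 0 ≤ F x) :
    ∑ x ∈ Fintype.piFinset (Function.update A i B), F x ≤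
      ∑ t ∈ T, ∑ x ∈ Fintype.piFinset (Function.update A i (C t)), F x := by
  refine sum_cover_le (Fintype.piFinset (Function.update A i B)) (fun x => x) (fun _ _ _ _ h => h) T
    (fun t => Fintype.piFinset (Function.update A i (C t))) (fun x hx => ?_) F hF
  rw [mem_pi_update] at hx
  obtain ⟨t, ht, h1⟩ := hB _ hx.1
  exact ⟨t, ht, (mem_pi_update _ _ _ _).2 ⟨h1, hx.2⟩⟩

end prods

variable {k N : ℕ} {ι Θ P : Type} [Fintype ι] [DecidableEq ι] [Fintype Θ] [Nonempty Θ] [Fintype P] [Nonempty P]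

open Classical in
/-- the window of the hidden vertex: `z - [0, 2^e)` -/
noncomputable def WN (e : ℕ) (z : V k) : Finset (P × V k) := univ.filter fun x => (z - x.2).val < 2 ^ e

theorem mem_WN (e : ℕ) (z : V k) (x : P × V k) : x ∈ WN (P := P) e z ↔ (z - x.2).val < 2 ^ e := by
  classical
  unfold WN
  rw [Finset.mem_filter]
  exact ⟨fun h => h.2, fun h => ⟨mem_univ _, h⟩⟩

theorem mem_CL (s : ℕ) (v : V k) (x : P × V k) : x ∈ CL (P := P) s v ↔ flr s x.2 = flr s v := by
  unfold CL
  rw [Finset.mem_filter]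
  exact ⟨fun h => h.2, fun h => ⟨mem_univ _, h⟩⟩

theorem card_WN {e : ℕ} (he : e ≤ k) (z : V k) : ((WN (P := P) e z).card : ℝ) = (Fintype.card P : ℝ) * 2 ^ e := by
  classical
  have h1 : WN (P := P) e z = ((univ : Finset P) ×ˢ range (2 ^ e)).image (fun q => ((q.1, z - (q.2 : V k)) : P × V k)) := by
    ext x
    rw [mem_WN, Finset.mem_image]
    constructor
    · intro h
      refine ⟨(x.1, (z - x.2).val), ?_, ?_⟩
      · rw [Finset.mem_product, Finset.mem_range]
        exact ⟨mem_univ _, h⟩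
      · simp only [ZMod.natCast_val, ZMod.cast_id', id_eq, sub_sub_cancel]
    · rintro ⟨q, hq, rfl⟩
      rw [Finset.mem_product, Finset.mem_range] at hq
      simp only [sub_sub_cancel]
      have h3 : (2 : ℕ) ^ e ≤ 2 ^ k := Nat.pow_le_pow_right (by norm_num) he
      rw [ZMod.val_natCast_of_lt (by omega)]
      exact hq.2
  rw [h1, Finset.card_image_of_injOn, Finset.card_product, Finset.card_univ, Finset.card_range]
  · push_cast
    rfl
  · rintro ⟨p, n⟩ hn ⟨p', n'⟩ hn' hq
    rw [Finset.mem_coe, Finset.mem_product, Finset.mem_range] at hn hn'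
    simp only [Prod.mk.injEq, sub_right_inj] at hq hn hn' ⊢
    refine ⟨hq.1, ?_⟩
    have h3 : (2 : ℕ) ^ e ≤ 2 ^ k := Nat.pow_le_pow_right (by norm_num) he
    have h4 := congrArg ZMod.val hq.2
    rwa [ZMod.val_natCast_of_lt (by omega), ZMod.val_natCast_of_lt (by omega)] at h4

/-! ## explicit averages -/

/-- the vertices of `U` -/
def ku (U : Finset ι) (ω : Sq k N ι Θ P) : {j : ι // j ∈ U} → P × V k := fun j => vx j.1 ω

/-- the cells of scale `r` of the vertices outside `U` -/
noncomputable def cl (U : Finset ι) (r : ℕ) (ω : Sq k N ι Θ P) : {j : ι // ¬ j ∈ U} → V k :=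
  fun j => flr r (vx j.1 ω).2

/-- the vertices of `U`, all the noise, the cells of the others -/
noncomputable def Zk (U : Finset ι) (r : ℕ) (ω : Sq k N ι Θ P) :
    Θ × ({j : ι // j ∈ U} → P × V k) × ℕ × ({j : ι // ¬ j ∈ U} → V k) := (th ω, ku U ω, nz ω, cl U r ω)

/-- the same without the hidden vertex `i` and the low noise -/
noncomputable def Yk (i : ι) (U : Finset ι) (e r : ℕ) (ω : Sq k N ι Θ P) :
    Θ × (V k × ℕ) × ({j : ι // j ∈ U.erase i} → P × V k) × ({j : ι // ¬ j ∈ U} → V k) :=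
  (th ω, Zn i e ω, ku (U.erase i) ω, cl U r ω)

/-- the sets of the vertices given `Zk U r` -/
noncomputable def AZ (U : Finset ι) (r : ℕ) (ω : Sq k N ι Θ P) : ι → Finset (P × V k) :=
  fun l => if l ∈ U then {vx l ω} else CL r (vx l ω).2

/-- the sets of the vertices given `Yk i U e r` -/
noncomputable def AY (i : ι) (U : Finset ι) (e r : ℕ) (ω : Sq k N ι Θ P) : ι → Finset (P × V k) :=
  Function.update (AZ U r ω) i (WN e (Zn i e ω).1)

/-- all the noise known: the other vertices are uniform in their cells -/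
theorem ce_Zk (U : Finset ι) (r : ℕ) (f : Sq k N ι Θ P → ℝ) (ω : Sq k N ι Θ P) :
    Pm.ce (Zk U r) f ω = ((Fintype.piFinset (AZ U r ω)).card : ℝ)⁻¹ *
      ∑ x ∈ Fintype.piFinset (AZ U r ω), f (ω.1, x, ω.2.2) := by
  unfold Pm
  refine ce_unif_image (φ := fun x : ι → P × V k => ((ω.1, x, ω.2.2) : Sq k N ι Θ P)) ?_ ?_ f
  · intro x _ y _ hxy
    exact congrArg (fun v : Sq k N ι Θ P => v.2.1) hxy
  · intro v
    constructor
    · intro hv
      unfold Zk ku cl at hv
      simp only [Prod.mk.injEq] at hv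
      obtain ⟨h1, h2, h3, h4⟩ := hv
      refine ⟨v.2.1, ?_, ?_⟩
      · rw [Fintype.mem_piFinset]
        intro l
        unfold AZ
        by_cases hl : l ∈ U
        · rw [if_pos hl, Finset.mem_singleton]
          exact congrFun h2 ⟨l, hl⟩
        · rw [if_neg hl, mem_CL]
          exact congrFun h4 ⟨l, hl⟩
      · exact Prod.ext h1.symm (Prod.ext rfl (Fin.ext h3.symm))
    · rintro ⟨x, hx, rfl⟩
      rw [Fintype.mem_piFinset] at hx
      unfold Zk ku cl
      refine Prod.ext rfl (Prod.ext ?_ (Prod.ext rfl ?_))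
      · funext l
        have := hx l.1
        unfold AZ at this
        rw [if_pos l.2, Finset.mem_singleton] at this
        exact this
      · funext l
        have := hx l.1
        unfold AZ at this
        rw [if_neg l.2, mem_CL] at this
        exact this

/-- the sample point with the same exact path of the view `i` and the vertices `x` -/
def rep (i : ι) (e : ℕ) (he : e ≤ N) (ω : Sq k N ι Θ P) (x : ι → P × V k) : Sq k N ι Θ P :=
  (ω.1, x, ⟨nz ω / 2 ^ e * 2 ^ e + ((Zn i e ω).1 - (x i).2).val % 2 ^ e, by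
    have h1 : nz ω / 2 ^ e < 2 ^ (N - e) := by
      rw [Nat.div_lt_iff_lt_mul (by positivity), ← pow_add, Nat.sub_add_cancel he]; exact ω.2.2.isLt
    have h2 : ((Zn i e ω).1 - (x i).2).val % 2 ^ e < 2 ^ e := Nat.mod_lt _ (by positivity)
    have h3 : 2 ^ (N - e) * 2 ^ e = 2 ^ N := by rw [← pow_add, Nat.sub_add_cancel he]
    calc nz ω / 2 ^ e * 2 ^ e + ((Zn i e ω).1 - (x i).2).val % 2 ^ e < nz ω / 2 ^ e * 2 ^ e + 2 ^ e := by omega
      _ = (nz ω / 2 ^ e + 1) * 2 ^ e := by ring
      _ ≤ 2 ^ (N - e) * 2 ^ e := Nat.mul_le_mul_right _ h1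
      _ = 2 ^ N := h3⟩)

theorem vs_rep (i : ι) (e : ℕ) (he : e ≤ N) (ω : Sq k N ι Θ P) (x : ι → P × V k) :
    vs (rep i e he ω x) = x := rfl

theorem vx_rep (i : ι) (e : ℕ) (he : e ≤ N) (ω : Sq k N ι Θ P) (x : ι → P × V k) (l : ι) :
    vx l (rep i e he ω x) = x l := rfl

theorem Zn_rep (i : ι) {e : ℕ} (he : e ≤ N) (ω : Sq k N ι Θ P) (x : ι → P × V k)
    (hx : ((Zn i e ω).1 - (x i).2).val < 2 ^ e) : Zn i e (rep i e he ω x) = Zn i e ω := by
  have h1 : nz (rep i e he ω x) = nz ω / 2 ^ e * 2 ^ e + ((Zn i e ω).1 - (x i).2).val % 2 ^ e := rfl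
  have h2 : nz (rep i e he ω x) % 2 ^ e = ((Zn i e ω).1 - (x i).2).val := by
    rw [h1, Nat.mul_comm, Nat.mul_add_mod, Nat.mod_mod, Nat.mod_eq_of_lt hx]
  have h3 : nz (rep i e he ω x) / 2 ^ e = nz ω / 2 ^ e := by
    rw [h1, Nat.mul_comm, Nat.mul_add_div (by positivity), Nat.div_eq_of_lt (Nat.mod_lt _ (by positivity)),
      Nat.add_zero]
  refine Prod.ext ?_ h3
  change Bin.pos e (vx i (rep i e he ω x)).2 (nz (rep i e he ω x)) = (Zn i e ω).1
  unfold Bin.pos
  rw [h2, vx_rep]
  simp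

/-- the exact path of the view `i` known: the hidden vertex is uniform in its window, the others in their cells -/
theorem ce_Yk {i : ι} {U : Finset ι} (hi : i ∈ U) {e : ℕ} (he : e ≤ N) (hN : N ≤ k) (r : ℕ)
    (f : Sq k N ι Θ P → ℝ) (ω : Sq k N ι Θ P) :
    Pm.ce (Yk i U e r) f ω = ((Fintype.piFinset (AY i U e r ω)).card : ℝ)⁻¹ *
      ∑ x ∈ Fintype.piFinset (AY i U e r ω), f (rep i e he ω x) := by
  unfold Pm
  refine ce_unif_image (φ := fun x : ι → P × V k => rep i e he ω x) ?_ ?_ f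
  · intro x _ y _ hxy
    exact congrArg (fun v : Sq k N ι Θ P => v.2.1) hxy
  · intro v
    unfold AY
    constructor
    · intro hv
      unfold Yk ku cl at hv
      simp only [Prod.mk.injEq] at hv
      obtain ⟨h1, h2, h3, h4⟩ := hv
      have h5 := nz_mod i (he.trans hN) v
      rw [h2] at h5
      refine ⟨v.2.1, ?_, ?_⟩
      · rw [mem_pi_update]
        refine ⟨?_, fun l hl => ?_⟩
        · rw [mem_WN]
          refine lt_of_eq_of_lt ?_ (Nat.mod_lt (nz v) (Nat.two_pow_pos e))
          rw [h5]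
          rfl
        · unfold AZ
          by_cases hlU : l ∈ U
          · rw [if_pos hlU, Finset.mem_singleton]
            exact congrFun h3 ⟨l, Finset.mem_erase.mpr ⟨hl, hlU⟩⟩
          · rw [if_neg hlU, mem_CL]
            exact congrFun h4 ⟨l, hlU⟩
      · refine Prod.ext h1.symm (Prod.ext rfl (Fin.ext ?_))
        change nz ω / 2 ^ e * 2 ^ e + ((Zn i e ω).1 - (vx i v).2).val % 2 ^ e = nz v
        rw [← h5, Nat.mod_mod]
        have h6 : nz v / 2 ^ e = nz ω / 2 ^ e := congrArg Prod.snd h2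
        rw [← h6]
        exact Nat.div_add_mod' _ _
    · rintro ⟨x, hx, rfl⟩
      rw [mem_pi_update, mem_WN] at hx
      obtain ⟨hx1, hx2⟩ := hx
      unfold Yk ku cl
      refine Prod.ext rfl (Prod.ext (Zn_rep i he ω x hx1) (Prod.ext ?_ ?_))
      · funext l
        have h7 := hx2 l.1 (Finset.ne_of_mem_erase l.2)
        unfold AZ at h7
        rw [if_pos (Finset.mem_of_mem_erase l.2), Finset.mem_singleton] at h7
        exact h7
      · funext l
        have h7 := hx2 l.1 (fun h => l.2 (by rw [h]; exact hi))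
        unfold AZ at h7
        rw [if_neg l.2, mem_CL] at h7
        exact h7

/-! ## options -/

/-- one step to the right -/
theorem flr_add_q {s n r : ℕ} (hs : s ≤ k) (v : V k) (hr : r ≤ n * 2 ^ s) :
    ∃ q ≤ n, flr s (v + (r : V k)) = flr s v + ((q * 2 ^ s : ℕ) : V k) := by
  obtain ⟨o, ho, hv⟩ := flr_add_rem s v
  have hpos : 0 < 2 ^ s := Nat.two_pow_pos s
  refine ⟨(o + r) / 2 ^ s, ?_, ?_⟩
  · have h1 : (o + r) / 2 ^ s < n + 1 := by
      rw [Nat.div_lt_iff_lt_mul hpos, add_mul, one_mul]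
      omega
    omega
  · have h2 := Nat.div_add_mod' (o + r) (2 ^ s)
    have h1 : v + (r : V k) = (flr s v + (((o + r) / 2 ^ s * 2 ^ s : ℕ) : V k)) + (((o + r) % 2 ^ s : ℕ) : V k) := by
      rw [add_assoc, ← Nat.cast_add, h2, Nat.cast_add]
      conv_lhs => rw [hv]
      ring
    have h3 : flr s (flr s v + (((o + r) / 2 ^ s * 2 ^ s : ℕ) : V k)) =
        flr s v + (((o + r) / 2 ^ s * 2 ^ s : ℕ) : V k) := by
      rw [flr_add_mul (j := s) (i := s) le_rfl (flr s v) ((o + r) / 2 ^ s), flr_flr le_rfl]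
    rw [h1, flr_aligned_add hs _ h3 _ (Nat.mod_lt _ hpos)]

/-- a sum of vertices known up to small cells -/
theorem sum_flr (s : ℕ) (I : Finset ι) (x y : ι → V k) (h : ∀ l ∈ I, flr s (y l) = flr s (x l)) :
    ∃ r ≤ I.card * 2 ^ s, ∑ l ∈ I, y l = ∑ l ∈ I, flr s (x l) + (r : V k) := by
  classical
  induction I using Finset.induction_on with
  | empty => exact ⟨0, by simp, by simp⟩
  | insert a I ha ih =>
    obtain ⟨r, hr, h1⟩ := ih fun l hl => h l (Finset.mem_insert_of_mem hl)
    obtain ⟨o, ho, hv⟩ := flr_add_rem s (y a)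
    rw [h a (Finset.mem_insert_self a I)] at hv
    refine ⟨o + r, ?_, ?_⟩
    · rw [Finset.card_insert_of_notMem ha, add_mul, one_mul]
      omega
    · rw [Finset.sum_insert ha, Finset.sum_insert ha, h1, Nat.cast_add]
      conv_lhs => rw [hv]
      ring

variable (s : V k)

/-- the options of the rounded node given the public node of the view `i` -/
noncomputable def gop (i : ι) (h e q : ℕ) (ω : Sq k N ι Θ P) : V k × ℕ :=
  (flr (e - h) ((Zn i e ω).1 + (∑ l ∈ univ.erase i, sc h e l ω + s)) + ((q * 2 ^ (e - h) : ℕ) : V k), (Zn i e ω).2)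

theorem Gm_eq' (h e : ℕ) (ω : Sq k N ι Θ P) : Gm s h e ω = (flr (e - h) (Yn s e ω).1, (Yn s e ω).2) := rfl

theorem Gm_al (h e : ℕ) (ω : Sq k N ι Θ P) : flr (e - h) (Gm s h e ω).1 = (Gm s h e ω).1 := flr_flr le_rfl _

/-- AT MOST `m` OPTIONS: same path of the view `i`, same small cells -/
theorem opts (i : ι) (h : ℕ) {e : ℕ} (he : e ≤ k) {ω v : Sq k N ι Θ P} (hZ : Zn i e v = Zn i e ω)
    (hc : ∀ l, l ≠ i → sc h e l v = sc h e l ω) : ∃ q ∈ range (Fintype.card ι), Gm s h e v = gop s i h e q ω := by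
  have hm : 0 < Fintype.card ι := Fintype.card_pos_iff.mpr ⟨i⟩
  obtain ⟨r, hr, h1⟩ := sum_flr (e - (h + 3)) (univ.erase i) (fun l => (vx l ω).2) (fun l => (vx l v).2)
    (fun l hl => hc l (Finset.ne_of_mem_erase hl))
  rw [Finset.card_erase_of_mem (mem_univ i), Finset.card_univ] at hr
  have h2 : r ≤ (Fintype.card ι - 1) * 2 ^ (e - h) :=
    hr.trans (Nat.mul_le_mul_left _ (Nat.pow_le_pow_right (by norm_num) (by omega)))
  obtain ⟨q, hq, h3⟩ := flr_add_q (s := e - h) (by omega)
    ((Zn i e ω).1 + (∑ l ∈ univ.erase i, flr (e - (h + 3)) (vx l ω).2 + s)) h2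
  refine ⟨q, Finset.mem_range.mpr (by omega), ?_⟩
  have h4 : Yn s e v = ((Zn i e ω).1 + (∑ l ∈ univ.erase i, flr (e - (h + 3)) (vx l ω).2 + s) + (r : V k),
      (Zn i e ω).2) := by
    rw [Yn_eq s i, hZ]
    unfold co
    rw [h1]
    refine Prod.ext ?_ rfl
    simp only
    ring
  refine (Gm_eq' s h e v).trans ?_
  rw [h4]
  exact Prod.ext h3 rfl

/-- the options given the public node -/
theorem opts_Qn (i : ι) (h : ℕ) {e : ℕ} (he : e ≤ k) {ω v : Sq k N ι Θ P} (hQ : Qn i h e v = Qn i h e ω) :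
    ∃ q ∈ range (Fintype.card ι), Gm s h e v = gop s i h e q ω := by
  unfold Qn at hQ
  simp only [Prod.mk.injEq] at hQ
  exact opts s i h he hQ.2.1 fun l hl => congrFun hQ.2.2 ⟨l, hl⟩

theorem Fac_of_eq {Om κ : Type*} {X : Om → κ} {v w : Om} (h : X v = X w) {ι : Type*} {Y : Om → ι} (hY : Fac X Y) :
    Y v = Y w := hY v w h

/-- a family of events, rare at each fixed aligned node, is rare at the moving node -/
theorem ce_opts (i : ι) {h e : ℕ} (he : e ≤ k) {κ : Type*} {X : Sq k N ι Θ P → κ}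
    (hX : Fac X (Qn i h e)) {G : V k × ℕ → Sq k N ι Θ P → ℝ} (hG : ∀ g v, 0 ≤ G g v) {θ : ℝ} (hθ : 0 ≤ θ)
    (ω : Sq k N ι Θ P) (h1 : ∀ g : V k × ℕ, flr (e - h) g.1 = g.1 → Pm.ce X (G g) ω ≤ θ) :
    Pm.ce X (fun v => G (Gm s h e v) v) ω ≤ Fintype.card ι * θ := by
  classical
  have h2 := ce_mono_fib (Pm (k := k) (N := N) (ι := ι) (Θ := Θ) (P := P)) (X := X)
    (f := fun v => G (Gm s h e v) v)
    (g := fun v => ∑ q ∈ range (Fintype.card ι), (if flr (e - h) (gop s i h e q ω).1 = (gop s i h e q ω).1 then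
      G (gop s i h e q ω) v else 0)) ω (by
    intro v hv
    obtain ⟨q, hq, h3⟩ := opts_Qn s i h he (hX v ω hv)
    have h4 : flr (e - h) (gop s i h e q ω).1 = (gop s i h e q ω).1 := by
      rw [← h3]; exact Gm_al s h e v
    have h5 := Finset.single_le_sum (f := fun q => if flr (e - h) (gop s i h e q ω).1 = (gop s i h e q ω).1 then
      G (gop s i h e q ω) v else 0) (fun q _ => by split_ifs; exacts [hG _ _, le_rfl]) hq
    simp only [if_pos h4] at h5
    rw [h3]
    exact h5)
  refine h2.trans ?_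
  have h6 : Pm.ce X (fun v => ∑ q ∈ range (Fintype.card ι), (if flr (e - h) (gop s i h e q ω).1 = (gop s i h e q ω).1 then
      G (gop s i h e q ω) v else 0)) ω = ∑ q ∈ range (Fintype.card ι), Pm.ce X (fun v => if flr (e - h) (gop s i h e q ω).1 =
        (gop s i h e q ω).1 then G (gop s i h e q ω) v else 0) ω := by
    generalize range (Fintype.card ι) = S
    induction S using Finset.induction_on with
    | empty =>
      simp only [Finset.sum_empty]
      exact FP.ce_const _ _ _ (Pm_ne ω)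
    | insert a S ha ih =>
      simp only [Finset.sum_insert ha]
      rw [← ih]
      exact FP.ce_add _ _ _ _ _
  rw [h6]
  calc _ ≤ ∑ _q ∈ range (Fintype.card ι), θ := by
        refine Finset.sum_le_sum fun q _ => ?_
        by_cases hq : flr (e - h) (gop s i h e q ω).1 = (gop s i h e q ω).1
        · simp only [if_pos hq]
          exact h1 _ hq
        · simp only [if_neg hq]
          rw [FP.ce_const _ _ _ (Pm_ne ω)]
          exact hθ
    _ = Fintype.card ι * θ := by rw [Finset.sum_const, card_range, nsmul_eq_mul]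

/-! ## functions which are rare in all products of small cells -/

/-- mean at most `θ` over all products of small cells -/
def RareC (h e : ℕ) (F : (ι → P × V k) → ℝ) (θ : ℝ) : Prop :=
  ∀ c : ι → V k, ∑ x ∈ SCm (P := P) h e c, F x ≤ θ * (SCm (P := P) h e c).card

theorem SC_eq_CL (h e : ℕ) (v : V k) : SC (P := P) h e v = CL (P := P) (e - (h + 3)) v := rfl

theorem SCm_update (h e : ℕ) (c : ι → V k) (i : ι) :
    SCm (P := P) h e c = Fintype.piFinset (Function.update (fun l => CL (P := P) (e - (h + 3)) (c l)) i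
      (CL (e - (h + 3)) (c i))) := by
  unfold SCm
  congr 1
  funext l
  by_cases hl : l = i
  · subst hl; rw [Function.update_self]; rfl
  · rw [Function.update_of_ne hl]; rfl

theorem card_CL_pos (s : ℕ) (v : V k) : (0 : ℝ) < ((CL (P := P) s v).card : ℝ) := by
  have h1 : v ∈ (CL (P := P) s v).image Prod.snd := by
    classical
    rw [Finset.mem_image]
    exact ⟨(Classical.arbitrary P, v), (mem_CL _ _ _).2 rfl, rfl⟩
  exact Nat.cast_pos.mpr (Finset.card_pos.mpr (Finset.image_nonempty.mp ⟨v, h1⟩))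

/-- a rare function which misses the vertex `j`: rare at every value of the vertex `j` -/
theorem RareC.fix {h e : ℕ} {F : (ι → P × V k) → ℝ} {θ : ℝ} (hF : RareC h e F θ) (j : ι)
    (hd : DependsOn F ({j}ᶜ : Set ι)) (c : ι → V k) (a : P × V k) :
    ∑ x ∈ Fintype.piFinset (Function.update (fun l => CL (P := P) (e - (h + 3)) (c l)) j {a}), F x ≤
      θ * (Fintype.piFinset (Function.update (fun l => CL (P := P) (e - (h + 3)) (c l)) j {a})).card := by
  have h1 := hF c
  rw [SCm_update h e c j, sum_pi_miss _ j _ a hd, card_pi_update] at h1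
  rw [card_pi_update, Finset.card_singleton, Nat.cast_one, one_mul]
  have h2 := card_CL_pos (P := P) (e - (h + 3)) (c j)
  have h3 : θ * (((CL (P := P) (e - (h + 3)) (c j)).card : ℝ) *
      ∏ l ∈ univ.erase j, ((CL (P := P) (e - (h + 3)) (c l)).card : ℝ)) =
      ((CL (P := P) (e - (h + 3)) (c j)).card : ℝ) *
        (θ * ∏ l ∈ univ.erase j, ((CL (P := P) (e - (h + 3)) (c l)).card : ℝ)) := by ring
  rw [h3] at h1
  exact le_of_mul_le_mul_left h1 h2

theorem AZ_single (i : ι) (s : ℕ) (ω : Sq k N ι Θ P) :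
    AZ {i} s ω = Function.update (fun l => CL (P := P) s (vx l ω).2) i {vx i ω} := by
  funext l
  unfold AZ
  by_cases hl : l = i
  · subst hl
    rw [if_pos (Finset.mem_singleton_self l), Function.update_self]
  · rw [if_neg (by simpa using hl), Function.update_of_ne hl]

/-- CORE, the vertex `i` and all the noise known -/
theorem core_Z (i : ι) {h e : ℕ} {F : (ι → P × V k) → ℝ} {θ : ℝ} (hF : RareC h e F θ)
    (hd : DependsOn F ({i}ᶜ : Set ι)) (ω : Sq k N ι Θ P) :
    Pm.ce (Zk {i} (e - (h + 3))) (fun v => F (vs v)) ω ≤ θ := by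
  rw [ce_Zk, AZ_single]
  have h1 := hF.fix i hd (fun l => (vx l ω).2) (vx i ω)
  have h2 : (0 : ℝ) < ((Fintype.piFinset (Function.update (fun l => CL (P := P) (e - (h + 3)) (vx l ω).2) i
      {vx i ω})).card : ℝ) := by
    rw [card_pi_update, Finset.card_singleton, Nat.cast_one, one_mul]
    exact Finset.prod_pos fun l _ => card_CL_pos _ _
  rw [inv_mul_le_iff₀ h2, mul_comm]
  exact h1

theorem AY_pair {i j : ι} (hij : j ≠ i) (e s : ℕ) (ω : Sq k N ι Θ P) :
    AY i {i, j} e s ω = Function.update (Function.update (fun l => CL (P := P) s (vx l ω).2) j {vx j ω}) i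
      (WN e (Zn i e ω).1) := by
  unfold AY
  funext l
  by_cases hl : l = i
  · subst hl; rw [Function.update_self, Function.update_self]
  · rw [Function.update_of_ne hl, Function.update_of_ne hl]
    unfold AZ
    by_cases hlj : l = j
    · subst hlj
      rw [if_pos (by simp), Function.update_self]
    · rw [if_neg (by simp [hl, hlj]), Function.update_of_ne hlj]

/-- CORE, the view `i`, the vertex `j ≠ i` known exactly, the others in their cells -/
theorem core_Y {i j : ι} (hij : j ≠ i) {h e : ℕ} (he : e ≤ N) (hN : N ≤ k) {F : (ι → P × V k) → ℝ}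
    (hF0 : ∀ x, 0 ≤ F x) {θ : ℝ} (hθ : 0 ≤ θ) (hF : RareC h e F θ)
    (hd : DependsOn F ({j}ᶜ : Set ι)) (ω : Sq k N ι Θ P) :
    Pm.ce (Yk i {i, j} e (e - (h + 3))) (fun v => F (vs v)) ω ≤ 9 / 8 * θ := by
  set s := e - (h + 3)
  have hse : s ≤ e := Nat.sub_le _ _
  have hek : e ≤ k := he.trans hN
  rw [ce_Yk (by simp) he hN, AY_pair hij]
  simp only [vs_rep]
  set z := (Zn i e ω).1 with hz
  set T := 2 ^ (e - s) + (if s = 0 then 0 else 1) with hT
  set A := Function.update (fun l => CL (P := P) s (vx l ω).2) j {vx j ω} with hA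
  set K : ℝ := ∏ l ∈ univ.erase i, ((A l).card : ℝ) with hK
  have hA0 : ∀ l, (0 : ℝ) < ((A l).card : ℝ) := by
    intro l
    rw [hA]
    by_cases hl : l = j
    · subst hl; rw [Function.update_self, Finset.card_singleton]; norm_num
    · rw [Function.update_of_ne hl]; exact card_CL_pos _ _
  have hK0 : 0 < K := Finset.prod_pos fun l _ => hA0 l
  have hP : (0 : ℝ) < (Fintype.card P : ℝ) := Nat.cast_pos.mpr Fintype.card_pos
  have hCL : ∀ v : V k, ((CL (P := P) s v).card : ℝ) = (Fintype.card P : ℝ) * 2 ^ s := fun v => card_SC hek v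
  have h1 : ∑ x ∈ Fintype.piFinset (Function.update A i (WN e z)), F x ≤
      ∑ t ∈ range T, ∑ x ∈ Fintype.piFinset (Function.update A i (CL s (z - ((t * 2 ^ s : ℕ) : V k)))), F x := by
    refine sum_pi_cover A i _ _ _ (fun x hx => ?_) hF0
    rw [mem_WN] at hx
    obtain ⟨t, ht, h3⟩ := win_cover hse hek z _ hx
    refine ⟨t, ht, ?_⟩
    rw [mem_CL, ← h3]
    congr 1
    simp
  have h2 : ∀ t ∈ range T, ∑ x ∈ Fintype.piFinset (Function.update A i (CL s (z - ((t * 2 ^ s : ℕ) : V k)))), F x ≤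
      θ * ((Fintype.card P : ℝ) * 2 ^ s * K) := by
    intro t _
    have h3 := hF.fix j hd (Function.update (fun l => (vx l ω).2) i (z - ((t * 2 ^ s : ℕ) : V k))) (vx j ω)
    have h4 : Function.update (fun l => CL (P := P) (e - (h + 3))
        (Function.update (fun l => (vx l ω).2) i (z - ((t * 2 ^ s : ℕ) : V k)) l)) j {vx j ω} =
        Function.update A i (CL s (z - ((t * 2 ^ s : ℕ) : V k))) := by
      funext l
      by_cases hl : l = i
      · subst hl
        rw [Function.update_of_ne hij.symm, Function.update_self, Function.update_self]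
      · rw [Function.update_of_ne hl, hA]
        by_cases hlj : l = j
        · subst hlj; rw [Function.update_self, Function.update_self]
        · rw [Function.update_of_ne hlj, Function.update_of_ne hlj, Function.update_of_ne hl]
    rw [h4, card_pi_update, hCL] at h3
    exact h3
  have h3 : ∑ x ∈ Fintype.piFinset (Function.update A i (WN e z)), F x ≤
      T * (θ * ((Fintype.card P : ℝ) * 2 ^ s * K)) := by
    refine h1.trans ((Finset.sum_le_sum h2).trans (le_of_eq ?_))
    rw [Finset.sum_const, card_range, nsmul_eq_mul]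
  have hcard : ((Fintype.piFinset (Function.update A i (WN e z))).card : ℝ) = (Fintype.card P : ℝ) * 2 ^ e * K := by
    rw [card_pi_update, card_WN hek]
  have hpos : (0 : ℝ) < (Fintype.card P : ℝ) * 2 ^ e * K := mul_pos (mul_pos hP (pow_pos (by norm_num) e)) hK0
  rw [hcard, inv_mul_le_iff₀ hpos]
  refine h3.trans ?_
  clear_value K
  have hT2 : (T : ℝ) * 2 ^ s ≤ 9 / 8 * 2 ^ e := by
    have h3 : (2 : ℝ) ^ (e - s) * 2 ^ s = 2 ^ e := by rw [← pow_add, Nat.sub_add_cancel hse]
    rw [hT]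
    push_cast
    by_cases h0 : s = 0
    · rw [if_pos h0, add_zero, h3]
      have : (0 : ℝ) < 2 ^ e := by positivity
      linarith
    · rw [if_neg h0, add_mul, h3, one_mul]
      have h4 : e - s = h + 3 := by omega
      have h5 : (8 : ℝ) ≤ 2 ^ (e - s) := by
        rw [h4]
        calc (8 : ℝ) = 2 ^ 3 := by norm_num
          _ ≤ 2 ^ (h + 3) := pow_le_pow_right₀ (by norm_num) (by omega)
      have h6 : (0 : ℝ) < 2 ^ s := by positivity
      have h7 : 8 * (2 : ℝ) ^ s ≤ 2 ^ e := by rw [← h3]; exact mul_le_mul_of_nonneg_right h5 h6.le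
      linarith
  calc (T : ℝ) * (θ * ((Fintype.card P : ℝ) * 2 ^ s * K)) = (T * 2 ^ s) * (θ * ((Fintype.card P : ℝ) * K)) := by ring
    _ ≤ (9 / 8 * 2 ^ e) * (θ * ((Fintype.card P : ℝ) * K)) :=
        mul_le_mul_of_nonneg_right hT2 (by positivity)
    _ = _ := by ring

/-! ## product tests with moving factors -/

/-- a function of a part of the information on a fibre, as a function of the vertices of a set `S` -/
theorem exists_face {κ : Type*} {X : Sq k N ι Θ P → κ} {S : Set ι} {f : Sq k N ι Θ P → V k → ℝ} {H : ℝ}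
    (hH : 0 ≤ H) (hfH : ∀ ω d, |f ω d| ≤ H) (ω : Sq k N ι Θ P)
    (hf : ∀ v w, X v = X ω → X w = X ω → (∀ l ∈ S, vx l v = vx l w) → f v = f w) :
    ∃ V0 : (ι → P × V k) → V k → ℝ, DependsOn V0 S ∧ (∀ x d, |V0 x d| ≤ H) ∧
      ∀ v, X v = X ω → f v = V0 (vs v) := by
  classical
  let pr : (ι → P × V k) → Sq k N ι Θ P → Prop := fun x v => X v = X ω ∧ ∀ l ∈ S, vx l v = x l
  let G : (Sq k N ι Θ P → Prop) → V k → ℝ := fun p => if hp : ∃ v, p v then f hp.choose else fun _ => 0
  refine ⟨fun x => G (pr x), ?_, ?_, ?_⟩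
  · intro x y hxy
    have h1 : pr x = pr y := by
      funext v
      refine propext ⟨fun h => ⟨h.1, fun l hl => (h.2 l hl).trans (hxy l hl)⟩,
        fun h => ⟨h.1, fun l hl => (h.2 l hl).trans (hxy l hl).symm⟩⟩
    change G (pr x) = G (pr y)
    rw [h1]
  · intro x d
    change |G (pr x) d| ≤ H
    by_cases hp : ∃ v, pr x v
    · have h2 : G (pr x) = f hp.choose := dif_pos hp
      rw [h2]; exact hfH _ _
    · have h2 : G (pr x) = fun _ => 0 := dif_neg hp
      rw [h2]; simpa using hH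
  · intro v hv
    have hp : ∃ v', pr (vs v) v' := ⟨v, hv, fun l _ => rfl⟩
    have h2 : G (pr (vs v)) = f hp.choose := dif_pos hp
    change f v = G (pr (vs v))
    rw [h2]
    exact hf _ _ hv hp.choose_spec.1 fun l hl => (hp.choose_spec.2 l hl).symm

/-- product tests as rare functions -/
theorem PT_rare {i : ι} {h : ℕ} {R : Fam k ι P} {θ r H : ℝ} (hPT : PT i h N R θ r H) {e : ℕ} (he : e ≤ N)
    {g : V k × ℕ} (hg : flr (e - h) g.1 = g.1) {v : ι → (ι → P × V k) → V k → ℝ}
    (hv : ∀ w, w ≠ i → DependsOn (v w) ({i, w}ᶜ : Set ι)) (hvH : ∀ w x d, |v w x d| ≤ H) :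
    RareC h e (fun x => ind (r ≤ |av e g.1 (fun d => R e g x d * ∏ w ∈ univ.erase i, v w x d)|)) θ := by
  classical
  intro c
  refine le_trans (le_of_eq ?_) (hPT e he g hg c v hv hvH)
  rw [Finset.card_filter]
  push_cast
  refine Finset.sum_congr rfl fun x _ => ?_
  by_cases hq : r ≤ |av e g.1 (fun d => R e g x d * ∏ w ∈ univ.erase i, v w x d)|
  · rw [ind_of hq, if_pos hq]
  · rw [ind_not hq, if_neg hq]

/-- the tested function misses the vertex of the face -/
theorem PT_dep {i : ι} {R : Fam k ι P} (hR : FOn ({i}ᶜ : Set ι) R) (e : ℕ) (g : V k × ℕ) (r : ℝ)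
    {v : ι → (ι → P × V k) → V k → ℝ} (hv : ∀ w, w ≠ i → DependsOn (v w) ({i, w}ᶜ : Set ι)) :
    DependsOn (fun x : ι → P × V k => ind (r ≤ |av e g.1 (fun d => R e g x d * ∏ w ∈ univ.erase i, v w x d)|))
      ({i}ᶜ : Set ι) := by
  intro x y hxy
  have h1 : R e g x = R e g y := hR e g hxy
  have h2 : ∀ w ∈ univ.erase i, v w x = v w y := fun w hw =>
    hv w (Finset.ne_of_mem_erase hw) fun l hl => hxy l fun hli => hl (by
      rw [Set.mem_singleton_iff] at hli
      rw [hli]; exact Set.mem_insert _ _)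
  have h3 : (fun d => R e g x d * ∏ w ∈ univ.erase i, v w x d) =
      fun d => R e g y d * ∏ w ∈ univ.erase i, v w y d := by
    funext d
    rw [h1]
    congr 1
    exact Finset.prod_congr rfl fun w hw => by rw [h2 w hw]
  simp only [h3]

/-- from the exact window to the rounded one -/
theorem round_prod {i : ι} {h e : ℕ} (y : V k) {r H : ℝ} (hr : 2 * H ^ Fintype.card ι * ((2 : ℝ) ^ h)⁻¹ ≤ r)
    {a : V k → ℝ} {b : ι → V k → ℝ} (ha : ∀ d, |a d| ≤ H) (hb : ∀ w d, |b w d| ≤ H)
    (hy : 2 * r ≤ |av e y (fun d => a d * ∏ w ∈ univ.erase i, b w d)|) :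
    r ≤ |av e (flr (e - h) y) (fun d => a d * ∏ w ∈ univ.erase i, b w d)| := by
  have hH : 0 ≤ H := (abs_nonneg _).trans (ha 0)
  have h0 : ∀ d, |a d * ∏ w ∈ univ.erase i, b w d| ≤ H ^ Fintype.card ι := fun d => by
    rw [abs_mul, Finset.abs_prod]
    have h1 : ∏ w ∈ univ.erase i, |b w d| ≤ ∏ _w ∈ univ.erase i, H :=
      Finset.prod_le_prod (fun w _ => abs_nonneg _) fun w _ => hb w d
    rw [Finset.prod_const, Finset.card_erase_of_mem (mem_univ i), Finset.card_univ] at h1
    calc |a d| * ∏ w ∈ univ.erase i, |b w d| ≤ H * H ^ (Fintype.card ι - 1) :=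
          mul_le_mul (ha d) h1 (Finset.prod_nonneg fun w _ => abs_nonneg _) hH
      _ = H ^ Fintype.card ι := by rw [← pow_succ', Nat.sub_add_cancel (Fintype.card_pos_iff.mpr ⟨i⟩)]
  have h1 := av_round h e y (f := fun d => a d * ∏ w ∈ univ.erase i, b w d) (B := H ^ Fintype.card ι) h0
  have h2 := abs_sub_abs_le_abs_sub (av e y (fun d => a d * ∏ w ∈ univ.erase i, b w d))
    (av e (flr (e - h) y) (fun d => a d * ∏ w ∈ univ.erase i, b w d))
  linarith

/-- RARITY, the vertex `i` of the tested face and all the noise known: the factor `w ≠ i` may depend on everything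
but the vertex `w` -/
theorem rar_hidden (i : ι) {h e : ℕ} (he : e ≤ N) (hN : N ≤ k) {R : Fam k ι P} {θ r H : ℝ} (hθ : 0 ≤ θ)
    (hR : FOn ({i}ᶜ : Set ι) R) (hPT : PT i h N R θ r H) (hr : 2 * H ^ Fintype.card ι * ((2 : ℝ) ^ h)⁻¹ ≤ r) (hRH : FLe H R)
    {v : ι → V k × ℕ → Sq k N ι Θ P → V k → ℝ}
    (hv : ∀ w, w ≠ i → ∀ g, Fac (fun ω => (th ω, ot w ω, nz ω)) (v w g))
    (hvH : ∀ w g ω d, |v w g ω d| ≤ H) (ω : Sq k N ι Θ P) :
    Pm.ce (Zk {i} (e - (h + 3))) (fun ω => ind (2 * r ≤ |av e (Yn s e ω).1 (fun d => R e (Gm s h e ω) (vs ω) d *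
      ∏ w ∈ univ.erase i, v w (Gm s h e ω) ω d)|)) ω ≤ Fintype.card ι * θ := by
  have hH : 0 ≤ H := (abs_nonneg _).trans (hRH 0 (0, 0) (vs ω) 0)
  have h1 := ce_opts (Θ := Θ) (P := P) (N := N) s i (h := h) (e := e) (he.trans hN)
    (X := Zk {i} (e - (h + 3))) (G := fun g ω => ind (r ≤ |av e g.1 (fun d => R e g (vs ω) d *
      ∏ w ∈ univ.erase i, v w g ω d)|)) (by
      intro a b hab
      unfold Zk ku cl at hab
      simp only [Prod.mk.injEq] at hab
      obtain ⟨h1, h2, h3, h4⟩ := hab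
      have h5 : vx i a = vx i b := congrFun h2 ⟨i, Finset.mem_singleton_self i⟩
      unfold Qn
      refine Prod.ext h1 (Prod.ext ?_ ?_)
      · unfold Zn; rw [h5, h3]
      · funext l
        exact congrFun h4 ⟨l.1, by simpa using l.2⟩) (fun _ _ => ind_nonneg _) hθ ω (by
      intro g hg
      -- the factors as functions of the vertices
      have h2 : ∀ w : ι, ∃ V0 : (ι → P × V k) → V k → ℝ, (w ≠ i → DependsOn V0 ({i, w}ᶜ : Set ι)) ∧
          (∀ x d, |V0 x d| ≤ H) ∧ (w ≠ i → ∀ ω', Zk {i} (e - (h + 3)) ω' = Zk {i} (e - (h + 3)) ω →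
            v w g ω' = V0 (vs ω')) := by
        intro w
        by_cases hw : w = i
        · exact ⟨fun _ _ => 0, fun h => absurd hw h, fun _ _ => by simpa using hH, fun h => absurd hw h⟩
        obtain ⟨V0, h3, h4, h5⟩ := exists_face (X := Zk (Θ := Θ) (P := P) (k := k) (N := N) {i} (e - (h + 3)))
          (S := ({i, w}ᶜ : Set ι)) (f := v w g) hH (hvH w g) ω (by
            intro a b ha hb hl
            refine hv w hw g a b ?_
            rw [← hb] at ha
            unfold Zk ku cl at ha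
            simp only [Prod.mk.injEq] at ha
            obtain ⟨h1, h2, h3, h4⟩ := ha
            refine Prod.ext h1 (Prod.ext ?_ h3)
            funext l
            by_cases hli : l.1 = i
            · change vx l.1 a = vx l.1 b
              rw [hli]
              exact congrFun h2 ⟨i, Finset.mem_singleton_self i⟩
            · exact hl l.1 fun hmem => by
                rcases hmem with h6 | h6
                · exact hli h6
                · exact l.2 h6)
        exact ⟨V0, fun _ => h3, h4, fun _ => h5⟩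
      choose V0 hV1 hV2 hV3 using h2
      have h3 : Pm.ce (Zk {i} (e - (h + 3))) (fun ω => ind (r ≤ |av e g.1 (fun d => R e g (vs ω) d *
          ∏ w ∈ univ.erase i, v w g ω d)|)) ω ≤
          Pm.ce (Zk {i} (e - (h + 3))) (fun ω => (fun x => ind (r ≤ |av e g.1 (fun d => R e g x d *
          ∏ w ∈ univ.erase i, V0 w x d)|)) (vs ω)) ω := by
        refine ce_mono_fib _ ω fun ω' hω' => le_of_eq ?_
        have h4 : (fun d => R e g (vs ω') d * ∏ w ∈ univ.erase i, v w g ω' d) =
            fun d => R e g (vs ω') d * ∏ w ∈ univ.erase i, V0 w (vs ω') d := by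
          funext d
          congr 1
          refine Finset.prod_congr rfl fun w hw => ?_
          rw [hV3 w (Finset.ne_of_mem_erase hw) ω' hω']
        simp only [h4]
      refine h3.trans ?_
      exact core_Z i (PT_rare hPT he hg hV1 hV2) (PT_dep hR e g r hV1) ω)
  refine le_trans (FP.ce_mono _ (fun ω' _ => ind_mono fun hq => ?_) ω) h1
  exact round_prod (Yn s e ω').1 hr (fun d => hRH _ _ _ _) (fun w d => hvH w _ _ _) hq

/-- RARITY in the view `i`, the vertex `j ≠ i` of the tested face known exactly: the factor `w ≠ j` may depend on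
everything but the vertex `w` and the low noise -/
theorem rar_known {i j : ι} (hij : j ≠ i) {h e : ℕ} (he : e ≤ N) (hN : N ≤ k) {R : Fam k ι P} {θ r H : ℝ}
    (hθ : 0 ≤ θ) (hR : FOn ({j}ᶜ : Set ι) R) (hPT : PT j h N R θ r H) (hr : 2 * H ^ Fintype.card ι * ((2 : ℝ) ^ h)⁻¹ ≤ r)
    (hRH : FLe H R) {v : ι → V k × ℕ → Sq k N ι Θ P → V k → ℝ}
    (hv : ∀ w, w ≠ j → ∀ g, Fac (fun ω => (th ω, ot w ω, Zn i e ω)) (v w g))
    (hvH : ∀ w g ω d, |v w g ω d| ≤ H) (ω : Sq k N ι Θ P) :
    Pm.ce (Yk i {i, j} e (e - (h + 3))) (fun ω => ind (2 * r ≤ |av e (Yn s e ω).1 (fun d => R e (Gm s h e ω) (vs ω) d *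
      ∏ w ∈ univ.erase j, v w (Gm s h e ω) ω d)|)) ω ≤ Fintype.card ι * (9 / 8 * θ) := by
  have hH : 0 ≤ H := (abs_nonneg _).trans (hRH 0 (0, 0) (vs ω) 0)
  have h1 := ce_opts (Θ := Θ) (P := P) (N := N) s i (h := h) (e := e) (he.trans hN)
    (X := Yk i {i, j} e (e - (h + 3))) (θ := 9 / 8 * θ) (G := fun g ω => ind (r ≤ |av e g.1 (fun d => R e g (vs ω) d *
      ∏ w ∈ univ.erase j, v w g ω d)|)) (by
      intro a b hab
      unfold Yk ku cl at hab
      simp only [Prod.mk.injEq] at hab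
      obtain ⟨h1, h2, h3, h4⟩ := hab
      unfold Qn
      refine Prod.ext h1 (Prod.ext h2 ?_)
      funext l
      by_cases hlj : l.1 = j
      · have h5 : vx j a = vx j b := congrFun h3 ⟨j, Finset.mem_erase.mpr ⟨hij, by simp⟩⟩
        change sc h e l.1 a = sc h e l.1 b
        unfold sc
        rw [hlj, h5]
      · exact congrFun h4 ⟨l.1, by simp [l.2, hlj]⟩) (fun _ _ => ind_nonneg _) (by positivity) ω (by
      intro g hg
      have h2 : ∀ w : ι, ∃ V0 : (ι → P × V k) → V k → ℝ, (w ≠ j → DependsOn V0 ({j, w}ᶜ : Set ι)) ∧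
          (∀ x d, |V0 x d| ≤ H) ∧ (w ≠ j → ∀ ω', Yk i {i, j} e (e - (h + 3)) ω' = Yk i {i, j} e (e - (h + 3)) ω →
            v w g ω' = V0 (vs ω')) := by
        intro w
        by_cases hw : w = j
        · exact ⟨fun _ _ => 0, fun h => absurd hw h, fun _ _ => by simpa using hH, fun h => absurd hw h⟩
        obtain ⟨V0, h3, h4, h5⟩ := exists_face (X := Yk (Θ := Θ) (P := P) (k := k) (N := N) i {i, j} e (e - (h + 3)))
          (S := ({j, w}ᶜ : Set ι)) (f := v w g) hH (hvH w g) ω (by
            intro a b ha hb hl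
            refine hv w hw g a b ?_
            rw [← hb] at ha
            unfold Yk ku cl at ha
            simp only [Prod.mk.injEq] at ha
            obtain ⟨h1, h2, h3, h4⟩ := ha
            refine Prod.ext h1 (Prod.ext ?_ h2)
            funext l
            by_cases hlj : l.1 = j
            · change vx l.1 a = vx l.1 b
              rw [hlj]
              exact congrFun h3 ⟨j, Finset.mem_erase.mpr ⟨hij, by simp⟩⟩
            · exact hl l.1 fun hmem => by
                rcases hmem with h6 | h6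
                · exact hlj h6
                · exact l.2 h6)
        exact ⟨V0, fun _ => h3, h4, fun _ => h5⟩
      choose V0 hV1 hV2 hV3 using h2
      have h3 : Pm.ce (Yk i {i, j} e (e - (h + 3))) (fun ω => ind (r ≤ |av e g.1 (fun d => R e g (vs ω) d *
          ∏ w ∈ univ.erase j, v w g ω d)|)) ω ≤
          Pm.ce (Yk i {i, j} e (e - (h + 3))) (fun ω => (fun x => ind (r ≤ |av e g.1 (fun d => R e g x d *
          ∏ w ∈ univ.erase j, V0 w x d)|)) (vs ω)) ω := by
        refine ce_mono_fib _ ω fun ω' hω' => le_of_eq ?_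
        have h4 : (fun d => R e g (vs ω') d * ∏ w ∈ univ.erase j, v w g ω' d) =
            fun d => R e g (vs ω') d * ∏ w ∈ univ.erase j, V0 w (vs ω') d := by
          funext d
          congr 1
          refine Finset.prod_congr rfl fun w hw => ?_
          rw [hV3 w (Finset.ne_of_mem_erase hw) ω' hω']
        simp only [h4]
      refine h3.trans ?_
      exact core_Y hij he hN (fun _ => ind_nonneg _) hθ (PT_rare hPT he hg hV1 hV2) (PT_dep hR e g r hV1) ω)
  refine le_trans (FP.ce_mono _ (fun ω' _ => ind_mono fun hq => ?_) ω) h1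
  exact round_prod (Yn s e ω').1 hr (fun d => hRH _ _ _ _) (fun w d => hvH w _ _ _) hq

/-! ## the process of the families -/

/-- coarser information -/
theorem ce_le_of_fine' {κ κ' : Type*} {X : Sq k N ι Θ P → κ} {Y : Sq k N ι Θ P → κ'} (hXY : Fac X Y)
    {f : Sq k N ι Θ P → ℝ} {c : ℝ} (h : ∀ ω, Pm.ce X f ω ≤ c) (ω : Sq k N ι Θ P) : Pm.ce Y f ω ≤ c := by
  rw [← FP.ce_tower _ hXY f]
  have h1 := (Pm (k := k) (N := N) (ι := ι) (Θ := Θ) (P := P)).ce_mono (X := Y) (f := Pm.ce X f) (g := fun _ => c)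
    (fun v _ => h v) ω
  rwa [FP.ce_const _ _ _ (Pm_ne ω)] at h1

theorem TT_eq (h : ℕ) (R : ι → Fam k ι P) (e : ℕ) (i : ι) (ω : Sq k N ι Θ P) :
    TT s h R e ω = av e (Yn s e ω).1 (fun d => R i e (Gm s h e ω) (vs ω) d *
      ∏ w ∈ univ.erase i, R w e (Gm s h e ω) (vs ω) d) := by
  unfold TT fv
  congr 1
  funext d
  exact (Finset.mul_prod_erase univ (fun w => R w e (Gm s h e ω) (vs ω) d) (mem_univ i)).symm

theorem fac_vs_ot (w : ι) {S : Set ι} {κ : Type*} {F : (ι → P × V k) → κ} (hF : DependsOn F S)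
    (hS : S ⊆ ({w}ᶜ : Set ι)) : Fac (ot (Θ := Θ) (P := P) (k := k) (N := N) w) (fun ω => F (vs ω)) := by
  intro a b hab
  exact hF fun l hl => congrFun hab ⟨l, fun h => hS hl h⟩

/-- the vertex opposite to the tested face is known, and all the noise -/
theorem TT_hidden (i : ι) {h e : ℕ} (he : e ≤ N) (hN : N ≤ k) {R : ι → Fam k ι P} {θ r H : ℝ} (hθ : 0 ≤ θ)
    (hR : ∀ l, FOn ({l}ᶜ : Set ι) (R l)) (hRH : ∀ l, FLe H (R l)) (hPT : PT i h N (R i) θ r H)
    (hr : 2 * H ^ Fintype.card ι * ((2 : ℝ) ^ h)⁻¹ ≤ r) (ω : Sq k N ι Θ P) :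
    Pm.ce (Zk {i} (e - (h + 3))) (fun ω => ind (2 * r ≤ |TT s h R e ω|)) ω ≤ Fintype.card ι * θ := by
  have h1 := rar_hidden (Θ := Θ) (P := P) s i he hN hθ (hR i) hPT hr (hRH i)
    (v := fun w g ω => R w e g (vs ω))
    (fun w _ g a b hab => by
      simp only [Prod.mk.injEq] at hab
      exact fac_vs_ot (F := R w e g) w (hR w e g) subset_rfl a b hab.2.1)
    (fun w g ω d => hRH w _ _ _ _) ω
  refine le_trans (le_of_eq ?_) h1
  congr 1
  funext a
  rw [TT_eq s h R e i a]

/-- the vertex `j` opposite to the tested face is known, view of another vertex `i` -/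
theorem TT_known {i j : ι} (hij : j ≠ i) {h e : ℕ} (he : e ≤ N) (hN : N ≤ k) {R : ι → Fam k ι P} {θ r H : ℝ}
    (hθ : 0 ≤ θ) (hR : ∀ l, FOn ({l}ᶜ : Set ι) (R l)) (hRH : ∀ l, FLe H (R l)) (hPT : PT j h N (R j) θ r H)
    (hr : 2 * H ^ Fintype.card ι * ((2 : ℝ) ^ h)⁻¹ ≤ r) (ω : Sq k N ι Θ P) :
    Pm.ce (Yk i {i, j} e (e - (h + 3))) (fun ω => ind (2 * r ≤ |TT s h R e ω|)) ω ≤ Fintype.card ι * (9 / 8 * θ) := by
  have h1 := rar_known (Θ := Θ) (P := P) s hij he hN hθ (hR j) hPT hr (hRH j)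
    (v := fun w g ω => R w e g (vs ω))
    (fun w _ g a b hab => by
      simp only [Prod.mk.injEq] at hab
      exact fac_vs_ot (F := R w e g) w (hR w e g) subset_rfl a b hab.2.1)
    (fun w g ω d => hRH w _ _ _ _) ω
  refine le_trans (le_of_eq ?_) h1
  congr 1
  funext a
  rw [TT_eq s h R e j a]

/-- the same for every coarser set of known vertices -/
theorem TT_Yk {i j : ι} (hij : j ≠ i) {U : Finset ι} (hi : i ∈ U) (hU : U ⊆ {i, j}) {h e : ℕ} (he : e ≤ N)
    (hN : N ≤ k) {R : ι → Fam k ι P} {θ r H : ℝ}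
    (hθ : 0 ≤ θ) (hR : ∀ l, FOn ({l}ᶜ : Set ι) (R l)) (hRH : ∀ l, FLe H (R l)) (hPT : PT j h N (R j) θ r H)
    (hr : 2 * H ^ Fintype.card ι * ((2 : ℝ) ^ h)⁻¹ ≤ r) (ω : Sq k N ι Θ P) :
    Pm.ce (Yk i U e (e - (h + 3))) (fun ω => ind (2 * r ≤ |TT s h R e ω|)) ω ≤ Fintype.card ι * (9 / 8 * θ) := by
  refine ce_le_of_fine' (X := Yk i {i, j} e (e - (h + 3))) ?_
    (fun ω' => TT_known s hij he hN hθ hR hRH hPT hr ω') ω
  intro a b hab
  unfold Yk ku cl at hab ⊢
  simp only [Prod.mk.injEq] at hab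
  obtain ⟨h1, h2, h3, h4⟩ := hab
  refine Prod.ext h1 (Prod.ext h2 (Prod.ext ?_ ?_))
  · funext l
    have h5 := Finset.mem_erase.mp l.2
    exact congrFun h3 ⟨l.1, Finset.mem_erase.mpr ⟨h5.1, hU h5.2⟩⟩
  · funext l
    by_cases hlj : l.1 = j
    · have h5 : vx j a = vx j b := congrFun h3 ⟨j, Finset.mem_erase.mpr ⟨hij, by simp⟩⟩
      change flr _ (vx l.1 a).2 = flr _ (vx l.1 b).2
      rw [hlj, h5]
    · refine congrFun h4 ⟨l.1, ?_⟩
      have hli : l.1 ≠ i := fun h => l.2 (by rw [h]; exact hi)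
      simp [hli, hlj]

/-- given the public node of the view `i` -/
theorem TT_Qn {i j : ι} (hij : j ≠ i) {h e : ℕ} (he : e ≤ N)
    (hN : N ≤ k) {R : ι → Fam k ι P} {θ r H : ℝ}
    (hθ : 0 ≤ θ) (hR : ∀ l, FOn ({l}ᶜ : Set ι) (R l)) (hRH : ∀ l, FLe H (R l)) (hPT : PT j h N (R j) θ r H)
    (hr : 2 * H ^ Fintype.card ι * ((2 : ℝ) ^ h)⁻¹ ≤ r) (ω : Sq k N ι Θ P) :
    Pm.ce (Qn i h e) (fun ω => ind (2 * r ≤ |TT s h R e ω|)) ω ≤ Fintype.card ι * (9 / 8 * θ) := by
  refine ce_le_of_fine' (X := Yk i {i} e (e - (h + 3))) ?_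
    (fun ω' => TT_Yk s hij (Finset.mem_singleton_self i) (by simp) he hN hθ hR hRH hPT hr ω') ω
  intro a b hab
  unfold Yk ku cl at hab
  simp only [Prod.mk.injEq] at hab
  unfold Qn
  refine Prod.ext hab.1 (Prod.ext hab.2.1 ?_)
  funext l
  exact congrFun hab.2.2.2 ⟨l.1, by simpa using l.2⟩

/-- unconditional rarity -/
theorem TT_Pr (i : ι) {h e : ℕ} (he : e ≤ N) (hN : N ≤ k) {R : ι → Fam k ι P} {θ r H : ℝ}
    (hθ : 0 ≤ θ) (hR : ∀ l, FOn ({l}ᶜ : Set ι) (R l)) (hRH : ∀ l, FLe H (R l)) (hPT : PT i h N (R i) θ r H)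
    (hr : 2 * H ^ Fintype.card ι * ((2 : ℝ) ^ h)⁻¹ ≤ r) :
    Pm.Pr (fun ω : Sq k N ι Θ P => 2 * r ≤ |TT s h R e ω|) ≤ Fintype.card ι * θ := by
  unfold FP.Pr
  rw [← FP.E_ce _ (Zk {i} (e - (h + 3)))]
  exact FP.E_le_const _ (fun w _ => TT_hidden s i he hN hθ hR hRH hPT hr w)

end Pool.Agent.GM
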