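import Pool.Agent.GM.S1Mod
import Pool.Agent.GM.Rar

/-!
# GM/S1Lay (section 1, 1.3, every m): the layers, the telescoping identity, rarity of the pieces (helper65)

`LayE` = parameters: exponent `E` of the accuracy, `kap`, `c` (accuracy constant), `a` with `64 / c^2 <= 2^a`.
Layer `l`: rarity `lth l = exp (-(1+kap)^l)`, accuracy `lep l = c / (l+1)^E`, rounding `lh l = a + 2 E clog2 (l+1)`
(`64 / (lep l)^2 <= 2^(lh l)`, `lh l <= lh (l+1) <= lh l + 2 E`).
`ι = Fin m` (order of the faces).  `Rl l i`, `Sl l i` = residual and structured function of the face `i` at the rounding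
`lh l`; `Dl l i` = difference of two layers at the rounding `lh (l+1)`; `Pc l q : Fin m → Fam` the pieces of the layer:
faces `j < q` residual of the layer `l+1`, face `q` the difference, faces `j > q` residual of the layer `l`;
`Fc l q` : first terms: faces `j < q` residual, face `q` structured, faces `j > q` the functions themselves.

Constants: `L.rp m l = 9 * 2^(m-1) * lep l`, `L.tp m l = 2^(2 E (m-1) + 1) * lth l`.

* `Rl_on`, `Sl_on`, `Dl_on`, `Pc_on`, `Fc_on` (the face `i` misses the vertex `i`), `Rl_le` (2), `Sl_le` (1), `Dl_le` (2),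
  `Pc_le` (2), `Fc_le` (2);
* `Pc_PT` : all faces of all pieces are product tested: `PT i (lh (l+1)) N _ (tp m l) (rp m l) 2`; `Rl_PT2`;
* `piece_hidden`, `piece_known`, `piece_Yk`, `piece_Qn`, `piece_Pr` : rarity of the pieces, threshold `2 * rp m l`;
* `TRm s L F l e ω` = residual process; `tele_step`, `tele_sum'`, `first_step`, `telescope`;
* `TRm_small` : the residual process of the layer `l` is small at all exponents outside `(N+1) m lth l`.
-/

set_option autoImplicit false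
set_option linter.unusedSectionVars false

namespace Pool.Agent.GM

open Finset Pool.Agent.PWZ Pool.Agent.M3 Pool.Agent.M3.Bin
open Pool.Agent.M3.Mod (ex nd av dl pnd SC cel abs_av_le)

noncomputable section

/-- parameters of the layers -/
structure LayE where
  E : ℕ
  kap : ℝ
  c : ℝ
  a : ℕ
  E_pos : 0 < E
  kap_pos : 0 < kap
  c_pos : 0 < c
  c_le : c ≤ 1
  ha : 64 / c ^ 2 ≤ 2 ^ a

/-- parameters for given constants -/
def mkLayE (E : ℕ) (kap c : ℝ) (hE : 0 < E) (hk : 0 < kap) (hc : 0 < c) (hc1 : c ≤ 1) : LayE where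
  E := E
  kap := kap
  c := c
  a := Classical.choose (pow_unbounded_of_one_lt (64 / c ^ 2) (by norm_num : (1 : ℝ) < 2))
  E_pos := hE
  kap_pos := hk
  c_pos := hc
  c_le := hc1
  ha := (Classical.choose_spec (pow_unbounded_of_one_lt (64 / c ^ 2) (by norm_num : (1 : ℝ) < 2))).le

namespace LayE

variable (L : LayE)

/-- rarity of the layer -/
def lth (l : ℕ) : ℝ := Real.exp (-(1 + L.kap) ^ l)

/-- accuracy of the layer -/
def lep (l : ℕ) : ℝ := L.c / ((l : ℝ) + 1) ^ L.E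

/-- rounding of the layer -/
def lh (l : ℕ) : ℕ := L.a + 2 * L.E * Nat.clog 2 (l + 1)

theorem lth_pos (l : ℕ) : 0 < L.lth l := Real.exp_pos _

theorem lth_le_one (l : ℕ) : L.lth l ≤ 1 := by
  unfold lth
  rw [Real.exp_le_one_iff]
  have : 0 ≤ (1 + L.kap) ^ l := pow_nonneg (by linarith [L.kap_pos]) l
  linarith

theorem lth_succ_le (l : ℕ) : L.lth (l + 1) ≤ L.lth l := by
  unfold lth
  rw [Real.exp_le_exp]
  have h1 : (1 + L.kap) ^ l ≤ (1 + L.kap) ^ (l + 1) :=
    pow_le_pow_right₀ (by linarith [L.kap_pos]) (Nat.le_succ l)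
  linarith

theorem lep_pos (l : ℕ) : 0 < L.lep l := by
  unfold lep
  exact div_pos L.c_pos (by positivity)

theorem lep_le_one (l : ℕ) : L.lep l ≤ 1 := by
  unfold lep
  rw [div_le_one (by positivity)]
  have h1 : (1 : ℝ) ≤ ((l : ℝ) + 1) ^ L.E := one_le_pow₀ (by linarith [Nat.cast_nonneg (α := ℝ) l])
  linarith [L.c_le]

theorem lep_succ_le (l : ℕ) : L.lep (l + 1) ≤ L.lep l := by
  unfold lep
  apply div_le_div_of_nonneg_left L.c_pos.le (by positivity)
  apply pow_le_pow_left₀ (by positivity)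
  push_cast
  linarith

theorem clog_succ_le' (n : ℕ) (_hn : 1 ≤ n) : Nat.clog 2 (n + 1) ≤ Nat.clog 2 n + 1 := by
  apply Nat.clog_le_of_le_pow
  have h1 := Nat.le_pow_clog (by norm_num : 1 < 2) n
  rw [pow_succ]
  omega

theorem lh_mono (l : ℕ) : L.lh l ≤ L.lh (l + 1) := by
  unfold lh
  have h2 : Nat.clog 2 (l + 1) ≤ Nat.clog 2 (l + 1 + 1) := Nat.clog_mono_right 2 (Nat.le_succ (l + 1))
  have h3 := Nat.mul_le_mul_left (2 * L.E) h2
  omega

theorem lh_succ_le (l : ℕ) : L.lh (l + 1) ≤ L.lh l + 2 * L.E := by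
  unfold lh
  have h2 := clog_succ_le' (l + 1) (by omega)
  have h3 := Nat.mul_le_mul_left (2 * L.E) h2
  rw [Nat.mul_add, Nat.mul_one] at h3
  omega

/-- the rounding is fine enough -/
theorem rd (l : ℕ) : 64 * ((2 : ℝ) ^ L.lh l)⁻¹ ≤ L.lep l ^ 2 := by
  have h1 : ((l : ℝ) + 1) ^ (2 * L.E) ≤ (2 : ℝ) ^ (2 * L.E * Nat.clog 2 (l + 1)) := by
    have h2 := Nat.le_pow_clog (by norm_num : 1 < 2) (l + 1)
    have h3 : ((l : ℝ) + 1) ≤ (2 : ℝ) ^ Nat.clog 2 (l + 1) := by exact_mod_cast h2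
    calc ((l : ℝ) + 1) ^ (2 * L.E) ≤ ((2 : ℝ) ^ Nat.clog 2 (l + 1)) ^ (2 * L.E) :=
          pow_le_pow_left₀ (by positivity) h3 _
      _ = (2 : ℝ) ^ (2 * L.E * Nat.clog 2 (l + 1)) := by rw [← pow_mul, mul_comm]
  have h4 : 64 / L.c ^ 2 * ((l : ℝ) + 1) ^ (2 * L.E) ≤ (2 : ℝ) ^ L.lh l := by
    unfold lh
    rw [pow_add]
    exact mul_le_mul L.ha h1 (by positivity) (by positivity)
  unfold lep
  have hc := L.c_pos
  have hl : (0 : ℝ) < ((l : ℝ) + 1) ^ (2 * L.E) := by positivity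
  have h6 : (L.c / ((l : ℝ) + 1) ^ L.E) ^ 2 = L.c ^ 2 / ((l : ℝ) + 1) ^ (2 * L.E) := by
    rw [div_pow, ← pow_mul, mul_comm L.E 2]
  rw [h6, ← div_eq_mul_inv, div_le_div_iff₀ (by positivity) hl]
  have h5 : 64 * ((l : ℝ) + 1) ^ (2 * L.E) = L.c ^ 2 * (64 / L.c ^ 2 * ((l : ℝ) + 1) ^ (2 * L.E)) := by
    field_simp
  rw [h5]
  exact mul_le_mul_of_nonneg_left h4 (by positivity)

theorem rd1 (l : ℕ) : 64 * ((2 : ℝ) ^ L.lh l)⁻¹ ≤ L.lep l := by
  have h1 := L.rd l
  have h2 := L.lep_pos l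
  have h3 := L.lep_le_one l
  nlinarith

/-- the accuracy of the pieces -/
def rp (m l : ℕ) : ℝ := 9 * 2 ^ (m - 1) * L.lep l

/-- the rarity of the pieces -/
def tp (m l : ℕ) : ℝ := 2 ^ (2 * L.E * (m - 1) + 1) * L.lth l

theorem rp_pos (m l : ℕ) : 0 < L.rp m l := by
  unfold rp
  have := L.lep_pos l
  positivity

theorem tp_pos (m l : ℕ) : 0 < L.tp m l := by
  unfold tp
  have := L.lth_pos l
  positivity

open Filter Topology in
theorem lep_tendsto : Tendsto L.lep atTop (𝓝 0) := by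
  unfold lep
  have h1 : Tendsto (fun l : ℕ => ((l : ℝ) + 1) ^ L.E) atTop atTop := by
    refine Tendsto.comp (tendsto_pow_atTop L.E_pos.ne') ?_
    exact tendsto_atTop_add_const_right _ _ tendsto_natCast_atTop_atTop
  exact h1.const_div_atTop L.c

open Filter Topology in
theorem lth_tendsto : Tendsto L.lth atTop (𝓝 0) := by
  unfold lth
  refine Real.tendsto_exp_neg_atTop_nhds_zero.comp ?_
  exact tendsto_pow_atTop_atTop_of_one_lt (by linarith [L.kap_pos])

/-- a good last layer -/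
theorem exists_last (l0 N : ℕ) {A B a b : ℝ} (hA : 0 < A) (hB : 0 < B) (ha : 0 < a) (hb : 0 < b) :
    ∃ n, A * L.lep (l0 + n) ≤ a ∧ (N + 1) * (B * L.lth (l0 + n)) ≤ b := by
  have h1 : ∀ᶠ l in Filter.atTop, L.lep l < a / A := L.lep_tendsto.eventually_lt_const (by positivity)
  have h2 : ∀ᶠ l in Filter.atTop, L.lth l < b / (B * (N + 1)) := L.lth_tendsto.eventually_lt_const (by positivity)
  obtain ⟨m, hm⟩ := Filter.eventually_atTop.1 (h1.and h2)
  refine ⟨m, ?_, ?_⟩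
  · have := (hm (l0 + m) (by omega)).1
    rw [lt_div_iff₀ hA] at this
    linarith
  · have := (hm (l0 + m) (by omega)).2
    rw [lt_div_iff₀ (by positivity)] at this
    linarith

end LayE

variable {k N m : ℕ} {Θ P : Type} [Fintype Θ] [Nonempty Θ] [Fintype P] [Nonempty P]

/-! ### the families of the layers -/

section fam

variable [Nontrivial (Fin m)] (L : LayE) (N) (F : Fin m → (Fin m → P × V k) → V k → ℝ)

/-- residual of the layer `l`, face `i`, at the rounding `lh l` -/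
def Rl (l : ℕ) (i : Fin m) : Fam k (Fin m) P := Rf i (L.lh l) N (L.lep l) (L.lth l) (F i)

/-- structured function of the layer `l`, face `i`, at the rounding `lh l` -/
def Sl (l : ℕ) (i : Fin m) : Fam k (Fin m) P := Sf i (L.lh l) N (L.lep l) (L.lth l) (F i)

/-- difference of the residuals of the layers `l` and `l+1`, at the rounding `lh (l+1)` -/
def Dl (l : ℕ) (i : Fin m) : Fam k (Fin m) P := fun e g x d =>
  fine (L.lh l) (Rl N L F l i) e g x d - Rl N L F (l + 1) i e g x d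

/-- the pieces of the layer `l`, at the rounding `lh (l+1)` -/
def Pc (l : ℕ) (q : Fin m) : Fin m → Fam k (Fin m) P := fun j =>
  if j < q then Rl N L F (l + 1) j else if j = q then Dl N L F l j else fine (L.lh l) (Rl N L F l j)

/-- the first terms, at the rounding `lh l` -/
def Fc (l : ℕ) (q : Fin m) : Fin m → Fam k (Fin m) P := fun j =>
  if j < q then Rl N L F l j else if j = q then Sl N L F l j else fun _ _ => F j

variable {N F}

theorem Pc_lt {l : ℕ} {q j : Fin m} (h : j < q) : Pc N L F l q j = Rl N L F (l + 1) j := by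
  unfold Pc
  rw [if_pos h]

theorem Pc_eq (l : ℕ) (q : Fin m) : Pc N L F l q q = Dl N L F l q := by
  unfold Pc
  rw [if_neg (lt_irrefl q), if_pos rfl]

theorem Pc_gt {l : ℕ} {q j : Fin m} (h : q < j) : Pc N L F l q j = fine (L.lh l) (Rl N L F l j) := by
  unfold Pc
  rw [if_neg (not_lt.2 h.le), if_neg h.ne']

theorem Fc_lt {l : ℕ} {q j : Fin m} (h : j < q) : Fc N L F l q j = Rl N L F l j := by
  unfold Fc
  rw [if_pos h]

theorem Fc_eq (l : ℕ) (q : Fin m) : Fc N L F l q q = Sl N L F l q := by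
  unfold Fc
  rw [if_neg (lt_irrefl q), if_pos rfl]

theorem Fc_gt {l : ℕ} {q j : Fin m} (h : q < j) : Fc N L F l q j = fun _ _ => F j := by
  unfold Fc
  rw [if_neg (not_lt.2 h.le), if_neg h.ne']

theorem Rl_on (hF : Faces F) (l : ℕ) (i : Fin m) : FOn ({i}ᶜ : Set (Fin m)) (Rl N L F l i) := Rf_on (hF.1 i)

theorem Sl_on (l : ℕ) (i : Fin m) : FOn ({i}ᶜ : Set (Fin m)) (Sl N L F l i) := Sf_on _ _ _ _ _ _

theorem Dl_on (hF : Faces F) (l : ℕ) (i : Fin m) : FOn ({i}ᶜ : Set (Fin m)) (Dl N L F l i) := by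
  intro e g x y hxy
  funext d
  show fine (L.lh l) (Rl N L F l i) e g x d - Rl N L F (l + 1) i e g x d =
    fine (L.lh l) (Rl N L F l i) e g y d - Rl N L F (l + 1) i e g y d
  rw [fine_on (Rl_on L hF l i) (L.lh l) e g hxy, Rl_on L hF (l + 1) i e g hxy]

theorem Pc_on (hF : Faces F) (l : ℕ) (q j : Fin m) : FOn ({j}ᶜ : Set (Fin m)) (Pc N L F l q j) := by
  rcases lt_trichotomy j q with h | h | h
  · rw [Pc_lt L h]
    exact Rl_on L hF (l + 1) j
  · rw [h, Pc_eq]
    exact Dl_on L hF l q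
  · rw [Pc_gt L h]
    exact fine_on (Rl_on L hF l j) _

theorem Fc_on (hF : Faces F) (l : ℕ) (q j : Fin m) : FOn ({j}ᶜ : Set (Fin m)) (Fc N L F l q j) := by
  rcases lt_trichotomy j q with h | h | h
  · rw [Fc_lt L h]
    exact Rl_on L hF l j
  · rw [h, Fc_eq]
    exact Sl_on L l q
  · rw [Fc_gt L h]
    exact fun _ _ => hF.1 j

theorem Rl_le (hF : Faces F) (l : ℕ) (i : Fin m) : FLe 2 (Rl N L F l i) := Rf_le (hF.2 i)

theorem Sl_le (l : ℕ) (i : Fin m) : FLe 1 (Sl N L F l i) := Sf_le _ _ _ _ _ _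

/-- a difference of two layers is a difference of structured functions -/
theorem Dl_eq (l : ℕ) (i : Fin m) (e : ℕ) (g : V k × ℕ) (x : Fin m → P × V k) (d : V k) :
    Dl N L F l i e g x d = Sl N L F (l + 1) i e g x d - fine (L.lh l) (Sl N L F l i) e g x d := by
  unfold Dl Rl Sl fine
  rw [Rf_eq, Rf_eq]
  ring

theorem Dl_le (l : ℕ) (i : Fin m) : FLe 2 (Dl N L F l i) := by
  intro e g x d
  rw [Dl_eq]
  have h1 := Sl_le L (F := F) (N := N) (l + 1) i e g x d
  have h2 : |fine (L.lh l) (Sl N L F l i) e g x d| ≤ 1 := fine_le (Sl_le L (F := F) (N := N) l i) _ e g x d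
  have h3 := abs_sub (Sl N L F (l + 1) i e g x d) (fine (L.lh l) (Sl N L F l i) e g x d)
  linarith

theorem Pc_le (hF : Faces F) (l : ℕ) (q j : Fin m) : FLe 2 (Pc N L F l q j) := by
  rcases lt_trichotomy j q with h | h | h
  · rw [Pc_lt L h]
    exact Rl_le L hF (l + 1) j
  · rw [h, Pc_eq]
    exact Dl_le L l q
  · rw [Pc_gt L h]
    exact fine_le (Rl_le L hF l j) _

theorem Fc_le (hF : Faces F) (l : ℕ) (q j : Fin m) : FLe 2 (Fc N L F l q j) := by
  rcases lt_trichotomy j q with h | h | h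
  · rw [Fc_lt L h]
    exact Rl_le L hF l j
  · rw [h, Fc_eq]
    exact fun e g x d => (Sl_le L l q e g x d).trans (by norm_num)
  · rw [Fc_gt L h]
    exact fun e g x d => (hF.2 j x d).trans (by norm_num)

theorem Rl_PT (hF : Faces F) (l : ℕ) (i : Fin m) :
    PT i (L.lh l) N (Rl N L F l i) (L.lth l) (4 * L.lep l) 1 :=
  Rf_PT (hF.1 i) (hF.2 i) (L.lep_pos l) (L.lth_pos l)

theorem pow_D_le (l : ℕ) {D : ℕ} (hD : D ≤ 2 * L.E) :
    L.lth l * ((2 : ℝ) ^ (Fintype.card (Fin m) - 1)) ^ D + L.lth (l + 1) ≤ L.tp m l := by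
  have h1 : ((2 : ℝ) ^ (Fintype.card (Fin m) - 1)) ^ D ≤ 2 ^ (2 * L.E * (m - 1)) := by
    rw [Fintype.card_fin, ← pow_mul, mul_comm (2 * L.E)]
    exact pow_le_pow_right₀ (by norm_num) (Nat.mul_le_mul_left _ hD)
  have h2 := L.lth_pos l
  have h3 := L.lth_succ_le l
  have h4 : (1 : ℝ) ≤ 2 ^ (2 * L.E * (m - 1)) := one_le_pow₀ (by norm_num)
  unfold LayE.tp
  rw [pow_succ]
  nlinarith

theorem fineR_PT (hN : N ≤ k) (hF : Faces F) (l : ℕ) (i : Fin m) :
    PT i (L.lh (l + 1)) N (fine (L.lh l) (Rl N L F l i)) (L.tp m l) (5 * L.lep l) 1 := by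
  obtain ⟨D, hD⟩ := Nat.exists_eq_add_of_le (L.lh_mono l)
  have hD8 : D ≤ 2 * L.E := by
    have := L.lh_succ_le l
    omega
  have h1 := Rf_PT_fine (N := N) (P := P) hN (hF.1 i) (hF.2 i) (L.lep_pos l) (L.lth_pos l)
    (by linarith [L.rd1 l, inv_nonneg.2 (pow_nonneg (by norm_num : (0 : ℝ) ≤ 2) (L.lh l))]) hD
  refine h1.mono ?_ le_rfl le_rfl
  have h2 := pow_D_le (m := m) L l hD8
  linarith [L.lth_pos (l + 1)]

theorem Dl_PT (hN : N ≤ k) (hF : Faces F) (l : ℕ) (i : Fin m) :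
    PT i (L.lh (l + 1)) N (Dl N L F l i) (L.tp m l) (9 * L.lep l) 1 := by
  obtain ⟨D, hD⟩ := Nat.exists_eq_add_of_le (L.lh_mono l)
  have hD8 : D ≤ 2 * L.E := by
    have := L.lh_succ_le l
    omega
  have h1 := Df_PT (N := N) (P := P) hN (hF.1 i) (hF.2 i) (L.lep_pos l) (L.lth_pos l)
    (by linarith [L.rd1 l, inv_nonneg.2 (pow_nonneg (by norm_num : (0 : ℝ) ≤ 2) (L.lh l))]) hD
    (L.lep_pos (l + 1)) (L.lth_pos (l + 1)) (L.lep_succ_le l)
  exact PT.mono h1 (pow_D_le (m := m) L l hD8) le_rfl le_rfl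

/-- from tests bounded by one to tests bounded by two -/
theorem PT_two {i : Fin m} {h : ℕ} {R : Fam k (Fin m) P} {θ r : ℝ} (hR : PT i h N R θ r 1) {l : ℕ}
    (hr : r ≤ 9 * L.lep l) : PT i h N R θ (L.rp m l) 2 := by
  refine PT.mono (PT.scale hR (by norm_num : (0 : ℝ) < 2)) le_rfl ?_ le_rfl
  unfold LayE.rp
  rw [Fintype.card_fin]
  calc r * 2 ^ (m - 1) ≤ 9 * L.lep l * 2 ^ (m - 1) := mul_le_mul_of_nonneg_right hr (by positivity)
    _ = 9 * 2 ^ (m - 1) * L.lep l := by ring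

theorem Rl_PT2 (hF : Faces F) (l : ℕ) (i : Fin m) :
    PT i (L.lh l) N (Rl N L F l i) (L.lth l) (L.rp m l) 2 :=
  PT_two L (Rl_PT L hF l i) (by linarith [L.lep_pos l])

/-- all faces of all pieces are product tested, tests bounded by `2` -/
theorem Pc_PT (hN : N ≤ k) (hF : Faces F) (l : ℕ) (q i : Fin m) :
    PT i (L.lh (l + 1)) N (Pc N L F l q i) (L.tp m l) (L.rp m l) 2 := by
  have hth := L.lth_pos l
  have hep := L.lep_pos l
  rcases lt_trichotomy i q with h | h | h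
  · rw [Pc_lt L h]
    refine PT_two L (PT.mono (Rl_PT L hF (l + 1) i) ?_ le_rfl le_rfl) ?_
    · have h1 := pow_D_le (m := m) L l (Nat.zero_le (2 * L.E))
      have h2 : 0 < L.lth l * ((2 : ℝ) ^ (Fintype.card (Fin m) - 1)) ^ 0 := by positivity
      linarith
    · have := L.lep_succ_le l
      linarith
  · rw [h, Pc_eq]
    exact PT_two L (Dl_PT L hN hF l q) le_rfl
  · rw [Pc_gt L h]
    exact PT_two L (fineR_PT L hN hF l i) (by linarith)

end fam

/-! ### rarity of the pieces -/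

section pieces

variable [Nontrivial (Fin m)] (s : V k) (L : LayE) {F : Fin m → (Fin m → P × V k) → V k → ℝ}

theorem rdH0 (l : ℕ) : 2 * (2 : ℝ) ^ Fintype.card (Fin m) * ((2 : ℝ) ^ L.lh l)⁻¹ ≤ L.rp m l := by
  have hm : 0 < m := Fin.pos (Classical.arbitrary (Fin m))
  have h1 := L.rd1 l
  have h3 : 0 < ((2 : ℝ) ^ L.lh l)⁻¹ := by positivity
  have h4 := L.lep_pos l
  rw [Fintype.card_fin]
  unfold LayE.rp
  have h5 : (2 : ℝ) ^ m = 2 * 2 ^ (m - 1) := by
    rw [← pow_succ']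
    congr 1
    omega
  rw [h5]
  have h6 : (0 : ℝ) < 2 ^ (m - 1) := by positivity
  have h7 : 4 * ((2 : ℝ) ^ L.lh l)⁻¹ ≤ 9 * L.lep l := by linarith
  calc 2 * (2 * 2 ^ (m - 1)) * ((2 : ℝ) ^ L.lh l)⁻¹ = 2 ^ (m - 1) * (4 * ((2 : ℝ) ^ L.lh l)⁻¹) := by ring
    _ ≤ 2 ^ (m - 1) * (9 * L.lep l) := mul_le_mul_of_nonneg_left h7 h6.le
    _ = 9 * 2 ^ (m - 1) * L.lep l := by ring

theorem rdH (l : ℕ) : 2 * (2 : ℝ) ^ Fintype.card (Fin m) * ((2 : ℝ) ^ L.lh (l + 1))⁻¹ ≤ L.rp m l := by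
  refine (rdH0 (m := m) L (l + 1)).trans ?_
  unfold LayE.rp
  exact mul_le_mul_of_nonneg_left (L.lep_succ_le l) (by positivity)

/-- RARITY OF THE PIECES, a vertex and all the noise known -/
theorem piece_hidden (i : Fin m) {e : ℕ} (he : e ≤ N) (hN : N ≤ k) (hF : Faces F) (l : ℕ)
    (q : Fin m) (ω : Sq k N (Fin m) Θ P) :
    Pm.ce (Zk {i} (e - (L.lh (l + 1) + 3)))
      (fun ω => ind (2 * L.rp m l ≤ |TT s (L.lh (l + 1)) (Pc N L F l q) e ω|)) ω ≤ m * L.tp m l := by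
  have h1 := TT_hidden (Θ := Θ) s i he hN (L.tp_pos m l).le (Pc_on L hF l q) (Pc_le L hF l q)
    (Pc_PT L hN hF l q i) (rdH L l) ω
  rw [Fintype.card_fin] at h1
  exact h1

/-- RARITY OF THE PIECES, the vertex `j` known in the view of `i` -/
theorem piece_known {i j : Fin m} (hij : j ≠ i) {e : ℕ} (he : e ≤ N) (hN : N ≤ k) (hF : Faces F) (l : ℕ)
    (q : Fin m) (ω : Sq k N (Fin m) Θ P) :
    Pm.ce (Yk i {i, j} e (e - (L.lh (l + 1) + 3)))
      (fun ω => ind (2 * L.rp m l ≤ |TT s (L.lh (l + 1)) (Pc N L F l q) e ω|)) ω ≤ m * (9 / 8 * L.tp m l) := by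
  have h1 := TT_known (Θ := Θ) s hij he hN (L.tp_pos m l).le (Pc_on L hF l q) (Pc_le L hF l q)
    (Pc_PT L hN hF l q j) (rdH L l) ω
  rw [Fintype.card_fin] at h1
  exact h1

/-- the same for every coarser set of known vertices -/
theorem piece_Yk {i j : Fin m} (hij : j ≠ i) {U : Finset (Fin m)} (hi : i ∈ U) (hU : U ⊆ {i, j}) {e : ℕ}
    (he : e ≤ N) (hN : N ≤ k) (hF : Faces F) (l : ℕ) (q : Fin m) (ω : Sq k N (Fin m) Θ P) :
    Pm.ce (Yk i U e (e - (L.lh (l + 1) + 3)))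
      (fun ω => ind (2 * L.rp m l ≤ |TT s (L.lh (l + 1)) (Pc N L F l q) e ω|)) ω ≤ m * (9 / 8 * L.tp m l) := by
  have h1 := TT_Yk (Θ := Θ) s hij hi hU he hN (L.tp_pos m l).le (Pc_on L hF l q) (Pc_le L hF l q)
    (Pc_PT L hN hF l q j) (rdH L l) ω
  rw [Fintype.card_fin] at h1
  exact h1

/-- RARITY OF THE PIECES at the public node -/
theorem piece_Qn {i j : Fin m} (hij : j ≠ i) {e : ℕ} (he : e ≤ N) (hN : N ≤ k) (hF : Faces F) (l : ℕ)
    (q : Fin m) (ω : Sq k N (Fin m) Θ P) :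
    Pm.ce (Qn i (L.lh (l + 1)) e)
      (fun ω => ind (2 * L.rp m l ≤ |TT s (L.lh (l + 1)) (Pc N L F l q) e ω|)) ω ≤ m * (9 / 8 * L.tp m l) := by
  have h1 := TT_Qn (Θ := Θ) s hij he hN (L.tp_pos m l).le (Pc_on L hF l q) (Pc_le L hF l q)
    (Pc_PT L hN hF l q j) (rdH L l) ω
  rw [Fintype.card_fin] at h1
  exact h1

/-- unconditional rarity of the pieces -/
theorem piece_Pr (i : Fin m) {e : ℕ} (he : e ≤ N) (hN : N ≤ k) (hF : Faces F) (l : ℕ) (q : Fin m) :
    Pm.Pr (fun ω : Sq k N (Fin m) Θ P => 2 * L.rp m l ≤ |TT s (L.lh (l + 1)) (Pc N L F l q) e ω|) ≤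
      m * L.tp m l := by
  have h1 := TT_Pr (Θ := Θ) s i he hN (L.tp_pos m l).le (Pc_on L hF l q) (Pc_le L hF l q)
    (Pc_PT L hN hF l q i) (rdH L l)
  rw [Fintype.card_fin] at h1
  exact h1

/-! ### the telescoping identity -/

theorem fine_v (l : ℕ) (R : Fam k (Fin m) P) (e : ℕ) (ω : Sq k N (Fin m) Θ P) :
    fv s (L.lh (l + 1)) (fine (L.lh l) R) e ω = fv s (L.lh l) R e ω := by
  unfold fv fine Gm
  rw [coar_G (L.lh_mono l)]

theorem Dl_v (l : ℕ) (i : Fin m) (e : ℕ) (ω : Sq k N (Fin m) Θ P) (d : V k) :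
    fv s (L.lh (l + 1)) (Dl N L F l i) e ω d =
      fv s (L.lh l) (Rl N L F l i) e ω d - fv s (L.lh (l + 1)) (Rl N L F (l + 1) i) e ω d := by
  have h1 : fv s (L.lh (l + 1)) (Dl N L F l i) e ω d =
      fv s (L.lh (l + 1)) (fine (L.lh l) (Rl N L F l i)) e ω d -
      fv s (L.lh (l + 1)) (Rl N L F (l + 1) i) e ω d := rfl
  rw [h1, fine_v]

/-- the residual process of the layer `l` -/
def TRm (L : LayE) (F : Fin m → (Fin m → P × V k) → V k → ℝ) (l e : ℕ) (ω : Sq k N (Fin m) Θ P) : ℝ :=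
  TT s (L.lh l) (Rl N L F l) e ω

/-- ordered telescoping of a product -/
theorem tele_prod (a b : Fin m → ℝ) :
    ∏ j, a j = (∑ q : Fin m, ∏ j, if j < q then b j else if j = q then a j - b j else a j) + ∏ j, b j := by
  have h1 := Finset.prod_add_ordered (univ : Finset (Fin m)) a (fun j => b j - a j)
  have h2 : ∏ j, b j = ∏ j, (a j + (b j - a j)) := Finset.prod_congr rfl fun j _ => by ring
  rw [h2, h1]
  have h3 : ∀ q : Fin m, (b q - a q) * (∏ j ∈ univ with j < q, (a j + (b j - a j))) * ∏ j ∈ univ with q < j, a j =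
      -∏ j, if j < q then b j else if j = q then a j - b j else a j := by
    intro q
    have h4 : (univ : Finset (Fin m)) = insert q ((univ.filter fun j => j < q) ∪ (univ.filter fun j => q < j)) := by
      ext j
      simp only [mem_univ, mem_insert, mem_union, mem_filter, true_and, true_iff]
      rcases lt_trichotomy j q with h | h | h
      · exact Or.inr (Or.inl h)
      · exact Or.inl h
      · exact Or.inr (Or.inr h)
    have h5 : ∏ j, (if j < q then b j else if j = q then a j - b j else a j) =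
        (a q - b q) * ((∏ j ∈ univ with j < q, (a j + (b j - a j))) * ∏ j ∈ univ with q < j, a j) := by
      conv_lhs => rw [h4]
      rw [Finset.prod_insert (by simp), Finset.prod_union (by
        rw [Finset.disjoint_left]
        intro j hj hj'
        rw [mem_filter] at hj hj'
        exact absurd hj.2 (not_lt.2 hj'.2.le))]
      rw [if_neg (lt_irrefl q), if_pos rfl]
      congr 1
      congr 1
      · refine Finset.prod_congr rfl fun j hj => ?_
        rw [if_pos (mem_filter.1 hj).2]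
        ring
      · refine Finset.prod_congr rfl fun j hj => ?_
        have h6 := (mem_filter.1 hj).2
        rw [if_neg (not_lt.2 h6.le), if_neg h6.ne']
    rw [h5]
    ring
  rw [Finset.sum_congr rfl fun q _ => h3 q, Finset.sum_neg_distrib]
  ring

theorem av_sum' {α : Type*} (t : Finset α) (e : ℕ) (y : V k) (f : α → V k → ℝ) :
    av e y (fun d => ∑ q ∈ t, f q d) = ∑ q ∈ t, av e y (f q) := by
  unfold av
  rw [Finset.sum_comm, Finset.mul_sum]

/-- one step of the telescoping: the residual process of the layer `l` is that of the layer `l+1` plus the pieces -/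
theorem tele_step (l e : ℕ) (ω : Sq k N (Fin m) Θ P) :
    TRm s L F l e ω = (∑ q : Fin m, TT s (L.lh (l + 1)) (Pc N L F l q) e ω) + TRm s L F (l + 1) e ω := by
  unfold TRm TT
  rw [← av_sum', ← Pool.Agent.M3.Mod.av_add]
  congr 1
  funext d
  rw [tele_prod (fun j => fv s (L.lh l) (Rl N L F l j) e ω d)
    (fun j => fv s (L.lh (l + 1)) (Rl N L F (l + 1) j) e ω d)]
  congr 1
  refine Finset.sum_congr rfl fun q _ => Finset.prod_congr rfl fun j _ => ?_
  rcases lt_trichotomy j q with h | h | h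
  · rw [if_pos h, Pc_lt L h]
  · rw [h, if_neg (lt_irrefl q), if_pos rfl, Pc_eq, Dl_v]
  · rw [if_neg (not_lt.2 h.le), if_neg h.ne', Pc_gt L h, fine_v]

theorem tele_sum' (l0 n e : ℕ) (ω : Sq k N (Fin m) Θ P) :
    TRm s L F l0 e ω = (∑ l ∈ range n, ∑ q : Fin m, TT s (L.lh (l0 + l + 1)) (Pc N L F (l0 + l) q) e ω) +
      TRm s L F (l0 + n) e ω := by
  induction n with
  | zero => simp
  | succ n ih =>
    rw [ih, Finset.sum_range_succ, tele_step s L (l0 + n) e ω]
    have : l0 + (n + 1) = l0 + n + 1 := by omega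
    rw [this]
    ring

/-- the first terms: the process is the residual process of the layer `l` plus the first terms -/
theorem first_step (l e : ℕ) (ω : Sq k N (Fin m) Θ P) :
    XX s F e ω = (∑ q : Fin m, TT s (L.lh l) (Fc N L F l q) e ω) + TRm s L F l e ω := by
  unfold TRm TT XX
  rw [← av_sum', ← Pool.Agent.M3.Mod.av_add]
  congr 1
  funext d
  rw [tele_prod (fun j => F j (vs ω) d) (fun j => fv s (L.lh l) (Rl N L F l j) e ω d)]
  congr 1
  refine Finset.sum_congr rfl fun q _ => Finset.prod_congr rfl fun j _ => ?_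
  rcases lt_trichotomy j q with h | h | h
  · rw [if_pos h, Fc_lt L h]
  · rw [h, if_neg (lt_irrefl q), if_pos rfl, Fc_eq]
    show F q (vs ω) d - Rl N L F l q e (Gm s (L.lh l) e ω) (vs ω) d = Sl N L F l q e (Gm s (L.lh l) e ω) (vs ω) d
    unfold Rl Sl
    rw [Rf_eq]
    ring
  · rw [if_neg (not_lt.2 h.le), if_neg h.ne', Fc_gt L h]
    rfl

/-- THE TELESCOPING IDENTITY from the layer `l0` to the layer `l0 + n` -/
theorem telescope (l0 n e : ℕ) (ω : Sq k N (Fin m) Θ P) :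
    XX s F e ω = (∑ q : Fin m, TT s (L.lh l0) (Fc N L F l0 q) e ω) +
      (∑ l ∈ range n, ∑ q : Fin m, TT s (L.lh (l0 + l + 1)) (Pc N L F (l0 + l) q) e ω) +
      TRm s L F (l0 + n) e ω := by
  rw [first_step s L l0 e ω, tele_sum' s L l0 n e ω]
  ring

/-! ### the last layer -/

theorem TRm_small (hN : N ≤ k) (hF : Faces F) (l : ℕ) :
    (Pm : FP (Sq k N (Fin m) Θ P)).Pr (fun ω => ∃ e ≤ N, 2 * L.rp m l ≤ |TRm s L F l e ω|) ≤
      (N + 1) * (m * L.lth l) := by
  have i0 : Fin m := Classical.arbitrary (Fin m)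
  have h1 : ∀ e ≤ N, (Pm : FP (Sq k N (Fin m) Θ P)).Pr (fun ω => 2 * L.rp m l ≤ |TRm s L F l e ω|) ≤
      m * L.lth l := by
    intro e he
    have h2 := TT_Pr (Θ := Θ) s i0 he hN (L.lth_pos l).le (Rl_on L hF l) (Rl_le L hF l) (Rl_PT2 L hF l i0)
      (rdH0 L l)
    rw [Fintype.card_fin] at h2
    exact h2
  have h4 : (Pm : FP (Sq k N (Fin m) Θ P)).Pr (fun ω => ∃ e ≤ N, 2 * L.rp m l ≤ |TRm s L F l e ω|) ≤
      (Pm : FP (Sq k N (Fin m) Θ P)).Pr (fun ω => ∃ e ∈ range (N + 1), 2 * L.rp m l ≤ |TRm s L F l e ω|) := by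
    refine FP.Pr_mono _ fun ω _ hω => ?_
    obtain ⟨e, he, h5⟩ := hω
    exact ⟨e, Finset.mem_range.2 (by omega), h5⟩
  refine h4.trans ((FP.Pr_ex_le _ _ _).trans ?_)
  calc ∑ e ∈ range (N + 1), (Pm : FP (Sq k N (Fin m) Θ P)).Pr (fun ω => 2 * L.rp m l ≤ |TRm s L F l e ω|)
      ≤ ∑ _e ∈ range (N + 1), m * L.lth l := by
        refine Finset.sum_le_sum fun e he => h1 e ?_
        rw [Finset.mem_range] at he
        omega
    _ = (N + 1) * (m * L.lth l) := by
        rw [Finset.sum_const, Finset.card_range, nsmul_eq_mul]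
        push_cast
        ring

end pieces

end

end Pool.Agent.GM
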