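import Pool.Agent.GM.Frz
import Pool.Agent.GM.S1Lay

/-!
# GM/Tele: the pieces with the known face replaced by an arbitrary family, telescoping over the layers (helper42)

Port of M3/Tele to every `m`.  The piece `Pc N L F l q` of the layer `l`, its face `q` (the structured one) replaced by an
arbitrary family `G`: the other faces are residuals of the layers `l` and `l+1`; telescoping over the layers `n >= l`.

* `TT_upd`, `TT_upd_frz`, `TT_upd_cut`: a process with one face replaced, by a frozen version, by a cut family;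
* `tT N L F q G h0 n q'` : the term (step `n`, structured face `q' <> q`), the face `q` carries `fine h0 G`,
  rounding `lh (n+1)`; `tL N L F q G h0 M` : the last term, rounding `lh M`;
* `tT_q`, `tT_ne`, `tT_on`, `tT_le`, `tT_PT`, `tL_on`, `tL_le`, `tL_PT`; `term_hidden`, `term_known`, `term_Yk`, `term_Qn`,
  `term_Pr`, `last_Pr` : rarity of the terms;
* `tele_one`, `tele_piece` : the identities;  `piece_union` : a large piece has a large term or a large last term.
-/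

set_option autoImplicit false
set_option linter.unusedSectionVars false

namespace Pool.Agent.GM

open Finset Pool.Agent.PWZ Pool.Agent.M3 Pool.Agent.M3.Bin
open Pool.Agent.M3.Mod (ex nd av abs_av_le)

noncomputable section

/-! ### one face of a process replaced -/

section upd

variable {k N : ℕ} {ι Θ P : Type} [Fintype ι] [DecidableEq ι] (s : V k)

/-- a process with one face replaced -/
theorem TT_upd (h : ℕ) (R : ι → Fam k ι P) (q : ι) (G : Fam k ι P) (e : ℕ) (ω : Sq k N ι Θ P) :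
    TT s h (Function.update R q G) e ω =
      av e (Yn s e ω).1 (fun d => fv s h G e ω d * ∏ j ∈ univ.erase q, fv s h (R j) e ω d) := by
  unfold TT
  congr 1
  funext d
  rw [← Finset.mul_prod_erase univ _ (mem_univ q), Function.update_self]
  congr 1
  exact Finset.prod_congr rfl fun j hj => by rw [Function.update_of_ne (Finset.ne_of_mem_erase hj)]

/-- the face `q` carries the current version of `G` -/
theorem TT_upd_frz (h : ℕ) (R : ι → Fam k ι P) (q : ι) (G : Fam k ι P) {t : ℕ} (h1 : 1 ≤ t) (ht : t ≤ N)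
    (ω : Sq k N ι Θ P) :
    TT s h (Function.update R q (frz h N (cn s h G t ω) G)) (ex N t) ω = TT s h (Function.update R q G) (ex N t) ω := by
  rw [TT_upd, TT_upd, fv_frz s h G h1 ht ω]

/-- the face `q` carries a cut family -/
theorem TT_upd_cut (h p : ℕ) (R : ι → Fam k ι P) (q : ι) (G : Fam k ι P) {t : ℕ} (h1 : 1 ≤ t) (ht : t ≤ N)
    {ω : Sq k N ι Θ P} (hv : cn s h G t ω ≤ p) :
    TT s h (Function.update R q (cut h N p G)) (ex N t) ω = TT s h (Function.update R q G) (ex N t) ω := by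
  rw [TT_upd, TT_upd, fv_cut s h1 ht hv]

end upd

/-! ### ordered telescoping over a set of faces -/

section prods

variable {m : ℕ} [Nontrivial (Fin m)]

theorem tele_prodS (S : Finset (Fin m)) (a b : Fin m → ℝ) :
    ∏ j ∈ S, a j = (∑ q ∈ S, ∏ j ∈ S, if j < q then b j else if j = q then a j - b j else a j) + ∏ j ∈ S, b j := by
  classical
  have h1 := tele_prod (fun j => if j ∈ S then a j else 1) (fun j => if j ∈ S then b j else 1)
  have e1 : ∀ f : Fin m → ℝ, ∏ j, (if j ∈ S then f j else 1) = ∏ j ∈ S, f j := by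
    intro f
    rw [Finset.prod_ite_mem, Finset.univ_inter]
  rw [e1, e1] at h1
  rw [h1]
  congr 1
  rw [← Finset.sum_subset (subset_univ S)]
  · refine Finset.sum_congr rfl fun q hq => ?_
    rw [← e1 (fun j => if j < q then b j else if j = q then a j - b j else a j)]
    refine Finset.prod_congr rfl fun j _ => ?_
    by_cases hj : j ∈ S
    · simp only [if_pos hj]
    · simp only [if_neg hj]
      have hjq : j ≠ q := fun h => hj (h ▸ hq)
      rw [if_neg hjq]
      split_ifs <;> rfl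
  · intro q _ hq
    refine Finset.prod_eq_zero (mem_univ q) ?_
    rw [if_neg (lt_irrefl q), if_pos rfl, if_neg hq, if_neg hq, sub_self]

theorem prod_erase_split (q : Fin m) (f : Fin m → ℝ) :
    ∏ j ∈ univ.erase q, f j = (∏ j ∈ univ.filter (fun j => j < q), f j) * ∏ j ∈ univ.filter (fun j => q < j), f j := by
  classical
  rw [← Finset.prod_union (by
    rw [Finset.disjoint_left]
    intro j hj hj'
    rw [mem_filter] at hj hj'
    exact absurd hj.2 (not_lt.2 hj'.2.le))]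
  refine Finset.prod_congr ?_ fun _ _ => rfl
  ext j
  simp only [mem_erase, mem_univ, and_true, mem_union, mem_filter, true_and]
  exact ne_iff_lt_or_gt

end prods

/-! ### the terms -/

variable {k N m : ℕ} {Θ P : Type} [Fintype Θ] [Nonempty Θ] [Fintype P] [Nonempty P]

theorem lh_le (L : LayE) {l n : ℕ} (hln : l ≤ n) : L.lh l ≤ L.lh n := by
  induction n, hln using Nat.le_induction with
  | base => exact le_rfl
  | succ n _ ih => exact ih.trans (L.lh_mono n)

section fam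

variable [Nontrivial (Fin m)] (L : LayE) (N) (F : Fin m → (Fin m → P × V k) → V k → ℝ)

/-- the term of the step `n` with the structured face `q'`, the face `q` carries `G` (rounding `h0`) -/
def tT (q : Fin m) (G : Fam k (Fin m) P) (h0 n : ℕ) (q' : Fin m) : Fin m → Fam k (Fin m) P :=
  Function.update (Pc N L F n q') q (fine h0 G)

/-- the last term -/
def tL (q : Fin m) (G : Fam k (Fin m) P) (h0 M : ℕ) : Fin m → Fam k (Fin m) P :=
  Function.update (Rl N L F M) q (fine h0 G)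

variable {N F}

theorem tT_q (q : Fin m) (G : Fam k (Fin m) P) (h0 n : ℕ) (q' : Fin m) : tT N L F q G h0 n q' q = fine h0 G :=
  Function.update_self _ _ _

theorem tT_ne {q j : Fin m} (hj : j ≠ q) (G : Fam k (Fin m) P) (h0 n : ℕ) (q' : Fin m) :
    tT N L F q G h0 n q' j = Pc N L F n q' j := Function.update_of_ne hj _ _

theorem tL_q (q : Fin m) (G : Fam k (Fin m) P) (h0 M : ℕ) : tL N L F q G h0 M q = fine h0 G :=
  Function.update_self _ _ _

theorem tL_ne {q j : Fin m} (hj : j ≠ q) (G : Fam k (Fin m) P) (h0 M : ℕ) :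
    tL N L F q G h0 M j = Rl N L F M j := Function.update_of_ne hj _ _

theorem tT_on (hF : Faces F) {q : Fin m} {G : Fam k (Fin m) P} (hG : FOn ({q}ᶜ : Set (Fin m)) G) (h0 n : ℕ)
    (q' j : Fin m) : FOn ({j}ᶜ : Set (Fin m)) (tT N L F q G h0 n q' j) := by
  by_cases hj : j = q
  · subst hj
    rw [tT_q]
    exact fine_on hG _
  · rw [tT_ne L hj]
    exact Pc_on L hF n q' j

theorem tT_le (hF : Faces F) {q : Fin m} {G : Fam k (Fin m) P} (hG : FLe 2 G) (h0 n : ℕ) (q' j : Fin m) :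
    FLe 2 (tT N L F q G h0 n q' j) := by
  by_cases hj : j = q
  · subst hj
    rw [tT_q]
    exact fine_le hG _
  · rw [tT_ne L hj]
    exact Pc_le L hF n q' j

theorem tT_PT (hN : N ≤ k) (hF : Faces F) {q j : Fin m} (hj : j ≠ q) (G : Fam k (Fin m) P) (h0 n : ℕ) (q' : Fin m) :
    PT j (L.lh (n + 1)) N (tT N L F q G h0 n q' j) (L.tp m n) (L.rp m n) 2 := by
  rw [tT_ne L hj]
  exact Pc_PT L hN hF n q' j

theorem tL_on (hF : Faces F) {q : Fin m} {G : Fam k (Fin m) P} (hG : FOn ({q}ᶜ : Set (Fin m)) G) (h0 M : ℕ)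
    (j : Fin m) : FOn ({j}ᶜ : Set (Fin m)) (tL N L F q G h0 M j) := by
  by_cases hj : j = q
  · subst hj
    rw [tL_q]
    exact fine_on hG _
  · rw [tL_ne L hj]
    exact Rl_on L hF M j

theorem tL_le (hF : Faces F) {q : Fin m} {G : Fam k (Fin m) P} (hG : FLe 2 G) (h0 M : ℕ) (j : Fin m) :
    FLe 2 (tL N L F q G h0 M j) := by
  by_cases hj : j = q
  · subst hj
    rw [tL_q]
    exact fine_le hG _
  · rw [tL_ne L hj]
    exact Rl_le L hF M j

theorem tL_PT (hF : Faces F) {q j : Fin m} (hj : j ≠ q) (G : Fam k (Fin m) P) (h0 M : ℕ) :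
    PT j (L.lh M) N (tL N L F q G h0 M j) (L.lth M) (L.rp m M) 2 := by
  rw [tL_ne L hj]
  exact Rl_PT2 L hF M j

end fam

/-! ### rarity of the terms -/

section rar

variable [Nontrivial (Fin m)] (s : V k) (L : LayE) {F : Fin m → (Fin m → P × V k) → V k → ℝ}

/-- a vertex `i <> q` and all the noise known -/
theorem term_hidden {q i : Fin m} (hi : i ≠ q) {e : ℕ} (he : e ≤ N) (hN : N ≤ k) (hF : Faces F)
    {G : Fam k (Fin m) P} (hG : FOn ({q}ᶜ : Set (Fin m)) G) (hG2 : FLe 2 G) (h0 n : ℕ) (q' : Fin m)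
    (ω : Sq k N (Fin m) Θ P) :
    Pm.ce (Zk {i} (e - (L.lh (n + 1) + 3)))
      (fun ω => ind (2 * L.rp m n ≤ |TT s (L.lh (n + 1)) (tT N L F q G h0 n q') e ω|)) ω ≤ m * L.tp m n := by
  have h1 := TT_hidden (Θ := Θ) s i he hN (L.tp_pos m n).le (tT_on L hF hG h0 n q') (tT_le L hF hG2 h0 n q')
    (tT_PT L hN hF hi G h0 n q') (rdH L n) ω
  rw [Fintype.card_fin] at h1
  exact h1

/-- the vertex `j <> q` known in the view of `i` -/
theorem term_known {q i j : Fin m} (hij : j ≠ i) (hj : j ≠ q) {e : ℕ} (he : e ≤ N) (hN : N ≤ k) (hF : Faces F)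
    {G : Fam k (Fin m) P} (hG : FOn ({q}ᶜ : Set (Fin m)) G) (hG2 : FLe 2 G) (h0 n : ℕ) (q' : Fin m)
    (ω : Sq k N (Fin m) Θ P) :
    Pm.ce (Yk i {i, j} e (e - (L.lh (n + 1) + 3)))
      (fun ω => ind (2 * L.rp m n ≤ |TT s (L.lh (n + 1)) (tT N L F q G h0 n q') e ω|)) ω ≤
      m * (9 / 8 * L.tp m n) := by
  have h1 := TT_known (Θ := Θ) s hij he hN (L.tp_pos m n).le (tT_on L hF hG h0 n q') (tT_le L hF hG2 h0 n q')
    (tT_PT L hN hF hj G h0 n q') (rdH L n) ω
  rw [Fintype.card_fin] at h1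
  exact h1

/-- the same for every coarser set of known vertices -/
theorem term_Yk {q i j : Fin m} (hij : j ≠ i) (hj : j ≠ q) {U : Finset (Fin m)} (hi : i ∈ U) (hU : U ⊆ {i, j}) {e : ℕ}
    (he : e ≤ N) (hN : N ≤ k) (hF : Faces F) {G : Fam k (Fin m) P} (hG : FOn ({q}ᶜ : Set (Fin m)) G) (hG2 : FLe 2 G)
    (h0 n : ℕ) (q' : Fin m) (ω : Sq k N (Fin m) Θ P) :
    Pm.ce (Yk i U e (e - (L.lh (n + 1) + 3)))
      (fun ω => ind (2 * L.rp m n ≤ |TT s (L.lh (n + 1)) (tT N L F q G h0 n q') e ω|)) ω ≤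
      m * (9 / 8 * L.tp m n) := by
  have h1 := TT_Yk (Θ := Θ) s hij hi hU he hN (L.tp_pos m n).le (tT_on L hF hG h0 n q') (tT_le L hF hG2 h0 n q')
    (tT_PT L hN hF hj G h0 n q') (rdH L n) ω
  rw [Fintype.card_fin] at h1
  exact h1

/-- rarity at the public node -/
theorem term_Qn {q i j : Fin m} (hij : j ≠ i) (hj : j ≠ q) {e : ℕ} (he : e ≤ N) (hN : N ≤ k) (hF : Faces F)
    {G : Fam k (Fin m) P} (hG : FOn ({q}ᶜ : Set (Fin m)) G) (hG2 : FLe 2 G) (h0 n : ℕ) (q' : Fin m)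
    (ω : Sq k N (Fin m) Θ P) :
    Pm.ce (Qn i (L.lh (n + 1)) e)
      (fun ω => ind (2 * L.rp m n ≤ |TT s (L.lh (n + 1)) (tT N L F q G h0 n q') e ω|)) ω ≤
      m * (9 / 8 * L.tp m n) := by
  have h1 := TT_Qn (Θ := Θ) s hij he hN (L.tp_pos m n).le (tT_on L hF hG h0 n q') (tT_le L hF hG2 h0 n q')
    (tT_PT L hN hF hj G h0 n q') (rdH L n) ω
  rw [Fintype.card_fin] at h1
  exact h1

/-- unconditional rarity -/
theorem term_Pr {q i : Fin m} (hi : i ≠ q) {e : ℕ} (he : e ≤ N) (hN : N ≤ k) (hF : Faces F)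
    {G : Fam k (Fin m) P} (hG : FOn ({q}ᶜ : Set (Fin m)) G) (hG2 : FLe 2 G) (h0 n : ℕ) (q' : Fin m) :
    Pm.Pr (fun ω : Sq k N (Fin m) Θ P => 2 * L.rp m n ≤ |TT s (L.lh (n + 1)) (tT N L F q G h0 n q') e ω|) ≤
      m * L.tp m n := by
  have h1 := TT_Pr (Θ := Θ) s i he hN (L.tp_pos m n).le (tT_on L hF hG h0 n q') (tT_le L hF hG2 h0 n q')
    (tT_PT L hN hF hi G h0 n q') (rdH L n)
  rw [Fintype.card_fin] at h1
  exact h1

/-- rarity of the last term -/
theorem last_hidden {q i : Fin m} (hi : i ≠ q) {e : ℕ} (he : e ≤ N) (hN : N ≤ k) (hF : Faces F)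
    {G : Fam k (Fin m) P} (hG : FOn ({q}ᶜ : Set (Fin m)) G) (hG2 : FLe 2 G) (h0 M : ℕ)
    (ω : Sq k N (Fin m) Θ P) :
    Pm.ce (Zk {i} (e - (L.lh M + 3)))
      (fun ω => ind (2 * L.rp m M ≤ |TT s (L.lh M) (tL N L F q G h0 M) e ω|)) ω ≤ m * L.lth M := by
  have h1 := TT_hidden (Θ := Θ) s i he hN (L.lth_pos M).le (tL_on L hF hG h0 M) (tL_le L hF hG2 h0 M)
    (tL_PT L hF hi G h0 M) (rdH0 L M) ω
  rw [Fintype.card_fin] at h1
  exact h1

theorem last_Pr {q i : Fin m} (hi : i ≠ q) {e : ℕ} (he : e ≤ N) (hN : N ≤ k) (hF : Faces F)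
    {G : Fam k (Fin m) P} (hG : FOn ({q}ᶜ : Set (Fin m)) G) (hG2 : FLe 2 G) (h0 M : ℕ) :
    Pm.Pr (fun ω : Sq k N (Fin m) Θ P => 2 * L.rp m M ≤ |TT s (L.lh M) (tL N L F q G h0 M) e ω|) ≤
      m * L.lth M := by
  have h1 := TT_Pr (Θ := Θ) s i he hN (L.lth_pos M).le (tL_on L hF hG h0 M) (tL_le L hF hG2 h0 M)
    (tL_PT L hF hi G h0 M) (rdH0 L M)
  rw [Fintype.card_fin] at h1
  exact h1

/-- the last term is small at all exponents -/
theorem last_small {q i : Fin m} (hi : i ≠ q) (hN : N ≤ k) (hF : Faces F)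
    {G : Fam k (Fin m) P} (hG : FOn ({q}ᶜ : Set (Fin m)) G) (hG2 : FLe 2 G) (h0 M : ℕ) :
    (Pm : FP (Sq k N (Fin m) Θ P)).Pr (fun ω => ∃ e ≤ N, 2 * L.rp m M ≤ |TT s (L.lh M) (tL N L F q G h0 M) e ω|) ≤
      (N + 1) * (m * L.lth M) := by
  have h4 : (Pm : FP (Sq k N (Fin m) Θ P)).Pr (fun ω => ∃ e ≤ N, 2 * L.rp m M ≤
      |TT s (L.lh M) (tL N L F q G h0 M) e ω|) ≤
      (Pm : FP (Sq k N (Fin m) Θ P)).Pr (fun ω => ∃ e ∈ range (N + 1), 2 * L.rp m M ≤
        |TT s (L.lh M) (tL N L F q G h0 M) e ω|) := by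
    refine FP.Pr_mono _ fun ω _ hω => ?_
    obtain ⟨e, he, h5⟩ := hω
    exact ⟨e, Finset.mem_range.2 (by omega), h5⟩
  refine h4.trans ((FP.Pr_ex_le _ _ _).trans ?_)
  calc ∑ e ∈ range (N + 1), (Pm : FP (Sq k N (Fin m) Θ P)).Pr (fun ω => 2 * L.rp m M ≤
        |TT s (L.lh M) (tL N L F q G h0 M) e ω|)
      ≤ ∑ _e ∈ range (N + 1), m * L.lth M := by
        refine Finset.sum_le_sum fun e he => last_Pr s L hi ?_ hN hF hG hG2 h0 M
        rw [Finset.mem_range] at he
        omega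
    _ = (N + 1) * (m * L.lth M) := by
        rw [Finset.sum_const, Finset.card_range, nsmul_eq_mul]
        push_cast
        ring

end rar

/-! ### the telescoping identities -/

section tele

variable [Nontrivial (Fin m)] (s : V k) (L : LayE) {F : Fin m → (Fin m → P × V k) → V k → ℝ}

/-- the values of the faces of a piece -/
theorem Pc_val (l : ℕ) (q j : Fin m) (e : ℕ) (ω : Sq k N (Fin m) Θ P) (d : V k) :
    fv s (L.lh (l + 1)) (Pc N L F l q j) e ω d =
      if j < q then fv s (L.lh (l + 1)) (Rl N L F (l + 1) j) e ω d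
      else if j = q then fv s (L.lh l) (Rl N L F l j) e ω d - fv s (L.lh (l + 1)) (Rl N L F (l + 1) j) e ω d
      else fv s (L.lh l) (Rl N L F l j) e ω d := by
  rcases lt_trichotomy j q with h | h | h
  · rw [if_pos h, Pc_lt L h]
  · rw [h, if_neg (lt_irrefl q), if_pos rfl, Pc_eq, Dl_v]
  · rw [if_neg (not_lt.2 h.le), if_neg h.ne', Pc_gt L h, fine_v]

/-- the process with the face `q` carrying `G`, the other faces the residuals of the layer `n` -/
def VG (F : Fin m → (Fin m → P × V k) → V k → ℝ) (q : Fin m) (G : Fam k (Fin m) P) (h0 n e : ℕ)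
    (ω : Sq k N (Fin m) Θ P) : ℝ :=
  av e (Yn s e ω).1 (fun d => fv s h0 G e ω d * ∏ j ∈ univ.erase q, fv s (L.lh n) (Rl N L F n j) e ω d)

theorem VG_last {h0 M : ℕ} (h1 : h0 ≤ L.lh M) (q : Fin m) (G : Fam k (Fin m) P) (e : ℕ) (ω : Sq k N (Fin m) Θ P) :
    TT s (L.lh M) (tL N L F q G h0 M) e ω = VG s L F q G h0 M e ω := by
  unfold tL VG
  rw [TT_upd, fv_fine s h1]

/-- a term -/
theorem TT_tT {h0 n : ℕ} (h1 : h0 ≤ L.lh (n + 1)) (q : Fin m) (G : Fam k (Fin m) P) (q' : Fin m) (e : ℕ)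
    (ω : Sq k N (Fin m) Θ P) :
    TT s (L.lh (n + 1)) (tT N L F q G h0 n q') e ω = av e (Yn s e ω).1 (fun d => fv s h0 G e ω d *
      ∏ j ∈ univ.erase q, if j < q' then fv s (L.lh (n + 1)) (Rl N L F (n + 1) j) e ω d
      else if j = q' then fv s (L.lh n) (Rl N L F n j) e ω d - fv s (L.lh (n + 1)) (Rl N L F (n + 1) j) e ω d
      else fv s (L.lh n) (Rl N L F n j) e ω d) := by
  unfold tT
  rw [TT_upd, fv_fine s h1]
  congr 1
  funext d
  congr 1
  exact Finset.prod_congr rfl fun j _ => Pc_val s L n q' j e ω d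

/-- one step of the telescoping -/
theorem tele_one {h0 n : ℕ} (h1 : h0 ≤ L.lh (n + 1)) (q : Fin m) (G : Fam k (Fin m) P) (e : ℕ)
    (ω : Sq k N (Fin m) Θ P) :
    VG s L F q G h0 n e ω = (∑ q' ∈ univ.erase q, TT s (L.lh (n + 1)) (tT N L F q G h0 n q') e ω) +
      VG s L F q G h0 (n + 1) e ω := by
  rw [Finset.sum_congr rfl fun q' _ => TT_tT s L h1 q G q' e ω]
  unfold VG
  rw [← av_sum', ← Pool.Agent.M3.Mod.av_add]
  congr 1
  funext d
  rw [tele_prodS (univ.erase q) (fun j => fv s (L.lh n) (Rl N L F n j) e ω d)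
    (fun j => fv s (L.lh (n + 1)) (Rl N L F (n + 1) j) e ω d), mul_add, Finset.mul_sum]

/-- the first step, from the piece -/
theorem tele_mix (l : ℕ) (q : Fin m) (G : Fam k (Fin m) P) (e : ℕ) (ω : Sq k N (Fin m) Θ P) :
    TT s (L.lh (l + 1)) (Function.update (Pc N L F l q) q G) e ω =
      (∑ q' ∈ univ.filter (fun j => q < j), TT s (L.lh (l + 1)) (tT N L F q G (L.lh (l + 1)) l q') e ω) +
      VG s L F q G (L.lh (l + 1)) (l + 1) e ω := by
  rw [Finset.sum_congr rfl fun q' _ => TT_tT s L le_rfl q G q' e ω]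
  unfold VG
  rw [TT_upd, ← av_sum', ← Pool.Agent.M3.Mod.av_add]
  congr 1
  funext d
  rw [← Finset.mul_sum, ← mul_add]
  congr 1
  have e1 : ∏ j ∈ univ.erase q, fv s (L.lh (l + 1)) (Pc N L F l q j) e ω d =
      (∏ j ∈ univ.filter (fun j => j < q), fv s (L.lh (l + 1)) (Rl N L F (l + 1) j) e ω d) *
        ∏ j ∈ univ.filter (fun j => q < j), fv s (L.lh l) (Rl N L F l j) e ω d := by
    rw [prod_erase_split]
    congr 1
    · refine Finset.prod_congr rfl fun j hj => ?_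
      rw [Pc_val, if_pos (mem_filter.1 hj).2]
    · refine Finset.prod_congr rfl fun j hj => ?_
      have h6 := (mem_filter.1 hj).2
      rw [Pc_val, if_neg (not_lt.2 h6.le), if_neg h6.ne']
  rw [e1, tele_prodS (univ.filter fun j => q < j) (fun j => fv s (L.lh l) (Rl N L F l j) e ω d)
    (fun j => fv s (L.lh (l + 1)) (Rl N L F (l + 1) j) e ω d), mul_add, Finset.mul_sum]
  congr 1
  · refine Finset.sum_congr rfl fun q' hq' => ?_
    have h7 := (mem_filter.1 hq').2
    rw [prod_erase_split]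
    congr 1
    refine Finset.prod_congr rfl fun j hj => ?_
    rw [if_pos ((mem_filter.1 hj).2.trans h7)]
  · rw [prod_erase_split]

/-- **the telescoping of a piece with its structured face `q` replaced by `G`** -/
theorem tele_piece (l : ℕ) {M : ℕ} (hM : l + 1 ≤ M) (q : Fin m) (G : Fam k (Fin m) P) (e : ℕ)
    (ω : Sq k N (Fin m) Θ P) :
    TT s (L.lh (l + 1)) (Function.update (Pc N L F l q) q G) e ω =
      (∑ q' ∈ univ.filter (fun j => q < j), TT s (L.lh (l + 1)) (tT N L F q G (L.lh (l + 1)) l q') e ω) +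
      (∑ n ∈ Ico (l + 1) M, ∑ q' ∈ univ.erase q, TT s (L.lh (n + 1)) (tT N L F q G (L.lh (l + 1)) n q') e ω) +
      TT s (L.lh M) (tL N L F q G (L.lh (l + 1)) M) e ω := by
  rw [tele_mix s L l q G e ω, add_assoc]
  congr 1
  rw [VG_last s L (lh_le L hM)]
  induction M, hM using Nat.le_induction with
  | base => simp
  | succ M hM ih =>
    rw [Finset.sum_Ico_succ_top hM, ih, tele_one s L (lh_le L (by omega)) q G e ω]
    ring

/-- **a large piece with its structured face `q` replaced by `G` has a large term or a large last term** -/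
theorem piece_union (l : ℕ) {M : ℕ} (hM : l + 1 ≤ M) (q : Fin m) (G : Fam k (Fin m) P) (e : ℕ)
    (ω : Sq k N (Fin m) Θ P) {r r'' : ℝ} {r' : ℕ → ℝ} (hr' : ∀ n, 0 ≤ r' n)
    (hr : r'' + ∑ n ∈ Ico l M, (m : ℝ) * r' n ≤ r)
    (h : r ≤ |TT s (L.lh (l + 1)) (Function.update (Pc N L F l q) q G) e ω|) :
    (∃ n ∈ Ico l M, ∃ q', q' ≠ q ∧ r' n ≤ |TT s (L.lh (n + 1)) (tT N L F q G (L.lh (l + 1)) n q') e ω|) ∨
    r'' ≤ |TT s (L.lh M) (tL N L F q G (L.lh (l + 1)) M) e ω| := by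
  by_contra hcon
  rw [not_or] at hcon
  obtain ⟨h1, h2⟩ := hcon
  push Not at h1
  rw [not_le] at h2
  have h3 := tele_piece s L (N := N) (F := F) l hM q G e ω
  have hcard : ∀ (S : Finset (Fin m)), (S.card : ℝ) ≤ m := by
    intro S
    have := Finset.card_le_univ S
    rw [Fintype.card_fin] at this
    exact_mod_cast this
  have key : ∀ (S : Finset (Fin m)), (∀ j ∈ S, j ≠ q) → ∀ n ∈ Ico l M,
      |∑ q' ∈ S, TT s (L.lh (n + 1)) (tT N L F q G (L.lh (l + 1)) n q') e ω| ≤ m * r' n := by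
    intro S hS n hn
    calc |∑ q' ∈ S, TT s (L.lh (n + 1)) (tT N L F q G (L.lh (l + 1)) n q') e ω|
        ≤ ∑ q' ∈ S, |TT s (L.lh (n + 1)) (tT N L F q G (L.lh (l + 1)) n q') e ω| := Finset.abs_sum_le_sum_abs _ _
      _ ≤ ∑ _q' ∈ S, r' n := Finset.sum_le_sum fun q' hq' => (h1 n hn q' (hS q' hq')).le
      _ = S.card * r' n := by rw [Finset.sum_const, nsmul_eq_mul]
      _ ≤ m * r' n := mul_le_mul_of_nonneg_right (hcard S) (hr' n)
  have h4 := key (univ.filter fun j => q < j) (fun j hj => (mem_filter.1 hj).2.ne') l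
    (Finset.mem_Ico.2 ⟨le_rfl, by omega⟩)
  have h5 : |∑ n ∈ Ico (l + 1) M, ∑ q' ∈ univ.erase q, TT s (L.lh (n + 1)) (tT N L F q G (L.lh (l + 1)) n q') e ω| ≤
      ∑ n ∈ Ico (l + 1) M, (m : ℝ) * r' n := by
    refine (Finset.abs_sum_le_sum_abs _ _).trans (Finset.sum_le_sum fun n hn => ?_)
    refine key (univ.erase q) (fun j hj => Finset.ne_of_mem_erase hj) n ?_
    rw [Finset.mem_Ico] at hn ⊢
    omega
  have h6 : ∑ n ∈ Ico l M, (m : ℝ) * r' n = m * r' l + ∑ n ∈ Ico (l + 1) M, (m : ℝ) * r' n :=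
    Finset.sum_eq_sum_Ico_succ_bot (by omega) _
  rw [h3] at h
  have h7 := h.trans ((abs_add_le _ _).trans (add_le_add (abs_add_le _ _) le_rfl))
  linarith

end tele

end

end Pool.Agent.GM
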