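import Pool.Agent.GM.FrzL
import Pool.Agent.GM.Tele
import Pool.Agent.GM.Hot
import Pool.Agent.M3.Hot
import Pool.Agent.M3.Par

/-!
# GM/Colds : from coldness of one layer to coldness of every piece in every natural view (port of M3/Colds, helper34)

* `hot_versions` : hotness of a process implies hotness of a frozen version of the known face, or many changes;
* `ColdLay m L c1 o` : CONTRACT OF THE COLD SETS OF `m - 1` VERTICES IN ONE LAYER `n` (row CM): hidden vertex `x`, known face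
  `x` = an arbitrary frozen family (one change, zero before), the other faces those of a piece with structured face
  `q ≠ x`, thresholds `τ ≥ c1 / (n+1)^4`: `P(∃ t, exp (-n^C1) ≤ P(τ ≤ |T_t| | K^x_t)) ≤ exp (-n^C1)`; `o k` = the offset;
* `ColdAll m L r o` : all pieces of the layer `l` in all natural views, threshold `r l`;
* `coldAll_of_layers : ColdLay m L c1 o → ColdAll m L r o` for `r0 / (l+1)^2 ≤ r l`, `8 m c1 ≤ r0`.
-/

set_option autoImplicit false
set_option linter.unusedSectionVars false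

namespace Pool.Agent.GM

open Finset Filter Pool.Agent.PWZ Pool.Agent.M3 Pool.Agent.M3.Bin
open Pool.Agent.M3.Mod (ex nd av dl pnd SC cel)

noncomputable section

/-! ### versions of the known face -/

section versions

variable {k N : ℕ} {ι Θ P : Type} [Fintype ι] [DecidableEq ι] [Fintype Θ] [Nonempty Θ] [Fintype P] [Nonempty P]
  (s : V k)

/-- the conditional expectation depends on the values on the class only -/
theorem ce_class' {Om : Type*} [Fintype Om] (Q : FP Om) {κ : Type*} (X : Om → κ) {f g : Om → ℝ} {w : Om}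
    (h : ∀ v, X v = X w → f v = g v) : Q.ce X f w = Q.ce X g w := by
  unfold FP.ce
  congr 1
  refine Q.E_congr (fun v _ => ?_)
  by_cases hv : X v = X w
  · rw [h v hv]
  · rw [ind_not hv, zero_mul, zero_mul]

/-- hotness of the process implies hotness of a version of the known face, or many changes -/
theorem hot_versions (h : ℕ) (R : ι → Fam k ι P) (x : ι) (hx : FOn ({x}ᶜ : Set ι) (R x)) (p : ℕ) (r ρ : ℝ) :
    (Pm : FP (Sq k N ι Θ P)).Pr (fun ω => ∃ t ≤ N, 1 ≤ t ∧ ρ <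
        Pm.ce (Kn x (ex N t)) (fun v => ind (r ≤ |TT s h R (ex N t) v|)) ω) ≤
      (Pm : FP (Sq k N ι Θ P)).Pr (fun ω => (p : ℝ) < ∑ u ∈ range N, ind (chE s h (R x) u ω)) +
      ∑ v ∈ range (p + 1), (Pm : FP (Sq k N ι Θ P)).Pr (fun ω => ∃ t ≤ N, 1 ≤ t ∧ ρ <
        Pm.ce (Kn x (ex N t)) (fun ω' => ind (r ≤ |TT s h (Function.update R x (frz h N v (R x))) (ex N t) ω'|)) ω) := by
  have h1 := FP.Pr_ex_le (Pm : FP (Sq k N ι Θ P)) (range (p + 1)) (fun v ω => ∃ t ≤ N, 1 ≤ t ∧ ρ <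
        Pm.ce (Kn x (ex N t)) (fun ω' => ind (r ≤ |TT s h (Function.update R x (frz h N v (R x))) (ex N t) ω'|)) ω)
  refine le_trans ?_ (add_le_add le_rfl h1)
  refine le_trans (FP.Pr_mono _ (fun ω _ => ?_)) (FP.Pr_or_le _ _ _)
  rintro ⟨t, ht, ht1, hh⟩
  by_cases hp : (p : ℝ) < ∑ u ∈ range N, ind (chE s h (R x) u ω)
  · exact Or.inl hp
  right
  have hcn : cn s h (R x) t ω ≤ p := by
    have h2 := cn_eq s h (R x) ω
    rw [← h2, not_lt] at hp
    exact (cn_mono s h (R x) ht ω).trans (by exact_mod_cast hp)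
  refine ⟨cn s h (R x) t ω, Finset.mem_range.mpr (by omega), t, ht, ht1, ?_⟩
  refine lt_of_lt_of_le hh (le_of_eq ?_)
  refine ce_class' _ _ (fun v hv => ?_)
  have h3 : cn s h (R x) t v = cn s h (R x) t ω := cn_fac s hx h t v ω hv
  rw [← h3, TT_frz s h R x ht1 ht v]

end versions

/-! ### the last term -/

section last

variable {k N m : ℕ} {Θ P : Type} [Fintype Θ] [Nonempty Θ] [Fintype P] [Nonempty P] [Nontrivial (Fin m)]
  (s : V k) (L : LayE) {F : Fin m → (Fin m → P × V k) → V k → ℝ}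

theorem tL_small (hN : N ≤ k) (hF : Faces F) (x : Fin m) {G : Fam k (Fin m) P} (hG : FOn ({x}ᶜ : Set (Fin m)) G)
    (hG2 : FLe 2 G) (h0 M : ℕ) {ρ : ℝ} (hρ : 0 < ρ) :
    (Pm : FP (Sq k N (Fin m) Θ P)).Pr (fun ω => ∃ t ≤ N, ρ ≤
        Pm.ce (Kn x (ex N t)) (fun v => ind (2 * L.rp m M ≤ |TT s (L.lh M) (tL N L F x G h0 M) (ex N t) v|)) ω) ≤
      (N + 1) * (m * L.lth M) / ρ := by
  obtain ⟨i, hi⟩ := exists_ne x
  have h1 : ∀ e ≤ N, (Pm : FP (Sq k N (Fin m) Θ P)).Pr (fun ω => 2 * L.rp m M ≤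
      |TT s (L.lh M) (tL N L F x G h0 M) e ω|) ≤ m * L.lth M := fun e he => last_Pr s L hi he hN hF hG hG2 h0 M
  have h2 : (Pm : FP (Sq k N (Fin m) Θ P)).Pr (fun ω => ∃ t ≤ N, ρ ≤
        Pm.ce (Kn x (ex N t)) (fun v => ind (2 * L.rp m M ≤ |TT s (L.lh M) (tL N L F x G h0 M) (ex N t) v|)) ω) ≤
      ∑ t ∈ range (N + 1), (Pm : FP (Sq k N (Fin m) Θ P)).Pr (fun ω => ρ ≤
        Pm.ce (Kn x (ex N t)) (fun v => ind (2 * L.rp m M ≤ |TT s (L.lh M) (tL N L F x G h0 M) (ex N t) v|)) ω) := by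
    refine le_trans (FP.Pr_mono _ (fun ω _ => ?_)) (FP.Pr_ex_le _ _ _)
    rintro ⟨t, ht, hh⟩
    exact ⟨t, Finset.mem_range.mpr (by omega), hh⟩
  refine h2.trans ?_
  have h3 : ∀ t ∈ range (N + 1), (Pm : FP (Sq k N (Fin m) Θ P)).Pr (fun ω => ρ ≤
        Pm.ce (Kn x (ex N t)) (fun v => ind (2 * L.rp m M ≤ |TT s (L.lh M) (tL N L F x G h0 M) (ex N t) v|)) ω) ≤
        m * L.lth M / ρ := by
    intro t _
    rw [le_div_iff₀ hρ]
    have h4 := FP.markov (Pm : FP (Sq k N (Fin m) Θ P))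
      (f := Pm.ce (Kn x (ex N t)) (fun v => ind (2 * L.rp m M ≤ |TT s (L.lh M) (tL N L F x G h0 M) (ex N t) v|)))
      (fun w _ => FP.ce_nonneg _ (fun v _ => ind_nonneg _) w) ρ
    rw [FP.E_ce] at h4
    have h5 := h1 (ex N t) (Nat.sub_le _ _)
    unfold FP.Pr at h5 ⊢
    unfold FP.Pr at h4
    linarith
  refine (Finset.sum_le_sum h3).trans ?_
  rw [Finset.sum_const, Finset.card_range, nsmul_eq_mul]
  push_cast
  apply le_of_eq
  ring

end last

/-! ### numbers -/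

private theorem ev_P' (A : ℝ) (a : ℕ) (b : ℝ) (C1 C2 : ℕ) (hC : C1 < C2) {c : ℝ} (hc : 0 < c) :
    ∀ᶠ n : ℕ in atTop, A * (n : ℝ) ^ a * Real.exp (b * (n : ℝ) ^ C1 - c * (n : ℝ) ^ C2) ≤
      Real.exp (-(n : ℝ) ^ C1) := by
  have hc2 : 0 < c / 2 := by positivity
  filter_upwards [Par.ev_pow_pow_le hC (b + 1) hc2, Par.ev_mono_le_LL (C := C2) (by omega) a A hc2] with n h1 h2
  calc A * (n : ℝ) ^ a * Real.exp (b * (n : ℝ) ^ C1 - c * (n : ℝ) ^ C2) ≤
      Real.exp (c / 2 * (n : ℝ) ^ C2) * Real.exp (b * (n : ℝ) ^ C1 - c * (n : ℝ) ^ C2) :=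
        mul_le_mul_of_nonneg_right h2 (Real.exp_pos _).le
    _ = Real.exp (c / 2 * (n : ℝ) ^ C2 + (b * (n : ℝ) ^ C1 - c * (n : ℝ) ^ C2)) := by rw [Real.exp_add]
    _ ≤ _ := Real.exp_le_exp.mpr (by linarith)

private theorem sum_inv_sq (n : ℕ) : ∑ j ∈ range n, 1 / ((j : ℝ) + 1) ^ 2 ≤ 2 := by
  have key : ∀ n : ℕ, ∑ j ∈ range (n + 1), 1 / ((j : ℝ) + 1) ^ 2 ≤ 2 - 1 / ((n : ℝ) + 1) := by
    intro n
    induction n with
    | zero => norm_num
    | succ n ih =>
      rw [Finset.sum_range_succ]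
      push_cast
      have h1 : (0 : ℝ) < (n : ℝ) + 1 := by positivity
      have h2 : 1 / ((n : ℝ) + 1 + 1) ^ 2 ≤ 1 / ((n : ℝ) + 1) - 1 / ((n : ℝ) + 1 + 1) := by
        rw [div_sub_div _ _ h1.ne' (by positivity), div_le_div_iff₀ (by positivity) (by positivity)]
        nlinarith
      linarith
  rcases n with _ | n
  · norm_num
  · have h1 := key n
    have h2 : (0 : ℝ) < 1 / ((n : ℝ) + 1) := by positivity
    linarith

/-- thresholds of the terms of the layer `n` in a piece of the layer `l` -/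
def rlm (m : ℕ) (r0 : ℝ) (l n : ℕ) : ℝ := r0 / (8 * m * ((l : ℝ) + 1) ^ 2) * (1 / (((n - l : ℕ) : ℝ) + 1) ^ 2)

theorem rlm_nonneg (m : ℕ) {r0 : ℝ} (hr0 : 0 < r0) (l n : ℕ) : 0 ≤ rlm m r0 l n := by
  unfold rlm
  positivity

theorem rlm_ge {m : ℕ} (hm : 0 < m) {r0 : ℝ} (hr0 : 0 < r0) {l n : ℕ} (hln : l ≤ n) :
    r0 / (8 * m) / ((n : ℝ) + 1) ^ 4 ≤ rlm m r0 l n := by
  unfold rlm
  have hm' : (0 : ℝ) < m := by exact_mod_cast hm
  rw [div_mul_div_comm, mul_one, div_div]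
  refine div_le_div_of_nonneg_left hr0.le (by positivity) ?_
  have h1 : ((l : ℝ) + 1) ^ 2 ≤ ((n : ℝ) + 1) ^ 2 := by
    have : (l : ℝ) ≤ n := by exact_mod_cast hln
    exact pow_le_pow_left₀ (by positivity) (by linarith) 2
  have h2 : (((n - l : ℕ) : ℝ) + 1) ^ 2 ≤ ((n : ℝ) + 1) ^ 2 := by
    have : ((n - l : ℕ) : ℝ) ≤ n := by exact_mod_cast Nat.sub_le n l
    exact pow_le_pow_left₀ (by positivity) (by linarith) 2
  calc 8 * m * ((l : ℝ) + 1) ^ 2 * (((n - l : ℕ) : ℝ) + 1) ^ 2 ≤ 8 * m * ((n : ℝ) + 1) ^ 2 * ((n : ℝ) + 1) ^ 2 :=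
        mul_le_mul (mul_le_mul_of_nonneg_left h1 (by positivity)) h2 (by positivity) (by positivity)
    _ = 8 * m * ((n : ℝ) + 1) ^ 4 := by ring

theorem sum_rlm_le {m : ℕ} (hm : 0 < m) {r0 : ℝ} (hr0 : 0 < r0) (l M : ℕ) :
    r0 / (8 * ((l : ℝ) + 1) ^ 2) + ∑ n ∈ Ico l M, (m : ℝ) * rlm m r0 l n ≤ r0 / ((l : ℝ) + 1) ^ 2 := by
  have hm' : (0 : ℝ) < m := by exact_mod_cast hm
  unfold rlm
  rw [Finset.sum_Ico_eq_sum_range]
  have h1 : ∀ j : ℕ, (m : ℝ) * (r0 / (8 * m * ((l : ℝ) + 1) ^ 2) * (1 / (((l + j - l : ℕ) : ℝ) + 1) ^ 2)) =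
      (r0 / (8 * ((l : ℝ) + 1) ^ 2)) * (1 / ((j : ℝ) + 1) ^ 2) := by
    intro j
    rw [Nat.add_sub_cancel_left]
    field_simp
  simp only [h1]
  rw [← Finset.mul_sum]
  have h2 := sum_inv_sq (M - l)
  have h3 : 0 < r0 / (8 * ((l : ℝ) + 1) ^ 2) := by positivity
  have h4 : r0 / ((l : ℝ) + 1) ^ 2 = 8 * (r0 / (8 * ((l : ℝ) + 1) ^ 2)) := by field_simp
  rw [h4]
  nlinarith

/-! ### the contract and the theorem -/

/-- CONTRACT OF THE COLD SETS OF `m - 1` VERTICES IN ONE LAYER -/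
def ColdLay (m : ℕ) [Nontrivial (Fin m)] (L : LayE) (c1 : ℝ) (o : ∀ k, V k) : Prop :=
  ∀ C1 : ℕ, ∃ n1 : ℕ, ∀ n ≥ n1, ∀ k N : ℕ, N ≤ k → ∀ F : Fin m → (Fin m → Unit × V k) → V k → ℝ, Faces F →
  ∀ x q : Fin m, q ≠ x → ∀ G : Fam k (Fin m) Unit, FOn ({x}ᶜ : Set (Fin m)) G → FLe 2 G →
    (∀ ω : Sq k N (Fin m) Unit Unit, ∑ t ∈ range N, ind (chE (o k) (L.lh (n + 1)) G t ω) ≤ 1) →
    (∀ t < N, ∀ ω : Sq k N (Fin m) Unit Unit, chE (o k) (L.lh (n + 1)) G t ω → fz (o k) (L.lh (n + 1)) G t ω = 0) →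
  ∀ τ : ℝ, c1 / ((n : ℝ) + 1) ^ 4 ≤ τ →
    (Pm : FP (Sq k N (Fin m) Unit Unit)).Pr (fun ω => ∃ t ≤ N, 1 ≤ t ∧ Real.exp (-(n : ℝ) ^ C1) ≤
      Pm.ce (Kn x (ex N t)) (fun v => ind (τ ≤ |TT (o k) (L.lh (n + 1)) (Function.update (Pc N L F n q) x G)
        (ex N t) v|)) ω) ≤ Real.exp (-(n : ℝ) ^ C1)

/-- coldness of all pieces of the layer `l` in all natural views -/
def ColdAll (m : ℕ) [Nontrivial (Fin m)] (L : LayE) (r : ℕ → ℝ) (o : ∀ k, V k) : Prop :=
  ∀ C1 : ℕ, ∃ l0 : ℕ, ∀ l ≥ l0, ∀ k N : ℕ, N ≤ k → ∀ F : Fin m → (Fin m → Unit × V k) → V k → ℝ, Faces F →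
  ∀ q x : Fin m,
    (Pm : FP (Sq k N (Fin m) Unit Unit)).Pr (fun ω => ∃ t ≤ N, 1 ≤ t ∧ Real.exp (-(l : ℝ) ^ C1) <
      Pm.ce (Kn x (ex N t)) (fun v => ind (r l ≤ |TT (o k) (L.lh (l + 1)) (Pc N L F l q) (ex N t) v|)) ω) ≤
      Real.exp (-(l : ℝ) ^ C1)

/-- PROPOSITION 2 (COLD SETS OF `m - 1` VERTICES, ALL VIEWS) -/
theorem coldAll_of_layers (m : ℕ) [Nontrivial (Fin m)] (L : LayE) {c1 r0 : ℝ} (hr0 : 0 < r0)
    (hc : c1 ≤ r0 / (8 * m)) {o : ∀ k, V k} (H : ColdLay m L c1 o) {r : ℕ → ℝ}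
    (hr : ∀ l : ℕ, r0 / ((l : ℝ) + 1) ^ 2 ≤ r l) : ColdAll m L r o := by
  have hm : 0 < m := Fin.pos (Classical.arbitrary (Fin m))
  have hm' : (0 : ℝ) < m := by exact_mod_cast hm
  have hm1 : (1 : ℝ) ≤ m := by exact_mod_cast hm
  intro C1
  obtain ⟨n1, hn1⟩ := H (C1 + 1)
  obtain ⟨Cp, l1, hl1⟩ := chE_tail L m (C1 + 1)
  have e1 := Par.ev_tail (C := C1 + 1) (by omega) 0 m (c := 1) (c' := 1 / 2) (by norm_num) (by norm_num)
  have e2 := ev_P' 4 0 0 C1 (C1 + 1) (by omega) (c := 1 / 2) (by norm_num)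
  have e3 := ev_P' 16 Cp 0 C1 (C1 + 1) (by omega) (c := 1 / 2) (by norm_num)
  obtain ⟨l2, hl2⟩ := eventually_atTop.1 (e1.and (e2.and e3))
  refine ⟨max (max n1 l1) (max l2 1), fun l hl k N hN F hF q x => ?_⟩
  have hln1 : n1 ≤ l := (le_max_left _ _).trans ((le_max_left _ _).trans hl)
  have hll1 : l1 ≤ l := (le_max_right _ _).trans ((le_max_left _ _).trans hl)
  have hll2 : l2 ≤ l := (le_max_left _ _).trans ((le_max_right _ _).trans hl)
  have hl1' : 1 ≤ l := (le_max_right _ _).trans ((le_max_right _ _).trans hl)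
  obtain ⟨e1, e2, e3⟩ := hl2 l hll2
  have hx1 : (1 : ℝ) ≤ (l : ℝ) := by exact_mod_cast hl1'
  set X : ℝ := (l : ℝ) with hX
  have a1 : Real.exp (0 * X ^ C1 - 1 / 2 * X ^ (C1 + 1)) = Real.exp (-(1 / 2) * X ^ (C1 + 1)) := by
    congr 1
    ring
  rw [a1] at e2 e3
  rw [pow_zero, mul_one] at e2
  have hEp : 0 < Real.exp (-X ^ C1) := Real.exp_pos _
  have hEh : 0 < Real.exp (-(1 / 2) * X ^ (C1 + 1)) := Real.exp_pos _
  have hmono : Real.exp (-X ^ (C1 + 1)) ≤ Real.exp (-X ^ C1) :=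
    Real.exp_le_exp.mpr (neg_le_neg (pow_le_pow_right₀ hx1 (Nat.le_succ C1)))
  have hhalf : Real.exp (-X ^ (C1 + 1)) ≤ Real.exp (-(1 / 2) * X ^ (C1 + 1)) := by
    apply Real.exp_le_exp.mpr
    have : 0 ≤ X ^ (C1 + 1) := by positivity
    linarith
  set s : V k := o k with hs
  set R : Fin m → Fam k (Fin m) Unit := Pc N L F l q with hR
  have hRon : ∀ j, FOn ({j}ᶜ : Set (Fin m)) (R j) := fun j => Pc_on L hF l q j
  have hRabs : ∀ j, FLe 2 (R j) := fun j => Pc_le L hF l q j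
  -- every version is cold
  have hver : ∀ v : ℕ, (Pm : FP (Sq k N (Fin m) Unit Unit)).Pr (fun ω => ∃ t ≤ N, 1 ≤ t ∧ Real.exp (-X ^ C1) <
        Pm.ce (Kn x (ex N t)) (fun ω' => ind (r l ≤ |TT s (L.lh (l + 1))
          (Function.update R x (frz (L.lh (l + 1)) N v (R x))) (ex N t) ω'|)) ω) ≤
      2 * Real.exp (-(1 / 2) * X ^ (C1 + 1)) := by
    intro v
    set G : Fam k (Fin m) Unit := frz (L.lh (l + 1)) N v (R x) with hG
    have hGon : FOn ({x}ᶜ : Set (Fin m)) G := (hRon x).frz _ _ _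
    have hGabs : FLe 2 G := abs_frz (by norm_num) (hRabs x)
    by_cases hqx : q = x
    · -- the known face is the structured face
      subst hqx
      obtain ⟨m', hm1', hm2⟩ := L.exists_last (l + 2) N (A := 2 * (9 * 2 ^ (m - 1))) (B := m)
        (a := r0 / (8 * (X + 1) ^ 2))
        (b := Real.exp (-X ^ (C1 + 1)) * (Real.exp (-X ^ C1) / 4)) (by positivity) hm' (by positivity) (by positivity)
      set M : ℕ := l + 2 + m' with hM
      set Jx : Finset (Option (ℕ × Fin m)) := Finset.insertNone (Ico l M ×ˢ (univ.erase q : Finset (Fin m))) with hJx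
      set S' : Option (ℕ × Fin m) → ℕ → Sq k N (Fin m) Unit Unit → Prop := fun j t w => 1 ≤ t ∧ (match j with
        | none => r0 / (8 * (X + 1) ^ 2) ≤ |TT s (L.lh M) (tL N L F q G (L.lh (l + 1)) M) (ex N t) w|
        | some (n, q') => rlm m r0 l n ≤ |TT s (L.lh (n + 1)) (tT N L F q G (L.lh (l + 1)) n q') (ex N t) w|) with hS'
      set rr : Option (ℕ × Fin m) → ℝ := fun j => match j with
        | none => Real.exp (-X ^ C1) / 4
        | some (n, _) => Real.exp (-(n : ℝ) ^ (C1 + 1)) with hrr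
      have hsum2 : ∑ n ∈ Ico l M, (m : ℝ) * Real.exp (-(n : ℝ) ^ (C1 + 1)) ≤
          Real.exp (-(1 / 2) * X ^ (C1 + 1)) := by
        refine le_trans (le_of_eq ?_) (e1 M)
        refine Finset.sum_congr rfl fun n _ => ?_
        rw [pow_zero, mul_one]
        congr 2
        ring
      have hcard : ((univ.erase q : Finset (Fin m)).card : ℝ) ≤ m := by
        have h1 := Finset.card_le_univ (univ.erase q : Finset (Fin m))
        rw [Fintype.card_fin] at h1
        exact_mod_cast h1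
      have hsumrr : ∑ j ∈ Jx, rr j ≤ Real.exp (-X ^ C1) / 4 +
          ∑ n ∈ Ico l M, (m : ℝ) * Real.exp (-(n : ℝ) ^ (C1 + 1)) := by
        rw [hJx, Finset.sum_insertNone, Finset.sum_product]
        refine add_le_add le_rfl (Finset.sum_le_sum fun n _ => ?_)
        rw [Finset.sum_const, nsmul_eq_mul]
        exact mul_le_mul_of_nonneg_right hcard (Real.exp_pos _).le
      have h1 := FP.hot_sum (Pm : FP (Sq k N (Fin m) Unit Unit)) (Y := fun t => Kn q (ex N t)) Jx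
        (S := fun t w => 1 ≤ t ∧ r l ≤ |TT s (L.lh (l + 1)) (Function.update R q G) (ex N t) w|) (S' := S')
        (fun t w _ hS => ?_) rr N (ρ := Real.exp (-X ^ C1)) (by linarith)
        ⟨none, Finset.none_mem_insertNone⟩
      · refine le_trans (FP.Pr_mono _ (fun ω _ => ?_)) (h1.trans ?_)
        · rintro ⟨t, ht, ht1, hh⟩
          refine ⟨t, ht, hh.le.trans (le_of_eq ?_)⟩
          congr 1
          funext v'
          congr 1
          exact propext ⟨fun h => ⟨ht1, h⟩, fun h => h.2⟩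
        · have hpos : ∀ j, 0 < rr j := by
            intro j
            rcases j with _ | ⟨n, b⟩
            · exact div_pos (Real.exp_pos _) (by norm_num)
            · exact Real.exp_pos _
          have ht0 : ∀ j : Option (ℕ × Fin m), ∀ t : ℕ, ∀ ω : Sq k N (Fin m) Unit Unit,
              rr j ≤ Pm.ce (Kn q (ex N t)) (fun v => ind (S' j t v)) ω → 1 ≤ t := by
            intro j t ω hh
            by_contra hcon
            have h2 : Pm.ce (Kn q (ex N t)) (fun v => ind (S' j t v)) ω ≤ 0 := by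
              refine FP.ce_le_const _ (fun v _ => ?_) (Pm_ne ω)
              rw [ind_not (fun h => hcon h.1)]
            linarith [hpos j]
          have hterm : ∀ n ∈ Ico l M, ∀ q' ∈ (univ.erase q : Finset (Fin m)),
              (Pm : FP (Sq k N (Fin m) Unit Unit)).Pr (fun w => ∃ t ≤ N,
              rr (some (n, q')) ≤ Pm.ce (Kn q (ex N t)) (fun v => ind (S' (some (n, q')) t v)) w) ≤
              Real.exp (-(n : ℝ) ^ (C1 + 1)) := by
            intro n hn q' hq'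
            rw [Finset.mem_Ico] at hn
            have hqq := Finset.ne_of_mem_erase hq'
            have hh0 : L.lh (l + 1) ≤ L.lh (n + 1) := lh_le L (by omega)
            have h2 := hn1 n (by omega) k N hN F hF q q' hqq (fine (L.lh (l + 1)) G) (fine_on hGon _) (fine_le hGabs _)
              (fun ω => by
                simp only [chE_fine _ hh0]
                exact sum_frz _ _ _ _ _)
              (fun t ht w hcw => by
                rw [chE_fine _ hh0] at hcw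
                rw [fz_fine _ hh0]
                exact chE_frz _ ht hcw)
              (rlm m r0 l n) ((div_le_div_of_nonneg_right hc (by positivity)).trans (rlm_ge hm hr0 hn.1))
            refine le_trans (FP.Pr_mono _ (fun ω _ => ?_)) h2
            rintro ⟨t, ht, hh⟩
            refine ⟨t, ht, ht0 (some (n, q')) t ω hh, hh.trans (FP.ce_mono _ (fun v' _ => ind_mono fun h => h.2) ω)⟩
          have hlast : (Pm : FP (Sq k N (Fin m) Unit Unit)).Pr (fun w => ∃ t ≤ N,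
              rr none ≤ Pm.ce (Kn q (ex N t)) (fun v => ind (S' none t v)) w) ≤ Real.exp (-X ^ (C1 + 1)) := by
            have h2 := tL_small (Θ := Unit) s L hN hF q hGon hGabs (L.lh (l + 1)) M (ρ := Real.exp (-X ^ C1) / 4)
              (by positivity)
            refine le_trans (FP.Pr_mono _ (fun ω _ => ?_)) (h2.trans ?_)
            · rintro ⟨t, ht, hh⟩
              refine ⟨t, ht, hh.trans (FP.ce_mono _ (fun v' _ => ind_mono fun h => ?_) ω)⟩
              refine le_trans ?_ h.2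
              refine le_trans (le_of_eq ?_) hm1'
              unfold LayE.rp
              ring
            · rw [div_le_iff₀ (by positivity)]
              exact hm2
          rw [hJx, Finset.sum_insertNone, Finset.sum_product]
          have h3 : ∑ n ∈ Ico l M, ∑ q' ∈ (univ.erase q : Finset (Fin m)),
              (Pm : FP (Sq k N (Fin m) Unit Unit)).Pr (fun w => ∃ t ≤ N,
              rr (some (n, q')) ≤ Pm.ce (Kn q (ex N t)) (fun v => ind (S' (some (n, q')) t v)) w) ≤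
              ∑ n ∈ Ico l M, (m : ℝ) * Real.exp (-(n : ℝ) ^ (C1 + 1)) := by
            refine Finset.sum_le_sum fun n hn => ?_
            refine (Finset.sum_le_sum fun q' hq' => hterm n hn q' hq').trans ?_
            rw [Finset.sum_const, nsmul_eq_mul]
            exact mul_le_mul_of_nonneg_right hcard (Real.exp_pos _).le
          linarith
      · have hS2 := hS.2
        rcases piece_union s L (F := F) l (M := M) (by omega) q G (ex N t) w (r' := rlm m r0 l)
          (fun n => rlm_nonneg m hr0 l n) ((sum_rlm_le hm hr0 l M).trans (hr l)) hS2 with ⟨n, hn, q', hq', h5⟩ | h5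
        · exact ⟨some (n, q'), Finset.some_mem_insertNone.mpr (Finset.mem_product.mpr ⟨hn,
            Finset.mem_erase.mpr ⟨hq', Finset.mem_univ _⟩⟩), hS.1, h5⟩
        · exact ⟨none, Finset.none_mem_insertNone, hS.1, h5⟩
    · -- the structured face goes through the hidden vertex
      have h2 := hn1 l hln1 k N hN F hF x q hqx G hGon hGabs (fun ω => sum_frz _ _ _ _ _)
        (fun t ht w hcw => chE_frz _ ht hcw) (r l) (by
          refine le_trans ?_ (hr l)
          refine (div_le_div_of_nonneg_right hc (by positivity)).trans ?_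
          rw [div_div]
          refine div_le_div_of_nonneg_left hr0.le (by positivity) ?_
          have h3 : (1 : ℝ) ≤ (X + 1) ^ 2 := one_le_pow₀ (by linarith)
          have h4 : (X + 1) ^ 4 = (X + 1) ^ 2 * (X + 1) ^ 2 := by ring
          have h5 : (X + 1) ^ 2 ≤ (X + 1) ^ 4 := by
            rw [h4]
            nlinarith
          have h6 : (X + 1) ^ 4 ≤ 8 * m * (X + 1) ^ 4 := by
            have h7 : 0 < (X + 1) ^ 4 := by positivity
            nlinarith
          exact h5.trans h6)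
      refine le_trans (FP.Pr_mono _ (fun ω _ => ?_)) (h2.trans ?_)
      · rintro ⟨t, ht, ht1, hh⟩
        exact ⟨t, ht, ht1, hmono.trans hh.le⟩
      · linarith
  -- union over the versions
  have h1 := hot_versions (Θ := Unit) (N := N) s (L.lh (l + 1)) R x (hRon x) (l ^ Cp) (r l) (Real.exp (-X ^ C1))
  refine h1.trans ?_
  have h2 := hl1 l hll1 k N Unit Unit s F hF q x
  have h3 : (Pm : FP (Sq k N (Fin m) Unit Unit)).Pr (fun ω => ((l ^ Cp : ℕ) : ℝ) <
      ∑ u ∈ range N, ind (chE s (L.lh (l + 1)) (R x) u ω)) ≤ Real.exp (-X ^ (C1 + 1)) := by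
    push_cast
    exact h2
  have h4 := Finset.sum_le_card_nsmul (range (l ^ Cp + 1)) _ _ (fun v _ => hver v)
  rw [Finset.card_range, nsmul_eq_mul] at h4
  push_cast at h4
  have h5 : (1 : ℝ) ≤ X ^ Cp := one_le_pow₀ hx1
  have h6 : (X ^ Cp + 1) * (2 * Real.exp (-(1 / 2) * X ^ (C1 + 1))) ≤
      4 * X ^ Cp * Real.exp (-(1 / 2) * X ^ (C1 + 1)) := by nlinarith
  have h7 : Real.exp (-X ^ (C1 + 1)) ≤ X ^ Cp * Real.exp (-(1 / 2) * X ^ (C1 + 1)) := by nlinarith
  have h8 := add_le_add h3 h4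
  refine h8.trans ?_
  linarith

end

end Pool.Agent.GM
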