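import Pool.Agent.GM.Frz
import Pool.Agent.GM.S1Lay

/-!
# GM/FrzL : the number of changes of the faces of the pieces, every m (port of M3/FrzL, helper34)

A residual of a layer changes only if its signed list grows ((P3) of section 1), so the number of changes of a face of a
piece of the layer `l` is at most `1 + ` the lengths of the two lists of the layers `l`, `l+1` at the end.
* `Pc_v` : a face of a piece is a function of the residuals of the layers `l` and `l+1` of this face;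
* `sum_chE_le`, `chE_tail`: outside an event of probability `exp (-l^C1)` there are at most `l^Cp` changes.
-/

set_option autoImplicit false
set_option linter.unusedSectionVars false

namespace Pool.Agent.GM

open Finset Pool.Agent.PWZ Pool.Agent.M3 Pool.Agent.M3.Bin
open Pool.Agent.M3.Mod (ex nd av dl pnd SC cel)

noncomputable section

variable {k N m : ℕ} {Θ P : Type} [Fintype Θ] [Nonempty Θ] [Fintype P] [Nonempty P] [Nontrivial (Fin m)]

variable (s : V k) (L : LayE) {F : Fin m → (Fin m → P × V k) → V k → ℝ}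

variable (F)

/-- the length of the list of the layer `l`, face `i` -/
def Ll (l : ℕ) (i : Fin m) (e : ℕ) (ω : Sq k N (Fin m) Θ P) : ℝ :=
  Llen s (L.lh l) i (L.lep l) (L.lth l) (F i) e ω

variable {F}

/-- a change of the residual is a growth of the list -/
theorem Rl_ch {l : ℕ} {i : Fin m} {t : ℕ} (ht : t < N) {ω : Sq k N (Fin m) Θ P}
    (hc : fv s (L.lh l) (Rl N L F l i) (ex N (t + 1)) ω ≠ fv s (L.lh l) (Rl N L F l i) (ex N t) ω) :
    1 ≤ Ll s L F l i (ex N (t + 1)) ω - Ll s L F l i (ex N t) ω := by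
  have h1 : ex N (t + 1) < N := by unfold ex; omega
  have h2 := Lf_mono (N := N) (h := L.lh l) (ep := L.lep l) (th := L.lth l) (F := F i) (i := i) h1
    (Gm s (L.lh l) (ex N (t + 1)) ω) (vs ω)
  rw [par_Gm, ex_add ht] at h2
  set A := Lf i (L.lh l) N (L.lep l) (L.lth l) (F i) (ex N t) (Gm s (L.lh l) (ex N t) ω) (vs ω) with hA
  set B := Lf i (L.lh l) N (L.lep l) (L.lth l) (F i) (ex N (t + 1)) (Gm s (L.lh l) (ex N (t + 1)) ω) (vs ω) with hB
  have h3 : A.length < B.length := by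
    rcases Nat.lt_or_ge A.length B.length with h | h
    · exact h
    · exfalso
      have h4 : A = B := h2.eq_of_length (le_antisymm h2.length_le h)
      apply hc
      funext d
      have h5 : ∀ e : ℕ, fv s (L.lh l) (Rl N L F l i) e ω d = F i (vs ω) d -
          struc (L.lep l) (faceTests k P i).val
            (Lf i (L.lh l) N (L.lep l) (L.lth l) (F i) e (Gm s (L.lh l) e ω) (vs ω)) (restr i (vs ω)) d :=
        fun e => rfl
      rw [h5, h5, ← hA, ← hB, h4]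
  have h6 : Ll s L F l i (ex N (t + 1)) ω = (B.length : ℝ) := rfl
  have h7 : Ll s L F l i (ex N t) ω = (A.length : ℝ) := rfl
  rw [h6, h7]
  have h8 : (A.length : ℝ) + 1 ≤ B.length := by exact_mod_cast h3
  linarith

theorem Ll_nonneg (l : ℕ) (i : Fin m) (e : ℕ) (ω : Sq k N (Fin m) Θ P) : 0 ≤ Ll s L F l i e ω := Nat.cast_nonneg _

theorem Ll_succ_le (l : ℕ) (i : Fin m) {t : ℕ} (ht : t < N) (ω : Sq k N (Fin m) Θ P) :
    Ll s L F l i (ex N t) ω ≤ Ll s L F l i (ex N (t + 1)) ω := by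
  have h1 : ex N (t + 1) < N := by unfold ex; omega
  have h2 := Llen_mono (N := N) (h := L.lh l) (ep := L.lep l) (th := L.lth l) (F := F i) s i h1 ω
  rw [ex_add ht] at h2
  exact h2

theorem ind_Rl_ch (l : ℕ) (i : Fin m) {t : ℕ} (ht : t < N) (ω : Sq k N (Fin m) Θ P) :
    ind (fv s (L.lh l) (Rl N L F l i) (ex N (t + 1)) ω ≠ fv s (L.lh l) (Rl N L F l i) (ex N t) ω) ≤
      Ll s L F l i (ex N (t + 1)) ω - Ll s L F l i (ex N t) ω := by
  by_cases hc : fv s (L.lh l) (Rl N L F l i) (ex N (t + 1)) ω ≠ fv s (L.lh l) (Rl N L F l i) (ex N t) ω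
  · rw [ind_of hc]
    exact Rl_ch s L ht hc
  · rw [ind_not hc]
    linarith [Ll_succ_le (F := F) s L l i ht ω]

/-- the faces of the pieces as functions of the two residuals -/
theorem Pc_v (l : ℕ) (q j : Fin m) {t t' : ℕ} {ω : Sq k N (Fin m) Θ P}
    (h1 : fv s (L.lh l) (Rl N L F l j) t ω = fv s (L.lh l) (Rl N L F l j) t' ω)
    (h2 : fv s (L.lh (l + 1)) (Rl N L F (l + 1) j) t ω = fv s (L.lh (l + 1)) (Rl N L F (l + 1) j) t' ω) :
    fv s (L.lh (l + 1)) (Pc N L F l q j) t ω = fv s (L.lh (l + 1)) (Pc N L F l q j) t' ω := by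
  rcases lt_trichotomy j q with h | h | h
  · rw [Pc_lt L h]
    exact h2
  · subst h
    rw [Pc_eq]
    funext d
    rw [Dl_v, Dl_v, h1, h2]
  · rw [Pc_gt L h, fine_v, fine_v]
    exact h1

/-- the number of changes of a face of a piece -/
theorem sum_chE_le (l : ℕ) (q j : Fin m) (ω : Sq k N (Fin m) Θ P) :
    ∑ u ∈ range N, ind (chE s (L.lh (l + 1)) (Pc N L F l q j) u ω) ≤
      1 + Ll s L F l j 0 ω + Ll s L F (l + 1) j 0 ω := by
  rcases Nat.eq_zero_or_pos N with hN | hN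
  · subst hN
    have h1 := Ll_nonneg (F := F) s L l j 0 ω
    have h2 := Ll_nonneg (F := F) s L (l + 1) j 0 ω
    simp only [Finset.range_zero, Finset.sum_empty]
    linarith
  have key : ∀ n : ℕ, n + 1 ≤ N → ∑ u ∈ range (n + 1), ind (chE s (L.lh (l + 1)) (Pc N L F l q j) u ω) ≤
      1 + Ll s L F l j (ex N (n + 1)) ω + Ll s L F (l + 1) j (ex N (n + 1)) ω := by
    intro n
    induction n with
    | zero =>
      intro _
      rw [Finset.sum_range_one]
      have h1 := Ll_nonneg (F := F) s L l j (ex N (0 + 1)) ω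
      have h2 := Ll_nonneg (F := F) s L (l + 1) j (ex N (0 + 1)) ω
      have h3 := ind_le_one (chE s (L.lh (l + 1)) (Pc N L F l q j) 0 ω)
      linarith
    | succ n ih =>
      intro hn
      rw [Finset.sum_range_succ]
      have h1 := ih (by omega)
      have h2 := ind_Rl_ch (F := F) s L l j (t := n + 1) (by omega) ω
      have h3 := ind_Rl_ch (F := F) s L (l + 1) j (t := n + 1) (by omega) ω
      have h4 : ind (chE s (L.lh (l + 1)) (Pc N L F l q j) (n + 1) ω) ≤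
          ind (fv s (L.lh l) (Rl N L F l j) (ex N (n + 1 + 1)) ω ≠ fv s (L.lh l) (Rl N L F l j) (ex N (n + 1)) ω) +
          ind (fv s (L.lh (l + 1)) (Rl N L F (l + 1) j) (ex N (n + 1 + 1)) ω ≠
            fv s (L.lh (l + 1)) (Rl N L F (l + 1) j) (ex N (n + 1)) ω) := by
        refine (ind_mono ?_).trans (ind_or_le _ _)
        intro hc
        by_contra hcon
        rw [not_or, not_not, not_not] at hcon
        apply hc
        rw [fz_of_pos s _ _ (by omega), fz_of_pos s _ _ (by omega)]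
        exact Pc_v s L l q j hcon.1 hcon.2
      linarith
  have h5 := key (N - 1) (by omega)
  have h6 : N - 1 + 1 = N := by omega
  rw [h6] at h5
  have h7 : ex N N = 0 := by unfold ex; omega
  rw [h7] at h5
  exact h5

/-- tail of the length of the list -/
theorem Ll_tail (hF : Faces F) (l : ℕ) (i : Fin m) (n : ℕ) :
    (Pm : FP (Sq k N (Fin m) Θ P)).Pr (fun ω => (n : ℝ) * (64 / (3 * L.lep l ^ 2)) ≤ Ll s L F l i 0 ω) ≤
      (1 / 2) ^ n := by
  have h1 := L.rd l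
  have h2 : 0 < ((2 : ℝ) ^ L.lh l)⁻¹ := by positivity
  exact Lf_tail (Θ := Θ) (P := P) (N := N) (h := L.lh l) (ep := L.lep l) (th := L.lth l) (F := F i) s i (hF.2 i)
    (L.lep_pos l) (by linarith) n

private theorem half_pow (n : ℕ) : (1 / 2 : ℝ) ^ (2 * n + 2) ≤ Real.exp (-(n : ℝ)) / 2 := by
  have h1 : (1 / 2 : ℝ) ^ 2 ≤ Real.exp (-1) := by
    have h2 := Real.exp_one_lt_d9
    rw [Real.exp_neg, le_inv_comm₀ (by norm_num) (Real.exp_pos 1)]
    norm_num
    linarith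
  have h3 : ((1 / 2 : ℝ) ^ 2) ^ n ≤ Real.exp (-1) ^ n := pow_le_pow_left₀ (by norm_num) h1 n
  have h4 : Real.exp (-1) ^ n = Real.exp (-(n : ℝ)) := by
    rw [← Real.exp_nat_mul]
    congr 1
    ring
  rw [pow_add, pow_mul]
  rw [h4] at h3
  have h5 := Real.exp_pos (-(n : ℝ))
  nlinarith

/-- THE TAIL OF THE NUMBER OF CHANGES -/
theorem chE_tail (m : ℕ) [Nontrivial (Fin m)] (C1 : ℕ) : ∃ Cp l0 : ℕ, ∀ l ≥ l0, ∀ (k N : ℕ) (Θ P : Type)
    [Fintype Θ] [Nonempty Θ] [Fintype P] [Nonempty P] (s : V k) (F : Fin m → (Fin m → P × V k) → V k → ℝ),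
    Faces F → ∀ q j : Fin m,
    (Pm : FP (Sq k N (Fin m) Θ P)).Pr (fun ω => (l : ℝ) ^ Cp <
      ∑ u ∈ range N, ind (chE s (L.lh (l + 1)) (Pc N L F l q j) u ω)) ≤ Real.exp (-(l : ℝ) ^ C1) := by
  obtain ⟨l0, hl0⟩ := exists_nat_ge (1 + 8 * 64 * 3 ^ (2 * L.E) / (3 * L.c ^ 2))
  refine ⟨C1 + 2 * L.E + 1, l0 + 1, ?_⟩
  intro l hl k N Θ P _ _ _ _ s F hF q j
  have hl1 : (1 : ℝ) ≤ l := by
    have : 1 ≤ l := by omega
    exact_mod_cast this
  have hlK : 1 + 8 * 64 * 3 ^ (2 * L.E) / (3 * L.c ^ 2) ≤ (l : ℝ) :=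
    hl0.trans (by exact_mod_cast (by omega : l0 ≤ l))
  have hc := L.c_pos
  set n : ℕ := 2 * l ^ C1 + 2 with hn
  have h1 := Ll_tail (Θ := Θ) (N := N) s L hF l j n
  have h2 := Ll_tail (Θ := Θ) (N := N) s L hF (l + 1) j n
  have h3 := half_pow (l ^ C1)
  have hlC : (1 : ℝ) ≤ (l : ℝ) ^ C1 := one_le_pow₀ hl1
  -- the two thresholds
  have h4 : ∀ l' : ℕ, l' ≤ l + 1 → (n : ℝ) * (64 / (3 * L.lep l' ^ 2)) ≤
      4 * (l : ℝ) ^ C1 * (64 * 3 ^ (2 * L.E) * (l : ℝ) ^ (2 * L.E) / (3 * L.c ^ 2)) := by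
    intro l' hl'
    have h5 : 64 / (3 * L.lep l' ^ 2) = 64 * ((l' : ℝ) + 1) ^ (2 * L.E) / (3 * L.c ^ 2) := by
      have e1 : L.lep l' ^ 2 = L.c ^ 2 / ((l' : ℝ) + 1) ^ (2 * L.E) := by
        unfold LayE.lep
        rw [div_pow, ← pow_mul, mul_comm L.E 2]
      have e2 : (0 : ℝ) < ((l' : ℝ) + 1) ^ (2 * L.E) := by positivity
      rw [e1]
      field_simp
    have h6 : ((l' : ℝ) + 1) ^ (2 * L.E) ≤ 3 ^ (2 * L.E) * (l : ℝ) ^ (2 * L.E) := by
      have h7 : (l' : ℝ) ≤ l + 1 := by exact_mod_cast hl'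
      calc ((l' : ℝ) + 1) ^ (2 * L.E) ≤ (3 * (l : ℝ)) ^ (2 * L.E) :=
            pow_le_pow_left₀ (by positivity) (by linarith) _
        _ = 3 ^ (2 * L.E) * (l : ℝ) ^ (2 * L.E) := by rw [mul_pow]
    have h8 : (n : ℝ) ≤ 4 * (l : ℝ) ^ C1 := by
      rw [hn]
      push_cast
      linarith
    rw [h5]
    have h9 : 64 * ((l' : ℝ) + 1) ^ (2 * L.E) / (3 * L.c ^ 2) ≤
        64 * 3 ^ (2 * L.E) * (l : ℝ) ^ (2 * L.E) / (3 * L.c ^ 2) := by
      apply div_le_div_of_nonneg_right _ (by positivity)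
      linarith
    exact mul_le_mul h8 h9 (by positivity) (by positivity)
  have h10 : 1 + 2 * (4 * (l : ℝ) ^ C1 * (64 * 3 ^ (2 * L.E) * (l : ℝ) ^ (2 * L.E) / (3 * L.c ^ 2))) ≤
      (l : ℝ) ^ (C1 + 2 * L.E + 1) := by
    have e1 : 1 + 2 * (4 * (l : ℝ) ^ C1 * (64 * 3 ^ (2 * L.E) * (l : ℝ) ^ (2 * L.E) / (3 * L.c ^ 2))) =
        1 + (l : ℝ) ^ (C1 + 2 * L.E) * (8 * 64 * 3 ^ (2 * L.E) / (3 * L.c ^ 2)) := by
      rw [pow_add]
      ring
    have e2 : (1 : ℝ) ≤ (l : ℝ) ^ (C1 + 2 * L.E) := one_le_pow₀ hl1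
    have e3 : (l : ℝ) ^ (C1 + 2 * L.E + 1) = (l : ℝ) ^ (C1 + 2 * L.E) * l := by rw [← pow_succ]
    rw [e1, e3]
    have e4 : (l : ℝ) ^ (C1 + 2 * L.E) * (1 + 8 * 64 * 3 ^ (2 * L.E) / (3 * L.c ^ 2)) ≤
        (l : ℝ) ^ (C1 + 2 * L.E) * l := mul_le_mul_of_nonneg_left hlK (by positivity)
    have e5 : (l : ℝ) ^ (C1 + 2 * L.E) * (1 + 8 * 64 * 3 ^ (2 * L.E) / (3 * L.c ^ 2)) =
        (l : ℝ) ^ (C1 + 2 * L.E) + (l : ℝ) ^ (C1 + 2 * L.E) * (8 * 64 * 3 ^ (2 * L.E) / (3 * L.c ^ 2)) := by ring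
    rw [e5] at e4
    linarith
  have h11 : (Pm : FP (Sq k N (Fin m) Θ P)).Pr (fun ω => (l : ℝ) ^ (C1 + 2 * L.E + 1) <
      ∑ u ∈ range N, ind (chE s (L.lh (l + 1)) (Pc N L F l q j) u ω)) ≤
      (Pm : FP (Sq k N (Fin m) Θ P)).Pr (fun ω => (n : ℝ) * (64 / (3 * L.lep l ^ 2)) ≤ Ll s L F l j 0 ω) +
      (Pm : FP (Sq k N (Fin m) Θ P)).Pr (fun ω => (n : ℝ) * (64 / (3 * L.lep (l + 1) ^ 2)) ≤
        Ll s L F (l + 1) j 0 ω) := by
    refine (FP.Pr_mono _ (fun ω _ => ?_)).trans (FP.Pr_or_le _ _ _)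
    intro hω
    by_contra hcon
    rw [not_or, not_le, not_le] at hcon
    have a1 := sum_chE_le (F := F) s L l q j ω
    have a2 := h4 l (by omega)
    have a3 := h4 (l + 1) le_rfl
    linarith [hcon.1, hcon.2]
  have h12 : ((l ^ C1 : ℕ) : ℝ) = (l : ℝ) ^ C1 := by push_cast; ring
  rw [h12] at h3
  linarith

end

end Pool.Agent.GM
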