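import Pool.Agent.GM.S1Births

/-!
# GM/LstZ (helper19): the frozen lists of births of a face, every finite set `ι` of vertices (port of `M3/S2/InpB` and
of the general part of `M3/S2/InpC`)

Time `t` = exponent `N - t`, rounding `h`, face `i`, point `x : ι → P × V k` (the vertex `i` is not used).
`cumZ` = number of public births on the path of a node, in the cells of the point; `okZ` : length `≤ cap` and
`cumZ ≤ cap2`; `FLZ` = the list at the last time at which `okZ` holds; `BSZ` = the set of the public births on the path.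
`gt h N t z w` = the node of the path `(z,w)` at the time `t` (`z = ctr s ω`, `w = nz ω`).

* `FLZ_suf` (cumulative), `FLZ_len`, `FLZ_time`, `FLZ_new` (a change brings a birth of that time), `FLZ_pub` (all the
  births are in a set of at most `cap2` elements, for all the points in the same cells), `FLZ_eq` (nothing is frozen as
  long as `okZ` holds), `okZ_anti`, `FLZ_moves`, `cumZ_sum`;
* `SZ` = the frozen structured function, `SZ_eq`; `FLZ_on`, `SZ_on` : they miss the vertex `i`;
* `BadF s h ep th F cap cap2 i` = the list is too long or there are too many public births at the end; `Pr_BadF`.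
-/

set_option autoImplicit false
set_option linter.unusedSectionVars false

namespace Pool.Agent.GM

open Finset Pool.Agent.PWZ Pool.Agent.M3 Pool.Agent.M3.Bin
open Pool.Agent.M3.Mod (ex nd av dl pnd SC cel mem_cel card_cel SC_eq av_eq)

noncomputable section

variable {k N : ℕ} {ι P : Type} [Fintype ι] [DecidableEq ι] [Fintype P] [Nonempty P] [Nontrivial ι]
  {i : ι} {h : ℕ} {ep th : ℝ} {F : (ι → P × V k) → V k → ℝ}

/-! ### the frozen lists -/

/-- number of public births on the path of a node -/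
def cumZ (i : ι) (h N : ℕ) (ep th : ℝ) (F : (ι → P × V k) → V k → ℝ) : ℕ → V k × ℕ → (ι → P × V k) → ℕ
  | 0, g, x => Pf i h N ep th F N g x
  | t + 1, g, x => if t < N then Pf i h N ep th F (N - (t + 1)) g x + cumZ i h N ep th F t (par h (N - (t + 1)) g) x
      else cumZ i h N ep th F t g x

/-- the list is short and there are few public births -/
def okZ (i : ι) (h N : ℕ) (ep th : ℝ) (F : (ι → P × V k) → V k → ℝ) (cap cap2 : ℕ) (t : ℕ) (g : V k × ℕ) (x : ι → P × V k) : Prop :=
  (Lf i h N ep th F (N - t) g x).length ≤ cap ∧ cumZ i h N ep th F t g x ≤ cap2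

open Classical in
/-- the frozen lists -/
def FLZ (i : ι) (h N : ℕ) (ep th : ℝ) (F : (ι → P × V k) → V k → ℝ) (cap cap2 : ℕ) : ℕ → V k × ℕ → (ι → P × V k) → List (Birth (TJ k P i → Bool))
  | 0, g, x => if okZ i h N ep th F cap cap2 0 g x then Lf i h N ep th F N g x else []
  | t + 1, g, x => if t < N then (if okZ i h N ep th F cap cap2 (t + 1) g x then
      Lf i h N ep th F (N - (t + 1)) g x else FLZ i h N ep th F cap cap2 t (par h (N - (t + 1)) g) x)
      else FLZ i h N ep th F cap cap2 t g x

open Classical in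
/-- the public births on the path of a node -/
def BSZ (i : ι) (h N : ℕ) (ep th : ℝ) (F : (ι → P × V k) → V k → ℝ) : ℕ → V k × ℕ → (ι → P × V k) → Finset (Birth (TJ k P i → Bool))
  | 0, g, x => Bf i h N ep th F N g x
  | t + 1, g, x => if t < N then Bf i h N ep th F (N - (t + 1)) g x ∪ BSZ i h N ep th F t (par h (N - (t + 1)) g) x
      else BSZ i h N ep th F t g x

theorem card_BSZ (t : ℕ) : ∀ (g : V k × ℕ) (x : ι → P × V k),
    (BSZ i h N ep th F t g x).card ≤ cumZ i h N ep th F t g x := by
  classical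
  induction t with
  | zero => exact fun g x => card_Bf N g x
  | succ t ih =>
    intro g x
    unfold BSZ cumZ
    by_cases ht : t < N
    · rw [if_pos ht, if_pos ht]
      exact (Finset.card_union_le _ _).trans (add_le_add (card_Bf _ _ _) (ih _ _))
    · rw [if_neg ht, if_neg ht]
      exact ih _ _

theorem FLZ_len (cap cap2 : ℕ) (t : ℕ) : ∀ (g : V k × ℕ) (x : ι → P × V k),
    (FLZ i h N ep th F cap cap2 t g x).length ≤ cap := by
  classical
  induction t with
  | zero =>
    intro g x
    unfold FLZ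
    split_ifs with h1
    · have := h1.1
      rwa [Nat.sub_zero] at this
    · simp
  | succ t ih =>
    intro g x
    unfold FLZ
    split_ifs with h1 h2
    · exact h2.1
    · exact ih _ _
    · exact ih _ _

/-- the vertices but `i` are in the same cells at the time `t` -/
def sameX (i : ι) (h N t : ℕ) (x x' : ι → P × V k) : Prop :=
  ∀ l, l ≠ i → flr (N - t - (h + 3)) (x l).2 = flr (N - t - (h + 3)) (x' l).2

theorem sameX.mono {i : ι} {h N t u : ℕ} (hu : u ≤ t) {x x' : ι → P × V k} (hs : sameX i h N t x x') :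
    sameX i h N u x x' := fun l hl => flr_mono_eq (by omega) (hs l hl)

theorem cumZ_congr (t : ℕ) : ∀ (g : V k × ℕ) {x x' : ι → P × V k}, sameX i h N t x x' →
    cumZ i h N ep th F t g x = cumZ i h N ep th F t g x' := by
  induction t with
  | zero =>
    intro g x x' hs
    unfold cumZ
    exact Pf_congr le_rfl g hs
  | succ t ih =>
    intro g x x' hs
    unfold cumZ
    split_ifs with h1
    · rw [Pf_congr (Nat.sub_le _ _) g hs, ih _ (hs.mono (Nat.le_succ t))]
    · exact ih _ (hs.mono (Nat.le_succ t))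

theorem BSZ_congr (t : ℕ) : ∀ (g : V k × ℕ) {x x' : ι → P × V k}, sameX i h N t x x' →
    BSZ i h N ep th F t g x = BSZ i h N ep th F t g x' := by
  classical
  induction t with
  | zero =>
    intro g x x' hs
    unfold BSZ
    exact Bf_congr le_rfl g hs
  | succ t ih =>
    intro g x x' hs
    unfold BSZ
    split_ifs with h1
    · rw [Bf_congr (Nat.sub_le _ _) g hs, ih _ (hs.mono (Nat.le_succ t))]
    · exact ih _ (hs.mono (Nat.le_succ t))

/-! ### along a path -/

/-- the node of the path `(z,w)` at the time `t` -/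
def gt (h N t : ℕ) (z : V k) (w : ℕ) : V k × ℕ := G h (N - t) z w

theorem par_gt {t : ℕ} (ht : t < N) (z : V k) (w : ℕ) : par h (N - (t + 1)) (gt h N (t + 1) z w) = gt h N t z w := by
  unfold gt
  rw [par_G]
  congr 1
  omega

theorem gt_top {t : ℕ} (ht : ¬ t < N) (z : V k) (w : ℕ) : gt h N (t + 1) z w = gt h N t z w := by
  unfold gt
  congr 1
  omega

variable (z : V k) (w : ℕ) (x : ι → P × V k)

theorem cumZ_mono (t : ℕ) :
    cumZ i h N ep th F t (gt h N t z w) x ≤ cumZ i h N ep th F (t + 1) (gt h N (t + 1) z w) x := by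
  conv_rhs => unfold cumZ
  split_ifs with ht
  · rw [par_gt ht]
    exact Nat.le_add_left _ _
  · rw [gt_top ht]

theorem cumZ_le {u t : ℕ} (hu : u ≤ t) :
    cumZ i h N ep th F u (gt h N u z w) x ≤ cumZ i h N ep th F t (gt h N t z w) x := by
  induction t, hu using Nat.le_induction with
  | base => exact le_rfl
  | succ t _ ih => exact ih.trans (cumZ_mono z w x t)

theorem Lf_suf (t : ℕ) :
    Lf i h N ep th F (N - t) (gt h N t z w) x <:+ Lf i h N ep th F (N - (t + 1)) (gt h N (t + 1) z w) x := by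
  by_cases ht : t < N
  · have h1 := Lf_mono (i := i) (h := h) (ep := ep) (th := th) (F := F) (N := N) (e := N - (t + 1)) (by omega)
      (gt h N (t + 1) z w) x
    rw [par_gt ht] at h1
    have h2 : N - (t + 1) + 1 = N - t := by omega
    rw [h2] at h1
    exact h1
  · rw [gt_top ht, show N - (t + 1) = N - t by omega]

theorem okZ_anti {cap cap2 t : ℕ} (hok : okZ i h N ep th F cap cap2 (t + 1) (gt h N (t + 1) z w) x) :
    okZ i h N ep th F cap cap2 t (gt h N t z w) x :=
  ⟨(Lf_suf z w x t).length_le.trans hok.1, (cumZ_mono z w x t).trans hok.2⟩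

theorem okZ_le {cap cap2 u t : ℕ} (hu : u ≤ t) (hok : okZ i h N ep th F cap cap2 t (gt h N t z w) x) :
    okZ i h N ep th F cap cap2 u (gt h N u z w) x := by
  induction t, hu using Nat.le_induction with
  | base => exact hok
  | succ t _ ih => exact ih (okZ_anti z w x hok)

/-- nothing is frozen as long as `okZ` holds -/
theorem FLZ_eq {cap cap2 t : ℕ} (hok : okZ i h N ep th F cap cap2 t (gt h N t z w) x) :
    FLZ i h N ep th F cap cap2 t (gt h N t z w) x = Lf i h N ep th F (N - t) (gt h N t z w) x := by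
  classical
  induction t with
  | zero =>
    unfold FLZ
    rw [if_pos hok, Nat.sub_zero]
  | succ t ih =>
    unfold FLZ
    by_cases ht : t < N
    · rw [if_pos ht, if_pos hok]
    · rw [if_neg ht]
      have h1 := ih (okZ_anti z w x hok)
      rw [gt_top ht, h1, show N - (t + 1) = N - t by omega]

/-- the step of the frozen lists -/
theorem FLZ_step (cap cap2 t : ℕ) :
    (t < N ∧ okZ i h N ep th F cap cap2 (t + 1) (gt h N (t + 1) z w) x ∧
      FLZ i h N ep th F cap cap2 (t + 1) (gt h N (t + 1) z w) x =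
        Lf i h N ep th F (N - (t + 1)) (gt h N (t + 1) z w) x ∧
      FLZ i h N ep th F cap cap2 t (gt h N t z w) x = Lf i h N ep th F (N - t) (gt h N t z w) x) ∨
    FLZ i h N ep th F cap cap2 (t + 1) (gt h N (t + 1) z w) x = FLZ i h N ep th F cap cap2 t (gt h N t z w) x := by
  classical
  by_cases ht : t < N
  · by_cases hok : okZ i h N ep th F cap cap2 (t + 1) (gt h N (t + 1) z w) x
    · exact Or.inl ⟨ht, hok, FLZ_eq z w x hok, FLZ_eq z w x (okZ_anti z w x hok)⟩
    · right
      conv_lhs => unfold FLZ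
      rw [if_pos ht, if_neg hok, par_gt ht]
  · right
    conv_lhs => unfold FLZ
    rw [if_neg ht, gt_top ht]

theorem FLZ_suf (cap cap2 t : ℕ) :
    FLZ i h N ep th F cap cap2 t (gt h N t z w) x <:+
      FLZ i h N ep th F cap cap2 (t + 1) (gt h N (t + 1) z w) x := by
  rcases FLZ_step (i := i) (h := h) (N := N) (ep := ep) (th := th) (F := F) z w x cap cap2 t with ⟨_, _, h1, h2⟩ | h1
  · rw [h1, h2]
    exact Lf_suf z w x t
  · rw [h1]

theorem FLZ_new {cap cap2 t : ℕ} (hne : FLZ i h N ep th F cap cap2 (t + 1) (gt h N (t + 1) z w) x ≠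
    FLZ i h N ep th F cap cap2 t (gt h N t z w) x) :
    ∃ s ∈ FLZ i h N ep th F cap cap2 (t + 1) (gt h N (t + 1) z w) x, s.t = t + 1 := by
  rcases FLZ_step (i := i) (h := h) (N := N) (ep := ep) (th := th) (F := F) z w x cap cap2 t with ⟨ht, _, h1, h2⟩ | h1
  · rw [h1, h2] at hne
    have e1 : N - (t + 1) + 1 = N - t := by omega
    obtain ⟨s, h3, h4⟩ := Lf_new (i := i) (h := h) (N := N) (ep := ep) (th := th) (F := F) (e := N - (t + 1)) (by omega)
      (g := gt h N (t + 1) z w) (x := x) (by
        rw [par_gt ht, e1]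
        exact hne)
    rw [h1]
    exact ⟨s, h3, by omega⟩
  · exact absurd h1 hne

theorem FLZ_time (cap cap2 t : ℕ) : ∀ s ∈ FLZ i h N ep th F cap cap2 t (gt h N t z w) x, s.t ≤ t ∧ s.t ≤ N := by
  classical
  induction t with
  | zero =>
    intro s hs
    unfold FLZ at hs
    split_ifs at hs
    · have h1 := Lf_time hs
      omega
    · exact absurd hs List.not_mem_nil
  | succ t ih =>
    intro s hs
    rcases FLZ_step (i := i) (h := h) (N := N) (ep := ep) (th := th) (F := F) z w x cap cap2 t with ⟨ht, _, h1, _⟩ | h1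
    · rw [h1] at hs
      have h3 := Lf_time hs
      omega
    · rw [h1] at hs
      have h3 := ih s hs
      omega

/-- the births of a list are public births of the path -/
theorem Lf_sub_BSZ {t : ℕ} (htN : t ≤ N) : ∀ s ∈ Lf i h N ep th F (N - t) (gt h N t z w) x,
    s ∈ BSZ i h N ep th F t (gt h N t z w) x := by
  classical
  induction t with
  | zero =>
    intro s hs
    unfold BSZ
    rw [Nat.sub_zero] at hs
    exact mem_Lf_top hs
  | succ t ih =>
    intro s hs
    have ht : t < N := by omega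
    unfold BSZ
    rw [if_pos ht, par_gt ht, Finset.mem_union]
    rcases mem_Lf (by omega : N - (t + 1) < N) hs with h1 | h1
    · rw [par_gt ht, show N - (t + 1) + 1 = N - t by omega] at h1
      exact Or.inr (ih (by omega) s h1)
    · exact Or.inl h1

theorem BSZ_mono (t : ℕ) :
    BSZ i h N ep th F t (gt h N t z w) x ⊆ BSZ i h N ep th F (t + 1) (gt h N (t + 1) z w) x := by
  classical
  conv_rhs => unfold BSZ
  split_ifs with ht
  · rw [par_gt ht]
    exact Finset.subset_union_right
  · rw [gt_top ht]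

theorem BSZ_le {u t : ℕ} (hu : u ≤ t) :
    BSZ i h N ep th F u (gt h N u z w) x ⊆ BSZ i h N ep th F t (gt h N t z w) x := by
  induction t, hu using Nat.le_induction with
  | base => exact Finset.Subset.refl _
  | succ t _ ih => exact ih.trans (BSZ_mono z w x t)

/-- the births of a frozen list are public births of a time with few public births -/
theorem FLZ_sub (cap cap2 t : ℕ) : ∀ s ∈ FLZ i h N ep th F cap cap2 t (gt h N t z w) x,
    ∃ u ≤ t, u ≤ N ∧ cumZ i h N ep th F u (gt h N u z w) x ≤ cap2 ∧ s ∈ BSZ i h N ep th F u (gt h N u z w) x := by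
  classical
  induction t with
  | zero =>
    intro s hs
    unfold FLZ at hs
    split_ifs at hs with hok
    · refine ⟨0, le_rfl, Nat.zero_le _, hok.2, ?_⟩
      refine Lf_sub_BSZ z w x (Nat.zero_le _) s ?_
      rwa [Nat.sub_zero]
    · exact absurd hs List.not_mem_nil
  | succ t ih =>
    intro s hs
    rcases FLZ_step (i := i) (h := h) (N := N) (ep := ep) (th := th) (F := F) z w x cap cap2 t with ⟨ht, hok, h1, _⟩ | h1
    · rw [h1] at hs
      exact ⟨t + 1, le_rfl, ht, hok.2, Lf_sub_BSZ z w x ht s hs⟩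
    · rw [h1] at hs
      obtain ⟨u, h2, h3⟩ := ih s hs
      exact ⟨u, h2.trans (Nat.le_succ t), h3⟩

/-- ONE SET of at most `cap2` births contains the births of all the frozen lists of the pairs in the same cells -/
theorem FLZ_pub (cap cap2 : ℕ) : ∃ BS : Finset (Birth (TJ k P i → Bool)), BS.card ≤ cap2 ∧
    ∀ (t : ℕ) (z' : V k) (w' : ℕ) (x' : ι → P × V k), (∀ u ≤ t, gt h N u z' w' = gt h N u z w) →
      sameX i h N t x' x → ∀ s ∈ FLZ i h N ep th F cap cap2 t (gt h N t z' w') x', s ∈ BS := by
  classical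
  by_cases h0 : cumZ i h N ep th F 0 (gt h N 0 z w) x ≤ cap2
  · set us := Nat.findGreatest (fun u => cumZ i h N ep th F u (gt h N u z w) x ≤ cap2) N with hus
    have h1 : cumZ i h N ep th F us (gt h N us z w) x ≤ cap2 :=
      Nat.findGreatest_spec (P := fun u => cumZ i h N ep th F u (gt h N u z w) x ≤ cap2) (Nat.zero_le N) h0
    refine ⟨BSZ i h N ep th F us (gt h N us z w) x, (card_BSZ _ _ _).trans h1, ?_⟩
    intro t z' w' x' hg hs s hsm
    obtain ⟨u, hu, huN, hc, hm⟩ := FLZ_sub z' w' x' cap cap2 t s hsm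
    rw [hg u hu, cumZ_congr u _ (hs.mono hu)] at hc
    rw [hg u hu, BSZ_congr u _ (hs.mono hu)] at hm
    exact BSZ_le z w x (Nat.le_findGreatest huN hc) hm
  · refine ⟨∅, by simp, ?_⟩
    intro t z' w' x' hg hs s hsm
    exfalso
    obtain ⟨u, hu, _, hc, _⟩ := FLZ_sub z' w' x' cap cap2 t s hsm
    rw [hg u hu, cumZ_congr u _ (hs.mono hu)] at hc
    exact h0 ((cumZ_le z w x (Nat.zero_le u)).trans hc)

/-- number of the changes of the frozen list -/
theorem FLZ_moves (cap cap2 : ℕ) (m : ℕ) : ∑ t ∈ range m,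
    ind (FLZ i h N ep th F cap cap2 (t + 1) (gt h N (t + 1) z w) x ≠
      FLZ i h N ep th F cap cap2 t (gt h N t z w) x) ≤ (cap : ℝ) := by
  have h1 : ∑ t ∈ range m, ind (FLZ i h N ep th F cap cap2 (t + 1) (gt h N (t + 1) z w) x ≠
      FLZ i h N ep th F cap cap2 t (gt h N t z w) x) ≤
      ((FLZ i h N ep th F cap cap2 m (gt h N m z w) x).length : ℝ) := by
    induction m with
    | zero => simp
    | succ m ih =>
      rw [Finset.sum_range_succ]
      have hsuf := FLZ_suf (i := i) (h := h) (N := N) (ep := ep) (th := th) (F := F) z w x cap cap2 m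
      by_cases hne : FLZ i h N ep th F cap cap2 (m + 1) (gt h N (m + 1) z w) x ≠
          FLZ i h N ep th F cap cap2 m (gt h N m z w) x
      · rw [ind_of hne]
        have h2 : (FLZ i h N ep th F cap cap2 m (gt h N m z w) x).length <
            (FLZ i h N ep th F cap cap2 (m + 1) (gt h N (m + 1) z w) x).length := by
          rcases Nat.lt_or_ge (FLZ i h N ep th F cap cap2 m (gt h N m z w) x).length
            (FLZ i h N ep th F cap cap2 (m + 1) (gt h N (m + 1) z w) x).length with h3 | h3
          · exact h3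
          · exact absurd (hsuf.eq_of_length (le_antisymm hsuf.length_le h3)).symm hne
        have h3 : ((FLZ i h N ep th F cap cap2 m (gt h N m z w) x).length : ℝ) + 1 ≤
            (FLZ i h N ep th F cap cap2 (m + 1) (gt h N (m + 1) z w) x).length := by exact_mod_cast h2
        linarith
      · rw [ind_not hne, add_zero]
        have h2 : ((FLZ i h N ep th F cap cap2 m (gt h N m z w) x).length : ℝ) ≤
            (FLZ i h N ep th F cap cap2 (m + 1) (gt h N (m + 1) z w) x).length := by
          exact_mod_cast hsuf.length_le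
        linarith
  exact h1.trans (by exact_mod_cast FLZ_len cap cap2 m _ _)

/-- the total number of public births of the path -/
theorem cumZ_sum (t : ℕ) (ht : t ≤ N) : (cumZ i h N ep th F t (gt h N t z w) x : ℝ) =
    ∑ u ∈ range (t + 1), (Pf i h N ep th F (N - u) (gt h N u z w) x : ℝ) := by
  induction t with
  | zero =>
    rw [zero_add, Finset.sum_range_one, Nat.sub_zero]
    rfl
  | succ t ih =>
    rw [Finset.sum_range_succ, ← ih (by omega)]
    have h1 : cumZ i h N ep th F (t + 1) (gt h N (t + 1) z w) x =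
        Pf i h N ep th F (N - (t + 1)) (gt h N (t + 1) z w) x + cumZ i h N ep th F t (gt h N t z w) x := by
      conv_lhs => unfold cumZ
      rw [if_pos (show t < N by omega), par_gt (by omega)]
    rw [h1]
    push_cast
    ring


/-! ### dependence on the vertices -/

theorem cumZ_on (i : ι) (h N : ℕ) (ep th : ℝ) (F : (ι → P × V k) → V k → ℝ) (t : ℕ) : ∀ g : V k × ℕ,
    DependsOn (cumZ i h N ep th F t g) ({i}ᶜ : Set ι) := by
  induction t with
  | zero =>
    intro g x y hxy
    unfold cumZ
    exact Pf_on i h N ep th F N g hxy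
  | succ t ih =>
    intro g x y hxy
    unfold cumZ
    rw [Pf_on i h N ep th F _ g hxy, ih _ hxy, ih _ hxy]

theorem okZ_on (i : ι) (h N : ℕ) (ep th : ℝ) (F : (ι → P × V k) → V k → ℝ) (cap cap2 t : ℕ) (g : V k × ℕ) :
    DependsOn (okZ i h N ep th F cap cap2 t g) ({i}ᶜ : Set ι) := by
  intro x y hxy
  unfold okZ
  rw [Lf_on i h N ep th F _ g hxy, cumZ_on i h N ep th F t g hxy]

theorem FLZ_on (i : ι) (h N : ℕ) (ep th : ℝ) (F : (ι → P × V k) → V k → ℝ) (cap cap2 : ℕ) (t : ℕ) :
    ∀ g : V k × ℕ, DependsOn (FLZ i h N ep th F cap cap2 t g) ({i}ᶜ : Set ι) := by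
  classical
  induction t with
  | zero =>
    intro g x y hxy
    unfold FLZ
    simp only [okZ_on i h N ep th F cap cap2 0 g hxy, Lf_on i h N ep th F _ g hxy]
  | succ t ih =>
    intro g x y hxy
    unfold FLZ
    simp only [okZ_on i h N ep th F cap cap2 (t + 1) g hxy, Lf_on i h N ep th F _ g hxy, ih _ hxy]

/-- the structured function as `psi` of its list -/
theorem Sf_psi (e : ℕ) (g : V k × ℕ) (x : ι → P × V k) (d : V k) : Sf i h N ep th F e g x d =
    psi ep ((Lf i h N ep th F e g x).map fun s => ∏ w ∈ univ.erase i, sgw i w s x d) := by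
  unfold Sf SB struc
  have h2 : (fun s : Birth (TJ k P i → Bool) => (faceTests k P i).val s.τ (restr i x) d) =
      (fun s => ∏ w ∈ univ.erase i, sgw i w s x d) := funext fun s => faceTests_val i s x d
  rw [h2]
  rfl

section SZ

/-- the frozen structured function -/
def SZ (i : ι) (h N : ℕ) (ep th : ℝ) (F : (ι → P × V k) → V k → ℝ) (cap cap2 t : ℕ) (g : V k × ℕ) (x : ι → P × V k)
    (d : V k) : ℝ :=
  psi ep ((FLZ i h N ep th F cap cap2 t g x).map (fun s => ∏ w ∈ univ.erase i, sgw i w s x d))

variable {cap cap2 : ℕ}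

theorem abs_SZ (t : ℕ) (g : V k × ℕ) (x : ι → P × V k) (d : V k) : |SZ i h N ep th F cap cap2 t g x d| ≤ 1 :=
  abs_psi _ _

theorem SZ_eq {t : ℕ} {z : V k} {w : ℕ} {x : ι → P × V k} (hok : okZ i h N ep th F cap cap2 t (gt h N t z w) x)
    (d : V k) : SZ i h N ep th F cap cap2 t (gt h N t z w) x d = Sf i h N ep th F (N - t) (gt h N t z w) x d := by
  rw [Sf_psi, ← FLZ_eq z w x hok]
  rfl

theorem SZ_on (i : ι) (h N : ℕ) (ep th : ℝ) (F : (ι → P × V k) → V k → ℝ) (cap cap2 t : ℕ) (g : V k × ℕ) :
    DependsOn (SZ i h N ep th F cap cap2 t g) ({i}ᶜ : Set ι) := by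
  intro x y hxy
  funext d
  have h1 : ∀ (w : ι) (s : Birth (TJ k P i → Bool)), w ∈ univ.erase i → sgw i w s x d = sgw i w s y d := by
    intro w s _
    have h2 : DependsOn (sgw i w s) ({i}ᶜ : Set ι) := fun u v huv => sgw_on i w s fun j hj => huv j fun hji =>
      hj (Or.inl hji)
    rw [h2 hxy]
  unfold SZ
  rw [FLZ_on i h N ep th F cap cap2 t g hxy]
  congr 2
  funext s
  exact Finset.prod_congr rfl fun w hw => h1 w s hw

end SZ


/-! ### the bad event -/

section bad

variable {Θ : Type} [Fintype Θ] [Nonempty Θ] {cap cap2 : ℕ}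

/-- the list of the face `i` is too long, or there are too many public births -/
def BadF (s : V k) (h : ℕ) (ep th : ℝ) (F : (ι → P × V k) → V k → ℝ) (cap cap2 : ℕ) (i : ι)
    (ω : Sq k N ι Θ P) : Prop :=
  ¬ okZ i h N ep th F cap cap2 N (gt h N N (ctr s ω) (nz ω)) (vs ω)

theorem okZ_of_not_bad {s : V k} {i : ι} {ω : Sq k N ι Θ P} (hb : ¬ BadF s h ep th F cap cap2 i ω) {t : ℕ} (ht : t ≤ N) :
    okZ i h N ep th F cap cap2 t (gt h N t (ctr s ω) (nz ω)) (vs ω) := by
  unfold BadF at hb
  rw [not_not] at hb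
  exact okZ_le _ _ _ ht hb

theorem Pr_BadF (s : V k) (i : ι) (hF : ∀ x d, |F x d| ≤ 1) (hep : 0 < ep) (hth : 0 < th)
    (hrd : 32 * ((2 : ℝ) ^ h)⁻¹ ≤ ep ^ 2) {J : ℕ} (hcap : (J : ℝ) * (64 / (3 * ep ^ 2)) ≤ cap) (hcap2 : 0 < cap2) :
    (Pm : FP (Sq k N ι Θ P)).Pr (BadF s h ep th F cap cap2 i) ≤ (1 / 2) ^ J + 32 / (ep ^ 3 * th) / cap2 := by
  have h1 := Lf_tail (k := k) (N := N) (Θ := Θ) (P := P) (h := h) (ep := ep) (th := th) (F := F) s i hF hep hrd J
  have h2 := Pf_mean (k := k) (N := N) (Θ := Θ) (P := P) (h := h) (ep := ep) (th := th) (F := F) s i hF hep hth hrd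
  set X : Sq k N ι Θ P → ℝ := fun ω => ∑ e ∈ range (N + 1),
      (Pf i h N ep th F e (Gm s h e ω) (vs ω) : ℝ) with hX
  have hc : (0 : ℝ) < cap2 := by exact_mod_cast hcap2
  have hsum : ∀ ω : Sq k N ι Θ P, (cumZ i h N ep th F N (gt h N N (ctr s ω) (nz ω)) (vs ω) : ℝ) =
      X ω := by
    intro ω
    rw [cumZ_sum _ _ _ N le_rfl, hX]
    simp only
    rw [← Finset.sum_range_reflect]
    refine Finset.sum_congr rfl fun u hu => ?_
    have hu' := Finset.mem_range.1 hu
    have e1 : N + 1 - 1 - u = N - u := by omega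
    have e2 : N - (N - u) = u := by omega
    rw [e1]
    unfold gt Gm
    rw [e2]
  have h3 : (Pm : FP (Sq k N ι Θ P)).Pr (fun ω => (cap2 : ℝ) ≤ X ω) ≤ 32 / (ep ^ 3 * th) / cap2 := by
    rw [le_div_iff₀ hc, mul_comm]
    refine (FP.markov _ (fun ω _ => ?_) _).trans h2
    exact Finset.sum_nonneg fun _ _ => Nat.cast_nonneg _
  refine le_trans (FP.Pr_mono _ (t := fun ω => ((J : ℝ) * (64 / (3 * ep ^ 2)) ≤ Llen s h i ep th F 0 ω) ∨
    ((cap2 : ℝ) ≤ X ω)) fun ω _ hb => ?_) ((FP.Pr_or_le _ _ _).trans (add_le_add h1 h3))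
  unfold BadF okZ at hb
  rw [not_and_or] at hb
  rcases hb with hb | hb
  · left
    refine hcap.trans ?_
    rw [not_le] at hb
    have h4 : (Lf i h N ep th F (N - N) (gt h N N (ctr s ω) (nz ω)) (vs ω)).length =
        (Lf i h N ep th F 0 (Gm s h 0 ω) (vs ω)).length := by
      unfold gt Gm
      rw [Nat.sub_self]
    rw [h4] at hb
    unfold Llen
    exact_mod_cast hb.le
  · right
    rw [not_le] at hb
    rw [← hsum ω]
    exact_mod_cast hb.le

end bad


end

end Pool.Agent.GM
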