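import Pool.Agent.GM.Ref
import Pool.Agent.GM.FrzL
import Pool.Agent.GM.LstZ
import Pool.Agent.GM.KVer

/-!
# GM/PcMov (helper43): the faces of the pieces of the layers of `GM/S1Lay` as MOVING FACES of a piece

Geometry `S = binSys Θ Ξ Q σ a hN h` (coins of the vertex `a`, not used), static originals `F : ι → (ι → Q × V k) → V k → ℝ`.
CONVENTION: the time `0` is killed (value `0`); the births of the time `0` of the lists of `GM/S1Mod` get the time `1`
(`rb` : their numbers become even, those of the other births odd), so that nothing else changes; value `/ 4`.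
* `fgt : Sq k N ι Θ (Ξ × Q) → Sq k N ι Unit Q` forgets the public randomness and the coins; `E_fgt`, `Pr_fgt` (law),
  `future_fgt` (future counts from every state of `S`, from those of `GM/S1Mod`);
* `sL`, `sB` : the lists and the births of one layer as moving objects; **`blS`** : `GS.BL S univ i m T` with
  `m = 64 / (3 ep^2) + 1`, `T = 32 / (ep^3 th)`;
* `rare_PT` : `PT i h N R θ r 1` ==> `S.Rare univ i (R / 4) θ (r / 4 + 8 / 2^h)`;
* `pF L N F n q : ι → Mov` the faces of the piece `Pc N L F n q`, divided by `4`;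
  **`pc_faces`** : `GS.Faces (binSys .. (L.lh (n+1))) univ δ (pF ..) m (tp) (rp / 4 + 8 / 2 ^ lh (n+1))`;
  **`pc_str`** : `GS.StrF .. univ δ q (pF .. q) m (32 / (lep^3 lth (n+1)))`, `m = mL L n`;
* **`pc_facesT`, `pc_strT`** : the same at every finer rounding `h' ≥ L.lh (n+1)` : `GS.FacesT`, `GS.StrT`;
* **`pc_val`** : for `1 ≤ t ≤ N` the process of the faces is `TT σ (L.lh (n+1)) (Pc N L F n q) (ex N t) (fgt ω) / 4 ^ m`;
  `pc_Pr` : probability of an event of `fgt ω`.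
-/

set_option autoImplicit false
set_option linter.unusedSectionVars false

namespace Pool.Agent.GM

open Finset Pool.Agent.PWZ Pool.Agent.M3 Pool.Agent.M3.TS Pool.Agent.M3.Bin Pool.Agent.GM Pool.Agent.GM.Mv
open Pool.Agent.M3.Mod (ex ex_zero ex_succ ex_top exk ex_anti nd av dl pnd SC cel abs_av_le)

noncomputable section

namespace PcM

/-! ## forgetting the public randomness and the coins -/

section forget

variable {k N : ℕ} {ι Θ Ξ Q : Type}

/-- forget the public randomness and the coins -/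
def fgt (ω : Sq k N ι Θ (Ξ × Q)) : Sq k N ι Unit Q := ((), (fun j => ((ω.2.1 j).1.2, (ω.2.1 j).2)), ω.2.2)

/-- public randomness and coins apart -/
def fgE (k N : ℕ) (ι Θ Ξ Q : Type) : Sq k N ι Θ (Ξ × Q) ≃ (Θ × (ι → Ξ)) × Sq k N ι Unit Q where
  toFun ω := ((ω.1, fun j => (ω.2.1 j).1.1), fgt ω)
  invFun q := (q.1.1, (fun j => ((q.1.2 j, (q.2.2.1 j).1), (q.2.2.1 j).2)), q.2.2.2)
  left_inv _ := rfl
  right_inv _ := rfl

theorem fgt_symm (z : Θ × (ι → Ξ)) (v : Sq k N ι Unit Q) : fgt ((fgE k N ι Θ Ξ Q).symm (z, v)) = v := rfl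

theorem vs_fgt (ω : Sq k N ι Θ (Ξ × Q)) : vs (fgt ω) = vm ω := rfl

theorem nz_fgt (ω : Sq k N ι Θ (Ξ × Q)) : nz (fgt ω) = nz ω := rfl

variable [Fintype ι] [DecidableEq ι] (σ : V k)

theorem ctr_fgt (ω : Sq k N ι Θ (Ξ × Q)) : ctr σ (fgt ω) = ctr σ ω := rfl

theorem Gm_fgt (h e : ℕ) (ω : Sq k N ι Θ (Ξ × Q)) : Gm σ h e (fgt ω) = (gv σ h e ω).2 := rfl

theorem Yn_fgt (e : ℕ) (ω : Sq k N ι Θ (Ξ × Q)) : Yn σ e (fgt ω) = Yn σ e ω := rfl

variable [Fintype Θ] [Nonempty Θ] [Fintype Ξ] [Nonempty Ξ] [Fintype Q] [Nonempty Q]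

/-- the law -/
theorem E_fgE (f : Sq k N ι Θ (Ξ × Q) → ℝ) : (PM k N ι Θ Ξ Q).E f = ((Fintype.card (Θ × (ι → Ξ)) : ℝ))⁻¹ *
    ∑ z : Θ × (ι → Ξ), (Pm : FP (Sq k N ι Unit Q)).E (fun v => f ((fgE k N ι Θ Ξ Q).symm (z, v))) := by
  have h1 : ∀ z : Θ × (ι → Ξ), (Pm : FP (Sq k N ι Unit Q)).E (fun v => f ((fgE k N ι Θ Ξ Q).symm (z, v))) =
      (∑ v, f ((fgE k N ι Θ Ξ Q).symm (z, v))) / Fintype.card (Sq k N ι Unit Q) := fun z => FP.unif_E _ _
  have h2 : (PM k N ι Θ Ξ Q).E f = (∑ w, f w) / Fintype.card (Sq k N ι Θ (Ξ × Q)) := FP.unif_E _ _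
  rw [Finset.sum_congr rfl fun z _ => h1 z, h2, ← Finset.sum_div, Fintype.card_congr (fgE k N ι Θ Ξ Q),
    Fintype.card_prod, ← Equiv.sum_comp (fgE k N ι Θ Ξ Q).symm, Fintype.sum_prod_type]
  push_cast
  have h3 : (Fintype.card (Sq k N ι Unit Q) : ℝ) ≠ 0 := Nat.cast_ne_zero.mpr Fintype.card_ne_zero
  have h4 : (Fintype.card (Θ × (ι → Ξ)) : ℝ) ≠ 0 := Nat.cast_ne_zero.mpr Fintype.card_ne_zero
  rw [inv_mul_eq_div, div_div, mul_comm]

theorem E_fgt (X : Sq k N ι Unit Q → ℝ) :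
    (PM k N ι Θ Ξ Q).E (fun ω => X (fgt ω)) = (Pm : FP (Sq k N ι Unit Q)).E X := by
  rw [E_fgE]
  have h1 : ∀ z : Θ × (ι → Ξ), (Pm : FP (Sq k N ι Unit Q)).E (fun v => X (fgt ((fgE k N ι Θ Ξ Q).symm (z, v)))) =
      (Pm : FP (Sq k N ι Unit Q)).E X := fun z => rfl
  rw [Finset.sum_congr rfl fun z _ => h1 z, Finset.sum_const, Finset.card_univ, nsmul_eq_mul, ← mul_assoc,
    inv_mul_cancel₀ (Nat.cast_ne_zero.mpr Fintype.card_ne_zero), one_mul]

theorem Pr_fgt (A : Sq k N ι Unit Q → Prop) :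
    (PM k N ι Θ Ξ Q).Pr (fun ω => A (fgt ω)) = (Pm : FP (Sq k N ι Unit Q)).Pr A :=
  E_fgt (fun v => ind (A v))

/-- **mean future value of a function of the forgetful point, from every state** -/
theorem future_fgt (a i : ι) (hN : N ≤ k) (h t : ℕ) {X : Sq k N ι Unit Q → ℝ} {C : ℝ}
    (hX : ∀ f : Sq k N ι Unit Q → ℝ, Fac (fun v => (ot i v, Yn σ (ex N t) v)) f → (∀ v, 0 ≤ f v) →
      (Pm : FP (Sq k N ι Unit Q)).E (fun v => f v * X v) ≤ C * (Pm : FP (Sq k N ι Unit Q)).E f)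
    {φ : Sq k N ι Θ (Ξ × Q) → ℝ} (hφ : Fac ((binSys Θ Ξ Q σ a hN h).stI (univ.erase i) t) φ) (hφ0 : ∀ ω, 0 ≤ φ ω) :
    (PM k N ι Θ Ξ Q).E (fun ω => φ ω * X (fgt ω)) ≤ C * (PM k N ι Θ Ξ Q).E φ := by
  rw [E_fgE, E_fgE φ, mul_left_comm]
  refine mul_le_mul_of_nonneg_left ?_ (by positivity)
  rw [Finset.mul_sum]
  refine Finset.sum_le_sum fun z _ => ?_
  refine hX (fun v => φ ((fgE k N ι Θ Ξ Q).symm (z, v))) (fun v w hvw => ?_) (fun v => hφ0 _)
  simp only [Prod.mk.injEq] at hvw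
  obtain ⟨h1, h2⟩ := hvw
  refine hφ _ _ ?_
  unfold Sys.stI
  simp only [Prod.mk.injEq]
  refine ⟨rfl, res_eq.2 fun j hj => ?_, ?_⟩
  · exact congrFun h1 ⟨j, Finset.ne_of_mem_erase hj⟩
  · refine Prod.ext rfl ?_
    show G h (ex N t) (ctr σ v) (nz v) = G h (ex N t) (ctr σ w) (nz w)
    have h3 : nd (ex N t) (ctr σ v) (nz v) = nd (ex N t) (ctr σ w) (nz w) := h2
    unfold nd at h3
    simp only [Prod.mk.injEq] at h3
    unfold G gam
    rw [h3.1, h3.2]

end forget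

/-! ## the births of one layer as moving objects -/

section births

variable {k N : ℕ} {ι Q : Type} [Fintype ι] [DecidableEq ι] [Fintype Q] [Nonempty Q] [Nontrivial ι]

/-- the indices of the signs -/
def tjm (i : ι) (j : TJs (Q × V k) (V k) (univ : Finset ι) i) : TJ k Q i :=
  ⟨⟨j.1.1, Finset.ne_of_mem_erase j.1.2⟩, j.2⟩

theorem tjm_surj (i : ι) : Function.Surjective (tjm (k := k) (Q := Q) i) := by
  rintro ⟨w, y⟩
  exact ⟨⟨⟨w.1, Finset.mem_erase.2 ⟨w.2, mem_univ _⟩⟩, y⟩, rfl⟩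

/-- a birth of `GM/S1Mod` as a birth of a moving face; the births of the time `0` get the time `1` -/
def rb (i : ι) (s : Birth (TJ k Q i → Bool)) : Birth (TJs (Q × V k) (V k) (univ : Finset ι) i → Bool) :=
  ⟨if s.t = 0 then 1 else s.t, 2 * s.k + (if s.t = 0 then 0 else 1), fun j => s.τ (tjm i j)⟩

theorem rb_t (i : ι) {s : Birth (TJ k Q i → Bool)} (h : s.t ≠ 0) : (rb i s).t = s.t := by
  show (if s.t = 0 then 1 else s.t) = s.t
  rw [if_neg h]

theorem rb_t0 (i : ι) {s : Birth (TJ k Q i → Bool)} (h : s.t = 0) : (rb i s).t = 1 := by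
  show (if s.t = 0 then 1 else s.t) = 1
  rw [if_pos h]

theorem rb_inj (i : ι) : Function.Injective (rb (k := k) (Q := Q) i) := by
  intro s s' h
  have h1 : (rb i s).t = (rb i s').t := by rw [h]
  have h2 : 2 * s.k + (if s.t = 0 then 0 else 1) = 2 * s'.k + (if s'.t = 0 then 0 else 1) := by
    have : (rb i s).k = (rb i s').k := by rw [h]
    exact this
  have h3 : (rb i s).τ = (rb i s').τ := by rw [h]
  have h4 : s.τ = s'.τ := by
    funext j
    obtain ⟨j', rfl⟩ := tjm_surj i j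
    exact congrFun h3 j'
  have h5 : s.t = s'.t ∧ s.k = s'.k := by
    by_cases a : s.t = 0 <;> by_cases b : s'.t = 0
    · rw [if_pos a, if_pos b] at h2
      exact ⟨a.trans b.symm, by omega⟩
    · rw [if_pos a, if_neg b] at h2
      omega
    · rw [if_neg a, if_pos b] at h2
      omega
    · rw [if_neg a, if_neg b] at h2
      rw [rb_t i a, rb_t i b] at h1
      exact ⟨h1, by omega⟩
  cases s
  cases s'
  simp only at h4 h5
  obtain ⟨rfl, rfl⟩ := h5
  subst h4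
  rfl

theorem msgn_rb (i : ι) {w : ι} (hw : w ∈ univ.erase i) (s : Birth (TJ k Q i → Bool)) (x : ι → Q × V k) (d : V k) :
    msgn (univ : Finset ι) i w (rb i s) x d = sgw i w s x d := by
  unfold msgn sgw
  rw [dif_pos hw, dif_pos (Finset.ne_of_mem_erase hw)]
  rfl

theorem mvals_rb (i : ι) (l : List (Birth (TJ k Q i → Bool))) (x : ι → Q × V k) (d : V k) :
    mvals (univ : Finset ι) i (l.map (rb i)) x d = l.map (fun s => ∏ w ∈ univ.erase i, sgw i w s x d) := by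
  unfold mvals
  rw [List.map_map]
  refine List.map_congr_left fun s _ => ?_
  exact Finset.prod_congr rfl fun w hw => msgn_rb i hw s x d

end births

/-! ## the lists of one layer -/

section lay

variable {k : ℕ} {ι Θ Ξ Q : Type} [Fintype ι] [DecidableEq ι] [Fintype Q] [Nonempty Q] [Nontrivial ι]

/-- a function of all vertices but `i` -/
theorem dep_of {β : Type*} {i : ι} {f : (ι → Q × V k) → β} (hf : DependsOn f ({i}ᶜ : Set ι)) : Dep (univ.erase i) f :=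
  fun _ _ h => hf fun j hj => h j (Finset.mem_erase.2 ⟨hj, mem_univ _⟩)

/-- the node of the time `0` above a node of the time `1` -/
def pr0 (h N : ℕ) (g : V k × ℕ) : V k × ℕ := if 0 < N then Bin.par h (ex N 1) g else g

variable (Θ Ξ) (i : ι) (h N : ℕ) (ep th : ℝ) (F : (ι → Q × V k) → V k → ℝ)

/-- the lists of one layer as a moving object -/
def sL : Mov Ξ ι (Q × V k) (Θ × (V k × ℕ)) (List (Birth (TJs (Q × V k) (V k) (univ : Finset ι) i → Bool))) :=
  fun t g _ x => if t = 0 then [] else (Lf i h N ep th F (ex N t) g.2 x).map (rb i)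

open Classical in
/-- the births of the nodes -/
def sB : Mov Ξ ι (Q × V k) (Θ × (V k × ℕ)) (Finset (Birth (TJs (Q × V k) (V k) (univ : Finset ι) i → Bool))) :=
  fun t g _ x => if t = 0 then ∅ else
    if t = 1 then (Bf i h N ep th F (ex N 1) g.2 x ∪ Bf i h N ep th F N (pr0 h N g.2) x).image (rb i) else
    if t ≤ N then (Bf i h N ep th F (ex N t) g.2 x).image (rb i) else ∅

variable {Θ Ξ i h N ep th F}

theorem sL_zero (g : Θ × (V k × ℕ)) (ξ : Ξ) (x : ι → Q × V k) : sL Θ Ξ i h N ep th F 0 g ξ x = [] := if_pos rfl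

theorem sL_pos {t : ℕ} (ht : t ≠ 0) (g : Θ × (V k × ℕ)) (ξ : Ξ) (x : ι → Q × V k) :
    sL Θ Ξ i h N ep th F t g ξ x = (Lf i h N ep th F (ex N t) g.2 x).map (rb i) := if_neg ht

theorem sL_dep (t : ℕ) (g : Θ × (V k × ℕ)) (ξ : Ξ) : Dep (univ.erase i) (sL Θ Ξ i h N ep th F t g ξ) := by
  refine dep_of fun x y hxy => ?_
  by_cases ht : t = 0
  · rw [ht, sL_zero, sL_zero]
  · rw [sL_pos ht, sL_pos ht, Lf_on i h N ep th F (ex N t) g.2 hxy]

open Classical in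
theorem sB_one (g : Θ × (V k × ℕ)) (ξ : Ξ) (x : ι → Q × V k) : sB Θ Ξ i h N ep th F 1 g ξ x =
    (Bf i h N ep th F (ex N 1) g.2 x ∪ Bf i h N ep th F N (pr0 h N g.2) x).image (rb i) := by
  unfold sB
  rw [if_neg one_ne_zero, if_pos rfl]

open Classical in
theorem sB_pos {t : ℕ} (ht : 2 ≤ t) (htN : t ≤ N) (g : Θ × (V k × ℕ)) (ξ : Ξ) (x : ι → Q × V k) :
    sB Θ Ξ i h N ep th F t g ξ x = (Bf i h N ep th F (ex N t) g.2 x).image (rb i) := by
  unfold sB
  rw [if_neg (by omega), if_neg (by omega), if_pos htN]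

theorem sB_zero (g : Θ × (V k × ℕ)) (ξ : Ξ) (x : ι → Q × V k) : sB Θ Ξ i h N ep th F 0 g ξ x = ∅ := by
  unfold sB
  rw [if_pos rfl]

theorem sB_top {t : ℕ} (ht : 2 ≤ t) (htN : ¬ t ≤ N) (g : Θ × (V k × ℕ)) (ξ : Ξ) (x : ι → Q × V k) :
    sB Θ Ξ i h N ep th F t g ξ x = ∅ := by
  unfold sB
  rw [if_neg (by omega), if_neg (by omega), if_neg htN]

theorem ex_le_N (N t : ℕ) : ex N t ≤ N := Nat.sub_le N t

theorem sB_congr {t : ℕ} (g : Θ × (V k × ℕ)) (ξ ξ' : Ξ) {x y : ι → Q × V k}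
    (hxy : ∀ l, l ≠ i → flr (ex N t - (h + 3)) (y l).2 = flr (ex N t - (h + 3)) (x l).2) :
    sB Θ Ξ i h N ep th F t g ξ' y = sB Θ Ξ i h N ep th F t g ξ x := by
  rcases Nat.lt_or_ge t 2 with ht | ht
  · rcases Nat.lt_or_ge t 1 with h0 | h0
    · have : t = 0 := by omega
      subst this
      rw [sB_zero, sB_zero]
    · have : t = 1 := by omega
      subst this
      rw [sB_one, sB_one, Bf_congr (ex_le_N N 1) g.2 hxy,
        Bf_congr (le_refl N) (pr0 h N g.2) fun l hl => flr_mono_eq (by unfold ex; omega) (hxy l hl)]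
  · by_cases htN : t ≤ N
    · rw [sB_pos ht htN, sB_pos ht htN, Bf_congr (ex_le_N N t) g.2 hxy]
    · rw [sB_top ht htN, sB_top ht htN]

/-- parents -/
def parB (h N t : ℕ) (g : Θ × (V k × ℕ)) : Θ × (V k × ℕ) := if t < N then (g.1, Bin.par h (ex N (t + 1)) g.2) else g

theorem sL_top {t : ℕ} (ht : t ≠ 0) (htN : N ≤ t) (g : Θ × (V k × ℕ)) (ξ : Ξ) (x : ι → Q × V k) :
    sL Θ Ξ i h N ep th F (t + 1) g ξ x = sL Θ Ξ i h N ep th F t g ξ x := by
  rw [sL_pos (Nat.succ_ne_zero t), sL_pos ht, ex_top htN, ex_top (by omega)]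

theorem sL_suf (t : ℕ) (g : Θ × (V k × ℕ)) (ξ : Ξ) (x : ι → Q × V k) :
    sL Θ Ξ i h N ep th F t (parB h N t g) ξ x <:+ sL Θ Ξ i h N ep th F (t + 1) g ξ x := by
  by_cases ht : t = 0
  · subst ht
    rw [sL_zero]
    exact List.nil_suffix
  · by_cases htN : t < N
    · have h1 := Lf_mono (i := i) (h := h) (N := N) (ep := ep) (th := th) (F := F) (e := ex N (t + 1))
        (by unfold ex; omega) g.2 x
      rw [← ex_succ htN] at h1
      rw [sL_pos ht, sL_pos (Nat.succ_ne_zero t)]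
      unfold parB
      rw [if_pos htN]
      exact h1.map _
    · unfold parB
      rw [if_neg htN, sL_top ht (not_lt.1 htN)]

theorem sL_nodup (t : ℕ) (g : Θ × (V k × ℕ)) (ξ : Ξ) (x : ι → Q × V k) : (sL Θ Ξ i h N ep th F t g ξ x).Nodup := by
  by_cases ht : t = 0
  · subst ht
    rw [sL_zero]
    exact List.nodup_nil
  · rw [sL_pos ht]
    exact (Lf_nodup _ _ _).map (rb_inj i)

theorem sL_time (t : ℕ) (g : Θ × (V k × ℕ)) (ξ : Ξ) (x : ι → Q × V k) :
    ∀ s ∈ sL Θ Ξ i h N ep th F t g ξ x, s.t ≤ t := by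
  intro s hs
  by_cases ht : t = 0
  · subst ht
    rw [sL_zero] at hs
    exact absurd hs List.not_mem_nil
  · rw [sL_pos ht] at hs
    obtain ⟨s', hs', rfl⟩ := List.mem_map.1 hs
    have h1 := Lf_time hs'
    by_cases h0 : s'.t = 0
    · rw [rb_t0 i h0]
      omega
    · rw [rb_t i h0]
      unfold ex at h1
      omega

theorem sB_time (t : ℕ) (g : Θ × (V k × ℕ)) (ξ : Ξ) (x : ι → Q × V k) :
    ∀ s ∈ sB Θ Ξ i h N ep th F t g ξ x, s.t = t := by
  classical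
  intro s hs
  rcases Nat.lt_or_ge t 2 with ht | ht
  · rcases Nat.lt_or_ge t 1 with h0 | h0
    · have : t = 0 := by omega
      subst this
      rw [sB_zero] at hs
      exact absurd hs (Finset.notMem_empty s)
    · have : t = 1 := by omega
      subst this
      rw [sB_one] at hs
      obtain ⟨s', hs', rfl⟩ := Finset.mem_image.1 hs
      rcases Finset.mem_union.1 hs' with h1 | h1
      · have h2 := Bf_time h1
        by_cases h3 : s'.t = 0
        · exact rb_t0 i h3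
        · rw [rb_t i h3]
          unfold ex at h2
          omega
      · have h2 := Bf_time h1
        rw [Nat.sub_self] at h2
        exact rb_t0 i h2
  · by_cases htN : t ≤ N
    · rw [sB_pos ht htN] at hs
      obtain ⟨s', hs', rfl⟩ := Finset.mem_image.1 hs
      have h2 := Bf_time hs'
      unfold ex at h2
      rw [rb_t i (by omega)]
      omega
    · rw [sB_top ht htN] at hs
      exact absurd hs (Finset.notMem_empty s)

theorem sL_new (t : ℕ) (g : Θ × (V k × ℕ)) (ξ : Ξ) (x : ι → Q × V k) :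
    ∀ s ∈ sL Θ Ξ i h N ep th F (t + 1) g ξ x, s ∈ sL Θ Ξ i h N ep th F t (parB h N t g) ξ x ∨
      s ∈ sB Θ Ξ i h N ep th F (t + 1) g ξ x := by
  classical
  intro s hs
  rw [sL_pos (Nat.succ_ne_zero t)] at hs
  obtain ⟨s', hs', rfl⟩ := List.mem_map.1 hs
  by_cases ht : t = 0
  · subst ht
    right
    have hs2 : s' ∈ Lf i h N ep th F (ex N 1) g.2 x := hs'
    show rb i s' ∈ sB Θ Ξ i h N ep th F 1 g ξ x
    rw [sB_one]
    refine Finset.mem_image_of_mem _ (Finset.mem_union.2 ?_)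
    by_cases hN : 0 < N
    · have h1 := mem_Lf (i := i) (h := h) (N := N) (ep := ep) (th := th) (F := F) (e := ex N 1) (by unfold ex; omega) hs2
      rcases h1 with h1 | h1
      · right
        have h2 : ex N 1 + 1 = N := by unfold ex; omega
        rw [h2] at h1
        unfold pr0
        rw [if_pos hN]
        exact mem_Lf_top h1
      · exact Or.inl h1
    · have h0 : N = 0 := by omega
      subst h0
      exact Or.inl (mem_Lf_top hs2)
  · by_cases htN : t < N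
    · rcases mem_Lf (i := i) (h := h) (N := N) (ep := ep) (th := th) (F := F) (e := ex N (t + 1))
        (by unfold ex; omega) hs' with h1 | h1
      · left
        rw [← ex_succ htN] at h1
        rw [sL_pos ht]
        unfold parB
        rw [if_pos htN]
        exact List.mem_map_of_mem h1
      · right
        rw [sB_pos (by omega) (by omega)]
        exact Finset.mem_image_of_mem _ h1
    · left
      unfold parB
      rw [if_neg htN, sL_pos ht, ex_top (not_lt.1 htN)]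
      rw [ex_top (by omega)] at hs'
      exact List.mem_map_of_mem hs'

theorem card_sB_one (g : Θ × (V k × ℕ)) (ξ : Ξ) (x : ι → Q × V k) : (sB Θ Ξ i h N ep th F 1 g ξ x).card ≤
    Pf i h N ep th F (ex N 1) g.2 x + Pf i h N ep th F N (pr0 h N g.2) x := by
  classical
  rw [sB_one]
  exact Finset.card_image_le.trans ((Finset.card_union_le _ _).trans (add_le_add (card_Bf _ _ _) (card_Bf _ _ _)))

theorem card_sB_pos {t : ℕ} (ht : 2 ≤ t) (g : Θ × (V k × ℕ)) (ξ : Ξ) (x : ι → Q × V k) :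
    (sB Θ Ξ i h N ep th F t g ξ x).card ≤ Pf i h N ep th F (ex N t) g.2 x := by
  classical
  by_cases htN : t ≤ N
  · rw [sB_pos ht htN]
    exact Finset.card_image_le.trans (card_Bf _ _ _)
  · rw [sB_top ht htN]
    exact Nat.zero_le _

end lay

/-! ## the lists of one layer in the geometry -/

section bl

variable {k N : ℕ} {ι Θ Ξ Q : Type} [Fintype ι] [DecidableEq ι] [Nontrivial ι] (σ : V k) [Fintype Θ] [Nonempty Θ]
  [Fintype Ξ] [Nonempty Ξ] [Fintype Q] [Nonempty Q] (a i : ι) (hN : N ≤ k) {h : ℕ} {ep th : ℝ}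
  {F : (ι → Q × V k) → V k → ℝ}

/-- length of the list on the path -/
theorem sL_len {t : ℕ} (ht : t ≠ 0) (ω : Sq k N ι Θ (Ξ × Q)) :
    (((binSys Θ Ξ Q σ a hN h).at' (sL Θ Ξ i h N ep th F) t ω).length : ℝ) =
      Llen σ h i ep th F (ex N t) (fgt ω) := by
  show ((sL Θ Ξ i h N ep th F t (gv σ h (ex N t) ω) (xm a ω) (vm ω)).length : ℝ) = _
  rw [sL_pos ht, List.length_map]
  rfl

theorem Llen_step {t : ℕ} (ht : t < N) (v : Sq k N ι Unit Q) :
    Llen σ h i ep th F (ex N t) v ≤ Llen σ h i ep th F (ex N (t + 1)) v := by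
  have h1 := Llen_mono (Θ := Unit) (h := h) (ep := ep) (th := th) (F := F) σ i (e := ex N (t + 1))
    (by unfold ex; omega) v
  rwa [← ex_succ ht] at h1

theorem sL_chg {u : ℕ} (hu : u < N) (ω : Sq k N ι Θ (Ξ × Q)) :
    ind ((binSys Θ Ξ Q σ a hN h).at' (sL Θ Ξ i h N ep th F) (u + 1) ω ≠
      (binSys Θ Ξ Q σ a hN h).at' (sL Θ Ξ i h N ep th F) u ω) ≤
      (if u = 0 then 1 else 0) + (Llen σ h i ep th F (ex N (u + 1)) (fgt ω) - Llen σ h i ep th F (ex N u) (fgt ω)) := by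
  have h0 := Llen_step (h := h) (ep := ep) (th := th) (F := F) σ i hu (fgt ω)
  by_cases hu0 : u = 0
  · rw [if_pos hu0]
    have h1 := ind_le_one ((binSys Θ Ξ Q σ a hN h).at' (sL Θ Ξ i h N ep th F) (u + 1) ω ≠
      (binSys Θ Ξ Q σ a hN h).at' (sL Θ Ξ i h N ep th F) u ω)
    linarith
  · rw [if_neg hu0]
    by_cases hc : (binSys Θ Ξ Q σ a hN h).at' (sL Θ Ξ i h N ep th F) (u + 1) ω =
      (binSys Θ Ξ Q σ a hN h).at' (sL Θ Ξ i h N ep th F) u ω
    · rw [ind_not (fun h' => h' hc)]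
      linarith
    · rw [ind_of hc]
      have h1 : (binSys Θ Ξ Q σ a hN h).at' (sL Θ Ξ i h N ep th F) u ω <:+
          (binSys Θ Ξ Q σ a hN h).at' (sL Θ Ξ i h N ep th F) (u + 1) ω := by
        have h2 := sL_suf (i := i) (h := h) (N := N) (ep := ep) (th := th) (F := F) u
          ((binSys Θ Ξ Q σ a hN h).gm (u + 1) ω) ((binSys Θ Ξ Q σ a hN h).xi ω) ((binSys Θ Ξ Q σ a hN h).x ω)
        have h3 : parB h N u ((binSys Θ Ξ Q σ a hN h).gm (u + 1) ω) = (binSys Θ Ξ Q σ a hN h).gm u ω :=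
          (binSys Θ Ξ Q σ a hN h).par_gm u ω
        rw [h3] at h2
        exact h2
      have h4 := h1.length_le
      have h5 : ((binSys Θ Ξ Q σ a hN h).at' (sL Θ Ξ i h N ep th F) u ω).length ≠
          ((binSys Θ Ξ Q σ a hN h).at' (sL Θ Ξ i h N ep th F) (u + 1) ω).length :=
        fun h6 => hc (h1.eq_of_length h6).symm
      have h6 : ((binSys Θ Ξ Q σ a hN h).at' (sL Θ Ξ i h N ep th F) u ω).length + 1 ≤
          ((binSys Θ Ξ Q σ a hN h).at' (sL Θ Ξ i h N ep th F) (u + 1) ω).length := by omega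
      have h7 : (((binSys Θ Ξ Q σ a hN h).at' (sL Θ Ξ i h N ep th F) u ω).length : ℝ) + 1 ≤
          ((binSys Θ Ξ Q σ a hN h).at' (sL Θ Ξ i h N ep th F) (u + 1) ω).length := by exact_mod_cast h6
      rw [sL_len σ a i hN hu0, sL_len σ a i hN (Nat.succ_ne_zero u)] at h7
      linarith

/-- **future changes of the list from every state** -/
theorem sL_fut (hF : ∀ x d, |F x d| ≤ 1) (hep : 0 < ep) (hrd : 32 * ((2 : ℝ) ^ h)⁻¹ ≤ ep ^ 2) :
    (binSys Θ Ξ Q σ a hN h).Future (univ.erase i) (sL Θ Ξ i h N ep th F) (8 / ep ^ 2 + 1) := by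
  intro t φ hφ hφ0
  show ∑ u ∈ Finset.Ico t N, (PM k N ι Θ Ξ Q).E _ ≤ _ * (PM k N ι Θ Ξ Q).E φ
  have hE : 0 ≤ (PM k N ι Θ Ξ Q).E φ := FP.E_nonneg _ fun ω _ => hφ0 ω
  rcases Nat.lt_or_ge N t with ht | ht
  · rw [Finset.Ico_eq_empty (by omega), Finset.sum_empty]
    exact mul_nonneg (by positivity) hE
  · have h1 := future_fgt (Θ := Θ) (Ξ := Ξ) σ a i hN h t (C := 8 / ep ^ 2)
      (X := fun v => Llen σ h i ep th F 0 v - Llen σ h i ep th F (ex N t) v)
      (fun f hf hf0 => Lf_future (Θ := Unit) (h := h) (th := th) σ i hF hep hrd (ex_le_N N t) hf hf0) hφ hφ0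
    have h2 : ∑ u ∈ Finset.Ico t N, (PM k N ι Θ Ξ Q).E (fun ω => φ ω *
        ind ((binSys Θ Ξ Q σ a hN h).at' (sL Θ Ξ i h N ep th F) (u + 1) ω ≠
          (binSys Θ Ξ Q σ a hN h).at' (sL Θ Ξ i h N ep th F) u ω)) ≤
        (PM k N ι Θ Ξ Q).E (fun ω => φ ω * (Llen σ h i ep th F 0 (fgt ω) - Llen σ h i ep th F (ex N t) (fgt ω)) + φ ω) := by
      rw [← FP.E_sum]
      refine FP.E_mono _ fun ω _ => ?_
      rw [← Finset.mul_sum, ← mul_add_one]
      refine mul_le_mul_of_nonneg_left ?_ (hφ0 ω)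
      refine (Finset.sum_le_sum fun u hu => sL_chg σ a i hN (Finset.mem_Ico.1 hu).2 ω).trans ?_
      rw [Finset.sum_add_distrib, Finset.sum_Ico_sub (fun u => Llen σ h i ep th F (ex N u) (fgt ω)) ht]
      have h3 : ∑ u ∈ Finset.Ico t N, (if u = 0 then (1 : ℝ) else 0) ≤ 1 := by
        rw [Finset.sum_ite_eq' (Finset.Ico t N) 0 (fun _ => (1 : ℝ))]
        split_ifs <;> norm_num
      have h4 : ex N N = 0 := Nat.sub_self N
      rw [h4]
      linarith
    refine h2.trans ?_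
    rw [FP.E_add, add_mul, one_mul]
    exact add_le_add h1 le_rfl

/-- the public births on the path -/
theorem sB_pub (hF : ∀ x d, |F x d| ≤ 1) (hep : 0 < ep) (hth : 0 < th) (hrd : 32 * ((2 : ℝ) ^ h)⁻¹ ≤ ep ^ 2) :
    (PM k N ι Θ Ξ Q).E (fun ω => ∑ t ∈ range (N + 1),
      (((binSys Θ Ξ Q σ a hN h).at' (sB Θ Ξ i h N ep th F) t ω).card : ℝ)) ≤ 32 / (ep ^ 3 * th) := by
  have h1 := Pf_mean (k := k) (N := N) (Θ := Unit) (P := Q) σ i hF hep hth hrd
  refine le_trans ?_ h1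
  rw [← E_fgt (Θ := Θ) (Ξ := Ξ)]
  refine FP.E_mono _ fun ω _ => ?_
  set p : ℕ → ℝ := fun t => (Pf i h N ep th F (ex N t) (Gm σ h (ex N t) (fgt ω)) (vs (fgt ω)) : ℝ) with hp
  have hp0 : ∀ t, 0 ≤ p t := fun t => Nat.cast_nonneg _
  have e0 : ((binSys Θ Ξ Q σ a hN h).at' (sB Θ Ξ i h N ep th F) 0 ω).card = 0 := by
    unfold Sys.at'
    rw [sB_zero, Finset.card_empty]
  have e1 : (((binSys Θ Ξ Q σ a hN h).at' (sB Θ Ξ i h N ep th F) 1 ω).card : ℝ) ≤ p 0 + p 1 := by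
    have h2 := card_sB_one (Θ := Θ) (Ξ := Ξ) (i := i) (h := h) (N := N) (ep := ep) (th := th) (F := F)
      (gv σ h (ex N 1) ω) (xm a ω) (vm ω)
    have h3 : pr0 h N (gv σ h (ex N 1) ω).2 = Gm σ h (ex N 0) (fgt ω) := by
      unfold pr0
      by_cases hN0 : 0 < N
      · rw [if_pos hN0, ex_succ hN0]
        exact par_G h (ex N 1) (ctr σ ω) (nz ω)
      · rw [if_neg hN0]
        have : N = 0 := by omega
        subst this
        rfl
    rw [h3] at h2
    have h4 : (((binSys Θ Ξ Q σ a hN h).at' (sB Θ Ξ i h N ep th F) 1 ω).card : ℝ) ≤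
        ((Pf i h N ep th F (ex N 1) (gv σ h (ex N 1) ω).2 (vm ω) +
          Pf i h N ep th F N (Gm σ h (ex N 0) (fgt ω)) (vm ω) : ℕ) : ℝ) := by exact_mod_cast h2
    rw [Nat.cast_add] at h4
    rw [add_comm (p 0)]
    exact h4
  have e2 : ∀ t, 2 ≤ t → (((binSys Θ Ξ Q σ a hN h).at' (sB Θ Ξ i h N ep th F) t ω).card : ℝ) ≤ p t := by
    intro t ht
    have h2 := card_sB_pos (Θ := Θ) (Ξ := Ξ) (i := i) (h := h) (N := N) (ep := ep) (th := th) (F := F) ht
      (gv σ h (ex N t) ω) (xm a ω) (vm ω)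
    exact Nat.cast_le.2 h2
  have key : ∀ n : ℕ, ∑ t ∈ range (n + 1), (((binSys Θ Ξ Q σ a hN h).at' (sB Θ Ξ i h N ep th F) t ω).card : ℝ) ≤
      ∑ t ∈ range (n + 1), p t := by
    intro n
    rcases Nat.eq_zero_or_pos n with hn | hn
    · subst hn
      rw [zero_add, Finset.sum_range_one, Finset.sum_range_one, e0, Nat.cast_zero]
      exact hp0 0
    · induction n, hn using Nat.le_induction with
      | base =>
        rw [Finset.sum_range_succ, Finset.sum_range_one, Finset.sum_range_succ, Finset.sum_range_one, e0,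
          Nat.cast_zero, zero_add]
        exact e1
      | succ n hn ih =>
        rw [Finset.sum_range_succ, Finset.sum_range_succ _ (n + 1)]
        exact add_le_add ih (e2 (n + 1) (by omega))
  refine (key N).trans (le_of_eq ?_)
  rw [← Finset.sum_range_reflect]
  refine Finset.sum_congr rfl fun u hu => ?_
  have hu' := Finset.mem_range.1 hu
  have e3 : ex N (N + 1 - 1 - u) = u := by unfold ex; omega
  rw [hp]
  simp only
  rw [e3]

/-- **the lists of one layer** -/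
def blS (ep th : ℝ) (F : (ι → Q × V k) → V k → ℝ) (hF : ∀ x d, |F x d| ≤ 1) (hep : 0 < ep) (hth : 0 < th)
    (hrd : 32 * ((2 : ℝ) ^ h)⁻¹ ≤ ep ^ 2) :
    GS.BL (binSys Θ Ξ Q σ a hN h) univ i (64 / (3 * ep ^ 2) + 1) (32 / (ep ^ 3 * th)) where
  L := sL Θ Ξ i h N ep th F
  B := sB Θ Ξ i h N ep th F
  dep := sL_dep
  cell t g ξ ξ' x y _ h2 := sB_congr g ξ ξ' fun l hl => h2 l (mem_univ l) hl
  zero := sL_zero
  suf := sL_suf
  nodup := sL_nodup
  time := sL_time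
  btime := sB_time
  new := sL_new
  fut := by
    refine Sys.Future.mono _ (sL_fut σ a i hN hF hep hrd) ?_
    have h1 : 8 / ep ^ 2 ≤ 64 / (3 * ep ^ 2) := by
      rw [div_le_div_iff₀ (by positivity) (by positivity)]
      have : 0 < ep ^ 2 := by positivity
      nlinarith
    linarith
  tail := by
    intro n
    have h1 := Lf_tail (k := k) (N := N) (Θ := Unit) (P := Q) (h := h) (ep := ep) (th := th) (F := F) σ i hF hep hrd n
    rw [← Pr_fgt (Θ := Θ) (Ξ := Ξ)] at h1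
    refine le_trans (FP.Pr_mono _ fun ω _ hω => ?_) h1
    have hn : (0 : ℝ) ≤ n := Nat.cast_nonneg n
    have h2 : (n : ℝ) * (64 / (3 * ep ^ 2)) ≤ (n : ℝ) * (64 / (3 * ep ^ 2) + 1) :=
      mul_le_mul_of_nonneg_left (by linarith) hn
    refine h2.trans (le_trans hω ?_)
    show (((binSys Θ Ξ Q σ a hN h).at' (sL Θ Ξ i h N ep th F) N ω).length : ℝ) ≤ _
    by_cases h0 : N = 0
    · have h3 : ∀ t, t = 0 → ((binSys Θ Ξ Q σ a hN h).at' (sL Θ Ξ i h N ep th F) t ω).length = 0 := by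
        rintro _ rfl
        unfold Sys.at'
        rw [sL_zero]
        rfl
      rw [h3 N h0, Nat.cast_zero]
      exact Nat.cast_nonneg _
    · rw [sL_len σ a i hN h0]
      have h4 : ex N N = 0 := Nat.sub_self N
      rw [h4]
  pub := sB_pub σ a i hN hF hep hth hrd

end bl

/-! ## product tests -/

section rare

variable {k N : ℕ} {ι Θ Ξ Q : Type} [Fintype ι] [DecidableEq ι] (σ : V k) [Fintype Θ] [Nonempty Θ]
  [Fintype Ξ] [Nonempty Ξ] [Fintype Q] [Nonempty Q] (a i : ι) (hN : N ≤ k) {h : ℕ}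

/-- a family as a moving object: killed at the time `0`, divided by `4` -/
def mvR (Θ Ξ : Type) (N : ℕ) (R : Fam k ι Q) : Mov Ξ ι (Q × V k) (Θ × (V k × ℕ)) (V k → ℝ) := fun t g _ x d =>
  if t = 0 then 0 else R (ex N t) g.2 x d / 4

theorem sum_ind_mem {α : Type*} [Fintype α] (S : Finset α) : ∑ z, ind (z ∈ S) = (S.card : ℝ) := by
  classical
  have h1 : ∀ z, ind (z ∈ S) = if z ∈ S then (1 : ℝ) else 0 := fun z => by
    by_cases h : z ∈ S
    · rw [ind_of h, if_pos h]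
    · rw [ind_not h, if_neg h]
  rw [Finset.sum_congr rfl fun z _ => h1 z, Finset.sum_ite_mem, Finset.univ_inter, Finset.sum_const, nsmul_eq_mul,
    mul_one]

theorem mvR_zero (R : Fam k ι Q) (g : Θ × (V k × ℕ)) (ξ : Ξ) (x : ι → Q × V k) : mvR Θ Ξ N R 0 g ξ x = 0 := by
  funext d
  unfold mvR
  rw [if_pos rfl]
  rfl

theorem mvR_bd {R : Fam k ι Q} (hR : FLe 2 R) (t : ℕ) (g : Θ × (V k × ℕ)) (ξ : Ξ) (x : ι → Q × V k) (d : V k) :
    |mvR Θ Ξ N R t g ξ x d| ≤ 1 := by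
  unfold mvR
  split_ifs
  · rw [abs_zero]
    exact zero_le_one
  · rw [abs_div, abs_of_pos (by norm_num : (0 : ℝ) < 4), div_le_one (by norm_num)]
    linarith [hR (ex N t) g.2 x d]

/-- **product tests** -/
theorem rare_PT {R : Fam k ι Q} {θ r : ℝ} (hθ : 0 ≤ θ) (hr : 0 ≤ r) (hR : FLe 2 R) (hP : PT i h N R θ r 1) :
    (binSys Θ Ξ Q σ a hN h).Rare univ i (mvR Θ Ξ N R) θ (r / 4 + 8 * ((2 : ℝ) ^ h)⁻¹) := by
  classical
  intro t ht w0 y u hu hu1
  have h8 : (0 : ℝ) < 8 * ((2 : ℝ) ^ h)⁻¹ := by positivity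
  rw [Finset.mul_sum]
  refine Finset.sum_le_sum fun ξ _ => ?_
  by_cases ht0 : t = 0
  · refine le_trans (le_of_eq (Finset.sum_eq_zero fun z _ => ind_not ?_))
      (mul_nonneg hθ (Finset.sum_nonneg fun _ _ => ind_nonneg _))
    rintro ⟨_, h1⟩
    have h2 : iw ((binSys Θ Ξ Q σ a hN h).ρ t ((binSys Θ Ξ Q σ a hN h).gm t w0))
        (mvR Θ Ξ N R t ((binSys Θ Ξ Q σ a hN h).gm t w0) ξ z) (fun d => ∏ i' ∈ univ.erase i, u i' z d) = 0 := by
      unfold iw
      refine Finset.sum_eq_zero fun d _ => ?_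
      have h3 : mvR Θ Ξ N R t ((binSys Θ Ξ Q σ a hN h).gm t w0) ξ z d = 0 := if_pos ht0
      rw [h3, mul_zero, zero_mul]
    rw [h2, abs_zero] at h1
    linarith
  · set e := ex N t with he
    have hek : e ≤ k := (ex_le_N N t).trans hN
    set g : Θ × (V k × ℕ) := gv σ h e w0 with hg
    have hga : flr (e - h) g.2.1 = g.2.1 := G_aligned h e (ctr σ w0) (nz w0)
    have h1 := hP e (ex_le_N N t) g.2 hga (fun l => (y l).2) u (fun w hw => by
      intro x x' hx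
      refine hu w (Finset.mem_erase.2 ⟨hw, mem_univ _⟩) x x' fun j hj => hx j ?_
      rintro (h' | h')
      · exact (Finset.mem_erase.1 (Finset.mem_erase.1 hj).2).1 h'
      · exact (Finset.mem_erase.1 hj).1 h') hu1
    have hbox : ∀ z : ι → Q × V k, (binSys Θ Ξ Q σ a hN h).Box univ t y z ↔
        z ∈ SCm (P := Q) h e (fun l => (y l).2) := by
      intro z
      rw [mem_SCm]
      constructor
      · rintro ⟨_, h2⟩ l
        exact h2 l (mem_univ l)
      · intro h2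
        exact ⟨fun i' hi' => absurd (mem_univ i') hi', fun l _ => h2 l⟩
    have h2 : ∑ z : ι → Q × V k, ind ((binSys Θ Ξ Q σ a hN h).Box univ t y z) =
        ((SCm (P := Q) h e (fun l => (y l).2)).card : ℝ) := by
      rw [← sum_ind_mem]
      exact Finset.sum_congr rfl fun z _ => by rw [show _ = (z ∈ SCm (P := Q) h e (fun l => (y l).2)) from
        propext (hbox z)]
    rw [h2]
    refine le_trans ?_ h1
    rw [← sum_ind_mem]
    refine Finset.sum_le_sum fun z _ => ind_mono ?_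
    rintro ⟨h3, h4⟩
    rw [Finset.mem_filter]
    refine ⟨(hbox z).1 h3, ?_⟩
    set f : V k → ℝ := fun d => R e g.2 z d / 4 with hf
    set f' : V k → ℝ := fun d => ∏ w ∈ univ.erase i, u w z d with hf'
    have hf2 : ∀ d, |f d| ≤ 2 := by
      intro d
      rw [hf]
      simp only
      rw [abs_div, abs_of_pos (by norm_num : (0 : ℝ) < 4), div_le_iff₀ (by norm_num)]
      linarith [hR e g.2 z d]
    have hf1 : ∀ d, |f' d| ≤ 2 := by
      intro d
      rw [hf']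
      simp only
      rw [Finset.abs_prod]
      exact (Finset.prod_le_one (fun w _ => abs_nonneg _) fun w _ => hu1 w z d).trans one_le_two
    have h5 := iw_near h e hek g.2.1 f f' hf2 hf1
    rw [hga, iw_Wd] at h5
    have h6 : mvR Θ Ξ N R t g ξ z = f := by
      funext d
      show (if t = 0 then 0 else R (ex N t) g.2 z d / 4) = _
      rw [if_neg ht0]
    have h7 : r / 4 + 8 * ((2 : ℝ) ^ h)⁻¹ ≤ |iw (rho h e g.2.1) f f'| := by
      rw [← h6]
      exact h4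
    have h9 : av e g.2.1 (fun d => R e g.2 z d * ∏ w ∈ univ.erase i, u w z d) = 4 * Bin.ip e g.2.1 f f' := by
      unfold av Bin.ip
      rw [mul_left_comm]
      congr 1
      rw [Finset.mul_sum]
      refine Finset.sum_congr rfl fun n _ => ?_
      rw [hf, hf']
      simp only
      ring
    rw [h9, abs_mul, abs_of_pos (by norm_num : (0 : ℝ) < 4)]
    have h10 := abs_sub_abs_le_abs_sub (iw (rho h e g.2.1) f f') (Bin.ip e g.2.1 f f')
    rw [abs_sub_comm] at h5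
    linarith

end rare

/-! ## the time -/

section time

variable {ι Om Ξ Pt V Γ κ : Type} [Fintype ι] [DecidableEq ι] [Fintype Om] [Fintype Ξ] [Fintype Pt]
  [Fintype V] (S : Sys ι Om Ξ Pt V Γ κ)

/-- the time `0` is the first move -/
theorem fut_tz (I : Finset ι) : S.Future I (fun t _ _ _ => decide (t = 0) : Mov Ξ ι Pt Γ Bool) 1 := by
  intro t φ _ hφ0
  have hE : 0 ≤ S.P.E φ := FP.E_nonneg _ fun ω _ => hφ0 ω
  have h1 : ∀ u ∈ Finset.Ico t S.n, S.P.E (fun w => φ w *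
      ind (S.at' (fun t _ _ _ => decide (t = 0) : Mov Ξ ι Pt Γ Bool) (u + 1) w ≠
        S.at' (fun t _ _ _ => decide (t = 0) : Mov Ξ ι Pt Γ Bool) u w)) ≤ if u = 0 then S.P.E φ else 0 := by
    intro u _
    by_cases hu : u = 0
    · rw [if_pos hu]
      refine FP.E_mono _ fun w _ => ?_
      exact mul_le_of_le_one_right (hφ0 w) (ind_le_one _)
    · rw [if_neg hu]
      refine le_of_eq ?_
      rw [← S.P.E_const 0]
      refine FP.E_congr _ fun w _ => ?_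
      rw [ind_not, mul_zero]
      intro h2
      apply h2
      show decide (u + 1 = 0) = decide (u = 0)
      rw [decide_eq_false hu, decide_eq_false (Nat.succ_ne_zero u)]
  refine (Finset.sum_le_sum h1).trans ?_
  rw [Finset.sum_ite_eq' (Finset.Ico t S.n) 0 (fun _ => S.P.E φ), one_mul]
  split_ifs
  · exact le_rfl
  · exact hE

end time

/-! ## refinement of a structured face -/

section ref

variable {ι Om Ξ Pt V Γ κ Γ' κ' : Type} [Fintype ι] [DecidableEq ι] [Fintype Om] [Fintype Ξ] [Fintype Pt]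
  [Fintype V] {S : Sys ι Om Ξ Pt V Γ κ} {S' : Sys ι Om Ξ Pt V Γ' κ'} {Vj : Finset ι}

/-- the structured face after a refinement -/
def strRef {δ q : ι} {F : Mov Ξ ι Pt Γ (V → ℝ)} {m T m1 M : ℝ} (A : FineS S S') (hm : 0 < m) (h1 : m ≤ m1)
    (h2 : A.Rt * m ≤ M) (s : GS.StrF S Vj δ q F m T) : GS.StrT S' Vj δ q (A.lift F) m1 M T where
  e0 := s.e0
  e1 := s.e1
  pe0 := (one_div_le_one_div_of_le hm h1).trans s.pe0
  pe1 := (one_div_le_one_div_of_le hm h1).trans s.pe1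
  b0 := s.b0.refine A hm.le h1 h2
  b1 := s.b1.refine A hm.le h1 h2
  coin0 := fun hq t _ ξ ξ' => s.coin0 hq t _ ξ ξ'
  coin1 := fun hq t _ ξ ξ' => s.coin1 hq t _ ξ ξ'
  eq := fun t _ ξ x d => s.eq t _ ξ x d

end ref

/-! ## the faces of a piece -/

section piece

variable {k N m : ℕ} {Θ Ξ Q : Type} [Nontrivial (Fin m)] [Fintype Θ] [Nonempty Θ] [Fintype Ξ] [Nonempty Ξ]
  [Fintype Q] [Nonempty Q] (σ : V k) (L : LayE) (a : Fin m) (hN : N ≤ k) {F : Fin m → (Fin m → Q × V k) → V k → ℝ}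

/-- **the faces of the piece `q` of the layer `n` as moving objects** (rounding `L.lh (n + 1)`) -/
def pF (Θ Ξ : Type) (N : ℕ) (L : LayE) (F : Fin m → (Fin m → Q × V k) → V k → ℝ) (n : ℕ) (q j : Fin m) :
    Mov Ξ (Fin m) (Q × V k) (Θ × (V k × ℕ)) (V k → ℝ) := mvR Θ Ξ N (Pc N L F n q j)

/-- the sizes -/
def mL (L : LayE) (n : ℕ) : ℝ := 2 ^ (2 * L.E + 2) * (64 / (3 * L.lep (n + 1) ^ 2) + 1)

theorem mL_pos (L : LayE) (n : ℕ) : 0 < mL L n := by
  have := L.lep_pos (n + 1)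
  unfold mL
  positivity

theorem bl_le (L : LayE) (n : ℕ) : 64 / (3 * L.lep n ^ 2) + 1 ≤ 64 / (3 * L.lep (n + 1) ^ 2) + 1 := by
  have h1 := L.lep_pos (n + 1)
  have h2 := L.lep_succ_le n
  have h3 : L.lep (n + 1) ^ 2 ≤ L.lep n ^ 2 := pow_le_pow_left₀ h1.le h2 2
  have h4 : 64 / (3 * L.lep n ^ 2) ≤ 64 / (3 * L.lep (n + 1) ^ 2) :=
    div_le_div_of_nonneg_left (by norm_num) (by positivity) (by linarith)
  linarith

theorem rt_le (L : LayE) (n : ℕ) : (2 : ℝ) ^ (L.lh (n + 1) - L.lh n) ≤ 2 ^ (2 * L.E) :=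
  pow_le_pow_right₀ (by norm_num) (by have := L.lh_succ_le n; omega)

theorem mL_sum (L : LayE) (n : ℕ) : 1 + (2 : ℝ) ^ (L.lh (n + 1) - L.lh n) * (64 / (3 * L.lep n ^ 2) + 1) +
    (64 / (3 * L.lep (n + 1) ^ 2) + 1) ≤ mL L n := by
  have h1 := L.lep_pos (n + 1)
  have h0 := L.lep_pos n
  have h2 := bl_le L n
  have h3 := rt_le L n
  set X : ℝ := 64 / (3 * L.lep (n + 1) ^ 2) + 1 with hX
  have hX1 : 1 ≤ X := by
    have : 0 ≤ 64 / (3 * L.lep (n + 1) ^ 2) := by positivity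
    linarith
  have h4 : (1 : ℝ) ≤ 2 ^ (2 * L.E) := one_le_pow₀ (by norm_num)
  have h5 : (2 : ℝ) ^ (L.lh (n + 1) - L.lh n) * (64 / (3 * L.lep n ^ 2) + 1) ≤ 2 ^ (2 * L.E) * X :=
    mul_le_mul h3 h2 (by positivity) (by positivity)
  unfold mL
  rw [pow_add, ← hX]
  have h6 : X ≤ 2 ^ (2 * L.E) * X := le_mul_of_one_le_left (by linarith) h4
  nlinarith

theorem mL_rt (L : LayE) (n : ℕ) : (2 : ℝ) ^ (L.lh (n + 1) - L.lh n) * (64 / (3 * L.lep n ^ 2) + 1) ≤ mL L n := by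
  have h1 := mL_sum L n
  have h2 := L.lep_pos (n + 1)
  have : 0 ≤ 64 / (3 * L.lep (n + 1) ^ 2) := by positivity
  linarith

theorem mL_ge (L : LayE) (n : ℕ) : 64 / (3 * L.lep (n + 1) ^ 2) + 1 ≤ mL L n := by
  have h1 := mL_sum L n
  have h2 := L.lep_pos n
  have : 0 ≤ (2 : ℝ) ^ (L.lh (n + 1) - L.lh n) * (64 / (3 * L.lep n ^ 2) + 1) := by positivity
  linarith

theorem one_div_mL (L : LayE) (n : ℕ) : 1 / mL L n ≤ L.lep (n + 1) := by
  have h1 := L.lep_pos (n + 1)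
  have h2 := L.lep_le_one (n + 1)
  rw [div_le_iff₀ (mL_pos L n)]
  have h3 := mL_ge L n
  have h4 : 1 / L.lep (n + 1) ≤ 64 / (3 * L.lep (n + 1) ^ 2) := by
    rw [div_le_div_iff₀ h1 (by positivity)]
    nlinarith
  have h5 : 1 / L.lep (n + 1) ≤ mL L n := by linarith
  rw [div_le_iff₀ h1] at h5
  linarith

theorem rd32 (L : LayE) (n : ℕ) : 32 * ((2 : ℝ) ^ L.lh n)⁻¹ ≤ L.lep n ^ 2 := by
  have h1 := L.rd n
  have h2 : 0 < ((2 : ℝ) ^ L.lh n)⁻¹ := by positivity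
  linarith

/-- product tests, tests bounded by one -/
theorem Pc_PT1 (hN : N ≤ k) (hF : Faces F) (n : ℕ) (q i : Fin m) :
    PT i (L.lh (n + 1)) N (Pc N L F n q i) (L.tp m n) (9 * L.lep n) 1 := by
  have hth := L.lth_pos n
  have hep := L.lep_pos n
  rcases lt_trichotomy i q with h | h | h
  · rw [Pc_lt L h]
    refine PT.mono (Rl_PT L hF (n + 1) i) ?_ ?_ le_rfl
    · have h1 := pow_D_le (m := m) L n (Nat.zero_le (2 * L.E))
      have h2 : 0 < L.lth n * ((2 : ℝ) ^ (Fintype.card (Fin m) - 1)) ^ 0 := by positivity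
      linarith
    · have := L.lep_succ_le n
      linarith
  · rw [h, Pc_eq]
    exact Dl_PT L hN hF n q
  · rw [Pc_gt L h]
    exact PT.mono (fineR_PT L hN hF n i) le_rfl (by linarith) le_rfl

/-- the refinement between two layers -/
abbrev Afn (Θ Ξ Q : Type) [Fintype Θ] [Nonempty Θ] [Fintype Ξ] [Nonempty Ξ] [Fintype Q] [Nonempty Q] {m : ℕ}
    (σ : V k) (L : LayE) (a : Fin m) (hN : N ≤ k) (n : ℕ) :
    FineS (binSys Θ Ξ Q σ a hN (L.lh n)) (binSys Θ Ξ Q σ a hN (L.lh (n + 1))) := binFine σ a hN (L.lh_mono n)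

/-- the list of the layer `n`, face `i`, at the rounding of the layer `n + 1` -/
def blLo (hF : Faces F) (n : ℕ) (i : Fin m) : GS.BL (binSys Θ Ξ Q σ a hN (L.lh (n + 1))) univ i (mL L n)
    (32 / (L.lep (n + 1) ^ 3 * L.lth (n + 1))) :=
  ((blS σ a i hN (L.lep n) (L.lth n) (F i) (hF.2 i) (L.lep_pos n) (L.lth_pos n) (rd32 L n)).lift
    (Afn Θ Ξ Q σ L a hN n) (by have := L.lep_pos n; positivity)).mono (mL_rt L n) (by
      have h1 := L.lep_pos (n + 1)
      have h2 := L.lth_pos (n + 1)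
      refine div_le_div_of_nonneg_left (by norm_num) (by positivity) ?_
      exact mul_le_mul (pow_le_pow_left₀ h1.le (L.lep_succ_le n) 3) (L.lth_succ_le n) h2.le
        (by have := L.lep_pos n; positivity))

/-- the list of the layer `n + 1`, face `i` -/
def blHi (hF : Faces F) (n : ℕ) (i : Fin m) : GS.BL (binSys Θ Ξ Q σ a hN (L.lh (n + 1))) univ i (mL L n)
    (32 / (L.lep (n + 1) ^ 3 * L.lth (n + 1))) :=
  (blS σ a i hN (L.lep (n + 1)) (L.lth (n + 1)) (F i) (hF.2 i) (L.lep_pos (n + 1)) (L.lth_pos (n + 1))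
    (rd32 L (n + 1))).mono (mL_ge L n) le_rfl

/-- the list of the residual does not change: the residual does not change -/
theorem Rl_still {l : ℕ} {i : Fin m} {t : ℕ} (ht : t ≠ 0) {ω : Sq k N (Fin m) Θ (Ξ × Q)}
    (h : (binSys Θ Ξ Q σ a hN (L.lh l)).at' (sL Θ Ξ i (L.lh l) N (L.lep l) (L.lth l) (F i)) (t + 1) ω =
      (binSys Θ Ξ Q σ a hN (L.lh l)).at' (sL Θ Ξ i (L.lh l) N (L.lep l) (L.lth l) (F i)) t ω) :
    fv σ (L.lh l) (Rl N L F l i) (ex N (t + 1)) (fgt ω) = fv σ (L.lh l) (Rl N L F l i) (ex N t) (fgt ω) := by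
  unfold Sys.at' at h
  rw [sL_pos ht, sL_pos (Nat.succ_ne_zero t)] at h
  have h1 : Lf i (L.lh l) N (L.lep l) (L.lth l) (F i) (ex N (t + 1)) (Gm σ (L.lh l) (ex N (t + 1)) (fgt ω)) (vs (fgt ω)) =
      Lf i (L.lh l) N (L.lep l) (L.lth l) (F i) (ex N t) (Gm σ (L.lh l) (ex N t) (fgt ω)) (vs (fgt ω)) :=
    List.map_injective_iff.2 (rb_inj i) h
  funext d
  show F i (vs (fgt ω)) d - Sf i (L.lh l) N (L.lep l) (L.lth l) (F i) (ex N (t + 1))
      (Gm σ (L.lh l) (ex N (t + 1)) (fgt ω)) (vs (fgt ω)) d =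
    F i (vs (fgt ω)) d - Sf i (L.lh l) N (L.lep l) (L.lth l) (F i) (ex N t)
      (Gm σ (L.lh l) (ex N t) (fgt ω)) (vs (fgt ω)) d
  rw [Sf_psi, Sf_psi, h1]

/-- the values of the faces on the path -/
theorem pF_at {t : ℕ} (ht : t ≠ 0) (n : ℕ) (q j : Fin m) (ω : Sq k N (Fin m) Θ (Ξ × Q)) (d : V k) :
    (binSys Θ Ξ Q σ a hN (L.lh (n + 1))).at' (pF Θ Ξ N L F n q j) t ω d =
      fv σ (L.lh (n + 1)) (Pc N L F n q j) (ex N t) (fgt ω) d / 4 := by
  show (if t = 0 then 0 else Pc N L F n q j (ex N t) (gv σ (L.lh (n + 1)) (ex N t) ω).2 (vm ω) d / 4) = _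
  rw [if_neg ht]
  rfl

/-- **future moves of the faces from every state** -/
theorem pF_fut (hF : Faces F) (n : ℕ) (q j : Fin m) :
    (binSys Θ Ξ Q σ a hN (L.lh (n + 1))).Future (univ.erase j) (pF Θ Ξ N L F n q j) (mL L n) := by
  have h1 := L.lep_pos (n + 1)
  have h0 := L.lep_pos n
  have hl := (blS (Θ := Θ) (Ξ := Ξ) σ a j hN (L.lep n) (L.lth n) (F j) (hF.2 j) (L.lep_pos n) (L.lth_pos n)
    (rd32 L n)).fut
  have hl' := (Afn Θ Ξ Q σ L a hN n).future_lift (erase_ne j) (by positivity) hl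
  have hh := (blS (Θ := Θ) (Ξ := Ξ) σ a j hN (L.lep (n + 1)) (L.lth (n + 1)) (F j) (hF.2 j) (L.lep_pos (n + 1))
    (L.lth_pos (n + 1)) (rd32 L (n + 1))).fut
  have h2 : (binSys Θ Ξ Q σ a hN (L.lh (n + 1))).Future (univ.erase j)
      (fun t g ξ x => (decide (t = 0), (Afn Θ Ξ Q σ L a hN n).lift
        (sL Θ Ξ j (L.lh n) N (L.lep n) (L.lth n) (F j)) t g ξ x))
      (1 + (2 : ℝ) ^ (L.lh (n + 1) - L.lh n) * (64 / (3 * L.lep n ^ 2) + 1)) :=
    Sys.Future.or (fut_tz _ _) hl' fun t w e1 e2 => Prod.ext e1 e2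
  refine Sys.Future.mono _ (Sys.Future.or h2 hh fun t w e1 e2 => ?_) (mL_sum L n)
  have e3 : decide (t + 1 = 0) = decide (t = 0) := congrArg Prod.fst e1
  have ht : t ≠ 0 := by
    intro h
    rw [decide_eq_true h, decide_eq_false (Nat.succ_ne_zero t)] at e3
    exact Bool.false_ne_true e3
  have e4 : (binSys Θ Ξ Q σ a hN (L.lh (n + 1))).at' ((Afn Θ Ξ Q σ L a hN n).lift
        (sL Θ Ξ j (L.lh n) N (L.lep n) (L.lth n) (F j))) (t + 1) w =
      (binSys Θ Ξ Q σ a hN (L.lh (n + 1))).at' ((Afn Θ Ξ Q σ L a hN n).lift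
        (sL Θ Ξ j (L.lh n) N (L.lep n) (L.lth n) (F j))) t w := congrArg Prod.snd e1
  rw [FineS.at'_lift, FineS.at'_lift] at e4
  funext d
  rw [pF_at σ L a hN ht, pF_at σ L a hN (Nat.succ_ne_zero t),
    Pc_v σ L n q j (Rl_still σ L a hN ht e4) (Rl_still σ L a hN ht e2)]

/-- **THE FACES OF A PIECE OF THE LAYER `n`** -/
theorem pc_faces (hF : Faces F) (δ q : Fin m) (n : ℕ) :
    GS.Faces (binSys Θ Ξ Q σ a hN (L.lh (n + 1))) univ δ (pF Θ Ξ N L F n q) (mL L n) (L.tp m n) (3 * L.lep n) where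
  dep w _ t g ξ := by
    intro x y hxy
    have h1 := dep_of (Pc_on (N := N) L hF n q w (ex N t) g.2) x y hxy
    funext d
    show (if t = 0 then 0 else Pc N L F n q w (ex N t) g.2 x d / 4) =
      (if t = 0 then 0 else Pc N L F n q w (ex N t) g.2 y d / 4)
    rw [h1]
  coin _ _ _ _ _ _ _ := rfl
  bd w _ t g ξ x d := mvR_bd (Pc_le L hF n q w) t g ξ x d
  zero w _ g ξ x := mvR_zero _ g ξ x
  fut w _ := pF_fut σ L a hN hF n q w
  rare w _ := by
    have h1 := rare_PT (Θ := Θ) (Ξ := Ξ) σ a w hN (L.tp_pos m n).le (by have := L.lep_pos n; positivity)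
      (Pc_le L hF n q w) (Pc_PT1 L hN hF n q w)
    refine Sys.Rare.mono _ h1 le_rfl ?_
    have h2 := L.rd1 (n + 1)
    have h3 := L.lep_succ_le n
    have h4 := L.lep_pos n
    linarith

/-- **THE STRUCTURED FACE OF A PIECE OF THE LAYER `n`** -/
def pc_str (hF : Faces F) (δ q : Fin m) (n : ℕ) :
    GS.StrF (binSys Θ Ξ Q σ a hN (L.lh (n + 1))) univ δ q (pF Θ Ξ N L F n q q) (mL L n)
      (32 / (L.lep (n + 1) ^ 3 * L.lth (n + 1))) where
  e0 := L.lep n
  e1 := L.lep (n + 1)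
  pe0 := (one_div_mL L n).trans (L.lep_succ_le n)
  pe1 := one_div_mL L n
  b0 := blLo σ L a hN hF n q
  b1 := blHi σ L a hN hF n q
  coin0 _ _ _ _ _ := rfl
  coin1 _ _ _ _ _ := rfl
  eq t g ξ x d := by
    show (if t = 0 then 0 else Pc N L F n q q (ex N t) g.2 x d / 4) =
      (psi (L.lep (n + 1)) (mvals univ q (sL Θ Ξ q (L.lh (n + 1)) N (L.lep (n + 1)) (L.lth (n + 1)) (F q) t g ξ x) x d) -
        psi (L.lep n) (mvals univ q (sL Θ Ξ q (L.lh n) N (L.lep n) (L.lth n) (F q) t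
          (cgB N (L.lh n) t g) ξ x) x d)) / 4
    by_cases ht : t = 0
    · rw [if_pos ht, ht, sL_zero, sL_zero]
      show (0 : ℝ) = (psi (L.lep (n + 1)) [] - psi (L.lep n) []) / 4
      rw [psi_nil, psi_nil]
      norm_num
    · rw [if_neg ht, sL_pos ht, sL_pos ht, mvals_rb, mvals_rb, ← Sf_psi, ← Sf_psi, Pc_eq, Dl_eq]
      rfl

/-! ### finer roundings -/

/-- the faces at a finer rounding -/
def pFf (Θ Ξ : Type) (N : ℕ) (L : LayE) (F : Fin m → (Fin m → Q × V k) → V k → ℝ) (n : ℕ) (q j : Fin m) :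
    Mov Ξ (Fin m) (Q × V k) (Θ × (V k × ℕ)) (V k → ℝ) :=
  liftM (cgB N (L.lh (n + 1))) (pF Θ Ξ N L F n q j)

/-- **the faces of a piece at a finer rounding** -/
theorem pc_facesT (hF : Faces F) (δ q : Fin m) (n : ℕ) {h' : ℕ} (hh : L.lh (n + 1) ≤ h') {m1 M θ acc : ℝ}
    (h1 : 1 + 2 * mL L n ≤ m1) (h2 : (2 : ℝ) ^ (h' - L.lh (n + 1)) * mL L n ≤ M)
    (h3 : ((2 : ℝ) ^ (h' - L.lh (n + 1))) ^ m * L.tp m n ≤ θ) (h4 : 4 * L.lep n ≤ acc) :
    GS.FacesT (binSys Θ Ξ Q σ a hN h') univ δ (pFf Θ Ξ N L F n q) m1 M θ acc := by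
  refine (pc_faces σ L a hN hF δ q n).refine (binFine σ a hN hh) (mL_pos L n) h1 h2 (L.tp_pos m n).le ?_ ?_
  · rw [Finset.card_univ, Fintype.card_fin]
    exact h3
  · refine le_trans ?_ h4
    have h5 := L.rd1 (n + 1)
    have h6 := L.lep_succ_le n
    have h10 := L.lep_pos n
    have h7 : ((2 : ℝ) ^ h')⁻¹ ≤ ((2 : ℝ) ^ L.lh (n + 1))⁻¹ :=
      inv_anti₀ (by positivity) (pow_le_pow_right₀ (by norm_num) hh)
    have h8 : (binSys Θ Ξ Q σ a hN (L.lh (n + 1))).near = 8 * ((2 : ℝ) ^ L.lh (n + 1))⁻¹ := rfl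
    have h9 : (binSys Θ Ξ Q σ a hN h').near = 8 * ((2 : ℝ) ^ h')⁻¹ := rfl
    rw [h8, h9]
    linarith

/-- **the structured face of a piece at a finer rounding** -/
def pc_strT (hF : Faces F) (δ q : Fin m) (n : ℕ) {h' : ℕ} (hh : L.lh (n + 1) ≤ h') {m1 M : ℝ}
    (h1 : mL L n ≤ m1) (h2 : (2 : ℝ) ^ (h' - L.lh (n + 1)) * mL L n ≤ M) :
    GS.StrT (binSys Θ Ξ Q σ a hN h') univ δ q (pFf Θ Ξ N L F n q q) m1 M
      (32 / (L.lep (n + 1) ^ 3 * L.lth (n + 1))) :=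
  strRef (binFine σ a hN hh) (mL_pos L n) h1 h2 (pc_str σ L a hN hF δ q n)

/-! ### the process -/

theorem av_div_pow (e : ℕ) (y : V k) (f : V k → ℝ) (c : ℝ) : av e y (fun d => f d / c) = av e y f / c := by
  unfold av
  rw [← Finset.sum_div, mul_div_assoc]

/-- **THE PROCESS OF THE FACES** -/
theorem pc_val {t : ℕ} (ht : t ≠ 0) (n : ℕ) (q : Fin m) (ω : Sq k N (Fin m) Θ (Ξ × Q)) :
    KVer.pT (binSys Θ Ξ Q σ a hN (L.lh (n + 1))) univ (pF Θ Ξ N L F n q) t ω =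
      TT σ (L.lh (n + 1)) (Pc N L F n q) (ex N t) (fgt ω) / 4 ^ m := by
  show iw (Wd (ex N t) (Yn σ (ex N t) ω).1) (fun d => ∏ i ∈ univ,
    (binSys Θ Ξ Q σ a hN (L.lh (n + 1))).at' (pF Θ Ξ N L F n q i) t ω d) (fun _ => 1) = _
  rw [iw_Wd, ← Pool.Agent.M3.Mod.av_eq_ip]
  have h1 : ∀ d, ∏ i ∈ univ, (binSys Θ Ξ Q σ a hN (L.lh (n + 1))).at' (pF Θ Ξ N L F n q i) t ω d =
      (∏ i, fv σ (L.lh (n + 1)) (Pc N L F n q i) (ex N t) (fgt ω) d) / 4 ^ m := by
    intro d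
    rw [Finset.prod_congr rfl fun i _ => pF_at σ L a hN ht n q i ω d, Finset.prod_div_distrib, Finset.prod_const,
      Finset.card_univ, Fintype.card_fin]
  simp only [h1]
  rw [av_div_pow]
  rfl

theorem pc_val_zero (n : ℕ) (q : Fin m) (ω : Sq k N (Fin m) Θ (Ξ × Q)) :
    KVer.pT (binSys Θ Ξ Q σ a hN (L.lh (n + 1))) univ (pF Θ Ξ N L F n q) 0 ω = 0 := by
  unfold KVer.pT iw
  refine Finset.sum_eq_zero fun d _ => ?_
  have h1 : ∏ i ∈ univ, (binSys Θ Ξ Q σ a hN (L.lh (n + 1))).at' (pF Θ Ξ N L F n q i) 0 ω d = 0 :=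
    Finset.prod_eq_zero (mem_univ q) (by
      unfold Sys.at' pF
      rw [mvR_zero]
      rfl)
  show _ * (∏ i ∈ univ, (binSys Θ Ξ Q σ a hN (L.lh (n + 1))).at' (pF Θ Ξ N L F n q i) 0 ω d) * _ = 0
  rw [h1, mul_zero, zero_mul]

/-- the process at a finer rounding is the same -/
theorem pT_fine {h' : ℕ} (n : ℕ) (hh : L.lh (n + 1) ≤ h') (q : Fin m) (t : ℕ) (ω : Sq k N (Fin m) Θ (Ξ × Q)) :
    KVer.pT (binSys Θ Ξ Q σ a hN h') univ (pFf Θ Ξ N L F n q) t ω =
      KVer.pT (binSys Θ Ξ Q σ a hN (L.lh (n + 1))) univ (pF Θ Ξ N L F n q) t ω := by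
  have h1 : ∀ j, (binSys Θ Ξ Q σ a hN h').at' (pFf Θ Ξ N L F n q j) t ω =
      (binSys Θ Ξ Q σ a hN (L.lh (n + 1))).at' (pF Θ Ξ N L F n q j) t ω := fun j =>
    (binFine (Θ := Θ) (Ξ := Ξ) (Q := Q) σ a hN hh).at'_lift _ t ω
  unfold KVer.pT
  simp only [h1]
  rfl

theorem pc_valf {h' : ℕ} {t : ℕ} (ht : t ≠ 0) (n : ℕ) (hh : L.lh (n + 1) ≤ h') (q : Fin m)
    (ω : Sq k N (Fin m) Θ (Ξ × Q)) :
    KVer.pT (binSys Θ Ξ Q σ a hN h') univ (pFf Θ Ξ N L F n q) t ω =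
      TT σ (L.lh (n + 1)) (Pc N L F n q) (ex N t) (fgt ω) / 4 ^ m := by
  rw [pT_fine σ L a hN n hh, pc_val σ L a hN ht]

/-- **probabilities** -/
theorem pc_Pr (n : ℕ) (q : Fin m) (r : ℝ) :
    (Pm : FP (Sq k N (Fin m) Unit Q)).Pr (fun v => ∃ e < N, r ≤ |TT σ (L.lh (n + 1)) (Pc N L F n q) e v|) ≤
      (PM k N (Fin m) Θ Ξ Q).Pr (fun ω => ∃ t ≤ N, r / 4 ^ m ≤
        |KVer.pT (binSys Θ Ξ Q σ a hN (L.lh (n + 1))) univ (pF Θ Ξ N L F n q) t ω|) := by
  rw [← Pr_fgt (Θ := Θ) (Ξ := Ξ)]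
  refine FP.Pr_mono _ fun ω _ => ?_
  rintro ⟨e, he, h1⟩
  refine ⟨N - e, Nat.sub_le _ _, ?_⟩
  rw [pc_val σ L a hN (by omega)]
  have h2 : ex N (N - e) = e := by unfold ex; omega
  rw [h2, abs_div, abs_of_pos (by positivity : (0 : ℝ) < 4 ^ m)]
  exact div_le_div_of_nonneg_right h1 (by positivity)

end piece

end PcM

end

end Pool.Agent.GM
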