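import Pool.Agent.GM.ColdMov
import Pool.Agent.GM.Colds
import Pool.Agent.GM.Lift
import Pool.Agent.GM.PcMov

/-!
# GM/ColdLayOf (helper42): the cold sets of `m - 1` vertices in one layer from the contract `CMPiece` (row T3)

* `at_mvR`, `pT_mvR` : the process of families without randomness as moving faces (`PcM.mvR`, a quarter, zero at the time
  zero); `cold_mvR` : from `ColdAt` to the form of `ColdLay`; `once_mvR` : a frozen family;
* `facesC_lay` : the faces of a piece, the known face replaced by a frozen family;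
* `num_cold` : the numbers of late layers;
* **`coldLay_of`** : `CMPiece m κ C → ColdLay m L c1 o` for `4 C + 1 ≤ L.E`, `L.kap < κ`, `L.kap ≤ 1`.
-/

set_option autoImplicit false
set_option linter.unusedSectionVars false

namespace Pool.Agent.GM.CLO

open Finset Filter Pool.Agent.PWZ Pool.Agent.M3 Pool.Agent.M3.TS Pool.Agent.M3.Bin Pool.Agent.GM Pool.Agent.GM.Mv
  Pool.Agent.GM.KVer Pool.Agent.GM.GS Pool.Agent.GM.PcM
open Pool.Agent.M3.Mod (ex av)

noncomputable section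

section gen

variable {k N : ℕ} {ι : Type} [Fintype ι] [DecidableEq ι]

theorem mvR_dep {R : Fam k ι Unit} {i : ι} (hR : FOn ({i}ᶜ : Set ι) R) (t : ℕ) (g : Unit × (V k × ℕ))
    (ξ : Unit) : Dep (univ.erase i) (mvR Unit Unit N R t g ξ) := by
  intro x y h
  funext d
  show (if t = 0 then (0 : ℝ) else R (ex N t) g.2 x d / 4) = if t = 0 then (0 : ℝ) else R (ex N t) g.2 y d / 4
  rw [hR (ex N t) g.2 fun j hj => h j (mem_erase.2 ⟨hj, mem_univ j⟩)]

variable (σ : V k) (i : ι) (hN : N ≤ k) (h : ℕ)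

/-- the value at a sample point, all times -/
theorem at_mvR (R : Fam k ι Unit) (t : ℕ) (ω : Sq k N ι Unit (Unit × Unit)) :
    (binSys Unit Unit Unit σ i hN h).at' (mvR Unit Unit N R) t ω = fun d => fz σ h R t (prU ω) d / 4 := by
  funext d
  rcases Nat.eq_zero_or_pos t with h0 | h0
  · rw [h0]
    show mvR Unit Unit N R 0 _ _ _ d = (if (0 : ℕ) = 0 then (0 : V k → ℝ) else _) d / 4
    rw [mvR_zero, if_pos rfl]
    exact (zero_div 4).symm
  · show (if t = 0 then (0 : ℝ) else R (ex N t) _ _ d / 4) =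
      (if t = 0 then (0 : V k → ℝ) else fv σ h R (ex N t) (prU ω)) d / 4
    rw [if_neg (by omega), if_neg (by omega)]
    rfl

/-- the process -/
theorem pT_mvR (R : ι → Fam k ι Unit) {t : ℕ} (ht : 1 ≤ t) (ω : Sq k N ι Unit (Unit × Unit)) :
    pT (binSys Unit Unit Unit σ i hN h) univ (fun j => mvR Unit Unit N (R j)) t ω =
      TT σ h R (ex N t) (prU ω) / 4 ^ Fintype.card ι := by
  unfold pT
  have h1 : (fun d => ∏ j, (binSys Unit Unit Unit σ i hN h).at' (mvR Unit Unit N (R j)) t ω d) =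
      fun d => (∏ j, fv σ h (R j) (ex N t) (prU ω) d) / 4 ^ Fintype.card ι := by
    funext d
    have h2 : ∀ j, (binSys Unit Unit Unit σ i hN h).at' (mvR Unit Unit N (R j)) t ω d =
        fv σ h (R j) (ex N t) (prU ω) d / 4 := by
      intro j
      rw [at_mvR]
      show (if t = 0 then (0 : V k → ℝ) else fv σ h (R j) (ex N t) (prU ω)) d / 4 = _
      rw [if_neg (by omega)]
    rw [Finset.prod_congr rfl fun j _ => h2 j, Finset.prod_div_distrib, Finset.prod_const, Finset.card_univ]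
  rw [h1]
  show iw (Wd (ex N t) (Yn σ (ex N t) ω).1) (fun d => (∏ j, fv σ h (R j) (ex N t) (prU ω) d) / 4 ^ Fintype.card ι)
    (fun _ => 1) = av (ex N t) (Yn σ (ex N t) (prU ω)).1
      (fun d => ∏ j, fv σ h (R j) (ex N t) (prU ω) d) / 4 ^ Fintype.card ι
  rw [iw_Wd, ← Mod.av_eq_ip, av_div_pow]
  rfl

/-- **from `ColdAt` to the form of `ColdLay`** -/
theorem cold_mvR (R : ι → Fam k ι Unit) (w : ι) {r ρ out : ℝ}
    (H : ColdAt σ i hN h w (fun j => mvR Unit Unit N (R j)) r ρ out) {τ ρ' : ℝ} (hτ : r ≤ τ / 4 ^ Fintype.card ι)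
    (hρ : ρ ≤ ρ') :
    (Pm : FP (Sq k N ι Unit Unit)).Pr (fun ω => ∃ t ≤ N, 1 ≤ t ∧ ρ' ≤ Pm.ce (Kn w (ex N t))
      (fun v => ind (τ ≤ |TT σ h R (ex N t) v|)) ω) ≤ out := by
  rw [← Pr_prU (Θ := Unit) (P := Unit × Unit)]
  refine (FP.Pr_mono _ fun ω _ => ?_).trans H
  rintro ⟨t, ht, ht1, hh⟩
  refine ⟨t, ht, (hρ.trans hh).trans ?_⟩
  have he : ex N t ≤ N := Nat.sub_le _ _
  rw [← ce_prU (Θ := Unit) (P := Unit × Unit) w he]
  refine FP.ce_mono _ (fun v _ => ind_mono fun h4 => ?_) ω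
  show r ≤ |pT (binSys Unit Unit Unit σ i hN h) univ (fun j => mvR Unit Unit N (R j)) t v|
  rw [pT_mvR σ i hN h R ht1 v, abs_div, abs_of_pos (by positivity : (0 : ℝ) < 4 ^ Fintype.card ι)]
  exact hτ.trans (div_le_div_of_nonneg_right h4 (by positivity))

/-- a frozen family is static after its introduction -/
theorem once_mvR {G : Fam k ι Unit}
    (hG : ∀ t < N, ∀ ω : Sq k N ι Unit Unit, chE σ h G t ω → fz σ h G t ω = 0) (t : ℕ)
    (ω : Sq k N ι Unit (Unit × Unit)) :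
    (binSys Unit Unit Unit σ i hN h).at' (mvR Unit Unit N G) (t + 1) ω =
      (binSys Unit Unit Unit σ i hN h).at' (mvR Unit Unit N G) t ω ∨
      (binSys Unit Unit Unit σ i hN h).at' (mvR Unit Unit N G) t ω = 0 := by
  rw [at_mvR, at_mvR]
  rcases Nat.lt_or_ge t N with ht | ht
  · by_cases hch : chE σ h G t (prU ω)
    · right
      funext d
      rw [hG t ht (prU ω) hch]
      exact zero_div 4
    · left
      have h1 : fz σ h G (t + 1) (prU ω) = fz σ h G t (prU ω) := by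
        by_contra hcon
        exact hch hcon
      rw [h1]
  · rcases Nat.eq_zero_or_pos t with h0 | h0
    · right
      funext d
      rw [h0]
      show (if (0 : ℕ) = 0 then (0 : V k → ℝ) else _) d / 4 = 0
      rw [if_pos rfl]
      exact zero_div 4
    · left
      have h1 : ex N (t + 1) = ex N t := by unfold ex; omega
      funext d
      show (if t + 1 = 0 then (0 : V k → ℝ) else fv σ h G (ex N (t + 1)) (prU ω)) d / 4 =
        (if t = 0 then (0 : V k → ℝ) else fv σ h G (ex N t) (prU ω)) d / 4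
      rw [if_neg (by omega), if_neg (by omega), h1]

end gen

/-! ### the faces -/

section lay

variable {k N m : ℕ} [Nontrivial (Fin m)] (σ : V k) (L : LayE) (a : Fin m) (hN : N ≤ k)
  {F : Fin m → (Fin m → Unit × V k) → V k → ℝ}

/-- **the faces of a piece, the known face replaced by a frozen family** -/
theorem facesC_lay (hF : Faces F) (x q : Fin m) {G : Fam k (Fin m) Unit} (hG : FOn ({x}ᶜ : Set (Fin m)) G)
    (hG2 : FLe 2 G) (n : ℕ)
    (hG0 : ∀ t < N, ∀ ω : Sq k N (Fin m) Unit Unit, chE σ (L.lh (n + 1)) G t ω → fz σ (L.lh (n + 1)) G t ω = 0)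
    {H θ acc : ℝ} (hH : mL L n ≤ H) (hθ : L.tp m n ≤ θ) (hacc : 3 * L.lep n ≤ acc) :
    FacesC (binSys Unit Unit Unit σ a hN (L.lh (n + 1))) x
      (fun j => mvR Unit Unit N (Function.update (Pc N L F n q) x G j)) (1 + 2 * H) H θ acc := by
  have hf := pc_faces (Θ := Unit) (Ξ := Unit) σ L a hN hF a q n
  have hup : ∀ j, j ≠ x → mvR Unit Unit N (Function.update (Pc N L F n q) x G j) = pF Unit Unit N L F n q j := by
    intro j hj
    rw [Function.update_of_ne hj]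
    rfl
  have hle : ∀ j, FLe 2 (Function.update (Pc N L F n q) x G j) := by
    intro j
    by_cases hj : j = x
    · subst hj
      rw [Function.update_self]
      exact hG2
    · rw [Function.update_of_ne hj]
      exact Pc_le L hF n q j
  have hm0 := mL_pos L n
  refine ⟨?_, ?_, ?_, ?_, ?_, ?_, ?_, ?_, ?_⟩
  · intro j t g ξ
    by_cases hj : j = x
    · subst hj
      refine mvR_dep ?_ t g ξ
      rw [Function.update_self]
      exact hG
    · refine mvR_dep ?_ t g ξ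
      rw [Function.update_of_ne hj]
      exact Pc_on L hF n q j
  · intro j t g ξ ξ'
    rfl
  · intro j t g ξ y d
    exact mvR_bd (hle j) t g ξ y d
  · intro j g ξ y
    exact mvR_zero _ g ξ y
  · intro t ω
    simp only [Function.update_self]
    exact once_mvR σ a hN (L.lh (n + 1)) hG0 t ω
  · intro j hj
    rw [hup j hj]
    exact Sys.Future.mono _ (hf.fut j (mem_univ j)) hH
  · intro j hj
    rw [hup j hj]
    refine Sys.MvTail.mono (Sys.Future.tail (hf.dep j (mem_univ j)) hm0 (hf.fut j (mem_univ j))) ?_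
    linarith
  · intro j hj
    rw [hup j hj]
    refine (Sys.Future.mean (hf.fut j (mem_univ j))).trans ?_
    linarith
  · intro j hj
    rw [hup j hj]
    exact Sys.Rare.mono _ (hf.rare j (mem_univ j)) hθ hacc

end lay

/-! ### numbers -/

theorem ev_const (A : ℝ) : ∀ᶠ n : ℕ in atTop, A ≤ (n : ℝ) + 1 := by
  have h1 : Tendsto (fun n : ℕ => (n : ℝ) + 1) atTop atTop :=
    tendsto_atTop_add_const_right _ _ tendsto_natCast_atTop_atTop
  exact h1.eventually_ge_atTop A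

/-- powers against exponentials -/
theorem ev_pow {b : ℝ} (hb : 1 < b) (A B : ℝ) (hA : 0 ≤ A) (hB : 0 ≤ B) (D : ℕ) :
    ∀ᶠ n : ℕ in atTop, A * ((n : ℝ) + 2) ^ D + B ≤ b ^ n := by
  have h1 : Tendsto (fun n : ℕ => (n : ℝ) ^ D / b ^ n) atTop (nhds 0) :=
    tendsto_pow_const_div_const_pow_of_one_lt D hb
  have h2 : Tendsto (fun n : ℕ => n + 2) atTop atTop := tendsto_add_atTop_nat 2
  have hb0 : 0 < b := by linarith
  have hc : 0 < 1 / ((A + B + 1) * b ^ 2) := by positivity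
  have h3 := (h1.comp h2).eventually_lt_const hc
  refine h3.mono fun n hn => ?_
  have h4 : ((n : ℝ) + 2) ^ D / b ^ (n + 2) < 1 / ((A + B + 1) * b ^ 2) := by
    have := hn
    simp only [Function.comp] at this
    push_cast at this
    exact this
  rw [div_lt_div_iff₀ (by positivity) (by positivity), one_mul, pow_add] at h4
  have h5 : (1 : ℝ) ≤ ((n : ℝ) + 2) ^ D := one_le_pow₀ (by linarith [Nat.cast_nonneg (α := ℝ) n])
  have h6 : ((n : ℝ) + 2) ^ D * (A + B + 1) < b ^ n := by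
    have h7 : ((n : ℝ) + 2) ^ D * (A + B + 1) * b ^ 2 < b ^ n * b ^ 2 := by linarith
    exact lt_of_mul_lt_mul_right h7 (by positivity)
  nlinarith

theorem pow_two_clog_le (n : ℕ) (hn : 1 ≤ n) : (2 : ℝ) ^ Nat.clog 2 n ≤ 2 * n := by
  rcases Nat.lt_or_ge 1 n with h | h
  · have h1 := Nat.pow_pred_clog_lt_self (b := 2) (by norm_num) h
    have h2 : 0 < Nat.clog 2 n := Nat.clog_pos (by norm_num) h
    obtain ⟨p, hp⟩ : ∃ p, Nat.clog 2 n = p + 1 := ⟨Nat.clog 2 n - 1, by omega⟩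
    rw [hp] at h1 ⊢
    have h3 : Nat.pred (p + 1) = p := rfl
    rw [h3] at h1
    rw [pow_succ]
    have h4 : ((2 : ℝ) ^ p) ≤ n := by exact_mod_cast h1.le
    linarith
  · have h1 : n = 1 := by omega
    subst h1
    norm_num

/-- the level of the layer `n` -/
def c0 (m : ℕ) (c1 : ℝ) : ℝ := min c1 1 / 4 ^ m

theorem c0_pos (m : ℕ) {c1 : ℝ} (hc : 0 < c1) : 0 < c0 m c1 := div_pos (lt_min hc one_pos) (by positivity)

theorem c0_le (m : ℕ) (hm : 1 ≤ m) (c1 : ℝ) : c0 m c1 ≤ 1 / 4 := by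
  unfold c0
  rw [div_le_iff₀ (by positivity)]
  have h1 : (4 : ℝ) ≤ 4 ^ m := by
    calc (4 : ℝ) = 4 ^ 1 := by norm_num
      _ ≤ 4 ^ m := pow_le_pow_right₀ (by norm_num) hm
  have h2 := min_le_right c1 (1 : ℝ)
  linarith

/-- the loss in the rarity -/
def K0 (m : ℕ) (L : LayE) : ℝ := ((2 * L.E * (m - 1) + 1 : ℕ) : ℝ) * Real.log 2

/-- the exponent of `H` -/
def AH (L : LayE) (C1 : ℕ) : ℕ := 3 * L.E + 6 + C1

theorem num_cold (m : ℕ) (hm : 1 ≤ m) (L : LayE) (C C1 : ℕ) {κ c1 : ℝ} (hE : 4 * C + 1 ≤ L.E) (hκ : L.kap < κ)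
    (hk1 : L.kap ≤ 1) (hc1 : 0 < c1) : ∀ᶠ n : ℕ in atTop,
    1 / (c0 m c1 / ((n : ℝ) + 1) ^ 4) ≤ ((n : ℝ) + 2) ^ AH L C1 ∧
    (((m + 4) * 2 ^ (L.lh (n + 1) + 3) : ℕ) : ℝ) ≤ Real.exp (((n : ℝ) + 2) ^ AH L C1) ∧
    8 * ((2 : ℝ) ^ L.lh (n + 1))⁻¹ ≤ (c0 m c1 / ((n : ℝ) + 1) ^ 4) ^ C ∧
    (((n : ℝ) + 2) ^ AH L C1) ^ C ≤ (1 + L.kap) ^ n - K0 m L ∧
    (1 + L.kap) ^ n - K0 m L ≤ Real.exp (((n : ℝ) + 2) ^ AH L C1) ∧
    mL L n ≤ ((n : ℝ) + 2) ^ AH L C1 ∧
    L.tp m n ≤ Real.exp (-((1 + L.kap) ^ n - K0 m L)) ∧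
    3 * L.lep n ≤ (c0 m c1 / ((n : ℝ) + 1) ^ 4) ^ C ∧
    32 / (L.lep (n + 1) ^ 3 * L.lth (n + 1)) ≤ ((n : ℝ) + 2) ^ AH L C1 *
      Real.exp ((1 + κ) * ((1 + L.kap) ^ n - K0 m L)) ∧
    (n : ℝ) ^ C1 ≤ ((n : ℝ) + 2) ^ AH L C1 := by
  have hc0 := c0_pos m hc1
  have hc := L.c_pos
  have hkap := L.kap_pos
  have hkκ : 0 < κ - L.kap := by linarith
  have hK0 : 0 ≤ K0 m L := by unfold K0; positivity
  have hlog : 0 ≤ Real.log 2 := Real.log_nonneg (by norm_num)
  have e1 := ev_const (1 / c0 m c1)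
  have e2 := ev_const (((m : ℝ) + 4) * 8 * 2 ^ L.a * 2 ^ (2 * L.E))
  have e3 := ev_const (3 * L.c / c0 m c1 ^ C)
  have e4 := ev_const (2 ^ (2 * L.E + 2) * (64 / (3 * L.c ^ 2) + 1))
  have e5 := ev_const (32 / L.c ^ 3)
  have e6 := ev_pow (b := 1 + L.kap) (by linarith) 1 (K0 m L) zero_le_one hK0 (AH L C1 * C)
  have e7 := ev_pow (b := 1 + L.kap) (by linarith) 0 ((1 + κ) * K0 m L / (κ - L.kap)) le_rfl
    (div_nonneg (mul_nonneg (by linarith) hK0) hkκ.le) 0
  filter_upwards [e1, e2, e3, e4, e5, e6, e7] with n g1 g2 g3 g4 g5 g6 g7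
  have hn0 : (0 : ℝ) ≤ n := Nat.cast_nonneg n
  set Y : ℝ := (n : ℝ) + 1 with hY
  set X : ℝ := (n : ℝ) + 2 with hX
  have hY1 : 1 ≤ Y := by linarith
  have hX1 : 1 ≤ X := by linarith
  have hYX : Y ≤ X := by linarith
  have hX0 : 0 < X := by linarith
  have hY0 : 0 < Y := by linarith
  set A := AH L C1 with hA
  have hA1 : A = 3 * L.E + 6 + C1 := rfl
  have hlep1 : L.lep (n + 1) = L.c / X ^ L.E := by
    unfold LayE.lep
    push_cast
    congr 2
    rw [hX]
    ring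
  have hlep : L.lep n = L.c / Y ^ L.E := rfl
  -- (7)
  have h7 : 3 * L.lep n ≤ (c0 m c1 / Y ^ 4) ^ C := by
    rw [hlep, div_pow, ← pow_mul, mul_div_assoc', div_le_div_iff₀ (by positivity) (by positivity)]
    rw [div_le_iff₀ (by positivity)] at g3
    have h1 : Y ^ (4 * C) * Y ≤ Y ^ L.E := by
      rw [← pow_succ]
      exact pow_le_pow_right₀ hY1 hE
    calc 3 * L.c * Y ^ (4 * C) ≤ Y * c0 m c1 ^ C * Y ^ (4 * C) := mul_le_mul_of_nonneg_right g3 (by positivity)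
      _ = c0 m c1 ^ C * (Y ^ (4 * C) * Y) := by ring
      _ ≤ c0 m c1 ^ C * Y ^ L.E := mul_le_mul_of_nonneg_left h1 (by positivity)
  refine ⟨?_, ?_, ?_, ?_, ?_, ?_, ?_, h7, ?_, ?_⟩
  · rw [one_div_div, div_eq_mul_one_div]
    calc Y ^ 4 * (1 / c0 m c1) ≤ X ^ 4 * X := by
          refine mul_le_mul (pow_le_pow_left₀ hY0.le hYX 4) (g1.trans hYX) (by positivity) (by positivity)
      _ = X ^ 5 := by ring
      _ ≤ X ^ A := pow_le_pow_right₀ hX1 (by omega)
  · have h1 : (2 : ℝ) ^ L.lh (n + 1) ≤ 2 ^ L.a * (2 ^ (2 * L.E) * X ^ (2 * L.E)) := by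
      have h2 : L.lh (n + 1) = L.a + 2 * L.E * Nat.clog 2 (n + 2) := rfl
      rw [h2, pow_add, ← mul_pow]
      refine mul_le_mul_of_nonneg_left ?_ (by positivity)
      rw [mul_comm (2 * L.E), pow_mul]
      refine pow_le_pow_left₀ (by positivity) ?_ _
      have h3 := pow_two_clog_le (n + 2) (by omega)
      push_cast at h3
      exact h3
    have h4 : (((m + 4) * 2 ^ (L.lh (n + 1) + 3) : ℕ) : ℝ) ≤ X ^ A := by
      push_cast
      rw [pow_add]
      calc ((m : ℝ) + 4) * (2 ^ L.lh (n + 1) * 2 ^ 3)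
          ≤ ((m : ℝ) + 4) * ((2 ^ L.a * (2 ^ (2 * L.E) * X ^ (2 * L.E))) * 2 ^ 3) := by
            refine mul_le_mul_of_nonneg_left ?_ (by positivity)
            exact mul_le_mul_of_nonneg_right h1 (by norm_num)
        _ = ((m : ℝ) + 4) * 8 * 2 ^ L.a * 2 ^ (2 * L.E) * X ^ (2 * L.E) := by ring
        _ ≤ X * X ^ (2 * L.E) := mul_le_mul_of_nonneg_right (g2.trans hYX) (by positivity)
        _ = X ^ (2 * L.E + 1) := by rw [pow_succ]; ring
        _ ≤ X ^ A := pow_le_pow_right₀ hX1 (by omega)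
    linarith [Real.add_one_le_exp (X ^ A)]
  · have h1 := L.rd1 (n + 1)
    have h2 : 0 < ((2 : ℝ) ^ L.lh (n + 1))⁻¹ := by positivity
    have h3 := L.lep_succ_le n
    have h4 := L.lep_pos n
    linarith
  · rw [← pow_mul]
    linarith
  · have h1 : (1 + L.kap) ^ n ≤ 2 ^ n := pow_le_pow_left₀ (by linarith) (by linarith) n
    have h2 : (2 : ℝ) ^ n ≤ Real.exp n := by
      have h3 : (2 : ℝ) ≤ Real.exp 1 := by linarith [Real.add_one_le_exp (1 : ℝ)]
      calc (2 : ℝ) ^ n ≤ Real.exp 1 ^ n := pow_le_pow_left₀ (by norm_num) h3 n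
        _ = Real.exp n := by rw [← Real.exp_nat_mul, mul_one]
    have h3 : Real.exp n ≤ Real.exp (X ^ A) := by
      refine Real.exp_le_exp.2 ?_
      calc (n : ℝ) ≤ X := by linarith
        _ = X ^ 1 := (pow_one X).symm
        _ ≤ X ^ A := pow_le_pow_right₀ hX1 (by omega)
    linarith
  · unfold mL
    rw [hlep1]
    have h1 : 64 / (3 * (L.c / X ^ L.E) ^ 2) = 64 / (3 * L.c ^ 2) * X ^ (2 * L.E) := by
      have h2 : X ^ (2 * L.E) = (X ^ L.E) ^ 2 := by
        rw [← pow_mul]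
        congr 1
        ring
      rw [h2]
      field_simp
    rw [h1]
    have h2 : (1 : ℝ) ≤ X ^ (2 * L.E) := one_le_pow₀ hX1
    calc (2 : ℝ) ^ (2 * L.E + 2) * (64 / (3 * L.c ^ 2) * X ^ (2 * L.E) + 1)
        ≤ 2 ^ (2 * L.E + 2) * ((64 / (3 * L.c ^ 2) + 1) * X ^ (2 * L.E)) := by
          refine mul_le_mul_of_nonneg_left ?_ (by positivity)
          linarith
      _ = 2 ^ (2 * L.E + 2) * (64 / (3 * L.c ^ 2) + 1) * X ^ (2 * L.E) := by ring
      _ ≤ X * X ^ (2 * L.E) := mul_le_mul_of_nonneg_right (g4.trans hYX) (by positivity)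
      _ = X ^ (2 * L.E + 1) := by rw [pow_succ]; ring
      _ ≤ X ^ A := pow_le_pow_right₀ hX1 (by omega)
  · unfold LayE.tp LayE.lth
    have h3 : (2 : ℝ) ^ (2 * L.E * (m - 1) + 1) = Real.exp (K0 m L) := by
      unfold K0
      rw [← Real.log_pow, Real.exp_log (by positivity)]
    rw [h3, ← Real.exp_add, Real.exp_le_exp]
    linarith
  · rw [hlep1]
    unfold LayE.lth
    have h1 : 32 / ((L.c / X ^ L.E) ^ 3 * Real.exp (-(1 + L.kap) ^ (n + 1))) =
        32 / L.c ^ 3 * X ^ (3 * L.E) * Real.exp ((1 + L.kap) ^ (n + 1)) := by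
      have h2 : X ^ (3 * L.E) = (X ^ L.E) ^ 3 := by
        rw [← pow_mul]
        congr 1
        ring
      rw [h2, Real.exp_neg]
      have h3 := (Real.exp_pos ((1 + L.kap) ^ (n + 1))).ne'
      field_simp
    rw [h1]
    refine mul_le_mul ?_ (Real.exp_le_exp.2 ?_) (Real.exp_pos _).le (by positivity)
    · calc 32 / L.c ^ 3 * X ^ (3 * L.E) ≤ X * X ^ (3 * L.E) :=
            mul_le_mul_of_nonneg_right (g5.trans hYX) (by positivity)
        _ = X ^ (3 * L.E + 1) := by rw [pow_succ]; ring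
        _ ≤ X ^ A := pow_le_pow_right₀ hX1 (by omega)
    · rw [pow_succ]
      rw [zero_mul, zero_add, div_le_iff₀ hkκ] at g7
      nlinarith
  · calc (n : ℝ) ^ C1 ≤ X ^ C1 := pow_le_pow_left₀ hn0 (by linarith) C1
      _ ≤ X ^ A := pow_le_pow_right₀ hX1 (by omega)

/-! ### the theorem -/

/-- monotonicity of a structured face -/
def strF_mono {ι Om Ξ Pt V Γ κ : Type} [Fintype ι] [DecidableEq ι] [Fintype Om] [Fintype Ξ] [Fintype Pt]
    [Fintype V] {S : Sys ι Om Ξ Pt V Γ κ} {Vj : Finset ι} {δ q : ι} {F : Mov Ξ ι Pt Γ (V → ℝ)} {m T m' T' : ℝ}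
    (s : StrF S Vj δ q F m T) (hm : 0 < m) (h1 : m ≤ m') (h2 : T ≤ T') : StrF S Vj δ q F m' T' where
  e0 := s.e0
  e1 := s.e1
  pe0 := (one_div_le_one_div_of_le hm h1).trans s.pe0
  pe1 := (one_div_le_one_div_of_le hm h1).trans s.pe1
  b0 := s.b0.mono h1 h2
  b1 := s.b1.mono h1 h2
  coin0 := s.coin0
  coin1 := s.coin1
  eq := s.eq

/-- **THE COLD SETS OF `m - 1` VERTICES IN ONE LAYER from the contract `CMPiece`** -/
theorem coldLay_of (m : ℕ) [Nontrivial (Fin m)] {κ : ℝ} {C : ℕ} (hCM : CMPiece m κ C) (L : LayE)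
    (hE : 4 * C + 1 ≤ L.E) (hκ : L.kap < κ) (hk1 : L.kap ≤ 1) {c1 : ℝ} (hc1 : 0 < c1) (o : ∀ k, V k) :
    ColdLay m L c1 o := by
  intro C1
  have hm : 1 ≤ m := Fin.pos (Classical.arbitrary (Fin m))
  obtain ⟨n1, hn1⟩ := eventually_atTop.1 (num_cold m hm L C C1 hE hκ hk1 hc1)
  refine ⟨n1, fun n hn k N hN F hF x q hq G hG hG2 _ hG0 τ hτ => ?_⟩
  obtain ⟨a1, a2, a3, a4, a5, a6, a7, a8, a9, a10⟩ := hn1 n hn
  set β : ℝ := c0 m c1 / ((n : ℝ) + 1) ^ 4 with hβ
  set H : ℝ := ((n : ℝ) + 2) ^ AH L C1 with hH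
  set Λ : ℝ := (1 + L.kap) ^ n - K0 m L with hΛ
  have hY : (1 : ℝ) ≤ ((n : ℝ) + 1) ^ 4 := one_le_pow₀ (by linarith [Nat.cast_nonneg (α := ℝ) n])
  have hβ0 : 0 < β := div_pos (c0_pos m hc1) (by positivity)
  have hβ2 : β ≤ 1 / 2 := by
    rw [hβ, div_le_iff₀ (by positivity)]
    have := c0_le m hm c1
    linarith
  have hcard : Fintype.card (Fin m) = m := Fintype.card_fin m
  have h1 := hCM (Fin m) Unit Unit Unit k N (o k) x x q hN (L.lh (n + 1)) hcard hq β H Λ hβ0 hβ2 a1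
    (by
      show (((Fintype.card (Fin m) + 4) * 2 ^ (L.lh (n + 1) + 3) : ℕ) : ℝ) ≤ _
      rw [hcard]
      exact a2) a3 a4 a5 (fun j => mvR Unit Unit N (Function.update (Pc N L F n q) x G j))
    (facesC_lay (o k) L x hN hF x q hG hG2 n hG0 a6 a7 a8)
    (by
      simp only [Function.update_of_ne hq]
      exact ⟨strF_mono (pc_str (Θ := Unit) (Ξ := Unit) (o k) L x hN hF x q n) (mL_pos L n) a6 a9⟩)
  refine (cold_mvR (o k) x hN (L.lh (n + 1)) (Function.update (Pc N L F n q) x G) x h1 ?_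
    (Real.exp_le_exp.2 (neg_le_neg a10))).trans (Real.exp_le_exp.2 (neg_le_neg a10))
  rw [hcard, hβ]
  unfold c0
  rw [div_div, mul_comm, ← div_div]
  refine div_le_div_of_nonneg_right (le_trans ?_ hτ) (by positivity)
  exact div_le_div_of_nonneg_right (min_le_left _ _) (by positivity)

end

end Pool.Agent.GM.CLO
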