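import Pool.Agent.GM.Rar
import Pool.Agent.GM99.Kern
import Pool.Agent.GMC.Mod3

/-!
# GM/Transfer2: transfer of coldness, node form, two or more free vertices (row G0.B (ii) of general m, helper83)

`o : Fin n → ι` injective: the free vertices; all the others (the vertices of `U`) are known, and all the noise, and the
cells of scale `c.2 i` of the free ones (class `Zc o c`; for one scale it is `Zk U r` of `GM/Rar`).
`TS` : the kernel of C2 at the node of the point: exact window of exponent `c.1`, the cells, `R i` for `i ∈ U`.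
If `B` implies that the rounded mean of the product of ALL families is `≥ s + 2 * 2 ^ (-h)` and outside `Hot` the kernel
is `≤ ρ ≤ (s ^ (2 q) * δ) ^ (2 ^ n)`, then the conditional probability of `B` and not `Hot` is `≤ (Q + 1) * δ`, where
`Q + 1` bounds the number of the rounded nodes in the class (`∑ 2 ^ (c.2 i) ≤ Q * 2 ^ (c.1 - h)`).

* `ce_pm` : the average given the class `Zc`;
* `node_transfer`; `node_transfer_Zk` (class `Zk U r`, also cells of a later time); `Zc_fine` : finer cells; `round_TT`;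
  `fac_TS`.
-/

set_option autoImplicit false
set_option linter.unusedSectionVars false

namespace Pool.Agent.GM

open Finset Pool.Agent.PWZ Pool.Agent.M3 Pool.Agent.M3.Bin
open Pool.Agent.M3.Mod (nd av SC CL av_round ce_unif_image abs_av_le)
open Pool.Agent.GMC (Cfg Nd wU uW wU_nonneg uW_nonneg wU_sum uW_sum av_uW)

variable {k N n : ℕ} {ι Θ P : Type} [Fintype ι] [DecidableEq ι] (c0 : V k) [Fintype Θ] [Nonempty Θ] [Fintype P] [Nonempty P]

/-- all the vertices, those of `o` replaced -/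
noncomputable def exo (o : Fin n → ι) (x : ι → P × V k) (om : Fin n → P × V k) : ι → P × V k := Function.extend o om x

/-- the sample point, the vertices of `o` replaced -/
noncomputable def pto (o : Fin n → ι) (om : Fin n → P × V k) (ω : Sq k N ι Θ P) : Sq k N ι Θ P :=
  (ω.1, exo o (vs ω) om, ω.2.2)

/-- THE NODE of the point: exact window, cells of the vertices of `o` -/
def nuc (o : Fin n → ι) (c : Cfg n) (ω : Sq k N ι Θ P) : Nd k n := (Yn c0 c.1 ω, fun i => flr (c.2 i) (vx (o i) ω).2)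

/-- the class: everything but the vertices of `o`, of which only the cells are known -/
def Zc (o : Fin n → ι) (c : Cfg n) (ω : Sq k N ι Θ P) :
    Θ × ({j : ι // j ∉ Set.range o} → P × V k) × ℕ × (Fin n → V k) :=
  (th ω, fun j => vx j.1 ω, nz ω, fun i => flr (c.2 i) (vx (o i) ω).2)

/-- THE KERNEL of C2 at the node of the point -/
noncomputable def TS (h : ℕ) (R : ι → Fam k ι P) (U : Finset ι) (o : Fin n → ι) (q : ℕ) (c : Cfg n)
    (ω : Sq k N ι Θ P) : ℝ :=
  GM99.kap (wU c (nuc c0 o c ω)) (uW c (nuc c0 o c ω)) q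
    (fun om z => ∏ i ∈ U, R i c.1 (Gm c0 h c.1 ω) (exo o (vs ω) om) z)

omit [Fintype ι] [DecidableEq ι] [Fintype P] [Nonempty P] in
theorem exo_o {o : Fin n → ι} (ho : Function.Injective o) (x : ι → P × V k) (om : Fin n → P × V k) (i : Fin n) :
    exo o x om (o i) = om i := ho.extend_apply _ _ _

omit [Fintype ι] [DecidableEq ι] [Fintype P] [Nonempty P] in
theorem exo_not {o : Fin n → ι} (x : ι → P × V k) (om : Fin n → P × V k) {j : ι} (hj : j ∉ Set.range o) :
    exo o x om j = x j := Function.extend_apply' _ _ _ (fun ⟨i, hi⟩ => hj ⟨i, hi⟩)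

omit [Fintype ι] [DecidableEq ι] [Fintype P] [Nonempty P] in
theorem exo_exo {o : Fin n → ι} (ho : Function.Injective o) (x : ι → P × V k) (om om' : Fin n → P × V k) :
    exo o (exo o x om) om' = exo o x om' := by
  funext j
  by_cases hj : j ∈ Set.range o
  · obtain ⟨i, rfl⟩ := hj
    rw [exo_o ho, exo_o ho]
  · rw [exo_not _ _ hj, exo_not _ _ hj, exo_not _ _ hj]

omit [Fintype ι] [DecidableEq ι] [Fintype P] [Nonempty P] in
theorem exo_self {o : Fin n → ι} (ho : Function.Injective o) (x : ι → P × V k) : exo o x (fun i => x (o i)) = x := by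
  funext j
  by_cases hj : j ∈ Set.range o
  · obtain ⟨i, rfl⟩ := hj
    rw [exo_o ho]
  · rw [exo_not _ _ hj]

/-- the average given the class -/
theorem ce_pm {o : Fin n → ι} (ho : Function.Injective o) {c : Cfg n} (hc : ∀ i, c.2 i ≤ k)
    (f : Sq k N ι Θ P → ℝ) (ω : Sq k N ι Θ P) :
    Pm.ce (Zc o c) f ω = GM99.pm (wU c (nuc c0 o c ω)) (fun om => f (pto o om ω)) := by
  classical
  have h1 : Pm.ce (Zc o c) f ω = ((Fintype.piFinset fun i => CL (P := P) (c.2 i) (vx (o i) ω).2).card : ℝ)⁻¹ *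
      ∑ om ∈ Fintype.piFinset fun i => CL (P := P) (c.2 i) (vx (o i) ω).2, f (pto o om ω) := by
    unfold Pm
    refine ce_unif_image (φ := fun om => pto o om ω) ?_ ?_ f
    · intro x _ y _ hxy
      funext i
      have h2 : exo o (vs ω) x = exo o (vs ω) y := congrArg (fun v : Sq k N ι Θ P => v.2.1) hxy
      rw [← exo_o ho (vs ω) x i, h2, exo_o ho]
    · intro v
      constructor
      · intro hv
        unfold Zc at hv
        simp only [Prod.mk.injEq] at hv
        obtain ⟨h2, h3, h4, h5⟩ := hv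
        refine ⟨fun i => vx (o i) v, ?_, ?_⟩
        · rw [Fintype.mem_piFinset]
          intro i
          rw [mem_CL]
          exact congrFun h5 i
        · refine Prod.ext h2.symm (Prod.ext ?_ (Fin.ext h4.symm))
          funext j
          change exo o (vs ω) (fun i => vx (o i) v) j = vx j v
          by_cases hj : j ∈ Set.range o
          · obtain ⟨i, rfl⟩ := hj
            rw [exo_o ho]
          · rw [exo_not _ _ hj]
            exact (congrFun h3 ⟨j, hj⟩).symm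
      · rintro ⟨x, hx, rfl⟩
        rw [Fintype.mem_piFinset] at hx
        unfold Zc
        refine Prod.ext rfl (Prod.ext ?_ (Prod.ext rfl ?_))
        · funext j
          exact exo_not _ _ j.2
        · funext i
          change flr (c.2 i) (exo o (vs ω) x (o i)).2 = _
          rw [exo_o ho]
          exact (mem_CL _ _ _).1 (hx i)
  rw [h1]
  unfold GM99.pm
  have h2 : ∀ om : Fin n → P × V k, (∏ i, wU c (nuc c0 o c ω) i (om i)) * f (pto o om ω) =
      if om ∈ Fintype.piFinset fun i => CL (P := P) (c.2 i) (vx (o i) ω).2 then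
        ((Fintype.piFinset fun i => CL (P := P) (c.2 i) (vx (o i) ω).2).card : ℝ)⁻¹ * f (pto o om ω) else 0 := by
    intro om
    by_cases hom : om ∈ Fintype.piFinset fun i => CL (P := P) (c.2 i) (vx (o i) ω).2
    · rw [if_pos hom]
      congr 1
      rw [Fintype.mem_piFinset] at hom
      rw [Fintype.card_piFinset]
      push_cast
      rw [← Finset.prod_inv_distrib]
      refine Finset.prod_congr rfl fun i _ => ?_
      unfold wU nuc
      simp only
      rw [if_pos (by rw [flr_flr le_rfl]; exact (mem_CL _ _ _).1 (hom i)), GMC.card_CL (hc i)]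
      push_cast
      rfl
    · rw [if_neg hom]
      rw [Fintype.mem_piFinset] at hom
      push Not at hom
      obtain ⟨i, hi⟩ := hom
      rw [Finset.prod_eq_zero (mem_univ i), zero_mul]
      unfold wU nuc
      simp only
      rw [if_neg]
      intro h3
      rw [flr_flr le_rfl] at h3
      exact hi ((mem_CL _ _ _).2 h3)
  rw [Finset.sum_congr rfl fun om _ => h2 om, ← Finset.sum_filter, Finset.filter_univ_mem, Finset.mul_sum]

/-- sums of cells with several scales -/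
theorem sum_flr' (r : ι → ℕ) (I : Finset ι) (x y : ι → V k) (h : ∀ l ∈ I, flr (r l) (y l) = flr (r l) (x l)) :
    ∃ a : ℕ, a ≤ ∑ l ∈ I, 2 ^ r l ∧ ∑ l ∈ I, y l = ∑ l ∈ I, flr (r l) (x l) + (a : V k) := by
  classical
  induction I using Finset.induction_on with
  | empty => exact ⟨0, by simp, by simp⟩
  | insert a I ha ih =>
    obtain ⟨r', hr, h1⟩ := ih fun l hl => h l (Finset.mem_insert_of_mem hl)
    obtain ⟨o, ho, hv⟩ := flr_add_rem (r a) (y a)
    rw [h a (Finset.mem_insert_self a I)] at hv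
    refine ⟨o + r', ?_, ?_⟩
    · rw [Finset.sum_insert ha]
      omega
    · rw [Finset.sum_insert ha, Finset.sum_insert ha, h1, Nat.cast_add]
      conv_lhs => rw [hv]
      ring

/-- the rounded nodes of the class -/
theorem opts_Zc {o : Fin n → ι} (ho : Function.Injective o) (c : Cfg n) {h : ℕ} (he : c.1 ≤ k) {Q : ℕ}
    (hQ : ∑ i, 2 ^ c.2 i ≤ Q * 2 ^ (c.1 - h)) (ω : Sq k N ι Θ P) :
    ∃ g : ℕ → V k × ℕ, ∀ v : Sq k N ι Θ P, Zc o c v = Zc o c ω → ∃ q ∈ range (Q + 1), Gm c0 h c.1 v = g q := by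
  classical
  set r : ι → ℕ := fun j => if hj : ∃ i, o i = j then c.2 hj.choose else 0 with hr
  have hro : ∀ i, r (o i) = c.2 i := by
    intro i
    have h1 : ∃ i', o i' = o i := ⟨i, rfl⟩
    rw [hr]
    simp only [dif_pos h1]
    exact congrArg c.2 (ho h1.choose_spec)
  set S : Finset ι := univ.image o with hS
  have hsum : ∑ l ∈ S, 2 ^ r l = ∑ i, 2 ^ c.2 i := by
    rw [hS, Finset.sum_image fun a _ b _ hab => ho hab]
    exact Finset.sum_congr rfl fun i _ => by rw [hro]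
  set b : V k := (∑ l ∈ S, flr (r l) (vx l ω).2 + ∑ l ∈ Sᶜ, (vx l ω).2 + c0) + ((nz ω % 2 ^ c.1 : ℕ) : V k) with hb
  refine ⟨fun q => (flr (c.1 - h) b + ((q * 2 ^ (c.1 - h) : ℕ) : V k), nz ω / 2 ^ c.1), fun v hv => ?_⟩
  unfold Zc at hv
  simp only [Prod.mk.injEq] at hv
  obtain ⟨-, h3, h4, h5⟩ := hv
  obtain ⟨a, ha, hsum2⟩ := sum_flr' r S (fun l => (vx l ω).2) (fun l => (vx l v).2) (by
    intro l hl
    obtain ⟨i, -, rfl⟩ := Finset.mem_image.mp hl
    rw [hro]
    exact congrFun h5 i)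
  rw [hsum] at ha
  have h6 : ∑ l ∈ Sᶜ, (vx l v).2 = ∑ l ∈ Sᶜ, (vx l ω).2 := by
    refine Finset.sum_congr rfl fun l hl => ?_
    rw [Finset.mem_compl] at hl
    have h7 : l ∉ Set.range o := fun ⟨i, hi⟩ => hl (Finset.mem_image.mpr ⟨i, mem_univ i, hi⟩)
    exact congrArg Prod.snd (congrFun h3 ⟨l, h7⟩)
  have h8 : Yn c0 c.1 v = (b + (a : V k), nz ω / 2 ^ c.1) := by
    unfold Yn nd ctr Bin.pos
    rw [h4, ← Finset.sum_add_sum_compl S, hsum2, h6, hb]
    refine Prod.ext ?_ rfl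
    simp only
    ring
  obtain ⟨q, hq, h9⟩ := flr_add_q (s := c.1 - h) (by omega) b (ha.trans hQ)
  refine ⟨q, Finset.mem_range.mpr (by omega), ?_⟩
  rw [Gm_eq', h8]
  exact Prod.ext h9 rfl

/-- **node form of the transfer of coldness** -/
theorem node_transfer {U : Finset ι} {o : Fin n → ι} (ho : Function.Injective o) (hU : ∀ j, j ∈ U ↔ j ∉ Set.range o)
    {c : Cfg n} (he : c.1 ≤ k) (hc : ∀ i, c.2 i ≤ k) {h Q : ℕ} (hQ : ∑ i, 2 ^ c.2 i ≤ Q * 2 ^ (c.1 - h))
    {R : ι → Fam k ι P} (hR : ∀ l, FOn ({l}ᶜ : Set ι) (R l)) (hR1 : ∀ l, FLe 1 (R l)) {q : ℕ}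
    {B Hot : Sq k N ι Θ P → Prop} {s ρ δ : ℝ} (hs : 0 < s) (hδ0 : 0 ≤ δ)
    (hB : ∀ ω, B ω → s + 2 * ((2 : ℝ) ^ h)⁻¹ ≤ |av c.1 (Gm c0 h c.1 ω).1 (fun d => ∏ i, R i c.1 (Gm c0 h c.1 ω) (vs ω) d)|)
    (hHot : ∀ ω, ¬ Hot ω → TS c0 h R U o q c ω ≤ ρ) (hδ : ρ ≤ (s ^ (2 * q) * δ) ^ (2 ^ n)) (ω : Sq k N ι Θ P) :
    Pm.ce (Zc o c) (fun v => ind (B v ∧ ¬ Hot v)) ω ≤ (Q + 1) * δ := by
  classical
  obtain ⟨g, hg⟩ := opts_Zc c0 ho c (h := h) he hQ ω
  -- split over the rounded nodes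
  have h1 : Pm.ce (Zc o c) (fun v => ind (B v ∧ ¬ Hot v)) ω ≤
      Pm.ce (Zc o c) (fun v => ∑ a ∈ range (Q + 1), ind ((B v ∧ ¬ Hot v) ∧ Gm c0 h c.1 v = g a)) ω := by
    refine Pool.Agent.M3.Mod.ce_mono_fib _ ω fun v hv => ?_
    obtain ⟨a, ha, h2⟩ := hg v hv
    have h3 := Finset.single_le_sum (f := fun a => ind ((B v ∧ ¬ Hot v) ∧ Gm c0 h c.1 v = g a))
      (fun a _ => ind_nonneg _) ha
    refine le_trans (le_of_eq ?_) h3
    by_cases h4 : B v ∧ ¬ Hot v
    · rw [ind_of h4, ind_of ⟨h4, h2⟩]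
    · rw [ind_not h4, ind_not fun h5 => h4 h5.1]
  refine h1.trans ?_
  rw [ce_pm c0 ho hc, GM99.pm_sum]
  have hone : ∀ a ∈ range (Q + 1), GM99.pm (wU c (nuc c0 o c ω)) (fun om => ind ((B (pto o om ω) ∧ ¬ Hot (pto o om ω)) ∧
      Gm c0 h c.1 (pto o om ω) = g a)) ≤ δ := by
    intro a _
    by_cases hex : ∃ x0 ∈ Fintype.piFinset fun i => CL (P := P) (c.2 i) (vx (o i) ω).2,
        (B (pto o x0 ω) ∧ ¬ Hot (pto o x0 ω)) ∧ Gm c0 h c.1 (pto o x0 ω) = g a
    · obtain ⟨x0, hx0, ⟨-, hH0⟩, hg0⟩ := hex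
      set ω0 := pto o x0 ω with hω0
      -- the node of the reference point
      have hw : wU (P := P) c (nuc c0 o c ω) = wU c (nuc c0 o c ω0) := by
        funext i x
        unfold wU nuc
        simp only
        have h2 : flr (c.2 i) (vx (o i) ω0).2 = flr (c.2 i) (vx (o i) ω).2 := by
          change flr (c.2 i) (exo o (vs ω) x0 (o i)).2 = _
          rw [exo_o ho]
          exact (mem_CL _ _ _).1 (Fintype.mem_piFinset.mp hx0 i)
        simp only [h2]
      have hex0 : ∀ om, exo o (vs ω0) om = exo o (vs ω) om := fun om => exo_exo ho _ _ _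
      -- (GCS)
      set H : Fin n → (Fin n → P × V k) → V k → ℝ := fun i om z => R (o i) c.1 (Gm c0 h c.1 ω0) (exo o (vs ω0) om) z with hHd
      have hm := GM99.gcs_markov (wU c (nuc c0 o c ω0)) (wU_nonneg c _) (wU_sum hc _) (uW c (nuc c0 o c ω0))
        (uW_nonneg c _) (uW_sum he _) q (fun om z => ∏ i ∈ U, R i c.1 (Gm c0 h c.1 ω0) (exo o (vs ω0) om) z) H
        (fun i x z => hR1 _ _ _ _ _)
        (fun i x y hxy z => by
          simp only [hHd]
          refine congrFun (hR (o i) c.1 (Gm c0 h c.1 ω0) fun j hj => ?_) z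
          by_cases hjo : j ∈ Set.range o
          · obtain ⟨i', rfl⟩ := hjo
            rw [exo_o ho, exo_o ho]
            refine hxy i' fun h2 => ?_
            rw [h2] at hj
            exact hj rfl
          · rw [exo_not _ _ hjo, exo_not _ _ hjo]) s hs.le
      have hkap := hHot ω0 hH0
      have h2 := (hm.trans hkap).trans hδ
      have h3 : 0 ≤ GM99.pm (wU c (nuc c0 o c ω0)) fun x => if s ≤ |∑ z, uW c (nuc c0 o c ω0) z *
          ((∏ i ∈ U, R i c.1 (Gm c0 h c.1 ω0) (exo o (vs ω0) x) z) * ∏ i, H i x z)| then (1 : ℝ) else 0 := by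
        unfold GM99.pm
        refine Finset.sum_nonneg fun x _ => mul_nonneg (Finset.prod_nonneg fun i _ => wU_nonneg c _ _ _) ?_
        beta_reduce
        split_ifs <;> norm_num
      have hs2 : 0 < s ^ (2 * q) := pow_pos hs _
      have h4 : s ^ (2 * q) * (GM99.pm (wU c (nuc c0 o c ω0)) fun x => if s ≤ |∑ z, uW c (nuc c0 o c ω0) z *
          ((∏ i ∈ U, R i c.1 (Gm c0 h c.1 ω0) (exo o (vs ω0) x) z) * ∏ i, H i x z)| then (1 : ℝ) else 0) ≤
          s ^ (2 * q) * δ :=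
        le_of_pow_le_pow_left₀ (pow_ne_zero _ two_ne_zero) (mul_nonneg hs2.le hδ0) h2
      have h5 := le_of_mul_le_mul_left h4 hs2
      refine le_trans ?_ h5
      rw [hw]
      refine GM99.pm_mono _ (wU_nonneg c _) fun om => ?_
      by_cases h6 : (B (pto o om ω) ∧ ¬ Hot (pto o om ω)) ∧ Gm c0 h c.1 (pto o om ω) = g a
      · rw [ind_of h6, if_pos]
        obtain ⟨⟨hBo, -⟩, hgo⟩ := h6
        have h7 := hB _ hBo
        have h8 : Gm c0 h c.1 (pto o om ω) = Gm c0 h c.1 ω0 := hgo.trans hg0.symm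
        rw [h8] at h7
        have hfull : ∀ z, (∏ i ∈ U, R i c.1 (Gm c0 h c.1 ω0) (exo o (vs ω0) om) z) * ∏ i, H i om z =
            ∏ i, R i c.1 (Gm c0 h c.1 ω0) (vs (pto o om ω)) z := by
          intro z
          have h9 : ∏ i, H i om z = ∏ j ∈ Uᶜ, R j c.1 (Gm c0 h c.1 ω0) (exo o (vs ω0) om) z := by
            have h10 : Uᶜ = univ.image o := by
              ext j
              rw [Finset.mem_compl, hU, Finset.mem_image, not_not]
              exact ⟨fun ⟨i, hi⟩ => ⟨i, mem_univ i, hi⟩, fun ⟨i, _, hi⟩ => ⟨i, hi⟩⟩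
            rw [h10, Finset.prod_image fun a _ b _ hab => ho hab]
          rw [h9, Finset.prod_mul_prod_compl, hex0]
          rfl
        simp only [hfull]
        have h11 : ∑ z, uW c (nuc c0 o c ω0) z * ∏ i, R i c.1 (Gm c0 h c.1 ω0) (vs (pto o om ω)) z =
            av c.1 (Yn c0 c.1 ω0).1 (fun d => ∏ i, R i c.1 (Gm c0 h c.1 ω0) (vs (pto o om ω)) d) :=
          av_uW he (nuc c0 o c ω0) _
        rw [h11]
        have h12 : ∀ d, |∏ i, R i c.1 (Gm c0 h c.1 ω0) (vs (pto o om ω)) d| ≤ 1 := fun d => by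
          rw [Finset.abs_prod]
          exact Finset.prod_le_one (fun _ _ => abs_nonneg _) fun i _ => hR1 _ _ _ _ _
        have h13 := av_round h c.1 (Yn c0 c.1 ω0).1 h12
        have h14 : flr (c.1 - h) (Yn c0 c.1 ω0).1 = (Gm c0 h c.1 ω0).1 := rfl
        rw [h14] at h13
        have h15 := abs_sub_abs_le_abs_sub
          (av c.1 (Gm c0 h c.1 ω0).1 (fun d => ∏ i, R i c.1 (Gm c0 h c.1 ω0) (vs (pto o om ω)) d))
          (av c.1 (Yn c0 c.1 ω0).1 (fun d => ∏ i, R i c.1 (Gm c0 h c.1 ω0) (vs (pto o om ω)) d))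
        rw [abs_sub_comm] at h13
        linarith
      · rw [ind_not h6]
        split_ifs <;> norm_num
    · -- no point at all
      refine le_trans (le_of_eq ?_) hδ0
      unfold GM99.pm
      refine Finset.sum_eq_zero fun om _ => ?_
      beta_reduce
      by_cases hom : om ∈ Fintype.piFinset fun i => CL (P := P) (c.2 i) (vx (o i) ω).2
      · rw [ind_not fun h6 => hex ⟨om, hom, h6⟩, mul_zero]
      · rw [Fintype.mem_piFinset] at hom
        push Not at hom
        obtain ⟨i, hi⟩ := hom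
        rw [Finset.prod_eq_zero (mem_univ i), zero_mul]
        unfold wU nuc
        simp only
        rw [if_neg]
        intro h3
        rw [flr_flr le_rfl] at h3
        exact hi ((mem_CL _ _ _).2 h3)
  refine (Finset.sum_le_sum hone).trans (le_of_eq ?_)
  rw [Finset.sum_const, card_range, nsmul_eq_mul]
  push_cast
  ring

omit [Nonempty P] in
theorem wU_fine {c c' : Cfg n} (hcc : ∀ i, c'.2 i ≤ c.2 i) {ν ν' : Nd k n} {i : Fin n}
    (hν : flr (c.2 i) (ν'.2 i) = flr (c.2 i) (ν.2 i)) (x : P × V k) :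
    wU c' ν' i x ≤ 2 ^ (c.2 i - c'.2 i) * wU c ν i x := by
  unfold wU
  by_cases h1 : flr (c'.2 i) x.2 = flr (c'.2 i) (ν'.2 i)
  · have h2 : flr (c.2 i) x.2 = flr (c.2 i) (ν.2 i) := by
      rw [← hν, ← flr_flr (hcc i) x.2, h1, flr_flr (hcc i)]
    rw [if_pos h1, if_pos h2]
    refine le_of_eq ?_
    have h3 : (2 : ℝ) ^ c.2 i = 2 ^ (c.2 i - c'.2 i) * 2 ^ c'.2 i := by
      rw [← pow_add, Nat.sub_add_cancel (hcc i)]
    rw [h3, mul_inv, mul_inv, mul_inv]
    have h4 : (2 : ℝ) ^ (c.2 i - c'.2 i) ≠ 0 := by positivity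
    field_simp
  · rw [if_neg h1]
    split_ifs <;> positivity

/-- finer cells (for example those of a later time) -/
theorem Zc_fine {o : Fin n → ι} (ho : Function.Injective o) {c c' : Cfg n} (hc : ∀ i, c.2 i ≤ k)
    (hcc : ∀ i, c'.2 i ≤ c.2 i) {f : Sq k N ι Θ P → ℝ} (hf : ∀ ω, 0 ≤ f ω) (ω : Sq k N ι Θ P) :
    Pm.ce (Zc o c') f ω ≤ 2 ^ (∑ i, (c.2 i - c'.2 i)) * Pm.ce (Zc o c) f ω := by
  rw [ce_pm (0 : V k) ho hc, ce_pm (0 : V k) ho fun i => (hcc i).trans (hc i)]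
  unfold GM99.pm
  rw [Finset.mul_sum]
  refine Finset.sum_le_sum fun om _ => ?_
  rw [← mul_assoc]
  refine mul_le_mul_of_nonneg_right ?_ (hf _)
  rw [← Finset.prod_pow_eq_pow_sum, ← Finset.prod_mul_distrib]
  refine Finset.prod_le_prod (fun i _ => wU_nonneg _ _ _ _) fun i _ => ?_
  refine wU_fine hcc ?_ _
  unfold nuc
  simp only
  rw [flr_flr (hcc i), flr_flr le_rfl]

/-- one scale: the class `Zk` of `GM/Rar` -/
theorem ce_Zk_Zc {U : Finset ι} {o : Fin n → ι} (hU : ∀ j, j ∈ U ↔ j ∉ Set.range o) (e r : ℕ)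
    (f : Sq k N ι Θ P → ℝ) (ω : Sq k N ι Θ P) : Pm.ce (Zk U r) f ω = Pm.ce (Zc o (e, fun _ => r)) f ω := by
  refine FP.ce_congr_map _ ?_ ?_ f ω
  · intro a b hab
    unfold Zk ku cl at hab
    unfold Zc
    simp only [Prod.mk.injEq] at hab
    refine Prod.ext hab.1 (Prod.ext (funext fun j => ?_) (Prod.ext hab.2.2.1 (funext fun i => ?_)))
    · exact congrFun hab.2.1 ⟨j.1, (hU j.1).mpr j.2⟩
    · exact congrFun hab.2.2.2 ⟨o i, fun h => (hU _).mp h ⟨i, rfl⟩⟩
  · intro a b hab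
    unfold Zc at hab
    unfold Zk ku cl
    simp only [Prod.mk.injEq] at hab
    refine Prod.ext hab.1 (Prod.ext (funext fun j => ?_) (Prod.ext hab.2.2.1 (funext fun j => ?_)))
    · exact congrFun hab.2.1 ⟨j.1, (hU j.1).mp j.2⟩
    · obtain ⟨i, hi⟩ := not_not.mp (mt (hU j.1).mpr j.2)
      have := congrFun hab.2.2.2 i
      change flr r (vx j.1 a).2 = flr r (vx j.1 b).2
      rw [← hi]
      exact this

/-- **transfer of coldness, class `Zk U r`**: the kernel at the exponent `e`, cells of scale `r0`; class with cells of a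
scale `r ≤ r0` -/
theorem node_transfer_Zk {U : Finset ι} {o : Fin n → ι} (ho : Function.Injective o)
    (hU : ∀ j, j ∈ U ↔ j ∉ Set.range o) {e r0 r : ℕ} (he : e ≤ k) (hr0 : r0 ≤ k) (hr : r ≤ r0) {h Q : ℕ}
    (hQ : n * 2 ^ r0 ≤ Q * 2 ^ (e - h)) {R : ι → Fam k ι P} (hR : ∀ l, FOn ({l}ᶜ : Set ι) (R l))
    (hR1 : ∀ l, FLe 1 (R l)) {q : ℕ} {B Hot : Sq k N ι Θ P → Prop} {s ρ δ : ℝ} (hs : 0 < s) (hδ0 : 0 ≤ δ)
    (hB : ∀ ω, B ω → s + 2 * ((2 : ℝ) ^ h)⁻¹ ≤ |av e (Gm c0 h e ω).1 (fun d => ∏ i, R i e (Gm c0 h e ω) (vs ω) d)|)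
    (hHot : ∀ ω, ¬ Hot ω → TS c0 h R U o q (e, fun _ => r0) ω ≤ ρ) (hδ : ρ ≤ (s ^ (2 * q) * δ) ^ (2 ^ n))
    (ω : Sq k N ι Θ P) :
    Pm.ce (Zk U r) (fun v => ind (B v ∧ ¬ Hot v)) ω ≤ 2 ^ (n * (r0 - r)) * ((Q + 1) * δ) := by
  rw [ce_Zk_Zc hU e r]
  have h1 := Zc_fine ho (c := (e, fun _ => r0)) (c' := (e, fun _ => r)) (fun _ => hr0) (fun _ => hr)
    (f := fun v => ind (B v ∧ ¬ Hot v)) (fun _ => ind_nonneg _) ω
  simp only [Finset.sum_const, Finset.card_univ, Fintype.card_fin, smul_eq_mul] at h1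
  refine h1.trans (mul_le_mul_of_nonneg_left ?_ (by positivity))
  refine node_transfer c0 ho hU (c := (e, fun _ => r0)) he (fun _ => hr0) (h := h) (Q := Q) ?_ hR hR1 hs hδ0 hB
    hHot hδ ω
  simpa using hQ

/-- the hypothesis on `B` from the process `TT` (exact window) -/
theorem round_TT {h : ℕ} {R : ι → Fam k ι P} (hR1 : ∀ l, FLe 1 (R l)) {e : ℕ} {s : ℝ} {ω : Sq k N ι Θ P}
    (hT : s + 4 * ((2 : ℝ) ^ h)⁻¹ ≤ |TT c0 h R e ω|) :
    s + 2 * ((2 : ℝ) ^ h)⁻¹ ≤ |av e (Gm c0 h e ω).1 (fun d => ∏ i, R i e (Gm c0 h e ω) (vs ω) d)| := by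
  have h12 : ∀ d, |∏ i, R i e (Gm c0 h e ω) (vs ω) d| ≤ 1 := fun d => by
    rw [Finset.abs_prod]
    exact Finset.prod_le_one (fun _ _ => abs_nonneg _) fun i _ => hR1 _ _ _ _ _
  have h13 := av_round h e (Yn c0 e ω).1 h12
  have h14 : flr (e - h) (Yn c0 e ω).1 = (Gm c0 h e ω).1 := rfl
  rw [h14] at h13
  have h15 := abs_sub_abs_le_abs_sub
    (av e (Yn c0 e ω).1 (fun d => ∏ i, R i e (Gm c0 h e ω) (vs ω) d))
    (av e (Gm c0 h e ω).1 (fun d => ∏ i, R i e (Gm c0 h e ω) (vs ω) d))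
  have h16 : TT c0 h R e ω = av e (Yn c0 e ω).1 (fun d => ∏ i, R i e (Gm c0 h e ω) (vs ω) d) := rfl
  rw [h16] at hT
  linarith

/-- the kernel is a function of the known vertices and of the node -/
theorem fac_TS {h : ℕ} {R : ι → Fam k ι P} {U : Finset ι} {o : Fin n → ι} {q : ℕ} {c : Cfg n} :
    Fac (fun ω : Sq k N ι Θ P => ((fun j : {j : ι // j ∉ Set.range o} => vx j.1 ω), nuc c0 o c ω))
      (TS c0 h R U o q c) := by
  intro v w hvw
  simp only [Prod.mk.injEq] at hvw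
  have h1 : Gm c0 h c.1 v = Gm c0 h c.1 w := fac_Yn_Gm c0 h c.1 _ _ (congrArg Prod.fst hvw.2)
  have h2 : ∀ om, exo o (vs v) om = exo o (vs w) om := by
    intro om
    funext j
    by_cases hj : j ∈ Set.range o
    · unfold exo
      obtain ⟨i, rfl⟩ := hj
      classical
      unfold Function.extend
      rw [dif_pos ⟨i, rfl⟩, dif_pos ⟨i, rfl⟩]
    · rw [exo_not _ _ hj, exo_not _ _ hj]
      exact congrFun hvw.1 ⟨j, hj⟩
  unfold TS
  rw [hvw.2, h1]
  simp only [h2]

end Pool.Agent.GM
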