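import Pool.Agent.GM.Hot
import Pool.Agent.GM.Transfer2

/-!
# GM/ColdOn : the cold sets in one format (hypothesis (C) of G5.0), every finite set of vertices (helper34)

`ColdOn s N h0 R Θ P S D r σ e H` : `H t` = hot events of the set `S` on the space without randomness, increasing, mass
`≤ e`; outside `H t` the process `|TT| ` is `≥ r` with probability `≤ σ` given the vertices of `S`, ALL the noise and the
cells (any scale `r'` with `r' ≤ ex N t - (h0+3)`, `ex N t - r' ≤ D`) of the other vertices.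
* `ColdOn.next`, `ColdOn.next'` : the cells of the next time, at the times `t` and `t+1`;
* `coldOn_single` (rarity, one vertex), `coldOn_erase` (`univ \ {x}`), `coldOn_node` (node form of C2 / COLD_S);
* `HU`, `ColdOn.union` : finitely many sets at once; `cold_dead` : the form used by the last step;
* `ce_prU_gen`, `ce_prU_Zk`, `ce_prU_Yk` : classes of the models with and without randomness.
-/

set_option autoImplicit false
set_option linter.unusedSectionVars false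

namespace Pool.Agent.GM

open Finset Pool.Agent.PWZ Pool.Agent.M3 Pool.Agent.M3.Bin
open Pool.Agent.M3.Mod (ex nd av SC CL card_SC av_round abs_av_le)

noncomputable section

variable {k N : ℕ} {ι Θ P : Type} [Fintype ι] [DecidableEq ι] (s : V k)
  [Fintype Θ] [Nonempty Θ] [Fintype P] [Nonempty P]

/-! ## classes of the models with and without randomness -/

theorem ce_map_prU {κ : Type*} (Y : Sq k N ι Unit Unit → κ) (f : Sq k N ι Unit Unit → ℝ) (ω : Sq k N ι Θ P) :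
    Pm.ce (fun v => Y (prU v)) (fun v => f (prU v)) ω = Pm.ce Y f (prU ω) := by
  unfold FP.ce FP.m
  rw [E_prU (Θ := Θ) (P := P) (fun v => ind (Y v = Y (prU ω)) * f v),
    E_prU (Θ := Θ) (P := P) (fun v => ind (Y v = Y (prU ω)))]

/-- a class of the model with randomness which consists of a class of the model without and of a part of the
randomness -/
theorem ce_prU_gen {κ κ' : Type*} {X : Sq k N ι Θ P → κ} {Y : Sq k N ι Unit Unit → κ'}
    (h1 : Fac X (fun v => Y (prU v)))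
    (h2 : Fac (fun v : Sq k N ι Θ P => (Y (prU v), (v.1, fun i => (vx i v).1))) X)
    (f : Sq k N ι Unit Unit → ℝ) (ω : Sq k N ι Θ P) :
    Pm.ce X (fun v => f (prU v)) ω = Pm.ce Y f (prU ω) := by
  have hi : (Pm : FP (Sq k N ι Θ P)).Indep (fun v => prU v) (fun v => (v.1, fun i => (vx i v).1)) :=
    (FP.unif_indep (splitU (k := k) (N := N) (ι := ι) (Θ := Θ) (P := P))).symm
  have h3 : ∀ v : Sq k N ι Θ P, Pm.ce (fun v => (Y (prU v), (v.1, fun i => (vx i v).1))) (fun v => f (prU v)) v =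
      Pm.ce Y f (prU v) := by
    intro v
    rw [FP.ce_indep_eq (Pm : FP (Sq k N ι Θ P)) hi (ζ := fun v => Y (prU v)) (ψ := fun v => (v.1, fun i => (vx i v).1))
      (φ := fun _ => ()) (fun a b hab => congrArg Y hab) (Fac.refl _) (Fac.const _ _)
      (fun a b hab => congrArg f (Prod.mk.injEq _ _ _ _ ▸ hab : _ ∧ _).1) (Pm_ne v)]
    rw [← ce_map_prU (Θ := Θ) (P := P) Y f v]
    exact FP.ce_congr_map _ (fun a b hab => (Prod.mk.injEq _ _ _ _ ▸ hab : _ ∧ _).1) (fun a b hab => by rw [hab]) _ v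
  rw [← FP.ce_tower _ h2 (fun v => f (prU v))]
  rw [FP.ce_congr _ (fun v _ => h3 v)]
  have h4 : Fac X (fun v : Sq k N ι Θ P => Pm.ce Y f (prU v)) := by
    intro a b hab
    exact FP.ce_fac _ Y f _ _ (h1 a b hab)
  exact FP.ce_of_fac _ h4 (Pm_ne ω)

theorem ce_prU_Zk (U : Finset ι) (r : ℕ) (f : Sq k N ι Unit Unit → ℝ) (ω : Sq k N ι Θ P) :
    Pm.ce (Zk U r) (fun v => f (prU v)) ω = Pm.ce (Zk U r) f (prU ω) := by
  refine ce_prU_gen ?_ ?_ f ω
  · intro a b hab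
    unfold Zk ku cl at hab ⊢
    simp only [Prod.mk.injEq] at hab
    refine Prod.ext rfl (Prod.ext (funext fun j => ?_) (Prod.ext hab.2.2.1 hab.2.2.2))
    have := congrFun hab.2.1 j
    change ((), (vx j.1 a).2) = ((), (vx j.1 b).2)
    rw [this]
  · intro a b hab
    unfold Zk ku cl at hab ⊢
    simp only [Prod.mk.injEq] at hab
    obtain ⟨⟨-, h2, h3, h4⟩, h5, h6⟩ := hab
    refine Prod.ext h5 (Prod.ext (funext fun j => ?_) (Prod.ext h3 h4))
    have h8 : vx j.1 (prU a) = vx j.1 (prU b) := congrFun h2 j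
    have h9 := congrArg Prod.snd h8
    have h7 : (vx j.1 a).2 = (vx j.1 b).2 := h9
    exact Prod.ext (congrFun h6 j.1) h7

theorem ce_prU_Yk (i : ι) (U : Finset ι) (e r : ℕ) (f : Sq k N ι Unit Unit → ℝ) (ω : Sq k N ι Θ P) :
    Pm.ce (Yk i U e r) (fun v => f (prU v)) ω = Pm.ce (Yk i U e r) f (prU ω) := by
  refine ce_prU_gen ?_ ?_ f ω
  · intro a b hab
    unfold Yk ku cl at hab ⊢
    simp only [Prod.mk.injEq] at hab
    refine Prod.ext rfl (Prod.ext hab.2.1 (Prod.ext (funext fun j => ?_) hab.2.2.2))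
    have := congrFun hab.2.2.1 j
    change ((), (vx j.1 a).2) = ((), (vx j.1 b).2)
    rw [this]
  · intro a b hab
    unfold Yk ku cl at hab ⊢
    simp only [Prod.mk.injEq] at hab
    obtain ⟨⟨-, h2, h3, h4⟩, h5, h6⟩ := hab
    refine Prod.ext h5 (Prod.ext h2 (Prod.ext (funext fun j => ?_) h4))
    have h8 : vx j.1 (prU a) = vx j.1 (prU b) := congrFun h3 j
    have h9 := congrArg Prod.snd h8
    have h7 : (vx j.1 a).2 = (vx j.1 b).2 := h9
    exact Prod.ext (congrFun h6 j.1) h7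

/-! ## one format -/

/-- COLDNESS OF THE SET `S` OF KNOWN VERTICES -/
structure ColdOn (N h0 : ℕ) (R : ι → Fam k ι Unit) (Θ P : Type) [Fintype Θ] [Nonempty Θ] [Fintype P] [Nonempty P]
    (S : Finset ι) (D : ℕ) (r σ e : ℝ) (H : ℕ → Sq k N ι Unit Unit → Prop) : Prop where
  inc : ∀ t ω, H t ω → H (t + 1) ω
  mass : (Pm : FP (Sq k N ι Unit Unit)).Pr (H N) ≤ e
  cold : ∀ t, 1 ≤ t → t ≤ N → ∀ r', r' ≤ ex N t - (h0 + 3) → ex N t - r' ≤ D → ∀ w : Sq k N ι Θ P,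
    Pm.ce (Zk S r') (fun v => ind (r ≤ |TT s h0 R (ex N t) (prU v)| ∧ ¬ H t (prU v))) w ≤ σ

variable {s}

theorem ColdOn.mono {h0 : ℕ} {R : ι → Fam k ι Unit} {S : Finset ι} {D D' : ℕ} {r σ e r1 σ' e' : ℝ}
    {H : ℕ → Sq k N ι Unit Unit → Prop} (C : ColdOn s N h0 R Θ P S D r σ e H) (hD : D' ≤ D) (hr : r ≤ r1)
    (hσ : σ ≤ σ') (he : e ≤ e') : ColdOn s N h0 R Θ P S D' r1 σ' e' H where
  inc := C.inc
  mass := C.mass.trans he
  cold t h1 ht r' h2 h3 w := by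
    refine le_trans (FP.ce_mono _ (fun _ _ => ind_mono fun h => ?_) w) ((C.cold t h1 ht r' h2 (h3.trans hD) w).trans hσ)
    exact ⟨hr.trans h.1, h.2⟩

/-- more hot points -/
theorem ColdOn.enlarge {h0 : ℕ} {R : ι → Fam k ι Unit} {S : Finset ι} {D : ℕ} {r σ e e' : ℝ}
    {H H' : ℕ → Sq k N ι Unit Unit → Prop} (C : ColdOn s N h0 R Θ P S D r σ e H) (hH : ∀ t ω, H t ω → H' t ω)
    (hinc : ∀ t ω, H' t ω → H' (t + 1) ω) (hm : (Pm : FP (Sq k N ι Unit Unit)).Pr (H' N) ≤ e') :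
    ColdOn s N h0 R Θ P S D r σ e' H' where
  inc := hinc
  mass := hm
  cold t h1 ht r' h2 h3 w :=
    le_trans (FP.ce_mono _ (fun _ _ => ind_mono fun h => ⟨h.1, fun h4 => h.2 (hH _ _ h4)⟩) w) (C.cold t h1 ht r' h2 h3 w)

/-- from the model without randomness to every model -/
theorem ColdOn.lift {h0 : ℕ} {R : ι → Fam k ι Unit} {S : Finset ι} {D : ℕ} {r σ e : ℝ}
    {H : ℕ → Sq k N ι Unit Unit → Prop} (C : ColdOn s N h0 R Unit Unit S D r σ e H) :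
    ColdOn s N h0 R Θ P S D r σ e H where
  inc := C.inc
  mass := C.mass
  cold t h1 ht r' h2 h3 w := by
    rw [ce_prU_Zk S r' (fun v => ind (r ≤ |TT s h0 R (ex N t) v| ∧ ¬ H t v)) w]
    have h4 := C.cold t h1 ht r' h2 h3 (prU w)
    exact h4

theorem ColdOn.inc' {h0 : ℕ} {R : ι → Fam k ι Unit} {S : Finset ι} {D : ℕ} {r σ e : ℝ}
    {H : ℕ → Sq k N ι Unit Unit → Prop} (C : ColdOn s N h0 R Θ P S D r σ e H) {t t' : ℕ} (h : t ≤ t')
    {ω : Sq k N ι Unit Unit} (hw : H t ω) : H t' ω := by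
  induction t', h using Nat.le_induction with
  | base => exact hw
  | succ n _ ih => exact C.inc n ω ih

/-- the cells of the next time, at the time `t`, rounding `hh` of the view -/
theorem ColdOn.next {h0 hh : ℕ} {R : ι → Fam k ι Unit} {S : Finset ι} {D : ℕ} {r σ e : ℝ}
    {H : ℕ → Sq k N ι Unit Unit → Prop} (C : ColdOn s N h0 R Θ P S D r σ e H) (hle : h0 ≤ hh) (hD : hh + 4 ≤ D)
    {t : ℕ} (h1 : 1 ≤ t) (ht : t ≤ N) (w : Sq k N ι Θ P) :
    Pm.ce (Zk S (ex N (t + 1) - (hh + 3)))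
      (fun v => ind (r ≤ |TT s h0 R (ex N t) (prU v)| ∧ ¬ H t (prU v))) w ≤ σ :=
  C.cold t h1 ht _ (by unfold ex; omega) (by unfold ex; omega) w

/-- the cells of the next time, at the time `t+1` -/
theorem ColdOn.next' {h0 hh : ℕ} {R : ι → Fam k ι Unit} {S : Finset ι} {D : ℕ} {r σ e : ℝ}
    {H : ℕ → Sq k N ι Unit Unit → Prop} (C : ColdOn s N h0 R Θ P S D r σ e H) (hle : h0 ≤ hh) (hD : hh + 4 ≤ D)
    {t : ℕ} (ht : t + 1 ≤ N) (w : Sq k N ι Θ P) :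
    Pm.ce (Zk S (ex N (t + 1) - (hh + 3)))
      (fun v => ind (r ≤ |TT s h0 R (ex N (t + 1)) (prU v)| ∧ ¬ H (t + 1) (prU v))) w ≤ σ :=
  C.cold (t + 1) (by omega) ht _ (by omega) (by omega) w

/-! ## the three sources -/

/-- ONE VERTEX: rarity -/
theorem coldOn_single (i : ι) (hN : N ≤ k) {h0 D : ℕ} (hD : h0 + 3 ≤ D)
    {R : ι → Fam k ι Unit} {θ r1 r B : ℝ} (hθ : 0 ≤ θ) (hr1 : 0 ≤ r1) (hPT : PT i h0 N (R i) θ r1 B)
    (hR : ∀ l, FOn ({l}ᶜ : Set ι) (R l)) (hB : ∀ j, FLe B (R j))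
    (hr : 2 * (r1 + 2 * B ^ Fintype.card ι * ((2 : ℝ) ^ h0)⁻¹) ≤ r) :
    ColdOn s N h0 R Θ P {i} D r (Fintype.card ι * (θ * (2 ^ (D - 3 - h0)) ^ Fintype.card ι)) 0 (fun _ _ => False) where
  inc _ _ h := h
  mass := by
    unfold FP.Pr
    rw [FP.E_congr _ (g := fun _ => 0) (fun w _ => ind_not fun h => h), FP.E_const]
  cold t h1 ht r' h2 h3 w := by
    -- the rounding which gives the scale `r'`
    obtain ⟨hh, hle, heq, hhD⟩ : ∃ hh, h0 ≤ hh ∧ ex N t - (hh + 3) = r' ∧ hh ≤ D - 3 := by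
      rcases Nat.eq_zero_or_pos r' with h0r | h0r
      · exact ⟨max h0 (ex N t - 3), le_max_left _ _, by omega, by omega⟩
      · exact ⟨ex N t - r' - 3, by omega, by omega, by omega⟩
    rw [← heq]
    have h4 := rar_single (Θ := Θ) (P := P) s i (h0 := h0) (hh := hh) (e := ex N t) (Nat.sub_le _ _) hN hle hθ hr1 hPT
      hR hB hr w
    refine le_trans (FP.ce_mono _ (fun v _ => ind_mono fun h => h.1) w) (h4.trans ?_)
    refine mul_le_mul_of_nonneg_left (mul_le_mul_of_nonneg_left ?_ hθ) (Nat.cast_nonneg _)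
    exact pow_le_pow_left₀ (by positivity) (pow_le_pow_right₀ (by norm_num) (by omega)) _

/-- ALL VERTICES BUT ONE: transfer of the natural form -/
theorem coldOn_erase (x : ι) (hN : N ≤ k) {h0 D : ℕ} {R : ι → Fam k ι Unit} {B r0 r ρ e : ℝ} (hB : ∀ j, FLe B (R j))
    (hr : r0 + 2 * (2 * B ^ Fintype.card ι * ((2 : ℝ) ^ h0)⁻¹) ≤ r) (hρ : 0 ≤ ρ)
    (hm : (Pm : FP (Sq k N ι Unit Unit)).Pr (fun ω => ∃ t ≤ N, 1 ≤ t ∧
      ρ < Pm.ce (Kn x (ex N t)) (fun v => ind (r0 ≤ |TT s h0 R (ex N t) v|)) ω) ≤ e) :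
    ColdOn s N h0 R Θ P (univ.erase x) D r (2 * 2 ^ D * ρ) e (Hot s h0 R r0 ρ x) where
  inc t ω h := h.mono s (Nat.le_succ t)
  mass := Pr_Hot s hm N
  cold t h1 ht r' h2 h3 w := by
    refine (cold_pair (Θ := Θ) (P := P) s x h1 ht hN h2 hB hr hρ w).trans (mul_le_mul_of_nonneg_right ?_ hρ)
    exact mul_le_mul_of_nonneg_left (pow_le_pow_right₀ (by norm_num) h3) (by norm_num)

theorem Zk_anti (S : Finset ι) {r r' : ℕ} (h : r ≤ r') :
    Fac (Zk (Θ := Θ) (P := P) (k := k) (N := N) S r) (Zk S r') := by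
  intro a b hab
  unfold Zk at hab ⊢
  simp only [Prod.mk.injEq] at hab ⊢
  exact ⟨hab.1, hab.2.1, hab.2.2.1, fac_cl h a b hab.2.2.2⟩

/-- NODE FORM (C2, COLD_S): outside `H t` the kernel of the set `S` at the node of the point is `≤ ρ` -/
theorem coldOn_node {n : ℕ} {S : Finset ι} {o : Fin n → ι} (ho : Function.Injective o)
    (hS : ∀ j, j ∈ S ↔ j ∉ Set.range o) (hN : N ≤ k) {h0 D q : ℕ} {R : ι → Fam k ι Unit}
    (hR : ∀ l, FOn ({l}ᶜ : Set ι) (R l)) (hR1 : ∀ l, FLe 1 (R l)) {r0 : ℕ → ℕ}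
    (hr0 : ∀ t, r0 t ≤ ex N t - (h0 + 3)) {H : ℕ → Sq k N ι Unit Unit → Prop} {e : ℝ}
    (hinc : ∀ t ω, H t ω → H (t + 1) ω) (hm : (Pm : FP (Sq k N ι Unit Unit)).Pr (H N) ≤ e) {r s' ρ δ : ℝ}
    (hs' : 0 < s') (hδ0 : 0 ≤ δ) (hr : s' + 4 * ((2 : ℝ) ^ h0)⁻¹ ≤ r)
    (hH : ∀ t, 1 ≤ t → t ≤ N → ∀ ω : Sq k N ι Unit Unit, ¬ H t ω → TS s h0 R S o q (ex N t, fun _ => r0 t) ω ≤ ρ)
    (hδ : ρ ≤ (s' ^ (2 * q) * δ) ^ (2 ^ n)) :
    ColdOn s N h0 R Θ P S D r (2 ^ (n * D) * ((n + 1) * δ)) e H := by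
  refine ColdOn.lift ⟨hinc, hm, fun t h1 ht r' h2 h3 w => ?_⟩
  have hek : ex N t ≤ k := (Nat.sub_le _ _).trans hN
  have h4 := fun w => node_transfer_Zk (Θ := Unit) (P := Unit) s (N := N) (U := S) ho hS (e := ex N t) (r0 := r0 t)
    (r := min r' (r0 t)) hek ((hr0 t).trans (by omega)) (min_le_right _ _) (h := h0) (Q := n)
    (Nat.mul_le_mul_left n (Nat.pow_le_pow_right (by norm_num) (by have := hr0 t; omega))) hR hR1 (q := q)
    (B := fun v => r ≤ |TT s h0 R (ex N t) v|) (Hot := H t) hs' hδ0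
    (fun v hv => round_TT s hR1 (hr.trans hv)) (fun v hv => hH t h1 ht v hv) hδ w
  refine ce_le_of_fine' (Zk_anti S (min_le_left r' (r0 t))) (fun ω => (h4 ω).trans ?_) w
  refine mul_le_mul_of_nonneg_right (pow_le_pow_right₀ (by norm_num) ?_) (by positivity)
  refine Nat.mul_le_mul_left n ?_
  have := hr0 t
  omega

/-! ## finitely many sets -/

/-- one of the sets has been hot -/
def HU (𝒮 : Finset (Finset ι)) (H : Finset ι → ℕ → Sq k N ι Unit Unit → Prop) (t : ℕ) (ω : Sq k N ι Unit Unit) : Prop :=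
  ∃ S ∈ 𝒮, H S t ω

/-- finitely many sets at once -/
theorem ColdOn.union {h0 : ℕ} {R : ι → Fam k ι Unit} {D : ℕ} {r : ℝ} {σ e : Finset ι → ℝ} {𝒮 : Finset (Finset ι)}
    {H : Finset ι → ℕ → Sq k N ι Unit Unit → Prop}
    (C : ∀ S ∈ 𝒮, ColdOn s N h0 R Θ P S D r (σ S) (e S) (H S)) {S : Finset ι} (hS : S ∈ 𝒮) :
    ColdOn s N h0 R Θ P S D r (σ S) (∑ S ∈ 𝒮, e S) (HU 𝒮 H) :=
  (C S hS).enlarge (fun _ _ h => ⟨S, hS, h⟩) (fun t ω ⟨S', h1, h2⟩ => ⟨S', h1, (C S' h1).inc t ω h2⟩)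
    ((FP.Pr_ex_le _ 𝒮 (fun S => H S N)).trans (Finset.sum_le_sum fun S h => (C S h).mass))

/-- THE FORM OF THE LAST STEP: `Sm` semi points, `Dd` dead points, `ut` not up to date (its own bound `α`);
class `Z` coarser than `Zk S r'` -/
theorem cold_dead {h0 : ℕ} {R : ι → Fam k ι Unit} {S : Finset ι} {D : ℕ} {r σ e α : ℝ}
    {H : ℕ → Sq k N ι Unit Unit → Prop} (C : ColdOn s N h0 R Θ P S D r σ e H) {t : ℕ} (h1 : 1 ≤ t) (ht : t ≤ N)
    {r' : ℕ} (h2 : r' ≤ ex N t - (h0 + 3)) (h3 : ex N t - r' ≤ D) {Sm Dd ut : Sq k N ι Θ P → Prop}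
    (hSm : ∀ v, Sm v → ¬ Dd v → (r ≤ |TT s h0 R (ex N t) (prU v)|) ∨ ut v) (hDd : ∀ v, H t (prU v) → Dd v)
    {κ : Type*} {Z : Sq k N ι Θ P → κ} (hZ : Fac (Zk S r') Z) (hut : ∀ w, Pm.ce Z (fun v => ind (ut v)) w ≤ α)
    (w : Sq k N ι Θ P) : Pm.ce Z (fun v => ind (Sm v ∧ ¬ Dd v)) w ≤ σ + α := by
  have h4 : Pm.ce Z (fun v => ind (r ≤ |TT s h0 R (ex N t) (prU v)| ∧ ¬ H t (prU v))) w ≤ σ :=
    ce_le_of_fine' hZ (fun ω => C.cold t h1 ht r' h2 h3 ω) w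
  refine le_trans ?_ (add_le_add h4 (hut w))
  rw [← FP.ce_add]
  refine FP.ce_mono _ (fun v _ => ?_) w
  have h5 := ind_nonneg (ut v)
  have h6 := ind_nonneg (r ≤ |TT s h0 R (ex N t) (prU v)| ∧ ¬ H t (prU v))
  by_cases hv : Sm v ∧ ¬ Dd v
  · rw [ind_of hv]
    rcases hSm v hv.1 hv.2 with h7 | h7
    · rw [ind_of (show r ≤ |TT s h0 R (ex N t) (prU v)| ∧ ¬ H t (prU v) from ⟨h7, fun h8 => hv.2 (hDd v h8)⟩)]
      linarith
    · rw [ind_of h7]
      linarith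
  · rw [ind_not hv]
    linarith

end

end Pool.Agent.GM
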