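import Pool.Agent.GM.Half
import Pool.Agent.GM.Colds

/-!
# GM/ColdSet : the cold sets of a piece of a late layer, by their number of vertices (helper34)

* `ColdSet m L r o c` : for all `C1`, `C2` and late layers `n`, every set `U` of `c` vertices is cold for every piece
  of the layer `n`, in the format `ColdOn`, for every `D ≤ n^C2`, threshold `r n`, errors `exp (-n^C1)`;
* `LOK m L c0` : the accuracy of the layers is good enough for the threshold `c0 / (l+1)^2`;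
* `coldSet_one` (rarity), `coldSet_erase` (`c = m - 1`, from `ColdAll`), `coldSet_two` (theorem C2, `coldOn_pair`).
-/

set_option autoImplicit false
set_option linter.unusedSectionVars false

namespace Pool.Agent.GM

open Finset Filter Pool.Agent.PWZ Pool.Agent.M3 Pool.Agent.M3.Bin

noncomputable section

/-! ### numbers -/

namespace CS

theorem ev_K {κ : ℝ} (hκ : 0 < κ) (A : ℝ) (b : ℝ) (a C1 : ℕ) {c : ℝ} (hc : 0 < c) :
    ∀ᶠ n : ℕ in atTop, A * Real.exp (b * (n : ℝ) ^ a - c * (1 + κ) ^ n) ≤ Real.exp (-(n : ℝ) ^ C1) := by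
  have hc4 : 0 < c / 4 := by positivity
  filter_upwards [Par.ev_pow_le hκ a b hc4, Par.ev_pow_le hκ C1 1 hc4,
    Par.ev_pow_le hκ 0 (Real.log (|A| + 1)) hc4, Par.ev_pow_le hκ 0 0 hc4] with n h1 h3 h4 h5
  rw [pow_zero, mul_one] at h4
  rw [one_mul] at h3
  rw [zero_mul] at h5
  have hA : A ≤ Real.exp (Real.log (|A| + 1)) := by
    rw [Real.exp_log (by positivity)]
    linarith [le_abs_self A]
  calc A * Real.exp (b * (n : ℝ) ^ a - c * (1 + κ) ^ n) ≤
      Real.exp (Real.log (|A| + 1)) * Real.exp (b * (n : ℝ) ^ a - c * (1 + κ) ^ n) :=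
        mul_le_mul_of_nonneg_right hA (Real.exp_pos _).le
    _ = Real.exp (Real.log (|A| + 1) + (b * (n : ℝ) ^ a - c * (1 + κ) ^ n)) := by
        rw [Real.exp_add]
    _ ≤ _ := Real.exp_le_exp.mpr (by linarith)

theorem ev_P (A b : ℝ) (a C1 C3 : ℕ) (ha : a < C3) (h1 : C1 < C3) :
    ∀ᶠ n : ℕ in atTop, A * Real.exp (b * (n : ℝ) ^ a - (n : ℝ) ^ C3) ≤ Real.exp (-(n : ℝ) ^ C1) := by
  have hc4 : (0 : ℝ) < 1 / 4 := by norm_num
  filter_upwards [Par.ev_pow_pow_le ha b hc4, Par.ev_pow_pow_le h1 1 hc4,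
    Par.ev_pow_pow_le (C := 0) (D := C3) (by omega) (Real.log (|A| + 1)) hc4,
    Par.ev_pow_pow_le (C := 0) (D := C3) (by omega) 0 hc4] with n h1 h3 h4 h5
  rw [pow_zero, mul_one] at h4
  rw [one_mul] at h3
  rw [zero_mul] at h5
  have hA : A ≤ Real.exp (Real.log (|A| + 1)) := by
    rw [Real.exp_log (by positivity)]
    linarith [le_abs_self A]
  calc A * Real.exp (b * (n : ℝ) ^ a - (n : ℝ) ^ C3) ≤
      Real.exp (Real.log (|A| + 1)) * Real.exp (b * (n : ℝ) ^ a - (n : ℝ) ^ C3) :=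
        mul_le_mul_of_nonneg_right hA (Real.exp_pos _).le
    _ = Real.exp (Real.log (|A| + 1) + (b * (n : ℝ) ^ a - (n : ℝ) ^ C3)) := by
        rw [Real.exp_add]
    _ ≤ _ := Real.exp_le_exp.mpr (by linarith)

theorem two_pow_le {n : ℕ} {X : ℝ} (h : (n : ℝ) ≤ X) : (2 : ℝ) ^ n ≤ Real.exp X := by
  have h1 : (2 : ℝ) ≤ Real.exp 1 := by
    have := Real.add_one_le_exp (1 : ℝ)
    linarith
  calc (2 : ℝ) ^ n ≤ Real.exp 1 ^ n := pow_le_pow_left₀ (by norm_num) h1 n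
    _ = Real.exp (n * 1) := by rw [← Real.exp_nat_mul]
    _ ≤ _ := Real.exp_le_exp.mpr (by linarith)

/-- `x (1 + log (1/x)) ≤ 2 √x` in the exponential form -/
theorem xlog {y : ℝ} (hy : 0 ≤ y) : Real.exp (-y) * (1 + Real.log (1 / Real.exp (-y))) ≤ 2 * Real.exp (-(y / 2)) := by
  have h1 : Real.log (1 / Real.exp (-y)) = y := by
    rw [one_div, ← Real.exp_neg, neg_neg, Real.log_exp]
  rw [h1]
  have h2 : y / 2 + 1 ≤ Real.exp (y / 2) := Real.add_one_le_exp _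
  have h3 : Real.exp (-y) = Real.exp (-(y / 2)) * Real.exp (-(y / 2)) := by
    rw [← Real.exp_add]
    congr 1
    ring
  have h4 : Real.exp (-(y / 2)) * Real.exp (y / 2) = 1 := by
    rw [← Real.exp_add]
    simp
  have h5 := Real.exp_pos (-(y / 2))
  rw [h3]
  have h6 : Real.exp (-(y / 2)) * (1 + y) ≤ 2 := by
    have : 1 + y ≤ 2 * Real.exp (y / 2) := by linarith
    calc Real.exp (-(y / 2)) * (1 + y) ≤ Real.exp (-(y / 2)) * (2 * Real.exp (y / 2)) :=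
          mul_le_mul_of_nonneg_left this h5.le
      _ = 2 * (Real.exp (-(y / 2)) * Real.exp (y / 2)) := by ring
      _ = 2 := by rw [h4, mul_one]
  calc Real.exp (-(y / 2)) * Real.exp (-(y / 2)) * (1 + y) = Real.exp (-(y / 2)) * (Real.exp (-(y / 2)) * (1 + y)) := by
        ring
    _ ≤ Real.exp (-(y / 2)) * 2 := mul_le_mul_of_nonneg_left h6 h5.le
    _ = _ := by ring

end CS

/-! ### definitions -/

/-- COLD SETS OF `c` VERTICES, all pieces of the late layers -/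
def ColdSet (m : ℕ) [Nontrivial (Fin m)] (L : LayE) (r : ℕ → ℝ) (o : ∀ k, V k) (c : ℕ) : Prop :=
  ∀ C1 C2 : ℕ, ∃ n0 : ℕ, ∀ n ≥ n0, ∀ k N : ℕ, N ≤ k → ∀ F : Fin m → (Fin m → Unit × V k) → V k → ℝ, Faces F →
  ∀ (q : Fin m) (U : Finset (Fin m)), U.card = c → ∀ D : ℕ, (D : ℝ) ≤ (n : ℝ) ^ C2 →
    ∃ H : ℕ → Sq k N (Fin m) Unit Unit → Prop,
      ColdOn (o k) N (L.lh (n + 1)) (Pc N L F n q) Unit Unit U D (r n) (Real.exp (-(n : ℝ) ^ C1))
        (Real.exp (-(n : ℝ) ^ C1)) H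

/-- the accuracy of the layers is good enough for the threshold `c0 / (l+1)^2` -/
structure LOK (m : ℕ) (L : LayE) (c0 : ℝ) : Prop where
  c0_pos : 0 < c0
  c0_le : c0 ≤ 1
  E_ge : 2 ^ (m - 1) ≤ L.E
  c_le : 9 * 2 ^ (m - 1) * L.c ≤ (c0 / 2 ^ (m + 2)) ^ (2 ^ (m - 2))

theorem exists_LOK (m : ℕ) {κ c0 : ℝ} (hκ : 0 < κ) (h0 : 0 < c0) (h1 : c0 ≤ 1) :
    ∃ L : LayE, L.kap = κ ∧ LOK m L c0 := by
  have h2 : 0 < (c0 / 2 ^ (m + 2)) ^ (2 ^ (m - 2)) / (9 * 2 ^ (m - 1)) := by positivity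
  refine ⟨mkLayE (2 ^ (m - 1)) κ (min 1 ((c0 / 2 ^ (m + 2)) ^ (2 ^ (m - 2)) / (9 * 2 ^ (m - 1)))) (by positivity) hκ
    (lt_min one_pos h2) (min_le_left _ _), rfl, h0, h1, le_rfl, ?_⟩
  have h3 : (mkLayE (2 ^ (m - 1)) κ (min 1 ((c0 / 2 ^ (m + 2)) ^ (2 ^ (m - 2)) / (9 * 2 ^ (m - 1)))) (by positivity) hκ
    (lt_min one_pos h2) (min_le_left _ _)).c ≤ (c0 / 2 ^ (m + 2)) ^ (2 ^ (m - 2)) / (9 * 2 ^ (m - 1)) :=
    min_le_right _ _
  rw [le_div_iff₀ (by positivity)] at h3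
  linarith

section LOKs

variable {m : ℕ} {L : LayE} {c0 : ℝ}

/-- the accuracy of the pieces is small -/
theorem LOK.rp_le (h : LOK m L c0) (hm : 2 ≤ m) (l : ℕ) :
    L.rp m l ≤ (c0 / (2 ^ (m + 2) * ((l : ℝ) + 1) ^ 2)) ^ (2 ^ (m - 2)) := by
  have hl : (1 : ℝ) ≤ (l : ℝ) + 1 := by linarith [Nat.cast_nonneg (α := ℝ) l]
  unfold LayE.rp LayE.lep
  have h1 : c0 / (2 ^ (m + 2) * ((l : ℝ) + 1) ^ 2) = (c0 / 2 ^ (m + 2)) / ((l : ℝ) + 1) ^ 2 := by
    rw [div_div]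
  rw [h1, div_pow, ← mul_div_assoc]
  have h2 : (((l : ℝ) + 1) ^ 2) ^ (2 ^ (m - 2)) = ((l : ℝ) + 1) ^ (2 ^ (m - 1)) := by
    rw [← pow_mul]
    congr 1
    obtain ⟨n, rfl⟩ : ∃ n, m = n + 2 := ⟨m - 2, by omega⟩
    have e1 : n + 2 - 2 = n := by omega
    have e2 : n + 2 - 1 = n + 1 := by omega
    rw [e1, e2, pow_succ]
    ring
  rw [h2]
  exact div_le_div₀ (by have := h.c0_pos; positivity) h.c_le (by positivity) (pow_le_pow_right₀ hl h.E_ge)

theorem LOK.rp_le' (h : LOK m L c0) (hm : 2 ≤ m) (l : ℕ) : L.rp m l ≤ c0 / (2 ^ (m + 2) * ((l : ℝ) + 1) ^ 2) := by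
  refine (h.rp_le hm l).trans ?_
  have hl : (1 : ℝ) ≤ (l : ℝ) + 1 := by linarith [Nat.cast_nonneg (α := ℝ) l]
  have h0 := h.c0_pos
  have h1 : c0 / (2 ^ (m + 2) * ((l : ℝ) + 1) ^ 2) ≤ 1 := by
    rw [div_le_one (by positivity)]
    have h2 : (1 : ℝ) ≤ 2 ^ (m + 2) := one_le_pow₀ (by norm_num)
    have h3 : (1 : ℝ) ≤ ((l : ℝ) + 1) ^ 2 := one_le_pow₀ hl
    have := h.c0_le
    nlinarith
  calc (c0 / (2 ^ (m + 2) * ((l : ℝ) + 1) ^ 2)) ^ (2 ^ (m - 2)) ≤ (c0 / (2 ^ (m + 2) * ((l : ℝ) + 1) ^ 2)) ^ 1 :=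
        pow_le_pow_of_le_one (by positivity) h1 Nat.one_le_two_pow
    _ = _ := pow_one _

/-- `16 rp ≤ c0 / (l+1)^2` -/
theorem LOK.rp_16 (h : LOK m L c0) (hm : 2 ≤ m) (l : ℕ) : 16 * L.rp m l ≤ c0 / ((l : ℝ) + 1) ^ 2 := by
  have h1 := h.rp_le' hm l
  have h0 := h.c0_pos
  have h2 : c0 / (2 ^ (m + 2) * ((l : ℝ) + 1) ^ 2) ≤ c0 / (16 * ((l : ℝ) + 1) ^ 2) := by
    refine div_le_div_of_nonneg_left h0.le (by positivity) ?_
    refine mul_le_mul_of_nonneg_right ?_ (by positivity)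
    have : (2 : ℝ) ^ 4 ≤ 2 ^ (m + 2) := pow_le_pow_right₀ (by norm_num) (by omega)
    linarith
  have h3 : c0 / ((l : ℝ) + 1) ^ 2 = 16 * (c0 / (16 * ((l : ℝ) + 1) ^ 2)) := by field_simp
  rw [h3]
  linarith

end LOKs

/-! ### one vertex -/

section one

variable {m : ℕ} [Nontrivial (Fin m)] {L : LayE}

theorem coldSet_one {r : ℕ → ℝ} (hr : ∀ l, 4 * L.rp m l ≤ r l) (o : ∀ k, V k) : ColdSet m L r o 1 := by
  intro C1 C2
  have hm : 0 < m := Fin.pos (Classical.arbitrary (Fin m))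
  have hm' : (0 : ℝ) < m := by exact_mod_cast hm
  have e1 := CS.ev_K L.kap_pos (m * 2 ^ (2 * L.E * (m - 1) + 1)) m C2 C1 (c := 1) one_pos
  obtain ⟨n0, hn0⟩ := eventually_atTop.1 e1
  refine ⟨n0, fun n hn k N hN F hF q U hU D hD => ?_⟩
  obtain ⟨i, rfl⟩ := Finset.card_eq_one.mp hU
  have e1 := hn0 n hn
  have hrp := L.rp_pos m n
  have hrd := rdH (m := m) L n
  rw [Fintype.card_fin] at hrd
  have hC := coldOn_single (Θ := Unit) (P := Unit) (s := o k) i hN (h0 := L.lh (n + 1)) (D := max D (L.lh (n + 1) + 3))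
    (le_max_right _ _) (R := Pc N L F n q) (θ := L.tp m n) (r1 := L.rp m n) (r := r n) (B := 2) (L.tp_pos m n).le hrp.le
    (Pc_PT L hN hF n q i) (Pc_on L hF n q) (Pc_le L hF n q) (by
      rw [Fintype.card_fin]
      have := hr n
      linarith)
  refine ⟨fun _ _ => False, ColdOn.mono hC (le_max_left _ _) le_rfl ?_ (Real.exp_pos _).le⟩
  refine le_trans ?_ e1
  rw [Fintype.card_fin]
  have h1 : max D (L.lh (n + 1) + 3) - 3 - L.lh (n + 1) ≤ D := by omega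
  have h2 : ((2 : ℝ) ^ (max D (L.lh (n + 1) + 3) - 3 - L.lh (n + 1))) ^ m ≤ Real.exp (m * (n : ℝ) ^ C2) := by
    rw [← pow_mul]
    refine CS.two_pow_le ?_
    push_cast
    have h3 : ((max D (L.lh (n + 1) + 3) - 3 - L.lh (n + 1) : ℕ) : ℝ) ≤ D := by exact_mod_cast h1
    calc ((max D (L.lh (n + 1) + 3) - 3 - L.lh (n + 1) : ℕ) : ℝ) * m ≤ (n : ℝ) ^ C2 * m :=
          mul_le_mul_of_nonneg_right (h3.trans hD) hm'.le
      _ = _ := mul_comm _ _
  have h4 : Real.exp (m * (n : ℝ) ^ C2 - 1 * (1 + L.kap) ^ n) = L.lth n * Real.exp (m * (n : ℝ) ^ C2) := by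
    unfold LayE.lth
    rw [← Real.exp_add]
    congr 1
    ring
  rw [h4]
  unfold LayE.tp
  have h5 := L.lth_pos n
  have h6 : 2 ^ (2 * L.E * (m - 1) + 1) * L.lth n * ((2 : ℝ) ^ (max D (L.lh (n + 1) + 3) - 3 - L.lh (n + 1))) ^ m ≤
      2 ^ (2 * L.E * (m - 1) + 1) * L.lth n * Real.exp (m * (n : ℝ) ^ C2) :=
    mul_le_mul_of_nonneg_left h2 (by positivity)
  calc (m : ℝ) * (2 ^ (2 * L.E * (m - 1) + 1) * L.lth n *
        ((2 : ℝ) ^ (max D (L.lh (n + 1) + 3) - 3 - L.lh (n + 1))) ^ m) ≤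
      m * (2 ^ (2 * L.E * (m - 1) + 1) * L.lth n * Real.exp (m * (n : ℝ) ^ C2)) :=
        mul_le_mul_of_nonneg_left h6 hm'.le
    _ = _ := by ring

/-- all vertices but one -/
theorem coldSet_erase {r' r : ℕ → ℝ} {o : ∀ k, V k} (H : ColdAll m L r' o) (hr : ∀ l, r' l + 2 * L.rp m l ≤ r l) :
    ColdSet m L r o (m - 1) := by
  intro C1 C2
  have hm : 0 < m := Fin.pos (Classical.arbitrary (Fin m))
  set C3 := C1 + C2 + 1 with hC3
  obtain ⟨l0, hl0⟩ := H C3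
  have e1 := CS.ev_P 2 1 C2 C1 C3 (by omega) (by omega)
  have e2 := CS.ev_P 1 0 0 C1 C3 (by omega) (by omega)
  obtain ⟨n0, hn0⟩ := eventually_atTop.1 (e1.and e2)
  refine ⟨max n0 l0, fun n hn k N hN F hF q U hU D hD => ?_⟩
  obtain ⟨e1, e2⟩ := hn0 n ((le_max_left _ _).trans hn)
  have hcold := hl0 n ((le_max_right _ _).trans hn) k N hN F hF q
  obtain ⟨x, hx⟩ : ∃ x, U = univ.erase x := by
    have h1 : (Uᶜ).card = 1 := by
      rw [Finset.card_compl, hU, Fintype.card_fin]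
      omega
    obtain ⟨x, hx⟩ := Finset.card_eq_one.mp h1
    refine ⟨x, ?_⟩
    ext j
    have h2 : j ∈ Uᶜ ↔ j = x := by rw [hx, Finset.mem_singleton]
    rw [Finset.mem_compl] at h2
    simp only [mem_erase, mem_univ, and_true]
    constructor
    · intro h3 h4
      exact (h2.mpr h4) h3
    · intro h3
      by_contra h4
      exact h3 (h2.mp h4)
  subst hx
  have hrd := rdH (m := m) L n
  rw [Fintype.card_fin] at hrd
  have hC := coldOn_erase (Θ := Unit) (P := Unit) (s := o k) x hN (h0 := L.lh (n + 1)) (D := D) (R := Pc N L F n q)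
    (B := 2) (r0 := r' n) (r := r n) (ρ := Real.exp (-(n : ℝ) ^ C3)) (e := Real.exp (-(n : ℝ) ^ C3)) (Pc_le L hF n q) (by
      rw [Fintype.card_fin]
      have := hr n
      linarith) (Real.exp_pos _).le (hcold x)
  refine ⟨_, ColdOn.mono hC le_rfl le_rfl ?_ ?_⟩
  · refine le_trans ?_ e1
    have h1 := CS.two_pow_le hD
    have h2 : Real.exp (1 * (n : ℝ) ^ C2 - (n : ℝ) ^ C3) = Real.exp ((n : ℝ) ^ C2) * Real.exp (-(n : ℝ) ^ C3) := by
      rw [← Real.exp_add]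
      congr 1
      ring
    rw [h2, ← mul_assoc]
    exact mul_le_mul_of_nonneg_right (mul_le_mul_of_nonneg_left h1 (by norm_num)) (Real.exp_pos _).le
  · refine le_trans (le_of_eq ?_) e2
    rw [one_mul]
    congr 1
    ring

end one

/-! ### two vertices -/

section two

variable {m : ℕ} [Nontrivial (Fin m)] {L : LayE} {c0 : ℝ}

/-- the rounding is at most linear in the number of the layer -/
theorem lh_lin (L : LayE) (l : ℕ) : (L.lh (l + 1) : ℝ) ≤ (L.a + 4 * L.E) + 2 * L.E * l := by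
  have h1 : Nat.clog 2 (l + 1 + 1) ≤ l + 1 + 1 := Nat.clog_le_of_le_pow (Nat.lt_two_pow_self).le
  have h2 : L.lh (l + 1) ≤ L.a + 2 * L.E * (l + 1 + 1) := by
    unfold LayE.lh
    exact Nat.add_le_add_left (Nat.mul_le_mul_left _ h1) _
  have h3 : (L.lh (l + 1) : ℝ) ≤ ((L.a + 2 * L.E * (l + 1 + 1) : ℕ) : ℝ) := by exact_mod_cast h2
  refine h3.trans (le_of_eq ?_)
  push_cast
  ring

/-- THE PAIRS ARE COLD (theorem C2) -/
theorem coldSet_two (hm : 3 ≤ m) (hL : LOK m L c0) {r : ℕ → ℝ} (hr : ∀ l : ℕ, c0 / ((l : ℝ) + 1) ^ 2 ≤ r l)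
    (o : ∀ k, V k) : ColdSet m L r o 2 := by
  intro C1 C2
  have hm0 : (0 : ℝ) < m := by exact_mod_cast (by omega : 0 < m)
  obtain ⟨C, hC, c, hpair⟩ := coldOn_pair (m - 2)
  set n' : ℕ := m - 2 with hn'
  set C3 : ℕ := C1 + C2 + 1 with hC3
  have hc00 := hL.c0_pos
  -- constants
  set cm : ℝ := 2 ^ (2 * L.E * (m - 1) + 1) * 2 ^ (n' * (n' + 1)) with hcm
  have hcm0 : 0 < cm := by rw [hcm]; positivity
  set K2 : ℝ := (L.a + 4 * L.E + n' + n' + 3) + 2 * L.E with hK2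
  have hK20 : 0 ≤ K2 := by rw [hK2]; positivity
  set K3 : ℝ := 1 + 5 + K2 + 1 + 9 * 2 ^ n' with hK3
  have hkap := L.kap_pos
  have e1 := CS.ev_K hkap (C * (2 * Real.exp (Real.log cm / 2))) (c * K3) (C3 + 1) C1 (c := 1 / 2) (by norm_num)
  have e2 := CS.ev_P (n' + 1) n' C2 C1 C3 (by omega) (by omega)
  have e3 := Par.ev_mono_le_LL (C := 1) le_rfl 2 (4 * 2 ^ (m + 1) / c0) (k := 1) one_pos
  have e4 := Par.ev_mono_le_LL (C := 1) le_rfl (2 * L.E) (1 + 2 * 3 ^ (2 * L.E) * 2 / L.c ^ 2) (k := 1) one_pos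
  have e5 := Par.ev_pow_le hkap 0 (2 * |Real.log cm| + 1) (k := 1) one_pos
  obtain ⟨n0, hn0⟩ := eventually_atTop.1 (e1.and (e2.and (e3.and (e4.and e5))))
  refine ⟨max n0 1, fun l hl k N hN F hF q' U hU D hD => ?_⟩
  have hl1 : 1 ≤ l := (le_max_right _ _).trans hl
  obtain ⟨e1, e2, e3, e4, e5⟩ := hn0 l ((le_max_left _ _).trans hl)
  have hx1 : (1 : ℝ) ≤ (l : ℝ) := by exact_mod_cast hl1
  set x : ℝ := (l : ℝ) with hx
  rw [pow_one, one_mul] at e3 e4
  rw [pow_zero, mul_one, one_mul] at e5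
  set K : ℝ := (1 + L.kap) ^ l with hK
  obtain ⟨a, b, hab, rfl⟩ := Finset.card_eq_two.mp hU
  set h : ℕ := L.lh (l + 1) with hh
  have hrp := L.rp_pos m l
  have hrd := L.rd1 (l + 1)
  have hlep := L.lep_pos l
  have hlep' := L.lep_pos (l + 1)
  have hles := L.lep_succ_le l
  have hxp : 0 < (x + 1) ^ 2 := by positivity
  set s' : ℝ := c0 / (2 ^ (m + 1) * (x + 1) ^ 2) with hs'
  have hs'0 : 0 < s' := by rw [hs']; positivity
  have hs'1 : s' ≤ 1 := by
    rw [hs', div_le_one (by positivity)]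
    have h2 : (1 : ℝ) ≤ 2 ^ (m + 1) := one_le_pow₀ (by norm_num)
    have h3 : (1 : ℝ) ≤ (x + 1) ^ 2 := one_le_pow₀ (by linarith)
    have := hL.c0_le
    nlinarith
  set δ : ℝ := Real.exp (-x ^ C3) with hδ
  have hδ0 : 0 < δ := Real.exp_pos _
  have hxC3 : (1 : ℝ) ≤ x ^ C3 := one_le_pow₀ hx1
  have hδ1 : δ ≤ 1 := by
    rw [hδ, Real.exp_le_one_iff]
    linarith
  set Q : ℕ := l ^ C3 + 3 with hQ
  have hQx : (Q : ℝ) = x ^ C3 + 3 := by rw [hQ]; push_cast; ring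
  have hQδ : 8 ≤ 4 ^ Q * δ := by
    have h1 : Real.exp (x ^ C3) ≤ 4 ^ (l ^ C3) := by
      have h2 : Real.exp 1 ≤ 4 := by
        have := Real.exp_one_lt_d9
        linarith
      calc Real.exp (x ^ C3) = Real.exp 1 ^ (l ^ C3) := by
            rw [← Real.exp_nat_mul]
            congr 1
            push_cast
            ring
        _ ≤ _ := pow_le_pow_left₀ (Real.exp_pos _).le h2 _
    have h3 : Real.exp (x ^ C3) * δ = 1 := by
      rw [hδ, ← Real.exp_add]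
      simp
    rw [hQ, pow_add]
    have h4 := mul_le_mul_of_nonneg_right h1 hδ0.le
    rw [h3] at h4
    have h5 : (4 : ℝ) ^ 3 = 64 := by norm_num
    rw [h5]
    nlinarith
  -- the number of changes
  set p : ℝ := 2 / L.lep l ^ 2 + 2 / L.lep (l + 1) ^ 2 with hp
  have hp0 : 0 ≤ p := by rw [hp]; positivity
  have hp1 : 1 + p ≤ Real.exp x := by
    refine le_trans ?_ e4
    have g1 : ∀ l' : ℕ, l' ≤ l + 1 → 2 / L.lep l' ^ 2 ≤ 2 * 3 ^ (2 * L.E) / L.c ^ 2 * x ^ (2 * L.E) := by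
      intro l' hl'
      have e1 : L.lep l' ^ 2 = L.c ^ 2 / ((l' : ℝ) + 1) ^ (2 * L.E) := by
        unfold LayE.lep
        rw [div_pow, ← pow_mul, mul_comm L.E 2]
      have e2 : (0 : ℝ) < ((l' : ℝ) + 1) ^ (2 * L.E) := by positivity
      have h6 : ((l' : ℝ) + 1) ^ (2 * L.E) ≤ 3 ^ (2 * L.E) * x ^ (2 * L.E) := by
        have h7 : (l' : ℝ) ≤ x + 1 := by
          have h8 : (l' : ℝ) ≤ ((l + 1 : ℕ) : ℝ) := by exact_mod_cast hl'
          push_cast at h8
          exact h8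
        calc ((l' : ℝ) + 1) ^ (2 * L.E) ≤ (3 * x) ^ (2 * L.E) :=
              pow_le_pow_left₀ (by positivity) (by linarith) _
          _ = 3 ^ (2 * L.E) * x ^ (2 * L.E) := by rw [mul_pow]
      have hc := L.c_pos
      rw [e1, div_div_eq_mul_div, div_mul_eq_mul_div]
      exact div_le_div_of_nonneg_right (by linarith) (by positivity)
    have g2 := g1 l (by omega)
    have g3 := g1 (l + 1) le_rfl
    have g4 : (1 : ℝ) ≤ x ^ (2 * L.E) := one_le_pow₀ hx1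
    have g5 : (1 + 2 * 3 ^ (2 * L.E) * 2 / L.c ^ 2) * x ^ (2 * L.E) =
        x ^ (2 * L.E) + (2 * 3 ^ (2 * L.E) / L.c ^ 2 * x ^ (2 * L.E) + 2 * 3 ^ (2 * L.E) / L.c ^ 2 * x ^ (2 * L.E)) := by
      ring
    rw [g5]
    linarith
  -- rarity
  have hθ0 := L.tp_pos m l
  have hθ' : L.tp m l * 2 ^ ((h + n' - h) * (n' + 1)) = cm * Real.exp (-K) := by
    have g1 : h + n' - h = n' := by omega
    rw [g1]
    unfold LayE.tp
    have g2 : L.lth l = Real.exp (-K) := rfl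
    rw [g2, hcm]
    ring
  set y : ℝ := K - Real.log cm with hy
  have hθ'' : cm * Real.exp (-K) = Real.exp (-y) := by
    rw [hy]
    have g1 : -(K - Real.log cm) = Real.log cm + -K := by ring
    rw [g1, Real.exp_add, Real.exp_log hcm0]
  have hy0 : 0 < y := by
    have g1 := le_abs_self (Real.log cm)
    have g2 := abs_nonneg (Real.log cm)
    rw [hy]
    linarith
  -- the hypotheses of the theorem on pairs
  have hrpb := hL.rp_le (by omega) l
  have hround : 2 * ((2 : ℝ) ^ h)⁻¹ ≤ L.rp m l / 2 := by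
    have g1 : L.lep l ≤ L.rp m l := by
      unfold LayE.rp
      have g2 : (1 : ℝ) ≤ 2 ^ (m - 1) := one_le_pow₀ (by norm_num)
      nlinarith
    have g3 : 64 * ((2 : ℝ) ^ h)⁻¹ ≤ L.lep (l + 1) := hrd
    linarith
  have hacc : L.rp m l / 2 + 2 * ((2 : ℝ) ^ h)⁻¹ ≤ (s' / 2) ^ (2 ^ n') := by
    have g1 : s' / 2 = c0 / (2 ^ (m + 2) * (x + 1) ^ 2) := by
      rw [hs', div_div]
      congr 1
      ring
    rw [g1]
    linarith
  have hthr : s' + 4 * ((2 : ℝ) ^ h)⁻¹ ≤ r l / 2 ^ Fintype.card (Fin m) := by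
    rw [Fintype.card_fin]
    have g1 := hL.rp_le' (by omega) l
    have g2 : c0 / (2 ^ (m + 2) * (x + 1) ^ 2) = s' / 2 := by
      rw [hs', div_div]
      congr 1
      ring
    rw [g2] at g1
    have g3 : c0 / (x + 1) ^ 2 / 2 ^ m = 2 * s' := by
      rw [hs', div_div]
      field_simp
      ring
    have g4 : c0 / (x + 1) ^ 2 / 2 ^ m ≤ r l / 2 ^ m := div_le_div_of_nonneg_right (hr l) (by positivity)
    linarith
  have h4n : 4 * n' ≤ 2 ^ (h + n' + 3) := by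
    have g1 : n' < 2 ^ n' := Nat.lt_two_pow_self
    have g2 : 2 ^ (h + n' + 3) = 2 ^ h * 2 ^ n' * 8 := by rw [pow_add, pow_add]; norm_num
    have g3 : 1 ≤ 2 ^ h := Nat.one_le_two_pow
    rw [g2]
    nlinarith
  have hmain := hpair (k := k) (N := N) (ι := Fin m) Unit Unit (a := a) (b := b) hab (enuFin hab) (o k) (h := h)
    (h' := h + n') (D := D) (q := Q) (p := p) (R := fun j => hf (Pc N L F l q' j)) hN h4n (Nat.le_add_right _ _)
    (fun i => hf_on (Pc_on L hF l q' i)) (fun i => hf_le (Pc_le L hF l q' i)) (θ := L.tp m l) (r1 := L.rp m l / 2)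
    (B := 2) hθ0 (by norm_num) (by positivity) (hf_PT (Pc_PT L hN hF l q' a)) (hf_PT (Pc_PT L hN hF l q' b))
    (by rw [hθ', hθ'', Real.exp_lt_one_iff]; linarith)
    (by rw [nch_hf]; exact nch_Pc (o k) L hF l q' a) (by rw [nch_hf]; exact nch_Pc (o k) L hF l q' b)
    (r := r l / 2 ^ Fintype.card (Fin m)) (s' := s') (δ := δ) hs'0 hs'1 hδ0 hδ1 hthr hacc hQδ
  refine ⟨_, ColdOn.mono (ColdOn.of_hf hmain) le_rfl le_rfl ?_ ?_⟩
  · -- the probability
    refine le_trans ?_ e2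
    have g1 : (2 : ℝ) ^ (n' * D) ≤ Real.exp (n' * x ^ C2) := by
      refine CS.two_pow_le ?_
      push_cast
      exact mul_le_mul_of_nonneg_left hD (Nat.cast_nonneg _)
    have g2 : Real.exp (n' * x ^ C2 - x ^ C3) = Real.exp (n' * x ^ C2) * δ := by
      rw [hδ, ← Real.exp_add]
      congr 1
    rw [g2]
    calc (2 : ℝ) ^ (n' * D) * ((n' + 1) * δ) ≤ Real.exp (n' * x ^ C2) * ((n' + 1) * δ) :=
          mul_le_mul_of_nonneg_right g1 (by positivity)
      _ = _ := by ring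
  · -- the mass
    refine le_trans ?_ e1
    rw [hθ', hθ'']
    have g0 := CS.xlog hy0.le
    -- the quality factor
    have hxle : x ≤ x ^ (C3 + 1) := by
      calc x = x ^ 1 := (pow_one x).symm
        _ ≤ _ := pow_le_pow_right₀ hx1 (by omega)
    have hone : 1 ≤ x ^ (C3 + 1) := one_le_pow₀ hx1
    have hC3le : x ^ C3 ≤ x ^ (C3 + 1) := pow_le_pow_right₀ hx1 (by omega)
    have hsinv : s'⁻¹ ≤ Real.exp x := by
      refine le_trans ?_ e3
      rw [hs', inv_div]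
      have g1 : (x + 1) ^ 2 ≤ 4 * x ^ 2 := by nlinarith
      calc 2 ^ (m + 1) * (x + 1) ^ 2 / c0 ≤ 2 ^ (m + 1) * (4 * x ^ 2) / c0 :=
            div_le_div_of_nonneg_right (mul_le_mul_of_nonneg_left g1 (by positivity)) hc00.le
        _ = _ := by ring
    have hR0 : (2 : ℝ) / (s' ^ (2 * Q) * δ) ^ (2 ^ n') ≤ Real.exp ((1 + 9 * 2 ^ n') * x ^ (C3 + 1)) := by
      have g1 : (s' ^ (2 * Q) * δ)⁻¹ ≤ Real.exp (9 * x ^ (C3 + 1)) := by
        rw [mul_inv]
        have g2 : (s' ^ (2 * Q))⁻¹ ≤ Real.exp (8 * x ^ (C3 + 1)) := by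
          rw [← inv_pow]
          calc s'⁻¹ ^ (2 * Q) ≤ Real.exp x ^ (2 * Q) := pow_le_pow_left₀ (by positivity) hsinv _
            _ = Real.exp (((2 * Q : ℕ) : ℝ) * x) := by rw [← Real.exp_nat_mul]
            _ ≤ _ := by
                refine Real.exp_le_exp.mpr ?_
                have k1 : x ^ (C3 + 1) = x ^ C3 * x := pow_succ x C3
                have k2 : x ≤ x ^ C3 * x := le_mul_of_one_le_left (by linarith) hxC3
                have k3 : ((2 * Q : ℕ) : ℝ) * x = 2 * (x ^ C3 * x) + 6 * x := by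
                  rw [Nat.cast_mul, hQx]
                  push_cast
                  ring
                rw [k1, k3]
                linarith
        have g3 : δ⁻¹ = Real.exp (x ^ C3) := by rw [hδ, ← Real.exp_neg, neg_neg]
        rw [g3]
        calc (s' ^ (2 * Q))⁻¹ * Real.exp (x ^ C3) ≤ Real.exp (8 * x ^ (C3 + 1)) * Real.exp (x ^ (C3 + 1)) :=
              mul_le_mul g2 (Real.exp_le_exp.mpr hC3le) (Real.exp_pos _).le (Real.exp_pos _).le
          _ = _ := by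
              rw [← Real.exp_add]
              congr 1
              ring
      have g4 : (2 : ℝ) ≤ Real.exp (x ^ (C3 + 1)) := by
        have := Real.add_one_le_exp (x ^ (C3 + 1))
        linarith
      calc (2 : ℝ) / (s' ^ (2 * Q) * δ) ^ (2 ^ n') = 2 * ((s' ^ (2 * Q) * δ)⁻¹) ^ (2 ^ n') := by
            rw [inv_pow, div_eq_mul_inv]
        _ ≤ Real.exp (x ^ (C3 + 1)) * Real.exp (9 * x ^ (C3 + 1)) ^ (2 ^ n') :=
            mul_le_mul g4 (pow_le_pow_left₀ (by positivity) g1 _) (by positivity) (Real.exp_pos _).le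
        _ = _ := by
            rw [← Real.exp_nat_mul, ← Real.exp_add]
            congr 1
            push_cast
            ring
    have hQb : GMC.Qb ((s' ^ (2 * Q) * δ) ^ (2 ^ n') / 2) p Q (2 ^ (h + n' + 3)) ≤ Real.exp (K3 * x ^ (C3 + 1)) := by
      unfold GMC.Qb
      have g1 : 1 + (Q : ℝ) ≤ Real.exp (5 * x ^ (C3 + 1)) := by
        rw [hQx]
        have := Real.add_one_le_exp (5 * x ^ (C3 + 1))
        linarith
      have g2 : (2 : ℝ) ^ (h + n' + 3) ≤ Real.exp (K2 * x ^ (C3 + 1)) := by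
        refine CS.two_pow_le ?_
        push_cast
        have g3 := lh_lin L l
        have g4 : (L.a : ℝ) + 4 * L.E + n' + n' + 3 ≤ (L.a + 4 * L.E + n' + n' + 3) * x ^ (C3 + 1) :=
          le_mul_of_one_le_right (by positivity) hone
        have g5 : 2 * (L.E : ℝ) * x ≤ 2 * L.E * x ^ (C3 + 1) := mul_le_mul_of_nonneg_left hxle (by positivity)
        have g6 : (0 : ℝ) ≤ n' := Nat.cast_nonneg _
        have g7 : K2 * x ^ (C3 + 1) = (L.a + 4 * L.E + n' + n' + 3) * x ^ (C3 + 1) + 2 * L.E * x ^ (C3 + 1) := by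
          rw [hK2]
          ring
        rw [g7]
        have g8 : (h : ℝ) ≤ L.a + 4 * L.E + 2 * L.E * x := g3
        linarith
      have g9 : Real.exp x ≤ Real.exp (1 * x ^ (C3 + 1)) := Real.exp_le_exp.mpr (by linarith)
      have g10 : (1 + p) * (1 + (Q : ℝ)) * 2 ^ (h + n' + 3) / ((s' ^ (2 * Q) * δ) ^ (2 ^ n') / 2) =
          (1 + p) * (1 + (Q : ℝ)) * 2 ^ (h + n' + 3) * (2 / (s' ^ (2 * Q) * δ) ^ (2 ^ n')) := by
        rw [div_div_eq_mul_div, mul_div_assoc]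
      rw [g10]
      have g11 : Real.exp (K3 * x ^ (C3 + 1)) = Real.exp (1 * x ^ (C3 + 1)) * Real.exp (5 * x ^ (C3 + 1)) *
          Real.exp (K2 * x ^ (C3 + 1)) * Real.exp ((1 + 9 * 2 ^ n') * x ^ (C3 + 1)) := by
        rw [← Real.exp_add, ← Real.exp_add, ← Real.exp_add]
        congr 1
        rw [hK3]
        ring
      rw [g11]
      have g12 : (1 + p) * (1 + (Q : ℝ)) ≤ Real.exp (1 * x ^ (C3 + 1)) * Real.exp (5 * x ^ (C3 + 1)) :=
        mul_le_mul (hp1.trans g9) g1 (by positivity) (Real.exp_pos _).le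
      have g13 : (1 + p) * (1 + (Q : ℝ)) * 2 ^ (h + n' + 3) ≤
          Real.exp (1 * x ^ (C3 + 1)) * Real.exp (5 * x ^ (C3 + 1)) * Real.exp (K2 * x ^ (C3 + 1)) :=
        mul_le_mul g12 g2 (by positivity) (by positivity)
      exact mul_le_mul g13 hR0 (by positivity) (by positivity)
    have hQb0 : 0 ≤ GMC.Qb ((s' ^ (2 * Q) * δ) ^ (2 ^ n') / 2) p Q (2 ^ (h + n' + 3)) := by
      unfold GMC.Qb
      positivity
    have hQc : GMC.Qb ((s' ^ (2 * Q) * δ) ^ (2 ^ n') / 2) p Q (2 ^ (h + n' + 3)) ^ c ≤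
        Real.exp (c * K3 * x ^ (C3 + 1)) := by
      calc GMC.Qb ((s' ^ (2 * Q) * δ) ^ (2 ^ n') / 2) p Q (2 ^ (h + n' + 3)) ^ c ≤ Real.exp (K3 * x ^ (C3 + 1)) ^ c :=
            pow_le_pow_left₀ hQb0 hQb _
        _ = _ := by
            rw [← Real.exp_nat_mul]
            congr 1
            ring
    have hfin : Real.exp (-(y / 2)) = Real.exp (Real.log cm / 2) * Real.exp (-(1 / 2 * K)) := by
      rw [← Real.exp_add]
      congr 1
      rw [hy]
      ring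
    calc C * GMC.Qb ((s' ^ (2 * Q) * δ) ^ (2 ^ n') / 2) p Q (2 ^ (h + n' + 3)) ^ c *
          (Real.exp (-y) * (1 + Real.log (1 / Real.exp (-y)))) ≤
        C * Real.exp (c * K3 * x ^ (C3 + 1)) * (2 * Real.exp (-(y / 2))) := by
          refine mul_le_mul (mul_le_mul_of_nonneg_left hQc hC.le) g0 ?_ (by positivity)
          have g1 : Real.log (1 / Real.exp (-y)) = y := by
            rw [one_div, ← Real.exp_neg, neg_neg, Real.log_exp]
          rw [g1]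
          positivity
      _ = C * (2 * Real.exp (Real.log cm / 2)) * Real.exp (c * K3 * x ^ (C3 + 1) - 1 / 2 * K) := by
          rw [hfin]
          have g2 : Real.exp (c * K3 * x ^ (C3 + 1) - 1 / 2 * K) =
              Real.exp (c * K3 * x ^ (C3 + 1)) * Real.exp (-(1 / 2 * K)) := by
            rw [← Real.exp_add]
            congr 1
          rw [g2]
          ring

end two

end

end Pool.Agent.GM
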