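import Pool.Agent.GM.PieceX3

/-!
# GM/ColdXNat: FROM THE COLD SET `univ.erase a` (class `Zk`, all the noise) TO THE NATURAL CLASS `Kn a` (helper68)

`Rd s d e a v = (th v, Gm s d e v, ot a v)` : rounded node with the finer rounding `d`, a filtration, coarser than `Kn a`.
* `ce_diag` : the diagonal of `Kn a` against the diagonal of any point with the same `Rd` : error `4 / 2 ^ d`;
* `ce_strip` : a bound given all classes `Zk (univ.erase a) r'`, `r' ≤ e - d`, gives three times this bound given `Rd`;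
* **`coldX_nat`** : `ColdX .. (univ.erase a) D r σ e H`, `h ≤ d ≤ D`, `h + 3 ≤ D`, `r + 4 / 2 ^ d ≤ r1` ⟹
  `P (∃ 1 ≤ t ≤ N, 3 σ + 4 / 2 ^ d + ρ ≤ ce (Kn a (ex N t)) (r1 ≤ |T_t|)) ≤ e / ρ`;
* **`coldAt_of_coldX`** : the binary form `GS.ColdAt` with the coin at the hidden vertex.
-/

set_option autoImplicit false
set_option linter.unusedSectionVars false

namespace Pool.Agent.GM

open Finset Pool.Agent.PWZ Pool.Agent.M3 Pool.Agent.M3.TS Pool.Agent.M3.Bin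
open Pool.Agent.M3.Mod (nd av)
open Pool.Agent.GMC (famS pq)
open Pool.Agent.GM.KVer

noncomputable section

/-! ## conditional expectations -/

section fp

variable {Om : Type*} [Fintype Om] (P : FP Om) {κ : Type*}

theorem ce_class_ge {X : Om → κ} {f : Om → ℝ} {w : Om} (hw : P.p w ≠ 0) {c : ℝ} (h : ∀ v, X v = X w → c ≤ f v) :
    c ≤ P.ce X f w := by
  have hm := P.m_pos X hw
  unfold FP.ce
  rw [le_div_iff₀ hm]
  unfold FP.m
  rw [← P.E_smul]
  refine P.E_mono fun v _ => ?_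
  by_cases hv : X v = X w
  · rw [ind_of hv]
    linarith [h v hv]
  · rw [ind_not hv]
    simp

theorem doob_ce {κ' : ℕ → Type*} {X : ∀ t, Om → κ' t} (hX : Filt X) {f : Om → ℝ} (hf : ∀ w, P.p w ≠ 0 → 0 ≤ f w) (n : ℕ)
    (c : ℝ) : c * P.Pr (fun w => ∃ t ≤ n, c ≤ P.ce (X t) f w) ≤ P.E f := by
  have h1 := P.doob_sub hX (Z := fun t => P.ce (X t) f) (fun t => P.ce_fac _ _) (fun t w _ => P.ce_nonneg hf w)
    (fun t w _ => le_of_eq (P.ce_tower (hX t) f w).symm) n c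
  rwa [P.E_ce] at h1

end fp

/-! ## cells -/

section cells

variable {k : ℕ}

theorem rem_le {d e i : ℕ} (hi : i < 2 ^ (e - d)) : (i : ℝ) / 2 ^ e ≤ ((2 : ℝ) ^ d)⁻¹ := by
  by_cases hde : d ≤ e
  · have h2 : (i : ℝ) ≤ 2 ^ (e - d) := by exact_mod_cast hi.le
    have h3 : (2 : ℝ) ^ e = 2 ^ (e - d) * 2 ^ d := by rw [← pow_add]; congr 1; omega
    rw [div_le_iff₀ (by positivity), h3]
    calc (i : ℝ) ≤ 2 ^ (e - d) := h2
      _ = ((2 : ℝ) ^ d)⁻¹ * (2 ^ (e - d) * 2 ^ d) := by field_simp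
  · rw [show e - d = 0 by omega, pow_zero] at hi
    have : i = 0 := by omega
    subst this
    simp only [Nat.cast_zero, zero_div]
    positivity

/-- windows at two points of the same small cell, translated -/
theorem av_near {d e : ℕ} {y y' : V k} (hy : flr (e - d) y = flr (e - d) y') (c : V k) {f : V k → ℝ} {B : ℝ}
    (hB : ∀ x, |f x| ≤ B) : |av e (y - c) f - av e (y' - c) f| ≤ 4 * B * ((2 : ℝ) ^ d)⁻¹ := by
  have hB0 : 0 ≤ B := (abs_nonneg _).trans (hB 0)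
  obtain ⟨i, hi, hyi⟩ := flr_add_rem (e - d) y
  obtain ⟨i', hi', hyi'⟩ := flr_add_rem (e - d) y'
  rw [Mod.av_eq_ip, Mod.av_eq_ip]
  set b := flr (e - d) y - c with hb
  have e1 : y - c = b + (i : V k) := by
    rw [hb]
    nth_rewrite 1 [hyi]
    abel
  have e2 : y' - c = b + (i' : V k) := by
    rw [hb, hy]
    nth_rewrite 1 [hyi']
    abel
  have h1 := ip_shift e b f (fun _ => 1) B (fun d => by rw [mul_one]; exact hB d) i
  have h2 := ip_shift e b f (fun _ => 1) B (fun d => by rw [mul_one]; exact hB d) i'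
  rw [e1, e2]
  have h3 : 2 * (i : ℝ) * B / 2 ^ e ≤ 2 * B * ((2 : ℝ) ^ d)⁻¹ := by
    have := mul_le_mul_of_nonneg_left (rem_le hi) (show 0 ≤ 2 * B by linarith)
    calc 2 * (i : ℝ) * B / 2 ^ e = 2 * B * ((i : ℝ) / 2 ^ e) := by ring
      _ ≤ _ := this
  have h4 : 2 * (i' : ℝ) * B / 2 ^ e ≤ 2 * B * ((2 : ℝ) ^ d)⁻¹ := by
    have := mul_le_mul_of_nonneg_left (rem_le hi') (show 0 ≤ 2 * B by linarith)
    calc 2 * (i' : ℝ) * B / 2 ^ e = 2 * B * ((i' : ℝ) / 2 ^ e) := by ring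
      _ ≤ _ := this
  have h5 := abs_sub_le (ip e (b + (i : V k)) f fun _ => 1) (ip e b f fun _ => 1) (ip e (b + (i' : V k)) f fun _ => 1)
  have h6 := abs_sub_comm (ip e b f fun _ => 1) (ip e (b + (i' : V k)) f fun _ => 1)
  linarith

/-- the cell of a point which is near -/
theorem flr_near {m : ℕ} (hm : m ≤ k) (y : V k) {i i' : ℕ} (hi : i < 2 ^ m) (hi' : i' < 2 ^ m) :
    flr m (y + (i : V k) - (i' : V k)) = flr m y ∨
    flr m (y + (i : V k) - (i' : V k)) = flr m (y + ((2 ^ m : ℕ) : V k)) ∨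
    flr m (y + (i : V k) - (i' : V k)) = flr m (y - ((2 ^ m : ℕ) : V k)) := by
  obtain ⟨j, hj, hyj⟩ := flr_add_rem m y
  set c := flr m y with hc
  have hcc : flr m c = c := flr_flr le_rfl y
  have hp : flr m (y + ((2 ^ m : ℕ) : V k)) = c + ((2 ^ m : ℕ) : V k) := by
    have := flr_add_mul (le_refl m) y 1
    rwa [one_mul] at this
  have hn : flr m (y - ((2 ^ m : ℕ) : V k)) = c - ((2 ^ m : ℕ) : V k) := by
    have := flr_sub_pow (le_refl m) y 1
    rwa [one_mul] at this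
  have hcp : flr m (c + ((2 ^ m : ℕ) : V k)) = c + ((2 ^ m : ℕ) : V k) := by
    have := flr_add_mul (le_refl m) c 1
    rw [one_mul, hcc] at this
    exact this
  have hcn : flr m (c - ((2 ^ m : ℕ) : V k)) = c - ((2 ^ m : ℕ) : V k) := by
    have := flr_sub_pow (le_refl m) c 1
    rw [one_mul, hcc] at this
    exact this
  rw [hp, hn]
  rcases Nat.lt_or_ge (j + i) i' with h1 | h1
  · right; right
    have e1 : y + (i : V k) - (i' : V k) = (c - ((2 ^ m : ℕ) : V k)) + ((2 ^ m + j + i - i' : ℕ) : V k) := by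
      rw [Nat.cast_sub (by omega)]
      nth_rewrite 1 [hyj]
      push_cast
      ring
    rw [e1]
    exact flr_aligned_add hm _ hcn _ (by omega)
  · rcases Nat.lt_or_ge (j + i - i') (2 ^ m) with h2 | h2
    · left
      have e1 : y + (i : V k) - (i' : V k) = c + ((j + i - i' : ℕ) : V k) := by
        rw [Nat.cast_sub h1]
        nth_rewrite 1 [hyj]
        push_cast
        ring
      rw [e1]
      exact flr_aligned_add hm _ hcc _ h2
    · right; left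
      have e1 : y + (i : V k) - (i' : V k) = (c + ((2 ^ m : ℕ) : V k)) + ((j + i - i' - 2 ^ m : ℕ) : V k) := by
        rw [Nat.cast_sub h2, Nat.cast_sub h1]
        nth_rewrite 1 [hyj]
        push_cast
        ring
      rw [e1]
      exact flr_aligned_add hm _ hcp _ (by omega)

end cells

/-! ## the filtration -/

section filt

variable {k N : ℕ} {ι Θ P Ξ : Type} [Fintype ι] [DecidableEq ι] (s : V k)

/-- the node with the finer rounding `d`, the known vertices, the public randomness -/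
def Rd (d e : ℕ) (a : ι) (v : Sq k N ι Θ P) : Θ × (V k × ℕ) × ({j : ι // j ≠ a} → P × V k) :=
  (th v, Gm s d e v, ot a v)

theorem Rd_eq {d e : ℕ} {a : ι} {v w : Sq k N ι Θ P} :
    Rd s d e a v = Rd s d e a w ↔ th v = th w ∧ Gm s d e v = Gm s d e w ∧ ot a v = ot a w := by
  unfold Rd
  rw [Prod.mk.injEq, Prod.mk.injEq]

theorem filt_Rd (d : ℕ) (a : ι) : Filt (fun t (v : Sq k N ι Θ P) => Rd s d (Mod.ex N t) a v) := by
  intro t v w hv
  rw [Rd_eq] at hv ⊢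
  exact ⟨hv.1, filt_Gm s d t v w hv.2.1, hv.2.2⟩

/-- the natural class is finer -/
theorem Kn_Rd (d e : ℕ) (a : ι) : Fac (Kn (k := k) (N := N) (Θ := Θ) (P := P) a e) (Rd s d e a) := by
  intro v w hv
  rw [Kn_eq] at hv
  rw [Rd_eq]
  refine ⟨hv.1, fac_Yn_Gm s d e v w (fac_Yn s a e v w (Prod.ext hv.2.1 hv.2.2)), hv.2.2⟩

/-- translation of the vertex `a` -/
def shv (a : ι) (c : V k) (v : Sq k N ι Θ P) : Sq k N ι Θ P :=
  (v.1, Function.update v.2.1 a ((v.2.1 a).1, (v.2.1 a).2 + c), v.2.2)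

theorem shv_shv (a : ι) (c : V k) (v : Sq k N ι Θ P) : shv a (-c) (shv a c v) = v := by
  unfold shv
  refine Prod.ext rfl (Prod.ext ?_ rfl)
  funext j
  by_cases hj : j = a
  · subst hj
    simp
  · simp [hj]

/-- the translation as an equivalence -/
def shE (a : ι) (c : V k) : Sq k N ι Θ P ≃ Sq k N ι Θ P where
  toFun := shv a c
  invFun := shv a (-c)
  left_inv v := shv_shv a c v
  right_inv v := by
    have := shv_shv a (-c) v
    rwa [neg_neg] at this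

theorem E_shv [Fintype Θ] [Nonempty Θ] [Fintype P] [Nonempty P] (a : ι) (c : V k) (f : Sq k N ι Θ P → ℝ) :
    (Pm : FP (Sq k N ι Θ P)).E (fun v => f (shv a c v)) = (Pm : FP (Sq k N ι Θ P)).E f := by
  unfold Pm
  rw [FP.unif_E, FP.unif_E]
  congr 1
  exact Fintype.sum_equiv (shE a c) _ _ (fun _ => rfl)

theorem ot_shv (a : ι) (c : V k) (v : Sq k N ι Θ P) : ot a (shv a c v) = ot a v := by
  funext j
  show Function.update v.2.1 a _ j.1 = v.2.1 j.1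
  rw [Function.update_of_ne j.2]

theorem co_shv (a : ι) (c : V k) (v : Sq k N ι Θ P) : co s a (shv a c v) = co s a v :=
  co_fac s a _ _ (ot_shv a c v)

theorem Yn_shv (e : ℕ) (a : ι) (c : V k) (v : Sq k N ι Θ P) :
    Yn s e (shv a c v) = ((Yn s e v).1 + c, (Yn s e v).2) := by
  have h1 : (vx a (shv a c v)).2 = (vx a v).2 + c := by
    show (Function.update v.2.1 a _ a).2 = _
    rw [Function.update_self]
    rfl
  have h2 : nz (shv a c v) = nz v := rfl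
  unfold Yn nd
  rw [ctr_eq s a, ctr_eq s a, co_shv, h1, h2]
  refine Prod.ext ?_ rfl
  unfold Bin.pos
  simp only
  abel

theorem Gm_flr (d e : ℕ) (v : Sq k N ι Θ P) : Gm s d e v = (flr (e - d) (Yn s e v).1, (Yn s e v).2) := rfl

/-- a point of a class `Zk` which meets a class `Rd`: three cases -/
theorem Rd_cases {d e r' : ℕ} {a : ι} (he : e ≤ k) (hr : r' ≤ e - d) {v v' w : Sq k N ι Θ P}
    (h1 : Zk (univ.erase a) r' v' = Zk (univ.erase a) r' v) (h2 : Rd s d e a v' = Rd s d e a w) :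
    Rd s d e a v = Rd s d e a w ∨ Rd s d e a (shv a ((2 ^ (e - d) : ℕ) : V k) v) = Rd s d e a w ∨
      Rd s d e a (shv a (-((2 ^ (e - d) : ℕ) : V k)) v) = Rd s d e a w := by
  have hth : th v' = th v := congrArg (fun x => x.1) h1
  have hnz : nz v' = nz v := congrArg (fun x => x.2.2.1) h1
  have hot : ot a v' = ot a v := by
    funext j
    exact Zk_vx (Finset.mem_erase.2 ⟨j.2, Finset.mem_univ _⟩) r' _ _ h1
  have hfl : flr r' (vx a v').2 = flr r' (vx a v).2 := Zk_flr (univ.erase a) r' a _ _ h1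
  obtain ⟨i, hi, hvi⟩ := flr_add_rem r' (vx a v').2
  obtain ⟨i', hi', hvi'⟩ := flr_add_rem r' (vx a v).2
  have hpow : 2 ^ r' ≤ 2 ^ (e - d) := Nat.pow_le_pow_right (by norm_num) hr
  have hx : (vx a v').2 = (vx a v).2 + (i : V k) - (i' : V k) := by
    calc (vx a v').2 = flr r' (vx a v').2 + (i : V k) := hvi
      _ = flr r' (vx a v).2 + (i : V k) := by rw [hfl]
      _ = (flr r' (vx a v).2 + (i' : V k)) + (i : V k) - (i' : V k) := by abel
      _ = _ := by rw [← hvi']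
  have hY : (Yn s e v').1 = (Yn s e v).1 + (i : V k) - (i' : V k) := by
    unfold Yn nd Bin.pos
    simp only
    rw [ctr_eq s a, ctr_eq s a, co_fac s a _ _ hot, hnz, hx]
    abel
  have hY2 : (Yn s e v').2 = (Yn s e v).2 := by
    show nz v' / 2 ^ e = nz v / 2 ^ e
    rw [hnz]
  have hnear := flr_near (k := k) (m := e - d) (by omega) (Yn s e v).1 (hi.trans_le hpow) (hi'.trans_le hpow)
  rw [← hY] at hnear
  rw [Rd_eq] at h2
  rw [Rd_eq, Rd_eq, Rd_eq, ot_shv, ot_shv, ← hth, ← hot]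
  have g1 : ∀ c : V k, th (shv a c v) = th v' := fun c => hth.symm
  rw [g1, g1]
  have g2 : ∀ z : Sq k N ι Θ P, Gm s d e v' = Gm s d e z → Gm s d e z = Gm s d e w := fun z hz => hz ▸ h2.2.1
  rcases hnear with h3 | h3 | h3
  · refine Or.inl ⟨h2.1, g2 v ?_, h2.2.2⟩
    rw [Gm_flr, Gm_flr, h3, hY2]
  · refine Or.inr (Or.inl ⟨h2.1, g2 _ ?_, h2.2.2⟩)
    rw [Gm_flr, Gm_flr, Yn_shv, h3, hY2]
  · refine Or.inr (Or.inr ⟨h2.1, g2 _ ?_, h2.2.2⟩)
    rw [Gm_flr, Gm_flr, Yn_shv, h3, hY2, sub_eq_add_neg]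

variable [Fintype Θ] [Nonempty Θ] [Fintype P] [Nonempty P]

/-- **FROM THE CELLS TO THE STRIP** -/
theorem ce_strip {d e r' : ℕ} {a : ι} (he : e ≤ k) (hr : r' ≤ e - d) {ψ : Sq k N ι Θ P → ℝ} (h0 : ∀ v, 0 ≤ ψ v)
    {σ : ℝ} (h : ∀ w, (Pm : FP (Sq k N ι Θ P)).ce (Zk (univ.erase a) r') ψ w ≤ σ) (w : Sq k N ι Θ P) :
    (Pm : FP (Sq k N ι Θ P)).ce (Rd s d e a) ψ w ≤ 3 * σ := by
  have hm := (Pm : FP (Sq k N ι Θ P)).m_pos (Rd s d e a) (Pm_ne w)
  have hσ : 0 ≤ σ := le_trans ((Pm : FP (Sq k N ι Θ P)).ce_nonneg (fun v _ => h0 v) w) (h w)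
  set M : Sq k N ι Θ P → ℝ := fun v =>
    ind (∃ v' : Sq k N ι Θ P, Zk (univ.erase a) r' v' = Zk (univ.erase a) r' v ∧ Rd s d e a v' = Rd s d e a w) with hM
  have hMf : Fac (Zk (univ.erase a) r') M := by
    refine Fac.ind fun v v1 hv => ?_
    rw [hv]
  have hM0 : ∀ v, 0 ≤ M v := fun v => ind_nonneg _
  unfold FP.ce
  rw [div_le_iff₀ hm]
  have h1 : (Pm : FP (Sq k N ι Θ P)).E (fun v => ind (Rd s d e a v = Rd s d e a w) * ψ v) ≤
      (Pm : FP (Sq k N ι Θ P)).E (fun v => M v * ψ v) := by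
    refine FP.E_mono _ fun v _ => mul_le_mul_of_nonneg_right (ind_mono fun hv => ⟨v, rfl, hv⟩) (h0 v)
  have h2 : (Pm : FP (Sq k N ι Θ P)).E (fun v => M v * ψ v) ≤ (Pm : FP (Sq k N ι Θ P)).E (fun v => σ * M v) := by
    rw [← FP.E_mul_ce _ hMf ψ]
    refine FP.E_mono _ fun v _ => ?_
    rw [mul_comm σ]
    exact mul_le_mul_of_nonneg_left (h v) (hM0 v)
  have h3 : (Pm : FP (Sq k N ι Θ P)).E M ≤ 3 * (Pm : FP (Sq k N ι Θ P)).m (Rd s d e a) w := by
    have h4 : ∀ v, M v ≤ ind (Rd s d e a v = Rd s d e a w) +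
        (ind (Rd s d e a (shv a ((2 ^ (e - d) : ℕ) : V k) v) = Rd s d e a w) +
          ind (Rd s d e a (shv a (-((2 ^ (e - d) : ℕ) : V k)) v) = Rd s d e a w)) := by
      intro v
      by_cases hv : ∃ v' : Sq k N ι Θ P, Zk (univ.erase a) r' v' = Zk (univ.erase a) r' v ∧ Rd s d e a v' = Rd s d e a w
      · obtain ⟨v', a1, a2⟩ := hv
        have n1 := ind_nonneg (Rd s d e a v = Rd s d e a w)
        have n2 := ind_nonneg (Rd s d e a (shv a ((2 ^ (e - d) : ℕ) : V k) v) = Rd s d e a w)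
        have n3 := ind_nonneg (Rd s d e a (shv a (-((2 ^ (e - d) : ℕ) : V k)) v) = Rd s d e a w)
        have n4 : M v ≤ 1 := ind_le_one _
        rcases Rd_cases s he hr a1 a2 with h5 | h5 | h5
        · rw [ind_of h5]
          linarith
        · rw [ind_of h5]
          linarith
        · rw [ind_of h5]
          linarith
      · have n1 := ind_nonneg (Rd s d e a v = Rd s d e a w)
        have n2 := ind_nonneg (Rd s d e a (shv a ((2 ^ (e - d) : ℕ) : V k) v) = Rd s d e a w)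
        have n3 := ind_nonneg (Rd s d e a (shv a (-((2 ^ (e - d) : ℕ) : V k)) v) = Rd s d e a w)
        have n4 : M v = 0 := ind_not hv
        linarith
    refine (FP.E_mono _ fun v _ => h4 v).trans ?_
    rw [FP.E_add, FP.E_add, E_shv a _ (fun v => ind (Rd s d e a v = Rd s d e a w)),
      E_shv a _ (fun v => ind (Rd s d e a v = Rd s d e a w))]
    unfold FP.m
    linarith
  rw [FP.E_smul] at h2
  calc _ ≤ σ * (Pm : FP (Sq k N ι Θ P)).E M := h1.trans h2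
    _ ≤ σ * (3 * (Pm : FP (Sq k N ι Θ P)).m (Rd s d e a) w) := mul_le_mul_of_nonneg_left h3 hσ
    _ = _ := by ring

/-! ## the diagonal -/

theorem Kn_updh (a : ι) {e : ℕ} (he : e ≤ N) (p : P) {n : ℕ} (hn : n < 2 ^ e) (w : Sq k N ι Θ P) :
    Kn a e (updh a e he p n w) = Kn a e w := by
  have hnz : nz (updh a e he p n w) = nz w / 2 ^ e * 2 ^ e + n % 2 ^ e := rfl
  have hmod : nz (updh a e he p n w) % 2 ^ e = n := by
    rw [hnz, Nat.mul_comm, Nat.mul_add_mod, Nat.mod_mod, Nat.mod_eq_of_lt hn]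
  have hdiv : nz (updh a e he p n w) / 2 ^ e = nz w / 2 ^ e := by
    rw [hnz, Nat.mul_comm, Nat.mul_add_div (by positivity), Nat.div_eq_of_lt (Nat.mod_lt _ (by positivity)),
      Nat.add_zero]
  have hvx : (vx a (updh a e he p n w)).2 = (Zn a e w).1 - (n : V k) := by
    unfold vx updh
    simp
  rw [Kn_eq]
  refine ⟨rfl, Prod.ext ?_ hdiv, funext fun j => ?_⟩
  · show Bin.pos e (vx a (updh a e he p n w)).2 (nz (updh a e he p n w)) = (Zn a e w).1
    unfold Bin.pos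
    rw [hvx, hmod]
    abel
  · show Function.update w.2.1 a _ j.1 = w.2.1 j.1
    rw [Function.update_of_ne j.2]

theorem ce_Kn_av (a : ι) {e : ℕ} (he : e ≤ N) {f : Sq k N ι Θ P → ℝ} {w : Sq k N ι Θ P} {g : P → V k → ℝ}
    (hfg : ∀ (p : P) (n : ℕ), n < 2 ^ e → f (updh a e he p n w) = g p ((Zn a e w).1 - (n : V k))) :
    (Pm : FP (Sq k N ι Θ P)).ce (Kn a e) f w = (Fintype.card P : ℝ)⁻¹ * ∑ p, av e (Zn a e w).1 (g p) := by
  have h1 := ce_hidden a he f w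
  have h2 : (Pm : FP (Sq k N ι Θ P)).ce (Kn a e) f w =
      (Pm : FP (Sq k N ι Θ P)).ce (fun ω => (th ω, Zn a e ω, ot a ω)) f w := rfl
  rw [h2, h1, mul_inv, mul_assoc, Finset.mul_sum]
  congr 1
  refine Finset.sum_congr rfl fun p _ => ?_
  unfold av
  congr 1
  exact Finset.sum_congr rfl fun n hn => hfg p n (Finset.mem_range.mp hn)

variable [Fintype Ξ]

/-- weight of the values `≥ r` -/
def phiR (h e : ℕ) (R : Θ → Ξ → ι → Fam k ι P) (wx : Ξ → ℝ) (r : ℝ) (v : Sq k N ι Θ P) : ℝ :=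
  ∑ ξ, wx ξ * ind (r ≤ |TT s h (R (th v) ξ) e v|)

/-- the same at a point of the diagonal -/
def PH (h e : ℕ) (R : Θ → Ξ → ι → Fam k ι P) (wx : Ξ → ℝ) (r : ℝ) (a : ι) (w : Sq k N ι Θ P) (p : P) (x : V k) : ℝ :=
  ∑ ξ, wx ξ * ind (r ≤ |av e (Yn s e w).1 (fun d => ∏ i, R (th w) ξ i e (Gm s h e w) (Function.update (vs w) a (p, x)) d)|)

theorem phiR_updh {h e : ℕ} (he : e ≤ N) (R : Θ → Ξ → ι → Fam k ι P) (wx : Ξ → ℝ) (r : ℝ) (a : ι)
    (w : Sq k N ι Θ P) (p : P) (n : ℕ) (hn : n < 2 ^ e) :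
    phiR s h e R wx r (updh a e he p n w) = PH s h e R wx r a w p ((Zn a e w).1 - (n : V k)) := by
  have h1 := Kn_updh a he p hn w
  rw [Kn_eq] at h1
  have h2 : Yn s e (updh a e he p n w) = Yn s e w := fac_Yn s a e _ _ (Prod.ext h1.2.1 h1.2.2)
  have h3 : Gm s h e (updh a e he p n w) = Gm s h e w := fac_Yn_Gm s h e _ _ h2
  unfold phiR PH TT fv
  rw [h2, h3]
  rfl

theorem Gm_of_fine {h d e : ℕ} (hd : h ≤ d) {v w : Sq k N ι Θ P} (hv : Gm s d e v = Gm s d e w) :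
    Gm s h e v = Gm s h e w := by
  rw [Gm_flr, Gm_flr, Prod.mk.injEq] at hv
  rw [Gm_flr, Gm_flr, Prod.mk.injEq]
  exact ⟨flr_mono_eq (by omega) hv.1, hv.2⟩

theorem upd_of_ot {a : ι} {v w : Sq k N ι Θ P} (hv : ot a v = ot a w) (q : P × V k) :
    Function.update (vs v) a q = Function.update (vs w) a q := by
  funext j
  by_cases hj : j = a
  · subst hj
    simp
  · rw [Function.update_of_ne hj, Function.update_of_ne hj]
    exact congrFun hv ⟨j, hj⟩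

/-- **THE DIAGONAL OF ANOTHER POINT OF THE STRIP** -/
theorem ce_diag {h d e : ℕ} (he : e ≤ N) (hd : h ≤ d) {R : Θ → Ξ → ι → Fam k ι P} (hR : ∀ θ ξ i, FLe 1 (R θ ξ i))
    {wx : Ξ → ℝ} (wx0 : ∀ ξ, 0 ≤ wx ξ) (wx1 : ∑ ξ, wx ξ = 1) {r r1 : ℝ} (hr : r + 4 * ((2 : ℝ) ^ d)⁻¹ ≤ r1) {a : ι}
    {w w' : Sq k N ι Θ P} (hw : Rd s d e a w = Rd s d e a w') :
    (Pm : FP (Sq k N ι Θ P)).ce (Kn a e) (phiR s h e R wx r1) w ≤
      (Pm : FP (Sq k N ι Θ P)).ce (Kn a e) (phiR s h e R wx r) w' + 4 * ((2 : ℝ) ^ d)⁻¹ := by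
  rw [ce_Kn_av a he (phiR_updh s he R wx r1 a w), ce_Kn_av a he (phiR_updh s he R wx r a w')]
  have hw0 := hw
  rw [Rd_eq] at hw0
  obtain ⟨h1, h2, h3⟩ := hw0
  have hG : Gm s h e w = Gm s h e w' := Gm_of_fine s hd h2
  have hY : flr (e - d) (Yn s e w).1 = flr (e - d) (Yn s e w').1 := congrArg Prod.fst h2
  have hco : co s a w = co s a w' := co_fac s a _ _ h3
  have hZ : (Zn a e w).1 = (Yn s e w).1 - co s a w := by
    rw [Yn_eq s a]
    simp
  have hZ' : (Zn a e w').1 = (Yn s e w').1 - co s a w' := by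
    rw [Yn_eq s a]
    simp
  have hprod : ∀ (ξ : Ξ) (g : V k × ℕ) (x : ι → P × V k) (d : V k), |∏ i, R (th w') ξ i e g x d| ≤ 1 := by
    intro ξ g x d
    rw [Finset.abs_prod]
    exact Finset.prod_le_one (fun i _ => abs_nonneg _) fun i _ => hR _ _ _ _ _ _ _
  have hc : (0 : ℝ) < Fintype.card P := by exact_mod_cast Fintype.card_pos
  have key : ∀ p : P, av e (Zn a e w).1 (PH s h e R wx r1 a w p) ≤
      av e (Zn a e w').1 (PH s h e R wx r a w' p) + 4 * ((2 : ℝ) ^ d)⁻¹ := by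
    intro p
    have hP0 : ∀ x, 0 ≤ PH s h e R wx r a w' p x := fun x =>
      Finset.sum_nonneg fun ξ _ => mul_nonneg (wx0 ξ) (ind_nonneg _)
    have hP1 : ∀ x, PH s h e R wx r a w' p x ≤ 1 := fun x => by
      rw [← wx1]
      exact Finset.sum_le_sum fun ξ _ => mul_le_of_le_one_right (wx0 ξ) (ind_le_one _)
    have a1 : av e (Zn a e w).1 (PH s h e R wx r1 a w p) ≤ av e (Zn a e w).1 (PH s h e R wx r a w' p) := by
      refine Mod.av_mono e _ fun x => Finset.sum_le_sum fun ξ _ => mul_le_mul_of_nonneg_left (ind_mono fun h5 => ?_) (wx0 ξ)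
      rw [h1, hG, upd_of_ot h3] at h5
      have h6 := av_near hY 0 (hprod ξ (Gm s h e w') (Function.update (vs w') a (p, x)))
      rw [sub_zero, sub_zero, mul_one] at h6
      have h7 := abs_abs_sub_abs_le (av e (Yn s e w).1 fun d => ∏ i, R (th w') ξ i e (Gm s h e w')
        (Function.update (vs w') a (p, x)) d) (av e (Yn s e w').1 fun d => ∏ i, R (th w') ξ i e (Gm s h e w')
        (Function.update (vs w') a (p, x)) d)
      have h8 := (abs_le.1 (h7.trans h6)).2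
      linarith
    have a2 : |av e (Zn a e w).1 (PH s h e R wx r a w' p) - av e (Zn a e w').1 (PH s h e R wx r a w' p)| ≤
        4 * ((2 : ℝ) ^ d)⁻¹ := by
      rw [hZ, hZ', hco]
      have h6 := av_near hY (co s a w') (f := PH s h e R wx r a w' p) (B := 1) fun x => by
        rw [abs_of_nonneg (hP0 x)]
        exact hP1 x
      rwa [mul_one] at h6
    have a3 := (abs_le.1 a2).2
    linarith
  have h4 : ∑ p, av e (Zn a e w).1 (PH s h e R wx r1 a w p) ≤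
      ∑ p, (av e (Zn a e w').1 (PH s h e R wx r a w' p) + 4 * ((2 : ℝ) ^ d)⁻¹) := Finset.sum_le_sum fun p _ => key p
  rw [Finset.sum_add_distrib, Finset.sum_const, Finset.card_univ, nsmul_eq_mul] at h4
  calc _ ≤ (Fintype.card P : ℝ)⁻¹ * (∑ p, av e (Zn a e w').1 (PH s h e R wx r a w' p) +
        Fintype.card P * (4 * ((2 : ℝ) ^ d)⁻¹)) := mul_le_mul_of_nonneg_left h4 (by positivity)
    _ = _ := by
      rw [mul_add, ← mul_assoc ((Fintype.card P : ℝ)⁻¹) (Fintype.card P : ℝ), inv_mul_cancel₀ hc.ne', one_mul]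

/-- **NATURAL CLASS FROM THE CLASS `Zk`** -/
theorem coldX_nat {a : ι} (hN : N ≤ k) {h d D : ℕ} (hhd : h ≤ d) (hdD : d ≤ D) (hhD : h + 3 ≤ D)
    {R : Θ → Ξ → ι → Fam k ι P} (hR : ∀ θ ξ i, FLe 1 (R θ ξ i)) {wx : Ξ → ℝ} (wx0 : ∀ ξ, 0 ≤ wx ξ)
    (wx1 : ∑ ξ, wx ξ = 1) {r r1 σ e : ℝ} {H : ℕ → Sq k N ι Θ P → Ξ → Prop}
    (C : ColdX s N h R wx (univ.erase a) D r σ e H) (hr : r + 4 * ((2 : ℝ) ^ d)⁻¹ ≤ r1) {ρ : ℝ} (hρ : 0 < ρ) :
    (Pm : FP (Sq k N ι Θ P)).Pr (fun ω => ∃ t ≤ N, 1 ≤ t ∧ 3 * σ + ρ + 4 * ((2 : ℝ) ^ d)⁻¹ ≤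
      (Pm : FP (Sq k N ι Θ P)).ce (Kn a (Mod.ex N t)) (phiR s h (Mod.ex N t) R wx r1) ω) ≤ e / ρ := by
  set η : Sq k N ι Θ P → ℝ := fun v => ∑ ξ, wx ξ * ind (H N v ξ) with hη
  have hη0 : ∀ v, 0 ≤ η v := fun v => Finset.sum_nonneg fun ξ _ => mul_nonneg (wx0 ξ) (ind_nonneg _)
  have hdoob := doob_ce (Pm : FP (Sq k N ι Θ P)) (filt_Rd s d a) (fun v _ => hη0 v) N ρ
  have hE : (Pm : FP (Sq k N ι Θ P)).E η ≤ e := C.mass
  rw [le_div_iff₀ hρ, mul_comm]
  refine le_trans (mul_le_mul_of_nonneg_left (FP.Pr_mono _ fun w _ hw => ?_) hρ.le) (hdoob.trans hE)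
  obtain ⟨t, ht, h1t, hge⟩ := hw
  refine ⟨t, ht, ?_⟩
  set e' := Mod.ex N t with he'
  have heN : e' ≤ N := Nat.sub_le _ _
  set ψ : Sq k N ι Θ P → ℝ := fun v => ∑ ξ, wx ξ * ind (r ≤ |TT s h (R (th v) ξ) e' v| ∧ ¬ H t v ξ) with hψ
  have hψ0 : ∀ v, 0 ≤ ψ v := fun v => Finset.sum_nonneg fun ξ _ => mul_nonneg (wx0 ξ) (ind_nonneg _)
  have hinc : ∀ v ξ, H t v ξ → H N v ξ := by
    intro v ξ h1
    have h2 : ∀ n, t ≤ n → H n v ξ := fun n hn => by
      induction n, hn using Nat.le_induction with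
      | base => exact h1
      | succ n _ ih => exact C.inc n v ξ ih
    exact h2 N ht
  have hcold : ∀ v, (Pm : FP (Sq k N ι Θ P)).ce (Zk (univ.erase a) (e' - D)) ψ v ≤ σ := fun v =>
    C.cold t h1t ht (e' - D) (by omega) (by omega) v
  have hstrip := ce_strip s (d := d) (a := a) (heN.trans hN) (show e' - D ≤ e' - d by omega) hψ0 hcold w
  have hsplit : ∀ v, phiR s h e' R wx r v ≤ ψ v + η v := by
    intro v
    show ∑ ξ, _ ≤ ∑ ξ, _ + ∑ ξ, _
    rw [← Finset.sum_add_distrib]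
    refine Finset.sum_le_sum fun ξ _ => ?_
    rw [← mul_add]
    refine mul_le_mul_of_nonneg_left ?_ (wx0 ξ)
    by_cases h5 : r ≤ |TT s h (R (th v) ξ) e' v|
    · by_cases h6 : H t v ξ
      · rw [ind_of h5, ind_of (hinc v ξ h6)]
        linarith [ind_nonneg (r ≤ |TT s h (R (th v) ξ) e' v| ∧ ¬ H t v ξ)]
      · rw [ind_of h5, ind_of (show r ≤ |TT s h (R (th v) ξ) e' v| ∧ ¬ H t v ξ from ⟨h5, h6⟩)]
        linarith [ind_nonneg (H N v ξ)]
    · rw [ind_not h5]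
      linarith [ind_nonneg (r ≤ |TT s h (R (th v) ξ) e' v| ∧ ¬ H t v ξ), ind_nonneg (H N v ξ)]
  have h1 : (Pm : FP (Sq k N ι Θ P)).ce (Kn a e') (phiR s h e' R wx r1) w - 4 * ((2 : ℝ) ^ d)⁻¹ ≤
      (Pm : FP (Sq k N ι Θ P)).ce (Rd s d e' a) (phiR s h e' R wx r) w := by
    rw [← FP.ce_tower _ (Kn_Rd s d e' a)]
    refine ce_class_ge _ (Pm_ne w) fun v hv => ?_
    have := ce_diag s heN hhd hR wx0 wx1 hr hv.symm
    linarith
  have h2 : (Pm : FP (Sq k N ι Θ P)).ce (Rd s d e' a) (phiR s h e' R wx r) w ≤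
      (Pm : FP (Sq k N ι Θ P)).ce (Rd s d e' a) ψ w + (Pm : FP (Sq k N ι Θ P)).ce (Rd s d e' a) η w := by
    rw [← FP.ce_add]
    exact FP.ce_mono _ (fun v _ => hsplit v) w
  linarith

end filt

/-! ## the binary form -/

section bin

variable {k N : ℕ} {ι Θ Ξ Q : Type} [Fintype ι] [DecidableEq ι] [Fintype Θ] [Nonempty Θ] [Fintype Ξ]
  [Nonempty Ξ] [Fintype Q] [Nonempty Q] {σ : V k}

/-- **THE NATURAL CLASS OF THE HIDDEN VERTEX IS COLD**, coin of `δ` at the hidden vertex `a` -/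
theorem coldAt_of_coldX {a : ι} {hN : N ≤ k} {h d D : ℕ} (hhd : h ≤ d) (hdD : d ≤ D) (hhD : h + 3 ≤ D)
    {F : ι → Mov Ξ ι (Q × V k) (Θ × (V k × ℕ)) (V k → ℝ)} (hbd : ∀ w t g ξ x z, |F w t g ξ x z| ≤ 1)
    (h0 : ∀ g ξ x, F a 0 g ξ x = 0) {r r1 sg e : ℝ} (hsg : 0 ≤ sg) {H : ℕ → Sq k N ι Θ Q → Ξ → Prop}
    (C : ColdX σ N h (fun θ ξ i => famS N h (F i) θ ξ) (fun _ : Ξ => (Fintype.card Ξ : ℝ)⁻¹) (univ.erase a) D r sg e H)
    (hr : r + 4 * ((2 : ℝ) ^ d)⁻¹ ≤ r1) (hr1 : 0 < r1) {ρ : ℝ} (hρ : 0 < ρ) :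
    GS.ColdAt σ a hN h a F r1 (3 * sg + ρ + 4 * ((2 : ℝ) ^ d)⁻¹) (e / ρ) := by
  have hcard : (Fintype.card Ξ : ℝ) ≠ 0 := Nat.cast_ne_zero.mpr Fintype.card_ne_zero
  have hR : ∀ (θ : Θ) (ξ : Ξ) (i : ι), FLe 1 (famS N h (F i) θ ξ) := fun θ ξ i =>
    GMC.famS_le zero_le_one h (hbd i) θ ξ
  have hmain := coldX_nat σ (a := a) hN hhd hdD hhD (R := fun θ ξ i => famS N h (F i) θ ξ) hR
    (wx := fun _ : Ξ => (Fintype.card Ξ : ℝ)⁻¹) (fun _ => by positivity)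
    (by rw [Finset.sum_const, Finset.card_univ, nsmul_eq_mul, mul_inv_cancel₀ hcard]) C hr hρ
  refine le_trans ?_ hmain
  set B : Sq k N ι Θ Q → Prop := fun ω => ∃ t ≤ N, 1 ≤ t ∧ 3 * sg + ρ + 4 * ((2 : ℝ) ^ d)⁻¹ ≤
      (Pm : FP (Sq k N ι Θ Q)).ce (Kn a (Mod.ex N t)) (phiR σ h (Mod.ex N t) (fun θ ξ i => famS N h (F i) θ ξ)
        (fun _ : Ξ => (Fintype.card Ξ : ℝ)⁻¹) r1) ω with hB
  have hPr : (PM k N ι Θ Ξ Q).Pr (fun w => B (pz a w).1) = (Pm : FP (Sq k N ι Θ Q)).Pr B := by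
    rw [Pr_pz a (fun b => B b.1)]
    unfold FP.Pr
    rw [E_coin]
    refine FP.E_congr _ fun v _ => ?_
    simp only
    rw [Finset.sum_const, Finset.card_univ, nsmul_eq_mul, ← mul_assoc, mul_inv_cancel₀ hcard, one_mul]
  rw [← hPr]
  refine FP.Pr_mono _ fun w _ hw => ?_
  obtain ⟨t, ht, hge⟩ := hw
  have hpos : 0 < 3 * sg + ρ + 4 * ((2 : ℝ) ^ d)⁻¹ := by positivity
  rcases Nat.eq_zero_or_pos t with h0t | h1t
  · exfalso
    subst h0t
    have h1 : (PM k N ι Θ Ξ Q).ce (Kn a (Mod.ex N 0))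
        (fun v => ind (r1 ≤ |pT (binSys Θ Ξ Q σ a hN h) univ F 0 v|)) w ≤ 0 := by
      refine FP.ce_le_const _ (fun v _ => ?_) (FP.unif_ne _ w)
      rw [ind_not]
      intro h2
      have h3 : pT (binSys Θ Ξ Q σ a hN h) univ F 0 v = 0 := by
        unfold pT iw
        refine Finset.sum_eq_zero fun z _ => ?_
        have h4 : ∏ i, (binSys Θ Ξ Q σ a hN h).at' (F i) 0 v z = 0 := by
          refine Finset.prod_eq_zero (Finset.mem_univ a) ?_
          have h5 : (binSys Θ Ξ Q σ a hN h).at' (F a) 0 v = 0 := h0 _ _ _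
          rw [h5]
          rfl
        show (binSys Θ Ξ Q σ a hN h).J 0 v z * (∏ i, (binSys Θ Ξ Q σ a hN h).at' (F i) 0 v z) * 1 = 0
        rw [h4, mul_zero, zero_mul]
      rw [h3, abs_zero] at h2
      linarith
    linarith
  · refine ⟨t, ht, h1t, hge.trans (le_of_eq ?_)⟩
    have h1 : (fun v : Sq k N ι Θ (Ξ × Q) => ind (r1 ≤ |pT (binSys Θ Ξ Q σ a hN h) univ F t v|)) =
        fun v => (fun b : Sq k N ι Θ Q × Ξ => ind (r1 ≤ |T0X σ h (fun θ ξ i => famS N h (F i) θ ξ) t b|)) (pz a v) := by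
      funext v
      rw [pT_T0X a hN h F ht v]
    rw [h1]
    exact (ce_pz_Kn a (Mod.ex N t) (fun b : Sq k N ι Θ Q × Ξ =>
      ind (r1 ≤ |T0X σ h (fun θ ξ i => famS N h (F i) θ ξ) t b|)) w).trans
      (ce_fst (Xd := Ξ) (Kn (k := k) (N := N) (Θ := Θ) (P := Q) a (Mod.ex N t)) _ (pz a w))

end bin

end

end Pool.Agent.GM
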