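import Pool.Agent.GM.Dbl
import Pool.Agent.GM.Geo
import Pool.Agent.GMN.Ext

/-!
# GM/GeoDbl (helper42): a digit at most 4-folds a mass in the binary model

`Pr_gv` : all realised nodes of one scale have the same probability `2^e 2^(e-h) / (|Θ| 2^k 2^N)`;
`dbl_binSys` : `(binSys Θ Ξ Q σ i hN h).Dbl 4`;  `Sys.Dbl.addCoins` : more coins.
-/

set_option autoImplicit false
set_option linter.unusedSectionVars false

namespace Pool.Agent.GM

open Finset Pool.Agent.PWZ Pool.Agent.M3 Pool.Agent.M3.Bin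
open Pool.Agent.M3.Mod (ex ex_zero ex_succ ex_top exk)

noncomputable section

variable {k N : ℕ} {ι Θ Ξ Q : Type} [Fintype ι] [DecidableEq ι] (σ : V k) [Fintype Θ] [Nonempty Θ] [Fintype Ξ]
  [Nonempty Ξ] [Fintype Q] [Nonempty Q]

/-- the number of (centre, noise) of a realised node -/
theorem sum_G {h e : ℕ} (he : e ≤ N) (hN : N ≤ k) {g : V k × ℕ} (hg1 : flr (e - h) g.1 = g.1) (hg2 : g.2 < 2 ^ (N - e)) :
    ∑ z : V k, ∑ w ∈ range (2 ^ N), ind (G h e z w = g) = 2 ^ e * 2 ^ (e - h) := by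
  have h1 : ∀ z : V k, ∑ w ∈ range (2 ^ N), ind (G h e z w = g) = rr h e z g.1 := by
    intro z
    rw [Finset.sum_range (fun w => ind (G h e z w = g)), sum_noise h e he z g,
      Finset.sum_eq_single g.2 (fun c _ hc => ind_not hc) (fun hc => absurd (mem_range.2 hg2) hc), ind_of rfl, one_mul]
  rw [Finset.sum_congr rfl fun z _ => h1 z]
  unfold rr
  rw [Finset.sum_comm]
  have h3 : ∀ n : ℕ, ∑ z : V k, ind (flr (e - h) (z + (n : V k)) = g.1) = 2 ^ (e - h) := by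
    intro n
    have h4 := Equiv.sum_comp (Equiv.addRight (n : V k)) (fun v => ind (flr (e - h) v = g.1))
    exact h4.trans (card_cell' ((Nat.sub_le e h).trans (he.trans hN)) g.1 hg1)
  rw [Finset.sum_congr rfl fun n _ => h3 n, Finset.sum_const, card_range, nsmul_eq_mul]
  push_cast
  rfl

/-- **all realised nodes of one scale have the same probability** -/
theorem Pr_gv (i : ι) {h e : ℕ} (he : e ≤ N) (hN : N ≤ k) (ω : Sq k N ι Θ (Ξ × Q)) :
    (PM k N ι Θ Ξ Q).Pr (fun v => gv σ h e v = gv σ h e ω) =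
      1 / (Fintype.card Θ : ℝ) * (((2 : ℝ) ^ k * 2 ^ N)⁻¹ * (2 ^ e * 2 ^ (e - h))) := by
  have h1 : (PM k N ι Θ Ξ Q).Pr (fun v => gv σ h e v = gv σ h e ω) =
      (PM k N ι Θ Ξ Q).E (fun v => ind (th v = th ω) *
        (fun z w => ind (G h e z w = G h e (ctr σ ω) (nz ω))) (ctr σ v) (nz v)) := by
    refine FP.E_congr _ fun v _ => ?_
    show ind (gv σ h e v = gv σ h e ω) = ind (th v = th ω) * ind (G h e (ctr σ v) (nz v) = G h e (ctr σ ω) (nz ω))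
    rw [← ind_and]
    congr 1
    apply propext
    rw [Prod.ext_iff]
    rfl
  have h2 := h1.trans (E_thFm σ (k := k) (N := N) i (P := Ξ × Q) (th ω)
    (fun z w => ind (G h e z w = G h e (ctr σ ω) (nz ω))))
  rw [h2, sum_G he hN (G_aligned h e _ _)]
  show nz ω / 2 ^ e < 2 ^ (N - e)
  rw [Nat.div_lt_iff_lt_mul (Nat.two_pow_pos e), ← pow_add, Nat.sub_add_cancel he]
  exact ω.2.2.isLt

/-- **a digit at most 4-folds a mass** -/
theorem dbl_binSys (i : ι) (hN : N ≤ k) (h : ℕ) : (binSys Θ Ξ Q σ i hN h).Dbl 4 := by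
  intro t ω
  show (PM k N ι Θ Ξ Q).Pr (fun v => gv σ h (ex N t) v = gv σ h (ex N t) ω) ≤
    4 * (PM k N ι Θ Ξ Q).Pr (fun v => gv σ h (ex N (t + 1)) v = gv σ h (ex N (t + 1)) ω)
  have hle : ∀ t, ex N t ≤ N := fun t => Nat.sub_le N t
  rw [Pr_gv σ i (hle _) hN, Pr_gv σ i (hle _) hN]
  have hΘ : (0 : ℝ) < Fintype.card Θ := by exact_mod_cast Fintype.card_pos
  have h1 : (2 : ℝ) ^ (ex N t) * 2 ^ (ex N t - h) ≤ 4 * (2 ^ (ex N (t + 1)) * 2 ^ (ex N (t + 1) - h)) := by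
    rw [← pow_add, ← pow_add, show (4 : ℝ) = 2 ^ 2 by norm_num, ← pow_add]
    refine pow_le_pow_right₀ (by norm_num) ?_
    unfold ex
    omega
  calc 1 / (Fintype.card Θ : ℝ) * (((2 : ℝ) ^ k * 2 ^ N)⁻¹ * (2 ^ (ex N t) * 2 ^ (ex N t - h)))
      ≤ 1 / (Fintype.card Θ : ℝ) * (((2 : ℝ) ^ k * 2 ^ N)⁻¹ * (4 * (2 ^ (ex N (t + 1)) * 2 ^ (ex N (t + 1) - h)))) := by
        refine mul_le_mul_of_nonneg_left ?_ (by positivity)
        exact mul_le_mul_of_nonneg_left h1 (by positivity)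
    _ = _ := by ring

/-- more coins -/
theorem Sys.Dbl.addCoins {ι Om Ξ Pt V Γ κ : Type} [Fintype ι] [DecidableEq ι] [Fintype Om] [Fintype Ξ] [Fintype Pt]
    [Fintype V] {S : Sys ι Om Ξ Pt V Γ κ} {D : ℝ} (hD : S.Dbl D) (Ξ2 : Type) [Fintype Ξ2] [Nonempty Ξ2] :
    (GMN.addCoins S Ξ2).Dbl D := by
  intro t w
  have h1 := GMN.coinFP_Pr_fst S.P Ξ2 (fun v => S.gm t v = S.gm t w.1)
  have h2 := GMN.coinFP_Pr_fst S.P Ξ2 (fun v => S.gm (t + 1) v = S.gm (t + 1) w.1)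
  show (GMN.coinFP S.P Ξ2).Pr (fun v => S.gm t v.1 = S.gm t w.1) ≤
    D * (GMN.coinFP S.P Ξ2).Pr (fun v => S.gm (t + 1) v.1 = S.gm (t + 1) w.1)
  rw [h1, h2]
  exact hD t w.1

end

end Pool.Agent.GM
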