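import Pool.Agent.GM.Geo
import Pool.Agent.GM.GeoDbl
import Pool.Agent.GMN.Ext

/-!
# GM/Crs (helper4): COARSE CELLS

In `binSys` the number of compatible fine cells is `K = (m+4) 2^(h+3)`, and `near = 8/2^h`.  The sizes of lists and records
must not contain `K`.  For cells of the size of the window (scale `e`) the number of compatible cells is at most `m + 4`,
whatever `h` is.

`Crs S κ' K'` : coarser cells on the same system with their own constant `K'`; `Crs.sys` : the system with these cells (all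
other data are the same by `rfl`); `Crs.add` : more coins; `binCrs` : the binary model, `K' = m + 4`.
-/

set_option autoImplicit false
set_option linter.unusedSectionVars false

namespace Pool.Agent.GM

open Finset Pool.Agent.PWZ Pool.Agent.M3 Pool.Agent.M3.Bin
open Pool.Agent.M3.Mod (ex ex_zero ex_succ ex_top exk ex_anti Wz WS sum_Wz WS_nonneg Wz_nonneg Pr_sum Pr_none Pr_true cQ
  rho_nodes rho_one count_img num_aux sumQ)

noncomputable section

/-! ### numbers -/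

theorem numBc {m e j s K' : ℕ} (hK : 2 ^ j + 2 ^ e + (m + 2) * 2 ^ s ≤ K' * 2 ^ s) :
    ((2 ^ j + 2 ^ e + (m + 1) * 2 ^ s) + (2 ^ s - 1)) / 2 ^ s + 1 ≤ K' := by
  rw [Nat.succ_le_iff, Nat.div_lt_iff_lt_mul (Nat.two_pow_pos _)]
  have h2 := Nat.two_pow_pos s
  have h3 : (m + 2) * 2 ^ s = (m + 1) * 2 ^ s + 2 ^ s := by ring
  omega

theorem numCc {m e j s K' : ℕ} (hse : s ≤ e) (hK : 2 ^ j + 2 ^ e + (m + 2) * 2 ^ s ≤ K' * 2 ^ s) :
    2 ^ j + 2 ^ e + (m + 1) * 2 ^ s ≤ K' * 2 ^ e := by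
  have h1 : 2 ^ s ≤ 2 ^ e := Nat.pow_le_pow_right (by norm_num) hse
  have h2 := Nat.mul_le_mul_left K' h1
  have h3 : (m + 2) * 2 ^ s = (m + 1) * 2 ^ s + 2 ^ s := by ring
  have h4 := Nat.two_pow_pos s
  omega

theorem one_le_c {m e j s K' : ℕ} (hK : 2 ^ j + 2 ^ e + (m + 2) * 2 ^ s ≤ K' * 2 ^ s) : 1 ≤ K' := by
  rcases Nat.eq_zero_or_pos K' with h | h
  · subst h
    have h1 := Nat.two_pow_pos e
    have h2 := Nat.two_pow_pos j
    have h3 := Nat.zero_le ((m + 2) * 2 ^ s)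
    omega
  · exact h

theorem numAc (m h e : ℕ) : 2 ^ (e - h) + 2 ^ e + (m + 2) * 2 ^ e ≤ (m + 4) * 2 ^ e := by
  have h1 : 2 ^ (e - h) ≤ 2 ^ e := Nat.pow_le_pow_right (by norm_num) (Nat.sub_le _ _)
  have h3 : (m + 4) * 2 ^ e = (m + 2) * 2 ^ e + 2 ^ e + 2 ^ e := by ring
  omega

variable {k N : ℕ} {ι Θ Ξ Q : Type} [Fintype ι] [DecidableEq ι] (σ : V k) [Fintype Θ] [Nonempty Θ] [Fintype Ξ]
  [Nonempty Ξ] [Fintype Q] [Nonempty Q]

/-- the positions of one vertex -/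
theorem pos_countC (h e s : ℕ) (l : ι) (α : ι → V k) (g1 : V k) (Cm : V k → Prop)
    (hC : ∀ c, Cm c → ∃ (x : ι → V k) (r : ι → ℕ) (n : ℕ), n < 2 ^ e ∧
      (∀ i, i ≠ l → x i = α i + (r i : V k)) ∧ (∀ i, i ≠ l → r i < 2 ^ s) ∧
      flr s (x l) = flr s c ∧ flr (e - h) (∑ i, x i + σ + (n : V k)) = g1) :
    ∑ a : Q × V k, ind (Cm a.2) ≤
      Fintype.card Q * ((2 ^ (e - h) + 2 ^ e + (Fintype.card ι + 1) * 2 ^ s : ℕ) : ℝ) := by
  rw [sumQ (fun v => ind (Cm v))]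
  refine mul_le_mul_of_nonneg_left ?_ (Nat.cast_nonneg _)
  refine count_img (g1 - σ - ∑ i ∈ univ.erase l, α i + ((2 ^ (e - h) - 1 + (2 ^ s - 1) : ℕ) : V k)) _ _ ?_
  intro c hc
  obtain ⟨x, r, n, h1, h2, h3, h4, h5⟩ := hC c hc
  exact bd_memm σ l x α r h1 h2 h3 h4 h5

/-- **number of compatible cells, surely** -/
theorem nu_c {h e s : ℕ} (K' : ℕ) (hse : s ≤ e) (hK : 2 ^ (e - h) + 2 ^ e + (Fintype.card ι + 2) * 2 ^ s ≤ K' * 2 ^ s) (he : e ≤ k) (l : ι) (ω : Sq k N ι Θ (Ξ × Q)) :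
    ∃ S : Finset (V k), (S.card : ℝ) ≤ (K' : ℝ) ∧ ∀ ω' : Sq k N ι Θ (Ξ × Q),
      (∀ j, j ≠ l → flr s (vm ω' j).2 = flr s (vm ω j).2) → gv σ h e ω' = gv σ h e ω →
      flr s (vm ω' l).2 ∈ S := by
  classical
  have hs : s ≤ k := by omega
  set base : V k := (gv σ h e ω).2.1 - σ - ∑ i ∈ univ.erase l, flr s (vm ω i).2 + ((2 ^ (e - h) - 1 + (2 ^ s - 1) : ℕ) : V k)
    with hbase
  set M := 2 ^ (e - h) + 2 ^ e + (Fintype.card ι + 1) * 2 ^ s with hM
  refine ⟨(range ((M + (2 ^ s - 1)) / 2 ^ s + 1)).image (fun j : ℕ => flr s base - ((j * 2 ^ s : ℕ) : V k)), ?_, ?_⟩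
  · have h1 := (Finset.card_image_le (s := range ((M + (2 ^ s - 1)) / 2 ^ s + 1))
      (f := fun j : ℕ => flr s base - ((j * 2 ^ s : ℕ) : V k))).trans
      ((Finset.card_range _).le.trans (numBc hK))
    exact_mod_cast h1
  · intro ω' h1 h2
    choose r hr1 hr2 using fun i : ι => flr_add_rem s (vm ω' i).2
    obtain ⟨M', hM', h4⟩ := bd_memm σ (s := s) (j := e - h) (e := e) l (fun i => (vm ω' i).2) (fun i => flr s (vm ω i).2) r
      (c0 := (vm ω' l).2) (Nat.mod_lt (nz ω') (Nat.two_pow_pos e)) (fun i hi => by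
        rw [← h1 i hi]
        exact hr2 i) (fun i _ => hr1 i) rfl (gv_flr σ h2)
    obtain ⟨j, hj, h5⟩ := cover s hs base M' M hM'.le
    rw [Finset.mem_image]
    exact ⟨j, hj, by rw [h4, h5]⟩

theorem cnt_c {h e s : ℕ} (K' : ℕ) (hse : s ≤ e) (hK : 2 ^ (e - h) + 2 ^ e + (Fintype.card ι + 2) * 2 ^ s ≤ K' * 2 ^ s) (he : e ≤ k) (i0 : ι) (g : Θ × (V k × ℕ)) (A : Finset ι) (y : ι → Q × V k)
    (j : ι) (β : V k) (hj : j ∉ A) (hl : ∃ l, l ≠ j ∧ l ∉ A) :
    (PM k N ι Θ Ξ Q).Pr (fun w => (∀ i ∈ A, vm w i = y i) ∧ gv σ h e w = g ∧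
      ∃ w' : Sq k N ι Θ (Ξ × Q), (∀ i ∈ A, flr s (vm w' i).2 = flr s (y i).2) ∧
        flr s (vm w' j).2 = β ∧
        (∀ i, i ∉ A → i ≠ j → flr s (vm w' i).2 = flr s (vm w i).2) ∧ gv σ h e w' = g) ≤
    (K' : ℝ) * (PM k N ι Θ Ξ Q).Pr (fun w => (∀ i ∈ A, vm w i = y i) ∧ gv σ h e w = g ∧
      flr s (vm w j).2 = β) := by
  classical
  obtain ⟨l, hlj, hlA⟩ := hl
  have hs : s ≤ k := by omega
  set Cm : (ι → Q × V k) → Prop := fun z => ∃ w' : Sq k N ι Θ (Ξ × Q),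
    (∀ i ∈ A, flr s (vm w' i).2 = flr s (y i).2) ∧ flr s (vm w' j).2 = β ∧
      (∀ i, i ∉ A → i ≠ j → flr s (vm w' i).2 = flr s (z i).2) ∧ gv σ h e w' = g with hCm
  have e1 : (PM k N ι Θ Ξ Q).Pr (fun w => (∀ i ∈ A, vm w i = y i) ∧ gv σ h e w = g ∧ Cm (vm w)) =
      Fintype.card Ξ * (kapm k ι Θ Ξ Q * ∑ z : ι → Q × V k, ind ((∀ i ∈ A, z i = y i) ∧ Cm z) * Wz N h e g.2 (∑ j, (z j).2 + σ)) := by
    rw [← PS' σ (Θ := Θ) (Ξ := Ξ) i0 h e g (fun z => (∀ i ∈ A, z i = y i) ∧ Cm z)]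
    exact FP.Pr_congr _ fun w _ => by tauto
  have e2 : (PM k N ι Θ Ξ Q).Pr (fun w => (∀ i ∈ A, vm w i = y i) ∧ gv σ h e w = g ∧ flr s (vm w j).2 = β) =
      Fintype.card Ξ * (kapm k ι Θ Ξ Q * ∑ z : ι → Q × V k, ind ((∀ i ∈ A, z i = y i) ∧ flr s (z j).2 = β) *
        Wz N h e g.2 (∑ j, (z j).2 + σ)) := by
    rw [← PS' σ (Θ := Θ) (Ξ := Ξ) i0 h e g (fun z => (∀ i ∈ A, z i = y i) ∧ flr s (z j).2 = β)]
    exact FP.Pr_congr _ fun w _ => by tauto
  rw [show (PM k N ι Θ Ξ Q).Pr (fun w => (∀ i ∈ A, vm w i = y i) ∧ gv σ h e w = g ∧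
      ∃ w' : Sq k N ι Θ (Ξ × Q), (∀ i ∈ A, flr s (vm w' i).2 = flr s (y i).2) ∧ flr s (vm w' j).2 = β ∧
        (∀ i, i ∉ A → i ≠ j → flr s (vm w' i).2 = flr s (vm w i).2) ∧ gv σ h e w' = g) = _ from e1, e2]
  have hupd : ∀ (i : ι) (hi : i ∉ A) (z : ι → Q × V k) (a : Q × V k),
      (∀ i' ∈ A, Function.update z i a i' = y i') ↔ ∀ i' ∈ A, z i' = y i' := by
    intro i hi z a
    refine forall_congr' fun i' => forall_congr' fun hi' => ?_
    rw [Function.update_of_ne (by rintro rfl; exact hi hi')]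
  -- two resamplings on the left
  have f1 := sum_C_W σ (N := N) h e g.2 j (fun z => (∀ i ∈ A, z i = y i) ∧ Cm z) (fun z a => by
    rw [hupd j hj]
    refine and_congr_right fun _ => ?_
    rw [hCm]
    refine exists_congr fun w' => and_congr_right fun _ => and_congr_right fun _ => and_congr_left fun _ => ?_
    refine forall_congr' fun i => forall_congr' fun _ => forall_congr' fun hi => ?_
    rw [Function.update_of_ne hi])
  set T := ∑ z : ι → Q × V k, ind (∀ i ∈ A, z i = y i) with hT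
  have hT0 : 0 ≤ T := Finset.sum_nonneg fun _ _ => ind_nonneg _
  have f2 : (Fintype.card (Q × V k) : ℝ) * ∑ z : ι → Q × V k, ind ((∀ i ∈ A, z i = y i) ∧ Cm z) ≤
      T * (Fintype.card Q * ((2 ^ (e - h) + 2 ^ e + (Fintype.card ι + 1) * 2 ^ s : ℕ) : ℝ)) := by
    rw [resample l, hT, Finset.sum_mul]
    refine Finset.sum_le_sum fun z _ => ?_
    have h1 : ∀ a : Q × V k, ind ((∀ i ∈ A, Function.update z l a i = y i) ∧ Cm (Function.update z l a)) =
        ind (∀ i ∈ A, z i = y i) * ind (Cm (Function.update z l a)) := by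
      intro a
      rw [ind_and, show (∀ i ∈ A, Function.update z l a i = y i) = ∀ i ∈ A, z i = y i from propext (hupd l hlA z a)]
    rw [Finset.sum_congr rfl fun a _ => h1 a, ← Finset.mul_sum]
    refine mul_le_mul_of_nonneg_left ?_ (ind_nonneg _)
    set Cl : V k → Prop := fun c : V k => ∃ w' : Sq k N ι Θ (Ξ × Q),
        (∀ i ∈ A, flr s (vm w' i).2 = flr s (y i).2) ∧ flr s (vm w' j).2 = β ∧
        (∀ i, i ∉ A → i ≠ j → i ≠ l → flr s (vm w' i).2 = flr s (z i).2) ∧ flr s (vm w' l).2 = flr s c ∧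
        gv σ h e w' = g with hCl
    have h2 : ∀ a : Q × V k, ind (Cm (Function.update z l a)) = ind (Cl a.2) := by
      intro a
      congr 1
      apply propext
      refine exists_congr fun w' => and_congr_right fun _ => and_congr_right fun _ => ?_
      constructor
      · rintro ⟨h3, h4⟩
        refine ⟨fun i hi hij hil => ?_, ?_, h4⟩
        · have := h3 i hi hij
          rwa [Function.update_of_ne hil] at this
        · have := h3 l hlA hlj
          rwa [Function.update_self] at this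
      · rintro ⟨h3, h4, h5⟩
        refine ⟨fun i hi hij => ?_, h5⟩
        by_cases hil : i = l
        · subst hil
          rw [Function.update_self]
          exact h4
        · rw [Function.update_of_ne hil]
          exact h3 i hi hij hil
    rw [Finset.sum_congr rfl fun a _ => h2 a]
    refine pos_countC σ (Q := Q) h e s l (fun i => if i ∈ A then flr s (y i).2 else if i = j then β else flr s (z i).2)
      g.2.1 Cl ?_
    rintro c ⟨w', h3, h4, h5, h6, h7⟩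
    choose r hr1 hr2 using fun i : ι => flr_add_rem s (vm w' i).2
    refine ⟨fun i => (vm w' i).2, r, nz w' % 2 ^ e, Nat.mod_lt _ (Nat.two_pow_pos e), fun i hi => ?_,
      fun i _ => hr1 i, h6, gv_flr σ h7⟩
    have h8 : flr s (vm w' i).2 = if i ∈ A then flr s (y i).2 else if i = j then β else flr s (z i).2 := by
      split_ifs with h9 h10
      · exact h3 i h9
      · rw [h10]
        exact h4
      · exact h5 i h9 h10 hi
    rw [← h8]
    exact hr2 i
  -- two resamplings on the right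
  have f3 := sum_C_W σ (N := N) h e g.2 l (fun z => (∀ i ∈ A, z i = y i) ∧ flr s (z j).2 = β) (fun z a => by
    rw [hupd l hlA, Function.update_of_ne hlj.symm])
  have f4 : (Fintype.card (Q × V k) : ℝ) * ∑ z : ι → Q × V k, ind ((∀ i ∈ A, z i = y i) ∧ flr s (z j).2 = β) =
      T * ∑ a : Q × V k, ind (flr s a.2 = β) := by
    rw [resample j, hT, Finset.sum_mul]
    refine Finset.sum_congr rfl fun z _ => ?_
    rw [Finset.mul_sum]
    refine Finset.sum_congr rfl fun a _ => ?_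
    rw [ind_and, show (∀ i ∈ A, Function.update z j a i = y i) = ∀ i ∈ A, z i = y i from propext (hupd j hj z a),
      Function.update_self]
  have hk := kapm_pos (k := k) (ι := ι) (Θ := Θ) (Ξ := Ξ) (Q := Q)
  have hc := cPt_pos (k := k) (Q := Q)
  have hW := WS_nonneg (Q := Q) (k := k) (N := N) h e g.2
  by_cases hβ : flr s β = β
  · rw [sumQ (fun v => ind (flr s v = β)), card_cell' hs β hβ] at f4
    have hM : ((2 ^ (e - h) + 2 ^ e + (Fintype.card ι + 1) * 2 ^ s : ℕ) : ℝ) ≤ (K' : ℝ) * 2 ^ s := by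
      have h2 : 2 ^ (e - h) + 2 ^ e + (Fintype.card ι + 1) * 2 ^ s ≤ K' * 2 ^ s :=
        le_trans (Nat.add_le_add_left (Nat.mul_le_mul_right _ (by omega)) _) hK
      exact_mod_cast h2
    have key : (Fintype.card (Q × V k) : ℝ) ^ 2 *
        ∑ z : ι → Q × V k, ind ((∀ i ∈ A, z i = y i) ∧ Cm z) * Wz N h e g.2 (∑ j, (z j).2 + σ) ≤
        (Fintype.card (Q × V k) : ℝ) ^ 2 * ((K' : ℝ) *
          ∑ z : ι → Q × V k, ind ((∀ i ∈ A, z i = y i) ∧ flr s (z j).2 = β) * Wz N h e g.2 (∑ j, (z j).2 + σ)) := by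
      calc (Fintype.card (Q × V k) : ℝ) ^ 2 *
            ∑ z : ι → Q × V k, ind ((∀ i ∈ A, z i = y i) ∧ Cm z) * Wz N h e g.2 (∑ j, (z j).2 + σ)
          = (Fintype.card (Q × V k) : ℝ) * ((Fintype.card (Q × V k) : ℝ) *
            ∑ z : ι → Q × V k, ind ((∀ i ∈ A, z i = y i) ∧ Cm z) * Wz N h e g.2 (∑ j, (z j).2 + σ)) := by ring
        _ = WS Q N h e g.2 * ((Fintype.card (Q × V k) : ℝ) *
            ∑ z : ι → Q × V k, ind ((∀ i ∈ A, z i = y i) ∧ Cm z)) := by rw [f1]; ring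
        _ ≤ WS Q N h e g.2 * (T * (Fintype.card Q * ((2 ^ (e - h) + 2 ^ e + (Fintype.card ι + 1) * 2 ^ s : ℕ) : ℝ))) :=
            mul_le_mul_of_nonneg_left f2 hW
        _ ≤ WS Q N h e g.2 * (T * (Fintype.card Q * ((K' : ℝ) * 2 ^ s))) := by
            refine mul_le_mul_of_nonneg_left ?_ hW
            refine mul_le_mul_of_nonneg_left ?_ hT0
            exact mul_le_mul_of_nonneg_left hM (Nat.cast_nonneg _)
        _ = (K' : ℝ) * (WS Q N h e g.2 * (T * (Fintype.card Q * 2 ^ s))) := by ring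
        _ = (K' : ℝ) * (WS Q N h e g.2 * ((Fintype.card (Q × V k) : ℝ) *
            ∑ z : ι → Q × V k, ind ((∀ i ∈ A, z i = y i) ∧ flr s (z j).2 = β))) := by rw [f4]
        _ = (K' : ℝ) * ((Fintype.card (Q × V k) : ℝ) * (WS Q N h e g.2 *
            ∑ z : ι → Q × V k, ind ((∀ i ∈ A, z i = y i) ∧ flr s (z j).2 = β))) := by ring
        _ = _ := by rw [← f3]; ring
    have key2 := le_of_mul_le_mul_left key (by positivity)
    calc (Fintype.card Ξ : ℝ) * (kapm k ι Θ Ξ Q *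
          ∑ z : ι → Q × V k, ind ((∀ i ∈ A, z i = y i) ∧ Cm z) * Wz N h e g.2 (∑ j, (z j).2 + σ))
        ≤ (Fintype.card Ξ : ℝ) * (kapm k ι Θ Ξ Q * ((K' : ℝ) *
          ∑ z : ι → Q × V k, ind ((∀ i ∈ A, z i = y i) ∧ flr s (z j).2 = β) * Wz N h e g.2 (∑ j, (z j).2 + σ))) :=
          mul_le_mul_of_nonneg_left (mul_le_mul_of_nonneg_left key2 hk.le) (Nat.cast_nonneg _)
      _ = _ := by ring
  · have h1 : ∀ z : ι → Q × V k, ind ((∀ i ∈ A, z i = y i) ∧ Cm z) * Wz N h e g.2 (∑ j, (z j).2 + σ) = 0 := by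
      intro z
      rw [ind_not, zero_mul]
      rintro ⟨-, w', -, h2, -⟩
      exact hβ (by rw [← h2, flr_flr le_rfl])
    rw [Finset.sum_congr rfl fun z _ => h1 z, Finset.sum_const_zero, mul_zero, mul_zero]
    refine mul_nonneg (Nat.cast_nonneg _) (mul_nonneg (Nat.cast_nonneg _) (mul_nonneg hk.le ?_))
    exact Finset.sum_nonneg fun _ _ => mul_nonneg (ind_nonneg _) (Wz_nonneg _ _ _ _)

theorem edge_c {h e s : ℕ} (K' : ℕ) (hse : s ≤ e) (hK : 2 ^ (e - h) + 2 ^ e + (Fintype.card ι + 2) * 2 ^ s ≤ K' * 2 ^ s) (he : e ≤ N) (hN : N ≤ k) (i0 : ι) (g : Θ × (V k × ℕ)) (B : Finset ι) (ξ : Ξ)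
    (y : ι → Q × V k) (E : (ι → Q × V k) → Prop) (δ : ℝ) (hδ : 0 ≤ δ)
    (hE : ∀ w' : Sq k N ι Θ (Ξ × Q), (∀ i, i ∉ B → vm w' i = y i) → gv σ h e w' = g →
      ∑ z : ι → Q × V k, ind ((∀ i, i ∉ B → z i = y i) ∧
        (∀ i ∈ B, flr s (z i).2 = flr s (vm w' i).2) ∧ E z) ≤
        δ * ∑ z : ι → Q × V k, ind ((∀ i, i ∉ B → z i = y i) ∧
          ∀ i ∈ B, flr s (z i).2 = flr s (vm w' i).2)) :
    (PM k N ι Θ Ξ Q).Pr (fun w => xm i0 w = ξ ∧ (∀ i, i ∉ B → vm w i = y i) ∧ gv σ h e w = g ∧ E (vm w)) ≤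
      (K' : ℝ) * δ * (PM k N ι Θ Ξ Q).Pr (fun w => xm i0 w = ξ ∧
        (∀ i, i ∉ B → vm w i = y i) ∧ gv σ h e w = g) := by
  classical
    have hk := kapm_pos (k := k) (ι := ι) (Θ := Θ) (Ξ := Ξ) (Q := Q)
  have hK1 : (1 : ℝ) ≤ (K' : ℝ) := by
    have : 1 ≤ K' := one_le_c hK
    exact_mod_cast this
  by_cases hB : B = ∅
  · by_cases hex : ∃ w' : Sq k N ι Θ (Ξ × Q), (∀ i, i ∉ B → vm w' i = y i) ∧ gv σ h e w' = g
    · obtain ⟨w', h1, h2⟩ := hex
      have h3 := hE w' h1 h2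
      have h4 : ∀ z : ι → Q × V k, (∀ i, i ∉ B → z i = y i) ↔ z = y := by
        intro z
        rw [hB, funext_iff]
        simp
      have h5 : ∑ z : ι → Q × V k, ind ((∀ i, i ∉ B → z i = y i) ∧
          ∀ i ∈ B, flr s (z i).2 = flr s (vm w' i).2) = 1 := by
        rw [← sum_ind_one y]
        refine Finset.sum_congr rfl fun z _ => ?_
        congr 1
        apply propext
        rw [h4 z, hB]
        simp
      have h6 : ∑ z : ι → Q × V k, ind ((∀ i, i ∉ B → z i = y i) ∧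
          (∀ i ∈ B, flr s (z i).2 = flr s (vm w' i).2) ∧ E z) = ind (E y) := by
        rw [Finset.sum_eq_single y]
        · congr 1
          apply propext
          rw [h4 y, hB]
          simp
        · intro z _ hz
          exact ind_not fun h' => hz ((h4 z).1 h'.1)
        · intro h'
          exact absurd (mem_univ _) h'
      rw [h5, h6, mul_one] at h3
      have h7 : (PM k N ι Θ Ξ Q).Pr (fun w => xm i0 w = ξ ∧ (∀ i, i ∉ B → vm w i = y i) ∧ gv σ h e w = g ∧ E (vm w)) ≤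
          δ * (PM k N ι Θ Ξ Q).Pr (fun w => xm i0 w = ξ ∧ (∀ i, i ∉ B → vm w i = y i) ∧ gv σ h e w = g) := by
        unfold FP.Pr
        rw [← FP.E_smul]
        refine FP.E_mono _ fun w _ => ?_
        by_cases h8 : xm i0 w = ξ ∧ (∀ i, i ∉ B → vm w i = y i) ∧ gv σ h e w = g
        · rw [ind_of h8, mul_one]
          have h9 : vm w = y := (h4 _).1 h8.2.1
          refine le_trans (ind_mono fun h' => ?_) h3
          rw [← h9]
          exact h'.2.2.2
        · rw [ind_not h8, mul_zero, ind_not]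
          rintro ⟨h9, h10, h11, _⟩
          exact h8 ⟨h9, h10, h11⟩
      refine h7.trans ?_
      refine mul_le_mul_of_nonneg_right ?_ (FP.Pr_nonneg _ _)
      exact le_mul_of_one_le_left hδ hK1
    · rw [Pr_none _ (by
        rintro ω ⟨_, h1, h2, _⟩
        exact hex ⟨ω, h1, h2⟩)]
      exact mul_nonneg (mul_nonneg (by positivity) hδ) (FP.Pr_nonneg _ _)
  obtain ⟨l, hl⟩ := Finset.nonempty_iff_ne_empty.2 hB
  have e1 : (PM k N ι Θ Ξ Q).Pr (fun w => xm i0 w = ξ ∧ (∀ i, i ∉ B → vm w i = y i) ∧ gv σ h e w = g ∧ E (vm w)) =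
      kapm k ι Θ Ξ Q * ∑ z : ι → Q × V k, ind ((∀ i, i ∉ B → z i = y i) ∧ E z) * Wz N h e g.2 (∑ j, (z j).2 + σ) := by
    rw [← PS σ (Θ := Θ) (Ξ := Ξ) i0 h e g ξ (fun z => (∀ i, i ∉ B → z i = y i) ∧ E z)]
    exact FP.Pr_congr _ fun w _ => by tauto
  have e2 := PS σ (Θ := Θ) (Ξ := Ξ) (N := N) i0 h e g ξ (fun z => ∀ i, i ∉ B → z i = y i)
  rw [e1, e2]
  -- the compatible points
  set D : (ι → Q × V k) → Prop := fun z => (∀ i, i ∉ B → z i = y i) ∧ ∃ w' : Sq k N ι Θ (Ξ × Q),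
    (∀ i, i ∉ B → vm w' i = y i) ∧ gv σ h e w' = g ∧ ∀ i ∈ B, flr s (z i).2 = flr s (vm w' i).2 with hD
  set R : (ι → Q × V k) → (ι → Q × V k) → Prop := fun z z' => (∀ i, i ∉ B → z i = y i) ∧
    (∀ i, i ∉ B → z' i = y i) ∧ ∀ i ∈ B, flr s (z' i).2 = flr s (z i).2 with hR
  have h1 : ∑ z, ind (D z ∧ E z) ≤ δ * ∑ z, ind (D z) := by
    refine sum_classes R ?_ D E ?_ ?_ ?_ ?_
    · rintro a b ⟨h1, h2, h3⟩
      exact ⟨h2, h1, fun i hi => (h3 i hi).symm⟩
    · rintro a b ⟨h1, h2, h3⟩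
      constructor
      · rintro ⟨_, w', h4, h5, h6⟩
        exact ⟨h2, w', h4, h5, fun i hi => (h3 i hi).trans (h6 i hi)⟩
      · rintro ⟨_, w', h4, h5, h6⟩
        exact ⟨h1, w', h4, h5, fun i hi => (h3 i hi).symm.trans (h6 i hi)⟩
    · rintro a b ⟨h1, h2, h3⟩ c
      constructor
      · rintro ⟨_, h4, h5⟩
        exact ⟨h2, h4, fun i hi => (h5 i hi).trans (h3 i hi).symm⟩
      · rintro ⟨_, h4, h5⟩
        exact ⟨h1, h4, fun i hi => (h5 i hi).trans (h3 i hi)⟩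
    · rintro a ⟨h1, _⟩
      exact ⟨h1, h1, fun _ _ => rfl⟩
    · rintro a ⟨h1, w', h4, h5, h6⟩
      have h7 := hE w' h4 h5
      have h8 : ∀ b : ι → Q × V k, R a b ↔ ((∀ i, i ∉ B → b i = y i) ∧ ∀ i ∈ B, flr s (b i).2 = flr s (vm w' i).2) := by
        intro b
        constructor
        · rintro ⟨_, h9, h10⟩
          exact ⟨h9, fun i hi => (h10 i hi).trans (h6 i hi)⟩
        · rintro ⟨h9, h10⟩
          exact ⟨h1, h9, fun i hi => (h10 i hi).trans (h6 i hi).symm⟩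
      have h9 : ∀ b, ind (R a b ∧ E b) = ind ((∀ i, i ∉ B → b i = y i) ∧
          (∀ i ∈ B, flr s (b i).2 = flr s (vm w' i).2) ∧ E b) := by
        intro b
        rw [h8 b, and_assoc]
      have h10 : ∀ b, ind (R a b) = ind ((∀ i, i ∉ B → b i = y i) ∧
          ∀ i ∈ B, flr s (b i).2 = flr s (vm w' i).2) := by
        intro b
        rw [h8 b]
      rw [Finset.sum_congr rfl fun b _ => h9 b, Finset.sum_congr rfl fun b _ => h10 b]
      exact h7
  -- points with positive weight are compatible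
  have h2 : ∀ z : ι → Q × V k, ind ((∀ i, i ∉ B → z i = y i) ∧ E z) * Wz N h e g.2 (∑ j, (z j).2 + σ) ≤
      ind (D z ∧ E z) * (WS Q N h e g.2 / (2 ^ e * Fintype.card Q)) := by
    intro z
    have hW0 := WS_nonneg (Q := Q) (k := k) (N := N) h e g.2
    have hq : (0 : ℝ) < Fintype.card Q := by exact_mod_cast Fintype.card_pos
    by_cases hz : (∀ i, i ∉ B → z i = y i) ∧ E z
    swap
    · rw [ind_not hz, zero_mul]
      exact mul_nonneg (ind_nonneg _) (by positivity)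
    rw [ind_of hz, one_mul]
    by_cases hw : Wz N h e g.2 (∑ j, (z j).2 + σ) = 0
    · rw [hw]
      exact mul_nonneg (ind_nonneg _) (by positivity)
    have h3 : D z := by
      have h4 := pmfm σ (Θ := Θ) (N := N) i0 h e g ξ z
      have h5 : 0 < kapm k ι Θ Ξ Q * Wz N h e g.2 (∑ j, (z j).2 + σ) :=
        mul_pos hk (lt_of_le_of_ne (Wz_nonneg _ _ _ _) (Ne.symm hw))
      by_contra hcon
      rw [Pr_none _ (by
        rintro ω ⟨_, h6, h7⟩
        refine hcon ⟨hz.1, ω, fun i hi => ?_, h7, fun i _ => by rw [h6]⟩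
        rw [h6]
        exact hz.1 i hi)] at h4
      rw [← h4] at h5
      exact lt_irrefl _ h5
    rw [ind_of ⟨h3, hz.2⟩, one_mul, le_div_iff₀ (by positivity)]
    have h4 := Wz_le (Q := Q) he hN (h := h) g.2 (∑ j, (z j).2 + σ)
    linarith
  -- the number of compatible points
  set T := ∑ z : ι → Q × V k, ind (∀ i, i ∉ B → z i = y i) with hT
  have hT0 : 0 ≤ T := Finset.sum_nonneg fun _ _ => ind_nonneg _
  have hupd : ∀ (z : ι → Q × V k) (a : Q × V k),
      (∀ i, i ∉ B → Function.update z l a i = y i) ↔ ∀ i, i ∉ B → z i = y i := by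
    intro z a
    refine forall_congr' fun i' => forall_congr' fun hi' => ?_
    rw [Function.update_of_ne (fun h' : i' = l => hi' (by rw [h']; exact hl))]
  have h3 : (Fintype.card (Q × V k) : ℝ) * ∑ z, ind (D z) ≤
      T * (Fintype.card Q * ((2 ^ (e - h) + 2 ^ e + (Fintype.card ι + 1) * 2 ^ s : ℕ) : ℝ)) := by
    rw [resample l, hT, Finset.sum_mul]
    refine Finset.sum_le_sum fun z _ => ?_
    set Cl : V k → Prop := fun c : V k => ∃ w' : Sq k N ι Θ (Ξ × Q), (∀ i, i ∉ B → vm w' i = y i) ∧ gv σ h e w' = g ∧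
      (∀ i ∈ B, i ≠ l → flr s (z i).2 = flr s (vm w' i).2) ∧ flr s c = flr s (vm w' l).2 with hCl
    have h4 : ∀ a : Q × V k, ind (D (Function.update z l a)) = ind (∀ i, i ∉ B → z i = y i) * ind (Cl a.2) := by
      intro a
      rw [← ind_and]
      congr 1
      apply propext
      rw [hD, hCl]
      simp only
      rw [hupd z a]
      refine and_congr_right fun _ => exists_congr fun w' => and_congr_right fun _ => and_congr_right fun _ => ?_
      constructor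
      · intro h5
        refine ⟨fun i hi hil => ?_, ?_⟩
        · have := h5 i hi
          rwa [Function.update_of_ne hil] at this
        · have := h5 l hl
          rwa [Function.update_self] at this
      · rintro ⟨h5, h6⟩ i hi
        by_cases hil : i = l
        · subst hil
          rw [Function.update_self]
          exact h6
        · rw [Function.update_of_ne hil]
          exact h5 i hi hil
    rw [Finset.sum_congr rfl fun a _ => h4 a, ← Finset.mul_sum]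
    refine mul_le_mul_of_nonneg_left ?_ (ind_nonneg _)
    refine pos_countC σ (Q := Q) h e s l (fun i => if i ∈ B then flr s (z i).2 else (y i).2) g.2.1 Cl ?_
    rintro c ⟨w', h5, h6, h7, h8⟩
    choose r hr1 hr2 using fun i : ι => flr_add_rem s (vm w' i).2
    refine ⟨fun i => (vm w' i).2, fun i => if i ∈ B then r i else 0, nz w' % 2 ^ e, Nat.mod_lt _ (Nat.two_pow_pos e),
      fun i hi => ?_, fun i _ => ?_, h8.symm, gv_flr σ h6⟩
    · by_cases hiB : i ∈ B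
      · simp only [if_pos hiB]
        rw [h7 i hiB hi]
        exact hr2 i
      · simp only [if_neg hiB]
        rw [h5 i hiB, Nat.cast_zero, add_zero]
    · by_cases hiB : i ∈ B
      · simp only [if_pos hiB]
        exact hr1 i
      · simp only [if_neg hiB]
        exact Nat.two_pow_pos _
  have h4 := sum_C_W σ (N := N) h e g.2 l (fun z => ∀ i, i ∉ B → z i = y i) hupd
  have hc := cPt_pos (k := k) (Q := Q)
  have hq : (0 : ℝ) < Fintype.card Q := by exact_mod_cast Fintype.card_pos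
  have hW := WS_nonneg (Q := Q) (k := k) (N := N) h e g.2
  have hM : ((2 ^ (e - h) + 2 ^ e + (Fintype.card ι + 1) * 2 ^ s : ℕ) : ℝ) ≤ (K' : ℝ) * 2 ^ e := by
    exact_mod_cast numCc hse hK
  have key : (Fintype.card (Q × V k) : ℝ) *
      ∑ z : ι → Q × V k, ind ((∀ i, i ∉ B → z i = y i) ∧ E z) * Wz N h e g.2 (∑ j, (z j).2 + σ) ≤
      (Fintype.card (Q × V k) : ℝ) * ((K' : ℝ) * δ *
        ∑ z : ι → Q × V k, ind (∀ i, i ∉ B → z i = y i) * Wz N h e g.2 (∑ j, (z j).2 + σ)) := by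
    calc (Fintype.card (Q × V k) : ℝ) *
          ∑ z : ι → Q × V k, ind ((∀ i, i ∉ B → z i = y i) ∧ E z) * Wz N h e g.2 (∑ j, (z j).2 + σ)
        ≤ (Fintype.card (Q × V k) : ℝ) * ∑ z, ind (D z ∧ E z) * (WS Q N h e g.2 / (2 ^ e * Fintype.card Q)) :=
          mul_le_mul_of_nonneg_left (Finset.sum_le_sum fun z _ => h2 z) hc.le
      _ = (WS Q N h e g.2 / (2 ^ e * Fintype.card Q)) * ((Fintype.card (Q × V k) : ℝ) * ∑ z, ind (D z ∧ E z)) := by
          rw [← Finset.sum_mul]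
          ring
      _ ≤ (WS Q N h e g.2 / (2 ^ e * Fintype.card Q)) * ((Fintype.card (Q × V k) : ℝ) * (δ * ∑ z, ind (D z))) :=
          mul_le_mul_of_nonneg_left (mul_le_mul_of_nonneg_left h1 hc.le) (by positivity)
      _ = (WS Q N h e g.2 / (2 ^ e * Fintype.card Q)) * δ * ((Fintype.card (Q × V k) : ℝ) * ∑ z, ind (D z)) := by ring
      _ ≤ (WS Q N h e g.2 / (2 ^ e * Fintype.card Q)) * δ *
          (T * (Fintype.card Q * ((2 ^ (e - h) + 2 ^ e + (Fintype.card ι + 1) * 2 ^ s : ℕ) : ℝ))) :=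
          mul_le_mul_of_nonneg_left h3 (by positivity)
      _ ≤ (WS Q N h e g.2 / (2 ^ e * Fintype.card Q)) * δ *
          (T * (Fintype.card Q * ((K' : ℝ) * 2 ^ e))) := by
          refine mul_le_mul_of_nonneg_left ?_ (by positivity)
          refine mul_le_mul_of_nonneg_left ?_ hT0
          exact mul_le_mul_of_nonneg_left hM hq.le
      _ = (K' : ℝ) * δ * (WS Q N h e g.2 * T) := by
          have h5 : (2 : ℝ) ^ e ≠ 0 := by positivity
          field_simp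
      _ = (K' : ℝ) * δ * ((Fintype.card (Q × V k) : ℝ) *
          ∑ z : ι → Q × V k, ind (∀ i, i ∉ B → z i = y i) * Wz N h e g.2 (∑ j, (z j).2 + σ)) := by rw [h4]
      _ = _ := by ring
  have key2 := le_of_mul_le_mul_left key hc
  calc kapm k ι Θ Ξ Q * ∑ z : ι → Q × V k, ind ((∀ i, i ∉ B → z i = y i) ∧ E z) * Wz N h e g.2 (∑ j, (z j).2 + σ)
      ≤ kapm k ι Θ Ξ Q * ((K' : ℝ) * δ *
        ∑ z : ι → Q × V k, ind (∀ i, i ∉ B → z i = y i) * Wz N h e g.2 (∑ j, (z j).2 + σ)) :=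
        mul_le_mul_of_nonneg_left key2 hk.le
    _ = _ := by ring

/-! ### coarser cells, abstract -/

section abs

variable {ι Om Ξ Pt V Γ κ : Type} [Fintype ι] [DecidableEq ι] [Fintype Om] [Fintype Ξ] [Fintype Pt]
  [Fintype V]

/-- coarser cells with their own constant -/
structure Crs (S : Sys ι Om Ξ Pt V Γ κ) (κ' : Type) (K' : ℝ) where
  cl : ℕ → Pt → κ'
  K1 : 1 ≤ K'
  fac : ∀ t a b, S.cl t a = S.cl t b → cl t a = cl t b
  nest : ∀ t a a', cl (t + 1) a = cl (t + 1) a' → cl t a = cl t a'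
  nu : ∀ t i w, ∃ s : Finset κ', (s.card : ℝ) ≤ K' ∧ ∀ w', (∀ j, j ≠ i → cl t (S.x w' j) = cl t (S.x w j)) →
    S.gm t w' = S.gm t w → cl t (S.x w' i) ∈ s
  cnt : ∀ t g (A : Finset ι) (y : ι → Pt) (j : ι) (β : κ'), j ∉ A → (∃ l, l ≠ j ∧ l ∉ A) →
    S.P.Pr (fun w => (∀ i ∈ A, S.x w i = y i) ∧ S.gm t w = g ∧
      ∃ w', (∀ i ∈ A, cl t (S.x w' i) = cl t (y i)) ∧ cl t (S.x w' j) = β ∧
        (∀ i, i ∉ A → i ≠ j → cl t (S.x w' i) = cl t (S.x w i)) ∧ S.gm t w' = g) ≤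
    K' * S.P.Pr (fun w => (∀ i ∈ A, S.x w i = y i) ∧ S.gm t w = g ∧ cl t (S.x w j) = β)
  edge : ∀ t g (B : Finset ι) (ξ : Ξ) (y : ι → Pt) (E : (ι → Pt) → Prop) (δ : ℝ), 0 ≤ δ →
    (∀ w', (∀ i, i ∉ B → S.x w' i = y i) → S.gm t w' = g →
      ∑ z : ι → Pt, ind ((∀ i, i ∉ B → z i = y i) ∧ (∀ i ∈ B, cl t (z i) = cl t (S.x w' i)) ∧ E z) ≤
        δ * ∑ z : ι → Pt, ind ((∀ i, i ∉ B → z i = y i) ∧ ∀ i ∈ B, cl t (z i) = cl t (S.x w' i))) →
    S.P.Pr (fun w => S.xi w = ξ ∧ (∀ i, i ∉ B → S.x w i = y i) ∧ S.gm t w = g ∧ E (S.x w)) ≤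
      K' * δ * S.P.Pr (fun w => S.xi w = ξ ∧ (∀ i, i ∉ B → S.x w i = y i) ∧ S.gm t w = g)

namespace Crs

variable {S : Sys ι Om Ξ Pt V Γ κ} {κ' : Type} {K' : ℝ}

/-- **the system with the coarser cells** -/
def sys (C : Crs S κ' K') : Sys ι Om Ξ Pt V Γ κ' where
  P := S.P
  xi := S.xi
  x := S.x
  n := S.n
  gm := S.gm
  par := S.par
  cl := C.cl
  ρ := S.ρ
  J := S.J
  near := S.near
  K := K'
  K1 := C.K1
  ppos := S.ppos
  par_gm := S.par_gm
  wt := S.wt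
  Jwt := S.Jwt
  near0 := S.near0
  Jnear := S.Jnear
  law := S.law
  lxi := S.lxi
  mart := S.mart
  nest := C.nest
  one := S.one
  nu := C.nu
  cnt := C.cnt
  edge := C.edge

/-- larger constant -/
def mono (C : Crs S κ' K') {K2 : ℝ} (h : K' ≤ K2) : Crs S κ' K2 where
  cl := C.cl
  K1 := C.K1.trans h
  fac := C.fac
  nest := C.nest
  nu t i w := by
    obtain ⟨s, h1, h2⟩ := C.nu t i w
    exact ⟨s, h1.trans h, h2⟩
  cnt t g A y j β hj hl := (C.cnt t g A y j β hj hl).trans (mul_le_mul_of_nonneg_right h (FP.Pr_nonneg _ _))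
  edge t g B ξ y E δ hδ hE := (C.edge t g B ξ y E δ hδ hE).trans
    (mul_le_mul_of_nonneg_right (mul_le_mul_of_nonneg_right h hδ) (FP.Pr_nonneg _ _))

/-- the cells themselves -/
def self (S : Sys ι Om Ξ Pt V Γ κ) : Crs S κ S.K where
  cl := S.cl
  K1 := S.K1
  fac _ _ _ h := h
  nest := S.nest
  nu := S.nu
  cnt := S.cnt
  edge := S.edge

/-- more coins -/
def add (C : Crs S κ' K') (Ξ2 : Type) [Fintype Ξ2] [Nonempty Ξ2] : Crs (GMN.addCoins S Ξ2) κ' K' where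
  cl := C.cl
  K1 := C.K1
  fac := C.fac
  nest := C.nest
  nu := (GMN.addCoins C.sys Ξ2).nu
  cnt := (GMN.addCoins C.sys Ξ2).cnt
  edge := (GMN.addCoins C.sys Ξ2).edge

theorem add_sys (C : Crs S κ' K') (Ξ2 : Type) [Fintype Ξ2] [Nonempty Ξ2] :
    (C.add Ξ2).sys = GMN.addCoins C.sys Ξ2 := rfl

/-- exact values of some vertices put into the nodes -/
def frz (C : Crs S κ' K') (A : Finset ι) (hA : A ≠ univ) : Crs (S.freeze A hA) κ' K' where
  cl := C.cl
  K1 := C.K1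
  fac := C.fac
  nest := C.nest
  nu := (C.sys.freeze A hA).nu
  cnt := (C.sys.freeze A hA).cnt
  edge := (C.sys.freeze A hA).edge

theorem frz_sys (C : Crs S κ' K') (A : Finset ι) (hA : A ≠ univ) : (C.frz A hA).sys = C.sys.freeze A hA := rfl

theorem sys_K (C : Crs S κ' K') : C.sys.K = K' := rfl

theorem sys_Dbl (C : Crs S κ' K') {D : ℝ} (h : S.Dbl D) : C.sys.Dbl D := h

/-- functions of exact vertices and coarse cells are functions of exact vertices and fine cells -/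
theorem depC (C : Crs S κ' K') {β : Type} {t : ℕ} {I J : Finset ι} {f : (ι → Pt) → β}
    (h : GMN.DepC C.sys t I J f) : GMN.DepC S t I J f :=
  fun x y h1 h2 => h x y h1 fun i hi => C.fac t _ _ (h2 i hi)

end Crs

end abs

/-! ### the binary model -/

/-- **coarse cells of the binary model**: cells of the size of the window, constant `m + 4` -/
def binCrs (Θ Ξ Q : Type) [Fintype Θ] [Nonempty Θ] [Fintype Ξ] [Nonempty Ξ] [Fintype Q] [Nonempty Q]
    (σ : V k) (i : ι) (hN : N ≤ k) (h : ℕ) :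
    Crs (binSys Θ Ξ Q σ i hN h) (V k) ((Fintype.card ι + 4 : ℕ) : ℝ) where
  cl t a := flr (ex N t) a.2
  K1 := by
    have : 1 ≤ Fintype.card ι + 4 := by omega
    exact_mod_cast this
  fac t a b hab := flr_mono_eq (Nat.sub_le _ _) hab
  nest t a a' haa := flr_mono_eq (ex_anti N t) haa
  nu t l ω := nu_c σ (Θ := Θ) (Ξ := Ξ) (Q := Q) (Fintype.card ι + 4) le_rfl (numAc (Fintype.card ι) h _) (exk hN t) l ω
  cnt t g A y j β hj hl := cnt_c σ (Fintype.card ι + 4) le_rfl (numAc (Fintype.card ι) h _) (exk hN t) i g A y j β hj hl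
  edge t g B ξ y E δ hδ hE := edge_c σ (Fintype.card ι + 4) le_rfl (numAc (Fintype.card ι) h _) (Nat.sub_le N t) hN i g
    B ξ y E δ hδ hE

end

end Pool.Agent.GM
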