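import Pool.Agent.GM.Sys

/-!
# GM/Dbl (helper42): a digit at most `D`-folds a mass (abstract)

`Sys.Dbl S D` : `P(gm t = gm t w) ≤ D P(gm (t+1) = gm (t+1) w)` for all `t, w`.  Consequences for classes finer than the
node, in particular for (coins, vertices of `I ≠ univ`, node): `Dbl.ce_le`; `Dbl.freeze`.
-/

set_option autoImplicit false
set_option linter.unusedSectionVars false

namespace Pool.Agent.GM

open Finset Pool.Agent.PWZ Pool.Agent.M3 Pool.Agent.M3.TS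

noncomputable section

/-- the masses of the classes determine how much a conditional mean of a nonnegative function may increase -/
theorem ce_le_of_m {Om κ κ' : Type*} [Fintype Om] (P : FP Om) {X : Om → κ} {Y : Om → κ'} (hXY : Fac X Y) {D : ℝ} {w : Om}
    (hw : P.p w ≠ 0) (hm : P.m Y w ≤ D * P.m X w) {f : Om → ℝ} (hf : ∀ v, P.p v ≠ 0 → 0 ≤ f v) :
    P.ce X f w ≤ D * P.ce Y f w := by
  unfold FP.ce
  have h1 := P.m_pos X hw
  have h2 := P.m_pos Y hw
  have h3 : P.E (fun v => ind (X v = X w) * f v) ≤ P.E (fun v => ind (Y v = Y w) * f v) :=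
    P.E_mono fun v hv => mul_le_mul_of_nonneg_right (ind_mono (hXY v w)) (hf v hv)
  have h4 : 0 ≤ P.E (fun v => ind (Y v = Y w) * f v) := P.E_nonneg fun v hv => mul_nonneg (ind_nonneg _) (hf v hv)
  rw [div_le_iff₀ h1, mul_assoc, div_mul_eq_mul_div, mul_div_assoc', le_div_iff₀ h2]
  calc P.E (fun v => ind (X v = X w) * f v) * P.m Y w
      ≤ P.E (fun v => ind (Y v = Y w) * f v) * (D * P.m X w) :=
        mul_le_mul h3 hm h2.le h4
    _ = D * (P.E (fun v => ind (Y v = Y w) * f v) * P.m X w) := by ring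

namespace Sys

variable {ι Om Ξ Pt V Γ κ : Type} [Fintype ι] [DecidableEq ι] [Fintype Om] [Fintype Ξ] [Fintype Pt]
  [Fintype V] (S : Sys ι Om Ξ Pt V Γ κ)

/-- a digit at most `D`-folds a mass -/
def Dbl (D : ℝ) : Prop := ∀ (t : ℕ) (w : Om), S.P.Pr (fun v => S.gm t v = S.gm t w) ≤
  D * S.P.Pr (fun v => S.gm (t + 1) v = S.gm (t + 1) w)

variable {S} {D : ℝ}

/-- the form with realised nodes -/
theorem Dbl.node (hD : S.Dbl D) {t : ℕ} {g : Γ} (hg : ∃ w, S.gm (t + 1) w = g) :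
    S.P.Pr (fun v => S.gm t v = S.par t g) ≤ D * S.P.Pr (fun v => S.gm (t + 1) v = g) := by
  obtain ⟨w, rfl⟩ := hg
  rw [S.par_gm]
  exact hD t w

theorem Dbl.mono (hD : S.Dbl D) {D' : ℝ} (h : D ≤ D') : S.Dbl D' := fun t w =>
  (hD t w).trans (mul_le_mul_of_nonneg_right h (FP.Pr_nonneg _ _))

theorem Dbl.one_le (hD : S.Dbl D) : 1 ≤ D := by
  obtain ⟨w⟩ := S.nonempty_Om
  have h1 := hD 0 w
  have h2 : S.P.Pr (fun v => S.gm (0 + 1) v = S.gm (0 + 1) w) ≤ S.P.Pr (fun v => S.gm 0 v = S.gm 0 w) :=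
    S.P.Pr_mono fun v _ h => S.gm_step 0 h
  have h3 : 0 < S.P.Pr (fun v => S.gm (0 + 1) v = S.gm (0 + 1) w) := S.P.m_pos (S.gm (0 + 1)) (S.ppos w)
  by_contra h4
  push Not at h4
  nlinarith

theorem Dbl.pos (hD : S.Dbl D) : 0 < D := one_pos.trans_le hD.one_le

/-- the mass of (coins, vertices of `I ≠ univ`, node) -/
theorem m_set {I : Finset ι} (hI : I ≠ univ) (t : ℕ) (w : Om) :
    S.P.m (fun v => (S.xi v, res I (S.x v), S.gm t v)) w =
      S.P.Pr (fun v => S.gm t v = S.gm t w) / (Fintype.card Ξ * (Fintype.card Pt : ℝ) ^ I.card) := by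
  rw [← S.law_set hI t (S.gm t w) (S.xi w) (S.x w)]
  refine S.P.Pr_congr fun v _ => ?_
  show (S.xi v, res I (S.x v), S.gm t v) = (S.xi w, res I (S.x w), S.gm t w) ↔ _
  rw [Prod.ext_iff, Prod.ext_iff]
  show (S.xi v = S.xi w ∧ res I (S.x v) = res I (S.x w) ∧ S.gm t v = S.gm t w) ↔ _
  rw [res_eq]

/-- without the coins -/
theorem m_set' {I : Finset ι} (hI : I ≠ univ) (t : ℕ) (w : Om) :
    S.P.m (fun v => (res I (S.x v), S.gm t v)) w =
      S.P.Pr (fun v => S.gm t v = S.gm t w) / (Fintype.card Pt : ℝ) ^ I.card := by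
  rw [← S.law_set' hI t (S.gm t w) (S.x w)]
  refine S.P.Pr_congr fun v _ => ?_
  show (res I (S.x v), S.gm t v) = (res I (S.x w), S.gm t w) ↔ _
  rw [Prod.ext_iff]
  show (res I (S.x v) = res I (S.x w) ∧ S.gm t v = S.gm t w) ↔ _
  rw [res_eq]

theorem Dbl.m_le (hD : S.Dbl D) {I : Finset ι} (hI : I ≠ univ) (t : ℕ) (w : Om) :
    S.P.m (fun v => (S.xi v, res I (S.x v), S.gm t v)) w ≤
      D * S.P.m (fun v => (S.xi v, res I (S.x v), S.gm (t + 1) v)) w := by
  rw [m_set hI, m_set hI, ← mul_div_assoc]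
  exact div_le_div_of_nonneg_right (hD t w) (by positivity)

theorem Dbl.m_le' (hD : S.Dbl D) {I : Finset ι} (hI : I ≠ univ) (t : ℕ) (w : Om) :
    S.P.m (fun v => (res I (S.x v), S.gm t v)) w ≤ D * S.P.m (fun v => (res I (S.x v), S.gm (t + 1) v)) w := by
  rw [m_set' hI, m_set' hI, ← mul_div_assoc]
  exact div_le_div_of_nonneg_right (hD t w) (by positivity)

/-- **a digit at most `D`-folds a conditional mean given (coins, vertices of `I ≠ univ`, node)** -/
theorem Dbl.ce_le (hD : S.Dbl D) {I : Finset ι} (hI : I ≠ univ) (t : ℕ) {f : Om → ℝ} (hf : ∀ v, 0 ≤ f v) (w : Om) :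
    S.P.ce (fun v => (S.xi v, res I (S.x v), S.gm (t + 1) v)) f w ≤
      D * S.P.ce (fun v => (S.xi v, res I (S.x v), S.gm t v)) f w := by
  refine ce_le_of_m S.P (fun v w h => ?_) (S.ppos w) (hD.m_le hI t w) fun v _ => hf v
  obtain ⟨h1, h2⟩ := Prod.ext_iff.1 h
  obtain ⟨h3, h4⟩ := Prod.ext_iff.1 h2
  exact Prod.ext h1 (Prod.ext h3 (S.gm_step t h4))

/-- without the coins -/
theorem Dbl.ce_le' (hD : S.Dbl D) {I : Finset ι} (hI : I ≠ univ) (t : ℕ) {f : Om → ℝ} (hf : ∀ v, 0 ≤ f v) (w : Om) :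
    S.P.ce (fun v => (res I (S.x v), S.gm (t + 1) v)) f w ≤ D * S.P.ce (fun v => (res I (S.x v), S.gm t v)) f w := by
  refine ce_le_of_m S.P (fun v w h => ?_) (S.ppos w) (hD.m_le' hI t w) fun v _ => hf v
  obtain ⟨h1, h2⟩ := Prod.ext_iff.1 h
  exact Prod.ext h1 (S.gm_step t h2)

/-- for events -/
theorem Dbl.ce_ind (hD : S.Dbl D) {I : Finset ι} (hI : I ≠ univ) (t : ℕ) (s : Om → Prop) (w : Om) :
    S.P.ce (fun v => (S.xi v, res I (S.x v), S.gm (t + 1) v)) (fun v => ind (s v)) w ≤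
      D * S.P.ce (fun v => (S.xi v, res I (S.x v), S.gm t v)) (fun v => ind (s v)) w :=
  hD.ce_le hI t (fun _ => ind_nonneg _) w

/-- any class which is equivalent to (coins, vertices of `I ≠ univ`, node) -/
theorem Dbl.ce_le_fac (hD : S.Dbl D) {I : Finset ι} (hI : I ≠ univ) (t : ℕ) {α β : Type*} {X : Om → α} {Y : Om → β}
    (h1 : Fac X (fun v => (S.xi v, res I (S.x v), S.gm t v))) (h1' : Fac (fun v => (S.xi v, res I (S.x v), S.gm t v)) X)
    (h2 : Fac Y (fun v => (S.xi v, res I (S.x v), S.gm (t + 1) v)))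
    (h2' : Fac (fun v => (S.xi v, res I (S.x v), S.gm (t + 1) v)) Y) {f : Om → ℝ} (hf : ∀ v, 0 ≤ f v) (w : Om) :
    S.P.ce Y f w ≤ D * S.P.ce X f w := by
  rw [S.P.ce_congr_map h1 h1' f w, S.P.ce_congr_map h2 h2' f w]
  exact hD.ce_le hI t hf w

/-- exact values of some vertices put into the nodes -/
theorem Dbl.freeze (hD : S.Dbl D) (A : Finset ι) (hA : A ≠ univ) : (S.freeze A hA).Dbl D := by
  intro t w
  exact hD.m_le' hA t w

end Sys

end

end Pool.Agent.GM
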