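import Mathlib

/-!
# GM/Dep (helper96): functions of some of the vertices

`Dep I f` : the function `f` of all vertices `x : (i : ι) → P i` depends only on `x i`, `i ∈ I` (convention of helper2).
`res I x` = restriction to `I`, `Dep.lift` = `f` as a function of the restriction.
A face opposite to `i` is a function with `Dep (univ.erase i)`.
-/

set_option autoImplicit false
set_option linter.unusedSectionVars false

namespace Pool.Agent.GM

open Finset

variable {ι : Type*} {P : ι → Type*} {β γ δ : Type*}

/-- `f` depends only on the vertices in `I` -/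
def Dep (I : Finset ι) (f : (∀ i, P i) → β) : Prop := ∀ x y, (∀ i ∈ I, x i = y i) → f x = f y

/-- the same as Mathlib's `DependsOn` -/
theorem dep_iff {I : Finset ι} {f : (∀ i, P i) → β} : Dep I f ↔ DependsOn f (I : Set ι) :=
  ⟨fun h x y hxy => h x y fun i hi => hxy i (mem_coe.2 hi), fun h _ _ hxy => h fun i hi => hxy i (mem_coe.1 hi)⟩

/-- restriction to the vertices in `I` -/
def res (I : Finset ι) (x : ∀ i, P i) : ∀ i : {i // i ∈ I}, P i.1 := fun i => x i.1

theorem res_eq {I : Finset ι} {x y : ∀ i, P i} : res I x = res I y ↔ ∀ i ∈ I, x i = y i := by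
  constructor
  · intro h i hi
    exact congrFun h ⟨i, hi⟩
  · intro h
    funext i
    exact h i.1 i.2

namespace Dep

variable {I J : Finset ι} {f : (∀ i, P i) → β} {g : (∀ i, P i) → γ}

theorem mono (hf : Dep I f) (h : I ⊆ J) : Dep J f := fun x y hxy => hf x y fun i hi => hxy i (h hi)

theorem const (I : Finset ι) (b : β) : Dep I (fun _ : ∀ i, P i => b) := fun _ _ _ => rfl

theorem coord {i : ι} (hi : i ∈ I) : Dep I (fun x : ∀ i, P i => x i) := fun _ _ h => h i hi

theorem res (I : Finset ι) : Dep I (GM.res (P := P) I) := fun _ _ h => res_eq.2 h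

theorem res_sub (h : I ⊆ J) : Dep J (GM.res (P := P) I) := (Dep.res I).mono h

theorem comp (hf : Dep I f) (F : β → γ) : Dep I (fun x => F (f x)) := fun x y h => congrArg F (hf x y h)

theorem comp₂ (hf : Dep I f) (hg : Dep I g) (F : β → γ → δ) : Dep I (fun x => F (f x) (g x)) := fun x y h => by
  show F (f x) (g x) = F (f y) (g y)
  rw [hf x y h, hg x y h]

theorem prodMk (hf : Dep I f) (hg : Dep I g) : Dep I (fun x => (f x, g x)) := hf.comp₂ hg Prod.mk

/-- a family of functions -/
theorem pi {κ : Type*} {f : κ → (∀ i, P i) → β} (h : ∀ c, Dep I (f c)) : Dep I (fun x c => f c x) :=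
  fun x y hxy => funext fun c => h c x y hxy

theorem app {κ : Type*} {f : (∀ i, P i) → κ → β} (h : Dep I f) (c : κ) : Dep I (fun x => f x c) :=
  fun x y hxy => congrFun (h x y hxy) c

theorem mul {f g : (∀ i, P i) → ℝ} (hf : Dep I f) (hg : Dep I g) : Dep I (fun x => f x * g x) :=
  hf.comp₂ hg fun a b => a * b

theorem add {f g : (∀ i, P i) → ℝ} (hf : Dep I f) (hg : Dep I g) : Dep I (fun x => f x + g x) :=
  hf.comp₂ hg fun a b => a + b

theorem sub {f g : (∀ i, P i) → ℝ} (hf : Dep I f) (hg : Dep I g) : Dep I (fun x => f x - g x) :=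
  hf.comp₂ hg fun a b => a - b

theorem sum {κ : Type*} (s : Finset κ) {f : κ → (∀ i, P i) → ℝ} (h : ∀ c ∈ s, Dep I (f c)) :
    Dep I (fun x => ∑ c ∈ s, f c x) := fun x y hxy => Finset.sum_congr rfl fun c hc => h c hc x y hxy

theorem prod {κ : Type*} (s : Finset κ) {f : κ → (∀ i, P i) → ℝ} (h : ∀ c ∈ s, Dep I (f c)) :
    Dep I (fun x => ∏ c ∈ s, f c x) := fun x y hxy => Finset.prod_congr rfl fun c hc => h c hc x y hxy

/-- events -/
theorem and {p q : (∀ i, P i) → Prop} (hp : Dep I p) (hq : Dep I q) : Dep I (fun x => p x ∧ q x) :=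
  hp.comp₂ hq And

theorem univ [Fintype ι] (f : (∀ i, P i) → β) : Dep univ f := fun x y h => by
  rw [show x = y from funext fun i => h i (mem_univ i)]

section upd

variable [DecidableEq ι]

theorem update (hf : Dep I f) {i : ι} (hi : i ∉ I) (x : ∀ i, P i) (a : P i) : f (Function.update x i a) = f x := by
  refine hf _ _ fun j hj => ?_
  rw [Function.update_of_ne]
  rintro rfl
  exact hi hj

theorem of_update [Fintype ι] {i : ι} (h : ∀ x a, f (Function.update x i a) = f x) : Dep (Finset.univ.erase i) f := by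
  intro x y hxy
  have h1 : x = Function.update y i (x i) := by
    funext j
    by_cases hj : j = i
    · subst hj
      rw [Function.update_self]
    · rw [Function.update_of_ne hj]
      exact hxy j (mem_erase.2 ⟨hj, mem_univ j⟩)
  rw [h1, h]

theorem face_iff [Fintype ι] {i : ι} : Dep (Finset.univ.erase i) f ↔ ∀ x a, f (Function.update x i a) = f x :=
  ⟨fun h => h.update (notMem_erase i _), of_update⟩

/-- a function of `x_I` and of `x_J` is a function of `x_(I ∩ J)` -/
theorem inter (hI : Dep I f) (hJ : Dep J f) : Dep (I ∩ J) f := by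
  intro x y hxy
  set z : ∀ i, P i := fun i => if i ∈ I then x i else y i with hz
  have h1 : f x = f z := hI _ _ fun i hi => by
    simp only [hz]
    rw [if_pos hi]
  have h2 : f z = f y := hJ _ _ fun i hi => by
    simp only [hz]
    split_ifs with h
    · exact hxy i (mem_inter.2 ⟨h, hi⟩)
    · rfl
  rw [h1, h2]

end upd

section lift

variable [∀ i, Nonempty (P i)] [DecidableEq ι]

/-- extension by arbitrary values -/
noncomputable def ext (I : Finset ι) (y : ∀ i : {i // i ∈ I}, P i.1) : ∀ i, P i := fun i =>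
  if h : i ∈ I then y ⟨i, h⟩ else Classical.arbitrary (P i)

theorem ext_mem {I : Finset ι} (y : ∀ i : {i // i ∈ I}, P i.1) {i : ι} (hi : i ∈ I) : ext I y i = y ⟨i, hi⟩ := by
  unfold ext
  rw [dif_pos hi]

theorem res_ext (I : Finset ι) (y : ∀ i : {i // i ∈ I}, P i.1) : GM.res I (ext I y) = y := by
  funext i
  exact ext_mem y i.2

/-- the function of the restriction -/
noncomputable def lift (I : Finset ι) (f : (∀ i, P i) → β) : (∀ i : {i // i ∈ I}, P i.1) → β := fun y => f (ext I y)

theorem lift_res (hf : Dep I f) (x : ∀ i, P i) : lift I f (GM.res I x) = f x :=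
  hf _ _ fun _ hi => ext_mem _ hi

end lift

theorem of_res (F : (∀ i : {i // i ∈ I}, P i.1) → β) : Dep I (fun x => F (GM.res I x)) := (Dep.res I).comp F

end Dep

end Pool.Agent.GM
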