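import Pool.Agent.GM.EndA
import Pool.Agent.M3.Main

/-!
# GM/End3 : `BinI (Fin 3)` from the theorem of `M3` (start of the induction over the number of vertices)
-/

set_option autoImplicit false
set_option linter.unusedSectionVars false

namespace Pool.Agent.GM

open Finset Pool.Agent.PWZ Pool.Agent.M3 Pool.Agent.M3.Bin
open Pool.Agent.M3.Mod (ex nd av dl pnd SC cel Lay TR TT3 Pc XX3 Fv T3 tele_step TR_small exists_last fin3_cover
  fin3_ne3)

noncomputable section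

variable {k N : ℕ}

/-- the function of a face as a function of its two vertices -/
def F3 (F : Fin 3 → (Fin 3 → Unit × V k) → V k → ℝ) (i : Fin 3) (b c : Unit × V k) (d : V k) : ℝ :=
  F i (fun j => if j = i + 1 then b else if j = i + 2 then c else ((), 0)) d

theorem F3_eq {F : Fin 3 → (Fin 3 → Unit × V k) → V k → ℝ} (hF : Faces F) (i : Fin 3) (x : Fin 3 → Unit × V k)
    (d : V k) : F3 F i (x (i + 1)) (x (i + 2)) d = F i x d := by
  unfold F3
  refine congrFun (hF.1 i fun j hj => ?_) d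
  rcases fin3_cover i j with rfl | rfl | rfl
  · exact absurd rfl hj
  · simp
  · show (if i + 2 = i + 1 then x (i + 1) else if i + 2 = i + 2 then x (i + 2) else ((), 0)) = x (i + 2)
    rw [if_neg (Ne.symm (fin3_ne3 i)), if_pos rfl]

theorem XX_eq3 {F : Fin 3 → (Fin 3 → Unit × V k) → V k → ℝ} (hF : Faces F) (e : ℕ) (ω : Sq k N (Fin 3) Unit Unit) :
    XX 0 F e ω = XX3 N (F3 F) e ω := by
  unfold XX XX3 T3
  have h1 : (Yn 0 e ω).1 = (Mod.Yn e ω).1 := by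
    show (nd e (∑ j, (vx j ω).2 + 0) (nz ω)).1 = (nd e (∑ j, (Mod.vx j ω).2) (Mod.nz ω)).1
    rw [add_zero]
    rfl
  rw [h1]
  congr 1
  funext d
  rw [Fin.prod_univ_three]
  rw [← F3_eq hF 0, ← F3_eq hF 1, ← F3_eq hF 2]
  rfl

/-- residual processes -/
def TRm3 (L : Lay) : Proc (Fin 3) := fun _ _ F l e ω => TR L (F3 F) l e ω

/-- pieces -/
def pcm3 (L : Lay) : PProc (Fin 3) := fun _ N F l q e ω => TT3 (L.lh (l + 1)) (Pc N L (F3 F) l q) e ω

theorem binI_three : BinI (Fin 3) := by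
  obtain ⟨κ, hκ, h3⟩ : ∃ κ : ℝ, 0 < κ ∧ S3.Thm3 κ := ⟨1 / 40, by norm_num, S3.thm3A⟩
  have hNV := Mod.nvThm_of_Thm3 Mod.L0 h3
  obtain ⟨lstar, h5⟩ := Mod.h5_of Mod.L0 hκ one_pos hNV (Mod.cold3_inv Mod.L0 hκ one_pos le_rfl hNV)
  have hb : ∀ {k : ℕ} {F : Fin 3 → (Fin 3 → Unit × V k) → V k → ℝ}, Faces F → ∀ i b c d, |F3 F i b c d| ≤ 1 :=
    fun hF i b c d => hF.2 _ _ _
  refine binI_of (TR := TRm3 Mod.L0) (pc := pcm3 Mod.L0) ?_ ?_ lstar _ _ (Mod.summable_inv_sq (9 * 1))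
    (fun l => by positivity) Mod.summable_exp_neg (fun l => (Real.exp_pos _).le) ?_ ?_
  · intro k N F hF l e ω
    exact tele_step Mod.L0 l e ω
  · intro l0 N a ha b hb'
    obtain ⟨n, h1, h2⟩ := exists_last Mod.L0 l0 N ha hb'
    refine ⟨n, fun k hN F hF => ?_⟩
    refine le_trans ?_ ((TR_small (Θ := Unit) (P := Unit) Mod.L0 hN (hb hF) (l0 + n)).trans h2)
    refine FP.Pr_mono _ fun ω _ hω => ?_
    obtain ⟨e, he, h5⟩ := hω
    exact ⟨e, he, h1.trans h5⟩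
  · intro l hl k N hN F hF q
    exact h5 l hl k N hN (F3 F) (hb hF) q
  · intro l0 c0 hc0 η hη
    obtain ⟨K, hK0, hK⟩ := Mod.lay0 Mod.L0 l0 c0 hc0 η hη
    refine ⟨K, hK0, fun k N hN F hF => ?_⟩
    obtain ⟨mark, exc, h1, h2, h3⟩ := hK k N hN (F3 F) (hb hF)
    refine ⟨mark, exc, h1, h2, fun ω hω l' l hl hlN hno => ?_⟩
    rw [XX_eq3 hF, XX_eq3 hF]
    exact h3 ω hω l' l hl hlN hno

end

end Pool.Agent.GM
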