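import Pool.Agent.GM.Model
import Pool.Agent.GM.BinI
import Pool.Agent.M3.S6End

/-!
# GM/EndA (section 6, final assembly for every finite set of vertices): abstract form

`Proc ι` = family of processes (layer `l`, exponent `e`), `PProc ι` = the pieces (layer, piece, exponent).
* `Lay0G TR l0` : LAYER 0: the difference of the process and of the residual process of the layer `l0` has marks;
* `H5G pc lstar r p` : the theorem of section 5: no piece of a layer `l >= lstar` is large at any exponent `e < N`,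
  except with probability `p l`;
* `Tele TR pc` : one step of the telescoping; `LastG TR` : late residual processes are small;
* `binI_of` : these four give `BinI ι`.
-/

set_option autoImplicit false
set_option linter.unusedSectionVars false

namespace Pool.Agent.GM

open Finset Pool.Agent.PWZ Pool.Agent.M3 Pool.Agent.M3.Bin
open Pool.Agent.M3.Mod (ex nd av dl pnd SC cel abs_av_le small_tail)

noncomputable section

variable {k N : ℕ} {ι : Type} [Fintype ι] [DecidableEq ι]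

/-! ### from sample points to points of the group -/

/-- sample point of `(x, w)` -/
def mkS (N : ℕ) (x : ι → V k) (w : ℕ) : Sq k N ι Unit Unit :=
  ((), fun j => ((), x j), ⟨w % 2 ^ N, Nat.mod_lt _ (by positivity)⟩)

theorem vs_mkS (x : ι → V k) (w : ℕ) : vs (mkS N x w) = fun j => ((), x j) := rfl

theorem ctr_mkS (x : ι → V k) (w : ℕ) : ctr 0 (mkS N x w) = ∑ j, x j := by
  show ∑ j, x j + 0 = _
  rw [add_zero]

theorem nz_mkS (x : ι → V k) {w : ℕ} (hw : w < 2 ^ N) : nz (mkS N x w) = w := by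
  show w % 2 ^ N = w
  exact Nat.mod_eq_of_lt hw

theorem E_mkS (f : Sq k N ι Unit Unit → ℝ) :
    (Pm : FP (Sq k N ι Unit Unit)).E f = (((2 : ℝ) ^ k) ^ Fintype.card ι * 2 ^ N)⁻¹ *
      ∑ x : ι → V k, ∑ w ∈ range (2 ^ N), f (mkS N x w) := by
  rw [E_eq]
  have h1 : ((Fintype.card Unit : ℝ) * ((Fintype.card Unit : ℝ) * 2 ^ k) ^ Fintype.card ι * 2 ^ N) =
      ((2 : ℝ) ^ k) ^ Fintype.card ι * 2 ^ N := by simp
  rw [h1]
  congr 1
  rw [Fintype.sum_unique]
  refine Fintype.sum_equiv (Equiv.arrowCongr (Equiv.refl ι) (Equiv.punitProd (V k))) _ _ fun x => ?_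
  rw [← Finset.sum_attach (range (2 ^ N)) (fun w => f (mkS N _ w))]
  refine Finset.sum_congr rfl fun w _ => ?_
  congr 1
  have hw := Finset.mem_range.1 w.2
  refine Prod.ext rfl (Prod.ext ?_ ?_)
  · funext j
    rfl
  · refine Fin.ext ?_
    show w.1 = w.1 % 2 ^ N
    rw [Nat.mod_eq_of_lt hw]

theorem sum_of_E {f : Sq k N ι Unit Unit → ℝ} {B : ℝ} (h : (Pm : FP (Sq k N ι Unit Unit)).E f ≤ B) :
    ∑ x : ι → V k, ∑ w ∈ range (2 ^ N), f (mkS N x w) ≤ B * (((2 : ℝ) ^ k) ^ Fintype.card ι * 2 ^ N) := by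
  rw [E_mkS, inv_mul_le_iff₀ (by positivity)] at h
  linarith

/-- the functions as functions of the vertices with trivial private randomness -/
def Fu (F : ι → (ι → V k) → V k → ℝ) (i : ι) (x : ι → Unit × V k) (d : V k) : ℝ := F i (fun j => (x j).2) d

theorem Fu_faces {F : ι → (ι → V k) → V k → ℝ} (hF : FaceI F) (h1 : ∀ i x d, |F i x d| ≤ 1) : Faces (Fu F) := by
  refine ⟨fun i x y hxy => ?_, fun i x d => h1 _ _ _⟩
  funext d
  exact hF i _ _ d fun j hj => by rw [hxy j hj]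

/-- the process of the transfer is the process `XX` -/
theorem bavI_eq (F : ι → (ι → V k) → V k → ℝ) (x : ι → V k) {w : ℕ} (hw : w < 2 ^ N) (l : ℕ) :
    bavI F x l w = XX 0 (Fu F) (l + 1) (mkS N x w) := by
  unfold XX av bavI
  congr 1
  refine Finset.sum_congr rfl fun n _ => ?_
  have h1 : (Yn 0 (l + 1) (mkS N x w)).1 = ∑ j, x j + ((w % 2 ^ (l + 1) : ℕ) : V k) := by
    show ctr 0 (mkS N x w) + ((nz (mkS N x w) % 2 ^ (l + 1) : ℕ) : V k) = _
    rw [nz_mkS x hw, ctr_mkS]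
  rw [h1]
  rfl

/-! ### the hypotheses -/

/-- a family of processes: layer, exponent -/
abbrev Proc (ι : Type) : Type :=
  ∀ k N : ℕ, (ι → (ι → Unit × V k) → V k → ℝ) → ℕ → ℕ → Sq k N ι Unit Unit → ℝ

/-- the pieces: layer, piece, exponent -/
abbrev PProc (ι : Type) : Type :=
  ∀ k N : ℕ, (ι → (ι → Unit × V k) → V k → ℝ) → ℕ → ι → ℕ → Sq k N ι Unit Unit → ℝ

/-- LAYER 0 in the model -/
def Lay0G (TR : Proc ι) (l0 : ℕ) : Prop :=
  ∀ c0 : ℝ, 0 < c0 → ∀ η : ℝ, 0 < η → ∃ K : ℝ, 0 ≤ K ∧ ∀ k N : ℕ, N ≤ k →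
    ∀ F : ι → (ι → Unit × V k) → V k → ℝ, Faces F →
    ∃ (mark : Sq k N ι Unit Unit → ℕ → Prop) (exc : Sq k N ι Unit Unit → Prop),
      (Pm : FP (Sq k N ι Unit Unit)).E (fun ω => ∑ j ∈ range N, ind (mark ω j)) ≤ K ∧
      (Pm : FP (Sq k N ι Unit Unit)).Pr exc ≤ η ∧
      ∀ ω, ¬ exc ω → ∀ l' l, l' ≤ l → l < N → (∀ j, l' ≤ j → j < l → ¬ mark ω j) →
        |(XX 0 F (l + 1) ω - TR k N F l0 (l + 1) ω) - (XX 0 F (l' + 1) ω - TR k N F l0 (l' + 1) ω)| ≤ c0

/-- THE THEOREM OF SECTION 5, as a hypothesis (exponents `e < N`: the time `0` is not used) -/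
def H5G (pc : PProc ι) (lstar : ℕ) (r p : ℕ → ℝ) : Prop :=
  ∀ l, lstar ≤ l → ∀ k N : ℕ, N ≤ k →
    ∀ F : ι → (ι → Unit × V k) → V k → ℝ, Faces F → ∀ q : ι,
      (Pm : FP (Sq k N ι Unit Unit)).Pr (fun ω => ∃ e < N, r l ≤ |pc k N F l q e ω|) ≤ p l

/-- one step of the telescoping -/
def Tele (TR : Proc ι) (pc : PProc ι) : Prop :=
  ∀ k N : ℕ, ∀ F : ι → (ι → Unit × V k) → V k → ℝ, Faces F → ∀ l e ω,
    TR k N F l e ω = (∑ q : ι, pc k N F l q e ω) + TR k N F (l + 1) e ω

/-- late residual processes are small -/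
def LastG (TR : Proc ι) : Prop :=
  ∀ l0 N : ℕ, ∀ a : ℝ, 0 < a → ∀ b : ℝ, 0 < b → ∃ n : ℕ, ∀ k, N ≤ k →
    ∀ F : ι → (ι → Unit × V k) → V k → ℝ, Faces F →
      (Pm : FP (Sq k N ι Unit Unit)).Pr (fun ω => ∃ e ≤ N, a ≤ |TR k N F (l0 + n) e ω|) ≤ b

theorem tele_sum {TR : Proc ι} {pc : PProc ι} (hT : Tele TR pc) {F : ι → (ι → Unit × V k) → V k → ℝ}
    (hF : Faces F) (l0 n e : ℕ) (ω : Sq k N ι Unit Unit) :
    TR k N F l0 e ω = (∑ l ∈ range n, ∑ q : ι, pc k N F (l0 + l) q e ω) + TR k N F (l0 + n) e ω := by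
  induction n with
  | zero => simp
  | succ n ih =>
    rw [ih, Finset.sum_range_succ, hT k N F hF (l0 + n) e ω]
    have : l0 + (n + 1) = l0 + n + 1 := by omega
    rw [this]
    ring

/-! ### the theorem -/

/-- THE FINITE THEOREM from layer 0 and section 5 (model with `N + 1` digits, the top digit of the noise is `0`) -/
theorem binI_of {TR : Proc ι} {pc : PProc ι} (hT : Tele TR pc) (hlast : LastG TR) (lstar : ℕ) (r p : ℕ → ℝ)
    (hr : Summable r) (hr0 : ∀ l, 0 ≤ r l) (hp : Summable p) (hp0 : ∀ l, 0 ≤ p l) (h5 : H5G pc lstar r p)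
    (h0 : ∀ l0, Lay0G TR l0) : BinI ι := by
  classical
  intro c hc η hη
  set m : ℝ := (Fintype.card ι : ℝ) + 1 with hm
  have hm0 : 0 < m := by
    rw [hm]
    positivity
  have hcm : (Fintype.card ι : ℝ) ≤ m := by
    rw [hm]
    linarith
  obtain ⟨m1, hm1⟩ := small_tail hr hr0 (show 0 < c / (8 * m) by positivity)
  obtain ⟨m2, hm2⟩ := small_tail hp hp0 (show 0 < η / (8 * m) by positivity)
  set l0 : ℕ := max lstar (max m1 m2) with hl0
  obtain ⟨K, hK0, hK⟩ := h0 l0 (c / 4) (by positivity) (η / 4) (by positivity)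
  refine ⟨2 * K, by positivity, fun k N' hNk' F hFace hF => ?_⟩
  set N : ℕ := N' + 1 with hN
  have hNk : N ≤ k := hNk'
  set G := Fu F with hG
  have hGf : Faces G := Fu_faces hFace hF
  obtain ⟨mark, exc, hmark, hexc, hclose⟩ := hK k N hNk G hGf
  obtain ⟨n, hn⟩ := hlast l0 N (c / 16) (by positivity) (η / 8) (by positivity)
  have hn2 := hn k hNk G hGf
  set bad : Sq k N ι Unit Unit → Prop := fun ω => exc ω ∨
    (∃ z ∈ (range n) ×ˢ (univ : Finset ι), ∃ e < N, r (l0 + z.1) ≤ |pc k N G (l0 + z.1) z.2 e ω|) ∨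
    (∃ e ≤ N, c / 16 ≤ |TR k N G (l0 + n) e ω|) with hbad
  have hPr : (Pm : FP (Sq k N ι Unit Unit)).Pr bad ≤ η / 2 := by
    rw [hbad]
    refine (FP.Pr_or_le _ _ _).trans ?_
    have h1 := FP.Pr_or_le (Pm : FP (Sq k N ι Unit Unit))
      (fun ω => ∃ z ∈ (range n) ×ˢ (univ : Finset ι), ∃ e < N,
        r (l0 + z.1) ≤ |pc k N G (l0 + z.1) z.2 e ω|)
      (fun ω => ∃ e ≤ N, c / 16 ≤ |TR k N G (l0 + n) e ω|)
    have h3 : (Pm : FP (Sq k N ι Unit Unit)).Pr
        (fun ω => ∃ z ∈ (range n) ×ˢ (univ : Finset ι), ∃ e < N,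
        r (l0 + z.1) ≤ |pc k N G (l0 + z.1) z.2 e ω|) ≤ η / 8 := by
      refine (FP.Pr_ex_le _ _ _).trans ?_
      calc ∑ z ∈ (range n) ×ˢ (univ : Finset ι), (Pm : FP (Sq k N ι Unit Unit)).Pr (fun ω => ∃ e < N,
            r (l0 + z.1) ≤ |pc k N G (l0 + z.1) z.2 e ω|)
          ≤ ∑ z ∈ (range n) ×ˢ (univ : Finset ι), p (l0 + z.1) := by
            refine Finset.sum_le_sum fun z _ => ?_
            exact h5 (l0 + z.1) (by omega) k N hNk G hGf z.2
        _ = ∑ l ∈ range n, ∑ _q : ι, p (l0 + l) := by rw [Finset.sum_product]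
        _ = Fintype.card ι * ∑ l ∈ range n, p (l0 + l) := by
            rw [Finset.mul_sum]
            refine Finset.sum_congr rfl fun l _ => ?_
            rw [Finset.sum_const, Finset.card_univ, nsmul_eq_mul]
        _ ≤ m * (η / (8 * m)) :=
            mul_le_mul hcm (hm2 l0 (by omega) n) (Finset.sum_nonneg fun l _ => hp0 _) hm0.le
        _ = η / 8 := by field_simp
    linarith
  have hsub : ∀ f : (ι → V k) → ℕ → ℝ, (∀ x w, 0 ≤ f x w) →
      ∑ x : ι → V k, ∑ w ∈ range (2 ^ N'), f x w ≤ ∑ x : ι → V k, ∑ w ∈ range (2 ^ N), f x w := by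
    intro f hf
    refine Finset.sum_le_sum fun x _ => Finset.sum_le_sum_of_subset_of_nonneg ?_ fun w _ _ => hf x w
    refine Finset.range_subset_range.2 (Nat.pow_le_pow_right (by norm_num) (by omega))
  have h2N : (2 : ℝ) ^ N = 2 * 2 ^ N' := by
    rw [hN]
    ring
  refine ⟨fun x w j => mark (mkS N x w) j, fun x w => bad (mkS N x w), ?_, ?_, ?_⟩
  · have h1 := sum_of_E hmark
    have h2 : ∑ x : ι → V k, ∑ w ∈ range (2 ^ N'), ∑ j ∈ range N', ind (mark (mkS N x w) j) ≤
        ∑ x : ι → V k, ∑ w ∈ range (2 ^ N'), ∑ j ∈ range N, ind (mark (mkS N x w) j) := by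
      refine Finset.sum_le_sum fun x _ => Finset.sum_le_sum fun w _ => ?_
      exact Finset.sum_le_sum_of_subset_of_nonneg (Finset.range_subset_range.2 (by omega)) fun j _ _ => ind_nonneg _
    have h3 := hsub (fun x w => ∑ j ∈ range N, ind (mark (mkS N x w) j))
      (fun x w => Finset.sum_nonneg fun j _ => ind_nonneg _)
    rw [h2N] at h1
    refine (h2.trans (h3.trans h1)).trans (le_of_eq ?_)
    ring
  · have h1 : (Pm : FP (Sq k N ι Unit Unit)).E (fun ω => ind (bad ω)) ≤ η / 2 := hPr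
    have h2 := sum_of_E h1
    have h3 := hsub (fun x w => ind (bad (mkS N x w))) (fun x w => ind_nonneg _)
    rw [h2N] at h2
    refine (h3.trans h2).trans (le_of_eq ?_)
    ring
  · intro x w hw hnb l' l hl hlL hno
    have hw2 : w < 2 ^ N := hw.trans_le (Nat.pow_le_pow_right (by norm_num) (by omega))
    rw [bavI_eq F x hw2 l, bavI_eq F x hw2 l']
    set ω := mkS N x w with hω
    have hnb' : ¬ exc ω ∧ ¬ (∃ z ∈ (range n) ×ˢ (univ : Finset ι), ∃ e < N,
      r (l0 + z.1) ≤ |pc k N G (l0 + z.1) z.2 e ω|) ∧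
      ¬ (∃ e ≤ N, c / 16 ≤ |TR k N G (l0 + n) e ω|) := by
      refine ⟨fun h => hnb (Or.inl h), fun h => hnb (Or.inr (Or.inl h)), fun h => hnb (Or.inr (Or.inr h))⟩
    obtain ⟨g1, g2, g3⟩ := hnb'
    have h1 := hclose ω g1 l' l hl (by omega) hno
    have h2 : ∀ e < N, |TR k N G l0 e ω| ≤ c / 8 + c / 16 := by
      intro e he
      rw [tele_sum hT hGf l0 n e ω]
      refine (abs_add_le _ _).trans (add_le_add ?_ ?_)
      · refine (Finset.abs_sum_le_sum_abs _ _).trans ?_
        calc ∑ l ∈ range n, |∑ q : ι, pc k N G (l0 + l) q e ω|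
            ≤ ∑ l ∈ range n, Fintype.card ι * r (l0 + l) := by
              refine Finset.sum_le_sum fun i hi => ?_
              refine (Finset.abs_sum_le_sum_abs _ _).trans ?_
              calc ∑ q : ι, |pc k N G (l0 + i) q e ω|
                  ≤ ∑ _q : ι, r (l0 + i) := by
                    refine Finset.sum_le_sum fun q _ => ?_
                    by_contra hcon
                    push Not at hcon
                    exact g2 ⟨(i, q), Finset.mem_product.2 ⟨hi, Finset.mem_univ _⟩, e, he, hcon.le⟩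
                _ = Fintype.card ι * r (l0 + i) := by
                    rw [Finset.sum_const, Finset.card_univ, nsmul_eq_mul]
          _ = Fintype.card ι * ∑ l ∈ range n, r (l0 + l) := by rw [Finset.mul_sum]
          _ ≤ m * (c / (8 * m)) :=
              mul_le_mul hcm (hm1 l0 (by omega) n) (Finset.sum_nonneg fun l _ => hr0 _) hm0.le
          _ = c / 8 := by field_simp
      · by_contra hcon
        push Not at hcon
        exact g3 ⟨e, he.le, hcon.le⟩
    have h3 := h2 (l + 1) (by omega)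
    have h4 := h2 (l' + 1) (by omega)
    rw [abs_le] at h1 h3 h4
    rw [abs_lt]
    constructor <;> linarith [h1.1, h1.2, h3.1, h3.2, h4.1, h4.2]

end

end Pool.Agent.GM
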