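/-
GM (MP_4d8f14_an), section 6 for every number of vertices (helper66), module L0Loc.
`BinI ι` (file BinI, helper2) = the finite theorem in the binary model for the finite vertex set `ι`, all moduli `2^k`.
LOCAL FORM: boxes of side `2^s` inside `V k`, an exact offset `t`, levels below `s`.
-/
import Mathlib
import Pool.Agent.M3.Bin.Flr
import Pool.Agent.GM.BinI


set_option autoImplicit false

open Finset Pool.Agent.PWZ

namespace Pool.Agent.GM.L0

open Pool.Agent.M3.Bin

noncomputable section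

/-- average over the window of the level `l` (exponent `l + 1`) with right end `z + w % 2^(l+1)` -/
def wv {k : ℕ} (f : V k → ℝ) (l : ℕ) (z : V k) (w : ℕ) : ℝ :=
  ((2 : ℝ) ^ (l + 1))⁻¹ * ∑ n ∈ range (2 ^ (l + 1)), f (z + ((w % 2 ^ (l + 1) : ℕ) : V k) - (n : V k))

/-- the number of sample points -/
def tot (ι : Type) [Fintype ι] (k N : ℕ) : ℝ := ((2 : ℝ) ^ k) ^ Fintype.card ι * 2 ^ N

theorem tot_pos (ι : Type) [Fintype ι] (k N : ℕ) : 0 < tot ι k N := by unfold tot; positivity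

/-- transport along an equivalence of vertex sets -/
theorem binI_equiv {ι κ : Type} [Fintype ι] [DecidableEq ι] [Fintype κ] [DecidableEq κ] (e : ι ≃ κ)
    (h : BinI ι) : BinI κ := by
  intro c hc η hη
  obtain ⟨K, hK0, hK⟩ := h c hc η hη
  refine ⟨K, hK0, fun k N hN F hF hF1 => ?_⟩
  have htot : tot ι k N = tot κ k N := by
    unfold tot
    rw [Fintype.card_congr e]
  obtain ⟨mark, exc, hm, he, hc'⟩ := hK k N hN (fun i x d => F (e i) (fun j => x (e.symm j)) d)
    (fun i x y d hxy => hF (e i) _ _ d fun j hj => hxy _ fun hh => hj (by rw [← hh, e.apply_symm_apply]))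
    (fun i x d => hF1 _ _ _)
  change _ ≤ K * tot ι k N at hm
  change _ ≤ η * tot ι k N at he
  have hsum : ∀ g : (ι → V k) → ℝ, ∑ x : κ → V k, g (fun i => x (e i)) = ∑ x : ι → V k, g x := fun g =>
    (Equiv.arrowCongr e.symm (Equiv.refl (V k))).sum_comp g
  refine ⟨fun x w j => mark (fun i => x (e i)) w j, fun x w => exc (fun i => x (e i)) w, ?_, ?_, ?_⟩
  · change _ ≤ K * tot κ k N
    rw [← htot]
    refine le_trans (le_of_eq ?_) hm
    exact hsum (fun x => ∑ w ∈ range (2 ^ N), ∑ j ∈ range N, ind (mark x w j))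
  · change _ ≤ η * tot κ k N
    rw [← htot]
    refine le_trans (le_of_eq ?_) he
    exact hsum (fun x => ∑ w ∈ range (2 ^ N), ind (exc x w))
  · intro x w hw hnx l' l hl hlN hno
    have h1 := hc' (fun i => x (e i)) w hw hnx l' l hl hlN hno
    change |wv (fun d => ∏ i, F i x d) l (∑ j, x j) w - wv (fun d => ∏ i, F i x d) l' (∑ j, x j) w| < c
    change |wv (fun d => ∏ i, F (e i) (fun j => x (e (e.symm j))) d) l (∑ j, x (e j)) w -
      wv (fun d => ∏ i, F (e i) (fun j => x (e (e.symm j))) d) l' (∑ j, x (e j)) w| < c at h1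
    have e1 : (fun d => ∏ i, F (e i) (fun j => x (e (e.symm j))) d) = fun d => ∏ i, F i x d := by
      funext d
      rw [← e.prod_comp]
      refine Finset.prod_congr rfl fun i _ => ?_
      congr 1
      funext j
      rw [e.apply_symm_apply]
    have e2 : ∑ j, x (e j) = ∑ j, x j := e.sum_comp x
    rw [e1, e2] at h1
    exact h1

/-- a box of side `2^s` -/
def box {k : ℕ} {ι : Type} [Fintype ι] [DecidableEq ι] (z : ι → V k) (s : ℕ) : Finset (ι → V k) :=
  univ.filter fun x => ∀ j, (x j - z j).val < 2 ^ s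

theorem mem_box {k : ℕ} {ι : Type} [Fintype ι] [DecidableEq ι] (z : ι → V k) (s : ℕ) (x : ι → V k) :
    x ∈ box z s ↔ ∀ j, (x j - z j).val < 2 ^ s := by
  unfold box
  rw [Finset.mem_filter]
  exact ⟨fun h => h.2, fun h => ⟨Finset.mem_univ _, h⟩⟩

/-- LOCAL FORM of the finite theorem -/
theorem loc_form {ι : Type} [Fintype ι] [DecidableEq ι] (hB : BinI ι) {c1 η1 : ℝ} (hc1 : 0 < c1)
    (hη1 : 0 < η1) : ∃ K1 : ℝ, 0 ≤ K1 ∧ ∀ k s : ℕ, ∀ (z : ι → V k) (t : V k)
      (F : ι → (ι → V k) → V k → ℝ), FaceI F → (∀ i x d, |F i x d| ≤ 1) →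
      ∃ (mark : (ι → V k) → ℕ → ℕ → Prop) (exc : (ι → V k) → ℕ → Prop),
        (∑ x ∈ box z s, ∑ w ∈ range (2 ^ s), ∑ j ∈ range s, ind (mark x w j)) ≤
          K1 * (((2 : ℝ) ^ s) ^ Fintype.card ι * 2 ^ s) ∧
        (∑ x ∈ box z s, ∑ w ∈ range (2 ^ s), ind (exc x w)) ≤
          η1 * (((2 : ℝ) ^ s) ^ Fintype.card ι * 2 ^ s) ∧
        ∀ x ∈ box z s, ∀ w < 2 ^ s, ¬ exc x w → ∀ l' l, l' ≤ l → l < s →
          (∀ j, l' ≤ j → j < l → ¬ mark x w j) →
          |wv (fun d => ∏ i, F i x d) l (t + ∑ j, x j) w -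
            wv (fun d => ∏ i, F i x d) l' (t + ∑ j, x j) w| < c1 := by
  classical
  obtain ⟨p, hp⟩ : ∃ p : ℕ, Fintype.card ι + 3 ≤ 2 ^ p := ⟨_, (Nat.lt_two_pow_self).le⟩
  set P : ℝ := ((2 : ℝ) ^ p) ^ Fintype.card ι with hP
  have hPpos : 0 < P := by positivity
  obtain ⟨K, hK0, hK⟩ := hB c1 hc1 (η1 / P) (by positivity)
  refine ⟨K * P, by positivity, fun k s z t F hF hF1 => ?_⟩
  set k' := s + p with hk'
  have hpow : (2 : ℕ) ^ k' = 2 ^ s * 2 ^ p := by rw [hk', pow_add]
  have hspos : 0 < 2 ^ s := by positivity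
  have h1p : 1 ≤ 2 ^ p := Nat.one_le_two_pow
  set ψ : (ι → V k') → (ι → V k) := fun y j => z j + (((y j).val : ℕ) : V k) with hψ
  set δ : V k' → V k := fun d => t + ∑ j, z j +
    (((((d + ((2 ^ s : ℕ) : V k')).val : ℕ) : ℤ) - 2 ^ s : ℤ) : V k) with hδ
  set φ : (ι → V k) → (ι → V k') := fun x j => (((x j - z j).val : ℕ) : V k') with hφ
  have hφval : ∀ x ∈ box z s, ∀ j, (φ x j).val = (x j - z j).val := by
    intro x hx j
    have h1 := (mem_box z s x).1 hx j
    rw [hφ]
    simp only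
    rw [ZMod.val_natCast_of_lt]
    rw [hpow]
    calc (x j - z j).val < 2 ^ s * 1 := by omega
      _ ≤ 2 ^ s * 2 ^ p := Nat.mul_le_mul_left _ h1p
  have hψφ : ∀ x ∈ box z s, ψ (φ x) = x := by
    intro x hx
    funext j
    rw [hψ]
    simp only
    rw [hφval x hx j, ZMod.natCast_zmod_val]
    ring
  have hp1 : 1 ≤ p := by
    by_contra hcon
    have h0 : p = 0 := by omega
    rw [h0] at hp
    simp at hp
  obtain ⟨mark, exc, hm, he, hcl⟩ := hK k' s (by omega) (fun i y d => F i (ψ y) (δ d))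
    (fun i y y' d hyy => hF i _ _ _ fun j hj => by
      rw [hψ]
      simp only
      rw [hyy j hj])
    (fun i y d => hF1 _ _ _)
  change _ ≤ K * tot ι k' s at hm
  change _ ≤ η1 / P * tot ι k' s at he
  have hinj : Set.InjOn φ (box z s : Set (ι → V k)) := by
    intro x hx y hy hxy
    rw [← hψφ x hx, ← hψφ y hy, hxy]
  have hsum : ∀ g : (ι → V k') → ℝ, (∀ y, 0 ≤ g y) → ∑ x ∈ box z s, g (φ x) ≤ ∑ y, g y := by
    intro g hg
    rw [← Finset.sum_image (f := g) (g := φ) hinj]
    exact Finset.sum_le_sum_of_subset_of_nonneg (Finset.subset_univ _) fun y _ _ => hg y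
  have htot : tot ι k' s = P * (((2 : ℝ) ^ s) ^ Fintype.card ι * 2 ^ s) := by
    unfold tot
    rw [hk', pow_add, mul_pow, hP]
    ring
  refine ⟨fun x w j => mark (φ x) w j, fun x w => exc (φ x) w, ?_, ?_, ?_⟩
  · refine (hsum (fun y => ∑ w ∈ range (2 ^ s), ∑ j ∈ range s, ind (mark y w j))
      (fun y => Finset.sum_nonneg fun w _ => Finset.sum_nonneg fun j _ => ind_nonneg _)).trans ?_
    refine hm.trans (le_of_eq ?_)
    rw [htot]
    ring
  · refine (hsum (fun y => ∑ w ∈ range (2 ^ s), ind (exc y w))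
      (fun y => Finset.sum_nonneg fun w _ => ind_nonneg _)).trans ?_
    refine he.trans (le_of_eq ?_)
    rw [htot]
    field_simp
  · intro x hx w hw hnx l' l hl hls hno
    have h1 := hcl (φ x) w hw hnx l' l hl hls hno
    change |wv (fun d => ∏ i, F i (ψ (φ x)) (δ d)) l (∑ j, φ x j) w -
      wv (fun d => ∏ i, F i (ψ (φ x)) (δ d)) l' (∑ j, φ x j) w| < c1 at h1
    have key : ∀ l, l < s → wv (fun d => ∏ i, F i (ψ (φ x)) (δ d)) l (∑ j, φ x j) w =
        wv (fun d => ∏ i, F i x d) l (t + ∑ j, x j) w := by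
      intro l hl
      rw [hψφ x hx]
      unfold wv
      congr 1
      refine Finset.sum_congr rfl fun n hn => ?_
      have hn' := Finset.mem_range.1 hn
      have hp1 : 2 ^ (l + 1) ≤ 2 ^ s := Nat.pow_le_pow_right (by norm_num) (by omega)
      set W := w % 2 ^ (l + 1) with hW
      have hW' : W < 2 ^ (l + 1) := Nat.mod_lt _ (by positivity)
      set S : ℕ := ∑ j, (x j - z j).val with hS
      have hSle : S ≤ Fintype.card ι * 2 ^ s := by
        rw [hS]
        calc ∑ j, (x j - z j).val ≤ ∑ _j : ι, 2 ^ s :=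
              Finset.sum_le_sum fun j _ => ((mem_box z s x).1 hx j).le
          _ = Fintype.card ι * 2 ^ s := by rw [Finset.sum_const, Finset.card_univ, smul_eq_mul]
      have hval : ((∑ j, φ x j + ((W : ℕ) : V k') - (n : V k')) + ((2 ^ s : ℕ) : V k')).val =
          S + W + (2 ^ s - n) := by
        have e1 : (∑ j, φ x j + ((W : ℕ) : V k') - (n : V k')) + ((2 ^ s : ℕ) : V k') =
            ((S + W + (2 ^ s - n) : ℕ) : V k') := by
          rw [Nat.cast_add, Nat.cast_add, Nat.cast_sub (by omega), hS, Nat.cast_sum]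
          ring
        rw [e1, ZMod.val_natCast_of_lt]
        rw [hpow]
        calc S + W + (2 ^ s - n) < Fintype.card ι * 2 ^ s + 2 ^ s + 2 ^ s + 2 ^ s := by omega
          _ = 2 ^ s * (Fintype.card ι + 3) := by ring
          _ ≤ 2 ^ s * 2 ^ p := Nat.mul_le_mul_left _ hp
      have hδe : δ (∑ j, φ x j + ((W : ℕ) : V k') - (n : V k')) =
          t + ∑ j, x j + ((W : ℕ) : V k) - (n : V k) := by
        rw [hδ]
        simp only
        rw [hval]
        have e2 : (((S + W + (2 ^ s - n) : ℕ) : ℤ) - 2 ^ s : ℤ) = (S : ℤ) + W - n := by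
          rw [Nat.cast_add, Nat.cast_add, Nat.cast_sub (by omega)]
          push_cast
          ring
        rw [e2]
        have e3 : (((S : ℤ) + W - n : ℤ) : V k) = (∑ j, (x j - z j)) + (W : V k) - (n : V k) := by
          rw [hS]
          push_cast
          simp only [ZMod.natCast_val, ZMod.cast_id', id_eq]
        rw [e3, Finset.sum_sub_distrib]
        ring
      show ∏ i, F i x (δ (∑ j, φ x j + ((W : ℕ) : V k') - (n : V k'))) = _
      rw [hδe]
    rw [key l hls, key l' (by omega)] at h1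
    exact h1

end

end Pool.Agent.GM.L0
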