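/-
GM (MP_4d8f14_an), section 6 for every number of vertices (helper66), module L0Cnt.
COUNTING at a face node: small cells of all vertices but `i`, a rounded node of exponent `s`; the vertex `i` is exact.
-/
import Mathlib
import Pool.Agent.M3.Bin.Flr
import Pool.Agent.GM.L0Loc

set_option autoImplicit false
set_option linter.unusedSectionVars false

open Finset Pool.Agent.PWZ

namespace Pool.Agent.GM.L0

open Pool.Agent.M3.Bin

noncomputable section

variable {k : ℕ} {ι : Type} [Fintype ι] [DecidableEq ι]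

/-- the other vertices -/
abbrev Ot (i : ι) := {j : ι // j ≠ i}

/-- restriction to the other vertices -/
def rs (i : ι) (x : ι → V k) : Ot i → V k := fun j => x j.1

/-- the face node of the face `i` -/
def fk (h s : ℕ) (i : ι) (x : ι → V k) (w : ℕ) : (Ot i → V k) × (V k × ℕ) :=
  (fun j => flr (s - (h + 3)) (x j.1), G h s (∑ j, x j) w)

/-- all vertices from the vertex `i` and the others -/
def jn (i : ι) (c : V k) (y : Ot i → V k) : ι → V k := (Equiv.funSplitAt i (V k)).symm (c, y)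

theorem jn_self (i : ι) (c : V k) (y : Ot i → V k) : jn i c y i = c := by
  unfold jn
  simp [Equiv.funSplitAt, Equiv.piSplitAt]

theorem jn_ne (i : ι) (c : V k) (y : Ot i → V k) (j : Ot i) : jn i c y j.1 = y j := by
  unfold jn
  have := j.2
  simp [Equiv.funSplitAt, Equiv.piSplitAt, this]

theorem jn_rs (i : ι) (x : ι → V k) : jn i (x i) (rs i x) = x := by
  funext j
  by_cases hj : j = i
  · subst hj
    exact jn_self _ _ _
  · exact jn_ne i _ _ ⟨j, hj⟩

theorem sum_split (i : ι) (x : ι → V k) : ∑ j, x j = x i + ∑ j, rs i x j :=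
  Fintype.sum_eq_add_sum_subtype_ne x i

/-- the sample points at a face node -/
def fib (N h s : ℕ) (i : ι) (κ : (Ot i → V k) × (V k × ℕ)) : Finset ((ι → V k) × ℕ) :=
  ((univ : Finset (ι → V k)) ×ˢ range (2 ^ N)).filter fun q => fk h s i q.1 q.2 = κ

theorem mem_fib (N h s : ℕ) (i : ι) (κ : (Ot i → V k) × (V k × ℕ)) (q : (ι → V k) × ℕ) :
    q ∈ fib N h s i κ ↔ q.2 < 2 ^ N ∧ fk h s i q.1 q.2 = κ := by
  unfold fib
  rw [Finset.mem_filter, Finset.mem_product, Finset.mem_range]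
  simp

/-- lower bound for the number of sample points at a face node -/
theorem card_fib_ge {N h s : ℕ} (hs : s ≤ N) (hNk : N ≤ k) (i : ι) (x0 : ι → V k) (w0 : ℕ)
    (hw0 : w0 < 2 ^ N) :
    (2 ^ (s - (h + 3))) ^ Fintype.card (Ot i) * (2 ^ (s - h) * 2 ^ s) ≤
      (fib N h s i (fk h s i x0 w0)).card := by
  set j := s - (h + 3) with hj
  set y0 := pos s (∑ l, x0 l) w0 with hy0
  set A : Finset (Ot i → V k) := Fintype.piFinset fun l =>
    univ.filter fun a : V k => flr j a = flr j (x0 l.1) with hA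
  set Y := univ.filter fun y : V k => flr (s - h) y = flr (s - h) y0 with hY
  have cA : A.card = (2 ^ j) ^ Fintype.card (Ot i) := by
    rw [hA, Fintype.card_piFinset]
    rw [Finset.prod_congr rfl fun l _ => card_cell (show j ≤ k by omega) (x0 l.1)]
    rw [Finset.prod_const, Finset.card_univ]
  have cY : Y.card = 2 ^ (s - h) := card_cell (by omega) y0
  have hcard : (A ×ˢ Y ×ˢ range (2 ^ s)).card = (2 ^ j) ^ Fintype.card (Ot i) * (2 ^ (s - h) * 2 ^ s) := by
    rw [Finset.card_product, Finset.card_product, cA, cY, Finset.card_range]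
  rw [← hcard]
  have hps : 0 < 2 ^ s := by positivity
  have hdiv : ∀ r < 2 ^ s, (w0 / 2 ^ s * 2 ^ s + r) / 2 ^ s = w0 / 2 ^ s := by
    intro r hr
    rw [Nat.mul_comm, Nat.mul_add_div hps, Nat.div_eq_of_lt hr, Nat.add_zero]
  have hmod : ∀ r < 2 ^ s, (w0 / 2 ^ s * 2 ^ s + r) % 2 ^ s = r := by
    intro r hr
    rw [Nat.mul_comm, Nat.mul_add_mod, Nat.mod_eq_of_lt hr]
  have hsumjn : ∀ (c : V k) (y : Ot i → V k), ∑ l, jn i c y l = c + ∑ l, y l := by
    intro c y
    rw [sum_split i, jn_self]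
    congr 1
    refine Finset.sum_congr rfl fun l _ => ?_
    exact jn_ne i c y l
  refine Finset.card_le_card_of_injOn (fun t : (Ot i → V k) × V k × ℕ =>
    ((jn i (t.2.1 - (t.2.2 : V k) - ∑ l, t.1 l) t.1, w0 / 2 ^ s * 2 ^ s + t.2.2) : (ι → V k) × ℕ)) ?_ ?_
  · rintro ⟨a, y, r⟩ ht
    simp only [Finset.coe_product, Set.mem_prod, Finset.mem_coe, Finset.mem_range] at ht
    obtain ⟨ha, hy, hr⟩ := ht
    rw [hA, Fintype.mem_piFinset] at ha
    rw [hY, Finset.mem_filter] at hy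
    rw [Finset.mem_coe, mem_fib]
    constructor
    · have h1 : w0 / 2 ^ s < 2 ^ (N - s) := by
        rw [Nat.div_lt_iff_lt_mul hps, ← pow_add, Nat.sub_add_cancel hs]
        exact hw0
      calc w0 / 2 ^ s * 2 ^ s + r < w0 / 2 ^ s * 2 ^ s + 2 ^ s := by omega
        _ = (w0 / 2 ^ s + 1) * 2 ^ s := by ring
        _ ≤ 2 ^ (N - s) * 2 ^ s := Nat.mul_le_mul_right _ h1
        _ = 2 ^ N := by rw [← pow_add, Nat.sub_add_cancel hs]
    · unfold fk
      simp only
      rw [hsumjn]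
      refine Prod.ext ?_ ?_
      · funext l
        show flr (s - (h + 3)) (jn i _ a l.1) = flr (s - (h + 3)) (x0 l.1)
        rw [jn_ne]
        exact (Finset.mem_filter.1 (ha l)).2
      · unfold G gam
        refine Prod.ext ?_ ?_
        · show flr (s - h) (pos s (y - (r : V k) - ∑ l, a l + ∑ l, a l) (w0 / 2 ^ s * 2 ^ s + r)) = _
          unfold M3.Bin.pos
          rw [hmod r hr]
          have e : y - (r : V k) - ∑ l, a l + ∑ l, a l + (r : V k) = y := by ring
          rw [e, hy.2, hy0]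
          rfl
        · exact hdiv r hr
  · rintro ⟨a, y, r⟩ ht ⟨a', y', r'⟩ ht' heq
    simp only [Finset.coe_product, Set.mem_prod, Finset.mem_coe, Finset.mem_range] at ht ht'
    simp only [Prod.mk.injEq] at heq
    obtain ⟨h1, h4⟩ := heq
    have h5 : r = r' := by omega
    subst h5
    have h6 : a = a' := by
      funext l
      have := congrFun h1 l.1
      rwa [jn_ne, jn_ne] at this
    subst h6
    have h7 := congrFun h1 i
    rw [jn_self, jn_self] at h7
    have h8 : y = y' := by linear_combination h7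
    rw [h8]

/-- the constant of the counting -/
def Cf (h m : ℕ) : ℝ := (m + 2) * ((2 : ℝ) ^ (h + 3)) ^ m * 2 ^ h

theorem Cf_pos (h m : ℕ) : 0 < Cf h m := by unfold Cf; positivity

/-- COUNTING at a face node: a function of the exact vertex, the others and the noise below `s`, with a bounded sum
over the box of side `2^s` -/
theorem fib_sum_le {N h s : ℕ} (hs : s ≤ N) (hNk : N ≤ k) (i : ι) (x0 : ι → V k) (w0 : ℕ)
    (hw0 : w0 < 2 ^ N) (f : V k → (Ot i → V k) → ℕ → ℝ) (hf0 : ∀ c y r, 0 ≤ f c y r) {B : ℝ} (hB : 0 ≤ B)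
    (hf : ∀ c, ∑ y ∈ box (fk h s i x0 w0).1 s, ∑ r ∈ range (2 ^ s), f c y r ≤
      B * (((2 : ℝ) ^ s) ^ Fintype.card (Ot i) * 2 ^ s)) :
    ∑ q ∈ fib N h s i (fk h s i x0 w0), f (q.1 i) (rs i q.1) (q.2 % 2 ^ s) ≤
      Cf h (Fintype.card (Ot i)) * B * ((fib N h s i (fk h s i x0 w0)).card : ℝ) := by
  classical
  set j := s - (h + 3) with hj
  set m := Fintype.card (Ot i) with hm
  set g0 := G h s (∑ l, x0 l) w0 with hg0
  set z : Ot i → V k := (fk h s i x0 w0).1 with hz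
  have hzl : ∀ l, z l = flr j (x0 l.1) := fun l => rfl
  set Cs := (Finset.Ioo (-(((m : ℤ) + 1) * 2 ^ s)) (2 ^ s)).image
    (fun t : ℤ => g0.1 - ∑ l, z l + (t : V k)) with hCs
  have hCcard : (Cs.card : ℝ) ≤ (m + 2) * 2 ^ s := by
    have h1 : Cs.card ≤ (m + 2) * 2 ^ s := by
      refine Finset.card_image_le.trans ?_
      rw [Int.card_Ioo]
      have h2 : ((2 : ℤ) ^ s - -(((m : ℤ) + 1) * 2 ^ s) - 1) ≤ (((m + 2) * 2 ^ s : ℕ) : ℤ) := by
        push_cast
        linarith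
      omega
    exact_mod_cast h1
  have hp2 : (2 : ℕ) ^ j ≤ 2 ^ s := Nat.pow_le_pow_right (by norm_num) (by omega)
  have hp1 : (2 : ℕ) ^ (s - h) ≤ 2 ^ s := Nat.pow_le_pow_right (by norm_num) (by omega)
  have hp3 : (2 : ℕ) ^ s ≤ 2 ^ k := Nat.pow_le_pow_right (by norm_num) (by omega)
  -- the fibre is in the product
  have hmem : ∀ q ∈ fib N h s i (fk h s i x0 w0), q.1 i ∈ Cs ∧ rs i q.1 ∈ box z s ∧ q.2 / 2 ^ s = g0.2 := by
    intro q hq
    rw [mem_fib] at hq
    obtain ⟨hqw, hqk⟩ := hq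
    have k1 : ∀ l : Ot i, flr j (q.1 l.1) = z l := fun l => congrFun (congrArg Prod.fst hqk) l
    have k2 : G h s (∑ l, q.1 l) q.2 = g0 := congrArg Prod.snd hqk
    have hrem : ∀ l : Ot i, (q.1 l.1 - z l).val < 2 ^ j := by
      intro l
      obtain ⟨r, hr, e⟩ := flr_add_rem j (q.1 l.1)
      have e1 : q.1 l.1 - z l = (r : V k) := by
        rw [← k1 l]
        linear_combination e
      rw [e1, ZMod.val_natCast_of_lt (by omega)]
      exact hr
    refine ⟨?_, ?_, ?_⟩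
    · obtain ⟨r1, hr1, e1⟩ := flr_add_rem (s - h) (M3.Bin.pos s (∑ l, q.1 l) q.2)
      have e1' : flr (s - h) (M3.Bin.pos s (∑ l, q.1 l) q.2) = g0.1 := congrArg Prod.fst k2
      rw [e1'] at e1
      unfold M3.Bin.pos at e1
      have hR := Nat.mod_lt q.2 (show 0 < 2 ^ s by positivity)
      generalize q.2 % 2 ^ s = R at e1 hR
      rw [sum_split i] at e1
      set S : ℕ := ∑ l : Ot i, (q.1 l.1 - z l).val with hS
      have hSle : S ≤ m * 2 ^ s := by
        rw [hS]
        calc ∑ l : Ot i, (q.1 l.1 - z l).val ≤ ∑ _l : Ot i, 2 ^ s :=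
              Finset.sum_le_sum fun l _ => (hrem l).le.trans hp2
          _ = m * 2 ^ s := by rw [Finset.sum_const, Finset.card_univ, smul_eq_mul]
      rw [hCs, Finset.mem_image]
      refine ⟨(r1 : ℤ) - (R : ℤ) - S, ?_, ?_⟩
      · rw [Finset.mem_Ioo]
        have q1 : (r1 : ℤ) < 2 ^ s := by exact_mod_cast lt_of_lt_of_le hr1 hp1
        have q3 : (S : ℤ) ≤ m * 2 ^ s := by exact_mod_cast hSle
        have q4 : (R : ℤ) < 2 ^ s := by exact_mod_cast hR
        have n1 := Int.natCast_nonneg r1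
        have n3 := Int.natCast_nonneg S
        have n4 := Int.natCast_nonneg R
        constructor
        · have : -(((m : ℤ) + 1) * 2 ^ s) = -(m * 2 ^ s) - 2 ^ s := by ring
          rw [this]
          linarith
        · linarith
      · have e3 : ((S : ℕ) : V k) = ∑ l, rs i q.1 l - ∑ l, z l := by
          rw [hS, Nat.cast_sum, ← Finset.sum_sub_distrib]
          refine Finset.sum_congr rfl fun l _ => ?_
          rw [ZMod.natCast_zmod_val]
          rfl
        push_cast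
        rw [e3]
        linear_combination -e1
    · rw [mem_box]
      intro l
      exact (hrem l).trans_le hp2
    · exact congrArg Prod.snd k2
  -- injectivity
  have hinj : Set.InjOn (fun q : (ι → V k) × ℕ => (q.1 i, rs i q.1, q.2 % 2 ^ s))
      (fib N h s i (fk h s i x0 w0) : Set ((ι → V k) × ℕ)) := by
    intro q hq q' hq' hqq
    simp only [Prod.mk.injEq] at hqq
    obtain ⟨h1, h2, h3⟩ := hqq
    have h4 : q.1 = q'.1 := by rw [← jn_rs i q.1, ← jn_rs i q'.1, h1, h2]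
    have h5 : q.2 = q'.2 := by
      rw [← Nat.div_add_mod q.2 (2 ^ s), ← Nat.div_add_mod q'.2 (2 ^ s), (hmem q hq).2.2,
        (hmem q' hq').2.2, h3]
    exact Prod.ext h4 h5
  have hL : ∑ q ∈ fib N h s i (fk h s i x0 w0), f (q.1 i) (rs i q.1) (q.2 % 2 ^ s) ≤
      ∑ c ∈ Cs, ∑ y ∈ box z s, ∑ r ∈ range (2 ^ s), f c y r := by
    have e1 : ∑ q ∈ fib N h s i (fk h s i x0 w0), f (q.1 i) (rs i q.1) (q.2 % 2 ^ s) =
        ∑ t ∈ (fib N h s i (fk h s i x0 w0)).image
          (fun q : (ι → V k) × ℕ => (q.1 i, rs i q.1, q.2 % 2 ^ s)), f t.1 t.2.1 t.2.2 := by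
      rw [Finset.sum_image hinj]
    have e2 : ∑ c ∈ Cs, ∑ y ∈ box z s, ∑ r ∈ range (2 ^ s), f c y r =
        ∑ t ∈ Cs ×ˢ box z s ×ˢ range (2 ^ s), f t.1 t.2.1 t.2.2 := by
      rw [Finset.sum_product]
      refine Finset.sum_congr rfl fun c _ => ?_
      rw [Finset.sum_product]
    rw [e1, e2]
    refine Finset.sum_le_sum_of_subset_of_nonneg ?_ fun t _ _ => hf0 _ _ _
    intro t ht
    obtain ⟨q, hq, rfl⟩ := Finset.mem_image.1 ht
    obtain ⟨m1, m2, _⟩ := hmem q hq
    exact Finset.mem_product.2 ⟨m1, Finset.mem_product.2 ⟨m2,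
      Finset.mem_range.2 (Nat.mod_lt _ (by positivity))⟩⟩
  refine hL.trans ((Finset.sum_le_sum fun c _ => hf c).trans ?_)
  rw [Finset.sum_const, nsmul_eq_mul]
  have hfib := card_fib_ge (h := h) hs hNk i x0 w0 hw0
  have hfib' : (((2 : ℝ) ^ j) ^ m * (2 ^ (s - h) * 2 ^ s)) ≤ ((fib N h s i (fk h s i x0 w0)).card : ℝ) := by
    exact_mod_cast hfib
  have h4 : (2 : ℝ) ^ s ≤ 2 ^ (h + 3) * 2 ^ j := by
    rw [← pow_add]
    exact pow_le_pow_right₀ (by norm_num) (by omega)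
  have h5 : (2 : ℝ) ^ s ≤ 2 ^ h * 2 ^ (s - h) := by
    rw [← pow_add]
    exact pow_le_pow_right₀ (by norm_num) (by omega)
  have h6 : ((2 : ℝ) ^ s) ^ m ≤ (2 ^ (h + 3) * 2 ^ j) ^ m := pow_le_pow_left₀ (by positivity) h4 m
  have hB' : 0 ≤ B * (((2 : ℝ) ^ s) ^ m * 2 ^ s) := by positivity
  calc (Cs.card : ℝ) * (B * (((2 : ℝ) ^ s) ^ m * 2 ^ s))
      ≤ ((m + 2) * 2 ^ s) * (B * (((2 : ℝ) ^ s) ^ m * 2 ^ s)) := mul_le_mul_of_nonneg_right hCcard hB'
    _ = (m + 2) * B * (((2 : ℝ) ^ s) ^ m * 2 ^ s * 2 ^ s) := by ring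
    _ ≤ (m + 2) * B * ((2 ^ (h + 3) * 2 ^ j) ^ m * (2 ^ h * 2 ^ (s - h)) * 2 ^ s) := by
        have := mul_le_mul (mul_le_mul h6 h5 (by positivity) (by positivity)) (le_refl ((2 : ℝ) ^ s))
          (by positivity) (by positivity)
        exact mul_le_mul_of_nonneg_left this (by positivity)
    _ = Cf h m * B * (((2 : ℝ) ^ j) ^ m * (2 ^ (s - h) * 2 ^ s)) := by
        unfold Cf
        rw [mul_pow]
        ring
    _ ≤ Cf h m * B * ((fib N h s i (fk h s i x0 w0)).card : ℝ) :=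
        mul_le_mul_of_nonneg_left hfib' (by have := Cf_pos h m; positivity)

/-- COUNTING at one exponent: `P` = condition at the face node, `f κ` = function of the exact vertex, the others and
the noise below `s` -/
theorem count_fk {N h s : ℕ} (hs : s ≤ N) (hNk : N ≤ k) (i : ι) (P : (Ot i → V k) × (V k × ℕ) → Prop)
    (f : (Ot i → V k) × (V k × ℕ) → V k → (Ot i → V k) → ℕ → ℝ) (hf0 : ∀ κ c y r, 0 ≤ f κ c y r)
    {B : ℝ} (hB : 0 ≤ B)
    (hf : ∀ κ c, ∑ y ∈ box κ.1 s, ∑ r ∈ range (2 ^ s), f κ c y r ≤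
      B * (((2 : ℝ) ^ s) ^ Fintype.card (Ot i) * 2 ^ s)) :
    ∑ x : ι → V k, ∑ w ∈ range (2 ^ N), ind (P (fk h s i x w)) *
      f (fk h s i x w) (x i) (rs i x) (w % 2 ^ s) ≤
      Cf h (Fintype.card (Ot i)) * B * ∑ x : ι → V k, ∑ w ∈ range (2 ^ N), ind (P (fk h s i x w)) := by
  classical
  have hprod : ∀ g : (ι → V k) → ℕ → ℝ, ∑ x : ι → V k, ∑ w ∈ range (2 ^ N), g x w =
      ∑ q ∈ (univ : Finset (ι → V k)) ×ˢ range (2 ^ N), g q.1 q.2 := by
    intro g
    rw [Finset.sum_product]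
  rw [hprod, hprod]
  set pts := (univ : Finset (ι → V k)) ×ˢ range (2 ^ N) with hpts
  set KS := pts.image (fun q => fk h s i q.1 q.2) with hKS
  have hmaps : ∀ q ∈ pts, fk h s i q.1 q.2 ∈ KS := fun q hq => Finset.mem_image_of_mem _ hq
  rw [← Finset.sum_fiberwise_of_maps_to hmaps, ← Finset.sum_fiberwise_of_maps_to hmaps
    (fun q => ind (P (fk h s i q.1 q.2))), Finset.mul_sum]
  refine Finset.sum_le_sum fun κ hκ => ?_
  obtain ⟨q0, hq0, rfl⟩ := Finset.mem_image.1 hκ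
  have hw0 : q0.2 < 2 ^ N := by
    rw [hpts, Finset.mem_product, Finset.mem_range] at hq0
    exact hq0.2
  have hfib : pts.filter (fun q => fk h s i q.1 q.2 = fk h s i q0.1 q0.2) =
      fib N h s i (fk h s i q0.1 q0.2) := rfl
  rw [hfib]
  have e1 : ∑ q ∈ fib N h s i (fk h s i q0.1 q0.2), ind (P (fk h s i q.1 q.2)) *
      f (fk h s i q.1 q.2) (q.1 i) (rs i q.1) (q.2 % 2 ^ s) =
      ind (P (fk h s i q0.1 q0.2)) * ∑ q ∈ fib N h s i (fk h s i q0.1 q0.2),
        f (fk h s i q0.1 q0.2) (q.1 i) (rs i q.1) (q.2 % 2 ^ s) := by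
    rw [Finset.mul_sum]
    refine Finset.sum_congr rfl fun q hq => ?_
    rw [mem_fib] at hq
    rw [hq.2]
  have e2 : ∑ q ∈ fib N h s i (fk h s i q0.1 q0.2), ind (P (fk h s i q.1 q.2)) =
      ind (P (fk h s i q0.1 q0.2)) * ((fib N h s i (fk h s i q0.1 q0.2)).card : ℝ) := by
    rw [Finset.sum_congr rfl (g := fun _ => ind (P (fk h s i q0.1 q0.2))) (fun q hq => by
      rw [mem_fib] at hq
      rw [hq.2]), Finset.sum_const, nsmul_eq_mul, mul_comm]
  rw [e1, e2]
  have h1 := fib_sum_le (h := h) hs hNk i q0.1 q0.2 hw0 (f (fk h s i q0.1 q0.2)) (hf0 _) hB (hf _)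
  calc _ ≤ ind (P (fk h s i q0.1 q0.2)) * (Cf h (Fintype.card (Ot i)) * B *
        ((fib N h s i (fk h s i q0.1 q0.2)).card : ℝ)) :=
        mul_le_mul_of_nonneg_left h1 (ind_nonneg _)
    _ = _ := by ring

end

end Pool.Agent.GM.L0
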