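/-
GM (MP_4d8f14_an), section 6 for every number of vertices (helper66), module L0Form.
LAYER 0: the structured functions of a fixed layer are combinations of products of static signs, indexed by the
subsets of lists of public births; expansion of the product of the residuals into forms; a form in which the face `i`
is structured is, for an exact vertex `i`, a product of functions of the faces of the other vertices.
-/
import Mathlib
import Pool.Agent.GM.L0Cnt

set_option autoImplicit false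
set_option linter.unusedSectionVars false

open Finset Pool.Agent.PWZ

namespace Pool.Agent.GM.L0

open Pool.Agent.M3.Bin

noncomputable section

variable {k N h : ℕ} {ι T : Type} [Fintype ι] [DecidableEq ι]

/-- the structured functions of a fixed layer: lists of births `L`, public births `Pub`, signs `A i τ v` (missing the
vertices `i` and `v`), universal coefficients `cf` -/
structure PSG (k N h : ℕ) (ι T : Type) [Fintype ι] [DecidableEq ι] where
  A : ι → T → ι → (ι → V k) → V k → ℝ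
  L : ι → ℕ → (ι → V k) → ℕ → Finset T
  Pub : ι → ℕ → (ι → V k) → ℕ → Finset T
  cf : ι → ℕ → (ι → V k) → ℕ → Finset T → ℝ
  A_le : ∀ i τ v x d, |A i τ v x d| ≤ 1
  A_dep : ∀ i τ v x y d, (∀ j, j ≠ i → j ≠ v → x j = y j) → A i τ v x d = A i τ v y d
  cf_le : ∀ i e x w I, |cf i e x w I| ≤ 1
  sub : ∀ i e x w, L i e x w ⊆ Pub i e x w
  cumL : ∀ i e x w, e < N → L i (e + 1) x w ⊆ L i e x w
  cumP : ∀ i e x w, e < N → Pub i (e + 1) x w ⊆ Pub i e x w
  node : ∀ i e x x' w w', e ≤ N → fk h e i x w = fk h e i x' w' → Pub i e x w = Pub i e x' w'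
  stat : ∀ i e x w, e < N → L i (e + 1) x w = L i e x w → cf i (e + 1) x w = cf i e x w

/-- the structured function -/
def PSG.S (D : PSG k N h ι T) (i : ι) (e : ℕ) (x : ι → V k) (w : ℕ) (d : V k) : ℝ :=
  ∑ I ∈ (D.L i e x w).powerset, D.cf i e x w I * ∏ τ ∈ I, ∏ v ∈ univ.erase i, D.A i τ v x d

/-- factor of a form -/
def PSG.val (D : PSG k N h ι T) (F : ι → (ι → V k) → V k → ℝ) (i : ι) :
    Option (Finset T) → (ι → V k) → V k → ℝ
  | none, x, d => F i x d
  | some I, x, d => ∏ τ ∈ I, ∏ v ∈ univ.erase i, D.A i τ v x d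

/-- the function of a form -/
def PSG.fm (D : PSG k N h ι T) (F : ι → (ι → V k) → V k → ℝ) (o : ι → Option (Finset T))
    (x : ι → V k) (d : V k) : ℝ :=
  ∏ i, D.val F i (o i) x d

/-- coefficient of a factor -/
def PSG.cc (D : PSG k N h ι T) (i : ι) (e : ℕ) (x : ι → V k) (w : ℕ) : Option (Finset T) → ℝ
  | none => 1
  | some I => - D.cf i e x w I

theorem abs_prod_le_one {α : Type} (s : Finset α) (f : α → ℝ) (hf : ∀ τ ∈ s, |f τ| ≤ 1) :
    |∏ τ ∈ s, f τ| ≤ 1 := by
  rw [Finset.abs_prod]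
  exact Finset.prod_le_one (fun _ _ => abs_nonneg _) hf

theorem PSG.val_le (D : PSG k N h ι T) {F : ι → (ι → V k) → V k → ℝ}
    (hF : ∀ i x d, |F i x d| ≤ 1) (i : ι) (o : Option (Finset T)) (x : ι → V k) (d : V k) :
    |D.val F i o x d| ≤ 1 := by
  cases o with
  | none => exact hF i x d
  | some I =>
    exact abs_prod_le_one _ _ fun τ _ => abs_prod_le_one _ _ fun v _ => D.A_le i τ v x d

theorem PSG.val_face (D : PSG k N h ι T) {F : ι → (ι → V k) → V k → ℝ} (hF : FaceI F) (i : ι)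
    (o : Option (Finset T)) (x y : ι → V k) (d : V k) (hxy : ∀ j, j ≠ i → x j = y j) :
    D.val F i o x d = D.val F i o y d := by
  cases o with
  | none => exact hF i x y d hxy
  | some I =>
    refine Finset.prod_congr rfl fun τ _ => Finset.prod_congr rfl fun v _ => ?_
    exact D.A_dep i τ v x y d fun j hj _ => hxy j hj

theorem PSG.cc_le (D : PSG k N h ι T) (i : ι) (e : ℕ) (x : ι → V k) (w : ℕ)
    (o : Option (Finset T)) : |D.cc i e x w o| ≤ 1 := by
  cases o with
  | none => show |(1 : ℝ)| ≤ 1; simp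
  | some I => show |-D.cf i e x w I| ≤ 1; rw [abs_neg]; exact D.cf_le i e x w I

/-- the forms of the current lists -/
def PSG.FL (D : PSG k N h ι T) (e : ℕ) (x : ι → V k) (w : ℕ) : Finset (ι → Option (Finset T)) :=
  Fintype.piFinset fun i => Finset.insertNone (D.L i e x w).powerset

/-- the forms of the public births -/
def PSG.FP (D : PSG k N h ι T) (e : ℕ) (x : ι → V k) (w : ℕ) : Finset (ι → Option (Finset T)) :=
  Fintype.piFinset fun i => Finset.insertNone (D.Pub i e x w).powerset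

/-- EXPANSION of the product of the residuals -/
theorem PSG.expand (D : PSG k N h ι T) (F : ι → (ι → V k) → V k → ℝ) (e : ℕ) (x : ι → V k)
    (w : ℕ) (d : V k) :
    ∏ i, (F i x d - D.S i e x w d) =
      ∑ o ∈ D.FL e x w, (∏ i, D.cc i e x w (o i)) * D.fm F o x d := by
  have h1 : ∀ i, F i x d - D.S i e x w d =
      ∑ o ∈ Finset.insertNone (D.L i e x w).powerset,
        D.cc i e x w o * D.val F i o x d := by
    intro i
    rw [Finset.sum_insertNone]
    have e1 : D.cc i e x w none * D.val F i none x d = F i x d := by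
      show 1 * F i x d = _
      rw [one_mul]
    rw [e1, sub_eq_add_neg]
    congr 1
    unfold PSG.S
    rw [← Finset.sum_neg_distrib]
    refine Finset.sum_congr rfl fun I _ => ?_
    show _ = -D.cf i e x w I * ∏ τ ∈ I, ∏ v ∈ univ.erase i, D.A i τ v x d
    ring
  rw [Finset.prod_congr rfl fun i _ => h1 i, Finset.prod_univ_sum]
  refine Finset.sum_congr rfl fun o _ => ?_
  rw [Finset.prod_mul_distrib]
  rfl

/-! ### forms -/

open Classical in
/-- the forms which are completed at the exponent `s` -/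
def PSG.New (D : PSG k N h ι T) (s : ℕ) (x : ι → V k) (w : ℕ) : Finset (ι → Option (Finset T)) :=
  (D.FP s x w).filter fun o => o ≠ (fun _ => none) ∧ (s = N ∨ o ∉ D.FP (s + 1) x w)

theorem PSG.mem_FL (D : PSG k N h ι T) {e : ℕ} {x : ι → V k} {w : ℕ} {o : ι → Option (Finset T)} :
    o ∈ D.FL e x w ↔ ∀ i, ∀ I, o i = some I → I ⊆ D.L i e x w := by
  unfold PSG.FL
  rw [Fintype.mem_piFinset]
  refine forall_congr' fun i => ?_
  rw [Finset.mem_insertNone]
  constructor
  · intro h1 I hI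
    exact Finset.mem_powerset.1 (h1 I (by rw [hI]; rfl))
  · intro h1 I hI
    exact Finset.mem_powerset.2 (h1 I (Option.mem_def.1 hI))

theorem PSG.mem_FP (D : PSG k N h ι T) {e : ℕ} {x : ι → V k} {w : ℕ} {o : ι → Option (Finset T)} :
    o ∈ D.FP e x w ↔ ∀ i, ∀ I, o i = some I → I ⊆ D.Pub i e x w := by
  unfold PSG.FP
  rw [Fintype.mem_piFinset]
  refine forall_congr' fun i => ?_
  rw [Finset.mem_insertNone]
  constructor
  · intro h1 I hI
    exact Finset.mem_powerset.1 (h1 I (by rw [hI]; rfl))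
  · intro h1 I hI
    exact Finset.mem_powerset.2 (h1 I (Option.mem_def.1 hI))

theorem PSG.FL_sub (D : PSG k N h ι T) (e : ℕ) (x : ι → V k) (w : ℕ) : D.FL e x w ⊆ D.FP e x w := by
  intro o ho
  rw [PSG.mem_FL] at ho
  rw [PSG.mem_FP]
  exact fun i I hI => (ho i I hI).trans (D.sub i e x w)

/-- every form of the current lists has been completed -/
theorem PSG.exists_new (D : PSG k N h ι T) (x : ι → V k) (w : ℕ) {o : ι → Option (Finset T)}
    (ho : o ≠ fun _ => none) : ∀ n e : ℕ, e + n = N → o ∈ D.FP e x w →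
      ∃ s, e ≤ s ∧ s ≤ N ∧ o ∈ D.New s x w := by
  classical
  intro n
  induction n with
  | zero =>
    intro e he h1
    refine ⟨e, le_rfl, by omega, ?_⟩
    unfold PSG.New
    rw [Finset.mem_filter]
    exact ⟨h1, ho, Or.inl (by omega)⟩
  | succ n ih =>
    intro e he h1
    by_cases h2 : o ∈ D.FP (e + 1) x w
    · obtain ⟨s, hs1, hs2, hs3⟩ := ih (e + 1) (by omega) h2
      exact ⟨s, by omega, hs2, hs3⟩
    · refine ⟨e, le_rfl, by omega, ?_⟩
      unfold PSG.New
      rw [Finset.mem_filter]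
      exact ⟨h1, ho, Or.inr h2⟩

theorem card_FP_le (D : PSG k N h ι T) (e : ℕ) (x : ι → V k) (w N0 : ℕ)
    (hN0 : ∀ i, (D.Pub i e x w).card ≤ N0) :
    (D.FP e x w).card ≤ (2 ^ N0 + 1) ^ Fintype.card ι := by
  unfold PSG.FP
  rw [Fintype.card_piFinset]
  calc ∏ i, (Finset.insertNone (D.Pub i e x w).powerset).card
      ≤ ∏ _i : ι, (2 ^ N0 + 1) := by
        refine Finset.prod_le_prod' fun i _ => ?_
        rw [Finset.card_insertNone, Finset.card_powerset]
        have := Nat.pow_le_pow_right (show 0 < 2 by norm_num) (hN0 i)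
        omega
    _ = (2 ^ N0 + 1) ^ Fintype.card ι := by rw [Finset.prod_const, Finset.card_univ]

/-- decreasing sets change rarely -/
theorem tele {T : Type} (S : ℕ → Finset T) (n : ℕ) (hS : ∀ e < n, S (e + 1) ⊆ S e) :
    ∑ e ∈ range n, ind (S (e + 1) ≠ S e) + (S n).card ≤ (S 0).card := by
  induction n with
  | zero => simp
  | succ n ih =>
    have h1 := ih fun e he => hS e (by omega)
    rw [Finset.sum_range_succ]
    have h2 : ind (S (n + 1) ≠ S n) + ((S (n + 1)).card : ℝ) ≤ (S n).card := by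
      by_cases h3 : S (n + 1) = S n
      · rw [ind_not (by simpa using h3), zero_add, h3]
      · rw [ind_of h3]
        have h4 : (S (n + 1)).card < (S n).card :=
          Finset.card_lt_card (Finset.ssubset_iff_subset_ne.2 ⟨hS n (by omega), h3⟩)
        have h5 : (S (n + 1)).card + 1 ≤ (S n).card := h4
        have h6 : ((S (n + 1)).card : ℝ) + 1 ≤ (S n).card := by exact_mod_cast h5
        linarith
    linarith

/-! ### averages -/

theorem wv_sum {α : Type*} (s : Finset α) (c : α → ℝ) (f : α → V k → ℝ) (l : ℕ) (z : V k)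
    (w : ℕ) : wv (fun d => ∑ i ∈ s, c i * f i d) l z w = ∑ i ∈ s, c i * wv (f i) l z w := by
  unfold wv
  rw [Finset.sum_comm, Finset.mul_sum]
  refine Finset.sum_congr rfl fun i _ => ?_
  rw [← Finset.mul_sum]
  ring

/-- only the noise below the exponent matters -/
theorem wv_mod (f : V k → ℝ) {l s : ℕ} (hl : l < s) (z : V k) (w : ℕ) :
    wv f l z (w % 2 ^ s) = wv f l z w := by
  unfold wv
  rw [Nat.mod_mod_of_dvd w (pow_dvd_pow 2 (show l + 1 ≤ s from hl))]

/-! ### a form with a structured face -/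

/-- the factor of the other vertex `v` of a form, with the exact vertex `i` -/
def PSG.Gf (D : PSG k N h ι T) (F : ι → (ι → V k) → V k → ℝ) (i : ι) (o : ι → Option (Finset T))
    (c : V k) (v : Ot i) (y : Ot i → V k) (d : V k) : ℝ :=
  (∏ τ ∈ (o i).getD ∅, D.A i τ v.1 (jn i c y) d) * D.val F v.1 (o v.1) (jn i c y) d

theorem jn_congr (i : ι) (c : V k) (y y' : Ot i → V k) (v : ι)
    (hyy : ∀ j : Ot i, j.1 ≠ v → y j = y' j) (j : ι) (hj : j ≠ v) : jn i c y j = jn i c y' j := by
  by_cases hji : j = i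
  · subst hji
    rw [jn_self, jn_self]
  · have h1 := jn_ne i c y ⟨j, hji⟩
    have h2 := jn_ne i c y' ⟨j, hji⟩
    rw [h1, h2]
    exact hyy ⟨j, hji⟩ hj

theorem PSG.Gf_face (D : PSG k N h ι T) {F : ι → (ι → V k) → V k → ℝ} (hF : FaceI F) (i : ι)
    (o : ι → Option (Finset T)) (c : V k) : FaceI (D.Gf F i o c) := by
  intro v y y' d hyy
  have h1 : ∀ j, j ≠ v.1 → jn i c y j = jn i c y' j := fun j hj =>
    jn_congr i c y y' v.1 (fun j' hj' => hyy j' fun hh => hj' (by rw [hh])) j hj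
  unfold PSG.Gf
  rw [D.val_face hF v.1 _ _ _ d h1]
  congr 1
  refine Finset.prod_congr rfl fun τ _ => ?_
  exact D.A_dep i τ v.1 _ _ d fun j _ hj => h1 j hj

theorem PSG.Gf_le (D : PSG k N h ι T) {F : ι → (ι → V k) → V k → ℝ}
    (hF : ∀ i x d, |F i x d| ≤ 1) (i : ι) (o : ι → Option (Finset T)) (c : V k) (v : Ot i)
    (y : Ot i → V k) (d : V k) : |D.Gf F i o c v y d| ≤ 1 := by
  unfold PSG.Gf
  rw [abs_mul]
  exact mul_le_one₀ (abs_prod_le_one _ _ fun τ _ => D.A_le i τ v.1 _ d) (abs_nonneg _)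
    (D.val_le hF _ _ _ _)

/-- a form in which the face `i` is structured -/
theorem PSG.fm_eq (D : PSG k N h ι T) (F : ι → (ι → V k) → V k → ℝ) (i : ι)
    (o : ι → Option (Finset T)) (ho : (o i).isSome) (x : ι → V k) (d : V k) :
    D.fm F o x d = ∏ v : Ot i, D.Gf F i o (x i) v (rs i x) d := by
  obtain ⟨I, hI⟩ := Option.isSome_iff_exists.1 ho
  unfold PSG.fm PSG.Gf
  rw [Fintype.prod_eq_mul_prod_subtype_ne (fun j => D.val F j (o j) x d) i, Finset.prod_mul_distrib,
    jn_rs]
  congr 1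
  rw [hI, Option.getD_some]
  show ∏ τ ∈ I, ∏ v ∈ univ.erase i, D.A i τ v x d = _
  rw [Finset.prod_comm]
  symm
  rw [← Finset.prod_subtype (univ.erase i) (p := fun j => j ≠ i) (fun j => by simp)
    (fun v => ∏ τ ∈ I, D.A i τ v x d)]

/-! ### face nodes -/

theorem fk_up {h s : ℕ} (i : ι) {x x' : ι → V k} {w w' : ℕ}
    (hf : fk h s i x w = fk h s i x' w') : fk h (s + 1) i x w = fk h (s + 1) i x' w' := by
  unfold fk at hf ⊢
  simp only [Prod.mk.injEq] at hf ⊢
  obtain ⟨h1, h2⟩ := hf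
  refine ⟨?_, ?_⟩
  · funext j
    exact flr_mono_eq (by omega) (congrFun h1 j)
  · rw [← par_G, ← par_G, h2]

/-- all faces, if in addition the vertex `i` is the same -/
theorem fk_all {h s : ℕ} (i : ι) {x x' : ι → V k} {w w' : ℕ}
    (hf : fk h s i x w = fk h s i x' w') (hx : x i = x' i) (j : ι) :
    fk h s j x w = fk h s j x' w' := by
  unfold fk at hf ⊢
  simp only [Prod.mk.injEq] at hf ⊢
  obtain ⟨h1, h2⟩ := hf
  refine ⟨?_, h2⟩
  funext l
  by_cases hl : l.1 = i
  · rw [hl, hx]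
  · exact congrFun h1 ⟨l.1, hl⟩

theorem PSG.FP_congr (D : PSG k N h ι T) {s : ℕ} (hs : s ≤ N) (i : ι) {x x' : ι → V k}
    {w w' : ℕ} (hf : fk h s i x w = fk h s i x' w') (hx : x i = x' i) :
    (∀ j, D.Pub j s x w = D.Pub j s x' w') ∧ D.FP s x w = D.FP s x' w' := by
  have h1 : ∀ j, D.Pub j s x w = D.Pub j s x' w' := fun j =>
    D.node j s x x' w w' hs (fk_all i hf hx j)
  refine ⟨h1, ?_⟩
  unfold PSG.FP
  congr 1
  funext j
  rw [h1 j]

theorem rs_mem_box {h s : ℕ} (hs : s ≤ k) (i : ι) (x : ι → V k) (w : ℕ) :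
    rs i x ∈ box (fk h s i x w).1 s := by
  rw [mem_box]
  intro l
  obtain ⟨r, hr, e⟩ := flr_add_rem (s - (h + 3)) (x l.1)
  have e1 : rs i x l - (fk h s i x w).1 l = (r : V k) := by
    show x l.1 - flr (s - (h + 3)) (x l.1) = _
    linear_combination e
  have hp1 : (2 : ℕ) ^ (s - (h + 3)) ≤ 2 ^ s := Nat.pow_le_pow_right (by norm_num) (by omega)
  have hp2 : (2 : ℕ) ^ s ≤ 2 ^ k := Nat.pow_le_pow_right (by norm_num) hs
  rw [e1, ZMod.val_natCast_of_lt (by omega)]
  omega

end

end Pool.Agent.GM.L0
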