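/-
GM (MP_4d8f14_an), section 6 for every number of vertices (helper66), module L0Layer.
THEOREM `layer0G`: the difference of the process with the full functions and the process with the residuals of a fixed
layer has marks, outside an exceptional set; the finite theorem for the other vertices (`BinI {j // j ≠ i}`) is used.
-/
import Mathlib
import Pool.Agent.GM.L0Form

set_option autoImplicit false
set_option linter.unusedSectionVars false

open Finset Pool.Agent.PWZ

namespace Pool.Agent.GM.L0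

open Pool.Agent.M3.Bin

noncomputable section

variable {k N h : ℕ} {ι T : Type} [Fintype ι] [DecidableEq ι]

theorem sum_one (ι : Type) [Fintype ι] [DecidableEq ι] (k N : ℕ) :
    ∑ _x : ι → V k, ∑ _w ∈ range (2 ^ N), (1 : ℝ) = tot ι k N := by
  unfold tot
  simp only [Finset.sum_const, Finset.card_univ, Finset.card_range, nsmul_eq_mul, mul_one,
    Fintype.card_fun, ZMod.card]
  push_cast
  ring

theorem PSG.Pub_anti (D : PSG k N h ι T) (i : ι) (x : ι → V k) (w : ℕ) :
    ∀ e e' : ℕ, e ≤ e' → e' ≤ N → D.Pub i e' x w ⊆ D.Pub i e x w := by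
  intro e e' he he'
  induction e', he using Nat.le_induction with
  | base => exact Finset.Subset.refl _
  | succ e' he ih => exact (D.cumP i e' x w (by omega)).trans (ih (by omega))

open Classical in
/-- the forms at the exponent `s` in which the face `i` is structured, if there are few births -/
def PSG.Zx (D : PSG k N h ι T) (N0 s : ℕ) (i : ι) (x : ι → V k) (w : ℕ) :
    Finset (ι → Option (Finset T)) :=
  if ∀ j, (D.Pub j s x w).card ≤ N0 then (D.FP s x w).filter fun o => (o i).isSome else ∅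

open Classical in
/-- the same as a function of the face node and the exact vertex -/
def PSG.Zk (D : PSG k N h ι T) (N0 s : ℕ) (i : ι) (κ : (Ot i → V k) × (V k × ℕ)) (c : V k) :
    Finset (ι → Option (Finset T)) :=
  if hx : ∃ q : (ι → V k) × ℕ, fk h s i q.1 q.2 = κ ∧ q.1 i = c then
    D.Zx N0 s i (Classical.choose hx).1 (Classical.choose hx).2 else ∅

theorem PSG.Zk_eq (D : PSG k N h ι T) (N0 : ℕ) {s : ℕ} (hs : s ≤ N) (i : ι) (x : ι → V k)
    (w : ℕ) : D.Zk N0 s i (fk h s i x w) (x i) = D.Zx N0 s i x w := by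
  classical
  have hx : ∃ q : (ι → V k) × ℕ, fk h s i q.1 q.2 = fk h s i x w ∧ q.1 i = x i :=
    ⟨(x, w), rfl, rfl⟩
  unfold PSG.Zk
  rw [dif_pos hx]
  obtain ⟨h1, h2⟩ := Classical.choose_spec hx
  obtain ⟨h3, h4⟩ := D.FP_congr hs i h1 h2
  unfold PSG.Zx
  rw [h4]
  simp only [h3]

theorem PSG.Zk_card (D : PSG k N h ι T) (N0 s : ℕ) (i : ι) (κ : (Ot i → V k) × (V k × ℕ))
    (c : V k) : (D.Zk N0 s i κ c).card ≤ (2 ^ N0 + 1) ^ Fintype.card ι := by
  classical
  unfold PSG.Zk
  split_ifs with hx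
  · unfold PSG.Zx
    split_ifs with h1
    · exact (Finset.card_filter_le _ _).trans (card_FP_le D _ _ _ N0 h1)
    · rw [Finset.card_empty]; exact Nat.zero_le _
  · rw [Finset.card_empty]; exact Nat.zero_le _

theorem PSG.Zx_some (D : PSG k N h ι T) {N0 s : ℕ} {i : ι} {x : ι → V k} {w : ℕ}
    {o : ι → Option (Finset T)} (ho : o ∈ D.Zx N0 s i x w) : (o i).isSome := by
  classical
  unfold PSG.Zx at ho
  split_ifs at ho with h2
  · exact (Finset.mem_filter.1 ho).2
  · exact absurd ho (Finset.notMem_empty _)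

/-- new public births of the face `i` at the exponent `s` -/
def PSG.nw (D : PSG k N h ι T) (s : ℕ) (i : ι) (x : ι → V k) (w : ℕ) : Prop :=
  s = N ∨ D.Pub i (s + 1) x w ≠ D.Pub i s x w

def PSG.Pk (D : PSG k N h ι T) (s : ℕ) (i : ι) (κ : (Ot i → V k) × (V k × ℕ)) : Prop :=
  ∃ q : (ι → V k) × ℕ, fk h s i q.1 q.2 = κ ∧ D.nw s i q.1 q.2

theorem PSG.Pk_iff (D : PSG k N h ι T) {s : ℕ} (hs : s ≤ N) (i : ι) (x : ι → V k) (w : ℕ) :
    D.Pk s i (fk h s i x w) ↔ D.nw s i x w := by
  constructor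
  · rintro ⟨⟨x', w'⟩, h1, h2⟩
    simp only at h1 h2
    rcases h2 with h2 | h2
    · exact Or.inl h2
    · by_cases hsN : s = N
      · exact Or.inl hsN
      · right
        rw [← D.node i s x' x w' w hs h1, ← D.node i (s + 1) x' x w' w (by omega) (fk_up i h1)]
        exact h2
  · intro h1
    exact ⟨(x, w), rfl, h1⟩

/-- the completed forms of a sample point with few births -/
theorem PSG.New_sub (D : PSG k N h ι T) (N0 s : ℕ) (x : ι → V k) (w : ℕ)
    (hN0 : ∀ i, (D.Pub i s x w).card ≤ N0)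
    (o : ι → Option (Finset T)) (ho : o ∈ D.New s x w) :
    ∃ i, D.nw s i x w ∧ o ∈ D.Zx N0 s i x w := by
  classical
  unfold PSG.New at ho
  rw [Finset.mem_filter] at ho
  obtain ⟨h1, h2, h3⟩ := ho
  have hZ : ∀ i, (o i).isSome → o ∈ D.Zx N0 s i x w := by
    intro i hi
    unfold PSG.Zx
    rw [if_pos hN0, Finset.mem_filter]
    exact ⟨h1, hi⟩
  by_cases hsN : s = N
  · obtain ⟨i, hi⟩ := Function.ne_iff.1 h2
    exact ⟨i, Or.inl hsN, hZ i (Option.isSome_iff_ne_none.2 hi)⟩
  · have h4 := h3.resolve_left hsN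
    rw [PSG.mem_FP] at h4
    push Not at h4
    obtain ⟨i, I, hI, hn⟩ := h4
    refine ⟨i, Or.inr ?_, hZ i (by rw [hI]; rfl)⟩
    intro he
    apply hn
    rw [he]
    exact (D.mem_FP.1 h1) i I hI

/-- the number of exponents with new births -/
theorem PSG.nw_sum (D : PSG k N h ι T) (i : ι) (x : ι → V k) (w : ℕ) :
    ∑ s ∈ range (N + 1), ind (D.nw s i x w) ≤ 1 + ((D.Pub i 0 x w).card : ℝ) := by
  have h6 := tele (fun e => D.Pub i e x w) N (fun e he => D.cumP i e x w he)
  rw [Finset.sum_range_succ]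
  have h8 : ∑ s ∈ range N, ind (D.nw s i x w) ≤
      ∑ s ∈ range N, ind (D.Pub i (s + 1) x w ≠ D.Pub i s x w) := by
    refine Finset.sum_le_sum fun s hs => ind_mono fun hh => ?_
    rw [Finset.mem_range] at hs
    exact hh.resolve_left (by omega)
  have h9 := ind_le_one (D.nw N i x w)
  have h10 : (0 : ℝ) ≤ ((D.Pub i N x w).card : ℝ) := Nat.cast_nonneg _
  linarith

/-- the total number of new births -/
theorem PSG.nw_total (D : PSG k N h ι T) {β : ℝ}
    (hPub : ∀ i, ∑ x : ι → V k, ∑ w ∈ range (2 ^ N), ((D.Pub i 0 x w).card : ℝ) ≤ β * tot ι k N) :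
    ∑ s ∈ range (N + 1), ∑ i, ∑ x : ι → V k, ∑ w ∈ range (2 ^ N), ind (D.nw s i x w) ≤
      Fintype.card ι * (1 + β) * tot ι k N := by
  have e2 : ∑ s ∈ range (N + 1), ∑ i, ∑ x : ι → V k, ∑ w ∈ range (2 ^ N),
      ind (D.nw s i x w) = ∑ i, ∑ x : ι → V k, ∑ w ∈ range (2 ^ N),
      ∑ s ∈ range (N + 1), ind (D.nw s i x w) := by
    rw [Finset.sum_comm]
    refine Finset.sum_congr rfl fun i _ => ?_
    rw [Finset.sum_comm]
    refine Finset.sum_congr rfl fun x _ => ?_
    rw [Finset.sum_comm]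
  rw [e2]
  refine (Finset.sum_le_sum fun i _ => Finset.sum_le_sum fun x _ =>
    Finset.sum_le_sum fun w _ => D.nw_sum i x w).trans ?_
  simp only [Finset.sum_add_distrib]
  have h12 : ∑ _i : ι, ∑ _x : ι → V k, ∑ _w ∈ range (2 ^ N), (1 : ℝ) =
      Fintype.card ι * tot ι k N := by
    rw [Finset.sum_congr rfl fun i _ => sum_one ι k N, Finset.sum_const, Finset.card_univ,
      nsmul_eq_mul]
  have h11 : ∑ i : ι, ∑ x : ι → V k, ∑ w ∈ range (2 ^ N),
      ((D.Pub i 0 x w).card : ℝ) ≤ Fintype.card ι * (β * tot ι k N) := by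
    refine (Finset.sum_le_sum fun i _ => hPub i).trans (le_of_eq ?_)
    rw [Finset.sum_const, Finset.card_univ, nsmul_eq_mul]
  rw [h12]
  calc _ ≤ Fintype.card ι * tot ι k N + Fintype.card ι * (β * tot ι k N) := by linarith
    _ = _ := by ring

/-! ### the difference of the two processes -/

/-- the difference of the two processes at the level `l` (exponent `l + 1`) -/
def PSG.XD (D : PSG k N h ι T) (F : ι → (ι → V k) → V k → ℝ) (l : ℕ) (x : ι → V k) (w : ℕ) : ℝ :=
  wv (fun d => ∏ i, F i x d - ∏ i, (F i x d - D.S i (l + 1) x w d)) l (∑ j, x j) w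

open Classical in
theorem PSG.XD_eq (D : PSG k N h ι T) (F : ι → (ι → V k) → V k → ℝ) (l : ℕ)
    (x : ι → V k) (w : ℕ) : D.XD F l x w =
      ∑ o ∈ (D.FL (l + 1) x w).erase (fun _ => none), (- ∏ i, D.cc i (l + 1) x w (o i)) *
        wv (D.fm F o x) l (∑ j, x j) w := by
  unfold PSG.XD
  rw [← wv_sum]
  congr 1
  funext d
  rw [D.expand]
  have h0 : (fun _ => none : ι → Option (Finset T)) ∈ D.FL (l + 1) x w := by
    rw [D.mem_FL]
    intro i I hI
    exact absurd hI (by simp)
  rw [← Finset.add_sum_erase _ _ h0]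
  have h1 : (∏ i, D.cc i (l + 1) x w ((fun _ => none : ι → Option (Finset T)) i)) *
      D.fm F (fun _ => none) x d = ∏ i, F i x d := by
    have e1 : ∏ i, D.cc i (l + 1) x w ((fun _ => none : ι → Option (Finset T)) i) = 1 :=
      Finset.prod_eq_one fun i _ => rfl
    rw [e1, one_mul]
    rfl
  rw [h1]
  simp only [neg_mul, Finset.sum_neg_distrib]
  ring

/-- change of a list -/
def PSG.chg (D : PSG k N h ι T) (x : ι → V k) (w j : ℕ) : Prop :=
  j + 2 ≤ N ∧ ∃ i, D.L i (j + 2) x w ≠ D.L i (j + 1) x w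

/-- too many births -/
def PSG.exc (D : PSG k N h ι T) (N0 : ℕ) (x : ι → V k) (w : ℕ) : Prop :=
  ∃ i, N0 < (D.Pub i 0 x w).card

/-- no change: the lists and the coefficients do not change -/
theorem PSG.const (D : PSG k N h ι T) (x : ι → V k) (w l' : ℕ) :
    ∀ d, l' + d < N → (∀ j, l' ≤ j → j < l' + d → ¬ D.chg x w j) →
    ∀ i, D.L i (l' + d + 1) x w = D.L i (l' + 1) x w ∧
      D.cf i (l' + d + 1) x w = D.cf i (l' + 1) x w := by
  intro d
  induction d with
  | zero => intro _ _ i; exact ⟨rfl, rfl⟩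
  | succ d ih =>
    intro hN hno i
    obtain ⟨h1, h2⟩ := ih (by omega) (fun j hj hj' => hno j hj (by omega)) i
    have h3 : D.L i (l' + d + 2) x w = D.L i (l' + d + 1) x w := by
      by_contra h4
      exact hno (l' + d) (by omega) (by omega) ⟨by omega, i, h4⟩
    have h4 := D.stat i (l' + d + 1) x w (by omega) h3
    exact ⟨h3.trans h1, h4.trans h2⟩

/-- the number of changes of the lists -/
theorem PSG.chg_sum (D : PSG k N h ι T) (x : ι → V k) (w : ℕ) :
    ∑ j ∈ range N, ind (D.chg x w j) ≤ ∑ i, ((D.Pub i 0 x w).card : ℝ) := by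
  classical
  have h1 : ∀ j, ind (D.chg x w j) ≤
      ∑ i, ind (j + 2 ≤ N ∧ D.L i (j + 2) x w ≠ D.L i (j + 1) x w) := by
    intro j
    by_cases hm : D.chg x w j
    · rw [ind_of hm]
      obtain ⟨h2, i, h3⟩ := hm
      calc (1 : ℝ) = ind (j + 2 ≤ N ∧ D.L i (j + 2) x w ≠ D.L i (j + 1) x w) :=
          (ind_of ⟨h2, h3⟩).symm
        _ ≤ _ := Finset.single_le_sum (f := fun i =>
          ind (j + 2 ≤ N ∧ D.L i (j + 2) x w ≠ D.L i (j + 1) x w))
          (fun i _ => ind_nonneg _) (Finset.mem_univ i)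
    · rw [ind_not hm]
      exact Finset.sum_nonneg fun i _ => ind_nonneg _
  refine (Finset.sum_le_sum fun j _ => h1 j).trans ?_
  rw [Finset.sum_comm]
  refine Finset.sum_le_sum fun i _ => ?_
  rcases Nat.eq_zero_or_pos N with h0 | h0
  · have e0 : ∑ j ∈ range N, ind (j + 2 ≤ N ∧ D.L i (j + 2) x w ≠ D.L i (j + 1) x w) = 0 :=
      Finset.sum_eq_zero fun j hj => absurd (Finset.mem_range.1 hj) (by omega)
    rw [e0]
    exact Nat.cast_nonneg _
  have h2 := tele (fun e => D.L i (e + 1) x w) (N - 1) (fun e he => D.cumL i (e + 1) x w (by omega))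
  simp only [zero_add] at h2
  have h3 : ∑ j ∈ range N, ind (j + 2 ≤ N ∧ D.L i (j + 2) x w ≠ D.L i (j + 1) x w) ≤
      ∑ e ∈ range (N - 1), ind (D.L i (e + 1 + 1) x w ≠ D.L i (e + 1) x w) := by
    have e1 : ∑ j ∈ range N, ind (j + 2 ≤ N ∧ D.L i (j + 2) x w ≠ D.L i (j + 1) x w) =
        ∑ j ∈ range (N - 1), ind (j + 2 ≤ N ∧ D.L i (j + 2) x w ≠ D.L i (j + 1) x w) := by
      symm
      refine Finset.sum_subset (Finset.range_subset_range.2 (by omega)) fun j _ hj => ?_
      rw [Finset.mem_range] at hj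
      exact ind_not fun hh => by omega
    rw [e1]
    exact Finset.sum_le_sum fun j _ => ind_mono fun hh => hh.2
  have h4 : ((D.L i 1 x w).card : ℝ) ≤ (D.Pub i 0 x w).card := by
    have := Finset.card_le_card ((D.sub i 1 x w).trans
      (D.Pub_anti i x w 0 1 (Nat.zero_le _) h0))
    exact_mod_cast this
  have h5 : (0 : ℝ) ≤ ((D.L i (N - 1 + 1) x w).card : ℝ) := Nat.cast_nonneg _
  linarith

/-! ### local data and their sums -/

/-- a sum over the completed forms of a sample point of local quantities -/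
theorem PSG.loc_sum (D : PSG k N h ι T) (hNk : N ≤ k) (N0 : ℕ)
    (g : (i : ι) → ℕ → (Ot i → V k) × (V k × ℕ) → V k → (ι → Option (Finset T)) → (Ot i → V k) → ℕ → ℝ)
    (hg0 : ∀ i s κ c o y r, 0 ≤ g i s κ c o y r) {B C : ℝ} (hB : 0 ≤ B)
    (hC : ∀ i : ι, Cf h (Fintype.card (Ot i)) ≤ C)
    (hg : ∀ i s κ c o, ∑ y ∈ box κ.1 s, ∑ r ∈ range (2 ^ s), g i s κ c o y r ≤
      B * (((2 : ℝ) ^ s) ^ Fintype.card (Ot i) * 2 ^ s)) {β : ℝ}
    (hPub : ∀ i, ∑ x : ι → V k, ∑ w ∈ range (2 ^ N), ((D.Pub i 0 x w).card : ℝ) ≤ β * tot ι k N) :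
    ∑ x : ι → V k, ∑ w ∈ range (2 ^ N), ∑ s ∈ range (N + 1), ∑ i, ind (D.nw s i x w) *
      ∑ o ∈ D.Zx N0 s i x w, g i s (fk h s i x w) (x i) o (rs i x) (w % 2 ^ s) ≤
      C * (((2 ^ N0 + 1) ^ Fintype.card ι : ℕ) * B) * (Fintype.card ι * (1 + β) * tot ι k N) := by
  classical
  have e1 : ∑ x : ι → V k, ∑ w ∈ range (2 ^ N), ∑ s ∈ range (N + 1), ∑ i, ind (D.nw s i x w) *
      ∑ o ∈ D.Zx N0 s i x w, g i s (fk h s i x w) (x i) o (rs i x) (w % 2 ^ s) =
      ∑ s ∈ range (N + 1), ∑ i, ∑ x : ι → V k, ∑ w ∈ range (2 ^ N), ind (D.nw s i x w) *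
      ∑ o ∈ D.Zx N0 s i x w, g i s (fk h s i x w) (x i) o (rs i x) (w % 2 ^ s) := by
    rw [Finset.sum_congr rfl fun x _ => Finset.sum_comm, Finset.sum_comm]
    refine Finset.sum_congr rfl fun s _ => ?_
    rw [Finset.sum_congr rfl fun x _ => Finset.sum_comm, Finset.sum_comm]
  rw [e1]
  have hn0 : (0 : ℝ) ≤ (((2 ^ N0 + 1) ^ Fintype.card ι : ℕ) : ℝ) := Nat.cast_nonneg _
  have h1 : ∀ s ∈ range (N + 1), ∀ i : ι, ∑ x : ι → V k, ∑ w ∈ range (2 ^ N), ind (D.nw s i x w) *
      ∑ o ∈ D.Zx N0 s i x w, g i s (fk h s i x w) (x i) o (rs i x) (w % 2 ^ s) ≤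
      C * (((2 ^ N0 + 1) ^ Fintype.card ι : ℕ) * B) *
        ∑ x : ι → V k, ∑ w ∈ range (2 ^ N), ind (D.nw s i x w) := by
    intro s hs i
    have hsN : s ≤ N := by
      rw [Finset.mem_range] at hs
      omega
    have h2 := count_fk (h := h) (N := N) (s := s) hsN hNk i (D.Pk s i)
      (fun κ c y r => ∑ o ∈ D.Zk N0 s i κ c, g i s κ c o y r)
      (fun κ c y r => Finset.sum_nonneg fun o _ => hg0 i s κ c o y r)
      (B := (((2 ^ N0 + 1) ^ Fintype.card ι : ℕ) : ℝ) * B) (by positivity) (by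
        intro κ c
        have e2 : ∑ y ∈ box κ.1 s, ∑ r ∈ range (2 ^ s), ∑ o ∈ D.Zk N0 s i κ c, g i s κ c o y r =
            ∑ o ∈ D.Zk N0 s i κ c, ∑ y ∈ box κ.1 s, ∑ r ∈ range (2 ^ s), g i s κ c o y r := by
          rw [Finset.sum_congr rfl fun y _ => Finset.sum_comm, Finset.sum_comm]
        rw [e2]
        calc ∑ o ∈ D.Zk N0 s i κ c, ∑ y ∈ box κ.1 s, ∑ r ∈ range (2 ^ s), g i s κ c o y r
            ≤ ∑ _o ∈ D.Zk N0 s i κ c, B * (((2 : ℝ) ^ s) ^ Fintype.card (Ot i) * 2 ^ s) :=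
              Finset.sum_le_sum fun o _ => hg i s κ c o
          _ = (D.Zk N0 s i κ c).card * (B * (((2 : ℝ) ^ s) ^ Fintype.card (Ot i) * 2 ^ s)) := by
              rw [Finset.sum_const, nsmul_eq_mul]
          _ ≤ (((2 ^ N0 + 1) ^ Fintype.card ι : ℕ) : ℝ) *
                (B * (((2 : ℝ) ^ s) ^ Fintype.card (Ot i) * 2 ^ s)) := by
              refine mul_le_mul_of_nonneg_right ?_ (by positivity)
              exact_mod_cast D.Zk_card N0 s i κ c
          _ = _ := by ring)
    have e3 : ∀ (x : ι → V k) (w : ℕ), ind (D.Pk s i (fk h s i x w)) = ind (D.nw s i x w) := by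
      intro x w
      congr 1
      exact propext (D.Pk_iff hsN i x w)
    simp only [e3, D.Zk_eq N0 hsN i] at h2
    refine h2.trans ?_
    refine mul_le_mul_of_nonneg_right ?_ (Finset.sum_nonneg fun x _ => Finset.sum_nonneg fun w _ =>
      ind_nonneg _)
    exact mul_le_mul_of_nonneg_right (hC i) (by positivity)
  refine (Finset.sum_le_sum fun s hs => Finset.sum_le_sum fun i _ => h1 s hs i).trans ?_
  simp only [← Finset.mul_sum]
  rcases isEmpty_or_nonempty ι with hι | ⟨⟨i0⟩⟩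
  · have e4 : ∑ s ∈ range (N + 1), ∑ i : ι, ∑ x : ι → V k, ∑ w ∈ range (2 ^ N), ind (D.nw s i x w) = 0 :=
      Finset.sum_eq_zero fun s _ => Finset.sum_eq_zero fun i _ => (hι.false i).elim
    rw [e4, Fintype.card_eq_zero (α := ι)]
    simp
  · have hC0 : 0 ≤ C := (Cf_pos h _).le.trans (hC i0)
    exact mul_le_mul_of_nonneg_left (D.nw_total hPub) (by positivity)

/-- THEOREM (layer 0), any finite set of vertices -/
theorem layer0G (hBin : ∀ i : ι, BinI (Ot i)) (c0 η β : ℝ) (hc0 : 0 < c0) (hη : 0 < η) (hβ : 0 ≤ β) (h : ℕ) :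
    ∃ K : ℝ, 0 ≤ K ∧ ∀ (k N : ℕ), N ≤ k → ∀ (T : Type) (D : PSG k N h ι T)
      (F : ι → (ι → V k) → V k → ℝ), FaceI F → (∀ i x d, |F i x d| ≤ 1) →
      (∀ i, ∑ x : ι → V k, ∑ w ∈ range (2 ^ N), ((D.Pub i 0 x w).card : ℝ) ≤ β * tot ι k N) →
      ∃ (mark : (ι → V k) → ℕ → ℕ → Prop) (exc : (ι → V k) → ℕ → Prop),
        (∑ x : ι → V k, ∑ w ∈ range (2 ^ N), ∑ j ∈ range N, ind (mark x w j)) ≤ K * tot ι k N ∧
        (∑ x : ι → V k, ∑ w ∈ range (2 ^ N), ind (exc x w)) ≤ η * tot ι k N ∧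
        ∀ x, ∀ w < 2 ^ N, ¬ exc x w → ∀ l' l, l' ≤ l → l < N → (∀ j, l' ≤ j → j < l → ¬ mark x w j) →
          |D.XD F l x w - D.XD F l' x w| ≤ c0 := by
  classical
  set m : ℝ := (Fintype.card ι : ℝ) with hm
  have hm0 : 0 ≤ m := Nat.cast_nonneg _
  obtain ⟨N0, hN0⟩ := exists_nat_gt (2 * (m * β) / η)
  set n : ℕ := (2 ^ N0 + 1) ^ Fintype.card ι with hn
  have hnpos : (0 : ℝ) < n := by
    have : 0 < n := by rw [hn]; positivity
    exact_mod_cast this
  set c1 : ℝ := c0 / n with hc1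
  have hc1pos : 0 < c1 := by positivity
  set C : ℝ := ∑ i : ι, Cf h (Fintype.card (Ot i)) with hCdef
  have hC0 : 0 ≤ C := Finset.sum_nonneg fun i _ => (Cf_pos h _).le
  have hC : ∀ i : ι, Cf h (Fintype.card (Ot i)) ≤ C := fun i =>
    Finset.single_le_sum (f := fun i : ι => Cf h (Fintype.card (Ot i))) (fun i _ => (Cf_pos h _).le)
      (Finset.mem_univ i)
  set Q : ℝ := C * (n * (m * (1 + β))) with hQ
  have hQ0 : 0 ≤ Q := by positivity
  set η1 : ℝ := η / (2 * (Q + 1)) with hη1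
  have hη1pos : 0 < η1 := by positivity
  choose K1 hK10 hloc using fun i : ι => loc_form (hBin i) hc1pos hη1pos
  set K' : ℝ := ∑ i, K1 i with hK'
  have hK'0 : 0 ≤ K' := Finset.sum_nonneg fun i _ => hK10 i
  have hK1le : ∀ i, K1 i ≤ K' := fun i =>
    Finset.single_le_sum (f := K1) (fun i _ => hK10 i) (Finset.mem_univ i)
  refine ⟨m * β + Q * K', by positivity, ?_⟩
  intro k N hNk T D F hFace hF hPub
  have htot : 0 < tot ι k N := tot_pos ι k N
  choose mk ex hmk hex hcl using fun (i : ι) (s : ℕ) (κ : (Ot i → V k) × (V k × ℕ)) (c : V k)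
    (o : ι → Option (Finset T)) => hloc i k s κ.1 c (D.Gf F i o c) (D.Gf_face hFace i o c) (D.Gf_le hF i o c)
  set exL : (ι → V k) → ℕ → Prop := fun x w => ∃ s ∈ range (N + 1), ∃ i, D.nw s i x w ∧
    ∃ o ∈ D.Zx N0 s i x w, ex i s (fk h s i x w) (x i) o (rs i x) (w % 2 ^ s) with hexL
  set mkL : (ι → V k) → ℕ → ℕ → Prop := fun x w j => ∃ s ∈ range (N + 1), ∃ i, D.nw s i x w ∧
    ∃ o ∈ D.Zx N0 s i x w, j ∈ range s ∧ mk i s (fk h s i x w) (x i) o (rs i x) (w % 2 ^ s) j with hmkL
  refine ⟨fun x w j => D.chg x w j ∨ mkL x w j, fun x w => D.exc N0 x w ∨ exL x w, ?_, ?_, ?_⟩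
  · -- marks
    have h1 : ∀ (x : ι → V k) (w : ℕ), ∑ j ∈ range N, ind (D.chg x w j ∨ mkL x w j) ≤
        ∑ i, ((D.Pub i 0 x w).card : ℝ) +
        ∑ s ∈ range (N + 1), ∑ i, ind (D.nw s i x w) * ∑ o ∈ D.Zx N0 s i x w,
          ∑ j ∈ range s, ind (mk i s (fk h s i x w) (x i) o (rs i x) (w % 2 ^ s) j) := by
      intro x w
      have h2 : ∀ j ∈ range N, ind (D.chg x w j ∨ mkL x w j) ≤ ind (D.chg x w j) +
          ∑ s ∈ range (N + 1), ∑ i, ind (D.nw s i x w) * ∑ o ∈ D.Zx N0 s i x w,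
          ind (j ∈ range s ∧ mk i s (fk h s i x w) (x i) o (rs i x) (w % 2 ^ s) j) := by
        intro j _
        have nn : ∀ s i, 0 ≤ ind (D.nw s i x w) * ∑ o ∈ D.Zx N0 s i x w,
            ind (j ∈ range s ∧ mk i s (fk h s i x w) (x i) o (rs i x) (w % 2 ^ s) j) := fun s i =>
          mul_nonneg (ind_nonneg _) (Finset.sum_nonneg fun o _ => ind_nonneg _)
        have nn2 : 0 ≤ ∑ s ∈ range (N + 1), ∑ i, ind (D.nw s i x w) * ∑ o ∈ D.Zx N0 s i x w,
            ind (j ∈ range s ∧ mk i s (fk h s i x w) (x i) o (rs i x) (w % 2 ^ s) j) :=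
          Finset.sum_nonneg fun s _ => Finset.sum_nonneg fun i _ => nn s i
        by_cases hc : D.chg x w j
        · rw [ind_of (Or.inl hc), ind_of hc]
          linarith
        · rw [ind_not hc, zero_add]
          by_cases hk : mkL x w j
          · rw [ind_of (Or.inr hk)]
            rw [hmkL] at hk
            obtain ⟨s, hs, i, hnw, o, ho, hj⟩ := hk
            calc (1 : ℝ) = ind (D.nw s i x w) *
                ind (j ∈ range s ∧ mk i s (fk h s i x w) (x i) o (rs i x) (w % 2 ^ s) j) := by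
                  rw [ind_of hnw, ind_of hj, one_mul]
              _ ≤ ind (D.nw s i x w) * ∑ o ∈ D.Zx N0 s i x w,
                  ind (j ∈ range s ∧ mk i s (fk h s i x w) (x i) o (rs i x) (w % 2 ^ s) j) :=
                  mul_le_mul_of_nonneg_left (Finset.single_le_sum (f := fun o =>
                    ind (j ∈ range s ∧ mk i s (fk h s i x w) (x i) o (rs i x) (w % 2 ^ s) j))
                    (fun o _ => ind_nonneg _) ho) (ind_nonneg _)
              _ ≤ ∑ i, ind (D.nw s i x w) * ∑ o ∈ D.Zx N0 s i x w,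
                  ind (j ∈ range s ∧ mk i s (fk h s i x w) (x i) o (rs i x) (w % 2 ^ s) j) :=
                  Finset.single_le_sum (f := fun i => ind (D.nw s i x w) * ∑ o ∈ D.Zx N0 s i x w,
                    ind (j ∈ range s ∧ mk i s (fk h s i x w) (x i) o (rs i x) (w % 2 ^ s) j))
                    (fun i _ => nn s i) (Finset.mem_univ i)
              _ ≤ _ := Finset.single_le_sum (f := fun s => ∑ i, ind (D.nw s i x w) *
                    ∑ o ∈ D.Zx N0 s i x w,
                    ind (j ∈ range s ∧ mk i s (fk h s i x w) (x i) o (rs i x) (w % 2 ^ s) j))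
                    (fun s _ => Finset.sum_nonneg fun i _ => nn s i) hs
          · rw [ind_not (fun hh => hh.elim hc hk)]
            exact nn2
      refine (Finset.sum_le_sum h2).trans ?_
      rw [Finset.sum_add_distrib]
      refine add_le_add (D.chg_sum x w) ?_
      rw [Finset.sum_comm]
      refine Finset.sum_le_sum fun s hs => ?_
      rw [Finset.sum_comm]
      refine Finset.sum_le_sum fun i _ => ?_
      rw [← Finset.mul_sum, Finset.sum_comm]
      refine mul_le_mul_of_nonneg_left (Finset.sum_le_sum fun o _ => ?_) (ind_nonneg _)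
      have h3 : ∑ j ∈ range N, ind (j ∈ range s ∧ mk i s (fk h s i x w) (x i) o (rs i x) (w % 2 ^ s) j) =
          ∑ j ∈ range s, ind (j ∈ range s ∧ mk i s (fk h s i x w) (x i) o (rs i x) (w % 2 ^ s) j) := by
        symm
        rw [Finset.mem_range] at hs
        refine Finset.sum_subset (Finset.range_subset_range.2 (by omega)) fun j _ hj => ?_
        exact ind_not fun hh => hj hh.1
      rw [h3]
      exact Finset.sum_le_sum fun j _ => ind_mono fun hh => hh.2
    refine (Finset.sum_le_sum fun x _ => Finset.sum_le_sum fun w _ => h1 x w).trans ?_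
    simp only [Finset.sum_add_distrib]
    have h2 : ∑ x : ι → V k, ∑ w ∈ range (2 ^ N), ∑ i, ((D.Pub i 0 x w).card : ℝ) ≤
        m * β * tot ι k N := by
      have e1 : ∑ x : ι → V k, ∑ w ∈ range (2 ^ N), ∑ i, ((D.Pub i 0 x w).card : ℝ) =
          ∑ i, ∑ x : ι → V k, ∑ w ∈ range (2 ^ N), ((D.Pub i 0 x w).card : ℝ) := by
        rw [Finset.sum_congr rfl fun x _ => Finset.sum_comm, Finset.sum_comm]
      rw [e1]
      refine (Finset.sum_le_sum fun i _ => hPub i).trans (le_of_eq ?_)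
      rw [Finset.sum_const, Finset.card_univ, nsmul_eq_mul, ← hm]
      ring
    have h3 := D.loc_sum hNk N0 (fun i s κ c o y r => ∑ j ∈ range s, ind (mk i s κ c o y r j))
      (fun i s κ c o y r => Finset.sum_nonneg fun j _ => ind_nonneg _) (B := K') hK'0 hC
      (fun i s κ c o => (hmk i s κ c o).trans
        (mul_le_mul_of_nonneg_right (hK1le i) (by positivity))) hPub
    have h4 : C * (((2 ^ N0 + 1) ^ Fintype.card ι : ℕ) * K') * (Fintype.card ι * (1 + β) * tot ι k N) =
        Q * K' * tot ι k N := by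
      rw [hQ, ← hn, ← hm]
      ring
    rw [h4] at h3
    calc _ ≤ m * β * tot ι k N + Q * K' * tot ι k N := add_le_add h2 h3
      _ = _ := by ring
  · -- exceptional points
    have h1 : ∀ (x : ι → V k) (w : ℕ), ind (D.exc N0 x w ∨ exL x w) ≤
        ∑ i, ((D.Pub i 0 x w).card : ℝ) / N0 +
        ∑ s ∈ range (N + 1), ∑ i, ind (D.nw s i x w) * ∑ o ∈ D.Zx N0 s i x w,
          ind (ex i s (fk h s i x w) (x i) o (rs i x) (w % 2 ^ s)) := by
      intro x w
      have nn : ∀ i, 0 ≤ ((D.Pub i 0 x w).card : ℝ) / N0 := fun i => by positivity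
      have nn1 : 0 ≤ ∑ i, ((D.Pub i 0 x w).card : ℝ) / N0 := Finset.sum_nonneg fun i _ => nn i
      have nn2 : ∀ s i, 0 ≤ ind (D.nw s i x w) * ∑ o ∈ D.Zx N0 s i x w,
          ind (ex i s (fk h s i x w) (x i) o (rs i x) (w % 2 ^ s)) := fun s i =>
        mul_nonneg (ind_nonneg _) (Finset.sum_nonneg fun o _ => ind_nonneg _)
      have nn3 : 0 ≤ ∑ s ∈ range (N + 1), ∑ i, ind (D.nw s i x w) * ∑ o ∈ D.Zx N0 s i x w,
          ind (ex i s (fk h s i x w) (x i) o (rs i x) (w % 2 ^ s)) :=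
        Finset.sum_nonneg fun s _ => Finset.sum_nonneg fun i _ => nn2 s i
      by_cases hexc : D.exc N0 x w
      · rw [ind_of (Or.inl hexc)]
        obtain ⟨i, hi⟩ := hexc
        have hN0' : (0 : ℝ) < N0 := lt_of_le_of_lt (by positivity) hN0
        have h2 : (1 : ℝ) ≤ ((D.Pub i 0 x w).card : ℝ) / N0 := by
          rw [le_div_iff₀ hN0', one_mul]
          exact_mod_cast hi.le
        have h3 := h2.trans (Finset.single_le_sum (f := fun i => ((D.Pub i 0 x w).card : ℝ) / N0)
          (fun i _ => nn i) (Finset.mem_univ i))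
        linarith
      · by_cases hk : exL x w
        · rw [ind_of (Or.inr hk)]
          rw [hexL] at hk
          obtain ⟨s, hs, i, hnw, o, ho, hj⟩ := hk
          have h3 : (1 : ℝ) ≤ ∑ s ∈ range (N + 1), ∑ i, ind (D.nw s i x w) * ∑ o ∈ D.Zx N0 s i x w,
              ind (ex i s (fk h s i x w) (x i) o (rs i x) (w % 2 ^ s)) := by
            calc (1 : ℝ) = ind (D.nw s i x w) *
                ind (ex i s (fk h s i x w) (x i) o (rs i x) (w % 2 ^ s)) := by
                  rw [ind_of hnw, ind_of hj, one_mul]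
              _ ≤ ind (D.nw s i x w) * ∑ o ∈ D.Zx N0 s i x w,
                  ind (ex i s (fk h s i x w) (x i) o (rs i x) (w % 2 ^ s)) :=
                  mul_le_mul_of_nonneg_left (Finset.single_le_sum (f := fun o =>
                    ind (ex i s (fk h s i x w) (x i) o (rs i x) (w % 2 ^ s)))
                    (fun o _ => ind_nonneg _) ho) (ind_nonneg _)
              _ ≤ ∑ i, ind (D.nw s i x w) * ∑ o ∈ D.Zx N0 s i x w,
                  ind (ex i s (fk h s i x w) (x i) o (rs i x) (w % 2 ^ s)) :=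
                  Finset.single_le_sum (f := fun i => ind (D.nw s i x w) * ∑ o ∈ D.Zx N0 s i x w,
                    ind (ex i s (fk h s i x w) (x i) o (rs i x) (w % 2 ^ s)))
                    (fun i _ => nn2 s i) (Finset.mem_univ i)
              _ ≤ _ := Finset.single_le_sum (f := fun s => ∑ i, ind (D.nw s i x w) *
                    ∑ o ∈ D.Zx N0 s i x w,
                    ind (ex i s (fk h s i x w) (x i) o (rs i x) (w % 2 ^ s)))
                    (fun s _ => Finset.sum_nonneg fun i _ => nn2 s i) hs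
          linarith
        · rw [ind_not (fun hh => hh.elim hexc hk)]
          linarith
    refine (Finset.sum_le_sum fun x _ => Finset.sum_le_sum fun w _ => h1 x w).trans ?_
    simp only [Finset.sum_add_distrib]
    have h2 : ∑ x : ι → V k, ∑ w ∈ range (2 ^ N), ∑ i, ((D.Pub i 0 x w).card : ℝ) / N0 ≤
        η / 2 * tot ι k N := by
      have e1 : ∑ x : ι → V k, ∑ w ∈ range (2 ^ N), ∑ i, ((D.Pub i 0 x w).card : ℝ) / N0 =
          (∑ i, ∑ x : ι → V k, ∑ w ∈ range (2 ^ N), ((D.Pub i 0 x w).card : ℝ)) / N0 := by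
        rw [Finset.sum_congr rfl fun x _ => Finset.sum_comm, Finset.sum_comm, Finset.sum_div]
        refine Finset.sum_congr rfl fun i _ => ?_
        rw [Finset.sum_div]
        refine Finset.sum_congr rfl fun x _ => ?_
        rw [Finset.sum_div]
      rw [e1]
      have hN0' : (0 : ℝ) < N0 := lt_of_le_of_lt (by positivity) hN0
      rw [div_le_iff₀ hN0']
      have h11 : ∑ i : ι, ∑ x : ι → V k, ∑ w ∈ range (2 ^ N),
          ((D.Pub i 0 x w).card : ℝ) ≤ m * (β * tot ι k N) := by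
        refine (Finset.sum_le_sum fun i _ => hPub i).trans (le_of_eq ?_)
        rw [Finset.sum_const, Finset.card_univ, nsmul_eq_mul]
      rw [div_lt_iff₀ hη] at hN0
      have h12 := mul_le_mul_of_nonneg_right hN0.le htot.le
      calc _ ≤ m * (β * tot ι k N) := h11
        _ ≤ η / 2 * tot ι k N * N0 := by linarith
    have h3 := D.loc_sum hNk N0 (fun i s κ c o y r => ind (ex i s κ c o y r))
      (fun i s κ c o y r => ind_nonneg _) (B := η1) hη1pos.le hC
      (fun i s κ c o => hex i s κ c o) hPub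
    have h4 : C * (((2 ^ N0 + 1) ^ Fintype.card ι : ℕ) * η1) * (Fintype.card ι * (1 + β) * tot ι k N) =
        Q * η1 * tot ι k N := by
      rw [hQ, ← hn, ← hm]
      ring
    rw [h4] at h3
    have h5 : Q * η1 ≤ η / 2 := by
      rw [hη1, mul_div_assoc', div_le_div_iff₀ (by positivity) (by norm_num)]
      nlinarith
    have h6 := mul_le_mul_of_nonneg_right h5 htot.le
    calc _ ≤ η / 2 * tot ι k N + Q * η1 * tot ι k N := add_le_add h2 h3
      _ ≤ η / 2 * tot ι k N + η / 2 * tot ι k N := by linarith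
      _ = _ := by ring
  · -- closeness
    intro x w hw hexc l' l hl hlN hno
    have hexc1 : ¬ D.exc N0 x w := fun hh => hexc (Or.inl hh)
    have hexc2 : ¬ exL x w := fun hh => hexc (Or.inr hh)
    have hcard : ∀ s ≤ N, ∀ i, (D.Pub i s x w).card ≤ N0 := by
      intro s hs i
      refine (Finset.card_le_card (D.Pub_anti i x w 0 s (Nat.zero_le _) hs)).trans ?_
      unfold PSG.exc at hexc1
      push Not at hexc1
      exact hexc1 i
    obtain ⟨d, rfl⟩ := Nat.exists_eq_add_of_le hl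
    have hc := D.const x w l' d hlN (fun j hj hj' hm' => hno j hj hj' (Or.inl hm'))
    have hFL : D.FL (l' + d + 1) x w = D.FL (l' + 1) x w := by
      unfold PSG.FL
      congr 1
      funext i
      rw [(hc i).1]
    have hcc : ∀ o : ι → Option (Finset T), ∏ i, D.cc i (l' + d + 1) x w (o i) =
        ∏ i, D.cc i (l' + 1) x w (o i) := by
      intro o
      refine Finset.prod_congr rfl fun i _ => ?_
      cases o i with
      | none => rfl
      | some I =>
        show -D.cf i (l' + d + 1) x w I = -D.cf i (l' + 1) x w I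
        rw [(hc i).2]
    rw [D.XD_eq, D.XD_eq, hFL, ← Finset.sum_sub_distrib]
    refine (Finset.abs_sum_le_sum_abs _ _).trans ?_
    have hterm : ∀ o ∈ (D.FL (l' + 1) x w).erase (fun _ => none),
        |(- ∏ i, D.cc i (l' + d + 1) x w (o i)) * wv (D.fm F o x) (l' + d) (∑ j, x j) w -
          (- ∏ i, D.cc i (l' + 1) x w (o i)) * wv (D.fm F o x) l' (∑ j, x j) w| ≤ c1 := by
      intro o ho
      rw [Finset.mem_erase] at ho
      rw [hcc, ← mul_sub, abs_mul, abs_neg]
      have h1 : |∏ i, D.cc i (l' + 1) x w (o i)| ≤ 1 := by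
        rw [Finset.abs_prod]
        exact Finset.prod_le_one (fun _ _ => abs_nonneg _) fun i _ => D.cc_le i _ x w _
      obtain ⟨s, hs1, hs2, hs3⟩ := D.exists_new x w ho.1 (N - (l' + d + 1)) (l' + d + 1) (by omega)
        (D.FL_sub _ _ _ (by rw [hFL]; exact ho.2))
      obtain ⟨i, hi1, hi2⟩ := D.New_sub N0 s x w (hcard s hs2) o hs3
      have hsr : s ∈ range (N + 1) := Finset.mem_range.2 (by omega)
      have hfm : D.fm F o x = fun d => ∏ v : Ot i, D.Gf F i o (x i) v (rs i x) d := by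
        funext d'
        exact D.fm_eq F i o (D.Zx_some hi2) x d'
      have h2 := hcl i s (fk h s i x w) (x i) o (rs i x) (rs_mem_box (by omega) i x w) (w % 2 ^ s)
        (Nat.mod_lt _ (by positivity))
        (fun hh => hexc2 ⟨s, hsr, i, hi1, o, hi2, hh⟩) l' (l' + d) hl (by omega)
        (fun j hj hj' hh => hno j hj hj' (Or.inr ⟨s, hsr, i, hi1, o, hi2,
          Finset.mem_range.2 (by omega), hh⟩))
      rw [← sum_split i x, wv_mod _ (show l' + d < s by omega), wv_mod _ (show l' < s by omega),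
        ← hfm] at h2
      calc _ ≤ 1 * c1 := mul_le_mul h1 h2.le (abs_nonneg _) zero_le_one
        _ = c1 := one_mul _
    refine (Finset.sum_le_sum hterm).trans ?_
    rw [Finset.sum_const, nsmul_eq_mul]
    have h3 : ((D.FL (l' + 1) x w).erase (fun _ => none)).card ≤ n := by
      refine (Finset.card_le_card (Finset.erase_subset _ _)).trans ?_
      exact (Finset.card_le_card (D.FL_sub _ _ _)).trans (card_FP_le D _ x w N0 (hcard _ (by omega)))
    calc (((D.FL (l' + 1) x w).erase (fun _ => none)).card : ℝ) * c1 ≤ n * c1 := by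
          refine mul_le_mul_of_nonneg_right ?_ hc1pos.le
          exact_mod_cast h3
      _ = c0 := by
          rw [hc1]
          field_simp

end

end Pool.Agent.GM.L0
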