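import Pool.Agent.GM.S1Births
import Pool.Agent.GM.L0Layer
import Pool.Agent.GM.EndA

/-!
# GM/L0Inst (section 6, (6.3), every finite set of vertices): layer 0 in the model (helper53)

`PSG0` = the structured functions of a layer in the form `L0.PSG` of helper66: lists of births as finite sets, public
births = births at the face nodes of the path, coefficients of the Walsh form.
* `resAv h N ep th F e ω` : window average of the product of the residuals `Rf` of a layer;
* THEOREM `lay0_core` : `(∀ i, BinI (Ot i))` gives marks for `XX - resAv`;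
* `lay0G_of` : `Lay0G TR l0` when the process `TR` of the layer `l0` is `resAv` with the parameters of the layer.
-/

set_option autoImplicit false
set_option linter.unusedSectionVars false

namespace Pool.Agent.GM

open Finset Pool.Agent.PWZ Pool.Agent.M3 Pool.Agent.M3.Bin
open Pool.Agent.M3.Mod (ex nd av dl pnd SC cel)

noncomputable section

variable {k N : ℕ} {ι : Type} [Fintype ι] [DecidableEq ι] [Nontrivial ι]

/-- the vertices with trivial private randomness -/
abbrev ux (x : ι → V k) : ι → Unit × V k := fun j => ((), x j)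

section inst

variable (h N : ℕ) (ep th : ℝ) (F : ι → (ι → Unit × V k) → V k → ℝ)

/-- the list of the face `i` at a sample point -/
def l0L (i : ι) (e : ℕ) (x : ι → V k) (w : ℕ) : List (Birth (TJ k Unit i → Bool)) :=
  Lf i h N ep th (F i) e (G h e (∑ j, x j) w) (ux x)

/-- the births at the node of the face `i` -/
def l0B (i : ι) (e : ℕ) (x : ι → V k) (w : ℕ) : Finset (Birth (TJ k Unit i → Bool)) :=
  Bf i h N ep th (F i) e (G h e (∑ j, x j) w) (ux x)

open Classical in
/-- the public births of the nodes of the path, down to the exponent `e` -/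
def l0P (i : ι) (e : ℕ) (x : ι → V k) (w : ℕ) : Finset (Birth (TJ k Unit i → Bool)) :=
  (Finset.Icc e N).biUnion fun s => l0B h N ep th F i s x w

variable {h N ep th F}

theorem l0L_suffix (i : ι) {e : ℕ} (he : e < N) (x : ι → V k) (w : ℕ) :
    l0L h N ep th F i (e + 1) x w <:+ l0L h N ep th F i e x w := by
  unfold l0L
  rw [← par_G]
  exact Lf_mono he _ _

theorem mem_l0P {i : ι} {e s : ℕ} {x : ι → V k} {w : ℕ} (hes : e ≤ s) (hs : s ≤ N)
    {b : Birth (TJ k Unit i → Bool)} (hb : b ∈ l0B h N ep th F i s x w) : b ∈ l0P h N ep th F i e x w := by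
  classical
  unfold l0P
  rw [Finset.mem_biUnion]
  exact ⟨s, Finset.mem_Icc.2 ⟨hes, hs⟩, hb⟩

theorem l0L_sub (i : ι) (x : ι → V k) (w : ℕ) (b : Birth (TJ k Unit i → Bool)) :
    ∀ n e : ℕ, e + n = N → b ∈ l0L h N ep th F i e x w → b ∈ l0P h N ep th F i e x w := by
  classical
  intro n
  induction n with
  | zero =>
    intro e he hb
    obtain rfl : e = N := by omega
    exact mem_l0P le_rfl le_rfl (mem_Lf_top hb)
  | succ n ih =>
    intro e he hb
    have h1 := mem_Lf (by omega : e < N) hb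
    rcases h1 with h1 | h1
    · rw [par_G] at h1
      have h2 := ih (e + 1) (by omega) h1
      unfold l0P at h2
      rw [Finset.mem_biUnion] at h2
      obtain ⟨s, hs, h3⟩ := h2
      rw [Finset.mem_Icc] at hs
      exact mem_l0P (by omega) hs.2 h3
    · exact mem_l0P le_rfl (by omega) h1

theorem l0P_mono (i : ι) (e : ℕ) (x : ι → V k) (w : ℕ) :
    l0P h N ep th F i (e + 1) x w ⊆ l0P h N ep th F i e x w := by
  classical
  unfold l0P
  refine Finset.biUnion_subset_biUnion_of_subset_left _ ?_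
  intro s hs
  rw [Finset.mem_Icc] at hs ⊢
  omega

/-- the face nodes above are determined -/
theorem fk_le (i : ι) {x x' : ι → V k} {w w' : ℕ} {e : ℕ} (hf : L0.fk h e i x w = L0.fk h e i x' w') :
    ∀ s, e ≤ s → L0.fk h s i x w = L0.fk h s i x' w' := by
  intro s hs
  induction s, hs using Nat.le_induction with
  | base => exact hf
  | succ s _ ih => exact L0.fk_up i ih

theorem l0B_congr (i : ι) {x x' : ι → V k} {w w' : ℕ} {e : ℕ} (he : e ≤ N)
    (hf : L0.fk h e i x w = L0.fk h e i x' w') : l0B h N ep th F i e x w = l0B h N ep th F i e x' w' := by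
  unfold L0.fk at hf
  simp only [Prod.mk.injEq] at hf
  obtain ⟨h1, h2⟩ := hf
  unfold l0B
  rw [← h2]
  exact Bf_congr he _ fun l hl => congrFun h1 ⟨l, hl⟩

theorem l0P_congr (i : ι) {x x' : ι → V k} {w w' : ℕ} {e : ℕ}
    (hf : L0.fk h e i x w = L0.fk h e i x' w') : l0P h N ep th F i e x w = l0P h N ep th F i e x' w' := by
  classical
  unfold l0P
  refine Finset.biUnion_congr rfl fun s hs => ?_
  rw [Finset.mem_Icc] at hs
  exact l0B_congr i hs.2 (fk_le i hf s hs.1)

end inst

/-! ### one type for the births of all faces -/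

/-- births of all faces -/
abbrev TB (k : ℕ) (ι : Type) [Fintype ι] [DecidableEq ι] : Type := Σ i : ι, Birth (TJ k Unit i → Bool)

/-- the births of the face `i` in the common type -/
def emb (i : ι) : Birth (TJ k Unit i → Bool) ↪ TB k ι := ⟨fun b => ⟨i, b⟩, fun _ _ h => by simpa using h⟩

open Classical in
/-- THE INSTANCE -/
def PSG0 (h N : ℕ) (ep th : ℝ) (F : ι → (ι → Unit × V k) → V k → ℝ) : L0.PSG k N h ι (TB k ι) where
  A i τ v x d := if hi : τ.1 = i then sgw i v (hi ▸ τ.2) (ux x) d else 1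
  L i e x w := if e ≤ N then (l0L h N ep th F i e x w).toFinset.map (emb i) else ∅
  Pub i e x w := (l0P h N ep th F i e x w).map (emb i)
  cf i e x w I := psiC ep (l0L h N ep th F i e x w).length
    (univ.filter fun j => emb i ((l0L h N ep th F i e x w).get j) ∈ I)
  A_le i τ v x d := by
    split_ifs with hi
    · exact (abs_sgw _ _ _ _ _).le
    · simp
  A_dep i τ v x y d hxy := by
    split_ifs with hi
    · refine congrFun (sgw_on i v _ fun j hj => ?_) d
      rw [Set.mem_compl_iff, Set.mem_insert_iff, Set.mem_singleton_iff, not_or] at hj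
      show ((), x j) = ((), y j)
      rw [hxy j hj.1 hj.2]
    · rfl
  cf_le i e x w I := abs_psiC _ _ _
  sub i e x w := by
    split_ifs with he
    · refine Finset.map_subset_map.2 ?_
      intro b hb
      rw [List.mem_toFinset] at hb
      exact l0L_sub i x w b (N - e) e (by omega) hb
    · exact Finset.empty_subset _
  cumL i e x w he := by
    rw [if_pos (show e + 1 ≤ N from he), if_pos he.le]
    refine Finset.map_subset_map.2 ?_
    intro b hb
    rw [List.mem_toFinset] at hb ⊢
    exact (l0L_suffix i he x w).subset hb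
  cumP i e x w _ := Finset.map_subset_map.2 (l0P_mono i e x w)
  node i e x x' w w' _ hf := by rw [l0P_congr i hf]
  stat i e x w he hL := by
    rw [if_pos (show e + 1 ≤ N from he), if_pos he.le] at hL
    have hL' := Finset.map_injective _ hL
    have h1 := l0L_suffix (h := h) (ep := ep) (th := th) (F := F) i he x w
    have h2 : (l0L h N ep th F i (e + 1) x w).Nodup := Lf_nodup _ _ _
    have h3 : (l0L h N ep th F i e x w).Nodup := Lf_nodup _ _ _
    have h4 : (l0L h N ep th F i (e + 1) x w).length = (l0L h N ep th F i e x w).length := by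
      rw [← List.toFinset_card_of_nodup h2, ← List.toFinset_card_of_nodup h3, hL']
    have h5 : l0L h N ep th F i (e + 1) x w = l0L h N ep th F i e x w := h1.eq_of_length h4
    funext I
    rw [h5]

variable {h : ℕ} {ep th : ℝ} {F : ι → (ι → Unit × V k) → V k → ℝ}

theorem PSG0_A (i : ι) (b : Birth (TJ k Unit i → Bool)) (v : ι) (x : ι → V k) (d : V k) :
    (PSG0 h N ep th F).A i (emb i b) v x d = sgw i v b (ux x) d := by
  show (if hi : i = i then sgw i v (hi ▸ b) (ux x) d else 1) = _
  rw [dif_pos rfl]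

/-- the structured function of the instance -/
theorem PSG0_S (i : ι) {e : ℕ} (he : e ≤ N) (x : ι → V k) (w : ℕ) (d : V k) :
    (PSG0 h N ep th F).S i e x w d = Sf i h N ep th (F i) e (G h e (∑ j, x j) w) (ux x) d := by
  classical
  rw [Sf_births]
  unfold L0.PSG.S
  have h3 : (PSG0 h N ep th F).L i e x w = (l0L h N ep th F i e x w).toFinset.map (emb i) := by
    show (if e ≤ N then (l0L h N ep th F i e x w).toFinset.map (emb i) else ∅) = _
    rw [if_pos he]
  rw [h3]
  symm
  refine Finset.sum_nbij (fun I => I.map (emb i)) ?_ ?_ ?_ ?_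
  · intro I hI
    rw [Finset.mem_powerset] at hI ⊢
    exact Finset.map_subset_map.2 (fun b hb => by
      have := hI hb
      rw [List.mem_toFinset] at this ⊢
      exact this)
  · intro I _ J _ hIJ
    exact Finset.map_injective _ hIJ
  · intro J hJ
    have hJ' := Finset.mem_powerset.1 (Finset.mem_coe.1 hJ)
    obtain ⟨u, hu, hu2⟩ := Finset.subset_map_iff.1 hJ'
    refine ⟨u, Finset.mem_coe.2 (Finset.mem_powerset.2 fun b hb => ?_), hu2.symm⟩
    have := hu hb
    rw [List.mem_toFinset] at this ⊢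
    exact this
  · intro I _
    have h4 : (PSG0 h N ep th F).cf i e x w (I.map (emb i)) = psiC ep (l0L h N ep th F i e x w).length
        (univ.filter fun j => (l0L h N ep th F i e x w).get j ∈ I) := by
      show psiC ep (l0L h N ep th F i e x w).length _ = _
      congr 1
      ext j
      simp only [Finset.mem_filter, Finset.mem_univ, true_and]
      exact Finset.mem_map' _
    rw [h4, Finset.prod_map, Finset.prod_comm]
    congr 1
    refine Finset.prod_congr rfl fun b _ => Finset.prod_congr rfl fun v _ => ?_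
    exact (PSG0_A i b v x d).symm

/-- the public births have a bounded mean -/
theorem PSG0_pub (hF : ∀ i x d, |F i x d| ≤ 1) (hep : 0 < ep) (hth : 0 < th)
    (hrd : 32 * ((2 : ℝ) ^ h)⁻¹ ≤ ep ^ 2) (i : ι) :
    ∑ x : ι → V k, ∑ w ∈ range (2 ^ N), (((PSG0 h N ep th F).Pub i 0 x w).card : ℝ) ≤
      32 / (ep ^ 3 * th) * L0.tot ι k N := by
  classical
  have h1 := sum_of_E (Pf_mean (k := k) (N := N) (Θ := Unit) (P := Unit) (F := F i) 0 i (hF i) hep hth hrd)
  refine le_trans ?_ h1
  refine Finset.sum_le_sum fun x _ => Finset.sum_le_sum fun w hw => ?_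
  have hw' := Finset.mem_range.1 hw
  have h2 : ((PSG0 h N ep th F).Pub i 0 x w).card ≤
      ∑ s ∈ Finset.Icc 0 N, (l0B h N ep th F i s x w).card := by
    show ((l0P h N ep th F i 0 x w).map (emb i)).card ≤ _
    rw [Finset.card_map]
    exact Finset.card_biUnion_le
  have h3 : ∑ s ∈ Finset.Icc 0 N, (l0B h N ep th F i s x w).card ≤
      ∑ e ∈ range (N + 1), Pf i h N ep th (F i) e (G h e (∑ j, x j) w) (ux x) := by
    have e1 : Finset.Icc 0 N = range (N + 1) := by
      ext s
      rw [Finset.mem_Icc, Finset.mem_range]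
      omega
    rw [e1]
    exact Finset.sum_le_sum fun s _ => card_Bf _ _ _
  have h4 : (((PSG0 h N ep th F).Pub i 0 x w).card : ℝ) ≤
      ((∑ e ∈ range (N + 1), Pf i h N ep th (F i) e (G h e (∑ j, x j) w) (ux x) : ℕ) : ℝ) := by
    exact_mod_cast h2.trans h3
  refine h4.trans (le_of_eq ?_)
  push_cast
  refine Finset.sum_congr rfl fun e _ => ?_
  have h5 : Gm 0 h e (mkS N x w) = G h e (∑ j, x j) w := by
    show G h e (ctr 0 (mkS N x w)) (nz (mkS N x w)) = _
    rw [nz_mkS x hw', ctr_mkS]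
  rw [h5, vs_mkS]

/-- the averages of the two files -/
theorem wv_eq (f : V k → ℝ) (l : ℕ) (z : V k) (w : ℕ) :
    L0.wv f l z w = av (l + 1) (pos (l + 1) z w) f := by
  unfold L0.wv av Bin.pos
  rfl

/-- the residual process of a layer -/
def resAv (h N : ℕ) (ep th : ℝ) (F : ι → (ι → Unit × V k) → V k → ℝ) (e : ℕ) (ω : Sq k N ι Unit Unit) : ℝ :=
  TT 0 h (fun i => Rf i h N ep th (F i)) e ω

/-- LAYER 0 IN THE MODEL, one layer -/
theorem lay0_core (hBin : ∀ i : ι, BinI (L0.Ot i)) {h : ℕ} {ep th : ℝ} (hep : 0 < ep) (hth : 0 < th)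
    (hrd : 32 * ((2 : ℝ) ^ h)⁻¹ ≤ ep ^ 2) (c0 : ℝ) (hc0 : 0 < c0) (η : ℝ) (hη : 0 < η) :
    ∃ K : ℝ, 0 ≤ K ∧ ∀ k N : ℕ, N ≤ k →
    ∀ F : ι → (ι → Unit × V k) → V k → ℝ, Faces F →
    ∃ (mark : Sq k N ι Unit Unit → ℕ → Prop) (exc : Sq k N ι Unit Unit → Prop),
      (Pm : FP (Sq k N ι Unit Unit)).E (fun ω => ∑ j ∈ range N, ind (mark ω j)) ≤ K ∧
      (Pm : FP (Sq k N ι Unit Unit)).Pr exc ≤ η ∧
      ∀ ω, ¬ exc ω → ∀ l' l, l' ≤ l → l < N → (∀ j, l' ≤ j → j < l → ¬ mark ω j) →
        |(XX 0 F (l + 1) ω - resAv h N ep th F (l + 1) ω) -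
          (XX 0 F (l' + 1) ω - resAv h N ep th F (l' + 1) ω)| ≤ c0 := by
  classical
  obtain ⟨K, hK0, hK⟩ := L0.layer0G hBin c0 η (32 / (ep ^ 3 * th)) hc0 hη (by positivity) h
  refine ⟨K, hK0, fun k N hNk F hF => ?_⟩
  set D := PSG0 h N ep th F with hD
  set F' : ι → (ι → V k) → V k → ℝ := fun i x d => F i (ux x) d with hF'
  have hface : FaceI F' := fun i x y d hxy => congrFun (hF.1 i fun j hj => by
    show ((), x j) = ((), y j)
    rw [hxy j hj]) d
  obtain ⟨mark, exc, hm, he, hc⟩ := hK k N hNk _ D F' hface (fun i x d => hF.2 i _ d)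
    (fun i => PSG0_pub hF.2 hep hth hrd i)
  have hT : (0 : ℝ) < L0.tot ι k N := L0.tot_pos ι k N
  have hconv : ∀ (f : Sq k N ι Unit Unit → ℝ) (g : (ι → V k) → ℕ → ℝ) (B : ℝ),
      (∀ x w, w < 2 ^ N → f (mkS N x w) = g x w) →
      ∑ x : ι → V k, ∑ w ∈ range (2 ^ N), g x w ≤ B * L0.tot ι k N →
      (Pm : FP (Sq k N ι Unit Unit)).E f ≤ B := by
    intro f g B hfg hB
    rw [E_mkS]
    have h1 : ∑ x : ι → V k, ∑ w ∈ range (2 ^ N), f (mkS N x w) =
        ∑ x : ι → V k, ∑ w ∈ range (2 ^ N), g x w :=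
      Finset.sum_congr rfl fun x _ => Finset.sum_congr rfl fun w hw => hfg x w (Finset.mem_range.1 hw)
    rw [h1, inv_mul_le_iff₀ (by positivity)]
    unfold L0.tot at hB
    linarith
  refine ⟨fun ω j => mark (fun j => (vx j ω).2) (nz ω) j, fun ω => exc (fun j => (vx j ω).2) (nz ω), ?_, ?_, ?_⟩
  · refine hconv _ (fun x w => ∑ j ∈ range N, ind (mark x w j)) K (fun x w hw => ?_) hm
    simp only [nz_mkS x hw]
    rfl
  · refine hconv _ (fun x w => ind (exc x w)) η (fun x w hw => ?_) he
    simp only [nz_mkS x hw]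
    rfl
  · intro ω hω l' l hl hlN hno
    have hwN : nz ω < 2 ^ N := ω.2.2.2
    have h1 := hc (fun j => (vx j ω).2) (nz ω) hwN hω l' l hl hlN hno
    have key : ∀ l, l < N → XX 0 F (l + 1) ω - resAv h N ep th F (l + 1) ω =
        D.XD F' l (fun j => (vx j ω).2) (nz ω) := by
      intro l hl
      unfold L0.PSG.XD
      rw [wv_eq]
      unfold XX resAv TT
      have h2 : (Yn 0 (l + 1) ω).1 = pos (l + 1) (∑ j, (fun j => (vx j ω).2) j) (nz ω) := by
        show pos (l + 1) (ctr 0 ω) (nz ω) = _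
        have h3 : ctr 0 ω = ∑ j, (fun j => (vx j ω).2) j := by
          show ∑ j, (vx j ω).2 + 0 = _
          rw [add_zero]
        rw [h3]
      rw [h2, ← Pool.Agent.M3.Mod.av_sub]
      congr 1
      funext d
      congr 1
      refine Finset.prod_congr rfl fun i _ => ?_
      have h3 : D.S i (l + 1) (fun j => (vx j ω).2) (nz ω) d =
          Sf i h N ep th (F i) (l + 1) (Gm 0 h (l + 1) ω) (vs ω) d := by
        rw [hD, PSG0_S i (by omega)]
        have h4 : Gm 0 h (l + 1) ω = G h (l + 1) (∑ j, (fun j => (vx j ω).2) j) (nz ω) := by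
          show G h (l + 1) (ctr 0 ω) (nz ω) = _
          have h3 : ctr 0 ω = ∑ j, (fun j => (vx j ω).2) j := by
            show ∑ j, (vx j ω).2 + 0 = _
            rw [add_zero]
          rw [h3]
        rw [h4]
        rfl
      rw [h3]
      rfl
    rw [key l hlN, key l' (by omega)]
    exact h1

/-- `Lay0G` for a process which is the residual process of the layer `l0` -/
theorem lay0G_of (hBin : ∀ i : ι, BinI (L0.Ot i)) {TR : Proc ι} {l0 h : ℕ} {ep th : ℝ} (hep : 0 < ep)
    (hth : 0 < th) (hrd : 32 * ((2 : ℝ) ^ h)⁻¹ ≤ ep ^ 2)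
    (hTR : ∀ (k N : ℕ) (F : ι → (ι → Unit × V k) → V k → ℝ) (e : ℕ) (ω : Sq k N ι Unit Unit),
      TR k N F l0 e ω = resAv h N ep th F e ω) : Lay0G TR l0 := by
  intro c0 hc0 η hη
  obtain ⟨K, hK0, hK⟩ := lay0_core hBin hep hth hrd c0 hc0 η hη
  refine ⟨K, hK0, fun k N hNk F hF => ?_⟩
  obtain ⟨mark, exc, h1, h2, h3⟩ := hK k N hNk F hF
  refine ⟨mark, exc, h1, h2, fun ω hω l' l hl hlN hno => ?_⟩
  rw [hTR, hTR]
  exact h3 ω hω l' l hl hlN hno

end

end Pool.Agent.GM
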