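import Pool.Agent.GM.S1LayE
import Pool.Agent.GM.L0Inst
import Pool.Agent.GM.End3

/-!
# GM/End : section 6 for every number of vertices, complete

`Sec5 n` (for `n + 2` vertices) = THE THEOREM OF SECTION 5, the only input which is missing: for some parameters of the
layers no piece of a late layer is large, up to summable errors.
* `lay0_TRp` : layer 0 from the finite theorem for one vertex less;
* `binI_step : BinI (Fin (n + 1)) → Sec5 n → BinI (Fin (n + 2))`;
* `binI_four : Sec5 2 → BinI (Fin 4)`, `final_four : Sec5 2 → FinalM 4` (FOUR COMMUTING MAPS);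
* `binI_all`, `final_all` : `(∀ n, 2 ≤ n → BinI (Fin (n + 1)) → Sec5 n) → ∀ m, 3 ≤ m → BinI (Fin m)` (resp. `FinalM m`).
-/

set_option autoImplicit false
set_option linter.unusedSectionVars false

namespace Pool.Agent.GM

open Finset Pool.Agent.PWZ Pool.Agent.M3 Pool.Agent.M3.Bin

noncomputable section

/-- LAYER 0 from the finite theorem for one vertex less -/
theorem lay0_TRp {m : ℕ} [Nontrivial (Fin m)] (L : LayE) (hBin : ∀ i : Fin m, BinI (L0.Ot i)) (l0 : ℕ) :
    Lay0G (TRp (m := m) L) l0 := by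
  refine lay0G_of hBin (h := L.lh l0) (L.lep_pos l0) (L.lth_pos l0) ?_ (fun k N F e ω => rfl)
  have h1 := L.rd l0
  have h2 : 0 < ((2 : ℝ) ^ L.lh l0)⁻¹ := by positivity
  linarith

theorem binI_ot {n : ℕ} (h : BinI (Fin (n + 1))) (i : Fin (n + 2)) : BinI (L0.Ot i) := by
  have hc : Fintype.card (L0.Ot i) = n + 1 := by
    show Fintype.card {j : Fin (n + 2) // j ≠ i} = n + 1
    rw [card_ne, Fintype.card_fin]
    rfl
  exact L0.binI_equiv (Fintype.equivFinOfCardEq hc).symm h

/-- THE THEOREM OF SECTION 5 for `n + 2` vertices -/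
def Sec5 (n : ℕ) : Prop :=
  ∃ (L : LayE) (lstar : ℕ) (r p : ℕ → ℝ), Summable r ∧ (∀ l, 0 ≤ r l) ∧ Summable p ∧ (∀ l, 0 ≤ p l) ∧
    H5G (pcp (m := n + 2) L) lstar r p

theorem binI_step {n : ℕ} (h : BinI (Fin (n + 1))) (h5 : Sec5 n) : BinI (Fin (n + 2)) := by
  obtain ⟨L, lstar, r, p, hr, hr0, hp, hp0, h5⟩ := h5
  exact binI_fin L lstar r p hr hr0 hp hp0 h5 (lay0_TRp L (binI_ot h))

/-- four vertices -/
theorem binI_four (h5 : Sec5 2) : BinI (Fin 4) := binI_step (n := 2) binI_three h5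

/-- FOUR COMMUTING MAPS -/
theorem final_four (h5 : Sec5 2) : Pool.PWM.FinalM 4 := final_of_binI (binI_four h5)

/-- every number of vertices -/
theorem binI_all (h5 : ∀ n, 2 ≤ n → BinI (Fin (n + 1)) → Sec5 n) : ∀ m, 3 ≤ m → BinI (Fin m) := by
  intro m hm
  induction m, hm using Nat.le_induction with
  | base => exact binI_three
  | succ m hm ih =>
    obtain ⟨n, rfl⟩ : ∃ n, m = n + 1 := ⟨m - 1, by omega⟩
    exact binI_step ih (h5 n (by omega) ih)

/-- EVERY NUMBER OF COMMUTING MAPS -/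
theorem final_all (h5 : ∀ n, 2 ≤ n → BinI (Fin (n + 1)) → Sec5 n) : ∀ m, 3 ≤ m → Pool.PWM.FinalM m :=
  fun m hm => final_of_binI (binI_all h5 m hm)

end

end Pool.Agent.GM
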