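import Pool.Agent.GM.ColdBinE
import Pool.Agent.GM.PieceAsm
import Pool.Agent.GM.Reloc

/-!
# GM/EraseC (helper85): THE SETS OF `j - 1` VERTICES OF A PIECE ARE COLD, coins included (row P4, every number of vertices)

* `indep_coin`, `frzC`, `frzC_future` : a moving function with its coin frozen;
* `hotXe_of_coldAtC`, `coldX_of_coldAtC` : natural coldness of the vertex `x` which carries the coins gives `ColdX` of
  `univ.erase x`, coin averaged;
* `coldAt_fix` : the natural view of `δ` at every fixed value of the coin, from `GS.CMAll j C`;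
* **`coldSets_eraseC`** : `Asm.NatA j False → GS.CMAll j C → ColdSets j False (n + 1 = j)`.
-/

set_option autoImplicit false
set_option linter.unusedSectionVars false

namespace Pool.Agent.GM

open Finset Pool.Agent.PWZ Pool.Agent.M3 Pool.Agent.M3.TS Pool.Agent.M3.Bin
open Pool.Agent.GMC (famS pq)
open Pool.Agent.M3.Mod (nd av)
open Pool.Agent.GM.KVer (pT)

noncomputable section

/-! ## a frozen coin -/

/-- freezing an independent variable -/
theorem E_frzC {Om : Type*} [Fintype Om] (P : FP Om) {κ ι : Type*} {X : Om → κ} {C : Om → ι} (h : P.Indep X C)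
    {F : ι → Om → ℝ} (hF : ∀ c, Fac X (F c)) : P.E (fun w => F (C w) w) = P.E (fun u => P.E (fun w => F (C u) w)) := by
  have h1 : P.E (fun w => F (C w) w) =
      P.E (fun w => P.E (fun u => F (C u) w * ind (C w = C u) / P.m C u)) := by
    refine P.E_congr (fun w hw => ?_)
    exact P.eq_E_fibre (q := fun u => F (C u) w) (Z := C) (fun v v' e => by dsimp only; rw [e]) hw
  rw [h1, FP.E_swap]
  refine P.E_congr (fun u hu => ?_)
  have h2 := h (fun w => F (C u) w) (fun w => ind (C w = C u)) (hF _) (Fac.ind (fun v v' e => by rw [e]))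
  rw [FP.E_div_const, h2]
  change P.E _ * P.m C u / P.m C u = _
  field_simp [(P.m_pos C hu).ne']

section abs

variable {ι Om Ξ Pt V Γ κ : Type} [Fintype ι] [DecidableEq ι] [Fintype Om] [Fintype Ξ] [Fintype Pt]
  [Fintype V] (S : Sys ι Om Ξ Pt V Γ κ)

/-- the law of the coin -/
theorem Pr_coin (hι : 0 < Fintype.card ι) (ξ : Ξ) : S.P.Pr (fun w => S.xi w = ξ) = 1 / Fintype.card Ξ := by
  classical
  obtain ⟨w0⟩ := S.nonempty_Om
  have h0 : (∅ : Finset ι) ≠ univ := by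
    intro h
    have := congrArg Finset.card h
    rw [Finset.card_empty, Finset.card_univ] at this
    omega
  have h1 := S.Pr_set h0 ξ (S.x w0)
  rw [Finset.card_empty, pow_zero, mul_one] at h1
  rw [← h1]
  refine S.P.Pr_congr fun w _ => ?_
  constructor
  · intro h
    exact ⟨h, fun j hj => absurd hj (Finset.notMem_empty j)⟩
  · exact fun h => h.1

/-- the coin is independent of the vertices and the node -/
theorem indep_coin (hι : 0 < Fintype.card ι) (t : ℕ) : S.P.Indep (fun w => (S.x w, S.gm t w)) S.xi := by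
  refine S.P.indep_of_m fun w v _ _ => ?_
  have h1 : S.P.E (fun u => ind ((S.x u, S.gm t u) = (S.x w, S.gm t w)) * ind (S.xi u = S.xi v)) =
      S.P.Pr (fun u => S.xi u = S.xi v ∧ S.x u = S.x w ∧ S.gm t u = S.gm t w) := by
    refine S.P.E_congr fun u _ => ?_
    show ind ((S.x u, S.gm t u) = (S.x w, S.gm t w)) * ind (S.xi u = S.xi v) =
      ind (S.xi u = S.xi v ∧ S.x u = S.x w ∧ S.gm t u = S.gm t w)
    rw [← ind_and]
    refine congrArg ind (propext ?_)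
    rw [Prod.ext_iff]
    exact ⟨fun h => ⟨h.2, h.1⟩, fun h => ⟨h.2, h.1⟩⟩
  have h2 : S.P.m (fun w => (S.x w, S.gm t w)) w = S.P.Pr (fun u => S.x u = S.x w ∧ S.gm t u = S.gm t w) := by
    refine S.P.Pr_congr fun u _ => ?_
    show (S.x u, S.gm t u) = (S.x w, S.gm t w) ↔ _
    rw [Prod.ext_iff]
  have h3 : S.P.m S.xi v = 1 / Fintype.card Ξ := Pr_coin S hι (S.xi v)
  rw [h1, S.lxi, h2, h3]
  ring

/-- a moving function with its coin frozen -/
def frzC {β : Type} (ξ0 : Ξ) (f : Mov Ξ ι Pt Γ β) : Mov Ξ ι Pt Γ β := fun t g _ x => f t g ξ0 x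

theorem frzC_free {β : Type} {f : Mov Ξ ι Pt Γ β} (h : ∀ t g ξ ξ', f t g ξ = f t g ξ') (ξ0 : Ξ) : frzC ξ0 f = f := by
  funext t g ξ x
  exact congrFun (h t g ξ0 ξ) x

/-- **the future moves of a function with a frozen coin** -/
theorem frzC_future (hι : 0 < Fintype.card ι) {β : Type} {I : Finset ι} {f : Mov Ξ ι Pt Γ β} {m0 : ℝ}
    (H : S.Future I f m0) (ξ0 : Ξ) : S.Future I (frzC ξ0 f) m0 := by
  classical
  intro t φ hφ hφ0
  have hφ' : Fac (fun w => (S.xi w, (res I (S.x w), S.gm t w))) φ := hφ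
  obtain ⟨F, hF, hF0⟩ := exists_two hφ' hφ0
  -- the moves
  set M : ℕ → Om → ℝ := fun u w => ind (S.at' (frzC ξ0 f) (u + 1) w ≠ S.at' (frzC ξ0 f) u w) with hM
  have hMf : ∀ u, Fac (fun w => (S.x w, S.gm (u + 1) w)) (M u) := by
    intro u v w hvw
    obtain ⟨h1, h2⟩ := Prod.ext_iff.1 hvw
    have h3 := S.gm_step u h2
    have h4 : S.at' (frzC ξ0 f) (u + 1) v = S.at' (frzC ξ0 f) (u + 1) w := by
      show f (u + 1) (S.gm (u + 1) v) ξ0 (S.x v) = f (u + 1) (S.gm (u + 1) w) ξ0 (S.x w)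
      rw [show S.x v = S.x w from h1, show S.gm (u + 1) v = S.gm (u + 1) w from h2]
    have h5 : S.at' (frzC ξ0 f) u v = S.at' (frzC ξ0 f) u w := by
      show f u (S.gm u v) ξ0 (S.x v) = f u (S.gm u w) ξ0 (S.x w)
      rw [show S.x v = S.x w from h1, h3]
    show ind (S.at' (frzC ξ0 f) (u + 1) v ≠ S.at' (frzC ξ0 f) u v) =
      ind (S.at' (frzC ξ0 f) (u + 1) w ≠ S.at' (frzC ξ0 f) u w)
    rw [h4, h5]
  have hY : ∀ c : Ξ, ∀ u, t ≤ u → Fac (fun w => (S.x w, S.gm u w)) (fun w => F c (res I (S.x w), S.gm t w)) := by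
    intro c u hu v w hvw
    obtain ⟨h1, h2⟩ := Prod.ext_iff.1 hvw
    have h3 := S.gm_le hu h2
    show F c (res I (S.x v), S.gm t v) = F c (res I (S.x w), S.gm t w)
    rw [show S.x v = S.x w from h1, h3]
  set p0 : ℝ := S.P.Pr (fun w => S.xi w = ξ0) with hp0
  have hp0pos : 0 < p0 := by
    rw [hp0, Pr_coin S hι]
    exact div_pos one_pos S.cXi
  -- every value of the coin in the state
  have hone : ∀ c : Ξ, ∑ u ∈ Finset.Ico t S.n, S.P.E (fun w => F c (res I (S.x w), S.gm t w) * M u w) ≤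
      m0 * S.P.E (fun w => F c (res I (S.x w), S.gm t w)) := by
    intro c
    have h1 := H t (fun w => ind (S.xi w = ξ0) * F c (res I (S.x w), S.gm t w)) (by
      intro v w hvw
      obtain ⟨h1, h2⟩ := Prod.ext_iff.1 hvw
      obtain ⟨h3, h4⟩ := Prod.ext_iff.1 h2
      show ind (S.xi v = ξ0) * F c (res I (S.x v), S.gm t v) = ind (S.xi w = ξ0) * F c (res I (S.x w), S.gm t w)
      rw [show S.xi v = S.xi w from h1, show res I (S.x v) = res I (S.x w) from h3, show S.gm t v = S.gm t w from h4])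
      (fun w => mul_nonneg (ind_nonneg _) (hF0 _ _))
    have h2 : ∀ u ∈ Finset.Ico t S.n, S.P.E (fun w => ind (S.xi w = ξ0) * F c (res I (S.x w), S.gm t w) *
        ind (S.at' f (u + 1) w ≠ S.at' f u w)) = p0 * S.P.E (fun w => F c (res I (S.x w), S.gm t w) * M u w) := by
      intro u hu
      have hu1 : t ≤ u + 1 := by
        have := (Finset.mem_Ico.1 hu).1
        omega
      have h3 := (indep_coin S hι (u + 1)).symm (fun w => ind (S.xi w = ξ0))
        (fun w => F c (res I (S.x w), S.gm t w) * M u w) (Fac.ind fun v w hvw => by rw [hvw])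
        (fun v w hvw => by
          show F c (res I (S.x v), S.gm t v) * M u v = F c (res I (S.x w), S.gm t w) * M u w
          rw [hMf u v w hvw]
          have h4 := hY c (u + 1) hu1 v w hvw
          exact congrArg (· * M u w) h4)
      rw [hp0]
      show _ = S.P.E (fun w => ind (S.xi w = ξ0)) * _
      rw [← h3]
      refine S.P.E_congr fun w _ => ?_
      by_cases hx : S.xi w = ξ0
      · have h5 : ∀ s, S.at' (frzC ξ0 f) s w = S.at' f s w := by
          intro s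
          show f s (S.gm s w) ξ0 (S.x w) = f s (S.gm s w) (S.xi w) (S.x w)
          rw [hx]
        show _ = ind (S.xi w = ξ0) * (F c (res I (S.x w), S.gm t w) *
          ind (S.at' (frzC ξ0 f) (u + 1) w ≠ S.at' (frzC ξ0 f) u w))
        rw [h5, h5, mul_assoc]
      · rw [ind_not hx, zero_mul, zero_mul, zero_mul]
    rw [Finset.sum_congr rfl h2, ← Finset.mul_sum] at h1
    have h6 := (indep_coin S hι t).symm (fun w => ind (S.xi w = ξ0)) (fun w => F c (res I (S.x w), S.gm t w))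
      (Fac.ind fun v w hvw => by rw [hvw]) (hY c t le_rfl)
    rw [h6] at h1
    have h7 : S.P.E (fun w => ind (S.xi w = ξ0)) = p0 := rfl
    rw [h7] at h1
    have h8 : m0 * (p0 * S.P.E (fun w => F c (res I (S.x w), S.gm t w))) =
        p0 * (m0 * S.P.E (fun w => F c (res I (S.x w), S.gm t w))) := by ring
    rw [h8] at h1
    exact le_of_mul_le_mul_left h1 hp0pos
  -- average over the coin of the state
  have hL : ∀ u ∈ Finset.Ico t S.n, S.P.E (fun w => φ w * M u w) =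
      S.P.E (fun v => S.P.E (fun w => F (S.xi v) (res I (S.x w), S.gm t w) * M u w)) := by
    intro u hu
    have hu1 : t ≤ u + 1 := by
      have := (Finset.mem_Ico.1 hu).1
      omega
    rw [← E_frzC S.P (indep_coin S hι (u + 1)) (F := fun c w => F c (res I (S.x w), S.gm t w) * M u w)
      (fun c v w hvw => by
          show F c (res I (S.x v), S.gm t v) * M u v = F c (res I (S.x w), S.gm t w) * M u w
          rw [hMf u v w hvw]
          have h4 := hY c (u + 1) hu1 v w hvw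
          exact congrArg (· * M u w) h4)]
    refine S.P.E_congr fun w _ => ?_
    rw [hF w]
  have hR : S.P.E φ = S.P.E (fun v => S.P.E (fun w => F (S.xi v) (res I (S.x w), S.gm t w))) := by
    rw [← E_frzC S.P (indep_coin S hι t) (F := fun c w => F c (res I (S.x w), S.gm t w)) (fun c => hY c t le_rfl)]
    refine S.P.E_congr fun w _ => ?_
    rw [hF w]
  show ∑ u ∈ Finset.Ico t S.n, S.P.E (fun w => φ w * M u w) ≤ m0 * S.P.E φ
  rw [Finset.sum_congr rfl hL, hR, ← FP.E_sum, ← FP.E_smul]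
  exact S.P.E_mono fun v _ => hone (S.xi v)

end abs

/-! ## the vertex which carries the coins -/

section one

variable {k N : ℕ} {ι Θ Ξ Q : Type} [Fintype ι] [DecidableEq ι] {σ : V k} [Fintype Θ] [Nonempty Θ] [Fintype Ξ]
  [Nonempty Ξ] [Fintype Q] [Nonempty Q]

/-- the natural view of the vertex `x` which carries the coins -/
theorem hotXe_of_coldAtC {x : ι} {hN : N ≤ k} {h : ℕ} {F : ι → Mov Ξ ι (Q × V k) (Θ × (V k × ℕ)) (V k → ℝ)}
    {r ρ out : ℝ} (H : GS.ColdAt σ x hN h x F r ρ out) :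
    (Pm : FP (Sq k N ι Θ Q)).Pr (fun ω => HotXe σ h (fun θ ξ l => famS N h (F l) θ ξ)
      (fun _ => (Fintype.card Ξ : ℝ)⁻¹) r ρ x N ω) ≤ out := by
  rw [← Pr_pq_one (Ξ := Ξ) _ x]
  refine le_trans (FP.Pr_mono _ fun w _ => ?_) H
  rintro ⟨u, hu, -, -, h4⟩
  refine ⟨u, hu, h4.le.trans (le_of_eq ?_)⟩
  have h5 : (fun v : Sq k N ι Θ (Ξ × Q) => ind (r ≤ |pT (binSys Θ Ξ Q σ x hN h) univ F u v|)) =
      fun v => (fun b : Sq k N ι Θ Q × Ξ => ind (r ≤ |T0X σ h (fun θ ξ i => famS N h (F i) θ ξ) u b|)) (pz x v) := by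
    funext v
    rw [pT_T0X x hN h F hu v]
  rw [h5, ce_pz_Kn x (Mod.ex N u) (fun b : Sq k N ι Θ Q × Ξ => ind (r ≤ |T0X σ h (fun θ ξ i => famS N h (F i) θ ξ) u b|)) w]
  exact (ce_fst (Xd := Ξ) (Kn (k := k) (N := N) (Θ := Θ) (P := Q) x (Mod.ex N u))
    (fun b => ind (r ≤ |T0X σ h (fun θ ξ i => famS N h (F i) θ ξ) u b|)) (pz x w)).symm

/-- **natural coldness of the vertex of the coins gives the cold set of the other vertices**, coin averaged -/
theorem coldX_of_coldAtC {x : ι} {hN : N ≤ k} {h : ℕ} {F : ι → Mov Ξ ι (Q × V k) (Θ × (V k × ℕ)) (V k → ℝ)}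
    (h1 : ∀ w t g ξ z d, |F w t g ξ z d| ≤ 1) {r r1 ρ out : ℝ} (hρ : 0 ≤ ρ) (H : GS.ColdAt σ x hN h x F r ρ out)
    (hr : r + 4 * ((2 : ℝ) ^ h)⁻¹ ≤ r1) (D : ℕ) :
    ColdX σ N h (fun θ ξ l => famS N h (F l) θ ξ) (fun _ => (Fintype.card Ξ : ℝ)⁻¹) (univ.erase x) D r1
      (2 * 2 ^ D * ρ) out (fun t w _ => HotXe σ h (fun θ ξ l => famS N h (F l) θ ξ)
        (fun _ => (Fintype.card Ξ : ℝ)⁻¹) r ρ x t w) := by
  refine coldX_erase σ x hN (fun _ => by positivity) (card_sum Ξ) (B := 1) (fun θ ξ l => ?_) ?_ hρ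
    (hotXe_of_coldAtC H)
  · exact GMC.famS_le zero_le_one h (h1 l) θ ξ
  · rw [one_pow, mul_one]
    linarith

end one

/-! ## the natural view of `δ` at a fixed coin -/

/-- **the natural view of `δ` at every fixed value of the coin**, coin free faces otherwise -/
theorem coldAt_fix {j C : ℕ} (hA : GS.CMAll j C) (c1 : ℕ) : ∃ C1 : ℕ, c1 ≤ C1 ∧
    ∀ (ι Θ Ξ Q : Type) [Fintype ι] [DecidableEq ι] [Fintype Θ] [Nonempty Θ] [Fintype Ξ] [Nonempty Ξ] [Fintype Q]
    [Nonempty Q] (k N : ℕ) (σ : V k) (i δ : ι) (hN : N ≤ k) (h : ℕ), Fintype.card ι = j →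
    ∀ β H Λ : ℝ, 0 < β → β ≤ 1 / 2 → 1 / β ≤ H → (binSys Θ Ξ Q σ i hN h).K ≤ Real.exp H →
      (binSys Θ Ξ Q σ i hN h).near ≤ β ^ C1 → H ^ C1 ≤ Λ →
      ∀ F : ι → Mov Ξ ι (Q × V k) (Θ × (V k × ℕ)) (V k → ℝ),
      GS.Faces (binSys Θ Ξ Q σ i hN h) univ δ F H (Real.exp (-Λ)) (β ^ C1) → ∀ ξ0 : Ξ,
      GS.ColdAt σ i hN h δ (fun l => frzC ξ0 (F l)) (β ^ c1) (Real.exp (-H ^ c1)) (Real.exp (-H ^ c1)) := by
  obtain ⟨C2, h2⟩ := GS.cold_moving hA (c1 + 1)
  refine ⟨(c1 + 1) * C2 + c1, by omega, ?_⟩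
  intro ι Θ Ξ Q _ _ _ _ _ _ _ _ k N σ i δ hN h hι β H Λ hβ hβ2 hH hK hn hΛ F HF ξ0
  have hH2 := one_le_of_inv hβ hβ2 hH
  have hβ1 : β ≤ 1 := by linarith
  set β' : ℝ := β ^ (c1 + 1) with hβ'
  set H' : ℝ := H ^ (c1 + 1) with hH'
  have hb0 : 0 < β' := by positivity
  have hb2 : β' ≤ 1 / 2 := by
    refine le_trans ?_ hβ2
    calc β ^ (c1 + 1) ≤ β ^ 1 := pow_le_pow_of_le_one hβ.le hβ1 (by omega)
      _ = β := pow_one β
  have hbH : 1 / β' ≤ H' := by
    rw [hβ', hH', one_div, ← inv_pow, ← one_div]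
    exact pow_le_pow_left₀ (by positivity) hH _
  have hHH : H ≤ H' := by
    calc H = H ^ 1 := (pow_one H).symm
      _ ≤ H ^ (c1 + 1) := pow_le_pow_right₀ (by linarith) (by omega)
  have hpb : β ^ ((c1 + 1) * C2 + c1) ≤ β' ^ C2 := by
    rw [hβ', ← pow_mul]
    exact pow_le_pow_of_le_one hβ.le hβ1 (by omega)
  have hpH : H' ^ C2 ≤ Λ := by
    refine le_trans ?_ hΛ
    rw [hH', ← pow_mul]
    exact pow_le_pow_right₀ (by linarith) (by omega)
  have hcard : 0 < Fintype.card ι := Fintype.card_pos_iff.2 ⟨δ⟩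
  have hu : ∀ l : ι, l ∈ (univ : Finset ι) := fun l => mem_univ l
  have hfr : ∀ l, l ≠ δ → frzC ξ0 (F l) = F l := fun l hl => frzC_free (HF.coin l (hu l) hl) ξ0
  have hFV : GS.FacesV (binSys Θ Ξ Q σ i hN h) δ (fun l => frzC ξ0 (F l)) (1 + 2 * H') H' (Real.exp (-H' ^ C2))
      (β' ^ C2) := by
    have hmp : 0 < H := by linarith
    refine ⟨fun l t g ξ => HF.dep l (hu l) t g ξ0, fun l t g ξ ξ' => rfl, fun l t g ξ x d => HF.bd l (hu l) t g ξ0 x d,
      fun l g ξ x => HF.zero l (hu l) g ξ0 x, ?_, fun l hl => ?_, fun l hl => ?_, fun l hl => ?_, fun l hl => ?_⟩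
    · have h3 := frzC_future (binSys Θ Ξ Q σ i hN h) hcard (HF.fut δ (hu δ)) ξ0
      exact Sys.MvTail.mono (h3.tail (fun t g ξ => HF.dep δ (hu δ) t g ξ0) hmp) (by linarith)
    · show (binSys Θ Ξ Q σ i hN h).Future (univ.erase l) (frzC ξ0 (F l)) H'
      rw [hfr l hl]
      exact Sys.Future.mono _ (HF.fut l (hu l)) hHH
    · show (binSys Θ Ξ Q σ i hN h).MvTail (frzC ξ0 (F l)) (1 + 2 * H')
      rw [hfr l hl]
      exact Sys.MvTail.mono ((HF.fut l (hu l)).tail (HF.dep l (hu l)) hmp) (by linarith)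
    · show (binSys Θ Ξ Q σ i hN h).P.E ((binSys Θ Ξ Q σ i hN h).nmv (frzC ξ0 (F l)) (binSys Θ Ξ Q σ i hN h).n) ≤
        1 + 2 * H'
      rw [hfr l hl]
      have h5 := (HF.fut l (hu l)).mean
      linarith
    · show (binSys Θ Ξ Q σ i hN h).Rare univ l (frzC ξ0 (F l)) (Real.exp (-H' ^ C2)) (β' ^ C2)
      rw [hfr l hl]
      exact Sys.Rare.mono _ (HF.rare l (hu l)) (Real.exp_le_exp.2 (neg_le_neg hpH)) hpb
  have h3 := h2 ι Θ Ξ Q k N σ i δ hN h hι β' H' hb0 hb2 hbH (hK.trans (Real.exp_le_exp.2 hHH)) (hn.trans hpb)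
    (fun l => frzC ξ0 (F l)) hFV
  have he : Real.exp (-H' ^ (c1 + 1)) ≤ Real.exp (-H ^ c1) := by
    refine Real.exp_le_exp.2 (neg_le_neg ?_)
    rw [hH', ← pow_mul]
    exact pow_le_pow_right₀ (by linarith) (by nlinarith)
  refine h3.mono ?_ he he
  exact pow_le_pow_of_le_one hβ.le hβ1 (by omega)

/-! ## the sets of `j - 1` vertices -/

/-- **THE SETS OF `j - 1` VERTICES OF A PIECE ARE COLD, COINS INCLUDED** -/
theorem coldSets_eraseC {j C : ℕ} (hN' : Asm.NatA j False) (hA : GS.CMAll j C) :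
    ColdSets j False (fun n => n + 1 = j) := by
  intro c1
  obtain ⟨C1, h1⟩ := hN' (c1 + 3)
  obtain ⟨C2, hc2, h2⟩ := coldAt_fix hA (c1 + 3)
  refine ⟨C1 + C2, by omega, ?_⟩
  intro ι Θ Ξ Q _ _ _ _ _ _ _ _ k N σ i δ hN h hι β H Λ hβ hβ2 hH hK hn hΛ hΛ2 F HF _ D hD U hU hS
  have hH2 := one_le_of_inv hβ hβ2 hH
  have hH1 : 1 ≤ H := by linarith
  have hβ1 : β ≤ 1 := by linarith
  have b1 : β ^ (C1 + C2) ≤ β ^ C1 := pow_le_pow_of_le_one hβ.le hβ1 (by omega)
  have b2 : β ^ (C1 + C2) ≤ β ^ C2 := pow_le_pow_of_le_one hβ.le hβ1 (by omega)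
  have e1 : H ^ C1 ≤ Λ := (pow_le_pow_right₀ hH1 (by omega)).trans hΛ
  have e2 : H ^ C2 ≤ Λ := (pow_le_pow_right₀ hH1 (by omega)).trans hΛ
  obtain ⟨x, hx⟩ : ∃ x, U = univ.erase x := by
    have h3 : (Uᶜ : Finset ι).card = 1 := by
      rw [Finset.card_compl, hι]
      omega
    obtain ⟨x, hx⟩ := Finset.card_eq_one.mp h3
    refine ⟨x, ?_⟩
    rw [← compl_compl U, hx, Finset.compl_singleton]
  subst hx
  have hnear : 8 * ((2 : ℝ) ^ h)⁻¹ ≤ β ^ (C1 + C2) := hn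
  have hr : β ^ (c1 + 3) + 4 * ((2 : ℝ) ^ h)⁻¹ ≤ β ^ c1 := by
    have h4 : β ^ (C1 + C2) ≤ β ^ (c1 + 3) := pow_le_pow_of_le_one hβ.le hβ1 (by omega)
    have h5 : β ^ (c1 + 3) ≤ β ^ c1 * (1 / 8) := by
      rw [pow_add]
      refine mul_le_mul_of_nonneg_left ?_ (by positivity)
      calc β ^ 3 ≤ (1 / 2) ^ 3 := pow_le_pow_left₀ hβ.le hβ2 3
        _ = 1 / 8 := by norm_num
    have h6 : (0 : ℝ) < β ^ c1 := by positivity
    linarith
  have hex : Real.exp (-H ^ (c1 + 3)) ≤ Real.exp (-H ^ c1) :=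
    Real.exp_le_exp.2 (neg_le_neg (pow_le_pow_right₀ hH1 (by omega)))
  have w0 : ∀ ξ : Ξ, 0 ≤ (fun _ : Ξ => (Fintype.card Ξ : ℝ)⁻¹) ξ := fun ξ => by positivity
  by_cases hxδ : x = δ
  · subst hxδ
    -- every fixed coin
    have hfix : ∀ ξ : Ξ, ColdX σ N h (fun θ (_ : Unit) l => famS N h (F l) θ ξ) (fun _ => 1) (univ.erase x) D
        (β ^ c1) (Real.exp (-H ^ c1)) (Real.exp (-H ^ c1)) (fun t w _ => HotXe σ h
          (fun θ (_ : Unit) l => famS N h (F l) θ ξ) (fun _ => 1) (β ^ (c1 + 3)) (Real.exp (-H ^ (c1 + 3))) x t w) := by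
      intro ξ
      have h3 := h2 ι Θ Ξ Q k N σ i x hN h hι β H Λ hβ hβ2 hH hK (hn.trans b2) e2 F (HF.mono_acc b2) ξ
      have h4 := coldX_of_coldAt (X := Unit) (R := fun θ (_ : Unit) l => famS N h (F l) θ ξ) (wx := fun _ => 1)
        (F := fun l => frzC ξ (F l)) (fun l t g ξ' ξ'' => rfl)
        (fun l t g ξ' z d => HF.bd l (mem_univ l) t g ξ z d) (fun _ => ξ) (fun θ _ l => rfl) (fun _ => zero_le_one)
        (by simp) (Real.exp_pos _).le h3 hr D
      exact h4.mono (fun _ => zero_le_one) le_rfl le_rfl (erase_num hH2 hD) hex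
    refine ⟨⟨_, ColdX.of_fix w0 (card_sum Ξ) (H := fun t w ξ => HotXe σ h
          (fun θ (_ : Unit) l => famS N h (F l) θ ξ) (fun _ => 1) (β ^ (c1 + 3)) (Real.exp (-H ^ (c1 + 3))) x t w)
          fun ξ => hfix ξ⟩, fun _ ξ => ⟨_, hfix ξ⟩⟩
  · have HFx : GS.Faces (binSys Θ Ξ Q σ x hN h) univ δ F H (Real.exp (-Λ)) (β ^ C1) :=
      Reloc.mvFaces (Reloc.binSwap i x σ hN h) Function.bijective_id (HF.mono_acc b1)
    have h3 := h1 ι Θ Ξ Q k N σ x δ hN h hxδ hι β H Λ hβ hβ2 hH hK (hn.trans b1) e1 hΛ2 F HFx (fun h => h.elim)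
    refine ⟨⟨_, (coldX_of_coldAtC (fun l => HF.bd l (mem_univ l)) (Real.exp_pos _).le h3 hr D).mono w0
      le_rfl le_rfl (erase_num hH2 hD) hex⟩, fun hn => ?_⟩
    exact absurd (Finset.mem_erase.2 ⟨fun h => hxδ h.symm, mem_univ δ⟩) hn

end

end Pool.Agent.GM
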