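import Pool.Agent.M3.FPPoE

/-!
# GM/Expert: products of several experts (row G5.1, helper54)

`D` = digit with values `1, -1`; `m0` = mean of the digit given the class, for finitely many labels `i ∈ S` the means
`u i` (label `i` and everything below it) and `u' i` (everything strictly below it).  Product of experts
`P~(s) ∝ (1 + s m0) ∏ (1 + s (u i)) / (1 + s (u' i))`, its mean is `ex m0 S u u'`.

* `ex_abs_le`: `|ex| ≤ |m0| + 2 ∑ |u i - u' i|` if all `|u' i| ≤ 1/2`;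
* `one_add_mul_ex`: `1 + D ex = 2 R_D / (R_+ + R_-)`;
* `sq_le_expert`: `b ^ 2 ≤ ∑ 1[|u' i| > 1/2] + C (m0 ^ 2 + ∑ (u i - u' i) ^ 2) + 2 · 1_G (b - ex) ^ 2`;
* `expert_kl`: `E 1[good] (b - ex) ^ 2 ≤ 2 E 1[good] (log (1 + D b) - log (1 + D ex))`.
-/

set_option autoImplicit false
set_option linter.unusedSectionVars false

namespace Pool.Agent.GM

open Finset Pool.Agent.PWZ Pool.Agent.M3

section Real

variable {α : Type*}

/-- combination of two experts -/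
theorem cmb_abs_le {q v : ℝ} (hq : |q| ≤ 1) (hv : |v| ≤ 1) : |q + v| ≤ (|q| + |v|) * (1 + q * v) := by
  have hq0 := abs_nonneg q
  have hv0 := abs_nonneg v
  rcases le_total 0 (q * v) with h | h
  · calc |q + v| ≤ |q| + |v| := abs_add_le q v
      _ ≤ (|q| + |v|) * (1 + q * v) := by nlinarith [add_nonneg hq0 hv0]
  · have e1 : q * v = -(|q| * |v|) := by rw [← abs_mul, abs_of_nonpos h]; ring
    have e2 : |q + v| = |(|q| - |v|)| := by
      rcases le_total 0 q with h1 | h1 <;> rcases le_total 0 v with h2 | h2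
      · have : q * v = 0 := le_antisymm h (mul_nonneg h1 h2)
        rcases mul_eq_zero.mp this with h3 | h3
        · rw [h3]; simp
        · rw [h3]; simp
      · rw [abs_of_nonneg h1, abs_of_nonpos h2]; congr 1; ring
      · rw [abs_of_nonpos h1, abs_of_nonneg h2, ← abs_neg (-q - v)]; congr 1; ring
      · have : q * v = 0 := le_antisymm h (mul_nonneg_of_nonpos_of_nonpos h1 h2)
        rcases mul_eq_zero.mp this with h3 | h3
        · rw [h3]; simp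
        · rw [h3]; simp
    rw [e2, e1, abs_le]
    set x := |q|
    set y := |v|
    have hxy : 0 ≤ x * y := mul_nonneg hq0 hv0
    constructor
    · have : x * (x * y) ≤ x * 1 := by
        refine mul_le_mul_of_nonneg_left ?_ hq0
        nlinarith
      have : y * (x * y) ≤ x := by nlinarith [mul_le_mul hv hv hv0 zero_le_one]
      nlinarith
    · have : x * (x * y) ≤ y := by nlinarith [mul_le_mul hq hq hq0 zero_le_one]
      have : y * (x * y) ≤ y * 1 := by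
        refine mul_le_mul_of_nonneg_left ?_ hv0
        nlinarith
      nlinarith

noncomputable def Rp (m0 : ℝ) (S : Finset α) (u u' : α → ℝ) : ℝ := (1 + m0) * ∏ i ∈ S, (1 + u i) / (1 + u' i)

noncomputable def Rm (m0 : ℝ) (S : Finset α) (u u' : α → ℝ) : ℝ := (1 - m0) * ∏ i ∈ S, (1 - u i) / (1 - u' i)

/-- mean of the product of experts -/
noncomputable def ex (m0 : ℝ) (S : Finset α) (u u' : α → ℝ) : ℝ :=
  (Rp m0 S u u' - Rm m0 S u u') / (Rp m0 S u u' + Rm m0 S u u')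

theorem ex_congr {a b : ℝ} {S : Finset α} {f f' g g' : α → ℝ} (h : a = b) (h1 : ∀ i ∈ S, f i = g i)
    (h2 : ∀ i ∈ S, f' i = g' i) : ex a S f f' = ex b S g g' := by
  have e1 : Rp a S f f' = Rp b S g g' := by
    unfold Rp
    rw [h, Finset.prod_congr rfl (fun i hi => by rw [h1 i hi, h2 i hi])]
  have e2 : Rm a S f f' = Rm b S g g' := by
    unfold Rm
    rw [h, Finset.prod_congr rfl (fun i hi => by rw [h1 i hi, h2 i hi])]
  unfold ex
  rw [e1, e2]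

variable {m0 : ℝ} {S : Finset α} {u u' : α → ℝ}

theorem Rp_nonneg (hm : |m0| ≤ 1) (hu : ∀ i ∈ S, |u i| ≤ 1) (hu' : ∀ i ∈ S, |u' i| ≤ 1 / 2) : 0 ≤ Rp m0 S u u' := by
  refine mul_nonneg (by linarith [(abs_le.mp hm).1]) (Finset.prod_nonneg (fun i hi => ?_))
  have h1 := (abs_le.mp (hu i hi)).1
  have h2 := (abs_le.mp (hu' i hi)).1
  exact div_nonneg (by linarith) (by linarith)

theorem Rm_nonneg (hm : |m0| ≤ 1) (hu : ∀ i ∈ S, |u i| ≤ 1) (hu' : ∀ i ∈ S, |u' i| ≤ 1 / 2) : 0 ≤ Rm m0 S u u' := by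
  refine mul_nonneg (by linarith [(abs_le.mp hm).2]) (Finset.prod_nonneg (fun i hi => ?_))
  have h1 := (abs_le.mp (hu i hi)).2
  have h2 := (abs_le.mp (hu' i hi)).2
  exact div_nonneg (by linarith) (by linarith)

theorem Rsum_pos (hm : |m0| ≤ 1) (hu : ∀ i ∈ S, |u i| ≤ 1) (hu' : ∀ i ∈ S, |u' i| ≤ 1 / 2)
    (h : (0 < 1 + m0 ∧ ∀ i ∈ S, 0 < 1 + u i) ∨ (0 < 1 - m0 ∧ ∀ i ∈ S, 0 < 1 - u i)) :
    0 < Rp m0 S u u' + Rm m0 S u u' := by
  have hp := Rp_nonneg (m0 := m0) hm hu hu'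
  have hn := Rm_nonneg (m0 := m0) hm hu hu'
  rcases h with ⟨h1, h2⟩ | ⟨h1, h2⟩
  · have : 0 < Rp m0 S u u' := by
      refine mul_pos h1 (Finset.prod_pos (fun i hi => ?_))
      exact div_pos (h2 i hi) (by linarith [(abs_le.mp (hu' i hi)).1])
    linarith
  · have : 0 < Rm m0 S u u' := by
      refine mul_pos h1 (Finset.prod_pos (fun i hi => ?_))
      exact div_pos (h2 i hi) (by linarith [(abs_le.mp (hu' i hi)).2])
    linarith

/-- one more factor -/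
theorem step_abs_le {x y p n B : ℝ} (hx : 0 ≤ x) (hy : 0 ≤ y) (hp : 0 ≤ p) (hn : 0 ≤ n) (hxy : 0 < x + y)
    (hpn : 0 < p + n) {a : ℝ} (h : |x - y| ≤ a * (x + y)) (h' : |p - n| ≤ B * (p + n)) :
    |x * p - y * n| ≤ (a + B) * (x * p + y * n) := by
  set q := (x - y) / (x + y) with hq
  set v := (p - n) / (p + n) with hv
  have hq1 : |q| ≤ 1 := by
    rw [hq, abs_div, abs_of_pos hxy, div_le_one hxy, abs_le]; constructor <;> linarith
  have hv1 : |v| ≤ 1 := by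
    rw [hv, abs_div, abs_of_pos hpn, div_le_one hpn, abs_le]; constructor <;> linarith
  have hqa : |q| ≤ a := by
    rw [hq, abs_div, abs_of_pos hxy, div_le_iff₀ hxy]; exact h
  have hvB : |v| ≤ B := by
    rw [hv, abs_div, abs_of_pos hpn, div_le_iff₀ hpn]; exact h'
  have eq : q * (x + y) = x - y := by rw [hq]; field_simp
  have ev : v * (p + n) = p - n := by rw [hv]; field_simp
  have e1 : x * p - y * n = (q + v) * ((x + y) * (p + n) / 2) := by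
    have : (q + v) * ((x + y) * (p + n) / 2) = ((q * (x + y)) * (p + n) + (v * (p + n)) * (x + y)) / 2 := by ring
    rw [this, eq, ev]; ring
  have e2 : x * p + y * n = (1 + q * v) * ((x + y) * (p + n) / 2) := by
    have : (1 + q * v) * ((x + y) * (p + n) / 2) =
      ((x + y) * (p + n) + (q * (x + y)) * (v * (p + n))) / 2 := by ring
    rw [this, eq, ev]; ring
  have hW : 0 < (x + y) * (p + n) / 2 := by positivity
  have hqv : 0 ≤ 1 + q * v := by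
    have := abs_le.mp (show |q * v| ≤ 1 by rw [abs_mul]; exact mul_le_one₀ hq1 (abs_nonneg _) hv1)
    linarith [this.1]
  rw [e1, e2, abs_mul, abs_of_pos hW, ← mul_assoc]
  refine mul_le_mul_of_nonneg_right ?_ hW.le
  exact (cmb_abs_le hq1 hv1).trans (mul_le_mul_of_nonneg_right (add_le_add hqa hvB) hqv)

theorem ratio_abs_le {x y : ℝ} (hx : |x| ≤ 1) (hy : |y| ≤ 1 / 2) :
    0 ≤ (1 + x) / (1 + y) ∧ 0 ≤ (1 - x) / (1 - y) ∧ 0 < (1 + x) / (1 + y) + (1 - x) / (1 - y) ∧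
      |(1 + x) / (1 + y) - (1 - x) / (1 - y)| ≤ 2 * |x - y| * ((1 + x) / (1 + y) + (1 - x) / (1 - y)) := by
  obtain ⟨x1, x2⟩ := abs_le.mp hx
  obtain ⟨y1, y2⟩ := abs_le.mp hy
  have h1 : 0 < 1 + y := by linarith
  have h2 : 0 < 1 - y := by linarith
  have hxy : |x * y| ≤ 1 / 2 := by
    rw [abs_mul]
    calc |x| * |y| ≤ 1 * (1 / 2) := mul_le_mul hx hy (abs_nonneg _) zero_le_one
      _ = 1 / 2 := one_mul _
  obtain ⟨z1, z2⟩ := abs_le.mp hxy
  have es : (1 + x) / (1 + y) + (1 - x) / (1 - y) = 2 * (1 - x * y) / ((1 + y) * (1 - y)) := by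
    field_simp; ring
  have ed : (1 + x) / (1 + y) - (1 - x) / (1 - y) = 2 * (x - y) / ((1 + y) * (1 - y)) := by
    field_simp; ring
  have hd : 0 < (1 + y) * (1 - y) := mul_pos h1 h2
  refine ⟨div_nonneg (by linarith) h1.le, div_nonneg (by linarith) h2.le, ?_, ?_⟩
  · rw [es]; exact div_pos (by linarith) hd
  · rw [es, ed, abs_div, abs_of_pos hd, ← mul_div_assoc, abs_mul, abs_of_pos (by norm_num : (0:ℝ) < 2)]
    refine div_le_div_of_nonneg_right ?_ hd.le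
    nlinarith [abs_nonneg (x - y), mul_nonneg (abs_nonneg (x - y)) (by linarith : (0:ℝ) ≤ 1 - x * y - 1 / 2)]

theorem R_abs_le (hm : |m0| ≤ 1) (hu : ∀ i ∈ S, |u i| ≤ 1) (hu' : ∀ i ∈ S, |u' i| ≤ 1 / 2)
    (h : (0 < 1 + m0 ∧ ∀ i ∈ S, 0 < 1 + u i) ∨ (0 < 1 - m0 ∧ ∀ i ∈ S, 0 < 1 - u i)) :
    |Rp m0 S u u' - Rm m0 S u u'| ≤ (|m0| + 2 * ∑ i ∈ S, |u i - u' i|) * (Rp m0 S u u' + Rm m0 S u u') := by
  classical
  induction S using Finset.induction_on with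
  | empty =>
    simp only [Rp, Rm, Finset.prod_empty, mul_one, Finset.sum_empty, mul_zero, add_zero]
    have e1 : (1 + m0) - (1 - m0) = 2 * m0 := by ring
    have e2 : |m0| * ((1 + m0) + (1 - m0)) = 2 * |m0| := by ring
    rw [e1, e2, abs_mul, abs_of_pos (by norm_num : (0:ℝ) < 2)]
  | insert i S hi ih =>
    have hu1 : ∀ j ∈ S, |u j| ≤ 1 := fun j hj => hu j (Finset.mem_insert_of_mem hj)
    have hu2 : ∀ j ∈ S, |u' j| ≤ 1 / 2 := fun j hj => hu' j (Finset.mem_insert_of_mem hj)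
    have h2 : (0 < 1 + m0 ∧ ∀ i ∈ S, 0 < 1 + u i) ∨ (0 < 1 - m0 ∧ ∀ i ∈ S, 0 < 1 - u i) := by
      rcases h with ⟨a, b⟩ | ⟨a, b⟩
      · exact Or.inl ⟨a, fun j hj => b j (Finset.mem_insert_of_mem hj)⟩
      · exact Or.inr ⟨a, fun j hj => b j (Finset.mem_insert_of_mem hj)⟩
    have ih' := ih hu1 hu2 h2
    have hpos := Rsum_pos (m0 := m0) hm hu1 hu2 h2
    obtain ⟨r1, r2, r3, r4⟩ := ratio_abs_le (hu i (Finset.mem_insert_self i S)) (hu' i (Finset.mem_insert_self i S))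
    have e1 : Rp m0 (insert i S) u u' = Rp m0 S u u' * ((1 + u i) / (1 + u' i)) := by
      unfold Rp; rw [Finset.prod_insert hi]; ring
    have e2 : Rm m0 (insert i S) u u' = Rm m0 S u u' * ((1 - u i) / (1 - u' i)) := by
      unfold Rm; rw [Finset.prod_insert hi]; ring
    rw [e1, e2, Finset.sum_insert hi]
    have hS0 : 0 ≤ ∑ j ∈ S, |u j - u' j| := Finset.sum_nonneg (fun j _ => abs_nonneg _)
    have := step_abs_le (Rp_nonneg hm hu1 hu2) (Rm_nonneg hm hu1 hu2) r1 r2 hpos r3 ih' r4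
    refine this.trans (le_of_eq ?_)
    ring

theorem ex_abs_le (hm : |m0| ≤ 1) (hu : ∀ i ∈ S, |u i| ≤ 1) (hu' : ∀ i ∈ S, |u' i| ≤ 1 / 2)
    (h : (0 < 1 + m0 ∧ ∀ i ∈ S, 0 < 1 + u i) ∨ (0 < 1 - m0 ∧ ∀ i ∈ S, 0 < 1 - u i)) :
    |ex m0 S u u'| ≤ |m0| + 2 * ∑ i ∈ S, |u i - u' i| := by
  have hpos := Rsum_pos (m0 := m0) hm hu hu' h
  unfold ex
  rw [abs_div, abs_of_pos hpos, div_le_iff₀ hpos]
  exact R_abs_le hm hu hu' h

theorem ex_abs_le_one (hm : |m0| ≤ 1) (hu : ∀ i ∈ S, |u i| ≤ 1) (hu' : ∀ i ∈ S, |u' i| ≤ 1 / 2)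
    (h : (0 < 1 + m0 ∧ ∀ i ∈ S, 0 < 1 + u i) ∨ (0 < 1 - m0 ∧ ∀ i ∈ S, 0 < 1 - u i)) :
    |ex m0 S u u'| ≤ 1 := by
  have hpos := Rsum_pos (m0 := m0) hm hu hu' h
  have hp := Rp_nonneg (m0 := m0) hm hu hu'
  have hn := Rm_nonneg (m0 := m0) hm hu hu'
  unfold ex
  rw [abs_div, abs_of_pos hpos, div_le_one hpos, abs_le]
  constructor <;> linarith

theorem one_add_ex (hpos : 0 < Rp m0 S u u' + Rm m0 S u u') :
    1 + ex m0 S u u' = 2 * Rp m0 S u u' / (Rp m0 S u u' + Rm m0 S u u') := by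
  unfold ex; field_simp; ring

theorem one_sub_ex (hpos : 0 < Rp m0 S u u' + Rm m0 S u u') :
    1 - ex m0 S u u' = 2 * Rm m0 S u u' / (Rp m0 S u u' + Rm m0 S u u') := by
  unfold ex; field_simp; ring

/-- the digit which has happened has positive probability in the product of experts -/
theorem one_add_mul_ex_pos {D : ℝ} (hD : D = 1 ∨ D = -1) (hm : |m0| ≤ 1) (hu : ∀ i ∈ S, |u i| ≤ 1)
    (hu' : ∀ i ∈ S, |u' i| ≤ 1 / 2) (hDm : 0 < 1 + D * m0) (hDu : ∀ i ∈ S, 0 < 1 + D * u i) :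
    0 < 1 + D * ex m0 S u u' := by
  rcases hD with rfl | rfl
  · have h : (0 < 1 + m0 ∧ ∀ i ∈ S, 0 < 1 + u i) := ⟨by linarith, fun i hi => by linarith [hDu i hi]⟩
    have hpos := Rsum_pos (m0 := m0) hm hu hu' (Or.inl h)
    rw [one_mul, one_add_ex hpos]
    have : 0 < Rp m0 S u u' := by
      refine mul_pos h.1 (Finset.prod_pos (fun i hi => ?_))
      exact div_pos (h.2 i hi) (by linarith [(abs_le.mp (hu' i hi)).1])
    positivity
  · have h : (0 < 1 - m0 ∧ ∀ i ∈ S, 0 < 1 - u i) := ⟨by linarith, fun i hi => by linarith [hDu i hi]⟩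
    have hpos := Rsum_pos (m0 := m0) hm hu hu' (Or.inr h)
    have e : (1 : ℝ) + -1 * ex m0 S u u' = 1 - ex m0 S u u' := by ring
    rw [e, one_sub_ex hpos]
    have : 0 < Rm m0 S u u' := by
      refine mul_pos h.1 (Finset.prod_pos (fun i hi => ?_))
      exact div_pos (h.2 i hi) (by linarith [(abs_le.mp (hu' i hi)).2])
    positivity

/-- `|q| ≤ |m0| + 2 ∑ |d i|` squared -/
theorem sq_le_of_abs {q : ℝ} {d : α → ℝ} (h : |q| ≤ |m0| + 2 * ∑ i ∈ S, |d i|) :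
    q ^ 2 ≤ 8 * (S.card + 1) * (m0 ^ 2 + ∑ i ∈ S, d i ^ 2) := by
  have hc : (∑ i ∈ S, |d i|) ^ 2 ≤ S.card * ∑ i ∈ S, d i ^ 2 := by
    have := sq_sum_le_card_mul_sum_sq (s := S) (f := fun i => |d i|)
    simpa [sq_abs] using this
  have hQ : 0 ≤ ∑ i ∈ S, d i ^ 2 := Finset.sum_nonneg (fun i _ => sq_nonneg _)
  have h1 : q ^ 2 ≤ (|m0| + 2 * ∑ i ∈ S, |d i|) ^ 2 := by
    rw [← sq_abs q]
    exact pow_le_pow_left₀ (abs_nonneg _) h 2
  have hn : (0:ℝ) ≤ S.card := Nat.cast_nonneg _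
  have h2 : (|m0| + 2 * ∑ i ∈ S, |d i|) ^ 2 ≤ 2 * m0 ^ 2 + 8 * (∑ i ∈ S, |d i|) ^ 2 := by
    have h3 := sq_nonneg (|m0| - 2 * ∑ i ∈ S, |d i|)
    have e : m0 ^ 2 = |m0| ^ 2 := (sq_abs m0).symm
    rw [e]
    nlinarith
  have h4 : 0 ≤ m0 ^ 2 := sq_nonneg m0
  have h5 := mul_nonneg hn h4
  nlinarith

end Real

section Prob

variable {Om : Type*} [Fintype Om] (P : FP Om) {κ : Type*} {α : Type*} {A : Om → κ} {D : Om → ℝ} {S : Finset α}
  {m0 : Om → ℝ} {u u' : α → Om → ℝ} {G : Om → Prop}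

/-- `E 1_G (b - ex) ^ 2 ≤ 2 E 1_G (log (1 + D b) - log (1 + D ex))`, `G` an event of `A` on which all `|u' i| ≤ 1/2` -/
theorem expert_kl (hD : ∀ w, P.p w ≠ 0 → D w = 1 ∨ D w = -1) (fm : Fac A m0) (fu : ∀ i ∈ S, Fac A (u i))
    (fu' : ∀ i ∈ S, Fac A (u' i)) (hG : ∀ v w, A v = A w → (G v ↔ G w)) (hGu : ∀ w, G w → ∀ i ∈ S, |u' i w| ≤ 1 / 2)
    (hm : ∀ w, P.p w ≠ 0 → |m0 w| ≤ 1) (hu : ∀ w, P.p w ≠ 0 → ∀ i ∈ S, |u i w| ≤ 1)
    (hDm : ∀ w, P.p w ≠ 0 → 0 < 1 + D w * m0 w) (hDu : ∀ w, P.p w ≠ 0 → ∀ i ∈ S, 0 < 1 + D w * u i w) :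
    P.E (fun w => ind (G w) * (P.ce A D w - ex (m0 w) S (fun i => u i w) (fun i => u' i w)) ^ 2) ≤
      2 * P.E (fun w => ind (G w) * (Real.log (1 + D w * P.ce A D w) -
        Real.log (1 + D w * ex (m0 w) S (fun i => u i w) (fun i => u' i w)))) := by
  classical
  set b : Om → ℝ := P.ce A D with hb
  set q : Om → ℝ := fun w => ex (m0 w) S (fun i => u i w) (fun i => u' i w) with hq
  set q' : Om → ℝ := fun w => if G w then q w else b w with hq'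
  have hD1 : ∀ w, P.p w ≠ 0 → |D w| ≤ 1 := fun w hw => by
    rcases hD w hw with h | h <;> rw [h] <;> norm_num
  have hsgn : ∀ w, P.p w ≠ 0 → (0 < 1 + m0 w ∧ ∀ i ∈ S, 0 < 1 + u i w) ∨ (0 < 1 - m0 w ∧ ∀ i ∈ S, 0 < 1 - u i w) := by
    intro w hw
    have h1 := hDm w hw
    have h2 := hDu w hw
    rcases hD w hw with h | h
    · rw [h] at h1 h2
      exact Or.inl ⟨by linarith, fun i hi => by linarith [h2 i hi]⟩
    · rw [h] at h1 h2
      exact Or.inr ⟨by linarith, fun i hi => by linarith [h2 i hi]⟩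
  have fq' : Fac A q' := by
    intro v w h
    have e1 : q v = q w :=
      ex_congr (fm v w h) (fun i hi => fu i hi v w h) (fun i hi => fu' i hi v w h)
    have e2 : b v = b w := P.ce_fac A D v w h
    simp only [hq', e1, e2, hG v w h]
  have h1 : ∀ w, P.p w ≠ 0 → |q' w| ≤ 1 := by
    intro w hw
    simp only [hq']
    split_ifs with hg
    · exact ex_abs_le_one (hm w hw) (hu w hw) (hGu w hg) (hsgn w hw)
    · exact P.abs_ce_le_one hD1 A w
  have h2 : ∀ w, P.p w ≠ 0 → 0 < 1 + D w * q' w := by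
    intro w hw
    simp only [hq']
    split_ifs with hg
    · exact one_add_mul_ex_pos (hD w hw) (hm w hw) (hu w hw) (hGu w hg) (hDm w hw) (hDu w hw)
    · exact P.digit_pos hD A hw
  have h3 := P.digit_kl_ge hD fq' h1 h2
  have e1 : P.E (fun w => (b w - q' w) ^ 2) = P.E (fun w => ind (G w) * (b w - q w) ^ 2) := by
    refine P.E_congr (fun w _ => ?_)
    simp only [hq']
    by_cases hg : G w
    · rw [if_pos hg, ind_of hg, one_mul]
    · rw [if_neg hg, ind_not hg]; ring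
  have e2 : P.E (fun w => Real.log (1 + D w * b w) - Real.log (1 + D w * q' w)) =
      P.E (fun w => ind (G w) * (Real.log (1 + D w * b w) - Real.log (1 + D w * q w))) := by
    refine P.E_congr (fun w _ => ?_)
    simp only [hq']
    by_cases hg : G w
    · rw [if_pos hg, ind_of hg, one_mul]
    · rw [if_neg hg, ind_not hg]; ring
  rw [e1, e2] at h3
  exact h3

/-- the square of the bias of the digit, pointwise -/
theorem sq_le_expert (hD : ∀ w, P.p w ≠ 0 → D w = 1 ∨ D w = -1)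
    (hm : ∀ w, P.p w ≠ 0 → |m0 w| ≤ 1) (hu : ∀ w, P.p w ≠ 0 → ∀ i ∈ S, |u i w| ≤ 1)
    (hDm : ∀ w, P.p w ≠ 0 → 0 < 1 + D w * m0 w) (hDu : ∀ w, P.p w ≠ 0 → ∀ i ∈ S, 0 < 1 + D w * u i w)
    (hGu : ∀ w, G w → ∀ i ∈ S, |u' i w| ≤ 1 / 2) {w : Om} (hw : P.p w ≠ 0) :
    P.ce A D w ^ 2 ≤
      (2 * (ind (G w) * (P.ce A D w - ex (m0 w) S (fun i => u i w) (fun i => u' i w)) ^ 2) +
        ind (¬ G w ∧ ∀ i ∈ S, |u' i w| ≤ 1 / 2)) +
      (16 * (S.card + 1) * m0 w ^ 2 +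
        ∑ i ∈ S, (ind (¬ |u' i w| ≤ 1 / 2) + 16 * (S.card + 1) * (u i w - u' i w) ^ 2)) := by
  have hD1 : ∀ w, P.p w ≠ 0 → |D w| ≤ 1 := fun w hw => by
    rcases hD w hw with h | h <;> rw [h] <;> norm_num
  have hb1 : P.ce A D w ^ 2 ≤ 1 := by
    have := P.abs_ce_le_one hD1 A w
    rw [← sq_abs]
    exact pow_le_one₀ (abs_nonneg _) this
  have hn : (0:ℝ) ≤ 16 * (S.card + 1) := by positivity
  have hs1 : 0 ≤ ∑ i ∈ S, (ind (¬ |u' i w| ≤ 1 / 2) + 16 * ((S.card:ℝ) + 1) * (u i w - u' i w) ^ 2) :=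
    Finset.sum_nonneg (fun i _ => add_nonneg (ind_nonneg _) (mul_nonneg hn (sq_nonneg _)))
  have hm2 : 0 ≤ 16 * ((S.card:ℝ) + 1) * m0 w ^ 2 := mul_nonneg hn (sq_nonneg _)
  by_cases hg : G w
  · rw [ind_of hg, one_mul, ind_not (fun h : ¬ G w ∧ ∀ i ∈ S, |u' i w| ≤ 1 / 2 => h.1 hg)]
    set q := ex (m0 w) S (fun i => u i w) (fun i => u' i w) with hq
    have hsgn : (0 < 1 + m0 w ∧ ∀ i ∈ S, 0 < 1 + u i w) ∨ (0 < 1 - m0 w ∧ ∀ i ∈ S, 0 < 1 - u i w) := by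
      have h1 := hDm w hw
      have h2 := hDu w hw
      rcases hD w hw with h | h
      · rw [h] at h1 h2
        exact Or.inl ⟨by linarith, fun i hi => by linarith [h2 i hi]⟩
      · rw [h] at h1 h2
        exact Or.inr ⟨by linarith, fun i hi => by linarith [h2 i hi]⟩
    have h1 := ex_abs_le (hm w hw) (hu w hw) (hGu w hg) hsgn
    have h2 := sq_le_of_abs (m0 := m0 w) (S := S) (q := q) (d := fun i => u i w - u' i w) h1
    have h3 : P.ce A D w ^ 2 ≤ 2 * (P.ce A D w - q) ^ 2 + 2 * q ^ 2 := by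
      nlinarith [sq_nonneg (P.ce A D w - q - q)]
    have h4 : ∑ i ∈ S, 16 * ((S.card:ℝ) + 1) * (u i w - u' i w) ^ 2 ≤
        ∑ i ∈ S, (ind (¬ |u' i w| ≤ 1 / 2) + 16 * ((S.card:ℝ) + 1) * (u i w - u' i w) ^ 2) :=
      Finset.sum_le_sum (fun i _ => by have := ind_nonneg (¬ |u' i w| ≤ 1 / 2); linarith)
    rw [← Finset.mul_sum] at h4
    nlinarith
  · by_cases hall : ∀ i ∈ S, |u' i w| ≤ 1 / 2
    · rw [ind_not hg, ind_of (⟨hg, hall⟩ : ¬ G w ∧ ∀ i ∈ S, |u' i w| ≤ 1 / 2)]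
      linarith
    · push Not at hall
      obtain ⟨i, hi, h⟩ := hall
      have h5 : 1 ≤ ∑ i ∈ S, (ind (¬ |u' i w| ≤ 1 / 2) + 16 * ((S.card:ℝ) + 1) * (u i w - u' i w) ^ 2) := by
        have h6 : ind (¬ |u' i w| ≤ 1 / 2) + 16 * ((S.card:ℝ) + 1) * (u i w - u' i w) ^ 2 ≤
            ∑ i ∈ S, (ind (¬ |u' i w| ≤ 1 / 2) + 16 * ((S.card:ℝ) + 1) * (u i w - u' i w) ^ 2) :=
          Finset.single_le_sum (f := fun i => ind (¬ |u' i w| ≤ 1 / 2) + 16 * ((S.card:ℝ) + 1) * (u i w - u' i w) ^ 2)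
            (fun i _ => add_nonneg (ind_nonneg _) (mul_nonneg hn (sq_nonneg _))) hi
        rw [ind_of (not_le.mpr h)] at h6
        have := mul_nonneg hn (sq_nonneg (u i w - u' i w))
        linarith
      have h7 : 0 ≤ ind (G w) * (P.ce A D w - ex (m0 w) S (fun i => u i w) (fun i => u' i w)) ^ 2 :=
        mul_nonneg (ind_nonneg _) (sq_nonneg _)
      have h8 := ind_nonneg (¬ G w ∧ ∀ i ∈ S, |u' i w| ≤ 1 / 2)
      linarith

/-- Markov -/
theorem E_ind_half_le {f : Om → ℝ} : P.E (fun w => ind (¬ |f w| ≤ 1 / 2)) ≤ 4 * P.E (fun w => f w ^ 2) := by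
  rw [← FP.E_smul]
  refine P.E_mono (fun w _ => ?_)
  by_cases h : |f w| ≤ 1 / 2
  · rw [ind_not (not_not.mpr h)]; positivity
  · rw [ind_of h]
    have h1 : 1 / 2 < |f w| := not_le.mp h
    have h2 : (1 / 2) ^ 2 ≤ |f w| ^ 2 := pow_le_pow_left₀ (by norm_num) h1.le 2
    rw [sq_abs] at h2
    linarith

end Prob

end Pool.Agent.GM
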