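import Pool.Agent.GM.PieceDef
import Pool.Agent.GM.MovTail

/-!
# GM/FineDef (helper21): the contract of a PIECE AFTER THE REFINEMENT (row A2 of the assembly plan)

`near ≤ exp (-H ^ c)` : the rounding is finer than every size of the names.  A refinement keeps everything on the path
(numbers of moves, lists, public births) but not the mean number of future moves from every STATE; so
* `GS.BLT` : as `GS.BL`; `m` bounds the tail of the list only (`fut` with the big number `M`);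
* `GS.FacesT` : as `GS.Faces`; number of moves on the path: `mean ≤ m`, `tail : MvTail (F w) m`; `fut` with `M`;
* `GS.StrT`, `GS.FineAt`, **`GS.FineBin j κ c C Cd`**; `Cd : ColdF` = a property of the faces which is proved BEFORE the
  refinement (`ColdC j C1 Cd`, coldness) and passes to the lifted faces (`ColdL c Cd`).
`GM/Ref` : `ColdL c Cd → ColdC j C1 Cd → FineBin j κ c C Cd → ∃ C', PieceBin j (κ / 2) C'`.
-/

set_option autoImplicit false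
set_option linter.unusedSectionVars false

namespace Pool.Agent.GM.GS

open Finset Pool.Agent.PWZ Pool.Agent.M3 Pool.Agent.M3.TS Pool.Agent.M3.Bin Pool.Agent.GM Pool.Agent.GM.Mv

noncomputable section

variable {ι Om Ξ Pt V Γ κ : Type} [Fintype ι] [DecidableEq ι] [Fintype Om] [Fintype Ξ] [Fintype Pt]
  [Fintype V] (S : Sys ι Om Ξ Pt V Γ κ) (Vj : Finset ι)

/-- a cumulative list of births of the face `q` after the refinement -/
structure BLT (q : ι) (m M T : ℝ) where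
  L : Mov Ξ ι Pt Γ (List (Birth (TJs Pt V Vj q → Bool)))
  B : Mov Ξ ι Pt Γ (Finset (Birth (TJs Pt V Vj q → Bool)))
  dep : ∀ t g ξ, Dep (univ.erase q) (L t g ξ)
  cell : ∀ t g ξ ξ' (x y : ι → Pt), (∀ i, i ∉ Vj → i ≠ q → y i = x i) →
    (∀ i ∈ Vj, i ≠ q → S.cl t (y i) = S.cl t (x i)) → B t g ξ' y = B t g ξ x
  zero : ∀ g ξ x, L 0 g ξ x = []
  suf : ∀ t g ξ x, L t (S.par t g) ξ x <:+ L (t + 1) g ξ x
  nodup : ∀ t g ξ x, (L t g ξ x).Nodup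
  time : ∀ t g ξ x, ∀ s ∈ L t g ξ x, s.t ≤ t
  btime : ∀ t g ξ x, ∀ s ∈ B t g ξ x, s.t = t
  new : ∀ t g ξ x, ∀ s ∈ L (t + 1) g ξ x, s ∈ L t (S.par t g) ξ x ∨ s ∈ B (t + 1) g ξ x
  /-- from every state: only the big number `M` -/
  fut : S.Future (univ.erase q) L M
  tail : ∀ k : ℕ, S.P.Pr (fun ω => (k : ℝ) * m ≤ (S.at' L S.n ω).length) ≤ (1 / 2) ^ k
  pub : S.P.E (fun ω => ∑ t ∈ range (S.n + 1), ((S.at' B t ω).card : ℝ)) ≤ T

/-- **the faces of a piece after the refinement** -/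
structure FacesT (δ : ι) (F : ι → Mov Ξ ι Pt Γ (V → ℝ)) (m M θ acc : ℝ) : Prop where
  dep : ∀ w ∈ Vj, ∀ t g ξ, Dep (univ.erase w) (F w t g ξ)
  coin : ∀ w ∈ Vj, w ≠ δ → ∀ t g ξ ξ', F w t g ξ = F w t g ξ'
  bd : ∀ w ∈ Vj, ∀ t g ξ x d, |F w t g ξ x d| ≤ 1
  zero : ∀ w ∈ Vj, ∀ g ξ x, F w 0 g ξ x = 0
  /-- from every state: only the big number `M` -/
  fut : ∀ w ∈ Vj, S.Future (univ.erase w) (F w) M
  /-- number of moves on the path -/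
  tail : ∀ w ∈ Vj, S.MvTail (F w) m
  mean : ∀ w ∈ Vj, S.P.E (S.nmv (F w) S.n) ≤ m
  rare : ∀ w ∈ Vj, S.Rare Vj w (F w) θ acc

/-- **the structured face `q` of a piece after the refinement** -/
structure StrT (δ q : ι) (F : Mov Ξ ι Pt Γ (V → ℝ)) (m M T : ℝ) where
  e0 : ℝ
  e1 : ℝ
  pe0 : 1 / m ≤ e0
  pe1 : 1 / m ≤ e1
  b0 : BLT S Vj q m M T
  b1 : BLT S Vj q m M T
  coin0 : q ≠ δ → ∀ t g ξ ξ', b0.L t g ξ = b0.L t g ξ'
  coin1 : q ≠ δ → ∀ t g ξ ξ', b1.L t g ξ = b1.L t g ξ'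
  eq : ∀ t g ξ x d, F t g ξ x d =
    (psi e1 (mvals Vj q (b1.L t g ξ x) x d) - psi e0 (mvals Vj q (b0.L t g ξ x) x d)) / 4

/-- the statement of one piece after the refinement; `Cd` = a property of the faces which was proved before the
refinement (coldness) -/
def FineAt (δ q : ι) (m M T θ acc r out : ℝ) (Cd : (ι → Mov Ξ ι Pt Γ (V → ℝ)) → Prop) : Prop :=
  ∀ F : ι → Mov Ξ ι Pt Γ (V → ℝ), FacesT S Vj δ F m M θ acc → Nonempty (StrT S Vj δ q (F q) m M T) → Cd F →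
    S.P.Pr (fun ω => ∃ t ≤ S.n, r ≤ |iw (S.J t ω) (fun d => ∏ i ∈ Vj, S.at' (F i) t ω d) (fun _ => 1)|) ≤ out

end

/-- a property of the faces of all binary models (coldness): parameters `h` (rounding), `β`, `H` -/
abbrev ColdF : Type 1 :=
  ∀ (ι Θ Ξ Q : Type) [Fintype ι] [DecidableEq ι] [Fintype Θ] [Nonempty Θ] [Fintype Ξ] [Nonempty Ξ] [Fintype Q]
    [Nonempty Q] (k N : ℕ) (_ : Bin.V k) (_ _ _ : ι) (_ : N ≤ k) (_ : ℕ) (_ _ : ℝ),
    (ι → Mov Ξ ι (Q × Bin.V k) (Θ × (Bin.V k × ℕ)) (Bin.V k → ℝ)) → Prop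

/-- the property is proved in the coarse model, for all faces of a piece -/
def ColdC (j C : ℕ) (Cd : ColdF) : Prop :=
  ∀ (ι Θ Ξ Q : Type) [Fintype ι] [DecidableEq ι] [Fintype Θ] [Nonempty Θ] [Fintype Ξ] [Nonempty Ξ] [Fintype Q]
    [Nonempty Q] (k N : ℕ) (σ : Bin.V k) (i δ q : ι) (hN : N ≤ k) (h : ℕ), Fintype.card ι = j →
    ∀ β H Λ : ℝ, 0 < β → β ≤ 1 / 2 → 1 / β ≤ H → (binSys Θ Ξ Q σ i hN h).K ≤ Real.exp H →
      (binSys Θ Ξ Q σ i hN h).near ≤ β ^ C → H ^ C ≤ Λ → Λ ≤ Real.exp H →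
      ∀ F : ι → Mov Ξ ι (Q × Bin.V k) (Θ × (Bin.V k × ℕ)) (Bin.V k → ℝ),
        Faces (binSys Θ Ξ Q σ i hN h) univ δ F H (Real.exp (-Λ)) (β ^ C) → Cd ι Θ Ξ Q k N σ i δ q hN h β H F

/-- the property passes to the lifted faces (rounding `h + D`, `2 ^ D ≤ exp (3 H ^ c)`) -/
def ColdL (c : ℕ) (Cd : ColdF) : Prop :=
  ∀ (ι Θ Ξ Q : Type) [Fintype ι] [DecidableEq ι] [Fintype Θ] [Nonempty Θ] [Fintype Ξ] [Nonempty Ξ] [Fintype Q]
    [Nonempty Q] (k N : ℕ) (σ : Bin.V k) (i δ q : ι) (hN : N ≤ k) (h D : ℕ) (β H : ℝ), (2 : ℝ) ^ D ≤ Real.exp (3 * H ^ c) →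
    ∀ F : ι → Mov Ξ ι (Q × Bin.V k) (Θ × (Bin.V k × ℕ)) (Bin.V k → ℝ), Cd ι Θ Ξ Q k N σ i δ q hN h β H F →
      Cd ι Θ Ξ Q k N σ i δ q hN (h + D) β H (fun w => liftM (cgB N h) (F w))

/-- **THE CONTRACT AFTER THE REFINEMENT**: `near ≤ exp (-H ^ c)`, `K ≤ exp (H ^ (c + 2))`, numbers on the path `4 H`,
from every state `exp (H ^ (c + 2))`; rarity `exp (-Λ)` at `β ^ C`, mean number of public births `≤ H exp ((1 + κ) Λ)`;
`Cd` = coldness, given -/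
def FineBin (j : ℕ) (κ : ℝ) (c C : ℕ) (Cd : ColdF) : Prop :=
  ∀ (ι Θ Ξ Q : Type) [Fintype ι] [DecidableEq ι] [Fintype Θ] [Nonempty Θ] [Fintype Ξ] [Nonempty Ξ] [Fintype Q]
    [Nonempty Q] (k N : ℕ) (σ : Bin.V k) (i δ q : ι) (hN : N ≤ k) (h : ℕ), Fintype.card ι = j →
    ∀ β H Λ : ℝ, 0 < β → β ≤ 1 / 2 → 1 / β ≤ H → (binSys Θ Ξ Q σ i hN h).K ≤ Real.exp (H ^ (c + 2)) →
      (binSys Θ Ξ Q σ i hN h).near ≤ Real.exp (-H ^ c) → H ^ C ≤ Λ → Λ ≤ Real.exp H →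
      FineAt (binSys Θ Ξ Q σ i hN h) univ δ q (4 * H) (Real.exp (H ^ (c + 2))) (H * Real.exp ((1 + κ) * Λ))
        (Real.exp (-Λ)) (β ^ C) β (Real.exp (-H)) (Cd ι Θ Ξ Q k N σ i δ q hN h β H)

end Pool.Agent.GM.GS
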