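import Pool.Agent.GM.Model

/-!
# GM/Fix : fixing the vertices of a set `E` (helper11)

The model with the vertices `{i // i ∉ E}` and the offset `s + ∑ i ∈ E, p i` is the model with the vertices `ι` and the
offset `s` at the exact values `p i`, `i ∈ E`.

* `ins E p x`, `insw E p ω` : insertion of the exact values; `offE s E p` : the new offset;
* `vx_insw`, `ctr_insw`, `Yn_insw`, `Gm_insw`, `Zn_insw`, `nz_insw`, `th_insw`;
* `resF E p R` : a family at the exact values; `fv_insw`, `TT_insw` (the fixed faces are one factor);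
* `ce_fix` : conditional expectation at the exact values = expectation in the small model; `E_fix` : total expectation.
-/

set_option autoImplicit false
set_option linter.unusedSectionVars false

namespace Pool.Agent.GM

open Finset Pool.Agent.PWZ Pool.Agent.M3 Pool.Agent.M3.Bin
open Pool.Agent.M3.Mod (ex nd av dl pnd SC cel ce_unif_image)

noncomputable section

variable {k N : ℕ} {ι Θ P : Type} [Fintype ι] [DecidableEq ι] (s : V k)

/-- the vertices outside `E` -/
abbrev Out (E : Finset ι) : Type := {i : ι // i ∉ E}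

/-- insertion of the exact values of the vertices of `E` -/
def ins (E : Finset ι) (p : ι → P × V k) (x : Out E → P × V k) : ι → P × V k :=
  fun i => if h : i ∈ E then p i else x ⟨i, h⟩

/-- the sample point with exact values `p` on `E` -/
def insw (E : Finset ι) (p : ι → P × V k) (ω : Sq k N (Out E) Θ P) : Sq k N ι Θ P :=
  (ω.1, ins E p ω.2.1, ω.2.2)

/-- the offset of the small model -/
def offE (E : Finset ι) (p : ι → P × V k) : V k := s + ∑ i ∈ E, (p i).2

/-- restriction to the vertices outside `E` -/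
def outw (E : Finset ι) (ω : Sq k N ι Θ P) : Sq k N (Out E) Θ P := (ω.1, fun i => ω.2.1 i.1, ω.2.2)

theorem ins_in {E : Finset ι} {p : ι → P × V k} {x : Out E → P × V k} {i : ι} (h : i ∈ E) : ins E p x i = p i := by
  unfold ins
  rw [dif_pos h]

theorem ins_out {E : Finset ι} {p : ι → P × V k} {x : Out E → P × V k} (i : Out E) : ins E p x i.1 = x i := by
  unfold ins
  rw [dif_neg i.2]

theorem vs_insw (E : Finset ι) (p : ι → P × V k) (ω : Sq k N (Out E) Θ P) : vs (insw E p ω) = ins E p (vs ω) := rfl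

theorem nz_insw (E : Finset ι) (p : ι → P × V k) (ω : Sq k N (Out E) Θ P) : nz (insw E p ω) = nz ω := rfl

theorem th_insw (E : Finset ι) (p : ι → P × V k) (ω : Sq k N (Out E) Θ P) : th (insw E p ω) = th ω := rfl

theorem vx_insw_in {E : Finset ι} (p : ι → P × V k) (ω : Sq k N (Out E) Θ P) {i : ι} (h : i ∈ E) :
    vx i (insw E p ω) = p i := ins_in h

theorem vx_insw_out {E : Finset ι} (p : ι → P × V k) (ω : Sq k N (Out E) Θ P) (i : Out E) :
    vx i.1 (insw E p ω) = vx i ω := ins_out i

theorem Dg_insw (E : Finset ι) (p : ι → P × V k) (e : ℕ) (ω : Sq k N (Out E) Θ P) : Dg e (insw E p ω) = Dg e ω := rfl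

theorem ctr_insw (E : Finset ι) (p : ι → P × V k) (ω : Sq k N (Out E) Θ P) :
    ctr s (insw E p ω) = ctr (offE s E p) ω := by
  unfold ctr offE
  have h1 : ∑ i, (vx i (insw E p ω)).2 = ∑ i ∈ E, (p i).2 + ∑ i : Out E, (vx i ω).2 := by
    rw [← Finset.sum_filter_add_sum_filter_not univ (fun i => i ∈ E)]
    congr 1
    · rw [Finset.filter_mem_eq_inter, Finset.univ_inter]
      exact Finset.sum_congr rfl fun i hi => by rw [vx_insw_in p ω hi]
    · rw [Finset.sum_subtype (p := fun i => i ∉ E) (univ.filter fun i => i ∉ E) (by simp)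
        (fun i => (vx i (insw E p ω)).2)]
      exact (Finset.sum_congr rfl fun i _ => by rw [vx_insw_out p ω i])
  rw [h1]
  abel

theorem Yn_insw (E : Finset ι) (p : ι → P × V k) (e : ℕ) (ω : Sq k N (Out E) Θ P) :
    Yn s e (insw E p ω) = Yn (offE s E p) e ω := by
  unfold Yn
  rw [ctr_insw, nz_insw]

theorem Gm_insw (E : Finset ι) (p : ι → P × V k) (h e : ℕ) (ω : Sq k N (Out E) Θ P) :
    Gm s h e (insw E p ω) = Gm (offE s E p) h e ω := by
  unfold Gm
  rw [ctr_insw, nz_insw]

theorem Zn_insw {E : Finset ι} (p : ι → P × V k) (e : ℕ) (ω : Sq k N (Out E) Θ P) (i : Out E) :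
    Zn i.1 e (insw E p ω) = Zn i e ω := by
  unfold Zn
  rw [vx_insw_out, nz_insw]

theorem sc_insw {E : Finset ι} (p : ι → P × V k) (h e : ℕ) (ω : Sq k N (Out E) Θ P) (i : Out E) :
    sc h e i.1 (insw E p ω) = sc h e i ω := by
  unfold sc
  rw [vx_insw_out]

/-- a family at the exact values `p` -/
def resF (E : Finset ι) (p : ι → P × V k) (R : Fam k ι P) : Fam k (Out E) P := fun e g x d => R e g (ins E p x) d

theorem fv_insw (E : Finset ι) (p : ι → P × V k) (h : ℕ) (R : Fam k ι P) (e : ℕ) (ω : Sq k N (Out E) Θ P) :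
    fv s h R e (insw E p ω) = fv (offE s E p) h (resF E p R) e ω := by
  unfold fv resF
  rw [Gm_insw, vs_insw]

theorem resF_on {E : Finset ι} (p : ι → P × V k) {I : Set ι} {R : Fam k ι P} (hR : FOn I R) :
    FOn {i : Out E | i.1 ∈ I} (resF E p R) := by
  intro e g x y hxy
  refine hR e g fun i hi => ?_
  by_cases h : i ∈ E
  · rw [ins_in h, ins_in h]
  · have h1 := hxy ⟨i, h⟩ hi
    rw [show i = (⟨i, h⟩ : Out E).1 from rfl, ins_out, ins_out, h1]

/-- the process: the faces of the fixed vertices are one more factor -/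
theorem TT_insw (E : Finset ι) (p : ι → P × V k) (h : ℕ) (R : ι → Fam k ι P) (e : ℕ) (ω : Sq k N (Out E) Θ P) :
    TT s h R e (insw E p ω) = av e (Yn (offE s E p) e ω).1 (fun d =>
      (∏ i ∈ E, fv (offE s E p) h (resF E p (R i)) e ω d) *
        ∏ i : Out E, fv (offE s E p) h (resF E p (R i.1)) e ω d) := by
  unfold TT
  rw [Yn_insw]
  congr 1
  funext d
  simp only [fv_insw]
  rw [← Finset.prod_filter_mul_prod_filter_not univ (fun i => i ∈ E)]
  congr 1
  · rw [Finset.filter_mem_eq_inter, Finset.univ_inter]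
  · rw [Finset.prod_subtype (p := fun i => i ∉ E) (univ.filter fun i => i ∉ E) (by simp)
      (fun i => fv (offE s E p) h (resF E p (R i)) e ω d)]

section law

variable [Fintype Θ] [Nonempty Θ] [Fintype P] [Nonempty P]

/-- CONDITIONAL EXPECTATION AT THE EXACT VALUES of the vertices of `E` -/
theorem ce_fix (E : Finset ι) (f : Sq k N ι Θ P → ℝ) (ω : Sq k N ι Θ P) :
    Pm.ce (fun ω => (fun i : E => vx i.1 ω)) f ω = (Pm : FP (Sq k N (Out E) Θ P)).E (fun v => f (insw E (vs ω) v)) := by
  have h1 : (FP.unif (Sq k N ι Θ P)).ce (fun ω => (fun i : E => vx i.1 ω)) f ω =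
      ((univ : Finset (Sq k N (Out E) Θ P)).card : ℝ)⁻¹ * ∑ v, f (insw E (vs ω) v) := by
    refine ce_unif_image (φ := fun v : Sq k N (Out E) Θ P => insw E (vs ω) v) ?_ ?_ f
    · intro x _ y _ hxy
      have h := congrArg (outw E) hxy
      have h2 : ∀ v : Sq k N (Out E) Θ P, outw E (insw E (vs ω) v) = v := by
        intro v
        refine Prod.ext rfl (Prod.ext ?_ rfl)
        funext i
        exact ins_out i
      rwa [h2, h2] at h
    · intro v
      constructor
      · intro hv
        refine ⟨outw E v, mem_univ _, ?_⟩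
        refine Prod.ext rfl (Prod.ext ?_ rfl)
        funext i
        change ins E (vs ω) (fun i : Out E => v.2.1 i.1) i = v.2.1 i
        by_cases h : i ∈ E
        · rw [ins_in h]
          exact (congrFun hv ⟨i, h⟩).symm
        · exact ins_out (⟨i, h⟩ : Out E)
      · rintro ⟨x, _, rfl⟩
        funext i
        exact vx_insw_in _ _ i.2
  unfold Pm
  rw [h1, FP.unif_E, Finset.card_univ, div_eq_inv_mul]

/-- TOTAL EXPECTATION: first the vertices of `E`, then the small model -/
theorem E_fix (E : Finset ι) (f : Sq k N ι Θ P → ℝ) :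
    (Pm : FP (Sq k N ι Θ P)).E f =
      (Pm : FP (Sq k N ι Θ P)).E (fun ω => (Pm : FP (Sq k N (Out E) Θ P)).E (fun v => f (insw E (vs ω) v))) := by
  rw [← FP.E_ce Pm (fun ω => (fun i : E => vx i.1 ω)) f]
  exact congrArg _ (funext fun ω => ce_fix E f ω)

/-- an event which is rare at all exact values is rare -/
theorem Pr_fix (E : Finset ι) {A : Sq k N ι Θ P → Prop} {q : ℝ}
    (h : ∀ p : ι → P × V k, (Pm : FP (Sq k N (Out E) Θ P)).Pr (fun v => A (insw E p v)) ≤ q) :
    (Pm : FP (Sq k N ι Θ P)).Pr A ≤ q := by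
  unfold FP.Pr
  rw [E_fix E]
  refine FP.E_le_const _ fun ω _ => ?_
  exact h (vs ω)

end law

end

end Pool.Agent.GM
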