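import Pool.Agent.GM.Lift

/-!
# GM/Frz : frozen versions of a moving family, cut families (port of M3/Frz, M3/Cut to every finite set of vertices)

The time `0` (exponent `N`) is a dummy: all functions are zero there, the change from `0` to the value at the time `1`
counts as a change (`fz`, `chE`).
`cnt h N G e g x` = number of changes of `G` along the rounded path from the exponent `N` down to the node `g`
of the exponent `e`; `frz h N v G` = the function which `G` had right after its `v`-th change, frozen from then on,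
`0` before it (`v = 0`: zero for ever).
* `FOn.frz`, `abs_frz`, `fz_frz`, `fv_frz` (the version with the current number is the function), `cn_fac`, `cn_mono`,
  `cn_eq`, `chE_frz` (a version changes only from `0`), `sum_frz` (at most one change);
* `cut h N p G` = the family `G` as long as it has had at most `p` changes, constant afterwards: `FOn.cut`, `abs_cut`,
  `fz_cut`, `sum_cut` (at most `p` changes), `TT_cut`;
* `TT_frz` : the current version of one face of a process.
-/

set_option autoImplicit false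
set_option linter.unusedSectionVars false

namespace Pool.Agent.GM

open Finset Pool.Agent.PWZ Pool.Agent.M3 Pool.Agent.M3.Bin
open Pool.Agent.M3.Mod (ex nd av dl pnd SC cel ex_zero ex_succ ex_top)

noncomputable section

variable {k N : ℕ} {ι Θ P : Type}

/-! ### abstract part: a family along the rounded path -/

/-- the value `n` steps above `e`, zero at the dummy time -/
def gz (G : Fam k ι P) (n e : ℕ) (g : V k × ℕ) (x : ι → P × V k) : V k → ℝ := if n = 0 then 0 else G e g x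

open Classical in
/-- number of changes along the path, `n` steps above `e` -/
def cntA (h : ℕ) (G : Fam k ι P) : ℕ → ℕ → V k × ℕ → (ι → P × V k) → ℕ
  | 0, _, _, _ => 0
  | n + 1, e, g, x => cntA h G n (e + 1) (par h e g) x +
      (if gz G (n + 1) e g x = gz G n (e + 1) (par h e g) x then 0 else 1)

/-- number of changes from the exponent `N` down to `e` -/
def cnt (h N : ℕ) (G : Fam k ι P) (e : ℕ) (g : V k × ℕ) (x : ι → P × V k) : ℕ := cntA h G (N - e) e g x

/-- frozen version, `n` steps above `e` -/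
def frzA (h v : ℕ) (G : Fam k ι P) : ℕ → ℕ → V k × ℕ → (ι → P × V k) → V k → ℝ
  | 0, _, _, _ => 0
  | n + 1, e, g, x =>
      if v ≤ cntA h G n (e + 1) (par h e g) x then frzA h v G n (e + 1) (par h e g) x
      else if v ≤ cntA h G (n + 1) e g x then G e g x else 0

/-- the frozen version with the number `v` -/
def frz (h N v : ℕ) (G : Fam k ι P) : Fam k ι P := fun e g x => frzA h v G (N - e) e g x

/-- the cut family, `n` steps above `e` -/
def cutA (h p : ℕ) (G : Fam k ι P) : ℕ → ℕ → V k × ℕ → (ι → P × V k) → V k → ℝ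
  | 0, _, _, _ => 0
  | n + 1, e, g, x => if cntA h G (n + 1) e g x ≤ p then G e g x else cutA h p G n (e + 1) (par h e g) x

/-- the family cut after its `p`-th change -/
def cut (h N p : ℕ) (G : Fam k ι P) : Fam k ι P := fun e g x => cutA h p G (N - e) e g x

theorem gz_zero (G : Fam k ι P) (e : ℕ) (g : V k × ℕ) (x : ι → P × V k) : gz G 0 e g x = 0 := if_pos rfl

theorem gz_succ (G : Fam k ι P) (n e : ℕ) (g : V k × ℕ) (x : ι → P × V k) : gz G (n + 1) e g x = G e g x :=
  if_neg (Nat.succ_ne_zero n)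

theorem cntA_succ_eq {h : ℕ} {G : Fam k ι P} (n e : ℕ) (g : V k × ℕ) (x : ι → P × V k)
    (hG : gz G (n + 1) e g x = gz G n (e + 1) (par h e g) x) :
    cntA h G (n + 1) e g x = cntA h G n (e + 1) (par h e g) x := by
  rw [cntA, if_pos hG, Nat.add_zero]

theorem cntA_succ_ne {h : ℕ} {G : Fam k ι P} (n e : ℕ) (g : V k × ℕ) (x : ι → P × V k)
    (hG : ¬ gz G (n + 1) e g x = gz G n (e + 1) (par h e g) x) :
    cntA h G (n + 1) e g x = cntA h G n (e + 1) (par h e g) x + 1 := by
  rw [cntA, if_neg hG]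

theorem cntA_mono (h : ℕ) (G : Fam k ι P) (n e : ℕ) (g : V k × ℕ) (x : ι → P × V k) :
    cntA h G n (e + 1) (par h e g) x ≤ cntA h G (n + 1) e g x := by
  rw [cntA]
  exact Nat.le_add_right _ _

theorem frzA_succ_pos {h v : ℕ} {G : Fam k ι P} {n e : ℕ} {g : V k × ℕ} {x : ι → P × V k}
    (hv : v ≤ cntA h G n (e + 1) (par h e g) x) :
    frzA h v G (n + 1) e g x = frzA h v G n (e + 1) (par h e g) x := by
  rw [frzA, if_pos hv]

theorem frzA_zero {h v : ℕ} {G : Fam k ι P} : ∀ {n e : ℕ} {g : V k × ℕ} {x : ι → P × V k},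
    cntA h G n e g x < v → frzA h v G n e g x = 0
  | 0, e, g, x, _ => by rw [frzA]
  | n + 1, e, g, x, hv => by
    have := cntA_mono h G n e g x
    rw [frzA, if_neg (by omega), if_neg (by omega)]

/-- the version with the current number of changes is the function itself -/
theorem frzA_cur (h : ℕ) (G : Fam k ι P) : ∀ (n e : ℕ) (g : V k × ℕ) (x : ι → P × V k),
    frzA h (cntA h G n e g x) G n e g x = gz G n e g x
  | 0, e, g, x => by rw [frzA, gz_zero]
  | n + 1, e, g, x => by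
    by_cases hG : gz G (n + 1) e g x = gz G n (e + 1) (par h e g) x
    · have h1 := cntA_succ_eq n e g x hG
      rw [frzA_succ_pos (by rw [h1]), h1, frzA_cur h G n (e + 1) (par h e g) x, hG]
    · have h1 := cntA_succ_ne n e g x hG
      rw [frzA, if_neg (by omega), if_pos le_rfl, gz_succ]

theorem abs_frzA {h v : ℕ} {G : Fam k ι P} {B : ℝ} (hB : 0 ≤ B) (hG : FLe B G) :
    ∀ (n e : ℕ) (g : V k × ℕ) (x : ι → P × V k) (d : V k), |frzA h v G n e g x d| ≤ B
  | 0, e, g, x, d => by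
    rw [frzA]
    simpa using hB
  | n + 1, e, g, x, d => by
    rw [frzA]
    split_ifs
    · exact abs_frzA hB hG n _ _ _ _
    · exact hG _ _ _ _
    · simpa using hB

theorem abs_frz {h N v : ℕ} {G : Fam k ι P} {B : ℝ} (hB : 0 ≤ B) (hG : FLe B G) : FLe B (frz h N v G) :=
  fun _ _ _ _ => abs_frzA hB hG _ _ _ _ _

theorem cutA_of_le {h p : ℕ} {G : Fam k ι P} : ∀ {n e : ℕ} {g : V k × ℕ} {x : ι → P × V k},
    cntA h G n e g x ≤ p → cutA h p G n e g x = gz G n e g x
  | 0, e, g, x, _ => by rw [cutA, gz_zero]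
  | n + 1, e, g, x, hv => by rw [cutA, if_pos hv, gz_succ]

theorem cutA_of_gt {h p : ℕ} {G : Fam k ι P} {n e : ℕ} {g : V k × ℕ} {x : ι → P × V k}
    (hv : ¬ cntA h G (n + 1) e g x ≤ p) : cutA h p G (n + 1) e g x = cutA h p G n (e + 1) (par h e g) x := by
  rw [cutA, if_neg hv]

theorem abs_cutA {h p : ℕ} {G : Fam k ι P} {B : ℝ} (hB : 0 ≤ B) (hG : FLe B G) :
    ∀ (n e : ℕ) (g : V k × ℕ) (x : ι → P × V k) (d : V k), |cutA h p G n e g x d| ≤ B
  | 0, e, g, x, d => by
    rw [cutA]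
    simpa using hB
  | n + 1, e, g, x, d => by
    rw [cutA]
    split_ifs
    · exact hG _ _ _ _
    · exact abs_cutA hB hG n _ _ _ _

theorem abs_cut {h N p : ℕ} {G : Fam k ι P} {B : ℝ} (hB : 0 ≤ B) (hG : FLe B G) : FLe B (cut h N p G) :=
  fun _ _ _ _ => abs_cutA hB hG _ _ _ _ _

/-! ### dependence on the vertices -/

theorem FOn.cntA {I : Set ι} {G : Fam k ι P} (hG : FOn I G) (h : ℕ) : ∀ (n e : ℕ) (g : V k × ℕ),
    DependsOn (cntA h G n e g) I
  | 0, e, g => fun x y _ => by rw [GM.cntA, GM.cntA]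
  | n + 1, e, g => fun x y hxy => by
    have h1 := FOn.cntA hG h n (e + 1) (par h e g) hxy
    have h2 : gz G (n + 1) e g x = gz G (n + 1) e g y := by rw [gz_succ, gz_succ, hG e g hxy]
    have h3 : gz G n (e + 1) (par h e g) x = gz G n (e + 1) (par h e g) y := by
      unfold gz
      rw [hG (e + 1) (par h e g) hxy]
    rw [GM.cntA, GM.cntA, h1, h2, h3]

theorem FOn.cnt {I : Set ι} {G : Fam k ι P} (hG : FOn I G) (h N e : ℕ) (g : V k × ℕ) :
    DependsOn (cnt h N G e g) I := FOn.cntA hG h _ _ _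

theorem FOn.frzA {I : Set ι} {G : Fam k ι P} (hG : FOn I G) (h v : ℕ) : ∀ (n e : ℕ) (g : V k × ℕ),
    DependsOn (frzA h v G n e g) I
  | 0, e, g => fun x y _ => by rw [GM.frzA, GM.frzA]
  | n + 1, e, g => fun x y hxy => by
    rw [GM.frzA, GM.frzA, FOn.cntA hG h n (e + 1) (par h e g) hxy, FOn.cntA hG h (n + 1) e g hxy,
      FOn.frzA hG h v n (e + 1) (par h e g) hxy, hG e g hxy]

/-- a frozen version is a function of the same vertices -/
theorem FOn.frz {I : Set ι} {G : Fam k ι P} (hG : FOn I G) (h N v : ℕ) : FOn I (frz h N v G) :=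
  fun _ _ => FOn.frzA hG h v _ _ _

theorem FOn.cutA {I : Set ι} {G : Fam k ι P} (hG : FOn I G) (h p : ℕ) : ∀ (n e : ℕ) (g : V k × ℕ),
    DependsOn (cutA h p G n e g) I
  | 0, e, g => fun x y _ => by rw [GM.cutA, GM.cutA]
  | n + 1, e, g => fun x y hxy => by
    rw [GM.cutA, GM.cutA, FOn.cntA hG h (n + 1) e g hxy, FOn.cutA hG h p n (e + 1) (par h e g) hxy, hG e g hxy]

/-- a cut family is a function of the same vertices -/
theorem FOn.cut {I : Set ι} {G : Fam k ι P} (hG : FOn I G) (h N p : ℕ) : FOn I (cut h N p G) :=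
  fun _ _ => FOn.cutA hG h p _ _ _

/-! ### the model -/

theorem ex_add {N t : ℕ} (ht : t < N) : ex N (t + 1) + 1 = ex N t := by unfold ex; omega

theorem sub_ex {N t : ℕ} (ht : t ≤ N) : N - ex N t = t := by unfold ex; omega

variable [Fintype ι] [DecidableEq ι] (s : V k)

/-- the value of a family at the time `t`, zero at the time `0` -/
def fz (h : ℕ) (R : Fam k ι P) (t : ℕ) (ω : Sq k N ι Θ P) : V k → ℝ := if t = 0 then 0 else fv s h R (ex N t) ω

/-- the family changes between the times `t` and `t+1` -/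
def chE (h : ℕ) (R : Fam k ι P) (t : ℕ) (ω : Sq k N ι Θ P) : Prop := fz s h R (t + 1) ω ≠ fz s h R t ω

/-- THE PROCESS, the time `0` is a dummy -/
def TZ (h : ℕ) (R : ι → Fam k ι P) (t : ℕ) (ω : Sq k N ι Θ P) : ℝ := if t = 0 then 0 else TT s h R (ex N t) ω

/-- number of changes of the family at the sample point, up to the time `t` -/
def cn (h : ℕ) (G : Fam k ι P) (t : ℕ) (ω : Sq k N ι Θ P) : ℕ := cnt h N G (ex N t) (Gm s h (ex N t) ω) (vs ω)

theorem par_Gm (h e : ℕ) (ω : Sq k N ι Θ P) : par h e (Gm s h e ω) = Gm s h (e + 1) ω := par_G h e _ _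

theorem fz_of_pos (h : ℕ) (R : Fam k ι P) {t : ℕ} (ht : 1 ≤ t) (ω : Sq k N ι Θ P) :
    fz s h R t ω = fv s h R (ex N t) ω := if_neg (by omega)

theorem fz_0 (h : ℕ) (R : Fam k ι P) (ω : Sq k N ι Θ P) : fz s h R 0 ω = 0 := if_pos rfl

theorem cn_eq_cntA (h : ℕ) (G : Fam k ι P) {t : ℕ} (ht : t ≤ N) (ω : Sq k N ι Θ P) :
    cn s h G t ω = cntA h G t (ex N t) (Gm s h (ex N t) ω) (vs ω) := by
  unfold cn cnt
  rw [sub_ex ht]

theorem cn_zero (h : ℕ) (G : Fam k ι P) (ω : Sq k N ι Θ P) : cn s h G 0 ω = 0 := by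
  rw [cn_eq_cntA s h G (Nat.zero_le N), cntA]

/-- the function at a sample point -/
theorem fz_gz (h : ℕ) (G : Fam k ι P) (t : ℕ) (ω : Sq k N ι Θ P) :
    fz s h G t ω = gz G t (ex N t) (Gm s h (ex N t) ω) (vs ω) := rfl

/-- one step -/
theorem cn_succ (h : ℕ) (G : Fam k ι P) {t : ℕ} (ht : t < N) (ω : Sq k N ι Θ P) :
    (cn s h G (t + 1) ω : ℝ) = cn s h G t ω + ind (chE s h G t ω) := by
  rw [cn_eq_cntA s h G (show t + 1 ≤ N from ht), cn_eq_cntA s h G ht.le]
  have e1 : par h (ex N (t + 1)) (Gm s h (ex N (t + 1)) ω) = Gm s h (ex N t) ω := by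
    rw [par_Gm, ex_add ht]
  by_cases hG : gz G (t + 1) (ex N (t + 1)) (Gm s h (ex N (t + 1)) ω) (vs ω) =
      gz G t (ex N (t + 1) + 1) (par h (ex N (t + 1)) (Gm s h (ex N (t + 1)) ω)) (vs ω)
  · have h1 : ¬ chE s h G t ω := by
      unfold chE
      rw [not_not, fz_gz, fz_gz]
      rw [e1, ex_add ht] at hG
      exact hG
    rw [cntA_succ_eq _ _ _ _ hG, e1, ex_add ht, ind_not h1, add_zero]
  · have h1 : chE s h G t ω := by
      unfold chE
      rw [fz_gz, fz_gz]
      rw [e1, ex_add ht] at hG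
      exact hG
    rw [cntA_succ_ne _ _ _ _ hG, e1, ex_add ht, ind_of h1]
    push_cast
    ring

theorem cn_le_succ (h : ℕ) (G : Fam k ι P) {t : ℕ} (ht : t < N) (ω : Sq k N ι Θ P) :
    cn s h G t ω ≤ cn s h G (t + 1) ω := by
  have h1 := cn_succ s h G ht ω
  have h2 := ind_nonneg (chE s h G t ω)
  have h3 : (cn s h G t ω : ℝ) ≤ cn s h G (t + 1) ω := by linarith
  exact_mod_cast h3

theorem cn_mono_le (h : ℕ) (G : Fam k ι P) (ω : Sq k N ι Θ P) {t : ℕ} :
    ∀ {u : ℕ}, t ≤ u → u ≤ N → cn s h G t ω ≤ cn s h G u ω := by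
  intro u htu
  induction u, htu using Nat.le_induction with
  | base => intro _; exact le_rfl
  | succ u _ ih => intro hu; exact (ih (by omega)).trans (cn_le_succ s h G (by omega) ω)

theorem cn_mono (h : ℕ) (G : Fam k ι P) {t : ℕ} (ht : t ≤ N) (ω : Sq k N ι Θ P) :
    cn s h G t ω ≤ cn s h G N ω := cn_mono_le s h G ω ht le_rfl

theorem cn_sum (h : ℕ) (G : Fam k ι P) (ω : Sq k N ι Θ P) : ∀ {t : ℕ}, t ≤ N →
    (cn s h G t ω : ℝ) = ∑ u ∈ range t, ind (chE s h G u ω)
  | 0, _ => by rw [cn_zero]; simp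
  | t + 1, ht => by
    rw [cn_succ s h G (by omega), Finset.sum_range_succ, cn_sum h G ω (by omega)]

/-- the total number of changes -/
theorem cn_eq (h : ℕ) (G : Fam k ι P) (ω : Sq k N ι Θ P) :
    (cn s h G N ω : ℝ) = ∑ u ∈ range N, ind (chE s h G u ω) := cn_sum s h G ω le_rfl

/-- the number of changes at most the time -/
theorem cn_le (h : ℕ) (G : Fam k ι P) {t : ℕ} (ht : t ≤ N) (ω : Sq k N ι Θ P) : cn s h G t ω ≤ t := by
  have h1 := cn_sum s h G ω ht
  have h2 : ∑ u ∈ range t, ind (chE s h G u ω) ≤ ∑ _u ∈ range t, (1 : ℝ) :=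
    Finset.sum_le_sum fun u _ => ind_le_one _
  rw [Finset.sum_const, Finset.card_range, nsmul_eq_mul, mul_one] at h2
  have h3 : (cn s h G t ω : ℝ) ≤ t := by linarith
  exact_mod_cast h3

/-- the number of changes of a function of the vertices `I` is a function of the path of the faces and of `x_I` -/
theorem cn_facY {I : Set ι} {G : Fam k ι P} (hG : FOn I G) (h t : ℕ) :
    Fac (fun ω : Sq k N ι Θ P => (Yn s (ex N t) ω, fun j : {j : ι // j ∈ I} => vx j.1 ω)) (cn s h G t) := by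
  intro v w hv
  simp only [Prod.mk.injEq] at hv
  have hg := fac_Yn_Gm s h (ex N t) v w hv.1
  unfold cn
  rw [hg]
  exact hG.cnt h N (ex N t) _ fun i hi => congrFun hv.2 ⟨i, hi⟩

/-- the number of changes of the face `i` is known in the view `i` -/
theorem cn_fac {i : ι} {G : Fam k ι P} (hG : FOn ({i}ᶜ : Set ι) G) (h t : ℕ) :
    Fac (fun ω : Sq k N ι Θ P => (th ω, Zn i (ex N t) ω, ot i ω)) (cn s h G t) := by
  intro v w hv
  simp only [Prod.mk.injEq] at hv
  have hY : Yn s (ex N t) v = Yn s (ex N t) w := fac_Yn s i (ex N t) v w (Prod.ext hv.2.1 hv.2.2)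
  refine cn_facY s hG h t v w (Prod.ext hY ?_)
  funext j
  have hj : (j : ι) ≠ i := j.2
  exact congrFun hv.2.2 ⟨j.1, hj⟩

/-- the value of a function of the vertices `I` at the time `t` -/
theorem fz_facY {I : Set ι} {G : Fam k ι P} (hG : FOn I G) (h t : ℕ) :
    Fac (fun ω : Sq k N ι Θ P => (Yn s (ex N t) ω, fun j : {j : ι // j ∈ I} => vx j.1 ω)) (fz s h G t) := by
  intro v w hv
  simp only [Prod.mk.injEq] at hv
  have hg := fac_Yn_Gm s h (ex N t) v w hv.1
  unfold fz fv
  rw [hg, hG (ex N t) _ (x := vs v) (y := vs w) fun i hi => congrFun hv.2 ⟨i, hi⟩]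

/-- the value of the face `i` is known in the view `i` -/
theorem fz_fac {i : ι} {G : Fam k ι P} (hG : FOn ({i}ᶜ : Set ι) G) (h t : ℕ) :
    Fac (fun ω : Sq k N ι Θ P => (th ω, Zn i (ex N t) ω, ot i ω)) (fz s h G t) := by
  intro v w hv
  simp only [Prod.mk.injEq] at hv
  have hY : Yn s (ex N t) v = Yn s (ex N t) w := fac_Yn s i (ex N t) v w (Prod.ext hv.2.1 hv.2.2)
  refine fz_facY s hG h t v w (Prod.ext hY ?_)
  funext j
  have hj : (j : ι) ≠ i := j.2
  exact congrFun hv.2.2 ⟨j.1, hj⟩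

/-! ### frozen versions -/

/-- the frozen version at a sample point -/
theorem fv_frz_eq (h v : ℕ) (G : Fam k ι P) {t : ℕ} (ht : t ≤ N) (ω : Sq k N ι Θ P) :
    fv s h (frz h N v G) (ex N t) ω = frzA h v G t (ex N t) (Gm s h (ex N t) ω) (vs ω) := by
  unfold fv frz
  rw [sub_ex ht]

theorem fz_frz_eq (h v : ℕ) (G : Fam k ι P) {t : ℕ} (ht : t ≤ N) (ω : Sq k N ι Θ P) :
    fz s h (frz h N v G) t ω = frzA h v G t (ex N t) (Gm s h (ex N t) ω) (vs ω) := by
  unfold fz
  by_cases h0 : t = 0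
  · subst h0
    rw [if_pos rfl, frzA]
  · rw [if_neg h0, fv_frz_eq s h v G ht]

/-- the version with the current number is the function -/
theorem fz_frz (h : ℕ) (G : Fam k ι P) {t : ℕ} (ht : t ≤ N) (ω : Sq k N ι Θ P) :
    fz s h (frz h N (cn s h G t ω) G) t ω = fz s h G t ω := by
  rw [fz_frz_eq s h _ G ht, cn_eq_cntA s h G ht, frzA_cur]
  rfl

/-- the version with the current number is the function -/
theorem fv_frz (h : ℕ) (G : Fam k ι P) {t : ℕ} (h1 : 1 ≤ t) (ht : t ≤ N) (ω : Sq k N ι Θ P) :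
    fv s h (frz h N (cn s h G t ω) G) (ex N t) ω = fv s h G (ex N t) ω := by
  have h2 := fz_frz s h G ht ω
  rwa [fz_of_pos s h _ h1, fz_of_pos s h _ h1] at h2

theorem fz_frz_zero {h v : ℕ} {G : Fam k ι P} {t : ℕ} (ht : t ≤ N) {ω : Sq k N ι Θ P}
    (hv : cn s h G t ω < v) : fz s h (frz h N v G) t ω = 0 := by
  rw [fz_frz_eq s h v G ht]
  rw [cn_eq_cntA s h G ht] at hv
  exact frzA_zero hv

theorem fz_frz_const {h v : ℕ} {G : Fam k ι P} {t : ℕ} (ht : t < N) {ω : Sq k N ι Θ P}
    (hv : v ≤ cn s h G t ω) : fz s h (frz h N v G) (t + 1) ω = fz s h (frz h N v G) t ω := by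
  rw [fz_frz_eq s h v G (show t + 1 ≤ N from ht), fz_frz_eq s h v G ht.le]
  rw [cn_eq_cntA s h G ht.le] at hv
  have e1 : par h (ex N (t + 1)) (Gm s h (ex N (t + 1)) ω) = Gm s h (ex N t) ω := by
    rw [par_Gm, ex_add ht]
  rw [frzA_succ_pos (by rw [e1, ex_add ht]; exact hv), e1, ex_add ht]

/-- a change of a frozen version happens only between `cn t < v` and `v ≤ cn (t+1)` -/
theorem chE_frz_lt {h v : ℕ} {G : Fam k ι P} {t : ℕ} (ht : t < N) {ω : Sq k N ι Θ P}
    (hc : chE s h (frz h N v G) t ω) : cn s h G t ω < v ∧ v ≤ cn s h G (t + 1) ω := by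
  have h1 : cn s h G t ω < v := by
    by_contra hcon
    exact hc (fz_frz_const s ht (not_lt.mp hcon))
  refine ⟨h1, ?_⟩
  by_contra hcon
  refine hc ?_
  rw [fz_frz_zero s (show t + 1 ≤ N from ht) (not_le.mp hcon), fz_frz_zero s ht.le h1]

/-- a version changes only from `0` -/
theorem chE_frz {h v : ℕ} {G : Fam k ι P} {t : ℕ} (ht : t < N) {ω : Sq k N ι Θ P}
    (hc : chE s h (frz h N v G) t ω) : fz s h (frz h N v G) t ω = 0 :=
  fz_frz_zero s ht.le (chE_frz_lt s ht hc).1

/-- after a change from the number `v` on the version is constant -/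
theorem fz_frz_stay {h v : ℕ} {G : Fam k ι P} {t : ℕ} {ω : Sq k N ι Θ P} (hv : v ≤ cn s h G t ω) :
    ∀ {u : ℕ}, t ≤ u → u ≤ N → fz s h (frz h N v G) u ω = fz s h (frz h N v G) t ω := by
  intro u htu
  induction u, htu using Nat.le_induction with
  | base => intro _; rfl
  | succ u hu ih =>
    intro huN
    rw [fz_frz_const s (by omega) (hv.trans (cn_mono_le s h G ω hu (by omega))), ih (by omega)]

private theorem sum_cross_le (a : ℕ → ℕ) (v : ℕ) : ∀ n : ℕ, (∀ s < n, a s ≤ a (s + 1)) →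
    ∑ s ∈ range n, ind (a s < v ∧ v ≤ a (s + 1)) ≤ ind (v ≤ a n)
  | 0, _ => by simpa using ind_nonneg (v ≤ a 0)
  | n + 1, h => by
    have h1 := sum_cross_le a v n (fun s hs => h s (by omega))
    rw [Finset.sum_range_succ]
    have h2 := h n (Nat.lt_succ_self n)
    by_cases h3 : v ≤ a n
    · rw [ind_not (fun h' : a n < v ∧ v ≤ a (n + 1) => absurd h'.1 (not_lt.mpr h3)),
        ind_of (show v ≤ a (n + 1) from h3.trans h2)]
      rw [ind_of h3] at h1
      linarith
    · rw [ind_not h3] at h1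
      have h4 : ind (a n < v ∧ v ≤ a (n + 1)) ≤ ind (v ≤ a (n + 1)) := ind_mono (fun h' => h'.2)
      linarith

/-- at most one change on every path -/
theorem sum_frz (h v : ℕ) (G : Fam k ι P) (ω : Sq k N ι Θ P) :
    ∑ u ∈ range N, ind (chE s h (frz h N v G) u ω) ≤ 1 := by
  have h1 : ∑ u ∈ range N, ind (chE s h (frz h N v G) u ω) ≤
      ∑ u ∈ range N, ind (cn s h G u ω < v ∧ v ≤ cn s h G (u + 1) ω) := by
    refine Finset.sum_le_sum fun u hu => ind_mono fun hc => ?_
    exact chE_frz_lt s (Finset.mem_range.mp hu) hc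
  refine h1.trans ((sum_cross_le (fun u => cn s h G u ω) v N (fun u hu => cn_le_succ s h G hu ω)).trans ?_)
  exact ind_le_one _

/-! ### cut families -/

theorem fz_cut_eq (h p : ℕ) (G : Fam k ι P) {t : ℕ} (ht : t ≤ N) (ω : Sq k N ι Θ P) :
    fz s h (cut h N p G) t ω = cutA h p G t (ex N t) (Gm s h (ex N t) ω) (vs ω) := by
  unfold fz
  by_cases h0 : t = 0
  · subst h0
    rw [if_pos rfl, cutA]
  · rw [if_neg h0]
    unfold fv cut
    rw [sub_ex ht]

/-- the cut family is the family while there are at most `p` changes -/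
theorem fz_cut {h p : ℕ} {G : Fam k ι P} {t : ℕ} (ht : t ≤ N) {ω : Sq k N ι Θ P}
    (hv : cn s h G t ω ≤ p) : fz s h (cut h N p G) t ω = fz s h G t ω := by
  rw [fz_cut_eq s h p G ht]
  rw [cn_eq_cntA s h G ht] at hv
  rw [cutA_of_le hv]
  rfl

theorem fv_cut {h p : ℕ} {G : Fam k ι P} {t : ℕ} (h1 : 1 ≤ t) (ht : t ≤ N) {ω : Sq k N ι Θ P}
    (hv : cn s h G t ω ≤ p) : fv s h (cut h N p G) (ex N t) ω = fv s h G (ex N t) ω := by
  have h2 := fz_cut s (G := G) ht hv
  rwa [fz_of_pos s h _ h1, fz_of_pos s h _ h1] at h2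

/-- a change of the cut family is a change of the family -/
theorem chE_cut {h p : ℕ} {G : Fam k ι P} {t : ℕ} (ht : t < N) {ω : Sq k N ι Θ P}
    (hc : chE s h (cut h N p G) t ω) : chE s h G t ω ∧ cn s h G (t + 1) ω ≤ p := by
  have hle : cn s h G (t + 1) ω ≤ p := by
    by_contra hcon
    refine hc ?_
    rw [fz_cut_eq s h p G (show t + 1 ≤ N from ht), fz_cut_eq s h p G ht.le]
    rw [cn_eq_cntA s h G (show t + 1 ≤ N from ht)] at hcon
    have e1 : par h (ex N (t + 1)) (Gm s h (ex N (t + 1)) ω) = Gm s h (ex N t) ω := by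
      rw [par_Gm, ex_add ht]
    rw [cutA_of_gt hcon, e1, ex_add ht]
  refine ⟨?_, hle⟩
  intro heq
  refine hc ?_
  rw [fz_cut s (G := G) (show t + 1 ≤ N from ht) hle, fz_cut s (G := G) ht.le ((cn_le_succ s h G ht ω).trans hle)]
  exact heq

/-- at most `p` changes on every path -/
theorem sum_cut (h p : ℕ) (G : Fam k ι P) (ω : Sq k N ι Θ P) :
    ∑ u ∈ range N, ind (chE s h (cut h N p G) u ω) ≤ (p : ℝ) := by
  have key : ∀ n ≤ N, ∑ u ∈ range n, ind (chE s h (cut h N p G) u ω) ≤ (cn s h G n ω : ℝ) ∧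
      ∑ u ∈ range n, ind (chE s h (cut h N p G) u ω) ≤ (p : ℝ) := by
    intro n
    induction n with
    | zero =>
      intro _
      simp only [Finset.range_zero, Finset.sum_empty]
      exact ⟨Nat.cast_nonneg _, Nat.cast_nonneg _⟩
    | succ n ih =>
      intro hn
      obtain ⟨h1, h2⟩ := ih (by omega)
      have h3 := cn_succ s h G (show n < N from hn) ω
      rw [Finset.sum_range_succ]
      by_cases hc : chE s h (cut h N p G) n ω
      · obtain ⟨h4, h5⟩ := chE_cut s (show n < N from hn) hc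
        rw [ind_of hc]
        rw [ind_of h4] at h3
        have h6 : (cn s h G (n + 1) ω : ℝ) ≤ (p : ℝ) := by exact_mod_cast h5
        constructor <;> linarith
      · rw [ind_not hc]
        have h4 := ind_nonneg (chE s h G n ω)
        constructor <;> linarith
  exact (key N le_rfl).2

/-! ### one face of a process -/

theorem fv_upd (h : ℕ) (R : ι → Fam k ι P) (i : ι) (G : Fam k ι P) (e : ℕ) (ω : Sq k N ι Θ P)
    (hG : fv s h G e ω = fv s h (R i) e ω) : TT s h (Function.update R i G) e ω = TT s h R e ω := by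
  unfold TT
  congr 1
  funext d
  refine Finset.prod_congr rfl fun j _ => ?_
  by_cases hj : j = i
  · subst hj
    rw [Function.update_self, hG]
  · rw [Function.update_of_ne hj]

/-- the process with the current version of the face `i` -/
theorem TT_frz (h : ℕ) (R : ι → Fam k ι P) (i : ι) {t : ℕ} (h1 : 1 ≤ t) (ht : t ≤ N) (ω : Sq k N ι Θ P) :
    TT s h (Function.update R i (frz h N (cn s h (R i) t ω) (R i))) (ex N t) ω = TT s h R (ex N t) ω :=
  fv_upd s h R i _ _ ω (fv_frz s h (R i) h1 ht ω)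

/-- the process with one face cut -/
theorem TT_cut (h p : ℕ) (R : ι → Fam k ι P) (i : ι) {t : ℕ} (h1 : 1 ≤ t) (ht : t ≤ N) {ω : Sq k N ι Θ P}
    (hv : cn s h (R i) t ω ≤ p) :
    TT s h (Function.update R i (cut h N p (R i))) (ex N t) ω = TT s h R (ex N t) ω :=
  fv_upd s h R i _ _ ω (fv_cut s h1 ht hv)

/-! ### finer rounding, lifted families -/

theorem fz_fine {h h' : ℕ} (hh : h ≤ h') (R : Fam k ι P) (t : ℕ) (ω : Sq k N ι Θ P) :
    fz s h' (fine h R) t ω = fz s h R t ω := by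
  unfold fz
  rw [fv_fine s hh]

theorem chE_fine {h h' : ℕ} (hh : h ≤ h') (R : Fam k ι P) (t : ℕ) (ω : Sq k N ι Θ P) :
    chE s h' (fine h R) t ω = chE s h R t ω := by
  unfold chE
  rw [fz_fine s hh, fz_fine s hh]

theorem TZ_fine {h h' : ℕ} (hh : h ≤ h') (R : ι → Fam k ι P) (t : ℕ) (ω : Sq k N ι Θ P) :
    TZ s h' (fun j => fine h (R j)) t ω = TZ s h R t ω := by
  unfold TZ
  rw [TT_fine s hh]

theorem TZ_lift (h : ℕ) (R : ι → Fam k ι Unit) (t : ℕ) (ω : Sq k N ι Θ P) :
    TZ s h (fun j => liftF (R j)) t ω = TZ s h R t (prU ω) := rfl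

theorem fz_lift (h : ℕ) (R : Fam k ι Unit) (t : ℕ) (ω : Sq k N ι Θ P) :
    fz s h (liftF R) t ω = fz s h R t (prU ω) := rfl

theorem chE_lift (h : ℕ) (R : Fam k ι Unit) (t : ℕ) (ω : Sq k N ι Θ P) :
    chE s h (liftF R) t ω = chE s h R t (prU ω) := rfl

end

end Pool.Agent.GM
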