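import Pool.Agent.GM.RdNum
import Pool.Agent.GM.RdV

/-!
# GM/GV (helper95): ONE VIEW = input (N) + (G2B) of row G5.0, every number of labels

* `GV P N Z D AL ZL T che zr` : VIEW of the process `T`.  `Z t` = the node (all known vertices and the path), `D t` = the
  digit, `AL l t` = what the label `l` may see (hidden vertex, `x_(S l)`, path), `ZL l t` = the same without the hidden
  vertex, `che t` = the known face changes at the time `t+1`, `zr t` = the known face is zero.  Published labels `pl l t`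
  (cumulative), published process `X` with steps `g`, events `ev`, up to date `utd`, errors `D0`, dead points `D1` of
  Proposition 1, recorded changes `c l t`, true changes `ch l t`; EVERY filtration `A` which knows `Z` and the published
  labels is allowed (`Adm`).
* `GRT.wD` : other errors; `GRT.PubL` : published labels and value of a process `GRT`;
* **`GRT.gvOf`** : `GRT.HypT`, the steps and `PubL` give a view;
* `GRT.lt`, `GRT.LH`, `GRT.pv` : letters, published plain labels without noise; `GRT.pubL_LH` : `PubL`;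
  `GRT.LH_entropy`, `GRT.LH_entropy0` : created entropy of the letters.
-/

set_option autoImplicit false
set_option linter.unusedSectionVars false

namespace Pool.Agent.GM

open Finset Pool.Agent.PWZ Pool.Agent.M3

/-- admissible filtrations: they know the node and the published labels -/
structure Adm {Om : Type} {κ : ℕ → Type} (Z : ∀ t, Om → κ t) {L : Type} {PL : L → ℕ → Type} (pl : ∀ l t, Om → PL l t)
    {κ' : ℕ → Type} (A : ∀ t, Om → κ' t) : Prop where
  filt : Filt A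
  Z : ∀ t, Fac (A t) (Z t)
  pl : ∀ l t, Fac (A t) (pl l t)

/-- VIEW of the process `T` -/
structure GV {Om : Type} [Fintype Om] (P : FP Om) (N : ℕ) {κ : ℕ → Type} (Z : ∀ t, Om → κ t) (D : ℕ → Om → ℝ)
    {L : Type} {ζ ζ' : L → ℕ → Type} (AL : ∀ l t, Om → ζ l t) (ZL : ∀ l t, Om → ζ' l t) (T : ℕ → Om → ℝ)
    (che zr : ℕ → Om → Prop) where
  /-- published labels, cumulative -/
  PL : L → ℕ → Type
  pl : ∀ l t, Om → PL l t
  /-- published process, free step, failure of the step -/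
  X : ℕ → Om → ℝ
  g : ℕ → Om → ℝ
  ev : ℕ → Om → Prop
  /-- nothing of the point is young -/
  utd : ℕ → Om → Prop
  /-- errors of the labels, dead points of Proposition 1 -/
  D0 : ℕ → Om → Prop
  D1 : ℕ → Om → Prop
  /-- recorded changes and true changes at the time `t+1` -/
  c : L → ℕ → Om → Prop
  ch : L → ℕ → Om → Prop
  /-- accuracy, probability of errors, number of changes, mass of the points which are not up to date, least threshold,
  bound of `X`, created entropy of the published labels -/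
  eta : ℝ
  q : ℝ
  J : ℝ
  a6 : ℝ
  rmin : ℝ
  cb : ℝ
  hb : ℝ
  eta0 : 0 ≤ eta
  cb0 : 0 ≤ cb
  plA : ∀ l t, Fac (AL l t) (pl l t)
  plc : ∀ l t, Fac (pl l (t + 1)) (pl l t)
  Xb : ∀ t w, |X t w| ≤ cb
  view : ∀ {κ' : ℕ → Type} (A : ∀ t, Om → κ' t), Adm Z pl A → ∀ s : ℝ, 0 ≤ s → ∀ Dd : ℕ → Om → Prop,
    P.ViewHyp A X g D ev (P.Al A Dd (1 / 2)) s (9 * cb ^ 2)
  D0inc : ∀ t w, P.p w ≠ 0 → D0 t w → D0 (t + 1) w
  D1inc : ∀ t w, P.p w ≠ 0 → D1 t w → D1 (t + 1) w
  D01 : ∀ t w, D0 t w → D1 t w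
  D0q : P.Pr (D0 N) ≤ q
  D1q : P.Pr (D1 N) ≤ q
  /-- PROPOSITION 1: from `X` to `T` and back, events -/
  XS1 : ∀ s : ℝ, 0 ≤ s → ∀ t w, P.p w ≠ 0 → s < |X t w| → ¬ D1 t w → ¬ utd t w ∨ s - eta ≤ |T t w|
  SX1 : ∀ (s2 : ℝ) t w, P.p w ≠ 0 → s2 + eta ≤ |T t w| → ¬ D1 t w → utd t w → s2 ≤ |X t w|
  ev1 : ∀ {κ' : ℕ → Type} (A : ∀ t, Om → κ' t), Adm Z pl A → ∀ t w, P.p w ≠ 0 → P.Al A D1 (1 / 2) (t + 1) w →
    ev (t + 1) w → che t w ∨ ∃ l, c l t w
  /-- the published process is zero as long as the known face is zero -/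
  zer : ∀ t w, zr t w → X t w = 0
  utdc : ∀ t {ν : Type} {Y : Om → ν}, Fac (Z t) Y → ∀ w, P.p w ≠ 0 → P.ce Y (fun v => ind (¬ utd t v)) w ≤ a6
  utdc' : ∀ t {ν : Type} {Y : Om → ν}, Fac (Z (t + 1)) Y → ∀ w, P.p w ≠ 0 →
    P.ce Y (fun v => ind (¬ utd t v)) w ≤ 2 * a6
  cA : ∀ l t v w, AL l (t + 1) v = AL l (t + 1) w → (c l t v ↔ c l t w)
  cV : ∀ l t v w, pl l (t + 1) v = pl l (t + 1) w → (c l t v ↔ c l t w)
  cJ : ∀ l, ∑ t ∈ range N, P.Pr (c l t) ≤ J
  chA : ∀ l t v w, AL l (t + 1) v = AL l (t + 1) w → (ch l t v ↔ ch l t w)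
  chJ : ∀ l, ∑ t ∈ range N, P.Pr (ch l t) ≤ J
  eJ : ∑ t ∈ range N, P.Pr (che t) ≤ J
  ent0 : ∀ l, P.Hc (pl l 0) (ZL l 0) ≤ hb
  ent : ∀ l, ∑ t ∈ range N, P.Hc (pl l (t + 1)) (fun w => (pl l t w, ZL l (t + 1) w)) ≤ hb
  /-- THE THEOREM: dead points for every threshold `r` and every increasing family which contains the errors -/
  thm : ∀ r : ℝ, rmin ≤ r → ∀ D0' : ℕ → Om → Prop, (∀ t w, P.p w ≠ 0 → D0' t w → D0' (t + 1) w) →
    (∀ t w, D0 t w → D0' t w) → ∃ D2 : ℕ → Om → Prop, (∀ t w, P.p w ≠ 0 → D2 t w → D2 (t + 1) w) ∧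
      (∀ t w, D0' t w → D2 t w) ∧
      P.Pr (D2 N) ≤ P.Pr (D0' N) + q + ∑ t ∈ range N, P.Pr (fun w =>
        (che t w ∨ ∃ l, ch l t w) ∧ (r ≤ |T t w| ∨ r ≤ |T (t + 1) w|) ∧ ¬ D0' (t + 1) w) ∧
      (∀ t w, P.p w ≠ 0 → 2 * r < |X t w| → ¬ D2 t w → 2 * r - eta ≤ |T t w|) ∧
      (∀ (s2 : ℝ) t w, P.p w ≠ 0 → 2 * r ≤ s2 + eta → s2 + eta ≤ |T t w| → ¬ D2 t w → s2 ≤ |X t w|) ∧
      (∀ {κ' : ℕ → Type} (A : ∀ t, Om → κ' t), Adm Z pl A → ∀ t w, P.p w ≠ 0 → 2 * r < |X t w| →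
        P.Al A D2 (1 / 2) (t + 1) w → ¬ ev (t + 1) w)

namespace GRT

variable {Om : Type} [Fintype Om] {κ : ℕ → Type} {α β ι L F E F' : Type} [Fintype ι] [DecidableEq ι]

/-! ## other errors -/

/-- the process with other errors -/
def wD (S : GRT Om κ α β ι L F E F') (D0 : ℕ → Om → Prop) : GRT Om κ α β ι L F E F' := { S with D0 := D0 }

section wD

variable {S : GRT Om κ α β ι L F E F'} {D0 : ℕ → Om → Prop}

theorem wD_rp (l : L) (t : ℕ) (w : Om) : (S.wD D0).rp l t w = S.rp l t w := by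
  induction t with
  | zero => rfl
  | succ t ih =>
    have e : (S.wD D0).toGRD = S.toGRD := rfl
    by_cases h : S.toGRD.cS l t w
    · rw [rp_succ_of h, rp_succ_of (S := S.wD D0) (by rw [e]; exact h)]
      rfl
    · rw [rp_succ_of_not h, rp_succ_of_not (S := S.wD D0) (by rw [e]; exact h), ih]

theorem wD_vr (t : ℕ) (w : Om) : (S.wD D0).vr t w = S.vr t w :=
  Prod.ext rfl (funext fun l => wD_rp l t w)

theorem wD_hyp (H : S.HypT) (hi : ∀ t w, S.P.p w ≠ 0 → D0 t w → D0 (t + 1) w)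
    (hD : ∀ t w, S.P.p w ≠ 0 → S.D0 t w → D0 t w) : (S.wD D0).HypT where
  hyp := H.hyp
  fe := H.fe
  fpf := H.fpf
  cf l t w hw h := H.cf l t w hw fun h' => h (hD (t + 1) w hw h')
  Kf := H.Kf
  Ks := H.Ks
  Kb := H.Kb
  D0i := hi
  TX t w hw h := H.TX t w hw fun h' => h (hD t w hw h')
  Lam0 := H.Lam0
  eta0 := H.eta0

end wD

/-! ## published labels -/

/-- published labels `pl`, published value `x`, errors `Dx`, recorded changes `c` -/
structure PubL (S : GRT Om κ α β ι L F E F') {ζ : L → ℕ → Type} (AL : ∀ l t, Om → ζ l t) {PL : L → ℕ → Type}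
    (pl : ∀ l t, Om → PL l t) (x : ℕ → Om → E × (L → F')) (Dx : ℕ → Om → Prop) (c : L → ℕ → Om → Prop) : Prop where
  plA : ∀ l t, Fac (AL l t) (pl l t)
  plc : ∀ l t, Fac (pl l (t + 1)) (pl l t)
  x1 : ∀ t w, (x t w).1 = S.e t w
  xV : ∀ {κ' : ℕ → Type} (A : ∀ t, Om → κ' t), Adm S.toGRD.Z pl A → ∀ t, Fac (A t) (x t)
  Dxi : ∀ t w, S.P.p w ≠ 0 → Dx t w → Dx (t + 1) w
  D0x : ∀ t w, S.D0 t w → Dx t w
  xv : ∀ t w, S.P.p w ≠ 0 → ¬ Dx t w → x t w = S.vr t w
  xc : ∀ t w, x (t + 1) w ≠ x t w → S.e (t + 1) w ≠ S.e t w ∨ ∃ l, c l t w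
  cA : ∀ l t v w, AL l (t + 1) v = AL l (t + 1) w → (c l t v ↔ c l t w)
  cV : ∀ l t v w, pl l (t + 1) v = pl l (t + 1) w → (c l t v ↔ c l t w)

section gv

variable (S : GRT Om κ α β ι L F E F') {ζ ζ' : L → ℕ → Type} {AL : ∀ l t, Om → ζ l t} {ZL : ∀ l t, Om → ζ' l t}
  {PL : L → ℕ → Type} {pl : ∀ l t, Om → PL l t} {x : ℕ → Om → E × (L → F')} {Dx : ℕ → Om → Prop}
  {c : L → ℕ → Om → Prop} {D : ℕ → Om → ℝ} {dK : E × (L → F') → ℕ → Om → ℝ} {che zr : ℕ → Om → Prop}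

/-- digits and steps of a process -/
structure Steps (D : ℕ → Om → ℝ) (dK : E × (L → F') → ℕ → Om → ℝ) (che zr : ℕ → Om → Prop) (cT : ℝ) : Prop where
  digit : ∀ t w, S.P.p w ≠ 0 → D t w = 1 ∨ D t w = -1
  DZ : ∀ t, Fac (S.toGRD.Z (t + 1)) (D t)
  dKf : ∀ v t, Fac (S.toGRD.Z t) (dK v t)
  step : ∀ t w, S.P.p w ≠ 0 → ¬ S.D0 t w →
    S.K (S.vr t w) (t + 1) w = S.K (S.vr t w) t w + D t w * dK (S.vr t w) t w
  T : ∀ t w, S.P.p w ≠ 0 → |S.T t w| ≤ cT
  cT0 : 0 ≤ cT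
  eta : S.eta < 1 / 2
  che : ∀ t w, S.e (t + 1) w ≠ S.e t w → che t w
  zer : ∀ t w, zr t w → ∀ v : E × (L → F'), v.1 = S.e t w → S.K v t w = 0

variable {S} {cT : ℝ}

/-- the published process in the sense of `RdV`, with any increasing family of errors which contains `Dx` -/
theorem pub_of (H : S.HypT) (hp : S.PubL AL pl x Dx c) (hs : S.Steps D dK che zr cT) {D0' : ℕ → Om → Prop}
    (hi : ∀ t w, S.P.p w ≠ 0 → D0' t w → D0' (t + 1) w) (hD : ∀ t w, Dx t w → D0' t w)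
    {κ' : ℕ → Type} (A : ∀ t, Om → κ' t) (hA : Adm S.toGRD.Z pl A) :
    (S.wD D0').toRA.Pub A x D dK D0' where
  hyp := toRA_hyp (wD_hyp H hi fun t w _ h => hD t w (hp.D0x t w h))
  filt := hA.filt
  VZ := hA.Z
  Vx := hp.xV A hA
  VD t := (hA.Z (t + 1)).trans (hs.DZ t)
  digit := hs.digit
  dKf := hs.dKf
  step t w hw h := by
    have h1 : (S.wD D0').toRA.vr t w = S.vr t w := wD_vr t w
    rw [h1]
    exact hs.step t w hw fun h' => h (hD t w (hp.D0x t w h'))
  Dxi := hi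
  xv t w hw h := by
    have h1 : (S.wD D0').toRA.vr t w = S.vr t w := wD_vr t w
    rw [h1]
    exact hp.xv t w hw fun h' => h (hD t w h')

variable [Fintype L] [DecidableEq L] [Fintype E] [Fintype F']

/-- the error of one run -/
noncomputable def qrun (S : GRT Om κ α β ι L F E F') (ne nt r1 : ℝ) : ℝ :=
  Fintype.card L * S.toGRD.top * (ne + 2 ^ Fintype.card ι * nt +
    3 * ((Fintype.card (E × (L → F')) : ℝ) * (S.Lam / r1)))

theorem div_mono_r {Lm a b : ℝ} (hL : 0 ≤ Lm) (ha : 0 < a) (hab : a ≤ b) : Lm / b ≤ Lm / a :=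
  div_le_div_of_nonneg_left hL ha hab

theorem lt_nonneg (H : S.HypT) : 0 ≤ Fintype.card L * S.toGRD.top :=
  mul_nonneg (Nat.cast_nonneg _) (GRD.top_pos H.hyp).le

theorem qrun_nn (H : S.HypT) {ne nt r1 : ℝ} (h1 : 0 ≤ ne) (h2 : 0 ≤ nt) (hr1 : 0 < r1) : 0 ≤ S.qrun ne nt r1 := by
  unfold qrun
  have h3 := H.Lam0
  have h4 := lt_nonneg H
  positivity

/-- mass of the dead points of Proposition 1 -/
theorem D1_le (H : S.HypT) (hp : S.PubL AL pl x Dx c) (hs : S.Steps D dK che zr cT) {N : ℕ} {ne nt r1 : ℝ}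
    (hne : ∑ t ∈ range N, S.P.Pr (fun w => S.e (t + 1) w ≠ S.e t w) ≤ ne) (hnt : S.toGRD.ntot N ≤ nt)
    (hr1 : 0 < r1) (hr1' : r1 ≤ 1 / 2) :
    S.P.Pr ((S.wD Dx).toRA.DD' Dx (cT + 1) N) ≤ S.P.Pr (Dx N) + S.qrun ne nt r1 := by
  have hT := wD_hyp H hp.Dxi fun t w _ h => hp.D0x t w h
  have h1 : S.P.Pr ((S.wD Dx).toRA.DD' Dx (cT + 1) N) ≤ S.P.Pr ((S.wD Dx).toRA.Dead' (cT + 1) N) := by
    refine S.P.Pr_mono fun w _ hw => ?_
    rcases hw with hw | hw
    · exact hw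
    · exact Or.inl hw
  have h2 := dead'_le (S := S.wD Dx) hT (p := cT + 1 / 2) (q := cT + 1) (by linarith [hs.cT0]) (by linarith) N
    (fun t w hw => by
      have h3 := hs.T t w hw
      have h4 := hs.eta
      show |S.T t w| + S.eta < cT + 1 / 2
      linarith) hne hnt
  refine h1.trans (h2.trans ?_)
  have h3 : S.Lam / (cT + 1 - (cT + 1 / 2)) ≤ S.Lam / r1 := div_mono_r H.Lam0 hr1 (by linarith)
  have h5 := mul_le_mul_of_nonneg_left h3 (Nat.cast_nonneg (Fintype.card (E × (L → F'))) (α := ℝ))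
  have h6 : (Fintype.card L * S.toGRD.top) * (ne + 2 ^ Fintype.card ι * nt +
      3 * ((Fintype.card (E × (L → F')) : ℝ) * (S.Lam / (cT + 1 - (cT + 1 / 2))))) ≤ S.qrun ne nt r1 := by
    unfold qrun
    exact mul_le_mul_of_nonneg_left (by linarith) (lt_nonneg H)
  have e1 : (S.wD Dx).P = S.P := rfl
  have e2 : (S.wD Dx).D0 = Dx := rfl
  have e3 : (S.wD Dx).Lam = S.Lam := rfl
  have e4 : (S.wD Dx).toGRD.top = S.toGRD.top := rfl
  rw [e1, e2, e3, e4]
  linarith

/-- mass of the dead points of the Theorem -/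
theorem D2_le (H : S.HypT) (hp : S.PubL AL pl x Dx c) (hs : S.Steps D dK che zr cT) {N : ℕ} {ne nt r1 rmin r : ℝ}
    {D0' : ℕ → Om → Prop} (hi : ∀ t w, S.P.p w ≠ 0 → D0' t w → D0' (t + 1) w) (hD : ∀ t w, Dx t w → D0' t w)
    (hne : ∑ t ∈ range N, S.P.Pr (fun w => S.e (t + 1) w ≠ S.e t w) ≤ ne) (hnt : S.toGRD.ntot N ≤ nt)
    (hr1 : 0 < r1) (hr0 : 2 * S.eta + r1 ≤ rmin) (hr : rmin ≤ r) :
    S.P.Pr ((S.wD D0').toRA.DD D0' r N) ≤ S.P.Pr (D0' N) + S.qrun ne nt r1 +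
      ∑ t ∈ range N, S.P.Pr (fun w => (che t w ∨ ∃ l, S.f l (t + 1) w ≠ S.f l t w) ∧
        (r ≤ |S.T t w| ∨ r ≤ |S.T (t + 1) w|) ∧ ¬ D0' (t + 1) w) := by
  have hT := wD_hyp H hi fun t w _ h => hD t w (hp.D0x t w h)
  have h1 : S.P.Pr ((S.wD D0').toRA.DD D0' r N) ≤ S.P.Pr ((S.wD D0').toRA.Dead r N) := by
    refine S.P.Pr_mono fun w _ hw => ?_
    rcases hw with hw | hw
    · exact hw
    · exact Or.inl hw
  have hd1 : ∑ t ∈ range N, S.P.Pr (fun w => (S.wD D0').toRA.d1 r t w ∧ ¬ (S.wD D0').D0 (t + 1) w) ≤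
      ∑ t ∈ range N, S.P.Pr (fun w => (che t w ∨ ∃ l, S.f l (t + 1) w ≠ S.f l t w) ∧
        (r ≤ |S.T t w| ∨ r ≤ |S.T (t + 1) w|) ∧ ¬ D0' (t + 1) w) := by
    refine Finset.sum_le_sum fun t _ => S.P.Pr_mono fun w _ hw => ?_
    obtain ⟨hw1, hw2⟩ := hw
    rcases hw1 with ⟨h3, h4⟩ | ⟨h3, h4⟩
    · exact ⟨Or.inl (hs.che t w h3), Or.inl h4, hw2⟩
    · exact ⟨Or.inr h3, h4, hw2⟩
  have hr' : 2 * (S.wD D0').eta < r := by
    have h3 : (S.wD D0').eta = S.eta := rfl
    rw [h3]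
    linarith
  have h2 := dead_le (S := S.wD D0') hT hr' N hd1 hne hnt
  refine h1.trans (h2.trans ?_)
  have h3 : S.Lam / (r - 2 * S.eta) ≤ S.Lam / r1 := div_mono_r H.Lam0 hr1 (by linarith)
  have h5 := mul_le_mul_of_nonneg_left h3 (Nat.cast_nonneg (Fintype.card (E × (L → F'))) (α := ℝ))
  have h6 : (Fintype.card L * S.toGRD.top) * (ne + 2 ^ Fintype.card ι * nt +
      3 * ((Fintype.card (E × (L → F')) : ℝ) * (S.Lam / (r - 2 * S.eta)))) ≤ S.qrun ne nt r1 := by
    unfold qrun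
    exact mul_le_mul_of_nonneg_left (by linarith) (lt_nonneg H)
  have e1 : (S.wD D0').P = S.P := rfl
  have e2 : (S.wD D0').D0 = D0' := rfl
  have e3 : (S.wD D0').Lam = S.Lam := rfl
  have e4 : (S.wD D0').toGRD.top = S.toGRD.top := rfl
  have e5 : (S.wD D0').eta = S.eta := rfl
  rw [e1, e2, e3, e4, e5]
  linarith

/-- **THE VIEW** -/
noncomputable def gvOf (H : S.HypT) (hp : S.PubL AL pl x Dx c) (hs : S.Steps D dK che zr cT) {N : ℕ}
    {ne nt r1 rmin q J hb : ℝ} (hr1 : 0 < r1) (hr1' : r1 ≤ 1 / 2) (hr0 : 2 * S.eta + r1 ≤ rmin)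
    (hne : ∑ t ∈ range N, S.P.Pr (che t) ≤ ne) (hnt : S.toGRD.ntot N ≤ nt)
    (hq : S.P.Pr (Dx N) + S.qrun ne nt r1 ≤ q) (hneJ : ne ≤ J)
    (hch : ∀ l t v w, AL l (t + 1) v = AL l (t + 1) w → S.f l (t + 1) v = S.f l (t + 1) w ∧ S.f l t v = S.f l t w)
    (chJ : ∀ l, ∑ t ∈ range N, S.P.Pr (fun w => S.f l (t + 1) w ≠ S.f l t w) ≤ J)
    (cJ : ∀ l, ∑ t ∈ range N, S.P.Pr (c l t) ≤ J)
    (ent0 : ∀ l, S.P.Hc (pl l 0) (ZL l 0) ≤ hb)
    (ent : ∀ l, ∑ t ∈ range N, S.P.Hc (pl l (t + 1)) (fun w => (pl l t w, ZL l (t + 1) w)) ≤ hb) :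
    GV S.P N S.toGRD.Z D AL ZL S.T che zr where
  PL := PL
  pl := pl
  X := S.toRA.Xc x (cT + 1)
  g := RA.gc x dK (cT + 1)
  ev := S.toRA.ev x D dK (cT + 1)
  utd := S.toGRD.utd
  D0 := Dx
  D1 := (S.wD Dx).toRA.DD' Dx (cT + 1)
  c := c
  ch := fun l t w => S.f l (t + 1) w ≠ S.f l t w
  eta := S.eta
  q := q
  J := J
  a6 := Fintype.card L * S.toGRD.top
  rmin := rmin
  cb := cT + 1
  hb := hb
  eta0 := H.eta0
  cb0 := by linarith [hs.cT0]
  plA := hp.plA
  plc := hp.plc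
  Xb := fun t w => RA.Xc_abs (by linarith [hs.cT0]) t w
  view := fun A hA s hs' Dd => RA.viewHyp (pub_of H hp hs hp.Dxi (fun _ _ h => h) A hA)
    (by linarith [hs.cT0]) hs' Dd
  D0inc := hp.Dxi
  D1inc := fun t w hw h => by
    rcases h with h | h
    · exact Or.inl (RA.dead'_inc (toRA_hyp (wD_hyp H hp.Dxi fun t w _ h => hp.D0x t w h)) _ t w hw h)
    · exact Or.inr (hp.Dxi t w hw h)
  D01 := fun t w h => Or.inr h
  D0q := by
    have h1 : 0 ≤ ne := (Finset.sum_nonneg fun _ _ => S.P.Pr_nonneg _).trans hne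
    have h2 : 0 ≤ nt := (GRD.ntot_nonneg N).trans hnt
    linarith [qrun_nn H h1 h2 hr1]
  D1q := by
    have h1 : ∑ t ∈ range N, S.P.Pr (fun w => S.e (t + 1) w ≠ S.e t w) ≤ ne :=
      (Finset.sum_le_sum fun t _ => S.P.Pr_mono fun w _ h => hs.che t w h).trans hne
    linarith [D1_le H hp hs h1 hnt hr1 hr1']
  XS1 := fun s hs0 t w hw hx hd =>
    RA.XS' (pub_of H hp hs hp.Dxi (fun _ _ h => h) (fun t w => (S.toGRD.Z t w, fun l => (fun s : Fin (t + 1) => pl l s w)))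
      { filt := by
          intro t v w hv
          simp only [Prod.mk.injEq] at hv ⊢
          refine ⟨GRD.Z_filt H.hyp t v w hv.1, ?_⟩
          funext l s
          exact congrFun (congrFun hv.2 l) ⟨s.val, by omega⟩
        Z := fun t v w hv => congrArg Prod.fst hv
        pl := fun l t v w hv => congrFun (congrFun (congrArg Prod.snd hv) l) ⟨t, Nat.lt_succ_self t⟩ })
      (c := cT + 1) hs0 t w hw hx hd
  SX1 := fun s2 t w hw hx hd hu =>
    RA.SX' (pub_of H hp hs hp.Dxi (fun _ _ h => h) (fun t w => (S.toGRD.Z t w, fun l => (fun s : Fin (t + 1) => pl l s w)))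
      { filt := by
          intro t v w hv
          simp only [Prod.mk.injEq] at hv ⊢
          refine ⟨GRD.Z_filt H.hyp t v w hv.1, ?_⟩
          funext l s
          exact congrFun (congrFun hv.2 l) ⟨s.val, by omega⟩
        Z := fun t v w hv => congrArg Prod.fst hv
        pl := fun l t v w hv => congrFun (congrFun (congrArg Prod.snd hv) l) ⟨t, Nat.lt_succ_self t⟩ })
      (p := cT + 1 / 2) (c := cT + 1) (by linarith) (fun t w hw => by
        have h3 := hs.T t w hw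
        have h4 := hs.eta
        show |S.T t w| + S.eta < cT + 1 / 2
        linarith) t w hw hx hd hu
  ev1 := fun A hA t w hw ha he => by
    have h1 := RA.ev' (pub_of H hp hs hp.Dxi (fun _ _ h => h) A hA) (p := cT + 1 / 2) (c := cT + 1) (by linarith)
      (fun t w hw => by
        have h3 := hs.T t w hw
        have h4 := hs.eta
        show |S.T t w| + S.eta < cT + 1 / 2
        linarith) t w hw ha he
    rcases hp.xc t w h1 with h2 | h2
    · exact Or.inl (hs.che t w h2)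
    · exact Or.inr h2
  zer := fun t w hz => by
    have h1 : S.toRA.K (x t w) t w = 0 := hs.zer t w hz _ (hp.x1 t w)
    show (if |S.toRA.K (x t w) t w| ≤ cT + 1 then S.toRA.K (x t w) t w else 0) = 0
    rw [h1]
    simp
  utdc := fun t _ _ hY w hw => GRD.utd_coarse H.hyp t hY hw
  utdc' := fun t _ _ hY w hw => by
    rw [← S.P.ce_tower hY]
    exact S.P.ce_le_const (fun v hv => GRD.utd_Z_succ H.hyp t hv) hw
  cA := hp.cA
  cV := hp.cV
  cJ := cJ
  chA := fun l t v w hv => by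
    obtain ⟨h1, h2⟩ := hch l t v w hv
    rw [h1, h2]
  chJ := chJ
  eJ := hne.trans hneJ
  ent0 := ent0
  ent := ent
  thm := fun r hr D0' hi hD => by
    have h1 : ∑ t ∈ range N, S.P.Pr (fun w => S.e (t + 1) w ≠ S.e t w) ≤ ne :=
      (Finset.sum_le_sum fun t _ => S.P.Pr_mono fun w _ h => hs.che t w h).trans hne
    have hne0 : 0 ≤ ne := (Finset.sum_nonneg fun _ _ => S.P.Pr_nonneg _).trans hne
    have hnt0 : 0 ≤ nt := (GRD.ntot_nonneg N).trans hnt
    have hq0 := qrun_nn H hne0 hnt0 hr1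
    have hqq : S.qrun ne nt r1 ≤ q := by linarith [S.P.Pr_nonneg (Dx N)]
    have he0 := H.eta0
    have hTT : ∀ t w, S.P.p w ≠ 0 → |S.T t w| + S.eta < cT + 1 / 2 := fun t w hw => by
      have h3 := hs.T t w hw
      have h4 := hs.eta
      linarith
    have hA0 : Adm S.toGRD.Z pl (fun t w => (S.toGRD.Z t w, fun l => (fun s : Fin (t + 1) => pl l s w))) :=
      { filt := by
          intro t v w hv
          simp only [Prod.mk.injEq] at hv ⊢
          refine ⟨GRD.Z_filt H.hyp t v w hv.1, ?_⟩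
          funext l s
          exact congrFun (congrFun hv.2 l) ⟨s.val, by omega⟩
        Z := fun t v w hv => congrArg Prod.fst hv
        pl := fun l t v w hv => congrFun (congrFun (congrArg Prod.snd hv) l) ⟨t, Nat.lt_succ_self t⟩ }
    by_cases h9 : 2 * r ≤ cT + 1
    · refine ⟨(S.wD D0').toRA.DD D0' r, fun t w hw hd => RA.DD_inc (pub_of H hp hs hi hD _ hA0) r t w hw hd,
        fun t w hd => Or.inr hd, ?_, ?_, ?_, ?_⟩
      · have h2 := D2_le H hp hs hi hD h1 hnt hr1 hr0 hr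
        linarith
      · intro t w hw hx hd
        exact RA.XS (pub_of H hp hs hi hD _ hA0) (c := cT + 1) (by linarith) t w hw hx hd
      · intro s2 t w hw hs2 hx hd
        exact RA.SX (pub_of H hp hs hi hD _ hA0) (c := cT + 1) (r := r) (fun t w hw => by
          have h3 := hTT t w hw
          show |S.T t w| + S.eta ≤ cT + 1
          linarith) hs2 t w hw hx hd
      · intro κ' A hA t w hw hx ha
        exact RA.noev (pub_of H hp hs hi hD A hA) (c := cT + 1) (by linarith) (by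
          show S.eta ≤ r
          linarith) h9 (fun t w hw => by
          have h3 := hTT t w hw
          show |S.T t w| + S.eta < cT + 1
          linarith) t w hw hx ha
    · have h9' : cT + 1 < 2 * r := not_le.mp h9
      have hXle : ∀ t w, |S.toRA.Xc x (cT + 1) t w| ≤ cT + 1 := fun t w => RA.Xc_abs (by linarith [hs.cT0]) t w
      refine ⟨D0', hi, fun t w hw => hw, ?_, ?_, ?_, ?_⟩
      · have h2 : 0 ≤ ∑ t ∈ range N, S.P.Pr (fun w => (che t w ∨ ∃ l, S.f l (t + 1) w ≠ S.f l t w) ∧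
            (r ≤ |S.T t w| ∨ r ≤ |S.T (t + 1) w|) ∧ ¬ D0' (t + 1) w) :=
          Finset.sum_nonneg fun _ _ => S.P.Pr_nonneg _
        linarith
      · intro t w _ hx _
        have h2 := hXle t w
        linarith
      · intro s2 t w hw hs2 hx _
        exfalso
        have h3 := hTT t w hw
        linarith
      · intro κ' A _ t w _ hx _
        have h2 := hXle t w
        linarith

end gv

/-! ## without noise: letters -/

section letters

variable (S : GRT Om κ α β ι L F E F')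

open Classical in
/-- the letter of `l` at the time `t`: the new label if it is recorded while it is young -/
noncomputable def lt (l : L) : ℕ → Om → Option F
  | 0, w => some (S.f l 0 w)
  | t + 1, w => if S.toGRD.cS l t w ∧ S.toGRD.b t l w then some (S.f l (t + 1) w) else none

/-- the letters up to the time `t` -/
noncomputable def LH (l : L) (t : ℕ) (w : Om) : Fin (t + 1) → Option F := fun s => S.lt l s.val w

open Classical in
/-- published plain label: read at the last letter -/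
noncomputable def pv (l : L) : ℕ → Om → F'
  | 0, w => S.fp l 0 w
  | t + 1, w => if S.toGRD.cS l t w ∧ S.toGRD.b t l w then S.fp l (t + 1) w else pv l t w

/-- published value -/
noncomputable def xv (t : ℕ) (w : Om) : E × (L → F') := (S.e t w, fun l => S.pv l t w)

/-- recorded changes -/
def rch (l : L) (t : ℕ) (w : Om) : Prop := S.toGRD.cS l t w ∧ S.toGRD.b t l w

variable {S}

theorem lt_some {l : L} {t : ℕ} {w : Om} (h : S.rch l t w) : S.lt l (t + 1) w = some (S.f l (t + 1) w) := if_pos h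

theorem lt_none {l : L} {t : ℕ} {w : Om} (h : ¬ S.rch l t w) : S.lt l (t + 1) w = none := if_neg h

theorem pv_of {l : L} {t : ℕ} {w : Om} (h : S.rch l t w) : S.pv l (t + 1) w = S.fp l (t + 1) w := if_pos h

theorem pv_not {l : L} {t : ℕ} {w : Om} (h : ¬ S.rch l t w) : S.pv l (t + 1) w = S.pv l t w := if_neg h

theorem rch_iff_lt {l : L} {t : ℕ} {w : Om} : S.rch l t w ↔ S.lt l (t + 1) w ≠ none := by
  by_cases h : S.rch l t w
  · rw [lt_some h]
    simp [h]
  · rw [lt_none h]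
    simp [h]

theorem LH_last (l : L) (t : ℕ) (w : Om) : S.LH l t w ⟨t, Nat.lt_succ_self t⟩ = S.lt l t w := rfl

theorem rch_iff (h : S.toGRD.Hyp) {l : L} {t : ℕ} {v w : Om}
    (hv : S.toGRD.AQ (S.S l) (t + 1) v = S.toGRD.AQ (S.S l) (t + 1) w) : S.rch l t v ↔ S.rch l t w :=
  and_congr (GRD.cS_iff (GRD.AQ_fac_ZJ _ _ v w hv)) (GRD.b_iff h hv)

theorem lt_fac (h : S.toGRD.Hyp) (l : L) (t : ℕ) : Fac (S.toGRD.AQ (S.S l) t) (S.lt l t) := by
  cases t with
  | zero =>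
    intro v w hv
    show some (S.f l 0 v) = some (S.f l 0 w)
    rw [h.ff l 0 v w hv]
  | succ t =>
    intro v w hv
    have h1 := rch_iff h hv
    by_cases hc : S.rch l t w
    · rw [lt_some hc, lt_some (h1.2 hc), h.ff l (t + 1) v w hv]
    · rw [lt_none hc, lt_none fun h' => hc (h1.1 h')]

theorem LH_fac (h : S.toGRD.Hyp) (l : L) (t : ℕ) : Fac (S.toGRD.AQ (S.S l) t) (S.LH l t) := by
  have h1 : ∀ s, s ≤ t → Fac (S.toGRD.AQ (S.S l) t) (S.toGRD.AQ (S.S l) s) := by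
    intro s hs
    induction t, hs using Nat.le_induction with
    | base => exact Fac.refl _
    | succ t _ ih => exact Fac.trans (GRD.AQ_filt h (S.S l) t) ih
  intro v w hv
  funext s
  exact lt_fac h l s.val v w (h1 s.val (Nat.lt_succ_iff.1 s.isLt) v w hv)

theorem LH_succ (l : L) (t : ℕ) : Fac (S.LH l (t + 1)) (S.LH l t) := by
  intro v w hv
  funext s
  exact congrFun hv ⟨s.val, by omega⟩

/-- off the errors the published plain label is the recorded plain label -/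
theorem pv_eq (H : S.HypT) {l : L} {t : ℕ} {w : Om} (hw : S.P.p w ≠ 0) (hd : ¬ S.D0 t w) :
    S.pv l t w = S.rp l t w := by
  induction t with
  | zero => rfl
  | succ t ih =>
    have hd' : ¬ S.D0 t w := fun h => hd (H.D0i t w hw h)
    by_cases hc : S.rch l t w
    · rw [pv_of hc, rp_succ_of hc.1]
    · rw [pv_not hc, ih hd']
      by_cases hs : S.toGRD.cS l t w
      · have hb : ¬ S.toGRD.b t l w := fun hb => hc ⟨hs, hb⟩
        by_contra hne
        exact hb (rp_ne H hw hd (fun h => hne h.symm)).2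
      · rw [rp_succ_of_not hs]

theorem xv_eq (H : S.HypT) {t : ℕ} {w : Om} (hw : S.P.p w ≠ 0) (hd : ¬ S.D0 t w) : S.xv t w = S.vr t w :=
  Prod.ext rfl (funext fun _ => pv_eq H hw hd)

/-- the published plain label is known from the letters and the node -/
theorem pv_fac (H : S.HypT) {κ' : ℕ → Type} (A : ∀ t, Om → κ' t) (hA : Adm S.toGRD.Z S.LH A) (l : L) (t : ℕ) :
    Fac (A t) (S.pv l t) := by
  induction t with
  | zero =>
    intro v w hv
    refine H.fpf l 0 v w (Prod.ext ?_ (hA.Z 0 v w hv))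
    have h1 : S.lt l 0 v = S.lt l 0 w := congrFun (hA.pl l 0 v w hv) ⟨0, Nat.lt_succ_self 0⟩
    exact Option.some.inj h1
  | succ t ih =>
    intro v w hv
    have h1 : S.lt l (t + 1) v = S.lt l (t + 1) w :=
      congrFun (hA.pl l (t + 1) v w hv) ⟨t + 1, Nat.lt_succ_self (t + 1)⟩
    by_cases hc : S.rch l t w
    · have hc' : S.rch l t v := by
        rw [rch_iff_lt, h1, ← rch_iff_lt]
        exact hc
      rw [pv_of hc, pv_of hc']
      refine H.fpf l (t + 1) v w (Prod.ext ?_ (hA.Z (t + 1) v w hv))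
      rw [lt_some hc, lt_some hc'] at h1
      exact Option.some.inj h1
    · have hc' : ¬ S.rch l t v := fun h' => hc (by
        rw [rch_iff_lt, ← h1, ← rch_iff_lt]
        exact h')
      rw [pv_not hc, pv_not hc']
      exact ih v w (hA.filt t v w hv)

/-- **published labels without noise** -/
theorem pubL_LH (H : S.HypT) {ζ : L → ℕ → Type} {AL : ∀ l t, Om → ζ l t}
    (hAL : ∀ l t, Fac (AL l t) (S.toGRD.AQ (S.S l) t)) : S.PubL AL S.LH S.xv S.D0 S.rch where
  plA l t := (hAL l t).trans (LH_fac H.hyp l t)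
  plc := LH_succ
  x1 _ _ := rfl
  xV A hA t := by
    intro v w hv
    refine Prod.ext (H.fe t v w (hA.Z t v w hv)) (funext fun l => ?_)
    exact pv_fac H A hA l t v w hv
  Dxi := H.D0i
  D0x _ _ h := h
  xv t w hw hd := xv_eq H hw hd
  xc t w hx := by
    by_contra hn
    push Not at hn
    apply hx
    refine Prod.ext hn.1 (funext fun l => ?_)
    exact pv_not (hn.2 l)
  cA l t v w hv := rch_iff H.hyp (hAL l (t + 1) v w hv)
  cV l t v w hv := by
    have h1 : S.lt l (t + 1) v = S.lt l (t + 1) w := congrFun hv ⟨t + 1, Nat.lt_succ_self (t + 1)⟩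
    rw [rch_iff_lt, rch_iff_lt, h1]

theorem rch_count (l : L) (n : ℕ) :
    ∑ t ∈ range n, S.P.Pr (S.rch l t) ≤ ∑ t ∈ range n, S.P.Pr (fun w => S.f l (t + 1) w ≠ S.f l t w) :=
  GRD.sum_rec (R := S.toGRD) l n

/-- created entropy of the letters -/
theorem LH_entropy [Fintype L] [Fintype F] (h : S.toGRD.Hyp) (l : L) (n : ℕ) {Hh nl : ℝ} (hH : 0 ≤ Hh)
    (hF : (Fintype.card F : ℝ) ≤ Real.exp Hh)
    (hf : ∑ t ∈ range n, S.P.Pr (fun w => S.f l (t + 1) w ≠ S.f l t w) ≤ nl) :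
    ∑ t ∈ range n, S.P.Hc (S.LH l (t + 1)) (fun w => (S.LH l t w, S.toGRD.ZJ (S.S l) (t + 1) w)) ≤
      nl * (1 + Real.log (4 / S.al 0) + Hh) + 2 ^ Fintype.card ι * S.toGRD.ntot n / 4 := by
  have hal := h.al0 0
  have hal1 := h.al1 0
  have hone : (1 : ℝ) / (S.al 0 / 4) = 4 / S.al 0 := one_div_div _ _
  have hlog : 0 ≤ Real.log (1 / (S.al 0 / 4)) := by
    apply Real.log_nonneg
    rw [one_div_div, le_div_iff₀ hal]
    linarith
  have h1 : ∀ t, S.P.Hc (S.LH l (t + 1)) (fun w => (S.LH l t w, S.toGRD.ZJ (S.S l) (t + 1) w)) ≤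
      S.P.Pr (fun w => S.toGRD.cS l t w ∧ S.toGRD.b t l w) * (1 + Real.log (1 / (S.al 0 / 4)) + Hh) +
        S.al 0 / 4 * S.P.Pr (fun w => S.toGRD.cS l t w) := by
    intro t
    refine S.P.Hc_record_le (S.LH l t) (S.LH l (t + 1)) (S.toGRD.ZJ (S.S l) (t + 1)) (S.f l (t + 1)) ?_
      (fun w hs => hs.1) ?_ (by positivity) hH hF
    · intro v w e
      exact GRD.cS_iff e
    · intro v w e1 e2 e3
      funext s
      rcases Nat.lt_succ_iff_lt_or_eq.1 s.isLt with hs | hs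
      · exact congrFun e1 ⟨s.val, hs⟩
      · have e : s = ⟨t + 1, Nat.lt_succ_self (t + 1)⟩ := Fin.ext hs
        rw [e]
        show S.lt l (t + 1) v = S.lt l (t + 1) w
        by_cases hv : S.rch l t v
        · rw [lt_some hv, lt_some (e2.1 hv), e3 hv]
        · rw [lt_none hv, lt_none fun hh => hv (e2.2 hh)]
  refine le_trans (Finset.sum_le_sum (fun t _ => h1 t)) ?_
  rw [Finset.sum_add_distrib, ← Finset.sum_mul, ← Finset.mul_sum]
  have h2 := (GRD.sum_rec (R := S.toGRD) l n).trans hf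
  have h3 := GRD.cS_count h l n
  have h6 : (∑ t ∈ range n, S.P.Pr (fun w => S.toGRD.cS l t w ∧ S.toGRD.b t l w)) *
      (1 + Real.log (1 / (S.al 0 / 4)) + Hh) ≤ nl * (1 + Real.log (1 / (S.al 0 / 4)) + Hh) :=
    mul_le_mul_of_nonneg_right h2 (by linarith)
  rw [hone] at h6
  rw [hone]
  have h7 : S.al 0 / 4 * ∑ t ∈ range n, S.P.Pr (fun w => S.toGRD.cS l t w) =
      (S.al 0 * ∑ t ∈ range n, S.P.Pr (S.toGRD.cS l t)) / 4 := by
    have : ∑ t ∈ range n, S.P.Pr (fun w => S.toGRD.cS l t w) = ∑ t ∈ range n, S.P.Pr (S.toGRD.cS l t) := rfl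
    rw [this]
    ring
  rw [h7]
  linarith

/-- entropy of the first letter -/
theorem LH_entropy0 [Fintype F] (l : L) {Hh : ℝ} (hH : 0 ≤ Hh) (hF : (Fintype.card F : ℝ) ≤ Real.exp Hh) :
    S.P.Hc (S.LH l 0) (S.toGRD.ZJ (S.S l) 0) ≤ Hh := by
  have h1 : S.P.Hc (S.LH l 0) (S.toGRD.ZJ (S.S l) 0) ≤ S.P.Hc (S.f l 0) (S.toGRD.ZJ (S.S l) 0) := by
    refine S.P.Hc_mono _ ?_
    intro v w hv
    simp only [Prod.mk.injEq] at hv
    funext s
    have hs : s = ⟨0, Nat.lt_succ_self 0⟩ := by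
      refine Fin.ext ?_
      have := s.isLt
      show s.val = 0
      omega
    rw [hs]
    show some (S.f l 0 v) = some (S.f l 0 w)
    rw [hv.1]
  refine h1.trans ((S.P.Hc_le_H _ _).trans ((S.P.H_le_log_card _).trans ?_))
  rcases Nat.eq_zero_or_pos (Fintype.card F) with h2 | h2
  · rw [h2]
    simpa using hH
  · rw [Real.log_le_iff_le_exp (by exact_mod_cast h2)]
    exact hF

end letters

end GRT

end Pool.Agent.GM
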