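import Pool.Agent.M3.RdPull
import Pool.Agent.GM.GV

/-!
# GM/GPull (helper55): pulling back the recorded labels along a map of probability spaces (port of M3/RdPull to index sets)

* `GRD.pull`, `pull_y`, `pull_b`, `pull_cl`, `pull_cS`, `pull_utd`, `pull_rc`, `pull_hyp`, `pull_ntot`;
* `GRT.pull` (dead points pulled back), `pull_rp`, `pull_vr`, `pull_hypT`, `pull_steps`.
-/

set_option autoImplicit false
set_option linter.unusedSectionVars false

namespace Pool.Agent.GM

open Finset Pool.Agent.PWZ Pool.Agent.M3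

variable {Om Om' : Type} [Fintype Om] [Fintype Om'] {κ : ℕ → Type} {α β ι L F E F' : Type} [Fintype ι]
  [DecidableEq ι]

namespace GRD

/-- the pull back -/
def pull (R : GRD Om' κ α β ι L F) (P : FP Om) (pi : Om → Om') : GRD Om κ α β ι L F where
  P := P
  Q := fun t w => R.Q t (pi w)
  A := fun w => R.A (pi w)
  X := fun w => R.X (pi w)
  S := R.S
  f := fun l t w => R.f l t (pi w)
  al := R.al

variable {R : GRD Om' κ α β ι L F} {P : FP Om} {pi : Om → Om'}

theorem pull_Z (t : ℕ) (w : Om) : (R.pull P pi).Z t w = R.Z t (pi w) := rfl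

theorem pull_ZJ (J : Finset ι) (t : ℕ) (w : Om) : (R.pull P pi).ZJ J t w = R.ZJ J t (pi w) := rfl

theorem pull_AQ (J : Finset ι) (t : ℕ) (w : Om) : (R.pull P pi).AQ J t w = R.AQ J t (pi w) := rfl

theorem pull_top : (R.pull P pi).top = R.top := rfl

variable (H : Pul P R.P pi)

include H

theorem pull_clo (t : ℕ) (y : L → Om' → Prop) (J : Finset ι) (w : Om) :
    (R.pull P pi).clo t (fun l v => y l (pi v)) J w ↔ R.clo t y J (pi w) := by
  unfold clo
  refine exists_congr fun l => and_congr Iff.rfl ?_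
  have h : (R.pull P pi).P.ce ((R.pull P pi).ZJ J t) (fun v => ind (y l (pi v))) w =
      R.P.ce (R.ZJ J t) (fun v => ind (y l v)) (pi w) := H.ce (R.ZJ J t) (fun v => ind (y l v)) w
  rw [h]
  exact Iff.rfl

theorem pull_stg (t : ℕ) (y : L → Om' → Prop) (s : ℕ) (l : L) (w : Om) :
    (R.pull P pi).stg t (fun l v => y l (pi v)) s l w ↔ R.stg t y s l (pi w) := by
  induction s generalizing l w with
  | zero => exact Iff.rfl
  | succ s ih =>
    have h1 : (R.pull P pi).stg t (fun l v => y l (pi v)) s = fun l v => R.stg t y s l (pi v) :=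
      funext fun l => funext fun v => propext (ih l v)
    show ((R.pull P pi).stg t (fun l v => y l (pi v)) s l w ∧
      ∀ J, J ⊆ (R.pull P pi).S l → J.card = s → ¬ (R.pull P pi).clo t ((R.pull P pi).stg t (fun l v => y l (pi v)) s) J w) ↔
      (R.stg t y s l (pi w) ∧ ∀ J, J ⊆ R.S l → J.card = s → ¬ R.clo t (R.stg t y s) J (pi w))
    rw [h1]
    refine and_congr Iff.rfl (forall_congr' fun J => forall_congr' fun _ => forall_congr' fun _ => ?_)
    exact not_congr (pull_clo H t (R.stg t y s) J w)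

theorem pull_y (t : ℕ) (l : L) (w : Om) : (R.pull P pi).y t l w ↔ R.y t l (pi w) := by
  induction t generalizing l w with
  | zero => exact Iff.rfl
  | succ t ih =>
    have h1 : (fun (l : L) (v : Om) => (R.pull P pi).y t l v ∨ (R.pull P pi).f l (t + 1) v ≠ (R.pull P pi).f l t v) =
        fun l v => (R.y t l (pi v) ∨ R.f l (t + 1) (pi v) ≠ R.f l t (pi v)) :=
      funext fun l => funext fun v => by
        rw [propext (ih l v)]
        rfl
    show (R.pull P pi).stg (t + 1) (fun l w => (R.pull P pi).y t l w ∨ (R.pull P pi).f l (t + 1) w ≠ (R.pull P pi).f l t w)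
      (Fintype.card ι + 1) l w ↔ _
    rw [h1]
    exact pull_stg H (t + 1) (fun l v => R.y t l v ∨ R.f l (t + 1) v ≠ R.f l t v) (Fintype.card ι + 1) l w

theorem pull_b (t : ℕ) (l : L) (w : Om) : (R.pull P pi).b t l w ↔ R.b t l (pi w) :=
  or_congr (pull_y H t l w) Iff.rfl

theorem pull_st (t s : ℕ) (l : L) (w : Om) : (R.pull P pi).st t s l w ↔ R.st t s l (pi w) := by
  have h1 : (R.pull P pi).b t = fun l v => R.b t l (pi v) := funext fun l => funext fun v => propext (pull_b H t l v)
  unfold st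
  rw [h1]
  exact pull_stg H (t + 1) (R.b t) s l w

theorem pull_cl (J : Finset ι) (t : ℕ) (w : Om) : (R.pull P pi).cl J t w ↔ R.cl J t (pi w) := by
  have h1 : (R.pull P pi).st t J.card = fun l v => R.st t J.card l (pi v) :=
    funext fun l => funext fun v => propext (pull_st H t J.card l v)
  unfold cl
  rw [h1]
  exact pull_clo H (t + 1) (R.st t J.card) J w

theorem pull_cS (l : L) (t : ℕ) (w : Om) : (R.pull P pi).cS l t w ↔ R.cS l t (pi w) := by
  unfold cS
  exact exists_congr fun J => and_congr Iff.rfl (pull_cl H J t w)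

theorem pull_utd (t : ℕ) (w : Om) : (R.pull P pi).utd t w ↔ R.utd t (pi w) := by
  unfold utd
  exact forall_congr' fun l => not_congr (pull_y H t l w)

theorem pull_rc (l : L) (t : ℕ) (w : Om) : (R.pull P pi).rc l t w = R.rc l t (pi w) := by
  induction t with
  | zero => rfl
  | succ t ih =>
    by_cases h : R.cS l t (pi w)
    · rw [rc_succ_of h, rc_succ_of ((pull_cS H l t w).2 h)]
      rfl
    · rw [rc_succ_of_not h, rc_succ_of_not (fun h' => h ((pull_cS H l t w).1 h')), ih]

/-- THE HYPOTHESES ARE PULLED BACK -/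
theorem pull_hyp (h : R.Hyp) : (R.pull P pi).Hyp where
  filt := fun t v w hv => h.filt t (pi v) (pi w) hv
  S1 := h.S1
  ff := fun l t v w hv => h.ff l t (pi v) (pi w) hv
  ind := fun J I t q hq w hw => by
    obtain ⟨q', h1, h2⟩ := exists_pull (X := fun w => R.AQ I t w) (pi := pi) hq
    rw [show q = fun v => q' (pi v) from funext h2]
    exact (H.ce (R.ZJ J t) q' w).trans ((h.ind J I t q' h1 (pi w) (H.ne hw)).trans (H.ce (R.ZJ (J ∩ I) t) q' w).symm)
  dbl := fun t q hq w hw => by
    obtain ⟨q', h1, h2⟩ := H.ce_any hq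
    have e1 : (R.pull P pi).P.ce ((R.pull P pi).Z (t + 1)) q w = R.P.ce (R.Z (t + 1)) q' (pi w) :=
      h2 (R.Z (t + 1)) w
    have e2 : (R.pull P pi).P.ce ((R.pull P pi).Z t) q w = R.P.ce (R.Z t) q' (pi w) := h2 (R.Z t) w
    rw [e1, e2]
    exact h.dbl t q' h1 (pi w) (H.ne hw)
  al0 := h.al0
  al1 := h.al1
  ab := h.ab

theorem pull_ntot [Fintype L] (n : ℕ) : (R.pull P pi).ntot n = R.ntot n := by
  unfold ntot
  exact Finset.sum_congr rfl fun l _ => Finset.sum_congr rfl fun t _ =>
    H.Pr (fun w => R.f l (t + 1) w ≠ R.f l t w)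

end GRD

namespace GRT

/-- the pull back -/
def pull (S : GRT Om' κ α β ι L F E F') (P : FP Om) (pi : Om → Om') : GRT Om κ α β ι L F E F' where
  toGRD := S.toGRD.pull P pi
  e := fun t w => S.e t (pi w)
  fp := fun l t w => S.fp l t (pi w)
  K := fun v t w => S.K v t (pi w)
  T := fun t w => S.T t (pi w)
  D0 := fun t w => S.D0 t (pi w)
  Lam := S.Lam
  eta := S.eta

variable {S : GRT Om' κ α β ι L F E F'} {P : FP Om} {pi : Om → Om'} (H : Pul P S.P pi)

include H

theorem pull_rp (l : L) (t : ℕ) (w : Om) : (S.pull P pi).rp l t w = S.rp l t (pi w) := by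
  induction t with
  | zero => rfl
  | succ t ih =>
    by_cases h : S.toGRD.cS l t (pi w)
    · rw [rp_succ_of h, rp_succ_of (S := S.pull P pi) ((GRD.pull_cS H l t w).2 h)]
      rfl
    · rw [rp_succ_of_not h, rp_succ_of_not (S := S.pull P pi) (fun h' => h ((GRD.pull_cS H l t w).1 h')), ih]

theorem pull_vr (t : ℕ) (w : Om) : (S.pull P pi).vr t w = S.vr t (pi w) :=
  Prod.ext rfl (funext fun l => pull_rp H l t w)

/-- THE HYPOTHESES ARE PULLED BACK -/
theorem pull_hypT (h : S.HypT) : (S.pull P pi).HypT where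
  hyp := GRD.pull_hyp H h.hyp
  fe := fun t v w hv => h.fe t (pi v) (pi w) hv
  fpf := fun l t v w hv => h.fpf l t (pi v) (pi w) hv
  cf := fun l t w hw hd he => h.cf l t (pi w) (H.ne hw) hd he
  Kf := fun v t x y hv => h.Kf v t (pi x) (pi y) hv
  Ks := fun v t w hw => by
    have h1 := h.Ks v t (pi w) (H.ne hw)
    rw [← H.ce (S.toGRD.Z t) (fun z => |S.K v (t + 1) z|) w] at h1
    exact h1
  Kb := fun v t w hw => h.Kb v t (pi w) (H.ne hw)
  D0i := fun t w hw hd => h.D0i t (pi w) (H.ne hw) hd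
  TX := fun t w hw hd => h.TX t (pi w) (H.ne hw) hd
  Lam0 := h.Lam0
  eta0 := h.eta0

/-- digits and steps are pulled back -/
theorem pull_steps {D : ℕ → Om' → ℝ} {dK : E × (L → F') → ℕ → Om' → ℝ} {che zr : ℕ → Om' → Prop} {cT : ℝ}
    (hs : S.Steps D dK che zr cT) : (S.pull P pi).Steps (fun t w => D t (pi w)) (fun v t w => dK v t (pi w))
      (fun t w => che t (pi w)) (fun t w => zr t (pi w)) cT where
  digit := fun t w hw => hs.digit t (pi w) (H.ne hw)
  DZ := fun t v w hv => hs.DZ t (pi v) (pi w) hv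
  dKf := fun v t x y hv => hs.dKf v t (pi x) (pi y) hv
  step := fun t w hw hd => by
    have h1 := hs.step t (pi w) (H.ne hw) hd
    rw [pull_vr H]
    exact h1
  T := fun t w hw => hs.T t (pi w) (H.ne hw)
  cT0 := hs.cT0
  eta := hs.eta
  che := fun t w h => hs.che t (pi w) h
  zer := fun t w hz v hv => hs.zer t (pi w) hz v hv

theorem pull_Pr_f (l : L) (t : ℕ) : P.Pr (fun w => (S.pull P pi).f l (t + 1) w ≠ (S.pull P pi).f l t w) =
    S.P.Pr (fun w => S.f l (t + 1) w ≠ S.f l t w) := H.Pr (fun w => S.f l (t + 1) w ≠ S.f l t w)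

end GRT

end Pool.Agent.GM
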