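import Pool.Agent.GM.MovSys

/-!
# GM/GScoin (helper17): the layer of a coin free moving function is coin free

`mLst_coin`, `mStr_coin`, `mRes_coin`.
-/

set_option autoImplicit false
set_option linter.unusedSectionVars false

namespace Pool.Agent.GM

open Finset Pool.Agent.PWZ Pool.Agent.M3 Pool.Agent.M3.TS
open Pool.Agent.M3.Bin (nst thrs nst_lt)

noncomputable section

namespace GS

/-- two points which the RULE does not distinguish -/
theorem node_pt {P V T : Type*} [Fintype V] [Nonempty T] {ep thr : ℝ} {val : T → P → V → ℝ} {F : P → V → ℝ}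
    {Q : FP V} {C : Finset P} {p q : P} (hC : p ∈ C ↔ q ∈ C) (hF : F p = F q) (hv : ∀ τ, val τ p = val τ q) (t : ℕ)
    {L : P → List (Birth T)} (hL : L p = L q) (k : ℕ) :
    node ep thr val F Q C t L k p = node ep thr val F Q C t L k q := by
  induction k with
  | zero => exact hL
  | succ k ih =>
    set M := node ep thr val F Q C t L k with hM
    show step ep thr val F Q C t k M p = step ep thr val F Q C t k M q
    have h1 : ∀ τ, corr ep val F Q M τ p = corr ep val F Q M τ q := by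
      intro τ
      unfold corr resid struc
      simp only [ih, hF, hv]
    have h2 : ∀ τ, (p ∈ mem ep val F Q C M τ ↔ q ∈ mem ep val F Q C M τ) := by
      intro τ
      rw [mem_mem, mem_mem, hC, h1]
    by_cases h : HitR ep thr val F Q C M ∧ p ∈ mem ep val F Q C M (born ep thr val F Q C M)
    · rw [step_mem h.1 h.2, step_mem h.1 ((h2 _).1 h.2), ih]
    · rw [step_not_mem h, step_not_mem (fun h' => h ⟨h'.1, (h2 _).2 h'.2⟩), ih]

/-- two points which the machine does not distinguish -/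
theorem lstM_pt {ι P V : Type*} {Gam : ℕ → Type*} [Fintype V] (D : Nodes P V Gam) (S : Tests ι P V) {ep thr : ℝ}
    {N : ℕ} {F : ∀ n, Gam n → P → V → ℝ} {p q : P} (hC : ∀ n, q ∈ D.cell n p) (hF : ∀ n γ, F n γ p = F n γ q)
    (hv : ∀ τ, S.val τ p = S.val τ q) : ∀ n (γ : Gam n), lstM D S ep thr N F n γ p = lstM D S ep thr N F n γ q := by
  intro n
  induction n with
  | zero =>
    intro γ
    show node ep thr S.val (F 0 γ) (D.J 0 γ) (D.cell 0 p) 0 (fun _ => []) N p =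
      node ep thr S.val (F 0 γ) (D.J 0 γ) (D.cell 0 q) 0 (fun _ => []) N q
    rw [D.coh 0 p q (hC 0)]
    exact node_pt (iff_of_true (D.self 0 p) (hC 0)) (hF 0 γ) hv 0 rfl N
  | succ n ih =>
    intro γ
    show node ep thr S.val (F (n + 1) γ) (D.J (n + 1) γ) (D.cell (n + 1) p) (n + 1)
        (lstM D S ep thr N F n (D.prev n γ)) N p =
      node ep thr S.val (F (n + 1) γ) (D.J (n + 1) γ) (D.cell (n + 1) q) (n + 1)
        (lstM D S ep thr N F n (D.prev n γ)) N q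
    rw [D.coh (n + 1) p q (hC (n + 1))]
    exact node_pt (iff_of_true (D.self (n + 1) p) (hC (n + 1))) (hF (n + 1) γ) hv (n + 1) (ih _) N

end GS

namespace Mv

variable {ι Om Ξ Pt V Γ κ : Type} [Fintype ι] [DecidableEq ι] [Fintype Om] [Fintype Ξ] [Fintype Pt]
  [Fintype V] (S : Sys ι Om Ξ Pt V Γ κ) (Vj : Finset ι) {w : ι} [Nonempty (TK Vj w)] {X ep th : ℝ}
  {Ψ : Mov Ξ ι Pt Γ (V → ℝ)}

/-- the lists of a coin free function are coin free -/
theorem mLst_coin (hΨ : ∀ t g ξ ξ', Ψ t g ξ = Ψ t g ξ') (t : ℕ) (g : Γ) (ξ ξ' : Ξ) :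
    mLst S Vj w X ep th Ψ t g ξ = mLst S Vj w X ep th Ψ t g ξ' := by
  funext x
  refine GS.lstM_pt (faceN S Vj w) (faceT Ξ Pt V Vj w) (fun n => ?_) (fun n γ => ?_) (fun τ => ?_) t g
  · show (ξ', rsw w x) ∈ (faceCl S Vj w).cell n (ξ, rsw w x)
    rw [mem_faceCl]
    exact ⟨fun _ _ => rfl, fun _ _ => rfl⟩
  · funext d
    show Ψ n γ ξ (glw w (S.x S.nonempty_Om.some w) (rsw w x)) d / X =
      Ψ n γ ξ' (glw w (S.x S.nonempty_Om.some w) (rsw w x)) d / X
    rw [hΨ n γ ξ ξ']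
  · funext d
    rfl

theorem mStr_coin (hΨ : ∀ t g ξ ξ', Ψ t g ξ = Ψ t g ξ') (t : ℕ) (g : Γ) (ξ ξ' : Ξ) :
    mStr S Vj w X ep th Ψ t g ξ = mStr S Vj w X ep th Ψ t g ξ' := by
  funext x d
  rw [mStr_psi, mStr_psi, mLst_coin S Vj hΨ t g ξ ξ']

theorem mRes_coin (hΨ : ∀ t g ξ ξ', Ψ t g ξ = Ψ t g ξ') (t : ℕ) (g : Γ) (ξ ξ' : Ξ) :
    mRes S Vj w X ep th Ψ t g ξ = mRes S Vj w X ep th Ψ t g ξ' := by
  funext x d
  unfold mRes
  rw [mStr_coin S Vj hΨ t g ξ ξ', hΨ t g ξ ξ']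

end Mv

end

end Pool.Agent.GM
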