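import Pool.Agent.GM.Sys
import Pool.Agent.GM.Sq2
import Pool.Agent.M3.S2.Geo

/-!
# GM/Geo0 (helper96): the binary model `Sq k N ι Θ (Ξ × Q)` with offset `σ`: joint law, resampling, positions

`vm ω j : Q × V k` the vertices, `xm i ω : Ξ` the coins of the vertex `i`, `gv σ h e ω` the node with the public randomness.
`pmfm` : `P(xm i = ξ, vm = y, gv = g) = κ W(∑ y)`;  `PS`, `PS'` : events of the vertices;
`resample` : a coordinate may be drawn again;  `bd_memm` : the position of a vertex whose cell is compatible.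
-/

set_option autoImplicit false
set_option linter.unusedSectionVars false

namespace Pool.Agent.GM

open Finset Pool.Agent.PWZ Pool.Agent.M3 Pool.Agent.M3.Bin
open Pool.Agent.M3.Mod (ex ex_zero ex_succ ex_top exk ex_anti Wz WS sum_Wz WS_nonneg Wz_nonneg Pr_sum Pr_none Pr_true cQ
  rho_nodes rho_one count_img num_aux sumQ)

noncomputable section

/-! ### sums over the functions -/

theorem ind_all {α : Type*} [Fintype α] (C : α → Prop) : ind (∀ a, C a) = ∏ a, ind (C a) := by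
  by_cases h : ∀ a, C a
  · rw [ind_of h]
    exact (Finset.prod_eq_one fun a _ => ind_of (h a)).symm
  · rw [ind_not h]
    push Not at h
    obtain ⟨a, ha⟩ := h
    exact (Finset.prod_eq_zero (mem_univ a) (ind_not ha)).symm

theorem sum_ind_one {α : Type*} [Fintype α] (a : α) : ∑ c : α, ind (c = a) = 1 := by
  classical
  rw [Finset.sum_eq_single a (fun c _ h => ind_not h) (fun h => absurd (mem_univ _) h), ind_of rfl]

theorem sum_prod {ι Pt : Type*} [Fintype ι] [DecidableEq ι] [Fintype Pt] (φ : ι → Pt → ℝ) :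
    ∑ z : ι → Pt, ∏ i, φ i (z i) = ∏ i, ∑ a, φ i a := by
  classical
  rw [Finset.prod_univ_sum, Fintype.piFinset_univ]

/-- **resampling of the coordinate `i`** -/
theorem resample {ι Pt : Type*} [Fintype ι] [DecidableEq ι] [Fintype Pt] (i : ι) (H : (ι → Pt) → ℝ) :
    (Fintype.card Pt : ℝ) * ∑ z : ι → Pt, H z = ∑ z : ι → Pt, ∑ a, H (Function.update z i a) := by
  classical
  have h1 : ∑ z : ι → Pt, ∑ a, H (Function.update z i a) =
      ∑ p : (ι → Pt) × Pt, H (Function.update p.1 i p.2) := by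
    rw [Fintype.sum_prod_type]
  have h2 : ∑ p : (ι → Pt) × Pt, H (Function.update p.1 i p.2) = ∑ p : (ι → Pt) × Pt, H p.1 := by
    refine Finset.sum_bij' (fun p _ => (Function.update p.1 i p.2, p.1 i)) (fun p _ => (Function.update p.1 i p.2, p.1 i))
      (fun _ _ => mem_univ _) (fun _ _ => mem_univ _) (fun p _ => ?_) (fun p _ => ?_) (fun p _ => rfl)
    · simp
    · simp
  rw [h1, h2, Fintype.sum_prod_type]
  simp only [Finset.sum_const, Finset.card_univ, nsmul_eq_mul]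
  rw [Finset.mul_sum]

theorem sum_upd {ι M : Type*} [Fintype ι] [DecidableEq ι] [AddCommMonoid M] {Pt : Type*} (f : Pt → M) (z : ι → Pt)
    (i : ι) (a : Pt) : ∑ j, f (Function.update z i a j) = (∑ j ∈ univ.erase i, f (z j)) + f a := by
  rw [← Finset.sum_erase_add univ _ (mem_univ i), Function.update_self]
  congr 1
  exact Finset.sum_congr rfl fun j hj => by rw [Function.update_of_ne (Finset.ne_of_mem_erase hj)]

variable {k N : ℕ} {ι Θ Ξ Q : Type} [Fintype ι] [DecidableEq ι] (σ : V k) [Fintype Θ] [Nonempty Θ] [Fintype Ξ]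
  [Nonempty Ξ] [Fintype Q] [Nonempty Q]

/-- the vertices with their own private randomness -/
def vm (ω : Sq k N ι Θ (Ξ × Q)) (j : ι) : Q × V k := ((vx j ω).1.2, (vx j ω).2)

/-- the coins of the vertex `i` -/
def xm (i : ι) (ω : Sq k N ι Θ (Ξ × Q)) : Ξ := (vx i ω).1.1

/-- the node with the public randomness -/
def gv (h e : ℕ) (ω : Sq k N ι Θ (Ξ × Q)) : Θ × (V k × ℕ) := (th ω, Gm σ h e ω)

/-- the law -/
abbrev PM (k N : ℕ) (ι Θ Ξ Q : Type) [Fintype ι] [DecidableEq ι] [Fintype Θ] [Nonempty Θ] [Fintype Ξ]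
    [Nonempty Ξ] [Fintype Q] [Nonempty Q] : FP (Sq k N ι Θ (Ξ × Q)) := Pm (k := k) (N := N) (ι := ι) (Θ := Θ) (P := Ξ × Q)

/-- the constant of the joint law -/
def kapm (k : ℕ) (ι Θ Ξ Q : Type) [Fintype ι] [Fintype Θ] [Fintype Ξ] [Fintype Q] : ℝ :=
  1 / ((Fintype.card Θ : ℝ) * Fintype.card Ξ * ((Fintype.card Q : ℝ) * 2 ^ k) ^ Fintype.card ι)

theorem kapm_pos : 0 < kapm k ι Θ Ξ Q := by
  have h2 : (0 : ℝ) < Fintype.card Ξ := by exact_mod_cast Fintype.card_pos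
  have h3 : (0 : ℝ) < Fintype.card Θ := by exact_mod_cast Fintype.card_pos
  have h4 : (0 : ℝ) < Fintype.card Q := by exact_mod_cast Fintype.card_pos
  unfold kapm
  positivity

/-- **joint law** of the coins, the vertices and the node -/
theorem pmfm (i : ι) (h e : ℕ) (g : Θ × (V k × ℕ)) (ξ : Ξ) (y : ι → Q × V k) :
    (PM k N ι Θ Ξ Q).Pr (fun ω => xm i ω = ξ ∧ vm ω = y ∧ gv σ h e ω = g) =
      kapm k ι Θ Ξ Q * Wz N h e g.2 (∑ j, (y j).2 + σ) := by
  classical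
  unfold PM FP.Pr Pm
  rw [FP.unif_E, Fintype.sum_prod_type]
  set φ : ι → (Ξ × Q) × V k → ℝ := fun j p =>
    ind (p.1.2 = (y j).1) * (ind (p.2 = (y j).2) * ind (j = i → p.1.1 = ξ)) with hφ
  have h1 : ∀ (θ : Θ) (q : (ι → (Ξ × Q) × V k) × Fin (2 ^ N)),
      ind ((fun ω : Sq k N ι Θ (Ξ × Q) => xm i ω = ξ ∧ vm ω = y ∧ gv σ h e ω = g) (θ, q)) =
      ind (θ = g.1) * ((∏ j, φ j (q.1 j)) * ind (G h e (∑ j, (y j).2 + σ) q.2.val = g.2)) := by
    intro θ q
    have h2 : ∏ j, φ j (q.1 j) = ind (∀ j, (q.1 j).1.2 = (y j).1 ∧ (q.1 j).2 = (y j).2 ∧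
        (j = i → (q.1 j).1.1 = ξ)) := by
      rw [ind_all]
      refine Finset.prod_congr rfl fun j _ => ?_
      rw [hφ]
      simp only
      rw [ind_and, ind_and]
    rw [h2, ← ind_and, ← ind_and]
    congr 1
    apply propext
    have hv : vm ((θ, q) : Sq k N ι Θ (Ξ × Q)) = y ↔ ∀ j, (q.1 j).1.2 = (y j).1 ∧ (q.1 j).2 = (y j).2 := by
      rw [funext_iff]
      refine forall_congr' fun j => ?_
      rw [Prod.ext_iff]
      rfl
    have hx : xm i ((θ, q) : Sq k N ι Θ (Ξ × Q)) = ξ ↔ (q.1 i).1.1 = ξ := Iff.rfl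
    have hg : gv σ h e ((θ, q) : Sq k N ι Θ (Ξ × Q)) = g ↔ θ = g.1 ∧
        G h e (∑ j, (q.1 j).2 + σ) q.2.val = g.2 := by
      rw [Prod.ext_iff]
      rfl
    show (xm i ((θ, q) : Sq k N ι Θ (Ξ × Q)) = ξ ∧ vm ((θ, q) : Sq k N ι Θ (Ξ × Q)) = y ∧
      gv σ h e ((θ, q) : Sq k N ι Θ (Ξ × Q)) = g) ↔ _
    rw [hv, hx, hg]
    constructor
    · rintro ⟨a1, a2, a3, a4⟩
      have a5 : ∑ j, (q.1 j).2 = ∑ j, (y j).2 := Finset.sum_congr rfl fun j _ => (a2 j).2
      rw [a5] at a4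
      exact ⟨a3, fun j => ⟨(a2 j).1, (a2 j).2, fun hj => by rw [hj]; exact a1⟩, a4⟩
    · rintro ⟨a1, a2, a3⟩
      have a5 : ∑ j, (q.1 j).2 = ∑ j, (y j).2 := Finset.sum_congr rfl fun j _ => (a2 j).2.1
      rw [← a5] at a3
      exact ⟨(a2 i).2.2 rfl, fun j => ⟨(a2 j).1, (a2 j).2.1⟩, a1, a3⟩
  have hs : ∀ j, ∑ p : (Ξ × Q) × V k, φ j p = if j = i then 1 else (Fintype.card Ξ : ℝ) := by
    intro j
    rw [hφ]
    simp only
    rw [Fintype.sum_prod_type, Fintype.sum_prod_type]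
    have h2 : ∀ (a : Ξ) (b : Q), ∑ c : V k, ind (b = (y j).1) * (ind (c = (y j).2) * ind (j = i → a = ξ)) =
        ind (b = (y j).1) * ind (j = i → a = ξ) := by
      intro a b
      rw [← Finset.mul_sum, ← Finset.sum_mul]
      rw [sum_ind_one, one_mul]
    rw [Finset.sum_congr rfl fun a _ => Finset.sum_congr rfl fun b _ => h2 a b]
    have h4 : ∀ a : Ξ, ∑ b : Q, ind (b = (y j).1) * ind (j = i → a = ξ) = ind (j = i → a = ξ) := by
      intro a
      rw [← Finset.sum_mul]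
      rw [sum_ind_one, one_mul]
    rw [Finset.sum_congr rfl fun a _ => h4 a]
    by_cases hj : j = i
    · rw [if_pos hj]
      have h5 : ∀ a : Ξ, ind (j = i → a = ξ) = ind (ξ = a) * 1 := by
        intro a
        rw [mul_one]
        congr 1
        apply propext
        exact ⟨fun h => (h hj).symm, fun h _ => h.symm⟩
      rw [Finset.sum_congr rfl fun a _ => h5 a, sum_ind_eq]
    · rw [if_neg hj]
      have h5 : ∀ a : Ξ, ind (j = i → a = ξ) = 1 := fun a => ind_of fun h => absurd h hj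
      rw [Finset.sum_congr rfl fun a _ => h5 a, Finset.sum_const, Finset.card_univ, nsmul_eq_mul, mul_one]
  have h2 : ∑ θ : Θ, ∑ q : (ι → (Ξ × Q) × V k) × Fin (2 ^ N),
      ind ((fun ω : Sq k N ι Θ (Ξ × Q) => xm i ω = ξ ∧ vm ω = y ∧ gv σ h e ω = g) (θ, q)) =
      (∏ j, if j = i then 1 else (Fintype.card Ξ : ℝ)) *
        ∑ w ∈ range (2 ^ N), ind (G h e (∑ j, (y j).2 + σ) w = g.2) := by
    rw [Finset.sum_congr rfl fun θ _ => Finset.sum_congr rfl fun q _ => h1 θ q]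
    rw [Finset.sum_congr rfl fun θ _ => (Finset.mul_sum _ _ _).symm]
    have h3 : ∑ θ : Θ, ind (θ = g.1) * ∑ q : (ι → (Ξ × Q) × V k) × Fin (2 ^ N),
        ((∏ j, φ j (q.1 j)) * ind (G h e (∑ j, (y j).2 + σ) q.2.val = g.2)) =
        ∑ q : (ι → (Ξ × Q) × V k) × Fin (2 ^ N),
        ((∏ j, φ j (q.1 j)) * ind (G h e (∑ j, (y j).2 + σ) q.2.val = g.2)) := by
      rw [← Finset.sum_mul]
      rw [sum_ind_one, one_mul]
    rw [h3, Fintype.sum_prod_type]
    show ∑ x : ι → (Ξ × Q) × V k, ∑ w : Fin (2 ^ N), (∏ j, φ j (x j)) * ind (G h e (∑ j, (y j).2 + σ) w.val = g.2) = _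
    rw [← Finset.prod_congr rfl fun j _ => hs j, ← sum_prod, Finset.sum_mul,
      Finset.sum_range (fun w => ind (G h e (∑ j, (y j).2 + σ) w = g.2))]
    exact Finset.sum_congr rfl fun x _ => (Finset.mul_sum _ _ _).symm
  rw [h2]
  have hprod : (Fintype.card Ξ : ℝ) * ∏ j, (if j = i then 1 else (Fintype.card Ξ : ℝ)) =
      (Fintype.card Ξ : ℝ) ^ Fintype.card ι := by
    rw [← Finset.mul_prod_erase univ _ (mem_univ i), if_pos rfl, one_mul,
      Finset.prod_congr rfl fun j hj => if_neg (Finset.ne_of_mem_erase hj), Finset.prod_const,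
      Finset.card_erase_of_mem (mem_univ i), Finset.card_univ, ← pow_succ']
    congr 1
    have := Fintype.card_pos_iff.2 ⟨i⟩
    omega
  have hcard : (Fintype.card (Sq k N ι Θ (Ξ × Q)) : ℝ) =
      Fintype.card Θ * (((Fintype.card Ξ : ℝ) * Fintype.card Q * 2 ^ k) ^ Fintype.card ι * 2 ^ N) := by
    rw [Fintype.card_prod, Fintype.card_prod, Fintype.card_fun, Fintype.card_prod, Fintype.card_prod, card_V,
      Fintype.card_fin]
    push_cast
    rfl
  rw [hcard]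
  unfold kapm Wz
  have c1 := cQ (Q := Ξ)
  have c2 := cQ (Q := Θ)
  have c3 := cQ (Q := Q)
  have h4 : (∏ j, if j = i then 1 else (Fintype.card Ξ : ℝ)) = (Fintype.card Ξ : ℝ) ^ Fintype.card ι / Fintype.card Ξ := by
    rw [eq_div_iff c1, mul_comm]
    exact hprod
  rw [h4, mul_assoc (Fintype.card Ξ : ℝ), mul_pow]
  field_simp

/-- events of the vertices -/
theorem PS (i : ι) (h e : ℕ) (g : Θ × (V k × ℕ)) (ξ : Ξ) (C : (ι → Q × V k) → Prop) :
    (PM k N ι Θ Ξ Q).Pr (fun ω => xm i ω = ξ ∧ C (vm ω) ∧ gv σ h e ω = g) =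
      kapm k ι Θ Ξ Q * ∑ y, ind (C y) * Wz N h e g.2 (∑ j, (y j).2 + σ) := by
  classical
  rw [Pr_sum _ vm, Finset.mul_sum]
  refine Finset.sum_congr rfl fun y _ => ?_
  by_cases hy : C y
  · rw [ind_of hy, one_mul, ← pmfm σ i h e g ξ y]
    refine FP.Pr_congr _ fun ω _ => ?_
    constructor
    · rintro ⟨h1, h2, _, h3⟩
      exact ⟨h2, h1, h3⟩
    · rintro ⟨h1, h2, h3⟩
      exact ⟨h2, h1, by rw [h2]; exact hy, h3⟩
  · rw [ind_not hy, zero_mul, mul_zero]
    refine Pr_none _ ?_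
    rintro ω ⟨h1, -, h3, -⟩
    rw [h1] at h3
    exact hy h3

/-- without the coins -/
theorem PS' (i : ι) (h e : ℕ) (g : Θ × (V k × ℕ)) (C : (ι → Q × V k) → Prop) :
    (PM k N ι Θ Ξ Q).Pr (fun ω => C (vm ω) ∧ gv σ h e ω = g) =
      Fintype.card Ξ * (kapm k ι Θ Ξ Q * ∑ y, ind (C y) * Wz N h e g.2 (∑ j, (y j).2 + σ)) := by
  rw [Pr_sum _ (xm i), Finset.sum_congr rfl fun ξ _ => PS σ i h e g ξ C, Finset.sum_const, Finset.card_univ, nsmul_eq_mul]

/-- the sum over one vertex -/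
theorem sum_Wzm (h e : ℕ) (g : V k × ℕ) (z : ι → Q × V k) (i : ι) :
    ∑ a : Q × V k, Wz N h e g (∑ j, (Function.update z i a j).2 + σ) = WS Q N h e g := by
  rw [← sum_Wz h e g (∑ j ∈ univ.erase i, (z j).2 + σ)]
  refine Finset.sum_congr rfl fun a _ => ?_
  congr 1
  rw [sum_upd (fun p : Q × V k => p.2) z i a]
  abel

/-! ### positions -/

/-- the position of a vertex whose cell is compatible -/
theorem bd_memm {s j e n : ℕ} (l : ι) (x α : ι → V k) (r : ι → ℕ) {c0 g1 : V k} (hn : n < 2 ^ e)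
    (hx : ∀ i, i ≠ l → x i = α i + (r i : V k)) (hr : ∀ i, i ≠ l → r i < 2 ^ s) (hc : flr s (x l) = flr s c0)
    (hg : flr j (∑ i, x i + σ + (n : V k)) = g1) :
    ∃ M' : ℕ, M' < 2 ^ j + 2 ^ e + (Fintype.card ι + 1) * 2 ^ s ∧
      c0 = (g1 - σ - ∑ i ∈ univ.erase l, α i + ((2 ^ j - 1 + (2 ^ s - 1) : ℕ) : V k)) - (M' : V k) := by
  obtain ⟨r3, hr3, e3⟩ := flr_add_rem s (x l)
  obtain ⟨r4, hr4, e4⟩ := flr_add_rem s c0
  obtain ⟨r5, hr5, e5⟩ := flr_add_rem j (∑ i, x i + σ + (n : V k))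
  rw [hg] at e5
  rw [hc] at e3
  have hR' : ∑ i ∈ univ.erase l, r i + 2 ^ s ≤ Fintype.card ι * 2 ^ s := by
    have h1 : ∑ i ∈ univ.erase l, r i ≤ (univ.erase l).card • 2 ^ s :=
      Finset.sum_le_card_nsmul _ _ _ fun i hi => (hr i (Finset.ne_of_mem_erase hi)).le
    rw [Finset.card_erase_of_mem (mem_univ l), Finset.card_univ, smul_eq_mul] at h1
    have h2 : Fintype.card ι * 2 ^ s = (Fintype.card ι - 1) * 2 ^ s + 2 ^ s := by
      have := Fintype.card_pos_iff.2 ⟨l⟩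
      obtain ⟨m', hm'⟩ : ∃ m', Fintype.card ι = m' + 1 := ⟨Fintype.card ι - 1, by omega⟩
      rw [hm', Nat.add_sub_cancel]
      ring
    omega
  refine ⟨(2 ^ j - 1 - r5) + n + ∑ i ∈ univ.erase l, r i + r3 + (2 ^ s - 1 - r4), ?_, ?_⟩
  · have h3 : (Fintype.card ι + 1) * 2 ^ s = Fintype.card ι * 2 ^ s + 2 ^ s := by ring
    have := Nat.two_pow_pos s
    have := Nat.two_pow_pos j
    omega
  · have h1 : ((2 ^ j - 1 + (2 ^ s - 1) : ℕ) : V k) = ((2 ^ j - 1 - r5 : ℕ) : V k) + (r5 : V k) +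
        ((2 ^ s - 1 - r4 : ℕ) : V k) + (r4 : V k) := by
      rw [← Nat.cast_add, ← Nat.cast_add, ← Nat.cast_add]
      congr 1
      omega
    have h2 : ∑ i, x i = x l + (∑ i ∈ univ.erase l, α i + ((∑ i ∈ univ.erase l, r i : ℕ) : V k)) := by
      rw [← Finset.add_sum_erase univ _ (mem_univ l), Finset.sum_congr rfl fun i hi => hx i (Finset.ne_of_mem_erase hi),
        Finset.sum_add_distrib, Nat.cast_sum]
    rw [h1]
    simp only [Nat.cast_add]
    rw [h2] at e5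
    linear_combination e4 - e3 + e5

end

end Pool.Agent.GM
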