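import Pool.Agent.GM.SMI
import Pool.Agent.GM.Geo0

/-!
# GM/GSlast (helper17): probability of a product test at one time; the last term of the sum over the layers (GS.2 (1))

* `Sys.pr_rare` : if `Ψ` (missing the vertex `w`) is rare (`Rare Vj w Ψ θ acc`) and the other factors are functions
  `u i` missing the vertex `i`, bounded by one, coin free, then at one time the product is `≥ acc` with probability at
  most `K θ / α + α` for every `α > 0`;
* `Sys.pr_last` : the same for all faces of a product, for the exact windows, at all times: `(n + 1) (K θ / α + α)`.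
-/

set_option autoImplicit false
set_option linter.unusedSectionVars false

namespace Pool.Agent.GM

open Finset Pool.Agent.PWZ Pool.Agent.M3 Pool.Agent.M3.TS

noncomputable section

namespace GS

/-- conditional probabilities at most `c` -/
theorem pr_of_fib {Om : Type*} [Fintype Om] (P : FP Om) {κ : Type*} (Y : Om → κ) (s : Om → Prop) {c : ℝ}
    (h : ∀ w, P.p w ≠ 0 → P.Pr (fun v => Y v = Y w ∧ s v) ≤ c * P.Pr (fun v => Y v = Y w)) : P.Pr s ≤ c := by
  have h1 : P.Pr s = P.E (P.ce Y (fun v => ind (s v))) := (P.E_ce Y _).symm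
  rw [h1]
  refine P.E_le_const fun w hw => ?_
  unfold FP.ce
  rw [div_le_iff₀ (P.m_pos Y hw)]
  refine le_trans (le_of_eq ?_) (h w hw)
  refine P.E_congr fun v _ => ?_
  rw [← ind_and]

/-- the coordinate `w` frozen: a function which does not see the coordinate `w` -/
theorem sum_cell {ι Pt κ : Type*} [Fintype ι] [DecidableEq ι] [Fintype Pt] (w : ι) (y : ι → Pt) (cl : Pt → κ)
    (F : (ι → Pt) → ℝ) (hF : ∀ z a, F (Function.update z w a) = F z) :
    ∑ z : ι → Pt, ind (cl (z w) = cl (y w)) * F z =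
      (∑ a, ind (cl a = cl (y w))) * ∑ z : ι → Pt, ind (z w = y w) * F z := by
  classical
  have hc : (0 : ℝ) < Fintype.card Pt := by
    have : Nonempty Pt := ⟨y w⟩
    exact_mod_cast Fintype.card_pos
  have h1 := resample w (fun z : ι → Pt => ind (cl (z w) = cl (y w)) * F z)
  have h2 := resample w (fun z : ι → Pt => ind (z w = y w) * F z)
  have h3 : ∀ z : ι → Pt, ∑ a, ind (cl (Function.update z w a w) = cl (y w)) * F (Function.update z w a) =
      (∑ a, ind (cl a = cl (y w))) * F z := by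
    intro z
    rw [Finset.sum_mul]
    refine Finset.sum_congr rfl fun a _ => ?_
    rw [hF, Function.update_self]
  have h4 : ∀ z : ι → Pt, ∑ a, ind (Function.update z w a w = y w) * F (Function.update z w a) = F z := by
    intro z
    have h5 : ∀ a, ind (Function.update z w a w = y w) * F (Function.update z w a) = ind (a = y w) * F z := by
      intro a
      rw [hF, Function.update_self]
    rw [Finset.sum_congr rfl fun a _ => h5 a, ← Finset.sum_mul, sum_ind_one, one_mul]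
  rw [Finset.sum_congr rfl fun z _ => h3 z, ← Finset.mul_sum] at h1
  rw [Finset.sum_congr rfl fun z _ => h4 z] at h2
  have h5 : (Fintype.card Pt : ℝ) * ∑ z : ι → Pt, ind (cl (z w) = cl (y w)) * F z =
      (Fintype.card Pt : ℝ) * ((∑ a, ind (cl a = cl (y w))) * ∑ z : ι → Pt, ind (z w = y w) * F z) := by
    rw [h1, ← h2]
    ring
  exact mul_left_cancel₀ hc.ne' h5

end GS

namespace Sys

variable {ι Om Ξ Pt V Γ κ : Type} [Fintype ι] [DecidableEq ι] [Fintype Om] [Fintype Ξ] [Fintype Pt]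
  [Fintype V] (S : Sys ι Om Ξ Pt V Γ κ)

/-- rarity with the exact value of the vertex `w` -/
theorem rare_at {Vj : Finset ι} {w : ι} (hw : w ∈ Vj) {Ψ : Mov Ξ ι Pt Γ (V → ℝ)} {θ acc : ℝ}
    (H : S.Rare Vj w Ψ θ acc) (hD : ∀ t g ξ, Dep (univ.erase w) (Ψ t g ξ)) {t : ℕ} (ht : t ≤ S.n)
    (u : ι → (ι → Pt) → V → ℝ) (hu : ∀ i ∈ Vj.erase w, Dep (univ.erase i) (u i)) (hu1 : ∀ i x d, |u i x d| ≤ 1)
    (w0 : Om) (y : ι → Pt) :
    ∑ ξ : Ξ, ∑ z : ι → Pt, ind (((∀ i, i ∉ Vj.erase w → z i = y i) ∧ ∀ i ∈ Vj.erase w, S.cl t (z i) = S.cl t (y i)) ∧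
        acc ≤ |iw (S.ρ t (S.gm t w0)) (Ψ t (S.gm t w0) ξ z) (fun d => ∏ i ∈ Vj.erase w, u i z d)|) ≤
      θ * ∑ _ξ : Ξ, ∑ z : ι → Pt, ind ((∀ i, i ∉ Vj.erase w → z i = y i) ∧
        ∀ i ∈ Vj.erase w, S.cl t (z i) = S.cl t (y i)) := by
  classical
  set g := S.gm t w0 with hg
  -- the tests with the vertex `w` frozen
  set u' : ι → (ι → Pt) → V → ℝ := fun i z => u i (Function.update z w (y w)) with hu'
  have hD' : ∀ i ∈ Vj.erase w, Dep ((univ.erase w).erase i) (u' i) := by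
    intro i hi z z' hz
    refine hu i hi _ _ fun j hj => ?_
    by_cases hjw : j = w
    · subst hjw
      rw [Function.update_self, Function.update_self]
    · rw [Function.update_of_ne hjw, Function.update_of_ne hjw]
      exact hz j (mem_erase.2 ⟨(mem_erase.1 hj).1, mem_erase.2 ⟨hjw, mem_univ _⟩⟩)
  have h1 := H t ht w0 y u' hD' fun i x d => hu1 i _ d
  rw [← hg] at h1
  set R : (ι → Pt) → Prop := fun z => (∀ i, i ∉ Vj → z i = y i) ∧ ∀ i ∈ Vj.erase w, S.cl t (z i) = S.cl t (y i) with hR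
  set A : Ξ → (ι → Pt) → Prop := fun ξ z => acc ≤ |iw (S.ρ t g) (Ψ t g ξ z) (fun d => ∏ i ∈ Vj.erase w, u' i z d)|
    with hA
  have hRu : ∀ z a, (R (Function.update z w a) ↔ R z) := by
    intro z a
    have h2 : ∀ i, i ≠ w → Function.update z w a i = z i := fun i hi => Function.update_of_ne hi _ _
    refine and_congr (forall_congr' fun i => forall_congr' fun hi => ?_) (forall_congr' fun i => forall_congr' fun hi => ?_)
    · rw [h2 i fun h => hi (h ▸ hw)]
    · rw [h2 i (mem_erase.1 hi).1]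
  have hAu : ∀ ξ z a, (A ξ (Function.update z w a) ↔ A ξ z) := by
    intro ξ z a
    have h2 : Ψ t g ξ (Function.update z w a) = Ψ t g ξ z := (hD t g ξ).update (notMem_erase w _) z a
    have h3 : ∀ i, u' i (Function.update z w a) = u' i z := by
      intro i
      simp only [hu']
      rw [Function.update_idem]
    simp only [hA]
    rw [h2]
    simp only [h3]
  -- boxes
  have hB1 : ∀ z, (S.Box Vj t y z ↔ S.cl t (z w) = S.cl t (y w) ∧ R z) := by
    intro z
    constructor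
    · rintro ⟨h2, h3⟩
      exact ⟨h3 w hw, h2, fun i hi => h3 i (mem_erase.1 hi).2⟩
    · rintro ⟨h2, h3, h4⟩
      refine ⟨h3, fun i hi => ?_⟩
      by_cases hiw : i = w
      · rw [hiw]; exact h2
      · exact h4 i (mem_erase.2 ⟨hiw, hi⟩)
  have hB2 : ∀ z, (((∀ i, i ∉ Vj.erase w → z i = y i) ∧ ∀ i ∈ Vj.erase w, S.cl t (z i) = S.cl t (y i)) ↔
      z w = y w ∧ R z) := by
    intro z
    constructor
    · rintro ⟨h2, h3⟩
      exact ⟨h2 w (notMem_erase w _), fun i hi => h2 i fun h => hi (mem_erase.1 h).2, h3⟩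
    · rintro ⟨h2, h3, h4⟩
      refine ⟨fun i hi => ?_, h4⟩
      by_cases hiw : i = w
      · rw [hiw]; exact h2
      · exact h3 i fun h => hi (mem_erase.2 ⟨hiw, h⟩)
  set M : ℝ := ∑ a, ind (S.cl t a = S.cl t (y w)) with hM
  have hM1 : 1 ≤ M := by
    rw [hM]
    refine le_trans (le_of_eq ?_) (Finset.single_le_sum (f := fun a => ind (S.cl t a = S.cl t (y w)))
      (fun a _ => ind_nonneg _) (mem_univ (y w)))
    exact (ind_of rfl).symm
  have e1 : ∀ ξ, ∑ z : ι → Pt, ind (S.Box Vj t y z ∧ A ξ z) = M * ∑ z : ι → Pt, ind (z w = y w) * ind (R z ∧ A ξ z) := by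
    intro ξ
    rw [← GS.sum_cell w y (S.cl t) (fun z => ind (R z ∧ A ξ z)) fun z a => by rw [hRu, hAu]]
    refine Finset.sum_congr rfl fun z _ => ?_
    rw [← ind_and]
    congr 1
    apply propext
    rw [hB1, and_assoc]
  have e2 : ∑ z : ι → Pt, ind (S.Box Vj t y z) = M * ∑ z : ι → Pt, ind (z w = y w) * ind (R z) := by
    rw [← GS.sum_cell w y (S.cl t) (fun z => ind (R z)) fun z a => by rw [hRu]]
    refine Finset.sum_congr rfl fun z _ => ?_
    rw [← ind_and]
    congr 1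
    exact propext (hB1 z)
  have e3 : ∀ ξ, ∑ z : ι → Pt, ind (((∀ i, i ∉ Vj.erase w → z i = y i) ∧
        ∀ i ∈ Vj.erase w, S.cl t (z i) = S.cl t (y i)) ∧
        acc ≤ |iw (S.ρ t g) (Ψ t g ξ z) (fun d => ∏ i ∈ Vj.erase w, u i z d)|) =
      ∑ z : ι → Pt, ind (z w = y w) * ind (R z ∧ A ξ z) := by
    intro ξ
    refine Finset.sum_congr rfl fun z _ => ?_
    rw [← ind_and]
    congr 1
    apply propext
    rw [hB2, and_assoc]
    refine and_congr_right fun h2 => and_congr_right fun _ => ?_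
    have h3 : Function.update z w (y w) = z := by
      rw [← h2, Function.update_eq_self]
    simp only [hA, hu', h3]
  have e4 : ∑ z : ι → Pt, ind ((∀ i, i ∉ Vj.erase w → z i = y i) ∧
        ∀ i ∈ Vj.erase w, S.cl t (z i) = S.cl t (y i)) = ∑ z : ι → Pt, ind (z w = y w) * ind (R z) := by
    refine Finset.sum_congr rfl fun z _ => ?_
    rw [← ind_and]
    congr 1
    exact propext (hB2 z)
  have h2 : ∑ ξ : Ξ, ∑ z : ι → Pt, ind (S.Box Vj t y z ∧ A ξ z) ≤ θ * ∑ _ξ : Ξ, ∑ z : ι → Pt, ind (S.Box Vj t y z) := h1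
  rw [Finset.sum_congr rfl fun ξ _ => e1 ξ, e2, ← Finset.mul_sum, ← Finset.mul_sum] at h2
  rw [Finset.sum_congr rfl fun ξ _ => e3 ξ, e4]
  have h3 : M * ∑ ξ : Ξ, ∑ z : ι → Pt, ind (z w = y w) * ind (R z ∧ A ξ z) ≤
      M * (θ * ∑ _ξ : Ξ, ∑ z : ι → Pt, ind (z w = y w) * ind (R z)) := by
    refine h2.trans (le_of_eq ?_)
    ring
  exact le_of_mul_le_mul_left h3 (by linarith)

/-- **a product test at one time** -/
theorem pr_rare {Vj : Finset ι} {w : ι} (hw : w ∈ Vj) {Ψ : Mov Ξ ι Pt Γ (V → ℝ)} {θ acc : ℝ} (hθ : 0 ≤ θ)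
    (H : S.Rare Vj w Ψ θ acc) (hD : ∀ t g ξ, Dep (univ.erase w) (Ψ t g ξ)) {t : ℕ} (ht : t ≤ S.n)
    (u : ι → Γ → (ι → Pt) → V → ℝ) (hu : ∀ i ∈ Vj.erase w, ∀ g, Dep (univ.erase i) (u i g))
    (hu1 : ∀ i g x d, |u i g x d| ≤ 1) {α : ℝ} (hα : 0 < α) :
    S.P.Pr (fun v => acc ≤ |iw (S.ρ t (S.gm t v)) (S.at' Ψ t v)
      (fun d => ∏ i ∈ Vj.erase w, u i (S.gm t v) (S.x v) d)|) ≤ S.K * (θ / α) + α := by
  classical
  set A : Γ → Ξ → (ι → Pt) → Prop := fun g ξ z =>
    acc ≤ |iw (S.ρ t g) (Ψ t g ξ z) (fun d => ∏ i ∈ Vj.erase w, u i g z d)| with hA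
  set sh : Γ → (ι → Pt) → ℝ := fun g z => (∑ ξ : Ξ, ind (A g ξ z)) / Fintype.card Ξ with hsh
  have hX := S.cXi
  have h1 : S.P.Pr (fun v => A (S.gm t v) (S.xi v) (S.x v)) ≤
      S.P.Pr (fun v => α ≤ sh (S.gm t v) (S.x v)) +
        S.P.Pr (fun v => ¬ (α ≤ sh (S.gm t v) (S.x v)) ∧ A (S.gm t v) (S.xi v) (S.x v)) := by
    refine le_trans (S.P.Pr_mono fun v _ hv => ?_) (S.P.Pr_or_le _ _)
    by_cases h : α ≤ sh (S.gm t v) (S.x v)
    · exact Or.inl h
    · exact Or.inr ⟨h, hv⟩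
  have h2 : S.P.Pr (fun v => α ≤ sh (S.gm t v) (S.x v)) ≤ S.K * (θ / α) := by
    refine GS.pr_of_fib S.P (fun v => (S.xi v, res (Vj.erase w)ᶜ (S.x v), S.gm t v)) _ fun v0 _ => ?_
    have h3 := S.edge t (S.gm t v0) (Vj.erase w) (S.xi v0) (S.x v0) (fun z => α ≤ sh (S.gm t v0) z) (θ / α)
      (by positivity) (fun w' h3 h4 => by
        have h5 := S.rare_at hw H hD ht (fun i => u i (S.gm t w')) (fun i hi => hu i hi _)
          (fun i x d => hu1 i _ x d) w' (S.x w')
        rw [← h4]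
        set Bx : (ι → Pt) → Prop := fun z => (∀ i, i ∉ Vj.erase w → z i = S.x v0 i) ∧
          ∀ i ∈ Vj.erase w, S.cl t (z i) = S.cl t (S.x w' i) with hBx
        have h6 : ∀ z, (((∀ i, i ∉ Vj.erase w → z i = S.x w' i) ∧
            ∀ i ∈ Vj.erase w, S.cl t (z i) = S.cl t (S.x w' i)) ↔ Bx z) := by
          intro z
          refine and_congr_left fun _ => forall_congr' fun i => forall_congr' fun hi => ?_
          rw [h3 i hi]
        have h7 : ∑ ξ : Ξ, ∑ z : ι → Pt, ind (Bx z ∧ A (S.gm t w') ξ z) ≤ θ * ∑ _ξ : Ξ, ∑ z : ι → Pt, ind (Bx z) := by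
          refine le_trans (le_of_eq ?_) (h5.trans (le_of_eq ?_))
          · refine Finset.sum_congr rfl fun ξ _ => Finset.sum_congr rfl fun z _ => ?_
            rw [h6]
          · simp only [h6]
        have h8 : ∑ ξ : Ξ, ∑ z : ι → Pt, ind (Bx z ∧ A (S.gm t w') ξ z) =
            Fintype.card Ξ * ∑ z : ι → Pt, ind (Bx z) * sh (S.gm t w') z := by
          rw [Finset.sum_comm, Finset.mul_sum]
          refine Finset.sum_congr rfl fun z _ => ?_
          simp only [hsh, ind_and]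
          rw [← Finset.mul_sum]
          field_simp
        rw [h8, Finset.sum_const, Finset.card_univ, nsmul_eq_mul] at h7
        have h9 : ∑ z : ι → Pt, ind (Bx z) * sh (S.gm t w') z ≤ θ * ∑ z : ι → Pt, ind (Bx z) := by
          refine le_of_mul_le_mul_left (h7.trans (le_of_eq ?_)) hX
          ring
        have h10 : α * ∑ z : ι → Pt, ind (Bx z ∧ α ≤ sh (S.gm t w') z) ≤
            ∑ z : ι → Pt, ind (Bx z) * sh (S.gm t w') z := by
          rw [Finset.mul_sum]
          refine Finset.sum_le_sum fun z _ => ?_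
          have h11 : 0 ≤ sh (S.gm t w') z :=
            div_nonneg (Finset.sum_nonneg fun ξ _ => ind_nonneg _) hX.le
          rw [ind_and]
          by_cases h12 : α ≤ sh (S.gm t w') z
          · rw [ind_of h12]
            have := ind_nonneg (Bx z)
            nlinarith
          · rw [ind_not h12]
            have := mul_nonneg (ind_nonneg (Bx z)) h11
            linarith
        have h13 : ∑ z : ι → Pt, ind (Bx z ∧ α ≤ sh (S.gm t w') z) ≤ θ / α * ∑ z : ι → Pt, ind (Bx z) := by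
          rw [div_mul_eq_mul_div, le_div_iff₀ hα, mul_comm]
          exact h10.trans h9
        refine le_trans (le_of_eq ?_) h13
        refine Finset.sum_congr rfl fun z _ => ?_
        congr 1
        apply propext
        simp only [hBx]
        tauto)
    have h4 : ∀ v, ((S.xi v, res (Vj.erase w)ᶜ (S.x v), S.gm t v) = (S.xi v0, res (Vj.erase w)ᶜ (S.x v0), S.gm t v0) ↔
        S.xi v = S.xi v0 ∧ (∀ i, i ∉ Vj.erase w → S.x v i = S.x v0 i) ∧ S.gm t v = S.gm t v0) := by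
      intro v
      rw [Prod.ext_iff, Prod.ext_iff]
      simp only
      rw [res_eq]
      simp only [mem_compl]
    refine le_trans (S.P.Pr_mono fun v _ => ?_) (h3.trans (le_of_eq ?_))
    · rintro ⟨h5, h6⟩
      obtain ⟨h7, h8, h9⟩ := (h4 v).1 h5
      exact ⟨h7, h8, h9, by rw [← h9]; exact h6⟩
    · congr 1
      exact S.P.Pr_congr fun v _ => (h4 v).symm
  have h3 : S.P.Pr (fun v => ¬ (α ≤ sh (S.gm t v) (S.x v)) ∧ A (S.gm t v) (S.xi v) (S.x v)) ≤ α := by
    refine GS.pr_of_fib S.P (fun v => (S.x v, S.gm t v)) _ fun v0 _ => ?_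
    have h4 : S.P.Pr (fun v => (S.x v, S.gm t v) = (S.x v0, S.gm t v0) ∧
        (¬ (α ≤ sh (S.gm t v) (S.x v)) ∧ A (S.gm t v) (S.xi v) (S.x v))) =
        ∑ ξ : Ξ, ind (¬ (α ≤ sh (S.gm t v0) (S.x v0)) ∧ A (S.gm t v0) ξ (S.x v0)) *
          S.P.Pr (fun v => S.xi v = ξ ∧ S.x v = S.x v0 ∧ S.gm t v = S.gm t v0) := by
      unfold FP.Pr
      simp only [← FP.E_smul]
      rw [← S.P.E_sum]
      refine S.P.E_congr fun v _ => ?_
      rw [Finset.sum_eq_single (S.xi v)]
      · rw [← ind_and]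
        congr 1
        apply propext
        rw [Prod.ext_iff]
        constructor
        · rintro ⟨⟨h5, h6⟩, h7, h8⟩
          simp only at h5 h6
          rw [h5, h6] at h7 h8
          exact ⟨⟨h7, h8⟩, rfl, h5, h6⟩
        · rintro ⟨⟨h7, h8⟩, _, h5, h6⟩
          rw [h5, h6]
          exact ⟨⟨rfl, rfl⟩, h7, h8⟩
      · intro ξ _ hξ
        rw [ind_not (p := S.xi v = ξ ∧ S.x v = S.x v0 ∧ S.gm t v = S.gm t v0) fun h => hξ h.1.symm, mul_zero]
      · exact fun h => absurd (mem_univ _) h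
    have h5 : S.P.Pr (fun v => (S.x v, S.gm t v) = (S.x v0, S.gm t v0)) =
        S.P.Pr (fun v => S.x v = S.x v0 ∧ S.gm t v = S.gm t v0) :=
      S.P.Pr_congr fun v _ => by rw [Prod.ext_iff]
    rw [h4, h5]
    have h6 : ∀ ξ, S.P.Pr (fun v => S.xi v = ξ ∧ S.x v = S.x v0 ∧ S.gm t v = S.gm t v0) =
        S.P.Pr (fun v => S.x v = S.x v0 ∧ S.gm t v = S.gm t v0) / Fintype.card Ξ := fun ξ =>
      S.lxi t (S.gm t v0) ξ (S.x v0)
    simp only [h6]
    rw [← Finset.sum_mul]
    set q := S.P.Pr (fun v => S.x v = S.x v0 ∧ S.gm t v = S.gm t v0) with hq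
    have hq0 : 0 ≤ q := S.P.Pr_nonneg _
    have h7 : (∑ ξ : Ξ, ind (¬ (α ≤ sh (S.gm t v0) (S.x v0)) ∧ A (S.gm t v0) ξ (S.x v0))) * (q / Fintype.card Ξ) =
        ((∑ ξ : Ξ, ind (¬ (α ≤ sh (S.gm t v0) (S.x v0)) ∧ A (S.gm t v0) ξ (S.x v0))) / Fintype.card Ξ) * q := by
      ring
    rw [h7]
    refine mul_le_mul_of_nonneg_right ?_ hq0
    by_cases h8 : α ≤ sh (S.gm t v0) (S.x v0)
    · have h9 : ∀ ξ, ind (¬ (α ≤ sh (S.gm t v0) (S.x v0)) ∧ A (S.gm t v0) ξ (S.x v0)) = 0 := fun ξ =>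
        ind_not fun h => h.1 h8
      simp only [h9, Finset.sum_const_zero, zero_div]
      exact hα.le
    · have h9 : ∀ ξ, ind (¬ (α ≤ sh (S.gm t v0) (S.x v0)) ∧ A (S.gm t v0) ξ (S.x v0)) = ind (A (S.gm t v0) ξ (S.x v0)) := by
        intro ξ
        congr 1
        apply propext
        tauto
      simp only [h9]
      exact (not_le.1 h8).le
  exact h1.trans (add_le_add h2 h3)

/-- **the last term**: one rare face, all times, exact windows -/
theorem pr_last {Vj : Finset ι} {w : ι} (hw : w ∈ Vj) (F : ι → Mov Ξ ι Pt Γ (V → ℝ)) {θ acc X r : ℝ} (hθ : 0 ≤ θ)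
    (H : S.Rare Vj w (F w) θ acc) (hD : ∀ i ∈ Vj, ∀ t g ξ, Dep (univ.erase i) (F i t g ξ))
    (hC : ∀ i ∈ Vj, i ≠ w → ∀ t g ξ ξ', F i t g ξ = F i t g ξ') (hX : 0 < X)
    (hB : ∀ i ∈ Vj, ∀ t g ξ x d, |F i t g ξ x d| ≤ X)
    (hr : X ^ (Vj.card - 1) * acc + X ^ Vj.card * S.near ≤ r) {α : ℝ} (hα : 0 < α) :
    S.P.Pr (fun v => ∃ t ≤ S.n, r ≤ |iw (S.J t v) (fun d => ∏ i ∈ Vj, S.at' (F i) t v d) (fun _ => 1)|) ≤
      (S.n + 1) * (S.K * (θ / α) + α) := by
  classical
  obtain ⟨ξ0⟩ := S.nonempty_Xi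
  have hcard : Vj.card = (Vj.card - 1) + 1 := by
    have := Finset.card_pos.2 ⟨w, hw⟩
    omega
  have hce : (Vj.erase w).card = Vj.card - 1 := Finset.card_erase_of_mem hw
  have h1 : ∀ t ≤ S.n, S.P.Pr (fun v => r ≤ |iw (S.J t v) (fun d => ∏ i ∈ Vj, S.at' (F i) t v d) (fun _ => 1)|) ≤
      S.K * (θ / α) + α := by
    intro t ht
    have h2 := S.pr_rare hw hθ H (hD w hw) ht (fun i g z d => if i ∈ Vj then F i t g ξ0 z d / X else 0)
      (fun i hi g z z' hz => by
        funext d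
        simp only [if_pos (mem_erase.1 hi).2]
        rw [hD i (mem_erase.1 hi).2 t g ξ0 z z' hz])
      (fun i g z d => by
        split_ifs with hi
        · rw [abs_div, abs_of_pos hX, div_le_one hX]
          exact hB i hi t g ξ0 z d
        · simp) hα
    refine le_trans (S.P.Pr_mono fun v _ hv => ?_) h2
    -- the product of the other faces
    set f := S.at' (F w) t v with hf
    set h := fun d => ∏ i ∈ Vj.erase w, S.at' (F i) t v d with hh
    have e1 : iw (S.J t v) (fun d => ∏ i ∈ Vj, S.at' (F i) t v d) (fun _ => 1) = iw (S.J t v) f h := by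
      unfold iw
      refine Finset.sum_congr rfl fun d _ => ?_
      show S.J t v d * (∏ i ∈ Vj, S.at' (F i) t v d) * 1 = S.J t v d * f d * h d
      rw [← Finset.mul_prod_erase Vj _ hw]
      ring
    have e2 : ∀ ρ : V → ℝ, iw ρ f h = X ^ Vj.card * iw ρ (fun d => f d / X) (fun d => h d / X ^ (Vj.card - 1)) := by
      intro ρ
      unfold iw
      rw [Finset.mul_sum]
      refine Finset.sum_congr rfl fun d _ => ?_
      rw [hcard, Nat.add_sub_cancel, pow_succ]
      field_simp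
    have hfb : ∀ d, |f d| ≤ X := fun d => hB w hw t _ _ _ d
    have hhb : ∀ d, |h d| ≤ X ^ (Vj.card - 1) := by
      intro d
      simp only [hh]
      rw [Finset.abs_prod, ← hce, ← Finset.prod_const]
      exact Finset.prod_le_prod (fun i _ => abs_nonneg _) fun i hi => hB i (mem_erase.1 hi).2 t _ _ _ d
    have h3 := S.Jnear t v (fun d => f d / X) (fun d => h d / X ^ (Vj.card - 1))
      (fun d => by
        rw [abs_div, abs_of_pos hX, div_le_one hX]
        exact hfb d)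
      (fun d => by
        rw [abs_div, abs_of_pos (pow_pos hX _), div_le_one (pow_pos hX _)]
        exact hhb d)
    have h4 : |iw (S.J t v) f h - iw (S.ρ t (S.gm t v)) f h| ≤ X ^ Vj.card * S.near := by
      rw [e2, e2, ← mul_sub, abs_mul, abs_of_pos (pow_pos hX _)]
      exact mul_le_mul_of_nonneg_left h3 (pow_pos hX _).le
    have h5 : r ≤ |iw (S.J t v) f h| := by rw [← e1]; exact hv
    have h6 : X ^ (Vj.card - 1) * acc ≤ |iw (S.ρ t (S.gm t v)) f h| := by
      have h7 : |iw (S.J t v) f h| ≤ |iw (S.J t v) f h - iw (S.ρ t (S.gm t v)) f h| +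
          |iw (S.ρ t (S.gm t v)) f h| := by
        have := abs_add_le (iw (S.J t v) f h - iw (S.ρ t (S.gm t v)) f h) (iw (S.ρ t (S.gm t v)) f h)
        rwa [sub_add_cancel] at this
      linarith
    have e3 : iw (S.ρ t (S.gm t v)) f h = X ^ (Vj.card - 1) * iw (S.ρ t (S.gm t v)) f
        (fun d => ∏ i ∈ Vj.erase w, (if i ∈ Vj then F i t (S.gm t v) ξ0 (S.x v) d / X else 0)) := by
      unfold iw
      rw [Finset.mul_sum]
      refine Finset.sum_congr rfl fun d _ => ?_
      have e4 : h d = X ^ (Vj.card - 1) * ∏ i ∈ Vj.erase w, (if i ∈ Vj then F i t (S.gm t v) ξ0 (S.x v) d / X else 0) := by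
        rw [← hce, ← Finset.prod_const, ← Finset.prod_mul_distrib]
        refine Finset.prod_congr rfl fun i hi => ?_
        rw [if_pos (mem_erase.1 hi).2]
        have : S.at' (F i) t v d = F i t (S.gm t v) ξ0 (S.x v) d :=
          congrFun (congrFun (hC i (mem_erase.1 hi).2 (mem_erase.1 hi).1 t (S.gm t v) (S.xi v) ξ0) (S.x v)) d
        rw [this]
        field_simp
      rw [e4]
      ring
    rw [e3, abs_mul, abs_of_pos (pow_pos hX _)] at h6
    exact le_of_mul_le_mul_left h6 (pow_pos hX _)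
  have h2 : S.P.Pr (fun v => ∃ t ≤ S.n, r ≤ |iw (S.J t v) (fun d => ∏ i ∈ Vj, S.at' (F i) t v d) (fun _ => 1)|) ≤
      ∑ t ∈ Finset.range (S.n + 1),
        S.P.Pr (fun v => r ≤ |iw (S.J t v) (fun d => ∏ i ∈ Vj, S.at' (F i) t v d) (fun _ => 1)|) := by
    refine le_trans (S.P.Pr_mono fun v _ => ?_) (S.P.Pr_ex_le (Finset.range (S.n + 1)) _)
    rintro ⟨t, ht, h3⟩
    exact ⟨t, Finset.mem_range.2 (by omega), h3⟩
  refine h2.trans ((Finset.sum_le_sum fun t ht => h1 t (by have := Finset.mem_range.1 ht; omega)).trans ?_)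
  rw [Finset.sum_const, Finset.card_range, nsmul_eq_mul]
  push_cast
  exact le_rfl

end Sys

end

end Pool.Agent.GM
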