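import Pool.Agent.GM.GSsum

/-!
# GM/GSnum (helper17): the numbers of the sum over the layers (GS.2 (1)), polynomial form

`exists_gsn` : for `j, C, Q ≥ 1`, `κ > 0` there is `C'` such that for all `0 < β ≤ 1/2`, `1/β ≤ H`, roundings `h` with
`(j + 4) 2 ^ (h + 3) ≤ exp H`, `8 / 2 ^ h ≤ β ^ C'` there are sequences: roundings `hh n`, accuracies `ep n`, thresholds
`th n` (`th 0 = exp (- H ^ C')`), rarities `exp (- Lm n)`, `HH n`, with all inequalities needed (structure `GSN`);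
sizes: `K (hh (n+1)), Lm n ≤ exp (HH n)`, `2 ^ (hh (n+1) - h) ≤ HH n`.
`bb j β n = β / (4 j (n+1)^2 4^j)` = threshold of the normalised pieces of the layer `n`.
-/

set_option autoImplicit false
set_option linter.unusedSectionVars false

namespace Pool.Agent.GM.GS

open Finset

noncomputable section

/-- threshold of the pieces of the layer `n`, faces divided by `4` -/
def bb (j : ℕ) (β : ℝ) (n : ℕ) : ℝ := β / (4 * j * ((n : ℝ) + 1) ^ 2 * 4 ^ j)

/-- the numbers -/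
structure GSN (j C Q : ℕ) (κ β H : ℝ) (h C' : ℕ) where
  hh : ℕ → ℕ
  ep : ℕ → ℝ
  th : ℕ → ℝ
  Lm : ℕ → ℝ
  HH : ℕ → ℝ
  hh0 : hh 0 = h
  hhm : ∀ n, hh n ≤ hh (n + 1)
  th0 : th 0 = Real.exp (-H ^ C')
  thp : ∀ n, 0 < th n
  epp : ∀ n, 0 < ep n
  epa : ∀ n, ep (n + 1) ≤ ep n
  epo : ∀ n, ep n ≤ 1
  tha : ∀ n, th (n + 1) ≤ th n
  HHH : ∀ n, H ≤ HH n
  bH : ∀ n, 1 / bb j β n ≤ HH n
  KH : ∀ n, (((j + 4) * 2 ^ (hh (n + 1) + 3) : ℕ) : ℝ) ≤ Real.exp (HH n)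
  mv : ∀ n, (Q : ℝ) * (2 ^ (hh (n + 1) - h) * (1 + H)) / ep (n + 1) ^ 3 ≤ HH n
  acc0 : β ^ C' ≤ bb j β 0 ^ C / Q
  ep1 : ∀ n, ep (n + 1) ≤ bb j β n ^ C / Q
  ep2 : ∀ n, ep (n + 1) ≤ bb j β (n + 1) ^ C / Q
  ne1 : ∀ n, 8 * ((2 : ℝ) ^ hh (n + 1))⁻¹ ≤ bb j β n ^ C / Q
  ne2 : ∀ n, 8 * ((2 : ℝ) ^ hh n)⁻¹ ≤ bb j β n ^ C / Q
  rar : ∀ n, (2 : ℝ) ^ (j * hh (n + 1)) * Q * (th n + th (n + 1)) ≤ Real.exp (-Lm n)
  LmH : ∀ n, HH n ^ C ≤ Lm n
  LmE : ∀ n, Lm n ≤ Real.exp (HH n)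
  thick : ∀ n, Real.exp (-((1 + κ) * Lm n)) ≤ th (n + 1)
  sum : ∀ L, ∑ n ∈ range L, (j : ℝ) * Real.exp (-HH n) ≤ Real.exp (-H) / 4
  lim : ∀ ε : ℝ, 0 < ε → ∃ L, (((j + 4) * 2 ^ (hh (L + 1) + 3) : ℕ) : ℝ) * th (L + 1) ≤ ε

theorem bb_pos {j : ℕ} (hj : 0 < j) {β : ℝ} (hβ : 0 < β) (n : ℕ) : 0 < bb j β n := by
  unfold bb
  have : (0 : ℝ) < j := by exact_mod_cast hj
  positivity

theorem bb_le {j : ℕ} (hj : 0 < j) {β : ℝ} (hβ : 0 < β) (n : ℕ) : bb j β n ≤ β := by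
  unfold bb
  have hj' : (1 : ℝ) ≤ j := by exact_mod_cast hj
  have h1 : (1 : ℝ) ≤ 4 * j * ((n : ℝ) + 1) ^ 2 * 4 ^ j := by
    have h2 : (1 : ℝ) ≤ ((n : ℝ) + 1) ^ 2 := by nlinarith [Nat.cast_nonneg (α := ℝ) n]
    have h3 : (1 : ℝ) ≤ (4 : ℝ) ^ j := one_le_pow₀ (by norm_num)
    have h4 : (1 : ℝ) ≤ 4 * j := by linarith
    have h5 := one_le_mul_of_one_le_of_one_le h4 h2
    exact one_le_mul_of_one_le_of_one_le h5 h3
  exact div_le_self hβ.le h1

/-- the basic quantity -/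
def yy (A : ℕ) (H : ℝ) (n : ℕ) : ℝ := A * ((n : ℝ) + 1) * H

section yy

variable {A : ℕ} {H : ℝ}

theorem yy_succ_le (hH : 0 ≤ H) (n : ℕ) : yy A H (n + 1) ≤ 2 * yy A H n := by
  unfold yy
  push_cast
  have h1 : 0 ≤ (A : ℝ) * H := mul_nonneg (Nat.cast_nonneg A) hH
  have h2 : 0 ≤ (n : ℝ) := Nat.cast_nonneg n
  nlinarith

theorem yy_mono (hH : 0 ≤ H) (n : ℕ) : yy A H n ≤ yy A H (n + 1) := by
  unfold yy
  push_cast
  have h1 : 0 ≤ (A : ℝ) * H := mul_nonneg (Nat.cast_nonneg A) hH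
  nlinarith

theorem le_yy (hH : 2 ≤ H) (n : ℕ) : 2 * (A : ℝ) ≤ yy A H n := by
  unfold yy
  have h1 : (0 : ℝ) ≤ A := Nat.cast_nonneg A
  have h2 : 0 ≤ (n : ℝ) := Nat.cast_nonneg n
  have h3 : 0 ≤ (A : ℝ) * n := mul_nonneg h1 h2
  nlinarith

theorem AH_le_yy (hH : 0 ≤ H) (n : ℕ) : (A : ℝ) * H ≤ yy A H n := by
  unfold yy
  have h1 : 0 ≤ (A : ℝ) * H := mul_nonneg (Nat.cast_nonneg A) hH
  have h2 : 0 ≤ (n : ℝ) := Nat.cast_nonneg n
  nlinarith

end yy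

/-- powers of two -/
def uu (A : ℕ) (H : ℝ) (n : ℕ) : ℕ := Nat.clog 2 ⌈yy A H n⌉₊

theorem le_two_uu (A : ℕ) (H : ℝ) (n : ℕ) : yy A H n ≤ (2 : ℝ) ^ uu A H n := by
  have h1 : ⌈yy A H n⌉₊ ≤ 2 ^ uu A H n := Nat.le_pow_clog (by norm_num) _
  have h2 : ((⌈yy A H n⌉₊ : ℕ) : ℝ) ≤ ((2 ^ uu A H n : ℕ) : ℝ) := by exact_mod_cast h1
  push_cast at h2
  exact (Nat.le_ceil _).trans h2

theorem two_uu_le {A : ℕ} {H : ℝ} {n : ℕ} (hy : 2 ≤ yy A H n) : (2 : ℝ) ^ uu A H n ≤ 4 * yy A H n := by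
  have h0 : 1 < ⌈yy A H n⌉₊ := by
    have h3 : (2 : ℝ) ≤ ⌈yy A H n⌉₊ := hy.trans (Nat.le_ceil _)
    have : 2 ≤ ⌈yy A H n⌉₊ := by exact_mod_cast h3
    omega
  have h1 : 2 ^ (uu A H n - 1) < ⌈yy A H n⌉₊ := by
    have := Nat.pow_pred_clog_lt_self (by norm_num : 1 < 2) h0
    simpa [uu] using this
  have hu : 0 < uu A H n := Nat.clog_pos (by norm_num) h0
  have h2 : (2 : ℝ) ^ (uu A H n - 1) < ⌈yy A H n⌉₊ := by exact_mod_cast h1
  have h3 : ((⌈yy A H n⌉₊ : ℕ) : ℝ) < yy A H n + 1 := Nat.ceil_lt_add_one (by linarith)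
  have h4 : (2 : ℝ) ^ uu A H n = 2 * (2 : ℝ) ^ (uu A H n - 1) := by
    rw [← pow_succ']
    congr 1
    omega
  rw [h4]
  linarith

theorem uu_mono {A : ℕ} {H : ℝ} (hH : 0 ≤ H) (n : ℕ) : uu A H n ≤ uu A H (n + 1) :=
  Nat.clog_mono_right 2 (Nat.ceil_mono (yy_mono hH n))

/-- the constant -/
def AA (j C Q : ℕ) : ℕ := 64 * (j + 4) * 4 ^ j * (Q + 1) * (C + 4)

theorem AA_facts (j C Q : ℕ) : 64 ≤ AA j C Q ∧ 4 * j * 4 ^ j ≤ AA j C Q ∧ 8 * Q ≤ AA j C Q ∧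
    (1 + 2 * (2 * C + 3)) * j + 1 ≤ AA j C Q ∧ 8 * j + 1 ≤ AA j C Q := by
  have h4 : 1 ≤ 4 ^ j := Nat.one_le_pow _ _ (by norm_num)
  have hb : 64 * (j + 4) * (Q + 1) * (C + 4) ≤ AA j C Q := by
    have h1 : AA j C Q = 64 * (j + 4) * (Q + 1) * (C + 4) * 4 ^ j := by
      unfold AA
      ring
    rw [h1]
    exact Nat.le_mul_of_pos_right _ h4
  have h0 : 64 * (j + 4) * (C + 4) ≤ 64 * (j + 4) * (Q + 1) * (C + 4) := by nlinarith [Nat.zero_le (j * Q * C), Nat.zero_le (j * Q), Nat.zero_le (Q * C), Nat.zero_le Q]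
  refine ⟨?_, ?_, ?_, ?_, ?_⟩
  · refine le_trans ?_ (h0.trans hb)
    nlinarith [Nat.zero_le (j * C), Nat.zero_le j, Nat.zero_le C]
  · have h1 : AA j C Q = (64 * (Q + 1) * (C + 4)) * ((j + 4) * 4 ^ j) := by
      unfold AA
      ring
    rw [h1]
    have h2 : 4 ≤ 64 * (Q + 1) * (C + 4) := by nlinarith [Nat.zero_le (Q * C), Nat.zero_le Q, Nat.zero_le C]
    have h3 : j * 4 ^ j ≤ (j + 4) * 4 ^ j := Nat.mul_le_mul_right _ (by omega)
    calc 4 * j * 4 ^ j = 4 * (j * 4 ^ j) := by ring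
      _ ≤ _ := Nat.mul_le_mul h2 h3
  · refine le_trans ?_ hb
    nlinarith [Nat.zero_le (j * Q * C), Nat.zero_le (j * Q), Nat.zero_le (Q * C), Nat.zero_le Q, Nat.zero_le (j * C),
      Nat.zero_le j, Nat.zero_le C]
  · refine le_trans ?_ (h0.trans hb)
    nlinarith [Nat.zero_le (j * C), Nat.zero_le j, Nat.zero_le C]
  · refine le_trans ?_ (h0.trans hb)
    nlinarith [Nat.zero_le (j * C), Nat.zero_le j, Nat.zero_le C]

section num

variable {j C Q A : ℕ} {β H : ℝ}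

theorem inv_bb_le (hAA : AA j C Q ≤ A) (_hj : 0 < j) (hβ : 0 < β) (hβH : 1 / β ≤ H) (hH : 2 ≤ H) (n : ℕ) :
    1 / bb j β n ≤ yy A H n ^ 2 := by
  obtain ⟨_, h2, _⟩ := AA_facts j C Q
  have h2' : (4 * j * 4 ^ j : ℝ) ≤ A := by exact_mod_cast h2.trans hAA
  have h64' : (64 : ℝ) ≤ A := by exact_mod_cast (AA_facts j C Q).1.trans hAA
  set A' : ℝ := (A : ℝ) with hA
  have h64 : (64 : ℝ) ≤ A' := h64'
  have e1 : 1 / bb j β n = (4 * j * 4 ^ j) * ((n : ℝ) + 1) ^ 2 * (1 / β) := by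
    unfold bb
    rw [one_div_div]
    ring
  rw [e1]
  unfold yy
  rw [← hA]
  have h3 : (0 : ℝ) ≤ ((n : ℝ) + 1) ^ 2 := by positivity
  have h5 : (4 * j * 4 ^ j : ℝ) * ((n : ℝ) + 1) ^ 2 * (1 / β) ≤ A' * ((n : ℝ) + 1) ^ 2 * H :=
    mul_le_mul (mul_le_mul_of_nonneg_right h2' h3) hβH (by positivity) (by positivity)
  refine h5.trans ?_
  have e2 : (A' * ((n : ℝ) + 1) * H) ^ 2 = (A' * ((n : ℝ) + 1) ^ 2 * H) * (A' * H) := by ring
  rw [e2]
  refine le_mul_of_one_le_right (by positivity) ?_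
  nlinarith

/-- the accuracies -/
theorem ep_le (hAA : AA j C Q ≤ A) (hj : 0 < j) (hβ : 0 < β) (hβH : 1 / β ≤ H) (hH : 2 ≤ H) (hQ : 0 < Q) (n : ℕ) :
    8 * (yy A H n ^ (2 * C + 3))⁻¹ ≤ bb j β n ^ C / Q := by
  set y := yy A H n with hy
  have h1 : 2 * (A : ℝ) ≤ y := le_yy hH n
  have h64 : (64 : ℝ) ≤ A := by exact_mod_cast (AA_facts j C Q).1.trans hAA
  have h8Q : (8 * Q : ℝ) ≤ A := by exact_mod_cast (AA_facts j C Q).2.2.1.trans hAA
  have hy1 : 1 ≤ y := by linarith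
  have hb := bb_pos hj hβ n
  have hQ' : (0 : ℝ) < Q := by exact_mod_cast hQ
  have h2 : (y ^ 2)⁻¹ ≤ bb j β n := by
    have h3 := inv_bb_le hAA hj hβ hβH hH n
    rw [← hy] at h3
    rw [one_div] at h3
    exact inv_le_of_inv_le₀ hb h3
  have h3 : (y ^ (2 * C))⁻¹ ≤ bb j β n ^ C := by
    rw [pow_mul, ← inv_pow]
    exact pow_le_pow_left₀ (by positivity) h2 C
  rw [le_div_iff₀ hQ']
  refine le_trans ?_ h3
  have h4 : (y ^ (2 * C + 3))⁻¹ = (y ^ (2 * C))⁻¹ * (y ^ 3)⁻¹ := by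
    rw [pow_add, mul_inv]
  rw [h4]
  have h5 : 8 * (y ^ 3)⁻¹ * Q ≤ 1 := by
    have h6 : (8 * Q : ℝ) ≤ y ^ 3 := by
      have h7 : y ≤ y ^ 3 := le_self_pow₀ hy1 (by norm_num)
      linarith
    rw [mul_assoc, mul_comm (y ^ 3)⁻¹, ← mul_assoc, ← div_eq_mul_inv, div_le_one (by positivity)]
    exact h6
  calc 8 * ((y ^ (2 * C))⁻¹ * (y ^ 3)⁻¹) * Q = (y ^ (2 * C))⁻¹ * (8 * (y ^ 3)⁻¹ * Q) := by ring
    _ ≤ (y ^ (2 * C))⁻¹ * 1 := mul_le_mul_of_nonneg_left h5 (by positivity)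
    _ = _ := mul_one _

/-- the roundings -/
theorem two_uu_le_sq (hH : 2 ≤ H) (h64 : 64 ≤ A) (n : ℕ) : (2 : ℝ) ^ uu A H (n + 1) ≤ yy A H n ^ 2 := by
  have h64' : (64 : ℝ) ≤ A := by exact_mod_cast h64
  have h1 : 2 * (A : ℝ) ≤ yy A H n := le_yy hH n
  have h1' : 2 * (A : ℝ) ≤ yy A H (n + 1) := le_yy hH (n + 1)
  have h2 : yy A H (n + 1) ≤ 2 * yy A H n := yy_succ_le (by linarith) n
  have h4 : (2 : ℝ) ^ uu A H (n + 1) ≤ 4 * yy A H (n + 1) := two_uu_le (by linarith)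
  nlinarith

theorem K_le (hH : 2 ≤ H) (h64 : 64 ≤ A) {h : ℕ} (hK : (((j + 4) * 2 ^ (h + 3) : ℕ) : ℝ) ≤ Real.exp H) (E n : ℕ) :
    (((j + 4) * 2 ^ (h + E * uu A H (n + 1) + 3) : ℕ) : ℝ) ≤ Real.exp ((1 + 2 * E : ℕ) * yy A H n) := by
  set y := yy A H n with hy
  have h64' : (64 : ℝ) ≤ A := by exact_mod_cast h64
  have h1 : 2 * (A : ℝ) ≤ y := le_yy hH n
  have h3 : (A : ℝ) * H ≤ y := AH_le_yy (by linarith) n
  have h5 : (2 : ℝ) ^ uu A H (n + 1) ≤ y ^ 2 := two_uu_le_sq hH h64 n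
  have e1 : (((j + 4) * 2 ^ (h + E * uu A H (n + 1) + 3) : ℕ) : ℝ) =
      (((j + 4) * 2 ^ (h + 3) : ℕ) : ℝ) * ((2 : ℝ) ^ uu A H (n + 1)) ^ E := by
    push_cast
    rw [← pow_mul, mul_comm (uu A H (n + 1)) E]
    ring
  have h6 : H ≤ y := by nlinarith
  have h7 : y ≤ Real.exp y := by linarith [Real.add_one_le_exp y]
  have h8 : ((2 : ℝ) ^ uu A H (n + 1)) ^ E ≤ Real.exp ((2 * E : ℕ) * y) := by
    rw [Real.exp_nat_mul]
    calc ((2 : ℝ) ^ uu A H (n + 1)) ^ E ≤ (y ^ 2) ^ E := pow_le_pow_left₀ (by positivity) h5 E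
      _ = y ^ (2 * E) := by rw [pow_mul]
      _ ≤ _ := pow_le_pow_left₀ (by linarith) h7 _
  have e2 : Real.exp ((1 + 2 * E : ℕ) * y) = Real.exp y * Real.exp ((2 * E : ℕ) * y) := by
    rw [← Real.exp_add]
    congr 1
    push_cast
    ring
  rw [e1, e2]
  exact mul_le_mul (hK.trans (Real.exp_le_exp.2 h6)) h8 (by positivity) (Real.exp_pos _).le

/-- **the numbers exist** -/
theorem exists_gsn (j C Q : ℕ) (hj : 0 < j) (hC : 1 ≤ C) (hQ : 0 < Q) {κ : ℝ} (hκ : 0 < κ) :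
    ∃ C' : ℕ, 1 ≤ C' ∧ ∀ β H : ℝ, 0 < β → β ≤ 1 / 2 → 1 / β ≤ H → ∀ h : ℕ,
      (((j + 4) * 2 ^ (h + 3) : ℕ) : ℝ) ≤ Real.exp H → 8 * ((2 : ℝ) ^ h)⁻¹ ≤ β ^ C' →
      Nonempty (GSN j C Q κ β H h C') := by
  set E : ℕ := 2 * C + 3 with hE
  set A1 : ℕ := 2 + 8 * E with hA1
  set M : ℕ := A1 * C with hM
  have hM2 : 2 ≤ M := by
    rw [hM]
    nlinarith
  have hCM : C ≤ M := by
    rw [hM]
    exact Nat.le_mul_of_pos_left C (by omega)
  obtain ⟨c, hc, hcn⟩ := exp_growth (half_pos hκ) M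
  have hκ1 : 0 < 1 + κ := by linarith
  set c1 : ℝ := κ / 2 / (1 + κ) with hc1
  have hc1p : 0 < c1 := by positivity
  have hc11 : c1 ≤ 1 := by
    rw [hc1, div_le_one hκ1]
    linarith
  obtain ⟨t1, ht1⟩ := pow_unbounded_of_one_lt (1 / (c * c1)) (by norm_num : (1 : ℝ) < 2)
  obtain ⟨s2, hs2⟩ := pow_unbounded_of_one_lt ((Q : ℝ) * (4 * j * 4 ^ j) ^ C) (by norm_num : (1 : ℝ) < 2)
  set A : ℕ := AA j C Q + (M + (t1 + s2) + ⌈κ⌉₊) with hA
  have hAA : AA j C Q ≤ A := Nat.le_add_right _ _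
  obtain ⟨a1, a2, a3, a4, a5⟩ := AA_facts j C Q
  replace a1 := a1.trans hAA
  replace a2 := a2.trans hAA
  replace a3 := a3.trans hAA
  replace a4 := a4.trans hAA
  replace a5 := a5.trans hAA
  have a6 : M ≤ A := by omega
  have a7 : t1 + s2 ≤ A := by omega
  have a8 : (κ : ℝ) ≤ A := by
    have h1 : (⌈κ⌉₊ : ℝ) ≤ A := by exact_mod_cast (by omega : ⌈κ⌉₊ ≤ A)
    exact (Nat.le_ceil κ).trans h1
  set s1 : ℕ := M * A + t1 with hs1d
  have hs1 : (A : ℝ) ^ M / (c * c1) ≤ 2 ^ s1 := by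
    have h1 : (A : ℝ) ≤ 2 ^ A := by exact_mod_cast (Nat.lt_two_pow_self (n := A)).le
    have h2 : (A : ℝ) ^ M ≤ 2 ^ (M * A) := by
      rw [mul_comm M A, pow_mul (2 : ℝ) A M]
      exact pow_le_pow_left₀ (Nat.cast_nonneg A) h1 M
    rw [hs1d, pow_add, div_eq_mul_one_div]
    exact mul_le_mul h2 ht1.le (by positivity) (by positivity)
  refine ⟨M + (s1 + s2), by omega, ?_⟩
  set C' : ℕ := M + (s1 + s2) with hC'
  intro β H hβ hβ2 hβH h hK hne
  have hH : 2 ≤ H := by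
    have : 2 ≤ 1 / β := by
      rw [le_div_iff₀ hβ]
      linarith
    linarith
  have hQ' : (0 : ℝ) < Q := by exact_mod_cast hQ
  have hj' : (1 : ℝ) ≤ j := by exact_mod_cast hj
  have a1' : (64 : ℝ) ≤ A := by exact_mod_cast a1
  have a3' : (8 * Q : ℝ) ≤ A := by exact_mod_cast a3
  set y : ℕ → ℝ := yy A H with hy
  have y1 : ∀ n, 2 * (A : ℝ) ≤ y n := fun n => le_yy hH n
  have y2 : ∀ n, y (n + 1) ≤ 2 * y n := fun n => yy_succ_le (by linarith) n
  have y3 : ∀ n, y n ≤ y (n + 1) := fun n => yy_mono (by linarith) n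
  have y4 : ∀ n, (A : ℝ) * H ≤ y n := fun n => AH_le_yy (by linarith) n
  have y5 : ∀ n, 1 ≤ y n := fun n => by linarith [y1 n]
  have y6 : ∀ n, y n ^ M ≤ c1 * (H ^ C' * (1 + κ / 2) ^ n) := by
    intro n
    have h1 := hcn n
    have h2 : (0 : ℝ) < ((n : ℝ) + 1) ^ M := by positivity
    have h3 : c * ((n : ℝ) + 1) ^ M ≤ (1 + κ / 2) ^ n := by
      rw [le_div_iff₀ h2] at h1
      refine le_trans ?_ h1
      have h4 : (1 : ℝ) ≤ (n : ℝ) + 1 := by linarith [Nat.cast_nonneg (α := ℝ) n]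
      have h5 : c ≤ c * ((n : ℝ) + 1) := le_mul_of_one_le_right hc.le h4
      exact mul_le_mul_of_nonneg_right h5 h2.le
    have h4 : (A : ℝ) ^ M / (c * c1) ≤ H ^ (s1 + s2) := by
      have h5 : (2 : ℝ) ^ s1 ≤ H ^ (s1 + s2) :=
        (pow_le_pow_left₀ (by norm_num) hH s1).trans (pow_le_pow_right₀ (by linarith) (by omega))
      exact hs1.trans h5
    have h5 : (A : ℝ) ^ M ≤ H ^ (s1 + s2) * (c * c1) := by
      rwa [div_le_iff₀ (by positivity)] at h4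
    have e1 : y n ^ M = (A : ℝ) ^ M * ((n : ℝ) + 1) ^ M * H ^ M := by
      rw [hy]
      unfold yy
      rw [mul_pow, mul_pow]
    rw [e1]
    calc (A : ℝ) ^ M * ((n : ℝ) + 1) ^ M * H ^ M
        ≤ (H ^ (s1 + s2) * (c * c1)) * ((n : ℝ) + 1) ^ M * H ^ M := by gcongr
      _ = c1 * (H ^ C' * (c * ((n : ℝ) + 1) ^ M)) := by
          rw [hC', pow_add H M (s1 + s2)]
          ring
      _ ≤ c1 * (H ^ C' * (1 + κ / 2) ^ n) := by gcongr
  have y7 : ∀ n, H ≤ y n := fun n => by nlinarith [y4 n]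
  have yE : ∀ n, (0 : ℝ) < y n ^ E := fun n => pow_pos (by linarith [y5 n]) E
  have yA : ∀ n, (A : ℝ) ≤ y n := fun n => by linarith [y1 n, Nat.cast_nonneg (α := ℝ) A]
  set hh : ℕ → ℕ := fun n => if n = 0 then h else h + E * uu A H n with hhd
  have hhs : ∀ n, hh (n + 1) = h + E * uu A H (n + 1) := fun n => if_neg (Nat.succ_ne_zero n)
  set La : ℕ → ℝ := fun n => H ^ C' * (1 + κ / 2) ^ n with hLa
  have La0 : ∀ n, 0 < La n := fun n => by
    simp only [hLa]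
    positivity
  have La1 : ∀ n, La (n + 1) = (1 + κ / 2) * La n := fun n => by
    simp only [hLa]
    ring
  have hepA : ∀ n, (y (n + 1) ^ E)⁻¹ ≤ (y n ^ E)⁻¹ := fun n =>
    inv_anti₀ (yE n) (pow_le_pow_left₀ (by linarith [y5 n]) (y3 n) E)
  have hepb : ∀ n, 8 * (y n ^ E)⁻¹ ≤ bb j β n ^ C / Q := fun n => ep_le hAA hj hβ hβH hH hQ n
  have hepb' : ∀ n, (y n ^ E)⁻¹ ≤ bb j β n ^ C / Q := fun n => by
    have h1 : 0 < (y n ^ E)⁻¹ := inv_pos.2 (yE n)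
    linarith [hepb n]
  have hne1 : ∀ n, 8 * ((2 : ℝ) ^ hh (n + 1))⁻¹ ≤ 8 * (y (n + 1) ^ E)⁻¹ := by
    intro n
    have h1 : y (n + 1) ^ E ≤ (2 : ℝ) ^ hh (n + 1) := by
      rw [hhs, pow_add (2 : ℝ) h, mul_comm E, pow_mul (2 : ℝ)]
      have h2 : y (n + 1) ^ E ≤ ((2 : ℝ) ^ uu A H (n + 1)) ^ E :=
        pow_le_pow_left₀ (by linarith [y5 (n + 1)]) (le_two_uu A H (n + 1)) E
      have h3 : (1 : ℝ) ≤ (2 : ℝ) ^ h := one_le_pow₀ (by norm_num)
      exact h2.trans (le_mul_of_one_le_left (by positivity) h3)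
    exact mul_le_mul_of_nonneg_left (inv_anti₀ (yE (n + 1)) h1) (by norm_num)
  have hb0 : β ^ C' ≤ bb j β 0 ^ C / Q := by
    have e1 : bb j β 0 = β / (4 * j * 4 ^ j) := by
      unfold bb
      simp
    rw [e1, div_pow, div_div, le_div_iff₀ (by positivity)]
    have e2 : β ^ C' = β ^ C * β ^ (C' - C) := by
      rw [← pow_add]
      congr 1
      omega
    have h1 : β ^ (C' - C) ≤ (1 / 2) ^ (C' - C) := pow_le_pow_left₀ hβ.le hβ2 _
    have h2 : ((1 : ℝ) / 2) ^ (C' - C) ≤ (1 / 2) ^ s2 :=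
      pow_le_pow_of_le_one (by norm_num) (by norm_num) (by omega)
    have h3 : ((1 : ℝ) / 2) ^ s2 * ((4 * j * 4 ^ j : ℝ) ^ C * Q) ≤ 1 := by
      rw [div_pow, one_pow, one_div, inv_mul_le_iff₀ (by positivity), mul_one]
      linarith [hs2.le, mul_comm ((4 * j * 4 ^ j : ℝ) ^ C) (Q : ℝ)]
    rw [e2]
    calc β ^ C * β ^ (C' - C) * ((4 * j * 4 ^ j : ℝ) ^ C * Q)
        ≤ β ^ C * (1 / 2) ^ s2 * ((4 * j * 4 ^ j : ℝ) ^ C * Q) := by
          have := h1.trans h2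
          gcongr
      _ = β ^ C * ((1 / 2) ^ s2 * ((4 * j * 4 ^ j : ℝ) ^ C * Q)) := by ring
      _ ≤ β ^ C * 1 := mul_le_mul_of_nonneg_left h3 (by positivity)
      _ = β ^ C := mul_one _
  have hKn : ∀ n, (((j + 4) * 2 ^ (hh (n + 1) + 3) : ℕ) : ℝ) ≤ Real.exp ((1 + 2 * E : ℕ) * y n) := by
    intro n
    rw [hhs]
    exact K_le hH a1 hK E n
  have hLmH : ∀ n, (y n ^ A1) ^ C ≤ La n * (1 + κ / 2) / (1 + κ) := by
    intro n
    rw [← pow_mul]
    refine (y6 n).trans ?_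
    rw [mul_comm, mul_div_assoc]
    refine mul_le_mul_of_nonneg_left ?_ (La0 n).le
    rw [hc1]
    exact div_le_div_of_nonneg_right (by linarith) hκ1.le
  have hrar : ∀ n, (2 : ℝ) ^ (j * hh (n + 1)) * Q * (Real.exp (-La n) + Real.exp (-La (n + 1))) ≤
      Real.exp (-(La n * (1 + κ / 2) / (1 + κ))) := by
    intro n
    have h1 : (2 : ℝ) ^ hh (n + 1) ≤ Real.exp ((1 + 2 * E : ℕ) * y n) := by
      refine le_trans ?_ (hKn n)
      have h2 : 2 ^ hh (n + 1) ≤ (j + 4) * 2 ^ (hh (n + 1) + 3) := by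
        rw [pow_add]
        nlinarith [Nat.zero_le (j * 2 ^ hh (n + 1)), Nat.zero_le (2 ^ hh (n + 1))]
      exact_mod_cast h2
    have h2 : (2 : ℝ) ^ (j * hh (n + 1)) ≤ Real.exp (((1 + 2 * E) * j : ℕ) * y n) := by
      rw [mul_comm j, pow_mul]
      refine (pow_le_pow_left₀ (by positivity) h1 j).trans (le_of_eq ?_)
      rw [← Real.exp_nat_mul]
      congr 1
      push_cast
      ring
    have h3 : Real.exp (-La (n + 1)) ≤ Real.exp (-La n) := by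
      rw [Real.exp_le_exp, La1]
      have := mul_pos hκ (La0 n)
      linarith
    have h4 : (Q : ℝ) * 2 ≤ y n := by linarith [y1 n]
    have h5 : Real.exp (((1 + 2 * E) * j : ℕ) * y n) * y n ≤ Real.exp ((((1 + 2 * E) * j + 1 : ℕ) : ℝ) * y n) := by
      have e1 : Real.exp ((((1 + 2 * E) * j + 1 : ℕ) : ℝ) * y n) =
          Real.exp (((1 + 2 * E) * j : ℕ) * y n) * Real.exp (y n) := by
        rw [← Real.exp_add]
        congr 1
        push_cast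
        ring
      rw [e1]
      refine mul_le_mul_of_nonneg_left ?_ (Real.exp_pos _).le
      linarith [Real.add_one_le_exp (y n)]
    have h6 : (((1 + 2 * E) * j + 1 : ℕ) : ℝ) * y n ≤ y n ^ 2 := by
      have h7 : (((1 + 2 * E) * j + 1 : ℕ) : ℝ) ≤ A := by exact_mod_cast a4
      have h8 : (A : ℝ) ≤ y n := by linarith [y1 n]
      rw [sq]
      exact mul_le_mul_of_nonneg_right (h7.trans h8) (by linarith [y5 n])
    have h7 : y n ^ 2 ≤ c1 * La n := (pow_le_pow_right₀ (y5 n) hM2).trans (y6 n)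
    calc (2 : ℝ) ^ (j * hh (n + 1)) * Q * (Real.exp (-La n) + Real.exp (-La (n + 1)))
        ≤ Real.exp (((1 + 2 * E) * j : ℕ) * y n) * Q * (Real.exp (-La n) + Real.exp (-La n)) := by
          have h8 : 0 ≤ Real.exp (((1 + 2 * E) * j : ℕ) * y n) * Q := by positivity
          exact mul_le_mul (mul_le_mul_of_nonneg_right h2 hQ'.le) (by linarith)
            (by positivity) h8
      _ = Real.exp (((1 + 2 * E) * j : ℕ) * y n) * (Q * 2) * Real.exp (-La n) := by ring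
      _ ≤ Real.exp (((1 + 2 * E) * j : ℕ) * y n) * y n * Real.exp (-La n) :=
          mul_le_mul_of_nonneg_right (mul_le_mul_of_nonneg_left h4 (Real.exp_pos _).le) (Real.exp_pos _).le
      _ ≤ Real.exp (c1 * La n) * Real.exp (-La n) := by
          refine mul_le_mul_of_nonneg_right (h5.trans ?_) (Real.exp_pos _).le
          exact Real.exp_le_exp.2 (h6.trans h7)
      _ = Real.exp (-(La n * (1 + κ / 2) / (1 + κ))) := by
          rw [← Real.exp_add]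
          congr 1
          rw [hc1]
          field_simp
          ring
  refine ⟨{
    hh := hh
    ep := fun n => (y n ^ E)⁻¹
    th := fun n => Real.exp (-La n)
    Lm := fun n => La n * (1 + κ / 2) / (1 + κ)
    HH := fun n => y n ^ A1
    hh0 := if_pos rfl
    hhm := ?_
    th0 := ?_
    thp := fun n => Real.exp_pos _
    epp := fun n => inv_pos.2 (yE n)
    epa := hepA
    epo := fun n => inv_le_one_of_one_le₀ (one_le_pow₀ (y5 n))
    tha := ?_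
    HHH := ?_
    bH := ?_
    KH := ?_
    mv := ?_
    acc0 := hb0
    ep1 := fun n => (hepA n).trans (hepb' n)
    ep2 := fun n => hepb' (n + 1)
    ne1 := ?_
    ne2 := ?_
    rar := hrar
    LmH := hLmH
    LmE := ?_
    thick := ?_
    sum := ?_
    lim := ?_ }⟩
  · intro n
    rw [hhs]
    rcases Nat.eq_zero_or_pos n with h0 | h0
    · rw [h0]
      simp only [hhd, if_true]
      omega
    · obtain ⟨n', rfl⟩ := Nat.exists_eq_succ_of_ne_zero h0.ne'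
      rw [Nat.succ_eq_add_one, hhs]
      exact Nat.add_le_add_left (Nat.mul_le_mul_left E (uu_mono (by linarith) (n' + 1))) h
  · simp [hLa]
  · intro n
    show Real.exp (-La (n + 1)) ≤ Real.exp (-La n)
    rw [Real.exp_le_exp, La1]
    have := mul_pos hκ (La0 n)
    linarith
  · intro n
    exact (y7 n).trans (le_self_pow₀ (y5 n) (by omega))
  · intro n
    exact (inv_bb_le hAA hj hβ hβH hH n).trans (pow_le_pow_right₀ (y5 n) (by omega))
  · intro n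
    refine (hKn n).trans (Real.exp_le_exp.2 ?_)
    have h1 : ((1 + 2 * E : ℕ) : ℝ) ≤ y n := by
      have h2 : 1 + 2 * E ≤ A := by
        refine le_trans ?_ a4
        have : 1 + 2 * E ≤ (1 + 2 * (2 * C + 3)) * j := Nat.le_mul_of_pos_right _ hj
        omega
      have h3 : ((1 + 2 * E : ℕ) : ℝ) ≤ A := by exact_mod_cast h2
      exact h3.trans (yA n)
    calc ((1 + 2 * E : ℕ) : ℝ) * y n ≤ y n * y n := mul_le_mul_of_nonneg_right h1 (by linarith [y5 n])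
      _ = y n ^ 2 := by ring
      _ ≤ y n ^ A1 := pow_le_pow_right₀ (y5 n) (by omega)
  · intro n
    have h1 : (Q : ℝ) * (2 ^ (hh (n + 1) - h) * (1 + H)) ≤ y n ^ (2 + 2 * E) := by
      have h3 : (2 : ℝ) ^ (hh (n + 1) - h) ≤ y n ^ (2 * E) := by
        rw [hhs, Nat.add_sub_cancel_left, mul_comm E, pow_mul, pow_mul]
        exact pow_le_pow_left₀ (by positivity) (two_uu_le_sq hH a1 n) E
      have h6 : (Q : ℝ) * (1 + H) ≤ y n := by
        have h7 := y4 n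
        nlinarith
      have h8 : y n ≤ y n ^ 2 := le_self_pow₀ (y5 n) (by norm_num)
      calc (Q : ℝ) * (2 ^ (hh (n + 1) - h) * (1 + H)) = (Q * (1 + H)) * 2 ^ (hh (n + 1) - h) := by ring
        _ ≤ y n ^ 2 * y n ^ (2 * E) := mul_le_mul (h6.trans h8) h3 (by positivity) (by linarith [y5 n])
        _ = y n ^ (2 + 2 * E) := by rw [← pow_add]
    have h2 : ((y (n + 1) ^ E)⁻¹ ^ 3)⁻¹ ≤ y n ^ (6 * E) := by
      rw [← inv_pow, inv_inv, ← pow_mul]
      have h3 : y (n + 1) ≤ y n ^ 2 := by nlinarith [y2 n, y1 n]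
      have h4 : y (n + 1) ^ (E * 3) ≤ (y n ^ 2) ^ (E * 3) :=
        pow_le_pow_left₀ (by linarith [y5 (n + 1)]) h3 _
      refine h4.trans (le_of_eq ?_)
      rw [← pow_mul]
      congr 1
      ring
    have e1 : y n ^ A1 = y n ^ (2 + 2 * E) * y n ^ (6 * E) := by
      rw [← pow_add]
      congr 1
      omega
    show (Q : ℝ) * (2 ^ (hh (n + 1) - h) * (1 + H)) / (y (n + 1) ^ E)⁻¹ ^ 3 ≤ y n ^ A1
    rw [div_eq_mul_inv, e1]
    have h3 : 0 ≤ y n ^ (2 + 2 * E) := pow_nonneg (by linarith [y5 n]) _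
    have h4 : 0 ≤ ((y (n + 1) ^ E)⁻¹ ^ 3)⁻¹ := inv_nonneg.2 (pow_nonneg (inv_nonneg.2 (yE (n + 1)).le) 3)
    exact mul_le_mul h1 h2 h4 h3
  · intro n
    exact (hne1 n).trans ((mul_le_mul_of_nonneg_left (hepA n) (by norm_num)).trans (hepb n))
  · intro n
    rcases Nat.eq_zero_or_pos n with h0 | h0
    · rw [h0]
      have e1 : hh 0 = h := if_pos rfl
      rw [e1]
      exact hne.trans hb0
    · obtain ⟨n', rfl⟩ := Nat.exists_eq_succ_of_ne_zero h0.ne'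
      exact (hne1 n').trans (hepb (n' + 1))
  · intro n
    have h1 : La n * (1 + κ / 2) / (1 + κ) ≤ La n := by
      rw [div_le_iff₀ hκ1]
      have := mul_pos hκ (La0 n)
      linarith
    refine h1.trans ?_
    have h2 : H ^ C' ≤ Real.exp (C' * H) := by
      rw [Real.exp_nat_mul]
      exact pow_le_pow_left₀ (by linarith) (by linarith [Real.add_one_le_exp H]) C'
    have h3 : (1 + κ / 2) ^ n ≤ Real.exp (n * (κ / 2)) := by
      rw [Real.exp_nat_mul]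
      exact pow_le_pow_left₀ (by linarith) (by linarith [Real.add_one_le_exp (κ / 2)]) n
    have h4 : La n ≤ Real.exp (C' * H + n * (κ / 2)) := by
      rw [Real.exp_add]
      exact mul_le_mul h2 h3 (by positivity) (Real.exp_pos _).le
    refine h4.trans (Real.exp_le_exp.2 ?_)
    have h5 : (C' : ℝ) ≤ A ^ 3 := by
      have h6 : C' ≤ A ^ 3 := by
        have h7 : C' ≤ A + (A * A + A) := by
          have h8 : M * A ≤ A * A := Nat.mul_le_mul_right A a6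
          omega
        have h8 : A ^ 3 = A * A * A := by ring
        rw [h8]
        nlinarith [Nat.mul_le_mul_left (A * A) a1, Nat.mul_le_mul_left A a1]
      exact_mod_cast h6
    have h6 : (0 : ℝ) ≤ n := Nat.cast_nonneg n
    have h7 : C' * H + n * (κ / 2) ≤ y n ^ 4 := by
      have h8 : (A : ℝ) ^ 3 * H + n * A ≤ A ^ 3 * ((n + 1) * H) := by
        have h9 : (A : ℝ) ≤ A ^ 3 := le_self_pow₀ (by linarith) (by norm_num)
        have h10 : (n : ℝ) * A ≤ n * (A ^ 3 * H) := by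
          refine mul_le_mul_of_nonneg_left ?_ h6
          nlinarith
        nlinarith
      have h9 : y n ^ 4 = y n ^ 3 * y n := by ring
      have h10 : (A : ℝ) ^ 3 ≤ y n ^ 3 := pow_le_pow_left₀ (by linarith) (yA n) 3
      have h11 : ((n : ℝ) + 1) * H ≤ y n := by
        rw [hy]
        unfold yy
        nlinarith [mul_nonneg h6 (by linarith : (0 : ℝ) ≤ H)]
      have h12 : (C' : ℝ) * H ≤ A ^ 3 * H := mul_le_mul_of_nonneg_right h5 (by linarith)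
      have h13 : (n : ℝ) * (κ / 2) ≤ n * A := mul_le_mul_of_nonneg_left (by linarith) h6
      calc C' * H + n * (κ / 2) ≤ A ^ 3 * H + n * A := by linarith
        _ ≤ A ^ 3 * ((n + 1) * H) := h8
        _ ≤ y n ^ 3 * y n := mul_le_mul h10 h11 (by positivity) (by
            have := y5 n
            positivity)
        _ = y n ^ 4 := h9.symm
    exact h7.trans (pow_le_pow_right₀ (y5 n) (by omega))
  · intro n
    refine le_of_eq ?_
    show Real.exp (-((1 + κ) * (La n * (1 + κ / 2) / (1 + κ)))) = Real.exp (-La (n + 1))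
    rw [La1]
    congr 1
    field_simp
  · intro L
    set q : ℝ := Real.exp (-(A * H)) with hq
    have hq0 : 0 < q := Real.exp_pos _
    have hAH : 1 ≤ (A : ℝ) * H := by nlinarith
    have hq2 : q ≤ 1 / 2 := by
      have h1 : (2 : ℝ) ≤ Real.exp (A * H) := by linarith [Real.add_one_le_exp ((A : ℝ) * H)]
      rw [hq, Real.exp_neg, one_div]
      exact inv_anti₀ (by norm_num) h1
    have h1 : ∀ n ∈ range L, (j : ℝ) * Real.exp (-(y n ^ A1)) ≤ j * (q * q ^ n) := by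
      intro n _
      refine mul_le_mul_of_nonneg_left ?_ (by linarith)
      rw [hq, ← Real.exp_nat_mul, ← Real.exp_add, Real.exp_le_exp]
      have h2 : y n ≤ y n ^ A1 := le_self_pow₀ (y5 n) (by omega)
      have h3 : y n = A * H + n * (A * H) := by
        rw [hy]
        unfold yy
        ring
      have h4 : -(↑A * H) + ↑n * -(↑A * H) = -(y n) := by
        rw [h3]
        ring
      rw [h4]
      linarith
    refine (Finset.sum_le_sum h1).trans ?_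
    rw [← Finset.mul_sum, ← Finset.mul_sum]
    have h2 : ∑ n ∈ range L, q ^ n ≤ 2 := by
      have h3 := (summable_geometric_of_lt_one hq0.le (by linarith)).sum_le_tsum (range L)
        (fun n _ => pow_nonneg hq0.le n)
      rw [tsum_geometric_of_lt_one hq0.le (by linarith)] at h3
      refine h3.trans ?_
      rw [inv_le_comm₀ (by linarith) (by norm_num)]
      linarith
    have h3 : 8 * (j : ℝ) * q ≤ Real.exp (-H) := by
      have h4 : (8 * j : ℝ) ≤ Real.exp ((A - 1) * H) := by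
        have h5 : (8 * j + 1 : ℝ) ≤ A := by exact_mod_cast a5
        have h6 := Real.add_one_le_exp (((A : ℝ) - 1) * H)
        nlinarith
      have h5 : Real.exp (-H) = Real.exp ((A - 1) * H) * q := by
        rw [hq, ← Real.exp_add]
        congr 1
        ring
      rw [h5]
      exact mul_le_mul_of_nonneg_right h4 hq0.le
    calc (j : ℝ) * (q * ∑ n ∈ range L, q ^ n) ≤ j * (q * 2) := by gcongr
      _ = 8 * j * q / 4 := by ring
      _ ≤ Real.exp (-H) / 4 := by linarith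
  · intro ε hε
    obtain ⟨L, hL⟩ := exists_nat_gt (8 * ((j : ℝ) + 4) / ε)
    refine ⟨L, ?_⟩
    have h1 := hrar L
    have h2 : (2 : ℝ) ^ hh (L + 1) * Real.exp (-La (L + 1)) ≤ Real.exp (-(La L * (1 + κ / 2) / (1 + κ))) := by
      refine le_trans ?_ h1
      have h3 : (2 : ℝ) ^ hh (L + 1) ≤ (2 : ℝ) ^ (j * hh (L + 1)) * Q := by
        have h4 : (2 : ℝ) ^ hh (L + 1) ≤ (2 : ℝ) ^ (j * hh (L + 1)) :=
          pow_le_pow_right₀ (by norm_num) (Nat.le_mul_of_pos_left _ hj)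
        have h5 : (1 : ℝ) ≤ Q := by exact_mod_cast hQ
        exact h4.trans (le_mul_of_one_le_right (by positivity) h5)
      refine mul_le_mul h3 ?_ (Real.exp_pos _).le (by positivity)
      linarith [Real.exp_pos (-La L)]
    have h3 : Real.exp (-(La L * (1 + κ / 2) / (1 + κ))) ≤ ((L : ℝ) + 1)⁻¹ := by
      rw [Real.exp_neg]
      refine inv_anti₀ (by positivity) ?_
      have h4 : (L : ℝ) + 1 ≤ y L := by
        rw [hy]
        unfold yy
        have h5 : (1 : ℝ) ≤ A * H := by nlinarith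
        have h6 : (0 : ℝ) ≤ (L : ℝ) + 1 := by positivity
        nlinarith
      have h5 : y L ≤ (y L ^ A1) ^ C :=
        (le_self_pow₀ (y5 L) (by omega : A1 ≠ 0)).trans (le_self_pow₀ (one_le_pow₀ (y5 L)) (by omega))
      have h6 := Real.add_one_le_exp (La L * (1 + κ / 2) / (1 + κ))
      linarith [hLmH L]
    have e1 : (((j + 4) * 2 ^ (hh (L + 1) + 3) : ℕ) : ℝ) = 8 * ((j : ℝ) + 4) * (2 : ℝ) ^ hh (L + 1) := by
      push_cast
      rw [pow_add]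
      ring
    rw [e1, mul_assoc]
    have h4 : (0 : ℝ) < (L : ℝ) + 1 := by positivity
    calc 8 * ((j : ℝ) + 4) * ((2 : ℝ) ^ hh (L + 1) * Real.exp (-La (L + 1)))
        ≤ 8 * ((j : ℝ) + 4) * ((L : ℝ) + 1)⁻¹ := by
          refine mul_le_mul_of_nonneg_left (h2.trans h3) (by positivity)
      _ ≤ ε := by
          rw [← div_eq_mul_inv, div_le_iff₀ h4]
          rw [div_lt_iff₀ hε] at hL
          nlinarith

end num

/-! ### other forms -/

namespace GSN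

variable {j C Q : ℕ} {κ β H : ℝ} {h C' : ℕ} (G : GSN j C Q κ β H h C')

include G

theorem H1 (hH : 0 ≤ H) (n : ℕ) : 0 ≤ (Q : ℝ) * (2 ^ (G.hh (n + 1) - h) * (1 + H)) := by positivity

/-- ratio form of the rarity -/
theorem rar' (n : ℕ) : (2 : ℝ) ^ (j * (G.hh (n + 1) - G.hh n)) * Q * (G.th n + G.th (n + 1)) ≤ Real.exp (-G.Lm n) := by
  refine le_trans ?_ (G.rar n)
  have h1 := G.thp n
  have h2 := G.thp (n + 1)
  refine mul_le_mul_of_nonneg_right (mul_le_mul_of_nonneg_right ?_ (Nat.cast_nonneg Q)) (by linarith)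
  exact pow_le_pow_right₀ (by norm_num) (Nat.mul_le_mul_left j (Nat.sub_le _ _))

/-- moves, second power -/
theorem mv2 (hH : 0 ≤ H) (n : ℕ) :
    (2 : ℝ) ^ (G.hh (n + 1) - h) * Q * (1 + H) / G.ep (n + 1) ^ 2 ≤ G.HH n := by
  have h1 := G.epp (n + 1)
  refine le_trans ?_ (G.mv n)
  have e1 : (2 : ℝ) ^ (G.hh (n + 1) - h) * Q * (1 + H) = Q * (2 ^ (G.hh (n + 1) - h) * (1 + H)) := by ring
  rw [e1]
  exact div_le_div_of_nonneg_left (G.H1 hH n) (by positivity) (pow_le_pow_of_le_one h1.le (G.epo _) (by norm_num))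

/-- roundings grow from `h` -/
theorem hle (n : ℕ) : h ≤ G.hh n := by
  induction n with
  | zero => exact G.hh0.ge
  | succ n ih => exact ih.trans (G.hhm n)

/-- the ratio of the roundings -/
theorem ratio (hH : 0 ≤ H) (hQ : 1 ≤ Q) (n : ℕ) : (2 : ℝ) ^ (G.hh (n + 1) - h) ≤ G.HH n := by
  refine le_trans ?_ (G.mv n)
  have h1 := G.epp (n + 1)
  have h2 : G.ep (n + 1) ^ 3 ≤ 1 := pow_le_one₀ h1.le (G.epo _)
  have h3 : (1 : ℝ) ≤ Q := by exact_mod_cast hQ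
  have h4 : (0 : ℝ) < 2 ^ (G.hh (n + 1) - h) := by positivity
  have h5 : (2 : ℝ) ^ (G.hh (n + 1) - h) ≤ Q * (2 ^ (G.hh (n + 1) - h) * (1 + H)) := by
    have h6 : (2 : ℝ) ^ (G.hh (n + 1) - h) ≤ 2 ^ (G.hh (n + 1) - h) * (1 + H) := le_mul_of_one_le_right h4.le (by linarith)
    exact h6.trans (le_mul_of_one_le_left (h4.le.trans h6) h3)
  refine h5.trans ?_
  rw [le_div_iff₀ (by positivity)]
  exact mul_le_of_le_one_right (G.H1 hH n) h2

end GSN

end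

end Pool.Agent.GM.GS
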