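import Pool.Agent.GM.GSstr
import Pool.Agent.GM.GSnum
import Pool.Agent.GM.GSlast
import Pool.Agent.GMN.TjSMI

/-!
# GM/GSpar (helper17): the sum over the layers (row GS.2 (1)): `PieceBin j κ C` gives `SMIbin j C'`

Binary model, `V_j = univ`, layers `n = 0, 1, ..`, roundings `hh n`: `SL n = binSys (hh n)`; `PsL n` = the faces lifted to
the rounding of the layer `n`; `RL 0 = Ψ`, `RL (n+1)` = residual of the layer `n+1`; `PF n q w` = the face `w` of the piece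
`(n, q)` divided by `4` (in the geometry `SL (n+1)`).
* `hy_lift`, `psl_ok`, `rl_ok` : properties of the faces; `faces_pf`, `str_pf` : the pieces satisfy the contract;
* `PieceBin.mono`, `atAll_of_piece`, **`smiBin_of_piece`**, `SMIbin0`, `smiBin0_of_piece0` (no coins).
-/

set_option autoImplicit false
set_option linter.unusedSectionVars false

namespace Pool.Agent.GM.GS

open Finset Pool.Agent.PWZ Pool.Agent.M3 Pool.Agent.M3.TS Pool.Agent.M3.Bin Pool.Agent.GM Pool.Agent.GM.Mv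
open Pool.Agent.M3.Mod (ex)

noncomputable section

/-! ### moving faces, all vertices unknown -/

section abs

variable {ι Om Ξ Pt V Γ κ Γ' κ' : Type} [Fintype ι] [DecidableEq ι] [Fintype Om] [Fintype Ξ] [Fintype Pt]
  [Fintype V]

/-- moving faces bounded by `X` with at most `m` future moves -/
structure Hy (S : Sys ι Om Ξ Pt V Γ κ) (δ : ι) (Ψ : ι → Mov Ξ ι Pt Γ (V → ℝ)) (X m : ℝ) : Prop where
  dep : ∀ w t g ξ, Dep (univ.erase w) (Ψ w t g ξ)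
  coin : ∀ w, w ≠ δ → ∀ t g ξ ξ', Ψ w t g ξ = Ψ w t g ξ'
  bd : ∀ w t g ξ x d, |Ψ w t g ξ x d| ≤ X
  zero : ∀ w g ξ x, Ψ w 0 g ξ x = 0
  fut : ∀ w, S.Future (univ.erase w) (Ψ w) m

variable {S : Sys ι Om Ξ Pt V Γ κ} {S' : Sys ι Om Ξ Pt V Γ' κ'} {δ : ι} {Ψ : ι → Mov Ξ ι Pt Γ (V → ℝ)} {X m : ℝ}

theorem hy_lift (A : FineS S S') (hm : 0 ≤ m) (H : Hy S δ Ψ X m) : Hy S' δ (fun w => A.lift (Ψ w)) X (A.Rt * m) where
  dep w t _ ξ := H.dep w t _ ξ
  coin w hw t _ ξ ξ' := H.coin w hw t _ ξ ξ'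
  bd w t _ ξ x d := H.bd w t _ ξ x d
  zero w _ ξ x := H.zero w _ ξ x
  fut w := A.future_lift (erase_ne w) hm (H.fut w)

theorem Hy.mono {m' : ℝ} (H : Hy S δ Ψ X m) (h : m ≤ m') : Hy S δ Ψ X m' where
  dep := H.dep
  coin := H.coin
  bd := H.bd
  zero := H.zero
  fut w := Sys.Future.mono S (H.fut w) h

/-- the residuals -/
theorem hy_res [∀ w, Nonempty (TK (univ : Finset ι) w)] {ep th : ℝ} (hep : 0 < ep) (hth : 0 < th) (hm : 0 ≤ m)
    (H : Hy S δ Ψ 1 m) : Hy S δ (fun w => mRes S univ w 1 ep th (Ψ w)) 2 (m + 8 * (1 + m) / ep ^ 2) where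
  dep w := mRes_dep S univ (H.dep w)
  coin w hw := mRes_coin S univ (H.coin w hw)
  bd w t g ξ x d := by
    have h1 := abs_mRes S univ w (ep := ep) (th := th) (Ψ := Ψ w) zero_le_one (H.bd w) t g ξ x d
    rwa [mul_one] at h1
  zero w := mRes_zero S univ hep hth (H.zero w)
  fut w := mRes_future S univ one_pos hep (H.dep w) (H.bd w) hm (H.fut w)

end abs

/-! ### the layers in the binary model -/

section lay

variable {k N : ℕ} {ι Θ Ξ Q : Type} [Fintype ι] [DecidableEq ι] (σ : V k) [Fintype Θ] [Nonempty Θ] [Fintype Ξ]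
  [Nonempty Ξ] [Fintype Q] [Nonempty Q] (i : ι) (hN : N ≤ k) (hh : ℕ → ℕ) (hm : ∀ n, hh n ≤ hh (n + 1))

/-- the geometry of the layer `n` -/
abbrev SL (n : ℕ) : Sys ι (Sq k N ι Θ (Ξ × Q)) Ξ (Q × V k) (V k) (Θ × (V k × ℕ)) (V k) :=
  binSys Θ Ξ Q σ i hN (hh n)

/-- the next rounding is finer -/
abbrev fn (n : ℕ) : FineS (SL (Θ := Θ) (Ξ := Ξ) (Q := Q) σ i hN hh n) (SL (Θ := Θ) (Ξ := Ξ) (Q := Q) σ i hN hh (n + 1)) :=
  binFine σ i hN (hm n)

/-- the faces lifted to the layer `n` -/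
def PsL (Ψ : ι → Mov Ξ ι (Q × V k) (Θ × (V k × ℕ)) (V k → ℝ)) : ℕ → ι → Mov Ξ ι (Q × V k) (Θ × (V k × ℕ)) (V k → ℝ)
  | 0 => Ψ
  | n + 1 => fun w => (fn (Θ := Θ) (Ξ := Ξ) (Q := Q) σ i hN hh hm n).lift (PsL Ψ n w)

variable [∀ w, Nonempty (TK (univ : Finset ι) w)] (ep th : ℕ → ℝ)

/-- the residuals of the layer `n` -/
def RL (Ψ : ι → Mov Ξ ι (Q × V k) (Θ × (V k × ℕ)) (V k → ℝ)) : ℕ → ι → Mov Ξ ι (Q × V k) (Θ × (V k × ℕ)) (V k → ℝ)
  | 0 => Ψ
  | n + 1 => fun w => mRes (SL (Θ := Θ) (Ξ := Ξ) (Q := Q) σ i hN hh (n + 1)) univ w 1 (ep (n + 1)) (th (n + 1))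
      (PsL σ i hN hh hm Ψ (n + 1) w)

/-- accuracies -/
def accL (a0 : ℝ) : ℕ → ℝ
  | 0 => a0
  | n + 1 => 4 * ep (n + 1)

/-- the order of the faces -/
def rk (w : ι) : ℕ := (Fintype.equivFin ι w).val

theorem rk_inj : Function.Injective (rk (ι := ι)) := fun _ _ h =>
  (Fintype.equivFin ι).injective (Fin.ext h)

/-- the face `w` of the piece `(n, q)`, divided by `4` -/
def PF (Ψ : ι → Mov Ξ ι (Q × V k) (Θ × (V k × ℕ)) (V k → ℝ)) (n : ℕ) (q w : ι) :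
    Mov Ξ ι (Q × V k) (Θ × (V k × ℕ)) (V k → ℝ) := fun t g ξ x d =>
  pcf rk (fun w => (fn (Θ := Θ) (Ξ := Ξ) (Q := Q) σ i hN hh hm n).lift (RL σ i hN hh hm ep th Ψ n w) t g ξ x d)
    (fun w => RL σ i hN hh hm ep th Ψ (n + 1) w t g ξ x d) q w / 4

variable {σ i hN hh hm ep th} {δ : ι} {Ψ : ι → Mov Ξ ι (Q × V k) (Θ × (V k × ℕ)) (V k → ℝ)} {H : ℝ}

theorem hh_le (hm : ∀ n, hh n ≤ hh (n + 1)) (n : ℕ) : hh 0 ≤ hh n := by
  induction n with
  | zero => exact le_rfl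
  | succ n ih => exact ih.trans (hm n)

theorem hh_mul (hm : ∀ n, hh n ≤ hh (n + 1)) (n : ℕ) :
    (2 : ℝ) ^ (hh (n + 1) - hh n) * 2 ^ (hh n - hh 0) = 2 ^ (hh (n + 1) - hh 0) := by
  rw [← pow_add]
  congr 1
  have h1 := hh_le hm n
  have h2 := hm n
  omega

theorem psl_ok (hH : 0 ≤ H) (h0 : Hy (SL (Θ := Θ) (Ξ := Ξ) (Q := Q) σ i hN hh 0) δ Ψ 1 H) :
    ∀ n, Hy (SL (Θ := Θ) (Ξ := Ξ) (Q := Q) σ i hN hh n) δ (PsL σ i hN hh hm Ψ n) 1 (2 ^ (hh n - hh 0) * H) := by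
  intro n
  induction n with
  | zero => exact h0.mono (le_mul_of_one_le_left hH (one_le_pow₀ (by norm_num)))
  | succ n ih =>
    have h1 := hy_lift (fn (Θ := Θ) (Ξ := Ξ) (Q := Q) σ i hN hh hm n) (by positivity) ih
    refine h1.mono (le_of_eq ?_)
    show (2 : ℝ) ^ (hh (n + 1) - hh n) * (2 ^ (hh n - hh 0) * H) = 2 ^ (hh (n + 1) - hh 0) * H
    rw [← mul_assoc, hh_mul hm]

theorem rl_ok (hH : 0 ≤ H) (hep : ∀ n, 0 < ep n) (hth : ∀ n, 0 < th n)
    (h0 : Hy (SL (Θ := Θ) (Ξ := Ξ) (Q := Q) σ i hN hh 0) δ Ψ 1 H) (n : ℕ) :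
    Hy (SL (Θ := Θ) (Ξ := Ξ) (Q := Q) σ i hN hh n) δ (RL σ i hN hh hm ep th Ψ n) 2
      (2 ^ (hh n - hh 0) * H + 8 * (1 + 2 ^ (hh n - hh 0) * H) / ep n ^ 2) := by
  have h1 := psl_ok (hm := hm) hH h0 n
  cases n with
  | zero =>
    have h2 : (0 : ℝ) ≤ 8 * (1 + 2 ^ (hh 0 - hh 0) * H) / ep 0 ^ 2 := by
      have := hep 0
      positivity
    refine ⟨h0.dep, h0.coin, fun w t g ξ x d => (h0.bd w t g ξ x d).trans one_le_two, h0.zero, fun w => ?_⟩
    exact Sys.Future.mono _ (h1.fut w) (by linarith)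
  | succ n => exact hy_res (hep (n + 1)) (hth (n + 1)) (by positivity) h1

theorem rl_rare (hH : 0 ≤ H) (hep : ∀ n, 0 < ep n) (hth : ∀ n, 0 < th n)
    (h0 : Hy (SL (Θ := Θ) (Ξ := Ξ) (Q := Q) σ i hN hh 0) δ Ψ 1 H) {a0 : ℝ}
    (hr : ∀ w, (SL (Θ := Θ) (Ξ := Ξ) (Q := Q) σ i hN hh 0).Rare univ w (Ψ w) (th 0) a0) (n : ℕ) (w : ι) :
    (SL (Θ := Θ) (Ξ := Ξ) (Q := Q) σ i hN hh n).Rare univ w (RL σ i hN hh hm ep th Ψ n w) (th n) (accL ep a0 n) := by
  cases n with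
  | zero => exact hr w
  | succ n =>
    have h1 := psl_ok (hm := hm) hH h0 (n + 1)
    have h2 := mRes_rare (SL (Θ := Θ) (Ξ := Ξ) (Q := Q) σ i hN hh (n + 1)) univ (mem_univ w) one_pos (hep (n + 1))
      (hth (n + 1)) (h1.dep w) (h1.bd w)
    rw [mul_one] at h2
    exact h2

/-- numbers of the moves -/
structure MvOk (hh : ℕ → ℕ) (ep : ℕ → ℝ) (H M : ℝ) (n : ℕ) : Prop where
  epp : ∀ n, 0 < ep n
  epo : ∀ n, ep n ≤ 1
  epa : ep (n + 1) ≤ ep n
  H1 : 1 ≤ H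
  le : 128 * (1 + 2 ^ (hh (n + 1) - hh 0) * H) / ep (n + 1) ^ 3 ≤ M

namespace MvOk

variable {M : ℝ} {n : ℕ} (h : MvOk hh ep H M n)

include h

theorem aux {c : ℝ} (hc : c ≤ 128 * (1 + 2 ^ (hh (n + 1) - hh 0) * H)) : c / ep (n + 1) ^ 3 ≤ M := by
  have h1 := h.epp (n + 1)
  refine le_trans ?_ h.le
  exact div_le_div_of_nonneg_right hc (by positivity)

theorem cube (m : ℕ) (hm : m ≤ 3) {c : ℝ} (hc : 0 ≤ c) : c / ep n ^ m ≤ c / ep (n + 1) ^ 3 := by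
  have h1 := h.epp (n + 1)
  have h2 : ep (n + 1) ^ 3 ≤ ep (n + 1) ^ m := pow_le_pow_of_le_one h1.le (h.epo _) hm
  have h3 : ep (n + 1) ^ m ≤ ep n ^ m := pow_le_pow_left₀ h1.le h.epa m
  exact div_le_div_of_nonneg_left hc (by positivity) (h2.trans h3)

theorem cube' (m : ℕ) (hm : m ≤ 3) {c : ℝ} (hc : 0 ≤ c) : c / ep (n + 1) ^ m ≤ c / ep (n + 1) ^ 3 := by
  have h1 := h.epp (n + 1)
  have h2 : ep (n + 1) ^ 3 ≤ ep (n + 1) ^ m := pow_le_pow_of_le_one h1.le (h.epo _) hm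
  exact div_le_div_of_nonneg_left hc (by positivity) h2

theorem Z1 : (1 : ℝ) ≤ 2 ^ (hh (n + 1) - hh 0) * H := by
  have h1 : (1 : ℝ) ≤ 2 ^ (hh (n + 1) - hh 0) := one_le_pow₀ (by norm_num)
  have h2 := h.H1
  nlinarith

/-- moves of the residual of the layer `n + 1` -/
theorem fut1 : 2 ^ (hh (n + 1) - hh 0) * H + 8 * (1 + 2 ^ (hh (n + 1) - hh 0) * H) / ep (n + 1) ^ 2 ≤ M / 4 := by
  set Z : ℝ := 2 ^ (hh (n + 1) - hh 0) * H with hZ
  have hZ1 := h.Z1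
  rw [← hZ] at hZ1
  have h1 := h.cube' 0 (by norm_num) (c := Z) (by linarith)
  rw [pow_zero, div_one] at h1
  have h2 := h.cube' 2 (by norm_num) (c := 8 * (1 + Z)) (by linarith)
  have h3 := h.le
  rw [← hZ] at h3
  have h4 := h.epp (n + 1)
  have h5 : Z / ep (n + 1) ^ 3 + 8 * (1 + Z) / ep (n + 1) ^ 3 ≤ 32 * (1 + Z) / ep (n + 1) ^ 3 := by
    rw [← add_div]
    exact div_le_div_of_nonneg_right (by linarith) (by positivity)
  have h6 : 32 * (1 + Z) / ep (n + 1) ^ 3 = 128 * (1 + Z) / ep (n + 1) ^ 3 / 4 := by ring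
  linarith

/-- moves of the lifted residual of the layer `n` -/
theorem fut0 (hm : ∀ n, hh n ≤ hh (n + 1)) : (2 : ℝ) ^ (hh (n + 1) - hh n) * (2 ^ (hh n - hh 0) * H + 8 * (1 + 2 ^ (hh n - hh 0) * H) / ep n ^ 2) ≤ M / 4 := by
  set Z : ℝ := 2 ^ (hh (n + 1) - hh 0) * H with hZ
  have hZ1 := h.Z1
  rw [← hZ] at hZ1
  have e1 : (2 : ℝ) ^ (hh (n + 1) - hh n) * (2 ^ (hh n - hh 0) * H) = Z := by
    rw [← mul_assoc, hh_mul hm]
  have e2 : (2 : ℝ) ^ (hh (n + 1) - hh n) ≤ Z := by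
    have h1 : (2 : ℝ) ^ (hh (n + 1) - hh n) ≤ 2 ^ (hh (n + 1) - hh 0) :=
      pow_le_pow_right₀ (by norm_num) (Nat.sub_le_sub_left (hh_le hm n) _)
    have h2 : (0 : ℝ) ≤ 2 ^ (hh (n + 1) - hh 0) := by positivity
    have h3 := h.H1
    nlinarith
  have e3 : (2 : ℝ) ^ (hh (n + 1) - hh n) * (2 ^ (hh n - hh 0) * H + 8 * (1 + 2 ^ (hh n - hh 0) * H) / ep n ^ 2) =
      Z + 8 * ((2 : ℝ) ^ (hh (n + 1) - hh n) + Z) / ep n ^ 2 := by
    rw [← e1]
    ring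
  rw [e3]
  have h4 := h.epp n
  have h0 : (0 : ℝ) ≤ (2 : ℝ) ^ (hh (n + 1) - hh n) := by positivity
  have h1 := h.cube 0 (by norm_num) (c := Z) (by linarith)
  rw [pow_zero, div_one] at h1
  have h2 := h.cube 2 (by norm_num) (c := 8 * ((2 : ℝ) ^ (hh (n + 1) - hh n) + Z)) (by positivity)
  have h3 := h.le
  rw [← hZ] at h3
  have h4 := h.epp (n + 1)
  have h5 : Z / ep (n + 1) ^ 3 + 8 * ((2 : ℝ) ^ (hh (n + 1) - hh n) + Z) / ep (n + 1) ^ 3 ≤
      32 * (1 + Z) / ep (n + 1) ^ 3 := by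
    rw [← add_div]
    exact div_le_div_of_nonneg_right (by linarith) (by positivity)
  have h6 : 32 * (1 + Z) / ep (n + 1) ^ 3 = 128 * (1 + Z) / ep (n + 1) ^ 3 / 4 := by ring
  linarith

end MvOk

/-- **the faces of a piece** -/
theorem faces_pf (hep : ∀ n, 0 < ep n) (hth : ∀ n, 0 < th n)
    (h0 : Hy (SL (Θ := Θ) (Ξ := Ξ) (Q := Q) σ i hN hh 0) δ Ψ 1 H) {a0 : ℝ} (ha0 : 0 ≤ a0)
    (hr : ∀ w, (SL (Θ := Θ) (Ξ := Ξ) (Q := Q) σ i hN hh 0).Rare univ w (Ψ w) (th 0) a0) (n : ℕ) {M θ acc : ℝ}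
    (hM : MvOk hh ep H M n)
    (hθ : (2 : ℝ) ^ (Fintype.card ι * hh (n + 1)) * (th n + th (n + 1)) ≤ θ)
    (hacc : (accL ep a0 n + 2 * (8 * ((2 : ℝ) ^ hh n)⁻¹ + 8 * ((2 : ℝ) ^ hh (n + 1))⁻¹) + 4 * ep (n + 1)) / 4 ≤ acc)
    (q : ι) :
    Faces (SL (Θ := Θ) (Ξ := Ξ) (Q := Q) σ i hN hh (n + 1)) univ δ (PF σ i hN hh hm ep th Ψ n q) M θ acc := by
  have hH : 0 ≤ H := by linarith [hM.H1]
  have hacL : 0 ≤ accL ep a0 n := by
    cases n with
    | zero => exact ha0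
    | succ n => exact mul_nonneg (by norm_num) (hep _).le
  set A := fn (Θ := Θ) (Ξ := Ξ) (Q := Q) σ i hN hh hm n with hA
  have hRt : A.Rt = 2 ^ (hh (n + 1) - hh n) := rfl
  have a1 := rl_ok (hm := hm) hH hep hth h0 n
  have a2 := hy_lift A (by
    have := hep n
    positivity) a1
  have b1 := rl_ok (hm := hm) hH hep hth h0 (n + 1)
  have a3 := fun w => rl_rare (hm := hm) hH hep hth h0 hr n w
  have a4 := fun w => A.rare_lift (hth n).le zero_le_two (a1.bd w) (a3 w)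
  have b3 := fun w => rl_rare (hm := hm) hH hep hth h0 hr (n + 1) w
  have hp : (1 : ℝ) ≤ 2 ^ (Fintype.card ι * hh (n + 1)) := one_le_pow₀ (by norm_num)
  have hp2 : A.Rt ^ (univ : Finset ι).card ≤ 2 ^ (Fintype.card ι * hh (n + 1)) := by
    rw [hRt, Finset.card_univ, ← pow_mul, mul_comm]
    exact pow_le_pow_right₀ (by norm_num) (Nat.mul_le_mul_left _ (Nat.sub_le _ _))
  have c1 := hth n
  have c2 := hth (n + 1)
  have c3 := hep (n + 1)
  have c4 : (0 : ℝ) < 8 * ((2 : ℝ) ^ hh n)⁻¹ := by positivity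
  have c5 : (0 : ℝ) < 8 * ((2 : ℝ) ^ hh (n + 1))⁻¹ := by positivity
  have n1 : (SL (Θ := Θ) (Ξ := Ξ) (Q := Q) (N := N) σ i hN hh n).near = 8 * ((2 : ℝ) ^ hh n)⁻¹ := rfl
  have n2 : (SL (Θ := Θ) (Ξ := Ξ) (Q := Q) (N := N) σ i hN hh (n + 1)).near = 8 * ((2 : ℝ) ^ hh (n + 1))⁻¹ := rfl
  have f1 := hM.fut1
  have f0 := hM.fut0 hm
  rw [← hRt] at f0
  have hM0 : 0 ≤ M := by
    have h1 := hM.Z1
    have h2 := hM.fut1
    have h3 : (0 : ℝ) ≤ 8 * (1 + 2 ^ (hh (n + 1) - hh 0) * H) / ep (n + 1) ^ 2 := by positivity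
    linarith
  have t1 : A.Rt ^ (univ : Finset ι).card * th n ≤ 2 ^ (Fintype.card ι * hh (n + 1)) * th n :=
    mul_le_mul_of_nonneg_right hp2 c1.le
  have t2 : th (n + 1) ≤ 2 ^ (Fintype.card ι * hh (n + 1)) * th (n + 1) := le_mul_of_one_le_left c2.le hp
  have t3 : (0 : ℝ) ≤ 2 ^ (Fintype.card ι * hh (n + 1)) * th n := by positivity
  have t4 : (0 : ℝ) ≤ 2 ^ (Fintype.card ι * hh (n + 1)) * th (n + 1) := by positivity
  rw [mul_add] at hθ
  -- the value of a face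
  have val : ∀ w, PF σ i hN hh hm ep th Ψ n q w =
      if rk w < rk q then (fun t g ξ x d => RL σ i hN hh hm ep th Ψ (n + 1) w t g ξ x d / 4)
      else if w = q then (fun t g ξ x d => (A.lift (RL σ i hN hh hm ep th Ψ n q) t g ξ x d -
        RL σ i hN hh hm ep th Ψ (n + 1) q t g ξ x d) / 4)
      else fun t g ξ x d => A.lift (RL σ i hN hh hm ep th Ψ n w) t g ξ x d / 4 := by
    intro w
    unfold PF pcf
    split_ifs with h1 h2
    · rfl
    · subst h2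
      rfl
    · rfl
  have div4 : ∀ F : Mov Ξ ι (Q × V k) (Θ × (V k × ℕ)) (V k → ℝ),
      (fun t g ξ x d => F t g ξ x d / 4) = fun t g ξ x d => 1 / 4 * F t g ξ x d := by
    intro F
    funext t g ξ x d
    ring
  have futd : ∀ (w : ι) (F : Mov Ξ ι (Q × V k) (Θ × (V k × ℕ)) (V k → ℝ)) (m : ℝ),
      (SL (Θ := Θ) (Ξ := Ξ) (Q := Q) σ i hN hh (n + 1)).Future (univ.erase w) F m → m ≤ M →
      (SL (Θ := Θ) (Ξ := Ξ) (Q := Q) σ i hN hh (n + 1)).Future (univ.erase w) (fun t g ξ x d => F t g ξ x d / 4) M := by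
    intro w F m hF hmM
    refine Sys.Future.mono _ (Sys.Future.of_iff _ hF fun t ω hne heq => hne ?_) hmM
    unfold Sys.at' at heq ⊢
    simp only [heq]
  refine ⟨?_, ?_, ?_, ?_, ?_, ?_⟩
  · intro w _ t g ξ x y hxy
    rw [val w]
    split_ifs with h1 h2
    · simp only [b1.dep w t g ξ x y hxy]
    · subst h2
      simp only [a2.dep w t g ξ x y hxy, b1.dep w t g ξ x y hxy]
    · simp only [a2.dep w t g ξ x y hxy]
  · intro w _ hw t g ξ ξ'
    rw [val w]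
    split_ifs with h1 h2
    · simp only [b1.coin w hw t g ξ ξ']
    · subst h2
      simp only [a2.coin w hw t g ξ ξ', b1.coin w hw t g ξ ξ']
    · simp only [a2.coin w hw t g ξ ξ']
  · intro w _ t g ξ x d
    rw [val w]
    split_ifs with h1 h2
    · have := b1.bd w t g ξ x d
      rw [abs_div, abs_of_pos (by norm_num : (0 : ℝ) < 4)]
      linarith
    · subst h2
      have h3 := b1.bd w t g ξ x d
      have h4 := a2.bd w t g ξ x d
      have h5 := abs_sub (A.lift (RL σ i hN hh hm ep th Ψ n w) t g ξ x d) (RL σ i hN hh hm ep th Ψ (n + 1) w t g ξ x d)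
      rw [abs_div, abs_of_pos (by norm_num : (0 : ℝ) < 4)]
      linarith
    · have := a2.bd w t g ξ x d
      rw [abs_div, abs_of_pos (by norm_num : (0 : ℝ) < 4)]
      linarith
  · intro w _ g ξ x
    rw [val w]
    funext d
    split_ifs with h1 h2
    · have := congrFun (b1.zero w g ξ x) d
      simp only [this]
      simp
    · subst h2
      have h3 := congrFun (b1.zero w g ξ x) d
      have h4 := congrFun (a2.zero w g ξ x) d
      simp only [h3, h4]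
      simp
    · have := congrFun (a2.zero w g ξ x) d
      simp only [this]
      simp
  · intro w _
    rw [val w]
    split_ifs with h1 h2
    · exact futd w _ _ (b1.fut w) (by linarith)
    · subst h2
      exact futd w _ _ (Sys.Future.sub (a2.fut w) (b1.fut w)) (by linarith)
    · exact futd w _ _ (a2.fut w) (by linarith)
  · intro w _
    have b4 : (SL (Θ := Θ) (Ξ := Ξ) (Q := Q) σ i hN hh (n + 1)).Rare univ w (RL σ i hN hh hm ep th Ψ (n + 1) w)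
      (th (n + 1)) (4 * ep (n + 1)) := b3 w
    have a5 := a4 w
    rw [n1, n2] at a5
    rw [val w]
    split_ifs with h1 h2
    · rw [div4]
      exact Sys.Rare.mono _ (Sys.Rare.smul (by norm_num) b4) (by linarith) (by linarith)
    · subst h2
      rw [div4 (fun t g ξ x d => A.lift (RL σ i hN hh hm ep th Ψ n w) t g ξ x d -
        RL σ i hN hh hm ep th Ψ (n + 1) w t g ξ x d)]
      exact Sys.Rare.mono _ (Sys.Rare.smul (by norm_num) (Sys.Rare.sub a5 b4)) (by linarith) (by linarith)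
    · rw [div4]
      exact Sys.Rare.mono _ (Sys.Rare.smul (by norm_num) a5) (by linarith) (by linarith)

/-- the structured function of the layer `n` in the geometry of the layer `n + 1` -/
theorem lift_res (Ψ' : Mov Ξ ι (Q × V k) (Θ × (V k × ℕ)) (V k → ℝ)) (w : ι) (n : ℕ) (e t' : ℝ) (t : ℕ)
    (g : Θ × (V k × ℕ)) (ξ : Ξ) (x : ι → Q × V k) (d : V k) :
    (fn (Θ := Θ) (Ξ := Ξ) (Q := Q) σ i hN hh hm n).lift
      (mRes (SL (Θ := Θ) (Ξ := Ξ) (Q := Q) σ i hN hh n) univ w 1 e t' Ψ') t g ξ x d =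
    (fn (Θ := Θ) (Ξ := Ξ) (Q := Q) σ i hN hh hm n).lift Ψ' t g ξ x d -
      psi e (mvals univ w ((fn (Θ := Θ) (Ξ := Ξ) (Q := Q) σ i hN hh hm n).lift
        (mLst (SL (Θ := Θ) (Ξ := Ξ) (Q := Q) σ i hN hh n) univ w 1 e t' Ψ') t g ξ x) x d) := by
  show Ψ' t _ ξ x d - mStr _ univ w 1 e t' Ψ' t _ ξ x d = Ψ' t _ ξ x d - _
  rw [mStr_psi, one_mul]
  rfl

/-- **the structured face of a piece** -/
theorem str_pf (hep : ∀ n, 0 < ep n) (hth : ∀ n, 0 < th n) (hta : ∀ n, th (n + 1) ≤ th n)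
    (h0 : Hy (SL (Θ := Θ) (Ξ := Ξ) (Q := Q) σ i hN hh 0) δ Ψ 1 H) (n : ℕ) {M T : ℝ}
    (hM : MvOk hh ep H M n) (hT : M / th (n + 1) ≤ T) (q : ι) :
    Nonempty (StrF (SL (Θ := Θ) (Ξ := Ξ) (Q := Q) σ i hN hh (n + 1)) univ δ q (PF σ i hN hh hm ep th Ψ n q q) M T) := by
  have hH : 0 ≤ H := by linarith [hM.H1]
  set A := fn (Θ := Θ) (Ξ := Ξ) (Q := Q) σ i hN hh hm n with hA
  have c1 := hth n
  have c2 := hth (n + 1)
  have c3 := hep (n + 1)
  have hZ1 := hM.Z1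
  set Z : ℝ := 2 ^ (hh (n + 1) - hh 0) * H with hZ
  have h2 := hM.le
  rw [← hZ] at h2
  have hM1 : 1 ≤ M := by
    have h3 := hM.cube' 0 (by norm_num) (c := 128 * (1 + Z)) (by linarith)
    rw [pow_zero, div_one] at h3
    linarith
  have hM0 : 0 < M := by linarith
  have hT0 : 0 ≤ T := le_trans (by positivity) hT
  -- the list of the layer `n + 1`
  have p1 := psl_ok (hm := hm) hH h0 (n + 1)
  have B1 : BL (SL (Θ := Θ) (Ξ := Ξ) (Q := Q) σ i hN hh (n + 1)) univ q _ _ :=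
    BL.of (X := 1) (ep := ep (n + 1)) (th := th (n + 1)) one_pos c3 c2 (p1.dep q) (p1.bd q) (p1.zero q)
      (by positivity) (p1.fut q)
  have m1 : 64 * (1 + Z) / (3 * ep (n + 1) ^ 2) ≤ M := by
    have h3 : 64 * (1 + Z) / (3 * ep (n + 1) ^ 2) = (64 / 3 * (1 + Z)) / ep (n + 1) ^ 2 := by
      rw [div_eq_div_iff (by positivity) (by positivity)]
      ring
    rw [h3]
    exact (hM.cube' 2 (by norm_num) (by positivity)).trans (hM.aux (by linarith))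
  have t1 : 32 * (1 + 4 * Z) / (ep (n + 1) ^ 3 * th (n + 1)) ≤ T := by
    refine le_trans ?_ hT
    rw [← div_div]
    exact div_le_div_of_nonneg_right (hM.aux (by linarith)) c2.le
  have pe1 : 1 / M ≤ ep (n + 1) := by
    rw [one_div]
    refine inv_le_of_inv_le₀ c3 ?_
    have h3 := hM.cube' 1 (by norm_num) (c := 1) zero_le_one
    rw [pow_one, one_div] at h3
    exact h3.trans (hM.aux (by linarith))
  have e1 : ∀ t g ξ x d, RL σ i hN hh hm ep th Ψ (n + 1) q t g ξ x d = PsL σ i hN hh hm Ψ (n + 1) q t g ξ x d -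
      psi (ep (n + 1)) (mvals univ q (mLst (SL (Θ := Θ) (Ξ := Ξ) (Q := Q) σ i hN hh (n + 1)) univ q 1 (ep (n + 1))
        (th (n + 1)) (PsL σ i hN hh hm Ψ (n + 1) q) t g ξ x) x d) := by
    intro t g ξ x d
    show PsL σ i hN hh hm Ψ (n + 1) q t g ξ x d - mStr _ univ q 1 _ _ _ t g ξ x d = _
    rw [mStr_psi, one_mul]
  have e2 : ∀ t g ξ x d, PF σ i hN hh hm ep th Ψ n q q t g ξ x d =
      (A.lift (RL σ i hN hh hm ep th Ψ n q) t g ξ x d - RL σ i hN hh hm ep th Ψ (n + 1) q t g ξ x d) / 4 := by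
    intro t g ξ x d
    unfold PF
    rw [pcf_self]
  cases n with
  | zero =>
    refine ⟨{ e0 := 1, e1 := ep 1, pe0 := ?_, pe1 := pe1, b0 := BL.nil hM0 hT0
              b1 := (BL.of (X := 1) (ep := ep 1) (th := th 1) one_pos c3 c2 (p1.dep q) (p1.bd q) (p1.zero q)
                (by positivity) (p1.fut q)).mono m1 t1
              coin0 := fun _ _ _ _ _ => rfl
              coin1 := fun hq t g ξ ξ' => mLst_coin _ univ (p1.coin q hq) t g ξ ξ'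
              eq := ?_ }⟩
    · rw [div_le_one hM0]
      exact hM1
    · intro t g ξ x d
      rw [e2, e1]
      show (PsL σ i hN hh hm Ψ 1 q t g ξ x d - (PsL σ i hN hh hm Ψ 1 q t g ξ x d -
        psi (ep 1) (mvals univ q (mLst (SL (Θ := Θ) (Ξ := Ξ) (Q := Q) σ i hN hh 1) univ q 1 (ep 1)
        (th 1) (PsL σ i hN hh hm Ψ 1 q) t g ξ x) x d)) ) / 4 = (psi (ep 1) (mvals univ q (mLst (SL (Θ := Θ) (Ξ := Ξ) (Q := Q) σ i hN hh 1) univ q 1 (ep 1)
        (th 1) (PsL σ i hN hh hm Ψ 1 q) t g ξ x) x d) - psi 1 []) / 4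
      rw [psi_nil]
      ring
  | succ n =>
    have p0 := psl_ok (hm := hm) hH h0 (n + 1)
    have c4 := hep (n + 1)
    have hle := hm (n + 1)
    have z1 : (2 : ℝ) ^ (hh (n + 2) - hh (n + 1)) * (2 ^ (hh (n + 1) - hh 0) * H) = Z := by
      rw [← mul_assoc, hh_mul hm (n + 1)]
    have z2 : (2 : ℝ) ^ (hh (n + 2) - hh (n + 1)) ≤ Z := by
      have h1 : (2 : ℝ) ^ (hh (n + 2) - hh (n + 1)) ≤ 2 ^ (hh (n + 2) - hh 0) :=
        pow_le_pow_right₀ (by norm_num) (Nat.sub_le_sub_left (hh_le hm (n + 1)) _)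
      have h2 : (0 : ℝ) ≤ 2 ^ (hh (n + 2) - hh 0) := by positivity
      have h3 := hM.H1
      nlinarith
    have z3 : (2 : ℝ) ^ (hh (n + 1) - hh 0) * H ≤ Z := by
      rw [hZ]
      exact mul_le_mul_of_nonneg_right (pow_le_pow_right₀ (by norm_num) (Nat.sub_le_sub_right hle _)) hH
    have hRt : A.Rt = 2 ^ (hh (n + 2) - hh (n + 1)) := rfl
    have m0 : A.Rt * (64 * (1 + 2 ^ (hh (n + 1) - hh 0) * H) / (3 * ep (n + 1) ^ 2)) ≤ M := by
      have h3 : A.Rt * (64 * (1 + 2 ^ (hh (n + 1) - hh 0) * H) / (3 * ep (n + 1) ^ 2)) =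
          (64 / 3 * (A.Rt + Z)) / ep (n + 1) ^ 2 := by
        rw [hRt, ← z1]
        field_simp
      rw [h3]
      have h4 : (0 : ℝ) ≤ A.Rt := by linarith [A.Rt1]
      refine (hM.cube 2 (by norm_num) (by positivity)).trans (hM.aux ?_)
      rw [hRt]
      linarith
    have t0 : 32 * (1 + 4 * (2 ^ (hh (n + 1) - hh 0) * H)) / (ep (n + 1) ^ 3 * th (n + 1)) ≤ T := by
      refine le_trans ?_ hT
      rw [← div_div]
      have h3 : 32 * (1 + 4 * (2 ^ (hh (n + 1) - hh 0) * H)) / ep (n + 1) ^ 3 ≤ M := by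
        refine (hM.cube 3 le_rfl (by positivity)).trans (hM.aux (by linarith))
      refine (div_le_div_of_nonneg_right h3 c1.le).trans ?_
      exact div_le_div_of_nonneg_left hM0.le c2 (hta (n + 1))
    refine ⟨{ e0 := ep (n + 1), e1 := ep (n + 2), pe0 := pe1.trans hM.epa, pe1 := pe1
              b0 := ((BL.of (X := 1) (ep := ep (n + 1)) (th := th (n + 1)) one_pos c4 c1 (p0.dep q) (p0.bd q) (p0.zero q)
                (by positivity) (p0.fut q)).lift A (by positivity)).mono m0 t0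
              b1 := (BL.of (X := 1) (ep := ep (n + 2)) (th := th (n + 2)) one_pos c3 c2 (p1.dep q) (p1.bd q) (p1.zero q)
                (by positivity) (p1.fut q)).mono m1 t1
              coin0 := fun hq t g ξ ξ' => mLst_coin _ univ (p0.coin q hq) t _ ξ ξ'
              coin1 := fun hq t g ξ ξ' => mLst_coin _ univ (p1.coin q hq) t g ξ ξ'
              eq := ?_ }⟩
    intro t g ξ x d
    rw [e2, e1]
    have h5 := lift_res (σ := σ) (i := i) (hN := hN) (hh := hh) (hm := hm) (PsL σ i hN hh hm Ψ (n + 1) q) q (n + 1)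
      (ep (n + 1)) (th (n + 1)) t g ξ x d
    have h6 : A.lift (RL σ i hN hh hm ep th Ψ (n + 1) q) t g ξ x d =
      (fn (Θ := Θ) (Ξ := Ξ) (Q := Q) σ i hN hh hm (n + 1)).lift
      (mRes (SL (Θ := Θ) (Ξ := Ξ) (Q := Q) σ i hN hh (n + 1)) univ q 1 (ep (n + 1)) (th (n + 1))
        (PsL σ i hN hh hm Ψ (n + 1) q)) t g ξ x d := rfl
    rw [h6, h5]
    have h7 : PsL σ i hN hh hm Ψ (n + 1 + 1) q t g ξ x d =
      (fn (Θ := Θ) (Ξ := Ξ) (Q := Q) σ i hN hh hm (n + 1)).lift (PsL σ i hN hh hm Ψ (n + 1) q) t g ξ x d := rfl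
    rw [h7]
    have h8 : ∀ a b c : ℝ, (a - b - (a - c)) / 4 = (c - b) / 4 := by
      intro a b c
      ring
    rw [h8]
    rfl

end lay

/-! ### the contract -/

/-- larger exponents -/
theorem PieceBin.mono {j : ℕ} {κ : ℝ} {C C' : ℕ} (hC : C ≤ C') (h : PieceBin j κ C) : PieceBin j κ C' := by
  intro ι Θ Ξ Q _ _ _ _ _ _ _ _ k N σ i δ q hN h' hcard β H Λ hβ hβ2 hβH hK hne hHC hΛ F hF hS
  have hH1 : 1 ≤ H := by
    have : 1 ≤ 1 / β := by
      rw [le_div_iff₀ hβ]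
      linarith
    linarith
  have h1 : β ^ C' ≤ β ^ C := pow_le_pow_of_le_one hβ.le (by linarith) hC
  have h2 : H ^ C ≤ H ^ C' := pow_le_pow_right₀ hH1 hC
  exact h ι Θ Ξ Q k N σ i δ q hN h' hcard β H Λ hβ hβ2 hβH hK (hne.trans h1) (h2.trans hHC) hΛ F
    ⟨hF.dep, hF.coin, hF.bd, hF.zero, hF.fut, fun w hw => Sys.Rare.mono _ (hF.rare w hw) le_rfl h1⟩ hS

/-- the contract for the coins `Ξ` -/
def PieceX (Ξ : Type) [Fintype Ξ] [Nonempty Ξ] (j : ℕ) (κ : ℝ) (C : ℕ) : Prop :=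
  ∀ (ι Θ Q : Type) [Fintype ι] [DecidableEq ι] [Fintype Θ] [Nonempty Θ] [Fintype Q]
    [Nonempty Q] (k N : ℕ) (σ : Bin.V k) (i δ q : ι) (hN : N ≤ k) (h : ℕ), Fintype.card ι = j →
    ∀ β H Λ : ℝ, 0 < β → β ≤ 1 / 2 → 1 / β ≤ H → (binSys Θ Ξ Q σ i hN h).K ≤ Real.exp H →
      (binSys Θ Ξ Q σ i hN h).near ≤ β ^ C → H ^ C ≤ Λ → Λ ≤ Real.exp H →
      PieceAt (binSys Θ Ξ Q σ i hN h) univ δ q H (H * Real.exp ((1 + κ) * Λ)) (Real.exp (-Λ)) (β ^ C) β
        (Real.exp (-H))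

theorem PieceX.mono {Ξ : Type} [Fintype Ξ] [Nonempty Ξ] {j : ℕ} {κ : ℝ} {C C' : ℕ} (hC : C ≤ C')
    (h : PieceX Ξ j κ C) : PieceX Ξ j κ C' := by
  intro ι Θ Q _ _ _ _ _ _ k N σ i δ q hN h' hcard β H Λ hβ hβ2 hβH hK hne hHC hΛ F hF hS
  have hH1 : 1 ≤ H := by
    have : 1 ≤ 1 / β := by
      rw [le_div_iff₀ hβ]
      linarith
    linarith
  have h1 : β ^ C' ≤ β ^ C := pow_le_pow_of_le_one hβ.le (by linarith) hC
  have h2 : H ^ C ≤ H ^ C' := pow_le_pow_right₀ hH1 hC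
  exact h ι Θ Q k N σ i δ q hN h' hcard β H Λ hβ hβ2 hβH hK (hne.trans h1) (h2.trans hHC) hΛ F
    ⟨hF.dep, hF.coin, hF.bd, hF.zero, hF.fut, fun w hw => Sys.Rare.mono _ (hF.rare w hw) le_rfl h1⟩ hS

/-- **GS.2 (1)**, coins `Ξ`; the exponent `C'` depends only on `j`, `κ`, `C` -/
theorem atAll_of_piece (j : ℕ) (hj : 2 ≤ j) {κ : ℝ} (hκ : 0 < κ) (C : ℕ) :
    ∃ C' : ℕ, 1 ≤ C' ∧ ∀ (Ξ : Type) [Fintype Ξ] [Nonempty Ξ], PieceX Ξ j κ C →
      ∀ (ι Θ Q : Type) [Fintype ι] [DecidableEq ι] [Fintype Θ] [Nonempty Θ] [Fintype Q]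
      [Nonempty Q] (k N : ℕ) (σ : Bin.V k) (i δ : ι) (hN : N ≤ k) (h : ℕ), Fintype.card ι = j →
      GMN.AtAll (binSys Θ Ξ Q σ i hN h) univ δ C' := by
  set C1 : ℕ := max C 1 with hC1
  have hC11 : 1 ≤ C1 := le_max_right _ _
  obtain ⟨C', hC', hG⟩ := exists_gsn j C1 128 (by omega) hC11 (by norm_num) hκ
  refine ⟨C', hC', ?_⟩
  intro Ξ _ _ hP ι Θ Q _ _ _ _ _ _ k N σ i δ hN h hcard β H hβ hβ2 hβH hK hne
  have hP' : PieceX Ξ j κ C1 := hP.mono (le_max_left _ _)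
  have hK' : (((j + 4) * 2 ^ (h + 3) : ℕ) : ℝ) ≤ Real.exp H := by
    rw [← hcard]
    exact hK
  obtain ⟨G⟩ := hG β H hβ hβ2 hβH h hK' hne
  have hj0 : 0 < j := by omega
  have hjr : (2 : ℝ) ≤ j := by exact_mod_cast hj
  have hnt : Nontrivial ι := by
    rw [← Fintype.one_lt_card_iff_nontrivial]
    omega
  have hTK : ∀ w, Nonempty (TK (univ : Finset ι) w) := by
    intro w
    obtain ⟨v, hv⟩ := exists_ne w
    exact ⟨⟨v, mem_erase.2 ⟨hv, mem_univ v⟩⟩⟩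
  intro Ψ g1 g2 g3 g4 g5 g6
  have hH1 : 1 ≤ H := by
    have : 1 ≤ 1 / β := by
      rw [le_div_iff₀ hβ]
      linarith
    linarith
  -- the faces
  have h0 : Hy (SL (N := N) (Θ := Θ) (Ξ := Ξ) (Q := Q) σ i hN G.hh 0) δ Ψ 1 H := by
    have e : SL (N := N) (Θ := Θ) (Ξ := Ξ) (Q := Q) σ i hN G.hh 0 = binSys Θ Ξ Q σ i hN h := by
      show binSys Θ Ξ Q σ i hN (G.hh 0) = _
      rw [G.hh0]
    rw [e]
    exact ⟨fun w => g1 w (mem_univ w), fun w hw => g2 w (mem_univ w) hw, fun w => g3 w (mem_univ w),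
      fun w => g4 w (mem_univ w), fun w => g5 w (mem_univ w)⟩
  have hr0 : ∀ w, (SL (N := N) (Θ := Θ) (Ξ := Ξ) (Q := Q) σ i hN G.hh 0).Rare univ w (Ψ w) (G.th 0) (β ^ C') := by
    intro w
    have e : SL (N := N) (Θ := Θ) (Ξ := Ξ) (Q := Q) σ i hN G.hh 0 = binSys Θ Ξ Q σ i hN h := by
      show binSys Θ Ξ Q σ i hN (G.hh 0) = _
      rw [G.hh0]
    rw [e, G.th0]
    exact g6 w (mem_univ w)
  have hMv : ∀ n, MvOk G.hh G.ep H (G.HH n) n := fun n =>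
    ⟨G.epp, G.epo, G.epa n, hH1, by
      have h1 := G.mv n
      push_cast at h1
      have h2 := G.epp (n + 1)
      refine le_trans (div_le_div_of_nonneg_right ?_ (by positivity)) h1
      rw [G.hh0]
      have h3 : (1 : ℝ) ≤ 2 ^ (G.hh (n + 1) - h) := one_le_pow₀ (by norm_num)
      linarith⟩
  set Rv : ℕ → ι → ℕ → Sq k N ι Θ (Ξ × Q) → V k → ℝ := fun n w t ω d =>
    (SL (N := N) (Θ := Θ) (Ξ := Ξ) (Q := Q) σ i hN G.hh n).at' (RL σ i hN G.hh G.hhm G.ep G.th Ψ n w) t ω d with hRv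
  have hbb1 : ∀ n, bb j β n ≤ 1 / 2 := fun n => (bb_le hj0 hβ n).trans hβ2
  have hbbC : ∀ n, bb j β n ^ C1 ≤ bb j β n := fun n =>
    pow_le_of_le_one (bb_pos hj0 hβ n).le ((hbb1 n).trans (by norm_num)) (by omega)
  -- the pieces
  have hY : ∀ n : ℕ, ∀ q ∈ (univ : Finset ι), (PM k N ι Θ Ξ Q).Pr (fun ω => ∃ t ≤ N, β / (4 * j * ((n : ℝ) + 1) ^ 2) ≤
      |iw (Wd (ex N t) (Yn σ (ex N t) ω).1)
        (fun d => ∏ w, pcf rk (fun w => Rv n w t ω d) (fun w => Rv (n + 1) w t ω d) q w) (fun _ => 1)|) ≤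
      Real.exp (-G.HH n) := by
    intro n q _
    have f1 := faces_pf (hm := G.hhm) G.epp G.thp h0 (a0 := β ^ C') (by positivity) hr0 n (hMv n)
      (θ := Real.exp (-G.Lm n)) (acc := bb j β n ^ C1) (by
        refine le_trans ?_ (G.rar n)
        rw [hcard, mul_assoc ((2 : ℝ) ^ (j * G.hh (n + 1)))]
        refine mul_le_mul_of_nonneg_left ?_ (by positivity)
        have h1 := G.thp n
        have h2 := G.thp (n + 1)
        push_cast
        linarith) (by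
        have h1 := G.ep1 n
        have h2 := G.ne1 n
        have h3 := G.ne2 n
        have h4 : accL G.ep (β ^ C') n ≤ 4 * (bb j β n ^ C1 / (128 : ℕ)) := by
          cases n with
          | zero =>
            have := G.acc0
            have h5 : (0 : ℝ) ≤ β ^ C' := by positivity
            show β ^ C' ≤ _
            linarith
          | succ n =>
            have := G.ep2 n
            show 4 * G.ep (n + 1) ≤ _
            linarith
        have h5 : 0 < bb j β n ^ C1 := pow_pos (bb_pos hj0 hβ n) _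
        push_cast at h1 h2 h3 h4
        linarith) q
    have f2 := str_pf (hm := G.hhm) G.epp G.thp G.tha h0 n (hMv n)
      (T := G.HH n * Real.exp ((1 + κ) * G.Lm n)) (by
        have h1 := G.thick n
        have h2 := G.thp (n + 1)
        have h3 : 0 ≤ G.HH n := by linarith [G.HHH n]
        rw [div_eq_mul_inv]
        refine mul_le_mul_of_nonneg_left ?_ h3
        rw [inv_le_comm₀ h2 (Real.exp_pos _), ← Real.exp_neg]
        exact h1) q
    have hKn : (binSys (N := N) Θ Ξ Q σ i hN (G.hh (n + 1))).K ≤ Real.exp (G.HH n) := by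
      have h1 := G.KH n
      show (((Fintype.card ι + 4) * 2 ^ (G.hh (n + 1) + 3) : ℕ) : ℝ) ≤ _
      rw [hcard]
      exact h1
    have hnn : (binSys (N := N) Θ Ξ Q σ i hN (G.hh (n + 1))).near ≤ bb j β n ^ C1 := by
      have h1 := G.ne1 n
      have h5 : 0 < bb j β n ^ C1 := pow_pos (bb_pos hj0 hβ n) _
      refine le_trans (le_trans ?_ h1) (div_le_self h5.le (by norm_num))
      exact le_rfl
    have f3 := hP' ι Θ Q k N σ i δ q hN (G.hh (n + 1)) hcard (bb j β n) (G.HH n) (G.Lm n) (bb_pos hj0 hβ n) (hbb1 n)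
      (G.bH n) hKn hnn (G.LmH n) (G.LmE n) (PF σ i hN G.hh G.hhm G.ep G.th Ψ n q) f1 f2
    refine le_trans (FP.Pr_mono _ fun ω _ => ?_) f3
    rintro ⟨t, ht, h1⟩
    refine ⟨t, ht, ?_⟩
    have h2 : iw (Wd (ex N t) (Yn σ (ex N t) ω).1)
        (fun d => ∏ w, (binSys Θ Ξ Q σ i hN (G.hh (n + 1))).at' (PF σ i hN G.hh G.hhm G.ep G.th Ψ n q w) t ω d)
        (fun _ => 1) = iw (Wd (ex N t) (Yn σ (ex N t) ω).1)
        (fun d => ∏ w, pcf rk (fun w => Rv n w t ω d) (fun w => Rv (n + 1) w t ω d) q w) (fun _ => 1) / 4 ^ j := by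
      unfold iw
      rw [Finset.sum_div]
      refine Finset.sum_congr rfl fun d _ => ?_
      have h3 : ∀ w, (binSys Θ Ξ Q σ i hN (G.hh (n + 1))).at' (PF σ i hN G.hh G.hhm G.ep G.th Ψ n q w) t ω d =
          pcf rk (fun w => Rv n w t ω d) (fun w => Rv (n + 1) w t ω d) q w / 4 := by
        intro w
        have h4 : ∀ v, (fn (N := N) (Θ := Θ) (Ξ := Ξ) (Q := Q) σ i hN G.hh G.hhm n).lift (RL σ i hN G.hh G.hhm G.ep G.th Ψ n v) t
            ((binSys Θ Ξ Q σ i hN (G.hh (n + 1))).gm t ω) (xm i ω) (vm ω) d = Rv n v t ω d := fun v =>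
          congrFun ((fn (N := N) (Θ := Θ) (Ξ := Ξ) (Q := Q) σ i hN G.hh G.hhm n).at'_lift
            (RL σ i hN G.hh G.hhm G.ep G.th Ψ n v) t ω) d
        show pcf rk (fun v => (fn (N := N) (Θ := Θ) (Ξ := Ξ) (Q := Q) σ i hN G.hh G.hhm n).lift
          (RL σ i hN G.hh G.hhm G.ep G.th Ψ n v) t ((binSys Θ Ξ Q σ i hN (G.hh (n + 1))).gm t ω) (xm i ω) (vm ω) d)
          (fun v => Rv (n + 1) v t ω d) q w / 4 = _
        simp only [h4]
      beta_reduce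
      rw [Finset.prod_congr rfl fun w _ => h3 w, Finset.prod_div_distrib, Finset.prod_const, Finset.card_univ, hcard]
      ring
    show bb j β n ≤ |iw (Wd (ex N t) (Yn σ (ex N t) ω).1)
        (fun d => ∏ w, (binSys Θ Ξ Q σ i hN (G.hh (n + 1))).at' (PF σ i hN G.hh G.hhm G.ep G.th Ψ n q w) t ω d)
        (fun _ => 1)|
    rw [h2, abs_div, abs_of_pos (by positivity : (0 : ℝ) < 4 ^ j)]
    have h3 : bb j β n = β / (4 * j * ((n : ℝ) + 1) ^ 2) / 4 ^ j := by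
      unfold bb
      rw [div_div]
    rw [h3]
    exact div_le_div_of_nonneg_right h1 (by positivity)
  -- the last term
  have hZ : ∀ ε : ℝ, 0 < ε → ∃ L, (PM k N ι Θ Ξ Q).Pr (fun ω => ∃ t ≤ N, β / 2 ≤
      |iw (Wd (ex N t) (Yn σ (ex N t) ω).1) (fun d => ∏ w, Rv L w t ω d) (fun _ => 1)|) ≤ ε := by
    intro ε hε
    set α : ℝ := ε / (2 * ((N : ℝ) + 1)) with hα
    have hα0 : 0 < α := by positivity
    obtain ⟨L, hL⟩ := G.lim (α * α) (by positivity)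
    refine ⟨L + 1, ?_⟩
    have a1 := rl_ok (hm := G.hhm) (by linarith : (0 : ℝ) ≤ H) G.epp G.thp h0 (L + 1)
    have a3 := rl_rare (hm := G.hhm) (by linarith : (0 : ℝ) ≤ H) G.epp G.thp h0 hr0 (L + 1) δ
    have hbd : (2 : ℝ) ^ ((univ : Finset ι).card - 1) * accL G.ep (β ^ C') (L + 1) + 2 ^ (univ : Finset ι).card *
        (SL (N := N) (Θ := Θ) (Ξ := Ξ) (Q := Q) σ i hN G.hh (L + 1)).near ≤ β / 2 := by
      have h1 : G.ep (L + 1) ≤ bb j β (L + 1) / 128 := by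
        have := G.ep2 L
        have h2 := hbbC (L + 1)
        push_cast at this
        linarith
      have h2 : (SL (N := N) (Θ := Θ) (Ξ := Ξ) (Q := Q) σ i hN G.hh (L + 1)).near ≤ bb j β (L + 1) / 128 := by
        have h3 := G.ne2 (L + 1)
        have h4 := hbbC (L + 1)
        push_cast at h3
        have h5 : (SL (N := N) (Θ := Θ) (Ξ := Ξ) (Q := Q) σ i hN G.hh (L + 1)).near =
          8 * ((2 : ℝ) ^ G.hh (L + 1))⁻¹ := rfl
        rw [h5]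
        linarith
      have h3 : (2 : ℝ) ^ ((univ : Finset ι).card - 1) ≤ 2 ^ (univ : Finset ι).card :=
        pow_le_pow_right₀ (by norm_num) (Nat.sub_le _ _)
      have h4 : (2 : ℝ) ^ (univ : Finset ι).card * bb j β (L + 1) ≤ β := by
        rw [Finset.card_univ, hcard]
        unfold bb
        rw [mul_div_assoc', div_le_iff₀ (by positivity)]
        have h5 : (2 : ℝ) ^ j ≤ 4 ^ j := pow_le_pow_left₀ (by norm_num) (by norm_num) j
        have h6 : (1 : ℝ) ≤ 4 * j * (((L + 1 : ℕ) : ℝ) + 1) ^ 2 := by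
          have h7 : (1 : ℝ) ≤ (((L + 1 : ℕ) : ℝ) + 1) ^ 2 := by
            have := Nat.cast_nonneg (α := ℝ) (L + 1)
            nlinarith
          nlinarith
        have h7 : (0 : ℝ) < 4 ^ j := by positivity
        have h8 : (4 : ℝ) ^ j ≤ 4 * j * (((L + 1 : ℕ) : ℝ) + 1) ^ 2 * 4 ^ j := le_mul_of_one_le_left h7.le h6
        calc (2 : ℝ) ^ j * β ≤ 4 ^ j * β := mul_le_mul_of_nonneg_right h5 hβ.le
          _ ≤ (4 * j * (((L + 1 : ℕ) : ℝ) + 1) ^ 2 * 4 ^ j) * β := mul_le_mul_of_nonneg_right h8 hβ.le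
          _ = _ := by ring
      have h5 : (0 : ℝ) ≤ (2 : ℝ) ^ (univ : Finset ι).card := by positivity
      have h6 : (0 : ℝ) ≤ (2 : ℝ) ^ ((univ : Finset ι).card - 1) := by positivity
      have h7 := bb_pos hj0 hβ (L + 1)
      have h8 := G.epp (L + 1)
      show (2 : ℝ) ^ ((univ : Finset ι).card - 1) * (4 * G.ep (L + 1)) + _ ≤ _
      have h9 : (2 : ℝ) ^ ((univ : Finset ι).card - 1) * (4 * G.ep (L + 1)) ≤
          2 ^ (univ : Finset ι).card * (4 * (bb j β (L + 1) / 128)) :=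
        mul_le_mul h3 (by linarith) (by positivity) h5
      have h10 := mul_le_mul_of_nonneg_left h2 h5
      have h11 : (2 : ℝ) ^ (univ : Finset ι).card * (4 * (bb j β (L + 1) / 128)) +
          2 ^ (univ : Finset ι).card * (bb j β (L + 1) / 128) =
          5 / 128 * ((2 : ℝ) ^ (univ : Finset ι).card * bb j β (L + 1)) := by ring
      linarith
    have h1 := (SL (N := N) (Θ := Θ) (Ξ := Ξ) (Q := Q) σ i hN G.hh (L + 1)).pr_last (mem_univ δ)
      (RL σ i hN G.hh G.hhm G.ep G.th Ψ (L + 1)) (G.thp (L + 1)).le a3 (fun w _ => a1.dep w)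
      (fun w _ hw => a1.coin w hw) (zero_lt_two) (fun w _ => a1.bd w) hbd hα0
    refine h1.trans ?_
    have h2 : (SL (N := N) (Θ := Θ) (Ξ := Ξ) (Q := Q) σ i hN G.hh (L + 1)).K * (G.th (L + 1) / α) ≤ α := by
      rw [← mul_div_assoc, div_le_iff₀ hα0]
      refine le_trans (le_of_eq ?_) hL
      show (((Fintype.card ι + 4) * 2 ^ (G.hh (L + 1) + 3) : ℕ) : ℝ) * G.th (L + 1) = _
      rw [hcard]
    have h3 : ((SL (N := N) (Θ := Θ) (Ξ := Ξ) (Q := Q) σ i hN G.hh (L + 1)).n : ℝ) = N := rfl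
    rw [h3]
    have h4 : ((N : ℝ) + 1) * (α + α) = ε := by
      rw [hα]
      field_simp
      ring
    rw [← h4]
    exact mul_le_mul_of_nonneg_left (by linarith) (by positivity)
  -- the sum
  have h1 := sum_le (PM k N ι Θ Ξ Q) N (univ : Finset ι)
    (fun t ω => iw (Wd (ex N t) (Yn σ (ex N t) ω).1) (fun d => ∏ w, Rv 0 w t ω d) (fun _ => 1))
    (fun n q t ω => iw (Wd (ex N t) (Yn σ (ex N t) ω).1)
        (fun d => ∏ w, pcf rk (fun w => Rv n w t ω d) (fun w => Rv (n + 1) w t ω d) q w) (fun _ => 1))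
    (fun L t ω => iw (Wd (ex N t) (Yn σ (ex N t) ω).1) (fun d => ∏ w, Rv L w t ω d) (fun _ => 1))
    (fun n => β / (4 * j * ((n : ℝ) + 1) ^ 2)) (fun n => Real.exp (-G.HH n)) β (β / 2) (Real.exp (-H))
    (fun L t _ ω => tele rk_inj _ univ (fun n w => Rv n w t ω) L) hY hZ
    (fun L => sum_thr hj0 (by rw [Finset.card_univ, hcard]) hβ.le L) (fun L => by
      have h2 := G.sum L
      rw [Finset.card_univ, hcard]
      linarith [Real.exp_pos (-H)])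
  refine le_trans (le_of_eq ?_) h1
  refine FP.Pr_congr _ fun ω _ => ?_
  refine exists_congr fun t => and_congr_right fun _ => ?_
  have h2 : ∀ w, (binSys Θ Ξ Q σ i hN h).at' (Ψ w) t ω = Rv 0 w t ω := by
    intro w
    have e : SL (N := N) (Θ := Θ) (Ξ := Ξ) (Q := Q) σ i hN G.hh 0 = binSys Θ Ξ Q σ i hN h := by
      show binSys Θ Ξ Q σ i hN (G.hh 0) = _
      rw [G.hh0]
    simp only [hRv]
    rw [e]
    rfl
  simp only [h2]
  rfl

/-- **GS.2 (1)**: the contract of one piece gives (SMI_j) -/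
theorem smiBin_of_piece {j : ℕ} (hj : 2 ≤ j) {κ : ℝ} (hκ : 0 < κ) {C : ℕ} (hP : PieceBin j κ C) :
    ∃ C' : ℕ, 1 ≤ C' ∧ GMN.SMIbin j C' := by
  obtain ⟨C', h1, h2⟩ := atAll_of_piece j hj hκ C
  exact ⟨C', h1, fun ι Θ Ξ Q _ _ _ _ _ _ _ _ => h2 Ξ (fun ι Θ Q _ _ _ _ _ _ => hP ι Θ Ξ Q) ι Θ Q⟩

/-- (SMI_j) for all binary models with `j` vertices, no coins -/
def SMIbin0 (j C : ℕ) : Prop :=
  ∀ (ι Θ Q : Type) [Fintype ι] [DecidableEq ι] [Fintype Θ] [Nonempty Θ] [Fintype Q]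
    [Nonempty Q] (k N : ℕ) (σ : Bin.V k) (i δ : ι) (hN : N ≤ k) (h : ℕ), Fintype.card ι = j →
    GMN.AtAll (binSys Θ Unit Q σ i hN h) univ δ C

theorem smiBin0_of_smiBin {j C : ℕ} (h : GMN.SMIbin j C) : SMIbin0 j C :=
  fun ι Θ Q _ _ _ _ _ _ => h ι Θ Unit Q

/-- **GS.2 (1)** without coins -/
theorem smiBin0_of_piece0 {j : ℕ} (hj : 2 ≤ j) {κ : ℝ} (hκ : 0 < κ) {C : ℕ} (hP : PieceBin0 j κ C) :
    ∃ C' : ℕ, 1 ≤ C' ∧ SMIbin0 j C' := by
  obtain ⟨C', h1, h2⟩ := atAll_of_piece j hj hκ C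
  exact ⟨C', h1, fun ι Θ Q _ _ _ _ _ _ => h2 Unit (fun ι Θ Q _ _ _ _ _ _ => hP ι Θ Q) ι Θ Q⟩

end

end Pool.Agent.GM.GS
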