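import Pool.Agent.GM.Sys

/-!
# GM/GSsum (row GS.2 (1)): the sum over the layers `n >= 0` (helper17)

Everything is on ONE sample space; `a i d`, `b i d` = values (at a sample point, at a time) of the face `i` of the
layers `n`, `n + 1`.

* `pcf a b q i` : value of the face `i` of the piece `q`: layer `n + 1` for `i < q`, the difference for `i = q`,
  layer `n` for `q < i`;  `prod_pcf`, `iw_pcf` : one layer;  `tele` : all layers `n < L` and the last term;
* `sum_le` : union bound: the process `X` reaches `r` with probability at most the sum of the bounds of the pieces;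
* `exp_growth`, `sum_exp_one`, `sum_thr`, `out_eq` : numbers: `∑ n, B exp (- A (1 + κ) ^ n / (n + 1) ^ D) <= K exp (- c A)`
  for `A >= 1`, thresholds `r / (4 j (n + 1) ^ 2)`;
* `sum_layers` : everything together;  `sum_moving` : for the values `Rv n i t w` of the residuals of moving faces.
-/

set_option autoImplicit false
set_option linter.unusedSectionVars false

namespace Pool.Agent.GM

open Finset Pool.Agent.PWZ Pool.Agent.M3 Pool.Agent.M3.TS

noncomputable section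

namespace GS

/-! ### telescoping -/

section tele

variable {ι V : Type} [DecidableEq ι] [Fintype V] (rk : ι → ℕ)

/-- value of the face `i` of the piece `q`; `a` = values of the layer `n`, `b` = values of the layer `n + 1` -/
def pcf (a b : ι → ℝ) (q i : ι) : ℝ := if rk i < rk q then b i else if i = q then a i - b i else a i

theorem pcf_lt {a b : ι → ℝ} {q i : ι} (h : rk i < rk q) : pcf rk a b q i = b i := if_pos h

theorem pcf_self (a b : ι → ℝ) (q : ι) : pcf rk a b q q = a q - b q := by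
  unfold pcf
  rw [if_neg (lt_irrefl _), if_pos rfl]

theorem pcf_gt {a b : ι → ℝ} {q i : ι} (h : rk q < rk i) : pcf rk a b q i = a i := by
  unfold pcf
  rw [if_neg h.le.not_gt, if_neg fun h1 => h.ne' (by rw [h1])]

theorem abs_pcf {a b : ι → ℝ} {H : ℝ} {q i : ι} (ha : |a i| ≤ H) (hb : |b i| ≤ H) (hab : |a i - b i| ≤ H) :
    |pcf rk a b q i| ≤ H := by
  unfold pcf
  split_ifs
  · exact hb
  · exact hab
  · exact ha

variable {rk}

/-- one layer, pointwise -/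
theorem prod_pcf (hrk : Function.Injective rk) (s : Finset ι) (a b : ι → ℝ) :
    ∏ i ∈ s, a i = ∑ q ∈ s, ∏ i ∈ s, pcf rk a b q i + ∏ i ∈ s, b i := by
  induction s using Finset.induction_on_max_value rk with
  | empty => simp
  | insert q0 s hq hmax ih =>
    have hlt : ∀ x ∈ s, rk x < rk q0 := fun x hx =>
      lt_of_le_of_ne (hmax x hx) fun h => hq (hrk h ▸ hx)
    rw [Finset.prod_insert hq, Finset.prod_insert hq, Finset.sum_insert hq]
    have h1 : ∏ i ∈ insert q0 s, pcf rk a b q0 i = (a q0 - b q0) * ∏ i ∈ s, b i := by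
      rw [Finset.prod_insert hq, pcf_self]
      congr 1
      exact Finset.prod_congr rfl fun i hi => pcf_lt rk (hlt i hi)
    have h2 : ∑ q ∈ s, ∏ i ∈ insert q0 s, pcf rk a b q i = a q0 * ∑ q ∈ s, ∏ i ∈ s, pcf rk a b q i := by
      rw [Finset.mul_sum]
      refine Finset.sum_congr rfl fun q hq' => ?_
      rw [Finset.prod_insert hq, pcf_gt rk (hlt q hq')]
    rw [h1, h2, ih]
    ring

/-- one layer, averaged -/
theorem iw_pcf (hrk : Function.Injective rk) (ρ : V → ℝ) (s : Finset ι) (a b : ι → V → ℝ) :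
    iw ρ (fun d => ∏ i ∈ s, a i d) (fun _ => 1) =
      ∑ q ∈ s, iw ρ (fun d => ∏ i ∈ s, pcf rk (fun i => a i d) (fun i => b i d) q i) (fun _ => 1) +
        iw ρ (fun d => ∏ i ∈ s, b i d) (fun _ => 1) := by
  unfold iw
  rw [Finset.sum_comm, ← Finset.sum_add_distrib]
  refine Finset.sum_congr rfl fun d _ => ?_
  rw [← Finset.sum_mul, ← Finset.mul_sum, ← add_mul, ← mul_add, ← prod_pcf hrk]

/-- all layers `n < L` and the last term -/
theorem tele (hrk : Function.Injective rk) (ρ : V → ℝ) (s : Finset ι) (R : ℕ → ι → V → ℝ) (L : ℕ) :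
    iw ρ (fun d => ∏ i ∈ s, R 0 i d) (fun _ => 1) =
      (∑ n ∈ range L, ∑ q ∈ s,
        iw ρ (fun d => ∏ i ∈ s, pcf rk (fun i => R n i d) (fun i => R (n + 1) i d) q i) (fun _ => 1)) +
        iw ρ (fun d => ∏ i ∈ s, R L i d) (fun _ => 1) := by
  induction L with
  | zero => simp
  | succ L ih =>
    rw [ih, Finset.sum_range_succ, iw_pcf hrk ρ s (R L) (R (L + 1))]
    ring

end tele

/-! ### the union bound -/

section union

variable {ι Om : Type} [Fintype Om] (P : FP Om)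

/-- the process `X` reaches `r` with probability at most the sum of the bounds of the pieces -/
theorem sum_le (T : ℕ) (s : Finset ι) (X : ℕ → Om → ℝ) (Y : ℕ → ι → ℕ → Om → ℝ) (Z : ℕ → ℕ → Om → ℝ)
    (rn out : ℕ → ℝ) (r rl o : ℝ)
    (htel : ∀ L, ∀ t ≤ T, ∀ w, X t w = (∑ n ∈ range L, ∑ q ∈ s, Y n q t w) + Z L t w)
    (hY : ∀ n, ∀ q ∈ s, P.Pr (fun w => ∃ t ≤ T, rn n ≤ |Y n q t w|) ≤ out n)
    (hZ : ∀ ε : ℝ, 0 < ε → ∃ L, P.Pr (fun w => ∃ t ≤ T, rl ≤ |Z L t w|) ≤ ε)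
    (hr : ∀ L, (∑ n ∈ range L, (s.card : ℝ) * rn n) + rl ≤ r)
    (hout : ∀ L, (∑ n ∈ range L, (s.card : ℝ) * out n) ≤ o) :
    P.Pr (fun w => ∃ t ≤ T, r ≤ |X t w|) ≤ o := by
  refine le_of_forall_pos_le_add fun ε hε => ?_
  obtain ⟨L, hL⟩ := hZ ε hε
  have h1 : P.Pr (fun w => ∃ t ≤ T, r ≤ |X t w|) ≤
      P.Pr (fun w => (∃ n ∈ range L, ∃ q ∈ s, ∃ t ≤ T, rn n ≤ |Y n q t w|) ∨ ∃ t ≤ T, rl ≤ |Z L t w|) := by
    refine P.Pr_mono fun w _ hw => ?_
    obtain ⟨t, ht, hX⟩ := hw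
    by_contra hcon
    push Not at hcon
    obtain ⟨hc1, hc2⟩ := hcon
    have h2 : |∑ n ∈ range L, ∑ q ∈ s, Y n q t w| ≤ ∑ n ∈ range L, (s.card : ℝ) * rn n := by
      refine (Finset.abs_sum_le_sum_abs _ _).trans (Finset.sum_le_sum fun n hn => ?_)
      refine (Finset.abs_sum_le_sum_abs _ _).trans ?_
      rw [← nsmul_eq_mul]
      refine Finset.sum_le_card_nsmul _ _ _ fun q hq => (hc1 n hn q hq t ht).le
    have h3 := hc2 t ht
    have h4 := abs_add_le (∑ n ∈ range L, ∑ q ∈ s, Y n q t w) (Z L t w)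
    rw [← htel L t ht w] at h4
    have h5 := hr L
    linarith
  refine h1.trans ((P.Pr_or_le _ _).trans (add_le_add ?_ hL))
  refine ((P.Pr_ex_le (range L) _).trans (Finset.sum_le_sum fun n hn => ?_)).trans (hout L)
  refine (P.Pr_ex_le s _).trans ?_
  rw [← nsmul_eq_mul]
  exact Finset.sum_le_card_nsmul _ _ _ fun q hq => hY n q hq

end union

/-! ### numbers -/

section numbers

open Filter Topology in
/-- exponential growth beats powers -/
theorem exp_growth {κ : ℝ} (hκ : 0 < κ) (D : ℕ) :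
    ∃ c : ℝ, 0 < c ∧ ∀ n : ℕ, c * (n + 1) ≤ (1 + κ) ^ n / ((n : ℝ) + 1) ^ D := by
  have h0 : (1 : ℝ) < 1 + κ := by linarith
  have h1 := tendsto_pow_const_div_const_pow_of_one_lt (D + 1) h0
  obtain ⟨M, hM⟩ := h1.bddAbove_range
  have hM' : ∀ n : ℕ, (n : ℝ) ^ (D + 1) / (1 + κ) ^ n ≤ M := fun n => hM ⟨n, rfl⟩
  have hM0 : 0 < M := by
    refine lt_of_lt_of_le ?_ (hM' 1)
    positivity
  refine ⟨1 / ((1 + κ) * M), by positivity, fun n => ?_⟩
  have h2 := hM' (n + 1)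
  push_cast at h2
  have hp : (0 : ℝ) < (1 + κ) ^ n := by positivity
  have hq : (0 : ℝ) < ((n : ℝ) + 1) ^ D := by positivity
  rw [div_le_iff₀ (by positivity)] at h2
  rw [le_div_iff₀ hq, div_mul_eq_mul_div, div_mul_eq_mul_div, div_le_iff₀ (by positivity)]
  calc 1 * ((n : ℝ) + 1) * ((n : ℝ) + 1) ^ D = ((n : ℝ) + 1) ^ (D + 1) := by ring
    _ ≤ M * (1 + κ) ^ (n + 1) := h2
    _ = (1 + κ) ^ n * ((1 + κ) * M) := by ring

/-- the sum of the bounds of the layers -/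
theorem sum_exp_one {κ : ℝ} (hκ : 0 < κ) (D : ℕ) {B : ℝ} (hB : 0 ≤ B) :
    ∃ K c : ℝ, 0 < c ∧ 0 < K ∧ ∀ A : ℝ, 1 ≤ A → ∀ L : ℕ,
      ∑ n ∈ range L, B * Real.exp (-(A * ((1 + κ) ^ n / ((n : ℝ) + 1) ^ D))) ≤ K * Real.exp (-(c * A)) := by
  obtain ⟨c, hc, hcn⟩ := exp_growth hκ D
  have h1 : Real.exp (-c) < 1 := by
    rw [Real.exp_lt_one_iff]
    linarith
  have h1' : 0 < 1 - Real.exp (-c) := by linarith
  refine ⟨(B + 1) / (1 - Real.exp (-c)), c, hc, by positivity, fun A hA L => ?_⟩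
  have hA0 : 0 < A := by linarith
  have h2 : ∀ n ∈ range L, B * Real.exp (-(A * ((1 + κ) ^ n / ((n : ℝ) + 1) ^ D))) ≤
      B * (Real.exp (-(c * A)) * Real.exp (-c) ^ n) := by
    intro n _
    refine mul_le_mul_of_nonneg_left ?_ hB
    rw [← Real.exp_nat_mul, ← Real.exp_add, Real.exp_le_exp]
    have h3 := mul_le_mul_of_nonneg_left (hcn n) hA0.le
    have h4 : 0 ≤ (n : ℝ) * c * (A - 1) := by
      have := Nat.cast_nonneg (α := ℝ) n
      have : 0 ≤ A - 1 := by linarith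
      positivity
    nlinarith
  refine (Finset.sum_le_sum h2).trans ?_
  rw [← Finset.mul_sum, ← Finset.mul_sum]
  have h5 : ∑ n ∈ range L, Real.exp (-c) ^ n ≤ 1 / (1 - Real.exp (-c)) := by
    have h6 := (summable_geometric_of_lt_one (Real.exp_pos _).le h1).sum_le_tsum (range L)
      (fun n _ => pow_nonneg (Real.exp_pos _).le n)
    rw [tsum_geometric_of_lt_one (Real.exp_pos _).le h1] at h6
    rw [one_div]
    exact h6
  have h7 : 0 ≤ Real.exp (-(c * A)) := (Real.exp_pos _).le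
  calc B * (Real.exp (-(c * A)) * ∑ n ∈ range L, Real.exp (-c) ^ n)
      ≤ B * (Real.exp (-(c * A)) * (1 / (1 - Real.exp (-c)))) :=
        mul_le_mul_of_nonneg_left (mul_le_mul_of_nonneg_left h5 h7) hB
    _ ≤ (B + 1) * (Real.exp (-(c * A)) * (1 / (1 - Real.exp (-c)))) :=
        mul_le_mul_of_nonneg_right (by linarith) (by positivity)
    _ = (B + 1) / (1 - Real.exp (-c)) * Real.exp (-(c * A)) := by ring

/-- the thresholds `r_n = r / (C (n + 1) ^ 2)` sum up -/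
theorem sum_inv_sq (L : ℕ) : ∑ n ∈ range L, (1 : ℝ) / ((n : ℝ) + 1) ^ 2 ≤ 2 := by
  have h : ∀ L : ℕ, ∑ n ∈ range (L + 1), (1 : ℝ) / ((n : ℝ) + 1) ^ 2 ≤ 2 - 1 / ((L : ℝ) + 1) := by
    intro L
    induction L with
    | zero => norm_num
    | succ L ih =>
      rw [Finset.sum_range_succ]
      push_cast
      have hL : (0 : ℝ) ≤ L := Nat.cast_nonneg L
      have h1 : (1 : ℝ) / ((L : ℝ) + 1 + 1) ^ 2 ≤ 1 / ((L : ℝ) + 1) - 1 / ((L : ℝ) + 1 + 1) := by
        rw [div_sub_div _ _ (by positivity) (by positivity), div_le_div_iff₀ (by positivity) (by positivity)]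
        nlinarith
      linarith
  rcases Nat.eq_zero_or_pos L with h0 | h0
  · rw [h0]
    norm_num
  · obtain ⟨M, rfl⟩ := Nat.exists_eq_add_of_le h0
    have h1 := h M
    rw [add_comm M 1] at h1
    have h2 : (0 : ℝ) ≤ 1 / ((M : ℝ) + 1) := by positivity
    linarith

/-- the sum of the thresholds of all pieces and of the last term -/
theorem sum_thr {j : ℕ} (hj : 0 < j) {m : ℕ} (hm : m ≤ j) {r : ℝ} (hr : 0 ≤ r) (L : ℕ) :
    (∑ n ∈ range L, (m : ℝ) * (r / (4 * j * ((n : ℝ) + 1) ^ 2))) + r / 2 ≤ r := by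
  have hj' : (0 : ℝ) < j := by exact_mod_cast hj
  have hm' : (m : ℝ) ≤ j := by exact_mod_cast hm
  have h1 : ∀ n ∈ range L, (m : ℝ) * (r / (4 * j * ((n : ℝ) + 1) ^ 2)) ≤ r / 4 * (1 / ((n : ℝ) + 1) ^ 2) := by
    intro n _
    have h2 : (m : ℝ) * (r / (4 * j * ((n : ℝ) + 1) ^ 2)) ≤ j * (r / (4 * j * ((n : ℝ) + 1) ^ 2)) :=
      mul_le_mul_of_nonneg_right hm' (by positivity)
    refine h2.trans (le_of_eq ?_)
    field_simp
  have h3 := (Finset.sum_le_sum h1).trans_eq (Finset.mul_sum _ _ _).symm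
  have h4 := mul_le_mul_of_nonneg_left (sum_inv_sq L) (by positivity : 0 ≤ r / 4)
  linarith

/-- the bound of a piece of the layer `n` in the form of `sum_exp_one` -/
theorem out_eq (κ Λ c0 r m0 C1 : ℝ) (C n : ℕ) :
    c0 * (r / (C1 * ((n : ℝ) + 1) ^ 2) / m0) ^ C * (Λ * (1 + κ) ^ n) =
      (Λ * (c0 * (r / (C1 * m0)) ^ C)) * ((1 + κ) ^ n / ((n : ℝ) + 1) ^ (2 * C)) := by
  have h1 : r / (C1 * ((n : ℝ) + 1) ^ 2) / m0 = r / (C1 * m0) * (1 / ((n : ℝ) + 1) ^ 2) := by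
    rw [div_div, div_mul_div_comm, mul_one]
    congr 1
    ring
  rw [h1, mul_pow, div_pow (1 : ℝ), one_pow, ← pow_mul]
  ring

end numbers

/-- **the sum over the layers**: `K`, `c` depend on `κ`, `D`, `j`, `B` only -/
theorem sum_layers {κ : ℝ} (hκ : 0 < κ) (D j : ℕ) (hj : 0 < j) {B : ℝ} (hB : 0 ≤ B) :
    ∃ K c : ℝ, 0 < c ∧ 0 < K ∧ ∀ (Om ι : Type) [Fintype Om] (P : FP Om) (T : ℕ) (s : Finset ι), s.card ≤ j →
      ∀ (X : ℕ → Om → ℝ) (Y : ℕ → ι → ℕ → Om → ℝ) (Z : ℕ → ℕ → Om → ℝ) (r A : ℝ), 0 ≤ r → 0 ≤ A →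
      (∀ L, ∀ t ≤ T, ∀ w, X t w = (∑ n ∈ range L, ∑ q ∈ s, Y n q t w) + Z L t w) →
      (∀ n : ℕ, ∀ q ∈ s, P.Pr (fun w => ∃ t ≤ T, r / (4 * j * ((n : ℝ) + 1) ^ 2) ≤ |Y n q t w|) ≤
        B * Real.exp (-(A * ((1 + κ) ^ n / ((n : ℝ) + 1) ^ D)))) →
      (∀ ε : ℝ, 0 < ε → ∃ L, P.Pr (fun w => ∃ t ≤ T, r / 2 ≤ |Z L t w|) ≤ ε) →
      P.Pr (fun w => ∃ t ≤ T, r ≤ |X t w|) ≤ K * Real.exp (-(c * A)) := by
  have hj' : (0 : ℝ) ≤ j := Nat.cast_nonneg j
  obtain ⟨K, c, hc, hK, h⟩ := sum_exp_one hκ D (mul_nonneg hj' hB)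
  refine ⟨max K (Real.exp c), c, hc, lt_of_lt_of_le hK (le_max_left _ _), ?_⟩
  intro Om ι _ P T s hs X Y Z r A hr hA htel hY hZ
  rcases le_or_gt 1 A with h1 | h1
  · refine (sum_le P T s X Y Z (fun n => r / (4 * j * ((n : ℝ) + 1) ^ 2))
      (fun n => B * Real.exp (-(A * ((1 + κ) ^ n / ((n : ℝ) + 1) ^ D)))) r (r / 2)
      (K * Real.exp (-(c * A))) htel hY hZ (fun L => sum_thr hj hs hr L) fun L => ?_).trans
      (mul_le_mul_of_nonneg_right (le_max_left _ _) (Real.exp_pos _).le)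
    refine le_trans (Finset.sum_le_sum fun n _ => ?_) (h A h1 L)
    rw [mul_assoc]
    refine mul_le_mul_of_nonneg_right (by exact_mod_cast hs) (mul_nonneg hB (Real.exp_pos _).le)
  · refine (P.Pr_le_one _).trans ?_
    have h2 : (1 : ℝ) ≤ Real.exp c * Real.exp (-(c * A)) := by
      rw [← Real.exp_add]
      refine Real.one_le_exp ?_
      nlinarith
    exact h2.trans (mul_le_mul_of_nonneg_right (le_max_right _ _) (Real.exp_pos _).le)


/-- **the sum over the layers for moving faces**: `Rv n i t w` = value of the residual of the layer `n` of the face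
`i` at the sample point `w` and the time `t` (every layer may have its own rounding), `Rv 0` = the face itself -/
theorem sum_moving {κ : ℝ} (hκ : 0 < κ) (D j : ℕ) (hj : 0 < j) {B : ℝ} (hB : 0 ≤ B) :
    ∃ K c : ℝ, 0 < c ∧ 0 < K ∧ ∀ (Om ι V : Type) [Fintype Om] [DecidableEq ι] [Fintype V] (P : FP Om) (T : ℕ)
      (rk : ι → ℕ), Function.Injective rk → ∀ s : Finset ι, s.card ≤ j →
      ∀ (J : ℕ → Om → V → ℝ) (Rv : ℕ → ι → ℕ → Om → V → ℝ) (r A : ℝ), 0 ≤ r → 0 ≤ A →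
      (∀ n : ℕ, ∀ q ∈ s, P.Pr (fun w => ∃ t ≤ T, r / (4 * j * ((n : ℝ) + 1) ^ 2) ≤
          |iw (J t w) (fun d => ∏ i ∈ s, pcf rk (fun i => Rv n i t w d) (fun i => Rv (n + 1) i t w d) q i)
            (fun _ => 1)|) ≤ B * Real.exp (-(A * ((1 + κ) ^ n / ((n : ℝ) + 1) ^ D)))) →
      (∀ ε : ℝ, 0 < ε → ∃ L, P.Pr (fun w => ∃ t ≤ T, r / 2 ≤
          |iw (J t w) (fun d => ∏ i ∈ s, Rv L i t w d) (fun _ => 1)|) ≤ ε) →
      P.Pr (fun w => ∃ t ≤ T, r ≤ |iw (J t w) (fun d => ∏ i ∈ s, Rv 0 i t w d) (fun _ => 1)|) ≤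
        K * Real.exp (-(c * A)) := by
  obtain ⟨K, c, hc, hK, h⟩ := sum_layers hκ D j hj hB
  refine ⟨K, c, hc, hK, ?_⟩
  intro Om ι V _ _ _ P T rk hrk s hs J Rv r A hr hA hY hZ
  exact h Om ι P T s hs (fun t w => iw (J t w) (fun d => ∏ i ∈ s, Rv 0 i t w d) (fun _ => 1))
    (fun n q t w => iw (J t w)
      (fun d => ∏ i ∈ s, pcf rk (fun i => Rv n i t w d) (fun i => Rv (n + 1) i t w d) q i) (fun _ => 1))
    (fun L t w => iw (J t w) (fun d => ∏ i ∈ s, Rv L i t w d) (fun _ => 1)) r A hr hA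
    (fun L t _ w => tele hrk (J t w) s (fun n i => Rv n i t w) L) hY hZ

end GS

end

end Pool.Agent.GM
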