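import Pool.Agent.GM.Piece
import Pool.Agent.GM.ColdSet
import Pool.Agent.GM.End

/-!
# GM/H5of : section 5 for every number of vertices from the named views and the cold sets (port of M3/H5of, helper34)

* `NVLay m L o` : CONTRACT OF THE NAMED VIEWS: for every `C0`, `Cp`, in the late layers `n`, for every structured face `q`
  there is a hidden vertex `a ≠ q` and a named view of the piece with its known face `a` cut after `n^Cp` changes, with the
  sizes: errors `exp (-n^C0)`, budgets `exp (n^C)`;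
* `h5_of` : `NVLay`, `ColdSet` for all `1 ≤ c ≤ m - 1`, `ColdAll` give `H5G`;
* `sec5_of`, `sec5_four` : `Sec5 n`; for four vertices the inputs are `NVLay 4 L` and `ColdLay 4 L c1`.
-/

set_option autoImplicit false
set_option linter.unusedSectionVars false

namespace Pool.Agent.GM

open Finset Filter Pool.Agent.PWZ Pool.Agent.M3 Pool.Agent.M3.Bin

noncomputable section

/-- CONTRACT OF THE NAMED VIEWS OF THE PIECES -/
def NVLay (m : ℕ) [Nontrivial (Fin m)] (L : LayE) (o : ∀ k, V k) : Prop :=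
  ∀ C0 Cp : ℕ, ∃ C n0 : ℕ, ∀ n ≥ n0, ∀ k N : ℕ, N ≤ k → ∀ F : Fin m → (Fin m → Unit × V k) → V k → ℝ, Faces F →
    ∀ q : Fin m, ∃ a : Fin m, a ≠ q ∧ ∃ h : ℕ, L.lh (n + 1) ≤ h ∧ (h : ℝ) ≤ (n : ℝ) ^ C ∧
    ∃ (Θ P : Type) (_ : Fintype Θ) (_ : Nonempty Θ) (_ : Fintype P) (_ : Nonempty P)
      (zr : ℕ → Sq k N (Fin m) Θ P → Prop)
      (W : NV (Pm : FP (Sq k N (Fin m) Θ P)) N (UU a) (fun U t => Zk U (Mod.ex N (t + 1) - (h + 3)))
        (fun t => Kn a (Mod.ex N t)) (TZ (o k) h (Rcl P (Pc N L F n q) a (L.lh (n + 1)) N (n ^ Cp)))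
        (chE (o k) h (Rcl P (Pc N L F n q) a (L.lh (n + 1)) N (n ^ Cp) a)) zr),
      W.q ≤ Real.exp (-(n : ℝ) ^ C0) ∧ W.e3 ≤ Real.exp (-(n : ℝ) ^ C0) ∧
      W.eta ≤ ((n : ℝ) + 1)⁻¹ ^ 3 ∧ W.rmin ≤ ((n : ℝ) + 1)⁻¹ ^ 3 ∧ W.NB ≤ (n : ℝ) ^ C ∧
      (∀ U ∈ UU a, W.hb U ≤ Real.exp ((n : ℝ) ^ C)) ∧ W.J ≤ Real.exp ((n : ℝ) ^ C)

theorem card_UU {m : ℕ} {a : Fin m} {U : Finset (Fin m)} (hU : U ∈ UU a) : 1 ≤ U.card ∧ U.card ≤ m - 1 := by
  rw [mem_UU] at hU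
  refine ⟨Finset.card_pos.mpr ⟨a, hU.1⟩, ?_⟩
  have h1 : U.card < m := by
    have h2 : U.card < (univ : Finset (Fin m)).card :=
      Finset.card_lt_card ⟨Finset.subset_univ _, fun h => hU.2 (Finset.univ_subset_iff.mp h)⟩
    rwa [Finset.card_univ, Fintype.card_fin] at h2
  omega

theorem single_mem_UU {m : ℕ} [Nontrivial (Fin m)] (a : Fin m) : ({a} : Finset (Fin m)) ∈ UU a := by
  rw [mem_UU]
  refine ⟨Finset.mem_singleton_self a, fun h => ?_⟩
  obtain ⟨b, hb⟩ := exists_ne a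
  have : b ∈ ({a} : Finset (Fin m)) := by rw [h]; exact Finset.mem_univ b
  exact hb (Finset.mem_singleton.mp this)

namespace H5

/-- the sizes: everything is at most `E` -/
theorem num {r pc ph q e3 σ0 e0 Sh Se JS NB E q2 K : ℝ}
    (hpc : pc ≤ E) (hph : ph ≤ E) (hq : q ≤ E) (he3 : e3 ≤ E) (hσ0 : σ0 ≤ E) (he0 : e0 ≤ E) (hSh : Sh ≤ E)
    (hSe : Se ≤ E) (hJS : JS ≤ E) (hq2 : q2 = (q + (Se + (ph + pc))) + q + JS)
    (hK : 2 * NB / (4 * r ^ 2) ≤ K) (hK0 : 0 ≤ 2 * NB / (4 * r ^ 2)) (hE : 0 ≤ E) :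
    pc + (2 * NB / (4 * r ^ 2) * ((pc + (σ0 + e0)) + e3 + Sh + q2) + 3 * q2) ≤ (19 + 11 * K) * E := by
  have h1 : q2 ≤ 6 * E := by rw [hq2]; linarith
  have h2 : (pc + (σ0 + e0)) + e3 + Sh + q2 ≤ 11 * E := by linarith
  have h3 : 2 * NB / (4 * r ^ 2) * ((pc + (σ0 + e0)) + e3 + Sh + q2) ≤ K * (11 * E) :=
    (mul_le_mul_of_nonneg_left h2 hK0).trans (mul_le_mul_of_nonneg_right hK (by linarith))
  linarith

theorem ev_fin (A : ℝ) (a : ℕ) : ∀ᶠ n : ℕ in atTop, A * (n : ℝ) ^ a * Real.exp (-(n : ℝ) ^ 2) ≤ Real.exp (-(n : ℝ)) := by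
  filter_upwards [Par.ev_pow_pow_le (C := 1) (D := 2) (by norm_num) 1 (k := 1 / 2) (by norm_num),
    Par.ev_mono_le_LL (C := 2) (by norm_num) a A (k := 1 / 2) (by norm_num)] with n h1 h2
  rw [pow_one, one_mul] at h1
  calc A * (n : ℝ) ^ a * Real.exp (-(n : ℝ) ^ 2) ≤ Real.exp (1 / 2 * (n : ℝ) ^ 2) * Real.exp (-(n : ℝ) ^ 2) :=
        mul_le_mul_of_nonneg_right h2 (Real.exp_pos _).le
    _ = Real.exp (1 / 2 * (n : ℝ) ^ 2 + -(n : ℝ) ^ 2) := by rw [Real.exp_add]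
    _ ≤ _ := Real.exp_le_exp.mpr (by linarith)

end H5

/-- SECTION 5: no piece of a late layer is large -/
theorem h5_of (m : ℕ) [Nontrivial (Fin m)] (L : LayE) {c0 : ℝ} (hc0 : 0 < c0) (hNV : NVLay m L (fun _ => 0))
    (hS : ∀ c, 1 ≤ c → c ≤ m - 1 → ColdSet m L (fun l => c0 / ((l : ℝ) + 1) ^ 2) (fun _ => 0) c)
    (hA : ColdAll m L (fun l => c0 / ((l : ℝ) + 1) ^ 2) (fun _ => 0)) :
    ∃ lstar, H5G (pcp (m := m) L) lstar (fun l => 5 * c0 / ((l : ℝ) + 1) ^ 2) (fun l => Real.exp (-(l : ℝ))) := by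
  obtain ⟨Cp, l1, hCp⟩ := chE_tail L m 2
  obtain ⟨C, n0, hC⟩ := hNV 2 Cp
  obtain ⟨l2, hl2⟩ := hA (C + 3)
  have hSx : ∀ c : ℕ, ∃ l3 : ℕ, 1 ≤ c → c ≤ m - 1 → ∀ n ≥ l3, ∀ k N : ℕ, N ≤ k →
      ∀ F : Fin m → (Fin m → Unit × V k) → V k → ℝ, Faces F → ∀ (q : Fin m) (U : Finset (Fin m)), U.card = c →
      ∀ D : ℕ, (D : ℝ) ≤ (n : ℝ) ^ (C + 1) → ∃ H : ℕ → Sq k N (Fin m) Unit Unit → Prop,
        ColdOn (0 : V k) N (L.lh (n + 1)) (Pc N L F n q) Unit Unit U D (c0 / ((n : ℝ) + 1) ^ 2)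
        (Real.exp (-(n : ℝ) ^ (C + 3))) (Real.exp (-(n : ℝ) ^ (C + 3))) H := by
    intro c
    by_cases h1 : 1 ≤ c
    · by_cases h2 : c ≤ m - 1
      · obtain ⟨l3, hl3⟩ := hS c h1 h2 (C + 3) (C + 1)
        exact ⟨l3, fun _ _ => hl3⟩
      · exact ⟨0, fun _ h => absurd h h2⟩
    · exact ⟨0, fun h _ => absurd h h1⟩
  choose l3 hl3 using hSx
  set l4 : ℕ := (range m).sup l3 with hl4
  have e1 := CS.ev_P (4 * 2 ^ m) 1 C 2 (C + 3) (by omega) (by omega)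
  have e2 := CS.ev_P (8 * 2 ^ m) 1 C 2 (C + 3) (by omega) (by omega)
  have e3 := H5.ev_fin (19 + 88 / c0 ^ 2) (C + 4)
  have e4 := Par.ev_const_le (C := 1) le_rfl (1 / c0) (k := 1) one_pos
  have e5 := Par.ev_pow_pow_le (C := 0) (D := 1) (by norm_num) 5 (k := 1) one_pos
  obtain ⟨n1, hn1⟩ := eventually_atTop.1 (e1.and (e2.and (e3.and (e4.and e5))))
  refine ⟨max (max (max l1 n0) (max l2 n1)) (max l4 1), fun l hl k N hN F hF q => ?_⟩
  have hll1 : l1 ≤ l := (le_max_left _ _).trans ((le_max_left _ _).trans ((le_max_left _ _).trans hl))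
  have hln0 : n0 ≤ l := (le_max_right _ _).trans ((le_max_left _ _).trans ((le_max_left _ _).trans hl))
  have hll2 : l2 ≤ l := (le_max_left _ _).trans ((le_max_right _ _).trans ((le_max_left _ _).trans hl))
  have hln1 : n1 ≤ l := (le_max_right _ _).trans ((le_max_right _ _).trans ((le_max_left _ _).trans hl))
  have hll4 : l4 ≤ l := (le_max_left _ _).trans ((le_max_right _ _).trans hl)
  have hl1' : 1 ≤ l := (le_max_right _ _).trans ((le_max_right _ _).trans hl)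
  obtain ⟨e1, e2, e3, e4, e5⟩ := hn1 l hln1
  have hx1 : (1 : ℝ) ≤ (l : ℝ) := by exact_mod_cast hl1'
  set x : ℝ := (l : ℝ) with hx
  obtain ⟨a, haq, h, hh, hhC, Θ, P, iT, nT, iP, nP, zr, W, hq, he3, heta, hrmin, hNB, hhb, hJ⟩ := hC l hln0 k N hN F hF q
  have hrr : 0 < c0 / (x + 1) ^ 2 := by positivity
  rw [pow_zero, mul_one, pow_one, one_mul] at e5
  rw [pow_one, one_mul] at e4
  have hinv3 : (x + 1)⁻¹ ^ 3 ≤ c0 / (x + 1) ^ 2 := by
    have g1 : 1 ≤ c0 * (x + 1) := by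
      rw [div_le_iff₀ hc0] at e4
      nlinarith
    rw [inv_pow, ← one_div, div_le_div_iff₀ (by positivity) (by positivity)]
    have g2 : (x + 1) ^ 3 = (x + 1) * (x + 1) ^ 2 := by ring
    rw [g2]
    have g3 : 0 < (x + 1) ^ 2 := by positivity
    nlinarith
  have hD : ((h + 4 : ℕ) : ℝ) ≤ x ^ (C + 1) := by
    push_cast
    have g1 : x ^ (C + 1) = x ^ C * x := pow_succ x C
    have g2 : (1 : ℝ) ≤ x ^ C := one_le_pow₀ hx1
    rw [g1]
    nlinarith
  -- the cold sets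
  have hcoldU : ∀ U : Finset (Fin m), ∃ H : ℕ → Sq k N (Fin m) Unit Unit → Prop, U ∈ UU a →
      ColdOn (0 : V k) N (L.lh (l + 1)) (Pc N L F l q) Unit Unit U (h + 4) (c0 / (x + 1) ^ 2)
      (Real.exp (-x ^ (C + 3))) (Real.exp (-x ^ (C + 3))) H := by
    intro U
    by_cases hU : U ∈ UU a
    · obtain ⟨h1, h2⟩ := card_UU hU
      have h3 : l3 U.card ≤ l := by
        refine le_trans ?_ hll4
        rw [hl4]
        exact Finset.le_sup (f := l3) (Finset.mem_range.mpr (by omega))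
      obtain ⟨H, hH⟩ := hl3 U.card h1 h2 l h3 k N hN F hF q U rfl (h + 4) hD
      exact ⟨H, fun _ => hH⟩
    · exact ⟨fun _ _ => False, fun h => absurd h hU⟩
  choose H hH using hcoldU
  have hmain := one_piece (s := (0 : V k)) (R := Pc N L F l q) (Pc_on L hF l q) hh W (r := c0 / (x + 1) ^ 2)
    (ρ := Real.exp (-x ^ (C + 3))) (pc := Real.exp (-x ^ 2)) (ph := Real.exp (-x ^ (C + 3))) hrr
    (hrmin.trans hinv3) (heta.trans hinv3) (Real.exp_pos _).le (σ := fun _ => Real.exp (-x ^ (C + 3)))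
    (e := fun _ => Real.exp (-x ^ (C + 3))) (H := H) (fun _ _ => (Real.exp_pos _).le) (fun U hU => hH U hU)
    (by
      have g1 := hCp l hll1 k N Unit Unit (0 : V k) F hF q a
      refine le_trans (FP.Pr_mono _ (fun ω _ hω => ?_)) g1
      push_cast at hω
      exact hω)
    (hl2 l hll2 k N hN F hF q a) (single_mem_UU a) rfl
  refine le_trans (FP.Pr_mono _ (fun ω _ hω => ?_)) (hmain.trans ?_)
  · obtain ⟨e, he, g1⟩ := hω
    refine ⟨e, he, le_trans ?_ g1⟩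
    show 4 * (c0 / (x + 1) ^ 2) + W.eta ≤ 5 * c0 / (x + 1) ^ 2
    have g2 := heta.trans hinv3
    have g3 : 5 * c0 / (x + 1) ^ 2 = 5 * (c0 / (x + 1) ^ 2) := by ring
    rw [g3]
    linarith
  -- numerics
  set η : ℝ := Real.exp (-x ^ (C + 3)) with hη
  have hη0 : 0 < η := Real.exp_pos _
  set E : ℝ := Real.exp (-x ^ 2) with hE
  have hE0 : 0 < E := Real.exp_pos _
  have hXC : (1 : ℝ) ≤ Real.exp (x ^ C) := Real.one_le_exp (by positivity)
  have hcardU : ((UU a).card : ℝ) ≤ 2 ^ m := by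
    have h1 : (UU a).card ≤ Fintype.card (Finset (Fin m)) := Finset.card_le_univ _
    rw [Fintype.card_finset, Fintype.card_fin] at h1
    exact_mod_cast h1
  have h2m : (1 : ℝ) ≤ 2 ^ m := one_le_pow₀ (by norm_num)
  have hbig : Real.exp (1 * x ^ C - x ^ (C + 3)) = Real.exp (x ^ C) * η := by
    rw [hη, ← Real.exp_add]
    congr 1
    ring
  rw [hbig] at e1 e2
  have hprod : η ≤ Real.exp (x ^ C) * η := le_mul_of_one_le_left hη0.le hXC
  have hprod0 : 0 < Real.exp (x ^ C) * η := by positivity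
  have hηE : 2 ^ m * η ≤ E := by
    have g1 : 2 ^ m * η ≤ 2 ^ m * (Real.exp (x ^ C) * η) := mul_le_mul_of_nonneg_left hprod (by positivity)
    have g2 : 0 < 2 ^ m * (Real.exp (x ^ C) * η) := by positivity
    linarith
  have hη1 : η ≤ E := by
    have g1 : η ≤ 2 ^ m * η := le_mul_of_one_le_left hη0.le h2m
    linarith
  have hJ0 : 0 ≤ W.J := (Finset.sum_nonneg fun t _ => FP.Pr_nonneg _ _).trans W.eJ
  have hsumη : ∑ _U ∈ UU a, η ≤ 2 ^ m * η := by
    rw [Finset.sum_const, nsmul_eq_mul]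
    exact mul_le_mul_of_nonneg_right hcardU hη0.le
  have hsumη0 : 0 ≤ ∑ _U ∈ UU a, η := Finset.sum_nonneg fun _ _ => hη0.le
  have hSh : ∑ U ∈ UU a, η * W.hb U ≤ E := by
    have g1 : ∀ U ∈ UU a, η * W.hb U ≤ Real.exp (x ^ C) * η := by
      intro U hU
      rw [mul_comm]
      exact mul_le_mul_of_nonneg_right (hhb U hU) hη0.le
    refine (Finset.sum_le_card_nsmul _ _ _ g1).trans ?_
    rw [nsmul_eq_mul]
    have g2 : ((UU a).card : ℝ) * (Real.exp (x ^ C) * η) ≤ 2 ^ m * (Real.exp (x ^ C) * η) :=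
      mul_le_mul_of_nonneg_right hcardU hprod0.le
    have g3 : 0 < 2 ^ m * (Real.exp (x ^ C) * η) := by positivity
    linarith
  have hJS : 2 * W.J * (2 * η + ∑ _U ∈ UU a, η) ≤ E := by
    have g1 : 2 * η + ∑ _U ∈ UU a, η ≤ 3 * (2 ^ m * η) := by
      have : η ≤ 2 ^ m * η := le_mul_of_one_le_left hη0.le h2m
      linarith
    have g2 : 2 * W.J * (2 * η + ∑ _U ∈ UU a, η) ≤ 2 * Real.exp (x ^ C) * (3 * (2 ^ m * η)) :=
      mul_le_mul (mul_le_mul_of_nonneg_left hJ (by norm_num)) g1 (by positivity) (by positivity)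
    have g3 : 2 * Real.exp (x ^ C) * (3 * (2 ^ m * η)) = 6 * (2 ^ m * (Real.exp (x ^ C) * η)) := by ring
    have g4 : 0 < 2 ^ m * (Real.exp (x ^ C) * η) := by positivity
    rw [g3] at g2
    linarith
  have hNBr : 2 * W.NB / (4 * (c0 / (x + 1) ^ 2) ^ 2) ≤ 8 / c0 ^ 2 * x ^ (C + 4) := by
    have g1 : 2 * W.NB / (4 * (c0 / (x + 1) ^ 2) ^ 2) = W.NB * (x + 1) ^ 4 / (2 * c0 ^ 2) := by
      field_simp
      ring
    rw [g1, div_le_iff₀ (by positivity)]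
    have g2 : (x + 1) ^ 4 ≤ 16 * x ^ 4 := by
      have h6 : (x + 1) ^ 4 ≤ (2 * x) ^ 4 := pow_le_pow_left₀ (by positivity) (by linarith) 4
      have h7 : (2 * x) ^ 4 = 16 * x ^ 4 := by ring
      linarith
    have g3 : W.NB * (x + 1) ^ 4 ≤ x ^ C * (16 * x ^ 4) :=
      mul_le_mul hNB g2 (by positivity) (by positivity)
    have g4 : 8 / c0 ^ 2 * x ^ (C + 4) * (2 * c0 ^ 2) = x ^ C * (16 * x ^ 4) := by
      rw [pow_add]
      field_simp
      ring
    rw [g4]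
    exact g3
  have hK0 : 0 ≤ 2 * W.NB / (4 * (c0 / (x + 1) ^ 2) ^ 2) := by
    have := W.NB0
    positivity
  refine (H5.num (E := E) (K := 8 / c0 ^ 2 * x ^ (C + 4)) (JS := 2 * W.J * (2 * η + ∑ _U ∈ UU a, η)) le_rfl hη1 hq he3
    hη1 hη1 hSh (hsumη.trans hηE) hJS rfl hNBr hK0 hE0.le).trans ?_
  refine le_trans ?_ e3
  have hx4 : (1 : ℝ) ≤ x ^ (C + 4) := one_le_pow₀ hx1
  have g1 : 19 + 11 * (8 / c0 ^ 2 * x ^ (C + 4)) ≤ (19 + 88 / c0 ^ 2) * x ^ (C + 4) := by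
    have g2 : (19 + 88 / c0 ^ 2) * x ^ (C + 4) = 19 * x ^ (C + 4) + 11 * (8 / c0 ^ 2 * x ^ (C + 4)) := by ring
    rw [g2]
    linarith
  exact mul_le_mul_of_nonneg_right g1 hE0.le

theorem summable_r (c : ℝ) : Summable (fun l : ℕ => c / ((l : ℝ) + 1) ^ 2) := by
  have h1 : Summable (fun l : ℕ => 1 / ((l + 1 : ℕ) : ℝ) ^ 2) :=
    (summable_nat_add_iff 1).mpr (Real.summable_one_div_nat_pow.mpr (by norm_num))
  refine (h1.mul_left c).congr (fun l => ?_)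
  push_cast
  ring

theorem summable_p : Summable (fun l : ℕ => Real.exp (-(l : ℝ))) := by
  have h1 := Real.summable_exp_neg_nat
  exact h1

/-- `Sec5 n` from the contracts -/
theorem sec5_of {n : ℕ} (L : LayE) {c0 : ℝ} (hc0 : 0 < c0) (hNV : NVLay (n + 2) L (fun _ => 0))
    (hS : ∀ c, 1 ≤ c → c ≤ n + 1 → ColdSet (n + 2) L (fun l => c0 / ((l : ℝ) + 1) ^ 2) (fun _ => 0) c)
    (hA : ColdAll (n + 2) L (fun l => c0 / ((l : ℝ) + 1) ^ 2) (fun _ => 0)) : Sec5 n := by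
  obtain ⟨lstar, h5⟩ := h5_of (n + 2) L hc0 hNV (fun c h1 h2 => hS c h1 (by omega)) hA
  exact ⟨L, lstar, _, _, summable_r _, fun l => by positivity, summable_p, fun l => (Real.exp_pos _).le, h5⟩

theorem ColdAll.mono {m : ℕ} [Nontrivial (Fin m)] {L : LayE} {r r' : ℕ → ℝ} {o : ∀ k, V k} (H : ColdAll m L r o)
    (h : ∀ l, r l ≤ r' l) : ColdAll m L r' o := by
  intro C1
  obtain ⟨l0, hl0⟩ := H C1
  refine ⟨l0, fun l hl k N hN F hF q x => le_trans (FP.Pr_mono _ fun ω _ => ?_) (hl0 l hl k N hN F hF q x)⟩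
  rintro ⟨t, ht, ht1, hh⟩
  exact ⟨t, ht, ht1, hh.trans_le (FP.ce_mono _ (fun v _ => ind_mono fun g => (h l).trans g) ω)⟩

/-- `Sec5 n` for every number of vertices: named views, cold sets of `n + 1` vertices in one layer, cold sets of `c`
vertices for `3 ≤ c ≤ n` (empty for four vertices) -/
theorem sec5_gen {n : ℕ} (hn : 1 ≤ n) {L : LayE} {c0 c1 : ℝ} (hL : LOK (n + 2) L c0)
    (hNV : NVLay (n + 2) L (fun _ => 0)) (hc1 : c1 ≤ c0 / (8 * (n + 2))) (hCM : ColdLay (n + 2) L c1 (fun _ => 0))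
    (hS : ∀ c, 3 ≤ c → c ≤ n → ColdSet (n + 2) L (fun l => 2 * c0 / ((l : ℝ) + 1) ^ 2) (fun _ => 0) c) : Sec5 n := by
  have h0 := hL.c0_pos
  have hcc : ∀ l : ℕ, 2 * c0 / ((l : ℝ) + 1) ^ 2 = 2 * (c0 / ((l : ℝ) + 1) ^ 2) := fun l => by ring
  have hpos : ∀ l : ℕ, 0 < c0 / ((l : ℝ) + 1) ^ 2 := fun l => by positivity
  have hA : ColdAll (n + 2) L (fun l => c0 / ((l : ℝ) + 1) ^ 2) (fun _ => 0) :=
    coldAll_of_layers (n + 2) L h0 (by push_cast; exact hc1) hCM (fun l => le_rfl)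
  refine sec5_of L (c0 := 2 * c0) (by positivity) hNV (fun c h1 h2 => ?_) (hA.mono fun l => ?_)
  · rcases Nat.lt_or_ge c 3 with h3 | h3
    · rcases Nat.lt_or_ge c 2 with h4 | h4
      · have h5 : c = 1 := by omega
        subst h5
        refine coldSet_one (fun l => ?_) _
        have := hL.rp_16 (by omega) l
        have := hpos l
        have := L.rp_pos (n + 2) l
        rw [hcc]
        linarith
      · have h5 : c = 2 := by omega
        subst h5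
        refine coldSet_two (by omega) hL (fun l => ?_) _
        have := hpos l
        rw [hcc]
        linarith
    · rcases Nat.lt_or_ge n c with h4 | h4
      · have h5 : c = n + 2 - 1 := by omega
        subst h5
        refine coldSet_erase hA (fun l => ?_)
        have := hL.rp_16 (by omega) l
        have := hpos l
        have := L.rp_pos (n + 2) l
        rw [hcc]
        linarith
      · exact hS c h3 h4
  · have := hpos l
    rw [hcc]
    linarith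

/-- FOUR VERTICES: the inputs are the named views and the cold triples of one layer -/
theorem sec5_four {L : LayE} {c0 c1 : ℝ} (hL : LOK 4 L c0) (hNV : NVLay 4 L (fun _ => 0)) (hc1 : c1 ≤ c0 / 32)
    (hCM : ColdLay 4 L c1 (fun _ => 0)) : Sec5 2 :=
  sec5_gen (n := 2) (by norm_num) hL hNV (by norm_num; linarith) hCM (fun c h1 h2 => by omega)

/-- FOUR COMMUTING MAPS from the named views and the cold triples -/
theorem final_four_of {L : LayE} {c0 c1 : ℝ} (hL : LOK 4 L c0) (hNV : NVLay 4 L (fun _ => 0)) (hc1 : c1 ≤ c0 / 32)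
    (hCM : ColdLay 4 L c1 (fun _ => 0)) : Pool.PWM.FinalM 4 := final_four (sec5_four hL hNV hc1 hCM)

end

end Pool.Agent.GM
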