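import Pool.Agent.GM.HarmL

/-!
# GM/HAvg: data of HARM(K) averaged over a coin of the hidden point, helper51

`E : Xt ≃ X × Z`, `Z` the values of the coin; the cells of the hidden point do not see the coin.
* `HD.avgZ Dt E q hq` : the data with hidden points `X`, kernels averaged over the coin; `avgZ_thick`, `avgZ_hyp` : the
  hypotheses of HARM(K) with THE SAME numbers;
* `avgZ_P` : if only the label `d` sees the coin, the law of (hidden point without coin, known points, labels) is the law of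
  the averaged data.
-/

set_option autoImplicit false
set_option linter.unusedSectionVars false
set_option linter.unusedVariables false

namespace Pool.Agent.GM.Harm

open Finset Pool.Agent.PWZ Pool.Agent.M3
open Pool.Agent.M3.S3 (avg law ent)

noncomputable section

variable {K Xt X Z β γ φ : Type} [Fintype K] [DecidableEq K] [Fintype Xt] [Fintype X] [Fintype Z] [Nonempty Z]
  [Fintype β] [Fintype φ]

/-- the data averaged over a coin of the hidden point -/
def HD.avgZ (Dt : HD K Xt β γ φ) (E : Xt ≃ X × Z) (q : ℕ → X → γ) (hq : ∀ t u, Dt.qa t u = q t (E u).1) :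
    HD K X β γ φ where
  qa := q
  qb := Dt.qb
  kf := fun t l x y F => (∑ z, Dt.kf t l (E.symm (x, z)) y F) / Fintype.card Z
  ra := fun t x x' hx => by
    obtain ⟨z⟩ := ‹Nonempty Z›
    have h1 := Dt.ra t (E.symm (x, z)) (E.symm (x', z))
    simp only [hq, Equiv.apply_symm_apply] at h1
    exact h1 hx
  rb := Dt.rb
  dep := fun t l x y y' h1 h2 => by
    funext F
    rw [Finset.sum_congr rfl fun z _ => by rw [Dt.dep t l (E.symm (x, z)) y y' h1 h2]]

variable {Dt : HD K Xt β γ φ} {E : Xt ≃ X × Z} {q : ℕ → X → γ} {hq : ∀ t u, Dt.qa t u = q t (E u).1}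

theorem cA_avgZ (t : ℕ) (u : Xt) :
    Dt.cA t u = ((HD.avgZ Dt E q hq).cA t (E u).1 ×ˢ (univ : Finset Z)).map E.symm.toEmbedding := by
  ext v
  rw [HD.mem_cA', Finset.mem_map_equiv, Equiv.symm_symm, Finset.mem_product, HD.mem_cA', hq, hq]
  exact (and_iff_left (Finset.mem_univ _)).symm

theorem card_avgZ (t : ℕ) (u : Xt) :
    ((Dt.cA t u).card : ℝ) = ((HD.avgZ Dt E q hq).cA t (E u).1).card * (Fintype.card Z : ℝ) := by
  rw [cA_avgZ (E := E) (q := q) (hq := hq), Finset.card_map, Finset.card_product, Finset.card_univ]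
  push_cast
  rfl

theorem sum_avgZ (t : ℕ) (u : Xt) (f : Xt → ℝ) :
    ∑ v ∈ Dt.cA t u, f v = ∑ x ∈ (HD.avgZ Dt E q hq).cA t (E u).1, ∑ z, f (E.symm (x, z)) := by
  rw [cA_avgZ (E := E) (q := q) (hq := hq), Finset.sum_map, Finset.sum_product]
  rfl

/-- averages over the cells -/
theorem avg_avgZ (t : ℕ) (u : Xt) (f : Xt → ℝ) :
    avg (Dt.cA t u) f = avg ((HD.avgZ Dt E q hq).cA t (E u).1) (fun x => (∑ z, f (E.symm (x, z))) / Fintype.card Z) := by
  unfold avg
  rw [sum_avgZ (E := E) (q := q) (hq := hq), card_avgZ (E := E) (q := q) (hq := hq), ← Finset.sum_div,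
    div_div, mul_comm (Fintype.card Z : ℝ)]

/-- averages of functions which do not see the coin -/
theorem avg_avgZ' (t : ℕ) (u : Xt) (f : X → ℝ) :
    avg (Dt.cA t u) (fun v => f (E v).1) = avg ((HD.avgZ Dt E q hq).cA t (E u).1) f := by
  rw [avg_avgZ (E := E) (q := q) (hq := hq)]
  have h0 : (Fintype.card Z : ℝ) ≠ 0 := by exact_mod_cast Fintype.card_ne_zero
  congr 1
  funext x
  simp only [Equiv.apply_symm_apply, Finset.sum_const, Finset.card_univ, nsmul_eq_mul]
  field_simp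

/-- THE ENTROPIES ARE THE SAME -/
theorem H_avgZ (s t : ℕ) (l : K) (u : Xt) (y : K → β) :
    Dt.H s t l u y = (HD.avgZ Dt E q hq).H s t l (E u).1 y := by
  unfold HD.H
  congr 1
  funext F
  unfold law
  rw [avg_avgZ (E := E) (q := q) (hq := hq)]
  rfl

theorem cB_avgZ (t : ℕ) (b : β) : (HD.avgZ Dt E q hq).cB t b = Dt.cB t b := rfl

/-- (H1) -/
theorem avgZ_thick {al : ℝ} (h : Dt.Thick al) : (HD.avgZ Dt E q hq).Thick al where
  pos := h.pos
  nn := fun t l x y F => div_nonneg (Finset.sum_nonneg fun z _ => h.nn _ _ _ _ _) (Nat.cast_nonneg _)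
  one := fun t l x y => by
    have h0 : (Fintype.card Z : ℝ) ≠ 0 := by exact_mod_cast Fintype.card_ne_zero
    show ∑ F, (∑ z, Dt.kf t l (E.symm (x, z)) y F) / (Fintype.card Z : ℝ) = 1
    rw [← Finset.sum_div, Finset.sum_comm, Finset.sum_congr rfl fun z _ => h.one t l (E.symm (x, z)) y,
      Finset.sum_const, Finset.card_univ, nsmul_eq_mul, mul_one, div_self h0]
  thick := fun t l x x' y F hx hF => by
    have h0 : (0 : ℝ) < Fintype.card Z := by exact_mod_cast Fintype.card_pos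
    have h1 : ∃ z, Dt.kf t l (E.symm (x, z)) y F ≠ 0 := by
      by_contra hn
      push Not at hn
      apply hF
      show (∑ z, Dt.kf t l (E.symm (x, z)) y F) / (Fintype.card Z : ℝ) = 0
      rw [Finset.sum_eq_zero fun z _ => hn z, zero_div]
    obtain ⟨z, hz⟩ := h1
    show al ≤ (∑ z, Dt.kf t l (E.symm (x', z)) y F) / (Fintype.card Z : ℝ)
    rw [le_div_iff₀ h0, mul_comm, ← nsmul_eq_mul, ← Finset.card_univ, ← Finset.sum_const]
    refine Finset.sum_le_sum fun z' _ => h.thick t l (E.symm (x, z)) (E.symm (x', z')) y F ?_ hz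
    rw [hq, hq, Equiv.apply_symm_apply, Equiv.apply_symm_apply]
    exact hx

/-- THE HYPOTHESES with the same numbers -/
theorem avgZ_hyp {dgt : ℕ → Xt → ℝ} {dg : ℕ → X → ℝ} (hdg : ∀ t u, dgt t u = dg t (E u).1)
    {pr : ℕ → K → φ → φ} {al : ℝ} {T : ℕ} {Lam : ℝ} (h : Dt.Hyp dgt pr al T Lam) :
    (HD.avgZ Dt E q hq).Hyp dg pr al T Lam := by
  obtain ⟨z0⟩ := ‹Nonempty Z›
  let _ : Nonempty Z := ⟨z0⟩
  have h0 : (Fintype.card Z : ℝ) ≠ 0 := by exact_mod_cast Fintype.card_ne_zero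
  have e1 : ∀ x : X, (E (E.symm (x, z0))).1 = x := fun x => by rw [Equiv.apply_symm_apply]
  refine
  { Lam1 := h.Lam1
    alL := h.alL
    dg_val := fun t x => ?_
    dg_cell := fun t ht x x' => ?_
    dg_bal := fun t ht x => ?_
    half := h.half
    kf_pr := fun t ht l x y F => ?_
    H2 := fun s hs l x y => ?_
    H3 := fun l x y => ?_ }
  · have h1 := h.dg_val t (E.symm (x, z0))
    rw [hdg, e1] at h1
    exact h1
  · have h1 := h.dg_cell t ht (E.symm (x, z0)) (E.symm (x', z0))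
    rw [hq, hq, hq, hq, hdg, hdg, e1, e1] at h1
    exact h1
  · have h1 := h.dg_bal t ht (E.symm (x, z0))
    rw [sum_avgZ (E := E) (q := q) (hq := hq), e1] at h1
    simp only [hdg, Equiv.apply_symm_apply, Finset.sum_const, Finset.card_univ, nsmul_eq_mul] at h1
    rw [← Finset.mul_sum] at h1
    rcases mul_eq_zero.1 h1 with h2 | h2
    · exact absurd h2 h0
    · exact h2
  · show (∑ z, Dt.kf t l (E.symm (x, z)) y F) / (Fintype.card Z : ℝ) =
      ∑ F', ind (pr t l F' = F) * ((∑ z, Dt.kf (t + 1) l (E.symm (x, z)) y F') / (Fintype.card Z : ℝ))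
    rw [Finset.sum_congr rfl fun z _ => h.kf_pr t ht l (E.symm (x, z)) y F, Finset.sum_comm, Finset.sum_div]
    refine Finset.sum_congr rfl fun F' _ => ?_
    rw [← Finset.mul_sum, mul_div_assoc]
  · have h1 := h.H2 s hs l (E.symm (x, z0)) y
    have h2 : (HD.avgZ Dt E q hq).mean s l x y (fun x' y' => (HD.avgZ Dt E q hq).H s s l x' y' +
        ∑ t ∈ Ico s T, ((HD.avgZ Dt E q hq).H (t + 1) (t + 1) l x' y' - (HD.avgZ Dt E q hq).H (t + 1) t l x' y')) =
        Dt.mean s l (E.symm (x, z0)) y (fun x' y' => Dt.H s s l x' y' +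
        ∑ t ∈ Ico s T, (Dt.H (t + 1) (t + 1) l x' y' - Dt.H (t + 1) t l x' y')) := by
      unfold HD.mean
      simp only [H_avgZ (E := E) (q := q) (hq := hq)]
      rw [avg_avgZ' (E := E) (q := q) (hq := hq) s (E.symm (x, z0)) (fun x' => avg (Dt.cB s (y l)) fun b =>
        (HD.avgZ Dt E q hq).H s s l x' (Function.update y l b) + ∑ t ∈ Ico s T,
          ((HD.avgZ Dt E q hq).H (t + 1) (t + 1) l x' (Function.update y l b) -
            (HD.avgZ Dt E q hq).H (t + 1) t l x' (Function.update y l b))), e1]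
      rfl
    rw [h2]
    exact h1
  · refine le_trans (Finset.sum_le_sum fun t _ => ?_) (h.H3 l (E.symm (x, z0)) y)
    by_cases hc : ∃ x' ∈ (HD.avgZ Dt E q hq).cA (t + 1) x,
        (HD.avgZ Dt E q hq).kf (t + 1) l x' y ≠ (HD.avgZ Dt E q hq).kf t l x' y
    · obtain ⟨x', hx', hne⟩ := hc
      have h1 : ∃ z, Dt.kf (t + 1) l (E.symm (x', z)) y ≠ Dt.kf t l (E.symm (x', z)) y := by
        by_contra hn
        push Not at hn
        apply hne
        funext F
        show (∑ z, Dt.kf (t + 1) l (E.symm (x', z)) y F) / (Fintype.card Z : ℝ) =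
          (∑ z, Dt.kf t l (E.symm (x', z)) y F) / (Fintype.card Z : ℝ)
        rw [Finset.sum_congr rfl fun z _ => by rw [hn z]]
      obtain ⟨z, hz⟩ := h1
      rw [ind_of (p := ∃ x' ∈ Dt.cA (t + 1) (E.symm (x, z0)), Dt.kf (t + 1) l x' y ≠ Dt.kf t l x' y)
        ⟨E.symm (x', z), ?_, hz⟩]
      · exact ind_le_one _
      · rw [HD.mem_cA', hq, hq, Equiv.apply_symm_apply, Equiv.apply_symm_apply]
        exact (HD.mem_cA' _).1 hx'
    · rw [ind_not hc]
      exact ind_nonneg _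

/-- THE LAW without the coin, if only the label `d` sees the coin -/
theorem avgZ_P [Nonempty Xt] [Nonempty X] [Nonempty β] {al : ℝ} (h : Dt.Thick al) {d : K}
    (hf : ∀ t l, l ≠ d → ∀ x z z' y, Dt.kf t l (E.symm (x, z)) y = Dt.kf t l (E.symm (x, z')) y) (t : ℕ)
    (Ψ : Pt K X β φ → ℝ) :
    (Dt.P h t).E (fun w => Ψ ((E w.1).1, w.2)) = ((HD.avgZ Dt E q hq).P (avgZ_thick h) t).E Ψ := by
  classical
  obtain ⟨z0⟩ := ‹Nonempty Z›
  let _ : Nonempty Z := ⟨z0⟩
  have h0 : (Fintype.card Z : ℝ) ≠ 0 := by exact_mod_cast Fintype.card_ne_zero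
  rw [HD.P_E, HD.P_E]
  let E2 : Xt × (K → β) ≃ (X × (K → β)) × Z :=
    { toFun := fun p => (((E p.1).1, p.2), (E p.1).2)
      invFun := fun p => (E.symm (p.1.1, p.2), p.1.2)
      left_inv := fun p => by simp
      right_inv := fun p => by simp }
  have h1 := (pulC_unif E2).E (fun (p : X × (K → β)) (z : Z) =>
    ∑ F : K → φ, (∏ l, Dt.kf t l (E.symm (p.1, z)) p.2 (F l)) * Ψ (p.1, p.2, F))
  have h2 : (FP.unif (Xt × (K → β))).E (fun p => ∑ F : K → φ, (∏ l, Dt.kf t l p.1 p.2 (F l)) *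
      Ψ ((E p.1).1, p.2, F)) = (FP.unif (Xt × (K → β))).E (fun w => ∑ F : K → φ,
        (∏ l, Dt.kf t l (E.symm ((E2 w).1.1, (E2 w).2)) (E2 w).1.2 (F l)) * Ψ ((E2 w).1.1, (E2 w).1.2, F)) := by
    refine FP.E_congr _ fun p _ => ?_
    show _ = ∑ F : K → φ, (∏ l, Dt.kf t l (E.symm (((E p.1).1), (E p.1).2)) p.2 (F l)) * Ψ ((E p.1).1, p.2, F)
    have h3 : E.symm ((E p.1).1, (E p.1).2) = p.1 := by
      rw [Prod.mk.eta, Equiv.symm_apply_apply]
    rw [h3]
  rw [h2, h1]
  refine FP.E_congr _ fun p _ => ?_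
  rw [FP.E_sum]
  refine Finset.sum_congr rfl fun F _ => ?_
  rw [FP.E_mul_const]
  congr 1
  have h3 : ∀ z, (∏ l, Dt.kf t l (E.symm (p.1, z)) p.2 (F l)) =
      Dt.kf t d (E.symm (p.1, z)) p.2 (F d) * ∏ l ∈ univ.erase d, Dt.kf t l (E.symm (p.1, z0)) p.2 (F l) := by
    intro z
    rw [← Finset.mul_prod_erase univ _ (Finset.mem_univ d)]
    congr 1
    refine Finset.prod_congr rfl fun l hl => ?_
    rw [hf t l (Finset.ne_of_mem_erase hl) p.1 z z0 p.2]
  simp only [h3]
  rw [FP.E_mul_const, FP.unif_E, ← Finset.mul_prod_erase univ _ (Finset.mem_univ d)]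
  congr 1
  refine Finset.prod_congr rfl fun l hl => ?_
  show _ = (∑ z, Dt.kf t l (E.symm (p.1, z)) p.2 (F l)) / (Fintype.card Z : ℝ)
  rw [Finset.sum_congr rfl fun z _ => by rw [hf t l (Finset.ne_of_mem_erase hl) p.1 z z0 p.2], Finset.sum_const,
    Finset.card_univ, nsmul_eq_mul]
  field_simp

end

end Pool.Agent.GM.Harm
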