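import Pool.Agent.GM.PairCold
import Pool.Agent.GM.FrzL

/-!
# GM/Half : scaling of the families, mean number of changes of the faces of the pieces (helper34)

* `hf R = R / 2` : `hf_on`, `hf_le`, `hf_PT`, `TT_hf`, `nch_hf`, `ColdOn.of_hf`;
* `nch_Pc` : the faces of the pieces change their values at most `4 / (lep l)^2 + 4 / (lep (l+1))^2` times on average;
* `enuFin` : an enumeration of the other vertices of a pair.
-/

set_option autoImplicit false
set_option linter.unusedSectionVars false

namespace Pool.Agent.GM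

open Finset Pool.Agent.PWZ Pool.Agent.M3 Pool.Agent.M3.Bin

noncomputable section

section half

variable {k N : ℕ} {ι Θ P : Type}

/-- half of a family -/
def hf (R : Fam k ι P) : Fam k ι P := fun e g x d => R e g x d / 2

theorem hf_on {I : Set ι} {R : Fam k ι P} (hR : FOn I R) : FOn I (hf R) := by
  intro e g x y hxy
  funext d
  show R e g x d / 2 = R e g y d / 2
  rw [hR e g hxy]

theorem hf_le {R : Fam k ι P} (hR : FLe 2 R) : FLe 1 (hf R) := by
  intro e g x d
  show |R e g x d / 2| ≤ 1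
  rw [abs_div, abs_of_pos (by norm_num : (0 : ℝ) < 2)]
  have := hR e g x d
  linarith

variable [Fintype ι] [DecidableEq ι]

theorem av_div {k : ℕ} (e : ℕ) (y : V k) (f : V k → ℝ) (c : ℝ) :
    Mod.av e y (fun d => f d / c) = Mod.av e y f / c := by
  unfold Mod.av
  rw [← Finset.sum_div, mul_div_assoc]

theorem hf_PT [Fintype P] {i : ι} {h : ℕ} {R : Fam k ι P} {θ r H : ℝ} (hR : PT i h N R θ r H) :
    PT i h N (hf R) θ (r / 2) H := by
  intro e he g hg c v hvi hv
  refine le_trans (le_of_eq ?_) (hR e he g hg c v hvi hv)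
  congr 2
  refine Finset.filter_congr (fun x _ => ?_)
  have h3 : Mod.av e g.1 (fun d => hf R e g x d * ∏ w ∈ univ.erase i, v w x d) =
      Mod.av e g.1 (fun d => R e g x d * ∏ w ∈ univ.erase i, v w x d) / 2 := by
    rw [← av_div]
    congr 1
    funext d
    show R e g x d / 2 * ∏ w ∈ univ.erase i, v w x d = R e g x d * (∏ w ∈ univ.erase i, v w x d) / 2
    ring
  rw [h3, abs_div, abs_of_pos (by norm_num : (0 : ℝ) < 2)]
  constructor <;> intro h <;> linarith

variable (s : V k)

theorem fv_hf (h : ℕ) (R : Fam k ι P) (e : ℕ) (ω : Sq k N ι Θ P) (d : V k) :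
    fv s h (hf R) e ω d = fv s h R e ω d / 2 := rfl

theorem TT_hf (h : ℕ) (R : ι → Fam k ι P) (e : ℕ) (ω : Sq k N ι Θ P) :
    TT s h (fun j => hf (R j)) e ω = TT s h R e ω / 2 ^ Fintype.card ι := by
  unfold TT
  rw [← av_div]
  congr 1
  funext d
  have h1 : ∀ j : ι, fv s h (hf (R j)) e ω d = fv s h (R j) e ω d / 2 := fun j => rfl
  rw [Finset.prod_congr rfl fun j _ => h1 j, Finset.prod_div_distrib, Finset.prod_const, Finset.card_univ]

theorem nch_hf (h N : ℕ) (R : Fam k ι Unit) : nch s h N (hf R) = nch s h N R := by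
  unfold nch
  refine Finset.sum_congr rfl fun t _ => ?_
  congr 1
  funext ω
  congr 1
  have h1 : ∀ e, fv s h (hf R) e ω = fun d => fv s h R e ω d / 2 := fun e => rfl
  rw [h1, h1]
  refine propext (not_congr ?_)
  constructor
  · intro h2
    funext d
    have h3 : fv s h R (N - t) ω d / 2 = fv s h R (N - (t + 1)) ω d / 2 := congrFun h2 d
    linarith
  · intro h2
    rw [h2]

variable {s}

theorem ColdOn.of_hf {h0 : ℕ} {R : ι → Fam k ι Unit} {S : Finset ι} {D : ℕ} {r σ e : ℝ}
    {H : ℕ → Sq k N ι Unit Unit → Prop} [Fintype Θ] [Nonempty Θ] [Fintype P] [Nonempty P]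
    (C : ColdOn s N h0 (fun j => hf (R j)) Θ P S D (r / 2 ^ Fintype.card ι) σ e H) :
    ColdOn s N h0 R Θ P S D r σ e H where
  inc := C.inc
  mass := C.mass
  cold t h1 ht r' h2 h3 w := by
    refine le_trans (FP.ce_mono _ (fun v _ => ind_mono fun h => ?_) w) (C.cold t h1 ht r' h2 h3 w)
    refine ⟨?_, h.2⟩
    rw [TT_hf, abs_div, abs_of_pos (by positivity : (0 : ℝ) < 2 ^ Fintype.card ι)]
    exact div_le_div_of_nonneg_right h.1 (by positivity)

end half

/-! ### mean number of changes of the faces of the pieces -/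

section changes

variable {k N m : ℕ} [Nontrivial (Fin m)] (s : V k) (L : LayE) {F : Fin m → (Fin m → Unit × V k) → V k → ℝ}

/-- the first value is not counted: changes of the values between the times `t` and `t+1`, `t = 0` included -/
theorem sum_fv_le (l : ℕ) (q j : Fin m) (ω : Sq k N (Fin m) Unit Unit) :
    ∑ t ∈ range N, ind (fv s (L.lh (l + 1)) (Pc N L F l q j) (N - t) ω ≠
      fv s (L.lh (l + 1)) (Pc N L F l q j) (N - (t + 1)) ω) ≤ Ll s L F l j 0 ω + Ll s L F (l + 1) j 0 ω := by
  have key : ∀ n : ℕ, n ≤ N → ∑ t ∈ range n, ind (fv s (L.lh (l + 1)) (Pc N L F l q j) (N - t) ω ≠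
      fv s (L.lh (l + 1)) (Pc N L F l q j) (N - (t + 1)) ω) ≤
      (Ll s L F l j (Mod.ex N n) ω - Ll s L F l j (Mod.ex N 0) ω) +
      (Ll s L F (l + 1) j (Mod.ex N n) ω - Ll s L F (l + 1) j (Mod.ex N 0) ω) := by
    intro n
    induction n with
    | zero =>
      intro _
      simp
    | succ n ih =>
      intro hn
      rw [Finset.sum_range_succ]
      have h1 := ih (by omega)
      have h2 := ind_Rl_ch (F := F) s L l j (t := n) (by omega) ω
      have h3 := ind_Rl_ch (F := F) s L (l + 1) j (t := n) (by omega) ω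
      have h4 : ind (fv s (L.lh (l + 1)) (Pc N L F l q j) (N - n) ω ≠
          fv s (L.lh (l + 1)) (Pc N L F l q j) (N - (n + 1)) ω) ≤
          ind (fv s (L.lh l) (Rl N L F l j) (Mod.ex N (n + 1)) ω ≠ fv s (L.lh l) (Rl N L F l j) (Mod.ex N n) ω) +
          ind (fv s (L.lh (l + 1)) (Rl N L F (l + 1) j) (Mod.ex N (n + 1)) ω ≠
            fv s (L.lh (l + 1)) (Rl N L F (l + 1) j) (Mod.ex N n) ω) := by
        refine (ind_mono ?_).trans (ind_or_le _ _)
        intro hc
        by_contra hcon
        rw [not_or, not_not, not_not] at hcon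
        apply hc
        exact (Pc_v s L l q j hcon.1 hcon.2).symm
      linarith
  have h5 := key N le_rfl
  have h7 : Mod.ex N N = 0 := by unfold Mod.ex; omega
  rw [h7] at h5
  have h8 := Ll_nonneg (F := F) s L l j (Mod.ex N 0) ω
  have h9 := Ll_nonneg (F := F) s L (l + 1) j (Mod.ex N 0) ω
  linarith

theorem Ll_mean (hF : Faces F) (l : ℕ) (i : Fin m) :
    (Pm : FP (Sq k N (Fin m) Unit Unit)).E (Ll s L F l i 0) ≤ 2 / L.lep l ^ 2 := by
  have h1 := L.rd l
  have h2 : 0 < ((2 : ℝ) ^ L.lh l)⁻¹ := by positivity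
  exact Lf_mean (Θ := Unit) (P := Unit) (N := N) (h := L.lh l) (ep := L.lep l) (th := L.lth l) (F := F i) s i (hF.2 i)
    (L.lep_pos l) (by linarith)

/-- the mean number of changes of the faces of the pieces -/
theorem nch_Pc (hF : Faces F) (l : ℕ) (q j : Fin m) :
    nch s (L.lh (l + 1)) N (Pc N L F l q j) ≤ 2 / L.lep l ^ 2 + 2 / L.lep (l + 1) ^ 2 := by
  unfold nch
  rw [← FP.E_sum]
  refine (FP.E_mono _ (g := fun ω => Ll s L F l j 0 ω + Ll s L F (l + 1) j 0 ω)
    (fun ω _ => sum_fv_le s L l q j ω)).trans ?_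
  rw [FP.E_add]
  exact add_le_add (Ll_mean s L hF l j) (Ll_mean s L hF (l + 1) j)

end changes

/-- an enumeration of the vertices different from `a` and `b` -/
def enuFin {m : ℕ} {a b : Fin m} (hab : a ≠ b) : GMC.Enu (m - 2) a b := by
  refine (Fintype.equivFinOfCardEq ?_).symm
  have h1 : Fintype.card {i : Fin m // i ≠ a ∧ i ≠ b} = ((univ.erase a).erase b).card := by
    rw [Fintype.card_subtype]
    congr 1
    ext i
    simp only [mem_filter, mem_univ, true_and, mem_erase, and_true]
    exact and_comm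
  rw [h1, Finset.card_erase_of_mem (Finset.mem_erase.mpr ⟨hab.symm, Finset.mem_univ _⟩),
    Finset.card_erase_of_mem (Finset.mem_univ _), Finset.card_univ, Fintype.card_fin]
  omega

end

end Pool.Agent.GM
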