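import Pool.Agent.GM.Harm
import Pool.Agent.M3.S3.EndA
import Pool.Agent.M3.RdPull

/-!
# GM/Harm2: HARM(2) from Theorem 3 of section 3 of `M3` (helper51)

`harmS_two : Fintype.card K = 2 → HarmS K (1/40)`, from `M3.S3.thm3A`.
`a`, `b` the two known vertices; the label `b` has the owner `a` (it depends on `y b` only through the cell), the label
`a` has the owner `b`.
* `HD.dat` : the data of Theorem 3; `thick`, `hyp3` : its hypotheses;
* `eqv` : the sample points; `pul_eqv` : the laws correspond;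
* `UT` : the system of classes: the class of Theorem 3 at `∅`, trivial otherwise; `mm_eq`, `uu_a`, `uu_b`, `ul_a`, `ul_b`,
  `ua_eq` : the conditional means of the digit; `exf_eq` : the product of the two experts is `poe`;
* `concl_of` : the conclusion;
* `harmW_of_harmS` : the weak form from the strong form (every `K`), `harmW_two`.
-/

set_option autoImplicit false
set_option linter.unusedSectionVars false
set_option linter.unusedVariables false

namespace Pool.Agent.GM.Harm

open Finset Pool.Agent.PWZ Pool.Agent.M3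
open Pool.Agent.M3.S3 (avg law ent)

noncomputable section

section two

variable {K X β γ φ : Type} [Fintype K] [DecidableEq K]

/-- two different known vertices, nothing else -/
structure Two (a b : K) : Prop where
  ne : b ≠ a
  cov : ∀ j, j = a ∨ j = b

/-- the known points from the two values -/
def pt (a : K) (p q : β) : K → β := fun j => if j = a then p else q

theorem pt_a (a : K) (p q : β) : pt a p q a = p := if_pos rfl

theorem pt_b {a b : K} (h : Two a b) (p q : β) : pt a p q b = q := if_neg h.ne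

theorem pt_eta {a b : K} (h : Two a b) (y : K → β) : pt a (y a) (y b) = y := by
  funext j
  rcases h.cov j with rfl | rfl
  · exact pt_a _ _ _
  · exact pt_b h _ _

theorem Two.univ {a b : K} (h : Two a b) : (univ : Finset K) = {a, b} := by
  ext j
  simp only [mem_univ, mem_insert, mem_singleton, true_iff]
  exact h.cov j

theorem Two.card {a b : K} (h : Two a b) : Fintype.card K = 2 := by
  rw [← Finset.card_univ, h.univ, Finset.card_pair h.ne.symm]

theorem exists_two (h : Fintype.card K = 2) : ∃ a b : K, Two a b := by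
  rw [← Finset.card_univ, Finset.card_eq_two] at h
  obtain ⟨a, b, hab, hu⟩ := h
  refine ⟨a, b, hab.symm, fun j => ?_⟩
  have := Finset.mem_univ j
  rw [hu] at this
  simpa using this

/-- the data of Theorem 3 -/
def HD.dat (D : HD K X β γ φ) {a b : K} (h2 : Two a b) : S3.Dat X β β γ φ where
  qa := D.qa
  qb := D.qb
  qc := D.qb
  kf t x p q := D.kf t b x (pt a p q)
  kg t x p q := D.kf t a x (pt a p q)
  ra := D.ra
  rb := D.rb
  rc := D.rb
  kf_c t x p q q' h := D.dep t b x _ _ (fun j hj => by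
    rcases h2.cov j with rfl | rfl
    · rw [pt_a, pt_a]
    · exact absurd rfl hj) (by rw [pt_b h2, pt_b h2]; exact h)
  kg_b t x p p' q h := D.dep t a x _ _ (fun j hj => by
    rcases h2.cov j with rfl | rfl
    · exact absurd rfl hj
    · rw [pt_b h2, pt_b h2]) (by rw [pt_a, pt_a]; exact h)

variable [Fintype X] [Fintype β] [Fintype φ] {D : HD K X β γ φ} {a b : K} (h2 : Two a b)

theorem dat_cA (t : ℕ) (x : X) : (D.dat h2).cA t x = D.cA t x := rfl
theorem dat_cB (t : ℕ) (p : β) : (D.dat h2).cB t p = D.cB t p := rfl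
theorem dat_cC (t : ℕ) (p : β) : (D.dat h2).cC t p = D.cB t p := rfl

theorem thick {al : ℝ} (h : D.Thick al) : (D.dat h2).Thick al where
  pos := h.pos
  f_nn := fun t x p q F => h.nn t b x _ F
  g_nn := fun t x p q F => h.nn t a x _ F
  f_one := fun t x p q => h.one t b x _
  g_one := fun t x p q => h.one t a x _
  f_thick := fun t x x' p q F hx hF => h.thick t b x x' _ F hx hF
  g_thick := fun t x x' p q F hx hF => h.thick t a x x' _ F hx hF

/-! ## the entropies -/

theorem avg_singleton {α : Type*} (p : α) (f : α → ℝ) : avg {p} f = f p := by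
  unfold avg
  simp

/-- box: cell of the hidden point, value of the first known point, cell of the second -/
def bxC (D : HD K X β γ φ) {a b : K} (h2 : Two a b) (s : ℕ) : S3.Bx X β β where
  V := fun x _ _ => (D.dat h2).cA s x
  B := fun _ p _ => {p}
  C := fun _ _ q => (D.dat h2).cC s q
  sV := fun x _ _ => (D.dat h2).self_cA s x
  sB := fun _ p _ => Finset.mem_singleton_self p
  sC := fun _ _ q => (D.dat h2).self_cC s q
  inv := fun x p q x' p' q' hx hp hq => by
    rw [Finset.mem_singleton] at hp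
    exact ⟨(D.dat h2).cA_congr ((D.dat h2).mem_cA.1 hx), by rw [hp], (D.dat h2).cC_congr ((D.dat h2).mem_cC.1 hq)⟩

/-- box: cell of the hidden point, cell of the first known point, value of the second -/
def bxB' (D : HD K X β γ φ) {a b : K} (h2 : Two a b) (s : ℕ) : S3.Bx X β β where
  V := fun x _ _ => (D.dat h2).cA s x
  B := fun _ p _ => (D.dat h2).cB s p
  C := fun _ _ q => {q}
  sV := fun x _ _ => (D.dat h2).self_cA s x
  sB := fun _ p _ => (D.dat h2).self_cB s p
  sC := fun _ _ q => Finset.mem_singleton_self q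
  inv := fun x p q x' p' q' hx hp hq => by
    rw [Finset.mem_singleton] at hq
    exact ⟨(D.dat h2).cA_congr ((D.dat h2).mem_cA.1 hx), (D.dat h2).cB_congr ((D.dat h2).mem_cB.1 hp), by rw [hq]⟩

include h2 in
theorem upd_b (p q q' : β) : Function.update (pt a p q) b q' = pt a p q' := by
  funext j
  rcases h2.cov j with rfl | rfl
  · rw [Function.update_of_ne h2.ne.symm, pt_a, pt_a]
  · rw [Function.update_self, pt_b h2]

include h2 in
theorem upd_a (p p' q : β) : Function.update (pt a p q) a p' = pt a p' q := by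
  funext j
  rcases h2.cov j with rfl | rfl
  · rw [Function.update_self, pt_a]
  · rw [Function.update_of_ne h2.ne, pt_b h2, pt_b h2]

include h2 in
theorem E3_mean_b (s : ℕ) (f : X → (K → β) → ℝ) :
    S3.E3 (fun x p q => f x (pt a p q)) = S3.E3 fun x p q => D.mean s b x (pt a p q) f := by
  rw [S3.E3_box (bxC D h2 s)]
  refine S3.E3_congr fun x p q => ?_
  show avg (D.cA s x) (fun x' => avg {p} fun p' => avg (D.cB s q) fun q' => f x' (pt a p' q')) =
    avg (D.cA s x) fun x' => avg (D.cB s (pt a p q b)) fun b' => f x' (Function.update (pt a p q) b b')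
  rw [pt_b h2]
  congr 1
  funext x'
  rw [avg_singleton]
  congr 1
  funext q'
  rw [upd_b h2]

include h2 in
theorem E3_mean_a (s : ℕ) (f : X → (K → β) → ℝ) :
    S3.E3 (fun x p q => f x (pt a p q)) = S3.E3 fun x p q => D.mean s a x (pt a p q) f := by
  rw [S3.E3_box (bxB' D h2 s)]
  refine S3.E3_congr fun x p q => ?_
  show avg (D.cA s x) (fun x' => avg (D.cB s p) fun p' => avg {q} fun q' => f x' (pt a p' q')) =
    avg (D.cA s x) fun x' => avg (D.cB s (pt a p q a)) fun b' => f x' (Function.update (pt a p q) a b')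
  rw [pt_a]
  congr 1
  funext x'
  congr 1
  funext p'
  rw [avg_singleton, upd_a h2]

variable [Nonempty X] [Nonempty β]

theorem E3_le {f : X → β → β → ℝ} {c : ℝ} (h : ∀ x p q, f x p q ≤ c) : S3.E3 f ≤ c := by
  have h1 := S3.E3_mono (f := f) (g := fun _ _ _ => c) h
  rwa [S3.E3_const] at h1

/-- THE HYPOTHESES OF THEOREM 3 -/
theorem hyp3 {dg : ℕ → X → ℝ} {pr : ℕ → K → φ → φ} {al : ℝ} {T : ℕ} {Lam : ℝ} (H : D.Hyp dg pr al T Lam) :
    S3.Hyp3 (D.dat h2) dg (fun t => pr t b) (fun t => pr t a) al T Lam where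
  Lam1 := H.Lam1
  alL := H.alL
  dg_val := H.dg_val
  dg_cell := H.dg_cell
  dg_bal := H.dg_bal
  halfB := H.half
  halfC := H.half
  kf_pr := fun t ht x p q F => H.kf_pr t ht b x _ F
  kg_pr := fun t ht x p q F => H.kf_pr t ht a x _ F
  Hf2 := by
    have h1 : S3.E3 (fun x p q => D.mean 0 b x (pt a p q) (fun x' y' => D.H 0 0 b x' y' +
        ∑ t ∈ Ico 0 T, (D.H (t + 1) (t + 1) b x' y' - D.H (t + 1) t b x' y'))) ≤ Lam :=
      E3_le fun x p q => H.H2 0 (Nat.zero_le _) b x _
    rw [← E3_mean_b h2 0] at h1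
    refine le_trans (le_of_eq ?_) h1
    rw [S3.E3_add, S3.E3_finsum]
    have h3 : S3.Hf (D.dat h2) 0 (fun x _ _ => (D.dat h2).cA 0 x) = S3.E3 (fun x p q => D.H 0 0 b x (pt a p q)) := rfl
    rw [h3]
    congr 1
    rw [Finset.range_eq_Ico]
    refine Finset.sum_congr rfl fun t _ => ?_
    rw [S3.E3_sub]
    rfl
  Hg2 := by
    have h1 : S3.E3 (fun x p q => D.mean 0 a x (pt a p q) (fun x' y' => D.H 0 0 a x' y' +
        ∑ t ∈ Ico 0 T, (D.H (t + 1) (t + 1) a x' y' - D.H (t + 1) t a x' y'))) ≤ Lam :=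
      E3_le fun x p q => H.H2 0 (Nat.zero_le _) a x _
    rw [← E3_mean_a h2 0] at h1
    refine le_trans (le_of_eq ?_) h1
    rw [S3.E3_add, S3.E3_finsum]
    have h3 : S3.Hg (D.dat h2) 0 (fun x _ _ => (D.dat h2).cA 0 x) = S3.E3 (fun x p q => D.H 0 0 a x (pt a p q)) := rfl
    rw [h3]
    congr 1
    rw [Finset.range_eq_Ico]
    refine Finset.sum_congr rfl fun t _ => ?_
    rw [S3.E3_sub]
    rfl
  cf3 := fun x p q => H.H3 b x _
  cg3 := fun x p q => H.H3 a x _

end two

/-! ## the laws -/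

section law2

variable {K X β γ φ : Type} [Fintype K] [DecidableEq K] [Fintype X] [Fintype β] [Fintype φ] [Nonempty X] [Nonempty β]
  {D : HD K X β γ φ} {a b : K} (h2 : Two a b) {al : ℝ} (h : D.Thick al)

/-- the sample points -/
def eqv : Pt K X β φ ≃ S3.Sp X β β φ where
  toFun w := (w.1, w.2.1 a, w.2.1 b, w.2.2 b, w.2.2 a)
  invFun q := (q.1, pt a q.2.1 q.2.2.1, pt a q.2.2.2.2 q.2.2.2.1)
  left_inv w := Prod.ext rfl (Prod.ext (pt_eta h2 w.2.1) (pt_eta h2 w.2.2))
  right_inv q := Prod.ext rfl (Prod.ext (pt_a _ _ _) (Prod.ext (pt_b h2 _ _) (Prod.ext (pt_b h2 _ _) (pt_a _ _ _))))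

theorem P_eqv (t : ℕ) (w : Pt K X β φ) : (D.P h t).p w = ((D.dat h2).kp (thick h2 h) t).P.p (eqv h2 w) := by
  show (∏ l, D.kf t l w.1 w.2.1 (w.2.2 l)) / (Fintype.card X * (Fintype.card β : ℝ) ^ Fintype.card K) =
    D.kf t b w.1 (pt a (w.2.1 a) (w.2.1 b)) (w.2.2 b) * D.kf t a w.1 (pt a (w.2.1 a) (w.2.1 b)) (w.2.2 a) /
      (Fintype.card X * (Fintype.card β * Fintype.card β))
  rw [pt_eta h2, h2.univ, Finset.prod_pair h2.ne.symm, h2.card, sq, mul_comm (D.kf t a _ _ _)]

theorem pul_eqv (t : ℕ) : Pul (D.P h t) ((D.dat h2).kp (thick h2 h) t).P (eqv h2) where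
  E := fun g => by
    unfold FP.E
    exact Fintype.sum_equiv (eqv h2) _ _ fun w => by rw [P_eqv h2 h t w]

/-! ## what the experts know -/

theorem nd_iff (t : ℕ) (v w : Pt K X β φ) : nd D t v = nd D t w ↔
    D.qa t v.1 = D.qa t w.1 ∧ ∀ j, D.qb t (v.2.1 j) = D.qb t (w.2.1 j) := by
  unfold nd
  rw [Prod.ext_iff]
  exact and_congr_right fun _ => ⟨fun h j => congrFun h j, fun h => funext h⟩

theorem some_iff {α : Type*} {p : Prop} [Decidable p] {x y : α} :
    ((if p then some x else none) = (if p then some y else none)) ↔ (p → x = y) := by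
  by_cases hp : p
  · rw [if_pos hp, if_pos hp, Option.some.injEq]
    exact ⟨fun h _ => h, fun h => h hp⟩
  · rw [if_neg hp, if_neg hp]
    exact ⟨fun _ h => absurd h hp, fun _ => rfl⟩

theorem eJ_iff {υ : Type} (U : Finset K → ℕ → X → (K → β) → υ) (t : ℕ) (J : Finset K) (v w : Pt K X β φ) :
    eJ D U t J v = eJ D U t J w ↔ (∀ j ∈ J, v.2.1 j = w.2.1 j) ∧ nd D t v = nd D t w ∧
      (∀ I, I ⊆ J → U I t v.1 v.2.1 = U I t w.1 w.2.1) ∧ ∀ l, univ.erase l ⊆ J → v.2.2 l = w.2.2 l := by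
  classical
  unfold eJ yJ
  refine Prod.mk_inj.trans (and_congr ?_ (Prod.mk_inj.trans (and_congr_right fun _ =>
    Prod.mk_inj.trans (and_congr ?_ ?_))))
  · constructor
    · intro h j hj
      exact congrFun h ⟨j, hj⟩
    · intro h
      funext j
      exact h j.1 j.2
  · constructor
    · intro h I
      exact some_iff.1 (congrFun h I)
    · intro h
      funext I
      exact some_iff.2 (h I)
  · constructor
    · intro h l
      exact some_iff.1 (congrFun h l)
    · intro h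
      funext l
      exact some_iff.2 (h l)

theorem eL_iff {υ : Type} (U : Finset K → ℕ → X → (K → β) → υ) (t : ℕ) (J : Finset K) (v w : Pt K X β φ) :
    eL D U t J v = eL D U t J w ↔ (∀ j ∈ J, v.2.1 j = w.2.1 j) ∧ nd D t v = nd D t w ∧
      (∀ I, I ⊂ J → U I t v.1 v.2.1 = U I t w.1 w.2.1) := by
  classical
  unfold eL yJ
  refine Prod.mk_inj.trans (and_congr ?_ (Prod.mk_inj.trans (and_congr_right fun _ => ?_)))
  · constructor
    · intro h j hj
      exact congrFun h ⟨j, hj⟩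
    · intro h
      funext j
      exact h j.1 j.2
  · constructor
    · intro h I
      exact some_iff.1 (congrFun h I)
    · intro h
      funext I
      exact some_iff.2 (h I)

theorem eA_iff {υ : Type} (U : Finset K → ℕ → X → (K → β) → υ) (t : ℕ) (v w : Pt K X β φ) :
    eA D U t v = eA D U t w ↔ v.2.1 = w.2.1 ∧ nd D t v = nd D t w ∧
      (∀ I, I ≠ univ → U I t v.1 v.2.1 = U I t w.1 w.2.1) ∧ v.2.2 = w.2.2 := by
  classical
  unfold eA
  refine Prod.mk_inj.trans (and_congr_right fun _ => Prod.mk_inj.trans (and_congr_right fun _ =>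
    Prod.mk_inj.trans (and_congr ?_ Iff.rfl)))
  constructor
  · intro h I
    exact some_iff.1 (congrFun h I)
  · intro h
    funext I
    exact some_iff.2 (h I)

/-! ## the classes -/

variable {U3 : ℕ → X → β → β → Finset X}

/-- the system: the class of Theorem 3 at `∅`, trivial otherwise -/
def UT (a b : K) (U3 : ℕ → X → β → β → Finset X) (I : Finset K) (t : ℕ) (x : X) (y : K → β) : Finset X :=
  if I = ∅ then U3 t x (y a) (y b) else ∅

theorem UT_empty (t : ℕ) (x : X) (y : K → β) : UT a b U3 ∅ t x y = U3 t x (y a) (y b) := if_pos rfl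

theorem UT_eq {p : Finset K → Prop} (hp : p ∅) (t : ℕ) (v w : Pt K X β φ) :
    (∀ I, p I → UT a b U3 I t v.1 v.2.1 = UT a b U3 I t w.1 w.2.1) ↔
      U3 t v.1 (v.2.1 a) (v.2.1 b) = U3 t w.1 (w.2.1 a) (w.2.1 b) := by
  constructor
  · intro h
    exact h ∅ hp
  · intro h I _
    unfold UT
    by_cases hI : I = ∅
    · rw [if_pos hI, if_pos hI]; exact h
    · rw [if_neg hI, if_neg hI]

include h2 in
theorem sysT (hV : S3.RefCl (D.dat h2) U3) : Sys D (UT a b U3) where
  dep I t x y y' _ hq := by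
    unfold UT
    by_cases hI : I = ∅
    · rw [if_pos hI, if_pos hI]
      exact (hV.pub t x (y a) (y b) x (y' a) (y' b) ⟨rfl, hq a, hq b⟩ (hV.self _ _ _ _)).symm
    · rw [if_neg hI, if_neg hI]
  ref I t x y x' y' _ ha hb hU := by
    unfold UT at hU ⊢
    by_cases hI : I = ∅
    · rw [if_pos hI, if_pos hI] at hU ⊢
      have h3 := hV.self (t + 1) x (y a) (y b)
      rw [hU] at h3
      exact hV.pub t _ _ _ _ _ _ ⟨(D.ra t _ _ ha).symm, (D.rb t _ _ (hb a)).symm, (D.rb t _ _ (hb b)).symm⟩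
        (hV.ref t _ _ _ h3)
    · rw [if_neg hI, if_neg hI]

/-! ## the conditional means -/

theorem nd3_iff (t : ℕ) (v w : Pt K X β φ) : S3.nd (D.dat h2) U3 t (eqv h2 v) = S3.nd (D.dat h2) U3 t (eqv h2 w) ↔
    nd D t v = nd D t w ∧ U3 t v.1 (v.2.1 a) (v.2.1 b) = U3 t w.1 (w.2.1 a) (w.2.1 b) := by
  rw [nd_iff]
  unfold S3.nd
  rw [Prod.ext_iff, Prod.ext_iff, Prod.ext_iff]
  constructor
  · rintro ⟨h1, h3, h4, h5⟩
    refine ⟨⟨h1, fun j => ?_⟩, h5⟩
    rcases h2.cov j with rfl | rfl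
    · exact h3
    · exact h4
  · rintro ⟨⟨h1, h3⟩, h5⟩
    exact ⟨h1, h3 a, h3 b, h5⟩

/-- transport of a conditional mean -/
theorem ce_eqv {κ κ' : Type*} {t : ℕ} {Y : Pt K X β φ → κ} {Z : S3.Sp X β β φ → κ'}
    (hY : ∀ v w, Y v = Y w ↔ Z (eqv h2 v) = Z (eqv h2 w)) (f : X → ℝ) (w : Pt K X β φ) :
    (D.P h t).ce Y (fun v => f v.1) w =
      ((D.dat h2).kp (thick h2 h) t).P.ce Z (fun v => f v.1) (eqv h2 w) := by
  rw [(D.P h t).ce_congr_map (Y := fun v => Z (eqv h2 v)) (fun v w hv => (hY v w).1 hv) (fun v w hv => (hY v w).2 hv)]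
  exact (pul_eqv h2 h t).ce Z (fun v => f v.1) w

variable (dg : ℕ → X → ℝ)

include h2 in
theorem erase_card (l : K) : (univ.erase l : Finset K).card = 1 := by
  rw [Finset.card_erase_of_mem (mem_univ l), Finset.card_univ, h2.card]

include h2 in
theorem erase_sub_empty (l : K) : ¬ (univ.erase l : Finset K) ⊆ ∅ := by
  intro hs
  have h1 := erase_card h2 l
  rw [Finset.subset_empty.1 hs] at h1
  simp at h1

include h2 in
theorem erase_b : (univ.erase b : Finset K) = {a} := by
  ext j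
  simp only [mem_erase, mem_univ, and_true, mem_singleton]
  constructor
  · intro hj
    exact (h2.cov j).resolve_right hj
  · rintro rfl
    exact h2.ne.symm

include h2 in
theorem erase_a : (univ.erase a : Finset K) = {b} := by
  ext j
  simp only [mem_erase, mem_univ, and_true, mem_singleton]
  constructor
  · intro hj
    exact (h2.cov j).resolve_left hj
  · rintro rfl
    exact h2.ne

theorem mm_eq (t : ℕ) (w : Pt K X β φ) : mm (UT a b U3) h dg t w = S3.m3 (thick h2 h) dg U3 t (eqv h2 w) := by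
  refine ce_eqv h2 h (fun v w => ?_) (dg t) w
  rw [eJ_iff, nd3_iff, UT_eq (p := fun I => I ⊆ ∅) (Finset.Subset.refl _)]
  constructor
  · rintro ⟨-, h1, h3, -⟩
    exact ⟨h1, h3⟩
  · rintro ⟨h1, h3⟩
    exact ⟨fun j hj => absurd hj (Finset.notMem_empty j), h1, h3, fun l hl => absurd hl (erase_sub_empty h2 l)⟩

theorem uu_a (t : ℕ) (w : Pt K X β φ) : uu (UT a b U3) h dg {a} t w = S3.x3 (thick h2 h) dg U3 t (eqv h2 w) := by
  refine ce_eqv h2 h (Z := fun v => (S3.xF v, S3.nd (D.dat h2) U3 t v)) (fun v w => ?_) (dg t) w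
  refine (eJ_iff _ t _ v w).trans (Iff.trans ?_ Prod.mk_inj.symm)
  rw [nd3_iff, UT_eq (p := fun I => I ⊆ {a}) (Finset.empty_subset _)]
  constructor
  · rintro ⟨h0, h1, h3, h4⟩
    exact ⟨Prod.ext (h4 b (by rw [erase_b h2])) (h0 a (Finset.mem_singleton_self a)), h1, h3⟩
  · rintro ⟨h0, h1, h3⟩
    refine ⟨fun j hj => ?_, h1, h3, fun l hl => ?_⟩
    · rw [Finset.mem_singleton.1 hj]
      exact congrArg Prod.snd h0
    · rcases h2.cov l with rfl | rfl
      · rw [erase_a h2, Finset.singleton_subset_singleton] at hl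
        exact absurd hl h2.ne
      · exact congrArg Prod.fst h0

theorem uu_b (t : ℕ) (w : Pt K X β φ) : uu (UT a b U3) h dg {b} t w = S3.y3 (thick h2 h) dg U3 t (eqv h2 w) := by
  refine ce_eqv h2 h (Z := fun v => (S3.xG v, S3.nd (D.dat h2) U3 t v)) (fun v w => ?_) (dg t) w
  refine (eJ_iff _ t _ v w).trans (Iff.trans ?_ Prod.mk_inj.symm)
  rw [nd3_iff, UT_eq (p := fun I => I ⊆ {b}) (Finset.empty_subset _)]
  constructor
  · rintro ⟨h0, h1, h3, h4⟩
    exact ⟨Prod.ext (h4 a (by rw [erase_a h2])) (h0 b (Finset.mem_singleton_self b)), h1, h3⟩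
  · rintro ⟨h0, h1, h3⟩
    refine ⟨fun j hj => ?_, h1, h3, fun l hl => ?_⟩
    · rw [Finset.mem_singleton.1 hj]
      exact congrArg Prod.snd h0
    · rcases h2.cov l with rfl | rfl
      · exact congrArg Prod.fst h0
      · rw [erase_b h2, Finset.singleton_subset_singleton] at hl
        exact absurd hl h2.ne.symm

theorem ua_eq (t : ℕ) (w : Pt K X β φ) : ua (UT a b U3) h dg t w = S3.z3 (thick h2 h) dg U3 t (eqv h2 w) := by
  refine ce_eqv h2 h (Z := fun v => (S3.xF v, S3.xG v, S3.nd (D.dat h2) U3 t v)) (fun v w => ?_) (dg t) w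
  have hne : (∅ : Finset K) ≠ univ := by
    intro h3
    have := Finset.mem_univ a
    rw [← h3] at this
    exact absurd this (Finset.notMem_empty a)
  refine (eA_iff _ t v w).trans (Iff.trans ?_ (Prod.mk_inj.trans (and_congr_right fun _ => Prod.mk_inj)).symm)
  rw [nd3_iff, UT_eq (p := fun I => I ≠ univ) hne]
  constructor
  · rintro ⟨h0, h1, h3, h4⟩
    exact ⟨Prod.ext (congrFun h4 b) (congrFun h0 a), Prod.ext (congrFun h4 a) (congrFun h0 b), h1, h3⟩
  · rintro ⟨h0, h0', h1, h3⟩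
    refine ⟨funext fun j => ?_, h1, h3, funext fun l => ?_⟩
    · rcases h2.cov j with rfl | rfl
      · exact congrArg Prod.snd h0
      · exact congrArg Prod.snd h0'
    · rcases h2.cov l with rfl | rfl
      · exact congrArg Prod.fst h0'
      · exact congrArg Prod.fst h0

/-- class, value of the first known point, cell of the second -/
def bxUa (hV : S3.RefCl (D.dat h2) U3) (t : ℕ) : S3.Bx X β β where
  V := U3 t
  B := fun _ p _ => {p}
  C := fun _ _ q => (D.dat h2).cC t q
  sV := hV.self t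
  sB := fun _ p _ => Finset.mem_singleton_self p
  sC := fun _ _ q => (D.dat h2).self_cC t q
  inv := fun x p q x' p' q' hx hp hq => by
    rw [Finset.mem_singleton] at hp
    refine ⟨?_, by rw [hp], (D.dat h2).cC_congr ((D.dat h2).mem_cC.1 hq)⟩
    exact hV.pub t x p q x' p' q' ⟨((D.dat h2).mem_cA.1 (hV.cell t x p q hx)).symm, by rw [hp],
      ((D.dat h2).mem_cC.1 hq).symm⟩ hx

/-- class, cell of the first known point, value of the second -/
def bxUb (hV : S3.RefCl (D.dat h2) U3) (t : ℕ) : S3.Bx X β β where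
  V := U3 t
  B := fun _ p _ => (D.dat h2).cB t p
  C := fun _ _ q => {q}
  sV := hV.self t
  sB := fun _ p _ => (D.dat h2).self_cB t p
  sC := fun _ _ q => Finset.mem_singleton_self q
  inv := fun x p q x' p' q' hx hp hq => by
    rw [Finset.mem_singleton] at hq
    refine ⟨?_, (D.dat h2).cB_congr ((D.dat h2).mem_cB.1 hp), by rw [hq]⟩
    exact hV.pub t x p q x' p' q' ⟨((D.dat h2).mem_cA.1 (hV.cell t x p q hx)).symm,
      ((D.dat h2).mem_cB.1 hp).symm, by rw [hq]⟩ hx

theorem m3_avg (hV : S3.RefCl (D.dat h2) U3) (t : ℕ) (w : S3.Sp X β β φ) :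
    S3.m3 (thick h2 h) dg U3 t w = avg (U3 t w.1 w.2.1 w.2.2.1) (dg t) := by
  rw [S3.m3_eq (thick h2 h) hV]
  exact S3.FA.ce_pt ((D.dat h2).kp (thick h2 h) t) (dg t) w

theorem sub_a {I : Finset K} (c : K) : I ⊂ {c} ↔ I = ∅ := Finset.ssubset_singleton_iff

theorem ul_a (hV : S3.RefCl (D.dat h2) U3) (t : ℕ) (w : Pt K X β φ) :
    ul (UT a b U3) h dg {a} t w = mm (UT a b U3) h dg t w := by
  rw [mm_eq h2 h dg, m3_avg h2 h dg hV]
  have h1 := ce_eqv h2 h (t := t) (Y := eL D (UT a b U3) t {a}) (Z := (bxUa h2 hV t).map) (fun v w => ?_) (dg t) w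
  · exact h1.trans (S3.FA.ce_pt ((D.dat h2).kp (thick h2 h) t) (dg t) (eqv h2 w))
  · rw [eL_iff, UT_eq (p := fun I => I ⊂ {a}) ((sub_a a).2 rfl), S3.Bx.map_eq, nd_iff]
    constructor
    · rintro ⟨h0, h3, h4⟩
      refine ⟨?_, Finset.mem_singleton.2 (h0 a (Finset.mem_singleton_self a)), (D.dat h2).mem_cC.2 (h3.2 b)⟩
      have h5 := hV.self t v.1 (v.2.1 a) (v.2.1 b)
      rw [h4] at h5
      exact h5
    · rintro ⟨h3, h4, h5⟩
      have e1 : v.2.1 a = w.2.1 a := Finset.mem_singleton.1 h4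
      have e2 : D.qa t v.1 = D.qa t w.1 := (D.dat h2).mem_cA.1 (hV.cell t _ _ _ h3)
      have e3 : D.qb t (v.2.1 b) = D.qb t (w.2.1 b) := (D.dat h2).mem_cC.1 h5
      refine ⟨fun j hj => by rw [Finset.mem_singleton.1 hj]; exact e1, ⟨e2, fun j => ?_⟩, ?_⟩
      · rcases h2.cov j with rfl | rfl
        · rw [e1]
        · exact e3
      · exact hV.pub t _ _ _ _ _ _ ⟨e2.symm, by rw [e1], e3.symm⟩ h3

theorem ul_b (hV : S3.RefCl (D.dat h2) U3) (t : ℕ) (w : Pt K X β φ) :
    ul (UT a b U3) h dg {b} t w = mm (UT a b U3) h dg t w := by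
  rw [mm_eq h2 h dg, m3_avg h2 h dg hV]
  have h1 := ce_eqv h2 h (t := t) (Y := eL D (UT a b U3) t {b}) (Z := (bxUb h2 hV t).map) (fun v w => ?_) (dg t) w
  · exact h1.trans (S3.FA.ce_pt ((D.dat h2).kp (thick h2 h) t) (dg t) (eqv h2 w))
  · rw [eL_iff, UT_eq (p := fun I => I ⊂ {b}) ((sub_a b).2 rfl), S3.Bx.map_eq, nd_iff]
    constructor
    · rintro ⟨h0, h3, h4⟩
      refine ⟨?_, (D.dat h2).mem_cB.2 (h3.2 a), Finset.mem_singleton.2 (h0 b (Finset.mem_singleton_self b))⟩
      have h5 := hV.self t v.1 (v.2.1 a) (v.2.1 b)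
      rw [h4] at h5
      exact h5
    · rintro ⟨h3, h4, h5⟩
      have e1 : v.2.1 b = w.2.1 b := Finset.mem_singleton.1 h5
      have e2 : D.qa t v.1 = D.qa t w.1 := (D.dat h2).mem_cA.1 (hV.cell t _ _ _ h3)
      have e3 : D.qb t (v.2.1 a) = D.qb t (w.2.1 a) := (D.dat h2).mem_cB.1 h4
      refine ⟨fun j hj => by rw [Finset.mem_singleton.1 hj]; exact e1, ⟨e2, fun j => ?_⟩, ?_⟩
      · rcases h2.cov j with rfl | rfl
        · exact e3
        · rw [e1]
      · exact hV.pub t _ _ _ _ _ _ ⟨e2.symm, e3.symm, by rw [e1]⟩ h3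

end law2

/-! ## the product of two experts -/

section ex2

theorem ex_pair {α : Type*} [DecidableEq α] {A B : α} (hAB : A ≠ B) {m : ℝ} {u u' : α → ℝ} (hm : |m| < 1)
    (hA : u' A = m) (hB : u' B = m) (ht : (1 - m ^ 2) + (u A - m) * (u B - m) ≠ 0) :
    ex m {A, B} u u' = poe m (u A) (u B) := by
  obtain ⟨m1, m2⟩ := abs_lt.mp hm
  have h1 := poe_mul_add ht
  have h2 := poe_mul_sub ht
  have hp : (1 + m) ≠ 0 := by linarith
  have hn : (1 - m) ≠ 0 := by linarith
  set x := u A
  set y := u B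
  set t := (1 - m ^ 2) + (x - m) * (y - m) with htd
  have e1 : Rp m {A, B} u u' = (1 + poe m x y) * (t / ((1 + m) * (1 - m))) := by
    unfold Rp
    rw [Finset.prod_pair hAB, hA, hB]
    have : (1 + m) * ((1 + x) / (1 + m) * ((1 + y) / (1 + m))) = (1 + x) * (1 + y) * (1 - m) / ((1 + m) * (1 - m)) := by
      field_simp
    rw [this, ← h1, mul_div_assoc]
  have e2 : Rm m {A, B} u u' = (1 - poe m x y) * (t / ((1 + m) * (1 - m))) := by
    unfold Rm
    rw [Finset.prod_pair hAB, hA, hB]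
    have : (1 - m) * ((1 - x) / (1 - m) * ((1 - y) / (1 - m))) = (1 - x) * (1 - y) * (1 + m) / ((1 + m) * (1 - m)) := by
      field_simp
    rw [this, ← h2, mul_div_assoc]
  have hc : t / ((1 + m) * (1 - m)) ≠ 0 := div_ne_zero ht (mul_ne_zero hp hn)
  unfold ex
  rw [e1, e2]
  have e3 : (1 + poe m x y) * (t / ((1 + m) * (1 - m))) - (1 - poe m x y) * (t / ((1 + m) * (1 - m))) =
      poe m x y * (2 * (t / ((1 + m) * (1 - m)))) := by ring
  have e4 : (1 + poe m x y) * (t / ((1 + m) * (1 - m))) + (1 - poe m x y) * (t / ((1 + m) * (1 - m))) =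
      2 * (t / ((1 + m) * (1 - m))) := by ring
  rw [e3, e4]
  exact mul_div_cancel_right₀ _ (mul_ne_zero two_ne_zero hc)

end ex2

section concl

variable {K X β γ φ : Type} [Fintype K] [DecidableEq K] [Fintype X] [Fintype β] [Fintype φ] [Nonempty X] [Nonempty β]
  {D : HD K X β γ φ} {a b : K} (h2 : Two a b) {al : ℝ} (h : D.Thick al) (dg : ℕ → X → ℝ)
  {U3 : ℕ → X → β → β → Finset X}

include h2 in
theorem SS_two : SS K = {{a}, {b}} := by
  ext J
  unfold SS
  rw [Finset.mem_filter, Finset.mem_insert, Finset.mem_singleton]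
  constructor
  · rintro ⟨-, ⟨j, hj⟩, hJ⟩
    by_cases ha : a ∈ J
    · left
      have hb : b ∉ J := by
        intro hb
        refine hJ (Finset.eq_univ_iff_forall.2 fun l => ?_)
        rcases h2.cov l with rfl | rfl
        · exact ha
        · exact hb
      ext l
      rw [Finset.mem_singleton]
      constructor
      · intro hl
        rcases h2.cov l with h3 | rfl
        · exact h3
        · exact absurd hl hb
      · rintro rfl
        exact ha
    · right
      ext l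
      rw [Finset.mem_singleton]
      constructor
      · intro hl
        rcases h2.cov l with rfl | h3
        · exact absurd hl ha
        · exact h3
      · rintro rfl
        rcases h2.cov j with rfl | rfl
        · exact absurd hj ha
        · exact hj
  · have hne : ∀ c d : K, d ≠ c → ({c} : Finset K) ≠ univ := by
      intro c d hcd h3
      have := Finset.mem_univ d
      rw [← h3, Finset.mem_singleton] at this
      exact hcd this
    rintro (rfl | rfl)
    · exact ⟨mem_univ _, Finset.singleton_nonempty a, hne a b h2.ne⟩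
    · exact ⟨mem_univ _, Finset.singleton_nonempty b, hne b a h2.ne.symm⟩

theorem ul_eq (hV : S3.RefCl (D.dat h2) U3) {J : Finset K} (hJ : J ∈ SS K) (t : ℕ) (w : Pt K X β φ) :
    ul (UT a b U3) h dg J t w = mm (UT a b U3) h dg t w := by
  rw [SS_two h2, Finset.mem_insert, Finset.mem_singleton] at hJ
  rcases hJ with rfl | rfl
  · exact ul_a h2 h dg hV t w
  · exact ul_b h2 h dg hV t w

theorem exf_eq (hV : S3.RefCl (D.dat h2) U3) (hd : ∀ t x, dg t x = 1 ∨ dg t x = -1) (t : ℕ) {w : Pt K X β φ}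
    (hw : (D.P h t).p w ≠ 0) (hm : |mm (UT a b U3) h dg t w| ≤ 1 / 2) :
    exf (SS K) (mm (UT a b U3) h dg) (uu (UT a b U3) h dg) (ul (UT a b U3) h dg) t w =
      poe (S3.m3 (thick h2 h) dg U3 t (eqv h2 w)) (S3.x3 (thick h2 h) dg U3 t (eqv h2 w))
        (S3.y3 (thick h2 h) dg U3 t (eqv h2 w)) := by
  have hD : ∀ v : Pt K X β φ, (D.P h t).p v ≠ 0 → dg t v.1 = 1 ∨ dg t v.1 = -1 := fun v _ => hd t v.1
  have hab : ({a} : Finset K) ≠ {b} := fun h3 => h2.ne (Finset.singleton_injective h3).symm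
  rw [← mm_eq h2 h dg, ← uu_a h2 h dg, ← uu_b h2 h dg]
  unfold exf
  rw [SS_two h2]
  have hx := (D.P h t).digit_pos hD (eJ D (UT a b U3) t {a}) hw
  have hy := (D.P h t).digit_pos hD (eJ D (UT a b U3) t {b}) hw
  have hx1 : |uu (UT a b U3) h dg {a} t w| ≤ 1 := (D.P h t).abs_ce_le_one (fun v hv => by
    rcases hD v hv with h3 | h3 <;> rw [h3] <;> norm_num) _ w
  have hy1 : |uu (UT a b U3) h dg {b} t w| ≤ 1 := (D.P h t).abs_ce_le_one (fun v hv => by
    rcases hD v hv with h3 | h3 <;> rw [h3] <;> norm_num) _ w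
  have hm1 : |mm (UT a b U3) h dg t w| < 1 := lt_of_le_of_lt hm (by norm_num)
  have hz := zf_pos hm1 hx1 hy1 (by
    rcases hD w hw with h3 | h3
    · left
      rw [h3, one_mul] at hx hy
      exact ⟨hx, hy⟩
    · right
      rw [h3, neg_one_mul, ← sub_eq_add_neg] at hx hy
      exact ⟨hx, hy⟩)
  have hden : 0 < 1 - mm (UT a b U3) h dg t w ^ 2 := by
    have := abs_lt.mp hm1
    nlinarith
  refine ex_pair hab hm1 (ul_a h2 h dg hV t w) (ul_b h2 h dg hV t w) ?_
  rw [← zf_mul hm1]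
  exact (mul_pos hden hz).ne'

/-- THE CONCLUSION of HARM(2) from the conclusion of Theorem 3 -/
theorem concl_of (pr : ℕ → K → φ → φ) {T : ℕ} {Lam n κ : ℝ} {C : ℕ} (hd : ∀ t x, dg t x = 1 ∨ dg t x = -1)
    (H : S3.Concl3 (thick h2 h) dg T Lam n κ C U3) {B e : ℝ} (hB1 : (C : ℝ) * n * Lam ^ C ≤ B) (hB2 : (C : ℝ) * Lam ≤ B)
    (he0 : 0 ≤ e) (he : (C : ℝ) * Lam ^ C * n ^ (-κ) ≤ e) :
    Concl (UT a b U3) h dg pr T B e (fun t w => |mm (UT a b U3) h dg t w| ≤ 1 / 2) (fun _ _ => False) := by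
  have hV := H.ref
  have em : ∀ t, (D.P h t).E (fun w => mm (UT a b U3) h dg t w ^ 2) =
      ((D.dat h2).kp (thick h2 h) t).P.E (fun w => S3.m3 (thick h2 h) dg U3 t w ^ 2) := fun t => by
    rw [← (pul_eqv h2 h t).E]
    exact FP.E_congr _ fun w _ => by rw [mm_eq h2 h dg]
  have hm2 : ∑ t ∈ range T, (D.P h t).E (fun w => mm (UT a b U3) h dg t w ^ 2) ≤ B := by
    rw [Finset.sum_congr rfl fun t _ => em t]
    exact H.m2.trans hB1
  exact
  { sys := sysT h2 hV
    m2 := hm2
    u2 := by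
      intro J hJ
      have hJ' := hJ
      rw [SS_two h2, Finset.mem_insert, Finset.mem_singleton] at hJ'
      rcases hJ' with rfl | rfl
      · refine le_trans (le_of_eq ?_) (H.x2.trans hB2)
        refine Finset.sum_congr rfl fun t _ => ?_
        rw [← (pul_eqv h2 h t).E]
        exact FP.E_congr _ fun w _ => by rw [uu_a h2 h dg, ul_a h2 h dg hV, mm_eq h2 h dg]
      · refine le_trans (le_of_eq ?_) (H.y2.trans hB2)
        refine Finset.sum_congr rfl fun t _ => ?_
        rw [← (pul_eqv h2 h t).E]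
        exact FP.E_congr _ fun w _ => by rw [uu_b h2 h dg, ul_b h2 h dg hV, mm_eq h2 h dg]
    l2 := by
      intro J hJ
      refine le_trans (le_of_eq ?_) hm2
      refine Finset.sum_congr rfl fun t _ => FP.E_congr _ fun w _ => ?_
      rw [ul_eq h2 h dg hV hJ]
    Gm := by
      intro t _ v w hvw
      have h1 : mm (UT a b U3) h dg t v = mm (UT a b U3) h dg t w := by
        refine (D.P h t).ce_fac _ _ v w ?_
        rw [eA_iff] at hvw
        rw [eJ_iff]
        refine ⟨fun j hj => absurd hj (Finset.notMem_empty j), hvw.2.1, fun I hI => hvw.2.2.1 I fun h3 => ?_,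
          fun l hl => absurd hl (erase_sub_empty h2 l)⟩
        rw [h3] at hI
        exact absurd (hI (mem_univ a)) (Finset.notMem_empty a)
      rw [h1]
    Gl := by
      intro t _ w hG J hJ
      rw [ul_eq h2 h dg hV hJ]
      exact hG
    Gd := by
      intro t _ w _ _ hJ
      have hJa : ({a} : Finset K) ∈ SS K := by
        rw [SS_two h2]
        exact Finset.mem_insert_self _ _
      have h1 := hJ {a} hJa
      rwa [ul_eq h2 h dg hV hJa] at h1
    inc := fun t _ x y F hf => hf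
    dq := by
      refine le_trans (le_of_eq ?_) he0
      unfold FP.Pr
      rw [← (D.P h T).E_const 0]
      exact FP.E_congr _ fun w _ => ind_not not_false
    syn := by
      refine le_trans (le_of_eq ?_) (H.syn.trans he)
      refine Finset.sum_congr rfl fun t _ => ?_
      rw [← (pul_eqv h2 h t).E]
      refine FP.E_congr _ fun w hw => ?_
      show ind (|mm (UT a b U3) h dg t w| ≤ 1 / 2) * _ = _
      by_cases hm : |mm (UT a b U3) h dg t w| ≤ 1 / 2
      · rw [exf_eq h2 h dg hV hd t hw hm, ua_eq h2 h dg, mm_eq h2 h dg]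
      · rw [ind_not hm, zero_mul, ind_not (by rwa [mm_eq h2 h dg] at hm), zero_mul] }

end concl

/-! ## HARM(2) -/

/-- `C Lam^C ≤ (2 Lam)^C` -/
theorem C_pow_le {C : ℕ} {Lam : ℝ} (hL : 1 ≤ Lam) : (C : ℝ) * Lam ^ C ≤ (2 * Lam) ^ C := by
  rw [mul_pow]
  refine mul_le_mul_of_nonneg_right ?_ (by positivity)
  exact_mod_cast (Nat.lt_two_pow_self (n := C)).le

/-- **HARM(2), STRONG FORM** -/
theorem harmS_of_thm3 {κ : ℝ} (h3 : S3.Thm3 κ) (K : Type) [Fintype K] [DecidableEq K] (hK : Fintype.card K = 2) :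
    HarmS K κ := by
  obtain ⟨a, b, h2⟩ := exists_two hK
  obtain ⟨C, hC⟩ := h3
  refine ⟨C + 2, ?_⟩
  intro X β γ φ _ _ _ _ _ D al h dg pr T Lam N H hN
  have hL := H.Lam1
  have hL2 : 1 ≤ 2 * Lam := by linarith
  have hN1 : (2 * Lam) ^ C ≤ N := (pow_le_pow_right₀ hL2 (Nat.le_add_right C 2)).trans hN
  have hNge : 1 ≤ N := (one_le_pow₀ hL2).trans hN1
  have hN0 : 0 < N := lt_of_lt_of_le one_pos hNge
  obtain ⟨U3, hU⟩ := hC X β β γ φ (D.dat h2) al (thick h2 h) dg (fun t => pr t b) (fun t => pr t a) T Lam N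
    (hyp3 h2 H) hN1
  refine ⟨Finset X, UT a b U3, _, _, concl_of h2 h dg pr H.dg_val hU ?_ ?_ ?_ ?_⟩
  · have h1 : (C : ℝ) * N * Lam ^ C ≤ N * N := by
      have := mul_le_mul_of_nonneg_left ((C_pow_le hL).trans hN1) hN0.le
      linarith
    have h4 : N * N = N ^ 2 := (sq N).symm
    rw [h4] at h1
    exact h1.trans (pow_le_pow_right₀ hNge (Nat.le_add_left 2 C))
  · rcases Nat.eq_zero_or_pos C with h0 | h0
    · rw [h0, Nat.cast_zero, zero_mul]
      positivity
    · have h1 : (C : ℝ) * Lam ≤ (C : ℝ) * Lam ^ C :=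
        mul_le_mul_of_nonneg_left (le_self_pow₀ hL h0.ne') (Nat.cast_nonneg C)
      exact (h1.trans ((C_pow_le hL).trans hN1)).trans (le_self_pow₀ hNge (by omega))
  · have := Real.rpow_nonneg hN0.le (-κ)
    positivity
  · refine mul_le_mul_of_nonneg_right ?_ (Real.rpow_nonneg hN0.le _)
    refine mul_le_mul ?_ (pow_le_pow_right₀ hL (Nat.le_add_right C 2)) (by positivity) (Nat.cast_nonneg _)
    push_cast
    linarith

/-- **HARM(2)** -/
theorem harmS_two (K : Type) [Fintype K] [DecidableEq K] (hK : Fintype.card K = 2) : HarmS K (1 / 40) :=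
  harmS_of_thm3 S3.thm3A K hK

/-! ## the weak form from the strong form -/

section weak

variable {K X β γ φ υ : Type} [Fintype K] [DecidableEq K] [Fintype X] [Fintype β] [Fintype φ] [Nonempty X] [Nonempty β]
  {D : HD K X β γ φ} {U : Finset K → ℕ → X → (K → β) → υ} {al : ℝ} {h : D.Thick al} {dg : ℕ → X → ℝ}

theorem Concl.mono {pr : ℕ → K → φ → φ} {T : ℕ} {B B' e e' : ℝ} {G dd : ℕ → Pt K X β φ → Prop}
    (H : Concl U h dg pr T B e G dd) (hB : B ≤ B') (he : e ≤ e') : Concl U h dg pr T B' e' G dd where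
  sys := H.sys
  m2 := H.m2.trans hB
  u2 := fun J hJ => (H.u2 J hJ).trans hB
  l2 := fun J hJ => (H.l2 J hJ).trans hB
  Gm := H.Gm
  Gl := H.Gl
  Gd := H.Gd
  inc := H.inc
  dq := H.dq.trans he
  syn := H.syn.trans he

theorem one_lt_log {Lam : ℝ} (h : 2 ≤ Lam) : (5 / 4 : ℝ) ≤ Real.log (2 * Lam) := by
  have h1 : (4 : ℝ) ≤ 2 * Lam := by linarith
  have h2 : Real.log 4 = 2 * Real.log 2 := by
    rw [show (4 : ℝ) = 2 ^ 2 by norm_num, Real.log_pow]
    norm_num
  have h3 := Real.log_two_gt_d9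
  have h4 := Real.log_le_log (by norm_num : (0 : ℝ) < 4) h1
  linarith

/-- **HARM(K), weak form, from the strong form** -/
theorem harmW_of_harmS {K : Type} [Fintype K] [DecidableEq K] {κ : ℝ} (hκ : 0 < κ) (h : HarmS K κ) : HarmW K := by
  obtain ⟨C, hC⟩ := h
  obtain ⟨M, hM⟩ := exists_nat_ge (((C : ℝ) + 1) / κ + C)
  have hM1 : (C : ℝ) + 1 ≤ κ * M := by
    have h1 : ((C : ℝ) + 1) / κ ≤ M := by
      have : (0 : ℝ) ≤ C := Nat.cast_nonneg C
      linarith
    rw [div_le_iff₀ hκ] at h1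
    linarith
  have hM2 : C ≤ M := by
    have h1 : 0 ≤ ((C : ℝ) + 1) / κ := by positivity
    exact_mod_cast (show (C : ℝ) ≤ M by linarith)
  obtain ⟨q, hq⟩ := pow_unbounded_of_one_lt ((M * C : ℕ) : ℝ) (by norm_num : (1 : ℝ) < 5 / 4)
  refine ⟨q + 1, ?_⟩
  intro X β γ φ _ _ _ _ _ D al h dg pr T Lam H hL
  have hL0 : 0 < Lam := by linarith
  have hL1 : 1 ≤ 2 * Lam := by linarith
  have hL2 : 0 < 2 * Lam := by linarith
  obtain ⟨υ, U, G, dd, hU⟩ := hC X β γ φ D al h dg pr T Lam ((2 * Lam) ^ M) H (pow_le_pow_right₀ hL1 hM2)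
  refine ⟨υ, U, G, dd, hU.mono ?_ ?_⟩
  · -- bits
    have hlog := one_lt_log hL
    have hlog0 : 0 < Real.log (2 * Lam) := by linarith
    have h1 : ((2 * Lam) ^ M) ^ C = Real.exp (((M * C : ℕ) : ℝ) * Real.log (2 * Lam)) := by
      rw [← pow_mul, ← Real.rpow_natCast, Real.rpow_def_of_pos hL2]
      congr 1
      ring
    rw [h1]
    refine Real.exp_le_exp.2 ?_
    rw [pow_succ]
    refine mul_le_mul_of_nonneg_right ?_ hlog0.le
    exact hq.le.trans (pow_le_pow_left₀ (by norm_num) hlog q)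
  · -- error
    have h1 : ((2 * Lam) ^ M) ^ (-κ) = (2 * Lam) ^ (-(κ * M)) := by
      rw [← Real.rpow_natCast, ← Real.rpow_mul hL2.le]
      congr 1
      ring
    have h2 : (C : ℝ) * Lam ^ C ≤ (2 * Lam) ^ C := C_pow_le (by linarith)
    rw [h1]
    calc (C : ℝ) * Lam ^ C * (2 * Lam) ^ (-(κ * M)) ≤ (2 * Lam) ^ C * (2 * Lam) ^ (-(κ * M)) :=
          mul_le_mul_of_nonneg_right h2 (Real.rpow_nonneg hL2.le _)
      _ = (2 * Lam) ^ ((C : ℝ) + -(κ * M)) := by
          rw [Real.rpow_add hL2, Real.rpow_natCast]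
      _ ≤ (2 * Lam) ^ (-1 : ℝ) := Real.rpow_le_rpow_of_exponent_le hL1 (by linarith)
      _ = (2 * Lam)⁻¹ := Real.rpow_neg_one _
      _ ≤ Lam⁻¹ := inv_anti₀ hL0 (by linarith)

end weak

/-- **HARM(2), WEAK FORM** -/
theorem harmW_two (K : Type) [Fintype K] [DecidableEq K] (hK : Fintype.card K = 2) : HarmW K :=
  harmW_of_harmS (by norm_num) (harmS_two K hK)

end

end Pool.Agent.GM.Harm

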