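import Pool.Agent.GM.HarmL

/-!
# GM/HarmB: HARM(K) in the model, every finite set of vertices (port of M3/S3/MdlB, Mdl), helper51

Interface: `GM/HMdlDef` (helper55): coins `CoK`, letters `letK`, `LabK`, output `HOut`.
* `letS Rz J n0 i oc tc l t w` : the letters of the scripts `oc`, `tc` (`letK` for the scripts of labelled pairs);
* `coin_lawS` : the letters given the raw sample point; `mixQ` : given the top the point `pQ t w` (hidden point, known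
  points, letters) has the law `(datQ τ).P`; `ceQ` : conditional means;
* `hout_of` : the conclusion `Harm.Concl` for every top gives `HOut`;
* **`hout_harmS`**, **`hout_harmW`** : `HarmS K κ`, `HarmW K` for `K = {j // j ≠ i}` give `HOut` for every family of scripts
  `LabM`; `labM_of` : labelled pairs `LabK` are scripts; **`hout_pairS`**, **`hout_pairW`** : the same for `letK`.
-/

set_option autoImplicit false
set_option linter.unusedSectionVars false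
set_option linter.unusedVariables false

namespace Pool.Agent.GM

open Finset Pool.Agent.PWZ Pool.Agent.M3 Pool.Agent.M3.Bin
open Pool.Agent.M3.Mod (TM XM YM qaM qbM dgM SzM)

noncomputable section

variable {k N : ℕ} {ι Θ Ξ : Type} [Fintype ι] [DecidableEq ι]

/-! ## letters -/

section letters

variable {Rz : ℕ} {φ : Type}

/-- the noise of the label `l` -/
def nuS (i : ι) (l : {j : ι // j ≠ i}) (w : Sq k N ι Θ (Ξ × CoK N ι Rz φ)) : Fin (N + 1) → Nz.Ns Rz φ :=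
  (vx i w).1.2 l.1

/-- THE LETTERS of the label `l` up to the time `t` -/
def letS (Rz J n0 : ℕ) (i : ι) (oc : {j : ι // j ≠ i} → ℕ → Sq k N ι Θ Ξ → Prop)
    (tc : {j : ι // j ≠ i} → ℕ → Sq k N ι Θ Ξ → Option φ) (l : {j : ι // j ≠ i}) (t : ℕ)
    (w : Sq k N ι Θ (Ξ × CoK N ι Rz φ)) : Fin (N + 1) → Option φ :=
  Nz.lab Rz J n0 (fun s => oc l s (pic w)) (fun s => tc l s (pic w)) t (nuS i l w)

/-- the sample point of the product form -/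
def pQ (Rz J n0 : ℕ) (i : ι) (oc : {j : ι // j ≠ i} → ℕ → Sq k N ι Θ Ξ → Prop)
    (tc : {j : ι // j ≠ i} → ℕ → Sq k N ι Θ Ξ → Option φ) (t : ℕ) (w : Sq k N ι Θ (Ξ × CoK N ι Rz φ)) :
    Harm.Pt {j : ι // j ≠ i} (XM N Ξ) (YM k Ξ) (Fin (N + 1) → Option φ) :=
  (xQ i (pic w), ot i (pic w), fun l => letS Rz J n0 i oc tc l t w)

theorem letS_rst [Fintype φ] (Rz J n0 : ℕ) (i : ι) (oc : {j : ι // j ≠ i} → ℕ → Sq k N ι Θ Ξ → Prop)
    (tc : {j : ι // j ≠ i} → ℕ → Sq k N ι Θ Ξ → Option φ) (l : {j : ι // j ≠ i}) (t : ℕ)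
    (w : Sq k N ι Θ (Ξ × CoK N ι Rz φ)) :
    letS Rz J n0 i oc tc l t w = rst t (letS Rz J n0 i oc tc l (t + 1) w) := by
  unfold letS
  rw [Nz.lab_restrict t]
  rfl

variable [Fintype φ] [Fintype Ξ] [Nonempty Ξ] [Fintype Θ] [Nonempty Θ]

/-- the noises of the labels of one view are independent and uniform -/
theorem coin_unifS (i : ι) (f : ({j : ι // j ≠ i} → Fin (N + 1) → Nz.Ns Rz φ) → ℝ) :
    (FP.unif (ι → CoK N ι Rz φ)).E (fun c => f (fun l => c i l.1)) =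
      (FP.unif ({j : ι // j ≠ i} → Fin (N + 1) → Nz.Ns Rz φ)).E f := by
  classical
  rw [Mod.unif_eval (ι := ι) i (fun c : CoK N ι Rz φ => f (fun l => c l.1))]
  exact unif_inj (fun l : {j : ι // j ≠ i} => l.1) Subtype.val_injective f

/-- THE LETTERS given the raw sample point -/
theorem coin_lawS (J n0 : ℕ) (i : ι) (oc : {j : ι // j ≠ i} → ℕ → Sq k N ι Θ Ξ → Prop)
    (tc : {j : ι // j ≠ i} → ℕ → Sq k N ι Θ Ξ → Option φ) (t : ℕ)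
    (Ψ : Sq k N ι Θ Ξ → ({j : ι // j ≠ i} → Fin (N + 1) → Option φ) → ℝ) :
    Pm.E (fun w : Sq k N ι Θ (Ξ × CoK N ι Rz φ) => Ψ (pic w) (fun l => letS Rz J n0 i oc tc l t w)) =
    Pm.E (fun v : Sq k N ι Θ Ξ => ∑ F : {j : ι // j ≠ i} → Fin (N + 1) → Option φ,
      (∏ l, Nz.kr Rz J n0 (fun s => oc l s v) (fun s => tc l s v) t (F l)) * Ψ v F) := by
  classical
  have h1 := (pulC_pic (k := k) (N := N) (ι := ι) (Θ := Θ) (Ξ := Ξ) (Ci := CoK N ι Rz φ)).E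
    (fun v c => Ψ v (fun l => Nz.lab Rz J n0 (fun s => oc l s v) (fun s => tc l s v) t (c i l.1)))
  have h2 : (fun w : Sq k N ι Θ (Ξ × CoK N ι Rz φ) => Ψ (pic w) (fun l => letS Rz J n0 i oc tc l t w)) =
      fun w : Sq k N ι Θ (Ξ × CoK N ι Rz φ) => Ψ (pic w) (fun l => Nz.lab Rz J n0 (fun s => oc l s (pic w))
        (fun s => tc l s (pic w)) t (coin w i l.1)) := rfl
  rw [h2, h1]
  refine FP.E_congr _ fun v _ => ?_
  rw [coin_unifS i (fun α => Ψ v (fun l => Nz.lab Rz J n0 (fun s => oc l s v) (fun s => tc l s v) t (α l)))]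
  exact unif_prod_law (fun l => Nz.lab Rz J n0 (fun s => oc l s v) (fun s => tc l s v) t) (Ψ v)

end letters

/-! ## the mixture -/

section mix

variable {Rz J n0 h : ℕ} {φ : Type} [Fintype φ] [Fintype Ξ] [Nonempty Ξ] [Fintype Θ] [Nonempty Θ] {i : ι}
  {oc : {j : ι // j ≠ i} → ℕ → Sq k N ι Θ Ξ → Prop} {tc : {j : ι // j ≠ i} → ℕ → Sq k N ι Θ Ξ → Option φ}

/-- THE MIXTURE -/
theorem mixQ (hR : 1 ≤ Rz) (H : LabM i h oc tc) (t : ℕ) :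
    Mix Pm (fun w : Sq k N ι Θ (Ξ × CoK N ι Rz φ) => tpQ i (pic w)) (pQ Rz J n0 i oc tc t)
      (fun τ => (datQ Rz J n0 H τ).P (thickQ hR H τ) t) := by
  constructor
  intro Ψ
  have h1 := coin_lawS (k := k) (N := N) (Θ := Θ) (Ξ := Ξ) (Rz := Rz) J n0 i oc tc t
    (fun v F => Ψ (tpQ i v) (xQ i v, ot i v, F))
  have h2 := (pulC_pic (k := k) (N := N) (ι := ι) (Θ := Θ) (Ξ := Ξ) (Ci := CoK N ι Rz φ)).pul.E
    (fun v => ((datQ Rz J n0 H (tpQ i v)).P (thickQ hR H (tpQ i v)) t).E (Ψ (tpQ i v)))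
  have h3 : Pm.E (fun w : Sq k N ι Θ (Ξ × CoK N ι Rz φ) => Ψ (tpQ i (pic w)) (pQ Rz J n0 i oc tc t w)) =
      Pm.E (fun w : Sq k N ι Θ (Ξ × CoK N ι Rz φ) =>
        (fun v F => Ψ (tpQ i v) (xQ i v, ot i v, F)) (pic w) (fun l => letS Rz J n0 i oc tc l t w)) := rfl
  rw [h3, h1, h2, E_topQ i, E_topQ i]
  refine FP.E_congr _ fun τ _ => ?_
  have h4 : (FP.unif (XM N Ξ × ({j : ι // j ≠ i} → YM k Ξ))).E (fun q =>
      ((datQ Rz J n0 H (tpQ i (ptQ i τ q.1 q.2))).P (thickQ hR H (tpQ i (ptQ i τ q.1 q.2))) t).E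
        (Ψ (tpQ i (ptQ i τ q.1 q.2)))) = ((datQ Rz J n0 H τ).P (thickQ hR H τ) t).E (Ψ τ) := by
    have h5 : ∀ q : XM N Ξ × ({j : ι // j ≠ i} → YM k Ξ),
        ((datQ Rz J n0 H (tpQ i (ptQ i τ q.1 q.2))).P (thickQ hR H (tpQ i (ptQ i τ q.1 q.2))) t).E
          (Ψ (tpQ i (ptQ i τ q.1 q.2))) = ((datQ Rz J n0 H τ).P (thickQ hR H τ) t).E (Ψ τ) := by
      intro q
      rw [tp_ptQ]
    simp only [h5]
    exact FP.E_const _ _
  rw [h4, Harm.HD.P_E]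
  refine FP.E_congr _ fun q _ => Finset.sum_congr rfl fun F _ => ?_
  rw [tp_ptQ, x_ptQ, ot_ptQ]
  rfl

variable (hR : 1 ≤ Rz) (H : LabM i h oc tc)

/-- CONDITIONAL MEANS of the digit -/
theorem ceQ {κ κ' : Type*} {t : ℕ} {Y : Sq k N ι Θ (Ξ × CoK N ι Rz φ) → κ}
    {Z : TM k Θ → Harm.Pt {j : ι // j ≠ i} (XM N Ξ) (YM k Ξ) (Fin (N + 1) → Option φ) → κ'}
    (hY : ∀ v w, Y v = Y w ↔ tpQ i (pic v) = tpQ i (pic w) ∧
      Z (tpQ i (pic v)) (pQ Rz J n0 i oc tc t v) = Z (tpQ i (pic w)) (pQ Rz J n0 i oc tc t w))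
    (w : Sq k N ι Θ (Ξ × CoK N ι Rz φ)) :
    Pm.ce Y (Dg (M3.Mod.ex N (t + 1))) w = ((datQ Rz J n0 H (tpQ i (pic w))).P (thickQ hR H (tpQ i (pic w))) t).ce
      (Z (tpQ i (pic w))) (fun u => dgM N t u.1) (pQ Rz J n0 i oc tc t w) := by
  have h1 := (mixQ (J := J) (n0 := n0) hR H t).ce Z (fun _ u => dgM N t u.1) (w := w) (Pm_ne w)
  rw [← h1]
  refine FP.ce_congr_map _ ?_ ?_ _ w
  · intro v w' hv
    have h2 := (hY v w').1 hv
    exact Prod.ext h2.1 h2.2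
  · intro v w' hv
    exact (hY v w').2 ⟨(Prod.mk.inj hv).1, (Prod.mk.inj hv).2⟩

end mix

/-! ## the classes -/

section classes

variable {Ci Λ υ : Type}

theorem eJM_iff (i : ι) (h : ℕ) (LF : {j : ι // j ≠ i} → ℕ → Sq k N ι Θ (Ξ × Ci) → Λ)
    (Uc : Finset {j : ι // j ≠ i} → ℕ → Sq k N ι Θ (Ξ × Ci) → υ) (t : ℕ) (J : Finset {j : ι // j ≠ i})
    (v w : Sq k N ι Θ (Ξ × Ci)) : eJM i h LF Uc t J v = eJM i h LF Uc t J w ↔
    (∀ j ∈ J, ot i (pic v) j = ot i (pic w) j) ∧ Qn i h (M3.Mod.ex N t) v = Qn i h (M3.Mod.ex N t) w ∧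
      (∀ I, I ⊆ J → Uc I t v = Uc I t w) ∧ ∀ l, univ.erase l ⊆ J → LF l t v = LF l t w := by
  classical
  unfold eJM
  refine Prod.mk_inj.trans (and_congr res_eq (Prod.mk_inj.trans (and_congr_right fun _ =>
    Prod.mk_inj.trans (and_congr ?_ ?_))))
  · constructor
    · intro h I
      exact Harm.some_iff.1 (congrFun h I)
    · intro h
      funext I
      exact Harm.some_iff.2 (h I)
  · constructor
    · intro h l
      exact Harm.some_iff.1 (congrFun h l)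
    · intro h
      funext l
      exact Harm.some_iff.2 (h l)

theorem eLM_iff (i : ι) (h : ℕ) (Uc : Finset {j : ι // j ≠ i} → ℕ → Sq k N ι Θ (Ξ × Ci) → υ) (t : ℕ)
    (J : Finset {j : ι // j ≠ i}) (v w : Sq k N ι Θ (Ξ × Ci)) : eLM i h Uc t J v = eLM i h Uc t J w ↔
    (∀ j ∈ J, ot i (pic v) j = ot i (pic w) j) ∧ Qn i h (M3.Mod.ex N t) v = Qn i h (M3.Mod.ex N t) w ∧
      (∀ I, I ⊂ J → Uc I t v = Uc I t w) := by
  classical
  unfold eLM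
  refine Prod.mk_inj.trans (and_congr res_eq (Prod.mk_inj.trans (and_congr_right fun _ => ?_)))
  constructor
  · intro h I
    exact Harm.some_iff.1 (congrFun h I)
  · intro h
    funext I
    exact Harm.some_iff.2 (h I)

theorem eAM_iff (i : ι) (h : ℕ) (LF : {j : ι // j ≠ i} → ℕ → Sq k N ι Θ (Ξ × Ci) → Λ)
    (Uc : Finset {j : ι // j ≠ i} → ℕ → Sq k N ι Θ (Ξ × Ci) → υ) (t : ℕ)
    (v w : Sq k N ι Θ (Ξ × Ci)) : eAM i h LF Uc t v = eAM i h LF Uc t w ↔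
    ot i (pic v) = ot i (pic w) ∧ Qn i h (M3.Mod.ex N t) v = Qn i h (M3.Mod.ex N t) w ∧
      (∀ I, I ≠ univ → Uc I t v = Uc I t w) ∧ (fun l => LF l t v) = (fun l => LF l t w) := by
  classical
  unfold eAM
  refine Prod.mk_inj.trans (and_congr_right fun _ => Prod.mk_inj.trans (and_congr_right fun _ =>
    Prod.mk_inj.trans (and_congr ?_ Iff.rfl)))
  constructor
  · intro h I
    exact Harm.some_iff.1 (congrFun h I)
  · intro h
    funext I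
    exact Harm.some_iff.2 (h I)

end classes

/-! ## the output -/

section out

variable {Rz J n0 h : ℕ} {φ υ : Type} [Fintype φ] [Fintype Ξ] [Nonempty Ξ] [Fintype Θ] [Nonempty Θ] {i : ι}
  {oc : {j : ι // j ≠ i} → ℕ → Sq k N ι Θ Ξ → Prop} {tc : {j : ι // j ≠ i} → ℕ → Sq k N ι Θ Ξ → Option φ}
  (U : TM k Θ → Finset {j : ι // j ≠ i} → ℕ → XM N Ξ → ({j : ι // j ≠ i} → YM k Ξ) → υ)

/-- the class in the model -/
def UcQ (i : ι) (U : TM k Θ → Finset {j : ι // j ≠ i} → ℕ → XM N Ξ → ({j : ι // j ≠ i} → YM k Ξ) → υ) {Ci : Type}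
    (I : Finset {j : ι // j ≠ i}) (t : ℕ) (w : Sq k N ι Θ (Ξ × Ci)) : υ :=
  U (tpQ i (pic w)) I t (xQ i (pic w)) (ot i (pic w))

/-- same public node iff same top and same cells, coins forgotten -/
theorem Qn_topC {Ci : Type} (h t : ℕ) (v w : Sq k N ι Θ (Ξ × Ci)) :
    Qn i h (M3.Mod.ex N t) v = Qn i h (M3.Mod.ex N t) w ↔ tpQ i (pic v) = tpQ i (pic w) ∧
      qaM k N t (xQ i (pic v)) = qaM k N t (xQ i (pic w)) ∧
      ∀ a : {j : ι // j ≠ i}, qbM N h t (ot i (pic v) a) = qbM N h t (ot i (pic w) a) :=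
  Qn_top h t (pic v) (pic w)

variable {U} (H : LabM i h oc tc)

theorem ndQ_iff (τ : TM k Θ) (t : ℕ) (v w : Sq k N ι Θ (Ξ × CoK N ι Rz φ)) :
    Harm.nd (datQ Rz J n0 H τ) t (pQ Rz J n0 i oc tc t v) = Harm.nd (datQ Rz J n0 H τ) t (pQ Rz J n0 i oc tc t w) ↔
      qaM k N t (xQ i (pic v)) = qaM k N t (xQ i (pic w)) ∧
      ∀ a : {j : ι // j ≠ i}, qbM N h t (ot i (pic v) a) = qbM N h t (ot i (pic w) a) := by
  rw [Harm.nd_iff]
  exact Iff.rfl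

theorem eJQ_iff (t : ℕ) (I : Finset {j : ι // j ≠ i}) (v w : Sq k N ι Θ (Ξ × CoK N ι Rz φ)) :
    eJM i h (letS Rz J n0 i oc tc) (UcQ i U) t I v = eJM i h (letS Rz J n0 i oc tc) (UcQ i U) t I w ↔
      tpQ i (pic v) = tpQ i (pic w) ∧
      Harm.eJ (datQ Rz J n0 H (tpQ i (pic v))) (U (tpQ i (pic v))) t I (pQ Rz J n0 i oc tc t v) =
        Harm.eJ (datQ Rz J n0 H (tpQ i (pic w))) (U (tpQ i (pic w))) t I (pQ Rz J n0 i oc tc t w) := by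
  rw [eJM_iff, Qn_topC]
  constructor
  · rintro ⟨h1, ⟨h2, h3, h4⟩, h5, h6⟩
    refine ⟨h2, ?_⟩
    unfold UcQ at h5
    rw [h2] at h5 ⊢
    rw [Harm.eJ_iff, ndQ_iff]
    exact ⟨h1, ⟨h3, h4⟩, h5, h6⟩
  · rintro ⟨h2, h7⟩
    unfold UcQ
    rw [h2] at h7 ⊢
    rw [Harm.eJ_iff, ndQ_iff] at h7
    obtain ⟨h1, ⟨h3, h4⟩, h5, h6⟩ := h7
    exact ⟨h1, ⟨rfl, h3, h4⟩, h5, h6⟩

theorem eLQ_iff (t : ℕ) (I : Finset {j : ι // j ≠ i}) (v w : Sq k N ι Θ (Ξ × CoK N ι Rz φ)) :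
    eLM i h (UcQ i U) t I v = eLM i h (UcQ i U) t I w ↔
      tpQ i (pic v) = tpQ i (pic w) ∧
      Harm.eL (datQ Rz J n0 H (tpQ i (pic v))) (U (tpQ i (pic v))) t I (pQ Rz J n0 i oc tc t v) =
        Harm.eL (datQ Rz J n0 H (tpQ i (pic w))) (U (tpQ i (pic w))) t I (pQ Rz J n0 i oc tc t w) := by
  rw [eLM_iff, Qn_topC]
  constructor
  · rintro ⟨h1, ⟨h2, h3, h4⟩, h5⟩
    refine ⟨h2, ?_⟩
    unfold UcQ at h5
    rw [h2] at h5 ⊢
    rw [Harm.eL_iff, ndQ_iff]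
    exact ⟨h1, ⟨h3, h4⟩, h5⟩
  · rintro ⟨h2, h7⟩
    unfold UcQ
    rw [h2] at h7 ⊢
    rw [Harm.eL_iff, ndQ_iff] at h7
    obtain ⟨h1, ⟨h3, h4⟩, h5⟩ := h7
    exact ⟨h1, ⟨rfl, h3, h4⟩, h5⟩

theorem eAQ_iff (t : ℕ) (v w : Sq k N ι Θ (Ξ × CoK N ι Rz φ)) :
    eAM i h (letS Rz J n0 i oc tc) (UcQ i U) t v = eAM i h (letS Rz J n0 i oc tc) (UcQ i U) t w ↔
      tpQ i (pic v) = tpQ i (pic w) ∧
      Harm.eA (datQ Rz J n0 H (tpQ i (pic v))) (U (tpQ i (pic v))) t (pQ Rz J n0 i oc tc t v) =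
        Harm.eA (datQ Rz J n0 H (tpQ i (pic w))) (U (tpQ i (pic w))) t (pQ Rz J n0 i oc tc t w) := by
  rw [eAM_iff, Qn_topC]
  constructor
  · rintro ⟨h1, ⟨h2, h3, h4⟩, h5, h6⟩
    refine ⟨h2, ?_⟩
    unfold UcQ at h5
    rw [h2] at h5 ⊢
    rw [Harm.eA_iff, ndQ_iff]
    exact ⟨h1, ⟨h3, h4⟩, h5, h6⟩
  · rintro ⟨h2, h7⟩
    unfold UcQ
    rw [h2] at h7 ⊢
    rw [Harm.eA_iff, ndQ_iff] at h7
    obtain ⟨h1, ⟨h3, h4⟩, h5, h6⟩ := h7
    exact ⟨h1, ⟨rfl, h3, h4⟩, h5, h6⟩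

variable (hR : 1 ≤ Rz)

theorem mmQ (t : ℕ) (w : Sq k N ι Θ (Ξ × CoK N ι Rz φ)) :
    mmM i h (letS Rz J n0 i oc tc) (UcQ i U) t w =
      Harm.mm (U (tpQ i (pic w))) (thickQ (J := J) (n0 := n0) hR H (tpQ i (pic w))) (dgM N) t
        (pQ Rz J n0 i oc tc t w) :=
  ceQ hR H (Z := fun τ => Harm.eJ (datQ Rz J n0 H τ) (U τ) t ∅) (eJQ_iff H t ∅) w

theorem uuQ (I : Finset {j : ι // j ≠ i}) (t : ℕ) (w : Sq k N ι Θ (Ξ × CoK N ι Rz φ)) :
    uuM i h (letS Rz J n0 i oc tc) (UcQ i U) I t w =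
      Harm.uu (U (tpQ i (pic w))) (thickQ (J := J) (n0 := n0) hR H (tpQ i (pic w))) (dgM N) I t
        (pQ Rz J n0 i oc tc t w) :=
  ceQ hR H (Z := fun τ => Harm.eJ (datQ Rz J n0 H τ) (U τ) t I) (eJQ_iff H t I) w

theorem ulQ (I : Finset {j : ι // j ≠ i}) (t : ℕ) (w : Sq k N ι Θ (Ξ × CoK N ι Rz φ)) :
    ulM i h (UcQ i U) I t w =
      Harm.ul (U (tpQ i (pic w))) (thickQ (J := J) (n0 := n0) hR H (tpQ i (pic w))) (dgM N) I t
        (pQ Rz J n0 i oc tc t w) :=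
  ceQ hR H (Z := fun τ => Harm.eL (datQ Rz J n0 H τ) (U τ) t I) (eLQ_iff H t I) w

theorem uaQ (t : ℕ) (w : Sq k N ι Θ (Ξ × CoK N ι Rz φ)) :
    uaM i h (letS Rz J n0 i oc tc) (UcQ i U) t w =
      Harm.ua (U (tpQ i (pic w))) (thickQ (J := J) (n0 := n0) hR H (tpQ i (pic w))) (dgM N) t
        (pQ Rz J n0 i oc tc t w) :=
  ceQ hR H (Z := fun τ => Harm.eA (datQ Rz J n0 H τ) (U τ) t) (eAQ_iff H t) w

/-- bounds for every top are bounds -/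
theorem sum_mixQ (n : ℕ)
    (Ψ : ℕ → TM k Θ → Harm.Pt {j : ι // j ≠ i} (XM N Ξ) (YM k Ξ) (Fin (N + 1) → Option φ) → ℝ) {C : ℝ}
    (hC : ∀ τ, ∑ t ∈ range n, ((datQ Rz J n0 H τ).P (thickQ hR H τ) t).E (Ψ t τ) ≤ C) :
    ∑ t ∈ range n, Pm.E (fun w : Sq k N ι Θ (Ξ × CoK N ι Rz φ) =>
      Ψ t (tpQ i (pic w)) (pQ Rz J n0 i oc tc t w)) ≤ C := by
  rw [Finset.sum_congr rfl fun t _ => (mixQ (J := J) (n0 := n0) hR H t).law (Ψ t), ← FP.E_sum]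
  exact FP.E_le_const _ fun w _ => hC (tpQ i (pic w))

/-- **HARM(K) FOR EVERY TOP gives the output in the model** -/
theorem hout_of (hN : N ≤ k) {B e : ℝ}
    {G dd : TM k Θ → ℕ → Harm.Pt {j : ι // j ≠ i} (XM N Ξ) (YM k Ξ) (Fin (N + 1) → Option φ) → Prop}
    (hU : ∀ τ, Harm.Concl (U τ) (thickQ (J := J) (n0 := n0) hR H τ) (dgM N) (fun t _ => rst t) N B e (G τ) (dd τ)) :
    HOut i h (letS Rz J n0 i oc tc) (UcQ i U) B e
      (fun t w => G (tpQ i (pic w)) t (pQ Rz J n0 i oc tc t w))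
      (fun t w => dd (tpQ i (pic w)) (min t N) (pQ Rz J n0 i oc tc (min t N) w)) where
  Uf := by
    intro I t v w hv
    obtain ⟨h1, h2⟩ := Prod.mk.inj hv
    obtain ⟨h2, h3⟩ := Prod.mk.inj h2
    rw [Qn_topC] at h3
    obtain ⟨a1, a2, a3⟩ := h3
    have h4 : xQ i (pic v) = xQ i (pic w) := xM_of (i := i) hN h1 a1
    unfold UcQ
    rw [a1, h4]
    exact (hU (tpQ i (pic w))).sys.dep I t _ _ _ (res_eq.1 h2) a3
  Us := by
    intro I t v w hv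
    obtain ⟨h1, h2⟩ := Prod.mk.inj hv
    obtain ⟨h2, h3⟩ := Prod.mk.inj h2
    rw [Qn_topC] at h2
    obtain ⟨a1, a2, a3⟩ := h2
    unfold UcQ at h3 ⊢
    rw [a1] at h3 ⊢
    exact (hU (tpQ i (pic w))).sys.ref I t _ _ _ _ (res_eq.1 h1) a2 a3 h3
  m2 := by
    have h1 := sum_mixQ (J := J) (n0 := n0) H hR N
      (fun t τ u => Harm.mm (U τ) (thickQ hR H τ) (dgM N) t u ^ 2) (C := B) (fun τ => (hU τ).m2)
    refine le_of_eq_of_le ?_ h1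
    refine Finset.sum_congr rfl fun t _ => FP.E_congr _ fun w _ => ?_
    rw [mmQ H hR]
  u2 := by
    intro I hI
    have h1 := sum_mixQ (J := J) (n0 := n0) H hR N
      (fun t τ u => (Harm.uu (U τ) (thickQ hR H τ) (dgM N) I t u - Harm.ul (U τ) (thickQ hR H τ) (dgM N) I t u) ^ 2)
      (C := B) (fun τ => (hU τ).u2 I hI)
    refine le_of_eq_of_le ?_ h1
    refine Finset.sum_congr rfl fun t _ => FP.E_congr _ fun w _ => ?_
    rw [uuQ H hR, ulQ (J := J) (n0 := n0) H hR]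
  l2 := by
    intro I hI
    have h1 := sum_mixQ (J := J) (n0 := n0) H hR N
      (fun t τ u => Harm.ul (U τ) (thickQ hR H τ) (dgM N) I t u ^ 2) (C := B) (fun τ => (hU τ).l2 I hI)
    refine le_of_eq_of_le ?_ h1
    refine Finset.sum_congr rfl fun t _ => FP.E_congr _ fun w _ => ?_
    rw [ulQ (J := J) (n0 := n0) H hR]
  Gm := by
    intro t ht v w hv
    rw [eAQ_iff (J := J) (n0 := n0) H] at hv
    obtain ⟨h1, h2⟩ := hv
    show G (tpQ i (pic v)) t _ ↔ G (tpQ i (pic w)) t _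
    rw [h1] at h2 ⊢
    exact (hU (tpQ i (pic w))).Gm t ht _ _ h2
  Gl := by
    intro t ht w hG I hI
    rw [ulQ (J := J) (n0 := n0) H hR]
    exact (hU (tpQ i (pic w))).Gl t ht _ hG I hI
  Gd := by
    intro t ht w hd hl
    refine (hU (tpQ i (pic w))).Gd t ht _ ((mixQ (J := J) (n0 := n0) hR H t).ne (Pm_ne w)) ?_ fun I hI => ?_
    · have h1 : min t N = t := min_eq_left ht.le
      rw [h1] at hd
      exact hd
    · rw [← ulQ (J := J) (n0 := n0) H hR]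
      exact hl I hI
  inc := by
    intro t w hd
    rcases lt_or_ge t N with ht | ht
    · rw [min_eq_left ht.le] at hd
      rw [min_eq_left (show t + 1 ≤ N by omega)]
      refine (hU (tpQ i (pic w))).inc t ht _ _ _ ?_
      have h1 : pQ Rz J n0 i oc tc t w = (xQ i (pic w), ot i (pic w),
          fun l => rst t (letS Rz J n0 i oc tc l (t + 1) w)) := by
        unfold pQ
        refine Prod.ext rfl (Prod.ext rfl (funext fun l => letS_rst Rz J n0 i oc tc l t w))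
      rw [h1] at hd
      exact hd
    · rw [min_eq_right ht] at hd
      rw [min_eq_right (show N ≤ t + 1 by omega)]
      exact hd
  dq := by
    simp only [min_self]
    rw [(mixQ (J := J) (n0 := n0) hR H N).Pr (fun τ u => dd τ N u)]
    exact FP.E_le_const _ fun w _ => (hU (tpQ i (pic w))).dq
  syn := by
    have h1 := sum_mixQ (J := J) (n0 := n0) H hR N
      (fun t τ u => ind (G τ t u) * (Harm.ua (U τ) (thickQ hR H τ) (dgM N) t u -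
        exf (Harm.SS {j : ι // j ≠ i}) (Harm.mm (U τ) (thickQ hR H τ) (dgM N))
          (Harm.uu (U τ) (thickQ hR H τ) (dgM N)) (Harm.ul (U τ) (thickQ hR H τ) (dgM N)) t u) ^ 2)
      (C := e) (fun τ => (hU τ).syn)
    refine le_of_eq_of_le ?_ h1
    refine Finset.sum_congr rfl fun t _ => FP.E_congr _ fun w _ => ?_
    rw [uaQ H hR]
    congr 3
    exact ex_congr (mmQ H hR t w) (fun I _ => uuQ H hR I t w) (fun I _ => ulQ (J := J) (n0 := n0) H hR I t w)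

end out

/-! ## HARM(K) in the model -/

/-- **HARM(K), STRONG FORM, IN THE MODEL**, scripts -/
theorem hout_harmS {ι : Type} [Fintype ι] [DecidableEq ι] {i : ι} {κ : ℝ} (hH : Harm.HarmS {j : ι // j ≠ i} κ) :
    ∃ C : ℕ, ∀ (k N : ℕ) (Θ Ξ φ : Type) [Fintype Θ] [Nonempty Θ] [Fintype Ξ] [Nonempty Ξ] [Fintype φ] [Nonempty φ]
      (_ : N ≤ k) (h Rz J n0 : ℕ) (oc : {j : ι // j ≠ i} → ℕ → Sq k N ι Θ Ξ → Prop)
      (tc : {j : ι // j ≠ i} → ℕ → Sq k N ι Θ Ξ → Option φ) (_ : LabM i h oc tc) (Lam n : ℝ)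
      (_ : SzM Rz J n0 (Fintype.card φ) Lam) (_ : (2 * Lam) ^ C ≤ n),
      ∃ (υ : Type) (Uc : Finset {j : ι // j ≠ i} → ℕ → Sq k N ι Θ (Ξ × CoK N ι Rz φ) → υ)
        (G dd : ℕ → Sq k N ι Θ (Ξ × CoK N ι Rz φ) → Prop),
        HOut i h (letS Rz J n0 i oc tc) Uc (n ^ C) (C * Lam ^ C * n ^ (-κ)) G dd := by
  obtain ⟨C, hC⟩ := hH
  refine ⟨C, ?_⟩
  intro k N Θ Ξ φ _ _ _ _ _ _ hN h Rz J n0 oc tc H Lam n hs hn
  have key : ∀ τ : TM k Θ, ∃ (U : Finset {j : ι // j ≠ i} → ℕ → XM N Ξ → ({j : ι // j ≠ i} → YM k Ξ) →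
      Set (XM N Ξ × ({j : ι // j ≠ i} → YM k Ξ)))
      (G dd : ℕ → Harm.Pt {j : ι // j ≠ i} (XM N Ξ) (YM k Ξ) (Fin (N + 1) → Option φ) → Prop),
      Harm.Concl U (thickQ (J := J) (n0 := n0) hs.R1 H τ) (dgM N) (fun t _ => rst t) N (n ^ C)
        (C * Lam ^ C * n ^ (-κ)) G dd := by
    intro τ
    obtain ⟨υ, U, G, dd, hU⟩ := hC (XM N Ξ) (YM k Ξ) (ℕ × V k) (Fin (N + 1) → Option φ) (datQ Rz J n0 H τ) _
      (thickQ hs.R1 H τ) (dgM N) (fun t _ => rst t) N Lam n (hypQ hN H τ hs) hn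
    exact ⟨Harm.UL U, G, dd, hU.lev⟩
  choose U G dd hU using key
  exact ⟨_, UcQ i U, _, _, hout_of H hs.R1 hN hU⟩

/-- **HARM(K), WEAK FORM, IN THE MODEL**, scripts -/
theorem hout_harmW {ι : Type} [Fintype ι] [DecidableEq ι] {i : ι} (hH : Harm.HarmW {j : ι // j ≠ i}) :
    ∃ C : ℕ, ∀ (k N : ℕ) (Θ Ξ φ : Type) [Fintype Θ] [Nonempty Θ] [Fintype Ξ] [Nonempty Ξ] [Fintype φ] [Nonempty φ]
      (_ : N ≤ k) (h Rz J n0 : ℕ) (oc : {j : ι // j ≠ i} → ℕ → Sq k N ι Θ Ξ → Prop)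
      (tc : {j : ι // j ≠ i} → ℕ → Sq k N ι Θ Ξ → Option φ) (_ : LabM i h oc tc) (Lam : ℝ)
      (_ : SzM Rz J n0 (Fintype.card φ) Lam) (_ : 2 ≤ Lam),
      ∃ (υ : Type) (Uc : Finset {j : ι // j ≠ i} → ℕ → Sq k N ι Θ (Ξ × CoK N ι Rz φ) → υ)
        (G dd : ℕ → Sq k N ι Θ (Ξ × CoK N ι Rz φ) → Prop),
        HOut i h (letS Rz J n0 i oc tc) Uc (Real.exp (Real.log (2 * Lam) ^ C)) Lam⁻¹ G dd := by
  obtain ⟨C, hC⟩ := hH
  refine ⟨C, ?_⟩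
  intro k N Θ Ξ φ _ _ _ _ _ _ hN h Rz J n0 oc tc H Lam hs hn
  have key : ∀ τ : TM k Θ, ∃ (U : Finset {j : ι // j ≠ i} → ℕ → XM N Ξ → ({j : ι // j ≠ i} → YM k Ξ) →
      Set (XM N Ξ × ({j : ι // j ≠ i} → YM k Ξ)))
      (G dd : ℕ → Harm.Pt {j : ι // j ≠ i} (XM N Ξ) (YM k Ξ) (Fin (N + 1) → Option φ) → Prop),
      Harm.Concl U (thickQ (J := J) (n0 := n0) hs.R1 H τ) (dgM N) (fun t _ => rst t) N
        (Real.exp (Real.log (2 * Lam) ^ C)) Lam⁻¹ G dd := by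
    intro τ
    obtain ⟨υ, U, G, dd, hU⟩ := hC (XM N Ξ) (YM k Ξ) (ℕ × V k) (Fin (N + 1) → Option φ) (datQ Rz J n0 H τ) _
      (thickQ hs.R1 H τ) (dgM N) (fun t _ => rst t) N Lam (hypQ hN H τ hs) hn
    exact ⟨Harm.UL U, G, dd, hU.lev⟩
  choose U G dd hU using key
  exact ⟨_, UcQ i U, _, _, hout_of H hs.R1 hN hU⟩

/-! ## labelled pairs -/

/-- LABELLED PAIRS ARE SCRIPTS -/
theorem labM_of {L : Type} {i : ι} {h : ℕ} {D : {j : ι // j ≠ i} → L1 (Sq k N ι Θ Ξ) L}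
    (hD : ∀ l, LabK i h l (D l)) : LabM i h (fun l s => (D l).oc s) (fun l s => (D l).tc s) where
  oc := by
    intro l s v w hv
    cases s with
    | zero => exact Iff.rfl
    | succ s => exact (hD l).cl s v w hv
  tc := by
    intro l s v w hv
    have hK : KJ i h (univ.erase l) (M3.Mod.ex N s) v = KJ i h (univ.erase l) (M3.Mod.ex N s) w := by
      rw [AJ_eq] at hv
      rw [KJ_eq]
      exact hv.2
    have hxx : (D l).x s v = (D l).x s w := (hD l).x s v w hv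
    cases s with
    | zero =>
      show some ((D l).x 0 v) = some ((D l).x 0 w)
      rw [hxx]
    | succ s =>
      show (D l).tc (s + 1) v = (D l).tc (s + 1) w
      rw [L1.tc_succ, L1.tc_succ, hxx]
      have h1 : ((D l).cl s v ∧ (D l).bb s v) ↔ ((D l).cl s w ∧ (D l).bb s w) := by
        rw [(hD l).cl s v w hK, (hD l).bb s v w hv]
      by_cases h2 : (D l).cl s v ∧ (D l).bb s v
      · rw [if_pos h2, if_pos (h1.1 h2)]
      · rw [if_neg h2, if_neg (fun h3 => h2 (h1.2 h3))]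

theorem letK_letS {L : Type} {i : ι} {Rz J n0 : ℕ} (D : {j : ι // j ≠ i} → L1 (Sq k N ι Θ Ξ) L) :
    (fun l => letK Rz J n0 i l (D l)) = letS Rz J n0 i (fun l s => (D l).oc s) (fun l s => (D l).tc s) := by
  funext l t w
  exact letK_eq J n0 i l (D l) t w

/-- **HARM(K), STRONG FORM, IN THE MODEL**, labelled pairs -/
theorem hout_pairS {ι : Type} [Fintype ι] [DecidableEq ι] {i : ι} {κ : ℝ} (hH : Harm.HarmS {j : ι // j ≠ i} κ) :
    ∃ C : ℕ, ∀ (k N : ℕ) (Θ Ξ L : Type) [Fintype Θ] [Nonempty Θ] [Fintype Ξ] [Nonempty Ξ] [Fintype L] [Nonempty L]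
      (_ : N ≤ k) (h Rz J n0 : ℕ) (D : {j : ι // j ≠ i} → L1 (Sq k N ι Θ Ξ) L) (_ : ∀ l, LabK i h l (D l))
      (Lam n : ℝ) (_ : SzM Rz J n0 (Fintype.card (Bool → L)) Lam) (_ : (2 * Lam) ^ C ≤ n),
      ∃ (υ : Type) (Uc : Finset {j : ι // j ≠ i} → ℕ → Sq k N ι Θ (Ξ × CoK N ι Rz (Bool → L)) → υ)
        (G dd : ℕ → Sq k N ι Θ (Ξ × CoK N ι Rz (Bool → L)) → Prop),
        HOut i h (fun l => letK Rz J n0 i l (D l)) Uc (n ^ C) (C * Lam ^ C * n ^ (-κ)) G dd := by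
  obtain ⟨C, hC⟩ := hout_harmS hH
  refine ⟨C, ?_⟩
  intro k N Θ Ξ L _ _ _ _ _ _ hN h Rz J n0 D hD Lam n hs hn
  obtain ⟨υ, Uc, G, dd, hU⟩ := hC k N Θ Ξ (Bool → L) hN h Rz J n0 _ _ (labM_of hD) Lam n hs hn
  refine ⟨υ, Uc, G, dd, ?_⟩
  rw [letK_letS]
  exact hU

/-- **HARM(K), WEAK FORM, IN THE MODEL**, labelled pairs -/
theorem hout_pairW {ι : Type} [Fintype ι] [DecidableEq ι] {i : ι} (hH : Harm.HarmW {j : ι // j ≠ i}) :
    ∃ C : ℕ, ∀ (k N : ℕ) (Θ Ξ L : Type) [Fintype Θ] [Nonempty Θ] [Fintype Ξ] [Nonempty Ξ] [Fintype L] [Nonempty L]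
      (_ : N ≤ k) (h Rz J n0 : ℕ) (D : {j : ι // j ≠ i} → L1 (Sq k N ι Θ Ξ) L) (_ : ∀ l, LabK i h l (D l))
      (Lam : ℝ) (_ : SzM Rz J n0 (Fintype.card (Bool → L)) Lam) (_ : 2 ≤ Lam),
      ∃ (υ : Type) (Uc : Finset {j : ι // j ≠ i} → ℕ → Sq k N ι Θ (Ξ × CoK N ι Rz (Bool → L)) → υ)
        (G dd : ℕ → Sq k N ι Θ (Ξ × CoK N ι Rz (Bool → L)) → Prop),
        HOut i h (fun l => letK Rz J n0 i l (D l)) Uc (Real.exp (Real.log (2 * Lam) ^ C)) Lam⁻¹ G dd := by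
  obtain ⟨C, hC⟩ := hout_harmW hH
  refine ⟨C, ?_⟩
  intro k N Θ Ξ L _ _ _ _ _ _ hN h Rz J n0 D hD Lam hs hn
  obtain ⟨υ, Uc, G, dd, hU⟩ := hC k N Θ Ξ (Bool → L) hN h Rz J n0 _ _ (labM_of hD) Lam hs hn
  refine ⟨υ, Uc, G, dd, ?_⟩
  rw [letK_letS]
  exact hU

end

end Pool.Agent.GM
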