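import Pool.Agent.GM.HarmD
import Pool.Agent.M3.S3.MdlB

/-!
# GM/HarmC: private coins of the letters, every finite set of vertices, and their law (port of M3/NVD, M3/S3/MdlB), helper51

* `CoQ k N ι Ξ Rz φ` : private coins of a vertex (the same type for all vertices): for every label `l` and every value of
  the vertices of the label one sequence of noise `Fin (N+1) → Nz.Ns Rz φ`; a vertex `i` uses them as hidden vertex;
* `msk i l v` : the vertices of the label `l` of the view `i`; `nuQ i l w` : its noise; `letQ` : THE PUBLISHED LETTERS of the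
  label `l : {j // j ≠ i}` with the scripts `oc`, `tc` (functions of the raw sample point);
* `nuQ_law` : the noise of one label is uniform and independent of the raw sample point; `coin_lawQ` : given the raw
  sample point the letters of all labels of the view are independent with the laws `Nz.kr`;
* `E_topQ` : mean over the model = mean over the tops of the mean over `(x, y)`.
-/

set_option autoImplicit false
set_option linter.unusedSectionVars false
set_option linter.unusedVariables false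

namespace Pool.Agent.GM

open Finset Pool.Agent.PWZ Pool.Agent.M3 Pool.Agent.M3.Bin
open Pool.Agent.M3.Mod (TM XM YM)

noncomputable section

/-- the private coins of a vertex -/
def CoQ (k N : ℕ) (ι Ξ : Type) (Rz : ℕ) (φ : Type) : Type :=
  ι → (ι → Option (Ξ × V k)) → Fin (N + 1) → Nz.Ns Rz φ

instance {k N : ℕ} {ι Ξ : Type} {Rz : ℕ} {φ : Type} [Fintype ι] [Fintype Ξ] [Fintype φ] :
    Fintype (CoQ k N ι Ξ Rz φ) := by
  classical
  unfold CoQ
  infer_instance

instance {k N : ℕ} {ι Ξ : Type} {Rz : ℕ} {φ : Type} : Nonempty (CoQ k N ι Ξ Rz φ) := ⟨fun _ _ _ => (0, none)⟩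

/-! ## uniform laws -/

/-- some coordinates of a uniform function -/
theorem unif_inj {K A σ : Type*} [Fintype K] [DecidableEq K] [Fintype A] [DecidableEq A] [Fintype σ] [Nonempty σ]
    (e : K → A) (he : Function.Injective e) (f : (K → σ) → ℝ) :
    (FP.unif (A → σ)).E (fun c => f (fun l => c (e l))) = (FP.unif (K → σ)).E f := by
  classical
  let E0 : (A → σ) ≃ ({a // a ∈ Set.range e} → σ) × ({a // ¬ a ∈ Set.range e} → σ) :=
    Equiv.piEquivPiSubtypeProd (fun a => a ∈ Set.range e) (fun _ => σ)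
  let E1 : ({a // a ∈ Set.range e} → σ) ≃ (K → σ) := Equiv.arrowCongr (Equiv.ofInjective e he).symm (Equiv.refl σ)
  have h1 := (pulC_unif (E0.trans (Equiv.prodCongr E1 (Equiv.refl _)))).E
    (fun (a : K → σ) (_ : {a // ¬ a ∈ Set.range e} → σ) => f a)
  have h2 : (FP.unif (A → σ)).E (fun c => f (fun l => c (e l))) =
      (FP.unif (A → σ)).E (fun w => f ((E0.trans (Equiv.prodCongr E1 (Equiv.refl _))) w).1) := rfl
  rw [h2, h1]
  exact FP.E_congr _ fun v _ => FP.E_const _ _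

/-- independent coordinates, seen through maps -/
theorem unif_prod_law {K σ φ' : Type*} [Fintype K] [DecidableEq K] [Fintype σ] [Nonempty σ] [Fintype φ']
    (g : K → σ → φ') (Ψ : (K → φ') → ℝ) :
    (FP.unif (K → σ)).E (fun α => Ψ (fun l => g l (α l))) =
      ∑ F : K → φ', (∏ l, (FP.unif σ).Pr (fun a => g l a = F l)) * Ψ F := by
  classical
  rw [Mod.E_lab (FP.unif (K → σ)) (fun α l => g l (α l)) Ψ]
  refine Finset.sum_congr rfl fun F _ => ?_
  congr 1
  have h1 : (FP.unif (K → σ)).Pr (fun α => (fun l => g l (α l)) = F) =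
      (FP.unif (K → σ)).Pr (fun ν => ∀ s, ν s ∈ (univ.filter fun a : σ => g s a = F s)) := by
    unfold FP.Pr
    refine FP.E_congr _ fun α _ => ?_
    congr 1
    refine propext ?_
    show ((fun l => g l (α l)) = F) ↔ ∀ s, α s ∈ (univ.filter fun a : σ => g s a = F s)
    rw [funext_iff]
    simp
  rw [h1, Nz.unif_pi]
  refine Finset.prod_congr rfl fun l _ => ?_
  unfold FP.Pr
  rw [FP.unif_E]
  congr 1
  exact (Nz.sum_ind_card _ _ fun a => by simp).symm

variable {k N : ℕ} {ι Θ Ξ : Type} [Fintype ι] [DecidableEq ι]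

/-! ## letters -/

section letters

variable {Rz : ℕ} {φ : Type}

/-- the vertices of the label `l` of the view `i` -/
def msk (i l : ι) (v : Sq k N ι Θ Ξ) : ι → Option (Ξ × V k) := fun a => if a = i ∨ a = l then none else some (vx a v)

/-- the noise of the label `l` of the view `i` -/
def nuQ (i l : ι) (w : Sq k N ι Θ (Ξ × CoQ k N ι Ξ Rz φ)) : Fin (N + 1) → Nz.Ns Rz φ :=
  coin w i l (msk i l (pic w))

/-- THE LETTERS of the label `l` up to the time `t` -/
def letQ (Rz J n0 : ℕ) (i : ι) (oc : {j : ι // j ≠ i} → ℕ → Sq k N ι Θ Ξ → Prop)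
    (tc : {j : ι // j ≠ i} → ℕ → Sq k N ι Θ Ξ → Option φ) (l : {j : ι // j ≠ i}) (t : ℕ)
    (w : Sq k N ι Θ (Ξ × CoQ k N ι Ξ Rz φ)) : Fin (N + 1) → Option φ :=
  Nz.lab Rz J n0 (fun s => oc l s (pic w)) (fun s => tc l s (pic w)) t (nuQ i l.1 w)

/-- the vertices of the label -/
theorem msk_congr {i l : ι} {v w : Sq k N ι Θ Ξ} (h : ∀ a, a ≠ i → a ≠ l → vx a v = vx a w) : msk i l v = msk i l w := by
  funext a
  unfold msk
  by_cases ha : a = i ∨ a = l
  · rw [if_pos ha, if_pos ha]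
  · rw [if_neg ha, if_neg ha, h a (fun h' => ha (Or.inl h')) (fun h' => ha (Or.inr h'))]

end letters

section coins

variable {Rz : ℕ} {φ : Type} [Fintype φ] [Fintype Ξ] [Nonempty Ξ] [Fintype Θ] [Nonempty Θ]

/-- the noises of the labels of one view are independent and uniform -/
theorem coin_unifQ (i : ι) (y : {j : ι // j ≠ i} → ι → Option (Ξ × V k))
    (f : ({j : ι // j ≠ i} → Fin (N + 1) → Nz.Ns Rz φ) → ℝ) :
    (FP.unif (ι → CoQ k N ι Ξ Rz φ)).E (fun c => f (fun l => c i l.1 (y l))) =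
      (FP.unif ({j : ι // j ≠ i} → Fin (N + 1) → Nz.Ns Rz φ)).E f := by
  classical
  rw [Mod.unif_eval (ι := ι) i (fun c : CoQ k N ι Ξ Rz φ => f (fun l => c l.1 (y l)))]
  let E2 : CoQ k N ι Ξ Rz φ ≃ (ι × (ι → Option (Ξ × V k)) → Fin (N + 1) → Nz.Ns Rz φ) :=
    (Equiv.curry ι (ι → Option (Ξ × V k)) (Fin (N + 1) → Nz.Ns Rz φ)).symm
  have h1 := Mod.unif_equiv E2 (fun c => f (fun l => c (l.1, y l)))
  have h2 : (FP.unif (CoQ k N ι Ξ Rz φ)).E (fun c => f (fun l => c l.1 (y l))) =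
      (FP.unif (CoQ k N ι Ξ Rz φ)).E (fun w => (fun c : ι × (ι → Option (Ξ × V k)) → Fin (N + 1) → Nz.Ns Rz φ =>
        f (fun l : {j : ι // j ≠ i} => c (l.1, y l))) (E2 w)) := rfl
  rw [h2, h1]
  exact unif_inj (fun l : {j : ι // j ≠ i} => (l.1, y l))
    (fun l l' hl => Subtype.ext (Prod.mk.inj hl).1) f

/-- the noises of the labels given the raw sample point -/
theorem noise_lawQ (i : ι) (Ψ : Sq k N ι Θ Ξ → ({j : ι // j ≠ i} → Fin (N + 1) → Nz.Ns Rz φ) → ℝ) :
    Pm.E (fun w : Sq k N ι Θ (Ξ × CoQ k N ι Ξ Rz φ) => Ψ (pic w) (fun l => nuQ i l.1 w)) =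
      Pm.E (fun v : Sq k N ι Θ Ξ => (FP.unif ({j : ι // j ≠ i} → Fin (N + 1) → Nz.Ns Rz φ)).E (Ψ v)) := by
  have h1 := (pulC_pic (k := k) (N := N) (ι := ι) (Θ := Θ) (Ξ := Ξ) (Ci := CoQ k N ι Ξ Rz φ)).E
    (fun v c => Ψ v (fun l => c i l.1 (msk i l.1 v)))
  have h2 : (fun w : Sq k N ι Θ (Ξ × CoQ k N ι Ξ Rz φ) => Ψ (pic w) (fun l => nuQ i l.1 w)) =
      fun w : Sq k N ι Θ (Ξ × CoQ k N ι Ξ Rz φ) => Ψ (pic w) (fun l => coin w i l.1 (msk i l.1 (pic w))) := rfl
  rw [h2, h1]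
  exact FP.E_congr _ fun v _ => coin_unifQ i (fun l => msk i l.1 v) (Ψ v)

/-- all noises of a view, independent of the raw sample point -/
theorem pulC_noise (i : ι) : PulC (Pm (k := k) (N := N) (ι := ι) (Θ := Θ) (P := Ξ × CoQ k N ι Ξ Rz φ)) (Pm (P := Ξ)) pic
    (FP.unif ({j : ι // j ≠ i} → Fin (N + 1) → Nz.Ns Rz φ)) (fun w l => nuQ i l.1 w) where
  E := noise_lawQ i

/-- the noise of one label, independent of the raw sample point -/
theorem nuQ_law (i : ι) (l : {j : ι // j ≠ i}) :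
    PulC (Pm (k := k) (N := N) (ι := ι) (Θ := Θ) (P := Ξ × CoQ k N ι Ξ Rz φ)) (Pm (P := Ξ)) pic
      (FP.unif (Fin (N + 1) → Nz.Ns Rz φ)) (nuQ i l.1) where
  E := fun F => by
    rw [noise_lawQ i (fun v α => F v (α l))]
    exact FP.E_congr _ fun v _ => Mod.unif_eval l (F v)

/-- THE LETTERS given the raw sample point -/
theorem coin_lawQ (J n0 : ℕ) (i : ι) (oc : {j : ι // j ≠ i} → ℕ → Sq k N ι Θ Ξ → Prop)
    (tc : {j : ι // j ≠ i} → ℕ → Sq k N ι Θ Ξ → Option φ) (t : ℕ)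
    (Ψ : Sq k N ι Θ Ξ → ({j : ι // j ≠ i} → Fin (N + 1) → Option φ) → ℝ) :
    Pm.E (fun w : Sq k N ι Θ (Ξ × CoQ k N ι Ξ Rz φ) => Ψ (pic w) (fun l => letQ Rz J n0 i oc tc l t w)) =
    Pm.E (fun v : Sq k N ι Θ Ξ => ∑ F : {j : ι // j ≠ i} → Fin (N + 1) → Option φ,
      (∏ l, Nz.kr Rz J n0 (fun s => oc l s v) (fun s => tc l s v) t (F l)) * Ψ v F) := by
  classical
  have h1 := noise_lawQ (k := k) (N := N) (Θ := Θ) (Ξ := Ξ) (Rz := Rz) (φ := φ) i
    (fun v α => Ψ v (fun l => Nz.lab Rz J n0 (fun s => oc l s v) (fun s => tc l s v) t (α l)))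
  have h2 : (fun w : Sq k N ι Θ (Ξ × CoQ k N ι Ξ Rz φ) => Ψ (pic w) (fun l => letQ Rz J n0 i oc tc l t w)) =
      fun w => Ψ (pic w) (fun l => Nz.lab Rz J n0 (fun s => oc l s (pic w)) (fun s => tc l s (pic w)) t
        (nuQ i l.1 w)) := rfl
  rw [h2, h1]
  refine FP.E_congr _ fun v _ => ?_
  exact unif_prod_law (fun l => Nz.lab Rz J n0 (fun s => oc l s v) (fun s => tc l s v) t) (Ψ v)

end coins

/-! ## the tops -/

section top

variable [Fintype Θ] [Nonempty Θ] [Fintype Ξ] [Nonempty Ξ]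

/-- THE MEAN OVER THE MODEL = mean over the tops of the means over the points -/
theorem E_topQ (i : ι) (h : Sq k N ι Θ Ξ → ℝ) :
    Pm.E h = (FP.unif (TM k Θ)).E (fun τ =>
      (FP.unif (XM N Ξ × ({j : ι // j ≠ i} → YM k Ξ))).E (fun q => h (ptQ i τ q.1 q.2))) := by
  have h1 := (pulC_unif (topQ (k := k) (N := N) (Θ := Θ) (Ξ := Ξ) i)).E (fun τ q => h (ptQ i τ q.1 q.2))
  have h2 : (fun w : Sq k N ι Θ Ξ => h (ptQ i (topQ i w).1 (topQ i w).2.1 (topQ i w).2.2)) = h := by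
    funext w
    show h (ptQ i (tpQ i w) (xQ i w) (ot i w)) = h w
    rw [ptQ_eq]
  rw [h2] at h1
  exact h1

end top

end

end Pool.Agent.GM
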