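import Pool.Agent.GM.Harm
import Pool.Agent.GM.Pic
import Pool.Agent.M3.S3.MdlA

/-!
# GM/HarmD: the data of HARM(K) for the model `Sq`, one top (port of M3/S3/MdlDef, MdlA, NzH to every K), helper51

View of the hidden vertex `i`, `K = {j // j ≠ i}`.  TOP `τ = (θ, z)`, `z = v i + w`.  Given the top the sample point is
`(x, y)`, `x = (ξ i, w) : XM N Ξ`, `y j = vx j`.
SCRIPTS: for every `l : K` occasions `oc l s`, true components `tc l s : Option φ`; `LabM` : they are functions of the known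
vertices but `l` (and of the hidden vertex, for `tc`) and of the public node of the time `s`.
* `ptQ`, `tpQ`, `xQ`, `topQ` : the product form of the sample space; `Qn_top` : same node iff same top and same cells;
* `datQ` : the data `HD` of one top, kernels `Nz.kr`; `thickQ`, `hypQ` : the hypotheses, sizes `SzM`;
* `ent_cell_le` : the entropies created from every state.
-/

set_option autoImplicit false
set_option linter.unusedSectionVars false
set_option linter.unusedVariables false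

namespace Pool.Agent.GM

open Finset Pool.Agent.PWZ Pool.Agent.M3 Pool.Agent.M3.Bin
open Pool.Agent.M3.Mod (nd TM XM YM qaM qbM dgM SzM)
open Pool.Agent.M3.S3 (avg law ent)

noncomputable section

/-! ## entropies created inside a cell -/

section ent

variable {X φ : Type*} [Fintype X] [Fintype φ] [Nonempty φ] {R J n0 N : ℕ} {κ : Type*}

/-- averages over the own cell, inside a union of cells -/
theorem avg_cell {V : Finset X} (bx : X → Finset X) (hs : ∀ w, w ∈ bx w) (hi : ∀ v w, v ∈ bx w → bx v = bx w)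
    (hV : ∀ w ∈ V, bx w ⊆ V) (g : X → ℝ) : avg V (fun x => avg (bx x) g) = avg V g := by
  classical
  have h1 := S3.sum_cell bx hs hi (fun v => if v ∈ V then g v else 0)
  have h2 : ∀ w, (∑ v ∈ bx w, if v ∈ V then g v else 0) / ((bx w).card : ℝ) =
      if w ∈ V then (∑ v ∈ bx w, g v) / ((bx w).card : ℝ) else 0 := by
    intro w
    by_cases hw : w ∈ V
    · rw [if_pos hw]
      congr 1
      exact Finset.sum_congr rfl fun v hv => if_pos (hV w hw hv)
    · rw [if_neg hw]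
      have h3 : ∀ v ∈ bx w, (if v ∈ V then g v else 0) = 0 := by
        intro v hv
        refine if_neg fun hvV => hw ?_
        have h4 := hi v w hv
        exact hV v hvV (h4 ▸ hs w)
      rw [Finset.sum_eq_zero h3, zero_div]
  rw [Finset.sum_congr rfl fun w _ => h2 w, ← Finset.sum_filter, ← Finset.sum_filter] at h1
  have h5 : (univ.filter fun w => w ∈ V) = V := by ext; simp
  rw [h5] at h1
  unfold avg
  rw [h1]

theorem avg_mono' {V : Finset X} {f g : X → ℝ} (h : ∀ x ∈ V, f x ≤ g x) : avg V f ≤ avg V g := by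
  unfold avg
  exact div_le_div_of_nonneg_right (Finset.sum_le_sum h) (Nat.cast_nonneg _)

theorem avg_add' {V : Finset X} (f g : X → ℝ) : avg V (fun x => f x + g x) = avg V f + avg V g := by
  unfold avg
  rw [Finset.sum_add_distrib, add_div]

theorem avg_mul_const' {V : Finset X} (f : X → ℝ) (c : ℝ) : avg V (fun x => f x * c) = avg V f * c := by
  unfold avg
  rw [← Finset.sum_mul]
  ring

theorem avg_const_mul' {V : Finset X} (f : X → ℝ) (c : ℝ) : avg V (fun x => c * f x) = c * avg V f := by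
  unfold avg
  rw [← Finset.mul_sum]
  ring

theorem avg_sum' {α : Type*} {V : Finset X} (s : Finset α) (f : α → X → ℝ) :
    avg V (fun x => ∑ i ∈ s, f i x) = ∑ i ∈ s, avg V (f i) := by
  unfold avg
  rw [Finset.sum_comm, Finset.sum_div]

theorem avg_const' {V : Finset X} (hV : V.Nonempty) (c : ℝ) : avg V (fun _ => c) = c := by
  unfold avg
  have : (V.card : ℝ) ≠ 0 := by exact_mod_cast hV.card_pos.ne'
  rw [Finset.sum_const, nsmul_eq_mul]
  field_simp

theorem avg_congr' {V : Finset X} {f g : X → ℝ} (h : ∀ x ∈ V, f x = g x) : avg V f = avg V g := by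
  unfold avg
  rw [Finset.sum_congr rfl h]

/-- **the entropies created from the state of the time `s`** : labels published with noise, occasions known in the cells -/
theorem ent_cell_le {qa : ℕ → X → κ} (ra : ∀ t x x', qa (t + 1) x = qa (t + 1) x' → qa t x = qa t x')
    {cA : ℕ → X → Finset X} (hcA : ∀ t x y, y ∈ cA t x ↔ qa t y = qa t x)
    {oc : X → ℕ → Prop} {tc : X → ℕ → Option φ}
    (hoc : ∀ t ≤ N, ∀ x x', qa t x = qa t x' → (oc x t ↔ oc x' t)) (hJ : 1 ≤ J) {s T : ℕ} (hsT : s ≤ T) (hT : T ≤ N)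
    (x : X) :
    avg (cA s x) (fun x' => (ent fun F => law (cA s x') (fun y => Nz.kr (N := N) R J n0 (oc y) (tc y) s) F) +
      ∑ t ∈ Ico s T, ((ent fun F => law (cA (t + 1) x') (fun y => Nz.kr (N := N) R J n0 (oc y) (tc y) (t + 1)) F) -
        (ent fun F => law (cA (t + 1) x') (fun y => Nz.kr (N := N) R J n0 (oc y) (tc y) t) F))) ≤
    Real.log (Fintype.card φ + 1) + (2 * n0 * (1 + Real.log J + Real.log (Fintype.card φ)) + 1) := by
  classical
  have qle : ∀ s t, s ≤ t → ∀ x x', qa t x = qa t x' → qa s x = qa s x' := by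
    intro s t hst
    induction t, hst using Nat.le_induction with
    | base => exact fun x x' h => h
    | succ n _ ih => exact fun x x' h => ih x x' (ra n x x' h)
  have hself : ∀ t x, x ∈ cA t x := fun t x => (hcA t x x).2 rfl
  have hcong : ∀ t v w, v ∈ cA t w → cA t v = cA t w := by
    intro t v w hv
    ext y
    rw [hcA, hcA, (hcA t w v).1 hv]
  have ocle : ∀ t ≤ N, ∀ x x', qa t x = qa t x' → ∀ r ≤ t, (oc x r ↔ oc x' r) :=
    fun t ht x x' h r hr => hoc r (hr.trans ht) x x' (qle r t hr x x' h)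
  have hJ' : (0 : ℝ) < J := by exact_mod_cast hJ
  have hlJ : 0 ≤ Real.log J := Real.log_nonneg (by exact_mod_cast hJ)
  have hlc : 0 ≤ Real.log (Fintype.card φ) := Real.log_nonneg (by exact_mod_cast Fintype.card_pos)
  set V := cA s x with hV
  have hVne : V.Nonempty := ⟨x, hself s x⟩
  set g : ℕ → X → ℝ := fun t y => (FP.unif (Fin (N + 1) → Nz.Ns R φ)).E
      (fun ν => ind (Nz.pub R J n0 (oc y) (tc y) (Nz.sq ν) (t + 1) ≠ none)) with hg
  set B : ℝ := 1 + Real.log J + Real.log (Fintype.card φ) with hB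
  set kk : ℕ → X → (Fin (N + 1) → Option φ) → ℝ := fun t y => Nz.kr (N := N) R J n0 (oc y) (tc y) t with hkk
  -- the entropy at the time `s`
  have h1 : ∀ r ≤ s, (ent fun F => law V (kk r) F) ≤ Real.log (Fintype.card φ + 1) +
      ∑ t ∈ range r, (avg V (g t) * B + 1 / J * avg V (fun x' => ind (Nz.aoc J (oc x') (t + 1)))) := by
    intro r
    induction r with
    | zero =>
      intro _
      rw [Finset.sum_range_zero, add_zero]
      exact S3.ent_zero hVne oc tc
    | succ r ih =>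
      intro hr
      have h2 := ih (by omega)
      rw [Finset.sum_range_succ]
      have h3 := S3.ent_step (R := R) (n0 := n0) (N := N) hVne (oc := oc) (tc := tc) (t := r) (by omega)
        (A := Nz.aoc J (oc x) (r + 1))
        (fun y hy h => (S3.aoc_congr (J := J) (ocle (r + 1) (by omega) y x
          (qle (r + 1) s hr y x ((hcA s x y).1 hy)))).1 h) hJ
      have h4 : avg V (fun x' => ind (Nz.aoc J (oc x') (r + 1))) = ind (Nz.aoc J (oc x) (r + 1)) := by
        rw [avg_congr' (g := fun _ => ind (Nz.aoc J (oc x) (r + 1))) fun y hy => ?_, avg_const' hVne]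
        congr 1
        exact propext (S3.aoc_congr (J := J) (ocle (r + 1) (by omega) y x
          (qle (r + 1) s hr y x ((hcA s x y).1 hy))))
      rw [h4]
      linarith
  -- the later steps
  have h2 : ∀ t ∈ Ico s T, avg V (fun x' => (ent fun F => law (cA (t + 1) x') (kk (t + 1)) F) -
      (ent fun F => law (cA (t + 1) x') (kk t) F)) ≤
      avg V (g t) * B + 1 / J * avg V (fun x' => ind (Nz.aoc J (oc x') (t + 1))) := by
    intro t ht
    obtain ⟨ht1, ht2⟩ := Finset.mem_Ico.1 ht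
    have h3 : avg V (fun x' => avg (cA (t + 1) x') (g t)) = avg V (g t) := by
      refine avg_cell (fun x' => cA (t + 1) x') (hself (t + 1)) (hcong (t + 1)) (fun w hw y hy => ?_) (g t)
      rw [hV, hcA] at hw ⊢
      exact (qle s (t + 1) (by omega) y w ((hcA (t + 1) w y).1 hy)).trans hw
    rw [← h3, ← avg_mul_const', ← avg_const_mul', ← avg_add']
    refine avg_mono' fun x' _ => ?_
    exact S3.ent_step (R := R) (n0 := n0) (N := N) ⟨x', hself (t + 1) x'⟩ (oc := oc) (tc := tc) (t := t) (by omega)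
      (A := Nz.aoc J (oc x') (t + 1))
      (fun y hy h => (S3.aoc_congr (J := J) (ocle (t + 1) (by omega) y x' ((hcA (t + 1) x' y).1 hy))).1 h) hJ
  have h3 : avg V (fun x' => (ent fun F => law (cA s x') (kk s) F) +
      ∑ t ∈ Ico s T, ((ent fun F => law (cA (t + 1) x') (kk (t + 1)) F) -
        (ent fun F => law (cA (t + 1) x') (kk t) F))) ≤ Real.log (Fintype.card φ + 1) +
      ∑ t ∈ range T, (avg V (g t) * B + 1 / J * avg V (fun x' => ind (Nz.aoc J (oc x') (t + 1)))) := by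
    rw [avg_add', avg_sum']
    have h4 : avg V (fun x' => ent fun F => law (cA s x') (kk s) F) = ent fun F => law V (kk s) F := by
      rw [avg_congr' (g := fun _ => ent fun F => law V (kk s) F) fun y hy => ?_, avg_const' hVne]
      rw [hcong s y x hy]
    rw [h4]
    have h5 := h1 s le_rfl
    have h6 := Finset.sum_le_sum h2
    have h7 := Finset.sum_range_add_sum_Ico
      (fun t => avg V (g t) * B + 1 / J * avg V (fun x' => ind (Nz.aoc J (oc x') (t + 1)))) hsT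
    linarith
  refine h3.trans ?_
  rw [Finset.sum_add_distrib, ← Finset.sum_mul, ← Finset.mul_sum, ← avg_sum', ← avg_sum']
  have h4 : avg V (fun y => ∑ t ∈ range T, g t y) ≤ 2 * n0 := by
    refine le_trans (avg_mono' (g := fun _ => (2 * n0 : ℝ)) fun y _ => ?_) (le_of_eq (avg_const' hVne _))
    rw [hg]
    simp only
    rw [← FP.E_sum]
    exact FP.E_le_const _ fun ν _ => Nz.pub_count _ _ _ T
  have h5 : avg V (fun y => ∑ t ∈ range T, ind (Nz.aoc J (oc y) (t + 1))) ≤ J :=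
    le_trans (avg_mono' (g := fun _ => (J : ℝ)) fun y _ => Nz.aoc_count J (oc y) T) (le_of_eq (avg_const' hVne _))
  have h6 : 1 / (J : ℝ) * avg V (fun y => ∑ t ∈ range T, ind (Nz.aoc J (oc y) (t + 1))) ≤ 1 := by
    calc 1 / (J : ℝ) * avg V (fun y => ∑ t ∈ range T, ind (Nz.aoc J (oc y) (t + 1))) ≤ 1 / (J : ℝ) * J :=
          mul_le_mul_of_nonneg_left h5 (by positivity)
      _ = 1 := by field_simp
  have h7 := mul_le_mul_of_nonneg_right h4 (show 0 ≤ B by rw [hB]; linarith)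
  linarith

end ent

theorem Harm.HD.mem_cA' {K X β γ φ : Type} [Fintype X] (D : Harm.HD K X β γ φ) {t : ℕ} {x x' : X} :
    x' ∈ D.cA t x ↔ D.qa t x' = D.qa t x := by
  classical
  simp [Harm.HD.cA]

theorem Harm.HD.mem_cB' {K X β γ φ : Type} [Fintype β] (D : Harm.HD K X β γ φ) {t : ℕ} {b b' : β} :
    b' ∈ D.cB t b ↔ D.qb t b' = D.qb t b := by
  classical
  simp [Harm.HD.cB]

theorem avg_swap {X Y : Type*} (V : Finset X) (W : Finset Y) (f : X → Y → ℝ) :
    avg V (fun x => avg W (fun b => f x b)) = avg W (fun b => avg V (fun x => f x b)) := by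
  unfold avg
  simp only [Finset.sum_div]
  rw [Finset.sum_comm]
  refine Finset.sum_congr rfl fun b _ => Finset.sum_congr rfl fun x _ => ?_
  rw [div_right_comm]

/-! ## the sample space of a view in product form -/

section top

variable {k N : ℕ} {ι Θ Ξ : Type} [Fintype ι] [DecidableEq ι]

/-- the sample point of a top, a hidden point and the known points -/
def ptQ (i : ι) (τ : TM k Θ) (x : XM N Ξ) (y : {j : ι // j ≠ i} → YM k Ξ) : Sq k N ι Θ Ξ :=
  (τ.1, fun a => if h : a = i then (x.1, τ.2 - ((x.2.val : ℕ) : V k)) else y ⟨a, h⟩, x.2)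

/-- the top of a sample point -/
def tpQ (i : ι) (ω : Sq k N ι Θ Ξ) : TM k Θ := (th ω, (vx i ω).2 + (nz ω : V k))

/-- the hidden point of a sample point -/
def xQ (i : ι) (ω : Sq k N ι Θ Ξ) : XM N Ξ := ((vx i ω).1, ω.2.2)

variable {i : ι}

theorem th_ptQ (τ : TM k Θ) (x : XM N Ξ) (y : {j : ι // j ≠ i} → YM k Ξ) : th (ptQ i τ x y) = τ.1 := rfl

theorem nz_ptQ (τ : TM k Θ) (x : XM N Ξ) (y : {j : ι // j ≠ i} → YM k Ξ) : nz (ptQ i τ x y) = x.2.val := rfl

theorem vi_ptQ (τ : TM k Θ) (x : XM N Ξ) (y : {j : ι // j ≠ i} → YM k Ξ) :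
    vx i (ptQ i τ x y) = (x.1, τ.2 - ((x.2.val : ℕ) : V k)) := by
  unfold vx ptQ
  simp

theorem vj_ptQ (τ : TM k Θ) (x : XM N Ξ) (y : {j : ι // j ≠ i} → YM k Ξ) (a : {j : ι // j ≠ i}) :
    vx a.1 (ptQ i τ x y) = y a := by
  unfold vx ptQ
  simp [a.2]

theorem ot_ptQ (τ : TM k Θ) (x : XM N Ξ) (y : {j : ι // j ≠ i} → YM k Ξ) : ot i (ptQ i τ x y) = y :=
  funext fun a => vj_ptQ τ x y a

theorem tp_ptQ (τ : TM k Θ) (x : XM N Ξ) (y : {j : ι // j ≠ i} → YM k Ξ) : tpQ i (ptQ i τ x y) = τ := by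
  unfold tpQ
  rw [vi_ptQ, nz_ptQ, th_ptQ]
  refine Prod.ext rfl ?_
  show τ.2 - ((x.2.val : ℕ) : V k) + ((x.2.val : ℕ) : V k) = τ.2
  abel

theorem x_ptQ (τ : TM k Θ) (x : XM N Ξ) (y : {j : ι // j ≠ i} → YM k Ξ) : xQ i (ptQ i τ x y) = x := by
  unfold xQ
  rw [vi_ptQ]
  rfl

theorem ptQ_eq (ω : Sq k N ι Θ Ξ) : ptQ i (tpQ i ω) (xQ i ω) (ot i ω) = ω := by
  refine Prod.ext rfl (Prod.ext ?_ rfl)
  funext a
  show (if h : a = i then ((xQ i ω).1, (tpQ i ω).2 - (((xQ i ω).2.val : ℕ) : V k)) else ot i ω ⟨a, h⟩) = ω.2.1 a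
  by_cases h : a = i
  · subst h
    rw [dif_pos rfl]
    refine Prod.ext rfl ?_
    show (vx a ω).2 + (nz ω : V k) - (((xQ a ω).2.val : ℕ) : V k) = (ω.2.1 a).2
    have : (((xQ a ω).2.val : ℕ) : V k) = (nz ω : V k) := rfl
    rw [this]
    unfold vx
    abel
  · rw [dif_neg h]
    rfl

/-- THE PRODUCT FORM of the sample space -/
def topQ (i : ι) : Sq k N ι Θ Ξ ≃ TM k Θ × (XM N Ξ × ({j : ι // j ≠ i} → YM k Ξ)) where
  toFun ω := (tpQ i ω, xQ i ω, ot i ω)
  invFun q := ptQ i q.1 q.2.1 q.2.2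
  left_inv ω := ptQ_eq ω
  right_inv q := by
    obtain ⟨τ, x, y⟩ := q
    exact Prod.ext (tp_ptQ τ x y) (Prod.ext (x_ptQ τ x y) (ot_ptQ τ x y))

/-- the path of the view in terms of the top -/
theorem Zn_topQ {e : ℕ} (ω : Sq k N ι Θ Ξ) :
    Zn i e ω = ((tpQ i ω).2 - ((nz ω / 2 ^ e * 2 ^ e : ℕ) : V k), nz ω / 2 ^ e) := by
  unfold Zn nd tpQ
  refine Prod.ext ?_ rfl
  show (vx i ω).2 + ((nz ω % 2 ^ e : ℕ) : V k) = (vx i ω).2 + (nz ω : V k) - ((nz ω / 2 ^ e * 2 ^ e : ℕ) : V k)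
  have h1 : ((nz ω : ℕ) : V k) = ((nz ω / 2 ^ e * 2 ^ e + nz ω % 2 ^ e : ℕ) : V k) := by
    rw [Nat.div_add_mod']
  rw [h1]
  push_cast
  abel

/-- same public node iff same top and same cells -/
theorem Qn_top (h t : ℕ) (v w : Sq k N ι Θ Ξ) :
    Qn i h (Mod.ex N t) v = Qn i h (Mod.ex N t) w ↔ tpQ i v = tpQ i w ∧ qaM k N t (xQ i v) = qaM k N t (xQ i w) ∧
      ∀ a : {j : ι // j ≠ i}, qbM N h t (ot i v a) = qbM N h t (ot i w a) := by
  rw [Qn_eq]
  constructor
  · rintro ⟨h1, h2, h3⟩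
    rw [Zn_topQ v, Zn_topQ w, Prod.mk.injEq] at h2
    refine ⟨Prod.ext h1 ?_, ?_, fun a => ?_⟩
    · have h4 := h2.1
      rw [h2.2] at h4
      exact sub_left_injective h4
    · exact Prod.ext h2.2 rfl
    · exact Prod.ext rfl (h3 a.1 a.2)
  · rintro ⟨h1, h2, h3⟩
    have h2' : nz v / 2 ^ Mod.ex N t = nz w / 2 ^ Mod.ex N t := (Prod.mk.inj h2).1
    refine ⟨(Prod.mk.inj h1).1, ?_, fun a ha => ?_⟩
    · rw [Zn_topQ v, Zn_topQ w, h1, h2']
    · exact (Prod.mk.inj (h3 ⟨a, ha⟩)).2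

theorem Dg_topQ (t : ℕ) (ω : Sq k N ι Θ Ξ) : Dg (Mod.ex N (t + 1)) ω = Mod.dgM N t (xQ i ω) := rfl

theorem Qn_ptQ {h t : ℕ} {τ : TM k Θ} {x x' : XM N Ξ} {y y' : {j : ι // j ≠ i} → YM k Ξ}
    (hx : qaM k N t x = qaM k N t x') (hy : ∀ a, qbM N h t (y a) = qbM N h t (y' a)) :
    Qn i h (Mod.ex N t) (ptQ i τ x y) = Qn i h (Mod.ex N t) (ptQ i τ x' y') := by
  rw [Qn_top, tp_ptQ, tp_ptQ, x_ptQ, x_ptQ, ot_ptQ, ot_ptQ]
  exact ⟨rfl, hx, hy⟩

/-! ## scripts -/

/-- SCRIPTS of the labels, one for each known vertex `l` (the vertices of the label: all but `l`) -/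
structure LabM (i : ι) (h : ℕ) {φ : Type} (oc : {j : ι // j ≠ i} → ℕ → Sq k N ι Θ Ξ → Prop)
    (tc : {j : ι // j ≠ i} → ℕ → Sq k N ι Θ Ξ → Option φ) : Prop where
  oc : ∀ l s v w, KJ i h (univ.erase l) (Mod.ex N s) v = KJ i h (univ.erase l) (Mod.ex N s) w → (oc l s v ↔ oc l s w)
  tc : ∀ l s, Fac (AJ i h (univ.erase l) (Mod.ex N s)) (tc l s)

variable {h : ℕ} {φ : Type} {oc : {j : ι // j ≠ i} → ℕ → Sq k N ι Θ Ξ → Prop}
  {tc : {j : ι // j ≠ i} → ℕ → Sq k N ι Θ Ξ → Option φ}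

/-- same node and same vertices of the label: occasions -/
theorem LabM.oc_pt (H : LabM i h oc tc) (τ : TM k Θ) {l : {j : ι // j ≠ i}} {t : ℕ} {x x' : XM N Ξ}
    {y y' : {j : ι // j ≠ i} → YM k Ξ} (hy : ∀ a, a ≠ l → y a = y' a) (hx : qaM k N t x = qaM k N t x')
    (hl : qbM N h t (y l) = qbM N h t (y' l)) : oc l t (ptQ i τ x y) ↔ oc l t (ptQ i τ x' y') := by
  refine H.oc l t _ _ ?_
  rw [KJ_eq]
  refine ⟨fun a ha => ?_, Qn_ptQ hx fun a => ?_⟩
  · rw [vj_ptQ, vj_ptQ]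
    exact hy a (Finset.ne_of_mem_erase ha)
  · by_cases hal : a = l
    · rw [hal]
      exact hl
    · rw [hy a hal]

/-- same hidden point too: true components -/
theorem LabM.tc_pt (H : LabM i h oc tc) (τ : TM k Θ) {l : {j : ι // j ≠ i}} {t : ℕ} {x : XM N Ξ}
    {y y' : {j : ι // j ≠ i} → YM k Ξ} (hy : ∀ a, a ≠ l → y a = y' a)
    (hl : qbM N h t (y l) = qbM N h t (y' l)) : tc l t (ptQ i τ x y) = tc l t (ptQ i τ x y') := by
  refine H.tc l t _ _ ?_
  rw [AJ_eq]
  refine ⟨by rw [vi_ptQ, vi_ptQ], fun a ha => ?_, Qn_ptQ rfl fun a => ?_⟩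
  · rw [vj_ptQ, vj_ptQ]
    exact hy a (Finset.ne_of_mem_erase ha)
  · by_cases hal : a = l
    · rw [hal]
      exact hl
    · rw [hy a hal]

/-! ## the data of one top -/

variable [Fintype φ]

/-- KERNEL of the label `l` at the points of the top `τ` -/
def kfQ (Rz J n0 : ℕ) (oc : {j : ι // j ≠ i} → ℕ → Sq k N ι Θ Ξ → Prop)
    (tc : {j : ι // j ≠ i} → ℕ → Sq k N ι Θ Ξ → Option φ) (τ : TM k Θ) (t : ℕ) (l : {j : ι // j ≠ i}) (x : XM N Ξ)
    (y : {j : ι // j ≠ i} → YM k Ξ) (F : Fin (N + 1) → Option φ) : ℝ :=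
  Nz.kr Rz J n0 (fun s => oc l s (ptQ i τ x y)) (fun s => tc l s (ptQ i τ x y)) t F

/-- THE DATA OF HARM(K) for one top -/
def datQ (Rz J n0 : ℕ) (H : LabM i h oc tc) (τ : TM k Θ) :
    Harm.HD {j : ι // j ≠ i} (XM N Ξ) (YM k Ξ) (ℕ × V k) (Fin (N + 1) → Option φ) where
  qa := qaM k N
  qb := qbM N h
  kf := kfQ Rz J n0 oc tc τ
  ra := fun t x x' hx => Mod.qaM_ref t x x' hx
  rb := fun t b b' hb => Mod.qbM_ref t b b' hb
  dep := fun t l x y y' hy hl => by
    funext F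
    refine Nz.kr_congr (fun s hs => ?_) (fun s hs => ?_) F
    · exact H.oc_pt τ hy rfl (Mod.qbM_le hs hl)
    · exact H.tc_pt τ hy (Mod.qbM_le hs hl)

/-- (H1) -/
theorem thickQ {Rz J n0 : ℕ} (hR : 1 ≤ Rz) (H : LabM i h oc tc) (τ : TM k Θ) :
    (datQ Rz J n0 H τ).Thick (Nz.alz Rz J n0 (Fintype.card φ)) where
  pos := Mod.alz_pos hR _ _ _
  nn := fun t l x y F => Nz.kr_nn _ _
  one := fun t l x y => by
    classical
    exact Nz.kr_one t
  thick := fun t l x x' y F hx hF => by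
    refine Nz.kr_thick (fun s hs => ?_) hF
    exact H.oc_pt τ (fun _ _ => rfl) (Mod.qaM_le hs hx) rfl

/-! ## the hypotheses -/

omit [Fintype ι] [DecidableEq ι] [Fintype φ] in
/-- the cells of the hidden point and of the known points, as data of `M3.S3` (only to reuse lemmas) -/
def cellD (k N h : ℕ) (Ξ : Type) : S3.Dat (XM N Ξ) (YM k Ξ) Unit (ℕ × V k) Unit where
  qa := qaM k N
  qb := qbM N h
  qc := fun _ _ => (0, 0)
  kf := fun _ _ _ _ _ => 0
  kg := fun _ _ _ _ _ => 0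
  ra := fun t x x' hx => Mod.qaM_ref t x x' hx
  rb := fun t b b' hb => Mod.qbM_ref t b b' hb
  rc := fun _ _ _ _ => rfl
  kf_c := fun _ _ _ _ _ _ => rfl
  kg_b := fun _ _ _ _ _ _ => rfl

theorem memQ_cA [Fintype Ξ] {Rz J n0 : ℕ} {H : LabM i h oc tc} {τ : TM k Θ} {t : ℕ} {x x' : XM N Ξ} :
    x' ∈ (datQ Rz J n0 H τ).cA t x ↔ qaM k N t x' = qaM k N t x :=
  Harm.HD.mem_cA' (datQ Rz J n0 H τ)

theorem memQ_cB [Fintype Ξ] {Rz J n0 : ℕ} {H : LabM i h oc tc} {τ : TM k Θ} {t : ℕ} {b b' : YM k Ξ} :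
    b' ∈ (datQ Rz J n0 H τ).cB t b ↔ qbM N h t b' = qbM N h t b :=
  Harm.HD.mem_cB' (datQ Rz J n0 H τ)

theorem cAQ_eq [Fintype Ξ] {Rz J n0 : ℕ} {H : LabM i h oc tc} {τ : TM k Θ} (t : ℕ) (x : XM N Ξ) :
    (datQ Rz J n0 H τ).cA t x = (cellD k N h Ξ).cA t x := by
  ext x'
  rw [memQ_cA, S3.Dat.mem_cA]
  rfl

theorem cBQ_eq [Fintype Ξ] {Rz J n0 : ℕ} {H : LabM i h oc tc} {τ : TM k Θ} (t : ℕ) (b : YM k Ξ) :
    (datQ Rz J n0 H τ).cB t b = (cellD k N h Ξ).cB t b := by
  ext x'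
  rw [memQ_cB, S3.Dat.mem_cB]
  rfl

/-- THE HYPOTHESES OF HARM(K) -/
theorem hypQ [Nonempty φ] [Fintype Ξ] [Nonempty Ξ] (hN : N ≤ k) (H : LabM i h oc tc) (τ : TM k Θ) {Rz J n0 : ℕ}
    {Lam : ℝ} (hs : SzM Rz J n0 (Fintype.card φ) Lam) :
    (datQ Rz J n0 H τ).Hyp (Mod.dgM N) (fun t _ => rst t) (Nz.alz Rz J n0 (Fintype.card φ)) N Lam where
  Lam1 := hs.Lam1
  alL := hs.al
  dg_val := fun t x => Mod.dgM_val t x
  dg_cell := fun t ht x x' => Mod.dgM_cell ht x x'
  dg_bal := fun t ht x => by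
    rw [cAQ_eq]
    exact Mod.dgM_bal (k := k) (cellD k N h Ξ) ht (fun _ _ => Iff.rfl) x
  half := fun t ht => by
    simp only [cBQ_eq]
    exact Mod.halfM (cellD k N h Ξ) hN ht (fun _ _ _ => Iff.rfl)
  kf_pr := fun t _ l x y F => S3.kr_rst _ _ t F
  H2 := fun s hsN l x y => by
    refine le_trans ?_ hs.H2
    unfold Harm.HD.mean
    rw [avg_swap]
    have hne : ((datQ Rz J n0 H τ).cB s (y l)).Nonempty := ⟨y l, memQ_cB.2 rfl⟩
    refine le_trans (avg_mono' (g := fun _ => Real.log (Fintype.card φ + 1) +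
      (2 * n0 * (1 + Real.log J + Real.log (Fintype.card φ)) + 1)) fun b _ => ?_) (le_of_eq (avg_const' hne _))
    exact ent_cell_le (N := N) (R := Rz) (J := J) (n0 := n0) (qa := qaM k N) (fun t x x' hx => Mod.qaM_ref t x x' hx)
      (cA := (datQ Rz J n0 H τ).cA) (fun t x y => memQ_cA)
      (oc := fun x' s => oc l s (ptQ i τ x' (Function.update y l b)))
      (tc := fun x' s => tc l s (ptQ i τ x' (Function.update y l b)))
      (fun t _ x x' hx => H.oc_pt τ (fun _ _ => rfl) hx rfl) hs.J1 hsN le_rfl x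
  H3 := fun l x y => by
    refine le_trans (Finset.sum_le_sum fun t ht => ?_)
      ((Nz.aoc_count J (fun s => oc l s (ptQ i τ x y)) N).trans hs.JL)
    have htK := Finset.mem_range.1 ht
    by_cases hc : ∃ x' ∈ (datQ Rz J n0 H τ).cA (t + 1) x,
        (datQ Rz J n0 H τ).kf (t + 1) l x' y ≠ (datQ Rz J n0 H τ).kf t l x' y
    · obtain ⟨x', hx', hne⟩ := hc
      have h1 : Nz.aoc J (fun s => oc l s (ptQ i τ x' y)) (t + 1) := by
        by_contra hn
        apply hne
        funext F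
        exact S3.kr_stay hn F
      have h2 := (S3.aoc_congr (J := J) (fun s hs' => H.oc_pt τ (l := l) (fun _ _ => rfl)
        (Mod.qaM_le hs' (memQ_cA.1 hx')) rfl)).1 h1
      rw [ind_of h2]
      exact ind_le_one _
    · rw [ind_not hc]
      exact ind_nonneg _

end top

end

end Pool.Agent.GM
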