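import Pool.Agent.GM.CL

/-!
# GM/HarmEq (helper51): the contracts HARM(K) and CL(K) depend only on the number of elements of `K`

`HarmWC K C`, `HarmSC K κ C`, `CLSC K κ C` : the contracts with the explicit constant `C`; `harmWC_congr`,
`harmSC_congr`, `clsC_congr` : transport along `e : K ≃ K'`; `HarmWU n`, `HarmSU n κ`, `CLSU n κ` : ONE constant for
all index types with `n` elements, from the contract of `Fin n` (or of any type with `n` elements).

Transport: data `D` for `K'` are seen from `K` by `D.cm e` (`kf t l x y := D.kf t (e l) x (y ∘ e.symm)`), sample points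
by the equivalence `cmP e`, sets of known points by `cs e`; all conditional means are the same.
-/

set_option autoImplicit false
set_option linter.unusedSectionVars false

namespace Pool.Agent.GM.Harm

open Finset Pool.Agent.PWZ Pool.Agent.M3
open Pool.Agent.M3.S3 (avg law ent)

noncomputable section

/-- HARM(K), weak form, with its constant -/
def HarmWC (K : Type) [Fintype K] [DecidableEq K] (C : ℕ) : Prop :=
  ∀ (X β γ φ : Type) [Fintype X] [Fintype β] [Fintype φ] [Nonempty X] [Nonempty β]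
    (D : HD K X β γ φ) (al : ℝ) (h : D.Thick al) (dg : ℕ → X → ℝ) (pr : ℕ → K → φ → φ) (T : ℕ) (Lam : ℝ),
    D.Hyp dg pr al T Lam → 2 ≤ Lam →
    ∃ (υ : Type) (U : Finset K → ℕ → X → (K → β) → υ) (G dd : ℕ → Pt K X β φ → Prop),
      Concl U h dg pr T (Real.exp (Real.log (2 * Lam) ^ C)) Lam⁻¹ G dd

/-- HARM(K), strong form, with its constant -/
def HarmSC (K : Type) [Fintype K] [DecidableEq K] (κ : ℝ) (C : ℕ) : Prop :=
  ∀ (X β γ φ : Type) [Fintype X] [Fintype β] [Fintype φ] [Nonempty X] [Nonempty β]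
    (D : HD K X β γ φ) (al : ℝ) (h : D.Thick al) (dg : ℕ → X → ℝ) (pr : ℕ → K → φ → φ) (T : ℕ) (Lam N : ℝ),
    D.Hyp dg pr al T Lam → (2 * Lam) ^ C ≤ N →
    ∃ (υ : Type) (U : Finset K → ℕ → X → (K → β) → υ) (G dd : ℕ → Pt K X β φ → Prop),
      Concl U h dg pr T (N ^ C) (C * Lam ^ C * N ^ (-κ)) G dd

/-- CL(K) with its constant -/
def CLSC (K : Type) [Fintype K] [DecidableEq K] (κ : ℝ) (C : ℕ) : Prop :=
  ∀ (X β γ φ : Type) [Fintype X] [Fintype β] [Fintype φ] [Nonempty X] [Nonempty β]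
    (D : HD K X β γ φ) (al : ℝ) (h : D.Thick al) (dg : ℕ → X → ℝ) (pr : ℕ → K → φ → φ) (T : ℕ) (Lam N : ℝ),
    D.Hyp dg pr al T Lam → (2 * Lam) ^ C ≤ N →
    ∃ (υ : Type) (U : Finset K → ℕ → X → (K → β) → υ),
      ConclCL U h pr T (C * Real.log N) (N ^ C) (C * Lam ^ C * N ^ (-κ))

theorem harmW_iff (K : Type) [Fintype K] [DecidableEq K] : HarmW K ↔ ∃ C, HarmWC K C := Iff.rfl

theorem harmS_iff (K : Type) [Fintype K] [DecidableEq K] (κ : ℝ) : HarmS K κ ↔ ∃ C, HarmSC K κ C := Iff.rfl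

theorem cls_iff (K : Type) [Fintype K] [DecidableEq K] (κ : ℝ) : CLS K κ ↔ ∃ C, CLSC K κ C := Iff.rfl

/-! ## two finite probability spaces with an equivalence -/

section fp

variable {Om Om' : Type*} [Fintype Om] [Fintype Om'] {P : FP Om} {P' : FP Om'}

theorem eqv_E (e : Om ≃ Om') (hp : ∀ w, P.p w = P'.p (e w)) (f : Om' → ℝ) : P.E (fun w => f (e w)) = P'.E f := by
  unfold FP.E
  rw [← Equiv.sum_comp e (fun w => P'.p w * f w)]
  exact Finset.sum_congr rfl fun w _ => by rw [hp w]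

theorem eqv_Pr (e : Om ≃ Om') (hp : ∀ w, P.p w = P'.p (e w)) (A : Om' → Prop) : P.Pr (fun w => A (e w)) = P'.Pr A :=
  eqv_E e hp (fun w => ind (A w))

theorem eqv_ce (e : Om ≃ Om') (hp : ∀ w, P.p w = P'.p (e w)) {κ κ' : Type*} {X : Om → κ} {X' : Om' → κ'}
    (hX : ∀ v w, X v = X w ↔ X' (e v) = X' (e w)) (f : Om' → ℝ) (w : Om) :
    P.ce X (fun v => f (e v)) w = P'.ce X' f (e w) := by
  unfold FP.ce FP.m
  rw [← eqv_E e hp (fun v => ind (X' v = X' (e w)) * f v), ← eqv_E e hp (fun v => ind (X' v = X' (e w)))]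
  have h : ∀ v, (X v = X w) = (X' (e v) = X' (e w)) := fun v => propext (hX v w)
  simp only [h]

end fp

/-! ## the transport -/

variable {K K' X β γ φ υ : Type} [Fintype K] [DecidableEq K] [Fintype K'] [DecidableEq K']

/-- sets of `K'` seen from `K` -/
def cs (e : K ≃ K') (I : Finset K') : Finset K := univ.filter fun l => e l ∈ I

theorem mem_cs {e : K ≃ K'} {I : Finset K'} {l : K} : l ∈ cs e I ↔ e l ∈ I := by
  unfold cs
  simp only [mem_filter, mem_univ, true_and]

theorem cs_cs (e : K ≃ K') (I : Finset K') : cs e.symm (cs e I) = I := by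
  ext l
  rw [mem_cs, mem_cs, Equiv.apply_symm_apply]

theorem cs_cs' (e : K ≃ K') (I : Finset K) : cs e (cs e.symm I) = I := by
  ext l
  rw [mem_cs, mem_cs, Equiv.symm_apply_apply]

theorem cs_sub {e : K ≃ K'} {I J : Finset K'} : cs e I ⊆ cs e J ↔ I ⊆ J := by
  constructor
  · intro h l hl
    have h1 := h (mem_cs.2 (show e (e.symm l) ∈ I by rwa [Equiv.apply_symm_apply]))
    rwa [mem_cs, Equiv.apply_symm_apply] at h1
  · intro h l hl
    exact mem_cs.2 (h (mem_cs.1 hl))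

theorem cs_inj {e : K ≃ K'} {I J : Finset K'} (h : cs e I = cs e J) : I = J := by
  rw [← cs_cs e I, h, cs_cs]

theorem cs_ssub {e : K ≃ K'} {I J : Finset K'} : cs e I ⊂ cs e J ↔ I ⊂ J := by
  rw [Finset.ssubset_iff_subset_ne, Finset.ssubset_iff_subset_ne, cs_sub]
  exact and_congr_right fun _ => ⟨fun h h' => h (by rw [h']), fun h h' => h (cs_inj h')⟩

theorem cs_univ (e : K ≃ K') : cs e univ = univ := by
  ext l
  simp [mem_cs]

theorem cs_erase (e : K ≃ K') (l : K) : cs e (univ.erase (e l)) = univ.erase l := by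
  ext j
  rw [mem_cs, mem_erase, mem_erase]
  simp

theorem cs_card (e : K ≃ K') (I : Finset K') : (cs e I).card = I.card := by
  refine Finset.card_bij (fun l _ => e l) (fun l hl => mem_cs.1 hl) (fun _ _ _ _ h => e.injective h) fun l hl => ?_
  exact ⟨e.symm l, mem_cs.2 (by rwa [Equiv.apply_symm_apply]), Equiv.apply_symm_apply e l⟩

theorem cs_SS {e : K ≃ K'} {I : Finset K'} : cs e I ∈ SS K ↔ I ∈ SS K' := by
  unfold SS
  simp only [mem_filter, mem_univ, true_and]
  refine and_congr ?_ ?_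
  · rw [← Finset.card_pos, ← Finset.card_pos, cs_card]
  · exact ⟨fun h h' => h (by rw [h', cs_univ]), fun h h' => h (cs_inj (h'.trans (cs_univ e).symm))⟩

theorem cs_JJ {e : K ≃ K'} {I : Finset K'} : cs e I ∈ JJ K ↔ I ∈ JJ K' := by
  unfold JJ
  simp only [mem_filter, mem_univ, true_and]
  rw [cs_card, Fintype.card_congr e]

/-- a product over the experts -/
theorem prod_SS (e : K ≃ K') (f : Finset K → ℝ) : ∏ J ∈ SS K, f J = ∏ I ∈ SS K', f (cs e I) := by
  refine (Finset.prod_bij (fun I _ => cs e I) (fun I hI => cs_SS.2 hI) (fun _ _ _ _ h => cs_inj h) (fun J hJ => ?_)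
    fun _ _ => rfl).symm
  exact ⟨cs e.symm J, cs_SS.2 hJ, cs_cs' e J⟩

theorem prod_JJ (e : K ≃ K') (f : Finset K → ℝ) : ∏ J ∈ JJ K, f J = ∏ I ∈ JJ K', f (cs e I) := by
  refine (Finset.prod_bij (fun I _ => cs e I) (fun I hI => cs_JJ.2 hI) (fun _ _ _ _ h => cs_inj h) (fun J hJ => ?_)
    fun _ _ => rfl).symm
  exact ⟨cs e.symm J, cs_JJ.2 hJ, cs_cs' e J⟩

/-- data for `K'` seen from `K` -/
def HD.cm (D : HD K' X β γ φ) (e : K ≃ K') : HD K X β γ φ where
  qa := D.qa
  qb := D.qb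
  kf t l x y := D.kf t (e l) x (y ∘ e.symm)
  ra := D.ra
  rb := D.rb
  dep t l x y y' h1 h2 := D.dep t (e l) x _ _ (fun j hj => h1 (e.symm j) fun h => hj (by rw [← h, Equiv.apply_symm_apply]))
    (by simpa only [Function.comp_apply, Equiv.symm_apply_apply] using h2)

/-- sample points -/
def cmP (X β φ : Type) (e : K ≃ K') : Pt K X β φ ≃ Pt K' X β φ :=
  (Equiv.refl X).prodCongr ((e.arrowCongr (Equiv.refl β)).prodCongr (e.arrowCongr (Equiv.refl φ)))

theorem cmP_1 (e : K ≃ K') (w : Pt K X β φ) : (cmP X β φ e w).1 = w.1 := rfl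

theorem cmP_y (e : K ≃ K') (w : Pt K X β φ) : (cmP X β φ e w).2.1 = w.2.1 ∘ e.symm := rfl

theorem cmP_F (e : K ≃ K') (w : Pt K X β φ) : (cmP X β φ e w).2.2 = w.2.2 ∘ e.symm := rfl

variable [Fintype X] [Fintype β] [Fintype φ] {D : HD K' X β γ φ} {al : ℝ}

theorem thick_cm (h : D.Thick al) (e : K ≃ K') : (D.cm e).Thick al where
  pos := h.pos
  nn t l x y F := h.nn t (e l) x (y ∘ e.symm) F
  one t l x y := h.one t (e l) x (y ∘ e.symm)
  thick t l x x' y F := h.thick t (e l) x x' (y ∘ e.symm) F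

theorem upd_cm (e : K ≃ K') (y : K → β) (l : K) (b : β) :
    Function.update y l b ∘ e.symm = Function.update (y ∘ e.symm) (e l) b := by
  have := Function.update_comp_equiv y e.symm l b
  simpa using this

theorem hyp_cm {dg : ℕ → X → ℝ} {pr : ℕ → K' → φ → φ} {T : ℕ} {Lam : ℝ} (H : D.Hyp dg pr al T Lam) (e : K ≃ K') :
    (D.cm e).Hyp dg (fun t l => pr t (e l)) al T Lam where
  Lam1 := H.Lam1
  alL := H.alL
  dg_val := H.dg_val
  dg_cell := H.dg_cell
  dg_bal := H.dg_bal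
  half := H.half
  kf_pr t ht l x y F := H.kf_pr t ht (e l) x (y ∘ e.symm) F
  H2 s hs l x y := by
    refine le_trans (le_of_eq ?_) (H.H2 s hs (e l) x (y ∘ e.symm))
    unfold HD.mean
    show avg (D.cA s x) _ = avg (D.cA s x) _
    refine congrArg _ (funext fun x' => ?_)
    show avg (D.cB s (y l)) _ = avg (D.cB s ((y ∘ e.symm) (e l))) _
    have e1 : (y ∘ e.symm) (e l) = y l := by simp
    rw [e1]
    refine congrArg _ (funext fun b => ?_)
    rw [← upd_cm]
    rfl
  H3 l x y := H.H3 (e l) x (y ∘ e.symm)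

variable [Nonempty X] [Nonempty β]

theorem P_cm (h : D.Thick al) (e : K ≃ K') (t : ℕ) (w : Pt K X β φ) :
    ((D.cm e).P (thick_cm h e) t).p w = (D.P h t).p (cmP X β φ e w) := by
  show (∏ l, D.kf t (e l) w.1 (w.2.1 ∘ e.symm) (w.2.2 l)) / (Fintype.card X * (Fintype.card β : ℝ) ^ Fintype.card K) =
    (∏ l, D.kf t l w.1 (w.2.1 ∘ e.symm) ((w.2.2 ∘ e.symm) l)) /
      (Fintype.card X * (Fintype.card β : ℝ) ^ Fintype.card K')
  rw [Fintype.card_congr e, ← Equiv.prod_comp e (fun l => D.kf t l w.1 (w.2.1 ∘ e.symm) ((w.2.2 ∘ e.symm) l))]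
  simp only [Function.comp_apply, Equiv.symm_apply_apply]

/-- the classes seen from `K'` -/
def cmU (e : K ≃ K') (U : Finset K → ℕ → X → (K → β) → υ) (I : Finset K') (t : ℕ) (x : X) (y : K' → β) : υ :=
  U (cs e I) t x (y ∘ e)

theorem cmU_P (e : K ≃ K') (U : Finset K → ℕ → X → (K → β) → υ) (I : Finset K') (t : ℕ) (x : X) (y : K → β) :
    cmU e U I t x (y ∘ e.symm) = U (cs e I) t x y := by
  unfold cmU
  congr 1
  funext l
  simp

theorem sys_cm {U : Finset K → ℕ → X → (K → β) → υ} (e : K ≃ K') (S : Sys (D.cm e) U) : Sys D (cmU e U) where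
  dep I t x y y' h1 h2 := S.dep (cs e I) t x _ _ (fun j hj => h1 (e j) (mem_cs.1 hj)) fun j => h2 (e j)
  ref I t x y x' y' h1 h2 h3 h4 := S.ref (cs e I) t x _ x' _ (fun j hj => h1 (e j) (mem_cs.1 hj)) h2
    (fun j => h3 (e j)) h4

section keys

variable {U : Finset K → ℕ → X → (K → β) → υ} {e : K ≃ K'} {t : ℕ}

theorem nd_cm (v w : Pt K X β φ) : nd (D.cm e) t v = nd (D.cm e) t w ↔ nd D t (cmP X β φ e v) = nd D t (cmP X β φ e w) := by
  unfold nd
  refine Prod.mk_inj.trans (Iff.trans (and_congr Iff.rfl ?_) Prod.mk_inj.symm)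
  constructor
  · intro h
    funext j
    have := congrFun h (e.symm j)
    exact this
  · intro h
    funext j
    have := congrFun h (e j)
    simp only [cmP_y, Function.comp_apply, Equiv.symm_apply_apply] at this
    exact this

theorem yJ_cm (J : Finset K') (v w : Pt K X β φ) :
    yJ (cs e J) v = yJ (cs e J) w ↔ yJ J (cmP X β φ e v) = yJ J (cmP X β φ e w) := by
  constructor
  · intro h
    funext j
    exact congrFun h ⟨e.symm j.1, mem_cs.2 (by rw [Equiv.apply_symm_apply]; exact j.2)⟩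
  · intro h
    funext j
    have := congrFun h ⟨e j.1, mem_cs.1 j.2⟩
    simp only [yJ, cmP_y, Function.comp_apply, Equiv.symm_apply_apply] at this
    exact this

/-- families of classes, seen from `K` and from `K'` -/
theorem fam_cm {p : Finset K' → Prop} {q : Finset K → Prop} [DecidablePred p] [DecidablePred q]
    (hpq : ∀ I, q (cs e I) ↔ p I) (v w : Pt K X β φ) :
    ((fun I => if q I then some (U I t v.1 v.2.1) else none) = fun I => if q I then some (U I t w.1 w.2.1) else none) ↔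
      ((fun I => if p I then some (cmU e U I t (cmP X β φ e v).1 (cmP X β φ e v).2.1) else none) =
        fun I => if p I then some (cmU e U I t (cmP X β φ e w).1 (cmP X β φ e w).2.1) else none) := by
  have key : ∀ (u : Pt K X β φ) (I : Finset K'),
      (if p I then some (cmU e U I t (cmP X β φ e u).1 (cmP X β φ e u).2.1) else none) =
        if q (cs e I) then some (U (cs e I) t u.1 u.2.1) else none := by
    intro u I
    have h1 : cmU e U I t (cmP X β φ e u).1 (cmP X β φ e u).2.1 = U (cs e I) t u.1 u.2.1 := cmU_P e U I t u.1 u.2.1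
    rw [h1]
    by_cases h : p I
    · rw [if_pos h, if_pos ((hpq I).2 h)]
    · rw [if_neg h, if_neg fun h' => h ((hpq I).1 h')]
  constructor
  · intro h
    funext I
    rw [key, key]
    exact congrFun h (cs e I)
  · intro h
    funext I
    have h2 := congrFun h (cs e.symm I)
    rw [key, key, cs_cs'] at h2
    exact h2

/-- families of labels -/
theorem lab_cm {p : K' → Prop} {q : K → Prop} [DecidablePred p] [DecidablePred q] (hpq : ∀ l, q l ↔ p (e l))
    (v w : Pt K X β φ) :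
    ((fun l => if q l then some (v.2.2 l) else none) = fun l => if q l then some (w.2.2 l) else none) ↔
      ((fun l => if p l then some ((cmP X β φ e v).2.2 l) else none) =
        fun l => if p l then some ((cmP X β φ e w).2.2 l) else none) := by
  have key : ∀ (u : Pt K X β φ) (l : K), (if p (e l) then some ((cmP X β φ e u).2.2 (e l)) else none) =
      if q l then some (u.2.2 l) else none := by
    intro u l
    have h1 : (cmP X β φ e u).2.2 (e l) = u.2.2 l := by simp [cmP_F]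
    rw [h1]
    by_cases h : q l
    · rw [if_pos h, if_pos ((hpq l).1 h)]
    · rw [if_neg h, if_neg fun h' => h ((hpq l).2 h')]
  constructor
  · intro h
    funext l
    have h2 := congrFun h (e.symm l)
    have h3 := key v (e.symm l)
    have h4 := key w (e.symm l)
    rw [Equiv.apply_symm_apply] at h3 h4
    rw [h3, h4]
    exact h2
  · intro h
    funext l
    have h2 := congrFun h (e l)
    simp only [key] at h2
    exact h2

theorem eJ_cm (J : Finset K') (v w : Pt K X β φ) : eJ (D.cm e) U t (cs e J) v = eJ (D.cm e) U t (cs e J) w ↔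
    eJ D (cmU e U) t J (cmP X β φ e v) = eJ D (cmU e U) t J (cmP X β φ e w) := by
  classical
  unfold eJ
  refine Prod.mk_inj.trans (Iff.trans (and_congr (yJ_cm J v w) ?_) Prod.mk_inj.symm)
  refine Prod.mk_inj.trans (Iff.trans (and_congr (nd_cm v w) ?_) Prod.mk_inj.symm)
  refine Prod.mk_inj.trans (Iff.trans (and_congr ?_ ?_) Prod.mk_inj.symm)
  · exact fam_cm (p := fun I => I ⊆ J) (q := fun I => I ⊆ cs e J) (fun I => cs_sub) v w
  · exact lab_cm (p := fun l => univ.erase l ⊆ J) (q := fun l => univ.erase l ⊆ cs e J)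
      (fun l => by rw [← cs_erase e l, cs_sub]) v w

theorem eL_cm (J : Finset K') (v w : Pt K X β φ) : eL (D.cm e) U t (cs e J) v = eL (D.cm e) U t (cs e J) w ↔
    eL D (cmU e U) t J (cmP X β φ e v) = eL D (cmU e U) t J (cmP X β φ e w) := by
  classical
  unfold eL
  refine Prod.mk_inj.trans (Iff.trans (and_congr (yJ_cm J v w) ?_) Prod.mk_inj.symm)
  refine Prod.mk_inj.trans (Iff.trans (and_congr (nd_cm v w) ?_) Prod.mk_inj.symm)
  exact fam_cm (p := fun I => I ⊂ J) (q := fun I => I ⊂ cs e J) (fun I => cs_ssub) v w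

theorem eA_cm (v w : Pt K X β φ) : eA (D.cm e) U t v = eA (D.cm e) U t w ↔
    eA D (cmU e U) t (cmP X β φ e v) = eA D (cmU e U) t (cmP X β φ e w) := by
  classical
  unfold eA
  refine Prod.mk_inj.trans (Iff.trans (and_congr ?_ ?_) Prod.mk_inj.symm)
  · exact (e.arrowCongr (Equiv.refl β)).injective.eq_iff.symm
  · refine Prod.mk_inj.trans (Iff.trans (and_congr (nd_cm v w) ?_) Prod.mk_inj.symm)
    refine Prod.mk_inj.trans (Iff.trans (and_congr ?_ ?_) Prod.mk_inj.symm)
    · exact fam_cm (fun I => not_congr ⟨fun h => cs_inj (h.trans (cs_univ e).symm), fun h => by rw [h, cs_univ]⟩) v w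
    · exact (e.arrowCongr (Equiv.refl φ)).injective.eq_iff.symm

end keys

section means

variable (U : Finset K → ℕ → X → (K → β) → υ) (h : D.Thick al) (dg : ℕ → X → ℝ) (e : K ≃ K') (t : ℕ) (w : Pt K X β φ)

theorem mm_cm : mm U (thick_cm h e) dg t w = mm (cmU e U) h dg t (cmP X β φ e w) := by
  unfold mm
  have h1 : cs e (∅ : Finset K') = ∅ := by
    rw [← Finset.card_eq_zero, cs_card, Finset.card_empty]
  rw [← h1]
  exact eqv_ce (cmP X β φ e) (P_cm h e t) (fun v w => eJ_cm ∅ v w) (fun v => dg t v.1) w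

theorem uu_cm (J : Finset K') : uu U (thick_cm h e) dg (cs e J) t w = uu (cmU e U) h dg J t (cmP X β φ e w) :=
  eqv_ce (cmP X β φ e) (P_cm h e t) (fun v w => eJ_cm J v w) (fun v => dg t v.1) w

theorem ul_cm (J : Finset K') : ul U (thick_cm h e) dg (cs e J) t w = ul (cmU e U) h dg J t (cmP X β φ e w) :=
  eqv_ce (cmP X β φ e) (P_cm h e t) (fun v w => eL_cm J v w) (fun v => dg t v.1) w

theorem ua_cm : ua U (thick_cm h e) dg t w = ua (cmU e U) h dg t (cmP X β φ e w) :=
  eqv_ce (cmP X β φ e) (P_cm h e t) (fun v w => eA_cm v w) (fun v => dg t v.1) w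

theorem exf_cm : exf (SS K) (mm U (thick_cm h e) dg) (uu U (thick_cm h e) dg) (ul U (thick_cm h e) dg) t w =
    exf (SS K') (mm (cmU e U) h dg) (uu (cmU e U) h dg) (ul (cmU e U) h dg) t (cmP X β φ e w) := by
  unfold exf ex Rp Rm
  rw [prod_SS e, prod_SS e, mm_cm U h dg e t w]
  have h1 : ∀ J, (1 + uu U (thick_cm h e) dg (cs e J) t w) / (1 + ul U (thick_cm h e) dg (cs e J) t w) =
      (1 + uu (cmU e U) h dg J t (cmP X β φ e w)) / (1 + ul (cmU e U) h dg J t (cmP X β φ e w)) := fun J => by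
    rw [uu_cm U h dg e t w J, ul_cm U h dg e t w J]
  have h2 : ∀ J, (1 - uu U (thick_cm h e) dg (cs e J) t w) / (1 - ul U (thick_cm h e) dg (cs e J) t w) =
      (1 - uu (cmU e U) h dg J t (cmP X β φ e w)) / (1 - ul (cmU e U) h dg J t (cmP X β φ e w)) := fun J => by
    rw [uu_cm U h dg e t w J, ul_cm U h dg e t w J]
  rw [Finset.prod_congr rfl fun J _ => h1 J, Finset.prod_congr rfl fun J _ => h2 J]

end means

/-- **the conclusion of HARM, transported** -/
theorem concl_cm {U : Finset K → ℕ → X → (K → β) → υ} {h : D.Thick al} {dg : ℕ → X → ℝ} {pr : ℕ → K' → φ → φ}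
    (e : K ≃ K') {T : ℕ} {B ε : ℝ} {G dd : ℕ → Pt K X β φ → Prop}
    (H : Concl U (thick_cm h e) dg (fun t l => pr t (e l)) T B ε G dd) :
    Concl (cmU e U) h dg pr T B ε (fun t w => G t ((cmP X β φ e).symm w)) (fun t w => dd t ((cmP X β φ e).symm w)) where
  sys := sys_cm e H.sys
  m2 := by
    refine le_trans (le_of_eq (Finset.sum_congr rfl fun t _ => ?_)) H.m2
    rw [← eqv_E (cmP X β φ e) (P_cm h e t)]
    exact FP.E_congr _ fun w _ => by rw [mm_cm U h dg e t w]
  u2 J hJ := by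
    refine le_trans (le_of_eq (Finset.sum_congr rfl fun t _ => ?_)) (H.u2 (cs e J) (cs_SS.2 hJ))
    rw [← eqv_E (cmP X β φ e) (P_cm h e t)]
    exact FP.E_congr _ fun w _ => by rw [uu_cm U h dg e t w J, ul_cm U h dg e t w J]
  l2 J hJ := by
    refine le_trans (le_of_eq (Finset.sum_congr rfl fun t _ => ?_)) (H.l2 (cs e J) (cs_SS.2 hJ))
    rw [← eqv_E (cmP X β φ e) (P_cm h e t)]
    exact FP.E_congr _ fun w _ => by rw [ul_cm U h dg e t w J]
  Gm t ht v w hvw := by
    refine H.Gm t ht _ _ (eA_cm (D := D) _ _ |>.2 ?_)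
    rw [Equiv.apply_symm_apply, Equiv.apply_symm_apply]
    exact hvw
  Gl t ht w hw J hJ := by
    have h1 := H.Gl t ht _ hw (cs e J) (cs_SS.2 hJ)
    rw [ul_cm, Equiv.apply_symm_apply] at h1
    exact h1
  Gd t ht w hw hd hJ := by
    refine H.Gd t ht _ ?_ hd fun J hJ' => ?_
    · rw [P_cm, Equiv.apply_symm_apply]
      exact hw
    · have h1 := hJ (cs e.symm J) (by
        have h2 : cs e (cs e.symm J) ∈ SS K := by rw [cs_cs']; exact hJ'
        exact cs_SS.1 h2)
      have h3 := ul_cm U h dg e t ((cmP X β φ e).symm w) (cs e.symm J)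
      rw [cs_cs', Equiv.apply_symm_apply] at h3
      rw [h3]
      exact h1
  inc t ht x y F hd := by
    have h1 := H.inc t ht x (y ∘ e) (F ∘ e) hd
    exact h1
  dq := by
    refine le_trans (le_of_eq ?_) H.dq
    rw [← eqv_Pr (cmP X β φ e) (P_cm h e T)]
    simp only [Equiv.symm_apply_apply]
  syn := by
    refine le_trans (le_of_eq (Finset.sum_congr rfl fun t _ => ?_)) H.syn
    rw [← eqv_E (cmP X β φ e) (P_cm h e t)]
    exact FP.E_congr _ fun w _ => by
      rw [ua_cm U h dg e t w, exf_cm U h dg e t w, Equiv.symm_apply_apply]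

/-! ## the classes of CL -/

section cl

variable {U : Finset K → ℕ → X → (K → β) → υ} {e : K ≃ K'}

theorem cls_cm {Js : Finset (Finset K)} {Js' : Finset (Finset K')} (hJ : ∀ I, cs e I ∈ Js ↔ I ∈ Js') (t : ℕ) (x : X)
    (y : K → β) : cls (D.cm e) U Js t x y = cls D (cmU e U) Js' t x (y ∘ e.symm) := by
  ext z
  rw [mem_cls, mem_cls]
  refine and_congr Iff.rfl ⟨fun h I hI => ?_, fun h I hI => ?_⟩
  · rw [cmU_P, cmU_P]
    exact h _ ((hJ I).2 hI)
  · have h1 := h (cs e.symm I) ((hJ _).1 (by rw [cs_cs']; exact hI))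
    rw [cmU_P, cmU_P, cs_cs'] at h1
    exact h1

theorem uJ_cm (J : Finset K') (t : ℕ) (x : X) (y : K → β) :
    uJ (D.cm e) U (cs e J) t x y = uJ D (cmU e U) J t x (y ∘ e.symm) :=
  cls_cm (fun I => by rw [mem_filter, mem_filter, cs_JJ, cs_sub]) t x y

theorem lJ_cm (J : Finset K') (t : ℕ) (x : X) (y : K → β) :
    lJ (D.cm e) U (cs e J) t x y = lJ D (cmU e U) J t x (y ∘ e.symm) :=
  cls_cm (fun I => by rw [mem_filter, mem_filter, cs_JJ, cs_ssub]) t x y

theorem wL_cm (l : K) (t : ℕ) (x : X) (y : K → β) :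
    wL (D.cm e) U l t x y = wL D (cmU e U) (e l) t x (y ∘ e.symm) :=
  cls_cm (fun I => by rw [mem_filter, mem_filter, cs_JJ, mem_cs]) t x y

theorem vA_cm (t : ℕ) (x : X) (y : K → β) : vA (D.cm e) U t x y = vA D (cmU e U) t x (y ∘ e.symm) :=
  cls_cm (fun I => cs_JJ) t x y

theorem mJ_cm (J : Finset K') (t : ℕ) (x : X) (y : K → β) :
    mJ (D.cm e) U (cs e J) t x y = mJ D (cmU e U) J t x (y ∘ e.symm) := by
  ext z
  rw [mem_mJ, mem_mJ, lJ_cm]
  refine and_congr Iff.rfl ⟨fun h I hI => ?_, fun h I hI => ?_⟩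
  · rw [cmU_P, cmU_P]
    refine h _ ?_
    rw [mem_filter] at hI ⊢
    exact ⟨cs_JJ.2 hI.1, cs_sub.2 hI.2⟩
  · have h1 := h (cs e.symm I) (by
      rw [mem_filter] at hI ⊢
      rw [← cs_JJ (e := e), ← cs_sub (e := e), cs_cs']
      exact hI)
    rw [cmU_P, cmU_P, cs_cs'] at h1
    exact h1

theorem dJ_cm (J : Finset K') (t : ℕ) (x : X) (y : K → β) :
    dJ (D.cm e) U (cs e J) t x y = dJ D (cmU e U) J t x (y ∘ e.symm) := by
  unfold dJ
  rw [uJ_cm, lJ_cm]

theorem pL_cm (l : K) (t : ℕ) (x : X) (y : K → β) (F : φ) :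
    pL (D.cm e) U l t x y F = pL D (cmU e U) (e l) t x (y ∘ e.symm) F := by
  unfold pL
  rw [wL_cm]
  rfl

theorem pA_cm (t : ℕ) (x : X) (y : K → β) (F : K → φ) :
    pA (D.cm e) U t x y F = pA D (cmU e U) t x (y ∘ e.symm) (F ∘ e.symm) := by
  unfold pA
  rw [vA_cm]
  refine congrArg₂ (· * ·) rfl (congrArg _ (funext fun x' => ?_))
  show ∏ l, D.kf t (e l) x' (y ∘ e.symm) (F l) = ∏ l, D.kf t l x' (y ∘ e.symm) ((F ∘ e.symm) l)
  rw [← Equiv.prod_comp e (fun l => D.kf t l x' (y ∘ e.symm) ((F ∘ e.symm) l))]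
  simp only [Function.comp_apply, Equiv.symm_apply_apply]

theorem hot_cm (M : ℝ) (t : ℕ) (w : Pt K X β φ) :
    hot (D.cm e) U M t w ↔ hot D (cmU e U) M t (cmP X β φ e w) := by
  unfold hot
  rw [prod_JJ e]
  simp only [dJ_cm, pL_cm, pA_cm, cmP_1, cmP_y, cmP_F]
  rw [← Equiv.prod_comp e (fun l => pL D (cmU e U) l t w.1 (w.2.1 ∘ e.symm) ((w.2.2 ∘ e.symm) l))]
  simp only [Function.comp_apply, Equiv.symm_apply_apply]

theorem ever_cm (pr : ℕ → K' → φ → φ) (M : ℝ) (t : ℕ) (w : Pt K X β φ) :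
    ever (D.cm e) U (fun t l => pr t (e l)) M t w ↔ ever D (cmU e U) pr M t (cmP X β φ e w) := by
  induction t generalizing w with
  | zero => exact hot_cm M 0 w
  | succ t ih =>
    unfold ever
    rw [hot_cm]
    refine or_congr Iff.rfl ?_
    rw [ih]
    have h1 : cmP X β φ e (w.1, w.2.1, fun l => pr t (e l) (w.2.2 l)) =
        ((cmP X β φ e w).1, (cmP X β φ e w).2.1, fun l => pr t l ((cmP X β φ e w).2.2 l)) := by
      refine Prod.ext rfl (Prod.ext rfl (funext fun l => ?_))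
      show pr t (e (e.symm l)) (w.2.2 (e.symm l)) = pr t l (w.2.2 (e.symm l))
      rw [Equiv.apply_symm_apply]
    rw [h1]

theorem EV_cm (f : X → (K' → β) → ℝ) : EV (fun x (y : K → β) => f x (y ∘ e.symm)) = EV f := by
  unfold EV
  refine congrArg _ (funext fun x => ?_)
  unfold avg
  rw [Finset.card_univ, Finset.card_univ, Fintype.card_congr (e.arrowCongr (Equiv.refl β)),
    ← Equiv.sum_comp (e.arrowCongr (Equiv.refl β)) (fun y => f x y)]
  rfl

theorem bitsJ_cm (T : ℕ) (J : Finset K') : bitsJ (D.cm e) U T (cs e J) = bitsJ D (cmU e U) T J := by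
  unfold bitsJ
  rw [← EV_cm (e := e) (fun x y => Real.log (((lJ D (cmU e U) J 0 x y).card : ℝ) / (uJ D (cmU e U) J 0 x y).card))]
  refine congrArg₂ (· + ·) ?_ (Finset.sum_congr rfl fun t _ => ?_)
  · simp only [lJ_cm, uJ_cm]
  · rw [← EV_cm (e := e) (fun x y =>
      Real.log (((mJ D (cmU e U) J t x y).card : ℝ) / (uJ D (cmU e U) J (t + 1) x y).card))]
    simp only [mJ_cm, uJ_cm]

/-- **the conclusion of CL, transported** -/
theorem conclCL_cm {h : D.Thick al} {pr : ℕ → K' → φ → φ} {T : ℕ} {M B ε : ℝ}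
    (H : ConclCL U (thick_cm h e) (fun t l => pr t (e l)) T M B ε) : ConclCL (cmU e U) h pr T M B ε where
  sys := sys_cm e H.sys
  bits J hJ := by
    rw [← bitsJ_cm]
    exact H.bits (cs e J) (cs_JJ.2 hJ)
  cold := by
    refine le_trans (le_of_eq ?_) H.cold
    rw [← eqv_Pr (cmP X β φ e) (P_cm h e T)]
    exact FP.E_congr _ fun w _ => by rw [ever_cm]

end cl

end

/-! ## the contracts -/

theorem harmWC_congr {K K' : Type} [Fintype K] [DecidableEq K] [Fintype K'] [DecidableEq K'] (e : K ≃ K') {C : ℕ}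
    (H : HarmWC K C) : HarmWC K' C := by
  intro X β γ φ _ _ _ _ _ D al h dg pr T Lam hyp hL
  obtain ⟨υ, U, G, dd, h1⟩ := H X β γ φ (D.cm e) al (thick_cm h e) dg (fun t l => pr t (e l)) T Lam (hyp_cm hyp e) hL
  exact ⟨υ, _, _, _, concl_cm e h1⟩

theorem harmSC_congr {K K' : Type} [Fintype K] [DecidableEq K] [Fintype K'] [DecidableEq K'] (e : K ≃ K') {κ : ℝ}
    {C : ℕ} (H : HarmSC K κ C) : HarmSC K' κ C := by
  intro X β γ φ _ _ _ _ _ D al h dg pr T Lam N hyp hL
  obtain ⟨υ, U, G, dd, h1⟩ := H X β γ φ (D.cm e) al (thick_cm h e) dg (fun t l => pr t (e l)) T Lam N (hyp_cm hyp e) hL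
  exact ⟨υ, _, _, _, concl_cm e h1⟩

theorem clsC_congr {K K' : Type} [Fintype K] [DecidableEq K] [Fintype K'] [DecidableEq K'] (e : K ≃ K') {κ : ℝ}
    {C : ℕ} (H : CLSC K κ C) : CLSC K' κ C := by
  intro X β γ φ _ _ _ _ _ D al h dg pr T Lam N hyp hL
  obtain ⟨υ, U, h1⟩ := H X β γ φ (D.cm e) al (thick_cm h e) dg (fun t l => pr t (e l)) T Lam N (hyp_cm hyp e) hL
  exact ⟨υ, _, conclCL_cm h1⟩

/-- HARM for all index types with `n` elements, one constant -/
def HarmWU (n : ℕ) : Prop :=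
  ∃ C : ℕ, ∀ (K : Type) [Fintype K] [DecidableEq K], Fintype.card K = n → HarmWC K C

def HarmSU (n : ℕ) (κ : ℝ) : Prop :=
  ∃ C : ℕ, ∀ (K : Type) [Fintype K] [DecidableEq K], Fintype.card K = n → HarmSC K κ C

def CLSU (n : ℕ) (κ : ℝ) : Prop :=
  ∃ C : ℕ, ∀ (K : Type) [Fintype K] [DecidableEq K], Fintype.card K = n → CLSC K κ C

theorem harmWU_of {K : Type} [Fintype K] [DecidableEq K] (H : HarmW K) {n : ℕ} (hn : Fintype.card K = n) :
    HarmWU n := by
  obtain ⟨C, hC⟩ := H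
  exact ⟨C, fun K' _ _ h' => harmWC_congr (Fintype.equivOfCardEq (hn.trans h'.symm)) hC⟩

theorem harmSU_of {K : Type} [Fintype K] [DecidableEq K] {κ : ℝ} (H : HarmS K κ) {n : ℕ}
    (hn : Fintype.card K = n) : HarmSU n κ := by
  obtain ⟨C, hC⟩ := H
  exact ⟨C, fun K' _ _ h' => harmSC_congr (Fintype.equivOfCardEq (hn.trans h'.symm)) hC⟩

theorem clsU_of {K : Type} [Fintype K] [DecidableEq K] {κ : ℝ} (H : CLS K κ) {n : ℕ}
    (hn : Fintype.card K = n) : CLSU n κ := by
  obtain ⟨C, hC⟩ := H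
  exact ⟨C, fun K' _ _ h' => clsC_congr (Fintype.equivOfCardEq (hn.trans h'.symm)) hC⟩

theorem HarmWU.harmW {n : ℕ} (H : HarmWU n) {K : Type} [Fintype K] [DecidableEq K] (hn : Fintype.card K = n) :
    HarmW K := by
  obtain ⟨C, hC⟩ := H
  exact ⟨C, hC K hn⟩

theorem HarmSU.harmS {n : ℕ} {κ : ℝ} (H : HarmSU n κ) {K : Type} [Fintype K] [DecidableEq K]
    (hn : Fintype.card K = n) : HarmS K κ := by
  obtain ⟨C, hC⟩ := H
  exact ⟨C, hC K hn⟩

theorem CLSU.cls {n : ℕ} {κ : ℝ} (H : CLSU n κ) {K : Type} [Fintype K] [DecidableEq K]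
    (hn : Fintype.card K = n) : CLS K κ := by
  obtain ⟨C, hC⟩ := H
  exact ⟨C, hC K hn⟩

end Pool.Agent.GM.Harm
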