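import Pool.Agent.GM.HarmB

/-!
# GM/HarmG: from the conclusion of HARM(K) for every top to the output in the model, general hidden points, helper51

`GenM i h D T xh LF dgX pr` : a family `D τ` of data with hidden points `X` (for instance the vertex without one of its
coins), `xh : Sq → X` the hidden point of a sample point, `LF` the letters; the point `pG xh LF t w` (hidden point, known
points, letters) is a mixture of the laws `(D τ).P`.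
* `hout_gen` : `Harm.Concl` for every top gives `HOut` for the classes `UcG U`;
* `UcG_fac` : the class `I` is a function of (top, hidden point, `x_I`, public node): it does not see more of the hidden
  vertex.
-/

set_option autoImplicit false
set_option linter.unusedSectionVars false
set_option linter.unusedVariables false

namespace Pool.Agent.GM

open Finset Pool.Agent.PWZ Pool.Agent.M3 Pool.Agent.M3.Bin
open Pool.Agent.M3.Mod (TM XM YM qaM qbM dgM SzM)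

noncomputable section

variable {k N : ℕ} {ι Θ Ξ Ci X φ υ : Type} [Fintype ι] [DecidableEq ι] {i : ι} {h : ℕ}

/-- the sample point of the product form -/
def pG (xh : Sq k N ι Θ Ξ → X) (LF : {j : ι // j ≠ i} → ℕ → Sq k N ι Θ (Ξ × Ci) → φ) (t : ℕ)
    (w : Sq k N ι Θ (Ξ × Ci)) : Harm.Pt {j : ι // j ≠ i} X (YM k Ξ) φ :=
  (xh (pic w), ot i (pic w), fun l => LF l t w)

/-- the class in the model -/
def UcG (xh : Sq k N ι Θ Ξ → X)
    (U : TM k Θ → Finset {j : ι // j ≠ i} → ℕ → X → ({j : ι // j ≠ i} → YM k Ξ) → υ)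
    (I : Finset {j : ι // j ≠ i}) (t : ℕ) (w : Sq k N ι Θ (Ξ × Ci)) : υ :=
  U (tpQ i (pic w)) I t (xh (pic w)) (ot i (pic w))

variable [Fintype Θ] [Nonempty Θ] [Fintype Ξ] [Nonempty Ξ] [Fintype Ci] [Nonempty Ci] [Fintype X] [Nonempty X]
  [Fintype φ]

/-- the hypotheses on the family of data -/
structure GenM (i : ι) (h : ℕ) (D : TM k Θ → Harm.HD {j : ι // j ≠ i} X (YM k Ξ) (ℕ × V k) φ) {al : ℝ}
    (T : ∀ τ, (D τ).Thick al) (xh : Sq k N ι Θ Ξ → X) (LF : {j : ι // j ≠ i} → ℕ → Sq k N ι Θ (Ξ × Ci) → φ)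
    (dgX : ℕ → X → ℝ) (pr : ℕ → {j : ι // j ≠ i} → φ → φ) : Prop where
  mix : ∀ t, Mix Pm (fun w : Sq k N ι Θ (Ξ × Ci) => tpQ i (pic w)) (pG xh LF t) (fun τ => (D τ).P (T τ) t)
  qa : ∀ τ t v w, (D τ).qa t (xh v) = (D τ).qa t (xh w) ↔ qaM k N t (xQ i v) = qaM k N t (xQ i w)
  qb : ∀ τ t b b', (D τ).qb t b = (D τ).qb t b' ↔ qbM N h t b = qbM N h t b'
  dg : ∀ t v, dgX t (xh v) = Dg (M3.Mod.ex N (t + 1)) v
  pr : ∀ t < N, ∀ l w, pr t l (LF l (t + 1) w) = LF l t w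

variable {D : TM k Θ → Harm.HD {j : ι // j ≠ i} X (YM k Ξ) (ℕ × V k) φ} {al : ℝ}
    {T : ∀ τ, (D τ).Thick al} {xh : Sq k N ι Θ Ξ → X} {LF : {j : ι // j ≠ i} → ℕ → Sq k N ι Θ (Ξ × Ci) → φ}
    {dgX : ℕ → X → ℝ} {pr : ℕ → {j : ι // j ≠ i} → φ → φ} (M : GenM i h D T xh LF dgX pr)
    {U : TM k Θ → Finset {j : ι // j ≠ i} → ℕ → X → ({j : ι // j ≠ i} → YM k Ξ) → υ}

include M

/-- CONDITIONAL MEANS of the digit -/
theorem GenM.ce {κ κ' : Type*} {t : ℕ} {Y : Sq k N ι Θ (Ξ × Ci) → κ}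
    {Z : TM k Θ → Harm.Pt {j : ι // j ≠ i} X (YM k Ξ) φ → κ'}
    (hY : ∀ v w, Y v = Y w ↔ tpQ i (pic v) = tpQ i (pic w) ∧
      Z (tpQ i (pic v)) (pG xh LF t v) = Z (tpQ i (pic w)) (pG xh LF t w))
    (w : Sq k N ι Θ (Ξ × Ci)) :
    Pm.ce Y (Dg (M3.Mod.ex N (t + 1))) w = ((D (tpQ i (pic w))).P (T (tpQ i (pic w))) t).ce
      (Z (tpQ i (pic w))) (fun u => dgX t u.1) (pG xh LF t w) := by
  have h1 := (M.mix t).ce Z (fun _ u => dgX t u.1) (w := w) (Pm_ne w)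
  rw [← h1]
  have h2 : (fun v : Sq k N ι Θ (Ξ × Ci) => dgX t (pG xh LF t v).1) = Dg (M3.Mod.ex N (t + 1)) := by
    funext v
    exact (M.dg t (pic v)).trans (Dg_pic _ v)
  rw [h2]
  refine FP.ce_congr_map _ ?_ ?_ _ w
  · intro v w' hv
    have h2 := (hY v w').1 hv
    exact Prod.ext h2.1 h2.2
  · intro v w' hv
    exact (hY v w').2 ⟨(Prod.mk.inj hv).1, (Prod.mk.inj hv).2⟩

theorem GenM.nd_iff (τ : TM k Θ) (t : ℕ) (v w : Sq k N ι Θ (Ξ × Ci)) :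
    Harm.nd (D τ) t (pG xh LF t v) = Harm.nd (D τ) t (pG xh LF t w) ↔
      qaM k N t (xQ i (pic v)) = qaM k N t (xQ i (pic w)) ∧
      ∀ a : {j : ι // j ≠ i}, qbM N h t (ot i (pic v) a) = qbM N h t (ot i (pic w) a) := by
  rw [Harm.nd_iff]
  exact and_congr (M.qa τ t (pic v) (pic w)) (forall_congr' fun a => M.qb τ t _ _)

theorem GenM.eJ_iff (t : ℕ) (I : Finset {j : ι // j ≠ i}) (v w : Sq k N ι Θ (Ξ × Ci)) :
    eJM i h LF (UcG xh U) t I v = eJM i h LF (UcG xh U) t I w ↔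
      tpQ i (pic v) = tpQ i (pic w) ∧
      Harm.eJ (D (tpQ i (pic v))) (U (tpQ i (pic v))) t I (pG xh LF t v) =
        Harm.eJ (D (tpQ i (pic w))) (U (tpQ i (pic w))) t I (pG xh LF t w) := by
  rw [eJM_iff, Qn_topC]
  constructor
  · rintro ⟨h1, ⟨h2, h3, h4⟩, h5, h6⟩
    refine ⟨h2, ?_⟩
    unfold UcG at h5
    rw [h2] at h5 ⊢
    rw [Harm.eJ_iff, M.nd_iff]
    exact ⟨h1, ⟨h3, h4⟩, h5, h6⟩
  · rintro ⟨h2, h7⟩
    unfold UcG
    rw [h2] at h7 ⊢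
    rw [Harm.eJ_iff, M.nd_iff] at h7
    obtain ⟨h1, ⟨h3, h4⟩, h5, h6⟩ := h7
    exact ⟨h1, ⟨rfl, h3, h4⟩, h5, h6⟩

theorem GenM.eL_iff (t : ℕ) (I : Finset {j : ι // j ≠ i}) (v w : Sq k N ι Θ (Ξ × Ci)) :
    eLM i h (UcG xh U) t I v = eLM i h (UcG xh U) t I w ↔
      tpQ i (pic v) = tpQ i (pic w) ∧
      Harm.eL (D (tpQ i (pic v))) (U (tpQ i (pic v))) t I (pG xh LF t v) =
        Harm.eL (D (tpQ i (pic w))) (U (tpQ i (pic w))) t I (pG xh LF t w) := by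
  rw [eLM_iff, Qn_topC]
  constructor
  · rintro ⟨h1, ⟨h2, h3, h4⟩, h5⟩
    refine ⟨h2, ?_⟩
    unfold UcG at h5
    rw [h2] at h5 ⊢
    rw [Harm.eL_iff, M.nd_iff]
    exact ⟨h1, ⟨h3, h4⟩, h5⟩
  · rintro ⟨h2, h7⟩
    unfold UcG
    rw [h2] at h7 ⊢
    rw [Harm.eL_iff, M.nd_iff] at h7
    obtain ⟨h1, ⟨h3, h4⟩, h5⟩ := h7
    exact ⟨h1, ⟨rfl, h3, h4⟩, h5⟩

theorem GenM.eA_iff (t : ℕ) (v w : Sq k N ι Θ (Ξ × Ci)) :
    eAM i h LF (UcG xh U) t v = eAM i h LF (UcG xh U) t w ↔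
      tpQ i (pic v) = tpQ i (pic w) ∧
      Harm.eA (D (tpQ i (pic v))) (U (tpQ i (pic v))) t (pG xh LF t v) =
        Harm.eA (D (tpQ i (pic w))) (U (tpQ i (pic w))) t (pG xh LF t w) := by
  rw [eAM_iff, Qn_topC]
  constructor
  · rintro ⟨h1, ⟨h2, h3, h4⟩, h5, h6⟩
    refine ⟨h2, ?_⟩
    unfold UcG at h5
    rw [h2] at h5 ⊢
    rw [Harm.eA_iff, M.nd_iff]
    exact ⟨h1, ⟨h3, h4⟩, h5, h6⟩
  · rintro ⟨h2, h7⟩
    unfold UcG
    rw [h2] at h7 ⊢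
    rw [Harm.eA_iff, M.nd_iff] at h7
    obtain ⟨h1, ⟨h3, h4⟩, h5, h6⟩ := h7
    exact ⟨h1, ⟨rfl, h3, h4⟩, h5, h6⟩

theorem GenM.mm (t : ℕ) (w : Sq k N ι Θ (Ξ × Ci)) :
    mmM i h LF (UcG xh U) t w =
      Harm.mm (U (tpQ i (pic w))) (T (tpQ i (pic w))) dgX t (pG xh LF t w) :=
  M.ce (Z := fun τ => Harm.eJ (D τ) (U τ) t ∅) (M.eJ_iff t ∅) w

theorem GenM.uu (I : Finset {j : ι // j ≠ i}) (t : ℕ) (w : Sq k N ι Θ (Ξ × Ci)) :
    uuM i h LF (UcG xh U) I t w =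
      Harm.uu (U (tpQ i (pic w))) (T (tpQ i (pic w))) dgX I t (pG xh LF t w) :=
  M.ce (Z := fun τ => Harm.eJ (D τ) (U τ) t I) (M.eJ_iff t I) w

theorem GenM.ul (I : Finset {j : ι // j ≠ i}) (t : ℕ) (w : Sq k N ι Θ (Ξ × Ci)) :
    ulM i h (UcG xh U) I t w =
      Harm.ul (U (tpQ i (pic w))) (T (tpQ i (pic w))) dgX I t (pG xh LF t w) :=
  M.ce (Z := fun τ => Harm.eL (D τ) (U τ) t I) (M.eL_iff t I) w

theorem GenM.ua (t : ℕ) (w : Sq k N ι Θ (Ξ × Ci)) :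
    uaM i h LF (UcG xh U) t w =
      Harm.ua (U (tpQ i (pic w))) (T (tpQ i (pic w))) dgX t (pG xh LF t w) :=
  M.ce (Z := fun τ => Harm.eA (D τ) (U τ) t) (M.eA_iff t) w

/-- bounds for every top are bounds -/
theorem GenM.sum_mix (n : ℕ) (Ψ : ℕ → TM k Θ → Harm.Pt {j : ι // j ≠ i} X (YM k Ξ) φ → ℝ) {C : ℝ}
    (hC : ∀ τ, ∑ t ∈ range n, ((D τ).P (T τ) t).E (Ψ t τ) ≤ C) :
    ∑ t ∈ range n, Pm.E (fun w : Sq k N ι Θ (Ξ × Ci) => Ψ t (tpQ i (pic w)) (pG xh LF t w)) ≤ C := by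
  rw [Finset.sum_congr rfl fun t _ => (M.mix t).law (Ψ t), ← FP.E_sum]
  exact FP.E_le_const _ fun w _ => hC (tpQ i (pic w))

/-- THE CLASS `I` is a function of the top, the hidden point, `x_I` and the public node -/
theorem GenM.UcG_fac {B e : ℝ} {G dd : TM k Θ → ℕ → Harm.Pt {j : ι // j ≠ i} X (YM k Ξ) φ → Prop}
    (hU : ∀ τ, Harm.Concl (U τ) (T τ) dgX pr N B e (G τ) (dd τ)) (I : Finset {j : ι // j ≠ i}) (t : ℕ) :
    Fac (fun w : Sq k N ι Θ (Ξ × Ci) => (tpQ i (pic w), xh (pic w), res I (ot i (pic w)),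
      Qn i h (M3.Mod.ex N t) w)) (UcG xh U I t) := by
  intro v w hv
  obtain ⟨a1, hv⟩ := Prod.mk.inj hv
  obtain ⟨h4, hv⟩ := Prod.mk.inj hv
  obtain ⟨h2, h3⟩ := Prod.mk.inj hv
  rw [Qn_topC] at h3
  obtain ⟨-, a2, a3⟩ := h3
  unfold UcG
  rw [a1, h4]
  exact (hU (tpQ i (pic w))).sys.dep I t _ _ _ (res_eq.1 h2) fun a => (M.qb _ t _ _).2 (a3 a)

/-- **HARM(K) FOR EVERY TOP gives the output in the model** -/
theorem GenM.hout {B e : ℝ} {G dd : TM k Θ → ℕ → Harm.Pt {j : ι // j ≠ i} X (YM k Ξ) φ → Prop}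
    (hU : ∀ τ, Harm.Concl (U τ) (T τ) dgX pr N B e (G τ) (dd τ))
    (hx : ∀ v w, tpQ i v = tpQ i w → vx i v = vx i w → xh v = xh w) :
    HOut i h LF (UcG xh U) B e
      (fun t w => G (tpQ i (pic w)) t (pG xh LF t w))
      (fun t w => dd (tpQ i (pic w)) (min t N) (pG xh LF (min t N) w)) where
  Uf := by
    intro I t v w hv
    obtain ⟨h1, h2⟩ := Prod.mk.inj hv
    obtain ⟨h2, h3⟩ := Prod.mk.inj h2
    have h4 := (Qn_topC h t v w).1 h3
    exact M.UcG_fac hU I t v w (Prod.ext h4.1 (Prod.ext (hx _ _ h4.1 h1) (Prod.ext h2 h3)))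
  Us := by
    intro I t v w hv
    obtain ⟨h1, h2⟩ := Prod.mk.inj hv
    obtain ⟨h2, h3⟩ := Prod.mk.inj h2
    rw [Qn_topC] at h2
    obtain ⟨a1, a2, a3⟩ := h2
    unfold UcG at h3 ⊢
    rw [a1] at h3 ⊢
    exact (hU (tpQ i (pic w))).sys.ref I t _ _ _ _ (res_eq.1 h1) ((M.qa _ (t + 1) _ _).2 a2)
      (fun a => (M.qb _ (t + 1) _ _).2 (a3 a)) h3
  m2 := by
    have h1 := M.sum_mix N
      (fun t τ u => Harm.mm (U τ) (T τ) dgX t u ^ 2) (C := B) (fun τ => (hU τ).m2)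
    refine le_of_eq_of_le ?_ h1
    refine Finset.sum_congr rfl fun t _ => FP.E_congr _ fun w _ => ?_
    rw [M.mm]
  u2 := by
    intro I hI
    have h1 := M.sum_mix N
      (fun t τ u => (Harm.uu (U τ) (T τ) dgX I t u - Harm.ul (U τ) (T τ) dgX I t u) ^ 2)
      (C := B) (fun τ => (hU τ).u2 I hI)
    refine le_of_eq_of_le ?_ h1
    refine Finset.sum_congr rfl fun t _ => FP.E_congr _ fun w _ => ?_
    rw [M.uu, M.ul]
  l2 := by
    intro I hI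
    have h1 := M.sum_mix N
      (fun t τ u => Harm.ul (U τ) (T τ) dgX I t u ^ 2) (C := B) (fun τ => (hU τ).l2 I hI)
    refine le_of_eq_of_le ?_ h1
    refine Finset.sum_congr rfl fun t _ => FP.E_congr _ fun w _ => ?_
    rw [M.ul]
  Gm := by
    intro t ht v w hv
    rw [M.eA_iff] at hv
    obtain ⟨h1, h2⟩ := hv
    show G (tpQ i (pic v)) t _ ↔ G (tpQ i (pic w)) t _
    rw [h1] at h2 ⊢
    exact (hU (tpQ i (pic w))).Gm t ht _ _ h2
  Gl := by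
    intro t ht w hG I hI
    rw [M.ul]
    exact (hU (tpQ i (pic w))).Gl t ht _ hG I hI
  Gd := by
    intro t ht w hd hl
    refine (hU (tpQ i (pic w))).Gd t ht _ ((M.mix t).ne (Pm_ne w)) ?_ fun I hI => ?_
    · have h1 : min t N = t := min_eq_left ht.le
      rw [h1] at hd
      exact hd
    · rw [← M.ul]
      exact hl I hI
  inc := by
    intro t w hd
    rcases lt_or_ge t N with ht | ht
    · rw [min_eq_left ht.le] at hd
      rw [min_eq_left (show t + 1 ≤ N by omega)]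
      refine (hU (tpQ i (pic w))).inc t ht _ _ _ ?_
      have h1 : pG xh LF t w = (xh (pic w), ot i (pic w), fun l => pr t l (LF l (t + 1) w)) := by
        unfold pG
        exact Prod.ext rfl (Prod.ext rfl (funext fun l => (M.pr t ht l w).symm))
      rw [h1] at hd
      exact hd
    · rw [min_eq_right ht] at hd
      rw [min_eq_right (show N ≤ t + 1 by omega)]
      exact hd
  dq := by
    simp only [min_self]
    rw [(M.mix N).Pr (fun τ u => dd τ N u)]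
    exact FP.E_le_const _ fun w _ => (hU (tpQ i (pic w))).dq
  syn := by
    have h1 := M.sum_mix N
      (fun t τ u => ind (G τ t u) * (Harm.ua (U τ) (T τ) dgX t u -
        exf (Harm.SS {j : ι // j ≠ i}) (Harm.mm (U τ) (T τ) dgX)
          (Harm.uu (U τ) (T τ) dgX) (Harm.ul (U τ) (T τ) dgX) t u) ^ 2)
      (C := e) (fun τ => (hU τ).syn)
    refine le_of_eq_of_le ?_ h1
    refine Finset.sum_congr rfl fun t _ => FP.E_congr _ fun w _ => ?_
    rw [M.ua]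
    congr 3
    exact ex_congr (M.mm t w) (fun I _ => M.uu I t w) (fun I _ => M.ul I t w)

end

end Pool.Agent.GM
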