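import Pool.Agent.GM.HarmC
import Pool.Agent.GM.HMdlDef
import Pool.Agent.GM.Harm2

/-!
# GM/HarmL: the law of the data of HARM(K) as a mean, and classes with values in a uniform type, helper51

* `HD.P_E` : the mean under `D.P h t` = mean over `(x, y)` of the mean over the labels;
* `UL U` : level sets of the classes; `Concl.lev` : the conclusion of HARM(K) holds for the level sets (so that the type of
  the values of the classes does not depend on the data).
-/

set_option autoImplicit false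
set_option linter.unusedSectionVars false
set_option linter.unusedVariables false

namespace Pool.Agent.GM.Harm

open Finset Pool.Agent.PWZ Pool.Agent.M3

noncomputable section

variable {K X β γ φ υ : Type} [Fintype K] [DecidableEq K] [Fintype X] [Fintype β] [Fintype φ] [Nonempty X] [Nonempty β]
  {D : HD K X β γ φ}

/-- the mean under the law of the time `t` -/
theorem HD.P_E {al : ℝ} (h : D.Thick al) (t : ℕ) (Ψ : Pt K X β φ → ℝ) :
    (D.P h t).E Ψ = (FP.unif (X × (K → β))).E (fun q => ∑ F : K → φ, (∏ l, D.kf t l q.1 q.2 (F l)) * Ψ (q.1, q.2, F)) := by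
  classical
  have h0 : (D.P h t).E Ψ = ∑ w : Pt K X β φ, (D.P h t).p w * Ψ w := rfl
  rw [h0, FP.unif_E, Fintype.sum_prod_type, Fintype.sum_prod_type, Finset.sum_div]
  refine Finset.sum_congr rfl fun x _ => ?_
  rw [Fintype.sum_prod_type, Finset.sum_div]
  refine Finset.sum_congr rfl fun y _ => ?_
  rw [Finset.sum_div]
  refine Finset.sum_congr rfl fun F _ => ?_
  have h1 : (Fintype.card (X × (K → β)) : ℝ) = Fintype.card X * (Fintype.card β : ℝ) ^ Fintype.card K := by
    rw [Fintype.card_prod, Fintype.card_fun]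
    push_cast
    rfl
  rw [h1]
  show (∏ l, D.kf t l x y (F l)) / (Fintype.card X * (Fintype.card β : ℝ) ^ Fintype.card K) * Ψ (x, y, F) = _
  rw [div_mul_eq_mul_div]

/-- level sets of the classes -/
def UL (U : Finset K → ℕ → X → (K → β) → υ) : Finset K → ℕ → X → (K → β) → Set (X × (K → β)) :=
  fun I t x y => {q | U I t q.1 q.2 = U I t x y}

variable {U : Finset K → ℕ → X → (K → β) → υ}

theorem UL_iff {I : Finset K} {t : ℕ} {x x' : X} {y y' : K → β} :
    UL U I t x y = UL U I t x' y' ↔ U I t x y = U I t x' y' := by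
  constructor
  · intro h
    have h1 : (x, y) ∈ UL U I t x y := rfl
    rw [h] at h1
    exact h1
  · intro h
    unfold UL
    rw [h]

theorem sysUL (h : Sys D U) : Sys D (UL U) where
  dep := fun I t x y y' h1 h2 => UL_iff.2 (h.dep I t x y y' h1 h2)
  ref := fun I t x y x' y' h1 h2 h3 h4 => UL_iff.2 (h.ref I t x y x' y' h1 h2 h3 (UL_iff.1 h4))

theorem eJ_UL (t : ℕ) (J : Finset K) (v w : Pt K X β φ) :
    eJ D (UL U) t J v = eJ D (UL U) t J w ↔ eJ D U t J v = eJ D U t J w := by
  rw [eJ_iff, eJ_iff]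
  simp only [UL_iff]

theorem eL_UL (t : ℕ) (J : Finset K) (v w : Pt K X β φ) :
    eL D (UL U) t J v = eL D (UL U) t J w ↔ eL D U t J v = eL D U t J w := by
  rw [eL_iff, eL_iff]
  simp only [UL_iff]

theorem eA_UL (t : ℕ) (v w : Pt K X β φ) :
    eA D (UL U) t v = eA D (UL U) t w ↔ eA D U t v = eA D U t w := by
  rw [eA_iff, eA_iff]
  simp only [UL_iff]

variable {al : ℝ} (h : D.Thick al) (dg : ℕ → X → ℝ)

theorem mm_UL : mm (UL U) h dg = mm U h dg := by
  funext t w
  unfold mm
  exact FP.ce_congr_map _ (fun v w hv => (eJ_UL t ∅ v w).1 hv) (fun v w hv => (eJ_UL t ∅ v w).2 hv) _ w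

theorem uu_UL : uu (UL U) h dg = uu U h dg := by
  funext J t w
  unfold uu
  exact FP.ce_congr_map _ (fun v w hv => (eJ_UL t J v w).1 hv) (fun v w hv => (eJ_UL t J v w).2 hv) _ w

theorem ul_UL : ul (UL U) h dg = ul U h dg := by
  funext J t w
  unfold ul
  exact FP.ce_congr_map _ (fun v w hv => (eL_UL t J v w).1 hv) (fun v w hv => (eL_UL t J v w).2 hv) _ w

theorem ua_UL : ua (UL U) h dg = ua U h dg := by
  funext t w
  unfold ua
  exact FP.ce_congr_map _ (fun v w hv => (eA_UL t v w).1 hv) (fun v w hv => (eA_UL t v w).2 hv) _ w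

/-- THE CONCLUSION FOR THE LEVEL SETS -/
theorem Concl.lev {pr : ℕ → K → φ → φ} {T : ℕ} {B e : ℝ} {G dd : ℕ → Pt K X β φ → Prop}
    (hC : Concl U h dg pr T B e G dd) : Concl (UL U) h dg pr T B e G dd where
  sys := sysUL hC.sys
  m2 := by rw [mm_UL]; exact hC.m2
  u2 := by rw [uu_UL, ul_UL]; exact hC.u2
  l2 := by rw [ul_UL]; exact hC.l2
  Gm := fun t ht v w hv => hC.Gm t ht v w ((eA_UL t v w).1 hv)
  Gl := by rw [ul_UL]; exact hC.Gl
  Gd := by rw [ul_UL]; exact hC.Gd
  inc := hC.inc
  dq := hC.dq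
  syn := by rw [mm_UL, uu_UL, ul_UL, ua_UL]; exact hC.syn

end

end Pool.Agent.GM.Harm
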