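import Pool.Agent.GM.HarmZ

/-!
# GM/HarmN: HARM(K) in the model for any coins and any independent noises, helper51

`nu l : Sq (Ξ × Ci) → Fin (N+1) → Nz.Ns Rz φ` noises of the labels, hypothesis `PulC Pm Pm pic (unif) (fun w l => nu l w)`:
given the raw sample point they are independent and uniform.
* `letN` : letters; `letQ`, `letS`, `letK` are instances (`letQ_letN`, `letS_letN`, `pulC_noiseS`);
* `genN`, `genNZ` : `GenM` for the data `datQ` (coin free) and `datZ` (coin of the hidden vertex);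
* **`houtN_S`**, **`houtN_W`**, **`houtNZ_S`**, **`houtNZ_W`** : HARM(K), strong and weak form, without and with the coin.
-/

set_option autoImplicit false
set_option linter.unusedSectionVars false
set_option linter.unusedVariables false

namespace Pool.Agent.GM

open Finset Pool.Agent.PWZ Pool.Agent.M3 Pool.Agent.M3.Bin
open Pool.Agent.M3.Mod (TM XM YM qaM qbM dgM SzM)

noncomputable section

section letters

variable {k N : ℕ} {ι Θ Ξ Ξr Z Ci : Type} [Fintype ι] [DecidableEq ι] {Rz : ℕ} {φ : Type} {i : ι}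

/-- THE LETTERS with the noises `nu` -/
def letN (Rz J n0 : ℕ) (nu : {j : ι // j ≠ i} → Sq k N ι Θ (Ξ × Ci) → Fin (N + 1) → Nz.Ns Rz φ)
    (oc : {j : ι // j ≠ i} → ℕ → Sq k N ι Θ Ξ → Prop)
    (tc : {j : ι // j ≠ i} → ℕ → Sq k N ι Θ Ξ → Option φ) (l : {j : ι // j ≠ i}) (t : ℕ)
    (w : Sq k N ι Θ (Ξ × Ci)) : Fin (N + 1) → Option φ :=
  Nz.lab Rz J n0 (fun s => oc l s (pic w)) (fun s => tc l s (pic w)) t (nu l w)

theorem letQ_letN (J n0 : ℕ) (oc : {j : ι // j ≠ i} → ℕ → Sq k N ι Θ Ξ → Prop)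
    (tc : {j : ι // j ≠ i} → ℕ → Sq k N ι Θ Ξ → Option φ) :
    letQ Rz J n0 i oc tc = letN Rz J n0 (fun l => nuQ i l.1) oc tc := rfl

theorem letS_letN (J n0 : ℕ) (oc : {j : ι // j ≠ i} → ℕ → Sq k N ι Θ Ξ → Prop)
    (tc : {j : ι // j ≠ i} → ℕ → Sq k N ι Θ Ξ → Option φ) :
    letS Rz J n0 i oc tc = letN Rz J n0 (nuS i) oc tc := rfl

theorem letN_rst [Fintype φ] (J n0 : ℕ) (nu : {j : ι // j ≠ i} → Sq k N ι Θ (Ξ × Ci) → Fin (N + 1) → Nz.Ns Rz φ)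
    (oc : {j : ι // j ≠ i} → ℕ → Sq k N ι Θ Ξ → Prop)
    (tc : {j : ι // j ≠ i} → ℕ → Sq k N ι Θ Ξ → Option φ) (l : {j : ι // j ≠ i}) (t : ℕ)
    (w : Sq k N ι Θ (Ξ × Ci)) :
    letN Rz J n0 nu oc tc l t w = rst t (letN Rz J n0 nu oc tc l (t + 1) w) := by
  unfold letN
  rw [Nz.lab_restrict t]
  rfl

variable [Fintype φ] [Fintype Ξ] [Nonempty Ξ] [Fintype Θ] [Nonempty Θ] [Fintype Ci] [Nonempty Ci]

/-- the noises of `CoK` -/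
theorem pulC_noiseS (i : ι) : PulC (Pm (k := k) (N := N) (ι := ι) (Θ := Θ) (P := Ξ × CoK N ι Rz φ)) (Pm (P := Ξ)) pic
    (FP.unif ({j : ι // j ≠ i} → Fin (N + 1) → Nz.Ns Rz φ)) (fun w l => nuS i l w) where
  E := fun F => by
    have h1 := (pulC_pic (k := k) (N := N) (ι := ι) (Θ := Θ) (Ξ := Ξ) (Ci := CoK N ι Rz φ)).E
      (fun v c => F v (fun l => c i l.1))
    have h2 : (fun w : Sq k N ι Θ (Ξ × CoK N ι Rz φ) => F (pic w) (fun l => nuS i l w)) =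
        fun w : Sq k N ι Θ (Ξ × CoK N ι Rz φ) => F (pic w) (fun l => coin w i l.1) := rfl
    rw [h2, h1]
    exact FP.E_congr _ fun v _ => coin_unifS i (F v)

/-- the hypothesis on the noises -/
abbrev NuL (i : ι) (nu : {j : ι // j ≠ i} → Sq k N ι Θ (Ξ × Ci) → Fin (N + 1) → Nz.Ns Rz φ) : Prop :=
  PulC (Pm (k := k) (N := N) (ι := ι) (Θ := Θ) (P := Ξ × Ci)) (Pm (P := Ξ)) pic
    (FP.unif ({j : ι // j ≠ i} → Fin (N + 1) → Nz.Ns Rz φ)) (fun w l => nu l w)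

variable {nu : {j : ι // j ≠ i} → Sq k N ι Θ (Ξ × Ci) → Fin (N + 1) → Nz.Ns Rz φ}

/-- THE LETTERS given the raw sample point -/
theorem coin_lawN (hnu : NuL i nu) (J n0 : ℕ) (oc : {j : ι // j ≠ i} → ℕ → Sq k N ι Θ Ξ → Prop)
    (tc : {j : ι // j ≠ i} → ℕ → Sq k N ι Θ Ξ → Option φ) (t : ℕ)
    (Ψ : Sq k N ι Θ Ξ → ({j : ι // j ≠ i} → Fin (N + 1) → Option φ) → ℝ) :
    Pm.E (fun w : Sq k N ι Θ (Ξ × Ci) => Ψ (pic w) (fun l => letN Rz J n0 nu oc tc l t w)) =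
    Pm.E (fun v : Sq k N ι Θ Ξ => ∑ F : {j : ι // j ≠ i} → Fin (N + 1) → Option φ,
      (∏ l, Nz.kr Rz J n0 (fun s => oc l s v) (fun s => tc l s v) t (F l)) * Ψ v F) := by
  classical
  have h1 := hnu.E (fun v α => Ψ v (fun l => Nz.lab Rz J n0 (fun s => oc l s v) (fun s => tc l s v) t (α l)))
  have h2 : (fun w : Sq k N ι Θ (Ξ × Ci) => Ψ (pic w) (fun l => letN Rz J n0 nu oc tc l t w)) =
      fun w : Sq k N ι Θ (Ξ × Ci) => Ψ (pic w) (fun l => Nz.lab Rz J n0 (fun s => oc l s (pic w))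
        (fun s => tc l s (pic w)) t (nu l w)) := rfl
  rw [h2, h1]
  refine FP.E_congr _ fun v _ => ?_
  exact unif_prod_law (fun l => Nz.lab Rz J n0 (fun s => oc l s v) (fun s => tc l s v) t) (Ψ v)

variable {h J n0 : ℕ} {oc : {j : ι // j ≠ i} → ℕ → Sq k N ι Θ Ξ → Prop}
  {tc : {j : ι // j ≠ i} → ℕ → Sq k N ι Θ Ξ → Option φ}

/-- THE MIXTURE -/
theorem mixN (hnu : NuL i nu) (hR : 1 ≤ Rz) (H : LabM i h oc tc) (t : ℕ) :
    Mix Pm (fun w : Sq k N ι Θ (Ξ × Ci) => tpQ i (pic w)) (pG (xQ i) (letN Rz J n0 nu oc tc) t)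
      (fun τ => (datQ Rz J n0 H τ).P (thickQ hR H τ) t) := by
  constructor
  intro Ψ
  have h1 := coin_lawN hnu J n0 oc tc t (fun v F => Ψ (tpQ i v) (xQ i v, ot i v, F))
  have h2 := (pulC_pic (k := k) (N := N) (ι := ι) (Θ := Θ) (Ξ := Ξ) (Ci := Ci)).pul.E
    (fun v => ((datQ Rz J n0 H (tpQ i v)).P (thickQ hR H (tpQ i v)) t).E (Ψ (tpQ i v)))
  have h3 : Pm.E (fun w : Sq k N ι Θ (Ξ × Ci) => Ψ (tpQ i (pic w)) (pG (xQ i) (letN Rz J n0 nu oc tc) t w)) =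
      Pm.E (fun w : Sq k N ι Θ (Ξ × Ci) =>
        (fun v F => Ψ (tpQ i v) (xQ i v, ot i v, F)) (pic w) (fun l => letN Rz J n0 nu oc tc l t w)) := rfl
  rw [h3, h1, h2, E_topQ i, E_topQ i]
  refine FP.E_congr _ fun τ _ => ?_
  have h4 : (FP.unif (XM N Ξ × ({j : ι // j ≠ i} → YM k Ξ))).E (fun q =>
      ((datQ Rz J n0 H (tpQ i (ptQ i τ q.1 q.2))).P (thickQ hR H (tpQ i (ptQ i τ q.1 q.2))) t).E
        (Ψ (tpQ i (ptQ i τ q.1 q.2)))) = ((datQ Rz J n0 H τ).P (thickQ hR H τ) t).E (Ψ τ) := by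
    have h5 : ∀ q : XM N Ξ × ({j : ι // j ≠ i} → YM k Ξ),
        ((datQ Rz J n0 H (tpQ i (ptQ i τ q.1 q.2))).P (thickQ hR H (tpQ i (ptQ i τ q.1 q.2))) t).E
          (Ψ (tpQ i (ptQ i τ q.1 q.2))) = ((datQ Rz J n0 H τ).P (thickQ hR H τ) t).E (Ψ τ) := by
      intro q
      rw [tp_ptQ]
    simp only [h5]
    exact FP.E_const _ _
  rw [h4, Harm.HD.P_E]
  refine FP.E_congr _ fun q _ => Finset.sum_congr rfl fun F _ => ?_
  rw [tp_ptQ, x_ptQ, ot_ptQ]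
  rfl

/-- THE DATA IN THE MODEL -/
theorem genN (hnu : NuL i nu) (hR : 1 ≤ Rz) (H : LabM i h oc tc) :
    GenM i h (datQ Rz J n0 H) (thickQ hR H) (xQ i) (letN Rz J n0 nu oc tc) (dgM N) (fun t _ => rst t) where
  mix := mixN hnu hR H
  qa := fun _ _ _ _ => Iff.rfl
  qb := fun _ _ _ _ => Iff.rfl
  dg := fun _ _ => rfl
  pr := fun t _ l w => (letN_rst J n0 nu oc tc l t w).symm

variable [Fintype Ξr] [Nonempty Ξr] [Fintype Z] [Nonempty Z]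

/-- THE AVERAGED DATA IN THE MODEL -/
theorem genNZ (hnu : NuL i nu) (e : Ξ ≃ Ξr × Z) (hR : 1 ≤ Rz) (H : LabM i h oc tc) {d : {j : ι // j ≠ i}}
    (hf : ∀ l, l ≠ d → ∀ s v w, SameZ e i v w → tc l s v = tc l s w) :
    GenM i h (datZ e Rz J n0 H) (thickZ e hR H) (xZ e i) (letN Rz J n0 nu oc tc) (dgM N) (fun t _ => rst t) where
  mix := fun t => by
    have h1 := mixN (J := J) (n0 := n0) hnu hR H t
    exact h1.push (fun _ u => ((eqZ N e u.1).1, u.2))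
      (Q' := fun τ => (datZ e Rz J n0 H τ).P (thickZ e hR H τ) t)
      (fun τ ψ => Harm.avgZ_P (thickQ hR H τ) (kf_free e H hf τ) t ψ)
  qa := fun _ _ _ _ => Iff.rfl
  qb := fun _ _ _ _ => Iff.rfl
  dg := fun _ _ => rfl
  pr := fun t _ l w => (letN_rst J n0 nu oc tc l t w).symm

/-- the output from the conclusion for every top, with the coin -/
theorem outNZ (hnu : NuL i nu) (hN : N ≤ k) (e : Ξ ≃ Ξr × Z) (hR : 1 ≤ Rz) (H : LabM i h oc tc)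
    {d : {j : ι // j ≠ i}} (hf : ∀ l, l ≠ d → ∀ s v w, SameZ e i v w → tc l s v = tc l s w) {B er : ℝ}
    (key : ∀ τ : TM k Θ, ∃ (υ : Type) (U : Finset {j : ι // j ≠ i} → ℕ → XM N Ξr → ({j : ι // j ≠ i} → YM k Ξ) → υ)
      (G dd : ℕ → Harm.Pt {j : ι // j ≠ i} (XM N Ξr) (YM k Ξ) (Fin (N + 1) → Option φ) → Prop),
      Harm.Concl U (thickZ (J := J) (n0 := n0) e hR H τ) (dgM N) (fun t _ => rst t) N B er G dd) :
    ∃ (υ : Type) (Uc : Finset {j : ι // j ≠ i} → ℕ → Sq k N ι Θ (Ξ × Ci) → υ)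
        (G dd : ℕ → Sq k N ι Θ (Ξ × Ci) → Prop),
        HOut i h (letN Rz J n0 nu oc tc) Uc B er G dd ∧
        ∀ I t, Fac (fun w : Sq k N ι Θ (Ξ × Ci) => (hvZ e i (pic w), res I (ot i (pic w)),
          Qn i h (M3.Mod.ex N t) w)) (Uc I t) := by
  have key' : ∀ τ : TM k Θ, ∃ (U : Finset {j : ι // j ≠ i} → ℕ → XM N Ξr → ({j : ι // j ≠ i} → YM k Ξ) →
      Set (XM N Ξr × ({j : ι // j ≠ i} → YM k Ξ)))
      (G dd : ℕ → Harm.Pt {j : ι // j ≠ i} (XM N Ξr) (YM k Ξ) (Fin (N + 1) → Option φ) → Prop),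
      Harm.Concl U (thickZ (J := J) (n0 := n0) e hR H τ) (dgM N) (fun t _ => rst t) N B er G dd := by
    intro τ
    obtain ⟨υ, U, G, dd, hU⟩ := key τ
    exact ⟨Harm.UL U, G, dd, hU.lev⟩
  choose U G dd hU using key'
  have M := genNZ (J := J) (n0 := n0) hnu e hR H hf
  have hx : ∀ v w : Sq k N ι Θ Ξ, tpQ i v = tpQ i w → vx i v = vx i w → xZ e i v = xZ e i w := fun v w h1 h2 =>
    xZ_of hN (by unfold hvZ; rw [h2]) h1
  refine ⟨_, UcG (xZ e i) U, _, _, M.hout hU hx, fun I t => ?_⟩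
  intro v w hv
  obtain ⟨h1, h2⟩ := Prod.mk.inj hv
  obtain ⟨h2, h3⟩ := Prod.mk.inj h2
  have h4 := (Qn_topC h t v w).1 h3
  exact M.UcG_fac hU I t v w (Prod.ext h4.1 (Prod.ext (xZ_of hN h1 h4.1) (Prod.ext h2 h3)))

omit [Fintype Ξr] [Nonempty Ξr] [Fintype Z] [Nonempty Z] in
/-- the output from the conclusion for every top -/
theorem outN (hnu : NuL i nu) (hN : N ≤ k) (hR : 1 ≤ Rz) (H : LabM i h oc tc) {B er : ℝ}
    (key : ∀ τ : TM k Θ, ∃ (υ : Type) (U : Finset {j : ι // j ≠ i} → ℕ → XM N Ξ → ({j : ι // j ≠ i} → YM k Ξ) → υ)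
      (G dd : ℕ → Harm.Pt {j : ι // j ≠ i} (XM N Ξ) (YM k Ξ) (Fin (N + 1) → Option φ) → Prop),
      Harm.Concl U (thickQ (J := J) (n0 := n0) hR H τ) (dgM N) (fun t _ => rst t) N B er G dd) :
    ∃ (υ : Type) (Uc : Finset {j : ι // j ≠ i} → ℕ → Sq k N ι Θ (Ξ × Ci) → υ)
        (G dd : ℕ → Sq k N ι Θ (Ξ × Ci) → Prop),
        HOut i h (letN Rz J n0 nu oc tc) Uc B er G dd := by
  have key' : ∀ τ : TM k Θ, ∃ (U : Finset {j : ι // j ≠ i} → ℕ → XM N Ξ → ({j : ι // j ≠ i} → YM k Ξ) →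
      Set (XM N Ξ × ({j : ι // j ≠ i} → YM k Ξ)))
      (G dd : ℕ → Harm.Pt {j : ι // j ≠ i} (XM N Ξ) (YM k Ξ) (Fin (N + 1) → Option φ) → Prop),
      Harm.Concl U (thickQ (J := J) (n0 := n0) hR H τ) (dgM N) (fun t _ => rst t) N B er G dd := by
    intro τ
    obtain ⟨υ, U, G, dd, hU⟩ := key τ
    exact ⟨Harm.UL U, G, dd, hU.lev⟩
  choose U G dd hU using key'
  have M := genN (J := J) (n0 := n0) hnu hR H
  exact ⟨_, UcG (xQ i) U, _, _, M.hout hU fun v w h1 h2 => xM_of (i := i) hN h2 h1⟩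

end letters

/-! ## HARM(K) in the model -/

/-- **HARM(K), STRONG FORM, IN THE MODEL**, any coins -/
theorem houtN_S {ι : Type} [Fintype ι] [DecidableEq ι] {i : ι} {κ : ℝ} (hH : Harm.HarmS {j : ι // j ≠ i} κ) :
    ∃ C : ℕ, ∀ (k N : ℕ) (Θ Ξ Ci φ : Type) [Fintype Θ] [Nonempty Θ] [Fintype Ξ] [Nonempty Ξ] [Fintype Ci]
      [Nonempty Ci] [Fintype φ] [Nonempty φ] (_ : N ≤ k) (h Rz J n0 : ℕ)
      (nu : {j : ι // j ≠ i} → Sq k N ι Θ (Ξ × Ci) → Fin (N + 1) → Nz.Ns Rz φ) (_ : NuL i nu)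
      (oc : {j : ι // j ≠ i} → ℕ → Sq k N ι Θ Ξ → Prop)
      (tc : {j : ι // j ≠ i} → ℕ → Sq k N ι Θ Ξ → Option φ) (_ : LabM i h oc tc) (Lam n : ℝ)
      (_ : SzM Rz J n0 (Fintype.card φ) Lam) (_ : (2 * Lam) ^ C ≤ n),
      ∃ (υ : Type) (Uc : Finset {j : ι // j ≠ i} → ℕ → Sq k N ι Θ (Ξ × Ci) → υ)
        (G dd : ℕ → Sq k N ι Θ (Ξ × Ci) → Prop),
        HOut i h (letN Rz J n0 nu oc tc) Uc (n ^ C) (C * Lam ^ C * n ^ (-κ)) G dd := by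
  obtain ⟨C, hC⟩ := hH
  refine ⟨C, ?_⟩
  intro k N Θ Ξ Ci φ _ _ _ _ _ _ _ _ hN h Rz J n0 nu hnu oc tc H Lam n hs hn
  exact outN hnu hN hs.R1 H fun τ => hC (XM N Ξ) (YM k Ξ) (ℕ × V k) (Fin (N + 1) → Option φ) (datQ Rz J n0 H τ) _
    (thickQ hs.R1 H τ) (dgM N) (fun t _ => rst t) N Lam n (hypQ hN H τ hs) hn

/-- **HARM(K), WEAK FORM, IN THE MODEL**, any coins -/
theorem houtN_W {ι : Type} [Fintype ι] [DecidableEq ι] {i : ι} (hH : Harm.HarmW {j : ι // j ≠ i}) :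
    ∃ C : ℕ, ∀ (k N : ℕ) (Θ Ξ Ci φ : Type) [Fintype Θ] [Nonempty Θ] [Fintype Ξ] [Nonempty Ξ] [Fintype Ci]
      [Nonempty Ci] [Fintype φ] [Nonempty φ] (_ : N ≤ k) (h Rz J n0 : ℕ)
      (nu : {j : ι // j ≠ i} → Sq k N ι Θ (Ξ × Ci) → Fin (N + 1) → Nz.Ns Rz φ) (_ : NuL i nu)
      (oc : {j : ι // j ≠ i} → ℕ → Sq k N ι Θ Ξ → Prop)
      (tc : {j : ι // j ≠ i} → ℕ → Sq k N ι Θ Ξ → Option φ) (_ : LabM i h oc tc) (Lam : ℝ)
      (_ : SzM Rz J n0 (Fintype.card φ) Lam) (_ : 2 ≤ Lam),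
      ∃ (υ : Type) (Uc : Finset {j : ι // j ≠ i} → ℕ → Sq k N ι Θ (Ξ × Ci) → υ)
        (G dd : ℕ → Sq k N ι Θ (Ξ × Ci) → Prop),
        HOut i h (letN Rz J n0 nu oc tc) Uc (Real.exp (Real.log (2 * Lam) ^ C)) Lam⁻¹ G dd := by
  obtain ⟨C, hC⟩ := hH
  refine ⟨C, ?_⟩
  intro k N Θ Ξ Ci φ _ _ _ _ _ _ _ _ hN h Rz J n0 nu hnu oc tc H Lam hs hn
  exact outN hnu hN hs.R1 H fun τ => hC (XM N Ξ) (YM k Ξ) (ℕ × V k) (Fin (N + 1) → Option φ) (datQ Rz J n0 H τ) _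
    (thickQ hs.R1 H τ) (dgM N) (fun t _ => rst t) N Lam (hypQ hN H τ hs) hn

/-- **HARM(K), STRONG FORM, IN THE MODEL WITH A COIN OF THE HIDDEN VERTEX**, any coins -/
theorem houtNZ_S {ι : Type} [Fintype ι] [DecidableEq ι] {i : ι} {κ : ℝ} (hH : Harm.HarmS {j : ι // j ≠ i} κ) :
    ∃ C : ℕ, ∀ (k N : ℕ) (Θ Ξ Ξr Z Ci φ : Type) [Fintype Θ] [Nonempty Θ] [Fintype Ξ] [Nonempty Ξ] [Fintype Ξr]
      [Nonempty Ξr] [Fintype Z] [Nonempty Z] [Fintype Ci] [Nonempty Ci] [Fintype φ] [Nonempty φ] (_ : N ≤ k)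
      (e : Ξ ≃ Ξr × Z) (h Rz J n0 : ℕ)
      (nu : {j : ι // j ≠ i} → Sq k N ι Θ (Ξ × Ci) → Fin (N + 1) → Nz.Ns Rz φ) (_ : NuL i nu)
      (oc : {j : ι // j ≠ i} → ℕ → Sq k N ι Θ Ξ → Prop)
      (tc : {j : ι // j ≠ i} → ℕ → Sq k N ι Θ Ξ → Option φ) (_ : LabM i h oc tc) (d : {j : ι // j ≠ i})
      (_ : ∀ l, l ≠ d → ∀ s v w, SameZ e i v w → tc l s v = tc l s w) (Lam n : ℝ)
      (_ : SzM Rz J n0 (Fintype.card φ) Lam) (_ : (2 * Lam) ^ C ≤ n),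
      ∃ (υ : Type) (Uc : Finset {j : ι // j ≠ i} → ℕ → Sq k N ι Θ (Ξ × Ci) → υ)
        (G dd : ℕ → Sq k N ι Θ (Ξ × Ci) → Prop),
        HOut i h (letN Rz J n0 nu oc tc) Uc (n ^ C) (C * Lam ^ C * n ^ (-κ)) G dd ∧
        ∀ I t, Fac (fun w : Sq k N ι Θ (Ξ × Ci) => (hvZ e i (pic w), res I (ot i (pic w)),
          Qn i h (M3.Mod.ex N t) w)) (Uc I t) := by
  obtain ⟨C, hC⟩ := hH
  refine ⟨C, ?_⟩
  intro k N Θ Ξ Ξr Z Ci φ _ _ _ _ _ _ _ _ _ _ _ _ hN e h Rz J n0 nu hnu oc tc H d hf Lam n hs hn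
  exact outNZ hnu hN e hs.R1 H hf fun τ => hC (XM N Ξr) (YM k Ξ) (ℕ × V k) (Fin (N + 1) → Option φ)
    (datZ e Rz J n0 H τ) _ (thickZ e hs.R1 H τ) (dgM N) (fun t _ => rst t) N Lam n (hypZ e hN H τ hs) hn

/-- **HARM(K), WEAK FORM, IN THE MODEL WITH A COIN OF THE HIDDEN VERTEX**, any coins -/
theorem houtNZ_W {ι : Type} [Fintype ι] [DecidableEq ι] {i : ι} (hH : Harm.HarmW {j : ι // j ≠ i}) :
    ∃ C : ℕ, ∀ (k N : ℕ) (Θ Ξ Ξr Z Ci φ : Type) [Fintype Θ] [Nonempty Θ] [Fintype Ξ] [Nonempty Ξ] [Fintype Ξr]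
      [Nonempty Ξr] [Fintype Z] [Nonempty Z] [Fintype Ci] [Nonempty Ci] [Fintype φ] [Nonempty φ] (_ : N ≤ k)
      (e : Ξ ≃ Ξr × Z) (h Rz J n0 : ℕ)
      (nu : {j : ι // j ≠ i} → Sq k N ι Θ (Ξ × Ci) → Fin (N + 1) → Nz.Ns Rz φ) (_ : NuL i nu)
      (oc : {j : ι // j ≠ i} → ℕ → Sq k N ι Θ Ξ → Prop)
      (tc : {j : ι // j ≠ i} → ℕ → Sq k N ι Θ Ξ → Option φ) (_ : LabM i h oc tc) (d : {j : ι // j ≠ i})
      (_ : ∀ l, l ≠ d → ∀ s v w, SameZ e i v w → tc l s v = tc l s w) (Lam : ℝ)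
      (_ : SzM Rz J n0 (Fintype.card φ) Lam) (_ : 2 ≤ Lam),
      ∃ (υ : Type) (Uc : Finset {j : ι // j ≠ i} → ℕ → Sq k N ι Θ (Ξ × Ci) → υ)
        (G dd : ℕ → Sq k N ι Θ (Ξ × Ci) → Prop),
        HOut i h (letN Rz J n0 nu oc tc) Uc (Real.exp (Real.log (2 * Lam) ^ C)) Lam⁻¹ G dd ∧
        ∀ I t, Fac (fun w : Sq k N ι Θ (Ξ × Ci) => (hvZ e i (pic w), res I (ot i (pic w)),
          Qn i h (M3.Mod.ex N t) w)) (Uc I t) := by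
  obtain ⟨C, hC⟩ := hH
  refine ⟨C, ?_⟩
  intro k N Θ Ξ Ξr Z Ci φ _ _ _ _ _ _ _ _ _ _ _ _ hN e h Rz J n0 nu hnu oc tc H d hf Lam hs hn
  exact outNZ hnu hN e hs.R1 H hf fun τ => hC (XM N Ξr) (YM k Ξ) (ℕ × V k) (Fin (N + 1) → Option φ)
    (datZ e Rz J n0 H τ) _ (thickZ e hs.R1 H τ) (dgM N) (fun t _ => rst t) N Lam (hypZ e hN H τ hs) hn

end

end Pool.Agent.GM
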