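import Pool.Agent.GM.HarmG
import Pool.Agent.GM.HAvg

/-!
# GM/HarmZ: HARM(K) in the model with a coin of the hidden vertex which only one label sees, helper51

Raw private type `Ξ` with `e : Ξ ≃ Ξr × Z`, `Z` = the values of the coin (`e = Equiv.refl _` for `Ξ = Ξr × Z`).
* `SameZ e i v w` : same sample point but for the coin of the vertex `i`; `hvZ e i v` = what is seen of the hidden vertex;
* `genZ` : the averaged data satisfy `GenM`;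
* **`hout_harmSZ`**, **`hout_harmWZ`** : HARM(K), strong and weak form, for scripts `LabM` such that the true components of
  the labels `l ≠ d` do not see the coin: `HOut`, and the classes `Uc I t` are functions of (`hvZ`, `x_I`, public node).
-/

set_option autoImplicit false
set_option linter.unusedSectionVars false
set_option linter.unusedVariables false

namespace Pool.Agent.GM

open Finset Pool.Agent.PWZ Pool.Agent.M3 Pool.Agent.M3.Bin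
open Pool.Agent.M3.Mod (TM XM YM qaM qbM dgM SzM)

noncomputable section

variable {k N : ℕ} {ι Θ Ξ Ξr Z : Type} [Fintype ι] [DecidableEq ι]

/-- same sample point but for the coin of the vertex `i` -/
def SameZ (e : Ξ ≃ Ξr × Z) (i : ι) (v w : Sq k N ι Θ Ξ) : Prop :=
  th v = th w ∧ (e (vx i v).1).1 = (e (vx i w).1).1 ∧ (vx i v).2 = (vx i w).2 ∧ ot i v = ot i w ∧ v.2.2 = w.2.2

/-- what is seen of the hidden vertex -/
def hvZ (e : Ξ ≃ Ξr × Z) (i : ι) (v : Sq k N ι Θ Ξ) : Ξr × V k := ((e (vx i v).1).1, (vx i v).2)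

/-- the hidden point without the coin -/
def xZ (e : Ξ ≃ Ξr × Z) (i : ι) (v : Sq k N ι Θ Ξ) : XM N Ξr := ((e (vx i v).1).1, v.2.2)

/-- hidden points = hidden points without the coin and coins -/
def eqZ (N : ℕ) (e : Ξ ≃ Ξr × Z) : XM N Ξ ≃ XM N Ξr × Z where
  toFun u := (((e u.1).1, u.2), (e u.1).2)
  invFun p := (e.symm (p.1.1, p.2), p.1.2)
  left_inv u := by
    refine Prod.ext ?_ rfl
    show e.symm ((e u.1).1, (e u.1).2) = u.1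
    rw [Prod.mk.eta, Equiv.symm_apply_apply]
  right_inv p := by simp

theorem xZ_of (hN : N ≤ k) {e : Ξ ≃ Ξr × Z} {i : ι} {v w : Sq k N ι Θ Ξ} (h1 : hvZ e i v = hvZ e i w)
    (h2 : tpQ i v = tpQ i w) : xZ e i v = xZ e i w := by
  have hv := Prod.mk.inj h1
  have h3 : (vx i v).2 + ((nz v : ℕ) : V k) = (vx i w).2 + ((nz w : ℕ) : V k) := (Prod.mk.inj h2).2
  rw [hv.2] at h3
  have h4 : ((nz v : ℕ) : V k) = ((nz w : ℕ) : V k) := add_left_cancel h3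
  have h5 : nz v < 2 ^ k := lt_of_lt_of_le v.2.2.2 (Nat.pow_le_pow_right (by norm_num) hN)
  have h6 : nz w < 2 ^ k := lt_of_lt_of_le w.2.2.2 (Nat.pow_le_pow_right (by norm_num) hN)
  have h7 : nz v = nz w := by
    have h8 := congrArg ZMod.val h4
    rwa [ZMod.val_natCast_of_lt h5, ZMod.val_natCast_of_lt h6] at h8
  exact Prod.ext hv.1 (Fin.ext h7)

section gen

variable {i : ι} {h : ℕ} {φ : Type} [Fintype φ] {oc : {j : ι // j ≠ i} → ℕ → Sq k N ι Θ Ξ → Prop}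
  {tc : {j : ι // j ≠ i} → ℕ → Sq k N ι Θ Ξ → Option φ} [Fintype Ξ] [Nonempty Ξ] [Fintype Ξr] [Nonempty Ξr]
  [Fintype Z] [Nonempty Z]

/-- the averaged data of one top -/
def datZ (e : Ξ ≃ Ξr × Z) (Rz J n0 : ℕ) (H : LabM i h oc tc) (τ : TM k Θ) :
    Harm.HD {j : ι // j ≠ i} (XM N Ξr) (YM k Ξ) (ℕ × V k) (Fin (N + 1) → Option φ) :=
  (datQ Rz J n0 H τ).avgZ (eqZ N e) (qaM k N) (fun _ _ => rfl)

theorem thickZ (e : Ξ ≃ Ξr × Z) {Rz J n0 : ℕ} (hR : 1 ≤ Rz) (H : LabM i h oc tc) (τ : TM k Θ) :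
    (datZ e Rz J n0 H τ).Thick (Nz.alz Rz J n0 (Fintype.card φ)) := Harm.avgZ_thick (thickQ hR H τ)

theorem hypZ [Nonempty φ] (e : Ξ ≃ Ξr × Z) (hN : N ≤ k) (H : LabM i h oc tc) (τ : TM k Θ) {Rz J n0 : ℕ}
    {Lam : ℝ} (hs : SzM Rz J n0 (Fintype.card φ) Lam) :
    (datZ e Rz J n0 H τ).Hyp (dgM N) (fun t _ => rst t) (Nz.alz Rz J n0 (Fintype.card φ)) N Lam :=
  Harm.avgZ_hyp (fun _ _ => rfl) (hypQ hN H τ hs)

/-- the labels `l ≠ d` do not see the coin -/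
theorem kf_free (e : Ξ ≃ Ξr × Z) {Rz J n0 : ℕ} (H : LabM i h oc tc) {d : {j : ι // j ≠ i}}
    (hf : ∀ l, l ≠ d → ∀ s v w, SameZ e i v w → tc l s v = tc l s w) (τ : TM k Θ) (t : ℕ) (l : {j : ι // j ≠ i})
    (hl : l ≠ d) (x : XM N Ξr) (z z' : Z) (y : {j : ι // j ≠ i} → YM k Ξ) :
    (datQ Rz J n0 H τ).kf t l ((eqZ N e).symm (x, z)) y = (datQ Rz J n0 H τ).kf t l ((eqZ N e).symm (x, z')) y := by
  funext F
  refine Nz.kr_congr (fun s _ => ?_) (fun s _ => ?_) F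
  · exact H.oc_pt τ (fun _ _ => rfl) rfl rfl
  · refine hf l hl s _ _ ⟨rfl, ?_, ?_, ?_, rfl⟩
    · rw [vi_ptQ, vi_ptQ]
      show (e (e.symm (x.1, z))).1 = (e (e.symm (x.1, z'))).1
      rw [Equiv.apply_symm_apply, Equiv.apply_symm_apply]
    · rw [vi_ptQ, vi_ptQ]
      rfl
    · rw [ot_ptQ, ot_ptQ]

variable [Fintype Θ] [Nonempty Θ]

/-- THE AVERAGED DATA IN THE MODEL -/
theorem genZ (e : Ξ ≃ Ξr × Z) {Rz J n0 : ℕ} (hR : 1 ≤ Rz) (H : LabM i h oc tc) {d : {j : ι // j ≠ i}}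
    (hf : ∀ l, l ≠ d → ∀ s v w, SameZ e i v w → tc l s v = tc l s w) :
    GenM (Ci := CoK N ι Rz φ) i h (datZ e Rz J n0 H) (thickZ e hR H) (xZ e i) (letS Rz J n0 i oc tc) (dgM N)
      (fun t _ => rst t) where
  mix := fun t => by
    have h1 := mixQ (J := J) (n0 := n0) hR H t
    exact h1.push (fun _ u => ((eqZ N e u.1).1, u.2))
      (Q' := fun τ => (datZ e Rz J n0 H τ).P (thickZ e hR H τ) t)
      (fun τ ψ => Harm.avgZ_P (thickQ hR H τ) (kf_free e H hf τ) t ψ)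
  qa := fun _ _ _ _ => Iff.rfl
  qb := fun _ _ _ _ => Iff.rfl
  dg := fun _ _ => rfl
  pr := fun t _ l w => (letS_rst Rz J n0 i oc tc l t w).symm

end gen

/-- **HARM(K), STRONG FORM, IN THE MODEL WITH A COIN** -/
theorem hout_harmSZ {ι : Type} [Fintype ι] [DecidableEq ι] {i : ι} {κ : ℝ} (hH : Harm.HarmS {j : ι // j ≠ i} κ) :
    ∃ C : ℕ, ∀ (k N : ℕ) (Θ Ξ Ξr Z φ : Type) [Fintype Θ] [Nonempty Θ] [Fintype Ξ] [Nonempty Ξ] [Fintype Ξr]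
      [Nonempty Ξr] [Fintype Z] [Nonempty Z] [Fintype φ] [Nonempty φ] (_ : N ≤ k) (e : Ξ ≃ Ξr × Z) (h Rz J n0 : ℕ)
      (oc : {j : ι // j ≠ i} → ℕ → Sq k N ι Θ Ξ → Prop)
      (tc : {j : ι // j ≠ i} → ℕ → Sq k N ι Θ Ξ → Option φ) (_ : LabM i h oc tc) (d : {j : ι // j ≠ i})
      (_ : ∀ l, l ≠ d → ∀ s v w, SameZ e i v w → tc l s v = tc l s w) (Lam n : ℝ)
      (_ : SzM Rz J n0 (Fintype.card φ) Lam) (_ : (2 * Lam) ^ C ≤ n),
      ∃ (υ : Type) (Uc : Finset {j : ι // j ≠ i} → ℕ → Sq k N ι Θ (Ξ × CoK N ι Rz φ) → υ)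
        (G dd : ℕ → Sq k N ι Θ (Ξ × CoK N ι Rz φ) → Prop),
        HOut i h (letS Rz J n0 i oc tc) Uc (n ^ C) (C * Lam ^ C * n ^ (-κ)) G dd ∧
        ∀ I t, Fac (fun w : Sq k N ι Θ (Ξ × CoK N ι Rz φ) => (hvZ e i (pic w), res I (ot i (pic w)),
          Qn i h (M3.Mod.ex N t) w)) (Uc I t) := by
  obtain ⟨C, hC⟩ := hH
  refine ⟨C, ?_⟩
  intro k N Θ Ξ Ξr Z φ _ _ _ _ _ _ _ _ _ _ hN e h Rz J n0 oc tc H d hf Lam n hs hn
  have key : ∀ τ : TM k Θ, ∃ (U : Finset {j : ι // j ≠ i} → ℕ → XM N Ξr → ({j : ι // j ≠ i} → YM k Ξ) →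
      Set (XM N Ξr × ({j : ι // j ≠ i} → YM k Ξ)))
      (G dd : ℕ → Harm.Pt {j : ι // j ≠ i} (XM N Ξr) (YM k Ξ) (Fin (N + 1) → Option φ) → Prop),
      Harm.Concl U (thickZ (J := J) (n0 := n0) e hs.R1 H τ) (dgM N) (fun t _ => rst t) N (n ^ C)
        (C * Lam ^ C * n ^ (-κ)) G dd := by
    intro τ
    obtain ⟨υ, U, G, dd, hU⟩ := hC (XM N Ξr) (YM k Ξ) (ℕ × V k) (Fin (N + 1) → Option φ) (datZ e Rz J n0 H τ) _
      (thickZ e hs.R1 H τ) (dgM N) (fun t _ => rst t) N Lam n (hypZ e hN H τ hs) hn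
    exact ⟨Harm.UL U, G, dd, hU.lev⟩
  choose U G dd hU using key
  have M := genZ (J := J) (n0 := n0) e hs.R1 H hf
  have hx : ∀ v w : Sq k N ι Θ Ξ, tpQ i v = tpQ i w → vx i v = vx i w → xZ e i v = xZ e i w := fun v w h1 h2 =>
    xZ_of hN (by unfold hvZ; rw [h2]) h1
  refine ⟨_, UcG (xZ e i) U, _, _, M.hout hU hx, fun I t => ?_⟩
  intro v w hv
  obtain ⟨h1, h2⟩ := Prod.mk.inj hv
  obtain ⟨h2, h3⟩ := Prod.mk.inj h2
  have h4 := (Qn_topC h t v w).1 h3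
  exact M.UcG_fac hU I t v w (Prod.ext h4.1 (Prod.ext (xZ_of hN h1 h4.1) (Prod.ext h2 h3)))

/-- **HARM(K), WEAK FORM, IN THE MODEL WITH A COIN** -/
theorem hout_harmWZ {ι : Type} [Fintype ι] [DecidableEq ι] {i : ι} (hH : Harm.HarmW {j : ι // j ≠ i}) :
    ∃ C : ℕ, ∀ (k N : ℕ) (Θ Ξ Ξr Z φ : Type) [Fintype Θ] [Nonempty Θ] [Fintype Ξ] [Nonempty Ξ] [Fintype Ξr]
      [Nonempty Ξr] [Fintype Z] [Nonempty Z] [Fintype φ] [Nonempty φ] (_ : N ≤ k) (e : Ξ ≃ Ξr × Z) (h Rz J n0 : ℕ)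
      (oc : {j : ι // j ≠ i} → ℕ → Sq k N ι Θ Ξ → Prop)
      (tc : {j : ι // j ≠ i} → ℕ → Sq k N ι Θ Ξ → Option φ) (_ : LabM i h oc tc) (d : {j : ι // j ≠ i})
      (_ : ∀ l, l ≠ d → ∀ s v w, SameZ e i v w → tc l s v = tc l s w) (Lam : ℝ)
      (_ : SzM Rz J n0 (Fintype.card φ) Lam) (_ : 2 ≤ Lam),
      ∃ (υ : Type) (Uc : Finset {j : ι // j ≠ i} → ℕ → Sq k N ι Θ (Ξ × CoK N ι Rz φ) → υ)
        (G dd : ℕ → Sq k N ι Θ (Ξ × CoK N ι Rz φ) → Prop),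
        HOut i h (letS Rz J n0 i oc tc) Uc (Real.exp (Real.log (2 * Lam) ^ C)) Lam⁻¹ G dd ∧
        ∀ I t, Fac (fun w : Sq k N ι Θ (Ξ × CoK N ι Rz φ) => (hvZ e i (pic w), res I (ot i (pic w)),
          Qn i h (M3.Mod.ex N t) w)) (Uc I t) := by
  obtain ⟨C, hC⟩ := hH
  refine ⟨C, ?_⟩
  intro k N Θ Ξ Ξr Z φ _ _ _ _ _ _ _ _ _ _ hN e h Rz J n0 oc tc H d hf Lam hs hn
  have key : ∀ τ : TM k Θ, ∃ (U : Finset {j : ι // j ≠ i} → ℕ → XM N Ξr → ({j : ι // j ≠ i} → YM k Ξ) →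
      Set (XM N Ξr × ({j : ι // j ≠ i} → YM k Ξ)))
      (G dd : ℕ → Harm.Pt {j : ι // j ≠ i} (XM N Ξr) (YM k Ξ) (Fin (N + 1) → Option φ) → Prop),
      Harm.Concl U (thickZ (J := J) (n0 := n0) e hs.R1 H τ) (dgM N) (fun t _ => rst t) N
        (Real.exp (Real.log (2 * Lam) ^ C)) Lam⁻¹ G dd := by
    intro τ
    obtain ⟨υ, U, G, dd, hU⟩ := hC (XM N Ξr) (YM k Ξ) (ℕ × V k) (Fin (N + 1) → Option φ) (datZ e Rz J n0 H τ) _
      (thickZ e hs.R1 H τ) (dgM N) (fun t _ => rst t) N Lam (hypZ e hN H τ hs) hn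
    exact ⟨Harm.UL U, G, dd, hU.lev⟩
  choose U G dd hU using key
  have M := genZ (J := J) (n0 := n0) e hs.R1 H hf
  have hx : ∀ v w : Sq k N ι Θ Ξ, tpQ i v = tpQ i w → vx i v = vx i w → xZ e i v = xZ e i w := fun v w h1 h2 =>
    xZ_of hN (by unfold hvZ; rw [h2]) h1
  refine ⟨_, UcG (xZ e i) U, _, _, M.hout hU hx, fun I t => ?_⟩
  intro v w hv
  obtain ⟨h1, h2⟩ := Prod.mk.inj hv
  obtain ⟨h2, h3⟩ := Prod.mk.inj h2
  have h4 := (Qn_topC h t v w).1 h3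
  exact M.UcG_fac hU I t v w (Prod.ext h4.1 (Prod.ext (xZ_of hN h1 h4.1) (Prod.ext h2 h3)))

end

end Pool.Agent.GM
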