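import Pool.Agent.GM.ColdXs
import Pool.Agent.GM.TransferN
import Pool.Agent.GM.ColdBin

/-!
# GM/NatX1: the cold inputs of the natural classes `Nk x S` with `S` empty or one vertex, coins averaged (row P5, helper17)

* `PTm_fineF` : product tests `PTm` at a finer rounding, no loss in the radius;
* `TTX_known` : the vertex `j` known, view of another vertex `i`: rarity from the tests `PTm` of the face `j`, coins averaged,
  only the face `j` reads the coin;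
* **`natX_single`** : `S` empty or `{j}`, `j ≠ x`, class `Nk x S hh e`: rarity at every point, the coin is read by the face of
  `δ` only, any `δ` (`δ = j`, `δ = x` or another vertex);
* `natS_single` : the same for the moving faces of `binSys`, from `Rare` of the face `j`.
-/

set_option autoImplicit false
set_option linter.unusedSectionVars false

namespace Pool.Agent.GM

open Finset Pool.Agent.PWZ Pool.Agent.M3 Pool.Agent.M3.Bin
open Pool.Agent.M3.Mod (ex nd av dl pnd SC cel CL card_CL flr_add_lt' av_round)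

noncomputable section

variable {k N : ℕ} {ι Θ P Ξ : Type} [Fintype ι] [DecidableEq ι] (c0 : V k) [Fintype Θ] [Nonempty Θ] [Fintype P]
  [Nonempty P] [Fintype Ξ]

theorem coar_coar {h h' e : ℕ} (hh : h ≤ h') (g : V k × ℕ) : coar h e (coar h' e g) = coar h e g := by
  unfold coar
  rw [flr_flr (by omega)]

/-- PRODUCT TESTS at a finer rounding -/
theorem PTm_fineF {j : ι} {h h' : ℕ} (hh : h ≤ h') (hN : N ≤ k) {wx : Ξ → ℝ} (wx0 : ∀ ξ, 0 ≤ wx ξ)
    {R : Ξ → Fam k ι P} {θ r : ℝ} (hθ : 0 ≤ θ) (hPT : GMC.PTm wx j h N R θ r) :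
    GMC.PTm wx j h' N (fun ξ => fine h (R ξ)) (θ * (2 ^ (h' - h)) ^ Fintype.card ι) r := by
  classical
  intro e he g c v hv hv1
  have hek : e ≤ k := he.trans hN
  have h1 := hPT e he g c v hv hv1
  have h2 : ∑ ξ, wx ξ * (((SCm (P := P) h' e c).filter fun x =>
      r ≤ |av e g.1 (fun d => fine h (R ξ) e (coar h' e g) x d * ∏ w ∈ univ.erase j, v w x d)|).card : ℝ) ≤
      ∑ ξ, wx ξ * (((SCm (P := P) h e c).filter fun x =>
      r ≤ |av e g.1 (fun d => R ξ e (coar h e g) x d * ∏ w ∈ univ.erase j, v w x d)|).card : ℝ) := by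
    refine Finset.sum_le_sum fun ξ _ => mul_le_mul_of_nonneg_left (Nat.cast_le.mpr (Finset.card_le_card ?_)) (wx0 ξ)
    intro x hx
    rw [Finset.mem_filter] at hx ⊢
    refine ⟨?_, ?_⟩
    · have h3 := hx.1
      rw [mem_SCm] at h3 ⊢
      exact fun l => flr_mono_eq (by omega) (h3 l)
    · have h3 := hx.2
      unfold fine at h3
      rw [coar_coar hh] at h3
      exact h3
  refine h2.trans (h1.trans ?_)
  rw [card_SCm hek, card_SCm hek, mul_assoc, ← mul_pow]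
  refine mul_le_mul_of_nonneg_left ?_ hθ
  refine pow_le_pow_left₀ (by positivity) ?_ _
  have h6 : (2 : ℝ) ^ (e - (h + 3)) ≤ 2 ^ (h' - h) * 2 ^ (e - (h' + 3)) := by
    rw [← pow_add]
    exact pow_le_pow_right₀ (by norm_num) (by omega)
  have hP : (0 : ℝ) ≤ (Fintype.card P : ℝ) := Nat.cast_nonneg _
  calc (Fintype.card P : ℝ) * 2 ^ (e - (h + 3)) ≤ (Fintype.card P : ℝ) * (2 ^ (h' - h) * 2 ^ (e - (h' + 3))) :=
        mul_le_mul_of_nonneg_left h6 hP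
    _ = _ := by ring

/-- RARITY in the view `i`, the vertex `j ≠ i` of the tested face known exactly, coins averaged: only the face `j` reads
the coin -/
theorem TTX_known {i j : ι} (hij : j ≠ i) {h e : ℕ} (he : e ≤ N) (hN : N ≤ k) {R : Θ → Ξ → ι → Fam k ι P} {wx : Ξ → ℝ}
    (wx0 : ∀ ξ, 0 ≤ wx ξ) {θ r r1 : ℝ} (hθ : 0 ≤ θ) (hR : ∀ θ ξ l, FOn ({l}ᶜ : Set ι) (R θ ξ l))
    (hR1 : ∀ θ ξ l, FLe 1 (R θ ξ l)) (hoth : ∀ θ ξ ξ' l, l ≠ j → R θ ξ l = R θ ξ' l)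
    (hPT : ∀ θ', GMC.PTm wx j h N (fun ξ => R θ' ξ j) θ r) (hr : r + 2 * ((2 : ℝ) ^ h)⁻¹ ≤ r1) (ω : Sq k N ι Θ P) :
    Pm.ce (Yk i {i, j} e (e - (h + 3))) (fun v => ∑ ξ, wx ξ * ind (r1 ≤ |TT c0 h (R (th v) ξ) e v|)) ω ≤
      Fintype.card ι * (9 / 8 * θ) := by
  classical
  rcases isEmpty_or_nonempty Ξ with hΞ | ⟨⟨ξ0⟩⟩
  · simp only [Finset.univ_eq_empty, Finset.sum_empty]
    rw [FP.ce_const _ _ _ (Pm_ne ω)]
    positivity
  set V0 : V k × ℕ → ι → (ι → P × V k) → V k → ℝ := fun g w x =>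
    R (th ω) ξ0 w e g (Function.update x j (vx j ω)) with hV0
  set G : V k × ℕ → Sq k N ι Θ P → ℝ := fun g v => ∑ ξ, wx ξ * ind (r ≤ |av e g.1 (fun d =>
    R (th ω) ξ j e g (vs v) d * ∏ w ∈ univ.erase j, V0 g w (vs v) d)|) with hG
  have h1 := ce_opts (Θ := Θ) (P := P) (N := N) c0 i (h := h) (e := e) (he.trans hN)
    (X := Yk i {i, j} e (e - (h + 3))) (θ := 9 / 8 * θ) (G := G) (by
      intro a b hab
      unfold Yk ku cl at hab
      simp only [Prod.mk.injEq] at hab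
      obtain ⟨h1, h2, h3, h4⟩ := hab
      unfold Qn
      refine Prod.ext h1 (Prod.ext h2 ?_)
      funext l
      by_cases hlj : l.1 = j
      · have h5 : vx j a = vx j b := congrFun h3 ⟨j, Finset.mem_erase.mpr ⟨hij, by simp⟩⟩
        change sc h e l.1 a = sc h e l.1 b
        unfold sc
        rw [hlj, h5]
      · exact congrFun h4 ⟨l.1, by simp [l.2, hlj]⟩)
    (fun g v => Finset.sum_nonneg fun ξ _ => mul_nonneg (wx0 ξ) (ind_nonneg _)) (by positivity) ω (by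
      intro g hg
      have hdep : ∀ w, w ≠ j → DependsOn (V0 g w) ({j, w}ᶜ : Set ι) := by
        intro w _ x y hxy
        refine hR (th ω) ξ0 w e g fun l hl => ?_
        by_cases hlj : l = j
        · subst hlj
          rw [Function.update_self, Function.update_self]
        · rw [Function.update_of_ne hlj, Function.update_of_ne hlj]
          refine hxy l fun hmem => ?_
          rcases hmem with h6 | h6
          · exact hlj h6
          · exact hl h6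
      have hV1 : ∀ w x d, |V0 g w x d| ≤ 1 := fun w x d => hR1 _ _ _ _ _ _ _
      refine core_Y (F := fun x => ∑ ξ, wx ξ * ind (r ≤ |av e g.1 (fun d =>
        R (th ω) ξ j e g x d * ∏ w ∈ univ.erase j, V0 g w x d)|)) hij he hN
        (fun x => Finset.sum_nonneg fun ξ _ => mul_nonneg (wx0 ξ) (ind_nonneg _)) hθ ?_ ?_ ω
      · intro c
        have h2 := hPT (th ω) e he g c (V0 g) hdep hV1
        rw [coar_al hg] at h2
        refine le_trans (le_of_eq ?_) h2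
        rw [Finset.sum_comm]
        refine Finset.sum_congr rfl fun ξ _ => ?_
        rw [← Finset.mul_sum, Finset.card_filter]
        push_cast
        congr 1
      · intro x y hxy
        refine Finset.sum_congr rfl fun ξ _ => ?_
        have h3 := PT_dep (R := R (th ω) ξ j) (hR (th ω) ξ j) e g r hdep hxy
        simp only at h3
        rw [h3])
  refine le_trans (Pool.Agent.M3.Mod.ce_mono_fib _ ω fun v hv => ?_) h1
  unfold Yk ku cl at hv
  simp only [Prod.mk.injEq] at hv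
  obtain ⟨h2, h3, h4, -⟩ := hv
  have h5 : vx j v = vx j ω := congrFun h4 ⟨j, Finset.mem_erase.mpr ⟨hij, by simp⟩⟩
  refine Finset.sum_le_sum fun ξ _ => mul_le_mul_of_nonneg_left (ind_mono fun hq => ?_) (wx0 ξ)
  have h6 : Function.update (vs v) j (vx j ω) = vs v := by
    rw [← h5]
    exact Function.update_eq_self j (vs v)
  have h7 : (fun d => R (th ω) ξ j e (Gm c0 h e v) (vs v) d * ∏ w ∈ univ.erase j, V0 (Gm c0 h e v) w (vs v) d) =
      fun d => ∏ w, fv c0 h (R (th v) ξ w) e v d := by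
    funext d
    rw [← Finset.mul_prod_erase univ (fun w => fv c0 h (R (th v) ξ w) e v d) (mem_univ j)]
    have h8 : R (th ω) ξ j e (Gm c0 h e v) (vs v) d = fv c0 h (R (th v) ξ j) e v d := by
      rw [← h2]
      rfl
    rw [h8]
    congr 1
    refine Finset.prod_congr rfl fun w hw => ?_
    simp only [hV0]
    rw [h6, hoth (th ω) ξ0 ξ w (Finset.ne_of_mem_erase hw), ← h2]
    rfl
  rw [h7]
  have h9 := av_round h e (Yn c0 e v).1 (f := fun d => ∏ w, fv c0 h (R (th v) ξ w) e v d) (B := 1) (fun d => by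
    rw [Finset.abs_prod]
    exact Finset.prod_le_one (fun _ _ => abs_nonneg _) fun w _ => hR1 _ _ _ _ _ _ _)
  have h10 := abs_sub_abs_le_abs_sub (av e (Yn c0 e v).1 (fun d => ∏ w, fv c0 h (R (th v) ξ w) e v d))
    (av e (flr (e - h) (Yn c0 e v).1) (fun d => ∏ w, fv c0 h (R (th v) ξ w) e v d))
  have h11 : (Gm c0 h e v).1 = flr (e - h) (Yn c0 e v).1 := rfl
  rw [h11]
  unfold TT at hq
  linarith

/-- the class `Yk x {x, j}` is finer than `Nk x S`, `S ⊆ {j}` -/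
theorem fac_Nk_Yk {x j : ι} (hj : j ≠ x) {S : Finset ι} (hS : S ⊆ {j}) (hh e : ℕ) :
    Fac (Yk (k := k) (N := N) (Θ := Θ) (P := P) x {x, j} e (e - (hh + 3))) (Nk x S hh e) := by
  intro a b hab
  unfold Nk
  unfold Yk ku cl at hab ⊢
  simp only [Prod.mk.injEq] at hab
  obtain ⟨h1, h2, h3, h4⟩ := hab
  refine Prod.ext h1 (Prod.ext h2 (Prod.ext ?_ ?_))
  · funext l
    have h5 := Finset.mem_erase.mp l.2
    have h6 : l.1 = j := by
      rcases Finset.mem_insert.mp h5.2 with h7 | h7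
      · exact absurd h7 h5.1
      · exact Finset.mem_singleton.mp (hS h7)
    exact congrFun h3 ⟨l.1, Finset.mem_erase.mpr ⟨h5.1, by rw [h6]; simp⟩⟩
  · funext l
    by_cases hlj : l.1 = j
    · have h5 : vx j a = vx j b := congrFun h3 ⟨j, Finset.mem_erase.mpr ⟨hj, by simp⟩⟩
      change flr _ (vx l.1 a).2 = flr _ (vx l.1 b).2
      rw [hlj, h5]
    · refine congrFun h4 ⟨l.1, ?_⟩
      have hli : l.1 ≠ x := fun h => l.2 (by rw [h]; exact Finset.mem_insert_self _ _)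
      simp [hli, hlj]

/-- natural view of `x ≠ j`, `S ⊆ {j}`, only the face `j` reads the coin -/
theorem natX_single0 {x j : ι} (hj : j ≠ x) {S : Finset ι} (hS : S ⊆ {j}) {h0 hh e : ℕ} (he : e ≤ N) (hN : N ≤ k)
    (hle : h0 ≤ hh) {R : Θ → Ξ → ι → Fam k ι P} {wx : Ξ → ℝ} (wx0 : ∀ ξ, 0 ≤ wx ξ) {θ r1 r : ℝ} (hθ : 0 ≤ θ)
    (hR : ∀ θ ξ l, FOn ({l}ᶜ : Set ι) (R θ ξ l)) (hR1 : ∀ θ ξ l, FLe 1 (R θ ξ l))
    (hoth : ∀ θ ξ ξ' l, l ≠ j → R θ ξ l = R θ ξ' l) (hPT : ∀ θ', GMC.PTm wx j h0 N (fun ξ => R θ' ξ j) θ r1)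
    (hr : r1 + 2 * ((2 : ℝ) ^ hh)⁻¹ ≤ r) (w : Sq k N ι Θ P) :
    Pm.ce (Nk x S hh e) (fun v => ∑ ξ, wx ξ * ind (r ≤ |TT c0 h0 (R (th v) ξ) e v|)) w ≤
      Fintype.card ι * (9 / 8 * (θ * (2 ^ (hh - h0)) ^ Fintype.card ι)) := by
  refine ce_le_of_fine' (fac_Nk_Yk hj hS hh e) (fun w' => ?_) w
  have g1 := TTX_known c0 hj he hN (R := fun θ ξ l => fine h0 (R θ ξ l)) (h := hh) (r1 := r) wx0 (by positivity)
    (fun θ ξ l => fun e g => hR θ ξ l e _) (fun θ ξ l => fun e g x d => hR1 θ ξ l e _ _ _)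
    (fun θ ξ ξ' l hl => by rw [hoth θ ξ ξ' l hl]) (fun θ' => PTm_fineF hle hN wx0 hθ (hPT θ')) hr w'
  refine le_trans (le_of_eq ?_) g1
  congr 1
  funext v
  refine Finset.sum_congr rfl fun ξ _ => ?_
  rw [TT_fine c0 hle]

/-- **AT MOST ONE VERTEX `j` KNOWN**, natural view of `x ≠ j`, rounding `hh ≥ h0` of the view, coins averaged; only the face
`δ` reads the coin, any `δ` -/
theorem natX_single (δ : ι) {x j : ι} (hj : j ≠ x) {S : Finset ι} (hS : S ⊆ {j}) {h0 hh e : ℕ} (he : e ≤ N) (hN : N ≤ k)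
    (hle : h0 ≤ hh) {R : Θ → Ξ → ι → Fam k ι P} {wx : Ξ → ℝ} (wx0 : ∀ ξ, 0 ≤ wx ξ) (wx1 : ∑ ξ, wx ξ = 1)
    {θ r1 r : ℝ} (hθ : 0 ≤ θ) (hR : ∀ θ ξ l, FOn ({l}ᶜ : Set ι) (R θ ξ l)) (hR1 : ∀ θ ξ l, FLe 1 (R θ ξ l))
    (hoth : ∀ θ ξ ξ' l, l ≠ δ → R θ ξ l = R θ ξ' l) (hPT : ∀ θ', GMC.PTm wx j h0 N (fun ξ => R θ' ξ j) θ r1)
    (hr : r1 + 2 * ((2 : ℝ) ^ hh)⁻¹ ≤ r) (w : Sq k N ι Θ P) :
    Pm.ce (Nk x S hh e) (fun v => ∑ ξ, wx ξ * ind (r ≤ |TT c0 h0 (R (th v) ξ) e v|)) w ≤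
      Fintype.card ι * (9 / 8 * (θ * (2 ^ (hh - h0)) ^ Fintype.card ι)) := by
  classical
  by_cases hδ : j = δ
  · subst hδ
    exact natX_single0 c0 hj hS he hN hle wx0 hθ hR hR1 hoth hPT hr w
  have h1 : ∀ ξ : Ξ, Pm.ce (Nk x S hh e) (fun v => ind (r ≤ |TT c0 h0 (R (th v) ξ) e v|)) w ≤
      Fintype.card ι * (9 / 8 * (θ * (2 ^ (hh - h0)) ^ Fintype.card ι)) := by
    intro ξ
    have hP1 : ∀ θ', GMC.PTm (fun _ : Unit => (1 : ℝ)) j h0 N (fun _ => R θ' ξ j) θ r1 := fun θ' =>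
      PTm_fix (R := fun ξ' => R θ' ξ' j) wx1 ξ (fun ξ' => hoth θ' ξ' ξ j hδ) (hPT θ')
    have h2 := natX_single0 c0 hj hS he hN hle (R := fun θ (_ : Unit) l => R θ ξ l) (wx := fun _ => (1 : ℝ))
      (fun _ => zero_le_one) hθ (fun θ _ l => hR θ ξ l) (fun θ _ l => hR1 θ ξ l) (fun _ _ _ _ _ => rfl) hP1 hr w
    refine le_trans (FP.ce_mono _ (fun v _ => ?_) w) h2
    rw [Finset.univ_unique, Finset.sum_singleton, one_mul]
  have h3 := FP.ce_sum (Pm : FP (Sq k N ι Θ P)) (Nk x S hh e) (univ : Finset Ξ)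
    (fun ξ v => wx ξ * ind (r ≤ |TT c0 h0 (R (th v) ξ) e v|)) w
  rw [h3]
  have h4 : ∀ ξ ∈ (univ : Finset Ξ), Pm.ce (Nk x S hh e) (fun v => wx ξ * ind (r ≤ |TT c0 h0 (R (th v) ξ) e v|)) w ≤
      wx ξ * (Fintype.card ι * (9 / 8 * (θ * (2 ^ (hh - h0)) ^ Fintype.card ι))) := by
    intro ξ _
    rw [FP.ce_smul]
    exact mul_le_mul_of_nonneg_left (h1 ξ) (wx0 ξ)
  refine (Finset.sum_le_sum h4).trans (le_of_eq ?_)
  rw [← Finset.sum_mul, wx1, one_mul]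

/-! ## moving faces of `binSys` -/

section mov

variable {Q : Type} [Nonempty Ξ] [Fintype Q] [Nonempty Q]

/-- AT MOST ONE VERTEX KNOWN, from `Rare` of its face; the coin is read by the face `δ` only, any `δ` -/
theorem natS_single (δ : ι) {x j : ι} (hj : j ≠ x) {S : Finset ι} (hS : S ⊆ {j}) {h hh e : ℕ} (he : e ≤ N) (hN : N ≤ k)
    (hle : h ≤ hh) {F : ι → Mov Ξ ι (Q × V k) (Θ × (V k × ℕ)) (V k → ℝ)}
    {θ acc r1 : ℝ} (hθ : 0 ≤ θ) (hacc : 0 ≤ acc) (hd : ∀ j t g ξ, DependsOn (F j t g ξ) ({j}ᶜ : Set ι))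
    (h1 : ∀ j t g ξ x d, |F j t g ξ x d| ≤ 1) (hc : ∀ l, l ≠ δ → ∀ t g ξ ξ', F l t g ξ = F l t g ξ')
    (hR : (binSys Θ Ξ Q c0 δ hN h).Rare univ j (F j) θ acc) (hr : acc + 10 * ((2 : ℝ) ^ h)⁻¹ ≤ r1)
    (w : Sq k N ι Θ Q) :
    Pm.ce (Nk x S hh e) (fun v => ∑ ξ, wxU ξ * ind (r1 ≤ |TT c0 h (RSf N h F (th v) ξ) e v|)) w ≤
      Fintype.card ι * (9 / 8 * (θ * (2 ^ (hh - h)) ^ Fintype.card ι)) := by
  have h7 : ((2 : ℝ) ^ hh)⁻¹ ≤ ((2 : ℝ) ^ h)⁻¹ := inv_anti₀ (by positivity) (pow_le_pow_right₀ (by norm_num) hle)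
  exact natX_single c0 δ hj hS he hN hle wxU0 wxU1 hθ (fun θ ξ l => GMC.famS_on h (hd l) θ ξ)
    (fun θ ξ l => GMC.famS_le zero_le_one h (h1 l) θ ξ) (fun θ ξ ξ' l hl => GMC.famS_coin h (hc l hl) θ ξ ξ')
    (fun θ' => GMC.rare_PTm c0 δ hN h (h1 j) hθ hacc hR θ') (by linarith) w

end mov

end

end Pool.Agent.GM
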