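import Pool.Agent.GM.NatX
import Pool.Agent.GM.NatX1
import Pool.Agent.GM.CMCold

/-!
# GM/HotBX: the cold sets with the coin averaged, fixed public randomness (row P5, helper36)

Families `R : Ξ → ι → Fam k ι Q`, weights `wx` of the coin, only the face `d` reads the coin; class `KJ x h' J` of the natural
view of `x ≠ d`, rounding `h ≤ h' ≤ h + card ι`.

* `BX.num2` : the numbers of the pair at the rounding `h'`;
* **`hotB_coin`** : `J = ∅` or `d ∈ J`, `J.card ≤ 2`.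
-/

set_option autoImplicit false
set_option linter.unusedSectionVars false

namespace Pool.Agent.GM

open Finset Pool.Agent.PWZ Pool.Agent.M3 Pool.Agent.M3.Bin
open Pool.Agent.GMC (Enu oth oth_inj oth_range Qb PTc PTm chg FmA FmB)
open Pool.Agent.M3.Mod (nd av)

noncomputable section

namespace BX

/-- the exponent after the finer rounding -/
theorem lam' (n C1 : ℕ) {H Λ : ℝ} (hH2 : 2 ≤ H) (hΛ : H ^ (C1 + (n + 2) * (n + 1)) ≤ Λ) {D : ℕ} (hD : D ≤ n + 2) :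
    ∃ Λ' : ℝ, H ^ C1 ≤ Λ' ∧ Real.exp (-Λ) * 2 ^ (D * (n + 1)) = Real.exp (-Λ') := by
  refine ⟨Λ - (D * (n + 1) : ℕ) * Real.log 2, ?_, ?_⟩
  · have h1 : ((D * (n + 1) : ℕ) : ℝ) * Real.log 2 ≤ ((n + 2) * (n + 1) : ℕ) := by
      have h2 : Real.log 2 ≤ 1 := by
        have := Real.log_le_sub_one_of_pos (show (0 : ℝ) < 2 by norm_num)
        linarith
      have h3 : 0 ≤ Real.log 2 := Real.log_nonneg (by norm_num)
      calc ((D * (n + 1) : ℕ) : ℝ) * Real.log 2 ≤ ((D * (n + 1) : ℕ) : ℝ) * 1 :=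
            mul_le_mul_of_nonneg_left h2 (Nat.cast_nonneg _)
        _ = ((D * (n + 1) : ℕ) : ℝ) := mul_one _
        _ ≤ ((n + 2) * (n + 1) : ℕ) := by exact_mod_cast Nat.mul_le_mul_right _ hD
    set M := (n + 2) * (n + 1) with hM
    have h4 : (M : ℝ) + 1 ≤ H ^ M := by
      have h5 : ((M + 1 : ℕ) : ℝ) ≤ 2 ^ M := by exact_mod_cast Nat.lt_two_pow_self (n := M)
      have h6 : (2 : ℝ) ^ M ≤ H ^ M := pow_le_pow_left₀ (by norm_num) hH2 _
      push_cast at h5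
      linarith
    have h7 : (1 : ℝ) ≤ H ^ C1 := one_le_pow₀ (by linarith)
    have h8 : H ^ (C1 + M) = H ^ C1 * H ^ M := pow_add _ _ _
    have h9 : H ^ C1 * (M + 1) ≤ H ^ C1 * H ^ M := mul_le_mul_of_nonneg_left h4 (by linarith)
    have h10 : (0 : ℝ) ≤ M := Nat.cast_nonneg _
    have h11 : (M : ℝ) ≤ H ^ C1 * M := le_mul_of_one_le_left h10 h7
    rw [h8] at hΛ
    linarith
  · have h1 : (2 : ℝ) ^ (D * (n + 1)) = Real.exp ((D * (n + 1) : ℕ) * Real.log 2) := by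
      rw [Real.exp_nat_mul, Real.exp_log (by norm_num)]
    rw [h1, ← Real.exp_add]
    congr 1
    ring

/-- the basic number at a finer rounding -/
theorem Qb_fine {r p q : ℝ} (hr : 0 < r) (hp : 0 ≤ p) (hq : 0 ≤ q) {h h' n : ℕ} (hh : h ≤ h') (hD : h' - h ≤ n + 2) (c : ℕ) :
    Qb r p q (2 ^ (h' + 3)) ^ c ≤ (2 ^ (n + 2)) ^ c * Qb r p q (2 ^ (h + 3)) ^ c := by
  rw [← mul_pow]
  refine pow_le_pow_left₀ ?_ ?_ c
  · unfold Qb
    positivity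
  · unfold Qb
    have h1 : (2 : ℝ) ^ (h' + 3) ≤ 2 ^ (n + 2) * 2 ^ (h + 3) := by
      rw [← pow_add]
      exact pow_le_pow_right₀ (by norm_num) (by omega)
    rw [← mul_div_assoc]
    refine div_le_div_of_nonneg_right ?_ hr.le
    calc (1 + p) * (1 + q) * 2 ^ (h' + 3) ≤ (1 + p) * (1 + q) * (2 ^ (n + 2) * 2 ^ (h + 3)) :=
          mul_le_mul_of_nonneg_left h1 (by positivity)
      _ = _ := by ring

end BX

/-- **THE COLD SETS OF ONE AND TWO VERTICES WITH THE READER OF THE COIN**, fixed public randomness, coins averaged -/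
theorem hotB_coin (n c' g c1 : ℕ) : ∃ C1 : ℕ, (c' + 2) * 2 ^ n + 2 + n ≤ C1 ∧ ∀ {k N : ℕ} {ι Q Ξ : Type} [Fintype ι]
    [DecidableEq ι] [Fintype Q] [Nonempty Q] [Fintype Ξ] (_ : Fintype.card ι = n + 2) (s : V k) (_ : N ≤ k) (h : ℕ)
    (x d : ι) (hdx : d ≠ x) {wx : Ξ → ℝ} (_ : ∀ ξ, 0 ≤ wx ξ) (_ : ∑ ξ, wx ξ = 1)
    (β H Λ : ℝ) (_ : 0 < β) (_ : β ≤ 1 / 2) (_ : 1 / β ≤ H) (_ : 8 * ((2 : ℝ) ^ h)⁻¹ ≤ β ^ ((c' + 2) * 2 ^ n + 2 + n))
    (_ : (2 : ℝ) ^ (h + 3) ≤ Real.exp (H ^ g)) (_ : H ^ C1 ≤ Λ) {R : Ξ → ι → Fam k ι Q}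
    (_ : ∀ ξ i, FOn ({i}ᶜ : Set ι) (R ξ i)) (_ : ∀ ξ i, FLe 1 (R ξ i)) (_ : ∀ ξ ξ' i, i ≠ d → R ξ i = R ξ' i)
    (_ : ∀ i, i ≠ x → PTm wx i h N (fun ξ => R ξ i) (Real.exp (-Λ)) (β ^ C1 + 8 * ((2 : ℝ) ^ h)⁻¹))
    (_ : ∀ i, i ≠ x → chg N Unit Q s h wx (fun ξ => R ξ i) ≤ Real.exp (H ^ g))
    (h' : ℕ) (_ : h ≤ h') (_ : h' ≤ h + Fintype.card ι) (J : Finset {v : ι // v ≠ x}) (_ : J.card ≤ 2)
    (_ : J = ∅ ∨ (⟨d, hdx⟩ : {v : ι // v ≠ x}) ∈ J),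
    (Pm : FP (Sq k N ι Unit Q)).Pr (fun u => ∃ t ≤ N, 1 ≤ t ∧ Real.exp (-H ^ c1) <
      Pm.ce (KJ x h' J (Mod.ex N t)) (fun v => ∑ ξ, wx ξ * ind (β ^ c' ≤ |TT s h (R ξ) (Mod.ex N t) v|)) u) ≤
      Real.exp (-H ^ c1) := by
  obtain ⟨C, hC, c, hpair⟩ := natX_pair n
  obtain ⟨C1, hC1, hnum⟩ := CMC.num n c' (C * (2 ^ (n + 2)) ^ c) c g (c1 + 2)
  set M2 := (n + 2) + 1 + (n + 2) * (n + 2) with hM2
  refine ⟨C1 + (n + 2) * (n + 1) + (c1 + M2), by omega, ?_⟩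
  intro k N ι Q Ξ _ _ _ _ _ hι s hN h x d hdx wx wx0 wx1 β H Λ hβ hβ2 hH hn hK hΛ R hR hR1 hoth hPT hch h' hh' hh'' J hJ hJd
  have hβ1 : β ≤ 1 := by linarith
  have hH2 : 2 ≤ H := by
    have h1 : (2 : ℝ) ≤ 1 / β := by
      rw [le_div_iff₀ hβ]
      linarith
    exact h1.trans hH
  have hH1 : 1 ≤ H := by linarith
  have hD : h' - h ≤ n + 2 := by omega
  have hΛ1 : H ^ (C1 + (n + 2) * (n + 1)) ≤ Λ := le_trans (pow_le_pow_right₀ hH1 (by omega)) hΛ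
  have hΛ2 : H ^ (c1 + M2) ≤ Λ := le_trans (pow_le_pow_right₀ hH1 (by omega)) hΛ
  have hinv0 : (0 : ℝ) < ((2 : ℝ) ^ h)⁻¹ := by positivity
  set C2 := C1 + (n + 2) * (n + 1) + (c1 + M2) with hC2
  have hacc : β ^ C2 ≤ β ^ C1 := pow_le_pow_of_le_one hβ.le hβ1 (by omega)
  have hcc : c' + 4 ≤ (c' + 2) * 2 ^ n + 2 + n := by
    have : c' + 2 ≤ (c' + 2) * 2 ^ n := Nat.le_mul_of_pos_right _ (by positivity)
    omega
  rcases Nat.lt_or_ge J.card 2 with hJ1 | hJ2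
  · -- at most one vertex
    have hj : J ⊆ {(⟨d, hdx⟩ : {v : ι // v ≠ x})} := by
      rcases hJd with h1 | h1
      · rw [h1]
        exact Finset.empty_subset _
      · have : Nonempty {v : ι // v ≠ x} := ⟨⟨d, hdx⟩⟩
        obtain ⟨j, hj⟩ := Finset.card_le_one_iff_subset_singleton.mp (show J.card ≤ 1 by omega)
        have h2 := Finset.mem_singleton.1 (hj h1)
        rw [h2]
        exact hj
    have hS : GMM.im J ⊆ {d} := by
      intro l hl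
      obtain ⟨h1, h2⟩ := GMM.mem_im.1 hl
      have h3 := Finset.mem_singleton.1 (hj h2)
      rw [Finset.mem_singleton]
      exact congrArg Subtype.val h3
    have hfalse : ∀ u : Sq k N ι Unit Q, ¬ ∃ t ≤ N, 1 ≤ t ∧ Real.exp (-H ^ c1) <
        Pm.ce (KJ x h' J (Mod.ex N t)) (fun v => ∑ ξ, wx ξ * ind (β ^ c' ≤ |TT s h (R ξ) (Mod.ex N t) v|)) u := by
      rintro u ⟨t, -, -, hlt⟩
      rw [GMM.ce_KJ_Nk] at hlt
      have h1 : Pm.ce (Nk x (GMM.im J) h' (Mod.ex N t))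
          (fun v => ∑ ξ, wx ξ * ind (β ^ c' ≤ |TT s h (R ξ) (Mod.ex N t) v|)) u ≤
          Fintype.card ι * (9 / 8 * (Real.exp (-Λ) * (2 ^ (h' - h)) ^ Fintype.card ι)) := by
        refine natX_single s d hdx hS (Nat.sub_le _ _) hN hh' (R := fun _ : Unit => R) wx0 wx1 (Real.exp_pos _).le
          (fun _ => hR) (fun _ => hR1) (fun _ => hoth) (r1 := β ^ C2 + 8 * ((2 : ℝ) ^ h)⁻¹) (fun _ => hPT d hdx) ?_ u
        have h2 : 8 * ((2 : ℝ) ^ h)⁻¹ ≤ β ^ (c' + 4) := hn.trans (pow_le_pow_of_le_one hβ.le hβ1 hcc)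
        have h3 : β ^ C2 ≤ β ^ (c' + 4) := pow_le_pow_of_le_one hβ.le hβ1 (by omega)
        have h4 : β ^ (c' + 4) ≤ β ^ c' / 16 := by
          rw [pow_add]
          have h5 : β ^ 4 ≤ (1 / 2) ^ 4 := pow_le_pow_left₀ hβ.le hβ2 4
          have h6 : 0 < β ^ c' := by positivity
          norm_num at h5
          nlinarith
        have h5 : ((2 : ℝ) ^ h')⁻¹ ≤ ((2 : ℝ) ^ h)⁻¹ :=
          inv_anti₀ (by positivity) (pow_le_pow_right₀ (by norm_num) hh')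
        have h6 : 0 < β ^ c' := by positivity
        linarith
      rw [hι] at h1
      have h2 := CMC.num1 n c1 hH2 hΛ2 hD
      linarith
    have h0 : (Pm : FP (Sq k N ι Unit Q)).Pr (fun u => ∃ t ≤ N, 1 ≤ t ∧ Real.exp (-H ^ c1) <
        Pm.ce (KJ x h' J (Mod.ex N t)) (fun v => ∑ ξ, wx ξ * ind (β ^ c' ≤ |TT s h (R ξ) (Mod.ex N t) v|)) u) = 0 := by
      unfold FP.Pr
      rw [FP.E_congr (g := fun _ => 0), FP.E_const]
      intro u _
      exact ind_not (hfalse u)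
    rw [h0]
    exact (Real.exp_pos _).le
  · -- the pair
    have hdJ : (⟨d, hdx⟩ : {v : ι // v ≠ x}) ∈ J := by
      rcases hJd with h1 | h1
      · rw [h1, Finset.card_empty] at hJ2
        omega
      · exact h1
    obtain ⟨b, hb⟩ : ∃ b : {v : ι // v ≠ x}, b ≠ ⟨d, hdx⟩ ∧ J = {⟨d, hdx⟩, b} := by
      obtain ⟨a, b, hab, rfl⟩ := Finset.card_eq_two.mp (show J.card = 2 by omega)
      rw [Finset.mem_insert, Finset.mem_singleton] at hdJ
      rcases hdJ with h1 | h1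
      · exact ⟨b, by rw [h1]; exact hab.symm, by rw [h1]⟩
      · exact ⟨a, by rw [h1]; exact hab, by rw [h1, Finset.pair_comm]⟩
    obtain ⟨hbd, rfl⟩ := hb
    obtain ⟨Λ', hΛ', htt⟩ := BX.lam' n C1 hH2 hΛ1 hD
    obtain ⟨s', δ, q, n1, n2, n3, n4, n5, n6, n7, n8, n9, n10⟩ := hnum β H Λ' hβ hβ2 hH h hn hK hΛ'
      (Real.exp (H ^ g)) (Real.exp_pos _).le le_rfl (h' - h) hD
    have hdb : d ≠ b.1 := fun h => hbd (Subtype.ext h.symm)
    obtain ⟨o⟩ := exists_enu hι hdb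
    have hΛ0 : 0 < Λ' := by
      have : (1 : ℝ) ≤ H ^ C1 := one_le_pow₀ (by linarith)
      linarith
    have htt1 : Real.exp (-Λ') < 1 := by
      rw [← Real.exp_zero]
      exact Real.exp_lt_exp.mpr (by linarith)
    set ρ := Real.exp (-H ^ c1) with hρ
    have hρ0 : 0 < ρ := Real.exp_pos _
    have hhalf := CMC.half hH2 c1
    rw [← hρ] at hhalf
    have he1 : ρ ≤ 1 := by
      rw [hρ, ← Real.exp_zero]
      refine Real.exp_le_exp.mpr ?_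
      have : (0 : ℝ) ≤ H ^ c1 := by positivity
      linarith
    have hδρ : 2 * (((n : ℝ) + 1) * δ) < ρ / 2 := by
      have h1 : ρ * (ρ / 2) ≤ 1 * (ρ / 2) := mul_le_mul_of_nonneg_right he1 (by linarith)
      have h2 : (1 : ℝ) ≤ (2 ^ (h' - h)) ^ (n - 1) := one_le_pow₀ (one_le_pow₀ (by norm_num))
      have h3 : ((n : ℝ) + 2) * (2 * 1 * δ) ≤ ((n : ℝ) + 2) * (2 * (2 ^ (h' - h)) ^ (n - 1) * δ) := by
        refine mul_le_mul_of_nonneg_left ?_ (by positivity)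
        refine mul_le_mul_of_nonneg_right ?_ n3.le
        linarith
      nlinarith
    have hcoinb : ∀ ξ ξ', R ξ b.1 = R ξ' b.1 := fun ξ ξ' => hoth ξ ξ' b.1 hdb.symm
    have hPA : PTc wx h' N (fun ξ => FmA o s h (R ξ b.1)) (Real.exp (-Λ')) (β ^ C2 + 8 * ((2 : ℝ) ^ h)⁻¹) := by
      have h1 := (hPT b.1 b.2).toPTcA (n := n) hh' hN hdb o s wx0 (fun ξ => hR ξ b.1) (Real.exp_pos _).le
      rwa [htt] at h1
    have hPB : PTc wx h' N (fun ξ => FmB o s h (R ξ d)) (Real.exp (-Λ')) (β ^ C2 + 8 * ((2 : ℝ) ^ h)⁻¹) := by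
      have h1 := (hPT d hdx).toPTcB (n := n) hh' hN hdb o s wx0 (fun ξ => hR ξ d) (Real.exp_pos _).le
      rwa [htt] at h1
    have h1 := hpair (x := x) hdb hdx.symm b.2.symm o s (h := h) (h' := h') (q := q) (p := Real.exp (H ^ g))
      (R := fun _ : Unit => R) (wx := wx) wx0 wx1 hN (n8.trans (Nat.pow_le_pow_right (by norm_num) (by omega)))
      hh' (fun _ => hR) (fun _ => hR1) (fun _ ξ ξ' i hi _ => hoth ξ ξ' i hi) (fun _ => Or.inr hcoinb)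
      (tt := Real.exp (-Λ')) (eps0 := β ^ C2 + 8 * ((2 : ℝ) ^ h)⁻¹) (Real.exp_pos _) htt1
      (by positivity) (fun _ => hPA) (fun _ => hPB) (fun _ => hch d hdx) (fun _ => hch b.1 b.2) n1 n2 n3 n4 n5
      (by linarith) n7 hδρ
    refine le_trans (FP.Pr_mono _ fun u _ => ?_) (h1.trans ?_)
    · rintro ⟨t, ht, ht1, hlt⟩
      refine ⟨t, ht, ?_⟩
      rw [GMM.ce_KJ_Nk, GMM.im_pair] at hlt
      exact hlt.le
    · have hr0 : 0 < (s' ^ (2 * q) * δ) ^ (2 ^ n) / 2 := by positivity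
      have h2 := BX.Qb_fine (p := Real.exp (H ^ g)) (q := q) hr0 (Real.exp_pos _).le (Nat.cast_nonneg q) hh' hD c
      have h3 : 0 ≤ Real.exp (-Λ') * (1 + Real.log (1 / Real.exp (-Λ'))) := by
        have h4 : 0 ≤ Real.log (1 / Real.exp (-Λ')) := by
          rw [one_div, ← Real.exp_neg, neg_neg, Real.log_exp]
          exact hΛ0.le
        positivity
      have h5 : C * Qb ((s' ^ (2 * q) * δ) ^ (2 ^ n) / 2) (Real.exp (H ^ g)) q (2 ^ (h' + 3)) ^ c *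
          (Real.exp (-Λ') * (1 + Real.log (1 / Real.exp (-Λ')))) ≤ ρ * (ρ / 2) := by
        refine le_trans (mul_le_mul_of_nonneg_right (mul_le_mul_of_nonneg_left h2 hC.le) h3) ?_
        refine le_trans (le_of_eq ?_) (n10.trans hhalf)
        ring
      calc 2 / ρ * (C * Qb ((s' ^ (2 * q) * δ) ^ (2 ^ n) / 2) (Real.exp (H ^ g)) q (2 ^ (h' + 3)) ^ c *
            (Real.exp (-Λ') * (1 + Real.log (1 / Real.exp (-Λ'))))) ≤ 2 / ρ * (ρ * (ρ / 2)) :=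
            mul_le_mul_of_nonneg_left h5 (by positivity)
        _ = ρ := by
            field_simp

end

end Pool.Agent.GM
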