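import Pool.Agent.GM.HotInCDef
import Pool.Agent.GM.CMCold

/-!
# GM/HotInC: the cold inputs with a coin, transfer and the sets which do not contain the coin reader (row P5, helper18)

* `avg_cold` : coldness for every coin implies coldness on average over the coins (any classes without the coin);
* `cold_famA` : as `cold_fam0`, product tests of the faces of `A ⊇ J` only;
* **`hotB_ne`** : the base form for `J ≠ ∅`, all faces of `J` coin free;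
* `ce_KJ_pz` : the natural classes of the model with coins at the hidden vertex; **`hotC_transfer`** : from the base form.
-/

set_option autoImplicit false
set_option linter.unusedSectionVars false

namespace Pool.Agent.GM

open Finset Pool.Agent.PWZ Pool.Agent.M3 Pool.Agent.M3.TS Pool.Agent.M3.Bin Pool.Agent.GM.Mv Pool.Agent.GM.KVer
open Pool.Agent.GMC (PTm chg famS pq)

noncomputable section

/-! ## average over the coins -/

/-- coldness for every coin implies coldness on average -/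
theorem avg_cold {Om Ξ : Type*} [Fintype Om] (P : FP Om) [Fintype Ξ] {wx : Ξ → ℝ} (wx0 : ∀ ξ, 0 ≤ wx ξ)
    (wx1 : ∑ ξ, wx ξ = 1) {κ : ℕ → Type*} (X : ∀ t, Om → κ t) {f : Ξ → ℕ → Om → ℝ}
    (hf1 : ∀ ξ t w, f ξ t w ≤ 1) {N : ℕ} {s s' p : ℝ} (hs : 0 ≤ s) (hs' : 0 < s')
    (h : ∀ ξ, P.Pr (fun u => ∃ t ≤ N, 1 ≤ t ∧ s < P.ce (X t) (f ξ t) u) ≤ p) :
    P.Pr (fun u => ∃ t ≤ N, 1 ≤ t ∧ s + s' < P.ce (X t) (fun v => ∑ ξ, wx ξ * f ξ t v) u) ≤ p / s' := by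
  classical
  set G : Ξ → Om → Prop := fun ξ u => ∃ t ≤ N, 1 ≤ t ∧ s < P.ce (X t) (f ξ t) u with hG
  set D : Om → ℝ := fun u => ∑ ξ, wx ξ * ind (G ξ u) with hD
  have hD0 : ∀ u, 0 ≤ D u := fun u => Finset.sum_nonneg fun ξ _ => mul_nonneg (wx0 ξ) (ind_nonneg _)
  have hED : P.E D ≤ p := by
    have h1 : P.E D = ∑ ξ, wx ξ * P.Pr (G ξ) := by
      rw [hD, FP.E_sum]
      exact Finset.sum_congr rfl fun ξ _ => P.E_smul (wx ξ) fun u => ind (G ξ u)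
    rw [h1]
    calc ∑ ξ, wx ξ * P.Pr (G ξ) ≤ ∑ ξ, wx ξ * p := Finset.sum_le_sum fun ξ _ => mul_le_mul_of_nonneg_left (h ξ) (wx0 ξ)
      _ = p := by rw [← Finset.sum_mul, wx1, one_mul]
  rw [le_div_iff₀ hs', mul_comm]
  refine le_trans ?_ ((P.markov (fun w _ => hD0 w) s').trans hED)
  refine mul_le_mul_of_nonneg_left (P.Pr_mono fun u hu => ?_) hs'.le
  rintro ⟨t, ht, h1, h2⟩
  rw [P.ce_sum] at h2
  have h3 : ∑ ξ, P.ce (X t) (fun v => wx ξ * f ξ t v) u ≤ s + D u := by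
    have h4 : ∀ ξ ∈ (univ : Finset Ξ), P.ce (X t) (fun v => wx ξ * f ξ t v) u ≤ wx ξ * (s + ind (G ξ u)) := by
      intro ξ _
      rw [P.ce_smul]
      refine mul_le_mul_of_nonneg_left ?_ (wx0 ξ)
      by_cases hg : G ξ u
      · rw [ind_of hg]
        have h5 : P.ce (X t) (f ξ t) u ≤ P.ce (X t) (fun _ => 1) u := P.ce_mono (fun v _ => hf1 ξ t v) u
        rw [P.ce_const _ _ hu] at h5
        linarith
      · rw [ind_not hg, add_zero]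
        by_contra hcon
        exact hg ⟨t, ht, h1, not_le.mp hcon⟩
    refine (Finset.sum_le_sum h4).trans (le_of_eq ?_)
    simp only [mul_add]
    rw [Finset.sum_add_distrib, ← Finset.sum_mul, wx1, one_mul]
  linarith

/-! ## the families -/

/-- THE COLD SETS, fixed public randomness; product tests of the faces of `A ⊇ J` only -/
theorem cold_famA (n c' g c1 : ℕ) : ∃ C1 : ℕ, (c' + 2) * 2 ^ n + 2 + n ≤ C1 ∧ ∀ {k N : ℕ} {ι Q : Type} [Fintype ι]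
    [DecidableEq ι] [Fintype Q] [Nonempty Q] (_ : Fintype.card ι = n + 2) (s : V k) (_ : N ≤ k) (h : ℕ) (x : ι)
    (β H Λ : ℝ) (_ : 0 < β) (_ : β ≤ 1 / 2) (_ : 1 / β ≤ H) (_ : 8 * ((2 : ℝ) ^ h)⁻¹ ≤ β ^ ((c' + 2) * 2 ^ n + 2 + n))
    (_ : (2 : ℝ) ^ (h + 3) ≤ Real.exp (H ^ g)) (_ : H ^ C1 ≤ Λ) {R : ι → Fam k ι Q}
    (_ : ∀ i, FOn ({i}ᶜ : Set ι) (R i)) (_ : ∀ i, FLe 1 (R i)) (J : Finset {v : ι // v ≠ x})
    (A : Finset {v : ι // v ≠ x}) (_ : A.Nonempty) (_ : J ⊆ A)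
    (_ : ∀ i ∈ A, PTm (fun _ : Unit => (1 : ℝ)) i.1 h N (fun _ => R i.1) (Real.exp (-Λ))
      (β ^ C1 + 8 * ((2 : ℝ) ^ h)⁻¹))
    (_ : ∀ i ∈ A, chg N Unit Q s h (fun _ : Unit => (1 : ℝ)) (fun _ => R i.1) ≤ Real.exp (H ^ g))
    (h' : ℕ) (_ : h ≤ h') (_ : h' ≤ h + Fintype.card ι) (_ : J.card ≤ 2),
    (Pm : FP (Sq k N ι Unit Q)).Pr (fun u => ∃ t ≤ N, 1 ≤ t ∧ Real.exp (-H ^ c1) <
      Pm.ce (KJ x h' J (Mod.ex N t)) (fun v => ind (β ^ c' ≤ |TT s h R (Mod.ex N t) v|)) u) ≤ Real.exp (-H ^ c1) := by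
  obtain ⟨C, hC, c, hpair⟩ := natPairP n
  obtain ⟨C1, hC1, hnum⟩ := CMC.num n c' C c g (c1 + 2)
  set M2 := (n + 2) + 1 + (n + 2) * (n + 2) with hM2
  refine ⟨C1 + (c1 + M2), by omega, ?_⟩
  intro k N ι Q _ _ _ _ hι s hN h x β H Λ hβ hβ2 hH hn hK hΛ R hR hR1 J A hA hJA hPT hch h' hh' hh'' hJ
  have hβ1 : β ≤ 1 := by linarith
  have hH2 : 2 ≤ H := by
    have h1 : (2 : ℝ) ≤ 1 / β := by
      rw [le_div_iff₀ hβ]
      linarith
    exact h1.trans hH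
  have hH1 : 1 ≤ H := by linarith
  have hD : h' - h ≤ n + 2 := by omega
  have hΛ1 : H ^ C1 ≤ Λ := le_trans (pow_le_pow_right₀ hH1 (by omega)) hΛ
  have hΛ2 : H ^ (c1 + M2) ≤ Λ := le_trans (pow_le_pow_right₀ hH1 (by omega)) hΛ
  have hinv0 : (0 : ℝ) < ((2 : ℝ) ^ h)⁻¹ := by positivity
  have hacc : β ^ (C1 + (c1 + M2)) ≤ β ^ C1 := pow_le_pow_of_le_one hβ.le hβ1 (by omega)
  have hcc : c' + 4 ≤ (c' + 2) * 2 ^ n + 2 + n := by
    have : c' + 2 ≤ (c' + 2) * 2 ^ n := Nat.le_mul_of_pos_right _ (by positivity)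
    omega
  rcases Nat.lt_or_ge J.card 2 with hJ1 | hJ2
  · -- at most one vertex
    obtain ⟨j, hjA, hj⟩ : ∃ j ∈ A, J ⊆ {j} := by
      rcases J.eq_empty_or_nonempty with h1 | ⟨j, h1⟩
      · obtain ⟨j, hj⟩ := hA
        exact ⟨j, hj, by rw [h1]; exact Finset.empty_subset _⟩
      · refine ⟨j, hJA h1, fun l hl => ?_⟩
        rw [Finset.mem_singleton]
        exact Finset.card_le_one.mp (show J.card ≤ 1 by omega) l hl j h1
    have hS : GMM.im J ⊆ {j.1} := by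
      intro l hl
      obtain ⟨h1, h2⟩ := GMM.mem_im.1 hl
      have h3 := Finset.mem_singleton.1 (hj h2)
      rw [Finset.mem_singleton]
      exact congrArg Subtype.val h3
    have hfalse : ∀ u : Sq k N ι Unit Q, ¬ ∃ t ≤ N, 1 ≤ t ∧ Real.exp (-H ^ c1) <
        Pm.ce (KJ x h' J (Mod.ex N t)) (fun v => ind (β ^ c' ≤ |TT s h R (Mod.ex N t) v|)) u := by
      rintro u ⟨t, -, -, hlt⟩
      rw [GMM.ce_KJ_Nk] at hlt
      have h1 := natSingleP (θ := Real.exp (-Λ)) (r1 := β ^ (C1 + (c1 + M2)) + 8 * ((2 : ℝ) ^ h)⁻¹) (r := β ^ c') (B := 1)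
        s j.2 hS (e := Mod.ex N t) (Nat.sub_le _ _) hN hh' (Real.exp_pos _).le
        (by positivity) (PTm_toPT (hPT j hjA)) hR hR1 ?_ u
      · rw [hι] at h1
        have h2 := CMC.num1 n c1 hH2 hΛ2 hD
        linarith
      · rw [one_pow]
        have h2 : 8 * ((2 : ℝ) ^ h)⁻¹ ≤ β ^ (c' + 4) := hn.trans (pow_le_pow_of_le_one hβ.le hβ1 hcc)
        have h3 : β ^ (C1 + (c1 + M2)) ≤ β ^ (c' + 4) := pow_le_pow_of_le_one hβ.le hβ1 (by omega)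
        have h4 : β ^ (c' + 4) ≤ β ^ c' / 16 := by
          rw [pow_add]
          have h5 : β ^ 4 ≤ (1 / 2) ^ 4 := pow_le_pow_left₀ hβ.le hβ2 4
          have h6 : 0 < β ^ c' := by positivity
          norm_num at h5
          nlinarith
        have h6 : 0 < β ^ c' := by positivity
        linarith
    have h0 : (Pm : FP (Sq k N ι Unit Q)).Pr (fun u => ∃ t ≤ N, 1 ≤ t ∧ Real.exp (-H ^ c1) <
      Pm.ce (KJ x h' J (Mod.ex N t)) (fun v => ind (β ^ c' ≤ |TT s h R (Mod.ex N t) v|)) u) = 0 := by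
      unfold FP.Pr
      rw [FP.E_congr (g := fun _ => 0), FP.E_const]
      intro u _
      exact ind_not (hfalse u)
    rw [h0]
    exact (Real.exp_pos _).le
  · -- the pair
    obtain ⟨a, b, hab, rfl⟩ := Finset.card_eq_two.mp (show J.card = 2 by omega)
    have haA : a ∈ A := hJA (Finset.mem_insert_self a {b})
    have hbA : b ∈ A := hJA (Finset.mem_insert_of_mem (Finset.mem_singleton_self b))
    obtain ⟨s', δ, q, n1, n2, n3, n4, n5, n6, n7, n8, n9, n10⟩ := hnum β H Λ hβ hβ2 hH h hn hK hΛ1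
      (Real.exp (H ^ g)) (Real.exp_pos _).le le_rfl (h' - h) hD
    have hab' : a.1 ≠ b.1 := fun h => hab (Subtype.ext h)
    obtain ⟨o⟩ := exists_enu hι hab'
    have hΛ0 : 0 < Λ := by
      have : (1 : ℝ) ≤ H ^ C1 := one_le_pow₀ (by linarith)
      linarith
    have htt1 : Real.exp (-Λ) < 1 := by
      rw [← Real.exp_zero]
      exact Real.exp_lt_exp.mpr (by linarith)
    have hσ : 0 < Real.exp (-H ^ c1) / 2 := by positivity
    have hhalf := CMC.half hH2 c1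
    have he1 : Real.exp (-H ^ c1) ≤ 1 := by
      rw [← Real.exp_zero]
      refine Real.exp_le_exp.mpr ?_
      have : (0 : ℝ) ≤ H ^ c1 := by positivity
      linarith
    have h1 := hpair (x := x) hab' a.2.symm b.2.symm o s (h := h) (hh := h') (q := q) (p := Real.exp (H ^ g)) (R := R) hN n8
      hh' hR hR1 (tt := Real.exp (-Λ)) (eps0 := β ^ (C1 + (c1 + M2)) + 8 * ((2 : ℝ) ^ h)⁻¹) (Real.exp_pos _) htt1
      (by positivity) (hPT a haA) (hPT b hbA) (hch a haA) (hch b hbA) (Real.exp_pos _).le n1 n2 n3 n4 hσ n5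
      (by linarith) n7
    refine le_trans (FP.Pr_mono _ fun u _ => ?_) (h1.trans ?_)
    · rintro ⟨t, ht, ht1, hlt⟩
      refine ⟨t, ht, ht1, ?_⟩
      rw [GMM.ce_KJ_Nk, GMM.im_pair] at hlt
      refine lt_of_le_of_lt ?_ hlt
      have h2 : (Fintype.card ι : ℝ) * (2 * (2 ^ (h' - h)) ^ (n - 1) * δ) ≤ Real.exp (-H ^ (c1 + 2)) := by
        rw [hι]
        push_cast
        exact n9
      have h3 : Real.exp (-H ^ c1) * (Real.exp (-H ^ c1) / 2) ≤ 1 * (Real.exp (-H ^ c1) / 2) :=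
        mul_le_mul_of_nonneg_right he1 hσ.le
      linarith
    · rw [div_le_iff₀ hσ]
      exact n10.trans hhalf

/-- **THE BASE FORM, the faces of `J` coin free** -/
theorem hotB_ne (n c' g c1 : ℕ) : ∃ C1 : ℕ, (c' + 2) * 2 ^ n + 2 + n ≤ C1 ∧ ∀ {k N : ℕ} {ι Q Ξ : Type} [Fintype ι]
    [DecidableEq ι] [Fintype Q] [Nonempty Q] [Fintype Ξ] {wx : Ξ → ℝ} (_ : ∀ ξ, 0 ≤ wx ξ) (_ : ∑ ξ, wx ξ = 1)
    (_ : Fintype.card ι = n + 2) (s : V k) (_ : N ≤ k) (h : ℕ) (x : ι)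
    (β H Λ : ℝ) (_ : 0 < β) (_ : β ≤ 1 / 2) (_ : 1 / β ≤ H) (_ : 8 * ((2 : ℝ) ^ h)⁻¹ ≤ β ^ ((c' + 2) * 2 ^ n + 2 + n))
    (_ : (2 : ℝ) ^ (h + 3) ≤ Real.exp (H ^ g)) (_ : H ^ C1 ≤ Λ) {R : Ξ → ι → Fam k ι Q}
    (_ : ∀ ξ i, FOn ({i}ᶜ : Set ι) (R ξ i)) (_ : ∀ ξ i, FLe 1 (R ξ i)) (J : Finset {v : ι // v ≠ x}) (_ : J.Nonempty)
    (_ : ∀ ξ, ∀ i ∈ J, PTm (fun _ : Unit => (1 : ℝ)) i.1 h N (fun _ => R ξ i.1) (Real.exp (-Λ))
      (β ^ C1 + 8 * ((2 : ℝ) ^ h)⁻¹))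
    (_ : ∀ ξ, ∀ i ∈ J, chg N Unit Q s h (fun _ : Unit => (1 : ℝ)) (fun _ => R ξ i.1) ≤ Real.exp (H ^ g))
    (h' : ℕ) (_ : h ≤ h') (_ : h' ≤ h + Fintype.card ι) (_ : J.card ≤ 2),
    (Pm : FP (Sq k N ι Unit Q)).Pr (fun u => ∃ t ≤ N, 1 ≤ t ∧ Real.exp (-H ^ c1) <
      Pm.ce (KJ x h' J (Mod.ex N t)) (fun v => ∑ ξ, wx ξ * ind (β ^ c' ≤ |TT s h (R ξ) (Mod.ex N t) v|)) u) ≤
        Real.exp (-H ^ c1) := by
  obtain ⟨C1, hC1, h0⟩ := cold_famA n c' g (c1 + 2)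
  refine ⟨C1, hC1, ?_⟩
  intro k N ι Q Ξ _ _ _ _ _ wx wx0 wx1 hι s hN h x β H Λ hβ hβ2 hH hn hK hΛ R hR hR1 J hJne hPT hch h' hh' hh'' hJ
  have hH2 : 2 ≤ H := by
    have h1 : (2 : ℝ) ≤ 1 / β := by
      rw [le_div_iff₀ hβ]
      linarith
    exact h1.trans hH
  have hhalf := CMC.half hH2 c1
  have hσ : 0 < Real.exp (-H ^ c1) / 2 := by positivity
  have he1 : Real.exp (-H ^ c1) ≤ 1 := by
    rw [← Real.exp_zero]
    refine Real.exp_le_exp.mpr ?_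
    have : (0 : ℝ) ≤ H ^ c1 := by positivity
    linarith
  have h1 := avg_cold (Pm : FP (Sq k N ι Unit Q)) wx0 wx1 (fun t => KJ x h' J (Mod.ex N t)) (N := N)
    (f := fun ξ t v => ind (β ^ c' ≤ |TT s h (R ξ) (Mod.ex N t) v|)) (fun _ _ _ => ind_le_one _)
    (s := Real.exp (-H ^ (c1 + 2))) (s' := Real.exp (-H ^ c1) / 2) (p := Real.exp (-H ^ (c1 + 2))) (Real.exp_pos _).le hσ
    (fun ξ => h0 hι s hN h x β H Λ hβ hβ2 hH hn hK hΛ (R := R ξ) (hR ξ) (hR1 ξ) J J hJne (Finset.Subset.refl _) (hPT ξ)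
      (hch ξ) h' hh' hh'' hJ)
  refine le_trans (FP.Pr_mono _ fun u _ => ?_) (h1.trans ?_)
  · rintro ⟨t, ht, ht1, hlt⟩
    refine ⟨t, ht, ht1, lt_of_le_of_lt ?_ hlt⟩
    have h3 : Real.exp (-H ^ c1) * (Real.exp (-H ^ c1) / 2) ≤ 1 * (Real.exp (-H ^ c1) / 2) :=
      mul_le_mul_of_nonneg_right he1 hσ.le
    linarith
  · rw [div_le_iff₀ hσ]
    exact hhalf

/-! ## the transfer -/

section transfer

variable {k N : ℕ} {ι Θ Ξ Q : Type} [Fintype ι] [DecidableEq ι] [Fintype Θ] [Nonempty Θ] [Fintype Ξ] [Nonempty Ξ]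
  [Fintype Q] [Nonempty Q]

/-- the natural classes do not know the coin of the hidden vertex -/
theorem ce_KJ_pz (w : ι) (hh : ℕ) (J : Finset {j : ι // j ≠ w}) (e : ℕ) (f : Sq k N ι Θ Q × Ξ → ℝ)
    (u : Sq k N ι Θ (Ξ × Q)) : (PM k N ι Θ Ξ Q).ce (KJ w hh J e) (fun v => f (pz w v)) u =
      Pm.ce (KJ w hh J e) (fun v => ∑ ξ, (Fintype.card Ξ : ℝ)⁻¹ * f (v, ξ)) (pq u) := by
  have h1 : (PM k N ι Θ Ξ Q).ce (KJ w hh J e) (fun v => f (pz w v)) u =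
      (FP.unif (Sq k N ι Θ Q × Ξ)).ce (fun b => KJ w hh J e b.1) f (pz w u) := by
    refine ce_forget (eS (eP Ξ Q) w) (X := KJ w hh J e) (Y := fun b => KJ w hh J e b.1) ?_ ?_ f u
    · intro v v' h
      rw [KJ_eq] at h
      show KJ w hh J e (pq v) = KJ w hh J e (pq v')
      rw [KJ_eq]
      refine ⟨fun a ha => ?_, ?_⟩
      · have h1 : v.2.1 a.1 = v'.2.1 a.1 := h.1 a ha
        show ((v.2.1 a.1).1.2, (v.2.1 a.1).2) = ((v'.2.1 a.1).1.2, (v'.2.1 a.1).2)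
        rw [h1]
      · rw [Qn_eq]
        exact Qn_eq.1 h.2
    · intro v v' h
      have h1 : KJ w hh J e (pq v) = KJ w hh J e (pq v') := congrArg Prod.fst h
      have h2 : rp (eP Ξ Q) w v = rp (eP Ξ Q) w v' := congrArg Prod.snd h
      have h3 : (fun j : {j : ι // j ≠ w} => (v.2.1 j.1).1.1) = fun j => (v'.2.1 j.1).1.1 := congrArg Prod.fst h2
      rw [KJ_eq] at h1 ⊢
      refine ⟨fun a ha => ?_, ?_⟩
      · have h4 : ((v.2.1 a.1).1.2, (v.2.1 a.1).2) = ((v'.2.1 a.1).1.2, (v'.2.1 a.1).2) := h1.1 a ha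
        have h5 : (v.2.1 a.1).1.1 = (v'.2.1 a.1).1.1 := congrFun h3 a
        simp only [Prod.mk.injEq] at h4
        exact Prod.ext (Prod.ext h5 h4.1) h4.2
      · rw [Qn_eq]
        exact Qn_eq.1 h1.2
  rw [h1]
  exact ce_fst (KJ w hh J e) f (pz w u)

/-- **FROM THE BASE FORM**: fixed public randomness, coins averaged -/
theorem hotC_transfer {σ : V k} {w : ι} {hN : N ≤ k} {h h' : ℕ} {F : ι → Mov Ξ ι (Q × V k) (Θ × (V k × ℕ)) (V k → ℝ)}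
    (h0 : ∀ i, ∀ g ξ x, F i 0 g ξ x = 0) {J : Finset {v : ι // v ≠ w}} {r s p : ℝ} (hr : 0 < r) (hs : 0 ≤ s)
    (hbase : ∀ θ : Θ, (Pm : FP (Sq k N ι Unit Q)).Pr (fun u => ∃ t ≤ N, 1 ≤ t ∧ s < Pm.ce (KJ w h' J (Mod.ex N t))
      (fun v => ∑ ξ : Ξ, (Fintype.card Ξ : ℝ)⁻¹ * ind (r ≤ |TT σ h (fun i => famS N h (F i) θ ξ) (Mod.ex N t) v|)) u) ≤ p) :
    (PM k N ι Θ Ξ Q).Pr (fun u => ∃ t ≤ N, s < (PM k N ι Θ Ξ Q).ce (KJ w h' J (Mod.ex N t))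
      (fun v => ind (r ≤ |pT (binSys Θ Ξ Q σ w hN h) univ F t v|)) u) ≤ p := by
  have hι : 0 < Fintype.card ι := Fintype.card_pos_iff.mpr ⟨w⟩
  set B : Sq k N ι Θ Q → Prop := fun u => ∃ t ≤ N, 1 ≤ t ∧ s < Pm.ce (KJ w h' J (Mod.ex N t))
      (fun v => ∑ ξ : Ξ, (Fintype.card Ξ : ℝ)⁻¹ *
        ind (r ≤ |TT σ h (fun i => famS N h (F i) (th v) ξ) (Mod.ex N t) v|)) u with hB
  have h1 : (PM k N ι Θ Ξ Q).Pr (fun u => ∃ t ≤ N, s < (PM k N ι Θ Ξ Q).ce (KJ w h' J (Mod.ex N t))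
      (fun v => ind (r ≤ |pT (binSys Θ Ξ Q σ w hN h) univ F t v|)) u) ≤
      (PM k N ι Θ Ξ Q).Pr (fun u => B (pq u)) := by
    refine FP.Pr_mono _ fun u _ => ?_
    rintro ⟨t, ht, hlt⟩
    rcases Nat.eq_zero_or_pos t with h2 | h2
    · exfalso
      subst h2
      have h3 : (PM k N ι Θ Ξ Q).ce (KJ w h' J (Mod.ex N 0))
          (fun v => ind (r ≤ |pT (binSys Θ Ξ Q σ w hN h) univ F 0 v|)) u ≤
          (PM k N ι Θ Ξ Q).ce (KJ w h' J (Mod.ex N 0)) (fun _ => 0) u := by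
        refine FP.ce_mono _ (fun v _ => ?_) u
        rw [pT_at_zero hι h0, abs_zero, ind_not (not_le.2 hr)]
      have h4 : (PM k N ι Θ Ξ Q).ce (KJ w h' J (Mod.ex N 0)) (fun _ => (0 : ℝ)) u = 0 := by
        unfold FP.ce
        rw [FP.E_congr (g := fun _ => 0), FP.E_const, zero_div]
        intro v _
        rw [mul_zero]
      linarith
    · refine ⟨t, ht, h2, ?_⟩
      have h3 := ce_KJ_pz w h' J (Mod.ex N t) (fun b : Sq k N ι Θ Q × Ξ =>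
        ind (r ≤ |T0X σ h (fun θ ξ i => famS N h (F i) θ ξ) t b|)) u
      have h4 : (fun v => ind (r ≤ |pT (binSys Θ Ξ Q σ w hN h) univ F t v|)) =
          fun v => ind (r ≤ |T0X σ h (fun θ ξ i => famS N h (F i) θ ξ) t (pz w v)|) :=
        funext fun v => by rw [pT_T0X w hN h F ht v]
      rw [h4, h3] at hlt
      exact hlt
  refine h1.trans ?_
  have h5 : (PM k N ι Θ Ξ Q).Pr (fun u => B (pq u)) = (Pm : FP (Sq k N ι Θ Q)).Pr B :=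
    Pr_prQ (k := k) (N := N) (ι := ι) (Θ := Θ) (Equiv.prodComm Ξ Q) B
  rw [h5]
  refine Pr_Th_le fun θ => ?_
  refine le_trans (FP.Pr_mono _ fun v _ => ?_) (hbase θ)
  rintro ⟨t, ht, ht1, hlt⟩
  refine ⟨t, ht, ht1, ?_⟩
  rw [ce_KJ_Th] at hlt
  exact hlt

end transfer

end

end Pool.Agent.GM
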