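import Pool.Agent.GM.HotBX
import Pool.Agent.GM.HotInC

/-!
# GM/HotInC4: the cold inputs `HotInC j` of theorem CM with a coin for `j ≤ 4` (row P5, helper18)

For `j ≤ 4` every proper subset `J` of the `j - 1` known vertices has at most two vertices: `hotB_coin` if `J` is empty
or contains the reader `δ` of the coin, `hotB_ne` otherwise, then `hotC_transfer`.
-/

set_option autoImplicit false
set_option linter.unusedSectionVars false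

namespace Pool.Agent.GM

open Finset Pool.Agent.PWZ Pool.Agent.M3 Pool.Agent.M3.TS Pool.Agent.M3.Bin Pool.Agent.GM.Mv Pool.Agent.GM.KVer
open Pool.Agent.GMC (PTm chg famS pq)

noncomputable section

/-- **THE COLD INPUTS WITH A COIN**, sets of at most two known vertices -/
theorem cmcCold_gen (j c' : ℕ) : ∃ c0 : ℕ, ∀ g c1 : ℕ, ∃ C1 : ℕ, ∀ (ι Θ Ξ Q : Type) [Fintype ι] [DecidableEq ι]
    [Fintype Θ] [Nonempty Θ] [Fintype Ξ] [Nonempty Ξ] [Fintype Q] [Nonempty Q] (k N : ℕ) (σ : V k) (w δ : ι)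
    (hN : N ≤ k) (h : ℕ), Fintype.card ι = j → δ ≠ w →
    ∀ β H Λ : ℝ, 0 < β → β ≤ 1 / 2 → 1 / β ≤ H → (binSys Θ Ξ Q σ w hN h).K ≤ Real.exp (H ^ g) →
      (binSys Θ Ξ Q σ w hN h).near ≤ β ^ c0 → H ^ C1 ≤ Λ → ∀ C : ℕ, C1 ≤ C → ∀ (m : ℝ)
      (F : ι → Mov Ξ ι (Q × V k) (Θ × (V k × ℕ)) (V k → ℝ)),
      GS.FacesCc (binSys Θ Ξ Q σ w hN h) w δ F m (Real.exp (H ^ g)) (Real.exp (-Λ)) (β ^ C) → ∀ h' : ℕ, h ≤ h' →
      h' ≤ h + Fintype.card ι → ∀ J : Finset {v // v ≠ w}, J.card ≤ 2 →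
      (PM k N ι Θ Ξ Q).Pr (fun u => ∃ t ≤ N, Real.exp (-H ^ c1) < (PM k N ι Θ Ξ Q).ce (KJ w h' J (Mod.ex N t))
        (fun v => ind (β ^ c' ≤ |pT (binSys Θ Ξ Q σ w hN h) univ F t v|)) u) ≤ Real.exp (-H ^ c1) := by
  refine ⟨(c' + 2) * 2 ^ (j - 2) + 2 + (j - 2), fun g c1 => ?_⟩
  obtain ⟨C1, hC1, hne⟩ := hotB_ne (j - 2) c' g c1
  obtain ⟨C2, hC2, hco⟩ := hotB_coin (j - 2) c' g c1
  refine ⟨max C1 C2, ?_⟩
  intro ι Θ Ξ Q _ _ _ _ _ _ _ _ k N σ w δ hN h hι hδw β H Λ hβ hβ2 hH hK hn hΛ C hC m F HF h' hh' hh'' J hJ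
  have hβ1 : β ≤ 1 := by linarith
  have hH1 : 1 ≤ H := by
    have h1 : (1 : ℝ) ≤ 1 / β := by
      rw [le_div_iff₀ hβ]
      linarith
    exact h1.trans hH
  have hΛ1 : H ^ C1 ≤ Λ := (pow_le_pow_right₀ hH1 (le_max_left _ _)).trans hΛ
  have hΛ2 : H ^ C2 ≤ Λ := (pow_le_pow_right₀ hH1 (le_max_right _ _)).trans hΛ
  have hcard : Fintype.card ι = j - 2 + 2 := by
    have h1 : ({δ, w} : Finset ι).card ≤ Fintype.card ι := Finset.card_le_univ _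
    rw [Finset.card_pair hδw] at h1
    omega
  have hK' : (2 : ℝ) ^ (h + 3) ≤ Real.exp (H ^ g) := by
    refine le_trans ?_ hK
    show (2 : ℝ) ^ (h + 3) ≤ (((Fintype.card ι + 4) * 2 ^ (h + 3) : ℕ) : ℝ)
    push_cast
    have h1 : (0 : ℝ) < 2 ^ (h + 3) := by positivity
    have h2 : (0 : ℝ) ≤ Fintype.card ι := Nat.cast_nonneg _
    nlinarith
  have hacc : 0 ≤ β ^ C := by positivity
  have hacc1 : β ^ C ≤ β ^ C1 := pow_le_pow_of_le_one hβ.le hβ1 (le_trans (le_max_left _ _) hC)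
  have hacc2 : β ^ C ≤ β ^ C2 := pow_le_pow_of_le_one hβ.le hβ1 (le_trans (le_max_right _ _) hC)
  have hdep : ∀ (v : ι) (t : ℕ) (g : Θ × (V k × ℕ)) (ξ : Ξ), DependsOn (F v t g ξ) ({v}ᶜ : Set ι) := by
    intro v t g ξ x y hxy
    exact HF.dep v t g ξ x y fun l hl => hxy l fun hl' => (Finset.ne_of_mem_erase hl) hl'
  have wx0 : ∀ ξ : Ξ, (0 : ℝ) ≤ (Fintype.card Ξ : ℝ)⁻¹ := fun _ => by positivity
  refine hotC_transfer HF.zero (by positivity) (Real.exp_pos _).le fun θ => ?_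
  by_cases hcase : J = ∅ ∨ (⟨δ, hδw⟩ : {v : ι // v ≠ w}) ∈ J
  · -- the reader of the coin is known, or nobody is known
    refine hco hcard σ hN h w δ hδw wx0 (card_sum Ξ) β H Λ hβ hβ2 hH hn hK' hΛ2
      (R := fun ξ i => famS N h (F i) θ ξ) (fun ξ i => GMC.famS_on h (hdep i) θ ξ)
      (fun ξ i => GMC.famS_le zero_le_one h (HF.bd i) θ ξ) (fun ξ ξ' i hi => GMC.famS_coin h (HF.coin i hi) θ ξ ξ')
      (fun i hi => ?_) (fun i hi => ?_) h' hh' hh'' J hJ hcase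
    · have h1 := GMC.rare_PTm σ w hN h (HF.bd i) (Real.exp_pos _).le hacc (HF.rare i hi) θ
      exact PTm_le wx0 (show β ^ C + 8 * ((2 : ℝ) ^ h)⁻¹ ≤ β ^ C2 + 8 * ((2 : ℝ) ^ h)⁻¹ by linarith) h1
    · exact GMC.chg_famS σ w hN h (HF.fut i hi) Unit θ
  · -- the faces of `J` do not read the coin
    obtain ⟨hJ1, hJ2⟩ := not_or.mp hcase
    have hJd : ∀ v ∈ J, v.1 ≠ δ := fun v hv hvd => hJ2 ((Subtype.ext hvd : v = ⟨δ, hδw⟩) ▸ hv)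
    refine hne wx0 (card_sum Ξ) hcard σ hN h w β H Λ hβ hβ2 hH hn hK' hΛ1 (R := fun ξ i => famS N h (F i) θ ξ)
      (fun ξ i => GMC.famS_on h (hdep i) θ ξ) (fun ξ i => GMC.famS_le zero_le_one h (HF.bd i) θ ξ) J
      (Finset.nonempty_iff_ne_empty.mpr hJ1) (fun ξ i hi => ?_) (fun ξ i hi => ?_) h' hh' hh'' hJ
    · have h1 := GMC.rare_PTm σ w hN h (HF.bd i.1) (Real.exp_pos _).le hacc (HF.rare i.1 i.2) θ
      have h2 := PTm_le wx0 (show β ^ C + 8 * ((2 : ℝ) ^ h)⁻¹ ≤ β ^ C1 + 8 * ((2 : ℝ) ^ h)⁻¹ by linarith) h1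
      exact PTm_fix (card_sum Ξ) ξ (fun ξ' => GMC.famS_coin h (HF.coin i.1 (hJd i hi)) θ ξ' ξ) h2
    · have h1 := GMC.chg_famS σ w hN h (HF.fut i.1 i.2) Unit θ
      exact chg_fix Unit (card_sum Ξ) ξ (fun ξ' => GMC.famS_coin h (HF.coin i.1 (hJd i hi)) θ ξ' ξ) h1

/-- **THE COLD INPUTS OF THEOREM CM WITH A COIN FOR AT MOST FOUR VERTICES** -/
theorem hotInC_le4 (j : ℕ) (hj : j ≤ 4) : ∃ c0 : ℕ, ∀ c ≥ c0, ∀ (κ : ℝ) (c1 : ℕ), ∃ C1 : ℕ, ∀ C ≥ C1,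
    HotInC j κ c c1 C := by
  obtain ⟨c0, h0⟩ := cmcCold_gen j 2
  refine ⟨c0, fun c hc κ c1 => ?_⟩
  obtain ⟨C1, h1⟩ := h0 (c + 2) c1
  refine ⟨C1, fun C hC => ?_⟩
  intro ι Θ Ξ Q _ _ _ _ _ _ _ _ k N σ w δ q hN h hι hδw hqw β H Λ hβ hβ2 hH hK hn hΛ _ F HF _ h' hh' hh'' J hJ
  have hH2 : 2 ≤ H := by
    have h2 : (2 : ℝ) ≤ 1 / β := by
      rw [le_div_iff₀ hβ]
      linarith
    exact h2.trans hH
  have hJ2 : J.card ≤ 2 := by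
    have h2 : J.card < Fintype.card {v : ι // v ≠ w} := by
      rw [← Finset.card_univ]
      exact Finset.card_lt_card (Finset.ssubset_univ_iff.mpr hJ)
    have h3 : Fintype.card {v : ι // v ≠ w} = Fintype.card ι - 1 := by
      rw [Fintype.card_subtype_compl, Fintype.card_subtype_eq]
    omega
  exact h1 ι Θ Ξ Q k N σ w δ hN h hι hδw β H Λ hβ hβ2 hH hK (near_of_exp hβ hβ2 hH hc hn)
    (le_trans (pow_le_pow_right₀ (by linarith) hC) hΛ) C hC (4 * H) F HF h' hh' hh'' J hJ2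

end

end Pool.Agent.GM
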