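import Pool.Agent.GM.TopM
import Pool.Agent.GM.HotInC4

/-!
# GM/HotCP2: the cold inputs with a coin for sets of at most two known vertices, every `j` (row P5; helper36)

* `hotCP_le2` : `HotCP (fun n => n ≤ 2) j` for every `j` (from `cmcCold_gen`, helper18);
* `final_all2` : every number of commuting maps without this input.
-/

set_option autoImplicit false
set_option linter.unusedSectionVars false

namespace Pool.Agent.GM.Top

open Finset Filter Pool.Agent.PWZ Pool.Agent.M3 Pool.Agent.M3.TS Pool.Agent.M3.Bin Pool.Agent.GM Pool.Agent.GM.GS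
  Pool.Agent.GMN Pool.Agent.GM.KVer Pool.Agent.GM.Mv

noncomputable section

/-- **AT MOST TWO KNOWN VERTICES, WITH A COIN, EVERY `j`** -/
theorem hotCP_le2 (j : ℕ) : HotCP (fun n => n ≤ 2) j := by
  intro κ
  obtain ⟨c0, h0⟩ := cmcCold_gen j 2
  refine ⟨c0, fun c c1 hc => ?_⟩
  obtain ⟨C1, h1⟩ := h0 (c + 2) c1
  refine ⟨C1, fun C hC => ?_⟩
  intro ι Θ Ξ Q _ _ _ _ _ _ _ _ k N σ w δ q hN h hι hδw hqw β H Λ hβ hβ2 hH hK hn hΛ _ F HF _ h' hh' hh'' J hJ hJ2
  have hH2 : 2 ≤ H := by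
    have h2 : (2 : ℝ) ≤ 1 / β := by
      rw [le_div_iff₀ hβ]
      linarith
    exact h2.trans hH
  exact h1 ι Θ Ξ Q k N σ w δ hN h hι hδw β H Λ hβ hβ2 hH hK (near_of_exp hβ hβ2 hH hc hn)
    (le_trans (pow_le_pow_right₀ (by linarith) hC) hΛ) C hC (4 * H) F HF h' hh' hh'' J hJ2

/-- **every number of vertices**, the open inputs listed once, without the input `HotCP (n ≤ 2)` -/
theorem final_all2 (harm : ∀ k, 3 ≤ k → HarmAll k) (cls : ∀ v, 3 ≤ v → ClsAll v) (cold : ∀ j, 5 ≤ j → OpenMid j) :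
    ∀ m, 3 ≤ m → Pool.PWM.FinalM m :=
  final_all harm cls (fun j _ => hotCP_le2 j) cold

end

end Pool.Agent.GM.Top
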