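import Pool.Agent.GM.CMBin
import Pool.Agent.GM.CMCold

/-!
# GM/HotIn4: the cold inputs `HotIn j` of row A10c for `j ≤ 4` (helper18)

For `j ≤ 4` every proper subset of the `j - 1` known vertices has at most two vertices: `cmCold_gen`.
-/

set_option autoImplicit false
set_option linter.unusedSectionVars false

namespace Pool.Agent.GM

open Finset Pool.Agent.PWZ Pool.Agent.M3 Pool.Agent.M3.TS Pool.Agent.M3.Bin Pool.Agent.GM.KVer
open Pool.Agent.GMC (pq)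

noncomputable section

/-- **THE COLD INPUTS OF THEOREM CM FOR AT MOST FOUR VERTICES** -/
theorem hotIn_le4 (j : ℕ) (hj : j ≤ 4) : ∃ c0 : ℕ, ∀ c ≥ c0, ∀ (κ : ℝ) (c1 : ℕ), ∃ C1 : ℕ, ∀ C ≥ C1,
    HotIn j κ c c1 C := by
  obtain ⟨c0, h0⟩ := cmCold_gen j 2
  refine ⟨c0, fun c hc κ c1 => ?_⟩
  obtain ⟨C1, h1⟩ := h0 (c + 2) c1
  refine ⟨C1, fun C hC => ?_⟩
  intro ι Θ Ξ Q _ _ _ _ _ _ _ _ k N σ w q hN h hι hqw β H Λ hβ hβ2 hH hK hn hΛ _ F HF _ h' hh' hh'' J hJ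
  have hH2 : 2 ≤ H := by
    have h2 : (2 : ℝ) ≤ 1 / β := by
      rw [le_div_iff₀ hβ]
      linarith
    exact h2.trans hH
  have hJ2 : J.card ≤ 2 := by
    have h2 : J.card < Fintype.card {v : ι // v ≠ w} := by
      rw [← Finset.card_univ]
      exact Finset.card_lt_card (Finset.ssubset_univ_iff.mpr hJ)
    have h3 : Fintype.card {v : ι // v ≠ w} = Fintype.card ι - 1 := by
      rw [Fintype.card_subtype_compl, Fintype.card_subtype_eq]
    omega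
  exact h1 ι Θ Ξ Q (Ξ × Q) Ξ (Equiv.prodComm Ξ Q) k N σ w w q hN h hι hqw β H Λ hβ hβ2 hH hK (near_of_exp hβ hβ2 hH hc hn)
    (le_trans (pow_le_pow_right₀ (by linarith) hC) hΛ) C hC (4 * H) F HF h' hh' hh'' J hJ2
    (fun t v => pT (binSys Θ Ξ Q σ w hN h) univ F t v) (fun t _ v => ⟨v, rfl, rfl⟩)

end

end Pool.Agent.GM
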