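import Pool.Agent.GM.Geo
import Pool.Agent.M3.S2.LMPar

/-!
# GM/LM1 (helper96): Lemma M' at the exact values of all vertices but two, binary model, any number of vertices

`LM1m` : populations `(coins of i, x_u)` and `x_δ`, `u ≠ δ`, all other vertices are known exactly (in the nodes); `i` is
any vertex.  Port of `M3/S2/LMi.LM1`.
-/

set_option autoImplicit false
set_option linter.unusedSectionVars false

namespace Pool.Agent.GM

open Finset Pool.Agent.PWZ Pool.Agent.M3 Pool.Agent.M3.Bin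
open Pool.Agent.M3.Mod (ex ex_zero ex_succ ex_top exk ex_anti Wz WS sum_Wz WS_nonneg Wz_nonneg Pr_sum Pr_none Pr_true cQ
  rho_nodes rho_one count_img num_aux sumQ)
open Pool.Agent.M3.S2

noncomputable section

variable {k N : ℕ} {ι Θ Ξ Q : Type} [Fintype ι] [DecidableEq ι] (σ : V k) [Fintype Θ] [Nonempty Θ] [Fintype Ξ] [Nonempty Ξ] [Fintype Q] [Nonempty Q]

/-- the other vertices -/
abbrev oth (u δ : ι) : Finset ι := {u, δ}ᶜ

theorem mem_oth {u δ l : ι} : l ∈ oth u δ ↔ l ≠ u ∧ l ≠ δ := by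
  rw [mem_compl, mem_insert, mem_singleton, not_or]

/-- public randomness and the other vertices -/
abbrev RO (k : ℕ) (Θ Q : Type) (u δ : ι) := Θ × ({l // l ∈ oth u δ} → Q × V k)

/-- the shift -/
def sO (u δ : ι) (r : RO k Θ Q u δ) : V k := ∑ l, (r.2 l).2 + σ

/-- projection to the model with two vertices -/
def pr2 (i u δ : ι) (ω : Sq k N ι Θ (Ξ × Q)) : Om2 k N (Ξ × Q) (RO k Θ Q u δ × Q) :=
  (((xm i ω, (vm ω u).1), (vm ω u).2), (((th ω, res (oth u δ) (vm ω)), (vm ω δ).1), (vm ω δ).2), ω.2.2)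

/-- the vertices over a point of the model with two vertices -/
def vgl (u δ : ι) (o : Om2 k N (Ξ × Q) (RO k Θ Q u δ × Q)) (l : ι) : Q × V k :=
  if hu : l = u then (o.1.1.2, o.1.2) else if hd : l = δ then (o.2.1.1.2, o.2.1.2) else
    o.2.1.1.1.2 ⟨l, mem_oth.2 ⟨hu, hd⟩⟩

/-- a sample point over a point of the model with two vertices -/
def gl2 (i u δ : ι) (ξ : {l : ι // l ≠ i} → Ξ) (o : Om2 k N (Ξ × Q) (RO k Θ Q u δ × Q)) :
    Sq k N ι Θ (Ξ × Q) :=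
  (o.2.1.1.1.1, (fun l => ((if h : l = i then o.1.1.1 else ξ ⟨l, h⟩, (vgl u δ o l).1), (vgl u δ o l).2)), o.2.2)

theorem vm_gl2 (i u δ : ι) (ξ : {l : ι // l ≠ i} → Ξ) (o : Om2 k N (Ξ × Q) (RO k Θ Q u δ × Q)) :
    vm (gl2 i u δ ξ o) = vgl u δ o := rfl

theorem xm_gl2 (i u δ : ι) (ξ : {l : ι // l ≠ i} → Ξ) (o : Om2 k N (Ξ × Q) (RO k Θ Q u δ × Q)) :
    xm i (gl2 i u δ ξ o) = o.1.1.1 := dif_pos rfl

theorem pr2_gl2 (i : ι) {u δ : ι} (hud : u ≠ δ) (ξ : {l : ι // l ≠ i} → Ξ)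
    (o : Om2 k N (Ξ × Q) (RO k Θ Q u δ × Q)) : pr2 i u δ (gl2 i u δ ξ o) = o := by
  unfold pr2
  rw [vm_gl2, xm_gl2]
  have h1 : vgl u δ o u = (o.1.1.2, o.1.2) := dif_pos rfl
  have h2 : vgl u δ o δ = (o.2.1.1.2, o.2.1.2) := by
    unfold vgl
    rw [dif_neg hud.symm, dif_pos rfl]
  have h3 : res (oth u δ) (vgl u δ o) = o.2.1.1.1.2 := by
    funext l
    have h4 := mem_oth.1 l.2
    show vgl u δ o l.1 = _
    unfold vgl
    rw [dif_neg h4.1, dif_neg h4.2]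
  rw [h1, h2, h3]
  rfl

theorem vgl_pr2 (i u δ : ι) (ω : Sq k N ι Θ (Ξ × Q)) : vgl u δ (pr2 i u δ ω) = vm ω := by
  funext l
  unfold vgl pr2
  split_ifs with h1 h2
  · rw [h1]
  · rw [h2]
  · rfl

/-- the equivalence -/
def prE2 (i : ι) {u δ : ι} (hud : u ≠ δ) :
    Sq k N ι Θ (Ξ × Q) ≃ Om2 k N (Ξ × Q) (RO k Θ Q u δ × Q) × ({l : ι // l ≠ i} → Ξ) where
  toFun ω := (pr2 i u δ ω, fun l => xm l.1 ω)
  invFun p := gl2 i u δ p.2 p.1
  left_inv ω := by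
    refine Prod.ext rfl (Prod.ext ?_ rfl)
    funext l
    show ((if h : l = i then xm i ω else xm l ω, (vgl u δ (pr2 i u δ ω) l).1), (vgl u δ (pr2 i u δ ω) l).2) = _
    rw [vgl_pr2]
    have h1 : (if h : l = i then xm i ω else xm l ω) = xm l ω := by
      split_ifs with h
      · rw [h]
      · rfl
    rw [h1]
    rfl
  right_inv p := by
    refine Prod.ext (pr2_gl2 i hud _ _) ?_
    funext l
    exact dif_neg l.2

theorem E_pr2 (i : ι) {u δ : ι} (hud : u ≠ δ) (f : Om2 k N (Ξ × Q) (RO k Θ Q u δ × Q) → ℝ) :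
    (PM k N ι Θ Ξ Q).E (fun ω => f (pr2 i u δ ω)) = (FP.unif (Om2 k N (Ξ × Q) (RO k Θ Q u δ × Q))).E f := by
  unfold PM Pm
  rw [FP.unif_E, FP.unif_E]
  have h1 : ∑ ω : Sq k N ι Θ (Ξ × Q), f (pr2 i u δ ω) =
      ∑ p : Om2 k N (Ξ × Q) (RO k Θ Q u δ × Q) × ({l : ι // l ≠ i} → Ξ), f p.1 :=
    Equiv.sum_comp (prE2 i hud) (fun p => f p.1)
  rw [h1, Fintype.sum_prod_type, Fintype.card_congr (prE2 (k := k) (N := N) (Θ := Θ) (Ξ := Ξ) (Q := Q) i hud),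
    Fintype.card_prod (Om2 k N (Ξ × Q) (RO k Θ Q u δ × Q)) ({l : ι // l ≠ i} → Ξ)]
  have h2 : ∀ x : Om2 k N (Ξ × Q) (RO k Θ Q u δ × Q), ∑ _y : {l : ι // l ≠ i} → Ξ, f x =
      (Fintype.card ({l : ι // l ≠ i} → Ξ) : ℝ) * f x := by
    intro x
    rw [Finset.sum_const, Finset.card_univ, nsmul_eq_mul]
  simp only [h2]
  rw [← Finset.mul_sum]
  have h3 : (Fintype.card ({l : ι // l ≠ i} → Ξ) : ℝ) ≠ 0 := Nat.cast_ne_zero.mpr Fintype.card_ne_zero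
  have h4 : (Fintype.card (Om2 k N (Ξ × Q) (RO k Θ Q u δ × Q)) : ℝ) ≠ 0 := Nat.cast_ne_zero.mpr Fintype.card_ne_zero
  push_cast
  field_simp

theorem sum_oth {M : Type*} [AddCommMonoid M] {u δ : ι} (hud : u ≠ δ) (f : ι → M) :
    f u + ((∑ l : {l // l ∈ oth u δ}, f l.1) + f δ) = ∑ l, f l := by
  have h1 : ∑ l : {l // l ∈ oth u δ}, f l.1 = ∑ l ∈ oth u δ, f l := Finset.sum_coe_sort (oth u δ) f
  have h2 := Finset.sum_add_sum_compl (oth u δ) f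
  rw [compl_compl, Finset.sum_pair hud] at h2
  rw [h1, ← h2]
  abel

theorem ctr_pr2 (i : ι) {u δ : ι} (hud : u ≠ δ) (B : Par k (RO k Θ Q u δ × Q))
    (hB : ∀ q, B.tau q = sO σ u δ q.1) (ω : Sq k N ι Θ (Ξ × Q)) :
    Bin.ctr (parT k (Ξ × Q)) B (pr2 i u δ ω) = ctr σ ω := by
  unfold Bin.ctr Par.sh
  rw [hB]
  show (0 + (vm ω u).2) + ((∑ l : {l // l ∈ oth u δ}, (vm ω l.1).2) + σ + (vm ω δ).2) = ∑ l, (vm ω l).2 + σ
  rw [zero_add, ← sum_oth hud fun l => (vm ω l).2]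
  abel

/-- the rounded node of the model with two vertices -/
theorem nX_pr2 (i : ι) {u δ : ι} (hud : u ≠ δ) (B : Par k (RO k Θ Q u δ × Q))
    (hB : ∀ q, B.tau q = sO σ u δ q.1) (h t : ℕ) (ω : Sq k N ι Θ (Ξ × Q)) :
    (nX (parT k (Ξ × Q)) B h t (pr2 i u δ ω)).1 = Gm σ h (ex N t) ω := by
  unfold nX
  rw [ctr_pr2 σ i hud B hB]
  rfl

theorem nY_pr2 (i : ι) {u δ : ι} (hud : u ≠ δ) (B : Par k (RO k Θ Q u δ × Q))
    (hB : ∀ q, B.tau q = sO σ u δ q.1) (h t : ℕ) (ω : Sq k N ι Θ (Ξ × Q)) :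
    (nY (parT k (Ξ × Q)) B h t (pr2 i u δ ω)).1 = Gm σ h (ex N t) ω := by
  unfold nY
  rw [ctr_pr2 σ i hud B hB]
  rfl

theorem J_pr2 (i : ι) {u δ : ι} (hud : u ≠ δ) (B : Par k (RO k Θ Q u δ × Q))
    (hB : ∀ q, B.tau q = sO σ u δ q.1) (t : ℕ) (ω : Sq k N ι Θ (Ξ × Q)) :
    Jt (parT k (Ξ × Q)) B t (pr2 i u δ ω) = Wd (ex N t) (Yn σ (ex N t) ω).1 := by
  unfold Jt
  rw [ctr_pr2 σ i hud B hB]
  rfl

/-- a sample point with a given second vertex (and parameter) and a given node -/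
theorem exists_node2 (i : ι) {u δ : ι} (hud : u ≠ δ) (B : Par k (RO k Θ Q u δ × Q))
    (hB : ∀ q, B.tau q = sO σ u δ q.1) (h t : ℕ) (o : Om2 k N (Ξ × Q) (RO k Θ Q u δ × Q))
    (y : (RO k Θ Q u δ × Q) × V k) :
    ∃ ω : Sq k N ι Θ (Ξ × Q), th ω = y.1.1.1 ∧ res (oth u δ) (vm ω) = y.1.1.2 ∧ vm ω δ = (y.1.2, y.2) ∧
      Gm σ h (ex N t) ω = (nY (parT k (Ξ × Q)) B h t o).1 := by
  set o' : Om2 k N (Ξ × Q) (RO k Θ Q u δ × Q) :=
    ((o.1.1, Bin.ctr (parT k (Ξ × Q)) B o - B.sh y), y, o.2.2) with ho'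
  have x0 : {l : ι // l ≠ i} → Ξ := Classical.arbitrary _
  have h0 := pr2_gl2 i hud x0 o'
  have h1 : Bin.ctr (parT k (Ξ × Q)) B o' = Bin.ctr (parT k (Ξ × Q)) B o := by
    show (0 + (Bin.ctr (parT k (Ξ × Q)) B o - B.sh y)) + B.sh y = _
    abel
  refine ⟨gl2 i u δ x0 o', rfl, ?_, ?_, ?_⟩
  · have := congrArg (fun p => p.2.1.1.1.2) h0
    exact this
  · have h2 := congrArg (fun p => (p.2.1.1.2, p.2.1.2)) h0
    exact h2
  · rw [← nY_pr2 σ i hud B hB, h0]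
    unfold nY
    rw [h1]

/-- **Lemma M' at exact values of all vertices but `u` and `δ`** -/
theorem LM1m {u δ : ι} (hud : u ≠ δ) (i : ι) (hN : N ≤ k) (h : ℕ)
    (S : Sys ι (Sq k N ι Θ (Ξ × Q)) Ξ (Q × V k) (V k) (Θ × (V k × ℕ)) (V k))
    (hS : S = binSys Θ Ξ Q σ i hN h) :
    LM S.P (fun w => (S.xi w, S.x w u)) (fun w => S.x w δ) S.n (fun t w => (res (oth u δ) (S.x w), S.gm t w))
      (fun t w => (res (oth u δ) (S.x w), S.gm t w)) (fun t x => S.cl t x.2) S.cl (fun t g => S.ρ t g.2)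
      (fun t g => S.ρ t g.2) S.J S.near S.K := by
  subst hS
  have r0 : RO k Θ Q u δ := Classical.arbitrary _
  set B := parE k (RO k Θ Q u δ) Q (sO σ u δ) with hBd
  have hB : ∀ q, B.tau q = sO σ u δ q.1 := fun q => rfl
  have hK : (2 : ℝ) ^ (h + 4) ≤ (((Fintype.card ι + 4) * 2 ^ (h + 3) : ℕ) : ℝ) := by
    have h1 : 2 ^ (h + 4) ≤ (Fintype.card ι + 4) * 2 ^ (h + 3) := by
      rw [pow_succ, mul_comm]
      exact Nat.mul_le_mul_right _ (by omega)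
    exact_mod_cast h1
  refine LM_map (pr2 i u δ) (E_pr2 i hud) (LM_bin (N := N) (parT k (Ξ × Q)) B hN h) le_rfl (by positivity) hK
    (fun x => (x.1.1, (x.1.2, x.2))) (fun y => (y.1.2, y.2))
    (fun _ g _ => ((dec (RO k Θ Q u δ) r0 g.2).2, ((dec (RO k Θ Q u δ) r0 g.2).1, g.1)))
    (fun _ g y => (y.1.1.2, (y.1.1.1, g.1)))
    (fun _ => rfl) (fun _ => rfl) ?_ ?_ (fun t ω => J_pr2 σ i hud B hB t ω) ?_ ?_
  · intro t ω
    have h1 : (nX (parT k (Ξ × Q)) B h t (pr2 i u δ ω)).2 = code (RO k Θ Q u δ) (th ω, res (oth u δ) (vm ω)) := rfl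
    rw [h1, dec_code, nX_pr2 σ i hud B hB]
    rfl
  · intro t ω
    show (res (oth u δ) (vm ω), (th ω, (nY (parT k (Ξ × Q)) B h t (pr2 i u δ ω)).1)) = _
    rw [nY_pr2 σ i hud B hB]
    rfl
  · refine ⟨fun t ht o x0 => ?_⟩
    have hx : {l : ι // l ≠ i} → Ξ := Classical.arbitrary _
    have h0 := pr2_gl2 i hud hx o
    refine ⟨gl2 i u δ hx o, flr (ex N t - (h + 3)) x0.2, ?_, ?_, ?_, ?_, ?_⟩
    · funext v
      show rho h (ex N t) (Gm σ h (ex N t) (gl2 i u δ hx o)).1 v = rho h (N - t) (nX (parT k (Ξ × Q)) B h t o).1.1 v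
      rw [← nX_pr2 σ i hud B hB, h0]
      rfl
    · intro x _
      have h1 : (nX (parT k (Ξ × Q)) B h t (pr2 i u δ (gl2 i u δ hx o))).2 =
          code (RO k Θ Q u δ) (th (gl2 i u δ hx o), res (oth u δ) (vm (gl2 i u δ hx o))) := rfl
      have h2 := nX_pr2 σ i hud B hB h t (gl2 i u δ hx o)
      rw [h0] at h1 h2
      show ((dec (RO k Θ Q u δ) r0 (nX (parT k (Ξ × Q)) B h t o).2).2, ((dec (RO k Θ Q u δ) r0
        (nX (parT k (Ξ × Q)) B h t o).2).1, (nX (parT k (Ξ × Q)) B h t o).1)) = _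
      rw [h1, dec_code, h2]
      rfl
    · intro x hx'
      exact (Prod.ext_iff.mp hx').2
    · intro y hy
      exact ⟨((y.1, y.2.1), y.2.2), Prod.ext rfl hy, rfl⟩
    · intro x x' _ _ he
      have h1 := (Prod.ext_iff.mp he).1
      have h2 := (Prod.ext_iff.mp he).2
      have h3 := (Prod.ext_iff.mp h2).1
      have h4 := (Prod.ext_iff.mp h2).2
      exact Prod.ext (Prod.ext h1 h3) h4
  · refine ⟨fun t ht o y0 => ?_⟩
    obtain ⟨ω, w1, w2, w3, w4⟩ := exists_node2 σ i hud B hB h t o y0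
    refine ⟨ω, flr (ex N t - (h + 3)) y0.2, ?_, ?_, ?_, ?_, ?_⟩
    · funext v
      show rho h (ex N t) (Gm σ h (ex N t) ω).1 v = rho h (N - t) (nY (parT k (Ξ × Q)) B h t o).1.1 v
      rw [w4]
      rfl
    · intro y hy
      have h1 : y.1.1 = y0.1.1 := code_inj (Prod.ext_iff.mp hy).1
      show (y.1.1.2, (y.1.1.1, (nY (parT k (Ξ × Q)) B h t o).1)) = (res (oth u δ) (vm ω), (th ω, Gm σ h (ex N t) ω))
      rw [h1, w1, w2, w4]
    · intro y hy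
      exact (Prod.ext_iff.mp hy).2
    · intro y hy
      exact ⟨((y0.1.1, y.1), y.2), Prod.ext rfl hy, rfl⟩
    · intro y y' hy hy' he
      have h1 : y.1.1 = y0.1.1 := code_inj (Prod.ext_iff.mp hy).1
      have h1' : y'.1.1 = y0.1.1 := code_inj (Prod.ext_iff.mp hy').1
      have h3 := (Prod.ext_iff.mp he).1
      have h4 := (Prod.ext_iff.mp he).2
      exact Prod.ext (Prod.ext (h1.trans h1'.symm) h3) h4

end

end Pool.Agent.GM
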