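import Pool.Agent.GM.LM1

/-!
# GM/LM2 (helper96): Lemma M' at the exact values of all vertices but two, in the format of GMN/Tj

The same as `LM1m` with the vertices `u`, `δ` as families on `{u}`, `{δ}`.
-/

set_option autoImplicit false
set_option linter.unusedSectionVars false

namespace Pool.Agent.GM

open Finset Pool.Agent.PWZ Pool.Agent.M3 Pool.Agent.M3.Bin
open Pool.Agent.M3.S2

noncomputable section

variable {ι Om Ξ Pt W Γ κ : Type} [Fintype ι] [DecidableEq ι] [Fintype Om] [Fintype Ξ] [Fintype Pt] [Fintype W]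

/-- vertices as families on singletons -/
theorem LM_res (S : Sys ι Om Ξ Pt W Γ κ) {u δ : ι}
    (H : LM S.P (fun w => (S.xi w, S.x w u)) (fun w => S.x w δ) S.n (fun t w => (res (oth u δ) (S.x w), S.gm t w))
      (fun t w => (res (oth u δ) (S.x w), S.gm t w)) (fun t x => S.cl t x.2) S.cl (fun t g => S.ρ t g.2)
      (fun t g => S.ρ t g.2) S.J S.near S.K) :
    LM S.P (fun w => (S.xi w, res {u} (S.x w))) (fun w => res {δ} (S.x w)) S.n
      (fun t w => (res (univ \ {u, δ}) (S.x w), S.gm t w)) (fun t w => (res (univ \ {u, δ}) (S.x w), S.gm t w))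
      (fun t y i => S.cl t (y.2 i)) (fun t y i => S.cl t (y i)) (fun t g => S.ρ t g.2) (fun t g => S.ρ t g.2)
      S.J S.near S.K := by
  have hu : ∀ i : {i // i ∈ ({u} : Finset ι)}, i.1 = u := fun i => mem_singleton.1 i.2
  have hd : ∀ i : {i // i ∈ ({δ} : Finset ι)}, i.1 = δ := fun i => mem_singleton.1 i.2
  refine LM_map (P := S.P) (P' := S.P) id (fun f => rfl) H le_rfl (by linarith [S.K1]) le_rfl
    (fun x => (x.1, fun _ => x.2)) (fun y _ => y) (fun _ g _ => g) (fun _ g _ => g)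
    (fun w => ?_) (fun w => ?_) (fun _ _ => rfl) (fun _ _ => rfl) (fun _ _ => rfl) ?_ ?_
  · refine Prod.ext rfl ?_
    funext i
    show S.x w u = S.x w i.1
    rw [hu i]
  · funext i
    show S.x w δ = S.x w i.1
    rw [hd i]
  · refine ⟨fun t _ w x0 => ⟨w, fun _ => S.cl t x0.2, rfl, fun _ _ => rfl, fun x hx => ?_, fun y hy => ?_, ?_⟩⟩
    · funext i
      exact hx
    · refine ⟨(y.1, y.2 ⟨u, mem_singleton_self u⟩), congrFun hy ⟨u, mem_singleton_self u⟩, Prod.ext rfl ?_⟩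
      funext i
      have h1 : i = ⟨u, mem_singleton_self u⟩ := Subtype.ext (hu i)
      show y.2 ⟨u, mem_singleton_self u⟩ = y.2 i
      rw [h1]
    · intro x x' _ _ hxx
      obtain ⟨h1, h2⟩ := Prod.ext_iff.mp hxx
      exact Prod.ext h1 (congrFun h2 ⟨u, mem_singleton_self u⟩)
  · refine ⟨fun t _ w x0 => ⟨w, fun _ => S.cl t x0, rfl, fun _ _ => rfl, fun x hx => ?_, fun y hy => ?_, ?_⟩⟩
    · funext i
      exact hx
    · refine ⟨y ⟨δ, mem_singleton_self δ⟩, congrFun hy ⟨δ, mem_singleton_self δ⟩, ?_⟩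
      funext i
      have h1 : i = ⟨δ, mem_singleton_self δ⟩ := Subtype.ext (hd i)
      show y ⟨δ, mem_singleton_self δ⟩ = y i
      rw [h1]
    · intro x x' _ _ hxx
      exact congrFun hxx ⟨δ, mem_singleton_self δ⟩

variable {k N : ℕ} {Θ Q : Type} (σ : V k) [Fintype Θ] [Nonempty Θ] [Nonempty Ξ] [Fintype Q] [Nonempty Q]

/-- **Lemma M' at exact values of all vertices but `u` and `δ`**, binary model -/
theorem LM2m {u δ : ι} (hud : u ≠ δ) (i : ι) (hN : N ≤ k) (h : ℕ)
    (S : Sys ι (Sq k N ι Θ (Ξ × Q)) Ξ (Q × V k) (V k) (Θ × (V k × ℕ)) (V k))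
    (hS : S = binSys Θ Ξ Q σ i hN h) :
    LM S.P (fun w => (S.xi w, res {u} (S.x w))) (fun w => res {δ} (S.x w)) S.n
      (fun t w => (res (univ \ {u, δ}) (S.x w), S.gm t w)) (fun t w => (res (univ \ {u, δ}) (S.x w), S.gm t w))
      (fun t y i => S.cl t (y.2 i)) (fun t y i => S.cl t (y i)) (fun t g => S.ρ t g.2) (fun t g => S.ρ t g.2)
      S.J S.near S.K :=
  LM_res S (LM1m σ hud i hN h S hS)

end

end Pool.Agent.GM
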