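import Pool.Agent.GMN.TjSMI
import Pool.Agent.GM.End

/-!
# GM/MI (helper2) : the theorem of section 5 from the strong moving form

* `PcD L m0` : the pieces of the late layers as moving faces of `binSys Unit Unit Unit` (input, from `GM/PcMov`);
* `num_late` : the numbers of late layers;
* **`sec5_of_smi`** : `SMIbin (n + 2) C → Sec5 n`.
-/

set_option autoImplicit false
set_option linter.unusedSectionVars false

namespace Pool.Agent.GM

open Finset Pool.Agent.PWZ Pool.Agent.M3 Pool.Agent.M3.TS Pool.Agent.M3.Bin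
open Pool.Agent.M3.Mod (ex nd av dl pnd SC cel abs_av_le)

noncomputable section

/-- the moving faces of a piece of the layer `l`: bounded by one, at most `m0` future moves in mean from every state,
rare with the numbers of the layer; the process is the piece up to a constant -/
structure PcF {m : ℕ} [Nontrivial (Fin m)] (L : LayE) {k N : ℕ} (hN : N ≤ k)
    (F : Fin m → (Fin m → Unit × V k) → V k → ℝ) (l : ℕ) (q : Fin m) (m0 : ℝ)
    (Ψ : Fin m → Mov Unit (Fin m) (Unit × V k) (Unit × (V k × ℕ)) (V k → ℝ)) : Prop where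
  dep : ∀ i t g ξ, Dep (univ.erase i) (Ψ i t g ξ)
  bd : ∀ i t g ξ x d, |Ψ i t g ξ x d| ≤ 1
  zero : ∀ i g ξ x, Ψ i 0 g ξ x = 0
  fut : ∀ i, (binSys Unit Unit Unit 0 q hN (L.lh (l + 1))).Future (univ.erase i) (Ψ i) m0
  rare : ∀ i, (binSys Unit Unit Unit 0 q hN (L.lh (l + 1))).Rare univ i (Ψ i) (L.tp m l) (L.rp m l)
  val : ∀ r : ℝ, (Pm : FP (Sq k N (Fin m) Unit Unit)).Pr (fun ω => ∃ e < N, 2 ^ m * r ≤ |pcp L k N F l q e ω|) ≤
    (binSys Unit Unit Unit 0 q hN (L.lh (l + 1))).P.Pr (fun ω => ∃ t ≤ N, r ≤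
      |iw ((binSys Unit Unit Unit 0 q hN (L.lh (l + 1))).J t ω)
        (fun d => ∏ i, (binSys Unit Unit Unit 0 q hN (L.lh (l + 1))).at' (Ψ i) t ω d) (fun _ => 1)|)

/-- all pieces of all layers have moving faces -/
def PcD (m : ℕ) [Nontrivial (Fin m)] : Prop :=
  ∀ (L : LayE) (k N : ℕ) (hN : N ≤ k) (F : Fin m → (Fin m → Unit × V k) → V k → ℝ), Faces F → ∀ (l : ℕ) (q : Fin m),
    ∃ Ψ, PcF L hN F l q (1 + 16 / L.lep (l + 1) ^ 2) Ψ

/-! ### numbers -/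

theorem pow_two_clog_le (n : ℕ) (hn : 1 ≤ n) : (2 : ℝ) ^ Nat.clog 2 n ≤ 2 * n := by
  rcases Nat.lt_or_ge 1 n with h | h
  · have h1 := Nat.pow_pred_clog_lt_self (b := 2) (by norm_num) h
    have h2 : 0 < Nat.clog 2 n := Nat.clog_pos (by norm_num) h
    obtain ⟨p, hp⟩ : ∃ p, Nat.clog 2 n = p + 1 := ⟨Nat.clog 2 n - 1, by omega⟩
    rw [hp] at h1 ⊢
    have h3 : Nat.pred (p + 1) = p := rfl
    rw [h3] at h1
    rw [pow_succ]
    have h4 : ((2 : ℝ) ^ p) ≤ n := by exact_mod_cast h1.le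
    linarith
  · have h1 : n = 1 := by omega
    subst h1
    norm_num

/-- the parameters of the layers -/
def miL (m C : ℕ) : LayE :=
  mkLayE (2 * C + 1) 1 (1 / (9 * 2 ^ m)) (by omega) one_pos (by positivity) (by
    rw [div_le_one (by positivity)]
    have : (1 : ℝ) ≤ 2 ^ m := one_le_pow₀ (by norm_num)
    linarith)

theorem miL_lep (m C l : ℕ) : (miL m C).lep l = 1 / (9 * 2 ^ m) / ((l : ℝ) + 1) ^ (2 * C + 1) := rfl

theorem miL_lh (m C l : ℕ) : (miL m C).lh l = (miL m C).a + 2 * (2 * C + 1) * Nat.clog 2 (l + 1) := rfl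

theorem beta_pow (C l : ℕ) : (1 / ((l : ℝ) + 1) ^ 2) ^ C = 1 / ((l : ℝ) + 1) ^ (2 * C) := by
  rw [div_pow, one_pow, ← pow_mul]

/-- constants times a power against the next power -/
theorem ev_const (A : ℝ) : ∀ᶠ l : ℕ in Filter.atTop, A ≤ (l : ℝ) + 2 := by
  have h1 : Filter.Tendsto (fun l : ℕ => (l : ℝ) + 2) Filter.atTop Filter.atTop :=
    Filter.tendsto_atTop_add_const_right _ _ tendsto_natCast_atTop_atTop
  exact h1.eventually_ge_atTop A

theorem ev_pow (A : ℝ) (hA : 0 ≤ A) (D : ℕ) : ∀ᶠ l : ℕ in Filter.atTop, ((l : ℝ) + 2) ^ D + A ≤ 2 ^ l := by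
  have h1 : Filter.Tendsto (fun n : ℕ => (n : ℝ) ^ D / (2 : ℝ) ^ n) Filter.atTop (nhds 0) :=
    tendsto_pow_const_div_const_pow_of_one_lt D (by norm_num)
  have h2 : Filter.Tendsto (fun l : ℕ => l + 2) Filter.atTop Filter.atTop := Filter.tendsto_add_atTop_nat 2
  have h3 := (h1.comp h2).eventually_lt_const (show (0 : ℝ) < 1 / (4 * (1 + A)) by positivity)
  refine h3.mono fun l hl => ?_
  have h4 : ((l : ℝ) + 2) ^ D / 2 ^ (l + 2) < 1 / (4 * (1 + A)) := by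
    have := hl
    simp only [Function.comp] at this
    push_cast at this
    exact this
  rw [div_lt_div_iff₀ (by positivity) (by positivity), one_mul, pow_add] at h4
  have h5 : (1 : ℝ) ≤ ((l : ℝ) + 2) ^ D := one_le_pow₀ (by linarith [Nat.cast_nonneg (α := ℝ) l])
  nlinarith

/-- the numbers of late layers -/
theorem num_late (m C : ℕ) : ∀ᶠ l : ℕ in Filter.atTop,
    (((m + 4) * 2 ^ ((miL m C).lh (l + 1) + 3) : ℕ) : ℝ) ≤ ((l : ℝ) + 2) ^ (4 * C + 3) ∧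
    8 * ((2 : ℝ) ^ (miL m C).lh (l + 1))⁻¹ ≤ (1 / ((l : ℝ) + 1) ^ 2) ^ C ∧
    (miL m C).tp m l ≤ Real.exp (-(((l : ℝ) + 2) ^ (4 * C + 3)) ^ C) ∧
    (miL m C).rp m l ≤ (1 / ((l : ℝ) + 1) ^ 2) ^ C ∧
    1 + 16 / (miL m C).lep (l + 1) ^ 2 ≤ ((l : ℝ) + 2) ^ (4 * C + 3) := by
  set L := miL m C with hL
  have h2m : (1 : ℝ) ≤ 2 ^ m := one_le_pow₀ (by norm_num)
  have e1 := ev_const (((m : ℝ) + 4) * 8 * 2 ^ L.a * 2 ^ (4 * C + 2))
  have e2 := ev_const (1 + 16 * (9 * 2 ^ m) ^ 2)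
  have e3 := ev_pow ((2 * (2 * C + 1) * (m - 1) + 1 : ℕ) * Real.log 2) (by positivity) ((4 * C + 3) * C)
  filter_upwards [e1, e2, e3] with l g1 g2 g3
  have hx : (1 : ℝ) ≤ (l : ℝ) + 2 := by linarith [Nat.cast_nonneg (α := ℝ) l]
  have hx0 : (0 : ℝ) < (l : ℝ) + 2 := by linarith
  have hy : (1 : ℝ) ≤ (l : ℝ) + 1 := by linarith [Nat.cast_nonneg (α := ℝ) l]
  have hlep : L.lep (l + 1) = 1 / (9 * 2 ^ m) / ((l : ℝ) + 2) ^ (2 * C + 1) := by
    rw [hL, miL_lep]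
    push_cast
    congr 2
    ring
  refine ⟨?_, ?_, ?_, ?_, ?_⟩
  · have h1 : (2 : ℝ) ^ L.lh (l + 1) ≤ 2 ^ L.a * (2 ^ (4 * C + 2) * ((l : ℝ) + 2) ^ (4 * C + 2)) := by
      have h2 : L.lh (l + 1) = L.a + (4 * C + 2) * Nat.clog 2 (l + 2) := by
        rw [hL, miL_lh]
        congr 2
        ring
      rw [h2, pow_add, ← mul_pow]
      refine mul_le_mul_of_nonneg_left ?_ (by positivity)
      rw [mul_comm (4 * C + 2), pow_mul]
      refine pow_le_pow_left₀ (by positivity) ?_ _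
      have h3 := pow_two_clog_le (l + 2) (by omega)
      push_cast at h3
      exact h3
    have h4 : (((m + 4) * 2 ^ (L.lh (l + 1) + 3) : ℕ) : ℝ) ≤ ((l : ℝ) + 2) ^ (4 * C + 3) := by
      push_cast
      rw [pow_add]
      calc ((m : ℝ) + 4) * (2 ^ L.lh (l + 1) * 2 ^ 3)
          ≤ ((m : ℝ) + 4) * ((2 ^ L.a * (2 ^ (4 * C + 2) * ((l : ℝ) + 2) ^ (4 * C + 2))) * 2 ^ 3) := by
            refine mul_le_mul_of_nonneg_left ?_ (by positivity)
            exact mul_le_mul_of_nonneg_right h1 (by norm_num)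
        _ = ((m : ℝ) + 4) * 8 * 2 ^ L.a * 2 ^ (4 * C + 2) * ((l : ℝ) + 2) ^ (4 * C + 2) := by ring
        _ ≤ ((l : ℝ) + 2) * ((l : ℝ) + 2) ^ (4 * C + 2) := mul_le_mul_of_nonneg_right g1 (by positivity)
        _ = ((l : ℝ) + 2) ^ (4 * C + 3) := by rw [pow_succ _ (4 * C + 2)]; ring
    exact h4
  · rw [beta_pow]
    have h1 := L.rd1 (l + 1)
    have h2 : 0 < ((2 : ℝ) ^ L.lh (l + 1))⁻¹ := by positivity
    have h3 : L.lep (l + 1) ≤ 1 / ((l : ℝ) + 1) ^ (2 * C) := by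
      rw [hlep, div_div]
      refine one_div_le_one_div_of_le (by positivity) ?_
      have h4 : ((l : ℝ) + 1) ^ (2 * C) ≤ ((l : ℝ) + 2) ^ (2 * C + 1) :=
        (pow_le_pow_left₀ (by positivity) (by linarith) _).trans (pow_le_pow_right₀ hx (by omega))
      have h5 : 0 ≤ ((l : ℝ) + 2) ^ (2 * C + 1) := by positivity
      nlinarith
    linarith
  · unfold LayE.tp LayE.lth
    have h1 : L.kap = 1 := rfl
    have h2 : L.E = 2 * C + 1 := rfl
    rw [h1, h2]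
    have h3 : (2 : ℝ) ^ (2 * (2 * C + 1) * (m - 1) + 1) =
        Real.exp ((2 * (2 * C + 1) * (m - 1) + 1 : ℕ) * Real.log 2) := by
      rw [← Real.log_pow, Real.exp_log (by positivity)]
    rw [h3, ← Real.exp_add, Real.exp_le_exp, ← pow_mul]
    have h4 : (1 + 1 : ℝ) = 2 := by norm_num
    rw [h4]
    linarith
  · rw [beta_pow]
    unfold LayE.rp
    rw [hL, miL_lep]
    have h1 : (2 : ℝ) ^ (m - 1) ≤ 2 ^ m := pow_le_pow_right₀ (by norm_num) (Nat.sub_le _ _)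
    have h2 : 9 * (2 : ℝ) ^ (m - 1) * (1 / (9 * 2 ^ m) / ((l : ℝ) + 1) ^ (2 * C + 1)) =
        (2 ^ (m - 1) / 2 ^ m) * (1 / ((l : ℝ) + 1) ^ (2 * C + 1)) := by
      field_simp
    rw [h2]
    have h3 : (2 : ℝ) ^ (m - 1) / 2 ^ m ≤ 1 := (div_le_one (by positivity)).2 h1
    have h4 : 1 / ((l : ℝ) + 1) ^ (2 * C + 1) ≤ 1 / ((l : ℝ) + 1) ^ (2 * C) :=
      one_div_le_one_div_of_le (by positivity) (pow_le_pow_right₀ hy (by omega))
    have h5 : (0 : ℝ) < 1 / ((l : ℝ) + 1) ^ (2 * C + 1) := by positivity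
    nlinarith
  · rw [hlep]
    have h1 : 16 / (1 / (9 * (2 : ℝ) ^ m) / ((l : ℝ) + 2) ^ (2 * C + 1)) ^ 2 =
        16 * (9 * 2 ^ m) ^ 2 * ((l : ℝ) + 2) ^ (4 * C + 2) := by
      have h2 : ((l : ℝ) + 2) ^ (4 * C + 2) = (((l : ℝ) + 2) ^ (2 * C + 1)) ^ 2 := by
        rw [← pow_mul]
        congr 1
        ring
      rw [h2]
      field_simp
    rw [h1]
    have h3 : (1 : ℝ) ≤ ((l : ℝ) + 2) ^ (4 * C + 2) := one_le_pow₀ hx
    calc 1 + 16 * (9 * (2 : ℝ) ^ m) ^ 2 * ((l : ℝ) + 2) ^ (4 * C + 2)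
        ≤ (1 + 16 * (9 * 2 ^ m) ^ 2) * ((l : ℝ) + 2) ^ (4 * C + 2) := by linarith
      _ ≤ ((l : ℝ) + 2) * ((l : ℝ) + 2) ^ (4 * C + 2) := mul_le_mul_of_nonneg_right g2 (by positivity)
      _ = ((l : ℝ) + 2) ^ (4 * C + 3) := by rw [pow_succ _ (4 * C + 2)]; ring

/-- **the theorem of section 5 from the strong moving form** -/
theorem sec5_of_smi {n C : ℕ} (hP : PcD (n + 2)) (H : GMN.SMIbin (n + 2) C) : Sec5 n := by
  obtain ⟨l1, hl1⟩ := Filter.eventually_atTop.1 (num_late (n + 2) C)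
  refine ⟨miL (n + 2) C, max l1 1, fun l => 2 ^ (n + 2) * (1 / ((l : ℝ) + 1) ^ 2),
    fun l => Real.exp (-((l : ℝ) + 2) ^ (4 * C + 3)), ?_, ?_, ?_, ?_, ?_⟩
  · refine Summable.mul_left _ ?_
    have h1 := (summable_nat_add_iff (f := fun l : ℕ => 1 / (l : ℝ) ^ 2) 1).2
      (Real.summable_one_div_nat_pow.2 (by norm_num))
    refine h1.congr fun l => ?_
    push_cast
    rfl
  · intro l
    positivity
  · refine Summable.of_nonneg_of_le (fun l => (Real.exp_pos _).le) (fun l => ?_) Real.summable_exp_neg_nat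
    refine Real.exp_le_exp.2 (neg_le_neg ?_)
    have h1 : (1 : ℝ) ≤ (l : ℝ) + 2 := by linarith [Nat.cast_nonneg (α := ℝ) l]
    calc (l : ℝ) ≤ ((l : ℝ) + 2) ^ 1 := by rw [pow_one]; linarith
      _ ≤ ((l : ℝ) + 2) ^ (4 * C + 3) := pow_le_pow_right₀ h1 (by omega)
  · intro l
    exact (Real.exp_pos _).le
  · intro l hl k N hN F hF q
    obtain ⟨h1, h2, h3, h4, h5⟩ := hl1 l ((le_max_left _ _).trans hl)
    have hl' : 1 ≤ l := (le_max_right _ _).trans hl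
    have hlr : (1 : ℝ) ≤ l := by exact_mod_cast hl'
    obtain ⟨Ψ, hΨ⟩ := hP (miL (n + 2) C) k N hN F hF l q
    have h6 := H (Fin (n + 2)) Unit Unit Unit k N 0 q q hN ((miL (n + 2) C).lh (l + 1)) (Fintype.card_fin _)
      (1 / ((l : ℝ) + 1) ^ 2) (((l : ℝ) + 2) ^ (4 * C + 3)) (by positivity) (by
        rw [div_le_div_iff₀ (by positivity) (by norm_num)]
        nlinarith) (by
        rw [one_div_one_div]
        calc ((l : ℝ) + 1) ^ 2 ≤ ((l : ℝ) + 2) ^ 2 := pow_le_pow_left₀ (by positivity) (by linarith) 2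
          _ ≤ ((l : ℝ) + 2) ^ (4 * C + 3) := pow_le_pow_right₀ (by linarith) (by omega)) (by
        refine le_trans (le_of_eq ?_) (h1.trans ?_)
        · show (((Fintype.card (Fin (n + 2)) + 4) * 2 ^ ((miL (n + 2) C).lh (l + 1) + 3) : ℕ) : ℝ) = _
          rw [Fintype.card_fin]
        · linarith [Real.add_one_le_exp (((l : ℝ) + 2) ^ (4 * C + 3))]) h2 Ψ (fun w _ => hΨ.dep w) (fun w _ _ t g ξ ξ' => rfl) (fun w _ => hΨ.bd w)
        (fun w _ => hΨ.zero w) (fun w _ => ?_) (fun w _ => ?_)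
    · exact (hΨ.val _).trans h6
    · intro t φ hφ hφ0
      exact (hΨ.fut w t φ hφ hφ0).trans (mul_le_mul_of_nonneg_right h5 (FP.E_nonneg _ fun ω _ => hφ0 ω))
    · intro t ht w0 y u hu hu1
      refine le_trans (Finset.sum_le_sum fun ξ _ => Finset.sum_le_sum fun z _ => ind_mono fun h => ⟨h.1, h4.trans h.2⟩)
        ((hΨ.rare w t ht w0 y u hu hu1).trans ?_)
      exact mul_le_mul_of_nonneg_right h3 (Finset.sum_nonneg fun _ _ => Finset.sum_nonneg fun _ _ => ind_nonneg _)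

end

end Pool.Agent.GM
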