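import Pool.Agent.GM.MI
import Pool.Agent.GM.PcMov
import Pool.Agent.GM.GSpar

/-!
# GM/MI0 (helper2) : the theorem of section 5 from the coin free strong moving form

* **`sec5_of_smi0`** : `GS.SMIbin0 (n + 2) C → Sec5 n`, no further input (faces of the pieces: `GM/PcMov`).
-/

set_option autoImplicit false
set_option linter.unusedSectionVars false

namespace Pool.Agent.GM

open Finset Pool.Agent.PWZ Pool.Agent.M3 Pool.Agent.M3.TS Pool.Agent.M3.Bin
open Pool.Agent.M3.Mod (ex nd av dl pnd SC cel abs_av_le)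

noncomputable section

/-- the numbers of late layers: future moves of the faces of `GM/PcMov` -/
theorem num_late0 (m C : ℕ) : ∀ᶠ l : ℕ in Filter.atTop,
    PcM.mL (miL m C) l ≤ ((l : ℝ) + 2) ^ (4 * C + 3) ∧ 3 * (miL m C).lep l ≤ (1 / ((l : ℝ) + 1) ^ 2) ^ C := by
  set L := miL m C with hL
  have h2m : (1 : ℝ) ≤ 2 ^ m := one_le_pow₀ (by norm_num)
  have e2 := ev_const (2 ^ (2 * (2 * C + 1) + 2) * (64 * (9 * 2 ^ m) ^ 2 + 1))
  filter_upwards [e2] with l g2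
  have hx : (1 : ℝ) ≤ (l : ℝ) + 2 := by linarith [Nat.cast_nonneg (α := ℝ) l]
  have hy : (1 : ℝ) ≤ (l : ℝ) + 1 := by linarith [Nat.cast_nonneg (α := ℝ) l]
  constructor
  · have hlep : L.lep (l + 1) = 1 / (9 * 2 ^ m) / ((l : ℝ) + 2) ^ (2 * C + 1) := by
      rw [hL, miL_lep]
      push_cast
      congr 2
      ring
    have hE : L.E = 2 * C + 1 := rfl
    unfold PcM.mL
    rw [hlep, hE]
    have h1 : 64 / (3 * (1 / (9 * (2 : ℝ) ^ m) / ((l : ℝ) + 2) ^ (2 * C + 1)) ^ 2) =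
        64 / 3 * (9 * 2 ^ m) ^ 2 * ((l : ℝ) + 2) ^ (4 * C + 2) := by
      have h2 : ((l : ℝ) + 2) ^ (4 * C + 2) = (((l : ℝ) + 2) ^ (2 * C + 1)) ^ 2 := by
        rw [← pow_mul]
        congr 1
        ring
      rw [h2]
      field_simp
    rw [h1]
    have h3 : (1 : ℝ) ≤ ((l : ℝ) + 2) ^ (4 * C + 2) := one_le_pow₀ hx
    have h4 : (0 : ℝ) ≤ (9 * (2 : ℝ) ^ m) ^ 2 := by positivity
    calc (2 : ℝ) ^ (2 * (2 * C + 1) + 2) * (64 / 3 * (9 * 2 ^ m) ^ 2 * ((l : ℝ) + 2) ^ (4 * C + 2) + 1)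
        ≤ 2 ^ (2 * (2 * C + 1) + 2) * ((64 * (9 * 2 ^ m) ^ 2 + 1) * ((l : ℝ) + 2) ^ (4 * C + 2)) := by
          refine mul_le_mul_of_nonneg_left ?_ (by positivity)
          nlinarith [mul_nonneg h4 (le_trans zero_le_one h3)]
      _ = 2 ^ (2 * (2 * C + 1) + 2) * (64 * (9 * 2 ^ m) ^ 2 + 1) * ((l : ℝ) + 2) ^ (4 * C + 2) := by ring
      _ ≤ ((l : ℝ) + 2) * ((l : ℝ) + 2) ^ (4 * C + 2) := mul_le_mul_of_nonneg_right g2 (by positivity)
      _ = ((l : ℝ) + 2) ^ (4 * C + 3) := by rw [pow_succ _ (4 * C + 2)]; ring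
  · rw [beta_pow, hL, miL_lep]
    have h4 : 1 / ((l : ℝ) + 1) ^ (2 * C + 1) ≤ 1 / ((l : ℝ) + 1) ^ (2 * C) :=
      one_div_le_one_div_of_le (by positivity) (pow_le_pow_right₀ hy (by omega))
    have h5 : (0 : ℝ) < 1 / ((l : ℝ) + 1) ^ (2 * C + 1) := by positivity
    have h6 : 3 * (1 / (9 * 2 ^ m) / ((l : ℝ) + 1) ^ (2 * C + 1)) =
        (1 / (3 * 2 ^ m)) * (1 / ((l : ℝ) + 1) ^ (2 * C + 1)) := by
      field_simp
      norm_num
    rw [h6]
    have h7 : 1 / (3 * (2 : ℝ) ^ m) ≤ 1 := by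
      rw [div_le_one (by positivity)]
      linarith
    nlinarith

/-- **the theorem of section 5 from the coin free strong moving form** -/
theorem sec5_of_smi0 {n C : ℕ} (H : GS.SMIbin0 (n + 2) C) : Sec5 n := by
  obtain ⟨l1, hl1⟩ := Filter.eventually_atTop.1 ((num_late (n + 2) C).and (num_late0 (n + 2) C))
  refine ⟨miL (n + 2) C, max l1 1, fun l => 4 ^ (n + 2) * (1 / ((l : ℝ) + 1) ^ 2),
    fun l => Real.exp (-((l : ℝ) + 2) ^ (4 * C + 3)), ?_, ?_, ?_, ?_, ?_⟩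
  · refine Summable.mul_left _ ?_
    have h1 := (summable_nat_add_iff (f := fun l : ℕ => 1 / (l : ℝ) ^ 2) 1).2
      (Real.summable_one_div_nat_pow.2 (by norm_num))
    refine h1.congr fun l => ?_
    push_cast
    rfl
  · intro l
    positivity
  · refine Summable.of_nonneg_of_le (fun l => (Real.exp_pos _).le) (fun l => ?_) Real.summable_exp_neg_nat
    refine Real.exp_le_exp.2 (neg_le_neg ?_)
    have h1 : (1 : ℝ) ≤ (l : ℝ) + 2 := by linarith [Nat.cast_nonneg (α := ℝ) l]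
    calc (l : ℝ) ≤ ((l : ℝ) + 2) ^ 1 := by rw [pow_one]; linarith
      _ ≤ ((l : ℝ) + 2) ^ (4 * C + 3) := pow_le_pow_right₀ h1 (by omega)
  · intro l
    exact (Real.exp_pos _).le
  · intro l hl k N hN F hF q
    obtain ⟨⟨h1, h2, h3, -, -⟩, h5, h4⟩ := hl1 l ((le_max_left _ _).trans hl)
    have hl' : 1 ≤ l := (le_max_right _ _).trans hl
    have hlr : (1 : ℝ) ≤ l := by exact_mod_cast hl'
    have hΨ := PcM.pc_faces (Θ := Unit) (Ξ := Unit) (N := N) (0 : V k) (miL (n + 2) C) q hN hF q q l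
    have h6 := H (Fin (n + 2)) Unit Unit k N 0 q q hN ((miL (n + 2) C).lh (l + 1)) (Fintype.card_fin _)
      (1 / ((l : ℝ) + 1) ^ 2) (((l : ℝ) + 2) ^ (4 * C + 3)) (by positivity) (by
        rw [div_le_div_iff₀ (by positivity) (by norm_num)]
        nlinarith) (by
        rw [one_div_one_div]
        calc ((l : ℝ) + 1) ^ 2 ≤ ((l : ℝ) + 2) ^ 2 := pow_le_pow_left₀ (by positivity) (by linarith) 2
          _ ≤ ((l : ℝ) + 2) ^ (4 * C + 3) := pow_le_pow_right₀ (by linarith) (by omega)) (by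
        refine le_trans (le_of_eq ?_) (h1.trans ?_)
        · show (((Fintype.card (Fin (n + 2)) + 4) * 2 ^ ((miL (n + 2) C).lh (l + 1) + 3) : ℕ) : ℝ) = _
          rw [Fintype.card_fin]
        · linarith [Real.add_one_le_exp (((l : ℝ) + 2) ^ (4 * C + 3))]) h2
        (PcM.pF Unit Unit N (miL (n + 2) C) F l q) (fun w hw => hΨ.dep w hw) (fun w hw h => hΨ.coin w hw h)
        (fun w hw => hΨ.bd w hw) (fun w hw => hΨ.zero w hw) (fun w hw => ?_) (fun w hw => ?_)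
    · refine (PcM.pc_Pr (Θ := Unit) (Ξ := Unit) (0 : V k) (miL (n + 2) C) q hN l q
        (4 ^ (n + 2) * (1 / ((l : ℝ) + 1) ^ 2))).trans ?_
      refine le_trans (le_of_eq ?_) h6
      have h7 : (4 : ℝ) ^ (n + 2) * (1 / ((l : ℝ) + 1) ^ 2) / 4 ^ (n + 2) = 1 / ((l : ℝ) + 1) ^ 2 := by
        field_simp
      rw [h7]
      rfl
    · exact Sys.Future.mono _ (hΨ.fut w hw) h5
    · exact Sys.Rare.mono _ (hΨ.rare w hw) h3 h4

end

end Pool.Agent.GM
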