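import Pool.Agent.GM.Sq2

/-!
# GM/Model : families, product tests, the process, for every finite set of vertices (row E2 of table gm), helper11

CONVENTION: an object of a set `I` of vertices is a function of ALL vertices `x : ι → P × V k` together with the
hypothesis `DependsOn _ I` (Mathlib): no subtypes of subtypes.

* `Fam k ι P` : moving family (exponent, rounded node, all vertices, argument); `FOn I R` : it is a function of `x_I`;
  the face `i` is `FOn {i}ᶜ R`;
* `SCm h e c` : product of small cells;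
* `PT i h N R θ r H` : PRODUCT TESTS of the face `i` at all rounded nodes and all small cells; the tests are products
  of functions `v w`, `w ≠ i`, which miss the vertices `i` and `w`;
* `fv`, `TT` : value of a family at a sample point, the process of the families; `XX` : the process of functions;
* `freeMap s i` : the free law of the face opposite to the vertex `i` (input of `M3/S1Fam`).
-/

set_option autoImplicit false
set_option linter.unusedSectionVars false

namespace Pool.Agent.GM

open Finset Pool.Agent.PWZ Pool.Agent.M3 Pool.Agent.M3.Bin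
open Pool.Agent.M3.Mod (ex nd av dl pnd SC cel abs_av_le)

noncomputable section

variable {k N : ℕ} {ι Θ P : Type}

/-- a moving family: exponent, rounded node, all vertices, argument -/
abbrev Fam (k : ℕ) (ι P : Type) : Type := ℕ → V k × ℕ → (ι → P × V k) → V k → ℝ

/-- the family is a function of the vertices of `I` -/
def FOn (I : Set ι) (R : Fam k ι P) : Prop := ∀ e g, DependsOn (R e g) I

/-- all values are bounded by `H` -/
def FLe (H : ℝ) (R : Fam k ι P) : Prop := ∀ e g x d, |R e g x d| ≤ H

/-- a family at a finer rounding -/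
def fine (h : ℕ) (R : Fam k ι P) : Fam k ι P := fun e g x d => R e (coar h e g) x d

/-- forget the private randomness -/
def prV (x : ι → P × V k) : ι → Unit × V k := fun i => ((), (x i).2)

/-- a family without private randomness, in a model with private randomness -/
def liftF (R : Fam k ι Unit) : Fam k ι P := fun e g x d => R e g (prV x) d

/-- the functions of the faces: `F i` misses the vertex `i`, bounded by one -/
def Faces (F : ι → (ι → P × V k) → V k → ℝ) : Prop :=
  (∀ i, DependsOn (F i) ({i}ᶜ : Set ι)) ∧ ∀ i x d, |F i x d| ≤ 1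

theorem FOn.mono {I J : Set ι} {R : Fam k ι P} (h : FOn I R) (hIJ : I ⊆ J) : FOn J R := fun e g =>
  fun _ _ hxy => h e g fun i hi => hxy i (hIJ hi)

variable [Fintype ι] [DecidableEq ι]

/-- product of small cells (scale `e - (h+3)`) -/
def SCm [Fintype P] (h e : ℕ) (c : ι → V k) : Finset (ι → P × V k) :=
  Fintype.piFinset fun l => SC (P := P) h e (c l)

/-- PRODUCT TESTS of the face `i` at all rounded nodes and all small cells, tests bounded by `H` -/
def PT [Fintype P] (i : ι) (h N : ℕ) (R : Fam k ι P) (θ r H : ℝ) : Prop :=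
  ∀ e ≤ N, ∀ g : V k × ℕ, flr (e - h) g.1 = g.1 → ∀ (c : ι → V k) (v : ι → (ι → P × V k) → V k → ℝ),
    (∀ w, w ≠ i → DependsOn (v w) ({i, w}ᶜ : Set ι)) → (∀ w x d, |v w x d| ≤ H) →
    (((SCm (P := P) h e c).filter fun x =>
      r ≤ |av e g.1 (fun d => R e g x d * ∏ w ∈ univ.erase i, v w x d)|).card : ℝ) ≤
      θ * (SCm (P := P) h e c).card

/-- the value of a family at a sample point -/
def fv (s : V k) (h : ℕ) (R : Fam k ι P) (e : ℕ) (ω : Sq k N ι Θ P) : V k → ℝ := R e (Gm s h e ω) (vs ω)

/-- THE PROCESS of the families `R i`, `i : ι` -/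
def TT (s : V k) (h : ℕ) (R : ι → Fam k ι P) (e : ℕ) (ω : Sq k N ι Θ P) : ℝ :=
  av e (Yn s e ω).1 (fun d => ∏ i, fv s h (R i) e ω d)

/-- THE PROCESS of functions of the vertices -/
def XX (s : V k) (F : ι → (ι → P × V k) → V k → ℝ) (e : ℕ) (ω : Sq k N ι Θ P) : ℝ :=
  av e (Yn s e ω).1 (fun d => ∏ i, F i (vs ω) d)

theorem abs_TT_le (s : V k) {h : ℕ} {R : ι → Fam k ι P} {H : ℝ} (hR : ∀ i, FLe H (R i)) (e : ℕ)
    (ω : Sq k N ι Θ P) : |TT s h R e ω| ≤ H ^ Fintype.card ι := by
  refine abs_av_le e _ fun d => ?_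
  rw [Finset.abs_prod]
  calc ∏ i, |fv s h (R i) e ω d| ≤ ∏ _i : ι, H :=
        Finset.prod_le_prod (fun i _ => abs_nonneg _) fun i _ => hR i _ _ _ _
    _ = H ^ Fintype.card ι := by rw [Finset.prod_const, Finset.card_univ]

theorem mem_SCm [Fintype P] (h e : ℕ) (c : ι → V k) (x : ι → P × V k) :
    x ∈ SCm (P := P) h e c ↔ ∀ l, flr (e - (h + 3)) (x l).2 = flr (e - (h + 3)) (c l) := by
  unfold SCm SC
  rw [Fintype.mem_piFinset]
  simp

/-- the free law of the face opposite to the vertex `i` -/
def freeMap (s : V k) (N : ℕ) (Θ P : Type) [Fintype Θ] [Nonempty Θ] [Fintype P] [Nonempty P] (i : ι) :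
    FreeMap (Pm : FP (Sq k N ι Θ P)) ({j : ι // j ≠ i} → P × V k) k N where
  x := ot i
  z := ctr s
  w := nz
  law f := by
    unfold Pm
    rw [FP.unif_E]
    have h1 : ∑ ω : Sq k N ι Θ P, f (ot i ω) (ctr s ω) (nz ω) =
        ∑ q : (Θ × P × ({j : ι // j ≠ i} → P × V k)) × (V k × Fin (2 ^ N)), f q.1.2.2 q.2.1 q.2.2.val := by
      refine Fintype.sum_equiv (faceEquiv s i) _ _ (fun ω => rfl)
    have hcard : (Fintype.card (Sq k N ι Θ P) : ℝ) =
        Fintype.card Θ * Fintype.card P * Fintype.card ({j : ι // j ≠ i} → P × V k) * 2 ^ k * 2 ^ N := by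
      rw [Fintype.card_congr (faceEquiv s (k := k) (N := N) (Θ := Θ) (P := P) i)]
      rw [Fintype.card_prod, Fintype.card_prod, Fintype.card_prod, Fintype.card_prod, Fintype.card_fin, ZMod.card]
      push_cast
      ring
    rw [h1, hcard]
    have h2 : ∑ q : (Θ × P × ({j : ι // j ≠ i} → P × V k)) × (V k × Fin (2 ^ N)), f q.1.2.2 q.2.1 q.2.2.val =
        Fintype.card Θ * Fintype.card P *
          ∑ x : {j : ι // j ≠ i} → P × V k, ∑ z : V k, ∑ w ∈ range (2 ^ N), f x z w := by
      rw [Fintype.sum_prod_type, Fintype.sum_prod_type]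
      have h3 : ∀ t : Θ, ∑ y : P × ({j : ι // j ≠ i} → P × V k), ∑ y' : V k × Fin (2 ^ N),
          f (t, y).2.2 y'.1 y'.2.val = Fintype.card P *
            ∑ x : {j : ι // j ≠ i} → P × V k, ∑ z : V k, ∑ w ∈ range (2 ^ N), f x z w := by
        intro t
        rw [Fintype.sum_prod_type]
        have h4 : ∀ p : P, ∑ x : {j : ι // j ≠ i} → P × V k, ∑ y' : V k × Fin (2 ^ N),
            f (t, (p, x)).2.2 y'.1 y'.2.val =
            ∑ x : {j : ι // j ≠ i} → P × V k, ∑ z : V k, ∑ w ∈ range (2 ^ N), f x z w := by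
          intro p
          refine Finset.sum_congr rfl (fun x _ => ?_)
          rw [Fintype.sum_prod_type]
          refine Finset.sum_congr rfl (fun z _ => ?_)
          exact (Finset.sum_range (fun w => f x z w)).symm
        rw [Finset.sum_congr rfl (fun p _ => h4 p), Finset.sum_const, Finset.card_univ, nsmul_eq_mul]
      rw [Finset.sum_congr rfl (fun t _ => h3 t), Finset.sum_const, Finset.card_univ, nsmul_eq_mul]
      ring
    rw [h2]
    unfold E1
    have h5 : ∑ q : ({j : ι // j ≠ i} → P × V k) × V k, ∑ z : V k, ∑ w ∈ range (2 ^ N), f q.1 z w =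
        2 ^ k * ∑ x : {j : ι // j ≠ i} → P × V k, ∑ z : V k, ∑ w ∈ range (2 ^ N), f x z w := by
      rw [Fintype.sum_prod_type_right]
      simp only [Finset.sum_const, Finset.card_univ, ZMod.card, nsmul_eq_mul]
      push_cast
      ring
    rw [h5, Fintype.card_prod, ZMod.card]
    have c1 : (Fintype.card Θ : ℝ) ≠ 0 := by exact_mod_cast Fintype.card_ne_zero
    have c2 : (Fintype.card P : ℝ) ≠ 0 := by exact_mod_cast Fintype.card_ne_zero
    have c3 : (Fintype.card ({j : ι // j ≠ i} → P × V k) : ℝ) ≠ 0 := by exact_mod_cast Fintype.card_ne_zero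
    push_cast
    field_simp

end

end Pool.Agent.GM
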