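import Pool.Agent.GM.CMDef
import Pool.Agent.GM.GSstr
import Pool.Agent.GM.GSlast
import Pool.Agent.GM.GSnum

/-!
# GM/MovLay (helper21): the layers of the moving faces `i ≠ w`, the face `w` is kept (row A10b)

`S n` = geometries on one sample space, `A n : FineS (S n) (S (n + 1))`.  `ps` = a face lifted to the layer `n`, `ls`, `ss` =
list and structured function of the layer `n` (`ls 0 = []`), `rs n i` = residual (`rs n w` = the face `w` itself),
`pc n q` = faces of the piece `q ≠ w` of the layer `n` (in `S (n + 1)`, divided by `4`).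
* `facesC_pc`, `strF_pc` : the faces of a piece satisfy the contract `FacesC`, `StrF`;
* `ident` : the exact identity on the path;
* **`layers`** : the binary model with all numbers, for `GM/ColdMov`.
-/

set_option autoImplicit false
set_option linter.unusedSectionVars false

namespace Pool.Agent.GM.Lay

open Finset Pool.Agent.PWZ Pool.Agent.M3 Pool.Agent.M3.TS Pool.Agent.GM Pool.Agent.GM.Mv Pool.Agent.GM.GS
  Pool.Agent.GM.KVer

noncomputable section

section abs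

variable {ι Om Ξ Pt V Γ κ : Type} [Fintype ι] [DecidableEq ι] [Fintype Om] [Fintype Ξ] [Fintype Pt]
  [Fintype V] {S : ℕ → Sys ι Om Ξ Pt V Γ κ} (A : ∀ n, FineS (S n) (S (n + 1)))

/-- the face lifted to the layer `n` -/
def ps (f : Mov Ξ ι Pt Γ (V → ℝ)) : ℕ → Mov Ξ ι Pt Γ (V → ℝ)
  | 0 => f
  | n + 1 => (A n).lift (ps f n)

theorem ps_all {C : Mov Ξ ι Pt Γ (V → ℝ) → Prop} (h : ∀ n f, C f → C ((A n).lift f)) {f : Mov Ξ ι Pt Γ (V → ℝ)}
    (h0 : C f) (n : ℕ) : C (ps A f n) := by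
  induction n with
  | zero => exact h0
  | succ n ih => exact h n _ ih

theorem ps_dep {I : Finset ι} {f : Mov Ξ ι Pt Γ (V → ℝ)} (h : ∀ t g ξ, Dep I (f t g ξ)) (n : ℕ) :
    ∀ t g ξ, Dep I (ps A f n t g ξ) :=
  ps_all A (C := fun f => ∀ t g ξ, Dep I (f t g ξ)) (fun n _ h t g ξ => h t _ ξ) h n

theorem ps_coin {f : Mov Ξ ι Pt Γ (V → ℝ)} (h : ∀ t g ξ ξ', f t g ξ = f t g ξ') (n : ℕ) :
    ∀ t g ξ ξ', ps A f n t g ξ = ps A f n t g ξ' :=
  ps_all A (C := fun f => ∀ t g ξ ξ', f t g ξ = f t g ξ') (fun n _ h t g ξ ξ' => h t _ ξ ξ') h n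

theorem ps_bd {f : Mov Ξ ι Pt Γ (V → ℝ)} (h : ∀ t g ξ x d, |f t g ξ x d| ≤ 1) (n : ℕ) :
    ∀ t g ξ x d, |ps A f n t g ξ x d| ≤ 1 :=
  ps_all A (C := fun f => ∀ t g ξ x d, |f t g ξ x d| ≤ 1) (fun n _ h t g ξ x d => h t _ ξ x d) h n

theorem ps_zero {f : Mov Ξ ι Pt Γ (V → ℝ)} (h : ∀ g ξ x, f 0 g ξ x = 0) (n : ℕ) :
    ∀ g ξ x, ps A f n 0 g ξ x = 0 :=
  ps_all A (C := fun f => ∀ g ξ x, f 0 g ξ x = 0) (fun n _ h g ξ x => h _ ξ x) h n

theorem at_ps (f : Mov Ξ ι Pt Γ (V → ℝ)) (n t : ℕ) (ω : Om) : (S n).at' (ps A f n) t ω = (S 0).at' f t ω := by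
  induction n with
  | zero => rfl
  | succ n ih => rw [← ih]; exact (A n).at'_lift _ t ω

theorem ps_future {i : ι} {f : Mov Ξ ι Pt Γ (V → ℝ)} {M : ℕ → ℝ} (hM : ∀ n, 0 ≤ M n)
    (hMs : ∀ n, (A n).Rt * M n ≤ M (n + 1)) (h : (S 0).Future (univ.erase i) f (M 0)) (n : ℕ) :
    (S n).Future (univ.erase i) (ps A f n) (M n) := by
  induction n with
  | zero => exact h
  | succ n ih => exact Sys.Future.mono _ ((A n).future_lift (erase_ne i) (hM n) ih) (hMs n)

variable [∀ i : ι, Nonempty (TK (univ : Finset ι) i)] (ep th : ℕ → ℝ)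

/-- the list of the layer `n` of the face `i` -/
def ls (f : Mov Ξ ι Pt Γ (V → ℝ)) (i : ι) : ℕ → Mov Ξ ι Pt Γ (List (Birth (TJs Pt V (univ : Finset ι) i → Bool)))
  | 0 => fun _ _ _ _ => []
  | n + 1 => mLst (S (n + 1)) univ i 1 (ep (n + 1)) (th (n + 1)) (ps A f (n + 1))

/-- the structured function of the layer `n` -/
def ss (f : Mov Ξ ι Pt Γ (V → ℝ)) (i : ι) (n : ℕ) : Mov Ξ ι Pt Γ (V → ℝ) := fun t g ξ x d =>
  psi (ep n) (mvals univ i (ls A ep th f i n t g ξ x) x d)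

theorem ss_zero_layer (f : Mov Ξ ι Pt Γ (V → ℝ)) (i : ι) (t : ℕ) (g : Γ) (ξ : Ξ) (x : ι → Pt) (d : V) :
    ss A ep th f i 0 t g ξ x d = 0 := rfl

theorem ss_succ (f : Mov Ξ ι Pt Γ (V → ℝ)) (i : ι) (n : ℕ) (t : ℕ) (g : Γ) (ξ : Ξ) (x : ι → Pt) (d : V) :
    ss A ep th f i (n + 1) t g ξ x d =
      mStr (S (n + 1)) univ i 1 (ep (n + 1)) (th (n + 1)) (ps A f (n + 1)) t g ξ x d := by
  rw [mStr_psi, one_mul]
  rfl

/-- the residual of the layer `n`; the face `w` is kept -/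
def rs (w : ι) (F : ι → Mov Ξ ι Pt Γ (V → ℝ)) (n : ℕ) (i : ι) : Mov Ξ ι Pt Γ (V → ℝ) := fun t g ξ x d =>
  if i = w then ps A (F i) n t g ξ x d else ps A (F i) n t g ξ x d - ss A ep th (F i) i n t g ξ x d

variable {A ep th} {w : ι} {F : ι → Mov Ξ ι Pt Γ (V → ℝ)}

theorem rs_w (n : ℕ) : rs A ep th w F n w = ps A (F w) n := by
  funext t g ξ x d
  unfold rs
  rw [if_pos rfl]

theorem rs_zero_layer (i : ι) : rs A ep th w F 0 i = F i := by
  funext t g ξ x d
  unfold rs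
  rw [ss_zero_layer, sub_zero, ite_self]
  rfl

theorem rs_succ {i : ι} (hi : i ≠ w) (n : ℕ) : rs A ep th w F (n + 1) i =
    mRes (S (n + 1)) univ i 1 (ep (n + 1)) (th (n + 1)) (ps A (F i) (n + 1)) := by
  funext t g ξ x d
  unfold rs mRes
  rw [if_neg hi, ss_succ]

/-- the list of births of the layer `n` -/
def bl (hep : ∀ n, 0 < ep n) (hth : ∀ n, 0 < th n) {i : ι} {f : Mov Ξ ι Pt Γ (V → ℝ)}
    (hd : ∀ t g ξ, Dep (univ.erase i) (f t g ξ)) (hb : ∀ t g ξ x d, |f t g ξ x d| ≤ 1)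
    (h0 : ∀ g ξ x, f 0 g ξ x = 0) {M : ℕ → ℝ} (hM : ∀ n, 0 ≤ M n)
    (hMs : ∀ n, (A n).Rt * M n ≤ M (n + 1)) (hf : (S 0).Future (univ.erase i) f (M 0)) :
    ∀ n, BL (S n) univ i (64 * (1 + M n) / (3 * ep n ^ 2)) (32 * (1 + 4 * M n) / (ep n ^ 3 * th n))
  | 0 => BL.nil (by have := hM 0; have := hep 0; positivity) (by have := hM 0; have := hep 0; have := hth 0; positivity)
  | n + 1 => BL.of one_pos (hep (n + 1)) (hth (n + 1)) (ps_dep A hd (n + 1)) (ps_bd A hb (n + 1))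
      (ps_zero A h0 (n + 1)) (hM (n + 1)) (ps_future A hM hMs hf (n + 1))

theorem bl_L (hep : ∀ n, 0 < ep n) (hth : ∀ n, 0 < th n) {i : ι} {f : Mov Ξ ι Pt Γ (V → ℝ)}
    (hd : ∀ t g ξ, Dep (univ.erase i) (f t g ξ)) (hb : ∀ t g ξ x d, |f t g ξ x d| ≤ 1)
    (h0 : ∀ g ξ x, f 0 g ξ x = 0) {M : ℕ → ℝ} (hM : ∀ n, 0 ≤ M n)
    (hMs : ∀ n, (A n).Rt * M n ≤ M (n + 1)) (hf : (S 0).Future (univ.erase i) f (M 0)) (n : ℕ) :
    (bl hep hth hd hb h0 hM hMs hf n).L = ls A ep th f i n := by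
  cases n <;> rfl

theorem ls_coin {i : ι} {f : Mov Ξ ι Pt Γ (V → ℝ)} (hc : ∀ t g ξ ξ', f t g ξ = f t g ξ') (n t : ℕ) (g : Γ)
    (ξ ξ' : Ξ) : ls A ep th f i n t g ξ = ls A ep th f i n t g ξ' := by
  cases n with
  | zero => rfl
  | succ n => exact mLst_coin (S (n + 1)) univ (ps_coin A hc (n + 1)) t g ξ ξ'

/-! ### the residuals -/

theorem rs_dep (hd : ∀ i, ∀ t g ξ, Dep (univ.erase i) (F i t g ξ)) (n : ℕ) (i : ι) :
    ∀ t g ξ, Dep (univ.erase i) (rs A ep th w F n i t g ξ) := by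
  by_cases hi : i = w
  · subst hi
    rw [rs_w]
    exact ps_dep A (hd i) n
  · cases n with
    | zero => rw [rs_zero_layer]; exact hd i
    | succ n => rw [rs_succ hi]; exact mRes_dep (S (n + 1)) univ (ps_dep A (hd i) (n + 1))

theorem rs_coin (hc : ∀ i, ∀ t g ξ ξ', F i t g ξ = F i t g ξ') (n : ℕ) (i : ι) :
    ∀ t g ξ ξ', rs A ep th w F n i t g ξ = rs A ep th w F n i t g ξ' := by
  by_cases hi : i = w
  · subst hi
    rw [rs_w]
    exact ps_coin A (hc i) n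
  · cases n with
    | zero => rw [rs_zero_layer]; exact hc i
    | succ n => rw [rs_succ hi]; exact mRes_coin (S (n + 1)) univ (ps_coin A (hc i) (n + 1))

theorem rs_bd (hb : ∀ i, ∀ t g ξ x d, |F i t g ξ x d| ≤ 1) (n : ℕ) (i : ι) :
    ∀ t g ξ x d, |rs A ep th w F n i t g ξ x d| ≤ 2 := by
  by_cases hi : i = w
  · subst hi
    rw [rs_w]
    exact fun t g ξ x d => (ps_bd A (hb i) n t g ξ x d).trans one_le_two
  · cases n with
    | zero => rw [rs_zero_layer]; exact fun t g ξ x d => (hb i t g ξ x d).trans one_le_two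
    | succ n =>
      rw [rs_succ hi]
      intro t g ξ x d
      have h1 := abs_mRes (S (n + 1)) univ i (ep := ep (n + 1)) (th := th (n + 1)) zero_le_one
        (ps_bd A (hb i) (n + 1)) t g ξ x d
      linarith

theorem rs_zero (hep : ∀ n, 0 < ep n) (hth : ∀ n, 0 < th n) (h0 : ∀ i, ∀ g ξ x, F i 0 g ξ x = 0) (n : ℕ) (i : ι) :
    ∀ g ξ x, rs A ep th w F n i 0 g ξ x = 0 := by
  by_cases hi : i = w
  · subst hi
    rw [rs_w]
    exact ps_zero A (h0 i) n
  · cases n with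
    | zero => rw [rs_zero_layer]; exact h0 i
    | succ n =>
      rw [rs_succ hi]
      exact mRes_zero (S (n + 1)) univ (hep (n + 1)) (hth (n + 1)) (ps_zero A (h0 i) (n + 1))

theorem at_rs_w (n t : ℕ) (ω : Om) : (S n).at' (rs A ep th w F n w) t ω = (S 0).at' (F w) t ω := by
  rw [rs_w, at_ps]

/-- future moves of the residuals -/
def fm (M : ℕ → ℝ) (ep : ℕ → ℝ) (n : ℕ) : ℝ := M n + 8 * (1 + M n) / ep n ^ 2

theorem fm_nonneg {M : ℕ → ℝ} (hM : ∀ n, 0 ≤ M n) (n : ℕ) : 0 ≤ fm M ep n := by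
  unfold fm
  have := hM n
  positivity

theorem rs_future (hd : ∀ i, ∀ t g ξ, Dep (univ.erase i) (F i t g ξ)) (hb : ∀ i, ∀ t g ξ x d, |F i t g ξ x d| ≤ 1)
    (hep : ∀ n, 0 < ep n) {M : ℕ → ℝ} (hM : ∀ n, 0 ≤ M n) (hMs : ∀ n, (A n).Rt * M n ≤ M (n + 1))
    (hf : ∀ i, i ≠ w → (S 0).Future (univ.erase i) (F i) (M 0)) (n : ℕ) {i : ι} (hi : i ≠ w) :
    (S n).Future (univ.erase i) (rs A ep th w F n i) (fm M ep n) := by
  cases n with
  | zero =>
    rw [rs_zero_layer]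
    refine Sys.Future.mono _ (hf i hi) ?_
    unfold fm
    have h1 := hM 0
    have h2 : 0 ≤ 8 * (1 + M 0) / ep 0 ^ 2 := by positivity
    linarith
  | succ n =>
    rw [rs_succ hi]
    exact mRes_future (S (n + 1)) univ one_pos (hep (n + 1)) (ps_dep A (hd i) (n + 1)) (ps_bd A (hb i) (n + 1))
      (hM (n + 1)) (ps_future A hM hMs (hf i hi) (n + 1))

/-- accuracies -/
def ac (ep : ℕ → ℝ) (acc0 : ℝ) (n : ℕ) : ℝ := if n = 0 then acc0 else 4 * ep n

theorem rs_rare (hd : ∀ i, ∀ t g ξ, Dep (univ.erase i) (F i t g ξ)) (hb : ∀ i, ∀ t g ξ x d, |F i t g ξ x d| ≤ 1)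
    (hep : ∀ n, 0 < ep n) (hth : ∀ n, 0 < th n) {acc0 : ℝ}
    (hr : ∀ i, i ≠ w → (S 0).Rare univ i (F i) (th 0) acc0) (n : ℕ) {i : ι} (hi : i ≠ w) :
    (S n).Rare univ i (rs A ep th w F n i) (th n) (ac ep acc0 n) := by
  cases n with
  | zero => rw [rs_zero_layer]; exact hr i hi
  | succ n =>
    rw [rs_succ hi]
    have h1 := mRes_rare (S (n + 1)) univ (w := i) (mem_univ i) one_pos (hep (n + 1)) (hth (n + 1))
      (ps_dep A (hd i) (n + 1)) (ps_bd A (hb i) (n + 1))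
    refine Sys.Rare.mono _ h1 le_rfl ?_
    unfold ac
    rw [if_neg (Nat.succ_ne_zero n), mul_one]

/-! ### the pieces -/

variable (A ep th w F) in
/-- the faces of the piece `q` of the layer `n`, in `S (n + 1)` -/
def pc (rk : ι → ℕ) (n : ℕ) (q i : ι) : Mov Ξ ι Pt Γ (V → ℝ) := fun t g ξ x d =>
  pcf rk (fun i => (A n).lift (rs A ep th w F n i) t g ξ x d) (fun i => rs A ep th w F (n + 1) i t g ξ x d) q i / 4

theorem pcf_congr {rk : ι → ℕ} {a b a' b' : ι → ℝ} {q i : ι} (ha : a i = a' i) (hb : b i = b' i) :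
    pcf rk a b q i = pcf rk a' b' q i := by
  unfold pcf
  rw [ha, hb]

variable (rk : ι → ℕ)

theorem pc_dep (hd : ∀ i, ∀ t g ξ, Dep (univ.erase i) (F i t g ξ)) (n : ℕ) (q i : ι) :
    ∀ t g ξ, Dep (univ.erase i) (pc A ep th w F rk n q i t g ξ) := by
  intro t g ξ x y h
  funext d
  unfold pc
  have h1 : (A n).lift (rs A ep th w F n i) t g ξ x d = (A n).lift (rs A ep th w F n i) t g ξ y d :=
    congrFun (rs_dep hd n i t ((A n).cg t g) ξ x y h) d
  have h2 := congrFun (rs_dep (A := A) (ep := ep) (th := th) (w := w) hd (n + 1) i t g ξ x y h) d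
  rw [pcf_congr (a' := fun i => (A n).lift (rs A ep th w F n i) t g ξ y d)
    (b' := fun i => rs A ep th w F (n + 1) i t g ξ y d) h1 h2]

theorem pc_coin (hc : ∀ i, ∀ t g ξ ξ', F i t g ξ = F i t g ξ') (n : ℕ) (q i : ι) :
    ∀ t g ξ ξ', pc A ep th w F rk n q i t g ξ = pc A ep th w F rk n q i t g ξ' := by
  intro t g ξ ξ'
  funext x d
  unfold pc
  have h1 := congrFun (congrFun (rs_coin (A := A) (ep := ep) (th := th) (w := w) hc n i t ((A n).cg t g) ξ ξ') x) d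
  have h2 := congrFun (congrFun (rs_coin (A := A) (ep := ep) (th := th) (w := w) hc (n + 1) i t g ξ ξ') x) d
  rw [pcf_congr (a' := fun i => (A n).lift (rs A ep th w F n i) t g ξ' x d)
    (b' := fun i => rs A ep th w F (n + 1) i t g ξ' x d) h1 h2]

theorem pc_bd (hb : ∀ i, ∀ t g ξ x d, |F i t g ξ x d| ≤ 1) (n : ℕ) (q i : ι) :
    ∀ t g ξ x d, |pc A ep th w F rk n q i t g ξ x d| ≤ 1 := by
  intro t g ξ x d
  unfold pc
  rw [abs_div, abs_of_pos (by norm_num : (0 : ℝ) < 4), div_le_one (by norm_num)]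
  have h1 : |(A n).lift (rs A ep th w F n i) t g ξ x d| ≤ 2 := rs_bd hb n i t _ ξ x d
  have h2 := rs_bd (A := A) (ep := ep) (th := th) (w := w) hb (n + 1) i t g ξ x d
  refine abs_pcf rk (a := fun i => (A n).lift (rs A ep th w F n i) t g ξ x d)
    (b := fun i => rs A ep th w F (n + 1) i t g ξ x d) (by linarith) (by linarith) ?_
  have h3 := abs_sub ((A n).lift (rs A ep th w F n i) t g ξ x d) (rs A ep th w F (n + 1) i t g ξ x d)
  linarith

theorem pc_zero (hep : ∀ n, 0 < ep n) (hth : ∀ n, 0 < th n) (h0 : ∀ i, ∀ g ξ x, F i 0 g ξ x = 0) (n : ℕ) (q i : ι) :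
    ∀ g ξ x, pc A ep th w F rk n q i 0 g ξ x = 0 := by
  intro g ξ x
  funext d
  unfold pc
  have h1 : (A n).lift (rs A ep th w F n i) 0 g ξ x d = 0 := congrFun (rs_zero hep hth h0 n i _ ξ x) d
  have h2 : rs A ep th w F (n + 1) i 0 g ξ x d = 0 := congrFun (rs_zero hep hth h0 (n + 1) i g ξ x) d
  rw [pcf_congr (a := fun i => (A n).lift (rs A ep th w F n i) 0 g ξ x d) (b := fun i => rs A ep th w F (n + 1) i 0 g ξ x d)
    (a' := fun _ => (0 : ℝ)) (b' := fun _ => (0 : ℝ)) h1 h2]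
  unfold pcf
  simp

/-- the values on the path -/
theorem at_pc (n : ℕ) (q i : ι) (t : ℕ) (ω : Om) (d : V) : (S (n + 1)).at' (pc A ep th w F rk n q i) t ω d =
    pcf rk (fun i => (S n).at' (rs A ep th w F n i) t ω d)
      (fun i => (S (n + 1)).at' (rs A ep th w F (n + 1) i) t ω d) q i / 4 := by
  have h1 := congrFun ((A n).at'_lift (rs A ep th w F n i) t ω) d
  unfold Sys.at' at h1 ⊢
  unfold pc
  rw [pcf_congr (a' := fun i => rs A ep th w F n i t ((S n).gm t ω) ((S n).xi ω) ((S n).x ω) d)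
    (b' := fun i => rs A ep th w F (n + 1) i t ((S (n + 1)).gm t ω) ((S (n + 1)).xi ω) ((S (n + 1)).x ω) d) h1 rfl]

theorem pc_future {n : ℕ} {q i : ι} {m m' : ℝ} (h1 : (S (n + 1)).Future (univ.erase i) ((A n).lift (rs A ep th w F n i)) m)
    (h2 : (S (n + 1)).Future (univ.erase i) (rs A ep th w F (n + 1) i) m') :
    (S (n + 1)).Future (univ.erase i) (pc A ep th w F rk n q i) (m + m') := by
  refine Sys.Future.or h1 h2 fun t ω h3 h4 => ?_
  rw [(A n).at'_lift, (A n).at'_lift] at h3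
  funext d
  rw [at_pc, at_pc]
  rw [pcf_congr (a := fun i => (S n).at' (rs A ep th w F n i) (t + 1) ω d)
    (b := fun i => (S (n + 1)).at' (rs A ep th w F (n + 1) i) (t + 1) ω d)
    (a' := fun i => (S n).at' (rs A ep th w F n i) t ω d)
    (b' := fun i => (S (n + 1)).at' (rs A ep th w F (n + 1) i) t ω d) (congrFun h3 d) (congrFun h4 d)]

/-- rarity of the faces of the pieces -/
theorem pc_rare {n : ℕ} {q i : ι} (hb : ∀ i, ∀ t g ξ x d, |F i t g ξ x d| ≤ 1) {θ θ' acc acc' : ℝ} (hθ : 0 ≤ θ)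
    (h1 : (S n).Rare univ i (rs A ep th w F n i) θ acc) (h2 : (S (n + 1)).Rare univ i (rs A ep th w F (n + 1) i) θ' acc')
    (hθ' : 0 ≤ θ') (ha : 0 ≤ acc) (ha' : 0 ≤ acc') :
    (S (n + 1)).Rare univ i (pc A ep th w F rk n q i) ((A n).Rt ^ Fintype.card ι * θ + θ')
      ((acc + 2 * ((S n).near + (S (n + 1)).near) + acc') / 4) := by
  have hn := (S n).near0
  have hn' := (S (n + 1)).near0
  have hR : 0 ≤ (A n).Rt := zero_le_one.trans (A n).Rt1
  have h3 : (S (n + 1)).Rare univ i ((A n).lift (rs A ep th w F n i)) ((A n).Rt ^ Fintype.card ι * θ)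
      (acc + 2 * ((S n).near + (S (n + 1)).near)) :=
    (A n).rare_lift hθ (zero_le_two) (rs_bd hb n i) h1
  have e1 : ∀ c : ℝ, 4⁻¹ * c = c / 4 := fun c => by ring
  rcases lt_or_ge (rk i) (rk q) with h4 | h4
  · have h5 := h2.smul (by norm_num : (0 : ℝ) < 4⁻¹)
    have h6 : pc A ep th w F rk n q i = fun t g ξ x d => 4⁻¹ * rs A ep th w F (n + 1) i t g ξ x d := by
      funext t g ξ x d
      unfold pc
      rw [pcf_lt rk h4, e1]
    rw [h6]
    refine Sys.Rare.mono _ h5 ?_ ?_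
    · have : 0 ≤ (A n).Rt ^ Fintype.card ι * θ := by positivity
      linarith
    · linarith
  · by_cases h5 : i = q
    · subst h5
      have h6 := (h3.sub h2).smul (by norm_num : (0 : ℝ) < 4⁻¹)
      have h7 : pc A ep th w F rk n i i = fun t g ξ x d => 4⁻¹ * ((A n).lift (rs A ep th w F n i) t g ξ x d -
          rs A ep th w F (n + 1) i t g ξ x d) := by
        funext t g ξ x d
        unfold pc
        rw [pcf_self, e1]
      rw [h7]
      refine Sys.Rare.mono _ h6 le_rfl (le_of_eq ?_)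
      ring
    · have h6 := h3.smul (by norm_num : (0 : ℝ) < 4⁻¹)
      have h7 : pc A ep th w F rk n q i = fun t g ξ x d => 4⁻¹ * (A n).lift (rs A ep th w F n i) t g ξ x d := by
        funext t g ξ x d
        unfold pc
        rw [e1]
        unfold pcf
        rw [if_neg h4.not_gt, if_neg h5]
      rw [h7]
      refine Sys.Rare.mono _ h6 ?_ ?_
      · linarith
      · linarith

/-- the kept face in the pieces -/
theorem at_pc_w {n : ℕ} {q : ι} (hq : q ≠ w) (t : ℕ) (ω : Om) :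
    (S (n + 1)).at' (pc A ep th w F rk n q w) t ω = fun d => (S 0).at' (F w) t ω d / 4 := by
  funext d
  rw [at_pc]
  unfold pcf
  by_cases h1 : rk w < rk q
  · rw [if_pos h1]
    beta_reduce
    rw [at_rs_w]
  · rw [if_neg h1, if_neg (Ne.symm hq)]
    beta_reduce
    rw [at_rs_w]

/-- **the faces of the pieces** -/
theorem facesC_pc {m0 θ0 acc0 : ℝ} {M : ℕ → ℝ} (hF : FacesC (S 0) w F m0 (M 0) θ0 acc0) (hep : ∀ n, 0 < ep n)
    (hth : ∀ n, 0 < th n) (h0 : θ0 ≤ th 0) (ha0 : 0 ≤ acc0) (hM : ∀ n, 0 ≤ M n)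
    (hMs : ∀ n, (A n).Rt * M n ≤ M (n + 1)) {n : ℕ} {q : ι} (hq : q ≠ w) {m θ acc : ℝ} (hm : 0 < m)
    (h1 : (A n).Rt * fm M ep n + fm M ep (n + 1) ≤ m) (h2 : (A n).Rt ^ Fintype.card ι * th n + th (n + 1) ≤ θ)
    (h3 : (ac ep acc0 n + 2 * ((S n).near + (S (n + 1)).near) + ac ep acc0 (n + 1)) / 4 ≤ acc) :
    FacesC (S (n + 1)) w (pc A ep th w F rk n q) (1 + 2 * m) m θ acc := by
  have hfut : ∀ i, i ≠ w → (S (n + 1)).Future (univ.erase i) (pc A ep th w F rk n q i) m := fun i hi =>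
    Sys.Future.mono _ (pc_future rk ((A n).future_lift (erase_ne i) (fm_nonneg hM n)
      (rs_future hF.dep hF.bd hep hM hMs hF.fut n hi)) (rs_future hF.dep hF.bd hep hM hMs hF.fut (n + 1) hi)) h1
  have hac : ∀ n, 0 ≤ ac ep acc0 n := fun n => by
    unfold ac
    split_ifs
    · exact ha0
    · have := hep n
      positivity
  exact {
    dep := fun i => pc_dep rk hF.dep n q i
    coin := fun i => pc_coin rk hF.coin n q i
    bd := fun i => pc_bd rk hF.bd n q i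
    zero := fun i => pc_zero rk hep hth hF.zero n q i
    once := fun t ω => by
      rw [at_pc_w rk hq, at_pc_w rk hq]
      rcases hF.once t ω with h | h
      · exact Or.inl (by rw [h])
      · refine Or.inr ?_
        rw [h]
        funext d
        exact zero_div _
    fut := hfut
    tail := fun i hi => (hfut i hi).tail (pc_dep rk hF.dep n q i) hm
    mean := fun i hi => (hfut i hi).mean.trans (by linarith)
    rare := fun i hi => by
      have hr : ∀ i, i ≠ w → (S 0).Rare univ i (F i) (th 0) acc0 := fun i hi =>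
        Sys.Rare.mono _ (hF.rare i hi) h0 le_rfl
      exact Sys.Rare.mono _ (pc_rare rk hF.bd (hth n).le (rs_rare hF.dep hF.bd hep hth hr n hi)
        (rs_rare hF.dep hF.bd hep hth hr (n + 1) hi) (hth (n + 1)).le (hac n) (hac (n + 1))) h2 h3 }

/-- **the structured face of a piece** -/
def strF_pc {m0 θ0 acc0 : ℝ} {M : ℕ → ℝ} (hF : FacesC (S 0) w F m0 (M 0) θ0 acc0) (hep : ∀ n, 0 < ep n)
    (hth : ∀ n, 0 < th n) (hM : ∀ n, 0 ≤ M n) (hMs : ∀ n, (A n).Rt * M n ≤ M (n + 1)) {n : ℕ} {q : ι} (hq : q ≠ w)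
    {m T : ℝ} (h1 : (A n).Rt * (64 * (1 + M n) / (3 * ep n ^ 2)) ≤ m)
    (h2 : 64 * (1 + M (n + 1)) / (3 * ep (n + 1) ^ 2) ≤ m) (h3 : 32 * (1 + 4 * M n) / (ep n ^ 3 * th n) ≤ T)
    (h4 : 32 * (1 + 4 * M (n + 1)) / (ep (n + 1) ^ 3 * th (n + 1)) ≤ T) (h5 : 1 / m ≤ ep n)
    (h6 : 1 / m ≤ ep (n + 1)) (δ : ι) : StrF (S (n + 1)) univ δ q (pc A ep th w F rk n q q) m T where
  e0 := ep n
  e1 := ep (n + 1)
  pe0 := h5
  pe1 := h6
  b0 := ((bl (A := A) hep hth (hF.dep q) (hF.bd q) (hF.zero q) hM hMs (hF.fut q hq) n).lift (A n)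
    (by have := hM n; have := hep n; positivity)).mono h1 h3
  b1 := (bl (A := A) hep hth (hF.dep q) (hF.bd q) (hF.zero q) hM hMs (hF.fut q hq) (n + 1)).mono h2 h4
  coin0 := fun _ t g ξ ξ' => by
    show (bl (A := A) hep hth (hF.dep q) (hF.bd q) (hF.zero q) hM hMs (hF.fut q hq) n).L t ((A n).cg t g) ξ =
      (bl (A := A) hep hth (hF.dep q) (hF.bd q) (hF.zero q) hM hMs (hF.fut q hq) n).L t ((A n).cg t g) ξ'
    rw [bl_L]
    exact ls_coin (hF.coin q) n t _ ξ ξ'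
  coin1 := fun _ t g ξ ξ' => ls_coin (A := A) (ep := ep) (th := th) (hF.coin q) (n + 1) t g ξ ξ'
  eq := fun t g ξ x d => by
    have e1 : pc A ep th w F rk n q q t g ξ x d =
        (ss A ep th (F q) q (n + 1) t g ξ x d - ss A ep th (F q) q n t ((A n).cg t g) ξ x d) / 4 := by
      unfold pc
      rw [pcf_self]
      show (rs A ep th w F n q t ((A n).cg t g) ξ x d - rs A ep th w F (n + 1) q t g ξ x d) / 4 = _
      unfold rs
      rw [if_neg hq, if_neg hq]
      show (ps A (F q) n t ((A n).cg t g) ξ x d - _ - (ps A (F q) n t ((A n).cg t g) ξ x d - _)) / 4 = _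
      ring
    rw [e1]
    show _ = (psi (ep (n + 1)) (mvals univ q (ls A ep th (F q) q (n + 1) t g ξ x) x d) -
      psi (ep n) (mvals univ q ((bl (A := A) hep hth (hF.dep q) (hF.bd q) (hF.zero q) hM hMs (hF.fut q hq) n).L t
        ((A n).cg t g) ξ x) x d)) / 4
    rw [bl_L]
    rfl

theorem J_all (A : ∀ n, FineS (S n) (S (n + 1))) (n : ℕ) : (S n).J = (S 0).J := by
  induction n with
  | zero => rfl
  | succ n ih => rw [(A n).hJ, ih]

/-- **the identity of the telescoping** -/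
theorem ident (hrk : Function.Injective rk) (L t : ℕ) (ω : Om) : pT (S 0) univ F t ω =
    (∑ n ∈ range L, ∑ q ∈ univ.erase w, 4 ^ Fintype.card ι * pT (S (n + 1)) univ (pc A ep th w F rk n q) t ω) +
      pT (S L) univ (rs A ep th w F L) t ω := by
  have h1 := tele hrk ((S 0).J t ω) univ (fun n i => (S n).at' (rs A ep th w F n i) t ω) L
  have h0 : pT (S 0) univ F t ω = iw ((S 0).J t ω) (fun d => ∏ i, (S 0).at' (rs A ep th w F 0 i) t ω d) (fun _ => 1) := by
    unfold pT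
    simp only [rs_zero_layer]
  have hL : pT (S L) univ (rs A ep th w F L) t ω =
      iw ((S 0).J t ω) (fun d => ∏ i, (S L).at' (rs A ep th w F L i) t ω d) (fun _ => 1) := by
    unfold pT
    rw [J_all A L]
  rw [h0, hL, h1]
  congr 1
  refine Finset.sum_congr rfl fun n _ => ?_
  rw [← Finset.add_sum_erase univ _ (mem_univ w)]
  have h2 : iw ((S 0).J t ω) (fun d => ∏ i, pcf rk (fun i => (S n).at' (rs A ep th w F n i) t ω d)
      (fun i => (S (n + 1)).at' (rs A ep th w F (n + 1) i) t ω d) w i) (fun _ => 1) = 0 := by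
    unfold iw
    refine Finset.sum_eq_zero fun d _ => ?_
    have h3 : ∏ i, pcf rk (fun i => (S n).at' (rs A ep th w F n i) t ω d)
      (fun i => (S (n + 1)).at' (rs A ep th w F (n + 1) i) t ω d) w i = 0 := by
      refine Finset.prod_eq_zero (mem_univ w) ?_
      rw [pcf_self, at_rs_w, at_rs_w, sub_self]
    beta_reduce
    rw [h3]
    ring
  rw [h2, zero_add]
  refine Finset.sum_congr rfl fun q _ => ?_
  unfold pT iw
  rw [J_all A (n + 1), Finset.mul_sum]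
  refine Finset.sum_congr rfl fun d _ => ?_
  have h3 : ∏ i, (S (n + 1)).at' (pc A ep th w F rk n q i) t ω d =
      (∏ i, pcf rk (fun i => (S n).at' (rs A ep th w F n i) t ω d)
        (fun i => (S (n + 1)).at' (rs A ep th w F (n + 1) i) t ω d) q i) / 4 ^ Fintype.card ι := by
    rw [Finset.prod_congr rfl fun i _ => at_pc rk n q i t ω d, Finset.prod_div_distrib, Finset.prod_const,
      Finset.card_univ]
  beta_reduce
  rw [h3]
  field_simp

end abs

end

end Pool.Agent.GM.Lay
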