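import Pool.Agent.GM.MovLay
import Pool.Agent.GM.GSpar
import Pool.Agent.GM.CMLayDef

/-!
# GM/MovLayB (helper21): the layers with a kept face in the binary model (row A10b)

**`layers`** : `2 ≤ j → 0 < κ → ∀ C, ∃ C1, GS.LayersC j κ C C1`, the numbers of `GM/GSnum`.
-/

set_option autoImplicit false
set_option linter.unusedSectionVars false

namespace Pool.Agent.GM.Lay

open Finset Pool.Agent.PWZ Pool.Agent.M3 Pool.Agent.M3.TS Pool.Agent.M3.Bin Pool.Agent.GM Pool.Agent.GM.Mv Pool.Agent.GM.GS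
  Pool.Agent.GM.KVer

noncomputable section

/-- numbers of the structured faces -/
theorem num_str {hh : ℕ → ℕ} {ep : ℕ → ℝ} {H M : ℝ} {n : ℕ} (h : MvOk hh ep H M n) (hm : ∀ n, hh n ≤ hh (n + 1)) :
    (2 : ℝ) ^ (hh (n + 1) - hh n) * (64 * (1 + 2 ^ (hh n - hh 0) * H) / (3 * ep n ^ 2)) ≤ M ∧
    64 * (1 + 2 ^ (hh (n + 1) - hh 0) * H) / (3 * ep (n + 1) ^ 2) ≤ M ∧
    32 * (1 + 4 * (2 ^ (hh n - hh 0) * H)) / ep n ^ 3 ≤ M ∧
    32 * (1 + 4 * (2 ^ (hh (n + 1) - hh 0) * H)) / ep (n + 1) ^ 3 ≤ M ∧ 1 ≤ M ∧ 1 / M ≤ ep (n + 1) ∧ 1 / M ≤ ep n := by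
  have hH : 0 ≤ H := by linarith [h.H1]
  have hZ1 := h.Z1
  have c3 := h.epp (n + 1)
  have c1 := h.epp n
  set Z : ℝ := 2 ^ (hh (n + 1) - hh 0) * H with hZ
  have h2 := h.le
  rw [← hZ] at h2
  have z1 : (2 : ℝ) ^ (hh (n + 1) - hh n) * (2 ^ (hh n - hh 0) * H) = Z := by
    rw [← mul_assoc, hh_mul hm n]
  have z2 : (2 : ℝ) ^ (hh (n + 1) - hh n) ≤ Z := by
    have h1 : (2 : ℝ) ^ (hh (n + 1) - hh n) ≤ 2 ^ (hh (n + 1) - hh 0) :=
      pow_le_pow_right₀ (by norm_num) (Nat.sub_le_sub_left (hh_le hm n) _)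
    have h2 : (0 : ℝ) ≤ 2 ^ (hh (n + 1) - hh 0) := by positivity
    have h3 := h.H1
    nlinarith
  have z3 : (2 : ℝ) ^ (hh n - hh 0) * H ≤ Z := by
    rw [hZ]
    exact mul_le_mul_of_nonneg_right (pow_le_pow_right₀ (by norm_num) (Nat.sub_le_sub_right (hm n) _)) hH
  have hM1 : 1 ≤ M := by
    have h3 := h.cube' 0 (by norm_num) (c := 128 * (1 + Z)) (by linarith)
    rw [pow_zero, div_one] at h3
    linarith
  have pe1 : 1 / M ≤ ep (n + 1) := by
    rw [one_div]
    refine inv_le_of_inv_le₀ c3 ?_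
    have h3 := h.cube' 1 (by norm_num) (c := 1) zero_le_one
    rw [pow_one, one_div] at h3
    exact h3.trans (h.aux (by linarith))
  refine ⟨?_, ?_, ?_, h.aux (by linarith), hM1, pe1, pe1.trans h.epa⟩
  · have h3 : (2 : ℝ) ^ (hh (n + 1) - hh n) * (64 * (1 + 2 ^ (hh n - hh 0) * H) / (3 * ep n ^ 2)) =
        (64 / 3 * ((2 : ℝ) ^ (hh (n + 1) - hh n) + Z)) / ep n ^ 2 := by
      rw [← z1]
      field_simp
    rw [h3]
    refine (h.cube 2 (by norm_num) (by positivity)).trans (h.aux ?_)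
    linarith
  · have h3 : 64 * (1 + Z) / (3 * ep (n + 1) ^ 2) = (64 / 3 * (1 + Z)) / ep (n + 1) ^ 2 := by
      rw [div_eq_div_iff (by positivity) (by positivity)]
      ring
    rw [h3]
    exact (h.cube' 2 (by norm_num) (by positivity)).trans (h.aux (by linarith))
  · exact (h.cube 3 le_rfl (by positivity)).trans (h.aux (by linarith))

/-- **THE LAYERS WITH A KEPT FACE** -/
theorem layers (j : ℕ) (hj : 2 ≤ j) {κ : ℝ} (hκ : 0 < κ) (C : ℕ) : ∃ C1 : ℕ, LayersC j κ C C1 := by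
  set C1 : ℕ := max C 1 with hC1
  obtain ⟨C', hC', hG⟩ := exists_gsn j C1 128 (by omega) (le_max_right _ _) (by norm_num) hκ
  refine ⟨C', ?_⟩
  intro ι Θ Ξ Q _ _ _ _ _ _ _ _ k N σ i w hN h hcard β H hβ hβ2 hβH hK hne F hF
  refine ⟨4 ^ Fintype.card ι, ?_⟩
  have hK' : (((j + 4) * 2 ^ (h + 3) : ℕ) : ℝ) ≤ Real.exp H := by
    rw [← hcard]
    exact hK
  obtain ⟨⟨hh, ep, th, Lm, HH, hh0, hhm, th0, thp, epp, epa, epo, tha, HHH, bH, KH, mv, acc0, ep1, ep2, ne1, ne2, rar,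
    LmH, LmE, thick, sum, lim⟩⟩ := hG β H hβ hβ2 hβH h hK' hne
  subst hh0
  have hj0 : 0 < j := by omega
  have hjr : (2 : ℝ) ≤ j := by exact_mod_cast hj
  have hnt : Nontrivial ι := by
    rw [← Fintype.one_lt_card_iff_nontrivial]
    omega
  have hTK : ∀ v, Nonempty (TK (univ : Finset ι) v) := by
    intro v
    obtain ⟨v', hv⟩ := exists_ne v
    exact ⟨⟨v', mem_erase.2 ⟨hv, mem_univ v'⟩⟩⟩
  have hH1 : 1 ≤ H := by
    have : 1 ≤ 1 / β := by
      rw [le_div_iff₀ hβ]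
      linarith
    linarith
  have hMv : ∀ n, MvOk hh ep H (HH n) n := fun n =>
    ⟨epp, epo, epa n, hH1, by
      have h1 := mv n
      push_cast at h1
      have h2 := epp (n + 1)
      refine le_trans (div_le_div_of_nonneg_right ?_ (by positivity)) h1
      have h3 : (1 : ℝ) ≤ 2 ^ (hh (n + 1) - hh 0) := one_le_pow₀ (by norm_num)
      linarith⟩
  have hbp := fun n => bb_pos hj0 hβ n
  have hbb1 : ∀ n, bb j β n ≤ 1 / 2 := fun n => (bb_le hj0 hβ n).trans hβ2
  have hbbC : ∀ n, bb j β n ^ C1 ≤ bb j β n := fun n =>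
    pow_le_of_le_one (hbp n).le ((hbb1 n).trans (by norm_num)) (by omega)
  have hbbD : ∀ n, bb j β n ^ C1 ≤ bb j β n ^ C := fun n =>
    pow_le_pow_of_le_one (hbp n).le ((hbb1 n).trans (by norm_num)) (le_max_left _ _)
  have hHH1 : ∀ n, 1 ≤ HH n := fun n => hH1.trans (HHH n)
  let A : ∀ n, FineS (binSys (N := N) Θ Ξ Q σ i hN (hh n)) (binSys Θ Ξ Q σ i hN (hh (n + 1))) :=
    fun n => binFine σ i hN (hhm n)
  have hRt : ∀ n, (A n).Rt = 2 ^ (hh (n + 1) - hh n) := fun _ => rfl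
  set M : ℕ → ℝ := fun n => 2 ^ (hh n - hh 0) * H with hMdef
  have hM : ∀ n, 0 ≤ M n := fun n => by positivity
  have hMs : ∀ n, (A n).Rt * M n ≤ M (n + 1) := fun n => by
    rw [hRt]
    simp only [hMdef]
    rw [← mul_assoc, hh_mul hhm]
  have hF' : FacesC (binSys Θ Ξ Q σ i hN (hh 0)) w F (1 + 2 * H) (M 0) (Real.exp (-H ^ C')) (β ^ C') := by
    have h1 : M 0 = H := by
      simp only [hMdef]
      rw [Nat.sub_self, pow_zero, one_mul]
    rw [h1]
    exact hF
  have hn : ∀ n, (binSys (N := N) Θ Ξ Q σ i hN (hh n)).near = 8 * ((2 : ℝ) ^ hh n)⁻¹ := fun _ => rfl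
  have hac : ∀ n, ac ep (β ^ C') n ≤ 4 * (bb j β n ^ C1 / 128) := by
    intro n
    unfold ac
    cases n with
    | zero =>
      rw [if_pos rfl]
      have := acc0
      have h5 : (0 : ℝ) ≤ β ^ C' := by positivity
      push_cast at this
      linarith
    | succ n =>
      rw [if_neg (Nat.succ_ne_zero n)]
      have := ep2 n
      push_cast at this
      linarith
  refine ⟨{
    hn := fun n => hh (n + 1)
    bn := bb j β
    Hn := HH
    Ln := Lm
    Pc := fun n q => pc A ep th w F rk n q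
    Z := fun L t ω => pT (binSys Θ Ξ Q σ i hN (hh L)) univ (rs A ep th w F L) t ω
    b0 := hbp
    b2 := hbb1
    bH := bH
    KH := fun n => ?_
    nH := fun n => ?_
    HL := fun n => ?_
    LH := LmE
    fac := fun n q hq => ?_
    str := fun n q hq => ?_
    id := fun L t _ ω => ident (A := A) (ep := ep) (th := th) (w := w) (F := F) rk rk_inj L t ω
    c00 := by positivity
    sb := fun L => ?_
    sH := fun L => ?_
    last := ?_ }⟩
  · have h1 := KH n
    show (((Fintype.card ι + 4) * 2 ^ (hh (n + 1) + 3) : ℕ) : ℝ) ≤ _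
    rw [hcard]
    exact h1
  · rw [hn]
    have h1 := ne1 n
    have h5 : 0 < bb j β n ^ C1 := pow_pos (hbp n) _
    exact (h1.trans (div_le_self h5.le (by norm_num))).trans (hbbD n)
  · exact (pow_le_pow_right₀ (hHH1 n) (le_max_left _ _)).trans (LmH n)
  · refine facesC_pc (A := A) rk hF' epp thp th0.ge (by positivity) hM hMs hq (by linarith [hHH1 n]) ?_ ?_ ?_
    · have f1 := (hMv n).fut1
      have f0 := (hMv n).fut0 hhm
      have h1 : (A n).Rt * fm M ep n + fm M ep (n + 1) =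
        (2 : ℝ) ^ (hh (n + 1) - hh n) * (2 ^ (hh n - hh 0) * H + 8 * (1 + 2 ^ (hh n - hh 0) * H) / ep n ^ 2) +
        (2 ^ (hh (n + 1) - hh 0) * H + 8 * (1 + 2 ^ (hh (n + 1) - hh 0) * H) / ep (n + 1) ^ 2) := rfl
      rw [h1]
      linarith [hHH1 n]
    · refine le_trans ?_ (rar n)
      rw [hRt, hcard, ← pow_mul]
      have h1 : (2 : ℝ) ^ ((hh (n + 1) - hh n) * j) ≤ 2 ^ (j * hh (n + 1)) := by
        rw [mul_comm]
        exact pow_le_pow_right₀ (by norm_num) (Nat.mul_le_mul_left _ (Nat.sub_le _ _))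
      have h2 : (1 : ℝ) ≤ 2 ^ (j * hh (n + 1)) := one_le_pow₀ (by norm_num)
      have h3 := thp n
      have h4 := thp (n + 1)
      have h5 := mul_le_mul_of_nonneg_right h1 h3.le
      have h6 : th (n + 1) ≤ 2 ^ (j * hh (n + 1)) * th (n + 1) := le_mul_of_one_le_left h4.le h2
      have h7 : (0 : ℝ) ≤ 2 ^ (j * hh (n + 1)) * (th n + th (n + 1)) := by positivity
      push_cast
      nlinarith
    · have h1 := ep1 n
      have h2 := ne1 n
      have h3 := ne2 n
      have h4 := hac n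
      have h5 : ac ep (β ^ C') (n + 1) = 4 * ep (n + 1) := by
        unfold ac
        rw [if_neg (Nat.succ_ne_zero n)]
      have h6 : 0 < bb j β n ^ C1 := pow_pos (hbp n) _
      rw [hn, hn, h5]
      push_cast at h1 h2 h3
      refine le_trans ?_ (hbbD n)
      linarith
  · obtain ⟨n1, n2, n3, n4, n5, n6, n7⟩ := num_str (hMv n) hhm
    have t1 : (th (n + 1))⁻¹ ≤ Real.exp ((1 + κ) * Lm n) := by
      rw [inv_le_comm₀ (thp (n + 1)) (Real.exp_pos _), ← Real.exp_neg]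
      exact thick n
    have t2 : (th n)⁻¹ ≤ Real.exp ((1 + κ) * Lm n) := le_trans (inv_anti₀ (thp (n + 1)) (tha n)) t1
    have hT : ∀ {c : ℝ} {n' : ℕ} {x : ℝ}, c / ep n' ^ 3 ≤ HH n → 0 < x → x⁻¹ ≤ Real.exp ((1 + κ) * Lm n) →
        c / (ep n' ^ 3 * x) ≤ HH n * Real.exp ((1 + κ) * Lm n) := by
      intro c n' x h1 h2 h3
      rw [← div_div, div_eq_mul_inv]
      exact mul_le_mul h1 h3 (by positivity) (by linarith)
    exact ⟨strF_pc (A := A) rk hF' epp thp hM hMs hq n1 n2 (hT n3 (thp n) t2) (hT n4 (thp (n + 1)) t1) n7 n6 w⟩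
  · have h1 : ∀ n ∈ range L, (Fintype.card ι : ℝ) * 4 ^ Fintype.card ι * bb j β n =
        β / 4 * (1 / ((n : ℝ) + 1) ^ 2) := by
      intro n _
      rw [hcard]
      unfold bb
      have : (j : ℝ) ≠ 0 := by positivity
      field_simp
    rw [Finset.sum_congr rfl h1, ← Finset.mul_sum]
    have h2 := mul_le_mul_of_nonneg_left (sum_inv_sq L) (by positivity : 0 ≤ β / 4)
    linarith
  · rw [hcard]
    exact sum L
  · intro ε hε
    obtain ⟨δ, hδ⟩ := exists_ne w
    set α : ℝ := ε / (2 * ((N : ℝ) + 1)) with hα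
    have hα0 : 0 < α := by positivity
    obtain ⟨L, hL⟩ := lim (α * α) (by positivity)
    refine ⟨L + 1, ?_⟩
    have a3 : (binSys Θ Ξ Q σ i hN (hh (L + 1))).Rare univ δ (rs A ep th w F (L + 1) δ) (th (L + 1))
        (ac ep (β ^ C') (L + 1)) :=
      rs_rare (A := A) hF'.dep hF'.bd epp thp (fun v hv => Sys.Rare.mono _ (hF'.rare v hv) th0.ge le_rfl) (L + 1) hδ
    have hbd : (2 : ℝ) ^ ((univ : Finset ι).card - 1) * ac ep (β ^ C') (L + 1) + 2 ^ (univ : Finset ι).card *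
        (binSys Θ Ξ Q σ i hN (hh (L + 1))).near ≤ β / 4 := by
      have h1 := hac (L + 1)
      have h1' := hbbC (L + 1)
      have h0 : 0 ≤ ac ep (β ^ C') (L + 1) := by
        unfold ac
        rw [if_neg (Nat.succ_ne_zero L)]
        have := epp (L + 1)
        positivity
      have h2 : (binSys (N := N) Θ Ξ Q σ i hN (hh (L + 1))).near ≤ bb j β (L + 1) / 128 := by
        have h3 := ne2 (L + 1)
        push_cast at h3
        rw [hn]
        linarith
      have h3 : (2 : ℝ) ^ ((univ : Finset ι).card - 1) ≤ 2 ^ (univ : Finset ι).card :=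
        pow_le_pow_right₀ (by norm_num) (Nat.sub_le _ _)
      have h4 : (2 : ℝ) ^ (univ : Finset ι).card * bb j β (L + 1) ≤ β := by
        rw [Finset.card_univ, hcard]
        unfold bb
        rw [mul_div_assoc', div_le_iff₀ (by positivity)]
        have h5 : (2 : ℝ) ^ j ≤ 4 ^ j := pow_le_pow_left₀ (by norm_num) (by norm_num) j
        have h6 : (1 : ℝ) ≤ 4 * j * (((L + 1 : ℕ) : ℝ) + 1) ^ 2 := by
          have h7 : (1 : ℝ) ≤ (((L + 1 : ℕ) : ℝ) + 1) ^ 2 := by
            have := Nat.cast_nonneg (α := ℝ) (L + 1)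
            nlinarith
          nlinarith
        have h7 : (0 : ℝ) < 4 ^ j := by positivity
        have h8 : (4 : ℝ) ^ j ≤ 4 * j * (((L + 1 : ℕ) : ℝ) + 1) ^ 2 * 4 ^ j := le_mul_of_one_le_left h7.le h6
        calc (2 : ℝ) ^ j * β ≤ 4 ^ j * β := mul_le_mul_of_nonneg_right h5 hβ.le
          _ ≤ (4 * j * (((L + 1 : ℕ) : ℝ) + 1) ^ 2 * 4 ^ j) * β := mul_le_mul_of_nonneg_right h8 hβ.le
          _ = _ := by ring
      have h5 : (0 : ℝ) ≤ (2 : ℝ) ^ (univ : Finset ι).card := by positivity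
      have h6 : (0 : ℝ) ≤ (2 : ℝ) ^ ((univ : Finset ι).card - 1) := by positivity
      have h7 := bb_pos hj0 hβ (L + 1)
      have h9 : (2 : ℝ) ^ ((univ : Finset ι).card - 1) * ac ep (β ^ C') (L + 1) ≤
          2 ^ (univ : Finset ι).card * (4 * (bb j β (L + 1) / 128)) :=
        mul_le_mul h3 (by linarith) h0 h5
      have h10 := mul_le_mul_of_nonneg_left h2 h5
      have h11 : (2 : ℝ) ^ (univ : Finset ι).card * (4 * (bb j β (L + 1) / 128)) +
          2 ^ (univ : Finset ι).card * (bb j β (L + 1) / 128) =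
          5 / 128 * ((2 : ℝ) ^ (univ : Finset ι).card * bb j β (L + 1)) := by ring
      linarith
    have h1 := (binSys Θ Ξ Q σ i hN (hh (L + 1))).pr_last (mem_univ δ)
      (rs A ep th w F (L + 1)) (thp (L + 1)).le a3 (fun v _ => rs_dep hF'.dep (L + 1) v)
      (fun v _ _ => rs_coin hF'.coin (L + 1) v) (zero_lt_two) (fun v _ => rs_bd hF'.bd (L + 1) v) hbd hα0
    refine h1.trans ?_
    have h2 : (binSys (N := N) Θ Ξ Q σ i hN (hh (L + 1))).K * (th (L + 1) / α) ≤ α := by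
      rw [← mul_div_assoc, div_le_iff₀ hα0]
      refine le_trans (le_of_eq ?_) hL
      show (((Fintype.card ι + 4) * 2 ^ (hh (L + 1) + 3) : ℕ) : ℝ) * th (L + 1) = _
      rw [hcard]
    have h3 : ((binSys (N := N) Θ Ξ Q σ i hN (hh (L + 1))).n : ℝ) = N := rfl
    rw [h3]
    have h4 : ((N : ℝ) + 1) * (α + α) = ε := by
      rw [hα]
      field_simp
      ring
    rw [← h4]
    exact mul_le_mul_of_nonneg_left (by linarith) (by positivity)

end

end Pool.Agent.GM.Lay
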