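import Pool.Agent.GM.MovLayB
import Pool.Agent.GM.CMcDef

/-!
# GM/MovLayC (helper42): the layers with a kept face, ONE face `δ ≠ w` sees the coin (row P5; port of `GM/MovLay`, `GM/MovLayB`)

* `facesCc_pc`, `strFc_pc` : the faces of a piece of a layer;
* **`layers_c`** : `2 ≤ j → 0 < κ → ∀ C, ∃ C1, GS.LayersCc j κ C C1`.
-/

set_option autoImplicit false
set_option linter.unusedSectionVars false

namespace Pool.Agent.GM.Lay

open Finset Pool.Agent.PWZ Pool.Agent.M3 Pool.Agent.M3.TS Pool.Agent.M3.Bin Pool.Agent.GM Pool.Agent.GM.Mv Pool.Agent.GM.GS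
  Pool.Agent.GM.KVer

noncomputable section

section abs

variable {ι Om Ξ Pt V Γ κ : Type} [Fintype ι] [DecidableEq ι] [Fintype Om] [Fintype Ξ] [Fintype Pt]
  [Fintype V] {S : ℕ → Sys ι Om Ξ Pt V Γ κ} {A : ∀ n, FineS (S n) (S (n + 1))}
  [∀ i : ι, Nonempty (TK (univ : Finset ι) i)] {ep th : ℕ → ℝ} {w : ι} {F : ι → Mov Ξ ι Pt Γ (V → ℝ)}

theorem rs_coin1 {i : ι} (hc : ∀ t g ξ ξ', F i t g ξ = F i t g ξ') (n : ℕ) :
    ∀ t g ξ ξ', rs A ep th w F n i t g ξ = rs A ep th w F n i t g ξ' := by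
  by_cases hi : i = w
  · subst hi
    rw [rs_w]
    exact ps_coin A hc n
  · cases n with
    | zero => rw [rs_zero_layer]; exact hc
    | succ n => rw [rs_succ hi]; exact mRes_coin (S (n + 1)) univ (ps_coin A hc (n + 1))

theorem pc_coin1 (rk : ι → ℕ) {i : ι} (hc : ∀ t g ξ ξ', F i t g ξ = F i t g ξ') (n : ℕ) (q : ι) :
    ∀ t g ξ ξ', pc A ep th w F rk n q i t g ξ = pc A ep th w F rk n q i t g ξ' := by
  intro t g ξ ξ'
  funext x d
  unfold pc
  have h1 := congrFun (congrFun (rs_coin1 (A := A) (ep := ep) (th := th) (w := w) hc n t ((A n).cg t g) ξ ξ') x) d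
  have h2 := congrFun (congrFun (rs_coin1 (A := A) (ep := ep) (th := th) (w := w) hc (n + 1) t g ξ ξ') x) d
  rw [pcf_congr (a' := fun i => (A n).lift (rs A ep th w F n i) t g ξ' x d)
    (b' := fun i => rs A ep th w F (n + 1) i t g ξ' x d) h1 h2]

variable (rk : ι → ℕ)

/-- **the faces of the pieces** -/
theorem facesCc_pc {δ : ι} {m0 θ0 acc0 : ℝ} {M : ℕ → ℝ} (hF : FacesCc (S 0) w δ F m0 (M 0) θ0 acc0) (hep : ∀ n, 0 < ep n)
    (hth : ∀ n, 0 < th n) (h0 : θ0 ≤ th 0) (ha0 : 0 ≤ acc0) (hM : ∀ n, 0 ≤ M n)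
    (hMs : ∀ n, (A n).Rt * M n ≤ M (n + 1)) {n : ℕ} {q : ι} (hq : q ≠ w) {m θ acc : ℝ} (hm : 0 < m)
    (h1 : (A n).Rt * fm M ep n + fm M ep (n + 1) ≤ m) (h2 : (A n).Rt ^ Fintype.card ι * th n + th (n + 1) ≤ θ)
    (h3 : (ac ep acc0 n + 2 * ((S n).near + (S (n + 1)).near) + ac ep acc0 (n + 1)) / 4 ≤ acc) :
    FacesCc (S (n + 1)) w δ (pc A ep th w F rk n q) (1 + 2 * m) m θ acc := by
  have hfut : ∀ i, i ≠ w → (S (n + 1)).Future (univ.erase i) (pc A ep th w F rk n q i) m := fun i hi =>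
    Sys.Future.mono _ (pc_future rk ((A n).future_lift (erase_ne i) (fm_nonneg hM n)
      (rs_future hF.dep hF.bd hep hM hMs hF.fut n hi)) (rs_future hF.dep hF.bd hep hM hMs hF.fut (n + 1) hi)) h1
  have hac : ∀ n, 0 ≤ ac ep acc0 n := fun n => by
    unfold ac
    split_ifs
    · exact ha0
    · have := hep n
      positivity
  exact {
    dep := fun i => pc_dep rk hF.dep n q i
    coin := fun i hi => pc_coin1 rk (hF.coin i hi) n q
    bd := fun i => pc_bd rk hF.bd n q i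
    zero := fun i => pc_zero rk hep hth hF.zero n q i
    once := fun t ω => by
      rw [at_pc_w rk hq, at_pc_w rk hq]
      rcases hF.once t ω with h | h
      · exact Or.inl (by rw [h])
      · refine Or.inr ?_
        rw [h]
        funext d
        exact zero_div _
    fut := hfut
    tail := fun i hi => (hfut i hi).tail (pc_dep rk hF.dep n q i) hm
    mean := fun i hi => (hfut i hi).mean.trans (by linarith)
    rare := fun i hi => by
      have hr : ∀ i, i ≠ w → (S 0).Rare univ i (F i) (th 0) acc0 := fun i hi =>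
        Sys.Rare.mono _ (hF.rare i hi) h0 le_rfl
      exact Sys.Rare.mono _ (pc_rare rk hF.bd (hth n).le (rs_rare hF.dep hF.bd hep hth hr n hi)
        (rs_rare hF.dep hF.bd hep hth hr (n + 1) hi) (hth (n + 1)).le (hac n) (hac (n + 1))) h2 h3 }

/-- **the structured face of a piece** -/
def strFc_pc {δ : ι} {m0 θ0 acc0 : ℝ} {M : ℕ → ℝ} (hF : FacesCc (S 0) w δ F m0 (M 0) θ0 acc0) (hep : ∀ n, 0 < ep n)
    (hth : ∀ n, 0 < th n) (hM : ∀ n, 0 ≤ M n) (hMs : ∀ n, (A n).Rt * M n ≤ M (n + 1)) {n : ℕ} {q : ι} (hq : q ≠ w)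
    {m T : ℝ} (h1 : (A n).Rt * (64 * (1 + M n) / (3 * ep n ^ 2)) ≤ m)
    (h2 : 64 * (1 + M (n + 1)) / (3 * ep (n + 1) ^ 2) ≤ m) (h3 : 32 * (1 + 4 * M n) / (ep n ^ 3 * th n) ≤ T)
    (h4 : 32 * (1 + 4 * M (n + 1)) / (ep (n + 1) ^ 3 * th (n + 1)) ≤ T) (h5 : 1 / m ≤ ep n)
    (h6 : 1 / m ≤ ep (n + 1)) : StrF (S (n + 1)) univ δ q (pc A ep th w F rk n q q) m T where
  e0 := ep n
  e1 := ep (n + 1)
  pe0 := h5
  pe1 := h6
  b0 := ((bl (A := A) hep hth (hF.dep q) (hF.bd q) (hF.zero q) hM hMs (hF.fut q hq) n).lift (A n)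
    (by have := hM n; have := hep n; positivity)).mono h1 h3
  b1 := (bl (A := A) hep hth (hF.dep q) (hF.bd q) (hF.zero q) hM hMs (hF.fut q hq) (n + 1)).mono h2 h4
  coin0 := fun hqδ t g ξ ξ' => by
    show (bl (A := A) hep hth (hF.dep q) (hF.bd q) (hF.zero q) hM hMs (hF.fut q hq) n).L t ((A n).cg t g) ξ =
      (bl (A := A) hep hth (hF.dep q) (hF.bd q) (hF.zero q) hM hMs (hF.fut q hq) n).L t ((A n).cg t g) ξ'
    rw [bl_L]
    exact ls_coin (hF.coin q hqδ) n t _ ξ ξ'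
  coin1 := fun hqδ t g ξ ξ' => ls_coin (A := A) (ep := ep) (th := th) (hF.coin q hqδ) (n + 1) t g ξ ξ'
  eq := fun t g ξ x d => by
    have e1 : pc A ep th w F rk n q q t g ξ x d =
        (ss A ep th (F q) q (n + 1) t g ξ x d - ss A ep th (F q) q n t ((A n).cg t g) ξ x d) / 4 := by
      unfold pc
      rw [pcf_self]
      show (rs A ep th w F n q t ((A n).cg t g) ξ x d - rs A ep th w F (n + 1) q t g ξ x d) / 4 = _
      unfold rs
      rw [if_neg hq, if_neg hq]
      show (ps A (F q) n t ((A n).cg t g) ξ x d - _ - (ps A (F q) n t ((A n).cg t g) ξ x d - _)) / 4 = _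
      ring
    rw [e1]
    show _ = (psi (ep (n + 1)) (mvals univ q (ls A ep th (F q) q (n + 1) t g ξ x) x d) -
      psi (ep n) (mvals univ q ((bl (A := A) hep hth (hF.dep q) (hF.bd q) (hF.zero q) hM hMs (hF.fut q hq) n).L t
        ((A n).cg t g) ξ x) x d)) / 4
    rw [bl_L]
    rfl

end abs

/-- **THE LAYERS WITH A KEPT FACE AND A COIN** -/
theorem layers_c (j : ℕ) (hj : 2 ≤ j) {κ : ℝ} (hκ : 0 < κ) (C : ℕ) : ∃ C1 : ℕ, LayersCc j κ C C1 := by
  set C1 : ℕ := max C 1 with hC1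
  obtain ⟨C', hC', hG⟩ := exists_gsn j C1 128 (by omega) (le_max_right _ _) (by norm_num) hκ
  refine ⟨C', ?_⟩
  intro ι Θ Ξ Q _ _ _ _ _ _ _ _ k N σ w δ hN h hcard hδ β H hβ hβ2 hβH hK hne F hF
  refine ⟨4 ^ Fintype.card ι, ?_⟩
  have hK' : (((j + 4) * 2 ^ (h + 3) : ℕ) : ℝ) ≤ Real.exp H := by
    rw [← hcard]
    exact hK
  obtain ⟨⟨hh, ep, th, Lm, HH, hh0, hhm, th0, thp, epp, epa, epo, tha, HHH, bH, KH, mv, acc0, ep1, ep2, ne1, ne2, rar,
    LmH, LmE, thick, sum, lim⟩⟩ := hG β H hβ hβ2 hβH h hK' hne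
  subst hh0
  have hj0 : 0 < j := by omega
  have hjr : (2 : ℝ) ≤ j := by exact_mod_cast hj
  have hnt : Nontrivial ι := by
    rw [← Fintype.one_lt_card_iff_nontrivial]
    omega
  have hTK : ∀ v, Nonempty (TK (univ : Finset ι) v) := by
    intro v
    obtain ⟨v', hv⟩ := exists_ne v
    exact ⟨⟨v', mem_erase.2 ⟨hv, mem_univ v'⟩⟩⟩
  have hH1 : 1 ≤ H := by
    have : 1 ≤ 1 / β := by
      rw [le_div_iff₀ hβ]
      linarith
    linarith
  have hMv : ∀ n, MvOk hh ep H (HH n) n := fun n =>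
    ⟨epp, epo, epa n, hH1, by
      have h1 := mv n
      push_cast at h1
      have h2 := epp (n + 1)
      refine le_trans (div_le_div_of_nonneg_right ?_ (by positivity)) h1
      have h3 : (1 : ℝ) ≤ 2 ^ (hh (n + 1) - hh 0) := one_le_pow₀ (by norm_num)
      linarith⟩
  have hbp := fun n => bb_pos hj0 hβ n
  have hbb1 : ∀ n, bb j β n ≤ 1 / 2 := fun n => (bb_le hj0 hβ n).trans hβ2
  have hbbC : ∀ n, bb j β n ^ C1 ≤ bb j β n := fun n =>
    pow_le_of_le_one (hbp n).le ((hbb1 n).trans (by norm_num)) (by omega)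
  have hbbD : ∀ n, bb j β n ^ C1 ≤ bb j β n ^ C := fun n =>
    pow_le_pow_of_le_one (hbp n).le ((hbb1 n).trans (by norm_num)) (le_max_left _ _)
  have hHH1 : ∀ n, 1 ≤ HH n := fun n => hH1.trans (HHH n)
  let A : ∀ n, FineS (binSys (N := N) Θ Ξ Q σ w hN (hh n)) (binSys Θ Ξ Q σ w hN (hh (n + 1))) :=
    fun n => binFine σ w hN (hhm n)
  have hRt : ∀ n, (A n).Rt = 2 ^ (hh (n + 1) - hh n) := fun _ => rfl
  set M : ℕ → ℝ := fun n => 2 ^ (hh n - hh 0) * H with hMdef
  have hM : ∀ n, 0 ≤ M n := fun n => by positivity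
  have hMs : ∀ n, (A n).Rt * M n ≤ M (n + 1) := fun n => by
    rw [hRt]
    simp only [hMdef]
    rw [← mul_assoc, hh_mul hhm]
  have hF' : FacesCc (binSys Θ Ξ Q σ w hN (hh 0)) w δ F (1 + 2 * H) (M 0) (Real.exp (-H ^ C')) (β ^ C') := by
    have h1 : M 0 = H := by
      simp only [hMdef]
      rw [Nat.sub_self, pow_zero, one_mul]
    rw [h1]
    exact hF
  have hn : ∀ n, (binSys (N := N) Θ Ξ Q σ w hN (hh n)).near = 8 * ((2 : ℝ) ^ hh n)⁻¹ := fun _ => rfl
  have hac : ∀ n, ac ep (β ^ C') n ≤ 4 * (bb j β n ^ C1 / 128) := by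
    intro n
    unfold ac
    cases n with
    | zero =>
      rw [if_pos rfl]
      have := acc0
      have h5 : (0 : ℝ) ≤ β ^ C' := by positivity
      push_cast at this
      linarith
    | succ n =>
      rw [if_neg (Nat.succ_ne_zero n)]
      have := ep2 n
      push_cast at this
      linarith
  refine ⟨{
    hn := fun n => hh (n + 1)
    bn := bb j β
    Hn := HH
    Ln := Lm
    Pc := fun n q => pc A ep th w F rk n q
    Z := fun L t ω => pT (binSys Θ Ξ Q σ w hN (hh L)) univ (rs A ep th w F L) t ω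
    b0 := hbp
    b2 := hbb1
    bH := bH
    KH := fun n => ?_
    nH := fun n => ?_
    HL := fun n => ?_
    LH := LmE
    fac := fun n q hq => ?_
    str := fun n q hq => ?_
    id := fun L t _ ω => ident (A := A) (ep := ep) (th := th) (w := w) (F := F) rk rk_inj L t ω
    c00 := by positivity
    sb := fun L => ?_
    sH := fun L => ?_
    last := ?_ }⟩
  · have h1 := KH n
    show (((Fintype.card ι + 4) * 2 ^ (hh (n + 1) + 3) : ℕ) : ℝ) ≤ _
    rw [hcard]
    exact h1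
  · rw [hn]
    have h1 := ne1 n
    have h5 : 0 < bb j β n ^ C1 := pow_pos (hbp n) _
    exact (h1.trans (div_le_self h5.le (by norm_num))).trans (hbbD n)
  · exact (pow_le_pow_right₀ (hHH1 n) (le_max_left _ _)).trans (LmH n)
  · refine facesCc_pc (A := A) rk hF' epp thp th0.ge (by positivity) hM hMs hq (by linarith [hHH1 n]) ?_ ?_ ?_
    · have f1 := (hMv n).fut1
      have f0 := (hMv n).fut0 hhm
      have h1 : (A n).Rt * fm M ep n + fm M ep (n + 1) =
        (2 : ℝ) ^ (hh (n + 1) - hh n) * (2 ^ (hh n - hh 0) * H + 8 * (1 + 2 ^ (hh n - hh 0) * H) / ep n ^ 2) +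
        (2 ^ (hh (n + 1) - hh 0) * H + 8 * (1 + 2 ^ (hh (n + 1) - hh 0) * H) / ep (n + 1) ^ 2) := rfl
      rw [h1]
      linarith [hHH1 n]
    · refine le_trans ?_ (rar n)
      rw [hRt, hcard, ← pow_mul]
      have h1 : (2 : ℝ) ^ ((hh (n + 1) - hh n) * j) ≤ 2 ^ (j * hh (n + 1)) := by
        rw [mul_comm]
        exact pow_le_pow_right₀ (by norm_num) (Nat.mul_le_mul_left _ (Nat.sub_le _ _))
      have h2 : (1 : ℝ) ≤ 2 ^ (j * hh (n + 1)) := one_le_pow₀ (by norm_num)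
      have h3 := thp n
      have h4 := thp (n + 1)
      have h5 := mul_le_mul_of_nonneg_right h1 h3.le
      have h6 : th (n + 1) ≤ 2 ^ (j * hh (n + 1)) * th (n + 1) := le_mul_of_one_le_left h4.le h2
      have h7 : (0 : ℝ) ≤ 2 ^ (j * hh (n + 1)) * (th n + th (n + 1)) := by positivity
      push_cast
      nlinarith
    · have h1 := ep1 n
      have h2 := ne1 n
      have h3 := ne2 n
      have h4 := hac n
      have h5 : ac ep (β ^ C') (n + 1) = 4 * ep (n + 1) := by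
        unfold ac
        rw [if_neg (Nat.succ_ne_zero n)]
      have h6 : 0 < bb j β n ^ C1 := pow_pos (hbp n) _
      rw [hn, hn, h5]
      push_cast at h1 h2 h3
      refine le_trans ?_ (hbbD n)
      linarith
  · obtain ⟨n1, n2, n3, n4, n5, n6, n7⟩ := num_str (hMv n) hhm
    have t1 : (th (n + 1))⁻¹ ≤ Real.exp ((1 + κ) * Lm n) := by
      rw [inv_le_comm₀ (thp (n + 1)) (Real.exp_pos _), ← Real.exp_neg]
      exact thick n
    have t2 : (th n)⁻¹ ≤ Real.exp ((1 + κ) * Lm n) := le_trans (inv_anti₀ (thp (n + 1)) (tha n)) t1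
    have hT : ∀ {c : ℝ} {n' : ℕ} {x : ℝ}, c / ep n' ^ 3 ≤ HH n → 0 < x → x⁻¹ ≤ Real.exp ((1 + κ) * Lm n) →
        c / (ep n' ^ 3 * x) ≤ HH n * Real.exp ((1 + κ) * Lm n) := by
      intro c n' x h1 h2 h3
      rw [← div_div, div_eq_mul_inv]
      exact mul_le_mul h1 h3 (by positivity) (by linarith)
    exact ⟨strFc_pc (A := A) rk hF' epp thp hM hMs hq n1 n2 (hT n3 (thp n) t2) (hT n4 (thp (n + 1)) t1) n7 n6⟩
  · have h1 : ∀ n ∈ range L, (Fintype.card ι : ℝ) * 4 ^ Fintype.card ι * bb j β n =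
        β / 4 * (1 / ((n : ℝ) + 1) ^ 2) := by
      intro n _
      rw [hcard]
      unfold GS.bb
      have : (j : ℝ) ≠ 0 := by positivity
      field_simp
    rw [Finset.sum_congr rfl h1, ← Finset.mul_sum]
    have h2 := mul_le_mul_of_nonneg_left (sum_inv_sq L) (by positivity : 0 ≤ β / 4)
    linarith
  · rw [hcard]
    exact sum L
  · intro ε hε
    set α : ℝ := ε / (2 * ((N : ℝ) + 1)) with hα
    have hα0 : 0 < α := by positivity
    obtain ⟨L, hL⟩ := lim (α * α) (by positivity)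
    refine ⟨L + 1, ?_⟩
    have a3 : (binSys Θ Ξ Q σ w hN (hh (L + 1))).Rare univ δ (rs A ep th w F (L + 1) δ) (th (L + 1))
        (ac ep (β ^ C') (L + 1)) :=
      rs_rare (A := A) hF'.dep hF'.bd epp thp (fun v hv => Sys.Rare.mono _ (hF'.rare v hv) th0.ge le_rfl) (L + 1) hδ
    have hbd : (2 : ℝ) ^ ((univ : Finset ι).card - 1) * ac ep (β ^ C') (L + 1) + 2 ^ (univ : Finset ι).card *
        (binSys Θ Ξ Q σ w hN (hh (L + 1))).near ≤ β / 4 := by
      have h1 := hac (L + 1)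
      have h1' := hbbC (L + 1)
      have h0 : 0 ≤ ac ep (β ^ C') (L + 1) := by
        unfold ac
        rw [if_neg (Nat.succ_ne_zero L)]
        have := epp (L + 1)
        positivity
      have h2 : (binSys (N := N) Θ Ξ Q σ w hN (hh (L + 1))).near ≤ bb j β (L + 1) / 128 := by
        have h3 := ne2 (L + 1)
        push_cast at h3
        rw [hn]
        linarith
      have h3 : (2 : ℝ) ^ ((univ : Finset ι).card - 1) ≤ 2 ^ (univ : Finset ι).card :=
        pow_le_pow_right₀ (by norm_num) (Nat.sub_le _ _)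
      have h4 : (2 : ℝ) ^ (univ : Finset ι).card * bb j β (L + 1) ≤ β := by
        rw [Finset.card_univ, hcard]
        unfold GS.bb
        rw [mul_div_assoc', div_le_iff₀ (by positivity)]
        have h5 : (2 : ℝ) ^ j ≤ 4 ^ j := pow_le_pow_left₀ (by norm_num) (by norm_num) j
        have h6 : (1 : ℝ) ≤ 4 * j * (((L + 1 : ℕ) : ℝ) + 1) ^ 2 := by
          have h7 : (1 : ℝ) ≤ (((L + 1 : ℕ) : ℝ) + 1) ^ 2 := by
            have := Nat.cast_nonneg (α := ℝ) (L + 1)
            nlinarith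
          nlinarith
        have h7 : (0 : ℝ) < 4 ^ j := by positivity
        have h8 : (4 : ℝ) ^ j ≤ 4 * j * (((L + 1 : ℕ) : ℝ) + 1) ^ 2 * 4 ^ j := le_mul_of_one_le_left h7.le h6
        calc (2 : ℝ) ^ j * β ≤ 4 ^ j * β := mul_le_mul_of_nonneg_right h5 hβ.le
          _ ≤ (4 * j * (((L + 1 : ℕ) : ℝ) + 1) ^ 2 * 4 ^ j) * β := mul_le_mul_of_nonneg_right h8 hβ.le
          _ = _ := by ring
      have h5 : (0 : ℝ) ≤ (2 : ℝ) ^ (univ : Finset ι).card := by positivity
      have h6 : (0 : ℝ) ≤ (2 : ℝ) ^ ((univ : Finset ι).card - 1) := by positivity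
      have h7 := bb_pos hj0 hβ (L + 1)
      have h9 : (2 : ℝ) ^ ((univ : Finset ι).card - 1) * ac ep (β ^ C') (L + 1) ≤
          2 ^ (univ : Finset ι).card * (4 * (bb j β (L + 1) / 128)) :=
        mul_le_mul h3 (by linarith) h0 h5
      have h10 := mul_le_mul_of_nonneg_left h2 h5
      have h11 : (2 : ℝ) ^ (univ : Finset ι).card * (4 * (bb j β (L + 1) / 128)) +
          2 ^ (univ : Finset ι).card * (bb j β (L + 1) / 128) =
          5 / 128 * ((2 : ℝ) ^ (univ : Finset ι).card * bb j β (L + 1)) := by ring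
      linarith
    have h1 := (binSys Θ Ξ Q σ w hN (hh (L + 1))).pr_last (mem_univ δ)
      (rs A ep th w F (L + 1)) (thp (L + 1)).le a3 (fun v _ => rs_dep hF'.dep (L + 1) v)
      (fun v _ hv => rs_coin1 (hF'.coin v hv) (L + 1)) (zero_lt_two) (fun v _ => rs_bd hF'.bd (L + 1) v) hbd hα0
    refine h1.trans ?_
    have h2 : (binSys (N := N) Θ Ξ Q σ w hN (hh (L + 1))).K * (th (L + 1) / α) ≤ α := by
      rw [← mul_div_assoc, div_le_iff₀ hα0]
      refine le_trans (le_of_eq ?_) hL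
      show (((Fintype.card ι + 4) * 2 ^ (hh (L + 1) + 3) : ℕ) : ℝ) * th (L + 1) = _
      rw [hcard]
    have h3 : ((binSys (N := N) Θ Ξ Q σ w hN (hh (L + 1))).n : ℝ) = N := rfl
    rw [h3]
    have h4 : ((N : ℝ) + 1) * (α + α) = ε := by
      rw [hα]
      field_simp
      ring
    rw [← h4]
    exact mul_le_mul_of_nonneg_left (by linarith) (by positivity)

end

end Pool.Agent.GM.Lay
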