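import Pool.Agent.M3.S1Run

/-!
# GM/MovRun (helper21): signed lists along the tree of face nodes, MOVING functions (rows G1.4, GS.2 (1) of table gm)

The machine of `M3/S1Run` for a function `F n gam p d` which may change along the path (`F n gam p ≠ F (n-1) (prev gam) p` is
a MOVE of the point `p`); births of the time `n` AFTER the moves.  `Nodes`, `Tests`, `Free` are those of `M3/S1Run`
(points with coins: `P = X × Ξ`, cells = cells × all coins, coin-free tests).
* `lstM`, `preM`, `pubsM`; `p1M` (product tests of `F - struc` at every node after the moves);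
* `MovB A F m0` : mean number of future moves at most `m0` from every state;
* `futureM`, `birthsM_le` : `E len <= 2 (1 + 4 m0) / ep^2`; `futureM_le` : from every state `<= 8 (1 + m0) / ep^2`;
* `tailM_le`, `pubsM_le`.
-/

set_option autoImplicit false
set_option linter.unusedSectionVars false

namespace Pool.Agent.GM

open Finset Pool.Agent.PWZ Pool.Agent.M3

noncomputable section

variable {ι P V : Type*} {Gam : ℕ → Type*} [Fintype V]

/-- the signed lists: `N` steps of the RULE at every node, after the moves -/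
def lstM (D : Nodes P V Gam) (S : Tests ι P V) (ep thr : ℝ) (N : ℕ) (F : ∀ n, Gam n → P → V → ℝ) :
    ∀ n, Gam n → P → List (Birth (ι → Bool))
  | 0, γ, p => node ep thr S.val (F 0 γ) (D.J 0 γ) (D.cell 0 p) 0 (fun _ => []) N p
  | n + 1, γ, p => node ep thr S.val (F (n + 1) γ) (D.J (n + 1) γ) (D.cell (n + 1) p) (n + 1)
      (lstM D S ep thr N F n (D.prev n γ)) N p

/-- the lists before the births of the time `n` -/
def preM (D : Nodes P V Gam) (S : Tests ι P V) (ep thr : ℝ) (N : ℕ) (F : ∀ n, Gam n → P → V → ℝ) :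
    ∀ n, Gam n → P → List (Birth (ι → Bool))
  | 0, _ => fun _ => []
  | n + 1, γ => lstM D S ep thr N F n (D.prev n γ)

/-- the number of public births at the node of `p` -/
def pubsM (D : Nodes P V Gam) (S : Tests ι P V) (ep thr : ℝ) (N : ℕ) (F : ∀ n, Gam n → P → V → ℝ) (n : ℕ)
    (γ : Gam n) (p : P) : ℕ :=
  nHit ep thr S.val (F n γ) (D.J n γ) (D.cell n p) n (preM D S ep thr N F n γ) N

section static

variable (D : Nodes P V Gam) (S : Tests ι P V) {ep thr : ℝ} {N : ℕ} {F : ∀ n, Gam n → P → V → ℝ}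

theorem lstM_eq (n : ℕ) (γ : Gam n) (p : P) :
    lstM D S ep thr N F n γ p =
      node ep thr S.val (F n γ) (D.J n γ) (D.cell n p) n (preM D S ep thr N F n γ) N p := by
  cases n <;> rfl

theorem lstM_eq_cell (n : ℕ) (γ : Gam n) {p q : P} (hq : q ∈ D.cell n p) :
    lstM D S ep thr N F n γ q =
      node ep thr S.val (F n γ) (D.J n γ) (D.cell n p) n (preM D S ep thr N F n γ) N q := by
  rw [lstM_eq, D.coh n p q hq]

theorem pubsM_cell (n : ℕ) (γ : Gam n) {p q : P} (hq : q ∈ D.cell n p) :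
    pubsM D S ep thr N F n γ q = pubsM D S ep thr N F n γ p := by
  unfold pubsM
  rw [D.coh n p q hq]

/-- the lists are cumulative -/
theorem preM_suffix (n : ℕ) (γ : Gam n) (p : P) :
    preM D S ep thr N F n γ p <:+ lstM D S ep thr N F n γ p := by
  rw [lstM_eq]
  exact node_suffix _ _ _ _

theorem preM_length_le (n : ℕ) (γ : Gam n) (p : P) :
    (preM D S ep thr N F n γ p).length ≤ (lstM D S ep thr N F n γ p).length := (preM_suffix D S n γ p).length_le

/-- the lists only see the functions along the path: two moving functions which agree up to the time `n` -/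
theorem lstM_congr {F' : ∀ n, Gam n → P → V → ℝ} (h : ∀ n γ p, F n γ p = F' n γ p) (n : ℕ) (γ : Gam n) (p : P) :
    lstM D S ep thr N F n γ p = lstM D S ep thr N F' n γ p := by
  have : F = F' := by
    funext n γ p
    exact h n γ p
  rw [this]

/-- (P1), sign tests -/
theorem p1M_sign (n : ℕ) (γ : Gam n) (p : P) (hF : ∀ q ∈ D.cell n p, ∀ d, |F n γ q d| ≤ 1) (hep : 0 < ep)
    (hthr : 0 < thr) (hN : 16 / (3 * ep ^ 2 * thr) < N) (τ : ι → Bool) :
    ∑ q ∈ D.cell n p, ind (ep ≤ (D.J n γ).E (fun d =>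
      resid ep S.val (F n γ) (lstM D S ep thr N F n γ q) q d * S.val τ q d)) ≤ thr * (D.cell n p).card := by
  have h1 := node_end (ep := ep) (thr := thr) (val := S.val) (F := F n γ) (Q := D.J n γ) (C := D.cell n p)
    ⟨p, D.self n p⟩ hF (fun τ q _ d => S.val_sq τ q d) hep hthr n (preM D S ep thr N F n γ) hN
  refine (le_of_eq ?_).trans (not_hit_iff h1 τ)
  refine Finset.sum_congr rfl (fun q hq => ?_)
  rw [lstM_eq_cell D S n γ hq]

/-- (P1): the product test with `4 ep` at every node, after the moves, for bounded tests -/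
theorem p1M [Fintype ι] (n : ℕ) (γ : Gam n) (p : P) (hF : ∀ q ∈ D.cell n p, ∀ d, |F n γ q d| ≤ 1) (hep : 0 < ep)
    (hthr : 0 < thr) (hN : 16 / (3 * ep ^ 2 * thr) < N) (x : ι → ℝ) (hx : ∀ i, |x i| ≤ 1) :
    3 * ep * ∑ q ∈ D.cell n p, ind (4 * ep ≤ |(D.J n γ).E (fun d =>
      resid ep S.val (F n γ) (lstM D S ep thr N F n γ q) q d * S.test x q d)|) ≤
      4 * (thr * (D.cell n p).card) := by
  refine rounding_abs S.aff S.neg (D.J n γ) (fun q d => resid ep S.val (F n γ) (lstM D S ep thr N F n γ q) q d)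
    (D.cell n p) hep (fun q hq d => abs_resid (hF q hq d) _) (fun e he q _ d => ?_) (fun e he => ?_) x hx
  · have h := S.sq e he q d
    rw [← sq_abs] at h
    nlinarith [abs_nonneg (S.test e q d)]
  · obtain ⟨τ, hτ⟩ := exists_sgn e he
    have h := p1M_sign D S n γ p hF hep hthr hN τ
    unfold Tests.val at h ⊢
    rw [hτ] at h
    exact h

theorem energy_lstM {n : ℕ} {γ : Gam n} {p : P} (hF : ∀ d, |F n γ p d| ≤ 1) (hep : 0 ≤ ep) :
    energy ep S.val (F n γ) (D.J n γ) (lstM D S ep thr N F n γ p) p +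
      3 / 4 * ep ^ 2 * ((lstM D S ep thr N F n γ p).length - (preM D S ep thr N F n γ p).length : ℝ) ≤
      energy ep S.val (F n γ) (D.J n γ) (preM D S ep thr N F n γ p) p := by
  rw [lstM_eq]
  exact energy_node hF (fun τ d => S.val_sq τ p d) hep n _ N

theorem lstM_jump {n : ℕ} {γ : Gam n} {p : P} (hF : ∀ d, |F n γ p d| ≤ 1) (hep : 0 < ep) :
    ((lstM D S ep thr N F n γ p).length - (preM D S ep thr N F n γ p).length : ℝ) ≤ 16 / (3 * ep ^ 2) := by
  rw [lstM_eq]
  exact node_jump hF (fun τ d => S.val_sq τ p d) hep n _ N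

/-- every public birth is thick -/
theorem pubsM_thick (n : ℕ) (γ : Gam n) (p : P) :
    thr * (D.cell n p).card * pubsM D S ep thr N F n γ p ≤
      ∑ q ∈ D.cell n p, ((lstM D S ep thr N F n γ q).length - (preM D S ep thr N F n γ q).length : ℝ) := by
  refine (nHit_le n (preM D S ep thr N F n γ) N).trans (le_of_eq ?_)
  refine Finset.sum_congr rfl (fun q hq => ?_)
  rw [lstM_eq_cell D S n γ hq]

/-- new births happen only at a node with a public birth -/
theorem lstM_of_pubs_zero {n : ℕ} {γ : Gam n} {p : P} (h : pubsM D S ep thr N F n γ p = 0) :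
    lstM D S ep thr N F n γ p = preM D S ep thr N F n γ p := by
  classical
  rw [lstM_eq]
  unfold pubsM nHit at h
  rw [Finset.card_eq_zero, Finset.filter_eq_empty_iff] at h
  rcases Nat.eq_zero_or_pos N with hN | hN
  · rw [hN]; rfl
  · have h0 : ¬ HitR ep thr S.val (F n γ) (D.J n γ) (D.cell n p)
        (node ep thr S.val (F n γ) (D.J n γ) (D.cell n p) n (preM D S ep thr N F n γ) 0) := h (Finset.mem_range.2 hN)
    rw [node_stop h0 (Nat.zero_le N)]
    rfl

end static

/-! ### the free law of a pair -/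

section free

variable {Om : Type*} [Fintype Om] {Pm : FP Om} {κ : ℕ → Type*} {X : ∀ n, Om → κ n} {δ : ℝ} {Nm : ℕ}
  {D : Nodes P V Gam} (A : Free D Pm X δ Nm) (S : Tests ι P V) {ep thr : ℝ} {N : ℕ}
  {F : ∀ n, Gam n → P → V → ℝ}

/-- the value of the moving function at the random pair -/
def mvF (A : Free D Pm X δ Nm) (F : ∀ n, Gam n → P → V → ℝ) (n : ℕ) (w : Om) : V → ℝ := F n (A.g n w) (A.pr w)

/-- mean number of future moves at most `m0` from every state -/
def MovB (A : Free D Pm X δ Nm) (F : ∀ n, Gam n → P → V → ℝ) (m0 : ℝ) : Prop :=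
  ∀ n, ∀ f : Om → ℝ, Fac (X n) f → (∀ w, 0 ≤ f w) →
    ∑ u ∈ Finset.Ico n Nm, Pm.E (fun w => f w * ind (mvF A F (u + 1) w ≠ mvF A F u w)) ≤ m0 * Pm.E f

/-- the length of the list of the random pair -/
def lenM (A : Free D Pm X δ Nm) (S : Tests ι P V) (ep thr : ℝ) (N : ℕ) (F : ∀ n, Gam n → P → V → ℝ) (n : ℕ)
    (w : Om) : ℝ := (lstM D S ep thr N F n (A.g n w) (A.pr w)).length

/-- the energy in the exact window -/
def enM (A : Free D Pm X δ Nm) (S : Tests ι P V) (ep thr : ℝ) (N : ℕ) (F : ∀ n, Gam n → P → V → ℝ) (n : ℕ)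
    (w : Om) : ℝ := energy ep S.val (F n (A.g n w)) (A.W n w) (lstM D S ep thr N F n (A.g n w) (A.pr w)) (A.pr w)

theorem preM_succ (n : ℕ) (w : Om) :
    preM D S ep thr N F (n + 1) (A.g (n + 1) w) = lstM D S ep thr N F n (A.g n w) := by
  show lstM D S ep thr N F n (D.prev n (A.g (n + 1) w)) = _
  rw [A.gprev]

theorem lenM_mono (n : ℕ) (w : Om) : lenM A S ep thr N F n w ≤ lenM A S ep thr N F (n + 1) w := by
  unfold lenM
  have h := preM_length_le D S (ep := ep) (thr := thr) (N := N) (F := F) (n + 1) (A.g (n + 1) w) (A.pr w)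
  rw [preM_succ] at h
  exact_mod_cast h

theorem lenM_jump (hF : ∀ n w d, |mvF A F n w d| ≤ 1) (hep : 0 < ep) (n : ℕ) (w : Om) :
    lenM A S ep thr N F (n + 1) w - lenM A S ep thr N F n w ≤ 16 / (3 * ep ^ 2) := by
  unfold lenM
  have h := lstM_jump D S (thr := thr) (N := N) (F := F) (hF (n + 1) w) hep
  rwa [preM_succ] at h

theorem lenM_zero (hF : ∀ n w d, |mvF A F n w d| ≤ 1) (hep : 0 < ep) (w : Om) :
    lenM A S ep thr N F 0 w ≤ 16 / (3 * ep ^ 2) := by
  unfold lenM
  have h := lstM_jump D S (thr := thr) (N := N) (F := F) (hF 0 w) hep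
  have h0 : ((preM D S ep thr N F 0 (A.g 0 w) (A.pr w)).length : ℝ) = 0 := by
    show (([] : List (Birth (ι → Bool))).length : ℝ) = 0
    simp
  rw [h0, sub_zero] at h
  exact h

theorem lenM_fac (n : ℕ) : Fac (X n) (lenM A S ep thr N F n) := by
  intro v w hvw
  unfold lenM
  rw [A.gX n v w hvw, A.prX n v w hvw]

theorem mvF_fac (n : ℕ) : Fac (X n) (mvF A F n) := by
  intro v w hvw
  unfold mvF
  rw [A.gX n v w hvw, A.prX n v w hvw]

/-- the drop of the exact energy at the births of one node, after the moves -/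
theorem dropM (hF : ∀ n w d, |mvF A F n w d| ≤ 1) (hep : 0 ≤ ep) (hδ : 16 * δ ≤ ep ^ 2) (n : ℕ) (w : Om) :
    energy ep S.val (F n (A.g n w)) (A.W n w) (lstM D S ep thr N F n (A.g n w) (A.pr w)) (A.pr w) +
      ep ^ 2 / 2 * ((lstM D S ep thr N F n (A.g n w) (A.pr w)).length -
        (preM D S ep thr N F n (A.g n w) (A.pr w)).length : ℝ) ≤
      energy ep S.val (F n (A.g n w)) (A.W n w) (preM D S ep thr N F n (A.g n w) (A.pr w)) (A.pr w) := by
  set l := lstM D S ep thr N F n (A.g n w) (A.pr w) with hl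
  set l0 := preM D S ep thr N F n (A.g n w) (A.pr w) with hl0
  have hFp : ∀ d, |F n (A.g n w) (A.pr w) d| ≤ 1 := hF n w
  have hsuf : l0 <:+ l := preM_suffix D S n (A.g n w) (A.pr w)
  by_cases hle : l.length = l0.length
  · have heq : l0 = l := hsuf.eq_of_length hle.symm
    rw [heq, sub_self, mul_zero, add_zero]
  · have h1 : (l0.length : ℝ) + 1 ≤ l.length := by
      have h2 := hsuf.length_le
      have h3 : l0.length + 1 ≤ l.length := by omega
      exact_mod_cast h3
    have h2 := energy_lstM D S (thr := thr) (N := N) hFp hep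
    rw [← hl, ← hl0] at h2
    have h3 := A.close n w (fun d => (resid ep S.val (F n (A.g n w)) l0 (A.pr w) d) ^ 2 -
        (resid ep S.val (F n (A.g n w)) l (A.pr w) d) ^ 2) 4
      (fun d => by
        rw [abs_le]
        have h4 := resid_sq_le (ep := ep) (val := S.val) (hFp d) l0
        have h5 := resid_sq_le (ep := ep) (val := S.val) (hFp d) l
        constructor
        · nlinarith [sq_nonneg (resid ep S.val (F n (A.g n w)) l0 (A.pr w) d)]
        · nlinarith [sq_nonneg (resid ep S.val (F n (A.g n w)) l (A.pr w) d)])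
    rw [FP.E_sub, FP.E_sub] at h3
    obtain ⟨h4, _⟩ := abs_le.1 h3
    unfold energy at h2 ⊢
    nlinarith [sq_nonneg ep]

/-- one step: the moves cost `4` each -/
theorem stepM (hF : ∀ n w d, |mvF A F n w d| ≤ 1) (hep : 0 ≤ ep) (hδ : 16 * δ ≤ ep ^ 2) {n : ℕ} (hn : n < Nm)
    {w : Om} (hw : Pm.p w ≠ 0) :
    Pm.ce (X n) (fun v => enM A S ep thr N F (n + 1) v + ep ^ 2 / 2 * lenM A S ep thr N F (n + 1) v) w ≤
      enM A S ep thr N F n w + ep ^ 2 / 2 * lenM A S ep thr N F n w +
        4 * Pm.ce (X n) (fun v => ind (mvF A F (n + 1) v ≠ mvF A F n v)) w := by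
  have hfac : Fac (X n) (fun v => (fun d => (resid ep S.val (F n (A.g n v))
      (lstM D S ep thr N F n (A.g n v) (A.pr v)) (A.pr v) d) ^ 2 : V → ℝ)) := by
    intro v u hvu
    show (fun d => _) = (fun d => _)
    rw [A.gX n v u hvu, A.prX n v u hvu]
  have h1 := A.mart n hn _ hfac w hw
  have h2 : Pm.ce (X n) (fun v => enM A S ep thr N F (n + 1) v + ep ^ 2 / 2 * lenM A S ep thr N F (n + 1) v) w ≤
      Pm.ce (X n) (fun v => ((A.W (n + 1) v).E (fun d =>
        (resid ep S.val (F n (A.g n v)) (lstM D S ep thr N F n (A.g n v) (A.pr v)) (A.pr v) d) ^ 2) +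
        ep ^ 2 / 2 * lenM A S ep thr N F n v) + 4 * ind (mvF A F (n + 1) v ≠ mvF A F n v)) w := by
    refine Pm.ce_mono (fun v _ => ?_) w
    have h3 := dropM A S (thr := thr) (N := N) hF hep hδ (n + 1) v
    rw [preM_succ] at h3
    have h4 : energy ep S.val (F (n + 1) (A.g (n + 1) v)) (A.W (n + 1) v)
        (lstM D S ep thr N F n (A.g n v) (A.pr v)) (A.pr v) ≤
        (A.W (n + 1) v).E (fun d => (resid ep S.val (F n (A.g n v))
          (lstM D S ep thr N F n (A.g n v) (A.pr v)) (A.pr v) d) ^ 2) +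
          4 * ind (mvF A F (n + 1) v ≠ mvF A F n v) := by
      by_cases hmv : mvF A F (n + 1) v = mvF A F n v
      · rw [ind_not (fun h => h hmv), mul_zero, add_zero]
        refine le_of_eq ?_
        unfold energy
        refine (A.W (n + 1) v).E_congr (fun d _ => ?_)
        have h5 : F (n + 1) (A.g (n + 1) v) (A.pr v) d = F n (A.g n v) (A.pr v) d := congrFun hmv d
        unfold resid
        rw [h5]
      · rw [ind_of hmv, mul_one]
        have h5 := energy_le (ep := ep) (val := S.val) (Q := A.W (n + 1) v) (F := F (n + 1) (A.g (n + 1) v))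
          (p := A.pr v) (hF (n + 1) v) (lstM D S ep thr N F n (A.g n v) (A.pr v))
        have h6 : 0 ≤ (A.W (n + 1) v).E (fun d => (resid ep S.val (F n (A.g n v))
          (lstM D S ep thr N F n (A.g n v) (A.pr v)) (A.pr v) d) ^ 2) :=
          (A.W (n + 1) v).E_nonneg (fun _ _ => sq_nonneg _)
        linarith
    unfold enM lenM
    linarith
  refine h2.trans (le_of_eq ?_)
  rw [Pm.ce_add, Pm.ce_add, h1, Pm.ce_smul, Pm.ce_of_fac (lenM_fac A S n) hw, Pm.ce_smul]
  rfl

/-- the mean of `energy + (ep^2/2) length` increases at most by `4` per move, conditionally on an event of the time `n` -/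
theorem futureM (hF : ∀ n w d, |mvF A F n w d| ≤ 1) (hep : 0 ≤ ep) (hδ : 16 * δ ≤ ep ^ 2) {n : ℕ} {f : Om → ℝ}
    (hf : Fac (X n) f) (hf0 : ∀ w, 0 ≤ f w) {k : ℕ} (hnk : n ≤ k) (hk : k ≤ Nm) :
    Pm.E (fun w => f w * (enM A S ep thr N F k w + ep ^ 2 / 2 * lenM A S ep thr N F k w)) ≤
      Pm.E (fun w => f w * (enM A S ep thr N F n w + ep ^ 2 / 2 * lenM A S ep thr N F n w)) +
        4 * ∑ u ∈ Finset.Ico n k, Pm.E (fun w => f w * ind (mvF A F (u + 1) w ≠ mvF A F u w)) := by
  induction k, hnk using Nat.le_induction with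
  | base => simp
  | succ k hnk ih =>
    have hf' : Fac (X k) f := (A.filt.le hnk).trans hf
    have h1 : Pm.E (fun w => f w * (enM A S ep thr N F (k + 1) w + ep ^ 2 / 2 * lenM A S ep thr N F (k + 1) w)) ≤
        Pm.E (fun w => f w * (enM A S ep thr N F k w + ep ^ 2 / 2 * lenM A S ep thr N F k w)) +
          4 * Pm.E (fun w => f w * ind (mvF A F (k + 1) w ≠ mvF A F k w)) := by
      rw [← Pm.E_mul_ce hf', ← Pm.E_mul_ce hf' (fun w => ind (mvF A F (k + 1) w ≠ mvF A F k w)), ← Pm.E_smul,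
        ← Pm.E_add]
      refine Pm.E_mono (fun w hw => ?_)
      have := mul_le_mul_of_nonneg_left (stepM A S (thr := thr) (N := N) (n := k) hF hep hδ (by omega) hw) (hf0 w)
      rw [mul_add] at this
      linarith
    have h2 := ih (by omega)
    rw [Finset.sum_Ico_succ_top hnk, mul_add]
    linarith

theorem enM_nonneg (n : ℕ) (w : Om) : 0 ≤ enM A S ep thr N F n w := energy_nonneg _ _

theorem enM_le (hF : ∀ n w d, |mvF A F n w d| ≤ 1) (n : ℕ) (w : Om) : enM A S ep thr N F n w ≤ 4 :=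
  energy_le (F := F n (A.g n w)) (p := A.pr w) (hF n w) _

theorem startM (hF : ∀ n w d, |mvF A F n w d| ≤ 1) (hep : 0 ≤ ep) (hδ : 16 * δ ≤ ep ^ 2) (w : Om) :
    enM A S ep thr N F 0 w + ep ^ 2 / 2 * lenM A S ep thr N F 0 w ≤ 1 := by
  have h := dropM A S (thr := thr) (N := N) hF hep hδ 0 w
  have h0 : preM D S ep thr N F 0 (A.g 0 w) (A.pr w) = [] := rfl
  rw [h0] at h
  have h1 := energy_nil_le (ep := ep) (val := S.val) (Q := A.W 0 w) (F := F 0 (A.g 0 w)) (p := A.pr w) (hF 0 w)
  simp only [List.length_nil, Nat.cast_zero, sub_zero] at h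
  unfold enM lenM
  linarith

/-- mean number of births -/
theorem birthsM_le (hF : ∀ n w d, |mvF A F n w d| ≤ 1) (hep : 0 < ep) (hδ : 16 * δ ≤ ep ^ 2) {m0 : ℝ}
    (hM : MovB A F m0) : Pm.E (lenM A S ep thr N F Nm) ≤ 2 * (1 + 4 * m0) / ep ^ 2 := by
  have h1 := futureM A S (thr := thr) (N := N) hF hep.le hδ (n := 0) (Fac.const (X 0) (1 : ℝ))
    (fun _ => zero_le_one) (Nat.zero_le Nm) le_rfl
  have h5 := hM 0 (fun _ => (1 : ℝ)) (Fac.const (X 0) (1 : ℝ)) (fun _ => zero_le_one)
  rw [Pm.E_const, mul_one] at h5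
  simp only [one_mul] at h1 h5
  have h2 : Pm.E (fun w => enM A S ep thr N F 0 w + ep ^ 2 / 2 * lenM A S ep thr N F 0 w) ≤ 1 :=
    Pm.E_le_const (fun w _ => startM A S hF hep.le hδ w)
  have h3 : Pm.E (fun w => ep ^ 2 / 2 * lenM A S ep thr N F Nm w) ≤
      Pm.E (fun w => enM A S ep thr N F Nm w + ep ^ 2 / 2 * lenM A S ep thr N F Nm w) :=
    Pm.E_mono (fun w _ => by linarith [enM_nonneg A S (ep := ep) (thr := thr) (N := N) (F := F) Nm w])
  rw [Pm.E_smul] at h3
  rw [le_div_iff₀ (by positivity)]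
  nlinarith

/-- mean number of future births, on an event of the time `n` -/
theorem futureM_le (hF : ∀ n w d, |mvF A F n w d| ≤ 1) (hep : 0 < ep) (hδ : 16 * δ ≤ ep ^ 2) {m0 : ℝ}
    (hM : MovB A F m0) {n : ℕ} (hn : n ≤ Nm) {f : Om → ℝ} (hf : Fac (X n) f) (hf0 : ∀ w, 0 ≤ f w) :
    Pm.E (fun w => f w * (lenM A S ep thr N F Nm w - lenM A S ep thr N F n w)) ≤
      8 * (1 + m0) / ep ^ 2 * Pm.E f := by
  have h1 := futureM A S (thr := thr) (N := N) hF hep.le hδ hf hf0 hn le_rfl
  have h5 := hM n f hf hf0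
  have h2 : Pm.E (fun w => f w * (ep ^ 2 / 2 * (lenM A S ep thr N F Nm w - lenM A S ep thr N F n w))) ≤
      Pm.E (fun w => f w * 4) + 4 * (m0 * Pm.E f) := by
    have e1 : Pm.E (fun w => f w * (ep ^ 2 / 2 * (lenM A S ep thr N F Nm w - lenM A S ep thr N F n w))) =
        Pm.E (fun w => f w * (ep ^ 2 / 2 * lenM A S ep thr N F Nm w)) -
        Pm.E (fun w => f w * (ep ^ 2 / 2 * lenM A S ep thr N F n w)) := by
      rw [← FP.E_sub]
      exact Pm.E_congr (fun w _ => by ring)
    have e2 : Pm.E (fun w => f w * (enM A S ep thr N F Nm w + ep ^ 2 / 2 * lenM A S ep thr N F Nm w)) =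
        Pm.E (fun w => f w * enM A S ep thr N F Nm w) +
        Pm.E (fun w => f w * (ep ^ 2 / 2 * lenM A S ep thr N F Nm w)) := by
      rw [← FP.E_add]
      exact Pm.E_congr (fun w _ => by ring)
    have e3 : Pm.E (fun w => f w * (enM A S ep thr N F n w + ep ^ 2 / 2 * lenM A S ep thr N F n w)) =
        Pm.E (fun w => f w * enM A S ep thr N F n w) +
        Pm.E (fun w => f w * (ep ^ 2 / 2 * lenM A S ep thr N F n w)) := by
      rw [← FP.E_add]
      exact Pm.E_congr (fun w _ => by ring)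
    have h3 : 0 ≤ Pm.E (fun w => f w * enM A S ep thr N F Nm w) :=
      Pm.E_nonneg (fun w _ => mul_nonneg (hf0 w) (enM_nonneg A S Nm w))
    have h4 : Pm.E (fun w => f w * enM A S ep thr N F n w) ≤ Pm.E (fun w => f w * 4) :=
      Pm.E_mono (fun w _ => mul_le_mul_of_nonneg_left (enM_le A S hF n w) (hf0 w))
    linarith
  have e4 : Pm.E (fun w => f w * (ep ^ 2 / 2 * (lenM A S ep thr N F Nm w - lenM A S ep thr N F n w))) =
      ep ^ 2 / 2 * Pm.E (fun w => f w * (lenM A S ep thr N F Nm w - lenM A S ep thr N F n w)) := by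
    rw [← Pm.E_smul]
    exact Pm.E_congr (fun w _ => by ring)
  rw [e4, Pm.E_mul_const] at h2
  rw [div_mul_eq_mul_div, le_div_iff₀ (by positivity)]
  nlinarith

/-- exponential tails, `k` blocks of `64 (1 + m0) / (3 ep^2)` births -/
theorem tailM_le (hF : ∀ n w d, |mvF A F n w d| ≤ 1) (hep : 0 < ep) (hδ : 16 * δ ≤ ep ^ 2) {m0 : ℝ} (hm0 : 0 ≤ m0)
    (hM : MovB A F m0) (k : ℕ) :
    Pm.Pr (fun w => (k : ℝ) * (64 * (1 + m0) / (3 * ep ^ 2)) ≤ lenM A S ep thr N F Nm w) ≤ (1 / 2) ^ k := by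
  have h := Pm.tail_of_future A.filt (Z := lenM A S ep thr N F) (fun n => lenM_fac A S n)
    (fun n w => lenM_mono A S n w) (j := 16 / (3 * ep ^ 2)) (K := 8 * (1 + m0) / ep ^ 2)
    (fun w => lenM_zero A S hF hep w) (fun n w => lenM_jump A S hF hep n w) (by positivity) Nm
    (fun n hn f hf hf0 => futureM_le A S hF hep hδ hM hn hf hf0) k
  refine le_trans (Pm.Pr_mono fun w _ hw => ?_) h
  refine le_trans (mul_le_mul_of_nonneg_left ?_ (Nat.cast_nonneg k)) hw
  have e1 : 16 / (3 * ep ^ 2) + 2 * (8 * (1 + m0) / ep ^ 2) = (16 + 48 * (1 + m0)) / (3 * ep ^ 2) := by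
    field_simp
    ring
  rw [e1]
  refine div_le_div_of_nonneg_right ?_ (by positivity)
  linarith

/-- the mean number of public births at the nodes of the path of the pair -/
theorem pubsM_le (hF : ∀ n w d, |mvF A F n w d| ≤ 1) (hep : 0 < ep) (hthr : 0 < thr) (hδ : 16 * δ ≤ ep ^ 2)
    {m0 : ℝ} (hM : MovB A F m0)
    (hunif : ∀ n ≤ Nm, ∀ φ : P → Gam n → ℝ, Pm.E (fun w => φ (A.pr w) (A.g n w)) =
      Pm.E (fun w => (∑ q ∈ D.cell n (A.pr w), φ q (A.g n w)) / (D.cell n (A.pr w)).card)) :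
    Pm.E (fun w => ∑ n ∈ range (Nm + 1), (pubsM D S ep thr N F n (A.g n w) (A.pr w) : ℝ)) ≤
      2 * (1 + 4 * m0) / (ep ^ 2 * thr) := by
  have h1 : ∀ n ≤ Nm, thr * Pm.E (fun w => (pubsM D S ep thr N F n (A.g n w) (A.pr w) : ℝ)) ≤
      Pm.E (fun w => ((lstM D S ep thr N F n (A.g n w) (A.pr w)).length -
        (preM D S ep thr N F n (A.g n w) (A.pr w)).length : ℝ)) := by
    intro n hn
    rw [hunif n hn (fun p γ => ((lstM D S ep thr N F n γ p).length - (preM D S ep thr N F n γ p).length : ℝ)),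
      ← Pm.E_smul]
    refine Pm.E_mono (fun w _ => ?_)
    have hc : (0 : ℝ) < (D.cell n (A.pr w)).card := by
      exact_mod_cast Finset.card_pos.2 ⟨_, D.self n (A.pr w)⟩
    rw [le_div_iff₀ hc]
    have h2 := pubsM_thick D S (ep := ep) (thr := thr) (N := N) (F := F) n (A.g n w) (A.pr w)
    linarith
  have h2 : ∀ k ≤ Nm, ∀ w, ∑ n ∈ range (k + 1), ((lstM D S ep thr N F n (A.g n w) (A.pr w)).length -
        (preM D S ep thr N F n (A.g n w) (A.pr w)).length : ℝ) = lenM A S ep thr N F k w := by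
    intro k hk w
    induction k with
    | zero =>
      rw [zero_add, Finset.sum_range_one]
      have h0 : preM D S ep thr N F 0 (A.g 0 w) (A.pr w) = [] := rfl
      rw [h0]
      simp only [List.length_nil, Nat.cast_zero, sub_zero]
      rfl
    | succ k ih =>
      rw [Finset.sum_range_succ, ih (by omega), preM_succ]
      unfold lenM
      ring
  have h3 := birthsM_le A S (thr := thr) (N := N) hF hep hδ hM
  rw [Pm.E_sum]
  have h4 : thr * ∑ n ∈ range (Nm + 1), Pm.E (fun w => (pubsM D S ep thr N F n (A.g n w) (A.pr w) : ℝ)) ≤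
      Pm.E (lenM A S ep thr N F Nm) := by
    rw [Finset.mul_sum]
    calc ∑ n ∈ range (Nm + 1), thr * Pm.E (fun w => (pubsM D S ep thr N F n (A.g n w) (A.pr w) : ℝ))
        ≤ ∑ n ∈ range (Nm + 1), Pm.E (fun w => ((lstM D S ep thr N F n (A.g n w) (A.pr w)).length -
        (preM D S ep thr N F n (A.g n w) (A.pr w)).length : ℝ)) :=
          Finset.sum_le_sum (fun n hn => h1 n (by have := Finset.mem_range.1 hn; omega))
      _ = Pm.E (lenM A S ep thr N F Nm) := by
          rw [← Pm.E_sum]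
          exact Pm.E_congr (fun w _ => h2 Nm le_rfl w)
  rw [le_div_iff₀ (by positivity)]
  rw [le_div_iff₀ (by positivity)] at h3
  nlinarith [sq_nonneg ep]

end free

end

end Pool.Agent.GM
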