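import Pool.Agent.GM.MovRun
import Pool.Agent.GM.SMI
import Pool.Agent.M3.S1Fam

/-!
# GM/MovSys (helper21): one layer of a MOVING face in a geometry `Sys` (rows G1.4, GS.2 (1) of table gm)

`S : Sys`, `Vj` = the unknown vertices, `w ∈ Vj` = the face, `Ψ : Mov Ξ ι Pt Γ (V → ℝ)` a moving function of all vertices
but `w` (and of the coins), bounded by `X`.  Births at every node AFTER the moves: coin free product tests
`∏ i ∈ Vj.erase w, u i` (`u i` misses `w` and `i`), cells = exact values outside `Vj`, cells of `S.cl` inside, all coins;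
windows = the averaged windows `S.ρ`, which are an EXACT martingale (no rounding condition).
* `mLst` (cumulative signed list), `mStr` (structured function), `mRes = Ψ - mStr`;
* `mLst_dep`, `mStr_dep`, `mRes_dep`, `abs_mStr`, `abs_mRes`, `mLst_zero`, `mRes_zero`, `mLst_suffix`;
* `mRes_rare` : `S.Rare Vj w mRes th (4 * ep * X)`;
* `mLst_future`, `mRes_future`, `mLst_mean`, `mLst_tail`; `mPub` (number of public births), `mPub_thick`, `mPub_mean`;
* `mStr_walsh`.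
-/

set_option autoImplicit false
set_option linter.unusedSectionVars false

namespace Pool.Agent.GM

open Finset Pool.Agent.PWZ Pool.Agent.M3 Pool.Agent.M3.TS
open Pool.Agent.M3.Bin (nst thrs nst_lt)

noncomputable section

/-- independent maps, the first with finitely many values -/
theorem E_indep2 {Om : Type*} [Fintype Om] (P : FP Om) {κ1 κ2 : Type*} [Fintype κ1] {X : Om → κ1} {Y : Om → κ2}
    (h : P.Indep X Y) (φ : κ1 → κ2 → ℝ) :
    P.E (fun w => φ (X w) (Y w)) = ∑ x, P.Pr (fun w => X w = x) * P.E (fun w => φ x (Y w)) := by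
  classical
  have h1 : ∀ x, P.Pr (fun w => X w = x) * P.E (fun w => φ x (Y w)) =
      P.E (fun w => ind (X w = x) * φ x (Y w)) := fun x =>
    (h (fun w => ind (X w = x)) (fun w => φ x (Y w)) (Fac.ind fun v w e => by rw [e])
      (fun v w e => by show φ x (Y v) = φ x (Y w); rw [e])).symm
  rw [Finset.sum_congr rfl fun x _ => h1 x, ← P.E_sum]
  refine P.E_congr fun w _ => ?_
  rw [Finset.sum_eq_single (X w)]
  · rw [ind_of rfl, one_mul]
  · intro x _ hx
    rw [ind_not (fun h => hx h.symm), zero_mul]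
  · exact fun h => absurd (mem_univ _) h

variable {ι Om Ξ Pt V Γ κ : Type} [Fintype ι] [DecidableEq ι] [Fintype Om] [Fintype Ξ] [Fintype Pt]
  [Fintype V]

namespace Mv

/-! ### points, cells, windows, tests of a face -/

/-- the points of the face `w`: coins, all vertices but `w` -/
abbrev FPt (ι Ξ Pt : Type) (w : ι) : Type := Ξ × ({j : ι // j ≠ w} → Pt)

/-- all vertices but `w` -/
def rsw (w : ι) (x : ι → Pt) : {j : ι // j ≠ w} → Pt := fun j => x j.1

/-- the value `a` at `w` -/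
def glw (w : ι) (a : Pt) (y : {j : ι // j ≠ w} → Pt) : ι → Pt := fun j => if h : j = w then a else y ⟨j, h⟩

theorem rsw_eq {w : ι} {x y : ι → Pt} : rsw w x = rsw w y ↔ ∀ i ∈ univ.erase w, x i = y i := by
  constructor
  · intro h i hi
    exact congrFun h ⟨i, Finset.ne_of_mem_erase hi⟩
  · intro h
    funext j
    exact h j.1 (Finset.mem_erase.2 ⟨j.2, mem_univ _⟩)

theorem rsw_dep {β : Type} (w : ι) (f : ({j : ι // j ≠ w} → Pt) → β) : Dep (univ.erase w) (fun x => f (rsw w x)) := by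
  intro x y h
  show f (rsw w x) = f (rsw w y)
  rw [rsw_eq.2 h]

theorem glw_ne {w : ι} (a : Pt) (y : {j : ι // j ≠ w} → Pt) {j : ι} (h : j ≠ w) : glw w a y j = y ⟨j, h⟩ := by
  unfold glw
  rw [dif_neg h]

theorem glw_rsw {β : Type} {w : ι} {f : (ι → Pt) → β} (hf : Dep (univ.erase w) f) (a : Pt) (x : ι → Pt) :
    f (glw w a (rsw w x)) = f x :=
  hf _ _ fun i hi => glw_ne a (rsw w x) (Finset.ne_of_mem_erase hi)

/-- sum over all vertices = sum over the vertex `w` and the others -/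
theorem sum_split (w : ι) (f : Pt → ({j : ι // j ≠ w} → Pt) → ℝ) :
    ∑ z : ι → Pt, f (z w) (rsw w z) = ∑ a, ∑ q, f a q := by
  rw [← Fintype.sum_prod_type']
  exact Fintype.sum_equiv (Equiv.piSplitAt w (fun _ => Pt)) _ _ (fun z => rfl)

variable (S : Sys ι Om Ξ Pt V Γ κ)

/-- the same cell: exact values outside `Vj` -/
def sameC (Vj : Finset ι) (w : ι) (t : ℕ) (p q : FPt ι Ξ Pt w) : Prop :=
  (∀ j : {j : ι // j ≠ w}, j.1 ∉ Vj → q.2 j = p.2 j) ∧
    ∀ j : {j : ι // j ≠ w}, j.1 ∈ Vj → S.cl t (q.2 j) = S.cl t (p.2 j)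

open Classical in
/-- the cells of the face -/
def faceCl (Vj : Finset ι) (w : ι) : Bin.Cells (FPt ι Ξ Pt w) where
  cell t p := univ.filter fun q => sameC S Vj w t p q
  self t p := by
    rw [Finset.mem_filter]
    exact ⟨mem_univ _, fun _ _ => rfl, fun _ _ => rfl⟩
  coh t p q hq := by
    rw [Finset.mem_filter] at hq
    obtain ⟨_, h1, h2⟩ := hq
    refine Finset.filter_congr fun r _ => ?_
    unfold sameC
    constructor
    · rintro ⟨h3, h4⟩
      exact ⟨fun j hj => (h3 j hj).trans (h1 j hj), fun j hj => (h4 j hj).trans (h2 j hj)⟩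
    · rintro ⟨h3, h4⟩
      exact ⟨fun j hj => (h3 j hj).trans (h1 j hj).symm, fun j hj => (h4 j hj).trans (h2 j hj).symm⟩

theorem mem_faceCl {Vj : Finset ι} {w : ι} {t : ℕ} {p q : FPt ι Ξ Pt w} :
    q ∈ (faceCl S Vj w).cell t p ↔ sameC S Vj w t p q := by
  classical
  show q ∈ univ.filter _ ↔ _
  rw [Finset.mem_filter]
  exact ⟨fun h => h.2, fun h => ⟨mem_univ _, h⟩⟩

open Classical in
/-- the averaged window as a probability -/
def wfp (t : ℕ) (g : Γ) : FP V :=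
  if h : ∑ d, S.ρ t g d = 1 then ⟨S.ρ t g, (S.wt t g).nn, h⟩
  else ⟨S.ρ 0 (S.gm 0 S.nonempty_Om.some), (S.wt _ _).nn, S.one _ _⟩

theorem wfp_E (t : ℕ) (ω : Om) (f : V → ℝ) : (wfp S t (S.gm t ω)).E f = ∑ d, S.ρ t (S.gm t ω) d * f d := by
  unfold wfp
  rw [dif_pos (S.one t ω)]
  rfl

theorem wfp_E_mul (t : ℕ) (ω : Om) (f h : V → ℝ) :
    (wfp S t (S.gm t ω)).E (fun d => f d * h d) = iw (S.ρ t (S.gm t ω)) f h := by
  rw [wfp_E]
  unfold iw
  exact Finset.sum_congr rfl fun d _ => by ring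

/-- the nodes of the face -/
def faceN (Vj : Finset ι) (w : ι) : Nodes (FPt ι Ξ Pt w) V (fun _ => Γ) where
  prev n g := S.par n g
  cell n p := (faceCl S Vj w).cell n p
  self n p := (faceCl S Vj w).self n p
  coh n p q hq := (faceCl S Vj w).coh n p q hq
  J n g := wfp S n g

/-- the factors of a test of the face `w` -/
abbrev TK (Vj : Finset ι) (w : ι) : Type := {i : ι // i ∈ Vj.erase w}

/-- the points seen by the factor `i` -/
abbrev TY (Pt : Type) {Vj : Finset ι} {w : ι} (i : TK Vj w) : Type := {j : ι // j ≠ w ∧ j ≠ i.1} → Pt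

/-- the projection -/
def prj {Vj : Finset ι} {w : ι} (i : TK Vj w) (p : FPt ι Ξ Pt w) : TY Pt i := fun j => p.2 ⟨j.1, j.2.1⟩

/-- the index set of the sign tests -/
abbrev TJs (Pt V : Type) (Vj : Finset ι) (w : ι) : Type := Σ i : TK Vj w, TY Pt i × V

/-- the coin free product tests of the face `w` -/
def faceT (Ξ Pt V : Type) (Vj : Finset ι) (w : ι) [Nonempty (TK Vj w)] : Tests (TJs Pt V Vj w) (FPt ι Ξ Pt w) V :=
  prodTests (prj (Ξ := Ξ) (Vj := Vj) (w := w))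

theorem faceT_test {Vj : Finset ι} {w : ι} [Nonempty (TK Vj w)] (v : TJs Pt V Vj w → ℝ) (p : FPt ι Ξ Pt w) (d : V) :
    (faceT Ξ Pt V Vj w).test v p d = ∏ i : TK Vj w, v ⟨i, prj i p, d⟩ := rfl

/-- the extension of the values seen by the factor `i` -/
def exi {Vj : Finset ι} {w : ι} (a : Pt) (i : TK Vj w) (y : TY Pt i) : ι → Pt := fun j =>
  if h : j ≠ w ∧ j ≠ i.1 then y ⟨j, h⟩ else a

/-- the parameter vector of the functions `u i` -/
def tvc {Vj : Finset ι} {w : ι} (a : Pt) (u : ι → (ι → Pt) → V → ℝ) : TJs Pt V Vj w → ℝ := fun j =>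
  u j.1.1 (exi a j.1 j.2.1) j.2.2

theorem faceT_tvc {Vj : Finset ι} {w : ι} [Nonempty (TK Vj w)] (a : Pt) {u : ι → (ι → Pt) → V → ℝ}
    (hu : ∀ i ∈ Vj.erase w, Dep ((univ.erase w).erase i) (u i)) (ξ : Ξ) (x : ι → Pt) (d : V) :
    (faceT Ξ Pt V Vj w).test (tvc a u) (ξ, rsw w x) d = ∏ i ∈ Vj.erase w, u i x d := by
  rw [faceT_test, Finset.prod_subtype (Vj.erase w) (p := fun l => l ∈ Vj.erase w) (fun _ => Iff.rfl)]
  refine Finset.prod_congr rfl fun i _ => ?_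
  refine congrFun (hu i.1 i.2 _ _ fun j hj => ?_) d
  have h1 : j ≠ w ∧ j ≠ i.1 := ⟨Finset.ne_of_mem_erase (Finset.mem_of_mem_erase hj), Finset.ne_of_mem_erase hj⟩
  show exi a i (prj (Ξ := Ξ) i (ξ, rsw w x)) j = x j
  unfold exi
  rw [dif_pos h1]
  rfl

/-! ### the free law of the face -/

/-- what the face knows -/
def kn (w : ι) (n : ℕ) (ω : Om) : Ξ × ({j : ι // j ≠ w} → Pt) × Γ := (S.xi ω, rsw w (S.x ω), S.gm n ω)

theorem kn_iff {w : ι} {n : ℕ} {v ω : Om} : kn S w n v = kn S w n ω ↔ S.stI (univ.erase w) n v = S.stI (univ.erase w) n ω := by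
  unfold kn Sys.stI
  simp only [Prod.mk.injEq]
  rw [rsw_eq, res_eq]

theorem kn_filt (w : ι) : Filt (kn S w) := by
  intro n v ω h
  unfold kn at h ⊢
  simp only [Prod.mk.injEq] at h ⊢
  exact ⟨h.1, h.2.1, S.gm_step n h.2.2⟩

theorem erase_ne (w : ι) : univ.erase w ≠ (univ : Finset ι) := fun h => by
  have h1 := mem_univ w
  rw [← h] at h1
  exact (Finset.notMem_erase w univ) h1

/-- the free law in the form of `S1Run` -/
def freeS (Vj : Finset ι) (w : ι) : Free (faceN S Vj w) S.P (kn S w) 0 S.n where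
  pr ω := (S.xi ω, rsw w (S.x ω))
  g n ω := S.gm n ω
  W n ω := wfp S n (S.gm n ω)
  filt := kn_filt S w
  prX n v ω h := by
    unfold kn at h
    simp only [Prod.mk.injEq] at h
    exact Prod.ext h.1 h.2.1
  gX n v ω h := by
    unfold kn at h
    simp only [Prod.mk.injEq] at h
    exact h.2.2
  gprev n ω := S.par_gm n ω
  close n ω h K _ := by
    show |(wfp S n (S.gm n ω)).E h - (wfp S n (S.gm n ω)).E h| ≤ 0 * K
    rw [sub_self, abs_zero, zero_mul]
  mart n _ f hf ω hω := by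
    have hm : 0 < S.P.m (kn S w n) ω := S.P.m_pos _ hω
    unfold FP.ce
    rw [div_eq_iff hm.ne']
    have h1 : S.P.E (fun v => ind (kn S w n v = kn S w n ω) * (wfp S (n + 1) (S.gm (n + 1) v)).E (f v)) =
        ∑ d, f ω d * S.P.E (fun v => ind (S.xi v = S.xi ω ∧ rsw w (S.x v) = rsw w (S.x ω)) *
          (ind (S.gm n v = S.gm n ω) * S.ρ (n + 1) (S.gm (n + 1) v) d)) := by
      rw [Finset.sum_congr rfl fun d _ => (S.P.E_smul (f ω d) _).symm, ← S.P.E_sum]
      refine S.P.E_congr fun v _ => ?_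
      rw [wfp_E, Finset.mul_sum]
      refine Finset.sum_congr rfl fun d _ => ?_
      by_cases hv : kn S w n v = kn S w n ω
      · rw [hf v ω hv]
        unfold kn at hv ⊢
        simp only [Prod.mk.injEq] at hv
        rw [ind_of (by simp only [Prod.mk.injEq]; exact hv), ind_of ⟨hv.1, hv.2.1⟩, ind_of hv.2.2]
        ring
      · rw [ind_not hv]
        by_cases h2 : S.xi v = S.xi ω ∧ rsw w (S.x v) = rsw w (S.x ω)
        · have h3 : ¬ S.gm n v = S.gm n ω := fun h3 => hv (by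
            unfold kn
            simp only [Prod.mk.injEq]
            exact ⟨h2.1, h2.2, h3⟩)
          rw [ind_not h3]
          ring
        · rw [ind_not h2]
          ring
    have h2 : ∀ d, S.P.E (fun v => ind (S.xi v = S.xi ω ∧ rsw w (S.x v) = rsw w (S.x ω)) *
          (ind (S.gm n v = S.gm n ω) * S.ρ (n + 1) (S.gm (n + 1) v) d)) =
        S.P.m (kn S w n) ω * S.ρ n (S.gm n ω) d := by
      intro d
      rw [S.mart_set (erase_ne w) n (S.gm n ω) d (f := fun v => ind (S.xi v = S.xi ω ∧ rsw w (S.x v) = rsw w (S.x ω)))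
        (Fac.ind fun v v' h => by
          simp only [Prod.mk.injEq] at h
          rw [h.1, rsw_eq.2 (res_eq.1 h.2)])]
      congr 1
      unfold FP.m
      refine S.P.E_congr fun v _ => ?_
      rw [← ind_and]
      congr 1
      unfold kn
      simp only [Prod.mk.injEq, and_assoc]
    rw [h1, Finset.sum_congr rfl fun d _ => by rw [h2 d], wfp_E, Finset.sum_mul]
    exact Finset.sum_congr rfl fun d _ => by ring
  WX n _ v ω h f := by
    unfold kn at h
    simp only [Prod.mk.injEq] at h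
    show (wfp S n (S.gm n v)).E f = (wfp S n (S.gm n ω)).E f
    rw [h.2.2]

/-- the points of the face are uniform and independent of the node -/
theorem unifS (Vj : Finset ι) (w : ι) (n : ℕ) (φ : FPt ι Ξ Pt w → Γ → ℝ) :
    S.P.E (fun ω => φ ((freeS S Vj w).pr ω) ((freeS S Vj w).g n ω)) =
      S.P.E (fun ω => (∑ q ∈ (faceN S Vj w).cell n ((freeS S Vj w).pr ω), φ q ((freeS S Vj w).g n ω)) /
        ((faceN S Vj w).cell n ((freeS S Vj w).pr ω)).card) := by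
  have hI : S.P.Indep (fun ω => (freeS S Vj w).pr ω) (S.gm n) :=
    (S.indep (erase_ne w) n).mono (fun v ω h => by
      simp only [Prod.mk.injEq] at h
      exact Prod.ext h.1 (rsw_eq.2 (res_eq.1 h.2))) (Fac.refl _)
  have hp : ∀ p p' : FPt ι Ξ Pt w, S.P.Pr (fun ω => (freeS S Vj w).pr ω = p) =
      S.P.Pr (fun ω => (freeS S Vj w).pr ω = p') := by
    have h1 : ∀ p : FPt ι Ξ Pt w, S.P.Pr (fun ω => (freeS S Vj w).pr ω = p) =
        1 / (Fintype.card Ξ * (Fintype.card Pt : ℝ) ^ (univ.erase w : Finset ι).card) := by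
      intro p
      obtain ⟨ω0⟩ := S.nonempty_Om
      rw [← S.Pr_set (erase_ne w) p.1 (glw w (S.x ω0 w) p.2)]
      refine S.P.Pr_congr fun ω _ => ?_
      show (S.xi ω, rsw w (S.x ω)) = p ↔ _
      constructor
      · rintro rfl
        refine ⟨rfl, fun j hj => ?_⟩
        rw [glw_ne _ _ (Finset.ne_of_mem_erase hj)]
        rfl
      · rintro ⟨h2, h3⟩
        refine Prod.ext h2 (funext fun j => ?_)
        have := h3 j.1 (Finset.mem_erase.2 ⟨j.2, mem_univ _⟩)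
        rw [glw_ne _ _ j.2] at this
        exact this
    intro p p'
    rw [h1, h1]
  have e1 := E_indep2 S.P hI φ
  have e2 := E_indep2 S.P hI (fun p g => (∑ q ∈ (faceN S Vj w).cell n p, φ q g) /
    ((faceN S Vj w).cell n p).card)
  show S.P.E (fun ω => φ ((freeS S Vj w).pr ω) (S.gm n ω)) =
      S.P.E (fun ω => (∑ q ∈ (faceN S Vj w).cell n ((freeS S Vj w).pr ω), φ q (S.gm n ω)) /
        ((faceN S Vj w).cell n ((freeS S Vj w).pr ω)).card)
  rw [e1, e2]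
  obtain ⟨ω0⟩ := S.nonempty_Om
  set c := S.P.Pr (fun ω => (freeS S Vj w).pr ω = (freeS S Vj w).pr ω0) with hc
  have hpc : ∀ p : FPt ι Ξ Pt w, S.P.Pr (fun ω => (freeS S Vj w).pr ω = p) = c := fun p => hp p _
  simp only [hpc]
  rw [← Finset.mul_sum, ← Finset.mul_sum, ← S.P.E_sum, ← S.P.E_sum]
  congr 1
  refine S.P.E_congr fun ω _ => ?_
  exact ((faceCl S Vj w).sum_avg n (fun q => φ q (S.gm n ω))).symm

/-! ### the layer -/

/-- the moving function of the machine -/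
def mF (w : ι) (X : ℝ) (Ψ : Mov Ξ ι Pt Γ (V → ℝ)) : ∀ _ : ℕ, Γ → FPt ι Ξ Pt w → V → ℝ := fun n g p d =>
  Ψ n g p.1 (glw w (S.x S.nonempty_Om.some w) p.2) d / X

section layer

variable (Vj : Finset ι) (w : ι) [Nonempty (TK Vj w)] (X ep th : ℝ) (Ψ : Mov Ξ ι Pt Γ (V → ℝ))

/-- the cumulative signed list -/
def mLst : Mov Ξ ι Pt Γ (List (Birth (TJs Pt V Vj w → Bool))) := fun t g ξ x =>
  lstM (faceN S Vj w) (faceT Ξ Pt V Vj w) ep (thrs ep th) (nst ep (thrs ep th)) (mF S w X Ψ) t g (ξ, rsw w x)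

/-- the structured function -/
def mStr : Mov Ξ ι Pt Γ (V → ℝ) := fun t g ξ x d =>
  X * struc ep (faceT Ξ Pt V Vj w).val (mLst S Vj w X ep th Ψ t g ξ x) (ξ, rsw w x) d

/-- the residual -/
def mRes : Mov Ξ ι Pt Γ (V → ℝ) := fun t g ξ x d => Ψ t g ξ x d - mStr S Vj w X ep th Ψ t g ξ x d

/-- the number of public births at the node of the point -/
def mPub : Mov Ξ ι Pt Γ ℕ := fun t g ξ x =>
  pubsM (faceN S Vj w) (faceT Ξ Pt V Vj w) ep (thrs ep th) (nst ep (thrs ep th)) (mF S w X Ψ) t g (ξ, rsw w x)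

variable {X ep th : ℝ} {Ψ : Mov Ξ ι Pt Γ (V → ℝ)}

theorem mLst_dep (t : ℕ) (g : Γ) (ξ : Ξ) : Dep (univ.erase w) (mLst S Vj w X ep th Ψ t g ξ) :=
  rsw_dep w (fun y => lstM (faceN S Vj w) (faceT Ξ Pt V Vj w) ep (thrs ep th) (nst ep (thrs ep th)) (mF S w X Ψ) t g
    (ξ, y))

theorem mPub_dep (t : ℕ) (g : Γ) (ξ : Ξ) : Dep (univ.erase w) (mPub S Vj w X ep th Ψ t g ξ) :=
  rsw_dep w (fun y => pubsM (faceN S Vj w) (faceT Ξ Pt V Vj w) ep (thrs ep th) (nst ep (thrs ep th)) (mF S w X Ψ) t g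
    (ξ, y))

theorem mStr_dep (t : ℕ) (g : Γ) (ξ : Ξ) : Dep (univ.erase w) (mStr S Vj w X ep th Ψ t g ξ) :=
  rsw_dep w (fun y => fun d => X * struc ep (faceT Ξ Pt V Vj w).val (lstM (faceN S Vj w) (faceT Ξ Pt V Vj w) ep
    (thrs ep th) (nst ep (thrs ep th)) (mF S w X Ψ) t g (ξ, y)) (ξ, y) d)

variable {w}

theorem mRes_dep (hΨ : ∀ t g ξ, Dep (univ.erase w) (Ψ t g ξ)) (t : ℕ) (g : Γ) (ξ : Ξ) :
    Dep (univ.erase w) (mRes S Vj w X ep th Ψ t g ξ) := by
  intro x y h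
  funext d
  show Ψ t g ξ x d - mStr S Vj w X ep th Ψ t g ξ x d = Ψ t g ξ y d - mStr S Vj w X ep th Ψ t g ξ y d
  rw [hΨ t g ξ x y h, mStr_dep S Vj w t g ξ x y h]

variable (w)

theorem abs_mStr (hX : 0 ≤ X) (t : ℕ) (g : Γ) (ξ : Ξ) (x : ι → Pt) (d : V) :
    |mStr S Vj w X ep th Ψ t g ξ x d| ≤ X := by
  unfold mStr
  rw [abs_mul, abs_of_nonneg hX]
  calc X * |struc ep (faceT Ξ Pt V Vj w).val (mLst S Vj w X ep th Ψ t g ξ x) (ξ, rsw w x) d| ≤ X * 1 :=
        mul_le_mul_of_nonneg_left (abs_struc _ _ _ _ _) hX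
    _ = X := mul_one X

theorem abs_mRes (hX : 0 ≤ X) (hΨX : ∀ t g ξ x d, |Ψ t g ξ x d| ≤ X) (t : ℕ) (g : Γ) (ξ : Ξ) (x : ι → Pt) (d : V) :
    |mRes S Vj w X ep th Ψ t g ξ x d| ≤ 2 * X := by
  unfold mRes
  have h1 := abs_sub (Ψ t g ξ x d) (mStr S Vj w X ep th Ψ t g ξ x d)
  have h2 := abs_mStr S Vj w (ep := ep) (th := th) (Ψ := Ψ) hX t g ξ x d
  linarith [hΨX t g ξ x d]

variable {w}

theorem mF_eq (hΨ : ∀ t g ξ, Dep (univ.erase w) (Ψ t g ξ)) (t : ℕ) (g : Γ) (ξ : Ξ) (x : ι → Pt) (d : V) :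
    mF S w X Ψ t g (ξ, rsw w x) d = Ψ t g ξ x d / X := by
  unfold mF
  simp only
  rw [glw_rsw (hΨ t g ξ)]

theorem abs_mF (hX : 0 < X) (hΨX : ∀ t g ξ x d, |Ψ t g ξ x d| ≤ X) (t : ℕ) (g : Γ) (p : FPt ι Ξ Pt w) (d : V) :
    |mF S w X Ψ t g p d| ≤ 1 := by
  unfold mF
  rw [abs_div, abs_of_pos hX, div_le_one hX]
  exact hΨX _ _ _ _ _

theorem mRes_eq (hX : 0 < X) (hΨ : ∀ t g ξ, Dep (univ.erase w) (Ψ t g ξ)) (t : ℕ) (g : Γ) (ξ : Ξ) (x : ι → Pt)
    (d : V) : mRes S Vj w X ep th Ψ t g ξ x d =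
      X * resid ep (faceT Ξ Pt V Vj w).val (mF S w X Ψ t g) (mLst S Vj w X ep th Ψ t g ξ x) (ξ, rsw w x) d := by
  unfold mRes mStr resid
  rw [mF_eq S hΨ]
  field_simp

/-- the lists are cumulative -/
theorem mLst_suffix (t : ℕ) (g : Γ) (ξ : Ξ) (x : ι → Pt) :
    mLst S Vj w X ep th Ψ t (S.par t g) ξ x <:+ mLst S Vj w X ep th Ψ (t + 1) g ξ x :=
  preM_suffix (faceN S Vj w) (faceT Ξ Pt V Vj w) (t + 1) g (ξ, rsw w x)

/-- no births at the time `0` if the function vanishes there -/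
theorem mLst_zero (hep : 0 < ep) (hth : 0 < th) (h0 : ∀ g ξ x, Ψ 0 g ξ x = 0) (g : Γ) (ξ : Ξ) (x : ι → Pt) :
    mLst S Vj w X ep th Ψ 0 g ξ x = [] := by
  unfold mLst
  set p : FPt ι Ξ Pt w := (ξ, rsw w x) with hp
  have hthr : 0 < thrs ep th := by unfold thrs; positivity
  have hno : ¬ HitR ep (thrs ep th) (faceT Ξ Pt V Vj w).val (mF S w X Ψ 0 g) ((faceN S Vj w).J 0 g)
      ((faceN S Vj w).cell 0 p) (node ep (thrs ep th) (faceT Ξ Pt V Vj w).val (mF S w X Ψ 0 g) ((faceN S Vj w).J 0 g)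
      ((faceN S Vj w).cell 0 p) 0 (fun _ => []) 0) := by
    rintro ⟨τ, hτ⟩
    have h1 : (0 : ℝ) < ((faceN S Vj w).cell 0 p).card := by
      exact_mod_cast Finset.card_pos.2 ⟨p, (faceN S Vj w).self 0 p⟩
    have h2 : (0 : ℝ) < (mem ep (faceT Ξ Pt V Vj w).val (mF S w X Ψ 0 g) ((faceN S Vj w).J 0 g)
        ((faceN S Vj w).cell 0 p) (fun _ => []) τ).card := lt_of_lt_of_le (by positivity) hτ
    obtain ⟨q, hq⟩ := Finset.card_pos.1 (by exact_mod_cast h2)
    have h3 := (mem_mem.1 hq).2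
    have h4 : corr ep (faceT Ξ Pt V Vj w).val (mF S w X Ψ 0 g) ((faceN S Vj w).J 0 g) (fun _ => []) τ q = 0 := by
      unfold corr
      have h5 : ∀ d, resid ep (faceT Ξ Pt V Vj w).val (mF S w X Ψ 0 g) [] q d * (faceT Ξ Pt V Vj w).val τ q d = 0 := by
        intro d
        unfold resid mF
        rw [struc_nil, h0]
        simp
      simp only [h5]
      exact FP.E_const _ 0
    linarith
  have h6 := node_stop (ep := ep) (thr := thrs ep th) hno (Nat.zero_le (nst ep (thrs ep th)))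
  show node ep (thrs ep th) (faceT Ξ Pt V Vj w).val (mF S w X Ψ 0 g) ((faceN S Vj w).J 0 g)
      ((faceN S Vj w).cell 0 p) 0 (fun _ => []) (nst ep (thrs ep th)) p = []
  rw [h6]
  rfl

theorem mRes_zero (hep : 0 < ep) (hth : 0 < th) (h0 : ∀ g ξ x, Ψ 0 g ξ x = 0) (g : Γ) (ξ : Ξ) (x : ι → Pt) :
    mRes S Vj w X ep th Ψ 0 g ξ x = 0 := by
  funext d
  unfold mRes mStr
  rw [mLst_zero S Vj hep hth h0, struc_nil, h0]
  simp

theorem mStr_zero (hep : 0 < ep) (hth : 0 < th) (h0 : ∀ g ξ x, Ψ 0 g ξ x = 0) (g : Γ) (ξ : Ξ) (x : ι → Pt) :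
    mStr S Vj w X ep th Ψ 0 g ξ x = 0 := by
  funext d
  unfold mStr
  rw [mLst_zero S Vj hep hth h0, struc_nil]
  simp

/-! ### product tests -/

/-- **(P1)** : the residual is rare for the coin free product tests, at every node, after the moves -/
theorem mRes_rare (hwV : w ∈ Vj) (hX : 0 < X) (hep : 0 < ep) (hth : 0 < th)
    (hΨ : ∀ t g ξ, Dep (univ.erase w) (Ψ t g ξ)) (hΨX : ∀ t g ξ x d, |Ψ t g ξ x d| ≤ X) :
    S.Rare Vj w (mRes S Vj w X ep th Ψ) th (4 * ep * X) := by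
  classical
  intro t _ ω y u hu hu1
  obtain ⟨ω0⟩ := S.nonempty_Om
  set g := S.gm t ω with hg
  set T := faceT Ξ Pt V Vj w with hT
  set a0 : Pt := S.x ω0 w with ha0
  have hthr : 0 < thrs ep th := by unfold thrs; positivity
  -- the indicator as a function of the point of the face
  set Q : FPt ι Ξ Pt w → Prop := fun p => 4 * ep ≤ |((faceN S Vj w).J t g).E (fun d =>
      resid ep T.val (mF S w X Ψ t g) (lstM (faceN S Vj w) T ep (thrs ep th) (nst ep (thrs ep th)) (mF S w X Ψ) t g p) p d *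
        T.test (tvc a0 u) p d)| with hQ
  have hval : ∀ ξ z, (4 * ep * X ≤ |iw (S.ρ t g) (mRes S Vj w X ep th Ψ t g ξ z)
      (fun d => ∏ i ∈ Vj.erase w, u i z d)|) ↔ Q (ξ, rsw w z) := by
    intro ξ z
    have h1 : iw (S.ρ t g) (mRes S Vj w X ep th Ψ t g ξ z) (fun d => ∏ i ∈ Vj.erase w, u i z d) =
        X * ((faceN S Vj w).J t g).E (fun d => resid ep T.val (mF S w X Ψ t g)
          (lstM (faceN S Vj w) T ep (thrs ep th) (nst ep (thrs ep th)) (mF S w X Ψ) t g (ξ, rsw w z)) (ξ, rsw w z) d *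
          T.test (tvc a0 u) (ξ, rsw w z) d) := by
      rw [← FP.E_smul]
      show _ = (wfp S t (S.gm t ω)).E _
      rw [wfp_E]
      unfold iw
      refine Finset.sum_congr rfl fun d _ => ?_
      rw [mRes_eq S Vj hX hΨ, hT, faceT_tvc a0 hu]
      show S.ρ t (S.gm t ω) d * (X * resid ep (faceT Ξ Pt V Vj w).val (mF S w X Ψ t g)
        (mLst S Vj w X ep th Ψ t g ξ z) (ξ, rsw w z) d) * _ = S.ρ t (S.gm t ω) d * _
      unfold mLst
      ring
    rw [h1, abs_mul, abs_of_pos hX, hQ]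
    constructor
    · intro h
      refine le_of_mul_le_mul_left ?_ hX
      linarith
    · intro h
      have := mul_le_mul_of_nonneg_left h hX.le
      linarith
  -- the boxes
  have hbox : ∀ (R : FPt ι Ξ Pt w → Prop), ∑ ξ : Ξ, ∑ z : ι → Pt, ind (S.Box Vj t y z ∧ R (ξ, rsw w z)) =
      (∑ a, ind (S.cl t a = S.cl t (y w))) * ∑ ξ0 : Ξ, ∑ q : {j : ι // j ≠ w} → Pt,
        ind (sameC S Vj w t (ξ0, rsw w y) (ξ0, q) ∧ R (ξ0, q)) := by
    intro R
    rw [Finset.mul_sum]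
    refine Finset.sum_congr rfl fun ξ _ => ?_
    have h1 : ∀ z : ι → Pt, ind (S.Box Vj t y z ∧ R (ξ, rsw w z)) =
        (fun a q => ind (S.cl t a = S.cl t (y w)) * ind (sameC S Vj w t (ξ, rsw w y) (ξ, q) ∧ R (ξ, q)))
          (z w) (rsw w z) := by
      intro z
      show _ = ind (S.cl t (z w) = S.cl t (y w)) * ind (sameC S Vj w t (ξ, rsw w y) (ξ, rsw w z) ∧ R (ξ, rsw w z))
      rw [← ind_and]
      congr 1
      apply propext
      unfold Sys.Box sameC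
      constructor
      · rintro ⟨⟨h2, h3⟩, h4⟩
        exact ⟨h3 w hwV, ⟨fun j hj => h2 j.1 hj, fun j hj => h3 j.1 hj⟩, h4⟩
      · rintro ⟨h2, ⟨h3, h4⟩, h5⟩
        refine ⟨⟨fun i hi => ?_, fun i hi => ?_⟩, h5⟩
        · have hiw : i ≠ w := fun h => hi (h ▸ hwV)
          exact h3 ⟨i, hiw⟩ hi
        · by_cases hiw : i = w
          · rw [hiw]; exact h2
          · exact h4 ⟨i, hiw⟩ hi
    rw [Finset.sum_congr rfl fun z _ => h1 z]
    refine (sum_split w (fun a q => ind (S.cl t a = S.cl t (y w)) *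
      ind (sameC S Vj w t (ξ, rsw w y) (ξ, q) ∧ R (ξ, q)))).trans ?_
    rw [Finset.sum_mul]
    refine Finset.sum_congr rfl fun a _ => ?_
    rw [Finset.mul_sum]
  have hL : ∑ ξ : Ξ, ∑ z : ι → Pt, ind (S.Box Vj t y z ∧
        4 * ep * X ≤ |iw (S.ρ t (S.gm t ω)) (mRes S Vj w X ep th Ψ t (S.gm t ω) ξ z)
          (fun d => ∏ i ∈ Vj.erase w, u i z d)|) =
      ∑ ξ : Ξ, ∑ z : ι → Pt, ind (S.Box Vj t y z ∧ Q (ξ, rsw w z)) := by
    refine Finset.sum_congr rfl fun ξ _ => Finset.sum_congr rfl fun z _ => ?_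
    congr 1
    exact propext (and_congr_right fun _ => hval ξ z)
  have hR : ∑ _ξ : Ξ, ∑ z : ι → Pt, ind (S.Box Vj t y z) =
      ∑ ξ : Ξ, ∑ z : ι → Pt, ind (S.Box Vj t y z ∧ (fun _ => True) (ξ, rsw w z)) := by
    refine Finset.sum_congr rfl fun ξ _ => Finset.sum_congr rfl fun z _ => ?_
    congr 1
    exact propext ⟨fun h => ⟨h, trivial⟩, fun h => h.1⟩
  rw [hL, hR, hbox Q, hbox (fun _ => True)]
  -- the sum over the cell
  obtain ⟨ξ1⟩ := S.nonempty_Xi
  have hcell : ∀ R : FPt ι Ξ Pt w → Prop, ∑ ξ0 : Ξ, ∑ q : {j : ι // j ≠ w} → Pt,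
        ind (sameC S Vj w t (ξ0, rsw w y) (ξ0, q) ∧ R (ξ0, q)) =
      ∑ q ∈ (faceN S Vj w).cell t (ξ1, rsw w y), ind (R q) := by
    intro R
    have h1 : ∑ q ∈ (faceN S Vj w).cell t (ξ1, rsw w y), ind (R q) =
        ∑ q : FPt ι Ξ Pt w, ind (sameC S Vj w t (ξ1, rsw w y) q ∧ R q) := by
      show ∑ q ∈ univ.filter _, ind (R q) = _
      rw [Finset.sum_filter]
      refine Finset.sum_congr rfl fun q _ => ?_
      by_cases hq : sameC S Vj w t (ξ1, rsw w y) q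
      · rw [if_pos hq, ind_and, ind_of hq, one_mul]
      · rw [if_neg hq, ind_and, ind_not hq, zero_mul]
    rw [h1, Fintype.sum_prod_type]
    rfl
  rw [hcell Q, hcell (fun _ => True), mul_left_comm]
  refine mul_le_mul_of_nonneg_left ?_ (Finset.sum_nonneg fun _ _ => ind_nonneg _)
  have h1 := p1M (faceN S Vj w) T (ep := ep) (thr := thrs ep th) (N := nst ep (thrs ep th)) (F := mF S w X Ψ) t g
    (ξ1, rsw w y) (fun q _ d => abs_mF S hX hΨX t g q d) hep hthr (nst_lt _ _) (tvc a0 u) (fun j => hu1 _ _ _)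
  have h2 : ∑ q ∈ (faceN S Vj w).cell t (ξ1, rsw w y), ind ((fun _ : FPt ι Ξ Pt w => True) q) =
      ((faceN S Vj w).cell t (ξ1, rsw w y)).card := by
    rw [Finset.sum_congr rfl fun q _ => ind_of trivial, Finset.sum_const, nsmul_eq_mul, mul_one]
  rw [h2]
  have h3 : (0 : ℝ) ≤ ((faceN S Vj w).cell t (ξ1, rsw w y)).card := Nat.cast_nonneg _
  have h4 : 4 * (thrs ep th * ((faceN S Vj w).cell t (ξ1, rsw w y)).card) ≤
      3 * ep * (th * ((faceN S Vj w).cell t (ξ1, rsw w y)).card) := by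
    unfold thrs
    have h7 : 0 ≤ ep * th * (((faceN S Vj w).cell t (ξ1, rsw w y)).card : ℝ) := by positivity
    nlinarith
  exact le_of_mul_le_mul_left (h1.trans h4) (by positivity)

/-! ### the number of births -/

theorem mLst_len (t : ℕ) (ω : Om) : ((S.at' (mLst S Vj w X ep th Ψ) t ω).length : ℝ) =
    lenM (freeS S Vj w) (faceT Ξ Pt V Vj w) ep (thrs ep th) (nst ep (thrs ep th)) (mF S w X Ψ) t ω := rfl

theorem mvF_bd (hX : 0 < X) (hΨX : ∀ t g ξ x d, |Ψ t g ξ x d| ≤ X) (n : ℕ) (ω : Om) (d : V) :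
    |mvF (freeS S Vj w) (mF S w X Ψ) n ω d| ≤ 1 := abs_mF S hX hΨX _ _ _ _

omit [Nonempty (TK Vj w)] in
theorem movB (hΨ : ∀ t g ξ, Dep (univ.erase w) (Ψ t g ξ)) {m0 : ℝ} (hm : S.Future (univ.erase w) Ψ m0) :
    MovB (freeS S Vj w) (mF S w X Ψ) m0 := by
  intro n f hf hf0
  refine le_trans (Finset.sum_le_sum fun u _ => S.P.E_mono fun ω _ => ?_)
    (hm n f (fun v ω h => hf v ω (kn_iff S |>.2 h)) hf0)
  refine mul_le_mul_of_nonneg_left (ind_mono fun h h' => h ?_) (hf0 ω)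
  funext d
  show mF S w X Ψ (u + 1) (S.gm (u + 1) ω) (S.xi ω, rsw w (S.x ω)) d = mF S w X Ψ u (S.gm u ω) (S.xi ω, rsw w (S.x ω)) d
  rw [mF_eq S hΨ, mF_eq S hΨ]
  have h1 := congrFun h' d
  unfold Sys.at' at h1
  rw [h1]

/-- mean number of births -/
theorem mLst_mean (hX : 0 < X) (hep : 0 < ep) (hΨ : ∀ t g ξ, Dep (univ.erase w) (Ψ t g ξ))
    (hΨX : ∀ t g ξ x d, |Ψ t g ξ x d| ≤ X) {m0 : ℝ} (hm : S.Future (univ.erase w) Ψ m0) :
    S.P.E (fun ω => ((S.at' (mLst S Vj w X ep th Ψ) S.n ω).length : ℝ)) ≤ 2 * (1 + 4 * m0) / ep ^ 2 :=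
  birthsM_le (freeS S Vj w) (faceT Ξ Pt V Vj w) (mvF_bd S Vj hX hΨX) hep (by rw [mul_zero]; positivity)
    (movB S Vj hΨ hm)

/-- exponential tails -/
theorem mLst_tail (hX : 0 < X) (hep : 0 < ep) (hΨ : ∀ t g ξ, Dep (univ.erase w) (Ψ t g ξ))
    (hΨX : ∀ t g ξ x d, |Ψ t g ξ x d| ≤ X) {m0 : ℝ} (hm0 : 0 ≤ m0) (hm : S.Future (univ.erase w) Ψ m0) (k : ℕ) :
    S.P.Pr (fun ω => (k : ℝ) * (64 * (1 + m0) / (3 * ep ^ 2)) ≤ (S.at' (mLst S Vj w X ep th Ψ) S.n ω).length) ≤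
      (1 / 2) ^ k :=
  tailM_le (freeS S Vj w) (faceT Ξ Pt V Vj w) (mvF_bd S Vj hX hΨX) hep (by rw [mul_zero]; positivity) hm0
    (movB S Vj hΨ hm) k

/-- a change of the list is a birth -/
theorem mLst_chg (u : ℕ) (ω : Om) : ind (S.at' (mLst S Vj w X ep th Ψ) (u + 1) ω ≠ S.at' (mLst S Vj w X ep th Ψ) u ω) ≤
    ((S.at' (mLst S Vj w X ep th Ψ) (u + 1) ω).length : ℝ) - (S.at' (mLst S Vj w X ep th Ψ) u ω).length := by
  have h1 : S.at' (mLst S Vj w X ep th Ψ) u ω <:+ S.at' (mLst S Vj w X ep th Ψ) (u + 1) ω := by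
    have h2 := mLst_suffix S Vj (w := w) (X := X) (ep := ep) (th := th) (Ψ := Ψ) u (S.gm (u + 1) ω) (S.xi ω) (S.x ω)
    rw [S.par_gm] at h2
    exact h2
  have h3 := h1.length_le
  by_cases h : S.at' (mLst S Vj w X ep th Ψ) (u + 1) ω = S.at' (mLst S Vj w X ep th Ψ) u ω
  · rw [ind_not (fun h' => h' h), h, sub_self]
  · rw [ind_of h]
    have h4 : (S.at' (mLst S Vj w X ep th Ψ) u ω).length ≠ (S.at' (mLst S Vj w X ep th Ψ) (u + 1) ω).length :=
      fun h5 => h (h1.eq_of_length h5).symm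
    have h6 : (S.at' (mLst S Vj w X ep th Ψ) u ω).length + 1 ≤ (S.at' (mLst S Vj w X ep th Ψ) (u + 1) ω).length := by
      omega
    have h7 : ((S.at' (mLst S Vj w X ep th Ψ) u ω).length : ℝ) + 1 ≤
        (S.at' (mLst S Vj w X ep th Ψ) (u + 1) ω).length := by exact_mod_cast h6
    linarith

/-- **mean number of future changes of the list, from every state** -/
theorem mLst_future (hX : 0 < X) (hep : 0 < ep) (hΨ : ∀ t g ξ, Dep (univ.erase w) (Ψ t g ξ))
    (hΨX : ∀ t g ξ x d, |Ψ t g ξ x d| ≤ X) {m0 : ℝ} (hm0 : 0 ≤ m0) (hm : S.Future (univ.erase w) Ψ m0) :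
    S.Future (univ.erase w) (mLst S Vj w X ep th Ψ) (8 * (1 + m0) / ep ^ 2) := by
  intro t φ hφ hφ0
  rcases Nat.lt_or_ge S.n t with ht | ht
  · rw [Finset.Ico_eq_empty (by omega), Finset.sum_empty]
    exact mul_nonneg (by positivity) (S.P.E_nonneg fun ω _ => hφ0 ω)
  · have h1 := futureM_le (freeS S Vj w) (faceT Ξ Pt V Vj w) (ep := ep) (thr := thrs ep th)
      (N := nst ep (thrs ep th)) (mvF_bd S Vj hX hΨX) hep (by rw [mul_zero]; positivity) (movB S Vj hΨ hm) ht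
      (f := φ) (fun v ω h => hφ v ω (kn_iff S |>.1 h)) hφ0
    refine le_trans ?_ h1
    rw [← S.P.E_sum]
    refine S.P.E_mono fun ω _ => ?_
    rw [← Finset.mul_sum]
    refine mul_le_mul_of_nonneg_left ?_ (hφ0 ω)
    refine (Finset.sum_le_sum fun u _ => mLst_chg S Vj u ω).trans (le_of_eq ?_)
    exact Finset.sum_Ico_sub (fun u => ((S.at' (mLst S Vj w X ep th Ψ) u ω).length : ℝ)) ht

/-- the structured function does not move without a birth -/
theorem mStr_still {u : ℕ} {ω : Om} (h : S.at' (mLst S Vj w X ep th Ψ) (u + 1) ω = S.at' (mLst S Vj w X ep th Ψ) u ω) :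
    S.at' (mStr S Vj w X ep th Ψ) (u + 1) ω = S.at' (mStr S Vj w X ep th Ψ) u ω := by
  unfold Sys.at' at h ⊢
  funext d
  unfold mStr
  rw [h]

theorem mStr_future (hX : 0 < X) (hep : 0 < ep) (hΨ : ∀ t g ξ, Dep (univ.erase w) (Ψ t g ξ))
    (hΨX : ∀ t g ξ x d, |Ψ t g ξ x d| ≤ X) {m0 : ℝ} (hm0 : 0 ≤ m0) (hm : S.Future (univ.erase w) Ψ m0) :
    S.Future (univ.erase w) (mStr S Vj w X ep th Ψ) (8 * (1 + m0) / ep ^ 2) := by
  intro t φ hφ hφ0
  refine le_trans (Finset.sum_le_sum fun u _ => S.P.E_mono fun ω _ => ?_)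
    (mLst_future S Vj (th := th) hX hep hΨ hΨX hm0 hm t φ hφ hφ0)
  exact mul_le_mul_of_nonneg_left (ind_mono fun h h' => h (mStr_still S Vj h')) (hφ0 ω)

theorem mRes_future (hX : 0 < X) (hep : 0 < ep) (hΨ : ∀ t g ξ, Dep (univ.erase w) (Ψ t g ξ))
    (hΨX : ∀ t g ξ x d, |Ψ t g ξ x d| ≤ X) {m0 : ℝ} (hm0 : 0 ≤ m0) (hm : S.Future (univ.erase w) Ψ m0) :
    S.Future (univ.erase w) (mRes S Vj w X ep th Ψ) (m0 + 8 * (1 + m0) / ep ^ 2) := by
  intro t φ hφ hφ0
  have h1 := hm t φ hφ hφ0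
  have h2 := mStr_future S Vj (th := th) hX hep hΨ hΨX hm0 hm t φ hφ hφ0
  rw [add_mul]
  refine le_trans ?_ (add_le_add h1 h2)
  rw [← Finset.sum_add_distrib]
  refine Finset.sum_le_sum fun u _ => ?_
  rw [← S.P.E_add]
  refine S.P.E_mono fun ω _ => ?_
  rw [← mul_add]
  refine mul_le_mul_of_nonneg_left ?_ (hφ0 ω)
  by_cases h3 : S.at' Ψ (u + 1) ω = S.at' Ψ u ω
  · by_cases h4 : S.at' (mStr S Vj w X ep th Ψ) (u + 1) ω = S.at' (mStr S Vj w X ep th Ψ) u ω
    · have h5 : S.at' (mRes S Vj w X ep th Ψ) (u + 1) ω = S.at' (mRes S Vj w X ep th Ψ) u ω := by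
        unfold Sys.at' at h3 h4 ⊢
        funext d
        unfold mRes
        rw [h3, h4]
      rw [ind_not (fun h => h h5)]
      exact add_nonneg (ind_nonneg _) (ind_nonneg _)
    · rw [ind_of h4]
      have := ind_nonneg (S.at' Ψ (u + 1) ω ≠ S.at' Ψ u ω)
      linarith [ind_le_one (S.at' (mRes S Vj w X ep th Ψ) (u + 1) ω ≠ S.at' (mRes S Vj w X ep th Ψ) u ω)]
  · rw [ind_of h3]
    have := ind_nonneg (S.at' (mStr S Vj w X ep th Ψ) (u + 1) ω ≠ S.at' (mStr S Vj w X ep th Ψ) u ω)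
    linarith [ind_le_one (S.at' (mRes S Vj w X ep th Ψ) (u + 1) ω ≠ S.at' (mRes S Vj w X ep th Ψ) u ω)]

/-! ### public births -/

/-- the number of public births is constant on the cells -/
theorem mPub_cell {t : ℕ} {g : Γ} {ξ ξ' : Ξ} {x y : ι → Pt} (h1 : ∀ i, i ∉ Vj → i ≠ w → y i = x i)
    (h2 : ∀ i ∈ Vj, i ≠ w → S.cl t (y i) = S.cl t (x i)) :
    mPub S Vj w X ep th Ψ t g ξ' y = mPub S Vj w X ep th Ψ t g ξ x := by
  unfold mPub
  exact pubsM_cell (faceN S Vj w) (faceT Ξ Pt V Vj w) t g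
    ((mem_faceCl S).2 ⟨fun j hj => h1 j.1 hj j.2, fun j hj => h2 j.1 hj j.2⟩)

/-- a birth happens only at a node with a public birth -/
theorem mLst_of_pub {t : ℕ} {ω : Om} (h : S.at' (mPub S Vj w X ep th Ψ) (t + 1) ω = 0) :
    S.at' (mLst S Vj w X ep th Ψ) (t + 1) ω = S.at' (mLst S Vj w X ep th Ψ) t ω := by
  have h1 := lstM_of_pubs_zero (faceN S Vj w) (faceT Ξ Pt V Vj w) (ep := ep) (thr := thrs ep th)
    (N := nst ep (thrs ep th)) (F := mF S w X Ψ) h
  unfold Sys.at' mLst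
  rw [h1]
  show lstM (faceN S Vj w) (faceT Ξ Pt V Vj w) ep (thrs ep th) (nst ep (thrs ep th)) (mF S w X Ψ) t
    (S.par t (S.gm (t + 1) ω)) (S.xi ω, rsw w (S.x ω)) = _
  rw [S.par_gm]

/-- **mean number of public births on the path** -/
theorem mPub_mean (hX : 0 < X) (hep : 0 < ep) (hth : 0 < th) (hΨ : ∀ t g ξ, Dep (univ.erase w) (Ψ t g ξ))
    (hΨX : ∀ t g ξ x d, |Ψ t g ξ x d| ≤ X) {m0 : ℝ} (hm : S.Future (univ.erase w) Ψ m0) :
    S.P.E (fun ω => ∑ t ∈ range (S.n + 1), ((S.at' (mPub S Vj w X ep th Ψ) t ω : ℕ) : ℝ)) ≤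
      32 * (1 + 4 * m0) / (ep ^ 3 * th) := by
  have hthr : 0 < thrs ep th := by unfold thrs; positivity
  have h1 := pubsM_le (freeS S Vj w) (faceT Ξ Pt V Vj w) (ep := ep) (thr := thrs ep th) (N := nst ep (thrs ep th))
    (mvF_bd S Vj hX hΨX) hep hthr (by rw [mul_zero]; positivity) (movB S Vj hΨ hm) (fun n _ φ => unifS S Vj w n φ)
  refine le_trans h1 (le_of_eq ?_)
  unfold thrs
  field_simp
  ring

/-! ### the Walsh form -/

end layer

/-- the sign function `i` of a birth of the face `w` (it misses `w` and `i`; `1` for `i ∉ Vj.erase w`) -/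
def msgn (Vj : Finset ι) (w i : ι) (s : Birth (TJs Pt V Vj w → Bool)) (x : ι → Pt) (d : V) : ℝ :=
  if h : i ∈ Vj.erase w then sgn s.τ ⟨⟨i, h⟩, fun j => x j.1, d⟩ else 1

theorem msgn_dep (Vj : Finset ι) (w i : ι) (s : Birth (TJs Pt V Vj w → Bool)) :
    Dep ((univ.erase w).erase i) (msgn Vj w i s) := by
  intro x y h
  funext d
  unfold msgn
  by_cases hi : i ∈ Vj.erase w
  · rw [dif_pos hi, dif_pos hi]
    have h1 : (fun j : {j : ι // j ≠ w ∧ j ≠ i} => x j.1) = fun j => y j.1 := by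
      funext j
      exact h j.1 (Finset.mem_erase.2 ⟨j.2.2, Finset.mem_erase.2 ⟨j.2.1, mem_univ _⟩⟩)
    rw [h1]
  · rw [dif_neg hi, dif_neg hi]

theorem msgn_or (Vj : Finset ι) (w i : ι) (s : Birth (TJs Pt V Vj w → Bool)) (x : ι → Pt) (d : V) :
    msgn Vj w i s x d = 1 ∨ msgn Vj w i s x d = -1 := by
  unfold msgn
  by_cases hi : i ∈ Vj.erase w
  · rw [dif_pos hi]
    exact sgn_or _ _
  · rw [dif_neg hi]
    exact Or.inl rfl

theorem abs_msgn (Vj : Finset ι) (w i : ι) (s : Birth (TJs Pt V Vj w → Bool)) (x : ι → Pt) (d : V) :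
    |msgn Vj w i s x d| = 1 := by
  rcases msgn_or Vj w i s x d with h1 | h1 <;> rw [h1] <;> simp

/-- a sign test of the face is the product of its sign functions -/
theorem faceT_val {Vj : Finset ι} {w : ι} [Nonempty (TK Vj w)] (s : Birth (TJs Pt V Vj w → Bool)) (ξ : Ξ)
    (x : ι → Pt) (d : V) : (faceT Ξ Pt V Vj w).val s.τ (ξ, rsw w x) d = ∏ i ∈ Vj.erase w, msgn Vj w i s x d := by
  unfold Tests.val
  rw [faceT_test, Finset.prod_subtype (Vj.erase w) (p := fun l => l ∈ Vj.erase w) (fun _ => Iff.rfl)]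
  refine Finset.prod_congr rfl fun i _ => ?_
  unfold msgn
  rw [dif_pos i.2]
  rfl

/-- the values of the tests of a list -/
def mvals (Vj : Finset ι) (w : ι) (l : List (Birth (TJs Pt V Vj w → Bool))) (x : ι → Pt) (d : V) : List ℝ :=
  l.map fun s => ∏ i ∈ Vj.erase w, msgn Vj w i s x d

section walsh

variable (Vj : Finset ι) (w : ι) [Nonempty (TK Vj w)] {X ep th : ℝ} {Ψ : Mov Ξ ι Pt Γ (V → ℝ)}

/-- the structured function as a clip of the list -/
theorem mStr_psi (t : ℕ) (g : Γ) (ξ : Ξ) (x : ι → Pt) (d : V) : mStr S Vj w X ep th Ψ t g ξ x d =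
    X * psi ep (mvals Vj w (mLst S Vj w X ep th Ψ t g ξ x) x d) := by
  unfold mStr struc mvals
  simp only [faceT_val]

/-- **the Walsh form** -/
theorem mStr_walsh (t : ℕ) (g : Γ) (ξ : Ξ) (x : ι → Pt) (d : V) : mStr S Vj w X ep th Ψ t g ξ x d =
    X * ∑ I : Finset (Fin (mvals Vj w (mLst S Vj w X ep th Ψ t g ξ x) x d).length),
      psiC ep (mvals Vj w (mLst S Vj w X ep th Ψ t g ξ x) x d).length I *
        ∏ j ∈ I, (mvals Vj w (mLst S Vj w X ep th Ψ t g ξ x) x d).get j := by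
  rw [mStr_psi]
  congr 1
  refine psi_list ep _ fun y hy => ?_
  unfold mvals at hy
  obtain ⟨s, _, hs⟩ := List.mem_map.1 hy
  rw [← hs, ← faceT_val s ξ x d]
  exact (faceT Ξ Pt V Vj w).val_or _ _ _

end walsh

end Mv

end

end Pool.Agent.GM
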