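import Pool.Agent.GM.NV
import Pool.Agent.GM.LastStep

/-!
# GM/NV1 : use 2 of the named view, abstract form (port of M3/Thm5, helper34)

`NV.one_view` : `Pr (∃ t ≤ N, 4 r + eta ≤ |T t|)` from a named view, for coldness at the semi points given as a
hypothesis: `σ U` for the classes `Z U t` of the losses (at the times `t` and `t+1`), `σe` for the known class `K (t+1)`.
-/

set_option autoImplicit false
set_option linter.unusedSectionVars false

namespace Pool.Agent.GM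

open Finset Pool.Agent.PWZ Pool.Agent.M3

variable {Om : Type} [Fintype Om]

/-- an event which is a function of the class `Y` and an event of small conditional probability -/
theorem Pr_and_le {κ : Type*} (Q : FP Om) {Y : Om → κ} {c B : Om → Prop} {σ : ℝ}
    (hc : Fac Y (fun w => ind (c w))) (hB : ∀ w, Q.p w ≠ 0 → Q.ce Y (fun v => ind (B v)) w ≤ σ) :
    Q.Pr (fun w => c w ∧ B w) ≤ σ * Q.Pr c := by
  have h1 : Q.Pr (fun w => c w ∧ B w) = Q.E (fun w => ind (c w) * Q.ce Y (fun v => ind (B v)) w) := by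
    rw [Q.E_mul_ce hc]
    unfold FP.Pr
    refine Q.E_congr (fun w _ => ?_)
    by_cases h : c w
    · by_cases h' : B w
      · rw [ind_of h, ind_of h', ind_of (⟨h, h'⟩ : c w ∧ B w), one_mul]
      · rw [ind_of h, ind_not h', ind_not (fun hh : c w ∧ B w => h' hh.2), mul_zero]
    · rw [ind_not h, ind_not (fun hh : c w ∧ B w => h hh.1), zero_mul]
  rw [h1]
  unfold FP.Pr
  rw [← Q.E_smul]
  refine Q.E_mono (fun w hw => ?_)
  rw [mul_comm]
  exact mul_le_mul_of_nonneg_right (hB w hw) (ind_nonneg _)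

variable {P : FP Om} {N : ℕ} {β : Type} {I : Finset β} {ζ : β → ℕ → Type} {Z : ∀ U t, Om → ζ U t} {κ : ℕ → Type}
  {K : ∀ t, Om → κ t} {T : ℕ → Om → ℝ} {che zr : ℕ → Om → Prop}

/-- USE 2 OF THE NAMED VIEW.  `D0'` = errors and hot flags; `σ U` bounds the conditional probability of the semi points at
the times `t` and `t+1` (outside `D0'`) given the class of the losses of `U`, `σe` the same for the known class. -/
theorem NV.one_view (W : NV P N I Z K T che zr) (hche : ∀ t < N, Fac (K (t + 1)) (fun w => ind (che t w)))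
    {r : ℝ} (hr : 0 < r) (hrm : W.rmin ≤ r) (her : W.eta ≤ r) {D0' : ℕ → Om → Prop}
    (hinc : ∀ t w, P.p w ≠ 0 → D0' t w → D0' (t + 1) w) (h0 : ∀ t w, P.p w ≠ 0 → W.D0 t w → D0' t w)
    {σ : β → ℝ} {σe θ : ℝ} (hσ0 : ∀ U ∈ I, 0 ≤ σ U) (hσe0 : 0 ≤ σe)
    (hσ : ∀ U ∈ I, ∀ t < N, ∀ w, P.p w ≠ 0 →
      P.ce (Z U t) (fun v => ind (r ≤ |T t v| ∧ ¬ D0' t v)) w ≤ σ U)
    (hσ' : ∀ U ∈ I, ∀ t < N, ∀ w, P.p w ≠ 0 →
      P.ce (Z U t) (fun v => ind (r ≤ |T (t + 1) v| ∧ ¬ D0' (t + 1) v)) w ≤ σ U)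
    (hσe : ∀ t < N, ∀ w, P.p w ≠ 0 →
      P.ce (K (t + 1)) (fun v => ind (r ≤ |T t v| ∧ ¬ D0' t v)) w ≤ σe)
    (hσe' : ∀ t < N, ∀ w, P.p w ≠ 0 →
      P.ce (K (t + 1)) (fun v => ind (r ≤ |T (t + 1) v| ∧ ¬ D0' (t + 1) v)) w ≤ σe)
    (hθ : P.Pr (fun v => r ≤ |T N v|) ≤ θ) :
    P.Pr (fun w => ∃ t ≤ N, 4 * r + W.eta ≤ |T t w|) ≤
      2 * W.NB / (4 * r ^ 2) * (θ + W.e3 + ∑ U ∈ I, σ U * W.hb U +
        (P.Pr (D0' N) + W.q + 2 * W.J * (σe + ∑ U ∈ I, σ U))) +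
      3 * (P.Pr (D0' N) + W.q + 2 * W.J * (σe + ∑ U ∈ I, σ U)) := by
  obtain ⟨D2, hD2inc, hD2, hD2q, hXS, hSX, hev⟩ := W.thm r hrm D0' hinc h0
  have heta := W.eta0
  have hNB := W.NB0
  -- the label changes at semi points
  have hm1 : ∑ t ∈ range N, P.Pr (fun w => (che t w ∨ ∃ U ∈ I, W.ch U t w) ∧
      (r ≤ |T t w| ∨ r ≤ |T (t + 1) w|) ∧ ¬ D0' (t + 1) w) ≤
      2 * W.J * (σe + ∑ U ∈ I, σ U) := by
    have hlev : ∀ t ∈ range N, P.Pr (fun w => (che t w ∨ ∃ U ∈ I, W.ch U t w) ∧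
        (r ≤ |T t w| ∨ r ≤ |T (t + 1) w|) ∧ ¬ D0' (t + 1) w) ≤
        2 * σe * P.Pr (che t) + ∑ U ∈ I, 2 * σ U * P.Pr (W.ch U t) := by
      intro t htr
      have ht : t < N := Finset.mem_range.mp htr
      have g1 : P.Pr (fun w => che t w ∧ (r ≤ |T t w| ∧ ¬ D0' t w)) ≤ σe * P.Pr (che t) :=
        Pr_and_le P (hche t ht) (fun w hw => hσe t ht w hw)
      have g2 : P.Pr (fun w => che t w ∧ (r ≤ |T (t + 1) w| ∧ ¬ D0' (t + 1) w)) ≤ σe * P.Pr (che t) :=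
        Pr_and_le P (hche t ht) (fun w hw => hσe' t ht w hw)
      have g3 : ∀ U ∈ I, P.Pr (fun w => W.ch U t w ∧ (r ≤ |T t w| ∧ ¬ D0' t w)) ≤
          σ U * P.Pr (W.ch U t) := fun U hU => Pr_and_le P (W.chZ U hU t ht) (fun w hw => hσ U hU t ht w hw)
      have g4 : ∀ U ∈ I, P.Pr (fun w => W.ch U t w ∧ (r ≤ |T (t + 1) w| ∧ ¬ D0' (t + 1) w)) ≤
          σ U * P.Pr (W.ch U t) := fun U hU => Pr_and_le P (W.chZ U hU t ht) (fun w hw => hσ' U hU t ht w hw)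
      have g5 : P.Pr (fun w => (che t w ∨ ∃ U ∈ I, W.ch U t w) ∧
          (r ≤ |T t w| ∨ r ≤ |T (t + 1) w|) ∧ ¬ D0' (t + 1) w) ≤
          P.E (fun w => (ind (che t w ∧ (r ≤ |T t w| ∧ ¬ D0' t w)) +
            ind (che t w ∧ (r ≤ |T (t + 1) w| ∧ ¬ D0' (t + 1) w))) +
            ∑ U ∈ I, (ind (W.ch U t w ∧ (r ≤ |T t w| ∧ ¬ D0' t w)) +
              ind (W.ch U t w ∧ (r ≤ |T (t + 1) w| ∧ ¬ D0' (t + 1) w)))) := by
        unfold FP.Pr
        refine FP.E_mono _ (fun w hw => ?_)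
        by_cases hq : (che t w ∨ ∃ U ∈ I, W.ch U t w) ∧
          (r ≤ |T t w| ∨ r ≤ |T (t + 1) w|) ∧ ¬ D0' (t + 1) w
        swap
        · rw [ind_not hq]
          exact add_nonneg (add_nonneg (ind_nonneg _) (ind_nonneg _))
            (Finset.sum_nonneg fun U _ => add_nonneg (ind_nonneg _) (ind_nonneg _))
        rw [ind_of hq]
        obtain ⟨hc, hs, hd⟩ := hq
        have hd' : ¬ D0' t w := fun hh => hd (hinc t w hw hh)
        have hdis : (r ≤ |T t w| ∧ ¬ D0' t w) ∨ (r ≤ |T (t + 1) w| ∧ ¬ D0' (t + 1) w) := by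
          rcases hs with hs | hs
          · exact Or.inl ⟨hs, hd'⟩
          · exact Or.inr ⟨hs, hd⟩
        have hge : ∀ c : Prop, c → (1 : ℝ) ≤ ind (c ∧ (r ≤ |T t w| ∧ ¬ D0' t w)) +
            ind (c ∧ (r ≤ |T (t + 1) w| ∧ ¬ D0' (t + 1) w)) := by
          intro c hc'
          rcases hdis with h1 | h1
          · rw [ind_of (⟨hc', h1⟩ : c ∧ _)]
            linarith [ind_nonneg (c ∧ (r ≤ |T (t + 1) w| ∧ ¬ D0' (t + 1) w))]
          · rw [ind_of (⟨hc', h1⟩ : c ∧ (r ≤ |T (t + 1) w| ∧ ¬ D0' (t + 1) w))]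
            linarith [ind_nonneg (c ∧ (r ≤ |T t w| ∧ ¬ D0' t w))]
        rcases hc with hc | ⟨U, hU, hc⟩
        · have h1 := hge _ hc
          have h2 : 0 ≤ ∑ U ∈ I, (ind (W.ch U t w ∧ (r ≤ |T t w| ∧ ¬ D0' t w)) +
              ind (W.ch U t w ∧ (r ≤ |T (t + 1) w| ∧ ¬ D0' (t + 1) w))) :=
            Finset.sum_nonneg fun U _ => add_nonneg (ind_nonneg _) (ind_nonneg _)
          linarith
        · have h1 := hge _ hc
          have h2 : (ind (W.ch U t w ∧ (r ≤ |T t w| ∧ ¬ D0' t w)) +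
              ind (W.ch U t w ∧ (r ≤ |T (t + 1) w| ∧ ¬ D0' (t + 1) w))) ≤
              ∑ U ∈ I, (ind (W.ch U t w ∧ (r ≤ |T t w| ∧ ¬ D0' t w)) +
              ind (W.ch U t w ∧ (r ≤ |T (t + 1) w| ∧ ¬ D0' (t + 1) w))) :=
            Finset.single_le_sum (f := fun U => ind (W.ch U t w ∧ (r ≤ |T t w| ∧ ¬ D0' t w)) +
              ind (W.ch U t w ∧ (r ≤ |T (t + 1) w| ∧ ¬ D0' (t + 1) w)))
              (fun U _ => add_nonneg (ind_nonneg _) (ind_nonneg _)) hU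
          have h3 := ind_nonneg (che t w ∧ (r ≤ |T t w| ∧ ¬ D0' t w))
          have h4 := ind_nonneg (che t w ∧ (r ≤ |T (t + 1) w| ∧ ¬ D0' (t + 1) w))
          linarith
      refine g5.trans ?_
      rw [FP.E_add, FP.E_add, FP.E_sum]
      have g6 : ∑ U ∈ I, P.E (fun w => ind (W.ch U t w ∧ (r ≤ |T t w| ∧ ¬ D0' t w)) +
              ind (W.ch U t w ∧ (r ≤ |T (t + 1) w| ∧ ¬ D0' (t + 1) w))) ≤
          ∑ U ∈ I, 2 * σ U * P.Pr (W.ch U t) := by
        refine Finset.sum_le_sum fun U hU => ?_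
        rw [FP.E_add]
        have h1 := g3 U hU
        have h2 := g4 U hU
        unfold FP.Pr at h1 h2 ⊢
        linarith
      unfold FP.Pr at g1 g2 g6 ⊢
      linarith
    refine (Finset.sum_le_sum hlev).trans ?_
    rw [Finset.sum_add_distrib, ← Finset.mul_sum, Finset.sum_comm]
    have h1 : 2 * σe * ∑ t ∈ range N, P.Pr (che t) ≤ 2 * σe * W.J :=
      mul_le_mul_of_nonneg_left W.eJ (by positivity)
    have h2 : ∑ U ∈ I, ∑ t ∈ range N, 2 * σ U * P.Pr (W.ch U t) ≤ ∑ U ∈ I, 2 * σ U * W.J := by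
      refine Finset.sum_le_sum fun U hU => ?_
      rw [← Finset.mul_sum]
      exact mul_le_mul_of_nonneg_left (W.chJ U hU) (by have := hσ0 U hU; positivity)
    have h3 : 2 * W.J * (σe + ∑ U ∈ I, σ U) = 2 * σe * W.J + ∑ U ∈ I, 2 * σ U * W.J := by
      rw [mul_add, Finset.mul_sum]
      congr 1
      · ring
      · exact Finset.sum_congr rfl fun U _ => by ring
    linarith
  set q2 := P.Pr (D0' N) + W.q + 2 * W.J * (σe + ∑ U ∈ I, σ U) with hq2
  have hD2q' : P.Pr (D2 N) ≤ q2 := by linarith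
  -- the one view theorem
  have h1 := FP.one_view_alive P (W.view (2 * r) (by positivity) D2)
    (fun t w hw => hD2inc t w hw) (S := fun t v => N < t ∨ r ≤ |T t v|)
    (fun t w hw hX hD => by
      rcases Nat.lt_or_ge N t with hh | hh
      · exact Or.inl hh
      · have := hXS t hh w hw hX hD
        exact Or.inr (by linarith)) N (θ := θ)
    (by
      refine le_trans (FP.Pr_mono _ (fun w _ => ?_)) hθ
      rintro (hh | hh)
      · exact absurd hh (lt_irrefl N)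
      · exact hh)
    I Z (∅ : Finset Unit) (fun _ _ (_ : Om) => ()) (ρ := σ)
    (σ := fun _ => 0) (b := W.b) (c := fun _ _ _ => 0) (b0 := W.b0)
    (fun U hU t ht => W.bA U hU t ht) (fun U hU t ht => W.bZ U hU t ht) (fun U hU t ht w _ => W.bn U t w)
    (by simp) (by simp) (by simp)
    (fun t ht => W.b0A t ht) (fun t ht w _ => W.b0n t w)
    (fun t ht w hw _ => W.bias t ht w hw)
    (fun t ht w hw hX hA => by
      rw [Finset.sum_empty, ind_not (hev t ht w hw hX hA)])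
    (fun U hU t ht w hw _ => by
      refine le_trans (FP.ce_mono _ (fun v hv => ind_mono ?_) w) (hσ U hU t ht w hw)
      rintro ⟨hh, hd⟩
      rcases hh with hh | hh
      · exact absurd (hh.trans ht) (lt_irrefl N)
      · exact ⟨hh, fun h' => hd (hD2 t v hv h')⟩)
    (by simp) (s2 := 4 * r) (by linarith)
  have h2 := FP.one_view_T P (W.view (2 * r) (by positivity) D2)
    (fun t w hw => hD2inc t w hw) (S' := fun t v => t ≤ N ∧ 4 * r + W.eta ≤ |T t v|) (s2 := 4 * r)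
    (fun t w hw hS hD => hSX (4 * r) t hS.1 w hw (by linarith) hS.2 hD) N
  have h3 : (4 * r - 2 * r) ^ 2 = 4 * r ^ 2 := by ring
  rw [h3, Finset.sum_empty, add_zero] at h1
  have h4 : ∑ t ∈ range N, P.E (fun w => ind (¬ D2 t w) * W.b0 t w) ≤ W.e3 := by
    refine (Finset.sum_le_sum fun t _ => FP.E_mono _ (fun w hw => ?_)).trans W.b0e
    refine mul_le_mul_of_nonneg_right (ind_mono fun hn => ?_) (W.b0n t w)
    exact fun h => hn (hD2 t w hw (h0 t w hw h))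
  have h5 : ∑ U ∈ I, σ U * ∑ t ∈ range N, P.E (W.b U t) ≤ ∑ U ∈ I, σ U * W.hb U :=
    Finset.sum_le_sum fun U hU => mul_le_mul_of_nonneg_left (W.bh U hU) (hσ0 U hU)
  set A1 := P.Pr (fun w => ∃ t ≤ N, P.Al W.A D2 (1 / 2) t w ∧ 4 * r ≤ |W.X t w|) with hA1
  have h6 : 4 * r ^ 2 * A1 ≤ 2 * W.NB * (θ + W.e3 + ∑ U ∈ I, σ U * W.hb U + q2) := by
    refine h1.trans (mul_le_mul_of_nonneg_left ?_ (by linarith))
    linarith
  have h7 : A1 ≤ 2 * W.NB / (4 * r ^ 2) * (θ + W.e3 + ∑ U ∈ I, σ U * W.hb U + q2) := by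
    rw [div_mul_eq_mul_div, le_div_iff₀ (by positivity), mul_comm]
    exact h6
  have h8 : P.Pr (fun w => ∃ t ≤ N, 4 * r + W.eta ≤ |T t w|) ≤
      P.Pr (fun w => ∃ t ≤ N, t ≤ N ∧ 4 * r + W.eta ≤ |T t w|) := by
    refine FP.Pr_mono _ (fun w _ => ?_)
    rintro ⟨t, ht, hh⟩
    exact ⟨t, ht, ht, hh⟩
  linarith

end Pool.Agent.GM
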