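import Pool.Agent.M3.S3.MdlA
import Pool.Agent.M3.NVNum

/-!
# GM/NVNum (helper95): choice of the numbers of section 2B with noise and of HARM(K), every number `K` of known vertices
(row A11b)

`num2B` : in the units of the contracts (`exp (H ^ D1)`, number of values and bound of the functions `exp (exp (H ^ D1))`,
errors of the names `exp (-H ^ c1)`, `c1` does not depend on `D1`) there are thresholds `al`, `Rz`, `J`, `n0` of the noise,
the length `M'` of the lists, `r1`, `rmin`, `Lm` with all hypotheses of `nvW_ex` and of HARM(K) and with the sizes of the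
named view at most `exp (-H ^ c0)`, `exp (H ^ D)`.
-/

set_option autoImplicit false
set_option linter.unusedVariables false

namespace Pool.Agent.GM

open Finset Pool.Agent.PWZ Pool.Agent.M3 Real
open Pool.Agent.M3.Mod (SzM mul_exp_le)

namespace Num2

/-- the big constant -/
noncomputable def G (K : ℕ) : ℝ :=
  8 * K * (13 + 5 * (2 ^ K * K)) + 16 * K + 48 * K + 400 * ((2 : ℝ) ^ (K - 1) + 3) + 10 * (K + 2) + 100

/-- the sizes -/
structure Big (K : ℕ) (E X F y0 : ℝ) : Prop where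
  E1 : 1 ≤ E
  X0 : X = exp y0
  y1 : 1 ≤ y0
  F0 : G K * (E * X) ≤ F

variable {K : ℕ} {E X F y0 : ℝ}

theorem G_ge (K : ℕ) : 100 ≤ G K := by
  unfold G
  have h1 : (0 : ℝ) ≤ 8 * K * (13 + 5 * (2 ^ K * K)) := by positivity
  have h2 : (0 : ℝ) ≤ 400 * ((2 : ℝ) ^ (K - 1) + 3) := by positivity
  have h3 : (0 : ℝ) ≤ K := Nat.cast_nonneg _
  linarith

namespace Big

variable (S : Big K E X F y0)

include S

theorem X2 : y0 + 1 ≤ X := by
  rw [S.X0]
  exact add_one_le_exp y0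

theorem X1 : 2 ≤ X := by
  have := S.X2
  have := S.y1
  linarith

theorem Xp : 0 < X := by
  have := S.X1
  linarith

/-- linear consequences -/
theorem lin {a b d : ℝ} (ha : 0 ≤ a) (hb : 0 ≤ b) (hd : 0 ≤ d) (h : a + b + d ≤ G K) : a * E + b * X + d ≤ F := by
  have hE := S.E1
  have hX := S.X1
  have h1 : E ≤ E * X := by nlinarith
  have h2 : X ≤ E * X := by nlinarith
  have h3 : 1 ≤ E * X := by nlinarith
  have h4 : (a + b + d) * (E * X) ≤ G K * (E * X) := mul_le_mul_of_nonneg_right h (by linarith)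
  have h5 := S.F0
  nlinarith

theorem lin2 {a : ℝ} (h : a ≤ G K) : a * (E * X) ≤ F := by
  have hE := S.E1
  have hX := S.X1
  have h3 : 0 ≤ E * X := by nlinarith
  exact (mul_le_mul_of_nonneg_right h h3).trans S.F0

theorem F1 : 100 ≤ F := by
  have h1 := G_ge K
  have h2 := S.lin (a := 0) (b := 0) (d := 100) le_rfl le_rfl (by norm_num) (by linarith)
  linarith

theorem Xinv : exp (-y0) = X⁻¹ := by
  rw [S.X0, exp_neg]

/-- the error of the readings -/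
theorem errA {ne nf A0 M1 : ℝ} (hK : 1 ≤ K) (hne0 : 0 ≤ ne) (hne : ne ≤ E) (hnf0 : 0 ≤ nf) (hnf : nf ≤ 5 * E)
    (hA0 : 0 ≤ A0) (hA : A0 ≤ exp E) (hM0 : 0 ≤ M1) (hM : M1 ≤ exp (E + 2)) :
    K * exp (-F) * (ne + 2 ^ K * (K * nf) + 3 * (M1 ^ (K + 1) * (A0 / (X⁻¹ / 4)))) ≤ X⁻¹ / 8 := by
  have hE := S.E1
  have hX := S.X1
  have hXp := S.Xp
  have hKr : (1 : ℝ) ≤ K := by exact_mod_cast hK
  set Q : ℝ := X * exp ((K + 2) * (E + 2)) with hQ
  have hEQ : E ≤ Q := by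
    have h1 : E ≤ exp E := by linarith [add_one_le_exp E]
    have h2 : exp E ≤ exp ((K + 2) * (E + 2)) := exp_le_exp.2 (by nlinarith)
    have h3 : exp ((K + 2) * (E + 2)) ≤ Q := by
      rw [hQ]
      have := exp_pos ((K + 2) * (E + 2))
      nlinarith
    linarith
  have hQp : 0 ≤ Q := by linarith
  have h1 : 2 ^ K * (K * nf) ≤ 5 * (2 ^ K * K) * Q := by
    have h2 : nf ≤ 5 * Q := by linarith
    have h3 : (0 : ℝ) ≤ 2 ^ K * K := by positivity
    calc (2 : ℝ) ^ K * (K * nf) = 2 ^ K * K * nf := by ring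
      _ ≤ 2 ^ K * K * (5 * Q) := mul_le_mul_of_nonneg_left h2 h3
      _ = 5 * (2 ^ K * K) * Q := by ring
  have h2 : M1 ^ (K + 1) ≤ exp ((K + 1) * (E + 2)) := by
    calc M1 ^ (K + 1) ≤ exp (E + 2) ^ (K + 1) := pow_le_pow_left₀ hM0 hM _
      _ = exp ((K + 1) * (E + 2)) := by
        rw [← exp_nat_mul]
        push_cast
        ring_nf
  have h3 : A0 / (X⁻¹ / 4) ≤ exp E * (4 * X) := by
    have h4 : A0 / (X⁻¹ / 4) = A0 * (4 * X) := by field_simp
    rw [h4]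
    exact mul_le_mul_of_nonneg_right hA (by linarith)
  have h30 : 0 ≤ A0 / (X⁻¹ / 4) := by positivity
  have h4 : M1 ^ (K + 1) * (A0 / (X⁻¹ / 4)) ≤ 4 * Q := by
    calc M1 ^ (K + 1) * (A0 / (X⁻¹ / 4)) ≤ exp ((K + 1) * (E + 2)) * (exp E * (4 * X)) :=
          mul_le_mul h2 h3 h30 (exp_pos _).le
      _ = 4 * X * exp ((K + 1) * (E + 2) + E) := by rw [exp_add]; ring
      _ ≤ 4 * X * exp ((K + 2) * (E + 2)) := by
        refine mul_le_mul_of_nonneg_left (exp_le_exp.2 ?_) (by linarith)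
        linarith
      _ = 4 * Q := by rw [hQ]; ring
  have h5 : ne + 2 ^ K * (K * nf) + 3 * (M1 ^ (K + 1) * (A0 / (X⁻¹ / 4))) ≤ (13 + 5 * (2 ^ K * K)) * Q := by
    have : ne ≤ Q := hne.trans hEQ
    have e1 : (13 + 5 * (2 ^ K * K)) * Q = 13 * Q + 5 * (2 ^ K * K) * Q := by ring
    rw [e1]
    linarith
  have h6 : K * exp (-F) * (ne + 2 ^ K * (K * nf) + 3 * (M1 ^ (K + 1) * (A0 / (X⁻¹ / 4)))) ≤
      K * exp (-F) * ((13 + 5 * (2 ^ K * K)) * Q) :=
    mul_le_mul_of_nonneg_left h5 (by positivity)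
  refine h6.trans ?_
  have h7 : (8 * K * (13 + 5 * (2 ^ K * K))) * exp (2 * y0 + (K + 2) * (E + 2) - F) ≤ exp 0 := by
    refine mul_exp_le ?_
    have h8 := S.lin (a := 3 * (K + 2)) (b := 2) (d := 8 * K * (13 + 5 * (2 ^ K * K))) (by positivity) (by norm_num)
      (by positivity) (by
        unfold G
        have : (0 : ℝ) ≤ 400 * ((2 : ℝ) ^ (K - 1) + 3) := by positivity
        linarith)
    have h9 := S.X2
    have h10 : (K + 2) * (E + 2) ≤ 3 * (K + 2) * E := by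
      have : (0 : ℝ) ≤ (K : ℝ) + 2 := by positivity
      nlinarith
    linarith
  rw [exp_zero] at h7
  have h8 : exp (2 * y0 + (K + 2) * (E + 2) - F) = X * (Q * exp (-F)) := by
    rw [hQ, S.X0, ← exp_add, ← exp_add, ← exp_add]
    congr 1
    ring
  rw [h8] at h7
  have h9 : K * exp (-F) * ((13 + 5 * (2 ^ K * K)) * Q) =
      X⁻¹ / 8 * (8 * K * (13 + 5 * (2 ^ K * K)) * (X * (Q * exp (-F)))) := by
    field_simp
  rw [h9]
  have h10 : 0 ≤ X⁻¹ / 8 := by positivity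
  nlinarith

/-- the number of the occasions -/
theorem errB {nf J : ℝ} (hK : 1 ≤ K) (hnf0 : 0 ≤ nf) (hnf : nf ≤ 5 * E)
    (hJ : exp (((2 : ℝ) ^ (K - 1) + 1) * F) ≤ J) :
    (1 + 2 ^ K * (K * nf) / exp (-(F * 2 ^ (K - 1)))) / J ≤ X⁻¹ / (8 * K) := by
  have hE := S.E1
  have hX := S.X1
  have hXp := S.Xp
  have hKr : (1 : ℝ) ≤ K := by exact_mod_cast hK
  have hKp : (0 : ℝ) < K := by linarith
  have hJp : 0 < J := lt_of_lt_of_le (exp_pos _) hJ
  set P : ℝ := (2 : ℝ) ^ (K - 1) with hP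
  have hP0 : 0 ≤ P := by positivity
  have hF := S.F1
  rw [div_le_iff₀ hJp]
  have h1 : 2 ^ K * (K * nf) / exp (-(F * P)) = 2 ^ K * (K * nf) * exp (F * P) := by
    rw [exp_neg, div_inv_eq_mul]
  rw [h1]
  have h2 : 1 ≤ exp (F * P) := one_le_exp (by positivity)
  have h3 : 1 + 2 ^ K * (K * nf) * exp (F * P) ≤ (1 + 5 * (2 ^ K * K)) * E * exp (F * P) := by
    have h4 : 2 ^ K * (K * nf) ≤ 5 * (2 ^ K * K) * E := by
      calc (2 : ℝ) ^ K * (K * nf) = 2 ^ K * K * nf := by ring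
        _ ≤ 2 ^ K * K * (5 * E) := mul_le_mul_of_nonneg_left hnf (by positivity)
        _ = 5 * (2 ^ K * K) * E := by ring
    have h5 := mul_le_mul_of_nonneg_right h4 (exp_pos (F * P)).le
    have h6 : 1 ≤ E * exp (F * P) := by nlinarith
    nlinarith
  have h4 : 8 * K * (1 + 5 * (2 ^ K * K)) * (E * X) ≤ exp F := by
    have h5 := S.lin2 (a := 8 * K * (1 + 5 * (2 ^ K * K))) (by
      unfold G
      have h6 : (0 : ℝ) ≤ 400 * ((2 : ℝ) ^ (K - 1) + 3) := by positivity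
      nlinarith)
    linarith [add_one_le_exp F]
  have h5 : exp ((P + 1) * F) = exp F * exp (F * P) := by
    rw [← exp_add]
    congr 1
    ring
  rw [h5] at hJ
  have h6 : (1 + 5 * (2 ^ K * K)) * E * exp (F * P) ≤ X⁻¹ / (8 * K) * (exp F * exp (F * P)) := by
    have h7 : (1 + 5 * (2 ^ K * K)) * E ≤ X⁻¹ / (8 * K) * exp F := by
      have h8 : X⁻¹ / (8 * K) * (8 * K * (1 + 5 * (2 ^ K * K)) * (E * X)) = (1 + 5 * (2 ^ K * K)) * E := by
        field_simp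
      rw [← h8]
      exact mul_le_mul_of_nonneg_left h4 (by positivity)
    calc (1 + 5 * (2 ^ K * K)) * E * exp (F * P) ≤ X⁻¹ / (8 * K) * exp F * exp (F * P) :=
          mul_le_mul_of_nonneg_right h7 (exp_pos _).le
      _ = _ := by ring
  exact (h3.trans h6).trans (mul_le_mul_of_nonneg_left hJ (by positivity))

/-- the number of the components -/
theorem errC {nf n0 : ℝ} (hK : 1 ≤ K) (hnf0 : 0 ≤ nf) (hnf : nf ≤ 5 * E) (hn : F ≤ n0) :
    (1 + nf) / n0 ≤ X⁻¹ / (8 * K) := by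
  have hE := S.E1
  have hX := S.X1
  have hXp := S.Xp
  have hKr : (1 : ℝ) ≤ K := by exact_mod_cast hK
  have hF := S.F1
  have hn0 : 0 < n0 := by linarith
  rw [div_le_iff₀ hn0]
  have h1 := S.lin2 (a := 48 * K) (by
    unfold G
    have h6 : (0 : ℝ) ≤ 400 * ((2 : ℝ) ^ (K - 1) + 3) := by positivity
    have h7 : (0 : ℝ) ≤ 8 * K * (13 + 5 * (2 ^ K * K)) := by positivity
    linarith)
  have h2 : 1 + nf ≤ 6 * E := by linarith
  have h3 : X⁻¹ / (8 * K) * (48 * K * (E * X)) = 6 * E := by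
    field_simp
    ring
  calc 1 + nf ≤ 6 * E := h2
    _ = X⁻¹ / (8 * K) * (48 * K * (E * X)) := h3.symm
    _ ≤ X⁻¹ / (8 * K) * n0 := mul_le_mul_of_nonneg_left (h1.trans hn) (by positivity)

/-- strikes -/
theorem errD {J R : ℝ} (hK : 1 ≤ K) (hJ : J ≤ 2 * exp (((2 : ℝ) ^ (K - 1) + 1) * F))
    (hR : exp (((2 : ℝ) ^ (K - 1) + 2) * F) ≤ R) : J / (R + 1) ≤ X⁻¹ / (8 * K) := by
  have hE := S.E1
  have hX := S.X1
  have hXp := S.Xp
  have hKr : (1 : ℝ) ≤ K := by exact_mod_cast hK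
  have hF := S.F1
  set P : ℝ := (2 : ℝ) ^ (K - 1) with hP
  have hR0 : 0 < R := lt_of_lt_of_le (exp_pos _) hR
  rw [div_le_iff₀ (by linarith)]
  have h1 := S.lin (a := 0) (b := 16 * K) (d := 0) le_rfl (by positivity) le_rfl (by
    unfold G
    have h6 : (0 : ℝ) ≤ 400 * ((2 : ℝ) ^ (K - 1) + 3) := by positivity
    have h7 : (0 : ℝ) ≤ 8 * K * (13 + 5 * (2 ^ K * K)) := by positivity
    linarith)
  have h2 : 16 * K * X ≤ exp F := by linarith [add_one_le_exp F]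
  have h3 : exp ((P + 2) * F) = exp F * exp ((P + 1) * F) := by
    rw [← exp_add]
    congr 1
    ring
  have h4 : 2 * exp ((P + 1) * F) = X⁻¹ / (8 * K) * (16 * K * X * exp ((P + 1) * F)) := by
    field_simp
    ring
  calc J ≤ 2 * exp ((P + 1) * F) := hJ
    _ = X⁻¹ / (8 * K) * (16 * K * X * exp ((P + 1) * F)) := h4
    _ ≤ X⁻¹ / (8 * K) * (exp F * exp ((P + 1) * F)) :=
      mul_le_mul_of_nonneg_left (mul_le_mul_of_nonneg_right h2 (exp_pos _).le) (by positivity)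
    _ = X⁻¹ / (8 * K) * exp ((P + 2) * F) := by rw [h3]
    _ ≤ X⁻¹ / (8 * K) * (R + 1) := mul_le_mul_of_nonneg_left (by linarith) (by positivity)

/-- the sizes of HARM(K) -/
theorem szm {Rz J n0 M' : ℕ} (hM : ((M' : ℝ) + 1) ≤ exp (E + 2)) (hJ1 : exp (((2 : ℝ) ^ (K - 1) + 1) * F) ≤ J)
    (hJ2 : (J : ℝ) ≤ 2 * exp (((2 : ℝ) ^ (K - 1) + 1) * F)) (hR1 : exp (((2 : ℝ) ^ (K - 1) + 2) * F) ≤ Rz)
    (hR2 : (Rz : ℝ) ≤ exp (((2 : ℝ) ^ (K - 1) + 2) * F) + 1) (hn : (n0 : ℝ) ≤ 2 * F) :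
    SzM Rz J n0 (Fintype.card (Bool → Fin (M' + 1))) (100 * ((2 : ℝ) ^ (K - 1) + 3) * F ^ 2) := by
  have hE := S.E1
  have hX := S.X1
  have hF := S.F1
  have hM0 : (0 : ℝ) ≤ M' := Nat.cast_nonneg _
  set P : ℝ := (2 : ℝ) ^ (K - 1) with hP
  have hP1 : 1 ≤ P := one_le_pow₀ (by norm_num)
  have hlin := S.lin (a := 20) (b := 0) (d := 20) (by norm_num) le_rfl (by norm_num) (by linarith [G_ge K])
  have hm : (Fintype.card (Bool → Fin (M' + 1)) : ℝ) = ((M' : ℝ) + 1) ^ 2 := by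
    rw [Fintype.card_fun, Fintype.card_fin, Fintype.card_bool]
    push_cast
    ring
  have hm1 : ((M' : ℝ) + 1) ^ 2 ≤ exp (2 * E + 4) := by
    calc ((M' : ℝ) + 1) ^ 2 ≤ exp (E + 2) ^ 2 := pow_le_pow_left₀ (by linarith) hM 2
      _ = exp (2 * E + 4) := by rw [← exp_nat_mul]; congr 1; push_cast; ring
  have hm0 : (1 : ℝ) ≤ ((M' : ℝ) + 1) ^ 2 := one_le_pow₀ (by linarith)
  have hm2 : ((M' : ℝ) + 1) ^ 2 + 1 ≤ exp (2 * E + 5) := by
    have h1 : 2 * exp (2 * E + 4) ≤ exp (2 * E + 5) := mul_exp_le (by linarith)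
    linarith
  have hJp : (0 : ℝ) < J := lt_of_lt_of_le (exp_pos _) hJ1
  have hFp : 0 < F := by linarith
  have hPF : 0 ≤ P * F := by positivity
  have hF2 : 100 * F ≤ F ^ 2 := by
    rw [sq]
    exact mul_le_mul_of_nonneg_right hF hFp.le
  have hPF2 : 0 ≤ P * F ^ 2 := by positivity
  have hPF3 : P * (100 * F) ≤ P * F ^ 2 := mul_le_mul_of_nonneg_left hF2 (by linarith)
  refine ⟨?_, ?_, ?_, ?_, ?_, ?_⟩
  · have h1 : (1 : ℝ) ≤ Rz := (one_le_exp (by positivity)).trans hR1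
    exact_mod_cast h1
  · have h1 : (1 : ℝ) ≤ J := (one_le_exp (by positivity)).trans hJ1
    exact_mod_cast h1
  · nlinarith
  · have h2J : 2 * J ≤ Rz + 1 := by
      have h1 : 4 * exp ((P + 1) * F) ≤ exp ((P + 2) * F) := mul_exp_le (by linarith)
      have h2 : (2 : ℝ) * J ≤ Rz + 1 := by linarith
      exact_mod_cast h2
    refine le_trans ?_ (Nz.alz_ge h2J)
    rw [hm]
    have h3 : ((Rz : ℝ) + 1) * (((M' : ℝ) + 1) ^ 2 + 1) ≤ exp ((P + 3) * F) := by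
      have a1 : (Rz : ℝ) + 1 ≤ exp ((P + 2) * F + 2) := by
        have b1 : 3 * exp ((P + 2) * F) ≤ exp ((P + 2) * F + 2) := mul_exp_le (by linarith)
        have b2 : 1 ≤ exp ((P + 2) * F) := one_le_exp (by positivity)
        linarith
      calc ((Rz : ℝ) + 1) * (((M' : ℝ) + 1) ^ 2 + 1) ≤ exp ((P + 2) * F + 2) * exp (2 * E + 5) :=
            mul_le_mul a1 hm2 (by positivity) (exp_pos _).le
        _ = exp ((P + 2) * F + 2 + (2 * E + 5)) := by rw [← exp_add]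
        _ ≤ exp ((P + 3) * F) := exp_le_exp.2 (by linarith)
    have h4 : exp (-((P + 3) * F)) ≤ 1 / (((Rz : ℝ) + 1) * (((M' : ℝ) + 1) ^ 2 + 1)) := by
      rw [exp_neg, ← one_div]
      exact one_div_le_one_div_of_le (by positivity) h3
    have h5 : exp (-((P + 3) * F)) ^ (3 * n0) ≤ (1 / (((Rz : ℝ) + 1) * (((M' : ℝ) + 1) ^ 2 + 1))) ^ (3 * n0) :=
      pow_le_pow_left₀ (exp_pos _).le h4 _
    have h6 : exp (-((P + 3) * F)) ^ (3 * n0) = exp (-(3 * (P + 3) * F * n0)) := by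
      rw [← exp_nat_mul]
      congr 1
      push_cast
      ring
    have h7 : exp (-(3 * (P + 3) * F * (2 * F))) ≤ exp (-(3 * (P + 3) * F * n0)) :=
      exp_le_exp.2 (neg_le_neg (mul_le_mul_of_nonneg_left hn (by positivity)))
    have h8 : 2 * exp (-(100 * (P + 3) * F ^ 2)) ≤ exp (-(3 * (P + 3) * F * (2 * F))) := by
      refine mul_exp_le ?_
      have h9 : 3 * (P + 3) * F * (2 * F) = 6 * (P * F ^ 2) + 18 * F ^ 2 := by ring
      have h10 : 100 * (P + 3) * F ^ 2 = 100 * (P * F ^ 2) + 300 * F ^ 2 := by ring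
      rw [h9, h10]
      linarith
    rw [h6] at h5
    linarith
  · have h1 : 2 * exp ((P + 1) * F) ≤ exp (100 * (P + 3) * F ^ 2) := by
      refine mul_exp_le ?_
      have h10 : 100 * (P + 3) * F ^ 2 = 100 * (P * F ^ 2) + 300 * F ^ 2 := by ring
      rw [h10]
      linarith
    exact hJ2.trans h1
  · rw [hm]
    have h1 : log (((M' : ℝ) + 1) ^ 2 + 1) ≤ 2 * E + 5 := by
      rw [← log_exp (2 * E + 5)]
      exact log_le_log (by positivity) hm2
    have h2 : log (((M' : ℝ) + 1) ^ 2) ≤ 2 * E + 4 := by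
      rw [← log_exp (2 * E + 4)]
      exact log_le_log (by positivity) hm1
    have h3 : log (J : ℝ) ≤ (P + 1) * F + 1 := by
      rw [← log_exp ((P + 1) * F + 1)]
      have a1 : 2 * exp ((P + 1) * F) ≤ exp ((P + 1) * F + 1) := mul_exp_le (by linarith)
      exact log_le_log hJp (hJ2.trans a1)
    have h4 : 1 + log (J : ℝ) + log (((M' : ℝ) + 1) ^ 2) ≤ (P + 2) * F := by linarith
    have h5 : 2 * (n0 : ℝ) * (1 + log (J : ℝ) + log (((M' : ℝ) + 1) ^ 2)) ≤ 2 * (2 * F) * ((P + 2) * F) :=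
      (mul_le_mul_of_nonneg_left h4 (by positivity)).trans
        (mul_le_mul_of_nonneg_right (by linarith) (by positivity))
    have h6 : 2 * (2 * F) * ((P + 2) * F) = 4 * (P * F ^ 2) + 8 * F ^ 2 := by ring
    have h10 : 100 * (P + 3) * F ^ 2 = 100 * (P * F ^ 2) + 300 * F ^ 2 := by ring
    rw [h6] at h5
    rw [h10]
    linarith

end Big

theorem pow_ge {H : ℝ} (hH : 2 ≤ H) (t : ℕ) : (t : ℝ) + 1 ≤ H ^ t := by
  have h1 : t + 1 ≤ 2 ^ t := Nat.lt_two_pow_self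
  have h2 : ((t + 1 : ℕ) : ℝ) ≤ ((2 ^ t : ℕ) : ℝ) := by exact_mod_cast h1
  push_cast at h2
  exact h2.trans (pow_le_pow_left₀ (by norm_num) hH t)

end Num2

open Num2 in
/-- **THE CHOICE OF THE NUMBERS** -/
theorem num2B (K C c0 : ℕ) (hK : 1 ≤ K) (cc : ℝ) : ∃ c1 : ℕ, ∀ D1 : ℕ, ∃ D : ℕ, ∀ H : ℝ, 2 ≤ H →
    ∀ (M M0 : ℕ) (A0 ne Jn q0 qq eta : ℝ), (M : ℝ) ≤ exp (exp (H ^ D1)) → (M0 : ℝ) ≤ exp (exp (H ^ D1)) → 0 ≤ A0 →
    A0 ≤ exp (exp (H ^ D1)) → 0 ≤ ne → ne ≤ exp (H ^ D1) → 0 ≤ Jn → Jn ≤ exp (H ^ D1) → q0 ≤ exp (-H ^ c1) →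
    qq ≤ exp (-H ^ c1) → eta ≤ exp (-H ^ c1) →
    ∃ (al : ℕ → ℝ) (Rz J n0 M' : ℕ) (r1 rmin Lm : ℝ), (∀ s, 0 < al s) ∧ (∀ s, al s ≤ 1) ∧
      (∀ s, s + 1 < K → al s ≤ al (s + 1) ^ 2) ∧ 2 * M ≤ M' ∧ M0 < M' ∧ 0 < J ∧ 0 < n0 ∧ 0 < r1 ∧ r1 ≤ 1 / 2 ∧
      2 * eta + r1 ≤ rmin ∧ eta < 1 / 2 ∧ rmin ≤ exp (-H ^ c0) ∧ eta ≤ exp (-H ^ c0) ∧
      SzM Rz J n0 (Fintype.card (Bool → Fin (M' + 1))) Lm ∧ 2 ≤ Lm ∧
      q0 + (K + 1) * qq + K * ((J : ℝ) / (Rz + 1) + (1 + 2 ^ K * (K * (4 * Jn + 1)) / al 0) / J +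
          (1 + (4 * Jn + 1)) / n0) + K * al (K - 1) *
        (ne + 2 ^ K * (K * (4 * Jn + 1)) + 3 * (((M' : ℝ) + 1) ^ (K + 1) * (A0 / r1))) + Lm⁻¹ ≤ exp (-H ^ c0) ∧
      2 * Lm⁻¹ ≤ exp (-H ^ c0) ∧ K * (ne + (4 * Jn + 1) + 2 * n0) ≤ exp (H ^ D) ∧
      cc * exp (log (2 * Lm) ^ C) ≤ exp (H ^ D) := by
  obtain ⟨t1, ht1⟩ : ∃ t1 : ℕ, 8 * ((K : ℝ) + 2) + 16 ≤ t1 := exists_nat_ge _
  refine ⟨c0 + t1, fun D1 => ?_⟩
  obtain ⟨t, ht⟩ : ∃ t : ℕ, G K + 3 ≤ (t : ℝ) := exists_nat_ge _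
  obtain ⟨g, hg⟩ : ∃ g : ℕ, 200 * ((2 : ℝ) ^ (K - 1) + 3) + 2 ≤ g := exists_nat_ge _
  obtain ⟨b, hb⟩ : ∃ b : ℕ, 10 * (K : ℝ) + |cc| ≤ b := exists_nat_ge _
  obtain ⟨a, ha⟩ : ∃ a : ℕ, a = c0 + D1 + t + g := ⟨_, rfl⟩
  refine ⟨a * (C + 1) + b, ?_⟩
  intro H hH M M0 A0 ne Jn q0 qq eta hM hM0 hA0 hA hne0 hne hJn0 hJn hq0 hqq heta
  have hH1 : 1 ≤ H := by linarith
  have hKr : (1 : ℝ) ≤ K := by exact_mod_cast hK
  set y0 : ℝ := H ^ c0 with hy0
  set y1 : ℝ := H ^ D1 with hy1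
  set yD : ℝ := H ^ (c0 + D1 + t) with hyD
  have hy0' : 1 ≤ y0 := one_le_pow₀ hH1
  have hy1' : 1 ≤ y1 := one_le_pow₀ hH1
  have hyD1 : G K + y0 + y1 ≤ yD := by
    have h1 : yD = y0 * y1 * H ^ t := by rw [hyD, hy0, hy1]; ring
    have h2 := pow_ge hH t
    have h3 := ht
    have h4 : 1 ≤ y0 * y1 := one_le_mul_of_one_le_of_one_le hy0' hy1'
    have h5 : G K + 3 ≤ H ^ t := by linarith
    have h6 : y0 * y1 * (G K + 3) ≤ yD := by
      rw [h1]
      exact mul_le_mul_of_nonneg_left h5 (by linarith)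
    have h7 := G_ge K
    have h8 : 1 * G K ≤ y0 * y1 * G K := mul_le_mul_of_nonneg_right h4 (by linarith)
    have h9 : y0 * 1 ≤ y0 * y1 := mul_le_mul_of_nonneg_left hy1' (by linarith)
    have h10 : 1 * y1 ≤ y0 * y1 := mul_le_mul_of_nonneg_right hy0' (by linarith)
    linarith
  set E : ℝ := exp y1 with hE
  set X : ℝ := exp y0 with hX
  set F : ℝ := exp yD with hF
  have S : Big K E X F y0 := by
    refine ⟨one_le_exp (by linarith), hX, hy0', ?_⟩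
    rw [hE, hX, hF, ← exp_add]
    exact mul_exp_le (by linarith)
  have hE1 := S.E1
  have hX1 := S.X1
  have hXp := S.Xp
  have hF1 := S.F1
  have hXinv : exp (-y0) = X⁻¹ := S.Xinv
  have hXi : 0 < X⁻¹ := inv_pos.2 hXp
  have hXi2 : X⁻¹ ≤ 1 / 2 := by
    rw [one_div]
    exact inv_anti₀ (by norm_num) hX1
  have hFp : 0 < F := exp_pos _
  set P : ℝ := (2 : ℝ) ^ (K - 1) with hP
  have hP1 : 1 ≤ P := one_le_pow₀ (by norm_num)
  -- the errors of the names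
  have hc1 : (8 * ((K : ℝ) + 2) + 16) * exp (-H ^ (c0 + t1)) ≤ X⁻¹ := by
    rw [← hXinv]
    refine mul_exp_le ?_
    have h1 : H ^ (c0 + t1) = y0 * H ^ t1 := by rw [hy0, pow_add]
    have h2 := pow_ge hH t1
    rw [h1]
    have h3 : y0 * ((t1 : ℝ) + 1) ≤ y0 * H ^ t1 := mul_le_mul_of_nonneg_left h2 (by linarith)
    have h4 : 1 * (t1 : ℝ) ≤ y0 * t1 := mul_le_mul_of_nonneg_right hy0' (Nat.cast_nonneg _)
    linarith
  generalize he1 : exp (-H ^ (c0 + t1)) = e1 at *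
  have he1p : 0 < e1 := he1 ▸ exp_pos _
  have hKe : 0 ≤ (K : ℝ) * e1 := by positivity
  -- the numbers
  set J : ℕ := ⌈exp ((P + 1) * F)⌉₊ with hJ
  set n0 : ℕ := ⌈F⌉₊ with hn0
  set Rz : ℕ := ⌈exp ((P + 2) * F)⌉₊ with hRz
  have hJ1 : exp ((P + 1) * F) ≤ J := Nat.le_ceil _
  have hJ2 : (J : ℝ) ≤ 2 * exp ((P + 1) * F) := by
    have h1 := (Nat.ceil_lt_add_one (exp_pos ((P + 1) * F)).le).le
    have h2 : 1 ≤ exp ((P + 1) * F) := one_le_exp (by positivity)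
    rw [← hJ] at h1
    linarith
  have hN1 : F ≤ n0 := Nat.le_ceil _
  have hN2 : (n0 : ℝ) ≤ 2 * F := by
    have h1 := (Nat.ceil_lt_add_one hFp.le).le
    rw [← hn0] at h1
    linarith
  have hR1 : exp ((P + 2) * F) ≤ Rz := Nat.le_ceil _
  have hR2 : (Rz : ℝ) ≤ exp ((P + 2) * F) + 1 := by
    have h1 := (Nat.ceil_lt_add_one (exp_pos ((P + 2) * F)).le).le
    rw [← hRz] at h1
    exact h1
  have hJp : (0 : ℝ) < J := lt_of_lt_of_le (exp_pos _) hJ1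
  have hNp : (0 : ℝ) < n0 := lt_of_lt_of_le hFp hN1
  set M' : ℕ := 2 * M + M0 + 1 with hM'
  have hM1 : (M' : ℝ) + 1 ≤ exp (E + 2) := by
    have h1 : 5 * exp E ≤ exp (E + 2) := by
      have h2 : exp (E + 2) = exp E * exp 2 := exp_add _ _
      have h3 : (5 : ℝ) ≤ exp 2 := by
        have h4 : exp 2 = exp 1 * exp 1 := by rw [← exp_add]; norm_num
        have h5 := exp_one_gt_d9
        have h6 : (2.7182818283 : ℝ) * 2.7182818283 ≤ exp 1 * exp 1 :=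
          mul_le_mul h5.le h5.le (by norm_num) (exp_pos _).le
        rw [h4]
        norm_num at h6 ⊢
        linarith
      rw [h2, mul_comm (5 : ℝ)]
      exact mul_le_mul_of_nonneg_left h3 (exp_pos E).le
    have h2 : 1 ≤ exp E := one_le_exp (by linarith)
    rw [hM']
    push_cast
    linarith
  have hnf : 4 * Jn + 1 ≤ 5 * E := by linarith
  have hnf0 : 0 ≤ 4 * Jn + 1 := by linarith
  set Lm : ℝ := 100 * (P + 3) * F ^ 2 with hLm
  have hLmF : F ≤ Lm := by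
    have h1 : 1 * F ≤ F * F := mul_le_mul_of_nonneg_right (by linarith) hFp.le
    have h2 : 0 ≤ P * F ^ 2 := by positivity
    have h3 : 100 * (P + 3) * F ^ 2 = 100 * (P * F ^ 2) + 300 * (F * F) := by ring
    rw [hLm, h3]
    linarith
  have hLm8 : 8 * X ≤ Lm := by
    have h1 := S.lin (a := 0) (b := 8) (d := 0) le_rfl (by norm_num) le_rfl (by linarith [G_ge K])
    linarith
  have hLmp : 0 < Lm := by linarith
  have hLmi : Lm⁻¹ ≤ X⁻¹ / 8 := by
    have h1 : Lm⁻¹ ≤ (8 * X)⁻¹ := inv_anti₀ (by linarith) hLm8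
    have h2 : (8 * X)⁻¹ = X⁻¹ / 8 := by field_simp
    rw [h2] at h1
    exact h1
  have hal1 : exp (-(F * 2 ^ (K - 1 - (K - 1)))) = exp (-F) := by
    rw [Nat.sub_self, pow_zero, mul_one]
  have hD : ∀ {z : ℝ}, z ≤ H ^ (a * (C + 1)) → z + b ≤ H ^ (a * (C + 1) + b) := by
    intro z hz
    have h1 : 1 ≤ H ^ (a * (C + 1)) := one_le_pow₀ hH1
    have h2 := pow_ge hH b
    rw [pow_add]
    have h3 : H ^ (a * (C + 1)) * ((b : ℝ) + 1) ≤ H ^ (a * (C + 1)) * H ^ b := mul_le_mul_of_nonneg_left h2 (by linarith)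
    have h4 : 1 * (b : ℝ) ≤ H ^ (a * (C + 1)) * b := mul_le_mul_of_nonneg_right h1 (Nat.cast_nonneg _)
    linarith
  have hyDa : yD ≤ H ^ a := pow_le_pow_right₀ hH1 (by omega)
  refine ⟨fun s => exp (-(F * 2 ^ (K - 1 - s))), Rz, J, n0, M', X⁻¹ / 4, 2 * eta + X⁻¹ / 4, Lm, fun s => exp_pos _,
    fun s => ?_, fun s hs => ?_, by omega, by omega, by exact_mod_cast hJp, by exact_mod_cast hNp, by positivity,
    by linarith, le_rfl, ?_, ?_, ?_, S.szm hM1 hJ1 hJ2 hR1 hR2 hN2, by linarith, ?_, ?_, ?_, ?_⟩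
  · exact exp_le_one_iff.2 (by
      have : 0 ≤ F * 2 ^ (K - 1 - s) := by positivity
      linarith)
  · have h1 : K - 1 - s = K - 1 - (s + 1) + 1 := by omega
    show exp (-(F * 2 ^ (K - 1 - s))) ≤ exp (-(F * 2 ^ (K - 1 - (s + 1)))) ^ 2
    rw [← exp_nat_mul, h1, pow_succ]
    refine le_of_eq ?_
    congr 1
    push_cast
    ring
  · linarith
  · rw [hXinv]
    linarith
  · rw [hXinv]
    linarith
  · -- the errors
    rw [hXinv]
    show q0 + (K + 1) * qq + K * ((J : ℝ) / (Rz + 1) + (1 + 2 ^ K * (K * (4 * Jn + 1)) / exp (-(F * 2 ^ (K - 1 - 0)))) / J +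
          (1 + (4 * Jn + 1)) / n0) + K * exp (-(F * 2 ^ (K - 1 - (K - 1)))) *
        (ne + 2 ^ K * (K * (4 * Jn + 1)) + 3 * (((M' : ℝ) + 1) ^ (K + 1) * (A0 / (X⁻¹ / 4)))) + Lm⁻¹ ≤ X⁻¹
    rw [hal1, Nat.sub_zero]
    have h1 := S.errA hK hne0 hne hnf0 hnf hA0 hA (by positivity) hM1
    have h2 := S.errB hK hnf0 hnf hJ1
    have h3 := S.errC hK hnf0 hnf hN1
    have h4 := S.errD hK hJ2 hR1
    have h5 : K * ((J : ℝ) / (Rz + 1) + (1 + 2 ^ K * (K * (4 * Jn + 1)) / exp (-(F * 2 ^ (K - 1)))) / J +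
        (1 + (4 * Jn + 1)) / n0) ≤ K * (3 * (X⁻¹ / (8 * K))) :=
      mul_le_mul_of_nonneg_left (by linarith) (by linarith)
    have h6 : K * (3 * (X⁻¹ / (8 * K))) = 3 * X⁻¹ / 8 := by field_simp
    have h7 : q0 + (K + 1) * qq ≤ X⁻¹ / 8 := by
      have h8 : (K + 1) * qq ≤ (K + 1) * e1 := mul_le_mul_of_nonneg_left hqq (by linarith)
      linarith
    linarith
  · rw [hXinv]
    linarith
  · -- the number of changes
    have h1 : E ≤ F := by
      have := S.lin (a := 1) (b := 0) (d := 0) (by norm_num) le_rfl le_rfl (by linarith [G_ge K])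
      linarith
    have h2 : K * (ne + (4 * Jn + 1) + 2 * n0) ≤ K * (10 * F) :=
      mul_le_mul_of_nonneg_left (by linarith) (by linarith)
    refine h2.trans ?_
    have h3 : (10 * (K : ℝ)) * exp yD ≤ exp (H ^ (a * (C + 1) + b)) := by
      refine mul_exp_le ?_
      have h4 : H ^ a ≤ H ^ (a * (C + 1)) := pow_le_pow_right₀ hH1 (Nat.le_mul_of_pos_right a (Nat.succ_pos C))
      have h5 := hD (hyDa.trans h4)
      have h6 : (10 : ℝ) * K ≤ b := by linarith [abs_nonneg cc]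
      linarith
    calc K * (10 * F) = 10 * K * exp yD := by rw [hF]; ring
      _ ≤ _ := h3
  · -- the bits
    refine mul_exp_le ?_
    have h1 : log (2 * Lm) ≤ g * yD := by
      have h2 : 2 * Lm = 200 * (P + 3) * F ^ 2 := by rw [hLm]; ring
      rw [h2, log_mul (by positivity) (by positivity), log_pow, hF, log_exp]
      have h3 : log (200 * (P + 3)) ≤ 200 * (P + 3) := by
        have := log_le_sub_one_of_pos (show (0 : ℝ) < 200 * (P + 3) by positivity)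
        linarith
      have h5 : 1 ≤ yD := by linarith [G_ge K]
      have h6 : 0 ≤ 200 * (P + 3) := by positivity
      have h7 : (200 * (P + 3) + 2) * yD ≤ g * yD := mul_le_mul_of_nonneg_right hg (by linarith)
      have h8 : 200 * (P + 3) * 1 ≤ 200 * (P + 3) * yD := mul_le_mul_of_nonneg_left h5 h6
      push_cast
      linarith
    have h2 : (g : ℝ) * yD ≤ H ^ a := by
      have h3 := pow_ge hH g
      have h4 : H ^ a = H ^ g * yD := by rw [ha, hyD]; ring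
      rw [h4]
      exact mul_le_mul_of_nonneg_right (by linarith) (by linarith [G_ge K])
    have h3 : 0 ≤ log (2 * Lm) := log_nonneg (by linarith)
    have h4 : log (2 * Lm) ^ C ≤ H ^ (a * (C + 1)) := by
      calc log (2 * Lm) ^ C ≤ (H ^ a) ^ C := pow_le_pow_left₀ h3 (h1.trans h2) C
        _ = H ^ (a * C) := (pow_mul H a C).symm
        _ ≤ H ^ (a * (C + 1)) := pow_le_pow_right₀ hH1 (Nat.mul_le_mul_left a (Nat.le_succ C))
    have h5 := hD h4
    have h6 : cc ≤ b := by linarith [le_abs_self cc]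
    linarith

end Pool.Agent.GM
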