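import Pool.Agent.GM.NVN
import Pool.Agent.GM.NVBinDef
import Pool.Agent.GM.HarmZ
import Pool.Agent.GM.HarmEq
import Pool.Agent.GM.NVNum

/-!
# GM/NVBin (helper55): from the output of the names to the named view with numbers, coin of `δ` included (row A11b)

* `Nam.xl_facZ` : an extended label which does not see a part of the coins;
* `GRT.tc_w` : the true components of the numbered process see only the closings and the label;
* `pul_p2` : forgetting the coins of the names preserves the law;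
* `zraw`, `outG_f` : the extended labels of `Nam.outG` for `u ≠ δ` do not see the coin;
* `weakZ` : `GRT.Weak` for the classes `ALz`; `tcR_same` : the hypothesis of `HarmZ`;
* **`nvAt_core`** : THE NAMED VIEW from the output of the names, every size explicit;
* **`nvBin_of`** : `HarmWU (j-1)` and `NamBin j` give `NVBin j` (row A11b).
-/

set_option autoImplicit false
set_option linter.unusedSectionVars false

namespace Pool.Agent.GM

open Finset Pool.Agent.PWZ Pool.Agent.M3 Pool.Agent.M3.TS Pool.Agent.M3.Bin Pool.Agent.GM.KVer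
open Pool.Agent.M3.Mod (XM YM TM SzM dgM)

noncomputable section

/-! ## extended labels which do not see a part of the coins -/

namespace Nam

variable {ι Om Ξ Pt V Γ κ : Type} [Fintype ι] [DecidableEq ι] [Fintype Om] [Fintype Ξ] [Fintype Pt]
  [Fintype V] {υ : ℕ → Type} {S : Sys ι Om Ξ Pt V Γ κ} {Q : ∀ t, Om → υ t} {a : ι} {Lb : Type} {dg : Γ}
  {x : ℕ → Γ → Ξ → (ι → Pt) → Lb}

theorem xl_facZ (hP : Pubn S a Q) {I : Finset ι} (haI : a ∈ I) (hx : LabN S I x) (t : ℕ) {v w : Om}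
    (hξ : ∀ s g y, x s g (S.xi v) y = x s g (S.xi w) y)
    (hI : ∀ i ∈ I, S.x v i = S.x w i) (hQ : Q t v = Q t w) : xl S Q dg x t v = xl S Q dg x t w := by
  have h1 : ext S.par (opA Q S.gm dg) (opB Q S.gm dg) (uc x) (KK S) t v =
      ext S.par (opA Q S.gm dg) (opB Q S.gm dg) (uc x) (KK S) t w := by
    refine ext_congr (opt2 hP) hQ fun s hs g _ => ?_
    show x s g (S.xi v) (S.x v) = x s g (S.xi w) (S.x w)
    rw [hξ]
    refine hx.val s g _ _ _ hI fun j => ?_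
    by_cases hj : j = a
    · rw [hj, hI a haI]
    · exact hP.qc s j hj v w (filt_le' hP.filt hs hQ)
  funext i
  unfold xl
  rw [h1]
  exact Prod.ext rfl (congrArg (fun v => v.2.2) h1)

end Nam

/-! ## the true components -/

namespace GRT

variable {Om : Type} [Fintype Om] {κ : ℕ → Type} {α β ι L O E F' : Type} [Fintype ι] [DecidableEq ι]
  [Fintype O] [Inhabited O] {S : GRT Om κ α β ι L (O → F') E F'} {ix : ℕ → Om → O} {M : ℕ}

theorem numf_of (hQ : Filt S.Q) {l : L} {t : ℕ} {v w : Om} (h1 : S.toGRD.ZJ (S.S l) t v = S.toGRD.ZJ (S.S l) t w)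
    (h2 : S.f l t v = S.f l t w) : (S.numd ix M).f l t v = (S.numd ix M).f l t w := by
  funext o
  have h3 : Fac (fun p : Om × O => (S.toGRD.ZJ (S.S l) t p.1, S.f l t p.1, p.2))
      (num (Nm.tw (O := O) (S.toGRD.ZJ (S.S l))) (Nm.cp (S.f l)) M t) := by
    refine num_fac (Nm.tw_filt (ZJ_filt' hQ (S.S l))) (fun p q hp => ?_) (fun p q hp => ?_) M
    · exact congrArg Prod.fst hp
    · simp only [Prod.mk.injEq] at hp
      show S.f l t p.1 p.2 = S.f l t q.1 q.2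
      rw [hp.2.1, hp.2.2]
  exact h3 (v, o) (w, o) (Prod.ext h1 (Prod.ext h2 rfl))

/-- the true components see only the closings and the label -/
theorem tc_w (hQ : Filt S.Q) {l : L} {t : ℕ} {v w : Om} (hZ : ∀ s ≤ t, S.toGRD.ZJ (S.S l) s v = S.toGRD.ZJ (S.S l) s w)
    (hf : ∀ s ≤ t, S.f l s v = S.f l s w) :
    ((S.numd ix M).lo ix l).tc t v = ((S.numd ix M).lo ix l).tc t w := by
  classical
  have hZ' : ∀ s ≤ t, (S.numd ix M).toGRD.ZJ ((S.numd ix M).S l) s v =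
      (S.numd ix M).toGRD.ZJ ((S.numd ix M).S l) s w := hZ
  have hf' : ∀ s ≤ t, (S.numd ix M).f l s v = (S.numd ix M).f l s w := fun s hs => numf_of hQ (hZ s hs) (hf s hs)
  cases t with
  | zero =>
    show some ((S.numd ix M).f l 0 v) = some ((S.numd ix M).f l 0 w)
    rw [hf' 0 le_rfl]
  | succ r =>
    have h1 : ((S.numd ix M).toGRD.cS l r v ∧ (S.numd ix M).toGRD.b r l v) ↔
        ((S.numd ix M).toGRD.cS l r w ∧ (S.numd ix M).toGRD.b r l w) :=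
      and_congr (GRD.cS_iff (hZ' (r + 1) le_rfl)) (GRD.b_iff_w (R := (S.numd ix M).toGRD) (fun s hs' => hZ' s (by omega))
        (fun s hs' => hf' s hs'))
    rw [LO.tc_succ, LO.tc_succ]
    by_cases hc : (S.numd ix M).toGRD.cS l r w ∧ (S.numd ix M).toGRD.b r l w
    · rw [if_pos (show ((S.numd ix M).lo ix l).cl r w ∧ ((S.numd ix M).lo ix l).bb r w from hc),
        if_pos (show ((S.numd ix M).lo ix l).cl r v ∧ ((S.numd ix M).lo ix l).bb r v from h1.2 hc)]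
      show some ((S.numd ix M).f l (r + 1) v) = some ((S.numd ix M).f l (r + 1) w)
      rw [hf' (r + 1) le_rfl]
    · rw [if_neg (show ¬ (((S.numd ix M).lo ix l).cl r w ∧ ((S.numd ix M).lo ix l).bb r w) from hc),
        if_neg (show ¬ (((S.numd ix M).lo ix l).cl r v ∧ ((S.numd ix M).lo ix l).bb r v) from
          fun h' => hc (h1.1 h'))]

end GRT

/-! ## forgetting the coins of the names -/

section p2

variable {k N : ℕ} {ι Θ Ξ Q Ξ2 : Type} [Fintype ι] [DecidableEq ι] [Fintype Θ] [Nonempty Θ] [Fintype Ξ] [Nonempty Ξ]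
  [Fintype Q] [Nonempty Q] [Fintype Ξ2] [Nonempty Ξ2]

/-- the coins of the names apart -/
def eqP2 : Sq k N ι Θ ((Ξ × Ξ2) × Q) ≃ Sq k N ι Θ (Ξ × Q) × (ι → Ξ2) where
  toFun w := (p2 w, fun j => (w.2.1 j).1.1.2)
  invFun q := (q.1.1, (fun j => ((((q.1.2.1 j).1.1, q.2 j), (q.1.2.1 j).1.2), (q.1.2.1 j).2)), q.1.2.2)
  left_inv _ := rfl
  right_inv _ := rfl

theorem pul_p2 : Pul (Pm (k := k) (N := N) (ι := ι) (Θ := Θ) (P := (Ξ × Ξ2) × Q)) (Pm (P := Ξ × Q)) p2 :=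
  (pulC_unif (eqP2 (k := k) (N := N) (ι := ι) (Θ := Θ) (Ξ := Ξ) (Q := Q) (Ξ2 := Ξ2))).pul

end p2

/-! ## HARM with an explicit constant -/

/-- **HARM(K), WEAK FORM, IN THE MODEL WITH A COIN**, explicit constant -/
theorem houtWZ_C {ι : Type} [Fintype ι] [DecidableEq ι] {i : ι} {C : ℕ} (hC : Harm.HarmWC {j : ι // j ≠ i} C)
    (k N : ℕ) (Θ Ξ Ξr Z φ : Type) [Fintype Θ] [Nonempty Θ] [Fintype Ξ] [Nonempty Ξ] [Fintype Ξr]
    [Nonempty Ξr] [Fintype Z] [Nonempty Z] [Fintype φ] [Nonempty φ] (hN : N ≤ k) (e : Ξ ≃ Ξr × Z) (h Rz J n0 : ℕ)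
    (oc : {j : ι // j ≠ i} → ℕ → Sq k N ι Θ Ξ → Prop)
    (tc : {j : ι // j ≠ i} → ℕ → Sq k N ι Θ Ξ → Option φ) (H : LabM i h oc tc) (d : {j : ι // j ≠ i})
    (hf : ∀ l, l ≠ d → ∀ s v w, SameZ e i v w → tc l s v = tc l s w) (Lam : ℝ)
    (hs : SzM Rz J n0 (Fintype.card φ) Lam) (hn : 2 ≤ Lam) :
    ∃ (υ : Type) (Uc : Finset {j : ι // j ≠ i} → ℕ → Sq k N ι Θ (Ξ × CoK N ι Rz φ) → υ)
      (G dd : ℕ → Sq k N ι Θ (Ξ × CoK N ι Rz φ) → Prop),
      HOut i h (letS Rz J n0 i oc tc) Uc (Real.exp (Real.log (2 * Lam) ^ C)) Lam⁻¹ G dd ∧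
      ∀ I t, Fac (fun w : Sq k N ι Θ (Ξ × CoK N ι Rz φ) => (hvZ e i (pic w), res I (ot i (pic w)),
        Qn i h (M3.Mod.ex N t) w)) (Uc I t) := by
  have key : ∀ τ : TM k Θ, ∃ (U : Finset {j : ι // j ≠ i} → ℕ → XM N Ξr → ({j : ι // j ≠ i} → YM k Ξ) →
      Set (XM N Ξr × ({j : ι // j ≠ i} → YM k Ξ)))
      (G dd : ℕ → Harm.Pt {j : ι // j ≠ i} (XM N Ξr) (YM k Ξ) (Fin (N + 1) → Option φ) → Prop),
      Harm.Concl U (thickZ (J := J) (n0 := n0) e hs.R1 H τ) (dgM N) (fun t _ => rst t) N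
        (Real.exp (Real.log (2 * Lam) ^ C)) Lam⁻¹ G dd := by
    intro τ
    obtain ⟨υ, U, G, dd, hU⟩ := hC (XM N Ξr) (YM k Ξ) (ℕ × V k) (Fin (N + 1) → Option φ) (datZ e Rz J n0 H τ) _
      (thickZ e hs.R1 H τ) (dgM N) (fun t _ => rst t) N Lam (hypZ e hN H τ hs) hn
    exact ⟨Harm.UL U, G, dd, hU.lev⟩
  choose U G dd hU using key
  have M := genZ (J := J) (n0 := n0) e hs.R1 H hf
  have hx : ∀ v w : Sq k N ι Θ Ξ, tpQ i v = tpQ i w → vx i v = vx i w → xZ e i v = xZ e i w := fun v w h1 h2 =>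
    xZ_of hN (by unfold hvZ; rw [h2]) h1
  refine ⟨_, UcG (xZ e i) U, _, _, M.hout hU hx, fun I t => ?_⟩
  intro v w hv
  obtain ⟨h1, h2⟩ := Prod.mk.inj hv
  obtain ⟨h2, h3⟩ := Prod.mk.inj h2
  have h4 := (Qn_topC h t v w).1 h3
  exact M.UcG_fac hU I t v w (Prod.ext h4.1 (Prod.ext (xZ_of hN h1 h4.1) (Prod.ext h2 h3)))

/-! ## the output of the names in the view -/

section view

variable {k N : ℕ} {ι Θ Ξ Q Ξ2 : Type} [Fintype ι] [DecidableEq ι] [Fintype Θ] [Nonempty Θ] [Fintype Ξ] [Nonempty Ξ]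
  [Fintype Q] [Nonempty Q] [Fintype Ξ2] [Nonempty Ξ2] {σ : V k} {hN : N ≤ k} {h : ℕ} {a δ : ι}
  {F : ι → Mov Ξ ι (Q × V k) (Θ × (V k × ℕ)) (V k → ℝ)}

/-- zeroes of the known face are seen by the node and the known vertices -/
theorem zr_fac (hco : ∀ t g ξ ξ', F a t g ξ = F a t g ξ') (hdep : ∀ t g ξ, Dep (univ.erase a) (F a t g ξ)) (t : ℕ) :
    Fac (Kn (k := k) (N := N) (Θ := Θ) (P := (Ξ × Ξ2) × Q) a (M3.Mod.ex N t))
      (fun w => zrN (binSys Θ Ξ Q σ a hN h) F a t (p2 w)) := by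
  intro v w hv
  have h1 := Nam.Kn_gm (σ := σ) (hN := hN) (h := h) (Ξ := Ξ × Ξ2) (Q' := Q) t v w hv
  have h2 := Nam.Kn_x (σ := σ) (hN := hN) (h := h) (Ξ := Ξ × Ξ2) (Q' := Q) hv
  have e1 : ∀ w : Sq k N ι Θ ((Ξ × Ξ2) × Q), (binSys Θ Ξ Q σ a hN h).at' (F a) t (p2 w) =
      F a t ((binSys Θ (Ξ × Ξ2) Q σ a hN h).gm t w) (Classical.arbitrary Ξ) ((binSys Θ (Ξ × Ξ2) Q σ a hN h).x w) := by
    intro w
    exact congrFun (hco t ((binSys Θ (Ξ × Ξ2) Q σ a hN h).gm t w) _ _) _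
  show ((binSys Θ Ξ Q σ a hN h).at' (F a) t (p2 v) = 0) = ((binSys Θ Ξ Q σ a hN h).at' (F a) t (p2 w) = 0)
  rw [e1, e1, h1]
  rw [hdep t _ _ _ _ h2]

/-- the process is bounded -/
theorem pT_le (hb : ∀ w t g ξ x d, |F w t g ξ x d| ≤ 1) (t : ℕ) (w : Sq k N ι Θ (Ξ × Q)) :
    |pT (binSys Θ Ξ Q σ a hN h) univ F t w| ≤ 1 := by
  unfold pT
  refine Nam.abs_iw_le (M3.Mod.ex N t) (Yn σ (M3.Mod.ex N t) w).1 fun d => ?_
  rw [Finset.abs_prod]
  exact Finset.prod_le_one (fun _ _ => abs_nonneg _) fun i _ => hb i _ _ _ _ _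

/-- changes of the zeroes of the known face -/
theorem zr_che (t : ℕ) (w : Sq k N ι Θ (Ξ × Q)) (hz : ¬ (zrN (binSys Θ Ξ Q σ a hN h) F a (t + 1) w ↔
    zrN (binSys Θ Ξ Q σ a hN h) F a t w)) : cheN (binSys Θ Ξ Q σ a hN h) F a t w := by
  intro h1
  apply hz
  unfold zrN
  rw [h1]

/-- number of changes of the known face -/
theorem cn_nmv (t : ℕ) (w : Sq k N ι Θ (Ξ × Q)) :
    (Nz.cn (fun s => cheN (binSys Θ Ξ Q σ a hN h) F a s w) t : ℝ) = (binSys Θ Ξ Q σ a hN h).nmv (F a) t w := by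
  classical
  unfold Sys.nmv
  induction t with
  | zero =>
    rw [Nz.cn_zero, Finset.range_zero, Finset.sum_empty]
    exact Nat.cast_zero
  | succ t ih =>
    rw [Finset.sum_range_succ, ← ih]
    by_cases h1 : cheN (binSys Θ Ξ Q σ a hN h) F a t w
    · rw [Nz.cn_succ_of (p := fun s => cheN (binSys Θ Ξ Q σ a hN h) F a s w) h1]
      have h2 : ind ((binSys Θ Ξ Q σ a hN h).at' (F a) (t + 1) w ≠ (binSys Θ Ξ Q σ a hN h).at' (F a) t w) = 1 := ind_of h1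
      rw [h2]
      push_cast
      rfl
    · rw [Nz.cn_succ_not (p := fun s => cheN (binSys Θ Ξ Q σ a hN h) F a s w) h1]
      have h2 : ind ((binSys Θ Ξ Q σ a hN h).at' (F a) (t + 1) w ≠ (binSys Θ Ξ Q σ a hN h).at' (F a) t w) = 0 := ind_not h1
      rw [h2, add_zero]

/-- mean number of changes of the known face in the model with the coins of the names -/
theorem che_sum {m : ℝ} (hm : (binSys Θ Ξ Q σ a hN h).P.E ((binSys Θ Ξ Q σ a hN h).nmv (F a) (binSys Θ Ξ Q σ a hN h).n) ≤ m) :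
    ∑ t ∈ range N, (Pm (k := k) (N := N) (ι := ι) (Θ := Θ) (P := (Ξ × Ξ2) × Q)).Pr
      (fun w => cheN (binSys Θ Ξ Q σ a hN h) F a t (p2 w)) ≤ m := by
  have h1 : ∀ t, (Pm (k := k) (N := N) (ι := ι) (Θ := Θ) (P := (Ξ × Ξ2) × Q)).Pr
      (fun w => cheN (binSys Θ Ξ Q σ a hN h) F a t (p2 w)) =
      (Pm (k := k) (N := N) (ι := ι) (Θ := Θ) (P := Ξ × Q)).E (fun w => ind ((binSys Θ Ξ Q σ a hN h).at' (F a) (t + 1) w ≠
        (binSys Θ Ξ Q σ a hN h).at' (F a) t w)) := fun t =>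
    pul_p2.E (fun w => ind (cheN (binSys Θ Ξ Q σ a hN h) F a t w))
  rw [Finset.sum_congr rfl fun t _ => h1 t, ← FP.E_sum]
  exact hm

end view

/-! ## the classes with the coin -/

section cls

variable {k N : ℕ} {ι Θ Ξ Q Ξ2 : Type} [Fintype ι] [DecidableEq ι] [Fintype Θ] [Nonempty Θ] [Fintype Ξ] [Nonempty Ξ]
  [Fintype Q] [Nonempty Q] [Fintype Ξ2] [Nonempty Ξ2] {σ : V k} {hN : N ≤ k} {h h' : ℕ} {a δ : ι} {E Fl : Type}
  {O : Nam.Fst ι (Ξ × Ξ2) (Q × V k) (V k) (Θ × (V k × ℕ)) a E Fl} {A J q : ℝ} {M : ℕ}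
  {dd : ℕ → Sq k N ι Θ ((Ξ × Ξ2) × Q) → Prop}
  (H : O.Ok (binSys Θ (Ξ × Ξ2) Q σ a hN h) (Nam.QQ k N Θ (Ξ × Ξ2) Q a h') A J q M dd)
  (hfree : ∀ u, u ≠ a → u ≠ δ → ∀ t g z z' ξ x, O.f u t g (z, ξ) x = O.f u t g (z', ξ) x)
  (hh : h ≤ h') (hcd : Fintype.card ι ≤ 2 ^ (h' - h + 2) + 1)

include H hfree hh hcd in
/-- **the extended label `u ≠ δ` does not see the coin**: function of the hidden vertex without the coin, of the vertices
of the label and of the node -/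
theorem xl_free (u : {u : ι // u ≠ a}) (hu : u.1 ≠ δ) (t : ℕ) {v w : Sq k N ι Θ ((Ξ × Ξ2) × Q)}
    (h1 : (vx a v).1.1.2 = (vx a w).1.1.2) (h2 : (vx a v).1.2 = (vx a w).1.2) (h3 : (vx a v).2 = (vx a w).2)
    (h4 : ∀ i : {i : ι // i ≠ a}, i ≠ u → vx i.1 v = vx i.1 w)
    (h5 : Qn a h' (M3.Mod.ex N t) v = Qn a h' (M3.Mod.ex N t) w) :
    Nam.xl (binSys Θ (Ξ × Ξ2) Q σ a hN h) (Nam.QQ k N Θ (Ξ × Ξ2) Q a h') (Nam.dg0 k Θ) (Nam.cap N (O.f u)) t v =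
    Nam.xl (binSys Θ (Ξ × Ξ2) Q σ a hN h) (Nam.QQ k N Θ (Ξ × Ξ2) Q a h') (Nam.dg0 k Θ) (Nam.cap N (O.f u)) t w := by
  have hP := pubM (k := k) (N := N) (Θ := Θ) (Ξ := Ξ × Ξ2) (Q := Q) (σ := σ) a hN hh hcd
  refine Nam.xl_facZ hP (I := univ.erase u.1) (Finset.mem_erase.2 ⟨u.2.symm, Finset.mem_univ _⟩)
    (Nam.lab_cap (H.f_lab u.1 u.2)) t (fun s g y => ?_) (fun i hi => ?_) h5
  · show O.f u.1 (min s N) g ((vx a v).1.1) y = O.f u.1 (min s N) g ((vx a w).1.1) y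
    have e1 : (vx a v).1.1 = ((vx a v).1.1.1, (vx a w).1.1.2) := Prod.ext rfl h1
    have e2 : (vx a w).1.1 = ((vx a w).1.1.1, (vx a w).1.1.2) := rfl
    rw [e1, e2]
    exact hfree u.1 u.2 hu _ _ _ _ _ _
  · by_cases hia : i = a
    · subst hia
      exact Prod.ext h2 h3
    · exact Nam.x_eq (h4 ⟨i, hia⟩ fun h6 => (Finset.mem_erase.1 hi).1 (congrArg Subtype.val h6))

include H hfree hh hcd in
/-- **WEAK LABEL CLASSES** -/
theorem weakZ {c eta : ℝ} {Tp : ℕ → Sq k N ι Θ ((Ξ × Ξ2) × Q) → ℝ} {zr : ℕ → Sq k N ι Θ ((Ξ × Ξ2) × Q) → Prop}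
    {al : ℕ → ℝ} {Rz : ℕ} {φ : Type} :
    (Nam.outG O σ hN h h' c A eta Tp zr dd al).Weak pic
      (fun l (w : Sq k N ι Θ (((Ξ × Ξ2) × Q) × CoK N ι Rz φ)) => nuS a l w)
      (fun l t => ALz a δ h' l (M3.Mod.ex N t)) where
  filt := fun l => ALz_filt a δ h' l
  Z := fun l t v w hv => by
    have h1 : AJ a h' (univ.erase l) (M3.Mod.ex N t) (fgz a v) = AJ a h' (univ.erase l) (M3.Mod.ex N t) (fgz a w) :=
      congrArg Prod.fst hv
    rw [AJ_eq] at h1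
    have h2 : KJ a h' (univ.erase l) (M3.Mod.ex N t) v = KJ a h' (univ.erase l) (M3.Mod.ex N t) w := by
      rw [KJ_eq]
      refine ⟨fun b hb => ?_, ?_⟩
      · have := h1.2.1 b hb
        rwa [vx_fgz_ne b.2, vx_fgz_ne b.2] at this
      · have := h1.2.2
        rwa [Qn_fgz, Qn_fgz] at this
    exact KJ_pic h2
  nu := fun l t v w hv => by
    have h1 : AJ a h' (univ.erase l) (M3.Mod.ex N t) (fgz a v) = AJ a h' (univ.erase l) (M3.Mod.ex N t) (fgz a w) :=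
      congrArg Prod.fst hv
    rw [AJ_eq] at h1
    have h2 : (vx a (fgz a v)).1.2 = (vx a (fgz a w)).1.2 := by rw [h1.1]
    have h3 : ∀ u : Sq k N ι Θ (((Ξ × Ξ2) × Q) × CoK N ι Rz φ), (vx a (fgz a u)).1.2 = (vx a u).1.2 := by
      intro u
      unfold vx fgz
      show (Function.update u.2.1 a _ a).1.2 = (u.2.1 a).1.2
      rw [Function.update_self]
    rw [h3, h3] at h2
    show (vx a v).1.2 l.1 = (vx a w).1.2 l.1
    rw [h2]
  f := fun l t v w hv => by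
    classical
    have hP := pubM (k := k) (N := N) (Θ := Θ) (Ξ := Ξ × Ξ2) (Q := Q) (σ := σ) a hN hh hcd
    have h1 : AJ a h' (univ.erase l) (M3.Mod.ex N t) (fgz a v) = AJ a h' (univ.erase l) (M3.Mod.ex N t) (fgz a w) :=
      congrArg Prod.fst hv
    rw [AJ_eq] at h1
    have hz : (if l.1 = δ then some (zc a v) else none) = (if l.1 = δ then some (zc a w) else none) :=
      congrArg Prod.snd hv
    by_cases hl : l.1 = δ
    · rw [if_pos hl, if_pos hl] at hz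
      have h2 := ALz_AJ l h' (M3.Mod.ex N t) hv (Option.some.inj hz)
      have h3 := AJ_pic h2
      rw [AJ_eq] at h3
      refine Nam.xl_fac hP (I := univ.erase l.1) (Finset.mem_erase.2 ⟨l.2.symm, Finset.mem_univ _⟩)
        (Nam.lab_cap (H.f_lab l.1 l.2)) t ?_ (fun i hi => ?_) h3.2.2
      · show (vx a (pic v)).1.1 = (vx a (pic w)).1.1
        rw [h3.1]
      · by_cases hia : i = a
        · rw [hia]
          exact Nam.x_eq h3.1
        · refine Nam.x_eq (h3.2.1 ⟨i, hia⟩ (Finset.mem_erase.2 ⟨fun h1 => ?_, Finset.mem_univ _⟩))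
          exact (Finset.mem_erase.1 hi).1 (congrArg Subtype.val h1)
    · have h4 := h1.1
      unfold vx fgz at h4
      simp only [Function.update_self, Prod.mk.injEq, true_and] at h4
      obtain ⟨⟨⟨h5, h6⟩, _⟩, h7⟩ := h4
      refine xl_free H hfree hh hcd l hl t h5 h6 h7 (fun i hi => ?_) ?_
      · have h8 := h1.2.1 i (Finset.mem_erase.2 ⟨hi, Finset.mem_univ _⟩)
        rw [vx_fgz_ne i.2, vx_fgz_ne i.2] at h8
        show vx i.1 (pic v) = vx i.1 (pic w)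
        rw [vx_pic, vx_pic, h8]
      · have h8 := h1.2.2
        rw [Qn_fgz, Qn_fgz] at h8
        exact h8

include H hfree hh hcd in
/-- **the hypothesis of `HarmZ`**: the true components of the labels `l ≠ δ` do not see the coin -/
theorem tcR_same {c eta : ℝ} {Tp : ℕ → Sq k N ι Θ ((Ξ × Ξ2) × Q) → ℝ} {zr : ℕ → Sq k N ι Θ ((Ξ × Ξ2) × Q) → Prop}
    {al : ℕ → ℝ} {ix : ℕ → Sq k N ι Θ ((Ξ × Ξ2) × Q) → Bool} {M' : ℕ} {l : {j : ι // j ≠ a}} (hl : l.1 ≠ δ) (s : ℕ)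
    {v w : Sq k N ι Θ ((Ξ × Ξ2) × Q)} (hs : SameZ (eZ Ξ Ξ2 Q) a v w) :
    tcR (Nam.outG O σ hN h h' c A eta Tp zr dd al) ix M' l s v =
      tcR (Nam.outG O σ hN h h' c A eta Tp zr dd al) ix M' l s w := by
  obtain ⟨h1, h2, h3, h4, h5⟩ := hs
  have hQ : ∀ t, Qn a h' (M3.Mod.ex N t) v = Qn a h' (M3.Mod.ex N t) w := by
    intro t
    rw [Qn_eq]
    refine ⟨h1, ?_, fun j hj => ?_⟩
    · unfold Zn
      have h6 : nz v = nz w := congrArg (fun x : Fin (2 ^ N) => (x : ℕ)) h5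
      rw [h3, h6]
    · have h6 : vx j v = vx j w := congrFun h4 ⟨j, hj⟩
      unfold sc
      rw [h6]
  have hot : ∀ i : {i : ι // i ≠ a}, vx i.1 v = vx i.1 w := fun i => congrFun h4 i
  have h2' : ((vx a v).1.1.2, (vx a v).1.2) = ((vx a w).1.1.2, (vx a w).1.2) := h2
  have e1 : (vx a v).1.1.2 = (vx a w).1.1.2 := (Prod.mk.inj h2').1
  have e2 : (vx a v).1.2 = (vx a w).1.2 := (Prod.mk.inj h2').2
  refine GRT.tc_w (S := Nam.outG O σ hN h h' c A eta Tp zr dd al) (filt_Qn a h') (fun t _ => ?_) (fun t _ => ?_)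
  · show (res (univ.erase l) (ot a v), Qn a h' (M3.Mod.ex N t) v) = (res (univ.erase l) (ot a w), Qn a h' (M3.Mod.ex N t) w)
    rw [h4, hQ t]
  · exact xl_free H hfree hh hcd l hl t e1 e2 h3 (fun i _ => hot i) (hQ t)

/-- **THE NAMED VIEW FROM THE OUTPUT OF THE NAMES**, coin of `δ` included, every size explicit -/
theorem nvAt_core {F : ι → Mov Ξ ι (Q × V k) (Θ × (V k × ℕ)) (V k → ℝ)} {m Mk : ℝ}
    (HF : FacesN (binSys Θ Ξ Q σ a hN h) δ a F m Mk) (hδ : a ≠ δ)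
    (H : O.Ok (binSys Θ (Ξ × Ξ2) Q σ a hN h) (Nam.QQ k N Θ (Ξ × Ξ2) Q a h') A J q M dd)
    (hfree : ∀ u, u ≠ a → u ≠ δ → ∀ t g z z' ξ x, O.f u t g (z, ξ) x = O.f u t g (z', ξ) x)
    (hh : h ≤ h') (hcd : Fintype.card ι ≤ 2 ^ (h' - h + 2) + 1) {c eta e : ℝ} (hc : 0 ≤ c) (heta : 0 ≤ eta)
    (heta2 : eta < 1 / 2) (hJ : 0 ≤ J)
    (hee : ∀ t < N, ∀ w, O.e (t + 1) ((binSys Θ (Ξ × Ξ2) Q σ a hN h).gm (t + 1) w) ((binSys Θ (Ξ × Ξ2) Q σ a hN h).x w) ≠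
      O.e t ((binSys Θ (Ξ × Ξ2) Q σ a hN h).gm t w) ((binSys Θ (Ξ × Ξ2) Q σ a hN h).x w) →
      cheN (binSys Θ Ξ Q σ a hN h) F a t (p2 w))
    (hTX : ∀ t ≤ N, ∀ w, ¬ dd t w → ¬ zrN (binSys Θ Ξ Q σ a hN h) F a t (p2 w) →
      |pT (binSys Θ Ξ Q σ a hN h) univ F t (p2 w) - c * iw ((binSys Θ (Ξ × Ξ2) Q σ a hN h).J t w)
        (O.Ph (O.tv (binSys Θ (Ξ × Ξ2) Q σ a hN h) t w) t ((binSys Θ (Ξ × Ξ2) Q σ a hN h).gm t w)
          ((binSys Θ (Ξ × Ξ2) Q σ a hN h).x w)) (fun _ => 1)| ≤ eta)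
    (hdq : Pm.Pr (dd N) ≤ e)
    {C : ℕ} (hC : Harm.HarmWC {j : ι // j ≠ a} C) {al : ℕ → ℝ} (al0 : ∀ s, 0 < al s) (al1 : ∀ s, al s ≤ 1)
    (ab : ∀ s, s + 1 < Fintype.card {j : ι // j ≠ a} → al s ≤ al (s + 1) ^ 2)
    {Rz Jn n0 M' : ℕ} (hJn : 0 < Jn) (hn0 : 0 < n0) (hM : 2 * M ≤ M') (hMk : Mk < M') {r1 rmin Lm : ℝ} (hr1 : 0 < r1)
    (hr1' : r1 ≤ 1 / 2) (hr0 : 2 * eta + r1 ≤ rmin) (hs : SzM Rz Jn n0 (Fintype.card (Bool → Fin (M' + 1))) Lm)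
    (hLm : 2 ≤ Lm) :
    ∃ W : NV (Pm (k := k) (N := N) (ι := ι) (Θ := Θ) (P := ((Ξ × Ξ2) × Q) × CoK N ι Rz (Bool → Fin (M' + 1)))) N (UU a)
      (fun U t => Zz a δ U (M3.Mod.ex N (t + 1) - (h' + 3))) (fun t => Kn a (M3.Mod.ex N t))
      (fun t w => pT (binSys Θ Ξ Q σ a hN h) univ F t (p2 (pic w)))
      (fun t w => cheN (binSys Θ Ξ Q σ a hN h) F a t (p2 (pic w)))
      (fun t w => zrN (binSys Θ Ξ Q σ a hN h) F a t (p2 (pic w))),
      W.eta = eta ∧ W.a6 = Fintype.card {j : ι // j ≠ a} * al (Fintype.card {j : ι // j ≠ a} - 1) ∧ W.rmin = rmin ∧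
      W.NB = 9 * (1 + 1) ^ 2 ∧
      W.q = e + Fintype.card ι * q + Fintype.card {j : ι // j ≠ a} * ((Jn : ℝ) / (Rz + 1) +
          (1 + 2 ^ Fintype.card {j : ι // j ≠ a} * (Fintype.card {j : ι // j ≠ a} * (4 * J + 1)) / al 0) / Jn +
            (1 + (4 * J + 1)) / n0) +
        Fintype.card {j : ι // j ≠ a} * al (Fintype.card {j : ι // j ≠ a} - 1) *
          (m + 2 ^ Fintype.card {j : ι // j ≠ a} * (Fintype.card {j : ι // j ≠ a} * (4 * J + 1)) +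
            3 * (((M' : ℝ) + 1) ^ (Fintype.card {j : ι // j ≠ a} + 1) * (c * A / r1))) + Lm⁻¹ ∧
      W.e3 = 2 * Lm⁻¹ ∧ (∀ U, W.hb U = (4 + cK a) * Real.exp (Real.log (2 * Lm) ^ C)) ∧
      W.J = Fintype.card {j : ι // j ≠ a} * (m + (4 * J + 1) + 2 * n0) := by
  classical
  have R := Nam.outG_raw H (c := c) (eta := eta) (al := al)
    (Tp := fun t w => pT (binSys Θ Ξ Q σ a hN h) univ F t (p2 w))
    (zr := fun t w => zrN (binSys Θ Ξ Q σ a hN h) F a t (p2 w))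
    (che := fun t w => cheN (binSys Θ Ξ Q σ a hN h) F a t (p2 w)) (cT := 1) (ne := m) (q0 := e) (M' := M')
    hh hcd hc heta heta2 (fun t => zr_fac (HF.coin a hδ) (HF.dep a) t)
    (fun t _ w _ hz => zrN_pT hz) hTX al0 al1 ab (fun t w => pT_le HF.bd t (p2 w)) hee
    (fun t w hz => zr_che t (p2 w) hz) hM
    (fun t w => by
      have h1 := cn_nmv (σ := σ) (hN := hN) (h := h) (a := a) (F := F) t (p2 w)
      have h2 := HF.kn t (p2 w)
      have h3 : (Nz.cn (fun s => cheN (binSys Θ Ξ Q σ a hN h) F a s (p2 w)) t : ℝ) < M' := by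
        rw [h1]
        exact lt_of_le_of_lt h2 hMk
      exact_mod_cast h3)
    hdq (che_sum (HF.mean a)) hJ
  have hne : ∃ j : ι, j ≠ a := ⟨δ, hδ.symm⟩
  obtain ⟨υ, Uc, G, d1, HB, hU⟩ := houtWZ_C hC k N Θ ((Ξ × Ξ2) × Q) (Ξ2 × Q) Ξ (Bool → Fin (M' + 1)) hN (eZ Ξ Ξ2 Q) h'
    Rz Jn n0 _ _ (labR R) ⟨δ, hδ.symm⟩
    (fun l hl s v w hvw => tcR_same H hfree hh hcd (l := l) (fun h1 => hl (Subtype.ext h1)) s hvw) Lm hs hLm
  exact nvW_ex R hJn hn0 hr1 hr1' hr0 (weakZ H hfree hh hcd) HB hne (hvz a) hU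
    (fun U t => Zz a δ U (M3.Mod.ex N (t + 1) - (h' + 3)))
    (fun U hU t _ => Zz_hZ δ (mem_UU.1 hU).1 (by unfold M3.Mod.ex; omega))
    (fun l t _ => Zz_hZA l le_rfl) (fun _ _ => rfl) (fun _ _ => Iff.rfl) (fun _ _ => Iff.rfl)

end cls

/-! ## the numbers -/

theorem card_ne_a {ι : Type} [Fintype ι] [DecidableEq ι] (a : ι) :
    Fintype.card {j : ι // j ≠ a} + 1 = Fintype.card ι := by
  have h1 : 0 < Fintype.card ι := Fintype.card_pos_iff.2 ⟨a⟩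
  have h2 : Fintype.card {j : ι // j ≠ a} = Fintype.card ι - 1 := by
    rw [Fintype.card_subtype_compl, Fintype.card_subtype_eq]
  omega

theorem cK_le {ι : Type} [Fintype ι] [DecidableEq ι] (a : ι) :
    cK a ≤ 16 * (2 ^ Fintype.card {j : ι // j ≠ a} + 1) := by
  unfold cK
  have h1 : (Harm.SS {j : ι // j ≠ a}).card ≤ 2 ^ Fintype.card {j : ι // j ≠ a} := by
    have h2 := Finset.card_le_univ (Harm.SS {j : ι // j ≠ a})
    rwa [Fintype.card_finset] at h2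
  have h3 : ((Harm.SS {j : ι // j ≠ a}).card : ℝ) ≤ 2 ^ Fintype.card {j : ι // j ≠ a} := by exact_mod_cast h1
  linarith

/-- **FROM THE NAMES TO THE NAMED VIEW**, numbers: errors `exp (-H ^ c0)` in the view need errors `exp (-H ^ c1)` in the
names -/
theorem nvBin_of' {j : ℕ} (hj : 2 ≤ j) {κ : ℝ} (hW : Harm.HarmWU (j - 1)) (c0 : ℕ) :
    ∃ c1 : ℕ, ∀ c D : ℕ, NamBin j κ c1 c D → ∃ D' : ℕ, NVBin j κ c0 c D' := by
  obtain ⟨C, hC⟩ := hW
  obtain ⟨c1, h1⟩ := num2B (j - 1) C c0 (by omega) (4 + 16 * (2 ^ (j - 1) + 1))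
  refine ⟨c1, fun c D hN => ?_⟩
  obtain ⟨D', h2⟩ := h1 (max D (c + 2))
  refine ⟨D', ?_⟩
  intro ι Θ Ξ Q _ _ _ _ _ _ _ _ k N σ a δ q hkN h hι haδ haq H Λ hH hK hnear hL0 hL F HF hStr
  obtain ⟨Ξ2, _, _, E, Fl, h', O, cc, A, J, qq, eta, M, dd, a1, a2, a3, a4, a5, a6, a7, a8, a9, a10, b1, b2, b3, b4, b5,
    b6⟩ := hN ι Θ Ξ Q k N σ a δ q hkN h hι haδ haq H Λ hH hK hnear hL0 hL F HF hStr
  have hH1 : (1 : ℝ) ≤ H := by linarith
  have hD1 : H ^ D ≤ H ^ (max D (c + 2)) := pow_le_pow_right₀ hH1 (le_max_left _ _)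
  have hD2 : H ^ (c + 2) ≤ H ^ (max D (c + 2)) := pow_le_pow_right₀ hH1 (le_max_right _ _)
  have hD3 : H ^ 2 ≤ H ^ (c + 2) := pow_le_pow_right₀ hH1 (by omega)
  have hee : Real.exp (Real.exp (H ^ D)) ≤ Real.exp (Real.exp (H ^ (max D (c + 2)))) :=
    Real.exp_le_exp.2 (Real.exp_le_exp.2 hD1)
  have hcard : Fintype.card {x : ι // x ≠ a} = j - 1 := by
    have := card_ne_a a
    omega
  have hcc : 0 ≤ cc * A := mul_nonneg a5 a4.A0
  obtain ⟨al, Rz, Jn, n0, M', r1, rmin, Lm, g1, g2, g3, g4, g5, g6, g7, g8, g9, g10, g11, g12, g13, g14, g15, g16, g17, g18,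
    g19⟩ := h2 H hH M ⌈Real.exp (H ^ (c + 2))⌉₊ (cc * A) (4 * H) J (Real.exp (-H ^ c1)) qq eta (b5.trans hee)
    (by
      have h3 := (Nat.ceil_lt_add_one (Real.exp_pos (H ^ (c + 2))).le).le
      have h4 := Real.add_one_le_exp (Real.exp (H ^ (c + 2)))
      exact (h3.trans h4).trans (Real.exp_le_exp.2 (Real.exp_le_exp.2 hD2)))
    hcc (b6.trans hee) (by linarith)
    (by
      have h3 : 4 * H ≤ Real.exp (H ^ 2) := by
        have h4 := Real.add_one_le_exp (H ^ 2 / 2)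
        have h5 : Real.exp (H ^ 2) = Real.exp (H ^ 2 / 2) * Real.exp (H ^ 2 / 2) := by
          rw [← Real.exp_add]
          congr 1
          ring
        have h6 : 0 ≤ H ^ 2 / 2 + 1 := by positivity
        have h7 : (H ^ 2 / 2 + 1) * (H ^ 2 / 2 + 1) ≤ Real.exp (H ^ 2) := by
          rw [h5]
          exact mul_le_mul h4 h4 h6 (Real.exp_pos _).le
        nlinarith [sq_nonneg (H ^ 2 - 2 * H), sq_nonneg (H - 2), mul_self_nonneg (H ^ 2)]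
      exact h3.trans (Real.exp_le_exp.2 (hD3.trans hD2)))
    a7 (b4.trans (Real.exp_le_exp.2 hD1)) le_rfl b2 b3
  refine ⟨Ξ2, CoK N ι Rz (Bool → Fin (M' + 1)), inferInstance, inferInstance, inferInstance, inferInstance, h', a1, a2, ?_⟩
  rw [← hcard] at g3 g16 g18
  obtain ⟨W, w1, w2, w3, w4, w5, w6, w7, w8⟩ := nvAt_core (O := O) (h' := h') HF haδ a4 a8 a1 a3 a5 a6 g11 a7 a9 a10 b1
    (hC {x : ι // x ≠ a} hcard) g1 g2 g3 g6 g7 g4
    (lt_of_le_of_lt (Nat.le_ceil (Real.exp (H ^ (c + 2)))) (by exact_mod_cast g5)) g8 g9 g10 g14 g15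
  refine ⟨W, ?_, ?_, ?_, ?_, ?_, ?_, fun U _ => ?_⟩
  · rw [w5]
    have hι' : (Fintype.card ι : ℝ) = (Fintype.card {x : ι // x ≠ a} : ℝ) + 1 := by
      rw [← card_ne_a a]
      push_cast
      rfl
    rw [hι']
    exact g16
  · rw [w6]
    exact g17
  · rw [w1]
    exact g13
  · rw [w3]
    exact g12
  · rw [w4]
    norm_num
  · rw [w8]
    exact g18
  · rw [w7]
    refine le_trans (mul_le_mul_of_nonneg_right ?_ (Real.exp_pos _).le) g19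
    have h3 := cK_le a
    rw [hcard] at h3
    linarith

/-- **ROW A11b** -/
theorem nvBin_of {j : ℕ} (hj : 2 ≤ j) {κ : ℝ} (hW : Harm.HarmWU (j - 1)) (hN : ∀ c0 : ℕ, ∃ c D : ℕ, NamBin j κ c0 c D)
    (c0 : ℕ) : ∃ c D : ℕ, NVBin j κ c0 c D := by
  obtain ⟨c1, h1⟩ := nvBin_of' hj (κ := κ) hW c0
  obtain ⟨c, D, h2⟩ := hN c1
  obtain ⟨D', h3⟩ := h1 c D h2
  exact ⟨c, D', h3⟩

end

end Pool.Agent.GM
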