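import Pool.Agent.GM.NVtr
import Pool.Agent.GM.NVBinDef
import Pool.Agent.GM.H5of
import Pool.Agent.GM.CMRef

/-!
# GM/NVLayOf : the named views of the pieces of a layer from the named views of the binary contract (helper34)

* `mvR N R` : a quarter of the family `R` as a moving face of `binSys Unit Unit Unit`; `at_mvR`, `pT_mvR`
  (`TZ = 4 ^ card ι * pT`), `nmv_cut_le`, `at_cut_ne` (the face cut after `p` changes);
* `facesN_lay`, `strT_lay` : the faces with the known face cut, in every finer geometry;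
* `nv_lay` : `NVAt` of these faces gives the named view of `TZ s h'' (Rcl ..)` (classes `Zk`: there is no coin);
* `PcIn m L o m0 T0` : INPUT from `GM/PcMov` (future moves and lists of the faces of the pieces);
* **`nvLay_of`** : `PcIn` and `∀ c0, ∃ c D, NVBin m κ c0 c D` give `NVLay m L o`.
-/

set_option autoImplicit false
set_option linter.unusedSectionVars false

namespace Pool.Agent.GM

open Finset Filter Pool.Agent.PWZ Pool.Agent.M3 Pool.Agent.M3.TS Pool.Agent.M3.Bin Pool.Agent.GM.Mv Pool.Agent.GM.KVer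
open Pool.Agent.M3.Mod (nd av)

noncomputable section

/-! ## no coin -/

section unit

variable {k N : ℕ} {ι Θ R Q C : Type} [Fintype ι] [DecidableEq ι]

theorem fgz_unit (a : ι) (w : Sq k N ι Θ (((Unit × R) × Q) × C)) : fgz a w = w := by
  unfold fgz
  refine Prod.ext rfl (Prod.ext (funext fun j => ?_) rfl)
  by_cases h : j = a
  · subst h
    show Function.update w.2.1 j _ j = w.2.1 j
    rw [Function.update_self]
  · show Function.update w.2.1 a _ j = w.2.1 j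
    rw [Function.update_of_ne h]

theorem fac_Zk_Zz (a δ : ι) (U : Finset ι) (s : ℕ) :
    Fac (Zk (k := k) (N := N) (Θ := Θ) (P := ((Unit × R) × Q) × C) U s) (Zz a δ U s) := by
  intro v w hv
  unfold Zz
  rw [fgz_unit, fgz_unit, hv]

end unit

/-! ## families as moving faces -/

section mov

variable {k N : ℕ} {ι : Type} [Fintype ι] [DecidableEq ι]

/-- a quarter of a family as a moving face, zero at the time `0` -/
def mvR (N : ℕ) (R : Fam k ι Unit) : Mov Unit ι (Unit × V k) (Unit × (V k × ℕ)) (V k → ℝ) := fun t g _ x d =>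
  (if t = 0 then 0 else R (M3.Mod.ex N t) g.2 x d) / 4

variable {s : V k} {a : ι} {hN : N ≤ k} {h : ℕ}

theorem at_mvR (R : Fam k ι Unit) (t : ℕ) (w : Sq k N ι Unit (Unit × Unit)) :
    (binSys Unit Unit Unit s a hN h).at' (mvR N R) t w = fun d => fz s h R t (prU w) d / 4 := by
  funext d
  unfold Sys.at' mvR fz
  by_cases ht : t = 0
  · rw [if_pos ht, if_pos ht]
    rfl
  · rw [if_neg ht, if_neg ht]
    rfl

theorem at_mvR_ne {R : Fam k ι Unit} {t u : ℕ} {w : Sq k N ι Unit (Unit × Unit)} :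
    (binSys Unit Unit Unit s a hN h).at' (mvR N R) t w ≠ (binSys Unit Unit Unit s a hN h).at' (mvR N R) u w ↔
      fz s h R t (prU w) ≠ fz s h R u (prU w) := by
  rw [at_mvR, at_mvR, not_iff_not]
  constructor
  · intro h1
    funext d
    have h2 := congrFun h1 d
    have h3 : fz s h R t (prU w) d / 4 = fz s h R u (prU w) d / 4 := h2
    linarith
  · intro h1
    rw [h1]

theorem pT_mvR (R : ι → Fam k ι Unit) (t : ℕ) (w : Sq k N ι Unit (Unit × Unit)) :
    TZ s h R t (prU w) = 4 ^ Fintype.card ι * pT (binSys Unit Unit Unit s a hN h) univ (fun i => mvR N (R i)) t w := by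
  have h1 : pT (binSys Unit Unit Unit s a hN h) univ (fun i => mvR N (R i)) t w =
      av (M3.Mod.ex N t) (Yn s (M3.Mod.ex N t) (prU w)).1 (fun d => ∏ i, fz s h (R i) t (prU w) d / 4) := by
    unfold pT
    simp only [at_mvR]
    exact Nam.iw_av _ _ _
  rw [h1]
  by_cases ht : t = 0
  · subst ht
    unfold TZ
    rw [if_pos rfl]
    have h2 : (fun d : V k => ∏ i, fz s h (R i) 0 (prU w) d / 4) = fun _ => 0 := by
      funext d
      refine Finset.prod_eq_zero (Finset.mem_univ a) ?_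
      rw [fz_0]
      show (0 : ℝ) / 4 = 0
      norm_num
    rw [h2, Mod.av_const, mul_zero]
  · unfold TZ
    rw [if_neg ht]
    unfold TT
    rw [← Mod.av_smul]
    congr 1
    funext d
    rw [Finset.prod_div_distrib, Finset.prod_const, Finset.card_univ, mul_div_cancel₀ _ (by positivity)]
    refine Finset.prod_congr rfl fun i _ => ?_
    rw [fz_of_pos s h _ (Nat.pos_of_ne_zero ht)]

/-- the cut family does not move after the time `N` -/
theorem fz_cut_top {p : ℕ} (G : Fam k ι Unit) {u : ℕ} (hu : N ≤ u) (ω : Sq k N ι Unit Unit) :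
    fz s h (cut h N p G) (u + 1) ω = fz s h (cut h N p G) u ω := by
  have e1 : M3.Mod.ex N (u + 1) = M3.Mod.ex N u := by unfold M3.Mod.ex; omega
  by_cases h0 : u = 0
  · subst h0
    have hN0 : N = 0 := by omega
    rw [fz_0, fz_of_pos s h _ (Nat.le_refl 1)]
    unfold fv cut
    have e2 : N - M3.Mod.ex N (0 + 1) = 0 := by unfold M3.Mod.ex; omega
    rw [e2, cutA]
  · rw [fz_of_pos s h _ (by omega), fz_of_pos s h _ (Nat.pos_of_ne_zero h0), e1]

theorem nmv_cut_le (p : ℕ) (G : Fam k ι Unit) (n : ℕ) (w : Sq k N ι Unit (Unit × Unit)) :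
    (binSys Unit Unit Unit s a hN h).nmv (mvR N (cut h N p G)) n w ≤ p := by
  have h1 : (binSys Unit Unit Unit s a hN h).nmv (mvR N (cut h N p G)) n w =
      ∑ u ∈ range n, ind (chE s h (cut h N p G) u (prU w)) := by
    unfold Sys.nmv
    refine Finset.sum_congr rfl fun u _ => ?_
    rw [propext at_mvR_ne]
    rfl
  rw [h1]
  have h2 : ∀ n, N ≤ n → ∑ u ∈ range n, ind (chE s h (cut h N p G) u (prU w)) =
      ∑ u ∈ range N, ind (chE s h (cut h N p G) u (prU w)) := by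
    intro n hn
    induction n, hn using Nat.le_induction with
    | base => rfl
    | succ n hn ih =>
      rw [Finset.sum_range_succ, ih, ind_not, add_zero]
      unfold chE
      rw [not_not]
      exact fz_cut_top G hn _
  rcases le_total N n with hn | hn
  · rw [h2 n hn]
    exact sum_cut s h p G _
  · refine le_trans (Finset.sum_le_sum_of_subset_of_nonneg (Finset.range_mono hn) fun _ _ _ => ind_nonneg _) ?_
    exact sum_cut s h p G _

/-- the cut face moves only with the face -/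
theorem at_cut_ne {p : ℕ} {G : Fam k ι Unit} {u : ℕ} (hu : u < N) {w : Sq k N ι Unit (Unit × Unit)}
    (hc : (binSys Unit Unit Unit s a hN h).at' (mvR N (cut h N p G)) (u + 1) w ≠
      (binSys Unit Unit Unit s a hN h).at' (mvR N (cut h N p G)) u w) :
    (binSys Unit Unit Unit s a hN h).at' (mvR N G) (u + 1) w ≠ (binSys Unit Unit Unit s a hN h).at' (mvR N G) u w := by
  rw [at_mvR_ne] at hc ⊢
  exact (chE_cut s hu hc).1

/-- the families with the face `a` cut, as moving faces of a finer geometry -/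
def cutR (s : V k) (a : ι) (hN : N ≤ k) {h h' : ℕ} (hh : h ≤ h') (p : ℕ) (R : ι → Fam k ι Unit) :
    ι → Mov Unit ι (Unit × V k) (Unit × (V k × ℕ)) (V k → ℝ) := fun i =>
  (binFine (Θ := Unit) (Ξ := Unit) (Q := Unit) s a hN hh).lift (mvR N (Function.update R a (cut h N p (R a)) i))

theorem facesN_lay {R : ι → Fam k ι Unit} (hR : ∀ j, FOn ({j}ᶜ : Set ι) (R j)) (hb : ∀ j, FLe 2 (R j))
    {m M : ℝ} (hm : 0 < m) (hf : ∀ j, (binSys Unit Unit Unit s a hN h).Future (univ.erase j) (mvR N (R j)) m)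
    {h' : ℕ} (hh : h ≤ h') (δ : ι) {p : ℕ} (hp : (p : ℝ) ≤ M) (hM : 2 ^ (h' - h) * m ≤ M) {m1 : ℝ} (hm1 : 1 + 2 * m ≤ m1) :
    FacesN (binSys Unit Unit Unit s a hN h') δ a (cutR s a hN hh p R) m1 M := by
  set A := binFine (Θ := Unit) (Ξ := Unit) (Q := Unit) s a hN hh with hA
  set R' : ι → Fam k ι Unit := Function.update R a (cut h N p (R a)) with hR'
  have hRon : ∀ j, FOn ({j}ᶜ : Set ι) (R' j) := by
    intro j
    by_cases hj : j = a
    · subst hj
      rw [hR', Function.update_self]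
      exact (hR j).cut _ _ _
    · rw [hR', Function.update_of_ne hj]
      exact hR j
  have hRle : ∀ j, FLe 2 (R' j) := by
    intro j
    by_cases hj : j = a
    · subst hj
      rw [hR', Function.update_self]
      exact abs_cut (by norm_num) (hb j)
    · rw [hR', Function.update_of_ne hj]
      exact hb j
  have hdep : ∀ j t g ξ, Dep (univ.erase j) (mvR N (R' j) t g ξ) := by
    intro j t g ξ x y hxy
    funext d
    unfold mvR
    by_cases ht : t = 0
    · rw [if_pos ht, if_pos ht]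
    · rw [if_neg ht, if_neg ht, hRon j (M3.Mod.ex N t) g.2 (x := x) (y := y) fun i hi => hxy i
        (Finset.mem_erase.2 ⟨hi, Finset.mem_univ _⟩)]
  have hfut : ∀ j, (binSys Unit Unit Unit s a hN h).Future (univ.erase j) (mvR N (R' j)) m := by
    intro j
    by_cases hj : j = a
    · subst hj
      rw [hR', Function.update_self]
      intro t φ hφ h0
      refine le_trans (Finset.sum_le_sum fun u hu => FP.E_mono _ fun ω _ => ?_) (hf j t φ hφ h0)
      refine mul_le_mul_of_nonneg_left (ind_mono fun h => ?_) (h0 ω)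
      exact at_cut_ne (Finset.mem_Ico.1 hu).2 h
    · rw [hR', Function.update_of_ne hj]
      exact hf j
  refine ⟨fun w t g ξ => ?_, fun w _ t g ξ ξ' => rfl, fun w t g ξ x d => ?_, fun w g ξ x => ?_, fun w => ?_, fun w => ?_,
    fun w => ?_, fun n w => ?_⟩
  · exact A.dep_lift (hdep w) t g ξ
  · show |mvR N (R' w) t (cgB N h t g) ξ x d| ≤ 1
    unfold mvR
    by_cases ht : t = 0
    · rw [if_pos ht]
      show |(0 : ℝ) / 4| ≤ 1
      norm_num
    · rw [if_neg ht, abs_div, abs_of_pos (by norm_num : (0 : ℝ) < 4)]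
      have := hRle w (M3.Mod.ex N t) (cgB N h t g).2 x d
      rw [div_le_one (by norm_num)]
      exact this.trans (by norm_num)
  · funext d
    show (if (0 : ℕ) = 0 then (0 : V k → ℝ) else R' w (M3.Mod.ex N 0) (cgB N h 0 g).2 x) d / 4 = 0
    rw [if_pos rfl]
    show (0 : ℝ) / 4 = 0
    norm_num
  · exact Sys.Future.mono _ (A.future_lift (erase_ne w) hm.le (hfut w)) hM
  · exact (A.tail_lift ((hfut w).tail (hdep w) hm)).mono hm1
  · have h5 := (hfut w).mean
    have h6 : (binSys Unit Unit Unit s a hN h).P.E ((binSys Unit Unit Unit s a hN h').nmv (A.lift (mvR N (R' w))) N) =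
        (binSys Unit Unit Unit s a hN h).P.E ((binSys Unit Unit Unit s a hN h).nmv (mvR N (R' w)) N) :=
      FP.E_congr _ fun ω _ => A.nmv_lift (mvR N (R' w)) N ω
    have h7 : (binSys Unit Unit Unit s a hN h').P.E ((binSys Unit Unit Unit s a hN h').nmv (A.lift (mvR N (R' w))) N) ≤ m :=
      h6.le.trans h5
    exact h7.trans (by linarith)
  · have h5 : (binSys Unit Unit Unit s a hN h').nmv (cutR s a hN hh p R a) n w =
        (binSys Unit Unit Unit s a hN h).nmv (mvR N (R' a)) n w := A.nmv_lift (mvR N (R' a)) n w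
    rw [h5, hR', Function.update_self]
    exact (nmv_cut_le p (R a) n w).trans hp

/-- the structured face in a finer geometry -/
theorem strT_lay {δ q : ι} {F : Mov Unit ι (Unit × V k) (Unit × (V k × ℕ)) (V k → ℝ)} {m T m1 M T' : ℝ}
    (H : Nonempty (GS.StrF (binSys Unit Unit Unit s a hN h) univ δ q F m T)) (hm : 0 < m) (h1 : m ≤ m1) {h' : ℕ}
    (hh : h ≤ h') (hM : 2 ^ (h' - h) * m ≤ M) (hT : T ≤ T') :
    Nonempty (GS.StrT (binSys Unit Unit Unit s a hN h') univ δ q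
      ((binFine (Θ := Unit) (Ξ := Unit) (Q := Unit) s a hN hh).lift F) m1 M T') := by
  obtain ⟨s0⟩ := H
  exact ⟨{
    e0 := s0.e0
    e1 := s0.e1
    pe0 := (one_div_le_one_div_of_le hm h1).trans s0.pe0
    pe1 := (one_div_le_one_div_of_le hm h1).trans s0.pe1
    b0 := (s0.b0.mono le_rfl hT).refine (binFine s a hN hh) hm.le h1 hM
    b1 := (s0.b1.mono le_rfl hT).refine (binFine s a hN hh) hm.le h1 hM
    coin0 := fun hq t g ξ ξ' => s0.coin0 hq t _ ξ ξ'
    coin1 := fun hq t g ξ ξ' => s0.coin1 hq t _ ξ ξ'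
    eq := fun t g ξ x d => s0.eq t _ ξ x d }⟩

theorem pT_cutR {h' : ℕ} (hh : h ≤ h') (p : ℕ) (R : ι → Fam k ι Unit) (t : ℕ) (w : Sq k N ι Unit (Unit × Unit)) :
    TZ s h (Function.update R a (cut h N p (R a))) t (prU w) =
      4 ^ Fintype.card ι * pT (binSys Unit Unit Unit s a hN h') univ (cutR s a hN hh p R) t w := by
  rw [pT_mvR (s := s) (a := a) (hN := hN) (h := h)]
  congr 1
  exact (GS.pT_lift (binFine (Θ := Unit) (Ξ := Unit) (Q := Unit) s a hN hh) univ _ t w).symm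

theorem cheN_cutR {h' : ℕ} (hh : h ≤ h') (p : ℕ) (R : ι → Fam k ι Unit) (t : ℕ) (w : Sq k N ι Unit (Unit × Unit)) :
    cheN (binSys Unit Unit Unit s a hN h') (cutR s a hN hh p R) a t w ↔
      chE s h (cut h N p (R a)) t (prU w) := by
  unfold cheN cutR
  rw [FineS.at'_lift, FineS.at'_lift, at_mvR_ne, Function.update_self]
  rfl

/-- **the named view of the families of a layer from the named view of the moving faces** -/
theorem nv_lay {h' : ℕ} (hh : h ≤ h') {δ : ι} {R : ι → Fam k ι Unit} {p : ℕ} {e r b : ℝ}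
    (H : NVAt s hN h' a δ (cutR s a hN hh p R) e r b) :
    ∃ h'' : ℕ, h' ≤ h'' ∧ h'' ≤ h' + Fintype.card ι ∧
    ∃ (Θ P : Type) (_ : Fintype Θ) (_ : Nonempty Θ) (_ : Fintype P) (_ : Nonempty P)
      (zr : ℕ → Sq k N ι Θ P → Prop)
      (W : NV (Pm : FP (Sq k N ι Θ P)) N (UU a) (fun U t => Zk U (Mod.ex N (t + 1) - (h'' + 3)))
        (fun t => Kn a (Mod.ex N t)) (TZ s h'' (Rcl P R a h N p)) (chE s h'' (Rcl P R a h N p a)) zr),
      W.q ≤ e ∧ W.e3 ≤ e ∧ W.eta ≤ 4 ^ Fintype.card ι * r ∧ W.rmin ≤ 4 ^ Fintype.card ι * r ∧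
      W.NB ≤ (4 ^ Fintype.card ι) ^ 2 * 36 ∧ (∀ U ∈ UU a, W.hb U ≤ b) ∧ W.J ≤ b := by
  obtain ⟨Rr, C, iR, nR, iC, nC, h'', h1, h2, W, hq, he3, heta, hrmin, hNB, hJ, hhb⟩ := H
  have hl : (0 : ℝ) < 4 ^ Fintype.card ι := by positivity
  refine ⟨h'', h1, h2, Unit, ((Unit × Rr) × Unit) × C, inferInstance, inferInstance, inferInstance, inferInstance,
    fun t w => zrN (binSys Unit Unit Unit s a hN h') (cutR s a hN hh p R) a t (p2 (pic w)),
    W.tr hl (fun U t => fac_Zk_Zz a δ U _) (fun t _ w => ?_) (fun t _ w => ?_) (fun t _ w h => h), hq, he3, ?_, ?_, ?_,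
    hhb, hJ⟩
  · rw [TZ_Rcl (hh.trans h1)]
    exact pT_cutR hh p R t (p2 (pic w))
  · have h3 : chE s h'' (Rcl (((Unit × Rr) × Unit) × C) R a h N p a) t w ↔ chE s h (cut h N p (R a)) t (prU w) := by
      have h4 : chE s h'' (Rcl (((Unit × Rr) × Unit) × C) R a h N p a) t w =
          chE s h'' (fine h (Function.update R a (cut h N p (R a)) a)) t (prU w) := chE_lift s h'' _ t w
      rw [h4, chE_fine s (hh.trans h1), Function.update_self]
    exact h3.trans (cheN_cutR hh p R t (p2 (pic w))).symm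
  · exact mul_le_mul_of_nonneg_left heta hl.le
  · exact mul_le_mul_of_nonneg_left hrmin hl.le
  · exact mul_le_mul_of_nonneg_left hNB (by positivity)

end mov

/-! ## the contract of the layers -/

/-- INPUT from `GM/PcMov` : a quarter of the faces of the pieces, as moving faces -/
structure PcIn (m : ℕ) [Nontrivial (Fin m)] (L : LayE) (o : ∀ k, V k) (m0 T0 : ℕ → ℝ) : Prop where
  fut : ∀ (k N : ℕ) (hN : N ≤ k) (F : Fin m → (Fin m → Unit × V k) → V k → ℝ), Faces F → ∀ (n : ℕ) (q a j : Fin m),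
    (binSys Unit Unit Unit (o k) a hN (L.lh (n + 1))).Future (univ.erase j) (mvR N (Pc N L F n q j)) (m0 n)
  str : ∀ (k N : ℕ) (hN : N ≤ k) (F : Fin m → (Fin m → Unit × V k) → V k → ℝ), Faces F → ∀ (n : ℕ) (q a : Fin m),
    Nonempty (GS.StrF (binSys Unit Unit Unit (o k) a hN (L.lh (n + 1))) univ q q (mvR N (Pc N L F n q q)) (m0 n)
      (T0 n))

namespace NVL

theorem lh_le (L : LayE) (n : ℕ) : (L.lh (n + 1) : ℝ) ≤ L.a + 2 * L.E * (n + 2) := by
  unfold LayE.lh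
  have h1 : Nat.clog 2 (n + 1 + 1) ≤ n + 2 := by
    refine Nat.clog_le_of_le_pow ?_
    exact (Nat.lt_two_pow_self (n := n + 2)).le
  push_cast
  have h2 : ((Nat.clog 2 (n + 1 + 1) : ℕ) : ℝ) ≤ (n : ℝ) + 2 := by exact_mod_cast h1
  have h3 : (0 : ℝ) ≤ 2 * L.E := by positivity
  have h4 := mul_le_mul_of_nonneg_left h2 h3
  linarith

theorem ev_B (L : LayE) (m a : ℕ) : ∀ᶠ n : ℕ in atTop,
    (L.lh (n + 1) : ℝ) + 2 * (n : ℝ) ^ a + 5 + m + 6 ≤ (n : ℝ) ^ (a + 2) := by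
  filter_upwards [Par.ev_const_le (C := 2) (by norm_num) (L.a + 4 * L.E + 11 + m : ℝ) (k := 1 / 4) (by norm_num),
    Par.ev_pow_pow_le (C := 1) (D := 2) (by norm_num) (2 * L.E : ℝ) (k := 1 / 4) (by norm_num),
    eventually_ge_atTop 2] with n h1 h2 h3
  have h4 := lh_le L n
  have h5 : (2 : ℝ) ≤ n := by exact_mod_cast h3
  have h6 : (1 : ℝ) ≤ (n : ℝ) ^ a := one_le_pow₀ (by linarith)
  have h7 : (4 : ℝ) ≤ (n : ℝ) ^ 2 := by nlinarith
  rw [pow_one] at h2
  rw [pow_add]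
  nlinarith

theorem ev_O (m : ℕ) : ∀ᶠ n : ℕ in atTop, 4 ^ m * Real.exp (-(n : ℝ) ^ 2) ≤ ((n : ℝ) + 1)⁻¹ ^ 3 := by
  filter_upwards [Par.ev_mono_le_LL (C := 2) (by norm_num) 3 (8 * 4 ^ m : ℝ) (k := 1) one_pos,
    eventually_ge_atTop 1] with n h1 h3
  have h5 : (1 : ℝ) ≤ n := by exact_mod_cast h3
  rw [one_mul] at h1
  rw [inv_pow, ← one_div, Real.exp_neg, ← div_eq_mul_inv, div_le_div_iff₀ (Real.exp_pos _) (by positivity), one_mul]
  refine le_trans ?_ h1
  have h6 : ((n : ℝ) + 1) ^ 3 ≤ 8 * (n : ℝ) ^ 3 := by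
    have h7 : ((n : ℝ) + 1) ^ 3 ≤ (2 * (n : ℝ)) ^ 3 := pow_le_pow_left₀ (by positivity) (by linarith) 3
    have h8 : (2 * (n : ℝ)) ^ 3 = 8 * (n : ℝ) ^ 3 := by ring
    linarith
  have h9 : (0 : ℝ) < 4 ^ m := by positivity
  nlinarith

theorem two_pow_le_exp (n : ℕ) : (2 : ℝ) ^ n ≤ Real.exp n := by
  have h1 : (2 : ℝ) ≤ Real.exp 1 := by
    have := Real.add_one_le_exp (1 : ℝ)
    linarith
  calc (2 : ℝ) ^ n ≤ (Real.exp 1) ^ n := pow_le_pow_left₀ (by norm_num) h1 n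
    _ = Real.exp n := by rw [← Real.exp_nat_mul, mul_one]

theorem exp_le_two_pow {x : ℝ} {n : ℕ} (h : 2 * x ≤ n) : Real.exp x ≤ (2 : ℝ) ^ n := by
  have h1 : (1 : ℝ) / 2 ≤ Real.log 2 := by
    have := Real.log_two_gt_d9
    linarith
  have h2 : x ≤ n * Real.log 2 := by nlinarith
  calc Real.exp x ≤ Real.exp (n * Real.log 2) := Real.exp_le_exp.2 h2
    _ = (2 : ℝ) ^ n := by rw [mul_comm, Real.exp_mul, Real.exp_log (by norm_num), Real.rpow_natCast]

end NVL

/-- **THE NAMED VIEWS OF THE PIECES OF THE LAYERS** from the named views of the binary contract -/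
theorem nvLay_of {m : ℕ} [Nontrivial (Fin m)] {L : LayE} {o : ∀ k, V k} {m0 T0 : ℕ → ℝ} (hP : PcIn m L o m0 T0)
    (hm0 : ∀ n, 0 < m0 n) {E1 : ℕ} (h1 : ∀ᶠ n : ℕ in atTop, 1 + 2 * m0 n ≤ (n : ℝ) ^ E1)
    (h2 : ∀ᶠ n : ℕ in atTop, T0 n ≤ Real.exp (Real.exp ((n : ℝ) ^ E1))) {κ : ℝ} (hκ : 0 ≤ κ)
    (H : ∀ c0 : ℕ, ∃ c D : ℕ, NVBin m κ c0 c D) : NVLay m L o := by
  intro C0 Cp
  obtain ⟨c, D, hB⟩ := H (C0 + 2)
  set E2 : ℕ := E1 + Cp + 2 with hE2
  set C : ℕ := E2 * c + E2 * D + 2 with hC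
  obtain ⟨n0, hn0⟩ := eventually_atTop.1 ((h1.and h2).and ((NVL.ev_B L m (E2 * c)).and ((NVL.ev_O m).and
    (Par.ev_const_le (C := C) (by omega) ((4 ^ m) ^ 2 * 36 : ℝ) (k := 1) one_pos))))
  refine ⟨C, max n0 2, fun n hn => ?_⟩
  obtain ⟨⟨e1, e2⟩, e3, e4, e5⟩ := hn0 n ((le_max_left _ _).trans hn)
  have hn2 : 2 ≤ n := (le_max_right _ _).trans hn
  have hx2 : (2 : ℝ) ≤ n := by exact_mod_cast hn2
  set x : ℝ := (n : ℝ) with hx
  have hx1 : (1 : ℝ) ≤ x := by linarith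
  have hx0 : (0 : ℝ) ≤ x := by linarith
  set Hh : ℝ := x ^ E2 with hHh
  have hH2 : 2 ≤ Hh := by
    calc (2 : ℝ) ≤ x ^ 1 := by rw [pow_one]; exact hx2
      _ ≤ Hh := pow_le_pow_right₀ hx1 (by omega)
  have hH1 : 1 ≤ Hh := by linarith
  have hHc : Hh ^ c = x ^ (E2 * c) := by rw [hHh, ← pow_mul]
  set D1 : ℕ := ⌈2 * Hh ^ c⌉₊ + 4 with hD1
  have hD1a : 2 * Hh ^ c + 4 ≤ (D1 : ℝ) := by
    rw [hD1]
    push_cast
    linarith [Nat.le_ceil (2 * Hh ^ c)]
  have hHc0 : 0 ≤ Hh ^ c := by positivity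
  have hD1b : (D1 : ℝ) ≤ 2 * Hh ^ c + 5 := by
    rw [hD1]
    push_cast
    linarith [Nat.ceil_lt_add_one (show 0 ≤ 2 * Hh ^ c by positivity)]
  -- the rounding
  set h0 : ℕ := L.lh (n + 1) with hh0
  have hBB : (h0 : ℝ) + D1 + m + 6 ≤ x ^ (E2 * c + 2) := by
    rw [← hHc] at e3
    linarith
  have hBC : x ^ (E2 * c + 2) ≤ x ^ C := pow_le_pow_right₀ hx1 (by omega)
  have hBH : x ^ (E2 * c + 2) ≤ Hh ^ (c + 1) := by
    rw [hHh, ← pow_mul]
    refine pow_le_pow_right₀ hx1 ?_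
    have : E2 * (c + 1) = E2 * c + E2 := by ring
    omega
  have hHH : 2 * Hh ^ (c + 1) ≤ Hh ^ (c + 2) := by
    rw [pow_succ Hh (c + 1), mul_comm]
    exact mul_le_mul_of_nonneg_left hH2 (by positivity)
  have hm0H : 1 + 2 * m0 n ≤ Hh := e1.trans (pow_le_pow_right₀ hx1 (by omega))
  have hHH1 : Hh ≤ Hh ^ (c + 1) := by
    calc Hh = Hh ^ 1 := (pow_one _).symm
      _ ≤ Hh ^ (c + 1) := pow_le_pow_right₀ hH1 (by omega)
  have hcast : (h0 : ℝ) = ((L.lh (n + 1) : ℕ) : ℝ) := rfl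
  have hm0' : 0 < m0 n := hm0 n
  have hD10 : (0 : ℝ) ≤ D1 := Nat.cast_nonneg _
  have hh00 : (0 : ℝ) ≤ h0 := Nat.cast_nonneg _
  have hm00 : (0 : ℝ) ≤ m := Nat.cast_nonneg _
  have hHc2 : x ^ (E2 * c + 2) ≤ Hh ^ (c + 2) := by
    have : 0 ≤ Hh ^ (c + 1) := by positivity
    linarith
  -- the sizes of the geometry
  have hK : ∀ (k N : ℕ) (a : Fin m) (hN : N ≤ k), (binSys Unit Unit Unit (o k) a hN (h0 + D1)).K ≤ Real.exp (Hh ^ (c + 2)) := by
    intro k N a hN
    show (((Fintype.card (Fin m) + 4) * 2 ^ (h0 + D1 + 3) : ℕ) : ℝ) ≤ _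
    rw [Fintype.card_fin]
    push_cast
    have g1 : (2 : ℝ) ^ (h0 + D1 + 3) ≤ Real.exp ((h0 + D1 + 3 : ℕ) : ℝ) := NVL.two_pow_le_exp _
    have g2 : (m : ℝ) + 4 ≤ Real.exp ((m : ℝ) + 3) := by
      have := Real.add_one_le_exp ((m : ℝ) + 3)
      linarith
    calc ((m : ℝ) + 4) * 2 ^ (h0 + D1 + 3) ≤ Real.exp ((m : ℝ) + 3) * Real.exp ((h0 + D1 + 3 : ℕ) : ℝ) :=
          mul_le_mul g2 g1 (by positivity) (Real.exp_pos _).le
      _ = Real.exp ((m : ℝ) + 3 + ((h0 + D1 + 3 : ℕ) : ℝ)) := (Real.exp_add _ _).symm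
      _ ≤ _ := by
          refine Real.exp_le_exp.2 ?_
          push_cast
          linarith
  have hnear : ∀ (k N : ℕ) (a : Fin m) (hN : N ≤ k), (binSys Unit Unit Unit (o k) a hN (h0 + D1)).near ≤
      Real.exp (-Hh ^ c) := by
    intro k N a hN
    show 8 * ((2 : ℝ) ^ (h0 + D1))⁻¹ ≤ _
    have g1 : Real.exp (Hh ^ c) * 8 ≤ (2 : ℝ) ^ (h0 + D1) := by
      have g2 : Real.exp (Hh ^ c) ≤ (2 : ℝ) ^ (D1 - 4) := by
        refine NVL.exp_le_two_pow ?_
        rw [Nat.cast_sub (by omega)]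
        push_cast
        linarith
      have g3 : (2 : ℝ) ^ (D1 - 4) * 16 = (2 : ℝ) ^ D1 := by
        have g6 : (16 : ℝ) = 2 ^ 4 := by norm_num
        have g7 : D1 - 4 + 4 = D1 := by omega
        rw [g6, ← pow_add, g7]
      have g4 : (2 : ℝ) ^ D1 ≤ (2 : ℝ) ^ (h0 + D1) := pow_le_pow_right₀ (by norm_num) (by omega)
      have g5 := Real.exp_pos (Hh ^ c)
      nlinarith
    rw [Real.exp_neg, ← div_eq_mul_inv, ← one_div, div_le_div_iff₀ (by positivity) (Real.exp_pos _), one_mul]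
    linarith
  have hbig : 2 ^ (h0 + D1 - h0) * m0 n ≤ Real.exp (Hh ^ (c + 2)) := by
    rw [Nat.add_sub_cancel_left]
    have g1 : (2 : ℝ) ^ D1 ≤ Real.exp (D1 : ℝ) := NVL.two_pow_le_exp _
    have g2 : m0 n ≤ Real.exp (m0 n) := by
      have := Real.add_one_le_exp (m0 n)
      linarith
    calc (2 : ℝ) ^ D1 * m0 n ≤ Real.exp (D1 : ℝ) * Real.exp (m0 n) :=
          mul_le_mul g1 g2 hm0'.le (Real.exp_pos _).le
      _ = Real.exp ((D1 : ℝ) + m0 n) := (Real.exp_add _ _).symm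
      _ ≤ _ := by
          refine Real.exp_le_exp.2 ?_
          linarith
  have hp : ((n ^ Cp : ℕ) : ℝ) ≤ Real.exp (Hh ^ (c + 2)) := by
    push_cast
    have g1 : x ^ Cp ≤ Hh := pow_le_pow_right₀ hx1 (by omega)
    have g2 : Hh ≤ Hh ^ (c + 2) := by
      have : 0 ≤ Hh ^ (c + 1) := by positivity
      linarith
    have := Real.add_one_le_exp (Hh ^ (c + 2))
    linarith
  have hT0 : T0 n ≤ Hh * Real.exp ((1 + κ) * Real.exp Hh) := by
    have g1 : Real.exp (x ^ E1) ≤ Real.exp Hh := Real.exp_le_exp.2 (pow_le_pow_right₀ hx1 (by omega))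
    have g2 : Real.exp Hh ≤ (1 + κ) * Real.exp Hh := le_mul_of_one_le_left (Real.exp_pos _).le (by linarith)
    have g3 : T0 n ≤ Real.exp ((1 + κ) * Real.exp Hh) := e2.trans (Real.exp_le_exp.2 (g1.trans g2))
    exact g3.trans (le_mul_of_one_le_left (Real.exp_pos _).le hH1)
  -- the sizes of the conclusion
  have hexp0 : Real.exp (-Hh ^ (C0 + 2)) ≤ Real.exp (-x ^ C0) := by
    refine Real.exp_le_exp.2 (neg_le_neg ?_)
    rw [hHh, ← pow_mul]
    refine pow_le_pow_right₀ hx1 ?_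
    calc C0 ≤ 1 * (C0 + 2) := by omega
      _ ≤ E2 * (C0 + 2) := Nat.mul_le_mul_right _ (by omega)
  have hexp2 : 4 ^ m * Real.exp (-Hh ^ (C0 + 2)) ≤ (x + 1)⁻¹ ^ 3 := by
    refine le_trans (mul_le_mul_of_nonneg_left (Real.exp_le_exp.2 (neg_le_neg ?_)) (by positivity)) e4
    rw [hHh, ← pow_mul]
    refine pow_le_pow_right₀ hx1 ?_
    calc 2 ≤ 1 * (C0 + 2) := by omega
      _ ≤ E2 * (C0 + 2) := Nat.mul_le_mul_right _ (by omega)
  have hexpD : Real.exp (Hh ^ D) ≤ Real.exp (x ^ C) := by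
    refine Real.exp_le_exp.2 ?_
    rw [hHh, ← pow_mul]
    exact pow_le_pow_right₀ hx1 (by omega)
  have hNBC : (4 ^ m) ^ 2 * 36 ≤ x ^ C := by rwa [one_mul] at e5
  intro k N hN F hF q
  obtain ⟨a, haq⟩ := exists_ne q
  refine ⟨a, haq, ?_⟩
  have hon : ∀ j, FOn ({j}ᶜ : Set (Fin m)) (Pc N L F n q j) := Pc_on L hF n q
  have hN1 := facesN_lay (s := o k) (a := a) (hN := hN) (h := h0) hon (Pc_le L hF n q) hm0'
    (fun j => hP.fut k N hN F hF n q a j) (Nat.le_add_right h0 D1) q (p := n ^ Cp) hp hbig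
    (show 1 + 2 * m0 n ≤ 4 * Hh by linarith)
  have hS1 := strT_lay (s := o k) (a := a) (hN := hN) (h := h0) (hP.str k N hN F hF n q a) hm0'
    (show m0 n ≤ 4 * Hh by linarith) (Nat.le_add_right h0 D1) hbig hT0
  have hS2 : cutR (o k) a hN (Nat.le_add_right h0 D1) (n ^ Cp) (Pc N L F n q) q =
      (binFine (Θ := Unit) (Ξ := Unit) (Q := Unit) (o k) a hN (Nat.le_add_right h0 D1)).lift (mvR N (Pc N L F n q q)) := by
    unfold cutR
    rw [Function.update_of_ne haq.symm]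
  rw [← hS2] at hS1
  have hV := hB (Fin m) Unit Unit Unit k N (o k) a q q hN (h0 + D1) (Fintype.card_fin m) haq haq Hh (Real.exp Hh) hH2
    (hK k N a hN) (hnear k N a hN) (Real.exp_pos _).le le_rfl _ hN1 hS1
  obtain ⟨h'', g1, g2, Θ, P, iT, nT, iP, nP, zr, W, gq, ge3, geta, grmin, gNB, ghb, gJ⟩ := nv_lay _ hV
  rw [Fintype.card_fin] at g2 geta grmin gNB
  refine ⟨h'', by omega, ?_, Θ, P, iT, nT, iP, nP, zr, W, gq.trans hexp0, ge3.trans hexp0, geta.trans hexp2,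
    grmin.trans hexp2, gNB.trans hNBC, fun U hU => (ghb U hU).trans hexpD, gJ.trans hexpD⟩
  have g3 : (h'' : ℝ) ≤ (h0 : ℝ) + D1 + m := by exact_mod_cast g2
  linarith

end

end Pool.Agent.GM
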