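import Pool.Agent.GM.RawW
import Pool.Agent.GM.NVof
import Pool.Agent.GM.HarmB

/-!
# GM/NVN (helper95): from the raw process of the names to the named view `NV`, model with private coins, every finite set
of vertices (the last link of row G2B)

Raw model `Sq k N ι Θ Ξ`, hidden vertex `i`, one label for every known vertex `l` (it does not see `l`).
* `nuS_fac`, `letS_fac`, `letS_succ`, `letS_pic` : measurability of the letters of `GM/HarmB`;
* `ocR`, `tcR`, **`labR`** : the scripts of the numbered raw process satisfy `LabM`; `lets_eq` : its letters are `letS`;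
* `ce_Z_pic` : the coins of the known vertices can be forgotten;
* **`mvN`** : THE VIEW WITH NOISE (`MV` in the model with coins) from `RawR`; `mvN_q` : its sizes;
* **`nvN`**, `nvN_ex` : THE NAMED VIEW `NV` from `RawR` and the output of HARM for its letters;
* `mvW`, **`nvW_ex`** : the same for weak label classes and any classes of the losses (coin of the moving face).
-/

set_option autoImplicit false
set_option linter.unusedSectionVars false

namespace Pool.Agent.GM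

open Finset Pool.Agent.PWZ Pool.Agent.M3 Pool.Agent.M3.Bin


noncomputable section

variable {k N : ℕ} {ι Θ Ξ : Type} [Fintype ι] [DecidableEq ι]

/-! ## the letters -/

section letters

variable {i : ι} {h : ℕ} {φ : Type} {Rz J n0 : ℕ} {oc : {j : ι // j ≠ i} → ℕ → Sq k N ι Θ Ξ → Prop}
  {tc : {j : ι // j ≠ i} → ℕ → Sq k N ι Θ Ξ → Option φ}

/-- forgetting the coins -/
theorem AJ_pic {Ci : Type} {Jf : Finset {j : ι // j ≠ i}} {e : ℕ} {v w : Sq k N ι Θ (Ξ × Ci)}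
    (hv : AJ i h Jf e v = AJ i h Jf e w) : AJ i h Jf e (pic v) = AJ i h Jf e (pic w) := by
  rw [AJ_eq] at hv ⊢
  obtain ⟨h1, h2, h3⟩ := hv
  refine ⟨?_, fun a ha => ?_, h3⟩
  · rw [vx_pic, vx_pic, h1]
  · rw [vx_pic, vx_pic, h2 a ha]

theorem KJ_pic {Ci : Type} {Jf : Finset {j : ι // j ≠ i}} {e : ℕ} {v w : Sq k N ι Θ (Ξ × Ci)}
    (hv : KJ i h Jf e v = KJ i h Jf e w) : KJ i h Jf e (pic v) = KJ i h Jf e (pic w) := by
  rw [KJ_eq] at hv ⊢
  refine ⟨fun a ha => ?_, hv.2⟩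
  rw [vx_pic, vx_pic, hv.1 a ha]

theorem KJ_of_AJ {P : Type} {Jf : Finset {j : ι // j ≠ i}} {e : ℕ} {v w : Sq k N ι Θ P}
    (hv : AJ i h Jf e v = AJ i h Jf e w) : KJ i h Jf e v = KJ i h Jf e w := by
  rw [AJ_eq] at hv
  rw [KJ_eq]
  exact hv.2

theorem nuS_fac (l : {j : ι // j ≠ i}) (e : ℕ) :
    Fac (AJ (k := k) (N := N) (Θ := Θ) (P := Ξ × CoK N ι Rz φ) i h (univ.erase l) e) (nuS i l) := by
  intro v w hv
  rw [AJ_eq] at hv
  unfold nuS
  rw [hv.1]

/-- locality -/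
theorem letS_congr (H : LabM i h oc tc) {l : {j : ι // j ≠ i}} {t : ℕ}
    {v w : Sq k N ι Θ (Ξ × CoK N ι Rz φ)}
    (hv : AJ i h (univ.erase l) (M3.Mod.ex N t) (pic v) = AJ i h (univ.erase l) (M3.Mod.ex N t) (pic w))
    (hn : nuS i l v = nuS i l w) : letS Rz J n0 i oc tc l t v = letS Rz J n0 i oc tc l t w := by
  unfold letS
  rw [hn]
  funext s
  unfold Nz.lab
  by_cases hs : s.val ≤ t
  · rw [if_pos hs, if_pos hs]
    refine Nz.pub_congr (t := t) (fun r hr => ?_) (fun r hr => ?_) (fun _ _ => rfl) s.val hs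
    · exact H.oc l r _ _ (KJ_of_AJ ((filt_AJ i h (univ.erase l)).le hr _ _ hv))
    · exact H.tc l r _ _ ((filt_AJ i h (univ.erase l)).le hr _ _ hv)
  · rw [if_neg hs, if_neg hs]

/-- **the letters are functions of the hidden vertex, the vertices of the label and the node** -/
theorem letS_fac (H : LabM i h oc tc) (l : {j : ι // j ≠ i}) (t : ℕ) :
    Fac (AJ (k := k) (N := N) (Θ := Θ) (P := Ξ × CoK N ι Rz φ) i h (univ.erase l) (M3.Mod.ex N t))
      (letS Rz J n0 i oc tc l t) :=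
  fun v w hv => letS_congr H (AJ_pic hv) (nuS_fac l (M3.Mod.ex N t) v w hv)

/-- the letters are cumulative -/
theorem letS_cum (l : {j : ι // j ≠ i}) (t : ℕ) (w : Sq k N ι Θ (Ξ × CoK N ι Rz φ)) :
    letS Rz J n0 i oc tc l t w = fun s => if s.val ≤ t then letS Rz J n0 i oc tc l (t + 1) w s else none := by
  unfold letS
  funext s
  unfold Nz.lab
  by_cases hs : s.val ≤ t
  · rw [if_pos hs, if_pos hs, if_pos (by omega)]
  · rw [if_neg hs, if_neg hs]

theorem letS_succ (l : {j : ι // j ≠ i}) (t : ℕ) :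
    Fac (letS Rz J n0 i oc tc l (t + 1)) (letS (Θ := Θ) Rz J n0 i oc tc l t) := by
  intro v w hv
  rw [letS_cum l t v, letS_cum l t w, hv]

/-- the letters see of the coins the coins of the hidden vertex only -/
theorem letS_pic (l : {j : ι // j ≠ i}) (t : ℕ) :
    Fac (fun w : Sq k N ι Θ (Ξ × CoK N ι Rz φ) => (pic w, coin w i)) (letS Rz J n0 i oc tc l t) := by
  intro v w hv
  simp only [Prod.mk.injEq] at hv
  obtain ⟨h1, h2⟩ := hv
  have h3 : (vx i v).1.2 = (vx i w).1.2 := h2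
  unfold letS nuS
  rw [h1, h3]

end letters

/-! ## the coins of the known vertices -/

section coins

variable {Ci : Type} [Fintype Θ] [Nonempty Θ] [Fintype Ξ] [Nonempty Ξ] [Fintype Ci] [Nonempty Ci]

/-- the coins of the known vertices can be forgotten -/
theorem ce_Z_pic (i : ι) (h e : ℕ) (f : Sq k N ι Θ Ξ → ℝ) (w : Sq k N ι Θ (Ξ × Ci)) :
    Pm.ce (fun v => (ot i v, Qn i h e v)) (fun v => f (pic v)) w =
      Pm.ce (fun v => (ot i v, Qn i h e v)) f (pic w) := by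
  have h1 : ∀ (P : Type) [Fintype P] [Nonempty P] (g : Sq k N ι Θ P → ℝ) (u : Sq k N ι Θ P),
      Pm.ce (fun v => (ot i v, Qn i h e v)) g u = Pm.ce (Kn i e) g u := fun P _ _ g u =>
    Pm.ce_congr_map (Z_fac_Kn i h e) (Kn_fac_Z i h e) g u
  rw [h1, h1]
  exact ce_Kn_pic i e f w

end coins

/-! ## the noise -/

section noise

variable {Rz : ℕ} {φ : Type} [Fintype φ] [Fintype Ξ] [Nonempty Ξ] [Fintype Θ] [Nonempty Θ]

/-- the noise of one label is uniform given the raw point -/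
theorem nuS_law (i : ι) (l : {j : ι // j ≠ i}) :
    NuLaw (Pm (k := k) (N := N) (ι := ι) (Θ := Θ) (P := Ξ × CoK N ι Rz φ)) (Pm (P := Ξ)) pic (nuS i l) := by
  classical
  intro Ψ
  have h1 := (pulC_pic (k := k) (N := N) (ι := ι) (Θ := Θ) (Ξ := Ξ) (Ci := CoK N ι Rz φ)).E
    (fun v c => Ψ v (c i l.1))
  refine Eq.trans h1 ?_
  refine FP.E_congr _ fun v _ => ?_
  rw [coin_unifS i (fun α => Ψ v (α l))]
  exact Mod.unif_eval l (Ψ v)

end noise

/-! ## the view -/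

section view

variable {O E F' : Type} [Fintype Θ] [Nonempty Θ] [Fintype Ξ] [Nonempty Ξ] [Fintype O] [DecidableEq O] [Inhabited O]
  {i : ι} {h : ℕ} {f : {j : ι // j ≠ i} → ℕ → Sq k N ι Θ Ξ → O → F'} {al : ℕ → ℝ} {e : ℕ → Sq k N ι Θ Ξ → E}
  {fp : {j : ι // j ≠ i} → ℕ → Sq k N ι Θ Ξ → F'} {K : E × ({j : ι // j ≠ i} → F') → ℕ → Sq k N ι Θ Ξ → ℝ}
  {T : ℕ → Sq k N ι Θ Ξ → ℝ} {D0 : ℕ → Sq k N ι Θ Ξ → Prop} {Lam eta : ℝ} {ix : ℕ → Sq k N ι Θ Ξ → O}
  {dK : E × ({j : ι // j ≠ i} → F') → ℕ → Sq k N ι Θ Ξ → ℝ} {che zr : ℕ → Sq k N ι Θ Ξ → Prop} {M : ℕ}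
  {cT ne nf q0 q1 : ℝ}

/-- occasions of the numbered process -/
def ocR (S : GRT (Sq k N ι Θ Ξ) (fun _ => Θ × (V k × ℕ) × ({j : ι // j ≠ i} → V k)) (Ξ × V k) (Ξ × V k)
    {j : ι // j ≠ i} {j : ι // j ≠ i} (O → F') E F') (ix : ℕ → Sq k N ι Θ Ξ → O) (M : ℕ) (l : {j : ι // j ≠ i})
    (t : ℕ) (v : Sq k N ι Θ Ξ) : Prop := ((S.numd ix M).lo ix l).oc t v

/-- true components of the numbered process -/
def tcR (S : GRT (Sq k N ι Θ Ξ) (fun _ => Θ × (V k × ℕ) × ({j : ι // j ≠ i} → V k)) (Ξ × V k) (Ξ × V k)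
    {j : ι // j ≠ i} {j : ι // j ≠ i} (O → F') E F') (ix : ℕ → Sq k N ι Θ Ξ → O) (M : ℕ) (l : {j : ι // j ≠ i})
    (t : ℕ) (v : Sq k N ι Θ Ξ) : Option (O → Fin (M + 1)) := ((S.numd ix M).lo ix l).tc t v

/-- **the scripts** -/
theorem labR (R : (mdlT i h (fun l => univ.erase l) f al e fp K T D0 Lam eta).RawR ix (fun t => Dg (M3.Mod.ex N (t + 1))) dK
    che zr N M cT ne nf q0 q1) :
    LabM i h (ocR (mdlT i h (fun l => univ.erase l) f al e fp K T D0 Lam eta) ix M)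
      (tcR (mdlT i h (fun l => univ.erase l) f al e fp K T D0 Lam eta) ix M) where
  oc := fun l s _ _ hv => GRT.oc_iff
    (S := (mdlT i h (fun l => univ.erase l) f al e fp K T D0 Lam eta).numd ix M) (ix := ix) (l := l) (t := s) hv
  tc := fun l s => GRT.tc_fac (S := (mdlT i h (fun l => univ.erase l) f al e fp K T D0 Lam eta).numd ix M) (ix := ix)
    R.hypN.hyp l s

/-- the letters of the numbered process -/
theorem lets_eq {Rz J n0 : ℕ} (S : GRT (Sq k N ι Θ Ξ) (fun _ => Θ × (V k × ℕ) × ({j : ι // j ≠ i} → V k)) (Ξ × V k)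
    (Ξ × V k) {j : ι // j ≠ i} {j : ι // j ≠ i} (O → F') E F') (l : {j : ι // j ≠ i}) (t : ℕ) :
    GRT.RawR.lets S ix Rz J n0 M pic (fun l => nuS i l) l t = letS Rz J n0 i (ocR S ix M) (tcR S ix M) l t := by
  funext w
  exact GRT.LFn_eq (S.numd ix M) ix Rz J n0 pic (fun l => nuS i l) l t w

variable (R : (mdlT i h (fun l => univ.erase l) f al e fp K T D0 Lam eta).RawR ix (fun t => Dg (M3.Mod.ex N (t + 1))) dK
    che zr N M cT ne nf q0 q1) {Rz J n0 : ℕ} (hJ : 0 < J) (hn0 : 0 < n0) {r1 rmin : ℝ} (hr1 : 0 < r1)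
    (hr1' : r1 ≤ 1 / 2) (hr0 : 2 * eta + r1 ≤ rmin)

include R in
/-- the classes `AJ` are weak label classes -/
theorem weakAJ : (mdlT i h (fun l => univ.erase l) f al e fp K T D0 Lam eta).Weak pic
    (fun l (w : Sq k N ι Θ (Ξ × CoK N ι Rz (O → Fin (M + 1)))) => nuS i l w)
    (fun l t => AJ i h (univ.erase l) (M3.Mod.ex N t)) where
  filt := fun l => filt_AJ i h (univ.erase l)
  Z := fun _ _ _ _ hv => KJ_of_AJ (AJ_pic hv)
  nu := fun l t => nuS_fac l (M3.Mod.ex N t)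
  f := fun l t _ _ hv => R.hyp.hyp.ff l t _ _ (AJ_pic hv)

variable {ζ : {j : ι // j ≠ i} → ℕ → Type} {AL : ∀ l t, Sq k N ι Θ (Ξ × CoK N ι Rz (O → Fin (M + 1))) → ζ l t}
  (WK : (mdlT i h (fun l => univ.erase l) f al e fp K T D0 Lam eta).Weak pic (fun l => nuS i l) AL)

/-- the view with noise, node without the coins of the known vertices -/
def mvW0 : GV (Pm (k := k) (N := N) (ι := ι) (Θ := Θ) (P := Ξ × CoK N ι Rz (O → Fin (M + 1)))) N
    (fun t w => (ot i (pic w), Qn i h (M3.Mod.ex N t) (pic w))) (fun t w => Dg (M3.Mod.ex N (t + 1)) (pic w))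
    AL (fun l t => KJ i h (univ.erase l) (M3.Mod.ex N t))
    (fun t w => T t (pic w)) (fun t w => che t (pic w)) (fun t w => zr t (pic w)) :=
  R.viewW (P2 := Pm) (pi := pic) (Rz := Rz) (J := J) (n0 := n0) (ν := fun l => nuS i l) pul_pic
    (fun l => nuS_law i l) hJ hn0 WK
    (ZL := fun l t => KJ i h (univ.erase l) (M3.Mod.ex N t)) (fun _ _ _ _ hv => KJ_pic hv)
    (r1 := r1) (rmin := rmin) hr1 hr1' hr0

/-- **THE VIEW WITH NOISE** in the model with coins, weak label classes `AL` -/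
def mvW : GV (Pm (k := k) (N := N) (ι := ι) (Θ := Θ) (P := Ξ × CoK N ι Rz (O → Fin (M + 1)))) N
    (fun t w => (ot i w, Qn i h (M3.Mod.ex N t) w)) (fun t => Dg (M3.Mod.ex N (t + 1)))
    AL (fun l t => KJ i h (univ.erase l) (M3.Mod.ex N t))
    (fun t w => T t (pic w)) (fun t w => che t (pic w)) (fun t w => zr t (pic w)) :=
  have hu : ∀ t (v : Sq k N ι Θ (Ξ × CoK N ι Rz (O → Fin (M + 1)))),
      ind (¬ (mvW0 R hJ hn0 hr1 hr1' hr0 WK).utd t v) =
        ind (¬ ((mdlT i h (fun l => univ.erase l) f al e fp K T D0 Lam eta).numd ix M).toGRD.utd t (pic v)) := fun t v => by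
    have h1 : (mvW0 R hJ hn0 hr1 hr1' hr0 WK).utd t v ↔
        ((mdlT i h (fun l => univ.erase l) f al e fp K T D0 Lam eta).numd ix M).toGRD.utd t (pic v) :=
      GRD.pulr_utd (R := ((mdlT i h (fun l => univ.erase l) f al e fp K T D0 Lam eta).numd ix M).toGRD) (P := Pm)
        (pi := pic) pul_pic t v
    rw [h1]
  (mvW0 R hJ hn0 hr1 hr1' hr0 WK).finer (fun t w => (ot i w, Qn i h (M3.Mod.ex N t) w))
    (fun t v w hv => by
      simp only [Prod.mk.injEq] at hv ⊢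
      refine ⟨funext fun a => ?_, hv.2⟩
      have h1 : vx a.1 v = vx a.1 w := congrFun hv.1 a
      show vx a.1 (pic v) = vx a.1 (pic w)
      rw [vx_pic, vx_pic, h1])
    (fun t _ Y hY w hw => by
      simp only [hu]
      rw [← Pm.ce_tower hY]
      refine Pm.ce_le_const (fun v _ => ?_) hw
      rw [ce_Z_pic i h (M3.Mod.ex N t) (fun u => ind (¬ ((mdlT i h (fun l => univ.erase l) f al e fp K T D0 Lam
        eta).numd ix M).toGRD.utd t u)) v]
      exact GRD.utd_coarse R.hypN.hyp t (Fac.refl _) (Pm_ne _))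
    (fun t _ Y hY w hw => by
      simp only [hu]
      rw [← Pm.ce_tower hY]
      refine Pm.ce_le_const (fun v _ => ?_) hw
      rw [ce_Z_pic i h (M3.Mod.ex N (t + 1)) (fun u => ind (¬ ((mdlT i h (fun l => univ.erase l) f al e fp K T D0 Lam
        eta).numd ix M).toGRD.utd t u)) v]
      exact GRD.utd_Z_succ R.hypN.hyp t (Pm_ne _))

theorem mvW_pl (l : {j : ι // j ≠ i}) (t : ℕ) : (mvW R hJ hn0 hr1 hr1' hr0 WK).pl l t =
    letS Rz J n0 i (ocR (mdlT i h (fun l => univ.erase l) f al e fp K T D0 Lam eta) ix M)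
      (tcR (mdlT i h (fun l => univ.erase l) f al e fp K T D0 Lam eta) ix M) l t :=
  lets_eq (mdlT i h (fun l => univ.erase l) f al e fp K T D0 Lam eta) l t

include R WK in
/-- the letters are known to weak label classes -/
theorem letS_w (l : {j : ι // j ≠ i}) (t : ℕ) : Fac (AL l t)
    (letS Rz J n0 i (ocR (mdlT i h (fun l => univ.erase l) f al e fp K T D0 Lam eta) ix M)
      (tcR (mdlT i h (fun l => univ.erase l) f al e fp K T D0 Lam eta) ix M) l t) := by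
  have h1 := GRT.lets_w (S := mdlT i h (fun l => univ.erase l) f al e fp K T D0 Lam eta) (ix := ix) (J := J) (n0 := n0)
    R.hyp.hyp.filt WK l t
  rwa [lets_eq] at h1

/-- **THE VIEW WITH NOISE** in the model with coins -/
def mvN : MV k N ι Θ (Ξ × CoK N ι Rz (O → Fin (M + 1))) i h (fun l : {j : ι // j ≠ i} => univ.erase l)
    (fun t w => T t (pic w)) (fun t w => che t (pic w)) (fun t w => zr t (pic w)) :=
  mvW R (Rz := Rz) hJ hn0 hr1 hr1' hr0 (weakAJ R)

theorem mvN_pl (l : {j : ι // j ≠ i}) (t : ℕ) : (mvN R (Rz := Rz) hJ hn0 hr1 hr1' hr0).pl l t =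
    letS Rz J n0 i (ocR (mdlT i h (fun l => univ.erase l) f al e fp K T D0 Lam eta) ix M)
      (tcR (mdlT i h (fun l => univ.erase l) f al e fp K T D0 Lam eta) ix M) l t :=
  lets_eq (mdlT i h (fun l => univ.erase l) f al e fp K T D0 Lam eta) l t

/-- the sizes -/
theorem mvN_q : (mvN R (Rz := Rz) hJ hn0 hr1 hr1' hr0).q =
      GRT.RawR.qn (mdlT i h (fun l : {j : ι // j ≠ i} => univ.erase l) f al e fp K T D0 Lam eta) Rz J n0 M ne nf q0 q1 r1 ∧
    (mvN R (Rz := Rz) hJ hn0 hr1 hr1' hr0).J = ne + nf + 2 * n0 ∧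
    (mvN R (Rz := Rz) hJ hn0 hr1 hr1' hr0).hb = GRT.RawR.hn O J n0 M ∧
    (mvN R (Rz := Rz) hJ hn0 hr1 hr1' hr0).eta = eta ∧
    (mvN R (Rz := Rz) hJ hn0 hr1 hr1' hr0).a6 = Fintype.card {j : ι // j ≠ i} *
      al (Fintype.card {j : ι // j ≠ i} - 1) ∧
    (mvN R (Rz := Rz) hJ hn0 hr1 hr1' hr0).rmin = rmin ∧
    (mvN R (Rz := Rz) hJ hn0 hr1 hr1' hr0).cb = cT + 1 :=
  ⟨rfl, rfl, rfl, rfl, rfl, rfl, rfl⟩

variable {υ : Type}
  {Uc : Finset {j : ι // j ≠ i} → ℕ → Sq k N ι Θ (Ξ × CoK N ι Rz (O → Fin (M + 1))) → υ}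
  {G dd : ℕ → Sq k N ι Θ (Ξ × CoK N ι Rz (O → Fin (M + 1))) → Prop} {B eh : ℝ}

/-- **THE NAMED VIEW** -/
def nvN (HB : HOut i h (letS Rz J n0 i (ocR (mdlT i h (fun l => univ.erase l) f al e fp K T D0 Lam eta) ix M)
      (tcR (mdlT i h (fun l => univ.erase l) f al e fp K T D0 Lam eta) ix M)) Uc B eh G dd)
    (hne : ∃ j : ι, j ≠ i) :
    NV (Pm (k := k) (N := N) (ι := ι) (Θ := Θ) (P := Ξ × CoK N ι Rz (O → Fin (M + 1)))) N (UU i)
      (fun U t => Zk U (M3.Mod.ex N (t + 1) - (h + 3))) (fun t => Kn i (M3.Mod.ex N t))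
      (fun t w => T t (pic w)) (fun t w => che t (pic w)) (fun t w => zr t (pic w)) :=
  nvof (mvN R hJ hn0 hr1 hr1' hr0) HB (fun l t => letS_fac (labR R) l t) (fun l t => letS_pic l t)
    (fun l t => letS_succ l t) (fun l t => by rw [mvN_pl]; exact Fac.refl _) hne

include R hJ hn0 hr1 hr1' hr0 in
/-- **THE NAMED VIEW, with its sizes**; `T'`, `che'`, `zr'` = the process, the changes and the zeroes of the known face in
the model with coins -/
theorem nvN_ex (HB : HOut i h (letS Rz J n0 i (ocR (mdlT i h (fun l => univ.erase l) f al e fp K T D0 Lam eta) ix M)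
      (tcR (mdlT i h (fun l => univ.erase l) f al e fp K T D0 Lam eta) ix M)) Uc B eh G dd)
    (hne : ∃ j : ι, j ≠ i) {T' : ℕ → Sq k N ι Θ (Ξ × CoK N ι Rz (O → Fin (M + 1))) → ℝ}
    {che' zr' : ℕ → Sq k N ι Θ (Ξ × CoK N ι Rz (O → Fin (M + 1))) → Prop} (hT : ∀ t w, T' t w = T t (pic w))
    (hc : ∀ t w, che' t w ↔ che t (pic w)) (hz : ∀ t w, zr' t w ↔ zr t (pic w)) :
    ∃ W : NV (Pm (k := k) (N := N) (ι := ι) (Θ := Θ) (P := Ξ × CoK N ι Rz (O → Fin (M + 1)))) N (UU i)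
      (fun U t => Zk U (M3.Mod.ex N (t + 1) - (h + 3))) (fun t => Kn i (M3.Mod.ex N t)) T' che' zr',
      W.eta = eta ∧ W.a6 = Fintype.card {j : ι // j ≠ i} * al (Fintype.card {j : ι // j ≠ i} - 1) ∧ W.rmin = rmin ∧
      W.NB = 9 * (cT + 1) ^ 2 ∧
      W.q = q0 + q1 + Fintype.card {j : ι // j ≠ i} * ((J : ℝ) / (Rz + 1) +
          (1 + 2 ^ Fintype.card {j : ι // j ≠ i} * (Fintype.card {j : ι // j ≠ i} * nf) / al 0) / J + (1 + nf) / n0) +
        Fintype.card {j : ι // j ≠ i} * al (Fintype.card {j : ι // j ≠ i} - 1) *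
          (ne + 2 ^ Fintype.card {j : ι // j ≠ i} * (Fintype.card {j : ι // j ≠ i} * nf) +
            3 * (((M : ℝ) + 1) ^ (Fintype.card {j : ι // j ≠ i} + 1) * (Lam / r1))) + eh ∧
      W.e3 = 2 * eh ∧ (∀ U, W.hb U = (4 + cK i) * B) ∧
      W.J = Fintype.card {j : ι // j ≠ i} * (ne + nf + 2 * n0) := by
  obtain rfl : T' = fun t w => T t (pic w) := funext fun t => funext fun w => hT t w
  obtain rfl : che' = fun t w => che t (pic w) := funext fun t => funext fun w => propext (hc t w)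
  obtain rfl : zr' = fun t w => zr t (pic w) := funext fun t => funext fun w => propext (hz t w)
  exact ⟨nvN R hJ hn0 hr1 hr1' hr0 HB hne, rfl, rfl, rfl, rfl, rfl, rfl, fun _ => rfl, rfl⟩

include R hJ hn0 hr1 hr1' hr0 WK in
/-- **THE NAMED VIEW, weak label classes and any classes `ZU`** (coin of the moving face), with its sizes; `hv` = what the
classes of HARM see of the hidden vertex -/
theorem nvW_ex (HB : HOut i h (letS Rz J n0 i (ocR (mdlT i h (fun l => univ.erase l) f al e fp K T D0 Lam eta) ix M)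
      (tcR (mdlT i h (fun l => univ.erase l) f al e fp K T D0 Lam eta) ix M)) Uc B eh G dd)
    (hne : ∃ j : ι, j ≠ i) {γ0 : Type} (hv : Sq k N ι Θ (Ξ × CoK N ι Rz (O → Fin (M + 1))) → γ0)
    (hUh : ∀ I t, Fac (fun w => (hv w, res I (ot i (pic w)), Qn i h (M3.Mod.ex N t) w)) (Uc I t))
    {ζU : Finset ι → ℕ → Type} (ZU : ∀ U t, Sq k N ι Θ (Ξ × CoK N ι Rz (O → Fin (M + 1))) → ζU U t)
    (hZ : ∀ U ∈ UU i, ∀ t < N, Fac (ZU U t) (fun w => (hv w, res (jo i U) (ot i (pic w)), Qn i h (M3.Mod.ex N t) w)))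
    (hZA : ∀ l t, t < N → Fac (ZU (UL i (univ.erase l)) t) (AL l (t + 1)))
    {T' : ℕ → Sq k N ι Θ (Ξ × CoK N ι Rz (O → Fin (M + 1))) → ℝ}
    {che' zr' : ℕ → Sq k N ι Θ (Ξ × CoK N ι Rz (O → Fin (M + 1))) → Prop} (hT : ∀ t w, T' t w = T t (pic w))
    (hc : ∀ t w, che' t w ↔ che t (pic w)) (hz : ∀ t w, zr' t w ↔ zr t (pic w)) :
    ∃ W : NV (Pm (k := k) (N := N) (ι := ι) (Θ := Θ) (P := Ξ × CoK N ι Rz (O → Fin (M + 1)))) N (UU i)
      ZU (fun t => Kn i (M3.Mod.ex N t)) T' che' zr',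
      W.eta = eta ∧ W.a6 = Fintype.card {j : ι // j ≠ i} * al (Fintype.card {j : ι // j ≠ i} - 1) ∧ W.rmin = rmin ∧
      W.NB = 9 * (cT + 1) ^ 2 ∧
      W.q = q0 + q1 + Fintype.card {j : ι // j ≠ i} * ((J : ℝ) / (Rz + 1) +
          (1 + 2 ^ Fintype.card {j : ι // j ≠ i} * (Fintype.card {j : ι // j ≠ i} * nf) / al 0) / J + (1 + nf) / n0) +
        Fintype.card {j : ι // j ≠ i} * al (Fintype.card {j : ι // j ≠ i} - 1) *
          (ne + 2 ^ Fintype.card {j : ι // j ≠ i} * (Fintype.card {j : ι // j ≠ i} * nf) +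
            3 * (((M : ℝ) + 1) ^ (Fintype.card {j : ι // j ≠ i} + 1) * (Lam / r1))) + eh ∧
      W.e3 = 2 * eh ∧ (∀ U, W.hb U = (4 + cK i) * B) ∧
      W.J = Fintype.card {j : ι // j ≠ i} * (ne + nf + 2 * n0) := by
  obtain rfl : T' = fun t w => T t (pic w) := funext fun t => funext fun w => hT t w
  obtain rfl : che' = fun t w => che t (pic w) := funext fun t => funext fun w => propext (hc t w)
  obtain rfl : zr' = fun t w => zr t (pic w) := funext fun t => funext fun w => propext (hz t w)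
  exact ⟨nvofG (mvW R hJ hn0 hr1 hr1' hr0 WK) HB (fun l t => letS_w R WK l t) (fun l t => letS_pic l t)
    (fun l t => letS_succ l t) (fun l t => by rw [mvW_pl]; exact Fac.refl _) hne hv hUh ZU hZ hZA,
    rfl, rfl, rfl, rfl, rfl, rfl, fun _ => rfl, rfl⟩

end view

end

end Pool.Agent.GM
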