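import Pool.Agent.GM.NV

/-!
# GM/NVtr : the named view of a multiple of the process (helper34)

`NV.tr` : from a named view of `T` to a named view of `T' = lam T` (for `t ≤ N`), finer classes of the losses, the same
event of the changes of the known face (for `t < N`), the same zeros: accuracy and least threshold `lam` times, bound of the
functions `lam ^ 2` times, everything else unchanged.
-/

set_option autoImplicit false
set_option linter.unusedSectionVars false

namespace Pool.Agent.GM

open Finset Pool.Agent.PWZ Pool.Agent.M3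

noncomputable section

/-- the stopped function of a multiple -/
theorem Phi_smul {lam : ℝ} (hl : 0 < lam) (r x : ℝ) : Phi r (lam * x) = lam ^ 2 * Phi (r / lam) x := by
  unfold Phi
  rw [← mul_pow, abs_mul, abs_of_pos hl]
  congr 1
  rw [mul_max_of_nonneg _ _ hl.le, mul_zero, mul_sub, mul_div_cancel₀ _ hl.ne']

variable {Om : Type} [Fintype Om] {P : FP Om} {N : ℕ} {β : Type} {I : Finset β} {ζ ζ' : β → ℕ → Type}
  {Z : ∀ U t, Om → ζ U t} {Z' : ∀ U t, Om → ζ' U t} {κ : ℕ → Type} {K : ∀ t, Om → κ t} {T T' : ℕ → Om → ℝ}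
  {che che' zr zr' : ℕ → Om → Prop}

/-- the hypotheses of a view for a multiple of the process -/
theorem ViewHyp_smul {α : ℕ → Type} {A : ∀ t, Om → α t} {X g D : ℕ → Om → ℝ} {e a : ℕ → Om → Prop} {x B lam : ℝ}
    (hl : 0 < lam) (H : P.ViewHyp A X g D e a (x / lam) B) :
    P.ViewHyp A (fun t w => lam * X t w) (fun t w => lam * g t w) D e a x (lam ^ 2 * B) where
  filt := H.filt
  X_fac t := fun v w h => congrArg (fun z => lam * z) (H.X_fac t v w h)
  g_fac t := fun v w h => congrArg (fun z => lam * z) (H.g_fac t v w h)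
  a_fac := H.a_fac
  a_anti := H.a_anti
  digit := H.digit
  step t w hw he := by
    show lam * X (t + 1) w = lam * X t w + D t w * (lam * g t w)
    rw [H.step t w hw he]
    ring
  bd t w hw := by
    show Phi x (lam * X t w) ≤ _
    rw [Phi_smul hl]
    exact mul_le_mul_of_nonneg_left (H.bd t w hw) (by positivity)
  bd' t w hw := by
    show Phi x (lam * X t w + D t w * (lam * g t w)) ≤ _
    have h1 : lam * X t w + D t w * (lam * g t w) = lam * (X t w + D t w * g t w) := by ring
    rw [h1, Phi_smul hl]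
    exact mul_le_mul_of_nonneg_left (H.bd' t w hw) (by positivity)

/-- NAMED VIEW OF A MULTIPLE -/
def NV.tr (W : NV P N I Z K T che zr) {lam : ℝ} (hl : 0 < lam) (hZ : ∀ U t, Fac (Z' U t) (Z U t))
    (hT : ∀ t ≤ N, ∀ w, T' t w = lam * T t w) (hche : ∀ t < N, ∀ w, che' t w ↔ che t w)
    (hzr : ∀ t ≤ N, ∀ w, zr' t w → zr t w) : NV P N I Z' K T' che' zr' where
  α := W.α
  A := W.A
  X t w := lam * W.X t w
  g t w := lam * W.g t w
  D := W.D
  ev := W.ev
  utd := W.utd
  D0 := W.D0
  D1 := W.D1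
  b0 := W.b0
  b := W.b
  c := W.c
  ch := W.ch
  NB := lam ^ 2 * W.NB
  eta := lam * W.eta
  q := W.q
  e3 := W.e3
  hb := W.hb
  J := W.J
  a6 := W.a6
  rmin := lam * W.rmin
  eta0 := mul_nonneg hl.le W.eta0
  NB0 := mul_nonneg (sq_nonneg _) W.NB0
  view x hx Dd := ViewHyp_smul hl (W.view (x / lam) (div_nonneg hx hl.le) Dd)
  KA := W.KA
  D0inc := W.D0inc
  D1inc := W.D1inc
  D01 := W.D01
  D0q := W.D0q
  D1q := W.D1q
  XS1 x hx t ht w hw h1 h2 := by
    rw [abs_mul, abs_of_pos hl] at h1
    have h3 : x / lam < |W.X t w| := by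
      rw [div_lt_iff₀ hl]
      linarith [mul_comm lam |W.X t w|]
    refine (W.XS1 (x / lam) (div_nonneg hx hl.le) t ht w hw h3 h2).imp id fun h4 => ?_
    rw [hT t ht w, abs_mul, abs_of_pos hl]
    have h5 : lam * (x / lam - W.eta) ≤ lam * |T t w| := mul_le_mul_of_nonneg_left h4 hl.le
    rwa [mul_sub, mul_div_cancel₀ _ hl.ne'] at h5
  SX1 x t ht w hw h1 h2 h3 := by
    rw [hT t ht w, abs_mul, abs_of_pos hl] at h1
    have h4 : x / lam + W.eta ≤ |T t w| := by
      have h5 : lam * (x / lam + W.eta) ≤ lam * |T t w| := by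
        rwa [mul_add, mul_div_cancel₀ _ hl.ne']
      exact le_of_mul_le_mul_left h5 hl
    have h6 := W.SX1 (x / lam) t ht w hw h4 h2 h3
    rw [abs_mul, abs_of_pos hl]
    rw [div_le_iff₀ hl] at h6
    linarith [mul_comm lam |W.X t w|]
  ev1 t ht w hw ha := by
    have h1 := W.ev1 t ht w hw ha
    have h2 : ind (che t w) = ind (che' t w) := by
      rw [propext (hche t ht w)]
    rw [← h2]
    exact h1
  zer t ht w hw hz := by
    rw [W.zer t ht w hw (hzr t ht w hz), mul_zero]
  utdK := W.utdK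
  bias := W.bias
  b0n := W.b0n
  bn := W.bn
  cn := W.cn
  b0A := W.b0A
  bA := W.bA
  bZ U hU t ht := (hZ U t).trans (W.bZ U hU t ht)
  cZ U hU t ht := (hZ U t).trans (W.cZ U hU t ht)
  b0e := W.b0e
  bh := W.bh
  cJ := W.cJ
  chZ U hU t ht := (hZ U t).trans (W.chZ U hU t ht)
  chJ := W.chJ
  eJ := by
    refine le_trans (le_of_eq (Finset.sum_congr rfl fun t ht => ?_)) W.eJ
    exact P.Pr_congr fun w _ => hche t (Finset.mem_range.1 ht) w
  thm r hr D0' hinc h0 := by
    have hr' : W.rmin ≤ r / lam := by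
      rw [le_div_iff₀ hl]
      linarith [mul_comm lam W.rmin]
    obtain ⟨D2, g1, g2, g3, g4, g5, g6⟩ := W.thm (r / lam) hr' D0' hinc h0
    refine ⟨D2, g1, g2, g3.trans ?_, fun t ht w hw h1 h2 => ?_, fun x t ht w hw h1 h2 h3 => ?_,
      fun t ht w hw h1 h2 => g6 t ht w hw ?_ h2⟩
    · refine add_le_add le_rfl (Finset.sum_le_sum fun t ht => ?_)
      have ht' := Finset.mem_range.1 ht
      refine P.Pr_mono fun w _ h => ?_
      obtain ⟨h1, h2, h3⟩ := h
      refine ⟨h1.imp (hche t ht' w).2 id, h2.imp (fun h => ?_) (fun h => ?_), h3⟩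
      · rw [hT t ht'.le w, abs_mul, abs_of_pos hl]
        rw [div_le_iff₀ hl] at h
        linarith [mul_comm lam |T t w|]
      · rw [hT (t + 1) ht' w, abs_mul, abs_of_pos hl]
        rw [div_le_iff₀ hl] at h
        linarith [mul_comm lam |T (t + 1) w|]
    · rw [abs_mul, abs_of_pos hl] at h1
      have h3 : 2 * (r / lam) < |W.X t w| := by
        rw [← mul_div_assoc, div_lt_iff₀ hl]
        linarith [mul_comm lam |W.X t w|]
      have h4 := g4 t ht w hw h3 h2
      rw [hT t ht w, abs_mul, abs_of_pos hl]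
      have h5 : lam * (2 * (r / lam) - W.eta) ≤ lam * |T t w| := mul_le_mul_of_nonneg_left h4 hl.le
      have h6 : lam * (2 * (r / lam) - W.eta) = 2 * r - lam * W.eta := by
        field_simp
      linarith
    · rw [hT t ht w, abs_mul, abs_of_pos hl] at h2
      have h4 : x / lam + W.eta ≤ |T t w| := by
        have h5 : lam * (x / lam + W.eta) ≤ lam * |T t w| := by
          rwa [mul_add, mul_div_cancel₀ _ hl.ne']
        exact le_of_mul_le_mul_left h5 hl
      have h5 : 2 * (r / lam) ≤ x / lam + W.eta := by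
        have h6 : lam * (2 * (r / lam)) ≤ lam * (x / lam + W.eta) := by
          rw [mul_add, mul_div_cancel₀ _ hl.ne']
          have h7 : lam * (2 * (r / lam)) = 2 * r := by field_simp
          linarith
        exact le_of_mul_le_mul_left h6 hl
      have h6 := g5 (x / lam) t ht w hw h5 h4 h3
      rw [abs_mul, abs_of_pos hl]
      rw [div_le_iff₀ hl] at h6
      linarith [mul_comm lam |W.X t w|]
    · rw [abs_mul, abs_of_pos hl] at h1
      rw [← mul_div_assoc, div_lt_iff₀ hl]
      linarith [mul_comm lam |W.X t w|]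

end

end Pool.Agent.GM
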