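import Pool.Agent.GM.NamFin
import Pool.Agent.GM.NVBinDef
import Pool.Agent.GMN.ExtBin

/-!
# GM/NamAt (helper52): from the final state of the names to `NamAt`

* `cap_On`, `cap_free` : the cut state keeps the introduced numbers and the coin free lists;
* **`namAt_of_final`** : a final state (`Done`, bounds, numbers introduced, lists of the hidden vertex empty, lists of the
  owners `u ≠ δ` coin free, known list `ez` which changes only with the known face, value of the process up to `eta`) on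
  `addCoins (binSys Θ Ξ Q σ a hN h) Ξ2` gives `NamAt` with `c = 1`, `J = n`, `q = 2 K B / M0`, `M = ((B + 1) M0 + 1) ^ n`.
-/

set_option autoImplicit false
set_option linter.unusedSectionVars false

namespace Pool.Agent.GM.Nam

open Finset Pool.Agent.PWZ Pool.Agent.M3 Pool.Agent.M3.TS Pool.Agent.GM Pool.Agent.GMN Pool.Agent.M3.Bin Pool.Agent.GM.KVer

noncomputable section

section cut

variable {ι Om Ξ Pt V Γ κ : Type} [Fintype ι] [DecidableEq ι] [Fintype Om] [Fintype Ξ] [Fintype Pt]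
  [Fintype V] {S : Sys ι Om Ξ Pt V Γ κ} {a : ι} {τ : NSt S a} {n B : ℕ} {A : ℝ} {dead : ℕ → Om → Prop}

theorem cap_On (h : τ.Bd n B A dead) (hOn : τ.On dead) : (τ.cap n B).On dead := by
  intro t ht w hw ζ hζ ν hν
  rw [NSt.cap_Z h ht hw] at hζ
  rw [NSt.cap_fams h ht hw] at hν
  exact hOn t ht w hw ζ hζ ν hν

/-- the cut list does not see what the list does not see -/
theorem cap_free {I : Finset ι} {L : Lst S I} {ξ ξ' : Ξ} (h : ∀ t g x, L.L t g ξ x = L.L t g ξ' x) (n t : ℕ) (g : Γ)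
    (x : ι → Pt) : (L.cap n).L t g ξ x = (L.cap n).L t g ξ' x := by
  show capG S.par L.unc n t g (ξ, x) = capG S.par L.unc n t g (ξ', x)
  exact capG_congr (x := (ξ, x)) (y := (ξ', x)) S.par L.unc n (fun s _ g => h s g x) g

theorem cap_cardL {u : ι} (hu : u ≠ a) (t : ℕ) (g : Γ) (ξ : Ξ) (x : ι → Pt) :
    (((τ.cap n B).Lam u).L t g ξ x).card ≤ n := by
  rw [τ.cap_Lam hu]
  exact capG_card S.par (τ.Lam u).unc n t g (ξ, x)

/-- a larger bound of the sum of the coefficients -/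
theorem Bd_mono {A' : ℝ} (h : τ.Bd n B A dead) (hA : A ≤ A') : τ.Bd n B A' dead :=
  { h with sum := fun t ht w hd => (h.sum t ht w hd).trans hA }

theorem cap_cardT {u : ι} (hu : u ≠ a) (l : ι) (t : ℕ) (g : Γ) (x : ι → Pt) :
    (((τ.cap n B).PT u l).L t g x).card ≤ B := by
  rw [τ.cap_PTu hu]
  exact capG_card S.par (τ.PT u l).L B t g x

end cut

section main

variable {k N : ℕ} {ι Θ Ξ Q : Type} [Fintype ι] [DecidableEq ι] [Fintype Θ] [Nonempty Θ] [Fintype Ξ] [Nonempty Ξ]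
  [Fintype Q] [Nonempty Q]

/-- **FROM THE FINAL STATE OF THE NAMES TO THE CONTRACT** -/
theorem namAt_of_final {σ : V k} {hN : N ≤ k} {h : ℕ} {a δ : ι}
    {F : ι → Mov Ξ ι (Q × V k) (Θ × (V k × ℕ)) (V k → ℝ)} {Ξ2 : Type} [Fintype Ξ2] [Nonempty Ξ2]
    {τ : NSt (addCoins (binSys Θ Ξ Q σ a hN h) Ξ2) a} {n B : ℕ} {A : ℝ} {dead : ℕ → (Sq k N ι Θ (Ξ × Q) × Ξ2) → Prop}
    (hBd : τ.Bd n B A dead) (hOn : τ.On dead) (hDone : τ.Done) (hLa : ∀ t g ξ x, (τ.Lam a).L t g ξ x = ∅)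
    (hfree : ∀ u, u ≠ a → u ≠ δ → ∀ t g z z' ξ x, (τ.Lam u).L t g (z, ξ) x = (τ.Lam u).L t g (z', ξ) x)
    {ez : ℕ → Θ × (V k × ℕ) → (ι → Q × V k) → Finset ℕ} (hZ : ∀ t g ξ x, τ.Z.L t g ξ x = ez t g x)
    (hch : ∀ t < N, ∀ w, ez (t + 1) ((binSys Θ Ξ Q σ a hN h).gm (t + 1) w) ((binSys Θ Ξ Q σ a hN h).x w) ≠
      ez t ((binSys Θ Ξ Q σ a hN h).gm t w) ((binSys Θ Ξ Q σ a hN h).x w) → cheN (binSys Θ Ξ Q σ a hN h) F a t w)
    (hF0 : ∀ g ξ x, F a 0 g ξ x = 0) {eta : ℝ}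
    (hval : ∀ t, 1 ≤ t → t ≤ N → ∀ w, ¬ dead t w → |pT (binSys Θ Ξ Q σ a hN h) univ F t w.1 - τ.T t w| ≤ eta)
    {M0 : ℕ} (hM0 : 0 < M0) (heta : 0 ≤ eta) {e r s : ℝ}
    (hPr : (coinFP (binSys Θ Ξ Q σ a hN h).P Ξ2).Pr (dead N) ≤ e)
    (hq : 2 * (binSys Θ Ξ Q σ a hN h).K * B / M0 ≤ e) (hr : eta ≤ r) (hJ : (n : ℝ) ≤ s)
    (hM : ((((B + 1) * M0 + 1) ^ n : ℕ) : ℝ) ≤ Real.exp s) (hAs : A ≤ Real.exp s) : NamAt σ hN h a δ F e r s := by
  classical
  wlog hA : 0 ≤ A generalizing A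
  · exact this (Bd_mono hBd (not_le.1 hA).le) (Real.exp_pos s).le le_rfl
  set ex := CExt.bin Θ Ξ Q Ξ2 σ a hN h with hex
  set dd : ℕ → Sq k N ι Θ ((Ξ × Ξ2) × Q) → Prop := fun t w => dead t (prC w, (vx a w).1.1.2) with hdd
  have hBd' : (ex.st τ).Bd n B A dd := ex.st_Bd hBd
  have hOn' : (ex.st τ).On dd := ex.st_On hOn
  have hBc : ((ex.st τ).cap n B).Bd n B A dd := NSt.cap_Bd hBd'
  have hcard : Fintype.card ι ≤ 2 ^ (h + Fintype.card ι - h + 2) + 1 := by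
    have h1 : Fintype.card ι < 2 ^ Fintype.card ι := Nat.lt_two_pow_self
    have h2 : (2 : ℕ) ^ Fintype.card ι ≤ 2 ^ (Fintype.card ι + 2) := Nat.pow_le_pow_right (by norm_num) (by omega)
    rw [Nat.add_sub_cancel_left]
    omega
  have hP := pubM (k := k) (N := N) (Θ := Θ) (Ξ := Ξ × Ξ2) (Q := Q) (σ := σ) a hN (h := h)
    (h' := h + Fintype.card ι) (Nat.le_add_right _ _) hcard
  have hez : ∀ t ≤ (binSys Θ (Ξ × Ξ2) Q σ a hN h).n, ∀ w, ¬ dd t w →
      ((ex.st τ).cap n B).Z.at' t w = ez t ((binSys Θ (Ξ × Ξ2) Q σ a hN h).gm t w)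
        ((binSys Θ (Ξ × Ξ2) Q σ a hN h).x w) := by
    intro t ht w hw
    rw [NSt.cap_Z hBd' ht hw, ex.st_Z]
    exact hZ t _ _ _
  have hez' : ∀ t g, Dep (univ.erase a) (ez t g) := by
    intro t g x y hxy
    obtain ⟨ξ⟩ : Nonempty (Ξ × Ξ2) := inferInstance
    rw [← hZ t g ξ x, ← hZ t g ξ y]
    exact τ.Z.dep t g ξ x y hxy
  have hLa' : ∀ t ≤ (binSys Θ (Ξ × Ξ2) Q σ a hN h).n, ∀ w, ¬ dd t w → ((ex.st τ).cap n B).lists t w a = ∅ := by
    intro t ht w hw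
    rw [NSt.cap_lists hBd' ht hw, ex.st_lists]
    exact hLa t _ _ _
  have hDc : ((ex.st τ).cap n B).Done := hDone
  have hOk := fin_ok (Q := QQ k N Θ (Ξ × Ξ2) Q a (h + Fintype.card ι)) (σ := (ex.st τ).cap n B) (ez := ez) (A := A)
    (n := n) (B := B) (dead := dd) hP hBc (cap_On hBd' hOn') hez hez' hA (fun u hu t g ξ x => cap_cardL hu t g ξ x)
    (fun u hu t g x => cap_cardT hu a t g x) (fun u hu ν => NSt.cap_bb_le _ hu n B ν) hM0
  refine ⟨Ξ2, inferInstance, inferInstance, Finset ℕ, Finset (ℕ × ℕ), h + Fintype.card ι,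
    fin ((ex.st τ).cap n B) ez A, 1, A, n, 2 * (binSys Θ Ξ Q σ a hN h).K * B / M0, eta, ((B + 1) * M0 + 1) ^ n, dd,
    Nat.le_add_right _ _, le_rfl, hcard, hOk, zero_le_one, heta, Nat.cast_nonneg _, ?_, ?_, ?_, ?_, hq, hr, hJ, hM, ?_⟩
  · -- coin free labels
    intro u hua hud t g z z' ξ x
    show lab ((ex.st τ).cap n B) u t g (z, ξ) x = lab ((ex.st τ).cap n B) u t g (z', ξ) x
    unfold lab
    have h1 : (((ex.st τ).cap n B).Lam u).L t g (z, ξ) x = (((ex.st τ).cap n B).Lam u).L t g (z', ξ) x := by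
      rw [(ex.st τ).cap_Lam hua]
      exact cap_free (L := (ex.st τ).Lam u) (fun t g x => hfree u hua hud t g z z' ξ x) n t g x
    rw [h1]
  · -- changes of the known label
    intro t ht w hw
    exact hch t ht (prC w) hw
  · -- the value
    intro t ht w hw hzr
    have ht1 : 1 ≤ t := by
      by_contra h0
      have h1 : t = 0 := by omega
      subst h1
      refine hzr ?_
      exact hF0 _ _ _
    have h1 := hval t ht1 ht (prC w, (vx a w).1.1.2) hw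
    have h2 := T_eq (A := A) hDc hBc hLa' hez (t := t) ht hw
    rw [NSt.cap_T hBd' ht hw, ex.st_T] at h2
    have h3 : pT (binSys Θ Ξ Q σ a hN h) univ F t (p2 w) = pT (binSys Θ Ξ Q σ a hN h) univ F t (prC w) := rfl
    rw [one_mul, h2, h3]
    exact h1
  · -- the dead points
    have h1 : Pm.Pr (dd N) = (coinFP (binSys Θ Ξ Q σ a hN h).P Ξ2).Pr (dead N) := ex.Pr (dead N)
    rw [h1]
    exact hPr
  · rw [one_mul]
    exact hAs

end main

end

end Pool.Agent.GM.Nam
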