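import Pool.Agent.M3.RdUp
import Pool.Agent.M3.Maj

/-!
# GM/RdD (helper95): Lemma D and Lemma D' of row G2B, abstract form (any number of labels)

`RA` = one view with the process: `Z t` = node with all known vertices (a filtration), functions `K v t` for every value
`v : Val` of all labels (`|K v|` a submartingale for `Z`, bounded by `Lam`), `vt` true value, `vr` recorded value, `T`,
errors `D0`, `utd t` = no label of the point is young at the end of level `t`, `ech t` = the known label changes at level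
`t+1`, `lch t` = some label `f_I` of the point changes at level `t+1`, `pcl t` = a closing of some `x_J`, `|J| >= 1`, of the
point happens at level `t+1`.
* `young_upc1`, `young_upc2`, `young_upcT`: in a young period the process of the recorded (true) value completes a
  canonical upcrossing at a level at which the point is not up to date; `young_mass`;
* `Dead r t`, `dead_le`, `dead_D1`, `dead_D2`: Lemma D (the masses of `d1`, `d2`, `d3` are inputs);
* `Dead' q t`, `dead'_le`, `dead'_X`, `dead'_T`: Lemma D'.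
Port of `M3/RdD` (helper7).
-/

set_option autoImplicit false
set_option linter.unusedSectionVars false

namespace Pool.Agent.GM

open Finset Pool.Agent.PWZ Pool.Agent.M3

/-- one view with the process, abstract -/
structure RA (Om : Type*) [Fintype Om] (κ : ℕ → Type*) (Val : Type*) where
  P : FP Om
  Z : ∀ t, Om → κ t
  K : Val → ℕ → Om → ℝ
  /-- true value of the labels -/
  vt : ℕ → Om → Val
  /-- recorded value of the labels -/
  vr : ℕ → Om → Val
  T : ℕ → Om → ℝ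
  D0 : ℕ → Om → Prop
  /-- up to date at the end of the level -/
  utd : ℕ → Om → Prop
  /-- the known label changes at level `t+1` -/
  ech : ℕ → Om → Prop
  /-- one of the other labels changes at level `t+1` -/
  lch : ℕ → Om → Prop
  /-- a closing of `x_J`, `|J| >= 1`, of the point at level `t+1` -/
  pcl : ℕ → Om → Prop
  Lam : ℝ
  eta : ℝ

namespace RA

noncomputable section

variable {Om : Type*} [Fintype Om] {κ : ℕ → Type*} {Val : Type*} (S : RA Om κ Val)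

/-- the true process -/
def Xt (t : ℕ) (w : Om) : ℝ := S.K (S.vt t w) t w

/-- the recorded process -/
def X (t : ℕ) (w : Om) : ℝ := S.K (S.vr t w) t w

/-- hypotheses -/
structure Hyp : Prop where
  filt : Filt S.Z
  Kf : ∀ v t, Fac (S.Z t) (S.K v t)
  Ks : ∀ v t w, S.P.p w ≠ 0 → |S.K v t w| ≤ S.P.ce (S.Z t) (fun z => |S.K v (t + 1) z|) w
  Kb : ∀ v t w, S.P.p w ≠ 0 → |S.K v t w| ≤ S.Lam
  D0i : ∀ t w, S.P.p w ≠ 0 → S.D0 t w → S.D0 (t + 1) w
  TX : ∀ t w, S.P.p w ≠ 0 → ¬ S.D0 t w → |S.T t w - S.Xt t w| ≤ S.eta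
  Lam0 : 0 ≤ S.Lam
  eta0 : 0 ≤ S.eta
  utd0 : ∀ w, S.utd 0 w
  /-- up to date: the recorded value is the true value -/
  eq : ∀ t w, S.P.p w ≠ 0 → ¬ S.D0 t w → S.utd t w → S.vr t w = S.vt t w
  /-- a young period begins with a change -/
  start : ∀ t w, S.utd t w → ¬ S.utd (t + 1) w → S.lch t w
  /-- no closing: the recorded value changes only with the known label -/
  vrc : ∀ t w, ¬ S.utd (t + 1) w → ¬ S.ech t w → ¬ S.pcl t w → S.vr (t + 1) w = S.vr t w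
  /-- no change: the true value stays -/
  vtc : ∀ t w, S.P.p w ≠ 0 → ¬ S.D0 (t + 1) w → ¬ S.ech t w → ¬ S.lch t w → S.vt (t + 1) w = S.vt t w
  /-- up to date and no change: the recorded value stays -/
  vrs : ∀ t w, S.P.p w ≠ 0 → ¬ S.D0 (t + 1) w → S.utd t w → ¬ S.ech t w → ¬ S.lch t w → S.vr (t + 1) w = S.vr t w

/-- `(i)` a label changes and the process is large (known label: only before the change) -/
def d1 (r : ℝ) (t : ℕ) (w : Om) : Prop :=
  (S.ech t w ∧ r ≤ |S.T t w|) ∨ (S.lch t w ∧ (r ≤ |S.T t w| ∨ r ≤ |S.T (t + 1) w|))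

/-- `(ii)` -/
def d2 (t : ℕ) (w : Om) : Prop := S.ech t w ∧ ¬ S.utd (t + 1) w

/-- `(iii)` -/
def d3 (t : ℕ) (w : Om) : Prop := S.pcl t w ∧ ¬ S.utd (t + 1) w

/-- `(iv)` -/
def d4 (r : ℝ) (t : ℕ) (w : Om) : Prop :=
  ¬ S.utd (t + 1) w ∧ (2 * r ≤ |S.X (t + 1) w| ∨ 2 * r ≤ |S.T (t + 1) w|)

/-- `(iv')` -/
def d5 (r : ℝ) (t : ℕ) (w : Om) : Prop := ¬ S.utd t w ∧ 2 * r ≤ |S.K (S.vr t w) (t + 1) w|

/-- the dead points of Lemma D -/
def Dead (r : ℝ) (t : ℕ) (w : Om) : Prop :=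
  S.D0 t w ∨ ∃ s < t, S.d1 r s w ∨ S.d2 s w ∨ S.d3 s w ∨ S.d4 r s w ∨ S.d5 r s w

/-- `(v)` -/
def d6 (q : ℝ) (t : ℕ) (w : Om) : Prop :=
  (¬ S.utd (t + 1) w ∧ q ≤ |S.X (t + 1) w|) ∨ (¬ S.utd t w ∧ q ≤ |S.K (S.vr t w) (t + 1) w|)

/-- the dead points of Lemma D' -/
def Dead' (q : ℝ) (t : ℕ) (w : Om) : Prop :=
  S.D0 t w ∨ ∃ s < t, S.d2 s w ∨ S.d3 s w ∨ S.d6 q s w

variable {S}

theorem dead_inc (h : S.Hyp) (r : ℝ) (t : ℕ) (w : Om) (hw : S.P.p w ≠ 0) (hd : S.Dead r t w) :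
    S.Dead r (t + 1) w := by
  rcases hd with hd | ⟨s, hs, hd⟩
  · exact Or.inl (h.D0i t w hw hd)
  · exact Or.inr ⟨s, by omega, hd⟩

theorem dead'_inc (h : S.Hyp) (q : ℝ) (t : ℕ) (w : Om) (hw : S.P.p w ≠ 0) (hd : S.Dead' q t w) :
    S.Dead' q (t + 1) w := by
  rcases hd with hd | ⟨s, hs, hd⟩
  · exact Or.inl (h.D0i t w hw hd)
  · exact Or.inr ⟨s, by omega, hd⟩

/-- off the errors and up to date: `|T - X| <= eta` -/
theorem TX' (h : S.Hyp) {t : ℕ} {w : Om} (hw : S.P.p w ≠ 0) (hd : ¬ S.D0 t w) (hu : S.utd t w) :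
    |S.T t w - S.X t w| ≤ S.eta := by
  have h1 := h.TX t w hw hd
  unfold Xt at h1
  unfold X
  rwa [h.eq t w hw hd hu]

theorem young_start (h : S.Hyp) {s : ℕ} {w : Om} (hu : ¬ S.utd s w) :
    ∃ s0, s0 < s ∧ S.utd s0 w ∧ ∀ t, s0 < t → t ≤ s → ¬ S.utd t w := by
  induction s with
  | zero => exact absurd (h.utd0 w) hu
  | succ s ih =>
    by_cases hs : S.utd s w
    · refine ⟨s, Nat.lt_succ_self s, hs, fun t h1 h2 => ?_⟩
      have : t = s + 1 := by omega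
      rw [this]; exact hu
    · obtain ⟨s0, h1, h2, h3⟩ := ih hs
      refine ⟨s0, by omega, h2, fun t h4 h5 => ?_⟩
      rcases Nat.lt_or_ge s t with h6 | h6
      · have : t = s + 1 := by omega
        rw [this]; exact hu
      · exact h3 t h4 h6

/-- the recorded value changes at no level of a young period -/
theorem vr_const (h : S.Hyp) {w : Om} {s0 s : ℕ} (hy : ∀ t, s0 < t → t ≤ s → ¬ S.utd t w)
    (h2 : ∀ t < s, ¬ S.d2 t w) (h3 : ∀ t < s, ¬ S.d3 t w) :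
    ∀ t, s0 ≤ t → t ≤ s → S.vr t w = S.vr s0 w := by
  intro t ht
  induction t, ht using Nat.le_induction with
  | base => intro _; rfl
  | succ t ht ih =>
    intro hts
    rw [← ih (by omega)]
    have hu := hy (t + 1) (by omega) hts
    exact h.vrc t w hu (fun he => h2 t (by omega) ⟨he, hu⟩) (fun hp => h3 t (by omega) ⟨hp, hu⟩)

/-- start of the young period: the recorded process is small there -/
theorem young_s0 (h : S.Hyp) {w : Om} {s : ℕ} {a : ℝ} (hu : ¬ S.utd s w)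
    (h2 : ∀ t < s, ¬ S.d2 t w) (h3 : ∀ t < s, ¬ S.d3 t w)
    (ha : ∀ t < s, S.utd t w → ¬ S.utd (t + 1) w → |S.X t w| < a) :
    ∃ s0, s0 < s ∧ S.utd s0 w ∧ (∀ t, s0 < t → t ≤ s → ¬ S.utd t w) ∧
      |S.K (S.vr s w) s0 w| < a := by
  obtain ⟨s0, h4, h5, h6⟩ := young_start h hu
  refine ⟨s0, h4, h5, h6, ?_⟩
  have hc := vr_const h h6 h2 h3
  have := ha s0 h4 h5 (h6 (s0 + 1) (by omega) (by omega))
  unfold X at this
  rwa [hc s h4.le le_rfl]

theorem young_upc1 (h : S.Hyp) {w : Om} {s : ℕ} {a b : ℝ} (hab : a ≤ b) (hu : ¬ S.utd s w)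
    (h2 : ∀ t < s, ¬ S.d2 t w) (h3 : ∀ t < s, ¬ S.d3 t w)
    (ha : ∀ t < s, S.utd t w → ¬ S.utd (t + 1) w → |S.X t w| < a)
    (hb : b ≤ |S.X s w|) :
    ∃ v l, l < s ∧ upc a b (fun t w => |S.K v t w|) l w ∧ ¬ S.utd (l + 1) w := by
  obtain ⟨s0, h4, _, h6, h7⟩ := young_s0 h hu h2 h3 ha
  unfold X at hb
  obtain ⟨l, hl1, hl2, hl3⟩ := exists_upc (Y := fun t w' => |S.K (S.vr s w) t w'|) (s0 := s0) (s := s)
    (w := w) hab h4.le h7 hb
  exact ⟨S.vr s w, l, hl2, hl3, h6 (l + 1) (by omega) (by omega)⟩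

theorem young_upc2 (h : S.Hyp) {w : Om} {s : ℕ} {a b : ℝ} (hab : a ≤ b) (hu : ¬ S.utd s w)
    (h2 : ∀ t < s, ¬ S.d2 t w) (h3 : ∀ t < s, ¬ S.d3 t w)
    (ha : ∀ t < s, S.utd t w → ¬ S.utd (t + 1) w → |S.X t w| < a)
    (hb : b ≤ |S.K (S.vr s w) (s + 1) w|) :
    ∃ v l, l ≤ s ∧ upc a b (fun t w => |S.K v t w|) l w ∧ (¬ S.utd (l + 1) w ∨ ¬ S.utd l w) := by
  obtain ⟨s0, h4, _, h6, h7⟩ := young_s0 h hu h2 h3 ha
  obtain ⟨l, hl1, hl2, hl3⟩ := exists_upc (Y := fun t w' => |S.K (S.vr s w) t w'|) (s0 := s0) (s := s + 1)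
    (w := w) hab (by omega) h7 hb
  rcases Nat.lt_or_ge l s with h8 | h8
  · exact ⟨S.vr s w, l, h8.le, hl3, Or.inl (h6 (l + 1) (by omega) (by omega))⟩
  · have : l = s := by omega
    exact ⟨S.vr s w, l, by omega, hl3, Or.inr (by rw [this]; exact hu)⟩

/-- young period, true value: with `(i)`, `(ii)` excluded -/
theorem young_upcT (h : S.Hyp) {w : Om} (hw : S.P.p w ≠ 0) {s : ℕ} {r : ℝ} (hr : 0 < r) (her : 2 * S.eta ≤ r)
    (hu : ¬ S.utd s w) (h0 : ¬ S.D0 s w) (h1 : ∀ t < s, ¬ S.d1 r t w) (h2 : ∀ t < s, ¬ S.d2 t w)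
    (hb : 2 * r ≤ |S.T s w|) :
    ∃ v l, l < s ∧ upc (r + S.eta) (2 * r - S.eta) (fun t w => |S.K v t w|) l w ∧ ¬ S.utd (l + 1) w := by
  obtain ⟨s0, h4, h5, h6⟩ := young_start h hu
  have hD0 : ∀ t ≤ s, ¬ S.D0 t w := fun t ht hd => h0 (S.P.inc_le h.D0i ht hw hd)
  -- the last change of the true value
  have key : ∀ k, s0 < k → k ≤ s → ∃ s1, s0 < s1 ∧ s1 ≤ k ∧ |S.T s1 w| < r ∧
      ∀ t, s1 ≤ t → t ≤ k → S.vt t w = S.vt s1 w := by
    have hchange : ∀ t, s0 ≤ t → t < s → S.vt (t + 1) w ≠ S.vt t w → |S.T (t + 1) w| < r := by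
      intro t ht1 ht2 hne
      have hu' := h6 (t + 1) (by omega) (by omega)
      have he : ¬ S.ech t w := fun hne' => h2 t ht2 ⟨hne', hu'⟩
      by_contra hT
      apply h1 t ht2
      refine Or.inr ⟨?_, Or.inr (not_lt.mp hT)⟩
      by_contra hn
      exact hne (h.vtc t w hw (hD0 (t + 1) (by omega)) he hn)
    intro k hk
    induction k, hk using Nat.le_induction with
    | base =>
      intro _
      refine ⟨s0 + 1, by omega, le_rfl, ?_, fun t ht1 ht2 => ?_⟩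
      · have hu' := h6 (s0 + 1) (by omega) (by omega)
        have hch : S.lch s0 w := h.start s0 w h5 hu'
        by_contra hT
        exact h1 s0 h4 (Or.inr ⟨hch, Or.inr (not_lt.mp hT)⟩)
      · have : t = s0 + 1 := by omega
        rw [this]
    | succ k hk ih =>
      intro hks
      obtain ⟨s1, g1, g2, g3, g4⟩ := ih (by omega)
      by_cases hne : S.vt (k + 1) w = S.vt k w
      · refine ⟨s1, g1, by omega, g3, fun t ht1 ht2 => ?_⟩
        rcases Nat.lt_or_ge k t with h7 | h7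
        · have : t = k + 1 := by omega
          rw [this, hne]
          exact g4 k g2 le_rfl
        · exact g4 t ht1 h7
      · refine ⟨k + 1, by omega, le_rfl, hchange k (by omega) (by omega) hne, fun t ht1 ht2 => ?_⟩
        have : t = k + 1 := by omega
        rw [this]
  obtain ⟨s1, g1, g2, g3, g4⟩ := key s h4 le_rfl
  have hs1 : s1 < s := by
    rcases Nat.lt_or_ge s1 s with h7 | h7
    · exact h7
    · have : s1 = s := by omega
      rw [this] at g3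
      linarith
  have h7 : |S.K (S.vt s w) s1 w| < r + S.eta := by
    have h8 := h.TX s1 w hw (hD0 s1 g2)
    unfold Xt at h8
    rw [← g4 s g2 le_rfl] at h8
    have h9 := abs_sub_abs_le_abs_sub (S.K (S.vt s w) s1 w) (S.T s1 w)
    rw [abs_sub_comm] at h9
    linarith
  have h8 : 2 * r - S.eta ≤ |S.K (S.vt s w) s w| := by
    have h9 := h.TX s w hw h0
    unfold Xt at h9
    have h10 := abs_sub_abs_le_abs_sub (S.T s w) (S.K (S.vt s w) s w)
    linarith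
  obtain ⟨l, hl1, hl2, hl3⟩ := exists_upc (Y := fun t w' => |S.K (S.vt s w) t w'|) (s0 := s1) (s := s)
    (w := w) (by linarith) hs1.le h7 h8
  exact ⟨S.vt s w, l, hl2, hl3, h6 (l + 1) (by omega) (by omega)⟩

/-! ## masses -/

/-- the point is not up to date with small probability given the node: `c` at the end of the level, `c'` given the next
node -/
structure Rare (S : RA Om κ Val) (c c' : ℝ) : Prop where
  now : ∀ t w, S.P.p w ≠ 0 → S.P.ce (S.Z t) (fun v => ind (¬ S.utd t v)) w ≤ c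
  nxt : ∀ t w, S.P.p w ≠ 0 → S.P.ce (S.Z (t + 1)) (fun v => ind (¬ S.utd t v)) w ≤ c'
  c0 : 0 ≤ c
  c0' : 0 ≤ c'

/-- upcrossings completed while the point is not up to date -/
theorem young_mass [Fintype Val] (h : S.Hyp) {c c' : ℝ} (hR : S.Rare c c') {a b : ℝ} (ha : 0 ≤ a) (hab : a < b)
    (n : ℕ) :
    S.P.Pr (fun w => ∃ v ∈ (univ : Finset Val), ∃ l ∈ range n,
      upc a b (fun t w => |S.K v t w|) l w ∧ (¬ S.utd (l + 1) w ∨ ¬ S.utd l w)) ≤
    (c + c') * ((Fintype.card Val : ℝ) * (S.Lam / (b - a))) := by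
  have hZ := h.filt
  have hab' : 0 < b - a := by linarith
  have hone : ∀ v, S.P.Pr (fun w => ∃ l ∈ range n,
      upc a b (fun t w => |S.K v t w|) l w ∧ (¬ S.utd (l + 1) w ∨ ¬ S.utd l w)) ≤
      (c + c') * (S.Lam / (b - a)) := by
    intro v
    have hY : ∀ t, Fac (S.Z t) (fun w => |S.K v t w|) := fun t => (h.Kf v t).comp _
    have h1 := S.P.upc_count (b := b) hZ hY (h.Ks v) ha h.Lam0 n (fun w hw => h.Kb v n w hw)
    have h2 := S.P.upc_weight (a := a) (b := b) (c := c) hZ hY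
      (S := fun t w => ¬ S.utd (t + 1) w)
      (fun t w hw => hR.now (t + 1) w hw) n
    have h3 := S.P.upc_weight (a := a) (b := b) (c := c') hZ hY
      (S := fun t w => ¬ S.utd t w)
      (fun t w hw => hR.nxt t w hw) n
    have h4 : S.P.Pr (fun w => ∃ l ∈ range n,
        upc a b (fun t w => |S.K v t w|) l w ∧ (¬ S.utd (l + 1) w ∨ ¬ S.utd l w)) ≤
        ∑ l ∈ range n, (S.P.Pr (fun w => upc a b (fun t w => |S.K v t w|) l w ∧ ¬ S.utd (l + 1) w) +
          S.P.Pr (fun w => upc a b (fun t w => |S.K v t w|) l w ∧ ¬ S.utd l w)) := by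
      refine (S.P.Pr_ex_le (range n) _).trans (Finset.sum_le_sum fun l _ => ?_)
      refine le_trans (S.P.Pr_mono fun w _ => ?_) (S.P.Pr_or_le _ _)
      rintro ⟨h5, h6 | h6⟩
      · exact Or.inl ⟨h5, h6⟩
      · exact Or.inr ⟨h5, h6⟩
    rw [Finset.sum_add_distrib] at h4
    have hc : 0 ≤ c + c' := add_nonneg hR.c0 hR.c0'
    have h5 : ∑ t ∈ range n, S.P.Pr (upc a b (fun t w => |S.K v t w|) t) ≤ S.Lam / (b - a) := by
      rw [le_div_iff₀ hab', mul_comm]; exact h1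
    have h6 : (c + c') * ∑ t ∈ range n, S.P.Pr (upc a b (fun t w => |S.K v t w|) t) ≤
        (c + c') * (S.Lam / (b - a)) := mul_le_mul_of_nonneg_left h5 hc
    linarith
  refine (S.P.Pr_ex_le univ _).trans ?_
  refine (Finset.sum_le_sum fun v _ => hone v).trans ?_
  rw [Finset.sum_const, nsmul_eq_mul, Finset.card_univ]
  linarith

/-! ## Lemma D -/

theorem dead_le [Fintype Val] (h : S.Hyp) {c c' : ℝ} (hR : S.Rare c c') {r : ℝ} (hr : 2 * S.eta < r) (n : ℕ)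
    {m1 m2 m3 : ℝ} (h1 : ∑ t ∈ range n, S.P.Pr (fun w => S.d1 r t w ∧ ¬ S.D0 (t + 1) w) ≤ m1)
    (h2 : ∑ t ∈ range n, S.P.Pr (S.d2 t) ≤ m2) (h3 : ∑ t ∈ range n, S.P.Pr (S.d3 t) ≤ m3) :
    S.P.Pr (S.Dead r n) ≤ S.P.Pr (S.D0 n) + m1 + m2 + m3 +
      (c + c') * ((Fintype.card Val : ℝ) * (S.Lam / (r - 2 * S.eta))) := by
  have heta := h.eta0
  have hpath : ∀ w, S.P.p w ≠ 0 → S.Dead r n w →
      (((S.D0 n w ∨ ∃ t ∈ range n, (S.d1 r t w ∧ ¬ S.D0 (t + 1) w)) ∨ ∃ t ∈ range n, S.d2 t w) ∨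
        ∃ t ∈ range n, S.d3 t w) ∨
      ∃ v ∈ (univ : Finset Val), ∃ l ∈ range n,
        upc (r + S.eta) (2 * r - S.eta) (fun t w => |S.K v t w|) l w ∧ (¬ S.utd (l + 1) w ∨ ¬ S.utd l w) := by
    intro w hw hd
    by_cases h0 : S.D0 n w
    · exact Or.inl (Or.inl (Or.inl (Or.inl h0)))
    by_cases g1 : ∃ t ∈ range n, (S.d1 r t w ∧ ¬ S.D0 (t + 1) w)
    · exact Or.inl (Or.inl (Or.inl (Or.inr g1)))
    by_cases g2 : ∃ t ∈ range n, S.d2 t w
    · exact Or.inl (Or.inl (Or.inr g2))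
    by_cases g3 : ∃ t ∈ range n, S.d3 t w
    · exact Or.inl (Or.inr g3)
    right
    have g1' : ∀ t < n, ¬ S.d1 r t w := fun t ht hd => g1 ⟨t, Finset.mem_range.mpr ht, hd,
      fun hd0 => h0 (S.P.inc_le h.D0i ht hw hd0)⟩
    have g2' : ∀ t < n, ¬ S.d2 t w := fun t ht hd => g2 ⟨t, Finset.mem_range.mpr ht, hd⟩
    have g3' : ∀ t < n, ¬ S.d3 t w := fun t ht hd => g3 ⟨t, Finset.mem_range.mpr ht, hd⟩
    have hD0 : ∀ t ≤ n, ¬ S.D0 t w := fun t ht hd => h0 (S.P.inc_le h.D0i ht hw hd)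
    have hsmall : ∀ t < n, S.utd t w → ¬ S.utd (t + 1) w → |S.X t w| < r + S.eta := by
      intro t ht hu hu'
      have h5 := h.start t w hu hu'
      have h6 : ¬ r ≤ |S.T t w| := fun h7 => g1' t ht (Or.inr ⟨h5, Or.inl h7⟩)
      have h7 := TX' h hw (hD0 t ht.le) hu
      have h8 := abs_sub_abs_le_abs_sub (S.X t w) (S.T t w)
      rw [abs_sub_comm] at h8
      linarith [not_le.mp h6]
    rcases hd with hd | ⟨s, hs, hd⟩
    · exact absurd hd h0
    rcases hd with hd | hd | hd | hd | hd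
    · exact absurd hd (g1' s hs)
    · exact absurd hd (g2' s hs)
    · exact absurd hd (g3' s hs)
    · obtain ⟨hu, hx⟩ := hd
      rcases hx with hx | hx
      · obtain ⟨v, l, hl, hl1, hl2⟩ := young_upc1 (S := S) h (w := w) (s := s + 1) (a := r + S.eta)
          (b := 2 * r - S.eta) (by linarith) hu (fun t ht => g2' t (by omega)) (fun t ht => g3' t (by omega))
          (fun t ht => hsmall t (by omega)) (by linarith)
        exact ⟨v, mem_univ _, l, Finset.mem_range.mpr (by omega), hl1, Or.inl hl2⟩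
      · obtain ⟨v, l, hl, hl1, hl2⟩ := young_upcT (S := S) h hw (s := s + 1) (r := r) (by linarith) (by linarith)
          hu (hD0 (s + 1) (by omega)) (fun t ht => g1' t (by omega)) (fun t ht => g2' t (by omega)) hx
        exact ⟨v, mem_univ _, l, Finset.mem_range.mpr (by omega), hl1, Or.inl hl2⟩
    · obtain ⟨hu, hx⟩ := hd
      obtain ⟨v, l, hl, hl1, hl2⟩ := young_upc2 (S := S) h (w := w) (s := s) (a := r + S.eta)
        (b := 2 * r - S.eta) (by linarith) hu (fun t ht => g2' t (by omega)) (fun t ht => g3' t (by omega))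
        (fun t ht => hsmall t (by omega)) (by linarith)
      exact ⟨v, mem_univ _, l, Finset.mem_range.mpr (by omega), hl1, hl2⟩
  have hm := young_mass (S := S) h hR (a := r + S.eta) (b := 2 * r - S.eta) (by linarith) (by linarith) n
  have e1 : 2 * r - S.eta - (r + S.eta) = r - 2 * S.eta := by ring
  rw [e1] at hm
  have hA := S.P.Pr_mono (t := fun w =>
      (((S.D0 n w ∨ ∃ t ∈ range n, (S.d1 r t w ∧ ¬ S.D0 (t + 1) w)) ∨ ∃ t ∈ range n, S.d2 t w) ∨
        ∃ t ∈ range n, S.d3 t w) ∨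
      ∃ v ∈ (univ : Finset Val), ∃ l ∈ range n,
        upc (r + S.eta) (2 * r - S.eta) (fun t w => |S.K v t w|) l w ∧ (¬ S.utd (l + 1) w ∨ ¬ S.utd l w)) hpath
  have hB := S.P.Pr_or_le (fun w => ((S.D0 n w ∨ ∃ t ∈ range n, (S.d1 r t w ∧ ¬ S.D0 (t + 1) w)) ∨
      ∃ t ∈ range n, S.d2 t w) ∨
      ∃ t ∈ range n, S.d3 t w) (fun w => ∃ v ∈ (univ : Finset Val), ∃ l ∈ range n,
        upc (r + S.eta) (2 * r - S.eta) (fun t w => |S.K v t w|) l w ∧ (¬ S.utd (l + 1) w ∨ ¬ S.utd l w))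
  have hC := S.P.Pr_or_le (fun w => (S.D0 n w ∨ ∃ t ∈ range n, (S.d1 r t w ∧ ¬ S.D0 (t + 1) w)) ∨
      ∃ t ∈ range n, S.d2 t w)
    (fun w => ∃ t ∈ range n, S.d3 t w)
  have hD := S.P.Pr_or_le (fun w => S.D0 n w ∨ ∃ t ∈ range n, (S.d1 r t w ∧ ¬ S.D0 (t + 1) w))
    (fun w => ∃ t ∈ range n, S.d2 t w)
  have hE := S.P.Pr_or_le (S.D0 n) (fun w => ∃ t ∈ range n, (S.d1 r t w ∧ ¬ S.D0 (t + 1) w))
  have k1 := (S.P.Pr_ex_le (range n) (fun t w => S.d1 r t w ∧ ¬ S.D0 (t + 1) w)).trans h1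
  have k2 := (S.P.Pr_ex_le (range n) S.d2).trans h2
  have k3 := (S.P.Pr_ex_le (range n) S.d3).trans h3
  linarith

/-- (D1) -/
theorem dead_D1 (h : S.Hyp) {r : ℝ} {t : ℕ} {w : Om} (hw : S.P.p w ≠ 0) (hd : ¬ S.Dead r t w)
    (hx : 2 * r ≤ |S.X t w| ∨ 2 * r ≤ |S.T t w|) : S.utd t w ∧ |S.T t w - S.X t w| ≤ S.eta := by
  have hu : S.utd t w := by
    cases t with
    | zero => exact h.utd0 w
    | succ t =>
      by_contra hu
      exact hd (Or.inr ⟨t, Nat.lt_succ_self t, Or.inr (Or.inr (Or.inr (Or.inl ⟨hu, hx⟩)))⟩)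
  exact ⟨hu, TX' h hw (fun h0 => hd (Or.inl h0)) hu⟩

/-- (D2) -/
theorem dead_D2 (h : S.Hyp) {r : ℝ} (hr : S.eta ≤ r) {t : ℕ} {w : Om} (hw : S.P.p w ≠ 0)
    (hd : ¬ S.Dead r (t + 1) w) (hx : 2 * r ≤ |S.X t w|) : S.vr (t + 1) w = S.vr t w := by
  have hd' : ¬ S.Dead r t w := fun hd' => hd (dead_inc h r t w hw hd')
  obtain ⟨hu, hT⟩ := dead_D1 h hw hd' (Or.inl hx)
  have h1 := abs_sub_abs_le_abs_sub (S.X t w) (S.T t w)
  rw [abs_sub_comm] at h1
  have hTr : r ≤ |S.T t w| := by linarith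
  have hd1 : ¬ S.d1 r t w := fun h2 => hd (Or.inr ⟨t, Nat.lt_succ_self t, Or.inl h2⟩)
  exact h.vrs t w hw (fun h0 => hd (Or.inl h0)) hu (fun he => hd1 (Or.inl ⟨he, hTr⟩))
    (fun hl => hd1 (Or.inr ⟨hl, Or.inl hTr⟩))

/-! ## Lemma D' -/

theorem dead'_le [Fintype Val] (h : S.Hyp) {c c' : ℝ} (hR : S.Rare c c') {p q : ℝ} (hp : 0 ≤ p) (hpq : p < q)
    (n : ℕ) (hT : ∀ t w, S.P.p w ≠ 0 → |S.T t w| + S.eta < p) {m2 m3 : ℝ}
    (h2 : ∑ t ∈ range n, S.P.Pr (S.d2 t) ≤ m2) (h3 : ∑ t ∈ range n, S.P.Pr (S.d3 t) ≤ m3) :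
    S.P.Pr (S.Dead' q n) ≤ S.P.Pr (S.D0 n) + m2 + m3 +
      (c + c') * ((Fintype.card Val : ℝ) * (S.Lam / (q - p))) := by
  have hpath : ∀ w, S.P.p w ≠ 0 → S.Dead' q n w →
      ((S.D0 n w ∨ ∃ t ∈ range n, S.d2 t w) ∨ ∃ t ∈ range n, S.d3 t w) ∨
      ∃ v ∈ (univ : Finset Val), ∃ l ∈ range n,
        upc p q (fun t w => |S.K v t w|) l w ∧ (¬ S.utd (l + 1) w ∨ ¬ S.utd l w) := by
    intro w hw hd
    by_cases h0 : S.D0 n w
    · exact Or.inl (Or.inl (Or.inl h0))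
    by_cases g2 : ∃ t ∈ range n, S.d2 t w
    · exact Or.inl (Or.inl (Or.inr g2))
    by_cases g3 : ∃ t ∈ range n, S.d3 t w
    · exact Or.inl (Or.inr g3)
    right
    have g2' : ∀ t < n, ¬ S.d2 t w := fun t ht hd => g2 ⟨t, Finset.mem_range.mpr ht, hd⟩
    have g3' : ∀ t < n, ¬ S.d3 t w := fun t ht hd => g3 ⟨t, Finset.mem_range.mpr ht, hd⟩
    have hD0 : ∀ t ≤ n, ¬ S.D0 t w := fun t ht hd => h0 (S.P.inc_le h.D0i ht hw hd)
    have hsmall : ∀ t < n, S.utd t w → ¬ S.utd (t + 1) w → |S.X t w| < p := by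
      intro t ht hu _
      have h7 := TX' h hw (hD0 t ht.le) hu
      have h8 := abs_sub_abs_le_abs_sub (S.X t w) (S.T t w)
      rw [abs_sub_comm] at h8
      linarith [hT t w hw]
    rcases hd with hd | ⟨s, hs, hd⟩
    · exact absurd hd h0
    rcases hd with hd | hd | ⟨hu, hx⟩ | ⟨hu, hx⟩
    · exact absurd hd (g2' s hs)
    · exact absurd hd (g3' s hs)
    · obtain ⟨v, l, hl, hl1, hl2⟩ := young_upc1 (S := S) h (w := w) (s := s + 1) (a := p)
          (b := q) hpq.le hu (fun t ht => g2' t (by omega)) (fun t ht => g3' t (by omega))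
          (fun t ht => hsmall t (by omega)) hx
      exact ⟨v, mem_univ _, l, Finset.mem_range.mpr (by omega), hl1, Or.inl hl2⟩
    · obtain ⟨v, l, hl, hl1, hl2⟩ := young_upc2 (S := S) h (w := w) (s := s) (a := p)
        (b := q) hpq.le hu (fun t ht => g2' t (by omega)) (fun t ht => g3' t (by omega))
        (fun t ht => hsmall t (by omega)) hx
      exact ⟨v, mem_univ _, l, Finset.mem_range.mpr (by omega), hl1, hl2⟩
  have hm := young_mass (S := S) h hR (a := p) (b := q) hp hpq n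
  have hA := S.P.Pr_mono (t := fun w =>
      ((S.D0 n w ∨ ∃ t ∈ range n, S.d2 t w) ∨ ∃ t ∈ range n, S.d3 t w) ∨
      ∃ v ∈ (univ : Finset Val), ∃ l ∈ range n,
        upc p q (fun t w => |S.K v t w|) l w ∧ (¬ S.utd (l + 1) w ∨ ¬ S.utd l w)) hpath
  have hB := S.P.Pr_or_le (fun w => (S.D0 n w ∨ ∃ t ∈ range n, S.d2 t w) ∨ ∃ t ∈ range n, S.d3 t w)
    (fun w => ∃ v ∈ (univ : Finset Val), ∃ l ∈ range n,
        upc p q (fun t w => |S.K v t w|) l w ∧ (¬ S.utd (l + 1) w ∨ ¬ S.utd l w))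
  have hC := S.P.Pr_or_le (fun w => S.D0 n w ∨ ∃ t ∈ range n, S.d2 t w) (fun w => ∃ t ∈ range n, S.d3 t w)
  have hD := S.P.Pr_or_le (S.D0 n) (fun w => ∃ t ∈ range n, S.d2 t w)
  have k2 := (S.P.Pr_ex_le (range n) S.d2).trans h2
  have k3 := (S.P.Pr_ex_le (range n) S.d3).trans h3
  linarith

/-- off `Dead'`: `|X| < q` -/
theorem dead'_X (h : S.Hyp) {p q : ℝ} (hpq : p ≤ q)
    (hT : ∀ t w, S.P.p w ≠ 0 → |S.T t w| + S.eta < p) {t : ℕ} {w : Om} (hw : S.P.p w ≠ 0)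
    (hd : ¬ S.Dead' q t w) : |S.X t w| < q := by
  by_cases hu : S.utd t w
  · have h7 := TX' h hw (fun h0 => hd (Or.inl h0)) hu
    have h8 := abs_sub_abs_le_abs_sub (S.X t w) (S.T t w)
    rw [abs_sub_comm] at h8
    linarith [hT t w hw]
  · cases t with
    | zero => exact absurd (h.utd0 w) hu
    | succ t =>
      by_contra hx
      exact hd (Or.inr ⟨t, Nat.lt_succ_self t, Or.inr (Or.inr (Or.inl ⟨hu, not_lt.mp hx⟩))⟩)

/-- off `Dead'` the process is close to `T` or the point is not up to date -/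
theorem dead'_T (h : S.Hyp) {q : ℝ} {t : ℕ} {w : Om} (hw : S.P.p w ≠ 0)
    (hd : ¬ S.Dead' q t w) : ¬ S.utd t w ∨ |S.T t w - S.X t w| ≤ S.eta := by
  by_cases hu : S.utd t w
  · exact Or.inr (TX' h hw (fun h0 => hd (Or.inl h0)) hu)
  · exact Or.inl hu

end

end RA

end Pool.Agent.GM
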