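import Pool.Agent.GM.RdR
import Pool.Agent.GM.RdD

/-!
# GM/RdT: recorded labels and the process, every set of known vertices (rows G2B.3, G2B.5 of table gm), helper7

`GRT` = `GRD` with the process: known label `e t` (a function of the node `Z t`), PLAIN labels `fp l t` (functions of the
extended label `f l` and of `Z t`, they change only if `f l` changes), functions `K v t` for every plain value
`v = (e, fp) : E × (L → F')`, `T t`, errors `D0`. `rp l` = recorded plain label (same recording times as `f l`).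
* `toRA`, `toRA_hyp`, `rare` : plugs into the abstract Lemma D (`GM/RdD`), so all theorems of `RA` hold for `S.toRA`;
* `dead_le`, `dead'_le` : Lemma D and Lemma D' with the masses of (ii), (iii);
* `rp_fac`, `vr_fac`, `vr_ne` : the recorded value is a function of the recorded extended labels and of the node; it changes
  only with `e` or at a recording of a young label.
-/

set_option autoImplicit false
set_option linter.unusedSectionVars false

namespace Pool.Agent.GM

open Finset Pool.Agent.PWZ Pool.Agent.M3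

/-- one view with the process -/
structure GRT (Om : Type*) [Fintype Om] (κ : ℕ → Type*) (α β ι L F E F' : Type*) extends
    GRD Om κ α β ι L F where
  e : ℕ → Om → E
  fp : L → ℕ → Om → F'
  K : E × (L → F') → ℕ → Om → ℝ
  T : ℕ → Om → ℝ
  D0 : ℕ → Om → Prop
  Lam : ℝ
  eta : ℝ

namespace GRT

noncomputable section

variable {Om : Type*} [Fintype Om] {κ : ℕ → Type*} {α β ι L F E F' : Type*} [Fintype ι] [DecidableEq ι]
  (S : GRT Om κ α β ι L F E F')

open Classical in
/-- recorded plain label -/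
def rp (l : L) : ℕ → Om → F'
  | 0, w => S.fp l 0 w
  | t + 1, w => if S.toGRD.cS l t w then S.fp l (t + 1) w else rp l t w

/-- true value -/
def vt (t : ℕ) (w : Om) : E × (L → F') := (S.e t w, fun l => S.fp l t w)

/-- recorded value -/
def vr (t : ℕ) (w : Om) : E × (L → F') := (S.e t w, fun l => S.rp l t w)

/-- the abstract view -/
def toRA : RA Om (fun t => (ι → β) × κ t) (E × (L → F')) where
  P := S.P
  Z := S.toGRD.Z
  K := S.K
  vt := S.vt
  vr := S.vr
  T := S.T
  D0 := S.D0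
  utd := S.toGRD.utd
  ech := fun t w => S.e (t + 1) w ≠ S.e t w
  lch := fun t w => ∃ l, S.f l (t + 1) w ≠ S.f l t w
  pcl := fun t w => ∃ J : Finset ι, J.Nonempty ∧ S.toGRD.cl J t w
  Lam := S.Lam
  eta := S.eta

/-- hypotheses -/
structure HypT : Prop where
  hyp : S.toGRD.Hyp
  fe : ∀ t, Fac (S.toGRD.Z t) (S.e t)
  /-- the plain labels are the components of the extended labels with a number known from the node -/
  fpf : ∀ l t, Fac (fun w => (S.f l t w, S.toGRD.Z t w)) (S.fp l t)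
  /-- a plain label changes only if the extended label changes -/
  cf : ∀ l t w, S.P.p w ≠ 0 → ¬ S.D0 (t + 1) w → S.f l (t + 1) w = S.f l t w → S.fp l (t + 1) w = S.fp l t w
  Kf : ∀ v t, Fac (S.toGRD.Z t) (S.K v t)
  Ks : ∀ v t w, S.P.p w ≠ 0 → |S.K v t w| ≤ S.P.ce (S.toGRD.Z t) (fun z => |S.K v (t + 1) z|) w
  Kb : ∀ v t w, S.P.p w ≠ 0 → |S.K v t w| ≤ S.Lam
  D0i : ∀ t w, S.P.p w ≠ 0 → S.D0 t w → S.D0 (t + 1) w
  TX : ∀ t w, S.P.p w ≠ 0 → ¬ S.D0 t w → |S.T t w - S.K (S.vt t w) t w| ≤ S.eta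
  Lam0 : 0 ≤ S.Lam
  eta0 : 0 ≤ S.eta

variable {S}

/-! ### the recorded plain labels -/

theorem rp_succ_of_not {l : L} {t : ℕ} {w : Om} (h : ¬ S.toGRD.cS l t w) : S.rp l (t + 1) w = S.rp l t w := by
  rw [rp, if_neg h]

theorem rp_succ_of {l : L} {t : ℕ} {w : Om} (h : S.toGRD.cS l t w) : S.rp l (t + 1) w = S.fp l (t + 1) w := by
  rw [rp, if_pos h]

theorem rp_utd (H : S.HypT) {l : L} {t : ℕ} {w : Om} (hw : S.P.p w ≠ 0) (hd : ¬ S.D0 t w)
    (h : ¬ S.toGRD.y t l w) : S.rp l t w = S.fp l t w := by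
  induction t with
  | zero => rfl
  | succ t ih =>
    rw [GRD.y_succ_iff] at h
    by_cases hc : S.toGRD.cS l t w
    · rw [rp_succ_of hc]
    · have hb : ¬ S.toGRD.b t l w := fun hb => h ⟨hb, hc⟩
      unfold GRD.b at hb
      push Not at hb
      rw [rp_succ_of_not hc, ih (fun h' => hd (H.D0i t w hw h')) hb.1, H.cf l t w hw hd hb.2]

/-- a recorded plain label changes only at a closing at which the extended label is young -/
theorem rp_ne (H : S.HypT) {l : L} {t : ℕ} {w : Om} (hw : S.P.p w ≠ 0) (hd : ¬ S.D0 (t + 1) w)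
    (h : S.rp l (t + 1) w ≠ S.rp l t w) : S.toGRD.cS l t w ∧ S.toGRD.b t l w := by
  by_cases hc : S.toGRD.cS l t w
  · refine ⟨hc, ?_⟩
    by_contra hb
    unfold GRD.b at hb
    push Not at hb
    apply h
    rw [rp_succ_of hc, rp_utd H hw (fun h' => hd (H.D0i t w hw h')) hb.1, H.cf l t w hw hd hb.2]
  · exact absurd (rp_succ_of_not hc) h

/-- the recorded plain label is a function of the recorded extended label and of the node -/
theorem rp_fac (H : S.HypT) (l : L) (t : ℕ) : Fac (fun w => (S.toGRD.rc l t w, S.toGRD.Z t w)) (S.rp l t) := by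
  induction t with
  | zero => exact H.fpf l 0
  | succ t ih =>
    intro v w hv
    have hv' := hv
    simp only [Prod.mk.injEq] at hv'
    obtain ⟨h1, h2⟩ := hv'
    have hc' : S.toGRD.cS l t v ↔ S.toGRD.cS l t w := GRD.cS_iff (GRD.Z_fac_ZJ _ (t + 1) v w h2)
    by_cases hc : S.toGRD.cS l t w
    · rw [rp_succ_of hc, rp_succ_of (hc'.2 hc)]
      rw [GRD.rc_succ_of hc, GRD.rc_succ_of (hc'.2 hc)] at h1
      exact H.fpf l (t + 1) v w (by simp only [h1, h2])
    · have hc2 : ¬ S.toGRD.cS l t v := fun h' => hc (hc'.1 h')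
      rw [rp_succ_of_not hc, rp_succ_of_not hc2]
      rw [GRD.rc_succ_of_not hc, GRD.rc_succ_of_not hc2] at h1
      exact ih v w (by simp only [h1, GRD.Z_filt H.hyp t v w h2])

/-- the recorded value is a function of the recorded extended labels and of the node -/
theorem vr_fac (H : S.HypT) (t : ℕ) :
    Fac (fun w => (S.toGRD.Z t w, fun l => S.toGRD.rc l t w)) (S.vr t) := by
  intro v w hv
  simp only [Prod.mk.injEq] at hv
  obtain ⟨h1, h2⟩ := hv
  unfold vr
  refine Prod.ext (H.fe t v w h1) (funext fun l => ?_)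
  exact rp_fac H l t v w (by
    have h3 := congrFun h2 l
    simp only [h1, h3])

/-- the recorded value is known in the view -/
theorem Vw_fac_vr (H : S.HypT) (t : ℕ) : Fac (S.toGRD.Vw t) (S.vr t) := by
  intro v w hv
  refine vr_fac H t v w ?_
  refine Prod.ext (GRD.Vw_fac_Z t v w hv) (funext fun l => ?_)
  exact GRD.Vw_fac_rc l t v w hv

theorem vr_eq (H : S.HypT) {t : ℕ} {w : Om} (hw : S.P.p w ≠ 0) (hd : ¬ S.D0 t w) (h : S.toGRD.utd t w) :
    S.vr t w = S.vt t w := by
  unfold vr vt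
  exact Prod.ext rfl (funext fun l => rp_utd H hw hd (h l))

/-- the recorded value changes only at a change of `e` or at a closing with a young label -/
theorem vr_ne (H : S.HypT) {t : ℕ} {w : Om} (hw : S.P.p w ≠ 0) (hd : ¬ S.D0 (t + 1) w)
    (h : S.vr (t + 1) w ≠ S.vr t w) :
    S.e (t + 1) w ≠ S.e t w ∨ ∃ l, S.toGRD.cS l t w ∧ S.toGRD.b t l w := by
  by_contra hn
  push Not at hn
  obtain ⟨h1, h2⟩ := hn
  apply h
  unfold vr
  refine Prod.ext h1 (funext fun l => ?_)
  by_contra hne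
  have h3 := rp_ne H hw hd hne
  exact h2 l h3.1 h3.2

/-! ### the abstract view -/

theorem toRA_hyp (H : S.HypT) : S.toRA.Hyp where
  filt := GRD.Z_filt H.hyp
  Kf := H.Kf
  Ks := H.Ks
  Kb := H.Kb
  D0i := H.D0i
  TX := H.TX
  Lam0 := H.Lam0
  eta0 := H.eta0
  utd0 := S.toGRD.utd_zero
  eq _ _ hw hd hu := vr_eq H hw hd hu
  start _ _ hu hu' := GRD.change_of_start hu hu'
  vrc t w hu he hp := by
    have he' : S.e (t + 1) w = S.e t w := not_not.1 he
    have hp' : ∀ J : Finset ι, J.Nonempty → ¬ S.toGRD.cl J t w := fun J hJ hc => hp ⟨J, hJ, hc⟩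
    show S.vr (t + 1) w = S.vr t w
    unfold vr
    refine Prod.ext he' (funext fun l => rp_succ_of_not ?_)
    rintro ⟨J, _, hc⟩
    rcases Finset.eq_empty_or_nonempty J with h1 | h1
    · rw [h1] at hc
      exact hu (GRD.utd_of_cl hc)
    · exact hp' J h1 hc
  vtc t w hw hd he hl := by
    have he' : S.e (t + 1) w = S.e t w := not_not.1 he
    show S.vt (t + 1) w = S.vt t w
    unfold vt
    refine Prod.ext he' (funext fun l => H.cf l t w hw hd ?_)
    by_contra hne
    exact hl ⟨l, hne⟩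
  vrs t w hw hd hu he hl := by
    have he' : S.e (t + 1) w = S.e t w := not_not.1 he
    show S.vr (t + 1) w = S.vr t w
    unfold vr
    refine Prod.ext he' (funext fun l => ?_)
    by_contra hne
    rcases (rp_ne H hw hd hne).2 with hb | hb
    · exact hu l hb
    · exact hl ⟨l, hb⟩

section counts

variable [Fintype L]

theorem rare (H : S.HypT) : S.toRA.Rare (Fintype.card L * S.toGRD.top) (2 * (Fintype.card L * S.toGRD.top)) where
  now t _ hw := GRD.utd_Z H.hyp t hw
  nxt t _ hw := GRD.utd_Z_succ H.hyp t hw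
  c0 := mul_nonneg (Nat.cast_nonneg _) (GRD.top_pos H.hyp).le
  c0' := mul_nonneg (by norm_num) (mul_nonneg (Nat.cast_nonneg _) (GRD.top_pos H.hyp).le)

/-- mass of (ii) -/
theorem d2_mass (H : S.HypT) (n : ℕ) {ne : ℝ}
    (he : ∑ t ∈ range n, S.P.Pr (fun w => S.e (t + 1) w ≠ S.e t w) ≤ ne) :
    ∑ t ∈ range n, S.P.Pr (S.toRA.d2 t) ≤ Fintype.card L * S.toGRD.top * ne := by
  have h1 := GRD.ev_young_sum (R := S.toGRD) H.hyp (s := fun t w => S.e (t + 1) w ≠ S.e t w) n (fun t v w hv => by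
    rw [H.fe (t + 1) v w hv, H.fe t v w (GRD.Z_filt H.hyp t v w hv)])
  have h2 : 0 ≤ Fintype.card L * S.toGRD.top := mul_nonneg (Nat.cast_nonneg _) (GRD.top_pos H.hyp).le
  exact h1.trans (mul_le_mul_of_nonneg_left he h2)

/-- mass of (iii) -/
theorem d3_mass (H : S.HypT) (n : ℕ) :
    ∑ t ∈ range n, S.P.Pr (S.toRA.d3 t) ≤
      2 ^ Fintype.card ι * (Fintype.card L * S.toGRD.top * S.toGRD.ntot n) := GRD.d3_sum H.hyp n

/-- **Lemma D** -/
theorem dead_le [DecidableEq L] [Fintype E] [Fintype F'] (H : S.HypT) {r : ℝ} (hr : 2 * S.eta < r) (n : ℕ)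
    {m1 ne N : ℝ} (h1 : ∑ t ∈ range n, S.P.Pr (fun w => S.toRA.d1 r t w ∧ ¬ S.D0 (t + 1) w) ≤ m1)
    (he : ∑ t ∈ range n, S.P.Pr (fun w => S.e (t + 1) w ≠ S.e t w) ≤ ne)
    (hN : S.toGRD.ntot n ≤ N) :
    S.P.Pr (S.toRA.Dead r n) ≤ S.P.Pr (S.D0 n) + m1 +
      Fintype.card L * S.toGRD.top * (ne + 2 ^ Fintype.card ι * N +
        3 * ((Fintype.card (E × (L → F')) : ℝ) * (S.Lam / (r - 2 * S.eta)))) := by
  have h2 := d2_mass H n he
  have h3 := d3_mass H n
  have h4 := RA.dead_le (S := S.toRA) (toRA_hyp H) (rare H) hr n h1 h2 h3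
  have h5 : 0 ≤ Fintype.card L * S.toGRD.top := mul_nonneg (Nat.cast_nonneg _) (GRD.top_pos H.hyp).le
  have h6 : 2 ^ Fintype.card ι * (Fintype.card L * S.toGRD.top * S.toGRD.ntot n) ≤
      2 ^ Fintype.card ι * (Fintype.card L * S.toGRD.top * N) :=
    mul_le_mul_of_nonneg_left (mul_le_mul_of_nonneg_left hN h5) (by positivity)
  refine h4.trans ?_
  have e1 : S.toRA.P = S.P := rfl
  have e2 : S.toRA.D0 = S.D0 := rfl
  have e3 : S.toRA.Lam = S.Lam := rfl
  have e4 : S.toRA.eta = S.eta := rfl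
  rw [e1, e2, e3, e4]
  linarith

/-- **Lemma D'** -/
theorem dead'_le [DecidableEq L] [Fintype E] [Fintype F'] (H : S.HypT) {p q : ℝ} (hp : 0 ≤ p) (hpq : p < q)
    (n : ℕ) (hT : ∀ t w, S.P.p w ≠ 0 → |S.T t w| + S.eta < p) {ne N : ℝ}
    (he : ∑ t ∈ range n, S.P.Pr (fun w => S.e (t + 1) w ≠ S.e t w) ≤ ne)
    (hN : S.toGRD.ntot n ≤ N) :
    S.P.Pr (S.toRA.Dead' q n) ≤ S.P.Pr (S.D0 n) +
      Fintype.card L * S.toGRD.top * (ne + 2 ^ Fintype.card ι * N +
        3 * ((Fintype.card (E × (L → F')) : ℝ) * (S.Lam / (q - p)))) := by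
  have h2 := d2_mass H n he
  have h3 := d3_mass H n
  have h4 := RA.dead'_le (S := S.toRA) (toRA_hyp H) (rare H) hp hpq n hT h2 h3
  have h5 : 0 ≤ Fintype.card L * S.toGRD.top := mul_nonneg (Nat.cast_nonneg _) (GRD.top_pos H.hyp).le
  have h6 : 2 ^ Fintype.card ι * (Fintype.card L * S.toGRD.top * S.toGRD.ntot n) ≤
      2 ^ Fintype.card ι * (Fintype.card L * S.toGRD.top * N) :=
    mul_le_mul_of_nonneg_left (mul_le_mul_of_nonneg_left hN h5) (by positivity)
  refine h4.trans ?_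
  have e1 : S.toRA.P = S.P := rfl
  have e2 : S.toRA.D0 = S.D0 := rfl
  have e3 : S.toRA.Lam = S.Lam := rfl
  rw [e1, e2, e3]
  linarith

end counts

end

end GRT

end Pool.Agent.GM
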