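import Pool.Agent.M3.RdN
import Pool.Agent.M3.Nz
import Pool.Agent.GM.RdT

/-!
# GM/RdNum (helper95): from labels of any type to labels with finitely many values, every set of known vertices

Port of `M3/RdNum` and of the abstract part of `M3/RdRaw` (helper7, helper52) to index sets, any type `O` of options.
Extended labels `f l t w : O → F'` = the labels at the options; `ix t w` = number of the true option (a function of the
node `Z t`), plain label `fp l t w = f l t w (ix t w)`.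
`HypR` = `HypT` where the submartingale property and the bound of `K v t` are only required for the values `v` which have
occurred on the path (`occ`, at some option), labels of ANY type. `numd S ix M` = the numbered process (labels in
`Fin (M+1)`, `M3/RdN` on `Om × O`: one list for all options of the label `l`, public map `ZJ (S l)`), errors = old errors
or a list of values longer than `M`.
* `numd_hyp : S.HypR ix -> (S.numd ix M).HypT`, `numd_f`, `numd_e`: the numbered labels change only if the labels change;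
  `numd_d1`, `numd_lch`; `numd_T`, `numd_P`, `numd_Z`, `numd_D0`: the process is the same, the errors;
* `mnA_vr` the recorded numbers have a meaning, `Kn_step` the steps of the numbered functions, `Kn_zer`;
* `rlst_len_chg`, `num_mng'`, `mng_le`, `num_one` : lists; `ovfA_Pr` : mass of the overflow.
-/

set_option autoImplicit false
set_option linter.unusedSectionVars false

namespace Pool.Agent.GM

open Finset Pool.Agent.PWZ Pool.Agent.M3

/-! ## lists -/

namespace Nm

section lists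

variable {Om : Type*} [Fintype Om] {κ : ℕ → Type*} {F : Type*} {Y : ∀ t, Om → κ t} {x : ℕ → Om → F}

/-- the list of a public label has at most `1 + number of changes` values -/
theorem rlst_len_chg (hx : ∀ t, Fac (Y t) (x t)) (t : ℕ) (w : Om) :
    (rlst Y x t w).length ≤ 1 + Nz.cn (fun s => x (s + 1) w ≠ x s w) t := by
  classical
  have hv : ∀ t, rvals Y x t w = {x t w} := by
    intro t
    ext l
    rw [mem_vals, Finset.mem_singleton]
    constructor
    · rintro ⟨w', h1, h2⟩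
      rw [← h2]
      exact hx t w' w h1
    · intro h
      exact ⟨w, rfl, h.symm⟩
  induction t with
  | zero =>
    unfold rlst
    rw [hv 0, Finset.length_toList, Finset.card_singleton]
    omega
  | succ t ih =>
    unfold rlst
    rw [List.length_append, Finset.length_toList, hv (t + 1)]
    by_cases h : x (t + 1) w ≠ x t w
    · rw [Nz.cn_succ_of h]
      have h1 : (({x (t + 1) w} : Finset F) \ (rlst Y x t w).toFinset).card ≤ 1 := by
        refine (Finset.card_le_card Finset.sdiff_subset).trans ?_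
        rw [Finset.card_singleton]
      omega
    · rw [Nz.cn_succ_not h]
      push Not at h
      have h1 : ({x (t + 1) w} : Finset F) \ (rlst Y x t w).toFinset = ∅ := by
        rw [Finset.sdiff_eq_empty_iff_subset, h, Finset.singleton_subset_iff, List.mem_toFinset]
        exact mem_rlst_self t w
      rw [h1, Finset.card_empty]
      omega

/-- the number has a meaning, also when the list overflows -/
theorem num_mng' (M t : ℕ) (w : Om) : mng Y x (num Y x M t w) t w := by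
  classical
  unfold mng num
  simp only
  exact lt_of_le_of_lt (min_le_left _ _) (List.idxOf_lt_length_iff.2 (mem_rlst_self t w))

theorem mng_le {M : ℕ} {n : Fin (M + 1)} {s t : ℕ} (hst : s ≤ t) {w : Om} (h : mng Y x n s w) : mng Y x n t w :=
  lt_of_lt_of_le h (rlst_length_mono hst w)

/-- a label with at most one value has a list with one element -/
theorem rlst_one [Subsingleton F] (t : ℕ) (w : Om) : (rlst Y x t w).length ≤ 1 := by
  classical
  rw [← List.toFinset_card_of_nodup (rlst_nodup t w)]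
  exact Finset.card_le_one_of_subsingleton _

/-- a label with at most one value has the number `0` -/
theorem num_one [Subsingleton F] (M t : ℕ) (w : Om) : num Y x M t w = 0 := by
  classical
  have h1 := rlst_one (Y := Y) (x := x) t w
  have h2 : ((num Y x M t w : Fin (M + 1)) : ℕ) < (rlst Y x t w).length := num_mng' M t w
  refine Fin.ext ?_
  show ((num Y x M t w : Fin (M + 1)) : ℕ) = ((0 : Fin (M + 1)) : ℕ)
  rw [Fin.val_zero]
  omega

/-- a number with a meaning is the number of a value of the list -/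
theorem mem_of_mng {M : ℕ} {i : Fin (M + 1)} {t : ℕ} {w : Om} (h : mng Y x i t w) : dec Y x i t w ∈ rlst Y x t w := by
  unfold dec
  unfold mng at h
  rw [List.getD_eq_getElem _ _ h]
  exact List.getElem_mem h

end lists

/-! ## options -/

section opt

variable {Om : Type*} {O : Type*}

/-- the public map on `Om × O` -/
def tw {κ : ℕ → Type*} (Y : ∀ t, Om → κ t) (t : ℕ) (p : Om × O) : κ t := Y t p.1

/-- the components on `Om × O` -/
def cp {F : Type*} (x : ℕ → Om → O → F) (t : ℕ) (p : Om × O) : F := x t p.1 p.2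

theorem tw_filt {κ : ℕ → Type*} {Y : ∀ t, Om → κ t} (h : Filt Y) : Filt (tw (O := O) Y) :=
  fun t v w hv => h t v.1 w.1 hv

variable [Fintype Om] [Fintype O] {κ : ℕ → Type*} {F : Type*} {Y : ∀ t, Om → κ t} {x : ℕ → Om → O → F}

/-- the same value has the same number -/
theorem num_val_stay (hY : Filt Y) {M t : ℕ} {w : Om} {i j : O} (h : x (t + 1) w i = x t w j) :
    num (tw Y) (cp x) M (t + 1) (w, i) = num (tw Y) (cp x) M t (w, j) := by
  classical
  unfold num
  refine Fin.ext ?_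
  simp only
  congr 1
  have e1 : cp x (t + 1) (w, i) = cp x t (w, j) := h
  rw [e1]
  have h1 := mem_rlst_self (Y := tw Y) (x := cp x) t (w, j)
  have h2 : rlst (tw Y) (cp x) t (w, j) = rlst (tw Y) (cp x) t (w, i) := rlst_fac (tw_filt hY) t rfl
  obtain ⟨m, hm⟩ := rlst_pre (Y := tw Y) (x := cp x) t (w, i)
  rw [← hm, ← h2, List.idxOf_append_of_mem h1]

/-- off the overflow the number determines the value -/
theorem val_of_num {M t : ℕ} {w : Om} {i : O} (h : ¬ ovf (tw Y) (cp x) M (t + 1) (w, i))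
    (hn : num (tw Y) (cp x) M (t + 1) (w, i) = num (tw Y) (cp x) M t (w, i)) : x (t + 1) w i = x t w i := by
  have h' : ¬ ovf (tw Y) (cp x) M t (w, i) := fun h0 => h (ovf_inc M t (w, i) h0)
  have h1 := dec_num h
  have h2 := dec_num h'
  rw [hn, dec_stay (num_mng h')] at h1
  rw [h2] at h1
  exact h1.symm

/-- decoding of a component -/
theorem dec_cp (hY : Filt Y) {M t : ℕ} {w : Om} {o : O} (h : ¬ ovf (tw Y) (cp x) M t (w, o)) (i : O) :
    mng (tw Y) (cp x) (num (tw Y) (cp x) M t (w, i)) t (w, o) ∧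
      dec (tw Y) (cp x) (num (tw Y) (cp x) M t (w, i)) t (w, o) = x t w i := by
  have h' : ¬ ovf (tw Y) (cp x) M t (w, i) := by
    rwa [ovf_iff (tw_filt hY) M t (v := (w, i)) (w := (w, o)) rfl]
  have h1 := num_mng h'
  have h2 := dec_num h'
  have h3 : mng (tw Y) (cp x) (num (tw Y) (cp x) M t (w, i)) t (w, o) := by
    rwa [mng_iff (tw_filt hY) _ t (v := (w, o)) (w := (w, i)) rfl]
  refine ⟨h3, ?_⟩
  rw [dec_fac (tw_filt hY) (v := (w, o)) (w := (w, i)) rfl h1]
  exact h2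

/-- the number of any option has a meaning -/
theorem mng_cp (hY : Filt Y) (M t : ℕ) (w : Om) (o i : O) :
    mng (tw Y) (cp x) (num (tw Y) (cp x) M t (w, i)) t (w, o) := by
  rw [mng_iff (tw_filt hY) _ t (v := (w, o)) (w := (w, i)) rfl]
  exact num_mng' M t (w, i)

/-- values of the list: the options at the points of the class -/
theorem mem_rlst_cp {t : ℕ} {w : Om} {o : O} {v : F} :
    v ∈ rlst (tw Y) (cp x) t (w, o) ↔ ∃ s ≤ t, ∃ w' i, Y s w' = Y s w ∧ x s w' i = v := by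
  rw [mem_rlst]
  constructor
  · rintro ⟨s, hs, h⟩
    obtain ⟨p, h1, h2⟩ := mem_vals.1 h
    exact ⟨s, hs, p.1, p.2, h1, h2⟩
  · rintro ⟨s, hs, w', i, h1, h2⟩
    exact ⟨s, hs, mem_vals.2 ⟨(w', i), h1, h2⟩⟩

end opt

end Nm

open Nm

namespace GRT

noncomputable section

variable {Om : Type*} [Fintype Om] {κ : ℕ → Type*} {α β ι L O E F' : Type*} [Fintype ι] [DecidableEq ι] [Fintype O]
  [Inhabited O] (S : GRT Om κ α β ι L (O → F') E F') (ix : ℕ → Om → O)

/-- the list of the values of the label `l` (all options) -/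
def ls (l : L) (t : ℕ) (w : Om) : List F' :=
  rlst (tw (O := O) (S.toGRD.ZJ (S.S l))) (cp (S.f l)) t (w, default)

/-- the value has occurred on the path (at some option) -/
def occ (v : E × (L → F')) (t : ℕ) (w : Om) : Prop :=
  v.1 ∈ rlst S.toGRD.Z S.e t w ∧ ∀ l, v.2 l ∈ S.ls l t w

/-- hypotheses, labels of any type -/
structure HypR : Prop where
  hyp : S.toGRD.Hyp
  fe : ∀ t, Fac (S.toGRD.Z t) (S.e t)
  ixf : ∀ t, Fac (S.toGRD.Z t) (ix t)
  fpx : ∀ l t w, S.fp l t w = S.f l t w (ix t w)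
  cf : ∀ l t w, S.P.p w ≠ 0 → ¬ S.D0 (t + 1) w → S.f l (t + 1) w = S.f l t w → S.fp l (t + 1) w = S.fp l t w
  Kf : ∀ v t, Fac (S.toGRD.Z t) (S.K v t)
  Ks : ∀ v t w, S.P.p w ≠ 0 → S.occ v t w →
    |S.K v t w| ≤ S.P.ce (S.toGRD.Z t) (fun z => |S.K v (t + 1) z|) w
  Kb : ∀ v t w, S.P.p w ≠ 0 → S.occ v t w → |S.K v t w| ≤ S.Lam
  D0i : ∀ t w, S.P.p w ≠ 0 → S.D0 t w → S.D0 (t + 1) w
  TX : ∀ t w, S.P.p w ≠ 0 → ¬ S.D0 t w → |S.T t w - S.K (S.vt t w) t w| ≤ S.eta
  Lam0 : 0 ≤ S.Lam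
  eta0 : 0 ≤ S.eta

/-- decoded value -/
def dcd {M : ℕ} (v : Fin (M + 1) × (L → Fin (M + 1))) (t : ℕ) (w : Om) : E × (L → F') :=
  (dec S.toGRD.Z S.e v.1 t w, fun l => dec (tw (O := O) (S.toGRD.ZJ (S.S l))) (cp (S.f l)) (v.2 l) t (w, default))

/-- all numbers have a meaning -/
def mnA {M : ℕ} (v : Fin (M + 1) × (L → Fin (M + 1))) (t : ℕ) (w : Om) : Prop :=
  mng S.toGRD.Z S.e v.1 t w ∧
    ∀ l, mng (tw (O := O) (S.toGRD.ZJ (S.S l))) (cp (S.f l)) (v.2 l) t (w, default)

/-- some list is too long -/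
def ovfA (M : ℕ) (t : ℕ) (w : Om) : Prop :=
  ovf S.toGRD.Z S.e M t w ∨ ∃ l, ovf (tw (O := O) (S.toGRD.ZJ (S.S l))) (cp (S.f l)) M t (w, default)

open Classical in
/-- a family of functions of the values, at the numbers -/
def Kn (M : ℕ) (K : E × (L → F') → ℕ → Om → ℝ) (v : Fin (M + 1) × (L → Fin (M + 1))) (t : ℕ) (w : Om) : ℝ :=
  if S.mnA v t w then K (S.dcd v t w) t w else 0

/-- the numbered process -/
def numd (M : ℕ) : GRT Om κ α β ι L (O → Fin (M + 1)) (Fin (M + 1)) (Fin (M + 1)) where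
  P := S.P
  Q := S.Q
  A := S.A
  X := S.X
  S := S.S
  f := fun l t w i => num (tw (S.toGRD.ZJ (S.S l))) (cp (S.f l)) M t (w, i)
  al := S.al
  e := num S.toGRD.Z S.e M
  fp := fun l t w => num (tw (S.toGRD.ZJ (S.S l))) (cp (S.f l)) M t (w, ix t w)
  K := S.Kn M S.K
  T := S.T
  D0 := fun t w => S.D0 t w ∨ S.ovfA M t w
  Lam := S.Lam
  eta := S.eta

variable {S ix}

theorem numd_T (M : ℕ) : (S.numd ix M).T = S.T := rfl
theorem numd_P (M : ℕ) : (S.numd ix M).P = S.P := rfl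
theorem numd_Q (M : ℕ) : (S.numd ix M).Q = S.Q := rfl
theorem numd_K (M : ℕ) : (S.numd ix M).K = S.Kn M S.K := rfl
theorem numd_Z (M : ℕ) (t : ℕ) : (S.numd ix M).toGRD.Z t = S.toGRD.Z t := rfl
theorem numd_ZJ (M : ℕ) (J : Finset ι) (t : ℕ) : (S.numd ix M).toGRD.ZJ J t = S.toGRD.ZJ J t := rfl
theorem numd_AQ (M : ℕ) (J : Finset ι) (t : ℕ) : (S.numd ix M).toGRD.AQ J t = S.toGRD.AQ J t := rfl
theorem numd_D0 (M : ℕ) (t : ℕ) (w : Om) : (S.numd ix M).D0 t w ↔ S.D0 t w ∨ S.ovfA M t w := Iff.rfl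
theorem numd_Lam (M : ℕ) : (S.numd ix M).Lam = S.Lam := rfl
theorem numd_eta (M : ℕ) : (S.numd ix M).eta = S.eta := rfl
theorem numd_top (M : ℕ) : (S.numd ix M).toGRD.top = S.toGRD.top := rfl

theorem ZJ_filt' (hQ : Filt S.Q) (J : Finset ι) : Filt (S.toGRD.ZJ J) := by
  intro t v w hv
  rw [GRD.ZJ_eq] at hv ⊢
  exact ⟨hv.1, hQ t v w hv.2⟩

theorem Z_filt' (hQ : Filt S.Q) : Filt S.toGRD.Z := by
  intro t v w hv
  rw [GRD.Z_eq] at hv ⊢
  exact ⟨hv.1, hQ t v w hv.2⟩

theorem numd_f (hQ : Filt S.Q) {M t : ℕ} {l : L} {w : Om}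
    (h : (S.numd ix M).f l (t + 1) w ≠ (S.numd ix M).f l t w) : S.f l (t + 1) w ≠ S.f l t w :=
  fun h' => h (funext fun i => num_val_stay (ZJ_filt' hQ _) (congrFun h' i))

theorem numd_e {M t : ℕ} {w : Om} (h : (S.numd ix M).e (t + 1) w ≠ (S.numd ix M).e t w) :
    S.e (t + 1) w ≠ S.e t w := fun h' => h (num_stay h')

theorem numd_lch (hQ : Filt S.Q) {M t : ℕ} {w : Om} (h : (S.numd ix M).toRA.lch t w) : S.toRA.lch t w := by
  obtain ⟨l, hl⟩ := h
  exact ⟨l, numd_f hQ hl⟩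

/-- a change event of the numbered process is a change event of the process -/
theorem numd_d1 (hQ : Filt S.Q) {M : ℕ} {r : ℝ} {t : ℕ} {w : Om} (h : (S.numd ix M).toRA.d1 r t w) :
    S.toRA.d1 r t w := by
  rcases h with ⟨h1, h2⟩ | ⟨h1, h2⟩
  · exact Or.inl ⟨numd_e h1, h2⟩
  · exact Or.inr ⟨numd_lch hQ h1, h2⟩

theorem ovfA_inc (M : ℕ) (t : ℕ) (w : Om) (h : S.ovfA M t w) : S.ovfA M (t + 1) w := by
  rcases h with h | ⟨l, h⟩
  · exact Or.inl (ovf_inc M t w h)
  · exact Or.inr ⟨l, ovf_inc M t (w, default) h⟩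

theorem ovfA_le (M : ℕ) {s t : ℕ} (hst : s ≤ t) (w : Om) (h : S.ovfA M s w) : S.ovfA M t w := by
  induction t, hst using Nat.le_induction with
  | base => exact h
  | succ t _ ih => exact ovfA_inc M t w ih

theorem ovfA_iff (hQ : Filt S.Q) {M : ℕ} {t : ℕ} {w w' : Om} (hw : S.toGRD.Z t w = S.toGRD.Z t w') :
    S.ovfA M t w ↔ S.ovfA M t w' := by
  unfold ovfA
  refine or_congr (ovf_iff (Z_filt' hQ) M t hw) (exists_congr fun l => ?_)
  exact ovf_iff (tw_filt (ZJ_filt' hQ _)) M t (v := (w, default)) (w := (w', default)) (GRD.Z_fac_ZJ _ t _ _ hw)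

theorem occ_dcd {M : ℕ} {v : Fin (M + 1) × (L → Fin (M + 1))} {t : ℕ} {w : Om} (h : S.mnA v t w) :
    S.occ (S.dcd v t w) t w :=
  ⟨mem_of_mng h.1, fun l => mem_of_mng (h.2 l)⟩

theorem occ_inc {v : E × (L → F')} {t : ℕ} {w : Om} (h : S.occ v t w) : S.occ v (t + 1) w :=
  ⟨(rlst_pre t w).subset h.1, fun l => (rlst_pre t (w, default)).subset (h.2 l)⟩

theorem occ_vt (hx : ∀ l t w, S.fp l t w = S.f l t w (ix t w)) (t : ℕ) (w : Om) : S.occ (S.vt t w) t w := by
  refine ⟨mem_rlst_self t w, fun l => ?_⟩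
  show S.fp l t w ∈ S.ls l t w
  unfold ls
  rw [mem_rlst_cp]
  exact ⟨t, le_rfl, w, ix t w, rfl, (hx l t w).symm⟩

theorem mnA_iff (hQ : Filt S.Q) {M : ℕ} {v : Fin (M + 1) × (L → Fin (M + 1))} {t : ℕ}
    {w w' : Om} (hw : S.toGRD.Z t w = S.toGRD.Z t w') : S.mnA v t w ↔ S.mnA v t w' := by
  unfold mnA
  refine and_congr (mng_iff (Z_filt' hQ) _ t hw) (forall_congr' fun l => ?_)
  exact mng_iff (tw_filt (ZJ_filt' hQ _)) (v := (w, default)) (w := (w', default)) _ t (GRD.Z_fac_ZJ _ t _ _ hw)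

theorem dcd_fac (hQ : Filt S.Q) {M : ℕ} {v : Fin (M + 1) × (L → Fin (M + 1))} {t : ℕ}
    {w w' : Om} (hw : S.toGRD.Z t w = S.toGRD.Z t w') (hm : S.mnA v t w') : S.dcd v t w = S.dcd v t w' := by
  obtain ⟨h1, h2⟩ := hm
  unfold dcd
  refine Prod.ext (dec_fac (Z_filt' hQ) hw h1) (funext fun l => ?_)
  exact dec_fac (tw_filt (ZJ_filt' hQ _)) (v := (w, default)) (w := (w', default)) (GRD.Z_fac_ZJ _ t _ _ hw) (h2 l)

theorem mnA_inc {M : ℕ} {v : Fin (M + 1) × (L → Fin (M + 1))} {t : ℕ} {w : Om}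
    (hm : S.mnA v t w) : S.mnA v (t + 1) w :=
  ⟨mng_inc hm.1, fun l => mng_inc (hm.2 l)⟩

theorem dcd_stay {M : ℕ} {v : Fin (M + 1) × (L → Fin (M + 1))} {t : ℕ} {w : Om}
    (hm : S.mnA v t w) : S.dcd v (t + 1) w = S.dcd v t w := by
  unfold dcd
  exact Prod.ext (dec_stay hm.1) (funext fun l => dec_stay (hm.2 l))

/-- the numbered true value, decoded -/
theorem dcd_vt (hQ : Filt S.Q) (hx : ∀ l t w, S.fp l t w = S.f l t w (ix t w)) {M t : ℕ} {w : Om}
    (h : ¬ S.ovfA M t w) :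
    S.mnA ((S.numd ix M).vt t w) t w ∧ S.dcd ((S.numd ix M).vt t w) t w = S.vt t w := by
  unfold ovfA at h
  push Not at h
  obtain ⟨h1, h2⟩ := h
  have k2 := fun l => dec_cp (ZJ_filt' hQ (S.S l)) (h2 l) (ix t w)
  refine ⟨⟨num_mng h1, fun l => (k2 l).1⟩, ?_⟩
  refine Prod.ext (dec_num h1) (funext fun l => ?_)
  exact (k2 l).2.trans (hx l t w).symm

/-! ### functions of the numbers -/

theorem Kn_fac (hQ : Filt S.Q) {M : ℕ} {K : E × (L → F') → ℕ → Om → ℝ} (hK : ∀ v t, Fac (S.toGRD.Z t) (K v t))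
    (v : Fin (M + 1) × (L → Fin (M + 1))) (t : ℕ) : Fac (S.toGRD.Z t) (S.Kn M K v t) := by
  intro w w' hw
  unfold Kn
  by_cases hm : S.mnA v t w'
  · rw [if_pos hm, if_pos ((mnA_iff hQ hw).2 hm), dcd_fac hQ hw hm]
    exact hK _ t w w' hw
  · rw [if_neg hm, if_neg (fun h' => hm ((mnA_iff hQ hw).1 h'))]

theorem Kn_vt (hQ : Filt S.Q) (hx : ∀ l t w, S.fp l t w = S.f l t w (ix t w)) {M t : ℕ} {w : Om}
    (K : E × (L → F') → ℕ → Om → ℝ) (h : ¬ S.ovfA M t w) :
    S.Kn M K ((S.numd ix M).vt t w) t w = K (S.vt t w) t w := by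
  obtain ⟨h1, h2⟩ := dcd_vt hQ hx h
  unfold Kn
  rw [if_pos h1, h2]

/-- the recorded numbers have a meaning -/
theorem mnA_vr (hQ : Filt S.Q) (M t : ℕ) (w : Om) : S.mnA ((S.numd ix M).vr t w) t w := by
  have h2 : ∀ l t, mng (tw (O := O) (S.toGRD.ZJ (S.S l))) (cp (S.f l)) ((S.numd ix M).rp l t w) t (w, default) := by
    intro l t
    induction t with
    | zero => exact mng_cp (ZJ_filt' hQ _) M 0 w default (ix 0 w)
    | succ t ih =>
      by_cases hc : (S.numd ix M).toGRD.cS l t w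
      · rw [rp_succ_of hc]
        exact mng_cp (ZJ_filt' hQ _) M (t + 1) w default (ix (t + 1) w)
      · rw [rp_succ_of_not hc]
        exact mng_inc ih
  exact ⟨num_mng' M t w, fun l => h2 l t⟩

/-- steps of the numbered functions: if `K v (t+1) = K v t + c * dK v t` for the values which have occurred, the same
holds at the recorded numbers -/
theorem Kn_step {M : ℕ} {K dK : E × (L → F') → ℕ → Om → ℝ} {t : ℕ} {w : Om} {c : ℝ}
    (h : ∀ v, S.occ v t w → K v (t + 1) w = K v t w + c * dK v t w) {v : Fin (M + 1) × (L → Fin (M + 1))}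
    (hm : S.mnA v t w) : S.Kn M K v (t + 1) w = S.Kn M K v t w + c * S.Kn M dK v t w := by
  unfold Kn
  rw [if_pos hm, if_pos (mnA_inc hm), if_pos hm, dcd_stay hm]
  exact h _ (occ_dcd hm)

/-- steps of the numbered functions which depend on further data (any function of the value) -/
theorem Kn_congr {M : ℕ} {K K' : E × (L → F') → ℕ → Om → ℝ} {t : ℕ} {w : Om}
    (h : ∀ v, S.occ v t w → K v t w = K' v t w) (v : Fin (M + 1) × (L → Fin (M + 1))) :
    S.Kn M K v t w = S.Kn M K' v t w := by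
  unfold Kn
  by_cases hm : S.mnA v t w
  · rw [if_pos hm, if_pos hm]
    exact h _ (occ_dcd hm)
  · rw [if_neg hm, if_neg hm]

theorem Kn_bd {M : ℕ} {K : E × (L → F') → ℕ → Om → ℝ} {t : ℕ} {w : Om} {b : ℝ} (hb : 0 ≤ b)
    (h : ∀ v, S.occ v t w → |K v t w| ≤ b) (v : Fin (M + 1) × (L → Fin (M + 1))) : |S.Kn M K v t w| ≤ b := by
  unfold Kn
  by_cases hm : S.mnA v t w
  · rw [if_pos hm]
    exact h _ (occ_dcd hm)
  · rw [if_neg hm, abs_zero]
    exact hb

/-- zeros at the true known label -/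
theorem Kn_zer {M : ℕ} {K : E × (L → F') → ℕ → Om → ℝ} {t : ℕ} {w : Om} (he : ¬ ovf S.toGRD.Z S.e M t w)
    (h : ∀ v : E × (L → F'), v.1 = S.e t w → K v t w = 0) (v : Fin (M + 1) × (L → Fin (M + 1)))
    (hv : v.1 = (S.numd ix M).e t w) : S.Kn M K v t w = 0 := by
  unfold Kn
  by_cases hm : S.mnA v t w
  · rw [if_pos hm]
    refine h _ ?_
    show dec S.toGRD.Z S.e v.1 t w = S.e t w
    have h1 : v.1 = num S.toGRD.Z S.e M t w := hv
    rw [h1]
    exact dec_num he
  · rw [if_neg hm]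

/-! ### the numbered process satisfies the hypotheses -/

theorem numd_ghyp (h : S.toGRD.Hyp) (M : ℕ) : (S.numd ix M).toGRD.Hyp := by
  refine ⟨h.filt, h.S1, ?_, h.ind, h.dbl, h.al0, h.al1, h.ab⟩
  intro l t v w hv
  funext i
  refine num_fac (tw_filt (ZJ_filt' h.filt (S.S l)))
    (Z := fun p : Om × O => (S.toGRD.AQ (S.S l) t p.1, p.2)) ?_ ?_ M (v, i) (w, i) ?_
  · intro p q hpq
    simp only [Prod.mk.injEq] at hpq
    exact GRD.AQ_fac_ZJ _ _ _ _ hpq.1
  · intro p q hpq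
    simp only [Prod.mk.injEq] at hpq
    have h1 := h.ff l t p.1 q.1 hpq.1
    show S.f l t p.1 p.2 = S.f l t q.1 q.2
    rw [h1, hpq.2]
  · exact Prod.ext hv rfl

theorem numd_hyp (h : S.HypR ix) (M : ℕ) : (S.numd ix M).HypT := by
  classical
  have hQ := h.hyp.filt
  have hZJ := fun J => ZJ_filt' (S := S) hQ J
  refine ⟨numd_ghyp h.hyp M, ?_, ?_, ?_, ?_, ?_, ?_, ?_, ?_, h.Lam0, h.eta0⟩
  · intro t
    exact num_fac (Z_filt' hQ) (Fac.refl _) (h.fe t) M
  · intro l t v w hv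
    have h1 := congrArg Prod.fst hv
    have h2 := h.ixf t v w (congrArg Prod.snd hv)
    have h3 := congrFun h1 (ix t w)
    show num (tw (S.toGRD.ZJ (S.S l))) (cp (S.f l)) M t (v, ix t v) =
      num (tw (S.toGRD.ZJ (S.S l))) (cp (S.f l)) M t (w, ix t w)
    rw [h2]
    exact h3
  · intro l t w hw hd hf
    have hd' : ¬ (S.D0 (t + 1) w ∨ S.ovfA M (t + 1) w) := hd
    unfold ovfA at hd'
    push Not at hd'
    have hff : S.f l (t + 1) w = S.f l t w := by
      funext i
      refine val_of_num (Y := S.toGRD.ZJ (S.S l)) (M := M) ?_ (congrFun hf i)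
      rw [ovf_iff (tw_filt (hZJ _)) M (t + 1) (v := (w, i)) (w := (w, default)) rfl]
      exact hd'.2.2 l
    have h1 := h.cf l t w hw hd'.1 hff
    rw [h.fpx, h.fpx] at h1
    exact num_val_stay (hZJ _) h1
  · intro v t
    exact Kn_fac hQ h.Kf v t
  · intro v t w hw
    show |S.Kn M S.K v t w| ≤ S.P.ce (S.toGRD.Z t) (fun z => |S.Kn M S.K v (t + 1) z|) w
    by_cases hm : S.mnA v t w
    · unfold Kn
      rw [if_pos hm]
      refine (h.Ks _ t w hw (occ_dcd hm)).trans (le_of_eq ?_)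
      unfold FP.ce
      congr 1
      refine S.P.E_congr fun z hz => ?_
      by_cases hzw : S.toGRD.Z t z = S.toGRD.Z t w
      · have hm' : S.mnA v t z := (mnA_iff hQ hzw).2 hm
        have e1 : S.dcd v (t + 1) z = S.dcd v t w := by rw [dcd_stay hm', dcd_fac hQ hzw hm]
        show ind (S.toGRD.Z t z = S.toGRD.Z t w) * |S.K (S.dcd v t w) (t + 1) z| =
          ind (S.toGRD.Z t z = S.toGRD.Z t w) *
            |if S.mnA v (t + 1) z then S.K (S.dcd v (t + 1) z) (t + 1) z else 0|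
        rw [if_pos (mnA_inc hm'), e1]
      · rw [ind_not hzw, zero_mul, zero_mul]
    · unfold Kn
      rw [if_neg hm, abs_zero]
      exact S.P.ce_nonneg (fun _ _ => abs_nonneg _) w
  · intro v t w hw
    exact Kn_bd h.Lam0 (fun v' hv' => h.Kb v' t w hw hv') v
  · intro t w hw hd
    rcases hd with hd | hd
    · exact Or.inl (h.D0i t w hw hd)
    · exact Or.inr (ovfA_inc M t w hd)
  · intro t w hw hd
    have hd' : ¬ (S.D0 t w ∨ S.ovfA M t w) := hd
    push Not at hd'
    have h3 := h.TX t w hw hd'.1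
    show |S.T t w - S.Kn M S.K ((S.numd ix M).vt t w) t w| ≤ S.eta
    rw [Kn_vt hQ h.fpx S.K hd'.2]
    exact h3

/-! ### masses -/

/-- mass of the errors of the numbered process: known label with less than `M` changes -/
theorem D0_numd_Pr (h : S.HypR ix) {M : ℕ} (n : ℕ)
    (he : ∀ w, S.P.p w ≠ 0 → Nz.cn (fun s => S.e (s + 1) w ≠ S.e s w) n < M) {q0 q1 : ℝ}
    (h0 : S.P.Pr (S.D0 n) ≤ q0)
    (h1 : S.P.Pr (fun w => ∃ l, ovf (tw (O := O) (S.toGRD.ZJ (S.S l))) (cp (S.f l)) M n (w, default)) ≤ q1) :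
    S.P.Pr ((S.numd ix M).D0 n) ≤ q0 + q1 := by
  have h2 := S.P.Pr_or_le (S.D0 n)
    (fun w => ∃ l, ovf (tw (O := O) (S.toGRD.ZJ (S.S l))) (cp (S.f l)) M n (w, default))
  refine le_trans (S.P.Pr_mono fun w hw hd => ?_) (h2.trans (add_le_add h0 h1))
  have hd' : S.D0 n w ∨ S.ovfA M n w := hd
  rcases hd' with hd' | hd' | hd'
  · exact Or.inl hd'
  · exfalso
    have h3 := rlst_len_chg (Y := S.toGRD.Z) (x := S.e) h.fe n w
    have h4 := he w hw
    unfold ovf at hd'
    omega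
  · exact Or.inr hd'

theorem numd_Pr_f (hQ : Filt S.Q) (M t : ℕ) (l : L) :
    S.P.Pr (fun w => (S.numd ix M).f l (t + 1) w ≠ (S.numd ix M).f l t w) ≤
      S.P.Pr (fun w => S.f l (t + 1) w ≠ S.f l t w) :=
  S.P.Pr_mono fun _ _ h => numd_f hQ h

theorem numd_Pr_e (M t : ℕ) :
    S.P.Pr (fun w => (S.numd ix M).e (t + 1) w ≠ (S.numd ix M).e t w) ≤
      S.P.Pr (fun w => S.e (t + 1) w ≠ S.e t w) :=
  S.P.Pr_mono fun _ _ h => numd_e h

theorem numd_ntot [Fintype L] (hQ : Filt S.Q) (M n : ℕ) : (S.numd ix M).toGRD.ntot n ≤ S.toGRD.ntot n := by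
  unfold GRD.ntot
  exact Finset.sum_le_sum fun l _ => Finset.sum_le_sum fun t _ => numd_Pr_f hQ M t l

end

end GRT

end Pool.Agent.GM
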