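import Pool.Agent.GM.Pub
import Pool.Agent.GM.RdNum

/-!
# GM/NamExt: extended labels of a system, every finite set of vertices (helper52)

`S : Sys`, `Q` = public node of the view of the hidden vertex `a` (`Pubn S a Q`).  A LABEL of the vertices `I` in natural
form is `x t g ξ y` (time, node, coins, vertices); `LabN S I x` = the values see the vertices of `I` exactly and at most the
cells of the others, the change events are functions of the vertices of `I`.
* `xl` = extended label (value at the option, flip bit), `pl` = plain label, `xo` = number of the true option;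
* `xl_fac` (function of the coins, of `x_I` and of the public node), `xo_fac`, `pl_eq`, `pl_stay`;
* `xl_count` : mean number of changes `≤ 4 (mean number of changes of the plain label) + 1`;
* `xl_opt` : the values are values at realised options; `xl_len` : number of values along a public path.
Port of the first part of `M3/RdOut`.
-/

set_option autoImplicit false
set_option linter.unusedSectionVars false

namespace Pool.Agent.GM.Nam

open Finset Pool.Agent.PWZ Pool.Agent.M3 Pool.Agent.GM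

noncomputable section

/-! ### the extended label sees only the values at the options -/

section congr

variable {Om : Type*} {κ : ℕ → Type*} {Γ 𝒦 β : Type*} {Q : ∀ t, Om → κ t} {par : ℕ → Γ → Γ} {gm o0 o1 : ℕ → Om → Γ}
  {x : ℕ → Γ → 𝒦 → β} {K : Om → 𝒦}

theorem filt_le' (hQ : Filt Q) {j t : ℕ} (h : j ≤ t) {v w : Om} (hvw : Q t v = Q t w) : Q j v = Q j w := by
  induction t with
  | zero =>
    have : j = 0 := by omega
    subst this
    exact hvw
  | succ t ih =>
    rcases Nat.lt_or_ge t j with h1 | h1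
    · have : j = t + 1 := by omega
      subst this
      exact hvw
    · exact ih h1 (hQ t v w hvw)

/-- the options of time `s` are `o0 s`, `o1 s` -/
theorem st_mem (s : ℕ) (w : Om) :
    ((st par o0 o1 s w).1 = o0 s w ∨ (st par o0 o1 s w).1 = o1 s w) ∧
      ((st par o0 o1 s w).2 = o0 s w ∨ (st par o0 o1 s w).2 = o1 s w) := by
  rcases st_or (par := par) (o0 := o0) (o1 := o1) s w with h | h <;> rw [h]
  · exact ⟨Or.inl rfl, Or.inr rfl⟩
  · exact ⟨Or.inr rfl, Or.inl rfl⟩

/-- **the extended label is determined by the public node and the values at the options** -/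
theorem ext_congr (H : Opts Q par gm o0 o1) {t : ℕ} {v w : Om} (hQ : Q t v = Q t w)
    (hx : ∀ s ≤ t, ∀ g, (g = o0 s w ∨ g = o1 s w) → x s g (K v) = x s g (K w)) :
    ext par o0 o1 x K t v = ext par o0 o1 x K t w := by
  have hst : ∀ s ≤ t, st par o0 o1 s v = st par o0 o1 s w := fun s hs => st_fac H s v w (filt_le' H.filt hs hQ)
  have h0 : ∀ s ≤ t, o0 s v = o0 s w := fun s hs => H.f0 s v w (filt_le' H.filt hs hQ)
  have h1 : ∀ s ≤ t, o1 s v = o1 s w := fun s hs => H.f1 s v w (filt_le' H.filt hs hQ)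
  have hfl : ∀ s, s + 1 ≤ t → (M3.flip par o0 o1 x K s v ↔ M3.flip par o0 o1 x K s w) := by
    intro s hs
    unfold M3.flip gen ovr dif M3.mt
    rw [hst (s + 1) hs, hst s (by omega), h0 (s + 1) hs, h1 (s + 1) hs,
      hx (s + 1) hs _ (Or.inl rfl), hx (s + 1) hs _ (Or.inr rfl), hx s (by omega) _ (H.p0 s w),
      hx s (by omega) _ (H.p1 s w), hx s (by omega) _ (st_mem s w).1, hx s (by omega) _ (st_mem s w).2]
  have hb : ∀ s ≤ t, fb par o0 o1 x K s v = fb par o0 o1 x K s w := by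
    intro s
    induction s with
    | zero => intro _; rfl
    | succ s ih =>
      intro hs
      rw [fb, fb, ih (by omega)]
      by_cases h : M3.flip par o0 o1 x K s w
      · rw [if_pos h, if_pos ((hfl s hs).2 h)]
      · rw [if_neg h, if_neg (fun h' => h ((hfl s hs).1 h'))]
  unfold M3.ext
  rw [hst t le_rfl, hb t le_rfl, hx t le_rfl _ (st_mem t w).1, hx t le_rfl _ (st_mem t w).2]

end congr

/-! ### labels of a system -/

variable {ι Om Ξ Pt V Γ κ : Type} [Fintype ι] [DecidableEq ι] [Fintype Om] [Fintype Ξ] [Fintype Pt]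
  [Fintype V] {υ : ℕ → Type} {S : Sys ι Om Ξ Pt V Γ κ} {Q : ∀ t, Om → υ t} {a : ι} {Lb : Type}

/-- a label of the vertices of `I` in natural form -/
structure LabN (S : Sys ι Om Ξ Pt V Γ κ) (I : Finset ι) (x : ℕ → Γ → Ξ → (ι → Pt) → Lb) : Prop where
  val : ∀ t g ξ y z, (∀ i ∈ I, y i = z i) → (∀ j, S.cl t (y j) = S.cl t (z j)) → x t g ξ y = x t g ξ z
  chg : ∀ t g ξ, Dep I (fun y : ι → Pt => x (t + 1) g ξ y ≠ x t (S.par t g) ξ y)

theorem LabN.of_dep {I : Finset ι} {x : ℕ → Γ → Ξ → (ι → Pt) → Lb} (h : ∀ t g ξ, Dep I (x t g ξ)) : LabN S I x where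
  val t g ξ y z hyz _ := h t g ξ y z hyz
  chg t g ξ y z hyz := by
    show (x (t + 1) g ξ y ≠ x t (S.par t g) ξ y) = (x (t + 1) g ξ z ≠ x t (S.par t g) ξ z)
    rw [h (t + 1) g ξ y z hyz, h t (S.par t g) ξ y z hyz]

/-- the coordinates -/
def KK (S : Sys ι Om Ξ Pt V Γ κ) (w : Om) : Ξ × (ι → Pt) := (S.xi w, S.x w)

/-- the label as a function of the coordinates -/
def uc (x : ℕ → Γ → Ξ → (ι → Pt) → Lb) (t : ℕ) (g : Γ) (K : Ξ × (ι → Pt)) : Lb := x t g K.1 K.2

/-- value at the option `i` (stable order), flip bit -/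
def xl (S : Sys ι Om Ξ Pt V Γ κ) (Q : ∀ t, Om → υ t) (dg : Γ) (x : ℕ → Γ → Ξ → (ι → Pt) → Lb) (t : ℕ) (w : Om)
    (i : Bool) : Lb × Bool :=
  (cpt i (ext S.par (opA Q S.gm dg) (opB Q S.gm dg) (uc x) (KK S) t w),
    fb S.par (opA Q S.gm dg) (opB Q S.gm dg) (uc x) (KK S) t w)

/-- the label at the true node, flip bit -/
def pl (S : Sys ι Om Ξ Pt V Γ κ) (Q : ∀ t, Om → υ t) (dg : Γ) (x : ℕ → Γ → Ξ → (ι → Pt) → Lb) (t : ℕ) (w : Om) :
    Lb × Bool :=
  (x t (S.gm t w) (S.xi w) (S.x w), fb S.par (opA Q S.gm dg) (opB Q S.gm dg) (uc x) (KK S) t w)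

/-- number of the true option -/
def xo (S : Sys ι Om Ξ Pt V Γ κ) (Q : ∀ t, Om → υ t) (dg : Γ) (t : ℕ) (w : Om) : Bool :=
  ix S.par S.gm (opA Q S.gm dg) (opB Q S.gm dg) t w

variable {dg : Γ} {x : ℕ → Γ → Ξ → (ι → Pt) → Lb}

section H

variable (hP : Pubn S a Q)
include hP

theorem opt2 : Opts Q S.par S.gm (opA Q S.gm dg) (opB Q S.gm dg) :=
  opts_of_card hP.filt S.par_gm (fun t w => by rw [Sys.OPT_eq]; exact hP.two t w) dg

theorem opA_mem (t : ℕ) (w : Om) : opA Q S.gm dg t w ∈ S.OPT Q t w ∧ opB Q S.gm dg t w ∈ S.OPT Q t w := by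
  have hs : ∀ g, g ∈ M3.OPT Q S.gm t w ↔ g = opA Q S.gm dg t w ∨ g = opB Q S.gm dg t w := fun g =>
    en_spec ⟨_, gm_OPT t w⟩ (by rw [Sys.OPT_eq]; exact hP.two t w) dg g
  rw [← Sys.OPT_eq]
  exact ⟨(hs _).2 (Or.inl rfl), (hs _).2 (Or.inr rfl)⟩

/-- the extended label is a function of the coins, of `x_I` (with the hidden vertex) and of the public node -/
theorem xl_fac {I : Finset ι} (haI : a ∈ I) (hx : LabN S I x) (t : ℕ) {v w : Om} (hξ : S.xi v = S.xi w)
    (hI : ∀ i ∈ I, S.x v i = S.x w i) (hQ : Q t v = Q t w) : xl S Q dg x t v = xl S Q dg x t w := by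
  have h1 : ext S.par (opA Q S.gm dg) (opB Q S.gm dg) (uc x) (KK S) t v =
      ext S.par (opA Q S.gm dg) (opB Q S.gm dg) (uc x) (KK S) t w := by
    refine ext_congr (opt2 hP) hQ fun s hs g _ => ?_
    show x s g (S.xi v) (S.x v) = x s g (S.xi w) (S.x w)
    rw [hξ]
    refine hx.val s g _ _ _ hI fun j => ?_
    by_cases hj : j = a
    · rw [hj, hI a haI]
    · exact hP.qc s j hj v w (filt_le' hP.filt hs hQ)
  funext i
  unfold xl
  rw [h1]
  exact Prod.ext rfl (congrArg (fun v => v.2.2) h1)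

theorem xo_fac {ν : Type*} {Y : Om → ν} {t : ℕ} (h1 : Fac Y (Q t)) (h2 : Fac Y (S.gm t)) :
    Fac Y (xo S Q dg t) := ix_fac (opt2 hP) h1 h2

/-- the plain label is the component of the true option -/
theorem pl_eq (t : ℕ) (w : Om) : pl S Q dg x t w = xl S Q dg x t w (xo S Q dg t w) :=
  Prod.ext (plain_eq (opt2 hP (dg := dg)) (x := uc x) (K := KK S) t w) rfl

theorem xl_ext {t : ℕ} {w : Om} (h : xl S Q dg x (t + 1) w = xl S Q dg x t w) :
    ext S.par (opA Q S.gm dg) (opB Q S.gm dg) (uc x) (KK S) (t + 1) w =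
      ext S.par (opA Q S.gm dg) (opB Q S.gm dg) (uc x) (KK S) t w := by
  have h1 := congrFun h true
  have h2 := congrFun h false
  unfold xl at h1 h2
  rw [Prod.ext_iff] at h1 h2
  obtain ⟨a1, a2⟩ := h1
  obtain ⟨b1, -⟩ := h2
  exact Prod.ext a1 (Prod.ext b1 a2)

/-- the plain label changes only if the extended label changes -/
theorem pl_stay {t : ℕ} {w : Om} (h : xl S Q dg x (t + 1) w = xl S Q dg x t w) :
    pl S Q dg x (t + 1) w = pl S Q dg x t w := by
  have h1 := xl_ext hP h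
  have h2 := cmp (opt2 hP (dg := dg)) h1
  unfold pln at h2
  exact Prod.ext h2 (congrArg (fun v => v.2.2) h1)

/-- number of changes -/
theorem xl_count {I : Finset ι} (hI : I ≠ univ) (hx : LabN S I x) (n : ℕ) :
    ∑ t ∈ range n, S.P.Pr (fun w => xl S Q dg x (t + 1) w ≠ xl S Q dg x t w) ≤
      4 * ∑ t ∈ range n, S.P.Pr (fun w => x (t + 1) (S.gm (t + 1) w) (S.xi w) (S.x w) ≠
        x t (S.gm t w) (S.xi w) (S.x w)) + 1 := by
  have h1 := E_ext_count (x := uc x) (K := KK S) S.P hP.filt S.par_gm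
    (fun t w => by rw [Sys.OPT_eq]; exact hP.two t w) dg n (fun t ht => by
      have h2 := hP.E_opt hI (t + 1) (fun ξ y g => ind (x (t + 1) g ξ y ≠ x t (S.par t g) ξ y))
        (fun ξ g y z hyz => by
          exact congrArg ind (hx.chg t g ξ y z hyz)) (fun _ _ _ => ind_nonneg _)
      simp only [Sys.OPT_eq]
      exact h2)
  refine le_trans (Finset.sum_le_sum fun t _ => S.P.Pr_mono fun w _ h => ?_) h1
  intro h2
  refine h (funext fun i => ?_)
  unfold xl
  rw [h2]
  exact Prod.ext rfl (congrArg (fun v => v.2.2) h2)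

/-- the component is the value at a realised option -/
theorem xl_opt (t : ℕ) (w : Om) (i : Bool) : ∃ g ∈ S.OPT Q t w, (xl S Q dg x t w i).1 = x t g (S.xi w) (S.x w) := by
  obtain ⟨hA, hB⟩ := opA_mem hP (dg := dg) t w
  have hst : (st S.par (opA Q S.gm dg) (opB Q S.gm dg) t w).1 ∈ S.OPT Q t w ∧
      (st S.par (opA Q S.gm dg) (opB Q S.gm dg) t w).2 ∈ S.OPT Q t w := by
    rcases st_or (par := S.par) (o0 := opA Q S.gm dg) (o1 := opB Q S.gm dg) t w with h | h <;> rw [h]
    · exact ⟨hA, hB⟩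
    · exact ⟨hB, hA⟩
  cases i with
  | true => exact ⟨_, hst.1, rfl⟩
  | false => exact ⟨_, hst.2, rfl⟩

end H

/-- a label with values in a finite set: all lists are short -/
theorem rlst_len {ν : ℕ → Type*} {Y : ∀ t, Om → ν t} (hP : Pubn S a Q) {f : Finset Lb}
    (hf : ∀ t g ξ y, x t g ξ y ∈ f) (n : ℕ) (p : Om × Bool) :
    (rlst (Nm.tw Y) (Nm.cp (xl S Q dg x)) n p).length ≤ 2 * f.card := by
  classical
  have h1 : (f ×ˢ (univ : Finset Bool)).card = 2 * f.card := by
    rw [Finset.card_product, Finset.card_univ, Fintype.card_bool, mul_comm]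
  rw [← h1]
  refine rlst_length_le fun t _ q _ => ?_
  obtain ⟨w', i⟩ := q
  refine Finset.mem_product.2 ⟨?_, Finset.mem_univ _⟩
  obtain ⟨g, _, hv⟩ := xl_opt (dg := dg) (x := x) hP t w' i
  show (xl S Q dg x t w' i).1 ∈ f
  rw [hv]
  exact hf t g _ _

/-- **number of values of the extended label** along a public path -/
theorem xl_len {ν : ℕ → Type*} {Y : ∀ t, Om → ν t} (hP : Pubn S a Q) (hY : ∀ t v w, Y t v = Y t w → Q t v = Q t w)
    {n : ℕ} {w0 : Om} {f : Finset Lb}
    (hf : ∀ t ≤ n, ∀ o ∈ S.OPT Q t w0, ∀ w, Y t w = Y t w0 → x t o (S.xi w) (S.x w) ∈ f) (b : Bool) :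
    (rlst (Nm.tw Y) (Nm.cp (xl S Q dg x)) n (w0, b)).length ≤ 2 * f.card := by
  classical
  have h1 : (f ×ˢ (univ : Finset Bool)).card = 2 * f.card := by
    rw [Finset.card_product, Finset.card_univ, Fintype.card_bool, mul_comm]
  rw [← h1]
  refine rlst_length_le fun t ht p hp => ?_
  obtain ⟨w', i⟩ := p
  refine Finset.mem_product.2 ⟨?_, Finset.mem_univ _⟩
  obtain ⟨g, hg, hv⟩ := xl_opt (dg := dg) (x := x) hP t w' i
  show (xl S Q dg x t w' i).1 ∈ f
  rw [hv]
  have hp' : Y t w' = Y t w0 := hp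
  rw [Pubn.opt_fac (hY t w' w0 hp')] at hg
  exact hf t ht g hg w' hp'

end

end Pool.Agent.GM.Nam
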