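import Pool.Agent.GM.NamOut
import Pool.Agent.GMN.Enum
import Pool.Agent.GMN.Cap
import Pool.Agent.GMN.Ext

/-!
# GM/NamFin: from the final state of the names to the output of the names (`Nam.Fst`), helper52

`σ : NSt S a` with `Done`, `Bd n B A dead`, `On dead`, lists surely of cardinality `≤ n`, box sets `PT u a` surely `≤ B`, bounded
numbers surely `≤ B` (`NSt.cap`).
* `lab σ u` : LABEL of the owner `u` = set of the pairs (bounded number, trace) of the codes of its list with trace in the box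
  set; increasing, at most `n` elements, so at most `n` changes at every point;
* `fin σ ez A : Fst ..` : known label `ez`, `Ph v` = sum of `c * h` over the families of pairs, `on v` = all these `h` are
  introduced;
* `seen` : the traces which are seen in the class (exact known vertices but `u`, public node) up to the end, `seen_mem`,
  `E_seen` : mean number `≤ 2 K B` (options: `Pubn.E_opt`; cells of the hidden vertex: `BSt.cmp` of helper88);
* `T_eq` : the value of the form is the window mean of `Ph` at the true value, off `dead`;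
* **`fin_ok`** : `Fst.Ok` with `J = n`, at most `((B + 1) M0 + 1) ^ n` values off probability `2 K B / M0`.
-/

set_option autoImplicit false
set_option linter.unusedSectionVars false

namespace Pool.Agent.GM.Nam

open Finset Pool.Agent.PWZ Pool.Agent.M3 Pool.Agent.M3.TS Pool.Agent.GM Pool.Agent.GMN

noncomputable section

/-! ### small sets -/

/-- number of the subsets with at most `n` elements -/
theorem card_small {α : Type*} [DecidableEq α] (U : Finset α) (n : ℕ) :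
    (U.powerset.filter (fun s => s.card ≤ n)).card ≤ (U.card + 1) ^ n := by
  have h1 : U.powerset.filter (fun s => s.card ≤ n) = (range (n + 1)).biUnion fun i => U.powersetCard i := by
    ext s
    rw [Finset.mem_filter, Finset.mem_powerset, Finset.mem_biUnion]
    constructor
    · rintro ⟨h1, h2⟩
      exact ⟨s.card, Finset.mem_range.2 (by omega), Finset.mem_powersetCard.2 ⟨h1, rfl⟩⟩
    · rintro ⟨i, hi, h1⟩
      rw [Finset.mem_powersetCard] at h1
      have h2 := Finset.mem_range.1 hi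
      exact ⟨h1.1, by omega⟩
  rw [h1]
  refine Finset.card_biUnion_le.trans ?_
  rw [add_pow]
  refine Finset.sum_le_sum fun i hi => ?_
  have hi' : i ≤ n := by
    have := Finset.mem_range.1 hi
    omega
  rw [Finset.card_powersetCard, one_pow, mul_one]
  refine (Nat.choose_le_pow U.card i).trans ?_
  exact Nat.le_mul_of_pos_right _ (Nat.choose_pos hi')

/-- a growing family of sets with at most `n` elements changes at most `n` times -/
theorem cn_card {α : Type*} {A : ℕ → Finset α} (hA : ∀ t, A t ⊆ A (t + 1)) (t : ℕ) :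
    Nz.cn (fun s => A (s + 1) ≠ A s) t ≤ (A t).card := by
  induction t with
  | zero => rw [Nz.cn_zero]; exact Nat.zero_le _
  | succ t ih =>
    by_cases h : A (t + 1) ≠ A t
    · rw [Nz.cn_succ_of h]
      have h1 : (A t).card < (A (t + 1)).card := Finset.card_lt_card ((hA t).ssubset_of_ne h.symm)
      omega
    · rw [Nz.cn_succ_not h]
      exact ih.trans (Finset.card_le_card (hA t))

theorem cn_sum_ind (p : ℕ → Prop) (n : ℕ) : (Nz.cn p n : ℝ) = ∑ t ∈ range n, ind (p t) := by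
  induction n with
  | zero => rw [Nz.cn_zero]; simp
  | succ n ih =>
    rw [Finset.sum_range_succ, ← ih]
    by_cases hp : p n
    · rw [Nz.cn_succ_of hp, ind_of hp]
      push_cast
      ring
    · rw [Nz.cn_succ_not hp, ind_not hp, add_zero]

variable {ι Om Ξ Pt V Γ κ : Type} [Fintype ι] [DecidableEq ι] [Fintype Om] [Fintype Ξ] [Fintype Pt]
  [Fintype V] {υ : ℕ → Type} {S : Sys ι Om Ξ Pt V Γ κ} {Q : ∀ t, Om → υ t} {a : ι}

/-! ### the labels -/

section lab

variable (σ : NSt S a)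

/-- the label of the owner `u` -/
def lab (u : ι) (t : ℕ) (g : Γ) (ξ : Ξ) (x : ι → Pt) : Finset (ℕ × ℕ) :=
  (((σ.Lam u).L t g ξ x).image fun ν => (σ.bb u ν, σ.tr u a ν)).filter fun p => p.2 ∈ (σ.PT u a).L t g x

theorem mem_lab {u : ι} {t : ℕ} {g : Γ} {ξ : Ξ} {x : ι → Pt} {p : ℕ × ℕ} :
    p ∈ lab σ u t g ξ x ↔ (∃ ν ∈ (σ.Lam u).L t g ξ x, σ.bb u ν = p.1 ∧ σ.tr u a ν = p.2) ∧
      p.2 ∈ (σ.PT u a).L t g x := by
  unfold lab
  rw [Finset.mem_filter, Finset.mem_image]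
  refine and_congr_left fun _ => exists_congr fun ν => and_congr_right fun _ => ?_
  rw [Prod.ext_iff]

theorem lab_mono (u : ι) (t : ℕ) (g : Γ) (ξ : Ξ) (x : ι → Pt) :
    lab σ u t (S.par t g) ξ x ⊆ lab σ u (t + 1) g ξ x := by
  intro p hp
  rw [mem_lab] at hp ⊢
  obtain ⟨⟨ν, h1, h2⟩, h3⟩ := hp
  exact ⟨⟨ν, (σ.Lam u).mono t g ξ x h1, h2⟩, (σ.PT u a).mono t g x h3⟩

theorem lab_card {n : ℕ} {u : ι} (h : ∀ t g ξ x, ((σ.Lam u).L t g ξ x).card ≤ n) (t : ℕ) (g : Γ) (ξ : Ξ) (x : ι → Pt) :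
    (lab σ u t g ξ x).card ≤ n :=
  ((Finset.card_filter_le _ _).trans Finset.card_image_le).trans (h t g ξ x)

theorem lab_dep {u : ι} (hu : u ≠ a) (t : ℕ) (g : Γ) (ξ : Ξ) : Dep (univ.erase u) (lab σ u t g ξ) := by
  intro x y hxy
  unfold lab
  rw [(σ.Lam u).dep t g ξ x y hxy, (σ.PT u a).dep t g x y (fun i hi => hxy i (Finset.mem_of_mem_erase hi))
    (fun i hi => by
      rw [Finset.mem_singleton.1 hi, hxy a (Finset.mem_erase.2 ⟨hu.symm, Finset.mem_univ _⟩)])]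

/-- the label at a sample point -/
def labp (u : ι) (t : ℕ) (w : Om) : Finset (ℕ × ℕ) := lab σ u t (S.gm t w) (S.xi w) (S.x w)

theorem labp_succ (u : ι) (t : ℕ) (w : Om) : labp σ u t w ⊆ labp σ u (t + 1) w := by
  have h := lab_mono σ u t (S.gm (t + 1) w) (S.xi w) (S.x w)
  rwa [S.par_gm] at h

/-- mean number of changes -/
theorem lab_chf {n : ℕ} {u : ι} (h : ∀ t g ξ x, ((σ.Lam u).L t g ξ x).card ≤ n) (N : ℕ) :
    ∑ t ∈ range N, S.P.Pr (fun w => labp σ u (t + 1) w ≠ labp σ u t w) ≤ n := by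
  have h1 : ∑ t ∈ range N, S.P.Pr (fun w => labp σ u (t + 1) w ≠ labp σ u t w) =
      S.P.E (fun w => ∑ t ∈ range N, ind (labp σ u (t + 1) w ≠ labp σ u t w)) := (FP.E_sum _ _ _).symm
  rw [h1]
  refine FP.E_le_const _ fun w _ => ?_
  rw [← cn_sum_ind]
  exact_mod_cast (cn_card (labp_succ σ u · w) N).trans (lab_card σ h _ _ _ _)

end lab

/-! ### the traces which are seen in the class -/

section seen

variable {u : ι}

/-- the elements which are seen at the options of the class up to the end -/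
def seen (Q : ∀ t, Om → υ t) (c : BSt S a u) (w : Om) : Finset ℕ := by
  classical
  exact (range (S.n + 1)).biUnion fun s => (S.OPT Q s w).biUnion fun g => c.new s g (S.x w)

theorem par_OPT (hQ : Filt Q) {t : ℕ} {w : Om} {g : Γ} (hg : g ∈ S.OPT Q (t + 1) w) : S.par t g ∈ S.OPT Q t w := by
  obtain ⟨w', h1, rfl⟩ := Sys.mem_OPT.1 hg
  rw [S.par_gm]
  exact Sys.mem_OPT.2 ⟨w', hQ t w' w h1, rfl⟩

theorem new_seen {c : BSt S a u} {t : ℕ} (ht : t ≤ S.n) {w : Om} {g : Γ} (hg : g ∈ S.OPT Q t w) :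
    c.new t g (S.x w) ⊆ seen Q c w := by
  classical
  intro ν hν
  unfold seen
  exact Finset.mem_biUnion.2 ⟨t, Finset.mem_range.2 (by omega), Finset.mem_biUnion.2 ⟨g, hg, hν⟩⟩

/-- the box set at an option is seen -/
theorem L_seen (hQ : Filt Q) {c : BSt S a u} {t : ℕ} (ht : t ≤ S.n) {w : Om} {g : Γ} (hg : g ∈ S.OPT Q t w) :
    c.L t g (S.x w) ⊆ seen Q c w := by
  induction t generalizing g with
  | zero => exact new_seen ht hg
  | succ t ih =>
    intro ν hν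
    by_cases h : ν ∈ c.L t (S.par t g) (S.x w)
    · exact ih (by omega) (par_OPT hQ hg) h
    · exact new_seen ht hg (Finset.mem_sdiff.2 ⟨hν, h⟩)

/-- the hidden vertex of a point of the class is in a compatible cell of every option -/
theorem cmpE_opt (hP : Pubn S a Q) {t : ℕ} {w0 w : Om} (hw : Q t w = Q t w0) {g : Γ} (hg : g ∈ S.OPT Q t w0) :
    CmpE S a t g (S.x w0) (S.cl t (S.x w a)) := by
  obtain ⟨w1, h1, h2⟩ := Sys.mem_OPT.1 hg
  obtain ⟨v, h3, _, h5, h6, h7⟩ := hP.comb t w1 w (hw.trans h1.symm)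
  refine ⟨v, fun i hi => ?_, by rw [h5], h7.trans h2⟩
  rw [h6 i hi]
  exact hP.qc t i hi w1 w0 h1

/-- **every trace of the class is seen** -/
theorem seen_mem (hP : Pubn S a Q) (b : BSt S u a) {t : ℕ} (ht : t ≤ S.n) {w0 w : Om} (hw : Q t w = Q t w0)
    (hx : ∀ j, j ≠ a → j ≠ u → S.x w j = S.x w0 j) {g : Γ} (hg : g ∈ S.OPT Q t w0) :
    b.L t g (S.x w) ⊆ seen Q b.cmp w0 := by
  classical
  have key : ∀ t, t ≤ S.n → Q t w = Q t w0 → ∀ g ∈ S.OPT Q t w0, b.new t g (S.x w) ⊆ b.ext t g (S.x w0) := by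
    intro t _ hw g hg ν hν
    unfold BSt.ext
    rw [Finset.mem_biUnion]
    refine ⟨erep S t (S.x w a), erep_mem t _, ?_⟩
    rw [if_pos (by rw [cl_erep]; exact cmpE_opt hP hw hg)]
    have h1 : b.new t g (Function.update (S.x w0) a (erep S t (S.x w a))) = b.new t g (S.x w) := by
      refine b.new_dep t g _ _ (fun i hi => ?_) fun i hi => ?_
      · have h2 : i ≠ a := ne_of_mem_erase hi
        have h3 : i ≠ u := ne_of_mem_erase (mem_of_mem_erase hi)
        rw [Function.update_of_ne h2, hx i h2 h3]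
      · rw [Finset.mem_singleton.1 hi, Function.update_self, cl_erep]
    rw [h1]
    exact hν
  induction t generalizing g with
  | zero =>
    intro ν hν
    exact L_seen hP.filt ht hg (key 0 ht hw g hg hν)
  | succ t ih =>
    intro ν hν
    by_cases h : ν ∈ b.L t (S.par t g) (S.x w)
    · exact ih (by omega) (hP.filt t w w0 hw) (par_OPT hP.filt hg) h
    · have h1 : ν ∈ b.ext (t + 1) g (S.x w0) := key (t + 1) ht hw g hg (Finset.mem_sdiff.2 ⟨hν, h⟩)
      refine L_seen hP.filt (c := b.cmp) ht hg ?_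
      show ν ∈ b.cmpL t (S.par t g) (S.x w0) ∪ b.ext (t + 1) g (S.x w0)
      exact Finset.mem_union_right _ h1

/-- mean number of the elements which are seen -/
theorem E_seen (hP : Pubn S a Q) (hu : u ≠ a) (b : BSt S u a) {B : ℕ} (hB : ∀ t g x, (b.L t g x).card ≤ B) :
    S.P.E (fun w => ((seen Q b.cmp w).card : ℝ)) ≤ 2 * S.K * B := by
  classical
  have hI : (univ.erase a : Finset ι) ≠ univ := fun h1 => by
    have h2 : a ∈ univ.erase a := by
      rw [h1]
      exact Finset.mem_univ _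
    exact absurd h2 (Finset.notMem_erase _ _)
  have h1 : ∀ w, ((seen Q b.cmp w).card : ℝ) ≤
      ∑ s ∈ range (S.n + 1), ∑ g ∈ S.OPT Q s w, ((b.cmp.new s g (S.x w)).card : ℝ) := by
    intro w
    have h2 : (seen Q b.cmp w).card ≤ ∑ s ∈ range (S.n + 1), ∑ g ∈ S.OPT Q s w, (b.cmp.new s g (S.x w)).card := by
      unfold seen
      exact Finset.card_biUnion_le.trans (Finset.sum_le_sum fun s _ => Finset.card_biUnion_le)
    exact_mod_cast h2
  calc S.P.E (fun w => ((seen Q b.cmp w).card : ℝ))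
      ≤ S.P.E (fun w => ∑ s ∈ range (S.n + 1), ∑ g ∈ S.OPT Q s w, ((b.cmp.new s g (S.x w)).card : ℝ)) :=
        S.P.E_mono fun w _ => h1 w
    _ = ∑ s ∈ range (S.n + 1), S.P.E (fun w => ∑ g ∈ S.OPT Q s w, ((b.cmp.new s g (S.x w)).card : ℝ)) := by
        rw [S.P.E_sum]
    _ ≤ ∑ s ∈ range (S.n + 1), 2 * S.P.E (fun w => ((b.cmp.new s (S.gm s w) (S.x w)).card : ℝ)) := by
        refine Finset.sum_le_sum fun s _ => ?_
        exact hP.E_opt hI s (fun _ x g => ((b.cmp.new s g x).card : ℝ)) (fun _ g x y hxy => by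
          have h3 : b.cmp.new s g x = b.cmp.new s g y :=
            b.cmp.new_dep s g x y (fun i hi => hxy i (Finset.mem_of_mem_erase hi)) fun i hi => by
              rw [Finset.mem_singleton.1 hi, hxy u (Finset.mem_erase.2 ⟨hu, Finset.mem_univ _⟩)]
          show ((b.cmp.new s g x).card : ℝ) = ((b.cmp.new s g y).card : ℝ)
          rw [h3]) (fun _ _ _ => Nat.cast_nonneg _)
    _ = 2 * S.P.E (fun w => ∑ s ∈ range (S.n + 1), ((b.cmp.new s (S.gm s w) (S.x w)).card : ℝ)) := by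
        rw [← Finset.mul_sum, S.P.E_sum]
    _ = 2 * S.P.E (fun w => ((b.cmp.at' S.n w).card : ℝ)) := by
        congr 1
        exact S.P.E_congr fun w _ => b.cmp.sum_new S.n w
    _ ≤ 2 * (S.K * S.P.E (fun w => ((b.at' S.n w).card : ℝ))) :=
        mul_le_mul_of_nonneg_left (b.E_cmp hu S.n) (by norm_num)
    _ ≤ 2 * (S.K * B) := by
        refine mul_le_mul_of_nonneg_left (mul_le_mul_of_nonneg_left ?_ (le_trans zero_le_one S.K1)) (by norm_num)
        exact FP.E_le_const _ fun w _ => by exact_mod_cast hB _ _ _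
    _ = 2 * S.K * B := by ring

end seen

/-! ### the output of the names -/

section fin

variable (σ : NSt S a)

/-- the families of pairs of a value -/
def fam (v : Vl a (Finset ℕ) (Finset (ℕ × ℕ))) : Finset ({u : ι // u ≠ a} → ℕ × ℕ) := Fintype.piFinset v.2

/-- the coefficient of a family -/
def cfv (v : Vl a (Finset ℕ) (Finset (ℕ × ℕ))) (ζ : ℕ) (p : {u : ι // u ≠ a} → ℕ × ℕ) : ℝ :=
  σ.c v.1 (fun u => if h : u ≠ a then (v.2 ⟨u, h⟩).image Prod.fst else ∅) ζ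
    (fun u => if h : u ≠ a then (p ⟨u, h⟩).1 else σ.bb a 0)

/-- the number of the known function of a family -/
def hnv (ζ : ℕ) (p : {u : ι // u ≠ a} → ℕ × ℕ) : ℕ × (ι → ℕ) :=
  (ζ, fun u => if h : u ≠ a then (p ⟨u, h⟩).2 else σ.tr a a 0)

open Classical in
/-- **THE OUTPUT OF THE NAMES** -/
def fin (ez : ℕ → Γ → (ι → Pt) → Finset ℕ) (A : ℝ) : Fst ι Ξ Pt V Γ a (Finset ℕ) (Finset (ℕ × ℕ)) where
  e := ez
  f := lab σ
  Ph v t g x d := if ∑ ζ ∈ v.1, ∑ p ∈ fam v, |cfv σ v ζ p| ≤ A then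
    ∑ ζ ∈ v.1, ∑ p ∈ fam v, cfv σ v ζ p * σ.h.f (hnv σ ζ p) t g x d else 0
  on v t g x := ∀ ζ ∈ v.1, ∀ p ∈ fam v, σ.h.inn (hnv σ ζ p) t g x

variable {σ} {ez : ℕ → Γ → (ι → Pt) → Finset ℕ} {A : ℝ} {n B : ℕ} {dead : ℕ → Om → Prop}

/-- the codes of a family of pairs -/
theorem exists_codes {t : ℕ} {w : Om} {p : {u : ι // u ≠ a} → ℕ × ℕ} (hp : ∀ u : {u : ι // u ≠ a}, p u ∈ labp σ u.1 t w) :
    ∃ ν ∈ σ.fams t w, (∀ u : {u : ι // u ≠ a}, p u = (σ.bb u.1 (ν u.1), σ.tr u.1 a (ν u.1))) ∧ ν a = 0 := by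
  classical
  have h1 : ∀ u : {u : ι // u ≠ a}, ∃ ν ∈ σ.lists t w u.1, σ.bb u.1 ν = (p u).1 ∧ σ.tr u.1 a ν = (p u).2 := by
    intro u
    obtain ⟨⟨ν, h1, h2⟩, _⟩ := (mem_lab σ).1 (hp u)
    exact ⟨ν, h1, h2⟩
  choose μ h2 h3 using h1
  refine ⟨fun u => if h : u ≠ a then μ ⟨u, h⟩ else 0, ?_, ?_, ?_⟩
  · unfold NSt.fams
    rw [Fintype.mem_piFinset]
    intro u
    by_cases hu : u = a
    · rw [if_pos hu, dif_neg (fun h => h hu)]
      exact Finset.mem_singleton_self 0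
    · rw [if_neg hu, dif_pos hu]
      exact h2 ⟨u, hu⟩
  · intro u
    have h4 : (if h : u.1 ≠ a then μ ⟨u.1, h⟩ else 0) = μ u := by rw [dif_pos u.2]
    simp only [h4]
    exact Prod.ext (h3 u).1.symm (h3 u).2.symm
  · simp only [ne_eq, not_true_eq_false, dite_false]

/-- the pairs of a family of codes -/
def prs (σ : NSt S a) (ν : ι → ℕ) (u : {u : ι // u ≠ a}) : ℕ × ℕ := (σ.bb u.1 (ν u.1), σ.tr u.1 a (ν u.1))

theorem hnv_prs {ν : ι → ℕ} (h0 : ν a = 0) (ζ : ℕ) : hnv σ ζ (prs σ ν) = σ.hn ζ ν := by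
  unfold hnv NSt.hn prs
  refine Prod.ext rfl (funext fun u => ?_)
  by_cases h : u ≠ a
  · simp only [dif_pos h]
  · simp only [dif_neg h]
    push Not at h
    rw [h, h0]

theorem fams_a {t : ℕ} {w : Om} {ν : ι → ℕ} (hν : ν ∈ σ.fams t w) : ν a = 0 := by
  unfold NSt.fams at hν
  rw [Fintype.mem_piFinset] at hν
  have h1 := hν a
  rw [if_pos rfl] at h1
  exact Finset.mem_singleton.1 h1

theorem fams_u {t : ℕ} {w : Om} {ν : ι → ℕ} (hν : ν ∈ σ.fams t w) {u : ι} (hu : u ≠ a) : ν u ∈ σ.lists t w u := by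
  unfold NSt.fams at hν
  rw [Fintype.mem_piFinset] at hν
  have h1 := hν u
  rw [if_neg hu] at h1
  exact h1

/-- off dead the label is the image of the list -/
theorem labp_eq (hBd : σ.Bd n B A dead) {t : ℕ} (ht : t ≤ S.n) {w : Om} (hd : ¬ dead t w) {u : ι} (hu : u ≠ a) :
    labp σ u t w = (σ.lists t w u).image fun ν => (σ.bb u ν, σ.tr u a ν) := by
  ext p
  unfold labp
  rw [mem_lab, Finset.mem_image]
  constructor
  · rintro ⟨⟨ν, h1, h2, h3⟩, _⟩
    exact ⟨ν, h1, Prod.ext h2 h3⟩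
  · rintro ⟨ν, h1, rfl⟩
    exact ⟨⟨ν, h1, rfl, rfl⟩, hBd.subT t ht w hd u hu a (Or.inl rfl) ν h1⟩

/-- **the sum over the families of codes is the sum over the families of pairs** -/
theorem sum_fam (hBd : σ.Bd n B A dead) (hLa : ∀ t ≤ S.n, ∀ w, ¬ dead t w → σ.lists t w a = ∅) {t : ℕ} (ht : t ≤ S.n)
    {w : Om} (hd : ¬ dead t w) (z : Finset ℕ) (hz : z = σ.Z.at' t w) (ζ : ℕ) (φ : ℕ × (ι → ℕ) → ℝ → ℝ) :
    ∑ p ∈ fam ((z, fun u : {u : ι // u ≠ a} => labp σ u.1 t w) : Vl a (Finset ℕ) (Finset (ℕ × ℕ))),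
      φ (hnv σ ζ p) (cfv σ (z, fun u : {u : ι // u ≠ a} => labp σ u.1 t w) ζ p) =
      ∑ ν ∈ σ.fams t w, φ (σ.hn ζ ν) (σ.cf t w ζ ν) := by
  classical
  symm
  refine Finset.sum_bij (fun ν _ => prs σ ν) ?_ ?_ ?_ ?_
  · intro ν hν
    unfold fam
    rw [Fintype.mem_piFinset]
    intro u
    show prs σ ν u ∈ labp σ u.1 t w
    rw [labp_eq hBd ht hd u.2]
    exact Finset.mem_image.2 ⟨ν u.1, fams_u hν u.2, rfl⟩
  · intro ν hν ν' hν' h
    funext u
    by_cases hu : u = a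
    · rw [hu, fams_a hν, fams_a hν']
    · have h1 := congrFun h ⟨u, hu⟩
      unfold prs at h1
      exact hBd.inj t ht w hd u hu (fams_u hν hu) (fams_u hν' hu) (Prod.ext_iff.1 h1).1
  · intro p hp
    unfold fam at hp
    rw [Fintype.mem_piFinset] at hp
    obtain ⟨ν, h1, h2, _⟩ := exists_codes hp
    exact ⟨ν, h1, funext fun u => (h2 u).symm⟩
  · intro ν hν
    rw [hnv_prs (fams_a hν)]
    congr 1
    unfold NSt.cf cfv
    rw [hz]
    congr 1
    · funext u
      by_cases hu : u ≠ a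
      · rw [dif_pos hu]
        show (σ.lists t w u).image (σ.bb u) = (labp σ u t w).image Prod.fst
        rw [labp_eq hBd ht hd hu, Finset.image_image]
        rfl
      · rw [dif_neg hu]
        push Not at hu
        show (σ.lists t w u).image (σ.bb u) = ∅
        rw [hu, hLa t ht w hd, Finset.image_empty]
    · funext u
      by_cases hu : u ≠ a
      · rw [dif_pos hu]
        rfl
      · rw [dif_neg hu]
        push Not at hu
        rw [hu, fams_a hν]

/-- **off dead the form is the function of the true value** -/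
theorem val_eq (hDone : σ.Done) (hBd : σ.Bd n B A dead) (hLa : ∀ t ≤ S.n, ∀ w, ¬ dead t w → σ.lists t w a = ∅)
    (hez : ∀ t ≤ S.n, ∀ w, ¬ dead t w → σ.Z.at' t w = ez t (S.gm t w) (S.x w)) {t : ℕ} (ht : t ≤ S.n)
    {w : Om} (hd : ¬ dead t w) :
    (fin σ ez A).Ph ((fin σ ez A).tv S t w) t (S.gm t w) (S.x w) = σ.val t w := by
  classical
  funext d
  rw [hDone.val_eq]
  have hz := (hez t ht w hd).symm
  have h1 := fun ζ => sum_fam hBd hLa ht hd (ez t (S.gm t w) (S.x w)) hz ζ (fun _ r => |r|)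
  have h2 := fun ζ => sum_fam hBd hLa ht hd (ez t (S.gm t w) (S.x w)) hz ζ
    (fun m r => r * σ.h.f m t (S.gm t w) (S.x w) d)
  set v : Vl a (Finset ℕ) (Finset (ℕ × ℕ)) := (ez t (S.gm t w) (S.x w), fun u : {u : ι // u ≠ a} => labp σ u.1 t w) with hv
  have h3 : ∑ ζ ∈ ez t (S.gm t w) (S.x w), ∑ p ∈ fam v, |cfv σ v ζ p| ≤ A := by
    rw [Finset.sum_congr rfl fun ζ _ => h1 ζ, hz]
    exact hBd.sum t ht w hd
  show (if ∑ ζ ∈ ez t (S.gm t w) (S.x w), ∑ p ∈ fam v, |cfv σ v ζ p| ≤ A then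
    ∑ ζ ∈ ez t (S.gm t w) (S.x w), ∑ p ∈ fam v, cfv σ v ζ p *
      σ.h.f (hnv σ ζ p) t (S.gm t w) (S.x w) d else 0) = _
  rw [if_pos h3, Finset.sum_congr rfl fun ζ _ => h2 ζ, hz]
  rfl

/-- the value of the form, off dead -/
theorem T_eq (hDone : σ.Done) (hBd : σ.Bd n B A dead) (hLa : ∀ t ≤ S.n, ∀ w, ¬ dead t w → σ.lists t w a = ∅)
    (hez : ∀ t ≤ S.n, ∀ w, ¬ dead t w → σ.Z.at' t w = ez t (S.gm t w) (S.x w)) {t : ℕ} (ht : t ≤ S.n)
    {w : Om} (hd : ¬ dead t w) :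
    iw (S.J t w) ((fin σ ez A).Ph ((fin σ ez A).tv S t w) t (S.gm t w) (S.x w)) (fun _ => 1) = σ.T t w := by
  rw [val_eq hDone hBd hLa hez ht hd]
  rfl

/-- **THE OUTPUT OF THE NAMES IS GOOD** -/
theorem fin_ok (hP : Pubn S a Q) (hBd : σ.Bd n B A dead) (hOn : σ.On dead)
    (hez : ∀ t ≤ S.n, ∀ w, ¬ dead t w → σ.Z.at' t w = ez t (S.gm t w) (S.x w))
    (hez' : ∀ t g, Dep (univ.erase a) (ez t g)) (hA : 0 ≤ A)
    (hL : ∀ u, u ≠ a → ∀ t g ξ x, ((σ.Lam u).L t g ξ x).card ≤ n)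
    (hPT : ∀ u, u ≠ a → ∀ t g x, ((σ.PT u a).L t g x).card ≤ B) (hbb : ∀ u, u ≠ a → ∀ ν, σ.bb u ν ≤ B)
    {M0 : ℕ} (hM0 : 0 < M0) :
    (fin σ ez A).Ok S Q A n (2 * S.K * B / M0) (((B + 1) * M0 + 1) ^ n) dead := by
  classical
  have hK : 0 ≤ S.K := le_trans zero_le_one S.K1
  have hM0' : (0 : ℝ) < M0 := by exact_mod_cast hM0
  refine
    { e_dep := hez'
      f_lab := fun u hu => LabN.of_dep (lab_dep σ hu)
      Ph_dep := ?_
      on_dep := ?_
      keep := fun v t g x h ζ hζ p hp => σ.h.keep _ t g x (h ζ hζ p hp)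
      stat := ?_
      bd := ?_
      A0 := hA
      q0 := by positivity
      inc := hBd.inc
      olds := ?_
      chf := fun u hu => lab_chf σ (hL u hu) S.n
      vf := ?_ }
  · intro v t g x y hxy
    funext d
    show (if ∑ ζ ∈ v.1, ∑ p ∈ fam v, |cfv σ v ζ p| ≤ A then
      ∑ ζ ∈ v.1, ∑ p ∈ fam v, cfv σ v ζ p * σ.h.f (hnv σ ζ p) t g x d else 0) =
      (if ∑ ζ ∈ v.1, ∑ p ∈ fam v, |cfv σ v ζ p| ≤ A then
      ∑ ζ ∈ v.1, ∑ p ∈ fam v, cfv σ v ζ p * σ.h.f (hnv σ ζ p) t g y d else 0)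
    simp only [σ.h.f_dep _ t g x y hxy]
  · intro v t g x y hxy
    show (∀ ζ ∈ v.1, ∀ p ∈ fam v, σ.h.inn (hnv σ ζ p) t g x) = (∀ ζ ∈ v.1, ∀ p ∈ fam v, σ.h.inn (hnv σ ζ p) t g y)
    simp only [σ.h.inn_dep _ t g x y hxy]
  · intro v t g x h
    funext d
    show (if ∑ ζ ∈ v.1, ∑ p ∈ fam v, |cfv σ v ζ p| ≤ A then
      ∑ ζ ∈ v.1, ∑ p ∈ fam v, cfv σ v ζ p * σ.h.f (hnv σ ζ p) (t + 1) g x d else 0) =
      (if ∑ ζ ∈ v.1, ∑ p ∈ fam v, |cfv σ v ζ p| ≤ A then
      ∑ ζ ∈ v.1, ∑ p ∈ fam v, cfv σ v ζ p * σ.h.f (hnv σ ζ p) t (S.par t g) x d else 0)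
    have h1 : ∑ ζ ∈ v.1, ∑ p ∈ fam v, cfv σ v ζ p * σ.h.f (hnv σ ζ p) (t + 1) g x d =
        ∑ ζ ∈ v.1, ∑ p ∈ fam v, cfv σ v ζ p * σ.h.f (hnv σ ζ p) t (S.par t g) x d := by
      refine Finset.sum_congr rfl fun ζ hζ => Finset.sum_congr rfl fun p hp => ?_
      rw [σ.h.stat _ t g x (h ζ hζ p hp)]
    rw [h1]
  · intro v t g x d
    show |(if ∑ ζ ∈ v.1, ∑ p ∈ fam v, |cfv σ v ζ p| ≤ A then
      ∑ ζ ∈ v.1, ∑ p ∈ fam v, cfv σ v ζ p * σ.h.f (hnv σ ζ p) t g x d else 0)| ≤ A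
    split_ifs with h
    · refine le_trans ?_ h
      refine (Finset.abs_sum_le_sum_abs _ _).trans (Finset.sum_le_sum fun ζ _ => ?_)
      refine (Finset.abs_sum_le_sum_abs _ _).trans (Finset.sum_le_sum fun p _ => ?_)
      rw [abs_mul]
      exact mul_le_of_le_one_right (abs_nonneg _) (σ.h.le1 _ _ _ _ _)
    · rw [abs_zero]
      exact hA
  · -- old values are on
    rintro t ht w hd v ⟨hv1, hv2⟩ ζ hζ p hp
    have hp' : ∀ u : {u : ι // u ≠ a}, p u ∈ labp σ u.1 t w := by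
      intro u
      obtain ⟨s, hs, h1⟩ := hv2 u
      unfold fam at hp
      rw [Fintype.mem_piFinset] at hp
      have h2 := hp u
      rw [h1] at h2
      have h3 : ∀ r, s ≤ r → labp σ u.1 s w ⊆ labp σ u.1 r w := by
        intro r hr
        induction hr with
        | refl => exact subset_rfl
        | step _ ih => exact ih.trans (labp_succ σ u.1 _ w)
      exact h3 t hs h2
    obtain ⟨ν, h1, h2, h3⟩ := exists_codes hp'
    have h4 : hnv σ ζ p = σ.hn ζ ν := by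
      have h5 : p = prs σ ν := funext fun u => h2 u
      rw [h5, hnv_prs h3]
    have h5 : ζ ∈ σ.Z.at' t w := by
      rw [hez t ht w hd]
      have h6 : v.1 = ez t (S.gm t w) (S.x w) := hv1
      rw [← h6]
      exact hζ
    rw [h4]
    exact hOn t ht w hd ζ h5 ν h1
  · -- few values
    intro u hu
    have h1 := E_seen hP hu (σ.PT u a) (hPT u hu)
    have h2 := S.P.markov (f := fun w => ((seen Q (σ.PT u a).cmp w).card : ℝ)) (fun w _ => Nat.cast_nonneg _) (M0 : ℝ)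
    have h3 : S.P.Pr (fun w => (M0 : ℝ) ≤ ((seen Q (σ.PT u a).cmp w).card : ℝ)) ≤ 2 * S.K * B / M0 := by
      rw [le_div_iff₀ hM0', mul_comm]
      exact h2.trans h1
    refine le_trans (S.P.Pr_mono fun w0 _ hw0 => ?_) h3
    by_contra hlt
    rw [not_le] at hlt
    refine hw0 ?_
    have hlt' : (seen Q (σ.PT u a).cmp w0).card ≤ M0 := by
      have : (seen Q (σ.PT u a).cmp w0).card < M0 := by exact_mod_cast hlt
      omega
    refine ⟨((range (B + 1) ×ˢ seen Q (σ.PT u a).cmp w0).powerset.filter (fun s => s.card ≤ n)), ?_, ?_⟩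
    · refine (card_small _ n).trans (Nat.pow_le_pow_left ?_ n)
      rw [Finset.card_product, Finset.card_range]
      exact Nat.add_le_add_right (Nat.mul_le_mul_left _ hlt') 1
    · intro t ht o ho w hw hx
      rw [Finset.mem_filter, Finset.mem_powerset]
      refine ⟨fun p hp => ?_, lab_card σ (hL u hu) _ _ _ _⟩
      obtain ⟨⟨ν, _, h4, _⟩, h5⟩ := (mem_lab σ).1 hp
      rw [Finset.mem_product]
      refine ⟨Finset.mem_range.2 ?_, ?_⟩
      · rw [← h4]
        exact Nat.lt_succ_of_le (hbb u hu ν)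
      · exact seen_mem hP (σ.PT u a) ht hw hx ho h5

end fin

end

end Pool.Agent.GM.Nam
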