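import Pool.Agent.GM.PieceAsm
import Pool.Agent.GM.ColdBinE
import Pool.Agent.GM.CMcMov

/-!
# GM/NatAOf (helper42): the natural view of the vertex which carries the coins is cold, from theorem CM with a coin

**`Asm.natA_of_cmcAll`** : `GS.CMcAll j C → NatA j False`, every `j`.
-/

set_option autoImplicit false
set_option linter.unusedSectionVars false

namespace Pool.Agent.GM.Asm

open Finset Pool.Agent.PWZ Pool.Agent.M3 Pool.Agent.M3.Bin Pool.Agent.GM

noncomputable section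

/-- **natural coldness, with the coin of the hidden vertex** -/
theorem natA_of_cmcAll {j C : ℕ} (hA : GS.CMcAll j C) : NatA j False := by
  intro c1
  obtain ⟨C2, h2⟩ := GS.coldc_faces hA (c1 + 1)
  refine ⟨(c1 + 1) * C2 + c1, ?_⟩
  intro ι Θ Ξ Q _ _ _ _ _ _ _ _ k N σ a δ hN h haδ hι β H Λ hβ hβ2 hH hK hn hΛ hΛ2 F HF _
  have hH2 := one_le_of_inv hβ hβ2 hH
  have hβ1 : β ≤ 1 := by linarith
  set β' : ℝ := β ^ (c1 + 1) with hβ'
  set H' : ℝ := H ^ (c1 + 1) with hH'
  have hb0 : 0 < β' := by positivity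
  have hb2 : β' ≤ 1 / 2 := by
    refine le_trans ?_ hβ2
    calc β ^ (c1 + 1) ≤ β ^ 1 := pow_le_pow_of_le_one hβ.le hβ1 (by omega)
      _ = β := pow_one β
  have hbH : 1 / β' ≤ H' := by
    rw [hβ', hH', one_div, ← inv_pow, ← one_div]
    exact pow_le_pow_left₀ (by positivity) hH _
  have hHH : H ≤ H' := by
    calc H = H ^ 1 := (pow_one H).symm
      _ ≤ H ^ (c1 + 1) := pow_le_pow_right₀ (by linarith) (by omega)
  have hpb : β ^ ((c1 + 1) * C2 + c1) ≤ β' ^ C2 := by
    rw [hβ', ← pow_mul]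
    exact pow_le_pow_of_le_one hβ.le hβ1 (by omega)
  have hpH : H' ^ C2 ≤ Λ := by
    refine le_trans ?_ hΛ
    rw [hH', ← pow_mul]
    exact pow_le_pow_right₀ (by linarith) (by omega)
  have h3 := h2 ι Θ Ξ Q k N σ a δ hN h hι haδ.symm β' H' Λ hb0 hb2 hbH (hK.trans (Real.exp_le_exp.2 hHH))
    (hn.trans hpb) hpH F (HF.mono_m hHH hpb)
  have he : Real.exp (-H' ^ (c1 + 1)) ≤ Real.exp (-H ^ c1) := by
    refine Real.exp_le_exp.2 (neg_le_neg ?_)
    rw [hH', ← pow_mul]
    exact pow_le_pow_right₀ (by linarith) (by nlinarith)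
  refine h3.mono ?_ he he
  exact pow_le_pow_of_le_one hβ.le hβ1 (by omega)

end

end Pool.Agent.GM.Asm
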