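import Pool.Agent.GM.Top4
import Pool.Agent.GM.CMcBin
import Pool.Agent.GM.HotInC4
import Pool.Agent.GM.MovLayC
import Pool.Agent.GM.NatAOf
import Pool.Agent.GMJR.JR2F

/-!
# GM/Nat4 (helper42): the cold sets of `j - 1` vertices with a coin; FOUR VERTICES, UNCONDITIONAL

* `HotAllC j`, **`cmcAll_of`** : `2 ≤ j → NamAllc j 1 → HotAllC j → ∃ C, CMcAll j C` (every `j`);
* `natA_of_nam` : `NatA j False` from the same inputs;
* unconditional (by `jr2M_four`): `namAllc4`, **`cmAll_four`**, **`cmcAll_four`**, **`natA_four : Asm.NatA 4 False`**.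
-/

set_option autoImplicit false
set_option linter.unusedSectionVars false

namespace Pool.Agent.GM.Top

open Finset Filter Pool.Agent.PWZ Pool.Agent.M3 Pool.Agent.M3.TS Pool.Agent.M3.Bin Pool.Agent.GM Pool.Agent.GM.GS
  Pool.Agent.GMN

noncomputable section

/-- the cold inputs of theorem CM with a coin, all parameters -/
def HotAllC (j : ℕ) : Prop := ∀ κ : ℝ, ∃ c2 : ℕ, ∀ c c1 : ℕ, c2 ≤ c → ∃ C : ℕ, HotInC j κ c c1 C

/-- **THEOREM CM WITH A COIN for every piece with `j` vertices** -/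
theorem cmcAll_of {j : ℕ} (hj : 2 ≤ j) (hN : NamAllc j 1) (hH : HotAllC j) : ∃ C : ℕ, CMcAll j C := by
  obtain ⟨c2, h2⟩ := hH 1
  obtain ⟨c00, h3⟩ := cmcFine_of j hj
  obtain ⟨c, D, hc, hNb⟩ := hN (max c00 (c2 + 1))
  obtain ⟨c1, h4⟩ := h3 (max c00 (c2 + 1)) (le_max_left _ _) D
  obtain ⟨C, h5⟩ := h2 c c1 (by
    have := le_max_right c00 (c2 + 1)
    omega)
  have hF : CMcFine j 1 c C := h4 1 c C hNb h5
  obtain ⟨C', hP⟩ := cmc_ref one_pos (by omega) hF
  obtain ⟨C1, hL⟩ := Lay.layers_c j hj (κ := 1 / 2) (by norm_num) C'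
  exact ⟨C1, cmcAll_of_piece hL hP⟩

/-- the natural coldness with a coin -/
theorem natA_of_nam {j : ℕ} (hj : 2 ≤ j) (hN : NamAllc j 1) (hH : HotAllC j) : Asm.NatA j False := by
  obtain ⟨C, hC⟩ := cmcAll_of hj hN hH
  exact Asm.natA_of_cmcAll hC

theorem hotAllC4 {j : ℕ} (hj : j ≤ 4) : HotAllC j := by
  intro κ
  obtain ⟨c2, h⟩ := hotInC_le4 j hj
  refine ⟨c2, fun c c1 hc => ?_⟩
  obtain ⟨C, hC⟩ := h c hc κ c1
  exact ⟨C, hC C le_rfl⟩

/-- the names of every piece with four vertices -/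
theorem namAllc4 {κ : ℝ} (hκ : κ ≤ 1) : NamAllc 4 κ := namM (by norm_num) GMJR.jr2M_four (smi3 Asm.natA_three) hκ

/-- **the cold sets of three vertices, coin free, of a piece with four vertices** -/
theorem cmAll_four : ∃ C : ℕ, CMAll 4 C := cmAll_of (by norm_num) (namAllc4 le_rfl) hotAll4

/-- **the cold sets of three vertices, with a coin, of a piece with four vertices** -/
theorem cmcAll_four : ∃ C : ℕ, CMcAll 4 C := cmcAll_of (by norm_num) (namAllc4 le_rfl) (hotAllC4 le_rfl)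

/-- **the natural coldness with a coin, four vertices** -/
theorem natA_four : Asm.NatA 4 False := natA_of_nam (by norm_num) (namAllc4 le_rfl) (hotAllC4 le_rfl)

end

end Pool.Agent.GM.Top
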