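import Pool.Agent.GM.ColdXNat
import Pool.Agent.GM.PieceAsm

/-!
# GM/NatA3: the natural view of the coin vertex is cold, from the cold set `univ.erase a` (helper68)

* **`natA_of_sets`** : `2 ≤ j → ColdSets j free (n + 1 = j) → NatA j free` (every `j`);
* **`natA_three`** : `NatA 3 False`;
* **`coldA_three`** : `ColdA 3 False`, the cold hypotheses of a piece with three vertices, unconditional.
-/

set_option autoImplicit false
set_option linter.unusedSectionVars false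

namespace Pool.Agent.GM.Asm

open Finset Pool.Agent.PWZ Pool.Agent.M3 Pool.Agent.M3.TS Pool.Agent.M3.Bin Pool.Agent.GM

noncomputable section

/-- the numbers -/
theorem nat_num (c1 : ℕ) {β H : ℝ} {h : ℕ} (hβ : 0 < β) (hβ2 : β ≤ 1 / 2) (hH : 1 / β ≤ H)
    (hK : (2 : ℝ) ^ (h + 3) ≤ Real.exp H) : ∃ D : ℕ, (D : ℝ) ≤ H ^ (c1 + 5) ∧ h + 3 ≤ D ∧
      β ^ (c1 + 5) + 4 * ((2 : ℝ) ^ D)⁻¹ ≤ β ^ c1 ∧
      3 * Real.exp (-H ^ (c1 + 5)) + Real.exp (-(H ^ (c1 + 5) / 2)) + 4 * ((2 : ℝ) ^ D)⁻¹ ≤ Real.exp (-H ^ c1) ∧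
      Real.exp (-H ^ (c1 + 5)) / Real.exp (-(H ^ (c1 + 5) / 2)) ≤ Real.exp (-H ^ c1) := by
  have hH2 : 2 ≤ H := one_le_of_inv hβ hβ2 hH
  have hH1 : 1 ≤ H := by linarith
  have hβ1 : β ≤ 1 := by linarith
  set x := H ^ c1 with hx
  set y := H ^ (c1 + 5) with hy
  have hx1 : 1 ≤ x := one_le_pow₀ hH1
  have hyx : 32 * x ≤ y := by
    have h1 : (2 : ℝ) ^ 5 ≤ H ^ 5 := pow_le_pow_left₀ (by norm_num) hH2 5
    have h2 : y = x * H ^ 5 := pow_add _ _ _
    rw [h2]
    nlinarith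
  have hy0 : 0 ≤ y := by linarith
  refine ⟨⌊y⌋₊, Nat.floor_le hy0, ?_, ?_, ?_, ?_⟩
  · -- h + 3 ≤ D
    refine Nat.le_floor ?_
    have h1 : Real.exp (((h + 3 : ℕ) : ℝ) * (1 / 2)) ≤ (2 : ℝ) ^ (h + 3) := by
      rw [Real.exp_nat_mul]
      refine pow_le_pow_left₀ (Real.exp_pos _).le ?_ _
      have h2 : Real.exp (1 / 2) ^ 2 = Real.exp 1 := by
        rw [← Real.exp_nat_mul]
        norm_num
      have h3 := Real.exp_one_lt_d9
      nlinarith [Real.exp_pos (1 / 2 : ℝ)]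
    have h4 := Real.exp_le_exp.1 (h1.trans hK)
    have h5 : H ^ 2 ≤ y := pow_le_pow_right₀ hH1 (by omega)
    nlinarith
  all_goals
    have h2D : 4 * ((2 : ℝ) ^ ⌊y⌋₊)⁻¹ ≤ 8 * Real.exp (-(y / 2)) := by
      have h1 : Real.exp (y / 2) ≤ 2 * (2 : ℝ) ^ ⌊y⌋₊ := by
        have h2 : y ≤ ((⌊y⌋₊ + 1 : ℕ) : ℝ) := by
          push_cast
          exact (Nat.lt_floor_add_one y).le
        have h3 : Real.exp (y / 2) ≤ Real.exp (((⌊y⌋₊ + 1 : ℕ) : ℝ) * (1 / 2)) := Real.exp_le_exp.2 (by linarith)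
        refine h3.trans ?_
        have h6 : (2 : ℝ) * 2 ^ ⌊y⌋₊ = 2 ^ (⌊y⌋₊ + 1) := (pow_succ' 2 _).symm
        rw [h6, Real.exp_nat_mul]
        refine pow_le_pow_left₀ (Real.exp_pos _).le ?_ _
        have h4 : Real.exp (1 / 2) ^ 2 = Real.exp 1 := by
          rw [← Real.exp_nat_mul]
          norm_num
        have h5 := Real.exp_one_lt_d9
        nlinarith [Real.exp_pos (1 / 2 : ℝ)]
      rw [Real.exp_neg]
      have h7 : (0 : ℝ) < 2 ^ ⌊y⌋₊ := by positivity
      have h8 : 0 < Real.exp (y / 2) := Real.exp_pos _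
      rw [← div_eq_mul_inv, ← div_eq_mul_inv, div_le_div_iff₀ h7 h8]
      linarith
    have h15 : 12 * Real.exp (-(y / 2)) ≤ Real.exp (-x) := by
      have h1 : Real.exp (-(y / 2)) ≤ Real.exp (-x) * Real.exp (-(15 * x)) := by
        rw [← Real.exp_add]
        exact Real.exp_le_exp.2 (by linarith)
      have h2 : 12 * Real.exp (-(15 * x)) ≤ 1 := by
        have h3 := Real.add_one_le_exp (15 * x)
        have h4 : Real.exp (15 * x) * Real.exp (-(15 * x)) = 1 := by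
          rw [← Real.exp_add]
          simp
        have h5 := Real.exp_pos (-(15 * x))
        nlinarith
      have h3 := Real.exp_pos (-x)
      calc 12 * Real.exp (-(y / 2)) ≤ 12 * (Real.exp (-x) * Real.exp (-(15 * x))) := by linarith
        _ = Real.exp (-x) * (12 * Real.exp (-(15 * x))) := by ring
        _ ≤ Real.exp (-x) * 1 := mul_le_mul_of_nonneg_left h2 h3.le
        _ = _ := mul_one _
  · -- the accuracy
    have h1 : 1 / β ^ c1 ≤ x := by
      rw [hx, ← one_div_pow]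
      exact pow_le_pow_left₀ (by positivity) hH c1
    have hb : 0 < β ^ c1 := by positivity
    have h2 : β ^ (c1 + 5) ≤ β ^ c1 / 4 := by
      have h3 : β ^ (c1 + 5) = β ^ c1 * β ^ 5 := pow_add _ _ _
      have h4 : β ^ 5 ≤ (1 / 2) ^ 5 := pow_le_pow_left₀ hβ.le hβ2 5
      rw [h3]
      nlinarith
    have h3 : 8 * Real.exp (-(y / 2)) ≤ β ^ c1 / 2 := by
      have h4 : 1 ≤ x * β ^ c1 := by rwa [div_le_iff₀ hb] at h1
      have h5 : 16 * x ≤ Real.exp (16 * x) := by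
        have := Real.add_one_le_exp (16 * x)
        linarith
      have h6 : Real.exp (-(y / 2)) ≤ Real.exp (-(16 * x)) := Real.exp_le_exp.2 (by linarith)
      have h7 : Real.exp (16 * x) * Real.exp (-(16 * x)) = 1 := by
        rw [← Real.exp_add]
        simp
      have h8 := Real.exp_pos (-(16 * x))
      have h9 : 16 * x * Real.exp (-(16 * x)) ≤ 1 := by
        have := mul_le_mul_of_nonneg_right h5 h8.le
        linarith
      -- 16 exp (-16 x) ≤ 1 / x ≤ β ^ c1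
      have h10 : 16 * Real.exp (-(16 * x)) ≤ β ^ c1 := by
        have h11 : 16 * Real.exp (-(16 * x)) ≤ 16 * Real.exp (-(16 * x)) * (x * β ^ c1) :=
          le_mul_of_one_le_right (by positivity) h4
        have h12 : 16 * Real.exp (-(16 * x)) * (x * β ^ c1) = 16 * x * Real.exp (-(16 * x)) * β ^ c1 := by ring
        have h13 : 16 * x * Real.exp (-(16 * x)) * β ^ c1 ≤ 1 * β ^ c1 := mul_le_mul_of_nonneg_right h9 hb.le
        linarith
      linarith
    linarith
  · -- the total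
    have h1 : Real.exp (-y) ≤ Real.exp (-(y / 2)) := Real.exp_le_exp.2 (by linarith)
    linarith
  · -- Doob
    rw [← Real.exp_sub]
    have h1 : Real.exp (-y - -(y / 2)) = Real.exp (-(y / 2)) := by
      congr 1
      ring
    rw [h1]
    have := Real.exp_pos (-(y / 2))
    linarith

/-- **THE NATURAL VIEW FROM THE COLD SET `univ.erase a`**, every `j` -/
theorem natA_of_sets {j : ℕ} (hj : 2 ≤ j) {free : Prop} (hA : ColdSets j free (fun n => n + 1 = j)) : NatA j free := by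
  intro c1
  obtain ⟨C1, _, h2⟩ := hA (c1 + 5)
  refine ⟨C1, ?_⟩
  intro ι Θ Ξ Q _ _ _ _ _ _ _ _ k N σ a δ hN h _ hι β H Λ hβ hβ2 hH hK hn hΛ hΛ2 F HF hf
  have hK' : (2 : ℝ) ^ (h + 3) ≤ Real.exp H := by
    refine le_trans ?_ hK
    show (2 : ℝ) ^ (h + 3) ≤ (((Fintype.card ι + 4) * 2 ^ (h + 3) : ℕ) : ℝ)
    push_cast
    have h1 : (0 : ℝ) < 2 ^ (h + 3) := by positivity
    have h2 : (0 : ℝ) ≤ Fintype.card ι := Nat.cast_nonneg _
    nlinarith
  obtain ⟨D, d1, d2, d3, d4, d5⟩ := nat_num c1 hβ hβ2 hH hK'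
  have hcard : (univ.erase a : Finset ι).card + 1 = j := by
    rw [Finset.card_erase_of_mem (Finset.mem_univ _), Finset.card_univ, hι]
    omega
  have hne : (univ.erase a : Finset ι).Nonempty := by
    rw [← Finset.card_pos]
    omega
  obtain ⟨⟨Hot, hC⟩, -⟩ := h2 ι Θ Ξ Q k N σ a δ hN h hι β H Λ hβ hβ2 hH hK hn hΛ hΛ2 F HF hf D d1 (univ.erase a) hne
    hcard
  have hmain := coldAt_of_coldX (σ := σ) (a := a) (hN := hN) (h := h) (d := D) (D := D) (by omega) le_rfl d2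
    (F := F) (fun w t g ξ x z => HF.bd w (mem_univ w) t g ξ x z) (HF.zero a (mem_univ a)) (Real.exp_pos _).le hC d3
    (by positivity) (Real.exp_pos (-(H ^ (c1 + 5) / 2)))
  unfold GS.ColdAt at hmain ⊢
  refine le_trans (FP.Pr_mono _ fun w _ hw => ?_) (hmain.trans d5)
  obtain ⟨t, ht, h3⟩ := hw
  exact ⟨t, ht, d4.trans h3⟩

/-- **THE NATURAL VIEW OF A PIECE WITH THREE VERTICES, coins included** -/
theorem natA_three : NatA 3 False :=
  natA_of_sets (by norm_num) ((coldSets_le2 3).mono fun n hn => by omega)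

/-- **THE COLD HYPOTHESES OF A PIECE WITH THREE VERTICES** -/
theorem coldA_three : ColdA 3 False :=
  coldA_of (by norm_num) ((coldSets_le2 3).mono fun n hn => by omega) natA_three

end

end Pool.Agent.GM.Asm
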