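import Pool.Agent.GM.ColdXs
import Pool.Agent.GM.TransferN

/-!
# GM/NatX: coldness in the natural classes with coins, public and private randomness (row P5, helper36)

Base space `Sq k N ι Θ P`; the coin `ξ : Ξ` of one face (weights `wx`) is a separate factor; class `Nk x S hh e` : public
randomness, exact path of `x`, vertices of `S` with their private randomness, cells of the others; the coin is averaged.

* `ce_bri` : classes of `Sq` which are classes of `S2`; `Nk_nv` : the natural class of the pair;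
* **`natX_pair`** : THE PAIR `a`, `b` in the natural view of every other vertex (theorem C2);
* `natX_fix` : from every value of the coin to the average.
-/

set_option autoImplicit false
set_option linter.unusedSectionVars false

namespace Pool.Agent.GM

open Finset Pool.Agent.PWZ Pool.Agent.M3 Pool.Agent.M3.Bin
open Pool.Agent.GMC (Enu oth oth_inj oth_range c2_main Qb cf cf_macro Pu va vb vo nw ct prj ptS gl brI brH PTc chg FmA FmB
  Zs ce_Zs rnd Cfg S2 Ns nv)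
open Pool.Agent.M3.Mod (ex nd av ce_unif_image)

noncomputable section

variable {k N n : ℕ} {ι Θ P Ξ : Type} [Fintype ι] [DecidableEq ι] (s : V k)
  [Fintype Θ] [Nonempty Θ] [Fintype P] [Nonempty P] [Fintype Ξ]

omit [Fintype Ξ] in
/-- classes of `Sq` which are the classes of `S2` and the public randomness -/
theorem ce_bri {a b : ι} (hab : a ≠ b) (o : Enu n a b) {κ κ' : Type*} {X : Sq k N ι Θ P → κ} {Y : S2 k N n P → κ'}
    (w : Sq k N ι Θ P)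
    (hX : ∀ v, X v = X w ↔ GM.th v = GM.th w ∧ Y (prj hab o v) = Y (prj hab o w)) (f : Sq k N ι Θ P → ℝ) :
    Pm.ce X f w = (Pu k N n P).ce Y (fun ω => f (ptS hab o (GM.th w) ω)) (prj hab o w) := by
  classical
  have h1 : Pm.ce X f w = (((univ.filter fun ω => Y ω = Y (prj hab o w)).card : ℝ))⁻¹ *
      ∑ x ∈ univ.filter (fun ω => Y ω = Y (prj hab o w)), f (ptS hab o (GM.th w) x) := by
    unfold Pm
    refine ce_unif_image (φ := fun ω => ptS hab o (GM.th w) ω) ?_ ?_ f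
    · intro x _ y _ hxy
      have h2 := congrArg (prj hab o) hxy
      rwa [GMC.prj_ptS, GMC.prj_ptS] at h2
    · intro v
      rw [hX]
      constructor
      · rintro ⟨h2, h3⟩
        refine ⟨prj hab o v, Finset.mem_filter.2 ⟨mem_univ _, h3⟩, ?_⟩
        rw [← h2, GMC.ptS_prj]
      · rintro ⟨x, hx, rfl⟩
        rw [GMC.prj_ptS]
        exact ⟨rfl, (Finset.mem_filter.1 hx).2⟩
  have h2 : (Pu k N n P).ce Y (fun ω => f (ptS hab o (GM.th w) ω)) (prj hab o w) =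
      (((univ.filter fun ω => Y ω = Y (prj hab o w)).card : ℝ))⁻¹ *
      ∑ x ∈ univ.filter (fun ω => Y ω = Y (prj hab o w)), f (ptS hab o (GM.th w) x) := by
    unfold Pu
    refine ce_unif_image (φ := fun ω => ω) ?_ ?_ _
    · intro x _ y _ hxy
      exact hxy
    · intro v
      constructor
      · intro h3
        exact ⟨v, Finset.mem_filter.2 ⟨mem_univ _, h3⟩, rfl⟩
      · rintro ⟨x, hx, rfl⟩
        exact (Finset.mem_filter.1 hx).2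
  rw [h1, h2]

omit [Fintype Θ] [Nonempty Θ] [Fintype P] [Nonempty P] [Fintype Ξ] in
/-- the natural class of the pair is the class `nv` of `S2` -/
theorem Nk_nv {a b : ι} (hab : a ≠ b) (o : Enu n a b) (h0 : Fin n) (hh t : ℕ) (v w : Sq k N ι Θ P) :
    Nk (oth o h0) {a, b} hh (ex N t) v = Nk (oth o h0) {a, b} hh (ex N t) w ↔
      GM.th v = GM.th w ∧ nv (hh + 3) h0 t (prj hab o v) = nv (hh + 3) h0 t (prj hab o w) := by
  have ha : oth o h0 ≠ a := (o h0).2.1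
  have hb : oth o h0 ≠ b := (o h0).2.2
  have hinj := oth_inj o
  unfold Nk Yk nv Ns
  simp only [Prod.mk.injEq]
  constructor
  · rintro ⟨h1, h2, h3, h4⟩
    refine ⟨h1, ?_, ?_, h2, funext fun j => ?_⟩
    · exact congrFun h3 ⟨a, by simp [ha.symm]⟩
    · exact congrFun h3 ⟨b, by simp [hb.symm]⟩
    · have h5 : oth o j.1 ∉ insert (oth o h0) ({a, b} : Finset ι) := by
        rw [Finset.mem_insert, Finset.mem_insert, Finset.mem_singleton]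
        rintro (h6 | h6 | h6)
        · exact j.2 (hinj h6)
        · exact (o j.1).2.1 h6
        · exact (o j.1).2.2 h6
      exact congrFun h4 ⟨oth o j.1, h5⟩
  · rintro ⟨h1, h2, h3, h4, h5⟩
    refine ⟨h1, h4, funext fun j => ?_, funext fun j => ?_⟩
    · obtain ⟨j, hj⟩ := j
      rw [Finset.mem_erase, Finset.mem_insert, Finset.mem_insert, Finset.mem_singleton] at hj
      rcases hj.2 with h6 | h6 | h6
      · exact absurd h6 hj.1
      · subst h6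
        exact h2
      · subst h6
        exact h3
    · obtain ⟨j, hj⟩ := j
      have hj' := hj
      rw [Finset.mem_insert, not_or] at hj'
      have h6 : j ∈ Set.range (oth o) := by
        by_contra h7
        exact hj'.2 ((oth_range o j).2 h7)
      obtain ⟨l, rfl⟩ := h6
      exact congrFun h5 ⟨l, fun h7 => hj'.1 (by rw [h7])⟩

/-- **THE PAIR `a`, `b` IN THE NATURAL VIEW OF EVERY OTHER VERTEX `x`**, coins averaged -/
theorem natX_pair (n : ℕ) : ∃ C : ℝ, 0 < C ∧ ∃ c : ℕ, ∀ {k N : ℕ} {ι Θ P Ξ : Type} [Fintype ι] [DecidableEq ι]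
    [Fintype Θ] [Nonempty Θ] [Fintype P] [Nonempty P] [Fintype Ξ]
    {a b x : ι} (_ : a ≠ b) (_ : x ≠ a) (_ : x ≠ b) (o : Enu n a b) (s : V k) {h h' q : ℕ} {p : ℝ}
    {R : Θ → Ξ → ι → Fam k ι P} {wx : Ξ → ℝ}
    (_ : ∀ ξ, 0 ≤ wx ξ) (_ : ∑ ξ, wx ξ = 1) (_ : N ≤ k) (_ : 4 * n ≤ 2 ^ (h' + 3)) (_ : h ≤ h')
    (_ : ∀ θ ξ i, FOn ({i}ᶜ : Set ι) (R θ ξ i)) (_ : ∀ θ ξ i, FLe 1 (R θ ξ i))
    (_ : ∀ θ ξ ξ' i, i ≠ a → i ≠ b → R θ ξ i = R θ ξ' i)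
    (_ : ∀ θ, (∀ ξ ξ', R θ ξ a = R θ ξ' a) ∨ ∀ ξ ξ', R θ ξ b = R θ ξ' b)
    {tt eps0 : ℝ} (_ : 0 < tt) (_ : tt < 1) (_ : 0 ≤ eps0)
    (_ : ∀ θ, PTc wx h' N (fun ξ => FmA o s h (R θ ξ b)) tt eps0)
    (_ : ∀ θ, PTc wx h' N (fun ξ => FmB o s h (R θ ξ a)) tt eps0)
    (_ : ∀ θ, chg N Θ P s h wx (fun ξ => R θ ξ a) ≤ p) (_ : ∀ θ, chg N Θ P s h wx (fun ξ => R θ ξ b) ≤ p)
    {r s' δ ρ : ℝ} (_ : 0 < s') (_ : s' ≤ 1) (_ : 0 < δ) (_ : δ ≤ 1) (_ : s' + 4 * ((2 : ℝ) ^ h)⁻¹ ≤ r)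
    (_ : eps0 ≤ (s' / 2) ^ (2 ^ n)) (_ : 8 ≤ 4 ^ q * δ) (_ : 2 * ((n + 1) * δ) < ρ / 2),
    (Pm : FP (Sq k N ι Θ P)).Pr (fun ω => ∃ t ≤ N, ρ ≤ Pm.ce (Nk x {a, b} h' (ex N t))
      (fun v => ∑ ξ, wx ξ * ind (r ≤ |TT s h (R (th v) ξ) (ex N t) v|)) ω) ≤
      2 / ρ * (C * Qb ((s' ^ (2 * q) * δ) ^ (2 ^ n) / 2) p q (2 ^ (h' + 3)) ^ c * (tt * (1 + Real.log (1 / tt)))) := by
  classical
  obtain ⟨C, hC, c, h0⟩ := c2_main n
  refine ⟨C, hC, c, ?_⟩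
  intro k N ι Θ P Ξ _ _ _ _ _ _ _ a b x hab hxa hxb o s h h' q p R wx wx0 wx1 hN hn hh' hR hR1 hoth hc tt eps0 htt htt1 heps
    hPA hPB hva hvb r s' δ ρ hs0 hs1 hδ0 hδ1 hr he hq hρ
  have hnum := kernel_num n hs0 hδ0 heps he hq
  have hq1 : 1 ≤ q := by
    by_contra hcon
    have : q = 0 := by omega
    rw [this, pow_zero, one_mul] at hq
    linarith
  have hle : (s' ^ (2 * q) * δ) ^ (2 ^ n) / 2 ≤ 1 := by
    have h1 : s' ^ (2 * q) * δ ≤ 1 := mul_le_one₀ (pow_le_one₀ hs0.le hs1) hδ0.le hδ1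
    have h2 : (s' ^ (2 * q) * δ) ^ (2 ^ n) ≤ 1 := pow_le_one₀ (by positivity) h1
    linarith
  have hpos : 0 < (s' ^ (2 * q) * δ) ^ (2 ^ n) / 2 := by positivity
  have hρ0 : 0 < ρ := by
    have h1 : 0 ≤ 2 * (((n : ℝ) + 1) * δ) := by positivity
    linarith
  have hne : Nonempty Ξ := by
    by_contra hcon
    rw [not_nonempty_iff] at hcon
    rw [Finset.univ_eq_empty, Finset.sum_empty] at wx1
    exact zero_ne_one wx1
  have ξ0 : Ξ := Classical.arbitrary Ξ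
  have hp0 : ∀ θ : Θ, 0 ≤ p := fun θ => le_trans (Finset.sum_nonneg fun e _ => Finset.sum_nonneg fun ξ _ =>
    mul_nonneg (wx0 ξ) (FP.Pr_nonneg _ _)) (hva θ)
  obtain ⟨i0, hi0⟩ : x ∈ Set.range (oth o) := by
    by_contra h1
    have h2 := (oth_range o x).2 h1
    rw [Finset.mem_insert, Finset.mem_singleton] at h2
    exact h2.elim hxa hxb
  subst hi0
  refine GMC.Pr_bri hab o fun θ => ?_
  set I := insX s o N h h' q ((s' ^ (2 * q) * δ) ^ (2 ^ n) / 2) tt wx (R θ) with hI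
  have hH := h0 _ p eps0 (insX_H (Θ := Θ) s hab o hN wx0 wx1 (hR θ) (hR1 θ) (hc θ) (hPA θ) (hPB θ) (hva θ) (hvb θ) hn hq1 heps
    hnum hpos hle htt htt1 (hp0 θ))
  have hRnd : I.RndH s h := {
    leA := fun e g x y ξ z => hR1 _ ξ b _ _ _ _
    leB := fun e g x y ξ z => hR1 _ ξ a _ _ _ _
    rndA := fun e y y' hy => by
      show (fun x z ξ => FmA o s h (R θ ξ b) e y x z) = fun x z ξ => FmA o s h (R θ ξ b) e y' x z
      unfold FmA
      rw [hy]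
    rndB := fun e y y' hy => by
      show (fun x z ξ => FmB o s h (R θ ξ a) e y x z) = fun x z ξ => FmB o s h (R θ ξ a) e y' x z
      unfold FmB
      rw [hy] }
  have h1 := GMC.Ins.cold_all (I := I) wx0 wx1 hN hRnd (show h ≤ h' + 3 by omega)
    (tsX_H s hab o h (hR θ ξ0) (hR1 θ ξ0)) hs0 hδ0.le (le_of_eq (by
      show 2 * ((s' ^ (2 * q) * δ) ^ (2 ^ n) / 2) = (s' ^ (2 * q) * δ) ^ (2 ^ n)
      ring)) hρ i0
  have h2 : (Pu k N n P).Pr (fun ω => ∃ t ≤ N, ρ ≤ Pm.ce (Nk (oth o i0) {a, b} h' (ex N t))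
      (fun v => ∑ ξ, wx ξ * ind (r ≤ |TT s h (R (GM.th v) ξ) (ex N t) v|)) (ptS hab o θ ω)) ≤
      (Pu k N n P).Pr (fun ω => ∃ t ≤ N, ρ ≤ (Pu k N n P).ce (nv I.hh i0 t) (fun ω' => ∑ ξ, I.wx ξ *
        ind (s' + 4 * ((2 : ℝ) ^ h)⁻¹ ≤ |I.val (tsX s o h (R θ ξ0)) ((n + 1) * t) ω' ξ|)) ω) := by
    refine FP.Pr_mono _ fun ω _ => ?_
    rintro ⟨t, ht, h3⟩
    refine ⟨t, ht, h3.trans ?_⟩
    rw [ce_bri hab o (X := Nk (oth o i0) {a, b} h' (ex N t)) (Y := nv (h' + 3) i0 t) (ptS hab o θ ω)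
      (fun v => Nk_nv hab o i0 h' t v _), GMC.prj_ptS]
    refine FP.ce_mono _ (fun ω' _ => ?_) ω
    refine Finset.sum_le_sum fun ξ _ => mul_le_mul_of_nonneg_left (ind_mono fun h4 => ?_) (wx0 ξ)
    have h5 := TT_val s hab o (h := h) (h' := h') (q := q) (r := (s' ^ (2 * q) * δ) ^ (2 ^ n) / 2) (tt := tt) (wx := wx)
      (hR θ) (hoth θ) ξ ξ0 t (ptS hab o θ ω')
    rw [GMC.prj_ptS] at h5
    rw [hI, h5]
    exact hr.trans h4
  have h3 := h2.trans (le_of_mul_le_mul_left (a := ρ / 2) (h1.trans (le_of_eq (by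
    show _ = ρ / 2 * (2 / ρ * (Pu k N n P).Pr (I.hot N))
    field_simp))) (by linarith))
  refine h3.trans (mul_le_mul_of_nonneg_left hH (by positivity))

/-- from every value of the coin to the average over the coin -/
theorem natX_fix {x : ι} {S : Finset ι} {hh h : ℕ} {R : Θ → Ξ → ι → Fam k ι P} {wx : Ξ → ℝ} (wx0 : ∀ ξ, 0 ≤ wx ξ)
    (wx1 : ∑ ξ, wx ξ = 1) {r ρ e σ : ℝ} (hρ : 0 ≤ ρ) (hσ : 0 < σ)
    (H : ∀ ξ, (Pm : FP (Sq k N ι Θ P)).Pr (fun ω => ∃ t ≤ N, ρ ≤ Pm.ce (Nk x S hh (ex N t))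
      (fun v => ind (r ≤ |TT s h (R (th v) ξ) (ex N t) v|)) ω) ≤ e) :
    (Pm : FP (Sq k N ι Θ P)).Pr (fun ω => ∃ t ≤ N, ρ + σ ≤ Pm.ce (Nk x S hh (ex N t))
      (fun v => ∑ ξ, wx ξ * ind (r ≤ |TT s h (R (th v) ξ) (ex N t) v|)) ω) ≤ e / σ := by
  classical
  have h1 : (Pm : FP (Sq k N ι Θ P)).E (fun ω => ∑ ξ, wx ξ * ind (∃ t ≤ N, ρ ≤ Pm.ce (Nk x S hh (ex N t))
      (fun v => ind (r ≤ |TT s h (R (th v) ξ) (ex N t) v|)) ω)) ≤ e := by
    rw [FP.E_sum]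
    have h2 : ∀ ξ ∈ (univ : Finset Ξ), (Pm : FP (Sq k N ι Θ P)).E (fun ω => wx ξ * ind (∃ t ≤ N,
        ρ ≤ Pm.ce (Nk x S hh (ex N t)) (fun v => ind (r ≤ |TT s h (R (th v) ξ) (ex N t) v|)) ω)) ≤ wx ξ * e := by
      intro ξ _
      rw [FP.E_smul]
      exact mul_le_mul_of_nonneg_left (H ξ) (wx0 ξ)
    refine (Finset.sum_le_sum h2).trans (le_of_eq ?_)
    rw [← Finset.sum_mul, wx1, one_mul]
  rw [le_div_iff₀ hσ]
  have h3 := (Pm : FP (Sq k N ι Θ P)).markov (f := fun ω => ∑ ξ, wx ξ * ind (∃ t ≤ N, ρ ≤ Pm.ce (Nk x S hh (ex N t))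
      (fun v => ind (r ≤ |TT s h (R (th v) ξ) (ex N t) v|)) ω))
    (fun w _ => Finset.sum_nonneg fun ξ _ => mul_nonneg (wx0 ξ) (ind_nonneg _)) σ
  refine le_trans ?_ h1
  refine le_trans ?_ h3
  rw [mul_comm]
  refine mul_le_mul_of_nonneg_left (FP.Pr_mono _ fun ω _ => ?_) hσ.le
  rintro ⟨t, ht, h4⟩
  have h5 : Pm.ce (Nk x S hh (ex N t)) (fun v => ∑ ξ, wx ξ * ind (r ≤ |TT s h (R (th v) ξ) (ex N t) v|)) ω ≤
      ρ + ∑ ξ, wx ξ * ind (∃ t ≤ N, ρ ≤ Pm.ce (Nk x S hh (ex N t))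
        (fun v => ind (r ≤ |TT s h (R (th v) ξ) (ex N t) v|)) ω) := by
    rw [FP.ce_sum]
    have h6 : ρ = ∑ ξ, wx ξ * ρ := by rw [← Finset.sum_mul, wx1, one_mul]
    rw [show ρ + ∑ ξ, wx ξ * ind (∃ t ≤ N, ρ ≤ Pm.ce (Nk x S hh (ex N t))
        (fun v => ind (r ≤ |TT s h (R (th v) ξ) (ex N t) v|)) ω) = (∑ ξ, wx ξ * ρ) + ∑ ξ, wx ξ * ind (∃ t ≤ N,
        ρ ≤ Pm.ce (Nk x S hh (ex N t)) (fun v => ind (r ≤ |TT s h (R (th v) ξ) (ex N t) v|)) ω) from by rw [← h6]]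
    rw [← Finset.sum_add_distrib]
    refine Finset.sum_le_sum fun ξ _ => ?_
    rw [FP.ce_smul, ← mul_add]
    refine mul_le_mul_of_nonneg_left ?_ (wx0 ξ)
    by_cases h7 : ρ ≤ Pm.ce (Nk x S hh (ex N t)) (fun v => ind (r ≤ |TT s h (R (th v) ξ) (ex N t) v|)) ω
    · rw [ind_of (⟨t, ht, h7⟩ : ∃ t ≤ N, ρ ≤ Pm.ce (Nk x S hh (ex N t))
        (fun v => ind (r ≤ |TT s h (R (th v) ξ) (ex N t) v|)) ω)]
      have h8 : Pm.ce (Nk x S hh (ex N t)) (fun v => ind (r ≤ |TT s h (R (th v) ξ) (ex N t) v|)) ω ≤ 1 :=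
        FP.ce_le_const _ (fun v _ => ind_le_one _) (Pm_ne ω)
      linarith
    · have h8 := ind_nonneg (∃ t ≤ N, ρ ≤ Pm.ce (Nk x S hh (ex N t))
        (fun v => ind (r ≤ |TT s h (R (th v) ξ) (ex N t) v|)) ω)
      linarith [not_le.1 h7]
  linarith

end

end Pool.Agent.GM
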