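import Pool.Agent.GMC.Asm
import Pool.Agent.GM.BridgeC2
import Pool.Agent.GM.ColdOn

/-!
# GM/PairCold: PAIRS ARE COLD in the model `Sq`, every number of vertices (theorem C2 and its bridge; helper83)

* `pair_cold` : the probability of the hot event `HotP` of the pair;
* `kernel_num` : the numbers `q`, `r` of the kernel from the accuracy `s'` and the rarity `δ`;
* `coldOn_pair` : the format `ColdOn` (hypothesis (C) of G5.0) for `S = {a, b}`: if the two faces `a`, `b` are product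
  tested (`θ`, `r1`), the families are bounded by one and change their values at most `p` times on average, then the
  process is `< r` outside the hot points and outside the probability `2 ^ (n D) (n + 1) δ` given `x_a`, `x_b`, all the
  noise and cells of the others.
-/

set_option autoImplicit false
set_option linter.unusedSectionVars false

namespace Pool.Agent.GM

open Finset Pool.Agent.PWZ Pool.Agent.M3 Pool.Agent.M3.Bin
open Pool.Agent.GMC (Enu oth oth_inj oth_range insU insU_H c2_main Qb cf cf_macro)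
open Pool.Agent.M3.Mod (ex)

noncomputable section

/-- mean number of changes of the values of a family -/
def nch {k : ℕ} {ι : Type} [Fintype ι] [DecidableEq ι] (s : V k) (h N : ℕ) (R : Fam k ι Unit) : ℝ :=
  ∑ t ∈ range N, (Pm : FP (Sq k N ι Unit Unit)).E (fun ω => ind (fv s h R (N - t) ω ≠ fv s h R (N - (t + 1)) ω))

theorem nch_nonneg {k : ℕ} {ι : Type} [Fintype ι] [DecidableEq ι] (s : V k) (h N : ℕ) (R : Fam k ι Unit) :
    0 ≤ nch s h N R := Finset.sum_nonneg fun _ _ => FP.E_nonneg _ fun _ _ => ind_nonneg _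

/-- **pairs are cold**: probability of the hot event -/
theorem pair_cold (n : ℕ) : ∃ C : ℝ, 0 < C ∧ ∃ c : ℕ, ∀ {k N : ℕ} {ι : Type} [Fintype ι] [DecidableEq ι]
    {a b : ι} (_ : a ≠ b) (o : Enu n a b) (s : V k) {h h' q : ℕ} {r p : ℝ} {R : ι → Fam k ι Unit}
    (_ : N ≤ k) (_ : 4 * n ≤ 2 ^ (h' + 3)) (_ : h ≤ h') (_ : 1 ≤ q)
    (_ : ∀ i, FOn ({i}ᶜ : Set ι) (R i)) (_ : ∀ i, FLe 1 (R i)) {θ r1 B : ℝ} (_ : 0 < θ) (_ : 1 ≤ B) (_ : 0 ≤ r1)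
    (_ : PT a h N (R a) θ r1 B) (_ : PT b h N (R b) θ r1 B) (_ : θ * 2 ^ ((h' - h) * (n + 1)) < 1)
    (_ : 4 * (r1 + 2 * ((2 : ℝ) ^ h)⁻¹) ^ (2 * q) ≤ r) (_ : r ≤ 1) (_ : nch s h N (R a) ≤ p) (_ : nch s h N (R b) ≤ p),
    (Pm : FP (Sq k N ι Unit Unit)).Pr (fun ω => HotP s h R o q (h' + 3) r N ω) ≤
      C * Qb r p q (2 ^ (h' + 3)) ^ c * (θ * 2 ^ ((h' - h) * (n + 1)) *
        (1 + Real.log (1 / (θ * 2 ^ ((h' - h) * (n + 1)))))) := by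
  obtain ⟨C, hC, c, h0⟩ := c2_main n
  refine ⟨C, hC, c, ?_⟩
  intro k N ι _ _ a b hab o s h h' q r p R hN hn hh' hq hR hR1 θ r1 B hθ hB hr1 hPa hPb hth hr hrle hpa hpb
  classical
  have heps : 0 < r1 + 2 * ((2 : ℝ) ^ h)⁻¹ := by positivity
  have hrpos : 0 < r := lt_of_lt_of_le (by positivity) hr
  have hthpos : 0 < θ * 2 ^ ((h' - h) * (n + 1)) := by positivity
  have H : GMC.InsH (insU (P := Unit) N o s h h' (h' + 3) q 0 r (θ * 2 ^ ((h' - h) * (n + 1))) R) p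
      (r1 + 2 * ((2 : ℝ) ^ h)⁻¹) :=
    insU_H (Θ := Unit) hab o s hN hn le_rfl hh' hq hR hR1 hθ.le hB hPa hPb rfl rfl heps.le hr hrpos hrle hthpos hth
      ((nch_nonneg s h N (R a)).trans hpa) hpa hpb
  exact HotP_Pr (Θ := Unit) s hab o (h' := h') (L := 0) (th := θ * 2 ^ ((h' - h) * (n + 1))) hR (h0 _ _ _ H)

/-- the numbers of the kernel -/
theorem kernel_num (n : ℕ) {s' δ eps0 : ℝ} {q : ℕ} (hs0 : 0 < s') (hδ0 : 0 < δ) (he0 : 0 ≤ eps0)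
    (he : eps0 ≤ (s' / 2) ^ (2 ^ n)) (hq : 8 ≤ 4 ^ q * δ) :
    4 * eps0 ^ (2 * q) ≤ (s' ^ (2 * q) * δ) ^ (2 ^ n) / 2 := by
  have h1 : eps0 ^ (2 * q) ≤ ((s' / 2) ^ (2 * q)) ^ (2 ^ n) := by
    calc eps0 ^ (2 * q) ≤ ((s' / 2) ^ (2 ^ n)) ^ (2 * q) := pow_le_pow_left₀ he0 he _
      _ = _ := by rw [← pow_mul, ← pow_mul, mul_comm]
  have h2 : (s' / 2) ^ (2 * q) ≤ s' ^ (2 * q) * δ / 8 := by
    have h3 : (s' / 2) ^ (2 * q) = s' ^ (2 * q) / 4 ^ q := by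
      rw [div_pow]
      congr 1
      rw [pow_mul]
      norm_num
    rw [h3, div_le_div_iff₀ (by positivity) (by norm_num)]
    have h4 : 0 ≤ s' ^ (2 * q) := by positivity
    calc s' ^ (2 * q) * 8 ≤ s' ^ (2 * q) * (4 ^ q * δ) := mul_le_mul_of_nonneg_left hq h4
      _ = s' ^ (2 * q) * δ * 4 ^ q := by ring
  have h5 : ((s' / 2) ^ (2 * q)) ^ (2 ^ n) ≤ (s' ^ (2 * q) * δ) ^ (2 ^ n) / 8 := by
    calc ((s' / 2) ^ (2 * q)) ^ (2 ^ n) ≤ (s' ^ (2 * q) * δ / 8) ^ (2 ^ n) := pow_le_pow_left₀ (by positivity) h2 _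
      _ = (s' ^ (2 * q) * δ) ^ (2 ^ n) / 8 ^ (2 ^ n) := by rw [div_pow]
      _ ≤ (s' ^ (2 * q) * δ) ^ (2 ^ n) / 8 := by
          refine div_le_div_of_nonneg_left (by positivity) (by norm_num) ?_
          calc (8 : ℝ) = 8 ^ 1 := (pow_one _).symm
            _ ≤ 8 ^ (2 ^ n) := pow_le_pow_right₀ (by norm_num) Nat.one_le_two_pow
  linarith

/-- **THE PAIR `a`, `b` IS COLD**, format of the last step -/
theorem coldOn_pair (n : ℕ) : ∃ C : ℝ, 0 < C ∧ ∃ c : ℕ, ∀ {k N : ℕ} {ι : Type} [Fintype ι] [DecidableEq ι]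
    (Θ P : Type) [Fintype Θ] [Nonempty Θ] [Fintype P] [Nonempty P]
    {a b : ι} (_ : a ≠ b) (o : Enu n a b) (s : V k) {h h' D q : ℕ} {p : ℝ} {R : ι → Fam k ι Unit}
    (_ : N ≤ k) (_ : 4 * n ≤ 2 ^ (h' + 3)) (_ : h ≤ h')
    (_ : ∀ i, FOn ({i}ᶜ : Set ι) (R i)) (_ : ∀ i, FLe 1 (R i)) {θ r1 B : ℝ} (_ : 0 < θ) (_ : 1 ≤ B) (_ : 0 ≤ r1)
    (_ : PT a h N (R a) θ r1 B) (_ : PT b h N (R b) θ r1 B) (_ : θ * 2 ^ ((h' - h) * (n + 1)) < 1)
    (_ : nch s h N (R a) ≤ p) (_ : nch s h N (R b) ≤ p)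
    {r s' δ : ℝ} (_ : 0 < s') (_ : s' ≤ 1) (_ : 0 < δ) (_ : δ ≤ 1) (_ : s' + 4 * ((2 : ℝ) ^ h)⁻¹ ≤ r)
    (_ : r1 + 2 * ((2 : ℝ) ^ h)⁻¹ ≤ (s' / 2) ^ (2 ^ n)) (_ : 8 ≤ 4 ^ q * δ),
    ColdOn s N h R Θ P {a, b} D r (2 ^ (n * D) * ((n + 1) * δ))
      (C * Qb ((s' ^ (2 * q) * δ) ^ (2 ^ n) / 2) p q (2 ^ (h' + 3)) ^ c * (θ * 2 ^ ((h' - h) * (n + 1)) *
        (1 + Real.log (1 / (θ * 2 ^ ((h' - h) * (n + 1)))))))
      (fun t ω => HotP s h R o q (h' + 3) ((s' ^ (2 * q) * δ) ^ (2 ^ n) / 2) t ω) := by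
  obtain ⟨C, hC, c, h0⟩ := pair_cold n
  refine ⟨C, hC, c, ?_⟩
  intro k N ι _ _ Θ P _ _ _ _ a b hab o s h h' D q p R hN hn hh' hR hR1 θ r1 B hθ hB hr1 hPa hPb hth hpa hpb
    r s' δ hs0 hs1 hδ0 hδ1 hr he hq
  have heps : 0 ≤ r1 + 2 * ((2 : ℝ) ^ h)⁻¹ := by positivity
  have hnum := kernel_num n hs0 hδ0 heps he hq
  have hq1 : 1 ≤ q := by
    by_contra hcon
    have : q = 0 := by omega
    rw [this, pow_zero, one_mul] at hq
    linarith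
  have hle : (s' ^ (2 * q) * δ) ^ (2 ^ n) / 2 ≤ 1 := by
    have h1 : s' ^ (2 * q) * δ ≤ 1 := mul_le_one₀ (pow_le_one₀ hs0.le hs1) hδ0.le hδ1
    have h2 : (s' ^ (2 * q) * δ) ^ (2 ^ n) ≤ 1 := pow_le_one₀ (by positivity) h1
    linarith
  have hPr := h0 hab o s hN hn hh' hq1 hR hR1 hθ hB hr1 hPa hPb hth hnum hle hpa hpb
  refine coldOn_node (o := oth o) (oth_inj o) (oth_range o) hN hR hR1 (q := q) (r0 := fun t => N - t - (h' + 3))
    (fun t => ?_) (fun t ω hω => HotP_mono s (Nat.le_succ t) hω) hPr (s' := s')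
    (ρ := 2 * ((s' ^ (2 * q) * δ) ^ (2 ^ n) / 2)) hs0 hδ0.le hr ?_ (le_of_eq (by ring))
  · unfold ex
    omega
  · intro t h1 ht ω hω
    by_contra hcon
    refine hω ⟨(n + 1) * t, le_rfl, ?_⟩
    rw [cf_macro]
    exact (not_le.mp hcon).le

end

end Pool.Agent.GM
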