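import Pool.Agent.GMC.Asm
import Pool.Agent.GMC.Node
import Pool.Agent.GMC.Bridge
import Pool.Agent.GM.ColdOn
import Pool.Agent.GM.PairCold

/-!
# GM/PairColdX: PAIRS ARE COLD with coins, public and private randomness (row A10, helper83)

Base space `Sq k N ι Θ P`; the coin `ξ : Ξ` of one face (weights `wx`) is a separate factor; families `R θ ξ i`; process
`TT s h (R (th w) ξ) (ex N t) w`.

* `ColdX s N h0 R wx S D r σ e H` : the format `ColdOn` with coins: the class is `Zk S r'` (public randomness, vertices of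
  `S` with their private randomness, all the noise, cells of the others), WITHOUT the coin, which is averaged;
* `HotX` : hot event of the pair (with coins); `HotX_mass` : its probability (theorem C2);
* `ce_Zc_prj` : the class `Zc` of `Sq` is the class `Zs` of `S2`;
* `TT_val` : the process is the value `val` of the instance;
* `coldX_pair` : **THE PAIR `a`, `b` IS COLD** from `PTc` and `chg` of the two faces for every value of the public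
  randomness; the other faces are arbitrary, bounded by one, without the coin.
-/

set_option autoImplicit false
set_option linter.unusedSectionVars false

namespace Pool.Agent.GM

open Finset Pool.Agent.PWZ Pool.Agent.M3 Pool.Agent.M3.Bin
open Pool.Agent.GMC (Enu oth oth_inj oth_range c2_main Qb cf cf_macro Pu va vb vo nw ct prj ptS gl brI brH PTc chg FmA FmB
  Zs ce_Zs rnd Cfg)
open Pool.Agent.M3.Mod (ex nd av)

noncomputable section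

variable {k N n : ℕ} {ι Θ P Ξ : Type} [Fintype ι] [DecidableEq ι] (s : V k)
  [Fintype Θ] [Nonempty Θ] [Fintype P] [Nonempty P] [Fintype Ξ]

/-- COLDNESS OF THE SET `S` OF KNOWN VERTICES, coins averaged -/
structure ColdX (N h0 : ℕ) (R : Θ → Ξ → ι → Fam k ι P) (wx : Ξ → ℝ) (S : Finset ι) (D : ℕ) (r σ e : ℝ)
    (H : ℕ → Sq k N ι Θ P → Ξ → Prop) : Prop where
  inc : ∀ t ω ξ, H t ω ξ → H (t + 1) ω ξ
  mass : (Pm : FP (Sq k N ι Θ P)).E (fun ω => ∑ ξ, wx ξ * ind (H N ω ξ)) ≤ e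
  cold : ∀ t, 1 ≤ t → t ≤ N → ∀ r', r' ≤ ex N t - (h0 + 3) → ex N t - r' ≤ D → ∀ w : Sq k N ι Θ P,
    Pm.ce (Zk S r') (fun v => ∑ ξ, wx ξ * ind (r ≤ |TT s h0 (R (th v) ξ) (ex N t) v| ∧ ¬ H t v ξ)) w ≤ σ

variable {s}

theorem ColdX.mono {N h0 : ℕ} {R : Θ → Ξ → ι → Fam k ι P} {wx : Ξ → ℝ} (wx0 : ∀ ξ, 0 ≤ wx ξ) {S : Finset ι}
    {D D' : ℕ} {r r1 σ σ' e e' : ℝ} {H : ℕ → Sq k N ι Θ P → Ξ → Prop} (C : ColdX s N h0 R wx S D r σ e H)
    (hD : D' ≤ D) (hr : r ≤ r1) (hσ : σ ≤ σ') (he : e ≤ e') : ColdX s N h0 R wx S D' r1 σ' e' H where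
  inc := C.inc
  mass := C.mass.trans he
  cold t h1 ht r' h2 h3 w := by
    refine le_trans (FP.ce_mono _ (fun _ _ => ?_) w) ((C.cold t h1 ht r' h2 (h3.trans hD) w).trans hσ)
    exact Finset.sum_le_sum fun ξ _ => mul_le_mul_of_nonneg_left (ind_mono fun h => ⟨hr.trans h.1, h.2⟩) (wx0 ξ)

/-- more hot points -/
theorem ColdX.enlarge {N h0 : ℕ} {R : Θ → Ξ → ι → Fam k ι P} {wx : Ξ → ℝ} (wx0 : ∀ ξ, 0 ≤ wx ξ) {S : Finset ι}
    {D : ℕ} {r σ e e' : ℝ} {H H' : ℕ → Sq k N ι Θ P → Ξ → Prop} (C : ColdX s N h0 R wx S D r σ e H)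
    (hH : ∀ t ω ξ, H t ω ξ → H' t ω ξ) (hinc : ∀ t ω ξ, H' t ω ξ → H' (t + 1) ω ξ)
    (hm : (Pm : FP (Sq k N ι Θ P)).E (fun ω => ∑ ξ, wx ξ * ind (H' N ω ξ)) ≤ e') :
    ColdX s N h0 R wx S D r σ e' H' where
  inc := hinc
  mass := hm
  cold t h1 ht r' h2 h3 w := by
    refine le_trans (FP.ce_mono _ (fun _ _ => ?_) w) (C.cold t h1 ht r' h2 h3 w)
    exact Finset.sum_le_sum fun ξ _ => mul_le_mul_of_nonneg_left (ind_mono fun h => ⟨h.1, fun h4 => h.2 (hH _ _ _ h4)⟩)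
      (wx0 ξ)

/-- for every value of the coin, then on average -/
theorem ColdX.of_fix {N h0 : ℕ} {R : Θ → Ξ → ι → Fam k ι P} {wx : Ξ → ℝ} (wx0 : ∀ ξ, 0 ≤ wx ξ) (wx1 : ∑ ξ, wx ξ = 1)
    {S : Finset ι} {D : ℕ} {r σ e : ℝ} {H : ℕ → Sq k N ι Θ P → Ξ → Prop}
    (C : ∀ ξ, ColdX s N h0 (fun θ (_ : Unit) => R θ ξ) (fun _ => 1) S D r σ e (fun t w _ => H t w ξ)) :
    ColdX s N h0 R wx S D r σ e H where
  inc t ω ξ := (C ξ).inc t ω ()
  mass := by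
    rw [FP.E_sum]
    have h1 : ∀ ξ ∈ (univ : Finset Ξ), (Pm : FP (Sq k N ι Θ P)).E (fun ω => wx ξ * ind (H N ω ξ)) ≤ wx ξ * e := by
      intro ξ _
      rw [FP.E_smul]
      refine mul_le_mul_of_nonneg_left ?_ (wx0 ξ)
      have h2 := (C ξ).mass
      simpa using h2
    refine (Finset.sum_le_sum h1).trans (le_of_eq ?_)
    rw [← Finset.sum_mul, wx1, one_mul]
  cold t h1 ht r' h2 h3 w := by
    rw [FP.ce_sum]
    have h4 : ∀ ξ ∈ (univ : Finset Ξ), Pm.ce (Zk S r') (fun v => wx ξ * ind (r ≤ |TT s h0 (R (th v) ξ) (ex N t) v| ∧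
        ¬ H t v ξ)) w ≤ wx ξ * σ := by
      intro ξ _
      rw [FP.ce_smul]
      refine mul_le_mul_of_nonneg_left ?_ (wx0 ξ)
      have h5 := (C ξ).cold t h1 ht r' h2 h3 w
      simpa using h5
    refine (Finset.sum_le_sum h4).trans (le_of_eq ?_)
    rw [← Finset.sum_mul, wx1, one_mul]

variable (s)

/-! ## the projection of the class -/

omit [Fintype Ξ] in
theorem pto_prj {a b : ι} (hab : a ≠ b) (o : Enu n a b) (om : Fin n → P × V k) (w : Sq k N ι Θ P) :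
    pto (oth o) om w = ptS hab o (th w) (GMC.rep om (prj hab o w)) := by
  refine Prod.ext rfl (Prod.ext ?_ rfl)
  funext i
  change exo (oth o) (vs w) om i = gl o (vx a w) (vx b w) om i
  rcases GMC.cases_o o i with h1 | h1 | ⟨j, h1⟩
  · rw [h1, GMC.gl_a]
    refine exo_not _ _ fun ⟨j, hj⟩ => ?_
    have h2 := (o j).2.1
    exact h2 hj
  · rw [h1, GMC.gl_b hab]
    refine exo_not _ _ fun ⟨j, hj⟩ => ?_
    have h2 := (o j).2.2
    exact h2 hj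
  · rw [h1, GMC.gl_o]
    exact exo_o (oth_inj o) _ _ j

omit [Fintype Ξ] in
theorem ce_Zc_prj {a b : ι} (hab : a ≠ b) (o : Enu n a b) {c : Cfg n} (hc : ∀ i, c.2 i ≤ k) (f : Sq k N ι Θ P → ℝ)
    (w : Sq k N ι Θ P) :
    Pm.ce (Zc (oth o) c) f w = (Pu k N n P).ce (Zs c) (fun ω => f (ptS hab o (th w) ω)) (prj hab o w) := by
  rw [ce_pm (0 : V k) (oth_inj o) hc, ce_Zs hc]
  unfold GM99.pm
  refine Finset.sum_congr rfl fun om _ => ?_
  beta_reduce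
  rw [pto_prj hab o]
  rfl

/-! ## the value of the process -/

/-- the other faces -/
def tsX {a b : ι} (o : Enu n a b) (h : ℕ) (R : ι → Fam k ι P) : GMC.Ins.Tst k n P :=
  fun i e y xa xb x z => R (oth o i) e (rnd s h e y) (gl o xa xb x) (z + s)

omit [Fintype P] [Nonempty P] [Fintype Ξ] in
theorem tsX_H {a b : ι} (hab : a ≠ b) (o : Enu n a b) (h : ℕ) {R : ι → Fam k ι P} (hR : ∀ i, FOn ({i}ᶜ : Set ι) (R i))
    (hR1 : ∀ i, FLe 1 (R i)) : GMC.Ins.TstH s h (tsX s o h R) where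
  le _ _ _ _ _ _ _ := hR1 _ _ _ _ _
  rnd i e y y' hy := by
    unfold tsX
    rw [hy]
  mis i e y xa xb x x' hx z := by
    unfold tsX
    refine congrFun (hR (oth o i) e _ fun j hj => ?_) _
    rcases GMC.cases_o o j with h1 | h1 | ⟨l, h1⟩
    · rw [h1, GMC.gl_a, GMC.gl_a]
    · rw [h1, GMC.gl_b hab, GMC.gl_b hab]
    · rw [h1, GMC.gl_o, GMC.gl_o]
      refine hx l fun h2 => hj ?_
      rw [h1, h2]
      rfl

/-- the instance of the pair -/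
def insX {a b : ι} (o : Enu n a b) (N : ℕ) (h h' q : ℕ) (r tt : ℝ) (wx : Ξ → ℝ) (R : Ξ → ι → Fam k ι P) :
    GMC.Ins k N n P Ξ :=
  brI o N s h h' (h' + 3) q 0 r tt wx (fun ξ => R ξ b) fun ξ => R ξ a

/-- the process is the value of the instance -/
theorem TT_val {a b : ι} (hab : a ≠ b) (o : Enu n a b) {h h' q : ℕ} {r tt : ℝ} {wx : Ξ → ℝ} {R : Ξ → ι → Fam k ι P}
    (hR : ∀ ξ i, FOn ({i}ᶜ : Set ι) (R ξ i)) (hoth : ∀ ξ ξ' i, i ≠ a → i ≠ b → R ξ i = R ξ' i) (ξ ξ0 : Ξ) (t : ℕ)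
    (w : Sq k N ι Θ P) :
    (insX s o N h h' q r tt wx R).val (tsX s o h (R ξ0)) ((n + 1) * t) (prj hab o w) ξ =
      TT s h (R ξ) (N - t) w := by
  have hcc : (insX s o N h h' q r tt wx R).cc ((n + 1) * t) = (N - t, fun _ => N - t - (h' + 3)) := cf_macro _ _ _
  unfold GMC.Ins.val GMC.Ins.ver
  have h0 : ((insX s o N h h' q r tt wx R).nu ((n + 1) * t) (prj hab o w)).1 =
      nd (N - t) (ct (prj hab o w)) (nw (prj hab o w)) := by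
    unfold GMC.Ins.nu
    rw [hcc]
    rfl
  rw [h0, hcc]
  simp only
  unfold TT
  rw [GMC.Yn_prj hab o s (N - t) w]
  simp only
  rw [← GMC.av_shift]
  congr 1
  funext z
  rw [GMC.prod_gl hab o]
  have hA := GMC.fv_A hab o s (th w) h (N - t) (hR ξ b) (prj hab o w) z
  have hB := GMC.fv_B hab o s (th w) h (N - t) (hR ξ a) (prj hab o w) z
  rw [GMC.ptS_prj] at hA hB
  rw [hA, hB, mul_comm (FmB o s h (R ξ a) (N - t) (nd (N - t) (ct (prj hab o w)) (nw (prj hab o w)))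
    (vb (prj hab o w)) (vo (prj hab o w)) z)]
  congr 1
  refine Finset.prod_congr rfl fun j _ => ?_
  have h1 : R ξ0 (oth o j) = R ξ (oth o j) := hoth ξ0 ξ _ (o j).2.1 (o j).2.2
  unfold tsX
  rw [h1]
  have h2 : GM.vs w = gl o (va (prj hab o w)) (vb (prj hab o w)) (vo (prj hab o w)) := by
    rw [← GMC.vs_pt hab o (th w), GMC.ptS_prj]
  have h3 : Gm s h (N - t) w = rnd s h (N - t) (nd (N - t) (ct (prj hab o w)) (nw (prj hab o w))) := by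
    rw [← GMC.Gm_pt' hab o s (th w), GMC.ptS_prj]
  show _ = R ξ (oth o j) (N - t) (Gm s h (N - t) w) (vs w) (z + s)
  rw [h2, h3]

/-- THE HOT EVENT of the pair, with coins -/
def HotX {a b : ι} (hab : a ≠ b) (o : Enu n a b) (h h' q : ℕ) (r tt : ℝ) (wx : Ξ → ℝ) (R : Θ → Ξ → ι → Fam k ι P)
    (t : ℕ) (w : Sq k N ι Θ P) : Prop :=
  (insX s o N h h' q r tt wx (R (GM.th w))).hot t (prj hab o w)

theorem HotX_mono {a b : ι} {hab : a ≠ b} {o : Enu n a b} {h h' q : ℕ} {r tt : ℝ} {wx : Ξ → ℝ}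
    {R : Θ → Ξ → ι → Fam k ι P} {t t' : ℕ} (htt : t ≤ t') {w : Sq k N ι Θ P} (H : HotX s hab o h h' q r tt wx R t w) :
    HotX s hab o h h' q r tt wx R t' w := by
  obtain ⟨u, hu, h1⟩ := H
  exact ⟨u, hu.trans (Nat.mul_le_mul_left _ htt), h1⟩

/-- hypotheses of one value of the public randomness -/
theorem insX_H {a b : ι} (hab : a ≠ b) (o : Enu n a b) (hN : N ≤ k) {h h' q : ℕ} {r tt p eps0 : ℝ} {wx : Ξ → ℝ}
    (wx0 : ∀ ξ, 0 ≤ wx ξ) (wx1 : ∑ ξ, wx ξ = 1) {R : Ξ → ι → Fam k ι P}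
    (hR : ∀ ξ i, FOn ({i}ᶜ : Set ι) (R ξ i)) (hR1 : ∀ ξ i, FLe 1 (R ξ i))
    (hc : (∀ ξ ξ', R ξ a = R ξ' a) ∨ ∀ ξ ξ', R ξ b = R ξ' b)
    (hPA : PTc wx h' N (fun ξ => FmA o s h (R ξ b)) tt eps0) (hPB : PTc wx h' N (fun ξ => FmB o s h (R ξ a)) tt eps0)
    (hva : chg N Θ P s h wx (fun ξ => R ξ a) ≤ p) (hvb : chg N Θ P s h wx (fun ξ => R ξ b) ≤ p)
    (hn : 4 * n ≤ 2 ^ (h' + 3)) (q1 : 1 ≤ q) (eps00 : 0 ≤ eps0) (rr : 4 * eps0 ^ (2 * q) ≤ r)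
    (rpos : 0 < r) (r1 : r ≤ 1) (thpos : 0 < tt) (th1 : tt < 1) (p0 : 0 ≤ p) :
    GMC.InsH (insX s o N h h' q r tt wx R) p eps0 :=
  brH hab o Θ hN s h h' (h' + 3) q 0 wx0 wx1 (fun ξ => hR ξ b) (fun ξ => hR ξ a) (fun ξ => hR1 ξ b) (fun ξ => hR1 ξ a)
    hc.symm hPA hPB hvb hva hn le_rfl q1 eps00 rr rpos r1 thpos th1 p0

/-- the probability of the hot event -/
theorem HotX_Pr {a b : ι} (hab : a ≠ b) (o : Enu n a b) {h h' q : ℕ} {r tt : ℝ} {wx : Ξ → ℝ}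
    {R : Θ → Ξ → ι → Fam k ι P} {x : ℝ}
    (hx : ∀ θ, (Pu k N n P).Pr (fun ω => (insX s o N h h' q r tt wx (R θ)).hot N ω) ≤ x) :
    (Pm : FP (Sq k N ι Θ P)).Pr (fun w => HotX s hab o h h' q r tt wx R N w) ≤ x := by
  refine GMC.Pr_bri hab o fun θ => ?_
  refine le_trans (le_of_eq (FP.Pr_congr _ fun ω _ => ?_)) (hx θ)
  unfold HotX
  rw [GMC.prj_ptS]
  exact Iff.rfl

/-- coldness in the class of the macro node and finer cells -/
theorem HotX_cold {a b : ι} (hab : a ≠ b) (o : Enu n a b) (hN : N ≤ k) {h h' q : ℕ} (hh' : h ≤ h') {r tt : ℝ} {wx : Ξ → ℝ}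
    (wx0 : ∀ ξ, 0 ≤ wx ξ) (wx1 : ∑ ξ, wx ξ = 1) {R : Θ → Ξ → ι → Fam k ι P}
    (hR : ∀ θ ξ i, FOn ({i}ᶜ : Set ι) (R θ ξ i)) (hR1 : ∀ θ ξ i, FLe 1 (R θ ξ i))
    (hoth : ∀ θ ξ ξ' i, i ≠ a → i ≠ b → R θ ξ i = R θ ξ' i) {s' δ rr : ℝ} (hs' : 0 < s') (hδ0 : 0 ≤ δ)
    (hδ : 2 * r ≤ (s' ^ (2 * q) * δ) ^ (2 ^ n)) (hrr : s' + 4 * ((2 : ℝ) ^ h)⁻¹ ≤ rr) {t r1 D : ℕ}
    (_ : r1 ≤ ex N t - (h + 3)) (hD : ex N t - r1 ≤ D) (w : Sq k N ι Θ P) :
    Pm.ce (Zk {a, b} r1) (fun v => ∑ ξ, wx ξ * ind (rr ≤ |TT s h (R (GM.th v) ξ) (ex N t) v| ∧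
      ¬ HotX s hab o h h' q r tt wx R t v)) w ≤ 2 ^ (n * D) * ((n + 1) * δ) := by
  classical
  have hne : Nonempty Ξ := by
    by_contra hcon
    rw [not_nonempty_iff] at hcon
    rw [Finset.univ_eq_empty, Finset.sum_empty] at wx1
    exact zero_ne_one wx1
  have ξ0 : Ξ := Classical.arbitrary Ξ
  set f : Sq k N ι Θ P → ℝ := fun v => ∑ ξ, wx ξ * ind (rr ≤ |TT s h (R (GM.th v) ξ) (ex N t) v| ∧
      ¬ HotX s hab o h h' q r tt wx R t v) with hf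
  have hf0 : ∀ v, 0 ≤ f v := fun v => Finset.sum_nonneg fun ξ _ => mul_nonneg (wx0 ξ) (ind_nonneg _)
  set r0 : ℕ := ex N t - (h' + 3) with hr0
  have hek : ex N t ≤ k := (Nat.sub_le _ _).trans hN
  have hr0k : r0 ≤ k := (Nat.sub_le _ _).trans hek
  -- the class of the macro node
  have hmac : ∀ w, Pm.ce (Zc (oth o) (ex N t, fun _ => r0)) f w ≤ (n + 1) * δ := by
    intro w
    rw [ce_Zc_prj hab o (c := (ex N t, fun _ => r0)) (fun _ => hr0k)]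
    set I := insX s o N h h' q r tt wx (R (GM.th w)) with hI
    have hcc : I.cc ((n + 1) * t) = (N - t, fun _ => N - t - (h' + 3)) := cf_macro _ _ _
    have hRnd : I.RndH s h := {
      leA := fun e g x y ξ z => hR1 _ ξ b _ _ _ _
      leB := fun e g x y ξ z => hR1 _ ξ a _ _ _ _
      rndA := fun e y y' hy => by
        show (fun x z ξ => FmA o s h (R (GM.th w) ξ b) e y x z) = fun x z ξ => FmA o s h (R (GM.th w) ξ b) e y' x z
        unfold FmA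
        rw [hy]
      rndB := fun e y y' hy => by
        show (fun x z ξ => FmB o s h (R (GM.th w) ξ a) e y x z) = fun x z ξ => FmB o s h (R (GM.th w) ξ a) e y' x z
        unfold FmB
        rw [hy] }
    have h1 := GMC.Ins.cold_node (I := I) wx0 hN hRnd (tsX_H s hab o h (hR (GM.th w) ξ0) (hR1 (GM.th w) ξ0)) hs' hδ0 hδ
      ((n + 1) * t) (Q := n) (by
        rw [hcc]
        simp only [Finset.sum_const, Finset.card_univ, Fintype.card_fin, smul_eq_mul]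
        exact Nat.mul_le_mul_left _ (Nat.pow_le_pow_right (by norm_num) (by omega))) (prj hab o w)
    have h2 : Zs (k := k) (N := N) (P := P) (I.cc ((n + 1) * t)) = Zs (ex N t, fun _ => r0) := by
      rw [hcc]
      rfl
    rw [h2] at h1
    refine le_trans (FP.ce_mono _ (fun ω _ => ?_) _) h1
    refine Finset.sum_le_sum fun ξ _ => mul_le_mul_of_nonneg_left (ind_mono ?_) (wx0 ξ)
    rintro ⟨h3, h4⟩
    have h5 := TT_val s hab o (h := h) (h' := h') (q := q) (r := r) (tt := tt) (wx := wx) (hR (GM.th w)) (hoth (GM.th w)) ξ ξ0 t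
      (ptS hab o (GM.th w) ω)
    rw [GMC.prj_ptS] at h5
    refine ⟨?_, fun h6 => h4 ⟨(n + 1) * t, le_rfl, ?_⟩⟩
    · rw [hI, h5]
      exact hrr.trans h3
    · rw [GMC.prj_ptS]
      exact h6
  have hfin : ∀ w, Pm.ce (Zk {a, b} (min r1 r0)) f w ≤ 2 ^ (n * D) * ((n + 1) * δ) := by
    intro w
    rw [ce_Zk_Zc (oth_range o) (ex N t)]
    have h1 := Zc_fine (oth_inj o) (c := (ex N t, fun _ => r0)) (c' := (ex N t, fun _ => min r1 r0)) (fun _ => hr0k)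
      (fun _ => min_le_right _ _) hf0 w
    simp only [Finset.sum_const, Finset.card_univ, Fintype.card_fin, smul_eq_mul] at h1
    refine h1.trans ?_
    refine mul_le_mul ?_ (hmac w) (FP.ce_nonneg _ (fun v _ => hf0 v) w) (by positivity)
    refine pow_le_pow_right₀ (by norm_num) (Nat.mul_le_mul_left n ?_)
    omega
  exact ce_le_of_fine' (Zk_anti {a, b} (min_le_left r1 r0)) hfin w

/-- **THE PAIR `a`, `b` IS COLD, WITH COINS** -/
theorem coldX_pair (n : ℕ) : ∃ C : ℝ, 0 < C ∧ ∃ c : ℕ, ∀ {k N : ℕ} {ι Θ P Ξ : Type} [Fintype ι] [DecidableEq ι]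
    [Fintype Θ] [Nonempty Θ] [Fintype P] [Nonempty P] [Fintype Ξ]
    {a b : ι} (hab : a ≠ b) (o : Enu n a b) (s : V k) {h h' D q : ℕ} {p : ℝ} {R : Θ → Ξ → ι → Fam k ι P} {wx : Ξ → ℝ}
    (_ : ∀ ξ, 0 ≤ wx ξ) (_ : ∑ ξ, wx ξ = 1) (_ : N ≤ k) (_ : 4 * n ≤ 2 ^ (h' + 3)) (_ : h ≤ h')
    (_ : ∀ θ ξ i, FOn ({i}ᶜ : Set ι) (R θ ξ i)) (_ : ∀ θ ξ i, FLe 1 (R θ ξ i))
    (_ : ∀ θ ξ ξ' i, i ≠ a → i ≠ b → R θ ξ i = R θ ξ' i)
    (_ : ∀ θ, (∀ ξ ξ', R θ ξ a = R θ ξ' a) ∨ ∀ ξ ξ', R θ ξ b = R θ ξ' b)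
    {tt eps0 : ℝ} (_ : 0 < tt) (_ : tt < 1) (_ : 0 ≤ eps0)
    (_ : ∀ θ, PTc wx h' N (fun ξ => FmA o s h (R θ ξ b)) tt eps0)
    (_ : ∀ θ, PTc wx h' N (fun ξ => FmB o s h (R θ ξ a)) tt eps0)
    (_ : ∀ θ, chg N Θ P s h wx (fun ξ => R θ ξ a) ≤ p) (_ : ∀ θ, chg N Θ P s h wx (fun ξ => R θ ξ b) ≤ p)
    {r s' δ : ℝ} (_ : 0 < s') (_ : s' ≤ 1) (_ : 0 < δ) (_ : δ ≤ 1) (_ : s' + 4 * ((2 : ℝ) ^ h)⁻¹ ≤ r)
    (_ : eps0 ≤ (s' / 2) ^ (2 ^ n)) (_ : 8 ≤ 4 ^ q * δ),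
    ColdX s N h R wx {a, b} D r (2 ^ (n * D) * ((n + 1) * δ))
      (C * Qb ((s' ^ (2 * q) * δ) ^ (2 ^ n) / 2) p q (2 ^ (h' + 3)) ^ c * (tt * (1 + Real.log (1 / tt))))
      (fun t w _ => HotX s hab o h h' q ((s' ^ (2 * q) * δ) ^ (2 ^ n) / 2) tt wx R t w) := by
  classical
  obtain ⟨C, hC, c, h0⟩ := c2_main n
  refine ⟨C, hC, c, ?_⟩
  intro k N ι Θ P Ξ _ _ _ _ _ _ _ a b hab o s h h' D q p R wx wx0 wx1 hN hn hh' hR hR1 hoth hc tt eps0 htt htt1 heps hPA hPB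
    hva hvb r s' δ hs0 hs1 hδ0 hδ1 hr he hq
  have hnum := kernel_num n hs0 hδ0 heps he hq
  have hq1 : 1 ≤ q := by
    by_contra hcon
    have : q = 0 := by omega
    rw [this, pow_zero, one_mul] at hq
    linarith
  have hle : (s' ^ (2 * q) * δ) ^ (2 ^ n) / 2 ≤ 1 := by
    have h1 : s' ^ (2 * q) * δ ≤ 1 := mul_le_one₀ (pow_le_one₀ hs0.le hs1) hδ0.le hδ1
    have h2 : (s' ^ (2 * q) * δ) ^ (2 ^ n) ≤ 1 := pow_le_one₀ (by positivity) h1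
    linarith
  have hpos : 0 < (s' ^ (2 * q) * δ) ^ (2 ^ n) / 2 := by positivity
  have hp0 : ∀ θ : Θ, 0 ≤ p := fun θ => le_trans (Finset.sum_nonneg fun e _ => Finset.sum_nonneg fun ξ _ =>
    mul_nonneg (wx0 ξ) (FP.Pr_nonneg _ _)) (hva θ)
  refine ⟨fun t w _ hw => HotX_mono s (Nat.le_succ t) hw, ?_, fun t _ _ r' h2 h3 w =>
    HotX_cold s hab o hN hh' wx0 wx1 hR hR1 hoth hs0 hδ0.le (le_of_eq (by ring)) hr h2 h3 w⟩
  have h1 : ∀ w : Sq k N ι Θ P, ∑ ξ, wx ξ * ind (HotX s hab o h h' q ((s' ^ (2 * q) * δ) ^ (2 ^ n) / 2) tt wx R N w) =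
      ind (HotX s hab o h h' q ((s' ^ (2 * q) * δ) ^ (2 ^ n) / 2) tt wx R N w) := by
    intro w
    rw [← Finset.sum_mul, wx1, one_mul]
  rw [FP.E_congr _ fun w _ => h1 w]
  refine HotX_Pr s hab o fun θ => ?_
  exact h0 _ p eps0 (insX_H (Θ := Θ) s hab o hN wx0 wx1 (hR θ) (hR1 θ) (hc θ) (hPA θ) (hPB θ) (hva θ) (hvb θ) hn hq1 heps hnum hpos
    hle htt htt1 (hp0 θ))

end

end Pool.Agent.GM
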