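import Pool.Agent.GM.PcMov
import Pool.Agent.GM.NVLayOf

/-!
# GM/PcInst (helper43): the input `PcIn` of `GM/NVLayOf` from `GM/PcMov`

* `pcIn` : `PcIn m L o (mL L) (tL L)` for every `L`, `o`; `mL`, `tL` = sizes, `ev_mL`, `ev_tL` : eventual bounds;
* **`nvLay_of_bin`** : `0 ≤ κ → (∀ c0, ∃ c D, NVBin m κ c0 c D) → NVLay m L o`, every `L`, `o`.
-/

set_option autoImplicit false
set_option linter.unusedSectionVars false

namespace Pool.Agent.GM

open Finset Filter Pool.Agent.PWZ Pool.Agent.M3 Pool.Agent.M3.TS Pool.Agent.M3.Bin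

noncomputable section

namespace PcM

theorem mvR_eq {k : ℕ} {ι : Type} [Fintype ι] [DecidableEq ι] (N : ℕ) (R : Fam k ι Unit) :
    GM.mvR N R = PcM.mvR Unit Unit N R := by
  funext t g ξ x d
  unfold GM.mvR PcM.mvR
  by_cases ht : t = 0
  · rw [if_pos ht, if_pos ht, zero_div]
  · rw [if_neg ht, if_neg ht]

/-- the number of public births of the layer `n + 1` -/
def tL (L : LayE) (n : ℕ) : ℝ := 32 / (L.lep (n + 1) ^ 3 * L.lth (n + 1))

/-- **the input of `GM/NVLayOf`** -/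
theorem pcIn (m : ℕ) [Nontrivial (Fin m)] (L : LayE) (o : ∀ k, V k) : PcIn m L o (mL L) (tL L) where
  fut k N hN F hF n q a j := by
    rw [mvR_eq]
    exact pF_fut (Θ := Unit) (Ξ := Unit) (o k) L a hN hF n q j
  str k N hN F hF n q a := by
    rw [mvR_eq]
    exact ⟨pc_str (Θ := Unit) (Ξ := Unit) (o k) L a hN hF q q n⟩

/-! ### eventual bounds -/

theorem inv_lep (L : LayE) (n j : ℕ) (hn : 1 ≤ n) : 1 / L.lep (n + 1) ^ j ≤ 3 ^ (L.E * j) / L.c ^ j * (n : ℝ) ^ (L.E * j) := by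
  have hc := L.c_pos
  have hn' : (1 : ℝ) ≤ n := by exact_mod_cast hn
  have h1 : 1 / L.lep (n + 1) ^ j = (((n + 1 : ℕ) : ℝ) + 1) ^ (L.E * j) / L.c ^ j := by
    unfold LayE.lep
    rw [div_pow, ← pow_mul, one_div_div]
  rw [h1]
  have h2 : (((n + 1 : ℕ) : ℝ) + 1) ≤ 3 * n := by
    push_cast
    linarith
  have h3 : (((n + 1 : ℕ) : ℝ) + 1) ^ (L.E * j) ≤ 3 ^ (L.E * j) * (n : ℝ) ^ (L.E * j) := by
    rw [← mul_pow]
    exact pow_le_pow_left₀ (by positivity) h2 _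
  calc (((n + 1 : ℕ) : ℝ) + 1) ^ (L.E * j) / L.c ^ j ≤ 3 ^ (L.E * j) * (n : ℝ) ^ (L.E * j) / L.c ^ j :=
        div_le_div_of_nonneg_right h3 (by positivity)
    _ = _ := by ring

/-- the constant of `mL` -/
def mA (L : LayE) : ℝ := 2 ^ (2 * L.E + 2) * (64 / 3 * (3 ^ (L.E * 2) / L.c ^ 2) + 1)

theorem mL_le (L : LayE) (n : ℕ) (hn : 1 ≤ n) : mL L n ≤ mA L * (n : ℝ) ^ (L.E * 2) := by
  have hc := L.c_pos
  have hl := L.lep_pos (n + 1)
  have hn' : (1 : ℝ) ≤ n := by exact_mod_cast hn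
  have h1 := inv_lep L n 2 hn
  have h2 : (1 : ℝ) ≤ (n : ℝ) ^ (L.E * 2) := one_le_pow₀ hn'
  unfold mL mA
  rw [mul_assoc]
  refine mul_le_mul_of_nonneg_left ?_ (by positivity)
  have h3 : 64 / (3 * L.lep (n + 1) ^ 2) = 64 / 3 * (1 / L.lep (n + 1) ^ 2) := by
    field_simp
  rw [h3, add_mul, one_mul, mul_assoc]
  have h4 : 64 / 3 * (1 / L.lep (n + 1) ^ 2) ≤ 64 / 3 * (3 ^ (L.E * 2) / L.c ^ 2 * (n : ℝ) ^ (L.E * 2)) :=
    mul_le_mul_of_nonneg_left h1 (by norm_num)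
  exact add_le_add h4 h2

theorem ev_mL (L : LayE) : ∀ᶠ n : ℕ in atTop, 1 + 2 * mL L n ≤ (n : ℝ) ^ (L.E * 2 + 1) := by
  filter_upwards [Par.ev_const_le (C := 1) le_rfl (1 + 2 * mA L) (k := 1) one_pos, eventually_ge_atTop 1] with n h1 h2
  have h3 := mL_le L n h2
  have hn' : (1 : ℝ) ≤ n := by exact_mod_cast h2
  have h4 : (1 : ℝ) ≤ (n : ℝ) ^ (L.E * 2) := one_le_pow₀ hn'
  rw [one_mul, pow_one] at h1
  have h5 : (1 + 2 * mA L) * (n : ℝ) ^ (L.E * 2) ≤ n * (n : ℝ) ^ (L.E * 2) :=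
    mul_le_mul_of_nonneg_right h1 (by positivity)
  rw [pow_succ]
  nlinarith

theorem ev_tL (L : LayE) : ∀ᶠ n : ℕ in atTop, tL L n ≤ Real.exp (Real.exp ((n : ℝ) ^ (L.E * 2 + 1))) := by
  have hc := L.c_pos
  have hE := L.E_pos
  have hk := L.kap_pos
  filter_upwards [Par.ev_mono_le_LL (C := 1) le_rfl (L.E * 3) (32 * (3 ^ (L.E * 3) / L.c ^ 3)) (k := 1) one_pos,
    Par.ev_pow_pow_le (C := 1) (D := L.E * 2 + 1) (by omega) (2 * L.kap) (k := 1 / 2) (by norm_num),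
    Par.ev_pow_pow_le (C := 1) (D := L.E * 2 + 1) (by omega) 1 (k := 1 / 2) (by norm_num),
    eventually_ge_atTop 2] with n h1 h2 h3 h4
  have hn' : (2 : ℝ) ≤ n := by exact_mod_cast h4
  rw [pow_one, one_mul] at h1
  rw [pow_one] at h2 h3
  rw [one_mul] at h3
  have hl := L.lep_pos (n + 1)
  have h5 := inv_lep L n 3 (by omega)
  have h6 : tL L n = 32 * (1 / L.lep (n + 1) ^ 3) * Real.exp ((1 + L.kap) ^ (n + 1)) := by
    unfold tL LayE.lth
    rw [Real.exp_neg]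
    field_simp
  have h7 : (1 + L.kap) ^ (n + 1) ≤ Real.exp (1 / 2 * (n : ℝ) ^ (L.E * 2 + 1)) := by
    calc (1 + L.kap) ^ (n + 1) ≤ Real.exp L.kap ^ (n + 1) :=
          pow_le_pow_left₀ (by linarith) (by linarith [Real.add_one_le_exp L.kap]) _
      _ = Real.exp (((n + 1 : ℕ) : ℝ) * L.kap) := by rw [← Real.exp_nat_mul]
      _ ≤ _ := by
        refine Real.exp_le_exp.2 (le_trans ?_ h2)
        push_cast
        nlinarith
  have h8 : (n : ℝ) ≤ Real.exp (1 / 2 * (n : ℝ) ^ (L.E * 2 + 1)) := by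
    refine h3.trans ?_
    linarith [Real.add_one_le_exp (1 / 2 * (n : ℝ) ^ (L.E * 2 + 1))]
  have h9 : (2 : ℝ) ≤ Real.exp (1 / 2 * (n : ℝ) ^ (L.E * 2 + 1)) := by linarith
  have h10 : Real.exp (1 / 2 * (n : ℝ) ^ (L.E * 2 + 1)) * Real.exp (1 / 2 * (n : ℝ) ^ (L.E * 2 + 1)) =
      Real.exp ((n : ℝ) ^ (L.E * 2 + 1)) := by
    rw [← Real.exp_add]
    congr 1
    ring
  rw [h6]
  calc 32 * (1 / L.lep (n + 1) ^ 3) * Real.exp ((1 + L.kap) ^ (n + 1))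
      ≤ Real.exp n * Real.exp ((1 + L.kap) ^ (n + 1)) := by
        refine mul_le_mul_of_nonneg_right ?_ (Real.exp_pos _).le
        refine le_trans ?_ h1
        rw [mul_assoc]
        exact mul_le_mul_of_nonneg_left h5 (by norm_num)
    _ = Real.exp (n + (1 + L.kap) ^ (n + 1)) := by rw [Real.exp_add]
    _ ≤ _ := by
      refine Real.exp_le_exp.2 ?_
      rw [← h10]
      nlinarith

end PcM

/-- **the named views of all layers** from the generic contract -/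
theorem nvLay_of_bin {m : ℕ} [Nontrivial (Fin m)] (L : LayE) (o : ∀ k, V k) {κ : ℝ} (hκ : 0 ≤ κ)
    (H : ∀ c0 : ℕ, ∃ c D : ℕ, NVBin m κ c0 c D) : NVLay m L o :=
  nvLay_of (PcM.pcIn m L o) (PcM.mL_pos L) (PcM.ev_mL L) (PcM.ev_tL L) hκ H

end

end Pool.Agent.GM
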