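import Pool.Agent.GM.S1Mod
import Pool.Agent.M3.S1Births

/-!
# GM/S1Births (section 1, every finite set `ι` of vertices): the births of the nodes of a face (helper19)

`Bf i h N ep th F e g x` = the set of the births at the node of the point `x` of the face `i` (`M3/S1Births` for three
vertices).
* `card_Bf` (`≤ Pf`), `Bf_on`, `Bf_congr`, `Pf_congr` (they depend on the small cells of the vertices `≠ i` only);
* `Lf_nodup`, `mem_Lf_top`, `mem_Lf` (every element of a list is born at a node of the path), `Bf_time`, `Lf_time`,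
  `Lf_new` (a change of the list brings a birth of that time);
* `Sf_births` : Walsh form by the subsets of the set of births, sign functions `sgw i w s` (`psi_toFinset`).
-/

set_option autoImplicit false
set_option linter.unusedSectionVars false

namespace Pool.Agent.GM

open Finset Pool.Agent.PWZ Pool.Agent.M3 Pool.Agent.M3.Bin
open Pool.Agent.M3.Mod (ex nd av dl pnd SC cel mem_cel card_cel SC_eq av_eq)

noncomputable section

/-- the time of a birth of a node -/
theorem nbs_t {P V T : Type*} [Fintype V] [Nonempty T] {ep thr : ℝ} {val : T → P → V → ℝ} {F : P → V → ℝ}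
    {Q : FP V} {C : Finset P} (t : ℕ) (L : P → List (Birth T)) (K : ℕ) {b : Birth T}
    (hb : b ∈ nbs ep thr val F Q C t L K) : b.t = t := by
  classical
  unfold nbs at hb
  obtain ⟨j, _, rfl⟩ := Finset.mem_image.1 hb
  rfl

variable {k N : ℕ} {ι P : Type} [Fintype ι] [DecidableEq ι] [Fintype P] [Nonempty P] [Nontrivial ι]

/-- the births at the node of a point of the face `i` -/
def Bf (i : ι) (h N : ℕ) (ep th : ℝ) (F : (ι → P × V k) → V k → ℝ) (e : ℕ) (g : V k × ℕ) (x : ι → P × V k) :
    Finset (Birth (TJ k P i → Bool)) :=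
  pbs (faceNodes (faceC k P i) k h N) (faceTests k P i) ep (thrs ep th) (nst ep (thrs ep th))
    (fun q => F (exv i q)) (N - e) g (restr i x)

variable {i : ι} {h : ℕ} {ep th : ℝ} {F : (ι → P × V k) → V k → ℝ}

theorem card_Bf (e : ℕ) (g : V k × ℕ) (x : ι → P × V k) :
    (Bf i h N ep th F e g x).card ≤ Pf i h N ep th F e g x :=
  card_pbs _ _ _ _ _

theorem Bf_on (i : ι) (h N : ℕ) (ep th : ℝ) (F : (ι → P × V k) → V k → ℝ) (e : ℕ) (g : V k × ℕ) :
    DependsOn (Bf i h N ep th F e g) ({i}ᶜ : Set ι) := by
  intro x y hxy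
  unfold Bf
  rw [restr_congr hxy]

theorem Lf_nodup (e : ℕ) (g : V k × ℕ) (x : ι → P × V k) : (Lf i h N ep th F e g x).Nodup :=
  (lst_nodup (faceNodes (faceC k P i) k h N) (faceTests k P i) (N - e) g (restr i x)).1

theorem Bf_time {e : ℕ} {g : V k × ℕ} {x : ι → P × V k} {s : Birth (TJ k P i → Bool)}
    (hs : s ∈ Bf i h N ep th F e g x) : s.t = N - e := nbs_t _ _ _ hs

theorem Lf_time {e : ℕ} {g : V k × ℕ} {x : ι → P × V k} {s : Birth (TJ k P i → Bool)}
    (hs : s ∈ Lf i h N ep th F e g x) : s.t ≤ N - e :=
  (lst_nodup (faceNodes (faceC k P i) k h N) (faceTests k P i) (N - e) g (restr i x)).2 s hs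

/-- an element of a list at the top is born at the top -/
theorem mem_Lf_top {g : V k × ℕ} {x : ι → P × V k} {s : Birth (TJ k P i → Bool)}
    (hs : s ∈ Lf i h N ep th F N g x) : s ∈ Bf i h N ep th F N g x := by
  unfold Lf LB at hs
  have h1 := mem_lst (faceNodes (faceC k P i) k h N) (faceTests k P i) (N - N) g (restr i x) hs
  rcases h1 with h1 | h1
  · exfalso
    have h2 : ∀ (n : ℕ) (hn : n = 0) (g : V k × ℕ), pre (faceNodes (faceC k P i) k h N)
        (faceTests k P i) ep (thrs ep th) (nst ep (thrs ep th)) (fun q => F (exv i q)) n g (restr i x) =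
          [] := by
      intro n hn g
      subst hn
      rfl
    rw [h2 (N - N) (Nat.sub_self N) g] at h1
    exact absurd h1 List.not_mem_nil
  · exact h1

/-- an element of a list was there at the parent or is born at the node -/
theorem mem_Lf {e : ℕ} (he : e < N) {g : V k × ℕ} {x : ι → P × V k} {s : Birth (TJ k P i → Bool)}
    (hs : s ∈ Lf i h N ep th F e g x) :
    s ∈ Lf i h N ep th F (e + 1) (par h e g) x ∨ s ∈ Bf i h N ep th F e g x := by
  unfold Lf LB at hs
  have h1 := mem_lst (faceNodes (faceC k P i) k h N) (faceTests k P i) (N - e) g (restr i x) hs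
  rcases h1 with h1 | h1
  · left
    obtain ⟨n, hn, hn1⟩ : ∃ n, N - e = n + 1 ∧ N - (e + 1) = n := ⟨N - (e + 1), by omega, rfl⟩
    unfold Lf LB
    rw [hn] at h1
    rw [hn1]
    have h2 : pre (faceNodes (faceC k P i) k h N) (faceTests k P i) ep (thrs ep th)
        (nst ep (thrs ep th)) (fun q => F (exv i q)) (n + 1) g =
        lst (faceNodes (faceC k P i) k h N) (faceTests k P i) ep (thrs ep th)
        (nst ep (thrs ep th)) (fun q => F (exv i q)) n (par h e g) := by
      show lst (faceNodes (faceC k P i) k h N) (faceTests k P i) ep (thrs ep th)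
        (nst ep (thrs ep th)) (fun q => F (exv i q)) n (if n < N then par h (N - (n + 1)) g else g) = _
      rw [if_pos (by omega), show N - (n + 1) = e by omega]
    rw [h2] at h1
    exact h1
  · exact Or.inr h1

/-- the cell of the node of a point depends on the small cells of the vertices but `i` -/
theorem faceNodes_cell {e : ℕ} (he : e ≤ N) {x y : ι → P × V k}
    (hxy : ∀ l, l ≠ i → flr (e - (h + 3)) (x l).2 = flr (e - (h + 3)) (y l).2) :
    (faceNodes (faceC k P i) k h N).cell (N - e) (restr i x) =
      (faceNodes (faceC k P i) k h N).cell (N - e) (restr i y) := by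
  have h2 : N - (N - e) = e := by omega
  show (faceC k P i).cell (N - (N - e) - (h + 3)) (restr i x) =
    (faceC k P i).cell (N - (N - e) - (h + 3)) (restr i y)
  rw [h2]
  ext r
  rw [mem_faceC, mem_faceC]
  refine forall_congr' fun l => ?_
  have h3 : flr (e - (h + 3)) (restr i x l).2 = flr (e - (h + 3)) (restr i y l).2 := hxy l.1 l.2
  rw [h3]

/-- the births at the node of a point depend on the small cells of the vertices but `i` only -/
theorem Bf_congr {e : ℕ} (he : e ≤ N) (g : V k × ℕ) {x y : ι → P × V k}
    (hxy : ∀ l, l ≠ i → flr (e - (h + 3)) (x l).2 = flr (e - (h + 3)) (y l).2) :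
    Bf i h N ep th F e g x = Bf i h N ep th F e g y := by
  unfold Bf pbs
  rw [faceNodes_cell he hxy]

/-- the number of public births at the node of a point depends on the small cells of the vertices but `i` only -/
theorem Pf_congr {e : ℕ} (he : e ≤ N) (g : V k × ℕ) {x y : ι → P × V k}
    (hxy : ∀ l, l ≠ i → flr (e - (h + 3)) (x l).2 = flr (e - (h + 3)) (y l).2) :
    Pf i h N ep th F e g x = Pf i h N ep th F e g y := by
  unfold Pf PB pubs
  rw [faceNodes_cell he hxy]

/-- a new element of a list is born at the node -/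
theorem Lf_new {e : ℕ} (he : e < N) {g : V k × ℕ} {x : ι → P × V k}
    (hne : Lf i h N ep th F e g x ≠ Lf i h N ep th F (e + 1) (par h e g) x) :
    ∃ s ∈ Lf i h N ep th F e g x, s.t = N - e := by
  obtain ⟨m, hm⟩ := Lf_mono (i := i) (h := h) (ep := ep) (th := th) (F := F) he g x
  cases m with
  | nil =>
    exfalso
    rw [List.nil_append] at hm
    exact hne hm.symm
  | cons s m =>
    have h1 : s ∈ Lf i h N ep th F e g x := by
      rw [← hm]
      exact List.mem_append_left _ List.mem_cons_self
    refine ⟨s, h1, ?_⟩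
    rcases mem_Lf he h1 with h2 | h2
    · exfalso
      have h3 := Lf_nodup (i := i) (h := h) (N := N) (ep := ep) (th := th) (F := F) e g x
      rw [← hm, List.cons_append, List.nodup_cons] at h3
      exact h3.1 (List.mem_append_right _ h2)
    · exact Bf_time h2

open Classical in
/-- the Walsh form by the subsets of the set of births -/
theorem Sf_births (e : ℕ) (g : V k × ℕ) (x : ι → P × V k) (d : V k) :
    Sf i h N ep th F e g x d =
      ∑ I ∈ (Lf i h N ep th F e g x).toFinset.powerset,
        psiC ep (Lf i h N ep th F e g x).length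
          (univ.filter fun j => (Lf i h N ep th F e g x).get j ∈ I) *
          ∏ w ∈ univ.erase i, ∏ s ∈ I, sgw i w s x d := by
  have h1 : Sf i h N ep th F e g x d =
      psi ep ((Lf i h N ep th F e g x).map fun s => ∏ w ∈ univ.erase i, sgw i w s x d) := by
    unfold Sf SB struc
    have h2 : (fun s : Birth (TJ k P i → Bool) => (faceTests k P i).val s.τ (restr i x) d) =
        (fun s => ∏ w ∈ univ.erase i, sgw i w s x d) := funext fun s => faceTests_val i s x d
    rw [h2]
    rfl
  rw [h1, psi_toFinset ep _ (Lf_nodup e g x) (fun s => ∏ w ∈ univ.erase i, sgw i w s x d) (fun s => by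
    rw [← faceTests_val]
    exact (faceTests k P i).val_or _ _ _)]
  refine Finset.sum_congr rfl fun I _ => ?_
  rw [Finset.prod_comm]

end

end Pool.Agent.GM
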