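import Pool.Agent.GM.GSstr
import Pool.Agent.GM.S1Births
import Pool.Agent.GM.S1Lay

/-!
# GM/PcStr (helper17): the lists of the static faces (`S1Mod`, `S1Births`, `S1Lay`) as moving objects of `binSys`

`binSys Unit Unit Q σ a hN h` (every offset `σ`, every vertex `a`); a list at the time `t ≥ 1` is the list `Lf` at the
exponent `ex N t`, at the time `0` it is empty; the births of the two first nodes count at the time `1`
(`relab` : injective map of the births, `msgn_relab` : same sign functions).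
* `freeMapM` : the free law of a face, points without the coins;
* `fL`, `fB` : lists, births of the nodes; `fL_future` : at most `1 + 8 / ep^2` changes in mean from every state of every
  finer geometry; `pcBL` : the contract `BL` of `PieceDef`, in every finer geometry;
* `str_pc` : STRUCTURED FACE: `Dl N L F l q / 4` is a `StrF`.
-/

set_option autoImplicit false
set_option linter.unusedSectionVars false

namespace Pool.Agent.GM.GS

open Finset Pool.Agent.PWZ Pool.Agent.M3 Pool.Agent.M3.TS Pool.Agent.M3.Bin Pool.Agent.GM Pool.Agent.GM.Mv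
open Pool.Agent.M3.Mod (ex ex_zero ex_succ ex_top exk)

noncomputable section

/-! ### points without the coins -/

section law

variable {k N : ℕ} {ι Θ Ξ Q : Type} [Fintype ι] [DecidableEq ι] [Fintype Θ] [Nonempty Θ] [Fintype Ξ] [Nonempty Ξ]
  [Fintype Q] [Nonempty Q]

/-- forget the coins -/
def fgt {α : Type} (x : α → (Ξ × Q) × V k) : α → Q × V k := fun j => ((x j).1.2, (x j).2)

/-- points and coins -/
def fgtE (k : ℕ) (Ξ Q α : Type) : (α → (Ξ × Q) × V k) × V k ≃ (α → Ξ) × ((α → Q × V k) × V k) where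
  toFun x := (fun j => (x.1 j).1.1, (fgt x.1, x.2))
  invFun y := (fun j => ((y.1 j, (y.2.1 j).1), (y.2.1 j).2), y.2.2)
  left_inv _ := rfl
  right_inv _ := rfl

theorem E1_fgt (α : Type) [Fintype α] [DecidableEq α] (f : (α → Q × V k) → V k → ℕ → ℝ) :
    E1 N (α → (Ξ × Q) × V k) (fun q z w => f (fgt q.1) z w) = E1 N (α → Q × V k) (fun q z w => f q.1 z w) := by
  unfold E1
  have h1 : ∀ g : (α → Q × V k) → ℝ, ∑ x : (α → (Ξ × Q) × V k) × V k, g (fgt x.1) =
      (Fintype.card (α → Ξ) : ℝ) * ∑ x : (α → Q × V k) × V k, g x.1 := by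
    intro g
    rw [Fintype.sum_equiv (fgtE k Ξ Q α) (fun x => g (fgt x.1)) (fun y => g y.2.1) (fun x => rfl),
      Fintype.sum_prod_type]
    simp only [Finset.sum_const, Finset.card_univ, nsmul_eq_mul]
  have h2 : (Fintype.card ((α → (Ξ × Q) × V k) × V k) : ℝ) =
      (Fintype.card (α → Ξ) : ℝ) * Fintype.card ((α → Q × V k) × V k) := by
    rw [Fintype.card_congr (fgtE k Ξ Q α), Fintype.card_prod]
    push_cast
    rfl
  have h3 : (0 : ℝ) < Fintype.card (α → Ξ) := by exact_mod_cast Fintype.card_pos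
  rw [h1 fun p => ∑ z : V k, ∑ w ∈ range (2 ^ N), f p z w, h2]
  rw [show (Fintype.card (α → Ξ) : ℝ) * (Fintype.card ((α → Q × V k) × V k) : ℝ) * 2 ^ k * 2 ^ N =
    (Fintype.card (α → Ξ) : ℝ) * ((Fintype.card ((α → Q × V k) × V k) : ℝ) * 2 ^ k * 2 ^ N) by ring, mul_inv,
    mul_mul_mul_comm, inv_mul_cancel₀ h3.ne', one_mul]

/-- the free law of a face -/
def freeMapM (σ : V k) (N : ℕ) (Θ Ξ Q : Type) [Fintype Θ] [Nonempty Θ] [Fintype Ξ] [Nonempty Ξ]
    [Fintype Q] [Nonempty Q] (i : ι) : FreeMap (PM k N ι Θ Ξ Q) ({j : ι // j ≠ i} → Q × V k) k N where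
  x ω := restr i (vm ω)
  z := ctr σ
  w := nz
  law f := ((freeMap σ N Θ (Ξ × Q) i).law fun x z w => f (fgt x) z w).trans (E1_fgt _ f)

end law

/-! ### the births -/

section births

variable {k : ℕ} {ι Q : Type} [Fintype ι] [DecidableEq ι]

/-- the sign vectors -/
def cvt (q : ι) (τ : TJ k Q q → Bool) : TJs (Q × V k) (V k) (univ : Finset ι) q → Bool := fun j =>
  τ ⟨⟨j.1.1, (Finset.mem_erase.1 j.1.2).1⟩, j.2⟩

theorem cvt_inj (q : ι) : Function.Injective (cvt (k := k) (Q := Q) q) := by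
  intro τ τ' h
  funext j
  exact congrFun h ⟨⟨j.1.1, Finset.mem_erase.2 ⟨j.1.2, mem_univ _⟩⟩, j.2⟩

/-- the births -/
def relab (q : ι) (s : Birth (TJ k Q q → Bool)) : Birth (TJs (Q × V k) (V k) (univ : Finset ι) q → Bool) :=
  ⟨max s.t 1, 2 * s.k + (if s.t = 0 then 1 else 0), cvt q s.τ⟩

theorem relab_inj (q : ι) : Function.Injective (relab (k := k) (Q := Q) q) := by
  intro s s' h
  unfold relab at h
  have h1 := congrArg Birth.t h
  have h2 := congrArg Birth.k h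
  have h3 := cvt_inj q (congrArg Birth.τ h)
  simp only at h1 h2
  have h4 : s.t = s'.t ∧ s.k = s'.k := by
    split_ifs at h2 <;> omega
  cases s
  cases s'
  simp only at h3 h4
  rw [h4.1, h4.2, h3]

theorem msgn_relab (q i : ι) (s : Birth (TJ k Q q → Bool)) (x : ι → Q × V k) (d : V k) :
    msgn univ q i (relab q s) x d = sgw q i s x d := by
  unfold msgn sgw
  by_cases hi : i ≠ q
  · rw [dif_pos (Finset.mem_erase.2 ⟨hi, mem_univ i⟩), dif_pos hi]
    rfl
  · rw [dif_neg (fun h => hi (Finset.mem_erase.1 h).1), dif_neg hi]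

theorem mvals_relab (q : ι) (l : List (Birth (TJ k Q q → Bool))) (x : ι → Q × V k) (d : V k) :
    mvals univ q (l.map (relab q)) x d = l.map fun s => ∏ w ∈ univ.erase q, sgw q w s x d := by
  unfold mvals
  rw [List.map_map]
  refine List.map_congr_left fun s _ => ?_
  exact Finset.prod_congr rfl fun i _ => msgn_relab q i s x d

end births

/-! ### the lists -/

section lists

variable {k N : ℕ} {ι Θ Ξ Q : Type} [Fintype ι] [DecidableEq ι] [Nontrivial ι] [Fintype Q] [Nonempty Q]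

/-- the list of the face `q` as a moving object -/
def fL (Θ Ξ : Type) (q : ι) (h N : ℕ) (ep th : ℝ) (F : (ι → Q × V k) → V k → ℝ) :
    Mov Ξ ι (Q × V k) (Θ × (V k × ℕ)) (List (Birth (TJs (Q × V k) (V k) (univ : Finset ι) q → Bool))) :=
  fun t g _ x => if t = 0 then [] else (Lf q h N ep th F (ex N t) g.2 x).map (relab q)

open Classical in
/-- the births of a node of the face `q` -/
def fB (Θ Ξ : Type) (q : ι) (h N : ℕ) (ep th : ℝ) (F : (ι → Q × V k) → V k → ℝ) :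
    Mov Ξ ι (Q × V k) (Θ × (V k × ℕ)) (Finset (Birth (TJs (Q × V k) (V k) (univ : Finset ι) q → Bool))) :=
  fun t g _ x => if t = 0 ∨ N < t ∧ t ≠ 1 then ∅ else
    (Bf q h N ep th F (ex N t) g.2 x ∪
      (if t = 1 then Bf q h N ep th F N (Bin.par h (ex N 1) g.2) x else ∅)).image (relab q)

variable {q : ι} {h : ℕ} {ep th : ℝ} {F : (ι → Q × V k) → V k → ℝ}

theorem fL_zero (g : Θ × (V k × ℕ)) (ξ : Ξ) (x : ι → Q × V k) : fL Θ Ξ q h N ep th F 0 g ξ x = [] := if_pos rfl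

theorem fL_pos {t : ℕ} (ht : t ≠ 0) (g : Θ × (V k × ℕ)) (ξ : Ξ) (x : ι → Q × V k) :
    fL Θ Ξ q h N ep th F t g ξ x = (Lf q h N ep th F (ex N t) g.2 x).map (relab q) := if_neg ht

theorem ex_le' (N t : ℕ) : ex N t ≤ N := Nat.sub_le N t

theorem fL_dep (t : ℕ) (g : Θ × (V k × ℕ)) (ξ : Ξ) : Dep (univ.erase q) (fL Θ Ξ q h N ep th F t g ξ) := by
  intro x y hxy
  unfold fL
  have h1 : Lf q h N ep th F (ex N t) g.2 x = Lf q h N ep th F (ex N t) g.2 y :=
    Lf_on q h N ep th F (ex N t) g.2 fun j hj => hxy j (Finset.mem_erase.2 ⟨fun h => hj h, mem_univ j⟩)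
  rw [h1]

theorem fB_cell (t : ℕ) (g : Θ × (V k × ℕ)) (ξ ξ' : Ξ) (x y : ι → Q × V k)
    (hxy : ∀ i, i ≠ q → flr (ex N t - (h + 3)) (y i).2 = flr (ex N t - (h + 3)) (x i).2) :
    fB Θ Ξ q h N ep th F t g ξ' y = fB Θ Ξ q h N ep th F t g ξ x := by
  unfold fB
  by_cases h0 : t = 0 ∨ N < t ∧ t ≠ 1
  · rw [if_pos h0, if_pos h0]
  · rw [if_neg h0, if_neg h0, Bf_congr (ex_le' N t) g.2 fun l hl => hxy l hl]
    by_cases h1 : t = 1
    · rw [if_pos h1, if_pos h1, Bf_congr le_rfl (Bin.par h (ex N 1) g.2) fun l hl => ?_]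
      refine flr_mono_eq ?_ (hxy l hl)
      have := ex_le' N t
      omega
    · rw [if_neg h1, if_neg h1]

/-- the parent node -/
def pr' (h N t : ℕ) (g : Θ × (V k × ℕ)) : Θ × (V k × ℕ) := if t < N then (g.1, Bin.par h (ex N (t + 1)) g.2) else g

theorem fL_suf (t : ℕ) (g : Θ × (V k × ℕ)) (ξ : Ξ) (x : ι → Q × V k) :
    fL Θ Ξ q h N ep th F t (pr' h N t g) ξ x <:+ fL Θ Ξ q h N ep th F (t + 1) g ξ x := by
  by_cases h0 : t = 0
  · rw [h0, fL_zero]
    exact List.nil_suffix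
  · rw [fL_pos h0, fL_pos (Nat.succ_ne_zero t)]
    refine List.IsSuffix.map _ ?_
    unfold pr'
    by_cases ht : t < N
    · rw [if_pos ht, ex_succ ht]
      refine Lf_mono ?_ g.2 x
      have : ex N t = ex N (t + 1) + 1 := ex_succ ht
      have := ex_le' N t
      omega
    · rw [if_neg ht, ex_top (by omega), ex_top (by omega)]

theorem fL_nodup (t : ℕ) (g : Θ × (V k × ℕ)) (ξ : Ξ) (x : ι → Q × V k) :
    (fL Θ Ξ q h N ep th F t g ξ x).Nodup := by
  by_cases h0 : t = 0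
  · rw [h0, fL_zero]
    exact List.nodup_nil
  · rw [fL_pos h0]
    exact (Lf_nodup (ex N t) g.2 x).map (relab_inj q)

theorem fL_time (t : ℕ) (g : Θ × (V k × ℕ)) (ξ : Ξ) (x : ι → Q × V k) :
    ∀ s ∈ fL Θ Ξ q h N ep th F t g ξ x, s.t ≤ t := by
  intro s hs
  by_cases h0 : t = 0
  · rw [h0, fL_zero] at hs
    exact absurd hs List.not_mem_nil
  · rw [fL_pos h0, List.mem_map] at hs
    obtain ⟨s', hs', rfl⟩ := hs
    have h1 := Lf_time hs'
    show max s'.t 1 ≤ t
    unfold ex at h1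
    omega

theorem fB_time (t : ℕ) (g : Θ × (V k × ℕ)) (ξ : Ξ) (x : ι → Q × V k) :
    ∀ s ∈ fB Θ Ξ q h N ep th F t g ξ x, s.t = t := by
  classical
  intro s hs
  unfold fB at hs
  by_cases h0 : t = 0 ∨ N < t ∧ t ≠ 1
  · rw [if_pos h0] at hs
    exact absurd hs (Finset.notMem_empty s)
  · rw [if_neg h0, Finset.mem_image] at hs
    obtain ⟨s', hs', rfl⟩ := hs
    rw [Finset.mem_union] at hs'
    show max s'.t 1 = t
    rcases hs' with h1 | h1
    · have h2 := Bf_time h1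
      unfold ex at h2
      omega
    · by_cases h3 : t = 1
      · rw [if_pos h3] at h1
        have h2 := Bf_time h1
        omega
      · rw [if_neg h3] at h1
        exact absurd h1 (Finset.notMem_empty s')

theorem fL_new (t : ℕ) (g : Θ × (V k × ℕ)) (ξ : Ξ) (x : ι → Q × V k) :
    ∀ s ∈ fL Θ Ξ q h N ep th F (t + 1) g ξ x, s ∈ fL Θ Ξ q h N ep th F t (pr' h N t g) ξ x ∨
      s ∈ fB Θ Ξ q h N ep th F (t + 1) g ξ x := by
  classical
  intro s hs
  rw [fL_pos (Nat.succ_ne_zero t), List.mem_map] at hs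
  obtain ⟨s', hs', rfl⟩ := hs
  by_cases ht : t < N
  · have h1 : ex N (t + 1) < N := by unfold ex; omega
    have hno : ¬ (t + 1 = 0 ∨ N < t + 1 ∧ t + 1 ≠ 1) := by omega
    rcases mem_Lf h1 hs' with h2 | h2
    · by_cases h0 : t = 0
      · right
        subst h0
        unfold fB
        rw [if_neg hno, if_pos rfl]
        refine Finset.mem_image_of_mem _ (Finset.mem_union_right _ ?_)
        have h3 : ex N (0 + 1) + 1 = N := by unfold ex; omega
        rw [h3] at h2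
        exact mem_Lf_top h2
      · left
        rw [fL_pos h0]
        unfold pr'
        rw [if_pos ht, ex_succ ht]
        exact List.mem_map_of_mem h2
    · right
      unfold fB
      rw [if_neg hno]
      exact Finset.mem_image_of_mem _ (Finset.mem_union_left _ h2)
  · by_cases h0 : t = 0
    · right
      subst h0
      have hN0 : N = 0 := by omega
      have hno : ¬ (0 + 1 = 0 ∨ N < 0 + 1 ∧ 0 + 1 ≠ 1) := by omega
      unfold fB
      rw [if_neg hno]
      refine Finset.mem_image_of_mem _ (Finset.mem_union_left _ ?_)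
      have h3 : ex N (0 + 1) = N := by unfold ex; omega
      rw [h3] at hs' ⊢
      exact mem_Lf_top hs'
    · left
      rw [fL_pos h0]
      unfold pr'
      rw [if_neg ht]
      have h3 : ex N (t + 1) = ex N t := by unfold ex; omega
      rw [h3] at hs'
      exact List.mem_map_of_mem hs'

end lists

/-! ### the contract -/

section con

variable {k N : ℕ} {ι Θ Ξ Q : Type} [Fintype ι] [DecidableEq ι] [Nontrivial ι] (σ : V k) [Fintype Θ] [Nonempty Θ]
  [Fintype Ξ] [Nonempty Ξ] [Fintype Q] [Nonempty Q] (a q : ι) (hN : N ≤ k) (h : ℕ) {ep th : ℝ}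
  {F : (ι → Q × V k) → V k → ℝ}

/-- the length of the list at the exponent `e` -/
def ln (Θ Ξ : Type) [Fintype Θ] [Nonempty Θ] [Fintype Ξ] [Nonempty Ξ] (N : ℕ) (ep th : ℝ)
    (F : (ι → Q × V k) → V k → ℝ) (e : ℕ) (ω : Sq k N ι Θ (Ξ × Q)) : ℝ :=
  LBlen (faceC k Q q) (faceTests k Q q) h ep th (fun p => F (exv q p)) (freeMapM σ N Θ Ξ Q q) e ω

theorem ln_eq (e : ℕ) (ω : Sq k N ι Θ (Ξ × Q)) :
    ln σ q h Θ Ξ N ep th F e ω = (Lf q h N ep th F e (Gm σ h e ω) (vm ω)).length := rfl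

theorem ln_mono {e : ℕ} (he : e < N) (ω : Sq k N ι Θ (Ξ × Q)) :
    ln σ q h Θ Ξ N ep th F (e + 1) ω ≤ ln σ q h Θ Ξ N ep th F e ω :=
  LBlen_mono _ _ _ _ he ω

/-- the value of the list on the path -/
theorem at_fL {t : ℕ} (ht : t ≠ 0) (ω : Sq k N ι Θ (Ξ × Q)) :
    (binSys Θ Ξ Q σ a hN h).at' (fL Θ Ξ q h N ep th F) t ω =
      (Lf q h N ep th F (ex N t) (Gm σ h (ex N t) ω) (vm ω)).map (relab q) := fL_pos ht _ _ _

theorem at_zero (ω : Sq k N ι Θ (Ξ × Q)) :
    (binSys Θ Ξ Q σ a hN h).at' (fL Θ Ξ q h N ep th F) 0 ω = [] := fL_zero _ _ _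

/-- a change of the list on the path -/
theorem ind_move {u : ℕ} (hu : u < N) (ω : Sq k N ι Θ (Ξ × Q)) :
    ind ((binSys Θ Ξ Q σ a hN h).at' (fL Θ Ξ q h N ep th F) (u + 1) ω ≠
      (binSys Θ Ξ Q σ a hN h).at' (fL Θ Ξ q h N ep th F) u ω) ≤
      ind (u = 0) + (ln σ q h Θ Ξ N ep th F (ex N (u + 1)) ω - ln σ q h Θ Ξ N ep th F (ex N u) ω) := by
  have he : ex N (u + 1) < N := by unfold ex; omega
  have h1 := ln_mono σ q h (ep := ep) (th := th) (F := F) he ω
  rw [← ex_succ hu] at h1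
  by_cases h0 : u = 0
  · have h2 : ind ((binSys Θ Ξ Q σ a hN h).at' (fL Θ Ξ q h N ep th F) (u + 1) ω ≠
      (binSys Θ Ξ Q σ a hN h).at' (fL Θ Ξ q h N ep th F) u ω) ≤ 1 := ind_le_one _
    rw [ind_of h0]
    linarith
  · rw [ind_not h0, zero_add]
    by_cases h3 : (binSys Θ Ξ Q σ a hN h).at' (fL Θ Ξ q h N ep th F) (u + 1) ω ≠
      (binSys Θ Ξ Q σ a hN h).at' (fL Θ Ξ q h N ep th F) u ω
    · rw [ind_of h3]
      rw [at_fL σ a q hN h (Nat.succ_ne_zero u), at_fL σ a q hN h h0] at h3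
      have h4 : Lf q h N ep th F (ex N u) (Gm σ h (ex N u) ω) (vm ω) <:+
          Lf q h N ep th F (ex N (u + 1)) (Gm σ h (ex N (u + 1)) ω) (vm ω) := by
        have h5 := Lf_mono (i := q) (h := h) (ep := ep) (th := th) (F := F) he (Gm σ h (ex N (u + 1)) ω) (vm ω)
        rw [← ex_succ hu] at h5
        have h6 : Bin.par h (ex N (u + 1)) (Gm σ h (ex N (u + 1)) ω) = Gm σ h (ex N u) ω := by
          rw [ex_succ hu]
          exact par_G h _ _ _
        rwa [h6] at h5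
      rw [ln_eq, ln_eq]
      have h5 : (Lf q h N ep th F (ex N u) (Gm σ h (ex N u) ω) (vm ω)).length + 1 ≤
          (Lf q h N ep th F (ex N (u + 1)) (Gm σ h (ex N (u + 1)) ω) (vm ω)).length := by
        by_contra hc
        have h6 := h4.eq_of_length_le (by omega)
        exact h3 (by rw [h6])
      have h6 : ((Lf q h N ep th F (ex N u) (Gm σ h (ex N u) ω) (vm ω)).length : ℝ) + 1 ≤
          (Lf q h N ep th F (ex N (u + 1)) (Gm σ h (ex N (u + 1)) ω) (vm ω)).length := by exact_mod_cast h5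
      linarith
    · rw [ind_not h3]
      linarith

/-- the list in a finer geometry -/
def fLl (Θ Ξ : Type) (q : ι) (h N : ℕ) (ep th : ℝ) (F : (ι → Q × V k) → V k → ℝ) :
    Mov Ξ ι (Q × V k) (Θ × (V k × ℕ)) (List (Birth (TJs (Q × V k) (V k) (univ : Finset ι) q → Bool))) :=
  liftM (cgB N h) (fL Θ Ξ q h N ep th F)

/-- the value of the lifted list on the path -/
theorem at_lift' {β : Type} {h h' : ℕ} (hh : h ≤ h') (f : Mov Ξ ι (Q × V k) (Θ × (V k × ℕ)) β) (t : ℕ)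
    (ω : Sq k N ι Θ (Ξ × Q)) : (binSys Θ Ξ Q σ a hN h').at' (liftM (cgB N h) f) t ω =
      (binSys Θ Ξ Q σ a hN h).at' f t ω :=
  (binFine (Θ := Θ) (Ξ := Ξ) (Q := Q) σ a hN hh).at'_lift f t ω

/-- the exact information at the time `t` -/
def inf' (t : ℕ) (ω : Sq k N ι Unit (Unit × Q)) : ({j : ι // j ≠ q} → Q × V k) × V k × ℕ :=
  ((freeMapM σ N Unit Unit Q q).x ω,
    pos (ex N t) ((freeMapM σ N Unit Unit Q q).z ω) ((freeMapM σ N Unit Unit Q q).w ω),
    (freeMapM σ N Unit Unit Q q).w ω / 2 ^ ex N t)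

/-- future moves, from every state of every finer geometry -/
theorem fut_abs {β : Type} {h' : ℕ} (Z : Mov Unit ι (Q × V k) (Unit × (V k × ℕ)) β)
    (D : ℕ → Sq k N ι Unit (Unit × Q) → ℝ) {c : ℝ} (hc : 0 ≤ c)
    (hD : ∀ t ≤ N, ∀ φ : Sq k N ι Unit (Unit × Q) → ℝ, Fac (inf' σ q t) φ → (∀ ω, 0 ≤ φ ω) →
      (PM k N ι Unit Unit Q).E (fun ω => φ ω * D t ω) ≤ c * (PM k N ι Unit Unit Q).E φ)
    (hpt : ∀ t ≤ N, ∀ ω, ∑ u ∈ Finset.Ico t N,
        ind ((binSys Unit Unit Q σ a hN h').at' Z (u + 1) ω ≠ (binSys Unit Unit Q σ a hN h').at' Z u ω) ≤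
        1 + D t ω) : (binSys Unit Unit Q σ a hN h').Future (univ.erase q) Z (1 + c) := by
  intro t φ hφ hφ0
  have hE : 0 ≤ (PM k N ι Unit Unit Q).E φ := (PM k N ι Unit Unit Q).E_nonneg fun ω _ => hφ0 ω
  show ∑ u ∈ Finset.Ico t N, (PM k N ι Unit Unit Q).E (fun ω => φ ω *
      ind ((binSys Unit Unit Q σ a hN h').at' Z (u + 1) ω ≠ (binSys Unit Unit Q σ a hN h').at' Z u ω)) ≤ _
  rcases le_or_gt t N with ht | ht
  · have h2 : Fac (inf' σ q t) φ := by
      intro v u hvu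
      refine hφ v u ?_
      unfold inf' at hvu
      simp only [Prod.mk.injEq] at hvu
      obtain ⟨hx, hp, hd⟩ := hvu
      refine Prod.ext rfl (Prod.ext ?_ ?_)
      · funext j
        exact congrFun hx ⟨j.1, (Finset.mem_erase.1 j.2).1⟩
      · refine Prod.ext rfl ?_
        show (flr (ex N t - h') (pos (ex N t) (ctr σ v) (nz v)), nz v / 2 ^ ex N t) =
          (flr (ex N t - h') (pos (ex N t) (ctr σ u) (nz u)), nz u / 2 ^ ex N t)
        have hp' : pos (ex N t) (ctr σ v) (nz v) = pos (ex N t) (ctr σ u) (nz u) := hp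
        have hd' : nz v / 2 ^ ex N t = nz u / 2 ^ ex N t := hd
        rw [hp', hd']
    have h3 := hD t ht φ h2 hφ0
    have h4 : ∑ u ∈ Finset.Ico t N, (PM k N ι Unit Unit Q).E (fun ω => φ ω *
        ind ((binSys Unit Unit Q σ a hN h').at' Z (u + 1) ω ≠ (binSys Unit Unit Q σ a hN h').at' Z u ω)) =
        (PM k N ι Unit Unit Q).E (fun ω => φ ω * ∑ u ∈ Finset.Ico t N,
        ind ((binSys Unit Unit Q σ a hN h').at' Z (u + 1) ω ≠ (binSys Unit Unit Q σ a hN h').at' Z u ω)) := by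
      rw [← FP.E_sum]
      refine FP.E_congr _ fun ω _ => ?_
      rw [Finset.mul_sum]
    rw [h4, add_mul, one_mul]
    calc (PM k N ι Unit Unit Q).E (fun ω => φ ω * ∑ u ∈ Finset.Ico t N,
        ind ((binSys Unit Unit Q σ a hN h').at' Z (u + 1) ω ≠ (binSys Unit Unit Q σ a hN h').at' Z u ω))
        ≤ (PM k N ι Unit Unit Q).E (fun ω => φ ω + φ ω * D t ω) := by
          refine FP.E_mono _ fun ω _ => ?_
          have := mul_le_mul_of_nonneg_left (hpt t ht ω) (hφ0 ω)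
          linarith
      _ = (PM k N ι Unit Unit Q).E φ + (PM k N ι Unit Unit Q).E (fun ω => φ ω * D t ω) := FP.E_add _ _ _
      _ ≤ _ := add_le_add_right h3 _
  · rw [Finset.Ico_eq_empty (by omega), Finset.sum_empty]
    exact mul_nonneg (by linarith) hE

theorem ln_fut (hep : 0 < ep) (hrd : 32 * ((2 : ℝ) ^ h)⁻¹ ≤ ep ^ 2) (hF : ∀ x d, |F x d| ≤ 1) (t : ℕ)
    (φ : Sq k N ι Unit (Unit × Q) → ℝ) (hφ : Fac (inf' σ q t) φ) (h0 : ∀ ω, 0 ≤ φ ω) :
    (PM k N ι Unit Unit Q).E (fun ω => φ ω *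
      (ln σ q h Unit Unit N ep th F 0 ω - ln σ q h Unit Unit N ep th F (ex N t) ω)) ≤
      8 / ep ^ 2 * (PM k N ι Unit Unit Q).E φ :=
  LB_future (faceC k Q q) (faceTests k Q q) h (ep := ep) (th := th) (F := fun p => F (exv q p))
      (freeMapM σ N Unit Unit Q q) (fun _ d => hF _ d) hep hrd (ex_le' N t) hφ h0

theorem sum_zero_le (t N : ℕ) : ∑ u ∈ Finset.Ico t N, ind (u = 0) ≤ 1 := by
  calc ∑ u ∈ Finset.Ico t N, ind (u = 0) ≤ ∑ u ∈ Finset.range N, ind (u = 0) := by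
        refine Finset.sum_le_sum_of_subset_of_nonneg (fun u hu => ?_) fun _ _ _ => ind_nonneg _
        exact Finset.mem_range.2 (Finset.mem_Ico.1 hu).2
    _ ≤ 1 := by
        cases N with
        | zero => simp
        | succ N =>
          rw [Finset.sum_range_succ', ind_of rfl, Finset.sum_eq_zero fun u _ => ind_not (Nat.succ_ne_zero u), zero_add]

/-- MOVING OBJECTS which move only with the list: future moves, from every state of every finer geometry -/
theorem fut_gen {β : Type} {h' : ℕ} (hep : 0 < ep) (hrd : 32 * ((2 : ℝ) ^ h)⁻¹ ≤ ep ^ 2)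
    (hF : ∀ x d, |F x d| ≤ 1) (Z : Mov Unit ι (Q × V k) (Unit × (V k × ℕ)) β)
    (hZ : ∀ u < N, u ≠ 0 → ∀ ω, (binSys Unit Unit Q σ a hN h).at' (fL Unit Unit q h N ep th F) (u + 1) ω =
      (binSys Unit Unit Q σ a hN h).at' (fL Unit Unit q h N ep th F) u ω →
      (binSys Unit Unit Q σ a hN h').at' Z (u + 1) ω = (binSys Unit Unit Q σ a hN h').at' Z u ω) :
    (binSys Unit Unit Q σ a hN h').Future (univ.erase q) Z (1 + 8 / ep ^ 2) := by
  refine fut_abs σ a q hN Z
    (fun t ω => ln σ q h Unit Unit N ep th F 0 ω - ln σ q h Unit Unit N ep th F (ex N t) ω) (by positivity)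
    (fun t _ φ hφ h0 => ln_fut σ q h hep hrd hF t φ hφ h0) fun t ht ω => ?_
  have h1 : ∀ u ∈ Finset.Ico t N,
      ind ((binSys Unit Unit Q σ a hN h').at' Z (u + 1) ω ≠ (binSys Unit Unit Q σ a hN h').at' Z u ω) ≤
      ind (u = 0) + (ln σ q h Unit Unit N ep th F (ex N (u + 1)) ω - ln σ q h Unit Unit N ep th F (ex N u) ω) := by
    intro u hu
    have hu' := (Finset.mem_Ico.1 hu).2
    have he : ex N (u + 1) < N := by unfold ex; omega
    have h2 := ln_mono σ q h (ep := ep) (th := th) (F := F) he ω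
    rw [← ex_succ hu'] at h2
    by_cases h0 : u = 0
    · rw [ind_of h0]
      have := ind_le_one ((binSys Unit Unit Q σ a hN h').at' Z (u + 1) ω ≠ (binSys Unit Unit Q σ a hN h').at' Z u ω)
      linarith
    · refine le_trans (ind_mono fun hne hc => hne (hZ u hu' h0 ω hc)) (ind_move σ a q hN h hu' ω)
  refine (Finset.sum_le_sum h1).trans ?_
  rw [Finset.sum_add_distrib]
  refine add_le_add (sum_zero_le t N) ?_
  rw [Finset.sum_Ico_sub (fun u => ln σ q h Unit Unit N ep th F (ex N u) ω) ht, ex_top le_rfl]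

/-- the same with two lists -/
theorem fut_gen2 {β : Type} {h' h2 : ℕ} {ep2 th2 : ℝ} (hep : 0 < ep) (hrd : 32 * ((2 : ℝ) ^ h)⁻¹ ≤ ep ^ 2)
    (hep2 : 0 < ep2) (hrd2 : 32 * ((2 : ℝ) ^ h2)⁻¹ ≤ ep2 ^ 2)
    (hF : ∀ x d, |F x d| ≤ 1) (Z : Mov Unit ι (Q × V k) (Unit × (V k × ℕ)) β)
    (hZ : ∀ u < N, u ≠ 0 → ∀ ω, (binSys Unit Unit Q σ a hN h).at' (fL Unit Unit q h N ep th F) (u + 1) ω =
      (binSys Unit Unit Q σ a hN h).at' (fL Unit Unit q h N ep th F) u ω →
      (binSys Unit Unit Q σ a hN h2).at' (fL Unit Unit q h2 N ep2 th2 F) (u + 1) ω =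
      (binSys Unit Unit Q σ a hN h2).at' (fL Unit Unit q h2 N ep2 th2 F) u ω →
      (binSys Unit Unit Q σ a hN h').at' Z (u + 1) ω = (binSys Unit Unit Q σ a hN h').at' Z u ω) :
    (binSys Unit Unit Q σ a hN h').Future (univ.erase q) Z (1 + (8 / ep ^ 2 + 8 / ep2 ^ 2)) := by
  refine fut_abs σ a q hN Z
    (fun t ω => (ln σ q h Unit Unit N ep th F 0 ω - ln σ q h Unit Unit N ep th F (ex N t) ω) +
      (ln σ q h2 Unit Unit N ep2 th2 F 0 ω - ln σ q h2 Unit Unit N ep2 th2 F (ex N t) ω)) (by positivity)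
    (fun t _ φ hφ h0 => ?_) fun t ht ω => ?_
  · have e1 := ln_fut σ q h (th := th) hep hrd hF t φ hφ h0
    have e2 := ln_fut σ q h2 (th := th2) hep2 hrd2 hF t φ hφ h0
    rw [add_mul]
    refine le_trans (le_of_eq ?_) (add_le_add e1 e2)
    rw [← FP.E_add]
    refine FP.E_congr _ fun ω _ => ?_
    ring
  have h1 : ∀ u ∈ Finset.Ico t N,
      ind ((binSys Unit Unit Q σ a hN h').at' Z (u + 1) ω ≠ (binSys Unit Unit Q σ a hN h').at' Z u ω) ≤
      ind (u = 0) + ((ln σ q h Unit Unit N ep th F (ex N (u + 1)) ω - ln σ q h Unit Unit N ep th F (ex N u) ω) +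
      (ln σ q h2 Unit Unit N ep2 th2 F (ex N (u + 1)) ω - ln σ q h2 Unit Unit N ep2 th2 F (ex N u) ω)) := by
    intro u hu
    have hu' := (Finset.mem_Ico.1 hu).2
    have he : ex N (u + 1) < N := by unfold ex; omega
    have b1 := ln_mono σ q h (ep := ep) (th := th) (F := F) he ω
    have b2 := ln_mono σ q h2 (ep := ep2) (th := th2) (F := F) he ω
    rw [← ex_succ hu'] at b1 b2
    by_cases h0 : u = 0
    · rw [ind_of h0]
      have := ind_le_one ((binSys Unit Unit Q σ a hN h').at' Z (u + 1) ω ≠ (binSys Unit Unit Q σ a hN h').at' Z u ω)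
      linarith
    · have c1 := ind_move σ a q hN h (ep := ep) (th := th) (F := F) hu' ω
      have c2 := ind_move σ a q hN h2 (ep := ep2) (th := th2) (F := F) hu' ω
      rw [ind_not h0] at c1 c2 ⊢
      have c3 : ind ((binSys Unit Unit Q σ a hN h').at' Z (u + 1) ω ≠ (binSys Unit Unit Q σ a hN h').at' Z u ω) ≤
          ind ((binSys Unit Unit Q σ a hN h).at' (fL Unit Unit q h N ep th F) (u + 1) ω ≠
            (binSys Unit Unit Q σ a hN h).at' (fL Unit Unit q h N ep th F) u ω) +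
          ind ((binSys Unit Unit Q σ a hN h2).at' (fL Unit Unit q h2 N ep2 th2 F) (u + 1) ω ≠
            (binSys Unit Unit Q σ a hN h2).at' (fL Unit Unit q h2 N ep2 th2 F) u ω) := by
        by_cases d1 : (binSys Unit Unit Q σ a hN h).at' (fL Unit Unit q h N ep th F) (u + 1) ω =
            (binSys Unit Unit Q σ a hN h).at' (fL Unit Unit q h N ep th F) u ω
        · by_cases d2 : (binSys Unit Unit Q σ a hN h2).at' (fL Unit Unit q h2 N ep2 th2 F) (u + 1) ω =
              (binSys Unit Unit Q σ a hN h2).at' (fL Unit Unit q h2 N ep2 th2 F) u ω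
          · rw [ind_not (not_not.2 (hZ u hu' h0 ω d1 d2))]
            exact add_nonneg (ind_nonneg _) (ind_nonneg _)
          · rw [ind_of d2]
            have := ind_le_one ((binSys Unit Unit Q σ a hN h').at' Z (u + 1) ω ≠ (binSys Unit Unit Q σ a hN h').at' Z u ω)
            have := ind_nonneg ((binSys Unit Unit Q σ a hN h).at' (fL Unit Unit q h N ep th F) (u + 1) ω ≠
              (binSys Unit Unit Q σ a hN h).at' (fL Unit Unit q h N ep th F) u ω)
            linarith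
        · rw [ind_of d1]
          have := ind_le_one ((binSys Unit Unit Q σ a hN h').at' Z (u + 1) ω ≠ (binSys Unit Unit Q σ a hN h').at' Z u ω)
          have := ind_nonneg ((binSys Unit Unit Q σ a hN h2).at' (fL Unit Unit q h2 N ep2 th2 F) (u + 1) ω ≠
              (binSys Unit Unit Q σ a hN h2).at' (fL Unit Unit q h2 N ep2 th2 F) u ω)
          linarith
      linarith
  refine (Finset.sum_le_sum h1).trans ?_
  rw [Finset.sum_add_distrib, Finset.sum_add_distrib]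
  refine add_le_add (sum_zero_le t N) (add_le_add ?_ ?_)
  · rw [Finset.sum_Ico_sub (fun u => ln σ q h Unit Unit N ep th F (ex N u) ω) ht, ex_top le_rfl]
  · rw [Finset.sum_Ico_sub (fun u => ln σ q h2 Unit Unit N ep2 th2 F (ex N u) ω) ht, ex_top le_rfl]

/-- tail of the length -/
theorem tail_fL (hep : 0 < ep) (hrd : 32 * ((2 : ℝ) ^ h)⁻¹ ≤ ep ^ 2) (hF : ∀ x d, |F x d| ≤ 1) (n : ℕ) :
    (PM k N ι Θ Ξ Q).Pr (fun ω => (n : ℝ) * (64 / (3 * ep ^ 2)) ≤
      ((binSys Θ Ξ Q σ a hN h).at' (fL Θ Ξ q h N ep th F) N ω).length) ≤ (1 / 2) ^ n := by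
  have h1 := LB_tail (faceC k Q q) (faceTests k Q q) h (ep := ep) (th := th) (F := fun p => F (exv q p))
    (freeMapM σ N Θ Ξ Q q) (fun _ d => hF _ d) hep hrd n
  refine le_trans (FP.Pr_mono _ fun ω _ hω => le_trans hω ?_) h1
  by_cases h0 : N = 0
  · have h2 : (binSys Θ Ξ Q σ a hN h).at' (fL Θ Ξ q h N ep th F) N ω = [] := by
      subst h0
      exact at_zero σ a q hN h ω
    rw [h2]
    simp only [List.length_nil, Nat.cast_zero]
    exact Nat.cast_nonneg _
  · rw [at_fL σ a q hN h h0, List.length_map, ex_top le_rfl]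
    exact le_rfl

/-- mean number of births of the nodes -/
theorem pub_fB (hep : 0 < ep) (hth : 0 < th) (hrd : 32 * ((2 : ℝ) ^ h)⁻¹ ≤ ep ^ 2) (hF : ∀ x d, |F x d| ≤ 1) :
    (PM k N ι Θ Ξ Q).E (fun ω => ∑ t ∈ range (N + 1),
      (((binSys Θ Ξ Q σ a hN h).at' (fB Θ Ξ q h N ep th F) t ω).card : ℝ)) ≤ 32 / (ep ^ 3 * th) := by
  classical
  have h1 := pubs_mean (faceC k Q q) (faceTests k Q q) h (ep := ep) (th := th) (F := fun p => F (exv q p))
    (freeMapM σ N Θ Ξ Q q) (fun _ d => hF _ d) hep hth hrd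
  refine le_trans (FP.E_mono _ fun ω _ => ?_) h1
  set Pp : ℕ → ℝ := fun e => (Pf q h N ep th F e (Gm σ h e ω) (vm ω) : ℝ) with hPp
  have hP0 : ∀ e, 0 ≤ Pp e := fun e => Nat.cast_nonneg _
  show ∑ t ∈ range (N + 1), (((binSys Θ Ξ Q σ a hN h).at' (fB Θ Ξ q h N ep th F) t ω).card : ℝ) ≤
    ∑ e ∈ range (N + 1), Pp e
  have h2 : ∑ e ∈ range (N + 1), Pp e = ∑ t ∈ range (N + 1), Pp (ex N t) := by
    rw [← Finset.sum_range_reflect]
    refine Finset.sum_congr rfl fun t _ => ?_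
    unfold ex
    rfl
  rw [h2, Finset.sum_range_succ', Finset.sum_range_succ' _ N]
  have h3 : ((binSys Θ Ξ Q σ a hN h).at' (fB Θ Ξ q h N ep th F) 0 ω).card = 0 := by
    show (fB Θ Ξ q h N ep th F 0 _ _ _).card = 0
    unfold fB
    rw [if_pos (Or.inl rfl), Finset.card_empty]
  rw [h3, Nat.cast_zero, add_zero]
  have h4 : ∀ t ∈ range N, (((binSys Θ Ξ Q σ a hN h).at' (fB Θ Ξ q h N ep th F) (t + 1) ω).card : ℝ) ≤
      Pp (ex N (t + 1)) + if t = 0 then Pp (ex N 0) else 0 := by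
    intro t ht
    have ht' := Finset.mem_range.1 ht
    have hno : ¬ (t + 1 = 0 ∨ N < t + 1 ∧ t + 1 ≠ 1) := by omega
    have e1 : (binSys Θ Ξ Q σ a hN h).at' (fB Θ Ξ q h N ep th F) (t + 1) ω =
        (Bf q h N ep th F (ex N (t + 1)) (Gm σ h (ex N (t + 1)) ω) (vm ω) ∪
      (if t + 1 = 1 then Bf q h N ep th F N (Bin.par h (ex N 1) (Gm σ h (ex N (t + 1)) ω)) (vm ω) else ∅)).image
        (relab q) := if_neg hno
    rw [e1]
    have h5 := (Finset.card_image_le (s := (Bf q h N ep th F (ex N (t + 1)) (Gm σ h (ex N (t + 1)) ω) (vm ω) ∪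
      (if t + 1 = 1 then Bf q h N ep th F N (Bin.par h (ex N 1) (Gm σ h (ex N (t + 1)) ω)) (vm ω) else ∅)))
      (f := relab q)).trans (Finset.card_union_le _ _)
    have h6 : (((Bf q h N ep th F (ex N (t + 1)) (Gm σ h (ex N (t + 1)) ω) (vm ω)).card : ℕ) : ℝ) ≤
        Pp (ex N (t + 1)) := Nat.cast_le.2 (card_Bf _ _ _)
    have h7 : (((if t + 1 = 1 then Bf q h N ep th F N (Bin.par h (ex N 1) (Gm σ h (ex N (t + 1)) ω)) (vm ω)
        else ∅ : Finset (Birth (TJ k Q q → Bool))).card : ℕ) : ℝ) ≤ if t = 0 then Pp (ex N 0) else 0 := by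
      by_cases h0 : t = 0
      · subst h0
        rw [if_pos rfl, if_pos rfl]
        have h8 : Bin.par h (ex N 1) (Gm σ h (ex N (0 + 1)) ω) = Gm σ h (ex N 0) ω := by
          rw [ex_succ ht']
          exact par_G h _ _ _
        rw [h8]
        exact Nat.cast_le.2 (card_Bf _ _ _)
      · rw [if_neg (by omega), if_neg h0, Finset.card_empty, Nat.cast_zero]
    refine le_trans (by exact_mod_cast h5) (add_le_add h6 h7)
  refine (Finset.sum_le_sum h4).trans ?_
  rw [Finset.sum_add_distrib]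
  refine add_le_add_right ?_ _
  rw [Finset.sum_ite_eq' (range N) 0]
  split_ifs
  · exact le_rfl
  · exact hP0 _

/-- **the contract of a list** of a static face -/
def pcBL0 (hep : 0 < ep) (hep1 : ep ≤ 1) (hth : 0 < th) (hrd : 32 * ((2 : ℝ) ^ h)⁻¹ ≤ ep ^ 2)
    (hF : ∀ x d, |F x d| ≤ 1) : BL (binSys Unit Unit Q σ a hN h) univ q (32 / ep ^ 2) (32 / (ep ^ 3 * th)) where
  L := fL Unit Unit q h N ep th F
  B := fB Unit Unit q h N ep th F
  dep t g ξ := fL_dep t _ ξ
  cell t g ξ ξ' x y _ h2 := fB_cell t _ ξ ξ' x y fun i hi => h2 i (mem_univ i) hi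
  zero _ _ _ := fL_zero _ _ _
  suf t g ξ x := fL_suf t _ ξ x
  nodup t _ ξ x := fL_nodup t _ ξ x
  time t _ ξ x s hs := fL_time t _ ξ x s hs
  btime t _ ξ x s hs := fB_time t _ ξ x s hs
  new t g ξ x s hs := fL_new t _ ξ x s hs
  fut := by
    refine Sys.Future.mono _ (fut_gen σ a q hN h (th := th) hep hrd hF _ fun u _ _ ω hu => hu) ?_
    have h2 : ep ^ 2 ≤ 1 := pow_le_one₀ hep.le hep1
    have h3 : 1 ≤ 1 / ep ^ 2 := by
      rw [le_div_iff₀ (by positivity)]
      linarith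
    have h4 : 32 / ep ^ 2 = 32 * (1 / ep ^ 2) := by ring
    have h5 : 8 / ep ^ 2 = 8 * (1 / ep ^ 2) := by ring
    rw [h4, h5]
    linarith
  tail n := by
    refine le_trans (FP.Pr_mono _ fun ω _ hω => ?_) (tail_fL (Θ := Unit) (Ξ := Unit) σ a q hN h (th := th) hep hrd hF n)
    refine le_trans (mul_le_mul_of_nonneg_left ?_ (Nat.cast_nonneg n)) hω
    rw [div_le_div_iff₀ (by positivity) (by positivity)]
    have : 0 < ep ^ 2 := by positivity
    linarith
  pub := pub_fB (Θ := Unit) (Ξ := Unit) σ a q hN h hep hth hrd hF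

/-- **the contract of a list** of a static face, in every finer geometry -/
def pcBL {h' : ℕ} (hh : h ≤ h') (hep : 0 < ep) (hep1 : ep ≤ 1) (hth : 0 < th) (hrd : 32 * ((2 : ℝ) ^ h)⁻¹ ≤ ep ^ 2)
    (hF : ∀ x d, |F x d| ≤ 1) : BL (binSys Unit Unit Q σ a hN h') univ q (32 / ep ^ 2) (32 / (ep ^ 3 * th)) where
  L := liftM (cgB N h) (fL Unit Unit q h N ep th F)
  B := liftM (cgB N h) (fB Unit Unit q h N ep th F)
  dep t g ξ := fL_dep t _ ξ
  cell t g ξ ξ' x y _ h2 := fB_cell t _ ξ ξ' x y fun i hi =>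
    (binFine (Θ := Unit) (Ξ := Unit) (Q := Q) σ a hN hh).cl_sub t _ _ (h2 i (mem_univ i) hi)
  zero _ _ _ := fL_zero _ _ _
  suf t g ξ x := by
    have h1 := (binFine (Θ := Unit) (Ξ := Unit) (Q := Q) σ a hN hh).par_cg t g
    show fL Unit Unit q h N ep th F t (cgB N h t ((binSys Unit Unit Q σ a hN h').par t g)) ξ x <:+ _
    rw [show cgB N h t ((binSys Unit Unit Q σ a hN h').par t g) =
      (binSys Unit Unit Q σ a hN h).par t (cgB N h (t + 1) g) from h1]
    exact fL_suf t _ ξ x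
  nodup t _ ξ x := fL_nodup t _ ξ x
  time t _ ξ x s hs := fL_time t _ ξ x s hs
  btime t _ ξ x s hs := fB_time t _ ξ x s hs
  new t g ξ x s hs := by
    have h1 := (binFine (Θ := Unit) (Ξ := Unit) (Q := Q) σ a hN hh).par_cg t g
    show s ∈ fL Unit Unit q h N ep th F t (cgB N h t ((binSys Unit Unit Q σ a hN h').par t g)) ξ x ∨ _
    rw [show cgB N h t ((binSys Unit Unit Q σ a hN h').par t g) =
      (binSys Unit Unit Q σ a hN h).par t (cgB N h (t + 1) g) from h1]
    exact fL_new t _ ξ x s hs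
  fut := by
    refine Sys.Future.mono _ (fut_gen σ a q hN h (th := th) hep hrd hF _ fun u _ _ ω hu => ?_) ?_
    · have h1 := (binFine (Θ := Unit) (Ξ := Unit) (Q := Q) σ a hN hh).at'_lift (fL Unit Unit q h N ep th F)
      exact (h1 (u + 1) ω).trans (hu.trans (h1 u ω).symm)
    · have h2 : ep ^ 2 ≤ 1 := pow_le_one₀ hep.le hep1
      have h3 : 1 ≤ 1 / ep ^ 2 := by
        rw [le_div_iff₀ (by positivity)]
        linarith
      have h4 : 32 / ep ^ 2 = 32 * (1 / ep ^ 2) := by ring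
      have h5 : 8 / ep ^ 2 = 8 * (1 / ep ^ 2) := by ring
      rw [h4, h5]
      linarith
  tail n := by
    refine le_trans (FP.Pr_mono _ fun ω _ hω => ?_) (tail_fL (Θ := Unit) (Ξ := Unit) σ a q hN h (th := th) hep hrd hF n)
    have h1 := (binFine (Θ := Unit) (Ξ := Unit) (Q := Q) σ a hN hh).at'_lift (fL Unit Unit q h N ep th F) N ω
    have h2 : (n : ℝ) * (32 / ep ^ 2) ≤ ((binSys Unit Unit Q σ a hN h).at' (fL Unit Unit q h N ep th F) N ω).length := by
      rw [← h1]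
      exact hω
    refine le_trans (mul_le_mul_of_nonneg_left ?_ (Nat.cast_nonneg n)) h2
    rw [div_le_div_iff₀ (by positivity) (by positivity)]
    have : 0 < ep ^ 2 := by positivity
    linarith
  pub := by
    refine le_trans (le_of_eq ?_) (pub_fB (Θ := Unit) (Ξ := Unit) σ a q hN h hep hth hrd hF)
    refine FP.E_congr _ fun ω _ => Finset.sum_congr rfl fun t _ => ?_
    rw [← (binFine (Θ := Unit) (Ξ := Unit) (Q := Q) σ a hN hh).at'_lift (fB Unit Unit q h N ep th F) t ω]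
    rfl

end con

/-! ### the pieces of `S1Lay` -/

section pc

/-- the moving face of a family: `0` at the time `0`, divided by `4` -/
def mvP {k : ℕ} {ι Q : Type} (N : ℕ) (R : Fam k ι Q) : Mov Unit ι (Q × V k) (Unit × (V k × ℕ)) (V k → ℝ) :=
  fun t g _ x d => (if t = 0 then 0 else R (ex N t) g.2 x d) / 4

section one

variable {k N : ℕ} {ι Q : Type} [Fintype ι] [DecidableEq ι] [Nontrivial ι] [Fintype Q] [Nonempty Q]
  {q : ι} {h : ℕ} {ep th : ℝ} {F : (ι → Q × V k) → V k → ℝ}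

/-- the structured function by the list -/
theorem Sf_mvals {Θ Ξ : Type} {t : ℕ} (ht : t ≠ 0) (g : Θ × (V k × ℕ)) (ξ : Ξ) (x : ι → Q × V k) (d : V k) :
    Sf q h N ep th F (ex N t) g.2 x d = psi ep (mvals univ q (fL Θ Ξ q h N ep th F t g ξ x) x d) := by
  rw [fL_pos ht, mvals_relab]
  unfold Sf SB struc
  have h2 : (fun s : Birth (TJ k Q q → Bool) => (faceTests k Q q).val s.τ (restr q x) d) =
      (fun s => ∏ w ∈ univ.erase q, sgw q w s x d) := funext fun s => faceTests_val q s x d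
  rw [h2]
  rfl

/-- the same for the coarser node -/
theorem fine_Sf_mvals {Θ Ξ : Type} {t : ℕ} (ht : t ≠ 0) (g : Θ × (V k × ℕ)) (ξ : Ξ) (x : ι → Q × V k) (d : V k) :
    fine h (Sf q h N ep th F) (ex N t) g.2 x d =
      psi ep (mvals univ q (liftM (cgB N h) (fL Θ Ξ q h N ep th F) t g ξ x) x d) :=
  Sf_mvals (Θ := Θ) (Ξ := Ξ) ht (cgB N h t g) ξ x d

theorem mvP_pos (R : Fam k ι Q) {t : ℕ} (ht : t ≠ 0) (g : Unit × (V k × ℕ)) (ξ : Unit) (x : ι → Q × V k) (d : V k) :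
    mvP N R t g ξ x d = R (ex N t) g.2 x d / 4 := by
  unfold mvP
  rw [if_neg ht]

variable (σ : V k) (a : ι) (hN : N ≤ k)

theorem at_fL' {h' : ℕ} (hh : h ≤ h') (t : ℕ) (ω : Sq k N ι Unit (Unit × Q)) :
    liftM (cgB N h) (fL Unit Unit q h N ep th F) t ((binSys Unit Unit Q σ a hN h').gm t ω) (xm a ω) (vm ω) =
      (binSys Unit Unit Q σ a hN h).at' (fL Unit Unit q h N ep th F) t ω :=
  (binFine (Θ := Unit) (Ξ := Unit) (Q := Q) σ a hN hh).at'_lift (fL Unit Unit q h N ep th F) t ω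

/-- the moves of a residual -/
theorem fut_Rf (hep : 0 < ep) (hrd : 32 * ((2 : ℝ) ^ h)⁻¹ ≤ ep ^ 2) (hF : ∀ x d, |F x d| ≤ 1) :
    (binSys Unit Unit Q σ a hN h).Future (univ.erase q) (mvP N (Rf q h N ep th F)) (1 + 8 / ep ^ 2) := by
  refine fut_gen σ a q hN h (th := th) hep hrd hF _ fun u _ h0 ω hu => ?_
  funext d
  have e1 : ∀ t, t ≠ 0 → (binSys Unit Unit Q σ a hN h).at' (mvP N (Rf q h N ep th F)) t ω d =
      (F (vm ω) d - psi ep (mvals univ q ((binSys Unit Unit Q σ a hN h).at' (fL Unit Unit q h N ep th F) t ω)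
        (vm ω) d)) / 4 := by
    intro t ht
    refine (mvP_pos _ ht _ _ _ _).trans ?_
    rw [Rf_eq, Sf_mvals (Θ := Unit) (Ξ := Unit) ht ((binSys Unit Unit Q σ a hN h).gm t ω) (xm a ω)]
    rfl
  rw [e1 _ (Nat.succ_ne_zero u), e1 _ h0, hu]

/-- the moves of a lifted residual -/
theorem fut_fine_Rf {h' : ℕ} (hh : h ≤ h') (hep : 0 < ep) (hrd : 32 * ((2 : ℝ) ^ h)⁻¹ ≤ ep ^ 2)
    (hF : ∀ x d, |F x d| ≤ 1) :
    (binSys Unit Unit Q σ a hN h').Future (univ.erase q) (mvP N (fine h (Rf q h N ep th F))) (1 + 8 / ep ^ 2) := by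
  refine fut_gen σ a q hN h (th := th) hep hrd hF _ fun u _ h0 ω hu => ?_
  funext d
  have e1 : ∀ t, t ≠ 0 → (binSys Unit Unit Q σ a hN h').at' (mvP N (fine h (Rf q h N ep th F))) t ω d =
      (F (vm ω) d - psi ep (mvals univ q ((binSys Unit Unit Q σ a hN h).at' (fL Unit Unit q h N ep th F) t ω)
        (vm ω) d)) / 4 := by
    intro t ht
    refine (mvP_pos _ ht _ _ _ _).trans ?_
    have e2 : fine h (Rf q h N ep th F) (ex N t) ((binSys Unit Unit Q σ a hN h').gm t ω).2 (vm ω) d =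
        F (vm ω) d - fine h (Sf q h N ep th F) (ex N t) ((binSys Unit Unit Q σ a hN h').gm t ω).2 (vm ω) d := rfl
    have e3 := at_fL' (ep := ep) (th := th) (F := F) (q := q) σ a hN hh t ω
    rw [← e3, ← fine_Sf_mvals (Θ := Unit) (Ξ := Unit) ht]
    exact congrArg (· / 4) e2
  rw [e1 _ (Nat.succ_ne_zero u), e1 _ h0, hu]

end one

section lay

variable {k N m : ℕ} {Q : Type} [Fintype Q] [Nonempty Q] [Nontrivial (Fin m)] (L : LayE) (σ : V k) (a : Fin m)
  (hN : N ≤ k) {F : Fin m → (Fin m → Q × V k) → V k → ℝ}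

theorem rd32 (l : ℕ) : 32 * ((2 : ℝ) ^ L.lh l)⁻¹ ≤ L.lep l ^ 2 := by
  have h1 := L.rd l
  have h2 : (0 : ℝ) < ((2 : ℝ) ^ L.lh l)⁻¹ := by positivity
  linarith

theorem inv_le (l : ℕ) : 8 / L.lep l ^ 2 ≤ 8 / L.lep (l + 1) ^ 2 := by
  have h1 := L.lep_pos (l + 1)
  exact div_le_div_of_nonneg_left (by norm_num) (by positivity) (pow_le_pow_left₀ h1.le (L.lep_succ_le l) 2)

/-- **the moves of all faces of the pieces**, from every state -/
theorem fut_pc (hF : Pool.Agent.GM.Faces F) (l : ℕ) (q j : Fin m) :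
    (binSys Unit Unit Q σ a hN (L.lh (l + 1))).Future (univ.erase j) (mvP N (Pc N L F l q j))
      (1 + 16 / L.lep (l + 1) ^ 2) := by
  have h1 := L.lep_pos l
  have h2 := L.lep_pos (l + 1)
  have h3 := inv_le L l
  have h4 : 16 / L.lep (l + 1) ^ 2 = 8 / L.lep (l + 1) ^ 2 + 8 / L.lep (l + 1) ^ 2 := by ring
  have h5 : (0 : ℝ) < 8 / L.lep (l + 1) ^ 2 := by positivity
  rcases lt_trichotomy j q with h | h | h
  · rw [Pc_lt L h]
    exact Sys.Future.mono _ (fut_Rf σ a hN h2 (rd32 L (l + 1)) (hF.2 j)) (by linarith)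
  · subst h
    rw [Pc_eq]
    refine Sys.Future.mono _ (fut_gen2 σ a j hN (L.lh (l + 1)) (h2 := L.lh l) (ep := L.lep (l + 1))
      (th := L.lth (l + 1)) (ep2 := L.lep l) (th2 := L.lth l) h2 (rd32 L (l + 1)) h1 (rd32 L l) (hF.2 j) _
      fun u _ h0 ω hu hu2 => ?_) (by linarith)
    funext d
    have e1 : ∀ t, t ≠ 0 → (binSys Unit Unit Q σ a hN (L.lh (l + 1))).at' (mvP N (Dl N L F l j)) t ω d =
        (psi (L.lep (l + 1)) (mvals univ j ((binSys Unit Unit Q σ a hN (L.lh (l + 1))).at'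
          (fL Unit Unit j (L.lh (l + 1)) N (L.lep (l + 1)) (L.lth (l + 1)) (F j)) t ω) (vm ω) d) -
        psi (L.lep l) (mvals univ j ((binSys Unit Unit Q σ a hN (L.lh l)).at'
          (fL Unit Unit j (L.lh l) N (L.lep l) (L.lth l) (F j)) t ω) (vm ω) d)) / 4 := by
      intro t ht
      refine (mvP_pos _ ht _ _ _ _).trans ?_
      rw [Dl_eq]
      unfold Sl
      rw [Sf_mvals (Θ := Unit) (Ξ := Unit) ht ((binSys Unit Unit Q σ a hN (L.lh (l + 1))).gm t ω) (xm a ω),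
        fine_Sf_mvals (Θ := Unit) (Ξ := Unit) ht ((binSys Unit Unit Q σ a hN (L.lh (l + 1))).gm t ω) (xm a ω),
        ← at_fL' (ep := L.lep l) (th := L.lth l) (F := F j) (q := j) σ a hN (L.lh_mono l) t ω]
      rfl
    rw [e1 _ (Nat.succ_ne_zero u), e1 _ h0, hu, hu2]
  · rw [Pc_gt L h]
    exact Sys.Future.mono _ (fut_fine_Rf σ a hN (L.lh_mono l) h1 (rd32 L l) (hF.2 j)) (by linarith)

/-- **the structured face of the pieces** -/
theorem str_pc (hF : Pool.Agent.GM.Faces F) (l : ℕ) (q δ : Fin m) :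
    Nonempty (StrF (binSys Unit Unit Q σ a hN (L.lh (l + 1))) univ δ q (mvP N (Pc N L F l q q))
      (32 / L.lep (l + 1) ^ 2) (32 / (L.lep (l + 1) ^ 3 * L.lth (l + 1)))) := by
  have h1 := L.lep_pos l
  have h2 := L.lep_pos (l + 1)
  have h3 := L.lep_succ_le l
  have h4 := L.lep_le_one (l + 1)
  have t1 := L.lth_pos l
  have t2 := L.lth_pos (l + 1)
  have t3 := L.lth_succ_le l
  have h5 : 1 / (32 / L.lep (l + 1) ^ 2) ≤ L.lep (l + 1) := by
    rw [one_div_div, div_le_iff₀ (by norm_num)]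
    nlinarith
  refine ⟨{ e0 := L.lep l, e1 := L.lep (l + 1), pe0 := h5.trans h3, pe1 := h5
            b0 := (pcBL σ a q hN (L.lh l) (ep := L.lep l) (th := L.lth l) (F := F q) (L.lh_mono l) h1
              (L.lep_le_one l) t1 (rd32 L l) (hF.2 q)).mono ?_ ?_
            b1 := pcBL0 σ a q hN (L.lh (l + 1)) (ep := L.lep (l + 1)) (th := L.lth (l + 1)) (F := F q) h2
              h4 t2 (rd32 L (l + 1)) (hF.2 q)
            coin0 := fun _ _ _ _ _ => rfl
            coin1 := fun _ _ _ _ _ => rfl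
            eq := ?_ }⟩
  · exact div_le_div_of_nonneg_left (by norm_num) (by positivity) (pow_le_pow_left₀ h2.le h3 2)
  · refine div_le_div_of_nonneg_left (by norm_num) (by positivity) ?_
    exact mul_le_mul (pow_le_pow_left₀ h2.le h3 3) t3 t2.le (by positivity)
  · intro t g ξ x d
    rw [Pc_eq]
    by_cases ht : t = 0
    · subst ht
      show (0 : ℝ) / 4 = (psi (L.lep (l + 1)) [] - psi (L.lep l) []) / 4
      rw [psi_nil, psi_nil, sub_zero]
    · rw [mvP_pos _ ht, Dl_eq]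
      unfold Sl
      rw [Sf_mvals (Θ := Unit) (Ξ := Unit) ht g ξ, fine_Sf_mvals (Θ := Unit) (Ξ := Unit) ht g ξ]
      rfl

end lay

end pc

end

end Pool.Agent.GM.GS
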