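import Pool.Agent.GM.NV1
import Pool.Agent.GM.ColdOn
import Pool.Agent.GM.Colds
import Pool.Agent.GM.RdHyp

/-!
# GM/Piece : one piece of one layer from a named view and cold sets, every finite set of vertices (port of M3/Piece5,
helper34)

* `Dom P Q pr X Y` : the class `X` of the sample space is dominated by the class `Y` of the base: every bound of the
  conditional expectations given `Y` of a nonnegative function of the base is a bound given `X`;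
  `dom_Zk`, `dom_Kn` : the model with randomness and coins of the vertices over the model without;
* `piece_core` : named view `W` of `T t w = TZ s h0 (R with the face `a` cut after `p` changes) t (pr w)`, coldness
  `ColdOn` of the sets `S U` (`U` = losses of the view), natural coldness of the view `a`:
  `Pr (∃ e < N, 4 r + eta ≤ |TT s h0 R e|) ≤ ...`;
* `one_piece` : the case `Om = Sq k N ι Θ P`, `pr = prU`, classes `Zk U (Mod.ex N (t+1) - (h+3))`, `Kn a (Mod.ex N t)`.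
-/

set_option autoImplicit false
set_option linter.unusedSectionVars false

namespace Pool.Agent.GM

open Finset Pool.Agent.PWZ Pool.Agent.M3 Pool.Agent.M3.Bin
open Pool.Agent.M3.Mod (nd av)

noncomputable section

/-! ## domination of classes -/

section dom

variable {Om : Type} [Fintype Om] (P : FP Om) {Bs : Type} [Fintype Bs] (Q : FP Bs) (pr : Om → Bs)

/-- the class `X` of the sample space is dominated by the class `Y` of the base -/
def Dom {κ κ' : Type*} (X : Om → κ) (Y : Bs → κ') : Prop :=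
  ∀ f : Bs → ℝ, (∀ ω, 0 ≤ f ω) → ∀ c : ℝ, (∀ ω, Q.ce Y f ω ≤ c) → ∀ w, P.p w ≠ 0 → P.ce X (fun v => f (pr v)) w ≤ c

variable {P Q pr}

/-- a coarser class of the base -/
theorem Dom.coarser {κ κ' κ'' : Type*} {X : Om → κ} {Y : Bs → κ'} {Y' : Bs → κ''} (hD : Dom P Q pr X Y)
    (h : ∀ f : Bs → ℝ, (∀ ω, 0 ≤ f ω) → ∀ c : ℝ, (∀ ω, Q.ce Y' f ω ≤ c) → ∀ ω, Q.ce Y f ω ≤ c) :
    Dom P Q pr X Y' := fun f hf c hc w hw => hD f hf c (h f hf c hc) w hw

end dom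

section model

variable {k N : ℕ} {ι : Type} [Fintype ι] [DecidableEq ι]

theorem dom_Zk (Θ P : Type) [Fintype Θ] [Nonempty Θ] [Fintype P] [Nonempty P] (U : Finset ι) (r : ℕ) :
    Dom (Pm : FP (Sq k N ι Θ P)) (Pm : FP (Sq k N ι Unit Unit)) prU (Zk U r) (Zk U r) := by
  intro f _ c hc w _
  rw [ce_prU_Zk U r f w]
  exact hc _

theorem dom_Kn (Θ P : Type) [Fintype Θ] [Nonempty Θ] [Fintype P] [Nonempty P] (x : ι) {e : ℕ} (he : e ≤ N) :
    Dom (Pm : FP (Sq k N ι Θ P)) (Pm : FP (Sq k N ι Unit Unit)) prU (Kn x e) (Kn x e) := by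
  intro f _ c hc w _
  rw [ce_prU x he f w]
  exact hc _

variable {Om : Type} [Fintype Om] {P : FP Om} {pr : Om → Sq k N ι Unit Unit}
  {β : Type} {I : Finset β} {ζ : β → ℕ → Type} {Z : ∀ U t, Om → ζ U t} {κ : ℕ → Type}
  {K : ∀ t, Om → κ t} {T : ℕ → Om → ℝ} {che zr : ℕ → Om → Prop}

/-- ONE PIECE OF ONE LAYER, abstract sample space -/
theorem piece_core (hpr : ∀ B : Sq k N ι Unit Unit → Prop, P.Pr (fun w => B (pr w)) = Pm.Pr B)
    (W : NV P N I Z K T che zr) (hche : ∀ t < N, Fac (K (t + 1)) (fun w => ind (che t w)))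
    {s : V k} {a : ι} {h0 D p : ℕ} {R : ι → Fam k ι Unit}
    (hT : ∀ t ≤ N, ∀ w, T t w = TZ s h0 (Function.update R a (cut h0 N p (R a))) t (pr w))
    {S : β → Finset ι} {rs : ℕ → ℕ} (hrs : ∀ t < N, rs t ≤ Mod.ex N (t + 1) - (h0 + 3))
    (hrs' : ∀ t < N, Mod.ex N t - rs t ≤ D)
    (hZ : ∀ U ∈ I, ∀ t < N, Dom P (Pm : FP (Sq k N ι Unit Unit)) pr (Z U t) (Zk (S U) (rs t)))
    (hK : ∀ t < N, Dom P (Pm : FP (Sq k N ι Unit Unit)) pr (K (t + 1)) (Kn a (Mod.ex N (t + 1))))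
    {r ρ pc ph : ℝ} (hr : 0 < r) (hrm : W.rmin ≤ r) (her : W.eta ≤ r) (hρ : 0 ≤ ρ)
    {σ e : β → ℝ} {H : β → ℕ → Sq k N ι Unit Unit → Prop} (hσ0 : ∀ U ∈ I, 0 ≤ σ U)
    (C : ∀ U ∈ I, ColdOn s N h0 R Unit Unit (S U) D r (σ U) (e U) (H U))
    (hcut : (Pm : FP (Sq k N ι Unit Unit)).Pr
      (fun ω => (p : ℝ) < ∑ u ∈ range N, ind (chE s h0 (R a) u ω)) ≤ pc)
    (hhot : (Pm : FP (Sq k N ι Unit Unit)).Pr (fun ω => ∃ t ≤ N, 1 ≤ t ∧
      ρ < Pm.ce (Kn a (Mod.ex N t)) (fun v => ind (r ≤ |TT s h0 R (Mod.ex N t) v|)) ω) ≤ ph)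
    {U0 : β} (hU0 : U0 ∈ I) {q2 : ℝ}
    (hq2 : q2 = (W.q + (∑ U ∈ I, e U + (ph + pc))) + W.q + 2 * W.J * (2 * ρ + ∑ U ∈ I, σ U)) :
    (Pm : FP (Sq k N ι Unit Unit)).Pr (fun ω => ∃ e < N, 4 * r + W.eta ≤ |TT s h0 R e ω|) ≤
      pc + (2 * W.NB / (4 * r ^ 2) * ((pc + (σ U0 + e U0)) + W.e3 + ∑ U ∈ I, σ U * W.hb U + q2) + 3 * q2) := by
  have hJ0 : 0 ≤ W.J := (Finset.sum_nonneg fun t _ => FP.Pr_nonneg _ _).trans W.eJ
  have hT0 : ∀ w, T 0 w = 0 := by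
    intro w
    rw [hT 0 (Nat.zero_le _) w]
    unfold TZ
    rw [if_pos rfl]
  have hTZR : ∀ t, 1 ≤ t → t ≤ N → ∀ w, cn s h0 (R a) t (pr w) ≤ p → T t w = TT s h0 R (Mod.ex N t) (pr w) := by
    intro t h1 ht w hc
    rw [hT t ht w]
    unfold TZ
    rw [if_neg (by omega)]
    exact TT_cut s h0 p R a h1 ht hc
  -- flags
  set ct : ℕ → Sq k N ι Unit Unit → Prop := fun t ω => p < cn s h0 (R a) (min t N) ω with hct
  set D0' : ℕ → Om → Prop := fun t w => W.D0 t w ∨ (∃ U ∈ I, H U t (pr w)) ∨ Hot s h0 R r ρ a t (pr w) ∨ ct t (pr w)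
    with hD0'
  have hinc : ∀ t w, P.p w ≠ 0 → D0' t w → D0' (t + 1) w := by
    intro t w hw hd
    rcases hd with hd | ⟨U, hU, hd⟩ | hd | hd
    · exact Or.inl (W.D0inc t w hw hd)
    · exact Or.inr (Or.inl ⟨U, hU, (C U hU).inc t _ hd⟩)
    · exact Or.inr (Or.inr (Or.inl (hd.mono s (Nat.le_succ t))))
    · refine Or.inr (Or.inr (Or.inr ?_))
      have h1 := cn_mono_le s h0 (R a) (pr w) (t := min t N) (u := min (t + 1) N) (by omega) (by omega)
      have h2 : p < cn s h0 (R a) (min t N) (pr w) := hd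
      show p < cn s h0 (R a) (min (t + 1) N) (pr w)
      omega
  -- semi points
  have hsemi : ∀ t ≤ N, ∀ w, r ≤ |T t w| → ¬ D0' t w →
      1 ≤ t ∧ r ≤ |TT s h0 R (Mod.ex N t) (pr w)| ∧ (∀ U ∈ I, ¬ H U t (pr w)) ∧ ¬ Hot s h0 R r ρ a t (pr w) := by
    intro t ht w h1 h2
    have h3 : 1 ≤ t := by
      by_contra hcon
      have h0t : t = 0 := by omega
      rw [h0t, hT0 w, abs_zero] at h1
      linarith
    refine ⟨h3, ?_, fun U hU hx => h2 (Or.inr (Or.inl ⟨U, hU, hx⟩)), fun hx => h2 (Or.inr (Or.inr (Or.inl hx)))⟩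
    have h4 : cn s h0 (R a) t (pr w) ≤ p := by
      by_contra hcon
      refine h2 (Or.inr (Or.inr (Or.inr ?_)))
      show p < cn s h0 (R a) (min t N) (pr w)
      rw [min_eq_left ht]
      exact not_le.mp hcon
    rw [hTZR t h3 ht w h4] at h1
    exact h1
  have hzero : ∀ {γ : Type} (Y : Om → γ) (w : Om), P.p w ≠ 0 →
      P.ce Y (fun v => ind (r ≤ |T 0 v| ∧ ¬ D0' 0 v)) w ≤ 0 := by
    intro γ Y w hw
    refine FP.ce_le_const _ (fun v _ => ?_) hw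
    rw [ind_not]
    rintro ⟨h3, h4⟩
    obtain ⟨h5, -⟩ := hsemi 0 (Nat.zero_le _) v h3 h4
    omega
  -- classes of losses
  have hcold1 : ∀ U ∈ I, ∀ t < N, ∀ u, 1 ≤ u → u ≤ N → rs t ≤ Mod.ex N u - (h0 + 3) → Mod.ex N u - rs t ≤ D →
      ∀ w, P.p w ≠ 0 → P.ce (Z U t) (fun v => ind (r ≤ |T u v| ∧ ¬ D0' u v)) w ≤ σ U := by
    intro U hU t ht u h1 hu h2 h3 w hw
    have h4 := hZ U hU t ht (fun ω => ind (r ≤ |TT s h0 R (Mod.ex N u) ω| ∧ ¬ H U u ω)) (fun ω => ind_nonneg _) (σ U)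
      (fun ω => (C U hU).cold u h1 hu (rs t) h2 h3 ω) w hw
    refine le_trans (FP.ce_mono _ (fun v _ => ind_mono ?_) w) h4
    rintro ⟨h5, h6⟩
    obtain ⟨-, h7, h8, -⟩ := hsemi u hu v h5 h6
    exact ⟨h7, h8 U hU⟩
  have hcold : ∀ U ∈ I, ∀ t < N, ∀ w, P.p w ≠ 0 →
      P.ce (Z U t) (fun v => ind (r ≤ |T t v| ∧ ¬ D0' t v)) w ≤ σ U := by
    intro U hU t ht w hw
    rcases Nat.eq_zero_or_pos t with h0t | h0t
    · subst h0t
      exact (hzero _ w hw).trans (hσ0 U hU)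
    · exact hcold1 U hU t ht t h0t ht.le ((hrs t ht).trans (by unfold Mod.ex; omega)) (hrs' t ht) w hw
  have hcold' : ∀ U ∈ I, ∀ t < N, ∀ w, P.p w ≠ 0 →
      P.ce (Z U t) (fun v => ind (r ≤ |T (t + 1) v| ∧ ¬ D0' (t + 1) v)) w ≤ σ U := by
    intro U hU t ht w hw
    refine hcold1 U hU t ht (t + 1) (by omega) ht (hrs t ht) ?_ w hw
    have h1 := hrs' t ht
    have h2 : Mod.ex N (t + 1) ≤ Mod.ex N t := by unfold Mod.ex; omega
    omega
  -- the known class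
  have hkb : ∀ t, 1 ≤ t → t ≤ N → ∀ ω : Sq k N ι Unit Unit, Pm.ce (Kn a (Mod.ex N t))
      (fun v => ind (r ≤ |TT s h0 R (Mod.ex N t) v| ∧ ¬ Hot s h0 R r ρ a t v)) ω ≤ ρ := fun t h1 ht ω =>
    cold_known (Θ := Unit) (P := Unit) s a (h0 := h0) (R := R) (r0 := r) (r := r) h1 ht le_rfl hρ ω
  have hkn' : ∀ t < N, ∀ w, P.p w ≠ 0 →
      P.ce (K (t + 1)) (fun v => ind (r ≤ |T (t + 1) v| ∧ ¬ D0' (t + 1) v)) w ≤ 2 * ρ := by
    intro t ht w hw
    have h4 := hK t ht (fun ω => ind (r ≤ |TT s h0 R (Mod.ex N (t + 1)) ω| ∧ ¬ Hot s h0 R r ρ a (t + 1) ω))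
      (fun ω => ind_nonneg _) ρ (fun ω => hkb (t + 1) (by omega) ht ω) w hw
    refine le_trans (FP.ce_mono _ (fun v _ => ind_mono ?_) w) (h4.trans (by linarith))
    rintro ⟨h5, h6⟩
    obtain ⟨-, h7, -, h8⟩ := hsemi (t + 1) ht v h5 h6
    exact ⟨h7, h8⟩
  have hkn : ∀ t < N, ∀ w, P.p w ≠ 0 →
      P.ce (K (t + 1)) (fun v => ind (r ≤ |T t v| ∧ ¬ D0' t v)) w ≤ 2 * ρ := by
    intro t ht w hw
    rcases Nat.eq_zero_or_pos t with h0t | h0t
    · subst h0t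
      exact (hzero _ w hw).trans (by linarith)
    have h4 := hK t ht (fun ω => ind (r ≤ |TT s h0 R (Mod.ex N t) ω| ∧ ¬ Hot s h0 R r ρ a t ω))
      (fun ω => ind_nonneg _) (2 * ρ) (fun ω => ?_) w hw
    · refine le_trans (FP.ce_mono _ (fun v _ => ind_mono ?_) w) h4
      rintro ⟨h5, h6⟩
      obtain ⟨-, h7, -, h8⟩ := hsemi t ht.le v h5 h6
      exact ⟨h7, h8⟩
    · have h1 := ce_Kn_dbl (Θ := Unit) (P := Unit) a t
        (f := fun ω : Sq k N ι Unit Unit => ind (r ≤ |TT s h0 R (Mod.ex N t) ω| ∧ ¬ Hot s h0 R r ρ a t ω))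
        (fun _ => ind_nonneg _) ω
      have h2 := hkb t h0t ht.le ω
      linarith
  -- cut
  have hcutN : (Pm : FP (Sq k N ι Unit Unit)).Pr (fun ω => p < cn s h0 (R a) N ω) ≤ pc := by
    refine le_trans (FP.Pr_mono _ (fun ω _ hω => ?_)) hcut
    rw [← cn_eq s h0 (R a) ω]
    exact_mod_cast hω
  have hpc : 0 ≤ pc := (FP.Pr_nonneg _ _).trans hcutN
  have he0 : ∀ U ∈ I, 0 ≤ e U := fun U hU => (FP.Pr_nonneg _ _).trans (C U hU).mass
  have hθ : P.Pr (fun v => r ≤ |T N v|) ≤ pc + (σ U0 + e U0) := by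
    rcases Nat.eq_zero_or_pos N with h0N | h1N
    · have h1 : P.Pr (fun v => r ≤ |T N v|) ≤ 0 := by
        unfold FP.Pr
        refine FP.E_le_const _ (fun v _ => ?_)
        rw [ind_not]
        intro h
        rw [h0N, hT0 v, abs_zero] at h
        linarith
      have h2 := hσ0 U0 hU0
      have h3 := he0 U0 hU0
      linarith
    have h1 : P.Pr (fun v => r ≤ |T N v|) ≤
        P.Pr (fun v => p < cn s h0 (R a) N (pr v) ∨ r ≤ |TT s h0 R (Mod.ex N N) (pr v)|) := by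
      refine FP.Pr_mono _ (fun v _ hv => ?_)
      by_cases hc : p < cn s h0 (R a) N (pr v)
      · exact Or.inl hc
      · right
        rw [hTZR N h1N le_rfl v (not_lt.mp hc)] at hv
        exact hv
    refine h1.trans ((FP.Pr_or_le _ _ _).trans (add_le_add ?_ ?_))
    · rw [hpr (fun ω => p < cn s h0 (R a) N ω)]
      exact hcutN
    · rw [hpr (fun ω => r ≤ |TT s h0 R (Mod.ex N N) ω|)]
      have h2 : (Pm : FP (Sq k N ι Unit Unit)).Pr (fun ω => r ≤ |TT s h0 R (Mod.ex N N) ω|) ≤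
          (Pm : FP (Sq k N ι Unit Unit)).Pr (fun ω => (r ≤ |TT s h0 R (Mod.ex N N) ω| ∧ ¬ H U0 N ω) ∨ H U0 N ω) := by
        refine FP.Pr_mono _ (fun v _ hv => ?_)
        by_cases hc : H U0 N v
        · exact Or.inr hc
        · exact Or.inl ⟨hv, hc⟩
      refine h2.trans ((FP.Pr_or_le _ _ _).trans (add_le_add ?_ (C U0 hU0).mass))
      unfold FP.Pr
      rw [← FP.E_ce _ (Zk (S U0) (Mod.ex N N - (h0 + 3)))]
      refine FP.E_le_const _ (fun w _ => (C U0 hU0).cold N h1N le_rfl _ le_rfl ?_ w)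
      have h3 : Mod.ex N N = 0 := by unfold Mod.ex; omega
      rw [h3]
      omega
  have hD0N : P.Pr (D0' N) ≤ W.q + (∑ U ∈ I, e U + (ph + pc)) := by
    have h1 := FP.Pr_or_le P (W.D0 N) (fun w => (∃ U ∈ I, H U N (pr w)) ∨ Hot s h0 R r ρ a N (pr w) ∨ ct N (pr w))
    have h2 := FP.Pr_or_le P (fun w => ∃ U ∈ I, H U N (pr w)) (fun w => Hot s h0 R r ρ a N (pr w) ∨ ct N (pr w))
    have h3 := FP.Pr_or_le P (fun w => Hot s h0 R r ρ a N (pr w)) (fun w => ct N (pr w))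
    have h4 : P.Pr (fun w => ∃ U ∈ I, H U N (pr w)) ≤ ∑ U ∈ I, e U := by
      refine (FP.Pr_ex_le P I (fun U w => H U N (pr w))).trans (Finset.sum_le_sum fun U hU => ?_)
      rw [hpr (fun ω => H U N ω)]
      exact (C U hU).mass
    have h5 : P.Pr (fun w => Hot s h0 R r ρ a N (pr w)) ≤ ph := by
      rw [hpr (fun ω => Hot s h0 R r ρ a N ω)]
      exact Pr_Hot s hhot N
    have h6 : P.Pr (fun w => ct N (pr w)) ≤ pc := by
      rw [hpr (fun ω => ct N ω)]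
      refine le_trans (FP.Pr_mono _ (fun ω _ hω => ?_)) hcutN
      have : p < cn s h0 (R a) (min N N) ω := hω
      rwa [min_self] at this
    have h7 := W.D0q
    have h8 : P.Pr (D0' N) = P.Pr (fun w => W.D0 N w ∨ (∃ U ∈ I, H U N (pr w)) ∨ Hot s h0 R r ρ a N (pr w) ∨
      ct N (pr w)) := rfl
    linarith
  -- the one view theorem
  have hmain := W.one_view hche hr hrm her hinc (fun t w _ hd => Or.inl hd) (σ := σ) (σe := 2 * ρ)
    (θ := pc + (σ U0 + e U0)) hσ0 (by positivity) hcold hcold' hkn hkn' hθ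
  have hq2' : P.Pr (D0' N) + W.q + 2 * W.J * (2 * ρ + ∑ U ∈ I, σ U) ≤ q2 := by
    rw [hq2]
    linarith
  -- back to the piece
  have hfin : (Pm : FP (Sq k N ι Unit Unit)).Pr (fun ω => ∃ e < N, 4 * r + W.eta ≤ |TT s h0 R e ω|) ≤
      pc + P.Pr (fun w => ∃ t ≤ N, 4 * r + W.eta ≤ |T t w|) := by
    rw [← hpr (fun ω => ∃ e < N, 4 * r + W.eta ≤ |TT s h0 R e ω|)]
    have h1 : P.Pr (fun w => ∃ e < N, 4 * r + W.eta ≤ |TT s h0 R e (pr w)|) ≤
        P.Pr (fun w => p < cn s h0 (R a) N (pr w) ∨ ∃ t ≤ N, 4 * r + W.eta ≤ |T t w|) := by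
      refine FP.Pr_mono _ (fun w _ hw => ?_)
      obtain ⟨e, he, h2⟩ := hw
      by_cases hc : p < cn s h0 (R a) N (pr w)
      · exact Or.inl hc
      · right
        refine ⟨N - e, Nat.sub_le _ _, ?_⟩
        have h3 : 1 ≤ N - e := by omega
        have h4 : cn s h0 (R a) (N - e) (pr w) ≤ p :=
          (cn_mono s h0 (R a) (Nat.sub_le _ _) (pr w)).trans (not_lt.mp hc)
        rw [hTZR (N - e) h3 (Nat.sub_le _ _) w h4]
        have h5 : Mod.ex N (N - e) = e := by unfold Mod.ex; omega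
        rw [h5]
        exact h2
    refine h1.trans ((FP.Pr_or_le _ _ _).trans (add_le_add ?_ le_rfl))
    rw [hpr (fun ω => p < cn s h0 (R a) N ω)]
    exact hcutN
  refine hfin.trans (add_le_add le_rfl (hmain.trans ?_))
  have hNB := W.NB0
  have h1458 : 0 ≤ 2 * W.NB / (4 * r ^ 2) := by positivity
  refine add_le_add (mul_le_mul_of_nonneg_left ?_ h1458) ?_
  · linarith
  · linarith

end model

/-! ## the model with randomness and coins of the vertices -/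

section lift

variable {k N : ℕ} {ι Θ P : Type} [Fintype ι] [DecidableEq ι] [Fintype Θ] [Nonempty Θ] [Fintype P] [Nonempty P]
  {s : V k}

/-- the known face of the view changes: function of the known class of the next time -/
theorem chE_Kn {i : ι} {G : Fam k ι P} (hG : FOn ({i}ᶜ : Set ι) G) (h t : ℕ) {v w : Sq k N ι Θ P}
    (hv : Kn i (Mod.ex N (t + 1)) v = Kn i (Mod.ex N (t + 1)) w) : chE s h G t v ↔ chE s h G t w := by
  unfold chE
  have h1 : fz s h G (t + 1) v = fz s h G (t + 1) w := fz_fac s hG h (t + 1) v w hv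
  have h2 : fz s h G t v = fz s h G t w := fz_fac s hG h t v w (filt_Kn i t v w hv)
  rw [h1, h2]

/-- the families of the view: the face `a` cut after `p` changes, rounding `h`, randomness of the vertices -/
def Rcl (P : Type) (R : ι → Fam k ι Unit) (a : ι) (h0 N p : ℕ) : ι → Fam k ι P := fun j =>
  liftF (fine h0 (Function.update R a (cut h0 N p (R a)) j))

theorem Rcl_on {R : ι → Fam k ι Unit} (hR : ∀ j, FOn ({j}ᶜ : Set ι) (R j)) (a : ι) (h0 p : ℕ) (j : ι) :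
    FOn ({j}ᶜ : Set ι) (Rcl P R a h0 N p j) := by
  unfold Rcl
  refine lift_on (fine_on ?_ _)
  by_cases hj : j = a
  · subst hj
    rw [Function.update_self]
    exact (hR j).cut _ _ _
  · rw [Function.update_of_ne hj]
    exact hR j

theorem TZ_Rcl {h0 h : ℕ} (hh : h0 ≤ h) (R : ι → Fam k ι Unit) (a : ι) (p t : ℕ) (w : Sq k N ι Θ P) :
    TZ s h (Rcl P R a h0 N p) t w = TZ s h0 (Function.update R a (cut h0 N p (R a))) t (prU w) := by
  have h1 : TZ s h (Rcl P R a h0 N p) t w =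
      TZ s h (fun j => fine h0 (Function.update R a (cut h0 N p (R a)) j)) t (prU w) :=
    TZ_lift s h (fun j => fine h0 (Function.update R a (cut h0 N p (R a)) j)) t w
  rw [h1, TZ_fine s hh]

/-- ONE PIECE OF ONE LAYER in the model -/
theorem one_piece {R : ι → Fam k ι Unit} (hR : ∀ j, FOn ({j}ᶜ : Set ι) (R j)) {a : ι} {h0 h p : ℕ} (hh : h0 ≤ h)
    {zr : ℕ → Sq k N ι Θ P → Prop}
    (W : NV (Pm : FP (Sq k N ι Θ P)) N (UU a) (fun U t => Zk U (Mod.ex N (t + 1) - (h + 3)))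
      (fun t => Kn a (Mod.ex N t)) (TZ s h (Rcl P R a h0 N p)) (chE s h (Rcl P R a h0 N p a)) zr)
    {r ρ pc ph : ℝ} (hr : 0 < r) (hrm : W.rmin ≤ r) (her : W.eta ≤ r) (hρ : 0 ≤ ρ)
    {σ e : Finset ι → ℝ} {H : Finset ι → ℕ → Sq k N ι Unit Unit → Prop} (hσ0 : ∀ U ∈ UU a, 0 ≤ σ U)
    (C : ∀ U ∈ UU a, ColdOn s N h0 R Unit Unit U (h + 4) r (σ U) (e U) (H U))
    (hcut : (Pm : FP (Sq k N ι Unit Unit)).Pr
      (fun ω => (p : ℝ) < ∑ u ∈ range N, ind (chE s h0 (R a) u ω)) ≤ pc)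
    (hhot : (Pm : FP (Sq k N ι Unit Unit)).Pr (fun ω => ∃ t ≤ N, 1 ≤ t ∧
      ρ < Pm.ce (Kn a (Mod.ex N t)) (fun v => ind (r ≤ |TT s h0 R (Mod.ex N t) v|)) ω) ≤ ph)
    {U0 : Finset ι} (hU0 : U0 ∈ UU a) {q2 : ℝ}
    (hq2 : q2 = (W.q + (∑ U ∈ UU a, e U + (ph + pc))) + W.q + 2 * W.J * (2 * ρ + ∑ U ∈ UU a, σ U)) :
    (Pm : FP (Sq k N ι Unit Unit)).Pr (fun ω => ∃ e < N, 4 * r + W.eta ≤ |TT s h0 R e ω|) ≤
      pc + (2 * W.NB / (4 * r ^ 2) * ((pc + (σ U0 + e U0)) + W.e3 + ∑ U ∈ UU a, σ U * W.hb U + q2) + 3 * q2) :=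
  piece_core (pr := prU) (fun B => Pr_prU (Θ := Θ) (P := P) B) W
    (fun t _ => Fac.ind (fun v w hv => by rw [chE_Kn (Rcl_on hR a h0 p a) h t hv]))
    (fun t _ w => TZ_Rcl hh R a p t w) (S := fun U => U) (rs := fun t => Mod.ex N (t + 1) - (h + 3))
    (D := h + 4) (fun t _ => by omega) (fun t _ => by unfold Mod.ex; omega)
    (fun U _ t _ => dom_Zk Θ P U _) (fun t _ => dom_Kn Θ P a (Nat.sub_le _ _)) hr hrm her hρ hσ0 C hcut hhot hU0 hq2

end lift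

end

end Pool.Agent.GM
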