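import Pool.Agent.GM.Piece

/-!
# GM/PieceX: one piece from a named view and cold sets, ABSTRACT BASE (row ASM A11c), helper7

Port of `piece_core` (helper34) to an arbitrary base `Bs` with law `Q` (in the application: the model with public
randomness and with the coin of the hidden vertex), `pr : Om → Bs` preserves the law.
* `ColdB Q N T0 Y r σ e H` : coldness of one index: `H t` = hot events of the base, increasing, mass `≤ e`; outside of them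
  `|T0| ≥ r` has probability `≤ σ` given the class `Y t` of the step from `t` to `t+1`, at both times; `ColdB.of_ColdOn`,
  `coldB_Kn` : the cold sets `ColdOn` and the natural form of helper34;
* **`piece_abs`** : named view `W` of `T` (`T t w = T0 t (pr w)` off the cut event `ct`), classes `Z U t` dominated by the
  classes `Y U t` of the base, `K (t+1)` by `YK t`:  `Q.Pr (∃ t, 1 ≤ t ≤ N, 4 r + eta ≤ |T0 t|) ≤ ...`.
-/

set_option autoImplicit false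
set_option linter.unusedSectionVars false

namespace Pool.Agent.GM

open Finset Pool.Agent.PWZ Pool.Agent.M3 Pool.Agent.M3.Bin
open Pool.Agent.M3.Mod (nd av)

noncomputable section

section abs

variable {Bs : Type} [Fintype Bs]

/-- COLDNESS OF ONE INDEX, abstract base -/
structure ColdB (Q : FP Bs) (N : ℕ) (T0 : ℕ → Bs → ℝ) {κ : ℕ → Type} (Y : ∀ t, Bs → κ t) (r σ e : ℝ)
    (H : ℕ → Bs → Prop) : Prop where
  inc : ∀ t b, H t b → H (t + 1) b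
  mass : Q.Pr (H N) ≤ e
  cold : ∀ t, 1 ≤ t → t < N → ∀ b, Q.ce (Y t) (fun v => ind (r ≤ |T0 t v| ∧ ¬ H t v)) b ≤ σ
  cold' : ∀ t < N, ∀ b, Q.ce (Y t) (fun v => ind (r ≤ |T0 (t + 1) v| ∧ ¬ H (t + 1) v)) b ≤ σ

namespace ColdB

variable {Q : FP Bs} {N : ℕ} {T0 : ℕ → Bs → ℝ} {κ : ℕ → Type} {Y : ∀ t, Bs → κ t} {r σ e : ℝ} {H : ℕ → Bs → Prop}

theorem mono (C : ColdB Q N T0 Y r σ e H) {r' σ' e' : ℝ} (hr : r ≤ r') (hσ : σ ≤ σ') (he : e ≤ e') :
    ColdB Q N T0 Y r' σ' e' H where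
  inc := C.inc
  mass := C.mass.trans he
  cold t h1 ht b := le_trans (FP.ce_mono _ (fun _ _ => ind_mono fun h => ⟨hr.trans h.1, h.2⟩) b)
    ((C.cold t h1 ht b).trans hσ)
  cold' t ht b := le_trans (FP.ce_mono _ (fun _ _ => ind_mono fun h => ⟨hr.trans h.1, h.2⟩) b)
    ((C.cold' t ht b).trans hσ)

/-- more hot points -/
theorem enlarge (C : ColdB Q N T0 Y r σ e H) {H' : ℕ → Bs → Prop} {e' : ℝ} (hH : ∀ t b, H t b → H' t b)
    (hi : ∀ t b, H' t b → H' (t + 1) b) (hm : Q.Pr (H' N) ≤ e') : ColdB Q N T0 Y r σ e' H' where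
  inc := hi
  mass := hm
  cold t h1 ht b := le_trans (FP.ce_mono _ (fun _ _ => ind_mono fun h => ⟨h.1, fun h4 => h.2 (hH _ _ h4)⟩) b)
    (C.cold t h1 ht b)
  cold' t ht b := le_trans (FP.ce_mono _ (fun _ _ => ind_mono fun h => ⟨h.1, fun h4 => h.2 (hH _ _ h4)⟩) b)
    (C.cold' t ht b)

/-- the last time -/
theorem last (C : ColdB Q N T0 Y r σ e H) (hN : 1 ≤ N) : Q.Pr (fun b => r ≤ |T0 N b|) ≤ σ + e := by
  have h2 : Q.Pr (fun b => r ≤ |T0 N b|) ≤ Q.Pr (fun b => (r ≤ |T0 N b| ∧ ¬ H N b) ∨ H N b) := by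
    refine FP.Pr_mono _ (fun v _ hv => ?_)
    by_cases hc : H N v
    · exact Or.inr hc
    · exact Or.inl ⟨hv, hc⟩
  refine h2.trans ((FP.Pr_or_le _ _ _).trans (add_le_add ?_ C.mass))
  obtain ⟨n, rfl⟩ : ∃ n, N = n + 1 := ⟨N - 1, by omega⟩
  unfold FP.Pr
  rw [← FP.E_ce _ (Y n)]
  exact FP.E_le_const _ (fun w _ => C.cold' n (Nat.lt_succ_self n) w)

/-- an equal process -/
theorem congrT (C : ColdB Q N T0 Y r σ e H) {T1 : ℕ → Bs → ℝ} (hT : ∀ t, 1 ≤ t → t ≤ N → ∀ b, T1 t b = T0 t b) :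
    ColdB Q N T1 Y r σ e H where
  inc := C.inc
  mass := C.mass
  cold t h1 ht b := by
    have h2 : (fun v => ind (r ≤ |T1 t v| ∧ ¬ H t v)) = fun v => ind (r ≤ |T0 t v| ∧ ¬ H t v) :=
      funext fun v => by rw [hT t h1 ht.le v]
    rw [h2]
    exact C.cold t h1 ht b
  cold' t ht b := by
    have h2 : (fun v => ind (r ≤ |T1 (t + 1) v| ∧ ¬ H (t + 1) v)) =
        fun v => ind (r ≤ |T0 (t + 1) v| ∧ ¬ H (t + 1) v) := funext fun v => by rw [hT (t + 1) (by omega) ht v]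
    rw [h2]
    exact C.cold' t ht b

end ColdB

variable {Om : Type} [Fintype Om] {P : FP Om} {Q : FP Bs} {pr : Om → Bs} {N : ℕ}
  {β : Type} {I : Finset β} {ζ : β → ℕ → Type} {Z : ∀ U t, Om → ζ U t} {κ : ℕ → Type}
  {K : ∀ t, Om → κ t} {T : ℕ → Om → ℝ} {che zr : ℕ → Om → Prop}

/-- the coldness of the base gives the coldness of the view -/
theorem ColdB.up {T0 : ℕ → Bs → ℝ} {κ' : ℕ → Type} {Y : ∀ t, Bs → κ' t} {r σ e : ℝ} {H : ℕ → Bs → Prop}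
    (C : ColdB Q N T0 Y r σ e H) {ζ' : ℕ → Type} {Z' : ∀ t, Om → ζ' t}
    (hZ : ∀ t < N, Dom P Q pr (Z' t) (Y t)) {D0' : ℕ → Om → Prop} {ct : ℕ → Bs → Prop} (hr : 0 < r) (hσ : 0 ≤ σ)
    (hT0 : ∀ w, T 0 w = 0) (hT : ∀ t, 1 ≤ t → t ≤ N → ∀ w, ¬ ct t (pr w) → T t w = T0 t (pr w))
    (hct : ∀ t w, ct t (pr w) → D0' t w) (hH : ∀ t w, H t (pr w) → D0' t w) {t : ℕ} (ht : t < N) (w : Om)
    (hw : P.p w ≠ 0) : P.ce (Z' t) (fun v => ind (r ≤ |T t v| ∧ ¬ D0' t v)) w ≤ σ ∧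
      P.ce (Z' t) (fun v => ind (r ≤ |T (t + 1) v| ∧ ¬ D0' (t + 1) v)) w ≤ σ := by
  constructor
  · rcases Nat.eq_zero_or_pos t with h0t | h0t
    · subst h0t
      refine le_trans (FP.ce_le_const _ (c := 0) (fun v _ => ?_) hw) hσ
      rw [ind_not]
      rintro ⟨h3, -⟩
      rw [hT0 v, abs_zero] at h3
      linarith
    · have h4 := hZ t ht (fun b => ind (r ≤ |T0 t b| ∧ ¬ H t b)) (fun b => ind_nonneg _) σ
        (fun b => C.cold t h0t ht b) w hw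
      refine le_trans (FP.ce_mono _ (fun v _ => ind_mono ?_) w) h4
      rintro ⟨h5, h6⟩
      refine ⟨?_, fun h => h6 (hH t v h)⟩
      rwa [← hT t h0t ht.le v fun h => h6 (hct t v h)]
  · have h4 := hZ t ht (fun b => ind (r ≤ |T0 (t + 1) b| ∧ ¬ H (t + 1) b)) (fun b => ind_nonneg _) σ
      (fun b => C.cold' t ht b) w hw
    refine le_trans (FP.ce_mono _ (fun v _ => ind_mono ?_) w) h4
    rintro ⟨h5, h6⟩
    refine ⟨?_, fun h => h6 (hH (t + 1) v h)⟩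
    rwa [← hT (t + 1) (by omega) ht v fun h => h6 (hct (t + 1) v h)]

/-- **ONE PIECE, abstract base** -/
theorem piece_abs (hpr : ∀ B : Bs → Prop, P.Pr (fun w => B (pr w)) = Q.Pr B)
    (W : NV P N I Z K T che zr) (hche : ∀ t < N, Fac (K (t + 1)) (fun w => ind (che t w)))
    {T0 : ℕ → Bs → ℝ} {ct : ℕ → Bs → Prop} (cti : ∀ t b, ct t b → ct (t + 1) b) {pc : ℝ} (ctm : Q.Pr (ct N) ≤ pc)
    (hT0 : ∀ w, T 0 w = 0) (hT : ∀ t, 1 ≤ t → t ≤ N → ∀ w, ¬ ct t (pr w) → T t w = T0 t (pr w))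
    {κ' : β → ℕ → Type} {Y : ∀ U t, Bs → κ' U t} (hZ : ∀ U ∈ I, ∀ t < N, Dom P Q pr (Z U t) (Y U t))
    {κK : ℕ → Type} {YK : ∀ t, Bs → κK t} (hK : ∀ t < N, Dom P Q pr (K (t + 1)) (YK t))
    {r σK eK : ℝ} (hr : 0 < r) (hrm : W.rmin ≤ r) (her : W.eta ≤ r) {σ e : β → ℝ} {H : β → ℕ → Bs → Prop}
    {HK : ℕ → Bs → Prop} (hσ0 : ∀ U ∈ I, 0 ≤ σ U) (hσK : 0 ≤ σK)
    (C : ∀ U ∈ I, ColdB Q N T0 (Y U) r (σ U) (e U) (H U)) (CK : ColdB Q N T0 YK r σK eK HK)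
    {U0 : β} (hU0 : U0 ∈ I) {q2 : ℝ}
    (hq2 : q2 = (W.q + (∑ U ∈ I, e U + (eK + pc))) + W.q + 2 * W.J * (σK + ∑ U ∈ I, σ U)) :
    Q.Pr (fun b => ∃ t, 1 ≤ t ∧ t ≤ N ∧ 4 * r + W.eta ≤ |T0 t b|) ≤
      pc + (2 * W.NB / (4 * r ^ 2) * ((pc + (σ U0 + e U0)) + W.e3 + ∑ U ∈ I, σ U * W.hb U + q2) + 3 * q2) := by
  have hJ0 : 0 ≤ W.J := (Finset.sum_nonneg fun t _ => FP.Pr_nonneg _ _).trans W.eJ
  have hpc : 0 ≤ pc := (FP.Pr_nonneg _ _).trans ctm
  have he0 : ∀ U ∈ I, 0 ≤ e U := fun U hU => (FP.Pr_nonneg _ _).trans (C U hU).mass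
  -- flags
  set D0' : ℕ → Om → Prop := fun t w => W.D0 t w ∨ (∃ U ∈ I, H U t (pr w)) ∨ HK t (pr w) ∨ ct t (pr w) with hD0'
  have hinc : ∀ t w, P.p w ≠ 0 → D0' t w → D0' (t + 1) w := by
    intro t w hw hd
    rcases hd with hd | ⟨U, hU, hd⟩ | hd | hd
    · exact Or.inl (W.D0inc t w hw hd)
    · exact Or.inr (Or.inl ⟨U, hU, (C U hU).inc t _ hd⟩)
    · exact Or.inr (Or.inr (Or.inl (CK.inc t _ hd)))
    · exact Or.inr (Or.inr (Or.inr (cti t _ hd)))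
  have hct : ∀ t w, ct t (pr w) → D0' t w := fun t w h => Or.inr (Or.inr (Or.inr h))
  have hHK : ∀ t w, HK t (pr w) → D0' t w := fun t w h => Or.inr (Or.inr (Or.inl h))
  have hHU : ∀ U ∈ I, ∀ t w, H U t (pr w) → D0' t w := fun U hU t w h => Or.inr (Or.inl ⟨U, hU, h⟩)
  have hcold : ∀ U ∈ I, ∀ t < N, ∀ w, P.p w ≠ 0 → P.ce (Z U t) (fun v => ind (r ≤ |T t v| ∧ ¬ D0' t v)) w ≤ σ U ∧
      P.ce (Z U t) (fun v => ind (r ≤ |T (t + 1) v| ∧ ¬ D0' (t + 1) v)) w ≤ σ U := fun U hU t ht w hw =>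
    (C U hU).up (fun t ht => hZ U hU t ht) hr (hσ0 U hU) hT0 hT hct (hHU U hU) ht w hw
  have hkn : ∀ t < N, ∀ w, P.p w ≠ 0 → P.ce (K (t + 1)) (fun v => ind (r ≤ |T t v| ∧ ¬ D0' t v)) w ≤ σK ∧
      P.ce (K (t + 1)) (fun v => ind (r ≤ |T (t + 1) v| ∧ ¬ D0' (t + 1) v)) w ≤ σK := fun t ht w hw =>
    CK.up (Z' := fun t => K (t + 1)) hK hr hσK hT0 hT hct hHK ht w hw
  have hθ : P.Pr (fun v => r ≤ |T N v|) ≤ pc + (σ U0 + e U0) := by
    rcases Nat.eq_zero_or_pos N with h0N | h1N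
    · have h1 : P.Pr (fun v => r ≤ |T N v|) ≤ 0 := by
        unfold FP.Pr
        refine FP.E_le_const _ (fun v _ => ?_)
        rw [ind_not]
        intro h
        rw [h0N, hT0 v, abs_zero] at h
        linarith
      have h2 := hσ0 U0 hU0
      have h3 := he0 U0 hU0
      linarith
    have h1 : P.Pr (fun v => r ≤ |T N v|) ≤ P.Pr (fun v => ct N (pr v) ∨ r ≤ |T0 N (pr v)|) := by
      refine FP.Pr_mono _ (fun v _ hv => ?_)
      by_cases hc : ct N (pr v)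
      · exact Or.inl hc
      · right
        rwa [hT N h1N le_rfl v hc] at hv
    refine h1.trans ((FP.Pr_or_le _ _ _).trans (add_le_add ?_ ?_))
    · rw [hpr (ct N)]
      exact ctm
    · rw [hpr (fun b => r ≤ |T0 N b|)]
      exact (C U0 hU0).last h1N
  have hD0N : P.Pr (D0' N) ≤ W.q + (∑ U ∈ I, e U + (eK + pc)) := by
    have h1 := FP.Pr_or_le P (W.D0 N) (fun w => (∃ U ∈ I, H U N (pr w)) ∨ HK N (pr w) ∨ ct N (pr w))
    have h2 := FP.Pr_or_le P (fun w => ∃ U ∈ I, H U N (pr w)) (fun w => HK N (pr w) ∨ ct N (pr w))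
    have h3 := FP.Pr_or_le P (fun w => HK N (pr w)) (fun w => ct N (pr w))
    have h4 : P.Pr (fun w => ∃ U ∈ I, H U N (pr w)) ≤ ∑ U ∈ I, e U := by
      refine (FP.Pr_ex_le P I (fun U w => H U N (pr w))).trans (Finset.sum_le_sum fun U hU => ?_)
      rw [hpr (H U N)]
      exact (C U hU).mass
    have h5 : P.Pr (fun w => HK N (pr w)) ≤ eK := by
      rw [hpr (HK N)]
      exact CK.mass
    have h6 : P.Pr (fun w => ct N (pr w)) ≤ pc := by
      rw [hpr (ct N)]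
      exact ctm
    have h7 := W.D0q
    have h8 : P.Pr (D0' N) = P.Pr (fun w => W.D0 N w ∨ (∃ U ∈ I, H U N (pr w)) ∨ HK N (pr w) ∨ ct N (pr w)) := rfl
    linarith
  -- the one view theorem
  have hmain := W.one_view hche hr hrm her hinc (fun t w _ hd => Or.inl hd) (σ := σ) (σe := σK)
    (θ := pc + (σ U0 + e U0)) hσ0 hσK (fun U hU t ht w hw => (hcold U hU t ht w hw).1)
    (fun U hU t ht w hw => (hcold U hU t ht w hw).2) (fun t ht w hw => (hkn t ht w hw).1)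
    (fun t ht w hw => (hkn t ht w hw).2) hθ
  have hq2' : P.Pr (D0' N) + W.q + 2 * W.J * (σK + ∑ U ∈ I, σ U) ≤ q2 := by
    rw [hq2]
    linarith
  -- back to the piece
  have hfin : Q.Pr (fun b => ∃ t, 1 ≤ t ∧ t ≤ N ∧ 4 * r + W.eta ≤ |T0 t b|) ≤
      pc + P.Pr (fun w => ∃ t ≤ N, 4 * r + W.eta ≤ |T t w|) := by
    rw [← hpr (fun b => ∃ t, 1 ≤ t ∧ t ≤ N ∧ 4 * r + W.eta ≤ |T0 t b|)]
    have h1 : P.Pr (fun w => ∃ t, 1 ≤ t ∧ t ≤ N ∧ 4 * r + W.eta ≤ |T0 t (pr w)|) ≤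
        P.Pr (fun w => ct N (pr w) ∨ ∃ t ≤ N, 4 * r + W.eta ≤ |T t w|) := by
      refine FP.Pr_mono _ (fun w _ hw => ?_)
      obtain ⟨t, h1, h2, h3⟩ := hw
      by_cases hc : ct N (pr w)
      · exact Or.inl hc
      · right
        refine ⟨t, h2, ?_⟩
        have h4 : ¬ ct t (pr w) := by
          intro h
          have h5 : ∀ n, t ≤ n → ct n (pr w) := fun n hn => by
            induction n, hn using Nat.le_induction with
            | base => exact h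
            | succ n _ ih => exact cti n _ ih
          exact hc (h5 N h2)
        rw [hT t h1 h2 w h4]
        exact h3
    refine h1.trans ((FP.Pr_or_le _ _ _).trans (add_le_add ?_ le_rfl))
    rw [hpr (ct N)]
    exact ctm
  refine hfin.trans (add_le_add le_rfl (hmain.trans ?_))
  have hNB := W.NB0
  have h1458 : 0 ≤ 2 * W.NB / (4 * r ^ 2) := by positivity
  refine add_le_add (mul_le_mul_of_nonneg_left ?_ h1458) ?_
  · linarith
  · linarith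

end abs

end

end Pool.Agent.GM
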