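import Pool.Agent.GM.PieceX
import Pool.Agent.GM.PairColdX

/-!
# GM/PieceX2: the base with the coin of the hidden vertex, its classes and cold sets (row ASM A11c), helper7

Base `Sq k N ι Θ Q × Ξ`, uniform law: model with public randomness `Θ`, private randomness `Q`, coin of the hidden vertex.
* `unif_Pr_fst`, `dom_forget` : a sample space which is the product of the base and of other randomness: law, classes which
  consist of a class of the base and of a part of the other randomness;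
* `E_coin`, `ce_fst`, `ce_coin` : laws and classes without and with the coin;
* `T0X` : the process; `YX δ U s` : the class of the losses (coin only for `U = univ.erase δ`); `KX` : the natural class;
* **`ColdX.toB`, `ColdX.toB_fix`** : cold sets of helper83 (coin averaged, every coin) -> `ColdB`;
* **`coldB_Kn`** : the natural class, from its natural form.
-/

set_option autoImplicit false
set_option linter.unusedSectionVars false

namespace Pool.Agent.GM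

open Finset Pool.Agent.PWZ Pool.Agent.M3 Pool.Agent.M3.Bin
open Pool.Agent.M3.Mod (nd av)

noncomputable section

/-! ## forgetting a factor -/

section forget

variable {Om Bs Rs : Type} [Fintype Om] [Nonempty Om] [Fintype Bs] [Nonempty Bs] [Fintype Rs] [Nonempty Rs]

theorem unif_E_fst (e : Om ≃ Bs × Rs) (f : Bs → ℝ) :
    (FP.unif Om).E (fun w => f (e w).1) = (FP.unif Bs).E f := by
  rw [FP.unif_E, FP.unif_E]
  have h1 : ∑ w : Om, f (e w).1 = ∑ q : Bs × Rs, f q.1 := Fintype.sum_equiv e _ _ (fun _ => rfl)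
  have h2 : (Fintype.card Om : ℝ) = (Fintype.card Bs : ℝ) * Fintype.card Rs := by
    rw [Fintype.card_congr e, Fintype.card_prod]
    push_cast
    rfl
  have h3 : (Fintype.card Rs : ℝ) ≠ 0 := Nat.cast_ne_zero.mpr Fintype.card_ne_zero
  rw [h1, h2, Fintype.sum_prod_type]
  simp only [Finset.sum_const, Finset.card_univ, nsmul_eq_mul]
  rw [← Finset.mul_sum, mul_comm (Fintype.card Bs : ℝ), mul_div_mul_left _ _ h3]

theorem unif_Pr_fst (e : Om ≃ Bs × Rs) (B : Bs → Prop) :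
    (FP.unif Om).Pr (fun w => B (e w).1) = (FP.unif Bs).Pr B := unif_E_fst e (fun b => ind (B b))

theorem ce_map_fst (e : Om ≃ Bs × Rs) {κ : Type*} (Y : Bs → κ) (f : Bs → ℝ) (w : Om) :
    (FP.unif Om).ce (fun v => Y (e v).1) (fun v => f (e v).1) w = (FP.unif Bs).ce Y f (e w).1 := by
  unfold FP.ce FP.m
  rw [unif_E_fst e (fun v => ind (Y v = Y (e w).1) * f v), unif_E_fst e (fun v => ind (Y v = Y (e w).1))]

/-- a class which consists of a class of the base and of a part of the rest -/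
theorem ce_forget (e : Om ≃ Bs × Rs) {κ κ' : Type*} {X : Om → κ} {Y : Bs → κ'} (h1 : Fac X (fun v => Y (e v).1))
    (h2 : Fac (fun v => (Y (e v).1, (e v).2)) X) (f : Bs → ℝ) (w : Om) :
    (FP.unif Om).ce X (fun v => f (e v).1) w = (FP.unif Bs).ce Y f (e w).1 := by
  have hi := FP.unif_indep e
  have h3 : ∀ v : Om, (FP.unif Om).ce (fun v => (Y (e v).1, (e v).2)) (fun v => f (e v).1) v =
      (FP.unif Bs).ce Y f (e v).1 := by
    intro v
    rw [FP.ce_indep_eq (FP.unif Om) hi (ζ := fun v => Y (e v).1) (ψ := fun v => (e v).2)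
      (φ := fun _ => ()) (fun a b hab => congrArg Y hab) (Fac.refl _) (Fac.const _ _)
      (fun a b hab => congrArg f (Prod.mk.injEq _ _ _ _ ▸ hab : _ ∧ _).1) (FP.unif_ne Om v)]
    rw [← ce_map_fst e Y f v]
    exact FP.ce_congr_map _ (fun a b hab => (Prod.mk.injEq _ _ _ _ ▸ hab : _ ∧ _).1) (fun a b hab => by rw [hab]) _ v
  rw [← FP.ce_tower _ h2 (fun v => f (e v).1)]
  rw [FP.ce_congr _ (fun v _ => h3 v)]
  have h4 : Fac X (fun v : Om => (FP.unif Bs).ce Y f (e v).1) := by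
    intro a b hab
    exact FP.ce_fac _ Y f _ _ (h1 a b hab)
  exact FP.ce_of_fac _ h4 (FP.unif_ne Om w)

theorem dom_forget (e : Om ≃ Bs × Rs) {κ κ' : Type*} {X : Om → κ} {Y : Bs → κ'} (h1 : Fac X (fun v => Y (e v).1))
    (h2 : Fac (fun v => (Y (e v).1, (e v).2)) X) : Dom (FP.unif Om) (FP.unif Bs) (fun w => (e w).1) X Y := by
  intro f _ c hc w _
  rw [ce_forget e h1 h2 f w]
  exact hc _

end forget

/-! ## the coin as a separate factor -/

section coin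

variable {Om Xd : Type} [Fintype Om] [Nonempty Om] [Fintype Xd] [Nonempty Xd]

theorem E_coin (f : Om × Xd → ℝ) : (FP.unif (Om × Xd)).E f =
    (FP.unif Om).E (fun ω => ∑ ξ, (Fintype.card Xd : ℝ)⁻¹ * f (ω, ξ)) := by
  rw [FP.unif_E, FP.unif_E, Fintype.sum_prod_type, Fintype.card_prod]
  push_cast
  simp only [← Finset.mul_sum]
  rw [mul_comm, ← div_div, div_eq_mul_inv (∑ x, ∑ y, f (x, y)) (Fintype.card Xd : ℝ), mul_comm (∑ x, ∑ y, f (x, y))]

/-- a class without the coin -/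
theorem ce_fst {κ : Type*} (Y : Om → κ) (f : Om × Xd → ℝ) (b : Om × Xd) :
    (FP.unif (Om × Xd)).ce (fun b => Y b.1) f b =
      (FP.unif Om).ce Y (fun v => ∑ ξ, (Fintype.card Xd : ℝ)⁻¹ * f (v, ξ)) b.1 := by
  have hc : (Fintype.card Xd : ℝ) ≠ 0 := Nat.cast_ne_zero.mpr Fintype.card_ne_zero
  unfold FP.ce FP.m
  rw [E_coin, E_coin]
  congr 1
  · refine FP.E_congr _ fun v _ => ?_
    rw [Finset.mul_sum]
    exact Finset.sum_congr rfl fun ξ _ => by ring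
  · refine FP.E_congr _ fun v _ => ?_
    simp only
    rw [Finset.sum_const, Finset.card_univ, nsmul_eq_mul, ← mul_assoc, mul_inv_cancel₀ hc, one_mul]

/-- a class with the coin -/
theorem ce_coin {κ : Type*} (Y : Om → κ) (f : Om × Xd → ℝ) (b : Om × Xd) :
    (FP.unif (Om × Xd)).ce (fun b => (Y b.1, b.2)) f b = (FP.unif Om).ce Y (fun v => f (v, b.2)) b.1 := by
  have hc : (Fintype.card Xd : ℝ) ≠ 0 := Nat.cast_ne_zero.mpr Fintype.card_ne_zero
  have h1 : ∀ g : Om → ℝ, (FP.unif (Om × Xd)).E (fun v => ind ((Y v.1, v.2) = (Y b.1, b.2)) * g v.1) =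
      (Fintype.card Xd : ℝ)⁻¹ * (FP.unif Om).E (fun v => ind (Y v = Y b.1) * g v) := by
    intro g
    rw [E_coin, ← FP.E_smul]
    refine FP.E_congr _ fun v _ => ?_
    rw [Finset.sum_eq_single b.2]
    · simp only [Prod.mk.injEq, and_true]
    · intro ξ _ hξ
      have h2 : ¬ ((Y v, ξ) = (Y b.1, b.2)) := fun h => hξ (Prod.mk.injEq _ _ _ _ ▸ h : _ ∧ _).2
      rw [ind_not h2, zero_mul, mul_zero]
    · intro h
      exact absurd (Finset.mem_univ _) h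
  have h3 : (FP.unif (Om × Xd)).E (fun v => ind ((Y v.1, v.2) = (Y b.1, b.2)) * f v) =
      (Fintype.card Xd : ℝ)⁻¹ * (FP.unif Om).E (fun v => ind (Y v = Y b.1) * f (v, b.2)) := by
    rw [← h1 (fun v => f (v, b.2))]
    refine FP.E_congr _ fun v _ => ?_
    by_cases h : (Y v.1, v.2) = (Y b.1, b.2)
    · have h2 : v.2 = b.2 := (Prod.mk.injEq _ _ _ _ ▸ h : _ ∧ _).2
      rw [← h2]
    · rw [ind_not h, zero_mul, zero_mul]
  unfold FP.ce FP.m
  rw [h3]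
  have h4 := h1 (fun _ => 1)
  simp only [mul_one] at h4
  rw [h4, mul_div_mul_left _ _ (inv_ne_zero hc)]

end coin

/-! ## the base with the coin of the hidden vertex -/

section base

variable {k N : ℕ} {ι Θ Q Ξ : Type} [Fintype ι] [DecidableEq ι] [Fintype Θ] [Nonempty Θ] [Fintype Q] [Nonempty Q]
  [Fintype Ξ] [Nonempty Ξ]

/-- THE PROCESS ON THE BASE -/
def T0X (s : V k) (h : ℕ) (R : Θ → Ξ → ι → Fam k ι Q) (t : ℕ) (b : Sq k N ι Θ Q × Ξ) : ℝ :=
  TT s h (R (th b.1) b.2) (Mod.ex N t) b.1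

open Classical in
/-- THE CLASSES OF THE LOSSES ON THE BASE: the coin only for `U = univ.erase δ` -/
def YX (δ : ι) (U : Finset ι) (s : ℕ) (b : Sq k N ι Θ Q × Ξ) :
    (Θ × ({j : ι // j ∈ U} → Q × V k) × ℕ × ({j : ι // ¬ j ∈ U} → V k)) × Option Ξ :=
  (Zk U s b.1, if U = univ.erase δ then some b.2 else none)

theorem ce_YX_ne {δ : ι} {U : Finset ι} (hU : U ≠ univ.erase δ) (s : ℕ) (f : Sq k N ι Θ Q × Ξ → ℝ)
    (b : Sq k N ι Θ Q × Ξ) : (FP.unif (Sq k N ι Θ Q × Ξ)).ce (YX δ U s) f b =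
      Pm.ce (Zk U s) (fun v => ∑ ξ, (Fintype.card Ξ : ℝ)⁻¹ * f (v, ξ)) b.1 := by
  rw [FP.ce_congr_map _ (Y := fun b : Sq k N ι Θ Q × Ξ => Zk U s b.1) (fun a c hac => congrArg Prod.fst hac) ?_ f b]
  · exact ce_fst (Zk U s) f b
  · intro a c hac
    unfold YX
    rw [if_neg hU, if_neg hU]
    exact Prod.ext hac rfl

theorem ce_YX_eq (δ : ι) (s : ℕ) (f : Sq k N ι Θ Q × Ξ → ℝ) (b : Sq k N ι Θ Q × Ξ) :
    (FP.unif (Sq k N ι Θ Q × Ξ)).ce (YX δ (univ.erase δ) s) f b =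
      Pm.ce (Zk (univ.erase δ) s) (fun v => f (v, b.2)) b.1 := by
  have h0 : ∀ a : Sq k N ι Θ Q × Ξ, YX δ (univ.erase δ) s a = (Zk (univ.erase δ) s a.1, some a.2) := by
    intro a
    unfold YX
    rw [if_pos rfl]
  rw [FP.ce_congr_map _ (Y := fun b : Sq k N ι Θ Q × Ξ => (Zk (univ.erase δ) s b.1, b.2)) ?_ ?_ f b]
  · exact ce_coin (Zk (univ.erase δ) s) f b
  · intro a c hac
    rw [h0, h0] at hac
    have h1 : Zk (univ.erase δ) s a.1 = Zk (univ.erase δ) s c.1 := congrArg Prod.fst hac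
    have h2 : some a.2 = some c.2 := congrArg Prod.snd hac
    exact Prod.ext h1 (Option.some.inj h2)
  · intro a c hac
    rw [h0, h0]
    have hac' : (Zk (univ.erase δ) s a.1, a.2) = (Zk (univ.erase δ) s c.1, c.2) := hac
    rw [Prod.mk.injEq] at hac'
    exact Prod.ext hac'.1 (congrArg some hac'.2)

theorem scales {N h h' D t : ℕ} (hh : h ≤ h') (hD : h' + 4 ≤ D) : Mod.ex N (t + 1) - (h' + 3) ≤ Mod.ex N t - (h + 3) ∧
    Mod.ex N t - (Mod.ex N (t + 1) - (h' + 3)) ≤ D ∧ Mod.ex N (t + 1) - (h' + 3) ≤ Mod.ex N (t + 1) - (h + 3) ∧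
    Mod.ex N (t + 1) - (Mod.ex N (t + 1) - (h' + 3)) ≤ D := by
  unfold Mod.ex
  omega

/-- COLD SETS, coin averaged -/
theorem ColdX.toB {s : V k} {h h' : ℕ} {R : Θ → Ξ → ι → Fam k ι Q} {δ : ι} {U : Finset ι} (hU : U ≠ univ.erase δ)
    {D : ℕ} {r σ e : ℝ} {H : ℕ → Sq k N ι Θ Q → Ξ → Prop}
    (C : ColdX s N h R (fun _ => (Fintype.card Ξ : ℝ)⁻¹) U D r σ e H) (hh : h ≤ h') (hD : h' + 4 ≤ D) :
    ColdB (FP.unif (Sq k N ι Θ Q × Ξ)) N (T0X s h R) (fun t => YX δ U (Mod.ex N (t + 1) - (h' + 3))) r σ e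
      (fun t b => H t b.1 b.2) where
  inc t b := C.inc t b.1 b.2
  mass := by
    unfold FP.Pr
    rw [E_coin]
    exact C.mass
  cold t h1 ht b := by
    rw [ce_YX_ne hU]
    obtain ⟨a1, a2, -, -⟩ := scales (N := N) (t := t) hh hD
    exact C.cold t h1 ht.le _ a1 a2 b.1
  cold' t ht b := by
    rw [ce_YX_ne hU]
    obtain ⟨-, -, a3, a4⟩ := scales (N := N) (t := t) hh hD
    exact C.cold (t + 1) (by omega) ht _ a3 a4 b.1

/-- COLD SETS, every coin -/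
theorem ColdX.toB_fix {s : V k} {h h' : ℕ} {R : Θ → Ξ → ι → Fam k ι Q} {δ : ι}
    {D : ℕ} {r σ e : ℝ} {H : ℕ → Sq k N ι Θ Q → Ξ → Prop}
    (C : ∀ ξ, ColdX s N h (fun θ (_ : Unit) => R θ ξ) (fun _ => 1) (univ.erase δ) D r σ e (fun t w _ => H t w ξ))
    (hh : h ≤ h') (hD : h' + 4 ≤ D) :
    ColdB (FP.unif (Sq k N ι Θ Q × Ξ)) N (T0X s h R) (fun t => YX δ (univ.erase δ) (Mod.ex N (t + 1) - (h' + 3))) r σ e
      (fun t b => H t b.1 b.2) := by
  have hc : (Fintype.card Ξ : ℝ) ≠ 0 := Nat.cast_ne_zero.mpr Fintype.card_ne_zero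
  have w0 : ∀ ξ : Ξ, 0 ≤ (fun _ : Ξ => (Fintype.card Ξ : ℝ)⁻¹) ξ := fun ξ => by positivity
  have w1 : ∑ ξ : Ξ, (fun _ : Ξ => (Fintype.card Ξ : ℝ)⁻¹) ξ = 1 := by
    rw [Finset.sum_const, Finset.card_univ, nsmul_eq_mul, mul_inv_cancel₀ hc]
  have C' := ColdX.of_fix w0 w1 C
  refine ⟨fun t b => C'.inc t b.1 b.2, ?_, fun t h1 ht b => ?_, fun t ht b => ?_⟩
  · unfold FP.Pr
    rw [E_coin]
    exact C'.mass
  · rw [ce_YX_eq]
    obtain ⟨a1, a2, -, -⟩ := scales (N := N) (t := t) hh hD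
    have h5 := (C b.2).cold t h1 ht.le _ a1 a2 b.1
    rw [show (fun v : Sq k N ι Θ Q => ∑ ξ : Unit, (fun _ : Unit => (1 : ℝ)) ξ * ind (r ≤ |TT s h ((fun θ (_ : Unit) => R θ b.2) (th v) ξ)
      (Mod.ex N t) v| ∧ ¬ H t v b.2)) = fun v => ind (r ≤ |TT s h (R (th v) b.2) (Mod.ex N t) v| ∧ ¬ H t v b.2) from
      funext fun v => by simp] at h5
    exact h5
  · rw [ce_YX_eq]
    obtain ⟨-, -, a3, a4⟩ := scales (N := N) (t := t) hh hD
    have h5 := (C b.2).cold (t + 1) (by omega) ht _ a3 a4 b.1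
    rw [show (fun v : Sq k N ι Θ Q => ∑ ξ : Unit, (fun _ : Unit => (1 : ℝ)) ξ * ind (r ≤ |TT s h ((fun θ (_ : Unit) => R θ b.2) (th v) ξ)
      (Mod.ex N (t + 1)) v| ∧ ¬ H (t + 1) v b.2)) =
      fun v => ind (r ≤ |TT s h (R (th v) b.2) (Mod.ex N (t + 1)) v| ∧ ¬ H (t + 1) v b.2) from
      funext fun v => by simp] at h5
    exact h5

/-- the natural class of the view `a` on the base -/
def KX (a : ι) (e : ℕ) (b : Sq k N ι Θ Q × Ξ) : Θ × (V k × ℕ) × ({j : ι // j ≠ a} → Q × V k) := Kn a e b.1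

/-- the natural class has been hot -/
def HotN (a : ι) (T0 : ℕ → Sq k N ι Θ Q × Ξ → ℝ) (r ρ : ℝ) (t : ℕ) (b : Sq k N ι Θ Q × Ξ) : Prop :=
  ∃ u ≤ N, u ≤ t ∧ 1 ≤ u ∧ ρ < (FP.unif (Sq k N ι Θ Q × Ξ)).ce (KX a (Mod.ex N u)) (fun v => ind (r ≤ |T0 u v|)) b

theorem HotN.fac (a : ι) (T0 : ℕ → Sq k N ι Θ Q × Ξ → ℝ) (r ρ : ℝ) (t : ℕ) {v w : Sq k N ι Θ Q × Ξ}
    (hv : KX a (Mod.ex N t) v = KX a (Mod.ex N t) w) : HotN a T0 r ρ t v ↔ HotN a T0 r ρ t w := by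
  unfold HotN
  refine exists_congr fun u => and_congr_right fun _ => and_congr_right fun hu => and_congr_right fun _ => ?_
  have h1 : KX a (Mod.ex N u) v = KX a (Mod.ex N u) w := (filt_Kn a).le hu v.1 w.1 hv
  rw [FP.ce_fac _ (KX a (Mod.ex N u)) _ v w h1]

/-- **the known class from its natural form** -/
theorem coldB_Kn (a : ι) {T0 : ℕ → Sq k N ι Θ Q × Ξ → ℝ} {r ρ ph : ℝ} (hρ : 0 ≤ ρ)
    (H : (FP.unif (Sq k N ι Θ Q × Ξ)).Pr (fun b => ∃ t ≤ N, 1 ≤ t ∧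
      ρ < (FP.unif (Sq k N ι Θ Q × Ξ)).ce (KX a (Mod.ex N t)) (fun v => ind (r ≤ |T0 t v|)) b) ≤ ph) :
    ColdB (FP.unif (Sq k N ι Θ Q × Ξ)) N T0 (fun t => KX a (Mod.ex N (t + 1))) r (2 * ρ) ph (HotN a T0 r ρ) := by
  have hk : ∀ t, 1 ≤ t → t ≤ N → ∀ b : Sq k N ι Θ Q × Ξ, (FP.unif (Sq k N ι Θ Q × Ξ)).ce (KX a (Mod.ex N t))
      (fun v => ind (r ≤ |T0 t v| ∧ ¬ HotN a T0 r ρ t v)) b ≤ ρ := by
    intro t h1 ht b
    refine FP.cold_of_hot _ (K := KX a (Mod.ex N t)) (S := fun v => r ≤ |T0 t v|) (Hh := HotN a T0 r ρ t)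
      (Dead := HotN a T0 r ρ t) hρ (fun v u hv => HotN.fac a T0 r ρ t hv) ?_ (fun _ _ h => h) (FP.unif_ne _ b)
    intro v _ hv
    by_contra hcon
    exact hv ⟨t, ht, le_rfl, h1, not_le.mp hcon⟩
  refine ⟨fun t b => ?_, ?_, fun t h1 ht b => ?_, fun t ht b => ?_⟩
  · rintro ⟨u, h1, h2, h3, h4⟩
    exact ⟨u, h1, h2.trans (Nat.le_succ t), h3, h4⟩
  · refine le_trans (FP.Pr_mono _ fun b _ => ?_) H
    rintro ⟨u, h1, _, h3, h4⟩
    exact ⟨u, h1, h3, h4⟩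
  · have h2 := hk t h1 ht.le b
    have h3 := ce_fst (Xd := Ξ) (Kn (k := k) (N := N) (Θ := Θ) (P := Q) a (Mod.ex N (t + 1)))
      (fun v => ind (r ≤ |T0 t v| ∧ ¬ HotN a T0 r ρ t v)) b
    have h4 := ce_fst (Xd := Ξ) (Kn (k := k) (N := N) (Θ := Θ) (P := Q) a (Mod.ex N t))
      (fun v => ind (r ≤ |T0 t v| ∧ ¬ HotN a T0 r ρ t v)) b
    have h5 := ce_Kn_dbl (Θ := Θ) (P := Q) (N := N) (k := k) a t
      (f := fun v => ∑ ξ : Ξ, (Fintype.card Ξ : ℝ)⁻¹ * ind (r ≤ |T0 t (v, ξ)| ∧ ¬ HotN a T0 r ρ t (v, ξ)))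
      (fun _ => Finset.sum_nonneg fun ξ _ => mul_nonneg (by positivity) (ind_nonneg _)) b.1
    unfold KX at h2 ⊢
    rw [h3]
    rw [h4] at h2
    exact h5.trans (mul_le_mul_of_nonneg_left h2 (by norm_num))
  · exact (hk (t + 1) (by omega) ht b).trans (by linarith)

end base

end

end Pool.Agent.GM
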