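import Pool.Agent.GM.Geo
import Pool.Agent.GM.Rar
import Pool.Agent.M3.S2.PubM
import Pool.Agent.M3.RdO

/-!
# GM/Pub: the public node of a view, every finite set `ι` of vertices: two options, option counts, helper7

`S.OPT Q t w` = the nodes `gm t w'` realised in the class of the public node `Q t w`.  `Pubn S a Q` = the properties of the
public node of the view of the hidden vertex `a` (port of `M3/S2/Opt.Pubn` of helper52):
* `two` at most two options; `opt` the probability that `g` is an option, given the coins and the vertices of any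
  `I ≠ univ`, is at most twice the probability of `g`; `comb` the hidden vertex can be replaced by any other one of the
  class; `qc` the cells of the known vertices are public;
* `E_opt` : a sum over the options costs a factor `2`;
* **`pubM`** : the instance in the model: `S = binSys Θ Ξ Q σ a hN h`, public node `Qn a h' (ex N t)` with FINER cells:
  `h ≤ h'` and `card ι ≤ 2 ^ (h' - h + 2) + 1`.
-/

set_option autoImplicit false
set_option linter.unusedSectionVars false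

namespace Pool.Agent.GM

open Finset Pool.Agent.PWZ Pool.Agent.M3 Pool.Agent.M3.Bin Pool.Agent.M3.TS
open Pool.Agent.M3.Mod (ex nd exk count_shift indep_Pr ex_top ex_succ)

/-! ### abstract -/

section abs

variable {ι Om Ξ Pt V Γ κ : Type} [Fintype ι] [DecidableEq ι] [Fintype Om] [Fintype Ξ] [Fintype Pt]
  [Fintype V] {υ : ℕ → Type}

open Classical in
/-- the nodes realised in the class of the public node -/
noncomputable def Sys.OPT (S : Sys ι Om Ξ Pt V Γ κ) (Q : ∀ t, Om → υ t) (t : ℕ) (w : Om) : Finset Γ :=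
  ((univ : Finset Om).filter (fun w' => Q t w' = Q t w)).image (S.gm t)

variable {S : Sys ι Om Ξ Pt V Γ κ} {Q : ∀ t, Om → υ t} {a : ι}

theorem Sys.mem_OPT {t : ℕ} {w : Om} {g : Γ} : g ∈ S.OPT Q t w ↔ ∃ w', Q t w' = Q t w ∧ S.gm t w' = g := by
  classical
  unfold Sys.OPT
  rw [Finset.mem_image]
  constructor
  · rintro ⟨w', h1, h2⟩
    exact ⟨w', (Finset.mem_filter.1 h1).2, h2⟩
  · rintro ⟨w', h1, h2⟩
    exact ⟨w', Finset.mem_filter.2 ⟨Finset.mem_univ _, h1⟩, h2⟩

/-- the same set as in `M3/RdO` -/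
theorem Sys.OPT_eq (t : ℕ) (w : Om) : M3.OPT Q S.gm t w = S.OPT Q t w := by
  ext g
  rw [M3.mem_OPT, Sys.mem_OPT]

/-- the public node of the view of `a` -/
structure Pubn (S : Sys ι Om Ξ Pt V Γ κ) (a : ι) (Q : ∀ t, Om → υ t) : Prop where
  filt : Filt Q
  /-- the cells of the known vertices are public -/
  qc : ∀ t j, j ≠ a → Fac (Q t) (fun w => S.cl t (S.x w j))
  /-- the hidden vertex and the option can be combined -/
  comb : ∀ t w w', Q t w' = Q t w → ∃ v, Q t v = Q t w ∧ S.xi v = S.xi w' ∧ S.x v a = S.x w' a ∧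
    (∀ j, j ≠ a → S.x v j = S.x w j) ∧ S.gm t v = S.gm t w
  /-- at most two options -/
  two : ∀ t w, (S.OPT Q t w).card ≤ 2
  /-- the option counts -/
  opt : ∀ t g (I : Finset ι), I ≠ univ → ∀ (ξ : Ξ) (y : ι → Pt),
    S.P.Pr (fun w => (S.xi w = ξ ∧ ∀ j ∈ I, S.x w j = y j) ∧ g ∈ S.OPT Q t w) ≤
      2 * S.P.Pr (fun w => (S.xi w = ξ ∧ ∀ j ∈ I, S.x w j = y j) ∧ S.gm t w = g)

namespace Pubn

theorem opt_fac {t : ℕ} {v w : Om} (h : Q t v = Q t w) : S.OPT Q t v = S.OPT Q t w := by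
  ext g
  rw [Sys.mem_OPT, Sys.mem_OPT, h]

theorem gm_mem (t : ℕ) (w : Om) : S.gm t w ∈ S.OPT Q t w := Sys.mem_OPT.2 ⟨w, rfl, rfl⟩

theorem filt_le (hQ : Filt Q) {j t : ℕ} (h : j ≤ t) {v w : Om} (hvw : Q t v = Q t w) : Q j v = Q j w := by
  induction t with
  | zero =>
    have : j = 0 := by omega
    subst this
    exact hvw
  | succ t ih =>
    rcases Nat.lt_or_ge t j with h1 | h1
    · have : j = t + 1 := by omega
      subst this
      exact hvw
    · exact ih h1 (hQ t v w hvw)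

theorem opt_anc (hQ : Filt Q) {j t : ℕ} (h : j ≤ t) {w : Om} {g : Γ} (hg : g ∈ S.OPT Q t w) :
    S2.anc S.par t g j ∈ S.OPT Q j w := by
  obtain ⟨w', h1, h2⟩ := Sys.mem_OPT.1 hg
  refine Sys.mem_OPT.2 ⟨w', filt_le hQ h h1, ?_⟩
  rw [← h2, S.anc_gm h]

/-- a sum over the options costs a factor two: functions of the coins and of the vertices of `I ≠ univ` -/
theorem E_opt (hP : Pubn S a Q) {I : Finset ι} (hI : I ≠ univ) (t : ℕ) (φ : Ξ → (ι → Pt) → Γ → ℝ)
    (hd : ∀ ξ g, Dep I (fun x => φ ξ x g)) (hφ : ∀ ξ x g, 0 ≤ φ ξ x g) :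
    S.P.E (fun w => ∑ g ∈ S.OPT Q t w, φ (S.xi w) (S.x w) g) ≤
      2 * S.P.E (fun w => φ (S.xi w) (S.x w) (S.gm t w)) := by
  classical
  obtain ⟨w0⟩ := S.nonempty_Om
  have hN : ∀ _ : ι, Nonempty Pt := fun i => ⟨S.x w0 i⟩
  set ext : ({i // i ∈ I} → Pt) → ι → Pt := fun y i => if h : i ∈ I then y ⟨i, h⟩ else S.x w0 i with hext
  have hres : ∀ (ξ : Ξ) (x : ι → Pt) (g : Γ), φ ξ x g = φ ξ (ext (res I x)) g := by
    intro ξ x g
    refine hd ξ g x _ fun i hi => ?_
    rw [hext]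
    simp only [dif_pos hi]
    rfl
  have h1 := S2.count_E (K := 2) S.P (fun w => (S.xi w, res I (S.x w))) (S.gm t) (S.OPT Q t) (fun y g => by
    have h2 := hP.opt t g I hI y.1 (ext y.2)
    have h3 : ∀ w, ((S.xi w, res I (S.x w)) = y) ↔ (S.xi w = y.1 ∧ ∀ j ∈ I, S.x w j = ext y.2 j) := by
      intro w
      rw [Prod.ext_iff]
      refine and_congr_right fun _ => ?_
      constructor
      · intro h j hj
        rw [hext]
        simp only [dif_pos hj]
        exact congrFun h ⟨j, hj⟩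
      · intro h
        funext j
        have h4 := h j.1 j.2
        rw [hext] at h4
        simp only [dif_pos j.2] at h4
        exact h4
    refine le_trans (le_of_eq (S.P.Pr_congr fun w _ => ?_)) (h2.trans (le_of_eq ?_))
    · rw [h3]
    · congr 1
      refine S.P.Pr_congr fun w _ => ?_
      rw [h3]) (fun y g => φ y.1 (ext y.2) g) (fun y g => hφ _ _ _)
  simp only [← hres] at h1
  exact h1

end Pubn

end abs

/-! ### the model -/

section model

variable {k N : ℕ} {ι : Type} [Fintype ι] [DecidableEq ι]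

/-- a sum of vertices known up to small cells, exact bound -/
theorem sum_flr_pub (s : ℕ) (I : Finset ι) (x y : ι → V k) (h : ∀ l ∈ I, flr s (y l) = flr s (x l)) :
    ∃ r ≤ I.card * (2 ^ s - 1), ∑ l ∈ I, y l = ∑ l ∈ I, flr s (x l) + (r : V k) := by
  classical
  induction I using Finset.induction_on with
  | empty => exact ⟨0, by simp, by simp⟩
  | insert a I ha ih =>
    obtain ⟨r, hr, h1⟩ := ih fun l hl => h l (Finset.mem_insert_of_mem hl)
    obtain ⟨o, ho, hv⟩ := flr_add_rem s (y a)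
    rw [h a (Finset.mem_insert_self a I)] at hv
    refine ⟨o + r, ?_, ?_⟩
    · rw [Finset.card_insert_of_notMem ha, add_mul, one_mul]
      omega
    · rw [Finset.sum_insert ha, Finset.sum_insert ha, h1, Nat.cast_add]
      conv_lhs => rw [hv]
      ring

/-- the largest shift of the position in the class of the public node -/
def shN (n h' e : ℕ) : ℕ := n * (2 ^ (e - (h' + 3)) - 1)

theorem shN_le {n h h' : ℕ} (hh : h ≤ h') (hn : n ≤ 2 ^ (h' - h + 2)) (e : ℕ) : 2 * shN n h' e ≤ 2 ^ (e - h) := by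
  unfold shN
  rcases Nat.eq_zero_or_pos (e - (h' + 3)) with h0 | h0
  · rw [h0]
    simp
  · have h1 : e - h = (e - (h' + 3)) + (h' - h + 2) + 1 := by omega
    rw [h1, pow_succ, pow_add]
    calc 2 * (n * (2 ^ (e - (h' + 3)) - 1)) ≤ 2 * (2 ^ (h' - h + 2) * 2 ^ (e - (h' + 3))) :=
          Nat.mul_le_mul_left _ (Nat.mul_le_mul hn (Nat.sub_le _ _))
      _ = 2 ^ (e - (h' + 3)) * 2 ^ (h' - h + 2) * 2 := by ring

/-- the rounded node is `g` after a small shift of the position -/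
def nearD (D h e : ℕ) (g : V k × ℕ) (z : V k) (w : ℕ) : Prop :=
  w / 2 ^ e = g.2 ∧ ∃ d ≤ 2 * D, flr (e - h) (Bin.pos e z w - ((D : ℕ) : V k) + ((d : ℕ) : V k)) = g.1

variable {Θ Ξ Q : Type} [Fintype Θ] [Nonempty Θ] [Fintype Ξ] [Nonempty Ξ] [Fintype Q] [Nonempty Q] (σ : V k)

/-- given everything but the position of one vertex -/
theorem near_le {D h e : ℕ} (hD : 2 * D ≤ 2 ^ (e - h)) (he : e ≤ k) (y : ι) (g : Θ × (V k × ℕ))
    (s : Sq k N ι Θ (Ξ × Q) → Prop)
    (hs : ∀ v w : Sq k N ι Θ (Ξ × Q), (th v, (vx y v).1, ot y v) = (th w, (vx y w).1, ot y w) → (s v ↔ s w)) :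
    (PM k N ι Θ Ξ Q).Pr (fun ω => s ω ∧ th ω = g.1 ∧ nearD D h e g.2 (ctr σ ω) (nz ω)) ≤
      2 * (PM k N ι Θ Ξ Q).Pr (fun ω => s ω ∧ gv σ h e ω = g) := by
  have hs' : ∀ v w : Sq k N ι Θ (Ξ × Q), (th v, (vx y v).1, ot y v) = (th w, (vx y w).1, ot y w) →
      ((s v ∧ th v = g.1) ↔ (s w ∧ th w = g.1)) := by
    intro v w hvw
    have h1 := hs v w hvw
    simp only [Prod.mk.injEq] at hvw
    rw [h1, hvw.1]
  have h1 : (PM k N ι Θ Ξ Q).Pr (fun ω => s ω ∧ th ω = g.1 ∧ nearD D h e g.2 (ctr σ ω) (nz ω)) =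
      (PM k N ι Θ Ξ Q).Pr (fun ω => s ω ∧ th ω = g.1) *
        (PM k N ι Θ Ξ Q).Pr (fun ω => nearD D h e g.2 (ctr σ ω) (nz ω)) := by
    rw [← indep_Pr (indep_face σ y) (s := fun ω => s ω ∧ th ω = g.1)
      (t := fun ω => nearD D h e g.2 (ctr σ ω) (nz ω)) hs' (fun v w hvw => by
        simp only [Prod.mk.injEq] at hvw
        rw [hvw.1, hvw.2])]
    exact FP.Pr_congr _ fun ω _ => (and_assoc).symm
  have h2 : (PM k N ι Θ Ξ Q).Pr (fun ω => s ω ∧ gv σ h e ω = g) =
      (PM k N ι Θ Ξ Q).Pr (fun ω => s ω ∧ th ω = g.1) *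
        (PM k N ι Θ Ξ Q).Pr (fun ω => G h e (ctr σ ω) (nz ω) = g.2) := by
    rw [← indep_Pr (indep_face σ y) (s := fun ω => s ω ∧ th ω = g.1)
      (t := fun ω => G h e (ctr σ ω) (nz ω) = g.2) hs' (fun v w hvw => by
        simp only [Prod.mk.injEq] at hvw
        rw [hvw.1, hvw.2])]
    refine FP.Pr_congr _ fun ω _ => ⟨fun h3 => ⟨⟨h3.1, congrArg Prod.fst h3.2⟩, congrArg Prod.snd h3.2⟩,
      fun h3 => ⟨h3.1.1, Prod.ext h3.1.2 h3.2⟩⟩
  have h3 : (PM k N ι Θ Ξ Q).Pr (fun ω => nearD D h e g.2 (ctr σ ω) (nz ω)) ≤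
      2 * (PM k N ι Θ Ξ Q).Pr (fun ω => G h e (ctr σ ω) (nz ω) = g.2) := by
    have h4 : (PM k N ι Θ Ξ Q).Pr (fun ω => nearD D h e g.2 (ctr σ ω) (nz ω)) = _ :=
      E_cnm σ (k := k) (N := N) (Θ := Θ) y (P := Ξ × Q) (fun z w => ind (nearD D h e g.2 z w))
    have h5 : (PM k N ι Θ Ξ Q).Pr (fun ω => G h e (ctr σ ω) (nz ω) = g.2) = _ :=
      E_cnm σ (k := k) (N := N) (Θ := Θ) y (P := Ξ × Q) (fun z w => ind (G h e z w = g.2))
    rw [h4, h5, mul_left_comm]
    refine mul_le_mul_of_nonneg_left ?_ (by positivity)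
    rw [Finset.sum_comm, Finset.sum_comm (s := (univ : Finset (V k))), Finset.mul_sum]
    refine Finset.sum_le_sum fun w _ => ?_
    by_cases hhi : w / 2 ^ e = g.2.2
    · have h6 : ∀ z : V k, ind (nearD D h e g.2 z w) = ind (∃ d ≤ 2 * D,
          flr (e - h) (z + ((w % 2 ^ e : ℕ) : V k) - ((D : ℕ) : V k) + ((d : ℕ) : V k)) = g.2.1) := by
        intro z
        congr 1
        refine propext ⟨fun h7 => h7.2, fun h7 => ⟨hhi, h7⟩⟩
      have h7 : ∀ z : V k, ind (G h e z w = g.2) = ind (flr (e - h) (z + ((w % 2 ^ e : ℕ) : V k)) = g.2.1) := by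
        intro z
        congr 1
        refine propext ⟨fun h8 => congrArg Prod.fst h8, fun h8 => Prod.ext h8 hhi⟩
      rw [Finset.sum_congr rfl fun z _ => h6 z, Finset.sum_congr rfl fun z _ => h7 z]
      exact count_shift (by omega) D hD g.2.1 _
    · have h6 : ∀ z : V k, ind (nearD D h e g.2 z w) = 0 := fun z => ind_not fun h7 => hhi h7.1
      rw [Finset.sum_congr rfl fun z _ => h6 z, Finset.sum_const_zero]
      exact mul_nonneg (by norm_num) (Finset.sum_nonneg fun _ _ => ind_nonneg _)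
  rw [h1, h2]
  calc _ ≤ (PM k N ι Θ Ξ Q).Pr (fun ω => s ω ∧ th ω = g.1) *
        (2 * (PM k N ι Θ Ξ Q).Pr (fun ω => G h e (ctr σ ω) (nz ω) = g.2)) :=
        mul_le_mul_of_nonneg_left h3 (FP.Pr_nonneg _ _)
    _ = _ := by ring

/-- the position in the class of the public node -/
theorem Yn_of_Qn {P : Type} {a : ι} {h' e : ℕ} {v w : Sq k N ι Θ P} (hvw : Qn a h' e v = Qn a h' e w) :
    ∃ r ≤ shN (Fintype.card ι - 1) h' e, Yn σ e v =
      ((Zn a e w).1 + (∑ l ∈ univ.erase a, flr (e - (h' + 3)) (vx l w).2 + σ) + (r : V k), (Zn a e w).2) := by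
  unfold Qn at hvw
  simp only [Prod.mk.injEq] at hvw
  obtain ⟨_, h2, h3⟩ := hvw
  obtain ⟨r, hr, h1⟩ := sum_flr_pub (e - (h' + 3)) (univ.erase a) (fun l => (vx l w).2) (fun l => (vx l v).2)
    (fun l hl => congrFun h3 ⟨l, Finset.ne_of_mem_erase hl⟩)
  rw [Finset.card_erase_of_mem (mem_univ a), Finset.card_univ] at hr
  refine ⟨r, hr, ?_⟩
  rw [Yn_eq σ a, h2]
  unfold co
  rw [h1]
  refine Prod.ext ?_ rfl
  simp only
  ring

/-- the nodes realised in the class of the public node are near the node -/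
theorem near_of_Qn {a : ι} {h h' e : ℕ} {v w : Sq k N ι Θ (Ξ × Q)} (hvw : Qn a h' e v = Qn a h' e w) :
    th v = th w ∧ nearD (shN (Fintype.card ι - 1) h' e) h e (Gm σ h e v) (ctr σ w) (nz w) := by
  obtain ⟨r1, hr1, hYv⟩ := Yn_of_Qn σ hvw
  obtain ⟨r2, hr2, hYw⟩ := Yn_of_Qn σ (rfl : Qn a h' e w = Qn a h' e w)
  set D := shN (Fintype.card ι - 1) h' e with hD
  have hth : th v = th w := by
    unfold Qn at hvw
    exact (Prod.mk.inj hvw).1
  refine ⟨hth, ?_, r1 + (D - r2), by omega, ?_⟩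
  · have h4 : nz w / 2 ^ e = (Yn σ e w).2 := rfl
    have h5 : (Gm σ h e v).2 = (Yn σ e v).2 := rfl
    rw [h4, h5, hYv, hYw]
  · have h6 : Bin.pos e (ctr σ w) (nz w) = (Yn σ e w).1 := rfl
    have h7 : (Gm σ h e v).1 = flr (e - h) (Yn σ e v).1 := rfl
    rw [h6, h7, hYv, hYw]
    congr 1
    have h8 : ((r1 + (D - r2) : ℕ) : V k) + (r2 : V k) = (r1 : V k) + (D : V k) := by
      rw [← Nat.cast_add, ← Nat.cast_add]
      congr 1
      omega
    simp only
    linear_combination h8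

/-- at most two options -/
theorem two_opts {P : Type} {a : ι} {h h' e : ℕ} (hh : h ≤ h') (hc : Fintype.card ι ≤ 2 ^ (h' - h + 2) + 1) (he : e ≤ k)
    {v w : Sq k N ι Θ P} (hvw : Qn a h' e v = Qn a h' e w) :
    ∃ q ≤ 1, Gm σ h e v = (flr (e - h) ((Zn a e w).1 + (∑ l ∈ univ.erase a, flr (e - (h' + 3)) (vx l w).2 + σ)) +
      ((q * 2 ^ (e - h) : ℕ) : V k), (Zn a e w).2) := by
  obtain ⟨r, hr, hYv⟩ := Yn_of_Qn σ hvw
  have h1 := shN_le hh (n := Fintype.card ι - 1) (Nat.sub_le_iff_le_add.2 hc) e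
  obtain ⟨q, hq, h3⟩ := flr_add_q (s := e - h) (n := 1) (r := r) (by omega)
    ((Zn a e w).1 + (∑ l ∈ univ.erase a, flr (e - (h' + 3)) (vx l w).2 + σ)) (by omega)
  refine ⟨q, hq, ?_⟩
  show (flr (e - h) (Yn σ e v).1, (Yn σ e v).2) = _
  rw [hYv]
  exact Prod.ext h3 rfl

/-- **the public node of the view of `a`**, finer cells -/
theorem pubM (a : ι) (hN : N ≤ k) {h h' : ℕ} (hh : h ≤ h') (hc : Fintype.card ι ≤ 2 ^ (h' - h + 2) + 1) :
    Pubn (binSys Θ Ξ Q σ a hN h) a (fun t (ω : Sq k N ι Θ (Ξ × Q)) => Qn a h' (ex N t) ω) where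
  filt := filt_Qn a h'
  qc t j hj v w hvw := by
    have h1 : Qn a h' (ex N t) v = Qn a h' (ex N t) w := hvw
    unfold Qn at h1
    simp only [Prod.mk.injEq] at h1
    have h2 : flr (ex N t - (h' + 3)) (vx j v).2 = flr (ex N t - (h' + 3)) (vx j w).2 := congrFun h1.2.2 ⟨j, hj⟩
    exact flr_mono_eq (by omega) h2
  comb t w w' hw := by
    have h1 : Qn a h' (ex N t) w' = Qn a h' (ex N t) w := hw
    unfold Qn at h1
    simp only [Prod.mk.injEq] at h1
    obtain ⟨_, h3, _⟩ := h1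
    set v : Sq k N ι Θ (Ξ × Q) := (w.1, (fun y => if y = a then w'.2.1 y else w.2.1 y), w'.2.2) with hv
    have hvi : vx a v = vx a w' := by
      show (if a = a then w'.2.1 a else w.2.1 a) = _
      rw [if_pos rfl]
      rfl
    have hvo : ∀ y, y ≠ a → vx y v = vx y w := by
      intro y hy
      show (if y = a then w'.2.1 y else w.2.1 y) = _
      rw [if_neg hy]
      rfl
    have hnz : nz v = nz w' := rfl
    have hZ : Zn a (ex N t) v = Zn a (ex N t) w := by
      rw [← h3]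
      unfold Zn
      rw [hvi, hnz]
    have hQ : Qn a h' (ex N t) v = Qn a h' (ex N t) w := by
      unfold Qn
      rw [hZ]
      refine Prod.ext rfl (Prod.ext rfl ?_)
      funext y
      show sc h' (ex N t) y.1 v = sc h' (ex N t) y.1 w
      unfold sc
      rw [hvo y.1 y.2]
    refine ⟨v, hQ, ?_, ?_, fun y hy => ?_, ?_⟩
    · show xm a v = xm a w'
      unfold xm
      rw [hvi]
    · show vm v a = vm w' a
      unfold vm
      rw [hvi]
    · show vm v y = vm w y
      unfold vm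
      rw [hvo y hy]
    · show gv σ h (ex N t) v = gv σ h (ex N t) w
      have hY : Yn σ (ex N t) v = Yn σ (ex N t) w := by
        refine fac_Yn σ a (ex N t) v w ?_
        refine Prod.ext hZ (funext fun y => ?_)
        exact hvo y.1 y.2
      refine Prod.ext rfl ?_
      exact fac_Yn_Gm σ h (ex N t) v w hY
  two t w := by
    classical
    set c := flr (ex N t - h) ((Zn a (ex N t) w).1 + (∑ l ∈ univ.erase a, flr (ex N t - (h' + 3)) (vx l w).2 + σ)) with hc'
    refine le_trans (Finset.card_le_card (t := (range 2).image (fun q =>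
      (th w, (c + ((q * 2 ^ (ex N t - h) : ℕ) : V k), (Zn a (ex N t) w).2)))) ?_)
      (Finset.card_image_le.trans (le_of_eq (Finset.card_range 2)))
    intro g hgm
    obtain ⟨v, h1, h2⟩ := Sys.mem_OPT.1 hgm
    have h2' : gv σ h (ex N t) v = g := h2
    have h1' : Qn a h' (ex N t) v = Qn a h' (ex N t) w := h1
    obtain ⟨q, hq, h3⟩ := two_opts σ hh hc (exk hN t) h1'
    refine Finset.mem_image.2 ⟨q, Finset.mem_range.2 (by omega), ?_⟩
    rw [← h2']
    have h4 : th v = th w := by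
      unfold Qn at h1'
      exact (Prod.mk.inj h1').1
    show (th w, _) = (th v, Gm σ h (ex N t) v)
    rw [h3, h4]
  opt t g I hI ξ y := by
    obtain ⟨z, hz⟩ : ∃ z, z ∉ I := by
      by_contra hcon
      push Not at hcon
      exact hI (eq_univ_iff_forall.2 hcon)
    have hD := shN_le hh (n := Fintype.card ι - 1) (Nat.sub_le_iff_le_add.2 hc) (ex N t)
    have h0 := near_le σ (Θ := Θ) (Ξ := Ξ) (Q := Q) (N := N) hD (exk hN t) z g
      (fun ω => xm a ω = ξ ∧ ∀ j ∈ I, vm ω j = y j) (fun v w hvw => by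
        simp only [Prod.mk.injEq] at hvw
        have h2 : ∀ j, j ≠ z → vx j v = vx j w := fun j hj => congrFun hvw.2.2 ⟨j, hj⟩
        have h3 : xm a v = xm a w := by
          unfold xm
          by_cases ha : a = z
          · rw [ha, hvw.2.1]
          · rw [h2 a ha]
        have h4 : ∀ j ∈ I, vm v j = vm w j := by
          intro j hj
          unfold vm
          rw [h2 j (fun hjz => hz (by rw [← hjz]; exact hj))]
        rw [h3]
        refine and_congr_right fun _ => forall_congr' fun j => forall_congr' fun hj => ?_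
        rw [h4 j hj])
    refine le_trans (FP.Pr_mono _ ?_) h0
    rintro ω _ ⟨h1, h2⟩
    obtain ⟨v, h3, h4⟩ := Sys.mem_OPT.1 h2
    have h4' : gv σ h (ex N t) v = g := h4
    obtain ⟨h5, h6⟩ := near_of_Qn σ (h := h) h3
    refine ⟨h1, ?_, ?_⟩
    · rw [← h5, ← h4']
      rfl
    · rw [← h4']
      exact h6

end model

end Pool.Agent.GM
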