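import Pool.Agent.GM.GPull
import Pool.Agent.M3.NVD
import Pool.Agent.M3.S3.NzH

/-!
# GM/PubN (helper55): published labels WITH NOISE, every number of labels (input of HARM)

Raw process `S : GRT Om' ..` on `Om'`, larger space `Om` with `pi : Om → Om'`, noise `ν l : Om → Fin (N+1) → Ns Rz (Bool → F)`
for every label `l`.
* `S.lp l : L1 Om' F` = the labelled pair of `l` (closings `cS l`, young `b l`);
* `nl` = published label `LF` (as in `M3/PubK`), `npc` = its component at the time `t`, `nbad` = the published label may be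
  wrong; `rdv` = reading of a plain label; `ppl` = PUBLISHED PLAIN LABEL; `nx` = published value; `nD` = errors;
* `nx_eq` : off the errors the published value is the recorded value; `pubL_N` : `GRT.PubL` for `S.pull P pi`;
* `npc_count`, `nl_entropy0`, `nl_entropy` : number of published components, created entropies.
-/

set_option autoImplicit false
set_option linter.unusedSectionVars false

namespace Pool.Agent.GM

open Finset Pool.Agent.PWZ Pool.Agent.M3

namespace GRT

noncomputable section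

variable {Om Om' : Type} [Fintype Om] [Fintype Om'] {κ : ℕ → Type} {α β ι L F E F' : Type} [Fintype ι]
  [DecidableEq ι]

/-- the labelled pair of the label `l` -/
def lp (S : GRT Om' κ α β ι L F E F') (l : L) : L1 Om' F where
  x := fun t w _ => S.f l t w
  xp := S.f l
  ix := fun _ _ => true
  cl := S.toGRD.cS l
  bb := fun t w => S.toGRD.b t l w

open Classical in
/-- reading of the plain label `l` at the time `t` when the extended label is `v` -/
def rdv [Inhabited F'] (S : GRT Om' κ α β ι L F E F') (l : L) (t : ℕ) (w : Om') (v : F) : F' :=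
  if H : ∃ w', S.f l t w' = v ∧ S.toGRD.Z t w' = S.toGRD.Z t w then S.fp l t H.choose else default

section defs

variable (S : GRT Om' κ α β ι L F E F') {N Rz : ℕ} (J n0 : ℕ) (pi : Om → Om')
  (ν : L → Om → Fin (N + 1) → Nz.Ns Rz (Bool → F))

/-- published label up to the time `t` -/
def nl (l : L) (t : ℕ) (w : Om) : Fin (N + 1) → Option (Bool → F) := ((S.lp l).pull pi).LF Rz J n0 (ν l) t w

/-- component published at the time `t` -/
def npc (l : L) (t : ℕ) (w : Om) : Option (Bool → F) := ((S.lp l).pull pi).pc Rz J n0 (ν l) t w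

/-- the published label may be wrong -/
def nbad (l : L) (t : ℕ) (w : Om) : Prop := ((S.lp l).pull pi).bad Rz J n0 (ν l) t w

open Classical in
/-- PUBLISHED PLAIN LABEL -/
def ppl [Inhabited F'] (l : L) : ℕ → Om → F'
  | 0, w => match S.npc J n0 pi ν l 0 w with
    | some v => S.rdv l 0 (pi w) (v true)
    | none => default
  | t + 1, w => match S.npc J n0 pi ν l (t + 1) w with
    | some v => S.rdv l (t + 1) (pi w) (v true)
    | none => ppl l t w

/-- published value -/
def nx [Inhabited F'] (t : ℕ) (w : Om) : E × (L → F') := (S.e t (pi w), fun l => S.ppl J n0 pi ν l t w)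

/-- errors -/
def nD (t : ℕ) (w : Om) : Prop := S.D0 t (pi w) ∨ ∃ l, S.nbad J n0 pi ν l t w

/-- a component is published at the time `t+1` -/
def nc (l : L) (t : ℕ) (w : Om) : Prop := S.npc J n0 pi ν l (t + 1) w ≠ none

end defs

variable {S : GRT Om' κ α β ι L F E F'} {N Rz J n0 : ℕ} {pi : Om → Om'}
  {ν : L → Om → Fin (N + 1) → Nz.Ns Rz (Bool → F)}

/-! ## reading -/

section rd

variable [Inhabited F']

theorem rdv_eq (H : S.HypT) (l : L) (t : ℕ) (w : Om') : S.rdv l t w (S.f l t w) = S.fp l t w := by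
  classical
  have h : ∃ w', S.f l t w' = S.f l t w ∧ S.toGRD.Z t w' = S.toGRD.Z t w := ⟨w, rfl, rfl⟩
  unfold rdv
  rw [dif_pos h]
  exact H.fpf l t _ _ (Prod.ext h.choose_spec.1 h.choose_spec.2)

theorem rdv_fac (l : L) (t : ℕ) (v : F) : Fac (S.toGRD.Z t) (fun w => S.rdv l t w v) := by
  classical
  intro w w' hw
  unfold rdv
  simp only [hw]

end rd

/-! ## the published label -/

theorem nbad_inc {l : L} {t : ℕ} {w : Om} (h : S.nbad J n0 pi ν l t w) : S.nbad J n0 pi ν l (t + 1) w :=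
  L1.bad_inc h

theorem nl_restrict (l : L) (t : ℕ) (w : Om) : rst t (S.nl J n0 pi ν l (t + 1) w) = S.nl J n0 pi ν l t w := by
  funext s
  unfold nl L1.LF rst Nz.lab
  by_cases h : s.val ≤ t
  · rw [if_pos h, if_pos h, if_pos (by omega)]
  · rw [if_neg h, if_neg h]

theorem nl_succ (l : L) (t : ℕ) : Fac (S.nl J n0 pi ν l (t + 1)) (S.nl J n0 pi ν l t) := by
  intro v w hv
  rw [← nl_restrict l t v, ← nl_restrict l t w, hv]

theorem npc_eq_nl {l : L} {t : ℕ} (hN : t < N + 1) (w : Om) :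
    S.npc J n0 pi ν l t w = S.nl J n0 pi ν l t w ⟨t, hN⟩ := L1.pc_LF le_rfl hN w

theorem npc_top {l : L} {t : ℕ} (hN : N < t) (w : Om) : S.npc J n0 pi ν l t w = none := L1.pc_top hN w

theorem npc_fac (l : L) (t : ℕ) : Fac (S.nl J n0 pi ν l t) (S.npc J n0 pi ν l t) := by
  intro v w hv
  rcases Nat.lt_or_ge N t with h | h
  · rw [npc_top h, npc_top h]
  · rw [npc_eq_nl (by omega), npc_eq_nl (by omega), hv]

/-- the occasions and the true components are functions of what the label may see -/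
theorem lp_oc (h : S.toGRD.Hyp) {l : L} {t s : ℕ} (hs : s ≤ t) {v w : Om'}
    (hv : S.toGRD.ZJ (S.S l) t v = S.toGRD.ZJ (S.S l) t w) : (S.lp l).oc s v ↔ (S.lp l).oc s w := by
  have h1 : Fac (S.toGRD.ZJ (S.S l) t) (S.toGRD.ZJ (S.S l) s) := by
    induction t, hs using Nat.le_induction with
    | base => exact Fac.refl _
    | succ t _ ih => exact Fac.trans (GRD.ZJ_filt h (S.S l) t) (ih ((GRD.ZJ_filt h (S.S l) t) v w hv))
  cases s with
  | zero => exact Iff.rfl
  | succ s => exact GRD.cS_iff (h1 v w hv)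

theorem AQ_le (h : S.toGRD.Hyp) (I : Finset ι) {s t : ℕ} (hs : s ≤ t) : Fac (S.toGRD.AQ I t) (S.toGRD.AQ I s) := by
  induction t, hs using Nat.le_induction with
  | base => exact Fac.refl _
  | succ t _ ih => exact Fac.trans (GRD.AQ_filt h I t) ih

theorem lp_tc (h : S.toGRD.Hyp) {l : L} {t s : ℕ} (hs : s ≤ t) {v w : Om'}
    (hv : S.toGRD.AQ (S.S l) t v = S.toGRD.AQ (S.S l) t w) : (S.lp l).tc s v = (S.lp l).tc s w := by
  classical
  have h1 := AQ_le h (S.S l) hs v w hv
  cases s with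
  | zero =>
    show some (fun _ => S.f l 0 v) = some (fun _ => S.f l 0 w)
    rw [h.ff l 0 v w h1]
  | succ s =>
    rw [L1.tc_succ, L1.tc_succ]
    have h2 : ((S.lp l).cl s v ∧ (S.lp l).bb s v) ↔ ((S.lp l).cl s w ∧ (S.lp l).bb s w) :=
      and_congr (GRD.cS_iff (GRD.AQ_fac_ZJ _ _ v w h1)) (GRD.b_iff h h1)
    have h3 : (S.lp l).x (s + 1) v = (S.lp l).x (s + 1) w := funext fun _ => h.ff l (s + 1) v w h1
    by_cases h4 : (S.lp l).cl s v ∧ (S.lp l).bb s v
    · rw [if_pos h4, if_pos (h2.1 h4), h3]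
    · rw [if_neg h4, if_neg (fun h5 => h4 (h2.2 h5))]

/-- the published label is a function of what the label may see and of the noise -/
theorem nl_fac (h : S.toGRD.Hyp) (l : L) (t : ℕ) :
    Fac (fun w => (S.toGRD.AQ (S.S l) t (pi w), ν l w)) (S.nl J n0 pi ν l t) := by
  intro v w hv
  obtain ⟨h1, h2⟩ := Prod.mk.inj hv
  unfold nl L1.LF
  rw [h2]
  funext s
  unfold Nz.lab
  by_cases hs : s.val ≤ t
  · rw [if_pos hs, if_pos hs]
    refine Nz.pub_congr (t := s.val) (fun r hr => ?_) (fun r hr => ?_) (fun _ _ => rfl) s.val le_rfl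
    · rw [L1.oc_pull, L1.oc_pull]
      exact lp_oc h (hr.trans hs) (GRD.AQ_fac_ZJ _ _ _ _ h1)
    · rw [L1.tc_pull, L1.tc_pull]
      exact lp_tc h (hr.trans hs) h1
  · rw [if_neg hs, if_neg hs]

/-! ## the published value -/

section val

variable [Inhabited F']

/-- off the errors the published plain label is the recorded one -/
theorem ppl_eq (H : S.HypT) (hp : ∀ w, S.P.p w ≠ 0) {l : L} {t : ℕ} {w : Om} (hd : ¬ S.D0 t (pi w))
    (hb : ¬ S.nbad J n0 pi ν l t w) : S.ppl J n0 pi ν l t w = S.rp l t (pi w) := by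
  classical
  induction t with
  | zero =>
    have h1 : S.npc J n0 pi ν l 0 w = some (fun _ => S.f l 0 (pi w)) := L1.pc_eq hb
    unfold ppl
    rw [h1]
    exact rdv_eq H l 0 (pi w)
  | succ t ih =>
    have hd' : ¬ S.D0 t (pi w) := fun h' => hd (H.D0i t (pi w) (hp _) h')
    have ih' := ih hd' (fun h' => hb (nbad_inc h'))
    have h1 : S.npc J n0 pi ν l (t + 1) w = ((S.lp l).pull pi).tc (t + 1) w := L1.pc_eq hb
    rw [L1.tc_pull, L1.tc_succ] at h1
    unfold ppl
    by_cases h2 : (S.lp l).cl t (pi w) ∧ (S.lp l).bb t (pi w)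
    · rw [if_pos h2] at h1
      rw [h1]
      show S.rdv l (t + 1) (pi w) (S.f l (t + 1) (pi w)) = S.rp l (t + 1) (pi w)
      rw [rdv_eq H, rp_succ_of h2.1]
    · rw [if_neg h2] at h1
      rw [h1]
      show S.ppl J n0 pi ν l t w = S.rp l (t + 1) (pi w)
      rw [ih']
      by_contra hne
      exact h2 (rp_ne H (hp _) hd (fun h => hne h.symm))

theorem nx_eq (H : S.HypT) (hp : ∀ w, S.P.p w ≠ 0) {t : ℕ} {w : Om} (hd : ¬ S.nD J n0 pi ν t w) :
    S.nx J n0 pi ν t w = S.vr t (pi w) := by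
  unfold nD at hd
  push Not at hd
  exact Prod.ext rfl (funext fun l => ppl_eq H hp hd.1 (hd.2 l))

theorem ppl_ne {l : L} {t : ℕ} {w : Om} (h : S.ppl J n0 pi ν l (t + 1) w ≠ S.ppl J n0 pi ν l t w) :
    S.nc J n0 pi ν l t w := by
  intro h1
  apply h
  rw [ppl, h1]

/-- measurability -/
theorem ppl_fac {κ' : ℕ → Type} {A : ∀ t, Om → κ' t} (hA : Filt A)
    (hZ : ∀ t, Fac (A t) (fun w => S.toGRD.Z t (pi w))) (l : L) (hl : ∀ t, Fac (A t) (S.nl J n0 pi ν l t)) (t : ℕ) :
    Fac (A t) (S.ppl J n0 pi ν l t) := by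
  have hp : ∀ t, Fac (A t) (S.npc J n0 pi ν l t) := fun t => (hl t).trans (npc_fac l t)
  induction t with
  | zero =>
    intro v w hv
    unfold ppl
    rw [hp 0 v w hv]
    cases S.npc J n0 pi ν l 0 w with
    | none => rfl
    | some u => exact rdv_fac l 0 (u true) _ _ (hZ 0 v w hv)
  | succ t ih =>
    intro v w hv
    rw [ppl, ppl, hp (t + 1) v w hv, ih v w (hA t v w hv)]
    cases S.npc J n0 pi ν l (t + 1) w with
    | none => rfl
    | some u => exact rdv_fac l (t + 1) (u true) _ _ (hZ (t + 1) v w hv)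

/-- **published labels with noise** -/
theorem pubL_N {P : FP Om} (hP : Pul P S.P pi) (H : S.HypT) (hp : ∀ w, S.P.p w ≠ 0) {ζ : L → ℕ → Type} {AL : ∀ l t, Om → ζ l t}
    (hAL : ∀ l t, Fac (AL l t) (fun w => (S.toGRD.AQ (S.S l) t (pi w), ν l w))) :
    (S.pull P pi).PubL AL (S.nl J n0 pi ν) (S.nx J n0 pi ν) (S.nD J n0 pi ν) (S.nc J n0 pi ν) where
  plA l t := (hAL l t).trans (nl_fac H.hyp l t)
  plc := nl_succ
  x1 _ _ := rfl
  xV A hA t := by
    intro v w hv
    refine Prod.ext (H.fe t (pi v) (pi w) (hA.Z t v w hv)) (funext fun l => ?_)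
    exact ppl_fac (S := S) (pi := pi) hA.filt hA.Z l (hA.pl l) t v w hv
  Dxi t w _ h := by
    rcases h with h | ⟨l, h⟩
    · exact Or.inl (H.D0i t (pi w) (hp _) h)
    · exact Or.inr ⟨l, nbad_inc h⟩
  D0x _ _ h := Or.inl h
  xv t w _ hd := by
    rw [nx_eq H hp hd, pull_vr hP]
  xc t w hx := by
    by_contra hn
    push Not at hn
    apply hx
    refine Prod.ext hn.1 (funext fun l => ?_)
    by_contra hne
    exact hn.2 l (ppl_ne hne)
  cA l t v w hv := by
    have h1 : S.npc J n0 pi ν l (t + 1) v = S.npc J n0 pi ν l (t + 1) w :=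
      npc_fac l (t + 1) v w (nl_fac H.hyp l (t + 1) v w (hAL l (t + 1) v w hv))
    unfold nc
    rw [h1]
  cV l t v w hv := by
    have h1 : S.npc J n0 pi ν l (t + 1) v = S.npc J n0 pi ν l (t + 1) w := npc_fac l (t + 1) v w hv
    unfold nc
    rw [h1]

end val

/-! ## counts and entropies -/

theorem nc_count (l : L) (n : ℕ) (w : Om) : ∑ t ∈ range n, ind (S.nc J n0 pi ν l t w) ≤ (2 * n0 : ℝ) := by
  have h1 : ∑ t ∈ range (n + 1), ind (S.npc J n0 pi ν l t w ≠ none) ≤ (2 * n0 : ℝ) := by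
    exact_mod_cast L1.pc_count (D := (S.lp l).pull pi) (R := Rz) (J := J) (n0 := n0) (ν := ν l) (n + 1) w
  rw [Finset.sum_range_succ'] at h1
  have h2 := ind_nonneg (S.npc J n0 pi ν l 0 w ≠ none)
  unfold nc
  linarith

theorem nc_sum (P : FP Om) (l : L) (n : ℕ) : ∑ t ∈ range n, P.Pr (S.nc J n0 pi ν l t) ≤ (2 * n0 : ℝ) := by
  rw [RD.sum_Pr]
  exact P.E_le_const fun w _ => nc_count l n w

section ent

variable [Fintype F] [Nonempty F]

/-- entropy of the first component -/
theorem nl_entropy0 (P : FP Om) (l : L) {ζ : Type} (ZL : Om → ζ) :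
    P.Hc (S.nl J n0 pi ν l 0) ZL ≤ Real.log (Fintype.card (Bool → F) + 1) := by
  classical
  have h1 : P.Hc (S.nl J n0 pi ν l 0) ZL ≤ P.Hc (S.npc J n0 pi ν l 0) ZL := by
    refine P.Hc_mono _ ?_
    intro v w hv
    have hv' : S.npc J n0 pi ν l 0 v = S.npc J n0 pi ν l 0 w := (Prod.mk.inj hv).1
    rw [npc_eq_nl (Nat.succ_pos N), npc_eq_nl (Nat.succ_pos N)] at hv'
    funext s
    by_cases hs : s.val = 0
    · have e : s = ⟨0, Nat.succ_pos N⟩ := Fin.ext hs
      rw [e]
      exact hv'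
    · unfold nl L1.LF Nz.lab
      rw [if_neg (by omega), if_neg (by omega)]
  refine h1.trans ((P.Hc_le_H _ _).trans ((P.H_le_log_card _).trans (le_of_eq ?_)))
  rw [Fintype.card_option]
  push_cast
  rfl

/-- created entropy -/
theorem nl_entropy (P : FP Om) (h : S.toGRD.Hyp) (hJ : 1 ≤ J) (l : L) {ζ : ℕ → Type} {ZL : ∀ t, Om → ζ t}
    (hZL : ∀ t, Fac (ZL t) (fun w => S.toGRD.ZJ (S.S l) t (pi w))) :
    ∑ t ∈ range N, P.Hc (S.nl J n0 pi ν l (t + 1)) (fun w => (S.nl J n0 pi ν l t w, ZL (t + 1) w)) ≤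
      2 * n0 * (1 + Real.log J + Real.log (Fintype.card (Bool → F))) + 1 := by
  classical
  have hJ' : (0 : ℝ) < J := by exact_mod_cast hJ
  have hlJ : 0 ≤ Real.log J := Real.log_nonneg (by exact_mod_cast hJ)
  have hlc : 0 ≤ Real.log (Fintype.card (Bool → F)) := Real.log_nonneg (by exact_mod_cast Fintype.card_pos)
  have hstep : ∀ t ∈ range N, P.Hc (S.nl J n0 pi ν l (t + 1)) (fun w => (S.nl J n0 pi ν l t w, ZL (t + 1) w)) ≤
      P.Pr (S.nc J n0 pi ν l t) * (1 + Real.log J + Real.log (Fintype.card (Bool → F))) +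
        1 / J * P.Pr (fun w => Nz.aoc J (fun s => ((S.lp l).pull pi).oc s w) (t + 1)) := by
    intro t ht
    have htN := Finset.mem_range.1 ht
    have h1 := P.Hc_lab_le (Lb := S.nl J n0 pi ν l (t + 1)) (t := t) ⟨t + 1, by omega⟩ rfl
      (fun w _ s hs => by
        unfold nl L1.LF Nz.lab
        rw [if_neg (by omega)])
      (Y := ZL (t + 1)) (oc := fun w => Nz.aoc J (fun s => ((S.lp l).pull pi).oc s w) (t + 1))
      (fun v w hv => by
        have h2 := hZL (t + 1) v w hv
        refine S3.aoc_congr fun s hs => ?_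
        rw [L1.oc_pull, L1.oc_pull]
        exact lp_oc h hs h2)
      (fun w _ hn => by
        unfold nl L1.LF Nz.lab at hn
        rw [if_pos le_rfl] at hn
        have h2 := Nz.pub_act hn
        exact ⟨h2.1, h2.2.1⟩)
      hJ'
    have e1 : (fun w => (rst t (S.nl J n0 pi ν l (t + 1) w), ZL (t + 1) w)) =
        fun w => (S.nl J n0 pi ν l t w, ZL (t + 1) w) := funext fun w => by rw [nl_restrict]
    have e2 : P.Pr (fun w => S.nl J n0 pi ν l (t + 1) w ⟨t + 1, by omega⟩ ≠ none) = P.Pr (S.nc J n0 pi ν l t) := by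
      unfold nc
      congr 1
      funext w
      rw [npc_eq_nl (by omega : t + 1 < N + 1)]
    rw [e1, e2] at h1
    exact h1
  have hsum := Finset.sum_le_sum hstep
  rw [Finset.sum_add_distrib, ← Finset.sum_mul, ← Finset.mul_sum] at hsum
  have h4 := nc_sum (S := S) (J := J) (n0 := n0) (pi := pi) (ν := ν) P l N
  have h5 : ∑ t ∈ range N, P.Pr (fun w => Nz.aoc J (fun s => ((S.lp l).pull pi).oc s w) (t + 1)) ≤ J := by
    rw [RD.sum_Pr]
    exact P.E_le_const fun w _ => Nz.aoc_count J _ N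
  have h6 : 1 / (J : ℝ) * ∑ t ∈ range N, P.Pr (fun w => Nz.aoc J (fun s => ((S.lp l).pull pi).oc s w) (t + 1)) ≤ 1 := by
    calc _ ≤ 1 / (J : ℝ) * J := mul_le_mul_of_nonneg_left h5 (by positivity)
      _ = 1 := by field_simp
  have h7 := mul_le_mul_of_nonneg_right h4
    (show 0 ≤ 1 + Real.log J + Real.log (Fintype.card (Bool → F)) by linarith)
  linarith

end ent

end

end GRT

end Pool.Agent.GM
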