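import Pool.Agent.GM.PubN
import Pool.Agent.M3.NVN

/-!
# GM/PubNQ (helper55): mass of the errors of the published labels with noise

`hν : PulC P S.P pi unif (ν l)` : the noise of the label `l` is uniform given the raw point.
* `strike_mass` : a strike has probability at most `J/(Rz+1)`;
* `nbad_le` : `P (nbad l N) <= J/(Rz+1) + (1 + oo)/J + (1 + cc)/n0`, `oo` = mean number of recordings, `cc` = mean number of
  recorded changes; `nbad_le'` : in terms of the number of changes;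
* `nD_le` : mass of the errors.
-/

set_option autoImplicit false
set_option linter.unusedSectionVars false

namespace Pool.Agent.GM

open Finset Pool.Agent.PWZ Pool.Agent.M3

namespace GRT

noncomputable section

variable {Om Om' : Type} [Fintype Om] [Fintype Om'] {κ : ℕ → Type} {α β ι L F E F' : Type} [Fintype ι]
  [DecidableEq ι] [Fintype F] {S : GRT Om' κ α β ι L F E F'} {N Rz J n0 : ℕ} {pi : Om → Om'}
  {ν : L → Om → Fin (N + 1) → Nz.Ns Rz (Bool → F)} {P : FP Om}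

theorem strike_mass (l : L)
    (hν : PulC P S.P pi (FP.unif (Fin (N + 1) → Nz.Ns Rz (Bool → F))) (ν l)) (t : ℕ) :
    P.Pr (fun w => ((S.lp l).pull pi).stk Rz J (ν l) t w) ≤ (J : ℝ) / (Rz + 1) := by
  have h1 : P.Pr (fun w => ((S.lp l).pull pi).stk Rz J (ν l) t w) ≤
      P.E (fun w => ind (∃ s : Fin (N + 1), ((S.lp l).oc s.val (pi w) ∧
        Nz.cn (fun r => (S.lp l).oc r (pi w)) s.val < J) ∧ (ν l w s).1 = 0)) := by
    refine P.Pr_mono fun w _ hw => ?_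
    obtain ⟨s, _, ⟨h2, h3⟩, h4⟩ := hw
    refine ⟨s, ⟨((S.lp l).oc_pull pi s.val w).1 h2, ?_⟩, h4⟩
    have h5 : (fun r => ((S.lp l).pull pi).oc r w) = fun r => (S.lp l).oc r (pi w) :=
      funext fun r => propext ((S.lp l).oc_pull pi r w)
    rw [h5] at h3
    exact h3
  refine h1.trans ?_
  rw [hν.E (fun v x => ind (∃ s : Fin (N + 1), ((S.lp l).oc s.val v ∧ Nz.cn (fun r => (S.lp l).oc r v) s.val < J) ∧
    (x s).1 = 0))]
  exact S.P.E_le_const fun v _ => Nz.strike_le (R := Rz) (J := J) (φ := Bool → F) (N := N) (fun s => (S.lp l).oc s v)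

/-- MASS OF `nbad N` -/
theorem nbad_le (l : L) (hν : PulC P S.P pi (FP.unif (Fin (N + 1) → Nz.Ns Rz (Bool → F))) (ν l)) (hJ : 0 < J)
    (hn : 0 < n0) {oo cc : ℝ} (ho : ∑ t ∈ range N, S.P.Pr (S.toGRD.cS l t) ≤ oo)
    (hc : ∑ t ∈ range N, S.P.Pr (fun v => S.toGRD.cS l t v ∧ S.toGRD.b t l v) ≤ cc) :
    P.Pr (S.nbad J n0 pi ν l N) ≤ (J : ℝ) / (Rz + 1) + (1 + oo) / J + (1 + cc) / n0 := by
  have hP := hν.pul
  set D := S.lp l with hD
  have hJ' : (0 : ℝ) < J := Nat.cast_pos.mpr hJ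
  have hn' : (0 : ℝ) < n0 := Nat.cast_pos.mpr hn
  have h1 : P.Pr (S.nbad J n0 pi ν l N) ≤
      P.Pr (fun w => (D.pull pi).stk Rz J (ν l) N w ∨ ((J < Nz.cn (fun s => D.oc s (pi w)) (N + 1)) ∨
        n0 < Nz.cn (fun s => D.tc s (pi w) ≠ none) (N + 1))) := by
    refine P.Pr_mono fun w _ hw => ?_
    have h5 : (fun r => (D.pull pi).oc r w) = fun r => D.oc r (pi w) :=
      funext fun r => propext (D.oc_pull pi r w)
    have h6 : (fun r => (D.pull pi).tc r w ≠ none) = fun r => D.tc r (pi w) ≠ none :=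
      funext fun r => by rw [D.tc_pull pi r w]
    rcases hw with hw | hw | hw | hw
    · exact absurd hw (lt_irrefl _)
    · exact Or.inl hw
    · rw [h5] at hw; exact Or.inr (Or.inl hw)
    · rw [h6] at hw; exact Or.inr (Or.inr hw)
  have h2 := P.Pr_or_le (fun w => (D.pull pi).stk Rz J (ν l) N w)
    (fun w => (J < Nz.cn (fun s => D.oc s (pi w)) (N + 1)) ∨ n0 < Nz.cn (fun s => D.tc s (pi w) ≠ none) (N + 1))
  have h3 := P.Pr_or_le (fun w => J < Nz.cn (fun s => D.oc s (pi w)) (N + 1))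
    (fun w => n0 < Nz.cn (fun s => D.tc s (pi w) ≠ none) (N + 1))
  have h4 := strike_mass (J := J) l hν N
  have e1 := hP.Pr (fun v => J < Nz.cn (fun s => D.oc s v) (N + 1))
  have e2 := hP.Pr (fun v => n0 < Nz.cn (fun s => D.tc s v ≠ none) (N + 1))
  have m1 := S.P.cn_markov (fun s v => D.oc s v) (N + 1) J
  have m2 := S.P.cn_markov (fun s v => D.tc s v ≠ none) (N + 1) n0
  have s1 : ∑ s ∈ range (N + 1), S.P.Pr (fun v => D.oc s v) ≤ 1 + oo := by
    rw [Finset.sum_range_succ']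
    have a1 : S.P.Pr (fun v => D.oc 0 v) ≤ 1 := S.P.Pr_le_one _
    have a2 : ∑ s ∈ range N, S.P.Pr (fun v => D.oc (s + 1) v) = ∑ t ∈ range N, S.P.Pr (S.toGRD.cS l t) := rfl
    rw [a2]
    linarith
  have s2 : ∑ s ∈ range (N + 1), S.P.Pr (fun v => D.tc s v ≠ none) ≤ 1 + cc := by
    rw [Finset.sum_range_succ']
    have a1 : S.P.Pr (fun v => D.tc 0 v ≠ none) ≤ 1 := S.P.Pr_le_one _
    have a2 : ∑ s ∈ range N, S.P.Pr (fun v => D.tc (s + 1) v ≠ none) ≤
        ∑ t ∈ range N, S.P.Pr (fun v => S.toGRD.cS l t v ∧ S.toGRD.b t l v) := by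
      refine Finset.sum_le_sum fun t _ => S.P.Pr_mono fun v _ hv => ?_
      rw [L1.tc_succ] at hv
      by_contra hn
      have hn' : ¬ (D.cl t v ∧ D.bb t v) := hn
      rw [if_neg hn'] at hv
      exact hv rfl
    linarith
  have q1 : S.P.Pr (fun v => J < Nz.cn (fun s => D.oc s v) (N + 1)) ≤ (1 + oo) / J := by
    rw [le_div_iff₀ hJ', mul_comm]
    exact m1.trans s1
  have q2 : S.P.Pr (fun v => n0 < Nz.cn (fun s => D.tc s v ≠ none) (N + 1)) ≤ (1 + cc) / n0 := by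
    rw [le_div_iff₀ hn', mul_comm]
    exact m2.trans s2
  rw [← e1] at q1
  rw [← e2] at q2
  linarith

/-- the mass of `nbad N` from the numbers of changes -/
theorem nbad_le' [Fintype L] (h : S.toGRD.Hyp) (l : L)
    (hν : PulC P S.P pi (FP.unif (Fin (N + 1) → Nz.Ns Rz (Bool → F))) (ν l)) (hJ : 0 < J) (hn : 0 < n0) {nf nt : ℝ}
    (hf : ∑ t ∈ range N, S.P.Pr (fun w => S.f l (t + 1) w ≠ S.f l t w) ≤ nf) (hnt : S.toGRD.ntot N ≤ nt) :
    P.Pr (S.nbad J n0 pi ν l N) ≤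
      (J : ℝ) / (Rz + 1) + (1 + 2 ^ Fintype.card ι * nt / S.al 0) / J + (1 + nf) / n0 := by
  refine nbad_le l hν hJ hn ?_ ((GRD.sum_rec (R := S.toGRD) l N).trans hf)
  have h1 := GRD.cS_count h l N
  have h2 := h.al0 0
  rw [le_div_iff₀ h2, mul_comm]
  refine h1.trans ?_
  exact mul_le_mul_of_nonneg_left hnt (by positivity)

/-- MASS OF THE ERRORS -/
theorem nD_le [Fintype L] (h : S.toGRD.Hyp) (hP : Pul P S.P pi)
    (hν : ∀ l, PulC P S.P pi (FP.unif (Fin (N + 1) → Nz.Ns Rz (Bool → F))) (ν l)) (hJ : 0 < J) (hn : 0 < n0)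
    {nf nt q : ℝ} (hf : ∀ l, ∑ t ∈ range N, S.P.Pr (fun w => S.f l (t + 1) w ≠ S.f l t w) ≤ nf)
    (hnt : S.toGRD.ntot N ≤ nt) (hq : S.P.Pr (S.D0 N) ≤ q) :
    P.Pr (S.nD J n0 pi ν N) ≤
      q + Fintype.card L * ((J : ℝ) / (Rz + 1) + (1 + 2 ^ Fintype.card ι * nt / S.al 0) / J + (1 + nf) / n0) := by
  have h1 := P.Pr_or_le (fun w => S.D0 N (pi w)) (fun w => ∃ l ∈ (univ : Finset L), S.nbad J n0 pi ν l N w)
  have h2 : P.Pr (S.nD J n0 pi ν N) ≤ P.Pr (fun w => S.D0 N (pi w) ∨ ∃ l ∈ (univ : Finset L), S.nbad J n0 pi ν l N w) := by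
    refine P.Pr_mono fun w _ hw => ?_
    rcases hw with hw | ⟨l, hw⟩
    · exact Or.inl hw
    · exact Or.inr ⟨l, mem_univ l, hw⟩
  have h3 := P.Pr_ex_le (univ : Finset L) (fun l w => S.nbad J n0 pi ν l N w)
  have h4 : ∑ l : L, P.Pr (S.nbad J n0 pi ν l N) ≤
      ∑ _l : L, ((J : ℝ) / (Rz + 1) + (1 + 2 ^ Fintype.card ι * nt / S.al 0) / J + (1 + nf) / n0) :=
    Finset.sum_le_sum fun l _ => nbad_le' h l (hν l) hJ hn (hf l) hnt
  rw [Finset.sum_const, Finset.card_univ, nsmul_eq_mul] at h4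
  have h5 := hP.Pr (S.D0 N)
  have h6 : P.Pr (fun w => S.D0 N (pi w)) ≤ q := by rw [h5]; exact hq
  have h7 : P.Pr (fun w => ∃ l ∈ (univ : Finset L), S.nbad J n0 pi ν l N w) ≤ ∑ l : L, P.Pr (S.nbad J n0 pi ν l N) := h3
  linarith

end

end GRT

end Pool.Agent.GM
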