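import Pool.Agent.GM.Raw
import Pool.Agent.GM.RdHyp
import Pool.Agent.GM.Frz
import Pool.Agent.GM.NV

/-!
# GM/RawM: the view of row G2B in the model `Sq`, and from labels to sets of known vertices (`UU i`), helper7

* `UL i J` = the hidden vertex and the vertices of `J`; `UL_mem_UU`; `Zk_AJ` : all the noise, the vertices of `U` and the
  cells of the others (scale `r <= e - (h+3)`) determine `AJ i h J e`, `J` inside `U`; `filt_AJ`, `filt_KJ`;
* `mdlT` : the data `GRT` in the model (its `Z`, `ZJ`, `AQ` are the classes of `MV` by definition);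
* `MV` : `GV` in the model with `AL = AJ`, `ZL = KJ`; `adm_Kn` : a filtration which knows `Kn` and the published labels is
  admissible; `utdK` : not up to date given every class coarser than `Kn`;
* `cU`, `chU` : recorded and true changes at the index `U`; `cU_Zk`, `cU_J`, `chU_Zk`, `chU_J`, `ev1U`, `thmU`: the fields
  `cZ`, `cJ`, `chZ`, `chJ`, `ev1`, `thm` of `GM/NV`.
-/

set_option autoImplicit false
set_option linter.unusedSectionVars false

namespace Pool.Agent.GM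

open Finset Pool.Agent.PWZ Pool.Agent.M3 Pool.Agent.M3.Bin
open Pool.Agent.M3.Mod (ex)

variable {k N : ℕ} {ι Θ P : Type} [Fintype ι] [DecidableEq ι]

/-! ## sets of known vertices -/

/-- the hidden vertex and the vertices of `J` -/
def UL (i : ι) (J : Finset {j : ι // j ≠ i}) : Finset ι := insert i (J.map (Function.Embedding.subtype _))

theorem self_mem_UL (i : ι) (J : Finset {j : ι // j ≠ i}) : i ∈ UL i J := Finset.mem_insert_self _ _

theorem mem_UL {i : ι} {J : Finset {j : ι // j ≠ i}} {a : {j : ι // j ≠ i}} (ha : a ∈ J) : a.1 ∈ UL i J :=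
  Finset.mem_insert_of_mem (Finset.mem_map.2 ⟨a, ha, rfl⟩)

theorem of_mem_UL {i : ι} {J : Finset {j : ι // j ≠ i}} {a : {j : ι // j ≠ i}} (ha : a.1 ∈ UL i J) : a ∈ J := by
  rcases Finset.mem_insert.1 ha with h | h
  · exact absurd h a.2
  · obtain ⟨b, hb, h1⟩ := Finset.mem_map.1 h
    have h2 : b = a := Subtype.ext h1
    rwa [← h2]

theorem UL_ne_univ {i : ι} {J : Finset {j : ι // j ≠ i}} (hJ : J ≠ univ) : UL i J ≠ univ := by
  intro h
  refine hJ (Finset.eq_univ_iff_forall.2 fun a => of_mem_UL ?_)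
  rw [h]
  exact Finset.mem_univ _

theorem UL_mem_UU {i : ι} {J : Finset {j : ι // j ≠ i}} (hJ : J ≠ univ) : UL i J ∈ UU i :=
  mem_UU.2 ⟨self_mem_UL i J, UL_ne_univ hJ⟩

/-! ## classes -/

theorem Zk_vx {U : Finset ι} {a : ι} (ha : a ∈ U) (r : ℕ) :
    Fac (Zk (k := k) (N := N) (Θ := Θ) (P := P) U r) (vx a) := by
  intro v w hv
  have h1 : ku U v = ku U w := congrArg (fun x => x.2.1) hv
  exact congrFun h1 ⟨a, ha⟩

theorem Zk_flr (U : Finset ι) (r : ℕ) (a : ι) :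
    Fac (Zk (k := k) (N := N) (Θ := Θ) (P := P) U r) (fun ω => flr r (vx a ω).2) := by
  intro v w hv
  show flr r (vx a v).2 = flr r (vx a w).2
  by_cases ha : a ∈ U
  · rw [Zk_vx ha r v w hv]
  · have h1 : cl U r v = cl U r w := congrArg (fun x => x.2.2.2) hv
    exact congrFun h1 ⟨a, ha⟩

theorem Zk_Qn' {i : ι} {h : ℕ} {U : Finset ι} (hi : i ∈ U) {r e : ℕ} (hr : r ≤ e - (h + 3)) :
    Fac (Zk (k := k) (N := N) (Θ := Θ) (P := P) U r) (Qn i h e) := by
  intro v w hv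
  have h1 : vx i v = vx i w := Zk_vx hi r v w hv
  have h2 : nz v = nz w := congrArg (fun x => x.2.2.1) hv
  have h3 : th v = th w := congrArg (fun x => x.1) hv
  rw [Qn_eq]
  refine ⟨h3, ?_, fun a _ => ?_⟩
  · unfold Zn
    rw [h1, h2]
  · unfold sc
    exact flr_mono_eq hr (Zk_flr U r a v w hv)

/-- **the class of the loss knows what the label may see** -/
theorem Zk_AJ {i : ι} {h : ℕ} {U : Finset ι} (hi : i ∈ U) {J : Finset {j : ι // j ≠ i}} (hJ : ∀ a ∈ J, a.1 ∈ U)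
    {r e : ℕ} (hr : r ≤ e - (h + 3)) : Fac (Zk (k := k) (N := N) (Θ := Θ) (P := P) U r) (AJ i h J e) := by
  intro v w hv
  rw [AJ_eq]
  exact ⟨Zk_vx hi r v w hv, fun a ha => Zk_vx (hJ a ha) r v w hv, Zk_Qn' hi hr v w hv⟩

theorem Zk_AJ_UL {i : ι} {h : ℕ} (J : Finset {j : ι // j ≠ i}) {r e : ℕ} (hr : r ≤ e - (h + 3)) :
    Fac (Zk (k := k) (N := N) (Θ := Θ) (P := P) (UL i J) r) (AJ i h J e) :=
  Zk_AJ (self_mem_UL i J) (fun _ ha => mem_UL ha) hr

theorem filt_AJ (i : ι) (h : ℕ) (J : Finset {j : ι // j ≠ i}) :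
    Filt (fun t (ω : Sq k N ι Θ P) => AJ i h J (ex N t) ω) := by
  intro t v w hv
  rw [AJ_eq] at hv ⊢
  exact ⟨hv.1, hv.2.1, filt_Qn i h t v w hv.2.2⟩

theorem filt_KJ (i : ι) (h : ℕ) (J : Finset {j : ι // j ≠ i}) :
    Filt (fun t (ω : Sq k N ι Θ P) => KJ i h J (ex N t) ω) := by
  intro t v w hv
  rw [KJ_eq] at hv ⊢
  exact ⟨hv.1, filt_Qn i h t v w hv.2⟩

/-! ## the view -/

section view

variable [Fintype Θ] [Nonempty Θ] [Fintype P] [Nonempty P]

/-- the data of a process in the model -/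
noncomputable def mdlT {L F E F' : Type*} (i : ι) (h : ℕ) (Sf : L → Finset {j : ι // j ≠ i})
    (f : L → ℕ → Sq k N ι Θ P → F) (al : ℕ → ℝ) (e : ℕ → Sq k N ι Θ P → E) (fp : L → ℕ → Sq k N ι Θ P → F')
    (K : E × (L → F') → ℕ → Sq k N ι Θ P → ℝ) (T : ℕ → Sq k N ι Θ P → ℝ) (D0 : ℕ → Sq k N ι Θ P → Prop)
    (Lam eta : ℝ) : GRT (Sq k N ι Θ P) (fun _ => Θ × (V k × ℕ) × ({j : ι // j ≠ i} → V k)) (P × V k) (P × V k)
      {j : ι // j ≠ i} L F E F' :=
  { mdl i h Sf f al with e := e, fp := fp, K := K, T := T, D0 := D0, Lam := Lam, eta := eta }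

/-- **THE VIEW IN THE MODEL**: labels `l : L` with supports `S l`, process `T`, changes `che` and zeroes `zr` of the known
face -/
abbrev MV {L : Type} (k N : ℕ) (ι Θ P : Type) [Fintype ι] [DecidableEq ι] [Fintype Θ] [Nonempty Θ] [Fintype P] [Nonempty P]
    (i : ι) (h : ℕ) (S : L → Finset {j : ι // j ≠ i}) (T : ℕ → Sq k N ι Θ P → ℝ)
    (che zr : ℕ → Sq k N ι Θ P → Prop) :=
  GV (Pm (k := k) (N := N) (ι := ι) (Θ := Θ) (P := P)) N (fun t ω => (ot i ω, Qn i h (ex N t) ω))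
    (fun t => Dg (ex N (t + 1))) (fun l t => AJ i h (S l) (ex N t)) (fun l t => KJ i h (S l) (ex N t)) T che zr

variable {L : Type} {i : ι} {h : ℕ} {S : L → Finset {j : ι // j ≠ i}} {T : ℕ → Sq k N ι Θ P → ℝ}
  {che zr : ℕ → Sq k N ι Θ P → Prop}

/-- admissible filtrations -/
theorem adm_Kn {PL : L → ℕ → Type} {pl : ∀ l t, Sq k N ι Θ P → PL l t} {κ' : ℕ → Type}
    {A : ∀ t, Sq k N ι Θ P → κ' t} (hA : Filt A) (hK : ∀ t, Fac (A t) (Kn i (ex N t)))
    (hp : ∀ l t, Fac (A t) (pl l t)) : Adm (fun t (ω : Sq k N ι Θ P) => (ot i ω, Qn i h (ex N t) ω)) pl A where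
  filt := hA
  Z t := (hK t).trans (Kn_fac_Z i h (ex N t))
  pl := hp

/-- not up to date, every class coarser than `Kn` -/
theorem utdK (V : MV k N ι Θ P i h S T che zr) (t : ℕ) {γ : Type} (Y : Sq k N ι Θ P → γ)
    (hY : Fac (Kn i (ex N t)) Y) (w : Sq k N ι Θ P) : Pm.ce Y (fun v => ind (¬ V.utd t v)) w ≤ V.a6 :=
  V.utdc t ((Z_fac_Kn i h (ex N t)).trans hY) w (Pm_ne w)

variable [Fintype L]

open Classical in
/-- recorded changes at the index `U` -/
noncomputable def cU (V : MV k N ι Θ P i h S T che zr) (U : Finset ι) (t : ℕ) (w : Sq k N ι Θ P) : ℝ :=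
  ∑ l ∈ univ.filter (fun l => UL i (S l) = U), ind (V.c l t w)

/-- true changes at the index `U` -/
def chU (V : MV k N ι Θ P i h S T che zr) (U : Finset ι) (t : ℕ) (w : Sq k N ι Θ P) : Prop :=
  ∃ l, UL i (S l) = U ∧ V.ch l t w

variable (V : MV k N ι Θ P i h S T che zr)

theorem cU_nonneg (U : Finset ι) (t : ℕ) (w : Sq k N ι Θ P) : 0 ≤ cU V U t w :=
  Finset.sum_nonneg fun _ _ => ind_nonneg _

/-- the changes at the index `U` are known to the class of the loss -/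
theorem cU_Zk (U : Finset ι) (t : ℕ) {r : ℕ} (hr : r ≤ ex N (t + 1) - (h + 3)) :
    Fac (Zk (k := k) (N := N) (Θ := Θ) (P := P) U r) (cU V U t) := by
  intro v w hv
  unfold cU
  refine Finset.sum_congr rfl fun l hl => ?_
  have h1 : UL i (S l) = U := (Finset.mem_filter.1 hl).2
  have h2 := V.cA l t v w (Zk_AJ_UL (S l) hr v w (by rw [h1]; exact hv))
  by_cases h3 : V.c l t w
  · rw [ind_of h3, ind_of (h2.2 h3)]
  · rw [ind_not h3, ind_not fun h4 => h3 (h2.1 h4)]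

theorem chU_iff {U : Finset ι} {t r : ℕ} (hr : r ≤ ex N (t + 1) - (h + 3)) {v w : Sq k N ι Θ P}
    (hv : Zk U r v = Zk U r w) : chU V U t v ↔ chU V U t w := by
  have h1 : ∀ {v w : Sq k N ι Θ P}, Zk U r v = Zk U r w → chU V U t v → chU V U t w := by
    rintro v w hv ⟨l, hl, hc⟩
    exact ⟨l, hl, (V.chA l t v w (Zk_AJ_UL (S l) hr v w (by rw [hl]; exact hv))).1 hc⟩
  exact ⟨h1 hv, h1 hv.symm⟩

theorem chU_Zk (U : Finset ι) (t : ℕ) {r : ℕ} (hr : r ≤ ex N (t + 1) - (h + 3)) :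
    Fac (Zk (k := k) (N := N) (Θ := Θ) (P := P) U r) (fun w => ind (chU V U t w)) := by
  intro v w hv
  show ind (chU V U t v) = ind (chU V U t w)
  have h2 := chU_iff V hr hv
  by_cases h3 : chU V U t w
  · rw [ind_of h3, ind_of (h2.2 h3)]
  · rw [ind_not h3, ind_not fun h4 => h3 (h2.1 h4)]

theorem sum_E_swap {Om : Type*} [Fintype Om] (Q : FP Om) (N : ℕ) {L : Type*} (F : Finset L)
    (f : L → ℕ → Om → ℝ) :
    ∑ t ∈ range N, Q.E (fun w => ∑ l ∈ F, f l t w) = ∑ l ∈ F, ∑ t ∈ range N, Q.E (f l t) := by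
  rw [Finset.sum_comm]
  refine Finset.sum_congr rfl fun t _ => ?_
  exact FP.E_sum Q F fun l => f l t

theorem MV_J_nonneg : 0 ≤ V.J := (Finset.sum_nonneg fun _ _ => Pm.Pr_nonneg _).trans V.eJ

/-- number of recorded changes at the index `U` -/
theorem cU_J (U : Finset ι) : ∑ t ∈ range N, Pm.E (cU V U t) ≤ Fintype.card L * V.J := by
  classical
  have h1 : ∑ t ∈ range N, Pm.E (cU V U t) =
      ∑ l ∈ univ.filter (fun l => UL i (S l) = U), ∑ t ∈ range N, Pm.E (fun w => ind (V.c l t w)) :=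
    sum_E_swap Pm N _ fun l t w => ind (V.c l t w)
  rw [h1]
  calc ∑ l ∈ univ.filter (fun l => UL i (S l) = U), ∑ t ∈ range N, Pm.E (fun w => ind (V.c l t w))
      ≤ ∑ l ∈ univ.filter (fun l => UL i (S l) = U), V.J := Finset.sum_le_sum fun l _ => V.cJ l
    _ = ((univ.filter (fun l => UL i (S l) = U)).card : ℝ) * V.J := by rw [Finset.sum_const, nsmul_eq_mul]
    _ ≤ Fintype.card L * V.J := by
      refine mul_le_mul_of_nonneg_right ?_ (MV_J_nonneg V)
      exact_mod_cast Finset.card_le_univ _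

/-- number of true changes at the index `U` -/
theorem chU_J (U : Finset ι) : ∑ t ∈ range N, Pm.Pr (chU V U t) ≤ Fintype.card L * V.J := by
  classical
  have h1 : ∀ t, Pm.Pr (chU V U t) ≤ ∑ l, Pm.Pr (V.ch l t) := by
    intro t
    refine le_trans (Pm.Pr_mono fun w _ hw => ?_) (Pm.Pr_ex_le univ (fun l => V.ch l t))
    obtain ⟨l, _, hl⟩ := hw
    exact ⟨l, Finset.mem_univ l, hl⟩
  calc ∑ t ∈ range N, Pm.Pr (chU V U t) ≤ ∑ t ∈ range N, ∑ l, Pm.Pr (V.ch l t) :=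
        Finset.sum_le_sum fun t _ => h1 t
    _ = ∑ l, ∑ t ∈ range N, Pm.Pr (V.ch l t) := Finset.sum_comm
    _ ≤ ∑ _l : L, V.J := Finset.sum_le_sum fun l _ => V.chJ l
    _ = Fintype.card L * V.J := by rw [Finset.sum_const, Finset.card_univ, nsmul_eq_mul]

/-- the sum over the indices -/
theorem sum_cU (hS : ∀ l, S l ≠ univ) (t : ℕ) (w : Sq k N ι Θ P) :
    ∑ U ∈ UU i, cU V U t w = ∑ l, ind (V.c l t w) := by
  classical
  unfold cU
  rw [← Finset.sum_fiberwise_of_maps_to (s := univ) (t := UU i) (g := fun l => UL i (S l))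
    (fun l _ => UL_mem_UU (hS l)) (fun l => ind (V.c l t w))]

/-- **events are changes of the known face or recorded changes**, at alive points -/
theorem ev1U (hS : ∀ l, S l ≠ univ) {κ' : ℕ → Type} {A : ∀ t, Sq k N ι Θ P → κ' t}
    (hA : Adm (fun t (ω : Sq k N ι Θ P) => (ot i ω, Qn i h (ex N t) ω)) V.pl A) (t : ℕ) (w : Sq k N ι Θ P)
    (ha : Pm.Al A V.D1 (1 / 2) (t + 1) w) :
    ind (V.ev (t + 1) w) ≤ ind (che t w) + ∑ U ∈ UU i, cU V U t w := by
  classical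
  rw [sum_cU V hS]
  have h0 : 0 ≤ ∑ l, ind (V.c l t w) := Finset.sum_nonneg fun _ _ => ind_nonneg _
  by_cases he : V.ev (t + 1) w
  · rw [ind_of he]
    rcases V.ev1 A hA t w (Pm_ne w) ha he with h1 | ⟨l, hl⟩
    · rw [ind_of h1]
      linarith
    · have h2 : ind (V.c l t w) ≤ ∑ l, ind (V.c l t w) :=
        Finset.single_le_sum (f := fun l => ind (V.c l t w)) (fun _ _ => ind_nonneg _) (Finset.mem_univ l)
      rw [ind_of hl] at h2
      linarith [ind_nonneg (che t w)]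
  · rw [ind_not he]
    linarith [ind_nonneg (che t w)]

/-- the changes of the labels are the changes at the indices -/
theorem ex_chU (hS : ∀ l, S l ≠ univ) (t : ℕ) (w : Sq k N ι Θ P) :
    (∃ U ∈ UU i, chU V U t w) ↔ ∃ l, V.ch l t w := by
  constructor
  · rintro ⟨_, _, l, _, hl⟩
    exact ⟨l, hl⟩
  · rintro ⟨l, hl⟩
    exact ⟨UL i (S l), UL_mem_UU (hS l), l, rfl, hl⟩

/-- **THE THEOREM** with the changes at the indices -/
theorem thmU (hS : ∀ l, S l ≠ univ) (r : ℝ) (hr : V.rmin ≤ r) (D0' : ℕ → Sq k N ι Θ P → Prop)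
    (hi : ∀ t w, D0' t w → D0' (t + 1) w) (hD : ∀ t w, V.D0 t w → D0' t w) :
    ∃ D2 : ℕ → Sq k N ι Θ P → Prop, (∀ t w, D2 t w → D2 (t + 1) w) ∧ (∀ t w, D0' t w → D2 t w) ∧
      Pm.Pr (D2 N) ≤ Pm.Pr (D0' N) + V.q + ∑ t ∈ range N, Pm.Pr (fun w =>
        (che t w ∨ ∃ U ∈ UU i, chU V U t w) ∧ (r ≤ |T t w| ∨ r ≤ |T (t + 1) w|) ∧ ¬ D0' (t + 1) w) ∧
      (∀ t w, 2 * r < |V.X t w| → ¬ D2 t w → 2 * r - V.eta ≤ |T t w|) ∧
      (∀ (x : ℝ) t w, 2 * r ≤ x + V.eta → x + V.eta ≤ |T t w| → ¬ D2 t w → x ≤ |V.X t w|) ∧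
      (∀ {κ' : ℕ → Type} (A : ∀ t, Sq k N ι Θ P → κ' t),
        Adm (fun t (ω : Sq k N ι Θ P) => (ot i ω, Qn i h (ex N t) ω)) V.pl A → ∀ t w, 2 * r < |V.X t w| →
        Pm.Al A D2 (1 / 2) (t + 1) w → ¬ V.ev (t + 1) w) := by
  obtain ⟨D2, h1, h2, h3, h4, h5, h6⟩ := V.thm r hr D0' (fun t w _ => hi t w) hD
  refine ⟨D2, fun t w => h1 t w (Pm_ne w), h2, ?_, fun t w => h4 t w (Pm_ne w), fun x t w => h5 x t w (Pm_ne w),
    fun A hA t w => h6 A hA t w (Pm_ne w)⟩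
  refine h3.trans (le_of_eq ?_)
  congr 1
  refine Finset.sum_congr rfl fun t _ => ?_
  refine Pm.Pr_congr fun w _ => ?_
  rw [ex_chU V hS]

end view

/-- **the view without noise from the raw process** -/
noncomputable def mvOf {L O E F' : Type} [Fintype Θ] [Nonempty Θ] [Fintype P] [Nonempty P] [Fintype L] [DecidableEq L]
    [Fintype O] [DecidableEq O] [Inhabited O] {i : ι} {h : ℕ} {Sf : L → Finset {j : ι // j ≠ i}}
    {f : L → ℕ → Sq k N ι Θ P → O → F'} {al : ℕ → ℝ} {e : ℕ → Sq k N ι Θ P → E} {fp : L → ℕ → Sq k N ι Θ P → F'}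
    {K : E × (L → F') → ℕ → Sq k N ι Θ P → ℝ} {T : ℕ → Sq k N ι Θ P → ℝ} {D0 : ℕ → Sq k N ι Θ P → Prop}
    {Lam eta : ℝ} {ix : ℕ → Sq k N ι Θ P → O} {dK : E × (L → F') → ℕ → Sq k N ι Θ P → ℝ}
    {che zr : ℕ → Sq k N ι Θ P → Prop} {M : ℕ} {cT ne nf q0 q1 : ℝ}
    (R : (mdlT i h Sf f al e fp K T D0 Lam eta).RawR ix (fun t => Dg (ex N (t + 1))) dK che zr N M cT ne nf q0 q1)
    {r1 rmin : ℝ} (hr1 : 0 < r1) (hr1' : r1 ≤ 1 / 2) (hr0 : 2 * eta + r1 ≤ rmin) :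
    MV k N ι Θ P i h Sf T che zr :=
  R.view (AL := fun l t => AJ i h (Sf l) (ex N t)) (fun _ _ => Fac.refl _) (fun l => filt_AJ i h (Sf l)) hr1 hr1' hr0

end Pool.Agent.GM
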