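import Pool.Agent.GM.GV
import Pool.Agent.M3.RdPull

/-!
# GM/RdPull (helper95): pulling back section G2B along a map of probability spaces

`Pul P P' pi` of `M3/RdPull`: the map `pi : Om → Om'` pushes `P` to `P'`.
* `GRD.pulr` , `GRD.pulr_y`, `pulr_b`, `pulr_cl`, `pulr_cS`, `pulr_utd` : young labels and closings are pulled back;
  `GRD.pulr_hyp`;
* `GRT.pulr` (with more errors), `GRT.pulr_rp`, `pulr_vr`; **`GRT.pulr_hypT`**, `GRT.pulr_steps`.
-/

set_option autoImplicit false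
set_option linter.unusedSectionVars false

namespace Pool.Agent.GM

open Finset Pool.Agent.PWZ Pool.Agent.M3

variable {Om Om' : Type} [Fintype Om] [Fintype Om'] {κ : ℕ → Type} {α β ι L F E F' : Type} [Fintype ι]
  [DecidableEq ι]

namespace GRD

noncomputable section

/-- the pull back -/
def pulr (R : GRD Om' κ α β ι L F) (P : FP Om) (pi : Om → Om') : GRD Om κ α β ι L F where
  P := P
  Q := fun t w => R.Q t (pi w)
  A := fun w => R.A (pi w)
  X := fun w => R.X (pi w)
  S := R.S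
  f := fun l t w => R.f l t (pi w)
  al := R.al

end

variable {R : GRD Om' κ α β ι L F} {P : FP Om} {pi : Om → Om'} (H : Pul P R.P pi)

theorem pulr_Z (t : ℕ) (w : Om) : (R.pulr P pi).Z t w = R.Z t (pi w) := rfl
theorem pulr_ZJ (J : Finset ι) (t : ℕ) (w : Om) : (R.pulr P pi).ZJ J t w = R.ZJ J t (pi w) := rfl
theorem pulr_AQ (J : Finset ι) (t : ℕ) (w : Om) : (R.pulr P pi).AQ J t w = R.AQ J t (pi w) := rfl
theorem pulr_top : (R.pulr P pi).top = R.top := rfl

include H

theorem pulr_clo (t : ℕ) {y' : L → Om → Prop} {y : L → Om' → Prop} (hy : ∀ l w, y' l w ↔ y l (pi w)) (J : Finset ι)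
    (w : Om) : (R.pulr P pi).clo t y' J w ↔ R.clo t y J (pi w) := by
  unfold clo
  refine exists_congr fun l => and_congr_right fun _ => ?_
  have h1 : (fun v => ind (y' l v)) = fun v => ind (y l (pi v)) := funext fun v => by rw [propext (hy l v)]
  have h2 : (R.pulr P pi).P.ce ((R.pulr P pi).ZJ J t) (fun v => ind (y l (pi v))) w =
      R.P.ce (R.ZJ J t) (fun v => ind (y l v)) (pi w) := H.ce (R.ZJ J t) (fun v => ind (y l v)) w
  rw [h1, h2]
  exact Iff.rfl

theorem pulr_stg (t : ℕ) {y' : L → Om → Prop} {y : L → Om' → Prop} (hy : ∀ l w, y' l w ↔ y l (pi w)) (s : ℕ) (l : L)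
    (w : Om) : (R.pulr P pi).stg t y' s l w ↔ R.stg t y s l (pi w) := by
  induction s generalizing l w with
  | zero => exact hy l w
  | succ s ih =>
    unfold stg
    refine and_congr (ih l w) (forall_congr' fun J => forall_congr' fun _ => forall_congr' fun _ => not_congr ?_)
    exact pulr_clo H t (fun l w => ih l w) J w

theorem pulr_y (t : ℕ) (l : L) (w : Om) : (R.pulr P pi).y t l w ↔ R.y t l (pi w) := by
  induction t generalizing l w with
  | zero => exact Iff.rfl
  | succ t ih =>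
    unfold y
    exact pulr_stg H (t + 1) (fun l w => or_congr (ih l w) Iff.rfl) _ l w

theorem pulr_b (t : ℕ) (l : L) (w : Om) : (R.pulr P pi).b t l w ↔ R.b t l (pi w) :=
  or_congr (pulr_y H t l w) Iff.rfl

theorem pulr_st (t s : ℕ) (l : L) (w : Om) : (R.pulr P pi).st t s l w ↔ R.st t s l (pi w) :=
  pulr_stg H (t + 1) (fun l w => pulr_b H t l w) s l w

theorem pulr_cl (J : Finset ι) (t : ℕ) (w : Om) : (R.pulr P pi).cl J t w ↔ R.cl J t (pi w) :=
  pulr_clo H (t + 1) (fun l w => pulr_st H t J.card l w) J w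

theorem pulr_cS (l : L) (t : ℕ) (w : Om) : (R.pulr P pi).cS l t w ↔ R.cS l t (pi w) :=
  exists_congr fun J => and_congr_right fun _ => pulr_cl H J t w

theorem pulr_utd (t : ℕ) (w : Om) : (R.pulr P pi).utd t w ↔ R.utd t (pi w) :=
  forall_congr' fun l => not_congr (pulr_y H t l w)

/-- THE HYPOTHESES ARE PULLED BACK -/
theorem pulr_hyp (h : R.Hyp) : (R.pulr P pi).Hyp where
  filt := fun t v w hv => h.filt t (pi v) (pi w) hv
  S1 := h.S1
  ff := fun l t v w hv => h.ff l t (pi v) (pi w) hv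
  ind := fun J I t q hq w hw => by
    obtain ⟨q', h1, h2⟩ := exists_pull (X := R.AQ I t) (pi := pi) hq
    rw [show q = fun v => q' (pi v) from funext h2]
    exact (H.ce (R.ZJ J t) q' w).trans ((h.ind J I t q' h1 (pi w) (H.ne hw)).trans
      (H.ce (R.ZJ (J ∩ I) t) q' w).symm)
  dbl := fun t q hq w hw => by
    obtain ⟨q', h1, h2⟩ := H.ce_any hq
    have e1 : (R.pulr P pi).P.ce ((R.pulr P pi).Z (t + 1)) q w = R.P.ce (R.Z (t + 1)) q' (pi w) :=
      h2 (R.Z (t + 1)) w
    have e2 : (R.pulr P pi).P.ce ((R.pulr P pi).Z t) q w = R.P.ce (R.Z t) q' (pi w) := h2 (R.Z t) w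
    rw [e1, e2]
    exact h.dbl t q' h1 (pi w) (H.ne hw)
  al0 := h.al0
  al1 := h.al1
  ab := h.ab

theorem pulr_Pr_f (l : L) (t : ℕ) :
    (R.pulr P pi).P.Pr (fun w => (R.pulr P pi).f l (t + 1) w ≠ (R.pulr P pi).f l t w) =
      R.P.Pr (fun w => R.f l (t + 1) w ≠ R.f l t w) := H.Pr fun w => R.f l (t + 1) w ≠ R.f l t w

theorem pulr_ntot [Fintype L] (n : ℕ) : (R.pulr P pi).ntot n = R.ntot n := by
  unfold ntot
  exact Finset.sum_congr rfl fun l _ => Finset.sum_congr rfl fun t _ => pulr_Pr_f H l t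

end GRD

namespace GRT

noncomputable section

/-- the pull back, with more errors -/
def pulr (S : GRT Om' κ α β ι L F E F') (P : FP Om) (pi : Om → Om') (D0' : ℕ → Om → Prop) :
    GRT Om κ α β ι L F E F' where
  toGRD := S.toGRD.pulr P pi
  e := fun t w => S.e t (pi w)
  fp := fun l t w => S.fp l t (pi w)
  K := fun v t w => S.K v t (pi w)
  T := fun t w => S.T t (pi w)
  D0 := D0'
  Lam := S.Lam
  eta := S.eta

end

variable {S : GRT Om' κ α β ι L F E F'} {P : FP Om} {pi : Om → Om'} (H : Pul P S.P pi) (D0' : ℕ → Om → Prop)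

theorem pulr_vt (t : ℕ) (w : Om) : (S.pulr P pi D0').vt t w = S.vt t (pi w) := rfl

include H

theorem pulr_rp (l : L) (t : ℕ) (w : Om) : (S.pulr P pi D0').rp l t w = S.rp l t (pi w) := by
  induction t with
  | zero => rfl
  | succ t ih =>
    have hc : (S.pulr P pi D0').toGRD.cS l t w ↔ S.toGRD.cS l t (pi w) := GRD.pulr_cS H l t w
    by_cases h : S.toGRD.cS l t (pi w)
    · rw [rp_succ_of h, rp_succ_of (hc.2 h)]
      rfl
    · rw [rp_succ_of_not h, rp_succ_of_not fun h' => h (hc.1 h'), ih]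

theorem pulr_vr (t : ℕ) (w : Om) : (S.pulr P pi D0').vr t w = S.vr t (pi w) :=
  Prod.ext rfl (funext fun l => pulr_rp H D0' l t w)

/-- **THE HYPOTHESES ARE PULLED BACK** -/
theorem pulr_hypT (h : S.HypT) (hi : ∀ t w, P.p w ≠ 0 → D0' t w → D0' (t + 1) w)
    (hD : ∀ t w, P.p w ≠ 0 → S.D0 t (pi w) → D0' t w) : (S.pulr P pi D0').HypT where
  hyp := GRD.pulr_hyp H h.hyp
  fe := fun t v w hv => h.fe t (pi v) (pi w) hv
  fpf := fun l t v w hv => h.fpf l t (pi v) (pi w) hv
  cf := fun l t w hw hd he => h.cf l t (pi w) (H.ne hw) (fun hd' => hd (hD (t + 1) w hw hd')) he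
  Kf := fun v t x y hv => h.Kf v t (pi x) (pi y) hv
  Ks := fun v t w hw => by
    have h1 := h.Ks v t (pi w) (H.ne hw)
    rw [← H.ce (S.toGRD.Z t) (fun z => |S.K v (t + 1) z|) w] at h1
    exact h1
  Kb := fun v t w hw => h.Kb v t (pi w) (H.ne hw)
  D0i := hi
  TX := fun t w hw hd => h.TX t (pi w) (H.ne hw) (fun hd' => hd (hD t w hw hd'))
  Lam0 := h.Lam0
  eta0 := h.eta0

/-- the steps are pulled back -/
theorem pulr_steps {D : ℕ → Om' → ℝ} {dK : E × (L → F') → ℕ → Om' → ℝ} {che zr : ℕ → Om' → Prop} {cT : ℝ}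
    (hs : S.Steps D dK che zr cT) (hD : ∀ t w, S.D0 t (pi w) → D0' t w) :
    (S.pulr P pi D0').Steps (fun t w => D t (pi w)) (fun v t w => dK v t (pi w)) (fun t w => che t (pi w))
      (fun t w => zr t (pi w)) cT where
  digit := fun t w hw => hs.digit t (pi w) (H.ne hw)
  DZ := fun t v w hv => hs.DZ t (pi v) (pi w) hv
  dKf := fun v t x y hv => hs.dKf v t (pi x) (pi y) hv
  step := fun t w hw hd => by
    rw [pulr_vr H]
    exact hs.step t (pi w) (H.ne hw) fun h' => hd (hD t w h')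
  T := fun t w hw => hs.T t (pi w) (H.ne hw)
  cT0 := hs.cT0
  eta := hs.eta
  che := fun t w h => hs.che t (pi w) h
  zer := fun t w h v hv => hs.zer t (pi w) h v hv

end GRT

end Pool.Agent.GM
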