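import Pool.Agent.GM.Raw
import Pool.Agent.GM.RdPull
import Pool.Agent.GM.PubO
import Pool.Agent.M3.NzEnt
import Pool.Agent.M3.NVN

/-!
# GM/RawN (helper95): the view with noisy published labels (row G2B.6), every number of labels

`Om` = raw sample space, `Om2` = with coins, `pi : Om2 → Om`, noises `ν l : Om2 → Fin (N+1) → Nz.Ns Rz (O → F')` with
`NuLaw` (uniform given the raw point).
* `GV.finer` : the same view for a finer node (with the coins of the known vertices);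
* `GRT.lo` : the label `l` as `LO`; `LFn`, `pcn`, `xn`, `dn` : published letters, component, published value, errors;
* `GRT.pubL_R` : `PubL` for the pulled process; `GRT.bad_le`, `GRT.dn_le` : mass of the errors;
* `LFn_ent`, `LFn_ent0` : created entropy;
* **`RawR.viewN`** : the view with noise, all sizes explicit (`qn`, `hn`).
-/

set_option autoImplicit false
set_option linter.unusedSectionVars false

namespace Pool.Agent.GM

open Finset Pool.Agent.PWZ Pool.Agent.M3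

/-- the same view, finer node -/
noncomputable def GV.finer {Om : Type} [Fintype Om] {P : FP Om} {N : ℕ} {κ κ' : ℕ → Type} {Z : ∀ t, Om → κ t}
    {D : ℕ → Om → ℝ} {L : Type} {ζ ζ' : L → ℕ → Type} {AL : ∀ l t, Om → ζ l t} {ZL : ∀ l t, Om → ζ' l t}
    {T : ℕ → Om → ℝ} {che zr : ℕ → Om → Prop} (W : GV P N Z D AL ZL T che zr) (Z' : ∀ t, Om → κ' t)
    (hZ : ∀ t, Fac (Z' t) (Z t))
    (hu : ∀ t {ν : Type} {Y : Om → ν}, Fac (Z' t) Y → ∀ w, P.p w ≠ 0 →
      P.ce Y (fun v => ind (¬ W.utd t v)) w ≤ W.a6)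
    (hu' : ∀ t {ν : Type} {Y : Om → ν}, Fac (Z' (t + 1)) Y → ∀ w, P.p w ≠ 0 →
      P.ce Y (fun v => ind (¬ W.utd t v)) w ≤ 2 * W.a6) : GV P N Z' D AL ZL T che zr :=
  have hA : ∀ {κ'' : ℕ → Type} {A : ∀ t, Om → κ'' t}, Adm Z' W.pl A → Adm Z W.pl A := fun h =>
    ⟨h.filt, fun t => (h.Z t).trans (hZ t), h.pl⟩
  { PL := W.PL
    pl := W.pl
    X := W.X
    g := W.g
    ev := W.ev
    utd := W.utd
    D0 := W.D0
    D1 := W.D1
    c := W.c
    ch := W.ch
    eta := W.eta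
    q := W.q
    J := W.J
    a6 := W.a6
    rmin := W.rmin
    cb := W.cb
    hb := W.hb
    eta0 := W.eta0
    cb0 := W.cb0
    plA := W.plA
    plc := W.plc
    Xb := W.Xb
    view := fun A h s hs Dd => W.view A (hA h) s hs Dd
    D0inc := W.D0inc
    D1inc := W.D1inc
    D01 := W.D01
    D0q := W.D0q
    D1q := W.D1q
    XS1 := W.XS1
    SX1 := W.SX1
    ev1 := fun A h => W.ev1 A (hA h)
    zer := W.zer
    utdc := hu
    utdc' := hu'
    cA := W.cA
    cV := W.cV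
    cJ := W.cJ
    chA := W.chA
    chJ := W.chJ
    eJ := W.eJ
    ent0 := W.ent0
    ent := W.ent
    thm := fun r hr D0' h1 h2 => by
      obtain ⟨D2, a1, a2, a3, a4, a5, a6⟩ := W.thm r hr D0' h1 h2
      exact ⟨D2, a1, a2, a3, a4, a5, fun A h => a6 A (hA h)⟩ }

/-! ## labels of the pulled process -/

namespace LO

/-- the pull back -/
def pull {Om Om2 O L : Type} (D : LO Om O L) (pi : Om2 → Om) : LO Om2 O L where
  x := fun t w => D.x t (pi w)
  xp := fun t w => D.xp t (pi w)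
  ix := fun t w => D.ix t (pi w)
  cl := fun t w => D.cl t (pi w)
  bb := fun t w => D.bb t (pi w)

variable {Om Om2 O L : Type} (D : LO Om O L) (pi : Om2 → Om)

theorem oc_pull (t : ℕ) (w : Om2) : (D.pull pi).oc t w ↔ D.oc t (pi w) := by
  cases t <;> exact Iff.rfl

theorem tc_pull (t : ℕ) (w : Om2) : (D.pull pi).tc t w = D.tc t (pi w) := by
  cases t <;> rfl

theorem rp_pull (t : ℕ) (w : Om2) : (D.pull pi).rp t w = D.rp t (pi w) := by
  induction t with
  | zero => rfl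
  | succ t ih =>
    unfold rp
    by_cases h : D.cl t (pi w)
    · rw [if_pos h, if_pos (show (D.pull pi).cl t w from h)]; rfl
    · rw [if_neg h, if_neg (show ¬ (D.pull pi).cl t w from h), ih]

theorem LF_pull {N : ℕ} (R J n0 : ℕ) (ν : Om2 → Fin (N + 1) → Nz.Ns R (O → L)) (t : ℕ) (w : Om2) :
    (D.pull pi).LF R J n0 ν t w = Nz.lab R J n0 (fun s => D.oc s (pi w)) (fun s => D.tc s (pi w)) t (ν w) := by
  unfold LF
  have h1 : (fun s => (D.pull pi).oc s w) = fun s => D.oc s (pi w) :=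
    funext fun s => propext (D.oc_pull pi s w)
  have h2 : (fun s => (D.pull pi).tc s w) = fun s => D.tc s (pi w) := funext fun s => D.tc_pull pi s w
  rw [h1, h2]

theorem LF_succ {N : ℕ} (R J n0 : ℕ) (ν : Om → Fin (N + 1) → Nz.Ns R (O → L)) (t : ℕ) :
    Fac (D.LF R J n0 ν (t + 1)) (D.LF R J n0 ν t) := by
  intro v w hv
  funext s
  have h1 := congrFun hv s
  unfold LF Nz.lab at h1 ⊢
  by_cases hs : s.val ≤ t
  · rw [if_pos (by omega), if_pos (by omega)] at h1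
    rw [if_pos hs, if_pos hs, h1]
  · rw [if_neg hs, if_neg hs]

theorem LF_rst {N : ℕ} (R J n0 : ℕ) (ν : Om → Fin (N + 1) → Nz.Ns R (O → L)) (t : ℕ) (w : Om) :
    rst t (D.LF R J n0 ν (t + 1) w) = D.LF R J n0 ν t w := by
  funext s
  unfold rst LF Nz.lab
  by_cases hs : s.val ≤ t
  · rw [if_pos hs, if_pos (by omega), if_pos hs]
  · rw [if_neg hs, if_neg hs]

theorem pc_fac {N : ℕ} (R J n0 : ℕ) (ν : Om → Fin (N + 1) → Nz.Ns R (O → L)) (t : ℕ) {v w : Om}
    (hv : D.LF R J n0 ν t v = D.LF R J n0 ν t w) : D.pc R J n0 ν t v = D.pc R J n0 ν t w := by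
  unfold pc
  rw [hv]

end LO

/-- the noise is uniform given the raw point -/
def NuLaw {Om Om2 φ : Type} [Fintype Om] [Fintype Om2] [Fintype φ] (P2 : FP Om2) (P : FP Om) (pi : Om2 → Om)
    {N Rz : ℕ} (ν : Om2 → Fin (N + 1) → Nz.Ns Rz φ) : Prop :=
  ∀ Ψ : Om → (Fin (N + 1) → Nz.Ns Rz φ) → ℝ,
    P2.E (fun w => Ψ (pi w) (ν w)) = P.E (fun v => (FP.unif (Fin (N + 1) → Nz.Ns Rz φ)).E (Ψ v))

namespace LO

variable {Om Om2 O L : Type} [Fintype Om] [Fintype Om2] [Fintype O] [DecidableEq O] [Fintype L] {P2 : FP Om2} {P : FP Om}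
  {pi : Om2 → Om} {N Rz J n0 : ℕ} {D : LO Om O L} {ν : Om2 → Fin (N + 1) → Nz.Ns Rz (O → L)}

theorem stk_le (hν : NuLaw P2 P pi ν) (t : ℕ) :
    P2.Pr (fun w => (D.pull pi).stk Rz J ν t w) ≤ (J : ℝ) / (Rz + 1) := by
  have h1 : P2.Pr (fun w => (D.pull pi).stk Rz J ν t w) ≤
      P2.E (fun w => ind (∃ s : Fin (N + 1), (D.oc s.val (pi w) ∧ Nz.cn (fun r => D.oc r (pi w)) s.val < J) ∧
        (ν w s).1 = 0)) := by
    refine P2.Pr_mono fun w _ hw => ?_
    obtain ⟨s, _, ⟨h2, h3⟩, h4⟩ := hw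
    refine ⟨s, ⟨(D.oc_pull pi s.val w).1 h2, ?_⟩, h4⟩
    have h5 : (fun r => (D.pull pi).oc r w) = fun r => D.oc r (pi w) :=
      funext fun r => propext (D.oc_pull pi r w)
    rw [h5] at h3
    exact h3
  refine h1.trans ?_
  rw [hν (fun v x => ind (∃ s : Fin (N + 1), (D.oc s.val v ∧ Nz.cn (fun r => D.oc r v) s.val < J) ∧ (x s).1 = 0))]
  exact P.E_le_const fun v _ => Nz.strike_le (R := Rz) (J := J) (φ := O → L) (N := N) (fun s => D.oc s v)

/-- MASS OF `bad N` -/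
theorem bad_le (hP : Pul P2 P pi) (hν : NuLaw P2 P pi ν) (hJ : 0 < J) (hn : 0 < n0) {oo cc : ℝ}
    (ho : ∑ t ∈ range N, P.Pr (fun v => D.cl t v) ≤ oo)
    (hc : ∑ t ∈ range N, P.Pr (fun v => D.cl t v ∧ D.bb t v) ≤ cc) :
    P2.Pr (fun w => (D.pull pi).bad Rz J n0 ν N w) ≤ (J : ℝ) / (Rz + 1) + (1 + oo) / J + (1 + cc) / n0 := by
  classical
  have hJ' : (0 : ℝ) < J := Nat.cast_pos.mpr hJ
  have hn' : (0 : ℝ) < n0 := Nat.cast_pos.mpr hn
  have h1 : P2.Pr (fun w => (D.pull pi).bad Rz J n0 ν N w) ≤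
      P2.Pr (fun w => (D.pull pi).stk Rz J ν N w ∨ ((J < Nz.cn (fun s => D.oc s (pi w)) (N + 1)) ∨
        n0 < Nz.cn (fun s => D.tc s (pi w) ≠ none) (N + 1))) := by
    refine P2.Pr_mono fun w _ hw => ?_
    have h5 : (fun r => (D.pull pi).oc r w) = fun r => D.oc r (pi w) :=
      funext fun r => propext (D.oc_pull pi r w)
    have h6 : (fun r => (D.pull pi).tc r w ≠ none) = fun r => D.tc r (pi w) ≠ none :=
      funext fun r => by rw [D.tc_pull pi r w]
    rcases hw with hw | hw | hw | hw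
    · exact absurd hw (lt_irrefl _)
    · exact Or.inl hw
    · rw [h5] at hw; exact Or.inr (Or.inl hw)
    · rw [h6] at hw; exact Or.inr (Or.inr hw)
  have h2 := P2.Pr_or_le (fun w => (D.pull pi).stk Rz J ν N w)
    (fun w : Om2 => (J < Nz.cn (fun s => D.oc s (pi w)) (N + 1)) ∨
        n0 < Nz.cn (fun s => D.tc s (pi w) ≠ none) (N + 1))
  have h3 := P2.Pr_or_le (fun w : Om2 => J < Nz.cn (fun s => D.oc s (pi w)) (N + 1))
    (fun w => n0 < Nz.cn (fun s => D.tc s (pi w) ≠ none) (N + 1))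
  have h4 := stk_le (D := D) (J := J) hν N
  have e1 := hP.Pr (fun v => J < Nz.cn (fun s => D.oc s v) (N + 1))
  have e2 := hP.Pr (fun v => n0 < Nz.cn (fun s => D.tc s v ≠ none) (N + 1))
  have m1 := P.cn_markov (fun s v => D.oc s v) (N + 1) J
  have m2 := P.cn_markov (fun s v => D.tc s v ≠ none) (N + 1) n0
  have s1 : ∑ s ∈ range (N + 1), P.Pr (fun v => D.oc s v) ≤ 1 + oo := by
    rw [Finset.sum_range_succ']
    have a1 : P.Pr (fun v => D.oc 0 v) ≤ 1 := P.Pr_le_one _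
    have a2 : ∑ s ∈ range N, P.Pr (fun v => D.oc (s + 1) v) = ∑ t ∈ range N, P.Pr (fun v => D.cl t v) := rfl
    rw [a2]
    linarith
  have s2 : ∑ s ∈ range (N + 1), P.Pr (fun v => D.tc s v ≠ none) ≤ 1 + cc := by
    rw [Finset.sum_range_succ']
    have a1 : P.Pr (fun v => D.tc 0 v ≠ none) ≤ 1 := P.Pr_le_one _
    have a2 : ∑ s ∈ range N, P.Pr (fun v => D.tc (s + 1) v ≠ none) ≤
        ∑ t ∈ range N, P.Pr (fun v => D.cl t v ∧ D.bb t v) := by
      refine Finset.sum_le_sum fun t _ => P.Pr_mono fun v _ hv => ?_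
      rw [tc_succ] at hv
      by_contra hn
      rw [if_neg hn] at hv
      exact hv rfl
    linarith
  have q1 : P.Pr (fun v => J < Nz.cn (fun s => D.oc s v) (N + 1)) ≤ (1 + oo) / J := by
    rw [le_div_iff₀ hJ', mul_comm]
    exact m1.trans s1
  have q2 : P.Pr (fun v => n0 < Nz.cn (fun s => D.tc s v ≠ none) (N + 1)) ≤ (1 + cc) / n0 := by
    rw [le_div_iff₀ hn', mul_comm]
    exact m2.trans s2
  rw [← e1] at q1
  rw [← e2] at q2
  linarith

end LO

namespace GRT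

section noise

variable {Om Om2 : Type} [Fintype Om] [Fintype Om2] {κ : ℕ → Type} {α β ι L O E F' : Type} [Fintype ι] [DecidableEq ι]
  (S : GRT Om κ α β ι L (O → F') E F') (ix : ℕ → Om → O) {N : ℕ} (Rz J n0 : ℕ) (pi : Om2 → Om)
  (ν : L → Om2 → Fin (N + 1) → Nz.Ns Rz (O → F'))

/-- the label `l` -/
def lo (l : L) : LO Om O F' where
  x := S.f l
  xp := S.fp l
  ix := ix
  cl := fun t w => S.toGRD.cS l t w
  bb := fun t w => S.toGRD.b t l w

theorem lo_rp (l : L) (t : ℕ) (w : Om) : (S.lo ix l).rp t w = S.rp l t w := by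
  induction t with
  | zero => rfl
  | succ t ih =>
    unfold LO.rp
    by_cases h : S.toGRD.cS l t w
    · rw [rp_succ_of h, if_pos (show (S.lo ix l).cl t w from h)]; rfl
    · rw [rp_succ_of_not h, if_neg (show ¬ (S.lo ix l).cl t w from h), ih]

/-- published letters -/
noncomputable def LFn (l : L) (t : ℕ) (w : Om2) : Fin (N + 1) → Option (O → F') :=
  ((S.lo ix l).pull pi).LF Rz J n0 (ν l) t w

/-- published component -/
noncomputable def pcn (l : L) (t : ℕ) (w : Om2) : Option (O → F') := ((S.lo ix l).pull pi).pc Rz J n0 (ν l) t w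

/-- published value -/
noncomputable def xn [Inhabited F'] (t : ℕ) (w : Om2) : E × (L → F') :=
  (S.e t (pi w), fun l => ((S.lo ix l).pull pi).pv Rz J n0 (ν l) default t w)

/-- errors -/
def dn (t : ℕ) (w : Om2) : Prop := S.D0 t (pi w) ∨ ∃ l, ((S.lo ix l).pull pi).bad Rz J n0 (ν l) t w

/-- letters at a raw point -/
theorem LFn_eq (l : L) (t : ℕ) (w : Om2) : S.LFn ix Rz J n0 pi ν l t w =
    Nz.lab Rz J n0 (fun s => (S.lo ix l).oc s (pi w)) (fun s => (S.lo ix l).tc s (pi w)) t (ν l w) :=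
  LO.LF_pull _ _ _ _ _ _ _ _

variable {S ix Rz J n0 pi ν} {P2 : FP Om2}

/-- occasions are functions of `(x_(S l), Q)` -/
theorem oc_iff {l : L} {t : ℕ} {v w : Om} (hv : S.toGRD.ZJ (S.S l) t v = S.toGRD.ZJ (S.S l) t w) :
    (S.lo ix l).oc t v ↔ (S.lo ix l).oc t w := by
  cases t with
  | zero => exact Iff.rfl
  | succ t => exact GRD.cS_iff hv

/-- true components are functions of `(A, x_(S l), Q)` -/
theorem tc_fac (h : S.toGRD.Hyp) (l : L) (t : ℕ) : Fac (S.toGRD.AQ (S.S l) t) ((S.lo ix l).tc t) := by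
  classical
  intro v w hv
  cases t with
  | zero =>
    show some (S.f l 0 v) = some (S.f l 0 w)
    rw [h.ff l 0 v w hv]
  | succ t =>
    have h1 : (S.toGRD.cS l t v ∧ S.toGRD.b t l v) ↔ (S.toGRD.cS l t w ∧ S.toGRD.b t l w) :=
      and_congr (GRD.cS_iff (GRD.AQ_fac_ZJ _ _ v w hv)) (GRD.b_iff h hv)
    rw [LO.tc_succ, LO.tc_succ]
    by_cases hc : S.toGRD.cS l t w ∧ S.toGRD.b t l w
    · rw [if_pos (show (S.lo ix l).cl t w ∧ (S.lo ix l).bb t w from hc),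
        if_pos (show (S.lo ix l).cl t v ∧ (S.lo ix l).bb t v from h1.2 hc)]
      show some (S.f l (t + 1) v) = some (S.f l (t + 1) w)
      rw [h.ff l (t + 1) v w hv]
    · rw [if_neg (show ¬ ((S.lo ix l).cl t w ∧ (S.lo ix l).bb t w) from hc),
        if_neg (show ¬ ((S.lo ix l).cl t v ∧ (S.lo ix l).bb t v) from fun h' => hc (h1.1 h'))]

variable [Inhabited F']

/-- off the errors the published value is the recorded value -/
theorem xn_eq (H : S.HypT) (hx : ∀ l t w, S.fp l t w = S.f l t w (ix t w)) {t : ℕ} {w : Om2}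
    (hw : S.P.p (pi w) ≠ 0) (hd : ¬ S.dn ix Rz J n0 pi ν t w) : S.xn ix Rz J n0 pi ν t w = S.vr t (pi w) := by
  unfold dn at hd
  push Not at hd
  obtain ⟨h0, h1⟩ := hd
  have hD : ∀ s ≤ t, ¬ S.D0 s (pi w) := fun s hs h3 => h0 (S.P.inc_le H.D0i hs hw h3)
  refine Prod.ext rfl (funext fun l => ?_)
  show ((S.lo ix l).pull pi).pv Rz J n0 (ν l) default t w = S.rp l t (pi w)
  rw [LO.pv_eq (D := (S.lo ix l).pull pi) (fun s _ => hx l s (pi w)) ?_ (h1 l), LO.rp_pull, lo_rp]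
  intro s hs hb
  rw [LO.rp_pull, LO.rp_pull, lo_rp, lo_rp]
  by_contra hne
  exact hb (rp_ne H hw (hD (s + 1) hs) hne).2

theorem dn_inc (H : S.HypT) {t : ℕ} {w : Om2} (hw : S.P.p (pi w) ≠ 0) (hd : S.dn ix Rz J n0 pi ν t w) :
    S.dn ix Rz J n0 pi ν (t + 1) w := by
  rcases hd with hd | ⟨l, hd⟩
  · exact Or.inl (H.D0i t (pi w) hw hd)
  · exact Or.inr ⟨l, LO.bad_inc hd⟩

/-- **published labels with noise** -/
theorem pubL_R (hP : Pul P2 S.P pi) (H : S.HypT) (ixf : ∀ t, Fac (S.toGRD.Z t) (ix t))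
    (hx : ∀ l t w, S.fp l t w = S.f l t w (ix t w)) {ζ : L → ℕ → Type} {AL : ∀ l t, Om2 → ζ l t}
    (hAL : ∀ l t, Fac (AL l t) (S.LFn ix Rz J n0 pi ν l t)) :
    (S.pulr P2 pi (S.dn ix Rz J n0 pi ν)).PubL AL (S.LFn ix Rz J n0 pi ν) (S.xn ix Rz J n0 pi ν)
      (S.dn ix Rz J n0 pi ν) (fun l t w => S.pcn ix Rz J n0 pi ν l (t + 1) w ≠ none) where
  plA := hAL
  plc l t := LO.LF_succ _ Rz J n0 (ν l) t
  x1 _ _ := rfl
  xV A hA t := by
    intro v w hv
    have hZ : S.toGRD.Z t (pi v) = S.toGRD.Z t (pi w) := hA.Z t v w hv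
    refine Prod.ext (H.fe t _ _ hZ) (funext fun l => ?_)
    exact LO.pv_fac (D := (S.lo ix l).pull pi) hA.filt (fun t => hA.pl l t)
      (fun t v w hv => ixf t (pi v) (pi w) (hA.Z t v w hv)) t v w hv
  Dxi t w hw h := dn_inc H (hP.ne hw) h
  D0x _ _ h := h
  xv t w hw hd := by
    rw [pulr_vr hP]
    exact xn_eq H hx (hP.ne hw) hd
  xc t w hne := by
    by_contra hn
    push Not at hn
    apply hne
    refine Prod.ext hn.1 (funext fun l => ?_)
    by_contra hl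
    exact LO.pv_ne (D := (S.lo ix l).pull pi) hl (hn.2 l)
  cA l t v w hv := by
    have h1 : S.pcn ix Rz J n0 pi ν l (t + 1) v = S.pcn ix Rz J n0 pi ν l (t + 1) w :=
      LO.pc_fac _ Rz J n0 (ν l) (t + 1) (hAL l (t + 1) v w hv)
    rw [h1]
  cV l t v w hv := by
    have h1 : S.pcn ix Rz J n0 pi ν l (t + 1) v = S.pcn ix Rz J n0 pi ν l (t + 1) w :=
      LO.pc_fac _ Rz J n0 (ν l) (t + 1) hv
    rw [h1]

/-! ### number of published components -/

omit [Inhabited F'] in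
theorem pcn_count (P : FP Om2) (l : L) (n : ℕ) :
    ∑ t ∈ range n, P.Pr (fun w => S.pcn ix Rz J n0 pi ν l (t + 1) w ≠ none) ≤ 2 * n0 := by
  unfold FP.Pr
  rw [← FP.E_sum]
  refine P.E_le_const fun w _ => ?_
  have h1 := LO.pc_count (D := (S.lo ix l).pull pi) (R := Rz) (J := J) (n0 := n0) (ν := ν l) (n + 1) w
  rw [Finset.sum_range_succ'] at h1
  have h2 := ind_nonneg (((S.lo ix l).pull pi).pc Rz J n0 (ν l) 0 w ≠ none)
  have h3 : ∑ t ∈ range n, ind (S.pcn ix Rz J n0 pi ν l (t + 1) w ≠ none) =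
    ∑ t ∈ range n, ind (((S.lo ix l).pull pi).pc Rz J n0 (ν l) (t + 1) w ≠ none) := rfl
  rw [h3]
  linarith

omit [Inhabited F'] in
/-- created entropy of the published letters -/
theorem LFn_ent [Fintype O] [DecidableEq O] [Fintype F'] [Nonempty F'] (P : FP Om2) (h : S.toGRD.Hyp) {l : L}
    {ζ' : ℕ → Type} {Y : ∀ t, Om2 → ζ' t}
    (hY : ∀ t v w, Y t v = Y t w → S.toGRD.ZJ (S.S l) t (pi v) = S.toGRD.ZJ (S.S l) t (pi w)) (hJ : 1 ≤ J) :
    ∑ t ∈ range N, P.Hc (S.LFn ix Rz J n0 pi ν l (t + 1)) (fun w => (S.LFn ix Rz J n0 pi ν l t w, Y (t + 1) w)) ≤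
      2 * n0 * (1 + Real.log J + Real.log (Fintype.card (O → F'))) + 1 := by
  classical
  have hJ' : (0 : ℝ) < J := by exact_mod_cast hJ
  have hlJ : 0 ≤ Real.log J := Real.log_nonneg (by exact_mod_cast hJ)
  have hlc : 0 ≤ Real.log (Fintype.card (O → F')) := Real.log_nonneg (by exact_mod_cast Fintype.card_pos)
  have hle : ∀ {s t : ℕ}, s ≤ t → ∀ {v w : Om}, S.toGRD.ZJ (S.S l) t v = S.toGRD.ZJ (S.S l) t w →
      S.toGRD.ZJ (S.S l) s v = S.toGRD.ZJ (S.S l) s w := by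
    intro s t hs v w hv
    induction t, hs using Nat.le_induction with
    | base => exact hv
    | succ t _ ih => exact ih (GRD.ZJ_filt h (S.S l) t v w hv)
  have hao : ∀ t v w, Y t v = Y t w →
      (Nz.aoc J (fun s => (S.lo ix l).oc s (pi v)) t ↔ Nz.aoc J (fun s => (S.lo ix l).oc s (pi w)) t) := by
    intro t v w hv
    have h1 := hY t v w hv
    have h2 : Nz.cn (fun s => (S.lo ix l).oc s (pi v)) t = Nz.cn (fun s => (S.lo ix l).oc s (pi w)) t :=
      Nz.cn_congr fun s hs => oc_iff (hle (by omega) h1)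
    unfold Nz.aoc
    rw [h2]
    exact and_congr (oc_iff h1) Iff.rfl
  have step : ∀ t ∈ range N, P.Hc (S.LFn ix Rz J n0 pi ν l (t + 1))
      (fun w => (S.LFn ix Rz J n0 pi ν l t w, Y (t + 1) w)) ≤
      P.Pr (fun w => S.pcn ix Rz J n0 pi ν l (t + 1) w ≠ none) *
        (1 + Real.log J + Real.log (Fintype.card (O → F'))) +
      1 / J * P.E (fun w => ind (Nz.aoc J (fun s => (S.lo ix l).oc s (pi w)) (t + 1))) := by
    intro t ht
    have htN : t + 1 < N + 1 := by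
      have := Finset.mem_range.1 ht
      omega
    have h1 := P.Hc_lab_le (Lb := S.LFn ix Rz J n0 pi ν l (t + 1)) (t := t) ⟨t + 1, htN⟩ rfl
      (fun w _ s hs => by
        rw [LFn_eq]
        unfold Nz.lab
        rw [if_neg (by omega)])
      (Y := Y (t + 1)) (oc := fun w => Nz.aoc J (fun s => (S.lo ix l).oc s (pi w)) (t + 1)) (hao (t + 1))
      (fun w _ hs => by
        rw [LFn_eq] at hs
        unfold Nz.lab at hs
        rw [if_pos (le_refl (t + 1))] at hs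
        have h2 := Nz.pub_act hs
        exact ⟨h2.1, h2.2.1⟩) hJ'
    have h2 : (fun w => (rst t (S.LFn ix Rz J n0 pi ν l (t + 1) w), Y (t + 1) w)) =
        fun w => (S.LFn ix Rz J n0 pi ν l t w, Y (t + 1) w) := by
      funext w
      have h3 : rst t (S.LFn ix Rz J n0 pi ν l (t + 1) w) = S.LFn ix Rz J n0 pi ν l t w :=
        LO.LF_rst _ Rz J n0 (ν l) t w
      rw [h3]
    have h3 : (fun w => S.LFn ix Rz J n0 pi ν l (t + 1) w ⟨t + 1, htN⟩ ≠ none) =
        fun w => S.pcn ix Rz J n0 pi ν l (t + 1) w ≠ none := by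
      funext w
      unfold pcn LO.pc
      rw [dif_pos htN]
      rfl
    rw [h2, h3] at h1
    exact h1
  refine (Finset.sum_le_sum step).trans ?_
  rw [Finset.sum_add_distrib, ← Finset.sum_mul, ← Finset.mul_sum, ← FP.E_sum]
  have h4 := pcn_count (S := S) (ix := ix) (Rz := Rz) (J := J) (n0 := n0) (pi := pi) (ν := ν) P l N
  have h5 : P.E (fun w => ∑ t ∈ range N, ind (Nz.aoc J (fun s => (S.lo ix l).oc s (pi w)) (t + 1))) ≤ J :=
    P.E_le_const fun w _ => Nz.aoc_count J _ N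
  have h6 : 1 / (J : ℝ) * P.E (fun w => ∑ t ∈ range N, ind (Nz.aoc J (fun s => (S.lo ix l).oc s (pi w)) (t + 1))) ≤ 1 := by
    calc 1 / (J : ℝ) * P.E (fun w => ∑ t ∈ range N, ind (Nz.aoc J (fun s => (S.lo ix l).oc s (pi w)) (t + 1))) ≤
        1 / (J : ℝ) * J := mul_le_mul_of_nonneg_left h5 (by positivity)
      _ = 1 := by field_simp
  have h7 := mul_le_mul_of_nonneg_right h4 (show 0 ≤ 1 + Real.log J + Real.log (Fintype.card (O → F')) by linarith)
  linarith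

omit [Inhabited F'] in
/-- entropy of the first letter -/
theorem LFn_ent0 [Fintype O] [DecidableEq O] [Fintype F'] (P : FP Om2) (l : L) {ν' : Type} (Y : Om2 → ν') :
    P.Hc (S.LFn ix Rz J n0 pi ν l 0) Y ≤ Real.log (Fintype.card (O → F') + 1) := by
  classical
  have h1 : P.Hc (S.LFn ix Rz J n0 pi ν l 0) Y ≤
      P.Hc (fun w => S.LFn ix Rz J n0 pi ν l 0 w ⟨0, Nat.succ_pos N⟩) Y := by
    refine P.Hc_mono _ ?_
    intro v w hv
    simp only [Prod.mk.injEq] at hv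
    funext s
    rcases Nat.eq_zero_or_pos s.val with hs | hs
    · have : s = ⟨0, Nat.succ_pos N⟩ := Fin.ext hs
      rw [this]
      exact hv.1
    · rw [LFn_eq, LFn_eq]
      unfold Nz.lab
      rw [if_neg (by omega), if_neg (by omega)]
  refine h1.trans ((P.Hc_le_H _ _).trans ((P.H_le_log_card _).trans (le_of_eq ?_)))
  rw [Fintype.card_option]
  push_cast
  rfl

/-! ### mass of the errors -/

omit [Inhabited F'] in
/-- **MASS OF THE ERRORS** -/
theorem dn_le [Fintype L] [Fintype O] [DecidableEq O] [Fintype F'] (hP : Pul P2 S.P pi)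
    (hν : ∀ l, NuLaw P2 S.P pi (ν l)) (h : S.toGRD.Hyp) (hJ : 0 < J) (hn : 0 < n0) {nf q0 : ℝ}
    (hq : S.P.Pr (S.D0 N) ≤ q0) (hf : ∀ l, ∑ t ∈ range N, S.P.Pr (fun w => S.f l (t + 1) w ≠ S.f l t w) ≤ nf) :
    P2.Pr (S.dn ix Rz J n0 pi ν N) ≤ q0 + Fintype.card L * ((J : ℝ) / (Rz + 1) +
      (1 + 2 ^ Fintype.card ι * (Fintype.card L * nf) / S.al 0) / J + (1 + nf) / n0) := by
  classical
  have hal := h.al0 0
  have hnt : S.toGRD.ntot N ≤ Fintype.card L * nf := by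
    unfold GRD.ntot
    refine (Finset.sum_le_sum fun l _ => hf l).trans (le_of_eq ?_)
    rw [Finset.sum_const, Finset.card_univ, nsmul_eq_mul]
  have h1 : ∀ l, P2.Pr (fun w => ((S.lo ix l).pull pi).bad Rz J n0 (ν l) N w) ≤ (J : ℝ) / (Rz + 1) +
      (1 + 2 ^ Fintype.card ι * (Fintype.card L * nf) / S.al 0) / J + (1 + nf) / n0 := by
    intro l
    refine LO.bad_le hP (hν l) hJ hn ?_ ?_
    · have h2 := GRD.cS_count h l N
      have h3 : S.al 0 * ∑ t ∈ range N, S.P.Pr (S.toGRD.cS l t) ≤ 2 ^ Fintype.card ι * (Fintype.card L * nf) :=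
        h2.trans (mul_le_mul_of_nonneg_left hnt (by positivity))
      rw [le_div_iff₀ hal, mul_comm]
      exact h3
    · exact (GRD.sum_rec (R := S.toGRD) l N).trans (hf l)
  have h2 : P2.Pr (S.dn ix Rz J n0 pi ν N) ≤ P2.Pr (fun w => S.D0 N (pi w)) +
      P2.Pr (fun w => ∃ l ∈ (univ : Finset L), ((S.lo ix l).pull pi).bad Rz J n0 (ν l) N w) := by
    refine le_trans (P2.Pr_mono fun w _ hw => ?_) (P2.Pr_or_le _ _)
    rcases hw with hw | ⟨l, hw⟩
    · exact Or.inl hw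
    · exact Or.inr ⟨l, Finset.mem_univ _, hw⟩
  have h3 := P2.Pr_ex_le (univ : Finset L) (fun l w => ((S.lo ix l).pull pi).bad Rz J n0 (ν l) N w)
  have h4 := Finset.sum_le_sum fun l (_ : l ∈ (univ : Finset L)) => h1 l
  rw [Finset.sum_const, Finset.card_univ, nsmul_eq_mul] at h4
  rw [hP.Pr (S.D0 N)] at h2
  linarith

end noise

end GRT

/-! ## from `RawR` to the view with noise -/

namespace GRT.RawR

variable {Om Om2 : Type} [Fintype Om] [Fintype Om2] {κ : ℕ → Type} {α β ι L O E F' : Type} [Fintype ι] [DecidableEq ι]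
  [Fintype O] [Inhabited O] {S : GRT Om κ α β ι L (O → F') E F'} {ix : ℕ → Om → O} {D : ℕ → Om → ℝ}
  {dK : E × (L → F') → ℕ → Om → ℝ} {che zr : ℕ → Om → Prop} {N M : ℕ} {cT ne nf q0 q1 : ℝ}
  (R : S.RawR ix D dK che zr N M cT ne nf q0 q1) {P2 : FP Om2} {pi : Om2 → Om} {Rz J n0 : ℕ}
  {ν : L → Om2 → Fin (N + 1) → Nz.Ns Rz (O → Fin (M + 1))}

/-- the published letters of the numbered process -/
noncomputable def lets (S : GRT Om κ α β ι L (O → F') E F') (ix : ℕ → Om → O) (Rz J n0 M : ℕ) (pi : Om2 → Om)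
    (ν : L → Om2 → Fin (N + 1) → Nz.Ns Rz (O → Fin (M + 1))) (l : L) (t : ℕ) (w : Om2) :
    Fin (N + 1) → Option (O → Fin (M + 1)) := (S.numd ix M).LFn ix Rz J n0 pi ν l t w

/-- errors with noise -/
def errs (S : GRT Om κ α β ι L (O → F') E F') (ix : ℕ → Om → O) (Rz J n0 M : ℕ) (pi : Om2 → Om)
    (ν : L → Om2 → Fin (N + 1) → Nz.Ns Rz (O → Fin (M + 1))) (t : ℕ) (w : Om2) : Prop :=
  (S.numd ix M).dn ix Rz J n0 pi ν t w

/-- mass of the errors with noise -/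
noncomputable def qe (S : GRT Om κ α β ι L (O → F') E F') [Fintype L] (Rz J n0 : ℕ) (nf q0 q1 : ℝ) : ℝ :=
  q0 + q1 + Fintype.card L * ((J : ℝ) / (Rz + 1) +
    (1 + 2 ^ Fintype.card ι * (Fintype.card L * nf) / S.al 0) / J + (1 + nf) / n0)

/-- the error of the view with noise -/
noncomputable def qn (S : GRT Om κ α β ι L (O → F') E F') [Fintype L] (Rz J n0 M : ℕ) (ne nf q0 q1 r1 : ℝ) : ℝ :=
  qe S Rz J n0 nf q0 q1 + Fintype.card L * S.toGRD.top * (ne + 2 ^ Fintype.card ι * (Fintype.card L * nf) +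
    3 * (((M : ℝ) + 1) ^ (Fintype.card L + 1) * (S.Lam / r1)))

/-- the created entropy of the letters with noise -/
noncomputable def hn (O : Type) [Fintype O] (J n0 M : ℕ) : ℝ :=
  Real.log (((M : ℝ) + 1) ^ Fintype.card O + 1) +
    (2 * n0 * (1 + Real.log J + Fintype.card O * Real.log ((M : ℝ) + 1)) + 1)

theorem card_phi [DecidableEq O] : (Fintype.card (O → Fin (M + 1)) : ℝ) = ((M : ℝ) + 1) ^ Fintype.card O := by
  rw [Fintype.card_fun, Fintype.card_fin]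
  push_cast
  rfl

include R

theorem hyp2 (hP : Pul P2 S.P pi) : ((S.numd ix M).pulr P2 pi (errs S ix Rz J n0 M pi ν)).HypT :=
  pulr_hypT (S := S.numd ix M) hP _ R.hypN (fun _ _ hw h => dn_inc R.hypN (hP.ne hw) h) (fun _ _ _ h => Or.inl h)

theorem steps2 (hP : Pul P2 S.P pi) : ((S.numd ix M).pulr P2 pi (errs S ix Rz J n0 M pi ν)).Steps
    (fun t w => D t (pi w)) (fun v t w => S.Kn M dK v t (pi w)) (fun t w => che t (pi w)) (fun t w => zr t (pi w)) cT :=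
  pulr_steps (S := S.numd ix M) hP _ R.stepsN (fun _ _ h => Or.inl h)

theorem pubL2 (hP : Pul P2 S.P pi) {ζ : L → ℕ → Type} {AL : ∀ l t, Om2 → ζ l t}
    (hAL : ∀ l t, Fac (AL l t) (lets S ix Rz J n0 M pi ν l t)) :
    ((S.numd ix M).pulr P2 pi (errs S ix Rz J n0 M pi ν)).PubL AL (lets S ix Rz J n0 M pi ν)
      ((S.numd ix M).xn ix Rz J n0 pi ν) (errs S ix Rz J n0 M pi ν)
      (fun l t w => (S.numd ix M).pcn ix Rz J n0 pi ν l (t + 1) w ≠ none) :=
  pubL_R (S := S.numd ix M) hP R.hypN R.hyp.ixf (fun _ _ _ => rfl) hAL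

variable [Fintype L] [DecidableEq L] [DecidableEq O] {ζ ζ' : L → ℕ → Type} {AL : ∀ l t, Om2 → ζ l t}
  {ZL : ∀ l t, Om2 → ζ' l t}

theorem errs_le (hP : Pul P2 S.P pi) (hν : ∀ l, NuLaw P2 S.P pi (ν l)) (hJ : 0 < J) (hn : 0 < n0) :
    P2.Pr (errs S ix Rz J n0 M pi ν N) ≤ qe S Rz J n0 nf q0 q1 :=
  dn_le (S := S.numd ix M) (ix := ix) hP hν R.hypN.hyp hJ hn R.D0N R.fJN

omit [DecidableEq O] in
theorem nt2 (hP : Pul P2 S.P pi) : ((S.numd ix M).pulr P2 pi (errs S ix Rz J n0 M pi ν)).toGRD.ntot N ≤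
    Fintype.card L * nf := by
  have h1 := R.ntotN
  rw [← GRD.pulr_ntot (R := (S.numd ix M).toGRD) (P := P2) (pi := pi) hP N] at h1
  exact h1

/-- **THE VIEW WITH NOISE** -/
noncomputable def viewN (hP : Pul P2 S.P pi) (hν : ∀ l, NuLaw P2 S.P pi (ν l)) (hJ : 0 < J) (hn0 : 0 < n0)
    (hAL : ∀ l t, Fac (AL l t) (lets S ix Rz J n0 M pi ν l t))
    (hAQ : ∀ l t, Fac (AL l t) (fun w => S.toGRD.AQ (S.S l) t (pi w))) (hAf : ∀ l, Filt (AL l))
    (hZL : ∀ l t v w, ZL l t v = ZL l t w → S.toGRD.ZJ (S.S l) t (pi v) = S.toGRD.ZJ (S.S l) t (pi w))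
    {r1 rmin : ℝ} (hr1 : 0 < r1) (hr1' : r1 ≤ 1 / 2) (hr0 : 2 * S.eta + r1 ≤ rmin) :
    GV P2 N (fun t w => S.toGRD.Z t (pi w)) (fun t w => D t (pi w)) AL ZL (fun t w => S.T t (pi w))
      (fun t w => che t (pi w)) (fun t w => zr t (pi w)) :=
  gvOf (S := (S.numd ix M).pulr P2 pi (errs S ix Rz J n0 M pi ν)) (AL := AL) (ZL := ZL) (N := N) (ne := ne)
    (nt := Fintype.card L * nf) (r1 := r1) (rmin := rmin) (q := qn S Rz J n0 M ne nf q0 q1 r1) (J := ne + nf + 2 * n0)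
    (hb := hn O J n0 M) (R.hyp2 hP) (R.pubL2 hP hAL) (R.steps2 hP) hr1 hr1' hr0
    (by
      refine le_trans (le_of_eq ?_) R.eJ
      exact Finset.sum_congr rfl fun t _ => hP.Pr (che t))
    (R.nt2 hP)
    (by
      have h1 := R.errs_le hP hν hJ hn0
      unfold qrun qn
      rw [card_val]
      have e2 : ((S.numd ix M).pulr P2 pi (errs S ix Rz J n0 M pi ν)).Lam = S.Lam := rfl
      have e3 : ((S.numd ix M).pulr P2 pi (errs S ix Rz J n0 M pi ν)).toGRD.top = S.toGRD.top := rfl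
      have e4 : ((S.numd ix M).pulr P2 pi (errs S ix Rz J n0 M pi ν)).P = P2 := rfl
      rw [e2, e3, e4]
      linarith)
    (by
      have h1 : (0 : ℝ) ≤ n0 := Nat.cast_nonneg _
      linarith [R.nf0])
    (fun l t v w hv => ⟨R.hypN.hyp.ff l (t + 1) _ _ (hAQ l (t + 1) v w hv),
      R.hypN.hyp.ff l t _ _ (hAQ l t v w (hAf l t v w hv))⟩)
    (fun l => by
      have h1 : (0 : ℝ) ≤ n0 := Nat.cast_nonneg _
      have h2 : ∑ t ∈ range N, P2.Pr (fun w => (S.numd ix M).f l (t + 1) (pi w) ≠ (S.numd ix M).f l t (pi w)) ≤ nf := by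
        refine le_trans (le_of_eq ?_) (R.fJN l)
        exact Finset.sum_congr rfl fun t _ => hP.Pr fun w => (S.numd ix M).f l (t + 1) w ≠ (S.numd ix M).f l t w
      have h3 := R.ne0
      have h4 := R.nf0
      refine le_trans h2 ?_
      linarith)
    (fun l => by
      have h2 := pcn_count (S := S.numd ix M) (ix := ix) (Rz := Rz) (J := J) (n0 := n0) (pi := pi) (ν := ν) P2 l N
      have h3 := R.ne0
      have h4 := R.nf0
      refine le_trans h2 ?_
      linarith)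
    (fun l => by
      have h1 := LFn_ent0 (S := S.numd ix M) (ix := ix) (Rz := Rz) (J := J) (n0 := n0) (pi := pi) (ν := ν) P2 l (ZL l 0)
      rw [card_phi] at h1
      have h2 : (0 : ℝ) ≤ 2 * n0 * (1 + Real.log J + Fintype.card O * Real.log ((M : ℝ) + 1)) + 1 := by
        have h3 : 0 ≤ Real.log J := Real.log_nonneg (by exact_mod_cast hJ)
        have h4 : 0 ≤ Real.log ((M : ℝ) + 1) := Real.log_nonneg (by linarith [Nat.cast_nonneg (α := ℝ) M])
        positivity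
      refine le_trans h1 ?_
      unfold hn
      linarith)
    (fun l => by
      have h1 := LFn_ent (S := S.numd ix M) (ix := ix) (Rz := Rz) (J := J) (n0 := n0) (pi := pi) (ν := ν) P2
        R.hypN.hyp (l := l) (Y := ZL l) (fun t v w hv => hZL l t v w hv) hJ
      rw [card_phi, Real.log_pow] at h1
      have h2 : (0 : ℝ) ≤ Real.log (((M : ℝ) + 1) ^ Fintype.card O + 1) := by
        apply Real.log_nonneg
        have : (0 : ℝ) ≤ ((M : ℝ) + 1) ^ Fintype.card O := by positivity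
        linarith
      refine le_trans h1 ?_
      unfold hn
      linarith)

theorem viewN_q (hP : Pul P2 S.P pi) (hν : ∀ l, NuLaw P2 S.P pi (ν l)) (hJ : 0 < J) (hn0 : 0 < n0)
    (hAL : ∀ l t, Fac (AL l t) (lets S ix Rz J n0 M pi ν l t))
    (hAQ : ∀ l t, Fac (AL l t) (fun w => S.toGRD.AQ (S.S l) t (pi w))) (hAf : ∀ l, Filt (AL l))
    (hZL : ∀ l t v w, ZL l t v = ZL l t w → S.toGRD.ZJ (S.S l) t (pi v) = S.toGRD.ZJ (S.S l) t (pi w))
    {r1 rmin : ℝ} (hr1 : 0 < r1) (hr1' : r1 ≤ 1 / 2) (hr0 : 2 * S.eta + r1 ≤ rmin) :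
    (R.viewN hP hν hJ hn0 hAL hAQ hAf hZL hr1 hr1' hr0).q = qn S Rz J n0 M ne nf q0 q1 r1 ∧
      (R.viewN hP hν hJ hn0 hAL hAQ hAf hZL hr1 hr1' hr0).J = ne + nf + 2 * n0 ∧
      (R.viewN hP hν hJ hn0 hAL hAQ hAf hZL hr1 hr1' hr0).hb = hn O J n0 M ∧
      (R.viewN hP hν hJ hn0 hAL hAQ hAf hZL hr1 hr1' hr0).eta = S.eta ∧
      (R.viewN hP hν hJ hn0 hAL hAQ hAf hZL hr1 hr1' hr0).a6 = Fintype.card L * S.toGRD.top ∧
      (R.viewN hP hν hJ hn0 hAL hAQ hAf hZL hr1 hr1' hr0).rmin = rmin ∧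
      (R.viewN hP hν hJ hn0 hAL hAQ hAf hZL hr1 hr1' hr0).cb = cT + 1 :=
  ⟨rfl, rfl, rfl, rfl, rfl, rfl, rfl⟩

end GRT.RawR

end Pool.Agent.GM
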