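import Pool.Agent.GM.RawN

/-!
# GM/RawW (helper95): the view with noise for WEAK label classes (coin of the moving face), row G2B

A label class `AL l` need not know the whole hidden vertex: it is enough that it is a filtration and knows the vertices of
the label with the node, the noise of the label and the label itself (`GRT.Weak`).
* `GRD.y_iff_w`, `b_iff_w` : young labels are functions of the closings and of the label;
* `GRT.lets_w`, `GRT.numf_w` : the letters and the numbered labels;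
* **`RawR.viewW`** : the view with noise for weak classes, the same sizes.
-/

set_option autoImplicit false
set_option linter.unusedSectionVars false

namespace Pool.Agent.GM

open Finset Pool.Agent.PWZ Pool.Agent.M3

namespace GRD

variable {Om : Type} [Fintype Om] {κ : ℕ → Type} {α β ι L F : Type} [Fintype ι] [DecidableEq ι]
  {R : GRD Om κ α β ι L F}

theorem y_iff_w {l : L} (t : ℕ) : ∀ {v w : Om}, (∀ s ≤ t, R.ZJ (R.S l) s v = R.ZJ (R.S l) s w) →
    (∀ s ≤ t, R.f l s v = R.f l s w) → (R.y t l v ↔ R.y t l w) := by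
  induction t with
  | zero => intro v w _ _; exact Iff.rfl
  | succ t ih =>
    intro v w hZ hf
    rw [y_succ_iff, y_succ_iff, cS_iff (hZ (t + 1) le_rfl)]
    refine and_congr_left fun _ => ?_
    unfold b
    rw [ih (fun s hs => hZ s (hs.trans (Nat.le_succ t))) (fun s hs => hf s (hs.trans (Nat.le_succ t))),
      hf (t + 1) le_rfl, hf t (Nat.le_succ t)]

theorem b_iff_w {l : L} {t : ℕ} {v w : Om} (hZ : ∀ s ≤ t, R.ZJ (R.S l) s v = R.ZJ (R.S l) s w)
    (hf : ∀ s ≤ t + 1, R.f l s v = R.f l s w) : R.b t l v ↔ R.b t l w := by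
  unfold b
  rw [y_iff_w t hZ (fun s hs => hf s (hs.trans (Nat.le_succ t))), hf (t + 1) le_rfl, hf t (Nat.le_succ t)]

end GRD

namespace GRT

/-- WEAK LABEL CLASSES: they know the vertices of the label with the node, the noise and the label -/
structure Weak {Om Om2 : Type} [Fintype Om] {κ : ℕ → Type} {α β ι L F E F' ψ : Type} (S : GRT Om κ α β ι L F E F')
    (pi : Om2 → Om) (ν : L → Om2 → ψ) {ζ : L → ℕ → Type} (AL : ∀ l t, Om2 → ζ l t) : Prop where
  filt : ∀ l, Filt (AL l)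
  Z : ∀ l t, Fac (AL l t) (fun w => S.toGRD.ZJ (S.S l) t (pi w))
  nu : ∀ l t, Fac (AL l t) (ν l)
  f : ∀ l t, Fac (AL l t) (fun w => S.f l t (pi w))

section weak

variable {Om Om2 : Type} [Fintype Om] [Fintype Om2] {κ : ℕ → Type} {α β ι L O E F' : Type} [Fintype ι] [DecidableEq ι]
  [Fintype O] [Inhabited O] {S : GRT Om κ α β ι L (O → F') E F'} {ix : ℕ → Om → O} {N M : ℕ} {Rz J n0 : ℕ} {pi : Om2 → Om}
  {ν : L → Om2 → Fin (N + 1) → Nz.Ns Rz (O → Fin (M + 1))} {ζ : L → ℕ → Type} {AL : ∀ l t, Om2 → ζ l t}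

/-- the numbered label -/
theorem numf_w (ix : ℕ → Om → O) (M : ℕ) {ψ : Type} {ν : L → Om2 → ψ} (hQ : Filt S.Q) (W : S.Weak pi ν AL) (l : L) (t : ℕ) :
    Fac (AL l t) (fun w => (S.numd ix M).f l t (pi w)) := by
  intro v w hv
  have h1 : S.toGRD.ZJ (S.S l) t (pi v) = S.toGRD.ZJ (S.S l) t (pi w) := W.Z l t v w hv
  have h2 : S.f l t (pi v) = S.f l t (pi w) := W.f l t v w hv
  funext o
  have h3 : Fac (fun p : Om × O => (S.toGRD.ZJ (S.S l) t p.1, S.f l t p.1, p.2))
      (num (Nm.tw (O := O) (S.toGRD.ZJ (S.S l))) (Nm.cp (S.f l)) M t) := by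
    refine num_fac (Nm.tw_filt (ZJ_filt' hQ (S.S l))) (fun p q hp => ?_) (fun p q hp => ?_) M
    · exact congrArg Prod.fst hp
    · simp only [Prod.mk.injEq] at hp
      show S.f l t p.1 p.2 = S.f l t q.1 q.2
      rw [hp.2.1, hp.2.2]
  exact h3 (pi v, o) (pi w, o) (Prod.ext h1 (Prod.ext h2 rfl))

/-- **the letters** -/
theorem lets_w (hQ : Filt S.Q) (W : S.Weak pi ν AL) (l : L) (t : ℕ) :
    Fac (AL l t) (RawR.lets S ix Rz J n0 M pi ν l t) := by
  intro v w hv
  have hle : ∀ s ≤ t, AL l s v = AL l s w := fun s hs => (W.filt l).le hs v w hv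
  have hZ : ∀ s ≤ t, (S.numd ix M).toGRD.ZJ ((S.numd ix M).S l) s (pi v) =
      (S.numd ix M).toGRD.ZJ ((S.numd ix M).S l) s (pi w) := fun s hs => W.Z l s v w (hle s hs)
  have hf : ∀ s ≤ t, (S.numd ix M).f l s (pi v) = (S.numd ix M).f l s (pi w) := fun s hs =>
    numf_w ix M hQ W l s v w (hle s hs)
  show (S.numd ix M).LFn ix Rz J n0 pi ν l t v = (S.numd ix M).LFn ix Rz J n0 pi ν l t w
  rw [LFn_eq, LFn_eq, W.nu l t v w hv]
  funext s
  unfold Nz.lab
  by_cases hs : s.val ≤ t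
  · rw [if_pos hs, if_pos hs]
    refine Nz.pub_congr (t := t) (fun r hr => oc_iff (hZ r hr)) (fun r hr => ?_) (fun _ _ => rfl) s.val hs
    cases r with
    | zero =>
      show some ((S.numd ix M).f l 0 (pi v)) = some ((S.numd ix M).f l 0 (pi w))
      rw [hf 0 hr]
    | succ r =>
      classical
      have h1 : ((S.numd ix M).toGRD.cS l r (pi v) ∧ (S.numd ix M).toGRD.b r l (pi v)) ↔
          ((S.numd ix M).toGRD.cS l r (pi w) ∧ (S.numd ix M).toGRD.b r l (pi w)) :=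
        and_congr (GRD.cS_iff (hZ (r + 1) hr)) (GRD.b_iff_w (R := (S.numd ix M).toGRD) (fun s hs' => hZ s (by omega))
          (fun s hs' => hf s (hs'.trans hr)))
      rw [LO.tc_succ, LO.tc_succ]
      by_cases hc : (S.numd ix M).toGRD.cS l r (pi w) ∧ (S.numd ix M).toGRD.b r l (pi w)
      · rw [if_pos (show ((S.numd ix M).lo ix l).cl r (pi w) ∧ ((S.numd ix M).lo ix l).bb r (pi w) from hc),
          if_pos (show ((S.numd ix M).lo ix l).cl r (pi v) ∧ ((S.numd ix M).lo ix l).bb r (pi v) from h1.2 hc)]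
        show some ((S.numd ix M).f l (r + 1) (pi v)) = some ((S.numd ix M).f l (r + 1) (pi w))
        rw [hf (r + 1) hr]
      · rw [if_neg (show ¬ (((S.numd ix M).lo ix l).cl r (pi w) ∧ ((S.numd ix M).lo ix l).bb r (pi w)) from hc),
          if_neg (show ¬ (((S.numd ix M).lo ix l).cl r (pi v) ∧ ((S.numd ix M).lo ix l).bb r (pi v)) from
            fun h' => hc (h1.1 h'))]
  · rw [if_neg hs, if_neg hs]

end weak

end GRT

namespace GRT.RawR

variable {Om Om2 : Type} [Fintype Om] [Fintype Om2] {κ : ℕ → Type} {α β ι L O E F' : Type} [Fintype ι] [DecidableEq ι]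
  [Fintype O] [Inhabited O] {S : GRT Om κ α β ι L (O → F') E F'} {ix : ℕ → Om → O} {D : ℕ → Om → ℝ}
  {dK : E × (L → F') → ℕ → Om → ℝ} {che zr : ℕ → Om → Prop} {N M : ℕ} {cT ne nf q0 q1 : ℝ}
  (R : S.RawR ix D dK che zr N M cT ne nf q0 q1) {P2 : FP Om2} {pi : Om2 → Om} {Rz J n0 : ℕ}
  {ν : L → Om2 → Fin (N + 1) → Nz.Ns Rz (O → Fin (M + 1))} [Fintype L] [DecidableEq L] [DecidableEq O]
  {ζ ζ' : L → ℕ → Type} {AL : ∀ l t, Om2 → ζ l t} {ZL : ∀ l t, Om2 → ζ' l t}

/-- **THE VIEW WITH NOISE, weak classes** -/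
noncomputable def viewW (hP : Pul P2 S.P pi) (hν : ∀ l, NuLaw P2 S.P pi (ν l)) (hJ : 0 < J) (hn0 : 0 < n0)
    (W : S.Weak pi ν AL)
    (hZL : ∀ l t v w, ZL l t v = ZL l t w → S.toGRD.ZJ (S.S l) t (pi v) = S.toGRD.ZJ (S.S l) t (pi w))
    {r1 rmin : ℝ} (hr1 : 0 < r1) (hr1' : r1 ≤ 1 / 2) (hr0 : 2 * S.eta + r1 ≤ rmin) :
    GV P2 N (fun t w => S.toGRD.Z t (pi w)) (fun t w => D t (pi w)) AL ZL (fun t w => S.T t (pi w))
      (fun t w => che t (pi w)) (fun t w => zr t (pi w)) :=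
  gvOf (S := (S.numd ix M).pulr P2 pi (errs S ix Rz J n0 M pi ν)) (AL := AL) (ZL := ZL) (N := N) (ne := ne)
    (nt := Fintype.card L * nf) (r1 := r1) (rmin := rmin) (q := qn S Rz J n0 M ne nf q0 q1 r1) (J := ne + nf + 2 * n0)
    (hb := hn O J n0 M) (R.hyp2 hP) (R.pubL2 hP (lets_w R.hyp.hyp.filt W)) (R.steps2 hP) hr1 hr1' hr0
    (by
      refine le_trans (le_of_eq ?_) R.eJ
      exact Finset.sum_congr rfl fun t _ => hP.Pr (che t))
    (R.nt2 hP)
    (by
      have h1 := R.errs_le hP hν hJ hn0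
      unfold qrun qn
      rw [card_val]
      have e2 : ((S.numd ix M).pulr P2 pi (errs S ix Rz J n0 M pi ν)).Lam = S.Lam := rfl
      have e3 : ((S.numd ix M).pulr P2 pi (errs S ix Rz J n0 M pi ν)).toGRD.top = S.toGRD.top := rfl
      have e4 : ((S.numd ix M).pulr P2 pi (errs S ix Rz J n0 M pi ν)).P = P2 := rfl
      rw [e2, e3, e4]
      linarith)
    (by
      have h1 : (0 : ℝ) ≤ n0 := Nat.cast_nonneg _
      linarith [R.nf0])
    (fun l t v w hv => ⟨numf_w ix M R.hyp.hyp.filt W l (t + 1) v w hv,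
      numf_w ix M R.hyp.hyp.filt W l t v w (W.filt l t v w hv)⟩)
    (fun l => by
      have h1 : (0 : ℝ) ≤ n0 := Nat.cast_nonneg _
      have h2 : ∑ t ∈ range N, P2.Pr (fun w => (S.numd ix M).f l (t + 1) (pi w) ≠ (S.numd ix M).f l t (pi w)) ≤ nf := by
        refine le_trans (le_of_eq ?_) (R.fJN l)
        exact Finset.sum_congr rfl fun t _ => hP.Pr fun w => (S.numd ix M).f l (t + 1) w ≠ (S.numd ix M).f l t w
      have h3 := R.ne0
      have h4 := R.nf0
      refine le_trans h2 ?_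
      linarith)
    (fun l => by
      have h2 := pcn_count (S := S.numd ix M) (ix := ix) (Rz := Rz) (J := J) (n0 := n0) (pi := pi) (ν := ν) P2 l N
      have h3 := R.ne0
      have h4 := R.nf0
      refine le_trans h2 ?_
      linarith)
    (fun l => by
      have h1 := LFn_ent0 (S := S.numd ix M) (ix := ix) (Rz := Rz) (J := J) (n0 := n0) (pi := pi) (ν := ν) P2 l (ZL l 0)
      rw [card_phi] at h1
      have h2 : (0 : ℝ) ≤ 2 * n0 * (1 + Real.log J + Fintype.card O * Real.log ((M : ℝ) + 1)) + 1 := by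
        have h3 : 0 ≤ Real.log J := Real.log_nonneg (by exact_mod_cast hJ)
        have h4 : 0 ≤ Real.log ((M : ℝ) + 1) := Real.log_nonneg (by linarith [Nat.cast_nonneg (α := ℝ) M])
        positivity
      refine le_trans h1 ?_
      unfold hn
      linarith)
    (fun l => by
      have h1 := LFn_ent (S := S.numd ix M) (ix := ix) (Rz := Rz) (J := J) (n0 := n0) (pi := pi) (ν := ν) P2
        R.hypN.hyp (l := l) (Y := ZL l) (fun t v w hv => hZL l t v w hv) hJ
      rw [card_phi, Real.log_pow] at h1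
      have h2 : (0 : ℝ) ≤ Real.log (((M : ℝ) + 1) ^ Fintype.card O + 1) := by
        apply Real.log_nonneg
        have : (0 : ℝ) ≤ ((M : ℝ) + 1) ^ Fintype.card O := by positivity
        linarith
      refine le_trans h1 ?_
      unfold hn
      linarith)

theorem viewW_q (hP : Pul P2 S.P pi) (hν : ∀ l, NuLaw P2 S.P pi (ν l)) (hJ : 0 < J) (hn0 : 0 < n0)
    (W : S.Weak pi ν AL)
    (hZL : ∀ l t v w, ZL l t v = ZL l t w → S.toGRD.ZJ (S.S l) t (pi v) = S.toGRD.ZJ (S.S l) t (pi w))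
    {r1 rmin : ℝ} (hr1 : 0 < r1) (hr1' : r1 ≤ 1 / 2) (hr0 : 2 * S.eta + r1 ≤ rmin) :
    (R.viewW hP hν hJ hn0 W hZL hr1 hr1' hr0).q = qn S Rz J n0 M ne nf q0 q1 r1 ∧
      (R.viewW hP hν hJ hn0 W hZL hr1 hr1' hr0).J = ne + nf + 2 * n0 ∧
      (R.viewW hP hν hJ hn0 W hZL hr1 hr1' hr0).hb = hn O J n0 M ∧
      (R.viewW hP hν hJ hn0 W hZL hr1 hr1' hr0).eta = S.eta ∧
      (R.viewW hP hν hJ hn0 W hZL hr1 hr1' hr0).a6 = Fintype.card L * S.toGRD.top ∧
      (R.viewW hP hν hJ hn0 W hZL hr1 hr1' hr0).rmin = rmin ∧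
      (R.viewW hP hν hJ hn0 W hZL hr1 hr1' hr0).cb = cT + 1 :=
  ⟨rfl, rfl, rfl, rfl, rfl, rfl, rfl⟩

end GRT.RawR

end Pool.Agent.GM
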