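import Pool.Agent.M3.FPMart
import Pool.Agent.GM.Dep

/-!
# GM/Rd: recorded labels, every set of known vertices (row G2B of table gm), helper7

One view, abstract: `Q t` public node (filtration), `A` hidden vertex (with its coins), `X w : ι → β` the known vertices,
true labels `f l t`, `l : L`: functions of `(A, x_I, Q t)`, `I = S l ≠ univ`. THRESHOLDS `al s`. INDEX `t` of
`b, st, cl, cS` = level `t+1`.
* `y t l w` young: `f l` has changed since it was last recorded (end of level `t`); `b t l w` young before the rules;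
* at the level `t+1` the stages `s = 0, 1, ..`: `st t s l w` young after the stages `< s`; CLOSING `cl J t w` of `x_J`
  (`|J| = s`): some label `l` with `J ⊆ S l` has young mass `>= al s` given `(x_J, Q (t+1))`: all these labels are recorded;
* `y_succ : y (t+1) l w ↔ b t l w ∧ ∀ J ⊆ S l, ¬ cl J t w`;
* `rc l` recorded labels, `utd t` = nothing is young, `cS l t` = the label `l` is recorded at the level `t+1`.
-/

set_option autoImplicit false
set_option linter.unusedSectionVars false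

namespace Pool.Agent.GM

open Finset Pool.Agent.PWZ Pool.Agent.M3

/-- data of one view -/
structure GRD (Om : Type*) [Fintype Om] (κ : ℕ → Type*) (α β ι L F : Type*) where
  P : FP Om
  Q : ∀ t, Om → κ t
  A : Om → α
  X : Om → ι → β
  S : L → Finset ι
  f : L → ℕ → Om → F
  al : ℕ → ℝ

variable {Om : Type*} [Fintype Om] {κ : ℕ → Type*} {α β ι L F : Type*} [Fintype ι] [DecidableEq ι]

namespace GRD

noncomputable section

variable (R : GRD Om κ α β ι L F)

/-- the node with all known vertices -/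
def Z (t : ℕ) (w : Om) : (ι → β) × κ t := (R.X w, R.Q t w)

/-- the node with the known vertices of `J` -/
def ZJ (J : Finset ι) (t : ℕ) (w : Om) : ({i // i ∈ J} → β) × κ t := (res J (R.X w), R.Q t w)

/-- what a label on `I` may depend on -/
def AQ (I : Finset ι) (t : ℕ) (w : Om) : α × ({i // i ∈ I} → β) × κ t := (R.A w, res I (R.X w), R.Q t w)

/-- closing of `x_J` at the level `t`, from the events young before the stage -/
def clo (t : ℕ) (y : L → Om → Prop) (J : Finset ι) (w : Om) : Prop :=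
  ∃ l, J ⊆ R.S l ∧ R.al J.card ≤ R.P.ce (R.ZJ J t) (fun v => ind (y l v)) w

/-- young after the stages `< s` of the level `t` -/
def stg (t : ℕ) (y : L → Om → Prop) : ℕ → L → Om → Prop
  | 0 => y
  | s + 1 => fun l w => stg t y s l w ∧ ∀ J, J ⊆ R.S l → J.card = s → ¬ R.clo t (stg t y s) J w

/-- young at the end of the level `t` -/
def y : ℕ → L → Om → Prop
  | 0 => fun _ _ => False
  | t + 1 => R.stg (t + 1) (fun l w => y t l w ∨ R.f l (t + 1) w ≠ R.f l t w) (Fintype.card ι + 1)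

/-- young at the level `t+1` before the rules -/
def b (t : ℕ) (l : L) (w : Om) : Prop := R.y t l w ∨ R.f l (t + 1) w ≠ R.f l t w

/-- young at the level `t+1` after the stages `< s` -/
def st (t s : ℕ) : L → Om → Prop := R.stg (t + 1) (R.b t) s

/-- CLOSING of `x_J` at the level `t+1` -/
def cl (J : Finset ι) (t : ℕ) (w : Om) : Prop := R.clo (t + 1) (R.st t J.card) J w

/-- the label `l` is recorded at the level `t+1` -/
def cS (l : L) (t : ℕ) (w : Om) : Prop := ∃ J, J ⊆ R.S l ∧ R.cl J t w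

theorem st_zero (t : ℕ) (l : L) (w : Om) : R.st t 0 l w ↔ R.b t l w := Iff.rfl

theorem st_succ (t s : ℕ) (l : L) (w : Om) :
    R.st t (s + 1) l w ↔ R.st t s l w ∧ ∀ J, J ⊆ R.S l → J.card = s → ¬ R.cl J t w := by
  constructor
  · rintro ⟨h1, h2⟩
    refine ⟨h1, fun J hJ hs hc => h2 J hJ hs ?_⟩
    unfold cl at hc
    rwa [hs] at hc
  · rintro ⟨h1, h2⟩
    refine ⟨h1, fun J hJ hs hc => h2 J hJ hs ?_⟩
    unfold cl
    rw [hs]
    exact hc

/-- young after the stages `< s` -/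
theorem st_iff (t s : ℕ) (l : L) (w : Om) :
    R.st t s l w ↔ R.b t l w ∧ ∀ J, J ⊆ R.S l → J.card < s → ¬ R.cl J t w := by
  induction s with
  | zero =>
    rw [st_zero]
    exact ⟨fun h => ⟨h, fun J _ h2 => absurd h2 (Nat.not_lt_zero _)⟩, fun h => h.1⟩
  | succ s ih =>
    rw [st_succ, ih]
    constructor
    · rintro ⟨⟨h1, h2⟩, h3⟩
      refine ⟨h1, fun J hJ hs => ?_⟩
      rcases Nat.lt_succ_iff_lt_or_eq.1 hs with h4 | h4
      · exact h2 J hJ h4
      · exact h3 J hJ h4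
    · rintro ⟨h1, h2⟩
      exact ⟨⟨h1, fun J hJ hs => h2 J hJ (Nat.lt_succ_of_lt hs)⟩, fun J hJ hs => h2 J hJ (by omega)⟩

theorem st_b {t s : ℕ} {l : L} {w : Om} (h : R.st t s l w) : R.b t l w := ((R.st_iff t s l w).1 h).1

theorem st_anti {t s s' : ℕ} (hs : s ≤ s') {l : L} {w : Om} (h : R.st t s' l w) : R.st t s l w := by
  rw [st_iff] at h ⊢
  exact ⟨h.1, fun J hJ hc => h.2 J hJ (lt_of_lt_of_le hc hs)⟩

theorem y_zero (l : L) (w : Om) : ¬ R.y 0 l w := fun h => h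

theorem y_succ' (t : ℕ) (l : L) (w : Om) : R.y (t + 1) l w ↔ R.st t (Fintype.card ι + 1) l w := Iff.rfl

theorem y_succ (t : ℕ) (l : L) (w : Om) :
    R.y (t + 1) l w ↔ R.b t l w ∧ ∀ J, J ⊆ R.S l → ¬ R.cl J t w := by
  rw [y_succ', st_iff]
  refine and_congr_right fun _ => forall_congr' fun J => ?_
  exact ⟨fun h hJ => h hJ (Nat.lt_succ_of_le (Finset.card_le_univ J)), fun h hJ _ => h hJ⟩

theorem y_succ_iff (t : ℕ) (l : L) (w : Om) : R.y (t + 1) l w ↔ R.b t l w ∧ ¬ R.cS l t w := by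
  rw [y_succ]
  refine and_congr_right fun _ => ?_
  unfold cS
  push Not
  rfl

theorem y_st {t s : ℕ} (hs : s ≤ Fintype.card ι + 1) {l : L} {w : Om} (h : R.y (t + 1) l w) : R.st t s l w :=
  R.st_anti hs ((R.y_succ' t l w).1 h)

theorem y_b {t : ℕ} {l : L} {w : Om} (h : R.y (t + 1) l w) : R.b t l w := ((R.y_succ t l w).1 h).1

/-- up to date -/
def utd (t : ℕ) (w : Om) : Prop := ∀ l, ¬ R.y t l w

theorem utd_zero (w : Om) : R.utd 0 w := fun l => R.y_zero l w

open Classical in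
/-- recorded label -/
def rc (l : L) : ℕ → Om → F
  | 0, w => R.f l 0 w
  | t + 1, w => if R.cS l t w then R.f l (t + 1) w else rc l t w

/-- the records of `l` up to `t` -/
def N (l : L) (t : ℕ) (w : Om) : Fin (t + 1) → F := fun s => R.rc l s.val w

/-- the view: known vertices, public node, records -/
def Vw (t : ℕ) (w : Om) : ((ι → β) × κ t) × (L → Fin (t + 1) → F) := (R.Z t w, fun l => R.N l t w)

/-- hypotheses on the view; `ind`: given `Q t` the hidden vertex and the known vertices are independent -/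
structure Hyp : Prop where
  filt : Filt R.Q
  S1 : ∀ l, R.S l ≠ univ
  ff : ∀ l t, Fac (R.AQ (R.S l) t) (R.f l t)
  ind : ∀ (J I : Finset ι) t (h : Om → ℝ), Fac (R.AQ I t) h → ∀ w, R.P.p w ≠ 0 →
    R.P.ce (R.ZJ J t) h w = R.P.ce (R.ZJ (J ∩ I) t) h w
  dbl : ∀ t (h : Om → ℝ), (∀ w, 0 ≤ h w) → ∀ w, R.P.p w ≠ 0 →
    R.P.ce (R.Z (t + 1)) h w ≤ 2 * R.P.ce (R.Z t) h w
  al0 : ∀ s, 0 < R.al s
  al1 : ∀ s, R.al s ≤ 1
  ab : ∀ s, s + 1 < Fintype.card ι → R.al s ≤ R.al (s + 1) ^ 2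

/-- the largest threshold -/
def top : ℝ := R.al (Fintype.card ι - 1)

/-! ## measurability -/

variable {R}

theorem ZJ_eq {J : Finset ι} {t : ℕ} {v w : Om} :
    R.ZJ J t v = R.ZJ J t w ↔ (∀ i ∈ J, R.X v i = R.X w i) ∧ R.Q t v = R.Q t w := by
  unfold ZJ
  rw [Prod.ext_iff, res_eq]

theorem AQ_eq {I : Finset ι} {t : ℕ} {v w : Om} :
    R.AQ I t v = R.AQ I t w ↔ R.A v = R.A w ∧ (∀ i ∈ I, R.X v i = R.X w i) ∧ R.Q t v = R.Q t w := by
  unfold AQ
  rw [Prod.ext_iff, Prod.ext_iff, res_eq]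

theorem Z_eq {t : ℕ} {v w : Om} : R.Z t v = R.Z t w ↔ R.X v = R.X w ∧ R.Q t v = R.Q t w := by
  unfold Z
  rw [Prod.ext_iff]

theorem Z_filt (h : R.Hyp) : Filt R.Z := by
  intro t v w hv
  rw [Z_eq] at hv ⊢
  exact ⟨hv.1, h.filt t v w hv.2⟩

theorem ZJ_filt (h : R.Hyp) (J : Finset ι) : Filt (R.ZJ J) := by
  intro t v w hv
  rw [ZJ_eq] at hv ⊢
  exact ⟨hv.1, h.filt t v w hv.2⟩

theorem ZJ_anti {J J' : Finset ι} (hJ : J ⊆ J') (t : ℕ) : Fac (R.ZJ J' t) (R.ZJ J t) := by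
  intro v w hv
  rw [ZJ_eq] at hv ⊢
  exact ⟨fun i hi => hv.1 i (hJ hi), hv.2⟩

theorem Z_fac_ZJ (J : Finset ι) (t : ℕ) : Fac (R.Z t) (R.ZJ J t) := by
  intro v w hv
  rw [Z_eq] at hv
  rw [ZJ_eq]
  exact ⟨fun i _ => congrFun hv.1 i, hv.2⟩

theorem ZJ_univ_fac (t : ℕ) : Fac (R.ZJ univ t) (R.Z t) := by
  intro v w hv
  rw [ZJ_eq] at hv
  rw [Z_eq]
  exact ⟨funext fun i => hv.1 i (mem_univ i), hv.2⟩

theorem ZJ_fac_Q (J : Finset ι) (t : ℕ) : Fac (R.ZJ J t) (R.Q t) := by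
  intro v w hv
  rw [ZJ_eq] at hv
  exact hv.2

theorem Z_fac_Q (t : ℕ) : Fac (R.Z t) (R.Q t) := (Z_fac_ZJ ∅ t).trans (ZJ_fac_Q ∅ t)

theorem AQ_fac_ZJ (I : Finset ι) (t : ℕ) : Fac (R.AQ I t) (R.ZJ I t) := by
  intro v w hv
  rw [AQ_eq] at hv
  rw [ZJ_eq]
  exact hv.2

theorem AQ_mono {I I' : Finset ι} (hI : I ⊆ I') (t : ℕ) : Fac (R.AQ I' t) (R.AQ I t) := by
  intro v w hv
  rw [AQ_eq] at hv ⊢
  exact ⟨hv.1, fun i hi => hv.2.1 i (hI hi), hv.2.2⟩

theorem AQ_filt (h : R.Hyp) (I : Finset ι) : Filt (R.AQ I) := by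
  intro t v w hv
  rw [AQ_eq] at hv ⊢
  exact ⟨hv.1, hv.2.1, h.filt t v w hv.2.2⟩

theorem ce_univ (t : ℕ) (h : Om → ℝ) (w : Om) : R.P.ce (R.ZJ univ t) h w = R.P.ce (R.Z t) h w :=
  R.P.ce_congr_map (ZJ_univ_fac t) (Z_fac_ZJ univ t) h w

/-- a closing of `x_J` is a function of `(x_J, Q (t+1))` -/
theorem cl_iff {J : Finset ι} {t : ℕ} {v w : Om} (h : R.ZJ J (t + 1) v = R.ZJ J (t + 1) w) :
    R.cl J t v ↔ R.cl J t w := by
  unfold cl clo
  refine exists_congr fun l => and_congr_right fun _ => ?_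
  rw [R.P.ce_fac (R.ZJ J (t + 1)) _ v w h]

theorem cS_iff {l : L} {t : ℕ} {v w : Om} (h : R.ZJ (R.S l) (t + 1) v = R.ZJ (R.S l) (t + 1) w) :
    R.cS l t v ↔ R.cS l t w := by
  unfold cS
  exact exists_congr fun J => and_congr_right fun hJ => cl_iff (ZJ_anti hJ (t + 1) v w h)

theorem y_iff (h : R.Hyp) (l : L) (t : ℕ) : ∀ {v w : Om}, R.AQ (R.S l) t v = R.AQ (R.S l) t w →
    (R.y t l v ↔ R.y t l w) := by
  induction t with
  | zero => intro v w _; exact Iff.rfl
  | succ t ih =>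
    intro v w hv
    have hv' := AQ_filt h (R.S l) t v w hv
    rw [y_succ_iff, y_succ_iff, cS_iff (AQ_fac_ZJ _ _ v w hv)]
    unfold b
    rw [ih hv', h.ff l (t + 1) v w hv, h.ff l t v w hv']

theorem b_iff (h : R.Hyp) {l : L} {t : ℕ} {v w : Om} (hv : R.AQ (R.S l) (t + 1) v = R.AQ (R.S l) (t + 1) w) :
    R.b t l v ↔ R.b t l w := by
  have hv' := AQ_filt h (R.S l) t v w hv
  unfold b
  rw [y_iff h l t hv', h.ff l (t + 1) v w hv, h.ff l t v w hv']

theorem st_iff' (h : R.Hyp) {l : L} {t s : ℕ} {v w : Om} (hv : R.AQ (R.S l) (t + 1) v = R.AQ (R.S l) (t + 1) w) :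
    R.st t s l v ↔ R.st t s l w := by
  rw [st_iff, st_iff, b_iff h hv]
  refine and_congr_right fun _ => forall_congr' fun J => ?_
  refine forall_congr' fun hJ => ?_
  rw [cl_iff (ZJ_anti hJ (t + 1) v w (AQ_fac_ZJ _ _ v w hv))]

theorem utd_iff (h : R.Hyp) {t : ℕ} {v w : Om} (hA : R.A v = R.A w) (hZ : R.Z t v = R.Z t w) :
    R.utd t v ↔ R.utd t w := by
  unfold utd
  refine forall_congr' fun l => ?_
  rw [Z_eq] at hZ
  rw [y_iff h l t (AQ_eq.2 ⟨hA, fun i _ => congrFun hZ.1 i, hZ.2⟩)]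

/-! ## recorded labels -/

theorem rc_utd {l : L} {t : ℕ} {w : Om} (h : ¬ R.y t l w) : R.rc l t w = R.f l t w := by
  induction t with
  | zero => rfl
  | succ t ih =>
    rw [y_succ_iff] at h
    unfold rc
    by_cases hc : R.cS l t w
    · rw [if_pos hc]
    · rw [if_neg hc]
      have hb : ¬ R.b t l w := fun hb => h ⟨hb, hc⟩
      unfold b at hb
      push Not at hb
      rw [ih hb.1, hb.2]

theorem rc_succ_of_not {l : L} {t : ℕ} {w : Om} (h : ¬ R.cS l t w) : R.rc l (t + 1) w = R.rc l t w := by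
  rw [rc, if_neg h]

theorem rc_succ_of {l : L} {t : ℕ} {w : Om} (h : R.cS l t w) : R.rc l (t + 1) w = R.f l (t + 1) w := by
  rw [rc, if_pos h]

/-- a recorded label changes only at a closing at which it is young -/
theorem rc_ne {l : L} {t : ℕ} {w : Om} (h : R.rc l (t + 1) w ≠ R.rc l t w) : R.cS l t w ∧ R.b t l w := by
  by_cases hc : R.cS l t w
  · refine ⟨hc, ?_⟩
    by_contra hb
    unfold b at hb
    push Not at hb
    apply h
    rw [rc_succ_of hc, rc_utd hb.1, hb.2]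
  · exact absurd (rc_succ_of_not hc) h

theorem rc_fac (h : R.Hyp) (l : L) (t : ℕ) : Fac (R.AQ (R.S l) t) (R.rc l t) := by
  induction t with
  | zero => exact h.ff l 0
  | succ t ih =>
    intro v w hv
    have hv' := AQ_filt h (R.S l) t v w hv
    have h1 : R.cS l t v ↔ R.cS l t w := cS_iff (AQ_fac_ZJ _ _ v w hv)
    by_cases hc : R.cS l t w
    · rw [rc_succ_of hc, rc_succ_of (h1.2 hc)]
      exact h.ff l (t + 1) v w hv
    · rw [rc_succ_of_not hc, rc_succ_of_not fun h' => hc (h1.1 h')]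
      exact ih v w hv'

/-! ## the view -/

theorem Vw_filt (h : R.Hyp) : Filt R.Vw := by
  intro t v w hv
  unfold Vw at hv ⊢
  rw [Prod.ext_iff] at hv ⊢
  refine ⟨Z_filt h t v w hv.1, ?_⟩
  funext l s
  exact congrFun (congrFun hv.2 l) ⟨s.val, by omega⟩

theorem Vw_fac_Z (t : ℕ) : Fac (R.Vw t) (R.Z t) := fun _ _ hv => congrArg Prod.fst hv

theorem Vw_fac_rc (l : L) (t : ℕ) : Fac (R.Vw t) (R.rc l t) := fun _ _ hv =>
  congrFun (congrFun (congrArg Prod.snd hv) l) ⟨t, Nat.lt_succ_self t⟩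

/-! ## young periods -/

/-- the closing of the empty set records everything -/
theorem utd_of_cl {t : ℕ} {w : Om} (h : R.cl ∅ t w) : R.utd (t + 1) w := fun l hy =>
  ((R.y_succ t l w).1 hy).2 ∅ (Finset.empty_subset _) h

theorem young_start {s : ℕ} {w : Om} (h : ¬ R.utd s w) :
    ∃ s0, s0 < s ∧ R.utd s0 w ∧ ∀ t, s0 < t → t ≤ s → ¬ R.utd t w := by
  induction s with
  | zero => exact absurd (R.utd_zero w) h
  | succ s ih =>
    by_cases hs : R.utd s w
    · refine ⟨s, Nat.lt_succ_self s, hs, fun t h1 h2 => ?_⟩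
      have : t = s + 1 := by omega
      rw [this]; exact h
    · obtain ⟨s0, h1, h2, h3⟩ := ih hs
      refine ⟨s0, by omega, h2, fun t h4 h5 => ?_⟩
      rcases Nat.lt_or_ge s t with h6 | h6
      · have : t = s + 1 := by omega
        rw [this]; exact h
      · exact h3 t h4 h6

/-- a young period begins with a change of a label -/
theorem change_of_start {t : ℕ} {w : Om} (h : R.utd t w) (h' : ¬ R.utd (t + 1) w) :
    ∃ l, R.f l (t + 1) w ≠ R.f l t w := by
  by_contra hn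
  push Not at hn
  refine h' fun l hy => ?_
  rcases R.y_b hy with h1 | h1
  · exact h l h1
  · exact h1 (hn l)

end

end GRD

end Pool.Agent.GM
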