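import Pool.Agent.GM.Rd
import Pool.Agent.M3.RdR

/-!
# GM/RdR: sizes of the recorded labels, every set of known vertices (row G2B.2 of table gm), helper7

* (R0) `y_ZJ` : given `(x_J, Q t)` the young mass of `l` is `<= al |J ∩ S l|` (`y_ZJ'` for `J ⊆ S l`);
* (R1) `utd_ZJ`, `utd_ZJ_lt`, `utd_Z`, `utd_Z_succ`, `utd_coarse` : points which are not up to date;
* (R2) `sum_rec` (every change is recorded at most once), `cl_count` : `al |J| * number of closings of x_J <= number of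
  changes`;
* `ev_young`, `ev_young_sum`, `cl_young`, `cl_young_sum`, `d3_sum` : masses of (ii), (iii) of Lemma D;
* (R3) `rc_entropy` : entropy of the records of `l` given `(x_(S l), Q)`.
-/

set_option autoImplicit false
set_option linter.unusedSectionVars false

namespace Pool.Agent.GM

open Finset Pool.Agent.PWZ Pool.Agent.M3

namespace GRD

variable {Om : Type*} [Fintype Om] {κ : ℕ → Type*} {α β ι L F : Type*} [Fintype ι] [DecidableEq ι]
  {R : GRD Om κ α β ι L F}

/-! ## thresholds -/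

theorem al_step (h : R.Hyp) {s : ℕ} (hs : s + 1 < Fintype.card ι) : R.al s ≤ R.al (s + 1) := by
  have h1 := h.ab s hs
  have h2 := h.al0 (s + 1)
  have h3 := h.al1 (s + 1)
  nlinarith

theorem al_mono (h : R.Hyp) {s s' : ℕ} (hs : s ≤ s') (hk : s' < Fintype.card ι) : R.al s ≤ R.al s' := by
  induction s', hs using Nat.le_induction with
  | base => exact le_rfl
  | succ s' hs ih => exact (ih (by omega)).trans (al_step h hk)

theorem card_S (h : R.Hyp) (l : L) : (R.S l).card < Fintype.card ι := by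
  rw [← Finset.card_univ]
  exact Finset.card_lt_card (Finset.ssubset_univ_iff.2 (h.S1 l))

theorem top_pos (h : R.Hyp) : 0 < R.top := h.al0 _

theorem top_le_one (h : R.Hyp) : R.top ≤ 1 := h.al1 _

theorem al_le_top (h : R.Hyp) {s : ℕ} (hs : s < Fintype.card ι) : R.al s ≤ R.top :=
  al_mono h (by omega) (by omega)

theorem al_inter_le (h : R.Hyp) (J : Finset ι) (l : L) : R.al (J ∩ R.S l).card ≤ R.top :=
  al_le_top h (lt_of_le_of_lt (Finset.card_le_card Finset.inter_subset_right) (card_S h l))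

/-! ## (R0) -/

theorem y_ZJ' (h : R.Hyp) (t : ℕ) {l : L} {J : Finset ι} (hJ : J ⊆ R.S l) {w : Om} (hw : R.P.p w ≠ 0) :
    R.P.ce (R.ZJ J t) (fun v => ind (R.y t l v)) w ≤ R.al J.card := by
  cases t with
  | zero =>
    rw [R.P.ce_zero_on hw (fun v _ _ => ind_not (R.y_zero l v))]
    exact (h.al0 _).le
  | succ t =>
    by_cases hp : R.cl J t w
    · rw [R.P.ce_zero_on hw (fun v _ hv => ind_not (fun hy => ?_))]
      · exact (h.al0 _).le
      · exact ((R.y_succ t l v).1 hy).2 J hJ ((cl_iff hv).2 hp)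
    · unfold cl clo at hp
      push Not at hp
      refine le_trans (R.P.ce_mono (fun v _ => ind_mono (fun hy => ?_)) w) (hp l hJ).le
      exact R.y_st (by have := Finset.card_le_univ J; omega) hy

theorem y_fac (h : R.Hyp) (t : ℕ) (l : L) : Fac (R.AQ (R.S l) t) (fun w => ind (R.y t l w)) :=
  Fac.ind (fun _ _ e => y_iff h l t e)

/-- (R0): the young mass of `l` given `(x_J, Q t)` -/
theorem y_ZJ (h : R.Hyp) (t : ℕ) (l : L) (J : Finset ι) {w : Om} (hw : R.P.p w ≠ 0) :
    R.P.ce (R.ZJ J t) (fun v => ind (R.y t l v)) w ≤ R.al (J ∩ R.S l).card := by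
  rw [h.ind J (R.S l) t _ (y_fac h t l) w hw]
  exact y_ZJ' h t Finset.inter_subset_right hw

theorem y_Z (h : R.Hyp) (t : ℕ) (l : L) {w : Om} (hw : R.P.p w ≠ 0) :
    R.P.ce (R.Z t) (fun v => ind (R.y t l v)) w ≤ R.al (R.S l).card := by
  rw [← ce_univ]
  have := y_ZJ h t l univ hw
  rwa [Finset.univ_inter] at this

/-! ## (R1) -/

section utd

variable [Fintype L]

theorem ind_nutd (t : ℕ) (v : Om) : ind (¬ R.utd t v) ≤ ∑ l, ind (R.y t l v) := by
  by_cases h1 : R.utd t v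
  · rw [ind_not (fun h => h h1)]
    exact Finset.sum_nonneg fun l _ => ind_nonneg _
  · have h2 : ∃ l, R.y t l v := by
      unfold utd at h1
      push Not at h1
      exact h1
    obtain ⟨l, hl⟩ := h2
    rw [ind_of h1, ← ind_of hl]
    exact Finset.single_le_sum (f := fun l => ind (R.y t l v)) (fun l _ => ind_nonneg _) (mem_univ l)

theorem nutd_le (t : ℕ) {ν : Type*} (Y : Om → ν) (w : Om) :
    R.P.ce Y (fun v => ind (¬ R.utd t v)) w ≤ ∑ l, R.P.ce Y (fun v => ind (R.y t l v)) w := by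
  rw [← R.P.ce_sum]
  exact R.P.ce_mono (fun v _ => ind_nutd t v) w

/-- not up to date given `(x_J, Q t)`, all `J` -/
theorem utd_ZJ (h : R.Hyp) (t : ℕ) (J : Finset ι) {w : Om} (hw : R.P.p w ≠ 0) :
    R.P.ce (R.ZJ J t) (fun v => ind (¬ R.utd t v)) w ≤ Fintype.card L * R.top := by
  refine (nutd_le t _ w).trans ?_
  refine (Finset.sum_le_sum fun l _ => (y_ZJ h t l J hw).trans (al_inter_le h J l)).trans ?_
  rw [Finset.sum_const, Finset.card_univ, nsmul_eq_mul]

/-- not up to date given `(x_J, Q t)`, `J ≠ univ` -/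
theorem utd_ZJ_lt (h : R.Hyp) (t : ℕ) {J : Finset ι} (hJ : J.card < Fintype.card ι) {w : Om} (hw : R.P.p w ≠ 0) :
    R.P.ce (R.ZJ J t) (fun v => ind (¬ R.utd t v)) w ≤ Fintype.card L * R.al J.card := by
  refine (nutd_le t _ w).trans ?_
  refine (Finset.sum_le_sum fun l _ => (y_ZJ h t l J hw).trans
    (al_mono h (Finset.card_le_card Finset.inter_subset_left) hJ)).trans ?_
  rw [Finset.sum_const, Finset.card_univ, nsmul_eq_mul]

theorem utd_Z (h : R.Hyp) (t : ℕ) {w : Om} (hw : R.P.p w ≠ 0) :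
    R.P.ce (R.Z t) (fun v => ind (¬ R.utd t v)) w ≤ Fintype.card L * R.top := by
  rw [← ce_univ]
  exact utd_ZJ h t univ hw

theorem utd_Z_succ (h : R.Hyp) (t : ℕ) {w : Om} (hw : R.P.p w ≠ 0) :
    R.P.ce (R.Z (t + 1)) (fun v => ind (¬ R.utd t v)) w ≤ 2 * (Fintype.card L * R.top) := by
  have h1 := h.dbl t (fun v => ind (¬ R.utd t v)) (fun v => ind_nonneg _) w hw
  linarith [utd_Z h t hw]

/-- given any class coarser than all known vertices and the node -/
theorem utd_coarse (h : R.Hyp) (t : ℕ) {ν : Type*} {Y : Om → ν} (hY : Fac (R.Z t) Y) {w : Om} (hw : R.P.p w ≠ 0) :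
    R.P.ce Y (fun v => ind (¬ R.utd t v)) w ≤ Fintype.card L * R.top := by
  rw [← R.P.ce_tower hY]
  exact R.P.ce_le_const (fun v hv => utd_Z h t hv) hw

end utd

/-! ## (R2) -/

/-- every change of `f l` is recorded at most once -/
theorem rec_path (l : L) (n : ℕ) (w : Om) :
    ∑ t ∈ range n, ind (R.cS l t w ∧ R.b t l w) + ind (R.y n l w) ≤
      ∑ t ∈ range n, ind (R.f l (t + 1) w ≠ R.f l t w) := by
  induction n with
  | zero => simp only [Finset.range_zero, Finset.sum_empty, zero_add]; rw [ind_not (R.y_zero l w)]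
  | succ n ih =>
    rw [Finset.sum_range_succ, Finset.sum_range_succ]
    have h1 : ind (R.cS l n w ∧ R.b n l w) + ind (R.y (n + 1) l w) = ind (R.b n l w) := by
      by_cases hb : R.b n l w
      · by_cases hc : R.cS l n w
        · rw [ind_of ⟨hc, hb⟩, ind_of hb, ind_not (fun hy => ((R.y_succ_iff n l w).1 hy).2 hc), add_zero]
        · rw [ind_not (fun hh => hc hh.1), ind_of hb, ind_of ((R.y_succ_iff n l w).2 ⟨hb, hc⟩), zero_add]
      · rw [ind_not (fun hh => hb hh.2), ind_not hb, ind_not (fun hy => hb (R.y_b hy)), add_zero]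
    have h2 : ind (R.b n l w) ≤ ind (R.y n l w) + ind (R.f l (n + 1) w ≠ R.f l n w) := ind_or_le _ _
    linarith

/-- the same from the time `m` on -/
theorem rec_path_from (l : L) {m n : ℕ} (hmn : m ≤ n) (w : Om) :
    ∑ t ∈ Finset.Ico m n, ind (R.cS l t w ∧ R.b t l w) + ind (R.y n l w) ≤
      ∑ t ∈ Finset.Ico m n, ind (R.f l (t + 1) w ≠ R.f l t w) + ind (R.y m l w) := by
  induction n, hmn using Nat.le_induction with
  | base => simp
  | succ n hn ih =>
    rw [Finset.sum_Ico_succ_top hn, Finset.sum_Ico_succ_top hn]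
    have h1 : ind (R.cS l n w ∧ R.b n l w) + ind (R.y (n + 1) l w) = ind (R.b n l w) := by
      by_cases hb : R.b n l w
      · by_cases hc : R.cS l n w
        · rw [ind_of ⟨hc, hb⟩, ind_of hb, ind_not (fun hy => ((R.y_succ_iff n l w).1 hy).2 hc), add_zero]
        · rw [ind_not (fun hh => hc hh.1), ind_of hb, ind_of ((R.y_succ_iff n l w).2 ⟨hb, hc⟩), zero_add]
      · rw [ind_not (fun hh => hb hh.2), ind_not hb, ind_not (fun hy => hb (R.y_b hy)), add_zero]
    have h2 : ind (R.b n l w) ≤ ind (R.y n l w) + ind (R.f l (n + 1) w ≠ R.f l n w) := ind_or_le _ _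
    linarith

theorem sum_rec (l : L) (n : ℕ) :
    ∑ t ∈ range n, R.P.Pr (fun w => R.cS l t w ∧ R.b t l w) ≤
      ∑ t ∈ range n, R.P.Pr (fun w => R.f l (t + 1) w ≠ R.f l t w) := by
  rw [RD.sum_Pr, RD.sum_Pr]
  refine R.P.E_mono (fun w _ => ?_)
  linarith [rec_path (R := R) l n w, ind_nonneg (R.y n l w)]

/-- the recorded label changes at most as often as the label -/
theorem sum_rc_ne (l : L) (n : ℕ) :
    ∑ t ∈ range n, R.P.Pr (fun w => R.rc l (t + 1) w ≠ R.rc l t w) ≤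
      ∑ t ∈ range n, R.P.Pr (fun w => R.f l (t + 1) w ≠ R.f l t w) :=
  (Finset.sum_le_sum fun _ _ => R.P.Pr_mono fun _ _ hh => rc_ne hh).trans (sum_rec l n)

section counts

variable [Fintype L]

/-- the total number of changes -/
noncomputable def ntot (R : GRD Om κ α β ι L F) (n : ℕ) : ℝ :=
  ∑ l, ∑ t ∈ range n, R.P.Pr (fun w => R.f l (t + 1) w ≠ R.f l t w)

theorem ntot_nonneg (n : ℕ) : 0 ≤ R.ntot n :=
  Finset.sum_nonneg fun _ _ => Finset.sum_nonneg fun _ _ => R.P.Pr_nonneg _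

/-- one closing is paid by its young mass -/
theorem cl_pay (J : Finset ι) (t : ℕ) :
    R.al J.card * R.P.Pr (R.cl J t) ≤ ∑ l, R.P.Pr (fun w => R.cS l t w ∧ R.b t l w) := by
  classical
  have hC : ∀ v w, R.ZJ J (t + 1) v = R.ZJ J (t + 1) w → (R.cl J t v ↔ R.cl J t w) := fun v w e => cl_iff e
  have h1 : ∀ l, J ⊆ R.S l → R.P.E (fun w => ind (R.cl J t w) * R.P.ce (R.ZJ J (t + 1))
      (fun v => ind (R.st t J.card l v)) w) ≤ R.P.Pr (fun w => R.cS l t w ∧ R.b t l w) := by
    intro l hl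
    rw [RD.pub_pay R.P hC]
    exact R.P.Pr_mono fun w _ hh => ⟨⟨J, hl, hh.1⟩, R.st_b hh.2⟩
  have h2 : R.al J.card * R.P.Pr (R.cl J t) ≤ ∑ l ∈ univ.filter (fun l => J ⊆ R.S l),
      R.P.E (fun w => ind (R.cl J t w) * R.P.ce (R.ZJ J (t + 1)) (fun v => ind (R.st t J.card l v)) w) := by
    rw [← R.P.E_sum]
    unfold FP.Pr
    rw [← R.P.E_smul]
    refine R.P.E_mono fun w _ => ?_
    have h3 : ∀ l, 0 ≤ ind (R.cl J t w) * R.P.ce (R.ZJ J (t + 1)) (fun v => ind (R.st t J.card l v)) w := fun l =>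
      mul_nonneg (ind_nonneg _) (R.P.ce_nonneg (fun v _ => ind_nonneg _) w)
    by_cases hp : R.cl J t w
    · have hp' := hp
      unfold cl clo at hp'
      obtain ⟨l, hl1, hl2⟩ := hp'
      rw [ind_of hp, mul_one]
      refine hl2.trans ?_
      have h4 := Finset.single_le_sum (s := univ.filter (fun l => J ⊆ R.S l))
        (f := fun l => ind (R.cl J t w) * R.P.ce (R.ZJ J (t + 1)) (fun v => ind (R.st t J.card l v)) w)
        (fun l _ => h3 l) (Finset.mem_filter.2 ⟨mem_univ l, hl1⟩)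
      rw [ind_of hp] at h4
      simpa using h4
    · rw [ind_not hp, mul_zero]
      rw [ind_not hp] at h3
      exact Finset.sum_nonneg fun l _ => h3 l
  refine h2.trans ((Finset.sum_le_sum fun l hl => h1 l (Finset.mem_filter.1 hl).2).trans ?_)
  exact Finset.sum_le_sum_of_subset_of_nonneg (Finset.filter_subset _ _) fun _ _ _ => R.P.Pr_nonneg _

/-- (R2): number of closings of `x_J` -/
theorem cl_count (J : Finset ι) (n : ℕ) : R.al J.card * ∑ t ∈ range n, R.P.Pr (R.cl J t) ≤ R.ntot n := by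
  rw [Finset.mul_sum]
  refine (Finset.sum_le_sum fun t _ => cl_pay J t).trans ?_
  rw [Finset.sum_comm]
  exact Finset.sum_le_sum fun l _ => sum_rec l n

/-- no closing of all known vertices -/
theorem cl_univ (h : R.Hyp) {J : Finset ι} {t : ℕ} {w : Om} (hc : R.cl J t w) : J.card < Fintype.card ι := by
  obtain ⟨l, hl, _⟩ := hc
  exact lt_of_le_of_lt (Finset.card_le_card hl) (card_S h l)

/-! ## masses for Lemma D -/

/-- a known event and not up to date at the same level -/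
theorem ev_young (h : R.Hyp) {t : ℕ} {s : Om → Prop}
    (hs : ∀ v w, R.Z (t + 1) v = R.Z (t + 1) w → (s v ↔ s w)) :
    R.P.Pr (fun w => s w ∧ ¬ R.utd (t + 1) w) ≤ Fintype.card L * R.top * R.P.Pr s := by
  rw [← RD.pub_pay R.P hs]
  unfold FP.Pr
  rw [← R.P.E_smul]
  refine R.P.E_mono fun w hw => ?_
  have := mul_le_mul_of_nonneg_left (utd_Z h (t + 1) hw) (ind_nonneg (s w))
  linarith

theorem ev_young_sum (h : R.Hyp) {s : ℕ → Om → Prop} (n : ℕ)
    (hs : ∀ t v w, R.Z (t + 1) v = R.Z (t + 1) w → (s t v ↔ s t w)) :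
    ∑ t ∈ range n, R.P.Pr (fun w => s t w ∧ ¬ R.utd (t + 1) w) ≤
      Fintype.card L * R.top * ∑ t ∈ range n, R.P.Pr (s t) := by
  rw [Finset.mul_sum]
  exact Finset.sum_le_sum fun t _ => ev_young h (hs t)

/-- a closing of `x_J`, `J ≠ ∅`, and not up to date at the end of the level -/
theorem cl_young (h : R.Hyp) {J : Finset ι} (hJ : J.Nonempty) (t : ℕ) :
    R.P.Pr (fun w => R.cl J t w ∧ ¬ R.utd (t + 1) w) ≤
      Fintype.card L * R.al (J.card - 1) * R.P.Pr (R.cl J t) := by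
  by_cases hk : J.card < Fintype.card ι
  swap
  · have h0 : ∀ w, ¬ R.cl J t w := fun w hc => hk (cl_univ h hc)
    have h1 : R.P.Pr (fun w => R.cl J t w ∧ ¬ R.utd (t + 1) w) = 0 := by
      unfold FP.Pr
      rw [R.P.E_congr (g := fun _ => 0) fun w _ => ind_not fun hh => h0 w hh.1, R.P.E_const]
    rw [h1]
    exact mul_nonneg (mul_nonneg (Nat.cast_nonneg _) (h.al0 _).le) (R.P.Pr_nonneg _)
  have hJ1 : 0 < J.card := Finset.card_pos.2 hJ
  have hC : ∀ v w, R.ZJ J (t + 1) v = R.ZJ J (t + 1) w → (R.cl J t v ↔ R.cl J t w) := fun v w e => cl_iff e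
  have h1 : R.P.Pr (fun w => R.cl J t w ∧ ¬ R.utd (t + 1) w) ≤
      ∑ l, R.P.Pr (fun w => R.cl J t w ∧ R.y (t + 1) l w) := by
    unfold FP.Pr
    rw [← R.P.E_sum]
    refine R.P.E_mono fun w _ => ?_
    by_cases hc : R.cl J t w
    · have h2 := ind_nutd (R := R) (t + 1) w
      refine le_trans (ind_mono fun hh => hh.2) (h2.trans (Finset.sum_le_sum fun l _ => ind_mono fun hh => ⟨hc, hh⟩))
    · rw [ind_not fun hh => hc hh.1]
      exact Finset.sum_nonneg fun l _ => ind_nonneg _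
  have h2 : ∀ l, R.P.Pr (fun w => R.cl J t w ∧ R.y (t + 1) l w) ≤ R.al (J.card - 1) * R.P.Pr (R.cl J t) := by
    intro l
    by_cases hl : J ⊆ R.S l
    · have h3 : R.P.Pr (fun w => R.cl J t w ∧ R.y (t + 1) l w) = 0 := by
        unfold FP.Pr
        rw [R.P.E_congr (g := fun _ => 0) fun w _ => ind_not fun hh => ((R.y_succ t l w).1 hh.2).2 J hl hh.1,
          R.P.E_const]
      rw [h3]
      exact mul_nonneg (h.al0 _).le (R.P.Pr_nonneg _)
    · have h3 : (J ∩ R.S l).card ≤ J.card - 1 := by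
        have h4 : (J ∩ R.S l).card < J.card := Finset.card_lt_card
          ⟨Finset.inter_subset_left, fun h5 => hl (h5.trans Finset.inter_subset_right)⟩
        omega
      rw [← RD.pub_pay R.P hC]
      unfold FP.Pr
      rw [← R.P.E_smul]
      refine R.P.E_mono fun w hw => ?_
      have h4 := (y_ZJ h (t + 1) l J hw).trans (al_mono h h3 (by omega))
      have := mul_le_mul_of_nonneg_left h4 (ind_nonneg (R.cl J t w))
      linarith
  refine h1.trans ((Finset.sum_le_sum fun l _ => h2 l).trans ?_)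
  rw [Finset.sum_const, Finset.card_univ, nsmul_eq_mul]
  linarith

theorem cl_young_sum (h : R.Hyp) {J : Finset ι} (hJ : J.Nonempty) (n : ℕ) :
    ∑ t ∈ range n, R.P.Pr (fun w => R.cl J t w ∧ ¬ R.utd (t + 1) w) ≤ Fintype.card L * R.top * R.ntot n := by
  have hL : (0 : ℝ) ≤ Fintype.card L := Nat.cast_nonneg _
  have hn := ntot_nonneg (R := R) n
  have ht := top_pos h
  by_cases hk : J.card < Fintype.card ι
  swap
  · have h0 : ∀ t w, ¬ R.cl J t w := fun t w hc => hk (cl_univ h hc)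
    have h1 : ∑ t ∈ range n, R.P.Pr (fun w => R.cl J t w ∧ ¬ R.utd (t + 1) w) = 0 := by
      refine Finset.sum_eq_zero fun t _ => ?_
      unfold FP.Pr
      rw [R.P.E_congr (g := fun _ => 0) fun w _ => ind_not fun hh => h0 t w hh.1, R.P.E_const]
    rw [h1]
    positivity
  have hJ1 : 0 < J.card := Finset.card_pos.2 hJ
  refine (Finset.sum_le_sum fun t _ => cl_young h hJ t).trans ?_
  rw [← Finset.mul_sum]
  set x := ∑ t ∈ range n, R.P.Pr (R.cl J t) with hx
  have hx0 : 0 ≤ x := Finset.sum_nonneg fun t _ => R.P.Pr_nonneg _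
  have h1 : R.al (J.card - 1) ≤ R.al J.card ^ 2 := by
    have := h.ab (J.card - 1) (by omega)
    rwa [Nat.sub_add_cancel hJ1] at this
  have h2 : R.al J.card * x ≤ R.ntot n := cl_count J n
  have h3 : R.al J.card ≤ R.top := al_le_top h hk
  have h4 : R.al (J.card - 1) * x ≤ R.top * R.ntot n := by
    calc R.al (J.card - 1) * x ≤ R.al J.card ^ 2 * x := mul_le_mul_of_nonneg_right h1 hx0
      _ = R.al J.card * (R.al J.card * x) := by ring
      _ ≤ R.al J.card * R.ntot n := mul_le_mul_of_nonneg_left h2 (h.al0 _).le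
      _ ≤ R.top * R.ntot n := mul_le_mul_of_nonneg_right h3 hn
  calc Fintype.card L * R.al (J.card - 1) * x = Fintype.card L * (R.al (J.card - 1) * x) := by ring
    _ ≤ Fintype.card L * (R.top * R.ntot n) := mul_le_mul_of_nonneg_left h4 hL
    _ = _ := by ring

/-- (iii) of Lemma D -/
theorem d3_sum (h : R.Hyp) (n : ℕ) :
    ∑ t ∈ range n, R.P.Pr (fun w => (∃ J : Finset ι, J.Nonempty ∧ R.cl J t w) ∧ ¬ R.utd (t + 1) w) ≤
      2 ^ Fintype.card ι * (Fintype.card L * R.top * R.ntot n) := by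
  classical
  have h1 : ∀ t, R.P.Pr (fun w => (∃ J : Finset ι, J.Nonempty ∧ R.cl J t w) ∧ ¬ R.utd (t + 1) w) ≤
      ∑ J : Finset ι, R.P.Pr (fun w => J.Nonempty ∧ R.cl J t w ∧ ¬ R.utd (t + 1) w) := by
    intro t
    refine le_trans (R.P.Pr_mono fun w _ => ?_) (R.P.Pr_ex_le univ _)
    rintro ⟨⟨J, hJ, hc⟩, hu⟩
    exact ⟨J, mem_univ J, hJ, hc, hu⟩
  refine (Finset.sum_le_sum fun t _ => h1 t).trans ?_
  rw [Finset.sum_comm]
  have h2 : ∀ J : Finset ι, ∑ t ∈ range n, R.P.Pr (fun w => J.Nonempty ∧ R.cl J t w ∧ ¬ R.utd (t + 1) w) ≤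
      Fintype.card L * R.top * R.ntot n := by
    intro J
    by_cases hJ : J.Nonempty
    · refine le_trans (Finset.sum_le_sum fun t _ => R.P.Pr_mono fun w _ hh => hh.2) (cl_young_sum h hJ n)
    · have h3 : ∑ t ∈ range n, R.P.Pr (fun w => J.Nonempty ∧ R.cl J t w ∧ ¬ R.utd (t + 1) w) = 0 := by
        refine Finset.sum_eq_zero fun t _ => ?_
        unfold FP.Pr
        rw [R.P.E_congr (g := fun _ => 0) fun w _ => ind_not fun hh => hJ hh.1, R.P.E_const]
      rw [h3]
      exact mul_nonneg (mul_nonneg (Nat.cast_nonneg _) (top_pos h).le) (ntot_nonneg n)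
  refine (Finset.sum_le_sum fun J _ => h2 J).trans (le_of_eq ?_)
  rw [Finset.sum_const, Finset.card_univ, nsmul_eq_mul, Fintype.card_finset]
  push_cast
  ring

/-! ## (R3) -/

/-- mean number of recordings of `l` -/
theorem cS_count (h : R.Hyp) (l : L) (n : ℕ) :
    R.al 0 * ∑ t ∈ range n, R.P.Pr (R.cS l t) ≤ 2 ^ Fintype.card ι * R.ntot n := by
  classical
  have h1 : ∀ t, R.P.Pr (R.cS l t) ≤ ∑ J ∈ (R.S l).powerset, R.P.Pr (R.cl J t) := by
    intro t
    refine le_trans (R.P.Pr_mono fun w _ => ?_) (R.P.Pr_ex_le (R.S l).powerset (fun J w => R.cl J t w))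
    rintro ⟨J, hJ, hc⟩
    exact ⟨J, Finset.mem_powerset.2 hJ, hc⟩
  have h2 : ∑ t ∈ range n, R.P.Pr (R.cS l t) ≤ ∑ J ∈ (R.S l).powerset, ∑ t ∈ range n, R.P.Pr (R.cl J t) := by
    rw [Finset.sum_comm]
    exact Finset.sum_le_sum fun t _ => h1 t
  have h3 : ∀ J ∈ (R.S l).powerset, R.al 0 * ∑ t ∈ range n, R.P.Pr (R.cl J t) ≤ R.ntot n := by
    intro J hJ
    have h4 : R.al 0 ≤ R.al J.card := al_mono h (Nat.zero_le _)
      (lt_of_le_of_lt (Finset.card_le_card (Finset.mem_powerset.1 hJ)) (card_S h l))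
    exact (mul_le_mul_of_nonneg_right h4 (Finset.sum_nonneg fun t _ => R.P.Pr_nonneg _)).trans (cl_count J n)
  calc R.al 0 * ∑ t ∈ range n, R.P.Pr (R.cS l t)
      ≤ R.al 0 * ∑ J ∈ (R.S l).powerset, ∑ t ∈ range n, R.P.Pr (R.cl J t) :=
        mul_le_mul_of_nonneg_left h2 (h.al0 0).le
    _ = ∑ J ∈ (R.S l).powerset, R.al 0 * ∑ t ∈ range n, R.P.Pr (R.cl J t) := Finset.mul_sum _ _ _
    _ ≤ ∑ J ∈ (R.S l).powerset, R.ntot n := Finset.sum_le_sum h3
    _ = 2 ^ (R.S l).card * R.ntot n := by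
        rw [Finset.sum_const, Finset.card_powerset, nsmul_eq_mul]
        push_cast
        ring
    _ ≤ 2 ^ Fintype.card ι * R.ntot n :=
        mul_le_mul_of_nonneg_right (pow_le_pow_right₀ (by norm_num) (card_S h l).le) (ntot_nonneg n)

/-- (R3): entropy of the records of `l`, given the path and the vertices of `S l` -/
theorem rc_entropy [Fintype F] (h : R.Hyp) (l : L) (n : ℕ) {H nl : ℝ} (hH : 0 ≤ H)
    (hF : (Fintype.card F : ℝ) ≤ Real.exp H)
    (hf : ∑ t ∈ range n, R.P.Pr (fun w => R.f l (t + 1) w ≠ R.f l t w) ≤ nl) :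
    ∑ t ∈ range n, R.P.Hc (R.N l (t + 1)) (fun w => (R.N l t w, R.ZJ (R.S l) (t + 1) w)) ≤
      nl * (1 + Real.log (4 / R.al 0) + H) + 2 ^ Fintype.card ι * R.ntot n / 4 := by
  have hal := h.al0 0
  have hal1 := h.al1 0
  have hone : (1 : ℝ) / (R.al 0 / 4) = 4 / R.al 0 := one_div_div _ _
  have hlog : 0 ≤ Real.log (1 / (R.al 0 / 4)) := by
    apply Real.log_nonneg
    rw [one_div_div, le_div_iff₀ hal]
    linarith
  have h1 : ∀ t, R.P.Hc (R.N l (t + 1)) (fun w => (R.N l t w, R.ZJ (R.S l) (t + 1) w)) ≤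
      R.P.Pr (fun w => R.cS l t w ∧ R.b t l w) * (1 + Real.log (1 / (R.al 0 / 4)) + H) +
        R.al 0 / 4 * R.P.Pr (fun w => R.cS l t w) := by
    intro t
    refine R.P.Hc_record_le (R.N l t) (R.N l (t + 1)) (R.ZJ (R.S l) (t + 1)) (R.f l (t + 1)) ?_ (fun w hs => hs.1) ?_
      (by positivity) hH hF
    · intro v w e
      exact cS_iff e
    · intro v w e1 e2 e3
      funext s
      unfold N
      rcases Nat.lt_succ_iff_lt_or_eq.1 s.isLt with hs | hs
      · exact congrFun e1 ⟨s.val, hs⟩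
      · rw [hs]
        by_cases hv : R.cS l t v ∧ R.b t l v
        · have hw := e2.1 hv
          rw [rc_succ_of hv.1, rc_succ_of hw.1]
          exact e3 hv
        · have hw := fun hh => hv (e2.2 hh)
          have a1 : R.rc l (t + 1) v = R.rc l t v := by
            by_contra hne; exact hv (rc_ne hne)
          have a2 : R.rc l (t + 1) w = R.rc l t w := by
            by_contra hne; exact hw (rc_ne hne)
          rw [a1, a2]
          exact congrFun e1 ⟨t, Nat.lt_succ_self t⟩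
  refine le_trans (Finset.sum_le_sum (fun t _ => h1 t)) ?_
  rw [Finset.sum_add_distrib, ← Finset.sum_mul, ← Finset.mul_sum]
  have h2 := (sum_rec (R := R) l n).trans hf
  have h3 := cS_count h l n
  have h6 : (∑ t ∈ range n, R.P.Pr (fun w => R.cS l t w ∧ R.b t l w)) *
      (1 + Real.log (1 / (R.al 0 / 4)) + H) ≤ nl * (1 + Real.log (1 / (R.al 0 / 4)) + H) :=
    mul_le_mul_of_nonneg_right h2 (by linarith)
  rw [hone] at h6
  rw [hone]
  have h7 : R.al 0 / 4 * ∑ t ∈ range n, R.P.Pr (fun w => R.cS l t w) =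
      (R.al 0 * ∑ t ∈ range n, R.P.Pr (R.cS l t)) / 4 := by
    have : ∑ t ∈ range n, R.P.Pr (fun w => R.cS l t w) = ∑ t ∈ range n, R.P.Pr (R.cS l t) := rfl
    rw [this]
    ring
  rw [h7]
  linarith

end counts

end GRD

end Pool.Agent.GM
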