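import Pool.Agent.GM.RelocF
import Pool.Agent.GM.CMDef

/-!
# GM/RelocC (helper36): relocation of the coins in the contract `CMFine` of the cold sets, rows A10b, A10c

* `mvFacesC` : the faces of the natural view under `CExt` with the same coins;
* `pT_free`, `coldAt_free` : the faces are coin free, so the process and the hotness do not depend on the vertex which carries
  the coins;
* `CMFineH j κ c C` : the contract with the coins at the hidden vertex `w` of the natural view, **`cmFine_of_hid`**.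
-/

set_option autoImplicit false
set_option linter.unusedSectionVars false

namespace Pool.Agent.GM.Reloc

open Finset Pool.Agent.PWZ Pool.Agent.M3 Pool.Agent.M3.TS Pool.Agent.M3.Bin Pool.Agent.GM Pool.Agent.GM.Mv
open Pool.Agent.GM.GS Pool.Agent.GMN Pool.Agent.GM.KVer
open Pool.Agent.M3.Mod (ex)

noncomputable section

section ext

variable {ι Om Ξ Pt V Γ κ Om' Ξ' : Type} [Fintype ι] [DecidableEq ι] [Fintype Om] [Fintype Ξ] [Fintype Pt]
  [Fintype V] [Fintype Om'] [Fintype Ξ'] {S : Sys ι Om Ξ Pt V Γ κ} {S' : Sys ι Om' Ξ' Pt V Γ κ} (e : CExt S S')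
  (hb : Function.Bijective e.pc)

include hb in
theorem mvFacesC {w : ι} {F : ι → Mov Ξ ι Pt Γ (V → ℝ)} {m M θ acc : ℝ} (H : FacesC S w F m M θ acc) :
    FacesC S' w (fun i => e.mv (F i)) m M θ acc where
  dep i t g ξ := H.dep i t g (e.pc ξ)
  coin i t g ξ ξ' := H.coin i t g (e.pc ξ) (e.pc ξ')
  bd i t g ξ x d := H.bd i t g (e.pc ξ) x d
  zero i g ξ x := H.zero i g (e.pc ξ) x
  once t ω := by
    rw [e.at_mv, e.at_mv]
    exact H.once t (e.pi ω)
  fut i hi := e.future_mv hb.1 (H.fut i hi)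
  tail i hi := tail_mv e (H.tail i hi)
  mean i hi := mean_mv e (H.mean i hi)
  rare i hi := e.rare_mv hb (H.rare i hi)

end ext

section free

variable {k N : ℕ} {ι Θ Ξ Q : Type} [Fintype ι] [DecidableEq ι] (σ : V k) [Fintype Θ] [Nonempty Θ] [Fintype Ξ]
  [Nonempty Ξ] [Fintype Q] [Nonempty Q]

/-- the process of coin free faces does not depend on the vertex which carries the coins -/
theorem pT_free (i a : ι) (hN : N ≤ k) (h : ℕ) {F : ι → Mov Ξ ι (Q × V k) (Θ × (V k × ℕ)) (V k → ℝ)}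
    (hF : ∀ j, ∀ t g ξ ξ', F j t g ξ = F j t g ξ') (Vj : Finset ι) (t : ℕ) (v : Sq k N ι Θ (Ξ × Q)) :
    pT (binSys Θ Ξ Q σ i hN h) Vj F t v = pT (binSys Θ Ξ Q σ a hN h) Vj F t v := by
  unfold pT
  have h1 : (fun d => ∏ j ∈ Vj, (binSys Θ Ξ Q σ i hN h).at' (F j) t v d) =
      fun d => ∏ j ∈ Vj, (binSys Θ Ξ Q σ a hN h).at' (F j) t v d := by
    funext d
    refine Finset.prod_congr rfl (fun j _ => ?_)
    exact congrFun (congrFun (hF j t _ _ _) _) d
  rw [h1]
  rfl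

/-- hotness of coin free faces does not depend on the vertex which carries the coins -/
theorem coldAt_free (i a : ι) (hN : N ≤ k) (h : ℕ) (w : ι) {F : ι → Mov Ξ ι (Q × V k) (Θ × (V k × ℕ)) (V k → ℝ)}
    (hF : ∀ j, ∀ t g ξ ξ', F j t g ξ = F j t g ξ') {r ρ out : ℝ} (H : ColdAt σ a hN h w F r ρ out) :
    ColdAt σ i hN h w F r ρ out := by
  unfold ColdAt at H ⊢
  have h1 : ∀ t, (fun v => ind (r ≤ |pT (binSys Θ Ξ Q σ i hN h) univ F t v|)) =
      fun v => ind (r ≤ |pT (binSys Θ Ξ Q σ a hN h) univ F t v|) := fun t => by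
    funext v
    rw [pT_free σ i a hN h hF]
  simp only [h1]
  exact H

end free

/-- the contract `GS.CMFine` with the coins at the hidden vertex `w` of the natural view -/
def CMFineH (j : ℕ) (κ : ℝ) (c C : ℕ) : Prop :=
  ∀ (ι Θ Ξ Q : Type) [Fintype ι] [DecidableEq ι] [Fintype Θ] [Nonempty Θ] [Fintype Ξ] [Nonempty Ξ] [Fintype Q]
    [Nonempty Q] (k N : ℕ) (σ : V k) (w q : ι) (hN : N ≤ k) (h : ℕ), Fintype.card ι = j → q ≠ w →
    ∀ β H Λ : ℝ, 0 < β → β ≤ 1 / 2 → 1 / β ≤ H → (binSys Θ Ξ Q σ w hN h).K ≤ Real.exp (H ^ (c + 2)) →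
      (binSys Θ Ξ Q σ w hN h).near ≤ Real.exp (-H ^ c) → H ^ C ≤ Λ → Λ ≤ Real.exp H →
      ∀ F : ι → Mov Ξ ι (Q × V k) (Θ × (V k × ℕ)) (V k → ℝ),
        FacesC (binSys Θ Ξ Q σ w hN h) w F (4 * H) (Real.exp (H ^ (c + 2))) (Real.exp (-Λ)) (β ^ C) →
        Nonempty (StrT (binSys Θ Ξ Q σ w hN h) univ w q (F q) (4 * H) (Real.exp (H ^ (c + 2)))
          (H * Real.exp ((1 + κ) * Λ))) →
        ColdAt σ w hN h w F β (Real.exp (-H)) (Real.exp (-H))

/-- **the coins may be put at the hidden vertex of the natural view** -/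
theorem cmFine_of_hid {j : ℕ} {κ : ℝ} {c C : ℕ} (H : CMFineH j κ c C) : CMFine j κ c C := by
  intro ι Θ Ξ Q _ _ _ _ _ _ _ _ k N σ i w q hN h hj hqw β Hh Λ h1 h2 h3 h4 h5 h6 h7 F hF hS
  obtain ⟨hS⟩ := hS
  refine coldAt_free σ i w hN h w hF.coin ?_
  exact H ι Θ Ξ Q k N σ w q hN h hj hqw β Hh Λ h1 h2 h3 h4 h5 h6 h7 F
    (mvFacesC (binSwap i w σ hN h) Function.bijective_id hF)
    ⟨mvStrT (binSwap i w σ hN h) Function.bijective_id hS⟩

end

end Pool.Agent.GM.Reloc
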