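import Pool.Agent.GM.Reloc
import Pool.Agent.GM.Ref

/-!
# GM/RelocF (helper66): relocation of the coins in the contract after the refinement, row A11d

* `nmv_mv`, `tail_mv`, `mvBLT`, `mvFacesT`, `mvStrT`, **`fineAt_of_ext`** : the same coins;
* `fineAt_swap` : the vertex which carries the coins is irrelevant;
* `FineBinH j κ c C Cd` : the contract `GS.FineBin` for hidden vertices only (`a ≠ q`, `a ≠ δ`), **`fineBin_of_hid`** (if the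
  property `Cd` may be moved, `ColdSw Cd`) and **`refH`** (helper21) : `FineBinH` → `PieceBin` without `ColdSw`.
-/

set_option autoImplicit false
set_option linter.unusedSectionVars false

namespace Pool.Agent.GM.Reloc

open Finset Pool.Agent.PWZ Pool.Agent.M3 Pool.Agent.M3.TS Pool.Agent.M3.Bin Pool.Agent.GM Pool.Agent.GM.Mv
open Pool.Agent.GM.GS Pool.Agent.GMN
open Pool.Agent.M3.Mod (ex)

noncomputable section

/-! ### the same coins -/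

section ext

variable {ι Om Ξ Pt V Γ κ Om' Ξ' : Type} [Fintype ι] [DecidableEq ι] [Fintype Om] [Fintype Ξ] [Fintype Pt]
  [Fintype V] [Fintype Om'] [Fintype Ξ'] {S : Sys ι Om Ξ Pt V Γ κ} {S' : Sys ι Om' Ξ' Pt V Γ κ} (e : CExt S S')
  (hb : Function.Bijective e.pc) {Vj : Finset ι}

theorem nmv_mv {β : Type} (f : Mov Ξ ι Pt Γ β) (t : ℕ) (w : Om') : S'.nmv (e.mv f) t w = S.nmv f t (e.pi w) := by
  unfold Sys.nmv
  exact Finset.sum_congr rfl fun u _ => by rw [e.at_mv, e.at_mv]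

theorem tail_mv {β : Type} {f : Mov Ξ ι Pt Γ β} {m : ℝ} (H : S.MvTail f m) : S'.MvTail (e.mv f) m := by
  intro k
  refine le_trans (le_of_eq ?_) (H k)
  rw [← e.Pr]
  refine S'.P.Pr_congr fun w _ => ?_
  rw [nmv_mv, e.n]

theorem mean_mv {β : Type} {f : Mov Ξ ι Pt Γ β} {m : ℝ} (H : S.P.E (S.nmv f S.n) ≤ m) :
    S'.P.E (S'.nmv (e.mv f) S'.n) ≤ m := by
  refine le_trans (le_of_eq ?_) H
  rw [← e.E]
  refine S'.P.E_congr fun w _ => ?_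
  rw [nmv_mv, e.n]

/-- lists of births of `S` as lists of births of `S'` -/
def mvBLT {q : ι} {m M T : ℝ} (b : BLT S Vj q m M T) : BLT S' Vj q m M T where
  L := e.mv b.L
  B := e.mv b.B
  dep t g ξ := b.dep t g (e.pc ξ)
  cell t g ξ ξ' x y h1 h2 := b.cell t g (e.pc ξ) (e.pc ξ') x y h1 (fun i hi hq => by rw [← e.cl]; exact h2 i hi hq)
  zero g ξ x := b.zero g (e.pc ξ) x
  suf t g ξ x := by
    show b.L t (S'.par t g) (e.pc ξ) x <:+ b.L (t + 1) g (e.pc ξ) x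
    rw [e.par]
    exact b.suf t g (e.pc ξ) x
  nodup t g ξ x := b.nodup t g (e.pc ξ) x
  time t g ξ x s hs := b.time t g (e.pc ξ) x s hs
  btime t g ξ x s hs := b.btime t g (e.pc ξ) x s hs
  new t g ξ x s hs := by
    show s ∈ b.L t (S'.par t g) (e.pc ξ) x ∨ s ∈ b.B (t + 1) g (e.pc ξ) x
    rw [e.par]
    exact b.new t g (e.pc ξ) x s hs
  fut := e.future_mv hb.1 b.fut
  tail k := by
    refine le_trans (le_of_eq ?_) (b.tail k)
    rw [← e.Pr]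
    refine S'.P.Pr_congr fun w _ => ?_
    rw [e.at_mv, e.n]
  pub := by
    refine le_trans (le_of_eq ?_) b.pub
    rw [← e.E]
    refine S'.P.E_congr fun w _ => ?_
    rw [e.n]
    exact Finset.sum_congr rfl fun t _ => by rw [e.at_mv]

include hb in
theorem mvFacesT {δ : ι} {F : ι → Mov Ξ ι Pt Γ (V → ℝ)} {m M θ acc : ℝ} (H : FacesT S Vj δ F m M θ acc) :
    FacesT S' Vj δ (fun i => e.mv (F i)) m M θ acc where
  dep w hw t g ξ := H.dep w hw t g (e.pc ξ)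
  coin w hw hd t g ξ ξ' := H.coin w hw hd t g (e.pc ξ) (e.pc ξ')
  bd w hw t g ξ x d := H.bd w hw t g (e.pc ξ) x d
  zero w hw g ξ x := H.zero w hw g (e.pc ξ) x
  fut w hw := e.future_mv hb.1 (H.fut w hw)
  tail w hw := tail_mv e (H.tail w hw)
  mean w hw := mean_mv e (H.mean w hw)
  rare w hw := e.rare_mv hb (H.rare w hw)

/-- structured faces -/
def mvStrT {δ q : ι} {F : Mov Ξ ι Pt Γ (V → ℝ)} {m M T : ℝ} (H : StrT S Vj δ q F m M T) :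
    StrT S' Vj δ q (e.mv F) m M T where
  e0 := H.e0
  e1 := H.e1
  pe0 := H.pe0
  pe1 := H.pe1
  b0 := mvBLT e hb H.b0
  b1 := mvBLT e hb H.b1
  coin0 hq t g ξ ξ' := H.coin0 hq t g (e.pc ξ) (e.pc ξ')
  coin1 hq t g ξ ξ' := H.coin1 hq t g (e.pc ξ) (e.pc ξ')
  eq t g ξ x d := H.eq t g (e.pc ξ) x d

include hb in
/-- **the same coins**: the pieces of `S'` give the pieces of `S` -/
theorem fineAt_of_ext {δ q : ι} {m M T θ acc r out : ℝ} {Cd : (ι → Mov Ξ ι Pt Γ (V → ℝ)) → Prop}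
    {Cd' : (ι → Mov Ξ' ι Pt Γ (V → ℝ)) → Prop} (hC : ∀ F, Cd F → Cd' (fun i => e.mv (F i)))
    (H : FineAt S' Vj δ q m M T θ acc r out Cd') : FineAt S Vj δ q m M T θ acc r out Cd := by
  rintro F hF ⟨hS⟩ hc
  rw [← pr_mv e]
  exact H (fun i => e.mv (F i)) (mvFacesT e hb hF) ⟨mvStrT e hb hS⟩ (hC F hc)

end ext

/-! ### the coins at another vertex -/

section swap

variable {k N : ℕ} {ι Θ Ξ Q : Type} [DecidableEq ι] (i a : ι) [Fintype ι] (σ : V k) [Fintype Θ] [Nonempty Θ]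
  [Fintype Ξ] [Nonempty Ξ] [Fintype Q] [Nonempty Q]

theorem fineAt_swap (hN : N ≤ k) (h : ℕ) {Vj : Finset ι} {δ q : ι} {m M T θ acc r out : ℝ}
    {Cd Cd' : (ι → Mov Ξ ι (Q × V k) (Θ × (V k × ℕ)) (V k → ℝ)) → Prop} (hC : ∀ F, Cd F → Cd' F)
    (H : FineAt (binSys Θ Ξ Q σ a hN h) Vj δ q m M T θ acc r out Cd') :
    FineAt (binSys Θ Ξ Q σ i hN h) Vj δ q m M T θ acc r out Cd :=
  fineAt_of_ext (binSwap i a σ hN h) Function.bijective_id hC H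

end swap

/-! ### the contract for hidden vertices -/

/-- the contract `GS.FineBin` with the coins at a HIDDEN vertex `a`: `a ≠ q`, `a ≠ δ` -/
def FineBinH (j : ℕ) (κ : ℝ) (c C : ℕ) (Cd : ColdF) : Prop :=
  ∀ (ι Θ Ξ Q : Type) [Fintype ι] [DecidableEq ι] [Fintype Θ] [Nonempty Θ] [Fintype Ξ] [Nonempty Ξ] [Fintype Q]
    [Nonempty Q] (k N : ℕ) (σ : V k) (a δ q : ι) (hN : N ≤ k) (h : ℕ), a ≠ q → a ≠ δ → Fintype.card ι = j →
    ∀ β H Λ : ℝ, 0 < β → β ≤ 1 / 2 → 1 / β ≤ H → (binSys Θ Ξ Q σ a hN h).K ≤ Real.exp (H ^ (c + 2)) →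
      (binSys Θ Ξ Q σ a hN h).near ≤ Real.exp (-H ^ c) → H ^ C ≤ Λ → Λ ≤ Real.exp H →
      FineAt (binSys Θ Ξ Q σ a hN h) univ δ q (4 * H) (Real.exp (H ^ (c + 2))) (H * Real.exp ((1 + κ) * Λ))
        (Real.exp (-Λ)) (β ^ C) β (Real.exp (-H)) (Cd ι Θ Ξ Q k N σ a δ q hN h β H)

/-- the vertex of the coins is irrelevant for the property `Cd` -/
def ColdSw (Cd : ColdF) : Prop :=
  ∀ (ι Θ Ξ Q : Type) [Fintype ι] [DecidableEq ι] [Fintype Θ] [Nonempty Θ] [Fintype Ξ] [Nonempty Ξ] [Fintype Q]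
    [Nonempty Q] (k N : ℕ) (σ : V k) (i a δ q : ι) (hN : N ≤ k) (h : ℕ) (β H : ℝ)
    (F : ι → Mov Ξ ι (Q × V k) (Θ × (V k × ℕ)) (V k → ℝ)), Cd ι Θ Ξ Q k N σ i δ q hN h β H F →
      Cd ι Θ Ξ Q k N σ a δ q hN h β H F

/-- **the coins may be put at a hidden vertex** -/
theorem fineBin_of_hid {j : ℕ} (h3 : 3 ≤ j) {κ : ℝ} {c C : ℕ} {Cd : ColdF} (hS : ColdSw Cd)
    (H : FineBinH j κ c C Cd) : FineBin j κ c C Cd := by
  intro ι Θ Ξ Q _ _ _ _ _ _ _ _ k N σ i δ q hN h hj β Hh Λ h1 h2 h4 h5 h6 h7 h8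
  obtain ⟨a, ha, ha'⟩ := exists_hid (by rw [hj]; exact h3) q δ
  exact fineAt_swap i a σ hN h (fun F hF => hS ι Θ Ξ Q k N σ i a δ q hN h β Hh F hF)
    (H ι Θ Ξ Q k N σ a δ q hN h ha ha' hj β Hh Λ h1 h2 h4 h5 h6 h7 h8)

/-- **the refinement for hidden vertices** -/
theorem refH {j : ℕ} (h3 : 3 ≤ j) {κ : ℝ} (hκ : 0 < κ) {c C C1 : ℕ} (hc : 1 ≤ c) {Cd : ColdF} (hL : ColdL c Cd)
    (hC1 : ColdC j C1 Cd) (hF : FineBinH j κ c C Cd) : ∃ C' : ℕ, PieceBin j (κ / 2) C' := by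
  obtain ⟨C0, hC0⟩ := ref_num (j := j) hκ c C
  refine ⟨max C0 C1, pieceBin_of_hid h3 ?_⟩
  intro ι Θ Ξ Q _ _ _ _ _ _ _ _ k N σ a δ q hN h ha ha' hj β H Λ hβ hβ2 hβH hK hnear hΛ hΛe
  refine ref_model hc hC0 hL σ a δ q hN h hj hβ hβ2 hβH hK hnear hΛ hΛe ?_ ?_
  · intro h1 h2 F hFF
    exact hC1 ι Θ Ξ Q k N σ a δ q hN h hj β H Λ hβ hβ2 hβH hK h1 h2 hΛe F hFF
  · intro D Λ' h1 h2 h3 h4
    exact hF ι Θ Ξ Q k N σ a δ q hN (h + D) ha ha' hj β H Λ' hβ hβ2 hβH h1 h2 h3 h4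

end

end Pool.Agent.GM.Reloc
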