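import Pool.Agent.GM.S1Lay
import Pool.Agent.GM.EndA

/-!
# GM/S1LayE : the hypotheses `Tele` and `LastG` of `GM/EndA` for the layers of `GM/S1Lay` (helper65)

* `TRp L : Proc (Fin m)` = residual processes, `pcp L : PProc (Fin m)` = pieces;
* `tele_TRp : Tele (TRp L) (pcp L)`, `last_TRp : LastG (TRp L)`;
* `binI_fin` : `BinI (Fin m)` from layer 0 and the theorem of section 5.
-/

set_option autoImplicit false
set_option linter.unusedSectionVars false

namespace Pool.Agent.GM

open Finset Pool.Agent.PWZ Pool.Agent.M3 Pool.Agent.M3.Bin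
open Pool.Agent.M3.Mod (ex nd av dl pnd SC cel abs_av_le)

noncomputable section

variable {m : ℕ} [Nontrivial (Fin m)]

/-- the residual processes -/
def TRp (L : LayE) : Proc (Fin m) := fun _ _ F l e ω => TRm 0 L F l e ω

/-- the pieces -/
def pcp (L : LayE) : PProc (Fin m) := fun _ N F l q e ω => TT 0 (L.lh (l + 1)) (Pc N L F l q) e ω

theorem tele_TRp (L : LayE) : Tele (TRp (m := m) L) (pcp L) := fun _ _ _ _ l e ω => tele_step 0 L l e ω

theorem last_TRp (L : LayE) : LastG (TRp (m := m) L) := by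
  intro l0 N a ha b hb
  have hm : 0 < m := Fin.pos (Classical.arbitrary (Fin m))
  have hm' : (0 : ℝ) < m := by exact_mod_cast hm
  obtain ⟨n, hn1, hn2⟩ := L.exists_last l0 N (A := 2 * (9 * 2 ^ (m - 1))) (B := m) (by positivity) hm' ha hb
  refine ⟨n, fun k hk F hF => ?_⟩
  refine le_trans ?_ hn2
  refine le_trans (FP.Pr_mono _ fun ω _ hω => ?_) (TRm_small (N := N) (Θ := Unit) 0 L hk hF (l0 + n))
  obtain ⟨e, he, h5⟩ := hω
  refine ⟨e, he, le_trans ?_ h5⟩
  unfold LayE.rp
  linarith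

/-- THE FINITE THEOREM from layer 0 and section 5 -/
theorem binI_fin (L : LayE) (lstar : ℕ) (r p : ℕ → ℝ)
    (hr : Summable r) (hr0 : ∀ l, 0 ≤ r l) (hp : Summable p) (hp0 : ∀ l, 0 ≤ p l)
    (h5 : H5G (pcp (m := m) L) lstar r p) (h0 : ∀ l0, Lay0G (TRp (m := m) L) l0) : BinI (Fin m) :=
  binI_of (tele_TRp L) (last_TRp L) lstar r p hr hr0 hp hp0 h5 h0

end

end Pool.Agent.GM
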