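import Pool.Agent.GM.Model

/-!
# GM/S1Mod (section 1 in the model, every finite set `ι` of at least two vertices, offset `s`): the layers of a face
(helper19)

The face `i`: the point is `restr i x : {j // j ≠ i} → P × V k` (`restr i (vs ω) = ot i ω`, free law
`freeMap s N Θ P i` of `GM/Model`), small cells `faceC k P i`, tests `faceTests k P i` = products over `w ≠ i` of
functions which miss `i` and `w`.  The functions are `F : (ι → P × V k) → V k → ℝ` with `DependsOn F {i}ᶜ`; the
instance `[Nontrivial ι]` means two vertices at least (`Fin.nontrivial_iff_two_le` for `ι = Fin m`).  The layers do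
not depend on the offset; only (P3), (P4) see it.

* `Lf i h N ep th F e g x` = signed list, `Sf`, `Rf : Fam k ι P` = structured function and residual, `Pf` = number of
  public births at the node of `x`; `Lf_on`, `Sf_on`, `Rf_on`, `Pf_on` : they miss the vertex `i`;
* `Rf_PT` (P1), `Rf_PT_fine`, `Df_PT` (P2), `PT.scale`, `PT.mono`;
* `Llen s h i ep th F e ω` = length of the list; `Lf_mean`, `Lf_tail`, `Lf_future` (P3), `Pf_mean` (P4);
* `Sf_walsh` : Walsh form, products over `w ≠ i` of the sign functions `sgw i w s`, which miss `i` and `w`.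
-/

set_option autoImplicit false
set_option linter.unusedSectionVars false

namespace Pool.Agent.GM

open Finset Pool.Agent.PWZ Pool.Agent.M3 Pool.Agent.M3.Bin
open Pool.Agent.M3.Mod (ex nd av dl pnd SC cel mem_cel card_cel SC_eq av_eq)

noncomputable section

variable {k N : ℕ} {ι Θ P : Type} [Fintype ι] [DecidableEq ι]

instance instNonemptyFace [Nontrivial ι] (i : ι) : Nonempty {j : ι // j ≠ i} := by
  obtain ⟨j, hj⟩ := exists_ne i
  exact ⟨⟨j, hj⟩⟩

/-! ### the points of a face -/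

/-- the values at the vertices but `i` -/
def restr (i : ι) (x : ι → P × V k) : {j : ι // j ≠ i} → P × V k := fun j => x j.1

/-- the value `a` at the vertex `i`, `q` at the others -/
def glue (i : ι) (a : P × V k) (q : {j : ι // j ≠ i} → P × V k) : ι → P × V k := fun j =>
  if h : j = i then a else q ⟨j, h⟩

theorem restr_vs (i : ι) (ω : Sq k N ι Θ P) : restr i (vs ω) = ot i ω := rfl

theorem restr_congr {i : ι} {x y : ι → P × V k} (h : ∀ j ∈ ({i}ᶜ : Set ι), x j = y j) :
    restr i x = restr i y := funext fun j => h j.1 j.2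

theorem glue_self (i : ι) (a : P × V k) (q : {j : ι // j ≠ i} → P × V k) : glue i a q i = a := by
  unfold glue
  rw [dif_pos rfl]

theorem glue_ne {i j : ι} (h : j ≠ i) (a : P × V k) (q : {j : ι // j ≠ i} → P × V k) :
    glue i a q j = q ⟨j, h⟩ := by
  unfold glue
  rw [dif_neg h]

theorem restr_glue (i : ι) (a : P × V k) (q : {j : ι // j ≠ i} → P × V k) : restr i (glue i a q) = q :=
  funext fun j => glue_ne j.2 a q

theorem glue_restr (i : ι) (x : ι → P × V k) : glue i (x i) (restr i x) = x := by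
  funext j
  by_cases h : j = i
  · rw [h]
    exact glue_self _ _ _
  · exact glue_ne h _ _

/-- extension of the values at the vertices but `i` -/
def exv [Nonempty P] (i : ι) (q : {j : ι // j ≠ i} → P × V k) : ι → P × V k :=
  glue i (Classical.arbitrary _) q

theorem restr_exv [Nonempty P] (i : ι) (q : {j : ι // j ≠ i} → P × V k) : restr i (exv i q) = q :=
  restr_glue _ _ _

theorem exv_restr [Nonempty P] {β : Type*} {i : ι} {f : (ι → P × V k) → β}
    (hf : DependsOn f ({i}ᶜ : Set ι)) (x : ι → P × V k) : f (exv i (restr i x)) = f x :=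
  hf fun _ hj => glue_ne hj _ _

theorem glue_exv [Nonempty P] {β : Type*} {i : ι} {f : (ι → P × V k) → β}
    (hf : DependsOn f ({i}ᶜ : Set ι)) (a : P × V k) (q : {j : ι // j ≠ i} → P × V k) :
    f (glue i a q) = f (exv i q) := by
  rw [← exv_restr hf (glue i a q), restr_glue]

theorem card_ne (i : ι) : Fintype.card {j : ι // j ≠ i} = Fintype.card ι - 1 := by
  rw [Fintype.card_subtype_compl, Fintype.card_subtype_eq]

theorem card_erase_ne (i : ι) : (univ.erase i : Finset ι).card = Fintype.card ι - 1 := by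
  rw [Finset.card_erase_of_mem (mem_univ i), Finset.card_univ]

/-! ### the cells and the tests of a face -/

/-- the small cells of the points of the face `i` -/
def faceC (k : ℕ) (P : Type) [Fintype P] (i : ι) : Cells ({j : ι // j ≠ i} → P × V k) where
  cell j q := Fintype.piFinset fun l => cel j (q l).2
  self j q := by
    rw [Fintype.mem_piFinset]
    intro l
    rw [mem_cel]
  coh j q r hr := by
    rw [Fintype.mem_piFinset] at hr
    congr 1
    funext l
    have h1 := hr l
    rw [mem_cel] at h1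
    ext x
    rw [mem_cel, mem_cel, h1]

theorem faceC_cell [Fintype P] (i : ι) (j : ℕ) (q : {j : ι // j ≠ i} → P × V k) :
    (faceC k P i).cell j q = Fintype.piFinset fun l => cel j (q l).2 := rfl

theorem mem_faceC [Fintype P] (i : ι) (j : ℕ) (q r : {j : ι // j ≠ i} → P × V k) :
    r ∈ (faceC k P i).cell j q ↔ ∀ l, flr j (r l).2 = flr j (q l).2 := by
  rw [faceC_cell, Fintype.mem_piFinset]
  simp only [mem_cel]

theorem faceC_sub [Fintype P] (i : ι) (j j' : ℕ) (q : {j : ι // j ≠ i} → P × V k) (hj : j ≤ j') :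
    (faceC k P i).cell j q ⊆ (faceC k P i).cell j' q := by
  intro r hr
  rw [mem_faceC] at hr ⊢
  exact fun l => flr_mono_eq hj (hr l)

theorem card_faceC [Fintype P] (i : ι) {j : ℕ} (hj : j ≤ k) (q : {j : ι // j ≠ i} → P × V k) :
    (((faceC k P i).cell j q).card : ℝ) = (Fintype.card P * 2 ^ j) ^ (Fintype.card ι - 1) := by
  rw [faceC_cell, Fintype.card_piFinset]
  push_cast
  rw [Finset.prod_congr rfl fun l _ => card_cel hj (q l).2, Finset.prod_const, Finset.card_univ, card_ne]

theorem faceC_grow [Fintype P] (i : ι) (j : ℕ) (q : {j : ι // j ≠ i} → P × V k) (hj : j < k) :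
    (((faceC k P i).cell (j + 1) q).card : ℝ) ≤ 2 ^ (Fintype.card ι - 1) * ((faceC k P i).cell j q).card := by
  rw [card_faceC i (by omega) q, card_faceC i hj.le q, ← mul_pow, pow_succ]
  apply le_of_eq
  congr 1
  ring

/-- the points seen by the factor `w` of the tests of the face `i` -/
abbrev Yw (k : ℕ) (P : Type) (i : ι) (w : {j : ι // j ≠ i}) : Type :=
  {j : ι // j ≠ i ∧ j ≠ w.1} → P × V k

/-- the projection to the vertices but `i`, `w` -/
def prw (i : ι) (w : {j : ι // j ≠ i}) (q : {j : ι // j ≠ i} → P × V k) : Yw k P i w := fun j =>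
  q ⟨j.1, j.2.1⟩

/-- the index set of the sign tests of the face `i` -/
abbrev TJ (k : ℕ) (P : Type) (i : ι) : Type := Σ w : {j : ι // j ≠ i}, Yw k P i w × V k

/-- the product tests of the face `i` -/
def faceTests (k : ℕ) (P : Type) (i : ι) [Nontrivial ι] :
    Tests (TJ k P i) ({j : ι // j ≠ i} → P × V k) (V k) := prodTests (prw i)

theorem faceTests_test [Nontrivial ι] (i : ι) (t : TJ k P i → ℝ)
    (q : {j : ι // j ≠ i} → P × V k) (d : V k) :
    (faceTests k P i).test t q d = ∏ w : {j : ι // j ≠ i}, t ⟨w, prw i w q, d⟩ := rfl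

theorem faceTests_le [Nontrivial ι] (i : ι) (t : TJ k P i → ℝ) (ht : ∀ j, |t j| ≤ 1)
    (q : {j : ι // j ≠ i} → P × V k) (d : V k) : |(faceTests k P i).test t q d| ≤ 1 := by
  rw [faceTests_test, Finset.abs_prod]
  exact Finset.prod_le_one (fun w _ => abs_nonneg _) (fun w _ => ht _)

/-- extension of the values at the vertices but `i`, `w` -/
def exw [Nonempty P] (i : ι) (w : {j : ι // j ≠ i}) (y : Yw k P i w) : ι → P × V k := fun j =>
  if h : j ≠ i ∧ j ≠ w.1 then y ⟨j, h⟩ else Classical.arbitrary _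

/-- the parameter vector of the functions `v w` -/
def tvec [Nonempty P] (i : ι) (v : ι → (ι → P × V k) → V k → ℝ) : TJ k P i → ℝ := fun j =>
  v j.1.1 (exw i j.1 j.2.1) j.2.2

theorem faceTests_tvec [Nonempty P] [Nontrivial ι] (i : ι) {v : ι → (ι → P × V k) → V k → ℝ}
    (hv : ∀ w, w ≠ i → DependsOn (v w) ({i, w}ᶜ : Set ι)) (x : ι → P × V k) (d : V k) :
    (faceTests k P i).test (tvec i v) (restr i x) d = ∏ w ∈ univ.erase i, v w x d := by
  rw [faceTests_test, Finset.prod_subtype (univ.erase i) (p := fun l => l ≠ i) (by simp)]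
  refine Finset.prod_congr rfl fun w _ => ?_
  refine congrFun (hv w.1 w.2 fun j hj => ?_) d
  have h1 : j ≠ i ∧ j ≠ w.1 := ⟨fun h => hj (Or.inl h), fun h => hj (Or.inr h)⟩
  show exw i w (prw i w (restr i x)) j = x j
  unfold exw
  rw [dif_pos h1]
  rfl

theorem abs_tvec [Nonempty P] (i : ι) {v : ι → (ι → P × V k) → V k → ℝ} {H : ℝ}
    (hv : ∀ w x d, |v w x d| ≤ H) (j : TJ k P i) : |tvec i v j| ≤ H := hv _ _ _

/-! ### general facts on families and product tests -/

/-- counting in the product of the small cells = counting in the cell of the face -/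
theorem card_face [Fintype P] (i : ι) (h e : ℕ) (c : ι → V k) (p : (ι → P × V k) → Prop) [DecidablePred p]
    (p' : ({j : ι // j ≠ i} → P × V k) → Prop) [DecidablePred p'] (hp : ∀ x, p x ↔ p' (restr i x))
    (q0 : {j : ι // j ≠ i} → P × V k) (hq0 : ∀ l, (q0 l).2 = c l.1) :
    (((SCm (P := P) h e c).filter p).card : ℝ) =
      (SC (P := P) h e (c i)).card * (((faceC k P i).cell (e - (h + 3)) q0).filter p').card := by
  rw [← Nat.cast_mul, ← Finset.card_product]
  congr 1
  refine Finset.card_nbij' (fun x => (x i, restr i x)) (fun y => glue i y.1 y.2) ?_ ?_ ?_ ?_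
  · intro x hx
    have hx' := Finset.mem_filter.1 (Finset.mem_coe.1 hx)
    rw [mem_SCm] at hx'
    refine Finset.mem_coe.2 (Finset.mem_product.2 ⟨?_, Finset.mem_filter.2 ⟨?_, (hp x).1 hx'.2⟩⟩)
    · rw [SC_eq, mem_cel]
      exact hx'.1 i
    · rw [mem_faceC]
      intro l
      rw [hq0]
      exact hx'.1 l.1
  · intro y hy
    have hy' := Finset.mem_product.1 (Finset.mem_coe.1 hy)
    have hy2 := Finset.mem_filter.1 hy'.2
    rw [SC_eq, mem_cel] at hy'
    rw [mem_faceC] at hy2
    refine Finset.mem_coe.2 (Finset.mem_filter.2 ⟨?_, ?_⟩)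
    · rw [mem_SCm]
      intro l
      show flr (e - (h + 3)) (glue i y.1 y.2 l).2 = flr (e - (h + 3)) (c l)
      by_cases hl : l = i
      · rw [hl, glue_self]
        exact hy'.1
      · rw [glue_ne hl, hy2.1 ⟨l, hl⟩, hq0]
    · rw [hp, restr_glue]
      exact hy2.2
  · intro x _
    exact glue_restr i x
  · intro y _
    exact Prod.ext (glue_self _ _ _) (restr_glue _ _ _)

theorem fine_on {I : Set ι} {R : Fam k ι P} (hR : FOn I R) (h : ℕ) : FOn I (fine h R) := fun _ _ =>
  hR _ _

theorem fine_le {H : ℝ} {R : Fam k ι P} (hR : FLe H R) (h : ℕ) : FLe H (fine h R) := fun _ _ _ _ => hR _ _ _ _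

/-- product tests for tests bounded by `H` -/
theorem PT.scale [Fintype P] {i : ι} {h : ℕ} {R : Fam k ι P} {θ r : ℝ} (hR : PT i h N R θ r 1) {H : ℝ} (hH : 0 < H) :
    PT i h N R θ (r * H ^ (Fintype.card ι - 1)) H := by
  intro e he g hg c v hvi hv
  have h1 := hR e he g hg c (fun w x d => v w x d / H)
    (fun w hw x y hxy => funext fun d => by
      show v w x d / H = v w y d / H
      rw [hvi w hw hxy])
    (fun w x d => by rw [abs_div, abs_of_pos hH, div_le_one hH]; exact hv w x d)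
  refine le_trans (le_of_eq ?_) h1
  congr 2
  refine Finset.filter_congr (fun x _ => ?_)
  have h3 : av e g.1 (fun d => R e g x d * ∏ w ∈ univ.erase i, v w x d / H) =
      av e g.1 (fun d => R e g x d * ∏ w ∈ univ.erase i, v w x d) / H ^ (Fintype.card ι - 1) := by
    unfold av
    rw [mul_div_assoc, Finset.sum_div]
    congr 1
    refine Finset.sum_congr rfl (fun n _ => ?_)
    show R e g x (g.1 - n) * ∏ w ∈ univ.erase i, v w x (g.1 - n) / H =
      R e g x (g.1 - n) * (∏ w ∈ univ.erase i, v w x (g.1 - n)) / H ^ (Fintype.card ι - 1)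
    rw [Finset.prod_div_distrib, Finset.prod_const, card_erase_ne, mul_div_assoc]
  rw [h3, abs_div, abs_of_pos (by positivity : (0 : ℝ) < H ^ (Fintype.card ι - 1)), le_div_iff₀ (by positivity)]

theorem PT.mono [Fintype P] {i : ι} {h : ℕ} {R : Fam k ι P} {θ θ' r r' H H' : ℝ} (hR : PT i h N R θ r H)
    (hθ : θ ≤ θ') (hr : r ≤ r') (hH : H' ≤ H) : PT i h N R θ' r' H' := by
  intro e he g hg c v hvi hv
  have h1 := hR e he g hg c v hvi (fun w x d => (hv w x d).trans hH)
  have h2 : ((SCm (P := P) h e c).filter fun x =>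
      r' ≤ |av e g.1 (fun d => R e g x d * ∏ w ∈ univ.erase i, v w x d)|) ⊆
      ((SCm (P := P) h e c).filter fun x =>
      r ≤ |av e g.1 (fun d => R e g x d * ∏ w ∈ univ.erase i, v w x d)|) := by
    intro x hx
    rw [Finset.mem_filter] at hx ⊢
    exact ⟨hx.1, hr.trans hx.2⟩
  have h3 : (((SCm (P := P) h e c).filter fun x =>
      r' ≤ |av e g.1 (fun d => R e g x d * ∏ w ∈ univ.erase i, v w x d)|).card : ℝ) ≤
      ((SCm (P := P) h e c).filter fun x =>
      r ≤ |av e g.1 (fun d => R e g x d * ∏ w ∈ univ.erase i, v w x d)|).card := by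
    exact_mod_cast Finset.card_le_card h2
  refine (h3.trans h1).trans (mul_le_mul_of_nonneg_right hθ (Nat.cast_nonneg _))

/-! ### the families of a layer -/

section defs

variable [Fintype P] [Nonempty P] [Nontrivial ι]

/-- signed list of the face `i` -/
def Lf (i : ι) (h N : ℕ) (ep th : ℝ) (F : (ι → P × V k) → V k → ℝ) (e : ℕ) (g : V k × ℕ)
    (x : ι → P × V k) : List (Birth (TJ k P i → Bool)) :=
  LB (faceC k P i) (faceTests k P i) h N ep th (fun q => F (exv i q)) e g (restr i x)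

/-- structured function of the face `i` -/
def Sf (i : ι) (h N : ℕ) (ep th : ℝ) (F : (ι → P × V k) → V k → ℝ) : Fam k ι P := fun e g x d =>
  SB (faceC k P i) (faceTests k P i) h N ep th (fun q => F (exv i q)) e g (restr i x) d

/-- residual of the face `i` -/
def Rf (i : ι) (h N : ℕ) (ep th : ℝ) (F : (ι → P × V k) → V k → ℝ) : Fam k ι P := fun e g x d =>
  F x d - Sf i h N ep th F e g x d

/-- number of public births at the node of the point of the face `i` -/
def Pf (i : ι) (h N : ℕ) (ep th : ℝ) (F : (ι → P × V k) → V k → ℝ) (e : ℕ) (g : V k × ℕ)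
    (x : ι → P × V k) : ℕ :=
  PB (faceC k P i) (faceTests k P i) h N ep th (fun q => F (exv i q)) e g (restr i x)

/-- the sign function `w` of a birth of the face `i` (it misses `i` and `w`; `1` for `w = i`) -/
def sgw (i w : ι) (s : Birth (TJ k P i → Bool)) (x : ι → P × V k) (d : V k) : ℝ :=
  if h : w ≠ i then sgn s.τ ⟨⟨w, h⟩, prw i ⟨w, h⟩ (restr i x), d⟩ else 1

end defs

variable [Fintype P] [Nonempty P] [Nontrivial ι] {i : ι} {h : ℕ} {ep th : ℝ}
  {F : (ι → P × V k) → V k → ℝ}

theorem Rf_eq (e : ℕ) (g : V k × ℕ) (x : ι → P × V k) (d : V k) :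
    Rf i h N ep th F e g x d = F x d - Sf i h N ep th F e g x d := rfl

theorem Lf_on (i : ι) (h N : ℕ) (ep th : ℝ) (F : (ι → P × V k) → V k → ℝ) (e : ℕ) (g : V k × ℕ) :
    DependsOn (Lf i h N ep th F e g) ({i}ᶜ : Set ι) := by
  intro x y hxy
  unfold Lf
  rw [restr_congr hxy]

theorem Pf_on (i : ι) (h N : ℕ) (ep th : ℝ) (F : (ι → P × V k) → V k → ℝ) (e : ℕ) (g : V k × ℕ) :
    DependsOn (Pf i h N ep th F e g) ({i}ᶜ : Set ι) := by
  intro x y hxy
  unfold Pf
  rw [restr_congr hxy]

theorem Sf_on (i : ι) (h N : ℕ) (ep th : ℝ) (F : (ι → P × V k) → V k → ℝ) :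
    FOn ({i}ᶜ : Set ι) (Sf i h N ep th F) := by
  intro e g x y hxy
  funext d
  unfold Sf
  rw [restr_congr hxy]

theorem Rf_on (hFi : DependsOn F ({i}ᶜ : Set ι)) :
    FOn ({i}ᶜ : Set ι) (Rf i h N ep th F) := by
  intro e g x y hxy
  funext d
  rw [Rf_eq, Rf_eq, Sf_on i h N ep th F e g hxy, hFi hxy]

theorem abs_Sf (e : ℕ) (g : V k × ℕ) (x : ι → P × V k) (d : V k) : |Sf i h N ep th F e g x d| ≤ 1 :=
  abs_SB _ _ _ _ _ _ _ _

theorem abs_Rf (hF : ∀ x d, |F x d| ≤ 1) (e : ℕ) (g : V k × ℕ) (x : ι → P × V k) (d : V k) :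
    |Rf i h N ep th F e g x d| ≤ 2 := by
  rw [Rf_eq]
  have h1 := abs_sub (F x d) (Sf i h N ep th F e g x d)
  have h2 := abs_Sf (i := i) (h := h) (N := N) (ep := ep) (th := th) (F := F) e g x d
  linarith [hF x d]

theorem Sf_le (i : ι) (h N : ℕ) (ep th : ℝ) (F : (ι → P × V k) → V k → ℝ) :
    FLe 1 (Sf i h N ep th F) := fun e g x d => abs_Sf e g x d

theorem Rf_le (hF : ∀ x d, |F x d| ≤ 1) : FLe 2 (Rf i h N ep th F) := fun e g x d => abs_Rf hF e g x d

theorem Lf_mono {e : ℕ} (he : e < N) (g : V k × ℕ) (x : ι → P × V k) :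
    Lf i h N ep th F (e + 1) (par h e g) x <:+ Lf i h N ep th F e g x :=
  LB_mono _ _ _ _ he g (restr i x)

/-- the residual on the extension of a point of the face -/
theorem Rf_exv (e : ℕ) (g : V k × ℕ) (q : {j : ι // j ≠ i} → P × V k) :
    Rf i h N ep th F e g (exv i q) =
      RB (faceC k P i) (faceTests k P i) h N ep th (fun q => F (exv i q)) e g q := by
  funext d
  rw [Rf_eq]
  unfold Sf
  rw [restr_exv]
  rfl

/-! ### product tests -/

/-- from the points of the face to the points of all vertices -/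
theorem PT_of {h N : ℕ} {R : Fam k ι P} (hR : FOn ({i}ᶜ : Set ι) R) {θ r : ℝ}
    (H : ∀ e ≤ N, ∀ g : V k × ℕ, ∀ (q0 : {j : ι // j ≠ i} → P × V k) (t : TJ k P i → ℝ), (∀ j, |t j| ≤ 1) →
      ((((faceC k P i).cell (e - (h + 3)) q0).filter fun q =>
        r ≤ |ip e g.1 (R e g (exv i q)) ((faceTests k P i).test t q)|).card : ℝ) ≤
        θ * ((faceC k P i).cell (e - (h + 3)) q0).card) : PT i h N R θ r 1 := by
  classical
  intro e he g _ c v hv hv1
  obtain ⟨p0⟩ := ‹Nonempty P›
  set q0 : {j : ι // j ≠ i} → P × V k := fun l => (p0, c l.1) with hq0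
  have h1 := H e he g q0 (tvec i v) (abs_tvec i hv1)
  have h2 := card_face (P := P) i h e c (fun x =>
      r ≤ |av e g.1 (fun d => R e g x d * ∏ w ∈ univ.erase i, v w x d)|)
      (fun q => r ≤ |ip e g.1 (R e g (exv i q)) ((faceTests k P i).test (tvec i v) q)|) (fun x => by
        have h3 : R e g (exv i (restr i x)) = R e g x := exv_restr (hR e g) x
        have h4 : (faceTests k P i).test (tvec i v) (restr i x) = fun d => ∏ w ∈ univ.erase i, v w x d :=
          funext fun d => faceTests_tvec i hv x d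
        rw [h3, h4, ← av_eq]) q0 (fun l => rfl)
  have h3 := card_face (P := P) i h e c (fun _ => True) (fun _ => True) (fun _ => Iff.rfl) q0 (fun l => rfl)
  rw [Finset.filter_true_of_mem (fun _ _ => trivial), Finset.filter_true_of_mem (fun _ _ => trivial)] at h3
  rw [h2, h3, mul_left_comm]
  exact mul_le_mul_of_nonneg_left h1 (Nat.cast_nonneg _)

/-- (P1) -/
theorem Rf_PT (hFi : DependsOn F ({i}ᶜ : Set ι)) (hF : ∀ x d, |F x d| ≤ 1) (hep : 0 < ep) (hth : 0 < th) :
    PT i h N (Rf i h N ep th F) th (4 * ep) 1 := by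
  refine PT_of (Rf_on hFi) (fun e he g q0 t ht => ?_)
  have h1 := RB_test (faceC k P i) (faceTests k P i) h N (ep := ep) (th := th)
    (F := fun q => F (exv i q)) (fun _ d => hF _ d) hep hth he g q0 t ht
  refine le_trans (le_of_eq ?_) h1
  congr 2
  refine Finset.filter_congr (fun q _ => ?_)
  rw [Rf_exv]

/-- (P1) at a finer rounding -/
theorem Rf_PT_fine (hN : N ≤ k) (hFi : DependsOn F ({i}ᶜ : Set ι)) (hF : ∀ x d, |F x d| ≤ 1) (hep : 0 < ep)
    (hth : 0 < th) (hrd : 4 * ((2 : ℝ) ^ h)⁻¹ ≤ ep) {h' D : ℕ} (hD : h' = h + D) :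
    PT i h' N (fine h (Rf i h N ep th F)) (th * ((2 : ℝ) ^ (Fintype.card ι - 1)) ^ D) (5 * ep) 1 := by
  refine PT_of (fine_on (Rf_on hFi) h) (fun e he g q0 t ht => ?_)
  have h1 := RB_test_fine (faceC k P i) (faceTests k P i) h N (ep := ep) (th := th)
    (F := fun q => F (exv i q)) (fun _ d => hF _ d) hep hth he (faceTests_le i) hrd (K := (2 : ℝ) ^ (Fintype.card ι - 1))
    (h' := h') (D := D) (by omega) hD (fun j j' x hj => faceC_sub i j j' x hj)
    (fun j x hj => faceC_grow i j x (by omega)) (one_le_pow₀ (by norm_num)) g q0 t ht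
  refine le_trans (le_of_eq ?_) h1
  congr 2
  refine Finset.filter_congr (fun q _ => ?_)
  unfold fine
  rw [Rf_exv]

/-- (P2): the difference of two layers, at the rounding of the second -/
theorem Df_PT (hN : N ≤ k) (hFi : DependsOn F ({i}ᶜ : Set ι)) (hF : ∀ x d, |F x d| ≤ 1) (hep : 0 < ep)
    (hth : 0 < th) (hrd : 4 * ((2 : ℝ) ^ h)⁻¹ ≤ ep) {h' D : ℕ} (hD : h' = h + D) {ep' th' : ℝ} (hep' : 0 < ep')
    (hth' : 0 < th') (hle : ep' ≤ ep) :
    PT i h' N (fun e g x d => fine h (Rf i h N ep th F) e g x d - Rf i h' N ep' th' F e g x d)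
      (th * ((2 : ℝ) ^ (Fintype.card ι - 1)) ^ D + th') (9 * ep) 1 := by
  classical
  intro e he g hg c v hvi hv
  have h1 := Rf_PT_fine (P := P) hN hFi hF hep hth hrd hD e he g hg c v hvi hv
  have h2 := Rf_PT (P := P) (N := N) (h := h') hFi hF hep' hth' e he g hg c v hvi hv
  rw [add_mul]
  refine le_trans ?_ (add_le_add h1 h2)
  have h3 : ((SCm (P := P) h' e c).filter fun x =>
      9 * ep ≤ |av e g.1 (fun d => (fine h (Rf i h N ep th F) e g x d - Rf i h' N ep' th' F e g x d) *
        ∏ w ∈ univ.erase i, v w x d)|) ⊆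
      ((SCm (P := P) h' e c).filter fun x =>
        5 * ep ≤ |av e g.1 (fun d => fine h (Rf i h N ep th F) e g x d * ∏ w ∈ univ.erase i, v w x d)|) ∪
      ((SCm (P := P) h' e c).filter fun x =>
        4 * ep' ≤ |av e g.1 (fun d => Rf i h' N ep' th' F e g x d * ∏ w ∈ univ.erase i, v w x d)|) := by
    intro x hx
    rw [Finset.mem_filter] at hx
    rw [Finset.mem_union, Finset.mem_filter, Finset.mem_filter]
    have h4 : av e g.1 (fun d => (fine h (Rf i h N ep th F) e g x d - Rf i h' N ep' th' F e g x d) *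
        ∏ w ∈ univ.erase i, v w x d) =
        av e g.1 (fun d => fine h (Rf i h N ep th F) e g x d * ∏ w ∈ univ.erase i, v w x d) -
        av e g.1 (fun d => Rf i h' N ep' th' F e g x d * ∏ w ∈ univ.erase i, v w x d) := by
      unfold av
      rw [← mul_sub, ← Finset.sum_sub_distrib]
      congr 1
      exact Finset.sum_congr rfl (fun n _ => by ring)
    rw [h4] at hx
    by_contra hcon
    push Not at hcon
    have h5 := hcon.1 hx.1
    have h6 := hcon.2 hx.1
    have h7 := abs_sub (av e g.1 (fun d => fine h (Rf i h N ep th F) e g x d * ∏ w ∈ univ.erase i, v w x d))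
      (av e g.1 (fun d => Rf i h' N ep' th' F e g x d * ∏ w ∈ univ.erase i, v w x d))
    linarith [hx.2]
  have h8 := (Finset.card_le_card h3).trans (Finset.card_union_le _ _)
  exact_mod_cast h8

/-! ### the Walsh form -/

theorem sgw_on (i w : ι) (s : Birth (TJ k P i → Bool)) :
    DependsOn (sgw i w s) ({i, w}ᶜ : Set ι) := by
  intro x y hxy
  funext d
  unfold sgw
  by_cases hw : w ≠ i
  · rw [dif_pos hw, dif_pos hw]
    have h1 : prw i ⟨w, hw⟩ (restr i x) = prw i ⟨w, hw⟩ (restr i y) := by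
      funext j
      exact hxy j.1 fun hj => hj.elim (fun h => j.2.1 h) (fun h => j.2.2 h)
    rw [h1]
  · rw [dif_neg hw, dif_neg hw]

theorem sgw_or (i w : ι) (s : Birth (TJ k P i → Bool)) (x : ι → P × V k) (d : V k) :
    sgw i w s x d = 1 ∨ sgw i w s x d = -1 := by
  unfold sgw
  by_cases hw : w ≠ i
  · rw [dif_pos hw]
    exact sgn_or _ _
  · rw [dif_neg hw]
    exact Or.inl rfl

theorem abs_sgw (i w : ι) (s : Birth (TJ k P i → Bool)) (x : ι → P × V k) (d : V k) :
    |sgw i w s x d| = 1 := by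
  rcases sgw_or i w s x d with h1 | h1 <;> rw [h1] <;> simp

/-- a sign test of the face `i` is the product of its sign functions -/
theorem faceTests_val (i : ι) (s : Birth (TJ k P i → Bool)) (x : ι → P × V k) (d : V k) :
    (faceTests k P i).val s.τ (restr i x) d = ∏ w ∈ univ.erase i, sgw i w s x d := by
  unfold Tests.val
  rw [faceTests_test, Finset.prod_subtype (univ.erase i) (p := fun l => l ≠ i) (by simp)]
  refine Finset.prod_congr rfl fun w _ => ?_
  unfold sgw
  rw [dif_pos w.2]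

/-- the Walsh form -/
theorem Sf_walsh (e : ℕ) (g : V k × ℕ) (x : ι → P × V k) (d : V k) :
    Sf i h N ep th F e g x d =
      ∑ I : Finset (Fin ((Lf i h N ep th F e g x).map (fun s => ∏ w ∈ univ.erase i, sgw i w s x d)).length),
      psiC ep ((Lf i h N ep th F e g x).map (fun s => ∏ w ∈ univ.erase i, sgw i w s x d)).length I *
        ∏ j ∈ I, ((Lf i h N ep th F e g x).map (fun s => ∏ w ∈ univ.erase i, sgw i w s x d)).get j := by
  have h1 := SB_walsh (faceC k P i) (faceTests k P i) h N (ep := ep) (th := th)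
    (F := fun q => F (exv i q)) e g (restr i x) d
  have h2 : (fun s : Birth (TJ k P i → Bool) => (faceTests k P i).val s.τ (restr i x) d) =
      (fun s => ∏ w ∈ univ.erase i, sgw i w s x d) := by
    funext s
    exact faceTests_val i s x d
  rw [h2] at h1
  exact h1

/-! ### (P3), (P4) -/

/-- the length of the list of the face `i` at a sample point -/
def Llen (s : V k) (h : ℕ) (i : ι) (ep th : ℝ) (F : (ι → P × V k) → V k → ℝ) (e : ℕ) (ω : Sq k N ι Θ P) : ℝ :=
  (Lf i h N ep th F e (Gm s h e ω) (vs ω)).length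

variable [Fintype Θ] [Nonempty Θ]

theorem Llen_eq (s : V k) (i : ι) (e : ℕ) (ω : Sq k N ι Θ P) :
    Llen s h i ep th F e ω = LBlen (faceC k P i) (faceTests k P i) h ep th (fun q => F (exv i q))
      (freeMap s N Θ P i) e ω := rfl

theorem Llen_mono (s : V k) (i : ι) {e : ℕ} (he : e < N) (ω : Sq k N ι Θ P) :
    Llen s h i ep th F (e + 1) ω ≤ Llen s h i ep th F e ω := by
  rw [Llen_eq, Llen_eq]
  exact LBlen_mono _ _ _ _ he ω

theorem Lf_mean (s : V k) (i : ι) (hF : ∀ x d, |F x d| ≤ 1) (hep : 0 < ep) (hrd : 32 * ((2 : ℝ) ^ h)⁻¹ ≤ ep ^ 2) :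
    (Pm : FP (Sq k N ι Θ P)).E (Llen s h i ep th F 0) ≤ 2 / ep ^ 2 :=
  LB_mean (faceC k P i) (faceTests k P i) h (freeMap s N Θ P i) (fun _ d => hF _ d) hep hrd

theorem Lf_future (s : V k) (i : ι) (hF : ∀ x d, |F x d| ≤ 1) (hep : 0 < ep) (hrd : 32 * ((2 : ℝ) ^ h)⁻¹ ≤ ep ^ 2)
    {e : ℕ} (he : e ≤ N) {f : Sq k N ι Θ P → ℝ}
    (hf : Fac (fun ω => (ot i ω, Yn s e ω)) f) (hf0 : ∀ ω, 0 ≤ f ω) :
    (Pm : FP (Sq k N ι Θ P)).E (fun ω => f ω * (Llen s h i ep th F 0 ω - Llen s h i ep th F e ω)) ≤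
      8 / ep ^ 2 * (Pm : FP (Sq k N ι Θ P)).E f := by
  refine LB_future (faceC k P i) (faceTests k P i) h (freeMap s N Θ P i)
    (fun _ d => hF _ d) hep hrd he (fun v u hvu => hf v u ?_) hf0
  exact hvu

theorem Lf_tail (s : V k) (i : ι) (hF : ∀ x d, |F x d| ≤ 1) (hep : 0 < ep) (hrd : 32 * ((2 : ℝ) ^ h)⁻¹ ≤ ep ^ 2)
    (n : ℕ) :
    (Pm : FP (Sq k N ι Θ P)).Pr (fun ω => (n : ℝ) * (64 / (3 * ep ^ 2)) ≤ Llen s h i ep th F 0 ω) ≤ (1 / 2) ^ n :=
  LB_tail (faceC k P i) (faceTests k P i) h (freeMap s N Θ P i) (fun _ d => hF _ d) hep hrd n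

theorem Pf_mean (s : V k) (i : ι) (hF : ∀ x d, |F x d| ≤ 1) (hep : 0 < ep) (hth : 0 < th)
    (hrd : 32 * ((2 : ℝ) ^ h)⁻¹ ≤ ep ^ 2) :
    (Pm : FP (Sq k N ι Θ P)).E (fun ω => ∑ e ∈ range (N + 1), (Pf i h N ep th F e (Gm s h e ω) (vs ω) : ℝ)) ≤
      32 / (ep ^ 3 * th) :=
  pubs_mean (faceC k P i) (faceTests k P i) h (freeMap s N Θ P i) (fun _ d => hF _ d) hep hth hrd

end

end Pool.Agent.GM
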