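import Pool.Agent.GM.SMI2
import Pool.Agent.GM.GSscale
import Pool.Agent.GMN.TjSMI

/-!
# GM/SMIb2 (helper14): (SMI_2) for all binary models in the form `SMIbin`

`smiBin_two : SMIbin 2 12`, from helper48's `SMI_card_two'` (Lemma M').
-/

set_option autoImplicit false
set_option linter.unusedSectionVars false

namespace Pool.Agent.GMN

open Finset Pool.Agent.PWZ Pool.Agent.M3 Pool.Agent.M3.TS Pool.Agent.M3.Bin Pool.Agent.GM

noncomputable section

theorem smi2_num {β H L : ℝ} (hβ : 0 < β) (hβ2 : β ≤ 1 / 2) (hβH : 1 / β ≤ H) (hL0 : 0 ≤ L) (hL : L ≤ H) :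
    2 * 10 ^ 8 * H * (401 / β) ^ 4 * (1 + L) * Real.sqrt (Real.exp (-H ^ 12)) ≤ Real.exp (-H) := by
  have hH2 : 2 ≤ H := by
    have : 2 ≤ 1 / β := by
      rw [le_div_iff₀ hβ]
      linarith
    linarith
  have hH0 : 0 < H := by linarith
  have e1 : Real.sqrt (Real.exp (-H ^ 12)) = Real.exp (-H ^ 12 / 2) := by
    rw [← Real.exp_half]
  have e2 : (401 / β) ^ 4 ≤ (401 * H) ^ 4 := by
    refine pow_le_pow_left₀ (by positivity) ?_ 4
    have : 401 / β = 401 * (1 / β) := by ring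
    rw [this]
    linarith
  have e3 : 2 * 10 ^ 8 * H * (401 / β) ^ 4 * (1 + L) ≤ H ^ 70 := by
    calc 2 * 10 ^ 8 * H * (401 / β) ^ 4 * (1 + L) ≤ 2 * 10 ^ 8 * H * (401 * H) ^ 4 * (H * H) := by
          gcongr
          nlinarith
      _ = (2 * 10 ^ 8 * 401 ^ 4) * H ^ 7 := by ring
      _ ≤ 2 ^ 63 * H ^ 7 := by
          gcongr
          norm_num
      _ ≤ H ^ 63 * H ^ 7 := by
          gcongr
      _ = H ^ 70 := by ring
  have e4 : H ^ 70 ≤ Real.exp (70 * H) := by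
    have h1 : H ≤ Real.exp H := by
      have := Real.add_one_le_exp H
      linarith
    calc H ^ 70 ≤ (Real.exp H) ^ 70 := pow_le_pow_left₀ hH0.le h1 70
      _ = Real.exp (70 * H) := by
          rw [← Real.exp_nat_mul]
          norm_num
  have e5 : 71 * H ≤ H ^ 12 / 2 := by
    have h1 : (2 : ℝ) ^ 11 ≤ H ^ 11 := pow_le_pow_left₀ (by norm_num) hH2 11
    have h2 : H ^ 12 = H * H ^ 11 := by ring
    rw [h2]
    nlinarith
  rw [e1]
  calc 2 * 10 ^ 8 * H * (401 / β) ^ 4 * (1 + L) * Real.exp (-H ^ 12 / 2)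
      ≤ Real.exp (70 * H) * Real.exp (-H ^ 12 / 2) := mul_le_mul_of_nonneg_right (e3.trans e4) (Real.exp_pos _).le
    _ = Real.exp (70 * H + -H ^ 12 / 2) := (Real.exp_add _ _).symm
    _ ≤ Real.exp (-H) := Real.exp_le_exp.2 (by linarith)

/-- **(SMI_2) for all binary models** -/
theorem smiBin_two : SMIbin 2 12 := by
  intro ι Θ Ξ Q _ _ _ _ _ _ _ _ k N σ i δ hN h hcard β H hβ hβ2 hβH hK hnear
  have hH2 : 2 ≤ H := by
    have : 2 ≤ 1 / β := by
      rw [le_div_iff₀ hβ]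
      linarith
    linarith
  have hH0 : 0 < H := by linarith
  set Kn : ℝ := (((Fintype.card ι + 4) * 2 ^ (h + 3) : ℕ) : ℝ) with hKn
  have hK' : Kn ≤ Real.exp H := hK
  have hKn1 : 1 ≤ Kn := by
    rw [hKn]
    exact_mod_cast Nat.one_le_iff_ne_zero.2 (by positivity)
  have hn' : 8 * ((2 : ℝ) ^ h)⁻¹ ≤ β ^ 12 := hnear
  have h2 : (0 : ℝ) < 2 ^ h := by positivity
  have hb12 : 8 ≤ β ^ 12 * 2 ^ h := by
    rw [← div_eq_mul_inv, div_le_iff₀ h2] at hn'
    exact hn'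
  have hb11 : β ^ 11 ≤ (1 / 2) ^ 11 := pow_le_pow_left₀ hβ.le hβ2 11
  have hX : 12832 * (1 : ℝ) ^ 2 ≤ β * 2 ^ h := by
    have e1 : β ^ 12 * 2 ^ h = β ^ 11 * (β * 2 ^ h) := by ring
    have e2 : 0 ≤ β * 2 ^ h := by positivity
    rw [e1] at hb12
    norm_num at hb11
    nlinarith
  have hacc : 802 * β ^ 12 * (1 : ℝ) ≤ β := by
    have e1 : β ^ 12 = β * β ^ 11 := by ring
    norm_num at hb11
    rw [e1]
    nlinarith
  have hunivc : (univ : Finset ι).card = 2 := by rw [Finset.card_univ]; exact hcard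
  have h3 := SMI_card_two' (Θ := Θ) (Ξ := Ξ) (Q := Q) σ hunivc (mem_univ δ) i hN h (X := 1) (m0 := H)
    (θ := Real.exp (-H ^ 12)) (acc := β ^ 12) (r := β) one_pos hH0.le (Real.exp_pos _)
    (Real.exp_le_one_iff.2 (by
      have := pow_pos hH0 12
      linarith)) hβ (by linarith) hX hacc
  have hlog0 : 0 ≤ Real.log Kn := Real.log_nonneg hKn1
  have hlog : Real.log Kn ≤ H := by
    rw [Real.log_le_iff_le_exp (by linarith)]
    exact hK'
  refine Sys.SMIat.mono h3 le_rfl le_rfl le_rfl le_rfl le_rfl ?_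
  have h4 := smi2_num hβ hβ2 hβH hlog0 hlog
  rw [one_pow, mul_one]
  exact h4

end

end Pool.Agent.GMN
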