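import Pool.Agent.GM.GSpar
import Pool.Agent.GM.SMIb2
import Pool.Agent.GM.Harm2
import Pool.Agent.GM.CLtwo

/-!
# GM/SInd (helper85): the induction on `j` of the strong moving form (SMI_j), row A12

* `smiBin_mono`, `smiBin_common` : one exponent for all `i < j`;
* `HarmAll k`, `ClsAll v` : HARM(k) (weak) and (CL_v) for all finite types of known vertices; `harmAll_two`, `clsAll_two`;
* `Below j` = what the step `j` may use of smaller systems: one exponent for `SMIbin i`, `2 ≤ i < j`; HARM(k), `2 ≤ k < j`;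
  (CL_v), `2 ≤ v`, `v + 2 ≤ j`;
* `ind_core`, `below_top` : the induction with an abstract step;
* **`smi_ind`** : (SMI_j) for all `j ≤ m` from the pieces, with named inputs HARM(k), `3 ≤ k < m`, (CL_v), `3 ≤ v ≤ m - 2`,
  and the cold sets (abstract property `Cold j` of the level `j`); `below_ind`, `smi_top` : the coin free top level;
* `below_three`, `smi_three` : no open input; `below_four`, **`smi_four`** : the only open input is HARM(3).
-/

set_option autoImplicit false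

namespace Pool.Agent.GM.GS

open Finset Pool.Agent.PWZ Pool.Agent.M3 Pool.Agent.M3.TS Pool.Agent.M3.Bin Pool.Agent.GM Pool.Agent.GM.Mv Pool.Agent.GMN

noncomputable section

/-! ### exponents -/

theorem SMIat_mono {ι Om Ξ Pt V Γ κ : Type} [Fintype ι] [DecidableEq ι] [Fintype Om] [Fintype Ξ] [Fintype Pt]
    [Fintype V] (S : Sys ι Om Ξ Pt V Γ κ) {Vj : Finset ι} {δ : ι} {X m0 θ θ' acc acc' r out : ℝ} (hθ : θ' ≤ θ)
    (ha : acc' ≤ acc) (H : S.SMIat Vj δ X m0 θ acc r out) : S.SMIat Vj δ X m0 θ' acc' r out := by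
  intro Ψ h1 h2 h3 h4 h5 h6
  refine H Ψ h1 h2 h3 h4 h5 fun w hw t ht w0 y u hu hu1 => ?_
  have h7 := h6 w hw t ht w0 y u hu hu1
  refine le_trans (Finset.sum_le_sum fun ξ _ => Finset.sum_le_sum fun z _ => ind_mono ?_) (h7.trans
    (mul_le_mul_of_nonneg_right hθ (Finset.sum_nonneg fun _ _ => Finset.sum_nonneg fun _ _ => ind_nonneg _)))
  exact fun h => ⟨h.1, ha.trans h.2⟩

theorem smiBin_mono {j C C' : ℕ} (hC : C ≤ C') (H : SMIbin j C) : SMIbin j C' := by
  intro ι Θ Ξ Q _ _ _ _ _ _ _ _ k N σ i δ hN h hj β B hβ hβ2 hβB hK hn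
  have hB1 : 1 ≤ B := by
    have h1 : 1 ≤ 1 / β := by
      rw [le_div_iff₀ hβ]
      linarith
    linarith
  have hacc : β ^ C' ≤ β ^ C := pow_le_pow_of_le_one hβ.le (by linarith) hC
  exact SMIat_mono _ (Real.exp_le_exp.2 (neg_le_neg (pow_le_pow_right₀ hB1 hC))) hacc
    (H ι Θ Ξ Q k N σ i δ hN h hj β B hβ hβ2 hβB hK (hn.trans hacc))

/-- one exponent for finitely many `j` -/
theorem smiBin_common {a b : ℕ} (H : ∀ j, a ≤ j → j ≤ b → ∃ C : ℕ, SMIbin j C) :
    ∃ C : ℕ, 1 ≤ C ∧ ∀ j, a ≤ j → j ≤ b → SMIbin j C := by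
  classical
  have h1 : ∀ j, ∃ C : ℕ, a ≤ j → j ≤ b → SMIbin j C := fun j => by
    by_cases h : a ≤ j ∧ j ≤ b
    · obtain ⟨C, hC⟩ := H j h.1 h.2
      exact ⟨C, fun _ _ => hC⟩
    · exact ⟨0, fun h2 h3 => absurd ⟨h2, h3⟩ h⟩
  choose C hC using h1
  refine ⟨∑ j ∈ range (b + 1), C j + 1, by omega, fun j h2 h3 => smiBin_mono ?_ (hC j h2 h3)⟩
  have : C j ≤ ∑ j ∈ range (b + 1), C j :=
    Finset.single_le_sum (f := C) (fun i _ => Nat.zero_le _) (Finset.mem_range.2 (by omega))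
  omega

/-! ### the named inputs -/

/-- **HARM(k)** (weak form) for all finite types of `k` known vertices -/
def HarmAll (k : ℕ) : Prop := ∀ (K : Type) [Fintype K] [DecidableEq K], Fintype.card K = k → Harm.HarmW K

/-- **(CL_v)** for all finite types of `v` known vertices -/
def ClsAll (v : ℕ) : Prop :=
  ∀ (K : Type) [Fintype K] [DecidableEq K], Fintype.card K = v → ∃ κ : ℝ, 0 < κ ∧ Harm.CLS K κ

theorem harmAll_two : HarmAll 2 := fun K _ _ hK => Harm.harmW_two K hK

theorem clsAll_two : ClsAll 2 := fun K _ _ hK => ⟨1 / 40, by norm_num, Harm.cls_two K hK⟩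

/-- **what the step `j` may use** -/
structure Below (j : ℕ) : Prop where
  smi : ∃ C : ℕ, 1 ≤ C ∧ ∀ i, 2 ≤ i → i < j → SMIbin i C
  harm : ∀ k, 2 ≤ k → k < j → HarmAll k
  cls : ∀ v, 2 ≤ v → v + 2 ≤ j → ClsAll v

/-! ### the induction -/

/-- the induction with an abstract step: `base` = `SMIbin 2`, `step j` = (PieceBin j, hence SMIbin j) -/
theorem ind_core {m : ℕ} (base : ∃ C : ℕ, SMIbin 2 C) (step : ∀ j, 3 ≤ j → j ≤ m → Below j → ∃ C : ℕ, SMIbin j C)
    (harm : ∀ k, 3 ≤ k → k < m → HarmAll k) (cls : ∀ v, 3 ≤ v → v + 2 ≤ m → ClsAll v) :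
    ∀ j, 2 ≤ j → j ≤ m → ∃ C : ℕ, SMIbin j C := by
  intro j
  induction j using Nat.strong_induction_on with
  | _ j ih =>
    intro h2 hm
    rcases Nat.lt_or_ge j 3 with h3 | h3
    · have : j = 2 := by omega
      subst this
      exact base
    · refine step j h3 hm ⟨?_, fun k hk hkj => ?_, fun v hv hvj => ?_⟩
      · obtain ⟨C, h1, hC⟩ := smiBin_common (a := 2) (b := j - 1) fun i hi hij => ih i (by omega) hi (by omega)
        exact ⟨C, h1, fun i hi hij => hC i hi (by omega)⟩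
      · rcases Nat.lt_or_ge k 3 with h | h
        · have : k = 2 := by omega
          subst this
          exact harmAll_two
        · exact harm k h (by omega)
      · rcases Nat.lt_or_ge v 3 with h | h
        · have : v = 2 := by omega
          subst this
          exact clsAll_two
        · exact cls v h (by omega)

/-- what the TOP level `m` may use (the step `m` itself, coin free, is `Sec5`): everything below `m` -/
theorem below_top {m : ℕ} (base : ∃ C : ℕ, SMIbin 2 C)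
    (step : ∀ j, 3 ≤ j → j < m → Below j → ∃ C : ℕ, SMIbin j C)
    (harm : ∀ k, 3 ≤ k → k < m → HarmAll k) (cls : ∀ v, 3 ≤ v → v + 2 ≤ m → ClsAll v) : Below m := by
  refine ⟨?_, fun k hk hkj => ?_, fun v hv hvj => ?_⟩
  · rcases Nat.eq_zero_or_pos m with h0 | h0
    · exact ⟨1, le_rfl, fun i _ h => by omega⟩
    · obtain ⟨C, h1, hC⟩ := smiBin_common (a := 2) (b := m - 1) (ind_core (m := m - 1) base
        (fun j h3 hj => step j h3 (by omega)) (fun k hk hkm => harm k hk (by omega))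
        (fun v hv hvm => cls v hv (by omega)))
      exact ⟨C, h1, fun i hi hij => hC i hi (by omega)⟩
  · rcases Nat.lt_or_ge k 3 with h | h
    · have : k = 2 := by omega
      subst this
      exact harmAll_two
    · exact harm k h hkj
  · rcases Nat.lt_or_ge v 3 with h | h
    · have : v = 2 := by omega
      subst this
      exact clsAll_two
    · exact cls v h hvj

/-! ### the induction with pieces -/

/-- the step of the level `j`: from everything below `j` and the cold sets of the level `j` to the pieces -/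
def PieceStep (Cold : ℕ → Prop) (j : ℕ) : Prop :=
  Below j → Cold j → ∃ κ : ℝ, 0 < κ ∧ ∃ C : ℕ, PieceBin j κ C

/-- the step of the top level, coin free -/
def PieceStep0 (Cold : ℕ → Prop) (j : ℕ) : Prop :=
  Below j → Cold j → ∃ κ : ℝ, 0 < κ ∧ ∃ C : ℕ, PieceBin0 j κ C

theorem PieceStep.zero {Cold : ℕ → Prop} {j : ℕ} (h : PieceStep Cold j) : PieceStep0 Cold j := by
  intro h1 h2
  obtain ⟨κ, hκ, C, hC⟩ := h h1 h2
  exact ⟨κ, hκ, C, hC.zero⟩

theorem base_two : ∃ C : ℕ, SMIbin 2 C := ⟨12, smiBin_two⟩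

theorem step_of_piece {Cold : ℕ → Prop} {j : ℕ} (h3 : 3 ≤ j) (hP : PieceStep Cold j) (hC : Cold j) (hB : Below j) :
    ∃ C : ℕ, SMIbin j C := by
  obtain ⟨κ, hκ, C, h1⟩ := hP hB hC
  obtain ⟨C', -, h2⟩ := smiBin_of_piece (by omega) hκ h1
  exact ⟨C', h2⟩

/-- **(SMI_j) for all `j ≤ m`** -/
theorem smi_ind {m : ℕ} (Cold : ℕ → Prop) (piece : ∀ j, 3 ≤ j → j ≤ m → PieceStep Cold j)
    (harm : ∀ k, 3 ≤ k → k < m → HarmAll k) (cls : ∀ v, 3 ≤ v → v + 2 ≤ m → ClsAll v)
    (cold : ∀ j, 3 ≤ j → j ≤ m → Cold j) : ∃ C : ℕ, 1 ≤ C ∧ ∀ j, 2 ≤ j → j ≤ m → SMIbin j C :=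
  smiBin_common fun j h2 hm => ind_core base_two
    (fun j h3 hj => step_of_piece h3 (piece j h3 hj) (cold j h3 hj)) harm cls j h2 hm

/-- everything below the top level `m` -/
theorem below_ind {m : ℕ} (Cold : ℕ → Prop) (piece : ∀ j, 3 ≤ j → j < m → PieceStep Cold j)
    (harm : ∀ k, 3 ≤ k → k < m → HarmAll k) (cls : ∀ v, 3 ≤ v → v + 2 ≤ m → ClsAll v)
    (cold : ∀ j, 3 ≤ j → j < m → Cold j) : Below m :=
  below_top base_two (fun j h3 hj => step_of_piece h3 (piece j h3 hj) (cold j h3 hj)) harm cls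

/-- **the coin free strong moving form of the top level `m`** -/
theorem smi_top {m : ℕ} (hm : 3 ≤ m) (Cold : ℕ → Prop) (piece : ∀ j, 3 ≤ j → j < m → PieceStep Cold j)
    (top : PieceStep0 Cold m) (harm : ∀ k, 3 ≤ k → k < m → HarmAll k) (cls : ∀ v, 3 ≤ v → v + 2 ≤ m → ClsAll v)
    (cold : ∀ j, 3 ≤ j → j ≤ m → Cold j) : ∃ C : ℕ, 1 ≤ C ∧ SMIbin0 m C := by
  obtain ⟨κ, hκ, C, h1⟩ := top (below_ind Cold piece harm cls fun j h3 hj => cold j h3 hj.le) (cold m hm le_rfl)
  exact smiBin0_of_piece0 (by omega) hκ h1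

/-! ### small levels -/

/-- nothing is open below the level 3 -/
theorem below_three : Below 3 :=
  below_top base_two (fun j h3 hj => by omega) (fun k h3 hk => by omega) (fun v h3 hv => by omega)

theorem smi_three (piece : Below 3 → ∃ κ : ℝ, 0 < κ ∧ ∃ C : ℕ, PieceBin 3 κ C) :
    ∃ C : ℕ, 1 ≤ C ∧ SMIbin 2 C ∧ SMIbin 3 C := by
  obtain ⟨C, h1, hC⟩ := smi_ind (m := 3) (fun _ => True)
    (fun j h3 hj hB _ => by
      have : j = 3 := by omega
      subst this
      exact piece hB)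
    (fun k h3 hk => by omega) (fun v h3 hv => by omega) (fun _ _ _ => trivial)
  exact ⟨C, h1, hC 2 le_rfl (by norm_num), hC 3 (by norm_num) le_rfl⟩

/-- below the level 4 only HARM(3) is open -/
theorem below_four (piece3 : Below 3 → ∃ κ : ℝ, 0 < κ ∧ ∃ C : ℕ, PieceBin 3 κ C) (harm3 : HarmAll 3) : Below 4 :=
  below_ind (fun _ => True)
    (fun j h3 hj hB _ => by
      have : j = 3 := by omega
      subst this
      exact piece3 hB)
    (fun k h3 hk => by
      have : k = 3 := by omega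
      subst this
      exact harm3)
    (fun v h3 hv => by omega) (fun _ _ _ => trivial)

/-- **the level 4, coin free**: the only open input is HARM(3) -/
theorem smi_four (piece3 : Below 3 → ∃ κ : ℝ, 0 < κ ∧ ∃ C : ℕ, PieceBin 3 κ C)
    (piece4 : Below 4 → ∃ κ : ℝ, 0 < κ ∧ ∃ C : ℕ, PieceBin0 4 κ C) (harm3 : HarmAll 3) :
    ∃ C : ℕ, 1 ≤ C ∧ SMIbin0 4 C := by
  obtain ⟨κ, hκ, C, h1⟩ := piece4 (below_four piece3 harm3)
  exact smiBin0_of_piece0 (by norm_num) hκ h1

/-- the coin system of the smaller sets of all binary models, one exponent (for Lemma T_j and the names) -/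
theorem Below.coin {j : ℕ} (hB : Below j) : ∃ C : ℕ, 1 ≤ C ∧
    ∀ (k N : ℕ) (ι Θ Ξ Q : Type) [Fintype ι] [DecidableEq ι] (σ : V k) [Fintype Θ]
      [Nonempty Θ] [Fintype Ξ] [Nonempty Ξ] [Fintype Q] [Nonempty Q] (i : ι) (hN : N ≤ k) (h : ℕ),
      CoinSMI (binSys Θ Ξ Q σ i hN h) (j - 1) C := by
  obtain ⟨C, h1, hC⟩ := hB.smi
  exact ⟨C, h1, fun k N ι Θ Ξ Q _ _ σ _ _ _ _ _ _ i hN h => coinSMI_bin σ (fun j' h2 hj => hC j' h2 (by omega)) i hN h⟩

end

end Pool.Agent.GM.GS
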