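import Pool.Agent.GM.GSscale
import Pool.Agent.GM.LM1

/-!
# GM/SMI2 (helper48) : the strong moving form for TWO unknown vertices, from Lemma M'

* `Sys.SMI_two` : abstract: Lemma M' (`LM`, populations `(coins, x_u)` and `x_δ`, all other vertices exact in the nodes)
  gives `SMIat S {u, δ} δ X m0 θ acc r out`, `out = 10^8 θ m0 η^(-4) (1 + log (K/θ))`, for every `η` with
  `near ≤ η/4`, `2 acc ≤ η X`, `400 η X² < r`;
* `SMI_two`, `SMI_card_two` : the binary model (`binSys`), two vertices, any vertex `i` carries the coins;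
* `SMI_card_two'` : with `η = r / (401 X²)`.
-/

set_option autoImplicit false
set_option linter.unusedSectionVars false

namespace Pool.Agent.GM

open Finset Pool.Agent.PWZ Pool.Agent.M3 Pool.Agent.M3.TS Pool.Agent.M3.S2

noncomputable section

namespace Two

/-! ### sums over two coordinates -/

section sums

variable {ι Pt : Type} [Fintype ι] [DecidableEq ι] [Fintype Pt]

theorem upd_out {a b : ι} (y : ι → Pt) (p q : Pt) {l : ι} (h1 : l ≠ a) (h2 : l ≠ b) :
    Function.update (Function.update y b p) a q l = y l := by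
  rw [Function.update_of_ne h1, Function.update_of_ne h2]

/-- sums over the points which agree with `y` off `{a, b}` -/
theorem sum_two {a b : ι} (hab : a ≠ b) (y : ι → Pt) (f : (ι → Pt) → ℝ) :
    ∑ z : ι → Pt, ind (∀ l, l ∉ ({a, b} : Finset ι) → z l = y l) * f z =
      ∑ p : Pt, ∑ q : Pt, f (Function.update (Function.update y b p) a q) := by
  classical
  have h1 : ∑ z : ι → Pt, ind (∀ l, l ∉ ({a, b} : Finset ι) → z l = y l) * f z =
      ∑ z ∈ univ.filter (fun z : ι → Pt => ∀ l, l ∉ ({a, b} : Finset ι) → z l = y l), f z := by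
    rw [Finset.sum_filter]
    refine Finset.sum_congr rfl fun z _ => ?_
    by_cases h : ∀ l, l ∉ ({a, b} : Finset ι) → z l = y l
    · rw [ind_of h, if_pos h, one_mul]
    · rw [ind_not h, if_neg h, zero_mul]
  have h2 : ∑ p : Pt, ∑ q : Pt, f (Function.update (Function.update y b p) a q) =
      ∑ s : Pt × Pt, f (Function.update (Function.update y b s.1) a s.2) :=
    (Fintype.sum_prod_type (fun s : Pt × Pt => f (Function.update (Function.update y b s.1) a s.2))).symm
  rw [h1, h2]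
  have hup : ∀ z : ι → Pt, (∀ l, l ∉ ({a, b} : Finset ι) → z l = y l) →
      Function.update (Function.update y b (z b)) a (z a) = z := by
    intro z hz
    funext l
    by_cases hla : l = a
    · subst hla
      rw [Function.update_self]
    · rw [Function.update_of_ne hla]
      by_cases hlb : l = b
      · subst hlb
        rw [Function.update_self]
      · rw [Function.update_of_ne hlb]
        refine (hz l ?_).symm
        rw [mem_insert, mem_singleton, not_or]
        exact ⟨hla, hlb⟩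
  refine Finset.sum_bij' (fun z _ => ((z b, z a) : Pt × Pt))
    (fun s _ => Function.update (Function.update y b s.1) a s.2) (fun _ _ => mem_univ _)
    (fun s _ => ?_) (fun z hz => ?_) (fun s _ => ?_) (fun z hz => ?_)
  · rw [Finset.mem_filter]
    refine ⟨mem_univ _, fun l hl => ?_⟩
    rw [mem_insert, mem_singleton, not_or] at hl
    exact upd_out y s.1 s.2 hl.1 hl.2
  · exact hup z (Finset.mem_filter.1 hz).2
  · refine Prod.ext ?_ ?_
    · show Function.update (Function.update y b s.1) a s.2 b = s.1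
      rw [Function.update_of_ne hab.symm, Function.update_self]
    · show Function.update (Function.update y b s.1) a s.2 a = s.2
      rw [Function.update_self]
  · show f z = f (Function.update (Function.update y b (z b)) a (z a))
    rw [hup z (Finset.mem_filter.1 hz).2]

end sums

end Two

namespace Sys

variable {ι Om Ξ Pt V Γ κ : Type} [Fintype ι] [DecidableEq ι] [Fintype Om] [Fintype Ξ] [Fintype Pt]
  [Fintype V] (S : Sys ι Om Ξ Pt V Γ κ)

include S

/-- **the tests of `Rare` for a face with one unknown vertex `b`** : `a` = the vertex of the face, the tests do not depend on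
the individual -/
theorem rare_two {a b : ι} (hab : a ≠ b) {Ψ : Mov Ξ ι Pt Γ (V → ℝ)} {θ acc : ℝ}
    (hdep : ∀ t g ξ, Dep (univ.erase a) (Ψ t g ξ)) (hR : S.Rare {a, b} a Ψ θ acc) {t : ℕ} (ht : t ≤ S.n) (w0 : Om)
    (y : ι → Pt) (k : κ) (φ : V → ℝ) (hφ : ∀ d, |φ d| ≤ 1) :
    ∑ ξ : Ξ, ∑ p : Pt, ind (S.cl t p = k ∧
        acc ≤ |iw (S.ρ t (S.gm t w0)) (Ψ t (S.gm t w0) ξ (Function.update y b p)) φ|) ≤
      θ * ∑ _ξ : Ξ, ∑ p : Pt, ind (S.cl t p = k) := by
  classical
  by_cases hk : ∃ p0 : Pt, S.cl t p0 = k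
  swap
  · have h1 : ∀ p : Pt, ¬ S.cl t p = k := fun p hp => hk ⟨p, hp⟩
    have h2 : ∀ (ξ : Ξ) (p : Pt), ind (S.cl t p = k ∧
        acc ≤ |iw (S.ρ t (S.gm t w0)) (Ψ t (S.gm t w0) ξ (Function.update y b p)) φ|) = 0 :=
      fun ξ p => ind_not fun h => h1 p h.1
    have h3 : ∀ p : Pt, ind (S.cl t p = k) = 0 := fun p => ind_not (h1 p)
    simp only [h2, h3, Finset.sum_const_zero, mul_zero]
    exact le_rfl
  obtain ⟨p0, hp0⟩ := hk
  set yy : ι → Pt := Function.update y b p0 with hyy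
  have herase : ({a, b} : Finset ι).erase a = {b} := by
    rw [Finset.erase_insert]
    rwa [mem_singleton]
  have h1 := hR t ht w0 yy (fun _ _ => φ) (fun _ _ => Dep.const _ φ) (fun _ _ d => hφ d)
  rw [herase] at h1
  simp only [Finset.prod_singleton] at h1
  -- the box
  set cb : ℝ := ∑ q : Pt, ind (S.cl t q = S.cl t (yy a)) with hcb
  have hcb0 : 0 < cb := by
    refine Finset.sum_pos' (fun q _ => ind_nonneg _) ⟨yy a, mem_univ _, ?_⟩
    rw [ind_of rfl]
    exact one_pos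
  have hbox : ∀ (E : (ι → Pt) → Prop), (∀ z q, E (Function.update z a q) ↔ E z) →
      ∑ z : ι → Pt, ind (S.Box {a, b} t yy z ∧ E z) =
        (∑ p : Pt, ind (S.cl t p = k ∧ E (Function.update y b p))) * cb := by
    intro E hE
    have e1 : ∀ z : ι → Pt, ind (S.Box {a, b} t yy z ∧ E z) =
        ind (∀ l, l ∉ ({a, b} : Finset ι) → z l = yy l) *
          ind ((S.cl t (z a) = S.cl t (yy a) ∧ S.cl t (z b) = k) ∧ E z) := by
      intro z
      rw [← ind_and]
      congr 1
      apply propext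
      unfold Sys.Box
      rw [and_assoc]
      refine and_congr_right fun _ => ?_
      have e2 : (∀ i ∈ ({a, b} : Finset ι), S.cl t (z i) = S.cl t (yy i)) ↔
          (S.cl t (z a) = S.cl t (yy a) ∧ S.cl t (z b) = k) := by
        have hb : S.cl t (yy b) = k := by rw [hyy, Function.update_self, hp0]
        constructor
        · intro h
          refine ⟨h a (mem_insert_self _ _), ?_⟩
          rw [← hb]
          exact h b (mem_insert_of_mem (mem_singleton_self _))
        · rintro ⟨h2, h3⟩ i hi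
          rcases mem_insert.1 hi with h4 | h4
          · subst h4
            exact h2
          · rw [mem_singleton] at h4
            subst h4
            rw [h3, hb]
      rw [e2]
    rw [Finset.sum_congr rfl fun z _ => e1 z, Two.sum_two hab yy
      (fun z => ind ((S.cl t (z a) = S.cl t (yy a) ∧ S.cl t (z b) = k) ∧ E z)), Finset.sum_mul]
    refine Finset.sum_congr rfl fun p _ => ?_
    rw [hcb, Finset.mul_sum]
    refine Finset.sum_congr rfl fun q _ => ?_
    rw [← ind_and]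
    congr 1
    apply propext
    have e3 : Function.update yy b p = Function.update y b p := by
      rw [hyy, Function.update_idem]
    rw [e3, hE, Function.update_self, Function.update_of_ne hab.symm, Function.update_self]
    tauto
  have h2 : ∀ ξ : Ξ, ∑ z : ι → Pt, ind (S.Box {a, b} t yy z ∧
      acc ≤ |iw (S.ρ t (S.gm t w0)) (Ψ t (S.gm t w0) ξ z) (fun d => φ d)|) =
      (∑ p : Pt, ind (S.cl t p = k ∧
        acc ≤ |iw (S.ρ t (S.gm t w0)) (Ψ t (S.gm t w0) ξ (Function.update y b p)) φ|)) * cb := by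
    intro ξ
    refine hbox (fun z => acc ≤ |iw (S.ρ t (S.gm t w0)) (Ψ t (S.gm t w0) ξ z) φ|) fun z q => ?_
    rw [(hdep t (S.gm t w0) ξ).update (notMem_erase a _)]
  have h3 : ∑ z : ι → Pt, ind (S.Box {a, b} t yy z) = (∑ p : Pt, ind (S.cl t p = k)) * cb := by
    have e1 := hbox (fun _ => True) fun _ _ => Iff.rfl
    simp only [and_true] at e1
    exact e1
  simp only [h2, h3] at h1
  rw [← Finset.sum_mul, ← Finset.sum_mul, ← mul_assoc] at h1
  exact le_of_mul_le_mul_right h1 hcb0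

/-- the constant of (SMI_2) -/
def out2 (K m0 θ η : ℝ) : ℝ := 10 ^ 8 * θ * m0 / η ^ 4 * (1 + Real.log (K / θ))

/-- **(SMI_2), abstract** : Lemma M' gives the strong moving form for the two vertices `u`, `δ` -/
theorem SMI_two {u δ : ι} (hud : u ≠ δ)
    (hLM : LM S.P (fun w => (S.xi w, S.x w u)) (fun w => S.x w δ) S.n (fun t w => (res (oth u δ) (S.x w), S.gm t w))
      (fun t w => (res (oth u δ) (S.x w), S.gm t w)) (fun t x => S.cl t x.2) S.cl (fun t g => S.ρ t g.2)
      (fun t g => S.ρ t g.2) S.J S.near S.K)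
    {X m0 θ acc r η : ℝ} (hX : 0 < X) (hθ : 0 < θ) (hθ1 : θ ≤ 1) (hη : 0 < η) (hη1 : η ≤ 1 / 4)
    (hnear : S.near ≤ η / 4) (hacc : 2 * acc ≤ η * X) (hr : 400 * η * X ^ 2 < r) :
    S.SMIat {u, δ} δ X m0 θ acc r (out2 S.K m0 θ η) := by
  classical
  intro Ψ hdep hcoin hbd hzero hfut hrare
  obtain ⟨w0⟩ := S.nonempty_Om
  set ξ0 : Ξ := S.xi w0 with hξ0
  have hu : u ∈ ({u, δ} : Finset ι) := mem_insert_self _ _
  have hδ : δ ∈ ({u, δ} : Finset ι) := mem_insert_of_mem (mem_singleton_self _)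
  have hX' : 0 < X⁻¹ := inv_pos.2 hX
  have hpair : ({δ, u} : Finset ι) = {u, δ} := Finset.pair_comm _ _
  -- a point with given values off `{u, δ}`
  let bs : ({l // l ∈ oth u δ} → Pt) → Pt → ι → Pt := fun ρ p l =>
    if h : l ∈ oth u δ then ρ ⟨l, h⟩ else p
  -- the families
  let vv : ℕ → ({l // l ∈ oth u δ} → Pt) × Γ → Ξ × Pt → V → ℝ := fun t g x d =>
    X⁻¹ * Ψ δ t g.2 x.1 (Function.update (bs g.1 x.2) u x.2) d
  let uu : ℕ → ({l // l ∈ oth u δ} → Pt) × Γ → Pt → V → ℝ := fun t g y d =>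
    X⁻¹ * Ψ u t g.2 ξ0 (Function.update (bs g.1 y) δ y) d
  have hbs : ∀ (w : Om) (p : Pt) (l : ι), l ≠ u → l ≠ δ → bs (res (oth u δ) (S.x w)) p l = S.x w l := by
    intro w p l h1 h2
    show (if h : l ∈ oth u δ then res (oth u δ) (S.x w) ⟨l, h⟩ else p) = _
    rw [dif_pos (mem_oth.2 ⟨h1, h2⟩)]
    rfl
  have hv : ∀ t w, vv t (res (oth u δ) (S.x w), S.gm t w) (S.xi w, S.x w u) = fun d => X⁻¹ * S.at' (Ψ δ) t w d := by
    intro t w
    funext d
    show X⁻¹ * Ψ δ t (S.gm t w) (S.xi w) (Function.update (bs (res (oth u δ) (S.x w)) (S.x w u)) u (S.x w u)) d =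
      X⁻¹ * Ψ δ t (S.gm t w) (S.xi w) (S.x w) d
    rw [hdep δ hδ t (S.gm t w) (S.xi w) (Function.update (bs (res (oth u δ) (S.x w)) (S.x w u)) u (S.x w u)) (S.x w)]
    intro l hl
    have hl1 : l ≠ δ := (mem_erase.1 hl).1
    by_cases h : l = u
    · subst h
      rw [Function.update_self]
    · rw [Function.update_of_ne h]
      exact hbs w _ l h hl1
  have huv : ∀ t w, uu t (res (oth u δ) (S.x w), S.gm t w) (S.x w δ) = fun d => X⁻¹ * S.at' (Ψ u) t w d := by
    intro t w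
    funext d
    show X⁻¹ * Ψ u t (S.gm t w) ξ0 (Function.update (bs (res (oth u δ) (S.x w)) (S.x w δ)) δ (S.x w δ)) d =
      X⁻¹ * Ψ u t (S.gm t w) (S.xi w) (S.x w) d
    rw [hcoin u hu hud t (S.gm t w) ξ0 (S.xi w)]
    rw [hdep u hu t (S.gm t w) (S.xi w) (Function.update (bs (res (oth u δ) (S.x w)) (S.x w δ)) δ (S.x w δ)) (S.x w)]
    intro l hl
    have hl1 : l ≠ u := (mem_erase.1 hl).1
    by_cases h : l = δ
    · subst h
      rw [Function.update_self]
    · rw [Function.update_of_ne h]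
      exact hbs w _ l hl1 h
  have hone : ∀ {a : ℝ}, |a| ≤ X → |X⁻¹ * a| ≤ 1 := by
    intro a ha
    rw [abs_mul, abs_of_pos hX', inv_mul_le_iff₀ hX, mul_one]
    exact ha
  -- the tests
  have htest : ∀ (f : V → ℝ) (φ : V → ℝ) (ρ : V → ℝ), η < |iw ρ (fun d => X⁻¹ * f d) φ| →
      acc ≤ |iw ρ f (fun d => φ d / 2)| := by
    intro f φ ρ h
    have e1 : iw ρ (fun d => X⁻¹ * f d) φ = X⁻¹ * 2 * iw ρ f (fun d => φ d / 2) := by
      unfold iw
      rw [Finset.mul_sum]
      refine Finset.sum_congr rfl fun d _ => ?_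
      ring
    rw [e1, abs_mul, abs_of_pos (by positivity)] at h
    have h2 : η * X < 2 * |iw ρ f (fun d => φ d / 2)| := by
      have h3 := mul_lt_mul_of_pos_right h hX
      have h4 : X⁻¹ * 2 * |iw ρ f (fun d => φ d / 2)| * X = 2 * |iw ρ f (fun d => φ d / 2)| := by
        field_simp
      rwa [h4] at h3
    linarith
  have hφ2 : ∀ {φ : V → ℝ}, (∀ d, |φ d| ≤ 2) → ∀ d, |φ d / 2| ≤ 1 := by
    intro φ h d
    rw [abs_div, abs_of_pos (by norm_num : (0 : ℝ) < 2)]
    have := h d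
    linarith
  have hHFv : HF S.n (fun t w => (res (oth u δ) (S.x w), S.gm t w)) (fun t x => S.cl t x.2) (fun t g => S.ρ t g.2)
      vv η θ := by
    intro t ht w k φ hφ
    have hR := hrare δ hδ
    rw [← hpair] at hR
    have h1 := S.rare_two hud.symm (fun t g ξ => hdep δ hδ t g ξ) hR ht w (S.x w) k (fun d => φ d / 2) (hφ2 hφ)
    have e1 : ∀ F : Ξ × Pt → ℝ, ∑ x ∈ cel (fun x : Ξ × Pt => S.cl t x.2) k, F x =
        ∑ ξ : Ξ, ∑ p : Pt, ind (S.cl t p = k) * F (ξ, p) := by
      intro F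
      unfold cel
      rw [Finset.sum_filter, Fintype.sum_prod_type]
      refine Finset.sum_congr rfl fun ξ _ => Finset.sum_congr rfl fun p _ => ?_
      by_cases h : S.cl t p = k
      · rw [ind_of h, if_pos h, one_mul]
      · rw [ind_not h, if_neg h, zero_mul]
    have e2 : (((cel (fun x : Ξ × Pt => S.cl t x.2) k).card : ℕ) : ℝ) = ∑ _ξ : Ξ, ∑ p : Pt, ind (S.cl t p = k) := by
      have h2 := e1 fun _ => 1
      simp only [mul_one, Finset.sum_const, nsmul_eq_mul] at h2
      rw [h2]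
      rw [Finset.sum_const, nsmul_eq_mul]
    show ∑ x ∈ cel (fun x : Ξ × Pt => S.cl t x.2) k, ind (η < |iw (S.ρ t (S.gm t w))
      (vv t (res (oth u δ) (S.x w), S.gm t w) x) φ|) ≤ θ * (((cel (fun x : Ξ × Pt => S.cl t x.2) k).card : ℕ) : ℝ)
    rw [e1, e2]
    refine le_trans (Finset.sum_le_sum fun ξ _ => Finset.sum_le_sum fun p _ => ?_) h1
    rw [← ind_and]
    refine ind_mono fun h => ⟨h.1, htest _ φ _ ?_⟩
    have h3 := h.2
    have e3 : vv t (res (oth u δ) (S.x w), S.gm t w) (ξ, p) =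
        fun d => X⁻¹ * Ψ δ t (S.gm t w) ξ (Function.update (S.x w) u p) d := by
      funext d
      show X⁻¹ * Ψ δ t (S.gm t w) ξ (Function.update (bs (res (oth u δ) (S.x w)) p) u p) d = _
      rw [hdep δ hδ t (S.gm t w) ξ (Function.update (bs (res (oth u δ) (S.x w)) p) u p) (Function.update (S.x w) u p)]
      intro l hl
      have hl1 : l ≠ δ := (mem_erase.1 hl).1
      by_cases h : l = u
      · subst h
        rw [Function.update_self, Function.update_self]
      · rw [Function.update_of_ne h, Function.update_of_ne h]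
        exact hbs w _ l h hl1
    rw [e3] at h3
    exact h3
  have hHFu : HF S.n (fun t w => (res (oth u δ) (S.x w), S.gm t w)) S.cl (fun t g => S.ρ t g.2) uu η θ := by
    intro t ht w k φ hφ
    have hR := hrare u hu
    have h1 := S.rare_two hud (fun t g ξ => hdep u hu t g ξ) hR ht w (S.x w) k (fun d => φ d / 2) (hφ2 hφ)
    have e0 : ∀ ξ : Ξ, ∑ p : Pt, ind (S.cl t p = k ∧
        acc ≤ |iw (S.ρ t (S.gm t w)) (Ψ u t (S.gm t w) ξ (Function.update (S.x w) δ p)) (fun d => φ d / 2)|) =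
        ∑ p : Pt, ind (S.cl t p = k ∧
          acc ≤ |iw (S.ρ t (S.gm t w)) (Ψ u t (S.gm t w) ξ0 (Function.update (S.x w) δ p)) (fun d => φ d / 2)|) := by
      intro ξ
      rw [hcoin u hu hud t (S.gm t w) ξ ξ0]
    rw [Finset.sum_congr rfl fun ξ _ => e0 ξ, Finset.sum_const, Finset.sum_const, Finset.card_univ, nsmul_eq_mul,
      nsmul_eq_mul, mul_left_comm] at h1
    have h2 := le_of_mul_le_mul_left h1 S.cXi
    have e1 : ∀ F : Pt → ℝ, ∑ x ∈ cel (S.cl t) k, F x = ∑ p : Pt, ind (S.cl t p = k) * F p := by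
      intro F
      unfold cel
      rw [Finset.sum_filter]
      refine Finset.sum_congr rfl fun p _ => ?_
      by_cases h : S.cl t p = k
      · rw [ind_of h, if_pos h, one_mul]
      · rw [ind_not h, if_neg h, zero_mul]
    have e2 : (((cel (S.cl t) k).card : ℕ) : ℝ) = ∑ p : Pt, ind (S.cl t p = k) := by
      have h2 := e1 fun _ => 1
      simp only [mul_one, Finset.sum_const, nsmul_eq_mul] at h2
      exact h2
    show ∑ x ∈ cel (S.cl t) k, ind (η < |iw (S.ρ t (S.gm t w))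
      (uu t (res (oth u δ) (S.x w), S.gm t w) x) φ|) ≤ θ * (((cel (S.cl t) k).card : ℕ) : ℝ)
    rw [e1, e2]
    refine le_trans (Finset.sum_le_sum fun p _ => ?_) h2
    rw [← ind_and]
    refine ind_mono fun h => ⟨h.1, htest _ φ _ ?_⟩
    have h3 := h.2
    have e3 : uu t (res (oth u δ) (S.x w), S.gm t w) p =
        fun d => X⁻¹ * Ψ u t (S.gm t w) ξ0 (Function.update (S.x w) δ p) d := by
      funext d
      show X⁻¹ * Ψ u t (S.gm t w) ξ0 (Function.update (bs (res (oth u δ) (S.x w)) p) δ p) d = _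
      rw [hdep u hu t (S.gm t w) ξ0 (Function.update (bs (res (oth u δ) (S.x w)) p) δ p) (Function.update (S.x w) δ p)]
      intro l hl
      have hl1 : l ≠ u := (mem_erase.1 hl).1
      by_cases h : l = δ
      · subst h
        rw [Function.update_self, Function.update_self]
      · rw [Function.update_of_ne h, Function.update_of_ne h]
        exact hbs w _ l hl1 h
    rw [e3] at h3
    exact h3
  -- the moves
  have hmv : ∀ (a : ι) (ha : a ∈ ({u, δ} : Finset ι)), ∑ t ∈ range S.n, S.P.Pr (fun w =>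
      (fun d => X⁻¹ * S.at' (Ψ a) (t + 1) w d) ≠ fun d => X⁻¹ * S.at' (Ψ a) t w d) ≤ m0 := by
    intro a ha
    have h1 := hfut a ha 0 (fun _ => 1) (fun _ _ _ => rfl) fun _ => zero_le_one
    rw [S.P.E_const, mul_one, Nat.Ico_zero_eq_range] at h1
    refine le_trans (Finset.sum_le_sum fun t _ => ?_) h1
    unfold FP.Pr
    refine S.P.E_mono fun w _ => ?_
    rw [one_mul]
    refine ind_mono fun h => ?_
    intro h'
    exact h (by rw [h'])
  have hfin := hLM uu vv (fun t g y d => hone (hbd u hu t g.2 ξ0 _ d)) (fun t g x d => hone (hbd δ hδ t g.2 x.1 _ d))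
    (fun g y d => by
      show X⁻¹ * Ψ u 0 g.2 ξ0 (Function.update (bs g.1 y) δ y) d = 0
      rw [hzero u hu]
      simp)
    (fun g x d => by
      show X⁻¹ * Ψ δ 0 g.2 x.1 (Function.update (bs g.1 x.2) u x.2) d = 0
      rw [hzero δ hδ]
      simp)
    η θ m0 hη hη1 hθ hθ1 hnear hHFu hHFv
    (by
      unfold moves
      simp only [huv]
      exact hmv u hu)
    (by
      unfold moves
      simp only [hv]
      exact hmv δ hδ)
  unfold out2
  refine le_trans (S.P.Pr_mono fun w _ => ?_) hfin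
  rintro ⟨t, ht, h⟩
  refine ⟨t, ht, ?_⟩
  unfold TT
  rw [huv, hv]
  have e1 : iw (S.J t w) (fun d => X⁻¹ * S.at' (Ψ u) t w d) (fun d => X⁻¹ * S.at' (Ψ δ) t w d) =
      (X ^ 2)⁻¹ * iw (S.J t w) (fun d => ∏ i ∈ ({u, δ} : Finset ι), S.at' (Ψ i) t w d) (fun _ => 1) := by
    unfold iw
    rw [Finset.mul_sum]
    refine Finset.sum_congr rfl fun d _ => ?_
    beta_reduce
    rw [Finset.prod_pair hud]
    have := hX.ne'
    field_simp
  rw [e1, abs_mul, abs_of_pos (by positivity)]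
  have h5 : 400 * η * X ^ 2 < |iw (S.J t w) (fun d => ∏ i ∈ ({u, δ} : Finset ι), S.at' (Ψ i) t w d) (fun _ => 1)| :=
    lt_of_lt_of_le hr h
  rw [inv_mul_eq_div, lt_div_iff₀ (by positivity)]
  exact h5

end Sys

/-! ### numbers -/

theorem Two.sqrt_log {θ : ℝ} (hθ : 0 < θ) : θ * (1 + Real.log (1 / θ)) ≤ 2 * Real.sqrt θ := by
  set s := Real.sqrt θ with hs
  have hs0 : 0 < s := Real.sqrt_pos.2 hθ
  have h1 : s * s = θ := Real.mul_self_sqrt hθ.le
  have h2 : Real.log (1 / θ) = 2 * Real.log (1 / s) := by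
    rw [← h1, Real.log_div one_ne_zero (by positivity), Real.log_div one_ne_zero hs0.ne',
      Real.log_mul hs0.ne' hs0.ne', Real.log_one]
    ring
  have h3 : Real.log (1 / s) ≤ 1 / s - 1 := Real.log_le_sub_one_of_pos (by positivity)
  rw [h2, ← h1]
  have h4 : s * (1 + 2 * Real.log (1 / s)) ≤ 2 := by
    have h5 : s * (1 / s) = 1 := by field_simp
    have h6 : s * Real.log (1 / s) ≤ s * (1 / s - 1) := mul_le_mul_of_nonneg_left h3 hs0.le
    have h7 : s * (1 / s - 1) = 1 - s := by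
      rw [mul_sub, h5, mul_one]
    nlinarith
  nlinarith

/-- `out2` is a power of `θ` -/
theorem Sys.out2_le {K m0 θ η : ℝ} (hK : 1 ≤ K) (hm : 0 ≤ m0) (hθ : 0 < θ) (hθ1 : θ ≤ 1) (hη : 0 < η) :
    Sys.out2 K m0 θ η ≤ 2 * 10 ^ 8 * m0 / η ^ 4 * (1 + Real.log K) * Real.sqrt θ := by
  have hlK : 0 ≤ Real.log K := Real.log_nonneg hK
  have hl : 0 ≤ Real.log (1 / θ) := Real.log_nonneg (by
    rw [le_div_iff₀ hθ]
    linarith)
  have h1 : Real.log (K / θ) = Real.log K + Real.log (1 / θ) := by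
    rw [Real.log_div (by positivity) hθ.ne', Real.log_div one_ne_zero hθ.ne', Real.log_one]
    ring
  have h2 : 1 + Real.log (K / θ) ≤ (1 + Real.log K) * (1 + Real.log (1 / θ)) := by
    rw [h1]
    nlinarith
  have h3 := Two.sqrt_log hθ
  unfold Sys.out2
  have h4 : 0 ≤ 10 ^ 8 * m0 / η ^ 4 := by positivity
  calc 10 ^ 8 * θ * m0 / η ^ 4 * (1 + Real.log (K / θ))
      ≤ 10 ^ 8 * θ * m0 / η ^ 4 * ((1 + Real.log K) * (1 + Real.log (1 / θ))) :=
        mul_le_mul_of_nonneg_left h2 (by positivity)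
    _ = 10 ^ 8 * m0 / η ^ 4 * (1 + Real.log K) * (θ * (1 + Real.log (1 / θ))) := by ring
    _ ≤ 10 ^ 8 * m0 / η ^ 4 * (1 + Real.log K) * (2 * Real.sqrt θ) :=
        mul_le_mul_of_nonneg_left h3 (by positivity)
    _ = _ := by ring

/-! ### the binary model -/

section bin

open Pool.Agent.M3.Bin

variable {k N : ℕ} {ι Θ Ξ Q : Type} [Fintype ι] [DecidableEq ι] (σ : V k) [Fintype Θ] [Nonempty Θ] [Fintype Ξ]
  [Nonempty Ξ] [Fintype Q] [Nonempty Q]

/-- **(SMI_2) in the binary model** -/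
theorem SMI_two {u δ : ι} (hud : u ≠ δ) (i : ι) (hN : N ≤ k) (h : ℕ) {X m0 θ acc r η : ℝ} (hX : 0 < X)
    (hθ : 0 < θ) (hθ1 : θ ≤ 1) (hη : 0 < η) (hη1 : η ≤ 1 / 4) (hnear : 8 * ((2 : ℝ) ^ h)⁻¹ ≤ η / 4)
    (hacc : 2 * acc ≤ η * X) (hr : 400 * η * X ^ 2 < r) :
    (binSys Θ Ξ Q σ i hN h).SMIat {u, δ} δ X m0 θ acc r
      (Sys.out2 (((Fintype.card ι + 4) * 2 ^ (h + 3) : ℕ) : ℝ) m0 θ η) :=
  (binSys Θ Ξ Q σ i hN h).SMI_two hud (LM1m σ hud i hN h _ rfl) hX hθ hθ1 hη hη1 hnear hacc hr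

/-- two unknown vertices, one of them `δ` -/
theorem SMI_card_two {Vj : Finset ι} (hV : Vj.card = 2) {δ : ι} (hδ : δ ∈ Vj) (i : ι) (hN : N ≤ k) (h : ℕ)
    {X m0 θ acc r η : ℝ} (hX : 0 < X) (hθ : 0 < θ) (hθ1 : θ ≤ 1) (hη : 0 < η) (hη1 : η ≤ 1 / 4)
    (hnear : 8 * ((2 : ℝ) ^ h)⁻¹ ≤ η / 4) (hacc : 2 * acc ≤ η * X) (hr : 400 * η * X ^ 2 < r) :
    (binSys Θ Ξ Q σ i hN h).SMIat Vj δ X m0 θ acc r
      (Sys.out2 (((Fintype.card ι + 4) * 2 ^ (h + 3) : ℕ) : ℝ) m0 θ η) := by
  obtain ⟨u, hu⟩ : ∃ u, Vj.erase δ = {u} := by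
    rw [← Finset.card_eq_one, Finset.card_erase_of_mem hδ, hV]
  have hud : u ≠ δ := by
    have h1 : u ∈ Vj.erase δ := by
      rw [hu]
      exact mem_singleton_self u
    exact (mem_erase.1 h1).1
  have hVj : Vj = {u, δ} := by
    rw [← Finset.insert_erase hδ, hu]
    exact Finset.pair_comm _ _
  subst hVj
  exact SMI_two σ hud i hN h hX hθ hθ1 hη hη1 hnear hacc hr

/-- the same with `η = r / (401 X²)` and a power of `θ` -/
theorem SMI_card_two' {Vj : Finset ι} (hV : Vj.card = 2) {δ : ι} (hδ : δ ∈ Vj) (i : ι) (hN : N ≤ k) (h : ℕ)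
    {X m0 θ acc r : ℝ} (hX : 0 < X) (hm : 0 ≤ m0) (hθ : 0 < θ) (hθ1 : θ ≤ 1) (hr0 : 0 < r) (hr1 : r ≤ 100 * X ^ 2)
    (hnear : 12832 * X ^ 2 ≤ r * 2 ^ h) (hacc : 802 * acc * X ≤ r) :
    (binSys Θ Ξ Q σ i hN h).SMIat Vj δ X m0 θ acc r (2 * 10 ^ 8 * m0 * (401 * X ^ 2 / r) ^ 4 *
      (1 + Real.log (((Fintype.card ι + 4) * 2 ^ (h + 3) : ℕ) : ℝ)) * Real.sqrt θ) := by
  have hX2 : 0 < X ^ 2 := by positivity
  set η : ℝ := r / (401 * X ^ 2) with hηd
  have hη : 0 < η := by positivity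
  have h2 : (0 : ℝ) < 2 ^ h := by positivity
  have hη1 : η ≤ 1 / 4 := by
    rw [hηd, div_le_iff₀ (by positivity)]
    linarith
  have hn : 8 * ((2 : ℝ) ^ h)⁻¹ ≤ η / 4 := by
    rw [← div_eq_mul_inv, div_le_iff₀ h2, hηd]
    have e1 : r / (401 * X ^ 2) / 4 * 2 ^ h = r * 2 ^ h / (1604 * X ^ 2) := by
      field_simp
      ring
    rw [e1, le_div_iff₀ (by positivity)]
    linarith
  have ha : 2 * acc ≤ η * X := by
    have e1 : η * X = r / (401 * X) := by
      rw [hηd]
      field_simp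
    rw [e1, le_div_iff₀ (by positivity)]
    linarith
  have hr : 400 * η * X ^ 2 < r := by
    have e1 : 400 * η * X ^ 2 = 400 / 401 * r := by
      rw [hηd]
      field_simp
    rw [e1]
    linarith
  have hK : (1 : ℝ) ≤ (((Fintype.card ι + 4) * 2 ^ (h + 3) : ℕ) : ℝ) := by
    have h1 : 1 ≤ (Fintype.card ι + 4) * 2 ^ (h + 3) := Nat.mul_pos (by omega) (Nat.two_pow_pos _)
    exact_mod_cast h1
  refine (SMI_card_two σ hV hδ i hN h hX hθ hθ1 hη hη1 hn ha hr).mono le_rfl le_rfl le_rfl le_rfl le_rfl ?_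
  refine (Sys.out2_le hK hm hθ hθ1 hη).trans (le_of_eq ?_)
  have e1 : (401 * X ^ 2 / r) ^ 4 = 1 / η ^ 4 := by
    rw [hηd]
    field_simp
  rw [e1]
  ring

end bin

end

end Pool.Agent.GM
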