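import Pool.Agent.GM.SMI
import Pool.Agent.GM.Geo

/-!
# GM/SMIfix (helper96): (SMI_j) at exact values of some vertices, from (SMI_j) for all vertices of a smaller model

`SMI_fix` : if `SMIat` holds for all vertices of the binary model with the vertices outside `E`, for every offset, then
`SMIat` holds for the unknown vertices `univ \ E` of the binary model with the vertices `ι`.

The geometry sees a sample point through its CORE `(coins, vertices, public randomness, noise)`; the law of the core does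
not depend on the vertex which carries the coins (`E_core`), and fixing the vertices of `E` changes the offset (`E_at`).
-/

set_option autoImplicit false
set_option linter.unusedSectionVars false

namespace Pool.Agent.GM

open Finset Pool.Agent.PWZ Pool.Agent.M3 Pool.Agent.M3.TS Pool.Agent.M3.Bin
open Pool.Agent.M3.Mod (ex nd)

noncomputable section

variable {k N : ℕ} {ι Θ Ξ Q : Type} [Fintype ι] [DecidableEq ι] (σ : V k) [Fintype Θ] [Nonempty Θ] [Fintype Ξ]
  [Nonempty Ξ] [Fintype Q] [Nonempty Q]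

/-! ### the core of a sample point -/

/-- coins, vertices, public randomness, noise -/
abbrev Core (k N : ℕ) (ι Θ Ξ Q : Type) : Type := Ξ × (ι → Q × V k) × Θ × Fin (2 ^ N)

/-- the core of a sample point, coins of the vertex `i` -/
def core (i : ι) (ω : Sq k N ι Θ (Ξ × Q)) : Core k N ι Θ Ξ Q := (xm i ω, vm ω, th ω, ω.2.2)

/-- a sample point with a given core -/
def sec (c : Core k N ι Θ Ξ Q) : Sq k N ι Θ (Ξ × Q) :=
  (c.2.2.1, fun j => ((c.1, (c.2.1 j).1), (c.2.1 j).2), c.2.2.2)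

theorem core_sec (i : ι) (c : Core k N ι Θ Ξ Q) : core i (sec c) = c := rfl

/-- the core and the other coins -/
def coreE (i : ι) : Sq k N ι Θ (Ξ × Q) ≃ Core k N ι Θ Ξ Q × ({l : ι // l ≠ i} → Ξ) where
  toFun ω := (core i ω, fun l => xm l.1 ω)
  invFun p := (p.1.2.2.1, fun j => ((if h : j = i then p.1.1 else p.2 ⟨j, h⟩, (p.1.2.1 j).1), (p.1.2.1 j).2), p.1.2.2.2)
  left_inv ω := by
    refine Prod.ext rfl (Prod.ext ?_ rfl)
    funext j
    show ((if h : j = i then xm i ω else xm j ω, (vm ω j).1), (vm ω j).2) = _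
    have h1 : (if h : j = i then xm i ω else xm j ω) = xm j ω := by
      split_ifs with h
      · rw [h]
      · rfl
    rw [h1]
    rfl
  right_inv p := by
    refine Prod.ext (Prod.ext ?_ rfl) ?_
    · exact dif_pos rfl
    · funext l
      exact dif_neg l.2

theorem E_core (i : ι) (f : Core k N ι Θ Ξ Q → ℝ) :
    (PM k N ι Θ Ξ Q).E (fun ω => f (core i ω)) = (FP.unif (Core k N ι Θ Ξ Q)).E f := by
  unfold PM Pm
  rw [FP.unif_E, FP.unif_E]
  have h1 : ∑ ω : Sq k N ι Θ (Ξ × Q), f (core i ω) =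
      ∑ p : Core k N ι Θ Ξ Q × ({l : ι // l ≠ i} → Ξ), f p.1 :=
    Equiv.sum_comp (coreE i) (fun p => f p.1)
  rw [h1, Fintype.sum_prod_type, Fintype.card_congr (coreE (k := k) (N := N) (Θ := Θ) (Ξ := Ξ) (Q := Q) i),
    Fintype.card_prod (Core k N ι Θ Ξ Q) ({l : ι // l ≠ i} → Ξ)]
  have h2 : ∀ x : Core k N ι Θ Ξ Q, ∑ _y : {l : ι // l ≠ i} → Ξ, f x =
      (Fintype.card ({l : ι // l ≠ i} → Ξ) : ℝ) * f x := by
    intro x
    rw [Finset.sum_const, Finset.card_univ, nsmul_eq_mul]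
  simp only [h2]
  rw [← Finset.mul_sum]
  have h3 : (Fintype.card ({l : ι // l ≠ i} → Ξ) : ℝ) ≠ 0 := Nat.cast_ne_zero.mpr Fintype.card_ne_zero
  have h4 : (Fintype.card (Core k N ι Θ Ξ Q) : ℝ) ≠ 0 := Nat.cast_ne_zero.mpr Fintype.card_ne_zero
  push_cast
  field_simp

/-! ### exact values of the vertices of `E` -/

variable (E : Finset ι)

/-- the core with the exact values `a` -/
def upc {E : Finset ι} (a : {j // j ∈ E} → Q × V k) (c : Core k N {j // j ∉ E} Θ Ξ Q) : Core k N ι Θ Ξ Q :=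
  (c.1, Sys.glue E a c.2.1, c.2.2)

/-- the core without the vertices of `E` -/
def dnc (c : Core k N ι Θ Ξ Q) : Core k N {j // j ∉ E} Θ Ξ Q := (c.1, fun j => c.2.1 j.1, c.2.2)

variable {E}

theorem dnc_upc (a : {j // j ∈ E} → Q × V k) (c : Core k N {j // j ∉ E} Θ Ξ Q) : dnc E (upc a c) = c := by
  unfold dnc upc
  refine Prod.ext rfl (Prod.ext ?_ rfl)
  funext j
  exact Sys.glue_sub a c.2.1 j

theorem upc_dnc {a : {j // j ∈ E} → Q × V k} {c : Core k N ι Θ Ξ Q} (h : res E c.2.1 = a) : upc a (dnc E c) = c := by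
  unfold dnc upc
  refine Prod.ext rfl (Prod.ext ?_ rfl)
  funext j
  by_cases hj : j ∈ E
  · show Sys.glue E a _ j = _
    rw [Sys.glue_in _ _ hj, ← h]
    rfl
  · exact Sys.glue_out _ _ hj

theorem res_upc (a : {j // j ∈ E} → Q × V k) (c : Core k N {j // j ∉ E} Θ Ξ Q) : res E (upc a c).2.1 = a := by
  funext j
  exact Sys.glue_in _ _ j.2

/-- the equivalence -/
def splE (E : Finset ι) : Core k N ι Θ Ξ Q ≃ ({j // j ∈ E} → Q × V k) × Core k N {j // j ∉ E} Θ Ξ Q where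
  toFun c := (res E c.2.1, dnc E c)
  invFun p := upc p.1 p.2
  left_inv _ := upc_dnc rfl
  right_inv _ := Prod.ext (res_upc _ _) (dnc_upc _ _)

theorem E_split (E : Finset ι) (f : Core k N ι Θ Ξ Q → ℝ) :
    (FP.unif (Core k N ι Θ Ξ Q)).E f =
      (FP.unif ({j // j ∈ E} → Q × V k)).E (fun a => (FP.unif (Core k N {j // j ∉ E} Θ Ξ Q)).E fun c => f (upc a c)) := by
  rw [FP.unif_E, FP.unif_E]
  have h1 : ∑ c : Core k N ι Θ Ξ Q, f c =
      ∑ p : ({j // j ∈ E} → Q × V k) × Core k N {j // j ∉ E} Θ Ξ Q, f (upc p.1 p.2) :=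
    (Equiv.sum_comp (splE E).symm f).symm
  rw [h1, Fintype.sum_prod_type, Fintype.card_congr (splE (k := k) (N := N) (Θ := Θ) (Ξ := Ξ) (Q := Q) E),
    Fintype.card_prod ({j // j ∈ E} → Q × V k) (Core k N {j // j ∉ E} Θ Ξ Q)]
  simp only [FP.unif_E]
  rw [← Finset.sum_div]
  have h3 : (Fintype.card ({j // j ∈ E} → Q × V k) : ℝ) ≠ 0 := Nat.cast_ne_zero.mpr Fintype.card_ne_zero
  have h4 : (Fintype.card (Core k N {j // j ∉ E} Θ Ξ Q) : ℝ) ≠ 0 := Nat.cast_ne_zero.mpr Fintype.card_ne_zero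
  push_cast
  field_simp

/-- total expectation: first the exact values, then the small model -/
theorem E_exact (i : ι) (i' : {j // j ∉ E}) (f : Core k N ι Θ Ξ Q → ℝ) :
    (PM k N ι Θ Ξ Q).E (fun ω => f (core i ω)) = (FP.unif ({j // j ∈ E} → Q × V k)).E
      (fun a => (PM k N {j // j ∉ E} Θ Ξ Q).E fun v => f (upc a (core i' v))) := by
  rw [E_core, E_split E]
  congr 1
  funext a
  exact (E_core i' (fun c => f (upc a c))).symm

/-- expectation at exact values -/
theorem E_at (i : ι) (i' : {j // j ∉ E}) (a : {j // j ∈ E} → Q × V k) (f : Core k N ι Θ Ξ Q → ℝ) :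
    (PM k N ι Θ Ξ Q).E (fun ω => ind (res E (vm ω) = a) * f (core i ω)) =
      (Fintype.card ({j // j ∈ E} → Q × V k) : ℝ)⁻¹ *
        (PM k N {j // j ∉ E} Θ Ξ Q).E fun v => f (upc a (core i' v)) := by
  have h1 := E_exact (E := E) i i' (fun c : Core k N ι Θ Ξ Q => ind (res E c.2.1 = a) * f c)
  refine h1.trans ?_
  rw [FP.unif_E]
  have h2 : ∀ b : {j // j ∈ E} → Q × V k, (PM k N {j // j ∉ E} Θ Ξ Q).E (fun v =>
      ind (res E (upc b (core i' v)).2.1 = a) * f (upc b (core i' v))) =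
      ind (b = a) * (PM k N {j // j ∉ E} Θ Ξ Q).E fun v => f (upc a (core i' v)) := by
    intro b
    rw [← FP.E_smul]
    refine FP.E_congr _ fun v _ => ?_
    rw [res_upc]
    by_cases h : b = a
    · rw [h]
    · rw [ind_not h, zero_mul, zero_mul]
  rw [Finset.sum_congr rfl fun b _ => h2 b, ← Finset.sum_mul, sum_ind_one]
  rw [one_mul, div_eq_inv_mul]

/-! ### nodes and windows of a core -/

/-- node of a core -/
def gmc (h e : ℕ) (c : Core k N ι Θ Ξ Q) : Θ × (V k × ℕ) := (c.2.2.1, G h e (∑ j, (c.2.1 j).2 + σ) c.2.2.2.val)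

/-- exact window of a core -/
def Jc (e : ℕ) (c : Core k N ι Θ Ξ Q) : V k → ℝ := Wd e (nd e (∑ j, (c.2.1 j).2 + σ) c.2.2.2.val).1

theorem gv_core (h e : ℕ) (i : ι) (ω : Sq k N ι Θ (Ξ × Q)) : gv σ h e ω = gmc σ h e (core i ω) := rfl

theorem J_core (e : ℕ) (i : ι) (ω : Sq k N ι Θ (Ξ × Q)) : Wd e (Yn σ e ω).1 = Jc σ e (core i ω) := rfl

theorem sum_upc (a : {j // j ∈ E} → Q × V k) (z : {j // j ∉ E} → Q × V k) :
    ∑ j, (Sys.glue E a z j).2 + σ = ∑ j, (z j).2 + (σ + ∑ j, (a j).2) := by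
  have h1 : ∑ j : {j // j ∈ E}, (Sys.glue E a z j.1).2 + ∑ j : {j // j ∉ E}, (Sys.glue E a z j.1).2 =
      ∑ j, (Sys.glue E a z j).2 := by
    rw [← Finset.sum_filter_add_sum_filter_not univ (fun j => j ∈ E) (fun j => (Sys.glue E a z j).2)]
    congr 1
    · rw [Finset.filter_mem_eq_inter, Finset.univ_inter]
      exact Finset.sum_coe_sort E (fun j => (Sys.glue E a z j).2)
    · exact (Finset.sum_subtype (p := fun i => i ∉ E) (univ.filter fun i => i ∉ E) (by simp)
        (fun j => (Sys.glue E a z j).2)).symm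
  have h2 : ∑ j : {j // j ∈ E}, (Sys.glue E a z j.1).2 = ∑ j, (a j).2 :=
    Finset.sum_congr rfl fun j _ => by rw [Sys.glue_in _ _ j.2]
  have h3 : ∑ j : {j // j ∉ E}, (Sys.glue E a z j.1).2 = ∑ j, (z j).2 :=
    Finset.sum_congr rfl fun j _ => by rw [Sys.glue_sub]
  rw [← h1, h2, h3]
  abel

theorem gmc_upc (h e : ℕ) (a : {j // j ∈ E} → Q × V k) (c : Core k N {j // j ∉ E} Θ Ξ Q) :
    gmc σ h e (upc a c) = gmc (σ + ∑ j, (a j).2) h e c := by
  unfold gmc upc
  simp only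
  rw [sum_upc]

theorem Jc_upc (e : ℕ) (a : {j // j ∈ E} → Q × V k) (c : Core k N {j // j ∉ E} Θ Ξ Q) :
    Jc σ e (upc a c) = Jc (σ + ∑ j, (a j).2) e c := by
  unfold Jc upc
  simp only
  rw [sum_upc]

/-- a moving object at exact values -/
def down {β Γ : Type} {Pt : Type} (a : {j // j ∈ E} → Pt) (f : Mov Ξ ι Pt Γ β) : Mov Ξ {j // j ∉ E} Pt Γ β :=
  fun t g ξ z => f t g ξ (Sys.glue E a z)

/-- the value of a moving object on a core -/
def mvc {β : Type} (h : ℕ) (f : Mov Ξ ι (Q × V k) (Θ × (V k × ℕ)) β) (t : ℕ) (c : Core k N ι Θ Ξ Q) : β :=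
  f t (gmc σ h (ex N t) c) c.1 c.2.1

theorem at_core {β : Type} (i : ι) (hN : N ≤ k) (h : ℕ) (f : Mov Ξ ι (Q × V k) (Θ × (V k × ℕ)) β) (t : ℕ)
    (ω : Sq k N ι Θ (Ξ × Q)) : (binSys Θ Ξ Q σ i hN h).at' f t ω = mvc σ h f t (core i ω) := rfl

theorem mvc_upc {β : Type} (h : ℕ) (f : Mov Ξ ι (Q × V k) (Θ × (V k × ℕ)) β) (t : ℕ) (a : {j // j ∈ E} → Q × V k)
    (c : Core k N {j // j ∉ E} Θ Ξ Q) : mvc σ h f t (upc a c) = mvc (σ + ∑ j, (a j).2) h (down a f) t c := by
  unfold mvc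
  rw [gmc_upc]
  rfl

theorem dep_down {β : Type*} {Pt : Type} [Fintype Pt] {I : Finset ι} {f : (ι → Pt) → β} (hf : Dep I f) (a : {j // j ∈ E} → Pt)
    {I' : Finset {j // j ∉ E}} (hI : ∀ j : {j // j ∉ E}, j.1 ∈ I → j ∈ I') :
    Dep I' (fun z : {j // j ∉ E} → Pt => f (Sys.glue E a z)) := by
  intro x y hxy
  refine hf _ _ fun j hj => ?_
  by_cases h : j ∈ E
  · rw [Sys.glue_in _ _ h, Sys.glue_in _ _ h]
  · rw [Sys.glue_out _ _ h, Sys.glue_out _ _ h]
    exact hxy ⟨j, h⟩ (hI ⟨j, h⟩ hj)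

/-- the future of a moving object at exact values -/
theorem future_down {β : Type} (i : ι) (i' : {j // j ∉ E}) (hN : N ≤ k) (h : ℕ) (w : {j // j ∉ E})
    (f : Mov Ξ ι (Q × V k) (Θ × (V k × ℕ)) β) {m0 : ℝ}
    (H : (binSys Θ Ξ Q σ i hN h).Future (univ.erase w.1) f m0) (a : {j // j ∈ E} → Q × V k) :
    (binSys Θ Ξ Q (σ + ∑ j, (a j).2) i' hN h).Future (univ.erase w) (down a f) m0 := by
  intro t φ hφ hφ0
  set σ' := σ + ∑ j, (a j).2 with hσ'
  set Φ : Core k N ι Θ Ξ Q → ℝ := fun c => φ (sec (dnc E c)) with hΦ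
  have hΦu : ∀ v : Sq k N {j // j ∉ E} Θ (Ξ × Q), Φ (upc a (core i' v)) = φ v := by
    intro v
    rw [hΦ]
    simp only
    rw [dnc_upc]
    exact hφ _ _ rfl
  have hw : w.1 ∉ E := w.2
  have h1 := H t (fun ω => ind (res E (vm ω) = a) * Φ (core i ω)) ?_ ?_
  · have e1 := E_at (E := E) i i' a Φ
    have e2 : ∀ u, (PM k N ι Θ Ξ Q).E (fun ω => ind (res E (vm ω) = a) * Φ (core i ω) *
        ind (mvc σ h f (u + 1) (core i ω) ≠ mvc σ h f u (core i ω))) =
        (Fintype.card ({j // j ∈ E} → Q × V k) : ℝ)⁻¹ * (PM k N {j // j ∉ E} Θ Ξ Q).E fun v =>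
          φ v * ind (mvc σ' h (down a f) (u + 1) (core i' v) ≠ mvc σ' h (down a f) u (core i' v)) := by
      intro u
      have e3 := E_at (E := E) i i' a (fun c : Core k N ι Θ Ξ Q => Φ c * ind (mvc σ h f (u + 1) c ≠ mvc σ h f u c))
      rw [FP.E_congr _ fun ω _ => mul_assoc _ _ _]
      refine e3.trans ?_
      congr 1
      refine FP.E_congr _ fun v _ => ?_
      rw [hΦu, mvc_upc, mvc_upc]
    have h2 : ∑ u ∈ Finset.Ico t N, (PM k N ι Θ Ξ Q).E (fun ω => ind (res E (vm ω) = a) * Φ (core i ω) *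
        ind (mvc σ h f (u + 1) (core i ω) ≠ mvc σ h f u (core i ω))) ≤
        m0 * (PM k N ι Θ Ξ Q).E (fun ω => ind (res E (vm ω) = a) * Φ (core i ω)) := h1
    rw [Finset.sum_congr rfl fun u _ => e2 u, e1, ← Finset.mul_sum] at h2
    rw [FP.E_congr _ fun v _ => hΦu v] at h2
    have h3 : (0 : ℝ) < (Fintype.card ({j // j ∈ E} → Q × V k) : ℝ)⁻¹ :=
      inv_pos.2 (by exact_mod_cast Fintype.card_pos)
    refine le_of_mul_le_mul_left (a := (Fintype.card ({j // j ∈ E} → Q × V k) : ℝ)⁻¹) ?_ h3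
    refine h2.trans (le_of_eq ?_)
    rw [show (binSys Θ Ξ Q σ' i' hN h).P.E φ = (PM k N {j // j ∉ E} Θ Ξ Q).E φ from rfl]
    ring
  · intro ω ω' hs
    have s1 : xm i ω = xm i ω' := congrArg (fun p => p.1) hs
    have s2 : res (univ.erase w.1) (vm ω) = res (univ.erase w.1) (vm ω') := congrArg (fun p => p.2.1) hs
    have s3 : gv σ h (ex N t) ω = gv σ h (ex N t) ω' := congrArg (fun p => p.2.2) hs
    have s4 := res_eq.1 s2
    have s5 : res E (vm ω) = res E (vm ω') := by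
      rw [res_eq]
      intro j hj
      exact s4 j (mem_erase.2 ⟨fun h' => hw (by rw [← h']; exact hj), mem_univ _⟩)
    show ind (res E (vm ω) = a) * Φ (core i ω) = ind (res E (vm ω') = a) * Φ (core i ω')
    rw [← s5]
    by_cases ha : res E (vm ω) = a
    · congr 1
      rw [hΦ]
      simp only
      refine hφ _ _ ?_
      have hu : upc a (dnc E (core i ω)) = core i ω := upc_dnc (c := core i ω) ha
      have hu' : upc a (dnc E (core i ω')) = core i ω' := upc_dnc (c := core i ω') (by rw [← ha]; exact s5.symm)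
      refine Prod.ext s1 (Prod.ext ?_ ?_)
      · show res (univ.erase w) (fun j : {j // j ∉ E} => vm ω j.1) = res (univ.erase w) fun j : {j // j ∉ E} => vm ω' j.1
        rw [res_eq]
        intro j hj
        exact s4 j.1 (mem_erase.2 ⟨fun h' => (ne_of_mem_erase hj) (Subtype.ext h'), mem_univ _⟩)
      · show gmc σ' h (ex N t) (dnc E (core i ω)) = gmc σ' h (ex N t) (dnc E (core i ω'))
        rw [← gmc_upc σ h (ex N t) a, ← gmc_upc σ h (ex N t) a, hu, hu']
        exact s3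
    · rw [ind_not ha, zero_mul, zero_mul]
  · intro ω
    exact mul_nonneg (ind_nonneg _) (hφ0 _)

/-- the vertices outside `E` -/
theorem map_out (E : Finset ι) : (univ : Finset {j // j ∉ E}).map (Function.Embedding.subtype _) = univ \ E := by
  ext j
  simp only [mem_map, mem_univ, true_and, mem_sdiff, Function.Embedding.subtype_apply]
  constructor
  · rintro ⟨x, rfl⟩
    exact x.2
  · intro h
    exact ⟨⟨j, h⟩, rfl⟩

theorem map_out_erase (w : {j // j ∉ E}) :
    ((univ : Finset {j // j ∉ E}).erase w).map (Function.Embedding.subtype _) = (univ \ E).erase w.1 := by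
  rw [Finset.map_erase, map_out]
  rfl

/-- product tests at exact values -/
theorem rare_down (i : ι) (i' : {j // j ∉ E}) (hN : N ≤ k) (h : ℕ) (w : {j // j ∉ E})
    (f : Mov Ξ ι (Q × V k) (Θ × (V k × ℕ)) (V k → ℝ)) {θ acc : ℝ}
    (H : (binSys Θ Ξ Q σ i hN h).Rare (univ \ E) w.1 f θ acc) (a : {j // j ∈ E} → Q × V k) :
    (binSys Θ Ξ Q (σ + ∑ j, (a j).2) i' hN h).Rare univ w (down a f) θ acc := by
  classical
  intro t ht v0 y u hu hu1
  set σ' := σ + ∑ j, (a j).2 with hσ'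
  set u' : ι → (ι → Q × V k) → V k → ℝ := fun j x d => if hj : j ∈ E then 0 else u ⟨j, hj⟩ (fun l => x l.1) d with hu'
  have hu'o : ∀ (j : {j // j ∉ E}) (x : ι → Q × V k) (d : V k), u' j.1 x d = u j (fun l => x l.1) d := by
    intro j x d
    rw [hu']
    simp only
    rw [dif_neg j.2]
  have h1 := H t ht (sec (upc a (core i' v0))) (Sys.glue E a y) u' ?_ ?_
  · have hg : gmc σ h (ex N t) (upc a (core i' v0)) = gv σ' h (ex N t) v0 := gmc_upc σ h (ex N t) a (core i' v0)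
    have hg' : (binSys Θ Ξ Q σ i hN h).gm t (sec (upc a (core i' v0))) = gv σ' h (ex N t) v0 := hg
    rw [hg'] at h1
    have hbox : ∀ z : {j // j ∉ E} → Q × V k, (binSys Θ Ξ Q σ i hN h).Box (univ \ E) t (Sys.glue E a y)
        (Sys.glue E a z) ↔ (binSys Θ Ξ Q σ' i' hN h).Box univ t y z := by
      intro z
      constructor
      · rintro ⟨_, h3⟩
        refine ⟨fun j hj => absurd (mem_univ j) hj, fun j _ => ?_⟩
        have h4 := h3 j.1 (mem_sdiff.2 ⟨mem_univ _, j.2⟩)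
        rwa [Sys.glue_sub, Sys.glue_sub] at h4
      · rintro ⟨_, h3⟩
        refine ⟨fun j hj => ?_, fun j hj => ?_⟩
        · have hjE : j ∈ E := by
            by_contra hc
            exact hj (mem_sdiff.2 ⟨mem_univ _, hc⟩)
          rw [Sys.glue_in _ _ hjE, Sys.glue_in _ _ hjE]
        · have hjE : j ∉ E := (mem_sdiff.1 hj).2
          rw [Sys.glue_out _ _ hjE, Sys.glue_out _ _ hjE]
          exact h3 ⟨j, hjE⟩ (mem_univ _)
    have hbE : ∀ z : ι → Q × V k, (binSys Θ Ξ Q σ i hN h).Box (univ \ E) t (Sys.glue E a y) z →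
        ∀ j : {j // j ∈ E}, z j.1 = a j := by
      rintro z ⟨h3, _⟩ j
      rw [h3 j.1 (fun hc => (mem_sdiff.1 hc).2 j.2), Sys.glue_in _ _ j.2]
    have hsum : ∀ C : (ι → Q × V k) → Prop, ∑ z : ι → Q × V k,
        ind ((binSys Θ Ξ Q σ i hN h).Box (univ \ E) t (Sys.glue E a y) z ∧ C z) =
        ∑ z : {j // j ∉ E} → Q × V k, ind ((binSys Θ Ξ Q σ' i' hN h).Box univ t y z ∧ C (Sys.glue E a z)) := by
      intro C
      have h3 := Sys.sum_glue E a (fun z : ι → Q × V k =>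
        ind ((binSys Θ Ξ Q σ i hN h).Box (univ \ E) t (Sys.glue E a y) z ∧ C z))
      have h4 : ∀ z : ι → Q × V k, ind (∀ j : {j // j ∈ E}, z j.1 = a j) *
          ind ((binSys Θ Ξ Q σ i hN h).Box (univ \ E) t (Sys.glue E a y) z ∧ C z) =
          ind ((binSys Θ Ξ Q σ i hN h).Box (univ \ E) t (Sys.glue E a y) z ∧ C z) := by
        intro z
        rw [← ind_and]
        congr 1
        apply propext
        exact ⟨fun h' => h'.2, fun h' => ⟨hbE z h'.1, h'⟩⟩
      rw [Finset.sum_congr rfl fun z _ => h4 z] at h3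
      rw [h3]
      refine Finset.sum_congr rfl fun z _ => ?_
      rw [hbox z]
    have hsum' : ∑ z : ι → Q × V k, ind ((binSys Θ Ξ Q σ i hN h).Box (univ \ E) t (Sys.glue E a y) z) =
        ∑ z : {j // j ∉ E} → Q × V k, ind ((binSys Θ Ξ Q σ' i' hN h).Box univ t y z) := by
      have h3 := hsum fun _ => True
      simpa only [and_true] using h3
    rw [hsum', Finset.sum_congr rfl fun ξ _ => hsum fun z => acc ≤ |iw ((binSys Θ Ξ Q σ i hN h).ρ t (gv σ' h (ex N t) v0))
      (f t (gv σ' h (ex N t) v0) ξ z) (fun d => ∏ j ∈ (univ \ E).erase w.1, u' j z d)|] at h1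
    refine le_trans (le_of_eq ?_) h1
    refine Finset.sum_congr rfl fun ξ _ => Finset.sum_congr rfl fun z _ => ?_
    congr 1
    apply propext
    refine and_congr_right fun _ => ?_
    have hprod : (fun d => ∏ j ∈ (univ \ E).erase w.1, u' j (Sys.glue E a z) d) =
        fun d => ∏ j ∈ univ.erase w, u j z d := by
      funext d
      rw [← map_out_erase, Finset.prod_map]
      refine Finset.prod_congr rfl fun j _ => ?_
      show u' j.1 (Sys.glue E a z) d = _
      rw [hu'o]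
      congr 1
      funext l
      exact Sys.glue_sub a z l
    rw [hprod]
    rfl
  · intro j hj
    obtain ⟨hj1, hj2⟩ := mem_erase.1 hj
    have hjE : j ∉ E := (mem_sdiff.1 hj2).2
    have h2 := hu ⟨j, hjE⟩ (mem_erase.2 ⟨fun hc => hj1 (congrArg Subtype.val hc), mem_univ _⟩)
    intro x x' hx
    funext d
    rw [hu'o ⟨j, hjE⟩, hu'o ⟨j, hjE⟩]
    refine congrFun (h2 _ _ fun l hl => ?_) d
    obtain ⟨hl1, hl2⟩ := mem_erase.1 hl
    refine hx l.1 (mem_erase.2 ⟨fun hc => hl1 (Subtype.ext hc), mem_erase.2 ⟨fun hc => ?_, mem_univ _⟩⟩)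
    exact (ne_of_mem_erase hl2) (Subtype.ext hc)
  · intro j x d
    by_cases hj : j ∈ E
    · rw [hu']
      simp only
      rw [dif_pos hj, abs_zero]
      exact zero_le_one
    · rw [hu'o ⟨j, hj⟩]
      exact hu1 _ _ _

/-- **(SMI_j) at exact values of the vertices of `E`** -/
theorem SMI_fix (i : ι) (i' : {j // j ∉ E}) (hN : N ≤ k) (h : ℕ) {δ : ι} (hδ : δ ∉ E) {X m0 θ acc r out : ℝ}
    (H : ∀ σ' : V k, (binSys Θ Ξ Q σ' i' hN h).SMIat univ ⟨δ, hδ⟩ X m0 θ acc r out) :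
    (binSys Θ Ξ Q σ i hN h).SMIat (univ \ E) δ X m0 θ acc r out := by
  intro Ψ h1 h2 h3 h4 h5 h6
  have hm : ∀ w : {j // j ∉ E}, w.1 ∈ univ \ E := fun w => mem_sdiff.2 ⟨mem_univ _, w.2⟩
  set A : Core k N ι Θ Ξ Q → Prop := fun c => ∃ t ≤ N,
    r ≤ |iw (Jc σ (ex N t) c) (fun d => ∏ l ∈ univ \ E, mvc σ h (Ψ l) t c d) (fun _ => 1)| with hA
  show (PM k N ι Θ Ξ Q).E (fun ω => ind (A (core i ω))) ≤ out
  rw [E_exact (E := E) i i' (fun c => ind (A c))]
  refine FP.E_le_const _ fun a _ => ?_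
  set σ' := σ + ∑ j, (a j).2 with hσ'
  have hH := H σ' (fun w => down a (Ψ w.1)) ?_ ?_ ?_ ?_ ?_ ?_
  · refine le_trans (le_of_eq ?_) hH
    refine FP.E_congr _ fun v _ => ?_
    congr 1
    apply propext
    rw [hA]
    simp only
    refine exists_congr fun t => and_congr_right fun _ => ?_
    rw [Jc_upc]
    have hprod : (fun d => ∏ l ∈ univ \ E, mvc σ h (Ψ l) t (upc a (core i' v)) d) =
        fun d => ∏ l : {j // j ∉ E}, mvc σ' h (down a (Ψ l.1)) t (core i' v) d := by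
      funext d
      rw [← map_out, Finset.prod_map]
      refine Finset.prod_congr rfl fun l _ => ?_
      show mvc σ h (Ψ l.1) t (upc a (core i' v)) d = _
      rw [mvc_upc]
    rw [hprod]
    rfl
  · intro w _ t g ξ
    refine dep_down (h1 w.1 (hm w) t g ξ) a fun j hj => mem_erase.2 ⟨fun hc => ?_, mem_univ _⟩
    exact (ne_of_mem_erase hj) (congrArg Subtype.val hc)
  · intro w _ hw t g ξ ξ'
    funext z
    exact congrFun (h2 w.1 (hm w) (fun hc => hw (Subtype.ext hc)) t g ξ ξ') _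
  · intro w _ t g ξ x d
    exact h3 w.1 (hm w) t g ξ _ d
  · intro w _ g ξ x
    exact h4 w.1 (hm w) g ξ _
  · intro w _
    exact future_down σ i i' hN h w (Ψ w.1) (h5 w.1 (hm w)) a
  · intro w _
    exact rare_down σ i i' hN h w (Ψ w.1) (h6 w.1 (hm w)) a

end

end Pool.Agent.GM
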