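import Pool.Agent.GM.Pic
import Pool.Agent.M3.NVN
import Pool.Agent.M3.NVB

/-!
# GM/Scr (helper95): scripts, coins and noisy letters in the model `Sq`

Raw model `Sq k N ι Θ Ξ`, hidden vertex `i`, labels `l : L` with supports `S l : Finset {j // j ≠ i}`, letters in `φ`.
* `Scr Om L φ` : SCRIPTS: occasions `oc l t`, true components `tc l t`; `ScrH i h S sc` : `oc l t` is a function of
  `(x_(S l), node)`, `tc l t` of (hidden vertex, `x_(S l)`, node);
* `CN k N Ξ i L Rz φ` : the coins of a vertex, one sequence of noise for every label and every value of `x_(S l)`;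
  `nuM` : the noise of the label `l`; `LM` : the letters of the label `l` published up to the time `t`; `kv` : its kernel;
* `unif_inj` : a uniform function read at different points; `nu_law` : law of (raw point, noises);
  **`coin_law`** : law of (raw point, letters of all labels);
* `pulC_oth`, **`ce_Kn_drop`** : the coins of the known vertices can be forgotten;
* `LM_fac` : `LM l t` is a function of `AJ i h (S l) (ex N t)` in the model with coins; `LM_cum`, `LM_top`, `LM_congr`.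
-/

set_option autoImplicit false
set_option linter.unusedSectionVars false

namespace Pool.Agent.GM.ScrN

open Finset Pool.Agent.PWZ Pool.Agent.M3 Pool.Agent.M3.Bin Pool.Agent.GM
open Pool.Agent.M3.Mod (ex nd)

/-! ## uniform functions -/

theorem unif_eqv {O O1 : Type*} [Fintype O] [Nonempty O] [Fintype O1] [Nonempty O1] (e : O ≃ O1) (f : O1 → ℝ) :
    (FP.unif O).E (fun w => f (e w)) = (FP.unif O1).E f := by
  rw [FP.unif_E, FP.unif_E, Fintype.card_congr e]
  congr 1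
  exact Fintype.sum_equiv e _ _ fun _ => rfl

/-- a uniform function read at different points is uniform -/
theorem unif_inj {I L σ : Type*} [Fintype I] [Fintype L] [DecidableEq I] [DecidableEq L] [Fintype σ] [Nonempty σ]
    {g : L → I} (hg : Function.Injective g) (Ψ : (L → σ) → ℝ) :
    (FP.unif (I → σ)).E (fun c => Ψ (fun l => c (g l))) = (FP.unif (L → σ)).E Ψ := by
  classical
  let e1 : L ≃ {x : I // x ∈ Set.range g} := Equiv.ofInjective g hg
  let e2 : (I → σ) ≃ ({x : I // x ∈ Set.range g} → σ) × ({x : I // ¬ x ∈ Set.range g} → σ) :=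
    Equiv.piEquivPiSubtypeProd (fun x => x ∈ Set.range g) (fun _ => σ)
  let e3 : ({x : I // x ∈ Set.range g} → σ) ≃ (L → σ) := Equiv.arrowCongr e1.symm (Equiv.refl σ)
  have h1 := (pulC_unif (e2.trans (Equiv.prodCongr e3 (Equiv.refl _)))).pul.E Ψ
  rw [← h1]
  refine FP.E_congr _ fun c _ => ?_
  congr 1

theorem E_lab' {Om κ : Type*} [Fintype Om] [Fintype κ] (P : FP Om) (Y : Om → κ) (g : κ → ℝ) :
    P.E (fun w => g (Y w)) = ∑ F, P.Pr (fun w => Y w = F) * g F := by
  classical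
  have h1 : ∀ F, P.Pr (fun w => Y w = F) * g F = P.E (fun w => ind (Y w = F) * g F) := by
    intro F
    rw [FP.E_mul_const]
    rfl
  rw [Finset.sum_congr rfl fun F _ => h1 F, ← FP.E_sum]
  refine P.E_congr fun w _ => ?_
  rw [Finset.sum_eq_single (Y w)]
  · rw [ind_of rfl, one_mul]
  · intro F _ hF
    rw [ind_not (fun h => hF h.symm), zero_mul]
  · exact fun h => absurd (Finset.mem_univ _) h

/-- functions of independent uniform variables -/
theorem unif_prod_law {L σ κ : Type*} [Fintype L] [DecidableEq L] [Fintype σ] [Nonempty σ] [Fintype κ]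
    (Y : L → σ → κ) (g : (L → κ) → ℝ) :
    (FP.unif (L → σ)).E (fun x => g (fun l => Y l (x l))) =
      ∑ F : L → κ, (∏ l, (FP.unif σ).Pr (fun y => Y l y = F l)) * g F := by
  classical
  rw [E_lab' (FP.unif (L → σ)) (fun x l => Y l (x l)) g]
  refine Finset.sum_congr rfl fun F _ => ?_
  congr 1
  have h1 := Nz.unif_pi (σ := σ) (fun l => univ.filter fun y => Y l y = F l)
  have h2 : (FP.unif (L → σ)).Pr (fun x => (fun l => Y l (x l)) = F) =
      (FP.unif (L → σ)).Pr (fun ν => ∀ s, ν s ∈ univ.filter fun y => Y s y = F s) := by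
    refine FP.Pr_congr _ fun ν _ => ?_
    constructor
    · intro h s
      exact Finset.mem_filter.2 ⟨Finset.mem_univ _, congrFun h s⟩
    · intro h
      exact funext fun s => (Finset.mem_filter.1 (h s)).2
  rw [h2, h1]
  refine Finset.prod_congr rfl fun l _ => ?_
  unfold FP.Pr
  rw [FP.unif_E, Nz.sum_ind_card _ (univ.filter fun y => Y l y = F l) (fun y => by simp)]

variable {k N : ℕ} {ι Θ Ξ L φ : Type} {Rz : ℕ}

/-! ## scripts -/

/-- SCRIPTS: occasions and true components -/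
structure Scr (Om L φ : Type) where
  oc : L → ℕ → Om → Prop
  tc : L → ℕ → Om → Option φ

/-- index of a coin -/
abbrev CI (k : ℕ) {ι : Type} (Ξ : Type) (i : ι) (L : Type) : Type := L × ({j : ι // j ≠ i} → Ξ × V k)

/-- the coins of a vertex -/
def CN (k N : ℕ) {ι : Type} (Ξ : Type) (i : ι) (L : Type) (Rz : ℕ) (φ : Type) : Type :=
  CI k Ξ i L → Fin (N + 1) → Nz.Ns Rz φ

noncomputable instance {i : ι} [Fintype ι] [Fintype L] [Fintype Ξ] [Fintype φ] : Fintype (CN k N Ξ i L Rz φ) := by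
  classical
  unfold CN
  infer_instance

instance {i : ι} : Nonempty (CN k N Ξ i L Rz φ) := ⟨fun _ _ => (0, none)⟩

section defs

variable [Fintype ι] [DecidableEq ι] [Nonempty Ξ]

/-- the known vertices of `J`, the others replaced by a fixed point -/
noncomputable def msk {i : ι} (J : Finset {j : ι // j ≠ i}) (x : {j : ι // j ≠ i} → Ξ × V k) :
    {j : ι // j ≠ i} → Ξ × V k := fun j => if j ∈ J then x j else (Classical.arbitrary Ξ, 0)

theorem msk_eq {i : ι} {J : Finset {j : ι // j ≠ i}} {x y : {j : ι // j ≠ i} → Ξ × V k} (h : ∀ j ∈ J, x j = y j) :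
    msk J x = msk J y := by
  funext j
  unfold msk
  by_cases hj : j ∈ J
  · rw [if_pos hj, if_pos hj, h j hj]
  · rw [if_neg hj, if_neg hj]

/-- the noise of the label `l` -/
noncomputable def nuM (i : ι) (S : L → Finset {j : ι // j ≠ i}) (l : L) (w : Sq k N ι Θ (Ξ × CN k N Ξ i L Rz φ)) :
    Fin (N + 1) → Nz.Ns Rz φ := (vx i w).1.2 (l, msk (S l) (ot i (pic w)))

/-- the letters of the label `l` published up to the time `t` -/
noncomputable def LM (Rz J n0 : ℕ) (i : ι) (S : L → Finset {j : ι // j ≠ i}) (sc : Scr (Sq k N ι Θ Ξ) L φ) (l : L)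
    (t : ℕ) (w : Sq k N ι Θ (Ξ × CN k N Ξ i L Rz φ)) : Fin (N + 1) → Option φ :=
  Nz.lab Rz J n0 (fun s => sc.oc l s (pic w)) (fun s => sc.tc l s (pic w)) t (nuM i S l w)

/-- the kernel of the letters -/
noncomputable def kv [Fintype φ] (Rz J n0 : ℕ) (sc : Scr (Sq k N ι Θ Ξ) L φ) (l : L) (t : ℕ) (v : Sq k N ι Θ Ξ)
    (F : Fin (N + 1) → Option φ) : ℝ :=
  Nz.kr Rz J n0 (fun s => sc.oc l s v) (fun s => sc.tc l s v) t F

end defs

/-- hypotheses on the scripts -/
structure ScrH [Fintype ι] [DecidableEq ι] (i : ι) (h : ℕ) (S : L → Finset {j : ι // j ≠ i})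
    (sc : Scr (Sq k N ι Θ Ξ) L φ) : Prop where
  oc : ∀ l t v w, KJ i h (S l) (ex N t) v = KJ i h (S l) (ex N t) w → (sc.oc l t v ↔ sc.oc l t w)
  tc : ∀ l t, Fac (AJ i h (S l) (ex N t)) (sc.tc l t)

section facts

variable [Fintype ι] [DecidableEq ι] {i : ι} {h : ℕ} {S : L → Finset {j : ι // j ≠ i}}
  {sc : Scr (Sq k N ι Θ Ξ) L φ} {J n0 : ℕ}

/-- finer classes -/
theorem KJ_le {P : Type} {Jf : Finset {j : ι // j ≠ i}} {s t : ℕ} (hs : s ≤ t) {v w : Sq k N ι Θ P}
    (hv : KJ i h Jf (ex N t) v = KJ i h Jf (ex N t) w) : KJ i h Jf (ex N s) v = KJ i h Jf (ex N s) w := by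
  rw [KJ_eq] at hv ⊢
  refine ⟨hv.1, ?_⟩
  induction t, hs using Nat.le_induction with
  | base => exact hv.2
  | succ t _ ih => exact ih ⟨hv.1, filt_Qn i h t v w hv.2⟩

theorem AJ_le {P : Type} {Jf : Finset {j : ι // j ≠ i}} {s t : ℕ} (hs : s ≤ t) {v w : Sq k N ι Θ P}
    (hv : AJ i h Jf (ex N t) v = AJ i h Jf (ex N t) w) : AJ i h Jf (ex N s) v = AJ i h Jf (ex N s) w := by
  rw [AJ_eq] at hv ⊢
  refine ⟨hv.1, hv.2.1, ?_⟩
  induction t, hs using Nat.le_induction with
  | base => exact hv.2.2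
  | succ t _ ih => exact ih ⟨hv.1, hv.2.1, filt_Qn i h t v w hv.2.2⟩

theorem AJ_filt {P : Type} (Jf : Finset {j : ι // j ≠ i}) :
    Filt (fun t => AJ (k := k) (N := N) (Θ := Θ) (P := P) i h Jf (ex N t)) :=
  fun t _ _ hv => AJ_le (Nat.le_succ t) hv

theorem AJ_KJ {P : Type} {Jf : Finset {j : ι // j ≠ i}} {e : ℕ} {v w : Sq k N ι Θ P}
    (hv : AJ i h Jf e v = AJ i h Jf e w) : KJ i h Jf e v = KJ i h Jf e w := by
  rw [AJ_eq] at hv
  rw [KJ_eq]
  exact hv.2

/-- forgetting the coins -/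
theorem AJ_pic {Ci : Type} {Jf : Finset {j : ι // j ≠ i}} {e : ℕ} {v w : Sq k N ι Θ (Ξ × Ci)}
    (hv : AJ i h Jf e v = AJ i h Jf e w) : AJ i h Jf e (pic v) = AJ i h Jf e (pic w) := by
  rw [AJ_eq] at hv ⊢
  obtain ⟨h1, h2, h3⟩ := hv
  refine ⟨?_, fun a ha => ?_, h3⟩
  · rw [vx_pic, vx_pic, h1]
  · rw [vx_pic, vx_pic, h2 a ha]

variable [Nonempty Ξ]

/-- locality -/
theorem LM_congr (hS : ScrH i h S sc) {l : L} {t : ℕ} {v w : Sq k N ι Θ (Ξ × CN k N Ξ i L Rz φ)}
    (hv : AJ i h (S l) (ex N t) (pic v) = AJ i h (S l) (ex N t) (pic w)) (hn : nuM i S l v = nuM i S l w) :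
    LM Rz J n0 i S sc l t v = LM Rz J n0 i S sc l t w := by
  unfold LM
  rw [hn]
  funext s
  unfold Nz.lab
  by_cases hs : s.val ≤ t
  · rw [if_pos hs, if_pos hs]
    refine Nz.pub_congr (t := t) (fun r hr => ?_) (fun r hr => ?_) (fun _ _ => rfl) s.val hs
    · exact hS.oc l r _ _ (AJ_KJ (AJ_le hr hv))
    · exact hS.tc l r _ _ (AJ_le hr hv)
  · rw [if_neg hs, if_neg hs]

/-- the noise is known -/
theorem nuM_fac (l : L) (e : ℕ) : Fac (AJ (k := k) (N := N) (Θ := Θ) (P := Ξ × CN k N Ξ i L Rz φ) i h (S l) e)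
    (nuM i S l) := by
  intro v w hv
  rw [AJ_eq] at hv
  obtain ⟨h1, h2, _⟩ := hv
  have h3 : msk (S l) (ot i (pic v)) = msk (S l) (ot i (pic w)) := msk_eq fun j hj => by
    show vx j.1 (pic v) = vx j.1 (pic w)
    rw [vx_pic, vx_pic, h2 j hj]
  unfold nuM
  rw [h1, h3]

/-- **the letters are functions of the hidden vertex, `x_(S l)` and the node** -/
theorem LM_fac (hS : ScrH i h S sc) (l : L) (t : ℕ) :
    Fac (AJ (k := k) (N := N) (Θ := Θ) (P := Ξ × CN k N Ξ i L Rz φ) i h (S l) (ex N t))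
      (LM Rz J n0 i S sc l t) :=
  fun v w hv => LM_congr hS (AJ_pic hv) (nuM_fac l (ex N t) v w hv)

/-- the letters are cumulative -/
theorem LM_cum (l : L) (t : ℕ) (w : Sq k N ι Θ (Ξ × CN k N Ξ i L Rz φ)) :
    LM Rz J n0 i S sc l t w = fun s => if s.val ≤ t then LM Rz J n0 i S sc l (t + 1) w s else none := by
  unfold LM
  funext s
  unfold Nz.lab
  by_cases hs : s.val ≤ t
  · rw [if_pos hs, if_pos hs, if_pos (by omega)]
  · rw [if_neg hs, if_neg hs]

theorem LM_succ (l : L) (t : ℕ) : Fac (LM Rz J n0 i S sc l (t + 1)) (LM (Θ := Θ) Rz J n0 i S sc l t) := by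
  intro v w hv
  rw [LM_cum l t v, LM_cum l t w, hv]

/-- the letters see of the coins the coins of the hidden vertex only -/
theorem LM_coin {l : L} {t : ℕ} {v w : Sq k N ι Θ (Ξ × CN k N Ξ i L Rz φ)} (hp : pic v = pic w)
    (hc : coin v i = coin w i) : LM Rz J n0 i S sc l t v = LM Rz J n0 i S sc l t w := by
  have hc' : (vx i v).1.2 = (vx i w).1.2 := hc
  unfold LM nuM
  rw [hp, hc']

section law

variable [Fintype Θ] [Nonempty Θ] [Fintype Ξ] [Fintype L] [DecidableEq L] [Fintype φ]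

/-- **law of the raw point and of the noises**: the noises are uniform and independent -/
theorem nu_law (S : L → Finset {j : ι // j ≠ i}) (Ψ : Sq k N ι Θ Ξ → (L → Fin (N + 1) → Nz.Ns Rz φ) → ℝ) :
    Pm.E (fun w : Sq k N ι Θ (Ξ × CN k N Ξ i L Rz φ) => Ψ (pic w) (fun l => nuM i S l w)) =
      Pm.E (fun v => (FP.unif (L → Fin (N + 1) → Nz.Ns Rz φ)).E (Ψ v)) := by
  classical
  have h1 := (pulC_pic (k := k) (N := N) (ι := ι) (Θ := Θ) (Ξ := Ξ) (Ci := CN k N Ξ i L Rz φ)).E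
    (fun v c => Ψ v (fun l => c i (l, msk (S l) (ot i v))))
  refine Eq.trans h1 ?_
  refine FP.E_congr _ fun v _ => ?_
  have h2 := eval_E (σ := CN k N Ξ i L Rz φ) i (fun q => Ψ v (fun l => q (l, msk (S l) (ot i v))))
  refine Eq.trans h2 ?_
  have h3 := unif_inj (I := CI k Ξ i L) (σ := Fin (N + 1) → Nz.Ns Rz φ)
    (g := fun l : L => (l, msk (S l) (ot i v))) (fun a b hab => (Prod.mk.inj hab).1) (Ψ v)
  refine Eq.trans ?_ h3
  exact unif_eqv (O := CN k N Ξ i L Rz φ) (O1 := CI k Ξ i L → Fin (N + 1) → Nz.Ns Rz φ) (Equiv.refl _)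
    (fun q => Ψ v (fun l => q (l, msk (S l) (ot i v))))

/-- **law of the raw point and of the letters of all labels** -/
theorem coin_law (J n0 : ℕ) (S : L → Finset {j : ι // j ≠ i}) (sc : Scr (Sq k N ι Θ Ξ) L φ) (t : ℕ)
    (Ψ : Sq k N ι Θ Ξ → (L → Fin (N + 1) → Option φ) → ℝ) :
    Pm.E (fun w : Sq k N ι Θ (Ξ × CN k N Ξ i L Rz φ) => Ψ (pic w) (fun l => LM Rz J n0 i S sc l t w)) =
      Pm.E (fun v => ∑ F : L → Fin (N + 1) → Option φ, (∏ l, kv Rz J n0 sc l t v (F l)) * Ψ v F) := by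
  classical
  have h1 := nu_law (k := k) (N := N) (ι := ι) (Θ := Θ) (Ξ := Ξ) (i := i) (φ := φ) (Rz := Rz) S
    (fun v x => Ψ v (fun l => Nz.lab Rz J n0 (fun s => sc.oc l s v) (fun s => sc.tc l s v) t (x l)))
  refine Eq.trans h1 ?_
  refine FP.E_congr _ fun v _ => ?_
  exact unif_prod_law (fun l y => Nz.lab Rz J n0 (fun s => sc.oc l s v) (fun s => sc.tc l s v) t y) (Ψ v)

/-- one label -/
theorem coin_law1 (J n0 : ℕ) (S : L → Finset {j : ι // j ≠ i}) (sc : Scr (Sq k N ι Θ Ξ) L φ) (l : L) (t : ℕ)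
    (Ψ : Sq k N ι Θ Ξ → (Fin (N + 1) → Option φ) → ℝ) :
    Pm.E (fun w : Sq k N ι Θ (Ξ × CN k N Ξ i L Rz φ) => Ψ (pic w) (LM Rz J n0 i S sc l t w)) =
      Pm.E (fun v => ∑ F : Fin (N + 1) → Option φ, kv Rz J n0 sc l t v F * Ψ v F) := by
  classical
  have h1 := nu_law (k := k) (N := N) (ι := ι) (Θ := Θ) (Ξ := Ξ) (i := i) (φ := φ) (Rz := Rz) S
    (fun v x => Ψ v (Nz.lab Rz J n0 (fun s => sc.oc l s v) (fun s => sc.tc l s v) t (x l)))
  refine Eq.trans h1 ?_
  refine FP.E_congr _ fun v _ => ?_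
  refine Eq.trans (eval_E l (fun y => Ψ v (Nz.lab Rz J n0 (fun s => sc.oc l s v) (fun s => sc.tc l s v) t y))) ?_
  exact E_lab' _ _ _

end law

end facts

/-! ## the coins of the known vertices can be forgotten -/

section oth

variable [Fintype ι] [DecidableEq ι] {Ci : Type}

/-- raw point and hidden coin, coins of the others -/
def coinEquivH (i : ι) : Sq k N ι Θ (Ξ × Ci) ≃ (Sq k N ι Θ Ξ × Ci) × ({a : ι // a ≠ i} → Ci) :=
  coinEquiv.trans (((Equiv.refl _).prodCongr (Equiv.funSplitAt i Ci)).trans (Equiv.prodAssoc _ _ _).symm)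

variable [Fintype Θ] [Nonempty Θ] [Fintype Ξ] [Nonempty Ξ] [Fintype Ci] [Nonempty Ci]

theorem pulC_oth (i : ι) :
    PulC (Pm (k := k) (N := N) (ι := ι) (Θ := Θ) (P := Ξ × Ci)) (FP.unif (Sq k N ι Θ Ξ × Ci))
      (fun w => (pic w, coin w i)) (FP.unif ({a : ι // a ≠ i} → Ci)) (fun w => fun a => coin w a.1) :=
  pulC_unif (coinEquivH (k := k) (N := N) (Θ := Θ) (Ξ := Ξ) i)

/-- **the coins of the known vertices can be forgotten** -/
theorem ce_Kn_drop (i : ι) (e : ℕ) {ν : Type*} {Y : Sq k N ι Θ (Ξ × Ci) → ν}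
    (hY : Fac (fun w => (pic w, coin w i)) Y) {f : Sq k N ι Θ (Ξ × Ci) → ℝ}
    (hf : Fac (fun w => (pic w, coin w i)) f) (w : Sq k N ι Θ (Ξ × Ci)) :
    Pm.ce (fun v => (Kn i e v, Y v)) f w = Pm.ce (fun v => (Kn i e (pic v), Y v)) f w := by
  have hX : Fac (fun w : Sq k N ι Θ (Ξ × Ci) => (pic w, coin w i)) (fun v => (Kn i e (pic v), Y v)) := by
    intro v u hv
    have h1 : pic v = pic u := congrArg Prod.fst hv
    show (Kn i e (pic v), Y v) = (Kn i e (pic u), Y u)
    rw [h1, hY v u hv]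
  have h1 := (pulC_oth (k := k) (N := N) (Θ := Θ) (Ξ := Ξ) (Ci := Ci) i).ce_drop hX hf (fun c => c) (w := w) (Pm_ne w)
  refine Eq.trans ?_ h1
  refine Pm.ce_congr_map ?_ ?_ _ w
  · intro v u hv
    have h2 : Kn i e v = Kn i e u := congrArg Prod.fst hv
    have h3 : Y v = Y u := congrArg Prod.snd hv
    have h4 := Kn_to_pic i e v u h2
    have h5 : Kn i e (pic v) = Kn i e (pic u) := congrArg Prod.fst h4
    have h6 : (fun j : {j : ι // j ≠ i} => coin v j.1) = fun j => coin u j.1 := congrArg Prod.snd h4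
    show ((Kn i e (pic v), Y v), fun a : {a : ι // a ≠ i} => coin v a.1) = ((Kn i e (pic u), Y u), fun a => coin u a.1)
    rw [h3, h5, h6]
  · intro v u hv
    have h2 : Kn i e (pic v) = Kn i e (pic u) := congrArg (fun q => q.1.1) hv
    have h3 : Y v = Y u := congrArg (fun q => q.1.2) hv
    have h4 : (fun j : {j : ι // j ≠ i} => coin v j.1) = fun j => coin u j.1 := congrArg (fun q => q.2) hv
    have h5 := Kn_of_pic i e v u (Prod.ext h2 h4)
    show (Kn i e v, Y v) = (Kn i e u, Y u)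
    rw [h3, h5]

end oth

end Pool.Agent.GM.ScrN
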