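import Pool.Agent.M3.Model2
import Pool.Agent.M3.S1Mod

/-!
# GM/Sq : the model for every finite set `ι` of vertices, with an offset `s` (port of M3/Model, Model1, Model2)

`Sq k N ι Θ P` = public randomness `Θ`, vertices `x i = (p i, v i) : P × V k`, noise `Fin (2^N)`, uniform law `Pm`.
The path of the faces is `Yn s e` = node of the centre `ctr s ω = ∑ i, x i + s`; fixing some vertices of a model gives a
model with fewer vertices and another offset (`GM/Fix`).
All functions of the windows, cells and nodes (`av`, `dl`, `nd`, `ex`, `flr`, `G`, `bit`, `dg`, `SC`, `cel`) are those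
of `Pool.Agent.M3.Mod`, `Pool.Agent.M3.Bin`.
-/

set_option autoImplicit false
set_option linter.unusedSectionVars false

namespace Pool.Agent.GM

open Finset Pool.Agent.PWZ Pool.Agent.M3 Pool.Agent.M3.Bin
open Pool.Agent.M3.Mod (ex nd av dl pnd SC cel ex_zero ex_succ ex_top pnd_nd nd_zero pos_add dg_val av_eq_ip av_mul_eq_ip
  av_zero av_const av_add av_sub av_smul av_sum av_mono abs_av_le av_congr av_succ av_step av_round ce_unif_image CL)

noncomputable section

/-- sample space -/
abbrev Sq (k N : ℕ) (ι Θ P : Type) := Θ × (ι → P × V k) × Fin (2 ^ N)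

variable {k N : ℕ} {ι Θ P : Type}

/-- public randomness -/
def th (ω : Sq k N ι Θ P) : Θ := ω.1

/-- all vertices -/
def vs (ω : Sq k N ι Θ P) : ι → P × V k := ω.2.1

/-- vertex `i` (with its private randomness) -/
def vx (i : ι) (ω : Sq k N ι Θ P) : P × V k := ω.2.1 i

theorem vs_apply (ω : Sq k N ι Θ P) (i : ι) : vs ω i = vx i ω := rfl

/-- noise -/
def nz (ω : Sq k N ι Θ P) : ℕ := ω.2.2.val

/-- all vertices but `i` (value `vx j ω` at `j ≠ i`) -/
def ot (i : ι) (ω : Sq k N ι Θ P) : {j : ι // j ≠ i} → P × V k := fun j => vx j.1 ω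

variable [Fintype ι] [DecidableEq ι] (s : V k)

/-- the centre: sum of all vertices and of the offset -/
def ctr (ω : Sq k N ι Θ P) : V k := ∑ i, (vx i ω).2 + s

/-- sum of the vertices but `i` and of the offset -/
def co (i : ι) (ω : Sq k N ι Θ P) : V k := ∑ j ∈ univ.erase i, (vx j ω).2 + s

/-- THE PATH of the faces: `y_e` and the digits above (window `J_e = y_e - [0, 2^e)`) -/
def Yn (e : ℕ) (ω : Sq k N ι Θ P) : V k × ℕ := nd e (ctr s ω) (nz ω)

omit [Fintype ι] [DecidableEq ι] in
/-- the path of the view `i`: `z_e = v i + w % 2^e` and the digits above -/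
def Zn (i : ι) (e : ℕ) (ω : Sq k N ι Θ P) : V k × ℕ := nd e (vx i ω).2 (nz ω)

/-- rounded node of the faces -/
def Gm (h e : ℕ) (ω : Sq k N ι Θ P) : V k × ℕ := G h e (ctr s ω) (nz ω)

/-- small cell (left end) of the vertex `j`, scale `e - (h+3)` -/
def sc (h e : ℕ) (j : ι) (ω : Sq k N ι Θ P) : V k := flr (e - (h + 3)) (vx j ω).2

/-- PUBLIC NODE of the view `i`: public randomness, exact path of `z`, small cells of the other vertices -/
def Qn (i : ι) (h e : ℕ) (ω : Sq k N ι Θ P) : Θ × (V k × ℕ) × ({j : ι // j ≠ i} → V k) :=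
  (th ω, Zn i e ω, fun j => sc h e j.1 ω)

/-- the digit revealed between the exponents `e+1` and `e` -/
def Dg (e : ℕ) (ω : Sq k N ι Θ P) : ℝ := dg e (nz ω)

/-- mean over the current window of a function which may depend on the sample point -/
def mn (e : ℕ) (f : Sq k N ι Θ P → V k → ℝ) (ω : Sq k N ι Θ P) : ℝ := av e (Yn s e ω).1 (f ω)

/-- mean over the rounded window -/
def mr (h e : ℕ) (f : Sq k N ι Θ P → V k → ℝ) (ω : Sq k N ι Θ P) : ℝ := av e (Gm s h e ω).1 (f ω)

section law

variable [Fintype Θ] [Nonempty Θ] [Fintype P] [Nonempty P]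

/-- the law -/
def Pm : FP (Sq k N ι Θ P) := FP.unif _

/-- coordinates of the view `i` at the exponent `e ≤ N`: public randomness, private randomness of `i`, `z_e`,
digits above, `w % 2^e` (so `v i = z_e - w % 2^e`), the other vertices -/
def viewEquiv (i : ι) (e : ℕ) (he : e ≤ N) : Sq k N ι Θ P ≃
    (Θ × P × V k × Fin (2 ^ (N - e)) × ({j : ι // j ≠ i} → P × V k)) × Fin (2 ^ e) where
  toFun ω := ((ω.1, (ω.2.1 i).1, pos e (ω.2.1 i).2 ω.2.2.val,
    ⟨ω.2.2.val / 2 ^ e, by
      rw [Nat.div_lt_iff_lt_mul (by positivity), ← pow_add, Nat.sub_add_cancel he]; exact ω.2.2.isLt⟩,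
    fun j => ω.2.1 j.1), ⟨ω.2.2.val % 2 ^ e, Nat.mod_lt _ (by positivity)⟩)
  invFun q := (q.1.1, (fun j => if h : j = i then (q.1.2.1, q.1.2.2.1 - ((q.2.val : ℕ) : V k)) else q.1.2.2.2.2 ⟨j, h⟩),
    ⟨q.1.2.2.2.1.val * 2 ^ e + q.2.val, by
      have h1 := q.1.2.2.2.1.isLt
      have h2 := q.2.isLt
      have h3 : 2 ^ (N - e) * 2 ^ e = 2 ^ N := by rw [← pow_add, Nat.sub_add_cancel he]
      calc q.1.2.2.2.1.val * 2 ^ e + q.2.val < q.1.2.2.2.1.val * 2 ^ e + 2 ^ e := by omega
        _ = (q.1.2.2.2.1.val + 1) * 2 ^ e := by ring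
        _ ≤ 2 ^ (N - e) * 2 ^ e := Nat.mul_le_mul_right _ h1
        _ = 2 ^ N := h3⟩)
  left_inv ω := by
    obtain ⟨θ, x, w⟩ := ω
    refine Prod.ext rfl (Prod.ext ?_ ?_)
    · funext j
      by_cases h : j = i
      · subst h
        simp only [dif_pos, Bin.pos, add_sub_cancel_right]
      · simp only [dif_neg h]
    · refine Fin.ext ?_
      simp only
      exact Nat.div_add_mod' _ _
  right_inv q := by
    obtain ⟨⟨θ, p, z, hi, x⟩, lo⟩ := q
    have hlo := lo.isLt
    have h1 : (hi.val * 2 ^ e + lo.val) % 2 ^ e = lo.val := by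
      rw [Nat.mul_comm, Nat.mul_add_mod, Nat.mod_eq_of_lt hlo]
    have h2 : (hi.val * 2 ^ e + lo.val) / 2 ^ e = hi.val := by
      rw [Nat.mul_comm, Nat.mul_add_div (by positivity), Nat.div_eq_of_lt hlo, Nat.add_zero]
    refine Prod.ext (Prod.ext rfl (Prod.ext ?_ (Prod.ext ?_ (Prod.ext ?_ ?_)))) ?_
    · simp
    · simp [Bin.pos, h1]
    · exact Fin.ext h2
    · funext j
      simp [j.2]
    · exact Fin.ext h1

/-- coordinates of the free law of the face `i`: the centre instead of the vertex `i` -/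
def faceEquiv (i : ι) : Sq k N ι Θ P ≃ (Θ × P × ({j : ι // j ≠ i} → P × V k)) × (V k × Fin (2 ^ N)) where
  toFun ω := ((ω.1, (ω.2.1 i).1, fun j => ω.2.1 j.1), (∑ j, (ω.2.1 j).2 + s, ω.2.2))
  invFun q := (q.1.1, (fun j => if h : j = i then (q.1.2.1, q.2.1 - s - ∑ j : {j : ι // j ≠ i}, (q.1.2.2 j).2)
    else q.1.2.2 ⟨j, h⟩), q.2.2)
  left_inv ω := by
    obtain ⟨θ, x, w⟩ := ω
    refine Prod.ext rfl (Prod.ext ?_ rfl)
    funext j
    by_cases h : j = i
    · subst h
      have h1 : ∑ l : {l : ι // l ≠ j}, (x l.1).2 = ∑ l ∈ univ.erase j, (x l).2 := by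
        rw [← Finset.sum_subtype (univ.erase j) (by simp) (fun l => (x l).2)]
      have h2 := Finset.add_sum_erase univ (fun l => (x l).2) (mem_univ j)
      simp only [dif_pos]
      refine Prod.ext rfl ?_
      simp only
      rw [h1, ← h2]
      abel
    · simp only [dif_neg h]
  right_inv q := by
    obtain ⟨⟨θ, p, x⟩, z, w⟩ := q
    refine Prod.ext (Prod.ext rfl (Prod.ext ?_ ?_)) (Prod.ext ?_ rfl)
    · simp
    · funext j
      simp [j.2]
    · simp only
      rw [← Finset.add_sum_erase univ _ (mem_univ i)]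
      simp only [dif_pos]
      have h1 : ∑ l ∈ univ.erase i, (if h : l = i then (p, z - s - ∑ j : {j : ι // j ≠ i}, (x j).2)
          else x ⟨l, h⟩).2 = ∑ j : {j : ι // j ≠ i}, (x j).2 := by
        rw [Finset.sum_subtype (univ.erase i) (p := fun l => l ≠ i) (by simp)]
        refine Finset.sum_congr rfl (fun j _ => ?_)
        simp [j.2]
      rw [h1]
      abel

end law

end

end Pool.Agent.GM
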