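import Pool.Agent.GM.Sq

/-!
# GM/Sq1 : paths, filtrations, windows (port of M3/Model1), helper11
-/

set_option autoImplicit false
set_option linter.unusedSectionVars false

namespace Pool.Agent.GM

open Finset Pool.Agent.PWZ Pool.Agent.M3 Pool.Agent.M3.Bin
open Pool.Agent.M3.Mod (ex nd av dl pnd SC cel ex_zero ex_succ ex_top pnd_nd nd_zero pos_add dg_val av_eq_ip av_mul_eq_ip
  av_zero av_const av_add av_sub av_smul av_sum av_mono abs_av_le av_congr av_succ av_step av_round ce_unif_image CL)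

variable {k N : ℕ} {ι Θ P : Type} [Fintype ι] [DecidableEq ι] (s : V k)

/-! ## paths -/

theorem fac_Yn_succ (e : ℕ) : Fac (Yn (Θ := Θ) (P := P) (k := k) (N := N) (ι := ι) s e) (Yn s (e + 1)) := by
  intro v w h
  unfold Yn at h ⊢
  rw [← pnd_nd, ← pnd_nd, h]

theorem fac_Zn_succ (i : ι) (e : ℕ) : Fac (Zn (Θ := Θ) (P := P) (k := k) (N := N) i e) (Zn i (e + 1)) := by
  intro v w h
  unfold Zn at h ⊢
  rw [← pnd_nd, ← pnd_nd, h]

theorem fac_Gm_succ (h e : ℕ) : Fac (Gm (Θ := Θ) (P := P) (k := k) (N := N) (ι := ι) s h e) (Gm s h (e + 1)) := by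
  intro v w hv
  unfold Gm at hv ⊢
  rw [← par_G, ← par_G, hv]

theorem fac_Yn_Gm (h e : ℕ) : Fac (Yn (Θ := Θ) (P := P) (k := k) (N := N) (ι := ι) s e) (Gm s h e) := by
  intro v w hv
  unfold Yn nd at hv
  unfold Gm G gam
  rw [Prod.mk.injEq] at hv ⊢
  exact ⟨by rw [hv.1], hv.2⟩

theorem fac_sc_succ (h e : ℕ) (j : ι) : Fac (sc (Θ := Θ) (P := P) (k := k) (N := N) h e j) (sc h (e + 1) j) := by
  intro v w hv
  exact flr_mono_eq (by omega) hv

theorem fac_Qn_succ (i : ι) (h e : ℕ) :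
    Fac (Qn (Θ := Θ) (P := P) (k := k) (N := N) i h e) (Qn i h (e + 1)) := by
  intro v w hv
  unfold Qn at hv ⊢
  simp only [Prod.mk.injEq] at hv ⊢
  exact ⟨hv.1, fac_Zn_succ i e v w hv.2.1, funext fun j => fac_sc_succ h e j.1 v w (congrFun hv.2.2 j)⟩

theorem fac_of_succ {κ : ℕ → Type*} {X : ∀ e, Sq k N ι Θ P → κ e} (h : ∀ e, Fac (X e) (X (e + 1))) (t : ℕ) :
    Fac (X (ex N (t + 1))) (X (ex N t)) := by
  rcases Nat.lt_or_ge t N with ht | ht
  · rw [ex_succ ht]; exact h _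
  · rw [ex_top ht, ex_top (ht.trans (Nat.le_succ t))]; exact Fac.refl _

theorem filt_Yn : Filt (fun t (ω : Sq k N ι Θ P) => Yn s (ex N t) ω) := fun t => fac_of_succ (X := fun e => Yn s e) (fac_Yn_succ s) t

theorem filt_Zn (i : ι) : Filt (fun t (ω : Sq k N ι Θ P) => Zn i (ex N t) ω) :=
  fun t => fac_of_succ (X := fun e => Zn i e) (fac_Zn_succ i) t

theorem filt_Gm (h : ℕ) : Filt (fun t (ω : Sq k N ι Θ P) => Gm s h (ex N t) ω) :=
  fun t => fac_of_succ (X := fun e => Gm s h e) (fac_Gm_succ s h) t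

theorem filt_Qn (i : ι) (h : ℕ) : Filt (fun t (ω : Sq k N ι Θ P) => Qn i h (ex N t) ω) :=
  fun t => fac_of_succ (X := fun e => Qn i h e) (fac_Qn_succ i h) t

/-! ## relations between the paths -/

theorem ctr_eq (i : ι) (ω : Sq k N ι Θ P) : ctr s ω = (vx i ω).2 + co s i ω := by
  unfold ctr co
  rw [← add_assoc, Finset.add_sum_erase univ (fun j => (vx j ω).2) (mem_univ i)]

/-- the face path from the view path and the other vertices -/
theorem Yn_eq (i : ι) (e : ℕ) (ω : Sq k N ι Θ P) :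
    Yn s e ω = ((Zn i e ω).1 + co s i ω, (Zn i e ω).2) := by
  unfold Yn Zn nd
  rw [ctr_eq s i ω, pos_add]

theorem co_fac (i : ι) : Fac (ot (Θ := Θ) (P := P) (k := k) (N := N) i) (co s i) := by
  intro v w h
  unfold co
  have h1 : ∀ j ∈ univ.erase i, (vx j v).2 = (vx j w).2 := by
    intro j hj
    have := congrFun h ⟨j, Finset.ne_of_mem_erase hj⟩
    unfold ot at this
    rw [this]
  rw [Finset.sum_congr rfl h1]

theorem fac_Yn (i : ι) (e : ℕ) :
    Fac (fun ω : Sq k N ι Θ P => (Zn i e ω, ot i ω)) (Yn s e) := by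
  intro v w h
  simp only [Prod.mk.injEq] at h
  rw [Yn_eq s i, Yn_eq s i, h.1, co_fac s i v w h.2]

theorem fac_Zn (i : ι) (e : ℕ) :
    Fac (fun ω : Sq k N ι Θ P => (Yn s e ω, ot i ω)) (Zn i e) := by
  intro v w h
  simp only [Prod.mk.injEq] at h
  have h1 := h.1
  rw [Yn_eq s i, Yn_eq s i, co_fac s i v w h.2, Prod.mk.injEq] at h1
  exact Prod.ext (add_right_cancel h1.1) h1.2

/-- the low part of the noise is known from the hidden vertex and the exact path -/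
theorem nz_mod (i : ι) {e : ℕ} (he : e ≤ k) (ω : Sq k N ι Θ P) :
    nz ω % 2 ^ e = ((Zn i e ω).1 - (vx i ω).2).val := by
  unfold Zn nd Bin.pos
  simp only [add_sub_cancel_left]
  rw [ZMod.val_natCast]
  exact (Nat.mod_eq_of_lt ((Nat.mod_lt _ (Nat.two_pow_pos e)).trans_le
    (Nat.pow_le_pow_right (by norm_num) he))).symm

theorem nz_eq (i : ι) {e : ℕ} (he : e ≤ k) (ω : Sq k N ι Θ P) :
    nz ω = (Zn i e ω).2 * 2 ^ e + ((Zn i e ω).1 - (vx i ω).2).val := by
  rw [← nz_mod i he ω]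
  exact (Nat.div_add_mod' _ _).symm

/-- the noise is a function of the hidden vertex and the exact path of any exponent -/
theorem fac_nz (i : ι) {e : ℕ} (he : e ≤ k) :
    Fac (fun ω : Sq k N ι Θ P => (vx i ω, Zn i e ω)) nz := by
  intro v w h
  simp only [Prod.mk.injEq] at h
  rw [nz_eq i he v, nz_eq i he w, h.1, h.2]

/-- every digit is a function of the hidden vertex and the exact path of any exponent -/
theorem fac_Dg (i : ι) {e : ℕ} (he : e ≤ k) (e' : ℕ) :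
    Fac (fun ω : Sq k N ι Θ P => (vx i ω, Zn i e ω)) (Dg e') := by
  intro v w h
  unfold Dg
  rw [fac_nz i he v w h]

theorem Dg_val (e : ℕ) (ω : Sq k N ι Θ P) : Dg e ω = 1 ∨ Dg e ω = -1 := dg_val _ _

/-- the new digit is known at the next node -/
theorem fac_Dg_Yn (e : ℕ) : Fac (Yn (Θ := Θ) (P := P) (k := k) (N := N) (ι := ι) s e) (Dg e) := by
  intro v w h
  unfold Yn nd at h
  rw [Prod.mk.injEq] at h
  unfold Dg dg bit
  rw [h.2]

theorem fac_Dg_Zn (i : ι) (e : ℕ) : Fac (Zn (Θ := Θ) (P := P) (k := k) (N := N) i e) (Dg e) := by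
  intro v w h
  unfold Zn nd at h
  rw [Prod.mk.injEq] at h
  unfold Dg dg bit
  rw [h.2]

/-! ## windows -/

theorem mn_step (e : ℕ) (f : Sq k N ι Θ P → V k → ℝ) (ω : Sq k N ι Θ P) :
    mn s e f ω = mn s (e + 1) f ω + Dg e ω * dl e (Yn s (e + 1) ω).1 (f ω) := av_step e _ _ _

theorem mn_zero (f : Sq k N ι Θ P → V k → ℝ) (ω : Sq k N ι Θ P) : mn s 0 f ω = f ω (ctr s ω) := by
  unfold mn Yn nd
  rw [pos_zero, av_zero]

theorem mn_mr (h e : ℕ) {f : Sq k N ι Θ P → V k → ℝ} {B : ℝ} {ω : Sq k N ι Θ P} (hB : ∀ d, |f ω d| ≤ B) :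
    |mn s e f ω - mr s h e f ω| ≤ 2 * B * ((2 : ℝ) ^ h)⁻¹ := av_round h e _ hB

end Pool.Agent.GM
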