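import Pool.Agent.GM.Dep
import Pool.Agent.M3.S2.Geo0
import Pool.Agent.M3.S2.Def
import Pool.Agent.M3.FPInfo

/-!
# GM/Sys (helper96): the geometry of `m` vertices (any number), abstract form

`Sys ι Om Ξ Pt V Γ κ` : vertices `x w : ι → Pt`, coins `xi`, rounded nodes `gm t w : Γ` (`t = 0, .., n`), small cells
`cl t`, averaged windows `ρ t g`, exact windows `J t w`.  It generalises `M3/S2/Def.Tri` (three vertices).

* `law` : the node is independent of (coins, all vertices but one), which are uniform;  `lxi` : coins independent of all;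
* `mart` : averaged windows are a martingale along the nodes;  `nest`, `one`;
* `nu`, `cnt` : number of compatible cells, surely / in probability;
* `edge` : a set of vertices has bounded density on its compatible cells given the exact values of the others.

Main consequences: `law_set` (any `I ≠ univ`), `Pr_set`, `indep`, `mart_set`, `side` (instance of `TS.Side` for the vertices
`B` with exact values of the vertices `A`), `freeze` (exact values of some vertices put into the nodes: again a `Sys`).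
The instance in the binary model for every `m` is in `GM/Geo`.
-/

set_option autoImplicit false
set_option linter.unusedSectionVars false

namespace Pool.Agent.GM

open Finset Pool.Agent.PWZ Pool.Agent.M3 Pool.Agent.M3.TS

noncomputable section

/-- the geometry of the vertices `ι` -/
structure Sys (ι Om Ξ Pt V Γ κ : Type) [Fintype ι] [DecidableEq ι] [Fintype Om] [Fintype Ξ] [Fintype Pt]
    [Fintype V] where
  P : FP Om
  /-- coins -/
  xi : Om → Ξ
  /-- the vertices -/
  x : Om → ι → Pt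
  n : ℕ
  gm : ℕ → Om → Γ
  par : ℕ → Γ → Γ
  cl : ℕ → Pt → κ
  ρ : ℕ → Γ → V → ℝ
  J : ℕ → Om → V → ℝ
  near : ℝ
  K : ℝ
  K1 : 1 ≤ K
  ppos : ∀ w, P.p w ≠ 0
  par_gm : ∀ t w, par t (gm (t + 1) w) = gm t w
  wt : ∀ t g, Wt (ρ t g)
  Jwt : ∀ t w, Wt (J t w)
  near0 : 0 ≤ near
  Jnear : ∀ t w, ∀ f h : V → ℝ, (∀ d, |f d| ≤ 1) → (∀ d, |h d| ≤ 1) →
    |iw (J t w) f h - iw (ρ t (gm t w)) f h| ≤ near
  /-- the node is independent of (coins, all vertices but one), which are uniform -/
  law : ∀ t g i (ξ : Ξ) (y : ι → Pt), P.Pr (fun w => xi w = ξ ∧ (∀ j, j ≠ i → x w j = y j) ∧ gm t w = g) =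
    P.Pr (fun w => gm t w = g) / (Fintype.card Ξ * (Fintype.card Pt : ℝ) ^ (Fintype.card ι - 1))
  /-- the coins are independent of everything -/
  lxi : ∀ t g (ξ : Ξ) (y : ι → Pt), P.Pr (fun w => xi w = ξ ∧ x w = y ∧ gm t w = g) =
    P.Pr (fun w => x w = y ∧ gm t w = g) / Fintype.card Ξ
  /-- the averaged windows are a martingale along the nodes -/
  mart : ∀ t g v, P.E (fun w => ind (gm t w = g) * ρ (t + 1) (gm (t + 1) w) v) =
    P.Pr (fun w => gm t w = g) * ρ t g v
  /-- cells are nested -/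
  nest : ∀ t a a', cl (t + 1) a = cl (t + 1) a' → cl t a = cl t a'
  /-- the windows of realised nodes have mass one -/
  one : ∀ t w, ∑ d, ρ t (gm t w) d = 1
  /-- number of compatible cells, surely -/
  nu : ∀ t i w, ∃ s : Finset κ, (s.card : ℝ) ≤ K ∧ ∀ w', (∀ j, j ≠ i → cl t (x w' j) = cl t (x w j)) →
    gm t w' = gm t w → cl t (x w' i) ∈ s
  /-- number of compatible cells, in probability: exact vertices `A`, cell of `j` counted, at least one more vertex -/
  cnt : ∀ t g (A : Finset ι) (y : ι → Pt) (j : ι) (β : κ), j ∉ A → (∃ l, l ≠ j ∧ l ∉ A) →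
    P.Pr (fun w => (∀ i ∈ A, x w i = y i) ∧ gm t w = g ∧
      ∃ w', (∀ i ∈ A, cl t (x w' i) = cl t (y i)) ∧ cl t (x w' j) = β ∧
        (∀ i, i ∉ A → i ≠ j → cl t (x w' i) = cl t (x w i)) ∧ gm t w' = g) ≤
    K * P.Pr (fun w => (∀ i ∈ A, x w i = y i) ∧ gm t w = g ∧ cl t (x w j) = β)
  /-- the vertices of `B` have bounded density on their compatible cells given coins, node and all others -/
  edge : ∀ t g (B : Finset ι) (ξ : Ξ) (y : ι → Pt) (E : (ι → Pt) → Prop) (δ : ℝ), 0 ≤ δ →
    (∀ w', (∀ i, i ∉ B → x w' i = y i) → gm t w' = g →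
      ∑ z : ι → Pt, ind ((∀ i, i ∉ B → z i = y i) ∧ (∀ i ∈ B, cl t (z i) = cl t (x w' i)) ∧ E z) ≤
        δ * ∑ z : ι → Pt, ind ((∀ i, i ∉ B → z i = y i) ∧ ∀ i ∈ B, cl t (z i) = cl t (x w' i))) →
    P.Pr (fun w => xi w = ξ ∧ (∀ i, i ∉ B → x w i = y i) ∧ gm t w = g ∧ E (x w)) ≤
      K * δ * P.Pr (fun w => xi w = ξ ∧ (∀ i, i ∉ B → x w i = y i) ∧ gm t w = g)

namespace Sys

variable {ι Om Ξ Pt V Γ κ : Type} [Fintype ι] [DecidableEq ι] [Fintype Om] [Fintype Ξ] [Fintype Pt]
  [Fintype V] (S : Sys ι Om Ξ Pt V Γ κ)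

/-! ### nodes and cells -/

/-- compatible cells -/
def Rz (t : ℕ) (c : ι → κ) (g : Γ) : Prop := ∃ w, (∀ i, S.cl t (S.x w i) = c i) ∧ S.gm t w = g

theorem gm_step (t : ℕ) {w w' : Om} (h : S.gm (t + 1) w = S.gm (t + 1) w') : S.gm t w = S.gm t w' := by
  rw [← S.par_gm t w, ← S.par_gm t w', h]

theorem gm_le {t j : ℕ} (h : j ≤ t) {w w' : Om} (hw : S.gm t w = S.gm t w') : S.gm j w = S.gm j w' := by
  induction t with
  | zero => have : j = 0 := by omega
            subst this; exact hw
  | succ t ih =>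
    rcases Nat.lt_or_ge t j with h1 | h1
    · have : j = t + 1 := by omega
      subst this; exact hw
    · exact ih h1 (S.gm_step t hw)

theorem anc_gm {t j : ℕ} (h : j ≤ t) (w : Om) : S2.anc S.par t (S.gm t w) j = S.gm j w := by
  induction t with
  | zero => have : j = 0 := by omega
            subst this; rfl
  | succ t ih =>
    rcases Nat.lt_or_ge t j with h1 | h1
    · have : j = t + 1 := by omega
      subst this
      exact S2.anc_self _ _ _
    · rw [S2.anc_succ _ h1, S.par_gm]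
      exact ih h1

theorem cl_le {t j : ℕ} (h : j ≤ t) {a a' : Pt} (ha : S.cl t a = S.cl t a') : S.cl j a = S.cl j a' :=
  S2.nest_le S.nest h ha

/-! ### the law of a set of vertices -/

include S

theorem nonempty_Om : Nonempty Om := by
  obtain ⟨w, _⟩ := S.P.exists_p_ne
  exact ⟨w⟩

theorem nonempty_Xi : Nonempty Ξ := S.nonempty_Om.map S.xi

theorem cXi : (0 : ℝ) < Fintype.card Ξ := by
  have := S.nonempty_Xi
  exact_mod_cast Fintype.card_pos

theorem cPt (i : ι) : (0 : ℝ) < Fintype.card Pt := by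
  have : Nonempty Pt := S.nonempty_Om.map fun w => S.x w i
  exact_mod_cast Fintype.card_pos

theorem law_aux (t : ℕ) (g : Γ) (i0 : ι) (ξ : Ξ) : ∀ (D I : Finset ι) (y : ι → Pt), I ∪ D = univ.erase i0 →
    Disjoint I D → S.P.Pr (fun w => S.xi w = ξ ∧ (∀ j ∈ I, S.x w j = y j) ∧ S.gm t w = g) =
      S.P.Pr (fun w => S.gm t w = g) / (Fintype.card Ξ * (Fintype.card Pt : ℝ) ^ I.card) := by
  intro D
  induction D using Finset.induction_on with
  | empty =>
    intro I y hI _
    rw [Finset.union_empty] at hI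
    subst hI
    rw [Finset.card_erase_of_mem (mem_univ _), Finset.card_univ, ← S.law t g i0 ξ y]
    refine S.P.Pr_congr fun w _ => and_congr_right fun _ => and_congr_left fun _ => forall_congr' fun j => ?_
    simp
  | insert d D hd ih =>
    intro I y hI hdis
    have hdI : d ∉ I := fun h => (Finset.disjoint_left.1 hdis h) (mem_insert_self d D)
    have h1 : ∀ a : Pt, S.P.Pr (fun w => S.x w d = a ∧ S.xi w = ξ ∧ (∀ j ∈ I, S.x w j = y j) ∧ S.gm t w = g) =
        S.P.Pr (fun w => S.gm t w = g) / (Fintype.card Ξ * (Fintype.card Pt : ℝ) ^ (I.card + 1)) := by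
      intro a
      have h2 := ih (insert d I) (Function.update y d a) (by
        rw [← hI]
        ext j
        simp only [mem_union, mem_insert]
        tauto) (by
        rw [Finset.disjoint_insert_left]
        exact ⟨hd, hdis.mono_right (subset_insert d D)⟩)
      rw [card_insert_of_notMem hdI] at h2
      rw [← h2]
      refine S.P.Pr_congr fun w _ => ?_
      constructor
      · rintro ⟨h3, h4, h5, h6⟩
        refine ⟨h4, fun j hj => ?_, h6⟩
        rcases mem_insert.1 hj with rfl | hj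
        · rw [Function.update_self, h3]
        · rw [Function.update_of_ne (fun h : j = d => hdI (by rw [← h]; exact hj)), h5 j hj]
      · rintro ⟨h4, h5, h6⟩
        refine ⟨?_, h4, fun j hj => ?_, h6⟩
        · have := h5 d (mem_insert_self d I)
          rwa [Function.update_self] at this
        · have := h5 j (mem_insert_of_mem hj)
          rwa [Function.update_of_ne (fun h : j = d => hdI (by rw [← h]; exact hj))] at this
    rw [Mod.Pr_sum _ (fun w => S.x w d), Finset.sum_congr rfl fun a _ => h1 a, Finset.sum_const, nsmul_eq_mul,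
      Finset.card_univ, pow_succ]
    have h2 := (S.cPt d).ne'
    have h3 := S.cXi.ne'
    field_simp

/-- **the law of the vertices `I ≠ univ` and the node** -/
theorem law_set {I : Finset ι} (hI : I ≠ univ) (t : ℕ) (g : Γ) (ξ : Ξ) (y : ι → Pt) :
    S.P.Pr (fun w => S.xi w = ξ ∧ (∀ j ∈ I, S.x w j = y j) ∧ S.gm t w = g) =
      S.P.Pr (fun w => S.gm t w = g) / (Fintype.card Ξ * (Fintype.card Pt : ℝ) ^ I.card) := by
  obtain ⟨i0, hi0⟩ : ∃ i0, i0 ∉ I := by
    by_contra hcon
    push Not at hcon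
    exact hI (eq_univ_iff_forall.2 hcon)
  refine S.law_aux t g i0 ξ (univ.erase i0 \ I) I y ?_ disjoint_sdiff
  refine union_sdiff_of_subset fun j hj => ?_
  exact mem_erase.2 ⟨fun h => hi0 (h ▸ hj), mem_univ j⟩

/-- without the coins -/
theorem law_set' {I : Finset ι} (hI : I ≠ univ) (t : ℕ) (g : Γ) (y : ι → Pt) :
    S.P.Pr (fun w => (∀ j ∈ I, S.x w j = y j) ∧ S.gm t w = g) =
      S.P.Pr (fun w => S.gm t w = g) / (Fintype.card Pt : ℝ) ^ I.card := by
  rw [Mod.Pr_sum _ S.xi, Finset.sum_congr rfl fun ξ _ => S.law_set hI t g ξ y, Finset.sum_const, nsmul_eq_mul,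
    Finset.card_univ]
  have h3 := S.cXi.ne'
  field_simp

/-- the vertices of `I ≠ univ` and the coins are uniform -/
theorem Pr_set {I : Finset ι} (hI : I ≠ univ) (ξ : Ξ) (y : ι → Pt) :
    S.P.Pr (fun w => S.xi w = ξ ∧ ∀ j ∈ I, S.x w j = y j) = 1 / (Fintype.card Ξ * (Fintype.card Pt : ℝ) ^ I.card) := by
  classical
  have h1 := fun g => S.law_set hI 0 g ξ y
  have h2 : ∀ s : Om → Prop, S.P.Pr s = ∑ g ∈ univ.image (S.gm 0), S.P.Pr (fun w => s w ∧ S.gm 0 w = g) := by
    intro s
    unfold FP.Pr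
    rw [← S.P.E_sum]
    refine S.P.E_congr fun w _ => ?_
    rw [Finset.sum_eq_single (S.gm 0 w)]
    · by_cases h : s w
      · rw [ind_of h, ind_of ⟨h, rfl⟩]
      · rw [ind_not h, ind_not fun h' => h h'.1]
    · intro o _ ho
      exact ind_not fun h => ho h.2.symm
    · exact fun h => absurd (Finset.mem_image_of_mem _ (mem_univ w)) h
  have h3 := h2 (fun _ => True)
  rw [Mod.Pr_true] at h3
  rw [h2, h3, Finset.sum_div]
  refine Finset.sum_congr rfl fun g _ => ?_
  have h4 : S.P.Pr (fun w => True ∧ S.gm 0 w = g) = S.P.Pr (fun w => S.gm 0 w = g) :=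
    S.P.Pr_congr fun w _ => ⟨fun h => h.2, fun h => ⟨trivial, h⟩⟩
  rw [h4, ← h1 g]
  refine S.P.Pr_congr fun w _ => ?_
  tauto

/-- **the node is independent of the coins and the vertices of `I ≠ univ`** -/
theorem indep {I : Finset ι} (hI : I ≠ univ) (t : ℕ) : S.P.Indep (fun w => (S.xi w, res I (S.x w))) (S.gm t) := by
  refine S.P.indep_of_m fun w v _ _ => ?_
  have h1 : S.P.E (fun u => ind ((fun w => (S.xi w, res I (S.x w))) u = (fun w => (S.xi w, res I (S.x w))) w) *
      ind (S.gm t u = S.gm t v)) =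
      S.P.Pr (fun u => S.xi u = S.xi w ∧ (∀ j ∈ I, S.x u j = S.x w j) ∧ S.gm t u = S.gm t v) := by
    refine S.P.E_congr fun u _ => ?_
    show ind ((S.xi u, res I (S.x u)) = (S.xi w, res I (S.x w))) * ind (S.gm t u = S.gm t v) =
      ind (S.xi u = S.xi w ∧ (∀ j ∈ I, S.x u j = S.x w j) ∧ S.gm t u = S.gm t v)
    rw [← ind_and, Prod.ext_iff, res_eq]
    simp only [and_assoc]
  have h2 : S.P.m (fun w => (S.xi w, res I (S.x w))) w = S.P.Pr (fun u => S.xi u = S.xi w ∧ ∀ j ∈ I, S.x u j = S.x w j) := by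
    refine S.P.Pr_congr fun u _ => ?_
    constructor
    · intro h
      exact ⟨(Prod.ext_iff.1 h).1, res_eq.1 (Prod.ext_iff.1 h).2⟩
    · rintro ⟨h3, h4⟩
      exact Prod.ext h3 (res_eq.2 h4)
  rw [h1, S.law_set hI, h2, S.Pr_set hI]
  show _ = 1 / _ * S.P.Pr (fun u => S.gm t u = S.gm t v)
  ring

/-- **martingale given the coins and the vertices of `I ≠ univ`** -/
theorem mart_set {I : Finset ι} (hI : I ≠ univ) (t : ℕ) (g : Γ) (v : V) {f : Om → ℝ}
    (hf : Fac (fun w => (S.xi w, res I (S.x w))) f) :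
    S.P.E (fun w => f w * (ind (S.gm t w = g) * S.ρ (t + 1) (S.gm (t + 1) w) v)) =
      S.P.E (fun w => f w * ind (S.gm t w = g)) * S.ρ t g v := by
  have h1 := S.indep hI (t + 1) f (fun w => ind (S.gm t w = g) * S.ρ (t + 1) (S.gm (t + 1) w) v) hf (by
    intro v' w' h
    show ind (S.gm t v' = g) * S.ρ (t + 1) (S.gm (t + 1) v') v = ind (S.gm t w' = g) * S.ρ (t + 1) (S.gm (t + 1) w') v
    rw [h, S.gm_step t h])
  have h2 := S.indep hI t f (fun w => ind (S.gm t w = g)) hf (by
    intro v' w' h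
    show ind (S.gm t v' = g) = ind (S.gm t w' = g)
    rw [h])
  rw [h1, h2, S.mart]
  show _ * (S.P.Pr _ * _) = _ * S.P.Pr _ * _
  ring

/-! ### instances of `TS.Side` -/

/-- a point with given values on `A` and `B` -/
theorem exists_pt (A B : Finset ι) (hd : Disjoint A B) (a : {i // i ∈ A} → Pt) (b : {i // i ∈ B} → Pt) :
    ∃ y : ι → Pt, ∀ w : Om, (res A (S.x w) = a ∧ res B (S.x w) = b) ↔ ∀ j ∈ A ∪ B, S.x w j = y j := by
  classical
  obtain ⟨w0⟩ := S.nonempty_Om
  refine ⟨fun i => if h : i ∈ A then a ⟨i, h⟩ else if h' : i ∈ B then b ⟨i, h'⟩ else S.x w0 i, fun w => ?_⟩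
  constructor
  · rintro ⟨h1, h2⟩ j hj
    by_cases hA : j ∈ A
    · simp only [dif_pos hA]
      exact congrFun h1 ⟨j, hA⟩
    · have hB : j ∈ B := (mem_union.1 hj).resolve_left hA
      simp only [dif_neg hA, dif_pos hB]
      exact congrFun h2 ⟨j, hB⟩
  · intro h
    constructor
    · funext j
      have h1 := h j.1 (mem_union_left _ j.2)
      simp only [dif_pos j.2] at h1
      exact h1
    · funext j
      have h1 := h j.1 (mem_union_right _ j.2)
      have h2 : j.1 ∉ A := fun h3 => (Finset.disjoint_left.1 hd h3) j.2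
      simp only [dif_neg h2, dif_pos j.2] at h1
      exact h1

theorem pr_two {A B : Finset ι} (hd : Disjoint A B) (hAB : A ∪ B ≠ univ) (t : ℕ) (ξ : Ξ) (a : {i // i ∈ A} → Pt)
    (b : {i // i ∈ B} → Pt) (g : Γ) :
    S.P.Pr (fun w => S.xi w = ξ ∧ res A (S.x w) = a ∧ res B (S.x w) = b ∧ S.gm t w = g) =
      S.P.Pr (fun w => S.gm t w = g) / (Fintype.card Ξ * (Fintype.card Pt : ℝ) ^ (A ∪ B).card) := by
  obtain ⟨y, hy⟩ := S.exists_pt A B hd a b
  rw [← S.law_set hAB t g ξ y]
  refine S.P.Pr_congr fun w _ => ?_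
  rw [← hy w]
  tauto

/-- **the vertices `B` and the coins, nodes with the exact vertices `A`** -/
theorem side {A B : Finset ι} (hd : Disjoint A B) (hAB : A ∪ B ≠ univ) :
    TS.Side S.P (fun w => (S.xi w, res B (S.x w))) S.n (fun t w => (res A (S.x w), S.gm t w))
      (fun t y => fun i => S.cl t (y.2 i)) (fun t g => S.ρ t g.2) (fun t g => (g.1, S.par t g.2)) where
  par_nd t w := Prod.ext rfl (S.par_gm t w)
  wt t g := S.wt t g.2
  free t g x x' := by
    have h1 : ∀ x : Ξ × ({i // i ∈ B} → Pt), S.P.Pr (fun w => (S.xi w, res B (S.x w)) = x ∧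
        (res A (S.x w), S.gm t w) = g) =
        S.P.Pr (fun w => S.gm t w = g.2) / (Fintype.card Ξ * (Fintype.card Pt : ℝ) ^ (A ∪ B).card) := by
      intro x
      rw [← S.pr_two hd hAB t x.1 g.1 x.2 g.2]
      refine S.P.Pr_congr fun w _ => ?_
      rw [Prod.ext_iff, Prod.ext_iff]
      tauto
    rw [h1, h1]
  mart t _ g x v := by
    have h1 := S.mart_set hAB t g.2 v (f := fun w => ind ((S.xi w, res B (S.x w)) = x ∧ res A (S.x w) = g.1))
      (Fac.ind fun v w h => by
        obtain ⟨h2, h3⟩ := Prod.ext_iff.1 h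
        have h4 := res_eq.1 h3
        have h5 : res A (S.x v) = res A (S.x w) := res_eq.2 fun i hi => h4 i (mem_union_left _ hi)
        have h6 : res B (S.x v) = res B (S.x w) := res_eq.2 fun i hi => h4 i (mem_union_right _ hi)
        have h7 : S.xi v = S.xi w := h2
        rw [h5, h6, h7])
    have h2 : ∀ w, ind ((S.xi w, res B (S.x w)) = x ∧ (res A (S.x w), S.gm t w) = g) =
        ind ((S.xi w, res B (S.x w)) = x ∧ res A (S.x w) = g.1) * ind (S.gm t w = g.2) := by
      intro w
      rw [← ind_and]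
      congr 1
      apply propext
      rw [Prod.ext_iff (x := (res A (S.x w), S.gm t w))]
      tauto
    have h3 : S.P.Pr (fun w => (S.xi w, res B (S.x w)) = x ∧ (res A (S.x w), S.gm t w) = g) =
        S.P.E (fun w => ind ((S.xi w, res B (S.x w)) = x ∧ res A (S.x w) = g.1) * ind (S.gm t w = g.2)) :=
      S.P.E_congr fun w _ => h2 w
    rw [h3, ← h1]
    refine S.P.E_congr fun w _ => ?_
    rw [h2]
    ring

/-- **the vertices `B`, nodes with the coins and the exact vertices `A`** -/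
theorem side' {A B : Finset ι} (hd : Disjoint A B) (hAB : A ∪ B ≠ univ) :
    TS.Side S.P (fun w => res B (S.x w)) S.n (fun t w => ((S.xi w, res A (S.x w)), S.gm t w))
      (fun t y => fun i => S.cl t (y i)) (fun t g => S.ρ t g.2) (fun t g => (g.1, S.par t g.2)) where
  par_nd t w := Prod.ext rfl (S.par_gm t w)
  wt t g := S.wt t g.2
  free t g x x' := by
    have h1 : ∀ x : {i // i ∈ B} → Pt, S.P.Pr (fun w => res B (S.x w) = x ∧
        ((S.xi w, res A (S.x w)), S.gm t w) = g) =
        S.P.Pr (fun w => S.gm t w = g.2) / (Fintype.card Ξ * (Fintype.card Pt : ℝ) ^ (A ∪ B).card) := by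
      intro x
      rw [← S.pr_two hd hAB t g.1.1 g.1.2 x g.2]
      refine S.P.Pr_congr fun w _ => ?_
      rw [Prod.ext_iff, Prod.ext_iff]
      tauto
    rw [h1, h1]
  mart t _ g x v := by
    have h1 := S.mart_set hAB t g.2 v (f := fun w => ind (res B (S.x w) = x ∧ (S.xi w, res A (S.x w)) = g.1))
      (Fac.ind fun v w h => by
        obtain ⟨h2, h3⟩ := Prod.ext_iff.1 h
        have h4 := res_eq.1 h3
        have h5 : res A (S.x v) = res A (S.x w) := res_eq.2 fun i hi => h4 i (mem_union_left _ hi)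
        have h6 : res B (S.x v) = res B (S.x w) := res_eq.2 fun i hi => h4 i (mem_union_right _ hi)
        have h7 : S.xi v = S.xi w := h2
        rw [h5, h6, h7])
    have h2 : ∀ w, ind (res B (S.x w) = x ∧ ((S.xi w, res A (S.x w)), S.gm t w) = g) =
        ind (res B (S.x w) = x ∧ (S.xi w, res A (S.x w)) = g.1) * ind (S.gm t w = g.2) := by
      intro w
      rw [← ind_and]
      congr 1
      apply propext
      rw [Prod.ext_iff (x := ((S.xi w, res A (S.x w)), S.gm t w))]
      tauto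
    have h3 : S.P.Pr (fun w => res B (S.x w) = x ∧ ((S.xi w, res A (S.x w)), S.gm t w) = g) =
        S.P.E (fun w => ind (res B (S.x w) = x ∧ (S.xi w, res A (S.x w)) = g.1) * ind (S.gm t w = g.2)) :=
      S.P.E_congr fun w _ => h2 w
    rw [h3, ← h1]
    refine S.P.E_congr fun w _ => ?_
    rw [h2]
    ring

/-! ### exact values of some vertices put into the nodes -/

/-- the values on `A` and off `A` -/
def glue (A : Finset ι) (a : {i // i ∈ A} → Pt) (z : {i // i ∉ A} → Pt) : ι → Pt := fun i =>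
  if h : i ∈ A then a ⟨i, h⟩ else z ⟨i, h⟩

omit S in
theorem glue_in {A : Finset ι} (a : {i // i ∈ A} → Pt) (z : {i // i ∉ A} → Pt) {i : ι} (h : i ∈ A) :
    glue A a z i = a ⟨i, h⟩ := dif_pos h

omit S in
theorem glue_out {A : Finset ι} (a : {i // i ∈ A} → Pt) (z : {i // i ∉ A} → Pt) {i : ι} (h : i ∉ A) :
    glue A a z i = z ⟨i, h⟩ := dif_neg h

omit S in
theorem glue_sub {A : Finset ι} (a : {i // i ∈ A} → Pt) (z : {i // i ∉ A} → Pt) (j : {i // i ∉ A}) :
    glue A a z j.1 = z j := glue_out a z j.2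

omit S in
/-- sums over the points with given values on `A` -/
theorem sum_glue (A : Finset ι) (a : {i // i ∈ A} → Pt) (f : (ι → Pt) → ℝ) :
    ∑ z : ι → Pt, ind (∀ i : {i // i ∈ A}, z i.1 = a i) * f z = ∑ z : {i // i ∉ A} → Pt, f (glue A a z) := by
  classical
  have h1 : ∑ z : ι → Pt, ind (∀ i : {i // i ∈ A}, z i.1 = a i) * f z =
      ∑ z ∈ univ.filter (fun z : ι → Pt => ∀ i : {i // i ∈ A}, z i.1 = a i), f z := by
    rw [Finset.sum_filter]
    refine Finset.sum_congr rfl fun z _ => ?_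
    by_cases h : ∀ i : {i // i ∈ A}, z i.1 = a i
    · rw [ind_of h, if_pos h, one_mul]
    · rw [ind_not h, if_neg h, zero_mul]
  rw [h1]
  refine Finset.sum_bij' (fun z _ => fun i : {i // i ∉ A} => z i.1) (fun z _ => glue A a z) (fun _ _ => mem_univ _)
    (fun z _ => ?_) (fun z hz => ?_) (fun z _ => ?_) (fun z hz => ?_)
  · rw [Finset.mem_filter]
    exact ⟨mem_univ _, fun i => glue_in a z i.2⟩
  · have h2 := (Finset.mem_filter.1 hz).2
    funext i
    by_cases h : i ∈ A
    · rw [glue_in _ _ h, ← h2 ⟨i, h⟩]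
    · rw [glue_out _ _ h]
  · funext i
    exact glue_sub a z i
  · congr 1
    have h2 := (Finset.mem_filter.1 hz).2
    funext i
    by_cases h : i ∈ A
    · rw [glue_in _ _ h, ← h2 ⟨i, h⟩]
    · rw [glue_out _ _ h]

theorem res_glue (A : Finset ι) (a : {i // i ∈ A} → Pt) (z : {i // i ∉ A} → Pt) (w : Om) (C : {i // i ∉ A} → Prop) :
    ((∀ j : {i // i ∉ A}, C j → S.x w j.1 = z j) ∧ res A (S.x w) = a) ↔
      ∀ j, (∀ h : j ∉ A, C ⟨j, h⟩) → S.x w j = glue A a z j := by
  constructor
  · rintro ⟨h1, h2⟩ j hj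
    by_cases h : j ∈ A
    · rw [glue_in _ _ h]
      exact congrFun h2 ⟨j, h⟩
    · rw [glue_out _ _ h]
      exact h1 ⟨j, h⟩ (hj h)
  · intro h
    constructor
    · intro j hj
      have := h j.1 (fun _ => hj)
      rwa [glue_sub] at this
    · funext j
      have := h j.1 (fun h' => absurd j.2 h')
      rwa [glue_in _ _ j.2] at this

/-- **exact values of the vertices `A ≠ univ` put into the nodes** -/
def freeze (A : Finset ι) (hA : A ≠ univ) : Sys {i // i ∉ A} Om Ξ Pt V (({i // i ∈ A} → Pt) × Γ) κ where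
  P := S.P
  xi := S.xi
  x w i := S.x w i.1
  n := S.n
  gm t w := (res A (S.x w), S.gm t w)
  par t g := (g.1, S.par t g.2)
  cl := S.cl
  ρ t g := S.ρ t g.2
  J := S.J
  near := S.near
  K := S.K
  K1 := S.K1
  ppos := S.ppos
  par_gm t w := Prod.ext rfl (S.par_gm t w)
  wt t g := S.wt t g.2
  Jwt := S.Jwt
  near0 := S.near0
  Jnear t w f h hf hh := S.Jnear t w f h hf hh
  law t g i ξ y := by
    obtain ⟨w0⟩ := S.nonempty_Om
    have h1 := S.law t g.2 i.1 ξ (glue A g.1 y)
    have h2 := S.law_set' hA t g.2 (glue A g.1 y)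
    have h3 : S.P.Pr (fun w => (res A (S.x w), S.gm t w) = g) =
        S.P.Pr (fun w => (∀ j ∈ A, S.x w j = glue A g.1 y j) ∧ S.gm t w = g.2) := by
      refine S.P.Pr_congr fun w _ => ?_
      rw [Prod.ext_iff]
      refine and_congr_left fun _ => ?_
      constructor
      · intro h j hj
        rw [glue_in _ _ hj]
        exact congrFun h ⟨j, hj⟩
      · intro h
        funext j
        have := h j.1 j.2
        rwa [glue_in _ _ j.2] at this
    have h4 : S.P.Pr (fun w => S.xi w = ξ ∧ (∀ j : {i // i ∉ A}, j ≠ i → S.x w j.1 = y j) ∧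
        (res A (S.x w), S.gm t w) = g) =
        S.P.Pr (fun w => S.xi w = ξ ∧ (∀ j, j ≠ i.1 → S.x w j = glue A g.1 y j) ∧ S.gm t w = g.2) := by
      refine S.P.Pr_congr fun w _ => ?_
      have h5 := S.res_glue A g.1 y w (fun j => j ≠ i)
      rw [Prod.ext_iff]
      have h6 : (∀ j, (∀ h : j ∉ A, (⟨j, h⟩ : {i // i ∉ A}) ≠ i) → S.x w j = glue A g.1 y j) ↔
          ∀ j, j ≠ i.1 → S.x w j = glue A g.1 y j := by
        refine forall_congr' fun j => ?_
        constructor
        · intro h hj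
          exact h fun _ h' => hj (congrArg Subtype.val h')
        · intro h hj
          by_cases hji : j = i.1
          · subst hji
            exact absurd rfl (hj i.2)
          · exact h hji
      rw [h6] at h5
      rw [← h5]
      tauto
    rw [h3, h4, h1, h2]
    have h7 := (S.cPt i.1).ne'
    have h8 := S.cXi.ne'
    have h9 : Fintype.card ι - 1 = A.card + (Fintype.card {i // i ∉ A} - 1) := by
      have h10 : Fintype.card {i // i ∉ A} = Fintype.card ι - A.card := by
        rw [Fintype.card_subtype_compl, Fintype.card_coe]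
      have h11 : 0 < Fintype.card {i // i ∉ A} := Fintype.card_pos_iff.2 ⟨i⟩
      have h12 := Finset.card_le_univ A
      omega
    rw [h9, pow_add]
    field_simp
  lxi t g ξ y := by
    have h1 := S.lxi t g.2 ξ (glue A g.1 y)
    have h3 : ∀ w, (S.x w = glue A g.1 y ∧ S.gm t w = g.2) ↔
        ((fun i : {i // i ∉ A} => S.x w i.1) = y ∧ (res A (S.x w), S.gm t w) = g) := by
      intro w
      have h5 := S.res_glue A g.1 y w (fun _ => True)
      rw [Prod.ext_iff (x := (res A (S.x w), S.gm t w)), funext_iff, funext_iff]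
      simp only [forall_const, implies_true] at h5
      rw [← h5]
      tauto
    have h4 : S.P.Pr (fun w => S.xi w = ξ ∧ (fun i : {i // i ∉ A} => S.x w i.1) = y ∧ (res A (S.x w), S.gm t w) = g) =
        S.P.Pr (fun w => S.xi w = ξ ∧ S.x w = glue A g.1 y ∧ S.gm t w = g.2) :=
      S.P.Pr_congr fun w _ => by rw [h3 w]
    have h5 : S.P.Pr (fun w => (fun i : {i // i ∉ A} => S.x w i.1) = y ∧ (res A (S.x w), S.gm t w) = g) =
        S.P.Pr (fun w => S.x w = glue A g.1 y ∧ S.gm t w = g.2) :=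
      S.P.Pr_congr fun w _ => by rw [h3 w]
    rw [h4, h5, h1]
  mart t g v := by
    have h1 := S.mart_set hA t g.2 v (f := fun w => ind (res A (S.x w) = g.1)) (Fac.ind fun v w h => by
      have h' : res A (S.x v) = res A (S.x w) := (Prod.ext_iff.1 h).2
      rw [h'])
    have h2 : ∀ w, ind ((res A (S.x w), S.gm t w) = g) = ind (res A (S.x w) = g.1) * ind (S.gm t w = g.2) := by
      intro w
      rw [← ind_and, Prod.ext_iff]
    have h3 : S.P.Pr (fun w => (res A (S.x w), S.gm t w) = g) =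
        S.P.E (fun w => ind (res A (S.x w) = g.1) * ind (S.gm t w = g.2)) := S.P.E_congr fun w _ => h2 w
    rw [h3, ← h1]
    refine S.P.E_congr fun w _ => ?_
    rw [h2]
    ring
  nest := S.nest
  one := S.one
  nu t i w := by
    obtain ⟨s, h1, h2⟩ := S.nu t i.1 w
    refine ⟨s, h1, fun w' h3 h4 => h2 w' (fun j hj => ?_) (congrArg Prod.snd h4)⟩
    by_cases h : j ∈ A
    · have h5 : S.x w' j = S.x w j := congrFun (congrArg Prod.fst h4) ⟨j, h⟩
      rw [h5]
    · exact h3 ⟨j, h⟩ fun h5 => hj (congrArg Subtype.val h5)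
  cnt t g A' y j β hj hl := by
    obtain ⟨l, hl1, hl2⟩ := hl
    set A2 : Finset ι := A ∪ A'.map (Function.Embedding.subtype _) with hA2
    have hm : ∀ i, i ∈ A2 ↔ ∀ h : i ∉ A, (⟨i, h⟩ : {i // i ∉ A}) ∈ A' := by
      intro i
      rw [hA2, mem_union, mem_map]
      constructor
      · rintro (h | ⟨a, h1, h2⟩) h3
        · exact absurd h h3
        · have h4 : a = ⟨i, h3⟩ := Subtype.ext h2
          rw [← h4]
          exact h1
      · intro h
        by_cases h1 : i ∈ A
        · exact Or.inl h1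
        · exact Or.inr ⟨⟨i, h1⟩, h h1, rfl⟩
    have h1 := S.cnt t g.2 A2 (glue A g.1 y) j.1 β (fun h => hj ((hm j.1).1 h j.2))
      ⟨l.1, fun h => hl1 (Subtype.ext h), fun h => hl2 ((hm l.1).1 h l.2)⟩
    have h2 : ∀ w, ((∀ i ∈ A', S.x w i.1 = y i) ∧ (res A (S.x w), S.gm t w) = g) ↔
        ((∀ i ∈ A2, S.x w i = glue A g.1 y i) ∧ S.gm t w = g.2) := by
      intro w
      have h5 := S.res_glue A g.1 y w (fun i => i ∈ A')
      rw [Prod.ext_iff]
      simp only [hm]
      rw [← h5]
      tauto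
    refine le_trans (S.P.Pr_mono fun w _ => ?_) (h1.trans (le_of_eq ?_))
    · rintro ⟨h3, h4, w', h5, h6, h7, h8⟩
      have h9 := (h2 w).1 ⟨h3, h4⟩
      refine ⟨h9.1, h9.2, w', fun i hi => ?_, h6, fun i hi hij => ?_, congrArg Prod.snd h8⟩
      · by_cases h : i ∈ A
        · rw [glue_in _ _ h]
          have h10 : S.x w' i = g.1 ⟨i, h⟩ := congrFun (congrArg Prod.fst h8) ⟨i, h⟩
          rw [h10]
        · rw [glue_out _ _ h]
          exact h5 ⟨i, h⟩ ((hm i).1 hi h)
      · have h10 : i ∉ A := fun h => hi ((hm i).2 fun h' => absurd h h')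
        exact h7 ⟨i, h10⟩ (fun h => hi ((hm i).2 fun _ => h)) fun h => hij (congrArg Subtype.val h)
    · congr 1
      refine S.P.Pr_congr fun w _ => ?_
      rw [← and_assoc, ← and_assoc, h2 w]
  edge t g B ξ y E δ hδ hE := by
    set B2 : Finset ι := B.map (Function.Embedding.subtype _) with hB2
    have hm : ∀ i, i ∉ B2 ↔ ∀ h : i ∉ A, (⟨i, h⟩ : {i // i ∉ A}) ∉ B := by
      intro i
      rw [hB2, mem_map]
      constructor
      · intro h1 h2 h3
        exact h1 ⟨⟨i, h2⟩, h3, rfl⟩
      · rintro h1 ⟨a, h2, h3⟩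
        have h4 : i ∉ A := by rw [← h3]; exact a.2
        have h5 : a = ⟨i, h4⟩ := Subtype.ext h3
        exact h1 h4 (by rw [← h5]; exact h2)
    have hm' : ∀ i : {i // i ∉ A}, i.1 ∈ B2 ↔ i ∈ B := by
      intro i
      constructor
      · intro h
        by_contra h1
        exact (hm i.1).2 (fun _ => h1) h
      · intro h
        by_contra h1
        exact (hm i.1).1 h1 i.2 h
    have h2 : ∀ w, ((∀ i, i ∉ B → S.x w i.1 = y i) ∧ (res A (S.x w), S.gm t w) = g) ↔
        ((∀ i, i ∉ B2 → S.x w i = glue A g.1 y i) ∧ S.gm t w = g.2) := by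
      intro w
      have h5 := S.res_glue A g.1 y w (fun i => i ∉ B)
      rw [Prod.ext_iff]
      simp only [hm]
      rw [← h5]
      tauto
    have h1 := S.edge t g.2 B2 ξ (glue A g.1 y) (fun z => E fun i => z i.1) δ hδ (fun w' h3 h4 => by
      have h5 := (h2 w').2 ⟨h3, h4⟩
      have h6 := hE w' h5.1 h5.2
      have key : ∀ F : ({i // i ∉ A} → Pt) → Prop,
          ∑ z : ι → Pt, ind ((∀ i, i ∉ B2 → z i = glue A g.1 y i) ∧ (∀ i ∈ B2, S.cl t (z i) = S.cl t (S.x w' i)) ∧
            F fun i => z i.1) =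
          ∑ z : {i // i ∉ A} → Pt, ind ((∀ i, i ∉ B → z i = y i) ∧ (∀ i ∈ B, S.cl t (z i) = S.cl t (S.x w' i.1)) ∧
            F z) := by
        intro F
        have h7 : ∀ z : ι → Pt, ind ((∀ i, i ∉ B2 → z i = glue A g.1 y i) ∧
            (∀ i ∈ B2, S.cl t (z i) = S.cl t (S.x w' i)) ∧ F fun i => z i.1) =
            ind (∀ i : {i // i ∈ A}, z i.1 = g.1 i) * ind ((∀ i : {i // i ∉ A}, i ∉ B → z i.1 = y i) ∧
              (∀ i ∈ B, S.cl t (z i.1) = S.cl t (S.x w' i.1)) ∧ F fun i => z i.1) := by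
          intro z
          rw [← ind_and]
          congr 1
          apply propext
          constructor
          · rintro ⟨h8, h9, h10⟩
            refine ⟨fun i => ?_, fun i hi => ?_, fun i hi => h9 i.1 ((hm' i).2 hi), h10⟩
            · rw [h8 i.1 ((hm i.1).2 fun h => absurd i.2 h), glue_in _ _ i.2]
            · rw [h8 i.1 (fun h => hi ((hm' i).1 h)), glue_sub]
          · rintro ⟨h8, h9, h10, h11⟩
            refine ⟨fun i hi => ?_, fun i hi => ?_, h11⟩
            · by_cases h : i ∈ A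
              · rw [glue_in _ _ h]
                exact h8 ⟨i, h⟩
              · rw [glue_out _ _ h]
                exact h9 ⟨i, h⟩ ((hm i).1 hi h)
            · have h12 : i ∉ A := by
                obtain ⟨a, _, ha⟩ := mem_map.1 hi
                rw [← ha]
                exact a.2
              exact h10 ⟨i, h12⟩ ((hm' ⟨i, h12⟩).1 hi)
        rw [Finset.sum_congr rfl fun z _ => h7 z, sum_glue A g.1]
        simp only [glue_sub]
      have k1 := key E
      have k2 := key (fun _ => True)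
      simp only [and_true] at k2
      rw [k1, k2]
      exact h6)
    have h3 : S.P.Pr (fun w => S.xi w = ξ ∧ (∀ i : {i // i ∉ A}, i ∉ B → S.x w i.1 = y i) ∧
        (res A (S.x w), S.gm t w) = g ∧ E fun i => S.x w i.1) =
        S.P.Pr (fun w => S.xi w = ξ ∧ (∀ i, i ∉ B2 → S.x w i = glue A g.1 y i) ∧ S.gm t w = g.2 ∧
          E fun i => S.x w i.1) := by
      refine S.P.Pr_congr fun w _ => and_congr_right fun _ => ?_
      rw [← and_assoc, ← and_assoc, h2 w]
    have h4 : S.P.Pr (fun w => S.xi w = ξ ∧ (∀ i : {i // i ∉ A}, i ∉ B → S.x w i.1 = y i) ∧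
        (res A (S.x w), S.gm t w) = g) =
        S.P.Pr (fun w => S.xi w = ξ ∧ (∀ i, i ∉ B2 → S.x w i = glue A g.1 y i) ∧ S.gm t w = g.2) :=
      S.P.Pr_congr fun w _ => and_congr_right fun _ => h2 w
    rw [h3, h4]
    exact h1

end Sys

end

end Pool.Agent.GM
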