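import Pool.Agent.GM.SInd
import Pool.Agent.GM.NVBin
import Pool.Agent.GM.PieceAsm
import Pool.Agent.GM.CMBin
import Pool.Agent.GM.RelocC
import Pool.Agent.GM.CMRef
import Pool.Agent.GM.ColdMov
import Pool.Agent.GM.MovLayB
import Pool.Agent.GM.ColdBinE
import Pool.Agent.GM.MI0
import Pool.Agent.GM.HotIn4
import Pool.Agent.GM.NatA3
import Pool.Agent.GMN.NamRule
import Pool.Agent.GMN.StepEnd
import Pool.Agent.GMJR.JR2F

/-!
# GM/Top4 (helper11): the composition for FOUR VERTICES (route P)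

* `nv3` : named views of every piece with three vertices: NOTHING OPEN;
* `smi3` : `SMIbin 2`, `SMIbin 3` from `NatA 3 False` (natural coldness of the hidden vertex);
* `cmAll_of` : `CMAll j` from the names and the inputs `HotIn j` of smaller sizes;
* **`final4_of`** : `NatA 3 False`, `JR2M 4`, `HarmWU 3` give `FinalM 4`; **`binTh4_of2`**, **`final4_of2`** :
  `JR2M 4`, `HarmWU 3` give `BinTh 4`, `FinalM 4`;
* **`binTh4_of3`**, **`final4_of3`** : from `HarmWU 3` ALONE.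
-/

set_option autoImplicit false
set_option linter.unusedSectionVars false

namespace Pool.Agent.GM.Top

open Finset Filter Pool.Agent.PWZ Pool.Agent.M3 Pool.Agent.M3.TS Pool.Agent.M3.Bin Pool.Agent.GM Pool.Agent.GM.GS
  Pool.Agent.GMN

noncomputable section

/-- names of every piece with `j` vertices, every accuracy; the fineness is at least the accuracy -/
def NamAllc (j : ℕ) (κ : ℝ) : Prop := ∀ c0 : ℕ, ∃ c D : ℕ, c0 ≤ c ∧ NamBin j κ c0 c D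

/-- named views of every piece with `j` vertices, every accuracy -/
def NVAllc (j : ℕ) (κ : ℝ) : Prop := ∀ c0 : ℕ, ∃ c D : ℕ, c0 ≤ c ∧ NVBin j κ c0 c D

/-! ### from the names to the named views -/

theorem namAt_mono {k N : ℕ} {ι Θ Ξ Q : Type} [Fintype ι] [DecidableEq ι] [Fintype Θ] [Nonempty Θ] [Fintype Ξ]
    [Nonempty Ξ] [Fintype Q] [Nonempty Q] {σ : V k} {hN : N ≤ k} {h : ℕ} {a δ : ι}
    {F : ι → Mov Ξ ι (Q × V k) (Θ × (V k × ℕ)) (V k → ℝ)} {e e' r r' s : ℝ} (he : e ≤ e') (hr : r ≤ r')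
    (H : NamAt σ hN h a δ F e r s) : NamAt σ hN h a δ F e' r' s := by
  obtain ⟨Ξ2, i1, i2, E, Fl, h', O, c, A, J, q, eta, M, dd, a1, a2, a3, a4, a5, a6, a7, a8, a9, a10, b1, b2, b3, b4, b5,
    b6⟩ := H
  exact ⟨Ξ2, i1, i2, E, Fl, h', O, c, A, J, q, eta, M, dd, a1, a2, a3, a4, a5, a6, a7, a8, a9, a10, b1.trans he,
    b2.trans he, b3.trans hr, b4, b5, b6⟩

theorem namBin_mono {j : ℕ} {κ : ℝ} {c0 c0' c D : ℕ} (h0 : c0' ≤ c0) (H : NamBin j κ c0 c D) : NamBin j κ c0' c D := by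
  intro ι Θ Ξ Q _ _ _ _ _ _ _ _ k N σ a δ q hN h hj h1 h2 B Λ hH hK hn hL0 hL F hF hD
  have h3 : Real.exp (-B ^ c0) ≤ Real.exp (-B ^ c0') :=
    Real.exp_le_exp.2 (neg_le_neg (pow_le_pow_right₀ (by linarith) h0))
  exact namAt_mono h3 h3 (H ι Θ Ξ Q k N σ a δ q hN h hj h1 h2 B Λ hH hK hn hL0 hL F hF hD)

theorem nvAllc_of {j : ℕ} (hj : 2 ≤ j) {κ : ℝ} (hW : Harm.HarmWU (j - 1)) (hN : NamAllc j κ) : NVAllc j κ := by
  intro c0
  obtain ⟨c1, h1⟩ := nvBin_of' hj (κ := κ) hW c0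
  obtain ⟨c, D, hc, h2⟩ := hN (max c0 c1)
  obtain ⟨D', h3⟩ := h1 c D (namBin_mono (le_max_right _ _) h2)
  exact ⟨c, D', (le_max_left _ _).trans hc, h3⟩

/-! ### the names -/

theorem namM {m : ℕ} (hm : 2 ≤ m) (hJ : ∀ C0, JR2M m C0) (hS : ∃ C : ℕ, ∀ i, 2 ≤ i → i < m → SMIbin i C) {κ : ℝ}
    (hκ : κ ≤ 1) : NamAllc m κ := by
  intro c0
  obtain ⟨C0, hC0⟩ := hS
  obtain ⟨C1, hR⟩ := ruleM_of_jr2 (hJ C0)
  refine ⟨_, _, ?_, namBin_of_rule (G := fun ι _ _ => GMJR.hgCls ι (m - 1) C0) hR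
    (GMJR.binCls_hg (fun j' h1 h2 => hC0 j' h1 (by omega)) m _) hκ c0⟩
  unfold NamNum.nc NamNum.n2 NamNum.n1
  omega

theorem nam3 {κ : ℝ} (hκ : κ ≤ 1) : NamAllc 3 κ := by
  refine namM (by norm_num) jr2M_three ⟨12, fun i h1 h2 => ?_⟩ hκ
  have : i = 2 := by omega
  subst this
  exact smiBin_two

theorem harmWU_two : Harm.HarmWU 2 := Harm.harmWU_of (Harm.harmW_two (Fin 2) rfl) rfl

theorem nv3 {κ : ℝ} (hκ : κ ≤ 1) : NVAllc 3 κ := nvAllc_of (by norm_num) harmWU_two (nam3 hκ)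

/-! ### the pieces with three vertices -/

theorem piece3 (hC : Asm.NatA 3 False) : ∃ C : ℕ, PieceBin 3 1 C := by
  obtain ⟨c, D, hc, hV⟩ := nv3 le_rfl 4
  exact Asm.pieceBin_of le_rfl (by omega) hV
    (Asm.coldA_of (by norm_num) ((coldSets_le2 3).mono fun _ h => by omega) hC)

/-- **SMI(2), SMI(3)** -/
theorem smi3 (hC : Asm.NatA 3 False) : ∃ C : ℕ, ∀ i, 2 ≤ i → i < 4 → SMIbin i C := by
  obtain ⟨C, -, h2, h3⟩ := smi_three fun _ => by
    obtain ⟨C, hC⟩ := piece3 hC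
    exact ⟨1, one_pos, C, hC⟩
  refine ⟨C, fun i hi hi4 => ?_⟩
  have h : i = 2 ∨ i = 3 := by omega
  rcases h with rfl | rfl
  · exact h2
  · exact h3

/-! ### the cold sets of `j - 1` vertices -/

/-- the cold inputs of theorem CM, all parameters -/
def HotAll (j : ℕ) : Prop := ∀ κ : ℝ, ∃ c2 : ℕ, ∀ c c1 : ℕ, c2 ≤ c → ∃ C : ℕ, HotIn j κ c c1 C

theorem cmAll_of {j : ℕ} (hj : 2 ≤ j) (hN : NamAllc j 1) (hH : HotAll j) : ∃ C : ℕ, CMAll j C := by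
  obtain ⟨c2, h2⟩ := hH 1
  obtain ⟨c00, h3⟩ := cmFineH_of j hj
  obtain ⟨c, D, hc, hNb⟩ := hN (max c00 (c2 + 1))
  obtain ⟨c1, h4⟩ := h3 (max c00 (c2 + 1)) (le_max_left _ _) D
  obtain ⟨C, h5⟩ := h2 c c1 (by
    have := le_max_right c00 (c2 + 1)
    omega)
  have hF : CMFine j 1 c C := Reloc.cmFine_of_hid (h4 1 c C hNb h5)
  obtain ⟨C', hP⟩ := cm_ref one_pos (by omega) hF
  obtain ⟨C1, hL⟩ := Lay.layers j hj (κ := 1 / 2) (by norm_num) C'
  exact ⟨C1, cmAll_of_piece hL hP⟩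

theorem hotAll4 : HotAll 4 := by
  intro κ
  obtain ⟨c2, h⟩ := hotIn_le4 4 le_rfl
  refine ⟨c2, fun c c1 hc => ?_⟩
  obtain ⟨C, hC⟩ := h c hc κ c1
  exact ⟨C, hC C le_rfl⟩

/-! ### four vertices -/

/-- the conditional theorem of section 5 for four vertices from the named inputs -/
theorem sec5_of4 (hC3 : Asm.NatA 3 False) (hJ : ∀ C0, JR2M 4 C0) (hH : Harm.HarmWU 3) : Sec5 2 := by
  have n4 : NamAllc 4 1 := namM (by norm_num) hJ (smi3 hC3) le_rfl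
  obtain ⟨C1, hA⟩ := cmAll_of (by norm_num) n4 hotAll4
  obtain ⟨c, D, hc, hV⟩ := nvAllc_of (by norm_num) hH n4 4
  obtain ⟨C, hP⟩ := Asm.pieceBin0_of (by norm_num) (by omega : 2 ≤ c) hV (Asm.coldA_of_hyp (cold4_free hA))
  obtain ⟨C', -, hS⟩ := smiBin0_of_piece0 (by norm_num) one_pos hP
  exact sec5_of_smi0 (n := 2) hS

/-- **FOUR COMMUTING MAPS from the named inputs** -/
theorem final4_of (hC3 : Asm.NatA 3 False) (hJ : ∀ C0, JR2M 4 C0) (hH : Harm.HarmWU 3) :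
    Pool.PWM.FinalM 4 := final_four (sec5_of4 hC3 hJ hH)

/-- **THE FINITE THEOREM IN THE BINARY MODEL, FOUR VERTICES, from the record lemma and HARM(3)** -/
theorem binTh4_of2 (hJ : ∀ C0, JR2M 4 C0) (hH : Harm.HarmWU 3) : Pool.PWM.BinTh 4 :=
  binTh_of_binI (binI_four (sec5_of4 Asm.natA_three hJ hH))

/-- **FOUR COMMUTING MAPS from the record lemma and HARM(3)** -/
theorem final4_of2 (hJ : ∀ C0, JR2M 4 C0) (hH : Harm.HarmWU 3) : Pool.PWM.FinalM 4 :=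
  final4_of Asm.natA_three hJ hH

/-- **THE FINITE THEOREM, FOUR VERTICES, from HARM(3)** -/
theorem binTh4_of3 (hH : Harm.HarmWU 3) : Pool.PWM.BinTh 4 := binTh4_of2 GMJR.jr2M_four hH

/-- **FOUR COMMUTING MAPS from HARM(3)** -/
theorem final4_of3 (hH : Harm.HarmWU 3) : Pool.PWM.FinalM 4 := final4_of2 GMJR.jr2M_four hH

end

end Pool.Agent.GM.Top
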