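import Pool.Agent.GM.Top4
import Pool.Agent.GM.EraseC
import Pool.Agent.GM.NatAOf
import Pool.Agent.GM.CMcBin
import Pool.Agent.GM.MovLayC
import Pool.Agent.GM.ColdBinF

/-!
# GM/TopM (helper85): the composition for EVERY NUMBER OF VERTICES (row P4)

Named open inputs, with constants uniform in the type of the vertices:
* `HarmAll k`, `3 ≤ k`; `ClsAll v`, `3 ≤ v` (`GM/SInd`); the record lemma of every level is `GMJR.jr2M_of_cls`;
* `ColdPc j free` : the cold sets `3 ≤ |U| ≤ j - 2` of the pieces (`GM/ColdBinE.ColdSets`);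
* `HotP P j`, `HotCP P j` : the cold inputs of theorem CM for the sets `J` with `P J.card`, coin free and with a coin;
  `hotP_le2` : proved for at most two vertices, coin free;
* `OpenTop j` : the cold inputs of the top level `j` (coin free); `OpenMid j` : of the level `j` (with coins).

* `cmcAll_ofP` : `CMcAll j`; `coldA_mid`, `coldA_top` : the cold hypotheses of the pieces;
* `pieceStep_mid : .. → PieceStep`, `pieceStep_top` : the steps of the induction `GM/SInd`;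
* **`final_all_of`** : EVERY NUMBER OF COMMUTING MAPS from the named inputs; `final_of_upto` : for `m` only the inputs of the
  levels `≤ m`; `final4_ofM` : for `m = 4` only `HarmAll 3` is left (same as `GM/Top4`).
-/

set_option autoImplicit false
set_option linter.unusedSectionVars false

namespace Pool.Agent.GM.Top

open Finset Filter Pool.Agent.PWZ Pool.Agent.M3 Pool.Agent.M3.TS Pool.Agent.M3.Bin Pool.Agent.GM Pool.Agent.GM.GS
  Pool.Agent.GMN Pool.Agent.GM.KVer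

noncomputable section

/-! ### the named inputs -/

/-- the cold sets `3 ≤ |U| ≤ j - 2` of all pieces with `j` vertices; `free` : only coin free pieces -/
def ColdPc (j : ℕ) (free : Prop) : Prop := ColdSets j free (fun n => 3 ≤ n ∧ n + 2 ≤ j)

theorem ColdPc.free {j : ℕ} (h : ColdPc j False) : ColdPc j True := ColdSets.free h True

theorem coldPc_le4 {j : ℕ} (hj : j ≤ 4) (free : Prop) : ColdPc j free := by
  intro c1
  refine ⟨c1, le_rfl, ?_⟩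
  intro ι Θ Ξ Q _ _ _ _ _ _ _ _ k N σ i δ hN h hι β H Λ hβ hβ2 hH hK hn hΛ hΛ2 F HF hf D hD U hU hS
  omega

/-- the cold inputs of theorem CM, coin free, only the sets `J` with `P J.card` -/
def HotInP (P : ℕ → Prop) (j : ℕ) (κ : ℝ) (c c1 C : ℕ) : Prop :=
  ∀ (ι Θ Ξ Q : Type) [Fintype ι] [DecidableEq ι] [Fintype Θ] [Nonempty Θ] [Fintype Ξ] [Nonempty Ξ] [Fintype Q]
    [Nonempty Q] (k N : ℕ) (σ : V k) (w q : ι) (hN : N ≤ k) (h : ℕ), Fintype.card ι = j → q ≠ w →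
    ∀ β H Λ : ℝ, 0 < β → β ≤ 1 / 2 → 1 / β ≤ H → (binSys Θ Ξ Q σ w hN h).K ≤ Real.exp (H ^ (c + 2)) →
      (binSys Θ Ξ Q σ w hN h).near ≤ Real.exp (-H ^ c) → H ^ C ≤ Λ → Λ ≤ Real.exp H →
      ∀ F : ι → Mov Ξ ι (Q × V k) (Θ × (V k × ℕ)) (V k → ℝ),
        GS.FacesC (binSys Θ Ξ Q σ w hN h) w F (4 * H) (Real.exp (H ^ (c + 2))) (Real.exp (-Λ)) (β ^ C) →
        Nonempty (GS.StrT (binSys Θ Ξ Q σ w hN h) univ w q (F q) (4 * H) (Real.exp (H ^ (c + 2)))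
          (H * Real.exp ((1 + κ) * Λ))) →
        ∀ h' : ℕ, h ≤ h' → h' ≤ h + Fintype.card ι → ∀ J : Finset {v : ι // v ≠ w}, J ≠ univ → P J.card →
          (PM k N ι Θ Ξ Q).Pr (fun u => ∃ t ≤ N, Real.exp (-H ^ c1) < (PM k N ι Θ Ξ Q).ce (KJ w h' J (Mod.ex N t))
            (fun v => ind (β ^ 2 ≤ |pT (binSys Θ Ξ Q σ w hN h) univ F t v|)) u) ≤ Real.exp (-H ^ c1)

/-- the same with a coin of the hidden vertex `w`, seen by the face `δ` only -/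
def HotInCP (P : ℕ → Prop) (j : ℕ) (κ : ℝ) (c c1 C : ℕ) : Prop :=
  ∀ (ι Θ Ξ Q : Type) [Fintype ι] [DecidableEq ι] [Fintype Θ] [Nonempty Θ] [Fintype Ξ] [Nonempty Ξ] [Fintype Q]
    [Nonempty Q] (k N : ℕ) (σ : V k) (w δ q : ι) (hN : N ≤ k) (h : ℕ), Fintype.card ι = j → δ ≠ w → q ≠ w →
    ∀ β H Λ : ℝ, 0 < β → β ≤ 1 / 2 → 1 / β ≤ H → (binSys Θ Ξ Q σ w hN h).K ≤ Real.exp (H ^ (c + 2)) →
      (binSys Θ Ξ Q σ w hN h).near ≤ Real.exp (-H ^ c) → H ^ C ≤ Λ → Λ ≤ Real.exp H →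
      ∀ F : ι → Mov Ξ ι (Q × V k) (Θ × (V k × ℕ)) (V k → ℝ),
        GS.FacesCc (binSys Θ Ξ Q σ w hN h) w δ F (4 * H) (Real.exp (H ^ (c + 2))) (Real.exp (-Λ)) (β ^ C) →
        Nonempty (GS.StrT (binSys Θ Ξ Q σ w hN h) univ δ q (F q) (4 * H) (Real.exp (H ^ (c + 2)))
          (H * Real.exp ((1 + κ) * Λ))) →
        ∀ h' : ℕ, h ≤ h' → h' ≤ h + Fintype.card ι → ∀ J : Finset {v : ι // v ≠ w}, J ≠ univ → P J.card →
          (PM k N ι Θ Ξ Q).Pr (fun u => ∃ t ≤ N, Real.exp (-H ^ c1) < (PM k N ι Θ Ξ Q).ce (KJ w h' J (Mod.ex N t))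
            (fun v => ind (β ^ 2 ≤ |pT (binSys Θ Ξ Q σ w hN h) univ F t v|)) u) ≤ Real.exp (-H ^ c1)

/-- **the cold inputs of theorem CM of the level `j`**, coin free, sets `J` with `P J.card`, all parameters -/
def HotP (P : ℕ → Prop) (j : ℕ) : Prop :=
  ∀ κ : ℝ, ∃ c2 : ℕ, ∀ c c1 : ℕ, c2 ≤ c → ∃ C1 : ℕ, ∀ C ≥ C1, HotInP P j κ c c1 C

/-- **the cold inputs of theorem CM of the level `j`**, with a coin -/
def HotCP (P : ℕ → Prop) (j : ℕ) : Prop :=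
  ∀ κ : ℝ, ∃ c2 : ℕ, ∀ c c1 : ℕ, c2 ≤ c → ∃ C1 : ℕ, ∀ C ≥ C1, HotInCP P j κ c c1 C

theorem HotP.or {P P' : ℕ → Prop} {j : ℕ} (h : HotP P j) (h' : HotP P' j) : HotP (fun n => P n ∨ P' n) j := by
  intro κ
  obtain ⟨a, ha⟩ := h κ
  obtain ⟨b, hb⟩ := h' κ
  refine ⟨max a b, fun c c1 hc => ?_⟩
  obtain ⟨C1, h1⟩ := ha c c1 ((le_max_left _ _).trans hc)
  obtain ⟨C2, h2⟩ := hb c c1 ((le_max_right _ _).trans hc)
  refine ⟨max C1 C2, fun C hC => ?_⟩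
  intro ι Θ Ξ Q _ _ _ _ _ _ _ _ k N σ w q hN hr hι hqw β H Λ hβ hβ2 hH hK hn hΛ hΛ2 F HF hS h' hh' hh'' J hJ hP
  rcases hP with hP | hP
  · exact h1 C ((le_max_left _ _).trans hC) ι Θ Ξ Q k N σ w q hN hr hι hqw β H Λ hβ hβ2 hH hK hn hΛ hΛ2 F HF hS h' hh'
      hh'' J hJ hP
  · exact h2 C ((le_max_right _ _).trans hC) ι Θ Ξ Q k N σ w q hN hr hι hqw β H Λ hβ hβ2 hH hK hn hΛ hΛ2 F HF hS h' hh'
      hh'' J hJ hP

theorem HotCP.or {P P' : ℕ → Prop} {j : ℕ} (h : HotCP P j) (h' : HotCP P' j) : HotCP (fun n => P n ∨ P' n) j := by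
  intro κ
  obtain ⟨a, ha⟩ := h κ
  obtain ⟨b, hb⟩ := h' κ
  refine ⟨max a b, fun c c1 hc => ?_⟩
  obtain ⟨C1, h1⟩ := ha c c1 ((le_max_left _ _).trans hc)
  obtain ⟨C2, h2⟩ := hb c c1 ((le_max_right _ _).trans hc)
  refine ⟨max C1 C2, fun C hC => ?_⟩
  intro ι Θ Ξ Q _ _ _ _ _ _ _ _ k N σ w δ q hN hr hι hδw hqw β H Λ hβ hβ2 hH hK hn hΛ hΛ2 F HF hS h' hh' hh'' J hJ hP
  rcases hP with hP | hP
  · exact h1 C ((le_max_left _ _).trans hC) ι Θ Ξ Q k N σ w δ q hN hr hι hδw hqw β H Λ hβ hβ2 hH hK hn hΛ hΛ2 F HF hS h'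
      hh' hh'' J hJ hP
  · exact h2 C ((le_max_right _ _).trans hC) ι Θ Ξ Q k N σ w δ q hN hr hι hδw hqw β H Λ hβ hβ2 hH hK hn hΛ hΛ2 F HF hS
      h' hh' hh'' J hJ hP

/-- a proper set of known vertices -/
theorem card_proper {ι : Type} [Fintype ι] [DecidableEq ι] {w : ι} {J : Finset {v : ι // v ≠ w}} (hJ : J ≠ univ) :
    J.card + 2 ≤ Fintype.card ι := by
  have h2 : J.card < Fintype.card {v : ι // v ≠ w} := by
    rw [← Finset.card_univ]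
    exact Finset.card_lt_card (Finset.ssubset_univ_iff.mpr hJ)
  have h3 : Fintype.card {v : ι // v ≠ w} = Fintype.card ι - 1 := by
    rw [Fintype.card_subtype_compl, Fintype.card_subtype_eq]
  omega

theorem HotP.big {j : ℕ} (hj : j ≤ 4) : HotP (fun n => 3 ≤ n) j := by
  intro κ
  refine ⟨0, fun c c1 _ => ⟨0, fun C _ => ?_⟩⟩
  intro ι Θ Ξ Q _ _ _ _ _ _ _ _ k N σ w q hN hr hι hqw β H Λ hβ hβ2 hH hK hn hΛ hΛ2 F HF hS h' hh' hh'' J hJ hP
  have := card_proper hJ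
  omega

theorem HotCP.big {j : ℕ} (hj : j ≤ 4) : HotCP (fun n => 3 ≤ n) j := by
  intro κ
  refine ⟨0, fun c c1 _ => ⟨0, fun C _ => ?_⟩⟩
  intro ι Θ Ξ Q _ _ _ _ _ _ _ _ k N σ w δ q hN hr hι hδw hqw β H Λ hβ hβ2 hH hK hn hΛ hΛ2 F HF hS h' hh' hh'' J hJ hP
  have := card_proper hJ
  omega

/-- **at most two vertices, coin free** (helper18) -/
theorem hotP_le2 (j : ℕ) : HotP (fun n => n ≤ 2) j := by
  intro κ
  obtain ⟨c0, h0⟩ := cmCold_gen j 2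
  refine ⟨c0, fun c c1 hc => ?_⟩
  obtain ⟨C1, h1⟩ := h0 (c + 2) c1
  refine ⟨C1, fun C hC => ?_⟩
  intro ι Θ Ξ Q _ _ _ _ _ _ _ _ k N σ w q hN h hι hqw β H Λ hβ hβ2 hH hK hn hΛ _ F HF _ h' hh' hh'' J hJ hJ2
  have hH2 : 2 ≤ H := by
    have h2 : (2 : ℝ) ≤ 1 / β := by
      rw [le_div_iff₀ hβ]
      linarith
    exact h2.trans hH
  exact h1 ι Θ Ξ Q (Ξ × Q) Ξ (Equiv.prodComm Ξ Q) k N σ w w q hN h hι hqw β H Λ hβ hβ2 hH hK (near_of_exp hβ hβ2 hH hc hn)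
    (le_trans (pow_le_pow_right₀ (by linarith) hC) hΛ) C hC (4 * H) F HF h' hh' hh'' J hJ2
    (fun t v => pT (binSys Θ Ξ Q σ w hN h) univ F t v) (fun t _ v => ⟨v, rfl, rfl⟩)

/-! ### theorem CM -/

theorem hotAll_of {j : ℕ} (h : HotP (fun n => 3 ≤ n) j) : HotAll j := by
  intro κ
  obtain ⟨c2, h2⟩ := ((hotP_le2 j).or h) κ
  refine ⟨c2, fun c c1 hc => ?_⟩
  obtain ⟨C1, h3⟩ := h2 c c1 hc
  refine ⟨C1, ?_⟩
  intro ι Θ Ξ Q _ _ _ _ _ _ _ _ k N σ w q hN hr hι hqw β H Λ hβ hβ2 hH hK hn hΛ hΛ2 F HF hS h' hh' hh'' J hJ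
  refine h3 C1 le_rfl ι Θ Ξ Q k N σ w q hN hr hι hqw β H Λ hβ hβ2 hH hK hn hΛ hΛ2 F HF hS h' hh' hh'' J hJ ?_
  show J.card ≤ 2 ∨ 3 ≤ J.card
  omega

/-- all sets, with a coin -/
theorem hotC_of {j : ℕ} (h2 : HotCP (fun n => n ≤ 2) j) (h3 : HotCP (fun n => 3 ≤ n) j) (κ : ℝ) :
    ∃ c2 : ℕ, ∀ c c1 : ℕ, c2 ≤ c → ∃ C : ℕ, HotInC j κ c c1 C := by
  obtain ⟨c2, h4⟩ := (h2.or h3) κ
  refine ⟨c2, fun c c1 hc => ?_⟩
  obtain ⟨C1, h5⟩ := h4 c c1 hc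
  refine ⟨C1, ?_⟩
  intro ι Θ Ξ Q _ _ _ _ _ _ _ _ k N σ w δ q hN hr hι hδw hqw β H Λ hβ hβ2 hH hK hn hΛ hΛ2 F HF hS h' hh' hh'' J hJ
  refine h5 C1 le_rfl ι Θ Ξ Q k N σ w δ q hN hr hι hδw hqw β H Λ hβ hβ2 hH hK hn hΛ hΛ2 F HF hS h' hh' hh'' J hJ ?_
  show J.card ≤ 2 ∨ 3 ≤ J.card
  omega

theorem cmcAll_ofP {j : ℕ} (hj : 2 ≤ j) (hN : NamAllc j 1) (h2 : HotCP (fun n => n ≤ 2) j)
    (h3 : HotCP (fun n => 3 ≤ n) j) : ∃ C : ℕ, CMcAll j C := by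
  obtain ⟨c2, h4⟩ := hotC_of h2 h3 1
  obtain ⟨c00, h5⟩ := cmcFine_of j hj
  obtain ⟨c, D, hc, hNb⟩ := hN (max c00 (c2 + 1))
  obtain ⟨c1, h6⟩ := h5 (max c00 (c2 + 1)) (le_max_left _ _) D
  obtain ⟨C, h7⟩ := h4 c c1 (by
    have := le_max_right c00 (c2 + 1)
    omega)
  have hF : CMcFine j 1 c C := h6 1 c C hNb h7
  obtain ⟨C', hP⟩ := cmc_ref one_pos (by omega) hF
  obtain ⟨C1, hL⟩ := Lay.layers_c j hj (κ := 1 / 2) (by norm_num) C'
  exact ⟨C1, cmcAll_of_piece hL hP⟩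

/-! ### the levels -/

/-- the cold inputs of the top level `j` (coin free) -/
structure OpenTop (j : ℕ) : Prop where
  pc : ColdPc j True
  hot : HotP (fun n => 3 ≤ n) j

/-- **the cold inputs of the level `j`** (with coins) -/
structure OpenMid (j : ℕ) : Prop where
  pc : ColdPc j False
  hot : HotP (fun n => 3 ≤ n) j
  hotc : HotCP (fun n => 3 ≤ n) j

theorem OpenMid.top {j : ℕ} (h : OpenMid j) : OpenTop j := ⟨h.pc.free, h.hot⟩

theorem openMid_le4 {j : ℕ} (hj : j ≤ 4) : OpenMid j := ⟨coldPc_le4 hj _, HotP.big hj, HotCP.big hj⟩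

theorem sizes (j : ℕ) {n : ℕ} (hn : n < j) : (n ≤ 2 ∨ n + 1 = j) ∨ (3 ≤ n ∧ n + 2 ≤ j) := by omega

/-- the cold hypotheses of the pieces, coins included -/
theorem coldA_mid {j C : ℕ} (hj : 2 ≤ j) (hN : Asm.NatA j False) (hA : CMAll j C) (hM : ColdPc j False) :
    Asm.ColdA j False :=
  Asm.coldA_of hj ((((coldSets_le2 j).or (coldSets_eraseC hN hA)).or hM).mono fun _ h => sizes j h) hN

theorem names_of {j : ℕ} (hj : 2 ≤ j) (hB : Below j) : NamAllc j 1 := by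
  obtain ⟨C, -, hS⟩ := hB.smi
  exact namM hj (GMJR.jr2M_of_cls hB.cls) ⟨C, hS⟩ le_rfl

theorem nv_of {j : ℕ} (hj : 3 ≤ j) (hN : NamAllc j 1) (hB : Below j) : NVAllc j 1 := by
  have h1 := hB.harm (j - 1) (by omega) (by omega)
  exact nvAllc_of (by omega) (Harm.harmWU_of (h1 (Fin (j - 1)) (Fintype.card_fin _)) (Fintype.card_fin _)) hN

/-- **THE STEP OF THE LEVEL `j`**, coins included -/
theorem pieceStep_mid {j : ℕ} (hj : 3 ≤ j) (h2 : HotCP (fun n => n ≤ 2) j) : PieceStep OpenMid j := by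
  intro hB hO
  have hN := names_of (by omega) hB
  obtain ⟨C1, hA⟩ := cmAll_of (by omega) hN (hotAll_of hO.hot)
  obtain ⟨C2, hC⟩ := cmcAll_ofP (by omega) hN h2 hO.hotc
  obtain ⟨c, D, hc, hV⟩ := nv_of hj hN hB 4
  obtain ⟨C, hP⟩ := Asm.pieceBin_of hj (by omega : 2 ≤ c) hV
    (coldA_mid (by omega) (Asm.natA_of_cmcAll hC) hA hO.pc)
  exact ⟨1, one_pos, C, hP⟩

/-- the level 3: nothing is open -/
theorem pieceStep_three : PieceStep OpenMid 3 := by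
  intro _ _
  obtain ⟨C, hC⟩ := piece3 Asm.natA_three
  exact ⟨1, one_pos, C, hC⟩

/-- **THE STEP OF THE TOP LEVEL**, coin free -/
theorem pieceStep_top {j : ℕ} (hj : 3 ≤ j) : PieceStep0 OpenTop j := by
  intro hB hO
  have hN := names_of (by omega) hB
  obtain ⟨C1, hA⟩ := cmAll_of (by omega) hN (hotAll_of hO.hot)
  obtain ⟨c, D, hc, hV⟩ := nv_of hj hN hB 4
  obtain ⟨C, hP⟩ := Asm.pieceBin0_of hj (by omega : 2 ≤ c) hV (Asm.coldA_of_cmAll (by omega) hA hO.pc)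
  exact ⟨1, one_pos, C, hP⟩

/-! ### every number of vertices -/

/-- **everything which is open below and at the level `m`** -/
structure Open (m : ℕ) : Prop where
  /-- HARM(k) -/
  harm : ∀ k, 3 ≤ k → k < m → HarmAll k
  /-- (CL_v) -/
  cls : ∀ v, 3 ≤ v → v + 2 ≤ m → ClsAll v
  /-- theorem CM with a coin: the cold inputs of at most two vertices -/
  hotc2 : ∀ j, 4 ≤ j → j < m → HotCP (fun n => n ≤ 2) j
  /-- (COLD_S), levels below `m` -/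
  mid : ∀ j, 5 ≤ j → j < m → OpenMid j
  /-- (COLD_S), level `m` -/
  top : 5 ≤ m → OpenTop m

theorem Open.mid' {m : ℕ} (h : Open m) (j : ℕ) (hj : j < m) : OpenMid j := by
  rcases Nat.lt_or_ge j 5 with h5 | h5
  · exact openMid_le4 (by omega)
  · exact h.mid j h5 hj

theorem Open.top' {m : ℕ} (h : Open m) : OpenTop m := by
  rcases Nat.lt_or_ge m 5 with h5 | h5
  · exact (openMid_le4 (by omega)).top
  · exact h.top h5

theorem Open.below {m : ℕ} (h : Open m) : Below m :=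
  below_ind OpenMid (fun j h3 hj => by
    rcases Nat.lt_or_ge j 4 with h4 | h4
    · have : j = 3 := by omega
      subst this
      exact pieceStep_three
    · exact pieceStep_mid h3 (h.hotc2 j h4 hj)) h.harm h.cls (fun j _ hj => h.mid' j hj)

/-- **THE THEOREM OF SECTION 5 from the open inputs** -/
theorem sec5_of_open {n : ℕ} (hn : 1 ≤ n) (h : Open (n + 2)) : Sec5 n := by
  obtain ⟨κ, hκ, C, hP⟩ := pieceStep_top (by omega) h.below h.top'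
  obtain ⟨C', -, hS⟩ := smiBin0_of_piece0 (by omega) hκ hP
  exact sec5_of_smi0 hS

/-- **EVERY NUMBER OF COMMUTING MAPS, up to `m`** -/
theorem final_of_upto {m : ℕ} (h : ∀ j, 4 ≤ j → j ≤ m → Open j) : ∀ j, 3 ≤ j → j ≤ m → BinI (Fin j) := by
  intro j hj
  induction j, hj using Nat.le_induction with
  | base => exact fun _ => binI_three
  | succ j hj ih =>
    intro hjm
    obtain ⟨n, rfl⟩ : ∃ n, j = n + 1 := ⟨j - 1, by omega⟩
    exact binI_step (ih (by omega)) (sec5_of_open (by omega) (h (n + 2) (by omega) (by omega)))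

/-- **EVERY NUMBER OF COMMUTING MAPS** -/
theorem final_all_of (h : ∀ m, 4 ≤ m → Open m) : ∀ m, 3 ≤ m → Pool.PWM.FinalM m := fun m hm =>
  final_of_binI (final_of_upto (m := m) (fun j h4 _ => h j h4) m hm le_rfl)

/-- four vertices: the same inputs as `GM/Top4` -/
theorem final4_ofM (hH : HarmAll 3) : Pool.PWM.FinalM 4 := by
  refine final_of_binI (final_of_upto (m := 4) (fun j h4 hj => ?_) 4 (by norm_num) le_rfl)
  have : j = 4 := by omega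
  subst this
  exact ⟨fun k h3 hk => by
      have : k = 3 := by omega
      subst this
      exact hH, fun v h3 hv => by omega, fun j h4 hj => by omega, fun j h5 hj => by omega, fun h5 => by omega⟩

/-- **every number of vertices**, the open inputs listed once -/
theorem final_all (harm : ∀ k, 3 ≤ k → HarmAll k) (cls : ∀ v, 3 ≤ v → ClsAll v)
    (hotc2 : ∀ j, 4 ≤ j → HotCP (fun n => n ≤ 2) j) (cold : ∀ j, 5 ≤ j → OpenMid j) :
    ∀ m, 3 ≤ m → Pool.PWM.FinalM m :=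
  final_all_of fun _ _ => ⟨fun k h3 _ => harm k h3, fun v h3 _ => cls v h3,
    fun j h4 _ => hotc2 j h4, fun j h5 _ => cold j h5, fun h5 => (cold _ h5).top⟩

end

end Pool.Agent.GM.Top
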